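import Mathlib
import Pool.Agent.Lib.P0c8ca5R.Final
import Pool.Agent.Lib.P0c8ca5R.BrB
import Pool.Agent.Lib.P0c8ca5.Official

/-!
# P0c8ca5Ex: blocks with abelian defect groups and free inertial quotients

Definitions over the field `k`.

* `C1 u`: the centralizer of `u`;
* `PrimIn S i`: `i` is a primitive idempotent of the subalgebra `S`;
* `St D f`: the elements normalizing `D` and fixing `f`;
* `eN D f`: the order of the inertial quotient `St D f / C(D)`;
* `Root p b D f`: `b` is a block of `kA` with the abelian defect group `D`, `f` a block of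
  `C(D)` below `b`;
* `Free D f`: the elements of `St D f` outside `C(D)` have no fixed points on `D - 1`;
* `Src p b D f i`: `Root p b D f` and `i` is a primitive idempotent of `(kA)^D` below `b` and `f`
  with nonzero Brauer image.
-/

namespace Pool.Agent.Lib.P0c8ca5.Ex

open MonoidAlgebra

section
variable {k : Type*} [Field k] {A : Type*} [Group A]

/-- the centralizer of `u` -/
abbrev C1 (u : A) : Subgroup A := Subgroup.centralizer ({u} : Set A)

/-- the centralizer of `D` -/
abbrev CD (D : Subgroup A) : Subgroup A := Subgroup.centralizer (D : Set A)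

/-- `i` is a primitive idempotent of the subalgebra `S` -/
structure PrimIn (S : Subalgebra k (MonoidAlgebra k A)) (i : MonoidAlgebra k A) : Prop where
  mem : i ∈ S
  idem : i * i = i
  ne : i ≠ 0
  prim : ∀ j ∈ S, j * j = j → i * j = j → j * i = j → j = 0 ∨ j = i

/-- the elements normalizing `D` and fixing `f` -/
def St (D : Subgroup A) (f : MonoidAlgebra k A) : Subgroup A where
  carrier := {g | g ∈ Subgroup.normalizer (D : Set A) ∧ cj g f = f}
  mul_mem' := by
    rintro g h ⟨hg, hg'⟩ ⟨hh, hh'⟩
    exact ⟨Subgroup.mul_mem _ hg hh, by rw [← cj_cj, hh', hg']⟩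
  one_mem' := ⟨Subgroup.one_mem _, cj_one_left f⟩
  inv_mem' := by
    rintro g ⟨hg, hg'⟩
    refine ⟨Subgroup.inv_mem _ hg, ?_⟩
    have h : cj g⁻¹ (cj g f) = f := by rw [cj_cj, inv_mul_cancel, cj_one_left]
    rwa [hg'] at h

theorem mem_St {D : Subgroup A} {f : MonoidAlgebra k A} {g : A} :
    g ∈ St D f ↔ g ∈ Subgroup.normalizer (D : Set A) ∧ cj g f = f := Iff.rfl

/-- the order of the inertial quotient -/
noncomputable def eN (D : Subgroup A) (f : MonoidAlgebra k A) : ℕ := (CD D).relIndex (St D f)

/-- `b` is a block with the abelian defect group `D` and `f` a block of `C(D)` below `b` -/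
structure Root (p : ℕ) (b : MonoidAlgebra k A) (D : Subgroup A) (f : MonoidAlgebra k A) :
    Prop where
  blk : IsBlock (⊤ : Subgroup A) b
  dfg : IsDefectGroup p (⊤ : Subgroup A) b D
  com : ∀ x ∈ D, ∀ y ∈ D, x * y = y * x
  fblk : IsBlock (CD D) f
  bf : resS (CD D : Set A) b * f = f

/-- the inertial quotient acts freely on the nontrivial elements of `D` -/
def Free (D : Subgroup A) (f : MonoidAlgebra k A) : Prop :=
  ∀ g ∈ St D f, ∀ u ∈ D, u ≠ 1 → g * u = u * g → g ∈ CD D

/-- `i` is a primitive idempotent of `(kA)^D` below `b` and `f`, with nonzero Brauer image -/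
structure Src (p : ℕ) (b : MonoidAlgebra k A) (D : Subgroup A) (f i : MonoidAlgebra k A) :
    Prop where
  root : Root p b D f
  prim : PrimIn (fixAlg k ⊤ D) i
  ib : i * b = i
  mf : i * f = i
  fm : f * i = i
  br : resS (CD D : Set A) i ≠ 0

theorem D_le_CD {D : Subgroup A} (h : ∀ x ∈ D, ∀ y ∈ D, x * y = y * x) : D ≤ CD D := by
  intro x hx
  rw [Subgroup.mem_centralizer_iff]
  exact fun y hy => h y hy x hx

theorem D_le_C1 {D : Subgroup A} (h : ∀ x ∈ D, ∀ y ∈ D, x * y = y * x) {u : A} (hu : u ∈ D) :
    D ≤ C1 u := by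
  intro x hx
  rw [Subgroup.mem_centralizer_singleton_iff]
  exact h x hx u hu

theorem CD_le_C1 {D : Subgroup A} {u : A} (hu : u ∈ D) : CD D ≤ C1 u := by
  intro x hx
  rw [Subgroup.mem_centralizer_singleton_iff]
  exact (Subgroup.mem_centralizer_iff.1 hx u hu).symm

theorem CD_le_St {D : Subgroup A} {f : MonoidAlgebra k A} (hf : IsBlock (CD D) f) :
    CD D ≤ St D f := by
  intro x hx
  exact ⟨Subgroup.centralizer_le_normalizer _ hx, invBy_iff_cj.1 hf.invBy x hx⟩

end

end Pool.Agent.Lib.P0c8ca5.Ex
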