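import Mathlib
import Pool.Agent.Lib.P0c8ca5Ex.Defs

/-!
# Pr: primitive idempotents of subalgebras of `kA`

`PrimIn.fit`: an element of the corner of a primitive idempotent is nilpotent or invertible.
`exists_prim`: a primitive idempotent below `e` on which an additive function does not vanish.
`exists_decomp`: every idempotent is a sum of orthogonal primitive idempotents.
-/

namespace Pool.Agent.Lib.P0c8ca5.Ex

open MonoidAlgebra

variable {k : Type*} [Field k] {A : Type*} [Group A]

namespace PrAux

section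
open Polynomial

theorem exists_pow {B : Type*} [Ring B] [Algebra k B] [FiniteDimensional k B] (a : B) :
    ∃ (n : ℕ) (q : k[X]), a ^ n = a ^ (n + 1) * aeval a q := by
  have hint : IsIntegral k a := Algebra.IsIntegral.isIntegral a
  have hm0 := minpoly.ne_zero hint
  obtain ⟨g, hg, hndvd⟩ :=
    Polynomial.exists_eq_pow_rootMultiplicity_mul_and_not_dvd (minpoly k a) hm0 0
  rw [C_0, sub_zero] at hg hndvd
  have hc : g.coeff 0 ≠ 0 := fun h => hndvd (Polynomial.X_dvd_iff.2 h)
  have h1 := minpoly.aeval k a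
  rw [hg, map_mul, map_pow, aeval_X] at h1
  have h2 : aeval a g = aeval a g.divX * a + algebraMap k B (g.coeff 0) := by
    conv_lhs => rw [← Polynomial.divX_mul_X_add g]
    rw [map_add, map_mul, aeval_X, aeval_C]
  have hcom : aeval a g.divX * a = a * aeval a g.divX := by
    have h4 : aeval a g.divX * aeval a (X : k[X]) = aeval a (X : k[X]) * aeval a g.divX := by
      rw [← map_mul, ← map_mul, mul_comm]
    rwa [aeval_X] at h4
  refine ⟨Polynomial.rootMultiplicity 0 (minpoly k a), - C (g.coeff 0)⁻¹ * g.divX, ?_⟩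
  rw [h2, mul_add, ← Algebra.commutes, ← Algebra.smul_def, hcom, ← mul_assoc, ← pow_succ] at h1
  rw [map_mul, map_neg, aeval_C, neg_mul, mul_neg, ← Algebra.smul_def, mul_smul_comm, ← smul_neg]
  have h3 := eq_neg_of_add_eq_zero_right h1
  rw [← h3, smul_smul, inv_mul_cancel₀ hc, one_smul]

end

/-- the right ideal of `e` -/
noncomputable def ri (k : Type*) [Field k] {A : Type*} [Group A] (e : MonoidAlgebra k A) :
    Submodule k (MonoidAlgebra k A) :=
  LinearMap.range (LinearMap.mulLeft k e)

theorem ri_lt {e j : MonoidAlgebra k A} (hj : j * j = j) (h1 : e * j = j) (h2 : j * e = j)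
    (hne : j ≠ e) : ri k j < ri k e := by
  refine lt_of_le_of_ne ?_ ?_
  · rintro _ ⟨x, rfl⟩
    refine ⟨j * x, ?_⟩
    change e * (j * x) = j * x
    rw [← mul_assoc, h1]
  · intro h
    have h3 : e ∈ ri k e := ⟨1, by change e * 1 = e; rw [mul_one]⟩
    rw [← h] at h3
    obtain ⟨x, hx⟩ := h3
    have h4 : j * x = e := hx
    apply hne
    have h5 : j * e = e := by
      rw [← h4, ← mul_assoc, hj]
    rw [← h2, h5]

theorem finrank_lt [Finite A] {e j : MonoidAlgebra k A} (hj : j * j = j) (h1 : e * j = j)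
    (h2 : j * e = j) (hne : j ≠ e) :
    Module.finrank k ↥(ri k j) < Module.finrank k ↥(ri k e) :=
  Submodule.finrank_lt_finrank_of_lt (ri_lt hj h1 h2 hne)

theorem sub_idem {e j : MonoidAlgebra k A} (he : e * e = e) (hj : j * j = j) (h1 : e * j = j)
    (h2 : j * e = j) : (e - j) * (e - j) = e - j ∧ e * (e - j) = e - j ∧ (e - j) * e = e - j := by
  refine ⟨?_, ?_, ?_⟩
  · rw [sub_mul, mul_sub, mul_sub, he, hj, h1, h2]
    abel
  · rw [mul_sub, he, h1]
  · rw [sub_mul, he, h2]

end PrAux

open PrAux

theorem PrimIn.fit [Finite A] {S : Subalgebra k (MonoidAlgebra k A)} {i : MonoidAlgebra k A}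
    (h : PrimIn S i) {a : MonoidAlgebra k A} (ha : a ∈ S) (h1 : i * a = a) (h2 : a * i = a) :
    IsNilpotent a ∨ ∃ c ∈ S, i * c = c ∧ c * i = c ∧ a * c = i ∧ c * a = i := by
  obtain ⟨n, q, hn⟩ := exists_pow (k := k) a
  set w := Polynomial.aeval a q with hw
  have hwS : w ∈ S := by
    have h3 : w ∈ Algebra.adjoin k {a} := Polynomial.aeval_mem_adjoin_singleton k a
    exact Algebra.adjoin_le (Set.singleton_subset_iff.2 ha) h3
  have hcom : Commute a w := by
    have h3 : Polynomial.aeval a (Polynomial.X : Polynomial k) = a := Polynomial.aeval_X a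
    have h4 : Polynomial.aeval a (Polynomial.X : Polynomial k) * Polynomial.aeval a q =
        Polynomial.aeval a q * Polynomial.aeval a (Polynomial.X : Polynomial k) := by
      rw [← map_mul, ← map_mul, mul_comm]
    rwa [h3] at h4
  -- the idempotent
  set v := a ^ n * w ^ (n + 1) with hv
  have hvS : v ∈ S := S.mul_mem (S.pow_mem ha n) (S.pow_mem hwS (n + 1))
  have hav : a * v = a ^ (n + 1) * w ^ (n + 1) := by
    rw [hv, ← mul_assoc, ← pow_succ']
  have hva : v * a = a ^ (n + 1) * w ^ (n + 1) := by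
    rw [hv, mul_assoc, ← (hcom.pow_right (n + 1)).eq, ← mul_assoc, ← pow_succ]
  have hn' : a ^ (n + 1) = a ^ (n + 1) * (a * w) := by
    have h3 : a ^ (n + 1) = a ^ n * a := pow_succ a n
    calc a ^ (n + 1) = a * a ^ n := pow_succ' a n
      _ = a * (a ^ (n + 1) * w) := by rw [← hn]
      _ = a * a ^ (n + 1) * w := by rw [mul_assoc]
      _ = a ^ (n + 1) * a * w := by rw [← pow_succ', pow_succ]
      _ = a ^ (n + 1) * (a * w) := by rw [mul_assoc]
  have hpow : ∀ m : ℕ, a ^ (n + 1) * (a * w) ^ m = a ^ (n + 1) := by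
    intro m
    induction m with
    | zero => rw [pow_zero, mul_one]
    | succ m ih => rw [pow_succ' (a * w) m, ← mul_assoc, ← hn', ih]
  set e := a ^ (n + 1) * w ^ (n + 1) with he
  have he' : e = (a * w) ^ (n + 1) := by rw [hcom.mul_pow]
  have heS : e ∈ S := S.mul_mem (S.pow_mem ha _) (S.pow_mem hwS _)
  have hee : e * e = e := by
    have hcw : Commute (w ^ (n + 1)) e := by
      have h3 : Commute w e := (hcom.symm.pow_right _).mul_right ((Commute.refl w).pow_right _)
      exact h3.pow_left _
    calc e * e = a ^ (n + 1) * w ^ (n + 1) * e := rfl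
      _ = a ^ (n + 1) * (w ^ (n + 1) * e) := by rw [mul_assoc]
      _ = a ^ (n + 1) * (e * w ^ (n + 1)) := by rw [hcw.eq]
      _ = a ^ (n + 1) * e * w ^ (n + 1) := (mul_assoc _ _ _).symm
      _ = e := by
          have h4 : a ^ (n + 1) * e = a ^ (n + 1) := by rw [he', hpow]
          rw [h4]
  have hie : i * e = e := by rw [← hav, ← mul_assoc, h1]
  have hei : e * i = e := by rw [← hva, mul_assoc, h2]
  rcases h.prim e heS hee hie hei with h0 | h0
  · left
    refine ⟨n + 1, ?_⟩
    rw [← hpow (n + 1), ← he', h0, mul_zero]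
  · right
    refine ⟨i * v * i, S.mul_mem (S.mul_mem h.mem hvS) h.mem, ?_, ?_, ?_, ?_⟩
    · rw [← mul_assoc, ← mul_assoc, h.idem]
    · rw [mul_assoc, h.idem]
    · rw [← mul_assoc, ← mul_assoc, h2, hav, h0, h.idem]
    · rw [mul_assoc, h1, mul_assoc, hva, h0, h.idem]

theorem exists_prim [Finite A] {S : Subalgebra k (MonoidAlgebra k A)} {e : MonoidAlgebra k A}
    (he : e ∈ S) (hee : e * e = e) {M : Type*} [AddCommGroup M] (L : MonoidAlgebra k A →+ M)
    (hL : L e ≠ 0) : ∃ i, PrimIn S i ∧ e * i = i ∧ i * e = i ∧ L i ≠ 0 := by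
  have key : ∀ (n : ℕ) (e : MonoidAlgebra k A), Module.finrank k ↥(ri k e) = n → e ∈ S →
      e * e = e → L e ≠ 0 → ∃ i, PrimIn S i ∧ e * i = i ∧ i * e = i ∧ L i ≠ 0 := by
    intro n
    induction n using Nat.strong_induction_on with
    | _ n ih =>
      intro e hn he hee hL
      by_cases hp : PrimIn S e
      · exact ⟨e, hp, hee, hee, hL⟩
      have he0 : e ≠ 0 := by
        rintro rfl
        exact hL (map_zero L)
      obtain ⟨j, hj, hjj, h1, h2, hj0, hje⟩ : ∃ j ∈ S, j * j = j ∧ e * j = j ∧ j * e = j ∧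
          j ≠ 0 ∧ j ≠ e := by
        by_contra hcon
        push Not at hcon
        refine hp ⟨he, hee, he0, fun j hj hjj h1 h2 => ?_⟩
        by_cases hj0 : j = 0
        · exact Or.inl hj0
        · exact Or.inr (hcon j hj hjj h1 h2 hj0)
      obtain ⟨s1, s2, s3⟩ := sub_idem hee hjj h1 h2
      by_cases hLj : L j = 0
      · have hL' : L (e - j) ≠ 0 := by
          rw [map_sub, hLj, sub_zero]
          exact hL
        have hne : e - j ≠ e := by
          intro h
          exact hj0 (sub_eq_self.1 h)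
        obtain ⟨i, hi, i1, i2, i3⟩ := ih _ (hn ▸ finrank_lt s1 s2 s3 hne) (e - j) rfl
          (S.sub_mem he hj) s1 hL'
        refine ⟨i, hi, ?_, ?_, i3⟩
        · rw [← i1, ← mul_assoc, s2]
        · rw [← i2, mul_assoc, s3]
      · obtain ⟨i, hi, i1, i2, i3⟩ := ih _ (hn ▸ finrank_lt hjj h1 h2 hje) j rfl hj hjj hLj
        refine ⟨i, hi, ?_, ?_, i3⟩
        · rw [← i1, ← mul_assoc, h1]
        · rw [← i2, mul_assoc, h2]
  exact key _ e rfl he hee hL

theorem exists_decomp [Finite A] {S : Subalgebra k (MonoidAlgebra k A)} {e : MonoidAlgebra k A}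
    (he : e ∈ S) (hee : e * e = e) : ∃ (n : ℕ) (t : Fin n → MonoidAlgebra k A),
      (∀ a, PrimIn S (t a)) ∧ (∀ a c, a ≠ c → t a * t c = 0) ∧ ∑ a, t a = e := by
  have key : ∀ (r : ℕ) (e : MonoidAlgebra k A), Module.finrank k ↥(ri k e) = r → e ∈ S →
      e * e = e → ∃ (n : ℕ) (t : Fin n → MonoidAlgebra k A),
      (∀ a, PrimIn S (t a)) ∧ (∀ a c, a ≠ c → t a * t c = 0) ∧ ∑ a, t a = e ∧
      (∀ a, e * t a = t a ∧ t a * e = t a) := by
    intro r
    induction r using Nat.strong_induction_on with
    | _ r ih =>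
      intro e hr he hee
      by_cases hp : PrimIn S e
      · refine ⟨1, fun _ => e, fun _ => hp, fun a c hac => ?_, ?_, fun _ => ⟨hee, hee⟩⟩
        · exact absurd (Subsingleton.elim a c) hac
        · rw [Fin.sum_univ_one]
      by_cases he0 : e = 0
      · refine ⟨0, fun _ => 0, fun a => a.elim0, fun a => a.elim0, ?_, fun a => a.elim0⟩
        rw [he0, Fin.sum_univ_zero]
      obtain ⟨j, hj, hjj, h1, h2, hj0, hje⟩ : ∃ j ∈ S, j * j = j ∧ e * j = j ∧ j * e = j ∧
          j ≠ 0 ∧ j ≠ e := by
        by_contra hcon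
        push Not at hcon
        refine hp ⟨he, hee, he0, fun j hj hjj h1 h2 => ?_⟩
        by_cases hj0 : j = 0
        · exact Or.inl hj0
        · exact Or.inr (hcon j hj hjj h1 h2 hj0)
      obtain ⟨s1, s2, s3⟩ := sub_idem hee hjj h1 h2
      have hne : e - j ≠ e := by
        intro h
        exact hj0 (sub_eq_self.1 h)
      obtain ⟨n, t, t1, t2, t3, t4⟩ := ih _ (hr ▸ finrank_lt hjj h1 h2 hje) j rfl hj hjj
      obtain ⟨m, u, u1, u2, u3, u4⟩ := ih _ (hr ▸ finrank_lt s1 s2 s3 hne) (e - j) rfl
        (S.sub_mem he hj) s1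
      have htu : ∀ a c, t a * u c = 0 := by
        intro a c
        rw [← (t4 a).2, ← (u4 c).1, mul_assoc, ← mul_assoc j, mul_sub, h2, hjj, sub_self, zero_mul,
          mul_zero]
      have hut : ∀ a c, u c * t a = 0 := by
        intro a c
        rw [← (t4 a).1, ← (u4 c).2, mul_assoc, ← mul_assoc (e - j), sub_mul, h1, hjj, sub_self,
          zero_mul, mul_zero]
      refine ⟨n + m, Fin.append t u, ?_, ?_, ?_, ?_⟩
      · intro a
        refine Fin.addCases (fun a => ?_) (fun a => ?_) a
        · rw [Fin.append_left]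
          exact t1 a
        · rw [Fin.append_right]
          exact u1 a
      · intro a c
        refine Fin.addCases (fun a => ?_) (fun a => ?_) a
        · refine Fin.addCases (fun c => ?_) (fun c => ?_) c
          · intro hac
            rw [Fin.append_left, Fin.append_left]
            exact t2 a c fun h => hac (by rw [h])
          · intro _
            rw [Fin.append_left, Fin.append_right]
            exact htu a c
        · refine Fin.addCases (fun c => ?_) (fun c => ?_) c
          · intro _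
            rw [Fin.append_left, Fin.append_right]
            exact hut c a
          · intro hac
            rw [Fin.append_right, Fin.append_right]
            exact u2 a c fun h => hac (by rw [h])
      · rw [Fin.sum_univ_add]
        simp only [Fin.append_left, Fin.append_right]
        rw [t3, u3]
        abel
      · intro a
        refine Fin.addCases (fun a => ?_) (fun a => ?_) a
        · rw [Fin.append_left]
          refine ⟨?_, ?_⟩
          · rw [← (t4 a).1, ← mul_assoc, h1]
          · rw [← (t4 a).2, mul_assoc, h2]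
        · rw [Fin.append_right]
          refine ⟨?_, ?_⟩
          · rw [← (u4 a).1, ← mul_assoc, s2]
          · rw [← (u4 a).2, mul_assoc, s3]
  obtain ⟨n, t, h1, h2, h3, _⟩ := key _ e rfl he hee
  exact ⟨n, t, h1, h2, h3⟩

end Pool.Agent.Lib.P0c8ca5.Ex
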