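import Mathlib
import Pool.Agent.Lib.P0c8ca5Ex.Defs
import Pool.Agent.Lib.P0c8ca5Ex.Pr

/-!
# Br: the Brauer map for subgroups of `D` on `(kA)^D`

PROOF. `resS_CD_mul`: `resS_mul` (P0c8ca5.Basic) for the p-group `Q` (`InvBy.mono hQ`).
`resS_CD_CD`: coefficients; `CD D ≤ CD Q` (`Subgroup.centralizer_le`).
`resS_CD_inv`: `D` normalizes `CD Q` (it is contained in `CD Q` because `D` is abelian and `Q ≤ D`), so the set `CD Q` is stable under conjugation by `D`.
`PrimIn.br`: put `s = resS (CD Q) i`. `s` is in `fixAlg k (CD Q) D`, idempotent (`resS_CD_mul`), not 0. Let `j` be in `fixAlg k (CD Q) D`, `j * j = j`, `s * j = j = j * s`. Then `j ∈ fixAlg k ⊤ D`; let `a = i * j * i`, `resS (CD Q) a = s * j * s = j` (`resS (CD Q) j = j` by the support). `h.fit` for `a`: if `a ^ n = 0` then `j = j ^ n = resS (a ^ n) = 0`; if `a * c = i` then `j * resS c = s`, so `j = j * s = j * (j * resS c) = j * resS c = s`.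
-/

namespace Pool.Agent.Lib.P0c8ca5.Ex

open MonoidAlgebra

variable {p : ℕ} {k : Type*} [Field k] {A : Type*} [Group A]

namespace BrAux

theorem resS_of_SuppIn {L : Subgroup A} {a : MonoidAlgebra k A} (h : SuppIn L a) :
    resS (L : Set A) a = a := by
  ext x
  rw [coeff_resS]
  split_ifs with hx
  · rfl
  · by_contra h0
    exact hx (h x fun h1 => h0 h1.symm)

theorem resS_pow [Fact p.Prime] [CharP k p] [Finite A] {D Q : Subgroup A} (hQ : Q ≤ D)
    (hD : IsPGroup p D) {a : MonoidAlgebra k A} (ha : a ∈ fixAlg k (⊤ : Subgroup A) D) (n : ℕ) :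
    resS (CD Q : Set A) (a ^ (n + 1)) = (resS (CD Q : Set A) a) ^ (n + 1) := by
  induction n with
  | zero => simp
  | succ n ih =>
    rw [pow_succ a (n + 1), pow_succ _ (n + 1), ← ih]
    exact resS_mul (hD.to_le hQ) ((mem_fixAlg.1 (Subalgebra.pow_mem _ ha _)).2.mono hQ)
      ((mem_fixAlg.1 ha).2.mono hQ)

end BrAux

theorem resS_CD_mul [Fact p.Prime] [CharP k p] [Finite A] {D Q : Subgroup A} (hQ : Q ≤ D)
    (hD : IsPGroup p D) {a c : MonoidAlgebra k A} (ha : InvBy D a) (hc : InvBy D c) :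
    resS (CD Q : Set A) (a * c) = resS (CD Q : Set A) a * resS (CD Q : Set A) c :=
  resS_mul (hD.to_le hQ) (ha.mono hQ) (hc.mono hQ)

theorem resS_CD_CD {D Q : Subgroup A} (hQ : Q ≤ D) (a : MonoidAlgebra k A) :
    resS (CD D : Set A) (resS (CD Q : Set A) a) = resS (CD D : Set A) a := by
  ext x
  by_cases hx : x ∈ (CD D : Set A)
  · have hx' : x ∈ (CD Q : Set A) := Subgroup.centralizer_le hQ hx
    rw [coeff_resS_of_mem _ hx, coeff_resS_of_mem _ hx, coeff_resS_of_mem _ hx']
  · rw [coeff_resS_of_notMem _ hx, coeff_resS_of_notMem _ hx]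

theorem resS_CD_inv {D Q : Subgroup A} (hQ : Q ≤ D) (hcom : ∀ x ∈ D, ∀ y ∈ D, x * y = y * x)
    {a : MonoidAlgebra k A} (ha : InvBy D a) :
    resS (CD Q : Set A) a ∈ fixAlg k (CD Q) D := by
  have hDC : D ≤ CD Q := by
    intro x hx
    rw [Subgroup.mem_centralizer_iff]
    exact fun y hy => hcom y (hQ hy) x hx
  rw [mem_fixAlg]
  refine ⟨?_, ?_⟩
  · intro x hx
    by_contra h
    exact hx (coeff_resS_of_notMem a h)
  · intro g hg x
    have hgC := hDC hg
    rw [coeff_resS, coeff_resS, ha g hg x]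
    have h1 : g * x * g⁻¹ ∈ (CD Q : Set A) ↔ x ∈ (CD Q : Set A) := by
      constructor
      · intro h
        have h2 := (CD Q).mul_mem ((CD Q).mul_mem ((CD Q).inv_mem hgC) h) hgC
        have h3 : g⁻¹ * (g * x * g⁻¹) * g = x := by group
        rw [h3] at h2
        exact h2
      · intro h
        exact (CD Q).mul_mem ((CD Q).mul_mem hgC h) ((CD Q).inv_mem hgC)
    by_cases hx : x ∈ (CD Q : Set A)
    · rw [if_pos hx, if_pos (h1.2 hx)]
    · rw [if_neg hx, if_neg (fun h => hx (h1.1 h))]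

theorem PrimIn.br [Fact p.Prime] [CharP k p] [Finite A] {D Q : Subgroup A} (hQ : Q ≤ D)
    (hD : IsPGroup p D) (hcom : ∀ x ∈ D, ∀ y ∈ D, x * y = y * x) {i : MonoidAlgebra k A}
    (h : PrimIn (fixAlg k ⊤ D) i) (h0 : resS (CD Q : Set A) i ≠ 0) :
    PrimIn (fixAlg k (CD Q) D) (resS (CD Q : Set A) i) := by
  have hi : InvBy D i := (mem_fixAlg.1 h.mem).2
  refine ⟨resS_CD_inv hQ hcom hi, ?_, h0, ?_⟩
  · rw [← resS_CD_mul hQ hD hi hi, h.idem]
  · intro j hj hjj h1 h2
    have hjm := mem_fixAlg.1 hj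
    have hjT : j ∈ fixAlg k (⊤ : Subgroup A) D :=
      mem_fixAlg.2 ⟨fun x _ => Subgroup.mem_top x, hjm.2⟩
    have hrj : resS (CD Q : Set A) j = j := BrAux.resS_of_SuppIn hjm.1
    set a := i * j * i with ha
    have haT : a ∈ fixAlg k (⊤ : Subgroup A) D :=
      Subalgebra.mul_mem _ (Subalgebra.mul_mem _ h.mem hjT) h.mem
    have hij : i * j ∈ fixAlg k (⊤ : Subgroup A) D := Subalgebra.mul_mem _ h.mem hjT
    have hra : resS (CD Q : Set A) a = j := by
      rw [ha, resS_CD_mul hQ hD (mem_fixAlg.1 hij).2 hi, resS_CD_mul hQ hD hi hjm.2, hrj, h1, h2]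
    have e1 : i * a = a := by
      rw [ha, ← mul_assoc, ← mul_assoc, h.idem]
    have e2 : a * i = a := by
      rw [ha, mul_assoc, h.idem]
    rcases h.fit haT e1 e2 with ⟨n, hn⟩ | ⟨c, hcS, -, -, h5, -⟩
    · left
      have h3 : a ^ (n + 1) = 0 := by rw [pow_succ, hn, zero_mul]
      have h4 := BrAux.resS_pow hQ hD haT n
      rw [h3, resS_zero, hra] at h4
      have h6 : ∀ m : ℕ, j ^ (m + 1) = j := by
        intro m
        induction m with
        | zero => simp
        | succ m ih => rw [pow_succ, ih, hjj]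
      rw [h6] at h4
      exact h4.symm
    · right
      have h6 : j * resS (CD Q : Set A) c = resS (CD Q : Set A) i := by
        rw [← h5, resS_CD_mul hQ hD (mem_fixAlg.1 haT).2 (mem_fixAlg.1 hcS).2, hra]
      calc j = j * resS (CD Q : Set A) i := h2.symm
        _ = j * (j * resS (CD Q : Set A) c) := by rw [h6]
        _ = j * resS (CD Q : Set A) c := by rw [← mul_assoc, hjj]
        _ = resS (CD Q : Set A) i := h6

theorem CD_zpowers (u : A) : CD (Subgroup.zpowers u) = C1 u := by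
  ext x
  rw [Subgroup.mem_centralizer_iff, Subgroup.mem_centralizer_singleton_iff]
  constructor
  · intro h
    exact (h u (Subgroup.mem_zpowers u)).symm
  · intro h y hy
    obtain ⟨n, rfl⟩ := Subgroup.mem_zpowers_iff.1 hy
    exact ((Commute.zpow_right (show Commute x u from h) n).eq).symm

end Pool.Agent.Lib.P0c8ca5.Ex
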