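import Mathlib

/-!
# GC: the number of fixed points of a permutation from a block decomposition

`trace_perm`: vectors `t r j` (`j ∈ J r`) of `K ^ I` and dual vectors `t' r j` with block diagonal
Gram matrix and nonsingular blocks, which span `K ^ I`; a permutation `s` of `I` fixing the vectors
`t r₁ j` and carrying the space of the `t r j` (`r ≠ r₁`) into the annihilator of the `t' r j'`.
Then `s` has `card (J r₁)` fixed points.
-/

namespace Pool.Agent.Lib.P0c8ca5.Ex

open Finset

theorem trace_perm {K : Type*} [Field K] [CharZero K] {I : Type*} [Fintype I] [DecidableEq I]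
    {R : Type*} [Fintype R] [DecidableEq R] {J : R → Type*} [∀ r, Fintype (J r)]
    [∀ r, DecidableEq (J r)] (t t' : ∀ r, J r → I → K) (s : Equiv.Perm I) (r₁ : R)
    (h0 : ∀ r r', r ≠ r' → ∀ j j', ∑ i, t r j i * t' r' j' i = 0)
    (hdet : ∀ r, (Matrix.of fun j j' => ∑ i, t r j i * t' r j' i).det ≠ 0)
    (hinj : ∀ a : I → K, (∀ r j, ∑ i, t r j i * a i = 0) → a = 0)
    (h1 : ∀ j i, t r₁ j (s i) = t r₁ j i)
    (h2 : ∀ r, r ≠ r₁ → ∀ j j', ∑ i, t r j (s i) * t' r j' i = 0) :
    (univ.filter fun i => s i = i).card = Fintype.card (J r₁) := by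
  classical
  let G : ∀ r, Matrix (J r) (J r) K := fun r => Matrix.of fun j j' => ∑ i, t r j i * t' r j' i
  have hG : ∀ r, G r * (G r)⁻¹ = 1 := fun r => Matrix.mul_nonsing_inv _ (isUnit_iff_ne_zero.2 (hdet r))
  let X : Matrix (Σ r, J r) I K := fun x i => t x.1 x.2 i
  let Y : Matrix I (Σ r, J r) K := fun i x => ∑ j', t' x.1 j' i * (G x.1)⁻¹ j' x.2
  have hgen : ∀ (w : I → K) (y : Σ r, J r), ∑ i, w i * Y i y
      = ∑ j', (∑ i, w i * t' y.1 j' i) * (G y.1)⁻¹ j' y.2 := by
    intro w y
    simp only [Y, Finset.mul_sum, Finset.sum_mul]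
    rw [Finset.sum_comm]
    exact Finset.sum_congr rfl fun j' _ => Finset.sum_congr rfl fun i _ => by ring
  have hXY : X * Y = 1 := by
    ext x y
    rw [Matrix.mul_apply, hgen]
    obtain ⟨r, j⟩ := x
    obtain ⟨r', j'⟩ := y
    by_cases hr : r = r'
    · subst hr
      have e1 : ∑ l, (∑ i, X ⟨r, j⟩ i * t' r l i) * (G r)⁻¹ l j' = (G r * (G r)⁻¹) j j' := by
        rw [Matrix.mul_apply]
        rfl
      rw [e1, hG]
      by_cases hj : j = j'
      · subst hj
        rw [Matrix.one_apply_eq, Matrix.one_apply_eq]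
      · rw [Matrix.one_apply_ne hj, Matrix.one_apply_ne]
        intro h
        exact hj (by simpa using h)
    · rw [Matrix.one_apply_ne (fun h => hr (congrArg Sigma.fst h))]
      refine Finset.sum_eq_zero fun l _ => ?_
      have e1 : ∑ i, X ⟨r, j⟩ i * t' r' l i = 0 := h0 r r' hr j l
      rw [e1, zero_mul]
  have hYX : Y * X = 1 := by
    have e1 : X * (Y * X - 1) = 0 := by
      rw [Matrix.mul_sub, ← Matrix.mul_assoc, hXY, Matrix.one_mul, Matrix.mul_one, sub_self]
    have e2 : Y * X - 1 = 0 := by
      ext i i'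
      have e3 := hinj (fun l => (Y * X - 1 : Matrix I I K) l i') fun r j => by
        have e4 := congrFun (congrFun e1 ⟨r, j⟩) i'
        rw [Matrix.mul_apply] at e4
        exact e4
      exact congrFun e3 i
    exact sub_eq_zero.1 e2
  let P : Matrix I I K := fun i' i => if i' = s i then 1 else 0
  have hXP : ∀ x i, (X * P) x i = X x (s i) := by
    intro x i
    rw [Matrix.mul_apply, Finset.sum_eq_single (s i)]
    · simp [P]
    · intro i' _ hi'
      simp [P, hi']
    · intro h
      exact absurd (Finset.mem_univ _) h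
  have htr : P.trace = ((univ.filter fun i => s i = i).card : K) := by
    rw [Matrix.trace, Finset.card_filter, Nat.cast_sum]
    refine Finset.sum_congr rfl fun i _ => ?_
    simp only [Matrix.diag_apply, P, eq_comm (a := i)]
    split_ifs <;> simp
  have htr2 : P.trace = ((Fintype.card (J r₁) : ℕ) : K) := by
    have e1 : P.trace = (X * P * Y).trace := by
      calc P.trace = (P * (Y * X)).trace := by rw [hYX, Matrix.mul_one]
        _ = (P * Y * X).trace := by rw [Matrix.mul_assoc]
        _ = (X * (P * Y)).trace := Matrix.trace_mul_comm _ _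
        _ = (X * P * Y).trace := by rw [Matrix.mul_assoc]
    rw [e1, Matrix.trace, Fintype.sum_sigma, Finset.sum_eq_single r₁]
    · rw [Finset.sum_congr rfl (g := fun _ => (1 : K)), Finset.sum_const, Finset.card_univ,
        nsmul_eq_mul, mul_one]
      intro j _
      rw [Matrix.diag_apply, Matrix.mul_apply, hgen]
      have e2 : ∑ l, (∑ i, (X * P) ⟨r₁, j⟩ i * t' r₁ l i) * (G r₁)⁻¹ l j
          = (G r₁ * (G r₁)⁻¹) j j := by
        rw [Matrix.mul_apply]
        refine Finset.sum_congr rfl fun l _ => ?_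
        congr 1
        refine Finset.sum_congr rfl fun i _ => ?_
        rw [hXP]
        exact congrArg (· * t' r₁ l i) (h1 j i)
      rw [e2, hG, Matrix.one_apply_eq]
    · intro r _ hr
      refine Finset.sum_eq_zero fun j _ => ?_
      rw [Matrix.diag_apply, Matrix.mul_apply, hgen]
      refine Finset.sum_eq_zero fun l _ => ?_
      have e2 : ∑ i, (X * P) ⟨r, j⟩ i * t' r l i = 0 := by
        rw [← h2 r hr j l]
        refine Finset.sum_congr rfl fun i _ => ?_
        rw [hXP]
      rw [e2, zero_mul]
    · intro h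
      exact absurd (Finset.mem_univ _) h
  have := htr.symm.trans htr2
  exact_mod_cast this

end Pool.Agent.Lib.P0c8ca5.Ex
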