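import Mathlib

/-!
# FA: a counting lemma (pure linear algebra)

`card_ge`: integer vectors `a j` (`j ∈ J₁`) such that every integer relation between them is
divisible by `p`, and vectors `t r`, `s r` (`r ∈ J₂`) with `t r ⬝ s r' = 0` for `r ≠ r'`,
`t r ⬝ s r ≠ 0` and `a j ⬝ s r = 0`: then the number of coordinates is at least `|J₁| + |J₂|`.
-/

namespace Pool.Agent.Lib.P0c8ca5.Ex

section
variable {I J1 J2 : Type*} [Fintype I] [Fintype J1] [Fintype J2]

omit [Fintype I] in
/-- integer vectors all of whose integer relations are divisible by `p` are independent -/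
theorem rel_zero {p : ℕ} (hp : 1 < p) (a : J1 → I → ℤ)
    (ha : ∀ n : J1 → ℤ, (∀ i, ∑ j, n j * a j i = 0) → ∀ j, (p : ℤ) ∣ n j)
    (n : J1 → ℤ) (hn : ∀ i, ∑ j, n j * a j i = 0) : n = 0 := by
  have hp0 : (p : ℤ) ≠ 0 := by exact_mod_cast (by omega : p ≠ 0)
  have key : ∀ N : ℕ, ∀ n : J1 → ℤ, (∀ i, ∑ j, n j * a j i = 0) → ∀ j, (p : ℤ) ^ N ∣ n j := by
    intro N
    induction N with
    | zero => intro n _ j; rw [pow_zero]; exact one_dvd _
    | succ N ih =>
      intro n hn j
      choose m hm using ha n hn
      have h1 : ∀ i, ∑ j, m j * a j i = 0 := by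
        intro i
        have h2 := hn i
        simp only [hm, mul_assoc, ← Finset.mul_sum] at h2
        exact (mul_eq_zero.1 h2).resolve_left hp0
      rw [hm j, pow_succ']
      exact mul_dvd_mul_left _ (ih m h1 j)
  funext j
  by_contra h
  have h1 := Int.natAbs_dvd_natAbs.2 (key (n j).natAbs n hn j)
  rw [Int.natAbs_pow, Int.natAbs_natCast] at h1
  have h2 := Nat.le_of_dvd (Int.natAbs_pos.2 h) h1
  have h3 := Nat.lt_pow_self hp (n := (n j).natAbs)
  omega

theorem card_ge {p : ℕ} (hp : 1 < p) {K : Type*} [Field K] [CharZero K] (a : J1 → I → ℤ)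
    (t s : J2 → I → K)
    (ha : ∀ n : J1 → ℤ, (∀ i, ∑ j, n j * a j i = 0) → ∀ j, (p : ℤ) ∣ n j)
    (h1 : ∀ r r', r ≠ r' → ∑ i, t r i * s r' i = 0)
    (h2 : ∀ r, ∑ i, t r i * s r i ≠ 0)
    (h3 : ∀ j r, ∑ i, (a j i : K) * s r i = 0) :
    Fintype.card J1 + Fintype.card J2 ≤ Fintype.card I := by
  classical
  let C : Matrix J1 J1 ℤ := fun j j' => ∑ i, a j i * a j' i
  have hC : C.det ≠ 0 := by
    intro h0
    obtain ⟨v, hv, hv2⟩ := Matrix.exists_mulVec_eq_zero_iff.2 h0
    apply hv
    apply rel_zero hp a ha
    have e : ∑ i, (∑ j, v j * a j i) ^ 2 = 0 := by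
      have e1 : ∑ i, (∑ j, v j * a j i) ^ 2 = ∑ j, v j * (C.mulVec v) j := by
        simp only [Matrix.mulVec, dotProduct, C, sq, Finset.mul_sum, Finset.sum_mul]
        rw [Finset.sum_comm]
        refine Finset.sum_congr rfl fun j _ => ?_
        rw [Finset.sum_comm]
        refine Finset.sum_congr rfl fun j' _ => Finset.sum_congr rfl fun i _ => ?_
        ring
      rw [e1, hv2]
      simp
    intro i
    have e2 := (Finset.sum_eq_zero_iff_of_nonneg (fun i _ => sq_nonneg _)).1 e i
      (Finset.mem_univ i)
    exact (pow_eq_zero_iff two_ne_zero).1 e2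
  have hC' : (C.map (Int.castRingHom K)).det ≠ 0 := by
    have e1 : (C.map (Int.castRingHom K)).det = ((C.det : ℤ) : K) := by
      have := RingHom.map_det (Int.castRingHom K) C
      rw [← RingHom.mapMatrix_apply, ← this]
      rfl
    rw [e1]
    exact_mod_cast hC
  have hli : LinearIndependent K (Sum.elim (fun j => fun i => (a j i : K)) t) := by
    rw [Fintype.linearIndependent_iff]
    intro g hg
    have hw : ∀ w : I → K, ∑ j, g (Sum.inl j) * ∑ i, (a j i : K) * w i +
        ∑ r, g (Sum.inr r) * ∑ i, t r i * w i = 0 := by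
      intro w
      have e1 : ∑ i, (∑ x, g x • Sum.elim (fun j => fun i => (a j i : K)) t x) i * w i = 0 := by
        rw [hg]
        simp
      rw [← e1]
      simp only [Finset.sum_apply, Pi.smul_apply, smul_eq_mul, Fintype.sum_sum_type,
        Sum.elim_inl, Sum.elim_inr, Finset.sum_mul, Finset.mul_sum, add_mul,
        Finset.sum_add_distrib]
      congr 1
      · rw [Finset.sum_comm]
        exact Finset.sum_congr rfl fun i _ => Finset.sum_congr rfl fun j _ => by ring
      · rw [Finset.sum_comm]
        exact Finset.sum_congr rfl fun i _ => Finset.sum_congr rfl fun j _ => by ring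
    have hr : ∀ r, g (Sum.inr r) = 0 := by
      intro r
      have e1 := hw (s r)
      simp only [h3, mul_zero, Finset.sum_const_zero, zero_add] at e1
      rw [Finset.sum_eq_single r] at e1
      · exact (mul_eq_zero.1 e1).resolve_right (h2 r)
      · intro r' _ hne
        rw [h1 r' r hne, mul_zero]
      · intro h
        exact absurd (Finset.mem_univ r) h
    have hj : (fun j => g (Sum.inl j)) = 0 := by
      apply Matrix.eq_zero_of_mulVec_eq_zero hC'
      funext j
      have e1 := hw (fun i => (a j i : K))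
      simp only [hr, zero_mul, Finset.sum_const_zero, add_zero] at e1
      rw [Pi.zero_apply, ← e1, Matrix.mulVec, dotProduct]
      refine Finset.sum_congr rfl fun j' _ => ?_
      rw [mul_comm, Matrix.map_apply]
      congr 1
      simp only [C, map_sum, map_mul, eq_intCast]
      exact Finset.sum_congr rfl fun i _ => mul_comm _ _
    rintro (j | r)
    · exact congrFun hj j
    · exact hr r
  have := hli.fintype_card_le_finrank
  rwa [Fintype.card_sum, Module.finrank_fintype_fun_eq_card] at this

/-- the Gram matrix of integer vectors is nonsingular if all relations are divisible by `p` -/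
theorem gram_det [DecidableEq J1] {p : ℕ} (hp : 1 < p) (K : Type*) [Field K] [CharZero K]
    (a : J1 → I → ℤ)
    (ha : ∀ n : J1 → ℤ, (∀ i, ∑ j, n j * a j i = 0) → ∀ j, (p : ℤ) ∣ n j) :
    (Matrix.of fun j j' => ∑ i, (a j i : K) * (a j' i : K)).det ≠ 0 := by
  let C : Matrix J1 J1 ℤ := fun j j' => ∑ i, a j i * a j' i
  have hC : C.det ≠ 0 := by
    intro h0
    obtain ⟨v, hv, hv2⟩ := Matrix.exists_mulVec_eq_zero_iff.2 h0
    apply hv
    apply rel_zero hp a ha
    have e : ∑ i, (∑ j, v j * a j i) ^ 2 = 0 := by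
      have e1 : ∑ i, (∑ j, v j * a j i) ^ 2 = ∑ j, v j * (C.mulVec v) j := by
        simp only [Matrix.mulVec, dotProduct, C, sq, Finset.mul_sum, Finset.sum_mul]
        rw [Finset.sum_comm]
        refine Finset.sum_congr rfl fun j _ => ?_
        rw [Finset.sum_comm]
        refine Finset.sum_congr rfl fun j' _ => Finset.sum_congr rfl fun i _ => ?_
        ring
      rw [e1, hv2]
      simp
    intro i
    have e2 := (Finset.sum_eq_zero_iff_of_nonneg (fun i _ => sq_nonneg _)).1 e i
      (Finset.mem_univ i)
    exact (pow_eq_zero_iff two_ne_zero).1 e2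
  have h1 : (Matrix.of fun j j' => ∑ i, (a j i : K) * (a j' i : K))
      = C.map (Int.castRingHom K) := by
    ext j j'
    rw [Matrix.of_apply, Matrix.map_apply]
    change _ = Int.castRingHom K (∑ i, a j i * a j' i)
    rw [map_sum]
    exact Finset.sum_congr rfl fun i _ => by rw [map_mul]; rfl
  have e1 : (C.map (Int.castRingHom K)).det = ((C.det : ℤ) : K) := by
    have := RingHom.map_det (Int.castRingHom K) C
    rw [← RingHom.mapMatrix_apply, ← this]
    rfl
  rw [h1, e1]
  exact_mod_cast hC

/-- vectors with a block diagonal Gram matrix with nonsingular blocks are independent -/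
theorem card_blocks {K : Type*} [Field K] {R : Type*} [Fintype R] {J : R → Type*}
    [∀ r, Fintype (J r)] [∀ r, DecidableEq (J r)] (t s : ∀ r, J r → I → K)
    (h0 : ∀ r r', r ≠ r' → ∀ j j', ∑ i, t r j i * s r' j' i = 0)
    (hdet : ∀ r, (Matrix.of fun j j' => ∑ i, t r j i * s r j' i).det ≠ 0) :
    ∑ r, Fintype.card (J r) ≤ Fintype.card I := by
  classical
  have hli : LinearIndependent K (fun x : Σ r, J r => t x.1 x.2) := by
    rw [Fintype.linearIndependent_iff]
    intro g hg
    have hw : ∀ w : I → K, ∑ r, ∑ j, g ⟨r, j⟩ * ∑ i, t r j i * w i = 0 := by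
      intro w
      have e1 : ∑ i, (∑ x : Σ r, J r, g x • t x.1 x.2) i * w i = 0 := by
        rw [hg]
        simp
      rw [← e1]
      simp only [Finset.sum_apply, Pi.smul_apply, smul_eq_mul, Finset.sum_mul]
      rw [Finset.sum_comm, Fintype.sum_sigma]
      refine Finset.sum_congr rfl fun r _ => Finset.sum_congr rfl fun j _ => ?_
      rw [Finset.mul_sum]
      exact Finset.sum_congr rfl fun i _ => by ring
    have hr : ∀ r, (fun j => g ⟨r, j⟩) = 0 := by
      intro r
      apply Matrix.eq_zero_of_vecMul_eq_zero (hdet r)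
      funext j'
      have e1 := hw (s r j')
      rw [Finset.sum_eq_single r] at e1
      · exact e1
      · intro r' _ hne
        refine Finset.sum_eq_zero fun j _ => ?_
        rw [h0 r' r hne, mul_zero]
      · intro h
        exact absurd (Finset.mem_univ r) h
    rintro ⟨r, j⟩
    exact congrFun (hr r) j
  have := hli.fintype_card_le_finrank
  rwa [Fintype.card_sigma, Module.finrank_fintype_fun_eq_card] at this

end

end Pool.Agent.Lib.P0c8ca5.Ex
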