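import Mathlib
import Pool.Agent.Lib.P0c8ca5Ex.Defs
import Pool.Agent.Lib.P0c8ca5N.TrDef

/-!
# DefR: conjugation, restriction and inclusion for group algebras over commutative rings
-/

namespace Pool.Agent.Lib.P0c8ca5.Ex

open MonoidAlgebra

section ring
variable {R : Type*} [CommRing R] {A : Type*} [Group A]

/-- conjugation by `g` -/
noncomputable def cjr (g : A) (a : MonoidAlgebra R A) : MonoidAlgebra R A :=
  single g 1 * a * single g⁻¹ 1

/-- the part of `a` supported on `H`, as an element of `R[H]` -/
noncomputable def dnr (H : Subgroup A) (a : MonoidAlgebra R A) : MonoidAlgebra R ↥H :=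
  MonoidAlgebra.comapDomain Subtype.val Subtype.val_injective a

/-- the inclusion `R[H] → R[A]` -/
noncomputable def upr (H : Subgroup A) : MonoidAlgebra R ↥H →ₐ[R] MonoidAlgebra R A :=
  MonoidAlgebra.mapDomainAlgHom R R H.subtype

theorem coeff_cjr (g : A) (a : MonoidAlgebra R A) (x : A) :
    (cjr g a).coeff x = a.coeff (g⁻¹ * x * g) := by
  rw [cjr, coeff_mul_single_apply, coeff_single_mul_apply, one_mul, mul_one, inv_inv, mul_assoc]

theorem coeff_dnr (H : Subgroup A) (a : MonoidAlgebra R A) (x : ↥H) :
    (dnr H a).coeff x = a.coeff (x : A) := rfl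

theorem coeff_upr (H : Subgroup A) (a : MonoidAlgebra R ↥H) (x : ↥H) :
    (upr H a).coeff (x : A) = a.coeff x := by
  change (MonoidAlgebra.mapDomain _ a).coeff _ = _
  rw [MonoidAlgebra.coeff_mapDomain]
  exact Finsupp.mapDomain_apply Subtype.val_injective a.coeff x

theorem coeff_upr_of_notMem (H : Subgroup A) (a : MonoidAlgebra R ↥H) {x : A} (hx : x ∉ H) :
    (upr H a).coeff x = 0 := by
  change (MonoidAlgebra.mapDomain _ a).coeff _ = _
  rw [MonoidAlgebra.coeff_mapDomain]
  refine Finsupp.mapDomain_of_notMem_range _ _ ?_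
  rintro ⟨y, rfl⟩
  exact hx y.2

theorem dnr_upr (H : Subgroup A) (a : MonoidAlgebra R ↥H) : dnr H (upr H a) = a := by
  ext x
  rw [coeff_dnr, coeff_upr]

theorem upr_injective (H : Subgroup A) : Function.Injective (upr (R := R) H) :=
  Function.LeftInverse.injective (dnr_upr H)

theorem upr_dnr {H : Subgroup A} {a : MonoidAlgebra R A} (h : ∀ x, a.coeff x ≠ 0 → x ∈ H) :
    upr H (dnr H a) = a := by
  ext x
  by_cases hx : x ∈ H
  · rw [show x = ((⟨x, hx⟩ : ↥H) : A) from rfl, coeff_upr, coeff_dnr]
  · rw [coeff_upr_of_notMem _ _ hx]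
    by_contra h0
    exact hx (h x fun h1 => h0 h1.symm)

theorem upr_single (H : Subgroup A) (x : ↥H) (c : R) :
    upr H (single x c) = single (x : A) c := by
  change MonoidAlgebra.mapDomain _ (single x c) = _
  rw [MonoidAlgebra.mapDomain_single]
  rfl

theorem dnr_add (H : Subgroup A) (a b : MonoidAlgebra R A) : dnr H (a + b) = dnr H a + dnr H b := by
  ext x
  simp only [coeff_dnr, coeff_add, Finsupp.add_apply]

theorem dnr_zero (H : Subgroup A) : dnr H (0 : MonoidAlgebra R A) = 0 := by
  ext x
  rw [coeff_dnr, coeff_zero, coeff_zero, Finsupp.zero_apply, Finsupp.zero_apply]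

theorem dnr_mul_upr (H : Subgroup A) (a : MonoidAlgebra R A) (b : MonoidAlgebra R ↥H) [Finite A] :
    dnr H (a * upr H b) = dnr H a * b := by
  classical
  have := Fintype.ofFinite A
  induction b using MonoidAlgebra.induction_linear with
  | zero => rw [map_zero, mul_zero, mul_zero, dnr_zero]
  | add f g hf hg => rw [map_add, mul_add, dnr_add, hf, hg, mul_add]
  | single x c =>
    ext y
    rw [upr_single, coeff_dnr, coeff_mul_single_apply, coeff_mul_single_apply, coeff_dnr]
    rfl

theorem dnr_upr_mul (H : Subgroup A) (a : MonoidAlgebra R A) (b : MonoidAlgebra R ↥H) [Finite A] :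
    dnr H (upr H b * a) = b * dnr H a := by
  classical
  have := Fintype.ofFinite A
  induction b using MonoidAlgebra.induction_linear with
  | zero => rw [map_zero, zero_mul, zero_mul, dnr_zero]
  | add f g hf hg => rw [map_add, add_mul, dnr_add, hf, hg, add_mul]
  | single x c =>
    ext y
    rw [upr_single, coeff_dnr, coeff_single_mul_apply, coeff_single_mul_apply, coeff_dnr]
    rfl

theorem single_inv_mul (g : A) : single g⁻¹ (1 : R) * single g 1 = 1 := by
  rw [single_mul_single, inv_mul_cancel, one_mul, one_def]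

theorem single_mul_inv (g : A) : single g (1 : R) * single g⁻¹ 1 = 1 := by
  rw [single_mul_single, mul_inv_cancel, one_mul, one_def]

theorem cjr_add (g : A) (a b : MonoidAlgebra R A) : cjr g (a + b) = cjr g a + cjr g b := by
  rw [cjr, cjr, cjr, mul_add, add_mul]

theorem cjr_one (g : A) : cjr g (1 : MonoidAlgebra R A) = 1 := by
  rw [cjr, mul_one, single_mul_inv]

theorem cjr_mul (g : A) (a b : MonoidAlgebra R A) : cjr g (a * b) = cjr g a * cjr g b := by
  calc cjr g (a * b) = single g 1 * a * (single g⁻¹ 1 * single g 1) * b * single g⁻¹ 1 := by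
        rw [single_inv_mul, mul_one, cjr]; simp only [mul_assoc]
    _ = cjr g a * cjr g b := by simp only [cjr, mul_assoc]

theorem cjr_cjr (g h : A) (a : MonoidAlgebra R A) : cjr g (cjr h a) = cjr (g * h) a := by
  ext x
  simp only [coeff_cjr]
  congr 1
  group

theorem cjr_one_left (a : MonoidAlgebra R A) : cjr 1 a = a := by
  ext x
  simp [coeff_cjr]

theorem cjr_eq_iff (g : A) (a : MonoidAlgebra R A) :
    cjr g a = a ↔ single g 1 * a = a * single g (1 : R) := by
  constructor
  · intro h
    have h1 := congrArg (fun w => w * single g (1 : R)) h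
    simp only [cjr] at h1
    rw [mul_assoc, single_inv_mul, mul_one] at h1
    exact h1
  · intro h
    rw [cjr, h, mul_assoc, single_mul_inv, mul_one]

end ring

section field
variable {k : Type*} [Field k] {A : Type*} [Group A]

theorem cjr_eq_cj (g : A) (a : MonoidAlgebra k A) : cjr g a = cj g a := rfl

theorem dnr_eq_dn (H : Subgroup A) (a : MonoidAlgebra k A) : dnr H a = dn H a := rfl

end field

section map
variable {R S : Type*} [CommRing R] [CommRing S] {A : Type*} [Group A] (f : R →+* S)

theorem coeff_map (a : MonoidAlgebra R A) (x : A) :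
    (mapRingHom A f a).coeff x = f (a.coeff x) := rfl

theorem map_single (x : A) (c : R) : mapRingHom A f (single x c) = single x (f c) := by
  classical
  ext y
  rw [coeff_map, coeff_single, coeff_single, Finsupp.single_apply, Finsupp.single_apply]
  split_ifs <;> simp

theorem map_cjr (g : A) (a : MonoidAlgebra R A) :
    mapRingHom A f (cjr g a) = cjr g (mapRingHom A f a) := by
  ext x
  rw [coeff_map, coeff_cjr, coeff_cjr, coeff_map]

theorem map_dnr (H : Subgroup A) (a : MonoidAlgebra R A) :
    mapRingHom ↥H f (dnr H a) = dnr H (mapRingHom A f a) := by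
  ext x
  rw [coeff_map, coeff_dnr, coeff_dnr, coeff_map]

theorem map_upr (H : Subgroup A) (a : MonoidAlgebra R ↥H) :
    mapRingHom A f (upr H a) = upr H (mapRingHom ↥H f a) := by
  ext x
  by_cases hx : x ∈ H
  · rw [coeff_map, show x = ((⟨x, hx⟩ : ↥H) : A) from rfl, coeff_upr, coeff_upr, coeff_map]
  · rw [coeff_map, coeff_upr_of_notMem _ _ hx, coeff_upr_of_notMem _ _ hx, map_zero]

end map

end Pool.Agent.Lib.P0c8ca5.Ex
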