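import Mathlib
import Pool.Agent.Lib.P0c8ca5N.ChB
import Pool.Agent.Lib.P0c8ca5N.ChC
import Pool.Agent.Lib.P0c8ca5Ex.DefR

/-!
# FB: idempotents separating the irreducible representations of a block

`exists_idems`: for a block `b` of `kA` and every class `j` of irreducible representations in `b`
there is an idempotent `f j` of `kA b` on which the characters `χ i` of the classes have the values
`δ i j`.
-/

set_option linter.unusedSectionVars false

namespace Pool.Agent.Lib.P0c8ca5.Ex

open MonoidAlgebra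

section wed
variable {k : Type*} [Field k] {G : Type*} [Group G] [Finite G]

theorem repOf_lift {d : ℕ} (τ : MonoidAlgebra k G →ₐ[k] Matrix (Fin d) (Fin d) k)
    (x : MonoidAlgebra k G) :
    (ChC.repOf τ).asAlgebraHom x = Matrix.toLinAlgEquiv' (τ x) := by
  induction x using MonoidAlgebra.induction_linear with
  | zero => rw [map_zero, map_zero, map_zero]
  | add f g hf hg => rw [map_add, map_add, map_add, hf, hg]
  | single g r =>
    rw [Representation.asAlgebraHom_single]
    have h1 : single g r = r • single g (1 : k) := by rw [smul_single, smul_eq_mul, mul_one]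
    rw [h1, map_smul, map_smul]
    rfl

/-- an element acting as zero on all irreducible representations is nilpotent -/
theorem nil_of_act [IsAlgClosed k] {x : MonoidAlgebra k G}
    (h : ∀ (n : ℕ) (ρ : Representation k G (Fin n → k)), ρ.IsIrreducible →
      ρ.asAlgebraHom x = 0) : IsNilpotent x := by
  classical
  have := Fintype.ofFinite G
  have : Module.Finite k (MonoidAlgebra k G) := inferInstance
  have : IsArtinianRing (MonoidAlgebra k G) := IsArtinianRing.of_finite k _
  have : Module.Finite k (MonoidAlgebra k G ⧸ Ring.jacobson (MonoidAlgebra k G)) := inferInstance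
  obtain ⟨n, d, hd, ⟨e⟩⟩ := IsSemisimpleRing.exists_algEquiv_pi_matrix_of_isAlgClosed k
    (MonoidAlgebra k G ⧸ Ring.jacobson (MonoidAlgebra k G))
  let π : MonoidAlgebra k G →ₐ[k] ((i : Fin n) → Matrix (Fin (d i)) (Fin (d i)) k) :=
    e.toAlgHom.comp (Ideal.Quotient.mkₐ k (Ring.jacobson (MonoidAlgebra k G)))
  have hπ : Function.Surjective π :=
    e.surjective.comp (Ideal.Quotient.mkₐ_surjective k _)
  have hker : ∀ a, π a = 0 → IsNilpotent a := by
    intro a ha
    have h1 : Ideal.Quotient.mkₐ k (Ring.jacobson (MonoidAlgebra k G)) a = 0 := by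
      apply e.injective
      rw [map_zero]; exact ha
    have h2 : a ∈ Ring.jacobson (MonoidAlgebra k G) := Ideal.Quotient.eq_zero_iff_mem.mp h1
    obtain ⟨m, hm⟩ := IsSemiprimaryRing.isNilpotent (R := MonoidAlgebra k G)
    refine ⟨m, ?_⟩
    have h3 := Ideal.pow_mem_pow h2 m
    rw [hm] at h3
    exact h3
  apply hker
  funext i
  have := hd i
  let τ : MonoidAlgebra k G →ₐ[k] Matrix (Fin (d i)) (Fin (d i)) k :=
    (Pi.evalAlgHom k (fun i => Matrix (Fin (d i)) (Fin (d i)) k) i).comp π
  have hτ : Function.Surjective τ := (Function.surjective_eval i).comp hπ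
  have h1 := h (d i) (ChC.repOf τ) (ChC.repOf_irr τ hτ)
  rw [repOf_lift] at h1
  exact (map_eq_zero_iff _ (Matrix.toLinAlgEquiv').injective).1 h1

end wed

section top
variable {k : Type*} [Field k] {A : Type*} [Group A] [Finite A]

theorem act_eq {H : Subgroup A} {n : ℕ} (ρ : Rp k H n) (c : MonoidAlgebra k A) :
    act ρ c = ρ.asAlgebraHom (dnr H c) := by
  have : Fintype H := Fintype.ofFinite H
  rw [act, finsum_eq_sum_of_fintype, Representation.asAlgebraHom_def, MonoidAlgebra.lift_apply]
  exact (Finsupp.sum_fintype (dnr H c).coeff (fun g r => r • ρ g) (fun h => zero_smul k _)).symm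

/-- conjugation by an element of the group gives an equivalent representation -/
theorem inv_self {H : Subgroup A} {n : ℕ} (ρ : Rp k H n) {h : A} (hh : h ∈ H) (σ : Rp k H n)
    (hσ : IsConjRep h ρ σ) : Nonempty (ρ.Equiv σ) := by
  apply iso_iff.1
  let g : H := ⟨h, hh⟩
  have h1 : ∀ v, ρ g⁻¹ (ρ g v) = v := by
    intro v
    rw [← Module.End.mul_apply, ← map_mul, inv_mul_cancel, map_one, Module.End.one_apply]
  have h2 : ∀ v, ρ g (ρ g⁻¹ v) = v := by
    intro v
    rw [← Module.End.mul_apply, ← map_mul, mul_inv_cancel, map_one, Module.End.one_apply]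
  refine ⟨LinearEquiv.ofLinearMap (ρ g⁻¹) (ρ g) (LinearMap.ext h1) (LinearMap.ext h2),
    fun x v => ?_⟩
  change ρ g⁻¹ (ρ x v) = σ x (ρ g⁻¹ v)
  have h3 : σ x (ρ g⁻¹ v) = ρ (g⁻¹ * x * g) (ρ g⁻¹ v) := by
    refine hσ (g⁻¹ * x * g) x (ρ g⁻¹ v) ?_
    change (x : A) = h * (h⁻¹ * (x : A) * h) * h⁻¹
    group
  rw [h3, ← Module.End.mul_apply, ← Module.End.mul_apply, ← map_mul, ← map_mul]
  congr 2
  group

variable {H : Subgroup A} {c : MonoidAlgebra k A}

theorem upr_blk (hc : IsBlock H c) : upr H (dnr H c) = c :=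
  upr_dnr (mem_fixAlg.1 hc.mem).1

theorem blk_idem (hc : IsBlock H c) : dnr H c * dnr H c = dnr H c := by
  apply upr_injective H
  rw [map_mul, upr_blk hc, hc.idem]

theorem blk_comm (hc : IsBlock H c) (a : MonoidAlgebra k H) :
    a * dnr H c = dnr H c * a := by
  apply upr_injective H
  rw [map_mul, map_mul, upr_blk hc]
  induction a using MonoidAlgebra.induction_linear with
  | zero => rw [map_zero, zero_mul, mul_zero]
  | add f g hf hg => rw [map_add, add_mul, mul_add, hf, hg]
  | single x r =>
    have h1 : single (x : A) (1 : k) * c = c * single (x : A) 1 :=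
      (invBy_iff_commute.1 (mem_fixAlg.1 hc.mem).2 x x.2).eq
    have h2 : single (x : A) r = r • single (x : A) (1 : k) := by
      rw [smul_single, smul_eq_mul, mul_one]
    rw [upr_single, h2, smul_mul_assoc, h1, mul_smul_comm]

/-- an element of `kH c` acting as zero on the irreducible representations in `c` is nilpotent -/
theorem nil_of_blk [IsAlgClosed k] (hc : IsBlock H c) {x : MonoidAlgebra k H}
    (hx : ∀ i : IrrInv H H c, i.ρ.asAlgebraHom x = 0) (hxc : x * dnr H c = x) :
    IsNilpotent x := by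
  apply nil_of_act
  intro m σ hσ
  rcases act_zero_or_one (irr_iff.1 hσ) (mem_fixAlg.1 hc.mem).1 (mem_fixAlg.1 hc.mem).2 hc.idem
    with h0 | h0
  · rw [act_eq] at h0
    rw [← hxc, map_mul, h0, mul_zero]
  · exact hx ⟨m, σ, hσ, act_iff.1 h0, fun h hh τ hτ => inv_self σ hh τ hτ⟩

theorem lift_iso {n m : ℕ} {ρ : Rp k H n} {σ : Rp k H m} (P : (Fin n → k) ≃ₗ[k] (Fin m → k))
    (hP : ∀ x v, P (ρ x v) = σ x (P v)) (y : MonoidAlgebra k H) (v : Fin n → k) :
    P (ρ.asAlgebraHom y v) = σ.asAlgebraHom y (P v) := by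
  induction y using MonoidAlgebra.induction_linear with
  | zero => rw [map_zero, map_zero, LinearMap.zero_apply, LinearMap.zero_apply, map_zero]
  | add f g hf hg =>
    rw [map_add, map_add, LinearMap.add_apply, LinearMap.add_apply, map_add, hf, hg]
  | single g r =>
    rw [Representation.asAlgebraHom_single, Representation.asAlgebraHom_single,
      LinearMap.smul_apply, LinearMap.smul_apply, map_smul]
    congr 1
    exact hP g v

theorem lift_zero {n m : ℕ} {ρ : Rp k H n} {σ : Rp k H m} (h : Nonempty (ρ.Equiv σ))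
    {y : MonoidAlgebra k H} (hy : ρ.asAlgebraHom y = 0) : σ.asAlgebraHom y = 0 := by
  obtain ⟨P, hP⟩ := iso_iff.2 h
  apply LinearMap.ext
  intro v
  obtain ⟨w, rfl⟩ := P.surjective v
  rw [← lift_iso P hP, hy, LinearMap.zero_apply, map_zero]
  rfl

/-- every block contains an irreducible representation -/
theorem irr_nonempty [IsAlgClosed k] (hc : IsBlock H c) :
    0 < Nat.card (Quotient (irrInvSetoid H H c)) := by
  have hfin : Finite (Quotient (irrInvSetoid H H c)) := finite_classes _ _ _
  rw [Nat.card_pos_iff]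
  refine ⟨?_, hfin⟩
  by_contra hcon
  rw [not_nonempty_iff] at hcon
  obtain ⟨m, hm⟩ := nil_of_blk hc (x := dnr H c) (fun i => (hcon.false ⟦i⟧).elim) (blk_idem hc)
  have h1 : ∀ N : ℕ, dnr H c ^ (N + 1) = dnr H c := by
    intro N
    induction N with
    | zero => rw [pow_one]
    | succ N ih => rw [pow_succ, ih, blk_idem hc]
  have h2 : dnr H c = 0 := by rw [← h1 m, pow_succ, hm, zero_mul]
  apply hc.ne_zero
  rw [← upr_blk hc, h2, map_zero]

open ChBAux in
/-- idempotents separating the irreducible representations of a block -/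
theorem exists_idems [IsAlgClosed k] [Fintype A] [Fintype H] (hc : IsBlock H c) :
    ∃ (f : Quotient (irrInvSetoid H H c) → MonoidAlgebra k H)
      (χ : Quotient (irrInvSetoid H H c) → H → k),
      (∀ j, f j * f j = f j) ∧ (∀ j, f j * dnr H c = f j) ∧
      (∀ i g x, χ i (g * x * g⁻¹) = χ i x) ∧
      (∀ j, ∑ x, (f j).coeff x * χ j x = 1) ∧
      ∀ i j, i ≠ j → ∑ x, (f j).coeff x * χ i x = 0 := by
  classical
  have hfin : Finite (Quotient (irrInvSetoid H H c)) := finite_classes _ _ _
  have := Fintype.ofFinite (Quotient (irrInvSetoid H H c))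
  let ι := Quotient (irrInvSetoid H H c)
  let s : ι → IrrInv H H c := fun i => i.out
  have hs : ∀ i, (⟦s i⟧ : ι) = i := fun i => Quotient.out_eq _
  let n : ι → ℕ := fun i => (s i).n
  let ρ : ∀ i, Rp k H (n i) := fun i => (s i).ρ
  have hne : ∀ i j, i ≠ j → IsEmpty ((ρ i).Equiv (ρ j)) := by
    intro i j hij
    refine ⟨fun e => hij ?_⟩
    rw [← hs i, ← hs j]
    exact Quotient.sound ⟨e⟩
  let b' : MonoidAlgebra k H := dnr H c
  have hbb' : b' * b' = b' := blk_idem hc
  have hbc' : ∀ a, a * b' = b' * a := blk_comm hc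
  have hin : ∀ i, (ρ i).asAlgebraHom b' = 1 := by
    intro i
    rw [← act_eq]
    exact act_iff.2 (s i).blk
  have hnil : ∀ x : MonoidAlgebra k H, (∀ i, (ρ i).asAlgebraHom x = 0) →
      x * b' = x → IsNilpotent x := by
    intro x hx hxb
    refine nil_of_blk hc (fun t => ?_) hxb
    have h1 : (⟦s ⟦t⟧⟧ : ι) = ⟦t⟧ := hs _
    exact lift_zero (Quotient.exact h1) (hx ⟦t⟧)
  -- the idempotents
  have hex : ∀ j, ∃ f : MonoidAlgebra k H, f * f = f ∧ f * b' = f ∧
      LinearMap.trace k _ ((ρ j).asAlgebraHom f) = 1 ∧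
      ∀ i, i ≠ j → LinearMap.trace k _ ((ρ i).asAlgebraHom f) = 0 := by
    intro j
    have h1 := (irr_iff.1 (s j).irr).nontriv
    obtain ⟨v, hv⟩ := exists_ne (0 : Fin (n j) → k)
    have h2 : ∃ a, v a ≠ 0 := by
      by_contra h
      push Not at h
      exact hv (funext h)
    obtain ⟨a, -⟩ := h2
    let T : (Fin (n j) → k) →ₗ[k] (Fin (n j) → k) :=
      (LinearMap.proj a).smulRight (Pi.single a 1)
    have hT1 : LinearMap.trace k (Fin (n j) → k) T = 1 := by
      rw [LinearMap.trace_smulRight]
      simp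
    have hT2 : T * T = T := by
      apply LinearMap.ext
      intro w
      change (w a • (Pi.single a 1 : Fin (n j) → k)) a • (Pi.single a 1 : Fin (n j) → k)
        = w a • Pi.single a 1
      simp
    obtain ⟨y, hy1, hy2⟩ := density n ρ (fun i => (s i).irr) hne j T
    obtain ⟨m, hm⟩ := hnil (y * b' - (y * b') ^ 2) (by
      intro i
      rw [map_sub, map_pow, map_mul, hin, mul_one]
      by_cases hij : i = j
      · subst hij
        rw [hy2, sq, hT2, sub_self]
      · rw [hy1 i hij, sq, mul_zero, sub_zero]) (by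
      rw [sub_mul, sq]
      simp only [mul_assoc, hbb'])
    have hm' : (y * b' - (y * b') ^ 2) ^ (m + 1) = 0 := by rw [pow_succ, hm, zero_mul]
    have hid := isIdempotentElem_one_sub_one_sub_pow_pow (y * b') (m + 1) hm'
    set e := 1 - (1 - (y * b') ^ (m + 1)) ^ (m + 1) with he
    have hee : e * e = e := hid
    have hρe : ∀ i, (ρ i).asAlgebraHom (e * b') =
        1 - (1 - (ρ i).asAlgebraHom y ^ (m + 1)) ^ (m + 1) := by
      intro i
      rw [map_mul, hin, mul_one, he, map_sub, map_pow, map_sub, map_one, map_pow, map_mul, hin,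
        mul_one]
    refine ⟨e * b', ?_, ?_, ?_, fun i hij => ?_⟩
    · rw [mul_assoc, ← mul_assoc b' e b', ← hbc' e, mul_assoc e b' b', hbb', ← mul_assoc, hee]
    · rw [mul_assoc, hbb']
    · have h3 : ∀ N : ℕ, T ^ (N + 1) = T := by
        intro N
        induction N with
        | zero => rw [pow_one]
        | succ N ih => rw [pow_succ, ih, hT2]
      have h4 : (1 - T) * (1 - T) = 1 - T := by
        rw [sub_mul, mul_sub, mul_sub, one_mul, mul_one, one_mul, hT2, sub_self, sub_zero]
      have h5 : ∀ N : ℕ, (1 - T) ^ (N + 1) = 1 - T := by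
        intro N
        induction N with
        | zero => rw [pow_one]
        | succ N ih => rw [pow_succ, ih, h4]
      rw [hρe, hy2, h3, h5, sub_sub_cancel, hT1]
    · rw [hρe, hy1 i hij, zero_pow (Nat.succ_ne_zero m), sub_zero, one_pow, sub_self, map_zero]
  choose f hf1 hf2 hf3 hf4 using hex
  have hsum : ∀ i j, ∑ x : H, (f j).coeff x * chi (ρ i) (x : A)
      = LinearMap.trace k _ ((ρ i).asAlgebraHom (f j)) := by
    intro i j
    rw [← fnl_chi]
    unfold fnl
    dsimp only [LinearMap.coe_mk, AddHom.coe_mk]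
    exact Finset.sum_congr (by ext; simp) fun _ _ => rfl
  refine ⟨fun j => f j, fun i x => chi (ρ i) (x : A), hf1, hf2, fun i g x => ?_,
    fun j => ?_, fun i j hij => ?_⟩
  · exact chi_conj_mem (ρ i) g.2 x
  · rw [hsum, hf3]
  · rw [hsum, hf4 j i hij]

end top

end Pool.Agent.Lib.P0c8ca5.Ex
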