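import Mathlib
import Pool.Agent.Lib.P0c8ca5Ex.DefR

/-!
# OA: the ring `O = W(k)` of Witt vectors, its residue map, and lifting of idempotents

`OW p k` is the ring of Witt vectors, `rdO p k` its residue map, `KW p k` the algebraic closure of
its field of fractions. `lift_idem`: an idempotent `e` of `k[A]` is the reduction of an idempotent
`E` of `O[A]` that is fixed by all `g` fixing `e` and supported on all subgroups supporting `e`.
-/

set_option linter.unusedSectionVars false

namespace Pool.Agent.Lib.P0c8ca5.Ex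

open MonoidAlgebra

section W
variable (p : ℕ) [Fact p.Prime] (k : Type*) [Field k] [IsAlgClosed k] [CharP k p]

/-- the ring of Witt vectors -/
abbrev OW : Type _ := WittVector p k

/-- the algebraic closure of the field of fractions of the ring of Witt vectors -/
abbrev KW : Type _ := AlgebraicClosure (FractionRing (OW p k))

/-- the residue map -/
noncomputable def rdO : OW p k →+* k := WittVector.constantCoeff

theorem perf : PerfectRing k p := inferInstance

theorem rdO_surj : Function.Surjective (rdO p k) := WittVector.constantCoeff_surjective p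

variable {p k}

theorem rdO_eq_zero {x : OW p k} : rdO p k x = 0 ↔ (p : OW p k) ∣ x := by
  have := perf p k
  rw [← RingHom.mem_ker, rdO, WittVector.ker_constantCoeff, Ideal.mem_span_singleton]

/-- `O` is separated -/
theorem sepO (x : OW p k) (h : ∀ N : ℕ, (p : OW p k) ^ N ∣ x) : x = 0 := by
  have := perf p k
  ext n
  have h1 := (WittVector.mem_span_p_pow_iff_le_coeff_eq_zero x (n + 1)).1
    (Ideal.mem_span_singleton.2 (h (n + 1))) n (Nat.lt_succ_self n)
  rw [h1, WittVector.zero_coeff]

theorem unitO {x : OW p k} (h : rdO p k x ≠ 0) : IsUnit x := by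
  have := perf p k
  exact WittVector.isUnit_of_coeff_zero_ne_zero x h

theorem p_ne : (p : OW p k) ≠ 0 := WittVector.p_nonzero p k

theorem natO_dvd (s n : ℕ) : ((p : OW p k) ^ s ∣ (n : OW p k)) ↔ p ^ s ∣ n := by
  constructor
  · induction s generalizing n with
    | zero => intro _; simp
    | succ s ih =>
      intro h
      have h1 : (p : OW p k) ∣ (n : OW p k) := (dvd_pow_self _ (Nat.succ_ne_zero s)).trans h
      have h2 : (n : k) = 0 := by
        have := rdO_eq_zero.2 h1
        rwa [map_natCast] at this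
      obtain ⟨m, rfl⟩ := (CharP.cast_eq_zero_iff k p n).1 h2
      rw [pow_succ'] at h ⊢
      refine Nat.mul_dvd_mul_left p (ih m ?_)
      rw [Nat.cast_mul] at h
      exact (mul_dvd_mul_iff_left p_ne).1 h
  · rintro ⟨m, rfl⟩
    rw [Nat.cast_mul, Nat.cast_pow]
    exact dvd_mul_right _ _

instance charZeroO : CharZero (OW p k) := by
  refine charZero_of_inj_zero fun n hn => ?_
  by_contra h0
  have h1 : (p : OW p k) ^ n ∣ (n : OW p k) := by rw [hn]; exact dvd_zero _
  have h2 := Nat.le_of_dvd (Nat.pos_of_ne_zero h0) ((natO_dvd n n).1 h1)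
  have h3 := Nat.lt_pow_self (Fact.out : p.Prime).one_lt (n := n)
  omega

instance charZeroF : CharZero (FractionRing (OW p k)) :=
  charZero_of_injective_algebraMap (IsFractionRing.injective (OW p k) (FractionRing (OW p k)))

instance charZeroK : CharZero (KW p k) :=
  charZero_of_injective_algebraMap (algebraMap (FractionRing (OW p k)) (KW p k)).injective

theorem algO_inj : Function.Injective (algebraMap (OW p k) (KW p k)) := by
  rw [IsScalarTower.algebraMap_eq (OW p k) (FractionRing (OW p k)) (KW p k)]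
  exact (algebraMap (FractionRing (OW p k)) (KW p k)).injective.comp
    (IsFractionRing.injective (OW p k) (FractionRing (OW p k)))

end W

section dv
variable {p : ℕ} {R : Type*} [CommRing R] {A : Type*} [Group A]

/-- the coefficients are divisible by `p ^ N` -/
def Dv (p N : ℕ) (x : MonoidAlgebra R A) : Prop := ∀ g, (p : R) ^ N ∣ x.coeff g

theorem dv_smul (N : ℕ) (y : MonoidAlgebra R A) : Dv p N ((p : R) ^ N • y) := fun g => by
  rw [coeff_smul]
  exact dvd_mul_right _ _

theorem dv_iff [Finite A] {N : ℕ} {x : MonoidAlgebra R A} :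
    Dv p N x ↔ ∃ y : MonoidAlgebra R A, x = (p : R) ^ N • y := by
  constructor
  · intro h
    choose y hy using h
    have := Fintype.ofFinite A
    refine ⟨MonoidAlgebra.ofCoeff (Finsupp.equivFunOnFinite.symm y), ?_⟩
    ext g
    rw [coeff_smul, coeff_ofCoeff, hy g]
    rfl
  · rintro ⟨y, rfl⟩
    exact dv_smul N y

theorem Dv.add {N : ℕ} {x y : MonoidAlgebra R A} (hx : Dv p N x) (hy : Dv p N y) :
    Dv p N (x + y) := fun g => by
  rw [coeff_add]
  exact dvd_add (hx g) (hy g)

theorem Dv.sub {N : ℕ} {x y : MonoidAlgebra R A} (hx : Dv p N x) (hy : Dv p N y) :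
    Dv p N (x - y) := fun g => by
  rw [coeff_sub]
  exact dvd_sub (hx g) (hy g)

theorem Dv.neg {N : ℕ} {x : MonoidAlgebra R A} (hx : Dv p N x) : Dv p N (-x) := fun g => by
  rw [coeff_neg]
  exact (dvd_neg).2 (hx g)

theorem Dv.mul [Finite A] {N M : ℕ} {x y : MonoidAlgebra R A} (hx : Dv p N x) (hy : Dv p M y) :
    Dv p (N + M) (x * y) := by
  obtain ⟨x', rfl⟩ := dv_iff.1 hx
  obtain ⟨y', rfl⟩ := dv_iff.1 hy
  rw [smul_mul_smul_comm, ← pow_add]
  exact dv_smul _ _

theorem dv_zero (x : MonoidAlgebra R A) : Dv p 0 x := fun g => by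
  rw [pow_zero]
  exact one_dvd _

theorem Dv.mul_left [Finite A] {N : ℕ} {y : MonoidAlgebra R A} (x : MonoidAlgebra R A)
    (hy : Dv p N y) : Dv p N (x * y) := by
  have := (dv_zero (p := p) x).mul hy
  rwa [zero_add] at this

theorem Dv.mul_right [Finite A] {N : ℕ} {x : MonoidAlgebra R A} (hx : Dv p N x)
    (y : MonoidAlgebra R A) : Dv p N (x * y) := by
  have := hx.mul (dv_zero (p := p) y)
  rwa [add_zero] at this

theorem Dv.mono {N M : ℕ} (h : M ≤ N) {x : MonoidAlgebra R A} (hx : Dv p N x) : Dv p M x :=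
  fun g => (pow_dvd_pow _ h).trans (hx g)

theorem Dv.cjr {N : ℕ} {x : MonoidAlgebra R A} (hx : Dv p N x) (g : A) : Dv p N (cjr g x) :=
  fun y => by
  rw [coeff_cjr]
  exact hx _

/-- the step of the iteration -/
theorem step_idem (x : MonoidAlgebra R A) :
    (3 * x ^ 2 - 2 * x ^ 3) * (3 * x ^ 2 - 2 * x ^ 3) - (3 * x ^ 2 - 2 * x ^ 3) =
      (x * x - x) * (x * x - x) * (4 * (x * x) - 4 * x - 3) := by
  noncomm_ring

theorem step_diff (x : MonoidAlgebra R A) :
    (3 * x ^ 2 - 2 * x ^ 3) - x = (x * x - x) * (1 - 2 * x) := by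
  noncomm_ring

/-- the iteration converging to an idempotent -/
noncomputable def itr (x : MonoidAlgebra R A) : ℕ → MonoidAlgebra R A
  | 0 => x
  | n + 1 => 3 * itr x n ^ 2 - 2 * itr x n ^ 3

theorem itr_idem [Finite A] {x : MonoidAlgebra R A} (h : Dv p 1 (x * x - x)) (n : ℕ) :
    Dv p (n + 1) (itr x n * itr x n - itr x n) := by
  induction n with
  | zero => exact h
  | succ n ih =>
    change Dv p (n + 1 + 1) ((3 * itr x n ^ 2 - 2 * itr x n ^ 3) *
      (3 * itr x n ^ 2 - 2 * itr x n ^ 3) - (3 * itr x n ^ 2 - 2 * itr x n ^ 3))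
    rw [step_idem]
    exact ((ih.mul ih).mul_right _).mono (by omega)

theorem itr_diff [Finite A] {x : MonoidAlgebra R A} (h : Dv p 1 (x * x - x)) (n : ℕ) :
    Dv p (n + 1) (itr x (n + 1) - itr x n) := by
  change Dv p (n + 1) ((3 * itr x n ^ 2 - 2 * itr x n ^ 3) - itr x n)
  rw [step_diff]
  exact (itr_idem h n).mul_right _

/-- the elements of `R[A]` fixed by `g` -/
theorem itr_cjr {x : MonoidAlgebra R A} {g : A} (h : cjr g x = x) (n : ℕ) :
    cjr g (itr x n) = itr x n := by
  induction n with
  | zero => exact h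
  | succ n ih =>
    rw [cjr_eq_iff] at ih ⊢
    have h1 : Commute (single g (1 : R)) (itr x n) := ih
    have h2 : Commute (single g (1 : R)) (3 * itr x n ^ 2 - 2 * itr x n ^ 3) := by
      refine Commute.sub_right ?_ ?_
      · exact (Nat.commute_cast _ 3).mul_right (h1.pow_right 2)
      · exact (Nat.commute_cast _ 2).mul_right (h1.pow_right 3)
    exact h2

theorem itr_mem {S : Subring (MonoidAlgebra R A)} {x : MonoidAlgebra R A} (h : x ∈ S) (n : ℕ) :
    itr x n ∈ S := by
  induction n with
  | zero => exact h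
  | succ n ih =>
    exact S.sub_mem (S.mul_mem (ofNat_mem S 3) (S.pow_mem ih 2))
      (S.mul_mem (ofNat_mem S 2) (S.pow_mem ih 3))

theorem mem_upr_range {L : Subgroup A} {x : MonoidAlgebra R A} :
    x ∈ (upr (R := R) L).range.toSubring ↔ ∀ g, x.coeff g ≠ 0 → g ∈ L := by
  constructor
  · rintro ⟨y, rfl⟩ g hg
    by_contra h
    exact hg (coeff_upr_of_notMem L y h)
  · intro h
    exact ⟨dnr L x, upr_dnr h⟩

end dv

section lift
variable {p : ℕ} [Fact p.Prime] {k : Type*} [Field k] [IsAlgClosed k] [CharP k p]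
variable {A : Type*} [Group A] [Finite A]

theorem dv_rd {x : MonoidAlgebra (OW p k) A} :
    Dv p 1 x ↔ mapRingHom A (rdO p k) x = 0 := by
  constructor
  · intro h
    ext g
    rw [coeff_map, rdO_eq_zero.2 (by simpa using h g)]
    rfl
  · intro h g
    rw [pow_one, ← rdO_eq_zero, ← coeff_map, h]
    rfl

theorem dv_sep {x : MonoidAlgebra (OW p k) A} (h : ∀ N, Dv p N x) : x = 0 := by
  ext g
  rw [sepO (x.coeff g) fun N => h N g]
  rfl

theorem exists_lim {x : ℕ → MonoidAlgebra (OW p k) A}
    (h : ∀ n, Dv p (n + 1) (x (n + 1) - x n)) :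
    ∃ L : MonoidAlgebra (OW p k) A, ∀ n, Dv p (n + 1) (L - x n) := by
  have := perf p k
  have h1 : ∀ g : A, ∃ l : OW p k, ∀ n : ℕ, (p : OW p k) ^ n ∣ (x n).coeff g - l := by
    intro g
    have h2 : ∀ {m n : ℕ}, m ≤ n → (x m).coeff g ≡ (x n).coeff g
        [SMOD (Ideal.span {(p : OW p k)} ^ m • ⊤ : Submodule (OW p k) (OW p k))] := by
      intro m n hmn
      induction n, hmn using Nat.le_induction with
      | base => exact SModEq.refl _
      | succ n hn ih =>
        refine ih.trans ?_
        rw [SModEq.sub_mem, smul_eq_mul, Ideal.mul_top, Ideal.span_singleton_pow,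
          Ideal.mem_span_singleton]
        have h3 := (h n g)
        rw [coeff_sub, Finsupp.sub_apply] at h3
        have h4 : (p : OW p k) ^ m ∣ (x (n + 1)).coeff g - (x n).coeff g :=
          (pow_dvd_pow _ (by omega)).trans h3
        rw [← dvd_neg, neg_sub] at h4
        exact h4
    obtain ⟨l, hl⟩ := IsPrecomplete.prec' (I := Ideal.span {(p : OW p k)})
      (fun n => (x n).coeff g) h2
    refine ⟨l, fun n => ?_⟩
    have h5 := hl n
    rw [SModEq.sub_mem, smul_eq_mul, Ideal.mul_top, Ideal.span_singleton_pow,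
      Ideal.mem_span_singleton] at h5
    exact h5
  choose l hl using h1
  have := Fintype.ofFinite A
  refine ⟨MonoidAlgebra.ofCoeff (Finsupp.equivFunOnFinite.symm l), fun n g => ?_⟩
  rw [coeff_sub, Finsupp.sub_apply, coeff_ofCoeff]
  change (p : OW p k) ^ (n + 1) ∣ l g - (x n).coeff g
  have h6 := hl g (n + 1)
  have h7 := h n g
  rw [coeff_sub, Finsupp.sub_apply] at h7
  have h8 : l g - (x n).coeff g
      = ((x (n + 1)).coeff g - (x n).coeff g) - ((x (n + 1)).coeff g - l g) := by ring
  rw [h8]
  exact dvd_sub h7 h6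

/-- lifting of idempotents: the lift is fixed by all `g` fixing `e` and supported on all
subgroups supporting `e` -/
theorem lift_idem {e : MonoidAlgebra k A} (he : e * e = e) :
    ∃ E : MonoidAlgebra (OW p k) A, E * E = E ∧ mapRingHom A (rdO p k) E = e ∧
      (∀ g : A, cjr g e = e → cjr g E = E) ∧
      (∀ L : Subgroup A, (∀ g, e.coeff g ≠ 0 → g ∈ L) → ∀ g, E.coeff g ≠ 0 → g ∈ L) := by
  classical
  have := Fintype.ofFinite A
  choose s hs using rdO_surj p k
  let t : k → OW p k := fun c => if c = 0 then 0 else s c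
  have ht : ∀ c, rdO p k (t c) = c := by
    intro c
    by_cases hc : c = 0
    · simp only [t, hc, if_true, map_zero]
    · simp only [t, hc, if_false, hs]
  have ht0 : t 0 = 0 := by simp only [t, if_true]
  let x : MonoidAlgebra (OW p k) A :=
    MonoidAlgebra.ofCoeff (Finsupp.equivFunOnFinite.symm fun g => t (e.coeff g))
  have hx : ∀ g, x.coeff g = t (e.coeff g) := fun g => rfl
  have hxe : mapRingHom A (rdO p k) x = e := by
    ext g
    rw [coeff_map, hx, ht]
  have h0 : Dv p 1 (x * x - x) := by
    rw [dv_rd, map_sub, map_mul, hxe, he, sub_self]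
  obtain ⟨E, hE⟩ := exists_lim (itr_diff h0)
  have hEi : E * E = E := by
    rw [← sub_eq_zero]
    refine dv_sep fun N => ?_
    have h1 := hE N
    have h2 := itr_idem h0 N
    have h3 : E * E - E = (E - itr x N) * E + itr x N * (E - itr x N)
        + (itr x N * itr x N - itr x N) - (E - itr x N) := by noncomm_ring
    rw [h3]
    exact ((((h1.mul_right E).add (h1.mul_left (itr x N))).add h2).sub h1).mono (Nat.le_succ N)
  refine ⟨E, hEi, ?_, ?_, ?_⟩
  · have h1 := dv_rd.1 (hE 0)
    rw [map_sub, sub_eq_zero] at h1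
    rw [h1]
    exact hxe
  · intro g hg
    have hxg : cjr g x = x := by
      ext y
      rw [coeff_cjr, hx, hx, ← coeff_cjr, hg]
    rw [← sub_eq_zero]
    refine dv_sep fun N => ?_
    have h1 := hE N
    have h2 : cjr g E - E = cjr g (E - itr x N) - (E - itr x N) := by
      have h3 : cjr g (E - itr x N) = cjr g E - cjr g (itr x N) := by
        rw [cjr, cjr, cjr, mul_sub, sub_mul]
      rw [h3, itr_cjr hxg]
      abel
    rw [h2]
    exact ((h1.cjr g).sub h1).mono (Nat.le_succ N)
  · intro L hL g hg
    by_contra hgL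
    apply hg
    have hxL : x ∈ (upr (R := OW p k) L).range.toSubring := by
      rw [mem_upr_range]
      intro y hy
      apply hL
      intro h
      rw [hx, h, ht0] at hy
      exact hy rfl
    refine sepO _ fun N => ?_
    have h1 := hE N g
    have h2 : (itr x N).coeff g = 0 := by
      by_contra h3
      exact hgL (mem_upr_range.1 (itr_mem hxL N) g h3)
    rw [coeff_sub, Finsupp.sub_apply, h2, sub_zero] at h1
    exact (pow_dvd_pow _ (Nat.le_succ N)).trans h1

/-- an idempotent of `O[A]` with zero reduction is zero -/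
theorem idem_zero {E : MonoidAlgebra (OW p k) A} (hE : E * E = E)
    (h : mapRingHom A (rdO p k) E = 0) : E = 0 := by
  refine dv_sep fun N => ?_
  induction N with
  | zero => exact dv_zero _
  | succ N ih =>
    rw [← hE]
    exact ih.mul (dv_rd.2 h)

/-- commuting idempotents of `O[A]` with equal reductions are equal -/
theorem idem_unique {E F : MonoidAlgebra (OW p k) A} (hE : E * E = E) (hF : F * F = F)
    (hc : E * F = F * E) (h : mapRingHom A (rdO p k) E = mapRingHom A (rdO p k) F) : E = F := by
  have key : ∀ E F : MonoidAlgebra (OW p k) A, E * E = E → F * F = F → E * F = F * E →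
      mapRingHom A (rdO p k) E = mapRingHom A (rdO p k) F → E = E * F := by
    intro E F hE hF hc h
    have h1 : (E - E * F) * (E - E * F) = E - E * F := by
      have e1 : E * (E * F) = E * F := by rw [← mul_assoc, hE]
      have e2 : E * F * E = E * F := by rw [mul_assoc, ← hc, e1]
      have e3 : E * F * (E * F) = E * F := by
        rw [← mul_assoc, e2, mul_assoc, hF]
      rw [sub_mul, mul_sub, mul_sub, hE, e1, e2, e3, sub_self, sub_zero]
    have h2 : mapRingHom A (rdO p k) (E - E * F) = 0 := by
      rw [map_sub, map_mul, h, ← map_mul, hF, sub_self]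
    exact sub_eq_zero.1 (idem_zero h1 h2)
  rw [key E F hE hF hc h, hc]
  exact (key F E hF hE hc.symm h.symm).symm

/-- if `B` is a central idempotent and `E` an idempotent with `e b = e` then `E B = E` -/
theorem idem_le {E B : MonoidAlgebra (OW p k) A} (hE : E * E = E) (hB : B * B = B)
    (hc : E * B = B * E)
    (h : mapRingHom A (rdO p k) E * mapRingHom A (rdO p k) B = mapRingHom A (rdO p k) E) :
    E * B = E := by
  have h1 : (E - E * B) * (E - E * B) = E - E * B := by
    have e1 : E * (E * B) = E * B := by rw [← mul_assoc, hE]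
    have e2 : E * B * E = E * B := by rw [mul_assoc, ← hc, e1]
    have e3 : E * B * (E * B) = E * B := by
      rw [← mul_assoc, e2, mul_assoc, hB]
    rw [sub_mul, mul_sub, mul_sub, hE, e1, e2, e3, sub_self, sub_zero]
  have h2 : mapRingHom A (rdO p k) (E - E * B) = 0 := by
    rw [map_sub, map_mul, h, sub_self]
  exact (sub_eq_zero.1 (idem_zero h1 h2)).symm

end lift

end Pool.Agent.Lib.P0c8ca5.Ex
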