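import Pool.Agent.Lib.P0c8ca5Ex.R1

/-!
# Integral rows

`θ`, `π` are virtual characters of the abelian `p`-group `D`, `π u = e (n u)^2` and `θ u = n u * f u` for `u ≠ 1`, where `f` is
locally virtual. Then `u ↦ ± f u` is the restriction of a virtual character to `D \ {1}`; the sign depends only on `n u`.
-/

set_option autoImplicit false
set_option linter.unusedSectionVars false

namespace Pool.Agent.Lib.P0c8ca5.Ex

/-- the sign `ε = ±1` with `m ≡ ε` modulo `p` if `m ^ 2 ≡ 1` -/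
def sg (p : ℕ) (m : ℤ) : ℤ := if (p : ℤ) ∣ m - 1 then 1 else -1

theorem sg_cases (p : ℕ) (m : ℤ) : sg p m = 1 ∨ sg p m = -1 := by
  unfold sg
  split_ifs <;> simp

theorem sg_dvd {p : ℕ} (hp : p.Prime) {m : ℤ} (h : (p : ℤ) ∣ m ^ 2 - 1) : (p : ℤ) ∣ m - sg p m := by
  unfold sg
  split_ifs with h1
  · exact h1
  · have h2 : m ^ 2 - 1 = (m - 1) * (m - -1) := by ring
    rw [h2] at h
    exact ((Nat.prime_iff_prime_int.1 hp).dvd_or_dvd h).resolve_left h1

theorem sg_mul_sg (p : ℕ) (m : ℤ) : sg p m * sg p m = 1 := by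
  rcases sg_cases p m with h | h <;> rw [h] <;> norm_num

/-- the arithmetic of the square root -/
theorem root_arith {p : ℕ} (hp : p.Prime) (hp2 : p ≠ 2) (N : ℕ) {q m : ℤ} {e : ℕ}
    (hq : (p : ℤ) ^ (N + 1) ∣ q * e - 1) (hm : (p : ℤ) ∣ m ^ 2 - 1) :
    (p : ℤ) ^ (N + 1) ∣ (q * (e * m ^ 2)) ^ ((p ^ N - 1) / 2) * m - sg p m := by
  have hodd : Odd p := hp.odd_of_ne_two hp2
  have hoddN : Odd (p ^ N) := hodd.pow
  obtain ⟨t, ht⟩ := hoddN
  have ht2 : (p ^ N - 1) / 2 = t := by omega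
  rw [ht2]
  have h1 : (p : ℤ) ^ (N + 1) ∣ (q * (e * m ^ 2)) ^ t - (m ^ 2) ^ t := by
    refine dvd_trans ?_ (sub_dvd_pow_sub_pow _ _ t)
    have : q * (e * m ^ 2) - m ^ 2 = (q * e - 1) * m ^ 2 := by ring
    rw [this]
    exact Dvd.dvd.mul_right hq _
  have h2 : (p : ℤ) ^ (N + 1) ∣ m ^ p ^ N - (sg p m) ^ p ^ N :=
    dvd_sub_pow_of_dvd_sub (sg_dvd hp hm) N
  have h3 : (sg p m) ^ p ^ N = sg p m := by
    rcases sg_cases p m with h | h
    · rw [h, one_pow]
    · rw [h]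
      exact Odd.neg_one_pow ⟨t, ht⟩
  rw [h3, ht] at h2
  have h4 : (q * (e * m ^ 2)) ^ t * m - sg p m =
      ((q * (e * m ^ 2)) ^ t - (m ^ 2) ^ t) * m + (m ^ (2 * t + 1) - sg p m) := by ring
  rw [h4]
  exact dvd_add (Dvd.dvd.mul_right h1 _) h2

section

variable {D : Type*} [CommGroup D] [Fintype D] {K : Type*} [Field K] [CharZero K]

/-- Frobenius for virtual characters -/
theorem vir_frob {p : ℕ} (hp : p.Prime) (hp2 : p ≠ 2) {n : ℕ} (hD : ∀ u : D, u ^ p ^ n = 1)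
    {g : D → K} (hg : g ∈ vir D K) :
    ∃ w ∈ vir D K, ∀ u, g u ^ p ^ n = g 1 + p * w u := by
  suffices h : g ∈ vir D K ∧ ∃ w ∈ vir D K, ∀ u, g u ^ p ^ n = g 1 + p * w u from h.2
  refine vir_induction (P := fun g => g ∈ vir D K ∧ ∃ w ∈ vir D K, ∀ u, g u ^ p ^ n = g 1 + p * w u)
    ?_ ?_ ?_ ?_ hg
  · intro l
    refine ⟨chr_mem l, 0, (vir D K).zero_mem, fun u => ?_⟩
    have h1 : chr l u ^ p ^ n = chr l (u ^ p ^ n) := by simp [chr]
    rw [h1, hD, chr_at_one]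
    simp
  · refine ⟨(vir D K).zero_mem, 0, (vir D K).zero_mem, fun u => ?_⟩
    have h1 : p ^ n ≠ 0 := pow_ne_zero _ hp.ne_zero
    simp only [Pi.zero_apply, mul_zero, add_zero]
    exact zero_pow h1
  · rintro x y ⟨hx, a, ha, ha'⟩ ⟨hy, b, hb, hb'⟩
    obtain ⟨r, hr⟩ := exists_add_pow_prime_pow_eq hp (⟨x, hx⟩ : vir D K) ⟨y, hy⟩ n
    refine ⟨(vir D K).add_mem hx hy, a + b + x * y * (r : D → K),
      (vir D K).add_mem ((vir D K).add_mem ha hb)
        ((vir D K).mul_mem ((vir D K).mul_mem hx hy) r.2), fun u => ?_⟩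
    have h1 := congrFun (congrArg (Subtype.val) hr) u
    have h2 : (x u + y u) ^ p ^ n = x u ^ p ^ n + y u ^ p ^ n + p * x u * y u * (r : D → K) u := by
      simpa using h1
    rw [Pi.add_apply, Pi.add_apply, h2, ha', hb']
    simp only [Pi.add_apply, Pi.mul_apply]
    ring
  · rintro x ⟨hx, a, ha, ha'⟩
    refine ⟨(vir D K).neg_mem hx, -a, (vir D K).neg_mem ha, fun u => ?_⟩
    have hodd : Odd (p ^ n) := (hp.odd_of_ne_two hp2).pow
    rw [Pi.neg_apply, hodd.neg_pow, ha', Pi.neg_apply, Pi.neg_apply]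
    ring

theorem isIntegral_chr (l : D →* Kˣ) (u : D) : IsIntegral ℤ (chr l u) := by
  have h1 : chr l u ^ Fintype.card D = 1 := by
    have h2 : chr l (u ^ Fintype.card D) = chr l u ^ Fintype.card D := by
      unfold chr
      rw [map_pow, Units.val_pow_eq_pow_val]
    rw [← h2, pow_card_eq_one, chr_at_one]
  have hne : Fintype.card D ≠ 0 := by
    have : Nonempty D := ⟨1⟩
    exact Fintype.card_ne_zero
  refine IsIntegral.of_pow (Nat.pos_of_ne_zero hne) ?_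
  rw [h1]
  exact isIntegral_one

theorem isIntegral_vir {g : D → K} (hg : g ∈ vir D K) (u : D) : IsIntegral ℤ (g u) := by
  refine vir_induction (P := fun g => ∀ u, IsIntegral ℤ (g u)) ?_ ?_ ?_ ?_ hg u
  · exact fun l u => isIntegral_chr l u
  · exact fun u => isIntegral_zero
  · exact fun x y hx hy u => (hx u).add (hy u)
  · exact fun x hx u => (hx u).neg

/-- integers which are values of a virtual character of a `p`-group are congruent modulo `p` -/
theorem vir_congr {p : ℕ} (hp : p.Prime) (hp2 : p ≠ 2) (hD : IsPGroup p D)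
    {g : D → K} (hg : g ∈ vir D K) {u : D} {a b : ℤ} (ha : g u = a) (hb : g 1 = b) :
    (p : ℤ) ∣ a - b := by
  have := Fact.mk hp
  obtain ⟨n, hn⟩ := IsPGroup.iff_card.1 hD
  have hn' : ∀ v : D, v ^ p ^ n = 1 := fun v => by
    rw [← hn, Nat.card_eq_fintype_card]
    exact pow_card_eq_one
  obtain ⟨w, hw, hw'⟩ := vir_frob hp hp2 hn' hg
  have h1 := hw' u
  rw [ha, hb] at h1
  -- `w u` is rational and integral
  have hpK : (p : K) ≠ 0 := Nat.cast_ne_zero.2 hp.ne_zero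
  have h2 : w u = algebraMap ℚ K (((a ^ p ^ n - b : ℤ) : ℚ) / p) := by
    rw [map_div₀]
    simp only [eq_ratCast, Rat.cast_intCast, Rat.cast_natCast]
    rw [eq_div_iff hpK]
    push_cast
    rw [h1]
    ring
  have h3 : IsIntegral ℤ (((a ^ p ^ n - b : ℤ) : ℚ) / p) := by
    have h4 := isIntegral_vir hw u
    rw [h2] at h4
    exact (isIntegral_algebraMap_iff (algebraMap ℚ K).injective).1 h4
  obtain ⟨c, hc⟩ := IsIntegrallyClosed.isIntegral_iff.1 h3
  have h5 : (p : ℤ) ∣ a ^ p ^ n - b := by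
    refine ⟨c, ?_⟩
    have hpQ : (p : ℚ) ≠ 0 := Nat.cast_ne_zero.2 hp.ne_zero
    rw [eq_div_iff hpQ] at hc
    have : ((a ^ p ^ n - b : ℤ) : ℚ) = ((p * c : ℤ) : ℚ) := by
      rw [← hc]
      simp
      ring
    exact_mod_cast this
  have h6 : (p : ℤ) ∣ a ^ p ^ n - a := by
    rw [← (ZMod.intCast_zmod_eq_zero_iff_dvd _ p)]
    push_cast
    rw [ZMod.pow_card_pow, sub_self]
  have h7 : a - b = (a ^ p ^ n - b) - (a ^ p ^ n - a) := by ring
  rw [h7]
  exact dvd_sub h5 h6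

variable [HasEnoughRootsOfUnity K (Monoid.exponent D)]

/-- **integral rows** -/
theorem rows {p : ℕ} (hp : p.Prime) (hp2 : p ≠ 2) (hD : IsPGroup p D) {e : ℕ} (he : ¬ p ∣ e)
    {n : D → ℤ} (hn : ∀ u, u ≠ 1 → (p : ℤ) ∣ n u ^ 2 - 1)
    (hnc : ∀ u v, Subgroup.zpowers v = Subgroup.zpowers u → n v = n u)
    {π : D → K} (hπ : π ∈ vir D K) (hπn : ∀ u, u ≠ 1 → π u = (e : K) * (n u : K) ^ 2)
    {θ : D → K} (hθ : θ ∈ vir D K) {f : D → K} (hf : ∀ u, u ≠ 1 → θ u = (n u : K) * f u)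
    (hfl : ∀ u, u ≠ 1 → ∃ β ∈ vir D K, ∀ v, Subgroup.zpowers v = Subgroup.zpowers u → f v = β v) :
    ∃ ψ ∈ vir D K, ∀ u, u ≠ 1 → ψ u = (sg p (n u) : K) * f u := by
  classical
  have := Fact.mk hp
  obtain ⟨d, hd⟩ := IsPGroup.iff_card.1 hD
  rw [Nat.card_eq_fintype_card] at hd
  -- the inverse of `e`
  obtain ⟨q, hq⟩ : ∃ q : ℤ, (p : ℤ) ^ (d + 1) ∣ q * e - 1 := by
    have hc : IsCoprime (e : ℤ) ((p : ℤ) ^ (d + 1)) := by
      have : Nat.Coprime e p := (Nat.Prime.coprime_iff_not_dvd hp).2 he |>.symm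
      exact (Nat.isCoprime_iff_coprime.2 this).pow_right
    obtain ⟨a, b, hab⟩ := hc
    exact ⟨a, -b, by linarith⟩
  choose! w hw using fun m (hm : (p : ℤ) ∣ m ^ 2 - 1) => root_arith hp hp2 d (e := e) hq hm
  set t : ℕ := (p ^ d - 1) / 2 with ht
  set s : D → K := (q • π) ^ t with hs
  have hsv : s ∈ vir D K := (vir D K).pow_mem (zsmul_mem hπ q) t
  set r : D → K := fun u => if u = 1 then 0 else -((p : K) * (w (n u) : K)) * f u with hr
  have hrl : Loc r := by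
    intro u
    by_cases hu : u = 1
    · refine ⟨0, (vir D K).zero_mem, fun v hv => ?_⟩
      have : v = 1 := by
        rw [hu, Subgroup.zpowers_one_eq_bot, Subgroup.zpowers_eq_bot] at hv
        exact hv
      rw [hr]
      simp [this]
    · obtain ⟨β, hβ, hβ'⟩ := hfl u hu
      refine ⟨(-((p : ℤ) * w (n u))) • β, zsmul_mem hβ _, fun v hv => ?_⟩
      have hv1 : v ≠ 1 := by
        rintro rfl
        apply hu
        rw [Subgroup.zpowers_one_eq_bot] at hv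
        exact Subgroup.zpowers_eq_bot.1 hv.symm
      rw [hr]
      simp only [hv1, if_false, Pi.smul_apply, zsmul_eq_mul]
      rw [hβ' v hv, hnc u v hv]
      push_cast
      ring
  refine ⟨s * θ + fun u => (Fintype.card D : K) * r u,
    (vir D K).add_mem ((vir D K).mul_mem hsv hθ) hrl.card_mul, fun u hu => ?_⟩
  have h1 : s u = (((q * (e * n u ^ 2)) ^ t : ℤ) : K) := by
    rw [hs, Pi.pow_apply, Pi.smul_apply, hπn u hu, zsmul_eq_mul]
    push_cast
    ring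
  have h2 := hw (n u) (hn u hu)
  have h3 : (((q * (e * n u ^ 2)) ^ t : ℤ) : K) * (n u : K) =
      (sg p (n u) : K) + (p : K) ^ (d + 1) * (w (n u) : K) := by
    have h4 : (q * (e * n u ^ 2)) ^ t * n u = sg p (n u) + (p : ℤ) ^ (d + 1) * w (n u) := by
      linarith
    exact_mod_cast congrArg (Int.cast : ℤ → K) h4
  rw [Pi.add_apply, Pi.mul_apply, h1, hf u hu, ← mul_assoc, h3, hr, hd]
  simp only [hu, if_false]
  push_cast
  ring

end

end Pool.Agent.Lib.P0c8ca5.Ex
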