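import Mathlib

/-!
# Virtual characters of a finite abelian group

`D` is a finite abelian group, `K` a field of characteristic 0 with enough roots of unity. `vir D K` is the ring of
functions on `D` generated by the characters `D →* Kˣ`.
-/

set_option autoImplicit false
set_option linter.unusedSectionVars false

namespace Pool.Agent.Lib.P0c8ca5.Ex

section

variable {D : Type*} [CommGroup D] {K : Type*} [Field K]

/-- a character as a function -/
def chr (l : D →* Kˣ) : D → K := fun u => ((l u : Kˣ) : K)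

theorem chr_mul (l m : D →* Kˣ) : chr (l * m) = chr l * chr m := by
  funext u
  simp [chr]

theorem chr_one : chr (1 : D →* Kˣ) = 1 := by
  funext u
  simp [chr]

theorem chr_at_one (l : D →* Kˣ) : chr l 1 = 1 := by simp [chr]

theorem chr_map_mul (l : D →* Kˣ) (u v : D) : chr l (u * v) = chr l u * chr l v := by simp [chr]

theorem chr_inv (l : D →* Kˣ) (u : D) : chr l⁻¹ u = chr l u⁻¹ := by simp [chr]

theorem chr_ne_zero (l : D →* Kˣ) (u : D) : chr l u ≠ 0 := (l u).ne_zero

theorem chr_mul_inv (l : D →* Kˣ) (u : D) : chr l u * chr l u⁻¹ = 1 := by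
  rw [← chr_map_mul, mul_inv_cancel, chr_at_one]

variable (D K) in
/-- the ring of virtual characters -/
def vir : Subring (D → K) := Subring.closure (Set.range chr)

theorem chr_mem (l : D →* Kˣ) : chr l ∈ vir D K := Subring.subset_closure ⟨l, rfl⟩

theorem vir_add {g : D → K} : g ∈ vir D K ↔
    g ∈ AddSubgroup.closure (Set.range (chr : (D →* Kˣ) → D → K)) := by
  constructor
  · intro h
    have h1 := Subring.mem_closure_iff.1 h
    refine AddSubgroup.closure_mono ?_ h1
    have h2 : Submonoid.closure (Set.range (chr : (D →* Kˣ) → D → K)) ≤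
        (⟨⟨Set.range chr, by rintro _ _ ⟨l, rfl⟩ ⟨m, rfl⟩; exact ⟨l * m, chr_mul l m⟩⟩,
          ⟨1, chr_one⟩⟩ : Submonoid (D → K)) := Submonoid.closure_le.2 le_rfl
    exact h2
  · intro h
    refine AddSubgroup.closure_induction (p := fun x _ => x ∈ vir D K) ?_ ?_ ?_ ?_ h
    · rintro _ ⟨l, rfl⟩
      exact chr_mem l
    · exact (vir D K).zero_mem
    · intro x y _ _ hx hy
      exact (vir D K).add_mem hx hy
    · intro x _ hx
      exact (vir D K).neg_mem hx

/-- induction for virtual characters -/
theorem vir_induction {P : (D → K) → Prop} (hc : ∀ l : D →* Kˣ, P (chr l)) (h0 : P 0)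
    (ha : ∀ x y, P x → P y → P (x + y)) (hn : ∀ x, P x → P (-x)) {g : D → K} (hg : g ∈ vir D K) :
    P g := by
  refine AddSubgroup.closure_induction (p := fun x _ => P x) ?_ h0 (fun x y _ _ => ha x y)
    (fun x _ => hn x) (vir_add.1 hg)
  rintro _ ⟨l, rfl⟩
  exact hc l

/-- composition with an automorphism -/
theorem vir_comp {g : D → K} (hg : g ∈ vir D K) (φ : D →* D) : (fun u => g (φ u)) ∈ vir D K := by
  refine vir_induction (P := fun g => (fun u => g (φ u)) ∈ vir D K) ?_ ?_ ?_ ?_ hg
  · intro l
    exact chr_mem (l.comp φ)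
  · exact (vir D K).zero_mem
  · intro x y hx hy
    exact (vir D K).add_mem hx hy
  · intro x hx
    exact (vir D K).neg_mem hx

end

section

variable {D : Type*} [CommGroup D] [Fintype D] {K : Type*} [Field K]

/-- sum of a character over a subgroup -/
theorem sum_chr_sub (l : D →* Kˣ) (C : Subgroup D) [DecidablePred (· ∈ C)] :
    ∃ a : ℤ, ∑ u with u ∈ C, chr l u = (a : K) := by
  classical
  by_cases h : ∀ u ∈ C, l u = 1
  · refine ⟨(Finset.univ.filter (· ∈ C)).card, ?_⟩
    rw [Finset.sum_congr rfl (g := fun _ => (1 : K)) (by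
      intro u hu
      rw [Finset.mem_filter] at hu
      simp [chr, h u hu.2])]
    simp
  · push Not at h
    obtain ⟨v, hv, hv1⟩ := h
    refine ⟨0, ?_⟩
    have h1 : ∑ u with u ∈ C, chr l u = chr l v * ∑ u with u ∈ C, chr l u := by
      rw [Finset.mul_sum]
      symm
      refine Finset.sum_bij (fun u _ => v * u) ?_ ?_ ?_ ?_
      · intro u hu
        rw [Finset.mem_filter] at hu ⊢
        exact ⟨Finset.mem_univ _, C.mul_mem hv hu.2⟩
      · intro a _ b _ hab
        exact mul_left_cancel hab
      · intro b hb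
        rw [Finset.mem_filter] at hb
        refine ⟨v⁻¹ * b, ?_, by group⟩
        rw [Finset.mem_filter]
        exact ⟨Finset.mem_univ _, C.mul_mem (C.inv_mem hv) hb.2⟩
      · intro u _
        rw [chr_map_mul]
    have h2 : (1 - chr l v) * ∑ u with u ∈ C, chr l u = 0 := by
      rw [sub_mul, one_mul, ← h1, sub_self]
    rcases mul_eq_zero.1 h2 with h3 | h3
    · exfalso
      apply hv1
      ext
      rw [Units.val_one]
      exact (sub_eq_zero.1 h3).symm
    · rw [h3]
      simp

/-- sum of a character over the elements generating the same subgroup -/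
theorem sum_chr_gen (l : D →* Kˣ) (C : Subgroup D) [DecidableEq (Subgroup D)] :
    ∃ a : ℤ, ∑ u with Subgroup.zpowers u = C, chr l u = (a : K) := by
  classical
  induction C using WellFoundedLT.induction with
  | ind C ih =>
    obtain ⟨a, ha⟩ := sum_chr_sub (K := K) l C
    choose! b hb using ih
    have : Fintype (Subgroup D) := Fintype.ofFinite _
    have h1 : ∑ u with u ∈ C, chr l u =
        ∑ B with B ≤ C, ∑ u with Subgroup.zpowers u = B, chr l u := by
      rw [← Finset.sum_fiberwise_of_maps_to (s := Finset.univ.filter (· ∈ C))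
        (t := Finset.univ.filter (· ≤ C)) (g := fun u => Subgroup.zpowers u) (f := chr l)]
      · refine Finset.sum_congr rfl fun B hB => ?_
        rw [Finset.mem_filter] at hB
        refine Finset.sum_congr ?_ fun _ _ => rfl
        ext u
        simp only [Finset.mem_filter, Finset.mem_univ, true_and]
        constructor
        · rintro ⟨_, h⟩
          exact h
        · intro h
          refine ⟨hB.2 (h ▸ Subgroup.mem_zpowers u), h⟩
      · intro u hu
        rw [Finset.mem_filter] at hu ⊢
        exact ⟨Finset.mem_univ _, (Subgroup.zpowers_le).2 hu.2⟩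
    have h2 : (Finset.univ.filter (· ≤ C) : Finset (Subgroup D)) =
        insert C (Finset.univ.filter (· < C)) := by
      ext B
      simp only [Finset.mem_filter, Finset.mem_univ, true_and, Finset.mem_insert]
      exact le_iff_eq_or_lt
    rw [h2, Finset.sum_insert (by simp), ha] at h1
    refine ⟨a - ∑ B with B < C, b B, ?_⟩
    have h3 : ∑ B with B < C, ∑ u with Subgroup.zpowers u = B, chr l u =
        ((∑ B with B < C, b B : ℤ) : K) := by
      push_cast
      refine Finset.sum_congr rfl fun B hB => ?_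
      rw [Finset.mem_filter] at hB
      exact hb B hB.2
    rw [h3] at h1
    push_cast at h1 ⊢
    rw [h1]
    ring

/-- sum of a virtual character over the elements generating the same subgroup -/
theorem sum_vir_gen {g : D → K} (hg : g ∈ vir D K) (C : Subgroup D) [DecidableEq (Subgroup D)] :
    ∃ a : ℤ, ∑ u with Subgroup.zpowers u = C, g u = (a : K) := by
  refine vir_induction (P := fun g => ∃ a : ℤ, ∑ u with Subgroup.zpowers u = C, g u = (a : K))
    (fun l => sum_chr_gen l C) ⟨0, by simp⟩ ?_ ?_ hg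
  · rintro x y ⟨a, ha⟩ ⟨b, hb⟩
    exact ⟨a + b, by rw [Int.cast_add, ← ha, ← hb, ← Finset.sum_add_distrib]; rfl⟩
  · rintro x ⟨a, ha⟩
    exact ⟨-a, by rw [Int.cast_neg, ← ha, ← Finset.sum_neg_distrib]; rfl⟩

/-- locally virtual functions: on the generators of every cyclic subgroup they agree with a virtual character -/
def Loc (f : D → K) : Prop :=
  ∀ u, ∃ β ∈ vir D K, ∀ v, Subgroup.zpowers v = Subgroup.zpowers u → f v = β v

theorem vir.loc {g : D → K} (hg : g ∈ vir D K) : Loc g := fun _ => ⟨g, hg, fun _ _ => rfl⟩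

theorem Loc.mul {f g : D → K} (hf : Loc f) (hg : Loc g) : Loc (fun u => f u * g u) := by
  intro u
  obtain ⟨a, ha, ha'⟩ := hf u
  obtain ⟨b, hb, hb'⟩ := hg u
  exact ⟨a * b, (vir D K).mul_mem ha hb, fun v hv => by
    change f v * g v = a v * b v
    rw [ha' v hv, hb' v hv]⟩

/-- the sum of a locally virtual function is an integer -/
theorem Loc.sum_int {f : D → K} (hf : Loc f) : ∃ a : ℤ, ∑ u, f u = (a : K) := by
  classical
  have : Fintype (Subgroup D) := Fintype.ofFinite _
  have h : ∀ C : Subgroup D, ∃ a : ℤ, ∑ u with Subgroup.zpowers u = C, f u = (a : K) := by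
    intro C
    by_cases hC : ∃ u, Subgroup.zpowers u = C
    · obtain ⟨u, rfl⟩ := hC
      obtain ⟨β, hβ, hβ'⟩ := hf u
      obtain ⟨a, ha⟩ := sum_vir_gen hβ (Subgroup.zpowers u)
      refine ⟨a, ?_⟩
      rw [← ha]
      refine Finset.sum_congr rfl fun v hv => ?_
      rw [Finset.mem_filter] at hv
      exact hβ' v hv.2
    · push Not at hC
      refine ⟨0, ?_⟩
      rw [Finset.sum_eq_zero, Int.cast_zero]
      intro u hu
      rw [Finset.mem_filter] at hu
      exact absurd hu.2 (hC u)
  choose a ha using h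
  refine ⟨∑ C, a C, ?_⟩
  push_cast
  rw [← Finset.sum_fiberwise_of_maps_to (s := Finset.univ)
    (t := Finset.univ) (g := fun u : D => Subgroup.zpowers u) (f := f) (by simp)]
  exact Finset.sum_congr rfl fun C _ => ha C

end

section

variable {D : Type*} [CommGroup D] [Fintype D] {K : Type*} [Field K] [CharZero K]
  [HasEnoughRootsOfUnity K (Monoid.exponent D)]

omit [CharZero K] in
theorem finite_chr : Finite (D →* Kˣ) :=
  Finite.of_equiv D (CommGroup.monoidHom_mulEquiv_of_hasEnoughRootsOfUnity D K).some.symm.toEquiv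

noncomputable instance : Fintype (D →* Kˣ) := @Fintype.ofFinite _ finite_chr

omit [CharZero K] in
theorem card_chr : Fintype.card (D →* Kˣ) = Fintype.card D := by
  rw [← Nat.card_eq_fintype_card, ← Nat.card_eq_fintype_card]
  exact CommGroup.card_monoidHom_of_hasEnoughRootsOfUnity D K

omit [CharZero K] [HasEnoughRootsOfUnity K (Monoid.exponent D)] in
/-- orthogonality -/
theorem sum_chr (l : D →* Kˣ) (hl : l ≠ 1) : ∑ u, chr l u = 0 := by
  obtain ⟨v, hv⟩ : ∃ v, l v ≠ 1 := by
    by_contra h
    push Not at h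
    exact hl (MonoidHom.ext h)
  have h1 : ∑ u, chr l u = chr l v * ∑ u, chr l u := by
    rw [Finset.mul_sum, ← Equiv.sum_comp (Equiv.mulLeft v)]
    exact Finset.sum_congr rfl fun u _ => chr_map_mul l v u
  have h2 : (1 - chr l v) * ∑ u, chr l u = 0 := by
    rw [sub_mul, one_mul, ← h1, sub_self]
  rcases mul_eq_zero.1 h2 with h3 | h3
  · exfalso
    apply hv
    ext
    rw [Units.val_one]
    exact (sub_eq_zero.1 h3).symm
  · exact h3

omit [CharZero K] in
/-- orthogonality -/
theorem sum_chr' (u : D) (hu : u ≠ 1) : ∑ l : D →* Kˣ, chr l u = 0 := by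
  obtain ⟨m, hm⟩ := CommGroup.exists_apply_ne_one_of_hasEnoughRootsOfUnity D K hu
  have h1 : ∑ l : D →* Kˣ, chr l u = chr m u * ∑ l : D →* Kˣ, chr l u := by
    rw [Finset.mul_sum, ← Equiv.sum_comp (Equiv.mulLeft m)]
    exact Finset.sum_congr rfl fun l _ => congrFun (chr_mul m l) u
  have h2 : (1 - chr m u) * ∑ l : D →* Kˣ, chr l u = 0 := by
    rw [sub_mul, one_mul, ← h1, sub_self]
  rcases mul_eq_zero.1 h2 with h3 | h3
  · exfalso
    apply hm
    ext
    rw [Units.val_one]
    exact (sub_eq_zero.1 h3).symm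
  · exact h3

/-- multiplicity of a character -/
noncomputable def mlt (g : D → K) (l : D →* Kˣ) : K :=
  (Fintype.card D : K)⁻¹ * ∑ u, g u * chr l u⁻¹

theorem card_ne : (Fintype.card D : K) ≠ 0 := by
  have : Nonempty D := ⟨1⟩
  exact Nat.cast_ne_zero.2 Fintype.card_ne_zero

/-- Fourier inversion -/
theorem eq_sum_mlt (g : D → K) (u : D) : g u = ∑ l, mlt g l * chr l u := by
  classical
  unfold mlt
  have h1 : ∀ l : D →* Kˣ, (Fintype.card D : K)⁻¹ * (∑ v, g v * chr l v⁻¹) * chr l u =
      (Fintype.card D : K)⁻¹ * ∑ v, g v * chr l (v⁻¹ * u) := by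
    intro l
    rw [mul_assoc, Finset.sum_mul]
    congr 1
    refine Finset.sum_congr rfl fun v _ => ?_
    rw [chr_map_mul]
    ring
  rw [Finset.sum_congr rfl fun l _ => h1 l, ← Finset.mul_sum, Finset.sum_comm]
  have h2 : ∀ v : D, ∑ l : D →* Kˣ, g v * chr l (v⁻¹ * u) =
      if v = u then g v * (Fintype.card D : K) else 0 := by
    intro v
    rw [← Finset.mul_sum]
    split_ifs with h
    · rw [h, inv_mul_cancel]
      simp only [chr_at_one, Finset.sum_const, Finset.card_univ, card_chr, nsmul_eq_mul, mul_one]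
    · rw [sum_chr' _ (fun h1 => h (inv_mul_eq_one.1 h1)), mul_zero]
  rw [Finset.sum_congr rfl fun v _ => h2 v, Finset.sum_ite_eq' Finset.univ u]
  simp only [Finset.mem_univ, if_true]
  rw [mul_comm (g u), ← mul_assoc, inv_mul_cancel₀ card_ne, one_mul]

theorem mlt_chr [DecidableEq (D →* Kˣ)] (l m : D →* Kˣ) : mlt (chr l) m = if l = m then 1 else 0 := by
  unfold mlt
  have h : ∀ u : D, chr l u * chr m u⁻¹ = chr (l * m⁻¹) u := by
    intro u
    rw [chr_mul, Pi.mul_apply, chr_inv]
  rw [Finset.sum_congr rfl fun u _ => h u]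
  split_ifs with h1
  · have h2 : l * m⁻¹ = 1 := by
      rw [h1]
      ext
      simp
    rw [h2, chr_one]
    simp only [Pi.one_apply, Finset.sum_const, Finset.card_univ, nsmul_eq_mul, mul_one]
    exact inv_mul_cancel₀ card_ne
  · have h2 : l * m⁻¹ ≠ 1 := by
      intro h2
      apply h1
      ext u
      have h3 := DFunLike.congr_fun h2 u
      rw [MonoidHom.mul_apply, MonoidHom.inv_apply, MonoidHom.one_apply, mul_inv_eq_one] at h3
      rw [h3]
    rw [sum_chr _ h2, mul_zero]

theorem mlt_add (g h : D → K) (l : D →* Kˣ) : mlt (g + h) l = mlt g l + mlt h l := by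
  unfold mlt
  rw [← mul_add, ← Finset.sum_add_distrib]
  congr 1
  exact Finset.sum_congr rfl fun u _ => by rw [Pi.add_apply]; ring

theorem mlt_neg (g : D → K) (l : D →* Kˣ) : mlt (-g) l = -mlt g l := by
  unfold mlt
  rw [← mul_neg, ← Finset.sum_neg_distrib]
  congr 1
  exact Finset.sum_congr rfl fun u _ => by rw [Pi.neg_apply]; ring

theorem mlt_zero (l : D →* Kˣ) : mlt (0 : D → K) l = 0 := by
  unfold mlt
  simp

/-- virtual characters are the functions with integer multiplicities -/
theorem mem_vir_iff {g : D → K} : g ∈ vir D K ↔ ∀ l, ∃ a : ℤ, mlt g l = (a : K) := by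
  classical
  constructor
  · intro hg l
    refine vir_induction (P := fun g => ∃ a : ℤ, mlt g l = (a : K)) ?_ ?_ ?_ ?_ hg
    · intro m
      rw [mlt_chr]
      split_ifs
      · exact ⟨1, by simp⟩
      · exact ⟨0, by simp⟩
    · exact ⟨0, by rw [mlt_zero]; simp⟩
    · rintro x y ⟨a, ha⟩ ⟨b, hb⟩
      exact ⟨a + b, by rw [mlt_add, ha, hb]; simp⟩
    · rintro x ⟨a, ha⟩
      exact ⟨-a, by rw [mlt_neg, ha]; simp⟩
  · intro h
    choose a ha using h
    have h1 : g = ∑ l, (a l) • chr l := by
      funext u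
      rw [eq_sum_mlt g u, Finset.sum_apply]
      refine Finset.sum_congr rfl fun l _ => ?_
      rw [ha l, Pi.smul_apply, zsmul_eq_mul]
    rw [h1]
    exact sum_mem fun l _ => zsmul_mem (chr_mem l) _

/-- `|D|` times a locally virtual function is virtual -/
theorem Loc.card_mul {f : D → K} (hf : Loc f) : (fun u => (Fintype.card D : K) * f u) ∈ vir D K := by
  rw [mem_vir_iff]
  intro l
  have h1 : Loc (fun u => f u * chr l⁻¹ u) := hf.mul (vir.loc (chr_mem _))
  obtain ⟨a, ha⟩ := h1.sum_int
  refine ⟨a, ?_⟩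
  unfold mlt
  rw [← ha, Finset.mul_sum]
  refine Finset.sum_congr rfl fun u _ => ?_
  rw [chr_inv]
  rw [← mul_assoc, ← mul_assoc, inv_mul_cancel₀ card_ne, one_mul]

end

end Pool.Agent.Lib.P0c8ca5.Ex
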