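import Mathlib

/-!
# TA: twisted closed walks and the trace lemma

For a permutation `s` of a finite set `X` and a matrix `a` with `a (s x) (s z) = a x z` the sum
`∑ x, (a ^ n) x (s x)` is the sum of the weights of the walks `y : ℤ → X`, `y (i + n) = s (y i)`.
The shift preserves the weight. `trace_fix`: if `ε`, `η` are idempotent, invariant and congruent
modulo `p` on the fixed points of `s` (a permutation of p-power order), then
`∑ x, ε x (s x) = ∑ x, η x (s x)`.
-/

namespace Pool.Agent.Lib.P0c8ca5.Ex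

open Finset

section orbit
variable {Y : Type*} [Fintype Y] {O : Type*} [CommRing O]

theorem inv_zpow {S : Equiv.Perm Y} {F : Y → O} (hF : ∀ y, F (S y) = F y)
    (g : Subgroup.zpowers S) (y : Y) : F (g • y) = F y := by
  obtain ⟨k, hk⟩ := Subgroup.mem_zpowers_iff.1 g.2
  have h0 : g • y = (S ^ k) y := by
    change (g : Equiv.Perm Y) y = _
    rw [← hk]
  rw [h0]
  have h1 : ∀ (n : ℕ) (y : Y), F ((S ^ n) y) = F y := by
    intro n
    induction n with
    | zero => intro y; rw [pow_zero]; rfl
    | succ n ih =>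
      intro y
      rw [pow_succ, Equiv.Perm.mul_apply, ih, hF]
  rcases Int.eq_nat_or_neg k with ⟨n, rfl | rfl⟩
  · rw [zpow_natCast]
    exact h1 n y
  · rw [zpow_neg, zpow_natCast]
    have h2 := h1 n (((S ^ n)⁻¹) y)
    have h3 : (S ^ n) ((S ^ n)⁻¹ y) = y := Equiv.apply_symm_apply (S ^ n) y
    rw [h3] at h2
    exact h2.symm

/-- sums of invariant functions by orbits -/
theorem sum_mem_of_period (S : Equiv.Perm Y) (F : Y → O) (hF : ∀ y, F (S y) = F y)
    (I : Ideal O) (h : ∀ y, ((Function.minimalPeriod S y : ℕ) : O) * F y ∈ I) :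
    ∑ y, F y ∈ I := by
  classical
  let q : Y → MulAction.orbitRel.Quotient (Subgroup.zpowers S) Y := Quotient.mk _
  rw [← Finset.sum_fiberwise Finset.univ q F]
  refine I.sum_mem fun w _ => ?_
  have hw : ∀ y, q y = w ↔ y ∈ MulAction.orbit (Subgroup.zpowers S) w.out := by
    intro y
    have h1 : Quotient.mk (MulAction.orbitRel (Subgroup.zpowers S) Y) w.out = w :=
      Quotient.out_eq w
    constructor
    · intro hy
      have h2 : Quotient.mk (MulAction.orbitRel (Subgroup.zpowers S) Y) y
          = Quotient.mk _ w.out := by rw [h1]; exact hy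
      exact Quotient.exact h2
    · intro hy
      have h2 : Quotient.mk (MulAction.orbitRel (Subgroup.zpowers S) Y) y
          = Quotient.mk _ w.out := Quotient.sound hy
      rw [← h1]
      exact h2
  have h1 : ∀ y ∈ Finset.univ.filter (fun y => q y = w), F y = F w.out := by
    intro y hy
    obtain ⟨g, hg⟩ := (hw y).1 (Finset.mem_filter.1 hy).2
    rw [← hg]
    exact inv_zpow hF g _
  have h2 : (Finset.univ.filter (fun y => q y = w)).card
      = Function.minimalPeriod S w.out := by
    have h3 := MulAction.minimalPeriod_eq_card (a := S) (b := w.out)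
    have h4 : Function.minimalPeriod (fun x => S • x) w.out = Function.minimalPeriod S w.out :=
      rfl
    rw [← h4, h3, ← Fintype.card_coe]
    refine Fintype.card_congr (Equiv.subtypeEquivRight fun y => ?_)
    rw [Finset.mem_filter]
    exact ⟨fun h => (hw y).1 h.2, fun h => ⟨Finset.mem_univ _, (hw y).2 h⟩⟩
  rw [Finset.sum_congr rfl h1, Finset.sum_const, h2, nsmul_eq_mul]
  exact h _

end orbit

section walks
variable {X : Type*} {O : Type*} [CommRing O]

/-- twisted closed walks of length `n` -/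
abbrev Wk (s : Equiv.Perm X) (n : ℕ) : Type _ := {y : ℤ → X // ∀ i, y (i + n) = s (y i)}

variable {s : Equiv.Perm X} {n : ℕ}

/-- the shift -/
def sh (s : Equiv.Perm X) (n : ℕ) : Equiv.Perm (Wk s n) where
  toFun y := ⟨fun i => y.1 (i + 1), fun i => by
    rw [← y.2 (i + 1)]
    exact congrArg y.1 (by ring)⟩
  invFun y := ⟨fun i => y.1 (i - 1), fun i => by
    rw [← y.2 (i - 1)]
    exact congrArg y.1 (by ring)⟩
  left_inv y := Subtype.ext (by
    funext i
    change y.1 (i - 1 + 1) = y.1 i
    rw [sub_add_cancel])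
  right_inv y := Subtype.ext (by
    funext i
    change y.1 (i + 1 - 1) = y.1 i
    rw [add_sub_cancel_right])

theorem sh_pow (k : ℕ) (y : Wk s n) (i : ℤ) : ((sh s n ^ k) y).1 i = y.1 (i + k) := by
  induction k generalizing y i with
  | zero => simp
  | succ k ih =>
    rw [pow_succ, Equiv.Perm.mul_apply, ih]
    change y.1 (i + k + 1) = _
    exact congrArg y.1 (by push_cast; ring)

theorem wk_nat (y : Wk s n) (k : ℕ) (i : ℤ) : y.1 (i + n * k) = (s ^ k) (y.1 i) := by
  induction k generalizing i with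
  | zero => simp
  | succ k ih =>
    have e : i + (n : ℤ) * ((k + 1 : ℕ) : ℤ) = (i + n * k) + n := by push_cast; ring
    rw [e, y.2, ih, pow_succ', Equiv.Perm.mul_apply]

theorem wk_int (y : Wk s n) (k : ℤ) (i : ℤ) : y.1 (i + n * k) = (s ^ k) (y.1 i) := by
  rcases Int.eq_nat_or_neg k with ⟨m, rfl | rfl⟩
  · rw [zpow_natCast]
    exact wk_nat y m i
  · rw [zpow_neg, zpow_natCast]
    have h := wk_nat y m (i + n * -m)
    have e : i + (n : ℤ) * -m + n * m = i := by ring
    rw [e] at h
    rw [h]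
    exact (Equiv.symm_apply_apply (s ^ m) _).symm

/-- the weight -/
def wt (a : X → X → O) (n : ℕ) (y : ℤ → X) : O := ∏ i ∈ range n, a (y i) (y (i + 1))

theorem wt_sh {a : X → X → O} (ha : ∀ x z, a (s x) (s z) = a x z) (y : Wk s n) :
    wt a n (sh s n y).1 = wt a n y.1 := by
  unfold wt
  have h1 : ∀ i : ℕ, (sh s n y).1 i = y.1 ((i + 1 : ℕ) : ℤ) := fun i => by
    change y.1 (i + 1) = _
    push_cast
    rfl
  rcases n with _ | n
  · simp
  · rw [Finset.prod_range_succ, Finset.prod_range_succ']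
    refine congrArg₂ (fun b c : O => b * c) (Finset.prod_congr rfl fun i _ => ?_) ?_
    · change a (y.1 (i + 1)) (y.1 (i + 1 + 1)) = _
      push_cast
      rfl
    · change a (y.1 (n + 1)) (y.1 (n + 1 + 1)) = _
      have h2 := y.2 0
      have h3 := y.2 1
      push_cast at h2 h3
      rw [zero_add] at h2
      have e : (n : ℤ) + 1 + 1 = 1 + (n + 1) := by ring
      rw [h2, e, h3, ha]
      simp

/-- periodic walks -/
theorem wt_period {a : X → X → O} (m k : ℕ) (y : ℤ → X) (hy : ∀ i, y (i + m) = y i) :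
    wt a (m * k) y = wt a m y ^ k := by
  induction k with
  | zero => simp [wt]
  | succ k ih =>
    rw [pow_succ, ← ih]
    unfold wt
    rw [Nat.mul_succ, Finset.prod_range_add]
    refine congrArg₂ (fun b c : O => b * c) rfl (Finset.prod_congr rfl fun i _ => ?_)
    have h1 : ∀ (j : ℕ) (i : ℤ), y (m * j + i) = y i := by
      intro j
      induction j with
      | zero => intro i; simp
      | succ j ihj =>
        intro i
        have e : (m : ℤ) * ((j + 1 : ℕ) : ℤ) + i = (m * j + i) + m := by push_cast; ring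
        rw [e, hy, ihj]
    push_cast
    rw [h1, add_assoc, h1]

variable [Fintype X]

/-- walks and finite sequences -/
def wkE (s : Equiv.Perm X) {n : ℕ} (hn : 0 < n) :
    Wk s n ≃ {v : Fin (n + 1) → X // v (Fin.last n) = s (v 0)} where
  toFun y := ⟨fun i => y.1 i, by
    have h := y.2 0
    rw [zero_add] at h
    simpa using h⟩
  invFun v := ⟨fun i => (s ^ (i / n)) (v.1 ⟨(i % n).toNat, by
    have h1 : (0 : ℤ) < n := by exact_mod_cast hn
    have h2 := Int.emod_lt_of_pos i h1
    have h3 := Int.emod_nonneg i h1.ne'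
    omega⟩), fun i => by
    have h1 : (n : ℤ) ≠ 0 := by exact_mod_cast hn.ne'
    have h2 : (i + n) / n = i / n + 1 := by
      rw [Int.add_ediv_of_dvd_right (dvd_refl _), Int.ediv_self h1]
    have h3 : (i + n) % n = i % n := Int.add_emod_right i n
    simp only [h2, h3]
    rw [zpow_add, zpow_one, ← Equiv.Perm.mul_apply, ← zpow_one_add, ← zpow_add_one, add_comm]⟩
  left_inv y := Subtype.ext (by
    funext i
    have h1 : (0 : ℤ) < n := by exact_mod_cast hn
    change (s ^ (i / n)) (y.1 (((i % n).toNat : ℕ) : ℤ)) = y.1 i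
    rw [Int.toNat_of_nonneg (Int.emod_nonneg i h1.ne'), ← wk_int]
    exact congrArg y.1 (Int.emod_add_mul_ediv i n))
  right_inv v := Subtype.ext (by
    funext i
    have h1 : (0 : ℤ) < n := by exact_mod_cast hn
    change (s ^ (((i : ℕ) : ℤ) / n)) (v.1 ⟨((((i : ℕ) : ℤ)) % n).toNat, _⟩) = v.1 i
    by_cases hi : (i : ℕ) < n
    · have h2 : ((i : ℕ) : ℤ) / n = 0 := Int.ediv_eq_zero_of_lt (by positivity)
        (by exact_mod_cast hi)
      have h3 : ((i : ℕ) : ℤ) % n = i := Int.emod_eq_of_lt (by positivity)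
        (by exact_mod_cast hi)
      have h4 : (⟨(((i : ℕ) : ℤ) % n).toNat, by rw [h3]; simpa using i.is_le⟩ : Fin (n + 1))
          = i := by
        apply Fin.ext
        simp only [h3]
        simp
      rw [h2, zpow_zero, Equiv.Perm.one_apply, h4]
    · have hi' : (i : ℕ) = n := by have := i.2; omega
      have h2 : ((i : ℕ) : ℤ) / n = 1 := by rw [hi']; exact Int.ediv_self h1.ne'
      have h3 : ((i : ℕ) : ℤ) % n = 0 := by rw [hi']; exact Int.emod_self
      have h4 : (⟨(((i : ℕ) : ℤ) % n).toNat, by rw [h3]; simp⟩ : Fin (n + 1)) = 0 := by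
        apply Fin.ext
        simp only [h3]
        simp
      have h5 : i = Fin.last n := Fin.ext hi'
      rw [h2, zpow_one, h4, ← v.2, h5])

variable [DecidableEq X]

theorem pow_entry (a : Matrix X X O) (n : ℕ) (x z : X) :
    (a ^ n) x z = ∑ v : Fin (n + 1) → X, if v 0 = x ∧ v (Fin.last n) = z then
      ∏ i : Fin n, a (v i.castSucc) (v i.succ) else 0 := by
  induction n generalizing x z with
  | zero =>
    rw [pow_zero, Matrix.one_apply, ← Equiv.sum_comp (Equiv.funUnique (Fin 1) X).symm]
    rw [Finset.sum_eq_single x]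
    · by_cases h : x = z
      · rw [if_pos h, if_pos]
        · simp
        · exact ⟨rfl, h⟩
      · rw [if_neg h, if_neg]
        rintro ⟨_, h2⟩
        exact h h2
    · intro w _ hw
      rw [if_neg]
      rintro ⟨h1, _⟩
      exact hw h1
    · intro h
      exact absurd (Finset.mem_univ x) h
  | succ n ih =>
    rw [pow_succ', Matrix.mul_apply, ← Equiv.sum_comp (Fin.consEquiv (fun _ : Fin (n + 2) => X)),
      Fintype.sum_prod_type]
    rw [Finset.sum_eq_single_of_mem (f := fun x' : X => ∑ v : Fin (n + 1) → X, _) x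
      (Finset.mem_univ x)]
    · rw [Finset.sum_congr rfl (fun t _ => by rw [ih t z, Finset.mul_sum]), Finset.sum_comm]
      refine Finset.sum_congr rfl fun v _ => ?_
      rw [Finset.sum_eq_single (v 0)]
      · by_cases h : v (Fin.last n) = z
        · rw [if_pos ⟨rfl, h⟩, if_pos]
          · rw [Fin.prod_univ_succ]
            rfl
          · exact ⟨rfl, h⟩
        · rw [if_neg (fun h' => h h'.2), if_neg, mul_zero]
          rintro ⟨_, h'⟩
          exact h h'
      · intro t _ ht
        rw [if_neg (fun h' => ht h'.1.symm), mul_zero]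
      · intro h
        exact absurd (Finset.mem_univ _) h
    · intro x' _ hx'
      refine Finset.sum_eq_zero fun v _ => ?_
      rw [if_neg]
      rintro ⟨h1, _⟩
      exact hx' h1

/-- the twisted trace of the powers as a sum over the walks -/
theorem walks_sum (hn : 0 < n) [Fintype (Wk s n)] (a : Matrix X X O) :
    ∑ x, (a ^ n) x (s x) = ∑ y : Wk s n, wt a n y.1 := by
  rw [Finset.sum_congr rfl (fun x _ => pow_entry a n x (s x)), Finset.sum_comm]
  have h1 : ∀ v : Fin (n + 1) → X, (∑ x, if v 0 = x ∧ v (Fin.last n) = s x then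
      ∏ i : Fin n, a (v i.castSucc) (v i.succ) else 0)
      = if v (Fin.last n) = s (v 0) then ∏ i : Fin n, a (v i.castSucc) (v i.succ) else 0 := by
    intro v
    rw [Finset.sum_eq_single (v 0)]
    · by_cases h : v (Fin.last n) = s (v 0)
      · rw [if_pos ⟨rfl, h⟩, if_pos h]
      · rw [if_neg (fun h' => h h'.2), if_neg h]
    · intro x _ hx
      rw [if_neg (fun h' => hx h'.1.symm)]
    · intro h
      exact absurd (Finset.mem_univ _) h
  rw [Finset.sum_congr rfl (fun v _ => h1 v), ← Finset.sum_filter,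
    Finset.sum_subtype (p := fun v : Fin (n + 1) → X => v (Fin.last n) = s (v 0)) _
      (fun v => by rw [Finset.mem_filter]; simp)]
  refine (Fintype.sum_equiv (wkE s hn) _ _ fun y => ?_).symm
  unfold wt
  rw [Finset.prod_range]
  refine Finset.prod_congr rfl fun i _ => ?_
  change _ = a (y.1 ((i.castSucc : Fin (n + 1)) : ℕ)) (y.1 ((i.succ : Fin (n + 1)) : ℕ))
  rw [Fin.val_castSucc, Fin.val_succ]
  push_cast
  rfl

theorem prod_dvd_sub {p : O} {ι : Type*} (S : Finset ι) {f g : ι → O}
    (h : ∀ i ∈ S, p ∣ f i - g i) : p ∣ ∏ i ∈ S, f i - ∏ i ∈ S, g i := by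
  rw [← Ideal.mem_span_singleton, ← Ideal.Quotient.eq, map_prod, map_prod]
  refine Finset.prod_congr rfl fun i hi => ?_
  rw [Ideal.Quotient.eq, Ideal.mem_span_singleton]
  exact h i hi

theorem trace_congr {p : ℕ} [Fact p.Prime] {M N : ℕ} (hs : s ^ p ^ M = 1) {a b : Matrix X X O}
    (ha : ∀ x z, a (s x) (s z) = a x z) (hb : ∀ x z, b (s x) (s z) = b x z)
    (hab : ∀ x z, s x = x → s z = z → (p : O) ∣ a x z - b x z) :
    (p : O) ^ (N + 1) ∣ ∑ x, (a ^ p ^ N) x (s x) - ∑ x, (b ^ p ^ N) x (s x) := by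
  classical
  have hp : p.Prime := Fact.out
  have hn : 0 < p ^ N := pow_pos hp.pos N
  have : Finite (Wk s (p ^ N)) := Finite.of_equiv _ (wkE s hn).symm
  have : Fintype (Wk s (p ^ N)) := Fintype.ofFinite _
  rw [walks_sum hn, walks_sum hn, ← Finset.sum_sub_distrib, ← Ideal.mem_span_singleton]
  refine sum_mem_of_period (sh s (p ^ N)) _ (fun y => by rw [wt_sh ha, wt_sh hb]) _ fun y => ?_
  rw [Ideal.mem_span_singleton]
  have h1 : Function.minimalPeriod (sh s (p ^ N)) y ∣ p ^ (N + M) := by
    rw [← Function.isPeriodicPt_iff_minimalPeriod_dvd]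
    have h2 : (sh s (p ^ N) ^ p ^ (N + M)) y = y := by
      apply Subtype.ext
      funext i
      have h3 := wk_nat y (p ^ M) i
      rw [hs] at h3
      rw [sh_pow]
      have e : i + ((p ^ (N + M) : ℕ) : ℤ) = i + ((p ^ N : ℕ) : ℤ) * ((p ^ M : ℕ) : ℤ) := by
        push_cast
        ring
      rw [e, h3]
      rfl
    rw [Function.IsPeriodicPt, Function.IsFixedPt, ← Equiv.Perm.coe_pow]
    exact h2
  obtain ⟨j, _, hj⟩ := (Nat.dvd_prime_pow hp).1 h1
  rw [hj]
  push_cast
  by_cases hjN : j ≤ N
  · have h2 : ∀ i, y.1 (i + (p ^ j : ℕ)) = y.1 i := by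
      intro i
      have h3 : (sh s (p ^ N) ^ p ^ j) y = y := by
        have h4 := Function.isPeriodicPt_minimalPeriod (sh s (p ^ N)) y
        rw [hj, Function.IsPeriodicPt, Function.IsFixedPt, ← Equiv.Perm.coe_pow] at h4
        exact h4
      have h5 := congrArg (fun z : Wk s (p ^ N) => z.1 i) h3
      simp only [sh_pow] at h5
      exact h5
    have hNj : p ^ N = p ^ j * p ^ (N - j) := by rw [← pow_add, Nat.add_sub_cancel' hjN]
    have hfix : ∀ i, s (y.1 i) = y.1 i := by
      intro i
      rw [← y.2 i]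
      have h6 : ∀ (k : ℕ) (i : ℤ), y.1 (i + ((p ^ j * k : ℕ) : ℤ)) = y.1 i := by
        intro k
        induction k with
        | zero => intro i; simp
        | succ k ih =>
          intro i
          have e : i + ((p ^ j * (k + 1) : ℕ) : ℤ) = (i + ((p ^ j * k : ℕ) : ℤ)) + (p ^ j : ℕ) := by
            push_cast
            ring
          rw [e, h2, ih]
      have h10 := h6 (p ^ (N - j)) i
      rw [← hNj] at h10
      exact h10
    have h7 : (p : O) ∣ wt a (p ^ j) y.1 - wt b (p ^ j) y.1 :=
      prod_dvd_sub _ fun i _ => hab _ _ (hfix _) (hfix _)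
    have h8 := dvd_sub_pow_of_dvd_sub h7 (N - j)
    have h9 : ∀ c : Matrix X X O, wt c (p ^ N) y.1 = wt c (p ^ j) y.1 ^ p ^ (N - j) := by
      intro c
      have h10 : ∀ z : ℤ → X, (∀ i, z (i + (p ^ j : ℕ)) = z i) →
          wt c (p ^ N) z = wt c (p ^ j) z ^ p ^ (N - j) := by
        intro z hz
        rw [hNj]
        exact wt_period _ _ _ hz
      exact h10 _ h2
    rw [h9 a, h9 b]
    have e : N + 1 = j + (N - j + 1) := by omega
    rw [e, pow_add]
    exact mul_dvd_mul_left _ h8
  · exact Dvd.dvd.mul_right (pow_dvd_pow _ (by omega)) _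

/-- THE TRACE LEMMA -/
theorem trace_fix {p : ℕ} [Fact p.Prime] {M : ℕ} (hs : s ^ p ^ M = 1)
    (hO : ∀ x : O, (∀ N : ℕ, (p : O) ^ N ∣ x) → x = 0) {ε η : Matrix X X O}
    (h1 : ε * ε = ε) (h2 : η * η = η)
    (ha : ∀ x z, ε (s x) (s z) = ε x z) (hb : ∀ x z, η (s x) (s z) = η x z)
    (hab : ∀ x z, s x = x → s z = z → (p : O) ∣ ε x z - η x z) :
    ∑ x, ε x (s x) = ∑ x, η x (s x) := by
  rw [← sub_eq_zero]
  refine hO _ fun N => ?_
  have h3 := trace_congr (N := N) hs ha hb hab
  have hn : p ^ N ≠ 0 := (pow_pos (Fact.out : p.Prime).pos N).ne'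
  have h4 : ∀ c : Matrix X X O, c * c = c → c ^ p ^ N = c := fun c hc =>
    IsIdempotentElem.pow_eq hc hn
  rw [h4 ε h1, h4 η h2] at h3
  exact (pow_dvd_pow _ (Nat.le_succ N)).trans h3

end walks

end Pool.Agent.Lib.P0c8ca5.Ex
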