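import Mathlib
import Pool.Agent.Lib.P0c8ca5Ex.TA

/-!
# TB: ordinary irreducible characters as the Wedderburn factors of the group algebra

`Ir K A` indexes the Wedderburn factors of `K[A]` (`K` algebraically closed of characteristic
zero), `wd` is the isomorphism with the product of the matrix algebras, `dg i` the degree and
`chi i` the character of the factor `i`, a linear form on `K[A]`. `bim`: the trace of the map
`x ↦ α x β` on `K[A]` is `∑ i, chi i α * chi i β`.
-/

namespace Pool.Agent.Lib.P0c8ca5.Ex

open MonoidAlgebra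

section irr
variable (K : Type*) [Field K] [IsAlgClosed K] [CharZero K] (A : Type*) [Group A] [Finite A]

theorem wd_exists : ∃ (n : ℕ) (d : Fin n → ℕ), (∀ i, NeZero (d i)) ∧
    Nonempty (MonoidAlgebra K A ≃ₐ[K] Π i, Matrix (Fin (d i)) (Fin (d i)) K) := by
  have : NeZero (Nat.card A : K) := ⟨by exact_mod_cast Nat.card_pos.ne'⟩
  have : Module.Finite K (MonoidAlgebra K A) := inferInstance
  exact IsSemisimpleRing.exists_algEquiv_pi_matrix_of_isAlgClosed K (MonoidAlgebra K A)

/-- the ordinary irreducible characters -/
abbrev Ir : Type := Fin (wd_exists K A).choose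

variable {K A}

/-- the degree -/
noncomputable def dg (i : Ir K A) : ℕ := (wd_exists K A).choose_spec.choose i

theorem dg_ne (i : Ir K A) : NeZero (dg i) := (wd_exists K A).choose_spec.choose_spec.1 i

/-- the decomposition of the group algebra -/
noncomputable def wd : MonoidAlgebra K A ≃ₐ[K] Π i : Ir K A, Matrix (Fin (dg i)) (Fin (dg i)) K :=
  (wd_exists K A).choose_spec.choose_spec.2.some

/-- the character -/
noncomputable def chi (i : Ir K A) : MonoidAlgebra K A →ₗ[K] K where
  toFun a := Matrix.trace (wd a i)
  map_add' a b := by rw [map_add, Pi.add_apply, Matrix.trace_add]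
  map_smul' c a := by rw [map_smul, Pi.smul_apply, Matrix.trace_smul]; rfl

theorem chi_apply (i : Ir K A) (a : MonoidAlgebra K A) : chi i a = Matrix.trace (wd a i) := rfl

theorem chi_mul_comm (i : Ir K A) (a b : MonoidAlgebra K A) : chi i (a * b) = chi i (b * a) := by
  rw [chi_apply, chi_apply, map_mul, map_mul, Pi.mul_apply, Pi.mul_apply, Matrix.trace_mul_comm]

theorem chi_one (i : Ir K A) : chi i 1 = dg i := by
  rw [chi_apply, map_one, Pi.one_apply, Matrix.trace_one, Fintype.card_fin]

/-- the trace of `x ↦ α x β` in the group basis -/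
theorem bim_group [Fintype A] (α β : MonoidAlgebra K A) :
    LinearMap.trace K (MonoidAlgebra K A)
      ((LinearMap.mulLeft K α).comp (LinearMap.mulRight K β))
      = ∑ x, (α * single x 1 * β).coeff x := by
  classical
  rw [LinearMap.trace_eq_matrix_trace K (MonoidAlgebra.basis A K), Matrix.trace]
  refine Finset.sum_congr rfl fun x _ => ?_
  rw [Matrix.diag_apply, LinearMap.toMatrix_apply, MonoidAlgebra.basis_apply,
    LinearMap.comp_apply, LinearMap.mulRight_apply, LinearMap.mulLeft_apply, ← mul_assoc]
  rfl

/-- the trace of `x ↦ α x β` in the matrix basis -/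
theorem bim_mat (α β : MonoidAlgebra K A) :
    LinearMap.trace K (MonoidAlgebra K A)
      ((LinearMap.mulLeft K α).comp (LinearMap.mulRight K β))
      = ∑ i, chi i α * chi i β := by
  classical
  have h1 := LinearMap.trace_conj' ((LinearMap.mulLeft K α).comp (LinearMap.mulRight K β))
    (wd (K := K) (A := A)).toLinearEquiv
  rw [← h1, LinearMap.trace_eq_matrix_trace K
    (Pi.basis (fun i : Ir K A => Matrix.stdBasis K (Fin (dg i)) (Fin (dg i)))), Matrix.trace,
    Fintype.sum_sigma]
  refine Finset.sum_congr rfl fun i _ => ?_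
  rw [Fintype.sum_prod_type, chi_apply, chi_apply, Matrix.trace, Matrix.trace,
    Finset.sum_mul_sum]
  refine Finset.sum_congr rfl fun r _ => Finset.sum_congr rfl fun t _ => ?_
  rw [Matrix.diag_apply, LinearMap.toMatrix_apply, Pi.basis_apply, Matrix.stdBasis_eq_single,
    Pi.basis_repr]
  have h2 : ∀ M : Π i : Ir K A, Matrix (Fin (dg i)) (Fin (dg i)) K,
      ((wd (K := K) (A := A)).toLinearEquiv.conj
        ((LinearMap.mulLeft K α).comp (LinearMap.mulRight K β))) M = wd α * M * wd β := by
    intro M
    rw [LinearEquiv.conj_apply_apply, LinearMap.comp_apply, LinearMap.mulRight_apply,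
      LinearMap.mulLeft_apply]
    change wd (α * (wd.symm M * β)) = _
    rw [map_mul, map_mul, AlgEquiv.apply_symm_apply, mul_assoc]
  rw [h2, Pi.mul_apply, Pi.mul_apply, Pi.single_eq_same]
  have h3 : ∀ M : Matrix (Fin (dg i)) (Fin (dg i)) K,
      (Matrix.stdBasis K (Fin (dg i)) (Fin (dg i))).repr M (r, t) = M r t := fun M => rfl
  rw [h3, Matrix.diag_apply, Matrix.diag_apply, Matrix.mul_apply, Finset.sum_eq_single t]
  · rw [Matrix.mul_apply, Finset.sum_eq_single r]
    · rw [Matrix.single_apply_same, mul_one]
    · intro c _ hc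
      rw [Matrix.single_apply_of_ne, mul_zero]
      rintro ⟨h, _⟩
      exact hc h.symm
    · intro h
      exact absurd (Finset.mem_univ _) h
  · intro c _ hc
    rw [Matrix.mul_apply, Finset.sum_eq_zero, zero_mul]
    intro c' _
    rw [Matrix.single_apply_of_ne, mul_zero]
    rintro ⟨_, h⟩
    exact hc h.symm
  · intro h
    exact absurd (Finset.mem_univ _) h

/-- the regular bimodule -/
theorem bim [Fintype A] (α β : MonoidAlgebra K A) :
    ∑ x, (α * single x 1 * β).coeff x = ∑ i, chi i α * chi i β := by
  rw [← bim_group, bim_mat]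

end irr

end Pool.Agent.Lib.P0c8ca5.Ex
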