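import Mathlib
import Pool.Agent.Lib.P0c8ca5Ex.TB

/-!
# TC: the trace formula (T')

`e1`, `e2` idempotents of `O[A]` commuting with the p-elements `u`, `v`; `e1'`, `e2'` idempotents
supported on `C(u)`, `C(v)` and congruent to `e1`, `e2` modulo `p` there. Then
`∑ i, chi i (u e1) * chi i (e2 v⁻¹)` is the trace of `x ↦ e1' x e2'` on the span of the `x` with
`u x = x v`.
-/

namespace Pool.Agent.Lib.P0c8ca5.Ex

open MonoidAlgebra

set_option linter.unusedSectionVars false

section ring
variable {O : Type*} [CommRing O] {A : Type*} [Group A] [Fintype A]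

theorem cf_mul (a b : MonoidAlgebra O A) (x : A) :
    (a * b).coeff x = ∑ y, a.coeff y * b.coeff (y⁻¹ * x) := by
  rw [coeff_mul_apply_left, Finsupp.sum_fintype]
  intro i
  simp

theorem cf_sand (a b : MonoidAlgebra O A) (x z : A) :
    (a * single x 1 * b).coeff z = ∑ g, a.coeff g * b.coeff (x⁻¹ * g⁻¹ * z) := by
  rw [mul_assoc, cf_mul]
  refine Finset.sum_congr rfl fun g _ => ?_
  rw [coeff_single_mul_apply, one_mul, mul_assoc]

theorem cf_lin (a b w : MonoidAlgebra O A) (z : A) :
    (a * w * b).coeff z = ∑ y, (a * single y 1 * b).coeff z * w.coeff y := by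
  have h1 : ∀ y, (a * single y 1 * b).coeff z = ∑ g, a.coeff g * b.coeff (y⁻¹ * g⁻¹ * z) :=
    fun y => cf_sand a b y z
  simp only [h1]
  rw [mul_assoc, cf_mul]
  have h2 : ∀ g, (w * b).coeff (g⁻¹ * z) = ∑ y, w.coeff y * b.coeff (y⁻¹ * g⁻¹ * z) := by
    intro g
    rw [cf_mul]
    exact Finset.sum_congr rfl fun y _ => by rw [mul_assoc]
  simp only [h2, Finset.mul_sum, Finset.sum_mul]
  rw [Finset.sum_comm]
  refine Finset.sum_congr rfl fun y _ => Finset.sum_congr rfl fun g _ => ?_
  ring

theorem single_comm {u : A} {e : MonoidAlgebra O A}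
    (h : single u 1 * e = e * single u (1 : O)) (g : A) :
    e.coeff (u * g * u⁻¹) = e.coeff g := by
  have h1 := congrArg (fun w : MonoidAlgebra O A => w.coeff (u * g)) h
  simp only [coeff_single_mul_apply, coeff_mul_single_apply, one_mul, mul_one] at h1
  rw [inv_mul_cancel_left] at h1
  exact h1.symm

variable [DecidableEq A]

/-- the permutation `x ↦ u x v⁻¹` -/
def lr (u v : A) : Equiv.Perm A := (Equiv.mulLeft u).trans (Equiv.mulRight v⁻¹)

theorem lr_apply (u v x : A) : lr u v x = u * x * v⁻¹ := rfl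

theorem lr_fix (u v x : A) : lr u v x = x ↔ u * x = x * v := by
  rw [lr_apply, mul_inv_eq_iff_eq_mul]

theorem lr_pow (u v : A) (n : ℕ) (x : A) : (lr u v ^ n) x = u ^ n * x * (v ^ n)⁻¹ := by
  induction n with
  | zero => simp
  | succ n ih =>
    rw [pow_succ', Equiv.Perm.mul_apply, ih, lr_apply, pow_succ' u, pow_succ' v]
    group

variable {p : ℕ} [Fact p.Prime]

theorem tp_sum {u v : A} {M : ℕ} (hu : u ^ p ^ M = 1) {e1 e2 e1' e2' : MonoidAlgebra O A}
    (c1 : single u 1 * e1 = e1 * single u (1 : O)) (c2 : single v 1 * e2 = e2 * single v (1 : O))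
    (s1 : ∀ g, e1'.coeff g ≠ 0 → u * g = g * u)
    (g1 : ∀ g, u * g = g * u → (p : O) ∣ e1.coeff g - e1'.coeff g)
    (g2 : ∀ g, v * g = g * v → (p : O) ∣ e2.coeff g - e2'.coeff g)
    {x z : A} (hx : u * x = x * v) (hz : u * z = z * v) :
    (p : O) ∣ (e1 * single x 1 * e2).coeff z - (e1' * single x 1 * e2').coeff z := by
  classical
  rw [cf_sand, cf_sand, ← Finset.sum_sub_distrib, ← Ideal.mem_span_singleton]
  have hv : ∀ g, v * (x⁻¹ * g⁻¹ * z) * v⁻¹ = x⁻¹ * (u * g * u⁻¹)⁻¹ * z := by
    intro g
    have e1 : v = x⁻¹ * u * x := by rw [mul_assoc, hx]; group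
    have e2 : z * v⁻¹ = u⁻¹ * z := by rw [mul_inv_eq_iff_eq_mul, mul_assoc, ← hz]; group
    calc v * (x⁻¹ * g⁻¹ * z) * v⁻¹ = v * x⁻¹ * g⁻¹ * (z * v⁻¹) := by group
      _ = x⁻¹ * u * x * x⁻¹ * g⁻¹ * (u⁻¹ * z) := by rw [e2]; rw [e1]
      _ = x⁻¹ * (u * g * u⁻¹)⁻¹ * z := by group
  have hc : ∀ g, u * g = g * u ↔ u * (u * g * u⁻¹) = u * g * u⁻¹ * u := by
    intro g
    constructor
    · intro h
      have h1 : u * g * u⁻¹ = g := by rw [h]; group
      rw [h1, h]
    · intro h
      rw [inv_mul_cancel_right] at h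
      have h2 := mul_left_cancel h
      rw [mul_inv_eq_iff_eq_mul] at h2
      exact h2
  have h1 : ∀ g, e1.coeff (u * g * u⁻¹) = e1.coeff g := single_comm c1
  have h2 : ∀ g, e2.coeff (v * g * v⁻¹) = e2.coeff g := single_comm c2
  have h0 : ∀ g, ¬ u * g = g * u → e1'.coeff g = 0 := by
    intro g hg
    by_contra h
    exact hg (s1 g h)
  have hfixg : ∀ g, u * g = g * u → u * g * u⁻¹ = g := by
    intro g hg
    rw [hg]
    group
  refine sum_mem_of_period (MulAut.conj u).toEquiv _ ?_ _ ?_
  · intro g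
    change e1.coeff (u * g * u⁻¹) * e2.coeff (x⁻¹ * (u * g * u⁻¹)⁻¹ * z)
      - e1'.coeff (u * g * u⁻¹) * e2'.coeff (x⁻¹ * (u * g * u⁻¹)⁻¹ * z) = _
    by_cases hg : u * g = g * u
    · rw [hfixg g hg]
    · rw [h1, ← hv, h2, h0 g hg, h0 _ (fun h => hg ((hc g).2 h)), zero_mul, zero_mul]
  · intro g
    by_cases hg : u * g = g * u
    · refine Ideal.mul_mem_left _ _ ?_
      rw [Ideal.mem_span_singleton]
      have hh : v * (x⁻¹ * g⁻¹ * z) = x⁻¹ * g⁻¹ * z * v := by
        have h3 := hv g
        rw [hfixg g hg, mul_inv_eq_iff_eq_mul] at h3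
        exact h3
      obtain ⟨r, hr⟩ := g1 g hg
      obtain ⟨t, ht⟩ := g2 _ hh
      refine ⟨r * e2.coeff (x⁻¹ * g⁻¹ * z) + e1'.coeff g * t, ?_⟩
      have e3 : e1.coeff g = e1'.coeff g + p * r := by rw [← hr]; ring
      have e4 : e2'.coeff (x⁻¹ * g⁻¹ * z) = e2.coeff (x⁻¹ * g⁻¹ * z) - p * t := by
        rw [← ht]; ring
      rw [e3, e4]
      ring
    · refine Ideal.mul_mem_right _ _ ?_
      rw [Ideal.mem_span_singleton]
      have h4 : Function.minimalPeriod (MulAut.conj u).toEquiv g ∣ p ^ M := by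
        rw [← Function.isPeriodicPt_iff_minimalPeriod_dvd]
        have h5 : ∀ n : ℕ, (⇑(MulAut.conj u).toEquiv)^[n] g = u ^ n * g * (u ^ n)⁻¹ := by
          intro n
          induction n with
          | zero => simp
          | succ n ih =>
            rw [Function.iterate_succ_apply', ih]
            change u * (u ^ n * g * (u ^ n)⁻¹) * u⁻¹ = _
            rw [pow_succ' u]
            group
        rw [Function.IsPeriodicPt, Function.IsFixedPt, h5, hu]
        group
      obtain ⟨j, _, hj⟩ := (Nat.dvd_prime_pow (Fact.out : p.Prime)).1 h4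
      rw [hj]
      rcases j with _ | j
      · exfalso
        apply hg
        rw [pow_zero] at hj
        have h6 := Function.isPeriodicPt_minimalPeriod (MulAut.conj u).toEquiv g
        rw [hj] at h6
        have h7 : u * g * u⁻¹ = g := h6
        rw [mul_inv_eq_iff_eq_mul] at h7
        exact h7
      · push_cast
        exact dvd_pow_self _ (Nat.succ_ne_zero _)

theorem tp {u v : A} {M : ℕ} (hu : u ^ p ^ M = 1) (hv : v ^ p ^ M = 1)
    (hO : ∀ x : O, (∀ N : ℕ, (p : O) ^ N ∣ x) → x = 0) {e1 e2 e1' e2' : MonoidAlgebra O A}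
    (i1 : e1 * e1 = e1) (i2 : e2 * e2 = e2) (i1' : e1' * e1' = e1') (i2' : e2' * e2' = e2')
    (c1 : single u 1 * e1 = e1 * single u (1 : O)) (c2 : single v 1 * e2 = e2 * single v (1 : O))
    (s1 : ∀ g, e1'.coeff g ≠ 0 → u * g = g * u) (s2 : ∀ g, e2'.coeff g ≠ 0 → v * g = g * v)
    (g1 : ∀ g, u * g = g * u → (p : O) ∣ e1.coeff g - e1'.coeff g)
    (g2 : ∀ g, v * g = g * v → (p : O) ∣ e2.coeff g - e2'.coeff g) :
    ∑ x, (single u 1 * e1 * single x 1 * (e2 * single v⁻¹ 1)).coeff x
      = ∑ x, if u * x = x * v then (e1' * single x 1 * e2').coeff x else 0 := by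
  classical
  let ε : Matrix A A O := fun z x => (e1 * single x 1 * e2).coeff z
  let η : Matrix A A O := fun z x => if u * x = x * v then (e1' * single x 1 * e2').coeff z else 0
  have hsupp : ∀ x z, u * x = x * v → (e1' * single x 1 * e2').coeff z ≠ 0 → u * z = z * v := by
    intro x z hx hne
    rw [cf_sand] at hne
    obtain ⟨g, _, hg⟩ := Finset.exists_ne_zero_of_sum_ne_zero hne
    have h1 := s1 g (left_ne_zero_of_mul hg)
    have h2 := s2 _ (right_ne_zero_of_mul hg)
    have h3 : z = g * x * (x⁻¹ * g⁻¹ * z) := by group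
    calc u * z = u * g * x * (x⁻¹ * g⁻¹ * z) := by group
      _ = g * (u * x) * (x⁻¹ * g⁻¹ * z) := by rw [h1]; group
      _ = g * x * (v * (x⁻¹ * g⁻¹ * z)) := by rw [hx]; group
      _ = g * x * (x⁻¹ * g⁻¹ * z) * v := by rw [h2]; group
      _ = z * v := by group
  have hεε : ε * ε = ε := by
    ext z x
    rw [Matrix.mul_apply]
    change ∑ y, (e1 * single y 1 * e2).coeff z * (e1 * single x 1 * e2).coeff y = _
    rw [← cf_lin]
    have e : e1 * (e1 * single x 1 * e2) * e2 = e1 * single x 1 * e2 := by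
      calc e1 * (e1 * single x 1 * e2) * e2 = (e1 * e1) * single x 1 * (e2 * e2) := by
            simp only [mul_assoc]
        _ = _ := by rw [i1, i2]
    rw [e]
  have hηη : η * η = η := by
    ext z x
    rw [Matrix.mul_apply]
    change ∑ y, (if u * y = y * v then (e1' * single y 1 * e2').coeff z else 0)
      * (if u * x = x * v then (e1' * single x 1 * e2').coeff y else 0)
      = if u * x = x * v then (e1' * single x 1 * e2').coeff z else 0
    by_cases hx : u * x = x * v
    · rw [if_pos hx]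
      have h1 : ∀ y, (if u * y = y * v then (e1' * single y 1 * e2').coeff z else 0)
          * (if u * x = x * v then (e1' * single x 1 * e2').coeff y else 0)
          = (e1' * single y 1 * e2').coeff z * (e1' * single x 1 * e2').coeff y := by
        intro y
        rw [if_pos hx]
        by_cases hy : u * y = y * v
        · rw [if_pos hy]
        · have h2 : (e1' * single x 1 * e2').coeff y = 0 := by
            by_contra h
            exact hy (hsupp x y hx h)
          rw [h2, mul_zero, mul_zero]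
      rw [Finset.sum_congr rfl (fun y _ => h1 y), ← cf_lin]
      have e : e1' * (e1' * single x 1 * e2') * e2' = e1' * single x 1 * e2' := by
        calc e1' * (e1' * single x 1 * e2') * e2' = (e1' * e1') * single x 1 * (e2' * e2') := by
              simp only [mul_assoc]
          _ = _ := by rw [i1', i2']
      rw [e]
    · rw [if_neg hx]
      exact Finset.sum_eq_zero fun y _ => by rw [if_neg hx, mul_zero]
  have hs : ∀ x, single (lr u v x) (1 : O) = single u 1 * single x 1 * single v⁻¹ 1 := by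
    intro x
    rw [single_mul_single, single_mul_single, mul_one, mul_one, lr_apply]
  have c2' : single v⁻¹ 1 * e2 = e2 * single v⁻¹ (1 : O) := by
    have h1 : single v⁻¹ (1 : O) * single v 1 = 1 := by
      rw [single_mul_single, inv_mul_cancel, one_mul, one_def]
    have h2 : single v (1 : O) * single v⁻¹ 1 = 1 := by
      rw [single_mul_single, mul_inv_cancel, one_mul, one_def]
    calc single v⁻¹ 1 * e2 = single v⁻¹ 1 * (e2 * single v 1) * single v⁻¹ 1 := by
          rw [mul_assoc, mul_assoc, h2, mul_one]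
      _ = single v⁻¹ 1 * (single v 1 * e2) * single v⁻¹ 1 := by rw [c2]
      _ = _ := by rw [← mul_assoc (single v⁻¹ 1), h1, one_mul]
  have hεs : ∀ x, e1 * single (lr u v x) (1 : O) * e2
      = single u 1 * (e1 * single x 1 * e2) * single v⁻¹ 1 := by
    intro x
    rw [hs]
    calc e1 * (single u 1 * single x 1 * single v⁻¹ 1) * e2
        = (e1 * single u 1) * single x 1 * (single v⁻¹ 1 * e2) := by simp only [mul_assoc]
      _ = (single u 1 * e1) * single x 1 * (e2 * single v⁻¹ 1) := by rw [c1, c2']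
      _ = _ := by simp only [mul_assoc]
  have hεi : ∀ z x, ε (lr u v z) (lr u v x) = ε z x := by
    intro z x
    change (e1 * single (lr u v x) 1 * e2).coeff (lr u v z) = (e1 * single x 1 * e2).coeff z
    rw [hεs, coeff_mul_single_apply, coeff_single_mul_apply, lr_apply, one_mul, mul_one]
    congr 1
    group
  have hfx : ∀ x, (u * lr u v x = lr u v x * v ↔ u * x = x * v) := by
    intro x
    rw [← lr_fix, ← lr_fix]
    exact (lr u v).injective.eq_iff
  have hηi : ∀ z x, η (lr u v z) (lr u v x) = η z x := by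
    intro z x
    change (if u * lr u v x = lr u v x * v then (e1' * single (lr u v x) 1 * e2').coeff (lr u v z)
      else 0) = if u * x = x * v then (e1' * single x 1 * e2').coeff z else 0
    by_cases hx : u * x = x * v
    · rw [if_pos ((hfx x).2 hx), if_pos hx, (lr_fix u v x).2 hx]
      by_cases hz : u * z = z * v
      · rw [(lr_fix u v z).2 hz]
      · have h1 : (e1' * single x 1 * e2').coeff z = 0 := by
          by_contra h
          exact hz (hsupp x z hx h)
        have h2 : (e1' * single x 1 * e2').coeff (lr u v z) = 0 := by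
          by_contra h
          exact hz ((hfx z).1 (hsupp x _ hx h))
        rw [h1, h2]
    · rw [if_neg (fun h => hx ((hfx x).1 h)), if_neg hx]
  have hpow : lr u v ^ p ^ M = 1 := by
    ext x
    rw [lr_pow, hu, hv]
    simp
  have key := trace_fix (s := lr u v) hpow hO hεε hηη hεi hηi (fun z x hz hx => by
    change (p : O) ∣ (e1 * single x 1 * e2).coeff z
      - (if u * x = x * v then (e1' * single x 1 * e2').coeff z else 0)
    have hx' := (lr_fix u v x).1 hx
    rw [if_pos hx']
    exact tp_sum hu c1 c2 s1 g1 g2 hx' ((lr_fix u v z).1 hz))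
  refine Eq.trans (Finset.sum_congr rfl fun x _ => ?_) (key.trans
    (Finset.sum_congr rfl fun x _ => ?_))
  · change _ = (e1 * single (lr u v x) 1 * e2).coeff x
    rw [hεs]
    congr 1
    simp only [mul_assoc]
  · change (if u * lr u v x = lr u v x * v then (e1' * single (lr u v x) 1 * e2').coeff x else 0)
      = _
    by_cases hx : u * x = x * v
    · rw [if_pos ((hfx x).2 hx), if_pos hx, (lr_fix u v x).2 hx]
    · rw [if_neg (fun h => hx ((hfx x).1 h)), if_neg hx]

end ring

end Pool.Agent.Lib.P0c8ca5.Ex
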