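import Mathlib
import Pool.Agent.Lib.P0c8ca5Ex.TC
import Pool.Agent.Lib.P0c8ca5Ex.DefR

/-!
# TD: the trace formula (T') for characters

`chO i` is the character `chi i` on the group algebra over `O ⊆ K`. `tp_chi`: for idempotents
`e1`, `e2` of `O[A]` commuting with the p-elements `u`, `v = g⁻¹ u g`, and idempotents `e1'`, `e2'`
of `O[C(u)]`, `O[C(v)]` congruent to them, the sum of `χ (u e1) χ (e2 v⁻¹)` over all `χ` is the
sum of `ψ (e1') ψ (g e2' g⁻¹)` over the `ψ` of `C(u)`.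
-/

namespace Pool.Agent.Lib.P0c8ca5.Ex

open MonoidAlgebra

set_option linter.unusedSectionVars false

section ring
variable {O : Type*} [CommRing O] {A : Type*} [Group A] [Fintype A]

theorem mem_C1 {u x : A} : x ∈ C1 u ↔ u * x = x * u := by
  rw [Subgroup.mem_centralizer_singleton_iff]
  exact eq_comm

/-- the conjugate of an element of `O[C(v)]` lies in `O[C(u)]` -/
theorem upr_dnr_cjr {u v g : A} (hg : u * g = g * v) (e : MonoidAlgebra O ↥(C1 v)) :
    upr (C1 u) (dnr (C1 u) (cjr g (upr (C1 v) e))) = cjr g (upr (C1 v) e) := by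
  refine upr_dnr fun x hx => ?_
  rw [coeff_cjr] at hx
  have h1 : g⁻¹ * x * g ∈ C1 v := by
    by_contra h
    exact hx (coeff_upr_of_notMem _ _ h)
  rw [mem_C1] at h1 ⊢
  have hu : u = g * v * g⁻¹ := by rw [← hg]; group
  calc u * x = g * (v * (g⁻¹ * x * g)) * g⁻¹ := by rw [hu]; group
    _ = x * u := by rw [h1, hu]; group

theorem cjr_idem {u v g : A} (hg : u * g = g * v) {e : MonoidAlgebra O ↥(C1 v)} (h : e * e = e) :
    dnr (C1 u) (cjr g (upr (C1 v) e)) * dnr (C1 u) (cjr g (upr (C1 v) e))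
      = dnr (C1 u) (cjr g (upr (C1 v) e)) := by
  apply upr_injective (C1 u)
  rw [map_mul, upr_dnr_cjr hg, ← cjr_mul, ← map_mul, h]

variable [DecidableEq A]

/-- the twisted bimodule `O[{x | u x = x v}]` is `O[C(u)] g` -/
theorem sum_twist {u v g : A} (hg : u * g = g * v) [Fintype ↥(C1 u)]
    (e1 : MonoidAlgebra O ↥(C1 u)) (e2 : MonoidAlgebra O ↥(C1 v)) :
    (∑ x, if u * x = x * v then (upr (C1 u) e1 * single x 1 * upr (C1 v) e2).coeff x else 0)
      = ∑ c : ↥(C1 u), (e1 * single c 1 * dnr (C1 u) (cjr g (upr (C1 v) e2))).coeff c := by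
  classical
  rw [← Finset.sum_filter]
  symm
  refine Finset.sum_bij (fun (c : ↥(C1 u)) _ => (c : A) * g) ?_ ?_ ?_ ?_
  · intro c _
    rw [Finset.mem_filter]
    refine ⟨Finset.mem_univ _, ?_⟩
    rw [← mul_assoc, mem_C1.1 c.2, mul_assoc, hg, mul_assoc]
  · intro a _ b _ h
    exact Subtype.ext (mul_right_cancel h)
  · intro x hx
    rw [Finset.mem_filter] at hx
    have h1 : x * g⁻¹ ∈ C1 u := by
      rw [mem_C1, ← mul_assoc, hx.2]
      have h2 : v * g⁻¹ = g⁻¹ * u := by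
        rw [mul_inv_eq_iff_eq_mul, mul_assoc, hg, inv_mul_cancel_left]
      rw [mul_assoc, h2, mul_assoc]
    exact ⟨⟨x * g⁻¹, h1⟩, Finset.mem_univ _, inv_mul_cancel_right _ _⟩
  · intro c _
    rw [← coeff_upr (C1 u), map_mul, map_mul, upr_single, upr_dnr_cjr hg]
    have h1 : single ((c : A) * g) (1 : O) * upr (C1 v) e2
        = single (c : A) 1 * cjr g (upr (C1 v) e2) * single g 1 := by
      have h2 : single ((c : A) * g) (1 : O) = single (c : A) 1 * single g 1 := by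
        rw [single_mul_single, one_mul]
      rw [h2, cjr]
      simp only [mul_assoc]
      rw [single_inv_mul, mul_one]
    rw [mul_assoc (upr (C1 u) e1) (single ((c : A) * g) 1), h1, ← mul_assoc (upr (C1 u) e1),
      coeff_mul_single_apply, mul_one, mul_inv_cancel_right, mul_assoc]

variable {p : ℕ} [Fact p.Prime]

/-- the trace formula over `O`, centralizer form -/
theorem tp' {u v : A} {M : ℕ} (hu : u ^ p ^ M = 1) (hv : v ^ p ^ M = 1)
    (hO : ∀ x : O, (∀ N : ℕ, (p : O) ^ N ∣ x) → x = 0) {e1 e2 : MonoidAlgebra O A}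
    {e1' : MonoidAlgebra O ↥(C1 u)} {e2' : MonoidAlgebra O ↥(C1 v)}
    (i1 : e1 * e1 = e1) (i2 : e2 * e2 = e2) (i1' : e1' * e1' = e1') (i2' : e2' * e2' = e2')
    (c1 : single u 1 * e1 = e1 * single u (1 : O)) (c2 : single v 1 * e2 = e2 * single v (1 : O))
    (g1 : ∀ c : ↥(C1 u), (p : O) ∣ e1.coeff (c : A) - e1'.coeff c)
    (g2 : ∀ c : ↥(C1 v), (p : O) ∣ e2.coeff (c : A) - e2'.coeff c) :
    ∑ x, (single u 1 * e1 * single x 1 * (e2 * single v⁻¹ 1)).coeff x
      = ∑ x, if u * x = x * v then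
        (upr (C1 u) e1' * single x 1 * upr (C1 v) e2').coeff x else 0 := by
  refine tp hu hv hO i1 i2 ?_ ?_ c1 c2 ?_ ?_ ?_ ?_
  · rw [← map_mul, i1']
  · rw [← map_mul, i2']
  · intro g hg
    by_contra h
    exact hg (coeff_upr_of_notMem _ _ fun h1 => h (mem_C1.1 h1))
  · intro g hg
    by_contra h
    exact hg (coeff_upr_of_notMem _ _ fun h1 => h (mem_C1.1 h1))
  · intro g hg
    have h1 := g1 ⟨g, mem_C1.2 hg⟩
    rw [← coeff_upr (C1 u) e1'] at h1
    exact h1
  · intro g hg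
    have h1 := g2 ⟨g, mem_C1.2 hg⟩
    rw [← coeff_upr (C1 v) e2'] at h1
    exact h1

end ring

section chars
variable {O : Type*} [CommRing O] {K : Type*} [Field K] [IsAlgClosed K] [CharZero K] [Algebra O K]
  {A : Type*} [Group A] [Finite A]

/-- the character `chi i` on `O[A]` -/
noncomputable def chO (i : Ir K A) : MonoidAlgebra O A →+ K :=
  (chi i).toAddMonoidHom.comp (mapRingHom A (algebraMap O K)).toAddMonoidHom

theorem chO_apply (i : Ir K A) (a : MonoidAlgebra O A) :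
    chO i a = chi i (mapRingHom A (algebraMap O K) a) := rfl

theorem chO_mul_comm (i : Ir K A) (a b : MonoidAlgebra O A) : chO i (a * b) = chO i (b * a) := by
  rw [chO_apply, chO_apply, map_mul (mapRingHom A (algebraMap O K)),
    map_mul (mapRingHom A (algebraMap O K)), chi_mul_comm]

theorem chO_one (i : Ir K A) : chO i (1 : MonoidAlgebra O A) = dg i := by
  rw [chO_apply, map_one, chi_one]

theorem chO_cjr (i : Ir K A) (g : A) (a : MonoidAlgebra O A) : chO i (cjr g a) = chO i a := by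
  rw [cjr, chO_mul_comm, ← mul_assoc, single_inv_mul, one_mul]

theorem map_smul' (c : O) (a : MonoidAlgebra O A) :
    mapRingHom A (algebraMap O K) (c • a) = algebraMap O K c • mapRingHom A (algebraMap O K) a := by
  ext x
  rw [coeff_map, coeff_smul, coeff_smul, Finsupp.smul_apply, Finsupp.smul_apply, coeff_map,
    smul_eq_mul, smul_eq_mul, map_mul]

theorem chO_smul (i : Ir K A) (c : O) (a : MonoidAlgebra O A) :
    chO i (c • a) = algebraMap O K c * chO i a := by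
  rw [chO_apply, map_smul', map_smul, smul_eq_mul, chO_apply]

/-- the regular bimodule -/
theorem bimO [Fintype A] (α β : MonoidAlgebra O A) :
    ∑ i : Ir K A, chO i α * chO i β
      = algebraMap O K (∑ x, (α * single x 1 * β).coeff x) := by
  rw [map_sum]
  have h1 : ∀ x, algebraMap O K ((α * single x 1 * β).coeff x)
      = (mapRingHom A (algebraMap O K) α * single x 1 * mapRingHom A (algebraMap O K) β).coeff x := by
    intro x
    rw [← coeff_map, map_mul, map_mul, map_single, map_one]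
  rw [Finset.sum_congr rfl fun x _ => h1 x, bim]
  rfl

variable {p : ℕ} [Fact p.Prime]

/-- the trace formula (T') for `u`, `v` not conjugate -/
theorem tp_chi_zero {u v : A} {M : ℕ} (hu : u ^ p ^ M = 1) (hv : v ^ p ^ M = 1)
    (hO : ∀ x : O, (∀ N : ℕ, (p : O) ^ N ∣ x) → x = 0) {e1 e2 : MonoidAlgebra O A}
    {e1' : MonoidAlgebra O ↥(C1 u)} {e2' : MonoidAlgebra O ↥(C1 v)}
    (i1 : e1 * e1 = e1) (i2 : e2 * e2 = e2) (i1' : e1' * e1' = e1') (i2' : e2' * e2' = e2')
    (c1 : single u 1 * e1 = e1 * single u (1 : O)) (c2 : single v 1 * e2 = e2 * single v (1 : O))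
    (g1 : ∀ c : ↥(C1 u), (p : O) ∣ e1.coeff (c : A) - e1'.coeff c)
    (g2 : ∀ c : ↥(C1 v), (p : O) ∣ e2.coeff (c : A) - e2'.coeff c)
    (hne : ∀ x, u * x ≠ x * v) :
    ∑ i : Ir K A, chO i (single u 1 * e1) * chO i (e2 * single v⁻¹ 1) = 0 := by
  classical
  have := Fintype.ofFinite A
  rw [bimO, tp' hu hv hO i1 i2 i1' i2' c1 c2 g1 g2, Finset.sum_eq_zero, map_zero]
  intro x _
  rw [if_neg (hne x)]

/-- the trace formula (T') for conjugate `u`, `v` -/
theorem tp_chi {u v g : A} {M : ℕ} (hu : u ^ p ^ M = 1) (hv : v ^ p ^ M = 1)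
    (hO : ∀ x : O, (∀ N : ℕ, (p : O) ^ N ∣ x) → x = 0) {e1 e2 : MonoidAlgebra O A}
    {e1' : MonoidAlgebra O ↥(C1 u)} {e2' : MonoidAlgebra O ↥(C1 v)}
    (i1 : e1 * e1 = e1) (i2 : e2 * e2 = e2) (i1' : e1' * e1' = e1') (i2' : e2' * e2' = e2')
    (c1 : single u 1 * e1 = e1 * single u (1 : O)) (c2 : single v 1 * e2 = e2 * single v (1 : O))
    (g1 : ∀ c : ↥(C1 u), (p : O) ∣ e1.coeff (c : A) - e1'.coeff c)
    (g2 : ∀ c : ↥(C1 v), (p : O) ∣ e2.coeff (c : A) - e2'.coeff c)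
    (hg : u * g = g * v) :
    ∑ i : Ir K A, chO i (single u 1 * e1) * chO i (e2 * single v⁻¹ 1)
      = ∑ j : Ir K ↥(C1 u), chO j e1' * chO j (dnr (C1 u) (cjr g (upr (C1 v) e2'))) := by
  classical
  have := Fintype.ofFinite A
  have := Fintype.ofFinite ↥(C1 u)
  rw [bimO, tp' hu hv hO i1 i2 i1' i2' c1 c2 g1 g2, sum_twist hg, bimO]

/-- the trace formula (T') for `u = v` -/
theorem tp_chi_self {u : A} {M : ℕ} (hu : u ^ p ^ M = 1)
    (hO : ∀ x : O, (∀ N : ℕ, (p : O) ^ N ∣ x) → x = 0) {e1 e2 : MonoidAlgebra O A}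
    {e1' e2' : MonoidAlgebra O ↥(C1 u)}
    (i1 : e1 * e1 = e1) (i2 : e2 * e2 = e2) (i1' : e1' * e1' = e1') (i2' : e2' * e2' = e2')
    (c1 : single u 1 * e1 = e1 * single u (1 : O)) (c2 : single u 1 * e2 = e2 * single u (1 : O))
    (g1 : ∀ c : ↥(C1 u), (p : O) ∣ e1.coeff (c : A) - e1'.coeff c)
    (g2 : ∀ c : ↥(C1 u), (p : O) ∣ e2.coeff (c : A) - e2'.coeff c) :
    ∑ i : Ir K A, chO i (single u 1 * e1) * chO i (e2 * single u⁻¹ 1)
      = ∑ j : Ir K ↥(C1 u), chO j e1' * chO j e2' := by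
  rw [tp_chi (g := 1) hu hu hO i1 i2 i1' i2' c1 c2 g1 g2 (by rw [mul_one, one_mul])]
  rw [cjr_one_left, dnr_upr]

end chars

end Pool.Agent.Lib.P0c8ca5.Ex
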