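import Mathlib
import Pool.Agent.Lib.P0c8ca5Ex.TD
import Pool.Agent.Lib.P0c8ca5Ex.R1

/-!
# TE: central characters, idempotents, restriction to abelian subgroups
-/

namespace Pool.Agent.Lib.P0c8ca5.Ex

open MonoidAlgebra

set_option linter.unusedSectionVars false

section irr
variable {K : Type*} [Field K] [IsAlgClosed K] [CharZero K] {A : Type*} [Group A] [Finite A]

/-- the central character -/
noncomputable def om (i : Ir K A) (z : MonoidAlgebra K A) : K := chi i z / dg i

theorem dg_ne' (i : Ir K A) : (dg i : K) ≠ 0 := Nat.cast_ne_zero.2 (dg_ne i).out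

theorem wd_cen (i : Ir K A) {z : MonoidAlgebra K A} (hz : ∀ a, z * a = a * z) :
    wd z i = Matrix.scalar _ (om i z) := by
  classical
  have h1 : wd z i ∈ Set.range (Matrix.scalar (Fin (dg i))) := by
    refine Matrix.mem_range_scalar_of_commute_single fun r s _ => ?_
    have h2 := congrArg (fun w => wd w i) (hz (wd.symm (Pi.single i (Matrix.single r s 1))))
    simp only [map_mul, AlgEquiv.apply_symm_apply, Pi.mul_apply, Pi.single_eq_same] at h2
    exact h2.symm
  obtain ⟨w, hw⟩ := h1
  rw [← hw]
  congr 1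
  rw [om, chi_apply, ← hw, Matrix.scalar_apply, Matrix.trace_diagonal, Finset.sum_const,
    Finset.card_univ, Fintype.card_fin, nsmul_eq_mul, mul_comm, mul_div_assoc,
    div_self (dg_ne' i), mul_one]

theorem chi_cen_mul (i : Ir K A) {z : MonoidAlgebra K A} (hz : ∀ a, z * a = a * z)
    (a : MonoidAlgebra K A) : chi i (z * a) = om i z * chi i a := by
  have h1 : ∀ (w : K) (M : Matrix (Fin (dg i)) (Fin (dg i)) K),
      Matrix.scalar (Fin (dg i)) w * M = w • M := by
    intro w M
    ext r s
    rw [Matrix.scalar_apply, Matrix.diagonal_mul, Matrix.smul_apply, smul_eq_mul]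
  rw [chi_apply, map_mul, Pi.mul_apply, wd_cen i hz, h1, Matrix.trace_smul, smul_eq_mul, chi_apply]

theorem om_one (i : Ir K A) : om i (1 : MonoidAlgebra K A) = 1 := by
  rw [om, chi_one, div_self (dg_ne' i)]

theorem om_mul (i : Ir K A) {z w : MonoidAlgebra K A} (hz : ∀ a, z * a = a * z) :
    om i (z * w) = om i z * om i w := by
  rw [om, chi_cen_mul i hz, om, om, mul_div_assoc]

theorem om_add (i : Ir K A) (z w : MonoidAlgebra K A) : om i (z + w) = om i z + om i w := by
  rw [om, map_add, add_div, om, om]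

theorem om_smul (i : Ir K A) (c : K) (z : MonoidAlgebra K A) : om i (c • z) = c * om i z := by
  rw [om, map_smul, smul_eq_mul, mul_div_assoc, om]

theorem om_idem (i : Ir K A) {z : MonoidAlgebra K A} (hz : ∀ a, z * a = a * z) (h : z * z = z) :
    om i z = 0 ∨ om i z = 1 := by
  have h1 := om_mul i (w := z) hz
  rw [h] at h1
  rcases eq_or_ne (om i z) 0 with h2 | h2
  · exact Or.inl h2
  · right
    have h3 : om i z * 1 = om i z * om i z := by rw [mul_one, ← h1]
    exact (mul_left_cancel₀ h2 h3).symm

/-- the trace of an idempotent matrix is a natural number -/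
theorem trace_idemF {n : ℕ} {M : Matrix (Fin n) (Fin n) K} (h : M * M = M) :
    ∃ r : ℕ, Matrix.trace M = r := by
  have h1 : IsIdempotentElem (Matrix.toLin' M) := by
    rw [IsIdempotentElem]
    change (Matrix.toLin' M).comp (Matrix.toLin' M) = _
    rw [← Matrix.toLin'_mul, h]
  refine ⟨Module.finrank K (LinearMap.range (Matrix.toLin' M)), ?_⟩
  have h2 := (LinearMap.IsIdempotentElem.isProj_range _ h1).trace
  rw [← h2, Matrix.trace_toLin'_eq]

theorem chi_idem (i : Ir K A) {e : MonoidAlgebra K A} (h : e * e = e) :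
    ∃ r : ℕ, chi i e = r := by
  rw [chi_apply]
  refine trace_idemF ?_
  rw [← Pi.mul_apply, ← map_mul, h]

/-- the characters separate the idempotents `≠ 0` from `0` -/
theorem exists_chi_ne {e : MonoidAlgebra K A} (h : e * e = e) (h0 : e ≠ 0) :
    ∃ i : Ir K A, chi i e ≠ 0 := by
  by_contra hcon
  push Not at hcon
  apply h0
  have h1 : ∀ i : Ir K A, wd e i = 0 := by
    intro i
    have h2 : IsIdempotentElem (Matrix.toLin' (wd e i)) := by
      rw [IsIdempotentElem]
      change (Matrix.toLin' (wd e i)).comp (Matrix.toLin' (wd e i)) = _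
      rw [← Matrix.toLin'_mul, ← Pi.mul_apply, ← map_mul, h]
    have h3 : Matrix.toLin' (wd e i) = 0 := by
      rw [← LinearMap.IsIdempotentElem.trace_eq_zero_iff h2, Matrix.trace_toLin'_eq]
      exact hcon i
    exact (Matrix.toLin').map_eq_zero_iff.1 h3
  have h2 : wd e = 0 := funext h1
  exact (map_eq_zero_iff wd wd.injective).1 h2

/-- the characters `chi i` span the class functions: an element killed by all characters times
everything is zero -/
theorem eq_zero_of_chi {a : MonoidAlgebra K A} (h : ∀ (i : Ir K A) b, chi i (a * b) = 0) :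
    a = 0 := by
  have h1 : ∀ i : Ir K A, wd a i = 0 := by
    intro i
    ext r s
    have h2 := h i (wd.symm (Pi.single i (Matrix.single s r 1)))
    rw [chi_apply, map_mul, AlgEquiv.apply_symm_apply, Pi.mul_apply, Pi.single_eq_same,
      Matrix.trace_mul_comm, Matrix.trace] at h2
    rw [Matrix.zero_apply, ← h2, Finset.sum_eq_single s]
    · rw [Matrix.diag_apply, Matrix.mul_apply, Finset.sum_eq_single r]
      · rw [Matrix.single_apply_same, one_mul]
      · intro c _ hc
        rw [Matrix.single_apply_of_ne, zero_mul]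
        rintro ⟨_, h⟩
        exact hc h.symm
      · intro h
        exact absurd (Finset.mem_univ _) h
    · intro c _ hc
      rw [Matrix.diag_apply, Matrix.mul_apply, Finset.sum_eq_zero]
      intro c' _
      rw [Matrix.single_apply_of_ne, zero_mul]
      rintro ⟨h, _⟩
      exact hc h.symm
    · intro h
      exact absurd (Finset.mem_univ _) h
  exact (map_eq_zero_iff wd wd.injective).1 (funext h1)

section ab
variable {D : Type*} [CommGroup D] [Fintype D] [HasEnoughRootsOfUnity K (Monoid.exponent D)]

/-- the idempotent of the character `l` -/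
noncomputable def idl (φ : D →* A) (l : D →* Kˣ) : MonoidAlgebra K A :=
  (Fintype.card D : K)⁻¹ • ∑ v, chr l v⁻¹ • single (φ v) (1 : K)

omit [Finite A] [IsAlgClosed K] [HasEnoughRootsOfUnity K (Monoid.exponent D)] in
theorem single_idl (φ : D →* A) (l : D →* Kˣ) (u : D) :
    single (φ u) 1 * idl φ l = chr l u • idl φ l := by
  rw [idl, mul_smul_comm, smul_comm (chr l u)]
  congr 1
  rw [Finset.mul_sum, Finset.smul_sum, ← Equiv.sum_comp (Equiv.mulLeft u)
    (fun v => chr l u • (chr l v⁻¹ • single (φ v) (1 : K)))]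
  refine Finset.sum_congr rfl fun v _ => ?_
  rw [mul_smul_comm, single_mul_single, one_mul, ← map_mul, Equiv.coe_mulLeft, smul_smul,
    ← chr_map_mul]
  congr 2
  rw [mul_inv_rev, mul_comm v⁻¹ u⁻¹, mul_inv_cancel_left]

theorem sum_idl (φ : D →* A) : ∑ l : D →* Kˣ, idl φ l = 1 := by
  classical
  unfold idl
  rw [← Finset.smul_sum, Finset.sum_comm]
  have h1 : ∀ v : D, ∑ l : D →* Kˣ, chr l v⁻¹ • single (φ v) (1 : K)
      = if v = 1 then (Fintype.card D : K) • 1 else 0 := by
    intro v
    rw [← Finset.sum_smul]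
    split_ifs with h
    · rw [h, inv_one]
      simp only [chr_at_one, Finset.sum_const, Finset.card_univ, card_chr, nsmul_eq_mul, mul_one,
        map_one]
      rfl
    · rw [sum_chr' _ (inv_ne_one.2 h), zero_smul]
  rw [Finset.sum_congr rfl fun v _ => h1 v, Finset.sum_ite_eq' Finset.univ]
  simp only [Finset.mem_univ, if_true]
  rw [smul_smul, inv_mul_cancel₀ card_ne, one_smul]

omit [Finite A] [IsAlgClosed K] in
theorem idl_idl (φ : D →* A) (l : D →* Kˣ) : idl φ l * idl φ l = idl φ l := by
  have h1 : ∀ a : MonoidAlgebra K A, (∀ u, single (φ u) 1 * a = chr l u • a) →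
      idl φ l * a = a := by
    intro a ha
    rw [idl, smul_mul_assoc, Finset.sum_mul]
    have h2 : ∀ v, (chr l v⁻¹ • single (φ v) (1 : K)) * a = a := by
      intro v
      rw [smul_mul_assoc, ha, smul_smul, ← chr_map_mul, inv_mul_cancel, chr_at_one, one_smul]
    rw [Finset.sum_congr rfl fun v _ => h2 v, Finset.sum_const, Finset.card_univ,
      ← Nat.cast_smul_eq_nsmul K, smul_smul, inv_mul_cancel₀ card_ne, one_smul]
  exact h1 _ (single_idl φ l)

omit [Finite A] [IsAlgClosed K] [HasEnoughRootsOfUnity K (Monoid.exponent D)] in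
theorem idl_comm (φ : D →* A) (l : D →* Kˣ) {e : MonoidAlgebra K A}
    (he : ∀ u, single (φ u) 1 * e = e * single (φ u) 1) : idl φ l * e = e * idl φ l := by
  rw [idl, smul_mul_assoc, mul_smul_comm, Finset.sum_mul, Finset.mul_sum]
  congr 1
  refine Finset.sum_congr rfl fun v _ => ?_
  rw [smul_mul_assoc, mul_smul_comm, he]

/-- the restriction to `D` of the character `e ↦ chi i (u e)` is an honest character -/
theorem honest (i : Ir K A) (φ : D →* A) {e : MonoidAlgebra K A} (h : e * e = e)
    (he : ∀ u, single (φ u) 1 * e = e * single (φ u) 1) :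
    ∃ m : (D →* Kˣ) → ℕ, ∀ u, chi i (single (φ u) 1 * e) = ∑ l, (m l : K) * chr l u := by
  have h1 : ∀ l : D →* Kˣ, ∃ r : ℕ, chi i (idl φ l * e) = r := by
    intro l
    refine chi_idem i ?_
    rw [mul_assoc, ← mul_assoc e, ← idl_comm φ l he, mul_assoc, h, ← mul_assoc, idl_idl]
  choose m hm using h1
  refine ⟨m, fun u => ?_⟩
  have h2 : single (φ u) 1 * e = ∑ l : D →* Kˣ, chr l u • (idl φ l * e) := by
    calc single (φ u) 1 * e = single (φ u) 1 * (∑ l : D →* Kˣ, idl φ l) * e := by
          rw [sum_idl, mul_one]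
      _ = _ := by
        rw [Finset.mul_sum, Finset.sum_mul]
        refine Finset.sum_congr rfl fun l _ => ?_
        rw [single_idl, smul_mul_assoc]
  rw [h2, map_sum]
  refine Finset.sum_congr rfl fun l _ => ?_
  rw [map_smul, smul_eq_mul, hm, mul_comm]

end ab

end irr

end Pool.Agent.Lib.P0c8ca5.Ex
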