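import Mathlib
import Pool.Agent.Lib.P0c8ca5Ex.TE
import Pool.Agent.Lib.P0c8ca5Ex.R2

/-!
# TF: positivity and independence of the lifts (L)
-/

namespace Pool.Agent.Lib.P0c8ca5.Ex

open MonoidAlgebra

set_option linter.unusedSectionVars false

section pos
variable {D : Type*} [CommGroup D] [Fintype D] {K : Type*} [Field K] [CharZero K]

/-- an embedding of a subring containing the values of the characters of finite groups into the
complex numbers -/
theorem exists_emb (K : Type*) [Field K] [CharZero K] : ∃ (S : Subring K) (φ : ↥S →+* ℂ),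
    Function.Injective φ ∧ ∀ x : K, IsIntegral ℤ x → x ∈ S := by
  have hF : Algebra.IsAlgebraic ℚ (algebraicClosure ℚ K) := algebraicClosure.isAlgebraic ℚ K
  let ψ : (algebraicClosure ℚ K) →ₐ[ℚ] ℂ := IsAlgClosed.lift
  refine ⟨(algebraicClosure ℚ K).toSubfield.toSubring, ψ.toRingHom, ψ.toRingHom.injective, ?_⟩
  intro x hx
  have h1 : IsIntegral ℚ x := hx.tower_top
  exact (mem_algebraicClosure_iff).2 h1.isAlgebraic

theorem vir_conj {S : Subring K} {φ : ↥S →+* ℂ} (hS : ∀ x : K, IsIntegral ℤ x → x ∈ S)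
    {g : D → K} (hg : g ∈ vir D K) (u : D) :
    ∃ (h : g u ∈ S) (h' : g u⁻¹ ∈ S), φ ⟨g u⁻¹, h'⟩ = star (φ ⟨g u, h⟩) := by
  refine vir_induction (P := fun g => ∃ (h : g u ∈ S) (h' : g u⁻¹ ∈ S),
    φ ⟨g u⁻¹, h'⟩ = star (φ ⟨g u, h⟩)) ?_ ?_ ?_ ?_ hg
  · intro l
    have hi : ∀ v : D, chr l v ∈ S := fun v => hS _ (isIntegral_chr l v)
    refine ⟨hi u, hi u⁻¹, ?_⟩
    have h1 : (⟨chr l u, hi u⟩ : ↥S) ^ Fintype.card D = 1 := by
      apply Subtype.ext
      rw [SubmonoidClass.coe_pow, OneMemClass.coe_one]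
      change chr l u ^ Fintype.card D = 1
      have h2 : chr l (u ^ Fintype.card D) = chr l u ^ Fintype.card D := by
        unfold chr
        rw [map_pow, Units.val_pow_eq_pow_val]
      rw [← h2, pow_card_eq_one, chr_at_one]
    have hne : Fintype.card D ≠ 0 := by
      have : Nonempty D := ⟨1⟩
      exact Fintype.card_ne_zero
    have h3 : ‖φ ⟨chr l u, hi u⟩‖ = 1 := by
      refine Complex.norm_eq_one_of_pow_eq_one ?_ hne
      rw [← map_pow, h1, map_one]
    have h4 : φ ⟨chr l u, hi u⟩ * φ ⟨chr l u⁻¹, hi u⁻¹⟩ = 1 := by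
      rw [← map_mul, ← map_one φ]
      congr 1
      apply Subtype.ext
      exact chr_mul_inv l u
    have h5 : φ ⟨chr l u, hi u⟩ * star (φ ⟨chr l u, hi u⟩) = 1 := by
      have h6 := Complex.mul_conj (φ ⟨chr l u, hi u⟩)
      rw [Complex.normSq_eq_norm_sq, h3, one_pow, Complex.ofReal_one] at h6
      exact h6
    have h7 : φ ⟨chr l u, hi u⟩ ≠ 0 := left_ne_zero_of_mul_eq_one h4
    exact mul_left_cancel₀ h7 (h4.trans h5.symm)
  · refine ⟨S.zero_mem, S.zero_mem, ?_⟩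
    have : (⟨(0 : D → K) u⁻¹, S.zero_mem⟩ : ↥S) = 0 := rfl
    have h2 : (⟨(0 : D → K) u, S.zero_mem⟩ : ↥S) = 0 := rfl
    rw [this, h2, map_zero, star_zero]
  · rintro x y ⟨hx, hx', ex⟩ ⟨hy, hy', ey⟩
    refine ⟨S.add_mem hx hy, S.add_mem hx' hy', ?_⟩
    have h1 : (⟨(x + y) u⁻¹, S.add_mem hx' hy'⟩ : ↥S) = ⟨x u⁻¹, hx'⟩ + ⟨y u⁻¹, hy'⟩ := rfl
    have h2 : (⟨(x + y) u, S.add_mem hx hy⟩ : ↥S) = ⟨x u, hx⟩ + ⟨y u, hy⟩ := rfl
    rw [h1, h2, map_add, map_add, star_add, ex, ey]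
  · rintro x ⟨hx, hx', ex⟩
    refine ⟨S.neg_mem hx, S.neg_mem hx', ?_⟩
    have h1 : (⟨(-x) u⁻¹, S.neg_mem hx'⟩ : ↥S) = -⟨x u⁻¹, hx'⟩ := rfl
    have h2 : (⟨(-x) u, S.neg_mem hx⟩ : ↥S) = -⟨x u, hx⟩ := rfl
    rw [h1, h2, map_neg, map_neg, star_neg, ex]

/-- positivity of the norm -/
theorem vir_pos {ι : Type*} (T : Finset ι) (g : ι → D → K) (hg : ∀ i ∈ T, g i ∈ vir D K) (u : D)
    (h : ∑ i ∈ T, g i u * g i u⁻¹ = 0) : ∀ i ∈ T, g i u = 0 := by
  classical
  obtain ⟨S, φ, hφ, hS⟩ := exists_emb K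
  have h1 : ∀ i ∈ T, ∃ (h : g i u ∈ S) (h' : g i u⁻¹ ∈ S),
      φ ⟨g i u⁻¹, h'⟩ = star (φ ⟨g i u, h⟩) := fun i hi => vir_conj hS (hg i hi) u
  let a : ι → ↥S := fun i => if h : g i u ∈ S then ⟨g i u, h⟩ else 0
  let b : ι → ↥S := fun i => if h : g i u⁻¹ ∈ S then ⟨g i u⁻¹, h⟩ else 0
  have ha : ∀ i ∈ T, (a i : K) = g i u := by
    intro i hi
    obtain ⟨h2, _, _⟩ := h1 i hi
    simp only [a, dif_pos h2]
  have hb : ∀ i ∈ T, (b i : K) = g i u⁻¹ := by
    intro i hi
    obtain ⟨_, h2, _⟩ := h1 i hi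
    simp only [b, dif_pos h2]
  have hab : ∀ i ∈ T, φ (b i) = star (φ (a i)) := by
    intro i hi
    obtain ⟨h2, h3, h4⟩ := h1 i hi
    simp only [a, b, dif_pos h2, dif_pos h3]
    exact h4
  have h5 : ∑ i ∈ T, a i * b i = 0 := by
    apply Subtype.ext
    rw [AddSubmonoidClass.coe_finsetSum, ZeroMemClass.coe_zero, ← h]
    refine Finset.sum_congr rfl fun i hi => ?_
    rw [MulMemClass.coe_mul, ha i hi, hb i hi]
  have h6 : ∑ i ∈ T, ((‖φ (a i)‖ ^ 2 : ℝ) : ℂ) = 0 := by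
    rw [← map_zero φ, ← h5, map_sum]
    refine Finset.sum_congr rfl fun i hi => ?_
    rw [map_mul, hab i hi]
    have h7 := Complex.mul_conj (φ (a i))
    rw [Complex.normSq_eq_norm_sq] at h7
    exact h7.symm
  have h7 : ∑ i ∈ T, ‖φ (a i)‖ ^ 2 = 0 := by
    rw [← Complex.ofReal_sum] at h6
    exact_mod_cast h6
  have h8 := (Finset.sum_eq_zero_iff_of_nonneg fun i _ => sq_nonneg _).1 h7
  intro i hi
  have h9 : φ (a i) = 0 := by
    have := h8 i hi
    rwa [sq_eq_zero_iff, norm_eq_zero] at this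
  rw [← ha i hi, (map_eq_zero_iff φ hφ).1 h9, ZeroMemClass.coe_zero]

/-- a sum of characters with natural multiplicities is virtual -/
theorem sum_mem_vir [HasEnoughRootsOfUnity K (Monoid.exponent D)] (m : (D →* Kˣ) → ℕ) :
    (fun u => ∑ l, (m l : K) * chr l u) ∈ vir D K := by
  have h1 : (fun u => ∑ l, (m l : K) * chr l u) = ∑ l, (m l) • chr l := by
    funext u
    rw [Finset.sum_apply]
    refine Finset.sum_congr rfl fun l _ => ?_
    rw [Pi.smul_apply, nsmul_eq_mul]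
  rw [h1]
  exact sum_mem fun l _ => nsmul_mem (chr_mem l) _

end pos

section lift
variable {O : Type*} [CommRing O] {K : Type*} [Field K] [IsAlgClosed K] [CharZero K] [Algebra O K]
  {A : Type*} [Group A] [Finite A] {D : Type*} [CommGroup D] [Fintype D]

instance enough : HasEnoughRootsOfUnity K (Monoid.exponent D) := by
  have : NeZero ((Monoid.exponent D : ℕ) : K) :=
    ⟨Nat.cast_ne_zero.2 Monoid.exponent_ne_zero_of_finite⟩
  infer_instance

/-- `u ↦ chO i (u e)` is an honest character -/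
theorem honestO (i : Ir K A) (φ : D →* A) {e : MonoidAlgebra O A} (h : e * e = e)
    (he : ∀ u, single (φ u) 1 * e = e * single (φ u) 1) :
    ∃ m : (D →* Kˣ) → ℕ, ∀ u, chO i (single (φ u) 1 * e) = ∑ l, (m l : K) * chr l u := by
  obtain ⟨m, hm⟩ := honest i φ (e := mapRingHom A (algebraMap O K) e)
    (by rw [← map_mul, h]) (fun u => by
      have h1 := congrArg (mapRingHom A (algebraMap O K)) (he u)
      rw [map_mul, map_mul, map_single, map_one] at h1
      exact h1)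
  refine ⟨m, fun u => ?_⟩
  rw [chO_apply, map_mul, map_single, map_one, hm]

theorem honest_vir (i : Ir K A) (φ : D →* A) {e : MonoidAlgebra O A} (h : e * e = e)
    (he : ∀ u, single (φ u) 1 * e = e * single (φ u) 1) :
    (fun u => chO i (single (φ u) 1 * e)) ∈ vir D K := by
  obtain ⟨m, hm⟩ := honestO i φ h he
  have h1 : (fun u => chO i (single (φ u) 1 * e)) = fun u => ∑ l, (m l : K) * chr l u := funext hm
  rw [h1]
  exact sum_mem_vir m

/-- an abelian subgroup as a commutative group -/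
abbrev cgrp {A : Type*} [Group A] (D : Subgroup A) (h : ∀ x ∈ D, ∀ y ∈ D, x * y = y * x) :
    CommGroup ↥D :=
  { D.toGroup with mul_comm := fun x y => Subtype.ext (h x x.2 y y.2) }

theorem zpow_com {A : Type*} [Group A] (u : A) :
    ∀ x ∈ Subgroup.zpowers u, ∀ y ∈ Subgroup.zpowers u, x * y = y * x := by
  rintro _ ⟨i, rfl⟩ _ ⟨j, rfl⟩
  exact ((Commute.refl u).zpow_zpow i j).eq

variable {p : ℕ} [Fact p.Prime]

theorem cjr_zpow {u : A} {x : MonoidAlgebra O A} (hx : cjr u x = x) {d : A}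
    (hd : d ∈ Subgroup.zpowers u) : cjr d x = x := by
  let S : Subgroup A :=
    { carrier := {d | cjr d x = x}
      mul_mem' := fun {a b} ha hb => by
        change cjr (a * b) x = x
        rw [← cjr_cjr, show cjr b x = x from hb, show cjr a x = x from ha]
      one_mem' := cjr_one_left x
      inv_mem' := fun {a} ha => by
        have h4 : cjr a⁻¹ (cjr a x) = x := by rw [cjr_cjr, inv_mul_cancel, cjr_one_left]
        rwa [show cjr a x = x from ha] at h4 }
  have h1 : Subgroup.zpowers u ≤ S := (Subgroup.zpowers_le).2 hx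
  exact h1 hd

/-- (L): the value at `u` does not depend on the lift of the idempotent -/
theorem lift_indep {u : A} {M : ℕ} (hu : u ^ p ^ M = 1)
    (hO : ∀ x : O, (∀ N : ℕ, (p : O) ^ N ∣ x) → x = 0) {e f : MonoidAlgebra O A}
    {ε : MonoidAlgebra O ↥(C1 u)} (h1 : e * e = e) (h2 : f * f = f) (h3 : ε * ε = ε)
    (c1 : single u 1 * e = e * single u (1 : O)) (c2 : single u 1 * f = f * single u (1 : O))
    (g1 : ∀ c : ↥(C1 u), (p : O) ∣ e.coeff (c : A) - ε.coeff c)
    (g2 : ∀ c : ↥(C1 u), (p : O) ∣ f.coeff (c : A) - ε.coeff c) (i : Ir K A) :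
    chO i (single u 1 * e) = chO i (single u 1 * f) := by
  classical
  let _ := cgrp (Subgroup.zpowers u) (zpow_com u)
  let φ : ↥(Subgroup.zpowers u) →* A := (Subgroup.zpowers u).subtype
  have := Fintype.ofFinite ↥(Subgroup.zpowers u)
  have hc : ∀ {x : MonoidAlgebra O A}, single u 1 * x = x * single u (1 : O) →
      ∀ d : ↥(Subgroup.zpowers u), single (φ d) 1 * x = x * single (φ d) (1 : O) := by
    intro x hx d
    rw [← cjr_eq_iff] at hx ⊢
    exact cjr_zpow hx d.2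
  let g : Ir K A → ↥(Subgroup.zpowers u) → K := fun i d =>
    chO i (single (φ d) 1 * e) - chO i (single (φ d) 1 * f)
  have hg : ∀ i ∈ Finset.univ, g i ∈ vir ↥(Subgroup.zpowers u) K := fun i _ =>
    (vir _ K).sub_mem (honest_vir i φ h1 (hc c1)) (honest_vir i φ h2 (hc c2))
  let u' : ↥(Subgroup.zpowers u) := ⟨u, Subgroup.mem_zpowers u⟩
  have key : ∑ i : Ir K A, g i u' * g i u'⁻¹ = 0 := by
    have h4 : ∀ i : Ir K A, g i u' * g i u'⁻¹
        = chO i (single u 1 * e) * chO i (e * single u⁻¹ 1)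
          - chO i (single u 1 * e) * chO i (f * single u⁻¹ 1)
          - chO i (single u 1 * f) * chO i (e * single u⁻¹ 1)
          + chO i (single u 1 * f) * chO i (f * single u⁻¹ 1) := by
      intro i
      rw [chO_mul_comm i e, chO_mul_comm i f]
      change (chO i (single u 1 * e) - chO i (single u 1 * f))
        * (chO i (single u⁻¹ 1 * e) - chO i (single u⁻¹ 1 * f)) = _
      ring
    rw [Finset.sum_congr rfl fun i _ => h4 i, Finset.sum_add_distrib, Finset.sum_sub_distrib,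
      Finset.sum_sub_distrib, tp_chi_self hu hO h1 h1 h3 h3 c1 c1 g1 g1,
      tp_chi_self hu hO h1 h2 h3 h3 c1 c2 g1 g2, tp_chi_self hu hO h2 h1 h3 h3 c2 c1 g2 g1,
      tp_chi_self hu hO h2 h2 h3 h3 c2 c2 g2 g2]
    ring
  have h5 := vir_pos Finset.univ g hg u' key i (Finset.mem_univ i)
  exact sub_eq_zero.1 h5

end lift

end Pool.Agent.Lib.P0c8ca5.Ex
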