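import Mathlib
import Pool.Agent.Lib.P0c8ca5Ex.TF

/-!
# TG: restriction of characters to subgroups
-/

namespace Pool.Agent.Lib.P0c8ca5.Ex

open MonoidAlgebra

set_option linter.unusedSectionVars false

section irr
variable {K : Type*} [Field K] [IsAlgClosed K] [CharZero K] {H : Type*} [Group H] [Finite H]

/-- the primitive idempotent at the first place of the factor `j` -/
noncomputable def e0 (j : Ir K H) : MonoidAlgebra K H :=
  wd.symm (Pi.single j (Matrix.single ⟨0, Nat.pos_of_ne_zero (dg_ne j).out⟩
    ⟨0, Nat.pos_of_ne_zero (dg_ne j).out⟩ 1))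

theorem e0_idem (j : Ir K H) : e0 j * e0 j = e0 j := by
  classical
  apply wd.injective
  rw [map_mul, e0, AlgEquiv.apply_symm_apply, ← Pi.single_mul, Matrix.single_mul_single_same,
    one_mul]

theorem cen_e0 (j : Ir K H) {z : MonoidAlgebra K H} (hz : ∀ a, z * a = a * z) :
    z * e0 j = om j z • e0 j := by
  classical
  apply wd.injective
  rw [map_mul, map_smul, e0, AlgEquiv.apply_symm_apply]
  funext l
  rw [Pi.mul_apply, Pi.smul_apply]
  rcases eq_or_ne l j with rfl | h
  · rw [wd_cen l hz, Pi.single_eq_same]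
    ext r s
    rw [Matrix.scalar_apply, Matrix.diagonal_mul, Matrix.smul_apply, smul_eq_mul]
  · rw [Pi.single_eq_of_ne h, mul_zero, smul_zero]

/-- a trace form on the group algebra is a combination of the characters -/
theorem trace_form (t : MonoidAlgebra K H →ₗ[K] K) (ht : ∀ a b, t (a * b) = t (b * a))
    (a : MonoidAlgebra K H) : t a = ∑ j, t (e0 j) * chi j a := by
  classical
  let T : (Π j : Ir K H, Matrix (Fin (dg j)) (Fin (dg j)) K) →ₗ[K] K :=
    t.comp (wd (K := K) (A := H)).symm.toLinearMap
  have hT : ∀ x y, T (x * y) = T (y * x) := by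
    intro x y
    change t (wd.symm (x * y)) = t (wd.symm (y * x))
    rw [map_mul (wd (K := K) (A := H)).symm, map_mul (wd (K := K) (A := H)).symm, ht]
  have h1 : ∀ (j : Ir K H) (r s : Fin (dg j)) (c : K), r ≠ s →
      T (Pi.single j (Matrix.single r s c)) = 0 := by
    intro j r s c hrs
    have e : Pi.single j (Matrix.single r s c)
        = (Pi.single j (Matrix.single r r 1) * Pi.single j (Matrix.single r s c) :
          Π j : Ir K H, Matrix (Fin (dg j)) (Fin (dg j)) K) := by
      rw [← Pi.single_mul, Matrix.single_mul_single_same, one_mul]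
    rw [e, hT, ← Pi.single_mul, Matrix.single_mul_single_of_ne _ _ _ _ (Ne.symm hrs),
      Pi.single_zero, map_zero]
  have h2 : ∀ (j : Ir K H) (r : Fin (dg j)) (c : K),
      T (Pi.single j (Matrix.single r r c)) = t (e0 j) * c := by
    intro j r c
    let o : Fin (dg j) := ⟨0, Nat.pos_of_ne_zero (dg_ne j).out⟩
    have e : Pi.single j (Matrix.single r r c)
        = (Pi.single j (Matrix.single r o c) * Pi.single j (Matrix.single o r 1) :
          Π j : Ir K H, Matrix (Fin (dg j)) (Fin (dg j)) K) := by
      rw [← Pi.single_mul, Matrix.single_mul_single_same, mul_one]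
    rw [e, hT, ← Pi.single_mul, Matrix.single_mul_single_same, one_mul]
    have e2 : (Pi.single j (Matrix.single o o c) :
        Π j : Ir K H, Matrix (Fin (dg j)) (Fin (dg j)) K)
        = c • Pi.single j (Matrix.single o o 1) := by
      rw [← Pi.single_smul, Matrix.smul_single, smul_eq_mul, mul_one]
    rw [e2, map_smul, smul_eq_mul, mul_comm]
    rfl
  have h3 : t a = T (wd a) := by
    change t a = t (wd.symm (wd a))
    rw [AlgEquiv.symm_apply_apply]
  rw [h3]
  have h4 : wd a = ∑ j, Pi.single j (∑ r, ∑ s, Matrix.single r s (wd a j r s)) := by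
    have h5 := (Finset.univ_sum_single (wd (K := K) a)).symm
    rw [h5]
    refine Finset.sum_congr rfl fun j _ => ?_
    rw [← h5]
    congr 1
    exact Matrix.matrix_eq_sum_single _
  rw [h4, map_sum]
  refine Finset.sum_congr rfl fun j _ => ?_
  have h6 : (Pi.single j (∑ r, ∑ s, Matrix.single r s (wd a j r s)) :
      Π j : Ir K H, Matrix (Fin (dg j)) (Fin (dg j)) K)
      = ∑ r, ∑ s, Pi.single j (Matrix.single r s (wd a j r s)) := by
    have h7 : ∀ x : Matrix (Fin (dg j)) (Fin (dg j)) K, (Pi.single j x :
      Π j : Ir K H, Matrix (Fin (dg j)) (Fin (dg j)) K) = AddMonoidHom.single _ j x := fun _ => rfl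
    simp only [h7, map_sum]
  rw [h6, map_sum, chi_apply, Matrix.trace, Finset.mul_sum]
  refine Finset.sum_congr rfl fun r _ => ?_
  rw [map_sum, Finset.sum_eq_single r]
  · exact h2 j r _
  · intro s _ hs
    exact h1 j r s _ (Ne.symm hs)
  · intro h
    exact absurd (Finset.mem_univ _) h

end irr

section rest
variable {K : Type*} [Field K] [IsAlgClosed K] [CharZero K] {A : Type*} [Group A] [Finite A]

/-- the multiplicity of `j` in the restriction of `i` -/
theorem mult_exists (H : Subgroup A) (i : Ir K A) (j : Ir K ↥H) :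
    ∃ m : ℕ, chi i (upr H (e0 j)) = m :=
  chi_idem i (by rw [← map_mul, e0_idem])

/-- the multiplicity of `j` in the restriction of `i` -/
noncomputable def mult (H : Subgroup A) (i : Ir K A) (j : Ir K ↥H) : ℕ :=
  (mult_exists H i j).choose

theorem mult_spec (H : Subgroup A) (i : Ir K A) (j : Ir K ↥H) :
    chi i (upr H (e0 j)) = mult H i j := (mult_exists H i j).choose_spec

/-- restriction to a subgroup -/
theorem chi_upr (H : Subgroup A) (i : Ir K A) (a : MonoidAlgebra K ↥H) :
    chi i (upr H a) = ∑ j, (mult H i j : K) * chi j a := by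
  have h1 := trace_form ((chi i).comp (upr (R := K) H).toLinearMap)
    (fun a b => by
      change chi i (upr H (a * b)) = chi i (upr H (b * a))
      rw [map_mul (upr (R := K) H), map_mul (upr (R := K) H), chi_mul_comm]) a
  refine h1.trans (Finset.sum_congr rfl fun j _ => ?_)
  rw [← mult_spec]
  rfl

/-- the central characters of `i` and of a constituent `j` of its restriction agree -/
theorem om_of_mult {H : Subgroup A} {i : Ir K A} {j : Ir K ↥H} (h : mult H i j ≠ 0)
    {z : MonoidAlgebra K ↥H} (hz : ∀ a, z * a = a * z)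
    (hz' : ∀ a, upr H z * a = a * upr H z) : om j z = om i (upr H z) := by
  have h1 : chi i (upr H (z * e0 j)) = om i (upr H z) * chi i (upr H (e0 j)) := by
    rw [map_mul, chi_cen_mul i hz']
  rw [cen_e0 j hz, map_smul, map_smul, smul_eq_mul] at h1
  refine mul_right_cancel₀ ?_ h1
  rw [mult_spec]
  exact Nat.cast_ne_zero.2 h

variable {O : Type*} [CommRing O] [Algebra O K]

/-- restriction to a subgroup, over `O` -/
theorem chO_upr (H : Subgroup A) (i : Ir K A) (a : MonoidAlgebra O ↥H) :
    chO i (upr H a) = ∑ j, (mult H i j : K) * chO j a := by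
  rw [chO_apply, map_upr, chi_upr]
  rfl

end rest

end Pool.Agent.Lib.P0c8ca5.Ex
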