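import Mathlib
import Pool.Agent.Lib.P0c8ca5Ex.TG
import Pool.Agent.Lib.P0c8ca5Ex.TF
import Pool.Agent.Lib.P0c8ca5Ex.OA

/-!
# ND: blocks over the Witt vectors

`CenL b B`: `B` is the central idempotent lifting `b`; `IdL i I`: `I` is an idempotent lifting
`i`; `IrB B`: the ordinary irreducible characters in the block `B`.
-/

namespace Pool.Agent.Lib.P0c8ca5.Ex

open MonoidAlgebra

variable {p : ℕ} [Fact p.Prime] {k : Type*} [Field k] [IsAlgClosed k] [CharP k p]
  {A : Type*} [Group A]

/-- `B` is a central idempotent lifting `b` -/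
structure CenL (b : MonoidAlgebra k A) (B : MonoidAlgebra (OW p k) A) : Prop where
  idem : B * B = B
  cen : ∀ x, B * x = x * B
  red : mapRingHom A (rdO p k) B = b

/-- `I` is an idempotent lifting `i` -/
structure IdL (i : MonoidAlgebra k A) (I : MonoidAlgebra (OW p k) A) : Prop where
  idem : I * I = I
  red : mapRingHom A (rdO p k) I = i

/-- the ordinary irreducible characters in the block `B` -/
abbrev IrB [Finite A] (B : MonoidAlgebra (OW p k) A) : Type :=
  {χ : Ir (KW p k) A // chO χ B ≠ 0}

/-- the conclusion of the theorem on nilpotent blocks -/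
structure NilC [Finite A] (D : Subgroup A) (B : MonoidAlgebra (OW p k) A) : Prop where
  card : Nat.card (IrB B) = Nat.card D
  const : ∀ e, e * e = e → e * B = e → ∃ n : ℕ, ∀ χ : IrB B, chO χ.1 e = (n : KW p k)

section
variable [Finite A]

theorem exists_cenL {b : MonoidAlgebra k A} (hb : b * b = b) (hc : ∀ g : A, cj g b = b) :
    ∃ B : MonoidAlgebra (OW p k) A, CenL b B := by
  obtain ⟨B, h1, h2, h3, _⟩ := lift_idem (p := p) hb
  refine ⟨B, h1, ?_, h2⟩
  intro x
  have h4 : ∀ g : A, single g 1 * B = B * single g (1 : OW p k) := fun g =>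
    (cjr_eq_iff g B).1 (h3 g (hc g))
  induction x using MonoidAlgebra.induction_linear with
  | zero => rw [mul_zero, zero_mul]
  | add f g hf hg => rw [mul_add, add_mul, hf, hg]
  | single g c =>
    have h5 : single g c = c • single g (1 : OW p k) := by
      rw [MonoidAlgebra.smul_single, smul_eq_mul, mul_one]
    rw [h5, mul_smul_comm, smul_mul_assoc, h4]

theorem exists_idL {i : MonoidAlgebra k A} (hi : i * i = i) :
    ∃ I : MonoidAlgebra (OW p k) A, IdL i I ∧ ∀ g : A, cj g i = i →
      single g 1 * I = I * single g (1 : OW p k) := by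
  obtain ⟨I, h1, h2, h3, _⟩ := lift_idem (p := p) hi
  exact ⟨I, ⟨h1, h2⟩, fun g hg => (cjr_eq_iff g I).1 (h3 g hg)⟩

variable {b : MonoidAlgebra k A} {B : MonoidAlgebra (OW p k) A}

theorem CenL.mul_eq (hB : CenL b B) {i : MonoidAlgebra k A} {I : MonoidAlgebra (OW p k) A}
    (hI : IdL i I) (h : i * b = i) : I * B = I :=
  idem_le hI.idem hB.idem (hB.cen I).symm (by rw [hI.red, hB.red, h])

theorem CenL.mul_zero' (hB : CenL b B) {i : MonoidAlgebra k A} {I : MonoidAlgebra (OW p k) A}
    (hI : IdL i I) (h : i * b = 0) : I * B = 0 := by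
  refine idem_zero ?_ ?_
  · calc I * B * (I * B) = I * (B * I) * B := by simp only [mul_assoc]
      _ = I * I * (B * B) := by rw [hB.cen]; simp only [mul_assoc]
      _ = I * B := by rw [hI.idem, hB.idem]
  · rw [map_mul, hI.red, hB.red, h]

theorem CenL.cenK (hB : CenL b B) (x : MonoidAlgebra (KW p k) A) :
    mapRingHom A (algebraMap (OW p k) (KW p k)) B * x
      = x * mapRingHom A (algebraMap (OW p k) (KW p k)) B := by
  have h4 : ∀ g : A, single g 1 * mapRingHom A (algebraMap (OW p k) (KW p k)) B
      = mapRingHom A (algebraMap (OW p k) (KW p k)) B * single g 1 := by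
    intro g
    have h5 := congrArg (mapRingHom A (algebraMap (OW p k) (KW p k))) (hB.cen (single g 1))
    rw [map_mul, map_mul, map_single, map_one] at h5
    exact h5.symm
  induction x using MonoidAlgebra.induction_linear with
  | zero => rw [mul_zero, zero_mul]
  | add f g hf hg => rw [mul_add, add_mul, hf, hg]
  | single g c =>
    have h5 : single g c = c • single g (1 : KW p k) := by
      rw [MonoidAlgebra.smul_single, smul_eq_mul, mul_one]
    rw [h5, mul_smul_comm, smul_mul_assoc, h4]

theorem CenL.chO_cen (hB : CenL b B) (χ : Ir (KW p k) A) (y : MonoidAlgebra (OW p k) A) :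
    chO χ (y * B) = om χ (mapRingHom A (algebraMap (OW p k) (KW p k)) B) * chO χ y := by
  rw [chO_mul_comm, chO_apply, map_mul, chi_cen_mul χ hB.cenK, chO_apply]

/-- the central idempotent acts as `1` on the characters in the block -/
theorem CenL.chO_in (hB : CenL b B) {χ : Ir (KW p k) A} (h : chO χ B ≠ 0)
    (x : MonoidAlgebra (OW p k) A) : chO χ (x * B) = chO χ x := by
  have h2 : om χ (mapRingHom A (algebraMap (OW p k) (KW p k)) B) = chO χ B / dg χ := rfl
  have h3 := om_idem χ hB.cenK (by rw [← map_mul, hB.idem])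
  rw [hB.chO_cen]
  rcases h3 with h3 | h3
  · rw [h2, div_eq_zero_iff] at h3
    exact absurd (h3.resolve_right (dg_ne' χ)) h
  · rw [h3, one_mul]

theorem CenL.om_in (hB : CenL b B) {χ : Ir (KW p k) A} (h : chO χ B ≠ 0) :
    om χ (mapRingHom A (algebraMap (OW p k) (KW p k)) B) = 1 := by
  have h2 : om χ (mapRingHom A (algebraMap (OW p k) (KW p k)) B) = chO χ B / dg χ := rfl
  have h3 := om_idem χ hB.cenK (by rw [← map_mul, hB.idem])
  rcases h3 with h3 | h3
  · rw [h2, div_eq_zero_iff] at h3
    exact absurd (h3.resolve_right (dg_ne' χ)) h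
  · exact h3

/-- the central idempotent acts as `0` on the other characters -/
theorem CenL.chO_out (hB : CenL b B) {χ : Ir (KW p k) A} (h : chO χ B = 0)
    {x : MonoidAlgebra (OW p k) A} (hx : x * B = x) : chO χ x = 0 := by
  have h2 : om χ (mapRingHom A (algebraMap (OW p k) (KW p k)) B) = chO χ B / dg χ := rfl
  rw [← hx, hB.chO_cen, h2, h, zero_div, zero_mul]

theorem CenL.chO_zero (hB : CenL b B) {χ : Ir (KW p k) A} (h : chO χ B ≠ 0)
    {x : MonoidAlgebra (OW p k) A} (hx : x * B = 0) : chO χ x = 0 := by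
  rw [← hB.chO_in h, hx, map_zero]

/-- sums over all characters of functions vanishing off the block -/
theorem sum_irB [Fintype (IrB B)] (X : Ir (KW p k) A → KW p k)
    (h : ∀ χ, chO χ B = 0 → X χ = 0) : ∑ χ, X χ = ∑ χ : IrB B, X χ.1 := by
  classical
  rw [← Finset.sum_filter_of_ne (p := fun χ => chO χ B ≠ 0)
    (fun χ _ hχ h0 => hχ (h χ h0))]
  exact Finset.sum_subtype _ (by simp) X

/-- idempotents have natural values -/
theorem chO_nat {e : MonoidAlgebra (OW p k) A} (he : e * e = e) (χ : Ir (KW p k) A) :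
    ∃ n : ℕ, chO χ e = (n : KW p k) := by
  rw [chO_apply]
  exact chi_idem χ (by rw [← map_mul, he])

end

end Pool.Agent.Lib.P0c8ca5.Ex
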