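import Mathlib
import Pool.Agent.Lib.P0c8ca5Ex.OA

/-!
# OB: traces of idempotent matrices, units

`trace_rank`: for an idempotent matrix `E` over a ring `R` with a surjection `ρ` onto a field such
that all `x` with `ρ x ≠ 0` are units, the trace of `E` is the rank of `ρ E` (an equality in `R`).
`unit_lift`: if `z` is central in `O[A]`, `B` a central idempotent and the reduction of `z` is
invertible in the center of the reduction of `O[A] B`, then `z` is invertible in `Z(O[A]) B`.
-/

set_option linter.unusedSectionVars false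

namespace Pool.Agent.Lib.P0c8ca5.Ex

open MonoidAlgebra

section tr
variable {R k X : Type*} [CommRing R] [Field k] [Fintype X] [DecidableEq X]

/-- a basis adapted to an idempotent endomorphism -/
theorem exists_adapted (f : (X → k) →ₗ[k] (X → k)) (hf : f * f = f) :
    ∃ (r s : ℕ) (b : Module.Basis (Fin r ⊕ Fin s) k (X → k)),
      r = Module.finrank k (LinearMap.range f) ∧
      (∀ i, f (b (Sum.inl i)) = b (Sum.inl i)) ∧ ∀ j, f (b (Sum.inr j)) = 0 := by
  have hc : IsCompl (LinearMap.range f) (LinearMap.ker f) :=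
    (LinearMap.IsIdempotentElem.isCompl (f := f) hf)
  let e := Submodule.prodEquivOfIsCompl _ _ hc
  let b1 := Module.finBasis k (LinearMap.range f)
  let b2 := Module.finBasis k (LinearMap.ker f)
  refine ⟨_, _, (b1.prod b2).map e, rfl, fun i => ?_, fun j => ?_⟩
  · rw [Module.Basis.map_apply, Module.Basis.prod_apply, Sum.elim_inl, Function.comp_apply]
    have h1 : e ((LinearMap.inl k _ _) (b1 i)) = ((b1 i : LinearMap.range f) : X → k) := by
      simp [e]
    rw [h1]
    obtain ⟨y, hy⟩ := (b1 i).2
    rw [← hy]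
    exact LinearMap.congr_fun hf y
  · rw [Module.Basis.map_apply, Module.Basis.prod_apply, Sum.elim_inr, Function.comp_apply]
    have h1 : e ((LinearMap.inr k _ _) (b2 j)) = ((b2 j : LinearMap.ker f) : X → k) := by
      simp [e]
    rw [h1]
    exact (b2 j).2

/-- the trace of an idempotent matrix is the rank of its reduction -/
theorem trace_rank (ρ : R →+* k) (hs : Function.Surjective ρ) (hu : ∀ x, ρ x ≠ 0 → IsUnit x)
    (E : Matrix X X R) (hE : E * E = E) :
    E.trace = (((E.map ρ).rank : ℕ) : R) := by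
  classical
  have hE' : E.map ρ * E.map ρ = E.map ρ := by
    rw [← Matrix.map_mul, hE]
  obtain ⟨r, s, b, hr, h1, h2⟩ := exists_adapted (Matrix.toLin' (E.map ρ)) (by
    change (Matrix.toLin' (E.map ρ)).comp (Matrix.toLin' (E.map ρ)) = _
    rw [← Matrix.toLin'_mul, hE'])
  have hcard : Fintype.card (Fin r ⊕ Fin s) = Fintype.card X := by
    rw [← Module.finrank_eq_card_basis b, Module.finrank_fintype_fun_eq_card]
  let σ : (Fin r ⊕ Fin s) ≃ X := Fintype.equivOfCardEq hcard
  let b' : Module.Basis X k (X → k) := b.reindex σ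
  -- the adapted basis as a square matrix, and the diagonal idempotent
  let Q : Matrix X X k := (Pi.basisFun k X).toMatrix b'
  have hQ : ∀ x y, Q x y = b (σ.symm y) x := fun x y => by
    change ((Pi.basisFun k X).repr (b' y)) x = _
    rw [Pi.basisFun_repr, Module.Basis.reindex_apply]
  choose t ht using hs
  let Q' : Matrix X X R := fun x y => t (Q x y)
  have hQ' : Q'.map ρ = Q := by
    ext x y
    exact ht _
  let d : X → R := fun y => Sum.elim (fun _ => 1) (fun _ => 0) (σ.symm y)
  have hdd : ∀ y, d y * d y = d y := by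
    intro y
    simp only [d]
    rcases σ.symm y with i | j <;> simp
  let D : Matrix X X R := Matrix.diagonal d
  have hD : D * D = D := by
    rw [Matrix.diagonal_mul_diagonal]
    congr 1
    ext y
    exact hdd y
  have hD' : D.map ρ * D.map ρ = D.map ρ := by
    rw [← Matrix.map_mul, hD]
  have hEQ : E.map ρ * Q = Q * D.map ρ := by
    ext x y
    have e1 : (E.map ρ * Q) x y = (Matrix.toLin' (E.map ρ)) (b (σ.symm y)) x := by
      rw [Matrix.mul_apply, Matrix.toLin'_apply, Matrix.mulVec, dotProduct]
      exact Finset.sum_congr rfl fun z _ => by rw [hQ]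
    have e2 : D.map ρ = Matrix.diagonal (fun y => ρ (d y)) := by
      rw [Matrix.diagonal_map (map_zero ρ)]
    rw [e1, e2, Matrix.mul_diagonal, hQ]
    have e3 : σ.symm y = σ.symm y := rfl
    simp only [d]
    rcases σ.symm y with i | j
    · rw [h1, Sum.elim_inl, map_one, mul_one]
    · rw [h2, Sum.elim_inr, map_zero, mul_zero]
      rfl
  let U : Matrix X X R := E * Q' * D + (1 - E) * Q' * (1 - D)
  have hU : U.map ρ = Q := by
    have e1 : (1 : Matrix X X R).map ρ = 1 := Matrix.map_one ρ (map_zero ρ) (map_one ρ)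
    have e2 : U.map ρ = E.map ρ * Q * D.map ρ + (1 - E.map ρ) * Q * (1 - D.map ρ) := by
      simp only [U]
      rw [Matrix.map_add ρ (map_add ρ), Matrix.map_mul, Matrix.map_mul, Matrix.map_mul,
        Matrix.map_mul, Matrix.map_sub ρ (map_sub ρ), Matrix.map_sub ρ (map_sub ρ), e1, hQ']
    have a1 : E.map ρ * Q * D.map ρ = Q * D.map ρ := by rw [hEQ, mul_assoc, hD']
    have a2 : (1 - E.map ρ) * Q = Q * (1 - D.map ρ) := by
      rw [sub_mul, one_mul, hEQ, mul_sub, mul_one]
    have a3 : (1 - D.map ρ) * (1 - D.map ρ) = 1 - D.map ρ := by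
      rw [sub_mul, one_mul, mul_sub, mul_one, hD', sub_self, sub_zero]
    rw [e2, a1, a2, mul_assoc, a3, ← mul_add, add_sub_cancel, mul_one]
  have hdet : IsUnit U.det := by
    apply hu
    have e1 : ρ U.det = (U.map ρ).det := RingHom.map_det ρ U
    rw [e1, hU]
    have e2 : Q * b'.toMatrix (Pi.basisFun k X) = 1 := Module.Basis.toMatrix_mul_toMatrix_flip _ _
    intro h0
    have e3 := congrArg Matrix.det e2
    rw [Matrix.det_mul, h0, zero_mul, Matrix.det_one] at e3
    exact zero_ne_one e3
  have hUV : U * U⁻¹ = 1 := Matrix.mul_nonsing_inv U hdet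
  have hVU : U⁻¹ * U = 1 := Matrix.nonsing_inv_mul U hdet
  have hcomm : E * U = U * D := by
    simp only [U]
    rw [mul_add, add_mul]
    have e1 : E * (E * Q' * D) = E * Q' * D := by
      rw [← mul_assoc, ← mul_assoc, hE]
    have hE1 : E * (1 - E) = 0 := by rw [mul_sub, mul_one, hE, sub_self]
    have hD1 : (1 - D) * D = 0 := by rw [sub_mul, one_mul, hD, sub_self]
    have e2 : E * ((1 - E) * Q' * (1 - D)) = 0 := by
      rw [← mul_assoc, ← mul_assoc, hE1, zero_mul, zero_mul]
    have e3 : E * Q' * D * D = E * Q' * D := by rw [mul_assoc, hD]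
    have e4 : (1 - E) * Q' * (1 - D) * D = 0 := by
      rw [mul_assoc, hD1, mul_zero]
    rw [e1, e2, e3, e4]
  have htr : E.trace = D.trace := by
    calc E.trace = (E * (U * U⁻¹)).trace := by rw [hUV, mul_one]
      _ = (U * D * U⁻¹).trace := by rw [← mul_assoc, hcomm]
      _ = (U⁻¹ * (U * D)).trace := Matrix.trace_mul_comm _ _
      _ = D.trace := by rw [← mul_assoc, hVU, one_mul]
  have hrk : (E.map ρ).rank = r := by
    rw [hr]
    rfl
  rw [htr, hrk, Matrix.trace]
  simp only [D, Matrix.diag_diagonal, d]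
  rw [Equiv.sum_comp σ.symm (fun z : Fin r ⊕ Fin s =>
    Sum.elim (fun _ => (1 : R)) (fun _ => 0) z), Fintype.sum_sum_type]
  simp

end tr

section unit
variable {R : Type*} [CommRing R] {A : Type*} [Group A]

/-- an element fixed by all conjugations is central -/
theorem comm_all {z : MonoidAlgebra R A} (hz : ∀ g : A, cjr g z = z) (a : MonoidAlgebra R A) :
    a * z = z * a := by
  induction a using MonoidAlgebra.induction_linear with
  | zero => rw [zero_mul, mul_zero]
  | add f g hf hg => rw [add_mul, mul_add, hf, hg]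
  | single x c =>
    have h1 := (cjr_eq_iff x z).1 (hz x)
    have h2 : single x c = c • single x (1 : R) := by
      rw [smul_single, smul_eq_mul, mul_one]
    rw [h2, smul_mul_assoc, h1, mul_smul_comm]

end unit

section unit2
variable {p : ℕ} [Fact p.Prime] {k : Type*} [Field k] [IsAlgClosed k] [CharP k p]
variable {A : Type*} [Group A] [Finite A]

/-- a central element of `O[A]` with reduction zero: `1 - x` has a central inverse -/
theorem exists_geom {x : MonoidAlgebra (OW p k) A} (hx : ∀ g : A, cjr g x = x)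
    (h : mapRingHom A (rdO p k) x = 0) :
    ∃ L : MonoidAlgebra (OW p k) A, (∀ g : A, cjr g L = L) ∧ (1 - x) * L = 1 := by
  have h1 : ∀ n : ℕ, Dv p n (x ^ n) := by
    intro n
    induction n with
    | zero => exact dv_zero _
    | succ n ih => rw [pow_succ]; exact ih.mul (dv_rd.2 h)
  let s : ℕ → MonoidAlgebra (OW p k) A := fun n => ∑ j ∈ Finset.range (n + 1), x ^ j
  have hs : ∀ n, s (n + 1) = s n + x ^ (n + 1) := fun n => Finset.sum_range_succ _ _
  have hsx : ∀ n, (1 - x) * s n = 1 - x ^ (n + 1) := fun n => mul_neg_geom_sum x (n + 1)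
  obtain ⟨L, hL⟩ := exists_lim (x := s) (fun n => by
    rw [hs, add_sub_cancel_left]
    exact h1 (n + 1))
  refine ⟨L, fun g => ?_, ?_⟩
  · have hsg : ∀ n, cjr g (s n) = s n := by
      intro n
      have h0 : Commute (single g (1 : OW p k)) x := (cjr_eq_iff g x).1 (hx g)
      rw [cjr_eq_iff]
      exact Finset.sum_induction _ (fun y => single g 1 * y = y * single g (1 : OW p k))
        (fun a b ha hb => by rw [mul_add, add_mul, ha, hb]) (by rw [mul_zero, zero_mul])
        (fun j _ => h0.pow_right j)
    rw [← sub_eq_zero]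
    refine dv_sep fun N => ?_
    have h3 : cjr g L - L = cjr g (L - s N) - (L - s N) := by
      have h4 : cjr g (L - s N) = cjr g L - cjr g (s N) := by
        rw [cjr, cjr, cjr, mul_sub, sub_mul]
      rw [h4, hsg]
      abel
    rw [h3]
    exact (((hL N).cjr g).sub (hL N)).mono (Nat.le_succ N)
  · rw [← sub_eq_zero]
    refine dv_sep fun N => ?_
    have h3 : (1 - x) * L - 1 = (1 - x) * (L - s N) - x ^ (N + 1) := by
      rw [mul_sub, hsx]
      abel
    rw [h3]
    exact (((hL N).mul_left (1 - x)).sub (h1 (N + 1))).mono (Nat.le_succ N)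

/-- a lift of an element of `k[A]`, constant where the element is constant -/
theorem exists_lift (w : MonoidAlgebra k A) : ∃ W : MonoidAlgebra (OW p k) A,
    mapRingHom A (rdO p k) W = w ∧ (∀ g : A, cjr g w = w → cjr g W = W) ∧
      ∀ g, w.coeff g = 0 → W.coeff g = 0 := by
  classical
  have := Fintype.ofFinite A
  choose s hs using rdO_surj p k
  let t : k → OW p k := fun c => if c = 0 then 0 else s c
  have ht : ∀ c, rdO p k (t c) = c := by
    intro c
    by_cases hc : c = 0
    · simp only [t, hc, if_true, map_zero]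
    · simp only [t, hc, if_false, hs]
  have ht0 : t 0 = 0 := by simp only [t, if_true]
  let x : MonoidAlgebra (OW p k) A :=
    MonoidAlgebra.ofCoeff (Finsupp.equivFunOnFinite.symm fun g => t (w.coeff g))
  have hx : ∀ g, x.coeff g = t (w.coeff g) := fun g => rfl
  refine ⟨x, ?_, fun g hg => ?_, fun g hg => ?_⟩
  · ext g
    rw [coeff_map, hx, ht]
  · ext y
    rw [coeff_cjr, hx, hx, ← coeff_cjr, hg]
  · rw [hx, hg, ht0]

/-- inversion of a central element in a central corner -/
theorem unit_lift {z B : MonoidAlgebra (OW p k) A} (hz : ∀ g : A, cjr g z = z)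
    (hB : B * B = B) (hBc : ∀ g : A, cjr g B = B) {w : MonoidAlgebra k A}
    (hw : ∀ g : A, cjr g w = w)
    (h : mapRingHom A (rdO p k) z * w * mapRingHom A (rdO p k) B = mapRingHom A (rdO p k) B) :
    ∃ W : MonoidAlgebra (OW p k) A, (∀ g : A, cjr g W = W) ∧ z * W * B = B := by
  obtain ⟨W, hW1, hW2, -⟩ := exists_lift (p := p) w
  have hW : ∀ g : A, cjr g W = W := fun g => hW2 g (hw g)
  have hx : ∀ g : A, cjr g (B - z * W * B) = B - z * W * B := by
    intro g
    rw [sub_eq_add_neg, cjr_add, hBc]
    have h1 : cjr g (-(z * W * B)) = -(z * W * B) := by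
      rw [cjr, mul_neg, neg_mul]
      change -cjr g (z * W * B) = _
      rw [cjr_mul, cjr_mul, hz, hW, hBc]
    rw [h1]
  obtain ⟨L, hL1, hL2⟩ := exists_geom hx (by
    rw [map_sub, map_mul, map_mul, hW1, h, sub_self])
  refine ⟨W * L, fun g => by rw [cjr_mul, hW, hL1], ?_⟩
  have h1 : z * (W * L) * B = z * W * B * L := by
    rw [← mul_assoc, mul_assoc (z * W) L B, mul_assoc (z * W) B L, comm_all hL1 B]
  have h2 : z * W * B = B * (1 - (B - z * W * B)) := by
    rw [mul_sub, mul_one, mul_sub, hB, comm_all hBc (z * W), ← mul_assoc B B, hB]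
    abel
  rw [h1, h2, mul_assoc, hL2, mul_one]

/-- the trace of an idempotent matrix over `O` is the rank of its reduction -/
theorem trace_rankO {X : Type*} [Fintype X] [DecidableEq X] (E : Matrix X X (OW p k))
    (hE : E * E = E) : E.trace = (((E.map (rdO p k)).rank : ℕ) : OW p k) :=
  trace_rank (rdO p k) (rdO_surj p k) (fun _ h => unitO h) E hE

end unit2

end Pool.Agent.Lib.P0c8ca5.Ex
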