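import Mathlib
import Pool.Agent.Lib.P0c8ca5Ex.FA
import Pool.Agent.Lib.P0c8ca5Ex.FB
import Pool.Agent.Lib.P0c8ca5Ex.ND
import Pool.Agent.Lib.P0c8ca5Ex.OB

/-!
# FC: characters and the number of irreducible representations

`class_sum`, `chO_class`: an element of `O[G]` on which all characters vanish has zero class sums,
also after reduction. `gram_ne`: the Gram matrix (Cartan matrix) of the characters of the lifted
idempotents is nonsingular. `four`: for p-elements `u r` with blocks `c r` of `C(u r)` belonging to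
the block `b`, no two of them conjugate, the numbers of irreducible representations of the `c r`
have a sum of at most the number of ordinary characters in `b`.
-/

set_option linter.unusedSectionVars false

namespace Pool.Agent.Lib.P0c8ca5.Ex

open MonoidAlgebra

section cls
variable {O : Type*} [CommRing O] [IsDomain O] [CharZero O] {G : Type*} [Group G] [Fintype G]

open Classical in
theorem class_sum {F : G → O} (g : G) (h : ∑ x, F (x * g * x⁻¹) = 0) :
    ∑ y with ConjClasses.mk y = ConjClasses.mk g, F y = 0 := by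
  let N : ℕ := (Finset.univ.filter fun c : G => c * g * c⁻¹ = g).card
  have hN : (N : O) ≠ 0 := by
    rw [Nat.cast_ne_zero]
    refine Finset.card_ne_zero_of_mem (a := (1 : G)) ?_
    rw [Finset.mem_filter]
    exact ⟨Finset.mem_univ _, by group⟩
  have hfib : ∀ y ∈ Finset.univ.filter (fun y : G => ConjClasses.mk y = ConjClasses.mk g),
      ∑ x with x * g * x⁻¹ = y, F (x * g * x⁻¹) = N * F y := by
    intro y hy
    rw [Finset.mem_filter, ConjClasses.mk_eq_mk_iff_isConj] at hy
    obtain ⟨c, hc⟩ := isConj_iff.1 hy.2.symm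
    have h1 : ∑ x with x * g * x⁻¹ = y, F (x * g * x⁻¹) = ∑ x with x * g * x⁻¹ = y, F y :=
      Finset.sum_congr rfl fun x hx => by rw [(Finset.mem_filter.1 hx).2]
    rw [h1, Finset.sum_const, nsmul_eq_mul]
    congr 2
    symm
    refine Finset.card_bij (fun x _ => c * x) ?_ ?_ ?_
    · intro x hx
      rw [Finset.mem_filter] at hx ⊢
      refine ⟨Finset.mem_univ _, ?_⟩
      calc c * x * g * (c * x)⁻¹ = c * (x * g * x⁻¹) * c⁻¹ := by group
        _ = y := by rw [hx.2, hc]
    · intro x _ x' _ h
      exact mul_left_cancel h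
    · intro x hx
      rw [Finset.mem_filter] at hx
      refine ⟨c⁻¹ * x, ?_, by group⟩
      rw [Finset.mem_filter]
      refine ⟨Finset.mem_univ _, ?_⟩
      calc c⁻¹ * x * g * (c⁻¹ * x)⁻¹ = c⁻¹ * (x * g * x⁻¹) * c := by group
        _ = g := by rw [hx.2, ← hc]; group
  have h2 := Finset.sum_fiberwise_of_maps_to (s := Finset.univ)
    (t := Finset.univ.filter (fun y : G => ConjClasses.mk y = ConjClasses.mk g))
    (g := fun x : G => x * g * x⁻¹) (fun x _ => by
      rw [Finset.mem_filter, ConjClasses.mk_eq_mk_iff_isConj]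
      exact ⟨Finset.mem_univ _, (isConj_iff.2 ⟨x, rfl⟩).symm⟩) (fun x => F (x * g * x⁻¹))
  rw [h, Finset.sum_congr rfl hfib, ← Finset.mul_sum] at h2
  exact (mul_eq_zero.1 h2).resolve_left hN

end cls

section
variable {p : ℕ} [Fact p.Prime] {k : Type*} [Field k] [IsAlgClosed k] [CharP k p]
  {G : Type*} [Group G] [Fintype G]

/-- elements with zero characters have zero class sums -/
theorem chO_class {a : MonoidAlgebra (OW p k) G} (h : ∀ χ : Ir (KW p k) G, chO χ a = 0)
    (φ : G → k) (hφ : ∀ g x, φ (g * x * g⁻¹) = φ x) :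
    ∑ x, (mapRingHom G (rdO p k) a).coeff x * φ x = 0 := by
  classical
  have h1 : ∀ g : G, ∑ x, a.coeff (x * g * x⁻¹) = 0 := by
    intro g
    apply algO_inj (p := p) (k := k)
    have h2 := bimO (K := KW p k) a (single g⁻¹ 1)
    rw [Finset.sum_eq_zero (fun i _ => by rw [h i, zero_mul])] at h2
    rw [map_zero]
    refine Eq.trans ?_ h2.symm
    congr 1
    refine Finset.sum_congr rfl fun x _ => ?_
    rw [coeff_mul_single_apply, coeff_mul_single_apply, mul_one, mul_one, inv_inv]
  rw [← Finset.sum_fiberwise Finset.univ (fun x : G => ConjClasses.mk x)]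
  refine Finset.sum_eq_zero fun c _ => ?_
  obtain ⟨g, rfl⟩ := ConjClasses.mk_surjective c
  have h2 : ∑ x with ConjClasses.mk x = ConjClasses.mk g,
      (mapRingHom G (rdO p k) a).coeff x * φ x
      = ∑ x with ConjClasses.mk x = ConjClasses.mk g,
      (mapRingHom G (rdO p k) a).coeff x * φ g := by
    refine Finset.sum_congr rfl fun x hx => ?_
    rw [Finset.mem_filter, ConjClasses.mk_eq_mk_iff_isConj] at hx
    obtain ⟨c, hc⟩ := isConj_iff.1 hx.2.symm
    rw [← hc, hφ]
  rw [h2, ← Finset.sum_mul]
  have h3 := congrArg (rdO p k) (class_sum (F := fun x => a.coeff x) g (h1 g))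
  rw [map_sum, map_zero] at h3
  have h4 : ∑ x with ConjClasses.mk x = ConjClasses.mk g, (mapRingHom G (rdO p k) a).coeff x
      = 0 := h3
  rw [h4, zero_mul]

/-- the Gram matrix of the lifted idempotents is nonsingular -/
theorem gram_ne {ι : Type*} [Fintype ι] [DecidableEq ι] (f : ι → MonoidAlgebra k G)
    (φ : ι → G → k) (hφ : ∀ i g x, φ i (g * x * g⁻¹) = φ i x)
    (h1 : ∀ j, ∑ x, (f j).coeff x * φ j x = 1)
    (h2 : ∀ i j, i ≠ j → ∑ x, (f j).coeff x * φ i x = 0)
    (F : ι → MonoidAlgebra (OW p k) G) (hF : ∀ j, F j * F j = F j)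
    (hr : ∀ j, mapRingHom G (rdO p k) (F j) = f j) :
    (Matrix.of fun j j' => ∑ χ : Ir (KW p k) G, chO χ (F j) * chO χ (F j')).det ≠ 0 := by
  have h3 : ∀ j (χ : Ir (KW p k) G), ∃ n : ℕ, chO χ (F j) = (n : KW p k) := fun j χ =>
    chO_nat (hF j) χ
  choose a ha using h3
  have h4 := gram_det (Fact.out : p.Prime).one_lt (KW p k)
    (fun (j : ι) (χ : Ir (KW p k) G) => (a j χ : ℤ)) (by
      intro n hn i
      have h5 : ∀ χ : Ir (KW p k) G, chO χ (∑ j, ((n j : ℤ) : OW p k) • F j) = 0 := by
        intro χ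
        have h6 := congrArg (Int.cast : ℤ → KW p k) (hn χ)
        rw [Int.cast_sum, Int.cast_zero] at h6
        rw [map_sum, ← h6]
        refine Finset.sum_congr rfl fun j _ => ?_
        rw [chO_smul, ha, map_intCast, Int.cast_mul, Int.cast_natCast]
      have h6 := chO_class h5 (φ i) (hφ i)
      have h7 : ∀ x, (mapRingHom G (rdO p k) (∑ j, ((n j : ℤ) : OW p k) • F j)).coeff x
          = ∑ j, ((n j : ℤ) : k) * (f j).coeff x := by
        intro x
        rw [coeff_map, coeff_sum, Finsupp.finsetSum_apply, map_sum]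
        refine Finset.sum_congr rfl fun j _ => ?_
        rw [coeff_smul, Finsupp.smul_apply, smul_eq_mul, map_mul, map_intCast, ← hr, coeff_map]
      simp only [h7, Finset.sum_mul] at h6
      rw [Finset.sum_comm, Finset.sum_eq_single i] at h6
      · simp only [mul_assoc] at h6
        rw [← Finset.mul_sum, h1, mul_one] at h6
        exact (CharP.intCast_eq_zero_iff k p _).1 h6
      · intro j _ hji
        simp only [mul_assoc]
        rw [← Finset.mul_sum, h2 i j (Ne.symm hji), mul_zero]
      · intro h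
        exact absurd (Finset.mem_univ i) h)
  intro h0
  apply h4
  rw [← h0]
  congr 1
  ext j j'
  rw [Matrix.of_apply, Matrix.of_apply]
  exact Finset.sum_congr rfl fun χ _ => by rw [ha, ha, Int.cast_natCast, Int.cast_natCast]

end

end Pool.Agent.Lib.P0c8ca5.Ex
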