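import Mathlib
import Pool.Agent.Lib.P0c8ca5Ex.FC
import Pool.Agent.Lib.P0c8ca5Ex.TF

/-!
# FD: `k(B) ≥ ∑ l(b_u)`

`four`: let `u r` be p-elements and `c r` blocks of `C(u r)` belonging to the block `b`, such that
for `r ≠ r'` no element of the group carries `(u r', c r')` to `(u r, c r)`. Then the sum of the
numbers of irreducible representations in `c r` is at most the number of ordinary irreducible
characters in `b`.
-/

set_option linter.unusedSectionVars false

namespace Pool.Agent.Lib.P0c8ca5.Ex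

open MonoidAlgebra

section
variable {A : Type*} [Group A]

theorem mem_C1' {u x : A} : x ∈ C1 u ↔ u * x = x * u := by
  rw [Subgroup.mem_centralizer_singleton_iff]
  exact eq_comm

theorem single_upr {R : Type*} [CommRing R] (u : A) (a : MonoidAlgebra R ↥(C1 u)) :
    single u 1 * upr (C1 u) a = upr (C1 u) a * single u (1 : R) := by
  induction a using MonoidAlgebra.induction_linear with
  | zero => rw [map_zero, mul_zero, zero_mul]
  | add f g hf hg => rw [map_add, mul_add, add_mul, hf, hg]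
  | single x c =>
    rw [upr_single, single_mul_single, single_mul_single, mem_C1'.1 x.2, one_mul, mul_one]

theorem gap_self {R : Type*} [CommRing R] (H : Subgroup A) (a : MonoidAlgebra R ↥H) (q : R)
    (c : ↥H) : q ∣ (upr H a).coeff (c : A) - a.coeff c := by
  rw [coeff_upr, sub_self]
  exact dvd_zero _

variable {k : Type*} [Field k] [Finite A]

theorem dnr_blk {H : Subgroup A} {b c : MonoidAlgebra k A} (hc : IsBlock H c)
    (hbc : resS (H : Set A) b * c = c) : dnr H b * dnr H c = dnr H c := by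
  have h1 : dnr H (resS (H : Set A) b) = dnr H b := by
    ext x
    rw [coeff_dnr, coeff_dnr, coeff_resS_of_mem _ x.2]
  rw [← h1, ← dnr_mul_upr, upr_blk hc, hbc]

end

section
variable {p : ℕ} [Fact p.Prime] {k : Type*} [Field k] [IsAlgClosed k] [CharP k p]
  {A : Type*} [Group A] [Finite A] {b : MonoidAlgebra k A} {B : MonoidAlgebra (OW p k) A}

/-- the columns of a local block of `b` vanish off `b` -/
theorem col_zero (hB : CenL b B) {u : A} {M : ℕ} (hu : u ^ p ^ M = 1)
    {c : MonoidAlgebra k A} (hc : IsBlock (C1 u) c) (hbc : resS (C1 u : Set A) b * c = c)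
    {f : MonoidAlgebra k ↥(C1 u)} (hf : f * dnr (C1 u) c = f)
    {F : MonoidAlgebra (OW p k) ↥(C1 u)} (hF : IdL f F)
    (χ : Ir (KW p k) A) (h : chO χ B = 0) : chO χ (single u 1 * upr (C1 u) F) = 0 := by
  have hfb : f * dnr (C1 u) b = f := by
    calc f * dnr (C1 u) b = f * dnr (C1 u) c * dnr (C1 u) b := by rw [hf]
      _ = f * (dnr (C1 u) b * dnr (C1 u) c) := by rw [mul_assoc, ← blk_comm hc]
      _ = f := by rw [dnr_blk hc hbc, hf]
  have i2 : upr (C1 u) F * B * (upr (C1 u) F * B) = upr (C1 u) F * B := by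
    calc upr (C1 u) F * B * (upr (C1 u) F * B)
        = upr (C1 u) F * (B * upr (C1 u) F) * B := by simp only [mul_assoc]
      _ = upr (C1 u) F * upr (C1 u) F * (B * B) := by rw [hB.cen]; simp only [mul_assoc]
      _ = upr (C1 u) F * B := by rw [← map_mul, hF.idem, hB.idem]
  have c2 : single u 1 * (upr (C1 u) F * B) = upr (C1 u) F * B * single u (1 : OW p k) := by
    rw [← mul_assoc, single_upr, mul_assoc, ← hB.cen, ← mul_assoc]
  have g2 : ∀ c : ↥(C1 u), (p : OW p k) ∣ (upr (C1 u) F * B).coeff (c : A) - F.coeff c := by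
    intro x
    rw [← coeff_dnr, dnr_upr_mul, ← rdO_eq_zero, map_sub, ← coeff_map, ← coeff_map, map_mul,
      map_dnr, hF.red, hB.red, hfb, sub_self]
  have h1 := lift_indep (p := p) (K := KW p k) hu sepO (by rw [← map_mul, hF.idem]) i2 hF.idem
    (single_upr u F) c2 (gap_self (C1 u) F _) g2 χ
  rw [h1]
  exact hB.chO_out h (by rw [mul_assoc, mul_assoc, hB.idem])

/-- columns of different local blocks are orthogonal -/
theorem off_zero {u v : A} {M : ℕ} (hu : u ^ p ^ M = 1) (hv : v ^ p ^ M = 1)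
    {c d : MonoidAlgebra k A} (hc : IsBlock (C1 u) c) (hd : IsBlock (C1 v) d)
    {f : MonoidAlgebra k ↥(C1 u)} (hf : f * dnr (C1 u) c = f)
    {F : MonoidAlgebra (OW p k) ↥(C1 u)} (hF : IdL f F)
    {g' : MonoidAlgebra k ↥(C1 v)} (hg' : g' * dnr (C1 v) d = g')
    {G : MonoidAlgebra (OW p k) ↥(C1 v)} (hG : IdL g' G)
    (hne : ∀ g, u * g = g * v → cj g d ≠ c) :
    ∑ χ : Ir (KW p k) A, chO χ (single u 1 * upr (C1 u) F) *
      chO χ (upr (C1 v) G * single v⁻¹ 1) = 0 := by
  have := Fintype.ofFinite A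
  have iF : upr (C1 u) F * upr (C1 u) F = upr (C1 u) F := by rw [← map_mul, hF.idem]
  have iG : upr (C1 v) G * upr (C1 v) G = upr (C1 v) G := by rw [← map_mul, hG.idem]
  by_cases h : ∃ g, u * g = g * v
  · obtain ⟨g, hg⟩ := h
    rw [tp_chi (p := p) hu hv sepO iF iG hF.idem hG.idem (single_upr u F) (single_upr v G)
      (gap_self (C1 u) F _) (gap_self (C1 v) G _) hg]
    have hcg : cg g (C1 v) = C1 u := by
      ext x
      have hu : u = g * v * g⁻¹ := by rw [← hg]; group
      rw [mem_cg, mem_C1', mem_C1']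
      constructor
      · intro h1
        calc u * x = g * (v * (g⁻¹ * x * g)) * g⁻¹ := by rw [hu]; group
          _ = x * u := by rw [h1, hu]; group
      · intro h1
        have h2 : v = g⁻¹ * u * g := by rw [hu]; group
        calc v * (g⁻¹ * x * g) = g⁻¹ * (u * x) * g := by rw [h2]; group
          _ = g⁻¹ * x * g * v := by rw [h1, h2]; group
    have hblk : IsBlock (C1 u) (cj g d) := by
      have := isBlock_cg hd g
      rwa [hcg] at this
    have horth : cj g d * c = 0 := (hblk.eq_or_mul_eq_zero hc).resolve_left (hne g hg)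
    obtain ⟨C, hC⟩ := exists_cenL (p := p) (blk_idem hc)
      (fun x => (cjr_eq_iff x _).2 (blk_comm hc (single x 1)))
    have h1 : F * C = F := hC.mul_eq hF hf
    have h2 : dnr (C1 u) (cjr g (upr (C1 v) G)) * C = 0 := by
      refine hC.mul_zero' ⟨cjr_idem hg hG.idem, rfl⟩ ?_
      rw [map_dnr, map_cjr, map_upr, hG.red]
      have e1 : upr (C1 v) g' * d = upr (C1 v) g' := by
        have e2 : upr (C1 v) g' * upr (C1 v) (dnr (C1 v) d) = upr (C1 v) g' := by
          rw [← map_mul, hg']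
        rwa [upr_blk hd] at e2
      have e3 : cjr g (upr (C1 v) g') * cj g d = cjr g (upr (C1 v) g') := by
        rw [← cjr_eq_cj, ← cjr_mul, e1]
      rw [← dnr_mul_upr, upr_blk hc, ← e3, mul_assoc, horth, mul_zero, dnr_zero]
    refine Finset.sum_eq_zero fun ψ _ => ?_
    by_cases hψ : chO ψ C = 0
    · rw [hC.chO_out hψ h1, zero_mul]
    · rw [hC.chO_zero hψ h2, mul_zero]
  · push Not at h
    exact tp_chi_zero (p := p) hu hv sepO iF iG hF.idem hG.idem (single_upr u F)
      (single_upr v G) (gap_self (C1 u) F _) (gap_self (C1 v) G _) h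

/-- the inequality `k(B) ≥ ∑ l(b_u)` -/
theorem four (hB : CenL b B) {R : Type*} [Fintype R] (u : R → A) (c : R → MonoidAlgebra k A)
    (hu : ∀ r, ∃ M : ℕ, u r ^ p ^ M = 1) (hc : ∀ r, IsBlock (C1 (u r)) (c r))
    (hbc : ∀ r, resS (C1 (u r) : Set A) b * c r = c r)
    (hne : ∀ r r', r ≠ r' → ∀ g, u r * g = g * u r' → cj g (c r') ≠ c r) :
    ∑ r, Nat.card (Quotient (irrInvSetoid (C1 (u r)) (C1 (u r)) (c r)))
      ≤ Nat.card (IrB B) := by
  classical
  have := Fintype.ofFinite A
  have hfin : ∀ r, Finite (Quotient (irrInvSetoid (C1 (u r)) (C1 (u r)) (c r))) :=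
    fun r => finite_classes _ _ _
  let _ : ∀ r, Fintype (Quotient (irrInvSetoid (C1 (u r)) (C1 (u r)) (c r))) :=
    fun r => Fintype.ofFinite _
  have hex := fun r => exists_idems (hc r)
  choose f φ hf1 hf2 hφ h1 h2 using hex
  have hl : ∀ r j, ∃ F : MonoidAlgebra (OW p k) ↥(C1 (u r)), IdL (f r j) F := by
    intro r j
    obtain ⟨F, h, -⟩ := exists_idL (p := p) (hf1 r j)
    exact ⟨F, h⟩
  choose F hF using hl
  have hM : ∃ M : ℕ, ∀ r, u r ^ p ^ M = 1 := by
    choose m hm using hu
    refine ⟨∑ r, m r, fun r => ?_⟩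
    rw [← Finset.add_sum_erase _ m (Finset.mem_univ r), pow_add, pow_mul, hm, one_pow]
  obtain ⟨M, hM⟩ := hM
  have hsum : ∀ r j r' j',
      ∑ χ : IrB B, chO χ.1 (single (u r) 1 * upr (C1 (u r)) (F r j)) *
        chO χ.1 (upr (C1 (u r')) (F r' j') * single (u r')⁻¹ 1)
      = ∑ χ : Ir (KW p k) A, chO χ (single (u r) 1 * upr (C1 (u r)) (F r j)) *
        chO χ (upr (C1 (u r')) (F r' j') * single (u r')⁻¹ 1) := by
    intro r j r' j'
    symm
    refine sum_irB (fun χ => chO χ (single (u r) 1 * upr (C1 (u r)) (F r j)) *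
        chO χ (upr (C1 (u r')) (F r' j') * single (u r')⁻¹ 1)) fun χ hχ => ?_
    change chO χ (single (u r) 1 * upr (C1 (u r)) (F r j)) * _ = 0
    rw [col_zero hB (hM r) (hc r) (hbc r) (hf2 r j) (hF r j) χ hχ, zero_mul]
  have key := card_blocks (I := IrB B) (K := KW p k)
    (J := fun r => Quotient (irrInvSetoid (C1 (u r)) (C1 (u r)) (c r)))
    (fun r j χ => chO χ.1 (single (u r) 1 * upr (C1 (u r)) (F r j)))
    (fun r j χ => chO χ.1 (upr (C1 (u r)) (F r j) * single (u r)⁻¹ 1))
    (fun r r' hrr j j' => by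
      rw [hsum]
      exact off_zero (hM r) (hM r') (hc r) (hc r') (hf2 r j) (hF r j) (hf2 r' j') (hF r' j')
        (hne r r' hrr))
    (fun r => by
      have e1 := gram_ne (p := p) (f r) (φ r) (hφ r) (h1 r) (h2 r) (F r)
        (fun j => (hF r j).idem) (fun j => (hF r j).red)
      intro h0
      apply e1
      rw [← h0]
      congr 1
      ext j j'
      rw [Matrix.of_apply, Matrix.of_apply, hsum]
      symm
      exact tp_chi_self (p := p) (hM r) sepO (by rw [← map_mul, (hF r j).idem])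
        (by rw [← map_mul, (hF r j').idem]) (hF r j).idem (hF r j').idem
        (single_upr (u r) (F r j)) (single_upr (u r) (F r j'))
        (gap_self (C1 (u r)) (F r j) _) (gap_self (C1 (u r)) (F r j') _))
  simpa only [Nat.card_eq_fintype_card] using key

/-- the inequality `k(B) ≥ l(B) + ∑ l(b_u)`, the sum over a family with `u ≠ 1` -/
theorem four_add (hB : CenL b B) (hb : IsBlock (⊤ : Subgroup A) b) {R : Type*} [Fintype R]
    (u : R → A) (c : R → MonoidAlgebra k A)
    (hu : ∀ r, ∃ M : ℕ, u r ^ p ^ M = 1) (hu1 : ∀ r, u r ≠ 1)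
    (hc : ∀ r, IsBlock (C1 (u r)) (c r))
    (hbc : ∀ r, resS (C1 (u r) : Set A) b * c r = c r)
    (hne : ∀ r r', r ≠ r' → ∀ g, u r * g = g * u r' → cj g (c r') ≠ c r) :
    Nat.card (Quotient (irrInvSetoid (⊤ : Subgroup A) ⊤ b)) +
      ∑ r, Nat.card (Quotient (irrInvSetoid (C1 (u r)) (C1 (u r)) (c r)))
      ≤ Nat.card (IrB B) := by
  have h1 : C1 (1 : A) = ⊤ := by
    ext x
    rw [mem_C1', one_mul, mul_one]
    simp
  have h2 : IsBlock (C1 (1 : A)) b := by rw [h1]; exact hb
  have h3 : resS (C1 (1 : A) : Set A) b * b = b := by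
    have h4 : resS (C1 (1 : A) : Set A) b = b := by
      ext x
      rw [coeff_resS_of_mem]
      rw [h1]
      exact Subgroup.mem_top x
    rw [h4, hb.idem]
  let u' : Option R → A := fun o => o.elim 1 u
  let c' : Option R → MonoidAlgebra k A := fun o => o.elim b c
  have e1 : ∀ o, ∃ M : ℕ, u' o ^ p ^ M = 1 := by
    rintro (_ | r)
    · exact ⟨0, one_pow _⟩
    · exact hu r
  have e2 : ∀ o, IsBlock (C1 (u' o)) (c' o) := by
    rintro (_ | r)
    · exact h2
    · exact hc r
  have e3 : ∀ o, resS (C1 (u' o) : Set A) b * c' o = c' o := by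
    rintro (_ | r)
    · exact h3
    · exact hbc r
  have e4 : ∀ o o', o ≠ o' → ∀ g, u' o * g = g * u' o' → cj g (c' o') ≠ c' o := by
    rintro (_ | r) (_ | r') hrr g hg
    · exact absurd rfl hrr
    · exfalso
      have h2 : (1 : A) * g = g * u r' := hg
      rw [one_mul] at h2
      exact hu1 r' (mul_eq_left.1 h2.symm)
    · exfalso
      have h2 : u r * g = g * 1 := hg
      rw [mul_one] at h2
      exact hu1 r (mul_eq_right.1 h2)
    · exact hne r r' (fun h => hrr (by rw [h])) g hg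
  have key := four hB u' c' e1 e2 e3 e4
  rw [Fintype.sum_option] at key
  have h5 : Nat.card (Quotient (irrInvSetoid (C1 (1 : A)) (C1 (1 : A)) b))
      = Nat.card (Quotient (irrInvSetoid (⊤ : Subgroup A) ⊤ b)) := by rw [h1]
  rw [← h5]
  exact key

/-- the inequality `k(B) ≥ l(B) + |R|` -/
theorem four_card (hB : CenL b B) (hb : IsBlock (⊤ : Subgroup A) b) {R : Type*} [Fintype R]
    (u : R → A) (c : R → MonoidAlgebra k A)
    (hu : ∀ r, ∃ M : ℕ, u r ^ p ^ M = 1) (hu1 : ∀ r, u r ≠ 1)
    (hc : ∀ r, IsBlock (C1 (u r)) (c r))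
    (hbc : ∀ r, resS (C1 (u r) : Set A) b * c r = c r)
    (hne : ∀ r r', r ≠ r' → ∀ g, u r * g = g * u r' → cj g (c r') ≠ c r) :
    Nat.card (Quotient (irrInvSetoid (⊤ : Subgroup A) ⊤ b)) + Fintype.card R
      ≤ Nat.card (IrB B) := by
  refine le_trans (Nat.add_le_add_left ?_ _) (four_add hB hb u c hu hu1 hc hbc hne)
  calc Fintype.card R = ∑ _r : R, 1 := by rw [Finset.sum_const, smul_eq_mul, mul_one]; rfl
    _ ≤ _ := Finset.sum_le_sum fun r _ => irr_nonempty (hc r)

end

end Pool.Agent.Lib.P0c8ca5.Ex
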