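import Pool.Agent.Lib.P0c8ca5Ex.R4

/-!
# Characters of matrix representations of abelian groups

`M : D → Matrix n n K` with `M (u v) = M u * M v` (not unital): `u ↦ trace (M u)` is a virtual character with natural
multiplicities.
-/

set_option autoImplicit false
set_option linter.unusedSectionVars false

namespace Pool.Agent.Lib.P0c8ca5.Ex

section

variable {K : Type*} [Field K] [CharZero K] {n : Type*} [Fintype n] [DecidableEq n]

/-- the trace of an idempotent matrix -/
theorem trace_idemK {e : Matrix n n K} (he : e * e = e) : ∃ r : ℕ, e.trace = (r : K) := by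
  have h1 : IsIdempotentElem (Matrix.toLin' e) := by
    unfold IsIdempotentElem
    rw [Module.End.mul_eq_comp, ← Matrix.toLin'_mul, he]
  have h2 := (LinearMap.IsIdempotentElem.isProj_range _ h1).trace
  rw [Matrix.trace_toLin'_eq] at h2
  exact ⟨_, h2⟩

/-- an idempotent matrix of trace 0 is 0 -/
theorem trace_idem_zero {e : Matrix n n K} (he : e * e = e) (h0 : e.trace = 0) : e = 0 := by
  have h1 : IsIdempotentElem (Matrix.toLin' e) := by
    unfold IsIdempotentElem
    rw [Module.End.mul_eq_comp, ← Matrix.toLin'_mul, he]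
  have h2 : Matrix.toLin' e = 0 := (LinearMap.IsIdempotentElem.trace_eq_zero_iff h1).1 (by
    rw [Matrix.trace_toLin'_eq, h0])
  exact (LinearEquiv.map_eq_zero_iff Matrix.toLin').1 h2

end

section

variable {D : Type*} [CommGroup D] [Fintype D] {K : Type*} [Field K] [CharZero K]
  [HasEnoughRootsOfUnity K (Monoid.exponent D)] {n : Type*} [Fintype n] [DecidableEq n]

/-- the component of `M` for the character `l` -/
noncomputable def cmp (M : D → Matrix n n K) (l : D →* Kˣ) : Matrix n n K :=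
  (Fintype.card D : K)⁻¹ • ∑ u, chr l u⁻¹ • M u

theorem cmp_mul (M : D → Matrix n n K) (hM : ∀ u v, M (u * v) = M u * M v) (l : D →* Kˣ) (v : D) :
    M v * cmp M l = chr l v • cmp M l := by
  unfold cmp
  rw [Matrix.mul_smul, Finset.mul_sum, smul_comm (chr l v)]
  congr 1
  rw [Finset.smul_sum, ← Equiv.sum_comp (Equiv.mulLeft v) (fun u => chr l v • chr l u⁻¹ • M u)]
  refine Finset.sum_congr rfl fun u _ => ?_
  rw [Equiv.coe_mulLeft, Matrix.mul_smul, ← hM, smul_smul]
  congr 1
  rw [mul_inv_rev, mul_comm u⁻¹, ← chr_map_mul, mul_inv_cancel_left]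

theorem cmp_idem (M : D → Matrix n n K) (hM : ∀ u v, M (u * v) = M u * M v) (l : D →* Kˣ) :
    cmp M l * cmp M l = cmp M l := by
  have h1 : ∀ u, (chr l u⁻¹ • M u) * cmp M l = cmp M l := by
    intro u
    rw [Matrix.smul_mul, cmp_mul M hM, smul_smul, mul_comm, chr_mul_inv, one_smul]
  have h2 : cmp M l * cmp M l = (Fintype.card D : K)⁻¹ • ∑ u, (chr l u⁻¹ • M u) * cmp M l := by
    rw [← Finset.sum_mul, ← Matrix.smul_mul]
    rfl
  rw [h2, Finset.sum_congr rfl fun u _ => h1 u, Finset.sum_const, Finset.card_univ,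
    ← Nat.cast_smul_eq_nsmul K, smul_smul, inv_mul_cancel₀ card_ne, one_smul]

theorem trace_cmp (M : D → Matrix n n K) (l : D →* Kˣ) :
    (cmp M l).trace = mlt (fun u => (M u).trace) l := by
  unfold cmp mlt
  rw [Matrix.trace_smul, Matrix.trace_sum, smul_eq_mul]
  congr 1
  refine Finset.sum_congr rfl fun u _ => ?_
  rw [Matrix.trace_smul, smul_eq_mul, mul_comm]

/-- the multiplicities are natural numbers -/
theorem mlt_trace (M : D → Matrix n n K) (hM : ∀ u v, M (u * v) = M u * M v) (l : D →* Kˣ) :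
    ∃ r : ℕ, mlt (fun u => (M u).trace) l = (r : K) := by
  rw [← trace_cmp]
  exact trace_idemK (cmp_idem M hM l)

/-- **traces are virtual characters** -/
theorem trace_vir (M : D → Matrix n n K) (hM : ∀ u v, M (u * v) = M u * M v) :
    (fun u => (M u).trace) ∈ vir D K := by
  rw [mem_vir_iff]
  intro l
  obtain ⟨r, hr⟩ := mlt_trace M hM l
  exact ⟨r, by rw [hr]; simp⟩

/-- sums with virtual multiplicities: `π u = ∑ i, ⟨θ i, 1⟩ θ i u` -/
theorem pi_vir {I : Type*} [Fintype I] (θ : I → D → K) (h : ∀ i, θ i ∈ vir D K) :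
    (fun u => ∑ i, mlt (θ i) 1 * θ i u) ∈ vir D K := by
  have h1 : (fun u => ∑ i, mlt (θ i) 1 * θ i u) = ∑ i, (fun u => mlt (θ i) 1 * θ i u) := by
    funext u
    rw [Finset.sum_apply]
  rw [h1]
  refine sum_mem fun i _ => ?_
  obtain ⟨a, ha⟩ := mem_vir_iff.1 (h i) 1
  have h2 : (fun u => mlt (θ i) 1 * θ i u) = a • θ i := by
    funext u
    rw [ha, Pi.smul_apply, zsmul_eq_mul]
  rw [h2]
  exact zsmul_mem (h i) a

omit [HasEnoughRootsOfUnity K (Monoid.exponent D)] in
theorem mlt_one_eq (g : D → K) : mlt g 1 = (Fintype.card D : K)⁻¹ * ∑ v, g v := by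
  unfold mlt
  congr 1
  refine Finset.sum_congr rfl fun u _ => ?_
  have h7 : chr (1 : D →* Kˣ) u⁻¹ = 1 := by simp [chr]
  rw [h7, mul_one]

omit [HasEnoughRootsOfUnity K (Monoid.exponent D)] in
/-- the value of `π` from the orthogonality relation -/
theorem pi_eq {I : Type*} [Fintype I] (θ : I → D → K) (u : D) :
    ∑ i, mlt (θ i) 1 * θ i u = (Fintype.card D : K)⁻¹ * ∑ v, ∑ i, θ i u * θ i v⁻¹ := by
  have h1 : ∀ i, mlt (θ i) 1 * θ i u = (Fintype.card D : K)⁻¹ * ∑ v, θ i u * θ i v⁻¹ := by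
    intro i
    rw [mlt_one_eq, ← Equiv.sum_comp (Equiv.inv D), ← Finset.mul_sum]
    simp only [Equiv.inv_apply]
    ring
  rw [Finset.sum_congr rfl fun i _ => h1 i, ← Finset.mul_sum, Finset.sum_comm]

end

end Pool.Agent.Lib.P0c8ca5.Ex
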