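import Mathlib
import Pool.Agent.Lib.P0c8ca5Ex.TG
import Pool.Agent.Lib.P0c8ca5Ex.R5

/-!
# NB: the factors `F` of the rows, descent of virtual characters

* `fch H B i`: the factor `F` of the row `i` for the block `B` of `O[H]`;
* `vir_desc`: virtual characters invariant under translation by a subgroup descend to the quotient.
-/

set_option autoImplicit false
set_option linter.unusedSectionVars false

namespace Pool.Agent.Lib.P0c8ca5.Ex

open MonoidAlgebra

section omega
variable {K : Type*} [Field K] [IsAlgClosed K] [CharZero K] {A : Type*} [Group A] [Finite A]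

theorem single_central {z : A} (hz : ∀ a, z * a = a * z) (a : MonoidAlgebra K A) :
    single z (1 : K) * a = a * single z 1 := by
  induction a using MonoidAlgebra.induction_linear with
  | zero => rw [mul_zero, zero_mul]
  | add f g hf hg => rw [mul_add, add_mul, hf, hg]
  | single x c => rw [single_mul_single, single_mul_single, hz, one_mul, mul_one]

/-- the values of the central character on central group elements -/
theorem om_single_mul (i : Ir K A) {z : A} (hz : ∀ a, z * a = a * z) (z' : A) :
    om i (single (z * z') (1 : K)) = om i (single z 1) * om i (single z' 1) := by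
  rw [← om_mul i (single_central hz), single_mul_single, one_mul]

theorem om_single_ne (i : Ir K A) {z : A} (hz : ∀ a, z * a = a * z) :
    om i (single z (1 : K)) ≠ 0 := by
  intro h
  have h1 := om_single_mul i hz z⁻¹
  rw [h, zero_mul, mul_inv_cancel, ← one_def, om_one] at h1
  exact one_ne_zero h1

/-- an idempotent with `chi i e = 0` has component 0 at `i` -/
theorem wd_idem_zero (i : Ir K A) {e : MonoidAlgebra K A} (he : e * e = e) (h0 : chi i e = 0) :
    wd e i = 0 := by
  refine trace_idem_zero (e := wd e i) ?_ h0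
  rw [← Pi.mul_apply, ← map_mul, he]

/-- the constituents of the restriction have the same central character on the central elements
of `A` -/
theorem om_res {H : Subgroup A} {i : Ir K A} {j : Ir K ↥H} (hj : mult H i j ≠ 0) {z : A}
    (hz : ∀ a, z * a = a * z) (hzH : z ∈ H) :
    om j (single (⟨z, hzH⟩ : ↥H) (1 : K)) = om i (single z 1) := by
  have hzc : ∀ a : ↥H, (⟨z, hzH⟩ : ↥H) * a = a * ⟨z, hzH⟩ := fun a => Subtype.ext (hz a)
  have h1 := om_of_mult hj (z := single (⟨z, hzH⟩ : ↥H) (1 : K)) (single_central hzc) (by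
    rw [upr_single]
    exact single_central hz)
  rw [upr_single] at h1
  exact h1

end omega

section factor
variable {O : Type*} [CommRing O] {K : Type*} [Field K] [IsAlgClosed K] [CharZero K] [Algebra O K]
  {A : Type*} [Group A] [Finite A]

theorem chO_central_mul (i : Ir K A) {z : A} (hz : ∀ a, z * a = a * z)
    (a : MonoidAlgebra O A) : chO i (single z 1 * a) = om i (single z 1) * chO i a := by
  rw [chO_apply, map_mul (mapRingHom A (algebraMap O K)), map_single, map_one,
    chi_cen_mul i (single_central hz), chO_apply]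

/-- the idempotents under an idempotent with character value 0 -/
theorem chO_idem_zero (i : Ir K A) {B e : MonoidAlgebra O A} (hB : B * B = B) (he : e * B = e)
    (h0 : chO i B = 0) : chO i e = 0 := by
  have h1 : wd (mapRingHom A (algebraMap O K) B) i = 0 := by
    refine wd_idem_zero i ?_ h0
    rw [← map_mul, hB]
  rw [chO_apply, ← he, map_mul (mapRingHom A (algebraMap O K)), chi_apply, map_mul, Pi.mul_apply,
    h1, mul_zero, Matrix.trace_zero]

open Classical in
/-- the factor `F` of the row `i` for the block `B` of `O[H]` -/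
noncomputable def fch (H : Subgroup A) (B : MonoidAlgebra O ↥H) (i : Ir K A) (x : A) : K :=
  ∑ j : Ir K ↥H, if chO j B = 0 then 0 else (mult H i j : K) * om j (dnr H (single x (1 : K)))

theorem dnr_single (H : Subgroup A) (x : ↥H) (c : K) :
    dnr H (single (x : A) c) = single x c := by
  rw [← upr_single, dnr_upr]

/-- **the factorization of the rows** -/
theorem fch_spec {H : Subgroup A} {B : MonoidAlgebra O ↥H} (hB : B * B = B)
    {e : MonoidAlgebra O ↥H} (he : e * B = e) {n : ℕ}
    (hn : ∀ j : Ir K ↥H, chO j B ≠ 0 → chO j e = (n : K)) (i : Ir K A) {x : ↥H}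
    (hx : ∀ a : ↥H, x * a = a * x) :
    chO i (upr H (single x 1 * e)) = (n : K) * fch H B i (x : A) := by
  classical
  rw [chO_upr, fch, Finset.mul_sum]
  refine Finset.sum_congr rfl fun j _ => ?_
  rw [chO_central_mul j hx, dnr_single]
  split_ifs with h
  · rw [chO_idem_zero j hB he h, mul_zero, mul_zero, mul_zero]
  · rw [hn j h]
    ring

/-- **the factor is locally a virtual character** -/
theorem fch_vir {T : Type*} [CommGroup T] [Finite T] (phi : T →* A) (H : Subgroup A)
    (B : MonoidAlgebra O ↥H) (i : Ir K A) :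
    ∃ beta ∈ vir T K, (∀ t (_ : phi t ∈ H), (∀ a ∈ H, phi t * a = a * phi t) →
        beta t = fch H B i (phi t)) ∧
      ∀ z, phi z ∈ H → (∀ a, phi z * a = a * phi z) → ∀ t,
        beta (z * t) = om i (single (phi z) (1 : K)) * beta t := by
  classical
  -- the subgroup of `T` mapped to the centre of `H`
  let T0 : Subgroup T :=
    { carrier := {t | phi t ∈ H ∧ ∀ a ∈ H, phi t * a = a * phi t}
      mul_mem' := by
        rintro s t ⟨hs, hs'⟩ ⟨ht, ht'⟩
        refine ⟨by rw [map_mul]; exact H.mul_mem hs ht, fun a ha => ?_⟩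
        rw [map_mul, mul_assoc, ht' a ha, ← mul_assoc, hs' a ha, mul_assoc]
      one_mem' := ⟨by rw [map_one]; exact H.one_mem, fun a _ => by rw [map_one, one_mul, mul_one]⟩
      inv_mem' := by
        rintro t ⟨ht, ht'⟩
        refine ⟨by rw [map_inv]; exact H.inv_mem ht, fun a ha => ?_⟩
        rw [map_inv, inv_mul_eq_iff_eq_mul, ← mul_assoc, ht' a ha, mul_inv_cancel_right] }
  have hT0 : ∀ t : ↥T0, ∀ a : ↥H, (⟨phi t, t.2.1⟩ : ↥H) * a = a * ⟨phi t, t.2.1⟩ :=
    fun t a => Subtype.ext (t.2.2 a a.2)
  -- the central characters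
  let lam : Ir K ↥H → ↥T0 →* Kˣ := fun j =>
    { toFun := fun t => Units.mk0 (om j (single (⟨phi t, t.2.1⟩ : ↥H) (1 : K)))
        (om_single_ne j (hT0 t))
      map_one' := by
        ext
        rw [Units.val_mk0, Units.val_one]
        have h1 : (⟨phi ((1 : ↥T0) : T), (1 : ↥T0).2.1⟩ : ↥H) = 1 :=
          Subtype.ext (map_one phi)
        rw [h1, ← one_def, om_one]
      map_mul' := fun s t => by
        ext
        rw [Units.val_mk0, Units.val_mul, Units.val_mk0, Units.val_mk0, ← om_single_mul j (hT0 s)]
        congr 2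
        exact Subtype.ext (map_mul phi (s : T) (t : T)) }
  have hl : ∀ j, ∃ m : T →* Kˣ, ∀ t : ↥T0, m t = lam j t := by
    intro j
    have : NeZero ((Monoid.exponent T : ℕ) : K) :=
      ⟨Nat.cast_ne_zero.2 (Monoid.exponent_ne_zero_of_finite)⟩
    obtain ⟨m, hm⟩ := MonoidHom.domRestrict_surjective (M := K) T0 (lam j)
    exact ⟨m, fun t => by rw [← hm]; rfl⟩
  choose m hm using hl
  refine ⟨fun t => ∑ j : Ir K ↥H, if chO j B = 0 then 0 else (mult H i j : K) * chr (m j) t,
    ?_, ?_, ?_⟩
  · have h1 : (fun t => ∑ j : Ir K ↥H, if chO j B = 0 then 0 else (mult H i j : K) * chr (m j) t)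
        = ∑ j : Ir K ↥H, if chO j B = 0 then 0 else (mult H i j) • chr (m j) := by
      funext t
      rw [Finset.sum_apply]
      refine Finset.sum_congr rfl fun j _ => ?_
      split_ifs with h
      · rfl
      · rw [Pi.smul_apply, nsmul_eq_mul]
    rw [h1]
    refine sum_mem fun j _ => ?_
    split_ifs with h
    · exact zero_mem _
    · exact nsmul_mem (chr_mem _) _
  · intro t ht ht'
    rw [fch]
    refine Finset.sum_congr rfl fun j _ => ?_
    split_ifs with h
    · rfl
    · have h1 := hm j ⟨t, ht, ht'⟩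
      have h2 : chr (m j) t = om j (single (⟨phi t, ht⟩ : ↥H) (1 : K)) := by
        rw [chr]
        change ((m j t : Kˣ) : K) = _
        rw [show m j t = lam j ⟨t, ht, ht'⟩ from h1]
        rfl
      have h3 : dnr H (single (phi t) (1 : K)) = single (⟨phi t, ht⟩ : ↥H) (1 : K) :=
        dnr_single H ⟨phi t, ht⟩ 1
      rw [h2, h3]
  · intro z hz hz' t
    change (∑ j : Ir K ↥H, if chO j B = 0 then 0 else (mult H i j : K) * chr (m j) (z * t)) = _
    rw [Finset.mul_sum]
    refine Finset.sum_congr rfl fun j _ => ?_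
    split_ifs with h
    · rw [mul_zero]
    · by_cases hj : mult H i j = 0
      · rw [hj, Nat.cast_zero, zero_mul, zero_mul, mul_zero]
      · have h1 := hm j ⟨z, hz, fun a _ => hz' a⟩
        have h2 : chr (m j) z = om i (single (phi z) (1 : K)) := by
          rw [← om_res hj hz' hz, chr]
          change ((m j z : Kˣ) : K) = _
          rw [show m j z = lam j ⟨z, hz, fun a _ => hz' a⟩ from h1]
          rfl
        rw [chr_map_mul, h2]
        ring

end factor

section desc
variable {T : Type*} [CommGroup T] [Fintype T] {K : Type*} [Field K] [CharZero K]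
  [HasEnoughRootsOfUnity K (Monoid.exponent T)]

/-- the multiplicities of an invariant function -/
theorem mlt_inv {Z : Subgroup T} {g : T → K} (hg : ∀ z ∈ Z, ∀ u, g (z * u) = g u) (l : T →* Kˣ)
    (hl : ¬ ∀ z ∈ Z, l z = 1) : mlt g l = 0 := by
  push Not at hl
  obtain ⟨z, hz, hz1⟩ := hl
  have h1 : ∑ u, g u * chr l u⁻¹ = chr l z⁻¹ * ∑ u, g u * chr l u⁻¹ := by
    rw [Finset.mul_sum, ← Equiv.sum_comp (Equiv.mulLeft z)]
    refine Finset.sum_congr rfl fun u _ => ?_
    rw [Equiv.coe_mulLeft, hg z hz, mul_inv, chr_map_mul]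
    ring
  have h2 : (1 - chr l z⁻¹) * ∑ u, g u * chr l u⁻¹ = 0 := by
    rw [sub_mul, one_mul, ← h1, sub_self]
  rcases mul_eq_zero.1 h2 with h3 | h3
  · exfalso
    apply hz1
    have h4 : chr l z⁻¹ = 1 := (sub_eq_zero.1 h3).symm
    have h5 := chr_mul_inv l z
    rw [h4, mul_one] at h5
    ext
    rw [Units.val_one]
    exact h5
  · rw [mlt, h3, mul_zero]

/-- **descent of virtual characters** -/
theorem vir_desc (Z : Subgroup T) {g : T → K} (hg : g ∈ vir T K)
    (hz : ∀ z ∈ Z, ∀ u, g (z * u) = g u) :
    ∃ g' ∈ vir (T ⧸ Z) K, ∀ u : T, g' (QuotientGroup.mk u) = g u := by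
  classical
  choose a ha using mem_vir_iff.1 hg
  refine ⟨∑ l : T →* Kˣ, if h : ∀ z ∈ Z, l z = 1 then
    (a l) • chr (QuotientGroup.lift Z l (fun z hz => h z hz)) else 0, ?_, ?_⟩
  · refine sum_mem fun l _ => ?_
    split_ifs with h
    · exact zsmul_mem (chr_mem _) _
    · exact zero_mem _
  · intro u
    rw [eq_sum_mlt g u, Finset.sum_apply]
    refine Finset.sum_congr rfl fun l _ => ?_
    split_ifs with h
    · rw [Pi.smul_apply, zsmul_eq_mul, ha l]
      rfl
    · rw [mlt_inv hz l h, zero_mul, Pi.zero_apply]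

end desc

end Pool.Agent.Lib.P0c8ca5.Ex

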