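import Mathlib
import Pool.Agent.Lib.P0c8ca5Ex.FD
import Pool.Agent.Lib.P0c8ca5Ex.NB

/-!
# GD: finite families of idempotents with independent characters

`exists_family`: finitely many idempotents `F j` of `O[G]` whose reductions lie below `z`, with
nonsingular Gram matrix, such that the vector of the character values of every idempotent below
`z` is a combination of their vectors. `family_card`: if `z` is a block, there are at least as many
of them as irreducible representations of the block.
-/

set_option linter.unusedSectionVars false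

namespace Pool.Agent.Lib.P0c8ca5.Ex

open MonoidAlgebra

section
variable {p : ℕ} [Fact p.Prime] {k : Type*} [Field k] [IsAlgClosed k] [CharP k p]
  {G : Type*} [Group G] [Finite G]

/-- a finite family of idempotents below `z` -/
structure Fam (z : MonoidAlgebra k G) {J : Type*} [Fintype J]
    (F : J → MonoidAlgebra (OW p k) G) : Prop where
  idem : ∀ j, F j * F j = F j
  below : ∀ j, mapRingHom G (rdO p k) (F j) * z = mapRingHom G (rdO p k) (F j)
  indep : LinearIndependent (KW p k) fun j => fun ψ : Ir (KW p k) G => chO ψ (F j)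
  span : ∀ E : MonoidAlgebra (OW p k) G, E * E = E →
    mapRingHom G (rdO p k) E * z = mapRingHom G (rdO p k) E →
    ∃ m : J → KW p k, ∀ ψ : Ir (KW p k) G, chO ψ E = ∑ j, m j * chO ψ (F j)

theorem exists_family (z : MonoidAlgebra k G) :
    ∃ (n : ℕ) (F : Fin n → MonoidAlgebra (OW p k) G), Fam z F := by
  let S : Set (Ir (KW p k) G → KW p k) := {w | ∃ E : MonoidAlgebra (OW p k) G, E * E = E ∧
    mapRingHom G (rdO p k) E * z = mapRingHom G (rdO p k) E ∧ w = fun ψ => chO ψ E}
  obtain ⟨b, hbS, hbs, hbi⟩ := exists_linearIndependent (KW p k) S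
  have hfin : Finite b := hbi.finite
  let e : Fin (Nat.card b) ≃ b := (Finite.equivFin b).symm
  have hE : ∀ j : Fin (Nat.card b), ∃ E : MonoidAlgebra (OW p k) G, E * E = E ∧
      mapRingHom G (rdO p k) E * z = mapRingHom G (rdO p k) E ∧
      ((e j : b) : Ir (KW p k) G → KW p k) = fun ψ => chO ψ E := fun j => hbS (e j).2
  choose F h1 h2 h3 using hE
  have hfun : (fun j => fun ψ : Ir (KW p k) G => chO ψ (F j))
      = (fun x : b => (x : Ir (KW p k) G → KW p k)) ∘ e := by
    funext j
    exact (h3 j).symm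
  refine ⟨_, F, h1, h2, ?_, ?_⟩
  · rw [hfun]
    exact hbi.comp e e.injective
  · intro E hE1 hE2
    have h4 : (fun ψ : Ir (KW p k) G => chO ψ E) ∈ Submodule.span (KW p k) S :=
      Submodule.subset_span ⟨E, hE1, hE2, rfl⟩
    rw [← hbs] at h4
    have h5 : (b : Set (Ir (KW p k) G → KW p k))
        = Set.range fun j => fun ψ : Ir (KW p k) G => chO ψ (F j) := by
      rw [hfun, Set.range_comp, e.range_eq_univ, Set.image_univ, Subtype.range_coe]
    rw [h5, Submodule.mem_span_range_iff_exists_fun] at h4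
    obtain ⟨m, hm⟩ := h4
    refine ⟨m, fun ψ => ?_⟩
    have h6 := congrFun hm ψ
    rw [Finset.sum_apply] at h6
    rw [← h6]
    rfl

variable {z : MonoidAlgebra k G} {J : Type*} [Fintype J] {F : J → MonoidAlgebra (OW p k) G}

/-- the Gram matrix is nonsingular -/
theorem Fam.gram [DecidableEq J] (h : Fam z F) :
    (Matrix.of fun j j' => ∑ ψ : Ir (KW p k) G, chO ψ (F j) * chO ψ (F j')).det ≠ 0 := by
  have h3 : ∀ j (χ : Ir (KW p k) G), ∃ n : ℕ, chO χ (F j) = (n : KW p k) := fun j χ =>
    chO_nat (h.idem j) χ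
  choose a ha using h3
  have h4 := gram_det (Fact.out : p.Prime).one_lt (KW p k)
    (fun (j : J) (χ : Ir (KW p k) G) => (a j χ : ℤ)) (by
      intro n hn i
      have h5 : ∑ j, ((n j : ℤ) : KW p k) • (fun ψ : Ir (KW p k) G => chO ψ (F j)) = 0 := by
        funext ψ
        rw [Finset.sum_apply, Pi.zero_apply]
        have h6 := congrArg (Int.cast : ℤ → KW p k) (hn ψ)
        rw [Int.cast_sum, Int.cast_zero] at h6
        rw [← h6]
        refine Finset.sum_congr rfl fun j _ => ?_
        rw [Pi.smul_apply, smul_eq_mul, ha, Int.cast_mul, Int.cast_natCast]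
      have h6 := Fintype.linearIndependent_iff.1 h.indep _ h5 i
      rw [Int.cast_eq_zero] at h6
      rw [h6]
      exact dvd_zero _)
  intro h0
  apply h4
  rw [← h0]
  congr 1
  ext j j'
  rw [Matrix.of_apply, Matrix.of_apply]
  refine Finset.sum_congr rfl fun ψ _ => ?_
  rw [ha, ha, Int.cast_natCast, Int.cast_natCast]

end

section
variable {p : ℕ} [Fact p.Prime] {k : Type*} [Field k] [IsAlgClosed k] [CharP k p]
  {A : Type*} [Group A] [Finite A]

/-- the number of idempotents of the family is at least the number of irreducible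
representations -/
theorem family_card {H : Subgroup A} {c : MonoidAlgebra k A} (hc : IsBlock H c)
    {J : Type*} [Fintype J] {F : J → MonoidAlgebra (OW p k) ↥H} (h : Fam (dnr H c) F) :
    Nat.card (Quotient (irrInvSetoid H H c)) ≤ Fintype.card J := by
  classical
  have := Fintype.ofFinite A
  have := Fintype.ofFinite ↥H
  have : Finite (Quotient (irrInvSetoid H H c)) := finite_classes _ _ _
  have := Fintype.ofFinite (Quotient (irrInvSetoid H H c))
  obtain ⟨f, φ, hf1, hf2, hφ, h1, h2⟩ := exists_idems hc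
  have hl : ∀ j, ∃ F : MonoidAlgebra (OW p k) ↥H, IdL (f j) F := by
    intro j
    obtain ⟨F, h, -⟩ := exists_idL (p := p) (hf1 j)
    exact ⟨F, h⟩
  choose E hE using hl
  have hgram := gram_ne (p := p) f φ hφ h1 h2 E (fun j => (hE j).idem) (fun j => (hE j).red)
  have hli : LinearIndependent (KW p k) fun j => fun ψ : Ir (KW p k) ↥H => chO ψ (E j) := by
    rw [Fintype.linearIndependent_iff]
    intro g hg
    have h3 := Matrix.eq_zero_of_vecMul_eq_zero hgram (v := g) (by
      funext j'
      rw [Pi.zero_apply]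
      have h4 : ∑ ψ : Ir (KW p k) ↥H, (∑ j, g j • fun ψ : Ir (KW p k) ↥H => chO ψ (E j)) ψ
          * chO ψ (E j') = 0 := by
        rw [hg]
        simp
      rw [← h4, Matrix.vecMul, dotProduct]
      simp only [Matrix.of_apply, Finset.sum_apply, Pi.smul_apply, smul_eq_mul, Finset.sum_mul,
        Finset.mul_sum]
      rw [Finset.sum_comm]
      exact Finset.sum_congr rfl fun ψ _ => Finset.sum_congr rfl fun j _ => by ring)
    exact congrFun h3
  have hle : Set.range (fun j => fun ψ : Ir (KW p k) ↥H => chO ψ (E j))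
      ≤ Submodule.span (KW p k)
        (Set.range fun j => fun ψ : Ir (KW p k) ↥H => chO ψ (F j)) := by
    rintro w ⟨j, rfl⟩
    obtain ⟨m, hm⟩ := h.span (E j) (hE j).idem (by rw [(hE j).red, hf2])
    refine (Submodule.mem_span_range_iff_exists_fun _).2 ⟨m, ?_⟩
    funext ψ
    rw [Finset.sum_apply]
    exact (hm ψ).symm
  rw [Nat.card_eq_fintype_card]
  have h5 := linearIndependent_le_span' _ hli _ hle
  have h6 : Fintype.card (Set.range fun j => fun ψ : Ir (KW p k) ↥H => chO ψ (F j))
      ≤ Fintype.card J := Fintype.card_range_le _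
  rw [Cardinal.mk_fintype] at h5
  exact (by exact_mod_cast h5 : _ ≤ _).trans h6

/-- the columns at `v` depend linearly on the character values -/
theorem col_lin {v : A} {J : Type*} [Fintype J] {E : MonoidAlgebra (OW p k) ↥(C1 v)}
    {F : J → MonoidAlgebra (OW p k) ↥(C1 v)} {m : J → KW p k}
    (h : ∀ ψ : Ir (KW p k) ↥(C1 v), chO ψ E = ∑ j, m j * chO ψ (F j)) (χ : Ir (KW p k) A) :
    chO χ (single v 1 * upr (C1 v) E)
      = ∑ j, m j * chO χ (single v 1 * upr (C1 v) (F j)) := by
  have hv : v ∈ C1 v := mem_C1'.2 rfl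
  have hz : ∀ a : ↥(C1 v), (⟨v, hv⟩ : ↥(C1 v)) * a = a * ⟨v, hv⟩ := fun a =>
    Subtype.ext (mem_C1'.1 a.2)
  have h1 : ∀ a : MonoidAlgebra (OW p k) ↥(C1 v), chO χ (single v 1 * upr (C1 v) a)
      = ∑ ψ : Ir (KW p k) ↥(C1 v), (mult (C1 v) χ ψ : KW p k) *
        (om ψ (single (⟨v, hv⟩ : ↥(C1 v)) 1) * chO ψ a) := by
    intro a
    have h2 : single v 1 * upr (C1 v) a
        = upr (C1 v) (single (⟨v, hv⟩ : ↥(C1 v)) (1 : OW p k) * a) := by
      rw [map_mul, upr_single]
    rw [h2, chO_upr]
    refine Finset.sum_congr rfl fun ψ _ => ?_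
    rw [chO_central_mul ψ hz]
  simp only [h1, h, Finset.mul_sum]
  rw [Finset.sum_comm]
  exact Finset.sum_congr rfl fun j _ => Finset.sum_congr rfl fun ψ _ => by ring

end

end Pool.Agent.Lib.P0c8ca5.Ex
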