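import Mathlib
import Pool.Agent.Lib.P0c8ca5Ex.TG

/-!
# GA: the action of the automorphisms of `K` on the irreducible characters
-/

namespace Pool.Agent.Lib.P0c8ca5.Ex

open MonoidAlgebra

set_option linter.unusedSectionVars false

section gal
variable {K : Type*} [Field K] [IsAlgClosed K] [CharZero K] {A : Type*} [Group A] [Finite A]

theorem chi_e0 (i j : Ir K A) : chi i (e0 j) = if i = j then 1 else 0 := by
  rw [chi_apply, e0, AlgEquiv.apply_symm_apply]
  split_ifs with h
  · subst h
    rw [Pi.single_eq_same, Matrix.trace_single_eq_same]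
  · rw [Pi.single_eq_of_ne h, Matrix.trace_zero]

/-- the characters are linearly independent -/
theorem chi_indep {c : Ir K A → K} (h : ∀ a, ∑ i, c i * chi i a = 0) (i : Ir K A) : c i = 0 := by
  classical
  have h1 := h (e0 i)
  rw [Finset.sum_eq_single i] at h1
  · rwa [chi_e0, if_pos rfl, mul_one] at h1
  · intro j _ hj
    rw [chi_e0, if_neg hj, mul_zero]
  · intro h2
    exact absurd (Finset.mem_univ _) h2

theorem chi_inj {i j : Ir K A} (h : ∀ a, chi i a = chi j a) : i = j := by
  classical
  by_contra hij
  have h1 := h (e0 i)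
  rw [chi_e0, chi_e0, if_pos rfl, if_neg (fun h2 => hij h2.symm)] at h1
  exact one_ne_zero h1

theorem map_symm (s : K ≃+* K) (a : MonoidAlgebra K A) :
    mapRingHom A (s.symm : K →+* K) (mapRingHom A (s : K →+* K) a) = a := by
  ext x
  rw [coeff_map, coeff_map]
  exact s.symm_apply_apply _

theorem map_symm' (s : K ≃+* K) (a : MonoidAlgebra K A) :
    mapRingHom A (s : K →+* K) (mapRingHom A (s.symm : K →+* K) a) = a := by
  ext x
  rw [coeff_map, coeff_map]
  exact s.apply_symm_apply _

/-- the character `chi i` conjugated by `s` -/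
noncomputable def cst (s : K ≃+* K) (i : Ir K A) : MonoidAlgebra K A →ₗ[K] K where
  toFun a := s (chi i (mapRingHom A (s.symm : K →+* K) a))
  map_add' a b := by rw [map_add, map_add, map_add]
  map_smul' c a := by
    have h1 : mapRingHom A (s.symm : K →+* K) (c • a)
        = s.symm c • mapRingHom A (s.symm : K →+* K) a := by
      ext x
      rw [coeff_map, coeff_smul, coeff_smul, Finsupp.smul_apply, Finsupp.smul_apply, coeff_map,
        smul_eq_mul, smul_eq_mul, map_mul]
      rfl
    rw [h1, map_smul, smul_eq_mul, map_mul, s.apply_symm_apply, RingHom.id_apply, smul_eq_mul]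

theorem cst_apply (s : K ≃+* K) (i : Ir K A) (a : MonoidAlgebra K A) :
    cst s i a = s (chi i (mapRingHom A (s.symm : K →+* K) a)) := rfl

theorem cst_comm (s : K ≃+* K) (i : Ir K A) (a b : MonoidAlgebra K A) :
    cst s i (a * b) = cst s i (b * a) := by
  rw [cst_apply, cst_apply, map_mul (mapRingHom A (s.symm : K →+* K)),
    map_mul (mapRingHom A (s.symm : K →+* K)), chi_mul_comm]

theorem cst_nat (s : K ≃+* K) (i j : Ir K A) : ∃ n : ℕ, cst s i (e0 j) = n := by
  obtain ⟨n, hn⟩ := chi_idem i (e := mapRingHom A (s.symm : K →+* K) (e0 j))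
    (by rw [← map_mul, e0_idem])
  exact ⟨n, by rw [cst_apply, hn, map_natCast]⟩

theorem cst_one (s : K ≃+* K) (i : Ir K A) : cst s i 1 = dg i := by
  rw [cst_apply, map_one, chi_one, map_natCast]

theorem exists_gal (s : K ≃+* K) (i : Ir K A) :
    ∃ j : Ir K A, ∀ a, chi j (mapRingHom A (s : K →+* K) a) = s (chi i a) := by
  classical
  choose m hm using fun i j : Ir K A => cst_nat s i j
  choose m' hm' using fun i j : Ir K A => cst_nat s.symm i j
  have hf : ∀ (i : Ir K A) a, cst s i a = ∑ j, (m i j : K) * chi j a := by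
    intro i a
    rw [trace_form (cst s i) (cst_comm s i) a]
    exact Finset.sum_congr rfl fun j _ => by rw [hm]
  have hf' : ∀ (i : Ir K A) a, cst s.symm i a = ∑ j, (m' i j : K) * chi j a := by
    intro i a
    rw [trace_form (cst s.symm i) (cst_comm s.symm i) a]
    exact Finset.sum_congr rfl fun j _ => by rw [hm']
  have hmm : ∀ l : Ir K A, ∑ j, m i j * m' j l = if i = l then 1 else 0 := by
    intro l
    have h1 : chi i (e0 l) = s.symm (cst s i (mapRingHom A (s : K →+* K) (e0 l))) := by
      rw [cst_apply, map_symm, s.symm_apply_apply]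
    rw [chi_e0, hf, map_sum] at h1
    have h2 : ∀ j : Ir K A, s.symm ((m i j : K) * chi j (mapRingHom A (s : K →+* K) (e0 l)))
        = (m i j : K) * (m' j l : K) := by
      intro j
      rw [map_mul, map_natCast, ← hm', cst_apply]
      rfl
    rw [Finset.sum_congr rfl fun j _ => h2 j] at h1
    have h3 : ((∑ j, m i j * m' j l : ℕ) : K) = ((if i = l then 1 else 0 : ℕ) : K) := by
      push_cast
      rw [← h1]
    exact_mod_cast h3
  -- a place `j` with both multiplicities not zero
  obtain ⟨j, hj⟩ : ∃ j, m i j * m' j i ≠ 0 := by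
    by_contra hcon
    push Not at hcon
    have h1 := hmm i
    rw [if_pos rfl, Finset.sum_eq_zero fun j _ => hcon j] at h1
    exact zero_ne_one h1
  have hsum := hmm i
  rw [if_pos rfl, ← Finset.add_sum_erase _ _ (Finset.mem_univ j)] at hsum
  have hj1 : m i j * m' j i = 1 := by omega
  have hrest : ∑ l ∈ Finset.univ.erase j, m i l * m' l i = 0 := by omega
  have hz : ∀ l, l ≠ j → m i l = 0 := by
    intro l hl
    by_contra h0
    have h1 : ∀ r, m' l r = 0 := by
      intro r
      by_cases hr : i = r
      · subst hr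
        have h2 := (Finset.sum_eq_zero_iff.1 hrest) l (Finset.mem_erase.2 ⟨hl, Finset.mem_univ _⟩)
        exact (Nat.mul_eq_zero.1 h2).resolve_left h0
      · have h2 := hmm r
        rw [if_neg hr] at h2
        exact (Nat.mul_eq_zero.1 ((Finset.sum_eq_zero_iff.1 h2) l (Finset.mem_univ _))).resolve_left
          h0
    have h2 := cst_one s.symm l
    rw [hf', Finset.sum_eq_zero (fun r _ => by rw [h1 r, Nat.cast_zero, zero_mul])] at h2
    exact dg_ne' l h2.symm
  have hmij : m i j = 1 := Nat.eq_one_of_mul_eq_one_right hj1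
  refine ⟨j, fun a => ?_⟩
  have h1 := hf i (mapRingHom A (s : K →+* K) a)
  rw [cst_apply, map_symm, Finset.sum_eq_single j (fun l _ hl => by
    rw [hz l hl, Nat.cast_zero, zero_mul]) (fun h => absurd (Finset.mem_univ _) h), hmij,
    Nat.cast_one, one_mul] at h1
  exact h1.symm

/-- the conjugate character -/
noncomputable def galF (s : K ≃+* K) (i : Ir K A) : Ir K A := (exists_gal s i).choose

theorem galF_spec (s : K ≃+* K) (i : Ir K A) (a : MonoidAlgebra K A) :
    chi (galF s i) (mapRingHom A (s : K →+* K) a) = s (chi i a) := (exists_gal s i).choose_spec a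

theorem galF_inj (s : K ≃+* K) : Function.Injective (galF (A := A) s) := by
  intro i j h
  refine chi_inj fun a => ?_
  have h1 := galF_spec s i a
  rw [h, galF_spec] at h1
  exact (s.injective h1).symm

/-- the permutation of the irreducible characters given by an automorphism of `K` -/
noncomputable def gal (s : K ≃+* K) : Ir K A ≃ Ir K A :=
  Equiv.ofBijective (galF s) (Finite.injective_iff_bijective.1 (galF_inj s))

theorem gal_spec (s : K ≃+* K) (i : Ir K A) (a : MonoidAlgebra K A) :
    chi (gal s i) (mapRingHom A (s : K →+* K) a) = s (chi i a) := galF_spec s i a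

theorem dg_gal (s : K ≃+* K) (i : Ir K A) : dg (gal s i) = dg i := by
  have h1 := gal_spec s i 1
  rw [map_one, chi_one, chi_one, map_natCast] at h1
  exact_mod_cast h1

variable {O : Type*} [CommRing O] [Algebra O K]

theorem chO_gal (s : K ≃+* K) (hs : ∀ x : O, s (algebraMap O K x) = algebraMap O K x)
    (i : Ir K A) (a : MonoidAlgebra O A) : chO (gal s i) a = s (chO i a) := by
  rw [chO_apply, chO_apply, ← gal_spec]
  congr 1
  ext x
  rw [coeff_map, coeff_map, coeff_map]
  exact (hs _).symm

/-- the value of the conjugate character at `u e` is the value at `u ^ t e` -/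
theorem chO_gal_pow {D : Type*} [CommGroup D] [Fintype D] (φ : D →* A) {p m t : ℕ}
    (hD : ∀ u : D, u ^ p ^ m = 1) (s : K ≃+* K) (hst : ∀ x : K, x ^ p ^ m = 1 → s x = x ^ t)
    (i : Ir K A) {e : MonoidAlgebra O A} (h : e * e = e)
    (he : ∀ u, single (φ u) 1 * e = e * single (φ u) 1) (u : D) :
    s (chO i (single (φ u) 1 * e)) = chO i (single (φ (u ^ t)) 1 * e) := by
  obtain ⟨c, hc⟩ := honestO i φ h he
  rw [hc, hc, map_sum]
  refine Finset.sum_congr rfl fun l _ => ?_
  have h1 : chr l (u ^ t) = chr l u ^ t := by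
    unfold chr
    rw [map_pow, Units.val_pow_eq_pow_val]
  have h2 : chr l u ^ p ^ m = 1 := by
    have h3 : chr l (u ^ p ^ m) = chr l u ^ p ^ m := by
      unfold chr
      rw [map_pow, Units.val_pow_eq_pow_val]
    rw [← h3, hD, chr_at_one]
  rw [map_mul, map_natCast, hst _ h2, h1]

end gal

end Pool.Agent.Lib.P0c8ca5.Ex
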