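import Mathlib
import Pool.Agent.Lib.P0c8ca5Ex.OA

/-!
# GE: every group element is a combination of elements `v ε` with `v` of `p`-power order and
`ε` an idempotent of `O[C(v)]`

* `ep`: the idempotents of the cyclic group algebra;
* `single_dec`: the decomposition.
-/

namespace Pool.Agent.Lib.P0c8ca5.Ex

open MonoidAlgebra

section gen
variable {R : Type*} [CommRing R] {B : Type*} [Ring B] [Algebra R B]

/-- the `j`-th idempotent belonging to the element `Y` with `Y ^ m = 1` -/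
noncomputable def ep (m : ℕ) (w z : R) (Y : B) (j : ℕ) : B :=
  w • ∑ i ∈ Finset.range m, ((z ^ (j * (m - 1))) ^ i) • Y ^ i

theorem mul_ep {m : ℕ} {w z : R} {Y : B} (hm : 0 < m) (hz : z ^ m = 1) (hY : Y ^ m = 1) (j : ℕ) :
    Y * ep m w z Y j = z ^ j • ep m w z Y j := by
  have hc : z ^ j * z ^ (j * (m - 1)) = 1 := by
    rw [← pow_add]
    have h1 : j + j * (m - 1) = m * j := by
      obtain ⟨n, rfl⟩ : ∃ n, m = n + 1 := ⟨m - 1, by omega⟩
      simp only [Nat.add_sub_cancel]
      ring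
    rw [h1, pow_mul, hz, one_pow]
  set c : R := z ^ (j * (m - 1)) with hcd
  have hcm : c ^ m = 1 := by
    rw [hcd, ← pow_mul, mul_comm (j * (m - 1)) m, pow_mul, hz, one_pow]
  have h2 : ∑ i ∈ Finset.range m, (c ^ (i + 1)) • Y ^ (i + 1) =
      ∑ i ∈ Finset.range m, (c ^ i) • Y ^ i := by
    have h3 := Finset.sum_range_succ' (fun i => (c ^ i) • Y ^ i) m
    have h4 := Finset.sum_range_succ (fun i => (c ^ i) • Y ^ i) m
    rw [h3] at h4
    simp only [pow_zero, hcm, hY] at h4
    exact add_right_cancel h4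
  rw [ep, mul_smul_comm, smul_comm (z ^ j) w, ← hcd]
  congr 1
  rw [Finset.mul_sum, ← h2, Finset.smul_sum]
  refine Finset.sum_congr rfl fun i _ => ?_
  rw [mul_smul_comm, smul_smul, pow_succ' c i, ← mul_assoc, hc, one_mul, pow_succ' Y i]

theorem pow_mul_ep {m : ℕ} {w z : R} {Y : B} (hm : 0 < m) (hz : z ^ m = 1) (hY : Y ^ m = 1)
    (j i : ℕ) : Y ^ i * ep m w z Y j = (z ^ j) ^ i • ep m w z Y j := by
  induction i with
  | zero => simp
  | succ i ih =>
    rw [pow_succ', mul_assoc, ih, mul_smul_comm, mul_ep hm hz hY, smul_smul, pow_succ]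

theorem ep_idem {m : ℕ} {w z : R} {Y : B} (hm : 0 < m) (hw : w * m = 1) (hz : z ^ m = 1)
    (hY : Y ^ m = 1) (j : ℕ) : ep m w z Y j * ep m w z Y j = ep m w z Y j := by
  have hc : z ^ (j * (m - 1)) * z ^ j = 1 := by
    rw [← pow_add]
    have h1 : j * (m - 1) + j = m * j := by
      obtain ⟨n, rfl⟩ : ∃ n, m = n + 1 := ⟨m - 1, by omega⟩
      simp only [Nat.add_sub_cancel]
      ring
    rw [h1, pow_mul, hz, one_pow]
  conv_lhs => rw [show ep m w z Y j * ep m w z Y j =
    (w • ∑ i ∈ Finset.range m, ((z ^ (j * (m - 1))) ^ i) • Y ^ i) * ep m w z Y j from rfl]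
  rw [smul_mul_assoc, Finset.sum_mul]
  have h : ∀ i ∈ Finset.range m, (((z ^ (j * (m - 1))) ^ i) • Y ^ i) * ep m w z Y j =
      ep m w z Y j := by
    intro i _
    rw [smul_mul_assoc, pow_mul_ep hm hz hY, smul_smul, ← mul_pow, hc, one_pow, one_smul]
  rw [Finset.sum_congr rfl h, Finset.sum_const, Finset.card_range, ← Nat.cast_smul_eq_nsmul R,
    smul_smul, hw, one_smul]

theorem sum_ep [IsDomain R] {m : ℕ} {w z : R} {Y : B} (hm : 0 < m) (hw : w * m = 1)
    (hz : IsPrimitiveRoot z m) : ∑ j ∈ Finset.range m, ep m w z Y j = 1 := by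
  simp only [ep]
  rw [← Finset.smul_sum, Finset.sum_comm]
  have h : ∀ i ∈ Finset.range m, ∑ j ∈ Finset.range m, ((z ^ (j * (m - 1))) ^ i) • Y ^ i =
      if i = 0 then (m : R) • (1 : B) else 0 := by
    intro i hi
    rw [Finset.mem_range] at hi
    split_ifs with h0
    · subst h0
      simp only [pow_zero, one_smul, Finset.sum_const, Finset.card_range]
      rw [Nat.cast_smul_eq_nsmul]
    · rw [← Finset.sum_smul]
      have h1 : ∑ j ∈ Finset.range m, (z ^ (j * (m - 1))) ^ i =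
          ∑ j ∈ Finset.range m, (z ^ ((m - 1) * i)) ^ j := by
        refine Finset.sum_congr rfl fun j _ => ?_
        rw [← pow_mul, ← pow_mul]
        congr 1
        ring
      have hx : z ^ ((m - 1) * i) ≠ 1 := by
        intro hx
        have h2 := (hz.pow_eq_one_iff_dvd _).1 hx
        have h3 : m.Coprime (m - 1) := by
          obtain ⟨n, rfl⟩ : ∃ n, m = n + 1 := ⟨m - 1, by omega⟩
          simp
        have h4 := h3.dvd_of_dvd_mul_left h2
        exact h0 (Nat.eq_zero_of_dvd_of_lt h4 hi)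
      have h5 : (z ^ ((m - 1) * i) - 1) * ∑ j ∈ Finset.range m, (z ^ ((m - 1) * i)) ^ j = 0 := by
        rw [mul_geom_sum, ← pow_mul, mul_comm ((m - 1) * i) m, pow_mul, hz.pow_eq_one, one_pow,
          sub_self]
      rcases mul_eq_zero.1 h5 with h6 | h6
      · exact absurd (sub_eq_zero.1 h6) hx
      · rw [h1, h6, zero_smul]
  rw [Finset.sum_congr rfl h, Finset.sum_ite_eq' (Finset.range m) 0,
    if_pos (Finset.mem_range.2 hm), smul_smul, hw, one_smul]

theorem eq_sum_ep [IsDomain R] {m : ℕ} {w z : R} {Y : B} (hm : 0 < m) (hw : w * m = 1)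
    (hz : IsPrimitiveRoot z m) (hY : Y ^ m = 1) :
    Y = ∑ j ∈ Finset.range m, z ^ j • ep m w z Y j := by
  conv_lhs => rw [← mul_one Y, ← sum_ep (Y := Y) hm hw hz, Finset.mul_sum]
  exact Finset.sum_congr rfl fun j _ => mul_ep hm hz.pow_eq_one hY j

end gen

section W
variable {p : ℕ} [Fact p.Prime] {k : Type*} [Field k] [IsAlgClosed k] [CharP k p]

/-- `W(k)` contains the primitive `m`-th roots of unity, `m` prime to `p` -/
theorem exists_prootO {m : ℕ} (hm : ¬ p ∣ m) : ∃ z : OW p k, IsPrimitiveRoot z m := by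
  have hm' : (m : k) ≠ 0 := fun h => hm ((CharP.cast_eq_zero_iff k p m).1 h)
  have : NeZero (m : k) := ⟨hm'⟩
  obtain ⟨z, hz⟩ := HasEnoughRootsOfUnity.exists_primitiveRoot k m
  refine ⟨WittVector.teichmuller p z, hz.map_of_injective (f := WittVector.teichmuller p) ?_⟩
  intro x y h
  have h1 := congrArg (fun a : OW p k => a.coeff 0) h
  simpa using h1

variable {A : Type*} [Group A] [Finite A]

/-- every group element is a combination of elements `v ε`, `v` of `p`-power order, `ε` an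
idempotent of `O[C(v)]` -/
theorem single_dec (g : A) : ∃ (v : A) (M n : ℕ) (ζ : Fin n → OW p k)
    (ε : Fin n → MonoidAlgebra (OW p k) ↥(C1 v)), v ^ p ^ M = 1 ∧ (∀ j, ε j * ε j = ε j) ∧
    (single g 1 : MonoidAlgebra (OW p k) A) =
      ∑ j, ζ j • (single v 1 * upr (C1 v) (ε j)) := by
  classical
  have hp : p.Prime := Fact.out
  -- the `p`-part and the `p'`-part
  obtain ⟨M, m, hpm, hgo⟩ := Nat.exists_eq_pow_mul_and_not_dvd (orderOf_pos g).ne' p hp.ne_one
  have hm0 : 0 < m := Nat.pos_of_ne_zero fun h => hpm (h ▸ dvd_zero p)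
  have hcop : Nat.Coprime (p ^ M) m := Nat.Coprime.pow_left M ((hp.coprime_iff_not_dvd).2 hpm)
  obtain ⟨a, b, hab⟩ := (Nat.isCoprime_iff_coprime.2 hcop)
  set v : A := g ^ (b * (m : ℤ)) with hv
  set y : A := g ^ (a * ((p ^ M : ℕ) : ℤ)) with hy
  have hgy : g = v * y := by
    rw [hv, hy, ← zpow_add, add_comm, hab, zpow_one]
  have hvp : v ^ p ^ M = 1 := by
    rw [hv, ← zpow_natCast, ← zpow_mul]
    have h1 : b * (m : ℤ) * ((p ^ M : ℕ) : ℤ) = (orderOf g : ℤ) * b := by
      rw [hgo]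
      push_cast
      ring
    rw [h1, zpow_mul, zpow_natCast, pow_orderOf_eq_one, one_zpow]
  have hym : y ^ m = 1 := by
    rw [hy, ← zpow_natCast, ← zpow_mul]
    have h1 : a * ((p ^ M : ℕ) : ℤ) * (m : ℤ) = (orderOf g : ℤ) * a := by
      rw [hgo]
      push_cast
      ring
    rw [h1, zpow_mul, zpow_natCast, pow_orderOf_eq_one, one_zpow]
  have hcom : y ∈ C1 v := by
    rw [Subgroup.mem_centralizer_singleton_iff, hv, hy, ← zpow_add, ← zpow_add, add_comm]
  obtain ⟨z, hz⟩ := exists_prootO (p := p) (k := k) hpm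
  have hmk : rdO p k (m : OW p k) ≠ 0 := by
    rw [map_natCast]
    exact fun h => hpm ((CharP.cast_eq_zero_iff k p m).1 h)
  obtain ⟨w, hw⟩ := (unitO hmk).exists_left_inv
  set Y : MonoidAlgebra (OW p k) ↥(C1 v) := single ⟨y, hcom⟩ 1 with hYd
  have hYm : Y ^ m = 1 := by
    rw [hYd, MonoidAlgebra.single_pow, one_pow, MonoidAlgebra.one_def]
    congr 1
    exact Subtype.ext hym
  refine ⟨v, M, m, fun j => z ^ (j : ℕ), fun j => ep m w z Y j, hvp,
    fun j => ep_idem hm0 hw hz.pow_eq_one hYm j, ?_⟩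
  have h1 : (single g 1 : MonoidAlgebra (OW p k) A) = single v 1 * upr (C1 v) Y := by
    rw [hYd, upr_single, single_mul_single, one_mul, ← hgy]
  rw [h1]
  conv_lhs => rw [eq_sum_ep (Y := Y) hm0 hw hz hYm]
  rw [map_sum, Finset.mul_sum, Finset.sum_range]
  refine Finset.sum_congr rfl fun j _ => ?_
  rw [map_smul, mul_smul_comm]

end W

end Pool.Agent.Lib.P0c8ca5.Ex
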