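import Mathlib
import Pool.Agent.Lib.P0c8ca5Ex.OB
import Pool.Agent.Lib.P0c8ca5Ex.TC
import Pool.Agent.Lib.P0c8ca5R.Defs
import Pool.Agent.Lib.P0c8ca5.Sect

/-!
# NI: the trace of `x ↦ I x I` on `O[A/D]` for a central subgroup `D`

If the image `J` of `I` in `k[A/D]` is not `0` and `J x J` is a multiple of `J` for all `x` then
the trace is `1`.
-/

namespace Pool.Agent.Lib.P0c8ca5.Ex

open MonoidAlgebra

set_option linter.unusedSectionVars false

section mat
variable {O : Type*} [CommRing O] {A : Type*} [Group A] [Fintype A] {D : Subgroup A} [Fintype ↥D]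

/-- the matrix of `x ↦ I x I` on `O[A/D]` -/
noncomputable def mD (D : Subgroup A) [Fintype ↥D] (I : MonoidAlgebra O A) (g h : A) : O :=
  ∑ v : ↥D, (I * single h 1 * I).coeff (g * v)

theorem mD_left (I : MonoidAlgebra O A) (g h : A) (d : ↥D) : mD D I (g * d) h = mD D I g h := by
  refine Eq.trans (Finset.sum_congr rfl fun v _ => ?_)
    (Equiv.sum_comp (Equiv.mulLeft d) fun v : ↥D => (I * single h 1 * I).coeff (g * (v : A)))
  rw [Equiv.coe_mulLeft, Subgroup.coe_mul, mul_assoc g]

theorem mD_right (hcen : ∀ d ∈ D, ∀ a : A, d * a = a * d) (I : MonoidAlgebra O A) (g h : A)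
    (d : ↥D) : mD D I g (h * d) = mD D I g h := by
  have h1 : I * single (h * (d : A)) (1 : O) * I = I * single h 1 * I * single (d : A) 1 := by
    have h2 : single (h * (d : A)) (1 : O) = single h 1 * single (d : A) 1 := by
      rw [single_mul_single, one_mul]
    have h3 : single (d : A) 1 * I = I * single (d : A) (1 : O) := by
      rw [← cjr_eq_iff]
      ext y
      rw [coeff_cjr, mul_assoc, ← hcen d d.2 y, inv_mul_cancel_left]
    rw [h2, mul_assoc I, mul_assoc (single h 1), h3, ← mul_assoc, ← mul_assoc]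
  refine Eq.trans (Finset.sum_congr rfl fun v _ => ?_)
    (Equiv.sum_comp (Equiv.mulRight d⁻¹) fun v : ↥D => (I * single h 1 * I).coeff (g * (v : A)))
  rw [h1, coeff_mul_single_apply, mul_one, Equiv.coe_mulRight, Subgroup.coe_mul, mul_assoc g,
    InvMemClass.coe_inv]

open Rk in
/-- sums over the group by cosets -/
theorem sum_reps {M : Type*} [AddCommMonoid M] {X : Finset A} (hX : Reps X ⊤ D) (F : A → M) :
    ∑ y, F y = ∑ x ∈ X, ∑ w : ↥D, F (x * w) := by
  classical
  rw [← Finset.sum_product']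
  symm
  refine Finset.sum_bij (fun (z : A × ↥D) _ => z.1 * (z.2 : A)) (fun _ _ => Finset.mem_univ _)
    ?_ ?_ (fun _ _ => rfl)
  · rintro ⟨x, w⟩ hx ⟨y, t⟩ hy hxy
    rw [Finset.mem_product] at hx hy
    have h1 : x * (w : A) = y * t := hxy
    obtain ⟨r, _, hr⟩ := hX.uniq (x * w) (Subgroup.mem_top _)
    have e1 : x = r := hr x ⟨hx.1, by rw [inv_mul_cancel_left]; exact w.2⟩
    have e2 : y = r := hr y ⟨hy.1, by rw [h1, inv_mul_cancel_left]; exact t.2⟩
    have e3 : x = y := e1.trans e2.symm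
    subst e3
    have e4 : w = t := Subtype.ext (mul_left_cancel h1)
    rw [e4]
  · intro g _
    obtain ⟨r, ⟨hr, hrD⟩, _⟩ := hX.uniq g (Subgroup.mem_top _)
    exact ⟨(r, ⟨r⁻¹ * g, hrD⟩), Finset.mem_product.2 ⟨hr, Finset.mem_univ _⟩,
      mul_inv_cancel_left _ _⟩

open Rk in
theorem mD_idem (hcen : ∀ d ∈ D, ∀ a : A, d * a = a * d) {X : Finset A} (hX : Reps X ⊤ D)
    {I : MonoidAlgebra O A} (hI : I * I = I) (g h : A) :
    ∑ x ∈ X, mD D I g x * mD D I x h = mD D I g h := by
  have h1 : ∀ x ∈ X, mD D I g x * mD D I x h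
      = ∑ w : ↥D, mD D I g (x * w) * (I * single h 1 * I).coeff (x * w) := by
    intro x _
    rw [mD, mD, Finset.mul_sum]
    refine Finset.sum_congr rfl fun w _ => ?_
    rw [mD_right hcen]
    rfl
  rw [Finset.sum_congr rfl h1]
  refine (sum_reps hX fun y => mD D I g y * (I * single h 1 * I).coeff y).symm.trans ?_
  unfold mD
  simp only [Finset.sum_mul]
  rw [Finset.sum_comm]
  refine Finset.sum_congr rfl fun v _ => ?_
  rw [← cf_lin]
  have e : I * (I * single h 1 * I) * I = I * single h 1 * I := by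
    calc I * (I * single h 1 * I) * I = (I * I) * single h 1 * (I * I) := by simp only [mul_assoc]
      _ = _ := by rw [hI]
  rw [e]

end mat

section rank
variable {p : ℕ} [Fact p.Prime] {k : Type*} [Field k] [IsAlgClosed k] [CharP k p]
variable {A : Type*} [Group A] [Fintype A] {D : Subgroup A} [Fintype ↥D]

theorem coeff_proj_D (a : MonoidAlgebra k A) {n : A} (hn : n ∈ Subgroup.normalizer (D : Set A)) :
    (proj D a).coeff (qm D n hn) = ∑ v : ↥D, a.coeff (n * v) := by
  classical
  rw [coeff_proj, ← Finset.sum_filter]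
  symm
  refine Finset.sum_bij (fun (v : ↥D) _ => n * (v : A)) ?_ ?_ ?_ (fun _ _ => rfl)
  · intro v _
    rw [Finset.mem_filter, inv_mul_cancel_left]
    exact ⟨Finset.mem_univ _, v.2⟩
  · intro v _ w _ h
    exact Subtype.ext (mul_left_cancel h)
  · intro x hx
    rw [Finset.mem_filter] at hx
    exact ⟨⟨n⁻¹ * x, hx.2⟩, Finset.mem_univ _, mul_inv_cancel_left _ _⟩

theorem rd_mD (I : MonoidAlgebra (OW p k) A) {i : MonoidAlgebra k A}
    (hi : mapRingHom A (rdO p k) I = i) {g : A} (hg : g ∈ Subgroup.normalizer (D : Set A)) (h : A) :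
    rdO p k (mD D I g h) = (proj D (i * single h 1 * i)).coeff (qm D g hg) := by
  rw [coeff_proj_D, mD, map_sum]
  refine Finset.sum_congr rfl fun v _ => ?_
  have h3 : mapRingHom A (rdO p k) (I * single h 1 * I) = i * single h 1 * i := by
    rw [map_mul (mapRingHom A (rdO p k)), map_mul (mapRingHom A (rdO p k)), map_single,
      map_one, hi]
  rw [← h3]
  rfl

theorem mat_zero {X : Type*} [Fintype X] [DecidableEq X] {M : Matrix X X k} (h : M.rank = 0) :
    M = 0 := by
  rw [Matrix.rank, Submodule.finrank_eq_zero, LinearMap.range_eq_bot] at h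
  exact (LinearEquiv.map_eq_zero_iff Matrix.toLin').1 h

theorem cen_normalizer (hcen : ∀ d ∈ D, ∀ a : A, d * a = a * d) (x : A) :
    x ∈ Subgroup.normalizer (D : Set A) := by
  rw [Subgroup.mem_normalizer_iff]
  intro d
  constructor
  · intro hd
    rwa [← hcen d hd, mul_inv_cancel_right]
  · intro hd
    have h2 := hcen _ hd x
    have h3 : d = x * d * x⁻¹ := by
      have h4 : x * d * x⁻¹ * x = x * (x * d * x⁻¹) := h2
      rw [inv_mul_cancel_right] at h4
      exact mul_left_cancel h4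
    rw [h3]
    exact hd

open Rk in
/-- the trace is `1` -/
theorem tX_one (hD : IsPGroup p D) (hcen : ∀ d ∈ D, ∀ a : A, d * a = a * d) {X : Finset A}
    (hX : Reps X ⊤ D) {I : MonoidAlgebra (OW p k) A} (hI : I * I = I) {i : MonoidAlgebra k A}
    (hi : mapRingHom A (rdO p k) I = i) (h0 : proj D i ≠ 0)
    (h1 : ∀ x : A, ∃ c : k, proj D i * proj D (single x 1) * proj D i = c • proj D i) :
    ∑ q ∈ X, ∑ v : ↥D, (I * single q 1 * I).coeff (q * v) = 1 := by
  classical
  have hN := cen_normalizer hcen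
  have hinv : ∀ a : MonoidAlgebra k A, InvBy D a := by
    intro a d hd x
    rw [hcen d hd, mul_inv_cancel_right]
  choose c hc using h1
  let E : Matrix ↥X ↥X (OW p k) := fun g h => mD D I (g : A) (h : A)
  have hE : E * E = E := by
    refine Matrix.ext fun g h => ?_
    rw [Matrix.mul_apply]
    have h2 := mD_idem hcen hX hI (g : A) (h : A)
    rw [← Finset.sum_coe_sort X (fun x => mD D I (g : A) x * mD D I x (h : A))] at h2
    exact h2
  have hred : ∀ g h : A, rdO p k (mD D I g h) = (proj D i).coeff (qm D g (hN g)) * c h := by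
    intro g h
    rw [rd_mD I hi (hN g), proj_mul hD (hinv _) (hinv _), proj_mul hD (hinv _) (hinv _), hc,
      coeff_smul, Finsupp.smul_apply, smul_eq_mul, mul_comm]
  have hmap : E.map (rdO p k)
      = Matrix.vecMulVec (fun g : ↥X => (proj D i).coeff (qm D (g : A) (hN g)))
        (fun h : ↥X => c (h : A)) := by
    refine Matrix.ext fun g h => ?_
    exact hred g h
  have h3 : (E.map (rdO p k)).rank ≤ 1 := by
    rw [hmap]
    exact Matrix.rank_vecMulVec_le _ _
  have h4 : (E.map (rdO p k)).rank ≠ 0 := by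
    intro h5
    have h6 := mat_zero h5
    apply h0
    obtain ⟨q, ⟨hq, hqD⟩, _⟩ := hX.uniq 1 (Subgroup.mem_top _)
    have h7 : ∀ x : A, rdO p k (mD D I x 1) = 0 := by
      intro x
      obtain ⟨r, ⟨hr, hrD⟩, _⟩ := hX.uniq x (Subgroup.mem_top _)
      have e1 : mD D I x 1 = mD D I r q := by
        have e2 := mD_right hcen I x q ⟨q⁻¹ * 1, hqD⟩
        have e3 := mD_left I r q ⟨r⁻¹ * x, hrD⟩
        change mD D I x (q * (q⁻¹ * 1)) = mD D I x q at e2
        change mD D I (r * (r⁻¹ * x)) q = mD D I r q at e3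
        rw [mul_inv_cancel_left] at e2 e3
        rw [e2, e3]
      rw [e1]
      exact congrFun (congrFun h6 ⟨r, hr⟩) ⟨q, hq⟩
    have hii : i * i = i := by
      rw [← hi, ← map_mul, hI]
    ext w
    obtain ⟨x, hx, rfl⟩ := qm_surj w
    have h8 := h7 x
    rw [rd_mD I hi hx, ← one_def, mul_one, hii] at h8
    exact h8
  have hrk : (E.map (rdO p k)).rank = 1 := by omega
  have htr := trace_rankO E hE
  rw [hrk, Nat.cast_one] at htr
  have e1 : E.trace = ∑ g : ↥X, mD D I (g : A) (g : A) := rfl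
  rw [e1, Finset.sum_coe_sort X (fun g => mD D I g g)] at htr
  have e2 : ∀ q ∈ X, ∑ v : ↥D, (I * single q 1 * I).coeff (q * (v : A)) = mD D I q q :=
    fun _ _ => rfl
  rw [Finset.sum_congr rfl e2]
  exact htr

end rank

end Pool.Agent.Lib.P0c8ca5.Ex
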