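import Mathlib
import Pool.Agent.Lib.P0c8ca5Ex.ND
import Pool.Agent.Lib.P0c8ca5Ex.Br
import Pool.Agent.Lib.P0c8ca5R.Defs
import Pool.Agent.Lib.P0c8ca5C.TrW

/-!
# NG: the sum of the squares of the values at `(1, I)`

`sq_sum`: for an idempotent `I` of `O[A]` commuting with the abelian p-subgroup `D` the sum of the
squares of the `chO χ I` is `|D| * a`, `a` a natural number which is the trace
`tX X D I = ∑ q ∈ X, ∑ v, (I q I).coeff (q v)`.
-/

namespace Pool.Agent.Lib.P0c8ca5.Ex

open MonoidAlgebra Rk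

set_option linter.unusedSectionVars false

/-- the trace of the idempotent `a` on the cosets of `D` -/
noncomputable def tX {R : Type*} [CommRing R] {A : Type*} [Group A] (X : Finset A)
    (D : Subgroup A) [Fintype ↥D] (a : MonoidAlgebra R A) : R :=
  ∑ q ∈ X, ∑ v : ↥D, (a * single q 1 * a).coeff (q * v)

section ring
variable {R : Type*} [CommRing R] {A : Type*} [Group A]

/-- sums over `A` of functions constant on the cosets `x D` -/
theorem sum_cosets [Fintype A] {D : Subgroup A} [Fintype ↥D] {X : Finset A} (hX : Reps X ⊤ D)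
    (s : A → R) (hs : ∀ x, ∀ d ∈ D, s (x * d) = s x) :
    ∑ x, s x = (Fintype.card ↥D : R) * ∑ q ∈ X, s q := by
  classical
  have h1 : ∑ q ∈ X, ∑ d : ↥D, s (q * d) = (Fintype.card ↥D : R) * ∑ q ∈ X, s q := by
    rw [Finset.mul_sum]
    refine Finset.sum_congr rfl fun q _ => ?_
    rw [Finset.sum_congr rfl fun (d : ↥D) _ => hs q d d.2, Finset.sum_const, Finset.card_univ,
      nsmul_eq_mul]
  rw [← h1, ← Finset.sum_product']
  symm
  refine Finset.sum_bij (fun x _ => x.1 * (x.2 : A)) ?_ ?_ ?_ ?_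
  · intro x _
    exact Finset.mem_univ _
  · rintro ⟨q, d⟩ hx ⟨q', d'⟩ hx' h
    rw [Finset.mem_product] at hx hx'
    change q * (d : A) = q' * d' at h
    obtain ⟨r, -, hr⟩ := hX.uniq (q * d) (Subgroup.mem_top _)
    have h2 : q = r := hr q ⟨hx.1, by rw [inv_mul_cancel_left]; exact d.2⟩
    have h3 : q' = r := hr q' ⟨hx'.1, by rw [h, inv_mul_cancel_left]; exact d'.2⟩
    have h4 : q = q' := h2.trans h3.symm
    subst h4
    rw [Subtype.ext (mul_left_cancel h)]
  · intro x _
    obtain ⟨q, ⟨hq, hq'⟩, -⟩ := hX.uniq x (Subgroup.mem_top _)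
    exact ⟨(q, ⟨q⁻¹ * x, hq'⟩), Finset.mem_product.2 ⟨hq, Finset.mem_univ _⟩,
      mul_inv_cancel_left _ _⟩
  · rintro ⟨q, d⟩ _
    rfl

/-- the function `x ↦ ∑ v, (I x I).coeff (x v)` is constant on the cosets -/
theorem coset_const {D : Subgroup A} [Fintype ↥D] (hcom : ∀ x ∈ D, ∀ y ∈ D, x * y = y * x)
    {I : MonoidAlgebra R A} (hc : ∀ d ∈ D, single d 1 * I = I * single d (1 : R)) (x : A)
    {d : A} (hd : d ∈ D) : ∑ v : ↥D, (I * single (x * d) 1 * I).coeff (x * d * v)
      = ∑ v : ↥D, (I * single x 1 * I).coeff (x * v) := by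
  refine Finset.sum_congr rfl fun v _ => ?_
  have h1 : I * single (x * d) (1 : R) * I = I * single x 1 * I * single d 1 := by
    have h2 : single (x * d) (1 : R) = single x 1 * single d 1 := by
      rw [single_mul_single, one_mul]
    rw [h2, ← mul_assoc I (single x 1) (single d 1), mul_assoc _ (single d 1) I, hc d hd,
      ← mul_assoc]
  rw [h1, coeff_mul_single_apply, mul_one]
  congr 1
  rw [mul_assoc x d v, hcom d hd v v.2, ← mul_assoc, mul_inv_cancel_right]

end ring

section
variable {p : ℕ} [Fact p.Prime] {k : Type*} [Field k] [IsAlgClosed k] [CharP k p]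
  {A : Type*} [Group A] [Finite A]

/-- the local idempotents -/
theorem exists_loc {D : Subgroup A} (hD : IsPGroup p D) {I : MonoidAlgebra (OW p k) A}
    (hI : I * I = I) (hc : ∀ d ∈ D, single d 1 * I = I * single d (1 : OW p k)) {v : A}
    (hv : v ∈ D) : ∃ E : MonoidAlgebra (OW p k) ↥(C1 v), E * E = E ∧
      ∀ c : ↥(C1 v), (p : OW p k) ∣ I.coeff (c : A) - E.coeff c := by
  set i : MonoidAlgebra k A := mapRingHom A (rdO p k) I with hi
  have hii : i * i = i := by rw [hi, ← map_mul, hI]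
  have hinv : InvBy D i := by
    rw [invBy_iff_cj]
    intro d hd
    rw [← cjr_eq_cj, hi, ← map_cjr, (cjr_eq_iff d I).2 (hc d hd)]
  have hQ : Subgroup.zpowers v ≤ D := (Subgroup.zpowers_le).2 hv
  have h1 := resS_CD_mul hQ hD hinv hinv
  rw [hii, CD_zpowers] at h1
  have hs : SuppIn (C1 v) (resS (C1 v : Set A) i) := by
    intro x hx
    by_contra h
    exact hx (coeff_resS_of_notMem i h)
  have h2 := Cy.dn_idem hs h1.symm
  obtain ⟨E, hE, hE', -⟩ := lift_idem (p := p) h2
  refine ⟨E, hE, fun c => ?_⟩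
  rw [← rdO_eq_zero, map_sub, sub_eq_zero]
  have h3 := congrArg (fun z : MonoidAlgebra k ↥(C1 v) => z.coeff c) hE'
  simp only [coeff_map] at h3
  rw [h3, coeff_dn, coeff_resS_of_mem _ c.2]
  rfl

/-- **the sum of the squares** -/
theorem sq_sum {D : Subgroup A} [Fintype ↥D] (hD : IsPGroup p D)
    (hcom : ∀ x ∈ D, ∀ y ∈ D, x * y = y * x) {X : Finset A} (hX : Reps X ⊤ D)
    {I : MonoidAlgebra (OW p k) A} (hI : I * I = I)
    (hc : ∀ d ∈ D, single d 1 * I = I * single d (1 : OW p k)) :
    ∃ a : ℕ, (∑ χ : Ir (KW p k) A, chO χ I * chO χ I = (Nat.card D : KW p k) * (a : KW p k)) ∧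
      tX X D I = (a : OW p k) ∧ tX X D (mapRingHom A (rdO p k) I) = (a : k) := by
  classical
  have := Fintype.ofFinite A
  obtain ⟨M, hM⟩ := hD.exists_card_eq
  have hpow : ∀ v ∈ D, v ^ p ^ M = 1 := by
    intro v hv
    have h1 : (⟨v, hv⟩ : ↥D) ^ Nat.card D = 1 := pow_card_eq_one'
    rw [hM] at h1
    exact congrArg Subtype.val h1
  -- the sum with the twists
  have hz : ∀ v : ↥D, v ≠ 1 →
      ∑ χ : Ir (KW p k) A, chO χ I * chO χ (I * single (v : A)⁻¹ (1 : OW p k)) = 0 := by
    intro v hv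
    obtain ⟨E, hE, hE'⟩ := exists_loc hD hI hc v.2
    have h1 : ∀ x : A, x ∈ C1 (1 : A) := by
      intro x
      rw [mem_C1, one_mul, mul_one]
    have hup : upr (C1 (1 : A)) (dnr (C1 (1 : A)) I) = I := upr_dnr fun x _ => h1 x
    have h2 := tp_chi_zero (K := KW p k) (u := (1 : A)) (v := (v : A)) (M := M)
      (one_pow _) (hpow v v.2) (sepO (p := p) (k := k)) (e1 := I) (e2 := I)
      (e1' := dnr (C1 (1 : A)) I) (e2' := E) hI hI (by
        apply upr_injective (C1 (1 : A))
        rw [map_mul, hup, hI]) hE (by rw [← one_def, one_mul, mul_one]) (hc v v.2)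
      (fun c => by rw [coeff_dnr, sub_self]; exact dvd_zero _) hE' (fun x h => by
        apply hv
        rw [one_mul] at h
        exact Subtype.ext (mul_eq_left.1 h.symm))
    rw [← one_def, one_mul] at h2
    exact h2
  have h1 : ∑ χ : Ir (KW p k) A, chO χ I * chO χ I
      = ∑ v : ↥D, ∑ χ : Ir (KW p k) A,
        chO χ I * chO χ (I * single (v : A)⁻¹ (1 : OW p k)) := by
    rw [Finset.sum_eq_single (1 : ↥D)]
    · rw [OneMemClass.coe_one, inv_one, ← one_def, mul_one]
    · intro v _ hv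
      exact hz v hv
    · intro h
      exact absurd (Finset.mem_univ _) h
  have h2 : ∑ χ : Ir (KW p k) A, chO χ I * chO χ I
      = algebraMap (OW p k) (KW p k) (∑ x, ∑ v : ↥D, (I * single x 1 * I).coeff (x * v)) := by
    rw [h1, Finset.sum_comm (s := (Finset.univ : Finset A)), map_sum]
    refine Finset.sum_congr rfl fun v _ => ?_
    rw [bimO]
    congr 1
    refine Finset.sum_congr rfl fun x _ => ?_
    rw [← mul_assoc, coeff_mul_single_apply, mul_one, inv_inv]
  rw [sum_cosets hX _ (fun x d hd => coset_const hcom hc x hd)] at h2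
  -- the left side is a natural number
  choose n hn using fun χ : Ir (KW p k) A => chO_nat hI χ
  have h3 : ∑ χ : Ir (KW p k) A, chO χ I * chO χ I = ((∑ χ, n χ * n χ : ℕ) : KW p k) := by
    push_cast
    exact Finset.sum_congr rfl fun χ _ => by rw [hn]
  have h4 : ((∑ χ, n χ * n χ : ℕ) : OW p k) = (Fintype.card ↥D : OW p k) * tX X D I := by
    apply algO_inj (p := p) (k := k)
    rw [map_natCast, ← h3, h2]
    rfl
  have hcard : Fintype.card ↥D = p ^ M := by rw [← Nat.card_eq_fintype_card, hM]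
  have h5 : p ^ M ∣ ∑ χ, n χ * n χ := by
    rw [← natO_dvd (p := p) (k := k), h4, hcard]
    push_cast
    exact dvd_mul_right _ _
  obtain ⟨a, ha⟩ := h5
  have h6 : tX X D I = (a : OW p k) := by
    rw [ha, hcard] at h4
    push_cast at h4
    exact (mul_left_cancel₀ (pow_ne_zero M (p_ne (p := p) (k := k))) h4).symm
  refine ⟨a, ?_, h6, ?_⟩
  · rw [h3, ha, hM]
    push_cast
    rfl
  · have h7 : tX X D (mapRingHom A (rdO p k) I) = rdO p k (tX X D I) := by
      rw [tX, tX, map_sum]
      refine Finset.sum_congr rfl fun q _ => ?_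
      rw [map_sum]
      refine Finset.sum_congr rfl fun v _ => ?_
      rw [← coeff_map, map_mul (mapRingHom A (rdO p k)), map_mul (mapRingHom A (rdO p k)), map_single,
        map_one]
    rw [h7, h6, map_natCast]

end

end Pool.Agent.Lib.P0c8ca5.Ex
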