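import Mathlib
import Pool.Agent.Lib.P0c8ca5Ex.ND
import Pool.Agent.Lib.P0c8ca5Ex.OB
import Pool.Agent.Lib.P0c8ca5R.Defs

/-!
# NH: the generalized character values at `(u, i)` do not vanish

`chO_ne`: if the relative trace of `u i` is invertible in the block then `chO χ (u I) ≠ 0` for
the characters `χ` in the block.
-/

namespace Pool.Agent.Lib.P0c8ca5.Ex

open MonoidAlgebra Rk

set_option linter.unusedSectionVars false

section ring
variable {R : Type*} [CommRing R] {A : Type*} [Group A]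

theorem cjr_zero (g : A) : cjr g (0 : MonoidAlgebra R A) = 0 := by
  rw [cjr, mul_zero, zero_mul]

theorem cjr_sum {ι : Type*} (X : Finset ι) (g : A) (f : ι → MonoidAlgebra R A) :
    cjr g (∑ q ∈ X, f q) = ∑ q ∈ X, cjr g (f q) := by
  rw [cjr, Finset.mul_sum, Finset.sum_mul]
  rfl

/-- relative traces are central -/
theorem cjr_rel {D : Subgroup A} {X : Finset A} (hX : Reps X ⊤ D) {a : MonoidAlgebra R A}
    (ha : ∀ d ∈ D, cjr d a = a) (g : A) : cjr g (∑ q ∈ X, cjr q a) = ∑ q ∈ X, cjr q a := by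
  classical
  choose rp hrp hrq using fun g : A => hX.uniq g (Subgroup.mem_top g)
  have hun : ∀ {x q q' : A}, q ∈ X → q' ∈ X → q⁻¹ * x ∈ D → q'⁻¹ * x ∈ D → q = q' := by
    intro x q q' hq hq' h h'
    rw [hrq x q ⟨hq, h⟩, hrq x q' ⟨hq', h'⟩]
  rw [cjr_sum]
  refine Finset.sum_bij (fun q _ => rp (g * q)) ?_ ?_ ?_ ?_
  · intro q _
    exact (hrp (g * q)).1
  · intro q hq q' hq' h
    have h2 := (hrp (g * q)).2
    have h3 := (hrp (g * q')).2
    rw [← h] at h3
    have h4 := D.mul_mem (D.inv_mem h2) h3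
    have e1 : ((rp (g * q))⁻¹ * (g * q))⁻¹ * ((rp (g * q))⁻¹ * (g * q')) = q⁻¹ * q' := by group
    rw [e1] at h4
    exact hun (x := q') hq hq' h4 (by rw [inv_mul_cancel]; exact D.one_mem)
  · intro r hr
    have h2 := hrp (g⁻¹ * r)
    refine ⟨rp (g⁻¹ * r), h2.1, ?_⟩
    have h5 := hrp (g * rp (g⁻¹ * r))
    have h7 := D.mul_mem h5.2 h2.2
    have e1 : (rp (g * rp (g⁻¹ * r)))⁻¹ * (g * rp (g⁻¹ * r)) * ((rp (g⁻¹ * r))⁻¹ * (g⁻¹ * r))
        = (rp (g * rp (g⁻¹ * r)))⁻¹ * r := by group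
    rw [e1] at h7
    exact hun (x := r) h5.1 hr h7 (by rw [inv_mul_cancel]; exact D.one_mem)
  · intro q _
    have h2 := (hrp (g * q)).2
    rw [cjr_cjr]
    have e1 : g * q = rp (g * q) * ((rp (g * q))⁻¹ * (g * q)) := by group
    conv_lhs => rw [e1]
    rw [← cjr_cjr, ha _ h2]

end ring

section
variable {p : ℕ} [Fact p.Prime] {k : Type*} [Field k] [IsAlgClosed k] [CharP k p]
  {A : Type*} [Group A] [Finite A] {b i : MonoidAlgebra k A} {B I : MonoidAlgebra (OW p k) A}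

/-- a central element `Y` of `O[A]` acts as a scalar -/
theorem chO_cmul {Y : MonoidAlgebra (OW p k) A} (hY : ∀ g : A, cjr g Y = Y)
    (χ : Ir (KW p k) A) (x : MonoidAlgebra (OW p k) A) :
    chO χ (Y * x) = om χ (mapRingHom A (algebraMap (OW p k) (KW p k)) Y) * chO χ x := by
  rw [chO_apply, map_mul (mapRingHom A (algebraMap (OW p k) (KW p k))), chi_cen_mul, chO_apply]
  intro a
  have h1 : ∀ g : A, cjr g (mapRingHom A (algebraMap (OW p k) (KW p k)) Y)
      = mapRingHom A (algebraMap (OW p k) (KW p k)) Y := by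
    intro g
    rw [← map_cjr, hY]
  exact (comm_all h1 a).symm

/-- **the values at `(u, i)` are not zero** -/
theorem chO_ne {D : Subgroup A} (hB : CenL b B) (hI : IdL i I)
    (hc : ∀ d ∈ D, single d 1 * I = I * single d (1 : OW p k))
    (hcom : ∀ x ∈ D, ∀ y ∈ D, x * y = y * x) {u : A} (hu : u ∈ D) {X : Finset A}
    (hX : Reps X ⊤ D) {w : MonoidAlgebra k A} (hw : w ∈ fixAlg k (⊤ : Subgroup A) ⊤)
    (h : (∑ q ∈ X, cj q (single u (1 : k) * i)) * w * b = b) {χ : Ir (KW p k) A}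
    (hχ : chO χ B ≠ 0) : chO χ (single u 1 * I) ≠ 0 := by
  classical
  intro h0
  set Y : MonoidAlgebra (OW p k) A := ∑ q ∈ X, cjr q (single u 1 * I) with hYd
  have hfix : ∀ d ∈ D, cjr d (single u (1 : OW p k) * I) = single u 1 * I := by
    intro d hd
    rw [cjr_mul, (cjr_eq_iff d I).2 (hc d hd)]
    congr 1
    rw [cjr_eq_iff, single_mul_single, single_mul_single, hcom d hd u hu]
  have hY : ∀ g : A, cjr g Y = Y := cjr_rel hX hfix
  have hBc : ∀ g : A, cjr g B = B := by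
    intro g
    rw [cjr_eq_iff]
    exact (hB.cen _).symm
  have hwc : ∀ g : A, cjr g w = w := by
    intro g
    rw [cjr_eq_iff]
    exact hw.2 g (Subgroup.mem_top g)
  have hred : mapRingHom A (rdO p k) Y = ∑ q ∈ X, cj q (single u (1 : k) * i) := by
    rw [hYd, map_sum]
    refine Finset.sum_congr rfl fun q _ => ?_
    rw [map_cjr, map_mul, map_single, map_one, hI.red, cjr_eq_cj]
  obtain ⟨W, hW, hYW⟩ := unit_lift (p := p) hY hB.idem hBc hwc (by
    rw [hred, hB.red]
    exact h)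
  -- the scalar of `Y`
  have h1 : chO χ Y = 0 := by
    rw [hYd, map_sum]
    refine Finset.sum_eq_zero fun q _ => ?_
    rw [chO_cjr, h0]
  have h2 : om χ (mapRingHom A (algebraMap (OW p k) (KW p k)) Y) = 0 := by
    have h3 := chO_cmul hY χ 1
    rw [mul_one, h1, chO_one] at h3
    rcases mul_eq_zero.1 h3.symm with h4 | h4
    · exact h4
    · exact absurd h4 (dg_ne' χ)
  apply hχ
  rw [← hYW, mul_assoc, chO_cmul hY, h2, zero_mul]

end

end Pool.Agent.Lib.P0c8ca5.Ex
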