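import Mathlib
import Pool.Agent.Lib.P0c8ca5Ex.Br
import Pool.Agent.Lib.P0c8ca5E.SmallG
import Pool.Agent.Lib.P0c8ca5N.TrB

/-!
# Fm: the blocks of `C(D)` below a block with defect group `D` are conjugate (Brauer)

PROOF of `fm_top`. Suppose no conjugate of `f` under `N(D)` is `f'`. Let `c` be the sum of the (finitely many) different conjugates `cj n f`, `n ∈ N(D)`. They are blocks of `C(D)`, orthogonal, so `c * f = f`, `c * f' = 0`, `c * c = c`, `c` is supported on `C(D)` and invariant under `N(D)`; `resS C(D) b * c = c` (`b` invariant, `h1`).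
`exists_trace_gen` (P0c8ca5R.Final, namespace Rk; `resS_sum_cj`, `invBy_sum_cj` in Rk.BrBAux) and `defect_conj` (or `conj_of_hasBr`): `b = ∑ q ∈ X, cj q a` with `a` InvBy `D`, `X` representatives of `A / D` (if `P` is the group of `exists_trace_gen`, it is a defect group by its proof / `conj_of_hasBr` and `hD`, `D = cg g P`; replace `a` by `cj g a`; `Reps` for `D` exist by `exists_reps`; the sum does not depend on the representatives, compare `defect_conj`).
Put `z = ∑ q ∈ X, cj q (a * c)`: central in `kA` (`invBy_sum_cj`; `a * c` is InvBy `D`), and `resS_sum_cj` gives `resS C(D) z = ∑_(q ∈ X, q ∈ N(D)) cj q (resS a * c) = (∑ cj q (resS a)) * c = resS C(D) b * c = c` (`cj q c = c`).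
`z * b` is in the centre of `kA` below the primitive idempotent `b`, so `z * b = λ • b + n`, `n` nilpotent and central (k algebraically closed; the library has this for blocks, for example in P0c8ca5.CommAlg / the central character of a block / `PartA2`; `exists λ, IsNilpotent (z * b - λ • b)`). Apply `resS C(D)` (multiplicative on elements invariant under `D`): `c = λ • resS b + n'`, `n'` nilpotent, commuting with `f`, `f'`. Multiply by `f'`: `0 = λ • f' + n' f'`, so `λ = 0`; multiply by `f`: `f = n' f` is nilpotent and idempotent, contradiction.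
PROOF of `fm`: transport to `↥H` with `dn` (as in `Hy.defect_conj_sub` of P0c8ca5E.SmallG): `dn_isBlock`, `isDefect_dn`, `CD (D.subgroupOf H) = (CD D).subgroupOf H` (`D ≤ H`).
-/

namespace Pool.Agent.Lib.P0c8ca5.Ex

open MonoidAlgebra Rk

variable {p : ℕ} {k : Type*} [Field k] {A : Type*} [Group A]

namespace FmAux

theorem supp_mem {K : Subgroup A} {a : MonoidAlgebra k A} (h : SuppIn K a) {x : A}
    (hx : x ∉ K) : a.coeff x = 0 := by
  by_contra h0
  exact hx (h x h0)

/-- transport of a block of a subgroup of `H` to the group `↥H` -/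
theorem dn_blk {H K : Subgroup A} (hK : K ≤ H) {f : MonoidAlgebra k A} (hf : IsBlock K f) :
    IsBlock (K.subgroupOf H) (dn H f) := by
  have e : dn H f = tr (Subgroup.subgroupOfEquivOfLe hK).symm f := by
    ext y
    by_cases hy : y ∈ K.subgroupOf H
    · rw [coeff_dn, coeff_tr' _ f hy]
      rfl
    · rw [coeff_dn, coeff_tr_of_notMem _ f hy]
      exact supp_mem (mem_fixAlg.1 hf.mem).1 (fun h => hy (Subgroup.mem_subgroupOf.2 h))
  rw [e]
  exact tr_isBlock _ hf

theorem CD_sub {H D : Subgroup A} (hD : D ≤ H) :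
    CD (D.subgroupOf H) = (CD D).subgroupOf H := by
  ext x
  rw [Subgroup.mem_subgroupOf, Subgroup.mem_centralizer_iff, Subgroup.mem_centralizer_iff]
  constructor
  · intro h y hy
    exact congrArg Subtype.val (h ⟨y, hD hy⟩ (Subgroup.mem_subgroupOf.2 hy))
  · intro h y hy
    exact Subtype.ext (h _ (Subgroup.mem_subgroupOf.1 hy))

theorem norm_sub {H D : Subgroup A} (hD : D ≤ H) {g : ↥H}
    (hg : g ∈ Subgroup.normalizer ((D.subgroupOf H : Subgroup ↥H) : Set ↥H)) :
    (g : A) ∈ Subgroup.normalizer (D : Set A) := by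
  rw [Subgroup.mem_normalizer_iff] at hg ⊢
  intro y
  constructor
  · intro hy
    exact Subgroup.mem_subgroupOf.1 ((hg ⟨y, hD hy⟩).1 (Subgroup.mem_subgroupOf.2 hy))
  · intro hy
    have hyH : y ∈ H := by
      have h1 : (g : A) * y * (g : A)⁻¹ ∈ H := hD hy
      rwa [H.mul_mem_cancel_right (H.inv_mem g.2), H.mul_mem_cancel_left g.2] at h1
    exact Subgroup.mem_subgroupOf.1 ((hg ⟨y, hyH⟩).2 (Subgroup.mem_subgroupOf.2 hy))

theorem norm_CD {D : Subgroup A} {n : A} (hn : n ∈ Subgroup.normalizer (D : Set A)) :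
    cg n (CD D) = CD D := cg_eq_self_iff.2 (BrBAux.mem_norm_cent hn)

theorem resS_CD_cj {D : Subgroup A} {n : A} (hn : n ∈ Subgroup.normalizer (D : Set A))
    (a : MonoidAlgebra k A) :
    resS (CD D : Set A) (cj n a) = cj n (resS (CD D : Set A) a) := by
  ext x
  have h1 : n⁻¹ * x * n ∈ (CD D : Set A) ↔ x ∈ (CD D : Set A) := by
    have h2 := BrBAux.mem_norm_cent ((Subgroup.normalizer (D : Set A)).inv_mem hn)
    have h3 := (Subgroup.mem_normalizer_iff.1 h2 x)
    rw [inv_inv] at h3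
    exact h3.symm
  rw [coeff_cj]
  by_cases hx : x ∈ (CD D : Set A)
  · rw [coeff_resS_of_mem _ hx, coeff_resS_of_mem _ (h1.2 hx), coeff_cj]
  · rw [coeff_resS_of_notMem _ hx, coeff_resS_of_notMem _ (fun h => hx (h1.1 h))]

end FmAux

open FmAux

/-- an element of the centre below a block is a scalar modulo nilpotent elements -/
theorem cen_scalar [Fact p.Prime] [CharP k p] [IsAlgClosed k] [Finite A] {K : Subgroup A}
    {b z : MonoidAlgebra k A} (hb : IsBlock K b) (hz : z ∈ fixAlg k K K) :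
    ∃ c : k, IsNilpotent (z * b - c • b) := by
  have hA : IsArtinianRing (fixAlg k K K) := IsArtinianRing.of_finite k _
  obtain ⟨l, hl⟩ := PrimIdem.exists_char (k := k) hb.primIdem
  have h0 : l (⟨z, hz⟩ - algebraMap k (fixAlg k K K) (l ⟨z, hz⟩)) = 0 := by
    rw [map_sub, AlgHom.commutes]; simp
  have h3 : (((⟨z, hz⟩ : fixAlg k K K) - algebraMap k (fixAlg k K K) (l ⟨z, hz⟩)) *
      (⟨b, hb.mem⟩ : fixAlg k K K) : fixAlg k K K).1 = z * b - l ⟨z, hz⟩ • b := by
    change (z - algebraMap k (MonoidAlgebra k A) (l ⟨z, hz⟩)) * b = _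
    rw [sub_mul, Algebra.algebraMap_eq_smul_one, smul_mul_assoc, one_mul]
  rcases hb.primIdem.nilp_or_unit (⟨z, hz⟩ - algebraMap k (fixAlg k K K) (l ⟨z, hz⟩)) with
    ⟨n, hn⟩ | ⟨w, hw⟩
  · refine ⟨l ⟨z, hz⟩, n, ?_⟩
    have h2 := congrArg Subtype.val hn
    rw [Subalgebra.coe_pow, h3] at h2
    exact h2
  · exfalso
    have h4 := congrArg l hw
    rw [map_mul, map_mul, h0, zero_mul, zero_mul, hl] at h4
    exact zero_ne_one h4

/-- a block is a relative trace from its defect group -/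
theorem tr_defect [Fact p.Prime] [CharP k p] [IsAlgClosed k] [Fintype A]
    {b : MonoidAlgebra k A} (hb : IsBlock (⊤ : Subgroup A) b) {D : Subgroup A}
    (hD : IsDefectGroup p (⊤ : Subgroup A) b D) : ∃ a : MonoidAlgebra k A, InvBy D a ∧
      ∀ X : Finset A, Reps X ⊤ D → ∑ q ∈ X, cj q a = b := by
  classical
  obtain ⟨P, a, hP, hbr, ha, hsum⟩ := exists_trace_gen (p := p) hb
  obtain ⟨X, hX⟩ := exists_reps (le_top : P ≤ ⊤)
  obtain ⟨g, hg⟩ := conj_of_hasBr (p := p) hX ha (hsum X hX) hD.isPGroup hD.br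
  have h1 : HasBr (cg g P) b := by
    have := hasBr_cg hbr g
    rwa [invBy_iff_cj.1 hb.invBy g (Subgroup.mem_top g)] at this
  have hDg : cg g P = D := hD.max (cg g P) le_top (isPGroup_cg hP) h1 hg
  refine ⟨cj g a, ?_, ?_⟩
  · rw [invBy_iff_cj]
    intro d hd
    rw [← hDg, mem_cg] at hd
    have h2 := invBy_iff_cj.1 ha _ hd
    rw [cj_cj]
    calc cj (d * g) a = cj g (cj (g⁻¹ * d * g) a) := by rw [cj_cj]; congr 1; group
      _ = cj g a := by rw [h2]
  · intro Y hY
    have hY' : Reps (Y.image (fun q => q * g)) ⊤ P := by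
      refine ⟨fun q _ => Subgroup.mem_top q, fun h _ => ?_⟩
      obtain ⟨q, ⟨hq, hqD⟩, huniq⟩ := hY.uniq (h * g⁻¹) (Subgroup.mem_top _)
      refine ⟨q * g, ⟨Finset.mem_image.2 ⟨q, hq, rfl⟩, ?_⟩, ?_⟩
      · rw [← hDg, mem_cg] at hqD
        have e1 : (q * g)⁻¹ * h = g⁻¹ * (q⁻¹ * (h * g⁻¹)) * g := by group
        rw [e1]
        exact hqD
      · rintro y ⟨hy, hyP⟩
        obtain ⟨r, hr, rfl⟩ := Finset.mem_image.1 hy
        have h3 : r⁻¹ * (h * g⁻¹) ∈ D := by
          rw [← hDg, mem_cg]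
          have e1 : g⁻¹ * (r⁻¹ * (h * g⁻¹)) * g = (r * g)⁻¹ * h := by group
          rw [e1]
          exact hyP
        have h4 := huniq r ⟨hr, h3⟩
        simp only [h4]
    have h5 := hsum _ hY'
    rw [Finset.sum_image (fun x _ y _ hxy => mul_right_cancel hxy)] at h5
    rw [← h5]
    exact Finset.sum_congr rfl (fun q _ => cj_cj q g a)

theorem fm_top [Fact p.Prime] [CharP k p] [IsAlgClosed k] [Fintype A]
    {b : MonoidAlgebra k A} (hb : IsBlock (⊤ : Subgroup A) b) {D : Subgroup A}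
    (hD : IsDefectGroup p (⊤ : Subgroup A) b D) {f f' : MonoidAlgebra k A}
    (hf : IsBlock (CD D) f) (hf' : IsBlock (CD D) f') (h1 : resS (CD D : Set A) b * f = f)
    (h2 : resS (CD D : Set A) b * f' = f') :
    ∃ n ∈ Subgroup.normalizer (D : Set A), cj n f = f' := by
  classical
  by_contra hno
  push Not at hno
  have hp := hD.isPGroup
  obtain ⟨a, haD, htr⟩ := tr_defect (p := p) hb hD
  obtain ⟨X, hX⟩ := exists_reps (le_top : D ≤ ⊤)
  -- the conjugates of `f`
  set T : Finset (MonoidAlgebra k A) :=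
    (Finset.univ.filter (fun n : A => n ∈ Subgroup.normalizer (D : Set A))).image
      (fun n => cj n f) with hT
  have hmem : ∀ x, x ∈ T ↔ ∃ n ∈ Subgroup.normalizer (D : Set A), cj n f = x := by
    intro x
    rw [hT, Finset.mem_image]
    constructor
    · rintro ⟨n, hn, rfl⟩
      exact ⟨n, (Finset.mem_filter.1 hn).2, rfl⟩
    · rintro ⟨n, hn, rfl⟩
      exact ⟨n, Finset.mem_filter.2 ⟨Finset.mem_univ _, hn⟩, rfl⟩
  have hblk : ∀ x ∈ T, IsBlock (CD D) x := by
    intro x hx
    obtain ⟨n, hn, rfl⟩ := (hmem x).1 hx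
    have h3 := isBlock_cg hf n
    rwa [norm_CD hn] at h3
  have hfT : f ∈ T := (hmem f).2 ⟨1, (Subgroup.normalizer (D : Set A)).one_mem, cj_one_left f⟩
  set c : MonoidAlgebra k A := ∑ x ∈ T, x with hc
  have hcf : c * f = f := by
    rw [hc, Finset.sum_mul, Finset.sum_eq_single_of_mem f hfT, hf.idem]
    intro x hx hxf
    rcases (hblk x hx).eq_or_mul_eq_zero hf with h | h
    · exact absurd h hxf
    · exact h
  have hcf' : c * f' = 0 := by
    rw [hc, Finset.sum_mul]
    apply Finset.sum_eq_zero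
    intro x hx
    rcases (hblk x hx).eq_or_mul_eq_zero hf' with h | h
    · exfalso
      obtain ⟨n, hn, hnx⟩ := (hmem x).1 hx
      exact hno n hn (hnx.trans h)
    · exact h
  have hcinv : ∀ n ∈ Subgroup.normalizer (D : Set A), cj n c = c := by
    intro n hn
    rw [hc, cj_sum]
    refine Finset.sum_bij (fun x _ => cj n x) ?_ ?_ ?_ ?_
    · intro x hx
      obtain ⟨m, hm, rfl⟩ := (hmem x).1 hx
      rw [cj_cj]
      exact (hmem _).2 ⟨n * m, (Subgroup.normalizer (D : Set A)).mul_mem hn hm, rfl⟩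
    · intro x _ y _ hxy
      have h3 := congrArg (cj n⁻¹) hxy
      simpa only [cj_cj, inv_mul_cancel, cj_one_left] using h3
    · intro x hx
      obtain ⟨m, hm, rfl⟩ := (hmem x).1 hx
      refine ⟨cj (n⁻¹ * m) f, (hmem _).2 ⟨n⁻¹ * m, (Subgroup.normalizer (D : Set A)).mul_mem
        ((Subgroup.normalizer (D : Set A)).inv_mem hn) hm, rfl⟩, ?_⟩
      rw [cj_cj]
      congr 1
      group
    · intro x _
      rfl
  have hcD : InvBy D c := by
    rw [invBy_iff_cj]
    exact fun g hg => hcinv g (Subgroup.le_normalizer hg)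
  have hcsupp : SuppIn (CD D) c := by
    intro x hx
    rw [hc, coeff_sum, Finsupp.finsetSum_apply] at hx
    obtain ⟨y, hy, hy0⟩ := Finset.exists_ne_zero_of_sum_ne_zero hx
    exact (mem_fixAlg.1 (hblk y hy).mem).1 x hy0
  have hresc : resS (CD D : Set A) c = c := BrAux.resS_of_SuppIn hcsupp
  have hbinv := hb.invBy
  have hbc : resS (CD D : Set A) b * c = c := by
    rw [hc, Finset.mul_sum]
    refine Finset.sum_congr rfl (fun x hx => ?_)
    obtain ⟨n, hn, rfl⟩ := (hmem x).1 hx
    have h3 : cj n (resS (CD D : Set A) b) = resS (CD D : Set A) b := by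
      rw [← resS_CD_cj hn b, invBy_iff_cj.1 hbinv n (Subgroup.mem_top n)]
    calc resS (CD D : Set A) b * cj n f = cj n (resS (CD D : Set A) b) * cj n f := by rw [h3]
      _ = cj n f := by rw [← cj_mul, h1]
  -- the trace
  have hac : InvBy D (a * c) := by
    rw [invBy_iff_cj] at haD hcD ⊢
    intro g hg
    rw [cj_mul, haD g hg, hcD g hg]
  set z : MonoidAlgebra k A := ∑ q ∈ X, cj q (a * c) with hz
  have hzinv : InvBy ⊤ z := BrBAux.invBy_sum_cj hX hac
  have hzT : z ∈ fixAlg k (⊤ : Subgroup A) ⊤ :=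
    mem_fixAlg.2 ⟨fun x _ => Subgroup.mem_top x, hzinv⟩
  have hzres : resS (CD D : Set A) z = c := by
    rw [hz, BrBAux.resS_sum_cj (p := p) hX hp hac]
    have h3 : ∀ q ∈ X.filter (fun q => q ∈ Subgroup.normalizer (D : Set A)),
        cj q (resS (CD D : Set A) (a * c)) = cj q (resS (CD D : Set A) a) * c := by
      intro q hq
      rw [resS_mul (p := p) hp haD hcD, hresc, cj_mul, hcinv q (Finset.mem_filter.1 hq).2]
    rw [Finset.sum_congr rfl h3, ← Finset.sum_mul, ← BrBAux.resS_sum_cj (p := p) hX hp haD,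
      htr X hX, hbc]
  obtain ⟨l, n, hn⟩ := cen_scalar (p := p) hb hzT
  set w : MonoidAlgebra k A := z * b - l • b with hw
  have hwT : w ∈ fixAlg k (⊤ : Subgroup A) D := by
    refine mem_fixAlg.2 ⟨fun x _ => Subgroup.mem_top x, ?_⟩
    have h3 : InvBy ⊤ w := by
      rw [invBy_iff_cj]
      intro g hg
      have e1 := invBy_iff_cj.1 hzinv g hg
      have e2 := invBy_iff_cj.1 hbinv g hg
      have e3 : w = z * b + (-l) • b := by rw [hw, neg_smul, sub_eq_add_neg]
      rw [e3, cj_add, cj_mul, cj_smul, e1, e2]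
    exact h3.mono le_top
  have hwn : (resS (CD D : Set A) w) ^ (n + 1) = 0 := by
    rw [← BrAux.resS_pow (p := p) le_rfl hp hwT n, pow_succ, hn, zero_mul, resS_zero]
  have hwr : resS (CD D : Set A) w = c * resS (CD D : Set A) b - l • resS (CD D : Set A) b := by
    have e3 : w = z * b + (-l) • b := by rw [hw, neg_smul, sub_eq_add_neg]
    rw [e3, resS_add, resS_smul, resS_mul (p := p) hp (hzinv.mono le_top) (hbinv.mono le_top),
      hzres, neg_smul, sub_eq_add_neg]
  have hu' : ∀ m : ℕ, (resS (CD D : Set A) w) ^ m * f' = (-l) ^ m • f' := by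
    intro m
    induction m with
    | zero => rw [pow_zero, pow_zero, one_mul, one_smul]
    | succ m ih =>
      have e1 : resS (CD D : Set A) w * f' = (-l) • f' := by
        rw [hwr, sub_mul, mul_assoc, h2, hcf', smul_mul_assoc, h2, zero_sub, neg_smul]
      rw [pow_succ, mul_assoc, e1, mul_smul_comm, ih, smul_smul, pow_succ' (-l)]
  have hl : l = 0 := by
    have h3 := hu' (n + 1)
    rw [hwn, zero_mul] at h3
    rcases smul_eq_zero.1 h3.symm with h4 | h4
    · exact neg_eq_zero.1 (pow_eq_zero_iff (Nat.succ_ne_zero n) |>.1 h4)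
    · exact absurd h4 hf'.ne_zero
  have hu : ∀ m : ℕ, (resS (CD D : Set A) w) ^ m * f = f := by
    intro m
    induction m with
    | zero => rw [pow_zero, one_mul]
    | succ m ih =>
      have e1 : resS (CD D : Set A) w * f = f := by
        rw [hwr, hl, zero_smul, sub_zero, mul_assoc, h1, hcf]
      rw [pow_succ, mul_assoc, e1, ih]
  have h3 := hu (n + 1)
  rw [hwn, zero_mul] at h3
  exact hf.ne_zero h3.symm

theorem fm [Fact p.Prime] [CharP k p] [IsAlgClosed k] [Finite A] {H : Subgroup A}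
    {b : MonoidAlgebra k A} (hb : IsBlock H b) {D : Subgroup A} (hD : IsDefectGroup p H b D)
    (hH : CD D ≤ H) {f f' : MonoidAlgebra k A}
    (hf : IsBlock (CD D) f) (hf' : IsBlock (CD D) f') (h1 : resS (CD D : Set A) b * f = f)
    (h2 : resS (CD D : Set A) b * f' = f') :
    ∃ n ∈ H, n ∈ Subgroup.normalizer (D : Set A) ∧ cj n f = f' := by
  classical
  have : Fintype A := Fintype.ofFinite A
  have : Fintype ↥H := Fintype.ofFinite _
  have hDH := hD.le
  have hC := CD_sub hDH
  have hsup : ∀ {x : MonoidAlgebra k A}, IsBlock (CD D) x → SuppIn H x := fun hx y hy =>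
    hH ((mem_fixAlg.1 hx.mem).1 y hy)
  have hres : resS (CD (D.subgroupOf H) : Set ↥H) (dn H b) = dn H (resS (CD D : Set A) b) := by
    ext x
    rw [coeff_dn]
    by_cases hx : (x : A) ∈ (CD D : Set A)
    · have hx' : x ∈ (CD (D.subgroupOf H) : Set ↥H) := by
        rw [hC]
        exact Subgroup.mem_subgroupOf.2 hx
      rw [coeff_resS_of_mem _ hx, coeff_resS_of_mem _ hx', coeff_dn]
    · have hx' : x ∉ (CD (D.subgroupOf H) : Set ↥H) := by
        rw [hC]
        exact fun h => hx (Subgroup.mem_subgroupOf.1 h)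
      rw [coeff_resS_of_notMem _ hx, coeff_resS_of_notMem _ hx']
  have hmul : ∀ {x : MonoidAlgebra k A}, IsBlock (CD D) x → resS (CD D : Set A) b * x = x →
      resS (CD (D.subgroupOf H) : Set ↥H) (dn H b) * dn H x = dn H x := by
    intro x hx h
    rw [hres]
    conv_rhs => rw [← h]
    ext y
    rw [coeff_dn, coeff_mul_fin, coeff_mul_fin]
    have hs := hsup hx
    symm
    have e1 : ∀ g : A, g ∉ H → (resS (CD D : Set A) b).coeff g * x.coeff (g⁻¹ * y) = 0 := by
      intro g hg
      rw [coeff_resS_of_notMem _ (fun h' => hg (hH h')), zero_mul]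
    rw [← Finset.sum_subset (Finset.subset_univ (Finset.univ.filter (fun g : A => g ∈ H)))
      (fun g _ hg => e1 g (fun h' => hg (Finset.mem_filter.2 ⟨Finset.mem_univ _, h'⟩)))]
    refine (Finset.sum_bij (fun (g : ↥H) _ => (g : A)) ?_ ?_ ?_ ?_).symm
    · intro g _
      exact Finset.mem_filter.2 ⟨Finset.mem_univ _, g.2⟩
    · intro g _ g' _ hgg
      exact Subtype.ext hgg
    · intro g hg
      exact ⟨⟨g, (Finset.mem_filter.1 hg).2⟩, Finset.mem_univ _, rfl⟩
    · intro g _
      rfl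
  have hbf := dn_blk hH hf
  have hbf' := dn_blk hH hf'
  rw [← hC] at hbf hbf'
  obtain ⟨n, hn, hnf⟩ := fm_top (p := p) (dn_isBlock hb) (Hy.isDefect_dn
    (mem_fixAlg.1 hb.mem).1 hD) hbf hbf' (hmul hf h1) (hmul hf' h2)
  refine ⟨n, n.2, norm_sub hDH hn, ?_⟩
  ext x
  by_cases hx : x ∈ H
  · have h3 := congrArg (fun a => a.coeff (⟨x, hx⟩ : ↥H)) hnf
    simp only [coeff_cj, coeff_dn] at h3
    rw [coeff_cj]
    exact h3
  · rw [coeff_cj, supp_mem (hsup hf') hx, supp_mem (hsup hf)]
    intro h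
    apply hx
    rwa [H.mul_mem_cancel_right n.2, H.mul_mem_cancel_left (H.inv_mem n.2)] at h

end Pool.Agent.Lib.P0c8ca5.Ex
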