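import Mathlib
import Pool.Agent.Lib.P0c8ca5Ex.Br

/-!
# Src: source idempotents and their local blocks

PROOF. `exists_src`: `f` is supported on `C(D)`, central in `kC(D)` and `D ≤ C(D)`, so `f ∈ fixAlg k ⊤ D`, `resS C(D) f = f`. `e = b * f` is an idempotent of `fixAlg k ⊤ D` (`b` is central), `resS C(D) e = resS C(D) b * f = f ≠ 0` (`h.bf`, `resS_CD_mul` with `Q = D`). `exists_prim` with `L = resS C(D)` (additive: `resS_add`) gives `i` with `e * i = i = i * e`, `resS C(D) i ≠ 0`; `i * b = i * e * b = i * e = i`, `i * f = i`, `f * i = i` (`b` commutes with everything, `f * f = f`).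
`exists_lb`: the blocks of `C(Q)` are central idempotents of `kC(Q)`, orthogonal with sum 1 (`WSumAux.sum_blocks` or `finite_isBlock` and the lemmas of P0c8ca5.Blocks; P0c8ca5Se.Lb uses them), so some block `c` has `s * c ≠ 0`, `s = resS C(Q) i` (`s ≠ 0` because `resS C(D) s = resS C(D) i ≠ 0`). `c ∈ fixAlg k (CD Q) D` (`D ≤ C(Q)`, `c` central in `kC(Q)`), so `s * c` is an idempotent of `fixAlg k (CD Q) D` below `s`; `PrimIn.br` gives `s * c = s`.
`Lb.unique`: different blocks are orthogonal (`IsBlock.eq_or_mul_eq_zero`), `s = s * c = s * c * c' = 0` is impossible.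
-/

namespace Pool.Agent.Lib.P0c8ca5.Ex

open MonoidAlgebra

variable {p : ℕ} {k : Type*} [Field k] {A : Type*} [Group A]

/-- `c` is the block of `C(Q)` that contains the Brauer image of `i` -/
structure Lb (Q : Subgroup A) (i c : MonoidAlgebra k A) : Prop where
  blk : IsBlock (CD Q) c
  ic : resS (CD Q : Set A) i * c = resS (CD Q : Set A) i

namespace SrcAux

theorem central {b : MonoidAlgebra k A} (hb : b ∈ fixAlg k (⊤ : Subgroup A) ⊤)
    (a : MonoidAlgebra k A) : a * b = b * a :=
  commute_of (K := ⊤) (fun x _ => Subgroup.mem_top x) (mem_fixAlg.1 hb).2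

theorem D_le_CQ {D Q : Subgroup A} (hQ : Q ≤ D) (hcom : ∀ x ∈ D, ∀ y ∈ D, x * y = y * x) :
    D ≤ CD Q := by
  intro x hx
  rw [Subgroup.mem_centralizer_iff]
  exact fun y hy => hcom y (hQ hy) x hx

theorem src_ne {b f i : MonoidAlgebra k A} {D : Subgroup A} (h : Src p b D f i) {Q : Subgroup A}
    (hQ : Q ≤ D) : resS (CD Q : Set A) i ≠ 0 := by
  intro h0
  apply h.br
  rw [← resS_CD_CD hQ, h0, resS_zero]

end SrcAux

open SrcAux

theorem exists_src [Fact p.Prime] [CharP k p] [Finite A] {b f : MonoidAlgebra k A}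
    {D : Subgroup A} (h : Root p b D f) : ∃ i, Src p b D f i := by
  have hf := mem_fixAlg.1 h.fblk.mem
  have hb := h.blk.mem
  have hff := h.fblk.idem
  have hbb := h.blk.idem
  have hfD : InvBy D f := hf.2.mono (D_le_CD h.com)
  have hfT : f ∈ fixAlg k (⊤ : Subgroup A) D :=
    mem_fixAlg.2 ⟨fun x _ => Subgroup.mem_top x, hfD⟩
  have hbD : InvBy D b := (mem_fixAlg.1 hb).2.mono le_top
  have hbT : b ∈ fixAlg k (⊤ : Subgroup A) D :=
    mem_fixAlg.2 ⟨fun x _ => Subgroup.mem_top x, hbD⟩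
  have hc := central hb
  have hee : b * f * (b * f) = b * f := by
    calc b * f * (b * f) = b * (f * b) * f := by simp only [mul_assoc]
      _ = b * (b * f) * f := by rw [hc f]
      _ = (b * b) * (f * f) := by simp only [mul_assoc]
      _ = b * f := by rw [hbb, hff]
  have hres : resS (CD D : Set A) (b * f) = f := by
    rw [resS_CD_mul le_rfl h.dfg.isPGroup hbD hfD, BrAux.resS_of_SuppIn hf.1, h.bf]
  let L : MonoidAlgebra k A →+ MonoidAlgebra k A :=
    { toFun := resS (CD D : Set A)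
      map_zero' := resS_zero _
      map_add' := resS_add _ }
  have hL : L (b * f) ≠ 0 := by
    change resS (CD D : Set A) (b * f) ≠ 0
    rw [hres]
    exact h.fblk.ne_zero
  obtain ⟨i, hi, h1, h2, h3⟩ := exists_prim (Subalgebra.mul_mem _ hbT hfT) hee L hL
  refine ⟨i, h, hi, ?_, ?_, ?_, h3⟩
  · calc i * b = i * (b * f) * b := by rw [h2]
      _ = i * (b * (f * b)) := by simp only [mul_assoc]
      _ = i * (b * (b * f)) := by rw [hc f]
      _ = i * ((b * b) * f) := by simp only [mul_assoc]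
      _ = i := by rw [hbb, h2]
  · calc i * f = i * (b * f) * f := by rw [h2]
      _ = i * (b * (f * f)) := by simp only [mul_assoc]
      _ = i := by rw [hff, h2]
  · calc f * i = f * (b * f * i) := by rw [h1]
      _ = (f * b) * f * i := by simp only [mul_assoc]
      _ = (b * f) * f * i := by rw [hc f]
      _ = b * (f * f) * i := by simp only [mul_assoc]
      _ = i := by rw [hff, h1]

theorem exists_lb [Fact p.Prime] [CharP k p] [IsAlgClosed k] [Finite A]
    {b f i : MonoidAlgebra k A} {D : Subgroup A} (h : Src p b D f i) {Q : Subgroup A}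
    (hQ : Q ≤ D) : ∃ c, Lb Q i c := by
  classical
  have : Fintype A := Fintype.ofFinite A
  have hs := src_ne h hQ
  have hcom := h.root.com
  have hp := h.prim.br hQ h.root.dfg.isPGroup hcom hs
  set s := resS (CD Q : Set A) i with hsdef
  let Bl : Finset (MonoidAlgebra k A) :=
    ((finite_isBlock (k := k) (CD Q)).toFinset).filter (fun f => f * 1 ≠ 0)
  have hBl : ∀ b, b ∈ Bl ↔ IsBlock (CD Q) b ∧ b * 1 ≠ 0 := by
    intro b
    rw [Finset.mem_filter, Set.Finite.mem_toFinset]
    rfl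
  have hsum := WSumAux.sum_blocks (p := p) (Subalgebra.one_mem (fixAlg k (CD Q) (CD Q)))
    (mul_one 1) Bl hBl
  have h1 : ∑ c ∈ Bl, s * c ≠ 0 := by
    rw [← Finset.mul_sum, hsum, mul_one]
    exact hs
  obtain ⟨c, hc, hc0⟩ := Finset.exists_ne_zero_of_sum_ne_zero h1
  have hcb := ((hBl c).1 hc).1
  have hcm := mem_fixAlg.1 hcb.mem
  have hcD : c ∈ fixAlg k (CD Q) D := mem_fixAlg.2 ⟨hcm.1, hcm.2.mono (D_le_CQ hQ hcom)⟩
  have hcomm : s * c = c * s := commute_of (mem_fixAlg.1 hp.mem).1 hcm.2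
  refine ⟨c, hcb, ?_⟩
  have h2 : s * c * s = s * c := by
    rw [mul_assoc, ← hcomm, ← mul_assoc, hp.idem]
  rcases hp.prim (s * c) (Subalgebra.mul_mem _ hp.mem hcD)
      (by rw [← mul_assoc, h2, mul_assoc, hcb.idem])
      (by rw [← mul_assoc, hp.idem]) h2 with h3 | h3
  · exact absurd h3 hc0
  · exact h3

theorem Lb.unique [Fact p.Prime] [CharP k p] [Finite A] {b f i : MonoidAlgebra k A}
    {D : Subgroup A} (h : Src p b D f i) {Q : Subgroup A} (hQ : Q ≤ D)
    {c c' : MonoidAlgebra k A} (h1 : Lb Q i c) (h2 : Lb Q i c') : c = c' := by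
  rcases h1.blk.eq_or_mul_eq_zero h2.blk with h3 | h3
  · exact h3
  · exfalso
    apply src_ne h hQ
    rw [← h2.ic, ← h1.ic, mul_assoc, h3, mul_zero]

end Pool.Agent.Lib.P0c8ca5.Ex
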