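import Mathlib
import Pool.Agent.Lib.P0c8ca5Ex.Src
import Pool.Agent.Lib.P0c8ca5E.SmallG
import Pool.Agent.Lib.P0c8ca5N.TrB

/-!
# Loc: the local blocks of a source idempotent

PROOF. `s = resS C(Q) i`. `Lb.b`: `i * b = i` gives `s * resS C(Q) b = s` (`resS_CD_mul`); `resS C(Q) b` is a central idempotent of `kC(Q)` (in `fixAlg k (CD Q) (CD Q)`), so its product with the block `c` is `0` or `c` (`IsBlock.mul_eq`); `0` would give `s = s * c = s * resS b * c = 0`.
`Lb.f`: `resS C(D) c` is a central idempotent of `kC(D)` (`C(D) ≤ C(Q)`; multiplicative by `resS_CD_mul` for `D`: use `c` InvBy `D`), so its product with `f` is `0` or `f`; `resS C(D) i = resS C(D) i * f` (`h.mf`, `resS C(D) f = f`) and `resS C(D) i = resS C(D) s = resS C(D) (s * c) = resS C(D) i * resS C(D) c`, so `0` is impossible.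
`Lb.dfg`: `D ≤ C(Q)` (abelian), `IsPGroup`; `br`: `resS C(D) c * f = f ≠ 0`, so `resS C(D) c ≠ 0`; `max`: let `P ≤ C(Q)` be a p-group with `D ≤ P` and `c.coeff x ≠ 0` for some `x ∈ C(P)`. `resS C(P) c ≠ 0`, and `c = resS C(Q) b * c` (`Lb.b`) gives `resS C(P) c = resS C(P) (resS C(Q) b) * resS C(P) c = resS C(P) b * resS C(P) c` (`resS_mul` for `P`; `b`, `c` and `resS C(Q) b` are invariant under `P ≤ C(Q)`; `C(P) ≤ C(Q)` because `Q ≤ D ≤ P`), so `resS C(P) b ≠ 0` and `h.root.dfg.max` gives `P = D`.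
`Lb.src`: the transport to `↥(CD Q)`: `dn_isBlock`, `isDefect_dn` (see P0c8ca5E.SmallG, `Hy.defect_conj_sub`), `dn_suppIn`, `dn_invBy`, `dn_idem`, `dn_mul_supp` (P0c8ca5C.TrW, P0c8ca5V.TOsi); the centralizer of `D.subgroupOf (CD Q)` in `↥(CD Q)` is `(CD D).subgroupOf (CD Q)` (`CD D ≤ CD Q`); primitivity: an element of `fixAlg k ⊤ (D.subgroupOf (CD Q))` in `k↥(CD Q)` is `dn` of an element of `fixAlg k (CD Q) D` (push forward along `Subgroup.subtype`, `R.CardDZ.up` or `mapDomain`), use `PrimIn.br`.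
`Lb.st`: `g ∈ ↥(CD Q)` in `St` of the local data gives `(g : A) ∈ St D f`, and `g` commutes with the elements of `Q ≠ ⊥`, so `Free` gives `g ∈ C(D)`. `Lb.st'` the same without `Free`.
-/

namespace Pool.Agent.Lib.P0c8ca5.Ex

open MonoidAlgebra

set_option linter.unusedSectionVars false

variable {p : ℕ} {k : Type*} [Field k] {A : Type*} [Group A]

namespace LocAux

section
variable {H : Subgroup A}

/-- the inclusion `k[H] → k[A]` -/
noncomputable def ups (H : Subgroup A) : MonoidAlgebra k ↥H →ₐ[k] MonoidAlgebra k A :=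
  MonoidAlgebra.mapDomainAlgHom k k H.subtype

theorem coeff_ups (H : Subgroup A) (a : MonoidAlgebra k ↥H) (x : ↥H) :
    (ups H a).coeff (x : A) = a.coeff x := by
  change (MonoidAlgebra.mapDomain _ a).coeff _ = _
  rw [MonoidAlgebra.coeff_mapDomain]
  exact Finsupp.mapDomain_apply Subtype.val_injective a.coeff x

theorem coeff_ups_of_notMem (H : Subgroup A) (a : MonoidAlgebra k ↥H) {x : A} (hx : x ∉ H) :
    (ups H a).coeff x = 0 := by
  change (MonoidAlgebra.mapDomain _ a).coeff _ = _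
  rw [MonoidAlgebra.coeff_mapDomain]
  refine Finsupp.mapDomain_of_notMem_range _ _ ?_
  rintro ⟨y, rfl⟩
  exact hx y.2

theorem dn_ups (H : Subgroup A) (a : MonoidAlgebra k ↥H) : dn H (ups H a) = a := by
  ext x
  rw [coeff_dn, coeff_ups]

theorem ups_dn {a : MonoidAlgebra k A} (h : SuppIn H a) : ups H (dn H a) = a := by
  ext x
  by_cases hx : x ∈ H
  · rw [show x = ((⟨x, hx⟩ : ↥H) : A) from rfl, coeff_ups, coeff_dn]
  · rw [coeff_ups_of_notMem _ _ hx]
    by_contra h0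
    exact hx (h x fun h1 => h0 h1.symm)

theorem dn_inj {a b : MonoidAlgebra k A} (ha : SuppIn H a) (hb : SuppIn H b)
    (h : dn H a = dn H b) : a = b := by
  rw [← ups_dn ha, ← ups_dn hb, h]

theorem dn_mul {a b : MonoidAlgebra k A} (ha : SuppIn H a) (hb : SuppIn H b) :
    dn H (a * b) = dn H a * dn H b := by
  have h1 : a * b = ups H (dn H a * dn H b) := by
    rw [map_mul, ups_dn ha, ups_dn hb]
  rw [h1, dn_ups]

theorem dn_zero : dn H (0 : MonoidAlgebra k A) = 0 := by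
  have h1 : (0 : MonoidAlgebra k A) = ups H 0 := (map_zero _).symm
  rw [h1, dn_ups]

theorem dn_ne_zero {a : MonoidAlgebra k A} (ha : SuppIn H a) (h : a ≠ 0) : dn H a ≠ 0 := by
  intro h0
  apply h
  rw [← ups_dn ha, h0, map_zero]

theorem dn_fix {L M : Subgroup A} {a : MonoidAlgebra k A} (ha : a ∈ fixAlg k L M) :
    dn H a ∈ fixAlg k (L.subgroupOf H) (M.subgroupOf H) := by
  have h1 := mem_fixAlg.1 ha
  rw [mem_fixAlg]
  refine ⟨fun x hx => ?_, fun g hg x => ?_⟩
  · rw [coeff_dn] at hx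
    exact Subgroup.mem_subgroupOf.2 (h1.1 _ hx)
  · rw [coeff_dn, coeff_dn]
    exact h1.2 g (Subgroup.mem_subgroupOf.1 hg) x

theorem ups_fix {L M : Subgroup A} (hM : M ≤ H) {a : MonoidAlgebra k ↥H}
    (ha : a ∈ fixAlg k (L.subgroupOf H) (M.subgroupOf H)) : ups H a ∈ fixAlg k L M := by
  have h1 := mem_fixAlg.1 ha
  rw [mem_fixAlg]
  refine ⟨fun x hx => ?_, fun g hg x => ?_⟩
  · by_cases hxH : x ∈ H
    · have h2 : (ups H a).coeff ((⟨x, hxH⟩ : ↥H) : A) ≠ 0 := hx
      rw [coeff_ups] at h2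
      exact Subgroup.mem_subgroupOf.1 (h1.1 _ h2)
    · exact absurd (coeff_ups_of_notMem H a hxH) hx
  · have hgH := hM hg
    by_cases hxH : x ∈ H
    · have h2 := h1.2 ⟨g, hgH⟩ (Subgroup.mem_subgroupOf.2 hg) ⟨x, hxH⟩
      rw [← coeff_ups, ← coeff_ups] at h2
      exact h2
    · have hx' : g * x * g⁻¹ ∉ H := by
        intro h
        apply hxH
        have h3 := H.mul_mem (H.mul_mem (H.inv_mem hgH) h) hgH
        have h4 : g⁻¹ * (g * x * g⁻¹) * g = x := by group
        rwa [h4] at h3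
      rw [coeff_ups_of_notMem _ _ hxH, coeff_ups_of_notMem _ _ hx']

theorem isBlock_dn {K : Subgroup A} (hK : K ≤ H) {b : MonoidAlgebra k A} (hb : IsBlock K b) :
    IsBlock (K.subgroupOf H) (dn H b) := by
  have hs : SuppIn H b := hb.suppIn.mono hK
  refine ⟨dn_fix hb.mem, ?_, dn_ne_zero hs hb.ne_zero, ?_⟩
  · rw [← dn_mul hs hs, hb.idem]
  · intro f hf hff hfb
    rcases hb.prim (ups H f) (ups_fix hK hf) (by rw [← map_mul, hff]) (by
      conv_lhs => rw [← ups_dn hs]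
      rw [← map_mul, hfb]) with h | h
    · left
      rw [← dn_ups H f, h, dn_zero]
    · right
      rw [← dn_ups H f, h]

theorem mem_CD_sub {D : Subgroup A} (hD : D ≤ H) (x : ↥H) :
    x ∈ CD (D.subgroupOf H) ↔ (x : A) ∈ CD D := by
  rw [Subgroup.mem_centralizer_iff, Subgroup.mem_centralizer_iff]
  constructor
  · intro h y hy
    exact congrArg Subtype.val (h ⟨y, hD hy⟩ (Subgroup.mem_subgroupOf.2 hy))
  · intro h y hy
    exact Subtype.ext (h y (Subgroup.mem_subgroupOf.1 hy))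

theorem CD_sub {D : Subgroup A} (hD : D ≤ H) : CD (D.subgroupOf H) = (CD D).subgroupOf H := by
  ext x
  rw [mem_CD_sub hD, Subgroup.mem_subgroupOf]

theorem resS_dn {D : Subgroup A} (hD : D ≤ H) (a : MonoidAlgebra k A) :
    resS (CD (D.subgroupOf H) : Set ↥H) (dn H a) = dn H (resS (CD D : Set A) a) := by
  ext x
  rw [coeff_dn]
  by_cases hx : (x : A) ∈ CD D
  · have h1 : x ∈ (CD (D.subgroupOf H) : Set ↥H) := (mem_CD_sub hD x).2 hx
    have h2 : (x : A) ∈ (CD D : Set A) := hx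
    rw [coeff_resS_of_mem _ h1, coeff_resS_of_mem _ h2, coeff_dn]
  · have h1 : x ∉ (CD (D.subgroupOf H) : Set ↥H) := fun h => hx ((mem_CD_sub hD x).1 h)
    have h2 : (x : A) ∉ (CD D : Set A) := hx
    rw [coeff_resS_of_notMem _ h1, coeff_resS_of_notMem _ h2]

theorem resS_sp (L : Subgroup A) (a : MonoidAlgebra k A) : SuppIn L (resS (L : Set A) a) := by
  intro x hx
  by_contra h
  exact hx (coeff_resS_of_notMem a h)

theorem resS_inv {L M : Subgroup A} (hM : M ≤ L) {a : MonoidAlgebra k A} (ha : InvBy M a) :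
    InvBy M (resS (L : Set A) a) := by
  intro g hg x
  have hgL := hM hg
  have h1 : g * x * g⁻¹ ∈ (L : Set A) ↔ x ∈ (L : Set A) := by
    constructor
    · intro h
      have h2 := L.mul_mem (L.mul_mem (L.inv_mem hgL) h) hgL
      have h3 : g⁻¹ * (g * x * g⁻¹) * g = x := by group
      rw [h3] at h2
      exact h2
    · intro h
      exact L.mul_mem (L.mul_mem hgL h) (L.inv_mem hgL)
  rw [coeff_resS, coeff_resS, ha g hg x]
  by_cases hx : x ∈ (L : Set A)
  · rw [if_pos hx, if_pos (h1.2 hx)]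
  · rw [if_neg hx, if_neg (fun h => hx (h1.1 h))]

theorem exists_coeff {L : Subgroup A} {a : MonoidAlgebra k A} (h : resS (L : Set A) a ≠ 0) :
    ∃ x ∈ L, a.coeff x ≠ 0 := by
  by_contra hno
  apply h
  ext x
  by_cases hx : x ∈ (L : Set A)
  · rw [coeff_resS_of_mem _ hx, coeff_zero, Finsupp.zero_apply]
    by_contra h0
    exact hno ⟨x, hx, h0⟩
  · rw [coeff_resS_of_notMem _ hx, coeff_zero, Finsupp.zero_apply]

theorem resS_ne {L : Subgroup A} {a : MonoidAlgebra k A} (h : ∃ x ∈ L, a.coeff x ≠ 0) :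
    resS (L : Set A) a ≠ 0 := by
  obtain ⟨x, hx, hx'⟩ := h
  intro h0
  apply hx'
  have h1 := coeff_resS_of_mem (S := (L : Set A)) a hx
  rw [h0, coeff_zero, Finsupp.zero_apply] at h1
  exact h1.symm

theorem st_up {D : Subgroup A} (hD : D ≤ H) {f : MonoidAlgebra k A} (hf : SuppIn H f) {g : ↥H}
    (hg : g ∈ St (D.subgroupOf H) (dn H f)) : (g : A) ∈ St D f := by
  obtain ⟨h1, h2⟩ := mem_St.1 hg
  refine mem_St.2 ⟨?_, ?_⟩
  · rw [Subgroup.mem_normalizer_iff] at h1 ⊢
    intro x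
    constructor
    · intro hx
      exact Subgroup.mem_subgroupOf.1 ((h1 ⟨x, hD hx⟩).1 (Subgroup.mem_subgroupOf.2 hx))
    · intro hx
      have hxH : x ∈ H := by
        have h3 := H.mul_mem (H.mul_mem (H.inv_mem g.2) (hD hx)) g.2
        have h4 : (g : A)⁻¹ * ((g : A) * x * (g : A)⁻¹) * (g : A) = x := by group
        rwa [h4] at h3
      exact Subgroup.mem_subgroupOf.1 ((h1 ⟨x, hxH⟩).2 (Subgroup.mem_subgroupOf.2 hx))
  · have h3 : SuppIn H (cj (g : A) f) := by
      intro x hx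
      rw [coeff_cj] at hx
      have h4 := H.mul_mem (H.mul_mem g.2 (hf _ hx)) (H.inv_mem g.2)
      have h5 : (g : A) * ((g : A)⁻¹ * x * (g : A)) * (g : A)⁻¹ = x := by group
      rwa [h5] at h4
    refine dn_inj h3 hf ?_
    conv_rhs => rw [← h2]
    ext x
    rw [coeff_dn, coeff_cj, coeff_cj, coeff_dn]
    rfl

end

end LocAux

open SrcAux LocAux

section
variable [Fact p.Prime] [CharP k p] [IsAlgClosed k] [Finite A]
variable {b f i : MonoidAlgebra k A} {D : Subgroup A}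

theorem Lb.b_mul (h : Src p b D f i) {Q : Subgroup A} (hQ : Q ≤ D) {c : MonoidAlgebra k A}
    (hc : Lb Q i c) : resS (CD Q : Set A) b * c = c := by
  have hb := (mem_fixAlg.1 h.root.blk.mem).2
  have hbD : InvBy D b := hb.mono le_top
  have hiD : InvBy D i := (mem_fixAlg.1 h.prim.mem).2
  have hp := h.root.dfg.isPGroup
  have hm : resS (CD Q : Set A) b ∈ fixAlg k (CD Q) (CD Q) :=
    mem_fixAlg.2 ⟨resS_sp _ _, resS_inv le_rfl (hb.mono le_top)⟩
  have hi : resS (CD Q : Set A) b * resS (CD Q : Set A) b = resS (CD Q : Set A) b := by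
    rw [← resS_CD_mul hQ hp hbD hbD, h.root.blk.idem]
  rcases hc.blk.mul_eq hm hi with h1 | h1
  · exfalso
    apply src_ne h hQ
    have h2 : resS (CD Q : Set A) i * resS (CD Q : Set A) b = resS (CD Q : Set A) i := by
      rw [← resS_CD_mul hQ hp hiD hbD, h.ib]
    rw [← hc.ic]
    conv_lhs => rw [← h2]
    rw [mul_assoc, h1, mul_zero]
  · exact h1

theorem Lb.f_mul (h : Src p b D f i) {Q : Subgroup A} (hQ : Q ≤ D) {c : MonoidAlgebra k A}
    (hc : Lb Q i c) : resS (CD D : Set A) c * f = f := by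
  have hp := h.root.dfg.isPGroup
  have hcom := h.root.com
  have hDQ : D ≤ CD Q := D_le_CQ hQ hcom
  have hcQ := hc.blk.invBy
  have hcD : InvBy D c := hcQ.mono hDQ
  have hiD : InvBy D i := (mem_fixAlg.1 h.prim.mem).2
  have hle : CD D ≤ CD Q := Subgroup.centralizer_le hQ
  have hm : resS (CD D : Set A) c ∈ fixAlg k (CD D) (CD D) :=
    mem_fixAlg.2 ⟨resS_sp _ _, resS_inv le_rfl (hcQ.mono hle)⟩
  have hi : resS (CD D : Set A) c * resS (CD D : Set A) c = resS (CD D : Set A) c := by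
    rw [← resS_CD_mul le_rfl hp hcD hcD, hc.blk.idem]
  rcases h.root.fblk.mul_eq hm hi with h1 | h1
  · exfalso
    apply h.br
    have hfD : InvBy D f := h.root.fblk.invBy.mono (D_le_CD hcom)
    have h2 : resS (CD D : Set A) i * f = resS (CD D : Set A) i := by
      have h3 := resS_CD_mul le_rfl hp hiD hfD
      rw [h.mf, BrAux.resS_of_SuppIn h.root.fblk.suppIn] at h3
      exact h3.symm
    have h4 : resS (CD D : Set A) i * resS (CD D : Set A) c = resS (CD D : Set A) i := by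
      have h5 : InvBy D (resS (CD Q : Set A) i) := (mem_fixAlg.1 (resS_CD_inv hQ hcom hiD)).2
      have h6 := resS_CD_mul le_rfl hp h5 hcD
      rw [hc.ic, resS_CD_CD hQ] at h6
      exact h6.symm
    calc resS (CD D : Set A) i = resS (CD D : Set A) i * resS (CD D : Set A) c * f := by
          rw [h4, h2]
      _ = 0 := by rw [mul_assoc, h1, mul_zero]
  · exact h1

theorem Lb.dfg (h : Src p b D f i) {Q : Subgroup A} (hQ : Q ≤ D) {c : MonoidAlgebra k A}
    (hc : Lb Q i c) : IsDefectGroup p (CD Q) c D := by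
  have hcom := h.root.com
  refine ⟨D_le_CQ hQ hcom, h.root.dfg.isPGroup, ?_, ?_⟩
  · have h1 := Lb.f_mul h hQ hc
    apply exists_coeff
    intro h0
    rw [h0, zero_mul] at h1
    exact h.root.fblk.ne_zero h1.symm
  · intro P hP hPp hbr hDP
    refine h.root.dfg.max P le_top hPp ?_ hDP
    apply exists_coeff
    intro h0
    have h1 := Lb.b_mul h hQ hc
    have h2 : resS (CD P : Set A) c ≠ 0 := resS_ne hbr
    apply h2
    have hb := (mem_fixAlg.1 h.root.blk.mem).2
    have h3 : InvBy P (resS (CD Q : Set A) b) := resS_inv hP (hb.mono le_top)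
    have h4 := resS_mul (D := P) hPp h3 (hc.blk.invBy.mono hP)
    rw [h1] at h4
    have h5 : resS (CD P : Set A) (resS (CD Q : Set A) b) = resS (CD P : Set A) b :=
      resS_CD_CD (hQ.trans hDP) b
    change resS (CD P : Set A) c = resS (CD P : Set A) (resS (CD Q : Set A) b) *
      resS (CD P : Set A) c at h4
    rw [h5, h0, zero_mul] at h4
    exact h4

theorem Lb.src (h : Src p b D f i) {Q : Subgroup A} (hQ : Q ≤ D) {c : MonoidAlgebra k A}
    (hc : Lb Q i c) : Src p (dn (CD Q) c) (D.subgroupOf (CD Q)) (dn (CD Q) f)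
      (dn (CD Q) (resS (CD Q : Set A) i)) := by
  have hp := h.root.dfg.isPGroup
  have hcom := h.root.com
  have hDQ : D ≤ CD Q := D_le_CQ hQ hcom
  have hle : CD D ≤ CD Q := Subgroup.centralizer_le hQ
  have hfs : SuppIn (CD Q) f := h.root.fblk.suppIn.mono hle
  have hfD : InvBy D f := h.root.fblk.invBy.mono (D_le_CD hcom)
  have hiD : InvBy D i := (mem_fixAlg.1 h.prim.mem).2
  have hsS : SuppIn (CD Q) (resS (CD Q : Set A) i) := resS_sp _ _
  have hpr := h.prim.br hQ hp hcom (src_ne h hQ)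
  refine ⟨⟨dn_isBlock hc.blk, Hy.isDefect_dn hc.blk.suppIn (Lb.dfg h hQ hc), ?_, ?_, ?_⟩,
    ⟨?_, ?_, dn_ne_zero hsS hpr.ne, ?_⟩, ?_, ?_, ?_, ?_⟩
  · intro x hx y hy
    exact Subtype.ext (hcom x (Subgroup.mem_subgroupOf.1 hx) y (Subgroup.mem_subgroupOf.1 hy))
  · rw [CD_sub hDQ]
    exact isBlock_dn hle h.root.fblk
  · rw [resS_dn hDQ, ← dn_mul ((resS_sp _ _).mono hle) hfs, Lb.f_mul h hQ hc]
  · have h1 := dn_fix (H := CD Q) hpr.mem
    rw [mem_fixAlg] at h1 ⊢
    exact ⟨fun x _ => Subgroup.mem_top x, h1.2⟩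
  · rw [← dn_mul hsS hsS, hpr.idem]
  · intro j hj hjj h1 h2
    have hj1 := mem_fixAlg.1 hj
    have hj2 : j ∈ fixAlg k ((CD Q).subgroupOf (CD Q)) (D.subgroupOf (CD Q)) :=
      mem_fixAlg.2 ⟨fun x _ => Subgroup.mem_subgroupOf.2 x.2, hj1.2⟩
    rcases hpr.prim (ups (CD Q) j) (ups_fix hDQ hj2) (by rw [← map_mul, hjj]) (by
      conv_lhs => rw [← ups_dn hsS]
      rw [← map_mul, h1]) (by
      conv_lhs => rw [← ups_dn hsS]
      rw [← map_mul, h2]) with h3 | h3
    · left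
      rw [← dn_ups (CD Q) j, h3, dn_zero]
    · right
      rw [← dn_ups (CD Q) j, h3]
  · rw [← dn_mul hsS hc.blk.suppIn, hc.ic]
  · rw [← dn_mul hsS hfs]
    have h3 := resS_CD_mul hQ hp hiD hfD
    rw [h.mf, BrAux.resS_of_SuppIn hfs] at h3
    rw [← h3]
  · rw [← dn_mul hfs hsS]
    have h3 := resS_CD_mul hQ hp hfD hiD
    rw [h.fm, BrAux.resS_of_SuppIn hfs] at h3
    rw [← h3]
  · rw [resS_dn hDQ, resS_CD_CD hQ]
    exact dn_ne_zero ((resS_sp _ _).mono hle) h.br

theorem Lb.st (h : Src p b D f i) (hF : Free D f) {Q : Subgroup A} (hQ : Q ≤ D)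
    (hQ1 : Q ≠ ⊥) : St (D.subgroupOf (CD Q)) (dn (CD Q) f) ≤ CD (D.subgroupOf (CD Q)) := by
  have hDQ : D ≤ CD Q := D_le_CQ hQ h.root.com
  have hfs : SuppIn (CD Q) f := h.root.fblk.suppIn.mono (Subgroup.centralizer_le hQ)
  obtain ⟨u, hu, hu1⟩ := (Subgroup.bot_or_exists_ne_one Q).resolve_left hQ1
  intro g hg
  rw [mem_CD_sub hDQ]
  exact hF g (st_up hDQ hfs hg) u (hQ hu) hu1 (Subgroup.mem_centralizer_iff.1 g.2 u hu).symm

theorem Lb.st' (h : Src p b D f i) (hN : St D f ≤ CD D) {Q : Subgroup A} (hQ : Q ≤ D) :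
    St (D.subgroupOf (CD Q)) (dn (CD Q) f) ≤ CD (D.subgroupOf (CD Q)) := by
  have hDQ : D ≤ CD Q := D_le_CQ hQ h.root.com
  have hfs : SuppIn (CD Q) f := h.root.fblk.suppIn.mono (Subgroup.centralizer_le hQ)
  intro g hg
  rw [mem_CD_sub hDQ]
  exact hN (st_up hDQ hfs hg)

end

end Pool.Agent.Lib.P0c8ca5.Ex
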