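import Mathlib
import Pool.Agent.Lib.P0c8ca5Ex.Fm
import Pool.Agent.Lib.P0c8ca5Ex.Loc

/-!
# Fu: the fusion of the local blocks is controlled by the inertial group

PROOF of `fus`. `D ≤ C(Q)` is a defect group of `c` (`Lb.dfg`). `cg x D` is abelian and contains `cg x R = Q`, so `cg x D ≤ C(Q)`; it is a defect group of `cj x d = c` in `cg x (CD R) = CD Q` (transport of `Lb.dfg h hR hd` by conjugation; the library has lemmas like `isDefectGroup_cg`, otherwise check the definition: `HasBr (cg x P) (cj x d) ↔ HasBr P d`). `Hy.defect_conj_sub`: there is `y ∈ CD Q` with `cg x D = cg y D`. `cj x f` and `cj y f` are blocks of `C(cg y D)`, and `resS C(cg y D) c * cj x f = cj x f` (conjugate `Lb.f_mul h hR hd` by `x`), `resS C(cg y D) c * cj y f = cj y f` (conjugate `Lb.f_mul h hQ hc` by `y`; `cj y c = c` because `y ∈ C(Q)`). `fm` with `H = CD Q` and the defect group `cg y D` (`CD (cg y D) ≤ CD Q` because `Q ≤ cg x D = cg y D`): `n ∈ CD Q`, `n` normalizes `cg y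 D`, `cj n (cj y f) = cj x f`. Put `g = (n * y)⁻¹ * x`: `cg g D = D`, `cj g f = f`, `x = (n * y) * g`.
PROOF of `Lb.cj_eq`. `cj g d` and `c` are blocks of `CD (cg g R)` (`cg g R ≤ D`), `resS C(D) (cj g d) * f = cj g (resS C(D) d * f) = cj g f = f` and `resS C(D) c * f = f`. If they were different, their product would be 0 and `f = resS (c * cj g d) * f = 0` (`resS_CD_mul`).
-/

namespace Pool.Agent.Lib.P0c8ca5.Ex

open MonoidAlgebra

variable {p : ℕ} {k : Type*} [Field k] {A : Type*} [Group A]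

namespace FuAux

theorem cg_CD (g : A) (P : Subgroup A) : cg g (CD P) = CD (cg g P) := by
  ext x
  rw [mem_cg, Subgroup.mem_centralizer_iff, Subgroup.mem_centralizer_iff]
  constructor
  · intro h y hy
    have h1 := h _ (mem_cg.1 hy)
    calc y * x = g * ((g⁻¹ * y * g) * (g⁻¹ * x * g)) * g⁻¹ := by group
      _ = g * ((g⁻¹ * x * g) * (g⁻¹ * y * g)) * g⁻¹ := by rw [h1]
      _ = x * y := by group
  · intro h y hy
    have hy' : g * y * g⁻¹ ∈ cg g P := by
      rw [mem_cg]
      have e1 : g⁻¹ * (g * y * g⁻¹) * g = y := by group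
      rw [e1]
      exact hy
    have h1 := h _ hy'
    calc y * (g⁻¹ * x * g) = g⁻¹ * ((g * y * g⁻¹) * x) * g := by group
      _ = g⁻¹ * (x * (g * y * g⁻¹)) * g := by rw [h1]
      _ = (g⁻¹ * x * g) * y := by group

theorem resS_cg (g : A) (K : Subgroup A) (a : MonoidAlgebra k A) :
    resS (cg g K : Set A) (cj g a) = cj g (resS (K : Set A) a) := by
  ext x
  have h1 : x ∈ (cg g K : Set A) ↔ g⁻¹ * x * g ∈ (K : Set A) := mem_cg
  rw [coeff_cj]
  by_cases hx : x ∈ (cg g K : Set A)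
  · rw [coeff_resS_of_mem _ hx, coeff_resS_of_mem _ (h1.1 hx), coeff_cj]
  · rw [coeff_resS_of_notMem _ hx, coeff_resS_of_notMem _ (fun h => hx (h1.2 h))]

theorem isDefectGroup_cg {K D : Subgroup A} {e : MonoidAlgebra k A}
    (h : IsDefectGroup p K e D) (g : A) : IsDefectGroup p (cg g K) (cj g e) (cg g D) where
  le := cg_le_cg h.le
  isPGroup := isPGroup_cg h.isPGroup
  br := hasBr_cg h.br g
  max := fun P hP hpP hbr hDP => by
    have h1 : cg g⁻¹ P ≤ K := by rw [cg_le_iff, inv_inv]; exact hP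
    have h2 := hasBr_cg hbr g⁻¹
    rw [cj_inv_cj] at h2
    have h3 : D ≤ cg g⁻¹ P := cg_le_iff.1 hDP
    have h4 := h.max _ h1 (isPGroup_cg hpP) h2 h3
    rw [← h4, cg_cg, mul_inv_cancel, cg_one]

end FuAux

open FuAux

section
variable [Fact p.Prime] [CharP k p] [IsAlgClosed k] [Finite A]
variable {b f i : MonoidAlgebra k A} {D : Subgroup A}

theorem fus (h : Src p b D f i) {Q R : Subgroup A} (hQ : Q ≤ D) (hR : R ≤ D) {x : A}
    (hx : cg x R = Q) {c d : MonoidAlgebra k A} (hc : Lb Q i c) (hd : Lb R i d)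
    (hcd : cj x d = c) : ∃ g ∈ St D f, ∃ y ∈ CD Q, x = y * g := by
  have hDc : IsDefectGroup p (CD Q) c D := Lb.dfg h hQ hc
  have hDd : IsDefectGroup p (CD R) d D := Lb.dfg h hR hd
  have hxD : IsDefectGroup p (CD Q) c (cg x D) := by
    have h1 := isDefectGroup_cg hDd x
    rwa [cg_CD, hx, hcd] at h1
  have : Fintype A := Fintype.ofFinite A
  obtain ⟨y, hy, hxy⟩ := Hy.defect_conj_sub hc.blk hDc hxD
  have hcy : cj y c = c := invBy_iff_cj.1 hc.blk.invBy y hy
  have hbx : IsBlock (CD (cg x D)) (cj x f) := by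
    have h1 := isBlock_cg h.root.fblk x
    rwa [cg_CD] at h1
  have hby : IsBlock (CD (cg x D)) (cj y f) := by
    have h1 := isBlock_cg h.root.fblk y
    rwa [cg_CD, ← hxy] at h1
  have hmx : resS (CD (cg x D) : Set A) c * cj x f = cj x f := by
    have h1 := Lb.f_mul h hR hd
    have h2 := congrArg (cj x) h1
    rw [cj_mul, ← resS_cg, hcd, cg_CD] at h2
    exact h2
  have hmy : resS (CD (cg x D) : Set A) c * cj y f = cj y f := by
    have h1 := Lb.f_mul h hQ hc
    have h2 := congrArg (cj y) h1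
    rw [cj_mul, ← resS_cg, hcy, cg_CD, ← hxy] at h2
    exact h2
  have hQx : Q ≤ cg x D := by
    rw [← hx]
    exact cg_le_cg hR
  have hH : CD (cg x D) ≤ CD Q := Subgroup.centralizer_le hQx
  obtain ⟨n, hn, hnD, hnf⟩ := fm hc.blk hxD hH hby hbx hmy hmx
  have hnx : cg n (cg x D) = cg x D := cg_eq_self_iff.2 hnD
  have hny : cg (n * y) D = cg x D := by
    rw [← cg_cg, ← hxy, hnx]
  refine ⟨(n * y)⁻¹ * x, ⟨?_, ?_⟩, n * y, (CD Q).mul_mem hn hy, by group⟩
  · rw [← cg_eq_self_iff, ← cg_cg, ← hny, cg_cg, inv_mul_cancel, cg_one]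
  · rw [← cj_cj, ← hnf, cj_cj n y, cj_cj, inv_mul_cancel, cj_one_left]

theorem Lb.cj_eq (h : Src p b D f i) {R : Subgroup A} (hR : R ≤ D) {g : A} (hg : g ∈ St D f)
    {c d : MonoidAlgebra k A} (hd : Lb R i d) (hc : Lb (cg g R) i c) : cj g d = c := by
  have hgD : cg g D = D := cg_eq_self_iff.2 hg.1
  have hQ : cg g R ≤ D := by
    rw [← hgD]
    exact cg_le_cg hR
  have hDQ : D ≤ CD (cg g R) := SrcAux.D_le_CQ hQ h.root.com
  have hbd : IsBlock (CD (cg g R)) (cj g d) := by
    have h1 := isBlock_cg hd.blk g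
    rwa [cg_CD] at h1
  have hmd : resS (CD D : Set A) (cj g d) * f = f := by
    have h1 := Lb.f_mul h hR hd
    have h2 := congrArg (cj g) h1
    rw [cj_mul, ← resS_cj (mem_normalizer_centralizer hg.1), hg.2] at h2
    exact h2
  have hmc : resS (CD D : Set A) c * f = f := Lb.f_mul h hQ hc
  rcases hbd.eq_or_mul_eq_zero hc.blk with h3 | h3
  · exact h3
  · exfalso
    apply h.root.fblk.ne_zero
    have h4 := resS_CD_mul (le_refl D) h.root.dfg.isPGroup (hbd.invBy.mono hDQ)
      (hc.blk.invBy.mono hDQ)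
    rw [h3, resS_zero] at h4
    calc f = resS (CD D : Set A) (cj g d) * (resS (CD D : Set A) c * f) := by rw [hmc, hmd]
      _ = 0 := by rw [← mul_assoc, ← h4, zero_mul]

end

end Pool.Agent.Lib.P0c8ca5.Ex
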