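import Pool.Agent.Lib.P0c8ca5Ex.R3

/-!
# The case of trivial inertial quotient

Rows `g i`, `|D|` of them, orthogonal as in `R3` with `E = 1`. A vector of positive integers orthogonal to all the columns
`u ≠ 1` is constant.
-/

set_option autoImplicit false
set_option linter.unusedSectionVars false

namespace Pool.Agent.Lib.P0c8ca5.Ex

section

variable {D : Type*} [CommGroup D] [Fintype D] {K : Type*} [Field K] [CharZero K]

/-- the value at 1 is an integer -/
theorem vir_one {g : D → K} (hg : g ∈ vir D K) : ∃ a : ℤ, g 1 = (a : K) := by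
  refine vir_induction (P := fun g => ∃ a : ℤ, g 1 = (a : K)) ?_ ?_ ?_ ?_ hg
  · intro l
    exact ⟨1, by rw [chr_at_one]; simp⟩
  · exact ⟨0, by simp⟩
  · rintro x y ⟨a, ha⟩ ⟨b, hb⟩
    exact ⟨a + b, by rw [Pi.add_apply, ha, hb]; simp⟩
  · rintro x ⟨a, ha⟩
    exact ⟨-a, by rw [Pi.neg_apply, ha]; simp⟩

variable [HasEnoughRootsOfUnity K (Monoid.exponent D)]

/-- **a positive vector orthogonal to the columns is constant** -/
theorem delta {I : Type*} [Fintype I] (g : I → D → K) (hg : ∀ i, g i ∈ vir D K)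
    (horth : ∀ u : D, u ≠ 1 → ∑ i, g i u * g i u⁻¹ = (Fintype.card D : K))
    (horth0 : ∀ u v : D, u ≠ 1 → v ≠ 1 → u ≠ v → ∑ i, g i u * g i v⁻¹ = 0)
    (hcard : Fintype.card I = Fintype.card D) (d : I → ℕ) (hpos : ∀ i, 0 < d i)
    (hd : ∀ u : D, u ≠ 1 → ∑ i, (d i : K) * g i u = 0) : ∀ i j, d i = d j := by
  classical
  set c : ℕ := ∑ i, d i ^ 2 with hc
  have hI : Nonempty I := by
    rw [← Fintype.card_pos_iff, hcard]
    exact Fintype.card_pos_iff.2 ⟨1⟩
  have hcpos : 0 < c := by
    obtain ⟨i0⟩ := hI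
    refine lt_of_lt_of_le (pow_pos (hpos i0) 2) ?_
    exact Finset.single_le_sum (f := fun i => d i ^ 2) (fun i _ => Nat.zero_le _) (Finset.mem_univ i0)
  have hcK : (c : K) ≠ 0 := Nat.cast_ne_zero.2 hcpos.ne'
  have hn : (Fintype.card D : K) ≠ 0 := card_ne
  let P : Matrix I D K := fun i u => if u = 1 then (d i : K) else g i u
  let Q : Matrix D I K := fun u i => if u = 1 then (d i : K) / c else g i u⁻¹ / Fintype.card D
  have hQP : Q * P = 1 := by
    ext u v
    rw [Matrix.mul_apply, Matrix.one_apply]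
    by_cases hu : u = 1
    · by_cases hv : v = 1
      · rw [if_pos (hu.trans hv.symm)]
        simp only [P, Q, hu, hv, if_true]
        have h1 : ∀ i, (d i : K) / c * d i = (c : K)⁻¹ * ((d i ^ 2 : ℕ) : K) := by
          intro i
          push_cast
          ring
        rw [Finset.sum_congr rfl fun i _ => h1 i, ← Finset.mul_sum, ← Nat.cast_sum, ← hc,
          inv_mul_cancel₀ hcK]
      · rw [if_neg (fun h => hv (h.symm.trans hu))]
        simp only [P, Q, hu, hv, if_true, if_false]
        have h1 : ∀ i, (d i : K) / c * g i v = (c : K)⁻¹ * ((d i : K) * g i v) := by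
          intro i
          ring
        rw [Finset.sum_congr rfl fun i _ => h1 i, ← Finset.mul_sum, hd v hv, mul_zero]
    · by_cases hv : v = 1
      · rw [if_neg (fun h => hu (h.trans hv))]
        simp only [P, Q, hu, hv, if_true, if_false]
        have h1 : ∀ i, g i u⁻¹ / (Fintype.card D : K) * (d i : K) =
            (Fintype.card D : K)⁻¹ * ((d i : K) * g i u⁻¹) := by
          intro i
          ring
        rw [Finset.sum_congr rfl fun i _ => h1 i, ← Finset.mul_sum,
          hd u⁻¹ (fun h => hu (inv_eq_one.1 h)), mul_zero]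
      · simp only [P, Q, hu, hv, if_false]
        have h1 : ∀ i, g i u⁻¹ / (Fintype.card D : K) * g i v =
            (Fintype.card D : K)⁻¹ * (g i v * g i u⁻¹) := by
          intro i
          ring
        rw [Finset.sum_congr rfl fun i _ => h1 i, ← Finset.mul_sum]
        by_cases huv : u = v
        · rw [if_pos huv, huv, horth v hv, inv_mul_cancel₀ hn]
        · rw [if_neg huv, horth0 v u hv hu (fun h => huv h.symm), mul_zero]
  have hPQ : P * Q = 1 := by
    let ε : I ≃ D := Fintype.equivOfCardEq hcard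
    exact (Matrix.mul_eq_one_comm_of_equiv ε.symm).1 hQP
  have hr : ∀ i, ∃ r : ℤ, c * r = (Fintype.card D : ℤ) * d i ^ 2 := by
    intro i
    have h1 := congrFun (congrFun hPQ i) i
    rw [Matrix.mul_apply, Matrix.one_apply_eq, ← Finset.add_sum_erase _ _ (Finset.mem_univ (1 : D))] at h1
    have h2 : ∑ u ∈ Finset.univ.erase (1 : D), P i u * Q u i =
        (Fintype.card D : K)⁻¹ * ∑ u ∈ Finset.univ.erase (1 : D), g i u * g i u⁻¹ := by
      rw [Finset.mul_sum]
      refine Finset.sum_congr rfl fun u hu => ?_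
      have hu1 : u ≠ 1 := Finset.ne_of_mem_erase hu
      simp only [P, Q, hu1, if_false]
      ring
    have h3 : P i 1 * Q 1 i = (d i : K) ^ 2 / c := by
      simp only [P, Q, if_true]
      ring
    -- the function `u ↦ g i u * g i u⁻¹`
    have h4 : (fun u => g i u * g i u⁻¹) ∈ vir D K := by
      have h5 : (fun u => g i u⁻¹) ∈ vir D K := by
        have := vir_comp (hg i) (MulEquiv.inv D).toMonoidHom
        exact this
      exact (vir D K).mul_mem (hg i) h5
    obtain ⟨a, ha⟩ := mem_vir_iff.1 h4 1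
    obtain ⟨b, hb⟩ := vir_one (hg i)
    have h6 : ∑ u, g i u * g i u⁻¹ = (Fintype.card D : K) * a := by
      rw [← ha]
      unfold mlt
      rw [← mul_assoc, mul_inv_cancel₀ hn, one_mul]
      refine Finset.sum_congr rfl fun u _ => ?_
      have h7 : chr (1 : D →* Kˣ) u⁻¹ = 1 := by simp [chr]
      rw [h7, mul_one]
    rw [← Finset.add_sum_erase _ _ (Finset.mem_univ (1 : D)), inv_one, hb] at h6
    refine ⟨Fintype.card D - Fintype.card D * a + b * b, ?_⟩
    have h8 : (c : K) * ((Fintype.card D : K) - Fintype.card D * a + b * b) =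
        (Fintype.card D : K) * d i ^ 2 := by
      rw [h2, h3] at h1
      have h9 : ∑ u ∈ Finset.univ.erase (1 : D), g i u * g i u⁻¹ =
          (Fintype.card D : K) * a - b * b := by
        rw [← h6]
        ring
      rw [h9] at h1
      have h10 : (d i : K) ^ 2 / c =
          1 - (Fintype.card D : K)⁻¹ * ((Fintype.card D : K) * a - b * b) := by
        linear_combination h1
      rw [div_eq_iff hcK] at h10
      have h11 : (Fintype.card D : K) * (Fintype.card D : K)⁻¹ = 1 := mul_inv_cancel₀ hn
      rw [h10]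
      linear_combination (c : K) * ((Fintype.card D : K) * a - b * b) * h11
    exact_mod_cast h8
  choose r hr using hr
  have hrpos : ∀ i, 1 ≤ r i := by
    intro i
    have h1 : 0 < (c : ℤ) * r i := by
      rw [hr]
      have : 0 < Fintype.card D := Fintype.card_pos_iff.2 ⟨1⟩
      have := hpos i
      positivity
    have h2 : (0 : ℤ) < c := by exact_mod_cast hcpos
    exact (pos_iff_pos_of_mul_pos h1).1 h2
  have hsum : ∑ i, r i = Fintype.card D := by
    have h1 : (c : ℤ) * ∑ i, r i = (c : ℤ) * Fintype.card D := by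
      rw [Finset.mul_sum, Finset.sum_congr rfl fun i _ => hr i, ← Finset.mul_sum, mul_comm]
      congr 1
      rw [hc]
      push_cast
      rfl
    have h2 : (c : ℤ) ≠ 0 := by exact_mod_cast hcpos.ne'
    exact mul_left_cancel₀ h2 h1
  have hone : ∀ i, r i = 1 := by
    have h1 : ∑ i, (r i - 1) = 0 := by
      rw [Finset.sum_sub_distrib, hsum, Finset.sum_const, Finset.card_univ, hcard]
      simp
    intro i
    have h2 := (Finset.sum_eq_zero_iff_of_nonneg (fun i _ => by have := hrpos i; linarith)).1 h1 i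
      (Finset.mem_univ _)
    linarith
  intro i j
  have h1 := hr i
  have h2 := hr j
  rw [hone] at h1 h2
  have h3 : (Fintype.card D : ℤ) * d i ^ 2 = (Fintype.card D : ℤ) * d j ^ 2 := h1.symm.trans h2
  have h4 : (Fintype.card D : ℤ) ≠ 0 := by
    have : 0 < Fintype.card D := Fintype.card_pos_iff.2 ⟨1⟩
    exact_mod_cast this.ne'
  have h5 : (d i : ℤ) ^ 2 = (d j : ℤ) ^ 2 := mul_left_cancel₀ h4 h3
  have h6 : d i ^ 2 = d j ^ 2 := by exact_mod_cast h5
  exact Nat.pow_left_injective (n := 2) (by norm_num) h6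

end

end Pool.Agent.Lib.P0c8ca5.Ex
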