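import Mathlib
import Pool.Agent.Lib.P0c8ca5Ex.R4

/-!
# NA: the number of rows, from the Gram matrix with weights

`T` is a finite abelian p-group, `E` a group of automorphisms of `T` acting freely off `1`. The
rows `g i` are virtual characters of `T`, `g i u = n u * f i u` for `u ≠ 1`, the `f i` are
`E`-invariant and locally virtual and
`∑ i, g i u * g i v⁻¹ = |T| * n u * n v` if `v` is in the `E`-orbit of `u ≠ 1`, `|T| * a` if
`u = v = 1`, and `0` otherwise, where `a` is congruent to `|E|` modulo `p`.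
-/

namespace Pool.Agent.Lib.P0c8ca5.Ex

open Finset

set_option linter.unusedSectionVars false

section
variable {T : Type*} [CommGroup T] [Fintype T] {K : Type*} [Field K] [CharZero K]

/-- the data -/
structure RowData (p : ℕ) (E : Subgroup (MulAut T)) {I : Type*} [Fintype I] (g f : I → T → K)
    (n : T → ℤ) (a : ℤ) : Prop where
  vir : ∀ i, g i ∈ vir T K
  gen : ∀ u v, Subgroup.zpowers v = Subgroup.zpowers u → n v = n u
  fac : ∀ i u, u ≠ 1 → g i u = (n u : K) * f i u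
  inv : ∀ i, ∀ φ ∈ E, ∀ u, u ≠ 1 → f i (φ u) = f i u
  loc : ∀ i u, u ≠ 1 → ∃ β ∈ Ex.vir T K, ∀ v, Subgroup.zpowers v = Subgroup.zpowers u → f i v = β v
  gram : ∀ u, u ≠ 1 → ∀ φ ∈ E,
    ∑ i, g i u * g i (φ u)⁻¹ = (Fintype.card T : K) * (n u : K) * (n (φ u) : K)
  gram0 : ∀ u v, (¬ ∃ φ ∈ E, v = φ u) → ∑ i, g i u * g i v⁻¹ = 0
  one : ∑ i, g i 1 * g i 1 = (Fintype.card T : K) * (a : K)
  cong : (p : ℤ) ∣ a - Nat.card E

variable {p : ℕ} {E : Subgroup (MulAut T)} [Fintype E] {I : Type*} [Fintype I] {g f : I → T → K}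
  {n : T → ℤ} {a : ℤ}

theorem map_zp (φ : MulAut T) {u v : T} (h : Subgroup.zpowers v = Subgroup.zpowers u) :
    Subgroup.zpowers (φ v) = Subgroup.zpowers (φ u) := by
  have h1 : ∀ w : T, Subgroup.zpowers (φ w) = (Subgroup.zpowers w).map φ.toMonoidHom := by
    intro w
    rw [MonoidHom.map_zpowers]
    rfl
  rw [h1, h1, h]

/-- the symmetrised weights -/
def nE (E : Subgroup (MulAut T)) [Fintype E] (n : T → ℤ) (u : T) : ℤ :=
  ∑ φ : E, n ((φ : MulAut T) u)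

/-- the symmetrised rows -/
def gE (E : Subgroup (MulAut T)) [Fintype E] (g : I → T → K) (i : I) (u : T) : K :=
  ∑ φ : E, g i ((φ : MulAut T) u)

theorem nE_gen (hn : ∀ u v, Subgroup.zpowers v = Subgroup.zpowers u → n v = n u) (u v : T)
    (h : Subgroup.zpowers v = Subgroup.zpowers u) : nE E n v = nE E n u :=
  Finset.sum_congr rfl fun φ _ => hn _ _ (map_zp _ h)

theorem nE_inv (n : T → ℤ) {φ : MulAut T} (hφ : φ ∈ E) (u : T) : nE E n (φ u) = nE E n u := by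
  refine Fintype.sum_equiv (Equiv.mulRight (⟨φ, hφ⟩ : E)) _ _ fun ψ => ?_
  rfl

theorem gE_vir (hg : ∀ i, g i ∈ vir T K) (i : I) : gE E g i ∈ vir T K := by
  have h : gE E g i = ∑ φ : E, fun u => g i ((φ : MulAut T).toMonoidHom u) := by
    ext u
    rw [Finset.sum_apply]
    rfl
  rw [h]
  exact Subring.sum_mem _ fun φ _ => vir_comp (hg i) _

theorem gE_fac (hd : RowData p E g f n a) (i : I) {u : T} (hu : u ≠ 1) :
    gE E g i u = (nE E n u : K) * f i u := by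
  rw [gE, nE, Int.cast_sum, Finset.sum_mul]
  refine Finset.sum_congr rfl fun φ _ => ?_
  rw [hd.fac i _ (fun h => hu ((map_eq_one_iff _ (φ : MulAut T).injective).1 h)),
    hd.inv i φ φ.2 u hu]

theorem gE_gram (hd : RowData p E g f n a) {u : T} (hu : u ≠ 1) {φ : MulAut T} (hφ : φ ∈ E) :
    ∑ i, gE E g i u * gE E g i (φ u)⁻¹ = (Fintype.card T : K) * (nE E n u : K) ^ 2 := by
  have h0 : ∀ i, gE E g i u * gE E g i (φ u)⁻¹
      = ∑ x : E, ∑ y : E, g i ((x : MulAut T) u) * g i ((y : MulAut T) (φ u))⁻¹ := by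
    intro i
    rw [gE, gE, Finset.sum_mul_sum]
    refine Finset.sum_congr rfl fun x _ => Finset.sum_congr rfl fun y _ => ?_
    rw [map_inv]
  rw [Finset.sum_congr rfl fun i _ => h0 i, Finset.sum_comm]
  have h1 : ∀ x : E, ∑ i, ∑ y : E, g i ((x : MulAut T) u) * g i ((y : MulAut T) (φ u))⁻¹
      = (Fintype.card T : K) * (n ((x : MulAut T) u) : K) * (nE E n (φ u) : K) := by
    intro x
    rw [Finset.sum_comm, nE, Int.cast_sum, Finset.mul_sum]
    refine Finset.sum_congr rfl fun y _ => ?_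
    have hx : (x : MulAut T) u ≠ 1 := fun h =>
      hu ((map_eq_one_iff _ (x : MulAut T).injective).1 h)
    have h2 := hd.gram ((x : MulAut T) u) hx ((y : MulAut T) * φ * (x : MulAut T)⁻¹)
      (E.mul_mem (E.mul_mem y.2 hφ) (E.inv_mem x.2))
    have h3 : ((y : MulAut T) * φ * (x : MulAut T)⁻¹) ((x : MulAut T) u)
        = (y : MulAut T) (φ u) := by
      rw [MulAut.mul_apply, MulAut.mul_apply, MulAut.inv_apply_self]
    rw [h3] at h2
    exact h2
  rw [Finset.sum_congr rfl fun x _ => h1 x, ← Finset.sum_mul, ← Finset.mul_sum,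
    nE_inv n hφ, pow_two, ← mul_assoc]
  congr 2
  rw [nE, Int.cast_sum]

theorem gE_gram0 (hd : RowData p E g f n a) {u v : T} (h : ¬ ∃ φ ∈ E, v = φ u) :
    ∑ i, gE E g i u * gE E g i v⁻¹ = 0 := by
  have h0 : ∀ i, gE E g i u * gE E g i v⁻¹
      = ∑ x : E, ∑ y : E, g i ((x : MulAut T) u) * g i ((y : MulAut T) v)⁻¹ := by
    intro i
    rw [gE, gE, Finset.sum_mul_sum]
    refine Finset.sum_congr rfl fun x _ => Finset.sum_congr rfl fun y _ => ?_
    rw [map_inv]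
  rw [Finset.sum_congr rfl fun i _ => h0 i, Finset.sum_comm]
  refine Finset.sum_eq_zero fun x _ => ?_
  rw [Finset.sum_comm]
  refine Finset.sum_eq_zero fun y _ => ?_
  refine hd.gram0 _ _ ?_
  rintro ⟨φ, hφ, hv⟩
  refine h ⟨(y : MulAut T)⁻¹ * φ * (x : MulAut T), E.mul_mem (E.mul_mem (E.inv_mem y.2) hφ) x.2, ?_⟩
  rw [MulAut.mul_apply, MulAut.mul_apply, ← hv, MulAut.inv_apply_self]

theorem gE_one (hd : RowData p E g f n a) :
    ∑ i, gE E g i 1 * gE E g i 1 = (Fintype.card T : K) * ((Nat.card E : K) ^ 2 * (a : K)) := by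
  have h0 : ∀ i, gE E g i 1 = (Nat.card E : K) * g i 1 := by
    intro i
    rw [gE, Finset.sum_congr rfl fun (x : E) _ => by rw [map_one], Finset.sum_const,
      Finset.card_univ, nsmul_eq_mul, Nat.card_eq_fintype_card]
  rw [Finset.sum_congr rfl fun i _ => by rw [h0 i]]
  have h1 : ∑ i, (Nat.card E : K) * g i 1 * ((Nat.card E : K) * g i 1)
      = (Nat.card E : K) ^ 2 * ∑ i, g i 1 * g i 1 := by
    rw [Finset.mul_sum]
    exact Finset.sum_congr rfl fun i _ => by ring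
  rw [h1, hd.one]
  ring

/-- the sum over an orbit of a free action -/
theorem sum_orbit [DecidableEq T] (hE : ∀ φ ∈ E, ∀ u : T, u ≠ 1 → φ u = u → φ = 1) {u : T}
    (hu : u ≠ 1) (F : T → K) (hF : ∀ v, (¬ ∃ φ ∈ E, v = φ u) → F v = 0) :
    ∑ v, F v = ∑ φ : E, F ((φ : MulAut T) u) := by
  have hinj : Function.Injective fun φ : E => (φ : MulAut T) u := by
    intro φ ψ h
    have h1 : ((ψ : MulAut T)⁻¹ * (φ : MulAut T)) u = u := by
      rw [MulAut.mul_apply, show (φ : MulAut T) u = (ψ : MulAut T) u from h, MulAut.inv_apply_self]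
    have h2 := hE _ (E.mul_mem (E.inv_mem ψ.2) φ.2) u hu h1
    exact Subtype.ext (inv_mul_eq_one.1 h2).symm
  rw [← Finset.sum_image (f := F) (s := Finset.univ) (g := fun φ : E => (φ : MulAut T) u)
    (fun x _ y _ h => hinj h)]
  refine (Finset.sum_subset (Finset.subset_univ _) fun v _ hv => hF v ?_).symm
  rintro ⟨φ, hφ, rfl⟩
  exact hv (Finset.mem_image.2 ⟨⟨φ, hφ⟩, Finset.mem_univ _, rfl⟩)

variable [HasEnoughRootsOfUnity K (Monoid.exponent T)]

/-- the function `π` -/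
theorem pi_exists (hE : ∀ φ ∈ E, ∀ u : T, u ≠ 1 → φ u = u → φ = 1) (hd : RowData p E g f n a) :
    ∃ π ∈ vir T K, (∀ u, u ≠ 1 → π u = (Nat.card E : K) * (nE E n u : K) ^ 2) ∧
      π 1 = (Nat.card E : K) ^ 2 * (a : K) := by
  classical
  have hc : (Fintype.card T : K) ≠ 0 := Nat.cast_ne_zero.2 Fintype.card_ne_zero
  have hm : ∀ i, mlt (gE E g i) 1 = (Fintype.card T : K)⁻¹ * ∑ v, gE E g i v⁻¹ := by
    intro i
    rw [mlt]
    congr 1
    rw [← Equiv.sum_comp (Equiv.inv T)]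
    refine Finset.sum_congr rfl fun v _ => ?_
    simp [chr]
  have hπ : ∀ u, (∑ i, mlt (gE E g i) 1 * gE E g i u)
      = (Fintype.card T : K)⁻¹ * ∑ v, ∑ i, gE E g i u * gE E g i v⁻¹ := by
    intro u
    rw [Finset.sum_comm, Finset.mul_sum]
    refine Finset.sum_congr rfl fun i _ => ?_
    rw [hm, ← Finset.mul_sum]
    ring
  refine ⟨fun u => ∑ i, mlt (gE E g i) 1 * gE E g i u, ?_, ?_, ?_⟩
  · have h : (fun u => ∑ i, mlt (gE E g i) 1 * gE E g i u)
        = ∑ i, fun u => mlt (gE E g i) 1 * gE E g i u := by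
      ext u
      rw [Finset.sum_apply]
    rw [h]
    refine Subring.sum_mem _ fun i _ => ?_
    obtain ⟨c, hc'⟩ := mem_vir_iff.1 (gE_vir (E := E) hd.vir i) 1
    have h2 : (fun u => mlt (gE E g i) 1 * gE E g i u) = c • gE E g i := by
      ext u
      rw [hc', Pi.smul_apply, zsmul_eq_mul]
    rw [h2]
    exact zsmul_mem (gE_vir hd.vir i) c
  · intro u hu
    change (∑ i, mlt (gE E g i) 1 * gE E g i u) = _
    rw [hπ, sum_orbit hE hu _ fun v hv => gE_gram0 hd hv,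
      Finset.sum_congr rfl fun φ _ => gE_gram hd hu φ.2, Finset.sum_const, Finset.card_univ,
      nsmul_eq_mul, Nat.card_eq_fintype_card]
    field_simp
  · change (∑ i, mlt (gE E g i) 1 * gE E g i 1) = _
    rw [hπ, Finset.sum_eq_single 1]
    · have h1 := gE_one hd
      rw [inv_one, h1]
      field_simp
    · intro v _ hv
      refine gE_gram0 hd ?_
      rintro ⟨φ, _, h⟩
      exact hv (by rw [h, map_one])
    · intro h
      exact absurd (Finset.mem_univ _) h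

theorem pi_cong (hp : p.Prime) (hp2 : p ≠ 2) (hT : IsPGroup p T)
    (hE : ∀ φ ∈ E, ∀ u : T, u ≠ 1 → φ u = u → φ = 1) (hpE : ¬ p ∣ Nat.card E)
    (hd : RowData p E g f n a) {u : T} (hu : u ≠ 1) :
    (p : ℤ) ∣ nE E n u ^ 2 - (Nat.card E : ℤ) ^ 2 := by
  obtain ⟨π, hπ, h1, h2⟩ := pi_exists hE hd
  have h3 := vir_congr hp hp2 hT hπ (u := u) (a := (Nat.card E : ℤ) * nE E n u ^ 2)
    (b := (Nat.card E : ℤ) ^ 2 * a) (by rw [h1 u hu]; push_cast; ring)
    (by rw [h2]; push_cast; ring)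
  have h4 : (p : ℤ) ∣ (Nat.card E : ℤ) * (nE E n u ^ 2 - (Nat.card E : ℤ) ^ 2) := by
    have h5 : (Nat.card E : ℤ) * (nE E n u ^ 2 - (Nat.card E : ℤ) ^ 2)
        = ((Nat.card E : ℤ) * nE E n u ^ 2 - (Nat.card E : ℤ) ^ 2 * a)
          + (Nat.card E : ℤ) ^ 2 * (a - Nat.card E) := by ring
    rw [h5]
    exact dvd_add h3 (Dvd.dvd.mul_left hd.cong _)
  rcases (Nat.prime_iff_prime_int.1 hp).dvd_or_dvd h4 with h | h
  · exact absurd (Int.natCast_dvd_natCast.1 h) hpE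
  · exact h

/-- the normalised rows -/
theorem rows_exist (hp : p.Prime) (hp2 : p ≠ 2) (hT : IsPGroup p T)
    (hE : ∀ φ ∈ E, ∀ u : T, u ≠ 1 → φ u = u → φ = 1) (hpE : ¬ p ∣ Nat.card E)
    (hd : RowData p E g f n a) :
    ∃ (s : T → ℤ) (ψ : I → T → K), (∀ i, ψ i ∈ vir T K) ∧ (∀ u, s u * s u = 1) ∧
      (∀ u v, Subgroup.zpowers v = Subgroup.zpowers u → s v = s u) ∧
      (∀ φ ∈ E, ∀ u, s (φ u) = s u) ∧ ∀ i u, u ≠ 1 → ψ i u = (s u : K) * f i u := by
  obtain ⟨π, hπ, h1, _⟩ := pi_exists hE hd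
  have hpi := Nat.prime_iff_prime_int.1 hp
  -- the inverse of `|E|` modulo `p`
  obtain ⟨q, hq⟩ : ∃ q : ℤ, (p : ℤ) ∣ q * Nat.card E - 1 := by
    have hc : IsCoprime (Nat.card E : ℤ) (p : ℤ) :=
      Nat.isCoprime_iff_coprime.2 ((Nat.Prime.coprime_iff_not_dvd hp).2 hpE).symm
    obtain ⟨x, y, hxy⟩ := hc
    exact ⟨x, -y, by linarith⟩
  have hn : ∀ u, u ≠ 1 → (p : ℤ) ∣ (q * nE E n u) ^ 2 - 1 := by
    intro u hu
    have h3 := pi_cong hp hp2 hT hE hpE hd hu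
    have h4 : (q * nE E n u) ^ 2 - 1 = q ^ 2 * (nE E n u ^ 2 - (Nat.card E : ℤ) ^ 2)
        + (q * Nat.card E - 1) * (q * Nat.card E + 1) := by ring
    rw [h4]
    exact dvd_add (Dvd.dvd.mul_left h3 _) (Dvd.dvd.mul_right hq _)
  have hr : ∀ i, ∃ ψ ∈ vir T K, ∀ u, u ≠ 1 → ψ u = (sg p (q * nE E n u) : K) * f i u := by
    intro i
    refine rows hp hp2 hT (e := Nat.card E) hpE (n := fun u => q * nE E n u) hn ?_
      (π := q ^ 2 • π) (zsmul_mem hπ _) ?_ (θ := q • gE E g i) (zsmul_mem (gE_vir hd.vir i) _)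
      (f := f i) ?_ (fun u hu => hd.loc i u hu)
    · intro u v h
      change q * nE E n v = q * nE E n u
      rw [nE_gen hd.gen u v h]
    · intro u hu
      rw [Pi.smul_apply, zsmul_eq_mul, h1 u hu]
      push_cast
      ring
    · intro u hu
      rw [Pi.smul_apply, zsmul_eq_mul, gE_fac hd i hu]
      push_cast
      ring
  choose ψ hψ hψ' using hr
  refine ⟨fun u => sg p (q * nE E n u), ψ, hψ, fun u => sg_mul_sg _ _, ?_, ?_, hψ'⟩
  · intro u v h
    change sg p (q * nE E n v) = sg p (q * nE E n u)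
    rw [nE_gen hd.gen u v h]
  · intro φ hφ u
    change sg p (q * nE E n (φ u)) = sg p (q * nE E n u)
    rw [nE_inv n hφ]

theorem nE_ne (hp : p.Prime) (hp2 : p ≠ 2) (hT : IsPGroup p T)
    (hE : ∀ φ ∈ E, ∀ u : T, u ≠ 1 → φ u = u → φ = 1) (hpE : ¬ p ∣ Nat.card E)
    (hd : RowData p E g f n a) {u : T} (hu : u ≠ 1) : (nE E n u : K) ≠ 0 := by
  rw [Int.cast_ne_zero]
  intro h
  have h1 := pi_cong hp hp2 hT hE hpE hd hu
  rw [h, zero_pow two_ne_zero, zero_sub, dvd_neg] at h1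
  exact hpE (Int.natCast_dvd_natCast.1 ((Nat.prime_iff_prime_int.1 hp).dvd_of_dvd_pow h1))

theorem f_gram (hp : p.Prime) (hp2 : p ≠ 2) (hT : IsPGroup p T)
    (hE : ∀ φ ∈ E, ∀ u : T, u ≠ 1 → φ u = u → φ = 1) (hpE : ¬ p ∣ Nat.card E)
    (hd : RowData p E g f n a) {u v : T} (hu : u ≠ 1) (h : ∃ φ ∈ E, v = φ u) :
    ∑ i, f i u * f i v⁻¹ = (Fintype.card T : K) := by
  obtain ⟨φ, hφ, rfl⟩ := h
  have h1 := gE_gram hd hu hφ
  have hne := nE_ne hp hp2 hT hE hpE hd hu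
  have hv : (φ u)⁻¹ ≠ 1 := by
    rw [inv_ne_one]
    exact fun h => hu ((map_eq_one_iff _ φ.injective).1 h)
  rw [Finset.sum_congr rfl fun i _ => by rw [gE_fac hd i hu, gE_fac hd i hv],
    nE_gen hd.gen (φ u) (φ u)⁻¹ Subgroup.zpowers_inv, nE_inv n hφ] at h1
  have h2 : ∑ i, (nE E n u : K) * f i u * ((nE E n u : K) * f i (φ u)⁻¹)
      = (nE E n u : K) ^ 2 * ∑ i, f i u * f i (φ u)⁻¹ := by
    rw [Finset.mul_sum]
    exact Finset.sum_congr rfl fun i _ => by ring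
  rw [h2, mul_comm (Fintype.card T : K)] at h1
  exact mul_left_cancel₀ (pow_ne_zero 2 hne) h1

theorem f_gram0 (hp : p.Prime) (hp2 : p ≠ 2) (hT : IsPGroup p T)
    (hE : ∀ φ ∈ E, ∀ u : T, u ≠ 1 → φ u = u → φ = 1) (hpE : ¬ p ∣ Nat.card E)
    (hd : RowData p E g f n a) {u v : T} (hu : u ≠ 1) (hv : v ≠ 1) (h : ¬ ∃ φ ∈ E, v = φ u) :
    ∑ i, f i u * f i v⁻¹ = 0 := by
  have h1 := gE_gram0 hd h
  have hne := nE_ne hp hp2 hT hE hpE hd hu
  have hne' := nE_ne hp hp2 hT hE hpE hd (inv_ne_one.2 hv)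
  rw [Finset.sum_congr rfl fun i _ => by rw [gE_fac hd i hu, gE_fac hd i (inv_ne_one.2 hv)]] at h1
  have h2 : ∑ i, (nE E n u : K) * f i u * ((nE E n v⁻¹ : K) * f i v⁻¹)
      = ((nE E n u : K) * (nE E n v⁻¹ : K)) * ∑ i, f i u * f i v⁻¹ := by
    rw [Finset.mul_sum]
    exact Finset.sum_congr rfl fun i _ => by ring
  rw [h2] at h1
  exact (mul_eq_zero.1 h1).resolve_left (mul_ne_zero hne hne')

/-- **the number of rows** -/
theorem pure_count (hp : p.Prime) (hp2 : p ≠ 2) (hT : IsPGroup p T)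
    (hE : ∀ φ ∈ E, ∀ u : T, u ≠ 1 → φ u = u → φ = 1) (hpE : ¬ p ∣ Nat.card E)
    (hd : RowData p E g f n a) (hr : ∀ i, ∃ u, u ≠ 1 ∧ f i u ≠ 0) (h1 : 1 < Fintype.card T) :
    Fintype.card I * Nat.card E ≤ (Fintype.card T - 1) + (Nat.card E) ^ 2 := by
  obtain ⟨s, ψ, hψ, hs, hsg, hsE, hψf⟩ := rows_exist hp hp2 hT hE hpE hd
  have hsK : ∀ u, (s u : K) * (s u : K) = 1 := fun u => by exact_mod_cast hs u
  refine count_rows E hE ψ hψ ?_ ?_ ?_ ?_ h1
  · intro i φ hφ u hu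
    rw [hψf i u hu, hψf i (φ u) fun h => hu ((map_eq_one_iff _ φ.injective).1 h), hsE φ hφ,
      hd.inv i φ hφ u hu]
  · intro u v hu hv h
    rw [Finset.sum_congr rfl fun i _ => by rw [hψf i u hu, hψf i v⁻¹ (inv_ne_one.2 hv)]]
    have h2 : (s v⁻¹ : K) = (s u : K) := by
      obtain ⟨φ, hφ, rfl⟩ := h
      rw [hsg (φ u) (φ u)⁻¹ Subgroup.zpowers_inv, hsE φ hφ]
    rw [h2]
    have h3 : ∑ i, (s u : K) * f i u * ((s u : K) * f i v⁻¹)
        = ((s u : K) * (s u : K)) * ∑ i, f i u * f i v⁻¹ := by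
      rw [Finset.mul_sum]
      exact Finset.sum_congr rfl fun i _ => by ring
    rw [h3, hsK, one_mul]
    exact f_gram hp hp2 hT hE hpE hd hu h
  · intro u v hu hv h
    rw [Finset.sum_congr rfl fun i _ => by rw [hψf i u hu, hψf i v⁻¹ (inv_ne_one.2 hv)]]
    have h3 : ∑ i, (s u : K) * f i u * ((s v⁻¹ : K) * f i v⁻¹)
        = ((s u : K) * (s v⁻¹ : K)) * ∑ i, f i u * f i v⁻¹ := by
      rw [Finset.mul_sum]
      exact Finset.sum_congr rfl fun i _ => by ring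
    rw [h3, f_gram0 hp hp2 hT hE hpE hd hu hv h, mul_zero]
  · intro i
    obtain ⟨u, hu, h⟩ := hr i
    refine ⟨u, hu, ?_⟩
    rw [hψf i u hu]
    refine mul_ne_zero ?_ h
    intro h0
    have h2 := hsK u
    rw [h0, zero_mul] at h2
    exact zero_ne_one h2

end

section
variable {T : Type*} [CommGroup T] [Fintype T] {K : Type*} [Field K] [CharZero K]
  [HasEnoughRootsOfUnity K (Monoid.exponent T)]
  {p : ℕ} {I : Type*} [Fintype I] {g f : I → T → K} {n : T → ℤ} {a : ℤ}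

/-- **a positive vector orthogonal to the columns is constant** -/
theorem pure_const (hp : p.Prime) (hp2 : p ≠ 2) (hT : IsPGroup p T)
    (hd : RowData p ⊥ g f n a) (hI : Fintype.card I = Fintype.card T) (d : I → ℕ)
    (hpos : ∀ i, 0 < d i) (hdo : ∀ u : T, u ≠ 1 → ∑ i, (d i : K) * g i u = 0) :
    ∀ i j, d i = d j := by
  classical
  have : Fintype (⊥ : Subgroup (MulAut T)) := Fintype.ofFinite _
  have hE : ∀ φ ∈ (⊥ : Subgroup (MulAut T)), ∀ u : T, u ≠ 1 → φ u = u → φ = 1 :=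
    fun φ hφ _ _ _ => Subgroup.mem_bot.1 hφ
  have hpE : ¬ p ∣ Nat.card (⊥ : Subgroup (MulAut T)) := by
    rw [Nat.card_unique]
    exact fun h => hp.one_lt.ne' (Nat.dvd_one.1 h)
  obtain ⟨s, ψ, hψ, hs, hsg, hsE, hψf⟩ := rows_exist hp hp2 hT hE hpE hd
  have hsK : ∀ u, (s u : K) * (s u : K) = 1 := fun u => by exact_mod_cast hs u
  have hex : ∀ u v : T, (∃ φ ∈ (⊥ : Subgroup (MulAut T)), v = φ u) ↔ v = u := by
    intro u v
    constructor
    · rintro ⟨φ, hφ, h⟩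
      rw [h, Subgroup.mem_bot.1 hφ, MulAut.one_apply]
    · intro h
      exact ⟨1, Subgroup.mem_bot.2 rfl, by rw [h, MulAut.one_apply]⟩
  have hgf : ∀ i u, u ≠ 1 → g i u = (nE ⊥ n u : K) * f i u := by
    intro i u hu
    rw [← gE_fac hd i hu, gE, Fintype.sum_subsingleton _ (1 : (⊥ : Subgroup (MulAut T)))]
    rfl
  refine delta ψ hψ ?_ ?_ hI d hpos ?_
  · intro u hu
    rw [Finset.sum_congr rfl fun i _ => by rw [hψf i u hu, hψf i u⁻¹ (inv_ne_one.2 hu)]]
    rw [hsg u u⁻¹ Subgroup.zpowers_inv]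
    have h3 : ∑ i, (s u : K) * f i u * ((s u : K) * f i u⁻¹)
        = ((s u : K) * (s u : K)) * ∑ i, f i u * f i u⁻¹ := by
      rw [Finset.mul_sum]
      exact Finset.sum_congr rfl fun i _ => by ring
    rw [h3, hsK, one_mul]
    exact f_gram hp hp2 hT hE hpE hd hu ((hex u u).2 rfl)
  · intro u v hu hv h
    rw [Finset.sum_congr rfl fun i _ => by rw [hψf i u hu, hψf i v⁻¹ (inv_ne_one.2 hv)]]
    have h3 : ∑ i, (s u : K) * f i u * ((s v⁻¹ : K) * f i v⁻¹)
        = ((s u : K) * (s v⁻¹ : K)) * ∑ i, f i u * f i v⁻¹ := by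
      rw [Finset.mul_sum]
      exact Finset.sum_congr rfl fun i _ => by ring
    rw [h3, f_gram0 hp hp2 hT hE hpE hd hu hv (fun h' => h ((hex u v).1 h').symm), mul_zero]
  · intro u hu
    have h1 := hdo u hu
    rw [Finset.sum_congr rfl fun i _ => by rw [hgf i u hu]] at h1
    have h2 : ∑ i, (d i : K) * ((nE ⊥ n u : K) * f i u)
        = (nE ⊥ n u : K) * ∑ i, (d i : K) * f i u := by
      rw [Finset.mul_sum]
      exact Finset.sum_congr rfl fun i _ => by ring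
    rw [h2] at h1
    have h3 := (mul_eq_zero.1 h1).resolve_left (nE_ne hp hp2 hT hE hpE hd hu)
    rw [Finset.sum_congr rfl fun i _ => by rw [hψf i u hu]]
    have h4 : ∑ i, (d i : K) * ((s u : K) * f i u) = (s u : K) * ∑ i, (d i : K) * f i u := by
      rw [Finset.mul_sum]
      exact Finset.sum_congr rfl fun i _ => by ring
    rw [h4, h3, mul_zero]

end

end Pool.Agent.Lib.P0c8ca5.Ex
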