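import Mathlib

/-!
# Parts of a sum over characters of a central subgroup

`Z` is a finite abelian group, `c i : Z →* Kˣ` for `i` in a finite type `I`, `X : I → K`, and
`S z = ∑ i, c i z * X i`. The part of the sum of the `X i` over the `i` with `c i = ν` is
`|Z|⁻¹ ∑ z, ν z⁻¹ * S z`.
-/

set_option autoImplicit false

namespace Pool.Agent.Lib.P0c8ca5.Ex

section

variable {Z : Type*} [CommGroup Z] [Fintype Z] {K : Type*} [Field K]
  {I : Type*} [Fintype I]

/-- orthogonality of the characters of `Z` -/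
theorem sum_units [DecidableEq (Z →* Kˣ)] (l : Z →* Kˣ) :
    ∑ z, ((l z : Kˣ) : K) = if l = 1 then (Fintype.card Z : K) else 0 := by
  split_ifs with h
  · simp [h]
  · obtain ⟨b, hb⟩ : ∃ b, l b ≠ 1 := by
      by_contra hcon
      push Not at hcon
      exact h (MonoidHom.ext hcon)
    have hb' : ((l b : Kˣ) : K) - 1 ≠ 0 := by
      rw [sub_ne_zero]
      intro h1
      exact hb (Units.ext h1)
    apply mul_left_cancel₀ hb'
    rw [mul_zero, sub_mul, one_mul, Finset.mul_sum]
    have h1 : ∑ z, ((l b : Kˣ) : K) * ((l z : Kˣ) : K) = ∑ z, ((l z : Kˣ) : K) := by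
      rw [← Equiv.sum_comp (Equiv.mulLeft b) fun z => ((l z : Kˣ) : K)]
      exact Finset.sum_congr rfl fun z _ => by simp
    rw [h1, sub_self]

open Classical in
/-- the part belonging to `ν` -/
theorem part_eq (c : I → (Z →* Kˣ)) (X : I → K) (ν : Z →* Kˣ) :
    (Fintype.card Z : K) * ∑ i, (if c i = ν then X i else 0) =
      ∑ z, ((ν z⁻¹ : Kˣ) : K) * ∑ i, ((c i z : Kˣ) : K) * X i := by
  simp only [Finset.mul_sum]
  rw [Finset.sum_comm]
  refine Finset.sum_congr rfl fun i _ => ?_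
  have h1 : ∀ z, ((ν z⁻¹ : Kˣ) : K) * (((c i z : Kˣ) : K) * X i) =
      (((c i * ν⁻¹) z : Kˣ) : K) * X i := by
    intro z
    rw [MonoidHom.mul_apply, MonoidHom.inv_apply, map_inv, Units.val_mul]
    ring
  simp only [h1]
  rw [← Finset.sum_mul, sum_units]
  by_cases h : c i = ν
  · have h2 : c i * ν⁻¹ = 1 := mul_inv_eq_one.2 h
    rw [if_pos h2, if_pos h]
  · have h2 : c i * ν⁻¹ ≠ 1 := fun h3 => h (mul_inv_eq_one.1 h3)
    simp [h, h2]

open Classical in
/-- the part belonging to `ν`, as a sum over a subset -/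
theorem part_eq_filter (c : I → (Z →* Kˣ)) (X : I → K) (ν : Z →* Kˣ) :
    (Fintype.card Z : K) * ∑ i with c i = ν, X i =
      ∑ z, ((ν z⁻¹ : Kˣ) : K) * ∑ i, ((c i z : Kˣ) : K) * X i := by
  rw [Finset.sum_filter, part_eq]

open Classical in
/-- if all sums vanish then all parts vanish -/
theorem part_zero [CharZero K] (c : I → (Z →* Kˣ)) (X : I → K)
    (h : ∀ z, ∑ i, ((c i z : Kˣ) : K) * X i = 0) (ν : Z →* Kˣ) :
    ∑ i with c i = ν, X i = 0 := by
  have h1 := part_eq_filter c X ν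
  simp only [h, mul_zero, Finset.sum_const_zero] at h1
  exact (mul_eq_zero.1 h1).resolve_left (Nat.cast_ne_zero.2 Fintype.card_ne_zero)

open Classical in
/-- if the sums vanish for all `z ≠ z₀` -/
theorem part_single (c : I → (Z →* Kˣ)) (X : I → K) (z₀ : Z)
    (h : ∀ z, z ≠ z₀ → ∑ i, ((c i z : Kˣ) : K) * X i = 0) (ν : Z →* Kˣ) :
    (Fintype.card Z : K) * ∑ i with c i = ν, X i =
      ((ν z₀⁻¹ : Kˣ) : K) * ∑ i, ((c i z₀ : Kˣ) : K) * X i := by
  rw [part_eq_filter, Finset.sum_eq_single z₀]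
  · intro z _ hz
    rw [h z hz, mul_zero]
  · intro h0
    exact absurd (Finset.mem_univ _) h0

open Classical in
/-- two systems with the same sums have the same parts -/
theorem part_congr [CharZero K] {J : Type*} [Fintype J] (c : I → (Z →* Kˣ)) (X : I → K)
    (d : J → (Z →* Kˣ)) (Y : J → K)
    (h : ∀ z, ∑ i, ((c i z : Kˣ) : K) * X i = ∑ j, ((d j z : Kˣ) : K) * Y j) (ν : Z →* Kˣ) :
    ∑ i with c i = ν, X i = ∑ j with d j = ν, Y j := by
  have h1 := part_eq_filter c X ν
  have h2 := part_eq_filter d Y ν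
  simp only [h] at h1
  rw [← h2] at h1
  exact mul_left_cancel₀ (Nat.cast_ne_zero.2 Fintype.card_ne_zero) h1

end

/-- every character of a subgroup of a finite abelian group extends -/
theorem chr_extend {T : Type*} [CommGroup T] [Finite T] {K : Type*} [Field K]
    [HasEnoughRootsOfUnity K (Monoid.exponent T)] (H : Subgroup T) (ν : H →* Kˣ) :
    ∃ l : T →* Kˣ, ∀ z : H, l z = ν z := by
  obtain ⟨l, hl⟩ := MonoidHom.domRestrict_surjective (M := K) H ν
  refine ⟨l, fun z => ?_⟩
  rw [← hl]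
  rfl

/-- every character of `Z` extends along an injective homomorphism into a finite abelian group -/
theorem chr_extend_inj {T Z : Type*} [CommGroup T] [Finite T] [CommGroup Z] {K : Type*} [Field K]
    [HasEnoughRootsOfUnity K (Monoid.exponent T)] (φ : Z →* T) (hφ : Function.Injective φ)
    (ν : Z →* Kˣ) : ∃ l : T →* Kˣ, ∀ z : Z, l (φ z) = ν z := by
  obtain ⟨l, hl⟩ := chr_extend (K := K) φ.range
    (ν.comp (MonoidHom.ofInjective hφ).symm.toMonoidHom)
  refine ⟨l, fun z => ?_⟩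
  have h1 := hl ⟨φ z, z, rfl⟩
  rw [h1]
  have h2 : (MonoidHom.ofInjective hφ).symm ⟨φ z, z, rfl⟩ = z := by
    rw [MulEquiv.symm_apply_eq]
    rfl
  simp only [MonoidHom.comp_apply, MulEquiv.coe_toMonoidHom, h2]

end Pool.Agent.Lib.P0c8ca5.Ex
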