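import Mathlib
import Pool.Agent.Lib.P0c8ca5Ex.ND
import Pool.Agent.Lib.P0c8ca5Ex.NA
import Pool.Agent.Lib.P0c8ca5Ex.NC
import Pool.Agent.Lib.P0c8ca5Ex.Loc

/-!
# NK: local data, central characters, the Gram matrix
-/

set_option linter.unusedSectionVars false

namespace Pool.Agent.Lib.P0c8ca5.Ex

open MonoidAlgebra

variable {p : ℕ} [Fact p.Prime] {k : Type*} [Field k] [IsAlgClosed k] [CharP k p]
  {A : Type*} [Group A] [Finite A]

/-- local data at `H` -/
structure LD (D : Subgroup A) (i c : MonoidAlgebra k A) (H : Subgroup A)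
    (BH IH : MonoidAlgebra (OW p k) ↥H) (n : ℕ) : Prop where
  cl : CenL (dnr H c) BH
  il : IdL (dnr H i) IH
  ib : IH * BH = IH
  nil : NilC (D.subgroupOf H) BH
  val : ∀ j : IrB BH, chO j.1 IH = (n : KW p k)

section cen

theorem single_cen {z : A} (hz : z ∈ Subgroup.center A) (x : MonoidAlgebra (KW p k) A) :
    single z 1 * x = x * single z (1 : KW p k) := by
  induction x using MonoidAlgebra.induction_linear with
  | zero => rw [mul_zero, zero_mul]
  | add f g hf hg => rw [mul_add, add_mul, hf, hg]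
  | single g c =>
    rw [single_mul_single, single_mul_single, one_mul, mul_one, Subgroup.mem_center_iff.1 hz g]

/-- the value of the central character at a central element of the group -/
theorem chO_cen_mul (χ : Ir (KW p k) A) {z : A} (hz : z ∈ Subgroup.center A)
    (x : MonoidAlgebra (OW p k) A) :
    chO χ (single z 1 * x) = om χ (single z 1) * chO χ x := by
  rw [chO_apply, map_mul, map_single, map_one, chi_cen_mul χ (single_cen hz), chO_apply]

/-- the central character on the centre of the group -/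
noncomputable def cz (χ : Ir (KW p k) A) : ↥(Subgroup.center A) →* (KW p k)ˣ :=
  MonoidHom.toHomUnits
    { toFun := fun z => om χ (single (z : A) 1)
      map_one' := by
        change om χ (single ((1 : ↥(Subgroup.center A)) : A) 1) = 1
        rw [OneMemClass.coe_one, ← one_def, om_one]
      map_mul' := fun z w => by
        rw [Subgroup.coe_mul, ← om_mul χ (single_cen z.2), single_mul_single, one_mul] }

theorem cz_apply (χ : Ir (KW p k) A) (z : ↥(Subgroup.center A)) :
    ((cz χ z : (KW p k)ˣ) : KW p k) = om χ (single (z : A) 1) := rfl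

end cen

section gram
variable {u v g : A} {M : ℕ} {e1 e2 : MonoidAlgebra (OW p k) A}
  {e1' : MonoidAlgebra (OW p k) ↥(C1 u)} {e2' : MonoidAlgebra (OW p k) ↥(C1 v)}

/-- the trace formula with constant values on a block of `C(u)` -/
theorem gram_loc (hu : u ^ p ^ M = 1) (hv : v ^ p ^ M = 1) (i1 : e1 * e1 = e1)
    (i2 : e2 * e2 = e2) (i1' : e1' * e1' = e1') (i2' : e2' * e2' = e2')
    (c1 : single u 1 * e1 = e1 * single u (1 : OW p k))
    (c2 : single v 1 * e2 = e2 * single v (1 : OW p k))
    (g1 : ∀ c : ↥(C1 u), (p : OW p k) ∣ e1.coeff (c : A) - e1'.coeff c)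
    (g2 : ∀ c : ↥(C1 v), (p : OW p k) ∣ e2.coeff (c : A) - e2'.coeff c)
    (hg : u * g = g * v) {c : MonoidAlgebra k ↥(C1 u)} {BH : MonoidAlgebra (OW p k) ↥(C1 u)}
    (hB : CenL c BH) (h1 : e1' * BH = e1') {m1 m2 : ℕ}
    (hm1 : ∀ j : IrB BH, chO j.1 e1' = (m1 : KW p k))
    (hm2 : ∀ j : IrB BH, chO j.1 (dnr (C1 u) (cjr g (upr (C1 v) e2'))) = (m2 : KW p k)) :
    ∑ χ : Ir (KW p k) A, chO χ (single u 1 * e1) * chO χ (e2 * single v⁻¹ 1)
      = (Nat.card (IrB BH) : KW p k) * m1 * m2 := by
  classical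
  have := Fintype.ofFinite A
  have : Fintype (IrB BH) := Fintype.ofFinite _
  rw [tp_chi hu hv sepO i1 i2 i1' i2' c1 c2 g1 g2 hg, sum_irB (B := BH)]
  · rw [Finset.sum_congr rfl fun j _ => by rw [hm1 j, hm2 j], Finset.sum_const,
      Finset.card_univ, nsmul_eq_mul, Nat.card_eq_fintype_card, mul_assoc]
  · intro j hj
    rw [hB.chO_out hj h1, zero_mul]

end gram

end Pool.Agent.Lib.P0c8ca5.Ex
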