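import Mathlib
import Pool.Agent.Lib.P0c8ca5Ex.NK
import Pool.Agent.Lib.P0c8ca5Ex.Fu
import Pool.Agent.Lib.P0c8ca5Ex.FD

/-!
# NL: local data at the elements of `D`, the Gram matrix of the rows
-/

set_option linter.unusedSectionVars false

namespace Pool.Agent.Lib.P0c8ca5.Ex

open MonoidAlgebra

section
variable {k : Type*} [Field k] {A : Type*} [Group A]

theorem dnr_resS' (H : Subgroup A) (a : MonoidAlgebra k A) :
    dnr H (resS (H : Set A) a) = dnr H a := by
  ext x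
  rw [coeff_dnr, coeff_dnr, coeff_resS_of_mem _ x.2]

theorem upr_dnr' (H : Subgroup A) (a : MonoidAlgebra k A) :
    upr H (dnr H a) = resS (H : Set A) a := by
  ext x
  by_cases hx : x ∈ H
  · rw [show x = ((⟨x, hx⟩ : ↥H) : A) from rfl, coeff_upr, coeff_dnr,
      coeff_resS_of_mem _ (show ((⟨x, hx⟩ : ↥H) : A) ∈ (H : Set A) from hx)]
  · rw [coeff_upr_of_notMem _ _ hx, coeff_resS_of_notMem _ hx]

/-- `c` is the block of `H` containing the restriction of `i` -/
structure LbH (H : Subgroup A) (i c : MonoidAlgebra k A) : Prop where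
  blk : IsBlock H c
  ic : resS (H : Set A) i * c = resS (H : Set A) i

theorem Lb.toH {Q : Subgroup A} {i c : MonoidAlgebra k A} (h : Lb Q i c) {H : Subgroup A}
    (hH : CD Q = H) : LbH H i c := by
  subst hH
  exact ⟨h.blk, h.ic⟩

theorem LbH.toLb {Q : Subgroup A} {i c : MonoidAlgebra k A} {H : Subgroup A} (h : LbH H i c)
    (hH : CD Q = H) : Lb Q i c := by
  subst hH
  exact ⟨h.blk, h.ic⟩

theorem zp_le {D : Subgroup A} {u : A} (hu : u ∈ D) : Subgroup.zpowers u ≤ D := by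
  rwa [Subgroup.zpowers_le]

theorem cg_zp {u v x : A} (h : u * x = x * v) :
    cg x (Subgroup.zpowers v) = Subgroup.zpowers u := by
  have hu : u = x * v * x⁻¹ := by rw [← h, mul_inv_cancel_right]
  ext y
  rw [mem_cg, Subgroup.mem_zpowers_iff, Subgroup.mem_zpowers_iff]
  constructor
  · rintro ⟨n, hn⟩
    refine ⟨n, ?_⟩
    rw [hu, conj_zpow, hn]
    group
  · rintro ⟨n, hn⟩
    refine ⟨n, ?_⟩
    rw [← hn, hu, conj_zpow]
    group

end

variable {p : ℕ} [Fact p.Prime] {k : Type*} [Field k] [IsAlgClosed k] [CharP k p]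
  {A : Type*} [Group A] [Finite A] {b f i : MonoidAlgebra k A} {D : Subgroup A}

theorem exists_lbH (h : Src p b D f i) {u : A} (hu : u ∈ D) : ∃ c, LbH (C1 u) i c := by
  obtain ⟨c, hc⟩ := exists_lb h (zp_le hu)
  exact ⟨c, hc.toH (CD_zpowers u)⟩

theorem pow_one_of (h : Src p b D f i) : ∃ M : ℕ, ∀ u ∈ D, u ^ p ^ M = 1 := by
  obtain ⟨M, hM⟩ := IsPGroup.iff_card.1 h.root.dfg.isPGroup
  refine ⟨M, fun u hu => ?_⟩
  have h1 : (⟨u, hu⟩ : ↥D) ^ Nat.card D = 1 := pow_card_eq_one'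
  rw [← hM]
  exact congrArg Subtype.val h1

/-- transport of `Lb.src` to `C1 u` -/
theorem src_loc (h : Src p b D f i) {u : A} (hu : u ∈ D) {c : MonoidAlgebra k A}
    (hc : LbH (C1 u) i c) : Src p (dnr (C1 u) c) (D.subgroupOf (C1 u)) (dnr (C1 u) f)
      (dnr (C1 u) i) := by
  have key : ∀ H : Subgroup A, CD (Subgroup.zpowers u) = H → LbH H i c →
      Src p (dnr H c) (D.subgroupOf H) (dnr H f) (dnr H i) := by
    rintro H rfl hc'
    have h1 := Lb.src h (zp_le hu) (hc'.toLb rfl)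
    have h2 : dn (CD (Subgroup.zpowers u)) (resS (CD (Subgroup.zpowers u) : Set A) i)
        = dnr (CD (Subgroup.zpowers u)) i := dnr_resS' _ _
    rw [h2] at h1
    exact h1
  exact key _ (CD_zpowers u) hc

theorem st_loc (h : Src p b D f i) (hN : St D f ≤ CD D) {u : A} (hu : u ∈ D) :
    St (D.subgroupOf (C1 u)) (dnr (C1 u) f) ≤ CD (D.subgroupOf (C1 u)) := by
  have key : ∀ H : Subgroup A, CD (Subgroup.zpowers u) = H →
      St (D.subgroupOf H) (dnr H f) ≤ CD (D.subgroupOf H) := by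
    rintro H rfl
    exact Lb.st' h hN (zp_le hu)
  exact key _ (CD_zpowers u)

theorem st_loc_free (h : Src p b D f i) (hF : Free D f) {u : A} (hu : u ∈ D) (hu1 : u ≠ 1) :
    St (D.subgroupOf (C1 u)) (dnr (C1 u) f) ≤ CD (D.subgroupOf (C1 u)) := by
  have key : ∀ H : Subgroup A, CD (Subgroup.zpowers u) = H →
      St (D.subgroupOf H) (dnr H f) ≤ CD (D.subgroupOf H) := by
    rintro H rfl
    exact Lb.st h hF (zp_le hu) (fun h0 => hu1 (Subgroup.zpowers_eq_bot.1 h0))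
  exact key _ (CD_zpowers u)

theorem fus_elt (h : Src p b D f i) {u v x : A} (hu : u ∈ D) (hv : v ∈ D) (hx : u * x = x * v)
    {c d : MonoidAlgebra k A} (hc : LbH (C1 u) i c) (hd : LbH (C1 v) i d) (hcd : cj x d = c) :
    ∃ g ∈ St D f, u * g = g * v := by
  obtain ⟨g, hg, y, hy, hxy⟩ := fus h (zp_le hu) (zp_le hv) (cg_zp hx)
    (hc.toLb (CD_zpowers u)) (hd.toLb (CD_zpowers v)) hcd
  refine ⟨g, hg, ?_⟩
  rw [CD_zpowers, mem_C1'] at hy
  have h1 : u * (y * g) = y * g * v := by rw [← hxy, hx]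
  rw [← mul_assoc, hy, mul_assoc, mul_assoc] at h1
  exact mul_left_cancel h1

theorem cj_lb (h : Src p b D f i) {u v g : A} (hv : v ∈ D) (hg : g ∈ St D f)
    (hx : u * g = g * v) {c d : MonoidAlgebra k A} (hc : LbH (C1 u) i c)
    (hd : LbH (C1 v) i d) : cj g d = c := by
  refine Lb.cj_eq h (zp_le hv) hg (hd.toLb (CD_zpowers v)) ?_
  refine hc.toLb ?_
  rw [cg_zp hx, CD_zpowers]

theorem loc_idem (h : Src p b D f i) {u : A} (hu : u ∈ D) :
    dnr (C1 u) i * dnr (C1 u) i = dnr (C1 u) i := by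
  obtain ⟨c, hc⟩ := exists_lbH h hu
  exact (src_loc h hu hc).prim.idem

/-- the conjugate of the local idempotent lies in the conjugate block -/
theorem cj_loc {u v x : A} {c d : MonoidAlgebra k A} (hc : LbH (C1 u) i c)
    (hd : LbH (C1 v) i d) :
    dnr (C1 u) (cj x (resS (C1 v : Set A) i)) * dnr (C1 u) c
      = dnr (C1 u) (cj x (resS (C1 v : Set A) i) * (cj x d * c)) := by
  rw [← dnr_mul_upr, upr_blk hc.blk, ← mul_assoc, ← cj_mul, hd.ic]

theorem isBlock_cj {u v x : A} (hx : u * x = x * v) {d : MonoidAlgebra k A}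
    (hd : IsBlock (C1 v) d) : IsBlock (C1 u) (cj x d) := by
  have h1 := isBlock_cg hd x
  rwa [← CD_zpowers, FuAux.cg_CD, cg_zp hx, CD_zpowers] at h1

end Pool.Agent.Lib.P0c8ca5.Ex
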