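import Mathlib
import Pool.Agent.Lib.P0c8ca5Ex.NL
import Pool.Agent.Lib.P0c8ca5Ex.NB

/-!
# NO: the Gram matrix of the rows `θ χ u = chO χ (u I)`, `u ∈ D`
-/

set_option linter.unusedSectionVars false

namespace Pool.Agent.Lib.P0c8ca5.Ex

open MonoidAlgebra

variable {p : ℕ} [Fact p.Prime] {k : Type*} [Field k] [IsAlgClosed k] [CharP k p]
  {A : Type*} [Group A] [Finite A] {b f i : MonoidAlgebra k A} {D : Subgroup A}

/-- the lifts `B` of `b` and `I` of `i`; `I` commutes with `D` -/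
structure Lf (b i : MonoidAlgebra k A) (D : Subgroup A) (B I : MonoidAlgebra (OW p k) A) :
    Prop where
  cb : CenL b B
  ci : IdL i I
  com : ∀ d ∈ D, single d 1 * I = I * single d (1 : OW p k)
  ib : I * B = I

theorem exists_lf (h : Src p b D f i) : ∃ B I, Lf (p := p) b i D B I := by
  obtain ⟨B, hB⟩ := exists_cenL (p := p) h.root.blk.idem
    (fun g => invBy_iff_cj.1 h.root.blk.invBy g (Subgroup.mem_top g))
  obtain ⟨I, hI, hc⟩ := exists_idL (p := p) h.prim.idem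
  refine ⟨B, I, hB, hI, fun d hd => hc d ?_, hB.mul_eq hI h.ib⟩
  exact invBy_iff_cj.1 (mem_fixAlg.1 h.prim.mem).2 d hd

theorem exists_lf' (h : Src p b D f i) {B : MonoidAlgebra (OW p k) A} (hB : CenL b B) :
    ∃ I, Lf (p := p) b i D B I := by
  obtain ⟨I, hI, hc⟩ := exists_idL (p := p) h.prim.idem
  refine ⟨I, hB, hI, fun d hd => hc d ?_, hB.mul_eq hI h.ib⟩
  exact invBy_iff_cj.1 (mem_fixAlg.1 h.prim.mem).2 d hd

/-- the lift and the local lift are congruent -/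
theorem cong_of {u : A} {e : MonoidAlgebra k A} {E : MonoidAlgebra (OW p k) A}
    (hE : mapRingHom A (rdO p k) E = e) {E' : MonoidAlgebra (OW p k) ↥(C1 u)}
    (hE' : mapRingHom ↥(C1 u) (rdO p k) E' = dnr (C1 u) e) (c : ↥(C1 u)) :
    (p : OW p k) ∣ E.coeff (c : A) - E'.coeff c := by
  rw [← rdO_eq_zero, map_sub, sub_eq_zero, ← coeff_map, ← coeff_map, hE, hE', coeff_dnr]

/-- the local central idempotent -/
theorem exists_locB (h : Src p b D f i) {u : A} (hu : u ∈ D) {c : MonoidAlgebra k A}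
    (hc : LbH (C1 u) i c) :
    ∃ BH : MonoidAlgebra (OW p k) ↥(C1 u), CenL (dnr (C1 u) c) BH := by
  have h1 := src_loc h hu hc
  exact exists_cenL (p := p) h1.root.blk.idem
    (fun g => invBy_iff_cj.1 h1.root.blk.invBy g (Subgroup.mem_top g))

theorem exists_locI (h : Src p b D f i) {u : A} (hu : u ∈ D) :
    ∃ IH : MonoidAlgebra (OW p k) ↥(C1 u), IdL (dnr (C1 u) i) IH := by
  obtain ⟨IH, h1, _⟩ := exists_idL (p := p) (loc_idem h hu)
  exact ⟨IH, h1⟩

theorem red_cj {u v x : A} {E : MonoidAlgebra (OW p k) ↥(C1 v)}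
    (hE : mapRingHom ↥(C1 v) (rdO p k) E = dnr (C1 v) i) :
    mapRingHom ↥(C1 u) (rdO p k) (dnr (C1 u) (cjr x (upr (C1 v) E)))
      = dnr (C1 u) (cj x (resS (C1 v : Set A) i)) := by
  rw [map_dnr, map_cjr, map_upr, hE, upr_dnr', cjr_eq_cj]

/-- the conjugate local idempotent, in the block `c` if `cj x d = c` -/
theorem cj_in {u v x : A} (hx : u * x = x * v) {c d : MonoidAlgebra k A}
    (hc : LbH (C1 u) i c) (hd : LbH (C1 v) i d) (hcd : cj x d = c)
    {E : MonoidAlgebra (OW p k) ↥(C1 v)} (hE : IdL (dnr (C1 v) i) E)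
    {BH : MonoidAlgebra (OW p k) ↥(C1 u)} (hB : CenL (dnr (C1 u) c) BH) :
    dnr (C1 u) (cjr x (upr (C1 v) E)) * BH = dnr (C1 u) (cjr x (upr (C1 v) E)) := by
  have := Fintype.ofFinite A
  refine hB.mul_eq ⟨cjr_idem hx hE.idem, red_cj hE.red⟩ ?_
  rw [cj_loc hc hd, hcd, hc.blk.idem, ← hcd, ← cj_mul, hd.ic]

theorem cj_out {u v x : A} (hx : u * x = x * v) {c d : MonoidAlgebra k A}
    (hc : LbH (C1 u) i c) (hd : LbH (C1 v) i d) (hcd : cj x d ≠ c)
    {E : MonoidAlgebra (OW p k) ↥(C1 v)} (hE : IdL (dnr (C1 v) i) E)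
    {BH : MonoidAlgebra (OW p k) ↥(C1 u)} (hB : CenL (dnr (C1 u) c) BH) :
    dnr (C1 u) (cjr x (upr (C1 v) E)) * BH = 0 := by
  have := Fintype.ofFinite A
  refine hB.mul_zero' ⟨cjr_idem hx hE.idem, red_cj hE.red⟩ ?_
  rcases (isBlock_cj hx hd.blk).eq_or_mul_eq_zero hc.blk with h1 | h1
  · exact absurd h1 hcd
  · rw [cj_loc hc hd, h1, mul_zero, dnr_zero]

/-- the columns of elements of `D` not conjugate under the inertial group are orthogonal -/
theorem gram_zero (h : Src p b D f i) {B I : MonoidAlgebra (OW p k) A} (hl : Lf b i D B I)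
    {u v : A} (hu : u ∈ D) (hv : v ∈ D) (hne : ∀ g ∈ St D f, u * g ≠ g * v) :
    ∑ χ : Ir (KW p k) A, chO χ (single u 1 * I) * chO χ (I * single v⁻¹ 1) = 0 := by
  obtain ⟨M, hM⟩ := pow_one_of h
  obtain ⟨c, hc⟩ := exists_lbH h hu
  obtain ⟨d, hd⟩ := exists_lbH h hv
  obtain ⟨BH, hB⟩ := exists_locB h hu hc
  obtain ⟨E, hE⟩ := exists_locI h hu
  obtain ⟨F, hF⟩ := exists_locI h hv
  have := Fintype.ofFinite A
  classical
  by_cases hx : ∃ x, u * x = x * v
  · obtain ⟨x, hx⟩ := hx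
    have hcd : cj x d ≠ c := by
      intro h0
      obtain ⟨g, hg, hg'⟩ := fus_elt h hu hv hx hc hd h0
      exact hne g hg hg'
    have hEB : E * BH = E := hB.mul_eq hE (src_loc h hu hc).ib
    rw [tp_chi (hM u hu) (hM v hv) sepO hl.ci.idem hl.ci.idem hE.idem hF.idem (hl.com u hu)
      (hl.com v hv) (cong_of hl.ci.red hE.red) (cong_of hl.ci.red hF.red) hx]
    refine Finset.sum_eq_zero fun j _ => ?_
    by_cases hj : chO j BH = 0
    · rw [hB.chO_out hj hEB, zero_mul]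
    · rw [hB.chO_zero hj (cj_out hx hc hd hcd hF hB), mul_zero]
  · exact tp_chi_zero (hM u hu) (hM v hv) sepO hl.ci.idem hl.ci.idem hE.idem hF.idem
      (hl.com u hu) (hl.com v hv) (cong_of hl.ci.red hE.red) (cong_of hl.ci.red hF.red)
      (fun x hx' => hx ⟨x, hx'⟩)

/-- the value of the conjugate local idempotent -/
theorem gram_conj {B I : MonoidAlgebra (OW p k) A} (hl : Lf b i D B I) {M : ℕ}
    {u v g : A} (hu : u ∈ D) (hv : v ∈ D) (hMu : u ^ p ^ M = 1) (hMv : v ^ p ^ M = 1)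
    (hg : u * g = g * v) {c d : MonoidAlgebra k A} (hc : LbH (C1 u) i c)
    (hd : LbH (C1 v) i d) (hcd : cj g d = c)
    {BH IH : MonoidAlgebra (OW p k) ↥(C1 u)} {nu : ℕ} (hL : LD D i c (C1 u) BH IH nu)
    {BV IV : MonoidAlgebra (OW p k) ↥(C1 v)} {nv : ℕ} (hV : LD D i d (C1 v) BV IV nv)
    (hDu : D ≤ C1 u) (hDv : D ≤ C1 v) (hDf : Nat.card D ≠ 0) :
    (∀ j : IrB BH, chO j.1 (dnr (C1 u) (cjr g (upr (C1 v) IV))) = (nv : KW p k)) ∧
    ∑ χ : Ir (KW p k) A, chO χ (single u 1 * I) * chO χ (I * single v⁻¹ 1)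
      = (Nat.card D : KW p k) * nu * nv := by
  have := Fintype.ofFinite A
  classical
  set E := dnr (C1 u) (cjr g (upr (C1 v) IV)) with hE
  have hEE : E * E = E := cjr_idem hg hV.il.idem
  have hEB : E * BH = E := cj_in hg hc hd hcd hV.il hL.cl
  obtain ⟨m, hm⟩ := hL.nil.const E hEE hEB
  have hcardu : Nat.card (IrB BH) = Nat.card D := by
    rw [hL.nil.card]
    exact Nat.card_congr (Subgroup.subgroupOfEquivOfLe hDu).toEquiv
  have hcardv : Nat.card (IrB BV) = Nat.card D := by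
    rw [hV.nil.card]
    exact Nat.card_congr (Subgroup.subgroupOfEquivOfLe hDv).toEquiv
  -- the conjugate of `I`
  set J := cjr g I with hJ
  have hJJ : J * J = J := by rw [hJ, ← cjr_mul, hl.ci.idem]
  have hg' : g * v * g⁻¹ = u := by rw [← hg, mul_inv_cancel_right]
  have hJc : single u 1 * J = J * single u (1 : OW p k) := by
    rw [← cjr_eq_iff, hJ, cjr_cjr]
    have h2 : u * g = g * v := hg
    rw [h2, ← cjr_cjr, (cjr_eq_iff v I).2 (hl.com v hv)]
  have hJcong : ∀ c : ↥(C1 u), (p : OW p k) ∣ J.coeff (c : A) - E.coeff c := by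
    refine cong_of (e := cj g i) (by rw [hJ, map_cjr, hl.ci.red, cjr_eq_cj]) ?_
    rw [hE, red_cj hV.il.red]
    ext x
    rw [coeff_dnr, coeff_dnr, coeff_cj, coeff_cj, coeff_resS_of_mem]
    have h3 := mem_C1'.1 x.2
    rw [SetLike.mem_coe, mem_C1']
    have h4 : v = g⁻¹ * u * g := by rw [mul_assoc, hg, inv_mul_cancel_left]
    calc v * (g⁻¹ * (x : A) * g) = g⁻¹ * (u * x) * g := by rw [h4]; group
      _ = g⁻¹ * (x * u) * g := by rw [h3]
      _ = g⁻¹ * (x : A) * g * v := by rw [h4]; group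
  -- the values at the conjugate of `I`
  have e1 : ∀ χ : Ir (KW p k) A, chO χ (single u 1 * J) = chO χ (single v 1 * I) := by
    intro χ
    rw [← chO_cjr χ g (single v 1 * I), cjr_mul, ← hJ]
    congr 2
    rw [cjr, single_mul_single, single_mul_single, one_mul, one_mul, hg']
  have e2 : ∀ χ : Ir (KW p k) A, chO χ (J * single u⁻¹ 1) = chO χ (I * single v⁻¹ 1) := by
    intro χ
    rw [← chO_cjr χ g (I * single v⁻¹ 1), cjr_mul, ← hJ]
    congr 2
    rw [cjr, single_mul_single, single_mul_single, one_mul, one_mul, ← hg']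
    congr 1
    group
  have hvv := gram_loc hMv hMv hl.ci.idem hl.ci.idem hV.il.idem hV.il.idem (hl.com v hv)
    (hl.com v hv) (cong_of hl.ci.red hV.il.red) (cong_of hl.ci.red hV.il.red)
    (g := (1 : A)) (by rw [mul_one, one_mul]) hV.cl hV.ib hV.val
    (m2 := nv) (fun j => by rw [cjr_one_left, dnr_upr]; exact hV.val j)
  have huu := gram_loc hMu hMu hJJ hJJ hEE hEE hJc hJc hJcong hJcong
    (g := (1 : A)) (by rw [mul_one, one_mul]) hL.cl hEB hm
    (m2 := m) (fun j => by rw [cjr_one_left, dnr_upr]; exact hm j)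
  rw [Finset.sum_congr rfl fun χ _ => by rw [e1 χ, e2 χ], hvv, hcardu, hcardv] at huu
  have hmn : nv = m := by
    have h5 : ((Nat.card D * nv * nv : ℕ) : KW p k) = ((Nat.card D * m * m : ℕ) : KW p k) := by
      push_cast
      exact huu
    have h6 : Nat.card D * nv * nv = Nat.card D * m * m := by exact_mod_cast h5
    rw [mul_assoc, mul_assoc] at h6
    have h7 := Nat.eq_of_mul_eq_mul_left (Nat.pos_of_ne_zero hDf) h6
    exact Nat.mul_self_inj.1 h7
  refine ⟨fun j => by rw [hmn]; exact hm j, ?_⟩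
  have h8 := gram_loc hMu hMv hl.ci.idem hl.ci.idem hL.il.idem hV.il.idem (hl.com u hu)
    (hl.com v hv) (cong_of hl.ci.red hL.il.red) (cong_of hl.ci.red hV.il.red) hg hL.cl hL.ib
    hL.val (m2 := nv) (fun j => by rw [hmn]; exact hm j)
  rw [h8, hcardu]

/-- the factorization of the rows at `u` -/
theorem fac_at {u : A} {M : ℕ} (hMu : u ^ p ^ M = 1) {J : MonoidAlgebra (OW p k) A}
    (hJ : J * J = J) (hJc : single u 1 * J = J * single u (1 : OW p k))
    {E BH : MonoidAlgebra (OW p k) ↥(C1 u)} (hE : E * E = E)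
    (hcong : ∀ c : ↥(C1 u), (p : OW p k) ∣ J.coeff (c : A) - E.coeff c)
    {c : MonoidAlgebra k ↥(C1 u)} (hB : CenL c BH) (hEB : E * BH = E) {m : ℕ}
    (hm : ∀ j : IrB BH, chO j.1 E = (m : KW p k)) (χ : Ir (KW p k) A) :
    chO χ (single u 1 * J) = (m : KW p k) * fch (C1 u) BH χ u := by
  have hu1 : u ∈ C1 u := mem_C1'.2 rfl
  have h1 : chO χ (single u 1 * J) = chO χ (single u 1 * upr (C1 u) E) :=
    lift_indep hMu sepO hJ (by rw [← map_mul, hE]) hE hJc (single_upr u E) hcong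
      (gap_self (C1 u) E _) χ
  have h2 : single u 1 * upr (C1 u) E = upr (C1 u) (single (⟨u, hu1⟩ : ↥(C1 u)) 1 * E) := by
    rw [map_mul, upr_single]
  rw [h1, h2]
  exact fch_spec hB.idem hEB (fun j hj => hm ⟨j, hj⟩) χ (x := ⟨u, hu1⟩)
    (fun a => Subtype.ext (mem_C1'.1 a.2))

end Pool.Agent.Lib.P0c8ca5.Ex
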