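import Mathlib
import Pool.Agent.Lib.P0c8ca5Ex.NA
import Pool.Agent.Lib.P0c8ca5Ex.NB
import Pool.Agent.Lib.P0c8ca5Ex.NC

/-!
# NQ: rows over the quotient by a central subgroup (pure part of the theorem on nilpotent blocks)

PROOF of `NData.row`. `l : T →* Kˣ` extends `ν` (`chr_extend`). `g χ` is the descent (`vir_desc`)
of `t ↦ θ χ t * chr l t⁻¹` (invariant: `mulz` and `c χ = ν`), `f χ q := Fc χ q.out * chr l q.out⁻¹`,
`n' q := n q.out`. For `t ∉ Z` the values at `mk t` do not depend on the representative: `gen` and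
`loc` (`s = z * t` has the same class). `fac`, `loc` (descent of `β * chr l⁻¹`), `gram` with
`part_single` (`z₀ = 1`): `|Z| * ∑_{c χ = ν} θ χ t * θ χ t⁻¹ = ∑ χ, θ χ t * θ χ t⁻¹
= |T| * n t ^ 2`, `|T| = |Z| * |T / Z|`; `gram0` with `part_zero` (`s * z ≠ t`), the sum over the
`χ` with `c χ = ν` as a sum over the subtype; `one` with `part_single`.
-/

set_option linter.unusedSectionVars false

namespace Pool.Agent.Lib.P0c8ca5.Ex

open Finset

section
variable {T : Type*} [CommGroup T] [Fintype T] {K : Type*} [Field K] [CharZero K]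
  [HasEnoughRootsOfUnity K (Monoid.exponent T)]

/-- the classes of `s` and `t` generate the same subgroup of `T / Z` -/
def SameZ (Z : Subgroup T) (s t : T) : Prop :=
  Subgroup.zpowers (QuotientGroup.mk s : T ⧸ Z) = Subgroup.zpowers (QuotientGroup.mk t : T ⧸ Z)

/-- rows `θ χ` on `T` with central characters `c χ` on `Z` -/
structure NData (p : ℕ) (Z : Subgroup T) {I : Type*} [Fintype I] (θ Fc : I → T → K)
    (c : I → (↥Z →* Kˣ)) (n : T → ℤ) (a : ℤ) : Prop where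
  vir : ∀ χ, θ χ ∈ vir T K
  mulz : ∀ χ (z : ↥Z) t, θ χ ((z : T) * t) = ((c χ z : Kˣ) : K) * θ χ t
  fac : ∀ χ t, t ∉ Z → θ χ t = (n t : K) * Fc χ t
  gen : ∀ s t, s ∉ Z → t ∉ Z → SameZ Z s t → n s = n t
  loc : ∀ χ t, t ∉ Z → ∃ β ∈ Ex.vir T K, (∀ s, SameZ Z s t → Fc χ s = β s) ∧
    ∀ (z : ↥Z) s, β ((z : T) * s) = ((c χ z : Kˣ) : K) * β s
  gram0 : ∀ s t, s ≠ t → ∑ χ, θ χ s * θ χ t⁻¹ = 0
  gram : ∀ t, t ∉ Z → ∑ χ, θ χ t * θ χ t⁻¹ = (Fintype.card T : K) * (n t : K) * (n t : K)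
  one : ∑ χ, θ χ 1 * θ χ 1 = (Fintype.card T : K) * (a : K)
  cong : (p : ℤ) ∣ a - 1
  ne : ∀ χ t, θ χ t ≠ 0

variable {p : ℕ} {Z : Subgroup T} {I : Type*} [Fintype I] {θ Fc : I → T → K}
  {c : I → (↥Z →* Kˣ)} {n : T → ℤ} {a : ℤ}

theorem enoughQ (K : Type*) [Field K] (T : Type*) [CommGroup T] [Finite T]
    [HasEnoughRootsOfUnity K (Monoid.exponent T)] (Z : Subgroup T) :
    HasEnoughRootsOfUnity K (Monoid.exponent (T ⧸ Z)) := by
  have : NeZero (Monoid.exponent T) := ⟨Monoid.exponent_ne_zero_of_finite⟩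
  refine HasEnoughRootsOfUnity.of_dvd K (n := Monoid.exponent T) ?_
  refine Monoid.exponent_dvd_of_forall_pow_eq_one fun q => ?_
  obtain ⟨t, rfl⟩ := QuotientGroup.mk_surjective q
  rw [← QuotientGroup.mk_pow, Monoid.pow_exponent_eq_one, QuotientGroup.mk_one]

theorem enoughZ (K : Type*) [Field K] (T : Type*) [CommGroup T] [Finite T]
    [HasEnoughRootsOfUnity K (Monoid.exponent T)] (Z : Subgroup T) :
    HasEnoughRootsOfUnity K (Monoid.exponent ↥Z) := by
  have : NeZero (Monoid.exponent T) := ⟨Monoid.exponent_ne_zero_of_finite⟩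
  refine HasEnoughRootsOfUnity.of_dvd K (n := Monoid.exponent T) ?_
  refine Monoid.exponent_dvd_of_forall_pow_eq_one fun q => ?_
  apply Subtype.ext
  rw [SubmonoidClass.coe_pow, Monoid.pow_exponent_eq_one, OneMemClass.coe_one]

theorem out_notMem {q : T ⧸ Z} (hq : q ≠ 1) : q.out ∉ Z := by
  intro h
  apply hq
  rw [← QuotientGroup.out_eq' q]
  exact (QuotientGroup.eq_one_iff _).2 h

theorem card_TZ [Fintype ↥Z] [Fintype (T ⧸ Z)] :
    (Fintype.card T : K) = (Fintype.card ↥Z : K) * (Fintype.card (T ⧸ Z) : K) := by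
  have h := Subgroup.card_eq_card_quotient_mul_card_subgroup Z
  rw [Nat.card_eq_fintype_card, Nat.card_eq_fintype_card, Nat.card_eq_fintype_card] at h
  rw [h]
  push_cast
  ring

theorem NData.part0 [Fintype ↥Z] (hd : NData p Z θ Fc c n a) (ν : ↥Z →* Kˣ)
    [Fintype {χ // c χ = ν}] {s t : T} (h : ∀ z : ↥Z, (z : T) * s ≠ t) :
    ∑ χ : {χ // c χ = ν}, θ χ.1 s * θ χ.1 t⁻¹ = 0 := by
  classical
  have h1 := part_zero c (fun χ => θ χ s * θ χ t⁻¹) (fun z => by
    rw [← hd.gram0 _ _ (h z)]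
    exact Finset.sum_congr rfl fun χ _ => by rw [hd.mulz, mul_assoc]) ν
  rw [Finset.sum_subtype (p := fun χ => c χ = ν) _ (fun χ => by simp)] at h1
  exact h1

theorem NData.part1 [Fintype ↥Z] [Fintype (T ⧸ Z)] (hd : NData p Z θ Fc c n a)
    (ν : ↥Z →* Kˣ) [Fintype {χ // c χ = ν}] {t : T} {x : K}
    (h : ∑ χ, θ χ t * θ χ t⁻¹ = (Fintype.card T : K) * x) :
    ∑ χ : {χ // c χ = ν}, θ χ.1 t * θ χ.1 t⁻¹ = (Fintype.card (T ⧸ Z) : K) * x := by
  classical
  have h1 := part_single c (fun χ => θ χ t * θ χ t⁻¹) 1 (fun z hz => by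
    rw [← hd.gram0 ((z : T) * t) t (fun h0 => hz (by
      apply Subtype.ext
      exact mul_eq_right.1 h0))]
    exact Finset.sum_congr rfl fun χ _ => by rw [hd.mulz, mul_assoc]) ν
  rw [Finset.sum_subtype (p := fun χ => c χ = ν) _ (fun χ => by simp)] at h1
  have hc : (Fintype.card ↥Z : K) ≠ 0 := Nat.cast_ne_zero.2 Fintype.card_ne_zero
  refine mul_left_cancel₀ hc (h1.trans ?_)
  rw [inv_one, map_one, Units.val_one, one_mul, ← mul_assoc, ← card_TZ, ← h]
  exact Finset.sum_congr rfl fun χ _ => by rw [map_one, Units.val_one, one_mul]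

theorem chr_cancel (l : T →* Kˣ) (t : T) : chr l t⁻¹ * chr l t = 1 := by
  rw [mul_comm]
  exact chr_mul_inv l t

/-- the row data over the quotient -/
theorem NData.row [Fintype (T ⧸ Z)] (hd : NData p Z θ Fc c n a) (ν : ↥Z →* Kˣ)
    [Fintype {χ // c χ = ν}] :
    ∃ (l : T →* Kˣ) (g f : {χ // c χ = ν} → T ⧸ Z → K) (n' : T ⧸ Z → ℤ),
      RowData p ⊥ g f n' a ∧ ∀ χ t, g χ (QuotientGroup.mk t) = θ χ.1 t * chr l t⁻¹ := by
  have := enoughQ K T Z
  have : Fintype ↥Z := Fintype.ofFinite _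
  obtain ⟨l, hl⟩ := chr_extend Z ν
  have hν : ∀ χ : {χ // c χ = ν}, ∀ z : ↥Z, ((c χ.1 z : Kˣ) : K) = chr l (z : T) := by
    intro χ z
    rw [χ.2, ← hl]
    rfl
  have hinv : ∀ t, chr l⁻¹ t = chr l t⁻¹ := chr_inv l
  have hdesc : ∀ χ : {χ // c χ = ν}, ∃ g ∈ Ex.vir (T ⧸ Z) K,
      ∀ t, g (QuotientGroup.mk t) = θ χ.1 t * chr l t⁻¹ := by
    intro χ
    have h1 : (θ χ.1 * chr l⁻¹) ∈ Ex.vir T K := (Ex.vir T K).mul_mem (hd.vir χ.1) (chr_mem _)
    obtain ⟨g, hg, hg'⟩ := vir_desc Z h1 (fun z hz u => by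
      rw [Pi.mul_apply, Pi.mul_apply, hd.mulz χ.1 ⟨z, hz⟩, hν χ ⟨z, hz⟩, hinv, hinv, mul_inv,
        chr_map_mul]
      have h2 := chr_cancel l z
      linear_combination (θ χ.1 u * chr l u⁻¹) * h2)
    exact ⟨g, hg, fun t => by rw [hg', Pi.mul_apply, hinv]⟩
  choose g hg hg' using hdesc
  have hout : ∀ (χ : {χ // c χ = ν}) q, g χ q = θ χ.1 q.out * chr l q.out⁻¹ := by
    intro χ q
    rw [← hg' χ q.out, QuotientGroup.out_eq']
  have houti : ∀ (χ : {χ // c χ = ν}) q, g χ q⁻¹ = θ χ.1 q.out⁻¹ * chr l q.out := by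
    intro χ q
    have h1 := hg' χ q.out⁻¹
    rw [inv_inv, QuotientGroup.mk_inv, QuotientGroup.out_eq'] at h1
    exact h1
  refine ⟨l, g, fun χ q => Fc χ.1 q.out * chr l q.out⁻¹, fun q => n q.out,
    ⟨hg, ?_, ?_, ?_, ?_, ?_, ?_, ?_, ?_⟩, hg'⟩
  · intro u v h
    by_cases hu : u = 1
    · have hv : v = 1 := by
        rw [hu, Subgroup.zpowers_one_eq_bot] at h
        exact Subgroup.zpowers_eq_bot.1 h
      rw [hu, hv]
    · have hv : v ≠ 1 := by
        rintro rfl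
        rw [Subgroup.zpowers_one_eq_bot] at h
        exact hu (Subgroup.zpowers_eq_bot.1 h.symm)
      refine hd.gen _ _ (out_notMem hv) (out_notMem hu) ?_
      rw [SameZ, QuotientGroup.out_eq', QuotientGroup.out_eq', h]
  · intro χ q hq
    rw [hout, hd.fac _ _ (out_notMem hq), mul_assoc]
  · intro χ φ hφ q _
    rw [Subgroup.mem_bot.1 hφ, MulAut.one_apply]
  · intro χ q hq
    obtain ⟨β, hβ, h1, h2⟩ := hd.loc χ.1 q.out (out_notMem hq)
    obtain ⟨β', hβ', h3⟩ := vir_desc Z ((Ex.vir T K).mul_mem hβ (chr_mem l⁻¹)) (fun z hz u => by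
      rw [Pi.mul_apply, Pi.mul_apply, h2 ⟨z, hz⟩, hν χ ⟨z, hz⟩, hinv, hinv, mul_inv,
        chr_map_mul]
      have h4 := chr_cancel l z
      linear_combination (β u * chr l u⁻¹) * h4)
    refine ⟨β', hβ', fun v hv => ?_⟩
    have h5 : SameZ Z v.out q.out := by
      rw [SameZ, QuotientGroup.out_eq', QuotientGroup.out_eq', hv]
    have h6 := h3 v.out
    rw [QuotientGroup.out_eq', Pi.mul_apply, hinv] at h6
    rw [h6, h1 _ h5]
  · intro q hq φ hφ
    rw [Subgroup.mem_bot.1 hφ, MulAut.one_apply, mul_assoc,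
      ← hd.part1 ν (x := (n q.out : K) * (n q.out : K))
        (by rw [← mul_assoc]; exact hd.gram _ (out_notMem hq))]
    refine Finset.sum_congr rfl fun χ _ => ?_
    rw [hout, houti]
    linear_combination (θ χ.1 q.out * θ χ.1 q.out⁻¹) * chr_cancel l q.out
  · intro u v huv
    have hne : v ≠ u := fun h => huv ⟨1, Subgroup.one_mem _, by rw [MulAut.one_apply, h]⟩
    have h1 := hd.part0 ν (s := u.out) (t := v.out) (fun z h0 => hne (by
      rw [← QuotientGroup.out_eq' v, ← h0, QuotientGroup.mk_mul,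
        (QuotientGroup.eq_one_iff _).2 z.2, one_mul, QuotientGroup.out_eq']))
    have h2 : ∑ χ : {χ // c χ = ν}, g χ u * g χ v⁻¹ = (chr l u.out⁻¹ * chr l v.out) *
        ∑ χ : {χ // c χ = ν}, θ χ.1 u.out * θ χ.1 v.out⁻¹ := by
      rw [Finset.mul_sum]
      refine Finset.sum_congr rfl fun χ _ => ?_
      rw [hout, houti]
      ring
    rw [h2, h1, mul_zero]
  · have h1 : ∀ χ : {χ // c χ = ν}, g χ 1 = θ χ.1 1 := by
      intro χ
      have h2 := hg' χ 1
      rw [QuotientGroup.mk_one, inv_one, chr_at_one, mul_one] at h2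
      exact h2
    rw [Finset.sum_congr rfl fun χ _ => by rw [h1 χ]]
    have h3 := hd.part1 ν (t := 1) (x := (a : K)) (by rw [inv_one]; exact hd.one)
    rw [inv_one] at h3
    exact h3
  · rw [Nat.card_unique, Nat.cast_one]
    exact hd.cong

theorem NData.a_ne (hp : p.Prime) (hd : NData p Z θ Fc c n a) : (a : K) ≠ 0 := by
  rw [Int.cast_ne_zero]
  rintro rfl
  have h := hd.cong
  rw [zero_sub, dvd_neg] at h
  exact (Nat.prime_iff_prime_int.1 hp).not_isUnit (isUnit_of_dvd_one h)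

theorem NData.norm_ne (hp : p.Prime) (hd : NData p Z θ Fc c n a) (t : T) :
    ∑ χ, θ χ t * θ χ t⁻¹ ≠ 0 := by
  have hc : (Fintype.card T : K) ≠ 0 := Nat.cast_ne_zero.2 Fintype.card_ne_zero
  have hne : Nonempty I := by
    by_contra h0
    rw [not_nonempty_iff] at h0
    have h1 := hd.one
    rw [Finset.univ_eq_empty, Finset.sum_empty] at h1
    exact mul_ne_zero hc (hd.a_ne hp) h1.symm
  by_cases ht : t ∈ Z
  · have h1 : ∀ χ, θ χ t * θ χ t⁻¹ = θ χ 1 * θ χ 1 := by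
      intro χ
      have h2 := hd.mulz χ ⟨t, ht⟩ 1
      have h3 := hd.mulz χ ⟨t, ht⟩⁻¹ 1
      rw [mul_one] at h2 h3
      have h4 : ((⟨t, ht⟩⁻¹ : ↥Z) : T) = t⁻¹ := rfl
      rw [h4, map_inv] at h3
      change θ χ t = _ at h2
      rw [h2, h3]
      have h5 : ((c χ ⟨t, ht⟩ : Kˣ) : K) * (((c χ ⟨t, ht⟩)⁻¹ : Kˣ) : K) = 1 :=
        Units.mul_inv _
      linear_combination (θ χ 1 * θ χ 1) * h5
    rw [Finset.sum_congr rfl fun χ _ => h1 χ, hd.one]
    exact mul_ne_zero hc (hd.a_ne hp)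
  · rw [hd.gram t ht]
    obtain ⟨χ⟩ := hne
    have hn : (n t : K) ≠ 0 := by
      intro h0
      have h1 := hd.fac χ t ht
      rw [h0, zero_mul] at h1
      exact hd.ne χ t h1
    exact mul_ne_zero (mul_ne_zero hc hn) hn

theorem NData.le_card (hp : p.Prime) (hd : NData p Z θ Fc c n a) :
    Fintype.card T ≤ Fintype.card I := by
  classical
  let M : Matrix T I K := fun t χ => θ χ t
  let N : Matrix I T K := fun χ t => θ χ t⁻¹
  have h1 : M * N = Matrix.diagonal (fun t => ∑ χ, θ χ t * θ χ t⁻¹) := by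
    ext s t
    rw [Matrix.mul_apply, Matrix.diagonal_apply]
    split_ifs with h
    · rw [h]
    · exact hd.gram0 s t h
  have h2 : (M * N).rank = Fintype.card T := by
    rw [h1, Matrix.rank_diagonal]
    rw [Fintype.card_subtype, Finset.filter_true_of_mem fun t _ => hd.norm_ne hp t,
      Finset.card_univ]
  calc Fintype.card T = (M * N).rank := h2.symm
    _ ≤ M.rank := Matrix.rank_mul_le_left _ _
    _ ≤ Fintype.card I := Matrix.rank_le_card_width _

theorem NData.part_le (hp : p.Prime) (hp2 : p ≠ 2) (hT : IsPGroup p T) (hZ : Z ≠ ⊤)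
    (hd : NData p Z θ Fc c n a) (ν : ↥Z →* Kˣ) :
    Nat.card {χ // c χ = ν} ≤ Nat.card (T ⧸ Z) := by
  classical
  have := enoughQ K T Z
  have : Fintype (⊥ : Subgroup (MulAut (T ⧸ Z))) := Fintype.ofFinite _
  have : Fintype {χ // c χ = ν} := Fintype.ofFinite _
  have : Fintype (T ⧸ Z) := Fintype.ofFinite _
  obtain ⟨l, g, f, n', hrow, hg⟩ := hd.row ν
  have h1 : 1 < Fintype.card (T ⧸ Z) := by
    by_contra h0
    apply hZ
    rw [← Subgroup.index_eq_one, Subgroup.index, Nat.card_eq_fintype_card]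
    have : 0 < Fintype.card (T ⧸ Z) := Fintype.card_pos
    omega
  have h2 := pure_count (E := (⊥ : Subgroup (MulAut (T ⧸ Z)))) hp hp2 (hT.to_quotient Z)
    (fun φ hφ _ _ _ => Subgroup.mem_bot.1 hφ) (by
      rw [Nat.card_unique]
      exact fun h => hp.one_lt.ne' (Nat.dvd_one.1 h)) hrow ?_ h1
  · rw [Nat.card_unique, mul_one] at h2
    rw [Nat.card_eq_fintype_card, Nat.card_eq_fintype_card]
    have : 1 ≤ Fintype.card (T ⧸ Z) := h1.le
    omega
  · intro χ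
    obtain ⟨t, ht⟩ : ∃ t, t ∉ Z := by
      by_contra h0
      push Not at h0
      exact hZ ((Subgroup.eq_top_iff' Z).2 h0)
    have hq : (QuotientGroup.mk t : T ⧸ Z) ≠ 1 := fun h0 =>
      ht ((QuotientGroup.eq_one_iff _).1 h0)
    refine ⟨QuotientGroup.mk t, hq, fun h0 => ?_⟩
    have h3 := hrow.fac χ _ hq
    rw [h0, mul_zero, hg] at h3
    exact mul_ne_zero (hd.ne χ.1 t) (chr_ne_zero l _) h3

theorem NData.sum_part [DecidableEq (↥Z →* Kˣ)] [Fintype (↥Z →* Kˣ)]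
    (_ : NData p Z θ Fc c n a) :
    Fintype.card I = ∑ ν : ↥Z →* Kˣ, (univ.filter fun χ => c χ = ν).card := by
  rw [← Finset.card_univ]
  exact Finset.card_eq_sum_card_fiberwise (fun _ _ => Finset.mem_coe.2 (Finset.mem_univ _))

theorem card_tot [Fintype (↥Z →* Kˣ)] :
    Fintype.card T = ∑ _ν : ↥Z →* Kˣ, Nat.card (T ⧸ Z) := by
  have := enoughZ K T Z
  have h3 : Nat.card (↥Z →* Kˣ) = Nat.card ↥Z :=
    CommGroup.card_monoidHom_of_hasEnoughRootsOfUnity ↥Z K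
  rw [Finset.sum_const, Finset.card_univ, ← Nat.card_eq_fintype_card (α := ↥Z →* Kˣ), h3,
    smul_eq_mul, mul_comm, ← Nat.card_eq_fintype_card]
  exact Subgroup.card_eq_card_quotient_mul_card_subgroup Z

theorem NData.filter_le [DecidableEq (↥Z →* Kˣ)] (hp : p.Prime) (hp2 : p ≠ 2)
    (hT : IsPGroup p T) (hZ : Z ≠ ⊤) (hd : NData p Z θ Fc c n a) (ν : ↥Z →* Kˣ) :
    (univ.filter fun χ => c χ = ν).card ≤ Nat.card (T ⧸ Z) := by
  have h1 := hd.part_le hp hp2 hT hZ ν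
  rwa [Nat.card_eq_fintype_card, Fintype.card_subtype] at h1

/-- the number of rows -/
theorem NData.card (hp : p.Prime) (hp2 : p ≠ 2) (hT : IsPGroup p T) (hZ : Z ≠ ⊤)
    (hd : NData p Z θ Fc c n a) : Fintype.card I = Fintype.card T := by
  classical
  have := enoughZ K T Z
  let _ : Fintype (↥Z →* Kˣ) := Fintype.ofFinite _
  refine le_antisymm ?_ (hd.le_card hp)
  rw [hd.sum_part, card_tot (K := K) (Z := Z)]
  exact Finset.sum_le_sum fun ν _ => hd.filter_le hp hp2 hT hZ ν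

/-- the number of rows over `ν` -/
theorem NData.card_part' [DecidableEq (↥Z →* Kˣ)] (hp : p.Prime) (hp2 : p ≠ 2)
    (hT : IsPGroup p T) (hZ : Z ≠ ⊤) (hd : NData p Z θ Fc c n a) (ν : ↥Z →* Kˣ) :
    (univ.filter fun χ => c χ = ν).card = Nat.card (T ⧸ Z) := by
  classical
  have := enoughZ K T Z
  let _ : Fintype (↥Z →* Kˣ) := Fintype.ofFinite _
  have h1 := hd.card hp hp2 hT hZ
  rw [hd.sum_part, card_tot (K := K) (Z := Z)] at h1
  exact (Finset.sum_eq_sum_iff_of_le fun ν _ => hd.filter_le hp hp2 hT hZ ν).1 h1 ν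
    (Finset.mem_univ ν)

/-- the number of rows over `ν` -/
theorem NData.card_part [DecidableEq (↥Z →* Kˣ)] (hp : p.Prime) (hp2 : p ≠ 2)
    (hT : IsPGroup p T) (hZ : Z ≠ ⊤) (hd : NData p Z θ Fc c n a) (ν : ↥Z →* Kˣ) :
    (univ.filter fun χ => c χ = ν).card * Nat.card ↥Z = Fintype.card T := by
  rw [hd.card_part' hp hp2 hT hZ, ← Nat.card_eq_fintype_card]
  exact (Subgroup.card_eq_card_quotient_mul_card_subgroup Z).symm

/-- positive vectors orthogonal to the columns off `Z` are constant on the parts -/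
theorem NData.const [DecidableEq (↥Z →* Kˣ)] (hp : p.Prime) (hp2 : p ≠ 2)
    (hT : IsPGroup p T) (hZ : Z ≠ ⊤) (hd : NData p Z θ Fc c n a) (ν : ↥Z →* Kˣ) (d : I → ℕ)
    (hpos : ∀ χ, 0 < d χ)
    (ho : ∀ t, t ∉ Z → ∑ χ with c χ = ν, (d χ : K) * θ χ t = 0) :
    ∀ χ χ', c χ = ν → c χ' = ν → d χ = d χ' := by
  have := enoughQ K T Z
  have : Fintype (T ⧸ Z) := Fintype.ofFinite _
  have : Fintype {χ // c χ = ν} := Fintype.ofFinite _
  obtain ⟨l, g, f, n', hrow, hg⟩ := hd.row ν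
  have hsub : ∀ X : I → K, ∑ χ : {χ // c χ = ν}, X χ.1 = ∑ χ with c χ = ν, X χ := by
    intro X
    exact (Finset.sum_subtype _ (by simp) X).symm
  have h1 : Fintype.card {χ // c χ = ν} = Fintype.card (T ⧸ Z) := by
    rw [Fintype.card_subtype, hd.card_part' hp hp2 hT hZ, Nat.card_eq_fintype_card]
  have h2 := pure_const (I := {χ // c χ = ν}) hp hp2 (hT.to_quotient Z) (g := g) (f := f)
    (n := n') (a := a) hrow h1 (fun χ => d χ.1) (fun χ => hpos χ.1) ?_
  · intro χ χ' hχ hχ'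
    exact h2 ⟨χ, hχ⟩ ⟨χ', hχ'⟩
  · intro u hu
    have h3 : ∑ χ : {χ // c χ = ν}, (d χ.1 : K) * g χ u
        = chr l u.out⁻¹ * ∑ χ : {χ // c χ = ν}, (d χ.1 : K) * θ χ.1 u.out := by
      rw [Finset.mul_sum]
      refine Finset.sum_congr rfl fun χ _ => ?_
      have h4 := hg χ u.out
      rw [QuotientGroup.out_eq'] at h4
      rw [h4]
      ring
    rw [h3, hsub (fun χ => (d χ : K) * θ χ u.out), ho _ (out_notMem hu), mul_zero]

end

end Pool.Agent.Lib.P0c8ca5.Ex
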