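import Mathlib
import Pool.Agent.Lib.P0c8ca5Ex.Pr
import Pool.Agent.Lib.P0c8ca5D.TriA

/-!
# DzA: blocks of defect zero, von Neumann regularity and rank one

`e` is a block of defect zero of the subgroup `K`; `exists_tr` (P0c8ca5D.TriA): `e = trK K a₀` with `a₀` supported on `K`, `e * a₀ = a₀`.
PROOF of `dz_reg`. (Higman) Let `V` be the space of all elements supported on `K` and `N = {x * a | x ∈ V}` (a left ideal of `V`, contained in `e V` because `e * a = a` and `e` is central in `V`). Let `π : V → N` be a `k`-linear projection (`Submodule.exists_isCompl` / `LinearMap.exists_leftInverse`). Put `T m = ∑_(g ∈ K) g * π (a₀ * g⁻¹ * m)`, an element of `N`. For `m ∈ N`: `a₀ * g⁻¹ * m ∈ N`, so `T m = ∑ g a₀ g⁻¹ m = e * m = m`. `T` is left linear: `T (h * m) = h * T m` for `h ∈ K` (substitute `g = h g'`), so `T (y * m) = y * T m` for `y ∈ V`. Put `ε = T e ∈ N`; `m = T (m * e) = m * ε` for `m ∈ N` (`m * e = m`). `ε = x * a`, and `m = a` gives `a = a * x * a`.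
(One can work with all of `kA` instead of `V` if `T` is defined with the sum over `K`: `N = kA * a`; then `x ∈ kA`; replace `x` by its restriction to `K`: `resS K` is a `kK`-bimodule map.)
PROOF of `dz_rank`. Let `a ∈ V`, `y = j * a * j`. Claim: `y = 0` or there is `r` with `r * y = j`, `r = j * r * j`. By `dz_reg` `y = y * x * y = y * (j x j) * y`; `q = (j x j) * y` is idempotent with `j q = q = q j`, so `q = 0` (then `y = y q = 0`) or `q = j`. So every nonzero element of `R = j V j` is left invertible in `R`. `R` is finite dimensional over the algebraically closed field `k`: the linear map `y' ↦ y' * y` on `R` (or multiplication by `y`) has an eigenvalue `c`, so `(y - c • j)` is a zero divisor in `R` and not left invertible, hence `0`.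
PROOF of `dz_line`. By `dz_reg` (note `e * w = w` because `e * j = j`): `w = w * x * w`; `r = j' * x * j`; `w = w * r * w`. `w * r ∈ j V j` is a nonzero idempotent below `j`, so `w * r = j`; `r * w` is a nonzero idempotent below `j'`, so `r * w = j'`. `w' = w' * j' = w' * r * w` and `w' * r = j * (w' * r) * j = c • j` by `dz_rank`, so `w' = c • (j * w) = c • w`.
-/

namespace Pool.Agent.Lib.P0c8ca5.Ex

open MonoidAlgebra

variable {p : ℕ} {k : Type*} [Field k] {A : Type*} [Group A]

namespace DzAAux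

theorem mem_iff {K : Subgroup A} {a : MonoidAlgebra k A} : a ∈ fixAlg k K ⊥ ↔ SuppIn K a := by
  rw [mem_fixAlg]
  exact ⟨fun h => h.1, fun h => ⟨h, Dz.invBy_bot' a⟩⟩

/-- the space `kK` -/
noncomputable def VV (k : Type*) [Field k] (K : Subgroup A) : Submodule k (MonoidAlgebra k A) :=
  Subalgebra.toSubmodule (fixAlg k K ⊥)

theorem mem_VV {K : Subgroup A} {a : MonoidAlgebra k A} : a ∈ VV k K ↔ SuppIn K a := by
  rw [VV, Subalgebra.mem_toSubmodule]
  exact mem_iff

omit [Group A] in
theorem sum_single [Fintype A] (a : MonoidAlgebra k A) : ∑ x : A, single x (a.coeff x) = a := by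
  classical
  ext y
  rw [coeff_sum, Finsupp.finsetSum_apply]
  simp only [coeff_single, Finsupp.single_apply]
  simp

theorem supp_sg {z : A} {S : Subgroup A} (hz : z ∈ S) : SuppIn S (single z (1 : k)) := by
  classical
  intro x hx
  rw [coeff_single, Finsupp.single_apply] at hx
  by_cases h : z = x
  · rwa [← h]
  · rw [if_neg h] at hx
    exact absurd rfl hx

theorem left_lin [Fintype A] {K : Subgroup A} (T : MonoidAlgebra k A →ₗ[k] MonoidAlgebra k A)
    (h : ∀ g ∈ K, ∀ m, T (single g 1 * m) = single g 1 * T m) {y : MonoidAlgebra k A}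
    (hy : SuppIn K y) (m : MonoidAlgebra k A) : T (y * m) = y * T m := by
  classical
  rw [← sum_single y, Finset.sum_mul, map_sum, Finset.sum_mul]
  refine Finset.sum_congr rfl fun g _ => ?_
  by_cases hg : g ∈ K
  · have h1 : single g (y.coeff g) = y.coeff g • single g (1 : k) := by
      rw [MonoidAlgebra.smul_single, smul_eq_mul, mul_one]
    rw [h1, smul_mul_assoc, map_smul, h g hg, smul_mul_assoc]
  · have h1 : y.coeff g = 0 := by
      by_contra h2
      exact hg (hy g h2)
    rw [h1, single_zero, zero_mul, map_zero, zero_mul]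

end DzAAux

open DzAAux

section
variable [Fact p.Prime] [CharP k p] [IsAlgClosed k] [Finite A]
variable {K : Subgroup A} {e : MonoidAlgebra k A}

theorem dz_reg (he : IsDZ p K e) {a : MonoidAlgebra k A} (ha : SuppIn K a) (hea : e * a = a) :
    ∃ x : MonoidAlgebra k A, SuppIn K x ∧ a * x * a = a := by
  classical
  have := Fintype.ofFinite A
  obtain ⟨a₀, ha₀, hea₀, htr⟩ := Dz.exists_tr he
  set N : Submodule k (MonoidAlgebra k A) := (VV k K).map (LinearMap.mulRight k a) with hN
  have hmN : ∀ m, m ∈ N ↔ ∃ y, SuppIn K y ∧ y * a = m := by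
    intro m
    rw [hN, Submodule.mem_map]
    constructor
    · rintro ⟨y, hy, hy'⟩
      exact ⟨y, mem_VV.1 hy, hy'⟩
    · rintro ⟨y, hy, hy'⟩
      exact ⟨y, mem_VV.2 hy, hy'⟩
  have hNl : ∀ y m, SuppIn K y → m ∈ N → y * m ∈ N := by
    intro y m hy hm
    obtain ⟨z, hz, rfl⟩ := (hmN m).1 hm
    exact (hmN _).2 ⟨y * z, hy.mul hz, mul_assoc _ _ _⟩
  have hem : ∀ m ∈ N, e * m = m := by
    intro m hm
    obtain ⟨z, hz, rfl⟩ := (hmN m).1 hm
    rw [← mul_assoc, ← commute_of hz he.blk.invBy, mul_assoc, hea]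
  obtain ⟨π, hπ⟩ := LinearMap.exists_leftInverse_of_injective N.subtype (Submodule.ker_subtype N)
  have hπ' : ∀ m ∈ N, ((π m : N) : MonoidAlgebra k A) = m := by
    intro m hm
    have h1 := LinearMap.congr_fun hπ (⟨m, hm⟩ : N)
    exact congrArg Subtype.val h1
  set T : MonoidAlgebra k A →ₗ[k] MonoidAlgebra k A :=
    ∑ g ∈ Finset.univ.filter (fun x => x ∈ K), (LinearMap.mulLeft k (single g (1 : k))) ∘ₗ
      (N.subtype ∘ₗ π) ∘ₗ (LinearMap.mulLeft k (a₀ * single g⁻¹ (1 : k))) with hT
  have hTa : ∀ m, T m = ∑ g ∈ Finset.univ.filter (fun x => x ∈ K), single g (1 : k) *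
      ((π (a₀ * single g⁻¹ (1 : k) * m) : N) : MonoidAlgebra k A) := by
    intro m
    rw [hT, LinearMap.sum_apply]
    rfl
  have hTN : ∀ m, T m ∈ N := by
    intro m
    rw [hTa]
    refine Submodule.sum_mem _ fun g hg => ?_
    exact hNl _ _ (supp_sg (Finset.mem_filter.1 hg).2) (π _).2
  have hTm : ∀ m ∈ N, T m = m := by
    intro m hm
    rw [hTa]
    have h1 : ∀ g ∈ Finset.univ.filter (fun x => x ∈ K), single g (1 : k) *
        ((π (a₀ * single g⁻¹ (1 : k) * m) : N) : MonoidAlgebra k A) = cj g a₀ * m := by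
      intro g hg
      have hgK := (Finset.mem_filter.1 hg).2
      rw [hπ' _ (hNl _ _ (ha₀.mul (supp_sg (K.inv_mem hgK))) hm), cj]
      simp only [mul_assoc]
    rw [Finset.sum_congr rfl h1, ← Finset.sum_mul]
    have h2 : ∑ g ∈ Finset.univ.filter (fun x => x ∈ K), cj g a₀ = e := by
      rw [htr, trK]
    rw [h2, hem m hm]
  have hTg : ∀ g ∈ K, ∀ m, T (single g 1 * m) = single g 1 * T m := by
    intro g hg m
    rw [hTa, hTa, Finset.mul_sum]
    symm
    refine Finset.sum_bij (fun x _ => g * x) ?_ ?_ ?_ ?_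
    · intro x hx
      exact Finset.mem_filter.2 ⟨Finset.mem_univ _, K.mul_mem hg (Finset.mem_filter.1 hx).2⟩
    · intro x _ y _ hxy
      exact mul_left_cancel hxy
    · intro x hx
      exact ⟨g⁻¹ * x, Finset.mem_filter.2 ⟨Finset.mem_univ _,
        K.mul_mem (K.inv_mem hg) (Finset.mem_filter.1 hx).2⟩, by group⟩
    · intro x _
      have h1 : single (g * x)⁻¹ (1 : k) * (single g 1 * m) = single x⁻¹ (1 : k) * m := by
        rw [← mul_assoc, single_mul_single, one_mul]
        congr 2
        group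
      have h2 : single (g * x) (1 : k) = single g 1 * single x 1 := by
        rw [single_mul_single, one_mul]
      rw [mul_assoc a₀ (single (g * x)⁻¹ (1 : k)), h1, h2, mul_assoc a₀, mul_assoc]
  obtain ⟨x, hx, hxa⟩ := (hmN _).1 (hTN e)
  refine ⟨x, hx, ?_⟩
  have haN : a ∈ N := (hmN _).2 ⟨1, mem_iff.1 (Subalgebra.one_mem _), one_mul a⟩
  have hae : a * e = a := by rw [commute_of ha he.blk.invBy, hea]
  calc a * x * a = a * T e := by rw [mul_assoc, hxa]
    _ = T (a * e) := (left_lin T hTg ha e).symm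
    _ = a := by rw [hae, hTm a haN]

theorem dz_rank (he : IsDZ p K e) {j : MonoidAlgebra k A} (hj : PrimIn (fixAlg k K ⊥) j)
    (hej : e * j = j) {a : MonoidAlgebra k A} (ha : SuppIn K a) : ∃ c : k, j * a * j = c • j := by
  classical
  have hjK : SuppIn K j := mem_iff.1 hj.mem
  have hinv : ∀ v, SuppIn K v → j * v = v → v * j = v → v ≠ 0 → ∃ s, s * v = j := by
    intro v hv h1 h2 h0
    obtain ⟨x, hx, hvx⟩ := dz_reg he hv (by rw [← h1, ← mul_assoc, hej])
    have hq1 : (j * x * v) * (j * x * v) = j * x * v := by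
      calc (j * x * v) * (j * x * v) = j * x * (v * j) * x * v := by simp only [mul_assoc]
        _ = j * x * (v * x * v) := by rw [h2]; simp only [mul_assoc]
        _ = j * x * v := by rw [hvx]
    have hq2 : j * (j * x * v) = j * x * v := by
      rw [← mul_assoc, ← mul_assoc, hj.idem]
    have hq3 : (j * x * v) * j = j * x * v := by rw [mul_assoc, h2]
    rcases hj.prim _ (mem_iff.2 ((hjK.mul hx).mul hv)) hq1 hq2 hq3 with h3 | h3
    · exfalso
      apply h0
      calc v = v * x * v := hvx.symm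
        _ = (v * j) * x * v := by rw [h2]
        _ = v * (j * x * v) := by simp only [mul_assoc]
        _ = 0 := by rw [h3, mul_zero]
    · exact ⟨j * x, h3⟩
  set y := j * a * j with hy
  have hyK : SuppIn K y := (hjK.mul ha).mul hjK
  have hy1 : j * y = y := by rw [hy, ← mul_assoc, ← mul_assoc, hj.idem]
  have hy2 : y * j = y := by rw [hy, mul_assoc, hj.idem]
  set R : Submodule k (MonoidAlgebra k A) :=
    { carrier := {v | SuppIn K v ∧ j * v = v ∧ v * j = v}
      add_mem' := by
        rintro v w ⟨h1, h2, h3⟩ ⟨h1', h2', h3'⟩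
        exact ⟨h1.add h1', by rw [mul_add, h2, h2'], by rw [add_mul, h3, h3']⟩
      zero_mem' := ⟨suppIn_zero, mul_zero _, zero_mul _⟩
      smul_mem' := by
        rintro c v ⟨h1, h2, h3⟩
        exact ⟨mem_iff.1 (Subalgebra.smul_mem _ (mem_iff.2 h1) c),
          by rw [mul_smul_comm, h2], by rw [smul_mul_assoc, h3]⟩ } with hR
  have hmR : ∀ v, v ∈ R ↔ SuppIn K v ∧ j * v = v ∧ v * j = v := fun v => Iff.rfl
  have hRy : ∀ v ∈ R, v * y ∈ R := by
    intro v hv
    obtain ⟨h1, h2, h3⟩ := (hmR v).1 hv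
    exact (hmR _).2 ⟨h1.mul hyK, by rw [← mul_assoc, h2], by rw [mul_assoc, hy2]⟩
  set f : Module.End k R := (LinearMap.mulRight k y).restrict hRy with hf
  have hjR : j ∈ R := (hmR j).2 ⟨hjK, hj.idem, hj.idem⟩
  have hnt : Nontrivial R := ⟨⟨j, hjR⟩, 0, fun h => hj.ne (congrArg Subtype.val h)⟩
  obtain ⟨c, hc⟩ := Module.End.exists_eigenvalue f
  obtain ⟨v, hv⟩ := hc.exists_hasEigenvector
  have hv0 : (v : MonoidAlgebra k A) ≠ 0 := fun h => hv.2 (Subtype.ext h)
  have hv1 : (v : MonoidAlgebra k A) * y = c • (v : MonoidAlgebra k A) :=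
    congrArg Subtype.val hv.apply_eq_smul
  obtain ⟨h1, h2, h3⟩ := (hmR v).1 v.2
  obtain ⟨s, hs⟩ := hinv _ h1 h2 h3 hv0
  refine ⟨c, ?_⟩
  calc y = j * y := hy1.symm
    _ = s * ((v : MonoidAlgebra k A) * y) := by rw [← hs, mul_assoc]
    _ = c • j := by rw [hv1, mul_smul_comm, hs]

theorem dz_line (he : IsDZ p K e) {j j' : MonoidAlgebra k A} (hj : PrimIn (fixAlg k K ⊥) j)
    (hj' : PrimIn (fixAlg k K ⊥) j') (hej : e * j = j) (hej' : e * j' = j')
    {w w' : MonoidAlgebra k A} (hw : SuppIn K w) (hw' : SuppIn K w') (h1 : j * w = w)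
    (h2 : w * j' = w) (h1' : j * w' = w') (h2' : w' * j' = w') (hw0 : w ≠ 0) :
    ∃ c : k, w' = c • w := by
  classical
  have hjK : SuppIn K j := mem_iff.1 hj.mem
  have hjK' : SuppIn K j' := mem_iff.1 hj'.mem
  obtain ⟨x, hx, hwx⟩ := dz_reg he hw (by rw [← h1, ← mul_assoc, hej])
  set r := j' * x * j with hr
  have hrK : SuppIn K r := (hjK'.mul hx).mul hjK
  have hwr : w * r * w = w := by
    calc w * r * w = (w * j') * x * (j * w) := by rw [hr]; simp only [mul_assoc]
      _ = w := by rw [h1, h2, hwx]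
  have hwr1 : w * r = j := by
    have hq1 : (w * r) * (w * r) = w * r := by rw [← mul_assoc, hwr]
    have hq2 : j * (w * r) = w * r := by rw [← mul_assoc, h1]
    have hq3 : (w * r) * j = w * r := by rw [hr, mul_assoc, mul_assoc (j' * x), hj.idem]
    rcases hj.prim _ (mem_iff.2 (hw.mul hrK)) hq1 hq2 hq3 with h3 | h3
    · exact absurd (by rw [← hwr, h3, zero_mul]) hw0
    · exact h3
  have hrw1 : r * w = j' := by
    have hq1 : (r * w) * (r * w) = r * w := by
      rw [mul_assoc, ← mul_assoc w r w, hwr]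
    have hq2 : j' * (r * w) = r * w := by
      rw [hr, ← mul_assoc, ← mul_assoc, ← mul_assoc, hj'.idem]
    have hq3 : (r * w) * j' = r * w := by rw [mul_assoc, h2]
    rcases hj'.prim _ (mem_iff.2 (hrK.mul hw)) hq1 hq2 hq3 with h3 | h3
    · exact absurd (by rw [← hwr, mul_assoc, h3, mul_zero]) hw0
    · exact h3
  obtain ⟨c, hc⟩ := dz_rank he hj hej (hw'.mul hrK)
  refine ⟨c, ?_⟩
  have h4 : w' * r = c • j := by
    rw [← hc]
    calc w' * r = (j * w') * (j' * x * (j * j)) := by rw [h1', hj.idem]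
      _ = j * (w' * r) * j := by rw [hr]; simp only [mul_assoc]
  calc w' = w' * (r * w) := by rw [hrw1, h2']
    _ = c • w := by rw [← mul_assoc, h4, smul_mul_assoc, h1]

end

end Pool.Agent.Lib.P0c8ca5.Ex
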