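import Mathlib
import Pool.Agent.Lib.P0c8ca5Ex.DzA
import Pool.Agent.Lib.P0c8ca5Ex.Fm

/-!
# DzB: blocks of defect zero, the ideal of a primitive idempotent and the trace form

`e` is a block of defect zero of `K`, `j` a primitive idempotent of `kK` below `e`; `V` = elements supported on `K`.
PROOF of `dz_gen`. Let `I` be the span (a two-sided ideal of `V` contained in `e V`). The proof of `dz_reg` for the left ideal `I` gives `ε ∈ I` with `m * ε = m` for all `m ∈ I` (Higman projection onto `I`; factor this out as a lemma `dz_proj`: every subspace `N ⊆ e V` stable under left multiplication by `V` contains `ε` with `m * ε = m` for all `m ∈ N`); the mirror version gives `ε' ∈ I` with `ε' * m = m` (use the anti-automorphism `g ↦ g⁻¹`, or the mirror sum `∑ π (m g a₀) g⁻¹` and `e = ∑ g a₀ g⁻¹`; or avoid it: for a two-sided ideal `I` of a semiprime situation `(1 - ε) I` is a left annihilated ideal: `m = ε * m` because `x = m - ε m` (`m ∈ I`) satisfies `I * x = 0`, `x ∈ I`, and `x = x * y * x` (`dz_reg`)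 with `x * y ∈ I`, hence `x = 0`). So `ε` is a two-sided identity of `I`, idempotent, central in `kK` (`x ε ∈ I` gives `ε x ε = x ε`, `ε x ∈ I` gives `ε x ε = ε x`), not 0 (`j ∈ I`), `ε * e = ε`; `e` is a block: `ε = e`.
PROOF of `dz_tr`. `trK K x` is central in `kK` for `x ∈ V`, and `trK K (e x) = e * trK K x = c(x) • e`: by `cen_scalar` it is `c • e + n`, `n` nilpotent central, `e n = n`; `n = n x n` for some `x` (`dz_reg`) gives `n = 0` (a nilpotent central `n` with `n = n² x` is 0). So `trK K j = t • e`. `t ≠ 0`: `trK K (x y) = trK K (y x)` for `x, y ∈ V` (check on group elements). `e = trK K a₀ = trK K (a₀ e)`, `e = ∑ x_m j y_m` (`dz_gen`), so `e = ∑ trK K (a₀ x_m j y_m) = ∑ trK K (j y_m a₀ x_m j) = ∑ c_m • trK K j` (`dz_rank`), so `t = 0` would give `e = 0`.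
PROOF of `dz_sum`. `j * w * j = c(w) • j` for `w ∈ V` with a linear function `c` (`dz_rank`; `c` is linear because `j ≠ 0`), `c(j) = 1`. The sum is `∑_(x ∈ K) (j * x * j * x⁻¹).coeff 1 = ∑_(x ∈ K) (j x j).coeff x = ∑_(x ∈ K) c(x) * j.coeff x = c(∑ j.coeff x • x) = c(j) = 1`.
-/

namespace Pool.Agent.Lib.P0c8ca5.Ex

open MonoidAlgebra

variable {p : ℕ} {k : Type*} [Field k] {A : Type*} [Group A]

namespace DzBAux

section
variable [Fact p.Prime] [CharP k p] [IsAlgClosed k] [Fintype A]
variable {K : Subgroup A} {e : MonoidAlgebra k A}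

omit [Fact p.Prime] [CharP k p] [IsAlgClosed k] [Fintype A] in
theorem supp_single {g : A} (hg : g ∈ K) : SuppIn K (single g (1 : k)) := by
  classical
  intro x hx
  rw [coeff_single, Finsupp.single_apply] at hx
  by_cases h : g = x
  · rwa [← h]
  · rw [if_neg h] at hx
    exact absurd rfl hx

omit [Fact p.Prime] [CharP k p] [IsAlgClosed k] [Fintype A] in
theorem SuppIn_smul {x : MonoidAlgebra k A} (hx : SuppIn K x) (c : k) : SuppIn K (c • x) := by
  intro y hy
  apply hx
  intro h
  apply hy
  simp [h]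

omit [Fact p.Prime] [CharP k p] [IsAlgClosed k] [Fintype A] in
theorem SuppIn_neg {x : MonoidAlgebra k A} (hx : SuppIn K x) : SuppIn K (-x) := by
  intro y hy
  apply hx
  intro h
  apply hy
  simp [h]

omit [Fact p.Prime] [CharP k p] [IsAlgClosed k] in
open Classical in
theorem eq_sum {x : MonoidAlgebra k A} (hx : SuppIn K x) :
    x = ∑ g ∈ Finset.univ.filter (fun g => g ∈ K), x.coeff g • single g (1 : k) := by
  ext y
  rw [coeff_sum, Finsupp.finsetSum_apply]
  by_cases hy : y ∈ K
  · rw [Finset.sum_eq_single y]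
    · simp
    · intro g _ hgy
      simp [coeff_single, hgy]
    · intro h
      exact absurd (Finset.mem_filter.2 ⟨Finset.mem_univ _, hy⟩) h
  · have h0 : x.coeff y = 0 := by
      by_contra h
      exact hy (hx y h)
    rw [h0]
    symm
    apply Finset.sum_eq_zero
    intro g hg
    have hgK := (Finset.mem_filter.1 hg).2
    have hgy : g ≠ y := by
      intro h
      exact hy (h ▸ hgK)
    simp [coeff_single, hgy]

omit [Fact p.Prime] [CharP k p] [IsAlgClosed k] in
/-- two linear maps that agree on the elements of `K` agree on `kK` -/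
theorem lin_ext {M : Type*} [AddCommGroup M] [Module k M] (f f' : MonoidAlgebra k A →ₗ[k] M)
    (h : ∀ g ∈ K, f (single g (1 : k)) = f' (single g (1 : k))) {x : MonoidAlgebra k A}
    (hx : SuppIn K x) : f x = f' x := by
  classical
  rw [eq_sum hx, map_sum, map_sum]
  refine Finset.sum_congr rfl (fun g hg => ?_)
  rw [map_smul, map_smul, h g (Finset.mem_filter.1 hg).2]

omit [Fact p.Prime] [CharP k p] [IsAlgClosed k] in
theorem trK_add (x y : MonoidAlgebra k A) : trK K (x + y) = trK K x + trK K y := by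
  classical
  rw [trK, trK, trK, ← Finset.sum_add_distrib]
  exact Finset.sum_congr rfl (fun g _ => cj_add g x y)

/-- the trace as a linear map -/
noncomputable def trL (K : Subgroup A) : MonoidAlgebra k A →ₗ[k] MonoidAlgebra k A where
  toFun := trK K
  map_add' := trK_add
  map_smul' := fun c x => trK_smul K c x

omit [Fact p.Prime] [CharP k p] [IsAlgClosed k] in
theorem trL_apply (x : MonoidAlgebra k A) : trL K x = trK K x := rfl

omit [Fact p.Prime] [CharP k p] [IsAlgClosed k] in
theorem trK_comm {x : MonoidAlgebra k A} (hx : SuppIn K x) (y : MonoidAlgebra k A) :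
    trK K (x * y) = trK K (y * x) := by
  have h := lin_ext (K := K) ((trL K).comp (LinearMap.mulRight k y))
    ((trL K).comp (LinearMap.mulLeft k y)) ?_ hx
  · simpa [trL_apply] using h
  · intro g hg
    simp only [LinearMap.comp_apply, LinearMap.mulRight_apply, LinearMap.mulLeft_apply, trL_apply]
    have h1 : y * single g (1 : k) = cj g⁻¹ (single g (1 : k) * y) := by
      rw [cj, inv_inv, ← mul_assoc, single_mul_single, inv_mul_cancel, one_mul]
      change _ = (1 : MonoidAlgebra k A) * y * _
      rw [one_mul]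
    rw [h1, ← cj_trK (Subgroup.le_normalizer (K.inv_mem hg)),
      invBy_iff_cj.1 (trK_invBy K _) _ (K.inv_mem hg)]

theorem scal (he : IsDZ p K e) {w : MonoidAlgebra k A} (hw : SuppIn K w) (hi : InvBy K w)
    (hew : e * w = w) : ∃ c : k, w = c • e :=
  Dz.Tri.scalar (p := p) (N := K) (K := K)
    ⟨le_refl K, Subgroup.le_normalizer, he, he.blk.invBy⟩ hw hi hew

/-- a left and right ideal below `e` contains an element `ε` with `m * ε = m` -/
theorem proj_ideal (he : IsDZ p K e) (I : Submodule k (MonoidAlgebra k A))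
    (hl : ∀ v m, SuppIn K v → m ∈ I → v * m ∈ I) (hI : ∀ m ∈ I, SuppIn K m)
    (hIe : ∀ m ∈ I, m * e = m) :
    ∃ ε ∈ I, ∀ m ∈ I, m * ε = m := by
  classical
  obtain ⟨a₀, ha₀, hea₀, htr⟩ := Dz.exists_tr he
  obtain ⟨f, hf⟩ := LinearMap.exists_leftInverse_of_injective I.subtype
    (LinearMap.ker_eq_bot.2 I.subtype_injective)
  set π : MonoidAlgebra k A →ₗ[k] MonoidAlgebra k A := I.subtype.comp f with hπ
  have hπI : ∀ x, π x ∈ I := fun x => (f x).2
  have hπm : ∀ m ∈ I, π m = m := by
    intro m hm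
    have h1 : f m = ⟨m, hm⟩ := LinearMap.congr_fun hf ⟨m, hm⟩
    change ((f m : I) : MonoidAlgebra k A) = m
    rw [h1]
  set T : MonoidAlgebra k A →ₗ[k] MonoidAlgebra k A :=
    ∑ g ∈ Finset.univ.filter (fun g => g ∈ K),
      (LinearMap.mulLeft k (single g (1 : k))).comp
        (π.comp (LinearMap.mulLeft k (a₀ * single g⁻¹ (1 : k)))) with hT
  have hTa : ∀ m, T m = ∑ g ∈ Finset.univ.filter (fun g => g ∈ K),
      single g (1 : k) * π (a₀ * single g⁻¹ (1 : k) * m) := by
    intro m
    rw [hT, LinearMap.sum_apply]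
    rfl
  have hTI : ∀ m, T m ∈ I := by
    intro m
    rw [hTa]
    refine I.sum_mem (fun g hg => ?_)
    exact hl _ _ (supp_single (Finset.mem_filter.1 hg).2) (hπI _)
  have hTm : ∀ m ∈ I, T m = m := by
    intro m hm
    have hSm := hI m hm
    have hem : e * m = m := by
      rw [← commute_of hSm he.blk.invBy, hIe m hm]
    rw [hTa]
    have h1 : ∀ g ∈ Finset.univ.filter (fun g => g ∈ K),
        single g (1 : k) * π (a₀ * single g⁻¹ (1 : k) * m) = cj g a₀ * m := by
      intro g hg
      have hgK := (Finset.mem_filter.1 hg).2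
      rw [hπm _ (hl _ _ (ha₀.mul (supp_single (K.inv_mem hgK))) hm), cj]
      simp only [mul_assoc]
    rw [Finset.sum_congr rfl h1, ← Finset.sum_mul]
    change trK K a₀ * m = m
    rw [← htr, hem]
  have hTs : ∀ h ∈ K, ∀ m, T (single h (1 : k) * m) = single h (1 : k) * T m := by
    intro h hh m
    rw [hTa, hTa, Finset.mul_sum]
    refine Finset.sum_bij' (fun g _ => h⁻¹ * g) (fun g _ => h * g) ?_ ?_ ?_ ?_ ?_
    · intro g hg
      exact Finset.mem_filter.2 ⟨Finset.mem_univ _,
        K.mul_mem (K.inv_mem hh) (Finset.mem_filter.1 hg).2⟩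
    · intro g hg
      exact Finset.mem_filter.2 ⟨Finset.mem_univ _, K.mul_mem hh (Finset.mem_filter.1 hg).2⟩
    · intro g _
      exact mul_inv_cancel_left h g
    · intro g _
      exact inv_mul_cancel_left h g
    · intro g _
      have h1 : a₀ * single g⁻¹ (1 : k) * (single h (1 : k) * m)
          = a₀ * single (h⁻¹ * g)⁻¹ (1 : k) * m := by
        rw [mul_inv_rev, inv_inv, ← mul_assoc, mul_assoc a₀, single_mul_single, one_mul]
      have h2 : single h (1 : k) * (single (h⁻¹ * g) (1 : k) *
          π (a₀ * single (h⁻¹ * g)⁻¹ (1 : k) * m))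
          = single g (1 : k) * π (a₀ * single (h⁻¹ * g)⁻¹ (1 : k) * m) := by
        rw [← mul_assoc, single_mul_single, mul_inv_cancel_left, one_mul]
      rw [h1, h2]
  have hTv : ∀ v m, SuppIn K v → T (v * m) = v * T m := by
    intro v m hv
    exact lin_ext (K := K) (T.comp (LinearMap.mulRight k m)) (LinearMap.mulRight k (T m))
      (fun g hg => hTs g hg m) hv
  refine ⟨T e, hTI e, fun m hm => ?_⟩
  rw [← hTv m e (hI m hm), hIe m hm, hTm m hm]

end

end DzBAux

open DzBAux

section
variable [Fact p.Prime] [CharP k p] [IsAlgClosed k] [Fintype A]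
variable {K : Subgroup A} {e : MonoidAlgebra k A}

theorem dz_gen (he : IsDZ p K e) {j : MonoidAlgebra k A} (hj : PrimIn (fixAlg k K ⊥) j)
    (hej : e * j = j) : e ∈ Submodule.span k {y : MonoidAlgebra k A | ∃ x x' : MonoidAlgebra k A,
      SuppIn K x ∧ SuppIn K x' ∧ y = x * j * x'} := by
  set I := Submodule.span k {y : MonoidAlgebra k A | ∃ x x' : MonoidAlgebra k A,
      SuppIn K x ∧ SuppIn K x' ∧ y = x * j * x'} with hIdef
  have hjS : SuppIn K j := (mem_fixAlg.1 hj.mem).1
  have hone : SuppIn K (1 : MonoidAlgebra k A) := supp_single K.one_mem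
  have hI : ∀ m ∈ I, SuppIn K m := by
    intro m hm
    induction hm using Submodule.span_induction with
    | mem y hy =>
      obtain ⟨x, x', hx, hx', rfl⟩ := hy
      exact (hx.mul hjS).mul hx'
    | zero => exact suppIn_zero
    | add y z _ _ h1 h2 => exact h1.add h2
    | smul c y _ h1 => exact SuppIn_smul h1 c
  have hl : ∀ v m, SuppIn K v → m ∈ I → v * m ∈ I := by
    intro v m hv hm
    induction hm using Submodule.span_induction with
    | mem y hy =>
      obtain ⟨x, x', hx, hx', rfl⟩ := hy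
      exact Submodule.subset_span ⟨v * x, x', hv.mul hx, hx', by simp only [mul_assoc]⟩
    | zero => rw [mul_zero]; exact I.zero_mem
    | add y z _ _ h1 h2 => rw [mul_add]; exact I.add_mem h1 h2
    | smul c y _ h1 => rw [mul_smul_comm]; exact I.smul_mem c h1
  have hr : ∀ v m, SuppIn K v → m ∈ I → m * v ∈ I := by
    intro v m hv hm
    induction hm using Submodule.span_induction with
    | mem y hy =>
      obtain ⟨x, x', hx, hx', rfl⟩ := hy
      exact Submodule.subset_span ⟨x, x' * v, hx, hx'.mul hv, by simp only [mul_assoc]⟩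
    | zero => rw [zero_mul]; exact I.zero_mem
    | add y z _ _ h1 h2 => rw [add_mul]; exact I.add_mem h1 h2
    | smul c y _ h1 => rw [smul_mul_assoc]; exact I.smul_mem c h1
  have hje : j * e = j := by rw [commute_of hjS he.blk.invBy, hej]
  have hIe : ∀ m ∈ I, m * e = m := by
    intro m hm
    induction hm using Submodule.span_induction with
    | mem y hy =>
      obtain ⟨x, x', hx, hx', rfl⟩ := hy
      rw [mul_assoc, commute_of hx' he.blk.invBy, mul_assoc x j, ← mul_assoc j, hje, mul_assoc]
    | zero => rw [zero_mul]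
    | add y z _ _ h1 h2 => rw [add_mul, h1, h2]
    | smul c y _ h1 => rw [smul_mul_assoc, h1]
  obtain ⟨ε, hε, hεr⟩ := proj_ideal he I hl hI hIe
  have hεl : ∀ m ∈ I, ε * m = m := by
    intro m hm
    have hx : m - ε * m ∈ I := I.sub_mem hm (hr m ε (hI m hm) hε)
    have hxS := hI _ hx
    have hex : e * (m - ε * m) = m - ε * m := by
      rw [← commute_of hxS he.blk.invBy, hIe _ hx]
    obtain ⟨y, hy, hyx⟩ := dz_reg he hxS hex
    have h1 : (m - ε * m) * y ∈ I := hr y _ hy hx
    have h2 : (m - ε * m) * y * (m - ε * m) = 0 := by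
      rw [mul_sub, ← mul_assoc _ ε m, hεr _ h1, sub_self]
    rw [h2] at hyx
    exact (sub_eq_zero.1 hyx.symm).symm
  have hjI : j ∈ I := Submodule.subset_span ⟨1, 1, hone, hone, by rw [one_mul, mul_one]⟩
  have hε0 : ε ≠ 0 := by
    intro h
    apply hj.ne
    rw [← hεr j hjI, h, mul_zero]
  have hcomm : ∀ v, SuppIn K v → v * ε = ε * v := by
    intro v hv
    have h1 := hεl _ (hl v ε hv hε)
    have h2 := hεr _ (hr v ε hv hε)
    rw [← h1, ← mul_assoc, h2]
  have hmem : ε ∈ fixAlg k K K :=
    ⟨hI ε hε, fun g hg => hcomm _ (supp_single hg)⟩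
  rcases he.blk.prim ε hmem (hεr ε hε) (hIe ε hε) with h | h
  · exact absurd h hε0
  · rw [← h]; exact hε

theorem dz_tr (he : IsDZ p K e) {j : MonoidAlgebra k A} (hj : PrimIn (fixAlg k K ⊥) j)
    (hej : e * j = j) : ∃ t : k, t ≠ 0 ∧ trK K j = t • e := by
  have hjS : SuppIn K j := (mem_fixAlg.1 hj.mem).1
  obtain ⟨t, ht⟩ := scal he (trK_suppIn Subgroup.le_normalizer hjS) (trK_invBy K j)
    (by rw [← mul_trK j he.blk.invBy, hej])
  refine ⟨t, ?_, ht⟩
  intro h0
  rw [h0, zero_smul] at ht
  obtain ⟨a₀, ha₀, hea₀, htr⟩ := Dz.exists_tr he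
  apply he.blk.ne_zero
  have hgen := dz_gen he hj hej
  have key : ∀ m ∈ Submodule.span k {y : MonoidAlgebra k A | ∃ x x' : MonoidAlgebra k A,
      SuppIn K x ∧ SuppIn K x' ∧ y = x * j * x'}, trK K (a₀ * m) = 0 := by
    intro m hm
    induction hm using Submodule.span_induction with
    | mem y hy =>
      obtain ⟨x, x', hx, hx', rfl⟩ := hy
      have h1 : a₀ * (x * j * x') = (a₀ * x * j) * (j * x') := by
        have h2 : j * (j * x') = j * x' := by rw [← mul_assoc, hj.idem]
        rw [mul_assoc (a₀ * x), h2]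
        simp only [mul_assoc]
      rw [h1, trK_comm ((ha₀.mul hx).mul hjS)]
      obtain ⟨c, hc⟩ := dz_rank he hj hej ((hx'.mul ha₀).mul hx)
      have h3 : j * x' * (a₀ * x * j) = c • j := by
        rw [← hc]
        simp only [mul_assoc]
      rw [h3, trK_smul, ht, smul_zero]
    | zero => rw [mul_zero, ← trL_apply, map_zero]
    | add y z _ _ h1 h2 => rw [mul_add, trK_add, h1, h2, add_zero]
    | smul c y _ h1 => rw [mul_smul_comm, trK_smul, h1, smul_zero]
  have h4 := key e hgen
  rwa [commute_of ha₀ he.blk.invBy, hea₀, ← htr] at h4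

open Classical in
theorem dz_sum (he : IsDZ p K e) {j : MonoidAlgebra k A} (hj : PrimIn (fixAlg k K ⊥) j)
    (hej : e * j = j) :
    ∑ x ∈ Finset.univ.filter (fun x => x ∈ K), (j * cj x j).coeff 1 = 1 := by
  have hjS : SuppIn K j := (mem_fixAlg.1 hj.mem).1
  obtain ⟨x₀, hx₀⟩ : ∃ x, j.coeff x ≠ 0 := by
    by_contra h
    push Not at h
    exact hj.ne (by ext x; simpa using h x)
  set φ : MonoidAlgebra k A →ₗ[k] k :=
    { toFun := fun w => (j.coeff x₀)⁻¹ * w.coeff x₀
      map_add' := fun a b => by simp [mul_add]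
      map_smul' := fun c a => by simp [mul_left_comm] } with hφ
  have hφj : φ j = 1 := inv_mul_cancel₀ hx₀
  have hc : ∀ w, SuppIn K w → j * w * j = φ (j * w * j) • j := by
    intro w hw
    obtain ⟨c, hc⟩ := dz_rank he hj hej hw
    rw [hc, map_smul, hφj, smul_eq_mul, mul_one]
  have h1 : ∀ x ∈ Finset.univ.filter (fun x => x ∈ K), (j * cj x j).coeff 1
      = φ (j * (j.coeff x • single x (1 : k)) * j) := by
    intro x hx
    have hxK := (Finset.mem_filter.1 hx).2
    have h2 : j * cj x j = (j * single x (1 : k) * j) * single x⁻¹ (1 : k) := by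
      rw [cj]; simp only [mul_assoc]
    rw [h2, coeff_mul_single_apply, mul_one, inv_inv, one_mul, hc _ (supp_single hxK),
      mul_smul_comm, smul_mul_assoc, map_smul]
    simp [mul_comm]
  rw [Finset.sum_congr rfl h1, ← map_sum, ← Finset.sum_mul, ← Finset.mul_sum, ← eq_sum hjS,
    hj.idem, hj.idem, hφj]

end

end Pool.Agent.Lib.P0c8ca5.Ex
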