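import Mathlib
import Pool.Agent.Lib.P0c8ca5Ex.Src
import Pool.Agent.Lib.P0c8ca5Ex.Fm
import Pool.Agent.Lib.P0c8ca5Ex.DzB
import Pool.Agent.Lib.P0c8ca5Bw.NilB

/-!
# Jd: the images of `f` and `i` in `k[N(D)/D]`

`proj D` is multiplicative on elements invariant under `D` (`proj_mul`, P0c8ca5.Sect) and depends only on the restriction to `C(D)` for such elements (helper59's `proj_zel_cent`-like lemmas, or `proj_res` in P0c8ca5Bw.NilB, `proj_resS` in P0c8ca5S.Wgt).
PROOF of `F_dz`. `F = proj D f`, `U = sec (CD D) D` (the image of `C(D)`). `F * F = F`; `F ≠ 0` (`D` is a normal p-subgroup of `C(D)`: the kernel of `kC(D) → k[C(D)/D]` is nilpotent; see `proj_ne_zero` of P0c8ca5Bw.NilB); `F` is supported on `U` and invariant under `U`. By `tr_defect` `b = ∑ q ∈ X, cj q a`; `resS_sum_cj` and `bf` give `f = ∑_(q ∈ X ∩ N(D)) cj q (resS C(D) a) * f`; apply `proj D`: `F = ∑_(n ∈ NQ D) cj n a' * F` with `a' = proj D a` supported on `U`; the cosets of the normal subgroup `U` of `NQ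 D` give `F = trK U a₀` with `a₀ = ∑_(n ∈ reps of U in NQ D) cj n a' * F` supported on `U`, `a₀ * F = a₀`.
Primitivity: let `F'` be a central idempotent of `kU`, `F' * F = F'`. `F' = trK U (a₀ * F')`. Lift `a₀ * F'` to `α` in `kC(D)` (supported on `C(D)`, automatically invariant under `D`), `z = (∑_(q ∈ Y) cj q α) * f`, `Y` representatives of `C(D)/D`; `z` is central in `kC(D)`, `proj D z = F'`. `cen_scalar` for the block `f` of `C(D)`: `z = z * f = c • f + n`, `n` nilpotent, so `F' = c • F + proj D n` with `proj D n` nilpotent and commuting; an idempotent `F'` with `F' - c • F` nilpotent is `0` or `F`.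
Defect zero: for a p-subgroup `P ≠ ⊥` of `U` `HasBr P F` is impossible because `F = trK U a₀` (`coeff_trK_eq_zero`, see `coeff_cent` in P0c8ca5D.TriA).
PROOF of `J_prim`. `s = resS C(D) i` is primitive in `fixAlg k (CD D) D` (`PrimIn.br` with `Q = D`), `J = proj D i = proj D s ≠ 0` (`proj_ne_zero`). Let `j' ∈ kU` be an idempotent with `J * j' = j' = j' * J`. Lift `j'` to `α ∈ kC(D)`; `α' = s * α * s` is in `fixAlg k (CD D) D` (every element of `kC(D)` is invariant under `D`, because `D` is central in `C(D)`), `proj D α' = j'`. `PrimIn.fit`: `α'` nilpotent gives `j' = 0`; `α' * c = s` gives `j' * proj D c = J`, so `j' = J`.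
`J_F`: `f * i = i`. `rank_one`: `dz_rank` with `F_dz`, `J_prim`, `J_F`.
-/

namespace Pool.Agent.Lib.P0c8ca5.Ex

open MonoidAlgebra Rk

variable {p : ℕ} {k : Type*} [Field k] {A : Type*} [Group A]

namespace JdAux

theorem exists_of_fun [Finite A] (c : A → k) : ∃ α : MonoidAlgebra k A, ∀ x, α.coeff x = c x :=
  ⟨MonoidAlgebra.ofCoeff (Finsupp.equivFunOnFinite.symm c), fun x => by
    rw [coeff_ofCoeff, Finsupp.equivFunOnFinite_symm_apply_apply]⟩

open Classical in
theorem proj_mk [Fintype A] {D : Subgroup A} {T : Set A} {w : MonoidAlgebra k (NQ D)}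
    {α : MonoidAlgebra k A}
    (hα : ∀ x (hx : x ∈ Subgroup.normalizer (D : Set A)),
      α.coeff x = if x ∈ T then w.coeff (qm D x hx) else 0)
    (hT : ∀ n hn, w.coeff (qm D n hn) ≠ 0 → ∃! x, x ∈ T ∧ n⁻¹ * x ∈ D) : proj D α = w := by
  ext v
  obtain ⟨n, hn, rfl⟩ := qm_surj v
  rw [coeff_proj]
  have hx : ∀ x, n⁻¹ * x ∈ D → ∃ hx, qm D x hx = qm D n hn := by
    intro x h
    have hxn : x ∈ Subgroup.normalizer (D : Set A) := by
      have := (Subgroup.normalizer (D : Set A)).mul_mem hn (Subgroup.le_normalizer h)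
      have e1 : n * (n⁻¹ * x) = x := by group
      rwa [e1] at this
    exact ⟨hxn, (qm_eq_iff.2 h).symm⟩
  by_cases h0 : w.coeff (qm D n hn) = 0
  · rw [h0]
    apply Finset.sum_eq_zero
    intro x _
    by_cases h : n⁻¹ * x ∈ D
    · rw [if_pos h]
      obtain ⟨hxn, he⟩ := hx x h
      rw [hα x hxn, he, h0]
      split_ifs <;> rfl
    · rw [if_neg h]
  · obtain ⟨x, ⟨hxT, hxD⟩, hu⟩ := hT n hn h0
    rw [Finset.sum_eq_single x]
    · rw [if_pos hxD]
      obtain ⟨hxn, he⟩ := hx x hxD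
      rw [hα x hxn, if_pos hxT, he]
    · intro y _ hy
      by_cases h : n⁻¹ * y ∈ D
      · rw [if_pos h]
        obtain ⟨hyn, he⟩ := hx y h
        rw [hα y hyn, if_neg (fun hyT => hy (hu y ⟨hyT, h⟩))]
      · rw [if_neg h]
    · intro h
      exact absurd (Finset.mem_univ _) h

/-- elements supported on the image of `H` are projections of elements supported on `H` -/
theorem exists_lift [Fintype A] {D H : Subgroup A} (hDH : D ≤ H) {w : MonoidAlgebra k (NQ D)}
    (hw : SuppIn (sec H D) w) : ∃ α : MonoidAlgebra k A, SuppIn H α ∧ proj D α = w := by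
  classical
  obtain ⟨X, hX⟩ := Rk.exists_reps hDH
  obtain ⟨α, hα⟩ := exists_of_fun (A := A) (fun x => if h : x ∈ Subgroup.normalizer (D : Set A)
    then (if x ∈ X then w.coeff (qm D x h) else 0) else 0)
  refine ⟨α, ?_, ?_⟩
  · intro x hx
    rw [hα] at hx
    by_contra hH
    apply hx
    split_ifs with h1 h2
    · exact absurd (hX.mem x h2) hH
    · rfl
    · rfl
  · apply proj_mk (T := {x | x ∈ X})
    · intro x hx
      rw [hα, dif_pos hx]
      simp only [Set.mem_setOf_eq]
    · intro n hn h0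
      have hnH : n ∈ H := by
        have := hw _ h0
        rwa [qm_mem_sec_iff hDH] at this
      obtain ⟨q, ⟨h1, h2⟩, h3⟩ := hX.uniq n hnH
      refine ⟨q, ⟨h1, ?_⟩, ?_⟩
      · have := D.inv_mem h2
        rwa [mul_inv_rev, inv_inv] at this
      · rintro q' ⟨h4, h5⟩
        apply h3
        refine ⟨h4, ?_⟩
        have := D.inv_mem h5
        rwa [mul_inv_rev, inv_inv] at this

theorem preg_unique [Fact p.Prime] [Finite A] {D : Subgroup A} (hD : IsPGroup p D) {x y : A}
    (hx : x ∈ CD D) (h : x⁻¹ * y ∈ D) (h1 : ¬ p ∣ orderOf x) (h2 : ¬ p ∣ orderOf y) : x = y := by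
  have hc : Commute x (x⁻¹ * y) := (Subgroup.mem_centralizer_iff.1 hx _ h).symm
  have h3 : (x⁻¹ * y) ^ (orderOf x * orderOf y) = 1 := by
    have h4 : y ^ (orderOf x * orderOf y)
        = x ^ (orderOf x * orderOf y) * (x⁻¹ * y) ^ (orderOf x * orderOf y) := by
      rw [← hc.mul_pow, mul_inv_cancel_left]
    rw [pow_mul' y, pow_orderOf_eq_one, one_pow, pow_mul x, pow_orderOf_eq_one, one_pow,
      one_mul] at h4
    exact h4.symm
  obtain ⟨r, hr⟩ := hD ⟨x⁻¹ * y, h⟩
  have hr' : (x⁻¹ * y) ^ p ^ r = 1 := congrArg Subtype.val hr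
  have h5 : orderOf (x⁻¹ * y) ∣ p ^ r := orderOf_dvd_of_pow_eq_one hr'
  have h6 : orderOf (x⁻¹ * y) ∣ orderOf x * orderOf y := orderOf_dvd_of_pow_eq_one h3
  have hp : p.Prime := Fact.out
  have h7 : Nat.Coprime (p ^ r) (orderOf x * orderOf y) := by
    apply Nat.Coprime.pow_left
    rw [hp.coprime_iff_not_dvd, hp.dvd_mul]
    rintro (h8 | h8)
    · exact h1 h8
    · exact h2 h8
  have h8 : orderOf (x⁻¹ * y) ∣ 1 := by
    rw [← h7]
    exact Nat.dvd_gcd h5 h6
  have h9 : x⁻¹ * y = 1 := orderOf_eq_one_iff.1 (Nat.dvd_one.1 h8)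
  rw [inv_mul_eq_one] at h9
  exact h9

theorem preg_exists [Fact p.Prime] [Finite A] {D : Subgroup A} (hD : IsPGroup p D) {n : A}
    (hn : n ∈ CD D) (hn' : n ∈ Subgroup.normalizer (D : Set A))
    (h : ¬ p ∣ orderOf (qm D n hn')) : ∃ x ∈ CD D, ¬ p ∣ orderOf x ∧ n⁻¹ * x ∈ D := by
  have hp : p.Prime := Fact.out
  set m := orderOf (qm D n hn') with hm
  have h1 : n ^ m ∈ D := by
    have h2 : qm D n hn' ^ m = 1 := pow_orderOf_eq_one _
    have h3 : qm D (n ^ m) ((Subgroup.normalizer (D : Set A)).pow_mem hn' m) = 1 := by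
      rw [← h2]
      rfl
    exact qm_eq_one_iff.1 h3
  obtain ⟨r, hr⟩ := hD ⟨n ^ m, h1⟩
  have hr' : (n ^ m) ^ p ^ r = 1 := congrArg Subtype.val hr
  have hcop : Nat.Coprime m (p ^ r) := by
    apply Nat.Coprime.pow_right
    rw [Nat.coprime_comm, hp.coprime_iff_not_dvd]
    exact h
  obtain ⟨a, ha1, ha2⟩ := Nat.chineseRemainder hcop 1 0
  obtain ⟨t, ht⟩ : p ^ r ∣ a := (Nat.modEq_zero_iff_dvd).1 ha2
  refine ⟨n ^ a, (CD D).pow_mem hn a, ?_, ?_⟩
  · have h4 : (n ^ a) ^ m = 1 := by
      rw [← pow_mul, mul_comm, pow_mul, ht, pow_mul, hr', one_pow]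
    intro h5
    exact h (h5.trans (orderOf_dvd_of_pow_eq_one h4))
  · have h6 : (m : ℤ) ∣ (a : ℤ) - 1 := by
      have := (Nat.modEq_iff_dvd.1 ha1.symm)
      exact_mod_cast this
    obtain ⟨u, hu⟩ := h6
    have h7 : n⁻¹ * n ^ a = (n ^ m) ^ u := by
      rw [← zpow_natCast n m, ← zpow_mul, ← hu, ← zpow_natCast n a, ← zpow_neg_one, ← zpow_add]
      congr 1
    rw [h7]
    exact D.zpow_mem h1 u

theorem invBy_resS {P : Subgroup A} {S : Set A} {a : MonoidAlgebra k A} (ha : InvBy P a)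
    (hS : ∀ g ∈ P, ∀ x, x ∈ S ↔ g * x * g⁻¹ ∈ S) : InvBy P (resS S a) := by
  intro g hg x
  rw [coeff_resS, coeff_resS, ha g hg x]
  by_cases hx : x ∈ S
  · rw [if_pos hx, if_pos ((hS g hg x).1 hx)]
  · rw [if_neg hx, if_neg (fun h => hx ((hS g hg x).2 h))]

theorem inv_of_supp {D : Subgroup A} {a : MonoidAlgebra k A} (ha : SuppIn (CD D) a) :
    InvBy D a := by
  intro g hg x
  have hx' : ∀ y, y ∈ CD D → g * y * g⁻¹ = y := by
    intro y hy
    rw [Subgroup.mem_centralizer_iff.1 hy g hg, mul_inv_cancel_right]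
  by_cases hx : x ∈ CD D
  · rw [hx' x hx]
  · have h1 : a.coeff x = 0 := by
      by_contra h
      exact hx (ha x h)
    have h2 : a.coeff (g * x * g⁻¹) = 0 := by
      by_contra h
      have h3 := ha _ h
      apply hx
      have h4 := hx' _ h3
      have h5 : g * x * g⁻¹ = x := by
        have h6 : g * (g * x * g⁻¹) = g * x := by
          have h7 := congrArg (fun z => z * g) h4
          simp only [inv_mul_cancel_right] at h7
          exact h7
        exact mul_left_cancel h6
      rwa [h5] at h3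
    rw [h1, h2]

theorem idem_nilp {R : Type*} [Ring R] {e : R} (he : e * e = e) (h : IsNilpotent e) : e = 0 := by
  obtain ⟨n, hn⟩ := h
  have h1 : e ^ (n + 1) = e := IsIdempotentElem.pow_succ_eq n he
  rw [← h1, pow_succ, hn, zero_mul]

theorem proj_nilp [Fact p.Prime] [CharP k p] [Fintype A] {D : Subgroup A} (hD : IsPGroup p D)
    {a : MonoidAlgebra k A} (ha : InvBy D a) (hn : IsNilpotent a) : IsNilpotent (proj D a) := by
  have haT : a ∈ fixAlg k (⊤ : Subgroup A) D := mem_fixAlg.2 ⟨fun x _ => Subgroup.mem_top x, ha⟩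
  have h1 : ∀ n : ℕ, proj D (a ^ n) = (proj D a) ^ n := by
    intro n
    induction n with
    | zero => rw [pow_zero, pow_zero, proj_one]
    | succ n ih =>
      rw [pow_succ, pow_succ, proj_mul hD (mem_fixAlg.1 (Subalgebra.pow_mem _ haT n)).2 ha, ih]
  obtain ⟨n, hn⟩ := hn
  refine ⟨n, ?_⟩
  rw [← h1, hn, WSumAux.proj_zero']

theorem proj_sub' [Fintype A] {D : Subgroup A} (a c : MonoidAlgebra k A) :
    proj D (a - c) = proj D a - proj D c := by
  have h : proj D (a - c) + proj D c = proj D a := by rw [← proj_add, sub_add_cancel]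
  rw [← h, add_sub_cancel_right]

/-- `D` is the largest p-subgroup of `C(D)` above `D` with nonzero Brauer map at `f` -/
theorem max_f [Fact p.Prime] [CharP k p] [Fintype A] {b f : MonoidAlgebra k A} {D : Subgroup A}
    (h : Root p b D f) {P : Subgroup A} (hDP : D ≤ P) (hPC : P ≤ CD D) (hP : IsPGroup p P)
    (hbr : HasBr P f) : P = D := by
  apply h.dfg.max P le_top hP ?_ hDP
  by_contra hcon
  push Not at hcon
  have hf := mem_fixAlg.1 h.fblk.mem
  have hb := (mem_fixAlg.1 h.blk.mem).2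
  have h1 : InvBy P (resS (CD D : Set A) b) := by
    apply invBy_resS (hb.mono le_top)
    intro g hg x
    have hgC := hPC hg
    constructor
    · intro hx
      exact (CD D).mul_mem ((CD D).mul_mem hgC hx) ((CD D).inv_mem hgC)
    · intro hx
      have h2 := (CD D).mul_mem ((CD D).mul_mem ((CD D).inv_mem hgC) hx) hgC
      have h3 : g⁻¹ * (g * x * g⁻¹) * g = x := by group
      rw [h3] at h2
      exact h2
  have h2 := resS_mul (p := p) hP h1 (hf.2.mono hPC)
  rw [h.bf] at h2
  have h3 : resS (Subgroup.centralizer (P : Set A) : Set A) (resS (CD D : Set A) b) = 0 := by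
    have h4 := resS_CD_CD hDP b
    rw [h4]
    ext x
    by_cases hx : x ∈ (CD P : Set A)
    · rw [coeff_resS_of_mem _ hx, hcon x hx]
      rfl
    · rw [coeff_resS_of_notMem _ hx]
      rfl
  rw [h3, zero_mul] at h2
  obtain ⟨x, hx, hx0⟩ := hbr
  apply hx0
  rw [← coeff_resS_of_mem f (S := (Subgroup.centralizer (P : Set A) : Set A)) hx, h2]
  rfl

theorem sec_self (D : Subgroup A) : sec D D = ⊥ := by
  rw [eq_bot_iff]
  intro w hw
  obtain ⟨x, hx, hx', rfl⟩ := mem_sec.1 hw
  rw [Subgroup.mem_bot, qm_eq_one_iff]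
  exact hx

/-- a block of defect zero of `C(D)/D` is the image of a central element of `kC(D)` -/
theorem lift_dz [Fact p.Prime] [Fintype A] {D : Subgroup A} (hDC : D ≤ CD D)
    (hD : IsPGroup p D) {g : MonoidAlgebra k (NQ D)} (hg : IsDZ p (sec (CD D) D) g) :
    ∃ α ∈ fixAlg k (CD D) (CD D), proj D α = g := by
  classical
  obtain ⟨α, hα⟩ := exists_of_fun (A := A) (fun x => if h : x ∈ Subgroup.normalizer (D : Set A)
    then (if x ∈ {x | x ∈ CD D ∧ ¬ p ∣ orderOf x} then g.coeff (qm D x h) else 0) else 0)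
  have hCN : CD D ≤ Subgroup.normalizer (D : Set A) := Subgroup.centralizer_le_normalizer _
  refine ⟨α, ?_, ?_⟩
  · rw [mem_fixAlg]
    constructor
    · intro x hx
      rw [hα] at hx
      by_contra hH
      apply hx
      split_ifs with h1 h2
      · exact absurd h2.1 hH
      · rfl
      · rfl
    · intro c hc x
      have hcN := hCN hc
      rw [hα, hα]
      by_cases hx : x ∈ CD D
      · have hx' : c * x * c⁻¹ ∈ CD D :=
          (CD D).mul_mem ((CD D).mul_mem hc hx) ((CD D).inv_mem hc)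
        rw [dif_pos (hCN hx), dif_pos (hCN hx')]
        have ho : orderOf (c * x * c⁻¹) = orderOf x := by
          have : c * x * c⁻¹ = MulAut.conj c x := rfl
          rw [this]
          exact orderOf_injective (MulAut.conj c).toMonoidHom (MulAut.conj c).injective x
        by_cases hp : p ∣ orderOf x
        · rw [if_neg (fun h => h.2 (by rw [ho]; exact hp)), if_neg (fun h => h.2 hp)]
        · rw [if_pos ⟨hx', by rw [ho]; exact hp⟩, if_pos ⟨hx, hp⟩]
          exact hg.blk.invBy (qm D c hcN) (qm_mem_sec hcN hc) (qm D x (hCN hx))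
      · have hx' : ¬ c * x * c⁻¹ ∈ CD D := by
          intro h
          apply hx
          have h2 := (CD D).mul_mem ((CD D).mul_mem ((CD D).inv_mem hc) h) hc
          have h3 : c⁻¹ * (c * x * c⁻¹) * c = x := by group
          rw [h3] at h2
          exact h2
        have e1 : ∀ y, ¬ y ∈ CD D → (if h : y ∈ Subgroup.normalizer (D : Set A)
            then (if y ∈ {x | x ∈ CD D ∧ ¬ p ∣ orderOf x} then g.coeff (qm D y h) else 0)
            else 0) = 0 := by
          intro y hy
          split_ifs with h1 h2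
          · exact absurd h2.1 hy
          · rfl
          · rfl
        rw [e1 _ hx, e1 _ hx']
  · apply proj_mk (T := {x | x ∈ CD D ∧ ¬ p ∣ orderOf x})
    · intro x hx
      rw [hα, dif_pos hx]
      split_ifs <;> rfl
    · intro n hn h0
      have hnC : n ∈ CD D := by
        have := hg.blk.suppIn _ h0
        rwa [qm_mem_sec_iff hDC] at this
      have hpn : ¬ p ∣ orderOf (qm D n hn) := by
        intro h1
        apply hg.ndvd h0
        refine h1.trans (Subgroup.orderOf_dvd_natCard _ ?_)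
        rw [Subgroup.mem_inf, Subgroup.mem_centralizer_singleton_iff]
        exact ⟨hg.blk.suppIn _ h0, rfl⟩
      obtain ⟨x, hxC, hxp, hxD⟩ := preg_exists hD hnC hn hpn
      refine ⟨x, ⟨⟨hxC, hxp⟩, hxD⟩, ?_⟩
      rintro y ⟨⟨hyC, hyp⟩, hyD⟩
      symm
      apply preg_unique hD hxC ?_ hxp hyp
      have h2 := D.mul_mem (D.inv_mem hxD) hyD
      have e1 : (n⁻¹ * x)⁻¹ * (n⁻¹ * y) = x⁻¹ * y := by group
      rwa [e1] at h2

end JdAux

open JdAux

section
variable [Fact p.Prime] [CharP k p] [IsAlgClosed k] [Fintype A]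
variable {b f i : MonoidAlgebra k A} {D : Subgroup A}

theorem F_dz (h : Root p b D f) : IsDZ p (sec (CD D) D) (proj D f) := by
  classical
  have hp := h.dfg.isPGroup
  have hDC := D_le_CD h.com
  have hf := mem_fixAlg.1 h.fblk.mem
  have hfD : InvBy D f := hf.2.mono hDC
  have hCN : CD D ≤ Subgroup.normalizer (D : Set A) := Subgroup.centralizer_le_normalizer _
  set F := proj D f with hF
  have hFm : F ∈ fixAlg k (sec (CD D) D) (sec (CD D) D) :=
    mem_fixAlg.2 ⟨proj_suppIn hf.1 D, proj_invBy' hf.2⟩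
  have hFF : F * F = F := by rw [hF, ← proj_mul hp hfD hfD, h.fblk.idem]
  have hbr : HasBr D f := by
    obtain ⟨x, hx⟩ : ∃ x, f.coeff x ≠ 0 := by
      by_contra hcon
      push Not at hcon
      apply h.fblk.ne_zero
      ext x
      rw [hcon x]
      rfl
    exact ⟨x, hf.1 x hx, hx⟩
  have hF0 : F ≠ 0 := Bw.NilBAux.proj_ne_zero hp hfD h.fblk.idem hbr
  obtain ⟨g, hg, hFg⟩ : ∃ g, IsBlock (sec (CD D) D) g ∧ F * g = g := by
    have : Fintype (NQ D) := Fintype.ofFinite _
    let Bl : Finset (MonoidAlgebra k (NQ D)) :=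
      ((finite_isBlock (k := k) (sec (CD D) D)).toFinset).filter (fun f => f * F ≠ 0)
    have hBl : ∀ b, b ∈ Bl ↔ IsBlock (sec (CD D) D) b ∧ b * F ≠ 0 := by
      intro b
      rw [Finset.mem_filter, Set.Finite.mem_toFinset]
      rfl
    have hsum := WSumAux.sum_blocks (p := p) hFm hFF Bl hBl
    have h1 : Bl.Nonempty := by
      rw [Finset.nonempty_iff_ne_empty]
      intro h2
      rw [h2, Finset.sum_empty] at hsum
      exact hF0 hsum.symm
    obtain ⟨g, hg⟩ := h1
    obtain ⟨h2, h3⟩ := (hBl g).1 hg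
    refine ⟨g, h2, ?_⟩
    rcases h2.mul_eq hFm hFF with h4 | h4
    · exact absurd (by rw [commute_of h2.suppIn (mem_fixAlg.1 hFm).2, h4]) h3
    · exact h4
  have hgF : g * F = g := by rw [commute_of hg.suppIn (mem_fixAlg.1 hFm).2, hFg]
  have hgdz : IsDZ p (sec (CD D) D) g := by
    refine ⟨hg, fun P' hP' hpP' hbr' => ?_⟩
    obtain ⟨P, h1, h2, h3, h4, h5⟩ := Cb.hasBr_infl' hDC hCN hp hf.1 hf.2 h.fblk.idem hg
      (by rw [← hF, hgF]; exact hg.ne_zero) hP' hpP' hbr'
    rw [← h5, max_f h h1 h2 h3 h4, sec_self]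
  obtain ⟨α, hαm, hαg⟩ := lift_dz hDC hp hgdz
  obtain ⟨c, hc⟩ := cen_scalar h.fblk hαm
  have hαD : InvBy D α := (mem_fixAlg.1 hαm).2.mono hDC
  have hnD : InvBy D (α * f - c • f) := by
    have h1 : α * f - c • f ∈ fixAlg k (CD D) (CD D) :=
      Subalgebra.sub_mem _ (Subalgebra.mul_mem _ hαm h.fblk.mem)
        (Subalgebra.smul_mem _ h.fblk.mem c)
    exact (mem_fixAlg.1 h1).2.mono hDC
  have h1 := proj_nilp hp hnD hc
  rw [proj_sub', proj_mul hp hαD hfD, proj_smul, hαg, ← hF, hgF] at h1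
  have h2 : g * (g - c • F) = (1 - c) • g := by
    rw [mul_sub, hg.idem, mul_smul_comm, hgF, sub_smul, one_smul]
  have h2' : (g - c • F) * g = (1 - c) • g := by
    rw [sub_mul, hg.idem, smul_mul_assoc, hFg, sub_smul, one_smul]
  have h3 : Commute (g - c • F) g := by
    change (g - c • F) * g = g * (g - c • F)
    rw [h2, h2']
  have h4 : IsNilpotent ((g - c • F) * g) := h3.isNilpotent_mul_right h1
  rw [h2'] at h4
  have hc1 : c = 1 := by
    by_contra hne
    have h5 : (1 - c) ≠ 0 := fun h => hne (sub_eq_zero.1 h).symm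
    have h6 := h4.smul (1 - c)⁻¹
    rw [smul_smul, inv_mul_cancel₀ h5, one_smul] at h6
    exact hg.ne_zero (idem_nilp hg.idem h6)
  rw [hc1, one_smul] at h1
  have h5 : F - g = 0 := by
    apply idem_nilp
    · rw [mul_sub, sub_mul, sub_mul, hFF, hFg, hgF, hg.idem, sub_self, sub_zero]
    · have h6 := h1.neg
      rwa [neg_sub] at h6
  rw [sub_eq_zero.1 h5]
  exact hgdz

theorem J_prim (h : Src p b D f i) : PrimIn (fixAlg k (sec (CD D) D) ⊥) (proj D i) := by
  have hp := h.root.dfg.isPGroup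
  have hDC := D_le_CD h.root.com
  have hi : InvBy D i := (mem_fixAlg.1 h.prim.mem).2
  have hs := h.prim.br le_rfl hp h.root.com h.br
  set s := resS (CD D : Set A) i with hsdef
  have hps : proj D s = proj D i := Bw.NilBAux.proj_res hp hi
  have hsm := mem_fixAlg.1 hs.mem
  have hbr : HasBr D i := by
    obtain ⟨x, hx⟩ : ∃ x, s.coeff x ≠ 0 := by
      by_contra hcon
      push Not at hcon
      apply hs.ne
      ext x
      rw [hcon x]
      rfl
    have hxC := hsm.1 x hx
    refine ⟨x, hxC, ?_⟩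
    rw [hsdef, coeff_resS_of_mem _ hxC] at hx
    exact hx
  refine ⟨?_, ?_, ?_, ?_⟩
  · rw [mem_fixAlg, ← hps]
    exact ⟨proj_suppIn hsm.1 D, Dz.invBy_bot' _⟩
  · rw [← hps, ← proj_mul hp hsm.2 hsm.2, hs.idem]
  · exact Bw.NilBAux.proj_ne_zero hp hi h.prim.idem hbr
  · intro j hj hjj h1 h2
    rw [← hps] at h1 h2 ⊢
    obtain ⟨α, hα, hαj⟩ := exists_lift hDC (mem_fixAlg.1 hj).1
    have hαD := inv_of_supp hα
    have hαm : α ∈ fixAlg k (CD D) D := mem_fixAlg.2 ⟨hα, hαD⟩
    have hm1 := Subalgebra.mul_mem _ hs.mem hαm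
    have hm2 := Subalgebra.mul_mem _ hm1 hs.mem
    have hpj : proj D (s * α * s) = j := by
      rw [proj_mul hp (mem_fixAlg.1 hm1).2 hsm.2, proj_mul hp hsm.2 hαD, hαj, h1, h2]
    rcases hs.fit hm2 (by rw [← mul_assoc, ← mul_assoc, hs.idem])
        (by rw [mul_assoc, hs.idem]) with h3 | ⟨c, hc, -, -, h4, -⟩
    · left
      have h5 := proj_nilp hp (mem_fixAlg.1 hm2).2 h3
      rw [hpj] at h5
      exact idem_nilp hjj h5
    · right
      have h6 : j * proj D c = proj D s := by
        rw [← hpj, ← proj_mul hp (mem_fixAlg.1 hm2).2 (mem_fixAlg.1 hc).2, h4]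
      calc j = j * proj D s := h2.symm
        _ = j * (j * proj D c) := by rw [h6]
        _ = j * proj D c := by rw [← mul_assoc, hjj]
        _ = proj D s := h6

/-- the middle of a product with `proj D i` on both sides is a scalar -/
theorem rank_one (h : Src p b D f i) {a : MonoidAlgebra k A}
    (ha : ∀ x : A, a.coeff x ≠ 0 → x ∈ CD D) :
    ∃ c : k, proj D i * proj D a * proj D i = c • proj D i := by
  have hp := h.root.dfg.isPGroup
  have hf := mem_fixAlg.1 h.root.fblk.mem
  have hfD : InvBy D f := hf.2.mono (D_le_CD h.root.com)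
  have hi : InvBy D i := (mem_fixAlg.1 h.prim.mem).2
  have hJF : proj D f * proj D i = proj D i := by rw [← proj_mul hp hfD hi, h.fm]
  exact dz_rank (F_dz h.root) (J_prim h) hJF (proj_suppIn ha D)

theorem J_F (h : Src p b D f i) : proj D f * proj D i = proj D i := by
  have hf := mem_fixAlg.1 h.root.fblk.mem
  have hfD : InvBy D f := hf.2.mono (D_le_CD h.root.com)
  have hi : InvBy D i := (mem_fixAlg.1 h.prim.mem).2
  rw [← proj_mul h.root.dfg.isPGroup hfD hi, h.fm]

end

end Pool.Agent.Lib.P0c8ca5.Ex
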