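import Mathlib
import Pool.Agent.Lib.P0c8ca5Ex.Jd

/-!
# Tn: the order of the inertial quotient as a trace

PROOF of `tr_eN`. `F q = ∑_(v ∈ D) (i * q * i).coeff (q * v)`. `F (q d) = F q` and `F (d q) = F q` for `d ∈ D` (`d i = i d`; substitute in the sum). `sum_fixed` (P0c8ca5R.BrA, namespace Rk.BrAAux) with `Q = D`: the sum over `X` is the sum over `q ∈ X` with `q⁻¹ u q ∈ D` for all `u ∈ D`, that is `q ∈ N(D)`. For `q ∈ N(D)`: `i * q * i = (i * cj q i) * q`, `i * cj q i` is InvBy `D`, and `F q` is the coefficient of `proj D (i * cj q i) = J * cj q̄ J` at `1` (`coeff_proj`, `proj_mul`, `proj_cj`), `J = proj D i`. Now `q̄` runs through `NQ D`. If `cj q f ≠ f`, `J * cj q̄ J = J * F' * cj q̄ F' * cj q̄ J = 0` (`F' = proj D f`; `f * cj q f = 0`, different blocks of `C(D)`). The `q̄` with `cj q f = f` are the image of `St D f`; it is the union of `eN D f` cosets `y U`, `U = C(D)/D`; `∑_(x ∈ U) (J * cj (y x) J).coeff 1 = ((J * cj y (trK U J))).coeff 1 = t * J.coeff 1` with `trK U J = t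 • F'` (`dz_tr`, `cj y F' = F'`); the same for `y = 1` is `1` by `dz_sum`. So each coset contributes `1`.
PROOF of `ndvd_eN`. If `p ∣ eN D f = |St D f / C(D)|`, take `g ∈ St D f` whose image has order `p` (Cauchy; `C(D)` is normal in `St D f`); a power of `g` prime to `p`... replace `g` by its p-part: a p-element `g ∈ St D f`, `g ∉ C(D)`. `⟨g⟩` is a p-group acting on the p-group `D` by conjugation; if `D ≠ ⊥` it has a fixed point `u ≠ 1` (`IsPGroup.card_modEq_card_fixedPoints`), so `Free` gives `g ∈ C(D)`, contradiction. If `D = ⊥`, `CD D = ⊤` and `eN = 1`.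
-/

namespace Pool.Agent.Lib.P0c8ca5.Ex

open MonoidAlgebra Rk

variable {p : ℕ} {k : Type*} [Field k] {A : Type*} [Group A]

namespace TnAux

open Classical in
/-- a sum over a subgroup by cosets of a smaller one -/
theorem sum_cosets {G : Type*} [Group G] [Fintype G] {U S : Subgroup G} (hUS : U ≤ S) {g : G → k}
    (h : ∀ w ∈ S, ∑ x ∈ Finset.univ.filter (fun x => x ∈ U), g (w * x) = 1) :
    ∑ w ∈ Finset.univ.filter (fun w => w ∈ S), g w = (U.relIndex S : k) := by
  have hfin : Fintype (S ⧸ U.subgroupOf S) := Fintype.ofFinite _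
  have h1 : ∑ w ∈ Finset.univ.filter (fun w => w ∈ S), g w = ∑ w : S, g w :=
    Finset.sum_subtype (Finset.univ.filter (fun w => w ∈ S)) (fun w => by simp) g
  rw [h1, ← Finset.sum_fiberwise (Finset.univ : Finset S)
    (fun w => (w : S ⧸ U.subgroupOf S)) (fun w => g w)]
  have h2 : ∀ t : S ⧸ U.subgroupOf S,
      ∑ w ∈ Finset.univ.filter (fun w : S => (w : S ⧸ U.subgroupOf S) = t), g w = 1 := by
    intro t
    obtain ⟨s, rfl⟩ := QuotientGroup.mk_surjective t
    rw [← h s s.2]
    refine Finset.sum_bij (fun w _ => (s : G)⁻¹ * (w : G)) ?_ ?_ ?_ ?_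
    · intro w hw
      rw [Finset.mem_filter] at hw ⊢
      refine ⟨Finset.mem_univ _, ?_⟩
      have h3 := QuotientGroup.eq.1 hw.2.symm
      rw [Subgroup.mem_subgroupOf] at h3
      exact h3
    · intro w _ w' _ hww
      exact Subtype.ext (mul_left_cancel hww)
    · intro x hx
      have hxU := (Finset.mem_filter.1 hx).2
      refine ⟨⟨s * x, S.mul_mem s.2 (hUS hxU)⟩, ?_, ?_⟩
      · rw [Finset.mem_filter]
        refine ⟨Finset.mem_univ _, ?_⟩
        symm
        rw [QuotientGroup.eq, Subgroup.mem_subgroupOf]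
        change (s : G)⁻¹ * ((s : G) * x) ∈ U
        rwa [inv_mul_cancel_left]
      · change (s : G)⁻¹ * ((s : G) * x) = x
        rw [inv_mul_cancel_left]
    · intro w _
      rw [mul_inv_cancel_left]
  rw [Finset.sum_congr rfl (fun t _ => h2 t), Finset.sum_const, nsmul_eq_mul, mul_one,
    Finset.card_univ, Subgroup.relIndex, Subgroup.index, Nat.card_eq_fintype_card]

theorem step_right {D : Subgroup A} {i : MonoidAlgebra k A} (hi : InvBy D i) {d : A} (hd : d ∈ D)
    (q y : A) : (i * single (q * d) 1 * i).coeff y = (i * single q 1 * i).coeff (y * d⁻¹) := by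
  have h1 : single (q * d) (1 : k) = single q 1 * single d 1 := by
    rw [single_mul_single, mul_one]
  have h2 : single d (1 : k) * i = i * single d 1 := (invBy_iff_commute.1 hi d hd).eq
  have h3 : i * single (q * d) (1 : k) * i = i * single q 1 * i * single d 1 := by
    calc i * single (q * d) (1 : k) * i = i * single q 1 * (single d 1 * i) := by
          rw [h1]; simp only [mul_assoc]
      _ = i * single q 1 * i * single d 1 := by rw [h2]; simp only [mul_assoc]
  rw [h3, coeff_mul_single_apply, mul_one]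

theorem step_left {D : Subgroup A} {i : MonoidAlgebra k A} (hi : InvBy D i) {d : A} (hd : d ∈ D)
    (q y : A) : (i * single (d * q) 1 * i).coeff y = (i * single q 1 * i).coeff (d⁻¹ * y) := by
  have h1 : single (d * q) (1 : k) = single d 1 * single q 1 := by
    rw [single_mul_single, mul_one]
  have h2 : single d (1 : k) * i = i * single d 1 := (invBy_iff_commute.1 hi d hd).eq
  have h3 : i * single (d * q) (1 : k) * i = single d 1 * (i * single q 1 * i) := by
    calc i * single (d * q) (1 : k) * i = (i * single d 1) * single q 1 * i := by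
          rw [h1]; simp only [mul_assoc]
      _ = single d 1 * (i * single q 1 * i) := by rw [← h2]; simp only [mul_assoc]
  rw [h3, coeff_single_mul_apply, one_mul]

theorem step_norm (i : MonoidAlgebra k A) (q y : A) :
    (i * single q 1 * i).coeff y = (i * cj q i).coeff (y * q⁻¹) := by
  have h : single q⁻¹ (1 : k) * single q 1 = 1 := by
    rw [single_mul_single, inv_mul_cancel, one_mul]; rfl
  have h3 : i * single q (1 : k) * i = i * cj q i * single q 1 := by
    calc i * single q (1 : k) * i = i * (single q 1 * i * (single q⁻¹ 1 * single q 1)) := by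
          rw [h, mul_one]; simp only [mul_assoc]
      _ = i * cj q i * single q 1 := by rw [cj]; simp only [mul_assoc]
  rw [h3, coeff_mul_single_apply, mul_one]

theorem invBy_cj {D : Subgroup A} {i : MonoidAlgebra k A} (hi : InvBy D i) {q : A}
    (hq : q ∈ Subgroup.normalizer (D : Set A)) : InvBy D (cj q i) := by
  have h := invBy_cg hi q
  rwa [cg_of_mem_normalizer hq] at h

open Classical in
theorem F_eq [Fact p.Prime] [CharP k p] [Fintype A] {D : Subgroup A} {i : MonoidAlgebra k A}
    (hD : IsPGroup p D) (hi : InvBy D i) {q : A} (hq : q ∈ Subgroup.normalizer (D : Set A)) :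
    ∑ v ∈ Finset.univ.filter (fun v => v ∈ D), (i * single q 1 * i).coeff (q * v)
      = (proj D i * cj (qm D q hq) (proj D i)).coeff 1 := by
  rw [← Fr.proj_cj i hq, ← proj_mul hD hi (invBy_cj hi hq)]
  have h1 : (1 : NQ D) = qm D 1 (Subgroup.one_mem _) := rfl
  rw [h1, coeff_proj, Finset.sum_filter]
  refine Fintype.sum_equiv (MulAut.conj q).toEquiv _ _ (fun v => ?_)
  change (if v ∈ D then (i * single q 1 * i).coeff (q * v) else 0)
    = if 1⁻¹ * (q * v * q⁻¹) ∈ D then (i * cj q i).coeff (q * v * q⁻¹) else 0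
  have e1 : 1⁻¹ * (q * v * q⁻¹) = q * v * q⁻¹ := by group
  rw [e1, step_norm]
  have h2 := Subgroup.mem_normalizer_iff.1 hq v
  by_cases hv : v ∈ D
  · rw [if_pos hv, if_pos (h2.1 hv)]
  · rw [if_neg hv, if_neg (fun h => hv (h2.2 h))]

theorem mem_norm [Finite A] {D : Subgroup A} {q : A} (h : ∀ u ∈ D, q⁻¹ * u * q ∈ D) :
    q ∈ Subgroup.normalizer (D : Set A) := by
  have h1 : q⁻¹ ∈ Subgroup.normalizer (D : Set A) := by
    apply Subgroup.mem_normalizer_fintype
    intro n hn
    rw [inv_inv]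
    exact h n hn
  exact (Subgroup.inv_mem_iff _).1 h1

theorem pr_zero [Fintype A] {D : Subgroup A} : proj D (0 : MonoidAlgebra k A) = 0 := by
  have h := proj_smul (R := D) (0 : k) (0 : MonoidAlgebra k A)
  rwa [zero_smul, zero_smul] at h

theorem norm_mem {D : Subgroup A} {q : A} (h : q ∈ Subgroup.normalizer (D : Set A)) :
    ∀ u ∈ D, q⁻¹ * u * q ∈ D := by
  intro u hu
  have h1 := (Subgroup.mem_normalizer_iff.1 (Subgroup.inv_mem _ h) u).1 hu
  rwa [inv_inv] at h1

theorem sec_relIndex {D : Subgroup A} {H K : Subgroup A} (hH : D ≤ H) (hHK : H ≤ K)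
    (hK : K ≤ Subgroup.normalizer (D : Set A)) : (sec H D).relIndex (sec K D) = H.relIndex K := by
  rw [sec, sec, Subgroup.relIndex_map_map, QuotientGroup.ker_mk']
  have h1 : D.subgroupOf (Subgroup.normalizer (D : Set A)) ≤
      H.subgroupOf (Subgroup.normalizer (D : Set A)) := Subgroup.comap_mono hH
  have h2 : D.subgroupOf (Subgroup.normalizer (D : Set A)) ≤
      K.subgroupOf (Subgroup.normalizer (D : Set A)) := Subgroup.comap_mono (hH.trans hHK)
  rw [sup_eq_left.2 h1, sup_eq_left.2 h2, Subgroup.relIndex_subgroupOf hK]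

end TnAux

open TnAux

section
variable [Fact p.Prime] [CharP k p] [IsAlgClosed k] [Fintype A]
variable {b f i : MonoidAlgebra k A} {D : Subgroup A}

open Classical in
theorem tr_eN (h : Src p b D f i) {X : Finset A} (hX : Reps X ⊤ D) :
    ∑ q ∈ X, ∑ v ∈ Finset.univ.filter (fun v => v ∈ D),
      (i * single q 1 * i).coeff (q * v) = (eN D f : k) := by
  have hr := h.root
  have hD := hr.dfg.isPGroup
  have hcom := hr.com
  have hi : InvBy D i := (mem_fixAlg.1 h.prim.mem).2
  have hf : InvBy D f := hr.fblk.invBy.mono (D_le_CD hcom)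
  have hN : St D f ≤ Subgroup.normalizer (D : Set A) := fun x hx => hx.1
  have hfinN : Fintype (NQ D) := Fintype.ofFinite _
  set J := proj D i with hJ
  set F' := proj D f with hF'
  let G : NQ D → k := fun w => (J * cj w J).coeff 1
  have hFJ : F' * J = J := J_F h
  have hJF : J * F' = J := by
    rw [hJ, hF', ← proj_mul hD hi hf, h.mf]
  -- invariance of the summands
  have hR : ∀ q, ∀ d ∈ D, (∑ v ∈ Finset.univ.filter (fun v => v ∈ D),
      (i * single (q * d) 1 * i).coeff (q * d * v)) =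
      ∑ v ∈ Finset.univ.filter (fun v => v ∈ D), (i * single q 1 * i).coeff (q * v) := by
    intro q d hd
    refine Finset.sum_congr rfl (fun v hv => ?_)
    rw [step_right hi hd]
    congr 1
    rw [mul_assoc q d v, hcom d hd v (Finset.mem_filter.1 hv).2]
    group
  have hL : ∀ d ∈ D, ∀ q, (∑ v ∈ Finset.univ.filter (fun v => v ∈ D),
      (i * single (d * q) 1 * i).coeff (d * q * v)) =
      ∑ v ∈ Finset.univ.filter (fun v => v ∈ D), (i * single q 1 * i).coeff (q * v) := by
    intro d hd q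
    refine Finset.sum_congr rfl (fun v hv => ?_)
    rw [step_left hi hd]
    congr 1
    group
  refine (BrAAux.sum_fixed (p := p) (k := k) hX hD
    (fun q => ∑ v ∈ Finset.univ.filter (fun v => v ∈ D), (i * single q 1 * i).coeff (q * v))
    hR hL).trans ?_
  -- the sum over `NQ D`
  have h1 : ∑ q ∈ X.filter (fun q => ∀ u ∈ D, q⁻¹ * u * q ∈ D),
      ∑ v ∈ Finset.univ.filter (fun v => v ∈ D), (i * single q 1 * i).coeff (q * v)
        = ∑ w : NQ D, G w := by
    refine Finset.sum_bij
      (fun q hq => qm D q (mem_norm (Finset.mem_filter.1 hq).2)) ?_ ?_ ?_ ?_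
    · intro q _
      exact Finset.mem_univ _
    · intro q hq q' hq' hqq
      have h2 := qm_eq_iff.1 hqq
      obtain ⟨r, _, hr2⟩ := hX.uniq q' (Subgroup.mem_top _)
      rw [hr2 q ⟨(Finset.mem_filter.1 hq).1, h2⟩,
        hr2 q' ⟨(Finset.mem_filter.1 hq').1, by rw [inv_mul_cancel]; exact D.one_mem⟩]
    · intro w _
      obtain ⟨n, hn, rfl⟩ := qm_surj w
      obtain ⟨r, ⟨hr1, hr2⟩, _⟩ := hX.uniq n (Subgroup.mem_top _)
      have h3 : r ∈ Subgroup.normalizer (D : Set A) := by
        have h4 := Subgroup.mul_mem _ hn (Subgroup.inv_mem _ (Subgroup.le_normalizer hr2))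
        have e1 : n * (r⁻¹ * n)⁻¹ = r := by group
        rwa [e1] at h4
      exact ⟨r, Finset.mem_filter.2 ⟨hr1, norm_mem h3⟩, qm_eq_iff.2 hr2⟩
    · intro q hq
      exact F_eq hD hi _
  rw [h1]
  -- only the stabilizer counts
  have h2 : ∀ w : NQ D, w ∉ sec (St D f) D → G w = 0 := by
    intro w hw
    obtain ⟨n, hn, rfl⟩ := qm_surj w
    have h3 : cj n f ≠ f := by
      intro h4
      exact hw (qm_mem_sec hn (mem_St.2 ⟨hn, h4⟩))
    have hCn : n ∈ Subgroup.normalizer ((CD D : Subgroup A) : Set A) :=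
      mem_normalizer_centralizer hn
    have h4 : IsBlock (CD D) (cj n f) := by
      have h5 := isBlock_cg hr.fblk n
      rwa [cg_of_mem_normalizer hCn] at h5
    have h5 : f * cj n f = 0 := by
      rcases hr.fblk.eq_or_mul_eq_zero h4 with h6 | h6
      · exact absurd h6.symm h3
      · exact h6
    have h6 : F' * cj (qm D n hn) F' = 0 := by
      rw [hF', ← Fr.proj_cj f hn, ← proj_mul hD hf (invBy_cj hf hn), h5, pr_zero]
    have h7 : J * cj (qm D n hn) J = 0 := by
      calc J * cj (qm D n hn) J = (J * F') * cj (qm D n hn) (F' * J) := by rw [hJF, hFJ]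
        _ = J * (F' * cj (qm D n hn) F') * cj (qm D n hn) J := by
            rw [cj_mul]; simp only [mul_assoc]
        _ = 0 := by rw [h6, mul_zero, zero_mul]
    change (J * cj (qm D n hn) J).coeff 1 = 0
    rw [h7]
    rfl
  have h3 : ∑ w : NQ D, G w = ∑ w ∈ Finset.univ.filter (fun w => w ∈ sec (St D f) D), G w := by
    rw [Finset.sum_filter]
    refine Finset.sum_congr rfl (fun w _ => ?_)
    by_cases hw : w ∈ sec (St D f) D
    · rw [if_pos hw]
    · rw [if_neg hw, h2 w hw]
  rw [h3]
  obtain ⟨t, _, ht⟩ := dz_tr (F_dz hr) (J_prim h) hFJ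
  have hs := dz_sum (F_dz hr) (J_prim h) hFJ
  have hco : ∀ w ∈ sec (St D f) D,
      ∑ x ∈ Finset.univ.filter (fun x => x ∈ sec (CD D) D), G (w * x) = t * J.coeff 1 := by
    intro w hw
    obtain ⟨n, hn, hn', rfl⟩ := mem_sec.1 hw
    have h5 : cj (qm D n hn') F' = F' := by
      rw [hF', ← Fr.proj_cj f hn', (mem_St.1 hn).2]
    have h6 : ∑ x ∈ Finset.univ.filter (fun x => x ∈ sec (CD D) D), G (qm D n hn' * x)
        = (J * cj (qm D n hn') (trK (sec (CD D) D) J)).coeff 1 := by
      rw [trK, cj_sum, Finset.mul_sum, coeff_sum, Finsupp.finsetSum_apply]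
      refine Finset.sum_congr rfl (fun x _ => ?_)
      rw [cj_cj]
    rw [h6, ht, cj_smul, h5, mul_smul_comm, hJF]
    rfl
  have hc1 : t * J.coeff 1 = 1 := by
    rw [← hs, ← hco 1 (Subgroup.one_mem _)]
    refine Finset.sum_congr rfl (fun x _ => ?_)
    rw [one_mul]
  rw [sum_cosets (U := sec (CD D) D) (sec_mono (CD_le_St hr.fblk))
    (fun w hw => (hco w hw).trans hc1), sec_relIndex (D_le_CD hcom) (CD_le_St hr.fblk) hN]
  rfl

theorem ndvd_eN (h : Root p b D f) (hF : Free D f) : ¬ p ∣ eN D f := by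
  intro hdvd
  have hp := (Fact.out : p.Prime)
  have hD := h.dfg.isPGroup
  obtain ⟨P⟩ : Nonempty (Sylow p (St D f)) := inferInstance
  have h1 : ¬ (P : Subgroup (St D f)) ≤ (CD D).subgroupOf (St D f) := by
    intro h2
    exact P.not_dvd_index (hdvd.trans (Subgroup.index_dvd_of_le h2))
  obtain ⟨g, hgP, hgC⟩ := SetLike.not_le_iff_exists.1 h1
  rw [Subgroup.mem_subgroupOf] at hgC
  have hgS := g.2
  -- `g` is a `p`-element
  have hZ : IsPGroup p (Subgroup.zpowers (g : A)) := by
    obtain ⟨n, hn⟩ := P.2 ⟨g, hgP⟩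
    have hn' : (g : A) ^ p ^ n = 1 := by
      have h3 := congrArg (fun x : (P : Subgroup (St D f)) => ((x : St D f) : A)) hn
      exact h3
    intro x
    obtain ⟨m, hm⟩ := Subgroup.mem_zpowers_iff.1 x.2
    refine ⟨n, Subtype.ext ?_⟩
    change (x : A) ^ p ^ n = 1
    rw [← hm, ← zpow_natCast, ← zpow_mul, mul_comm, zpow_mul, zpow_natCast, hn', one_zpow]
  have hgN : Subgroup.zpowers (g : A) ≤ Subgroup.normalizer (D : Set A) := by
    rw [Subgroup.zpowers_le]
    exact hgS.1
  classical
  let F : A → k := fun x => if x ∈ D ∧ x ≠ 1 then 1 else 0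
  have hFinv : ∀ d ∈ Subgroup.zpowers (g : A), ∀ x, F (d * x * d⁻¹) = F x := by
    intro d hd x
    have h3 := Subgroup.mem_normalizer_iff.1 (hgN hd) x
    have h4 : d * x * d⁻¹ = 1 ↔ x = 1 := by
      rw [mul_inv_eq_one, mul_eq_left]
    change (if d * x * d⁻¹ ∈ D ∧ d * x * d⁻¹ ≠ 1 then (1 : k) else 0)
      = if x ∈ D ∧ x ≠ 1 then 1 else 0
    by_cases h5 : x ∈ D ∧ x ≠ 1
    · rw [if_pos h5, if_pos ⟨h3.1 h5.1, fun h6 => h5.2 (h4.1 h6)⟩]
    · rw [if_neg h5, if_neg (fun h6 => h5 ⟨h3.2 h6.1, fun h7 => h6.2 (h4.2 h7)⟩)]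
  have hsum := sum_conj_eq (p := p) hZ F hFinv
    (Finset.univ.filter (fun x => x ∈ Subgroup.centralizer
      ((Subgroup.zpowers (g : A) : Subgroup A) : Set A))) (fun x => by simp)
  have hRHS : ∑ x ∈ Finset.univ.filter (fun x => x ∈ Subgroup.centralizer
      ((Subgroup.zpowers (g : A) : Subgroup A) : Set A)), F x = 0 := by
    refine Finset.sum_eq_zero (fun x hx => if_neg ?_)
    rintro ⟨hxD, hx1⟩
    apply hgC
    refine hF g hgS x hxD hx1 ?_
    exact Subgroup.mem_centralizer_iff.1 (Finset.mem_filter.1 hx).2 g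
      (Subgroup.mem_zpowers (g : A))
  have hLHS : ∑ x, F x = (Nat.card D : k) - 1 := by
    have h3 : ∀ x, F x = (if x ∈ D then (1 : k) else 0) - if x = 1 then 1 else 0 := by
      intro x
      change (if x ∈ D ∧ x ≠ 1 then (1 : k) else 0) = _
      by_cases hx : x = 1
      · rw [if_neg (fun h4 => h4.2 hx), if_pos hx, hx, if_pos D.one_mem, sub_self]
      · by_cases hxD : x ∈ D
        · rw [if_pos ⟨hxD, hx⟩, if_pos hxD, if_neg hx, sub_zero]
        · rw [if_neg (fun h4 => hxD h4.1), if_neg hxD, if_neg hx, sub_zero]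
    rw [Finset.sum_congr rfl (fun x _ => h3 x), Finset.sum_sub_distrib, Finset.sum_boole,
      Finset.sum_ite_eq' , if_pos (Finset.mem_univ _), Nat.card_eq_fintype_card,
      Fintype.card_subtype]
  have hcard : (Nat.card D : k) = 0 := by
    rw [CharP.cast_eq_zero_iff k p]
    obtain ⟨n, hn⟩ := IsPGroup.iff_card.1 hD
    rcases Nat.eq_zero_or_pos n with h0 | h0
    · exfalso
      apply hgC
      rw [h0, pow_zero] at hn
      have hbot : D = ⊥ := Subgroup.card_eq_one.1 hn
      rw [Subgroup.mem_centralizer_iff]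
      intro x hx
      rw [hbot] at hx
      rw [Subgroup.mem_bot.1 hx, one_mul, mul_one]
    · rw [hn]
      exact dvd_pow_self p h0.ne'
  rw [hLHS, hRHS, hcard, zero_sub] at hsum
  exact one_ne_zero (neg_eq_zero.1 hsum)

end

end Pool.Agent.Lib.P0c8ca5.Ex
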