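import Mathlib
import Pool.Agent.Lib.P0c8ca5Ex.Jd

/-!
# Ut: the relative trace of `u i` is invertible in the block

PROOF. `z = ∑ q ∈ X, cj q (u i)` is central in `kA` (`invBy_sum_cj`: `u * i` is InvBy `D`, `D` abelian). `cen_scalar`: `z * b = c • b + n`, `n` nilpotent (and central). If `c ≠ 0`, `z * b` is invertible in the centre below `b`: `w = c⁻¹ • b - c⁻² • n + …` (geometric series). So `c ≠ 0` is the claim.
Apply `resS C(D)` and multiply by `f`: `resS C(D) z * f = c • f + n'`, `n'` nilpotent (`bf`; `resS` is multiplicative for elements InvBy `D`). `resS_sum_cj`: `resS C(D) z = ∑_(q ∈ X ∩ N(D)) cj q (u * resS C(D) i)`. `cj q (resS i) * f = cj q (resS i * cj q⁻¹ f)` and `resS i = resS i * f`: it is `0` if `cj q f ≠ f` (different blocks of `C(D)`) and `cj q (resS i)` if `q ∈ St D f`. Apply `proj D` (`u ↦ 1`, `proj D (single u 1 * x) = proj D x` for `u ∈ D`): `∑_(q ∈ X ∩ St D f) cj q̄ J = c • F + (nilpotent)`, `J = proj D i`, `F = proj D f`. `q̄` runs through `St D f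 / D`; `U = C(D)/D` is normal in it, `∑_(x ∈ U) cj x J = trK U J = t • F`, `t ≠ 0` (`dz_tr` with `F_dz`, `J_prim`, `J_F`), `cj y F = F` for `y` in the image of `St D f`. So the left side is `(|St D f / C(D)| * t) • F = (eN D f * t) • F`; `F ≠ 0` is idempotent, so `c = eN D f * t ≠ 0` in `k` (`hE`).
`src_tr`: `unit_tr` with `u = 1` and `i * b = i`: `∑ cj q i * w * b = b`, `cj q (i * (w * b)) = cj q i * w * b`.
-/

namespace Pool.Agent.Lib.P0c8ca5.Ex

open MonoidAlgebra Rk

variable {p : ℕ} {k : Type*} [Field k] {A : Type*} [Group A]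

section
variable [Fact p.Prime] [CharP k p] [IsAlgClosed k] [Fintype A]
variable {b f i : MonoidAlgebra k A} {D : Subgroup A}

namespace UtAux

omit [Fact p.Prime] [CharP k p] [IsAlgClosed k] in
/-- the projection of an element of `D` is 1 -/
theorem proj_single {D : Subgroup A} {u : A} (hu : u ∈ D) :
    proj D (single u (1 : k)) = 1 := by
  classical
  ext w
  obtain ⟨n, hn, rfl⟩ := qm_surj w
  rw [coeff_proj, coeff_one', Finset.sum_eq_single u]
  · by_cases h : n⁻¹ * u ∈ D
    · have h1 : n ∈ D := by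
        have h2 := D.mul_mem hu (D.inv_mem h)
        have e1 : u * (n⁻¹ * u)⁻¹ = n := by group
        rwa [e1] at h2
      rw [if_pos h, if_pos (qm_eq_one_iff.2 h1)]
      simp
    · have h1 : n ∉ D := fun h1 => h (D.mul_mem (D.inv_mem h1) hu)
      rw [if_neg h, if_neg (fun h2 => h1 (qm_eq_one_iff.1 h2))]
  · intro x _ hx
    split_ifs
    · simp [coeff_single, Ne.symm hx]
    · rfl
  · intro h
    exact absurd (Finset.mem_univ u) h

/-- the class of `q`, and 1 outside of the normalizer -/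
noncomputable def qt (D : Subgroup A) (q : A) : NQ D :=
  open Classical in
  if h : q ∈ Subgroup.normalizer (D : Set A) then qm D q h else 1

omit [Fintype A] in
theorem qt_of {D : Subgroup A} {q : A} (h : q ∈ Subgroup.normalizer (D : Set A)) :
    qt D q = qm D q h := dif_pos h

omit [Fact p.Prime] [CharP k p] [IsAlgClosed k] [Fintype A] in
/-- a sum over representatives of `N / D` by means of representatives of `N / C(D)` -/
theorem sum_reps {N D : Subgroup A} (hDC : D ≤ CD D) (hCN : CD D ≤ N)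
    (hN : N ≤ Subgroup.normalizer (D : Set A)) {X Y : Finset A} (hX : Reps X N D)
    (hY : Reps Y N (CD D)) [Fintype (NQ D)] (J : MonoidAlgebra k (NQ D)) :
    ∑ q ∈ X, cj (qt D q) J = ∑ y ∈ Y, cj (qt D y) (trK (sec (CD D) D) J) := by
  classical
  choose! ry hry using fun g hg => (hY.uniq g hg).exists
  choose! rx hrx using fun g hg => (hX.uniq g hg).exists
  have h0 : ∀ y ∈ Y, cj (qt D y) (trK (sec (CD D) D) J) =
      ∑ x ∈ Finset.univ.filter (fun x => x ∈ sec (CD D) D), cj (qt D y * x) J := by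
    intro y _
    rw [trK, cj_sum]
    refine Finset.sum_congr (by ext; simp) (fun x _ => ?_)
    rw [cj_cj]
  rw [Finset.sum_congr rfl h0, ← Finset.sum_product']
  have hrel : ∀ q ∈ N, (qt D (ry q))⁻¹ * qt D q ∈ sec (CD D) D := by
    intro q hq
    obtain ⟨h1, h2⟩ := hry q hq
    have hyN := hN (hY.mem _ h1)
    have hqN := hN hq
    have h3 : (ry q)⁻¹ * q ∈ Subgroup.normalizer (D : Set A) :=
      Subgroup.mul_mem _ (Subgroup.inv_mem _ hyN) hqN
    have e1 : (qt D (ry q))⁻¹ * qt D q = qm D ((ry q)⁻¹ * q) h3 := by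
      rw [qt_of hyN, qt_of hqN]
      rfl
    rw [e1]
    exact qm_mem_sec h3 h2
  refine Finset.sum_bij (fun q _ => (ry q, (qt D (ry q))⁻¹ * qt D q)) ?_ ?_ ?_ ?_
  · intro q hq
    have hqN := hX.mem q hq
    rw [Finset.mem_product, Finset.mem_filter]
    exact ⟨(hry q hqN).1, Finset.mem_univ _, hrel q hqN⟩
  · intro q hq q' hq' h
    have h1 : ry q = ry q' := congrArg Prod.fst h
    have h2 : (qt D (ry q))⁻¹ * qt D q = (qt D (ry q'))⁻¹ * qt D q' := congrArg Prod.snd h
    rw [h1] at h2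
    have h3 := mul_left_cancel h2
    rw [qt_of (hN (hX.mem q hq)), qt_of (hN (hX.mem q' hq')), qm_eq_iff] at h3
    exact TrAux.reps_eq' hX hq hq' h3
  · rintro ⟨y, x⟩ hyx
    rw [Finset.mem_product, Finset.mem_filter] at hyx
    obtain ⟨hy, -, hx⟩ := hyx
    obtain ⟨c, hc, hcN, rfl⟩ := mem_sec.1 hx
    have hy' := hY.mem y hy
    have hg : y * c ∈ N := N.mul_mem hy' (hCN hc)
    obtain ⟨h1, h2⟩ := hrx (y * c) hg
    have h3 := hX.mem _ h1
    have h4 : y⁻¹ * rx (y * c) ∈ CD D := by
      have h5 := (CD D).mul_mem hc ((CD D).inv_mem (hDC h2))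
      have e1 : c * ((rx (y * c))⁻¹ * (y * c))⁻¹ = y⁻¹ * rx (y * c) := by group
      rwa [e1] at h5
    have h6 : ry (rx (y * c)) = y := by
      obtain ⟨h7, h8⟩ := hry _ h3
      exact TrAux.reps_eq hY h3 h7 hy h8 h4
    refine ⟨rx (y * c), h1, ?_⟩
    have h9 : qt D (rx (y * c)) = qt D y * qm D c hcN := by
      have e1 : qt D y * qm D c hcN = qm D (y * c) (hN hg) := by
        rw [qt_of (hN hy')]
        rfl
      rw [e1, qt_of (hN h3), qm_eq_iff]
      exact h2
    change (ry (rx (y * c)), (qt D (ry (rx (y * c))))⁻¹ * qt D (rx (y * c))) = (y, qm D c hcN)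
    rw [h6, h9, inv_mul_cancel_left]
  · intro q hq
    change cj (qt D q) J = cj (qt D (ry q) * ((qt D (ry q))⁻¹ * qt D q)) J
    rw [mul_inv_cancel_left]

omit [Fact p.Prime] [CharP k p] [IsAlgClosed k] [Fintype A] in
theorem invBy_ui (h : Src p b D f i) {u : A} (hu : u ∈ D) : InvBy D (single u (1 : k) * i) := by
  have h1 := (mem_fixAlg.1 h.prim.mem).2
  rw [invBy_iff_commute] at h1 ⊢
  intro g hg
  refine Commute.mul_right ?_ (h1 g hg)
  change single g (1 : k) * single u (1 : k) = single u (1 : k) * single g (1 : k)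
  rw [single_mul_single, single_mul_single, h.root.com g hg u hu]

omit [IsAlgClosed k] in
theorem proj_ui (h : Src p b D f i) {u : A} (hu : u ∈ D) :
    proj D (single u (1 : k) * i) = proj D i := by
  have h1 := (mem_fixAlg.1 h.prim.mem).2
  have h2 : InvBy D (single u (1 : k)) := by
    rw [invBy_iff_commute]
    intro g hg
    change single g (1 : k) * single u (1 : k) = single u (1 : k) * single g (1 : k)
    rw [single_mul_single, single_mul_single, h.root.com g hg u hu]
  rw [proj_mul h.root.dfg.isPGroup h2 h1, proj_single hu, one_mul]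

omit [IsAlgClosed k] in
theorem J_mul_F (h : Src p b D f i) : proj D i * proj D f = proj D i := by
  have h1 := (mem_fixAlg.1 h.prim.mem).2
  have h2 : InvBy D f := h.root.fblk.invBy.mono (D_le_CD h.root.com)
  rw [← proj_mul h.root.dfg.isPGroup h1 h2, h.mf]

omit [IsAlgClosed k] in
theorem b_mul_F (h : Root p b D f) : proj D b * proj D f = proj D f := by
  have h1 : InvBy D b := h.blk.invBy.mono le_top
  have h2 : InvBy D f := h.fblk.invBy.mono (D_le_CD h.com)
  have h3 : InvBy D (resS (CD D : Set A) b) := invBy_of_supp resS_suppIn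
  rw [← Ps.WgtAux.proj_resS h.dfg.isPGroup h1 le_rfl, ← proj_mul h.dfg.isPGroup h3 h2, h.bf]

omit [Fact p.Prime] [CharP k p] [IsAlgClosed k] [Fintype A] in
theorem isBlock_cj (h : Root p b D f) {q : A} (hq : q ∈ Subgroup.normalizer (D : Set A)) :
    IsBlock (CD D) (cj q f) := by
  have h1 := isBlock_cg h.fblk q
  have h2 : cg q (CD D) = CD D := cg_eq_self_iff.2 (BrBAux.mem_norm_cent hq)
  rwa [h2] at h1

theorem main_sum (h : Src p b D f i) {u : A} (hu : u ∈ D) {X : Finset A} (hX : Reps X ⊤ D) :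
    ∃ t : k, t ≠ 0 ∧ proj D (∑ q ∈ X, cj q (single u (1 : k) * i)) * proj D f =
      (((eN D f : ℕ) : k) * t) • proj D f := by
  classical
  have : Fintype (NQ D) := Fintype.ofFinite _
  have hDp := h.root.dfg.isPGroup
  have hui := invBy_ui h hu
  have hDC := D_le_CD h.root.com
  have hCS : CD D ≤ St D f := CD_le_St h.root.fblk
  have hSN : St D f ≤ Subgroup.normalizer (D : Set A) := fun g hg => hg.1
  have hfD : InvBy D f := h.root.fblk.invBy.mono hDC
  have hz : InvBy ⊤ (∑ q ∈ X, cj q (single u (1 : k) * i)) := BrBAux.invBy_sum_cj hX hui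
  have hJF := J_mul_F h
  have h1 : ∀ q ∈ X.filter (fun q => q ∈ Subgroup.normalizer (D : Set A)),
      proj D (cj q (resS (CD D : Set A) (single u (1 : k) * i))) * proj D f =
        if q ∈ St D f then cj (qt D q) (proj D i) else 0 := by
    intro q hq
    have hqN := (Finset.mem_filter.1 hq).2
    rw [Fr.proj_cj _ hqN, Ps.WgtAux.proj_resS hDp hui le_rfl, proj_ui h hu, qt_of hqN]
    by_cases hqS : q ∈ St D f
    · have h2 : cj (qm D q hqN) (proj D f) = proj D f := by
        rw [← Fr.proj_cj, (mem_St.1 hqS).2]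
      rw [if_pos hqS]
      calc cj (qm D q hqN) (proj D i) * proj D f
          = cj (qm D q hqN) (proj D i) * cj (qm D q hqN) (proj D f) := by rw [h2]
        _ = cj (qm D q hqN) (proj D i) := by rw [← cj_mul, hJF]
    · have hb := isBlock_cj h.root hqN
      have h2 : cj q f * f = 0 := by
        rcases hb.eq_or_mul_eq_zero h.root.fblk with h3 | h3
        · exact absurd (mem_St.2 ⟨hqN, h3⟩) hqS
        · exact h3
      rw [if_neg hqS]
      calc cj (qm D q hqN) (proj D i) * proj D f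
          = cj (qm D q hqN) (proj D i * proj D f) * proj D f := by rw [hJF]
        _ = cj (qm D q hqN) (proj D i) * (proj D (cj q f) * proj D f) := by
            rw [cj_mul, Fr.proj_cj _ hqN, mul_assoc]
        _ = cj (qm D q hqN) (proj D i) * proj D (cj q f * f) := by
            rw [proj_mul hDp (hb.invBy.mono hDC) hfD]
        _ = 0 := by rw [h2, WSumAux.proj_zero', mul_zero]
  obtain ⟨Y, hY⟩ := exists_reps (K := St D f) (D := CD D) hCS
  obtain ⟨t, ht, htr⟩ := dz_tr (F_dz h.root) (J_prim h) (J_F h)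
  refine ⟨t, ht, ?_⟩
  have hXS : Reps (X.filter (fun q => q ∈ St D f)) (St D f) D := hX.filter (hDC.trans hCS)
  have hfil : (X.filter (fun q => q ∈ Subgroup.normalizer (D : Set A))).filter
      (fun q => q ∈ St D f) = X.filter (fun q => q ∈ St D f) := by
    ext q
    rw [Finset.mem_filter, Finset.mem_filter, Finset.mem_filter]
    exact ⟨fun hq => ⟨hq.1.1, hq.2⟩, fun hq => ⟨⟨hq.1, hSN hq.2⟩, hq.2⟩⟩
  rw [← Ps.WgtAux.proj_resS hDp (hz.mono le_top) le_rfl, BrBAux.resS_sum_cj hX hDp hui,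
    WSumAux.proj_sum', Finset.sum_mul, Finset.sum_congr rfl h1, ← Finset.sum_filter, hfil,
    sum_reps hDC hCS hSN hXS hY (proj D i), htr]
  have h5 : ∀ y ∈ Y, cj (qt D y) (t • proj D f) = t • proj D f := by
    intro y hy
    have hyS := hY.mem y hy
    rw [cj_smul, qt_of (hSN hyS), ← Fr.proj_cj, (mem_St.1 hyS).2]
  rw [Finset.sum_congr rfl h5, Finset.sum_const, Cb.ExtAux.card_reps hY,
    ← Nat.cast_smul_eq_nsmul k, smul_smul]
  rfl

end UtAux

open UtAux

theorem unit_tr (h : Src p b D f i) (hE : ¬ p ∣ eN D f) {u : A} (hu : u ∈ D) {X : Finset A}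
    (hX : Reps X ⊤ D) : ∃ w ∈ fixAlg k (⊤ : Subgroup A) ⊤,
      (∑ q ∈ X, cj q (single u (1 : k) * i)) * w * b = b := by
  classical
  have hDp := h.root.dfg.isPGroup
  have hui := invBy_ui h hu
  set z : MonoidAlgebra k A := ∑ q ∈ X, cj q (single u (1 : k) * i) with hz
  have hzinv : InvBy ⊤ z := BrBAux.invBy_sum_cj hX hui
  have hzmem : z ∈ fixAlg k (⊤ : Subgroup A) ⊤ :=
    mem_fixAlg.2 ⟨fun _ _ => Subgroup.mem_top _, hzinv⟩
  have hzD : InvBy D z := hzinv.mono le_top
  have hbD : InvBy D b := h.root.blk.invBy.mono le_top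
  have hzbD : InvBy D (z * b) := by
    rw [invBy_iff_commute] at hzD hbD ⊢
    exact fun g hg => (hzD g hg).mul_right (hbD g hg)
  have hA : IsArtinianRing (fixAlg k (⊤ : Subgroup A) ⊤) := IsArtinianRing.of_finite k _
  rcases h.root.blk.primIdem.nilp_or_unit ⟨z, hzmem⟩ with ⟨n, hn⟩ | ⟨w, hw⟩
  · exfalso
    have h1 : (z * b) ^ n = 0 := congrArg Subtype.val hn
    obtain ⟨t, ht, hts⟩ := main_sum h hu hX
    rw [← hz] at hts
    have hc : ((eN D f : ℕ) : k) * t ≠ 0 := by
      refine mul_ne_zero ?_ ht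
      intro h0
      exact hE ((CharP.cast_eq_zero_iff k p _).1 h0)
    have h2 : ∀ m : ℕ, InvBy D ((z * b) ^ m) ∧
        proj D ((z * b) ^ m) * proj D f = (((eN D f : ℕ) : k) * t) ^ m • proj D f := by
      intro m
      induction m with
      | zero =>
        refine ⟨?_, ?_⟩
        · rw [pow_zero, invBy_iff_commute]
          intro g _
          exact Commute.one_right _
        · rw [pow_zero, pow_zero, proj_one, one_mul, one_smul]
      | succ m ih =>
        refine ⟨?_, ?_⟩
        · have h3 := hzbD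
          rw [invBy_iff_commute] at h3 ⊢
          exact fun g hg => (h3 g hg).pow_right _
        · rw [pow_succ, proj_mul hDp ih.1 hzbD, proj_mul hDp hzD hbD, mul_assoc, mul_assoc,
            b_mul_F h.root, hts, mul_smul_comm, ih.2, smul_smul, ← pow_succ']
    have h3 := (h2 n).2
    rw [h1, WSumAux.proj_zero', zero_mul] at h3
    rcases smul_eq_zero.1 h3.symm with h4 | h4
    · exact pow_ne_zero n hc h4
    · exact (F_dz h.root).blk.ne_zero h4
  · exact ⟨w.1, w.2, congrArg Subtype.val hw⟩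

theorem src_tr (h : Src p b D f i) (hE : ¬ p ∣ eN D f) {X : Finset A} (hX : Reps X ⊤ D) :
    ∃ w ∈ fixAlg k (⊤ : Subgroup A) ⊤, ∑ q ∈ X, cj q (i * w) = b := by
  obtain ⟨w, hw, hws⟩ := unit_tr h hE D.one_mem hX
  refine ⟨w * b, Subalgebra.mul_mem _ hw h.root.blk.mem, ?_⟩
  have h1 : InvBy ⊤ (w * b) := (mem_fixAlg.1 (Subalgebra.mul_mem _ hw h.root.blk.mem)).2
  have h2 : (single (1 : A) (1 : k) : MonoidAlgebra k A) = 1 := rfl
  rw [h2, one_mul] at hws
  have h3 : ∀ q ∈ X, cj q (i * (w * b)) = cj q i * (w * b) := by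
    intro q _
    rw [cj_mul, invBy_iff_cj.1 h1 q (Subgroup.mem_top q)]
  rw [Finset.sum_congr rfl h3, ← Finset.sum_mul, ← mul_assoc, hws]

end

end Pool.Agent.Lib.P0c8ca5.Ex
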