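import Mathlib
import Pool.Agent.Lib.P0c8ca5Ex.NO
import Pool.Agent.Lib.P0c8ca5Ex.NQ
import Pool.Agent.Lib.P0c8ca5Ex.NG
import Pool.Agent.Lib.P0c8ca5Ex.NH
import Pool.Agent.Lib.P0c8ca5Ex.Ut
import Pool.Agent.Lib.P0c8ca5Ex.Tn

/-!
# NP: the data of the theorem on nilpotent blocks, block side
-/

set_option linter.unusedSectionVars false

namespace Pool.Agent.Lib.P0c8ca5.Ex

open MonoidAlgebra Rk

variable {p : ℕ} [Fact p.Prime] {k : Type*} [Field k] [IsAlgClosed k] [CharP k p]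
  {A : Type*} [Group A] [Finite A] {b f i : MonoidAlgebra k A} {D : Subgroup A}

/-- local data for all elements of `D` outside `S`, depending only on the centralizers -/
theorem exists_fam (h : Src p b D f i) (S : Set A)
    (hnil : ∀ u ∈ D, u ∉ S → ∀ c, LbH (C1 u) i c → ∀ BH : MonoidAlgebra (OW p k) ↥(C1 u),
      CenL (dnr (C1 u) c) BH → NilC (D.subgroupOf (C1 u)) BH) :
    ∃ (BB : ∀ H : Subgroup A, MonoidAlgebra (OW p k) ↥H) (nn : Subgroup A → ℕ),
      ∀ u ∈ D, u ∉ S → ∃ c IH, LbH (C1 u) i c ∧ LD D i c (C1 u) (BB (C1 u)) IH (nn (C1 u)) := by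
  have key : ∀ H : Subgroup A, ∃ (BH : MonoidAlgebra (OW p k) ↥H) (n : ℕ),
      (∃ u ∈ D, u ∉ S ∧ C1 u = H) → ∃ c IH, LbH H i c ∧ LD D i c H BH IH n := by
    intro H
    by_cases hH : ∃ u ∈ D, u ∉ S ∧ C1 u = H
    · obtain ⟨u, hu, huS, rfl⟩ := hH
      obtain ⟨c, hc⟩ := exists_lbH h hu
      obtain ⟨BH, hB⟩ := exists_locB h hu hc
      obtain ⟨IH, hI⟩ := exists_locI h hu
      have hn := hnil u hu huS c hc BH hB
      have hIB : IH * BH = IH := hB.mul_eq hI (src_loc h hu hc).ib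
      obtain ⟨n, hn'⟩ := hn.const IH hI.idem hIB
      exact ⟨BH, n, fun _ => ⟨c, IH, hc, hB, hI, hIB, hn, hn'⟩⟩
    · exact ⟨0, 0, fun h0 => absurd h0 hH⟩
  choose BB nn hBB using key
  exact ⟨BB, nn, fun u hu huS => hBB (C1 u) ⟨u, hu, huS, rfl⟩⟩

section T
variable {T : Type*} [CommGroup T] [Fintype T]

/-- the elements of `T` central in `A` -/
def zT (φ : T →* A) : Subgroup T := (Subgroup.center A).comap φ

/-- the central characters on `zT` -/
noncomputable def cT (φ : T →* A) (χ : Ir (KW p k) A) : ↥(zT φ) →* (KW p k)ˣ :=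
  (cz χ).comp ((φ.comp (zT φ).subtype).codRestrict (Subgroup.center A) (fun z => z.2))

theorem cT_apply (φ : T →* A) (χ : Ir (KW p k) A) (z : ↥(zT φ)) :
    ((cT φ χ z : (KW p k)ˣ) : KW p k) = om χ (single (φ (z : T)) 1) := rfl

/-- the rows -/
noncomputable def th (φ : T →* A) (I : MonoidAlgebra (OW p k) A) (χ : Ir (KW p k) A) (t : T) :
    KW p k := chO χ (single (φ t) 1 * I)

theorem th_inv (φ : T →* A) (I : MonoidAlgebra (OW p k) A) (χ : Ir (KW p k) A) (t : T) :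
    th φ I χ t⁻¹ = chO χ (I * single (φ t)⁻¹ 1) := by
  rw [th, chO_mul_comm, map_inv]

theorem th_cen (φ : T →* A) (I : MonoidAlgebra (OW p k) A) (χ : Ir (KW p k) A) (z : ↥(zT φ))
    (t : T) : th φ I χ ((z : T) * t) = ((cT φ χ z : (KW p k)ˣ) : KW p k) * th φ I χ t := by
  rw [th, th, cT_apply, ← chO_cen_mul χ z.2, ← mul_assoc, single_mul_single, one_mul, map_mul φ]

theorem same_C1 (φ : T →* A) {s t : T} (h : SameZ (zT φ) s t) : C1 (φ s) = C1 (φ t) := by
  have key : ∀ s t : T, SameZ (zT φ) s t → C1 (φ t) ≤ C1 (φ s) := by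
    intro s t h x hx
    rw [mem_C1'] at hx ⊢
    have h1 : (QuotientGroup.mk s : T ⧸ zT φ) ∈ Subgroup.zpowers (QuotientGroup.mk t : T ⧸ zT φ) := by
      rw [← h]
      exact Subgroup.mem_zpowers _
    obtain ⟨m, hm⟩ := Subgroup.mem_zpowers_iff.1 h1
    have h2 : (QuotientGroup.mk (t ^ m) : T ⧸ zT φ) = QuotientGroup.mk s := by
      rw [← hm]; rfl
    rw [QuotientGroup.eq] at h2
    have h3 : φ ((t ^ m)⁻¹ * s) ∈ Subgroup.center A := h2
    have h4 : φ s = φ t ^ m * φ ((t ^ m)⁻¹ * s) := by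
      rw [← map_zpow, ← map_mul, mul_inv_cancel_left]
    have h5 : Commute (φ t) x := hx
    have h6 : Commute (φ ((t ^ m)⁻¹ * s)) x := (Subgroup.mem_center_iff.1 h3 x).symm
    rw [h4]
    exact (h5.zpow_left m).mul_left h6
  exact le_antisymm (key t s h.symm) (key s t h)

theorem card_range {φ : T →* A} (hφ : Function.Injective φ) (hr : ∀ x, x ∈ D ↔ ∃ t, φ t = x) :
    Nat.card D = Fintype.card T := by
  have h1 : D = φ.range := by
    ext x
    rw [hr, MonoidHom.mem_range]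
  rw [h1, ← Nat.card_eq_fintype_card]
  exact (Nat.card_congr (MonoidHom.ofInjective hφ).toEquiv).symm

/-- a sum over the characters of the block -/
theorem sum_th {B I : MonoidAlgebra (OW p k) A} (hl : Lf b i D B I) [Fintype (IrB B)]
    (x : MonoidAlgebra (OW p k) A) (Y : Ir (KW p k) A → KW p k) :
    ∑ χ : IrB B, chO χ.1 (x * I) * Y χ.1 = ∑ χ : Ir (KW p k) A, chO χ (x * I) * Y χ := by
  symm
  refine sum_irB (B := B) _ fun χ hχ => ?_
  rw [hl.cb.chO_out hχ (by rw [mul_assoc, hl.ib]), zero_mul]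

/-- **the data of the theorem on nilpotent blocks** -/
theorem ndata (h : Src p b D f i) (hN : St D f ≤ CD D) {B I : MonoidAlgebra (OW p k) A}
    (hl : Lf b i D B I) [Fintype (IrB B)] {φ : T →* A} (hφ : Function.Injective φ)
    (hr : ∀ x, x ∈ D ↔ ∃ t, φ t = x)
    {BB : ∀ H : Subgroup A, MonoidAlgebra (OW p k) ↥H} {nn : Subgroup A → ℕ}
    (hfam : ∀ u ∈ D, u ∉ (Subgroup.center A : Set A) → ∃ c IH, LbH (C1 u) i c ∧
      LD D i c (C1 u) (BB (C1 u)) IH (nn (C1 u))) :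
    ∃ a : ℕ, NData p (zT φ) (fun (χ : IrB B) t => th φ I χ.1 t)
      (fun (χ : IrB B) t => fch (C1 (φ t)) (BB (C1 (φ t))) χ.1 (φ t))
      (fun χ : IrB B => cT φ χ.1) (fun t => (nn (C1 (φ t)) : ℤ)) (a : ℤ) := by
  classical
  have := Fintype.ofFinite A
  have : Fintype ↥D := Fintype.ofFinite _
  have hmem : ∀ t, φ t ∈ D := fun t => (hr _).2 ⟨t, rfl⟩
  have hcT : Nat.card D = Fintype.card T := card_range hφ hr
  obtain ⟨M, hM⟩ := pow_one_of h
  have hDp := h.root.dfg.isPGroup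
  have hcom := h.root.com
  obtain ⟨X, hX⟩ := exists_reps (K := (⊤ : Subgroup A)) (D := D) le_top
  obtain ⟨a, ha1, ha2, ha3⟩ := sq_sum hDp hcom hX hl.ci.idem hl.com
  have heN : eN D f = 1 := by
    rw [eN, Subgroup.relIndex_eq_one]
    exact hN
  have hdv : ¬ p ∣ eN D f := by
    rw [heN]
    exact fun h0 => (Fact.out : p.Prime).one_lt.ne' (Nat.dvd_one.1 h0)
  have hcomT : ∀ t, single (φ t) 1 * I = I * single (φ t) (1 : OW p k) := fun t =>
    hl.com _ (hmem t)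
  refine ⟨a, ?_, ?_, ?_, ?_, ?_, ?_, ?_, ?_, ?_, ?_⟩
  · intro χ
    exact honest_vir χ.1 φ hl.ci.idem hcomT
  · intro χ z t
    exact th_cen φ I χ.1 z t
  · intro χ t ht
    obtain ⟨c, IH, hc, hL⟩ := hfam (φ t) (hmem t) ht
    rw [Int.cast_natCast]
    exact fac_at (hM _ (hmem t)) hl.ci.idem (hcomT t) hL.il.idem
      (cong_of hl.ci.red hL.il.red) hL.cl hL.ib hL.val χ.1
  · intro s t _ _ hst
    rw [same_C1 φ hst]
  · intro χ t ht
    obtain ⟨β, hβ, h1, h2⟩ := fch_vir φ (C1 (φ t)) (BB (C1 (φ t))) χ.1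
    refine ⟨β, hβ, ?_, ?_⟩
    · intro s hs
      have hC : C1 (φ s) = C1 (φ t) := same_C1 φ hs
      change fch (C1 (φ s)) (BB (C1 (φ s))) χ.1 (φ s) = β s
      rw [hC, h1 s]
      · rw [← hC]
        exact mem_C1'.2 rfl
      · intro x hx
        rw [← hC] at hx
        exact mem_C1'.1 hx
    · intro z s
      rw [cT_apply]
      refine h2 z ?_ ?_ s
      · rw [mem_C1']
        exact Subgroup.mem_center_iff.1 z.2 _
      · intro x
        exact (Subgroup.mem_center_iff.1 z.2 x).symm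
  · intro s t hst
    change ∑ χ : IrB B, chO χ.1 (single (φ s) 1 * I) * th φ I χ.1 t⁻¹ = 0
    rw [sum_th hl (single (φ s) 1) (fun χ => th φ I χ t⁻¹)]
    simp only [th_inv]
    refine gram_zero h hl (hmem s) (hmem t) fun g hg hx => hst (hφ ?_)
    have h1 : φ t * g = g * φ t := Subgroup.mem_centralizer_iff.1 (hN hg) _ (hmem t)
    rw [← h1] at hx
    exact mul_right_cancel hx
  · intro t ht
    change ∑ χ : IrB B, chO χ.1 (single (φ t) 1 * I) * th φ I χ.1 t⁻¹ = _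
    rw [sum_th hl (single (φ t) 1) (fun χ => th φ I χ t⁻¹)]
    simp only [th_inv]
    obtain ⟨c, IH, hc, hL⟩ := hfam (φ t) (hmem t) ht
    have hDu : D ≤ C1 (φ t) := D_le_C1 hcom (hmem t)
    rw [(gram_conj hl (hmem t) (hmem t) (hM _ (hmem t)) (hM _ (hmem t)) (g := 1)
      (by rw [mul_one, one_mul]) hc hc (cj_one_left c) hL hL hDu hDu
      Nat.card_pos.ne').2, hcT]
    push_cast
    rfl
  · change ∑ χ : IrB B, chO χ.1 (single (φ 1) 1 * I) * th φ I χ.1 1 = _
    rw [sum_th hl (single (φ 1) 1) (fun χ => th φ I χ 1)]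
    simp only [th, map_one, ← one_def, one_mul]
    rw [ha1, hcT]
    push_cast
    rfl
  · have h1 : tX X D i = (eN D f : k) := by
      rw [← tr_eN h hX, tX]
      refine Finset.sum_congr rfl fun q _ => ?_
      exact (Finset.sum_subtype (p := fun v => v ∈ D) (Finset.univ.filter fun v => v ∈ D)
        (fun v => by simp) (fun v => (i * single q 1 * i).coeff (q * v))).symm
    rw [hl.ci.red, h1, heN] at ha3
    have h2 : ((a : ℤ) : k) - ((1 : ℤ) : k) = 0 := by
      rw [Int.cast_natCast, ← ha3, Int.cast_one, Nat.cast_one, sub_self]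
    rw [← Int.cast_sub, CharP.intCast_eq_zero_iff k p] at h2
    exact h2
  · intro χ t
    obtain ⟨w, hw, hw'⟩ := unit_tr h hdv (hmem t) hX
    exact chO_ne hl.cb hl.ci hl.com hcom (hmem t) hX hw hw' χ.2

end T

end Pool.Agent.Lib.P0c8ca5.Ex
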