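import Mathlib
import Pool.Agent.Lib.P0c8ca5Ex.NP
import Pool.Agent.Lib.P0c8ca5Ex.NI

/-!
# NR: the theorem on nilpotent blocks, the two cases
-/

set_option linter.unusedSectionVars false

namespace Pool.Agent.Lib.P0c8ca5.Ex

open MonoidAlgebra Rk

variable {p : ℕ} [Fact p.Prime] {k : Type*} [Field k] [IsAlgClosed k] [CharP k p]
  {A : Type*} [Group A] [Finite A] {b f i : MonoidAlgebra k A} {D : Subgroup A}

/-- orthogonality to the columns of central elements -/
theorem cen_orth {u v : A} {M : ℕ} (hu : u ^ p ^ M = 1) (hv : v ^ p ^ M = 1)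
    (huc : u ∈ Subgroup.center A) (huv : u ≠ v) {e I : MonoidAlgebra (OW p k) A}
    (he : e * e = e) (hI : I * I = I) {i : MonoidAlgebra k A}
    (hIr : mapRingHom A (rdO p k) I = i) (hc : single v 1 * I = I * single v (1 : OW p k))
    {E : MonoidAlgebra (OW p k) ↥(C1 v)} (hE : IdL (dnr (C1 v) i) E) :
    ∑ χ : Ir (KW p k) A, chO χ (single u 1 * e) * chO χ (I * single v⁻¹ 1) = 0 := by
  have := Fintype.ofFinite A
  classical
  have hmem : ∀ x : A, x ∈ C1 u := fun x => mem_C1'.2 (Subgroup.mem_center_iff.1 huc x).symm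
  have h1 : upr (C1 u) (dnr (C1 u) e) = e := upr_dnr fun x _ => hmem x
  have h2 : dnr (C1 u) e * dnr (C1 u) e = dnr (C1 u) e := by
    rw [← dnr_mul_upr, h1, he]
  have h3 : single u 1 * e = e * single u (1 : OW p k) := by
    rw [← cjr_eq_iff]
    ext x
    rw [coeff_cjr]
    congr 1
    rw [mul_assoc, Subgroup.mem_center_iff.1 huc x, inv_mul_cancel_left]
  exact tp_chi_zero hu hv sepO he hI h2 hE.idem h3 hc
    (fun c => by rw [coeff_dnr, sub_self]; exact dvd_zero _) (cong_of hIr hE.red)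
    (fun x hx => huv (by
      rw [← Subgroup.mem_center_iff.1 huc x] at hx
      exact mul_left_cancel hx))

/-- the central characters of the values -/
theorem cen_val {T : Type*} [CommGroup T] [Fintype T] (φ : T →* A) (χ : Ir (KW p k) A) (z : ↥(zT φ))
    (e : MonoidAlgebra (OW p k) A) :
    ((cT φ χ z : (KW p k)ˣ) : KW p k) * chO χ e = chO χ (single (φ (z : T)) 1 * e) := by
  rw [cT_apply, chO_cen_mul χ z.2]

theorem sum_e {B : MonoidAlgebra (OW p k) A} (hB : CenL b B) [Fintype (IrB B)]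
    {e : MonoidAlgebra (OW p k) A} (he : e * B = e)
    (x : MonoidAlgebra (OW p k) A) (Y : Ir (KW p k) A → KW p k) :
    ∑ χ : IrB B, chO χ.1 (x * e) * Y χ.1 = ∑ χ : Ir (KW p k) A, chO χ (x * e) * Y χ := by
  symm
  refine sum_irB (B := B) _ fun χ hχ => ?_
  rw [hB.chO_out hχ (by rw [mul_assoc, he]), zero_mul]

section
variable {T : Type*} [CommGroup T] [Fintype T]

/-- the sum over a part of products of values -/
theorem part_val (h : Src p b D f i) {B : MonoidAlgebra (OW p k) A}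
    (hB : CenL b B) [Fintype (IrB B)] {φ : T →* A} (hφ : Function.Injective φ)
    (hr : ∀ x, x ∈ D ↔ ∃ t, φ t = x) [Fintype ↥(zT φ)] [DecidableEq (↥(zT φ) →* (KW p k)ˣ)]
    {e e' : MonoidAlgebra (OW p k) A} (he : e * e = e) (heB : e * B = e) (he' : e' * e' = e')
    (ν : ↥(zT φ) →* (KW p k)ˣ) :
    (Fintype.card ↥(zT φ) : KW p k) *
      ∑ χ : IrB B with cT φ χ.1 = ν, chO χ.1 e * chO χ.1 e'
        = ∑ χ : IrB B, chO χ.1 e * chO χ.1 e' := by
  obtain ⟨M, hM⟩ := pow_one_of h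
  have := Fintype.ofFinite A
  have hmem : ∀ t, φ t ∈ D := fun t => (hr _).2 ⟨t, rfl⟩
  have key := part_single (K := KW p k) (fun χ : IrB B => cT φ χ.1)
    (fun χ => chO χ.1 e * chO χ.1 e') 1 ?_ ν
  · refine Eq.trans ?_ (key.trans ?_)
    · congr!
    · simp
  · intro z hz
    have h1 : ∀ χ : IrB B, ((cT φ χ.1 z : (KW p k)ˣ) : KW p k) * (chO χ.1 e * chO χ.1 e')
        = chO χ.1 (single (φ (z : T)) 1 * e) * chO χ.1 (e' * single (1 : A)⁻¹ 1) := by
      intro χ
      rw [← mul_assoc, cen_val, inv_one, ← one_def, mul_one]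
    rw [Finset.sum_congr rfl fun χ _ => h1 χ,
      sum_e hB heB (single (φ (z : T)) 1) (fun χ => chO χ (e' * single (1 : A)⁻¹ 1))]
    have hmem1 : ∀ x : A, x ∈ C1 (1 : A) := fun x => mem_C1'.2 (by rw [one_mul, mul_one])
    have h2 : dnr (C1 (1 : A)) e' * dnr (C1 (1 : A)) e' = dnr (C1 (1 : A)) e' := by
      rw [← dnr_mul_upr, upr_dnr fun x _ => hmem1 x, he']
    refine cen_orth (i := mapRingHom A (rdO p k) e') (E := dnr (C1 (1 : A)) e')
      (hM _ (hmem z)) (one_pow _) z.2 ?_ he he' rfl ?_ ⟨h2, ?_⟩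
    · intro h0
      apply hz
      apply Subtype.ext
      exact hφ (by rw [h0, OneMemClass.coe_one, map_one])
    · rw [← one_def, one_mul, mul_one]
    · rw [map_dnr]

/-- the sum over a part of the products with the values at a column off `Z` -/
theorem part_col (h : Src p b D f i) {B I : MonoidAlgebra (OW p k) A}
    (hl : Lf b i D B I) [Fintype (IrB B)] {φ : T →* A}
    (hr : ∀ x, x ∈ D ↔ ∃ t, φ t = x) [Fintype ↥(zT φ)] [DecidableEq (↥(zT φ) →* (KW p k)ˣ)]
    {e : MonoidAlgebra (OW p k) A} (he : e * e = e) (heB : e * B = e)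
    (ν : ↥(zT φ) →* (KW p k)ˣ) {t : T} (ht : t ∉ zT φ) :
    ∑ χ : IrB B with cT φ χ.1 = ν, chO χ.1 e * th φ I χ.1 t = 0 := by
  obtain ⟨M, hM⟩ := pow_one_of h
  have hmem : ∀ t, φ t ∈ D := fun t => (hr _).2 ⟨t, rfl⟩
  have key := part_zero (K := KW p k) (fun χ : IrB B => cT φ χ.1)
    (fun χ => chO χ.1 e * th φ I χ.1 t) ?_ ν
  · refine Eq.trans ?_ key
    congr!
  intro z
  have h1 : ∀ χ : IrB B, ((cT φ χ.1 z : (KW p k)ˣ) : KW p k) * (chO χ.1 e * th φ I χ.1 t)
      = chO χ.1 (single (φ (z : T)) 1 * e) * chO χ.1 (I * single (φ t⁻¹)⁻¹ 1) := by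
    intro χ
    rw [← mul_assoc, cen_val, ← th_inv, inv_inv]
  rw [Finset.sum_congr rfl fun χ _ => h1 χ,
    sum_e hl.cb heB (single (φ (z : T)) 1) (fun χ => chO χ (I * single (φ t⁻¹)⁻¹ 1))]
  obtain ⟨E, hE⟩ := exists_locI h (hmem t⁻¹)
  refine cen_orth (hM _ (hmem z)) (hM _ (hmem t⁻¹)) z.2 ?_ he hl.ci.idem hl.ci.red
    (hl.com _ (hmem t⁻¹)) hE
  intro h0
  apply ht
  have h2 : t⁻¹ ∈ zT φ := by
    change φ t⁻¹ ∈ Subgroup.center A
    rw [← h0]
    exact z.2
  exact (Subgroup.inv_mem_iff _).1 h2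

/-- the case `D` not central -/
theorem nil_off (hp2 : p ≠ 2) (h : Src p b D f i) (hN : St D f ≤ CD D)
    {B I : MonoidAlgebra (OW p k) A} (hl : Lf b i D B I) {φ : T →* A}
    (hφ : Function.Injective φ) (hr : ∀ x, x ∈ D ↔ ∃ t, φ t = x)
    (hZ : zT φ ≠ ⊤)
    {BB : ∀ H : Subgroup A, MonoidAlgebra (OW p k) ↥H} {nn : Subgroup A → ℕ}
    (hfam : ∀ u ∈ D, u ∉ (Subgroup.center A : Set A) → ∃ c IH, LbH (C1 u) i c ∧
      LD D i c (C1 u) (BB (C1 u)) IH (nn (C1 u))) :
    NilC D B := by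
  classical
  have : Fintype (IrB B) := Fintype.ofFinite _
  have : Fintype ↥(zT φ) := Fintype.ofFinite _
  have hp : p.Prime := Fact.out
  obtain ⟨a, hd⟩ := ndata h hN hl hφ hr hfam
  have hcT : Nat.card D = Fintype.card T := card_range hφ hr
  have hT : IsPGroup p T := by
    obtain ⟨M, hM⟩ := pow_one_of h
    intro t
    refine ⟨M, hφ ?_⟩
    rw [map_pow, map_one, hM _ ((hr _).2 ⟨t, rfl⟩)]
  refine ⟨?_, ?_⟩
  · rw [hcT, Nat.card_eq_fintype_card]
    exact hd.card hp hp2 hT hZ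
  · intro e he heB
    choose d0 hd0 using fun χ : IrB B => chO_nat hl.ci.idem χ.1
    choose d1 hd1 using fun χ : IrB B => chO_nat he χ.1
    have hpos : ∀ χ, 0 < d0 χ := by
      intro χ
      rw [Nat.pos_iff_ne_zero]
      intro h0
      refine hd.ne χ 1 ?_
      change chO χ.1 (single (φ 1) 1 * I) = 0
      rw [map_one, ← one_def, one_mul, hd0 χ, h0, Nat.cast_zero]
    have c0 : ∀ χ χ' : IrB B, cT φ χ.1 = cT φ χ'.1 → d0 χ = d0 χ' := by
      intro χ χ' hχ
      refine hd.const hp hp2 hT hZ (cT φ χ'.1) d0 hpos ?_ χ χ' hχ rfl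
      intro t ht
      have h1 := part_col h hl hr hl.ci.idem hl.ib (cT φ χ'.1) ht
      refine (Finset.sum_congr rfl fun χ _ => ?_).trans h1
      rw [hd0 χ]
    have c1 : ∀ χ χ' : IrB B, cT φ χ.1 = cT φ χ'.1 → d1 χ = d1 χ' := by
      intro χ χ' hχ
      have h2 := hd.const hp hp2 hT hZ (cT φ χ'.1) (fun χ => d1 χ + d0 χ)
        (fun χ => Nat.add_pos_right _ (hpos χ)) ?_ χ χ' hχ rfl
      · have h3 := c0 χ χ' hχ
        change d1 χ + d0 χ = d1 χ' + d0 χ' at h2
        omega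
      · intro t ht
        have h1 := part_col h hl hr hl.ci.idem hl.ib (cT φ χ'.1) ht
        have h1' := part_col h hl hr he heB (cT φ χ'.1) ht
        have h3 : ∀ χ : IrB B, ((d1 χ + d0 χ : ℕ) : KW p k) * th φ I χ.1 t
            = chO χ.1 e * th φ I χ.1 t + chO χ.1 I * th φ I χ.1 t := by
          intro χ
          rw [hd0 χ, hd1 χ]
          push_cast
          ring
        rw [Finset.sum_congr rfl fun χ _ => h3 χ, Finset.sum_add_distrib, h1, h1', add_zero]
    -- all values are equal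
    have key : ∀ χ : IrB B, (Fintype.card T : KW p k) * ((d1 χ : KW p k) * d1 χ)
        = ∑ χ : IrB B, chO χ.1 e * chO χ.1 e := by
      intro χ
      rw [← part_val h hl.cb hφ hr he heB he (cT φ χ.1)]
      have h4 : ∑ χ' : IrB B with cT φ χ'.1 = cT φ χ.1, chO χ'.1 e * chO χ'.1 e
          = ((Finset.univ.filter fun χ' : IrB B => cT φ χ'.1 = cT φ χ.1).card : KW p k)
            * ((d1 χ : KW p k) * d1 χ) := by
        rw [Finset.sum_congr rfl fun χ' hχ' => by
          rw [hd1 χ', c1 χ' χ (Finset.mem_filter.1 hχ').2], Finset.sum_const, nsmul_eq_mul]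
      have h5 := hd.card_part hp hp2 hT hZ (cT φ χ.1)
      rw [h4, ← h5, Nat.cast_mul, Nat.card_eq_fintype_card]
      ring
    by_cases hne : Nonempty (IrB B)
    · obtain ⟨χ0⟩ := hne
      refine ⟨d1 χ0, fun χ => ?_⟩
      rw [hd1 χ]
      have h6 := (key χ).trans (key χ0).symm
      have hc : (Fintype.card T : KW p k) ≠ 0 := Nat.cast_ne_zero.2 Fintype.card_ne_zero
      have h7 := mul_left_cancel₀ hc h6
      have h8 : d1 χ * d1 χ = d1 χ0 * d1 χ0 := by exact_mod_cast h7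
      rw [Nat.mul_self_inj.1 h8]
    · exact ⟨0, fun χ => absurd ⟨χ⟩ hne⟩

/-- the case `D` central -/
theorem nil_cen (h : Src p b D f i) {B I : MonoidAlgebra (OW p k) A} (hl : Lf b i D B I)
    {φ : T →* A} (hφ : Function.Injective φ) (hr : ∀ x, x ∈ D ↔ ∃ t, φ t = x)
    (hZ : D ≤ Subgroup.center A) : NilC D B := by
  classical
  have := Fintype.ofFinite A
  have : Fintype ↥D := Fintype.ofFinite _
  have : Fintype (IrB B) := Fintype.ofFinite _
  have : Fintype ↥(zT φ) := Fintype.ofFinite _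
  have hmem : ∀ t, φ t ∈ D := fun t => (hr _).2 ⟨t, rfl⟩
  have hcT : Nat.card D = Fintype.card T := card_range hφ hr
  have hDp := h.root.dfg.isPGroup
  have hcom := h.root.com
  have hCD : CD D = ⊤ := by
    rw [eq_top_iff]
    intro x _
    rw [Subgroup.mem_centralizer_iff]
    exact fun y hy => (Subgroup.mem_center_iff.1 (hZ hy) x).symm
  have hzT : zT φ = ⊤ := by
    rw [eq_top_iff]
    exact fun t _ => hZ (hmem t)
  have hcz : Fintype.card ↥(zT φ) = Fintype.card T := by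
    rw [← Nat.card_eq_fintype_card, ← Nat.card_eq_fintype_card, hzT]
    exact Nat.card_congr Subgroup.topEquiv.toEquiv
  have heN : eN D f = 1 := by
    rw [eN, Subgroup.relIndex_eq_one, hCD]
    exact le_top
  have hdv : ¬ p ∣ eN D f := by
    rw [heN]
    exact fun h0 => (Fact.out : p.Prime).one_lt.ne' (Nat.dvd_one.1 h0)
  obtain ⟨X, hX⟩ := exists_reps (K := (⊤ : Subgroup A)) (D := D) le_top
  obtain ⟨a, ha1, ha2, ha3⟩ := sq_sum hDp hcom hX hl.ci.idem hl.com
  have ha : a = 1 := by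
    have h1 := tX_one hDp (fun d hd x => (Subgroup.mem_center_iff.1 (hZ hd) x).symm) hX
      hl.ci.idem hl.ci.red (J_prim h).ne (fun x => rank_one h (fun y _ => by
        rw [hCD]; exact Subgroup.mem_top y))
    rw [tX, h1] at ha2
    exact_mod_cast ha2.symm
  rw [ha, Nat.cast_one, mul_one, hcT] at ha1
  have hne : ∀ χ : IrB B, chO χ.1 I ≠ 0 := by
    intro χ
    obtain ⟨w, hw, hw'⟩ := unit_tr h hdv D.one_mem hX
    have h1 := chO_ne hl.cb hl.ci hl.com hcom D.one_mem hX hw hw' χ.2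
    rwa [← one_def, one_mul] at h1
  choose d0 hd0 using fun χ : IrB B => chO_nat hl.ci.idem χ.1
  have hall : ∑ χ : IrB B, chO χ.1 I * chO χ.1 I = (Fintype.card T : KW p k) := by
    rw [← ha1]
    have h2 := sum_th hl 1 (fun χ => chO χ I)
    simp only [one_mul] at h2
    exact h2
  have hc : (Fintype.card T : KW p k) ≠ 0 := Nat.cast_ne_zero.2 Fintype.card_ne_zero
  -- every part has one element
  have hpart : ∀ ν : ↥(zT φ) →* (KW p k)ˣ,
      (Finset.univ.filter fun χ : IrB B => cT φ χ.1 = ν).card = 1 ∧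
        ∀ χ : IrB B, cT φ χ.1 = ν → d0 χ = 1 := by
    intro ν
    have h3 := part_val h hl.cb hφ hr hl.ci.idem hl.ib hl.ci.idem ν
    rw [hall, hcz] at h3
    have h4 : ∑ χ : IrB B with cT φ χ.1 = ν, chO χ.1 I * chO χ.1 I = 1 :=
      mul_left_cancel₀ hc (by rw [h3, mul_one])
    have h5 : ∑ χ ∈ Finset.univ.filter (fun χ : IrB B => cT φ χ.1 = ν), d0 χ * d0 χ = 1 := by
      have h6 : ((∑ χ ∈ Finset.univ.filter (fun χ : IrB B => cT φ χ.1 = ν), d0 χ * d0 χ : ℕ)
          : KW p k) = ((1 : ℕ) : KW p k) := by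
        rw [Nat.cast_sum, Nat.cast_one, ← h4]
        exact Finset.sum_congr rfl fun χ _ => by rw [hd0 χ]; push_cast; rfl
      exact_mod_cast h6
    have h7 : ∀ χ : IrB B, 1 ≤ d0 χ * d0 χ := by
      intro χ
      have h8 : d0 χ ≠ 0 := fun h0 => hne χ (by rw [hd0 χ, h0, Nat.cast_zero])
      exact Nat.one_le_iff_ne_zero.2 (mul_ne_zero h8 h8)
    have h9 : (Finset.univ.filter fun χ : IrB B => cT φ χ.1 = ν).card ≤ 1 := by
      calc (Finset.univ.filter fun χ : IrB B => cT φ χ.1 = ν).card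
          = ∑ χ ∈ Finset.univ.filter (fun χ : IrB B => cT φ χ.1 = ν), 1 := by
            rw [Finset.sum_const, smul_eq_mul, mul_one]
        _ ≤ ∑ χ ∈ Finset.univ.filter (fun χ : IrB B => cT φ χ.1 = ν), d0 χ * d0 χ :=
            Finset.sum_le_sum fun χ _ => h7 χ
        _ = 1 := h5
    refine ⟨?_, ?_⟩
    · have h10 : (Finset.univ.filter fun χ : IrB B => cT φ χ.1 = ν).card ≠ 0 := by
        intro h0
        rw [Finset.card_eq_zero] at h0
        rw [h0, Finset.sum_empty] at h5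
        exact zero_ne_one h5
      omega
    · intro χ hχ
      have h11 : d0 χ * d0 χ ≤ 1 := by
        rw [← h5]
        exact Finset.single_le_sum (f := fun χ => d0 χ * d0 χ) (fun _ _ => Nat.zero_le _)
          (Finset.mem_filter.2 ⟨Finset.mem_univ _, hχ⟩)
      have h12 := h7 χ
      have h13 : d0 χ * d0 χ = 1 := le_antisymm h11 h12
      exact Nat.eq_one_of_mul_eq_one_right h13
  refine ⟨?_, ?_⟩
  · rw [hcT, Nat.card_eq_fintype_card, ← Finset.card_univ]
    let _ : Fintype (↥(zT φ) →* (KW p k)ˣ) := Fintype.ofFinite _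
    rw [Finset.card_eq_sum_card_fiberwise (f := fun χ : IrB B => cT φ χ.1)
      (t := Finset.univ) (fun _ _ => Finset.mem_coe.2 (Finset.mem_univ _))]
    rw [Finset.sum_congr rfl fun ν _ => (hpart ν).1, Finset.sum_const, smul_eq_mul, mul_one,
      Finset.card_univ, card_chr, hcz]
  · intro e he heB
    choose d1 hd1 using fun χ : IrB B => chO_nat he χ.1
    have key : ∀ χ : IrB B, (Fintype.card T : KW p k) * (d1 χ : KW p k)
        = ∑ χ : IrB B, chO χ.1 e * chO χ.1 I := by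
      intro χ
      rw [← part_val h hl.cb hφ hr he heB hl.ci.idem (cT φ χ.1), hcz]
      congr 1
      obtain ⟨χ1, hχ1⟩ := Finset.card_eq_one.1 (hpart (cT φ χ.1)).1
      have h14 : χ ∈ Finset.univ.filter fun χ' : IrB B => cT φ χ'.1 = cT φ χ.1 :=
        Finset.mem_filter.2 ⟨Finset.mem_univ _, rfl⟩
      rw [hχ1, Finset.mem_singleton] at h14
      rw [hχ1, Finset.sum_singleton, ← h14, hd1 χ, hd0 χ, (hpart (cT φ χ.1)).2 χ rfl,
        Nat.cast_one, mul_one]
    by_cases hne' : Nonempty (IrB B)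
    · obtain ⟨χ0⟩ := hne'
      refine ⟨d1 χ0, fun χ => ?_⟩
      rw [hd1 χ]
      have h6 := (key χ).trans (key χ0).symm
      have h7 := mul_left_cancel₀ hc h6
      have h8 : d1 χ = d1 χ0 := by exact_mod_cast h7
      rw [h8]
    · exact ⟨0, fun χ => absurd ⟨χ⟩ hne'⟩

end

end Pool.Agent.Lib.P0c8ca5.Ex
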