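import Mathlib
import Pool.Agent.Lib.P0c8ca5Ex.GE
import Pool.Agent.Lib.P0c8ca5Ex.GA
import Pool.Agent.Lib.P0c8ca5Ex.NR
import Pool.Agent.Lib.P0c8ca5N.WSum

/-!
# GF: a linear form on the characters of a block which vanishes on all the columns is `0`

* `exists_cut`: the central idempotent of `O[C(v)]` lifting the restriction of `b`, as the sum of
  the block idempotents below `b`;
* `loc_cut`: the second main theorem for the columns `(v, F)`;
* `form_zero`: if `∑ χ, a χ * chO χ (v F) = 0` for all `p`-elements `v` and all idempotents `F` of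
  `O[C(v)]` in blocks below `b`, then `a = 0`.
-/

namespace Pool.Agent.Lib.P0c8ca5.Ex

open MonoidAlgebra Rk LocAux WSumAux

variable {p : ℕ} [Fact p.Prime] {k : Type*} [Field k] [IsAlgClosed k] [CharP k p]
  {A : Type*} [Group A] [Finite A]

omit [IsAlgClosed k] [CharP k p] [Finite A] in
theorem zp_pgroup {v : A} {M : ℕ} (hv : v ^ p ^ M = 1) : IsPGroup p (Subgroup.zpowers v) := by
  intro x
  obtain ⟨n, hn⟩ := x.2
  refine ⟨M, ?_⟩
  ext
  rw [Subgroup.coe_pow, ← hn, Subgroup.coe_one]
  change (v ^ n) ^ p ^ M = 1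
  rw [← zpow_natCast, ← zpow_mul, mul_comm, zpow_mul, zpow_natCast, hv, one_zpow]

omit [IsAlgClosed k] in
/-- the restriction of a central idempotent to `C(v)` -/
theorem resS_cen {b : MonoidAlgebra k A} (hbc : ∀ g : A, cj g b = b) (hbb : b * b = b) {v : A}
    {M : ℕ} (hv : v ^ p ^ M = 1) :
    resS (C1 v : Set A) b ∈ fixAlg k (C1 v) (C1 v) ∧
      resS (C1 v : Set A) b * resS (C1 v : Set A) b = resS (C1 v : Set A) b := by
  have h1 : InvBy (⊤ : Subgroup A) b := invBy_iff_cj.2 fun g _ => hbc g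
  have h2 : InvBy (Subgroup.zpowers v) b := fun g _ x => h1 g (Subgroup.mem_top g) x
  refine ⟨mem_fixAlg.2 ⟨resS_sp _ _, resS_inv le_rfl fun g _ x => h1 g (Subgroup.mem_top g) x⟩, ?_⟩
  have h3 := resS_mul (p := p) (zp_pgroup hv) h2 h2
  rw [hbb] at h3
  have h4 : Subgroup.centralizer ((Subgroup.zpowers v : Subgroup A) : Set A) = C1 v := CD_zpowers v
  rw [h4] at h3
  exact h3.symm

/-- block idempotents of `C(v)` as central idempotents of `k[C(v)]` -/
theorem exists_cenB {H : Subgroup A} {c : MonoidAlgebra k A} (hc : IsBlock H c) :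
    ∃ C : MonoidAlgebra (OW p k) ↥H, CenL (dnr H c) C := by
  refine exists_cenL (p := p) ?_ ?_
  · have h1 := dn_mul (H := H) hc.suppIn hc.suppIn
    rw [hc.idem] at h1
    exact h1.symm
  · intro g
    have h1 : InvBy (⊤ : Subgroup ↥H) (dnr H c) := by
      intro x _ y
      rw [coeff_dnr, coeff_dnr]
      exact hc.invBy x x.2 y
    exact invBy_iff_cj.1 h1 g (Subgroup.mem_top g)

/-- the central idempotent of `O[C(v)]` lifting the restriction of `b` -/
theorem exists_cut {b : MonoidAlgebra k A} (hbc : ∀ g : A, cj g b = b) (hbb : b * b = b) {v : A}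
    {M : ℕ} (hv : v ^ p ^ M = 1) :
    ∃ (S : Finset (MonoidAlgebra k A)) (C : MonoidAlgebra k A → MonoidAlgebra (OW p k) ↥(C1 v)),
      (∀ c ∈ S, IsBlock (C1 v) c ∧ resS (C1 v : Set A) b * c = c ∧ CenL (dnr (C1 v) c) (C c)) ∧
      CenL (dnr (C1 v) b) (∑ c ∈ S, C c) := by
  classical
  have := Fintype.ofFinite A
  obtain ⟨hm, hi⟩ := resS_cen hbc hbb hv
  have hfin : {c : MonoidAlgebra k A | IsBlock (C1 v) c ∧ c * resS (C1 v : Set A) b ≠ 0}.Finite :=
    (finite_isBlock (k := k) (C1 v)).subset fun c hc => hc.1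
  set S : Finset (MonoidAlgebra k A) := hfin.toFinset with hS
  have hSm : ∀ c, c ∈ S ↔ IsBlock (C1 v) c ∧ c * resS (C1 v : Set A) b ≠ 0 := fun c => by
    rw [hS, Set.Finite.mem_toFinset, Set.mem_setOf_eq]
  have hsum := sum_blocks (p := p) hm hi S hSm
  have hex : ∀ c : MonoidAlgebra k A, ∃ C : MonoidAlgebra (OW p k) ↥(C1 v),
      c ∈ S → CenL (dnr (C1 v) c) C := by
    intro c
    by_cases hc : c ∈ S
    · obtain ⟨C, hC⟩ := exists_cenB (p := p) ((hSm c).1 hc).1
      exact ⟨C, fun _ => hC⟩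
    · exact ⟨0, fun h => absurd h hc⟩
  choose C hC using hex
  have hle : ∀ c ∈ S, resS (C1 v : Set A) b * c = c := by
    intro c hc
    obtain ⟨h1, h2⟩ := (hSm c).1 hc
    rcases h1.mul_eq hm hi with h | h
    · exact absurd (by rw [commute_of h1.suppIn (mem_fixAlg.1 hm).2, h]) h2
    · exact h
  refine ⟨S, C, fun c hc => ⟨((hSm c).1 hc).1, hle c hc, hC c hc⟩, ?_, ?_, ?_⟩
  · have horth : ∀ c ∈ S, ∀ d ∈ S, c ≠ d → C c * C d = 0 := by
      intro c hc d hd hcd
      refine idem_zero ?_ ?_
      · calc C c * C d * (C c * C d) = C c * (C d * C c) * C d := by simp only [mul_assoc]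
          _ = C c * C c * (C d * C d) := by rw [(hC d hd).cen]; simp only [mul_assoc]
          _ = C c * C d := by rw [(hC c hc).idem, (hC d hd).idem]
      · rw [map_mul, (hC c hc).red, (hC d hd).red]
        have h1 := dn_mul (H := C1 v) ((hSm c).1 hc).1.suppIn ((hSm d).1 hd).1.suppIn
        have h2 : c * d = 0 := (((hSm c).1 hc).1.eq_or_mul_eq_zero ((hSm d).1 hd).1).resolve_left hcd
        rw [h2, dn_zero] at h1
        exact h1.symm
    rw [Finset.sum_mul]
    refine Finset.sum_congr rfl fun c hc => ?_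
    rw [Finset.mul_sum, Finset.sum_eq_single c]
    · exact (hC c hc).idem
    · intro d hd hdc
      exact horth c hc d hd (Ne.symm hdc)
    · intro h
      exact absurd hc h
  · intro x
    rw [Finset.sum_mul, Finset.mul_sum]
    exact Finset.sum_congr rfl fun c hc => (hC c hc).cen x
  · rw [map_sum, Finset.sum_congr rfl fun c hc => (hC c hc).red, ← dnr_resS' (C1 v) b, ← hsum]
    ext x
    rw [coeff_dnr, coeff_sum, coeff_sum, Finsupp.finsetSum_apply, Finsupp.finsetSum_apply]
    exact Finset.sum_congr rfl fun c _ => coeff_dnr _ _ _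

/-- the second main theorem for the columns -/
theorem loc_cut {b : MonoidAlgebra k A} {B : MonoidAlgebra (OW p k) A} (hB : CenL b B) {v : A}
    {M : ℕ} (hv : v ^ p ^ M = 1) {C : MonoidAlgebra (OW p k) ↥(C1 v)}
    (hC : CenL (dnr (C1 v) b) C) {E : MonoidAlgebra (OW p k) ↥(C1 v)} (hE : E * E = E)
    {χ : Ir (KW p k) A} (hχ : chO χ B ≠ 0) :
    chO χ (single v 1 * upr (C1 v) E) = chO χ (single v 1 * upr (C1 v) (E * C)) := by
  have := Fintype.ofFinite A
  have hvE : ∀ F : MonoidAlgebra (OW p k) ↥(C1 v),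
      single v 1 * upr (C1 v) F = upr (C1 v) F * single v (1 : OW p k) := by
    intro F
    have h1 : (single v (1 : OW p k) : MonoidAlgebra (OW p k) A)
        = upr (C1 v) (single ⟨v, mem_C1.2 rfl⟩ 1) := by rw [upr_single]
    rw [h1, ← map_mul, ← map_mul]
    congr 1
    induction F using MonoidAlgebra.induction_linear with
    | zero => rw [mul_zero, zero_mul]
    | add f g hf hg => rw [mul_add, add_mul, hf, hg]
    | single g c =>
      rw [single_mul_single, single_mul_single, one_mul, mul_one]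
      congr 1
      exact Subtype.ext (mem_C1.1 g.2)
  have hEC : E * C * (E * C) = E * C := by
    calc E * C * (E * C) = E * (C * E) * C := by simp only [mul_assoc]
      _ = E * E * (C * C) := by rw [hC.cen]; simp only [mul_assoc]
      _ = E * C := by rw [hE, hC.idem]
  rw [← hB.chO_in hχ, mul_assoc]
  refine lift_indep (ε := E * C) hv sepO ?_ ?_ hEC ?_ (hvE _) ?_ ?_ χ
  · calc upr (C1 v) E * B * (upr (C1 v) E * B) = upr (C1 v) E * (B * upr (C1 v) E) * B := by
          simp only [mul_assoc]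
      _ = upr (C1 v) E * upr (C1 v) E * (B * B) := by rw [hB.cen]; simp only [mul_assoc]
      _ = upr (C1 v) E * B := by rw [← map_mul, hE, hB.idem]
  · rw [← map_mul, hEC]
  · rw [← mul_assoc, hvE, mul_assoc, ← hB.cen, ← mul_assoc]
  · intro c
    have h1 : (upr (C1 v) E * B).coeff (c : A) = (E * dnr (C1 v) B).coeff c := by
      rw [← coeff_dnr, dnr_upr_mul]
    rw [h1, ← Finsupp.sub_apply, ← coeff_sub, ← mul_sub]
    have h2 : mapRingHom ↥(C1 v) (rdO p k) (E * (dnr (C1 v) B - C)) = 0 := by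
      rw [map_mul, map_sub, hC.red, map_dnr, hB.red, sub_self, mul_zero]
    have h3 := congrArg (fun w => w.coeff c) h2
    simp only [coeff_map] at h3
    rw [← rdO_eq_zero, h3]
    rfl
  · intro c
    rw [coeff_upr, sub_self]
    exact dvd_zero _

/-- a linear form on the characters of a block which vanishes on all the columns is zero -/
theorem form_zero {b : MonoidAlgebra k A} {B : MonoidAlgebra (OW p k) A}
    (hbc : ∀ g : A, cj g b = b) (hbb : b * b = b) (hB : CenL b B) (a : Ir (KW p k) A → KW p k)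
    (ha : ∀ χ, chO χ B = 0 → a χ = 0)
    (h : ∀ (v : A) (M : ℕ), v ^ p ^ M = 1 → ∀ c, IsBlock (C1 v) c →
      resS (C1 v : Set A) b * c = c → ∀ F : MonoidAlgebra (OW p k) ↥(C1 v), F * F = F →
      mapRingHom ↥(C1 v) (rdO p k) F * dnr (C1 v) c = mapRingHom ↥(C1 v) (rdO p k) F →
      ∑ χ, a χ * chO χ (single v 1 * upr (C1 v) F) = 0) : ∀ χ, a χ = 0 := by
  classical
  refine chi_indep fun x => ?_
  -- the columns
  have hcol : ∀ (v : A) (M : ℕ), v ^ p ^ M = 1 → ∀ E : MonoidAlgebra (OW p k) ↥(C1 v), E * E = E →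
      ∑ χ, a χ * chO χ (single v 1 * upr (C1 v) E) = 0 := by
    intro v M hv E hE
    obtain ⟨S, C, h1, h2⟩ := exists_cut (p := p) hbc hbb hv
    have h3 : ∀ χ : Ir (KW p k) A, a χ * chO χ (single v 1 * upr (C1 v) E)
        = ∑ c ∈ S, a χ * chO χ (single v 1 * upr (C1 v) (E * C c)) := by
      intro χ
      by_cases hχ : chO χ B = 0
      · rw [ha χ hχ, zero_mul]
        exact (Finset.sum_eq_zero fun c _ => zero_mul _).symm
      · rw [loc_cut hB hv h2 hE hχ, Finset.mul_sum, map_sum, Finset.mul_sum, map_sum,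
          Finset.mul_sum]
    rw [Finset.sum_congr rfl fun χ _ => h3 χ, Finset.sum_comm]
    refine Finset.sum_eq_zero fun c hc => ?_
    obtain ⟨h4, h5, h6⟩ := h1 c hc
    refine h v M hv c h4 h5 (E * C c) ?_ ?_
    · calc E * C c * (E * C c) = E * (C c * E) * C c := by simp only [mul_assoc]
        _ = E * E * (C c * C c) := by rw [h6.cen]; simp only [mul_assoc]
        _ = E * C c := by rw [hE, h6.idem]
    · rw [← h6.red, ← map_mul, mul_assoc, h6.idem]
  -- the group elements
  have hgrp : ∀ g : A, ∑ χ, a χ * chi χ (single g 1) = 0 := by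
    intro g
    obtain ⟨v, M, n, ζ, ε, hv, hε, hg⟩ := single_dec (p := p) (k := k) g
    have h3 : ∀ χ : Ir (KW p k) A, a χ * chi χ (single g 1)
        = ∑ j, algebraMap (OW p k) (KW p k) (ζ j)
            * (a χ * chO χ (single v 1 * upr (C1 v) (ε j))) := by
      intro χ
      have h4 : chi χ (single g 1) = chO χ (single g (1 : OW p k)) := by
        rw [chO_apply, map_single, map_one]
      rw [h4, hg, map_sum, Finset.mul_sum]
      refine Finset.sum_congr rfl fun j _ => ?_
      rw [chO_smul]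
      ring
    rw [Finset.sum_congr rfl fun χ _ => h3 χ, Finset.sum_comm]
    refine Finset.sum_eq_zero fun j _ => ?_
    rw [← Finset.mul_sum, hcol v M hv (ε j) (hε j), mul_zero]
  induction x using MonoidAlgebra.induction_linear with
  | zero => simp only [map_zero, mul_zero, Finset.sum_const_zero]
  | add f g hf hg => simp only [map_add, mul_add, Finset.sum_add_distrib, hf, hg, add_zero]
  | single g c =>
    have h5 : single g c = c • single g (1 : KW p k) := by
      rw [MonoidAlgebra.smul_single, smul_eq_mul, mul_one]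
    rw [h5]
    have h6 : ∀ χ : Ir (KW p k) A, a χ * chi χ (c • single g 1) = c * (a χ * chi χ (single g 1)) := by
      intro χ
      rw [map_smul, smul_eq_mul]
      ring
    rw [Finset.sum_congr rfl fun χ _ => h6 χ, ← Finset.mul_sum, hgrp g, mul_zero]

end Pool.Agent.Lib.P0c8ca5.Ex
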