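import Mathlib
import Pool.Agent.Lib.P0c8ca5Ex.GC
import Pool.Agent.Lib.P0c8ca5Ex.GD
import Pool.Agent.Lib.P0c8ca5Ex.GF
import Pool.Agent.Lib.P0c8ca5Ex.Br

/-!
# GG: the irreducible representations of a block and the fixed points of a permutation of its
ordinary characters

`fix_ge`: `s` permutes the ordinary characters in the block `b` such that `s χ` has on `v F` the
value of `χ` on `v ^ t F` (`v` a p-element, `F` an idempotent commuting with `v`), and for `v ≠ 1`
no pair `(v, c)` is conjugate to `(v ^ t, c)`. Then `s` has at least `l(b)` fixed points.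
-/

set_option linter.unusedSectionVars false

namespace Pool.Agent.Lib.P0c8ca5.Ex

open MonoidAlgebra

section
variable {p : ℕ} [Fact p.Prime] {k : Type*} [Field k] [IsAlgClosed k] [CharP k p]
  {A : Type*} [Group A] [Finite A]

/-- the orthogonality of the columns for an isomorphic centralizer -/
theorem off_zero' {u v : A} {M : ℕ} (hu : u ^ p ^ M = 1) (hv : v ^ p ^ M = 1) {H : Subgroup A}
    (hH : C1 u = H) {c d : MonoidAlgebra k A} (hc : IsBlock H c) (hd : IsBlock (C1 v) d)
    {F : MonoidAlgebra (OW p k) ↥H} (hF : F * F = F)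
    (hFc : mapRingHom ↥H (rdO p k) F * dnr H c = mapRingHom ↥H (rdO p k) F)
    {G : MonoidAlgebra (OW p k) ↥(C1 v)} (hG : G * G = G)
    (hGd : mapRingHom ↥(C1 v) (rdO p k) G * dnr (C1 v) d = mapRingHom ↥(C1 v) (rdO p k) G)
    (hne : ∀ g, u * g = g * v → cj g d ≠ c) :
    ∑ χ : Ir (KW p k) A, chO χ (single u 1 * upr H F) *
      chO χ (upr (C1 v) G * single v⁻¹ 1) = 0 := by
  subst hH
  exact off_zero hu hv hc hd hFc ⟨hF, rfl⟩ hGd ⟨hG, rfl⟩ hne

/-- the columns vanish off the block, for an isomorphic centralizer -/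
theorem col_zero' {b : MonoidAlgebra k A} {B : MonoidAlgebra (OW p k) A} (hB : CenL b B) {u : A}
    {M : ℕ} (hu : u ^ p ^ M = 1) {H : Subgroup A} (hH : C1 u = H) {c : MonoidAlgebra k A}
    (hc : IsBlock H c) (hbc : resS (H : Set A) b * c = c)
    {F : MonoidAlgebra (OW p k) ↥H} (hF : F * F = F)
    (hFc : mapRingHom ↥H (rdO p k) F * dnr H c = mapRingHom ↥H (rdO p k) F)
    (χ : Ir (KW p k) A) (h : chO χ B = 0) : chO χ (single u 1 * upr H F) = 0 := by
  subst hH
  exact col_zero hB hu hc hbc hFc ⟨hF, rfl⟩ χ h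

/-- the conjugate of an idempotent at `v` -/
theorem cj_col {u v g : A} (hg : u * g = g * v) (F : MonoidAlgebra (OW p k) ↥(C1 v))
    (χ : Ir (KW p k) A) :
    chO χ (single v 1 * upr (C1 v) F)
      = chO χ (single u 1 * upr (C1 u) (dnr (C1 u) (cjr g (upr (C1 v) F)))) := by
  have := Fintype.ofFinite A
  rw [upr_dnr_cjr hg, ← chO_cjr χ g (single v 1 * upr (C1 v) F), cjr_mul]
  congr 2
  rw [cjr, single_mul_single, single_mul_single, one_mul, one_mul, ← hg, mul_inv_cancel_right]

/-- the conjugate lies below the conjugate block -/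
theorem cj_below {u v g : A} {c d : MonoidAlgebra k A}
    (hc : IsBlock (C1 u) c) (hd : IsBlock (C1 v) d) (hcd : cj g d = c)
    {F : MonoidAlgebra (OW p k) ↥(C1 v)}
    (hF : mapRingHom ↥(C1 v) (rdO p k) F * dnr (C1 v) d = mapRingHom ↥(C1 v) (rdO p k) F) :
    mapRingHom ↥(C1 u) (rdO p k) (dnr (C1 u) (cjr g (upr (C1 v) F))) * dnr (C1 u) c
      = mapRingHom ↥(C1 u) (rdO p k) (dnr (C1 u) (cjr g (upr (C1 v) F))) := by
  rw [map_dnr, map_cjr, map_upr]
  have e1 : upr (C1 v) (mapRingHom ↥(C1 v) (rdO p k) F) * d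
      = upr (C1 v) (mapRingHom ↥(C1 v) (rdO p k) F) := by
    have e2 : upr (C1 v) (mapRingHom ↥(C1 v) (rdO p k) F) * upr (C1 v) (dnr (C1 v) d)
        = upr (C1 v) (mapRingHom ↥(C1 v) (rdO p k) F) := by
      rw [← map_mul, hF]
    rwa [upr_blk hd] at e2
  have e3 : cjr g (upr (C1 v) (mapRingHom ↥(C1 v) (rdO p k) F)) * c
      = cjr g (upr (C1 v) (mapRingHom ↥(C1 v) (rdO p k) F)) := by
    rw [← hcd, ← cjr_eq_cj, ← cjr_mul, e1]
  rw [← dnr_mul_upr, upr_blk hc, e3]

/-- the pairs below `b` -/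
structure Pr (p : ℕ) (b : MonoidAlgebra k A) where
  v : A
  c : MonoidAlgebra k A
  pel : ∃ M : ℕ, v ^ p ^ M = 1
  blk : IsBlock (C1 v) c
  below : resS (C1 v : Set A) b * c = c

theorem finite_pr (b : MonoidAlgebra k A) : Finite (Pr p b) := by
  have h1 : Finite (Σ v : A, {c : MonoidAlgebra k A | IsBlock (C1 v) c}) := by
    have : ∀ v : A, Finite {c : MonoidAlgebra k A | IsBlock (C1 v) c} := fun v =>
      (finite_isBlock (C1 v)).to_subtype
    infer_instance
  refine Finite.of_injective (fun x : Pr p b => (⟨x.v, x.c, x.blk⟩ :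
    Σ v : A, {c : MonoidAlgebra k A | IsBlock (C1 v) c})) ?_
  rintro ⟨v, c, h1, h2, h3⟩ ⟨v', c', h1', h2', h3'⟩ h
  simp only [Sigma.mk.injEq] at h
  obtain ⟨rfl, h⟩ := h
  have := congrArg Subtype.val (eq_of_heq h)
  simp only at this
  subst this
  rfl

/-- conjugate pairs -/
def prS (p : ℕ) (b : MonoidAlgebra k A) : Setoid (Pr p b) where
  r x y := ∃ g : A, x.v * g = g * y.v ∧ cj g y.c = x.c
  iseqv := {
    refl := fun x => ⟨1, by rw [one_mul, mul_one], cj_one_left _⟩
    symm := by
      rintro x y ⟨g, h1, h2⟩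
      refine ⟨g⁻¹, ?_, ?_⟩
      · have h3 : x.v = g * y.v * g⁻¹ := by rw [← h1, mul_inv_cancel_right]
        rw [h3]
        group
      · rw [← h2, cj_cj, inv_mul_cancel, cj_one_left]
    trans := by
      rintro x y z ⟨g, h1, h2⟩ ⟨g', h1', h2'⟩
      refine ⟨g * g', ?_, ?_⟩
      · rw [← mul_assoc, h1, mul_assoc, h1', mul_assoc]
      · rw [← cj_cj, h2', h2] }

theorem fix_ge {b : MonoidAlgebra k A} {B : MonoidAlgebra (OW p k) A}
    (hb : IsBlock (⊤ : Subgroup A) b) (hB : CenL b B) (s : Equiv.Perm (IrB B)) {t : ℕ}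
    (ht : t.Coprime p)
    (hs : ∀ (χ : IrB B) (v : A) (M : ℕ), v ^ p ^ M = 1 → ∀ F : MonoidAlgebra (OW p k) A,
      F * F = F → single v 1 * F = F * single v (1 : OW p k) →
      chO (s χ).1 (single v 1 * F) = chO χ.1 (single (v ^ t) 1 * F))
    (hN : ∀ (v g : A) (M : ℕ) (c : MonoidAlgebra k A), v ^ p ^ M = 1 → v ≠ 1 →
      IsBlock (C1 v) c → resS (C1 v : Set A) b * c = c → v ^ t * g = g * v → cj g c ≠ c) :
    Nat.card (Quotient (irrInvSetoid (⊤ : Subgroup A) ⊤ b))
      ≤ Nat.card {χ : IrB B // s χ = χ} := by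
  classical
  have hp : p.Prime := Fact.out
  have := Fintype.ofFinite A
  have hfin := finite_pr (p := p) b
  let R := Quotient (prS p b)
  have : Fintype R := Fintype.ofFinite R
  -- the trivial pair
  have hC1 : C1 (1 : A) = ⊤ := by
    ext x
    rw [mem_C1', one_mul, mul_one]
    simp
  have hres1 : resS (C1 (1 : A) : Set A) b = b := by
    ext x
    rw [coeff_resS_of_mem]
    rw [hC1]
    exact Subgroup.mem_top x
  let x₁ : Pr p b := ⟨1, b, ⟨0, one_pow _⟩, by rw [hC1]; exact hb, by rw [hres1, hb.idem]⟩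
  let r₁ : R := Quotient.mk _ x₁
  have hr₁ : (Quotient.out r₁).v = 1 ∧ (Quotient.out r₁).c = b := by
    obtain ⟨g, h1, h2⟩ : (prS p b).r (Quotient.out r₁) x₁ := Quotient.mk_out x₁
    refine ⟨?_, ?_⟩
    · have h3 : (Quotient.out r₁).v * g = g * 1 := h1
      rw [mul_one] at h3
      exact mul_eq_right.1 h3
    · rw [← h2]
      exact invBy_iff_cj.1 hb.invBy g (Subgroup.mem_top g)
  have hr₁' : ∀ r : R, (Quotient.out r).v = 1 → r = r₁ := by
    intro r hr
    rw [← Quotient.out_eq r]
    refine Quotient.sound ?_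
    change (prS p b).r (Quotient.out r) x₁
    refine ⟨1, by rw [hr, one_mul], ?_⟩
    have h1 := (Quotient.out r).blk
    have h2 := (Quotient.out r).below
    rw [hr] at h1 h2
    rw [hres1] at h2
    rw [hC1] at h1
    change cj 1 b = _
    rw [cj_one_left]
    rcases hb.eq_or_mul_eq_zero h1 with h3 | h3
    · exact h3
    · rw [h3] at h2
      exact absurd h2.symm h1.ne_zero
  -- the idempotents
  have hfam := fun r : R => exists_family (p := p) (dnr (C1 (Quotient.out r).v) (Quotient.out r).c)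
  choose n F hF using hfam
  have hM : ∃ M : ℕ, ∀ v : A, (∃ M : ℕ, v ^ p ^ M = 1) → v ^ p ^ M = 1 := by
    refine ⟨Nat.card A, ?_⟩
    rintro v ⟨M, hM⟩
    have h1 : orderOf v ∣ p ^ M := orderOf_dvd_of_pow_eq_one hM
    obtain ⟨j, -, hj⟩ := (Nat.dvd_prime_pow hp).1 h1
    have h2 : p ^ j ≤ Nat.card A := hj ▸ orderOf_le_card
    have h3 : j ≤ Nat.card A := (Nat.lt_pow_self hp.one_lt).le.trans h2
    exact orderOf_dvd_iff_pow_eq_one.1 (hj ▸ pow_dvd_pow p h3)
  obtain ⟨M, hM⟩ := hM
  have hv : ∀ r : R, (Quotient.out r).v ^ p ^ M = 1 := fun r => hM _ (Quotient.out r).pel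
  have hcomm : ∀ r j, single (Quotient.out r).v 1 * upr (C1 (Quotient.out r).v) (F r j)
      = upr (C1 (Quotient.out r).v) (F r j) * single (Quotient.out r).v (1 : OW p k) :=
    fun r j => single_upr _ _
  have hidem : ∀ r j, upr (C1 (Quotient.out r).v) (F r j) * upr (C1 (Quotient.out r).v) (F r j)
      = upr (C1 (Quotient.out r).v) (F r j) := fun r j => by rw [← map_mul, (hF r).idem]
  let T : ∀ r : R, Fin (n r) → Ir (KW p k) A → KW p k := fun r j χ =>
    chO χ (single (Quotient.out r).v 1 * upr (C1 (Quotient.out r).v) (F r j))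
  let T' : ∀ r : R, Fin (n r) → Ir (KW p k) A → KW p k := fun r j χ =>
    chO χ (upr (C1 (Quotient.out r).v) (F r j) * single (Quotient.out r).v⁻¹ 1)
  have hTz : ∀ r j χ, chO χ B = 0 → T r j χ = 0 := fun r j χ hχ =>
    col_zero hB (hv r) (Quotient.out r).blk (Quotient.out r).below ((hF r).below j)
      ⟨(hF r).idem j, rfl⟩ χ hχ
  have hsum : ∀ (w : Ir (KW p k) A → KW p k) r j, ∑ χ : IrB B, T r j χ.1 * w χ.1
      = ∑ χ, T r j χ * w χ := by
    intro w r j
    symm
    exact sum_irB (fun χ => T r j χ * w χ) fun χ hχ => by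
      rw [hTz r j χ hχ, zero_mul]
  have hCt : ∀ r : R, C1 ((Quotient.out r).v ^ t) = C1 (Quotient.out r).v := by
    intro r
    have h1 : Subgroup.zpowers ((Quotient.out r).v ^ t) = Subgroup.zpowers (Quotient.out r).v := by
      refine le_antisymm ?_ ?_
      · rw [Subgroup.zpowers_le]
        exact (Subgroup.zpowers (Quotient.out r).v).pow_mem (Subgroup.mem_zpowers _) t
      · rw [Subgroup.zpowers_le]
        have h1 : t.Coprime (orderOf (Quotient.out r).v) :=
          Nat.Coprime.coprime_dvd_right (orderOf_dvd_of_pow_eq_one (hv r))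
            (Nat.Coprime.pow_right M ht)
        obtain ⟨j, hj⟩ := exists_pow_eq_self_of_coprime h1
        have h2 : ((Quotient.out r).v ^ t) ^ j ∈ Subgroup.zpowers ((Quotient.out r).v ^ t) :=
          Subgroup.pow_mem _ (Subgroup.mem_zpowers _) _
        rwa [hj] at h2
    rw [← CD_zpowers, h1, CD_zpowers]
  have key := trace_perm (K := KW p k) (I := IrB B) (R := R) (J := fun r => Fin (n r))
    (fun r j χ => T r j χ.1) (fun r j χ => T' r j χ.1) s r₁
    (fun r r' hrr j j' => by
      rw [hsum (fun χ => T' r' j' χ)]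
      refine off_zero (hv r) (hv r') (Quotient.out r).blk (Quotient.out r').blk
        ((hF r).below j) ⟨(hF r).idem j, rfl⟩ ((hF r').below j') ⟨(hF r').idem j', rfl⟩ ?_
      intro g hg hcd
      apply hrr
      rw [← Quotient.out_eq r, ← Quotient.out_eq r']
      exact Quotient.sound ⟨g, hg, hcd⟩)
    (fun r => by
      have e1 := (hF r).gram
      intro h0
      apply e1
      rw [← h0]
      congr 1
      ext j j'
      rw [Matrix.of_apply, Matrix.of_apply, hsum (fun χ => T' r j' χ)]
      symm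
      exact tp_chi_self (p := p) (hv r) sepO (hidem r j) (hidem r j') ((hF r).idem j)
        ((hF r).idem j') (hcomm r j) (hcomm r j') (gap_self _ (F r j) _) (gap_self _ (F r j') _))
    (fun a ha => by
      let a' : Ir (KW p k) A → KW p k := fun χ => if h : chO χ B ≠ 0 then a ⟨χ, h⟩ else 0
      have ha'1 : ∀ χ, chO χ B = 0 → a' χ = 0 := fun χ hχ => by
        simp only [a']
        rw [dif_neg (fun h => h hχ)]
      have ha'2 : ∀ χ : IrB B, a' χ.1 = a χ := fun χ => by
        simp only [a']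
        rw [dif_pos χ.2]
      have hT0 : ∀ r j, ∑ χ, a' χ * T r j χ = 0 := by
        intro r j
        have h1 := hsum a' r j
        simp only [ha'2] at h1
        rw [ha r j] at h1
        rw [h1]
        exact Finset.sum_congr rfl fun χ _ => mul_comm _ _
      have h0 := form_zero (fun g => invBy_iff_cj.1 hb.invBy g (Subgroup.mem_top g)) hb.idem hB
        a' ha'1 (by
          intro v M' hvM c hc hbc E hE hEc
          let x : Pr p b := ⟨v, c, ⟨M', hvM⟩, hc, hbc⟩
          let r : R := Quotient.mk _ x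
          obtain ⟨g, hg, hgc⟩ : (prS p b).r (Quotient.out r) x := Quotient.mk_out x
          obtain ⟨m, hm⟩ := (hF r).span (dnr (C1 (Quotient.out r).v) (cjr g (upr (C1 v) E)))
            (cjr_idem hg hE) (cj_below (Quotient.out r).blk hc hgc hEc)
          have h2 : ∀ χ : Ir (KW p k) A, chO χ (single v 1 * upr (C1 v) E)
              = ∑ j, m j * T r j χ := by
            intro χ
            rw [cj_col hg, col_lin hm]
          simp only [h2, Finset.mul_sum]
          rw [Finset.sum_comm]
          refine Finset.sum_eq_zero fun j _ => ?_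
          have h3 := hT0 r j
          calc ∑ χ, a' χ * (m j * T r j χ) = m j * ∑ χ, a' χ * T r j χ := by
                rw [Finset.mul_sum]
                exact Finset.sum_congr rfl fun χ _ => by ring
            _ = 0 := by rw [h3, mul_zero])
      funext χ
      rw [← ha'2 χ, h0 χ.1]
      rfl)
    (fun j χ => by
      have h1 := hs χ (Quotient.out r₁).v M (hv r₁) (upr (C1 (Quotient.out r₁).v) (F r₁ j))
        (hidem r₁ j) (hcomm r₁ j)
      change chO (s χ).1 (single (Quotient.out r₁).v 1 * upr (C1 (Quotient.out r₁).v) (F r₁ j))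
        = chO χ.1 (single (Quotient.out r₁).v 1 * upr (C1 (Quotient.out r₁).v) (F r₁ j))
      rw [h1]
      congr 3
      rw [hr₁.1, one_pow])
    (fun r hr j j' => by
      have hne : (Quotient.out r).v ≠ 1 := fun h => hr (hr₁' r h)
      have h1 : ∀ χ : IrB B, T r j (s χ).1
          = chO χ.1 (single ((Quotient.out r).v ^ t) 1 * upr (C1 (Quotient.out r).v) (F r j)) :=
        fun χ => hs χ (Quotient.out r).v M (hv r) _ (hidem r j) (hcomm r j)
      have h2 := off_zero' (p := p) (u := (Quotient.out r).v ^ t) (v := (Quotient.out r).v)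
        (M := M) (by rw [← pow_mul, mul_comm, pow_mul, hv r, one_pow]) (hv r) (hCt r)
        (Quotient.out r).blk (Quotient.out r).blk ((hF r).idem j) ((hF r).below j)
        ((hF r).idem j') ((hF r).below j')
        (fun g hg => hN _ g M _ (hv r) hne (Quotient.out r).blk (Quotient.out r).below hg)
      rw [sum_irB (fun χ => chO χ (single ((Quotient.out r).v ^ t) 1 *
        upr (C1 (Quotient.out r).v) (F r j)) * T' r j' χ) fun χ hχ => by
          change chO χ (single ((Quotient.out r).v ^ t) 1 *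
            upr (C1 (Quotient.out r).v) (F r j)) * T' r j' χ = 0
          rw [col_zero' hB (M := M) (by rw [← pow_mul, mul_comm, pow_mul, hv r, one_pow]) (hCt r)
            (Quotient.out r).blk (Quotient.out r).below ((hF r).idem j) ((hF r).below j) χ hχ,
            zero_mul]] at h2
      refine (Finset.sum_congr rfl fun χ _ => ?_).trans h2
      rw [h1])
  have h1 := family_card (Quotient.out r₁).blk (hF r₁)
  rw [hr₁.1, hr₁.2, hC1, ← key] at h1
  refine h1.trans (le_of_eq ?_)
  rw [Nat.card_eq_fintype_card, Fintype.card_subtype]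

end

end Pool.Agent.Lib.P0c8ca5.Ex
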