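import Mathlib
import Pool.Agent.Lib.P0c8ca5Ex.Ut
import Pool.Agent.Lib.P0c8ca5Ex.Loc

/-!
# Wa: the blocks of the centralizers of p-subgroups below `b`

PROOF of `lb_all`. `src_tr`: `b = ∑ q ∈ X, cj q (i * w)`. For a p-subgroup `Q`: `resS C(Q) b = ∑_(q ∈ X, Q ≤ cg q D) resS C(Q) (cj q (i * w))` (a Mackey formula: the terms are permuted by `Q` (left multiplication on `A / D`), use `BrAAux.sum_fixed` of P0c8ca5R.BrA for the coefficient functions `q ↦ (cj q (i * w)).coeff x`, `x ∈ C(Q)`, which is the proof of `resS_sum_cj`). For such `q`: `resS C(Q) (cj q (i * w)) = resS C(Q) (cj q i) * resS C(Q) w` (multiplicative: both InvBy `Q`, `cj q i` is InvBy `cg q D ≥ Q`). Multiply by `c`: `c = ∑ c * resS C(Q) (cj q i) * resS C(Q) w ≠ 0`, so some `q ∈ X` has `Q ≤ cg q D` and `c * resS C(Q) (cj q i) ≠ 0`. Put `R = cg q⁻¹ Q ≤ D`; `resS C(Q) (cj q i) = cj q (resS C(R) i)`; let `d` be the block with `Lb R i d` (`exists_lb`); `cj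 q (resS C(R) i) = cj q (resS C(R) i) * cj q d`, `cj q d` is a block of `CD Q = cg q (CD R)`, so `c * cj q d ≠ 0` and `c = cj q d`.
`lb_dfg`: then `cg g D` is a defect group of `c` (conjugate `Lb.dfg`).
-/

namespace Pool.Agent.Lib.P0c8ca5.Ex

open MonoidAlgebra Rk

variable {p : ℕ} {k : Type*} [Field k] {A : Type*} [Group A]

namespace WaAux

theorem resS_cj_cg (g : A) (L : Subgroup A) (a : MonoidAlgebra k A) :
    resS (cg g L : Set A) (cj g a) = cj g (resS (L : Set A) a) := by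
  ext x
  rw [coeff_cj]
  by_cases hx : x ∈ (cg g L : Set A)
  · have hx' : g⁻¹ * x * g ∈ (L : Set A) := mem_cg.1 hx
    rw [coeff_resS_of_mem _ hx, coeff_resS_of_mem _ hx', coeff_cj]
  · have hx' : g⁻¹ * x * g ∉ (L : Set A) := fun h => hx (mem_cg.2 h)
    rw [coeff_resS_of_notMem _ hx, coeff_resS_of_notMem _ hx']

theorem CD_cg (g : A) (R : Subgroup A) : CD (cg g R) = cg g (CD R) := by
  ext x
  rw [mem_cg, Subgroup.mem_centralizer_iff, Subgroup.mem_centralizer_iff]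
  constructor
  · intro h y hy
    have hy' : g * y * g⁻¹ ∈ (cg g R : Set A) := by
      apply mem_cg.2
      have e : g⁻¹ * (g * y * g⁻¹) * g = y := by group
      rw [e]
      exact hy
    have h1 := h _ hy'
    calc y * (g⁻¹ * x * g) = g⁻¹ * ((g * y * g⁻¹) * x) * g := by group
      _ = g⁻¹ * (x * (g * y * g⁻¹)) * g := by rw [h1]
      _ = g⁻¹ * x * g * y := by group
  · intro h y hy
    have h1 := h _ (mem_cg.1 hy)
    calc y * x = g * ((g⁻¹ * y * g) * (g⁻¹ * x * g)) * g⁻¹ := by group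
      _ = g * ((g⁻¹ * x * g) * (g⁻¹ * y * g)) * g⁻¹ := by rw [h1]
      _ = x * y := by group

theorem cg_inv_cg (g : A) (Q : Subgroup A) : cg g (cg g⁻¹ Q) = Q := by
  rw [cg_cg, mul_inv_cancel, cg_one]

open Classical in
theorem resS_sum_filter [Fact p.Prime] [CharP k p] [Fintype A] {D Q : Subgroup A} {X : Finset A}
    (hX : Reps X ⊤ D) (hQ : IsPGroup p Q) {a : MonoidAlgebra k A} (ha : InvBy D a) :
    resS (CD Q : Set A) (∑ q ∈ X, cj q a) =
      ∑ q ∈ X.filter (fun q => ∀ u ∈ Q, q⁻¹ * u * q ∈ D), resS (CD Q : Set A) (cj q a) := by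
  ext g
  rw [coeff_sum, Finsupp.finsetSum_apply]
  by_cases hg : g ∈ (CD Q : Set A)
  · rw [coeff_resS_of_mem _ hg, coeff_sum, Finsupp.finsetSum_apply,
      BrAAux.sum_fixed (p := p) hX hQ (fun q => (cj q a).coeff g)]
    · refine Finset.sum_congr rfl ?_
      intro q _
      rw [coeff_resS_of_mem _ hg]
    · intro q d hd
      rw [← cj_cj, invBy_iff_cj.1 ha d hd]
    · intro u hu q
      rw [coeff_cj, coeff_cj]
      congr 1
      have := Subgroup.mem_centralizer_iff.1 hg u hu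
      calc (u * q)⁻¹ * g * (u * q) = q⁻¹ * u⁻¹ * (g * u) * q := by group
        _ = q⁻¹ * u⁻¹ * (u * g) * q := by rw [← this]
        _ = q⁻¹ * g * q := by group
  · rw [coeff_resS_of_notMem _ hg]
    symm
    apply Finset.sum_eq_zero
    intro q _
    rw [coeff_resS_of_notMem _ hg]

theorem defect_cg {L D : Subgroup A} {e : MonoidAlgebra k A} (h : IsDefectGroup p L e D) (g : A) :
    IsDefectGroup p (cg g L) (cj g e) (cg g D) where
  le := cg_le_cg h.le
  isPGroup := isPGroup_cg h.isPGroup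
  br := hasBr_cg (P := D) h.br g
  max := by
    intro P hP hPp hbr hDP
    have h1 : cg g⁻¹ P ≤ L := by rw [cg_le_iff, inv_inv]; exact hP
    have h2 : HasBr (cg g⁻¹ P) (cj g⁻¹ (cj g e)) := hasBr_cg hbr g⁻¹
    rw [cj_inv_cj] at h2
    have h3 : D ≤ cg g⁻¹ P := cg_le_iff.1 hDP
    have h4 := h.max _ h1 (isPGroup_cg hPp) h2 h3
    rw [← h4, cg_inv_cg]

end WaAux

open WaAux

section
variable [Fact p.Prime] [CharP k p] [IsAlgClosed k] [Fintype A]
variable {b f i : MonoidAlgebra k A} {D : Subgroup A}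

theorem lb_all (h : Src p b D f i) (hE : ¬ p ∣ eN D f) {Q : Subgroup A} (hQ : IsPGroup p Q)
    {c : MonoidAlgebra k A} (hc : IsBlock (CD Q) c) (hcb : resS (CD Q : Set A) b * c = c) :
    ∃ g : A, ∃ R : Subgroup A, R ≤ D ∧ Q = cg g R ∧ ∃ d, Lb R i d ∧ c = cj g d := by
  classical
  obtain ⟨X, hX⟩ := exists_reps (K := (⊤ : Subgroup A)) (D := D) le_top
  obtain ⟨w, hw, hwb⟩ := src_tr h hE hX
  have hwinv : InvBy (⊤ : Subgroup A) w := (mem_fixAlg.1 hw).2
  have hiinv : InvBy D i := (mem_fixAlg.1 h.prim.mem).2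
  have hiw : InvBy D (i * w) :=
    (mem_fixAlg.1 (Subalgebra.mul_mem (fixAlg k (⊤ : Subgroup A) D) h.prim.mem
      (mem_fixAlg.2 ⟨(mem_fixAlg.1 hw).1, hwinv.mono le_top⟩))).2
  have hcm := mem_fixAlg.1 hc.mem
  have hc1 : ∑ q ∈ X.filter (fun q => ∀ u ∈ Q, q⁻¹ * u * q ∈ D),
      resS (CD Q : Set A) (cj q (i * w)) * c = c := by
    rw [← Finset.sum_mul, ← resS_sum_filter hX hQ hiw, hwb, hcb]
  have hne : ∑ q ∈ X.filter (fun q => ∀ u ∈ Q, q⁻¹ * u * q ∈ D),
      resS (CD Q : Set A) (cj q (i * w)) * c ≠ 0 := by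
    rw [hc1]
    exact hc.ne_zero
  obtain ⟨q, hq, hq0⟩ := Finset.exists_ne_zero_of_sum_ne_zero hne
  have hqQ := (Finset.mem_filter.1 hq).2
  have hR : cg q⁻¹ Q ≤ D := by
    intro x hx
    have h1 := mem_cg.1 hx
    have h2 := hqQ _ h1
    have e : q⁻¹ * ((q⁻¹)⁻¹ * x * q⁻¹) * q = x := by group
    rwa [e] at h2
  have hQR : Q = cg q (cg q⁻¹ Q) := (cg_inv_cg q Q).symm
  have hQD : Q ≤ cg q D := by
    rw [hQR]
    exact cg_le_cg hR
  have hCQ : CD Q = cg q (CD (cg q⁻¹ Q)) := by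
    rw [← CD_cg, cg_inv_cg]
  have hi1 : InvBy Q (cj q i) := (invBy_cg hiinv q).mono hQD
  have hw1 : InvBy Q (cj q w) := by
    have h1 := invBy_iff_cj.1 hwinv q (Subgroup.mem_top _)
    rw [h1]
    exact hwinv.mono le_top
  have hq1 : resS (CD Q : Set A) (cj q i) * c ≠ 0 := by
    intro h0
    apply hq0
    have hcomm : resS (CD Q : Set A) (cj q w) * c = c * resS (CD Q : Set A) (cj q w) :=
      commute_of (K := CD Q) resS_suppIn hcm.2
    rw [cj_mul, resS_mul hQ hi1 hw1, mul_assoc, hcomm, ← mul_assoc, h0, zero_mul]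
  have hri : resS (CD Q : Set A) (cj q i) = cj q (resS (CD (cg q⁻¹ Q) : Set A) i) := by
    rw [hCQ, resS_cj_cg]
  obtain ⟨d, hd⟩ := exists_lb h hR
  have hdb : IsBlock (CD Q) (cj q d) := by
    rw [hCQ]
    exact isBlock_cg hd.blk q
  refine ⟨q, cg q⁻¹ Q, hR, hQR, d, hd, ?_⟩
  rcases hdb.eq_or_mul_eq_zero hc with h1 | h1
  · exact h1.symm
  · exfalso
    apply hq1
    rw [hri, ← hd.ic, cj_mul, mul_assoc, h1, mul_zero]

theorem lb_dfg (h : Src p b D f i) (hE : ¬ p ∣ eN D f) {Q : Subgroup A} (hQ : IsPGroup p Q)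
    {c : MonoidAlgebra k A} (hc : IsBlock (CD Q) c) (hcb : resS (CD Q : Set A) b * c = c) :
    ∃ g : A, Q ≤ cg g D ∧ IsDefectGroup p (CD Q) c (cg g D) := by
  obtain ⟨g, R, hR, hQR, d, hd, hcd⟩ := lb_all h hE hQ hc hcb
  refine ⟨g, ?_, ?_⟩
  · rw [hQR]
    exact cg_le_cg hR
  · rw [hcd, hQR, CD_cg]
    exact defect_cg (Lb.dfg h hR hd) g

end

end Pool.Agent.Lib.P0c8ca5.Ex
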