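import Mathlib
import Pool.Agent.Lib.P0c8ca5Ex.NL
import Pool.Agent.Lib.P0c8ca5Ex.Wa

/-!
# GH: no Galois automorphism of large order fixes a pair `(v, c)` with `v ≠ 1`

`no_gal`: `D` abelian, `eN D f < p - 1`, `t` of order at least `p - 1` modulo `p`, `v ≠ 1` a
`p`-element, `c` a block of `C(v)` below `b`. Then `(v ^ t, c)` is not conjugate to `(v, c)`.
-/

set_option linter.unusedSectionVars false

namespace Pool.Agent.Lib.P0c8ca5.Ex

open MonoidAlgebra

variable {p : ℕ} [Fact p.Prime] {k : Type*} [Field k] [IsAlgClosed k] [CharP k p]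
  {A : Type*} [Group A] [Finite A] {b f i : MonoidAlgebra k A} {D : Subgroup A}

theorem C1_conj_pow {u y : A} {t : ℕ} (h : u ^ t * y = y * u) : C1 (u ^ t) = C1 u := by
  have h1 : u ^ t = y * u * y⁻¹ := by rw [← h, mul_inv_cancel_right]
  have h2 : orderOf (u ^ t) = orderOf u := by
    rw [h1]
    exact (MulAut.conj y).orderOf_eq u
  have h3 : Subgroup.zpowers (u ^ t) = Subgroup.zpowers u := by
    refine Subgroup.eq_of_le_of_card_ge ?_ ?_
    · rw [Subgroup.zpowers_le]
      exact (Subgroup.zpowers u).pow_mem (Subgroup.mem_zpowers u) t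
    · rw [Nat.card_zpowers, Nat.card_zpowers, h2]
  rw [← CD_zpowers, h3, CD_zpowers]

theorem conj_pow_iter {u e : A} {t : ℕ} (h : u ^ t * e = e * u) (n : ℕ) :
    u ^ t ^ n * e ^ n = e ^ n * u := by
  induction n with
  | zero => rw [pow_zero, pow_zero, pow_one, mul_one, one_mul]
  | succ n ih =>
    have h1 : ∀ l : ℕ, (u ^ t) ^ l * e = e * u ^ l := by
      intro l
      induction l with
      | zero => rw [pow_zero, pow_zero, mul_one, one_mul]
      | succ l il => rw [pow_succ, mul_assoc, h, ← mul_assoc, il, mul_assoc, ← pow_succ]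
    rw [show t ^ (n + 1) = t * t ^ n by ring, pow_mul, pow_succ' e, ← mul_assoc, h1, mul_assoc, ih,
      ← mul_assoc]

theorem no_gal (h : Src p b D f i) (hE : eN D f < p - 1) {t : ℕ}
    (ht : ∀ n : ℕ, 0 < n → p ∣ t ^ n - 1 → p - 1 ≤ n) {v g : A} {M : ℕ} (hv : v ^ p ^ M = 1)
    (hv1 : v ≠ 1) {c : MonoidAlgebra k A} (hc : IsBlock (C1 v) c)
    (hbc : resS (C1 v : Set A) b * c = c) (hg : v ^ t * g = g * v) : cj g c ≠ c := by
  intro hgc
  have hp : p.Prime := Fact.out
  have hE0 : eN D f ≠ 0 := by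
    have := Subgroup.isFiniteRelIndex_of_finiteIndex (H := CD D) (K := St D f)
    exact Subgroup.relIndex_ne_zero
  have hpE : ¬ p ∣ eN D f := fun h1 => by
    have := Nat.le_of_dvd (Nat.pos_of_ne_zero hE0) h1
    omega
  have hQ : IsPGroup p (Subgroup.zpowers v) := by
    intro x
    obtain ⟨n, hn⟩ := x.2
    refine ⟨M, ?_⟩
    ext
    rw [Subgroup.coe_pow, ← hn, Subgroup.coe_one]
    change (v ^ n) ^ p ^ M = 1
    rw [← zpow_natCast, ← zpow_mul, mul_comm, zpow_mul, zpow_natCast, hv, one_zpow]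
  have := Fintype.ofFinite A
  obtain ⟨x, R, hR, hQR, d, hd, hcd⟩ := lb_all h hpE hQ (c := c)
    (by rw [CD_zpowers]; exact hc) (by rw [CD_zpowers]; exact hbc)
  set u : A := x⁻¹ * v * x with hu
  have huR : u ∈ R := by
    have h1 : v ∈ cg x R := by
      rw [← hQR]
      exact Subgroup.mem_zpowers v
    exact mem_cg.1 h1
  have hvx : v * x = x * u := by rw [hu]; group
  have hRu : R = Subgroup.zpowers u := by
    have h1 : cg x (Subgroup.zpowers u) = Subgroup.zpowers v := cg_zp hvx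
    rw [hQR] at h1
    have h2 : cg x⁻¹ (cg x (Subgroup.zpowers u)) = cg x⁻¹ (cg x R) := by rw [h1]
    rw [cg_cg, cg_cg, inv_mul_cancel, cg_one, cg_one] at h2
    exact h2.symm
  subst hRu
  have huD : u ∈ D := hR (Subgroup.mem_zpowers u)
  have hdH : LbH (C1 u) i d := hd.toH (CD_zpowers u)
  have hy : u ^ t * (x⁻¹ * g * x) = (x⁻¹ * g * x) * u := by
    have h1 : u ^ t = x⁻¹ * v ^ t * x := by
      rw [hu]
      have h2 := conj_pow (a := x⁻¹) (b := v) (i := t)
      rw [inv_inv] at h2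
      exact h2
    calc u ^ t * (x⁻¹ * g * x) = x⁻¹ * (v ^ t * g) * x := by rw [h1]; group
      _ = x⁻¹ * (g * v) * x := by rw [hg]
      _ = _ := by rw [hu]; group
  have hyd : cj (x⁻¹ * g * x) d = d := by
    rw [hcd, cj_cj] at hgc
    rw [mul_assoc, ← cj_cj, hgc, cj_cj, inv_mul_cancel, cj_one_left]
  have hC := C1_conj_pow hy
  have hutD : u ^ t ∈ D := D.pow_mem huD t
  have hdt : LbH (C1 (u ^ t)) i d := by
    rw [hC]
    exact hdH
  obtain ⟨e, he, hue⟩ := fus_elt h hutD huD hy hdt hdH hyd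
  obtain ⟨n, hn0, hn, hen⟩ := Subgroup.exists_pow_mem_of_relIndex_ne_zero hE0 he
  have h1 := conj_pow_iter hue n
  have h2 : e ^ n * u = u * e ^ n := ((Subgroup.mem_centralizer_iff.1 hen.1) u huD).symm
  rw [h2] at h1
  have h3 : u ^ t ^ n = u := mul_right_cancel h1
  have hu1 : u ≠ 1 := by
    intro h4
    rw [h4, mul_one] at hvx
    exact hv1 (mul_eq_right.1 hvx)
  have h5 : p ∣ t ^ n - 1 := by
    rcases Nat.eq_zero_or_pos (t ^ n) with h6 | h6
    · rw [h6]
      exact dvd_zero _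
    · have h7 : u ^ (t ^ n - 1) = 1 := by
        have h8 : u ^ (t ^ n - 1) * u = u := by
          rw [← pow_succ, Nat.sub_add_cancel h6, h3]
        exact mul_eq_right.1 h8
      obtain ⟨m, hm⟩ := h.root.dfg.isPGroup ⟨u, huD⟩
      have h9 : u ^ p ^ m = 1 := congrArg Subtype.val hm
      have h10 : p ∣ orderOf u := by
        obtain ⟨l, -, hl⟩ := (Nat.dvd_prime_pow hp).1 (orderOf_dvd_of_pow_eq_one h9)
        rcases Nat.eq_zero_or_pos l with h11 | h11
        · rw [h11, pow_zero, orderOf_eq_one_iff] at hl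
          exact absurd hl hu1
        · rw [hl]
          exact dvd_pow_self p h11.ne'
      exact h10.trans (orderOf_dvd_of_pow_eq_one h7)
  have h6 := ht n hn0 h5
  have h7 : n ≤ eN D f := hn
  omega

end Pool.Agent.Lib.P0c8ca5.Ex
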