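import Pool.Agent.Lib.P0c8ca5Ex.R2

/-!
# Integral rows on a part of the group

The relative form of `rows`: the places `u ≠ 1` are replaced by a set of places `P` which contains
with `u` the generators of the same cyclic group.
-/

set_option autoImplicit false
set_option linter.unusedSectionVars false

namespace Pool.Agent.Lib.P0c8ca5.Ex

section

variable {D : Type*} [CommGroup D] [Fintype D] {K : Type*} [Field K] [CharZero K]
  [HasEnoughRootsOfUnity K (Monoid.exponent D)]

/-- **integral rows, relative form** -/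
theorem rowsP {p : ℕ} (hp : p.Prime) (hp2 : p ≠ 2) (hD : IsPGroup p D) {e : ℕ} (he : ¬ p ∣ e)
    {P : D → Prop} (hP : ∀ u v, Subgroup.zpowers v = Subgroup.zpowers u → P u → P v)
    {n : D → ℤ} (hn : ∀ u, P u → (p : ℤ) ∣ n u ^ 2 - 1)
    (hnc : ∀ u v, Subgroup.zpowers v = Subgroup.zpowers u → n v = n u)
    {π : D → K} (hπ : π ∈ vir D K) (hπn : ∀ u, P u → π u = (e : K) * (n u : K) ^ 2)
    {θ : D → K} (hθ : θ ∈ vir D K) {f : D → K} (hf : ∀ u, P u → θ u = (n u : K) * f u)
    (hfl : ∀ u, P u → ∃ β ∈ vir D K, ∀ v, Subgroup.zpowers v = Subgroup.zpowers u → f v = β v) :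
    ∃ ψ ∈ vir D K, ∀ u, P u → ψ u = (sg p (n u) : K) * f u := by
  classical
  have := Fact.mk hp
  obtain ⟨d, hd⟩ := IsPGroup.iff_card.1 hD
  rw [Nat.card_eq_fintype_card] at hd
  -- the inverse of `e`
  obtain ⟨q, hq⟩ : ∃ q : ℤ, (p : ℤ) ^ (d + 1) ∣ q * e - 1 := by
    have hc : IsCoprime (e : ℤ) ((p : ℤ) ^ (d + 1)) := by
      have : Nat.Coprime e p := (Nat.Prime.coprime_iff_not_dvd hp).2 he |>.symm
      exact (Nat.isCoprime_iff_coprime.2 this).pow_right
    obtain ⟨a, b, hab⟩ := hc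
    exact ⟨a, -b, by linarith⟩
  choose! w hw using fun m (hm : (p : ℤ) ∣ m ^ 2 - 1) => root_arith hp hp2 d (e := e) hq hm
  set t : ℕ := (p ^ d - 1) / 2 with ht
  set s : D → K := (q • π) ^ t with hs
  have hsv : s ∈ vir D K := (vir D K).pow_mem (zsmul_mem hπ q) t
  set r : D → K := fun u => if P u then -((p : K) * (w (n u) : K)) * f u else 0 with hr
  have hrl : Loc r := by
    intro u
    by_cases hu : P u
    · obtain ⟨β, hβ, hβ'⟩ := hfl u hu
      refine ⟨(-((p : ℤ) * w (n u))) • β, zsmul_mem hβ _, fun v hv => ?_⟩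
      have hv1 : P v := hP u v hv hu
      rw [hr]
      simp only [hv1, if_true, Pi.smul_apply, zsmul_eq_mul]
      rw [hβ' v hv, hnc u v hv]
      push_cast
      ring
    · refine ⟨0, (vir D K).zero_mem, fun v hv => ?_⟩
      have hv1 : ¬ P v := fun h => hu (hP v u hv.symm h)
      rw [hr]
      simp [hv1]
  refine ⟨s * θ + fun u => (Fintype.card D : K) * r u,
    (vir D K).add_mem ((vir D K).mul_mem hsv hθ) hrl.card_mul, fun u hu => ?_⟩
  have h1 : s u = (((q * (e * n u ^ 2)) ^ t : ℤ) : K) := by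
    rw [hs, Pi.pow_apply, Pi.smul_apply, hπn u hu, zsmul_eq_mul]
    push_cast
    ring
  have h2 := hw (n u) (hn u hu)
  have h3 : (((q * (e * n u ^ 2)) ^ t : ℤ) : K) * (n u : K) =
      (sg p (n u) : K) + (p : K) ^ (d + 1) * (w (n u) : K) := by
    have h4 : (q * (e * n u ^ 2)) ^ t * n u = sg p (n u) + (p : ℤ) ^ (d + 1) * w (n u) := by
      linarith
    exact_mod_cast congrArg (Int.cast : ℤ → K) h4
  rw [Pi.add_apply, Pi.mul_apply, h1, hf u hu, ← mul_assoc, h3, hr, hd]
  simp only [hu, if_true]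
  push_cast
  ring

end

end Pool.Agent.Lib.P0c8ca5.Ex
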