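import Pool.Agent.Lib.P0c8ca5Ex.R7

/-!
# The number of rows, relative form

`q` is an idempotent endomorphism of the finite abelian group `T`, `E` a group of automorphisms of
`T` of order prime to `|T|` which commute with `q` and act freely on the places `u` with
`q u ≠ u`. The rows `g i` are virtual characters, `E`-invariant and orthogonal on these places,
and no row vanishes on all of them. Then
`|I| |E| ≤ (|T| - |q T|) + ∑ u ∈ q T, |C_E u| ^ 2`.
-/

set_option autoImplicit false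
set_option linter.unusedSectionVars false

namespace Pool.Agent.Lib.P0c8ca5.Ex

section

variable {T : Type*} [CommGroup T] [Fintype T] {K : Type*} [Field K] [CharZero K]
  [HasEnoughRootsOfUnity K (Monoid.exponent T)]

/-- the differences of multiplicities -/
noncomputable def dq (q : T →* T) (g : T → K) (l : T →* Kˣ) : K := mlt g l - mlt g (l.comp q)

omit [CharZero K] [HasEnoughRootsOfUnity K (Monoid.exponent T)] in
theorem dq_eq (q : T →* T) (g : T → K) (l : T →* Kˣ) :
    dq q g l = (Fintype.card T : K)⁻¹ * ∑ u, g u * (chr l u⁻¹ - chr l (q u)⁻¹) := by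
  unfold dq mlt
  rw [← mul_sub, ← Finset.sum_sub_distrib]
  congr 1
  refine Finset.sum_congr rfl fun u _ => ?_
  have h1 : chr (l.comp q) u⁻¹ = chr l (q u)⁻¹ := by
    simp [chr]
  rw [h1]
  ring

omit [CharZero K] [HasEnoughRootsOfUnity K (Monoid.exponent T)] in
theorem dq_eq' (q : T →* T) (g : T → K) (l : T →* Kˣ) :
    dq q g l = (Fintype.card T : K)⁻¹ * ∑ u, g u⁻¹ * (chr l u - chr l (q u)) := by
  rw [dq_eq, ← Equiv.sum_comp (Equiv.inv T)]
  simp only [Equiv.inv_apply, inv_inv, map_inv]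

omit [CharZero K] [HasEnoughRootsOfUnity K (Monoid.exponent T)] in
theorem dl_comp {q : T →* T} {φ : MulAut T} (h : ∀ u, φ (q u) = q (φ u)) (l : T →* Kˣ) :
    (dl l φ).comp q = dl (l.comp q) φ := by
  ext u
  change ((l (φ (q u)) : Kˣ) : K) = ((l (q (φ u)) : Kˣ) : K)
  rw [h]

omit [CharZero K] [HasEnoughRootsOfUnity K (Monoid.exponent T)] in
theorem dl_inj (φ : MulAut T) {l m : T →* Kˣ} (h : dl l φ = dl m φ) : l = m := by
  ext u
  have h1 := DFunLike.congr_fun h (φ⁻¹ u)
  change l (φ (φ⁻¹ u)) = m (φ (φ⁻¹ u)) at h1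
  rw [MulAut.apply_inv_self] at h1
  rw [h1]

omit [CharZero K] [HasEnoughRootsOfUnity K (Monoid.exponent T)] in
/-- freeness on the dual group -/
theorem dl_freeQ {q : T →* T} (hq : ∀ u, q (q u) = q u) {φ : MulAut T}
    (hqφ : ∀ u, φ (q u) = q (φ u)) (hφ : φ ≠ 1 → ∀ u, q u ≠ u → φ u ≠ u) {l : T →* Kˣ}
    (hl : l.comp q ≠ l) (h : dl l φ = l) : φ = 1 := by
  by_contra hφ1
  have hmem : ∀ u : q.ker, (u : T)⁻¹ * φ u ∈ q.ker := by
    intro u
    have h1 : q (u : T) = 1 := u.2
    rw [MonoidHom.mem_ker, map_mul, map_inv, ← hqφ, h1, map_one, inv_one, mul_one]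
  have hinj : Function.Injective (fun u : q.ker => (⟨(u : T)⁻¹ * φ u, hmem u⟩ : q.ker)) := by
    intro u v huv
    have h1 : (u : T)⁻¹ * φ u = (v : T)⁻¹ * φ v := congrArg Subtype.val huv
    have h2 : φ ((u : T) * (v : T)⁻¹) = (u : T) * (v : T)⁻¹ := by
      rw [map_mul, map_inv]
      have h3 : φ (u : T) = u * ((v : T)⁻¹ * φ v) := by rw [← h1]; group
      rw [h3]
      group
    by_contra hne
    refine hφ hφ1 ((u : T) * (v : T)⁻¹) ?_ h2
    intro h3
    have h4 : q ((u : T) * (v : T)⁻¹) = 1 := (q.ker.mul_mem u.2 (q.ker.inv_mem v.2))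
    rw [h4] at h3
    exact hne (Subtype.ext (mul_inv_eq_one.1 h3.symm))
  have hsurj := Finite.surjective_of_injective hinj
  have hker : ∀ w ∈ q.ker, l w = 1 := by
    intro w hw
    obtain ⟨u, hu⟩ := hsurj ⟨w, hw⟩
    have h1 := DFunLike.congr_fun h (u : T)
    have h2 : dl l φ (u : T) = l (φ u) := rfl
    have h3 : (u : T)⁻¹ * φ u = w := congrArg Subtype.val hu
    rw [← h3, map_mul, map_inv, ← h2, h1, inv_mul_cancel]
  apply hl
  ext x
  have h1 : (q x)⁻¹ * x ∈ q.ker := by
    rw [MonoidHom.mem_ker, map_mul, map_inv, hq, inv_mul_cancel]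
  have h2 := hker _ h1
  rw [map_mul, map_inv, inv_mul_eq_one] at h2
  rw [MonoidHom.comp_apply, h2]

omit [CharZero K] [HasEnoughRootsOfUnity K (Monoid.exponent T)] in
theorem dq_dl {q : T →* T} {φ : MulAut T} (hqφ : ∀ u, φ (q u) = q (φ u)) (g : T → K)
    (l : T →* Kˣ) (h : ∀ u : T, q u ≠ u → g (φ u) = g u) : dq q g (dl l φ) = dq q g l := by
  rw [dq_eq, dq_eq]
  congr 1
  rw [← Equiv.sum_comp (φ : T ≃* T).toEquiv (fun u => g u * (chr l u⁻¹ - chr l (q u)⁻¹))]
  refine Finset.sum_congr rfl fun u _ => ?_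
  change g u * (chr (dl l φ) u⁻¹ - chr (dl l φ) (q u)⁻¹)
    = g (φ u) * (chr l (φ u)⁻¹ - chr l (q (φ u))⁻¹)
  have h1 : chr (dl l φ) u⁻¹ = chr l (φ u)⁻¹ := by rw [chr_dl, map_inv]
  have h2 : chr (dl l φ) (q u)⁻¹ = chr l (φ (q u))⁻¹ := by rw [chr_dl, map_inv]
  rw [h1, h2, ← hqφ]
  by_cases hu : q u = u
  · rw [hu, sub_self, mul_zero, mul_zero]
  · rw [h u hu]

theorem dq_ne {q : T →* T} (hq : ∀ u, q (q u) = q u) {g : T → K} {u : T} (hu : q u ≠ u)
    (hg : g u ≠ 0) : ∃ l : T →* Kˣ, l.comp q ≠ l ∧ dq q g l ≠ 0 := by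
  by_contra h
  push Not at h
  have h1 : ∀ l : T →* Kˣ, mlt g l = mlt g (l.comp q) := by
    intro l
    by_cases hl : l.comp q = l
    · rw [hl]
    · exact sub_eq_zero.1 (h l hl)
  -- a character which is trivial on the image of `q` and not at `u`
  obtain ⟨m, hm⟩ := CommGroup.exists_apply_ne_one_of_hasEnoughRootsOfUnity T K
    (a := (q u)⁻¹ * u) (fun h2 => hu (inv_mul_eq_one.1 h2))
  set ν : T →* Kˣ := (m.comp q)⁻¹ * m with hν
  have hνq : ∀ v, ν (q v) = 1 := by
    intro v
    rw [hν, MonoidHom.mul_apply, MonoidHom.inv_apply, MonoidHom.comp_apply, hq, inv_mul_cancel]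
  have hνu : ν u ≠ 1 := by
    rw [hν, MonoidHom.mul_apply, MonoidHom.inv_apply, MonoidHom.comp_apply, ← map_inv, ← map_mul]
    exact hm
  have h3 : g u = chr ν u * g u := by
    conv_rhs => rw [eq_sum_mlt g u, Finset.mul_sum]
    conv_lhs => rw [eq_sum_mlt g u, ← Equiv.sum_comp (Equiv.mulLeft ν)]
    refine Finset.sum_congr rfl fun l _ => ?_
    rw [Equiv.coe_mulLeft, h1 (ν * l), h1 l]
    have h4 : (ν * l).comp q = l.comp q := by
      ext v
      rw [MonoidHom.comp_apply, MonoidHom.mul_apply, hνq, one_mul, MonoidHom.comp_apply]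
    rw [h4, chr_mul, Pi.mul_apply]
    ring
  have h4 : (1 - chr ν u) * g u = 0 := by
    rw [sub_mul, one_mul, ← h3, sub_self]
  rcases mul_eq_zero.1 h4 with h5 | h5
  · apply hνu
    ext
    rw [Units.val_one]
    exact (sub_eq_zero.1 h5).symm
  · exact hg h5

omit [CharZero K] [HasEnoughRootsOfUnity K (Monoid.exponent T)] in
/-- the sum over the orbit of a place with trivial stabilizer -/
theorem sum_orbitQ (E : Subgroup (MulAut T)) [Fintype E] {u : T}
    (hE : ∀ φ ∈ E, φ u = u → φ = 1) (F : T → K) (hF : ∀ v, (¬ ∃ φ ∈ E, v = φ u) → F v = 0) :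
    ∑ v, F v = ∑ φ : E, F ((φ : MulAut T) u) := by
  classical
  have hinj : Function.Injective fun φ : E => (φ : MulAut T) u := by
    intro φ ψ h
    have h1 : ((ψ : MulAut T)⁻¹ * (φ : MulAut T)) u = u := by
      rw [MulAut.mul_apply, show (φ : MulAut T) u = (ψ : MulAut T) u from h, MulAut.inv_apply_self]
    have h2 := hE _ (E.mul_mem (E.inv_mem ψ.2) φ.2) h1
    exact Subtype.ext (inv_mul_eq_one.1 h2).symm
  rw [← Finset.sum_image (f := F) (s := Finset.univ) (g := fun φ : E => (φ : MulAut T) u)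
    (fun x _ y _ h => hinj h)]
  refine (Finset.sum_subset (Finset.subset_univ _) fun v _ hv => hF v ?_).symm
  rintro ⟨φ, hφ, rfl⟩
  exact hv (Finset.mem_image.2 ⟨⟨φ, hφ⟩, Finset.mem_univ _, rfl⟩)

open Classical in
/-- the Gram matrix of the differences -/
theorem gramQ (E : Subgroup (MulAut T)) [Fintype E] {q : T →* T} (hq : ∀ u, q (q u) = q u)
    (hqE : ∀ φ ∈ E, ∀ u, φ (q u) = q (φ u)) (hE : ∀ φ ∈ E, ∀ u, q u ≠ u → φ u = u → φ = 1)
    {I : Type*} [Fintype I] (g : I → T → K)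
    (horth : ∀ u v : T, q u ≠ u → q v ≠ v → (∃ φ ∈ E, v = φ u) →
      ∑ i, g i u * g i v⁻¹ = (Fintype.card T : K))
    (horth0 : ∀ u v : T, q u ≠ u → q v ≠ v → (¬ ∃ φ ∈ E, v = φ u) → ∑ i, g i u * g i v⁻¹ = 0)
    {l m : T →* Kˣ} (hl : l.comp q ≠ l) (hm : m.comp q ≠ m) :
    ∑ i, dq q (g i) l * dq q (g i) m = ∑ φ : E,
      ((if dl m (φ : MulAut T) = l then 1 else 0)
        + (if dl (m.comp q) (φ : MulAut T) = l.comp q then 1 else 0)) := by
  set c : K := (Fintype.card T : K)⁻¹ with hc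
  have h1 : ∑ i, dq q (g i) l * dq q (g i) m =
      c * c * ∑ u, ∑ v, (chr l u⁻¹ - chr l (q u)⁻¹) * (chr m v - chr m (q v))
        * ∑ i, g i u * g i v⁻¹ := by
    have h2 : ∀ i, dq q (g i) l * dq q (g i) m =
        c * c * ∑ u, ∑ v, (chr l u⁻¹ - chr l (q u)⁻¹) * (chr m v - chr m (q v))
          * (g i u * g i v⁻¹) := by
      intro i
      rw [dq_eq, dq_eq', mul_mul_mul_comm, Finset.sum_mul_sum]
      congr 1
      refine Finset.sum_congr rfl fun u _ => Finset.sum_congr rfl fun v _ => ?_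
      ring
    rw [Finset.sum_congr rfl fun i _ => h2 i, ← Finset.mul_sum, Finset.sum_comm]
    congr 1
    refine Finset.sum_congr rfl fun u _ => ?_
    rw [Finset.sum_comm]
    refine Finset.sum_congr rfl fun v _ => ?_
    rw [Finset.mul_sum]
  have h3 : ∀ u : T, ∑ v, (chr l u⁻¹ - chr l (q u)⁻¹) * (chr m v - chr m (q v))
        * ∑ i, g i u * g i v⁻¹ =
      (Fintype.card T : K) * ∑ φ : E, (chr l u⁻¹ - chr l (q u)⁻¹)
        * (chr (dl m (φ : MulAut T)) u - chr (dl m (φ : MulAut T)) (q u)) := by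
    intro u
    by_cases hu : q u = u
    · have h4 : chr l u⁻¹ - chr l (q u)⁻¹ = 0 := by rw [hu, sub_self]
      rw [Finset.sum_eq_zero (fun v _ => by rw [h4]; ring),
        Finset.sum_eq_zero (fun v _ => by rw [h4]; ring), mul_zero]
    · rw [sum_orbitQ E (fun φ hφ => hE φ hφ u hu) _ ?_, Finset.mul_sum]
      · refine Finset.sum_congr rfl fun φ _ => ?_
        have h5 : q ((φ : MulAut T) u) ≠ (φ : MulAut T) u := by
          rw [← hqE φ φ.2]
          exact fun h => hu ((φ : MulAut T).injective h)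
        rw [horth u ((φ : MulAut T) u) hu h5 ⟨φ, φ.2, rfl⟩, ← hqE φ φ.2, chr_dl, chr_dl]
        ring
      · intro v hv
        by_cases hv1 : q v = v
        · rw [hv1, sub_self, mul_zero, zero_mul]
        · rw [horth0 u v hu hv1 hv, mul_zero]
  rw [h1, Finset.sum_congr rfl fun u _ => h3 u, ← Finset.mul_sum, Finset.sum_comm]
  have h10 : ∀ φ : E, ∑ u, (chr l u⁻¹ - chr l (q u)⁻¹)
        * (chr (dl m (φ : MulAut T)) u - chr (dl m (φ : MulAut T)) (q u)) =
      (Fintype.card T : K) * ((if dl m (φ : MulAut T) = l then 1 else 0)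
        + (if dl (m.comp q) (φ : MulAut T) = l.comp q then 1 else 0)) := by
    intro φ
    set m' : T →* Kˣ := dl m (φ : MulAut T) with hm'
    have hmq : m'.comp q = dl (m.comp q) (φ : MulAut T) := dl_comp (hqE φ φ.2) m
    have hm2 : m'.comp q ≠ m' := by
      rw [hmq]
      exact fun h => hm (dl_inj _ h)
    have h11 : ∀ u, (chr l u⁻¹ - chr l (q u)⁻¹) * (chr m' u - chr m' (q u)) =
        chr m' u * chr l u⁻¹ - chr (m'.comp q) u * chr l u⁻¹ - chr m' u * chr (l.comp q) u⁻¹
          + chr (m'.comp q) u * chr (l.comp q) u⁻¹ := by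
      intro u
      have h20 : chr (l.comp q) u⁻¹ = chr l (q u)⁻¹ := by simp [chr]
      have h21 : chr (m'.comp q) u = chr m' (q u) := rfl
      rw [h20, h21]
      ring
    have h12 : ∀ a b : T →* Kˣ, ∑ u, chr a u * chr b u⁻¹ =
        (Fintype.card T : K) * (if a = b then 1 else 0) := by
      intro a b
      rw [← mlt_chr a b]
      unfold mlt
      rw [← mul_assoc, mul_inv_cancel₀ card_ne, one_mul]
    have h13 : m'.comp q ≠ l := by
      intro h
      apply hl
      rw [← h]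
      ext u
      rw [MonoidHom.comp_apply, MonoidHom.comp_apply, MonoidHom.comp_apply, hq]
    have h14 : m' ≠ l.comp q := by
      intro h
      apply hm2
      rw [h]
      ext u
      rw [MonoidHom.comp_apply, MonoidHom.comp_apply, MonoidHom.comp_apply, hq]
    rw [Finset.sum_congr rfl fun u _ => h11 u, Finset.sum_add_distrib, Finset.sum_sub_distrib,
      Finset.sum_sub_distrib, h12, h12, h12, h12, if_neg h13, if_neg h14, hmq]
    ring
  rw [Finset.sum_congr rfl fun φ _ => h10 φ, ← Finset.mul_sum]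
  have h15 : c * (Fintype.card T : K) = 1 := inv_mul_cancel₀ card_ne
  calc _ = (c * (Fintype.card T : K)) * (c * (Fintype.card T : K)) *
      ∑ φ : E, ((if dl m (φ : MulAut T) = l then 1 else 0)
        + (if dl (m.comp q) (φ : MulAut T) = l.comp q then 1 else 0)) := by ring
    _ = _ := by rw [h15, one_mul, one_mul]

open Classical in
/-- the elements of `E` mapping `μ` to a point of its orbit -/
theorem card_fiber (E : Subgroup (MulAut T)) [Fintype E] {μ μ' : T →* Kˣ}
    (h : ∃ φ : E, dl μ (φ : MulAut T) = μ') :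
    (Finset.univ.filter fun φ : E => dl μ (φ : MulAut T) = μ').card
      = (Finset.univ.filter fun φ : E => dl μ' (φ : MulAut T) = μ').card := by
  obtain ⟨φ₀, h0⟩ := h
  symm
  refine Finset.card_bij (fun φ _ => φ₀ * φ) ?_ ?_ ?_
  · intro φ hφ
    rw [Finset.mem_filter] at hφ ⊢
    refine ⟨Finset.mem_univ _, ?_⟩
    rw [Subgroup.coe_mul, dl_mul, h0]
    exact hφ.2
  · intro φ _ ψ _ h1
    exact mul_left_cancel h1
  · intro ψ hψ
    rw [Finset.mem_filter] at hψ
    refine ⟨φ₀⁻¹ * ψ, ?_, mul_inv_cancel_left _ _⟩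
    rw [Finset.mem_filter]
    refine ⟨Finset.mem_univ _, ?_⟩
    rw [← h0, ← dl_mul, ← Subgroup.coe_mul, mul_inv_cancel_left, h0]
    exact hψ.2

open Classical in
/-- the rows which do not vanish over the character `μ` of the image of `q` -/
theorem count_fiber (E : Subgroup (MulAut T)) [Fintype E] {q : T →* T} (hq : ∀ u, q (q u) = q u)
    (hqE : ∀ φ ∈ E, ∀ u, φ (q u) = q (φ u)) (hE : ∀ φ ∈ E, ∀ u, q u ≠ u → φ u = u → φ = 1)
    {I : Type*} [Fintype I] (g : I → T → K) (hg : ∀ i, g i ∈ vir T K)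
    (hinv : ∀ i, ∀ φ ∈ E, ∀ u : T, q u ≠ u → g i (φ u) = g i u)
    (horth : ∀ u v : T, q u ≠ u → q v ≠ v → (∃ φ ∈ E, v = φ u) →
      ∑ i, g i u * g i v⁻¹ = (Fintype.card T : K))
    (horth0 : ∀ u v : T, q u ≠ u → q v ≠ v → (¬ ∃ φ ∈ E, v = φ u) → ∑ i, g i u * g i v⁻¹ = 0)
    {μ : T →* Kˣ} :
    (Finset.univ.filter fun i : I => ∃ l : T →* Kˣ, l.comp q = μ ∧ l ≠ μ ∧ dq q (g i) l ≠ 0).card
        * (Finset.univ.filter fun φ : E => dl μ (φ : MulAut T) = μ).card
      ≤ (Finset.univ.filter fun l : T →* Kˣ => l.comp q = μ ∧ l ≠ μ).card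
        + (Finset.univ.filter fun φ : E => dl μ (φ : MulAut T) = μ).card ^ 2 := by
  set e : ℕ := (Finset.univ.filter fun φ : E => dl μ (φ : MulAut T) = μ).card with he
  -- the integers
  choose a ha using fun i l => (mem_vir_iff (g := g i)).1 (hg i) l
  have hb : ∀ i l, ((a i l - a i (l.comp q) : ℤ) : K) = dq q (g i) l := by
    intro i l
    unfold dq
    rw [ha, ha]
    push_cast
    rfl
  let Λ := {l : T →* Kˣ // l.comp q = μ ∧ l ≠ μ}
  let J := {i : I // ∃ l : T →* Kˣ, l.comp q = μ ∧ l ≠ μ ∧ dq q (g i) l ≠ 0}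
  have hJ : (Finset.univ.filter fun i : I =>
      ∃ l : T →* Kˣ, l.comp q = μ ∧ l ≠ μ ∧ dq q (g i) l ≠ 0).card = Fintype.card J := by
    rw [Fintype.card_subtype]
  have hΛ : (Finset.univ.filter fun l : T →* Kˣ => l.comp q = μ ∧ l ≠ μ).card
      = Fintype.card Λ := by
    rw [Fintype.card_subtype]
  rw [hJ, hΛ]
  by_cases hne : Nonempty Λ
  swap
  · have h1 : IsEmpty J := by
      refine ⟨fun i => ?_⟩
      obtain ⟨l, h2, h3, _⟩ := i.2
      exact hne ⟨⟨l, h2, h3⟩⟩
    rw [Fintype.card_eq_zero (α := J), zero_mul]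
    exact Nat.zero_le _
  -- the elements of `Λ` are not invariant
  have hΛq : ∀ l : Λ, l.1.comp q ≠ l.1 := by
    intro l h
    exact l.2.2 (h.symm.trans l.2.1)
  let orb : Λ → Finset Λ := fun l => Finset.univ.filter (fun m => ∃ φ : E, dl m.1 φ = l.1)
  have hst : ∀ (l m : Λ) (φ : E), dl m.1 (φ : MulAut T) = l.1 → dl μ (φ : MulAut T) = μ := by
    intro l m φ h
    have h1 := dl_comp (hqE φ φ.2) m.1
    rw [h, l.2.1, m.2.1] at h1
    exact h1.symm
  have huniq : ∀ (m : Λ) (φ ψ : E), dl m.1 (φ : MulAut T) = dl m.1 ψ → φ = ψ := by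
    intro m φ ψ h
    have h1 : dl (dl m.1 (ψ : MulAut T)) ((ψ : MulAut T)⁻¹ * φ) = dl m.1 (ψ : MulAut T) := by
      rw [← dl_mul, mul_inv_cancel_left, h]
    have hmem := E.mul_mem (E.inv_mem ψ.2) φ.2
    have h2 := dl_freeQ hq (hqE _ hmem)
      (fun h3 u hu h4 => h3 (hE _ hmem u hu h4))
      (l := dl m.1 (ψ : MulAut T)) (by
        rw [dl_comp (hqE ψ ψ.2)]
        exact fun h3 => hΛq m (dl_inj _ h3)) h1
    exact Subtype.ext (inv_mul_eq_one.1 h2).symm
  have horb : ∀ l : Λ, (orb l).card = e := by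
    intro l
    symm
    refine Finset.card_bij (fun φ hφ => (⟨dl l.1 ((φ : MulAut T)⁻¹), ?_, ?_⟩ : Λ)) ?_ ?_ ?_
    · rw [Finset.mem_filter] at hφ
      rw [dl_comp (hqE _ (E.inv_mem φ.2)), l.2.1]
      refine dl_inj (φ : MulAut T) ?_
      rw [← dl_mul, inv_mul_cancel, dl_one]
      exact hφ.2.symm
    · rw [Finset.mem_filter] at hφ
      intro h
      apply l.2.2
      refine dl_inj (φ : MulAut T)⁻¹ ?_
      rw [h]
      refine dl_inj (φ : MulAut T) ?_
      rw [← dl_mul, inv_mul_cancel, dl_one]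
      exact hφ.2
    · intro φ hφ
      rw [Finset.mem_filter]
      refine ⟨Finset.mem_univ _, φ, ?_⟩
      change dl (dl l.1 (φ : MulAut T)⁻¹) φ = l.1
      rw [← dl_mul, inv_mul_cancel, dl_one]
    · intro φ hφ ψ hψ h
      have h1 : dl l.1 ((φ⁻¹ : E) : MulAut T) = dl l.1 ((ψ⁻¹ : E) : MulAut T) :=
        congrArg Subtype.val h
      exact inv_injective (huniq l _ _ h1)
    · intro m hm
      rw [Finset.mem_filter] at hm
      obtain ⟨_, φ, h⟩ := hm
      refine ⟨φ, ?_, ?_⟩
      · rw [Finset.mem_filter]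
        exact ⟨Finset.mem_univ _, hst l m φ h⟩
      · apply Subtype.ext
        change dl l.1 (φ : MulAut T)⁻¹ = m.1
        rw [← h, ← dl_mul, mul_inv_cancel, dl_one]
  obtain ⟨l0⟩ := hne
  have : Nonempty Λ := ⟨l0⟩
  -- the values of the differences
  have hbl : ∀ (i : I) (l : Λ), ((a i l.1 - a i μ : ℤ) : K) = dq q (g i) l.1 := by
    intro i l
    rw [← hb, l.2.1]
  have key := count_aux (I := J) (Λ := Λ) e (by
      rw [← horb l0]
      exact Finset.card_le_univ _)
    (fun i l => a i.1 l.1 - a i.1 μ) orb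
    (by
      intro l
      rw [Finset.mem_filter]
      exact ⟨Finset.mem_univ _, 1, rfl⟩)
    horb
    (by
      intro i l m hm
      rw [Finset.mem_filter] at hm
      obtain ⟨_, φ, h⟩ := hm
      have h1 : ((a i.1 m.1 - a i.1 μ : ℤ) : K) = ((a i.1 l.1 - a i.1 μ : ℤ) : K) := by
        rw [hbl, hbl, ← h, dq_dl (hqE φ φ.2) _ _ (hinv i.1 φ φ.2)]
      exact_mod_cast h1)
    (by
      intro l m
      have h1 := gramQ E hq hqE hE g horth horth0 (hΛq l) (hΛq m)
      -- the rows outside `J` vanish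
      have h5 : ∑ i, dq q (g i) l.1 * dq q (g i) m.1 = ∑ i : J, dq q (g i.1) l.1 * dq q (g i.1) m.1 := by
        rw [← Finset.sum_filter_of_ne (p := fun i : I =>
          ∃ l : T →* Kˣ, l.comp q = μ ∧ l ≠ μ ∧ dq q (g i) l ≠ 0)
          (fun i _ hi => ⟨l.1, l.2.1, l.2.2, left_ne_zero_of_mul hi⟩)]
        exact Finset.sum_subtype _ (by simp) _
      have h2 : ∑ φ : E, ((if dl m.1 (φ : MulAut T) = l.1 then (1 : K) else 0)
          + (if dl (m.1.comp q) (φ : MulAut T) = l.1.comp q then 1 else 0)) =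
          (((if m ∈ orb l then 1 else 0) + (e : ℤ) : ℤ) : K) := by
        rw [Finset.sum_add_distrib]
        have h3 : ∑ φ : E, (if dl m.1 (φ : MulAut T) = l.1 then (1 : K) else 0) =
            if m ∈ orb l then 1 else 0 := by
          split_ifs with h4
          · rw [Finset.mem_filter] at h4
            obtain ⟨_, φ, h5⟩ := h4
            rw [Finset.sum_eq_single φ]
            · rw [if_pos h5]
            · intro ψ _ hne'
              rw [if_neg]
              intro h6
              exact hne' (huniq m ψ φ (h6.trans h5.symm))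
            · intro h6
              exact absurd (Finset.mem_univ _) h6
          · refine Finset.sum_eq_zero fun φ _ => ?_
            rw [if_neg]
            intro h5
            exact h4 (Finset.mem_filter.2 ⟨Finset.mem_univ _, φ, h5⟩)
        have h6 : ∑ φ : E, (if dl (m.1.comp q) (φ : MulAut T) = l.1.comp q then (1 : K) else 0)
            = (e : K) := by
          rw [l.2.1, m.2.1, ← Finset.sum_filter, Finset.sum_const, nsmul_eq_mul, mul_one]
        rw [h3, h6]
        push_cast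
        simp
      rw [h2, h5] at h1
      have h4 : ((∑ i : J, (a i.1 l.1 - a i.1 μ) * (a i.1 m.1 - a i.1 μ) : ℤ) : K) =
          (((if m ∈ orb l then 1 else 0) + (e : ℤ) : ℤ) : K) := by
        rw [← h1, Int.cast_sum]
        refine Finset.sum_congr rfl fun i _ => ?_
        rw [Int.cast_mul, hbl, hbl]
      exact_mod_cast h4)
    (by
      intro i
      obtain ⟨l, h1, h2, h3⟩ := i.2
      refine ⟨⟨l, h1, h2⟩, fun h => h3 ?_⟩
      have h4 := hbl i.1 ⟨l, h1, h2⟩
      rw [h] at h4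
      rw [← h4]
      simp)
  exact key

open Classical in
/-- **the number of rows, relative form** -/
theorem count_rowsQ (E : Subgroup (MulAut T)) [Fintype E]
    (hc : (Nat.card E).Coprime (Nat.card T)) {q : T →* T} (hq : ∀ u, q (q u) = q u)
    (hqE : ∀ φ ∈ E, ∀ u, φ (q u) = q (φ u)) (hE : ∀ φ ∈ E, ∀ u, q u ≠ u → φ u = u → φ = 1)
    {I : Type*} [Fintype I] (g : I → T → K) (hg : ∀ i, g i ∈ vir T K)
    (hinv : ∀ i, ∀ φ ∈ E, ∀ u : T, q u ≠ u → g i (φ u) = g i u)
    (horth : ∀ u v : T, q u ≠ u → q v ≠ v → (∃ φ ∈ E, v = φ u) →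
      ∑ i, g i u * g i v⁻¹ = (Fintype.card T : K))
    (horth0 : ∀ u v : T, q u ≠ u → q v ≠ v → (¬ ∃ φ ∈ E, v = φ u) → ∑ i, g i u * g i v⁻¹ = 0)
    (hne : ∀ i, ∃ u : T, q u ≠ u ∧ g i u ≠ 0) :
    Fintype.card I * Nat.card E ≤ (Finset.univ.filter fun u : T => q u ≠ u).card
      + ∑ u : T with q u = u,
        (Finset.univ.filter fun φ : E => (φ : MulAut T) u = u).card ^ 2 := by
  let c : (T →* Kˣ) → ℕ := fun μ =>
    (Finset.univ.filter fun φ : E => dl μ (φ : MulAut T) = μ).card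
  let M : Finset (T →* Kˣ) := Finset.univ.filter fun μ => μ.comp q = μ
  let J : (T →* Kˣ) → Finset I := fun μ => Finset.univ.filter fun i : I =>
    ∃ l : T →* Kˣ, l.comp q = μ ∧ l ≠ μ ∧ dq q (g i) l ≠ 0
  have hcE : Nat.card E = (Finset.univ : Finset E).card := by
    rw [Nat.card_eq_fintype_card, Finset.card_univ]
  -- every row occurs over a whole orbit
  have h1 : ∀ i : I, Nat.card E ≤ ∑ μ ∈ M, if i ∈ J μ then c μ else 0 := by
    intro i
    obtain ⟨u, hu, hu'⟩ := hne i
    obtain ⟨l, hl, hl'⟩ := dq_ne hq hu hu'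
    have h2 : ∀ φ : E, dl (l.comp q) (φ : MulAut T) ∈ M ∧ i ∈ J (dl (l.comp q) (φ : MulAut T)) := by
      intro φ
      constructor
      · rw [Finset.mem_filter]
        refine ⟨Finset.mem_univ _, ?_⟩
        rw [dl_comp (hqE φ φ.2)]
        congr 1
        ext v
        rw [MonoidHom.comp_apply, MonoidHom.comp_apply, MonoidHom.comp_apply, hq]
      · rw [Finset.mem_filter]
        refine ⟨Finset.mem_univ _, dl l φ, dl_comp (hqE φ φ.2) l, fun h => hl (dl_inj _ h).symm, ?_⟩
        rw [dq_dl (hqE φ φ.2) _ _ (hinv i φ φ.2)]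
        exact hl'
    rw [hcE, Finset.card_eq_sum_card_image (fun φ : E => dl (l.comp q) (φ : MulAut T))]
    refine (Finset.sum_le_sum (g := fun μ => if i ∈ J μ then c μ else 0) ?_).trans
      (Finset.sum_le_sum_of_subset ?_)
    · intro μ hμ
      obtain ⟨φ, _, hφ⟩ := Finset.mem_image.1 hμ
      have h3 := (h2 φ).2
      rw [hφ] at h3
      rw [if_pos h3, card_fiber E ⟨φ, hφ⟩]
    · intro μ hμ
      obtain ⟨φ, _, hφ⟩ := Finset.mem_image.1 hμ
      rw [← hφ]
      exact (h2 φ).1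
  have h2 : Fintype.card I * Nat.card E ≤ ∑ μ ∈ M, (J μ).card * c μ := by
    calc Fintype.card I * Nat.card E = ∑ _i : I, Nat.card E := by
          rw [Finset.sum_const, Finset.card_univ, smul_eq_mul]
      _ ≤ ∑ i : I, ∑ μ ∈ M, (if i ∈ J μ then c μ else 0) := Finset.sum_le_sum fun i _ => h1 i
      _ = ∑ μ ∈ M, ∑ i : I, (if i ∈ J μ then c μ else 0) := Finset.sum_comm
      _ = ∑ μ ∈ M, (J μ).card * c μ := by
        refine Finset.sum_congr rfl fun μ _ => ?_
        rw [Finset.sum_ite_mem, Finset.univ_inter, Finset.sum_const, smul_eq_mul]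
  have h3 : ∀ μ ∈ M, (J μ).card * c μ ≤
      (Finset.univ.filter fun l : T →* Kˣ => l.comp q = μ ∧ l ≠ μ).card + c μ ^ 2 := by
    intro μ _
    exact count_fiber E hq hqE hE g hg hinv horth horth0
  -- the number of characters which are not invariant
  have h4 : ∑ μ ∈ M, (Finset.univ.filter fun l : T →* Kˣ => l.comp q = μ ∧ l ≠ μ).card
      = (Finset.univ.filter fun l : T →* Kˣ => l.comp q ≠ l).card := by
    rw [Finset.card_eq_sum_card_fiberwise (f := fun l : T →* Kˣ => l.comp q) (t := M)]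
    · refine Finset.sum_congr rfl fun μ _ => ?_
      congr 1
      ext l
      simp only [Finset.mem_filter, Finset.mem_univ, true_and]
      constructor
      · rintro ⟨h5, h6⟩
        exact ⟨fun h => h6 (h.symm.trans h5), h5⟩
      · rintro ⟨h5, h6⟩
        exact ⟨h6, fun h => h5 (h6.trans h.symm)⟩
    · intro l _
      rw [Finset.mem_coe, Finset.mem_filter]
      refine ⟨Finset.mem_univ _, ?_⟩
      ext v
      rw [MonoidHom.comp_apply, MonoidHom.comp_apply, MonoidHom.comp_apply, hq]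
  have h5 : (Finset.univ.filter fun l : T →* Kˣ => l.comp q ≠ l).card
      = (Finset.univ.filter fun u : T => q u ≠ u).card := by
    have h6 : (Finset.univ.filter fun l : T →* Kˣ => l.comp q = l).card
        = (Finset.univ.filter fun u : T => q u = u).card := by
      have h9 := card_idem (K := K) q hq
      rw [Nat.card_eq_fintype_card, Nat.card_eq_fintype_card, Fintype.card_subtype,
        Fintype.card_subtype] at h9
      convert h9
    have h7 : (Finset.univ.filter fun l : T →* Kˣ => l.comp q = l).card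
        + (Finset.univ.filter fun l : T →* Kˣ => l.comp q ≠ l).card = Fintype.card T := by
      have h9 := Finset.card_filter_add_card_filter_not (s := (Finset.univ : Finset (T →* Kˣ)))
        (fun l => l.comp q = l)
      rw [Finset.card_univ, card_chr] at h9
      convert h9
    have h8 : (Finset.univ.filter fun u : T => q u = u).card
        + (Finset.univ.filter fun u : T => q u ≠ u).card = Fintype.card T := by
      have h9 := Finset.card_filter_add_card_filter_not (s := (Finset.univ : Finset T))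
        (fun u => q u = u)
      rw [Finset.card_univ] at h9
      convert h9
    omega
  have h6 : ∑ μ ∈ M, c μ ^ 2 = ∑ u : T with q u = u,
      (Finset.univ.filter fun φ : E => (φ : MulAut T) u = u).card ^ 2 :=
    sum_sq_dual E hc q hq hqE
  calc Fintype.card I * Nat.card E ≤ ∑ μ ∈ M, (J μ).card * c μ := h2
    _ ≤ ∑ μ ∈ M, ((Finset.univ.filter fun l : T →* Kˣ => l.comp q = μ ∧ l ≠ μ).card + c μ ^ 2) :=
      Finset.sum_le_sum h3
    _ = _ := by rw [Finset.sum_add_distrib, h4, h5, h6]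

end

end Pool.Agent.Lib.P0c8ca5.Ex
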