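import Mathlib
import Pool.Agent.Lib.P0c8ca5Ex.NA
import Pool.Agent.Lib.P0c8ca5Ex.R6
import Pool.Agent.Lib.P0c8ca5Ex.R8

/-!
# R9: the number of rows, from the Gram matrix with weights, relative form

`T` is a finite abelian p-group, `q` an idempotent endomorphism of `T`, `E` a group of
automorphisms of `T` commuting with `q`; the stabilizers in `E` of the places `u` with `q u ≠ u`
are trivial. The rows are as in `NA`, with the places `u ≠ 1` replaced by the places `q u ≠ u`.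
Then `|I| |E| ≤ |{u // q u ≠ u}| + ∑ (q u = u), |C_E u| ^ 2`.
-/

namespace Pool.Agent.Lib.P0c8ca5.Ex

open Finset

set_option linter.unusedSectionVars false

section
variable {T : Type*} [CommGroup T] [Fintype T] {K : Type*} [Field K] [CharZero K]

/-- the data -/
structure RowDataQ (p : ℕ) (E : Subgroup (MulAut T)) (q : T →* T) {I : Type*} [Fintype I]
    (g f : I → T → K) (n : T → ℤ) (a : ℤ) : Prop where
  vir : ∀ i, g i ∈ vir T K
  gen : ∀ u v, Subgroup.zpowers v = Subgroup.zpowers u → n v = n u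
  fac : ∀ i u, q u ≠ u → g i u = (n u : K) * f i u
  inv : ∀ i, ∀ φ ∈ E, ∀ u, q u ≠ u → f i (φ u) = f i u
  loc : ∀ i u, q u ≠ u → ∃ β ∈ Ex.vir T K, ∀ v, Subgroup.zpowers v = Subgroup.zpowers u →
    f i v = β v
  gram : ∀ u, q u ≠ u → ∀ φ ∈ E,
    ∑ i, g i u * g i (φ u)⁻¹ = (Fintype.card T : K) * (n u : K) * (n (φ u) : K)
  gram0 : ∀ u v, (¬ ∃ φ ∈ E, v = φ u) → ∑ i, g i u * g i v⁻¹ = 0
  one : ∑ i, g i 1 * g i 1 = (Fintype.card T : K) * (a : K)
  cong : (p : ℤ) ∣ a - Nat.card E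

variable {p : ℕ} {E : Subgroup (MulAut T)} [Fintype E] {q : T →* T} {I : Type*} [Fintype I]
  {g f : I → T → K} {n : T → ℤ} {a : ℤ}

theorem moved (hqE : ∀ φ ∈ E, ∀ u, φ (q u) = q (φ u)) {φ : MulAut T} (hφ : φ ∈ E) {u : T}
    (hu : q u ≠ u) : q (φ u) ≠ φ u := by
  rw [← hqE φ hφ]
  exact fun h => hu (φ.injective h)

theorem moved_inv {u : T} (hu : q u ≠ u) : q u⁻¹ ≠ u⁻¹ := by
  rw [map_inv]
  exact fun h => hu (inv_injective h)

theorem moved_gen (q : T →* T) (u v : T) (h : Subgroup.zpowers v = Subgroup.zpowers u)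
    (hu : q u ≠ u) : q v ≠ v := by
  intro hv
  apply hu
  have h1 : u ∈ Subgroup.zpowers v := by
    rw [h]
    exact Subgroup.mem_zpowers u
  obtain ⟨k, rfl⟩ := Subgroup.mem_zpowers_iff.1 h1
  rw [map_zpow, hv]

theorem gE_facQ (hqE : ∀ φ ∈ E, ∀ u, φ (q u) = q (φ u)) (hd : RowDataQ p E q g f n a) (i : I)
    {u : T} (hu : q u ≠ u) : gE E g i u = (nE E n u : K) * f i u := by
  rw [gE, nE, Int.cast_sum, Finset.sum_mul]
  refine Finset.sum_congr rfl fun φ _ => ?_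
  rw [hd.fac i _ (moved hqE φ.2 hu), hd.inv i φ φ.2 u hu]

theorem gE_gramQ (hqE : ∀ φ ∈ E, ∀ u, φ (q u) = q (φ u)) (hd : RowDataQ p E q g f n a) {u : T}
    (hu : q u ≠ u) {φ : MulAut T} (hφ : φ ∈ E) :
    ∑ i, gE E g i u * gE E g i (φ u)⁻¹ = (Fintype.card T : K) * (nE E n u : K) ^ 2 := by
  have h0 : ∀ i, gE E g i u * gE E g i (φ u)⁻¹
      = ∑ x : E, ∑ y : E, g i ((x : MulAut T) u) * g i ((y : MulAut T) (φ u))⁻¹ := by
    intro i
    rw [gE, gE, Finset.sum_mul_sum]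
    refine Finset.sum_congr rfl fun x _ => Finset.sum_congr rfl fun y _ => ?_
    rw [map_inv]
  rw [Finset.sum_congr rfl fun i _ => h0 i, Finset.sum_comm]
  have h1 : ∀ x : E, ∑ i, ∑ y : E, g i ((x : MulAut T) u) * g i ((y : MulAut T) (φ u))⁻¹
      = (Fintype.card T : K) * (n ((x : MulAut T) u) : K) * (nE E n (φ u) : K) := by
    intro x
    rw [Finset.sum_comm, nE, Int.cast_sum, Finset.mul_sum]
    refine Finset.sum_congr rfl fun y _ => ?_
    have h2 := hd.gram ((x : MulAut T) u) (moved hqE x.2 hu)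
      ((y : MulAut T) * φ * (x : MulAut T)⁻¹)
      (E.mul_mem (E.mul_mem y.2 hφ) (E.inv_mem x.2))
    have h3 : ((y : MulAut T) * φ * (x : MulAut T)⁻¹) ((x : MulAut T) u)
        = (y : MulAut T) (φ u) := by
      rw [MulAut.mul_apply, MulAut.mul_apply, MulAut.inv_apply_self]
    rw [h3] at h2
    exact h2
  rw [Finset.sum_congr rfl fun x _ => h1 x, ← Finset.sum_mul, ← Finset.mul_sum,
    nE_inv n hφ, pow_two, ← mul_assoc]
  congr 2
  rw [nE, Int.cast_sum]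

theorem gE_gram0Q (hd : RowDataQ p E q g f n a) {u v : T} (h : ¬ ∃ φ ∈ E, v = φ u) :
    ∑ i, gE E g i u * gE E g i v⁻¹ = 0 := by
  have h0 : ∀ i, gE E g i u * gE E g i v⁻¹
      = ∑ x : E, ∑ y : E, g i ((x : MulAut T) u) * g i ((y : MulAut T) v)⁻¹ := by
    intro i
    rw [gE, gE, Finset.sum_mul_sum]
    refine Finset.sum_congr rfl fun x _ => Finset.sum_congr rfl fun y _ => ?_
    rw [map_inv]
  rw [Finset.sum_congr rfl fun i _ => h0 i, Finset.sum_comm]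
  refine Finset.sum_eq_zero fun x _ => ?_
  rw [Finset.sum_comm]
  refine Finset.sum_eq_zero fun y _ => ?_
  refine hd.gram0 _ _ ?_
  rintro ⟨φ, hφ, hv⟩
  refine h ⟨(y : MulAut T)⁻¹ * φ * (x : MulAut T), E.mul_mem (E.mul_mem (E.inv_mem y.2) hφ) x.2, ?_⟩
  rw [MulAut.mul_apply, MulAut.mul_apply, ← hv, MulAut.inv_apply_self]

theorem gE_oneQ (hd : RowDataQ p E q g f n a) :
    ∑ i, gE E g i 1 * gE E g i 1 = (Fintype.card T : K) * ((Nat.card E : K) ^ 2 * (a : K)) := by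
  have h0 : ∀ i, gE E g i 1 = (Nat.card E : K) * g i 1 := by
    intro i
    rw [gE, Finset.sum_congr rfl fun (x : E) _ => by rw [map_one], Finset.sum_const,
      Finset.card_univ, nsmul_eq_mul, Nat.card_eq_fintype_card]
  rw [Finset.sum_congr rfl fun i _ => by rw [h0 i]]
  have h1 : ∑ i, (Nat.card E : K) * g i 1 * ((Nat.card E : K) * g i 1)
      = (Nat.card E : K) ^ 2 * ∑ i, g i 1 * g i 1 := by
    rw [Finset.mul_sum]
    exact Finset.sum_congr rfl fun i _ => by ring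
  rw [h1, hd.one]
  ring

variable [HasEnoughRootsOfUnity K (Monoid.exponent T)]

/-- the function `π` -/
theorem pi_existsQ (hqE : ∀ φ ∈ E, ∀ u, φ (q u) = q (φ u))
    (hE : ∀ φ ∈ E, ∀ u : T, q u ≠ u → φ u = u → φ = 1) (hd : RowDataQ p E q g f n a) :
    ∃ π ∈ vir T K, (∀ u, q u ≠ u → π u = (Nat.card E : K) * (nE E n u : K) ^ 2) ∧
      π 1 = (Nat.card E : K) ^ 2 * (a : K) := by
  classical
  have hc : (Fintype.card T : K) ≠ 0 := Nat.cast_ne_zero.2 Fintype.card_ne_zero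
  have hm : ∀ i, mlt (gE E g i) 1 = (Fintype.card T : K)⁻¹ * ∑ v, gE E g i v⁻¹ := by
    intro i
    rw [mlt]
    congr 1
    rw [← Equiv.sum_comp (Equiv.inv T)]
    refine Finset.sum_congr rfl fun v _ => ?_
    simp [chr]
  have hπ : ∀ u, (∑ i, mlt (gE E g i) 1 * gE E g i u)
      = (Fintype.card T : K)⁻¹ * ∑ v, ∑ i, gE E g i u * gE E g i v⁻¹ := by
    intro u
    rw [Finset.sum_comm, Finset.mul_sum]
    refine Finset.sum_congr rfl fun i _ => ?_
    rw [hm, ← Finset.mul_sum]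
    ring
  refine ⟨fun u => ∑ i, mlt (gE E g i) 1 * gE E g i u, ?_, ?_, ?_⟩
  · have h : (fun u => ∑ i, mlt (gE E g i) 1 * gE E g i u)
        = ∑ i, fun u => mlt (gE E g i) 1 * gE E g i u := by
      ext u
      rw [Finset.sum_apply]
    rw [h]
    refine Subring.sum_mem _ fun i _ => ?_
    obtain ⟨c, hc'⟩ := mem_vir_iff.1 (gE_vir (E := E) hd.vir i) 1
    have h2 : (fun u => mlt (gE E g i) 1 * gE E g i u) = c • gE E g i := by
      ext u
      rw [hc', Pi.smul_apply, zsmul_eq_mul]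
    rw [h2]
    exact zsmul_mem (gE_vir hd.vir i) c
  · intro u hu
    change (∑ i, mlt (gE E g i) 1 * gE E g i u) = _
    rw [hπ, sum_orbitQ E (fun φ hφ => hE φ hφ u hu) _ fun v hv => gE_gram0Q hd hv,
      Finset.sum_congr rfl fun φ _ => gE_gramQ hqE hd hu φ.2, Finset.sum_const, Finset.card_univ,
      nsmul_eq_mul, Nat.card_eq_fintype_card]
    field_simp
  · change (∑ i, mlt (gE E g i) 1 * gE E g i 1) = _
    rw [hπ, Finset.sum_eq_single 1]
    · have h1 := gE_oneQ hd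
      rw [inv_one, h1]
      field_simp
    · intro v _ hv
      refine gE_gram0Q hd ?_
      rintro ⟨φ, _, h⟩
      exact hv (by rw [h, map_one])
    · intro h
      exact absurd (Finset.mem_univ _) h

theorem pi_congQ (hp : p.Prime) (hp2 : p ≠ 2) (hT : IsPGroup p T)
    (hqE : ∀ φ ∈ E, ∀ u, φ (q u) = q (φ u))
    (hE : ∀ φ ∈ E, ∀ u : T, q u ≠ u → φ u = u → φ = 1) (hpE : ¬ p ∣ Nat.card E)
    (hd : RowDataQ p E q g f n a) {u : T} (hu : q u ≠ u) :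
    (p : ℤ) ∣ nE E n u ^ 2 - (Nat.card E : ℤ) ^ 2 := by
  obtain ⟨π, hπ, h1, h2⟩ := pi_existsQ hqE hE hd
  have h3 := vir_congr hp hp2 hT hπ (u := u) (a := (Nat.card E : ℤ) * nE E n u ^ 2)
    (b := (Nat.card E : ℤ) ^ 2 * a) (by rw [h1 u hu]; push_cast; ring)
    (by rw [h2]; push_cast; ring)
  have h4 : (p : ℤ) ∣ (Nat.card E : ℤ) * (nE E n u ^ 2 - (Nat.card E : ℤ) ^ 2) := by
    have h5 : (Nat.card E : ℤ) * (nE E n u ^ 2 - (Nat.card E : ℤ) ^ 2)
        = ((Nat.card E : ℤ) * nE E n u ^ 2 - (Nat.card E : ℤ) ^ 2 * a)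
          + (Nat.card E : ℤ) ^ 2 * (a - Nat.card E) := by ring
    rw [h5]
    exact dvd_add h3 (Dvd.dvd.mul_left hd.cong _)
  rcases (Nat.prime_iff_prime_int.1 hp).dvd_or_dvd h4 with h | h
  · exact absurd (Int.natCast_dvd_natCast.1 h) hpE
  · exact h

/-- the normalised rows -/
theorem rows_existQ (hp : p.Prime) (hp2 : p ≠ 2) (hT : IsPGroup p T)
    (hqE : ∀ φ ∈ E, ∀ u, φ (q u) = q (φ u))
    (hE : ∀ φ ∈ E, ∀ u : T, q u ≠ u → φ u = u → φ = 1) (hpE : ¬ p ∣ Nat.card E)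
    (hd : RowDataQ p E q g f n a) :
    ∃ (s : T → ℤ) (ψ : I → T → K), (∀ i, ψ i ∈ vir T K) ∧ (∀ u, s u * s u = 1) ∧
      (∀ u v, Subgroup.zpowers v = Subgroup.zpowers u → s v = s u) ∧
      (∀ φ ∈ E, ∀ u, s (φ u) = s u) ∧ ∀ i u, q u ≠ u → ψ i u = (s u : K) * f i u := by
  obtain ⟨π, hπ, h1, _⟩ := pi_existsQ hqE hE hd
  have hpi := Nat.prime_iff_prime_int.1 hp
  -- the inverse of `|E|` modulo `p`
  obtain ⟨r, hr⟩ : ∃ r : ℤ, (p : ℤ) ∣ r * Nat.card E - 1 := by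
    have hc : IsCoprime (Nat.card E : ℤ) (p : ℤ) :=
      Nat.isCoprime_iff_coprime.2 ((Nat.Prime.coprime_iff_not_dvd hp).2 hpE).symm
    obtain ⟨x, y, hxy⟩ := hc
    exact ⟨x, -y, by linarith⟩
  have hn : ∀ u, q u ≠ u → (p : ℤ) ∣ (r * nE E n u) ^ 2 - 1 := by
    intro u hu
    have h3 := pi_congQ hp hp2 hT hqE hE hpE hd hu
    have h4 : (r * nE E n u) ^ 2 - 1 = r ^ 2 * (nE E n u ^ 2 - (Nat.card E : ℤ) ^ 2)
        + (r * Nat.card E - 1) * (r * Nat.card E + 1) := by ring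
    rw [h4]
    exact dvd_add (Dvd.dvd.mul_left h3 _) (Dvd.dvd.mul_right hr _)
  have hr' : ∀ i, ∃ ψ ∈ vir T K, ∀ u, q u ≠ u → ψ u = (sg p (r * nE E n u) : K) * f i u := by
    intro i
    refine rowsP hp hp2 hT (e := Nat.card E) hpE (P := fun u => q u ≠ u) (moved_gen q)
      (n := fun u => r * nE E n u) hn ?_
      (π := r ^ 2 • π) (zsmul_mem hπ _) ?_ (θ := r • gE E g i) (zsmul_mem (gE_vir hd.vir i) _)
      (f := f i) ?_ (fun u hu => hd.loc i u hu)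
    · intro u v h
      rw [nE_gen hd.gen u v h]
    · intro u hu
      rw [Pi.smul_apply, zsmul_eq_mul, h1 u hu]
      push_cast
      ring
    · intro u hu
      rw [Pi.smul_apply, zsmul_eq_mul, gE_facQ hqE hd i hu]
      push_cast
      ring
  choose ψ hψ hψ' using hr'
  refine ⟨fun u => sg p (r * nE E n u), ψ, hψ, fun u => sg_mul_sg _ _, ?_, ?_, hψ'⟩
  · intro u v h
    change sg p (r * nE E n v) = sg p (r * nE E n u)
    rw [nE_gen hd.gen u v h]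
  · intro φ hφ u
    change sg p (r * nE E n (φ u)) = sg p (r * nE E n u)
    rw [nE_inv n hφ]

theorem nE_neQ (hp : p.Prime) (hp2 : p ≠ 2) (hT : IsPGroup p T)
    (hqE : ∀ φ ∈ E, ∀ u, φ (q u) = q (φ u))
    (hE : ∀ φ ∈ E, ∀ u : T, q u ≠ u → φ u = u → φ = 1) (hpE : ¬ p ∣ Nat.card E)
    (hd : RowDataQ p E q g f n a) {u : T} (hu : q u ≠ u) : (nE E n u : K) ≠ 0 := by
  rw [Int.cast_ne_zero]
  intro h
  have h1 := pi_congQ hp hp2 hT hqE hE hpE hd hu
  rw [h, zero_pow two_ne_zero, zero_sub, dvd_neg] at h1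
  exact hpE (Int.natCast_dvd_natCast.1 ((Nat.prime_iff_prime_int.1 hp).dvd_of_dvd_pow h1))

theorem f_gramQ (hp : p.Prime) (hp2 : p ≠ 2) (hT : IsPGroup p T)
    (hqE : ∀ φ ∈ E, ∀ u, φ (q u) = q (φ u))
    (hE : ∀ φ ∈ E, ∀ u : T, q u ≠ u → φ u = u → φ = 1) (hpE : ¬ p ∣ Nat.card E)
    (hd : RowDataQ p E q g f n a) {u v : T} (hu : q u ≠ u) (h : ∃ φ ∈ E, v = φ u) :
    ∑ i, f i u * f i v⁻¹ = (Fintype.card T : K) := by
  obtain ⟨φ, hφ, rfl⟩ := h
  have h1 := gE_gramQ hqE hd hu hφ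
  have hne := nE_neQ hp hp2 hT hqE hE hpE hd hu
  have hv : q (φ u)⁻¹ ≠ (φ u)⁻¹ := moved_inv (moved hqE hφ hu)
  rw [Finset.sum_congr rfl fun i _ => by rw [gE_facQ hqE hd i hu, gE_facQ hqE hd i hv],
    nE_gen hd.gen (φ u) (φ u)⁻¹ Subgroup.zpowers_inv, nE_inv n hφ] at h1
  have h2 : ∑ i, (nE E n u : K) * f i u * ((nE E n u : K) * f i (φ u)⁻¹)
      = (nE E n u : K) ^ 2 * ∑ i, f i u * f i (φ u)⁻¹ := by
    rw [Finset.mul_sum]
    exact Finset.sum_congr rfl fun i _ => by ring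
  rw [h2, mul_comm (Fintype.card T : K)] at h1
  exact mul_left_cancel₀ (pow_ne_zero 2 hne) h1

theorem f_gram0Q (hp : p.Prime) (hp2 : p ≠ 2) (hT : IsPGroup p T)
    (hqE : ∀ φ ∈ E, ∀ u, φ (q u) = q (φ u))
    (hE : ∀ φ ∈ E, ∀ u : T, q u ≠ u → φ u = u → φ = 1) (hpE : ¬ p ∣ Nat.card E)
    (hd : RowDataQ p E q g f n a) {u v : T} (hu : q u ≠ u) (hv : q v ≠ v)
    (h : ¬ ∃ φ ∈ E, v = φ u) : ∑ i, f i u * f i v⁻¹ = 0 := by
  have h1 := gE_gram0Q hd h
  have hne := nE_neQ hp hp2 hT hqE hE hpE hd hu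
  have hne' := nE_neQ hp hp2 hT hqE hE hpE hd (moved_inv hv)
  rw [Finset.sum_congr rfl fun i _ => by
    rw [gE_facQ hqE hd i hu, gE_facQ hqE hd i (moved_inv hv)]] at h1
  have h2 : ∑ i, (nE E n u : K) * f i u * ((nE E n v⁻¹ : K) * f i v⁻¹)
      = ((nE E n u : K) * (nE E n v⁻¹ : K)) * ∑ i, f i u * f i v⁻¹ := by
    rw [Finset.mul_sum]
    exact Finset.sum_congr rfl fun i _ => by ring
  rw [h2] at h1
  exact (mul_eq_zero.1 h1).resolve_left (mul_ne_zero hne hne')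

open Classical in
/-- **the number of rows** -/
theorem pure_countQ (hp : p.Prime) (hp2 : p ≠ 2) (hT : IsPGroup p T) (hq : ∀ u, q (q u) = q u)
    (hqE : ∀ φ ∈ E, ∀ u, φ (q u) = q (φ u))
    (hE : ∀ φ ∈ E, ∀ u : T, q u ≠ u → φ u = u → φ = 1) (hpE : ¬ p ∣ Nat.card E)
    (hd : RowDataQ p E q g f n a) (hr : ∀ i, ∃ u, q u ≠ u ∧ f i u ≠ 0) :
    Fintype.card I * Nat.card E ≤ (Finset.univ.filter fun u : T => q u ≠ u).card
      + ∑ u : T with q u = u,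
        (Finset.univ.filter fun φ : E => (φ : MulAut T) u = u).card ^ 2 := by
  obtain ⟨s, ψ, hψ, hs, hsg, hsE, hψf⟩ := rows_existQ hp hp2 hT hqE hE hpE hd
  have hsK : ∀ u, (s u : K) * (s u : K) = 1 := fun u => by exact_mod_cast hs u
  have hc : (Nat.card E).Coprime (Nat.card T) := by
    have := Fact.mk hp
    obtain ⟨m, hm⟩ := IsPGroup.iff_card.1 hT
    rw [hm]
    exact Nat.Coprime.pow_right m ((Nat.Prime.coprime_iff_not_dvd hp).2 hpE).symm
  refine count_rowsQ E hc hq hqE hE ψ hψ ?_ ?_ ?_ ?_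
  · intro i φ hφ u hu
    rw [hψf i u hu, hψf i (φ u) (moved hqE hφ hu), hsE φ hφ, hd.inv i φ hφ u hu]
  · intro u v hu hv h
    rw [Finset.sum_congr rfl fun i _ => by rw [hψf i u hu, hψf i v⁻¹ (moved_inv hv)]]
    have h2 : (s v⁻¹ : K) = (s u : K) := by
      obtain ⟨φ, hφ, rfl⟩ := h
      rw [hsg (φ u) (φ u)⁻¹ Subgroup.zpowers_inv, hsE φ hφ]
    rw [h2]
    have h3 : ∑ i, (s u : K) * f i u * ((s u : K) * f i v⁻¹)
        = ((s u : K) * (s u : K)) * ∑ i, f i u * f i v⁻¹ := by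
      rw [Finset.mul_sum]
      exact Finset.sum_congr rfl fun i _ => by ring
    rw [h3, hsK, one_mul]
    exact f_gramQ hp hp2 hT hqE hE hpE hd hu h
  · intro u v hu hv h
    rw [Finset.sum_congr rfl fun i _ => by rw [hψf i u hu, hψf i v⁻¹ (moved_inv hv)]]
    have h3 : ∑ i, (s u : K) * f i u * ((s v⁻¹ : K) * f i v⁻¹)
        = ((s u : K) * (s v⁻¹ : K)) * ∑ i, f i u * f i v⁻¹ := by
      rw [Finset.mul_sum]
      exact Finset.sum_congr rfl fun i _ => by ring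
    rw [h3, f_gram0Q hp hp2 hT hqE hE hpE hd hu hv h, mul_zero]
  · intro i
    obtain ⟨u, hu, h⟩ := hr i
    refine ⟨u, hu, ?_⟩
    rw [hψf i u hu]
    refine mul_ne_zero ?_ h
    intro h0
    have h2 := hsK u
    rw [h0, zero_mul] at h2
    exact zero_ne_one h2

end

end Pool.Agent.Lib.P0c8ca5.Ex
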