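import Mathlib
import Pool.Agent.Lib.P0c8ca5Ex.R9

/-!
# R10: the pure conclusion, relative form

`sum_orbits`: `|E| ∑ λ (over the orbits) = ∑ u, |C_E u| λ u`.
`pure_conclQ`: the bound `lB ≤ |E|` from the two estimates for the number of rows.
-/

namespace Pool.Agent.Lib.P0c8ca5.Ex

open Finset

set_option linter.unusedSectionVars false

section
variable {T : Type*} [CommGroup T] [Fintype T]

open Classical in
/-- sums over the orbits -/
theorem sum_orbits (E : Subgroup (MulAut T)) [Fintype E] (lam : T → ℕ)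
    (hinv : ∀ φ ∈ E, ∀ u, lam (φ u) = lam u)
    [Fintype (MulAction.orbitRel.Quotient E T)] :
    Nat.card E * ∑ r : MulAction.orbitRel.Quotient E T, lam r.out
      = ∑ u : T, (Finset.univ.filter fun φ : E => (φ : MulAut T) u = u).card * lam u := by
  have hst : ∀ u : T, (Finset.univ.filter fun φ : E => (φ : MulAut T) u = u).card
      = Fintype.card (MulAction.stabilizer E u) := by
    intro u
    rw [Fintype.card_subtype]
    rfl
  rw [← Finset.sum_fiberwise (s := Finset.univ)
    (g := fun u : T => (Quotient.mk _ u : MulAction.orbitRel.Quotient E T)), Finset.mul_sum]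
  refine Finset.sum_congr rfl fun r _ => ?_
  -- the elements of the orbit
  have hmem : ∀ u : T, (Quotient.mk _ u : MulAction.orbitRel.Quotient E T) = r ↔
      u ∈ MulAction.orbit E r.out := by
    intro u
    have h0 : (Quotient.mk _ r.out : MulAction.orbitRel.Quotient E T) = r := Quotient.out_eq r
    constructor
    · intro h
      rw [← MulAction.orbitRel_apply]
      exact Quotient.exact (h.trans h0.symm)
    · intro h
      rw [← MulAction.orbitRel_apply] at h
      exact (Quotient.sound h).trans h0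
  have h1 : ∀ u ∈ Finset.univ.filter fun u : T =>
      (Quotient.mk _ u : MulAction.orbitRel.Quotient E T) = r,
      (Finset.univ.filter fun φ : E => (φ : MulAut T) u = u).card * lam u
        = Fintype.card (MulAction.stabilizer E r.out) * lam r.out := by
    intro u hu
    obtain ⟨φ, hφ⟩ := (hmem u).1 (Finset.mem_filter.1 hu).2
    have hφ' : (φ : MulAut T) r.out = u := hφ
    rw [hst, ← hφ', hinv φ φ.2]
    congr 1
    exact Fintype.card_congr
      (MulAction.stabilizerEquivStabilizer (G := E) (a := (φ : MulAut T) r.out) (b := r.out)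
        (g := φ⁻¹) (by
          change r.out = (φ⁻¹ : MulAut T) ((φ : MulAut T) r.out)
          rw [MulAut.inv_apply_self])).toEquiv
  rw [Finset.sum_congr rfl h1, Finset.sum_const, smul_eq_mul, ← mul_assoc]
  congr 1
  rw [Nat.card_eq_fintype_card, ← MulAction.card_orbit_mul_card_stabilizer_eq_card_group E r.out]
  congr 1
  rw [← Fintype.card_subtype]
  exact Fintype.card_congr (Equiv.subtypeEquivRight fun u => (hmem u).symm)

variable {K : Type*} [Field K] [CharZero K]
variable {p : ℕ} {E : Subgroup (MulAut T)} [Fintype E] {q : T →* T} {I : Type*} [Fintype I]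
  {g f : I → T → K} {n : T → ℤ} {a : ℤ}
variable [HasEnoughRootsOfUnity K (Monoid.exponent T)]

open Classical in
/-- **the pure conclusion** -/
theorem pure_conclQ (hp : p.Prime) (hp2 : p ≠ 2) (hT : IsPGroup p T) (hq : ∀ u, q (q u) = q u)
    (hqE : ∀ φ ∈ E, ∀ u, φ (q u) = q (φ u))
    (hE : ∀ φ ∈ E, ∀ u : T, q u ≠ u → φ u = u → φ = 1) (hpE : ¬ p ∣ Nat.card E)
    (hd : RowDataQ p E q g f n a) (hr : ∀ i, ∃ u, q u ≠ u ∧ f i u ≠ 0)
    {Z : Finset T} (hZ1 : 1 ∈ Z) (hZq : ∀ u ∈ Z, q u = u) (hZE : ∀ u ∈ Z, ∀ φ ∈ E, φ u = u)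
    {lB : ℕ} (lam : T → ℕ) (hinv : ∀ φ ∈ E, ∀ u, lam (φ u) = lam u)
    (hlZ : ∀ u ∈ Z, lam u = lB) (hl1 : ∀ u, q u ≠ u → 1 ≤ lam u)
    (hl2 : ∀ u, q u = u → u ∉ Z →
      (Finset.univ.filter fun φ : E => (φ : MulAut T) u = u).card ≤ lam u)
    [Fintype (MulAction.orbitRel.Quotient E T)]
    (hk : ∑ r : MulAction.orbitRel.Quotient E T, lam r.out ≤ Fintype.card I) :
    lB ≤ Nat.card E := by
  have h1 := pure_countQ hp hp2 hT hq hqE hE hpE hd hr
  have h2 := sum_orbits E lam hinv
  set c : T → ℕ := fun u => (Finset.univ.filter fun φ : E => (φ : MulAut T) u = u).card with hc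
  change Nat.card E * _ = ∑ u : T, c u * lam u at h2
  change _ ≤ (Finset.univ.filter fun u : T => q u ≠ u).card + ∑ u : T with q u = u, c u ^ 2 at h1
  have hcZ : ∀ u ∈ Z, c u = Nat.card E := by
    intro u hu
    rw [Nat.card_eq_fintype_card, ← Finset.card_univ]
    change (Finset.univ.filter fun φ : E => (φ : MulAut T) u = u).card = _
    rw [Finset.filter_true_of_mem]
    exact fun φ _ => hZE u hu φ φ.2
  have hc1 : ∀ u, 1 ≤ c u := by
    intro u
    refine Finset.card_pos.2 ⟨1, ?_⟩
    rw [Finset.mem_filter]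
    exact ⟨Finset.mem_univ _, rfl⟩
  have h3 : ∑ u : T, c u * lam u ≤ Fintype.card I * Nat.card E := by
    rw [← h2, mul_comm (Fintype.card I)]
    exact Nat.mul_le_mul_left _ hk
  have h4 := h3.trans h1
  -- split the two sums
  have hs1 : ∑ u : T, c u * lam u = ∑ u : T with q u = u, c u * lam u
      + ∑ u : T with q u ≠ u, c u * lam u := by
    rw [Finset.sum_filter_add_sum_filter_not Finset.univ (fun u => q u = u)]
  have h5 : (Finset.univ.filter fun u : T => q u ≠ u).card ≤ ∑ u : T with q u ≠ u, c u * lam u := by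
    rw [Finset.card_eq_sum_ones]
    refine Finset.sum_le_sum fun u hu => ?_
    exact Nat.mul_pos (hc1 u) (hl1 u (Finset.mem_filter.1 hu).2)
  have h6 : ∑ u : T with q u = u, c u * lam u ≤ ∑ u : T with q u = u, c u ^ 2 := by
    rw [hs1] at h4
    omega
  have hsub : Z ⊆ Finset.univ.filter fun u : T => q u = u := by
    intro u hu
    exact Finset.mem_filter.2 ⟨Finset.mem_univ _, hZq u hu⟩
  rw [← Finset.sum_sdiff hsub, ← Finset.sum_sdiff hsub (f := fun u => c u ^ 2)] at h6
  have h7 : ∑ u ∈ (Finset.univ.filter fun u : T => q u = u) \ Z, c u ^ 2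
      ≤ ∑ u ∈ (Finset.univ.filter fun u : T => q u = u) \ Z, c u * lam u := by
    refine Finset.sum_le_sum fun u hu => ?_
    rw [Finset.mem_sdiff, Finset.mem_filter] at hu
    rw [pow_two]
    exact Nat.mul_le_mul_left _ (hl2 u hu.1.2 hu.2)
  have h8 : ∑ u ∈ Z, c u * lam u ≤ ∑ u ∈ Z, c u ^ 2 := by omega
  have h10 : ∑ u ∈ Z, c u * lam u = Z.card * (Nat.card E * lB) := by
    rw [Finset.sum_congr rfl (g := fun _ => Nat.card E * lB) fun u hu => by
      rw [hcZ u hu, hlZ u hu], Finset.sum_const, smul_eq_mul]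
  have h11 : ∑ u ∈ Z, c u ^ 2 = Z.card * Nat.card E ^ 2 := by
    rw [Finset.sum_congr rfl (g := fun _ => Nat.card E ^ 2) fun u hu => by
      rw [hcZ u hu], Finset.sum_const, smul_eq_mul]
  rw [h10, h11] at h8
  have hZ : 0 < Z.card := Finset.card_pos.2 ⟨1, hZ1⟩
  have h9 : Nat.card E * lB ≤ Nat.card E ^ 2 := Nat.le_of_mul_le_mul_left h8 hZ
  rw [pow_two] at h9
  exact Nat.le_of_mul_le_mul_left h9 Nat.card_pos

end

end Pool.Agent.Lib.P0c8ca5.Ex
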