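import Mathlib
import Pool.Agent.Lib.P0c8ca5Ex.R10
import Pool.Agent.Lib.P0c8ca5Ex.R11

/-!
# R12: the row bound and its consequence

`st E u`: the order of the stabilizer; `RB K E U`: the row bound for the set of places `U`;
`pure_countU`, `pure_conclU`: the consequences for rows with weights; `rb_q`: the row bound for
the places moved by an idempotent endomorphism commuting with `E`.
-/

namespace Pool.Agent.Lib.P0c8ca5.Ex

open Finset

set_option linter.unusedSectionVars false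

section
variable {T : Type*} [CommGroup T] [Fintype T]

/-- the order of the stabilizer of `u` in `E` -/
noncomputable def st (E : Subgroup (MulAut T)) (u : T) : ℕ :=
  Nat.card {φ : E // (φ : MulAut T) u = u}

/-- the row bound for the places `U` -/
def RB (K : Type*) [Field K] (E : Subgroup (MulAut T)) (U : T → Prop) : Prop :=
  ∀ (I : Type) [Fintype I] (g : I → T → K), (∀ i, g i ∈ vir T K) →
    (∀ i, ∀ φ ∈ E, ∀ u, U u → g i (φ u) = g i u) →
    (∀ u v, U u → U v → (∃ φ ∈ E, v = φ u) → ∑ i, g i u * g i v⁻¹ = (Fintype.card T : K)) →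
    (∀ u v, U u → U v → (¬ ∃ φ ∈ E, v = φ u) → ∑ i, g i u * g i v⁻¹ = 0) →
    (∀ i, ∃ u, U u ∧ g i u ≠ 0) →
    Fintype.card I * Nat.card E ≤ ∑ u : T, st E u ^ 2

variable {K : Type*} [Field K] [CharZero K]
variable {p : ℕ} {E : Subgroup (MulAut T)} {U : T → Prop} {I : Type} [Fintype I]
  {g f : I → T → K} {n : T → ℤ} {a : ℤ}

theorem st_pos (E : Subgroup (MulAut T)) [Finite E] (u : T) : 1 ≤ st E u := by
  have : Nonempty {φ : E // (φ : MulAut T) u = u} := ⟨⟨1, rfl⟩⟩
  exact Nat.card_pos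

theorem st_reg [Finite E] (hU : Places E U) {u : T} (hu : U u) : st E u = 1 := by
  rw [st, Nat.card_eq_one_iff_unique]
  refine ⟨⟨fun a b => ?_⟩, ⟨⟨1, rfl⟩⟩⟩
  have ha := hU.reg a.1 a.1.2 u hu a.2
  have hb := hU.reg b.1 b.1.2 u hu b.2
  exact Subtype.ext (Subtype.ext (ha.trans hb.symm))

theorem st_fix {u : T} (hu : ∀ φ ∈ E, φ u = u) : st E u = Nat.card E := by
  rw [st]
  exact Nat.card_congr (Equiv.subtypeUnivEquiv fun φ => hu φ φ.2)

open Classical in
theorem st_eq [Fintype E] (u : T) :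
    (Finset.univ.filter fun φ : E => (φ : MulAut T) u = u).card = st E u := by
  rw [st, Nat.card_eq_fintype_card, Fintype.card_subtype]

variable [HasEnoughRootsOfUnity K (Monoid.exponent T)]

/-- **the number of rows** -/
theorem pure_countU [Fintype E] (hRB : RB K E U) (hp : p.Prime) (hp2 : p ≠ 2) (hT : IsPGroup p T)
    (hU : Places E U) (hpE : ¬ p ∣ Nat.card E) (hd : RowDataU p E U g f n a)
    (hr : ∀ i, ∃ u, U u ∧ f i u ≠ 0) :
    Fintype.card I * Nat.card E ≤ ∑ u : T, st E u ^ 2 := by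
  obtain ⟨s, ψ, hψ, _, hψf, h1, h2, h3, h4⟩ := rows_gramU hp hp2 hT hU hpE hd
  refine hRB I ψ hψ h1 h2 h3 fun i => ?_
  obtain ⟨u, hu, hf⟩ := hr i
  exact ⟨u, hu, h4 i u hu hf⟩

/-- the conclusion from the two estimates -/
theorem concl_arith [Finite E] {Z : Finset T} (hZ1 : 1 ∈ Z) (hZE : ∀ u ∈ Z, ∀ φ ∈ E, φ u = u)
    {lB k : ℕ} (lam : T → ℕ) (hinv : ∀ φ ∈ E, ∀ u, lam (φ u) = lam u)
    (hlZ : ∀ u ∈ Z, lam u = lB) (hl : ∀ u, u ∉ Z → st E u ≤ lam u)
    [Fintype (MulAction.orbitRel.Quotient E T)]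
    (hk : ∑ r : MulAction.orbitRel.Quotient E T, lam r.out ≤ k)
    (hc : k * Nat.card E ≤ ∑ u : T, st E u ^ 2) : lB ≤ Nat.card E := by
  classical
  have := Fintype.ofFinite E
  have h2 := sum_orbits E lam hinv
  have h2' : ∑ u : T, (Finset.univ.filter fun φ : E => (φ : MulAut T) u = u).card * lam u
      = ∑ u : T, st E u * lam u := Finset.sum_congr rfl fun u _ => by rw [st_eq u]
  rw [h2'] at h2
  have h3 : ∑ u : T, st E u * lam u ≤ k * Nat.card E := by
    rw [← h2, mul_comm k]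
    exact Nat.mul_le_mul_left _ hk
  have h6 := h3.trans hc
  have hsub : Z ⊆ Finset.univ := Finset.subset_univ Z
  rw [← Finset.sum_sdiff hsub, ← Finset.sum_sdiff hsub (f := fun u => st E u ^ 2)] at h6
  have h7 : ∑ u ∈ Finset.univ \ Z, st E u ^ 2 ≤ ∑ u ∈ Finset.univ \ Z, st E u * lam u := by
    refine Finset.sum_le_sum fun u hu => ?_
    rw [Finset.mem_sdiff] at hu
    rw [pow_two]
    exact Nat.mul_le_mul_left _ (hl u hu.2)
  have h8 : ∑ u ∈ Z, st E u * lam u ≤ ∑ u ∈ Z, st E u ^ 2 := by omega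
  have h10 : ∑ u ∈ Z, st E u * lam u = Z.card * (Nat.card E * lB) := by
    rw [Finset.sum_congr rfl (g := fun _ => Nat.card E * lB) fun u hu => by
      rw [st_fix (hZE u hu), hlZ u hu], Finset.sum_const, smul_eq_mul]
  have h11 : ∑ u ∈ Z, st E u ^ 2 = Z.card * Nat.card E ^ 2 := by
    rw [Finset.sum_congr rfl (g := fun _ => Nat.card E ^ 2) fun u hu => by
      rw [st_fix (hZE u hu)], Finset.sum_const, smul_eq_mul]
  rw [h10, h11] at h8
  have hZ : 0 < Z.card := Finset.card_pos.2 ⟨1, hZ1⟩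
  have h9 : Nat.card E * lB ≤ Nat.card E ^ 2 := Nat.le_of_mul_le_mul_left h8 hZ
  rw [pow_two] at h9
  exact Nat.le_of_mul_le_mul_left h9 Nat.card_pos

/-- **the pure conclusion** -/
theorem pure_conclU [Fintype E] (hRB : RB K E U) (hp : p.Prime) (hp2 : p ≠ 2) (hT : IsPGroup p T)
    (hU : Places E U) (hpE : ¬ p ∣ Nat.card E) (hd : RowDataU p E U g f n a)
    (hr : ∀ i, ∃ u, U u ∧ f i u ≠ 0)
    {Z : Finset T} (hZ1 : 1 ∈ Z) (hZE : ∀ u ∈ Z, ∀ φ ∈ E, φ u = u)
    {lB : ℕ} (lam : T → ℕ) (hinv : ∀ φ ∈ E, ∀ u, lam (φ u) = lam u)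
    (hlZ : ∀ u ∈ Z, lam u = lB) (hl : ∀ u, u ∉ Z → st E u ≤ lam u)
    [Fintype (MulAction.orbitRel.Quotient E T)]
    (hk : ∑ r : MulAction.orbitRel.Quotient E T, lam r.out ≤ Fintype.card I) :
    lB ≤ Nat.card E :=
  concl_arith hZ1 hZE lam hinv hlZ hl hk (pure_countU hRB hp hp2 hT hU hpE hd hr)

/-- the places moved by `q` -/
theorem places_q {q : T →* T} (hqE : ∀ φ ∈ E, ∀ u, φ (q u) = q (φ u))
    (hE : ∀ φ ∈ E, ∀ u, q u ≠ u → φ u = u → φ = 1) : Places E (fun u => q u ≠ u) where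
  gen := moved_gen q
  act φ hφ u hu := by
    rw [← hqE φ hφ]
    exact fun h => hu (φ.injective h)
  reg := hE

/-- **the row bound for the places moved by `q`** -/
theorem rb_q [Finite E] (hc : (Nat.card E).Coprime (Nat.card T)) {q : T →* T}
    (hq : ∀ u, q (q u) = q u) (hqE : ∀ φ ∈ E, ∀ u, φ (q u) = q (φ u))
    (hE : ∀ φ ∈ E, ∀ u, q u ≠ u → φ u = u → φ = 1) : RB K E (fun u => q u ≠ u) := by
  classical
  have := Fintype.ofFinite E
  intro I _ g hg hinv horth horth0 hne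
  have h1 := count_rowsQ E hc hq hqE hE g hg hinv horth horth0 hne
  refine h1.trans (le_of_eq ?_)
  have h2 : (Finset.univ.filter fun u : T => q u ≠ u).card = ∑ u : T with q u ≠ u, st E u ^ 2 := by
    rw [Finset.card_eq_sum_ones]
    refine Finset.sum_congr rfl fun u hu => ?_
    rw [st_reg (places_q hqE hE) (Finset.mem_filter.1 hu).2, one_pow]
  have h3 : ∑ u : T with q u = u,
      (Finset.univ.filter fun φ : E => (φ : MulAut T) u = u).card ^ 2
      = ∑ u : T with q u = u, st E u ^ 2 :=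
    Finset.sum_congr rfl fun u _ => by rw [st_eq u]
  rw [h2, h3, add_comm]
  exact Finset.sum_filter_add_sum_filter_not Finset.univ (fun u => q u = u) _

/-- the row bound for free actions -/
theorem rb_free [Finite E] (hc : (Nat.card E).Coprime (Nat.card T))
    (hE : ∀ φ ∈ E, ∀ u : T, u ≠ 1 → φ u = u → φ = 1) : RB K E (fun u => u ≠ 1) := by
  have h1 := rb_q (K := K) (E := E) (q := (1 : T →* T)) hc (fun u => rfl)
    (fun φ _ u => by rw [MonoidHom.one_apply, MonoidHom.one_apply, map_one])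
    (fun φ hφ u hu => hE φ hφ u fun h => hu (by rw [MonoidHom.one_apply, h]))
  have h2 : (fun u : T => (1 : T →* T) u ≠ u) = fun u => u ≠ 1 := by
    funext u
    rw [MonoidHom.one_apply, ne_comm]
  rwa [h2] at h1

end

end Pool.Agent.Lib.P0c8ca5.Ex
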