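import Mathlib
import Pool.Agent.Lib.P0c8ca5Ex.R12

/-!
# GP: the number of rational rows

Rows `g i`, virtual characters of the abelian p-group `T`, with Gram matrix `|T| [v ∈ E u]` on a
set `U` of regular places. `bessel`: the Bessel inequality for integral combinations of rational
rows. `rational_rows`: if `2 |T| |E| < (p - 1) |U|` then the number `r` of rows which are rational,
constant on the generators of the cyclic subgroups and nowhere zero on `U` satisfies
`2 r < p - 1`.
-/

namespace Pool.Agent.Lib.P0c8ca5.Ex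

open Finset

set_option linter.unusedSectionVars false

section cd

open scoped Pointwise

/-- the sums with coefficients `0, 1, -1` of `n` nonzero elements of `ZMod p` -/
theorem signed_card {p : ℕ} (hp : p.Prime) (hp2 : p ≠ 2) {J : Type*} [DecidableEq J]
    (a : J → ZMod p) (S : Finset J) (ha : ∀ j ∈ S, a j ≠ 0) :
    ∃ A : Finset (ZMod p), A.Nonempty ∧ min p (2 * S.card + 1) ≤ A.card ∧
      ∀ b ∈ A, ∃ y : J → ℤ, (∀ j, y j ^ 2 ≤ 1) ∧ ∑ j ∈ S, (y j : ZMod p) * a j = b := by
  induction S using Finset.induction_on with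
  | empty =>
    refine ⟨{0}, Finset.singleton_nonempty 0, ?_, ?_⟩
    · rw [Finset.card_empty, Finset.card_singleton]
      exact min_le_right _ _
    · intro b hb
      refine ⟨fun _ => 0, fun _ => by norm_num, ?_⟩
      rw [Finset.mem_singleton.1 hb]
      simp
  | insert j S hj ih =>
    obtain ⟨A, hA1, hA2, hA3⟩ := ih fun i hi => ha i (Finset.mem_insert_of_mem hi)
    have haj : a j ≠ 0 := ha j (Finset.mem_insert_self j S)
    have hneg : a j ≠ -a j := by
      intro h
      have h1 : (2 : ZMod p) * a j = 0 := by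
        have h2 : a j + a j = 0 := by
          nth_rewrite 1 [h]
          exact neg_add_cancel _
        rw [two_mul, h2]
      have := Fact.mk hp
      rcases mul_eq_zero.1 h1 with h2 | h2
      · have h3 : ((2 : ℕ) : ZMod p) = 0 := by exact_mod_cast h2
        rw [ZMod.natCast_eq_zero_iff] at h3
        exact hp2 ((Nat.prime_dvd_prime_iff_eq hp Nat.prime_two).1 h3)
      · exact haj h2
    have h3 : ({0, a j, -a j} : Finset (ZMod p)).card = 3 := by
      rw [Finset.card_eq_three]
      exact ⟨0, a j, -a j, haj.symm, fun h => haj (neg_eq_zero.1 h.symm), hneg, rfl⟩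
    have hne : ({0, a j, -a j} : Finset (ZMod p)).Nonempty := ⟨0, by simp⟩
    refine ⟨A + {0, a j, -a j}, hA1.add hne, ?_, ?_⟩
    · have h4 := ZMod.cauchy_davenport hp hA1 hne
      rw [h3] at h4
      rw [Finset.card_insert_of_notMem hj]
      refine le_trans ?_ h4
      omega
    · intro b hb
      obtain ⟨c, hc, d, hd, rfl⟩ := Finset.mem_add.1 hb
      obtain ⟨y, hy1, hy2⟩ := hA3 c hc
      obtain ⟨e, he1, he2⟩ : ∃ e : ℤ, e ^ 2 ≤ 1 ∧ (e : ZMod p) * a j = d := by
        rw [Finset.mem_insert, Finset.mem_insert, Finset.mem_singleton] at hd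
        rcases hd with hd | hd | hd
        · exact ⟨0, by norm_num, by rw [hd]; simp⟩
        · exact ⟨1, by norm_num, by rw [hd]; simp⟩
        · exact ⟨-1, by norm_num, by rw [hd]; simp⟩
      refine ⟨Function.update y j e, fun i => ?_, ?_⟩
      · by_cases hi : i = j
        · rw [hi, Function.update_self]
          exact he1
        · rw [Function.update_of_ne hi]
          exact hy1 i
      · rw [Finset.sum_insert hj, Function.update_self, he2, ← hy2, add_comm]
        congr 1
        refine Finset.sum_congr rfl fun i hi => ?_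
        rw [Function.update_of_ne]
        rintro rfl
        exact hj hi

/-- every element of `ZMod p` is a signed sum -/
theorem signed_sums {p : ℕ} (hp : p.Prime) (hp2 : p ≠ 2) {J : Type*} [DecidableEq J]
    (a : J → ZMod p) (S : Finset J) (ha : ∀ j ∈ S, a j ≠ 0) (hS : p ≤ 2 * S.card + 1)
    (b : ZMod p) : ∃ y : J → ℤ, (∀ j, y j ^ 2 ≤ 1) ∧ ∑ j ∈ S, (y j : ZMod p) * a j = b := by
  have := Fact.mk hp
  obtain ⟨A, -, hA2, hA3⟩ := signed_card hp hp2 a S ha
  rw [min_eq_left hS] at hA2
  have h1 : A = Finset.univ := by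
    rw [← Finset.card_eq_iff_eq_univ, ZMod.card]
    refine le_antisymm ?_ hA2
    have := Finset.card_le_univ A
    rwa [ZMod.card] at this
  exact hA3 b (by rw [h1]; exact Finset.mem_univ b)

end cd

section
variable {T : Type*} [CommGroup T] [Fintype T] {K : Type*} [Field K] [CharZero K]
variable {p : ℕ} {E : Subgroup (MulAut T)} [Fintype E] {U : T → Prop} [DecidablePred U]
  {I : Type*} [Fintype I] {g : I → T → K}

/-- **the Bessel inequality** -/
theorem bessel (hU : Places E U) (hg : ∀ i, g i ∈ vir T K)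
    (horth : ∀ u v, U u → U v → (∃ φ ∈ E, v = φ u) →
      ∑ i, g i u * g i v⁻¹ = (Fintype.card T : K))
    (horth0 : ∀ u v, U u → U v → (¬ ∃ φ ∈ E, v = φ u) → ∑ i, g i u * g i v⁻¹ = 0)
    {R : Finset I} {z : I → T → ℤ} (hz : ∀ j ∈ R, ∀ u, U u → g j u = (z j u : K))
    (hzg : ∀ j ∈ R, ∀ u v, U u → Subgroup.zpowers v = Subgroup.zpowers u → z j v = z j u)
    (hzE : ∀ j ∈ R, ∀ φ ∈ E, ∀ u, U u → z j (φ u) = z j u) (y : I → ℤ) :
    ∑ u with U u, (∑ j ∈ R, y j * z j u) ^ 2
      ≤ ((Fintype.card T * Nat.card E : ℕ) : ℤ) * ∑ j ∈ R, y j ^ 2 := by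
  classical
  set F : T → ℤ := fun u => ∑ j ∈ R, y j * z j u with hF
  set C : ℤ := ((Fintype.card T * Nat.card E : ℕ) : ℤ) with hC
  have hFg : ∀ u v, U u → Subgroup.zpowers v = Subgroup.zpowers u → F v = F u := by
    intro u v hu h
    exact Finset.sum_congr rfl fun j hj => by rw [hzg j hj u v hu h]
  have hFE : ∀ φ ∈ E, ∀ u, U u → F (φ u) = F u := by
    intro φ hφ u hu
    exact Finset.sum_congr rfl fun j hj => by rw [hzE j hj φ hφ u hu]
  -- the scalar products with the rows
  have ht : ∀ i, ∃ t : ℤ, ∑ u with U u, (F u : K) * g i u = (t : K) := by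
    intro i
    have hl : Loc (fun u => if U u then (F u : K) * g i u else 0) := by
      intro u
      by_cases hu : U u
      · refine ⟨(F u) • g i, zsmul_mem (hg i) _, fun v hv => ?_⟩
        change (if U v then (F v : K) * g i v else 0) = _
        rw [if_pos (hU.gen u v hv hu), hFg u v hu hv, Pi.smul_apply, zsmul_eq_mul]
      · refine ⟨0, (vir T K).zero_mem, fun v hv => ?_⟩
        change (if U v then (F v : K) * g i v else 0) = _
        rw [if_neg fun h => hu (hU.gen v u hv.symm h)]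
        rfl
    obtain ⟨a, ha⟩ := hl.sum_int
    refine ⟨a, ?_⟩
    rw [← ha, Finset.sum_filter]
  choose t ht using ht
  have ht' : ∀ i, ∑ u with U u, (F u : K) * g i u⁻¹ = (t i : K) := by
    intro i
    rw [← ht i]
    refine Finset.sum_bij (fun u _ => u⁻¹) ?_ ?_ ?_ ?_
    · intro u hu
      rw [Finset.mem_filter] at hu ⊢
      exact ⟨Finset.mem_univ _, hU.inv hu.2⟩
    · intro u _ v _ h
      exact inv_injective h
    · intro u hu
      rw [Finset.mem_filter] at hu
      exact ⟨u⁻¹, Finset.mem_filter.2 ⟨Finset.mem_univ _, hU.inv hu.2⟩, inv_inv u⟩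
    · intro u hu
      rw [Finset.mem_filter] at hu
      rw [hFg u u⁻¹ hu.2 Subgroup.zpowers_inv]
  set Q : ℤ := ∑ u with U u, F u ^ 2 with hQ
  -- the sum of the squares
  have h1 : ∑ i, t i ^ 2 = C * Q := by
    have h2 : ((∑ i, t i ^ 2 : ℤ) : K) = ((C * Q : ℤ) : K) := by
      have h3 : ∀ i, ((t i ^ 2 : ℤ) : K)
          = ∑ u with U u, ∑ v with U v, (F u : K) * (F v : K) * (g i u * g i v⁻¹) := by
        intro i
        push_cast
        rw [pow_two]
        nth_rewrite 1 [← ht i]
        rw [← ht' i, Finset.sum_mul_sum]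
        refine Finset.sum_congr rfl fun u _ => Finset.sum_congr rfl fun v _ => ?_
        ring
      rw [Int.cast_sum, Finset.sum_congr rfl fun i _ => h3 i, Finset.sum_comm, hQ, Finset.mul_sum,
        Int.cast_sum]
      refine Finset.sum_congr rfl fun u hu => ?_
      rw [Finset.mem_filter] at hu
      rw [Finset.sum_comm]
      have h4 : ∀ v, ∑ i, (F u : K) * (F v : K) * (g i u * g i v⁻¹)
          = (F u : K) * (F v : K) * ∑ i, g i u * g i v⁻¹ := by
        intro v
        rw [Finset.mul_sum]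
      rw [Finset.sum_congr rfl fun v _ => h4 v, Finset.sum_filter,
        sum_orbitQ E (fun φ hφ => hU.reg φ hφ u hu.2)]
      · have h5 : ∀ φ : E, (if U ((φ : MulAut T) u) then
            (F u : K) * (F ((φ : MulAut T) u) : K) * ∑ i, g i u * g i ((φ : MulAut T) u)⁻¹ else 0)
            = (F u : K) * (F u : K) * (Fintype.card T : K) := by
          intro φ
          rw [if_pos (hU.act φ φ.2 u hu.2), hFE φ φ.2 u hu.2,
            horth u _ hu.2 (hU.act φ φ.2 u hu.2) ⟨φ, φ.2, rfl⟩]
        rw [Finset.sum_congr rfl fun φ _ => h5 φ, Finset.sum_const, Finset.card_univ,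
          ← Nat.card_eq_fintype_card, nsmul_eq_mul, hC]
        push_cast
        ring
      · intro v hv
        by_cases hv1 : U v
        · rw [if_pos hv1, horth0 u v hu.2 hv1 hv, mul_zero]
        · rw [if_neg hv1]
    exact_mod_cast h2
  -- the rational rows
  have h2 : ∀ j ∈ R, t j = ∑ u with U u, F u * z j u := by
    intro j hj
    have h3 : ((t j : ℤ) : K) = ((∑ u with U u, F u * z j u : ℤ) : K) := by
      rw [← ht j]
      push_cast
      refine Finset.sum_congr rfl fun u hu => ?_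
      rw [Finset.mem_filter] at hu
      rw [hz j hj u hu.2]
    exact_mod_cast h3
  have h3 : Q = ∑ j ∈ R, y j * t j := by
    rw [Finset.sum_congr rfl fun j hj => by rw [h2 j hj], hQ]
    have h4 : ∀ j, y j * ∑ u with U u, F u * z j u = ∑ u with U u, F u * (y j * z j u) := by
      intro j
      rw [Finset.mul_sum]
      exact Finset.sum_congr rfl fun u _ => by ring
    rw [Finset.sum_congr rfl fun j _ => h4 j, Finset.sum_comm]
    refine Finset.sum_congr rfl fun u _ => ?_
    rw [← Finset.mul_sum, pow_two]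
  have h4 : Q ^ 2 ≤ (∑ j ∈ R, y j ^ 2) * (C * Q) := by
    calc Q ^ 2 = (∑ j ∈ R, y j * t j) ^ 2 := by rw [← h3]
      _ ≤ (∑ j ∈ R, y j ^ 2) * ∑ j ∈ R, t j ^ 2 := Finset.sum_mul_sq_le_sq_mul_sq R y t
      _ ≤ (∑ j ∈ R, y j ^ 2) * ∑ i, t i ^ 2 :=
        mul_le_mul_of_nonneg_left (Finset.sum_le_sum_of_subset_of_nonneg (Finset.subset_univ R)
          fun _ _ _ => sq_nonneg _) (Finset.sum_nonneg fun _ _ => sq_nonneg _)
      _ = _ := by rw [h1]
  have hQ0 : 0 ≤ Q := Finset.sum_nonneg fun _ _ => sq_nonneg _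
  have hy0 : 0 ≤ ∑ j ∈ R, y j ^ 2 := Finset.sum_nonneg fun _ _ => sq_nonneg _
  have hC0 : 0 ≤ C := Int.natCast_nonneg _
  rcases hQ0.eq_or_lt with h5 | h5
  · rw [← h5]
    positivity
  · have h6 : Q * Q ≤ (C * ∑ j ∈ R, y j ^ 2) * Q := by nlinarith
    exact le_of_mul_le_mul_right h6 h5

/-- an integer congruent to `b`, `2 b < p`, has absolute value at least `b` -/
theorem sq_ge_of_cong {p : ℕ} {b x : ℤ} (hb : 0 ≤ b) (hb2 : 2 * b ≤ p) (h : (p : ℤ) ∣ x - b) :
    b ^ 2 ≤ x ^ 2 := by
  obtain ⟨m, hm⟩ := h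
  have hx : x = b + p * m := by linarith
  rw [sq_le_sq, abs_of_nonneg hb]
  rcases le_or_gt 0 m with h1 | h1
  · have h2 : 0 ≤ (p : ℤ) * m := by positivity
    rw [abs_of_nonneg (by linarith)]
    linarith
  · have h2 : (p : ℤ) * m ≤ -p := by
      have h3 : m ≤ -1 := by omega
      have h4 : (p : ℤ) * m ≤ p * (-1) := mul_le_mul_of_nonneg_left h3 (Int.natCast_nonneg p)
      linarith
    rw [abs_of_nonpos (by linarith)]
    linarith

/-- **the number of rational rows** -/
theorem rational_rows (hp : p.Prime) (hp2 : p ≠ 2) (hT : IsPGroup p T) (hU : Places E U)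
    (hg : ∀ i, g i ∈ vir T K)
    (hinv : ∀ i, ∀ φ ∈ E, ∀ u, U u → g i (φ u) = g i u)
    (horth : ∀ u v, U u → U v → (∃ φ ∈ E, v = φ u) →
      ∑ i, g i u * g i v⁻¹ = (Fintype.card T : K))
    (horth0 : ∀ u v, U u → U v → (¬ ∃ φ ∈ E, v = φ u) → ∑ i, g i u * g i v⁻¹ = 0)
    {R : Finset I} (hint : ∀ j ∈ R, ∀ u, U u → ∃ z : ℤ, g j u = (z : K))
    (hgal : ∀ j ∈ R, ∀ u v, U u → Subgroup.zpowers v = Subgroup.zpowers u → g j v = g j u)
    (hne : ∀ j ∈ R, ∀ u, U u → g j u ≠ 0)
    (h : 2 * (Nat.card T * Nat.card E) < (p - 1) * (Finset.univ.filter fun u => U u).card) :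
    2 * R.card < p - 1 := by
  classical
  -- the integers
  have hz : ∀ j u, ∃ z : ℤ, (j ∈ R ∧ U u → g j u = (z : K)) := by
    intro j u
    by_cases hju : j ∈ R ∧ U u
    · obtain ⟨z, hz⟩ := hint j hju.1 u hju.2
      exact ⟨z, fun _ => hz⟩
    · exact ⟨0, fun h => absurd h hju⟩
  choose z hz using hz
  have hz' : ∀ j ∈ R, ∀ u, U u → g j u = (z j u : K) := fun j hj u hu => hz j u ⟨hj, hu⟩
  have hzg : ∀ j ∈ R, ∀ u v, U u → Subgroup.zpowers v = Subgroup.zpowers u → z j v = z j u := by
    intro j hj u v hu hv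
    have h1 := hgal j hj u v hu hv
    rw [hz' j hj u hu, hz' j hj v (hU.gen u v hv hu)] at h1
    exact_mod_cast h1
  have hzE : ∀ j ∈ R, ∀ φ ∈ E, ∀ u, U u → z j (φ u) = z j u := by
    intro j hj φ hφ u hu
    have h1 := hinv j φ hφ u hu
    rw [hz' j hj u hu, hz' j hj _ (hU.act φ hφ u hu)] at h1
    exact_mod_cast h1
  choose a ha using fun j => vir_one (hg j)
  have hcong : ∀ j ∈ R, ∀ u, U u → (p : ℤ) ∣ z j u - a j := fun j hj u hu =>
    vir_congr hp hp2 hT (hg j) (hz' j hj u hu) (ha j)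
  have hbes := bessel hU hg horth horth0 hz' hzg hzE
  set N : ℕ := (Finset.univ.filter fun u => U u).card with hN
  set C : ℕ := Fintype.card T * Nat.card E with hC
  rw [Nat.card_eq_fintype_card] at h
  change 2 * C < (p - 1) * N at h
  have hNpos : 0 < N := by
    rcases Nat.eq_zero_or_pos N with h0 | h0
    · rw [h0, mul_zero] at h
      omega
    · exact h0
  have hp3 : 3 ≤ p := by
    have := hp.two_le
    omega
  -- the values at 1 are not divisible by `p`
  have haj : ∀ j ∈ R, ((a j : ℤ) : ZMod p) ≠ 0 := by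
    intro j hj h0
    rw [ZMod.intCast_zmod_eq_zero_iff_dvd] at h0
    have h1 : ∀ u, U u → (p : ℤ) ^ 2 ≤ z j u ^ 2 := by
      intro u hu
      have h2 : (p : ℤ) ∣ z j u := by
        have := dvd_add (hcong j hj u hu) h0
        rwa [sub_add_cancel] at this
      obtain ⟨m, hm⟩ := h2
      have hm0 : m ≠ 0 := by
        rintro rfl
        rw [mul_zero] at hm
        apply hne j hj u hu
        rw [hz' j hj u hu, hm, Int.cast_zero]
      rw [hm, mul_pow]
      have h3 : (1 : ℤ) ≤ m ^ 2 := by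
        have : 0 < m ^ 2 := by positivity
        omega
      nlinarith [sq_nonneg (p : ℤ)]
    have h2 := hbes (fun i => if i = j then 1 else 0)
    have h3 : ∀ u, ∑ i ∈ R, (if i = j then (1 : ℤ) else 0) * z i u = z j u := by
      intro u
      rw [Finset.sum_eq_single j]
      · rw [if_pos rfl, one_mul]
      · intro i _ hi
        rw [if_neg hi, zero_mul]
      · intro h4
        exact absurd hj h4
    have h4 : ∑ i ∈ R, (if i = j then (1 : ℤ) else 0) ^ 2 = 1 := by
      rw [Finset.sum_eq_single j]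
      · rw [if_pos rfl, one_pow]
      · intro i _ hi
        rw [if_neg hi, zero_pow two_ne_zero]
      · intro h4
        exact absurd hj h4
    rw [Finset.sum_congr rfl fun u _ => by rw [h3 u], h4, mul_one] at h2
    have h5 : (N : ℤ) * (p : ℤ) ^ 2 ≤ ∑ u with U u, z j u ^ 2 := by
      have := Finset.card_nsmul_le_sum (Finset.univ.filter fun u => U u) (fun u => z j u ^ 2)
        ((p : ℤ) ^ 2) (fun u hu => h1 u (Finset.mem_filter.1 hu).2)
      rwa [nsmul_eq_mul] at this
    have h6 : (N : ℤ) * (p : ℤ) ^ 2 ≤ (C : ℤ) := h5.trans h2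
    have h7 : N * p ^ 2 ≤ C := by exact_mod_cast h6
    have h8 : (p - 1) * N ≤ N * p ^ 2 := by
      rw [mul_comm]
      refine Nat.mul_le_mul_left N ?_
      calc p - 1 ≤ p := Nat.sub_le p 1
        _ ≤ p ^ 2 := Nat.le_self_pow two_ne_zero p
    omega
  -- the contradiction
  by_contra hR
  push Not at hR
  obtain ⟨n, hn⟩ : ∃ n, p = 2 * n + 1 := (hp.odd_of_ne_two hp2)
  have hn1 : n ≤ R.card := by omega
  obtain ⟨S, hSR, hS⟩ := Finset.exists_subset_card_eq hn1
  obtain ⟨y, hy1, hy2⟩ := signed_sums hp hp2 (fun j => ((a j : ℤ) : ZMod p)) S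
    (fun j hj => haj j (hSR hj)) (by rw [hS, hn]) ((n : ℕ) : ZMod p)
  have h1 := hbes (fun j => if j ∈ S then y j else 0)
  have h2 : ∀ u, ∑ j ∈ R, (if j ∈ S then y j else 0) * z j u = ∑ j ∈ S, y j * z j u := by
    intro u
    rw [← Finset.sum_subset hSR]
    · exact Finset.sum_congr rfl fun j hj => by rw [if_pos hj]
    · intro j _ hj
      rw [if_neg hj, zero_mul]
  have h3 : ∑ j ∈ R, (if j ∈ S then y j else 0) ^ 2 ≤ (n : ℤ) := by
    have h4 : ∑ j ∈ R, (if j ∈ S then y j else 0) ^ 2 = ∑ j ∈ S, y j ^ 2 := by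
      rw [← Finset.sum_subset hSR]
      · exact Finset.sum_congr rfl fun j hj => by rw [if_pos hj]
      · intro j _ hj
        rw [if_neg hj, zero_pow two_ne_zero]
    rw [h4, ← hS]
    have := Finset.sum_le_card_nsmul S (fun j => y j ^ 2) 1 fun j _ => hy1 j
    rwa [nsmul_eq_mul, mul_one] at this
  rw [Finset.sum_congr rfl fun u _ => by rw [h2 u]] at h1
  -- the combination is congruent to `n`
  have h4 : ∀ u, U u → (n : ℤ) ^ 2 ≤ (∑ j ∈ S, y j * z j u) ^ 2 := by
    intro u hu
    refine sq_ge_of_cong (p := p) (Int.natCast_nonneg n) (by rw [hn]; push_cast; linarith) ?_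
    rw [← ZMod.intCast_zmod_eq_zero_iff_dvd]
    push_cast
    rw [sub_eq_zero, ← hy2]
    refine Finset.sum_congr rfl fun j hj => ?_
    have h5 := hcong j (hSR hj) u hu
    rw [← ZMod.intCast_zmod_eq_zero_iff_dvd] at h5
    push_cast at h5
    rw [sub_eq_zero.1 h5]
  have h5 : (N : ℤ) * (n : ℤ) ^ 2 ≤ ∑ u with U u, (∑ j ∈ S, y j * z j u) ^ 2 := by
    have := Finset.card_nsmul_le_sum (Finset.univ.filter fun u => U u)
      (fun u => (∑ j ∈ S, y j * z j u) ^ 2) ((n : ℤ) ^ 2)
      (fun u hu => h4 u (Finset.mem_filter.1 hu).2)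
    rwa [nsmul_eq_mul] at this
  have h6 : (N : ℤ) * (n : ℤ) ^ 2 ≤ (C : ℤ) * n :=
    (h5.trans h1).trans (mul_le_mul_of_nonneg_left h3 (Int.natCast_nonneg C))
  have h7 : N * n ^ 2 ≤ C * n := by exact_mod_cast h6
  have hnpos : 0 < n := by omega
  have h8 : N * n ≤ C := by
    rw [pow_two, ← mul_assoc] at h7
    exact Nat.le_of_mul_le_mul_right h7 hnpos
  have h9 : (p - 1) * N = 2 * (N * n) := by
    rw [hn, Nat.add_sub_cancel]
    ring
  omega

end

section reg
variable {T : Type*} [CommGroup T] [Fintype T]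
variable {p : ℕ} {E : Subgroup (MulAut T)}

/-- the regular elements -/
theorem places_reg [Finite E] : Places E (fun u => st E u = 1) where
  gen := by
    intro u v h hu
    have h1 : ∀ φ : MulAut T, φ v = v ↔ φ u = u := by
      have h2 : ∀ (a b : T), Subgroup.zpowers a = Subgroup.zpowers b → ∀ φ : MulAut T,
          φ a = a → φ b = b := by
        intro a b hab φ ha
        have h3 : b ∈ Subgroup.zpowers a := by
          rw [hab]
          exact Subgroup.mem_zpowers b
        obtain ⟨k, rfl⟩ := Subgroup.mem_zpowers_iff.1 h3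
        rw [map_zpow, ha]
      exact fun φ => ⟨h2 v u h φ, h2 u v h.symm φ⟩
    rw [← hu, st, st]
    exact Nat.card_congr (Equiv.subtypeEquivRight fun φ => h1 φ)
  act := by
    intro ψ hψ u hu
    rw [← hu, st, st]
    refine Nat.card_congr ?_
    refine Equiv.subtypeEquiv (MulAut.conj (⟨ψ, hψ⟩ : E)⁻¹).toEquiv fun φ => ?_
    have h1 : (((MulAut.conj (⟨ψ, hψ⟩ : E)⁻¹).toEquiv φ : E) : MulAut T) = ψ⁻¹ * φ * ψ := by
      change (((⟨ψ, hψ⟩ : E)⁻¹ * φ * ((⟨ψ, hψ⟩ : E)⁻¹)⁻¹ : E) : MulAut T) = _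
      rw [inv_inv]
      rfl
    rw [h1, MulAut.mul_apply, MulAut.mul_apply]
    constructor
    · intro h
      rw [h, MulAut.inv_apply_self]
    · intro h
      have h2 := congrArg ψ h
      rw [MulAut.apply_inv_self] at h2
      exact h2
  reg := by
    intro φ hφ u hu h
    rw [st, Nat.card_eq_one_iff_unique] at hu
    have h1 : (⟨⟨φ, hφ⟩, h⟩ : {φ : E // (φ : MulAut T) u = u}) = ⟨1, rfl⟩ :=
      hu.1.elim _ _
    have h2 := congrArg (fun x : {φ : E // (φ : MulAut T) u = u} => ((x : E) : MulAut T)) h1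
    exact h2

/-- the fixed points of an automorphism -/
theorem card_fix (hp : p.Prime) (hT : IsPGroup p T) {φ : MulAut T} (hφ : φ ≠ 1) :
    p * Nat.card {u : T // φ u = u} ≤ Nat.card T := by
  have := Fact.mk hp
  let H : Subgroup T := (φ : T ≃* T).toMonoidHom.eqLocus (MonoidHom.id T)
  have hH : H ≠ ⊤ := by
    intro h
    apply hφ
    ext u
    have h1 : u ∈ H := by
      rw [h]
      exact Subgroup.mem_top u
    exact h1
  have hcard : Nat.card {u : T // φ u = u} = Nat.card H := rfl
  obtain ⟨m, hm⟩ := IsPGroup.iff_card.1 hT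
  have h1 : H.index ∣ p ^ m := by
    rw [← hm]
    exact H.index_dvd_card
  obtain ⟨j, -, hj⟩ := (Nat.dvd_prime_pow hp).1 h1
  have h2 : H.index ≠ 1 := fun h => hH (Subgroup.index_eq_one.1 h)
  have h3 : p ≤ H.index := by
    rw [hj] at h2 ⊢
    rcases j with _ | j
    · exact absurd (pow_zero p) h2
    · exact Nat.le_self_pow (Nat.succ_ne_zero j) p
  rw [hcard, ← H.card_mul_index, mul_comm]
  exact Nat.mul_le_mul_left _ h3

open Classical in
/-- the number of regular elements -/
theorem card_reg [Finite E] (hp : p.Prime) (hT : IsPGroup p T) :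
    p * Nat.card T ≤ p * (Finset.univ.filter fun u : T => st E u = 1).card
      + (Nat.card E - 1) * Nat.card T := by
  have := Fintype.ofFinite E
  have h1 : Nat.card T = (Finset.univ.filter fun u : T => st E u = 1).card
      + (Finset.univ.filter fun u : T => ¬ st E u = 1).card := by
    rw [Finset.card_filter_add_card_filter_not, Finset.card_univ, Nat.card_eq_fintype_card]
  have h2 : (Finset.univ.filter fun u : T => ¬ st E u = 1)
      ⊆ (Finset.univ.erase (1 : E)).biUnion
        fun φ => Finset.univ.filter fun u : T => (φ : MulAut T) u = u := by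
    intro u hu
    rw [Finset.mem_filter] at hu
    rw [Finset.mem_biUnion]
    by_contra hcon
    push Not at hcon
    apply hu.2
    rw [st, Nat.card_eq_one_iff_unique]
    have h3 : ∀ φ : E, (φ : MulAut T) u = u → φ = 1 := by
      intro φ hφ
      by_contra hne
      exact hcon φ (Finset.mem_erase.2 ⟨hne, Finset.mem_univ _⟩)
        (Finset.mem_filter.2 ⟨Finset.mem_univ _, hφ⟩)
    exact ⟨⟨fun a b => Subtype.ext ((h3 a.1 a.2).trans (h3 b.1 b.2).symm)⟩, ⟨⟨1, rfl⟩⟩⟩
  have h4 : p * (Finset.univ.filter fun u : T => ¬ st E u = 1).card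
      ≤ (Nat.card E - 1) * Nat.card T := by
    calc p * (Finset.univ.filter fun u : T => ¬ st E u = 1).card
        ≤ p * ∑ φ ∈ Finset.univ.erase (1 : E),
          (Finset.univ.filter fun u : T => (φ : MulAut T) u = u).card :=
          Nat.mul_le_mul_left _ ((Finset.card_le_card h2).trans Finset.card_biUnion_le)
      _ = ∑ φ ∈ Finset.univ.erase (1 : E),
          p * (Finset.univ.filter fun u : T => (φ : MulAut T) u = u).card := Finset.mul_sum _ _ _
      _ ≤ ∑ _φ ∈ Finset.univ.erase (1 : E), Nat.card T := by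
        refine Finset.sum_le_sum fun φ hφ => ?_
        have h5 := card_fix hp hT (φ := (φ : MulAut T))
          (fun h => (Finset.mem_erase.1 hφ).1 (Subtype.ext h))
        rwa [Nat.card_eq_fintype_card (α := {u : T // (φ : MulAut T) u = u}),
          Fintype.card_subtype] at h5
      _ = (Nat.card E - 1) * Nat.card T := by
        rw [Finset.sum_const, Finset.card_erase_of_mem (Finset.mem_univ _), Finset.card_univ,
          smul_eq_mul, Nat.card_eq_fintype_card (α := E)]
  rw [h1, mul_add]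
  rw [h1] at h4
  exact Nat.add_le_add_left h4 _

open Classical in
/-- the numerical hypothesis of `rational_rows` for the regular elements -/
theorem reg_arith [Finite E] (hp : p.Prime) (hT : IsPGroup p T) (h : 3 * Nat.card E < p) :
    2 * (Nat.card T * Nat.card E)
      < (p - 1) * (Finset.univ.filter fun u : T => st E u = 1).card := by
  have h1 := card_reg (E := E) hp hT
  set N := (Finset.univ.filter fun u : T => st E u = 1).card
  have hT0 : 0 < Nat.card T := Nat.card_pos
  have hE0 : 0 < Nat.card E := Nat.card_pos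
  obtain ⟨e, he⟩ : ∃ e, Nat.card E = e + 1 := ⟨Nat.card E - 1, by omega⟩
  obtain ⟨r, hr⟩ : ∃ r, p = 3 * (e + 1) + 1 + r := ⟨p - (3 * (e + 1) + 1), by omega⟩
  rw [he, Nat.add_sub_cancel] at h1
  rw [he]
  have hp1 : p - 1 = 3 * (e + 1) + r := by omega
  rw [hp1]
  -- `p N ≥ (p - e) |T|`
  have h2 : (p - e) * Nat.card T ≤ p * N := by
    rw [Nat.sub_mul]
    omega
  have h3 : p - e = 2 * e + 4 + r := by omega
  rw [h3] at h2
  have h4 : p * (2 * (Nat.card T * (e + 1))) < p * ((3 * (e + 1) + r) * N) := by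
    calc p * (2 * (Nat.card T * (e + 1))) = (2 * p * (e + 1)) * Nat.card T := by ring
      _ < ((3 * (e + 1) + r) * (2 * e + 4 + r)) * Nat.card T := by
        refine Nat.mul_lt_mul_of_pos_right ?_ hT0
        rw [hr]
        nlinarith [Nat.zero_le r, Nat.zero_le e, Nat.zero_le (r * r), Nat.zero_le (e * r)]
      _ = (3 * (e + 1) + r) * ((2 * e + 4 + r) * Nat.card T) := by ring
      _ ≤ (3 * (e + 1) + r) * (p * N) := Nat.mul_le_mul_left _ h2
      _ = p * ((3 * (e + 1) + r) * N) := by ring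
  exact Nat.lt_of_mul_lt_mul_left h4

end reg

end Pool.Agent.Lib.P0c8ca5.Ex
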