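import Mathlib
import Pool.Agent.Lib.P0c8ca5Ex.NR

/-!
# NE: the theorem on nilpotent blocks (abelian defect group, inertial index 1)
-/

set_option linter.unusedSectionVars false

universe u

namespace Pool.Agent.Lib.P0c8ca5.Ex

open MonoidAlgebra

variable {p : ℕ} [Fact p.Prime] {k : Type*} [Field k] [IsAlgClosed k] [CharP k p]

theorem card_C1_lt {A : Type*} [Group A] [Finite A] {u : A} (hu : u ∉ Subgroup.center A) :
    Nat.card ↥(C1 u) < Nat.card A := by
  refine lt_of_le_of_ne (Subgroup.card_le_card_group _) fun h => hu ?_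
  have h1 : C1 u = ⊤ := Subgroup.eq_top_of_card_eq _ h
  rw [Subgroup.mem_center_iff]
  intro x
  have h2 : x ∈ C1 u := by rw [h1]; exact Subgroup.mem_top x
  exact (mem_C1'.1 h2).symm

theorem nil_aux (hp2 : p ≠ 2) (n : ℕ) : ∀ (A : Type u) [Group A] [Finite A], Nat.card A = n →
    ∀ {b f : MonoidAlgebra k A} {D : Subgroup A}, Root p b D f → St D f ≤ CD D →
    ∀ {B : MonoidAlgebra (OW p k) A}, CenL b B → NilC D B := by
  induction n using Nat.strong_induction_on with
  | _ n ih =>
    intro A _ _ hA b f D h hN B hB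
    obtain ⟨i, hi⟩ := exists_src h
    obtain ⟨I, hl⟩ := exists_lf' hi hB
    letI : CommGroup ↥D := cgrp D h.com
    letI : Fintype ↥D := Fintype.ofFinite _
    have hφ : Function.Injective (D.subtype : ↥D →* A) := Subtype.val_injective
    have hr : ∀ x, x ∈ D ↔ ∃ t, (D.subtype : ↥D →* A) t = x :=
      fun x => ⟨fun hx => ⟨⟨x, hx⟩, rfl⟩, by rintro ⟨t, rfl⟩; exact t.2⟩
    by_cases hc : D ≤ Subgroup.center A
    · exact nil_cen hi hl (T := ↥D) (φ := D.subtype) hφ hr hc
    · have hZ : zT (T := ↥D) (D.subtype : ↥D →* A) ≠ ⊤ := by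
        intro h0
        apply hc
        intro x hx
        have h1 : (⟨x, hx⟩ : ↥D) ∈ zT (T := ↥D) (D.subtype : ↥D →* A) := by
          rw [h0]; exact Subgroup.mem_top _
        exact h1
      obtain ⟨BB, nn, hfam⟩ := exists_fam hi (Subgroup.center A : Set A)
        (fun u hu huc c hcu BH hBH => ih _ (by rw [← hA]; exact card_C1_lt huc) ↥(C1 u) rfl
          (src_loc hi hu hcu).root (st_loc hi hN hu) hBH)
      exact nil_off hp2 hi hN hl (T := ↥D) (φ := D.subtype) hφ hr hZ hfam

/-- **the theorem on nilpotent blocks** -/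
theorem nil (hp2 : p ≠ 2) {A : Type u} [Group A] [Finite A] {b f : MonoidAlgebra k A}
    {D : Subgroup A} (h : Root p b D f) (hN : St D f ≤ CD D) {B : MonoidAlgebra (OW p k) A}
    (hB : CenL b B) : NilC D B :=
  nil_aux hp2 _ A rfl h hN hB

end Pool.Agent.Lib.P0c8ca5.Ex
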