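import Mathlib
import Pool.Agent.Lib.P0c8ca5Ex.NP
import Pool.Agent.Lib.P0c8ca5Ex.R12

/-!
# NS: the inertial quotient as a group of automorphisms of `D`
-/

set_option linter.unusedSectionVars false

namespace Pool.Agent.Lib.P0c8ca5.Ex

open MonoidAlgebra Rk

section
variable {k : Type*} [Field k] {A : Type*} [Group A] {T : Type*} [CommGroup T]

/-- the automorphisms of `T` induced by the elements of `St D f` -/
def EG (φ : T →* A) (D : Subgroup A) (f : MonoidAlgebra k A) : Subgroup (MulAut T) where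
  carrier := {ψ | ∃ g ∈ St D f, ∀ t, φ (ψ t) = g * φ t * g⁻¹}
  mul_mem' := by
    rintro ψ ψ' ⟨g, hg, h⟩ ⟨g', hg', h'⟩
    refine ⟨g * g', Subgroup.mul_mem _ hg hg', fun t => ?_⟩
    rw [MulAut.mul_apply, h, h']
    group
  one_mem' := ⟨1, Subgroup.one_mem _, fun t => by rw [MulAut.one_apply]; group⟩
  inv_mem' := by
    rintro ψ ⟨g, hg, h⟩
    refine ⟨g⁻¹, Subgroup.inv_mem _ hg, fun t => ?_⟩
    have h1 := h (ψ⁻¹ t)
    rw [MulAut.apply_inv_self] at h1
    rw [h1]
    group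

variable {φ : T →* A} {D : Subgroup A} {f : MonoidAlgebra k A}

theorem mem_EG {ψ : MulAut T} : ψ ∈ EG φ D f ↔ ∃ g ∈ St D f, ∀ t, φ (ψ t) = g * φ t * g⁻¹ :=
  Iff.rfl

/-- the automorphism induced by an element of `St D f` -/
theorem exists_EG (hφ : Function.Injective φ) (hr : ∀ x, x ∈ D ↔ ∃ t, φ t = x) {g : A}
    (hg : g ∈ St D f) : ∃ ψ ∈ EG φ D f, ∀ t, φ (ψ t) = g * φ t * g⁻¹ := by
  have key : ∀ g ∈ St D f, ∀ t, ∃ s, φ s = g * φ t * g⁻¹ := by
    intro g hg t
    refine (hr _).1 ?_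
    exact (Subgroup.mem_normalizer_iff.1 hg.1 (φ t)).1 ((hr _).2 ⟨t, rfl⟩)
  choose s hs using key g hg
  choose s' hs' using key g⁻¹ (Subgroup.inv_mem _ hg)
  let ψ : MulAut T :=
    { toFun := s
      invFun := s'
      left_inv := fun t => hφ (by rw [hs', hs]; group)
      right_inv := fun t => hφ (by rw [hs, hs']; group)
      map_mul' := fun t t' => hφ (by rw [hs, map_mul, map_mul, hs, hs]; group) }
  exact ⟨ψ, ⟨g, hg, hs⟩, hs⟩

/-- the order of `EG` -/
theorem card_EG (hφ : Function.Injective φ) (hr : ∀ x, x ∈ D ↔ ∃ t, φ t = x) :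
    Nat.card (EG φ D f) = eN D f := by
  classical
  choose ψ hψ hψ' using fun g : ↥(St D f) => exists_EG (f := f) hφ hr g.2
  let F : ↥(St D f) →* ↥(EG φ D f) :=
    { toFun := fun g => ⟨ψ g, hψ g⟩
      map_one' := by
        apply Subtype.ext
        ext t
        apply hφ
        rw [hψ']
        simp
      map_mul' := fun g g' => by
        apply Subtype.ext
        ext t
        apply hφ
        rw [hψ']
        change _ = φ ((ψ g * ψ g') t)
        rw [MulAut.mul_apply, hψ', hψ', Subgroup.coe_mul]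
        group }
  have hF : Function.Surjective F := by
    rintro ⟨ψ', g, hg, h⟩
    refine ⟨⟨g, hg⟩, ?_⟩
    apply Subtype.ext
    ext t
    apply hφ
    change φ (ψ ⟨g, hg⟩ t) = _
    rw [hψ', h]
  have hker : F.ker = (CD D).subgroupOf (St D f) := by
    ext g
    rw [MonoidHom.mem_ker, Subgroup.mem_subgroupOf, Subgroup.mem_centralizer_iff]
    constructor
    · intro h x hx
      obtain ⟨t, rfl⟩ := (hr x).1 hx
      have h1 : ψ g = 1 := congrArg Subtype.val h
      have h2 := hψ' g t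
      rw [h1, MulAut.one_apply, eq_mul_inv_iff_mul_eq] at h2
      exact h2
    · intro h
      apply Subtype.ext
      ext t
      apply hφ
      change φ (ψ g t) = φ t
      rw [hψ', mul_inv_eq_iff_eq_mul]
      exact (h _ ((hr _).2 ⟨t, rfl⟩)).symm
  rw [eN, Subgroup.relIndex, ← hker, Subgroup.index_ker]
  have h3 : F.range = ⊤ := MonoidHom.range_eq_top.2 hF
  rw [h3]
  exact (Nat.card_congr Subgroup.topEquiv.toEquiv).symm

/-- conjugate under `St D f` = same orbit of `EG` -/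
theorem conj_iff (hφ : Function.Injective φ) (hr : ∀ x, x ∈ D ↔ ∃ t, φ t = x) {s t : T} :
    (∃ ψ ∈ EG φ D f, t = ψ s) ↔ ∃ g ∈ St D f, φ s * g = g * φ t := by
  constructor
  · rintro ⟨ψ, ⟨g, hg, h⟩, rfl⟩
    refine ⟨g⁻¹, Subgroup.inv_mem _ hg, ?_⟩
    rw [h]
    group
  · rintro ⟨g, hg, h⟩
    obtain ⟨ψ, hψ, h'⟩ := exists_EG (f := f) hφ hr (Subgroup.inv_mem _ hg)
    refine ⟨ψ, hψ, hφ ?_⟩
    rw [h', mul_assoc, inv_inv, h]
    group

end

end Pool.Agent.Lib.P0c8ca5.Ex
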