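import Mathlib
import Pool.Agent.Lib.P0c8ca5Ex.NS
import Pool.Agent.Lib.P0c8ca5Ex.NP
import Pool.Agent.Lib.P0c8ca5Ex.GP
import Pool.Agent.Lib.P0c8ca5Ex.NE

/-!
# GI: the rows on the regular places of the inertial quotient, block side

`Reg D f u`: no element of `St D f` outside `C(D)` commutes with `u`. At such `u` the local block
has inertial index 1. `rdataU`: the rows `θ χ` are a `RowDataU` for every set of places at which
there are local data.
-/

set_option linter.unusedSectionVars false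

namespace Pool.Agent.Lib.P0c8ca5.Ex

open MonoidAlgebra Rk

section
variable {k : Type*} [Field k] {A : Type*} [Group A]

/-- `u` has trivial stabilizer in the inertial quotient -/
def Reg (D : Subgroup A) (f : MonoidAlgebra k A) (u : A) : Prop :=
  ∀ g ∈ St D f, g * u = u * g → g ∈ CD D

theorem Free.regular {D : Subgroup A} {f : MonoidAlgebra k A} (h : Free D f) {u : A} (hu : u ∈ D)
    (h1 : u ≠ 1) : Reg D f u := fun g hg hgu => h g hg u hu h1 hgu

variable {D : Subgroup A} {f : MonoidAlgebra k A} {T : Type*} [CommGroup T] {φ : T →* A}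

/-- the regular elements of `D` and the stabilizers in `EG` -/
theorem st_EG (hφ : Function.Injective φ) (hr : ∀ x, x ∈ D ↔ ∃ t, φ t = x) (t : T) :
    st (EG φ D f) t = 1 ↔ Reg D f (φ t) := by
  rw [st, Nat.card_eq_one_iff_unique]
  constructor
  · rintro ⟨h1, _⟩ g hg hgt
    obtain ⟨ψ, hψ, h⟩ := exists_EG (f := f) hφ hr hg
    have h2 : ψ t = t := by
      apply hφ
      rw [h, hgt, mul_inv_cancel_right]
    have h3 : (⟨⟨ψ, hψ⟩, h2⟩ : {ψ : EG φ D f // (ψ : MulAut T) t = t}) = ⟨1, rfl⟩ := h1.elim _ _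
    have h4 : ψ = 1 := congrArg (fun x : {ψ : EG φ D f // (ψ : MulAut T) t = t} =>
      ((x : EG φ D f) : MulAut T)) h3
    rw [Subgroup.mem_centralizer_iff]
    intro x hx
    obtain ⟨s, rfl⟩ := (hr x).1 hx
    have h5 := h s
    rw [h4, MulAut.one_apply, eq_mul_inv_iff_mul_eq] at h5
    exact h5
  · intro h
    refine ⟨⟨fun a b => ?_⟩, ⟨⟨1, rfl⟩⟩⟩
    have key : ∀ a : {ψ : EG φ D f // (ψ : MulAut T) t = t}, ((a : EG φ D f) : MulAut T) = 1 := by
      rintro ⟨⟨ψ, g, hg, hψ⟩, ha⟩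
      change ψ = 1
      have h1 : g ∈ CD D := by
        refine h g hg ?_
        have h2 := hψ t
        have h3 : ψ t = t := ha
        rw [h3, eq_mul_inv_iff_mul_eq] at h2
        exact h2.symm
      ext s
      apply hφ
      rw [hψ, MulAut.one_apply, mul_inv_eq_iff_eq_mul]
      exact (Subgroup.mem_centralizer_iff.1 h1 _ ((hr _).2 ⟨s, rfl⟩)).symm
    exact Subtype.ext (Subtype.ext ((key a).trans (key b).symm))

theorem finite_EG [Finite T] : Finite ↥(EG φ D f) := by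
  have : Finite (MulAut T) := by
    refine Finite.of_injective (fun ψ : MulAut T => (ψ : T → T)) fun a b h => ?_
    ext x
    exact congrFun h x
  exact Subtype.finite

/-- the regular places -/
theorem places_EG [Fintype T] (hφ : Function.Injective φ) (hr : ∀ x, x ∈ D ↔ ∃ t, φ t = x) :
    Places (EG φ D f) (fun t => Reg D f (φ t)) := by
  have := finite_EG (φ := φ) (D := D) (f := f)
  have h1 : (fun t => Reg D f (φ t)) = fun t => st (EG φ D f) t = 1 := by
    funext t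
    exact propext (st_EG hφ hr t).symm
  rw [h1]
  exact places_reg

/-- the number of regular places -/
theorem card_reg_EG [Fintype T] (hφ : Function.Injective φ) (hr : ∀ x, x ∈ D ↔ ∃ t, φ t = x)
    [DecidablePred fun t : T => st (EG φ D f) t = 1] :
    (Finset.univ.filter fun t : T => st (EG φ D f) t = 1).card
      = Nat.card {u : A // u ∈ D ∧ Reg D f u} := by
  rw [← Fintype.card_subtype, ← Nat.card_eq_fintype_card]
  refine Nat.card_congr (Equiv.ofBijective (fun t => ⟨φ t.1, (hr _).2 ⟨t.1, rfl⟩,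
    (st_EG hφ hr t.1).1 t.2⟩) ⟨fun a b h => ?_, ?_⟩)
  · exact Subtype.ext (hφ (congrArg Subtype.val h))
  · rintro ⟨u, hu, hu'⟩
    obtain ⟨t, rfl⟩ := (hr u).1 hu
    exact ⟨⟨t, (st_EG hφ hr t).2 hu'⟩, rfl⟩

end

variable {p : ℕ} [Fact p.Prime] {k : Type*} [Field k] [IsAlgClosed k] [CharP k p]
  {A : Type*} [Group A] [Finite A] {b f i : MonoidAlgebra k A} {D : Subgroup A}

/-- the local block at a regular element has inertial index 1 -/
theorem st_loc_reg (h : Src p b D f i) {u : A} (hu : u ∈ D) (hR : Reg D f u) :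
    St (D.subgroupOf (C1 u)) (dnr (C1 u) f) ≤ CD (D.subgroupOf (C1 u)) := by
  have hDu : D ≤ C1 u := D_le_C1 h.root.com hu
  have key : ∀ H : Subgroup A, C1 u = H → St (D.subgroupOf H) (dnr H f) ≤ CD (D.subgroupOf H) := by
    rintro H rfl g hg
    rw [LocAux.mem_CD_sub hDu]
    have hfs : SuppIn (C1 u) f := h.root.fblk.suppIn.mono (CD_le_C1 hu)
    exact hR g (LocAux.st_up hDu hfs hg) (mem_C1'.1 g.2).symm
  exact key _ rfl

section T
variable {T : Type*} [CommGroup T] [Fintype T]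

/-- the rows have no zeros -/
theorem th_ne (h : Src p b D f i) (hdv : ¬ p ∣ eN D f) {B I : MonoidAlgebra (OW p k) A}
    (hl : Lf b i D B I) {φ : T →* A} (hr : ∀ x, x ∈ D ↔ ∃ t, φ t = x) (χ : IrB B) (t : T) :
    th φ I χ.1 t ≠ 0 := by
  classical
  have := Fintype.ofFinite A
  obtain ⟨X, hX⟩ := exists_reps (K := (⊤ : Subgroup A)) (D := D) le_top
  obtain ⟨w, hw, hw'⟩ := unit_tr h hdv ((hr _).2 ⟨t, rfl⟩) hX
  exact chO_ne hl.cb hl.ci hl.com h.root.com ((hr _).2 ⟨t, rfl⟩) hX hw hw' χ.2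

/-- the values of the rows at a conjugate place -/
theorem val_conj {B I : MonoidAlgebra (OW p k) A} (hl : Lf b i D B I) {M : ℕ}
    {u v g : A} (hu : u ∈ D) (hv : v ∈ D) (hMu : u ^ p ^ M = 1) (hMv : v ^ p ^ M = 1)
    (hg : u * g = g * v) {c d : MonoidAlgebra k A} (hc : LbH (C1 u) i c)
    (hd : LbH (C1 v) i d) (hcd : cj g d = c)
    {BH IH : MonoidAlgebra (OW p k) ↥(C1 u)} {nu : ℕ} (hL : LD D i c (C1 u) BH IH nu)
    {BV IV : MonoidAlgebra (OW p k) ↥(C1 v)} {nv : ℕ} (hV : LD D i d (C1 v) BV IV nv)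
    (hDu : D ≤ C1 u) (hDv : D ≤ C1 v) (hDf : Nat.card D ≠ 0) (χ : Ir (KW p k) A) :
    chO χ (single v 1 * I) = (nv : KW p k) * fch (C1 u) BH χ u := by
  have := Fintype.ofFinite A
  classical
  set E := dnr (C1 u) (cjr g (upr (C1 v) IV)) with hE
  have hEE : E * E = E := cjr_idem hg hV.il.idem
  have hEB : E * BH = E := cj_in hg hc hd hcd hV.il hL.cl
  set J := cjr g I with hJ
  have hJJ : J * J = J := by rw [hJ, ← cjr_mul, hl.ci.idem]
  have hg' : g * v * g⁻¹ = u := by rw [← hg, mul_inv_cancel_right]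
  have hJc : single u 1 * J = J * single u (1 : OW p k) := by
    rw [← cjr_eq_iff, hJ, cjr_cjr]
    have h2 : u * g = g * v := hg
    rw [h2, ← cjr_cjr, (cjr_eq_iff v I).2 (hl.com v hv)]
  have hJcong : ∀ c : ↥(C1 u), (p : OW p k) ∣ J.coeff (c : A) - E.coeff c := by
    refine cong_of (e := cj g i) (by rw [hJ, map_cjr, hl.ci.red, cjr_eq_cj]) ?_
    rw [hE, red_cj hV.il.red]
    ext x
    rw [coeff_dnr, coeff_dnr, coeff_cj, coeff_cj, coeff_resS_of_mem]
    have h3 := mem_C1'.1 x.2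
    rw [SetLike.mem_coe, mem_C1']
    have h4 : v = g⁻¹ * u * g := by rw [mul_assoc, hg, inv_mul_cancel_left]
    calc v * (g⁻¹ * (x : A) * g) = g⁻¹ * (u * x) * g := by rw [h4]; group
      _ = g⁻¹ * (x * u) * g := by rw [h3]
      _ = g⁻¹ * (x : A) * g * v := by rw [h4]; group
  have e1 : chO χ (single u 1 * J) = chO χ (single v 1 * I) := by
    rw [← chO_cjr χ g (single v 1 * I), cjr_mul, ← hJ]
    congr 2
    rw [cjr, single_mul_single, single_mul_single, one_mul, one_mul, hg']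
  rw [← e1]
  exact fac_at hMu hJJ hJc hEE hJcong hL.cl hEB
    (gram_conj hl hu hv hMu hMv hg hc hd hcd hL hV hDu hDv hDf).1 χ

/-- the centralizer depends only on the cyclic group -/
theorem C1_gen {T : Type*} [CommGroup T] (φ : T →* A) {u v : T}
    (h : Subgroup.zpowers v = Subgroup.zpowers u) : C1 (φ v) = C1 (φ u) := by
  rw [← CD_zpowers, ← CD_zpowers]
  have h1 : ∀ t : T, Subgroup.zpowers (φ t) = (Subgroup.zpowers t).map φ := fun t =>
    (MonoidHom.map_zpowers φ t).symm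
  rw [h1, h1, h]

/-- **the rows on a set of places with local data** -/
theorem rdataU (h : Src p b D f i) (hdv : ¬ p ∣ eN D f) {B I : MonoidAlgebra (OW p k) A}
    (hl : Lf b i D B I) [Fintype (IrB B)] {φ : T →* A} (hφ : Function.Injective φ)
    (hr : ∀ x, x ∈ D ↔ ∃ t, φ t = x) {U : T → Prop} (hU : Places (EG φ D f) U)
    {BB : ∀ H : Subgroup A, MonoidAlgebra (OW p k) ↥H} {nn : Subgroup A → ℕ}
    (hfam : ∀ t, U t → ∃ c IH, LbH (C1 (φ t)) i c ∧
      LD D i c (C1 (φ t)) (BB (C1 (φ t))) IH (nn (C1 (φ t)))) :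
    ∃ a : ℕ, RowDataU p (EG φ D f) U (fun (χ : IrB B) t => th φ I χ.1 t)
      (fun (χ : IrB B) t => fch (C1 (φ t)) (BB (C1 (φ t))) χ.1 (φ t))
      (fun t => (nn (C1 (φ t)) : ℤ)) (a : ℤ) := by
  classical
  have := Fintype.ofFinite A
  have : Fintype ↥D := Fintype.ofFinite _
  have hmem : ∀ t, φ t ∈ D := fun t => (hr _).2 ⟨t, rfl⟩
  have hcT : Nat.card D = Fintype.card T := card_range hφ hr
  obtain ⟨M, hM⟩ := pow_one_of h
  have hDp := h.root.dfg.isPGroup
  have hcom := h.root.com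
  obtain ⟨X, hX⟩ := exists_reps (K := (⊤ : Subgroup A)) (D := D) le_top
  obtain ⟨a, ha1, ha2, ha3⟩ := sq_sum hDp hcom hX hl.ci.idem hl.com
  have hcomT : ∀ t, single (φ t) 1 * I = I * single (φ t) (1 : OW p k) := fun t =>
    hl.com _ (hmem t)
  have hfac : ∀ (χ : IrB B) (t : T), U t → th φ I χ.1 t
      = (((nn (C1 (φ t)) : ℕ) : ℤ) : KW p k) * fch (C1 (φ t)) (BB (C1 (φ t))) χ.1 (φ t) := by
    intro χ t ht
    obtain ⟨c, IH, hc, hL⟩ := hfam t ht
    rw [Int.cast_natCast]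
    exact fac_at (hM _ (hmem t)) hl.ci.idem (hcomT t) hL.il.idem
      (cong_of hl.ci.red hL.il.red) hL.cl hL.ib hL.val χ.1
  refine ⟨a, ?_, ?_, hfac, ?_, ?_, ?_, ?_, ?_, ?_⟩
  · intro χ
    exact honest_vir χ.1 φ hl.ci.idem hcomT
  · intro u v huv
    rw [C1_gen φ huv]
  · intro χ ψ hψ t ht
    obtain ⟨g, hg, hgt⟩ := hψ
    have hx : φ (ψ t) * g = g * φ t := by rw [hgt]; group
    obtain ⟨c, IH, hc, hL⟩ := hfam (ψ t) (hU.act ψ ⟨g, hg, hgt⟩ t ht)
    obtain ⟨d, IV, hd, hV⟩ := hfam t ht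
    have h1 := val_conj hl (hmem (ψ t)) (hmem t) (hM _ (hmem _)) (hM _ (hmem _)) hx hc hd
      (cj_lb h (hmem t) hg hx hc hd) hL hV (D_le_C1 hcom (hmem _)) (D_le_C1 hcom (hmem _))
      Nat.card_pos.ne' χ.1
    have h2 := hfac χ t ht
    have h3 := th_ne h hdv hl hr χ t
    rw [Int.cast_natCast] at h2
    have h4 : (nn (C1 (φ t)) : KW p k) ≠ 0 := by
      intro h0
      rw [h2, h0, zero_mul] at h3
      exact h3 rfl
    refine mul_left_cancel₀ h4 ?_
    rw [← h2, ← h1]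
    rfl
  · intro χ t ht
    obtain ⟨β, hβ, h1, h2⟩ := fch_vir φ (C1 (φ t)) (BB (C1 (φ t))) χ.1
    refine ⟨β, hβ, ?_⟩
    intro s hs
    have hC : C1 (φ s) = C1 (φ t) := C1_gen φ hs
    change fch (C1 (φ s)) (BB (C1 (φ s))) χ.1 (φ s) = β s
    rw [hC, h1 s]
    · rw [← hC]
      exact mem_C1'.2 rfl
    · intro x hx
      rw [← hC] at hx
      exact mem_C1'.1 hx
  · intro t ht ψ hψ
    change ∑ χ : IrB B, chO χ.1 (single (φ t) 1 * I) * th φ I χ.1 (ψ t)⁻¹ = _
    rw [sum_th hl (single (φ t) 1) (fun χ => th φ I χ (ψ t)⁻¹)]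
    simp only [th_inv]
    obtain ⟨g, hg, hx⟩ := (conj_iff (f := f) hφ hr).1 ⟨ψ, hψ, rfl⟩
    obtain ⟨c, IH, hc, hL⟩ := hfam t ht
    obtain ⟨d, IV, hd, hV⟩ := hfam (ψ t) (hU.act ψ hψ t ht)
    rw [(gram_conj hl (hmem t) (hmem (ψ t)) (hM _ (hmem _)) (hM _ (hmem _)) hx hc hd
      (cj_lb h (hmem (ψ t)) hg hx hc hd) hL hV (D_le_C1 hcom (hmem _)) (D_le_C1 hcom (hmem _))
      Nat.card_pos.ne').2, hcT]
    push_cast
    rfl
  · intro s t hst
    change ∑ χ : IrB B, chO χ.1 (single (φ s) 1 * I) * th φ I χ.1 t⁻¹ = 0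
    rw [sum_th hl (single (φ s) 1) (fun χ => th φ I χ t⁻¹)]
    simp only [th_inv]
    refine gram_zero h hl (hmem s) (hmem t) fun g hg hx => hst ?_
    exact (conj_iff (f := f) hφ hr).2 ⟨g, hg, hx⟩
  · change ∑ χ : IrB B, chO χ.1 (single (φ 1) 1 * I) * th φ I χ.1 1 = _
    rw [sum_th hl (single (φ 1) 1) (fun χ => th φ I χ 1)]
    simp only [th, map_one, ← one_def, one_mul]
    rw [ha1, hcT]
    push_cast
    rfl
  · have h1 : tX X D i = (eN D f : k) := by
      rw [← tr_eN h hX, tX]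
      refine Finset.sum_congr rfl fun q _ => ?_
      exact (Finset.sum_subtype (p := fun v => v ∈ D) (Finset.univ.filter fun v => v ∈ D)
        (fun v => by simp) (fun v => (i * single q 1 * i).coeff (q * v))).symm
    rw [hl.ci.red, h1] at ha3
    have h2 : ((a : ℤ) : k) - ((Nat.card (EG φ D f) : ℤ) : k) = 0 := by
      rw [Int.cast_natCast, ← ha3, Int.cast_natCast, card_EG hφ hr, sub_self]
    rw [← Int.cast_sub, CharP.intCast_eq_zero_iff k p] at h2
    exact h2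

end T

end Pool.Agent.Lib.P0c8ca5.Ex

universe u

namespace Pool.Agent.Lib.P0c8ca5.Ex

open MonoidAlgebra

/-- **the rows on a set `U` of regular places** -/
theorem exists_rowV {p : ℕ} [Fact p.Prime] {k : Type*} [Field k] [IsAlgClosed k] [CharP k p]
    (hp2 : p ≠ 2) {A : Type u} [Group A] [Finite A] {b f i : MonoidAlgebra k A} {D : Subgroup A}
    (h : Src p b D f i) (hE : ¬ p ∣ eN D f) {B : MonoidAlgebra (OW p k) A}
    (hB : CenL b B) [Fintype (IrB B)] {T : Type*} [CommGroup T] [Fintype T] {φ : T →* A}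
    (hφ : Function.Injective φ) (hr : ∀ x, x ∈ D ↔ ∃ t, φ t = x) {U : T → Prop}
    (hUr : ∀ t, U t → Reg D f (φ t)) (hU : Places (EG φ D f) U) :
    ∃ (I : MonoidAlgebra (OW p k) A) (f' : IrB B → T → KW p k) (n : T → ℤ) (a : ℤ),
      Lf b i D B I ∧ I * I = I ∧
      (∀ t, single (φ t) 1 * I = I * single (φ t) (1 : OW p k)) ∧
      RowDataU p (EG φ D f) U (fun χ u => chO χ.1 (single (φ u) 1 * I)) f' n a ∧
      ∀ (χ : IrB B) (u : T), chO χ.1 (single (φ u) 1 * I) ≠ 0 := by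
  obtain ⟨I, hl⟩ := exists_lf' h hB
  obtain ⟨BB, nn, hfam⟩ := exists_fam h {u | ¬ Reg D f u} fun u hu huS c hc BH hBH =>
    nil hp2 (src_loc h hu hc).root (st_loc_reg h hu (not_not.1 huS)) hBH
  obtain ⟨a, ha⟩ := rdataU h hE hl hφ hr hU (BB := BB) (nn := nn)
    fun t ht => hfam (φ t) ((hr _).2 ⟨t, rfl⟩) (not_not.2 (hUr t ht))
  exact ⟨I, _, _, _, hl, hl.ci.idem, fun t => hl.com _ ((hr _).2 ⟨t, rfl⟩), ha,
    th_ne h hE hl hr⟩

/-- **the rows on the regular places** -/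
theorem exists_rowU {p : ℕ} [Fact p.Prime] {k : Type*} [Field k] [IsAlgClosed k] [CharP k p]
    (hp2 : p ≠ 2) {A : Type u} [Group A] [Finite A] {b f i : MonoidAlgebra k A} {D : Subgroup A}
    (h : Src p b D f i) (hE : ¬ p ∣ eN D f) {B : MonoidAlgebra (OW p k) A}
    (hB : CenL b B) [Fintype (IrB B)] {T : Type*} [CommGroup T] [Fintype T] {φ : T →* A}
    (hφ : Function.Injective φ) (hr : ∀ x, x ∈ D ↔ ∃ t, φ t = x) :
    ∃ (I : MonoidAlgebra (OW p k) A) (f' : IrB B → T → KW p k) (n : T → ℤ) (a : ℤ),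
      I * I = I ∧ (∀ t, single (φ t) 1 * I = I * single (φ t) (1 : OW p k)) ∧
      RowDataU p (EG φ D f) (fun u => st (EG φ D f) u = 1)
        (fun χ u => chO χ.1 (single (φ u) 1 * I)) f' n a ∧
      ∀ (χ : IrB B) (u : T), chO χ.1 (single (φ u) 1 * I) ≠ 0 := by
  have := finite_EG (φ := φ) (D := D) (f := f)
  obtain ⟨I, f', n, a, _, h1, h2, h3, h4⟩ := exists_rowV hp2 h hE hB hφ hr
    (U := fun u => st (EG φ D f) u = 1) (fun t ht => (st_EG hφ hr t).1 ht) places_reg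
  exact ⟨I, f', n, a, h1, h2, h3, h4⟩

/-- the places `t ≠ 1` for a free inertial quotient -/
theorem places_free {k : Type*} [Field k] {A : Type*} [Group A] {D : Subgroup A}
    {f : MonoidAlgebra k A} {T : Type*} [CommGroup T] {φ : T →* A}
    (hφ : Function.Injective φ) (hr : ∀ x, x ∈ D ↔ ∃ t, φ t = x) (hF : Free D f) :
    Places (EG φ D f) (fun t => t ≠ 1) where
  gen u v huv hu hv := by
    rw [hv, Subgroup.zpowers_one_eq_bot] at huv
    exact hu (Subgroup.zpowers_eq_bot.1 huv.symm)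
  act ψ _ u hu h0 := hu ((map_eq_one_iff _ ψ.injective).1 h0)
  reg := by
    rintro ψ ⟨g, hg, hψ⟩ t ht h0
    have h2 : g * φ t = φ t * g := by
      have h3 := hψ t
      rw [h0, eq_mul_inv_iff_mul_eq] at h3
      exact h3.symm
    have h4 := hF g hg (φ t) ((hr _).2 ⟨t, rfl⟩) (fun h5 => ht (hφ (by rw [h5, map_one]))) h2
    ext s
    apply hφ
    rw [hψ, MulAut.one_apply, mul_inv_eq_iff_eq_mul]
    exact (Subgroup.mem_centralizer_iff.1 h4 _ ((hr _).2 ⟨s, rfl⟩)).symm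

end Pool.Agent.Lib.P0c8ca5.Ex
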