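import Mathlib
import Pool.Agent.Lib.P0c8ca5Ex.R2

/-!
# GK: generators of `(ℤ / p ^ m)ˣ` and virtual characters with rational values

`exists_gen`: for an odd prime `p` there is `t` prime to `p` whose powers represent all residues
modulo `p ^ m` that are prime to `p`; its order modulo `p` is at least `p - 1`.
`rat_loc`: if `g` is a virtual character of an abelian group of exponent dividing `p ^ m` and
`g (v ^ t) = g v` for all generators `v` of `⟨u⟩`, then `g` is constant on these generators and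
`g u` is a rational integer.
-/

set_option linter.unusedSectionVars false

namespace Pool.Agent.Lib.P0c8ca5.Ex

theorem exists_gen {p : ℕ} (hp : p.Prime) (hp2 : p ≠ 2) (m : ℕ) :
    ∃ t : ℕ, t.Coprime p ∧ (∀ k : ℕ, k.Coprime p → ∃ j : ℕ, k ≡ t ^ j [MOD p ^ m]) ∧
      ∀ n : ℕ, 0 < n → p ∣ t ^ n - 1 → p - 1 ≤ n := by
  have hF : Fact p.Prime := ⟨hp⟩
  have hne : NeZero (p ^ (m + 1)) := ⟨pow_ne_zero _ hp.ne_zero⟩
  have hcyc : IsCyclic (ZMod (p ^ (m + 1)))ˣ := ZMod.isCyclic_units_of_prime_pow p hp hp2 (m + 1)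
  obtain ⟨τ, hτ⟩ := IsCyclic.exists_monoid_generator (α := (ZMod (p ^ (m + 1)))ˣ)
  set t : ℕ := (τ : ZMod (p ^ (m + 1))).val with ht
  have htc : t.Coprime p := by
    have h1 := ZMod.val_coe_unit_coprime τ
    rw [← ht] at h1
    exact Nat.Coprime.coprime_dvd_right (dvd_pow_self p (Nat.succ_ne_zero m)) h1
  have hcast : ((t : ℕ) : ZMod (p ^ (m + 1))) = τ := by
    rw [ht, ZMod.natCast_zmod_val]
  have hpow : ∀ k : ℕ, k.Coprime p → ∃ j : ℕ, k ≡ t ^ j [MOD p ^ (m + 1)] := by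
    intro k hk
    have hk' : k.Coprime (p ^ (m + 1)) := Nat.Coprime.pow_right _ hk
    obtain ⟨j, hj⟩ := Submonoid.mem_powers_iff _ _ |>.1 (hτ (ZMod.unitOfCoprime k hk'))
    refine ⟨j, ?_⟩
    rw [← ZMod.natCast_eq_natCast_iff, Nat.cast_pow, hcast, ← Units.val_pow_eq_pow_val, hj,
      ZMod.coe_unitOfCoprime]
  refine ⟨t, htc, fun k hk => ?_, fun n hn hd => ?_⟩
  · obtain ⟨j, hj⟩ := hpow k hk
    exact ⟨j, hj.of_dvd (pow_dvd_pow p (Nat.le_succ m))⟩
  · -- the order of `t` modulo `p`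
    have h1 : ∀ x : (ZMod p)ˣ, x ∈ Subgroup.zpowers (ZMod.unitOfCoprime t htc) := by
      intro x
      have hx := ZMod.val_coe_unit_coprime x
      obtain ⟨j, hj⟩ := hpow _ hx
      have h2 : (x : ZMod p).val ≡ t ^ j [MOD p] := hj.of_dvd (dvd_pow_self p (Nat.succ_ne_zero m))
      refine ⟨j, ?_⟩
      ext
      rw [← ZMod.natCast_eq_natCast_iff, ZMod.natCast_zmod_val, Nat.cast_pow] at h2
      change ((ZMod.unitOfCoprime t htc ^ (j : ℤ) : (ZMod p)ˣ) : ZMod p) = _
      rw [zpow_natCast, Units.val_pow_eq_pow_val, ZMod.coe_unitOfCoprime, h2]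
    have h2 : orderOf (ZMod.unitOfCoprime t htc) = p - 1 := by
      rw [orderOf_eq_card_of_forall_mem_zpowers h1, Nat.card_eq_fintype_card, ZMod.card_units]
    have h3 : ZMod.unitOfCoprime t htc ^ n = 1 := by
      ext
      rw [Units.val_pow_eq_pow_val, ZMod.coe_unitOfCoprime, Units.val_one]
      have ht0 : 0 < t := by
        rcases Nat.eq_zero_or_pos t with h0 | h0
        · rw [h0, Nat.coprime_zero_left] at htc
          exact absurd htc hp.one_lt.ne'
        · exact h0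
      have h4 : 1 ≤ t ^ n := Nat.one_le_pow _ _ ht0
      have h5 : ((t ^ n - 1 : ℕ) : ZMod p) = 0 := (ZMod.natCast_eq_zero_iff _ _).2 hd
      rw [Nat.cast_sub h4, Nat.cast_pow, Nat.cast_one, sub_eq_zero] at h5
      exact h5
    rw [← h2]
    exact Nat.le_of_dvd hn (orderOf_dvd_of_pow_eq_one h3)

section
variable {D : Type*} [CommGroup D] [Fintype D]

theorem zpowers_pow {p m t : ℕ} (htp : t.Coprime p) {v : D} (hv : v ^ p ^ m = 1) :
    Subgroup.zpowers (v ^ t) = Subgroup.zpowers v := by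
  refine le_antisymm ?_ ?_
  · rw [Subgroup.zpowers_le]
    exact (Subgroup.zpowers v).pow_mem (Subgroup.mem_zpowers v) t
  · rw [Subgroup.zpowers_le]
    have h1 : t.Coprime (orderOf v) :=
      Nat.Coprime.coprime_dvd_right (orderOf_dvd_of_pow_eq_one hv) (Nat.Coprime.pow_right m htp)
    obtain ⟨j, hj⟩ := exists_pow_eq_self_of_coprime h1
    have h2 := (Subgroup.zpowers (v ^ t)).pow_mem (Subgroup.mem_zpowers (v ^ t)) j
    rwa [hj] at h2

theorem gen_pow {p m t : ℕ} (hp : p.Prime)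
    (ht : ∀ k : ℕ, k.Coprime p → ∃ j : ℕ, k ≡ t ^ j [MOD p ^ m]) {u v : D} (hu : u ^ p ^ m = 1)
    (huv : Subgroup.zpowers v = Subgroup.zpowers u) : ∃ j : ℕ, v = u ^ t ^ j := by
  have hv : v ∈ Submonoid.powers u := by
    rw [mem_powers_iff_mem_zpowers, ← huv]
    exact Subgroup.mem_zpowers v
  obtain ⟨k, hk⟩ := hv
  change u ^ k = v at hk
  by_cases hk1 : k.Coprime p
  · obtain ⟨j, hj⟩ := ht k hk1
    refine ⟨j, ?_⟩
    rw [← hk]
    exact pow_eq_pow_iff_modEq.2 (hj.of_dvd (orderOf_dvd_of_pow_eq_one hu))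
  · -- then `u = 1`
    have h1 : p ∣ k := by
      by_contra h
      exact hk1 ((Nat.Prime.coprime_iff_not_dvd hp).2 h).symm
    obtain ⟨l, rfl⟩ := h1
    have hu1 : u = 1 := by
      have h2 : u ∈ Subgroup.zpowers v := by
        rw [huv]
        exact Subgroup.mem_zpowers u
      obtain ⟨i, hi⟩ := h2
      change v ^ i = u at hi
      have h3 : ∀ n : ℕ, u ^ p ^ n = 1 → u = 1 := by
        intro n
        induction n with
        | zero =>
          intro h
          rwa [pow_zero, pow_one] at h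
        | succ n ih =>
          intro h
          refine ih ?_
          have h4 : v ^ p ^ n = 1 := by
            rw [← hk, ← pow_mul, show p * l * p ^ n = p ^ (n + 1) * l by ring, pow_mul, h, one_pow]
          rw [← hi, ← zpow_natCast (v ^ i), ← zpow_mul, mul_comm, zpow_mul, zpow_natCast, h4,
            one_zpow]
      exact h3 m hu
    refine ⟨0, ?_⟩
    rw [← hk, hu1, one_pow, one_pow]

variable {K : Type*} [Field K] [CharZero K]

theorem rat_loc {p m t : ℕ} (hp : p.Prime) (htp : t.Coprime p)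
    (ht : ∀ k : ℕ, k.Coprime p → ∃ j : ℕ, k ≡ t ^ j [MOD p ^ m]) {g : D → K} (hg : g ∈ vir D K)
    {u : D} (hu : u ^ p ^ m = 1)
    (h : ∀ v, Subgroup.zpowers v = Subgroup.zpowers u → g (v ^ t) = g v) :
    (∀ v, Subgroup.zpowers v = Subgroup.zpowers u → g v = g u) ∧ ∃ z : ℤ, g u = z := by
  classical
  have hj : ∀ j : ℕ, Subgroup.zpowers (u ^ t ^ j) = Subgroup.zpowers u ∧ g (u ^ t ^ j) = g u := by
    intro j
    induction j with
    | zero => rw [pow_zero, pow_one]; exact ⟨rfl, rfl⟩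
    | succ j ih =>
      have h1 : (u ^ t ^ j) ^ p ^ m = 1 := by rw [← pow_mul, mul_comm, pow_mul, hu, one_pow]
      rw [pow_succ, pow_mul, zpowers_pow htp h1, h _ ih.1]
      exact ih
  have hc : ∀ v, Subgroup.zpowers v = Subgroup.zpowers u → g v = g u := by
    intro v hv
    obtain ⟨j, rfl⟩ := gen_pow hp ht hu hv
    exact (hj j).2
  refine ⟨hc, ?_⟩
  obtain ⟨a, ha⟩ := sum_vir_gen hg (Subgroup.zpowers u)
  set S : Finset D := Finset.univ.filter fun v => Subgroup.zpowers v = Subgroup.zpowers u with hS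
  have h1 : ∑ v ∈ S, g v = S.card • g u := by
    rw [← Finset.sum_const]
    refine Finset.sum_congr rfl fun v hv => ?_
    exact hc v (Finset.mem_filter.1 hv).2
  have h2 : (S.card : K) * g u = a := by rw [← nsmul_eq_mul, ← h1, ha]
  have hS0 : S.card ≠ 0 := by
    rw [Finset.card_ne_zero]
    exact ⟨u, Finset.mem_filter.2 ⟨Finset.mem_univ _, rfl⟩⟩
  have h3 : g u = algebraMap ℚ K ((a : ℚ) / (S.card : ℚ)) := by
    rw [map_div₀, map_intCast, map_natCast, eq_div_iff (Nat.cast_ne_zero.2 hS0), mul_comm]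
    exact h2
  have h4 : IsIntegral ℤ ((a : ℚ) / (S.card : ℚ)) := by
    have h5 := isIntegral_vir hg u
    rw [h3] at h5
    exact (isIntegral_algebraMap_iff (algebraMap ℚ K).injective).1 h5
  obtain ⟨z, hz⟩ := IsIntegrallyClosed.isIntegral_iff.1 h4
  refine ⟨z, ?_⟩
  rw [h3, ← hz, eq_intCast (algebraMap ℤ ℚ), map_intCast]

/-- the global version -/
theorem rat {p m t : ℕ} (hp : p.Prime) (htp : t.Coprime p)
    (ht : ∀ k : ℕ, k.Coprime p → ∃ j : ℕ, k ≡ t ^ j [MOD p ^ m]) (hD : ∀ u : D, u ^ p ^ m = 1)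
    {g : D → K} (hg : g ∈ vir D K) (h : ∀ u, g (u ^ t) = g u) (u : D) :
    (∀ v, Subgroup.zpowers v = Subgroup.zpowers u → g v = g u) ∧ ∃ z : ℤ, g u = z :=
  rat_loc hp htp ht hg (hD u) fun v _ => h v

end

end Pool.Agent.Lib.P0c8ca5.Ex
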