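import Mathlib
import Pool.Agent.Lib.P0c8ca5Ex.OA

/-!
# GB: an automorphism of `K` over `W(k)` that raises the `p`-power roots of unity to a power

`exists_aut`: for `t` prime to `p` there is an automorphism `s` of `KW p k`, trivial on `OW p k`,
with `s x = x ^ t` for all `x` with `x ^ p ^ m = 1`. The point is that the cyclotomic polynomials
of `p`-power level are Eisenstein over `W(k)`.
-/

set_option linter.unusedSectionVars false

namespace Pool.Agent.Lib.P0c8ca5.Ex

open Polynomial

section cyc
variable {R : Type*} [CommRing R] [IsDomain R] {p : ℕ} [Fact p.Prime]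

/-- the shifted cyclotomic polynomial is irreducible over a ring in which `p` is prime -/
theorem irr_shift (hp : Prime (p : R)) (n : ℕ) :
    Irreducible (((cyclotomic (p ^ (n + 1)) ℤ).comp (X + 1)).map (Int.castRingHom R)) := by
  set f : ℤ[X] := (cyclotomic (p ^ (n + 1)) ℤ).comp (X + 1) with hf
  have hE : f.IsEisensteinAt (Ideal.span {(p : ℤ)}) :=
    cyclotomic_prime_pow_comp_X_add_one_isEisensteinAt (p := p) n
  have hmon : f.Monic := by
    rw [hf, show (X + 1 : ℤ[X]) = X + C 1 by simp]
    refine (cyclotomic.monic _ ℤ).comp (monic_X_add_C 1) fun h => ?_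
    rw [natDegree_X_add_C] at h
    exact zero_ne_one h.symm
  have hmonR : (f.map (Int.castRingHom R)).Monic := hmon.map _
  have hdeg : (f.map (Int.castRingHom R)).natDegree = f.natDegree := hmon.natDegree_map _
  have hdeg0 : 0 < f.natDegree := by
    rw [hf, natDegree_comp, show (X + 1 : ℤ[X]) = X + C 1 by simp, natDegree_X_add_C, mul_one,
      natDegree_cyclotomic]
    exact Nat.totient_pos.2 (pow_pos (Fact.out : p.Prime).pos _)
  have h0 : f.coeff 0 = p := by
    rw [hf, coeff_zero_eq_eval_zero, eval_comp, eval_add, eval_X, eval_one, zero_add,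
      eval_one_cyclotomic_prime_pow]
  have hP : (Ideal.span {(p : R)}).IsPrime := (Ideal.span_singleton_prime hp.ne_zero).2 hp
  refine IsEisensteinAt.irreducible (𝓟 := Ideal.span {(p : R)}) ⟨?_, ?_, ?_⟩ hP
    hmonR.isPrimitive (by rw [hdeg]; exact hdeg0)
  · rw [hmonR.leadingCoeff]
    exact fun h => hP.ne_top ((Ideal.eq_top_iff_one _).2 h)
  · intro m hm
    rw [hdeg] at hm
    have h1 := hE.mem hm
    rw [Ideal.mem_span_singleton] at h1
    rw [Polynomial.coeff_map, Ideal.mem_span_singleton]
    have h2 := map_dvd (Int.castRingHom R) h1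
    rwa [eq_intCast, eq_intCast, Int.cast_natCast] at h2
  · rw [Polynomial.coeff_map, h0, eq_intCast, Int.cast_natCast, Ideal.span_singleton_pow,
      Ideal.mem_span_singleton]
    intro h
    obtain ⟨c, hc⟩ := h
    have h1 : (p : R) * 1 = (p : R) * ((p : R) * c) := by
      rw [mul_one]
      calc (p : R) = (p : R) ^ 2 * c := hc
        _ = _ := by ring
    have h2 := mul_left_cancel₀ hp.ne_zero h1
    exact hp.not_isUnit (IsUnit.of_mul_eq_one c h2.symm)

/-- two primitive roots of unity of order a power of `p` are conjugate over the fraction field -/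
theorem conj_root [IsIntegrallyClosed R] (hp : Prime (p : R)) {F : Type*} [Field F] [Algebra R F]
    [IsFractionRing R F] {K : Type*} [Field K] [Algebra F K] [Normal F K] (n : ℕ) {x y : K}
    (hx : IsPrimitiveRoot x (p ^ (n + 1))) (hy : IsPrimitiveRoot y (p ^ (n + 1))) :
    ∃ s : K ≃ₐ[F] K, s x = y := by
  set f : ℤ[X] := (cyclotomic (p ^ (n + 1)) ℤ).comp (X + 1) with hf
  have hmon : f.Monic := by
    rw [hf, show (X + 1 : ℤ[X]) = X + C 1 by simp]
    refine (cyclotomic.monic _ ℤ).comp (monic_X_add_C 1) fun h => ?_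
    rw [natDegree_X_add_C] at h
    exact zero_ne_one h.symm
  set g : F[X] := (f.map (Int.castRingHom R)).map (algebraMap R F) with hg
  have hirr : Irreducible g :=
    ((hmon.map (Int.castRingHom R)).irreducible_iff_irreducible_map_fraction_map (K := F)).1
      (irr_shift hp n)
  have hgm : g.Monic := (hmon.map _).map _
  have hge : g = (cyclotomic (p ^ (n + 1)) F).comp (X + 1) := by
    rw [hg, hf, Polynomial.map_map, map_comp, Polynomial.map_add, Polynomial.map_one, map_X,
      map_cyclotomic]
  have hroot : ∀ z : K, IsPrimitiveRoot z (p ^ (n + 1)) → minpoly F (z - 1) = g := by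
    intro z hz
    refine (minpoly.eq_of_irreducible_of_monic hirr ?_ hgm).symm
    rw [hge, aeval_comp, map_add, map_one, aeval_X, sub_add_cancel, aeval_def, ← eval_map,
      map_cyclotomic]
    have hne : NeZero ((p ^ (n + 1) : ℕ) : K) := by
      refine ⟨?_⟩
      have h1 : (p : F) ≠ 0 := by
        intro h2
        have h3 : algebraMap R F (p : R) = 0 := by rw [map_natCast, h2]
        exact hp.ne_zero ((IsFractionRing.injective R F) (by rw [h3, map_zero]))
      have h4 : (p : K) ≠ 0 := by
        intro h5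
        exact h1 ((algebraMap F K).injective (by rw [map_natCast, h5, map_zero]))
      rw [Nat.cast_pow]
      exact pow_ne_zero _ h4
    exact (isRoot_cyclotomic_iff.2 hz)
  have h1 : minpoly F (y - 1) = minpoly F (x - 1) := by rw [hroot x hx, hroot y hy]
  obtain ⟨s, hs⟩ := (Normal.minpoly_eq_iff_mem_orbit (F := F) (E := K)).1 h1
  refine ⟨s, ?_⟩
  have h2 : s (x - 1) = y - 1 := hs
  rw [map_sub, map_one] at h2
  exact sub_left_injective h2

end cyc

section W
variable {p : ℕ} [Fact p.Prime] {k : Type*} [Field k] [IsAlgClosed k] [CharP k p]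

theorem prime_pO : Prime (p : OW p k) := by
  have := perf p k
  exact (WittVector.irreducible p).prime

/-- **automorphisms of `KW p k` over `OW p k`** -/
theorem exists_aut (m t : ℕ) (ht : t.Coprime p) :
    ∃ s : KW p k ≃+* KW p k, (∀ x : OW p k, s (algebraMap _ _ x) = algebraMap _ _ x) ∧
      ∀ x : KW p k, x ^ p ^ m = 1 → s x = x ^ t := by
  have := perf p k
  have hne : NeZero ((p ^ (m + 1) : ℕ) : KW p k) :=
    ⟨Nat.cast_ne_zero.2 (pow_pos (Fact.out : p.Prime).pos _).ne'⟩
  obtain ⟨z, hz⟩ := HasEnoughRootsOfUnity.exists_primitiveRoot (KW p k) (p ^ (m + 1))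
  obtain ⟨s, hs⟩ := conj_root (R := OW p k) (F := FractionRing (OW p k)) prime_pO m hz
    (hz.pow_of_coprime t (Nat.Coprime.pow_right _ ht))
  refine ⟨s, fun x => ?_, fun x hx => ?_⟩
  · rw [IsScalarTower.algebraMap_apply (OW p k) (FractionRing (OW p k)) (KW p k)]
    exact s.commutes _
  · have h1 : x ^ p ^ (m + 1) = 1 := by rw [pow_succ, pow_mul, hx, one_pow]
    obtain ⟨i, -, hi⟩ := hz.eq_pow_of_pow_eq_one h1
    rw [← hi]
    change s (z ^ i) = _
    rw [map_pow, hs, ← pow_mul, ← pow_mul, mul_comm]

end W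

end Pool.Agent.Lib.P0c8ca5.Ex
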