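import Mathlib
import Pool.Agent.Lib.P0c8ca5Ex.R11
import Pool.Agent.Lib.P0c8ca5Ex.GA
import Pool.Agent.Lib.P0c8ca5Ex.GB
import Pool.Agent.Lib.P0c8ca5Ex.GK
import Pool.Agent.Lib.P0c8ca5Ex.ND

/-!
# GL: the rows fixed by a Galois automorphism are rational

`RRB K p E U`: the bound for the number of rational rows at the places `U`; `fix_lt`: rows whose
values at `u` and `u ^ t` agree are rational; `exists_galB`: a Galois automorphism permutes the
ordinary characters of a block.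
-/

set_option linter.unusedSectionVars false

namespace Pool.Agent.Lib.P0c8ca5.Ex

open Finset MonoidAlgebra

section
variable {T : Type*} [CommGroup T] [Fintype T]

/-- the bound for the rational rows -/
def RRB (K : Type*) [Field K] (p : ℕ) (E : Subgroup (MulAut T)) (U : T → Prop) : Prop :=
  ∀ (I : Type) [Fintype I] (g : I → T → K), (∀ i, g i ∈ vir T K) →
    (∀ i, ∀ φ ∈ E, ∀ u, U u → g i (φ u) = g i u) →
    (∀ u v, U u → U v → (∃ φ ∈ E, v = φ u) → ∑ i, g i u * g i v⁻¹ = (Fintype.card T : K)) →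
    (∀ u v, U u → U v → (¬ ∃ φ ∈ E, v = φ u) → ∑ i, g i u * g i v⁻¹ = 0) →
    ∀ R : Finset I, (∀ j ∈ R, ∀ u, U u → ∃ z : ℤ, g j u = (z : K)) →
    (∀ j ∈ R, ∀ u v, U u → Subgroup.zpowers v = Subgroup.zpowers u → g j v = g j u) →
    (∀ j ∈ R, ∀ u, U u → g j u ≠ 0) → R.card < p

variable {K : Type*} [Field K] [CharZero K] [HasEnoughRootsOfUnity K (Monoid.exponent T)]
variable {p : ℕ} {E : Subgroup (MulAut T)} [Fintype E] {U : T → Prop} {I : Type} [Fintype I]
  {g f : I → T → K} {n : T → ℤ} {a : ℤ}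

theorem fix_lt (hp : p.Prime) (hp2 : p ≠ 2) (hT : IsPGroup p T) (hU : Places E U)
    (hpE : ¬ p ∣ Nat.card E) (hd : RowDataU p E U g f n a) (hR : RRB K p E U) {m t : ℕ}
    (hTm : ∀ u : T, u ^ p ^ m = 1) (htp : t.Coprime p)
    (ht : ∀ k : ℕ, k.Coprime p → ∃ j : ℕ, k ≡ t ^ j [MOD p ^ m]) (s : Equiv.Perm I)
    (hs : ∀ i, s i = i → ∀ u, g i (u ^ t) = g i u) (hne : ∀ i u, U u → g i u ≠ 0) :
    Nat.card {i // s i = i} < p := by
  classical
  obtain ⟨σ, ψ, hψ, hσ, hσg, hσE, hψf⟩ := rows_existU hp hp2 hT hU hpE hd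
  have hσK : ∀ u, (σ u : K) * (σ u : K) = 1 := fun u => by exact_mod_cast hσ u
  have hσ0 : ∀ u, (σ u : K) ≠ 0 := fun u h0 => by
    have h2 := hσK u
    rw [h0, zero_mul] at h2
    exact zero_ne_one h2
  have h1 := hR I ψ hψ
    (fun i φ hφ u hu => by
      rw [hψf i u hu, hψf i (φ u) (hU.act φ hφ u hu), hσE φ hφ, hd.inv i φ hφ u hu])
    (fun u v hu hv h => by
      rw [Finset.sum_congr rfl fun i _ => by rw [hψf i u hu, hψf i v⁻¹ (hU.inv hv)]]
      have h2 : (σ v⁻¹ : K) = (σ u : K) := by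
        obtain ⟨φ, hφ, rfl⟩ := h
        rw [hσg (φ u) (φ u)⁻¹ Subgroup.zpowers_inv, hσE φ hφ]
      rw [h2]
      have h3 : ∑ i, (σ u : K) * f i u * ((σ u : K) * f i v⁻¹)
          = ((σ u : K) * (σ u : K)) * ∑ i, f i u * f i v⁻¹ := by
        rw [Finset.mul_sum]
        exact Finset.sum_congr rfl fun i _ => by ring
      rw [h3, hσK, one_mul]
      exact f_gramU hp hp2 hT hU hpE hd hu h)
    (fun u v hu hv h => by
      rw [Finset.sum_congr rfl fun i _ => by rw [hψf i u hu, hψf i v⁻¹ (hU.inv hv)]]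
      have h3 : ∑ i, (σ u : K) * f i u * ((σ v⁻¹ : K) * f i v⁻¹)
          = ((σ u : K) * (σ v⁻¹ : K)) * ∑ i, f i u * f i v⁻¹ := by
        rw [Finset.mul_sum]
        exact Finset.sum_congr rfl fun i _ => by ring
      rw [h3, f_gram0U hp hp2 hT hU hpE hd hu hv h, mul_zero])
    (Finset.univ.filter fun i => s i = i)
  have h2 : ∀ i, s i = i → ∀ u, U u → ψ i (u ^ t) = ψ i u := by
    intro i hi u hu
    have hz : Subgroup.zpowers (u ^ t) = Subgroup.zpowers u := zpowers_pow htp (hTm u)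
    have hut : U (u ^ t) := hU.gen u (u ^ t) hz hu
    have hn : (n u : K) ≠ 0 := fun h0 => by
      have h3 := hd.fac i u hu
      rw [h0, zero_mul] at h3
      exact hne i u hu h3
    have h3 := hs i hi u
    rw [hd.fac i u hu, hd.fac i _ hut, hd.gen u (u ^ t) hz] at h3
    rw [hψf i u hu, hψf i _ hut, hσg u (u ^ t) hz, mul_left_cancel₀ hn h3]
  have h3 : ∀ i, s i = i → ∀ u, U u →
      (∀ v, Subgroup.zpowers v = Subgroup.zpowers u → ψ i v = ψ i u) ∧ ∃ z : ℤ, ψ i u = z :=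
    fun i hi u hu => rat_loc hp htp ht (hψ i) (hTm u) fun v hv => h2 i hi v (hU.gen u v hv hu)
  have h4 := h1 (fun i hi u hu => (h3 i (Finset.mem_filter.1 hi).2 u hu).2)
    (fun i hi u v hu hv => (h3 i (Finset.mem_filter.1 hi).2 u hu).1 v hv)
    (fun i _ u hu h0 => by
      rw [hψf i u hu] at h0
      have h5 := (mul_eq_zero.1 h0).resolve_left (hσ0 u)
      have h6 := hd.fac i u hu
      rw [h5, mul_zero] at h6
      exact hne i u hu h6)
  rwa [Nat.card_eq_fintype_card, Fintype.card_subtype]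

end

section
variable {p : ℕ} [Fact p.Prime] {k : Type*} [Field k] [IsAlgClosed k] [CharP k p]
  {A : Type*} [Group A] [Finite A] {b : MonoidAlgebra k A} {B : MonoidAlgebra (OW p k) A}

/-- the exponent of the p-elements -/
theorem pel_card {v : A} {M : ℕ} (hM : v ^ p ^ M = 1) : v ^ p ^ Nat.card A = 1 := by
  have hp : p.Prime := Fact.out
  have h1 : orderOf v ∣ p ^ M := orderOf_dvd_of_pow_eq_one hM
  obtain ⟨j, -, hj⟩ := (Nat.dvd_prime_pow hp).1 h1
  have h2 : p ^ j ≤ Nat.card A := hj ▸ orderOf_le_card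
  have h3 : j ≤ Nat.card A := (Nat.lt_pow_self hp.one_lt).le.trans h2
  exact orderOf_dvd_iff_pow_eq_one.1 (hj ▸ pow_dvd_pow p h3)

/-- a Galois automorphism as a permutation of the ordinary characters of the block -/
theorem exists_galB (B : MonoidAlgebra (OW p k) A) {t : ℕ} (ht : t.Coprime p) :
    ∃ s : Equiv.Perm (IrB B), ∀ (χ : IrB B) (v : A) (M : ℕ), v ^ p ^ M = 1 →
      ∀ F : MonoidAlgebra (OW p k) A, F * F = F → single v 1 * F = F * single v (1 : OW p k) →
        chO (s χ).1 (single v 1 * F) = chO χ.1 (single (v ^ t) 1 * F) := by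
  obtain ⟨σ, h1, h2⟩ := exists_aut (p := p) (k := k) (Nat.card A) t ht
  have h3 : ∀ χ : Ir (KW p k) A, chO χ B ≠ 0 ↔ chO (gal σ χ) B ≠ 0 := by
    intro χ
    rw [chO_gal σ h1, map_ne_zero_iff _ σ.injective]
  refine ⟨Equiv.Perm.subtypePerm (gal σ) (fun χ => (h3 χ).symm), ?_⟩
  rintro χ v M hM F hF hvF
  have := Fintype.ofFinite ↥(Subgroup.zpowers v)
  let _ : CommGroup ↥(Subgroup.zpowers v) := cgrp _ (zpow_com v)
  have h4 : ∀ u : ↥(Subgroup.zpowers v), single (u : A) 1 * F = F * single (u : A) (1 : OW p k) := by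
    intro u
    rw [← cjr_eq_iff]
    exact cjr_zpow ((cjr_eq_iff v F).2 hvF) u.2
  have h5 := chO_gal_pow (O := OW p k) (p := p) (m := Nat.card A) (t := t)
    (Subgroup.zpowers v).subtype (fun u => by
      apply Subtype.ext
      have h6 : ((u : A)) ^ p ^ M = 1 := by
        obtain ⟨j, hj⟩ := Subgroup.mem_zpowers_iff.1 u.2
        rw [← hj, ← zpow_natCast, ← zpow_mul, mul_comm, zpow_mul, zpow_natCast, hM, one_zpow]
      exact pel_card h6) σ h2 χ.1 hF h4 ⟨v, Subgroup.mem_zpowers v⟩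
  change chO (gal σ χ.1) (single v 1 * F) = _
  rw [chO_gal σ h1]
  exact h5

end

end Pool.Agent.Lib.P0c8ca5.Ex
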