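import Mathlib

/-!
# GQ: few proper subgroups cover the non-regular elements

* `cover_all`: at most `|E| - 1` proper subgroups of `T` cover the fixed points of the elements of
  `E - 1`;
* `cover_comm`: if `E` is commutative of order prime to `p` and `T` is an abelian `p`-group, at most
  `Ω(|E|)` proper subgroups suffice, `Ω` the number of prime factors with multiplicity.
-/

namespace Pool.Agent.Lib.P0c8ca5.Ex

section
variable {T : Type*} [CommGroup T]

/-- the fixed points of `φ` -/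
def fixS (φ : MulAut T) : Subgroup T where
  carrier := {u | φ u = u}
  mul_mem' := by
    intro a b ha hb
    change φ a = a at ha
    change φ b = b at hb
    change φ (a * b) = a * b
    rw [map_mul, ha, hb]
  one_mem' := map_one φ
  inv_mem' := by
    intro a ha
    change φ a = a at ha
    change φ a⁻¹ = a⁻¹
    rw [map_inv, ha]

theorem mem_fixS {φ : MulAut T} {u : T} : u ∈ fixS φ ↔ φ u = u := Iff.rfl

theorem fixS_ne_top {φ : MulAut T} (h : φ ≠ 1) : fixS φ ≠ ⊤ := by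
  intro h1
  apply h
  ext u
  have h2 : u ∈ fixS φ := by rw [h1]; exact Subgroup.mem_top u
  exact h2

/-- at most `|E| - 1` proper subgroups -/
theorem cover_all (E : Subgroup (MulAut T)) [Finite E] :
    ∃ HH : Finset (Subgroup T), HH.card + 1 ≤ Nat.card E ∧ (∀ H ∈ HH, H ≠ ⊤) ∧
      ∀ φ ∈ E, φ ≠ 1 → ∀ u, φ u = u → ∃ H ∈ HH, u ∈ H := by
  classical
  have := Fintype.ofFinite E
  refine ⟨(Finset.univ.erase (1 : E)).image fun φ : E => fixS (φ : MulAut T), ?_, ?_, ?_⟩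
  · have h1 : ((Finset.univ.erase (1 : E)).image fun φ : E => fixS (φ : MulAut T)).card
        ≤ Fintype.card E - 1 := by
      refine Finset.card_image_le.trans ?_
      rw [Finset.card_erase_of_mem (Finset.mem_univ _), Finset.card_univ]
    have h2 : 0 < Fintype.card E := Fintype.card_pos
    rw [Nat.card_eq_fintype_card]
    omega
  · intro H hH
    obtain ⟨φ, hφ, rfl⟩ := Finset.mem_image.1 hH
    exact fixS_ne_top fun h => (Finset.mem_erase.1 hφ).1 (Subtype.ext h)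
  · intro φ hφ h1 u hu
    refine ⟨fixS φ, Finset.mem_image.2 ⟨⟨φ, hφ⟩, ?_, rfl⟩, hu⟩
    exact Finset.mem_erase.2 ⟨fun h => h1 (congrArg Subtype.val h), Finset.mem_univ _⟩

/-- the common fixed points -/
def fixA (E : Subgroup (MulAut T)) : Subgroup T := ⨅ φ : E, fixS (φ : MulAut T)

theorem mem_fixA {E : Subgroup (MulAut T)} {u : T} : u ∈ fixA E ↔ ∀ φ ∈ E, φ u = u := by
  rw [fixA, Subgroup.mem_iInf]
  exact ⟨fun h φ hφ => h ⟨φ, hφ⟩, fun h φ => h φ φ.2⟩

/-- the elements of `E` acting trivially on `T / H` -/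
def kerQ (E : Subgroup (MulAut T)) (H : Subgroup T) : Subgroup (MulAut T) where
  carrier := {φ | φ ∈ E ∧ ∀ u, u⁻¹ * φ u ∈ H}
  mul_mem' := by
    rintro φ ψ ⟨h1, h2⟩ ⟨h3, h4⟩
    refine ⟨E.mul_mem h1 h3, fun u => ?_⟩
    have h5 : u⁻¹ * (φ * ψ) u = (u⁻¹ * ψ u) * ((ψ u)⁻¹ * φ (ψ u)) := by
      rw [MulAut.mul_apply]
      group
    rw [h5]
    exact H.mul_mem (h4 u) (h2 (ψ u))
  one_mem' := ⟨E.one_mem, fun u => by
    rw [MulAut.one_apply, inv_mul_cancel]
    exact H.one_mem⟩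
  inv_mem' := by
    rintro φ ⟨h1, h2⟩
    refine ⟨E.inv_mem h1, fun u => ?_⟩
    have h3 := H.inv_mem (h2 (φ⁻¹ u))
    rwa [MulAut.apply_inv_self, mul_inv_rev, inv_inv] at h3

theorem mem_kerQ {E : Subgroup (MulAut T)} {H : Subgroup T} {φ : MulAut T} :
    φ ∈ kerQ E H ↔ φ ∈ E ∧ ∀ u, u⁻¹ * φ u ∈ H := Iff.rfl

theorem kerQ_le (E : Subgroup (MulAut T)) (H : Subgroup T) : kerQ E H ≤ E := fun _ h => h.1

/-- the action on `T / H` is nontrivial if `H` contains the common fixed points -/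
theorem kerQ_ne [Finite T] {p : ℕ} (hp : p.Prime) (hT : IsPGroup p T)
    {E : Subgroup (MulAut T)} [Finite E] (hE : ¬ p ∣ Nat.card E) {H : Subgroup T}
    (hH : fixA E ≤ H) (hne : H ≠ ⊤) : kerQ E H ≠ E := by
  classical
  have hpf := Fact.mk hp
  intro h
  apply hne
  rw [Subgroup.eq_top_iff']
  intro u
  have := Fintype.ofFinite E
  have h1 : (∏ φ : E, (φ : MulAut T) u) ∈ H := by
    apply hH
    rw [mem_fixA]
    intro ψ hψ
    rw [map_prod]
    refine Fintype.prod_equiv (Equiv.mulLeft (⟨ψ, hψ⟩ : E)) _ _ fun φ => ?_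
    rfl
  have h2 : (∏ φ : E, (u * ((φ : MulAut T) u)⁻¹)) ∈ H := by
    refine Subgroup.prod_mem _ fun φ _ => ?_
    have h3 : (φ : MulAut T) ∈ kerQ E H := by rw [h]; exact φ.2
    have h4 := H.inv_mem (h3.2 u)
    rwa [mul_inv_rev, inv_inv, mul_comm] at h4
  have h3 : u ^ Nat.card E ∈ H := by
    have h4 := H.mul_mem h1 h2
    rw [← Finset.prod_mul_distrib] at h4
    have h5 : ∀ φ ∈ (Finset.univ : Finset E),
        (φ : MulAut T) u * (u * ((φ : MulAut T) u)⁻¹) = u := by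
      intro φ _
      rw [mul_comm u, mul_inv_cancel_left]
    rw [Finset.prod_congr rfl h5, Finset.prod_const, Finset.card_univ] at h4
    rwa [Nat.card_eq_fintype_card]
  have h4 : (Nat.card E).Coprime (orderOf u) := by
    obtain ⟨n, hn⟩ := IsPGroup.iff_orderOf.1 hT u
    rw [hn]
    exact Nat.Coprime.pow_right n ((hp.coprime_iff_not_dvd.2 hE).symm)
  obtain ⟨m, hm⟩ := exists_pow_eq_self_of_coprime h4
  rw [← hm]
  exact H.pow_mem h3 m

/-- `C_T(φ) ≤ H` for `φ` outside `kerQ E H`, `H` maximal -/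
theorem fixS_le {E : Subgroup (MulAut T)} (hcom : ∀ φ ∈ E, ∀ ψ ∈ E, φ * ψ = ψ * φ)
    {H : Subgroup T} (hinv : ∀ φ ∈ E, ∀ u ∈ H, φ u ∈ H)
    (hmax : ∀ H' : Subgroup T, H ≤ H' → H' ≠ ⊤ → (∀ φ ∈ E, ∀ u ∈ H', φ u ∈ H') → H' ≤ H)
    {φ : MulAut T} (hφ : φ ∈ E) (hφ' : φ ∉ kerQ E H) : fixS φ ≤ H := by
  have h1 : H ⊔ fixS φ ≠ ⊤ := by
    intro h
    apply hφ'
    refine ⟨hφ, fun u => ?_⟩
    have hu : u ∈ H ⊔ fixS φ := by rw [h]; exact Subgroup.mem_top u
    obtain ⟨x, hx, c, hc, rfl⟩ := Subgroup.mem_sup.1 hu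
    have h2 : (x * c)⁻¹ * φ (x * c) = x⁻¹ * φ x := by
      rw [map_mul, mem_fixS.1 hc, mul_inv_rev]
      have h3 : c⁻¹ * x⁻¹ * (φ x * c) = x⁻¹ * φ x * (c⁻¹ * c) := by
        rw [mul_comm c⁻¹ x⁻¹, mul_assoc, mul_assoc, mul_comm c⁻¹ (φ x * c), mul_assoc,
          mul_comm c c⁻¹]
      rw [h3, inv_mul_cancel, mul_one]
    rw [h2]
    exact H.mul_mem (H.inv_mem hx) (hinv φ hφ x hx)
  have h2 : ∀ ψ ∈ E, ∀ u ∈ H ⊔ fixS φ, ψ u ∈ H ⊔ fixS φ := by
    intro ψ hψ u hu
    obtain ⟨x, hx, c, hc, rfl⟩ := Subgroup.mem_sup.1 hu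
    rw [map_mul]
    refine Subgroup.mul_mem _ (Subgroup.mem_sup_left (hinv ψ hψ x hx))
      (Subgroup.mem_sup_right ?_)
    rw [mem_fixS, ← MulAut.mul_apply, hcom φ hφ ψ hψ, MulAut.mul_apply, mem_fixS.1 hc]
  exact le_sup_right.trans (hmax _ le_sup_left h1 h2)

/-- at most `Ω(|E|)` proper subgroups for a commutative `E` -/
theorem cover_comm [Finite T] {p : ℕ} (hp : p.Prime) (hT : IsPGroup p T)
    (E : Subgroup (MulAut T)) [Finite E] (hE : ¬ p ∣ Nat.card E)
    (hcom : ∀ φ ∈ E, ∀ ψ ∈ E, φ * ψ = ψ * φ) :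
    ∃ HH : Finset (Subgroup T), HH.card ≤ ArithmeticFunction.cardFactors (Nat.card E) ∧
      (∀ H ∈ HH, H ≠ ⊤) ∧ ∀ φ ∈ E, φ ≠ 1 → ∀ u, φ u = u → ∃ H ∈ HH, u ∈ H := by
  classical
  obtain ⟨n, hn⟩ : ∃ n, Nat.card E = n := ⟨_, rfl⟩
  induction n using Nat.strong_induction_on generalizing E with
  | _ n ih =>
    by_cases hbot : E = ⊥
    · refine ⟨∅, by simp, by simp, ?_⟩
      intro φ hφ h1
      rw [hbot, Subgroup.mem_bot] at hφ
      exact absurd hφ h1
    -- a maximal proper invariant subgroup containing the fixed points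
    let S : Set (Subgroup T) := {H | fixA E ≤ H ∧ H ≠ ⊤ ∧ ∀ φ ∈ E, ∀ u ∈ H, φ u ∈ H}
    have hSne : S.Nonempty := by
      refine ⟨fixA E, le_rfl, ?_, ?_⟩
      · intro h
        apply hbot
        rw [Subgroup.eq_bot_iff_forall]
        intro φ hφ
        ext u
        have hu : u ∈ fixA E := by rw [h]; exact Subgroup.mem_top u
        exact mem_fixA.1 hu φ hφ
      · intro φ hφ u hu
        rw [mem_fixA.1 hu φ hφ]
        exact hu
    obtain ⟨H, hH⟩ := (Set.toFinite S).exists_maximal hSne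
    obtain ⟨⟨hH1, hH2, hH3⟩, hH4⟩ := hH
    have hmax : ∀ H' : Subgroup T, H ≤ H' → H' ≠ ⊤ → (∀ φ ∈ E, ∀ u ∈ H', φ u ∈ H') →
        H' ≤ H := by
      intro H' h1 h2 h3
      exact hH4 ⟨hH1.trans h1, h2, h3⟩ h1
    set E' : Subgroup (MulAut T) := kerQ E H with hE'
    have hle : E' ≤ E := kerQ_le E H
    have hne : E' ≠ E := kerQ_ne hp hT hE hH1 hH2
    have hfin : Finite E' := Finite.of_injective (Subgroup.inclusion hle)
      (Subgroup.inclusion_injective hle)
    have hdvd : Nat.card E' ∣ Nat.card E := Subgroup.card_dvd_of_le hle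
    obtain ⟨d, hd⟩ := hdvd
    have hE0 : 0 < Nat.card E := Nat.card_pos
    have hE'0 : 0 < Nat.card E' := Nat.card_pos
    have hd0 : d ≠ 0 := by
      rintro rfl
      rw [mul_zero] at hd
      omega
    have hd1 : d ≠ 1 := by
      rintro rfl
      rw [mul_one] at hd
      exact hne (Subgroup.eq_of_le_of_card_ge hle hd.le)
    have hlt : Nat.card E' < n := by
      rw [← hn, hd]
      exact lt_mul_of_one_lt_right hE'0 (by omega)
    obtain ⟨HH, hHH1, hHH2, hHH3⟩ := ih (Nat.card E') hlt E'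
      (fun h => hE (h.trans ⟨d, hd⟩)) (fun φ hφ ψ hψ => hcom φ (hle hφ) ψ (hle hψ)) rfl
    refine ⟨insert H HH, ?_, ?_, ?_⟩
    · refine (Finset.card_insert_le _ _).trans ?_
      have h1 : ArithmeticFunction.cardFactors (Nat.card E) =
          ArithmeticFunction.cardFactors (Nat.card E') + ArithmeticFunction.cardFactors d := by
        rw [hd]
        exact ArithmeticFunction.cardFactors_mul hE'0.ne' hd0
      have h2 : 0 < ArithmeticFunction.cardFactors d :=
        ArithmeticFunction.cardFactors_pos_iff_one_lt.2 (by omega)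
      omega
    · intro H' hH'
      rcases Finset.mem_insert.1 hH' with h | h
      · rw [h]
        exact hH2
      · exact hHH2 H' h
    · intro φ hφ h1 u hu
      by_cases hφ' : φ ∈ E'
      · obtain ⟨H', h2, h3⟩ := hHH3 φ hφ' h1 u hu
        exact ⟨H', Finset.mem_insert_of_mem h2, h3⟩
      · exact ⟨H, Finset.mem_insert_self _ _, fixS_le hcom hH3 hmax hφ hφ' hu⟩

end

end Pool.Agent.Lib.P0c8ca5.Ex
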