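import Mathlib
import Pool.Agent.Lib.P0c8ca5Ex.NS
import Pool.Agent.Lib.P0c8ca5Ex.NE
import Pool.Agent.Lib.P0c8ca5Ex.FD

/-!
# NM: the inequality `l(B) ≤ |E|`, the columns
-/

set_option linter.unusedSectionVars false

namespace Pool.Agent.Lib.P0c8ca5.Ex

open MonoidAlgebra Rk

section
variable {p : ℕ} [Fact p.Prime] {k : Type*} [Field k] [IsAlgClosed k] [CharP k p]
  {A : Type*} [Group A] [Finite A] {b f i : MonoidAlgebra k A} {D : Subgroup A}
  {T : Type*} [CommGroup T]

theorem C1_one : C1 (1 : A) = ⊤ := by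
  rw [eq_top_iff]
  intro x _
  rw [mem_C1', one_mul, mul_one]

theorem resS_top (a : MonoidAlgebra k A) : resS ((⊤ : Subgroup A) : Set A) a = a := by
  ext x
  rw [coeff_resS_of_mem _ (Subgroup.mem_top x)]

/-- the local block at `1` is the block itself -/
theorem lbH_one (h : Src p b D f i) {c : MonoidAlgebra k A} (hc : LbH (C1 (1 : A)) i c) :
    c = b := by
  have h1 : ∀ H : Subgroup A, H = ⊤ → LbH H i c → c = b := by
    rintro H rfl hc
    rcases hc.blk.eq_or_mul_eq_zero h.root.blk with h2 | h2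
    · exact h2
    · exfalso
      have h3 := hc.ic
      rw [resS_top] at h3
      have h4 : i * c * b = i := by rw [h3, h.ib]
      rw [mul_assoc, h2, mul_zero] at h4
      exact h.prim.ne h4.symm
  exact h1 _ C1_one hc

/-- the number of irreducible representations of the local block at `1` -/
theorem l_one (h : Src p b D f i) {c : MonoidAlgebra k A} (hc : LbH (C1 (1 : A)) i c) :
    Nat.card (Quotient (irrInvSetoid (C1 (1 : A)) (C1 (1 : A)) c))
      = Nat.card (Quotient (irrInvSetoid (⊤ : Subgroup A) ⊤ b)) := by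
  rw [lbH_one h hc, C1_one]

/-- `k(B) ≥ ∑ l(b_u)`, the sum over the orbits of the inertial quotient on `D` -/
theorem four_orb (h : Src p b D f i) {B : MonoidAlgebra (OW p k) A} (hB : CenL b B)
    {φ : T →* A} (hφ : Function.Injective φ) (hr : ∀ x, x ∈ D ↔ ∃ t, φ t = x)
    {cc : T → MonoidAlgebra k A} (hcc : ∀ t, LbH (C1 (φ t)) i (cc t))
    [Fintype (MulAction.orbitRel.Quotient ↥(EG φ D f) T)] :
    ∑ r : MulAction.orbitRel.Quotient ↥(EG φ D f) T,
      Nat.card (Quotient (irrInvSetoid (C1 (φ r.out)) (C1 (φ r.out)) (cc r.out)))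
      ≤ Nat.card (IrB B) := by
  have hmem : ∀ t, φ t ∈ D := fun t => (hr _).2 ⟨t, rfl⟩
  obtain ⟨M, hM⟩ := pow_one_of h
  refine four hB (fun r : MulAction.orbitRel.Quotient ↥(EG φ D f) T => φ r.out)
    (fun r => cc r.out) (fun r => ⟨M, hM _ (hmem _)⟩) (fun r => (hcc _).blk) ?_ ?_
  · intro r
    have key : ∀ H : Subgroup A, CD (Subgroup.zpowers (φ r.out)) = H → LbH H i (cc r.out) →
        resS (H : Set A) b * cc r.out = cc r.out := by
      rintro H rfl hc
      exact Lb.b_mul h (zp_le (hmem _)) (hc.toLb rfl)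
    exact key _ (CD_zpowers _) (hcc _)
  · intro r r' hne g hg h0
    obtain ⟨g', hg', hx⟩ := fus_elt h (hmem _) (hmem _) hg (hcc _) (hcc _) h0
    obtain ⟨ψ, hψ, h1⟩ := (conj_iff (f := f) hφ hr).2 ⟨g', hg', hx⟩
    apply hne
    rw [← Quotient.out_eq r, ← Quotient.out_eq r']
    symm
    refine Quotient.sound ?_
    change r'.out ∈ MulAction.orbit _ r.out
    exact ⟨⟨ψ, hψ⟩, h1.symm⟩

end

end Pool.Agent.Lib.P0c8ca5.Ex
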