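import Mathlib
import Pool.Agent.Lib.P0c8ca5Ex.NM

/-!
# MO: `l(B) ≤ |E|`
-/

set_option linter.unusedSectionVars false

namespace Pool.Agent.Lib.P0c8ca5.Ex

open MonoidAlgebra Rk

section
variable {p : ℕ} [Fact p.Prime] {k : Type*} [Field k] [IsAlgClosed k] [CharP k p]
  {A : Type*} [Group A] [Finite A] {b f i : MonoidAlgebra k A} {D : Subgroup A}
  {T : Type*} [CommGroup T] [Fintype T]

/-- from the row data to the inequality -/
theorem l_le_of_rows (hp2 : p ≠ 2) (h : Src p b D f i) (hF : Free D f)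
    (hE : ¬ p ∣ eN D f) {B : MonoidAlgebra (OW p k) A} (hB : CenL b B) [Fintype (IrB B)]
    {φ : T →* A} (hφ : Function.Injective φ) (hr : ∀ x, x ∈ D ↔ ∃ t, φ t = x)
    (h1 : ∃ t : T, t ≠ 1) {g f' : IrB B → T → KW p k} {n : T → ℤ} {a : ℤ}
    (hd : RowDataU p (EG φ D f) (fun t => t ≠ 1) g f' n a) (hne : ∀ χ t, g χ t ≠ 0) :
    Nat.card (Quotient (irrInvSetoid (⊤ : Subgroup A) ⊤ b)) ≤ eN D f := by
  classical
  have hp : p.Prime := Fact.out
  have hmem : ∀ t, φ t ∈ D := fun t => (hr _).2 ⟨t, rfl⟩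
  have hT : IsPGroup p T := by
    obtain ⟨M, hM⟩ := pow_one_of h
    intro t
    refine ⟨M, hφ ?_⟩
    rw [map_pow, map_one, hM _ (hmem t)]
  have : Fintype ↥(EG φ D f) := Fintype.ofFinite _
  have : Fintype (MulAction.orbitRel.Quotient ↥(EG φ D f) T) := Fintype.ofFinite _
  have hcard : Nat.card ↥(EG φ D f) = eN D f := card_EG hφ hr
  have hpE : ¬ p ∣ Nat.card ↥(EG φ D f) := by rw [hcard]; exact hE
  have hfree : ∀ ψ ∈ EG φ D f, ∀ t : T, t ≠ 1 → ψ t = t → ψ = 1 := by
    rintro ψ ⟨g, hg, hψ⟩ t ht h0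
    have h2 : g * φ t = φ t * g := by
      have h3 := hψ t
      rw [h0, eq_mul_inv_iff_mul_eq] at h3
      exact h3.symm
    have h4 := hF g hg (φ t) (hmem t) (fun h5 => ht (hφ (by rw [h5, map_one]))) h2
    ext s
    apply hφ
    rw [hψ, MulAut.one_apply, mul_inv_eq_iff_eq_mul]
    exact (Subgroup.mem_centralizer_iff.1 h4 _ (hmem s)).symm
  have hcop : (Nat.card ↥(EG φ D f)).Coprime (Nat.card T) := by
    obtain ⟨m, hm⟩ := IsPGroup.iff_card.1 hT
    rw [hm]
    exact ((hp.coprime_iff_not_dvd.2 hpE).pow_left m).symm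
  have hU : Places (EG φ D f) (fun t => t ≠ 1) :=
    { gen := fun u v huv hu hv => by
        rw [hv, Subgroup.zpowers_one_eq_bot] at huv
        exact hu (Subgroup.zpowers_eq_bot.1 huv.symm)
      act := fun ψ _ u hu h0 => hu ((map_eq_one_iff _ ψ.injective).1 h0)
      reg := fun ψ hψ u hu h0 => hfree ψ hψ u hu h0 }
  have hRB := rb_free (K := KW p k) hcop hfree
  choose cc hcc using fun t : T => exists_lbH h (hmem t)
  have h4 := four_orb h hB hφ hr hcc
  rw [← hcard]
  refine pure_conclU (Z := {1}) hRB hp hp2 hT hU hpE hd (fun χ => ?_) (Finset.mem_singleton_self 1)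
    (fun u hu ψ _ => ?_) (lB := Nat.card (Quotient (irrInvSetoid (⊤ : Subgroup A) ⊤ b)))
    (fun t => if t = 1 then Nat.card (Quotient (irrInvSetoid (⊤ : Subgroup A) ⊤ b)) else 1)
    (fun ψ _ u => ?_) (fun u hu => ?_) (fun u hu => ?_) ?_
  · obtain ⟨t, ht⟩ := h1
    refine ⟨t, ht, fun h0 => ?_⟩
    have h5 := hd.fac χ t ht
    rw [h0, mul_zero] at h5
    exact hne χ t h5
  · rw [Finset.mem_singleton.1 hu, map_one]
  · simp only [map_eq_one_iff _ ψ.injective]
  · rw [Finset.mem_singleton.1 hu, if_pos rfl]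
  · have hu1 : u ≠ 1 := fun h0 => hu (by rw [h0]; exact Finset.mem_singleton_self 1)
    rw [if_neg hu1, st_reg hU hu1]
  · rw [← Nat.card_eq_fintype_card]
    refine le_trans (Finset.sum_le_sum fun r _ => ?_) h4
    split_ifs with hr1
    · have key : ∀ t : T, t = 1 →
          Nat.card (Quotient (irrInvSetoid (⊤ : Subgroup A) ⊤ b))
            = Nat.card (Quotient (irrInvSetoid (C1 (φ t)) (C1 (φ t)) (cc t))) := by
        intro t ht
        subst ht
        have h6 : ∀ x : A, x = 1 → ∀ c, LbH (C1 x) i c →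
            Nat.card (Quotient (irrInvSetoid (⊤ : Subgroup A) ⊤ b))
              = Nat.card (Quotient (irrInvSetoid (C1 x) (C1 x) c)) := by
          rintro x rfl c hc
          exact (l_one h hc).symm
        exact h6 _ (map_one φ) _ (hcc 1)
      exact (key _ hr1).le
    · exact irr_nonempty (hcc r.out).blk

end

end Pool.Agent.Lib.P0c8ca5.Ex
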