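import Mathlib
import Pool.Agent.Lib.P0c8ca5Ex.MO
import Pool.Agent.Lib.P0c8ca5Ex.GI

/-!
# LB: the number of irreducible representations of a block with free inertial quotient

`l(B) ≤ |E|`.
-/

set_option linter.unusedSectionVars false

namespace Pool.Agent.Lib.P0c8ca5.Ex

open MonoidAlgebra Rk

theorem eN_pos {k : Type*} [Field k] {A : Type*} [Group A] [Finite A] (D : Subgroup A)
    (f : MonoidAlgebra k A) : 0 < eN D f := by
  have h := Subgroup.isFiniteRelIndex_of_finiteIndex (H := CD D) (K := St D f)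
  exact Nat.pos_of_ne_zero Subgroup.relIndex_ne_zero

theorem l_le {p : ℕ} [Fact p.Prime] (hp : p ≠ 2) {k : Type*} [Field k] [IsAlgClosed k]
    [CharP k p] {A : Type*} [Group A] [Fintype A] {b : MonoidAlgebra k A} {D : Subgroup A}
    {f : MonoidAlgebra k A} (h : Root p b D f) (hF : Free D f) :
    Nat.card (Quotient (irrInvSetoid (⊤ : Subgroup A) ⊤ b)) ≤ eN D f := by
  classical
  obtain ⟨i, hi⟩ := exists_src h
  obtain ⟨B, I₀, hl₀⟩ := exists_lf (p := p) hi
  have hB := hl₀.cb
  by_cases hD : D = ⊥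
  · have hN : St D f ≤ CD D := by
      intro g _
      rw [Subgroup.mem_centralizer_iff]
      intro x hx
      rw [SetLike.mem_coe, hD, Subgroup.mem_bot] at hx
      rw [hx, one_mul, mul_one]
    have h1 := (nil hp h hN hB).card
    have h2 := four_card hB h.blk (R := PEmpty.{1}) (fun r => r.elim) (fun r => r.elim)
      (fun r => r.elim) (fun r => r.elim) (fun r => r.elim) (fun r => r.elim)
      (fun r => r.elim)
    rw [h1, hD, Subgroup.card_bot, Fintype.card_pempty, add_zero] at h2
    exact h2.trans (eN_pos D f)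
  · have hdv := ndvd_eN h hF
    let _ : CommGroup ↥D := cgrp D h.com
    let _ : Fintype ↥D := Fintype.ofFinite _
    have : Fintype (IrB B) := Fintype.ofFinite _
    have hφ : Function.Injective (D.subtype : ↥D →* A) := Subtype.val_injective
    have hr : ∀ x, x ∈ D ↔ ∃ t, (D.subtype : ↥D →* A) t = x :=
      fun x => ⟨fun hx => ⟨⟨x, hx⟩, rfl⟩, by rintro ⟨t, rfl⟩; exact t.2⟩
    obtain ⟨x, hx, hx1⟩ := (Subgroup.bot_or_exists_ne_one D).resolve_left hD
    obtain ⟨I, f', n, a, hl, -, -, hd, hne⟩ := exists_rowV (T := ↥D) hp hi hdv hB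
      (φ := D.subtype) hφ hr (U := fun t => t ≠ 1)
      (fun t ht => hF.regular t.2 fun h1 => ht (Subtype.ext h1)) (places_free hφ hr hF)
    exact l_le_of_rows (T := ↥D) (φ := D.subtype) hp hi hF hdv hB hφ hr
      ⟨⟨x, hx⟩, fun h1 => hx1 (congrArg Subtype.val h1)⟩ hd hne

end Pool.Agent.Lib.P0c8ca5.Ex
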