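import Mathlib

/-!
# PA: functions whose higher differences vanish

`Dg s f`: all s-fold differences of `f` are zero.
-/

namespace Pool.Agent.Lib.P0c8ca5.Ex

/-- all s-fold differences vanish -/
def Dg {G F : Type*} [Add G] [Zero F] [Sub F] : ℕ → (G → F) → Prop
  | 0, f => ∀ u, f u = 0
  | s + 1, f => ∀ w, Dg s (fun u => f (u + w) - f u)

end Pool.Agent.Lib.P0c8ca5.Ex
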