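import Mathlib
import Pool.Agent.Lib.P0c8ca5Ex.PA
import Pool.Agent.Lib.P0c8ca5Ex.R2

/-!
# PB: values of virtual characters modulo powers of `1 - ζ`

`Zz ζ` is the ring generated by a primitive p-th root of unity `ζ`, `π = 1 - ζ`.
`zz_int`: `ζ = 1 - π`, closure induction. `zz_chr`: the value is a power `ζ ^ t`, `1 - ζ ^ t = π * (1 + ζ + … + ζ ^ (t - 1))`; if `p` does not divide `t`, `1 - ζ = 1 - (ζ ^ t) ^ t' = (1 - ζ ^ t) * …` shows that the second factor is a unit of `Zz ζ`. `zz_p`: `∏_(t = 1)^(p-1) (1 - ζ ^ t) = p` (`IsPrimitiveRoot`, cyclotomic polynomial at 1) and `zz_chr`. `zz_dvd`: `n = π * y` gives `n ^ (p - 1) = p * ε' * y ^ (p - 1)`, so `n ^ (p - 1) / p` is rational and integral over `ℤ`, hence an integer, and `p ∣ n ^ (p - 1)`.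
PROOF of `lemL` (induction on `s`). `s = 0`: `chr l u = 1 + π * …`, so `y u - ∑ x l` is in `π * Zz ζ`: the `m u` are congruent modulo `p` (`zz_dvd`). `s + 1`: for `w : V` put `x' l = x l * (chr l w - 1) / π` (in `Zz ζ`), `y' u = y (u * w) - y u`: `∑ x' l * chr l u = π ^ s * y' u` (cancel `π ≠ 0`), and `m (u * w) - m u` belongs to `y' u`.
-/

namespace Pool.Agent.Lib.P0c8ca5.Ex

open Finset

section
variable {K : Type*} [Field K] [CharZero K] {p : ℕ} [Fact p.Prime] {ζ : K}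

/-- the ring generated by `ζ` -/
def Zz (ζ : K) : Subring K := Subring.closure {ζ}

namespace PBAux

theorem zeta_mem : ζ ∈ Zz ζ := Subring.subset_closure rfl

theorem pi_mem : 1 - ζ ∈ Zz ζ := (Zz ζ).sub_mem (Zz ζ).one_mem zeta_mem

theorem pi_ne (hζ : IsPrimitiveRoot ζ p) : 1 - ζ ≠ 0 := by
  intro h
  have h1 : ζ = 1 := (sub_eq_zero.1 h).symm
  exact hζ.ne_one (Fact.out : p.Prime).one_lt h1

theorem geom_mem (t : ℕ) (r : ℕ) : ∑ j ∈ range t, (ζ ^ r) ^ j ∈ Zz ζ :=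
  (Zz ζ).sum_mem fun j _ => (Zz ζ).pow_mem ((Zz ζ).pow_mem zeta_mem r) j

theorem one_sub_pow (r t : ℕ) : 1 - (ζ ^ r) ^ t = (1 - ζ ^ r) * ∑ j ∈ range t, (ζ ^ r) ^ j :=
  (mul_neg_geom_sum _ _).symm

theorem unit_pow (hζ : IsPrimitiveRoot ζ p) {t : ℕ} (ht : ¬ p ∣ t) :
    ∃ ε ∈ Zz ζ, ∃ δ ∈ Zz ζ, ε * δ = 1 ∧ 1 - ζ ^ t = (1 - ζ) * ε := by
  have hp : p.Prime := Fact.out
  have hco : Nat.Coprime t p := ((Nat.Prime.coprime_iff_not_dvd hp).2 ht).symm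
  obtain ⟨t', ht'⟩ := Nat.exists_mul_mod_eq_one_of_coprime hco hp.one_lt
  have h1 : (ζ ^ t) ^ t' = ζ := by
    rw [← pow_mul]
    conv_lhs => rw [← Nat.div_add_mod (t * t') p, ht'.2]
    rw [pow_add, pow_mul, hζ.pow_eq_one, one_pow, one_mul, pow_one]
  refine ⟨∑ j ∈ range t, (ζ ^ 1) ^ j, geom_mem t 1, ∑ j ∈ range t', (ζ ^ t) ^ j,
    geom_mem _ t, ?_, ?_⟩
  · have h2 := one_sub_pow (ζ := ζ) t t'
    have h3 := one_sub_pow (ζ := ζ) 1 t
    rw [h1] at h2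
    rw [pow_one] at h3
    rw [h3] at h2
    rw [pow_one]
    apply mul_left_cancel₀ (pi_ne hζ)
    rw [mul_one, ← mul_assoc]
    exact h2.symm
  · have h3 := one_sub_pow (ζ := ζ) 1 t
    rw [pow_one] at h3 ⊢
    exact h3

theorem zz_isIntegral (hζ : IsPrimitiveRoot ζ p) {z : K} (hz : z ∈ Zz ζ) : IsIntegral ℤ z := by
  have hp : p.Prime := Fact.out
  refine Subring.closure_induction (p := fun x _ => IsIntegral ℤ x) ?_ ?_ ?_ ?_ ?_ ?_ hz
  · rintro x hx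
    rw [Set.mem_singleton_iff] at hx
    rw [hx]
    exact hζ.isIntegral hp.pos
  · exact isIntegral_zero
  · exact isIntegral_one
  · intro x y _ _ hx hy
    exact hx.add hy
  · intro x _ hx
    exact hx.neg
  · intro x y _ _ hx hy
    exact hx.mul hy

end PBAux

open PBAux

theorem zz_int (hζ : IsPrimitiveRoot ζ p) {z : K} (hz : z ∈ Zz ζ) :
    ∃ n : ℤ, ∃ y ∈ Zz ζ, z = n + (1 - ζ) * y := by
  refine Subring.closure_induction
    (p := fun x _ => ∃ n : ℤ, ∃ y ∈ Zz ζ, x = n + (1 - ζ) * y) ?_ ?_ ?_ ?_ ?_ ?_ hz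
  · rintro x hx
    rw [Set.mem_singleton_iff] at hx
    refine ⟨1, -1, (Zz ζ).neg_mem (Zz ζ).one_mem, ?_⟩
    rw [hx]
    push_cast
    ring
  · refine ⟨0, 0, (Zz ζ).zero_mem, ?_⟩
    simp
  · refine ⟨1, 0, (Zz ζ).zero_mem, ?_⟩
    simp
  · rintro x y _ _ ⟨n, a, ha, rfl⟩ ⟨m, b, hb, rfl⟩
    refine ⟨n + m, a + b, (Zz ζ).add_mem ha hb, ?_⟩
    push_cast
    ring
  · rintro x _ ⟨n, a, ha, rfl⟩
    refine ⟨-n, -a, (Zz ζ).neg_mem ha, ?_⟩
    push_cast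
    ring
  · rintro x y _ _ ⟨n, a, ha, rfl⟩ ⟨m, b, hb, rfl⟩
    refine ⟨n * m, n * b + m * a + (1 - ζ) * (a * b), ?_, ?_⟩
    · have h1 : ((n : ℤ) : K) ∈ Zz ζ := intCast_mem _ n
      have h2 : ((m : ℤ) : K) ∈ Zz ζ := intCast_mem _ m
      exact (Zz ζ).add_mem ((Zz ζ).add_mem ((Zz ζ).mul_mem h1 hb) ((Zz ζ).mul_mem h2 ha))
        ((Zz ζ).mul_mem pi_mem ((Zz ζ).mul_mem ha hb))
    · push_cast
      ring

theorem zz_p (hζ : IsPrimitiveRoot ζ p) :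
    ∃ ε ∈ Zz ζ, ∃ δ ∈ Zz ζ, ε * δ = 1 ∧ (p : K) = (1 - ζ) ^ (p - 1) * ε := by
  classical
  have hp : p.Prime := Fact.out
  obtain ⟨n, hn⟩ : ∃ n, p = n + 1 := ⟨p - 1, by have := hp.pos; omega⟩
  have h1 : ∀ k ∈ range n, ¬ p ∣ k + 1 := by
    intro k hk h
    rw [mem_range] at hk
    have := Nat.le_of_dvd (by omega) h
    omega
  have h2 : ∀ k : ℕ, ∃ ε ∈ Zz ζ, ∃ δ ∈ Zz ζ, k ∈ range n →
      (ε * δ = 1 ∧ 1 - ζ ^ (k + 1) = (1 - ζ) * ε) := by
    intro k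
    by_cases hk : k ∈ range n
    · obtain ⟨ε, hε, δ, hδ, h3, h4⟩ := unit_pow hζ (h1 k hk)
      exact ⟨ε, hε, δ, hδ, fun _ => ⟨h3, h4⟩⟩
    · exact ⟨0, (Zz ζ).zero_mem, 0, (Zz ζ).zero_mem, fun h => absurd h hk⟩
  choose e he d hd hed using h2
  refine ⟨∏ k ∈ range n, e k, (Zz ζ).prod_mem fun k _ => he k, ∏ k ∈ range n, d k,
    (Zz ζ).prod_mem fun k _ => hd k, ?_, ?_⟩
  · rw [← prod_mul_distrib]
    exact prod_eq_one fun k hk => (hed k hk).1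
  · have h3 : IsPrimitiveRoot ζ (n + 1) := by rw [← hn]; exact hζ
    have h4 := h3.prod_one_sub_pow_eq_order
    rw [prod_congr rfl (fun k hk => (hed k hk).2), prod_mul_distrib, prod_const, card_range] at h4
    rw [hn, Nat.add_sub_cancel, h4]
    push_cast
    rfl

theorem zz_dvd (hζ : IsPrimitiveRoot ζ p) {n : ℤ} {y : K} (hy : y ∈ Zz ζ)
    (h : (n : K) = (1 - ζ) * y) : (p : ℤ) ∣ n := by
  have hp : p.Prime := Fact.out
  obtain ⟨ε, hε, δ, hδ, h1, h2⟩ := zz_p hζ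
  have hpK : (p : K) ≠ 0 := Nat.cast_ne_zero.2 hp.ne_zero
  have h3 : (1 - ζ) ^ (p - 1) = p * δ := by
    rw [h2, mul_assoc, h1, mul_one]
  have h4 : ((n : K)) ^ (p - 1) = p * (δ * y ^ (p - 1)) := by
    rw [h, mul_pow, h3]
    ring
  have h5 : IsIntegral ℤ (δ * y ^ (p - 1)) :=
    zz_isIntegral hζ ((Zz ζ).mul_mem hδ ((Zz ζ).pow_mem hy _))
  have h6 : algebraMap ℚ K ((n : ℚ) ^ (p - 1) / p) = δ * y ^ (p - 1) := by
    rw [map_div₀, map_pow, map_natCast, map_intCast, h4]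
    field_simp
  rw [← h6, isIntegral_algebraMap_iff (algebraMap ℚ K).injective] at h5
  obtain ⟨m, hm⟩ := IsIntegrallyClosed.isIntegral_iff.1 h5
  have hpQ : (p : ℚ) ≠ 0 := Nat.cast_ne_zero.2 hp.ne_zero
  have h7 : ((n ^ (p - 1) : ℤ) : ℚ) = ((p * m : ℤ) : ℚ) := by
    push_cast
    rw [eq_div_iff hpQ] at hm
    rw [← hm]
    simp only [eq_intCast]
    ring
  have h8 : n ^ (p - 1) = p * m := Int.cast_injective h7
  have h9 : (p : ℤ) ∣ n ^ (p - 1) := ⟨m, h8⟩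
  exact (Nat.prime_iff_prime_int.1 hp).dvd_of_dvd_pow h9

variable {V : Type*} [CommGroup V] [Fintype V]

namespace PBAux

theorem chr_pow_eq (l : V →* Kˣ) {u : V} {n : ℕ} (hu : u ^ n = 1) : chr l u ^ n = 1 := by
  have h1 : chr l u ^ n = chr l (u ^ n) := by simp [chr]
  rw [h1, hu, chr_at_one]

theorem chr_pow_zeta (hζ : IsPrimitiveRoot ζ p) (l : V →* Kˣ) {u : V} (hu : u ^ p = 1) :
    ∃ t : ℕ, ζ ^ t = chr l u := by
  have hp : p.Prime := Fact.out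
  have : NeZero p := ⟨hp.ne_zero⟩
  obtain ⟨t, _, ht⟩ := hζ.eq_pow_of_pow_eq_one (chr_pow_eq l hu)
  exact ⟨t, ht⟩

end PBAux

theorem zz_chr_mem (hζ : IsPrimitiveRoot ζ p) (l : V →* Kˣ) {u : V} (hu : u ^ p = 1) :
    chr l u ∈ Zz ζ := by
  obtain ⟨t, ht⟩ := chr_pow_zeta hζ l hu
  rw [← ht]
  exact (Zz ζ).pow_mem zeta_mem t

theorem zz_chr (hζ : IsPrimitiveRoot ζ p) (l : V →* Kˣ) {u : V} (hu : u ^ p = 1) :
    ∃ y ∈ Zz ζ, 1 - chr l u = (1 - ζ) * y := by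
  obtain ⟨t, ht⟩ := chr_pow_zeta hζ l hu
  refine ⟨∑ j ∈ range t, (ζ ^ 1) ^ j, geom_mem t 1, ?_⟩
  have h3 := one_sub_pow (ζ := ζ) 1 t
  rw [pow_one] at h3 ⊢
  rw [← ht]
  exact h3

theorem zz_chr_unit (hζ : IsPrimitiveRoot ζ p) (l : V →* Kˣ) {u : V} (hu : u ^ p = 1)
    (h1 : chr l u ≠ 1) :
    ∃ ε ∈ Zz ζ, ∃ δ ∈ Zz ζ, ε * δ = 1 ∧ 1 - chr l u = (1 - ζ) * ε := by
  obtain ⟨t, ht⟩ := chr_pow_zeta hζ l hu
  rw [← ht] at h1 ⊢
  refine unit_pow hζ fun hd => h1 ?_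
  obtain ⟨c, rfl⟩ := hd
  rw [pow_mul, hζ.pow_eq_one, one_pow]

theorem zz_vir (hζ : IsPrimitiveRoot ζ p) (hV : ∀ u : V, u ^ p = 1) {g : V → K}
    (hg : g ∈ vir V K) (u : V) : g u ∈ Zz ζ := by
  refine vir_induction (P := fun g => g u ∈ Zz ζ) ?_ ?_ ?_ ?_ hg
  · intro l
    exact zz_chr_mem hζ l (hV u)
  · exact (Zz ζ).zero_mem
  · intro x y hx hy
    exact (Zz ζ).add_mem hx hy
  · intro x hx
    exact (Zz ζ).neg_mem hx

/-- **Lemma L** -/
theorem lemL [HasEnoughRootsOfUnity K (Monoid.exponent V)] (hζ : IsPrimitiveRoot ζ p)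
    (hV : ∀ u : V, u ^ p = 1) (s : ℕ)
    (x : (V →* Kˣ) → K) (hx : ∀ l, x l ∈ Zz ζ) (y : V → K)
    (hxy : ∀ u, ∑ l, x l * chr l u = (1 - ζ) ^ s * y u) (m : V → ℤ)
    (hm : ∀ u, ∃ z ∈ Zz ζ, y u = m u + (1 - ζ) * z) :
    Dg (s + 1) (fun u : Additive V => ((m (Additive.toMul u) : ℤ) : ZMod p)) := by
  induction s generalizing x y m with
  | zero =>
    have h1 : ∀ u, ∃ z ∈ Zz ζ, ((m u : ℤ) : K) = ∑ l, x l + (1 - ζ) * z := by
      intro u
      obtain ⟨z, hz, hz'⟩ := hm u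
      have h2 : ∀ l : V →* Kˣ, ∃ a ∈ Zz ζ, 1 - chr l u = (1 - ζ) * a := fun l =>
        zz_chr hζ l (hV u)
      choose a ha ha' using h2
      refine ⟨-∑ l, x l * a l - z, ?_, ?_⟩
      · exact (Zz ζ).sub_mem ((Zz ζ).neg_mem ((Zz ζ).sum_mem fun l _ =>
          (Zz ζ).mul_mem (hx l) (ha l))) hz
      · have h3 := hxy u
        rw [pow_zero, one_mul, hz'] at h3
        have h4 : ∑ l, x l * chr l u = ∑ l, x l - (1 - ζ) * ∑ l, x l * a l := by
          rw [mul_sum, ← sum_sub_distrib]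
          refine sum_congr rfl fun l _ => ?_
          have h5 : chr l u = 1 - (1 - ζ) * a l := by rw [← ha' l]; ring
          rw [h5]
          ring
        rw [h4] at h3
        linear_combination -h3
    intro w u
    obtain ⟨z, hz, hz'⟩ := h1 (Additive.toMul (u + w))
    obtain ⟨z', hz1, hz1'⟩ := h1 (Additive.toMul u)
    have h2 : ((m (Additive.toMul (u + w)) - m (Additive.toMul u) : ℤ) : K) =
        (1 - ζ) * (z - z') := by
      push_cast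
      rw [hz', hz1']
      ring
    have h3 := zz_dvd hζ ((Zz ζ).sub_mem hz hz1) h2
    change ((m (Additive.toMul (u + w)) : ℤ) : ZMod p) - ((m (Additive.toMul u) : ℤ) : ZMod p) = 0
    rw [← Int.cast_sub]
    exact (ZMod.intCast_zmod_eq_zero_iff_dvd _ _).2 h3
  | succ s ih =>
    intro w
    have h2 : ∀ l : V →* Kˣ, ∃ a ∈ Zz ζ, 1 - chr l (Additive.toMul w) = (1 - ζ) * a := fun l =>
      zz_chr hζ l (hV _)
    choose a ha ha' using h2
    have h3 := ih (fun l => -(x l * a l)) (fun l => (Zz ζ).neg_mem ((Zz ζ).mul_mem (hx l) (ha l)))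
      (fun u => y (u * Additive.toMul w) - y u) ?_
      (fun u => m (u * Additive.toMul w) - m u) ?_
    · have h4 : (fun u : Additive V =>
          ((m (Additive.toMul u * Additive.toMul w) - m (Additive.toMul u) : ℤ) : ZMod p)) =
          fun u : Additive V => ((m (Additive.toMul (u + w)) : ℤ) : ZMod p) -
            ((m (Additive.toMul u) : ℤ) : ZMod p) := by
        funext u
        push_cast
        rfl
      rw [h4] at h3
      exact h3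
    · intro u
      apply mul_left_cancel₀ (pi_ne hζ)
      have h4 := hxy (u * Additive.toMul w)
      have h5 := hxy u
      have h6 : (1 - ζ) * ∑ l, -(x l * a l) * chr l u =
          ∑ l, x l * chr l (u * Additive.toMul w) - ∑ l, x l * chr l u := by
        rw [mul_sum, ← sum_sub_distrib]
        refine sum_congr rfl fun l _ => ?_
        rw [chr_map_mul]
        have h7 : chr l (Additive.toMul w) = 1 - (1 - ζ) * a l := by rw [← ha' l]; ring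
        rw [h7]
        ring
      rw [h6, h4, h5]
      ring
    · intro u
      obtain ⟨z, hz, hz'⟩ := hm (u * Additive.toMul w)
      obtain ⟨z', hz1, hz1'⟩ := hm u
      refine ⟨z - z', (Zz ζ).sub_mem hz hz1, ?_⟩
      rw [hz', hz1']
      push_cast
      ring

end

end Pool.Agent.Lib.P0c8ca5.Ex
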