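import Mathlib
import Pool.Agent.Lib.P0c8ca5Ex.PB

/-!
# PC: deflation of rational rows to an elementary abelian quotient

`N` is a subgroup of the abelian p-group `T` which contains all p-th powers, `V = T ⧸ N`.
`defl`: `gb v = |N|⁻¹ ∑ x ∈ N, g (u * x)`; for `g = chr l` it is `0` if `l` is not trivial on `N` and the character of `T ⧸ N` induced by `l` otherwise; linear in `g`.
`gb_int`: the value is in `Zz ζ` (`zz_vir`) and rational, so it is integral over `ℤ` and rational, hence an integer.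
PROOF of `defl_congr`. `HH` are proper subgroups containing `N`, `q = HH.card ≤ p - 2`. Let `u` be good (`u ∉ H` for all `H ∈ HH`). For `H ∈ HH` choose `lam H : T →* Kˣ` trivial on `H` with `lam H u ≠ 1` (then `(lam H) ^ p = 1`, because `H ≥ N` contains the p-th powers). `M = ∏ H ∈ HH, (1 - chr (lam H))`, `θ = g * M`: `θ` is in `vir T K` and `θ w = 0` if `w` is not good. `θ (w ^ t) = θ w` for `t ≡ 1 mod p` (`t` prime to `p`; `w ^ t = w * (w ^ p) ^ s`, `lam H (w ^ t) = lam H w`; `g (w ^ t) = g w` for good `w` because `zpowers (w ^ t) = zpowers w`; for `w` not good both sides are 0, as `w ^ t` is not good). So `mlt θ (l ^ t) = mlt θ l` for `t ≡ 1 mod p`.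
`θ w = ∑ l, mlt θ l * chr l w` with integers `mlt θ l`. Split the sum: the `l` with `l ^ p = 1` and the others. For `l` of order `p ^ r`, `r ≥ 2`, the orbit `{l ^ t : t ≡ 1 mod p}` has `p ^ (r - 1)` elements and `∑_(l' in the orbit) chr l' w` is `p ^ (r - 1) * chr l w` if `(chr l w) ^ p = 1` and `0` otherwise; it is `p` times an algebraic integer. (Simpler: it is enough to use the group of all `t = 1 + p ^ (r - 1) s`; the orbits `{l, l ^ (1 + p ^ (r-1)), …}` have `p` elements, and `∑_s chr l w * (chr l w) ^ (p ^ (r-1) s)` is `p * chr l w` or `0`.) The same for the deflation (the `l` which are trivial on `N`, all of them with `l ^ p = 1`)... the difference of `θ w` and of the deflation of `θ` at `w` consists of the `l` not trivial on `N`; here `N` is exactly the subgroup of p-th powers (`hN`), so `l` is trivial on `N` iff `l ^ p = 1`. So `(g u - gb (mk u)) * M u = p * z`, `z` integral over `ℤ` (`M` is constant on the cosets of `N`, so the deflation of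 `θ` is `gb * M`). `M u = (1 - ζ) ^ q * unit` (`zz_chr_unit`), `q ≤ p - 2`, `p = (1 - ζ) ^ (p - 1) * unit`: `m - mb = (1 - ζ) ^ (p - 1 - q) * integral`; taking the (p-1)-th power: `p ∣ (m - mb) ^ (p - 1)` (rational and integral), so `p ∣ m - mb`.
-/

namespace Pool.Agent.Lib.P0c8ca5.Ex

open Finset

namespace PCAux

section inv
variable {K : Type*} [Field K]

/-- sums of functions invariant under translation by an element of order `p` -/
theorem inv_sum {G : Type*} [CommGroup G] [Fintype G] {μ : G} {p : ℕ} (hμ : orderOf μ = p)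
    (S : Finset G) (hS : ∀ l ∈ S, l * μ ∈ S) (F : G → K) (hF : ∀ l ∈ S, F (l * μ) = F l)
    (hI : ∀ l, IsIntegral ℤ (F l)) : ∃ y : K, IsIntegral ℤ y ∧ ∑ l ∈ S, F l = p * y := by
  classical
  have hSp : ∀ l ∈ S, ∀ i : ℕ, l * μ ^ i ∈ S ∧ F (l * μ ^ i) = F l := by
    intro l hl i
    induction i with
    | zero => simpa using hl
    | succ i ih =>
      rw [pow_succ, ← mul_assoc]
      exact ⟨hS _ ih.1, by rw [hF _ ih.1, ih.2]⟩
  have hc : ∀ c ∈ S.image (fun l => (QuotientGroup.mk l : G ⧸ Subgroup.zpowers μ)),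
      ∃ y : K, IsIntegral ℤ y ∧ ∑ l ∈ S.filter
        (fun l => (QuotientGroup.mk l : G ⧸ Subgroup.zpowers μ) = c), F l = p * y := by
    intro c hc
    obtain ⟨l₀, hl₀, rfl⟩ := mem_image.1 hc
    refine ⟨F l₀, hI l₀, ?_⟩
    have hfib : S.filter (fun l => (QuotientGroup.mk l : G ⧸ Subgroup.zpowers μ) =
        QuotientGroup.mk l₀) = (range p).image (fun i => l₀ * μ ^ i) := by
      ext l
      rw [mem_filter, mem_image, eq_comm, QuotientGroup.eq]
      constructor
      · rintro ⟨hl, h1⟩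
        rw [mem_zpowers_iff_mem_range_orderOf, hμ, mem_image] at h1
        obtain ⟨i, hi, h2⟩ := h1
        refine ⟨i, hi, ?_⟩
        change μ ^ i = _ at h2
        rw [h2]
        group
      · rintro ⟨i, -, rfl⟩
        refine ⟨(hSp l₀ hl₀ i).1, ?_⟩
        rw [inv_mul_cancel_left]
        exact Subgroup.pow_mem _ (Subgroup.mem_zpowers μ) i
    rw [hfib, sum_image, sum_congr rfl (fun i _ => (hSp l₀ hl₀ i).2), sum_const, card_range,
      nsmul_eq_mul]
    intro i hi j hj hij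
    have h1 : μ ^ i = μ ^ j := mul_left_cancel hij
    have hi' : i < orderOf μ := by
      rw [hμ]
      exact mem_range.1 hi
    have hj' : j < orderOf μ := by
      rw [hμ]
      exact mem_range.1 hj
    exact pow_injOn_Iio_orderOf hi' hj' h1
  choose! y hy using hc
  refine ⟨∑ c ∈ S.image (fun l => (QuotientGroup.mk l : G ⧸ Subgroup.zpowers μ)), y c,
    IsIntegral.sum _ fun c hc => (hy c hc).1, ?_⟩
  rw [← sum_fiberwise_of_maps_to (s := S)
    (t := S.image (fun l => (QuotientGroup.mk l : G ⧸ Subgroup.zpowers μ)))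
    (g := fun l => (QuotientGroup.mk l : G ⧸ Subgroup.zpowers μ))
    (fun l hl => mem_image_of_mem _ hl), mul_sum]
  exact sum_congr rfl fun c hc => (hy c hc).2

/-- sums of functions multiplied by a constant `c ≠ 1` under translation -/
theorem inv_sum0 {G : Type*} [CommGroup G] {μ : G}
    (S : Finset G) (hS : ∀ l ∈ S, l * μ ∈ S) (F : G → K) (c : K) (hc : c ≠ 1)
    (hF : ∀ l ∈ S, F (l * μ) = F l * c) : ∑ l ∈ S, F l = 0 := by
  classical
  have hinj : ∀ a ∈ S, ∀ b ∈ S, a * μ = b * μ → a = b := fun a _ b _ h => mul_right_cancel h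
  have h1 : S.image (fun l => l * μ) = S := by
    apply eq_of_subset_of_card_le
    · intro x hx
      obtain ⟨l, hl, rfl⟩ := mem_image.1 hx
      exact hS l hl
    · rw [card_image_of_injOn (fun a ha b hb h => hinj a ha b hb h)]
  have h2 : ∑ l ∈ S, F l = (∑ l ∈ S, F l) * c := by
    conv_lhs => rw [← h1]
    rw [sum_image hinj, sum_congr rfl hF, sum_mul]
  have h3 : (∑ l ∈ S, F l) * (1 - c) = 0 := by
    rw [mul_sub, mul_one, ← h2, sub_self]
  rcases mul_eq_zero.1 h3 with h4 | h4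
  · exact h4
  · exact absurd (sub_eq_zero.1 h4).symm hc

end inv

section
variable {K : Type*} [Field K] {T : Type*} [CommGroup T]

theorem chr_pow (l : T →* Kˣ) (t : ℕ) (u : T) : chr (l ^ t) u = chr l (u ^ t) := by
  unfold chr
  rw [MonoidHom.pow_apply, map_pow]

theorem chr_pow' (l : T →* Kˣ) (t : ℕ) (u : T) : chr l (u ^ t) = chr l u ^ t := by
  unfold chr
  rw [map_pow, Units.val_pow_eq_pow_val]

theorem coprime_t {p : ℕ} [Fact p.Prime] (s : ℕ) : p.Coprime (1 + p * s) := by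
  rw [Nat.Prime.coprime_iff_not_dvd Fact.out]
  intro h
  have h1 : p ∣ 1 := (Nat.dvd_add_left (dvd_mul_right p s)).1 h
  exact (Fact.out : p.Prime).one_lt.ne' (Nat.dvd_one.1 h1)

/-- the last nontrivial power -/
noncomputable def kp {G : Type*} [CommGroup G] (p : ℕ) (l : G) : G := l ^ (orderOf l / p)

theorem kp_abs {G : Type*} [CommGroup G] {p : ℕ} [Fact p.Prime] {l : G} {n : ℕ}
    (h1 : l ^ p ^ n = 1) (hl : l ^ p ≠ 1) :
    orderOf (kp p l) = p ∧ (∃ s : ℕ, l * kp p l = l ^ (1 + p * s)) ∧ (l * kp p l) ^ p ≠ 1 ∧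
      kp p (l * kp p l) = kp p l := by
  have hp : p.Prime := Fact.out
  obtain ⟨r, -, hr⟩ := (Nat.dvd_prime_pow hp).1 (orderOf_dvd_of_pow_eq_one h1)
  have hr2 : 2 ≤ r := by
    by_contra hcon
    apply hl
    rw [← orderOf_dvd_iff_pow_eq_one, hr]
    calc p ^ r ∣ p ^ 1 := pow_dvd_pow p (by omega)
      _ = p := pow_one p
  obtain ⟨a, rfl⟩ : ∃ a, r = a + 2 := ⟨r - 2, by omega⟩
  have hdiv : orderOf l / p = p ^ (a + 1) := by
    rw [hr, show p ^ (a + 2) = p ^ (a + 1) * p by ring]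
    exact Nat.mul_div_cancel _ hp.pos
  have hk : kp p l = l ^ p ^ (a + 1) := by rw [kp, hdiv]
  have ho : orderOf (kp p l) = p := by
    rw [hk, orderOf_pow_of_dvd (pow_ne_zero _ hp.ne_zero) (by
      rw [hr]; exact pow_dvd_pow p (by omega)), hr]
    rw [show p ^ (a + 2) = p * p ^ (a + 1) by ring]
    exact Nat.mul_div_cancel _ (pow_pos hp.pos _)
  have hs : l * kp p l = l ^ (1 + p * p ^ a) := by
    rw [hk, pow_succ' p a, pow_add l, pow_one l]
  have ho2 : orderOf (l * kp p l) = orderOf l := by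
    rw [hs]
    refine Nat.Coprime.orderOf_pow ?_
    rw [hr]
    exact Nat.Coprime.pow_left _ (coprime_t (p := p) (p ^ a))
  refine ⟨ho, ⟨p ^ a, hs⟩, ?_, ?_⟩
  · intro h2
    apply hl
    rw [← orderOf_dvd_iff_pow_eq_one] at h2 ⊢
    rwa [ho2] at h2
  · have h3 : kp p l ^ p = 1 := by
      rw [← orderOf_dvd_iff_pow_eq_one, ho]
    calc kp p (l * kp p l) = (l * kp p l) ^ p ^ (a + 1) := by rw [kp, ho2, hdiv]
      _ = (l ^ p ^ (a + 1)) ^ (1 + p * p ^ a) := by rw [hs, ← pow_mul, ← pow_mul, mul_comm]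
      _ = kp p l := by rw [← hk, pow_add, pow_one, pow_mul, h3, one_pow, mul_one]

end

section
variable {K : Type*} [Field K] [CharZero K] {p : ℕ} [Fact p.Prime]
variable {T : Type*} [CommGroup T] [Fintype T]

omit [CharZero K] in
/-- the multiplicities of invariant functions -/
theorem mlt_pow (hT : IsPGroup p T) {θ : T → K}
    (hinv : ∀ w : T, ∀ s : ℕ, θ (w ^ (1 + p * s)) = θ w) (l : T →* Kˣ) (s : ℕ) :
    mlt θ (l ^ (1 + p * s)) = mlt θ l := by
  unfold mlt
  congr 1
  rw [← Equiv.sum_comp (hT.powEquiv (coprime_t (p := p) s)) (fun u => θ u * chr l u⁻¹)]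
  refine sum_congr rfl fun u _ => ?_
  rw [IsPGroup.powEquiv_apply, hinv, chr_pow, inv_pow]

variable [HasEnoughRootsOfUnity K (Monoid.exponent T)]

omit [CharZero K] in
theorem kp_spec (hT : IsPGroup p T) {l : T →* Kˣ} (hl : l ^ p ≠ 1) :
    orderOf (kp p l) = p ∧ (∃ s : ℕ, l * kp p l = l ^ (1 + p * s)) ∧ (l * kp p l) ^ p ≠ 1 ∧
      kp p (l * kp p l) = kp p l := by
  obtain ⟨n, hn⟩ := IsPGroup.iff_card.1 hT
  have h1 : l ^ p ^ n = 1 := by
    ext u
    rw [MonoidHom.pow_apply, ← map_pow, ← hn, pow_card_eq_one', map_one, MonoidHom.one_apply]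
  exact kp_abs (l := l) (n := n) h1 hl

open Classical in
/-- the characters of order greater than `p` contribute a multiple of `p` -/
theorem big (hT : IsPGroup p T) {θ : T → K} (hθ : θ ∈ vir T K)
    (hinv : ∀ w : T, ∀ s : ℕ, θ (w ^ (1 + p * s)) = θ w) (w : T) :
    ∃ y : K, IsIntegral ℤ y ∧
      ∑ l : T →* Kˣ with l ^ p ≠ 1, mlt θ l * chr l w = p * y := by
  have hI : ∀ l : T →* Kˣ, IsIntegral ℤ (mlt θ l * chr l w) := by
    intro l
    obtain ⟨a, ha⟩ := mem_vir_iff.1 hθ l
    rw [ha]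
    exact (isIntegral_algebraMap (R := ℤ) (x := a)).mul (isIntegral_chr l w)
  have hμ : ∀ μ : T →* Kˣ, ∃ y : K, IsIntegral ℤ y ∧
      ∑ l ∈ (univ.filter fun l : T →* Kˣ => l ^ p ≠ 1).filter (fun l => kp p l = μ),
        mlt θ l * chr l w = p * y := by
    intro μ
    set S := (univ.filter fun l : T →* Kˣ => l ^ p ≠ 1).filter (fun l => kp p l = μ) with hS
    rcases S.eq_empty_or_nonempty with h0 | ⟨l₀, hl₀⟩
    · exact ⟨0, isIntegral_zero, by rw [h0, sum_empty, mul_zero]⟩
    have hmem : ∀ l, l ∈ S ↔ l ^ p ≠ 1 ∧ kp p l = μ := by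
      intro l
      rw [hS, mem_filter, mem_filter]
      simp
    have ho : orderOf μ = p := by
      obtain ⟨h1, h2⟩ := (hmem l₀).1 hl₀
      rw [← h2]
      exact (kp_spec hT h1).1
    have hSi : ∀ l ∈ S, l * μ ∈ S := by
      intro l hl
      obtain ⟨h1, h2⟩ := (hmem l).1 hl
      obtain ⟨-, -, h3, h4⟩ := kp_spec hT h1
      rw [h2] at h3 h4
      exact (hmem _).2 ⟨h3, h4⟩
    have hm : ∀ l ∈ S, mlt θ (l * μ) = mlt θ l := by
      intro l hl
      obtain ⟨h1, h2⟩ := (hmem l).1 hl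
      obtain ⟨-, ⟨s, hs⟩, -, -⟩ := kp_spec hT h1
      rw [h2] at hs
      rw [hs, mlt_pow hT hinv]
    by_cases hw : chr μ w = 1
    · refine inv_sum ho S hSi _ (fun l hl => ?_) hI
      rw [hm l hl, chr_mul, Pi.mul_apply, hw, mul_one]
    · refine ⟨0, isIntegral_zero, ?_⟩
      rw [mul_zero]
      refine inv_sum0 (μ := μ) S hSi _ (chr μ w) hw fun l hl => ?_
      rw [hm l hl, chr_mul, Pi.mul_apply]
      ring
  choose y hy1 hy2 using hμ
  refine ⟨∑ μ, y μ, IsIntegral.sum _ fun μ _ => hy1 μ, ?_⟩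
  rw [mul_sum, ← sum_fiberwise_of_maps_to (s := univ.filter fun l : T →* Kˣ => l ^ p ≠ 1)
    (t := univ) (g := fun l => kp p l) (fun _ _ => mem_univ _)]
  exact sum_congr rfl fun μ _ => hy2 μ

omit [CharZero K] [Fact p.Prime] [HasEnoughRootsOfUnity K (Monoid.exponent T)] in
open Classical in
/-- sum of a character over a subgroup -/
theorem sum_sub (N : Subgroup T) (l : T →* Kˣ) (u : T) :
    ∑ x : T with x ∈ N, chr l (u * x) =
      if ∀ x ∈ N, l x = 1 then (Nat.card N : K) * chr l u else 0 := by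
  have h0 : ∑ x : T with x ∈ N, chr l (u * x) = chr l u * ∑ x : T with x ∈ N, chr l x := by
    rw [mul_sum]
    exact sum_congr rfl fun x _ => chr_map_mul l u x
  rw [h0]
  split_ifs with h
  · have h1 : ∑ x : T with x ∈ N, chr l x = (Nat.card N : K) := by
      rw [sum_congr rfl (g := fun _ => (1 : K)) (by
        intro x hx
        rw [mem_filter] at hx
        simp [chr, h x hx.2]), sum_const, nsmul_eq_mul, mul_one]
      congr 1
      rw [Nat.card_eq_fintype_card, Fintype.card_subtype]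
    rw [h1, mul_comm]
  · push Not at h
    obtain ⟨v, hv, hv1⟩ := h
    have h1 : ∑ x : T with x ∈ N, chr l x = chr l v * ∑ x : T with x ∈ N, chr l x := by
      rw [mul_sum]
      symm
      refine sum_bij (fun x _ => v * x) ?_ ?_ ?_ ?_
      · intro x hx
        rw [mem_filter] at hx ⊢
        exact ⟨mem_univ _, N.mul_mem hv hx.2⟩
      · intro a _ b _ hab
        exact mul_left_cancel hab
      · intro b hb
        rw [mem_filter] at hb
        refine ⟨v⁻¹ * b, ?_, by group⟩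
        rw [mem_filter]
        exact ⟨mem_univ _, N.mul_mem (N.inv_mem hv) hb.2⟩
      · intro x _
        rw [chr_map_mul]
    have h2 : (1 - chr l v) * ∑ x : T with x ∈ N, chr l x = 0 := by
      rw [sub_mul, one_mul, ← h1, sub_self]
    rcases mul_eq_zero.1 h2 with h3 | h3
    · exfalso
      apply hv1
      ext
      rw [Units.val_one]
      exact (sub_eq_zero.1 h3).symm
    · rw [h3, mul_zero]

/-- rational integral elements -/
theorem int_of {z : K} (hz : IsIntegral ℤ z) {a : ℤ} {c : ℕ} (hc : c ≠ 0)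
    (h : (c : K) * z = a) : ∃ n : ℤ, z = n := by
  have hcK : (c : K) ≠ 0 := Nat.cast_ne_zero.2 hc
  have h2 : z = algebraMap ℚ K ((a : ℚ) / c) := by
    rw [map_div₀]
    simp only [eq_ratCast, Rat.cast_intCast, Rat.cast_natCast]
    rw [eq_div_iff hcK, mul_comm, h]
  have h3 : IsIntegral ℤ ((a : ℚ) / c) := by
    rw [h2] at hz
    exact (isIntegral_algebraMap_iff (algebraMap ℚ K).injective).1 hz
  obtain ⟨n, hn⟩ := IsIntegrallyClosed.isIntegral_iff.1 h3
  refine ⟨n, ?_⟩
  rw [h2, ← hn]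
  simp

end

end PCAux

section
variable {K : Type*} [Field K] [CharZero K] {p : ℕ} [Fact p.Prime]
variable {T : Type*} [CommGroup T] [Fintype T] [HasEnoughRootsOfUnity K (Monoid.exponent T)]

open Classical in
/-- deflation -/
theorem defl (N : Subgroup T) {g : T → K} (hg : g ∈ vir T K) :
    ∃ gb ∈ vir (T ⧸ N) K, ∀ u : T, (Nat.card N : K) * gb (QuotientGroup.mk u) =
      ∑ x : T with x ∈ N, g (u * x) := by
  refine vir_induction (P := fun g => ∃ gb ∈ vir (T ⧸ N) K, ∀ u : T,
    (Nat.card N : K) * gb (QuotientGroup.mk u) = ∑ x : T with x ∈ N, g (u * x)) ?_ ?_ ?_ ?_ hg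
  · intro l
    by_cases h : ∀ x ∈ N, l x = 1
    · refine ⟨chr (QuotientGroup.lift N l h), chr_mem _, fun u => ?_⟩
      rw [PCAux.sum_sub, if_pos h]
      rfl
    · refine ⟨0, (vir (T ⧸ N) K).zero_mem, fun u => ?_⟩
      rw [PCAux.sum_sub, if_neg h, Pi.zero_apply, mul_zero]
  · exact ⟨0, (vir (T ⧸ N) K).zero_mem, fun u => by simp⟩
  · rintro x y ⟨a, ha, ha'⟩ ⟨b, hb, hb'⟩
    refine ⟨a + b, (vir (T ⧸ N) K).add_mem ha hb, fun u => ?_⟩
    rw [Pi.add_apply, mul_add, ha', hb', ← sum_add_distrib]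
    rfl
  · rintro x ⟨a, ha, ha'⟩
    refine ⟨-a, (vir (T ⧸ N) K).neg_mem ha, fun u => ?_⟩
    rw [Pi.neg_apply, mul_neg, ha', ← sum_neg_distrib]
    rfl

/-- a rational value of a virtual character is an integer -/
theorem gb_int {V : Type*} [CommGroup V] [Fintype V] {g : V → K} (hg : g ∈ vir V K) {v : V}
    {a : ℤ} {c : ℕ} (hc : c ≠ 0) (h : (c : K) * g v = a) : ∃ z : ℤ, g v = z :=
  PCAux.int_of (isIntegral_vir hg v) hc h

open Classical in
theorem defl_congr (hT : IsPGroup p T) (hp2 : p ≠ 2) (N : Subgroup T)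
    (hN : ∀ x : T, x ∈ N ↔ ∃ y : T, x = y ^ p) (HH : Finset (Subgroup T))
    (hHN : ∀ H ∈ HH, N ≤ H) (hq : HH.card ≤ p - 2) {g : T → K} (hg : g ∈ vir T K)
    (hgal : ∀ u v : T, (∀ H ∈ HH, u ∉ H) → Subgroup.zpowers v = Subgroup.zpowers u → g v = g u)
    {gb : T ⧸ N → K} (hgb : gb ∈ vir (T ⧸ N) K)
    (hd : ∀ u : T, (Nat.card N : K) * gb (QuotientGroup.mk u) = ∑ x : T with x ∈ N, g (u * x))
    {u : T} (hu : ∀ H ∈ HH, u ∉ H) {m mb : ℤ} (hm : g u = m)
    (hmb : gb (QuotientGroup.mk u) = mb) : (p : ℤ) ∣ m - mb := by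
  have hp : p.Prime := Fact.out
  -- characters
  have hlam : ∀ H : Subgroup T, u ∉ H → ∃ l : T →* Kˣ, (∀ x ∈ H, l x = 1) ∧ l u ≠ 1 := by
    intro H hH
    have hne : (QuotientGroup.mk u : T ⧸ H) ≠ 1 := by
      rwa [ne_eq, QuotientGroup.eq_one_iff]
    have hdvd : Monoid.exponent (T ⧸ H) ∣ Monoid.exponent T := by
      rw [Monoid.exponent_dvd_iff_forall_pow_eq_one]
      intro x
      obtain ⟨y, rfl⟩ := QuotientGroup.mk_surjective x
      rw [← QuotientGroup.mk_pow, Monoid.pow_exponent_eq_one, QuotientGroup.mk_one]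
    have : NeZero (Monoid.exponent T) := ⟨Monoid.exponent_ne_zero_of_finite⟩
    have := HasEnoughRootsOfUnity.of_dvd K hdvd
    obtain ⟨φ, hφ⟩ := CommGroup.exists_apply_ne_one_of_hasEnoughRootsOfUnity (T ⧸ H) K hne
    refine ⟨φ.comp (QuotientGroup.mk' H), ?_, hφ⟩
    intro x hx
    rw [MonoidHom.comp_apply, QuotientGroup.mk'_apply, (QuotientGroup.eq_one_iff x).2 hx, map_one]
  choose! lam hlam1 hlam2 using hlam
  set M : T → K := ∏ H ∈ HH, (1 - chr (lam H)) with hM
  have hMv : M ∈ vir T K := by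
    refine prod_mem fun H _ => sub_mem (one_mem _) (chr_mem _)
  have hMw : ∀ w, M w = ∏ H ∈ HH, (1 - chr (lam H) w) := by
    intro w
    rw [hM, Finset.prod_apply]
    rfl
  set θ : T → K := g * M with hθ
  have hθv : θ ∈ vir T K := (vir T K).mul_mem hg hMv
  have hpw : ∀ H ∈ HH, ∀ w : T, chr (lam H) (w ^ p) = 1 := by
    intro H hH w
    have h1 := hlam1 H (hu H hH) (w ^ p) (hHN H hH ((hN _).2 ⟨w, rfl⟩))
    simp [chr, h1]
  have hinv : ∀ w : T, ∀ s : ℕ, θ (w ^ (1 + p * s)) = θ w := by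
    intro w s
    have hz : Subgroup.zpowers (w ^ (1 + p * s)) = Subgroup.zpowers w := by
      apply le_antisymm
      · rw [Subgroup.zpowers_le]
        exact Subgroup.pow_mem _ (Subgroup.mem_zpowers w) _
      · rw [Subgroup.zpowers_le, mem_zpowers_pow_iff]
        exact (hT.orderOf_coprime (PCAux.coprime_t (p := p) s) w).symm
    by_cases hgood : ∀ H ∈ HH, w ∉ H
    · have h1 : M (w ^ (1 + p * s)) = M w := by
        rw [hMw, hMw]
        refine prod_congr rfl fun H hH => ?_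
        rw [pow_add, pow_one, pow_mul, chr_map_mul, PCAux.chr_pow', hpw H hH, one_pow, mul_one]
      rw [hθ, Pi.mul_apply, Pi.mul_apply, h1, hgal w _ hgood hz]
    · push Not at hgood
      obtain ⟨H, hH, hwH⟩ := hgood
      have h1 : ∀ v ∈ H, M v = 0 := by
        intro v hv
        rw [hMw]
        refine prod_eq_zero hH ?_
        have h2 := hlam1 H (hu H hH) v hv
        simp [chr, h2]
      rw [hθ, Pi.mul_apply, Pi.mul_apply, h1 w hwH, h1 _ (H.pow_mem hwH _), mul_zero, mul_zero]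
  obtain ⟨y, hy, hyS⟩ := PCAux.big hT hθv hinv u
  -- the deflation of `θ`
  have hMN : ∀ x ∈ N, M (u * x) = M u := by
    intro x hx
    rw [hMw, hMw]
    refine prod_congr rfl fun H hH => ?_
    have h2 := hlam1 H (hu H hH) x (hHN H hH hx)
    rw [chr_map_mul]
    simp [chr, h2]
  have hcN : (Nat.card N : K) ≠ 0 := Nat.cast_ne_zero.2 Nat.card_pos.ne'
  have htriv : ∀ l : T →* Kˣ, (∀ x ∈ N, l x = 1) ↔ l ^ p = 1 := by
    intro l
    constructor
    · intro h
      ext y
      rw [MonoidHom.pow_apply, ← map_pow, h _ ((hN _).2 ⟨y, rfl⟩), MonoidHom.one_apply]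
    · intro h x hx
      obtain ⟨y, rfl⟩ := (hN x).1 hx
      rw [map_pow, ← MonoidHom.pow_apply, h, MonoidHom.one_apply]
  have hdef : gb (QuotientGroup.mk u) * M u =
      ∑ l : T →* Kˣ with l ^ p = 1, mlt θ l * chr l u := by
    apply mul_left_cancel₀ hcN
    rw [← mul_assoc, hd, sum_mul]
    have h1 : ∀ x ∈ (univ.filter (fun x => x ∈ N) : Finset T), g (u * x) * M u = θ (u * x) := by
      intro x hx
      rw [mem_filter] at hx
      rw [hθ, Pi.mul_apply, hMN x hx.2]
    rw [sum_congr rfl h1, sum_congr rfl (fun x _ => eq_sum_mlt θ (u * x)), sum_comm, mul_sum,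
      sum_filter]
    refine sum_congr rfl fun l _ => ?_
    rw [← mul_sum, PCAux.sum_sub]
    by_cases h2 : l ^ p = 1
    · rw [if_pos h2, if_pos ((htriv l).2 h2)]
      ring
    · rw [if_neg h2, if_neg (fun h3 => h2 ((htriv l).1 h3)), mul_zero]
  have hdiff : ((m - mb : ℤ) : K) * M u = p * y := by
    have h1 := eq_sum_mlt θ u
    rw [← sum_filter_add_sum_filter_not univ (fun l : T →* Kˣ => l ^ p = 1), ← hdef] at h1
    have h2 : ∑ l : T →* Kˣ with ¬ l ^ p = 1, mlt θ l * chr l u = p * y := hyS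
    rw [h2, hmb, hθ, Pi.mul_apply, hm] at h1
    push_cast
    rw [sub_mul, h1]
    ring
  -- `M u`
  have hprod : ∀ S : Finset (Subgroup T), (∀ H ∈ S, H ∈ HH) → ∃ ε : K, IsIntegral ℤ ε ∧
      (∏ H ∈ S, (1 - chr (lam H) u)) ^ (p - 1) * ε = (p : K) ^ S.card := by
    intro S
    induction S using Finset.induction with
    | empty => exact fun _ => ⟨1, isIntegral_one, by simp⟩
    | insert H S hHS ih =>
      intro hS
      obtain ⟨ε, hε, hε'⟩ := ih fun H' hH' => hS H' (mem_insert_of_mem hH')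
      have hH := hS H (mem_insert_self H S)
      have hprim : IsPrimitiveRoot (chr (lam H) u) p := by
        refine IsPrimitiveRoot.of_map_of_injective (f := MonoidHom.id K) ?_ (fun _ _ h => h)
        rw [MonoidHom.id_apply]
        have h1 : orderOf (chr (lam H) u) = p := by
          refine orderOf_eq_prime ?_ ?_
          · rw [← PCAux.chr_pow', hpw H hH]
          · intro h2
            apply hlam2 H (hu H hH)
            ext
            rw [Units.val_one]
            exact h2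
        rw [← h1]
        exact IsPrimitiveRoot.orderOf _
      obtain ⟨ε₁, hε₁, δ, -, -, hp1⟩ := zz_p hprim
      have hI1 : IsIntegral ℤ ε₁ := by
        refine Subring.closure_induction (p := fun x _ => IsIntegral ℤ x) ?_ ?_ ?_ ?_ ?_ ?_ hε₁
        · rintro x rfl
          exact isIntegral_chr _ _
        · exact isIntegral_zero
        · exact isIntegral_one
        · exact fun x y _ _ hx hy => hx.add hy
        · exact fun x _ hx => hx.neg
        · exact fun x y _ _ hx hy => hx.mul hy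
      refine ⟨ε₁ * ε, hI1.mul hε, ?_⟩
      rw [prod_insert hHS, card_insert_of_notMem hHS, mul_pow]
      calc (1 - chr (lam H) u) ^ (p - 1) * (∏ H ∈ S, (1 - chr (lam H) u)) ^ (p - 1) * (ε₁ * ε)
          = ((1 - chr (lam H) u) ^ (p - 1) * ε₁) *
            ((∏ H ∈ S, (1 - chr (lam H) u)) ^ (p - 1) * ε) := by ring
        _ = p ^ (S.card + 1) := by rw [hε', ← hp1, pow_succ']
  obtain ⟨ε, hε, hε'⟩ := hprod HH fun _ h => h
  have hpK : (p : K) ≠ 0 := Nat.cast_ne_zero.2 hp.ne_zero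
  have h2p := hp.two_le
  obtain ⟨c, hc⟩ : ∃ c, p - 1 = HH.card + (c + 1) := ⟨p - 1 - HH.card - 1, by omega⟩
  have hfin : (((m - mb : ℤ)) : K) ^ (p - 1) = p * (p ^ c * y ^ (p - 1) * ε) := by
    have h1 : (((m - mb : ℤ)) : K) ^ (p - 1) * M u ^ (p - 1) = p ^ (p - 1) * y ^ (p - 1) := by
      rw [← mul_pow, hdiff, mul_pow]
    have h3 : M u ^ (p - 1) * ε = (p : K) ^ HH.card := by rw [hMw, hε']
    apply mul_right_cancel₀ (pow_ne_zero HH.card hpK)
    rw [← h3]
    calc (((m - mb : ℤ)) : K) ^ (p - 1) * (M u ^ (p - 1) * ε)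
        = ((((m - mb : ℤ)) : K) ^ (p - 1) * M u ^ (p - 1)) * ε := by ring
      _ = p ^ (HH.card + (c + 1)) * y ^ (p - 1) * ε := by rw [h1, ← hc]
      _ = p * (p ^ c * y ^ (p - 1) * ε) * p ^ HH.card := by rw [pow_add, pow_succ]; ring
      _ = p * (p ^ c * y ^ (p - 1) * ε) * (M u ^ (p - 1) * ε) := by rw [h3]
  have hI2 : IsIntegral ℤ (p : K) := by
    simpa using isIntegral_algebraMap (R := ℤ) (A := K) (x := (p : ℤ))
  have hint : IsIntegral ℤ ((p : K) ^ c * y ^ (p - 1) * ε) :=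
    ((hI2.pow c).mul (hy.pow _)).mul hε
  have h5 : (p : K) * ((p : K) ^ c * y ^ (p - 1) * ε) = (((m - mb) ^ (p - 1) : ℤ) : K) := by
    rw [← hfin]
    push_cast
    ring
  obtain ⟨n, hn⟩ := PCAux.int_of hint hp.ne_zero h5
  have h6 : (p : ℤ) ∣ (m - mb) ^ (p - 1) := by
    refine ⟨n, ?_⟩
    rw [hn] at h5
    exact_mod_cast h5.symm
  exact (Nat.prime_iff_prime_int.1 hp).dvd_of_dvd_pow h6

end

end Pool.Agent.Lib.P0c8ca5.Ex
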