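import Mathlib
import Pool.Agent.Lib.P0c8ca5Ex.PA

/-!
# RM: the minimal weight of the functions of bounded degree on an elementary abelian group

`Dg s f` (PA): all `s`-fold differences of `f` vanish. `mu p n s` is the minimal number of nonzero
values of a nonzero function of degree at most `s` on `F_p ^ n` (generalised Reed-Muller codes):
for `s = a (p - 1) + b`, `b < p - 1`, it is `(p - b) p ^ (n - a - 1)` if `a < n` and `1` otherwise.

`rm`: a function `f ≠ 0` with `Dg (s + 1) f` has at least `mu p n s` nonzero values.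
-/

set_option linter.unusedSectionVars false

namespace Pool.Agent.Lib.P0c8ca5.Ex

open Finset

section
variable {V W F : Type*} [AddCommGroup V] [AddCommGroup W] [CommRing F]

theorem Dg.zero (s : ℕ) : Dg s (fun _ : V => (0 : F)) := by
  induction s with
  | zero => exact fun _ => rfl
  | succ s ih =>
    intro w
    simp only [sub_zero]
    exact ih

theorem Dg.succ {s : ℕ} {f : V → F} (h : Dg s f) : Dg (s + 1) f := by
  induction s generalizing f with
  | zero =>
    intro w u
    change f (u + w) - f u = 0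
    rw [h, h, sub_zero]
  | succ s ih => exact fun w => ih (h w)

theorem Dg.mono {s t : ℕ} {f : V → F} (h : Dg s f) (hst : s ≤ t) : Dg t f := by
  induction t, hst using Nat.le_induction with
  | base => exact h
  | succ t _ ih => exact ih.succ

theorem Dg.add {s : ℕ} {f g : V → F} (hf : Dg s f) (hg : Dg s g) : Dg s (fun u => f u + g u) := by
  induction s generalizing f g with
  | zero =>
    intro u
    change f u + g u = 0
    rw [hf, hg, add_zero]
  | succ s ih =>
    intro w
    have h1 := ih (hf w) (hg w)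
    have h2 : (fun u => f (u + w) + g (u + w) - (f u + g u))
        = fun u => f (u + w) - f u + (g (u + w) - g u) := by
      funext u
      ring
    rw [h2]
    exact h1

theorem Dg.const_mul {s : ℕ} {f : V → F} (c : F) (hf : Dg s f) : Dg s (fun u => c * f u) := by
  induction s generalizing f with
  | zero =>
    intro u
    change c * f u = 0
    rw [hf, mul_zero]
  | succ s ih =>
    intro w
    have h1 := ih (hf w)
    have h2 : (fun u => c * f (u + w) - c * f u) = fun u => c * (f (u + w) - f u) := by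
      funext u
      ring
    rw [h2]
    exact h1

theorem Dg.sum {ι : Type*} {s : ℕ} {f : ι → V → F} (S : Finset ι) (hf : ∀ i ∈ S, Dg s (f i)) :
    Dg s (fun u => ∑ i ∈ S, f i u) := by
  classical
  induction S using Finset.induction_on with
  | empty =>
    simp only [Finset.sum_empty]
    exact Dg.zero s
  | insert i S hi ih =>
    have h1 := (hf i (Finset.mem_insert_self _ _)).add
      (ih fun j hj => hf j (Finset.mem_insert_of_mem hj))
    have h2 : (fun u => ∑ j ∈ insert i S, f j u) = fun u => f i u + ∑ j ∈ S, f j u := by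
      funext u
      rw [Finset.sum_insert hi]
    rw [h2]
    exact h1

theorem Dg.comp {s : ℕ} {f : V → F} (hf : Dg s f) (φ : W →+ V) (c : V) :
    Dg s (fun u => f (φ u + c)) := by
  induction s generalizing f with
  | zero => exact fun u => hf _
  | succ s ih =>
    intro w
    have h1 := ih (hf (φ w))
    have h2 : (fun u => f (φ (u + w) + c) - f (φ u + c))
        = fun u => (fun v => f (v + φ w) - f v) (φ u + c) := by
      funext u
      simp only
      rw [map_add, add_right_comm]
    rw [h2]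
    exact h1

open fwdDiff in
theorem Dg.iter {s : ℕ} {f : V → F} (hf : Dg s f) (w : V) (k : ℕ) : Dg (s - k) ((Δ_[w])^[k] f) := by
  induction k generalizing s f with
  | zero => exact hf
  | succ k ih =>
    rw [Function.iterate_succ_apply]
    rcases Nat.eq_zero_or_pos s with h0 | h0
    · subst h0
      have h1 : Dg 0 (fwdDiff w f) := by
        intro u
        change f (u + w) - f u = 0
        rw [hf, hf, sub_zero]
      have h2 := ih h1
      rwa [Nat.zero_sub] at h2 ⊢
    · obtain ⟨r, rfl⟩ := Nat.exists_eq_succ_of_ne_zero h0.ne'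
      have h1 : Dg r (fwdDiff w f) := hf w
      have h2 := ih h1
      rwa [show r.succ - (k + 1) = r - k by omega]

end

/-- the minimal weight -/
def mu (p n s : ℕ) : ℕ :=
  if s / (p - 1) < n then (p - s % (p - 1)) * p ^ (n - s / (p - 1) - 1) else 1

theorem mu_eq {p : ℕ} {n a b : ℕ} (hb : b < p - 1) :
    mu p n (a * (p - 1) + b) = if a < n then (p - b) * p ^ (n - a - 1) else 1 := by
  have h1 : (a * (p - 1) + b) / (p - 1) = a := by
    rw [mul_comm, Nat.mul_add_div (by omega), Nat.div_eq_of_lt hb, add_zero]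
  have h2 : (a * (p - 1) + b) % (p - 1) = b := by
    rw [mul_comm, Nat.mul_add_mod, Nat.mod_eq_of_lt hb]
  unfold mu
  rw [h1, h2]

theorem mu_step {p : ℕ} (hp : 2 ≤ p) (n s z : ℕ) (hz : z < p) (hzs : z ≤ s) :
    mu p (n + 1) s ≤ (p - z) * mu p n (s - z) := by
  obtain ⟨a, b, hb, rfl⟩ : ∃ a b, b < p - 1 ∧ s = a * (p - 1) + b :=
    ⟨s / (p - 1), s % (p - 1), Nat.mod_lt _ (by omega), (Nat.div_add_mod' s (p - 1)).symm⟩
  rw [mu_eq hb]
  by_cases hzb : z ≤ b
  · have h1 : a * (p - 1) + b - z = a * (p - 1) + (b - z) := by omega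
    rw [h1, mu_eq (by omega)]
    by_cases ha : a < n
    · rw [if_pos (by omega), if_pos ha]
      have h2 : n + 1 - a - 1 = (n - a - 1) + 1 := by omega
      rw [h2, pow_succ, ← mul_assoc, ← mul_assoc, mul_right_comm]
      refine Nat.mul_le_mul_right _ ?_
      obtain ⟨c, rfl⟩ : ∃ c, b = z + c := ⟨b - z, by omega⟩
      obtain ⟨d, rfl⟩ : ∃ d, p = z + c + d := ⟨p - (z + c), by omega⟩
      rw [show z + c + d - (z + c) = d by omega, show z + c + d - z = c + d by omega,
        show z + c + d - (z + c - z) = z + d by omega]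
      nlinarith [Nat.zero_le (z * c)]
    · rw [if_neg ha]
      split_ifs with h3
      · have h4 : n + 1 - a - 1 = 0 := by omega
        rw [h4, pow_zero, mul_one, mul_one]
        omega
      · omega
  · push Not at hzb
    have ha1 : 1 ≤ a := by
      rcases Nat.eq_zero_or_pos a with h0 | h0
      · subst h0
        omega
      · exact h0
    obtain ⟨a', rfl⟩ : ∃ a', a = a' + 1 := ⟨a - 1, by omega⟩
    have h1 : (a' + 1) * (p - 1) + b - z = a' * (p - 1) + (p - 1 + b - z) := by
      rw [add_mul, one_mul]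
      omega
    rw [h1, mu_eq (by omega)]
    by_cases ha : a' < n
    · rw [if_pos (by omega), if_pos ha, show n + 1 - (a' + 1) - 1 = n - a' - 1 by omega,
        ← mul_assoc]
      refine Nat.mul_le_mul_right _ ?_
      obtain ⟨c, rfl⟩ : ∃ c, z = b + 1 + c := ⟨z - (b + 1), by omega⟩
      obtain ⟨d, rfl⟩ : ∃ d, p = b + 1 + c + 1 + d := ⟨p - (b + 1 + c + 1), by omega⟩
      rw [show b + 1 + c + 1 + d - b = c + d + 2 by omega,
        show b + 1 + c + 1 + d - (b + 1 + c) = d + 1 by omega,
        show b + 1 + c + 1 + d - (b + 1 + c + 1 + d - 1 + b - (b + 1 + c)) = c + 2 by omega]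
      nlinarith [Nat.zero_le (d * c)]
    · rw [if_neg (by omega), if_neg ha]
      omega

section
variable {p : ℕ} [hp : Fact p.Prime]

/-- the binomial polynomials -/
noncomputable def bn (p : ℕ) [Fact p.Prime] (k : ℕ) : Polynomial (ZMod p) :=
  Polynomial.C ((k.factorial : ZMod p)⁻¹) * descPochhammer (ZMod p) k

theorem fac_ne {k : ℕ} (hk : k < p) : (k.factorial : ZMod p) ≠ 0 := by
  intro h
  rw [ZMod.natCast_eq_zero_iff] at h
  exact absurd ((hp.out.dvd_factorial).1 h) (by omega)

theorem bn_eval {k : ℕ} (hk : k < p) (m : ℕ) : (bn p k).eval (m : ZMod p) = (m.choose k : ZMod p) := by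
  rw [bn, Polynomial.eval_mul, Polynomial.eval_C, descPochhammer_eval_eq_descFactorial,
    Nat.descFactorial_eq_factorial_mul_choose, Nat.cast_mul, ← mul_assoc,
    inv_mul_cancel₀ (fac_ne hk), one_mul]

theorem bn_deg (k : ℕ) : (bn p k).degree ≤ k := by
  rw [bn]
  refine (Polynomial.degree_mul_le _ _).trans ?_
  refine (add_le_add Polynomial.degree_C_le Polynomial.degree_le_natDegree).trans ?_
  rw [descPochhammer_natDegree, zero_add]

variable {W : Type*} [AddCommGroup W]

open fwdDiff in
/-- Newton's formula in the second coordinate -/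
theorem newton (f : W × ZMod p → ZMod p) (u : W) (t : ZMod p) :
    f (u, t) = ∑ k ∈ range p, (bn p k).eval t * ((Δ_[((0 : W), (1 : ZMod p))])^[k] f) (u, 0) := by
  have h1 : (u, t) = (u, (0 : ZMod p)) + t.val • ((0 : W), (1 : ZMod p)) := by
    rw [Prod.smul_mk, smul_zero, Prod.mk_add_mk, add_zero, zero_add, nsmul_eq_mul, mul_one,
      ZMod.natCast_zmod_val]
  have h0 := shift_eq_sum_fwdDiff_iter ((0 : W), (1 : ZMod p)) f t.val (u, (0 : ZMod p))
  rw [← h1] at h0
  rw [h0]
  have hlt : t.val < p := ZMod.val_lt t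
  have h2 : range (t.val + 1) ⊆ range p := Finset.range_subset_range.2 hlt
  rw [← Finset.sum_subset h2]
  · refine Finset.sum_congr rfl fun k hk => ?_
    have hk' : k < p := Finset.mem_range.1 (h2 hk)
    have h3 : (bn p k).eval t = (t.val.choose k : ZMod p) := by
      rw [← bn_eval hk', ZMod.natCast_zmod_val]
    rw [h3, nsmul_eq_mul]
  · intro k hk hk'
    rw [Finset.mem_range] at hk hk'
    have h3 : (bn p k).eval t = (t.val.choose k : ZMod p) := by
      rw [← bn_eval hk, ZMod.natCast_zmod_val]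
    rw [h3, Nat.choose_eq_zero_of_lt (by omega), Nat.cast_zero, zero_mul]

open fwdDiff in
/-- the restriction of `f` to a line outside the zero lines -/
theorem Dg.slice {s : ℕ} {f : W × ZMod p → ZMod p} (hf : Dg (s + 1) f) (Z : Finset (ZMod p))
    (hZ : ∀ t ∈ Z, ∀ u, f (u, t) = 0) (t0 : ZMod p) :
    Dg (s + 1 - Z.card) (fun u => f (u, t0)) := by
  classical
  set g : ℕ → W → ZMod p := fun k u => ((Δ_[((0 : W), (1 : ZMod p))])^[k] f) (u, 0) with hg
  have hgd : ∀ k, Dg (s + 1 - k) (g k) := by
    intro k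
    have h1 := (hf.iter ((0 : W), (1 : ZMod p)) k).comp (AddMonoidHom.inl W (ZMod p)) 0
    have h2 : (fun u => ((Δ_[((0 : W), (1 : ZMod p))])^[k] f) ((AddMonoidHom.inl W (ZMod p)) u + 0))
        = g k := by
      funext u
      rw [add_zero]
      rfl
    rwa [h2] at h1
  set c : ℕ → ZMod p := fun k => (bn p k).eval t0 -
    ∑ t ∈ Z, (bn p k).eval t * (Lagrange.basis Z id t).eval t0 with hc
  have hc0 : ∀ k, k < Z.card → c k = 0 := by
    intro k hk
    have h1 : bn p k = Lagrange.interpolate Z id (fun t => (bn p k).eval (id t)) :=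
      Lagrange.eq_interpolate (Function.injective_id.injOn) ((bn_deg k).trans_lt
        (by exact_mod_cast hk))
    have h2 := congrArg (Polynomial.eval t0) h1
    rw [Lagrange.interpolate_apply, Polynomial.eval_finsetSum] at h2
    rw [hc]
    simp only
    rw [sub_eq_zero, h2]
    refine Finset.sum_congr rfl fun t _ => ?_
    rw [Polynomial.eval_mul, Polynomial.eval_C, id]
  have hsum : ∀ u, f (u, t0) = ∑ k ∈ range p, c k * g k u := by
    intro u
    have h1 : ∑ k ∈ range p, (∑ t ∈ Z, (bn p k).eval t * (Lagrange.basis Z id t).eval t0) * g k u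
        = 0 := by
      have h2 : ∀ k ∈ range p, (∑ t ∈ Z, (bn p k).eval t * (Lagrange.basis Z id t).eval t0) * g k u
          = ∑ t ∈ Z, (Lagrange.basis Z id t).eval t0 * ((bn p k).eval t * g k u) := by
        intro k _
        rw [Finset.sum_mul]
        refine Finset.sum_congr rfl fun t _ => by ring
      rw [Finset.sum_congr rfl h2, Finset.sum_comm]
      refine Finset.sum_eq_zero fun t ht => ?_
      rw [← Finset.mul_sum, ← newton f u t, hZ t ht, mul_zero]
    calc f (u, t0) = ∑ k ∈ range p, (bn p k).eval t0 * g k u := newton f u t0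
      _ = ∑ k ∈ range p, (bn p k).eval t0 * g k u - ∑ k ∈ range p,
          (∑ t ∈ Z, (bn p k).eval t * (Lagrange.basis Z id t).eval t0) * g k u := by
        rw [h1, sub_zero]
      _ = _ := by
        rw [← Finset.sum_sub_distrib]
        exact Finset.sum_congr rfl fun k _ => by rw [hc]; ring
  have h3 : (fun u => f (u, t0)) = fun u => ∑ k ∈ range p, c k * g k u := funext hsum
  rw [h3]
  refine Dg.sum _ fun k _ => ?_
  by_cases hk : k < Z.card
  · rw [hc0 k hk]
    simp only [zero_mul]
    exact Dg.zero _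
  · exact ((hgd k).mono (by omega)).const_mul (c k)

/-- the induction step -/
theorem rm_step {n : ℕ} [Fintype W]
    (ih : ∀ (s : ℕ) (f : W → ZMod p), Dg (s + 1) f → (∃ u, f u ≠ 0) →
      mu p n s ≤ (univ.filter fun u => f u ≠ 0).card)
    (s : ℕ) (f : W × ZMod p → ZMod p) (hf : Dg (s + 1) f) (h0 : ∃ u, f u ≠ 0) :
    mu p (n + 1) s ≤ (univ.filter fun u => f u ≠ 0).card := by
  classical
  have hp2 : 2 ≤ p := hp.out.two_le
  set Z : Finset (ZMod p) := univ.filter fun t => ∀ u, f (u, t) = 0 with hZ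
  have hZf : ∀ t ∈ Z, ∀ u, f (u, t) = 0 := fun t ht => (Finset.mem_filter.1 ht).2
  obtain ⟨⟨u0, t0⟩, hu0⟩ := h0
  have ht0 : t0 ∉ Z := fun h => hu0 (hZf t0 h u0)
  have hZp : Z.card < p := by
    have h1 : Z.card < (univ : Finset (ZMod p)).card :=
      Finset.card_lt_card ⟨Finset.subset_univ _, fun h => ht0 (h (Finset.mem_univ _))⟩
    rwa [Finset.card_univ, ZMod.card] at h1
  have hZs : Z.card ≤ s := by
    by_contra h
    have h1 := hf.slice Z hZf t0
    rw [show s + 1 - Z.card = 0 by omega] at h1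
    exact hu0 (h1 u0)
  have hsl : ∀ t ∈ Zᶜ, mu p n (s - Z.card) ≤ (univ.filter fun u => f (u, t) ≠ 0).card := by
    intro t ht
    refine ih (s - Z.card) (fun u => f (u, t)) ?_ ?_
    · have h1 := hf.slice Z hZf t
      rwa [show s + 1 - Z.card = s - Z.card + 1 by omega] at h1
    · by_contra h
      push Not at h
      rw [Finset.mem_compl] at ht
      exact ht (Finset.mem_filter.2 ⟨Finset.mem_univ _, h⟩)
  refine (mu_step hp2 n s Z.card hZp hZs).trans ?_
  have h1 : (univ.filter fun u => f u ≠ 0).card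
      = ∑ t : ZMod p, (univ.filter fun u => f (u, t) ≠ 0).card := by
    rw [Finset.card_filter, Fintype.sum_prod_type_right]
    refine Finset.sum_congr rfl fun t _ => ?_
    rw [Finset.card_filter]
  rw [h1]
  calc (p - Z.card) * mu p n (s - Z.card) = ∑ _t ∈ Zᶜ, mu p n (s - Z.card) := by
        rw [Finset.sum_const, Finset.card_compl, ZMod.card, smul_eq_mul]
    _ ≤ ∑ t ∈ Zᶜ, (univ.filter fun u => f (u, t) ≠ 0).card := Finset.sum_le_sum hsl
    _ ≤ _ := Finset.sum_le_sum_of_subset (Finset.subset_univ _)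

theorem Dg.congr_equiv {V V' : Type*} [AddCommGroup V] [AddCommGroup V'] [Fintype V] [Fintype V']
    (e : V ≃+ V') (s n : ℕ)
    (h : ∀ (s : ℕ) (f : V' → ZMod p), Dg (s + 1) f → (∃ u, f u ≠ 0) →
      mu p n s ≤ (univ.filter fun u => f u ≠ 0).card)
    (f : V → ZMod p) (hf : Dg (s + 1) f) (h0 : ∃ u, f u ≠ 0) :
    mu p n s ≤ (univ.filter fun u => f u ≠ 0).card := by
  have h1 := hf.comp e.symm.toAddMonoidHom 0
  have h2 := h s _ h1 ?_
  · refine h2.trans (le_of_eq ?_)
    refine Finset.card_bij (fun u _ => e.symm u) ?_ ?_ ?_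
    · intro u hu
      rw [Finset.mem_filter] at hu ⊢
      refine ⟨Finset.mem_univ _, ?_⟩
      have h3 := hu.2
      rw [add_zero] at h3
      exact h3
    · intro u _ v _ huv
      exact e.symm.injective huv
    · intro u hu
      rw [Finset.mem_filter] at hu
      refine ⟨e u, ?_, e.symm_apply_apply u⟩
      rw [Finset.mem_filter]
      refine ⟨Finset.mem_univ _, ?_⟩
      rw [add_zero]
      change f (e.symm (e u)) ≠ 0
      rw [e.symm_apply_apply]
      exact hu.2
  · obtain ⟨u, hu⟩ := h0
    refine ⟨e u, ?_⟩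
    rw [add_zero]
    change f (e.symm (e u)) ≠ 0
    rwa [e.symm_apply_apply]

theorem rm_fin (n : ℕ) : ∀ (s : ℕ) (f : (Fin n → ZMod p) → ZMod p), Dg (s + 1) f →
    (∃ u, f u ≠ 0) → mu p n s ≤ (univ.filter fun u => f u ≠ 0).card := by
  induction n with
  | zero =>
    intro s f _ h0
    obtain ⟨u, hu⟩ := h0
    unfold mu
    rw [if_neg (Nat.not_lt_zero _)]
    exact Finset.card_pos.2 ⟨u, Finset.mem_filter.2 ⟨Finset.mem_univ _, hu⟩⟩
  | succ n ih =>
    intro s
    have e : (Fin (n + 1) → ZMod p) ≃ₗ[ZMod p] (Fin n → ZMod p) × ZMod p := by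
      refine LinearEquiv.ofFinrankEq _ _ ?_
      rw [Module.finrank_prod, Module.finrank_fin_fun, Module.finrank_fin_fun, Module.finrank_self]
    exact Dg.congr_equiv e.toAddEquiv s (n + 1) (rm_step ih)

theorem rm_mod {V : Type*} [AddCommGroup V] [Module (ZMod p) V] [Fintype V] {n : ℕ}
    (hc : Fintype.card V = p ^ n) {s : ℕ} {f : V → ZMod p} (hf : Dg (s + 1) f)
    (h0 : ∃ u, f u ≠ 0) : mu p n s ≤ (univ.filter fun u => f u ≠ 0).card := by
  have hn : Module.finrank (ZMod p) V = n := by
    have h1 := Module.card_eq_pow_finrank (K := ZMod p) (V := V)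
    rw [hc, ZMod.card] at h1
    exact (Nat.pow_right_injective hp.out.two_le h1).symm
  have e : V ≃ₗ[ZMod p] (Fin n → ZMod p) :=
    LinearEquiv.ofFinrankEq V (Fin n → ZMod p) (by rw [Module.finrank_fin_fun, hn])
  exact Dg.congr_equiv e.toAddEquiv s n (rm_fin n) f hf h0

/-- **Lemma RM.** -/
theorem rm {V : Type*} [AddCommGroup V] [Fintype V] {n : ℕ} (hV : ∀ v : V, p • v = 0)
    (hc : Fintype.card V = p ^ n) {s : ℕ} {f : V → ZMod p} (hf : Dg (s + 1) f)
    (h0 : ∃ u, f u ≠ 0) : mu p n s ≤ (univ.filter fun u => f u ≠ 0).card :=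
  @rm_mod p hp V _ (AddCommGroup.zmodModule hV) _ n hc s f hf h0

end

open Classical in
/-- the form used for the rows -/
theorem rm_bound {p : ℕ} (hp : p.Prime) {V : Type*} [AddCommGroup V] [Fintype V]
    (hV : ∀ v : V, p • v = 0) {n : ℕ} (hc : Fintype.card V = p ^ n) (f : V → ZMod p) {k q : ℕ}
    (hq : q < p - 1) (hk : k < n) (hf : Dg (k * (p - 1) + q + 1) f) {u₀ : V} (h0 : f u₀ ≠ 0) :
    (p - q) * p ^ (n - k - 1) ≤ (Finset.univ.filter fun v => f v ≠ 0).card := by
  have hF : Fact p.Prime := ⟨hp⟩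
  have h1 := rm hV hc hf ⟨u₀, h0⟩
  rwa [mu_eq hq, if_pos hk] at h1

end Pool.Agent.Lib.P0c8ca5.Ex
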