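import Mathlib
import Pool.Agent.Lib.P0c8ca5Ex.PB
import Pool.Agent.Lib.P0c8ca5Ex.RM

/-!
# PD: rational virtual characters of an elementary abelian group are constant or large

`V` is elementary abelian of order `p ^ n`, `HH` a finite set of `q ≤ p - 2` proper subgroups, `v` is good if `v ∉ H` for all `H ∈ HH`. `g` is a virtual character with integer values `m v` at the good `v`, all congruent to `a` modulo `p`, `1 ≤ a ≤ (p - 1) / 2`.
PROOF of `card_good`. A proper subgroup has at most `p ^ (n - 1)` elements.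
PROOF of `supp_bound`. `φ v = m v - a`. Let `p ^ k` be the exact power of `p` dividing all `φ v`, `v` good, `k ≥ 1`, `p ^ (k + 1)` does not divide `φ v₀`. Choose `lam H : V →* Kˣ` trivial on `H`, `lam H v₀ ≠ 1`, `M = ∏ H ∈ HH, (1 - chr (lam H))`, `θ = (g - a) * M ∈ vir V K`. `θ v = 0` for `v` not good; for good `v`: `θ v = p ^ k * (φ v / p ^ k) * M v`, `M v = 0` or `(1 - ζ) ^ q * unit` (`zz_chr`, `zz_chr_unit`), so `θ v = (1 - ζ) ^ (k * (p - 1) + q) * y v`, `y v ∈ Zz ζ` (`zz_p`); at `v₀` `y v₀` is a product of units of `Zz ζ` and of an integer prime to `p`, so it is not in `(1 - ζ) * Zz ζ`. `lemL` with `s = k * (p - 1) + q` and `m v` from `zz_int`: the function `m v` modulo `p` (on `Additive V`) has `Dg (s + 1)`, is not zero at `v₀`, and where it is not zero `v` is good and `φ v ≠ 0`. `rm_bound`: at least `(p - q) * p ^ (n - k - 1)` such `v` if `k < n`.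
PROOF of `const_or_large`. With `S = {v good, φ v ≠ 0}`: for `v ∈ S`, `|φ v| ≥ p ^ k`, so `(m v) ^ 2 ≥ (p ^ k - a) ^ 2 = a ^ 2 + p ^ k * (p ^ k - 2 * a)`. The sum over the good `v` is at least `S.card * p ^ k * (p ^ k - 2 * a) + a ^ 2 * #good ≥ (p - q) * p ^ (n - 1) * (p - 2 * a + a ^ 2) ≥ (p - q) * (p - 1) * p ^ (n - 1)`: for `k < n` use `supp_bound` (`p ^ (n - k - 1) * p ^ k * (p ^ k - 2 a) ≥ p ^ (n - 1) * (p - 2 * a)`), for `k ≥ n` use `S.card ≥ 1` and `p ^ k * (p ^ k - 2 * a) ≥ p ^ n * (p - 2 * a)`, `p ≥ p - q`; and `card_good`.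
-/

namespace Pool.Agent.Lib.P0c8ca5.Ex

open Finset

section
variable {K : Type*} [Field K] [CharZero K] {p : ℕ} [Fact p.Prime]
variable {V : Type*} [CommGroup V] [Fintype V] [HasEnoughRootsOfUnity K (Monoid.exponent V)]


namespace PDAux

omit [Fact p.Prime] [CharZero K] in
/-- virtual characters are integral combinations of characters -/
theorem vir_sum {g : V → K} (hg : g ∈ vir V K) :
    ∃ x : (V →* Kˣ) → ℤ, ∀ u, g u = ∑ l, (x l : K) * chr l u := by
  classical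
  refine vir_induction (P := fun g => ∃ x : (V →* Kˣ) → ℤ, ∀ u, g u = ∑ l, (x l : K) * chr l u)
    ?_ ?_ ?_ ?_ hg
  · intro l
    refine ⟨fun m => if m = l then 1 else 0, fun u => ?_⟩
    simp
  · exact ⟨fun _ => 0, fun u => by simp⟩
  · rintro x y ⟨a, ha⟩ ⟨b, hb⟩
    refine ⟨fun l => a l + b l, fun u => ?_⟩
    rw [Pi.add_apply, ha, hb, ← Finset.sum_add_distrib]
    refine Finset.sum_congr rfl fun l _ => ?_
    push_cast
    ring
  · rintro x ⟨a, ha⟩
    refine ⟨fun l => - a l, fun u => ?_⟩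
    rw [Pi.neg_apply, ha, ← Finset.sum_neg_distrib]
    refine Finset.sum_congr rfl fun l _ => ?_
    push_cast
    ring

omit [Fact p.Prime] [CharZero K] in
/-- a character trivial on `H` and not at `v₀` -/
theorem sep (H : Subgroup V) {v₀ : V} (hv : v₀ ∉ H) :
    ∃ l : V →* Kˣ, (∀ u ∈ H, l u = 1) ∧ l v₀ ≠ 1 := by
  classical
  have hdvd : Monoid.exponent (V ⧸ H) ∣ Monoid.exponent V := by
    refine Monoid.exponent_dvd_of_forall_pow_eq_one fun q => ?_
    obtain ⟨u, rfl⟩ := QuotientGroup.mk_surjective q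
    rw [← QuotientGroup.mk_pow, Monoid.pow_exponent_eq_one, QuotientGroup.mk_one]
  have : NeZero (Monoid.exponent V) := ⟨Monoid.exponent_ne_zero_of_finite⟩
  have := HasEnoughRootsOfUnity.of_dvd K hdvd
  have h1 : (QuotientGroup.mk v₀ : V ⧸ H) ≠ 1 := by
    rw [Ne, QuotientGroup.eq_one_iff]
    exact hv
  obtain ⟨φ, hφ⟩ := CommGroup.exists_apply_ne_one_of_hasEnoughRootsOfUnity (V ⧸ H) K h1
  refine ⟨φ.comp (QuotientGroup.mk' H), fun u hu => ?_, hφ⟩
  rw [MonoidHom.comp_apply, QuotientGroup.mk'_apply, (QuotientGroup.eq_one_iff u).2 hu, map_one]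

end PDAux

open PDAux

open Classical in
theorem card_good (hV : ∀ u : V, u ^ p = 1) {n : ℕ} (hn : Nat.card V = p ^ (n + 1))
    (HH : Finset (Subgroup V)) (hH : ∀ H ∈ HH, H ≠ ⊤) (hq : HH.card ≤ p) :
    (p - HH.card) * p ^ n ≤ (Finset.univ.filter fun v : V => ∀ H ∈ HH, v ∉ H).card := by
  have hp : p.Prime := Fact.out
  have h1 : ∀ H ∈ HH, (Finset.univ.filter fun v : V => v ∈ H).card ≤ p ^ n := by
    intro H hHH
    have h2 : Nat.card H ∣ p ^ (n + 1) := hn ▸ Subgroup.card_subgroup_dvd_card H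
    obtain ⟨k, hk, hk2⟩ := (Nat.dvd_prime_pow hp).1 h2
    have h3 : (Finset.univ.filter fun v : V => v ∈ H).card = Nat.card H := by
      rw [Nat.card_eq_fintype_card, Fintype.card_subtype]
    rw [h3, hk2]
    refine Nat.pow_le_pow_right hp.pos ?_
    by_contra hcon
    have h4 : k = n + 1 := by omega
    rw [h4, ← hn] at hk2
    exact hH H hHH (Subgroup.eq_top_of_card_eq H hk2)
  have h5 : (Finset.univ.filter fun v : V => ¬ ∀ H ∈ HH, v ∉ H).card ≤ HH.card * p ^ n := by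
    have h6 : (Finset.univ.filter fun v : V => ¬ ∀ H ∈ HH, v ∉ H) ⊆
        HH.biUnion fun H => Finset.univ.filter fun v : V => v ∈ H := by
      intro v hv
      rw [Finset.mem_filter] at hv
      have h7 := hv.2
      push Not at h7
      obtain ⟨H, hHH, hvH⟩ := h7
      exact Finset.mem_biUnion.2 ⟨H, hHH, Finset.mem_filter.2 ⟨Finset.mem_univ _, hvH⟩⟩
    refine (Finset.card_le_card h6).trans (Finset.card_biUnion_le.trans ?_)
    refine (Finset.sum_le_sum h1).trans ?_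
    rw [Finset.sum_const, smul_eq_mul]
  have h8 := Finset.card_filter_add_card_filter_not (s := (Finset.univ : Finset V))
    (fun v : V => ∀ H ∈ HH, v ∉ H)
  rw [Finset.card_univ, ← Nat.card_eq_fintype_card, hn] at h8
  rw [Nat.sub_mul]
  have h9 : p ^ (n + 1) = p * p ^ n := by rw [pow_succ, mul_comm]
  omega

open Classical in
theorem supp_bound {ζ : K} (hζ : IsPrimitiveRoot ζ p) (hV : ∀ u : V, u ^ p = 1) {n : ℕ}
    (hn : Nat.card V = p ^ n) (HH : Finset (Subgroup V)) (hH : ∀ H ∈ HH, H ≠ ⊤)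
    (hq : HH.card < p - 1) {g : V → K} (hg : g ∈ vir V K) {a : ℤ} {m : V → ℤ}
    (hm : ∀ v, (∀ H ∈ HH, v ∉ H) → g v = m v) {k : ℕ} (hk : 1 ≤ k) (hkn : k < n)
    (hdvd : ∀ v, (∀ H ∈ HH, v ∉ H) → (p : ℤ) ^ k ∣ m v - a) {v₀ : V}
    (hv₀ : ∀ H ∈ HH, v₀ ∉ H) (h0 : ¬ (p : ℤ) ^ (k + 1) ∣ m v₀ - a) :
    (p - HH.card) * p ^ (n - k - 1) ≤
      (Finset.univ.filter fun v : V => (∀ H ∈ HH, v ∉ H) ∧ m v ≠ a).card := by
  have hp : p.Prime := Fact.out
  -- separating characters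
  have hsep : ∀ H ∈ HH, ∃ l : V →* Kˣ, (∀ u ∈ H, l u = 1) ∧ l v₀ ≠ 1 :=
    fun H hHH => sep H (hv₀ H hHH)
  choose! lam hlam hlam0 using hsep
  have hlamv0 : ∀ H ∈ HH, chr (lam H) v₀ ≠ 1 := by
    intro H hHH h1
    apply hlam0 H hHH
    ext
    rw [Units.val_one]
    exact h1
  -- the quotients
  have hφ : ∀ v, ∃ φ : ℤ, (∀ H ∈ HH, v ∉ H) → m v - a = (p : ℤ) ^ k * φ := by
    intro v
    by_cases h1 : ∀ H ∈ HH, v ∉ H
    · obtain ⟨φ, h2⟩ := hdvd v h1
      exact ⟨φ, fun _ => h2⟩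
    · exact ⟨0, fun h2 => absurd h2 h1⟩
  choose φ hφ using hφ
  -- the prime
  obtain ⟨ε, hε, δ, hδ, hεδ, hpε⟩ := zz_p (K := K) hζ
  -- the factors
  have hfac : ∀ H, ∀ v, ∃ e ∈ Zz ζ, ∃ d ∈ Zz ζ, (chr (lam H) v ≠ 1 → e * d = 1) ∧
      (chr (lam H) v = 1 → e = 0) ∧ 1 - chr (lam H) v = (1 - ζ) * e := by
    intro H v
    by_cases h1 : chr (lam H) v = 1
    · exact ⟨0, (Zz ζ).zero_mem, 0, (Zz ζ).zero_mem, fun h2 => absurd h1 h2, fun _ => rfl,
        by rw [h1, sub_self, mul_zero]⟩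
    · obtain ⟨e, he, d, hd, h2, h3⟩ := zz_chr_unit hζ (lam H) (hV v) h1
      exact ⟨e, he, d, hd, fun _ => h2, fun h4 => absurd h4 h1, h3⟩
  choose e he d hd hed he0 hfac using hfac
  -- the function
  set y : V → K := fun v => if (∀ H ∈ HH, v ∉ H) then
    (φ v : K) * ε ^ k * ∏ H ∈ HH, e H v else 0 with hy
  have hyZ : ∀ v, y v ∈ Zz ζ := by
    intro v
    rw [hy]
    simp only
    split_ifs with h1
    · exact (Zz ζ).mul_mem ((Zz ζ).mul_mem (intCast_mem _ _) ((Zz ζ).pow_mem hε k))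
        ((Zz ζ).prod_mem fun H _ => he H v)
    · exact (Zz ζ).zero_mem
  set θ : V → K := (g - fun _ => (a : K)) * ∏ H ∈ HH, (1 - chr (lam H)) with hθ
  have hθv : θ ∈ vir V K := by
    refine (vir V K).mul_mem ((vir V K).sub_mem hg ?_) ((vir V K).prod_mem fun H _ =>
      (vir V K).sub_mem (vir V K).one_mem (chr_mem _))
    have h1 : (fun _ : V => (a : K)) = ((a : ℤ) : V → K) := by
      funext u
      simp
    rw [h1]
    exact intCast_mem _ _
  have hθy : ∀ u, θ u = (1 - ζ) ^ (k * (p - 1) + HH.card) * y u := by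
    intro u
    have h1 : θ u = (g u - a) * ∏ H ∈ HH, (1 - chr (lam H) u) := by
      rw [hθ]
      simp only [Pi.mul_apply, Pi.sub_apply, Finset.prod_apply, Pi.one_apply]
    rw [h1]
    by_cases h2 : ∀ H ∈ HH, u ∉ H
    · have h3 : y u = (φ u : K) * ε ^ k * ∏ H ∈ HH, e H u := by
        rw [hy]
        simp only
        rw [if_pos h2]
      have h4 : ∏ H ∈ HH, (1 - chr (lam H) u) = (1 - ζ) ^ HH.card * ∏ H ∈ HH, e H u := by
        rw [Finset.prod_congr rfl fun H _ => hfac H u, Finset.prod_mul_distrib, Finset.prod_const]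
      have h5 : g u - a = (p : K) ^ k * φ u := by
        have h6 := hφ u h2
        rw [hm u h2]
        exact_mod_cast h6
      rw [h3, h4, h5, hpε, mul_pow, ← pow_mul, pow_add, mul_comm k (p - 1)]
      ring
    · have h3 : y u = 0 := by
        rw [hy]
        simp only
        rw [if_neg h2]
      push Not at h2
      obtain ⟨H, hHH, huH⟩ := h2
      rw [h3, mul_zero]
      have h4 : 1 - chr (lam H) u = 0 := by
        unfold chr
        rw [hlam H hHH u huH, Units.val_one, sub_self]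
      rw [Finset.prod_eq_zero hHH h4, mul_zero]
  obtain ⟨x, hx⟩ := vir_sum hθv
  have hm' : ∀ u, ∃ n : ℤ, ∃ z ∈ Zz ζ, y u = n + (1 - ζ) * z := fun u => zz_int hζ (hyZ u)
  choose m' z hz hm' using hm'
  have hDg := lemL hζ hV (k * (p - 1) + HH.card) (fun l => (x l : K))
    (fun l => intCast_mem _ _) y (fun u => by rw [← hx u, hθy u]) m' (fun u => ⟨z u, hz u, hm' u⟩)
  have hVa : ∀ v : Additive V, p • v = 0 := fun v => hV (Additive.toMul v)
  have hc : Fintype.card (Additive V) = p ^ n := by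
    rw [← hn, Nat.card_eq_fintype_card]
    exact Fintype.card_congr Additive.toMul
  -- the value at v₀
  have hv0 : ((m' v₀ : ℤ) : ZMod p) ≠ 0 := by
    intro h1
    rw [ZMod.intCast_zmod_eq_zero_iff_dvd] at h1
    obtain ⟨t, ht⟩ := h1
    have h2 : y v₀ = (φ v₀ : K) * ε ^ k * ∏ H ∈ HH, e H v₀ := by
      rw [hy]
      simp only
      rw [if_pos hv₀]
    have h3 : (∏ H ∈ HH, e H v₀) * ∏ H ∈ HH, d H v₀ = 1 := by
      rw [← Finset.prod_mul_distrib]
      exact Finset.prod_eq_one fun H hHH => hed H v₀ (hlamv0 H hHH)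
    have h4 : ε ^ k * δ ^ k = 1 := by rw [← mul_pow, hεδ, one_pow]
    have h5 : (φ v₀ : K) = y v₀ * δ ^ k * ∏ H ∈ HH, d H v₀ := by
      rw [h2]
      calc (φ v₀ : K) = φ v₀ * (ε ^ k * δ ^ k) * ((∏ H ∈ HH, e H v₀) * ∏ H ∈ HH, d H v₀) := by
            rw [h3, h4, mul_one, mul_one]
        _ = _ := by ring
    have hp1 : p - 1 = (p - 2) + 1 := by
      have := hp.two_le
      omega
    have h6 : y v₀ = (1 - ζ) * ((1 - ζ) ^ (p - 2) * ε * t + z v₀) := by
      rw [hm' v₀, ht]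
      push_cast
      rw [hpε, hp1, pow_succ]
      ring
    have hζZ : ζ ∈ Zz ζ := Subring.subset_closure rfl
    have h1ζ : 1 - ζ ∈ Zz ζ := (Zz ζ).sub_mem (Zz ζ).one_mem hζZ
    have h7 : (p : ℤ) ∣ φ v₀ := by
      refine zz_dvd hζ (y := ((1 - ζ) ^ (p - 2) * ε * t + z v₀) * δ ^ k * ∏ H ∈ HH, d H v₀) ?_ ?_
      · exact (Zz ζ).mul_mem ((Zz ζ).mul_mem ((Zz ζ).add_mem ((Zz ζ).mul_mem
          ((Zz ζ).mul_mem ((Zz ζ).pow_mem h1ζ _) hε) (intCast_mem _ _)) (hz v₀))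
          ((Zz ζ).pow_mem hδ k)) ((Zz ζ).prod_mem fun H _ => hd H v₀)
      · rw [h5, h6]
        ring
    apply h0
    rw [hφ v₀ hv₀, pow_succ]
    exact mul_dvd_mul_left _ h7
  refine (rm_bound hp hVa hc _ hq hkn hDg (u₀ := Additive.ofMul v₀) hv0).trans ?_
  refine Finset.card_le_card_of_injOn (fun v => Additive.toMul v) ?_
    (fun u _ v _ huv => Additive.toMul.injective huv)
  intro u hu
  rw [Finset.mem_coe, Finset.mem_filter] at hu ⊢
  have hu2 := hu.2
  refine ⟨Finset.mem_univ _, ?_⟩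
  by_contra hcon
  apply hu2
  have h1 : y (Additive.toMul u) = 0 := by
    rw [hy]
    simp only
    by_cases h2 : ∀ H ∈ HH, Additive.toMul u ∉ H
    · rw [if_pos h2]
      have h3 : m (Additive.toMul u) = a := by
        by_contra h4
        exact hcon ⟨h2, h4⟩
      have h4 := hφ _ h2
      rw [h3, sub_self] at h4
      have h5 : (p : ℤ) ^ k ≠ 0 := pow_ne_zero _ (by exact_mod_cast hp.ne_zero)
      have h6 : φ (Additive.toMul u) = 0 := by
        rcases mul_eq_zero.1 h4.symm with h7 | h7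
        · exact absurd h7 h5
        · exact h7
      rw [h6]
      simp
    · rw [if_neg h2]
  have h2 : ((m' (Additive.toMul u) : ℤ) : K) = (1 - ζ) * (- z (Additive.toMul u)) := by
    have h3 := hm' (Additive.toMul u)
    rw [h1] at h3
    linear_combination -h3
  rw [ZMod.intCast_zmod_eq_zero_iff_dvd]
  exact zz_dvd hζ ((Zz ζ).neg_mem (hz _)) h2

open Classical in
theorem const_or_large {ζ : K} (hζ : IsPrimitiveRoot ζ p) (hp2 : p ≠ 2)
    (hV : ∀ u : V, u ^ p = 1) {n : ℕ}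
    (hn : Nat.card V = p ^ (n + 1)) (HH : Finset (Subgroup V)) (hH : ∀ H ∈ HH, H ≠ ⊤)
    (hq : HH.card < p - 1) {g : V → K} (hg : g ∈ vir V K) {a : ℤ} (ha : 1 ≤ a)
    (ha2 : 2 * a < p) {m : V → ℤ} (hm : ∀ v, (∀ H ∈ HH, v ∉ H) → g v = m v)
    (hdvd : ∀ v, (∀ H ∈ HH, v ∉ H) → (p : ℤ) ∣ m v - a) :
    (∀ v, (∀ H ∈ HH, v ∉ H) → m v = a) ∨
      (((p - HH.card) * (p - 1) * p ^ n : ℕ) : ℤ) ≤
        ∑ v : V with (∀ H ∈ HH, v ∉ H), m v ^ 2 := by
  have hp : p.Prime := Fact.out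
  by_cases hall : ∀ v, (∀ H ∈ HH, v ∉ H) → m v = a
  · exact Or.inl hall
  right
  push Not at hall
  obtain ⟨v₁, hv₁, hv₁a⟩ := hall
  have hp1 : (1 : ℤ) < p := by exact_mod_cast hp.one_lt
  -- the exact power
  have hex : ∃ j : ℕ, ∃ v, (∀ H ∈ HH, v ∉ H) ∧ ¬ (p : ℤ) ^ j ∣ m v - a := by
    obtain ⟨j, hj⟩ := Int.finiteMultiplicity_iff.2 ⟨by
      rw [Int.natAbs_natCast]
      exact hp.ne_one, sub_ne_zero.2 hv₁a⟩
    exact ⟨j + 1, v₁, hv₁, hj⟩
  obtain ⟨v₀, hv₀, h0⟩ := Nat.find_spec hex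
  set j := Nat.find hex with hj
  have hmin : ∀ i < j, ∀ v, (∀ H ∈ HH, v ∉ H) → (p : ℤ) ^ i ∣ m v - a := by
    intro i hi v hv
    by_contra hcon
    exact Nat.find_min hex hi ⟨v, hv, hcon⟩
  have hj2 : 2 ≤ j := by
    by_contra hcon
    have h1 : j = 0 ∨ j = 1 := by omega
    rcases h1 with h1 | h1
    · rw [h1, pow_zero] at h0
      exact h0 (one_dvd _)
    · rw [h1, pow_one] at h0
      exact h0 (hdvd v₀ hv₀)
  obtain ⟨k, hk⟩ : ∃ k, j = k + 1 := ⟨j - 1, by omega⟩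
  have hk1 : 1 ≤ k := by omega
  rw [hk] at h0
  have hkd : ∀ v, (∀ H ∈ HH, v ∉ H) → (p : ℤ) ^ k ∣ m v - a := hmin k (by omega)
  -- the support
  set S : Finset V := Finset.univ.filter fun v : V => (∀ H ∈ HH, v ∉ H) ∧ m v ≠ a with hS
  set G : Finset V := Finset.univ.filter fun v : V => ∀ H ∈ HH, v ∉ H with hG
  have hSG : S ⊆ G := by
    intro v hv
    rw [hS, Finset.mem_filter] at hv
    exact Finset.mem_filter.2 ⟨Finset.mem_univ _, hv.2.1⟩
  have hcardG := card_good (p := p) hV hn HH hH (by omega)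
  have hpk : (p : ℤ) ≤ (p : ℤ) ^ k := by
    calc (p : ℤ) = (p : ℤ) ^ 1 := (pow_one _).symm
      _ ≤ (p : ℤ) ^ k := pow_le_pow_right₀ hp1.le hk1
  have hSval : ∀ v ∈ S, a ^ 2 + (p : ℤ) ^ k * ((p : ℤ) ^ k - 2 * a) ≤ m v ^ 2 := by
    intro v hv
    rw [hS, Finset.mem_filter] at hv
    obtain ⟨t, ht⟩ := hkd v hv.2.1
    have ht0 : t ≠ 0 := by
      rintro rfl
      rw [mul_zero] at ht
      exact hv.2.2 (sub_eq_zero.1 ht)
    have h1 : m v = a + (p : ℤ) ^ k * t := by linarith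
    rcases lt_or_gt_of_ne ht0 with h2 | h2
    · have h3 : (p : ℤ) ^ k * t ≤ - (p : ℤ) ^ k := by nlinarith
      have h4 : m v ≤ a - (p : ℤ) ^ k := by linarith
      nlinarith
    · have h3 : (p : ℤ) ^ k ≤ (p : ℤ) ^ k * t := by nlinarith
      have h4 : a + (p : ℤ) ^ k ≤ m v := by linarith
      nlinarith
  have hGval : ∀ v ∈ G \ S, a ^ 2 ≤ m v ^ 2 := by
    intro v hv
    rw [Finset.mem_sdiff, hG, Finset.mem_filter, hS, Finset.mem_filter] at hv
    have h1 : m v = a := by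
      by_contra h2
      exact hv.2 ⟨Finset.mem_univ _, hv.1.2, h2⟩
    rw [h1]
  have hsum : (S.card : ℤ) * (a ^ 2 + (p : ℤ) ^ k * ((p : ℤ) ^ k - 2 * a)) +
      ((G \ S).card : ℤ) * a ^ 2 ≤ ∑ v ∈ G, m v ^ 2 := by
    rw [← Finset.sum_sdiff hSG, add_comm]
    refine add_le_add ?_ ?_
    · have h1 := Finset.sum_le_sum hGval
      rwa [Finset.sum_const, nsmul_eq_mul] at h1
    · have h1 := Finset.sum_le_sum hSval
      rwa [Finset.sum_const, nsmul_eq_mul] at h1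
  refine le_trans ?_ hsum
  have hcs : ((G \ S).card : ℤ) = G.card - S.card := by
    rw [Finset.card_sdiff_of_subset hSG, Nat.cast_sub (Finset.card_le_card hSG)]
  rw [hcs]
  -- the main term
  have hmain : (((p - HH.card) * p ^ n : ℕ) : ℤ) * (p - 2 * a) ≤
      (S.card : ℤ) * ((p : ℤ) ^ k * ((p : ℤ) ^ k - 2 * a)) := by
    have hpa : (0 : ℤ) ≤ (p : ℤ) - 2 * a := by linarith
    have hpka : (p : ℤ) - 2 * a ≤ (p : ℤ) ^ k - 2 * a := by linarith
    by_cases hkn : k < n + 1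
    · have h1 := supp_bound hζ hV hn HH hH hq hg hm hk1 hkn hkd hv₀ h0
      have h2 : (p - HH.card) * p ^ n ≤ S.card * p ^ k := by
        refine le_trans ?_ (Nat.mul_le_mul_right (p ^ k) h1)
        rw [mul_assoc, ← pow_add, show n + 1 - k - 1 + k = n by omega]
      have h3 : (((p - HH.card) * p ^ n : ℕ) : ℤ) ≤ (S.card : ℤ) * (p : ℤ) ^ k := by
        exact_mod_cast h2
      calc (((p - HH.card) * p ^ n : ℕ) : ℤ) * (p - 2 * a)
          ≤ ((S.card : ℤ) * (p : ℤ) ^ k) * ((p : ℤ) ^ k - 2 * a) :=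
            mul_le_mul h3 hpka hpa (by positivity)
        _ = _ := by ring
    · have h1 : 1 ≤ S.card := by
        refine Finset.card_pos.2 ⟨v₁, ?_⟩
        rw [hS, Finset.mem_filter]
        exact ⟨Finset.mem_univ _, hv₁, hv₁a⟩
      have h2 : (p - HH.card) * p ^ n ≤ S.card * p ^ k := by
        calc (p - HH.card) * p ^ n ≤ p * p ^ n := Nat.mul_le_mul_right _ (Nat.sub_le _ _)
          _ = p ^ (n + 1) := by rw [pow_succ, mul_comm]
          _ ≤ p ^ k := Nat.pow_le_pow_right hp.pos (by omega)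
          _ = 1 * p ^ k := (one_mul _).symm
          _ ≤ S.card * p ^ k := Nat.mul_le_mul_right _ h1
      have h3 : (((p - HH.card) * p ^ n : ℕ) : ℤ) ≤ (S.card : ℤ) * (p : ℤ) ^ k := by
        exact_mod_cast h2
      calc (((p - HH.card) * p ^ n : ℕ) : ℤ) * (p - 2 * a)
          ≤ ((S.card : ℤ) * (p : ℤ) ^ k) * ((p : ℤ) ^ k - 2 * a) :=
            mul_le_mul h3 hpka hpa (by positivity)
        _ = _ := by ring
  have hG2 : (((p - HH.card) * p ^ n : ℕ) : ℤ) ≤ (G.card : ℤ) := by exact_mod_cast hcardG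
  have hfin : (((p - HH.card) * (p - 1) * p ^ n : ℕ) : ℤ) =
      (((p - HH.card) * p ^ n : ℕ) : ℤ) * (p - 1) := by
    have h1 : (p - HH.card) * (p - 1) * p ^ n = ((p - HH.card) * p ^ n) * (p - 1) := by ring
    rw [h1, Nat.cast_mul, Nat.cast_sub hp.one_lt.le, Nat.cast_one]
  rw [hfin]
  set A : ℤ := (((p - HH.card) * p ^ n : ℕ) : ℤ) with hA
  have hA0 : 0 ≤ A := by positivity
  have h1 : A * a ^ 2 ≤ G.card * a ^ 2 := mul_le_mul_of_nonneg_right hG2 (sq_nonneg a)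
  have h2 : A * (p - 1) ≤ A * (p - 2 * a) + A * a ^ 2 := by
    have h3 : 0 ≤ A * (a - 1) ^ 2 := mul_nonneg hA0 (sq_nonneg _)
    nlinarith
  nlinarith

end

end Pool.Agent.Lib.P0c8ca5.Ex
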