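import Mathlib
import Pool.Agent.Lib.P0c8ca5Ex.GP
import Pool.Agent.Lib.P0c8ca5Ex.PC
import Pool.Agent.Lib.P0c8ca5Ex.PD

/-!
# PF: the number of rational rows, sharp form

`e = |E|`, `q = HH.card`, `u` is good if `u ∉ H` for all `H ∈ HH`; good places are in `U`.
PROOF of `rational_rows2`. `T ≠ 1` and `HH ≠ ∅` (otherwise `1` is good, `Places.ne`). From `h`: `q ≤ p - 2` and `e < p - 1`. Let `N` be the subgroup of p-th powers (`powMonoidHom p` range), `H' = H ⊔ N` for `H ∈ HH`: proper (if `H ⊔ N = ⊤` then `H = ⊤`: iterate, `T = H * T ^ p = H * T ^ (p ^ n) = H`), contains `N`; `HH' = HH.image (· ⊔ N)`, `HH'.card ≤ q`; `u` good for `HH'` implies good for `HH`, so `U u`. `V = T ⧸ N`, `Nat.card V = p ^ (n + 1)` (not trivial), images `H' / N` of the `H'` in `V` are proper, `HHV`, `HHV.card ≤ q`; `mk u` is good iff `u` is good for `HH'`.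
Integers `z j u = g j u` for `j ∈ R`, `U u` (`hint`), constant on generators and on `E`-orbits (`hgal`, `hinv`). `bessel` for integers `y`, and restriction of the sum to the `u` good for `HH'` (a subset of `U`, all terms are `≥ 0`).
`gb j` from `defl`; for `v = mk u` good: `|N| * gb j v = ∑ x ∈ N, z j (u * x)` (`u * x` is good), so `gb j v = zb j v` is an integer (`gb_int`). Cauchy (`inner_mul_le_norm_mul_norm` or `Finset.sum_mul_sq_le_sq_mul_sq`, `inner`: `(∑_(x ∈ N) F (u * x)) ^ 2 ≤ |N| * ∑ F (u * x) ^ 2`), summed over the good `v`: `∑_(v good) (∑ j, y j * zb j v) ^ 2 ≤ (|T| / |N|) * e * ∑ y j ^ 2 = |V| * e * ∑ y j ^ 2`.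
Fix `j ∈ R`. There is a good `u` for `HH'` (`card_good`). `g j 1` is an integer `b` (closure induction) and `p ∣ z j u - b` for all good `u` (`vir_congr`, P0c8ca5Ex.R2). Let `a j` be this class: `z j u = a j` modulo `p` at all good `u`, and `zb j v = a j` modulo `p` (`defl_congr`).
`a j ≠ 0`: otherwise `z j u ^ 2 ≥ p ^ 2` (`hne`), so `p ^ 2 * #good ≤ |T| * e` (`bessel` with `y = Pi.single j 1`), `#good ≥ |T| * (p - q) / p` (`card_good` in `V`, times `|N|`), so `p * (p - q) ≤ e`, against `h`.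
Let `b j ∈ {1, …, (p - 1) / 2}` and a sign `σ j` with `σ j * a j = b j` modulo `p`. `const_or_large` for `σ j * gb j`, `a := b j`: the second case contradicts Bessel with `y = Pi.single j 1` (`|V| * e = p ^ (n + 1) * e < (p - q) * (p - 1) * p ^ n`). So `zb j v = σ j * b j` for all good `v`.
Bessel with `y j = σ j * b j`: `A = ∑ j ∈ R, b j ^ 2`: `#good * A ^ 2 ≤ p ^ (n + 1) * e * A`, `#good ≥ (p - q) * p ^ n`, so (`A > 0`) `(p - q) * A ≤ p * e < (p - 1) * (p - q)`, `A < p - 1`, `R.card ≤ A`.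
A primitive p-th root of unity `ζ` in `K` exists because `p ∣ Monoid.exponent T` (`T ≠ 1`), `HasEnoughRootsOfUnity`; `HasEnoughRootsOfUnity K (Monoid.exponent V)` because `exponent V ∣ exponent T`.
`cover_fix`: `HH` = the fixed point subgroups of the `φ ∈ E`, `φ ≠ 1`: at most `e - 1` proper subgroups, and if `u` is in none of them then `st E u = 1`. `num_half`: `p * e < (p - 1) * (p - q)` for `q ≤ e - 1`, `2 * e < p`, `2 ≤ e`.
-/

namespace Pool.Agent.Lib.P0c8ca5.Ex

open Finset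

set_option linter.unusedSectionVars false

namespace PFAux

/-- a proper subgroup of a p-group stays proper after adding the p-th powers -/
theorem sup_pow_ne_top {T : Type*} [CommGroup T] [Finite T] {p : ℕ} (hT : IsPGroup p T)
    {H : Subgroup T} (hH : H ≠ ⊤) : H ⊔ (powMonoidHom p : T →* T).range ≠ ⊤ := by
  intro h
  apply hH
  have h1 : ∀ n : ℕ, ∀ t : T, ∃ a ∈ H, ∃ s : T, t = a * s ^ p ^ n := by
    intro n
    induction n with
    | zero => exact fun t => ⟨1, H.one_mem, t, by simp⟩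
    | succ n ih =>
      intro t
      obtain ⟨a, ha, s, rfl⟩ := ih t
      have hs : s ∈ H ⊔ (powMonoidHom p : T →* T).range := by
        rw [h]
        exact Subgroup.mem_top s
      obtain ⟨b, hb, c, ⟨d, rfl⟩, rfl⟩ := Subgroup.mem_sup.1 hs
      refine ⟨a * b ^ p ^ n, H.mul_mem ha (H.pow_mem hb _), d, ?_⟩
      rw [powMonoidHom_apply, mul_pow, ← pow_mul, mul_assoc, pow_succ', mul_comm p]
  have h2 : ∃ n : ℕ, ∀ t : T, t ^ p ^ n = 1 := by
    have := Fintype.ofFinite T
    choose n hn using hT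
    refine ⟨∑ t, n t, fun t => ?_⟩
    have h3 : n t ≤ ∑ t, n t := Finset.single_le_sum (fun _ _ => Nat.zero_le _) (Finset.mem_univ t)
    obtain ⟨k, hk⟩ := Nat.exists_eq_add_of_le h3
    rw [hk, pow_add, pow_mul, hn t, one_pow]
  obtain ⟨n, hn⟩ := h2
  rw [Subgroup.eq_top_iff']
  intro t
  obtain ⟨a, ha, s, rfl⟩ := h1 n t
  rw [hn, mul_one]
  exact ha

section quot
variable {T : Type*} [CommGroup T] [Fintype T] (N : Subgroup T) [Fintype (T ⧸ N)]

/-- summation over the fibres of the quotient map -/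
theorem sum_mk (f : T ⧸ N → ℤ) :
    ∑ u : T, f (QuotientGroup.mk u) = (Nat.card N : ℤ) * ∑ v, f v := by
  classical
  rw [← Finset.sum_fiberwise (s := (Finset.univ : Finset T)) (g := fun u => (QuotientGroup.mk u : T ⧸ N)),
    Finset.mul_sum]
  refine Finset.sum_congr rfl fun v _ => ?_
  have h1 : ∀ u ∈ Finset.univ.filter (fun u : T => (QuotientGroup.mk u : T ⧸ N) = v),
      f (QuotientGroup.mk u) = f v := fun u hu => by rw [(Finset.mem_filter.1 hu).2]
  rw [Finset.sum_congr rfl h1, Finset.sum_const, nsmul_eq_mul]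
  congr 1
  obtain ⟨w, rfl⟩ := QuotientGroup.mk_surjective v
  norm_cast
  rw [Nat.card_eq_fintype_card]
  refine (Finset.card_bij (fun (x : N) _ => w * x) ?_ ?_ ?_).symm
  · intro x _
    rw [Finset.mem_filter]
    exact ⟨Finset.mem_univ _, QuotientGroup.eq.2 (by
      rw [mul_inv_rev, inv_mul_cancel_right]
      exact N.inv_mem x.2)⟩
  · intro x _ y _ h
    exact Subtype.ext (mul_left_cancel h)
  · intro u hu
    rw [Finset.mem_filter] at hu
    refine ⟨⟨w⁻¹ * u, QuotientGroup.eq.1 hu.2.symm⟩, Finset.mem_univ _, ?_⟩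
    exact mul_inv_cancel_left w u

theorem sum_mk_filter (P : T ⧸ N → Prop) [DecidablePred P] (f : T ⧸ N → ℤ) :
    ∑ u : T with P (QuotientGroup.mk u), f (QuotientGroup.mk u) =
      (Nat.card N : ℤ) * ∑ v with P v, f v := by
  rw [Finset.sum_filter, Finset.sum_filter]
  exact sum_mk N (fun v => if P v then f v else 0)

open Classical in
theorem cauchy (P : T ⧸ N → Prop) (F : T → ℤ) (Fb : T ⧸ N → ℤ)
    (h : ∀ u, P (QuotientGroup.mk u) →
      (Nat.card N : ℤ) * Fb (QuotientGroup.mk u) = ∑ x : T with x ∈ N, F (u * x)) :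
    (Nat.card N : ℤ) * ∑ v with P v, Fb v ^ 2 ≤ ∑ u : T with P (QuotientGroup.mk u), F u ^ 2 := by
  set G : T → ℤ := fun u => if P (QuotientGroup.mk u) then F u else 0 with hG
  set Gb : T ⧸ N → ℤ := fun v => if P v then Fb v else 0 with hGb
  have hN0 : (0 : ℤ) < Nat.card N := by exact_mod_cast Nat.card_pos
  have hmk : ∀ u x : T, x ∈ N → (QuotientGroup.mk (u * x) : T ⧸ N) = QuotientGroup.mk u := by
    intro u x hx
    exact QuotientGroup.eq.2 (by
      rw [mul_inv_rev, inv_mul_cancel_right]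
      exact N.inv_mem hx)
  have hcard : ((Finset.univ.filter fun x : T => x ∈ N).card : ℤ) = Nat.card N := by
    rw [Nat.card_eq_fintype_card, Fintype.card_subtype]
  have h1 : ∀ u, (Nat.card N : ℤ) * Gb (QuotientGroup.mk u) = ∑ x : T with x ∈ N, G (u * x) := by
    intro u
    by_cases hu : P (QuotientGroup.mk u)
    · simp only [hGb, if_pos hu]
      rw [h u hu]
      refine Finset.sum_congr rfl fun x hx => ?_
      simp only [hG]
      rw [hmk u x (Finset.mem_filter.1 hx).2, if_pos hu]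
    · simp only [hGb, if_neg hu, mul_zero]
      refine (Finset.sum_eq_zero fun x hx => ?_).symm
      simp only [hG]
      rw [hmk u x (Finset.mem_filter.1 hx).2, if_neg hu]
  have h2 : ∀ u, (Nat.card N : ℤ) * Gb (QuotientGroup.mk u) ^ 2
      ≤ ∑ x : T with x ∈ N, G (u * x) ^ 2 := by
    intro u
    have h3 : (∑ x : T with x ∈ N, G (u * x)) ^ 2
        ≤ ((Finset.univ.filter fun x : T => x ∈ N).card : ℤ) * ∑ x : T with x ∈ N, G (u * x) ^ 2 :=
      sq_sum_le_card_mul_sum_sq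
    rw [← h1 u, hcard] at h3
    have h4 : (Nat.card N : ℤ) * ((Nat.card N : ℤ) * Gb (QuotientGroup.mk u) ^ 2)
        ≤ (Nat.card N : ℤ) * ∑ x : T with x ∈ N, G (u * x) ^ 2 := by
      calc _ = ((Nat.card N : ℤ) * Gb (QuotientGroup.mk u)) ^ 2 := by ring
        _ ≤ _ := h3
    exact le_of_mul_le_mul_left h4 hN0
  have h3 : ∑ u : T, (Nat.card N : ℤ) * Gb (QuotientGroup.mk u) ^ 2
      ≤ (Nat.card N : ℤ) * ∑ u, G u ^ 2 := by
    calc ∑ u : T, (Nat.card N : ℤ) * Gb (QuotientGroup.mk u) ^ 2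
        ≤ ∑ u : T, ∑ x : T with x ∈ N, G (u * x) ^ 2 := Finset.sum_le_sum fun u _ => h2 u
      _ = ∑ x : T with x ∈ N, ∑ u : T, G (u * x) ^ 2 := Finset.sum_comm
      _ = ∑ x : T with x ∈ N, ∑ u : T, G u ^ 2 :=
        Finset.sum_congr rfl fun x _ => Equiv.sum_comp (Equiv.mulRight x) fun u => G u ^ 2
      _ = _ := by rw [Finset.sum_const, nsmul_eq_mul, hcard]
  rw [← Finset.mul_sum, sum_mk N (fun v => Gb v ^ 2)] at h3
  have h4 := le_of_mul_le_mul_left h3 hN0
  have h5 : ∑ v, Gb v ^ 2 = ∑ v with P v, Fb v ^ 2 := by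
    rw [Finset.sum_filter]
    refine Finset.sum_congr rfl fun v _ => ?_
    simp only [hGb]
    split_ifs
    · rfl
    · exact zero_pow two_ne_zero
  have h6 : ∑ u, G u ^ 2 = ∑ u : T with P (QuotientGroup.mk u), F u ^ 2 := by
    rw [Finset.sum_filter]
    refine Finset.sum_congr rfl fun v _ => ?_
    simp only [hG]
    split_ifs
    · rfl
    · exact zero_pow two_ne_zero
  rwa [h5, h6] at h4

end quot

/-- representatives of the classes modulo `p` up to sign -/
theorem sign_rep {p : ℕ} (hp : p.Prime) (hp2 : p ≠ 2) {a : ℤ} (ha : ¬ (p : ℤ) ∣ a) :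
    ∃ s b : ℤ, s * s = 1 ∧ 1 ≤ b ∧ 2 * b < p ∧ (p : ℤ) ∣ s * a - b := by
  have hp0 : (0 : ℤ) < p := by exact_mod_cast hp.pos
  have h0 : 0 ≤ a % p := Int.emod_nonneg a hp0.ne'
  have h1 : a % p < p := Int.emod_lt_of_pos a hp0
  have h2 : a % p ≠ 0 := fun h => ha (Int.dvd_of_emod_eq_zero h)
  have h3 : (p : ℤ) ∣ a - a % p := Int.dvd_self_sub_emod
  obtain ⟨n, hn⟩ : ∃ n, p = 2 * n + 1 := (hp.odd_of_ne_two hp2)
  rcases lt_or_ge (2 * (a % p)) p with h | h
  · exact ⟨1, a % p, by norm_num, by omega, h, by rwa [one_mul]⟩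
  · refine ⟨-1, p - a % p, by norm_num, by omega, ?_, ?_⟩
    · have : (p : ℤ) = 2 * n + 1 := by exact_mod_cast hn
      omega
    · have h4 : -1 * a - (p - a % p) = -(a - a % p) - p := by ring
      rw [h4]
      exact dvd_sub (h3.neg_right) (dvd_refl _)

end PFAux

section
variable {T : Type*} [CommGroup T] [Fintype T] {K : Type*} [Field K] [CharZero K]
  [HasEnoughRootsOfUnity K (Monoid.exponent T)]
variable {p : ℕ} {E : Subgroup (MulAut T)} [Fintype E] {U : T → Prop} [DecidablePred U]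
  {I : Type*} [Fintype I] {g : I → T → K}

theorem rational_rows2_ne (hp : p.Prime) (hp2 : p ≠ 2) (hT : IsPGroup p T) (hU : Places E U)
    (hg : ∀ i, g i ∈ vir T K)
    (hinv : ∀ i, ∀ φ ∈ E, ∀ u, U u → g i (φ u) = g i u)
    (horth : ∀ u v, U u → U v → (∃ φ ∈ E, v = φ u) →
      ∑ i, g i u * g i v⁻¹ = (Fintype.card T : K))
    (horth0 : ∀ u v, U u → U v → (¬ ∃ φ ∈ E, v = φ u) → ∑ i, g i u * g i v⁻¹ = 0)
    {R : Finset I} (hint : ∀ j ∈ R, ∀ u, U u → ∃ z : ℤ, g j u = (z : K))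
    (hgal : ∀ j ∈ R, ∀ u v, U u → Subgroup.zpowers v = Subgroup.zpowers u → g j v = g j u)
    (hne : ∀ j ∈ R, ∀ u, U u → g j u ≠ 0)
    (HH : Finset (Subgroup T)) (hHne : HH.Nonempty) (hH : ∀ H ∈ HH, H ≠ ⊤)
    (hUH : ∀ u, (∀ H ∈ HH, u ∉ H) → U u)
    (h : p * Nat.card E < (p - 1) * (p - HH.card)) :
    R.card < p - 1 := by
  classical
  have hpf := Fact.mk hp
  have he1 : 1 ≤ Nat.card E := Nat.card_pos
  have hp3 : 3 ≤ p := by
    have := hp.two_le
    omega
  have hq1 : HH.card < p - 1 := by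
    by_contra hcon
    push Not at hcon
    have h1 : p - HH.card ≤ 1 := by omega
    have h2 : (p - 1) * (p - HH.card) ≤ (p - 1) * 1 := Nat.mul_le_mul_left _ h1
    have h3 : p * 1 ≤ p * Nat.card E := Nat.mul_le_mul_left _ he1
    omega
  obtain ⟨H0, hH0⟩ := hHne
  obtain ⟨N, hN⟩ : ∃ N : Subgroup T, N = (powMonoidHom p : T →* T).range := ⟨_, rfl⟩
  have hNmem : ∀ x : T, x ∈ N ↔ ∃ y : T, x = y ^ p := by
    intro x
    rw [hN, MonoidHom.mem_range]
    simp only [powMonoidHom_apply]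
    exact ⟨fun ⟨y, hy⟩ => ⟨y, hy.symm⟩, fun ⟨y, hy⟩ => ⟨y, hy.symm⟩⟩
  have hN0 : (0 : ℤ) < Nat.card N := by exact_mod_cast Nat.card_pos
  let _ : Fintype (T ⧸ N) := Fintype.ofFinite _
  obtain ⟨HH', hHH'⟩ : ∃ HH' : Finset (Subgroup T), HH' = HH.image (· ⊔ N) := ⟨_, rfl⟩
  have hHH'N : ∀ H ∈ HH', N ≤ H := by
    intro H hH'
    rw [hHH'] at hH'
    obtain ⟨H1, _, rfl⟩ := Finset.mem_image.1 hH'
    exact le_sup_right
  have hHH'c : HH'.card ≤ HH.card := by
    rw [hHH']
    exact Finset.card_image_le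
  obtain ⟨HV, hHV⟩ : ∃ HV : Finset (Subgroup (T ⧸ N)),
    HV = HH'.image (fun H => H.map (QuotientGroup.mk' N)) := ⟨_, rfl⟩
  have hHVc : HV.card ≤ HH.card := by
    rw [hHV]
    exact Finset.card_image_le.trans hHH'c
  have hsat : ∀ H : Subgroup T, N ≤ H → ∀ u : T,
      (QuotientGroup.mk u : T ⧸ N) ∈ H.map (QuotientGroup.mk' N) → u ∈ H := by
    intro H1 hH1 u hu
    obtain ⟨w, hw, hwu⟩ := Subgroup.mem_map.1 hu
    have h2 : w⁻¹ * u ∈ N := QuotientGroup.eq.1 hwu
    have h3 : u = w * (w⁻¹ * u) := (mul_inv_cancel_left w u).symm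
    rw [h3]
    exact H1.mul_mem hw (hH1 h2)
  obtain ⟨P, hP⟩ : ∃ P : T ⧸ N → Prop, P = fun v => ∀ H ∈ HV, v ∉ H := ⟨_, rfl⟩
  have hPdef : ∀ v, P v ↔ ∀ H ∈ HV, v ∉ H := fun v => by rw [hP]
  have hgood : ∀ u : T, P (QuotientGroup.mk u) ↔ ∀ H ∈ HH', u ∉ H := by
    intro u
    rw [hPdef, hHV]
    constructor
    · intro h1 H hH' hu
      exact h1 _ (Finset.mem_image.2 ⟨H, hH', rfl⟩) (Subgroup.mem_map.2 ⟨u, hu, rfl⟩)
    · intro h1 H hHV1 hu
      obtain ⟨H1, hH1, rfl⟩ := Finset.mem_image.1 hHV1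
      exact h1 H1 hH1 (hsat H1 (hHH'N H1 hH1) u hu)
  have hgoodU : ∀ u : T, P (QuotientGroup.mk u) → U u := by
    intro u hu
    apply hUH
    intro H hH' huH
    refine (hgood u).1 hu (H ⊔ N) ?_ ((le_sup_left : H ≤ H ⊔ N) huH)
    rw [hHH']
    exact Finset.mem_image.2 ⟨H, hH', rfl⟩
  have hHVtop : ∀ H ∈ HV, H ≠ ⊤ := by
    intro H hHV1 h1
    rw [hHV, hHH'] at hHV1
    obtain ⟨H1, hH1, rfl⟩ := Finset.mem_image.1 hHV1
    obtain ⟨H2, hH2, rfl⟩ := Finset.mem_image.1 hH1
    apply PFAux.sup_pow_ne_top hT (hH H2 hH2)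
    rw [← hN, Subgroup.eq_top_iff']
    intro u
    refine hsat (H2 ⊔ N) le_sup_right u ?_
    rw [h1]
    exact Subgroup.mem_top _
  have hV : ∀ v : T ⧸ N, v ^ p = 1 := by
    intro v
    obtain ⟨w, rfl⟩ := QuotientGroup.mk_surjective v
    rw [← QuotientGroup.mk_pow]
    exact (QuotientGroup.eq_one_iff _).2 ((hNmem _).2 ⟨w, rfl⟩)
  have hHVne : ∃ H, H ∈ HV := by
    rw [hHV, hHH']
    exact ⟨_, Finset.mem_image.2 ⟨_, Finset.mem_image.2 ⟨H0, hH0, rfl⟩, rfl⟩⟩
  obtain ⟨n, hn⟩ : ∃ n, Nat.card (T ⧸ N) = p ^ (n + 1) := by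
    obtain ⟨m, hm⟩ := IsPGroup.iff_card.1 (hT.to_quotient N)
    rcases m with _ | m
    · exfalso
      rw [pow_zero] at hm
      have := (Nat.card_eq_one_iff_unique.1 hm).1
      obtain ⟨H, hH'⟩ := hHVne
      apply hHVtop H hH'
      rw [Subgroup.eq_top_iff']
      intro v
      rw [Subsingleton.elim v 1]
      exact H.one_mem
    · exact ⟨m, hm⟩
  have hexpV : Monoid.exponent (T ⧸ N) ∣ Monoid.exponent T := by
    apply Monoid.exponent_dvd_of_forall_pow_eq_one
    intro v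
    obtain ⟨w, rfl⟩ := QuotientGroup.mk_surjective v
    rw [← QuotientGroup.mk_pow, Monoid.pow_exponent_eq_one, QuotientGroup.mk_one]
  have hexp0 : NeZero (Monoid.exponent T) := ⟨Monoid.exponent_ne_zero_of_finite⟩
  have : HasEnoughRootsOfUnity K (Monoid.exponent (T ⧸ N)) :=
    HasEnoughRootsOfUnity.of_dvd K hexpV
  obtain ⟨ζ, hζ⟩ : ∃ ζ : K, IsPrimitiveRoot ζ p := by
    have h1 : p ∣ Monoid.exponent T := by
      refine dvd_trans ?_ hexpV
      have h2 : 1 < Nat.card (T ⧸ N) := by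
        rw [hn]
        exact Nat.one_lt_pow (Nat.succ_ne_zero n) hp.one_lt
      have := (Finite.one_lt_card_iff_nontrivial).1 h2
      obtain ⟨v, hv⟩ := exists_ne (1 : T ⧸ N)
      rw [← orderOf_eq_prime (hV v) hv]
      exact Monoid.order_dvd_exponent v
    obtain ⟨c, hc⟩ := h1
    obtain ⟨z, hz⟩ := HasEnoughRootsOfUnity.exists_primitiveRoot K (Monoid.exponent T)
    exact ⟨z ^ c, hz.pow (Nat.pos_of_ne_zero hexp0.out) (by rw [hc, mul_comm])⟩
  -- the integers
  have hz : ∀ j u, ∃ z : ℤ, (j ∈ R ∧ U u → g j u = (z : K)) := by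
    intro j u
    by_cases hju : j ∈ R ∧ U u
    · obtain ⟨z, hz⟩ := hint j hju.1 u hju.2
      exact ⟨z, fun _ => hz⟩
    · exact ⟨0, fun h => absurd h hju⟩
  choose z hz using hz
  have hz' : ∀ j ∈ R, ∀ u, U u → g j u = (z j u : K) := fun j hj u hu => hz j u ⟨hj, hu⟩
  have hzg : ∀ j ∈ R, ∀ u v, U u → Subgroup.zpowers v = Subgroup.zpowers u → z j v = z j u := by
    intro j hj u v hu hv
    have h1 := hgal j hj u v hu hv
    rw [hz' j hj u hu, hz' j hj v (hU.gen u v hv hu)] at h1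
    exact_mod_cast h1
  have hzE : ∀ j ∈ R, ∀ φ ∈ E, ∀ u, U u → z j (φ u) = z j u := by
    intro j hj φ hφ u hu
    have h1 := hinv j φ hφ u hu
    rw [hz' j hj u hu, hz' j hj _ (hU.act φ hφ u hu)] at h1
    exact_mod_cast h1
  choose a ha using fun j => vir_one (hg j)
  have hcong : ∀ j ∈ R, ∀ u, U u → (p : ℤ) ∣ z j u - a j := fun j hj u hu =>
    vir_congr hp hp2 hT (hg j) (hz' j hj u hu) (ha j)
  have hbes := bessel hU hg horth horth0 hz' hzg hzE
  -- deflation
  choose gb hgb hd using fun j => defl N (hg j)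
  have hmk : ∀ u x : T, x ∈ N → (QuotientGroup.mk (u * x) : T ⧸ N) = QuotientGroup.mk u := by
    intro u x hx
    exact QuotientGroup.eq.2 (by
      rw [mul_inv_rev, inv_mul_cancel_right]
      exact N.inv_mem hx)
  have hzs : ∀ j ∈ R, ∀ u, P (QuotientGroup.mk u) → (Nat.card N : K) * gb j (QuotientGroup.mk u) =
      ((∑ x : T with x ∈ N, z j (u * x) : ℤ) : K) := by
    intro j hj u hu
    rw [hd j u, Int.cast_sum]
    refine Finset.sum_congr rfl fun x hx => ?_
    exact hz' j hj _ (hgoodU _ (by rw [hmk u x (Finset.mem_filter.1 hx).2]; exact hu))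
  have hzb : ∀ j v, ∃ zb : ℤ, (j ∈ R ∧ P v → gb j v = (zb : K)) := by
    intro j v
    by_cases hju : j ∈ R ∧ P v
    · obtain ⟨u, rfl⟩ := QuotientGroup.mk_surjective v
      obtain ⟨w, hw⟩ := gb_int (hgb j) (c := Nat.card N) Nat.card_pos.ne' (hzs j hju.1 u hju.2)
      exact ⟨w, fun _ => hw⟩
    · exact ⟨0, fun h => absurd h hju⟩
  choose zb hzb using hzb
  have hzN : ∀ j ∈ R, ∀ u, P (QuotientGroup.mk u) →
      (Nat.card N : ℤ) * zb j (QuotientGroup.mk u) = ∑ x : T with x ∈ N, z j (u * x) := by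
    intro j hj u hu
    have h1 := hzs j hj u hu
    rw [hzb j _ ⟨hj, hu⟩] at h1
    exact_mod_cast h1
  have hcT : Fintype.card T = Nat.card N * p ^ (n + 1) := by
    rw [← Nat.card_eq_fintype_card, ← hn, mul_comm]
    exact N.card_eq_card_quotient_mul_card_subgroup
  have hbV : ∀ y : I → ℤ, ∑ v with P v, (∑ j ∈ R, y j * zb j v) ^ 2
      ≤ ((p ^ (n + 1) * Nat.card E : ℕ) : ℤ) * ∑ j ∈ R, y j ^ 2 := by
    intro y
    have h1 := hbes y
    have h2 := PFAux.cauchy N P (fun u => ∑ j ∈ R, y j * z j u)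
      (fun v => ∑ j ∈ R, y j * zb j v) (by
        intro u hu
        rw [Finset.mul_sum, Finset.sum_comm]
        refine Finset.sum_congr rfl fun j hj => ?_
        rw [← Finset.mul_sum, ← hzN j hj u hu]
        ring)
    have h3 : ∑ u : T with P (QuotientGroup.mk u), (∑ j ∈ R, y j * z j u) ^ 2
        ≤ ∑ u with U u, (∑ j ∈ R, y j * z j u) ^ 2 :=
      Finset.sum_le_sum_of_subset_of_nonneg (fun u hu => by
        rw [Finset.mem_filter] at hu ⊢
        exact ⟨Finset.mem_univ _, hgoodU u hu.2⟩) (fun _ _ _ => sq_nonneg _)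
    have h5 := h2.trans (h3.trans h1)
    rw [hcT] at h5
    refine le_of_mul_le_mul_left (h5.trans (le_of_eq ?_)) hN0
    push_cast
    ring
  -- the number of good elements
  have hcg : (p - HH.card) * p ^ n ≤ (Finset.univ.filter fun v => P v).card := by
    have h1 := card_good hV hn HV hHVtop (by omega)
    have h2 : (Finset.univ.filter fun v => P v)
        = (Finset.univ.filter fun v : T ⧸ N => ∀ H ∈ HV, v ∉ H) :=
      Finset.filter_congr fun v _ => hPdef v
    rw [h2]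
    refine le_trans (Nat.mul_le_mul_right _ ?_) h1
    omega
  have hpn : 0 < p ^ n := pow_pos hp.pos n
  have hcgT : Nat.card N * (Finset.univ.filter fun v => P v).card
      = (Finset.univ.filter fun u : T => P (QuotientGroup.mk u)).card := by
    have h1 := PFAux.sum_mk_filter N P (fun _ => 1)
    rw [Finset.sum_const, Finset.sum_const, nsmul_eq_mul, nsmul_eq_mul, mul_one, mul_one] at h1
    exact_mod_cast h1.symm
  obtain ⟨u₀, hu₀⟩ : ∃ u₀ : T, P (QuotientGroup.mk u₀) := by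
    have h1 : 0 < (Finset.univ.filter fun v => P v).card := by
      refine lt_of_lt_of_le ?_ hcg
      exact Nat.mul_pos (by omega) hpn
    obtain ⟨v, hv⟩ := Finset.card_pos.1 h1
    obtain ⟨u, rfl⟩ := QuotientGroup.mk_surjective v
    exact ⟨u, (Finset.mem_filter.1 hv).2⟩
  have hs1 : ∀ j ∈ R, ∀ w : I → ℤ, ∑ i ∈ R, (if i = j then (1 : ℤ) else 0) * w i = w j := by
    intro j hj w
    rw [Finset.sum_eq_single j]
    · rw [if_pos rfl, one_mul]
    · intro i _ hi
      rw [if_neg hi, zero_mul]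
    · intro h4
      exact absurd hj h4
  have hs2 : ∀ j ∈ R, ∑ i ∈ R, (if i = j then (1 : ℤ) else 0) ^ 2 = 1 := by
    intro j hj
    rw [Finset.sum_eq_single j]
    · rw [if_pos rfl, one_pow]
    · intro i _ hi
      rw [if_neg hi, zero_pow two_ne_zero]
    · intro h4
      exact absurd hj h4
  -- the class is not 0
  have haj : ∀ j ∈ R, ¬ (p : ℤ) ∣ a j := by
    intro j hj h0
    have h1 : ∀ u, U u → (p : ℤ) ^ 2 ≤ z j u ^ 2 := by
      intro u hu
      have h2 : (p : ℤ) ∣ z j u := by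
        have := dvd_add (hcong j hj u hu) h0
        rwa [sub_add_cancel] at this
      obtain ⟨m, hm⟩ := h2
      have hm0 : m ≠ 0 := by
        rintro rfl
        rw [mul_zero] at hm
        apply hne j hj u hu
        rw [hz' j hj u hu, hm, Int.cast_zero]
      rw [hm, mul_pow]
      have h3 : (1 : ℤ) ≤ m ^ 2 := by
        have : 0 < m ^ 2 := by positivity
        omega
      nlinarith [sq_nonneg (p : ℤ)]
    have h2 := hbes (fun i => if i = j then 1 else 0)
    rw [Finset.sum_congr rfl fun u _ => by rw [hs1 j hj fun i => z i u], hs2 j hj, mul_one] at h2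
    have h3 : ∑ u : T with P (QuotientGroup.mk u), z j u ^ 2 ≤ ∑ u with U u, z j u ^ 2 :=
      Finset.sum_le_sum_of_subset_of_nonneg (fun u hu => by
        rw [Finset.mem_filter] at hu ⊢
        exact ⟨Finset.mem_univ _, hgoodU u hu.2⟩) (fun _ _ _ => sq_nonneg _)
    have h5 : ((Finset.univ.filter fun u : T => P (QuotientGroup.mk u)).card : ℤ) * (p : ℤ) ^ 2
        ≤ ∑ u : T with P (QuotientGroup.mk u), z j u ^ 2 := by
      have := Finset.card_nsmul_le_sum (Finset.univ.filter fun u : T => P (QuotientGroup.mk u))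
        (fun u => z j u ^ 2)
        ((p : ℤ) ^ 2) (fun u hu => h1 u (hgoodU u (Finset.mem_filter.1 hu).2))
      rwa [nsmul_eq_mul] at this
    have h6 := h5.trans (h3.trans h2)
    rw [← hcgT, hcT] at h6
    have h7 : Nat.card N * (Finset.univ.filter fun v => P v).card * p ^ 2
        ≤ Nat.card N * p ^ (n + 1) * Nat.card E := by exact_mod_cast h6
    have h8 : Nat.card N * ((Finset.univ.filter fun v => P v).card * p ^ 2)
        ≤ Nat.card N * (p ^ (n + 1) * Nat.card E) := by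
      rwa [← mul_assoc, ← mul_assoc]
    have h9 := Nat.le_of_mul_le_mul_left h8 Nat.card_pos
    have h10 : (p ^ n * p) * ((p - HH.card) * p) ≤ (p ^ n * p) * Nat.card E := by
      calc (p ^ n * p) * ((p - HH.card) * p) = ((p - HH.card) * p ^ n) * p ^ 2 := by ring
        _ ≤ (Finset.univ.filter fun v => P v).card * p ^ 2 := Nat.mul_le_mul_right _ hcg
        _ ≤ p ^ (n + 1) * Nat.card E := h9
        _ = _ := by rw [pow_succ]
    have h11 := Nat.le_of_mul_le_mul_left h10 (Nat.mul_pos hpn hp.pos)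
    have h12 : (p - 1) * (p - HH.card) ≤ p * Nat.card E := by
      calc (p - 1) * (p - HH.card) ≤ p * (p - HH.card) := Nat.mul_le_mul_right _ (Nat.sub_le p 1)
        _ = (p - HH.card) * p := mul_comm _ _
        _ ≤ Nat.card E := h11
        _ = 1 * Nat.card E := (one_mul _).symm
        _ ≤ p * Nat.card E := Nat.mul_le_mul_right _ hp.pos
    exact absurd h (not_lt.2 h12)
  -- the congruence of the deflation
  have hcb : ∀ j ∈ R, ∀ v, P v → (p : ℤ) ∣ zb j v - a j := by
    intro j hj v hv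
    obtain ⟨u, rfl⟩ := QuotientGroup.mk_surjective v
    have h1 := defl_congr hT hp2 N hNmem HH' hHH'N (by omega) (hg j)
      (fun u v hu huv => hgal j hj u v (hgoodU u ((hgood u).2 hu)) huv) (hgb j) (hd j)
      ((hgood u).1 hv) (hz' j hj u (hgoodU u hv)) (hzb j _ ⟨hj, hv⟩)
    have h2 := hcong j hj u (hgoodU u hv)
    have h3 := dvd_sub h2 h1
    have h4 : z j u - a j - (z j u - zb j (QuotientGroup.mk u)) = zb j (QuotientGroup.mk u) - a j := by
      ring
    rwa [h4] at h3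
  have hsb : ∀ j, ∃ s b : ℤ, j ∈ R → (s * s = 1 ∧ 1 ≤ b ∧ 2 * b < p ∧ (p : ℤ) ∣ s * a j - b) := by
    intro j
    by_cases hj : j ∈ R
    · obtain ⟨s, b, hsb⟩ := PFAux.sign_rep hp hp2 (haj j hj)
      exact ⟨s, b, fun _ => hsb⟩
    · exact ⟨1, 1, fun h => absurd h hj⟩
  choose s b hsb using hsb
  -- the deflations are constant
  have hconst : ∀ j ∈ R, ∀ v, P v → s j * zb j v = b j := by
    intro j hj
    obtain ⟨hs, hb1, hb2, hb3⟩ := hsb j hj
    have h1 : (s j) • gb j ∈ vir (T ⧸ N) K := zsmul_mem (hgb j) _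
    have h2 : ∀ v, (∀ H ∈ HV, v ∉ H) → ((s j) • gb j) v = ((s j * zb j v : ℤ) : K) := by
      intro v hv
      rw [Pi.smul_apply, zsmul_eq_mul, hzb j v ⟨hj, (hPdef v).2 hv⟩, Int.cast_mul]
    have h3 : ∀ v, (∀ H ∈ HV, v ∉ H) → (p : ℤ) ∣ s j * zb j v - b j := by
      intro v hv
      have h4 := (hcb j hj v ((hPdef v).2 hv)).mul_left (s j)
      have h5 := dvd_add h4 hb3
      have h6 : s j * (zb j v - a j) + (s j * a j - b j) = s j * zb j v - b j := by ring
      rwa [h6] at h5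
    rcases const_or_large hζ hp2 hV hn HV hHVtop (lt_of_le_of_lt hHVc hq1) h1 hb1 hb2 h2 h3
      with h4 | h4
    · exact fun v hv => h4 v ((hPdef v).1 hv)
    · exfalso
      have h5 := hbV (fun i => if i = j then 1 else 0)
      rw [Finset.sum_congr rfl fun v _ => by rw [hs1 j hj fun i => zb i v], hs2 j hj,
        mul_one] at h5
      have h6 : ∑ v : T ⧸ N with (∀ H ∈ HV, v ∉ H), (s j * zb j v) ^ 2 = ∑ v with P v, zb j v ^ 2 := by
        refine Finset.sum_congr (Finset.filter_congr fun v _ => (hPdef v).symm) fun v _ => ?_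
        rw [mul_pow, pow_two (s j), hs, one_mul]
      rw [h6] at h4
      have h7 : (p - HV.card) * (p - 1) * p ^ n ≤ p ^ (n + 1) * Nat.card E := by
        exact_mod_cast h4.trans h5
      have h8 : p ^ n * ((p - 1) * (p - HH.card)) ≤ p ^ n * (p * Nat.card E) := by
        calc p ^ n * ((p - 1) * (p - HH.card)) = (p - HH.card) * (p - 1) * p ^ n := by ring
          _ ≤ (p - HV.card) * (p - 1) * p ^ n := by
            refine Nat.mul_le_mul_right _ (Nat.mul_le_mul_right _ ?_)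
            omega
          _ ≤ _ := h7
          _ = _ := by rw [pow_succ]; ring
      exact absurd h (not_lt.2 (Nat.le_of_mul_le_mul_left h8 hpn))
  -- the final inequality
  have h1 := hbV (fun j => s j * b j)
  have h2 : ∀ v ∈ Finset.univ.filter (fun v => P v),
      (∑ j ∈ R, (s j * b j) * zb j v) ^ 2 = (∑ j ∈ R, b j ^ 2) ^ 2 := by
    intro v hv
    congr 1
    refine Finset.sum_congr rfl fun j hj => ?_
    have h3 := hconst j hj v (Finset.mem_filter.1 hv).2
    calc (s j * b j) * zb j v = b j * (s j * zb j v) := by ring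
      _ = b j ^ 2 := by rw [h3, pow_two]
  have h3 : ∑ j ∈ R, (s j * b j) ^ 2 = ∑ j ∈ R, b j ^ 2 := by
    refine Finset.sum_congr rfl fun j hj => ?_
    rw [mul_pow, pow_two (s j), (hsb j hj).1, one_mul]
  rw [Finset.sum_congr rfl h2, Finset.sum_const, nsmul_eq_mul, h3] at h1
  set A : ℤ := ∑ j ∈ R, b j ^ 2 with hA
  have hRA : (R.card : ℤ) ≤ A := by
    have := Finset.card_nsmul_le_sum R (fun j => b j ^ 2) 1 (fun j hj => by
      have := (hsb j hj).2.1
      nlinarith)
    rwa [nsmul_eq_mul, mul_one] at this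
  have hA0 : 0 ≤ A := le_trans (Int.natCast_nonneg _) hRA
  obtain ⟨A', hA'⟩ := Int.eq_ofNat_of_zero_le hA0
  rw [hA'] at h1 hRA
  have h4 : (Finset.univ.filter fun v => P v).card * A' ^ 2 ≤ p ^ (n + 1) * Nat.card E * A' := by
    exact_mod_cast h1
  have h5 : R.card ≤ A' := by exact_mod_cast hRA
  rcases Nat.eq_zero_or_pos A' with h6 | h6
  · omega
  · have h7 : p ^ n * A' * ((p - HH.card) * A') ≤ p ^ n * A' * (p * Nat.card E) := by
      calc p ^ n * A' * ((p - HH.card) * A') = ((p - HH.card) * p ^ n) * A' ^ 2 := by ring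
        _ ≤ (Finset.univ.filter fun v => P v).card * A' ^ 2 := Nat.mul_le_mul_right _ hcg
        _ ≤ p ^ (n + 1) * Nat.card E * A' := h4
        _ = _ := by rw [pow_succ]; ring
    have h8 := Nat.le_of_mul_le_mul_left h7 (Nat.mul_pos hpn h6)
    have h9 : (p - HH.card) * A' < (p - HH.card) * (p - 1) := by
      rw [mul_comm (p - HH.card) (p - 1)]
      exact lt_of_le_of_lt h8 h
    have h10 := Nat.lt_of_mul_lt_mul_left h9
    omega

theorem rational_rows2 (hp : p.Prime) (hp2 : p ≠ 2) (hT : IsPGroup p T) (hU : Places E U)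
    (hg : ∀ i, g i ∈ vir T K)
    (hinv : ∀ i, ∀ φ ∈ E, ∀ u, U u → g i (φ u) = g i u)
    (horth : ∀ u v, U u → U v → (∃ φ ∈ E, v = φ u) →
      ∑ i, g i u * g i v⁻¹ = (Fintype.card T : K))
    (horth0 : ∀ u v, U u → U v → (¬ ∃ φ ∈ E, v = φ u) → ∑ i, g i u * g i v⁻¹ = 0)
    {R : Finset I} (hint : ∀ j ∈ R, ∀ u, U u → ∃ z : ℤ, g j u = (z : K))
    (hgal : ∀ j ∈ R, ∀ u v, U u → Subgroup.zpowers v = Subgroup.zpowers u → g j v = g j u)
    (hne : ∀ j ∈ R, ∀ u, U u → g j u ≠ 0)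
    (HH : Finset (Subgroup T)) (hH : ∀ H ∈ HH, H ≠ ⊤)
    (hUH : ∀ u, (∀ H ∈ HH, u ∉ H) → U u)
    (h : p * Nat.card E < (p - 1) * (p - HH.card)) :
    R.card < p - 1 := by
  classical
  rcases HH.eq_empty_or_nonempty with h0 | h0
  swap
  · exact rational_rows2_ne hp hp2 hT hU hg hinv horth horth0 hint hgal hne HH h0 hH hUH h
  have hU1 : ∀ u, U u := fun u => hUH u (by rw [h0]; simp)
  have hE1 : ∀ φ ∈ E, φ = 1 := fun φ hφ => hU.reg φ hφ 1 (hU1 1) (map_one φ)
  have hE2 : Nat.card E = 1 := by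
    have h1 : E = ⊥ := by
      rw [eq_bot_iff]
      intro φ hφ
      exact Subgroup.mem_bot.2 (hE1 φ hφ)
    rw [Subgroup.card_eq_one]
    exact h1
  have hp3 : 3 ≤ p := by
    have := hp.two_le
    omega
  by_cases hbt : (⊥ : Subgroup T) = ⊤
  · -- the trivial group
    have hz : ∀ j u, ∃ z : ℤ, (j ∈ R → g j u = (z : K)) := by
      intro j u
      by_cases hj : j ∈ R
      · obtain ⟨z, hz⟩ := hint j hj u (hU1 u)
        exact ⟨z, fun _ => hz⟩
      · exact ⟨0, fun h => absurd h hj⟩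
    choose z hz using hz
    have hsub : ∀ u v : T, u = v := by
      intro u v
      have h1 : ∀ w : T, w = 1 := fun w => by
        have h2 : w ∈ (⊤ : Subgroup T) := Subgroup.mem_top w
        rw [← hbt] at h2
        exact Subgroup.mem_bot.1 h2
      rw [h1 u, h1 v]
    have hb := bessel hU hg horth horth0 (R := R) (z := z) (fun j hj u _ => hz j u hj)
      (fun j hj u v _ _ => by rw [hsub v u]) (fun j hj φ hφ u _ => by rw [hsub (φ u) u])
      (fun j => z j 1)
    have hT1 : Fintype.card T = 1 := by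
      rw [Fintype.card_eq_one_iff]
      exact ⟨1, fun v => hsub v 1⟩
    have hfil : (Finset.univ.filter fun u : T => U u) = {1} := by
      ext u
      simp only [Finset.mem_filter, Finset.mem_univ, true_and, Finset.mem_singleton]
      exact ⟨fun _ => hsub u 1, fun _ => hU1 u⟩
    rw [hT1, hE2, hfil, Finset.sum_singleton] at hb
    have h1 : ∑ j ∈ R, z j 1 * z j 1 = ∑ j ∈ R, z j 1 ^ 2 :=
      Finset.sum_congr rfl fun j _ => by ring
    rw [h1] at hb
    have h2 : ((R.card : ℕ) : ℤ) ≤ ∑ j ∈ R, z j 1 ^ 2 := by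
      rw [Finset.card_eq_sum_ones]
      push_cast
      refine Finset.sum_le_sum fun j hj => ?_
      have h3 : z j 1 ≠ 0 := by
        intro h4
        apply hne j hj 1 (hU1 1)
        rw [hz j 1 hj, h4, Int.cast_zero]
      have h5 : 0 < z j 1 ^ 2 := by positivity
      exact h5
    set S := ∑ j ∈ R, z j 1 ^ 2 with hS
    have h6 : S ≤ 1 := by
      push_cast at hb
      nlinarith
    have h7 : R.card ≤ 1 := by exact_mod_cast h2.trans h6
    omega
  · refine rational_rows2_ne hp hp2 hT hU hg hinv horth horth0 hint hgal hne {⊥}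
      (Finset.singleton_nonempty _) ?_ (fun u _ => hU1 u) ?_
    · intro H hH'
      rw [Finset.mem_singleton.1 hH']
      exact hbt
    · rw [hE2, Finset.card_singleton]
      obtain ⟨m, rfl⟩ : ∃ m, p = m + 3 := ⟨p - 3, by omega⟩
      have : m + 3 - 1 = m + 2 := by omega
      rw [this]
      nlinarith

end

open Classical in
theorem cover_fix {T : Type*} [CommGroup T] [Fintype T] (E : Subgroup (MulAut T)) [Finite E] :
    ∃ HH : Finset (Subgroup T), (∀ H ∈ HH, H ≠ ⊤) ∧ HH.card ≤ Nat.card E - 1 ∧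
      ∀ u, (∀ H ∈ HH, u ∉ H) → st E u = 1 := by
  have := Fintype.ofFinite E
  refine ⟨((Finset.univ : Finset E).erase 1).image fun φ : E =>
    ((φ : MulAut T) : T ≃* T).toMonoidHom.eqLocus (MonoidHom.id T), ?_, ?_, ?_⟩
  · intro H hH
    obtain ⟨φ, hφ, rfl⟩ := Finset.mem_image.1 hH
    intro h
    apply (Finset.mem_erase.1 hφ).1
    apply Subtype.ext
    ext u
    have h1 : u ∈ ((φ : MulAut T) : T ≃* T).toMonoidHom.eqLocus (MonoidHom.id T) := by
      rw [h]
      exact Subgroup.mem_top u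
    exact h1
  · refine Finset.card_image_le.trans ?_
    rw [Finset.card_erase_of_mem (Finset.mem_univ _), Finset.card_univ, Nat.card_eq_fintype_card]
  · intro u hu
    rw [st, Nat.card_eq_one_iff_unique]
    have h3 : ∀ φ : E, (φ : MulAut T) u = u → φ = 1 := by
      intro φ hφ
      by_contra hne
      exact hu _ (Finset.mem_image.2 ⟨φ, Finset.mem_erase.2 ⟨hne, Finset.mem_univ _⟩, rfl⟩) hφ
    exact ⟨⟨fun a b => Subtype.ext ((h3 a.1 a.2).trans (h3 b.1 b.2).symm)⟩,
      ⟨⟨1, rfl⟩⟩⟩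

theorem num_half {p e q : ℕ} (he : 2 ≤ e) (hq : q ≤ e - 1) (h : 2 * e < p) :
    p * e < (p - 1) * (p - q) := by
  obtain ⟨r, hr⟩ : ∃ r, p = 2 * e + 1 + r := ⟨p - (2 * e + 1), by omega⟩
  have h1 : p - e + 1 ≤ p - q := by omega
  have h2 : p - 1 = 2 * e + r := by omega
  have h3 : p - e + 1 = e + 2 + r := by omega
  calc p * e < (p - 1) * (p - e + 1) := by
        rw [h2, h3, hr]
        nlinarith [Nat.zero_le (e * r), Nat.zero_le (r * r)]
    _ ≤ _ := Nat.mul_le_mul_left _ h1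

end Pool.Agent.Lib.P0c8ca5.Ex
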