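import Mathlib
import Pool.Agent.Lib.P0c8ca5Ex.GG
import Pool.Agent.Lib.P0c8ca5Ex.GH
import Pool.Agent.Lib.P0c8ca5Ex.GI
import Pool.Agent.Lib.P0c8ca5Ex.GK
import Pool.Agent.Lib.P0c8ca5Ex.GL
import Pool.Agent.Lib.P0c8ca5Ex.GP
import Pool.Agent.Lib.P0c8ca5Ex.GQ
import Pool.Agent.Lib.P0c8ca5Ex.PF
import Pool.Agent.Lib.P0c8ca5Ex.LB

/-!
# GJ: blocks with an abelian defect group and a small inertial index: `l(B) < p`

`rrb_reg`, `rrb_third`: the bound for the number of rational rows at the regular places;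
`l_lt_of`: the bound for the rational rows gives `l(B) < p`.
-/

set_option linter.unusedSectionVars false

namespace Pool.Agent.Lib.P0c8ca5.Ex

open MonoidAlgebra

section
variable {T : Type*} [CommGroup T] [Fintype T] {K : Type*} [Field K] [CharZero K]
  [HasEnoughRootsOfUnity K (Monoid.exponent T)]

open Classical in
/-- the bound for the rational rows from Bessel's inequality -/
theorem rrb_of {p : ℕ} {E : Subgroup (MulAut T)} {U : T → Prop} (hp : p.Prime) (hp2 : p ≠ 2)
    (hT : IsPGroup p T) (hU : Places E U)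
    (h : 2 * (Nat.card T * Nat.card E) < (p - 1) * (Finset.univ.filter fun u => U u).card) :
    RRB K p E U := by
  have := Fintype.ofFinite E
  intro I _ g hg hinv horth horth0 R hint hgal hne
  have h1 := rational_rows hp hp2 hT hU hg hinv horth horth0 hint hgal hne h
  omega

open Classical in
theorem rrb_reg {p : ℕ} {E : Subgroup (MulAut T)} (hp : p.Prime) (hp2 : p ≠ 2)
    (hT : IsPGroup p T)
    (h : 2 * (Nat.card T * Nat.card E)
      < (p - 1) * (Finset.univ.filter fun u : T => st E u = 1).card) :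
    RRB K p E (fun u => st E u = 1) :=
  rrb_of hp hp2 hT places_reg (by convert h)

theorem rrb_third {p : ℕ} {E : Subgroup (MulAut T)} (hp : p.Prime) (hp2 : p ≠ 2)
    (hT : IsPGroup p T) (h : 3 * Nat.card E < p) :
    RRB K p E (fun u => st E u = 1) := by
  classical
  exact rrb_reg hp hp2 hT (reg_arith hp hT h)

open Classical in
/-- the sharp bound for the rational rows -/
theorem rrb_cover {p : ℕ} {E : Subgroup (MulAut T)} (hp : p.Prime) (hp2 : p ≠ 2)
    (hT : IsPGroup p T) (HH : Finset (Subgroup T)) (hH : ∀ H ∈ HH, H ≠ ⊤)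
    (hc : ∀ φ ∈ E, φ ≠ 1 → ∀ u, φ u = u → ∃ H ∈ HH, u ∈ H)
    (h : p * Nat.card E < (p - 1) * (p - HH.card)) :
    RRB K p E (fun u => st E u = 1) := by
  have := Fintype.ofFinite E
  intro I _ g hg hinv horth horth0 R hint hgal hne
  have h1 := rational_rows2 hp hp2 hT places_reg hg hinv horth horth0 hint hgal hne HH hH
    (fun u hu => by
      rw [st, Nat.card_eq_one_iff_unique]
      have key : ∀ φ : E, (φ : MulAut T) u = u → φ = 1 := by
        intro φ hφ
        by_contra hne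
        obtain ⟨H, hH1, hH2⟩ := hc φ φ.2 (fun h0 => hne (Subtype.ext h0)) u hφ
        exact hu H hH1 hH2
      exact ⟨⟨fun x y => Subtype.ext ((key x.1 x.2).trans (key y.1 y.2).symm)⟩, ⟨⟨1, rfl⟩⟩⟩) h
  omega

theorem rrb_half {p : ℕ} {E : Subgroup (MulAut T)} (hp : p.Prime) (hp2 : p ≠ 2)
    (hT : IsPGroup p T) (hE : 2 ≤ Nat.card E) (h : 2 * Nat.card E < p) :
    RRB K p E (fun u => st E u = 1) := by
  obtain ⟨HH, h1, h2, h3⟩ := cover_all E
  exact rrb_cover hp hp2 hT HH h2 h3 (num_half hE (by omega) h)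

theorem rrb_comm {p : ℕ} {E : Subgroup (MulAut T)} (hp : p.Prime) (hp2 : p ≠ 2)
    (hT : IsPGroup p T) (hcom : ∀ φ ∈ E, ∀ ψ ∈ E, φ * ψ = ψ * φ) (hE : 2 ≤ Nat.card E)
    (h : Nat.card E + (Nat.primeFactorsList (Nat.card E)).length < p) :
    RRB K p E (fun u => st E u = 1) := by
  have hpE : ¬ p ∣ Nat.card E := fun h1 => by
    have := Nat.le_of_dvd (by omega) h1
    omega
  obtain ⟨HH, h1, h2, h3⟩ := cover_comm hp hT E hpE hcom
  refine rrb_cover hp hp2 hT HH h2 h3 ?_
  rw [ArithmeticFunction.cardFactors_apply] at h1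
  have hpos : 0 < (Nat.primeFactorsList (Nat.card E)).length := by
    rw [List.length_pos_iff_ne_nil]
    intro h0
    rcases (Nat.primeFactorsList_eq_nil _).1 h0 with h4 | h4 <;> omega
  obtain ⟨r, hr⟩ : ∃ r, p = Nat.card E + HH.card + 1 + r :=
    ⟨p - (Nat.card E + HH.card + 1), by omega⟩
  set e := Nat.card E
  set q := HH.card
  have h5 : 0 < q + r := by omega
  have e1 : p - 1 = e + q + r := by omega
  have e2 : p - q = e + 1 + r := by omega
  rw [e1, e2, hr]
  nlinarith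

end

section
variable {p : ℕ} [Fact p.Prime] {k : Type*} [Field k] [IsAlgClosed k] [CharP k p]
  {A : Type*} [Group A] [Fintype A] {b f i : MonoidAlgebra k A} {D : Subgroup A}

/-- the number of irreducible representations from the bound for the rational rows -/
theorem l_lt_of (hp2 : p ≠ 2) (h : Src p b D f i) (hE : eN D f < p - 1) {T : Type*} [CommGroup T]
    [Fintype T] {φ : T →* A} (hφ : Function.Injective φ) (hr : ∀ x, x ∈ D ↔ ∃ t, φ t = x)
    (hR : RRB (KW p k) p (EG φ D f) (fun u => st (EG φ D f) u = 1)) :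
    Nat.card (Quotient (irrInvSetoid (⊤ : Subgroup A) ⊤ b)) < p := by
  classical
  have hp : p.Prime := Fact.out
  have hb := h.root.blk
  obtain ⟨B, hB⟩ := exists_cenL (p := p) hb.idem
    (fun g => invBy_iff_cj.1 hb.invBy g (Subgroup.mem_top g))
  have hcard : Nat.card (EG φ D f) = eN D f := card_EG hφ hr
  have hE0 : 0 < eN D f := hcard ▸ Nat.card_pos
  have hpE : ¬ p ∣ eN D f := fun h1 => by
    have := Nat.le_of_dvd hE0 h1
    omega
  obtain ⟨I, f', n, a, hI, hIc, hd, hne⟩ := exists_rowU hp2 h hpE hB hφ hr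
  obtain ⟨t, ht1, ht2, ht3⟩ := exists_gen hp hp2 (Nat.card A)
  obtain ⟨s, hs⟩ := exists_galB (p := p) (k := k) B ht1
  have h1 := fix_ge hb hB s ht1 hs
    (fun v g M c hv hv1 hc hbc hg => no_gal h hE ht3 hv hv1 hc hbc hg)
  refine lt_of_le_of_lt h1 ?_
  have := Fintype.ofFinite (EG φ D f)
  obtain ⟨M, hM⟩ := pow_one_of h
  have hTm : ∀ u : T, u ^ p ^ Nat.card A = 1 := by
    intro u
    apply hφ
    rw [map_pow, map_one]
    exact pel_card (hM (φ u) ((hr _).2 ⟨u, rfl⟩))
  have hTp : IsPGroup p T := fun u => ⟨Nat.card A, hTm u⟩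
  exact fix_lt hp hp2 hTp places_reg (by rw [hcard]; exact hpE) hd hR hTm ht1 ht2 s
    (fun χ hχ u => by
      have h2 := hs χ (φ u) M (hM _ ((hr _).2 ⟨u, rfl⟩)) I hI (hIc u)
      rw [hχ] at h2
      change chO χ.1 (single (φ (u ^ t)) 1 * I) = chO χ.1 (single (φ u) 1 * I)
      rw [map_pow, h2])
    (fun χ u _ => hne χ u)

/-- a trivial inertial quotient acts freely -/
theorem free_of_one (h1 : eN D f = 1) : Free D f := by
  intro g hg u _ _ _
  have h2 : St D f ≤ CD D := Subgroup.relIndex_eq_one.1 h1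
  exact h2 hg

/-- **the number of irreducible representations, `2 |E| < p`** -/
theorem l_lt_half (hp : p ≠ 2) (h : Root p b D f) (hE : 2 * eN D f < p) :
    Nat.card (Quotient (irrInvSetoid (⊤ : Subgroup A) ⊤ b)) < p := by
  by_cases h1 : eN D f = 1
  · have h2 := l_le hp h (free_of_one h1)
    omega
  obtain ⟨i, hi⟩ := exists_src h
  let _ : CommGroup ↥D := cgrp D h.com
  have := Fintype.ofFinite ↥D
  have hφ : Function.Injective D.subtype := Subtype.val_injective
  have hr : ∀ x, x ∈ D ↔ ∃ t, D.subtype t = x := fun x =>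
    ⟨fun hx => ⟨⟨x, hx⟩, rfl⟩, fun ⟨t, ht⟩ => ht ▸ t.2⟩
  have hcard : Nat.card (EG D.subtype D f) = eN D f := card_EG hφ hr
  have hpos : 0 < Nat.card (EG D.subtype D f) := Nat.card_pos
  obtain ⟨M, hM⟩ := pow_one_of hi
  have hT : IsPGroup p ↥D := fun u => ⟨M, Subtype.ext (hM u u.2)⟩
  refine l_lt_of hp hi (by omega) (T := ↥D) (φ := D.subtype) hφ hr ?_
  exact rrb_half Fact.out hp hT (by omega) (by omega)

/-- **the number of irreducible representations, abelian inertial quotient** -/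
theorem l_lt_comm (hp : p ≠ 2) (h : Root p b D f)
    (hc : ∀ x ∈ St D f, ∀ y ∈ St D f, x * y * (y * x)⁻¹ ∈ CD D)
    (hE : eN D f + (Nat.primeFactorsList (eN D f)).length < p) :
    Nat.card (Quotient (irrInvSetoid (⊤ : Subgroup A) ⊤ b)) < p := by
  by_cases h1 : eN D f = 1
  · have h2 := l_le hp h (free_of_one h1)
    omega
  obtain ⟨i, hi⟩ := exists_src h
  let _ : CommGroup ↥D := cgrp D h.com
  have := Fintype.ofFinite ↥D
  have hφ : Function.Injective D.subtype := Subtype.val_injective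
  have hr : ∀ x, x ∈ D ↔ ∃ t, D.subtype t = x := fun x =>
    ⟨fun hx => ⟨⟨x, hx⟩, rfl⟩, fun ⟨t, ht⟩ => ht ▸ t.2⟩
  have hcard : Nat.card (EG D.subtype D f) = eN D f := card_EG hφ hr
  have hpos : 0 < Nat.card (EG D.subtype D f) := Nat.card_pos
  obtain ⟨M, hM⟩ := pow_one_of hi
  have hT : IsPGroup p ↥D := fun u => ⟨M, Subtype.ext (hM u u.2)⟩
  have hcom : ∀ φ ∈ EG D.subtype D f, ∀ ψ ∈ EG D.subtype D f, φ * ψ = ψ * φ := by
    rintro φ ⟨x, hx, hx'⟩ ψ ⟨y, hy, hy'⟩
    ext t
    rw [MulAut.mul_apply, MulAut.mul_apply]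
    have e1 := hx' (ψ t)
    have e2 := hy' (φ t)
    rw [hy'] at e1
    rw [hx'] at e2
    change ((φ (ψ t) : ↥D) : A) = x * (y * (t : A) * y⁻¹) * x⁻¹ at e1
    change ((ψ (φ t) : ↥D) : A) = y * (x * (t : A) * x⁻¹) * y⁻¹ at e2
    rw [e1, e2]
    have e3 := Subgroup.mem_centralizer_iff.1 (hc x hx y hy)
      (y * x * (t : A) * (y * x)⁻¹) (by
        have e4 := (Subgroup.mem_normalizer_iff.1 hx.1 (t : A)).1 t.2
        have e5 := (Subgroup.mem_normalizer_iff.1 hy.1 _).1 e4
        have e6 : y * x * (t : A) * (y * x)⁻¹ = y * (x * (t : A) * x⁻¹) * y⁻¹ := by group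
        rw [e6]
        exact e5)
    have e7 : x * (y * (t : A) * y⁻¹) * x⁻¹
        = x * y * (y * x)⁻¹ * (y * x * (t : A) * (y * x)⁻¹) * (x * y * (y * x)⁻¹)⁻¹ := by group
    rw [e7, ← e3]
    group
  have hpos2 : 0 < (Nat.primeFactorsList (eN D f)).length := by
    rw [List.length_pos_iff_ne_nil]
    intro h0
    rcases (Nat.primeFactorsList_eq_nil _).1 h0 with h4 | h4 <;> omega
  refine l_lt_of hp hi (by omega) (T := ↥D) (φ := D.subtype) hφ hr ?_
  exact rrb_comm Fact.out hp hT hcom (by omega) (by rw [hcard]; exact hE)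

end

end Pool.Agent.Lib.P0c8ca5.Ex
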