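import Mathlib
import Pool.Agent.Lib.P0c8ca5Ex.GJ

/-!
# Cov: the number of irreducible representations from a covering

The elements `u ≠ 1` of `D` with nontrivial stabilizer lie in `q` proper subgroups of `D` and
`|E| + q < p`: then `l(B) < p`.
-/

set_option linter.unusedSectionVars false

namespace Pool.Agent.Lib.P0c8ca5.Ex

open MonoidAlgebra

theorem cov_arith {p e q : ℕ} (hq : 0 < q) (h : e + q < p) : p * e < (p - 1) * (p - q) := by
  obtain ⟨r, hr⟩ : ∃ r, p = e + q + 1 + r := ⟨p - (e + q + 1), by omega⟩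
  have h5 : 0 < q + r := by omega
  have e1 : p - 1 = e + q + r := by omega
  have e2 : p - q = e + 1 + r := by omega
  rw [e1, e2, hr]
  nlinarith

section
variable {p : ℕ} [Fact p.Prime] {k : Type*} [Field k] [IsAlgClosed k] [CharP k p]
  {A : Type*} [Group A] [Fintype A] {b f i : MonoidAlgebra k A} {D : Subgroup A}

/-- **the number of irreducible representations, coverings** -/
theorem l_lt_cover (hp : p ≠ 2) (h : Root p b D f) (V : Finset (Subgroup A))
    (hV : ∀ W ∈ V, W < D)
    (hc : ∀ g ∈ St D f, g ∉ CD D → ∀ u ∈ D, u ≠ 1 → g * u = u * g → ∃ W ∈ V, u ∈ W)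
    (hE : eN D f + V.card < p) :
    Nat.card (Quotient (irrInvSetoid (⊤ : Subgroup A) ⊤ b)) < p := by
  classical
  rcases V.eq_empty_or_nonempty with rfl | hne
  · have hF : Free D f := by
      intro g hg u hu hu1 hgu
      by_contra h1
      obtain ⟨W, hW, -⟩ := hc g hg h1 u hu hu1 hgu
      exact absurd hW (Finset.notMem_empty W)
    have h2 := l_le hp h hF
    omega
  obtain ⟨i, hi⟩ := exists_src h
  let _ : CommGroup ↥D := cgrp D h.com
  have := Fintype.ofFinite ↥D
  have hφ : Function.Injective D.subtype := Subtype.val_injective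
  have hr : ∀ x, x ∈ D ↔ ∃ t, D.subtype t = x := fun x =>
    ⟨fun hx => ⟨⟨x, hx⟩, rfl⟩, fun ⟨t, ht⟩ => ht ▸ t.2⟩
  have hcard : Nat.card (EG D.subtype D f) = eN D f := card_EG hφ hr
  obtain ⟨M, hM⟩ := pow_one_of hi
  have hT : IsPGroup p ↥D := fun u => ⟨M, Subtype.ext (hM u u.2)⟩
  have hpos := hne.card_pos
  refine l_lt_of hp hi (by omega) (T := ↥D) (φ := D.subtype) hφ hr ?_
  let HH : Finset (Subgroup ↥D) := V.image fun W => W.subgroupOf D
  have hHH : HH.card ≤ V.card := Finset.card_image_le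
  have hHHpos : 0 < HH.card := (hne.image _).card_pos
  refine rrb_cover Fact.out hp hT HH ?_ ?_ (cov_arith hHHpos (by rw [hcard]; omega))
  · intro H hH
    obtain ⟨W, hW, rfl⟩ := Finset.mem_image.1 hH
    intro h0
    rw [Subgroup.subgroupOf_eq_top] at h0
    exact absurd (hV W hW) (not_lt_of_ge h0)
  · rintro ψ ⟨g, hg, hψ⟩ hne1 u hu
    by_cases hu1 : u = 1
    · obtain ⟨W, hW⟩ := hne
      exact ⟨W.subgroupOf D, Finset.mem_image_of_mem _ hW, by rw [hu1]; exact one_mem _⟩
    · have h3 := hψ u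
      rw [hu] at h3
      have h4 : g * (u : A) = u * g := by
        change (u : A) = g * (u : A) * g⁻¹ at h3
        rw [eq_mul_inv_iff_mul_eq] at h3
        exact h3.symm
      have h5 : g ∉ CD D := by
        intro h6
        apply hne1
        ext t
        have h7 := hψ t
        change ((ψ t : ↥D) : A) = g * (t : A) * g⁻¹ at h7
        rw [h7, MulAut.one_apply, mul_inv_eq_iff_eq_mul]
        exact (Subgroup.mem_centralizer_iff.1 h6 _ t.2).symm
      obtain ⟨W, hW, huW⟩ := hc g hg h5 u u.2 (fun h8 => hu1 (Subtype.ext h8)) h4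
      exact ⟨W.subgroupOf D, Finset.mem_image_of_mem _ hW, Subgroup.mem_subgroupOf.2 huW⟩

end

end Pool.Agent.Lib.P0c8ca5.Ex
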