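import Mathlib

/-!
# FIa: the mean of `chi (g ^ k)`, `k` a power of `p`, is an integer

`ρ : H →* Matrix ι ι K`, `k = p ^ N`, `N ≥ 1`. On the functions `ZMod k → ι` (the basis of the `k`-th tensor power) let
`tn A a b = ∏ t, A (a t) (b t)` and `sh i` the shift, `sh i a b = 1` iff `a = b (· - i)`. They commute, and
`trace (tn A * sh i) = trace (A ^ k)` for a unit `i` (`tr_sh`). Let `P` be the mean of the `tn (ρ g)` and
`ee χ = (1 / k) ∑ i, χ (-i) • sh i` for a character `χ` of `ZMod k`. All are commuting idempotents, and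
`trace (P * ee 1) - trace (P * ee ω) = (1 / k) ∑ i, (1 - ω (-i)) trace (P * sh i)`, where `ω i = ζ ^ i`, `ζ` a primitive `p`-th root
of unity: the weight `1 - ω (-i)` is zero if `i` is not a unit, so this is the mean of `chi (g ^ k)`.
-/

set_option autoImplicit false
set_option linter.unusedSectionVars false

namespace Pool.Agent.Lib.P0c8ca5.Ex

namespace FIAux

open Finset

variable {ι : Type*} [Fintype ι] [DecidableEq ι] {K : Type*} [Field K]

/-- sums over paths -/
theorem path_sum (A : Matrix ι ι K) (m : ℕ) (w : ι → ι → K) :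
    ∑ a : Fin (m + 1) → ι, (∏ s : Fin m, A (a s.castSucc) (a s.succ)) * w (a 0) (a (Fin.last m)) =
      ∑ x, ∑ y, (A ^ m) x y * w x y := by
  induction m generalizing w with
  | zero =>
    rw [← (Equiv.funUnique (Fin 1) ι).symm.sum_comp]
    refine Finset.sum_congr rfl fun x _ => ?_
    rw [Finset.sum_eq_single x]
    · simp
    · intro y _ hy
      rw [pow_zero, Matrix.one_apply_ne (Ne.symm hy), zero_mul]
    · simp
  | succ m ih =>
    rw [← (Fin.consEquiv (fun _ : Fin (m + 2) => ι)).sum_comp, Fintype.sum_prod_type]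
    have h1 : ∀ x : ι, ∑ a : Fin (m + 1) → ι,
        (∏ s : Fin (m + 1), A ((Fin.consEquiv (fun _ : Fin (m + 2) => ι)) (x, a) s.castSucc)
          ((Fin.consEquiv (fun _ : Fin (m + 2) => ι)) (x, a) s.succ)) *
          w ((Fin.consEquiv (fun _ : Fin (m + 2) => ι)) (x, a) 0)
            ((Fin.consEquiv (fun _ : Fin (m + 2) => ι)) (x, a) (Fin.last (m + 1))) =
        ∑ z, ∑ y, (A ^ m) z y * (A x z * w x y) := by
      intro x
      rw [← ih (fun z y => A x z * w x y)]
      refine Finset.sum_congr rfl fun a _ => ?_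
      have e1 : ∀ s : Fin (m + 1), (Fin.consEquiv (fun _ : Fin (m + 2) => ι)) (x, a) s.succ = a s :=
        fun s => rfl
      have e0 : (Fin.consEquiv (fun _ : Fin (m + 2) => ι)) (x, a) 0 = x := rfl
      rw [Fin.prod_univ_succ]
      have e2 : ∀ s : Fin m, (Fin.consEquiv (fun _ : Fin (m + 2) => ι)) (x, a) s.succ.castSucc =
          a s.castSucc := fun s => by
        rw [← Fin.succ_castSucc]
        rfl
      have e3 : (Fin.consEquiv (fun _ : Fin (m + 2) => ι)) (x, a) (Fin.last (m + 1)) =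
          a (Fin.last m) := rfl
      simp only [e1, e2, e3, Fin.castSucc_zero, e0]
      ring
    rw [Finset.sum_congr rfl fun x _ => h1 x]
    refine Finset.sum_congr rfl fun x _ => ?_
    rw [Finset.sum_comm]
    refine Finset.sum_congr rfl fun y _ => ?_
    rw [pow_succ', Matrix.mul_apply, Finset.sum_mul]
    exact Finset.sum_congr rfl fun z _ => by ring

/-- the trace of a power as a sum over closed paths -/
theorem trace_pow_sum (A : Matrix ι ι K) (m : ℕ) :
    Matrix.trace (A ^ (m + 1)) =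
      ∑ a : Fin (m + 1) → ι, ∏ s : Fin (m + 1), A (a s) (a (s + 1)) := by
  have h := path_sum A m (fun x y => A y x)
  have h1 : Matrix.trace (A ^ (m + 1)) = ∑ x, ∑ y, (A ^ m) x y * A y x := by
    rw [pow_succ, Matrix.trace]
    refine Finset.sum_congr rfl fun x _ => ?_
    rw [Matrix.diag_apply, Matrix.mul_apply]
  rw [h1, ← h]
  refine Finset.sum_congr rfl fun a _ => ?_
  rw [Fin.prod_univ_castSucc]
  congr 1
  · refine Finset.prod_congr rfl fun s _ => ?_
    rw [Fin.coeSucc_eq_succ]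
  · rw [Fin.last_add_one]

variable {k : ℕ} [NeZero k]

/-- the same with `ZMod k` -/
theorem trace_pow_zmod (A : Matrix ι ι K) :
    Matrix.trace (A ^ k) = ∑ a : ZMod k → ι, ∏ s : ZMod k, A (a s) (a (s + 1)) := by
  obtain ⟨m, rfl⟩ : ∃ m, k = m + 1 := ⟨k - 1, (Nat.succ_pred_eq_of_ne_zero (NeZero.ne k)).symm⟩
  exact trace_pow_sum A m

/-- the tensor power -/
def tn (k : ℕ) [NeZero k] (A : Matrix ι ι K) : Matrix (ZMod k → ι) (ZMod k → ι) K :=
  Matrix.of fun a b => ∏ t, A (a t) (b t)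

/-- the shift -/
def sh (ι : Type*) [DecidableEq ι] (K : Type*) [Field K] {k : ℕ} [NeZero k] (i : ZMod k) :
    Matrix (ZMod k → ι) (ZMod k → ι) K :=
  Matrix.of fun a b => if a = (fun t => b (t - i)) then 1 else 0

theorem tn_mul (A B : Matrix ι ι K) : tn k A * tn k B = tn k (A * B) := by
  ext a c
  rw [Matrix.mul_apply]
  simp only [tn, Matrix.of_apply, Matrix.mul_apply]
  rw [Finset.prod_univ_sum, Fintype.piFinset_univ]
  exact Finset.sum_congr rfl fun b _ => Finset.prod_mul_distrib.symm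

theorem tn_one : tn k (1 : Matrix ι ι K) = 1 := by
  ext a b
  simp only [tn, Matrix.of_apply]
  by_cases h : a = b
  · subst h
    simp
  · rw [Matrix.one_apply_ne h]
    obtain ⟨t, ht⟩ := Function.ne_iff.1 h
    exact Finset.prod_eq_zero (Finset.mem_univ t) (Matrix.one_apply_ne ht)

theorem sh_zero : sh ι K (0 : ZMod k) = 1 := by
  ext a b
  simp only [sh, Matrix.of_apply, sub_zero, Matrix.one_apply]

theorem sh_mul (i j : ZMod k) : sh ι K i * sh ι K j = sh ι K (i + j) := by
  ext a c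
  rw [Matrix.mul_apply, Finset.sum_eq_single (fun t => c (t - j))]
  · simp only [sh, Matrix.of_apply, if_true, mul_one]
    have : (fun t => c (t - i - j)) = fun t => c (t - (i + j)) := by
      funext t
      rw [sub_sub]
    rw [this]
  · intro b _ hb
    simp only [sh, Matrix.of_apply]
    rw [if_neg hb, mul_zero]
  · simp

theorem tn_sh (A : Matrix ι ι K) (i : ZMod k) (a c : ZMod k → ι) :
    (tn k A * sh ι K i) a c = ∏ t, A (a t) (c (t - i)) := by
  rw [Matrix.mul_apply, Finset.sum_eq_single (fun t => c (t - i))]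
  · simp only [tn, sh, Matrix.of_apply, if_true, mul_one]
  · intro b _ hb
    simp only [sh, Matrix.of_apply]
    rw [if_neg hb, mul_zero]
  · simp

theorem sh_tn (A : Matrix ι ι K) (i : ZMod k) : sh ι K i * tn k A = tn k A * sh ι K i := by
  ext a c
  rw [tn_sh, Matrix.mul_apply, Finset.sum_eq_single (fun t => a (t + i))]
  · simp only [tn, sh, Matrix.of_apply, sub_add_cancel, if_true, one_mul]
    rw [← (Equiv.subRight i).prod_comp]
    simp
  · intro b _ hb
    simp only [sh, Matrix.of_apply]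
    rw [if_neg, zero_mul]
    intro h
    apply hb
    funext t
    rw [h]
    simp
  · simp

/-- the trace of the shifted tensor power -/
theorem tr_sh (A : Matrix ι ι K) (i : (ZMod k)ˣ) :
    Matrix.trace (tn k A * sh ι K (i : ZMod k)) = Matrix.trace (A ^ k) := by
  rw [trace_pow_zmod, Matrix.trace]
  simp only [Matrix.diag_apply, tn_sh]
  let e : ZMod k ≃ ZMod k := Units.mulLeft (-i)
  have he : ∀ s, e s = -(i : ZMod k) * s := fun s => by
    change (((-i : (ZMod k)ˣ) : ZMod k)) * s = _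
    rw [Units.val_neg]
  rw [← (Equiv.arrowCongr e (Equiv.refl ι)).sum_comp]
  refine Finset.sum_congr rfl fun a _ => ?_
  rw [← e.prod_comp]
  refine Finset.prod_congr rfl fun s _ => ?_
  have e1 : (Equiv.arrowCongr e (Equiv.refl ι)) a (e s) = a s := by
    simp [Equiv.arrowCongr]
  have e2 : e s - (i : ZMod k) = e (s + 1) := by
    rw [he, he]
    ring
  rw [e1, e2]
  have e3 : (Equiv.arrowCongr e (Equiv.refl ι)) a (e (s + 1)) = a (s + 1) := by
    simp [Equiv.arrowCongr]
  rw [e3]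

/-- the trace of an idempotent matrix is a natural number -/
theorem trace_idem {M : Matrix ι ι K} (h : M * M = M) : ∃ r : ℕ, Matrix.trace M = r := by
  have h1 : IsIdempotentElem (Matrix.toLin' M) := by
    rw [IsIdempotentElem]
    change (Matrix.toLin' M).comp (Matrix.toLin' M) = _
    rw [← Matrix.toLin'_mul, h]
  refine ⟨Module.finrank K (LinearMap.range (Matrix.toLin' M)), ?_⟩
  have h2 := (LinearMap.IsIdempotentElem.isProj_range _ h1).trace
  rw [← h2, Matrix.trace_toLin'_eq]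

/-- the idempotent of a character -/
noncomputable def ee (ι : Type*) [DecidableEq ι] {K : Type*} [Field K] {k : ℕ} [NeZero k]
    (χ : AddChar (ZMod k) K) : Matrix (ZMod k → ι) (ZMod k → ι) K :=
  (k : K)⁻¹ • ∑ i, χ (-i) • sh ι K i

theorem ee_idem (hk : (k : K) ≠ 0) (χ : AddChar (ZMod k) K) : ee ι χ * ee ι χ = ee ι χ := by
  unfold ee
  rw [Matrix.smul_mul, Matrix.mul_smul, Finset.sum_mul]
  have h1 : ∀ i : ZMod k, (χ (-i) • sh ι K i) * ∑ j, χ (-j) • sh ι K j =
      ∑ j, χ (-j) • sh ι K j := by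
    intro i
    rw [Finset.mul_sum]
    rw [← Equiv.sum_comp (Equiv.addLeft i) (fun j => χ (-j) • sh ι K j)]
    refine Finset.sum_congr rfl fun j _ => ?_
    rw [Equiv.coe_addLeft, Matrix.smul_mul, Matrix.mul_smul, sh_mul, smul_smul, neg_add,
      AddChar.map_add_eq_mul]
  rw [Finset.sum_congr rfl fun i _ => h1 i, Finset.sum_const, Finset.card_univ, ZMod.card,
    ← Nat.cast_smul_eq_nsmul K, smul_smul, smul_smul]
  congr 1
  field_simp

theorem sh_ee (χ : AddChar (ZMod k) K) (i : ZMod k) : sh ι K i * ee ι χ = ee ι χ * sh ι K i := by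
  unfold ee
  rw [Matrix.smul_mul, Matrix.mul_smul, Finset.sum_mul, Finset.mul_sum]
  congr 1
  refine Finset.sum_congr rfl fun j _ => ?_
  rw [Matrix.smul_mul, Matrix.mul_smul, sh_mul, sh_mul, add_comm]

section mean
variable {H : Type*} [Group H] [Fintype H]

/-- the mean of the tensor powers -/
noncomputable def mn (k : ℕ) [NeZero k] (ρ : H →* Matrix ι ι K) :
    Matrix (ZMod k → ι) (ZMod k → ι) K :=
  (Fintype.card H : K)⁻¹ • ∑ g, tn k (ρ g)

theorem mn_idem [CharZero K] (ρ : H →* Matrix ι ι K) : mn k ρ * mn k ρ = mn k ρ := by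
  have hH : (Fintype.card H : K) ≠ 0 := Nat.cast_ne_zero.2 Fintype.card_ne_zero
  unfold mn
  rw [Matrix.smul_mul, Matrix.mul_smul, Finset.sum_mul]
  have h1 : ∀ g : H, tn k (ρ g) * ∑ h, tn k (ρ h) = ∑ h, tn k (ρ h) := by
    intro g
    rw [Finset.mul_sum, ← Equiv.sum_comp (Equiv.mulLeft g) (fun h => tn k (ρ h))]
    refine Finset.sum_congr rfl fun h _ => ?_
    rw [Equiv.coe_mulLeft, map_mul, tn_mul]
  rw [Finset.sum_congr rfl fun g _ => h1 g, Finset.sum_const, Finset.card_univ,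
    ← Nat.cast_smul_eq_nsmul K, smul_smul, smul_smul]
  congr 1
  field_simp

theorem sh_mn (ρ : H →* Matrix ι ι K) (i : ZMod k) : sh ι K i * mn k ρ = mn k ρ * sh ι K i := by
  unfold mn
  rw [Matrix.smul_mul, Matrix.mul_smul, Finset.sum_mul, Finset.mul_sum]
  congr 1
  exact Finset.sum_congr rfl fun g _ => sh_tn _ _

theorem ee_mn (ρ : H →* Matrix ι ι K) (χ : AddChar (ZMod k) K) :
    ee ι χ * mn k ρ = mn k ρ * ee ι χ := by
  unfold ee
  rw [Matrix.smul_mul, Matrix.mul_smul, Finset.sum_mul, Finset.mul_sum]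
  congr 1
  refine Finset.sum_congr rfl fun g _ => ?_
  rw [Matrix.smul_mul, Matrix.mul_smul, sh_mn]

theorem tr_mn_sh (ρ : H →* Matrix ι ι K) (i : (ZMod k)ˣ) :
    Matrix.trace (mn k ρ * sh ι K (i : ZMod k)) =
      (Fintype.card H : K)⁻¹ * ∑ g, Matrix.trace (ρ g ^ k) := by
  unfold mn
  rw [Matrix.smul_mul, Matrix.trace_smul, Finset.sum_mul, Matrix.trace_sum, smul_eq_mul]
  congr 1
  exact Finset.sum_congr rfl fun g _ => tr_sh _ _

theorem tr_mn_ee (ρ : H →* Matrix ι ι K) (χ : AddChar (ZMod k) K) :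
    Matrix.trace (mn k ρ * ee ι χ) =
      (k : K)⁻¹ * ∑ i, χ (-i) * Matrix.trace (mn k ρ * sh ι K i) := by
  unfold ee
  rw [Matrix.mul_smul, Matrix.trace_smul, Finset.mul_sum, Matrix.trace_sum, smul_eq_mul]
  congr 1
  refine Finset.sum_congr rfl fun i _ => ?_
  rw [Matrix.mul_smul, Matrix.trace_smul, smul_eq_mul]

theorem idem_nat [CharZero K] (ρ : H →* Matrix ι ι K) (χ : AddChar (ZMod k) K) :
    ∃ r : ℕ, Matrix.trace (mn k ρ * ee ι χ) = r := by
  apply trace_idem
  have hk : (k : K) ≠ 0 := Nat.cast_ne_zero.2 (NeZero.ne k)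
  calc mn k ρ * ee ι χ * (mn k ρ * ee ι χ)
      = mn k ρ * (ee ι χ * mn k ρ) * ee ι χ := by simp only [mul_assoc]
    _ = (mn k ρ * mn k ρ) * (ee ι χ * ee ι χ) := by
      rw [ee_mn]
      simp only [mul_assoc]
    _ = mn k ρ * ee ι χ := by rw [mn_idem, ee_idem hk]

end mean

end FIAux

open FIAux

/-- **the mean of `chi (g ^ k)`, `k = p ^ N`, is an integer** -/
theorem mean_pow_int {p : ℕ} (hp : p.Prime) {K : Type*} [Field K] [CharZero K] {ζ : K}
    (hζ : IsPrimitiveRoot ζ p) {H : Type*} [Group H] [Fintype H] {ι : Type*} [Fintype ι]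
    [DecidableEq ι] (ρ : H →* Matrix ι ι K) {N : ℕ} (hN : N ≠ 0) :
    ∃ z : ℤ, ∑ g, Matrix.trace (ρ g ^ p ^ N) = (Fintype.card H : K) * z := by
  have hH : (Fintype.card H : K) ≠ 0 := Nat.cast_ne_zero.2 Fintype.card_ne_zero
  set k := p ^ N with hkdef
  have hk0 : NeZero k := ⟨(pow_pos hp.pos N).ne'⟩
  have hkK : (k : K) ≠ 0 := Nat.cast_ne_zero.2 hk0.out
  have hpk : p ∣ k := dvd_pow_self p hN
  have hζk : ζ ^ k = 1 := by
    obtain ⟨c, hc⟩ := hpk
    rw [hc, pow_mul, hζ.pow_eq_one, one_pow]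
  set ω : AddChar (ZMod k) K := AddChar.zmodChar k hζk with hω
  set x : K := (Fintype.card H : K)⁻¹ * ∑ g, Matrix.trace (ρ g ^ k) with hx
  obtain ⟨r, hr⟩ := idem_nat ρ (1 : AddChar (ZMod k) K)
  obtain ⟨s, hs⟩ := idem_nat ρ ω
  have key : ∀ i : ZMod k, (1 - ω (-i)) * Matrix.trace (mn k ρ * sh ι K i) = (1 - ω (-i)) * x := by
    intro i
    by_cases hi : IsUnit i
    · obtain ⟨u, rfl⟩ := hi
      rw [tr_mn_sh]
    · have h1 : ω (-i) = 1 := by
        rw [AddChar.map_neg_eq_inv, hω, AddChar.zmodChar_apply]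
        have h2 : p ∣ i.val := by
          by_contra hd
          apply hi
          have h3 : Nat.Coprime i.val k :=
            (Nat.Coprime.pow_left N ((Nat.Prime.coprime_iff_not_dvd hp).2 hd)).symm
          have h4 := (ZMod.isUnit_iff_coprime i.val k).2 h3
          rwa [ZMod.natCast_zmod_val] at h4
        obtain ⟨c, hc⟩ := h2
        rw [hc, pow_mul, hζ.pow_eq_one, one_pow, inv_one]
      rw [h1, sub_self, zero_mul, zero_mul]
  have hsum : ∑ i : ZMod k, ω (-i) = 0 := by
    have e0 : ∑ i : ZMod k, ω (-i) = ∑ i : ZMod k, ω i :=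
      Equiv.sum_comp (Equiv.neg (ZMod k)) (fun i => ω i)
    rw [e0]
    apply AddChar.sum_eq_zero_of_ne_one
    intro h1
    have h2 : ω 1 = 1 := by rw [h1, AddChar.one_apply]
    rw [hω, AddChar.zmodChar_apply] at h2
    have hk1 : 1 < k := lt_of_lt_of_le hp.one_lt (Nat.le_of_dvd (Nat.pos_of_ne_zero hk0.out) hpk)
    have : Fact (1 < k) := ⟨hk1⟩
    rw [ZMod.val_one, pow_one] at h2
    exact hζ.ne_one hp.one_lt h2
  have hxz : x = (r : K) - s := by
    rw [← hr, ← hs, tr_mn_ee, tr_mn_ee, ← mul_sub, ← Finset.sum_sub_distrib]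
    have e1 : ∀ i : ZMod k, (1 : AddChar (ZMod k) K) (-i) * Matrix.trace (mn k ρ * sh ι K i) -
        ω (-i) * Matrix.trace (mn k ρ * sh ι K i) = (1 - ω (-i)) * x := by
      intro i
      rw [← key i, AddChar.one_apply]
      ring
    rw [Finset.sum_congr rfl fun i _ => e1 i, ← Finset.sum_mul, Finset.sum_sub_distrib, hsum,
      Finset.sum_const, Finset.card_univ, ZMod.card]
    rw [nsmul_eq_mul, mul_one, sub_zero]
    field_simp
  refine ⟨(r : ℤ) - s, ?_⟩
  push_cast
  rw [← hxz, hx]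
  field_simp

end Pool.Agent.Lib.P0c8ca5.Ex
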