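import Mathlib
import Pool.Agent.Lib.P0c8ca5Ex.FIa
import Pool.Agent.Lib.P0c8ca5N.RegP
import Pool.Agent.Lib.P0c8ca5V.Defs
import Pool.Agent.Lib.P0c8ca5Ex.TD

/-!
# FI: the sum of a character over the p-regular elements is divisible by the p'-part of the order

`fr p ρ = ∑ trace (ρ s)` over the p-regular `s`.
PROOF of `fr_int`, by induction on `|H|`: `∑ g, trace (ρ (pr p g)) = |H| z` (`mean_pow_int`, `pr p g = g ^ uexp`), and the left side is the
sum over the p-elements `u` of `fr` for the centralizer of `u` (`g = u s`). For noncentral `u` the values are divisible by the p'-part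
of `|C(u)|`, the sum over the conjugacy class of `u` is divisible by the p'-part of `|H|`. So `q * fr p ρ`, `q` the number of the
central p-elements, a power of `p`, is divisible by the p'-part of `|H|`, and `fr p ρ` is an algebraic integer.
-/

set_option autoImplicit false
set_option linter.unusedSectionVars false

namespace Pool.Agent.Lib.P0c8ca5.Ex

open Finset

universe u

namespace FIAux

section
variable {K : Type*} [Field K] [IsAlgClosed K] [CharZero K] {ι : Type*} [Fintype ι] [DecidableEq ι]

/-- the trace of a matrix of finite order is an algebraic integer -/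
theorem isIntegral_trace {M : Matrix ι ι K} {m : ℕ} (hm : m ≠ 0) (h : M ^ m = 1) :
    IsIntegral ℤ (Matrix.trace M) := by
  rw [Matrix.trace_eq_sum_roots_charpoly]
  refine IsIntegral.multiset_sum fun μ hμ => ?_
  have h1 : M.charpoly.IsRoot μ := Polynomial.isRoot_of_mem_roots hμ
  have h2 : Module.End.HasEigenvalue (Matrix.toLin' M) μ := by
    rw [Module.End.hasEigenvalue_iff_isRoot_charpoly, Matrix.charpoly_toLin']
    exact h1
  have h3 := h2.pow m
  have h4 : Matrix.toLin' M ^ m = 1 := by
    rw [← Matrix.toLin'_pow, h, Matrix.toLin'_one]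
    rfl
  rw [h4] at h3
  obtain ⟨v, hv⟩ := h3.exists_hasEigenvector
  have h5 := hv.apply_eq_smul
  rw [Module.End.one_apply] at h5
  have h6 : μ ^ m = 1 := by
    have h7 : (μ ^ m - 1) • v = 0 := by
      rw [sub_smul, one_smul, ← h5, sub_self]
    rcases smul_eq_zero.1 h7 with h8 | h8
    · exact sub_eq_zero.1 h8
    · exact absurd h8 hv.2
  refine ⟨Polynomial.X ^ m - 1, ?_, ?_⟩
  · exact Polynomial.monic_X_pow_sub_C (1 : ℤ) hm
  · rw [Polynomial.eval₂_sub, Polynomial.eval₂_pow, Polynomial.eval₂_X, Polynomial.eval₂_one, h6,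
      sub_self]

/-- an algebraic integer with an integral multiple is divisible by the coprime factor -/
theorem int_of_mul {x : K} (hx : IsIntegral ℤ x) {q m : ℕ} (hq : q ≠ 0) (hqm : q.Coprime m)
    {z : ℤ} (h : (q : K) * x = (m : K) * z) : ∃ y : ℤ, x = (m : K) * y := by
  have hqK : (q : K) ≠ 0 := Nat.cast_ne_zero.2 hq
  have h1 : x = algebraMap ℚ K ((m * z : ℚ) / q) := by
    rw [map_div₀, map_mul, map_natCast, map_intCast, map_natCast, ← h]
    field_simp
  rw [h1] at hx
  have h2 : IsIntegral ℤ ((m * z : ℚ) / q) :=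
    (isIntegral_algebraMap_iff (algebraMap ℚ K).injective).1 hx
  obtain ⟨w, hw⟩ := IsIntegrallyClosed.isIntegral_iff.1 h2
  have hqQ : (q : ℚ) ≠ 0 := Nat.cast_ne_zero.2 hq
  have h3 : (q : ℤ) * w = m * z := by
    have h4 : (q : ℚ) * w = m * z := by
      rw [show (w : ℚ) = (m * z : ℚ) / q from hw]
      field_simp
    exact_mod_cast h4
  have h5 : (m : ℤ) ∣ w := by
    have h6 : (m : ℤ) ∣ q * w := ⟨z, h3⟩
    exact IsCoprime.dvd_of_dvd_mul_left (Nat.isCoprime_iff_coprime.2 hqm).symm h6
  obtain ⟨y, hy⟩ := h5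
  refine ⟨y, ?_⟩
  rw [h1, ← hw, hy]
  push_cast
  simp

end

section
variable {H : Type*} [Group H]

open Classical in
/-- sums over conjugacy classes -/
theorem cls_sum' [Fintype H] {m : H → ℕ} {M : ℕ} (f : H → ℤ) (hf : ∀ g x, f (g * x * g⁻¹) = f x)
    (h : ∀ x, ∃ y : ℤ, f x = m x * y)
    (hm : ∀ x, M ∣ (Finset.univ.filter fun w : H => ConjClasses.mk w = ConjClasses.mk x).card * m x) :
    (M : ℤ) ∣ ∑ x, f x := by
  rw [← Finset.sum_fiberwise Finset.univ (fun w : H => ConjClasses.mk w) f]
  refine Finset.dvd_sum fun k _ => ?_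
  obtain ⟨g, rfl⟩ := ConjClasses.exists_rep k
  have h1 : ∀ w ∈ Finset.univ.filter (fun w : H => ConjClasses.mk w = ConjClasses.mk g),
      f w = f g := by
    intro w hw
    rw [Finset.mem_filter, ConjClasses.mk_eq_mk_iff_isConj] at hw
    obtain ⟨c, hc⟩ := isConj_iff.1 hw.2
    rw [← hc, hf]
  rw [Finset.sum_congr rfl h1, Finset.sum_const, nsmul_eq_mul]
  obtain ⟨y, hy⟩ := h g
  rw [hy, ← mul_assoc]
  have h2 : (M : ℤ) ∣ ((Finset.univ.filter fun w : H => ConjClasses.mk w = ConjClasses.mk g).card : ℤ)
      * (m g : ℤ) := by exact_mod_cast hm g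
  exact h2.mul_right y

open Classical in
theorem card_cls [Fintype H] (g : H) :
    (Finset.univ.filter fun w : H => ConjClasses.mk w = ConjClasses.mk g).card *
      Nat.card (Subgroup.centralizer ({g} : Set H)) = Nat.card H := by
  have h1 := ConjClasses.card_carrier g
  have h2 : Fintype.card (ConjClasses.mk g).carrier =
      (Finset.univ.filter fun w : H => ConjClasses.mk w = ConjClasses.mk g).card := by
    rw [Fintype.card_subtype]
    congr 1
    ext w
    simp only [Finset.mem_filter, Finset.mem_univ, true_and]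
    exact ConjClasses.mem_carrier_iff_mk_eq
  have h3 := Subgroup.nat_card_centralizer_nat_card_stabilizer g
  have h4 : Fintype.card (MulAction.stabilizer (ConjAct H) g) ∣ Fintype.card H := by
    rw [← Nat.card_eq_fintype_card, ← h3, ← Nat.card_eq_fintype_card]
    exact Subgroup.card_subgroup_dvd_card _
  rw [← h2, h1, h3, Nat.card_eq_fintype_card, Nat.card_eq_fintype_card]
  exact Nat.div_mul_cancel h4

theorem preg_coe' {p : ℕ} {L : Subgroup H} (x : ↥L) : Preg p (x : H) ↔ Preg p x := by
  unfold Preg
  rw [Subgroup.orderOf_coe]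

theorem pel_conj' {p : ℕ} (g x : H) : Pel p (g * x * g⁻¹) ↔ Pel p x := by
  have key : ∀ g x : H, Pel p x → Pel p (g * x * g⁻¹) := by
    rintro g x ⟨n, hn⟩
    refine ⟨n, ?_⟩
    rw [conj_pow, hn, mul_one, mul_inv_cancel]
  refine ⟨fun h => ?_, key g x⟩
  have h1 := key g⁻¹ _ h
  have e : g⁻¹ * (g * x * g⁻¹) * g⁻¹⁻¹ = x := by group
  rwa [e] at h1

open Classical in
/-- the sum over `g = u s` -/
theorem sum_pr {p : ℕ} [Fact p.Prime] [Fintype H] {M : Type*} [AddCommMonoid M] (F : H → M) :
    ∑ g, F (pr p g) = ∑ u : H, if Pel p u then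
      ∑ s : ↥(Subgroup.centralizer ({u} : Set H)), (if Preg p s then F s else 0) else 0 := by
  have h1 : ∀ u : H, ∑ s : ↥(Subgroup.centralizer ({u} : Set H)), (if Preg p s then F s else 0) =
      ∑ s : H, if (u * s = s * u ∧ Preg p s) then F s else 0 := by
    intro u
    have h2 : ∑ s : ↥(Subgroup.centralizer ({u} : Set H)), (if Preg p s then F s else 0) =
        ∑ s : ↥(Subgroup.centralizer ({u} : Set H)), (fun s : H => if Preg p s then F s else 0) s :=
      Finset.sum_congr rfl fun s _ => by
        simp only [preg_coe']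
    rw [h2]
    have h3 : ∑ s : H, (if (u * s = s * u ∧ Preg p s) then F s else 0) =
        ∑ s ∈ Finset.univ.filter (fun s : H => s ∈ Subgroup.centralizer ({u} : Set H)),
          (fun s : H => if Preg p s then F s else 0) s := by
      rw [Finset.sum_filter]
      refine Finset.sum_congr rfl fun s _ => ?_
      by_cases h4 : u * s = s * u
      · have h5 : s ∈ Subgroup.centralizer ({u} : Set H) := by
          rw [Subgroup.mem_centralizer_singleton_iff]
          exact h4.symm
        simp only [h4, h5, true_and, if_true]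
      · have h5 : s ∉ Subgroup.centralizer ({u} : Set H) := by
          rw [Subgroup.mem_centralizer_singleton_iff]
          exact fun h => h4 h.symm
        simp only [h4, h5, false_and, if_false]
    rw [h3]
    exact (Finset.sum_subtype
      (Finset.univ.filter (fun s : H => s ∈ Subgroup.centralizer ({u} : Set H)))
      (fun x => by rw [Finset.mem_filter]; exact ⟨fun h => h.2, fun h => ⟨Finset.mem_univ _, h⟩⟩)
      (fun s : H => if Preg p s then F s else 0)).symm
  simp only [h1]
  have h4 : ∑ u : H, (if Pel p u then ∑ s : H, (if (u * s = s * u ∧ Preg p s) then F s else 0)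
      else 0) = ∑ x ∈ (Finset.univ : Finset (H × H)).filter
        (fun x => Pel p x.1 ∧ x.1 * x.2 = x.2 * x.1 ∧ Preg p x.2), F x.2 := by
    rw [Finset.sum_filter, Fintype.sum_prod_type]
    refine Finset.sum_congr rfl fun u _ => ?_
    by_cases hu : Pel p u
    · simp only [hu, true_and, if_true]
    · simp only [hu, false_and, if_false, Finset.sum_const_zero]
  rw [h4]
  refine Finset.sum_bij' (fun g _ => (g * (pr p g)⁻¹, pr p g)) (fun x _ => x.1 * x.2) ?_ ?_ ?_ ?_ ?_
  · intro g _
    rw [Finset.mem_filter]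
    refine ⟨Finset.mem_univ _, exists_pow_mul_inv_pr g, ?_, preg_pr g⟩
    have hc : g * pr p g = pr p g * g := (commute_pr (Commute.refl g)).eq
    change g * (pr p g)⁻¹ * pr p g = pr p g * (g * (pr p g)⁻¹)
    rw [inv_mul_cancel_right, ← mul_assoc, ← hc, mul_inv_cancel_right]
  · intro x _
    exact Finset.mem_univ _
  · intro g _
    exact inv_mul_cancel_right g _
  · intro x hx
    rw [Finset.mem_filter] at hx
    obtain ⟨-, ⟨n, hn⟩, hc, hr⟩ := hx
    have h5 : pr p (x.1 * x.2) = x.2 := by
      rw [pr_mul hc, pr_of_pow hn, pr_eq_self hr, one_mul]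
    change (x.1 * x.2 * (pr p (x.1 * x.2))⁻¹, pr p (x.1 * x.2)) = x
    rw [h5, mul_inv_cancel_right]
  · intro g _
    rfl

end

end FIAux

open FIAux

section
variable {K : Type*} [Field K] [IsAlgClosed K] [CharZero K] {ι : Type*} [Fintype ι] [DecidableEq ι]

open Classical in
/-- the sum of the character of `ρ` over the p-regular elements -/
noncomputable def fr (p : ℕ) {H : Type*} [Group H] [Fintype H] (ρ : H →* Matrix ι ι K) : K :=
  ∑ s : H, if Preg p s then Matrix.trace (ρ s) else 0

theorem fr_integral {p : ℕ} {H : Type*} [Group H] [Fintype H] (ρ : H →* Matrix ι ι K) :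
    IsIntegral ℤ (fr p ρ) := by
  classical
  refine IsIntegral.sum _ fun s _ => ?_
  split_ifs
  · refine isIntegral_trace (m := Fintype.card H) Fintype.card_ne_zero ?_
    rw [← map_pow, pow_card_eq_one, map_one]
  · exact isIntegral_zero

/-- the restriction to the centralizer of an element -/
noncomputable def frc (p : ℕ) {H : Type*} [Group H] [Fintype H] (ρ : H →* Matrix ι ι K) (u : H) :
    K :=
  letI : Fintype ↥(Subgroup.centralizer ({u} : Set H)) := Fintype.ofFinite _
  fr p (ρ.comp (Subgroup.centralizer ({u} : Set H)).subtype)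

theorem frc_conj {p : ℕ} {H : Type*} [Group H] [Fintype H] (ρ : H →* Matrix ι ι K) (g u : H) :
    frc p ρ (g * u * g⁻¹) = frc p ρ u := by
  classical
  unfold frc fr
  let e : ↥(Subgroup.centralizer ({u} : Set H)) → ↥(Subgroup.centralizer ({g * u * g⁻¹} : Set H)) :=
    fun s => ⟨g * s * g⁻¹, by
      have hs := s.2
      rw [Subgroup.mem_centralizer_singleton_iff] at hs ⊢
      calc g * (s : H) * g⁻¹ * (g * u * g⁻¹) = g * ((s : H) * u) * g⁻¹ := by group
        _ = g * (u * (s : H)) * g⁻¹ := by rw [hs]
        _ = g * u * g⁻¹ * (g * (s : H) * g⁻¹) := by group⟩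
  have he : Function.Bijective e := by
    constructor
    · intro s t h
      have h1 : g * (s : H) * g⁻¹ = g * (t : H) * g⁻¹ := congrArg Subtype.val h
      exact Subtype.ext (mul_left_cancel (mul_right_cancel h1))
    · intro t
      refine ⟨⟨g⁻¹ * t * g, ?_⟩, Subtype.ext ?_⟩
      · have ht := t.2
        rw [Subgroup.mem_centralizer_singleton_iff] at ht ⊢
        calc g⁻¹ * (t : H) * g * u = g⁻¹ * ((t : H) * (g * u * g⁻¹)) * g := by group
          _ = g⁻¹ * ((g * u * g⁻¹) * (t : H)) * g := by rw [ht]
          _ = u * (g⁻¹ * (t : H) * g) := by group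
      · change g * (g⁻¹ * (t : H) * g) * g⁻¹ = t
        group
  have key : ∀ (F1 : Fintype ↥(Subgroup.centralizer ({u} : Set H)))
      (F2 : Fintype ↥(Subgroup.centralizer ({g * u * g⁻¹} : Set H))),
      ∑ s : ↥(Subgroup.centralizer ({g * u * g⁻¹} : Set H)), (if Preg p s then
        Matrix.trace ((ρ.comp (Subgroup.centralizer ({g * u * g⁻¹} : Set H)).subtype) s) else 0) =
      ∑ s : ↥(Subgroup.centralizer ({u} : Set H)), (if Preg p s then
        Matrix.trace ((ρ.comp (Subgroup.centralizer ({u} : Set H)).subtype) s) else 0) := by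
    intro F1 F2
    refine (Fintype.sum_bijective e he _ _ fun s => ?_).symm
    have h1 : Preg p (e s) ↔ Preg p s := by
      rw [← preg_coe', ← preg_coe']
      exact preg_conj g (s : H)
    have h2 : Matrix.trace ((ρ.comp (Subgroup.centralizer ({g * u * g⁻¹} : Set H)).subtype) (e s)) =
        Matrix.trace ((ρ.comp (Subgroup.centralizer ({u} : Set H)).subtype) s) := by
      change Matrix.trace (ρ (g * (s : H) * g⁻¹)) = Matrix.trace (ρ (s : H))
      rw [map_mul, Matrix.trace_mul_comm, ← map_mul]
      congr 2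
      group
    by_cases h3 : Preg p s
    · rw [if_pos h3, if_pos (h1.2 h3), h2]
    · rw [if_neg h3, if_neg (fun h => h3 (h1.1 h))]
  exact key _ _

theorem frc_top {p : ℕ} {H : Type*} [Group H] [Fintype H] (ρ : H →* Matrix ι ι K) {u : H}
    (hu : Subgroup.centralizer ({u} : Set H) = ⊤) : frc p ρ u = fr p ρ := by
  classical
  unfold frc fr
  have key : ∀ (L : Subgroup H) (_ : L = ⊤) (F1 : Fintype ↥L),
      ∑ s : ↥L, (if Preg p s then Matrix.trace ((ρ.comp L.subtype) s) else 0) =
        ∑ s : H, (if Preg p s then Matrix.trace (ρ s) else 0) := by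
    rintro L rfl F1
    refine Fintype.sum_bijective (fun s : ↥(⊤ : Subgroup H) => (s : H))
      ⟨Subtype.val_injective, fun s => ⟨⟨s, Subgroup.mem_top s⟩, rfl⟩⟩ _ _ fun s => ?_
    simp only [preg_coe']
    rfl
  exact key _ hu _

theorem fr_int_aux {p : ℕ} [hp : Fact p.Prime] : ∀ (n : ℕ) (H : Type u) [Group H] [Fintype H]
    (ρ : H →* Matrix ι ι K), Nat.card H = n → ∃ z : ℤ, fr p ρ = ((ordCompl[p] n : ℕ) : K) * z := by
  intro n
  induction n using Nat.strong_induction_on with
  | _ n ih =>
    intro H _ _ ρ hn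
    classical
    have hn0 : n ≠ 0 := by
      rw [← hn]
      exact Nat.card_pos.ne'
    obtain ⟨ζ, hζ⟩ := HasEnoughRootsOfUnity.exists_primitiveRoot K p
    -- the mean
    obtain ⟨N, hN0, hN⟩ : ∃ N : ℕ, N ≠ 0 ∧ uexp p H = p ^ N := by
      refine ⟨_, ?_, rfl⟩
      have h1 : 0 < Nat.totient (ordCompl[p] (Nat.card H)) :=
        Nat.totient_pos.mpr (Nat.ordCompl_pos p Nat.card_pos.ne')
      exact Nat.mul_ne_zero Nat.card_pos.ne' h1.ne'
    obtain ⟨z, hz⟩ := mean_pow_int hp.out hζ ρ hN0
    have h1 : ∑ g, Matrix.trace (ρ g ^ p ^ N) = ∑ g, Matrix.trace (ρ (pr p g)) := by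
      refine Finset.sum_congr rfl fun g _ => ?_
      rw [pr, hN, map_pow]
    rw [h1, sum_pr (p := p) (fun s => Matrix.trace (ρ s))] at hz
    have h2 : ∀ u : H, ∑ s : ↥(Subgroup.centralizer ({u} : Set H)),
        (if Preg p s then Matrix.trace (ρ s) else 0) = frc p ρ u := by
      intro u
      unfold frc fr
      exact Finset.sum_congr (by ext; simp) fun s _ => rfl
    simp only [h2] at hz
    -- the values at the noncentral elements
    have h3 : ∀ u : H, Subgroup.centralizer ({u} : Set H) ≠ ⊤ → ∃ y : ℤ, frc p ρ u =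
        ((ordCompl[p] (Nat.card ↥(Subgroup.centralizer ({u} : Set H))) : ℕ) : K) * y := by
      intro u hu
      refine @ih _ ?_ ↥(Subgroup.centralizer ({u} : Set H)) _ (Fintype.ofFinite _) _ rfl
      rw [← hn]
      refine lt_of_le_of_ne (Nat.card_le_card_of_injective _ Subtype.val_injective) fun h => ?_
      exact hu ((Subgroup.card_eq_iff_eq_top _).1 h)
    -- the integral function
    have h4 : ∀ u : H, ∃ f : ℤ, (if Pel p u ∧ Subgroup.centralizer ({u} : Set H) ≠ ⊤ then
        frc p ρ u else 0) = (f : K) ∧ ∃ y : ℤ, f =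
          ((ordCompl[p] (Nat.card ↥(Subgroup.centralizer ({u} : Set H))) : ℕ) : ℤ) * y := by
      intro u
      by_cases hu : Pel p u ∧ Subgroup.centralizer ({u} : Set H) ≠ ⊤
      · obtain ⟨y, hy⟩ := h3 u hu.2
        refine ⟨((ordCompl[p] (Nat.card ↥(Subgroup.centralizer ({u} : Set H))) : ℕ) : ℤ) * y, ?_,
          y, rfl⟩
        rw [if_pos hu, hy, Int.cast_mul, Int.cast_natCast]
      · exact ⟨0, by rw [if_neg hu, Int.cast_zero], 0, by rw [mul_zero]⟩
    choose f hf hfy using h4
    have h5 : ∀ g x, f (g * x * g⁻¹) = f x := by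
      intro g x
      have h6 : (f (g * x * g⁻¹) : K) = f x := by
        rw [← hf, ← hf, frc_conj]
        have h7 : (Subgroup.centralizer ({g * x * g⁻¹} : Set H) ≠ ⊤) ↔
            (Subgroup.centralizer ({x} : Set H) ≠ ⊤) := by
          rw [not_iff_not, Subgroup.eq_top_iff', Subgroup.eq_top_iff']
          constructor
          · intro h y
            have h8 := h (g * y * g⁻¹)
            rw [Subgroup.mem_centralizer_singleton_iff] at h8 ⊢
            have h9 : g * (y * x) * g⁻¹ = g * (x * y) * g⁻¹ := by
              calc g * (y * x) * g⁻¹ = g * y * g⁻¹ * (g * x * g⁻¹) := by group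
                _ = g * x * g⁻¹ * (g * y * g⁻¹) := h8
                _ = g * (x * y) * g⁻¹ := by group
            exact mul_left_cancel (mul_right_cancel h9)
          · intro h y
            have h8 := h (g⁻¹ * y * g)
            rw [Subgroup.mem_centralizer_singleton_iff] at h8 ⊢
            calc y * (g * x * g⁻¹) = g * (g⁻¹ * y * g * x) * g⁻¹ := by group
              _ = g * (x * (g⁻¹ * y * g)) * g⁻¹ := by rw [h8]
              _ = g * x * g⁻¹ * y := by group
        exact if_congr (and_congr (pel_conj' g x) h7) rfl rfl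
      exact_mod_cast h6
    have h6 : ((ordCompl[p] n : ℕ) : ℤ) ∣ ∑ x, f x := by
      refine cls_sum' f h5 (m := fun u =>
        ordCompl[p] (Nat.card ↥(Subgroup.centralizer ({u} : Set H)))) hfy fun x => ?_
      have h7 := card_cls x
      set a := (Finset.univ.filter fun w : H => ConjClasses.mk w = ConjClasses.mk x).card with ha
      rw [← hn, ← h7]
      have hG : Nat.card H ≠ 0 := Nat.card_pos.ne'
      have ha0 : a ≠ 0 := fun h0 => hG (by rw [← h7, h0, zero_mul])
      have hc0 : Nat.card ↥(Subgroup.centralizer ({x} : Set H)) ≠ 0 := Nat.card_pos.ne'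
      rw [Nat.ordCompl_mul]
      exact Nat.mul_dvd_mul (Nat.ordCompl_dvd a p) dvd_rfl
    -- the central elements
    set q : ℕ := (Finset.univ.filter fun u : H => Pel p u ∧
      Subgroup.centralizer ({u} : Set H) = ⊤).card with hq
    have h7 : ∑ u : H, (if Pel p u then frc p ρ u else 0) = (q : K) * fr p ρ + ∑ x, (f x : K) := by
      have h8 : ∀ u : H, (if Pel p u then frc p ρ u else 0) =
          (if (Pel p u ∧ Subgroup.centralizer ({u} : Set H) = ⊤) then fr p ρ else 0) + (f u : K) := by
        intro u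
        rw [← hf]
        by_cases h9 : Subgroup.centralizer ({u} : Set H) = ⊤
        · by_cases h10 : Pel p u
          · rw [if_pos h10, if_pos ⟨h10, h9⟩, if_neg (fun h => h.2 h9), add_zero, frc_top ρ h9]
          · rw [if_neg h10, if_neg (fun h => h10 h.1), if_neg (fun h => h10 h.1), add_zero]
        · by_cases h10 : Pel p u
          · rw [if_pos h10, if_neg (fun h => h9 h.2), if_pos ⟨h10, h9⟩, zero_add]
          · rw [if_neg h10, if_neg (fun h => h10 h.1), if_neg (fun h => h10 h.1), add_zero]
      rw [Finset.sum_congr rfl fun u _ => h8 u, Finset.sum_add_distrib, ← Finset.sum_filter,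
        Finset.sum_const, nsmul_eq_mul]
    rw [h7] at hz
    -- the number of the central p-elements
    have h8 : q ≠ 0 ∧ q.Coprime (ordCompl[p] n) := by
      let Z : Subgroup H :=
        { carrier := {u | Pel p u ∧ Subgroup.centralizer ({u} : Set H) = ⊤}
          mul_mem' := by
            rintro a b ⟨⟨i, hi⟩, ha⟩ ⟨⟨j, hj⟩, hb⟩
            have hc : ∀ y, y * a = a * y := fun y => by
              rw [← Subgroup.mem_centralizer_singleton_iff, ha]
              exact Subgroup.mem_top y
            have hd : ∀ y, y * b = b * y := fun y => by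
              rw [← Subgroup.mem_centralizer_singleton_iff, hb]
              exact Subgroup.mem_top y
            refine ⟨⟨i + j, ?_⟩, ?_⟩
            · have h9 : Commute a b := (hc b).symm
              rw [h9.mul_pow, pow_add, pow_mul, hi, one_pow, one_mul, mul_comm, pow_mul, hj,
                one_pow]
            · rw [Subgroup.eq_top_iff']
              intro y
              rw [Subgroup.mem_centralizer_singleton_iff, ← mul_assoc, hc, mul_assoc, hd,
                mul_assoc]
          one_mem' := ⟨⟨0, one_pow _⟩, by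
            rw [Subgroup.eq_top_iff']
            intro y
            rw [Subgroup.mem_centralizer_singleton_iff, mul_one, one_mul]⟩
          inv_mem' := by
            rintro a ⟨⟨i, hi⟩, ha⟩
            refine ⟨⟨i, by rw [inv_pow, hi, inv_one]⟩, ?_⟩
            rw [Subgroup.eq_top_iff']
            intro y
            have hc : ∀ y, y * a = a * y := fun y => by
              rw [← Subgroup.mem_centralizer_singleton_iff, ha]
              exact Subgroup.mem_top y
            rw [Subgroup.mem_centralizer_singleton_iff]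
            have h9 : Commute y a := hc y
            exact h9.inv_right.eq }
      have hZ : Nat.card ↥Z = q := by
        rw [hq, Nat.card_eq_fintype_card, Fintype.card_subtype]
        congr 1
        ext u
        simp only [Finset.mem_filter, Finset.mem_univ, true_and]
        exact Iff.rfl
      have hZp : IsPGroup p ↥Z := by
        rintro ⟨x, ⟨i, hi⟩, hx⟩
        exact ⟨i, Subtype.ext hi⟩
      obtain ⟨j, hj⟩ := IsPGroup.iff_card.1 hZp
      rw [← hZ]
      refine ⟨Nat.card_pos.ne', ?_⟩
      rw [hj]
      exact Nat.Coprime.pow_left _ (Nat.coprime_ordCompl hp.out hn0)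
    obtain ⟨w, hw⟩ := h6
    have h9 : (q : K) * fr p ρ = ((ordCompl[p] n : ℕ) : K) *
        ((((ordProj[p] n : ℕ) : ℤ) * z - w : ℤ) : K) := by
      have h10 : (Fintype.card H : K) = ((ordProj[p] n : ℕ) : K) * ((ordCompl[p] n : ℕ) : K) := by
        rw [← Nat.cast_mul, Nat.ordProj_mul_ordCompl_eq_self, ← hn, Nat.card_eq_fintype_card]
      have h11 : ∑ x, (f x : K) = ((ordCompl[p] n : ℕ) : K) * w := by
        rw [← Int.cast_sum, hw, Int.cast_mul, Int.cast_natCast]
      rw [h10, h11] at hz
      have h12 := eq_sub_of_add_eq hz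
      rw [h12, Int.cast_sub, Int.cast_mul, Int.cast_natCast]
      ring
    exact int_of_mul (fr_integral ρ) h8.1 h8.2 h9

/-- **the sum of a character over the p-regular elements is an integral multiple of the p'-part
of the order** -/
theorem fr_int {p : ℕ} [Fact p.Prime] {H : Type*} [Group H] [Fintype H]
    (ρ : H →* Matrix ι ι K) : ∃ z : ℤ, fr p ρ = ((ordCompl[p] (Nat.card H) : ℕ) : K) * z :=
  fr_int_aux _ H ρ rfl

/-- the tensor product of a representation and a dual representation -/
def tdual {H : Type*} [Group H] {κ : Type*} [Fintype κ] [DecidableEq κ] (ρ : H →* Matrix ι ι K)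
    (τ : H →* Matrix κ κ K) : H →* Matrix (ι × κ) (ι × κ) K where
  toFun s := Matrix.kroneckerMap (· * ·) (ρ s) (τ s⁻¹).transpose
  map_one' := by
    rw [inv_one, map_one, map_one, Matrix.transpose_one, Matrix.one_kronecker_one]
  map_mul' s t := by
    rw [mul_inv_rev, map_mul, map_mul, Matrix.transpose_mul, Matrix.mul_kronecker_mul]

open Classical in
/-- **Lemma FI**: `∑ χ(s) ψ(s⁻¹)` over the p-regular elements is an integral multiple of the p'-part
of the order -/
theorem fr_int₂ {p : ℕ} [Fact p.Prime] {H : Type*} [Group H] [Fintype H] {κ : Type*} [Fintype κ]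
    [DecidableEq κ] (ρ : H →* Matrix ι ι K) (τ : H →* Matrix κ κ K) :
    ∃ z : ℤ, ∑ s : H, (if Preg p s then Matrix.trace (ρ s) * Matrix.trace (τ s⁻¹) else 0) =
      ((ordCompl[p] (Nat.card H) : ℕ) : K) * z := by
  obtain ⟨z, hz⟩ := fr_int (p := p) (tdual ρ τ)
  refine ⟨z, ?_⟩
  rw [← hz]
  unfold fr
  refine Finset.sum_congr rfl fun s _ => ?_
  have h1 : Matrix.trace (tdual ρ τ s) = Matrix.trace (ρ s) * Matrix.trace (τ s⁻¹) := by
    change Matrix.trace (Matrix.kroneckerMap (· * ·) (ρ s) (τ s⁻¹).transpose) = _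
    rw [Matrix.trace_kronecker, Matrix.trace_transpose]
  rw [h1]

end

section ir
open MonoidAlgebra
variable {K : Type*} [Field K] [IsAlgClosed K] [CharZero K] {H : Type*} [Group H] [Finite H]

/-- the representation of an irreducible character -/
noncomputable def rpI (i : Ir K H) : H →* Matrix (Fin (dg i)) (Fin (dg i)) K where
  toFun s := wd (single s (1 : K)) i
  map_one' := by
    rw [← one_def, map_one, Pi.one_apply]
  map_mul' s t := by
    rw [← Pi.mul_apply, ← map_mul, single_mul_single, one_mul]

theorem trace_rpI (i : Ir K H) (s : H) : Matrix.trace (rpI i s) = chi i (single s (1 : K)) := rfl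

theorem chO_single {O : Type*} [CommRing O] [Algebra O K] (i : Ir K H) (s : H) :
    chO i (single s (1 : O)) = Matrix.trace (rpI i s) := by
  rw [chO_apply, trace_rpI]
  congr 1
  rw [mapRingHom_single, map_one]

open Classical in
/-- **Lemma FI** for irreducible characters -/
theorem fr_int_chO {p : ℕ} [Fact p.Prime] [Fintype H] {O : Type*} [CommRing O] [Algebra O K]
    (i j : Ir K H) :
    ∃ z : ℤ, ∑ s : H, (if Preg p s then chO i (single s (1 : O)) * chO j (single s⁻¹ (1 : O)) else 0)
      = ((ordCompl[p] (Nat.card H) : ℕ) : K) * z := by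
  obtain ⟨z, hz⟩ := fr_int₂ (p := p) (rpI i) (rpI j)
  refine ⟨z, ?_⟩
  rw [← hz]
  simp only [chO_single]

end ir

end Pool.Agent.Lib.P0c8ca5.Ex
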