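import Mathlib
import Pool.Agent.Lib.P0c8ca5V.GapM
import Pool.Agent.Lib.P0c8ca5V.GapT
import Pool.Agent.Lib.P0c8ca5N.TrA

/-!
# Ge: Navarro's equality for a p-group extension from the weight conjecture and small numbers
-/

namespace Pool.Agent.Lib.P0c8ca5.Ex

open MonoidAlgebra GapMAux

theorem gap_ext {p : ℕ} {k : Type*} [Field k] {A : Type*} [Group A] [Finite A] [Fact p.Prime]
    [CharP k p] [IsAlgClosed k] {G : Subgroup A} [hG : G.Normal] (hp : IsPGroup p (A ⧸ G))
    {e : MonoidAlgebra k A} (he : IsBlock G e) (hinv : InvBy ⊤ e) (h0 : gap p G G e = 0)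
    (hl : Nat.card (Quotient (irrInvSetoid (⊤ : Subgroup ↥G) ⊤ (dn G e))) < p) :
    gap p G ⊤ e = 0 := by
  classical
  have : Fintype A := Fintype.ofFinite A
  have hp' : ∀ x : A, ∃ n : ℕ, x ^ p ^ n ∈ G := by
    intro x
    obtain ⟨n, hn⟩ := hp (QuotientGroup.mk x)
    refine ⟨n, ?_⟩
    rwa [← QuotientGroup.mk_pow, QuotientGroup.eq_one_iff] at hn
  have hfinW : Finite (Wt p G e) := finite_Wt he hinv
  have : Finite (IrX G e) := inferInstance
  have : Fintype (IrX G e) := Fintype.ofFinite _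
  have : Fintype (WtC p G e) := Fintype.ofFinite _
  have e1 : Nat.card {x : IrX G e // G ≤ stX (G := G) hinv x} = Nat.card (IrX G e) :=
    Nat.card_congr (Equiv.subtypeUnivEquiv (fun x => G_le_stX hinv x))
  have e2 : Nat.card {x : WtC p G e // G ≤ stZ (p := p) he hinv x} = Nat.card (WtC p G e) :=
    Nat.card_congr (Equiv.subtypeUnivEquiv (fun x => G_le_stZ he hinv x))
  have hX : Nat.card (IrX G e) < p := by
    rw [card_irr_eq, dn_card_irr] at hl
    exact hl
  rw [gap_fixed (le_refl G) hp' he hinv, e1, e2, sub_eq_zero] at h0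
  have hc : Nat.card (IrX G e) = Nat.card (WtC p G e) := by exact_mod_cast h0
  have hW : Nat.card (WtC p G e) < p := hc ▸ hX
  rw [gap_fixed (le_top : G ≤ ⊤) hp' he hinv]
  let _ := actX (G := G) hinv
  let _ := actZ (p := p) he hinv
  have f1 : Nat.card {x : IrX G e // (⊤ : Subgroup A) ≤ stX (G := G) hinv x}
      = Nat.card (IrX G e) :=
    Nat.card_congr (Equiv.subtypeUnivEquiv (fun x a _ =>
      small_trivial hp (fun x => G_le_stX hinv x) hX a x))
  have f2 : Nat.card {x : WtC p G e // (⊤ : Subgroup A) ≤ stZ (p := p) he hinv x}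
      = Nat.card (WtC p G e) :=
    Nat.card_congr (Equiv.subtypeUnivEquiv (fun x a _ =>
      small_trivial hp (fun x => G_le_stZ he hinv x) hW a x))
  rw [f1, f2, hc, sub_self]

end Pool.Agent.Lib.P0c8ca5.Ex
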