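import Mathlib
import Pool.Agent.Lib.P0c8ca5Ex.Wa
import Pool.Agent.Lib.P0c8ca5C.DzDown
import Pool.Agent.Lib.P0c8ca5P.FrF
import Pool.Agent.Lib.P0c8ca5S.Wgt
import Pool.Agent.Lib.P0c8ca5D.TriA

/-!
# Wb: the weights of `b` belong to the conjugates of `D`

PROOF of `wt_conj`. `φ` is a block of defect zero of `N̄ = NQ Q` with `φ * proj Q b = φ`. `U = sec (CD Q) Q` (the image of `C(Q)`), normal in `N̄`. `resS C(Q) b` is the sum of the blocks `c` of `C(Q)` with `resS C(Q) b * c = c`, `proj Q b = proj Q (resS C(Q) b)`, so some such `c` has `φ * C ≠ 0`, `C = proj Q c`. By `lb_dfg` `c` has a defect group `D' = cg g D ≥ Q`. Suppose `Q ≠ D'`.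
For `x` supported on `U` the element `trK U x * C` is nilpotent: `x = proj Q x'`, `x'` supported on `C(Q)`, `z = ∑_(q ∈ Y) cj q x'` (`Y` representatives of `C(Q)/Q`) is central in `kC(Q)`, `proj Q z = trK U x`. If `z * c` is not nilpotent, `c = z * w * c` with `w` central, so `c = ∑ cj q (x' * (w * c))` is a relative trace from `Q` and its coefficients on `C(D')` vanish, a contradiction.
Some block `C'` of `U` has `φ * C' ≠ 0`, `C' * C = C'`; it has defect zero (`Cy.dz_down`), so `C' = trK U x` and `C' = trK U x * C` is nilpotent, a contradiction.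
-/

namespace Pool.Agent.Lib.P0c8ca5.Ex

open MonoidAlgebra Rk

variable {p : ℕ} {k : Type*} [Field k] {A : Type*} [Group A]

namespace WbAux

theorem sec_norm' {H N Q : Subgroup A} (hn : H ≤ Subgroup.normalizer (N : Set A)) :
    sec H Q ≤ Subgroup.normalizer (sec N Q : Set (NQ Q)) := by
  have key : ∀ u ∈ sec H Q, ∀ v ∈ sec N Q, u * v * u⁻¹ ∈ sec N Q := by
    intro u hu v hv
    obtain ⟨h, hh, hh', rfl⟩ := mem_sec.1 hu
    obtain ⟨z, hz, hz', rfl⟩ := mem_sec.1 hv
    exact qm_mem_sec (x := h * z * h⁻¹) ((Subgroup.normalizer (Q : Set A)).mul_mem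
        ((Subgroup.normalizer (Q : Set A)).mul_mem hh' hz')
        ((Subgroup.normalizer (Q : Set A)).inv_mem hh'))
        ((Subgroup.mem_normalizer_iff.1 (hn hh) z).1 hz)
  intro u hu
  rw [Subgroup.mem_normalizer_iff]
  intro v
  constructor
  · exact key u hu v
  · intro h1
    have h2 := key u⁻¹ ((sec H Q).inv_mem hu) _ h1
    have e1 : u⁻¹ * (u * v * u⁻¹) * u⁻¹⁻¹ = v := by group
    rwa [e1] at h2

/-- the image of the centralizer is normal -/
theorem top_norm (Q : Subgroup A) :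
    (⊤ : Subgroup (NQ Q)) ≤ Subgroup.normalizer (sec (CD Q) Q : Set (NQ Q)) := by
  intro w _
  obtain ⟨n, hn, rfl⟩ := qm_surj w
  have h1 : Subgroup.normalizer (Q : Set A) ≤ Subgroup.normalizer (CD Q : Set A) := by
    intro g hg
    rw [Subgroup.mem_normalizer_iff]
    have hg' := Subgroup.mem_normalizer_iff.1 hg
    have key : ∀ g ∈ Subgroup.normalizer (Q : Set A), ∀ x ∈ CD Q, g * x * g⁻¹ ∈ CD Q := by
      intro g hg x hx
      rw [Subgroup.mem_centralizer_iff]
      intro q hq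
      have h2 : g⁻¹ * q * g ∈ Q := by
        have h3 := (Subgroup.mem_normalizer_iff.1
          ((Subgroup.normalizer (Q : Set A)).inv_mem hg) q).1 hq
        rwa [inv_inv] at h3
      have h3 := Subgroup.mem_centralizer_iff.1 hx _ h2
      calc q * (g * x * g⁻¹) = g * ((g⁻¹ * q * g) * x) * g⁻¹ := by group
        _ = g * (x * (g⁻¹ * q * g)) * g⁻¹ := by rw [h3]
        _ = g * x * g⁻¹ * q := by group
    intro x
    constructor
    · exact key g hg x
    · intro h
      have h2 := key g⁻¹ ((Subgroup.normalizer (Q : Set A)).inv_mem hg) _ h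
      have e1 : g⁻¹ * (g * x * g⁻¹) * g⁻¹⁻¹ = x := by group
      rwa [e1] at h2
  exact sec_norm' h1 (qm_mem_sec hn hn)

/-- an element supported on the centralizer of `Q` is invariant under `Q` -/
theorem inv_of_supp {Q : Subgroup A} {x : MonoidAlgebra k A} (hx : SuppIn (CD Q) x) :
    InvBy Q x := by
  rw [invBy_iff_commute]
  intro g hg
  have h1 : InvBy (CD Q) (single g (1 : k)) := by
    rw [invBy_iff_commute]
    intro h hh
    have h2 := Subgroup.mem_centralizer_iff.1 hh g hg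
    change single h 1 * single g 1 = single g 1 * single h 1
    rw [single_mul_single, single_mul_single, h2]
  exact (commute_of hx h1).symm

section
variable [Fintype A]

open Classical in
theorem sum_filter_eq {M : Type*} [AddCommMonoid M] {Q C : Subgroup A} {X : Finset A}
    (hX : Reps X ⊤ Q) (hQC : Q ≤ C) (F : A → M) (hF : ∀ q, ∀ d ∈ Q, F (q * d) = F q)
    {g : A} (hg : g ∈ C) :
    ∑ q ∈ X.filter (fun q => q ∈ C), F (g * q) = ∑ q ∈ X.filter (fun q => q ∈ C), F q := by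
  have : Fintype (A ⧸ Q) := Fintype.ofFinite _
  have hiff : ∀ q, ∀ d ∈ Q, (q * d ∈ C ↔ q ∈ C) := fun q d hd =>
    C.mul_mem_cancel_right (hQC hd)
  rw [Finset.sum_filter, Finset.sum_filter,
    BrAAux.sum_reps hX (fun q => if q ∈ C then F (g * q) else 0) (fun q d hd => by
      simp only [hiff q d hd]
      rw [← mul_assoc, hF _ d hd]),
    BrAAux.sum_reps hX (fun q => if q ∈ C then F q else 0) (fun q d hd => by
      simp only [hiff q d hd, hF q d hd])]
  refine Fintype.sum_equiv (MulAction.toPerm g) _ _ fun t => ?_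
  obtain ⟨d, hd⟩ : ∃ d ∈ Q, (g • t : A ⧸ Q).out = g * t.out * d := by
    have h1 : ((g * t.out : A) : A ⧸ Q) = ((g • t : A ⧸ Q).out : A ⧸ Q) := by
      rw [QuotientGroup.out_eq']
      conv_rhs => rw [← QuotientGroup.out_eq' t]
      rfl
    exact ⟨(g * t.out)⁻¹ * (g • t : A ⧸ Q).out, QuotientGroup.eq.1 h1, by group⟩
  change _ = if (g • t : A ⧸ Q).out ∈ C then F (g • t : A ⧸ Q).out else 0
  rw [hd.2, hF _ d hd.1, hiff _ d hd.1]
  have h2 : g * t.out ∈ C ↔ t.out ∈ C := C.mul_mem_cancel_left hg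
  simp only [h2]

open Classical in
/-- the relative trace from `Q` to its centralizer -/
theorem z_mem {Q : Subgroup A} {X : Finset A} (hX : Reps X ⊤ Q) (hQC : Q ≤ CD Q)
    {x : MonoidAlgebra k A} (hx : SuppIn (CD Q) x) :
    ∑ q ∈ X.filter (fun q => q ∈ CD Q), cj q x ∈ fixAlg k (CD Q) (CD Q) := by
  rw [mem_fixAlg]
  constructor
  · apply SuppIn.sum
    intro q hq
    exact hx.cj (Subgroup.le_normalizer (Finset.mem_filter.1 hq).2)
  · rw [invBy_iff_cj]
    intro g hg
    rw [cj_sum]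
    have h1 := sum_filter_eq hX hQC (fun q => cj q x) (fun q d hd => by
      rw [← cj_cj, invBy_iff_cj.1 (inv_of_supp hx) d hd]) hg
    rw [← h1]
    exact Finset.sum_congr rfl fun q _ => cj_cj g q x

open Classical in
/-- a relative trace from a smaller group vanishes on the centralizer of `D'` -/
theorem tr_vanish [Fact p.Prime] [CharP k p] {Q D' : Subgroup A} (hQD : Q ≤ D') (hne : Q ≠ D')
    (hD' : IsPGroup p D') (hDC : D' ≤ CD Q) {X : Finset A} (hX : Reps X ⊤ Q)
    {t : MonoidAlgebra k A} (ht : InvBy Q t) {y : A} (hy : y ∈ CD D') :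
    (∑ q ∈ X.filter (fun q => q ∈ CD Q), cj q t).coeff y = 0 := by
  rw [coeff_sum, Finsupp.finsetSum_apply, Finset.sum_filter]
  have h0 := BrAAux.sum_fixed (p := p) hX hD' (fun q => if q ∈ CD Q then (cj q t).coeff y else 0)
    (fun q d hd => by
      have h1 : q * d ∈ CD Q ↔ q ∈ CD Q := (CD Q).mul_mem_cancel_right (hDC (hQD hd))
      simp only [h1]
      rw [← cj_cj, invBy_iff_cj.1 ht d hd])
    (fun u hu q => by
      have h1 : u * q ∈ CD Q ↔ q ∈ CD Q := (CD Q).mul_mem_cancel_left (hDC hu)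
      simp only [h1]
      have h2 : (cj (u * q) t).coeff y = (cj q t).coeff y := by
        rw [coeff_cj, coeff_cj]
        congr 1
        have h3 := Subgroup.mem_centralizer_iff.1 hy u hu
        calc (u * q)⁻¹ * y * (u * q) = q⁻¹ * u⁻¹ * (y * u) * q := by group
          _ = q⁻¹ * u⁻¹ * (u * y) * q := by rw [← h3]
          _ = q⁻¹ * y * q := by group
      rw [h2])
  rw [h0]
  apply Finset.sum_eq_zero
  intro q hq
  exfalso
  apply hne
  have h1 : D' ≤ cg q Q := fun u hu => mem_cg.2 ((Finset.mem_filter.1 hq).2 u hu)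
  apply eq_of_le_of_card hQD
  rw [← card_cg q Q]
  exact Nat.card_le_card_of_injective _ (Subgroup.inclusion_injective h1)

theorem proj_sg {Q : Subgroup A} {a : A} (ha : a ∈ Subgroup.normalizer (Q : Set A)) (r : k) :
    proj Q (single a r) = single (qm Q a ha) r := by
  classical
  ext w
  obtain ⟨n, hn, rfl⟩ := qm_surj w
  rw [coeff_proj, Finset.sum_eq_single a]
  · rw [coeff_single, coeff_single, Finsupp.single_eq_same, Finsupp.single_apply]
    have h1 : (qm Q a ha = qm Q n hn) ↔ n⁻¹ * a ∈ Q := by rw [eq_comm, qm_eq_iff]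
    simp only [h1]
  · intro x _ hx
    rw [coeff_single, Finsupp.single_apply, if_neg (Ne.symm hx)]
    split_ifs <;> rfl
  · intro h
    exact absurd (Finset.mem_univ _) h

theorem exists_lift {Q : Subgroup A} {x : MonoidAlgebra k (NQ Q)}
    (hx : SuppIn (sec (CD Q) Q) x) : ∃ x' : MonoidAlgebra k A, SuppIn (CD Q) x' ∧
      proj Q x' = x := by
  classical
  have : Fintype (NQ Q) := Fintype.ofFinite _
  have h1 : ∀ w : sec (CD Q) Q, ∃ a ∈ CD Q, ∃ ha, (w : NQ Q) = qm Q a ha :=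
    fun w => mem_sec.1 w.2
  choose a ha hn hw using h1
  have : Fintype (sec (CD Q) Q) := Fintype.ofFinite _
  refine ⟨∑ w : sec (CD Q) Q, single (a w) (x.coeff w), ?_, ?_⟩
  · apply SuppIn.sum
    intro w _ y hy
    rw [coeff_single, Finsupp.single_apply] at hy
    split_ifs at hy with h2
    · rw [← h2]
      exact ha w
    · exact absurd rfl hy
  · rw [WSumAux.proj_sum']
    ext v
    rw [coeff_sum, Finsupp.finsetSum_apply]
    by_cases hv : v ∈ sec (CD Q) Q
    · rw [Finset.sum_eq_single (⟨v, hv⟩ : sec (CD Q) Q)]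
      · rw [proj_sg (hn _), ← hw, coeff_single, Finsupp.single_eq_same]
      · intro w _ hne
        rw [proj_sg (hn _), ← hw, coeff_single, Finsupp.single_apply, if_neg]
        exact fun h => hne (Subtype.ext h)
      · intro h
        exact absurd (Finset.mem_univ _) h
    · have h2 : x.coeff v = 0 := by
        by_contra h
        exact hv (hx v h)
      rw [h2]
      apply Finset.sum_eq_zero
      intro w _
      rw [proj_sg (hn _), ← hw, coeff_single, Finsupp.single_apply, if_neg]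
      intro h
      apply hv
      rw [← h]
      exact w.2

open Classical in
theorem proj_z {Q : Subgroup A} [Fintype (NQ Q)] {X : Finset A} (hX : Reps X ⊤ Q)
    (hQC : Q ≤ CD Q) (x' : MonoidAlgebra k A) :
    proj Q (∑ q ∈ X.filter (fun q => q ∈ CD Q), cj q x') = trK (sec (CD Q) Q) (proj Q x') := by
  have hn : ∀ q ∈ X.filter (fun q => q ∈ CD Q), q ∈ Subgroup.normalizer (Q : Set A) := fun q hq =>
    Subgroup.centralizer_le_normalizer _ (Finset.mem_filter.1 hq).2
  rw [WSumAux.proj_sum', trK]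
  refine Finset.sum_bij (fun q hq => qm Q q (hn q hq)) ?_ ?_ ?_ ?_
  · intro q hq
    exact Finset.mem_filter.2 ⟨Finset.mem_univ _, qm_mem_sec _ (Finset.mem_filter.1 hq).2⟩
  · intro q hq q' hq' h
    rw [qm_eq_iff] at h
    obtain ⟨r, _, hr⟩ := hX.uniq q' (Subgroup.mem_top _)
    rw [hr q ⟨(Finset.mem_filter.1 hq).1, h⟩,
      hr q' ⟨(Finset.mem_filter.1 hq').1, by rw [inv_mul_cancel]; exact Q.one_mem⟩]
  · intro w hw
    obtain ⟨y, hy, hy', rfl⟩ := mem_sec.1 (Finset.mem_filter.1 hw).2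
    obtain ⟨r, ⟨hr1, hr2⟩, _⟩ := hX.uniq y (Subgroup.mem_top _)
    have hrC : r ∈ CD Q := by
      have h1 := (CD Q).mul_mem hy ((CD Q).inv_mem (hQC hr2))
      have e1 : y * (r⁻¹ * y)⁻¹ = r := by group
      rwa [e1] at h1
    exact ⟨r, Finset.mem_filter.2 ⟨hr1, hrC⟩, qm_eq_iff.2 hr2⟩
  · intro q hq
    exact Fr.proj_cj _ _

/-- the traces below the projection of `c` are nilpotent -/
theorem nilp [Fact p.Prime] [CharP k p] [IsAlgClosed k] {Q D' : Subgroup A} (hQD : Q ≤ D')
    (hne : Q ≠ D') (hD' : IsPGroup p D') (hDC : D' ≤ CD Q) {c : MonoidAlgebra k A}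
    (hc : IsBlock (CD Q) c) (hbr : HasBr D' c) [Fintype (NQ Q)] {x : MonoidAlgebra k (NQ Q)}
    (hx : SuppIn (sec (CD Q) Q) x) :
    IsNilpotent (trK (sec (CD Q) Q) x * proj Q c) := by
  classical
  have hQC : Q ≤ CD Q := hQD.trans hDC
  have hQ : IsPGroup p Q := hD'.to_le hQD
  obtain ⟨x', hx', rfl⟩ := exists_lift hx
  obtain ⟨X, hX⟩ := exists_reps (A := A) (K := ⊤) (D := Q) le_top
  set z := ∑ q ∈ X.filter (fun q => q ∈ CD Q), cj q x' with hz
  have hzm : z ∈ fixAlg k (CD Q) (CD Q) := z_mem hX hQC hx'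
  have hpz : proj Q z = trK (sec (CD Q) Q) (proj Q x') := proj_z hX hQC x'
  have hA : IsArtinianRing (fixAlg k (CD Q) (CD Q)) := IsArtinianRing.of_finite k _
  rcases hc.primIdem.nilp_or_unit ⟨z, hzm⟩ with h | ⟨w, hw⟩
  · have h2 := h.map (projHom (p := p) hQC hQ rfl)
    obtain ⟨n, hn⟩ := h2
    refine ⟨n, ?_⟩
    have h3 := congrArg Subtype.val hn
    rw [← hpz, ← proj_mul hQ ((mem_fixAlg.1 hzm).2.mono hQC) (hc.invBy.mono hQC)]
    exact h3
  · exfalso
    have hw' : z * w.1 * c = c := congrArg Subtype.val hw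
    obtain ⟨y, hy, hcy⟩ := hbr
    apply hcy
    have hwm := mem_fixAlg.1 w.2
    have hwc : w.1 * c ∈ fixAlg k (CD Q) (CD Q) := Subalgebra.mul_mem _ w.2 hc.mem
    have h1 : c = ∑ q ∈ X.filter (fun q => q ∈ CD Q), cj q (x' * (w.1 * c)) := by
      conv_lhs => rw [← hw', mul_assoc, hz, Finset.sum_mul]
      refine Finset.sum_congr rfl fun q hq => ?_
      rw [cj_mul, invBy_iff_cj.1 (mem_fixAlg.1 hwc).2 q (Finset.mem_filter.1 hq).2]
    rw [h1]
    exact tr_vanish hQD hne hD' hDC hX (inv_of_supp (hx'.mul (mem_fixAlg.1 hwc).1)) hy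

end

end WbAux

open WbAux

section
variable [Fact p.Prime] [CharP k p] [IsAlgClosed k] [Fintype A]
variable {b f i : MonoidAlgebra k A} {D : Subgroup A}

theorem wt_conj (h : Src p b D f i) (hE : ¬ p ∣ eN D f) {Q : Subgroup A} (hQ : IsPGroup p Q)
    {φ : MonoidAlgebra k (NQ Q)} (hφ : IsDZ p (⊤ : Subgroup (NQ Q)) φ)
    (hφb : φ * proj Q b = φ) : ∃ g : A, Q = cg g D := by
  classical
  have : Fintype (NQ Q) := Fintype.ofFinite _
  have hbm := mem_fixAlg.1 h.root.blk.mem
  have hbQ : InvBy Q b := hbm.2.mono le_top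
  set e : MonoidAlgebra k A := resS (CD Q : Set A) b with he
  have hee : e * e = e := by
    rw [he, ← resS_mul hQ hbQ hbQ, h.root.blk.idem]
  have hem : e ∈ fixAlg k (CD Q) (CD Q) := by
    rw [mem_fixAlg]
    refine ⟨fun x hx => ?_, fun g hg x => ?_⟩
    · by_contra h1
      exact hx (coeff_resS_of_notMem b h1)
    · have h1 : g * x * g⁻¹ ∈ (CD Q : Set A) ↔ x ∈ (CD Q : Set A) :=
        ((Subgroup.mem_normalizer_iff.1 (Subgroup.le_normalizer hg) x)).symm
      rw [he, coeff_resS, coeff_resS, hbm.2 g (Subgroup.mem_top g) x]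
      simp only [h1]
  have hpe : proj Q b = proj Q e := (Ps.WgtAux.proj_resS hQ hbQ le_rfl).symm
  -- the blocks of the centralizer
  let Bl : Finset (MonoidAlgebra k A) :=
    ((finite_isBlock (k := k) (CD Q)).toFinset).filter (fun c => c * e ≠ 0)
  have hBl : ∀ c, c ∈ Bl ↔ IsBlock (CD Q) c ∧ c * e ≠ 0 := by
    intro c
    rw [Finset.mem_filter, Set.Finite.mem_toFinset]
    rfl
  have hsum := WSumAux.sum_blocks (p := p) hem hee Bl hBl
  have h1 : ∑ c ∈ Bl, φ * proj Q c ≠ 0 := by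
    rw [← Finset.mul_sum, ← WSumAux.proj_sum', hsum, ← hpe, hφb]
    exact hφ.blk.ne_zero
  obtain ⟨c, hcB, hc0⟩ := Finset.exists_ne_zero_of_sum_ne_zero h1
  obtain ⟨hc, hce⟩ := (hBl c).1 hcB
  have hec : e * c = c := by
    rcases hc.mul_eq hem hee with h2 | h2
    · exact absurd (by rw [commute_of hc.suppIn (mem_fixAlg.1 hem).2, h2]) hce
    · exact h2
  obtain ⟨g, hQg, hdfg⟩ := lb_dfg h hE hQ hc hec
  refine ⟨g, ?_⟩
  by_contra hne
  have hQC : Q ≤ CD Q := hQg.trans hdfg.le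
  -- the projection of `c`
  set C : MonoidAlgebra k (NQ Q) := proj Q c with hC
  have hcQ : InvBy Q c := hc.invBy.mono hQC
  have hCC : C * C = C := by
    rw [hC, ← proj_mul hQ hcQ hcQ, hc.idem]
  have hCm : C ∈ fixAlg k (sec (CD Q) Q) (sec (CD Q) Q) :=
    mem_fixAlg.2 ⟨proj_suppIn hc.suppIn Q, proj_invBy' hc.invBy⟩
  let Bl' : Finset (MonoidAlgebra k (NQ Q)) :=
    ((finite_isBlock (k := k) (sec (CD Q) Q)).toFinset).filter (fun c => c * C ≠ 0)
  have hBl' : ∀ c, c ∈ Bl' ↔ IsBlock (sec (CD Q) Q) c ∧ c * C ≠ 0 := by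
    intro c
    rw [Finset.mem_filter, Set.Finite.mem_toFinset]
    rfl
  have hsum' := WSumAux.sum_blocks (p := p) hCm hCC Bl' hBl'
  have h2 : ∑ c ∈ Bl', φ * c ≠ 0 := by
    rw [← Finset.mul_sum, hsum']
    exact hc0
  obtain ⟨C', hC'B, hφC'⟩ := Finset.exists_ne_zero_of_sum_ne_zero h2
  obtain ⟨hC', hC'C⟩ := (hBl' C').1 hC'B
  have hCC' : C' * C = C' := by
    rw [commute_of hC'.suppIn (mem_fixAlg.1 hCm).2]
    rcases hC'.mul_eq hCm hCC with h3 | h3
    · exact absurd (by rw [commute_of hC'.suppIn (mem_fixAlg.1 hCm).2, h3]) hC'C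
    · exact h3
  have hdz : IsDZ p (sec (CD Q) Q) C' := Cy.dz_down le_top (top_norm Q) hφ hC' hφC'
  obtain ⟨x, hx, -, htr⟩ := Dz.exists_tr hdz
  obtain ⟨n, hn⟩ := nilp hQg hne hdfg.isPGroup hdfg.le hc hdfg.br hx
  rw [← htr, ← hC, hCC'] at hn
  apply hC'.ne_zero
  have h4 : ∀ m : ℕ, C' ^ (m + 1) = C' := by
    intro m
    induction m with
    | zero => simp
    | succ m ih => rw [pow_succ, ih, hC'.idem]
  rw [← h4 n, pow_succ, hn, zero_mul]

end

end Pool.Agent.Lib.P0c8ca5.Ex
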