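import Mathlib
import Pool.Agent.Lib.P0c8ca5Ex.Jd
import Pool.Agent.Lib.P0c8ca5N.WSum
import Pool.Agent.Lib.P0c8ca5.Official

/-!
# Wd: the number of blocks of defect zero of `N(D)/D` below `b`

PROOF of `wt_count`. `J = proj D i`, `F = proj D f`, `U = sec (CD D) D`. For `φ` in the set: `φ * proj D b = φ` and `proj D b = ∑ cj n F` over the conjugates of `F` (`resS C(D) b` is the sum of the blocks of `C(D)` below, all conjugate to `f` under `N(D)`: `fm_top`), so `φ * F ≠ 0` (`φ` is central) and `φ * J ≠ 0` (`F` is in the ideal generated by `J`, `dz_gen`). The `φ * J` are orthogonal nonzero idempotents of `J * kN̄ * J` for different `φ`, so linearly independent. `J * kN̄ * J` is spanned by the `J * x * J`, `x ∈ N̄`; `J x J = (J * cj x J) x` is zero if `x` is not in the image of `St D f` (`F * cj x F = 0`), and for `x = u y` (`u ∈ U`, `y` a representative of the coset) `J * u * cj y J` is in a line (`dz_line`, `j' = cj y J`). So the dimension is at most the number `eN D f` of cosets.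
-/

namespace Pool.Agent.Lib.P0c8ca5.Ex

open MonoidAlgebra Rk

variable {p : ℕ} {k : Type*} [Field k] {A : Type*} [Group A]

namespace WdAux

/-- `proj` and conjugation -/
theorem proj_cj [Fintype A] {Q : Subgroup A} (a : MonoidAlgebra k A) {n : A}
    (hn : n ∈ Subgroup.normalizer (Q : Set A)) :
    proj Q (cj n a) = cj (qm Q n hn) (proj Q a) := by
  classical
  ext w
  obtain ⟨m, hm, rfl⟩ := qm_surj w
  have hn' := Subgroup.mem_normalizer_iff.1 hn
  have hm2 : n⁻¹ * m * n ∈ Subgroup.normalizer (Q : Set A) :=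
    (Subgroup.normalizer (Q : Set A)).mul_mem
      ((Subgroup.normalizer (Q : Set A)).mul_mem
        ((Subgroup.normalizer (Q : Set A)).inv_mem hn) hm) hn
  have e1 : (qm Q n hn)⁻¹ * qm Q m hm * qm Q n hn = qm Q (n⁻¹ * m * n) hm2 := rfl
  rw [coeff_cj, e1, coeff_proj, coeff_proj]
  refine (Fintype.sum_equiv (MulAut.conj n).toEquiv _ _ (fun y => ?_)).symm
  change (if (n⁻¹ * m * n)⁻¹ * y ∈ Q then a.coeff y else 0)
    = if m⁻¹ * (n * y * n⁻¹) ∈ Q then (cj n a).coeff (n * y * n⁻¹) else 0
  have e2 : m⁻¹ * (n * y * n⁻¹) = n * ((n⁻¹ * m * n)⁻¹ * y) * n⁻¹ := by group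
  have e3 : n⁻¹ * (n * y * n⁻¹) * n = y := by group
  rw [e2, coeff_cj, e3]
  by_cases h : (n⁻¹ * m * n)⁻¹ * y ∈ Q
  · rw [if_pos h, if_pos ((hn' _).1 h)]
  · rw [if_neg h, if_neg (fun h' => h ((hn' _).2 h'))]

/-- the projection depends only on the restriction to the centralizer -/
theorem proj_res [Fact p.Prime] [CharP k p] [Fintype A] {D : Subgroup A} (hD : IsPGroup p D)
    {f : MonoidAlgebra k A} (hf : InvBy D f) : proj D (resS (CD D : Set A) f) = proj D f := by
  classical
  ext w
  obtain ⟨n, hn, rfl⟩ := qm_surj w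
  have hn' := Subgroup.mem_normalizer_iff.1 hn
  rw [coeff_proj, coeff_proj]
  rw [sum_conj_eq (p := p) hD (fun x => if n⁻¹ * x ∈ D then f.coeff x else 0) ?_
    (Finset.univ.filter (fun x => x ∈ Subgroup.centralizer (D : Set A))) (fun x => by simp)]
  · rw [Finset.sum_filter]
    refine Finset.sum_congr rfl fun x _ => ?_
    by_cases hx : x ∈ Subgroup.centralizer (D : Set A)
    · rw [if_pos hx, coeff_resS_of_mem _ hx]
    · rw [if_neg hx, coeff_resS_of_notMem _ hx]
      split_ifs <;> rfl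
  · intro d hd x
    have h5 : n⁻¹ * d * n ∈ D := by
      apply (hn' _).2
      have e2 : n * (n⁻¹ * d * n) * n⁻¹ = d := by group
      rw [e2]; exact hd
    have hcond : n⁻¹ * (d * x * d⁻¹) ∈ D ↔ n⁻¹ * x ∈ D := by
      have e1 : n⁻¹ * (d * x * d⁻¹) = (n⁻¹ * d * n) * (n⁻¹ * x) * d⁻¹ := by group
      rw [e1, D.mul_mem_cancel_right (D.inv_mem hd), D.mul_mem_cancel_left h5]
    simp only [hcond]
    rw [hf d hd x]

theorem norm_CD {D : Subgroup A} {n : A} (hn : n ∈ Subgroup.normalizer (D : Set A)) :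
    cg n (CD D) = CD D := by
  have hn' := Subgroup.mem_normalizer_iff.1 hn
  have hn2 := Subgroup.mem_normalizer_iff.1 ((Subgroup.normalizer (D : Set A)).inv_mem hn)
  ext x
  rw [mem_cg, Subgroup.mem_centralizer_iff, Subgroup.mem_centralizer_iff]
  constructor
  · intro h y hy
    have h0 : n⁻¹ * y * n ∈ D := by
      have := (hn2 y).1 hy
      rwa [inv_inv] at this
    have h1 := h _ h0
    calc y * x = n * ((n⁻¹ * y * n) * (n⁻¹ * x * n)) * n⁻¹ := by group
      _ = n * ((n⁻¹ * x * n) * (n⁻¹ * y * n)) * n⁻¹ := by rw [h1]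
      _ = x * y := by group
  · intro h y hy
    have h1 := h _ ((hn' y).1 hy)
    calc y * (n⁻¹ * x * n) = n⁻¹ * ((n * y * n⁻¹) * x) * n := by group
      _ = n⁻¹ * (x * (n * y * n⁻¹)) * n := by rw [h1]
      _ = (n⁻¹ * x * n) * y := by group

theorem norm_sec {D : Subgroup A} (w : NQ D) : cg w (sec (CD D) D) = sec (CD D) D := by
  obtain ⟨n, hn, rfl⟩ := qm_surj w
  rw [← sec_cg hn, norm_CD hn]

theorem primIn_cj {D : Subgroup A} {j : MonoidAlgebra k (NQ D)}
    (hj : PrimIn (fixAlg k (sec (CD D) D) ⊥) j) (w : NQ D) :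
    PrimIn (fixAlg k (sec (CD D) D) ⊥) (cj w j) := by
  have hS : ∀ (v : NQ D) (a : MonoidAlgebra k (NQ D)), SuppIn (sec (CD D) D) a →
      SuppIn (sec (CD D) D) (cj v a) :=
    fun v a ha => ha.cj (cg_eq_self_iff.1 (norm_sec v))
  refine ⟨DzAAux.mem_iff.2 (hS w j (DzAAux.mem_iff.1 hj.mem)), ?_, ?_, ?_⟩
  · rw [← cj_mul, hj.idem]
  · intro h
    apply hj.ne
    rw [← cj_inv_cj w j, h, cj_zero]
  · intro e he hee h1 h2
    have e1 : cj w⁻¹ e * cj w⁻¹ e = cj w⁻¹ e := by rw [← cj_mul, hee]
    have e2 : j * cj w⁻¹ e = cj w⁻¹ e := by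
      nth_rewrite 1 [← cj_inv_cj w j]
      rw [← cj_mul, h1]
    have e3 : cj w⁻¹ e * j = cj w⁻¹ e := by
      nth_rewrite 1 [← cj_inv_cj w j]
      rw [← cj_mul, h2]
    rcases hj.prim _ (DzAAux.mem_iff.2 (hS w⁻¹ e (DzAAux.mem_iff.1 he))) e1 e2 e3 with h | h
    · left; rw [← cj_cj_inv w e, h, cj_zero]
    · right; rw [← cj_cj_inv w e, h]

section
variable [Fact p.Prime] [CharP k p] [IsAlgClosed k] [Fintype A]
variable {b f i : MonoidAlgebra k A} {D : Subgroup A}

/-- a block of `N(D)/D` below `b` does not kill the image of `f` -/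
theorem phi_F (h : Root p b D f) {φ : MonoidAlgebra k (NQ D)}
    (hφ : IsBlock (⊤ : Subgroup (NQ D)) φ) (hb : φ * proj D b = φ) : φ * proj D f ≠ 0 := by
  classical
  have hpD := h.dfg.isPGroup
  have hbD : InvBy D b := h.blk.invBy.mono le_top
  set s := resS (CD D : Set A) b with hs
  have hss : s * s = s := by
    rw [hs, ← resS_mul (p := p) hpD hbD hbD, h.blk.idem]
  have hsm : s ∈ fixAlg k (CD D) (CD D) := by
    rw [mem_fixAlg]
    refine ⟨?_, ?_⟩
    · intro x hx
      by_contra h0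
      exact hx (coeff_resS_of_notMem b h0)
    · intro g hg x
      rw [hs, coeff_resS, coeff_resS, h.blk.invBy g (Subgroup.mem_top g) x]
      have h1 : g * x * g⁻¹ ∈ (CD D : Set A) ↔ x ∈ (CD D : Set A) := by
        constructor
        · intro h
          have h2 := (CD D).mul_mem ((CD D).mul_mem ((CD D).inv_mem hg) h) hg
          have h3 : g⁻¹ * (g * x * g⁻¹) * g = x := by group
          rw [h3] at h2
          exact h2
        · intro h
          exact (CD D).mul_mem ((CD D).mul_mem hg h) ((CD D).inv_mem hg)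
      by_cases hx : x ∈ (CD D : Set A)
      · rw [if_pos hx, if_pos (h1.2 hx)]
      · rw [if_neg hx, if_neg (fun h' => hx (h1.1 h'))]
  let Bl : Finset (MonoidAlgebra k A) :=
    ((finite_isBlock (k := k) (CD D)).toFinset).filter (fun f => f * s ≠ 0)
  have hBl : ∀ b, b ∈ Bl ↔ IsBlock (CD D) b ∧ b * s ≠ 0 := by
    intro b
    rw [Finset.mem_filter, Set.Finite.mem_toFinset]
    rfl
  have hsum := WSumAux.sum_blocks (p := p) hsm hss Bl hBl
  have h1 : φ * proj D s = φ := by
    rw [hs, proj_res (p := p) hpD hbD, hb]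
  rw [← hsum, WSumAux.proj_sum', Finset.mul_sum] at h1
  have h2 : ∑ f' ∈ Bl, φ * proj D f' ≠ 0 := by
    rw [h1]
    exact hφ.ne_zero
  obtain ⟨f', hf', hf'0⟩ := Finset.exists_ne_zero_of_sum_ne_zero h2
  obtain ⟨hf'b, hf's⟩ := (hBl f').1 hf'
  have hsf' : s * f' = f' := by
    rcases hf'b.mul_eq hsm hss with h3 | h3
    · exfalso
      apply hf's
      rw [commute_of hf'b.suppIn (mem_fixAlg.1 hsm).2, h3]
    · exact h3
  obtain ⟨n, hn, hnf⟩ := fm_top h.blk h.dfg h.fblk hf'b h.bf hsf'
  intro h0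
  apply hf'0
  have h4 : cj (qm D n hn) φ = φ := invBy_iff_cj.1 hφ.invBy _ (Subgroup.mem_top _)
  rw [← hnf, proj_cj f hn]
  nth_rewrite 1 [← h4]
  rw [← cj_mul, h0, cj_zero]

/-- a block of `N(D)/D` below `b` does not kill the image of `i` -/
theorem phi_J (h : Src p b D f i) {φ : MonoidAlgebra k (NQ D)}
    (hφ : IsBlock (⊤ : Subgroup (NQ D)) φ) (hb : φ * proj D b = φ) : φ * proj D i ≠ 0 := by
  intro h0
  apply phi_F h.root hφ hb
  have : Fintype (NQ D) := Fintype.ofFinite _
  have hc : ∀ a : MonoidAlgebra k (NQ D), a * φ = φ * a := SrcAux.central hφ.mem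
  have hgen := dz_gen (F_dz h.root) (J_prim h) (J_F h)
  have key : ∀ m ∈ Submodule.span k {y : MonoidAlgebra k (NQ D) |
      ∃ x x' : MonoidAlgebra k (NQ D), SuppIn (sec (CD D) D) x ∧ SuppIn (sec (CD D) D) x' ∧
        y = x * proj D i * x'}, φ * m = 0 := by
    intro m hm
    induction hm using Submodule.span_induction with
    | mem y hy =>
      obtain ⟨x, x', hx, hx', rfl⟩ := hy
      calc φ * (x * proj D i * x') = (φ * x) * proj D i * x' := by simp only [mul_assoc]
        _ = (x * φ) * proj D i * x' := by rw [hc x]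
        _ = x * (φ * proj D i) * x' := by simp only [mul_assoc]
        _ = 0 := by rw [h0, mul_zero, zero_mul]
    | zero => rw [mul_zero]
    | add y z _ _ h1 h2 => rw [mul_add, h1, h2, add_zero]
    | smul c y _ h1 => rw [mul_smul_comm, h1, smul_zero]
  exact key _ hgen

/-- elements outside of the image of the stabilizer give nothing -/
theorem out_zero (h : Src p b D f i) {n : A} (hn : n ∈ Subgroup.normalizer (D : Set A))
    (hnf : n ∉ St D f) : proj D i * single (qm D n hn) (1 : k) * proj D i = 0 := by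
  have hfb := h.root.fblk
  have hpD := h.root.dfg.isPGroup
  have hDC := D_le_CD h.root.com
  have hfD : InvBy D f := hfb.invBy.mono hDC
  have hf' : IsBlock (CD D) (cj n f) := by
    have h1 := isBlock_cg hfb n
    rwa [norm_CD hn] at h1
  have hfD' : InvBy D (cj n f) := hf'.invBy.mono hDC
  have h0 : f * cj n f = 0 := by
    rcases hfb.eq_or_mul_eq_zero hf' with h1 | h1
    · exact absurd (mem_St.2 ⟨hn, h1.symm⟩) hnf
    · exact h1
  have h1 : proj D f * cj (qm D n hn) (proj D f) = 0 := by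
    rw [← proj_cj f hn, ← proj_mul hpD hfD hfD', h0, WSumAux.proj_zero']
  have hJF : proj D i * proj D f = proj D i := by
    have hJ := DzAAux.mem_iff.1 (J_prim h).mem
    rw [commute_of hJ (F_dz h.root).blk.invBy, J_F h]
  have h2 : single (qm D n hn) (1 : k) * proj D f
      = cj (qm D n hn) (proj D f) * single (qm D n hn) (1 : k) := by
    rw [cj, mul_assoc, mul_assoc, single_mul_single, inv_mul_cancel, one_mul]
    change _ = _ * (_ * (1 : MonoidAlgebra k (NQ D)))
    rw [mul_one]
  calc proj D i * single (qm D n hn) (1 : k) * proj D i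
      = (proj D i * proj D f) * single (qm D n hn) (1 : k) * (proj D f * proj D i) := by
        rw [hJF, J_F h]
    _ = proj D i * proj D f * (single (qm D n hn) (1 : k) * proj D f) * proj D i := by
        simp only [mul_assoc]
    _ = proj D i * (proj D f * cj (qm D n hn) (proj D f)) * single (qm D n hn) (1 : k)
          * proj D i := by
        rw [h2]; simp only [mul_assoc]
    _ = 0 := by rw [h1, mul_zero, zero_mul, zero_mul]

/-- elements of a coset give a line -/
theorem line (h : Src p b D f i) {m : A} (hm : m ∈ St D f) :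
    ∃ w : MonoidAlgebra k (NQ D), ∀ u ∈ sec (CD D) D, ∃ c : k,
      proj D i * single (qm D m hm.1 * u) (1 : k) * proj D i = c • w := by
  classical
  set y := qm D m hm.1 with hy
  set J := proj D i with hJd
  have hJ := J_prim h
  have hJ' := primIn_cj hJ y⁻¹
  have hF := F_dz h.root
  have hFy : cj y⁻¹ (proj D f) = proj D f := by
    have h1 : cj y (proj D f) = proj D f := by
      rw [hy, ← proj_cj f hm.1, hm.2]
    calc cj y⁻¹ (proj D f) = cj y⁻¹ (cj y (proj D f)) := by rw [h1]
      _ = proj D f := cj_inv_cj _ _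
  have hFJ' : proj D f * cj y⁻¹ J = cj y⁻¹ J := by
    calc proj D f * cj y⁻¹ J = cj y⁻¹ (proj D f) * cj y⁻¹ J := by rw [hFy]
      _ = cj y⁻¹ J := by rw [← cj_mul, J_F h]
  have hJS := DzAAux.mem_iff.1 hJ.mem
  have hJS' := DzAAux.mem_iff.1 hJ'.mem
  -- the elements
  have hre : ∀ u, J * single (y * u) (1 : k) * J
      = single y (1 : k) * (cj y⁻¹ J * single u (1 : k) * J) := by
    intro u
    have h1 : single y (1 : k) * single y⁻¹ (1 : k) = (1 : MonoidAlgebra k (NQ D)) := by
      rw [single_mul_single, mul_inv_cancel, one_mul]; rfl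
    calc J * single (y * u) (1 : k) * J
        = 1 * J * (single y (1 : k) * single u (1 : k)) * J := by
          rw [single_mul_single, one_mul, one_mul]
      _ = (single y (1 : k) * single y⁻¹ (1 : k)) * J * (single y (1 : k) * single u (1 : k)) * J := by
          rw [h1]
      _ = single y (1 : k) * (cj y⁻¹ J * single u (1 : k) * J) := by
          rw [cj, inv_inv]; simp only [mul_assoc]
  have hsu : ∀ u ∈ sec (CD D) D, SuppIn (sec (CD D) D) (cj y⁻¹ J * single u (1 : k) * J) :=
    fun u hu => (hJS'.mul (DzAAux.supp_sg hu)).mul hJS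
  have hl : ∀ u, cj y⁻¹ J * (cj y⁻¹ J * single u (1 : k) * J) = cj y⁻¹ J * single u (1 : k) * J := by
    intro u
    rw [← mul_assoc, ← mul_assoc, hJ'.idem]
  have hr : ∀ u, (cj y⁻¹ J * single u (1 : k) * J) * J = cj y⁻¹ J * single u (1 : k) * J := by
    intro u
    rw [mul_assoc, hJ.idem]
  by_cases hex : ∃ u ∈ sec (CD D) D, cj y⁻¹ J * single u (1 : k) * J ≠ 0
  · obtain ⟨u₀, hu₀, hne⟩ := hex
    refine ⟨single y (1 : k) * (cj y⁻¹ J * single u₀ (1 : k) * J), fun u hu => ?_⟩
    obtain ⟨c, hc⟩ := dz_line hF hJ' hJ hFJ' (J_F h) (hsu u₀ hu₀) (hsu u hu) (hl u₀) (hr u₀)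
      (hl u) (hr u) hne
    refine ⟨c, ?_⟩
    rw [hre, hc, mul_smul_comm]
  · push Not at hex
    refine ⟨0, fun u hu => ⟨0, ?_⟩⟩
    rw [hre, hex u hu, mul_zero, smul_zero]

end

end WdAux

open WdAux

section
variable [Fact p.Prime] [CharP k p] [IsAlgClosed k] [Fintype A]
variable {b f i : MonoidAlgebra k A} {D : Subgroup A}

theorem wt_count (h : Src p b D f i) :
    Nat.card {φ : MonoidAlgebra k (NQ D) | IsDZ p (⊤ : Subgroup (NQ D)) φ ∧
      φ * proj D b = φ} ≤ eN D f := by
  classical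
  set S := {φ : MonoidAlgebra k (NQ D) | IsDZ p (⊤ : Subgroup (NQ D)) φ ∧
      φ * proj D b = φ} with hS
  have hfin : S.Finite :=
    (finite_isBlock (k := k) (⊤ : Subgroup (NQ D))).subset (fun φ hφ => hφ.1.blk)
  have : Fintype S := hfin.fintype
  have : Fintype (NQ D) := Fintype.ofFinite _
  set J := proj D i with hJd
  have hJ := J_prim h
  have hc : ∀ φ ∈ S, ∀ a : MonoidAlgebra k (NQ D), a * φ = φ * a :=
    fun φ hφ => SrcAux.central hφ.1.blk.mem
  -- linear independence
  have hli : LinearIndependent k (fun φ : S => (φ : MonoidAlgebra k (NQ D)) * J) := by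
    rw [linearIndependent_iff']
    intro s g hg ψ hψ
    have h1 : (∑ φ ∈ s, g φ • ((φ : MonoidAlgebra k (NQ D)) * J)) * (ψ : MonoidAlgebra k (NQ D))
        = g ψ • ((ψ : MonoidAlgebra k (NQ D)) * J) := by
      rw [Finset.sum_mul, Finset.sum_eq_single ψ]
      · rw [smul_mul_assoc, mul_assoc, hc ψ ψ.2, ← mul_assoc, ψ.2.1.blk.idem]
      · intro φ _ hne
        rcases φ.2.1.blk.eq_or_mul_eq_zero ψ.2.1.blk with h2 | h2
        · exact absurd (Subtype.ext h2) hne
        · rw [smul_mul_assoc, mul_assoc, hc ψ ψ.2, ← mul_assoc, h2, zero_mul, smul_zero]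
      · intro h2; exact absurd hψ h2
    rw [hg, zero_mul] at h1
    rcases smul_eq_zero.1 h1.symm with h2 | h2
    · exact h2
    · exact absurd h2 (phi_J h ψ.2.1.blk ψ.2.2)
  -- the cosets
  let Q := ↥(St D f) ⧸ (CD D).subgroupOf (St D f)
  have : Fintype Q := Fintype.ofFinite _
  choose w hw using fun q : Q => line h (m := (q.out : A)) q.out.2
  have hspan : Set.range (fun φ : S => (φ : MonoidAlgebra k (NQ D)) * J)
      ≤ Submodule.span k (Set.range w) := by
    rintro _ ⟨φ, rfl⟩
    change (φ : MonoidAlgebra k (NQ D)) * J ∈ Submodule.span k (Set.range w)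
    have h1 : (φ : MonoidAlgebra k (NQ D)) * J
        = ∑ x : NQ D, (φ : MonoidAlgebra k (NQ D)).coeff x • (J * single x (1 : k) * J) := by
      have h2 : (φ : MonoidAlgebra k (NQ D)) * J = J * (φ : MonoidAlgebra k (NQ D)) * J := by
        rw [hc φ φ.2, mul_assoc, hJ.idem]
      rw [h2]
      nth_rewrite 1 [← DzAAux.sum_single (φ : MonoidAlgebra k (NQ D))]
      rw [Finset.mul_sum, Finset.sum_mul]
      refine Finset.sum_congr rfl fun x _ => ?_
      have h3 : single x ((φ : MonoidAlgebra k (NQ D)).coeff x)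
          = (φ : MonoidAlgebra k (NQ D)).coeff x • single x (1 : k) := by
        rw [MonoidAlgebra.smul_single, smul_eq_mul, mul_one]
      rw [h3, mul_smul_comm, smul_mul_assoc]
    rw [h1]
    refine Submodule.sum_mem _ fun x _ => Submodule.smul_mem _ _ ?_
    obtain ⟨n, hn, rfl⟩ := qm_surj x
    by_cases hnf : n ∈ St D f
    · set q : Q := QuotientGroup.mk (⟨n, hnf⟩ : St D f) with hq
      have h4 : (q.out)⁻¹ * (⟨n, hnf⟩ : St D f) ∈ (CD D).subgroupOf (St D f) := by
        rw [← QuotientGroup.eq, QuotientGroup.out_eq']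
      have h5 : ((q.out : A))⁻¹ * n ∈ CD D := Subgroup.mem_subgroupOf.1 h4
      have h6 : qm D n hn = qm D (q.out : A) q.out.2.1
          * qm D ((q.out : A)⁻¹ * n) (Subgroup.centralizer_le_normalizer _ h5) := by
        rw [← qm_mul (hxy := by rw [mul_inv_cancel_left]; exact hn)]
        rw [qm_eq_iff]
        have e1 : n⁻¹ * ((q.out : A) * ((q.out : A)⁻¹ * n)) = 1 := by group
        rw [e1]
        exact D.one_mem
      obtain ⟨c, hc'⟩ := hw q _ (qm_mem_sec (Subgroup.centralizer_le_normalizer _ h5) h5)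
      rw [h6, hc']
      exact Submodule.smul_mem _ _ (Submodule.subset_span ⟨q, rfl⟩)
    · rw [out_zero h hn hnf]
      exact Submodule.zero_mem _
  have h2 := linearIndependent_le_span_aux' _ hli (Set.range w) hspan
  have h3 : Fintype.card (Set.range w) ≤ Fintype.card Q := Fintype.card_range_le w
  have h4 : Fintype.card Q = eN D f := by
    rw [← Nat.card_eq_fintype_card]
    rfl
  rw [Nat.card_eq_fintype_card]
  exact h2.trans (h3.trans h4.le)

end

end Pool.Agent.Lib.P0c8ca5.Ex
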