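import Mathlib
import Pool.Agent.Lib.P0c8ca5Ex.Wb
import Pool.Agent.Lib.P0c8ca5Ex.Wd
import Pool.Agent.Lib.P0c8ca5.Conj
import Pool.Agent.Lib.P0c8ca5.Official

/-!
# Wc: the number of weights of a block with abelian defect group

PROOF of `wt_le`. `DZ p ⊤ b Q = {φ | IsDZ p (sec ⊤ Q) φ ∧ φ * proj Q b = φ}` (P0c8ca5.Official, line 170), `sec ⊤ Q = ⊤`. If `Q ∈ T` and `DZ p ⊤ b Q` is not empty, then `Q` is conjugate to `D` (`wt_conj`). By `hT2` (for `D`, which is in `Theta p ⊤ ⊤ b`) exactly one `Q₀ ∈ T` is conjugate to `D`. So the sum is `Nat.card (DZ p ⊤ b Q₀)`, equal to the number for `D` (P0c8ca5.Conj, conjugation; `cj g b = b`), at most `eN D f` (`wt_count`).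
-/

namespace Pool.Agent.Lib.P0c8ca5.Ex

open MonoidAlgebra

variable {p : ℕ} {k : Type*} [Field k] {A : Type*} [Group A]

namespace WcAux

theorem sec_top {A : Type*} [Group A] (R : Subgroup A) : sec (⊤ : Subgroup A) R = ⊤ := by
  rw [eq_top_iff]
  intro w _
  obtain ⟨x, rfl⟩ := QuotientGroup.mk'_surjective _ w
  exact Subgroup.mem_map_of_mem _ (Subgroup.mem_subgroupOf.2 (Subgroup.mem_top _))

end WcAux

theorem wt_le [Fact p.Prime] [CharP k p] [IsAlgClosed k] [Fintype A]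
    {b f i : MonoidAlgebra k A} {D : Subgroup A} (h : Src p b D f i) (hE : ¬ p ∣ eN D f)
    (T : Finset (Subgroup A)) (hT1 : ↑T ⊆ Theta p (⊤ : Subgroup A) ⊤ b)
    (hT2 : ∀ Q ∈ Theta p (⊤ : Subgroup A) ⊤ b, ∃! Q', Q' ∈ T ∧
      ∃ g ∈ (⊤ : Subgroup A), Q' = Q.map (MulAut.conj g).toMonoidHom) :
    ∑ Q ∈ T, Nat.card (DZ p (⊤ : Subgroup A) b Q) ≤ eN D f := by
  classical
  have hDZ : ∀ Q ∈ T, DZ p (⊤ : Subgroup A) b Q =
      {φ | IsDZ p (⊤ : Subgroup (NQ Q)) φ ∧ φ * proj Q b = φ} := by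
    intro Q hQ
    have h1 := hT1 hQ
    rw [DZ_eq le_top h1.2.1 h.root.blk, WcAux.sec_top]
  have hD : D ∈ Theta p (⊤ : Subgroup A) ⊤ b :=
    ⟨le_top, h.root.dfg.isPGroup, by simp, D, h.root.dfg, inf_le_left⟩
  obtain ⟨Q₀, ⟨hQ₀, g₀, -, hg₀⟩, huni⟩ := hT2 D hD
  have hzero : ∀ Q ∈ T, Q ≠ Q₀ → Nat.card (DZ p (⊤ : Subgroup A) b Q) = 0 := by
    intro Q hQ hne
    have h2 : DZ p (⊤ : Subgroup A) b Q = ∅ := by
      rw [Set.eq_empty_iff_forall_notMem]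
      intro φ hφ
      rw [hDZ Q hQ] at hφ
      obtain ⟨g, hg⟩ := wt_conj h hE (hT1 hQ).2.1 hφ.1 hφ.2
      exact hne (huni Q ⟨hQ, g, Subgroup.mem_top _, hg⟩)
    rw [h2]
    simp
  rw [Finset.sum_eq_single Q₀ (fun Q hQ hne => hzero Q hQ hne) (fun hn => absurd hQ₀ hn),
    hDZ Q₀ hQ₀]
  have h3 := card_cg_eq (p := p) (k := k) (H := (⊤ : Subgroup A)) (Q := D) (e := b)
    (fun x _ => Subgroup.mem_top x) h.root.blk.invBy (h := g₀) (Subgroup.mem_top _)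
  rw [WcAux.sec_top, WcAux.sec_top] at h3
  have h4 : Q₀ = cg g₀ D := hg₀
  subst h4
  rw [h3]
  exact wt_count h

end Pool.Agent.Lib.P0c8ca5.Ex
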