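import Mathlib
import Pool.Agent.Lib.P0c8ca5Ex.Wc
import Pool.Agent.Lib.P0c8ca5Ex.Ge
import Pool.Agent.Lib.P0c8ca5Ex.Src
import Pool.Agent.Lib.P0c8ca5Ex.DefR
import Pool.Agent.Lib.P0c8ca5E.SmallG
import Pool.Agent.Lib.P0c8ca5Se.Fin
import Pool.Agent.Lib.P0c8ca5Se.Pow

/-!
# Fg: Navarro's equality for a block with abelian defect group, if the inertial index and the
number of simple modules are less than `p`

`gap_zero_lt`: the weight conjecture; `navarro_lt`: Navarro's equality for an extension by a p-group.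
-/

namespace Pool.Agent.Lib.P0c8ca5.Ex

open MonoidAlgebra

universe u v

namespace FinAux

section
variable {k : Type*} [Field k] {A : Type*} [Group A]

theorem up_dn {G : Subgroup A} {a : MonoidAlgebra k A} (h : SuppIn G a) :
    upr G (dn G a) = a := upr_dnr h

theorem dn_up (G : Subgroup A) (a : MonoidAlgebra k ↥G) : dn G (upr G a) = a := dnr_upr G a

theorem dn_mul_right [Finite A] {G : Subgroup A} (a : MonoidAlgebra k A) {b : MonoidAlgebra k A}
    (hb : SuppIn G b) : dn G (a * b) = dn G a * dn G b := by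
  have h1 := dnr_mul_upr G a (dn G b)
  rw [up_dn hb] at h1
  exact h1

/-- transport of a block of a subgroup of `G` to the group `↥G` -/
theorem dn_blk [Finite A] {G K : Subgroup A} (hK : K ≤ G) {f : MonoidAlgebra k A}
    (hf : IsBlock K f) : IsBlock (K.subgroupOf G) (dn G f) := by
  have hf1 := mem_fixAlg.1 hf.mem
  have hsupp : SuppIn G f := fun x hx => hK (hf1.1 x hx)
  refine ⟨mem_fixAlg.2 ⟨fun x hx => Subgroup.mem_subgroupOf.2 (hf1.1 _ hx), fun g hg x => ?_⟩,
    ?_, fun h0 => ?_, fun φ hφ hφi hφf => ?_⟩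
  · rw [coeff_dn, coeff_dn]
    exact hf1.2 _ (Subgroup.mem_subgroupOf.1 hg) _
  · rw [← dn_mul_right f hsupp, hf.idem]
  · apply hf.ne_zero
    rw [← up_dn hsupp, h0, map_zero]
  · have hφ1 := mem_fixAlg.1 hφ
    have hm : upr G φ ∈ fixAlg k K K := by
      refine mem_fixAlg.2 ⟨fun x hx => ?_, fun g hg x => ?_⟩
      · by_cases hxG : x ∈ G
        · rw [show x = ((⟨x, hxG⟩ : ↥G) : A) from rfl, coeff_upr] at hx
          exact Subgroup.mem_subgroupOf.1 (hφ1.1 _ hx)
        · exact absurd (coeff_upr_of_notMem G φ hxG) hx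
      · by_cases hxG : x ∈ G
        · have h1 := hφ1.2 ⟨g, hK hg⟩ (Subgroup.mem_subgroupOf.2 hg) ⟨x, hxG⟩
          have e1 := coeff_upr G φ ⟨x, hxG⟩
          have e2 := coeff_upr G φ (⟨g, hK hg⟩ * ⟨x, hxG⟩ * ⟨g, hK hg⟩⁻¹)
          rw [h1, ← e1] at e2
          exact e2
        · rw [coeff_upr_of_notMem G φ hxG, coeff_upr_of_notMem G φ]
          intro h
          apply hxG
          rwa [G.mul_mem_cancel_right (G.inv_mem (hK hg)), G.mul_mem_cancel_left (hK hg)] at h
    rcases hf.prim _ hm (by rw [← map_mul, hφi]) (by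
      conv_lhs => rw [← up_dn hsupp]
      rw [← map_mul, hφf]) with h | h
    · left
      rw [← dn_up G φ, h]
      ext x
      rw [coeff_dn, coeff_zero, coeff_zero, Finsupp.zero_apply, Finsupp.zero_apply]
    · right
      rw [← dn_up G φ, h]

theorem CD_subgroupOf {G D : Subgroup A} (hD : D ≤ G) :
    CD (D.subgroupOf G) = (G ⊓ CD D).subgroupOf G := by
  ext x
  rw [Subgroup.mem_subgroupOf, Subgroup.mem_inf, Subgroup.mem_centralizer_iff,
    Subgroup.mem_centralizer_iff]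
  constructor
  · intro h
    refine ⟨x.2, fun y hy => ?_⟩
    have h1 := h ⟨y, hD hy⟩ (Subgroup.mem_subgroupOf.2 hy)
    exact congrArg Subtype.val h1
  · rintro ⟨-, h⟩ y hy
    exact Subtype.ext (h _ (Subgroup.mem_subgroupOf.1 hy))

theorem norm_subgroupOf {G D : Subgroup A} (hD : D ≤ G) {g : ↥G}
    (hg : g ∈ Subgroup.normalizer ((D.subgroupOf G : Subgroup ↥G) : Set ↥G)) :
    (g : A) ∈ Subgroup.normalizer (D : Set A) := by
  rw [Subgroup.mem_normalizer_iff] at hg ⊢
  intro y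
  constructor
  · intro hy
    have h1 := (hg ⟨y, hD hy⟩).1 (Subgroup.mem_subgroupOf.2 hy)
    exact Subgroup.mem_subgroupOf.1 h1
  · intro hy
    have hyG : y ∈ G := by
      have h1 : (g : A) * y * (g : A)⁻¹ ∈ G := hD hy
      rwa [G.mul_mem_cancel_right (G.inv_mem g.2), G.mul_mem_cancel_left g.2] at h1
    have h1 := (hg ⟨y, hyG⟩).2 (Subgroup.mem_subgroupOf.2 hy)
    exact Subgroup.mem_subgroupOf.1 h1

theorem cj_dn {G : Subgroup A} {f : MonoidAlgebra k A} (hf : SuppIn G f) {g : ↥G} :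
    cj g (dn G f) = dn G f ↔ cj (g : A) f = f := by
  constructor
  · intro h
    ext x
    by_cases hx : x ∈ G
    · have h1 := congrArg (fun a => a.coeff (⟨x, hx⟩ : ↥G)) h
      simp only [coeff_cj, coeff_dn] at h1
      rw [coeff_cj]
      exact h1
    · rw [coeff_cj]
      have h1 : (g : A)⁻¹ * x * (g : A) ∉ G := by
        intro h
        apply hx
        rwa [G.mul_mem_cancel_right g.2, G.mul_mem_cancel_left (G.inv_mem g.2)] at h
      have h2 : f.coeff ((g : A)⁻¹ * x * (g : A)) = 0 := by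
        by_contra h0
        exact h1 (hf _ h0)
      have h3 : f.coeff x = 0 := by
        by_contra h0
        exact hx (hf _ h0)
      rw [h2, h3]
  · intro h
    ext x
    have h1 := congrArg (fun a => a.coeff (x : A)) h
    simp only [coeff_cj] at h1
    rw [coeff_cj, coeff_dn, coeff_dn]
    exact h1

theorem St_subgroupOf {G D : Subgroup A} (hD : D ≤ G) {f : MonoidAlgebra k A}
    (hf : SuppIn G f) :
    St (D.subgroupOf G) (dn G f) = (G ⊓ St D f).subgroupOf G := by
  ext g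
  rw [Subgroup.mem_subgroupOf, Subgroup.mem_inf, mem_St, mem_St, cj_dn hf]
  constructor
  · rintro ⟨h1, h2⟩
    exact ⟨g.2, norm_subgroupOf hD h1, h2⟩
  · rintro ⟨-, h1, h2⟩
    refine ⟨?_, h2⟩
    rw [Subgroup.mem_normalizer_iff] at h1 ⊢
    intro y
    exact h1 (y : A)

theorem dn_resS {G : Subgroup A} (S : Set A) (a : MonoidAlgebra k A) :
    dn G (resS S a) = resS (Subtype.val ⁻¹' S) (dn G a) := by
  classical
  ext x
  rw [coeff_dn, coeff_resS, coeff_resS, coeff_dn]
  rfl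

end

end FinAux

open FinAux

theorem gap_zero_lt {p : ℕ} [Fact p.Prime] {k : Type v} [Field k] [IsAlgClosed k]
    [CharP k p] {A : Type u} [Group A] [Fintype A] {b : MonoidAlgebra k A} {D : Subgroup A}
    {f : MonoidAlgebra k A} (h : Root p b D f) (hE : eN D f < p)
    (hl : Nat.card (Quotient (irrInvSetoid (⊤ : Subgroup A) ⊤ b)) < p) :
    gap p (⊤ : Subgroup A) ⊤ b = 0 := by
  obtain ⟨i, hi⟩ := exists_src h
  have hpos : 0 < eN D f := by
    unfold eN Subgroup.relIndex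
    exact Nat.pos_of_ne_zero Subgroup.index_ne_zero_of_finite
  have hnd : ¬ p ∣ eN D f := fun h0 => absurd (Nat.le_of_dvd hpos h0) (not_le.2 hE)
  obtain ⟨T, hT1, hT2⟩ := exists_transversal (⊤ : Subgroup A) (Theta p (⊤ : Subgroup A) ⊤ b)
  have hw := wt_le hi hnd T hT1 hT2
  have hinv : InvBy ⊤ b := h.blk.invBy
  have hg := gap_eq (p := p) (le_refl (⊤ : Subgroup A)) (by
    intro x _
    rw [Subgroup.mem_normalizer_iff]
    intro y
    simp) (fun x _ => ⟨0, Subgroup.mem_top _⟩) h.blk hinv T hT1 hT2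
  have hΓ : IsPGroup p (A ⧸ (⊤ : Subgroup A)) := by
    have := QuotientGroup.subsingleton_quotient_top (G := A)
    exact fun x => ⟨0, Subsingleton.elim _ _⟩
  obtain ⟨t, ht⟩ := Se.gap_cent (⊤ : Subgroup A) hΓ h.blk hinv h.dfg (Se.sg_comm h.com)
  rw [ht] at hg ⊢
  have h1 : (p : ℤ) * t = (Nat.card (Quotient (irrInvSetoid (⊤ : Subgroup A) ⊤ b)) : ℤ)
      - ((∑ Q ∈ T, Nat.card (DZ p (⊤ : Subgroup A) b Q) : ℕ) : ℤ) := by
    exact_mod_cast hg
  have h2 : |(p : ℤ) * t| < p := by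
    rw [h1, abs_lt]
    constructor <;> omega
  have hp0 : (0 : ℤ) < p := by
    have := (Fact.out : p.Prime).pos
    exact_mod_cast this
  have h3 : t = 0 := by
    rw [abs_mul, abs_of_pos hp0] at h2
    have h4 : |t| < 1 := by
      by_contra hc
      push Not at hc
      nlinarith
    exact Int.abs_lt_one_iff.1 h4
  rw [h3]
  simp

theorem root_dn {p : ℕ} [Fact p.Prime] {k : Type v} [Field k] [IsAlgClosed k]
    [CharP k p] {Γ : Type u} [Group Γ] [Finite Γ] (G : Subgroup Γ)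
    {e : MonoidAlgebra k Γ} (he : IsBlock G e)
    {D : Subgroup Γ} (hD : IsDefectGroup p G e D) (hcom : ∀ x ∈ D, ∀ y ∈ D, x * y = y * x)
    {f : MonoidAlgebra k Γ} (hf : IsBlock (G ⊓ CD D) f)
    (hef : resS (CD D : Set Γ) e * f = f) :
    Root p (dn G e) (D.subgroupOf G) (dn G f) := by
  have hDG : D ≤ G := hD.le
  have hfs : SuppIn G f := fun x hx => ((mem_fixAlg.1 hf.mem).1 x hx).1
  have hes : SuppIn G e := (mem_fixAlg.1 he.mem).1
  refine ⟨dn_isBlock he, Hy.isDefect_dn hes hD, ?_, ?_, ?_⟩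
  · intro x hx y hy
    exact Subtype.ext (hcom _ (Subgroup.mem_subgroupOf.1 hx) _ (Subgroup.mem_subgroupOf.1 hy))
  · rw [CD_subgroupOf hDG]
    exact dn_blk inf_le_left hf
  · have h1 : resS ((CD (D.subgroupOf G) : Subgroup ↥G) : Set ↥G) (dn G e)
        = dn G (resS (CD D : Set Γ) e) := by
      rw [dn_resS]
      congr 1
      ext x
      rw [CD_subgroupOf hDG]
      simp only [SetLike.mem_coe, Subgroup.mem_subgroupOf, Subgroup.mem_inf, Set.mem_preimage]
      exact ⟨fun h => h.2, fun h => ⟨x.2, h⟩⟩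
    rw [h1, ← dn_mul_right _ hfs, hef]

theorem eN_dn {k : Type v} [Field k] {Γ : Type u} [Group Γ] (G : Subgroup Γ) {D : Subgroup Γ}
    (hDG : D ≤ G) {f : MonoidAlgebra k Γ} (hfs : SuppIn G f) :
    eN (D.subgroupOf G) (dn G f) = (CD D).relIndex (G ⊓ St D f) := by
  unfold eN
  rw [St_subgroupOf hDG hfs, CD_subgroupOf hDG, Subgroup.relIndex_subgroupOf inf_le_left]
  have h1 : (G ⊓ CD D).relIndex (G ⊓ St D f) = (CD D).relIndex (G ⊓ St D f) := by
    rw [← Subgroup.inf_relIndex_right (G ⊓ CD D), ← Subgroup.inf_relIndex_right (CD D)]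
    congr 1
    ext x
    simp only [Subgroup.mem_inf]
    tauto
  rw [h1]

theorem navarro_lt {p : ℕ} [Fact p.Prime] {k : Type v} [Field k] [IsAlgClosed k]
    [CharP k p] {Γ : Type u} [Group Γ] [Finite Γ] (G : Subgroup Γ) [G.Normal]
    (hΓ : IsPGroup p (Γ ⧸ G)) {e : MonoidAlgebra k Γ} (he : IsBlock G e) (hinv : InvBy ⊤ e)
    {D : Subgroup Γ} (hD : IsDefectGroup p G e D) (hcom : ∀ x ∈ D, ∀ y ∈ D, x * y = y * x)
    {f : MonoidAlgebra k Γ} (hf : IsBlock (G ⊓ CD D) f)
    (hef : resS (CD D : Set Γ) e * f = f)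
    (hE : (CD D).relIndex (G ⊓ St D f) < p)
    (hl : Nat.card (Quotient (irrInvSetoid (⊤ : Subgroup ↥G) ⊤ (dn G e))) < p) :
    NavarroEq p G ⊤ e := by
  have : Fintype Γ := Fintype.ofFinite Γ
  have : Fintype ↥G := Fintype.ofFinite _
  have hDG : D ≤ G := hD.le
  have hfs : SuppIn G f := fun x hx => ((mem_fixAlg.1 hf.mem).1 x hx).1
  have hes : SuppIn G e := (mem_fixAlg.1 he.mem).1
  have hroot := root_dn G he hD hcom hf hef
  have heN : eN (D.subgroupOf G) (dn G f) < p := by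
    rw [eN_dn G hDG hfs]
    exact hE
  have h0 := gap_zero_lt hroot heN hl
  rw [gap_transport he] at h0
  have hgap := gap_ext hΓ he hinv h0 hl
  intro T hT1 hT2
  have hpw : ∀ x ∈ (⊤ : Subgroup Γ), ∃ n : ℕ, x ^ p ^ n ∈ G := by
    intro x _
    obtain ⟨n, hn⟩ := hΓ (QuotientGroup.mk x)
    refine ⟨n, ?_⟩
    rwa [← QuotientGroup.mk_pow, QuotientGroup.eq_one_iff] at hn
  rw [gap_eq le_top (fun x _ => mem_norm_of_normal G x) hpw he hinv T hT1 hT2] at hgap
  have h3 := sub_eq_zero.1 hgap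
  exact_mod_cast h3

end Pool.Agent.Lib.P0c8ca5.Ex
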