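import Mathlib
import Pool.Agent.Lib.P0c8ca5Ex.LB
import Pool.Agent.Lib.P0c8ca5Ex.Fg

/-!
# Fin: Navarro's equality for blocks with abelian defect group and free inertial quotient of order
less than `p`
-/

namespace Pool.Agent.Lib.P0c8ca5.Ex

open MonoidAlgebra FinAux

universe u v

theorem gap_zero {p : ℕ} [Fact p.Prime] (hp : p ≠ 2) {k : Type v} [Field k] [IsAlgClosed k]
    [CharP k p] {A : Type u} [Group A] [Fintype A] {b : MonoidAlgebra k A} {D : Subgroup A}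
    {f : MonoidAlgebra k A} (h : Root p b D f) (hF : Free D f) (hE : eN D f < p) :
    gap p (⊤ : Subgroup A) ⊤ b = 0 :=
  gap_zero_lt h hE (lt_of_le_of_lt (l_le hp h hF) hE)

/-- the inertial group of a block of a normal subgroup -/
theorem free_dn {k : Type v} [Field k] {Γ : Type u} [Group Γ] (G : Subgroup Γ) {D : Subgroup Γ}
    (hDG : D ≤ G) {f : MonoidAlgebra k Γ} (hfs : SuppIn G f)
    (hF : ∀ g ∈ G, g ∈ Subgroup.normalizer (D : Set Γ) → cj g f = f →
      ∀ u ∈ D, u ≠ 1 → g * u = u * g → g ∈ CD D) : Free (D.subgroupOf G) (dn G f) := by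
  intro g hg u hu hu1 hgu
  rw [St_subgroupOf hDG hfs, Subgroup.mem_subgroupOf] at hg
  rw [CD_subgroupOf hDG, Subgroup.mem_subgroupOf]
  refine ⟨g.2, hF g g.2 hg.2.1 hg.2.2 u (Subgroup.mem_subgroupOf.1 hu) ?_ ?_⟩
  · intro h
    exact hu1 (Subtype.ext h)
  · exact congrArg Subtype.val hgu

theorem navarro_free {p : ℕ} [Fact p.Prime] (hp : p ≠ 2) {k : Type v} [Field k] [IsAlgClosed k]
    [CharP k p] {Γ : Type u} [Group Γ] [Finite Γ] (G : Subgroup Γ) [G.Normal]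
    (hΓ : IsPGroup p (Γ ⧸ G)) {e : MonoidAlgebra k Γ} (he : IsBlock G e) (hinv : InvBy ⊤ e)
    {D : Subgroup Γ} (hD : IsDefectGroup p G e D) (hcom : ∀ x ∈ D, ∀ y ∈ D, x * y = y * x)
    {f : MonoidAlgebra k Γ} (hf : IsBlock (G ⊓ CD D) f)
    (hef : resS (CD D : Set Γ) e * f = f)
    (hF : ∀ g ∈ G, g ∈ Subgroup.normalizer (D : Set Γ) → cj g f = f →
      ∀ u ∈ D, u ≠ 1 → g * u = u * g → g ∈ CD D)
    (hE : (CD D).relIndex (G ⊓ St D f) < p) : NavarroEq p G ⊤ e := by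
  have : Fintype ↥G := Fintype.ofFinite _
  have hDG : D ≤ G := hD.le
  have hfs : SuppIn G f := fun x hx => ((mem_fixAlg.1 hf.mem).1 x hx).1
  have hroot := root_dn G he hD hcom hf hef
  have hl := l_le hp hroot (free_dn G hDG hfs hF)
  rw [eN_dn G hDG hfs] at hl
  exact navarro_lt G hΓ he hinv hD hcom hf hef hE (lt_of_le_of_lt hl hE)

end Pool.Agent.Lib.P0c8ca5.Ex
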