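import Mathlib
import Pool.Agent.Lib.P0c8ca5Ex.Loc

/-!
# Ha: defect groups with a free part

`Half D f D₁ D₂`: `D = D₁ × D₂`, both stable under the inertial group; outside `C(D)` the inertial group has no fixed points on `D₁ - 1`, and the stabilizers of the nontrivial elements of `D₂` are cyclic modulo `C(D)`.
PROOF of `Half.reg`. `u = u₁ * u₂` with `uᵢ ∈ Dᵢ`, `u₁ ≠ 1`; `g u g⁻¹ = u` and the decomposition is unique (`inf`), so `g u₁ g⁻¹ = u₁`; `free`.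
PROOF of `mem_St_loc`. For `g : ↥(CD Q)`: `g` normalizes `D.subgroupOf (CD Q)` iff `(g : A)` normalizes `D` (`D ≤ CD Q`), and `cj g (dn f) = dn f` iff `cj (g : A) f = f` (`f` is supported on `CD D ≤ CD Q`).
PROOF of `Half.sub`. Everything is inherited by the smaller group `St D f ⊓ CD Q` (`mem_St_loc`); for `cyc` use `cyc_sub`. `cyc_sub` (a subgroup of a cyclic group is cyclic, in the language of representatives): `S ≤ T`, `C ≤ S`, `C` normal in `T` (here `hn`); the quotient `T / C` is cyclic, so its subgroup `S / C` is; or directly: let `n₀` be the least `n > 0` with `g ^ n ∈ S` and take `g ^ n₀`.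
PROOF of `Half.cyc_loc`. `mem_St_loc` for `Q = zpowers u`, `CD_zpowers`: the group is `St D f ⊓ C1 u`. If `u ∉ D₂` it is contained in `C(D)` by `Half.reg` (take `g = 1`); if `u ∈ D₂` this is `cyc`.
PROOF of `eN_loc`. `CD (D.subgroupOf (CD Q)) = (CD D).subgroupOf (CD Q)`.
-/

namespace Pool.Agent.Lib.P0c8ca5.Ex

open MonoidAlgebra

variable {p : ℕ} {k : Type*} [Field k] {A : Type*} [Group A]

/-- `D = D₁ × D₂`, both stable under the inertial group, which acts freely on `D₁ - 1`; the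
stabilizers of the nontrivial elements of `D₂` are cyclic modulo `C(D)` -/
structure Half (D : Subgroup A) (f : MonoidAlgebra k A) (D₁ D₂ : Subgroup A) : Prop where
  sup : D₁ ⊔ D₂ = D
  inf : D₁ ⊓ D₂ = ⊥
  ne : D₁ = ⊥ → D = ⊥
  st1 : ∀ g ∈ St D f, ∀ u ∈ D₁, g * u * g⁻¹ ∈ D₁
  st2 : ∀ g ∈ St D f, ∀ u ∈ D₂, g * u * g⁻¹ ∈ D₂
  free : ∀ g ∈ St D f, ∀ u ∈ D₁, u ≠ 1 → g * u = u * g → g ∈ CD D
  cyc : ∀ u ∈ D₂, u ≠ 1 → ∃ g ∈ St D f ⊓ C1 u, ∀ x ∈ St D f ⊓ C1 u, ∃ n : ℕ,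
    x * (g ^ n)⁻¹ ∈ CD D

/-- a subgroup of a cyclic group is cyclic, in the language of representatives -/
theorem cyc_sub {C S T : Subgroup A} (hCS : C ≤ S) (hST : S ≤ T)
    (hn : T ≤ Subgroup.normalizer (C : Set A)) (hc : ∃ g ∈ T, ∀ x ∈ T, ∃ n : ℕ, x * (g ^ n)⁻¹ ∈ C) :
    ∃ g ∈ S, ∀ x ∈ S, ∃ n : ℕ, x * (g ^ n)⁻¹ ∈ C := by
  classical
  obtain ⟨g, hg, hx⟩ := hc
  have hex : ∃ n : ℕ, 0 < n ∧ g ^ n ∈ S := by
    obtain ⟨m, hm⟩ := hx g⁻¹ (T.inv_mem hg)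
    refine ⟨m + 1, Nat.succ_pos _, hCS ?_⟩
    have h1 := C.inv_mem hm
    rw [mul_inv_rev, inv_inv, inv_inv, ← pow_succ] at h1
    exact h1
  obtain ⟨h0, h1⟩ := Nat.find_spec hex
  have hmin : ∀ m : ℕ, 0 < m → g ^ m ∈ S → Nat.find hex ≤ m := fun m hm hm' =>
    Nat.find_min' hex ⟨hm, hm'⟩
  generalize Nat.find hex = n₀ at h0 h1 hmin
  refine ⟨g ^ n₀, h1, fun x hxS => ?_⟩
  obtain ⟨n, hn'⟩ := hx x (hST hxS)
  have h2 : g ^ n ∈ S := by
    have h3 := S.mul_mem (S.inv_mem (hCS hn')) hxS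
    have e : (x * (g ^ n)⁻¹)⁻¹ * x = g ^ n := by group
    rwa [e] at h3
  have h3 : g ^ (n % n₀) ∈ S := by
    have h4 := S.mul_mem (S.inv_mem (S.pow_mem h1 (n / n₀))) h2
    have e : (g ^ n₀) ^ (n / n₀) * g ^ (n % n₀) = g ^ n := by
      rw [← pow_mul, ← pow_add, Nat.div_add_mod]
    rwa [← e, inv_mul_cancel_left] at h4
  have h5 : n % n₀ = 0 := by
    by_contra hne
    have h6 := hmin _ (Nat.pos_of_ne_zero hne) h3
    have h7 := Nat.mod_lt n h0
    omega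
  refine ⟨n / n₀, ?_⟩
  have e : (g ^ n₀) ^ (n / n₀) = g ^ n := by
    rw [← pow_mul]
    refine congrArg (fun m => g ^ m) ?_
    have h8 := Nat.div_add_mod n n₀
    omega
  rw [e]
  exact hn'

section
variable [Fact p.Prime] [CharP k p] [IsAlgClosed k] [Finite A]
variable {b f i : MonoidAlgebra k A} {D D₁ D₂ : Subgroup A}

theorem Half.reg (h : Root p b D f) (hH : Half D f D₁ D₂) {g u : A} (hg : g ∈ St D f)
    (hu : u ∈ D) (hu2 : u ∉ D₂) (hgu : g * u = u * g) : g ∈ CD D := by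
  have h1 : D₁ ≤ D := hH.sup ▸ le_sup_left
  have h2 : D₂ ≤ D := hH.sup ▸ le_sup_right
  have hn : D₂ ≤ Subgroup.normalizer (D₁ : Set A) := by
    intro x hx
    refine Subgroup.centralizer_le_normalizer _ ?_
    rw [Subgroup.mem_centralizer_iff]
    exact fun y hy => h.com y (h1 hy) x (h2 hx)
  rw [← hH.sup, mem_sup_norm hn] at hu
  obtain ⟨u₁, hu₁, u₂, hu₂, rfl⟩ := hu
  have hne : u₁ ≠ 1 := by
    rintro rfl
    rw [one_mul] at hu2
    exact hu2 hu₂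
  have h3 := hH.st1 g hg u₁ hu₁
  have h4 := hH.st2 g hg u₂ hu₂
  have h5 : (g * u₁ * g⁻¹) * (g * u₂ * g⁻¹) = u₁ * u₂ := by
    calc (g * u₁ * g⁻¹) * (g * u₂ * g⁻¹) = (g * (u₁ * u₂)) * g⁻¹ := by group
      _ = u₁ * u₂ := by rw [hgu]; group
  have h6 : u₁⁻¹ * (g * u₁ * g⁻¹) = u₂ * (g * u₂ * g⁻¹)⁻¹ := by
    rw [inv_mul_eq_iff_eq_mul, ← mul_assoc, eq_mul_inv_iff_mul_eq]
    exact h5
  have h7 : u₁⁻¹ * (g * u₁ * g⁻¹) ∈ D₁ ⊓ D₂ := by
    refine Subgroup.mem_inf.2 ⟨D₁.mul_mem (D₁.inv_mem hu₁) h3, ?_⟩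
    rw [h6]
    exact D₂.mul_mem hu₂ (D₂.inv_mem h4)
  rw [hH.inf, Subgroup.mem_bot, inv_mul_eq_one] at h7
  refine hH.free g hg u₁ hu₁ hne ?_
  calc g * u₁ = (g * u₁ * g⁻¹) * g := by group
    _ = u₁ * g := by rw [← h7]

theorem half_of_free (h : Root p b D f) (hF : Free D f) : Half D f D ⊥ where
  sup := sup_bot_eq D
  inf := inf_bot_eq D
  ne := fun h => h
  st1 := fun g hg u hu => (Subgroup.mem_normalizer_iff.1 hg.1 u).1 hu
  st2 := fun g hg u hu => by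
    rw [Subgroup.mem_bot] at hu ⊢
    rw [hu, mul_one, mul_inv_cancel]
  free := hF
  cyc := fun u hu hu1 => absurd (Subgroup.mem_bot.1 hu) hu1

theorem mem_St_loc (h : Root p b D f) {Q : Subgroup A} (hQ : Q ≤ D) (g : ↥(CD Q)) :
    g ∈ St (D.subgroupOf (CD Q)) (dn (CD Q) f) ↔ (g : A) ∈ St D f := by
  have hDQ : D ≤ CD Q := SrcAux.D_le_CQ hQ h.com
  have hfD : ∀ x, f.coeff x ≠ 0 → x ∈ CD Q := fun x hx =>
    Subgroup.centralizer_le hQ (h.fblk.suppIn x hx)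
  have hm : ∀ x : A, (g : A) * x * (g : A)⁻¹ ∈ CD Q ↔ x ∈ CD Q := by
    intro x
    constructor
    · intro hx
      have h1 := (CD Q).mul_mem ((CD Q).mul_mem ((CD Q).inv_mem g.2) hx) g.2
      have e : (g : A)⁻¹ * ((g : A) * x * (g : A)⁻¹) * (g : A) = x := by group
      rwa [e] at h1
    · intro hx
      exact (CD Q).mul_mem ((CD Q).mul_mem g.2 hx) ((CD Q).inv_mem g.2)
  rw [mem_St, mem_St]
  refine and_congr ?_ ?_
  · rw [Subgroup.mem_normalizer_iff, Subgroup.mem_normalizer_iff]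
    constructor
    · intro h1 x
      constructor
      · intro hx
        exact (h1 ⟨x, hDQ hx⟩).1 (Subgroup.mem_subgroupOf.2 hx)
      · intro hx
        have hx' : x ∈ CD Q := (hm x).1 (hDQ hx)
        exact (h1 ⟨x, hx'⟩).2 (Subgroup.mem_subgroupOf.2 hx)
    · intro h1 x
      exact h1 (x : A)
  · constructor
    · intro h1
      ext x
      rw [coeff_cj]
      by_cases hx : x ∈ CD Q
      · have h2 := congrArg (fun a : MonoidAlgebra k ↥(CD Q) => a.coeff ⟨x, hx⟩) h1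
        simp only [coeff_cj, coeff_dn] at h2
        exact h2
      · have h2 : f.coeff x = 0 := by
          by_contra h3
          exact hx (hfD x h3)
        rw [h2]
        by_contra h3
        have h4 := hfD _ h3
        apply hx
        have h5 := (hm _).2 h4
        have e : (g : A) * ((g : A)⁻¹ * x * (g : A)) * (g : A)⁻¹ = x := by group
        rwa [e] at h5
    · intro h1
      ext x
      rw [coeff_cj, coeff_dn, coeff_dn]
      have h2 := congrArg (fun a : MonoidAlgebra k A => a.coeff (x : A)) h1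
      simp only [coeff_cj] at h2
      exact h2

namespace HaAux

omit [Finite A] in
theorem CD_loc {D Q : Subgroup A} (hDQ : D ≤ CD Q) :
    CD (D.subgroupOf (CD Q)) = (CD D).subgroupOf (CD Q) := by
  ext x
  rw [Subgroup.mem_subgroupOf, Subgroup.mem_centralizer_iff, Subgroup.mem_centralizer_iff]
  constructor
  · intro h1 y hy
    exact congrArg Subtype.val (h1 ⟨y, hDQ hy⟩ (Subgroup.mem_subgroupOf.2 hy))
  · intro h1 y hy
    exact Subtype.ext (h1 (y : A) (Subgroup.mem_subgroupOf.1 hy))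

end HaAux

open HaAux

theorem eN_loc (h : Root p b D f) {Q : Subgroup A} (hQ : Q ≤ D) :
    eN (D.subgroupOf (CD Q)) (dn (CD Q) f) = (CD D).relIndex (St D f ⊓ CD Q) := by
  have hDQ : D ≤ CD Q := SrcAux.D_le_CQ hQ h.com
  have h1 : St (D.subgroupOf (CD Q)) (dn (CD Q) f) = (St D f ⊓ CD Q).subgroupOf (CD Q) := by
    ext g
    rw [mem_St_loc h hQ, Subgroup.mem_subgroupOf, Subgroup.mem_inf]
    exact ⟨fun h => ⟨h, g.2⟩, fun h => h.1⟩
  rw [eN, CD_loc hDQ, h1]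
  exact Subgroup.relIndex_subgroupOf inf_le_right

theorem Half.sub (h : Root p b D f) (hH : Half D f D₁ D₂) {Q : Subgroup A} (hQ : Q ≤ D) :
    Half (D.subgroupOf (CD Q)) (dn (CD Q) f) (D₁.subgroupOf (CD Q)) (D₂.subgroupOf (CD Q)) := by
  have hDQ : D ≤ CD Q := SrcAux.D_le_CQ hQ h.com
  have h1 : D₁ ≤ D := hH.sup ▸ le_sup_left
  have h2 : D₂ ≤ D := hH.sup ▸ le_sup_right
  refine ⟨?_, ?_, ?_, ?_, ?_, ?_, ?_⟩
  · rw [← Subgroup.subgroupOf_sup (h1.trans hDQ) (h2.trans hDQ), hH.sup]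
  · ext x
    rw [Subgroup.mem_inf, Subgroup.mem_subgroupOf, Subgroup.mem_subgroupOf, ← Subgroup.mem_inf,
      hH.inf, Subgroup.mem_bot, Subgroup.mem_bot]
    exact ⟨fun h => Subtype.ext h, fun h => congrArg Subtype.val h⟩
  · intro h3
    have h4 : D₁ = ⊥ := by
      rw [eq_bot_iff]
      intro x hx
      have h5 : (⟨x, hDQ (h1 hx)⟩ : ↥(CD Q)) ∈ D₁.subgroupOf (CD Q) :=
        Subgroup.mem_subgroupOf.2 hx
      rw [h3, Subgroup.mem_bot] at h5
      rw [Subgroup.mem_bot]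
      exact congrArg Subtype.val h5
    rw [hH.ne h4, eq_bot_iff]
    intro x hx
    rw [Subgroup.mem_subgroupOf, Subgroup.mem_bot] at hx
    rw [Subgroup.mem_bot]
    exact Subtype.ext hx
  · intro g hg u hu
    exact hH.st1 (g : A) ((mem_St_loc h hQ g).1 hg) (u : A) hu
  · intro g hg u hu
    exact hH.st2 (g : A) ((mem_St_loc h hQ g).1 hg) (u : A) hu
  · intro g hg u hu hu1 hgu
    rw [CD_loc hDQ, Subgroup.mem_subgroupOf]
    exact hH.free (g : A) ((mem_St_loc h hQ g).1 hg) (u : A) hu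
      (fun h => hu1 (Subtype.ext h)) (congrArg Subtype.val hgu)
  · intro u hu hu1
    have hu' : (u : A) ∈ D₂ := hu
    have huD : (u : A) ∈ D := h2 hu'
    have h3 := hH.cyc (u : A) hu' (fun h => hu1 (Subtype.ext h))
    have hST : (St D f ⊓ C1 (u : A)) ⊓ CD Q ≤ St D f ⊓ C1 (u : A) := inf_le_left
    have hCS : CD D ≤ (St D f ⊓ C1 (u : A)) ⊓ CD Q :=
      le_inf (le_inf (CD_le_St h.fblk) (CD_le_C1 huD)) (Subgroup.centralizer_le hQ)
    have hn : St D f ⊓ C1 (u : A) ≤ Subgroup.normalizer ((CD D : Subgroup A) : Set A) := by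
      intro x hx
      exact mem_normalizer_centralizer (Subgroup.mem_inf.1 hx).1.1
    obtain ⟨g, hg, hgx⟩ := cyc_sub hCS hST hn h3
    have hg' := Subgroup.mem_inf.1 hg
    have hg'' := Subgroup.mem_inf.1 hg'.1
    refine ⟨⟨g, hg'.2⟩, Subgroup.mem_inf.2 ⟨(mem_St_loc h hQ _).2 hg''.1, ?_⟩, ?_⟩
    · rw [Subgroup.mem_centralizer_singleton_iff]
      exact Subtype.ext (Subgroup.mem_centralizer_singleton_iff.1 hg''.2)
    · intro x hx
      have hx' := Subgroup.mem_inf.1 hx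
      have h4 := Subgroup.mem_centralizer_singleton_iff.1 hx'.2
      obtain ⟨n, hn'⟩ := hgx (x : A) (Subgroup.mem_inf.2 ⟨Subgroup.mem_inf.2
        ⟨(mem_St_loc h hQ x).1 hx'.1, Subgroup.mem_centralizer_singleton_iff.2
          (congrArg Subtype.val h4)⟩, x.2⟩)
      refine ⟨n, ?_⟩
      rw [CD_loc hDQ, Subgroup.mem_subgroupOf]
      exact hn'

theorem Half.cyc_loc (h : Root p b D f) (hH : Half D f D₁ D₂) {u : A} (hu : u ∈ D)
    (hu1 : u ≠ 1) :
    ∃ g ∈ St (D.subgroupOf (CD (Subgroup.zpowers u))) (dn (CD (Subgroup.zpowers u)) f),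
      ∀ x ∈ St (D.subgroupOf (CD (Subgroup.zpowers u))) (dn (CD (Subgroup.zpowers u)) f),
        ∃ n : ℕ, x * (g ^ n)⁻¹ ∈ CD (D.subgroupOf (CD (Subgroup.zpowers u))) := by
  have hQ : Subgroup.zpowers u ≤ D := (Subgroup.zpowers_le).2 hu
  have hDQ : D ≤ CD (Subgroup.zpowers u) := SrcAux.D_le_CQ hQ h.com
  by_cases hu2 : u ∈ D₂
  · obtain ⟨g, hg, hgx⟩ := hH.cyc u hu2 hu1
    have hg' := Subgroup.mem_inf.1 hg
    have hgQ : g ∈ CD (Subgroup.zpowers u) := by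
      rw [CD_zpowers]
      exact hg'.2
    refine ⟨⟨g, hgQ⟩, (mem_St_loc h hQ _).2 hg'.1, fun x hx => ?_⟩
    have hx2 : (x : A) ∈ C1 u := le_of_eq (CD_zpowers u) x.2
    obtain ⟨n, hn⟩ := hgx (x : A) (Subgroup.mem_inf.2 ⟨(mem_St_loc h hQ x).1 hx, hx2⟩)
    refine ⟨n, ?_⟩
    rw [CD_loc hDQ, Subgroup.mem_subgroupOf]
    exact hn
  · refine ⟨1, Subgroup.one_mem _, fun x hx => ⟨0, ?_⟩⟩
    have hx2 : (x : A) ∈ C1 u := le_of_eq (CD_zpowers u) x.2
    rw [pow_zero, inv_one, mul_one, CD_loc hDQ, Subgroup.mem_subgroupOf]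
    exact hH.reg h ((mem_St_loc h hQ x).1 hx) hu hu2 (Subgroup.mem_centralizer_singleton_iff.1 hx2)

end

end Pool.Agent.Lib.P0c8ca5.Ex
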