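import Mathlib

/-!
# The number of rows of an integral matrix with Gram matrix `I + e J` (MP_0c8ca5_al)

`rows_le`: if `A` is an integral matrix without zero rows and `Aᵀ A = I + e J` (`J` the all one
matrix) then the number of rows is at most the number of columns plus `e`.
-/

set_option autoImplicit false

namespace Pool.Agent.Lib.P0c8ca5.Ex

open Finset

/-- a nonconstant integral vector of length `m`: the squares of the differences of the ordered
pairs sum up to at least `2 (m - 1)` -/
theorem sum_sq_sub_ge {J : Type*} [Fintype J] (a : J → ℤ) {j l : J} (h : a j ≠ a l) :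
    2 * ((Fintype.card J : ℤ) - 1) ≤ ∑ x, ∑ y, (a x - a y) ^ 2 := by
  classical
  -- for every `x`, `(a x - a j)² + (a x - a l)² ≥ 1`
  have h1 : ∀ x, (1 : ℤ) ≤ (a x - a j) ^ 2 + (a x - a l) ^ 2 := by
    intro x
    by_cases hx : a x = a j
    · have h2 : a x - a l ≠ 0 := by
        rw [hx]
        exact sub_ne_zero.2 h
      have h3 : 0 < (a x - a l) ^ 2 := by positivity
      have h4 : 0 ≤ (a x - a j) ^ 2 := sq_nonneg _
      omega
    · have h3 : 0 < (a x - a j) ^ 2 := by
        have := sub_ne_zero.2 hx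
        positivity
      have h4 : 0 ≤ (a x - a l) ^ 2 := sq_nonneg _
      omega
  have hjl : j ≠ l := fun hh => h (by rw [hh])
  -- rows `j` and `l` of the double sum and the columns `j` and `l` outside these rows
  have hsplit : ∑ x, ∑ y, (a x - a y) ^ 2 =
      ∑ x ∈ univ.filter (fun x => x = j ∨ x = l), ∑ y, (a x - a y) ^ 2 +
      ∑ x ∈ univ.filter (fun x => ¬ (x = j ∨ x = l)), ∑ y, (a x - a y) ^ 2 :=
    (sum_filter_add_sum_filter_not _ _ _).symm
  have hfil : univ.filter (fun x => x = j ∨ x = l) = {j, l} := by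
    ext x
    simp
  have hA : (Fintype.card J : ℤ) ≤
      ∑ x ∈ univ.filter (fun x => x = j ∨ x = l), ∑ y, (a x - a y) ^ 2 := by
    rw [hfil, sum_pair hjl, ← sum_add_distrib]
    calc (Fintype.card J : ℤ) = ∑ _y : J, (1 : ℤ) := by simp
      _ ≤ _ := by
        refine sum_le_sum fun y _ => ?_
        have := h1 y
        calc (1 : ℤ) ≤ _ := this
          _ = _ := by ring
  have hB : (Fintype.card J : ℤ) - 2 ≤
      ∑ x ∈ univ.filter (fun x => ¬ (x = j ∨ x = l)), ∑ y, (a x - a y) ^ 2 := by
    have hcard : ((univ.filter (fun x => ¬ (x = j ∨ x = l))).card : ℤ) =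
        (Fintype.card J : ℤ) - 2 := by
      have h5 := card_filter_add_card_filter_not (s := (univ : Finset J)) (fun x => x = j ∨ x = l)
      rw [hfil, card_pair hjl, card_univ] at h5
      omega
    rw [← hcard]
    calc ((univ.filter (fun x => ¬ (x = j ∨ x = l))).card : ℤ)
        = ∑ _x ∈ univ.filter (fun x => ¬ (x = j ∨ x = l)), (1 : ℤ) := by simp
      _ ≤ _ := by
        refine sum_le_sum fun x _ => (h1 x).trans ?_
        calc (a x - a j) ^ 2 + (a x - a l) ^ 2
            = ∑ y ∈ ({j, l} : Finset J), (a x - a y) ^ 2 := by rw [sum_pair hjl]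
          _ ≤ _ := sum_le_sum_of_subset_of_nonneg (subset_univ _) fun _ _ _ => sq_nonneg _
  rw [hsplit]
  omega

theorem rows_le {I J : Type*} [Fintype I] [Fintype J] [DecidableEq J] [Nonempty J]
    (A : Matrix I J ℤ) (e : ℤ) (hne : ∀ i, A i ≠ 0)
    (hg : ∀ j l, ∑ i, A i j * A i l = (if j = l then 1 else 0) + e) :
    (Fintype.card I : ℤ) ≤ Fintype.card J + e := by
  classical
  set m : ℤ := ((Fintype.card J : ℕ) : ℤ) with hm
  -- the rows which are not constant
  let N : Finset I := univ.filter fun i => ∃ j l, A i j ≠ A i l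
  have htot : ∑ i, ∑ x, ∑ y, (A i x - A i y) ^ 2 = 2 * m * (m - 1) := by
    have h1 : ∑ i, ∑ x, ∑ y, (A i x - A i y) ^ 2 =
        ∑ x, ∑ y, ∑ i, (A i x - A i y) ^ 2 := by
      rw [sum_comm]
      exact sum_congr rfl fun x _ => sum_comm
    rw [h1]
    have h2 : ∀ x y, ∑ i, (A i x - A i y) ^ 2 = 2 - (if x = y then 2 else 0) := by
      intro x y
      have h3 : ∑ i, (A i x - A i y) ^ 2 =
          ∑ i, A i x * A i x + ∑ i, A i y * A i y - 2 * ∑ i, A i x * A i y := by
        rw [mul_sum, ← sum_add_distrib, ← sum_sub_distrib]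
        exact sum_congr rfl fun i _ => by ring
      rw [h3, hg, hg, hg, if_pos rfl, if_pos rfl]
      split_ifs <;> ring
    simp only [h2, sum_sub_distrib, sum_const, card_univ, nsmul_eq_mul, sum_ite_eq, mem_univ,
      if_true]
    rw [← hm]
    ring
  have hN : (N.card : ℤ) * (2 * (m - 1)) ≤ 2 * m * (m - 1) := by
    rw [← htot]
    calc (N.card : ℤ) * (2 * (m - 1)) = ∑ _i ∈ N, 2 * (m - 1) := by simp
      _ ≤ ∑ i ∈ N, ∑ x, ∑ y, (A i x - A i y) ^ 2 := by
        refine sum_le_sum fun i hi => ?_
        obtain ⟨j, l, hjl⟩ := (mem_filter.1 hi).2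
        exact sum_sq_sub_ge (A i) hjl
      _ ≤ _ := sum_le_sum_of_subset_of_nonneg (subset_univ _) fun i _ _ =>
        sum_nonneg fun _ _ => sum_nonneg fun _ _ => sq_nonneg _
  have hI : (Fintype.card I : ℤ) = N.card + (univ.filter fun i => ¬ ∃ j l, A i j ≠ A i l).card := by
    have h5 := card_filter_add_card_filter_not (s := (univ : Finset I))
      (fun i => ∃ j l, A i j ≠ A i l)
    rw [card_univ] at h5
    exact_mod_cast h5.symm
  -- a constant row has no zero entry
  have hconst : ∀ i, (¬ ∃ j l, A i j ≠ A i l) → ∀ j, A i j ≠ 0 := by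
    intro i hi j h0
    refine hne i (funext fun l => ?_)
    by_contra hl
    exact hi ⟨l, j, by rw [h0]; exact hl⟩
  have hcol : ∀ j, ((univ.filter fun i => ¬ ∃ j l, A i j ≠ A i l).card : ℤ) ≤
      1 + e - ∑ i ∈ N, A i j * A i j := by
    intro j
    have h6 := hg j j
    rw [if_pos rfl, ← sum_filter_add_sum_filter_not univ (fun i => ∃ j l, A i j ≠ A i l)] at h6
    have h7 : ((univ.filter fun i => ¬ ∃ j l, A i j ≠ A i l).card : ℤ) ≤
        ∑ i ∈ univ.filter (fun i => ¬ ∃ j l, A i j ≠ A i l), A i j * A i j := by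
      calc ((univ.filter fun i => ¬ ∃ j l, A i j ≠ A i l).card : ℤ)
          = ∑ _i ∈ univ.filter (fun i => ¬ ∃ j l, A i j ≠ A i l), (1 : ℤ) := by simp
        _ ≤ _ := by
          refine sum_le_sum fun i hi => ?_
          have h8 := hconst i (mem_filter.1 hi).2 j
          have : 0 < A i j * A i j := mul_self_pos.2 h8
          omega
    have h9 : ∑ i ∈ N, A i j * A i j = ∑ i ∈ univ.filter (fun i => ∃ j l, A i j ≠ A i l),
      A i j * A i j := rfl
    rw [h9]
    omega
  rw [hI]
  by_cases hNe : N.Nonempty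
  · obtain ⟨i, hi⟩ := hNe
    obtain ⟨j, l, hjl⟩ := (mem_filter.1 hi).2
    -- at least two columns
    have hm2 : 2 ≤ m := by
      have h10 : 1 < Fintype.card J := Fintype.one_lt_card_iff.2
        ⟨j, l, fun hh => hjl (by rw [hh])⟩
      rw [hm]
      exact_mod_cast h10
    have hNm : (N.card : ℤ) ≤ m := by
      by_contra hcon
      push Not at hcon
      nlinarith
    -- the row `i` is not zero in some column
    obtain ⟨c, hc⟩ : ∃ c, A i c ≠ 0 := by
      by_contra hcon
      push Not at hcon
      exact hne i (funext hcon)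
    have h11 := hcol c
    have h12 : (1 : ℤ) ≤ ∑ i ∈ N, A i c * A i c := by
      have h13 : A i c * A i c ≤ ∑ i ∈ N, A i c * A i c :=
        single_le_sum (f := fun i => A i c * A i c) (fun i _ => mul_self_nonneg _) hi
      have h14 : 0 < A i c * A i c := mul_self_pos.2 hc
      omega
    omega
  · rw [not_nonempty_iff_eq_empty] at hNe
    have h15 := hcol (Classical.arbitrary J)
    rw [hNe] at h15 ⊢
    simp only [sum_empty, sub_zero, card_empty, Nat.cast_zero, zero_add] at h15 ⊢
    have hm1 : 1 ≤ m := by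
      rw [hm]
      exact_mod_cast Fintype.card_pos
    omega

end Pool.Agent.Lib.P0c8ca5.Ex
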