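import Mathlib
import Pool.Agent.Lib.P0c8ca5Ex.NQ
import Pool.Agent.Lib.P0c8ca5Ku.AG

/-!
# N2a: the theorem on nilpotent blocks, pure part, all primes

`NData.card_eq`: the number of the rows is `|T|`. `NData.const_of`: a vector of natural numbers
orthogonal to the columns `t ≠ 1` is constant. No condition on the prime.
-/

set_option linter.unusedSectionVars false

namespace Pool.Agent.Lib.P0c8ca5.Ex

open Finset

section
variable {T : Type*} [CommGroup T] [Fintype T] {K : Type*} [Field K] [CharZero K]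
  [HasEnoughRootsOfUnity K (Monoid.exponent T)]
  {p : ℕ} {Z : Subgroup T} {I : Type*} [Fintype I] {θ Fc : I → T → K}
  {c : I → (↥Z →* Kˣ)} {n : T → ℤ} {a : ℤ}

theorem sameZ_of {Z : Subgroup T} {s t : T} (h : Subgroup.zpowers s = Subgroup.zpowers t) :
    SameZ Z s t := by
  have h1 : ∀ w : T, Subgroup.zpowers (QuotientGroup.mk w : T ⧸ Z)
      = (Subgroup.zpowers w).map (QuotientGroup.mk' Z) := by
    intro w
    rw [MonoidHom.map_zpowers]
    rfl
  rw [SameZ, h1, h1, h]

theorem notMem_of {Z : Subgroup T} {s t : T} (h : Subgroup.zpowers s = Subgroup.zpowers t)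
    (ht : t ∉ Z) : s ∉ Z := fun hs => ht (by
  have h1 : t ∈ Subgroup.zpowers s := by rw [h]; exact Subgroup.mem_zpowers t
  exact (Subgroup.zpowers_le.2 hs) h1)

theorem NData.n_ne (hd : NData p Z θ Fc c n a) (χ : I) {t : T} (ht : t ∉ Z) : (n t : K) ≠ 0 := by
  intro h0
  have h1 := hd.fac χ t ht
  rw [h0, zero_mul] at h1
  exact hd.ne χ t h1

theorem NData.f_ne (hd : NData p Z θ Fc c n a) (χ : I) {t : T} (ht : t ∉ Z) : Fc χ t ≠ 0 := by
  intro h0
  have h1 := hd.fac χ t ht
  rw [h0, mul_zero] at h1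
  exact hd.ne χ t h1

theorem NData.fac_inv (hd : NData p Z θ Fc c n a) (χ : I) {t : T} (ht : t ∉ Z) :
    θ χ t⁻¹ = (n t : K) * Fc χ t⁻¹ := by
  have h1 : t⁻¹ ∉ Z := fun h => ht (inv_mem_iff.1 h)
  rw [hd.fac χ _ h1, hd.gen t⁻¹ t h1 ht (sameZ_of Subgroup.zpowers_inv)]

/-- the norms of the normalised columns -/
theorem NData.f_norm (hd : NData p Z θ Fc c n a) [Nonempty I] {t : T} (ht : t ∉ Z) :
    ∑ χ, Fc χ t * Fc χ t⁻¹ = (Fintype.card T : K) := by
  obtain ⟨χ0⟩ := ‹Nonempty I›
  have hn := hd.n_ne χ0 ht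
  have h1 := hd.gram t ht
  rw [Finset.sum_congr rfl fun χ _ => by rw [hd.fac χ t ht, hd.fac_inv χ ht]] at h1
  have h2 : ∑ χ, (n t : K) * Fc χ t * ((n t : K) * Fc χ t⁻¹)
      = (n t : K) * (n t : K) * ∑ χ, Fc χ t * Fc χ t⁻¹ := by
    rw [Finset.mul_sum]
    exact Finset.sum_congr rfl fun χ _ => by ring
  rw [h2] at h1
  refine mul_left_cancel₀ (mul_ne_zero hn hn) ?_
  rw [h1]
  ring

open Classical in
theorem NData.ag (hp : p.Prime) (hT : IsPGroup p T) (hd : NData p Z θ Fc c n a) (χ : I) {u : T}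
    (hu : u ∉ Z) : ∃ z : ℤ,
      ∑ v with Subgroup.zpowers v = Subgroup.zpowers u, Fc χ v * Fc χ v⁻¹ = (z : K) ∧
      ((univ.filter fun v => Subgroup.zpowers v = Subgroup.zpowers u).card : ℤ) ≤ z := by
  obtain ⟨β, hβ, h1, -⟩ := hd.loc χ u hu
  obtain ⟨M, hM⟩ := hT u
  obtain ⟨z, hz, hz'⟩ := Ex.ag hp hβ hM (by
    rw [← h1 u rfl]
    exact hd.f_ne χ hu)
  refine ⟨z, ?_, hz'⟩
  rw [← hz]
  refine Finset.sum_congr rfl fun v hv => ?_
  have h2 := (Finset.mem_filter.1 hv).2
  rw [h1 v (sameZ_of h2), h1 v⁻¹ (sameZ_of (by rw [Subgroup.zpowers_inv, h2]))]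

theorem NData.nonempty (hp : p.Prime) (hd : NData p Z θ Fc c n a) : Nonempty I := by
  have h1 := hd.le_card hp
  have h2 : 0 < Fintype.card T := Fintype.card_pos
  exact Fintype.card_pos_iff.1 (by omega)

open Classical in
theorem NData.sum_z (hd : NData p Z θ Fc c n a) [Nonempty I] {u : T}
    (hu : u ∉ Z) {z : I → ℤ}
    (hz : ∀ χ, ∑ v with Subgroup.zpowers v = Subgroup.zpowers u, Fc χ v * Fc χ v⁻¹ = (z χ : K)) :
    ∑ χ, z χ = ((univ.filter fun v => Subgroup.zpowers v = Subgroup.zpowers u).card : ℤ)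
      * Fintype.card T := by
  have h1 : ((∑ χ, z χ : ℤ) : K)
      = ((((univ.filter fun v => Subgroup.zpowers v = Subgroup.zpowers u).card : ℤ)
        * Fintype.card T : ℤ) : K) := by
    rw [Int.cast_sum, Finset.sum_congr rfl fun χ _ => (hz χ).symm, Finset.sum_comm,
      Finset.sum_congr rfl fun v hv => hd.f_norm (notMem_of (Finset.mem_filter.1 hv).2 hu),
      Finset.sum_const, nsmul_eq_mul]
    push_cast
    rfl
  exact_mod_cast h1

/-- **the number of rows, all primes** -/
theorem NData.card_eq (hp : p.Prime) (hT : IsPGroup p T) (hZ : Z ≠ ⊤)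
    (hd : NData p Z θ Fc c n a) : Fintype.card I = Fintype.card T := by
  classical
  have hne := hd.nonempty hp
  refine le_antisymm ?_ (hd.le_card hp)
  obtain ⟨u, hu⟩ : ∃ u, u ∉ Z := by
    by_contra h0
    push Not at h0
    exact hZ ((Subgroup.eq_top_iff' Z).2 h0)
  choose z hz hz' using fun χ => hd.ag hp hT χ hu
  have h1 := hd.sum_z hu hz
  have h2 : (0 : ℤ) < (univ.filter fun v => Subgroup.zpowers v = Subgroup.zpowers u).card :=
    Int.natCast_pos.2 (Finset.card_pos.2 ⟨u, Finset.mem_filter.2 ⟨Finset.mem_univ _, rfl⟩⟩)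
  have h3 : ((univ.filter fun v => Subgroup.zpowers v = Subgroup.zpowers u).card : ℤ)
      * Fintype.card I ≤ ((univ.filter fun v => Subgroup.zpowers v = Subgroup.zpowers u).card : ℤ)
      * Fintype.card T := by
    rw [← h1]
    calc ((univ.filter fun v => Subgroup.zpowers v = Subgroup.zpowers u).card : ℤ)
          * Fintype.card I
        = ∑ χ : I, ((univ.filter fun v => Subgroup.zpowers v = Subgroup.zpowers u).card : ℤ) := by
          rw [Finset.sum_const, Finset.card_univ, nsmul_eq_mul, mul_comm]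
      _ ≤ ∑ χ, z χ := Finset.sum_le_sum fun χ _ => hz' χ
  exact_mod_cast le_of_mul_le_mul_left h3 h2

open Classical in
/-- the norms over the generators of a cyclic subgroup -/
theorem NData.ag_eq (hp : p.Prime) (hT : IsPGroup p T) (hZ : Z ≠ ⊤)
    (hd : NData p Z θ Fc c n a) (χ : I) {u : T} (hu : u ∉ Z) :
    ∑ v with Subgroup.zpowers v = Subgroup.zpowers u, Fc χ v * Fc χ v⁻¹
      = ((univ.filter fun v => Subgroup.zpowers v = Subgroup.zpowers u).card : K) := by
  have hne := hd.nonempty hp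
  choose z hz hz' using fun χ => hd.ag hp hT χ hu
  have h1 := hd.sum_z hu hz
  have h2 : ∑ χ : I, ((univ.filter fun v => Subgroup.zpowers v = Subgroup.zpowers u).card : ℤ)
      = ∑ χ, z χ := by
    rw [h1, Finset.sum_const, Finset.card_univ, nsmul_eq_mul, hd.card_eq hp hT hZ, mul_comm]
  have h3 := (Finset.sum_eq_sum_iff_of_le fun χ _ => hz' χ).1 h2 χ (Finset.mem_univ _)
  rw [hz χ, ← h3, Int.cast_natCast]

open Classical in
/-- the norms off `Z` -/
theorem NData.ag_off (hp : p.Prime) (hT : IsPGroup p T) (hZ : Z ≠ ⊤)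
    (hd : NData p Z θ Fc c n a) (χ : I) :
    ∑ v with v ∉ Z, Fc χ v * Fc χ v⁻¹ = ((univ.filter fun v => v ∉ Z).card : K) := by
  have key : ∀ F : T → K, ∑ v with v ∉ Z, F v
      = ∑ H : Subgroup T, ∑ v with v ∉ Z ∧ Subgroup.zpowers v = H, F v := by
    intro F
    rw [← Finset.sum_fiberwise (univ.filter fun v => v ∉ Z) (fun v => Subgroup.zpowers v) F]
    refine Finset.sum_congr rfl fun H _ => ?_
    rw [Finset.filter_filter]
  have h1 : ((univ.filter fun v => v ∉ Z).card : K) = ∑ v with v ∉ Z, (1 : K) := by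
    rw [Finset.sum_const, nsmul_eq_mul, mul_one]
  rw [h1, key, key]
  refine Finset.sum_congr rfl fun H _ => ?_
  by_cases hH : ∃ u, u ∉ Z ∧ Subgroup.zpowers u = H
  · obtain ⟨u, hu, rfl⟩ := hH
    have h2 : (univ.filter fun v => v ∉ Z ∧ Subgroup.zpowers v = Subgroup.zpowers u)
        = univ.filter fun v => Subgroup.zpowers v = Subgroup.zpowers u := by
      refine Finset.filter_congr fun v _ => ⟨fun h => h.2, fun h => ⟨notMem_of h hu, h⟩⟩
    rw [h2, hd.ag_eq hp hT hZ χ hu, Finset.sum_const, nsmul_eq_mul, mul_one]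
  · have h2 : (univ.filter fun v => v ∉ Z ∧ Subgroup.zpowers v = H) = ∅ := by
      rw [Finset.filter_eq_empty_iff]
      exact fun v _ h => hH ⟨v, h⟩
    rw [h2, Finset.sum_empty, Finset.sum_empty]

/-- the rows of a square matrix with orthogonal columns -/
theorem row_norm {T I K : Type*} [Fintype T] [Fintype I] [Field K]
    (hc : Fintype.card I = Fintype.card T) (U V : T → I → K) (w : T → K) (hw : ∀ t, w t ≠ 0)
    (h0 : ∀ s t, s ≠ t → ∑ χ, U s χ * V t χ = 0) (h1 : ∀ t, ∑ χ, U t χ * V t χ = w t) (χ : I) :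
    ∑ t, U t χ * V t χ / w t = 1 := by
  classical
  let M : Matrix T I K := fun t χ => U t χ
  let N : Matrix I T K := fun χ t => V t χ / w t
  have hMN : M * N = 1 := by
    ext s t
    rw [Matrix.mul_apply, Matrix.one_apply]
    have e1 : ∑ χ, M s χ * N χ t = (∑ χ, U s χ * V t χ) / w t := by
      rw [Finset.sum_div]
      exact Finset.sum_congr rfl fun χ _ => (mul_div_assoc _ _ _).symm
    rw [e1]
    split_ifs with h
    · rw [h, h1, div_self (hw t)]
    · rw [h0 s t h, zero_div]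
  have hNM : N * M = 1 := (Matrix.mul_eq_one_comm_of_equiv (Fintype.equivOfCardEq hc.symm)).1 hMN
  have h2 := congrFun (congrFun hNM χ) χ
  rw [Matrix.mul_apply, Matrix.one_apply_eq] at h2
  rw [← h2]
  refine Finset.sum_congr rfl fun t _ => ?_
  change U t χ * V t χ / w t = V t χ / w t * U t χ
  ring

open Classical in
/-- the sum over `T` of the norms of a row, `x` at `1` and `y` on `Z` off `1` -/
theorem sum_three {Z : Subgroup T} (F : T → K) {x y w : K} (h1 : F 1 = x)
    (hy : ∀ z ∈ Z, z ≠ 1 → F z = y) (hw : ∑ v with v ∉ Z, F v = w) :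
    ∑ t, F t = x + ((Nat.card ↥Z : K) - 1) * y + w := by
  rw [← hw, ← Finset.sum_filter_add_sum_filter_not univ (fun v => v ∈ Z) F]
  congr 1
  have h2 : (1 : T) ∈ univ.filter fun v => v ∈ Z :=
    Finset.mem_filter.2 ⟨Finset.mem_univ _, Z.one_mem⟩
  rw [← Finset.add_sum_erase _ _ h2, h1]
  congr 1
  rw [Finset.sum_congr rfl (g := fun _ => y) (fun z hz =>
    hy z (Finset.mem_filter.1 (Finset.mem_erase.1 hz).2).2 (Finset.mem_erase.1 hz).1),
    Finset.sum_const, nsmul_eq_mul, Finset.card_erase_of_mem h2]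
  congr 1
  have h3 : (univ.filter fun v => v ∈ Z).card = Nat.card ↥Z := by
    rw [Nat.card_eq_fintype_card, Fintype.card_subtype]
  rw [h3, Nat.cast_sub (Nat.succ_le_of_lt Nat.card_pos), Nat.cast_one]

theorem NData.one_eq (hd : NData p Z θ Fc c n a) (χ : I) {z : T} (hz : z ∈ Z) :
    θ χ z * θ χ z⁻¹ = θ χ 1 * θ χ 1 := by
  have h2 := hd.mulz χ ⟨z, hz⟩ 1
  have h3 := hd.mulz χ ⟨z, hz⟩⁻¹ 1
  rw [mul_one] at h2 h3
  have h4 : ((⟨z, hz⟩⁻¹ : ↥Z) : T) = z⁻¹ := rfl
  rw [h4, map_inv] at h3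
  change θ χ z = _ at h2
  rw [h2, h3]
  have h5 : ((c χ ⟨z, hz⟩ : Kˣ) : K) * (((c χ ⟨z, hz⟩)⁻¹ : Kˣ) : K) = 1 := Units.mul_inv _
  linear_combination (θ χ 1 * θ χ 1) * h5

/-- the row norm identity -/
theorem NData.row_id (hp : p.Prime) (hT : IsPGroup p T) (hZ : Z ≠ ⊤)
    (hd : NData p Z θ Fc c n a) (d : I → K) {s : K} (hs : ∑ χ, d χ * d χ = s) (hs0 : s ≠ 0)
    (hdo : ∀ t, t ≠ 1 → ∑ χ, d χ * θ χ t = 0) (χ : I) :
    d χ * d χ / s + ((Nat.card ↥Z : K) - 1) * (θ χ 1 * θ χ 1 / ((Fintype.card T : K) * a))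
      + ((Fintype.card T : K) - Nat.card ↥Z) / Fintype.card T = 1 := by
  classical
  have hne := hd.nonempty hp
  have hc := hd.card_eq hp hT hZ
  have hcT : (Fintype.card T : K) ≠ 0 := Nat.cast_ne_zero.2 Fintype.card_ne_zero
  have ha := hd.a_ne hp
  let U : T → I → K := fun t χ => if t = 1 then d χ else θ χ t
  let V : T → I → K := fun t χ => if t = 1 then d χ else θ χ t⁻¹
  let w : T → K := fun t => if t = 1 then s else if t ∈ Z then (Fintype.card T : K) * a else
    (Fintype.card T : K) * n t * n t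
  have hinv : ∀ t : T, t ≠ 1 → t⁻¹ ≠ 1 := fun t ht => inv_ne_one.2 ht
  have key := row_norm hc U V w ?_ ?_ ?_ χ
  · rw [sum_three (Z := Z) (fun t => U t χ * V t χ / w t) (x := d χ * d χ / s)
      (y := θ χ 1 * θ χ 1 / ((Fintype.card T : K) * a))
      (w := ((Fintype.card T : K) - Nat.card ↥Z) / Fintype.card T) ?_ ?_ ?_] at key
    · exact key
    · change (if (1 : T) = 1 then d χ else _) * (if (1 : T) = 1 then d χ else _)
        / (if (1 : T) = 1 then s else _) = _
      rw [if_pos rfl, if_pos rfl, if_pos rfl]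
    · intro z hz hz1
      change (if z = 1 then d χ else _) * (if z = 1 then d χ else _)
        / (if z = 1 then s else _) = _
      rw [if_neg hz1, if_neg hz1, if_neg hz1, if_pos hz, hd.one_eq χ hz]
    · have h1 : ∀ v ∈ univ.filter (fun v => v ∉ Z), U v χ * V v χ / w v
          = (Fc χ v * Fc χ v⁻¹) / Fintype.card T := by
        intro v hv
        have hv := (Finset.mem_filter.1 hv).2
        have hv1 : v ≠ 1 := fun h => hv (h ▸ Z.one_mem)
        change (if v = 1 then d χ else _) * (if v = 1 then d χ else _)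
          / (if v = 1 then s else _) = _
        rw [if_neg hv1, if_neg hv1, if_neg hv1, if_neg hv, hd.fac χ v hv, hd.fac_inv χ hv]
        have hn := hd.n_ne χ hv
        field_simp
      rw [Finset.sum_congr rfl h1, ← Finset.sum_div, hd.ag_off hp hT hZ χ]
      congr 1
      have h2 : (univ.filter fun v => v ∉ Z).card + (univ.filter fun v => v ∈ Z).card
          = Fintype.card T := by
        rw [add_comm, Finset.card_filter_add_card_filter_not, Finset.card_univ]
      have h3 : (univ.filter fun v => v ∈ Z).card = Nat.card ↥Z := by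
        rw [Nat.card_eq_fintype_card, Fintype.card_subtype]
      rw [h3] at h2
      rw [← h2]
      push_cast
      ring
  · intro t
    change (if t = 1 then s else if t ∈ Z then (Fintype.card T : K) * a else
      (Fintype.card T : K) * n t * n t) ≠ 0
    split_ifs with h1 h2
    · exact hs0
    · exact mul_ne_zero hcT ha
    · obtain ⟨χ0⟩ := hne
      exact mul_ne_zero (mul_ne_zero hcT (hd.n_ne χ0 h2)) (hd.n_ne χ0 h2)
  · intro s' t hst
    change ∑ χ, (if s' = 1 then d χ else θ χ s') * (if t = 1 then d χ else θ χ t⁻¹) = 0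
    by_cases h1 : s' = 1
    · have h2 : t ≠ 1 := fun h => hst (h1.trans h.symm)
      simp only [if_pos h1, if_neg h2]
      exact hdo _ (hinv t h2)
    · by_cases h2 : t = 1
      · simp only [if_neg h1, if_pos h2]
        rw [← hdo s' h1]
        exact Finset.sum_congr rfl fun χ _ => mul_comm _ _
      · simp only [if_neg h1, if_neg h2]
        exact hd.gram0 s' t hst
  · intro t
    change ∑ χ, (if t = 1 then d χ else θ χ t) * (if t = 1 then d χ else θ χ t⁻¹)
      = if t = 1 then s else if t ∈ Z then (Fintype.card T : K) * a else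
        (Fintype.card T : K) * n t * n t
    split_ifs with h1 h2
    · exact hs
    · rw [← hd.one]
      exact Finset.sum_congr rfl fun χ _ => hd.one_eq χ h2
    · exact hd.gram t h2

/-- **a vector of natural numbers orthogonal to the columns off `1` is constant** -/
theorem NData.const_of (hp : p.Prime) (hT : IsPGroup p T) (hZ : Z ≠ ⊤)
    (hd : NData p Z θ Fc c n a) (d : I → ℕ)
    (hdo : ∀ t, t ≠ 1 → ∑ χ, (d χ : K) * θ χ t = 0) : ∀ χ χ', d χ = d χ' := by
  have hne := hd.nonempty hp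
  have hcT : (Fintype.card T : K) ≠ 0 := Nat.cast_ne_zero.2 Fintype.card_ne_zero
  have ha := hd.a_ne hp
  have hZ0 : (Nat.card ↥Z : K) ≠ 0 := Nat.cast_ne_zero.2 Nat.card_pos.ne'
  -- the values at 1
  have h1 : ∀ χ, θ χ 1 * θ χ 1 / ((Fintype.card T : K) * a) = 1 / Fintype.card T := by
    intro χ
    have h2 := hd.row_id hp hT hZ (fun χ => θ χ 1) hd.one (mul_ne_zero hcT ha) (fun t ht => by
      have h3 := hd.gram0 1 t⁻¹ (inv_ne_one.2 ht).symm
      rwa [inv_inv] at h3) χ
    have h3 : (Nat.card ↥Z : K) * (θ χ 1 * θ χ 1 / ((Fintype.card T : K) * a))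
        = (Nat.card ↥Z : K) * (1 / Fintype.card T) := by
      have h4 : (Fintype.card T : K) / Fintype.card T = 1 := div_self hcT
      rw [sub_div, h4] at h2
      linear_combination h2
    exact mul_left_cancel₀ hZ0 h3
  by_cases hs : ∑ χ, (d χ : K) * d χ = 0
  · have h2 : ∑ χ, d χ * d χ = 0 := by exact_mod_cast hs
    have h3 : ∀ χ, d χ = 0 := fun χ => by
      have h4 := (Finset.sum_eq_zero_iff.1 h2) χ (Finset.mem_univ _)
      exact mul_self_eq_zero.1 h4
    intro χ χ'
    rw [h3, h3]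
  · have h2 : ∀ χ, (d χ : K) * d χ / (∑ χ, (d χ : K) * d χ) = 1 / Fintype.card T := by
      intro χ
      have h3 := hd.row_id hp hT hZ (fun χ => (d χ : K)) rfl hs hdo χ
      have h4 : (Fintype.card T : K) / Fintype.card T = 1 := div_self hcT
      rw [h1 χ, sub_div, h4] at h3
      linear_combination h3
    intro χ χ'
    have h3 := (h2 χ).trans (h2 χ').symm
    rw [div_left_inj' hs] at h3
    have h4 : d χ * d χ = d χ' * d χ' := by exact_mod_cast h3
    exact Nat.mul_self_inj.1 h4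

end

end Pool.Agent.Lib.P0c8ca5.Ex
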