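import Mathlib
import Pool.Agent.Lib.P0c8ca5Ex.FI
import Pool.Agent.Lib.P0c8ca5Ex.GA
import Pool.Agent.Lib.P0c8ca5Ex.NL

/-!
# YA: generalized characters as functions

* `sm F` is the sum over the group, `ch χ` the character `χ` as a function on `A`, `V K A` the
  group of the generalized characters, `ip X Y` the inner product `|A|⁻¹ ∑ X(x) Y(x⁻¹)`.
-/

set_option linter.unusedSectionVars false

namespace Pool.Agent.Lib.P0c8ca5.Ex

open MonoidAlgebra

section
variable {K : Type*} [Field K] {A : Type*} [Group A] [Finite A]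

/-- the sum over a finite group -/
noncomputable def sm (F : A → K) : K := letI := Fintype.ofFinite A; ∑ x, F x

theorem sm_eq [inst : Fintype A] (F : A → K) : sm F = ∑ x, F x := by
  rw [sm, Subsingleton.elim (Fintype.ofFinite A) inst]

theorem sm_congr {F G : A → K} (h : ∀ x, F x = G x) : sm F = sm G := by
  rw [funext h]

theorem sm_zero : sm (fun _ : A => (0 : K)) = 0 := by
  have := Fintype.ofFinite A
  rw [sm_eq, Finset.sum_const_zero]

theorem sm_add (F G : A → K) : sm (fun x => F x + G x) = sm F + sm G := by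
  have := Fintype.ofFinite A
  rw [sm_eq, sm_eq, sm_eq, Finset.sum_add_distrib]

theorem sm_neg (F : A → K) : sm (fun x => - F x) = - sm F := by
  have := Fintype.ofFinite A
  rw [sm_eq, sm_eq, Finset.sum_neg_distrib]

theorem sm_mul (c : K) (F : A → K) : sm (fun x => c * F x) = c * sm F := by
  have := Fintype.ofFinite A
  rw [sm_eq, sm_eq, Finset.mul_sum]

theorem sm_equiv {B : Type*} [Group B] [Finite B] (e : B ≃ A) (F : A → K) :
    sm (fun x => F (e x)) = sm F := by
  have := Fintype.ofFinite A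
  have := Fintype.ofFinite B
  rw [sm_eq, sm_eq]
  exact Equiv.sum_comp e F

theorem sm_inv (F : A → K) : sm (fun x => F x⁻¹) = sm F := sm_equiv (Equiv.inv A) F

theorem sm_mul_left (g : A) (F : A → K) : sm (fun x => F (g * x)) = sm F :=
  sm_equiv (Equiv.mulLeft g) F

theorem sm_conj (g : A) (F : A → K) : sm (fun x => F (g * x * g⁻¹)) = sm F :=
  sm_equiv (MulAut.conj g).toEquiv F

theorem sm_sum {ι : Type*} (S : Finset ι) (F : ι → A → K) :
    sm (fun x => ∑ i ∈ S, F i x) = ∑ i ∈ S, sm (F i) := by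
  have := Fintype.ofFinite A
  rw [sm_eq, Finset.sum_comm]
  exact Finset.sum_congr rfl fun i _ => (sm_eq _).symm

theorem sm_const (c : K) : sm (fun _ : A => c) = (Nat.card A : K) * c := by
  have := Fintype.ofFinite A
  rw [sm_eq, Finset.sum_const, Finset.card_univ, nsmul_eq_mul, Nat.card_eq_fintype_card]

theorem sm_comm {B : Type*} [Group B] [Finite B] (F : A → B → K) :
    sm (fun x => sm (fun y => F x y)) = sm (fun y => sm (fun x => F x y)) := by
  have := Fintype.ofFinite A
  have := Fintype.ofFinite B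
  simp only [sm_eq]
  exact Finset.sum_comm

/-- the sum over a subgroup -/
theorem sm_sub (H : Subgroup A) {F : A → K} (hF : ∀ x, x ∉ H → F x = 0) :
    sm F = sm (fun x : ↥H => F x) := by
  classical
  have := Fintype.ofFinite A
  rw [sm_eq, sm_eq]
  have h1 : ∑ x, F x = ∑ x with x ∈ H, F x := by
    rw [Finset.sum_filter]
    refine Finset.sum_congr rfl fun x _ => ?_
    split_ifs with h
    · rfl
    · exact hF x h
  rw [h1]
  exact Finset.sum_subtype (Finset.univ.filter fun x => x ∈ H) (fun x => by simp) F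

end

section
variable {K : Type*} [Field K] [IsAlgClosed K] [CharZero K] {A : Type*} [Group A] [Finite A]

/-- the character as a function -/
noncomputable def ch (χ : Ir K A) (x : A) : K := chi χ (single x 1)

theorem ch_mul_comm (χ : Ir K A) (x y : A) : ch χ (x * y) = ch χ (y * x) := by
  have h : ∀ a b : A, single (a * b) (1 : K) = single a 1 * single b 1 := fun a b => by
    rw [single_mul_single, one_mul]
  rw [ch, ch, h, h, chi_mul_comm]

theorem ch_conj (χ : Ir K A) (g x : A) : ch χ (g * x * g⁻¹) = ch χ x := by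
  rw [ch_mul_comm, inv_mul_cancel_left]

theorem ch_one (χ : Ir K A) : ch χ 1 = (dg χ : K) := by
  rw [ch, ← one_def, chi_one]

/-- column orthogonality -/
theorem col (x y : A) : ∑ χ : Ir K A, ch χ x * ch χ y
    = (Nat.card {g : A // x * g * y = g} : K) := by
  classical
  have := Fintype.ofFinite A
  have h := bim (K := K) (single x 1) (single y 1)
  rw [show (∑ χ : Ir K A, ch χ x * ch χ y)
    = ∑ i : Ir K A, chi i (single x 1) * chi i (single y 1) from rfl, ← h]
  have h1 : ∀ g : A, (single x (1 : K) * single g 1 * single y 1).coeff g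
      = if x * g * y = g then 1 else 0 := by
    intro g
    rw [single_mul_single, single_mul_single, one_mul, one_mul, coeff_single,
      Finsupp.single_apply]
  rw [Finset.sum_congr rfl fun g _ => h1 g, ← Finset.sum_filter, Finset.sum_const, nsmul_eq_mul,
    mul_one, Nat.card_eq_fintype_card, Fintype.card_subtype]

/-- a central trace form in terms of characters -/
theorem sum_chi_ch (j : Ir K A) (h : A) : sm (fun g : A => chi j (single h 1 * single g 1 *
    single g⁻¹ 1)) = (Nat.card A : K) * ch j h := by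
  have h1 : ∀ g : A, chi j (single h (1 : K) * single g 1 * single g⁻¹ 1) = ch j h := by
    intro g
    rw [single_mul_single, single_mul_single, one_mul, one_mul, mul_inv_cancel_right, ch]
  rw [sm_congr h1, sm_const]

/-- row orthogonality -/
theorem row_orth (i j : Ir K A) : sm (fun x : A => ch i x * ch j x⁻¹)
    = if i = j then (Nat.card A : K) else 0 := by
  classical
  have := Fintype.ofFinite A
  -- `ch i x` is the value at `e0 i` of the trace form of `x`
  have h1 : ∀ x : A, ch i x = ∑ g : A, (e0 i).coeff (g * x⁻¹ * g⁻¹) := by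
    intro x
    have h := bim (K := K) (e0 i) (single x 1)
    have h2 : ∑ l : Ir K A, chi l (e0 i) * chi l (single x 1) = ch i x := by
      rw [Finset.sum_eq_single i]
      · rw [chi_e0, if_pos rfl, one_mul, ch]
      · intro l _ hl
        rw [chi_e0, if_neg hl, zero_mul]
      · intro h
        exact absurd (Finset.mem_univ _) h
    rw [← h2, ← h]
    refine Finset.sum_congr rfl fun g _ => ?_
    rw [coeff_mul_single_apply, coeff_mul_single_apply, mul_one, mul_one]
  rw [sm_eq]
  have h2 : ∀ x : A, ch i x * ch j x⁻¹ = ∑ g : A, (e0 i).coeff (g * x⁻¹ * g⁻¹) * ch j (g * x⁻¹ * g⁻¹) := by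
    intro x
    rw [h1 x, Finset.sum_mul]
    refine Finset.sum_congr rfl fun g _ => ?_
    rw [ch_conj]
  rw [Finset.sum_congr rfl fun x _ => h2 x, Finset.sum_comm]
  have h3 : ∀ g : A, ∑ x : A, (e0 i).coeff (g * x⁻¹ * g⁻¹) * ch j (g * x⁻¹ * g⁻¹)
      = chi j (e0 i) := by
    intro g
    have e1 : ∑ x : A, (e0 i).coeff (g * x⁻¹ * g⁻¹) * ch j (g * x⁻¹ * g⁻¹)
        = ∑ x : A, (e0 i).coeff x * ch j x := by
      rw [← sm_eq, ← sm_eq, sm_inv (fun x => (e0 i).coeff (g * x * g⁻¹) * ch j (g * x * g⁻¹)),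
        sm_conj g (fun x => (e0 i).coeff x * ch j x)]
    rw [e1]
    have e2 : (e0 i : MonoidAlgebra K A) = ∑ x : A, (e0 i).coeff x • single x 1 := by
      ext y
      rw [MonoidAlgebra.coeff_sum, Finsupp.finsetSum_apply, Finset.sum_eq_single y]
      · rw [coeff_smul, Finsupp.smul_apply, coeff_single, Finsupp.single_eq_same, smul_eq_mul,
          mul_one]
      · intro z _ hz
        rw [coeff_smul, Finsupp.smul_apply, coeff_single, Finsupp.single_eq_of_ne hz.symm,
          smul_zero]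
      · intro h
        exact absurd (Finset.mem_univ _) h
    conv_rhs => rw [e2]
    rw [map_sum]
    refine Finset.sum_congr rfl fun x _ => ?_
    rw [map_smul, smul_eq_mul, ch]
  rw [Finset.sum_congr rfl fun g _ => h3 g, Finset.sum_const, Finset.card_univ, nsmul_eq_mul,
    chi_e0, Nat.card_eq_fintype_card]
  split_ifs with h4 h5 h6
  · rw [mul_one]
  · exact absurd h4.symm h5
  · exact absurd h6.symm h4
  · rw [mul_zero]

/-- the inner product -/
noncomputable def ip (X Y : A → K) : K := (Nat.card A : K)⁻¹ * sm (fun x => X x * Y x⁻¹)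

theorem cardK_ne : (Nat.card A : K) ≠ 0 := Nat.cast_ne_zero.2 Nat.card_pos.ne'

theorem ip_ch (i j : Ir K A) : ip (ch i) (ch j) = if i = j then (1 : K) else 0 := by
  rw [ip, row_orth]
  split_ifs
  · exact inv_mul_cancel₀ cardK_ne
  · rw [mul_zero]

theorem ip_comm (X Y : A → K) : ip X Y = ip Y X := by
  rw [ip, ip, ← sm_inv (fun x : A => X x * Y x⁻¹)]
  congr 1
  refine sm_congr fun x => ?_
  rw [inv_inv, mul_comm]

theorem ip_add (X Y Z : A → K) : ip (X + Y) Z = ip X Z + ip Y Z := by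
  rw [ip, ip, ip, ← mul_add, ← sm_add]
  congr 1
  refine sm_congr fun x => ?_
  rw [Pi.add_apply, add_mul]

theorem ip_neg (X Z : A → K) : ip (-X) Z = - ip X Z := by
  rw [ip, ip, ← mul_neg, ← sm_neg]
  congr 1
  refine sm_congr fun x => ?_
  rw [Pi.neg_apply, neg_mul]

theorem ip_zero (Z : A → K) : ip 0 Z = 0 := by
  rw [ip]
  have h : ∀ x : A, (0 : A → K) x * Z x⁻¹ = 0 := fun x => by rw [Pi.zero_apply, zero_mul]
  rw [sm_congr h, sm_zero, mul_zero]

theorem ip_smul (c : K) (X Z : A → K) : ip (c • X) Z = c * ip X Z := by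
  have h : ∀ x : A, (c • X) x * Z x⁻¹ = c * (X x * Z x⁻¹) := fun x => by
    rw [Pi.smul_apply, smul_eq_mul, mul_assoc]
  rw [ip, ip, sm_congr h, sm_mul]
  ring

theorem ip_sum {ι : Type*} (S : Finset ι) (X : ι → A → K) (Z : A → K) :
    ip (fun x => ∑ i ∈ S, X i x) Z = ∑ i ∈ S, ip (X i) Z := by
  rw [ip]
  have h : ∀ x : A, (∑ i ∈ S, X i x) * Z x⁻¹ = ∑ i ∈ S, X i x * Z x⁻¹ := fun x =>
    Finset.sum_mul _ _ _
  rw [sm_congr h, sm_sum, Finset.mul_sum]
  rfl

variable (K A) in
/-- the generalized characters -/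
def V : AddSubgroup (A → K) := AddSubgroup.closure (Set.range (ch : Ir K A → A → K))

theorem ch_mem (χ : Ir K A) : ch χ ∈ V K A := AddSubgroup.subset_closure ⟨χ, rfl⟩

theorem V_induction {P : (A → K) → Prop} (hc : ∀ χ : Ir K A, P (ch χ)) (h0 : P 0)
    (ha : ∀ x y, P x → P y → P (x + y)) (hn : ∀ x, P x → P (-x)) {X : A → K} (hX : X ∈ V K A) :
    P X := by
  refine AddSubgroup.closure_induction (p := fun x _ => P x) ?_ h0 ?_ ?_ hX
  · rintro _ ⟨χ, rfl⟩
    exact hc χ
  · intro x y _ _ hx hy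
    exact ha x y hx hy
  · intro x _ hx
    exact hn x hx

theorem V_conj {X : A → K} (hX : X ∈ V K A) (g x : A) : X (g * x * g⁻¹) = X x := by
  refine V_induction (P := fun X => X (g * x * g⁻¹) = X x) (fun χ => ch_conj χ g x) rfl
    (fun _ _ hY hZ => ?_) (fun _ hY => ?_) hX
  · rw [Pi.add_apply, Pi.add_apply, hY, hZ]
  · rw [Pi.neg_apply, Pi.neg_apply, hY]

theorem V_expand {X : A → K} (hX : X ∈ V K A) :
    (∀ χ : Ir K A, ∃ z : ℤ, ip X (ch χ) = z) ∧ ∀ x, X x = ∑ χ : Ir K A, ip X (ch χ) * ch χ x := by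
  refine V_induction (P := fun X => (∀ χ : Ir K A, ∃ z : ℤ, ip X (ch χ) = z) ∧
    ∀ x, X x = ∑ χ : Ir K A, ip X (ch χ) * ch χ x) (fun ψ => ⟨fun χ => ?_, fun x => ?_⟩)
    ⟨fun χ => ⟨0, by rw [ip_zero, Int.cast_zero]⟩, fun x => ?_⟩
    (fun Y Z hY hZ => ⟨fun χ => ?_, fun x => ?_⟩) (fun Y hY => ⟨fun χ => ?_, fun x => ?_⟩) hX
  · rw [ip_ch]
    split_ifs
    · exact ⟨1, by rw [Int.cast_one]⟩
    · exact ⟨0, by rw [Int.cast_zero]⟩
  · simp only [ip_ch]
    rw [Finset.sum_eq_single ψ]
    · rw [if_pos rfl, one_mul]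
    · intro b _ hb
      rw [if_neg (Ne.symm hb), zero_mul]
    · intro h
      exact absurd (Finset.mem_univ _) h
  · simp only [ip_zero, zero_mul, Finset.sum_const_zero]
    rfl
  · obtain ⟨a, ha⟩ := hY.1 χ
    obtain ⟨b, hb⟩ := hZ.1 χ
    exact ⟨a + b, by rw [ip_add, ha, hb, Int.cast_add]⟩
  · rw [Pi.add_apply, hY.2 x, hZ.2 x, ← Finset.sum_add_distrib]
    refine Finset.sum_congr rfl fun χ _ => ?_
    rw [ip_add, add_mul]
  · obtain ⟨a, ha⟩ := hY.1 χ
    exact ⟨-a, by rw [ip_neg, ha, Int.cast_neg]⟩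
  · rw [Pi.neg_apply, hY.2 x, ← Finset.sum_neg_distrib]
    refine Finset.sum_congr rfl fun χ _ => ?_
    rw [ip_neg, neg_mul]

theorem V_of_sum (c : Ir K A → ℤ) : (fun x => ∑ χ : Ir K A, (c χ : K) * ch χ x) ∈ V K A := by
  have h : (fun x => ∑ χ : Ir K A, (c χ : K) * ch χ x) = ∑ χ : Ir K A, c χ • ch χ := by
    funext x
    rw [Finset.sum_apply]
    refine Finset.sum_congr rfl fun χ _ => ?_
    rw [Pi.smul_apply, zsmul_eq_mul]
  rw [h]
  exact AddSubgroup.sum_mem _ fun χ _ => AddSubgroup.zsmul_mem _ (ch_mem χ) _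

theorem ip_int {X Y : A → K} (hX : X ∈ V K A) (hY : Y ∈ V K A) : ∃ z : ℤ, ip X Y = z := by
  refine V_induction (P := fun Y => ∃ z : ℤ, ip X Y = z) (fun χ => (V_expand hX).1 χ)
    ⟨0, by rw [ip_comm, ip_zero, Int.cast_zero]⟩ ?_ ?_ hY
  · rintro Y Z ⟨a, ha⟩ ⟨b, hb⟩
    exact ⟨a + b, by rw [ip_comm, ip_add, ip_comm, ha, ip_comm, hb, Int.cast_add]⟩
  · rintro Y ⟨a, ha⟩
    exact ⟨-a, by rw [ip_comm, ip_neg, ip_comm, ha, Int.cast_neg]⟩

/-- Parseval -/
theorem ip_pars {X Y : A → K} (hX : X ∈ V K A) (Z : A → K) :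
    ip X Z = ∑ χ : Ir K A, ip X (ch χ) * ip (ch χ) Z := by
  have h : X = fun x => ∑ χ : Ir K A, (ip X (ch χ) • ch χ) x := by
    funext x
    rw [(V_expand hX).2 x]
    rfl
  conv_lhs => rw [h]
  rw [ip_sum]
  refine Finset.sum_congr rfl fun χ _ => ?_
  rw [ip_smul]

/-- restriction along a homomorphism -/
theorem V_comp {B : Type*} [Group B] [Finite B] (ψ : B →* A) {X : A → K} (hX : X ∈ V K A) :
    (fun x => X (ψ x)) ∈ V K B := by
  refine V_induction (P := fun X => (fun x => X (ψ x)) ∈ V K B) (fun χ => ?_) ?_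
    (fun _ _ hY hZ => ?_) (fun _ hY => ?_) hX
  · -- the trace form `chi χ ∘ ψ`
    let m : MonoidAlgebra K B →ₐ[K] MonoidAlgebra K A := MonoidAlgebra.mapDomainAlgHom K K ψ
    let t : MonoidAlgebra K B →ₗ[K] K := (chi χ).comp m.toLinearMap
    have h1 := trace_form t (fun a b => by
      change chi χ (m (a * b)) = chi χ (m (b * a))
      rw [map_mul m, map_mul m, chi_mul_comm])
    have h2 : ∀ j : Ir K B, ∃ r : ℕ, t (e0 j) = r := by
      intro j
      refine chi_idem χ (e := m (e0 j)) ?_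
      rw [← map_mul m, e0_idem]
    choose r hr using h2
    have h3 : (fun x => ch χ (ψ x)) = fun x => ∑ j : Ir K B, ((r j : ℤ) : K) * ch j x := by
      funext x
      have h4 := h1 (single x 1)
      have h5 : t (single x 1) = ch χ (ψ x) := by
        change chi χ (MonoidAlgebra.mapDomain _ (single x 1)) = _
        rw [MonoidAlgebra.mapDomain_single]
        rfl
      rw [← h5, h4]
      refine Finset.sum_congr rfl fun j _ => ?_
      rw [hr, Int.cast_natCast, ch]
    rw [h3]
    exact V_of_sum fun j => (r j : ℤ)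
  · exact AddSubgroup.zero_mem _
  · exact AddSubgroup.add_mem _ hY hZ
  · exact AddSubgroup.neg_mem _ hY

end

end Pool.Agent.Lib.P0c8ca5.Ex
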