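import Mathlib
import Pool.Agent.Lib.P0c8ca5Ex.YA

/-!
# YB: class functions, truncation to the p-regular elements, positivity

* `rg p X` is `X` on the `p`-regular elements and zero elsewhere.
* `cf_expand`: class functions are combinations of the characters.
* `ip_rg_int`: `|A|_p * ip (rg p X) Y` is an integer for generalized characters `X`, `Y`.
* `rg_nonneg`: `ip (rg p X) X` is a nonnegative rational number; it is zero only if `rg p X = 0`.
-/

set_option linter.unusedSectionVars false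

namespace Pool.Agent.Lib.P0c8ca5.Ex

open MonoidAlgebra

section
variable {K : Type*} [Field K] [IsAlgClosed K] [CharZero K] {A : Type*} [Group A] [Finite A]

open Classical in
/-- truncation to the `p`-regular elements -/
noncomputable def rg (p : ℕ) (X : A → K) (x : A) : K := if Preg p x then X x else 0

theorem rg_of {p : ℕ} {X : A → K} {x : A} (h : Preg p x) : rg p X x = X x := by
  rw [rg, if_pos h]

theorem rg_not {p : ℕ} {X : A → K} {x : A} (h : ¬ Preg p x) : rg p X x = 0 := by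
  rw [rg, if_neg h]

theorem preg_inv {p : ℕ} {x : A} : Preg p x⁻¹ ↔ Preg p x := by
  unfold Preg
  rw [orderOf_inv]

theorem rg_eq {p : ℕ} {X : A → K} (h : ∀ x, ¬ Preg p x → X x = 0) : rg p X = X := by
  funext x
  by_cases hx : Preg p x
  · rw [rg_of hx]
  · rw [rg_not hx, h x hx]

theorem rg_rg {p : ℕ} (X : A → K) : rg p (rg p X) = rg p X := rg_eq fun _ h => rg_not h

theorem rg_add {p : ℕ} (X Y : A → K) : rg p (X + Y) = rg p X + rg p Y := by
  funext x
  by_cases hx : Preg p x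
  · rw [Pi.add_apply, rg_of hx, rg_of hx, rg_of hx, Pi.add_apply]
  · rw [Pi.add_apply, rg_not hx, rg_not hx, rg_not hx, add_zero]

theorem rg_smul {p : ℕ} (c : K) (X : A → K) : rg p (c • X) = c • rg p X := by
  funext x
  by_cases hx : Preg p x
  · rw [Pi.smul_apply, rg_of hx, rg_of hx, Pi.smul_apply]
  · rw [Pi.smul_apply, rg_not hx, rg_not hx, smul_zero]

/-- truncation is selfadjoint -/
theorem ip_rg {p : ℕ} (X Y : A → K) : ip (rg p X) Y = ip X (rg p Y) := by
  rw [ip, ip]
  congr 1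
  refine sm_congr fun x => ?_
  by_cases hx : Preg p x
  · rw [rg_of hx, rg_of (preg_inv.2 hx)]
  · rw [rg_not hx, rg_not (fun h => hx (preg_inv.1 h)), zero_mul, mul_zero]

/-- class functions are combinations of the characters -/
theorem cf_expand {F : A → K} (hF : ∀ g x, F (g * x * g⁻¹) = F x) (x : A) :
    F x = ∑ χ : Ir K A, ip F (ch χ) * ch χ x := by
  classical
  have := Fintype.ofFinite A
  have h1 : ∀ χ : Ir K A, ip F (ch χ) * ch χ x
      = (Nat.card A : K)⁻¹ * ∑ y : A, F y * (ch χ y⁻¹ * ch χ x) := by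
    intro χ
    rw [ip, sm_eq, mul_assoc, Finset.sum_mul]
    congr 1
    exact Finset.sum_congr rfl fun y _ => by ring
  rw [Finset.sum_congr rfl fun χ _ => h1 χ, ← Finset.mul_sum, Finset.sum_comm]
  have h2 : ∀ y : A, ∑ χ : Ir K A, F y * (ch χ y⁻¹ * ch χ x)
      = ∑ g : A, if g * x * g⁻¹ = y then F y else 0 := by
    intro y
    rw [← Finset.mul_sum, col, ← Finset.sum_filter, Finset.sum_const, nsmul_eq_mul,
      Nat.card_eq_fintype_card, Fintype.card_subtype, mul_comm]
    congr 3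
    ext g
    simp only [Finset.mem_filter, Finset.mem_univ, true_and]
    constructor
    · intro h
      rw [mul_assoc, inv_mul_eq_iff_eq_mul] at h
      rw [h, mul_inv_cancel_right]
    · intro h
      rw [← h]
      group
  rw [Finset.sum_congr rfl fun y _ => h2 y, Finset.sum_comm]
  have h3 : ∀ g : A, ∑ y : A, (if g * x * g⁻¹ = y then F y else 0) = F x := by
    intro g
    rw [Finset.sum_ite_eq, if_pos (Finset.mem_univ _), hF]
  rw [Finset.sum_congr rfl fun g _ => h3 g, Finset.sum_const, Finset.card_univ, nsmul_eq_mul,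
    Nat.card_eq_fintype_card, inv_mul_cancel_left₀ (Nat.cast_ne_zero.2 Fintype.card_ne_zero)]

theorem rg_conj {p : ℕ} {X : A → K} (hX : ∀ g x, X (g * x * g⁻¹) = X x) (g x : A) :
    rg p X (g * x * g⁻¹) = rg p X x := by
  by_cases hx : Preg p x
  · rw [rg_of hx, rg_of ((preg_conj g x).2 hx), hX]
  · rw [rg_not hx, rg_not (fun h => hx ((preg_conj g x).1 h))]

/-- a class function with integral multiplicities is a generalized character -/
theorem mem_V_of_int {F : A → K} (hF : ∀ g x, F (g * x * g⁻¹) = F x)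
    (h : ∀ χ : Ir K A, ∃ z : ℤ, ip F (ch χ) = z) : F ∈ V K A := by
  choose z hz using h
  have h1 : F = fun x => ∑ χ : Ir K A, (z χ : K) * ch χ x := by
    funext x
    rw [cf_expand hF x]
    exact Finset.sum_congr rfl fun χ _ => by rw [hz]
  rw [h1]
  exact V_of_sum z

/-- Parseval for class functions -/
theorem cf_pars {F : A → K} (hF : ∀ g x, F (g * x * g⁻¹) = F x) (Z : A → K) :
    ip F Z = ∑ χ : Ir K A, ip F (ch χ) * ip (ch χ) Z := by
  have h : F = fun x => ∑ χ : Ir K A, (ip F (ch χ) • ch χ) x := by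
    funext x
    rw [cf_expand hF x]
    rfl
  conv_lhs => rw [h]
  rw [ip_sum]
  exact Finset.sum_congr rfl fun χ _ => by rw [ip_smul]

variable {p : ℕ} [Fact p.Prime]

/-- **integrality** -/
theorem ip_rg_int {X Y : A → K} (hX : X ∈ V K A) (hY : Y ∈ V K A) :
    ∃ z : ℤ, ((ordProj[p] (Nat.card A) : ℕ) : K) * ip (rg p X) Y = z := by
  have := Fintype.ofFinite A
  classical
  have hcard : (Nat.card A : K)
      = ((ordProj[p] (Nat.card A) : ℕ) : K) * ((ordCompl[p] (Nat.card A) : ℕ) : K) := by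
    rw [← Nat.cast_mul, Nat.ordProj_mul_ordCompl_eq_self]
  have h0 : ((ordCompl[p] (Nat.card A) : ℕ) : K) ≠ 0 :=
    Nat.cast_ne_zero.2 (Nat.ordCompl_pos p Nat.card_pos.ne').ne'
  have h0' : ((ordProj[p] (Nat.card A) : ℕ) : K) ≠ 0 :=
    Nat.cast_ne_zero.2 (Nat.ordProj_pos (Nat.card A) p).ne'
  refine V_induction (P := fun X => ∃ z : ℤ, ((ordProj[p] (Nat.card A) : ℕ) : K) * ip (rg p X) Y
    = z) (fun χ => ?_) ⟨0, ?_⟩ ?_ ?_ hX
  · refine V_induction (P := fun Y => ∃ z : ℤ, ((ordProj[p] (Nat.card A) : ℕ) : K)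
      * ip (rg p (ch χ)) Y = z) (fun ψ => ?_) ⟨0, ?_⟩ ?_ ?_ hY
    · obtain ⟨z, hz⟩ := fr_int_chO (p := p) (O := K) χ ψ
      refine ⟨z, ?_⟩
      have e1 : ∀ (θ : Ir K A) (x : A), chO θ (single x (1 : K)) = ch θ x := by
        intro θ x
        rw [chO_single, trace_rpI, ch]
      have e2 : sm (fun x : A => rg p (ch χ) x * ch ψ x⁻¹)
          = ((ordCompl[p] (Nat.card A) : ℕ) : K) * z := by
        rw [← hz, sm_eq]
        refine Finset.sum_congr rfl fun x _ => ?_
        rw [rg, e1, e1]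
        split_ifs <;> simp
      rw [ip, e2, hcard]
      field_simp
    · rw [ip_comm, ip_zero, mul_zero, Int.cast_zero]
    · rintro Y Z ⟨a, ha⟩ ⟨c, hc⟩
      refine ⟨a + c, ?_⟩
      rw [ip_comm, ip_add, ip_comm Y, ip_comm Z, mul_add, ha, hc, Int.cast_add]
    · rintro Y ⟨a, ha⟩
      refine ⟨-a, ?_⟩
      rw [ip_comm, ip_neg, ip_comm Y, mul_neg, ha, Int.cast_neg]
  · have h1 : rg p (0 : A → K) = 0 := by
      funext x
      by_cases hx : Preg p x
      · rw [rg_of hx]
      · rw [rg_not hx, Pi.zero_apply]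
    rw [h1, ip_zero, mul_zero, Int.cast_zero]
  · rintro Y' Z ⟨a, ha⟩ ⟨c, hc⟩
    refine ⟨a + c, ?_⟩
    rw [rg_add, ip_add, mul_add, ha, hc, Int.cast_add]
  · rintro Y' ⟨a, ha⟩
    refine ⟨-a, ?_⟩
    have h1 : rg p (-Y') = - rg p Y' := by
      have := rg_smul (p := p) (-1 : K) Y'
      rwa [neg_one_smul, neg_one_smul] at this
    rw [h1, ip_neg, mul_neg, ha, Int.cast_neg]

/-- **positivity** -/
theorem rg_nonneg {X : A → K} (hX : X ∈ V K A) :
    ∃ q : ℚ, 0 ≤ q ∧ ip (rg p X) X = (q : K) ∧ (q = 0 → ∀ x, Preg p x → X x = 0) := by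
  have hc : ∀ g x, rg p X (g * x * g⁻¹) = rg p X x := rg_conj (V_conj hX)
  have h0' : ((ordProj[p] (Nat.card A) : ℕ) : K) ≠ 0 :=
    Nat.cast_ne_zero.2 (Nat.ordProj_pos (Nat.card A) p).ne'
  have h1 : ∀ χ : Ir K A, ∃ r : ℚ, ip (rg p X) (ch χ) = (r : K) := by
    intro χ
    obtain ⟨z, hz⟩ := ip_rg_int (p := p) hX (ch_mem χ)
    refine ⟨z / (ordProj[p] (Nat.card A) : ℕ), ?_⟩
    rw [Rat.cast_div, Rat.cast_intCast, Rat.cast_natCast, ← hz, mul_div_cancel_left₀ _ h0']
  choose r hr using h1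
  refine ⟨∑ χ, r χ * r χ, Finset.sum_nonneg fun χ _ => mul_self_nonneg _, ?_, ?_⟩
  · have h2 : ip (rg p X) X = ip (rg p X) (rg p X) := by
      rw [← ip_rg, rg_rg]
    rw [h2, cf_pars hc, Rat.cast_sum]
    refine Finset.sum_congr rfl fun χ _ => ?_
    rw [ip_comm (ch χ), hr, Rat.cast_mul]
  · intro h x hx
    have h3 : ∀ χ, r χ = 0 := by
      intro χ
      have := (Finset.sum_eq_zero_iff_of_nonneg fun χ _ => mul_self_nonneg (r χ)).1 h χ
        (Finset.mem_univ _)
      exact mul_self_eq_zero.1 this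
    rw [← rg_of (X := X) hx, cf_expand hc x]
    exact Finset.sum_eq_zero fun χ _ => by rw [hr, h3, Rat.cast_zero, zero_mul]

end

end Pool.Agent.Lib.P0c8ca5.Ex
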