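import Mathlib
import Pool.Agent.Lib.P0c8ca5Ex.YB
import Pool.Agent.Lib.P0c8ca5Ex.NP
import Pool.Agent.Lib.P0c8ca5Ex.NS

/-!
# YC: virtual regular characters at the subgroups of `D`: definitions

`φ : T → A` is an embedding of the abelian group `T` with image `D`.

* `cq φ Q = C(φ Q)`, `eQ φ D f Q` the order of its inertial quotient;
* `VA b`: the generalized characters of `A` in the block `b`;
* `on H X` is `X` on `H`; `cut H BH X` is the part of the restriction of `X` to `H` in the block of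
  `H` with the lift `BH` (extended by zero to `A`);
* `rwv φ G Q X`: the row of `X` defined by the family `G`;
* `GOK φ D f i G Q`: `G Q` is a virtual regular character of the block of `C(Q)`.
* `Stp φ b D f i R G`: the input of the induction step at the central subgroup `R`.
-/

set_option linter.unusedSectionVars false

namespace Pool.Agent.Lib.P0c8ca5.Ex

open MonoidAlgebra

section
variable {p : ℕ} [Fact p.Prime] {k : Type*} [Field k] [IsAlgClosed k] [CharP k p]
  {A : Type*} [Group A] [Finite A] {T : Type*} [CommGroup T] [Fintype T]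

/-- the centralizer of `φ(Q)` -/
abbrev cq (φ : T →* A) (Q : Subgroup T) : Subgroup A := CD (Q.map φ)

/-- the order of the inertial quotient of the block at `Q`: the number of the automorphisms of `T`
induced by `St D f` that fix the elements of `Q` -/
noncomputable def eQ (φ : T →* A) (D : Subgroup A) (f : MonoidAlgebra k A) (Q : Subgroup T) : ℕ :=
  Nat.card {α : ↥(EG φ D f) // ∀ t ∈ Q, (α : MulAut T) t = t}

/-- `X` on `H` -/
def on {K : Type*} (H : Subgroup A) (X : A → K) : ↥H → K := fun y => X y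

/-- the linear extension of `X` -/
noncomputable def lin (X : A → KW p k) (a : MonoidAlgebra (OW p k) A) : KW p k :=
  sm fun x => algebraMap (OW p k) (KW p k) (a.coeff x) * X x

open Classical in
/-- the part of the restriction of `X` to `H` in the block with the lift `BH` -/
noncomputable def cut (H : Subgroup A) (BH : MonoidAlgebra (OW p k) ↥H) (X : A → KW p k) (x : A) :
    KW p k :=
  if x ∈ H then lin X (single x 1 * upr H BH) else 0

/-- the generalized characters in the block `b` -/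
def VA (b : MonoidAlgebra k A) : AddSubgroup (A → KW p k) where
  carrier := {X | X ∈ V (KW p k) A ∧ ∀ B : MonoidAlgebra (OW p k) A, CenL b B →
    ∀ χ : Ir (KW p k) A, chO χ B = 0 → ip X (ch χ) = 0}
  zero_mem' := ⟨AddSubgroup.zero_mem _, fun _ _ χ _ => ip_zero _⟩
  add_mem' := by
    rintro X Y ⟨hX, hX'⟩ ⟨hY, hY'⟩
    refine ⟨AddSubgroup.add_mem _ hX hY, fun B hB χ h => ?_⟩
    rw [ip_add, hX' B hB χ h, hY' B hB χ h, add_zero]
  neg_mem' := by
    rintro X ⟨hX, hX'⟩
    refine ⟨AddSubgroup.neg_mem _ hX, fun B hB χ h => ?_⟩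
    rw [ip_neg, hX' B hB χ h, neg_zero]

/-- the row of `X` -/
noncomputable def rwv {K : Type*} [Field K] (φ : T →* A) (G : Subgroup T → A → K) (Q : Subgroup T)
    (X : A → K) (u : T) : K :=
  (Nat.card ↥(cq φ (Q ⊔ Subgroup.zpowers u)) : K)⁻¹ *
    sm (fun y => X (φ u * y) * G (Q ⊔ Subgroup.zpowers u) y⁻¹)

/-- `G Q` is a virtual regular character of the block of `C(Q)` -/
structure GOK (φ : T →* A) (D : Subgroup A) (f i : MonoidAlgebra k A)
    (G : Subgroup T → A → KW p k) (Q : Subgroup T) : Prop where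
  sup : ∀ x, x ∉ cq φ Q → G Q x = 0
  blk : ∀ c, LbH (cq φ Q) i c → on (cq φ Q) (G Q) ∈ VA (p := p) (dnr (cq φ Q) c)
  reg : ∀ x, ¬ Preg p x → G Q x = 0
  nrm : ip (on (cq φ Q) (G Q)) (on (cq φ Q) (G Q))
    = (Fintype.card T : KW p k) * (eQ φ D f Q : KW p k)
  row : ∀ X : A → KW p k, on (cq φ Q) X ∈ V (KW p k) ↥(cq φ Q) → rwv φ G Q X ∈ vir T (KW p k)
  cong : ∀ c, LbH (cq φ Q) i c → ∀ X ∈ VA (p := p) (dnr (cq φ Q) c),
    ∀ Y ∈ VA (p := p) (dnr (cq φ Q) c), ∃ m a a' : ℤ,
      (Fintype.card T : KW p k) * (eQ φ D f Q : KW p k) * ip (rg p X) Y = m ∧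
      ip X (on (cq φ Q) (G Q)) = a ∧ ip Y (on (cq φ Q) (G Q)) = a' ∧ (p : ℤ) ∣ m - a * a'

/-- equivariance under the elements of `St D f` -/
def EqG {K : Type*} (φ : T →* A) (D : Subgroup A) (f : MonoidAlgebra k A)
    (G : Subgroup T → A → K) (P : Subgroup T → Prop) : Prop :=
  ∀ h ∈ St D f, ∀ α : MulAut T, (∀ t, φ (α t) = h * φ t * h⁻¹) → ∀ Q, P Q →
    ∀ y, G (Q.map α.toMonoidHom) (h * y * h⁻¹) = G Q y

/-- the input of the step at the central subgroup `R` -/
structure Stp (φ : T →* A) (b : MonoidAlgebra k A) (D : Subgroup A) (f i : MonoidAlgebra k A)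
    (R : Subgroup T) (G : Subgroup T → A → KW p k) : Prop where
  src : Src p b D f i
  inj : Function.Injective φ
  ran : ∀ x, x ∈ D ↔ ∃ t, φ t = x
  cen : ∀ z ∈ R, ∀ a : A, φ z * a = a * φ z
  ok : ∀ Q, R < Q → GOK φ D f i G Q
  eqv : EqG φ D f G fun Q => R < Q

open Classical in
/-- the inner product over the `p`-regular `s ∈ H` of `X(x s)` and `Y((x s)⁻¹)` -/
noncomputable def Wf (p : ℕ) {K : Type*} [Field K] (H : Subgroup A) (X Y : A → K) (x : A) : K :=
  (Nat.card ↥H : K)⁻¹ * sm (fun s : ↥H => if Preg p s then X (x * s) * Y (x * s)⁻¹ else 0)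

/-- the characters with `R` in the kernel -/
def Ker (φ : T →* A) (R : Subgroup T) (χ : Ir (KW p k) A) : Prop :=
  ∀ z ∈ R, ∀ x, ch χ (φ z * x) = ch χ x

end

end Pool.Agent.Lib.P0c8ca5.Ex
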