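import Mathlib
import Pool.Agent.Lib.P0c8ca5Ex.YC
import Pool.Agent.Lib.P0c8ca5Ex.GF
import Pool.Agent.Lib.P0c8ca5Ex.GG

/-!
# YE: the rows

`cq_eq`: `C(φ(R⟨u⟩)) = C(φ u)` for `R` central. `reg_dec`: a `p`-regular element is a combination of
commuting idempotents (GE: `ep`, `eq_sum_ep`, `exists_prootO`). `rwv_inv`: `G` is equivariant, `X` a
class function and `α` fixes `R` (`φ R` is central), so `(R ⊔ ⟨u⟩).map α = R ⊔ ⟨α u⟩`. `rwv_out`: for
`χ` outside `B`, `y ∈ H = C(φ u)` `p`-regular and a lift `BH` of the block `c` at `H`: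
`χ(φ u y BH) = ∑ ζ_j χ(φ u ε_j BH) = 0` (`reg_dec`, `col_zero'`); and
`∑_y χ(φ u y) Γ(y⁻¹) = ∑_y χ(φ u y BH) Γ(y⁻¹)` because `Γ = G(R⟨u⟩)` is in the block `c`.
-/

set_option linter.unusedSectionVars false

namespace Pool.Agent.Lib.P0c8ca5.Ex

open MonoidAlgebra

section
variable {p : ℕ} [Fact p.Prime] {k : Type*} [Field k] [IsAlgClosed k] [CharP k p]
  {A : Type*} [Group A] [Finite A]

theorem reg_dec {g : A} (hg : Preg p g) : ∃ (n : ℕ) (ζ : Fin n → OW p k)
    (ε : Fin n → MonoidAlgebra (OW p k) A), (∀ j, ε j * ε j = ε j) ∧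
      (∀ j x, x * g = g * x → single x 1 * ε j = ε j * single x (1 : OW p k)) ∧
      (single g 1 : MonoidAlgebra (OW p k) A) = ∑ j, ζ j • ε j := by
  classical
  have hpm : ¬ p ∣ orderOf g := hg
  obtain ⟨m, hm⟩ : ∃ m, m = orderOf g := ⟨_, rfl⟩
  rw [← hm] at hpm
  have hm0 : 0 < m := by rw [hm]; exact orderOf_pos g
  obtain ⟨z, hz⟩ := exists_prootO (p := p) (k := k) hpm
  have hmk : rdO p k (m : OW p k) ≠ 0 := by
    rw [map_natCast]
    exact fun h => hpm ((CharP.cast_eq_zero_iff k p m).1 h)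
  obtain ⟨w, hw⟩ := (unitO hmk).exists_left_inv
  obtain ⟨Y, hYd⟩ : ∃ Y : MonoidAlgebra (OW p k) A, Y = single g 1 := ⟨_, rfl⟩
  have hYm : Y ^ m = 1 := by
    rw [hYd, MonoidAlgebra.single_pow, one_pow, MonoidAlgebra.one_def, hm, pow_orderOf_eq_one]
  refine ⟨m, fun j => z ^ (j : ℕ), fun j => ep m w z Y j,
    fun j => ep_idem hm0 hw hz.pow_eq_one hYm j, fun j x hx => ?_, ?_⟩
  · have h1 : Commute (single x (1 : OW p k)) Y := by
      change single x (1 : OW p k) * Y = Y * single x 1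
      rw [hYd, single_mul_single, single_mul_single, hx]
    change single x (1 : OW p k) * (w • ∑ i ∈ Finset.range m, _ • Y ^ i)
      = (w • ∑ i ∈ Finset.range m, _ • Y ^ i) * single x 1
    rw [mul_smul_comm, smul_mul_assoc, Finset.mul_sum, Finset.sum_mul]
    congr 1
    refine Finset.sum_congr rfl fun i _ => ?_
    rw [mul_smul_comm, smul_mul_assoc, (h1.pow_right i).eq]
  · rw [← hYd]
    conv_lhs => rw [eq_sum_ep (Y := Y) hm0 hw hz hYm]
    rw [Finset.sum_range]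

variable {T : Type*} [CommGroup T] [Fintype T]
  {φ : T →* A} {b f i : MonoidAlgebra k A} {D : Subgroup A} {R : Subgroup T}
  {G : Subgroup T → A → KW p k}

theorem cq_eq (hR : ∀ z ∈ R, ∀ a : A, φ z * a = a * φ z) (u : T) :
    cq φ (R ⊔ Subgroup.zpowers u) = C1 (φ u) := by
  ext x
  rw [mem_C1', cq, Subgroup.mem_centralizer_iff]
  constructor
  · intro h
    exact h (φ u) ⟨u, Subgroup.mem_sup_right (Subgroup.mem_zpowers u), rfl⟩
  · rintro h _ ⟨t, ht, rfl⟩
    obtain ⟨z, hz, w, hw, rfl⟩ := Subgroup.mem_sup.1 ht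
    obtain ⟨n, rfl⟩ := hw
    have h1 : Commute (φ u) x := h
    have h2 : φ u ^ n * x = x * φ u ^ n := (h1.zpow_left n).eq
    have h3 : φ (z * u ^ n) = φ z * φ u ^ n := by rw [map_mul, map_zpow]
    change φ (z * u ^ n) * x = x * φ (z * u ^ n)
    rw [h3, mul_assoc, h2, ← mul_assoc, hR z hz, mul_assoc]

theorem rwv_inv (h : Stp φ b D f i R G) {X : A → KW p k} (hX : X ∈ V (KW p k) A) {g : A}
    (hg : g ∈ St D f) {α : MulAut T} (hα : ∀ t, φ (α t) = g * φ t * g⁻¹) {u : T} (hu : u ∉ R) :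
    rwv φ G R X (α u) = rwv φ G R X u := by
  have hfix : ∀ z ∈ R, α z = z := fun z hz => h.inj (by
    rw [hα, ← h.cen z hz g, mul_inv_cancel_right])
  have hmap : R ⊔ Subgroup.zpowers (α u) = (R ⊔ Subgroup.zpowers u).map α.toMonoidHom := by
    rw [Subgroup.map_sup, MonoidHom.map_zpowers]
    congr 1
    ext t
    constructor
    · intro ht
      exact ⟨t, ht, hfix t ht⟩
    · rintro ⟨s, hs, rfl⟩
      change α s ∈ R
      rw [hfix s hs]
      exact hs
  have hlt : R < R ⊔ Subgroup.zpowers u := by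
    refine lt_of_le_of_ne le_sup_left fun he => hu ?_
    rw [he]
    exact Subgroup.mem_sup_right (Subgroup.mem_zpowers u)
  have hcq : cq φ ((R ⊔ Subgroup.zpowers u).map α.toMonoidHom)
      = cg g (cq φ (R ⊔ Subgroup.zpowers u)) := by
    rw [cq, cq, FuAux.cg_CD]
    congr 1
    ext x
    rw [mem_cg]
    constructor
    · rintro ⟨_, ⟨t, ht, rfl⟩, rfl⟩
      refine ⟨t, ht, ?_⟩
      change φ t = g⁻¹ * φ (α t) * g
      rw [hα]
      group
    · rintro ⟨t, ht, h1⟩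
      refine ⟨α t, ⟨t, ht, rfl⟩, ?_⟩
      rw [hα, h1]
      group
  have hcard : Nat.card ↥(cq φ ((R ⊔ Subgroup.zpowers u).map α.toMonoidHom))
      = Nat.card ↥(cq φ (R ⊔ Subgroup.zpowers u)) := by
    rw [hcq, card_cg]
  rw [rwv, rwv, hmap, hcard]
  congr 1
  rw [← sm_conj g (fun y => X (φ (α u) * y)
    * G ((R ⊔ Subgroup.zpowers u).map α.toMonoidHom) y⁻¹)]
  refine sm_congr fun y => ?_
  have e1 : φ (α u) * (g * y * g⁻¹) = g * (φ u * y) * g⁻¹ := by
    rw [hα]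
    group
  have e2 : (g * y * g⁻¹)⁻¹ = g * y⁻¹ * g⁻¹ := by group
  rw [e1, e2, V_conj hX, h.eqv g hg α hα _ hlt]

theorem rwv_ker {X : A → KW p k} (hX : ∀ z ∈ R, ∀ x, X (φ z * x) = X x) {z : T} (hz : z ∈ R)
    (u : T) : rwv φ G R X (z * u) = rwv φ G R X u := by
  have h1 : R ⊔ Subgroup.zpowers (z * u) = R ⊔ Subgroup.zpowers u := by
    apply le_antisymm
    · refine sup_le le_sup_left ?_
      rw [Subgroup.zpowers_le]
      exact Subgroup.mul_mem _ (Subgroup.mem_sup_left hz)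
        (Subgroup.mem_sup_right (Subgroup.mem_zpowers u))
    · refine sup_le le_sup_left ?_
      rw [Subgroup.zpowers_le]
      have h2 : z⁻¹ * (z * u) ∈ R ⊔ Subgroup.zpowers (z * u) :=
        Subgroup.mul_mem _ (Subgroup.mem_sup_left (Subgroup.inv_mem _ hz))
          (Subgroup.mem_sup_right (Subgroup.mem_zpowers (z * u)))
      rwa [inv_mul_cancel_left] at h2
  rw [rwv, rwv, h1]
  congr 1
  refine sm_congr fun y => ?_
  rw [map_mul, mul_assoc, hX z hz]

namespace YEAux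

/-- the values of `χ` on `v y`, `v` central in `H` -/
theorem ch_cen_mul {H : Subgroup A} (χ : Ir (KW p k) A) {v : A} (hv : v ∈ H)
    (hc : ∀ a : ↥H, (⟨v, hv⟩ : ↥H) * a = a * ⟨v, hv⟩) (x : MonoidAlgebra (OW p k) ↥H) :
    chO χ (single v 1 * upr H x) = ∑ t : Ir (KW p k) ↥H, (mult H χ t : KW p k) *
      (om t (single (⟨v, hv⟩ : ↥H) 1) * chO t x) := by
  have h1 : (single v (1 : OW p k) : MonoidAlgebra (OW p k) A)
      = upr H (single ⟨v, hv⟩ 1) := by rw [upr_single]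
  rw [h1, ← map_mul, chO_upr]
  refine Finset.sum_congr rfl fun t _ => ?_
  rw [chO_central_mul t hc]

theorem chO_single_ch {B : Type*} [Group B] [Finite B] (χ : Ir (KW p k) B) (x : B) :
    chO χ (single x (1 : OW p k)) = ch χ x := by
  rw [chO_apply, map_single, map_one, ch]

/-- the sum vanishes for the characters outside the block -/
theorem out_zero (h : Src p b D f i) {B : MonoidAlgebra (OW p k) A} (hB : CenL b B)
    {χ : Ir (KW p k) A} (hχ : chO χ B = 0) {v : A} (hv : v ∈ D) {H : Subgroup A}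
    (hH : C1 v = H) {Γ : A → KW p k} (hs : ∀ x, x ∉ H → Γ x = 0)
    (hb : ∀ c, LbH H i c → on H Γ ∈ VA (p := p) (dnr H c))
    (hr : ∀ x, ¬ Preg p x → Γ x = 0) :
    sm (fun y => ch χ (v * y) * Γ y⁻¹) = 0 := by
  classical
  subst hH
  obtain ⟨M, hM⟩ := pow_one_of h
  obtain ⟨c, hc⟩ := exists_lbH h hv
  obtain ⟨BH, hBH⟩ := exists_cenB (p := p) hc.blk
  have hvH : v ∈ C1 v := mem_C1'.2 rfl
  have hcen : ∀ a : ↥(C1 v), (⟨v, hvH⟩ : ↥(C1 v)) * a = a * ⟨v, hvH⟩ :=
    fun a => Subtype.ext (mem_C1'.1 a.2)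
  have hbc : resS (C1 v : Set A) b * c = c := by
    have key : ∀ H : Subgroup A, CD (Subgroup.zpowers v) = H → LbH H i c →
        resS (H : Set A) b * c = c := by
      rintro H rfl hc
      exact Lb.b_mul h (zp_le hv) (hc.toLb rfl)
    exact key _ (CD_zpowers _) hc
  have hb' := (hb c hc).2 BH hBH
  rw [sm_sub (C1 v) (F := fun y => ch χ (v * y) * Γ y⁻¹) (fun x hx => by
    rw [hs x⁻¹ (fun h1 => hx ((Subgroup.inv_mem_iff _).1 h1)), mul_zero])]
  -- the values of `χ` may be replaced by the values on the block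
  have e1 : ∀ y : ↥(C1 v), ch χ (v * y) * Γ (y : A)⁻¹
      = ∑ t : Ir (KW p k) ↥(C1 v), ((mult (C1 v) χ t : KW p k) *
        om t (single (⟨v, hvH⟩ : ↥(C1 v)) 1)) * (ch t y * on (C1 v) Γ y⁻¹) := by
    intro y
    have h1 : ch χ (v * y) = chO χ (single v 1 * upr (C1 v) (single y (1 : OW p k))) := by
      rw [upr_single, single_mul_single, one_mul, chO_single_ch]
    rw [h1, ch_cen_mul χ hvH hcen, Finset.sum_mul]
    refine Finset.sum_congr rfl fun t _ => ?_
    rw [chO_single_ch]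
    change _ * Γ (y : A)⁻¹ = _ * (_ * Γ ((y⁻¹ : ↥(C1 v)) : A))
    rw [Subgroup.coe_inv]
    ring
  have e2 : ∀ y : ↥(C1 v), chO χ (single v 1 * upr (C1 v) (single y 1 * BH)) * Γ (y : A)⁻¹
      = ∑ t : Ir (KW p k) ↥(C1 v), ((mult (C1 v) χ t : KW p k) *
        om t (single (⟨v, hvH⟩ : ↥(C1 v)) 1)) *
          (chO t (single y 1 * BH) * on (C1 v) Γ y⁻¹) := by
    intro y
    rw [ch_cen_mul χ hvH hcen, Finset.sum_mul]
    refine Finset.sum_congr rfl fun t _ => ?_
    change _ * Γ (y : A)⁻¹ = _ * (_ * Γ ((y⁻¹ : ↥(C1 v)) : A))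
    rw [Subgroup.coe_inv]
    ring
  -- each value on the block vanishes
  have e3 : ∀ y : ↥(C1 v), chO χ (single v 1 * upr (C1 v) (single y 1 * BH)) * Γ (y : A)⁻¹
      = 0 := by
    intro y
    by_cases hy : Preg p (y : A)
    · have hy' : Preg p y := by
        unfold Preg at hy ⊢
        rwa [Subgroup.orderOf_coe] at hy
      obtain ⟨n, ζ, ε, h1, _, h3⟩ := reg_dec (p := p) (k := k) hy'
      have h4 : ∀ j, chO χ (single v 1 * upr (C1 v) (ε j * BH)) = 0 := by
        intro j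
        refine col_zero' hB (hM v hv) rfl hc.blk hbc ?_ ?_ χ hχ
        · calc ε j * BH * (ε j * BH) = ε j * (BH * ε j) * BH := by simp only [mul_assoc]
            _ = ε j * ε j * (BH * BH) := by rw [hBH.cen]; simp only [mul_assoc]
            _ = ε j * BH := by rw [h1, hBH.idem]
        · rw [← hBH.red, ← map_mul, mul_assoc, hBH.idem]
      have h5 : single v 1 * upr (C1 v) (single y 1 * BH)
          = ∑ j, ζ j • (single v (1 : OW p k) * upr (C1 v) (ε j * BH)) := by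
        rw [h3, Finset.sum_mul, map_sum, Finset.mul_sum]
        refine Finset.sum_congr rfl fun j _ => ?_
        rw [smul_mul_assoc, map_smul, mul_smul_comm]
      rw [h5, map_sum, Finset.sum_eq_zero, zero_mul]
      intro j _
      rw [chO_smul, h4, mul_zero]
    · rw [hr _ (fun h1 => hy (preg_inv.1 h1)), mul_zero]
  have e4 : ∀ t : Ir (KW p k) ↥(C1 v), sm (fun y : ↥(C1 v) => ch t y * on (C1 v) Γ y⁻¹)
      = sm (fun y : ↥(C1 v) => chO t (single y 1 * BH) * on (C1 v) Γ y⁻¹) := by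
    intro t
    by_cases ht : chO t BH = 0
    · have h1 : ip (ch t) (on (C1 v) Γ) = 0 := by rw [ip_comm]; exact hb' t ht
      rw [ip, mul_eq_zero] at h1
      rw [h1.resolve_left (inv_ne_zero cardK_ne)]
      have h2 : ∀ y : ↥(C1 v), chO t (single y 1 * BH) * on (C1 v) Γ y⁻¹ = 0 := by
        intro y
        rw [hBH.chO_out ht (by rw [mul_assoc, hBH.idem]), zero_mul]
      rw [sm_congr h2, sm_zero]
    · refine sm_congr fun y => ?_
      rw [hBH.chO_in ht, chO_single_ch]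
  rw [sm_congr e1, sm_sum]
  have e5 : ∀ t : Ir (KW p k) ↥(C1 v), sm (fun y : ↥(C1 v) => ((mult (C1 v) χ t : KW p k) *
        om t (single (⟨v, hvH⟩ : ↥(C1 v)) 1)) * (ch t y * on (C1 v) Γ y⁻¹))
      = sm (fun y : ↥(C1 v) => ((mult (C1 v) χ t : KW p k) *
        om t (single (⟨v, hvH⟩ : ↥(C1 v)) 1)) *
          (chO t (single y 1 * BH) * on (C1 v) Γ y⁻¹)) := by
    intro t
    rw [sm_mul, sm_mul, e4]
  rw [Finset.sum_congr rfl fun t _ => e5 t, ← sm_sum, ← sm_congr e2, sm_congr e3, sm_zero]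

end YEAux

open YEAux

theorem rwv_out (h : Stp φ b D f i R G) {B : MonoidAlgebra (OW p k) A} (hB : CenL b B)
    {χ : Ir (KW p k) A} (hχ : chO χ B = 0) {u : T} (hu : u ∉ R) :
    rwv φ G R (ch χ) u = 0 := by
  have hlt : R < R ⊔ Subgroup.zpowers u := by
    refine lt_of_le_of_ne le_sup_left fun he => hu ?_
    rw [he]
    exact Subgroup.mem_sup_right (Subgroup.mem_zpowers u)
  have hok := h.ok _ hlt
  rw [rwv, out_zero h.src hB hχ ((h.ran _).2 ⟨u, rfl⟩) (cq_eq h.cen u).symm hok.sup hok.blk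
    hok.reg, mul_zero]

end

end Pool.Agent.Lib.P0c8ca5.Ex
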