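import Mathlib
import Pool.Agent.Lib.P0c8ca5Ex.YE

/-!
# YH: the block parts of the restrictions

`CenL (dnr H c) BH`. For `X ∈ V` and `x ∈ H`: `X(x) = ∑_s m_s ch s x` (`V_comp H.subtype`,
`V_expand`), and `cut H BH X x = ∑_(s in the block) m_s ch s x` (`cut_eq`: `lin X (single x 1 * upr H BH)
= ∑_s m_s chO s (single x 1 * BH)`, `CenL.chO_in`, `CenL.chO_out`).

`bo` (BLOCK ORTHOGONALITY on the `p`-regular elements): `ip (rg p (ch s)) (ch t) = 0` for `s` in the block of the
central idempotent `B` and `t` not. PROOF: `wbo` (WEAK BLOCK ORTHOGONALITY): for `x` `p`-regular and `y` not,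
`∑_(χ in B) ch χ x * ch χ y = 0` (with `x⁻¹` ...): `x B` is a combination of idempotents (`reg_dec`) and
`y = v y'` with `v ≠ 1` the `p`-part, `y'` a combination of idempotents of `O C(v)` (`single_dec`); use
`tp_chi_zero` for `u = 1` and `v ≠ 1`. Then for `t` not in `B` and `x` `p`-regular
`0 = ∑_y (∑_(χ in B) ch χ x ch χ y⁻¹) ch t y` (`row_orth`) `= |A| ∑_(χ in B) ch χ x * ip (rg p (ch t)) (ch χ)`;
multiply with `ch t x⁻¹` and sum over the `p`-regular `x`: `∑_(χ in B) (ip (rg p (ch χ)) (ch t))² = 0`,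
all terms are squares of rational numbers (`ip_rg_int`).
-/

set_option linter.unusedSectionVars false

namespace Pool.Agent.Lib.P0c8ca5.Ex

open MonoidAlgebra

section
variable {p : ℕ} [Fact p.Prime] {k : Type*} [Field k] [IsAlgClosed k] [CharP k p]
  {A : Type*} [Group A] [Finite A]

namespace YHAux

theorem chO_ch (χ : Ir (KW p k) A) (x : A) :
    chO χ (single x (1 : OW p k)) = ch χ x := by
  rw [chO_apply, map_single, map_one, ch]

theorem single_sum (a : MonoidAlgebra (OW p k) A) [Fintype A] :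
    a = ∑ x : A, a.coeff x • single x (1 : OW p k) := by
  classical
  ext y
  rw [MonoidAlgebra.coeff_sum, Finsupp.finsetSum_apply, Finset.sum_eq_single y]
  · rw [coeff_smul, Finsupp.smul_apply, coeff_single, Finsupp.single_eq_same, smul_eq_mul,
      mul_one]
  · intro z _ hz
    rw [coeff_smul, Finsupp.smul_apply, coeff_single, Finsupp.single_eq_of_ne hz.symm,
      smul_zero]
  · intro h
    exact absurd (Finset.mem_univ _) h

theorem chO_sm (χ : Ir (KW p k) A) (a : MonoidAlgebra (OW p k) A) :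
    chO χ a = lin (ch χ) a := by
  have := Fintype.ofFinite A
  rw [lin, sm_eq]
  conv_lhs => rw [single_sum a]
  rw [map_sum]
  refine Finset.sum_congr rfl fun x _ => ?_
  rw [chO_smul, chO_ch]

theorem lin_V {X : A → KW p k} (hX : X ∈ V (KW p k) A) (a : MonoidAlgebra (OW p k) A) :
    lin X a = ∑ χ : Ir (KW p k) A, ip X (ch χ) * chO χ a := by
  have h1 : ∀ x, algebraMap (OW p k) (KW p k) (a.coeff x) * X x =
      ∑ χ : Ir (KW p k) A, ip X (ch χ) * (algebraMap (OW p k) (KW p k) (a.coeff x) * ch χ x) := by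
    intro x
    rw [(V_expand hX).2 x, Finset.mul_sum]
    exact Finset.sum_congr rfl fun χ _ => by ring
  rw [lin, sm_congr h1, sm_sum]
  refine Finset.sum_congr rfl fun χ _ => ?_
  rw [sm_mul, chO_sm, lin]

theorem lin_upr (H : Subgroup A) (X : A → KW p k) (a : MonoidAlgebra (OW p k) ↥H) :
    lin X (upr H a) = lin (on H X) a := by
  rw [lin, lin, sm_sub H]
  · refine sm_congr fun x => ?_
    rw [coeff_upr]
    rfl
  · intro x hx
    rw [coeff_upr_of_notMem _ _ hx, map_zero, zero_mul]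

/-- `single_dec` with the information that the `p`-part of an element which is not `p`-regular is
not trivial -/
theorem single_dec' (g : A) : ∃ (v : A) (M n : ℕ) (ζ : Fin n → OW p k)
    (ε : Fin n → MonoidAlgebra (OW p k) ↥(C1 v)), v ^ p ^ M = 1 ∧ (v = 1 → Preg p g) ∧
    (∀ j, ε j * ε j = ε j) ∧
    (single g 1 : MonoidAlgebra (OW p k) A) =
      ∑ j, ζ j • (single v 1 * upr (C1 v) (ε j)) := by
  classical
  have hp : p.Prime := Fact.out
  -- the `p`-part and the `p'`-part
  obtain ⟨M, m, hpm, hgo⟩ := Nat.exists_eq_pow_mul_and_not_dvd (orderOf_pos g).ne' p hp.ne_one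
  have hm0 : 0 < m := Nat.pos_of_ne_zero fun h => hpm (h ▸ dvd_zero p)
  have hcop : Nat.Coprime (p ^ M) m := Nat.Coprime.pow_left M ((hp.coprime_iff_not_dvd).2 hpm)
  obtain ⟨a, b, hab⟩ := (Nat.isCoprime_iff_coprime.2 hcop)
  set v : A := g ^ (b * (m : ℤ)) with hv
  set y : A := g ^ (a * ((p ^ M : ℕ) : ℤ)) with hy
  have hgy : g = v * y := by
    rw [hv, hy, ← zpow_add, add_comm, hab, zpow_one]
  have hvp : v ^ p ^ M = 1 := by
    rw [hv, ← zpow_natCast, ← zpow_mul]
    have h1 : b * (m : ℤ) * ((p ^ M : ℕ) : ℤ) = (orderOf g : ℤ) * b := by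
      rw [hgo]
      push_cast
      ring
    rw [h1, zpow_mul, zpow_natCast, pow_orderOf_eq_one, one_zpow]
  have hym : y ^ m = 1 := by
    rw [hy, ← zpow_natCast, ← zpow_mul]
    have h1 : a * ((p ^ M : ℕ) : ℤ) * (m : ℤ) = (orderOf g : ℤ) * a := by
      rw [hgo]
      push_cast
      ring
    rw [h1, zpow_mul, zpow_natCast, pow_orderOf_eq_one, one_zpow]
  have hcom : y ∈ C1 v := by
    rw [Subgroup.mem_centralizer_singleton_iff, hv, hy, ← zpow_add, ← zpow_add, add_comm]
  have hreg : v = 1 → Preg p g := by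
    intro h1 h2
    rw [h1, one_mul] at hgy
    rw [← hgy] at hym
    exact hpm (h2.trans (orderOf_dvd_of_pow_eq_one hym))
  obtain ⟨z, hz⟩ := exists_prootO (p := p) (k := k) hpm
  have hmk : rdO p k (m : OW p k) ≠ 0 := by
    rw [map_natCast]
    exact fun h => hpm ((CharP.cast_eq_zero_iff k p m).1 h)
  obtain ⟨w, hw⟩ := (unitO hmk).exists_left_inv
  set Y : MonoidAlgebra (OW p k) ↥(C1 v) := single ⟨y, hcom⟩ 1 with hYd
  have hYm : Y ^ m = 1 := by
    rw [hYd, MonoidAlgebra.single_pow, one_pow, MonoidAlgebra.one_def]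
    congr 1
    exact Subtype.ext hym
  refine ⟨v, M, m, fun j => z ^ (j : ℕ), fun j => ep m w z Y j, hvp, hreg,
    fun j => ep_idem hm0 hw hz.pow_eq_one hYm j, ?_⟩
  have h1 : (single g 1 : MonoidAlgebra (OW p k) A) = single v 1 * upr (C1 v) Y := by
    rw [hYd, upr_single, single_mul_single, one_mul, ← hgy]
  rw [h1]
  conv_lhs => rw [eq_sum_ep (Y := Y) hm0 hw hz hYm]
  rw [map_sum, Finset.mul_sum, Finset.sum_range]
  refine Finset.sum_congr rfl fun j _ => ?_
  rw [map_smul, mul_smul_comm]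

/-- the multiplicities of the restriction -/
theorem rg_rat {s t : Ir (KW p k) A} : ∃ r : ℚ, ip (rg p (ch s)) (ch t) = (r : KW p k) := by
  have h0' : ((ordProj[p] (Nat.card A) : ℕ) : KW p k) ≠ 0 :=
    Nat.cast_ne_zero.2 (Nat.ordProj_pos (Nat.card A) p).ne'
  obtain ⟨z, hz⟩ := ip_rg_int (p := p) (ch_mem s) (ch_mem t)
  refine ⟨z / (ordProj[p] (Nat.card A) : ℕ), ?_⟩
  rw [Rat.cast_div, Rat.cast_intCast, Rat.cast_natCast, ← hz, mul_div_cancel_left₀ _ h0']

end YHAux

open YHAux

/-- the central lift is unique -/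
theorem cenL_unique {b : MonoidAlgebra k A} {B B' : MonoidAlgebra (OW p k) A} (h : CenL b B)
    (h' : CenL b B') : B = B' := by
  have hb : b * b = b := by rw [← h.red, ← map_mul, h.idem]
  have h1 : B' * B = B' := h.mul_eq ⟨h'.idem, h'.red⟩ hb
  have h2 : B * B' = B := h'.mul_eq ⟨h.idem, h.red⟩ hb
  rw [← h2, h.cen, h1]

open Classical in
theorem cut_eq {H : Subgroup A} {c : MonoidAlgebra k ↥H} {BH : MonoidAlgebra (OW p k) ↥H}
    (hB : CenL c BH) {X : A → KW p k} (hX : on H X ∈ V (KW p k) ↥H) (x : ↥H) :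
    cut H BH X x = ∑ s : Ir (KW p k) ↥H with chO s BH ≠ 0, ip (on H X) (ch s) * ch s x := by
  rw [cut, if_pos x.2]
  have h1 : (single (x : A) 1 * upr H BH : MonoidAlgebra (OW p k) A) =
      upr H (single x 1 * BH) := by
    rw [map_mul, upr_single]
  rw [h1, lin_upr, lin_V hX, Finset.sum_filter]
  refine Finset.sum_congr rfl fun s _ => ?_
  split_ifs with hs
  · rw [hB.chO_in hs, chO_ch]
  · rw [not_not] at hs
    rw [hB.chO_out hs (by rw [mul_assoc, hB.idem]), mul_zero]

theorem cut_mem {H : Subgroup A} {c : MonoidAlgebra k A} {BH : MonoidAlgebra (OW p k) ↥H}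
    (hB : CenL (dnr H c) BH) {X : A → KW p k} (hX : on H X ∈ V (KW p k) ↥H) :
    on H (cut H BH X) ∈ VA (p := p) (dnr H c) := by
  classical
  obtain ⟨hint, -⟩ := V_expand hX
  choose z hz using hint
  have h1 : on H (cut H BH X) = fun x => ∑ s : Ir (KW p k) ↥H,
      (((if chO s BH ≠ 0 then z s else 0 : ℤ)) : KW p k) * ch s x := by
    funext x
    change cut H BH X x = _
    rw [cut_eq hB hX x, Finset.sum_filter]
    refine Finset.sum_congr rfl fun s _ => ?_
    split_ifs with hs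
    · rw [hz]
    · rw [Int.cast_zero, zero_mul]
  refine ⟨?_, fun B' hB' χ hχ => ?_⟩
  · rw [h1]
    exact V_of_sum fun s => if chO s BH ≠ 0 then z s else 0
  · have h2 : B' = BH := cenL_unique hB' hB
    rw [h2] at hχ
    rw [h1, ip_sum]
    refine Finset.sum_eq_zero fun s _ => ?_
    have h3 : ip (fun x => (((if chO s BH ≠ 0 then z s else 0 : ℤ)) : KW p k) * ch s x) (ch χ) =
        (((if chO s BH ≠ 0 then z s else 0 : ℤ)) : KW p k) * ip (ch s) (ch χ) := by
      rw [← ip_smul]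
      rfl
    rw [h3, ip_ch]
    by_cases hs : s = χ
    · rw [hs, if_neg (not_not.2 hχ), Int.cast_zero, zero_mul]
    · rw [if_neg hs, mul_zero]

open Classical in
theorem wbo {b : MonoidAlgebra k A} {B : MonoidAlgebra (OW p k) A} (hB : CenL b B) {x y : A}
    (hx : Preg p x) (hy : ¬ Preg p y) :
    ∑ χ : Ir (KW p k) A with chO χ B ≠ 0, ch χ x * ch χ y = 0 := by
  have h1 : ∑ χ : Ir (KW p k) A, chO χ (single y (1 : OW p k)) *
      chO χ (single x (1 : OW p k) * B) = 0 := by
    obtain ⟨v, M, n, ζ, ε, hv, hv1, hε, hyd⟩ := single_dec' (p := p) (k := k) y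
    obtain ⟨n', ζ', ε', hε', hcom, hxd⟩ := reg_dec (p := p) (k := k) hx
    have hv2 : v ≠ 1 := fun h => hy (hv1 h)
    have hkey : ∀ j j', ∑ χ : Ir (KW p k) A, chO χ (single v 1 * upr (C1 v) (ε j)) *
        chO χ (ε' j' * B) = 0 := by
      intro j j'
      have hE : (ε' j' * B) * (ε' j' * B) = ε' j' * B := by
        calc ε' j' * B * (ε' j' * B) = ε' j' * (B * ε' j') * B := by simp only [mul_assoc]
          _ = ε' j' * ε' j' * (B * B) := by rw [hB.cen]; simp only [mul_assoc]
          _ = ε' j' * B := by rw [hε', hB.idem]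
      have htop : ∀ w : A, (ε' j' * B).coeff w ≠ 0 → w ∈ C1 (1 : A) := by
        intro w _
        rw [Subgroup.mem_centralizer_singleton_iff, mul_one, one_mul]
      have hud : upr (C1 (1 : A)) (dnr (C1 (1 : A)) (ε' j' * B)) = ε' j' * B := upr_dnr htop
      have hE' : dnr (C1 (1 : A)) (ε' j' * B) * dnr (C1 (1 : A)) (ε' j' * B) =
          dnr (C1 (1 : A)) (ε' j' * B) := by
        rw [← dnr_mul_upr, hud, hE]
      have h2 := tp_chi_zero (K := KW p k) (p := p) (u := v) (v := (1 : A)) (M := M) hv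
        (one_pow _) sepO (e1 := upr (C1 v) (ε j)) (e2 := ε' j' * B) (e1' := ε j)
        (e2' := dnr (C1 (1 : A)) (ε' j' * B)) (by rw [← map_mul, hε]) hE (hε j) hE'
        (single_upr v (ε j)) (by rw [← one_def, one_mul, mul_one]) (gap_self _ _ _)
        (fun c => by rw [coeff_dnr, sub_self]; exact dvd_zero _) (fun w hw => hv2 (by
          rw [mul_one] at hw
          exact mul_eq_right.1 hw))
      rw [inv_one, ← one_def] at h2
      simpa only [mul_one] using h2
    have h3 : ∀ χ : Ir (KW p k) A, chO χ (single y (1 : OW p k)) *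
        chO χ (single x (1 : OW p k) * B) = ∑ j, ∑ j', algebraMap (OW p k) (KW p k) (ζ j) *
          algebraMap (OW p k) (KW p k) (ζ' j') *
          (chO χ (single v 1 * upr (C1 v) (ε j)) * chO χ (ε' j' * B)) := by
      intro χ
      rw [hyd, hxd, Finset.sum_mul, map_sum, map_sum, Finset.sum_mul]
      refine Finset.sum_congr rfl fun j _ => ?_
      rw [Finset.mul_sum]
      refine Finset.sum_congr rfl fun j' _ => ?_
      rw [smul_mul_assoc, chO_smul, chO_smul]
      ring
    rw [Finset.sum_congr rfl fun χ _ => h3 χ, Finset.sum_comm]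
    refine Finset.sum_eq_zero fun j _ => ?_
    rw [Finset.sum_comm]
    refine Finset.sum_eq_zero fun j' _ => ?_
    rw [← Finset.mul_sum, hkey, mul_zero]
  refine Eq.trans ?_ h1
  rw [Finset.sum_filter]
  refine Finset.sum_congr rfl fun χ _ => ?_
  split_ifs with h
  · rw [hB.chO_in h, chO_ch, chO_ch, mul_comm]
  · rw [not_not] at h
    rw [hB.chO_out (x := single x 1 * B) h (by rw [mul_assoc, hB.idem]), mul_zero]

theorem bo {b : MonoidAlgebra k A} {B : MonoidAlgebra (OW p k) A} (hB : CenL b B)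
    {s t : Ir (KW p k) A} (hs : chO s B ≠ 0) (ht : chO t B = 0) :
    ip (rg p (ch s)) (ch t) = 0 := by
  classical
  have hcard : (Nat.card A : KW p k) ≠ 0 := cardK_ne
  -- the combination of the characters in the block
  have hF : ∀ x : A, Preg p x →
      ∑ χ : Ir (KW p k) A with chO χ B ≠ 0, ch χ x * ip (rg p (ch t)) (ch χ) = 0 := by
    intro x hx
    have h1 : ∀ y : A, rg p (ch t) y *
        (∑ χ : Ir (KW p k) A with chO χ B ≠ 0, ch χ x * ch χ y⁻¹) =
        ch t y * (∑ χ : Ir (KW p k) A with chO χ B ≠ 0, ch χ x * ch χ y⁻¹) := by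
      intro y
      by_cases hy : Preg p y
      · rw [rg_of hy]
      · rw [wbo hB hx (fun h => hy (preg_inv.1 h)), mul_zero, mul_zero]
    have h2 : ∀ F : A → KW p k, ∑ χ : Ir (KW p k) A with chO χ B ≠ 0, ch χ x * ip F (ch χ) =
        (Nat.card A : KW p k)⁻¹ * sm (fun y => F y *
          (∑ χ : Ir (KW p k) A with chO χ B ≠ 0, ch χ x * ch χ y⁻¹)) := by
      intro F
      have h3 : ∀ y : A, F y * (∑ χ : Ir (KW p k) A with chO χ B ≠ 0, ch χ x * ch χ y⁻¹) =
          ∑ χ : Ir (KW p k) A with chO χ B ≠ 0, ch χ x * (F y * ch χ y⁻¹) := by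
        intro y
        rw [Finset.mul_sum]
        exact Finset.sum_congr rfl fun χ _ => by ring
      rw [sm_congr h3, sm_sum, Finset.mul_sum]
      refine Finset.sum_congr rfl fun χ _ => ?_
      rw [sm_mul, ip]
      ring
    rw [h2, sm_congr h1, ← h2]
    refine Finset.sum_eq_zero fun χ hχ => ?_
    have h4 : t ≠ χ := fun h => (Finset.mem_filter.1 hχ).2 (h ▸ ht)
    rw [ip_ch, if_neg h4, mul_zero]
  -- the sum of the squares
  have hsq : ∑ χ : Ir (KW p k) A with chO χ B ≠ 0,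
      ip (rg p (ch χ)) (ch t) * ip (rg p (ch χ)) (ch t) = 0 := by
    have h1 : ∀ χ : Ir (KW p k) A, ip (rg p (ch t)) (ch χ) = ip (rg p (ch χ)) (ch t) := by
      intro χ
      rw [ip_rg, ip_comm]
    have h2 : ∀ χ : Ir (KW p k) A, ip (rg p (ch χ)) (ch t) * ip (rg p (ch χ)) (ch t) =
        (Nat.card A : KW p k)⁻¹ * sm (fun x => rg p (ch χ) x * ch t x⁻¹ *
          ip (rg p (ch t)) (ch χ)) := by
      intro χ
      have h3 : ∀ x : A, rg p (ch χ) x * ch t x⁻¹ * ip (rg p (ch t)) (ch χ) =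
          ip (rg p (ch t)) (ch χ) * (rg p (ch χ) x * ch t x⁻¹) := fun x => by ring
      rw [sm_congr h3, sm_mul, h1 χ]
      conv_lhs => rw [ip]
      rw [ip]
      ring
    rw [Finset.sum_congr rfl fun χ _ => h2 χ, ← Finset.mul_sum, ← sm_sum]
    have h4 : ∀ x : A, ∑ χ : Ir (KW p k) A with chO χ B ≠ 0,
        rg p (ch χ) x * ch t x⁻¹ * ip (rg p (ch t)) (ch χ) = 0 := by
      intro x
      by_cases hx : Preg p x
      · have h5 := hF x hx
        have h6 : ∑ χ : Ir (KW p k) A with chO χ B ≠ 0,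
            rg p (ch χ) x * ch t x⁻¹ * ip (rg p (ch t)) (ch χ) =
            ch t x⁻¹ * ∑ χ : Ir (KW p k) A with chO χ B ≠ 0,
              ch χ x * ip (rg p (ch t)) (ch χ) := by
          rw [Finset.mul_sum]
          refine Finset.sum_congr rfl fun χ _ => ?_
          rw [rg_of hx]
          ring
        rw [h6, h5, mul_zero]
      · refine Finset.sum_eq_zero fun χ _ => ?_
        rw [rg_not hx, zero_mul, zero_mul]
    rw [sm_congr h4, sm_zero, mul_zero]
  have hr : ∀ χ : Ir (KW p k) A, ∃ r : ℚ, ip (rg p (ch χ)) (ch t) = (r : KW p k) := fun χ =>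
    rg_rat
  choose r hr using hr
  have h1 : ∑ χ : Ir (KW p k) A with chO χ B ≠ 0, r χ * r χ = 0 := by
    have h2 : ((∑ χ : Ir (KW p k) A with chO χ B ≠ 0, r χ * r χ : ℚ) : KW p k) = 0 := by
      refine Eq.trans ?_ hsq
      rw [Rat.cast_sum]
      refine Finset.sum_congr rfl fun χ _ => ?_
      rw [hr, Rat.cast_mul]
    exact_mod_cast h2
  have h2 := (Finset.sum_eq_zero_iff_of_nonneg fun χ _ => mul_self_nonneg (r χ)).1 h1 s
    (Finset.mem_filter.2 ⟨Finset.mem_univ _, hs⟩)
  rw [hr, mul_self_eq_zero.1 h2, Rat.cast_zero]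

variable {T : Type*} [CommGroup T] [Fintype T]
  {φ : T →* A} {b f i : MonoidAlgebra k A} {D : Subgroup A} {R : Subgroup T}
  {G : Subgroup T → A → KW p k}

/-- only the block part counts for the rows: `∑_y X(φ u y) Γ(y⁻¹) = ∑_y X_c(φ u y) Γ(y⁻¹)`, because both sides
are `∑_s m_s om_s(φ u) ip (ch s) Γ` and `Γ` is in the block -/
theorem rwv_cut (h : Stp φ b D f i R G) {u : T} (hu : u ∉ R) {H : Subgroup A}
    (hH : cq φ (R ⊔ Subgroup.zpowers u) = H) {c : MonoidAlgebra k A} (hc : LbH H i c)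
    {BH : MonoidAlgebra (OW p k) ↥H} (hB : CenL (dnr H c) BH) {X : A → KW p k}
    (hX : X ∈ V (KW p k) A) :
    rwv φ G R X u = ip (on H fun y => cut H BH X (φ u * y))
      (on H (G (R ⊔ Subgroup.zpowers u))) := by
  classical
  have hRQ : R < R ⊔ Subgroup.zpowers u := by
    refine lt_of_le_of_ne le_sup_left ?_
    intro h1
    apply hu
    rw [h1]
    exact Subgroup.mem_sup_right (Subgroup.mem_zpowers u)
  have hblk := (h.ok _ hRQ).blk c
  have hsup := (h.ok _ hRQ).sup
  rw [hH] at hblk hsup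
  have huH : φ u ∈ H := by
    rw [← hH, Subgroup.mem_centralizer_iff]
    intro y hy
    obtain ⟨t, _, rfl⟩ := hy
    rw [← map_mul, ← map_mul, mul_comm]
  have hcen : ∀ a : ↥H, (⟨φ u, huH⟩ : ↥H) * a = a * ⟨φ u, huH⟩ := by
    intro a
    apply Subtype.ext
    change φ u * (a : A) = (a : A) * φ u
    have ha : (a : A) ∈ cq φ (R ⊔ Subgroup.zpowers u) := hH ▸ a.2
    refine Subgroup.mem_centralizer_iff.1 ha (φ u) ?_
    exact ⟨u, Subgroup.mem_sup_right (Subgroup.mem_zpowers u), rfl⟩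
  have hXH : on H X ∈ V (KW p k) ↥H := V_comp H.subtype hX
  have hchc : ∀ (s : Ir (KW p k) ↥H) (y : ↥H), ch s (⟨φ u, huH⟩ * y) =
      om s (single (⟨φ u, huH⟩ : ↥H) 1) * ch s y := by
    intro s y
    rw [← chO_ch, ← chO_ch, ← chO_central_mul s hcen, single_mul_single, one_mul]
  have hGs : ∀ s : Ir (KW p k) ↥H, chO s BH = 0 → ip (ch s) (on H (G (R ⊔ Subgroup.zpowers u))) = 0 := by
    intro s hs
    rw [ip_comm]
    exact (hblk hc).2 BH hB s hs
  have h1 : rwv φ G R X u = ip (on H fun y => X (φ u * y))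
      (on H (G (R ⊔ Subgroup.zpowers u))) := by
    rw [rwv, hH, ip, sm_sub H]
    · rfl
    · intro x hx
      rw [hsup _ (fun h2 => hx ((Subgroup.inv_mem_iff H).1 h2)), mul_zero]
  have h2 : (on H fun y => X (φ u * y)) = fun y => ∑ s : Ir (KW p k) ↥H,
      ((ip (on H X) (ch s) * om s (single (⟨φ u, huH⟩ : ↥H) 1)) • ch s) y := by
    funext y
    change on H X (⟨φ u, huH⟩ * y) = _
    rw [(V_expand hXH).2]
    refine Finset.sum_congr rfl fun s _ => ?_
    rw [hchc, Pi.smul_apply, smul_eq_mul]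
    ring
  have h3 : (on H fun y => cut H BH X (φ u * y)) = fun y =>
      ∑ s : Ir (KW p k) ↥H, ((if chO s BH ≠ 0 then
        ip (on H X) (ch s) * om s (single (⟨φ u, huH⟩ : ↥H) 1) else 0) • ch s) y := by
    funext y
    change cut H BH X ((⟨φ u, huH⟩ * y : ↥H) : A) = _
    rw [cut_eq hB hXH, Finset.sum_filter]
    refine Finset.sum_congr rfl fun s _ => ?_
    split_ifs with hs
    · rw [hchc, Pi.smul_apply, smul_eq_mul]
      ring
    · rw [zero_smul, Pi.zero_apply]
  rw [h1, h2, h3, ip_sum, ip_sum]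
  refine Finset.sum_congr rfl fun s _ => ?_
  rw [ip_smul, ip_smul]
  split_ifs with hs
  · rfl
  · rw [not_not] at hs
    rw [hGs s hs, mul_zero, mul_zero]

end

end Pool.Agent.Lib.P0c8ca5.Ex
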