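import Mathlib
import Pool.Agent.Lib.P0c8ca5Ex.YH

/-!
# YIa: the second main theorem for the parts of the restrictions

`exists_cutS`: the block idempotents of `C(v)` below `b` and their lifts; `smt0`, `smt`: the second
main theorem; `cut_sum`: on `v s` the values of `X` are the sums of the values of the parts of `X`
in the blocks of `C(v)` below `b`.
-/

set_option linter.unusedSectionVars false

namespace Pool.Agent.Lib.P0c8ca5.Ex

open MonoidAlgebra Rk LocAux WSumAux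

section
variable {p : ℕ} [Fact p.Prime] {k : Type*} [Field k] [IsAlgClosed k] [CharP k p]
  {A : Type*} [Group A] [Finite A]

/-- the blocks of `C(v)` below `b` and their lifts -/
theorem exists_cutS {b : MonoidAlgebra k A} (hbc : ∀ g : A, cj g b = b) (hbb : b * b = b) {v : A}
    {M : ℕ} (hv : v ^ p ^ M = 1) :
    ∃ (S : Finset (MonoidAlgebra k A)) (C : MonoidAlgebra k A → MonoidAlgebra (OW p k) ↥(C1 v)),
      (∀ c, c ∈ S ↔ IsBlock (C1 v) c ∧ resS (C1 v : Set A) b * c = c) ∧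
      (∀ c ∈ S, CenL (dnr (C1 v) c) (C c)) ∧
      CenL (dnr (C1 v) b) (∑ c ∈ S, C c) := by
  classical
  obtain ⟨S, C, h1, h2⟩ := exists_cut (p := p) hbc hbb hv
  refine ⟨S, C, fun c => ⟨fun h => ⟨(h1 c h).1, (h1 c h).2.1⟩, ?_⟩, fun c h => (h1 c h).2.2, h2⟩
  rintro ⟨hc, hcb⟩
  by_contra hcS
  obtain ⟨B, hB⟩ := exists_cenB (p := p) hc
  have h3 : ∀ d ∈ S, B * C d = 0 := by
    intro d hd
    refine (h1 d hd).2.2.mul_zero' ⟨hB.idem, hB.red⟩ ?_
    have h4 : c * d = 0 := (hc.eq_or_mul_eq_zero (h1 d hd).1).resolve_left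
      fun h => hcS (h ▸ hd)
    have h5 := dn_mul (H := C1 v) hc.suppIn (h1 d hd).1.suppIn
    rw [h4, dn_zero] at h5
    exact h5.symm
  have h4 : B * ∑ d ∈ S, C d = 0 := by
    rw [Finset.mul_sum]
    exact Finset.sum_eq_zero h3
  have h5 : B * ∑ d ∈ S, C d = B := by
    refine h2.mul_eq ⟨hB.idem, hB.red⟩ ?_
    rw [← blk_comm hc, dnr_blk hc hcb]
  have h6 : dnr (C1 v) c = 0 := by
    rw [← hB.red, ← h5, h4, map_zero]
  apply hc.ne_zero
  rw [← upr_blk hc, h6, map_zero]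

theorem smt0 {b : MonoidAlgebra k A} (hb : IsBlock (⊤ : Subgroup A) b) {v : A} {M : ℕ}
    (hv : v ^ p ^ M = 1) {C : MonoidAlgebra (OW p k) ↥(C1 v)} (hC : CenL (dnr (C1 v) b) C)
    {E : MonoidAlgebra (OW p k) ↥(C1 v)} (hE : E * E = E) (hEc : ∀ x, E * x = x * E)
    (hEC : E * C = 0) {X : A → KW p k} (hX : X ∈ VA (p := p) b) {s : A}
    (hs : Preg p s) (hsv : s ∈ C1 v) : lin X (single (v * s) 1 * upr (C1 v) E) = 0 := by
  classical
  have hcj : ∀ g : A, cj g b = b := fun g => invBy_iff_cj.1 hb.invBy g (Subgroup.mem_top g)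
  obtain ⟨B, hBB⟩ := exists_cenL (p := p) hb.idem hcj
  rw [YHAux.lin_V hX.1]
  refine Finset.sum_eq_zero fun χ _ => ?_
  by_cases hχ : chO χ B = 0
  · rw [hX.2 B hBB χ hχ, zero_mul]
  obtain ⟨n, ζ, ε, hε, -, hεs⟩ := reg_dec (p := p) (k := k) (g := (⟨s, hsv⟩ : ↥(C1 v)))
    ((FIAux.preg_coe' (⟨s, hsv⟩ : ↥(C1 v))).1 hs)
  have h2 : (single (v * s) 1 : MonoidAlgebra (OW p k) A) * upr (C1 v) E
      = ∑ j, ζ j • (single v 1 * upr (C1 v) (ε j * E)) := by
    have h3 : (single (v * s) 1 : MonoidAlgebra (OW p k) A)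
        = single v 1 * upr (C1 v) (single ⟨s, hsv⟩ 1) := by
      rw [upr_single, single_mul_single, one_mul]
    rw [h3, hεs, mul_assoc, ← map_mul, Finset.sum_mul, map_sum, Finset.mul_sum]
    refine Finset.sum_congr rfl fun j _ => ?_
    rw [smul_mul_assoc, map_smul, mul_smul_comm]
  rw [h2, map_sum, Finset.mul_sum]
  refine Finset.sum_eq_zero fun j _ => ?_
  rw [chO_smul, loc_cut hBB hv hC ?_ hχ, mul_assoc, hEC, mul_zero, map_zero, mul_zero, map_zero,
    mul_zero, mul_zero]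
  calc ε j * E * (ε j * E) = ε j * (E * ε j) * E := by simp only [mul_assoc]
    _ = ε j * ε j * (E * E) := by rw [hEc]; simp only [mul_assoc]
    _ = ε j * E := by rw [hε, hE]

theorem smt {b : MonoidAlgebra k A} (hb : IsBlock (⊤ : Subgroup A) b) {v : A} {M : ℕ}
    (hv : v ^ p ^ M = 1) {c : MonoidAlgebra k A} (hc : IsBlock (C1 v) c)
    (hbc : resS (C1 v : Set A) b * c = 0) {BC : MonoidAlgebra (OW p k) ↥(C1 v)}
    (hB : CenL (dnr (C1 v) c) BC) {X : A → KW p k} (hX : X ∈ VA (p := p) b) {s : A}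
    (hs : Preg p s) (hsv : s ∈ C1 v) : cut (C1 v) BC X (v * s) = 0 := by
  classical
  have hvm : v ∈ C1 v := mem_C1'.2 rfl
  have hcj : ∀ g : A, cj g b = b := fun g => invBy_iff_cj.1 hb.invBy g (Subgroup.mem_top g)
  rw [cut, if_pos (Subgroup.mul_mem _ hvm hsv)]
  obtain ⟨S, C', -, hC⟩ := exists_cut (p := p) hcj hb.idem hv
  refine smt0 hb hv hC hB.idem hB.cen ?_ hX hs hsv
  have h0 : dnr (C1 v) c * dnr (C1 v) b = 0 := by
    have h1 : dnr (C1 v) (resS (C1 v : Set A) b * c) = dnr (C1 v) b * dnr (C1 v) c := by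
      conv_lhs => rw [← upr_blk hc]
      rw [dnr_mul_upr, dnr_resS']
    rw [← blk_comm hc, ← h1, hbc, dnr_zero]
  exact hC.mul_zero' ⟨hB.idem, hB.red⟩ h0

/-- the values at `v s` are the sums over the blocks of `C(v)` below `b` -/
theorem cut_sum {b : MonoidAlgebra k A} (hb : IsBlock (⊤ : Subgroup A) b) {v : A} {M : ℕ}
    (hv : v ^ p ^ M = 1) {S : Finset (MonoidAlgebra k A)}
    {C : MonoidAlgebra k A → MonoidAlgebra (OW p k) ↥(C1 v)}
    (hC : CenL (dnr (C1 v) b) (∑ c ∈ S, C c)) {X : A → KW p k} (hX : X ∈ VA (p := p) b) {s : A}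
    (hs : Preg p s) (hsv : s ∈ C1 v) : X (v * s) = ∑ c ∈ S, cut (C1 v) (C c) X (v * s) := by
  classical
  have := Fintype.ofFinite A
  have hvm : v ∈ C1 v := mem_C1'.2 rfl
  set E := ∑ c ∈ S, C c with hE
  have hlin : ∀ a a' : MonoidAlgebra (OW p k) A, lin X (a + a') = lin X a + lin X a' := by
    intro a a'
    rw [YHAux.lin_V hX.1, YHAux.lin_V hX.1, YHAux.lin_V hX.1, ← Finset.sum_add_distrib]
    refine Finset.sum_congr rfl fun χ _ => ?_
    rw [map_add, mul_add]
  have hlin0 : lin X (0 : MonoidAlgebra (OW p k) A) = 0 := by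
    rw [YHAux.lin_V hX.1]
    refine Finset.sum_eq_zero fun χ _ => ?_
    rw [map_zero, mul_zero]
  have hlins : ∀ (S : Finset (MonoidAlgebra k A)),
      lin X (∑ c ∈ S, single (v * s) 1 * upr (C1 v) (C c))
        = ∑ c ∈ S, cut (C1 v) (C c) X (v * s) := by
    intro S
    induction S using Finset.induction_on with
    | empty => rw [Finset.sum_empty, Finset.sum_empty, hlin0]
    | insert c S hcS ih =>
      rw [Finset.sum_insert hcS, Finset.sum_insert hcS, hlin, ih, cut,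
        if_pos (Subgroup.mul_mem _ hvm hsv)]
  have h1 : lin X (single (v * s) 1 * upr (C1 v) (1 - E)) = 0 := by
    refine smt0 hb hv hC ?_ ?_ ?_ hX hs hsv
    · rw [mul_sub, mul_one, sub_mul, one_mul, hC.idem, sub_self, sub_zero]
    · intro x
      rw [sub_mul, mul_sub, one_mul, mul_one, hC.cen]
    · rw [sub_mul, one_mul, hC.idem, sub_self]
  have h2 : X (v * s) = lin X (single (v * s) (1 : OW p k)) := by
    rw [lin, sm_eq, Finset.sum_eq_single (v * s)]
    · rw [coeff_single, Finsupp.single_eq_same, map_one, one_mul]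
    · intro y _ hy
      rw [coeff_single, Finsupp.single_eq_of_ne hy, map_zero, zero_mul]
    · intro h
      exact absurd (Finset.mem_univ _) h
  have h3 : (single (v * s) 1 : MonoidAlgebra (OW p k) A)
      = single (v * s) 1 * upr (C1 v) (1 - E) + single (v * s) 1 * upr (C1 v) E := by
    rw [← mul_add, ← map_add, sub_add_cancel, map_one, mul_one]
  rw [h2]
  conv_lhs => rw [h3]
  rw [hlin, h1, zero_add, hE, map_sum, Finset.mul_sum, hlins]

end

end Pool.Agent.Lib.P0c8ca5.Ex
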