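import Mathlib
import Pool.Agent.Lib.P0c8ca5Ex.YIa

/-!
# YIb: the local inner products

`wf_ip`: `Wf` as an inner product; `wf_cross`: the parts in different blocks are orthogonal;
`wf_sum`: `Wf` at a `p`-element as a sum over the blocks; `sm_dec`: the sum over the group as a sum
over `p`-elements and `p`-regular elements; `ip_dec`.
-/

set_option linter.unusedSectionVars false

namespace Pool.Agent.Lib.P0c8ca5.Ex

open MonoidAlgebra Rk LocAux WSumAux

section
variable {p : ℕ} [Fact p.Prime] {k : Type*} [Field k] [IsAlgClosed k] [CharP k p]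
  {A : Type*} [Group A] [Finite A]

theorem wf_ip {H : Subgroup A} {v : A} (hc : ∀ a ∈ H, v * a = a * v) (X Y : A → KW p k) :
    Wf p H X Y v = ip (rg p fun s : ↥H => X (v * s)) (fun s : ↥H => Y (v⁻¹ * s)) := by
  rw [Wf, ip]
  congr 1
  refine sm_congr fun s => ?_
  have h1 : (v * (s : A))⁻¹ = v⁻¹ * ((s⁻¹ : ↥H) : A) := by
    rw [hc s s.2, mul_inv_rev]
    rfl
  by_cases hs : Preg p s
  · rw [if_pos hs, rg_of hs, h1]
  · rw [if_neg hs, rg_not hs, zero_mul]

open Classical in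
theorem cut_exp {H : Subgroup A} {v : A} (hv : v ∈ H) (hc : ∀ a ∈ H, v * a = a * v)
    {c : MonoidAlgebra k ↥H} {B : MonoidAlgebra (OW p k) ↥H} (hB : CenL c B)
    {X : A → KW p k} (hX : on H X ∈ V (KW p k) ↥H) :
    ∃ a : Ir (KW p k) ↥H → KW p k, (fun s : ↥H => cut H B X (v * s))
      = fun s => ∑ σ : Ir (KW p k) ↥H with chO σ B ≠ 0, (a σ • ch σ) s := by
  have hcen : ∀ a : ↥H, (⟨v, hv⟩ : ↥H) * a = a * ⟨v, hv⟩ := fun a =>
    Subtype.ext (hc a a.2)
  have hchc : ∀ (s : Ir (KW p k) ↥H) (y : ↥H), ch s (⟨v, hv⟩ * y) =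
      om s (single (⟨v, hv⟩ : ↥H) 1) * ch s y := by
    intro s y
    rw [← YHAux.chO_ch, ← YHAux.chO_ch, ← chO_central_mul s hcen, single_mul_single, one_mul]
  refine ⟨fun σ => ip (on H X) (ch σ) * om σ (single (⟨v, hv⟩ : ↥H) 1), ?_⟩
  funext s
  change cut H B X ((⟨v, hv⟩ * s : ↥H) : A) = _
  rw [cut_eq hB hX]
  refine Finset.sum_congr rfl fun σ _ => ?_
  rw [hchc, Pi.smul_apply, smul_eq_mul]
  ring

theorem wf_cross {H : Subgroup A} {v : A} (hv : v ∈ H) (hc : ∀ a ∈ H, v * a = a * v)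
    {c c' : MonoidAlgebra k ↥H} {B B' : MonoidAlgebra (OW p k) ↥H} (hB : CenL c B)
    (hB' : CenL c' B') (hBB : B * B' = 0) {X Y : A → KW p k} (hX : on H X ∈ V (KW p k) ↥H)
    (hY : on H Y ∈ V (KW p k) ↥H) : Wf p H (cut H B X) (cut H B' Y) v = 0 := by
  classical
  obtain ⟨a, ha⟩ := cut_exp hv hc hB hX
  have hv' : v⁻¹ ∈ H := H.inv_mem hv
  have hc' : ∀ a ∈ H, v⁻¹ * a = a * v⁻¹ := by
    intro a ha
    have h1 := hc a ha
    calc v⁻¹ * a = v⁻¹ * (a * v) * v⁻¹ := by group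
      _ = v⁻¹ * (v * a) * v⁻¹ := by rw [h1]
      _ = a * v⁻¹ := by group
  obtain ⟨a', ha'⟩ := cut_exp hv' hc' hB' hY
  rw [wf_ip hc, ip_rg, ha, ip_sum]
  refine Finset.sum_eq_zero fun σ hσ => ?_
  rw [ip_smul, ← ip_rg, ip_comm, ha', ip_sum, Finset.sum_eq_zero, mul_zero]
  intro τ hτ
  rw [ip_smul, ip_comm]
  have hσ' : chO σ B ≠ 0 := (Finset.mem_filter.1 hσ).2
  have hτ' : chO τ B' ≠ 0 := (Finset.mem_filter.1 hτ).2
  have h1 : chO τ B = 0 := by
    rw [← hB'.chO_in hτ', hBB, map_zero]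
  rw [bo hB hσ' h1, mul_zero]

theorem cut_sum' {b : MonoidAlgebra k A} (hb : IsBlock (⊤ : Subgroup A) b) {v : A} {M : ℕ}
    (hv : v ^ p ^ M = 1) {H : Subgroup A} (hH : C1 v = H) {S : Finset (MonoidAlgebra k A)}
    {C : MonoidAlgebra k A → MonoidAlgebra (OW p k) ↥H}
    (hC : CenL (dnr H b) (∑ c ∈ S, C c)) {X : A → KW p k} (hX : X ∈ VA (p := p) b) {s : A}
    (hs : Preg p s) (hsv : s ∈ H) : X (v * s) = ∑ c ∈ S, cut H (C c) X (v * s) := by
  subst hH
  exact cut_sum hb hv hC hX hs hsv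

theorem C1_inv (v : A) : C1 v⁻¹ = C1 v := by
  rw [← CD_zpowers, ← CD_zpowers, Subgroup.zpowers_inv]

theorem wf_sum {b : MonoidAlgebra k A} (hb : IsBlock (⊤ : Subgroup A) b) {v : A} {M : ℕ}
    (hv : v ^ p ^ M = 1) {S : Finset (MonoidAlgebra k A)}
    {C : MonoidAlgebra k A → MonoidAlgebra (OW p k) ↥(C1 v)}
    (hS : ∀ c ∈ S, IsBlock (C1 v) c) (hSC : ∀ c ∈ S, CenL (dnr (C1 v) c) (C c))
    (hC : CenL (dnr (C1 v) b) (∑ c ∈ S, C c)) {X Y : A → KW p k} (hX : X ∈ VA (p := p) b)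
    (hY : Y ∈ VA (p := p) b) : Wf p (C1 v) X Y v
      = ∑ c ∈ S, Wf p (C1 v) (cut (C1 v) (C c) X) (cut (C1 v) (C c) Y) v := by
  classical
  have hvm : v ∈ C1 v := mem_C1'.2 rfl
  have hvc : ∀ a ∈ C1 v, v * a = a * v := fun a ha => mem_C1'.1 ha
  have hXH : on (C1 v) X ∈ V (KW p k) ↥(C1 v) := V_comp (C1 v).subtype hX.1
  have hYH : on (C1 v) Y ∈ V (KW p k) ↥(C1 v) := V_comp (C1 v).subtype hY.1
  have horth : ∀ c ∈ S, ∀ d ∈ S, d ≠ c → C c * C d = 0 := by
    intro c hc d hd hcd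
    refine (hSC d hd).mul_zero' ⟨(hSC c hc).idem, (hSC c hc).red⟩ ?_
    have h1 := dn_mul (H := C1 v) (hS c hc).suppIn (hS d hd).suppIn
    have h2 : c * d = 0 := ((hS c hc).eq_or_mul_eq_zero (hS d hd)).resolve_left
      fun h => hcd h.symm
    rw [h2, dn_zero] at h1
    exact h1.symm
  have h1 : Wf p (C1 v) X Y v = ∑ c ∈ S, ∑ d ∈ S,
      Wf p (C1 v) (cut (C1 v) (C c) X) (cut (C1 v) (C d) Y) v := by
    have h2 : ∀ s : ↥(C1 v), (if Preg p s then X (v * s) * Y (v * s)⁻¹ else 0)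
        = ∑ c ∈ S, ∑ d ∈ S, if Preg p s then cut (C1 v) (C c) X (v * s) *
          cut (C1 v) (C d) Y (v * s)⁻¹ else 0 := by
      intro s
      by_cases hs : Preg p s
      · simp only [if_pos hs]
        have hsA : Preg p (s : A) := (FIAux.preg_coe' s).2 hs
        have h3 : (v * (s : A))⁻¹ = v⁻¹ * (s : A)⁻¹ := by
          rw [hvc s s.2, mul_inv_rev]
        rw [cut_sum hb hv hC hX hsA s.2, h3,
          cut_sum' hb (v := v⁻¹) (M := M) (by rw [inv_pow, hv, inv_one]) (C1_inv v) hC hY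
            (preg_inv.2 hsA) ((C1 v).inv_mem s.2), Finset.sum_mul]
        refine Finset.sum_congr rfl fun c _ => ?_
        rw [Finset.mul_sum]
      · simp only [if_neg hs, Finset.sum_const_zero]
    rw [Wf, sm_congr h2, sm_sum, Finset.mul_sum]
    refine Finset.sum_congr rfl fun c _ => ?_
    rw [sm_sum, Finset.mul_sum]
    rfl
  rw [h1]
  refine Finset.sum_congr rfl fun c hc => ?_
  rw [Finset.sum_eq_single c]
  · intro d hd hdc
    exact wf_cross hvm hvc (hSC c hc) (hSC d hd) (horth c hc d hd hdc) hXH hYH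
  · intro h
    exact absurd hc h

open Classical in
/-- the sum over `g = v s` -/
theorem sum_dec [Fintype A] {N : Type*} [AddCommMonoid N] (F : A → N) :
    ∑ g, F g = ∑ u : A, if Pel p u then
      ∑ s : ↥(C1 u), (if Preg p s then F (u * s) else 0) else 0 := by
  have h1 : ∀ u : A, ∑ s : ↥(C1 u), (if Preg p s then F (u * s) else 0) =
      ∑ s : A, if (u * s = s * u ∧ Preg p s) then F (u * s) else 0 := by
    intro u
    have h2 : ∑ s : ↥(C1 u), (if Preg p s then F (u * s) else 0) =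
        ∑ s : ↥(C1 u), (fun s : A => if Preg p s then F (u * s) else 0) s :=
      Finset.sum_congr rfl fun s _ => by
        simp only [FIAux.preg_coe']
    rw [h2]
    have h3 : ∑ s : A, (if (u * s = s * u ∧ Preg p s) then F (u * s) else 0) =
        ∑ s ∈ Finset.univ.filter (fun s : A => s ∈ C1 u),
          (fun s : A => if Preg p s then F (u * s) else 0) s := by
      rw [Finset.sum_filter]
      refine Finset.sum_congr rfl fun s _ => ?_
      by_cases h4 : u * s = s * u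
      · have h5 : s ∈ C1 u := mem_C1'.2 h4
        simp only [h4, h5, true_and, if_true]
      · have h5 : s ∉ C1 u := fun h => h4 (mem_C1'.1 h)
        simp only [h4, h5, false_and, if_false]
    rw [h3]
    exact (Finset.sum_subtype
      (Finset.univ.filter (fun s : A => s ∈ C1 u))
      (fun x => by rw [Finset.mem_filter]; exact ⟨fun h => h.2, fun h => ⟨Finset.mem_univ _, h⟩⟩)
      (fun s : A => if Preg p s then F (u * s) else 0)).symm
  simp only [h1]
  have h4 : ∑ u : A, (if Pel p u then ∑ s : A, (if (u * s = s * u ∧ Preg p s) then F (u * s) else 0)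
      else 0) = ∑ x ∈ (Finset.univ : Finset (A × A)).filter
        (fun x => Pel p x.1 ∧ x.1 * x.2 = x.2 * x.1 ∧ Preg p x.2), F (x.1 * x.2) := by
    rw [Finset.sum_filter, Fintype.sum_prod_type]
    refine Finset.sum_congr rfl fun u _ => ?_
    by_cases hu : Pel p u
    · simp only [hu, true_and, if_true]
    · simp only [hu, false_and, if_false, Finset.sum_const_zero]
  rw [h4]
  refine Finset.sum_bij' (fun g _ => (g * (pr p g)⁻¹, pr p g)) (fun x _ => x.1 * x.2) ?_ ?_ ?_ ?_ ?_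
  · intro g _
    rw [Finset.mem_filter]
    refine ⟨Finset.mem_univ _, exists_pow_mul_inv_pr g, ?_, preg_pr g⟩
    have hc : g * pr p g = pr p g * g := (commute_pr (Commute.refl g)).eq
    change g * (pr p g)⁻¹ * pr p g = pr p g * (g * (pr p g)⁻¹)
    rw [inv_mul_cancel_right, ← mul_assoc, ← hc, mul_inv_cancel_right]
  · intro x _
    exact Finset.mem_univ _
  · intro g _
    exact inv_mul_cancel_right g _
  · intro x hx
    rw [Finset.mem_filter] at hx
    obtain ⟨-, ⟨n, hn⟩, hc, hr⟩ := hx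
    have h5 : pr p (x.1 * x.2) = x.2 := by
      rw [pr_mul hc, pr_of_pow hn, pr_eq_self hr, one_mul]
    change (x.1 * x.2 * (pr p (x.1 * x.2))⁻¹, pr p (x.1 * x.2)) = x
    rw [h5, mul_inv_cancel_right]
  · intro g _
    rw [inv_mul_cancel_right]

open Classical in
theorem ip_dec [Fintype A] (X Y : A → KW p k) : (Nat.card A : KW p k) * ip X Y
    = ∑ u : A, if Pel p u then (Nat.card ↥(C1 u) : KW p k) * Wf p (C1 u) X Y u else 0 := by
  rw [ip, mul_inv_cancel_left₀ cardK_ne, sm_eq, sum_dec (p := p)]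
  refine Finset.sum_congr rfl fun u _ => ?_
  split_ifs with hu
  · rw [Wf, mul_inv_cancel_left₀ cardK_ne, sm_eq]
  · rfl

end

end Pool.Agent.Lib.P0c8ca5.Ex
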