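import Mathlib
import Pool.Agent.Lib.P0c8ca5Ex.YIb
import Pool.Agent.Lib.P0c8ca5Ex.Wa
import Pool.Agent.Lib.P0c8ca5Ex.GG

/-!
# YIc: the local inner products and conjugation
-/

set_option linter.unusedSectionVars false

namespace Pool.Agent.Lib.P0c8ca5.Ex

open MonoidAlgebra Rk LocAux WSumAux

section
variable {p : ℕ} [Fact p.Prime] {k : Type*} [Field k] [IsAlgClosed k] [CharP k p]
  {A : Type*} [Group A] [Finite A]

theorem C1_conj_mem {u v g : A} (hg : u * g = g * v) (x : A) :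
    g * x * g⁻¹ ∈ C1 u ↔ x ∈ C1 v := by
  have hu : u = g * v * g⁻¹ := by rw [← hg]; group
  rw [mem_C1', mem_C1']
  constructor
  · intro h1
    have h2 : v = g⁻¹ * u * g := by rw [hu]; group
    calc v * x = g⁻¹ * (u * (g * x * g⁻¹)) * g := by rw [h2]; group
      _ = x * v := by rw [h1, h2]; group
  · intro h1
    calc u * (g * x * g⁻¹) = g * (v * x) * g⁻¹ := by rw [hu]; group
      _ = g * x * g⁻¹ * u := by rw [h1, hu]; group

/-- the conjugate of the lift -/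
theorem cenL_cj {u v g : A} (hg : u * g = g * v) {d : MonoidAlgebra k A}
    (hd : IsBlock (C1 v) d) {BD : MonoidAlgebra (OW p k) ↥(C1 v)}
    (hB : CenL (dnr (C1 v) d) BD) :
    CenL (dnr (C1 u) (cj g d)) (dnr (C1 u) (cjr g (upr (C1 v) BD))) := by
  have := Fintype.ofFinite A
  refine ⟨cjr_idem hg hB.idem, fun x => ?_, ?_⟩
  · apply upr_injective (C1 u)
    rw [map_mul, map_mul, upr_dnr_cjr hg]
    have h1 : cjr g (cjr g⁻¹ (upr (C1 u) x)) = upr (C1 u) x := by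
      rw [cjr_cjr, mul_inv_cancel, cjr_one_left]
    have hg' : v * g⁻¹ = g⁻¹ * u := by
      calc v * g⁻¹ = g⁻¹ * (g * v) * g⁻¹ := by group
        _ = g⁻¹ * (u * g) * g⁻¹ := by rw [hg]
        _ = g⁻¹ * u := by group
    have h2 := upr_dnr_cjr hg' x
    rw [← h1, ← cjr_mul, ← cjr_mul, ← h2, ← map_mul, ← map_mul, hB.cen]
  · rw [map_dnr, map_cjr, map_upr, hB.red, upr_blk hd]
    rfl

theorem lin_cjr {X : A → KW p k} (hX : ∀ g x, X (g * x * g⁻¹) = X x) (g : A)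
    (a : MonoidAlgebra (OW p k) A) : lin X (cjr g a) = lin X a := by
  rw [lin, lin, ← sm_conj g]
  refine sm_congr fun x => ?_
  rw [coeff_cjr, hX]
  congr 3
  group

theorem cut_conj {u v g : A} (hg : u * g = g * v) {d : MonoidAlgebra k A}
    (hd : IsBlock (C1 v) d) {BD : MonoidAlgebra (OW p k) ↥(C1 v)}
    (hB : CenL (dnr (C1 v) d) BD) {BC : MonoidAlgebra (OW p k) ↥(C1 u)}
    (hC : CenL (dnr (C1 u) (cj g d)) BC) {X : A → KW p k}
    (hX : ∀ g x, X (g * x * g⁻¹) = X x) (x : A) :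
    cut (C1 u) BC X (g * x * g⁻¹) = cut (C1 v) BD X x := by
  have := Fintype.ofFinite A
  have h1 : BC = dnr (C1 u) (cjr g (upr (C1 v) BD)) := cenL_unique hC (cenL_cj hg hd hB)
  by_cases hx : x ∈ C1 v
  · rw [cut, cut, if_pos hx, if_pos ((C1_conj_mem hg x).2 hx), h1, upr_dnr_cjr hg]
    have h2 : (single (g * x * g⁻¹) 1 : MonoidAlgebra (OW p k) A) = cjr g (single x 1) := by
      rw [cjr, single_mul_single, single_mul_single, one_mul, one_mul]
    rw [h2, ← cjr_mul, lin_cjr hX]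
  · rw [cut, cut, if_neg hx, if_neg fun h => hx ((C1_conj_mem hg x).1 h)]

open Classical in
theorem wf_all (H : Subgroup A) (X Y : A → KW p k) (x : A) : Wf p H X Y x
    = (Nat.card ↥H : KW p k)⁻¹ * sm (fun s : A =>
      if s ∈ H ∧ Preg p s then X (x * s) * Y (x * s)⁻¹ else 0) := by
  rw [Wf, sm_sub H]
  · congr 1
    refine sm_congr fun s => ?_
    by_cases hs : Preg p s
    · rw [if_pos hs, if_pos ⟨s.2, (FIAux.preg_coe' s).2 hs⟩]
    · rw [if_neg hs, if_neg fun h => hs ((FIAux.preg_coe' s).1 h.2)]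
  · intro s hs
    rw [if_neg fun h => hs h.1]

theorem card_C1 {u v g : A} (hg : u * g = g * v) : Nat.card ↥(C1 u) = Nat.card ↥(C1 v) := by
  have h1 : cg g (C1 v) = C1 u := by
    rw [← CD_zpowers, FuAux.cg_CD, cg_zp hg, CD_zpowers]
  rw [← h1, card_cg]

theorem wf_conj {u v g : A} (hg : u * g = g * v) {d : MonoidAlgebra k A}
    (hd : IsBlock (C1 v) d) {BD : MonoidAlgebra (OW p k) ↥(C1 v)}
    (hB : CenL (dnr (C1 v) d) BD) {BC : MonoidAlgebra (OW p k) ↥(C1 u)}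
    (hC : CenL (dnr (C1 u) (cj g d)) BC) {X Y : A → KW p k}
    (hX : ∀ g x, X (g * x * g⁻¹) = X x) (hY : ∀ g x, Y (g * x * g⁻¹) = Y x) :
    Wf p (C1 u) (cut (C1 u) BC X) (cut (C1 u) BC Y) u
      = Wf p (C1 v) (cut (C1 v) BD X) (cut (C1 v) BD Y) v := by
  classical
  have hu : u = g * v * g⁻¹ := by rw [← hg]; group
  rw [wf_all, wf_all, card_C1 hg, ← sm_conj g]
  congr 1
  refine sm_congr fun s => ?_
  have h1 : u * (g * s * g⁻¹) = g * (v * s) * g⁻¹ := by rw [hu]; group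
  have h2 : (g * (v * s) * g⁻¹)⁻¹ = g * (v * s)⁻¹ * g⁻¹ := by group
  have h3 : (g * s * g⁻¹ ∈ C1 u ∧ Preg p (g * s * g⁻¹)) ↔ (s ∈ C1 v ∧ Preg p s) := by
    rw [C1_conj_mem hg, preg_conj]
  by_cases hs : s ∈ C1 v ∧ Preg p s
  · rw [if_pos hs, if_pos (h3.2 hs), h1, h2, cut_conj hg hd hB hC hX,
      cut_conj hg hd hB hC hY]
  · rw [if_neg hs, if_neg fun h => hs (h3.1 h)]

end

end Pool.Agent.Lib.P0c8ca5.Ex
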