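import Mathlib
import Pool.Agent.Lib.P0c8ca5Ex.YIc
import Pool.Agent.Lib.P0c8ca5Ku.ND

/-!
# YId: the pairs below `b` and the places of `D`
-/

set_option linter.unusedSectionVars false

namespace Pool.Agent.Lib.P0c8ca5.Ex

open MonoidAlgebra Rk LocAux WSumAux

section
variable {p : ℕ} [Fact p.Prime] {k : Type*} [Field k] [IsAlgClosed k] [CharP k p]
  {A : Type*} [Group A] [Finite A]

theorem ip_pairs {b : MonoidAlgebra k A} (hb : IsBlock (⊤ : Subgroup A) b) [Fintype (Pr p b)]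
    (L : ∀ x : Pr p b, MonoidAlgebra (OW p k) ↥(C1 x.v))
    (hL : ∀ x : Pr p b, CenL (dnr (C1 x.v) x.c) (L x)) {X Y : A → KW p k}
    (hX : X ∈ VA (p := p) b) (hY : Y ∈ VA (p := p) b) :
    (Nat.card A : KW p k) * ip X Y = ∑ x : Pr p b, (Nat.card ↥(C1 x.v) : KW p k) *
      Wf p (C1 x.v) (cut (C1 x.v) (L x) X) (cut (C1 x.v) (L x) Y) x.v := by
  classical
  have := Fintype.ofFinite A
  have hcj : ∀ g : A, cj g b = b := fun g => invBy_iff_cj.1 hb.invBy g (Subgroup.mem_top g)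
  rw [ip_dec, ← Finset.sum_fiberwise Finset.univ (fun x : Pr p b => x.v)]
  refine Finset.sum_congr rfl fun u _ => ?_
  by_cases hu : Pel p u
  · rw [if_pos hu]
    obtain ⟨M, hM⟩ := hu
    obtain ⟨S, C, hS, hSC, hC⟩ := exists_cutS (p := p) hcj hb.idem hM
    rw [wf_sum hb hM (fun c hc => ((hS c).1 hc).1) hSC hC hX hY, Finset.mul_sum]
    refine Finset.sum_bij (fun c hc => (⟨u, c, ⟨M, hM⟩, ((hS c).1 hc).1, ((hS c).1 hc).2⟩ : Pr p b))
      ?_ ?_ ?_ ?_
    · intro c hc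
      exact Finset.mem_filter.2 ⟨Finset.mem_univ _, rfl⟩
    · intro c hc c' hc' h
      exact congrArg (fun x : Pr p b => x.c) h
    · rintro ⟨v, c, h1, h2, h3⟩ hx
      obtain rfl : v = u := (Finset.mem_filter.1 hx).2
      exact ⟨c, (hS c).2 ⟨h2, h3⟩, rfl⟩
    · intro c hc
      have h1 := cenL_unique (hL ⟨u, c, ⟨M, hM⟩, ((hS c).1 hc).1, ((hS c).1 hc).2⟩) (hSC c hc)
      simp only at h1
      rw [← h1]
  · rw [if_neg hu]
    symm
    refine Finset.sum_eq_zero fun x hx => ?_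
    exfalso
    apply hu
    rw [← (Finset.mem_filter.1 hx).2]
    exact x.pel

variable {b f i : MonoidAlgebra k A} {D : Subgroup A}

theorem lbH_b_mul (h : Src p b D f i) {u : A} (hu : u ∈ D) {c : MonoidAlgebra k A}
    (hc : LbH (C1 u) i c) : resS (C1 u : Set A) b * c = c := by
  have h1 := Lb.b_mul h (zp_le hu) (hc.toLb (CD_zpowers u))
  rwa [CD_zpowers] at h1

theorem lbH_unique (h : Src p b D f i) {u : A} (hu : u ∈ D) {c c' : MonoidAlgebra k A}
    (hc : LbH (C1 u) i c) (hc' : LbH (C1 u) i c') : c = c' :=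
  Lb.unique h (zp_le hu) (hc.toLb (CD_zpowers u)) (hc'.toLb (CD_zpowers u))

/-- every pair below `b` is conjugate to a place of `D` -/
theorem exists_place (h : Src p b D f i) {v : A} {M : ℕ} (hv : v ^ p ^ M = 1)
    {c : MonoidAlgebra k A} (hc : IsBlock (C1 v) c) (hbc : resS (C1 v : Set A) b * c = c) :
    ∃ (u g : A) (d : MonoidAlgebra k A), u ∈ D ∧ v * g = g * u ∧ LbH (C1 u) i d ∧ cj g d = c := by
  have := Fintype.ofFinite A
  have hpE : ¬ p ∣ eN D f := Ku.ndvd h.root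
  obtain ⟨x, R, hR, hQR, d, hd, hcd⟩ := lb_all h hpE (zp_pgroup hv) (c := c)
    (by rw [CD_zpowers]; exact hc) (by rw [CD_zpowers]; exact hbc)
  set u : A := x⁻¹ * v * x with hu
  have huR : u ∈ R := by
    have h1 : v ∈ cg x R := by
      rw [← hQR]
      exact Subgroup.mem_zpowers v
    exact mem_cg.1 h1
  have hvx : v * x = x * u := by rw [hu]; group
  have hRu : R = Subgroup.zpowers u := by
    have h1 : cg x (Subgroup.zpowers u) = Subgroup.zpowers v := cg_zp hvx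
    rw [hQR] at h1
    have h2 : cg x⁻¹ (cg x (Subgroup.zpowers u)) = cg x⁻¹ (cg x R) := by rw [h1]
    rw [cg_cg, cg_cg, inv_mul_cancel, cg_one, cg_one] at h2
    exact h2.symm
  subst hRu
  exact ⟨u, x, d, hR (Subgroup.mem_zpowers u), hvx, hd.toH (CD_zpowers u), hcd.symm⟩

end

section
variable {p : ℕ} [Fact p.Prime] {k : Type*} [Field k] [IsAlgClosed k] [CharP k p]
  {A : Type*} [Group A] [Finite A] {T : Type*} [CommGroup T] [Fintype T]
  {φ : T →* A} {b f i : MonoidAlgebra k A} {D : Subgroup A}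

open Classical in
/-- the count -/
theorem card_place [Fintype A] (h : Src p b D f i) (hφ : Function.Injective φ)
    (hr : ∀ x, x ∈ D ↔ ∃ t, φ t = x) (cu : T → MonoidAlgebra k A)
    (hcu : ∀ u, LbH (C1 (φ u)) i (cu u)) (x : Pr p b) :
    ∑ u : T, ∑ g : A, (if x.v * g = g * φ u ∧ cj g (cu u) = x.c then
      eQ φ D f (Subgroup.zpowers u) else 0) = Nat.card (EG φ D f) * Nat.card ↥(C1 x.v) := by
  obtain ⟨M, hM⟩ := x.pel
  obtain ⟨u', g0, d, hu', hg0, hd, hcd⟩ := exists_place h hM x.blk x.below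
  obtain ⟨u0, rfl⟩ := (hr u').1 hu'
  have hmem : ∀ u, φ u ∈ D := fun u => (hr _).2 ⟨u, rfl⟩
  obtain rfl := lbH_unique h (hmem u0) hd (hcu u0)
  have hkey : ∀ u : T, ∑ g : A, (if x.v * g = g * φ u ∧ cj g (cu u) = x.c then
      eQ φ D f (Subgroup.zpowers u) else 0)
      = Nat.card {α : ↥(EG φ D f) // (α : MulAut T) u0 = u} * Nat.card ↥(C1 x.v) := by
    intro u
    rw [← Finset.sum_filter, Finset.sum_const, smul_eq_mul]
    by_cases hu : ∃ ψ ∈ EG φ D f, u = ψ u0
    · obtain ⟨β, hβ, rfl⟩ := hu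
      obtain ⟨n, hn, hβn⟩ := hβ
      have h1 : φ u0 * n⁻¹ = n⁻¹ * φ (β u0) := by
        rw [hβn]
        group
      have h2 : cj n⁻¹ (cu (β u0)) = cu u0 :=
        cj_lb h (hmem _) (Subgroup.inv_mem _ hn) h1 (hcu u0) (hcu (β u0))
      have h3 : x.v * (g0 * n⁻¹) = g0 * n⁻¹ * φ (β u0) := by
        rw [← mul_assoc, hg0, mul_assoc, h1, ← mul_assoc]
      have h4 : cj (g0 * n⁻¹) (cu (β u0)) = x.c := by
        rw [← cj_cj, h2, hcd]
      have h5 : (Finset.univ.filter fun g : A => x.v * g = g * φ (β u0) ∧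
          cj g (cu (β u0)) = x.c).card = Nat.card ↥(C1 x.v) := by
        rw [Nat.card_eq_fintype_card, Fintype.card_subtype]
        refine Finset.card_bij (fun g _ => g * (g0 * n⁻¹)⁻¹) ?_ ?_ ?_
        · intro g hg
          obtain ⟨h6, -⟩ := (Finset.mem_filter.1 hg).2
          refine Finset.mem_filter.2 ⟨Finset.mem_univ _, mem_C1'.2 ?_⟩
          have h7 : x.v = (g0 * n⁻¹) * φ (β u0) * (g0 * n⁻¹)⁻¹ := by
            rw [← h3, mul_inv_cancel_right]
          calc x.v * (g * (g0 * n⁻¹)⁻¹) = g * φ (β u0) * (g0 * n⁻¹)⁻¹ := by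
                rw [← mul_assoc, h6]
            _ = g * (g0 * n⁻¹)⁻¹ * ((g0 * n⁻¹) * φ (β u0) * (g0 * n⁻¹)⁻¹) := by group
            _ = g * (g0 * n⁻¹)⁻¹ * x.v := by rw [← h7]
        · intro g _ g' _ h6
          exact mul_right_cancel h6
        · intro y hy
          have hyC : y ∈ C1 x.v := (Finset.mem_filter.1 hy).2
          refine ⟨y * (g0 * n⁻¹), Finset.mem_filter.2 ⟨Finset.mem_univ _, ?_, ?_⟩, ?_⟩
          · rw [← mul_assoc, mem_C1'.1 hyC, mul_assoc, h3, ← mul_assoc]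
          · rw [← cj_cj, h4]
            exact invBy_iff_cj.1 x.blk.invBy y hyC
          · rw [mul_inv_cancel_right]
      rw [h5, mul_comm]
      congr 1
      have hβ' : β ∈ EG φ D f := ⟨n, hn, hβn⟩
      refine Nat.card_congr ?_
      refine
        { toFun := fun α => ⟨α.1 * ⟨β, hβ'⟩, ?_⟩
          invFun := fun α => ⟨α.1 * ⟨β, hβ'⟩⁻¹, ?_⟩
          left_inv := fun α => Subtype.ext (mul_inv_cancel_right _ _)
          right_inv := fun α => Subtype.ext (inv_mul_cancel_right _ _) }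
      · have h6 := α.2 (β u0) (Subgroup.mem_zpowers _)
        change (((α.1 : MulAut T) * β) u0) = β u0
        rw [MulAut.mul_apply, h6]
      · have h6 : ((α.1 * ⟨β, hβ'⟩⁻¹ : ↥(EG φ D f)) : MulAut T) (β u0) = β u0 := by
          change ((α.1 : MulAut T) * β⁻¹) (β u0) = β u0
          rw [MulAut.mul_apply, MulAut.inv_apply_self, α.2]
        intro t ht
        obtain ⟨m, rfl⟩ := Subgroup.mem_zpowers_iff.1 ht
        rw [map_zpow, h6]
    · have h1 : (Finset.univ.filter fun g : A => x.v * g = g * φ u ∧ cj g (cu u) = x.c) = ∅ := by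
        rw [Finset.filter_eq_empty_iff]
        rintro g - ⟨h2, h3⟩
        apply hu
        rw [conj_iff hφ hr]
        have h4 : φ u0 * (g0⁻¹ * g) = (g0⁻¹ * g) * φ u := by
          have h5 : φ u0 = g0⁻¹ * x.v * g0 := by
            rw [mul_assoc, hg0]
            group
          calc φ u0 * (g0⁻¹ * g) = g0⁻¹ * (x.v * g) := by rw [h5]; group
            _ = g0⁻¹ * g * φ u := by rw [h2]; group
        refine fus_elt h (hmem u0) (hmem u) h4 (hcu u0) (hcu u) ?_
        rw [← cj_cj, h3, ← hcd, cj_cj, inv_mul_cancel, cj_one_left]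
      have h2 : Nat.card {α : ↥(EG φ D f) // (α : MulAut T) u0 = u} = 0 := by
        rw [Nat.card_eq_zero]
        left
        exact ⟨fun α => hu ⟨α.1, α.1.2, α.2.symm⟩⟩
      rw [h1, h2, Finset.card_empty, zero_mul, zero_mul]
  rw [Finset.sum_congr rfl fun u _ => hkey u, ← Finset.sum_mul]
  congr 1
  rw [← Nat.card_congr (Equiv.sigmaFiberEquiv fun α : ↥(EG φ D f) => (α : MulAut T) u0),
    Nat.card_sigma]

end

end Pool.Agent.Lib.P0c8ca5.Ex
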