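import Mathlib
import Pool.Agent.Lib.P0c8ca5Ex.YId

/-!
# YI: the second main theorem and the orthogonality over the places of `D`

`smt`: for `X` in the block `b`, `v` a `p`-element, `c` a block of `C(v)` NOT below `b` and `s ∈ C(v)`
`p`-regular: `lin X (v s B_c) = 0`. PROOF: `reg_dec` in `C(v)` for `s`, then `loc_cut` (for the lift `C` of
`resS C(v) b`, `C B_c = 0`), or as in `form_zero`.

`ort` PROOF. `|A| ip X Y = ∑_g X(g) Y(g⁻¹) = ∑_v ∑_(s ∈ C(v) p-regular) X(v s) Y((v s)⁻¹)`, `v` the `p`-elements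
(`sum_pr`-like decomposition of `g` in `p`- and `p'`-part). `X(v s) = ∑_c X_c(v s)` over the blocks `c` of `C(v)`
(`exists_cut`), the part of `c` not below `b` is `0` (`smt`), and for `c ≠ c'` the sum of
`X_c(v s) Y_c'((v s)⁻¹)` over the `p`-regular `s` is `0` (`bo`: it is
`∑ m_j om_j(v) n_j' om_j'(v)⁻¹ |C(v)| ip (rg (ch j)) (ch j')`). So `|A| ip X Y = ∑_((v,c)) |C(v)| W(v,c)` over the
pairs `(v, c)` with `c` below `b`. Every such pair is conjugate to `(φ u, c_u)`, `u ∈ T`, `LbH (C1 (φ u)) i c_u`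
(library: the pairs below `b`; see the proof of `no_gal` in GH: `exists_conj ..`), and the number of
`(u, g) ∈ T × A` with `g (φ u, c_u) g⁻¹ = (v, c)` is `|C(v)| |EG| / eQ ⟨u⟩` (`fus_elt`, `cj_lb`). Hence
`|EG| ∑_((v,c)) |C(v)| W(v,c) = ∑_u ∑_(g ∈ A) eQ ⟨u⟩ W(φ u, c_u) = |A| ∑_u eQ ⟨u⟩ W_u`.
-/

set_option linter.unusedSectionVars false

namespace Pool.Agent.Lib.P0c8ca5.Ex

open MonoidAlgebra

section
variable {p : ℕ} [Fact p.Prime] {k : Type*} [Field k] [IsAlgClosed k] [CharP k p]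
  {A : Type*} [Group A] [Finite A]

variable {T : Type*} [CommGroup T] [Fintype T]
  {φ : T →* A} {b f i : MonoidAlgebra k A} {D : Subgroup A}

theorem ort (h : Src p b D f i) (hφ : Function.Injective φ) (hr : ∀ x, x ∈ D ↔ ∃ t, φ t = x)
    {BB : ∀ H : Subgroup A, MonoidAlgebra (OW p k) ↥H}
    (hBB : ∀ u c, LbH (C1 (φ u)) i c → CenL (dnr (C1 (φ u)) c) (BB (C1 (φ u))))
    {X Y : A → KW p k} (hX : X ∈ VA (p := p) b) (hY : Y ∈ VA (p := p) b) :
    ∑ u : T, (eQ φ D f (Subgroup.zpowers u) : KW p k) *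
        Wf p (C1 (φ u)) (cut (C1 (φ u)) (BB (C1 (φ u))) X) (cut (C1 (φ u)) (BB (C1 (φ u))) Y) (φ u)
      = (Nat.card (EG φ D f) : KW p k) * ip X Y := by
  classical
  have := Fintype.ofFinite A
  have hfin := finite_pr (p := p) b
  have := Fintype.ofFinite (Pr p b)
  have hb := h.root.blk
  have hmem : ∀ u, φ u ∈ D := fun u => (hr _).2 ⟨u, rfl⟩
  choose cu hcu using fun u : T => exists_lbH h (hmem u)
  choose L hL using fun x : Pr p b => exists_cenB (p := p) x.blk
  have hXc := V_conj hX.1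
  have hYc := V_conj hY.1
  let W : T → KW p k := fun u => Wf p (C1 (φ u)) (cut (C1 (φ u)) (BB (C1 (φ u))) X)
    (cut (C1 (φ u)) (BB (C1 (φ u))) Y) (φ u)
  let Wx : Pr p b → KW p k := fun x =>
    Wf p (C1 x.v) (cut (C1 x.v) (L x) X) (cut (C1 x.v) (L x) Y) x.v
  have hW : ∀ (u : T) (g : A) (x : Pr p b), x.v * g = g * φ u ∧ cj g (cu u) = x.c →
      W u = Wx x := by
    rintro u g x ⟨h1, h2⟩
    exact (wf_conj h1 (hcu u).blk (hBB u _ (hcu u)) (BC := L x) (by rw [h2]; exact hL x)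
      hXc hYc).symm
  have hone : ∀ (u : T) (g : A), ∑ x : Pr p b,
      (if x.v * g = g * φ u ∧ cj g (cu u) = x.c then
        (eQ φ D f (Subgroup.zpowers u) : KW p k) * Wx x else 0)
      = (eQ φ D f (Subgroup.zpowers u) : KW p k) * W u := by
    intro u g
    obtain ⟨M, hM⟩ := pow_one_of h
    have h1 : g * φ u * g⁻¹ * g = g * φ u := inv_mul_cancel_right _ _
    let x0 : Pr p b := ⟨g * φ u * g⁻¹, cj g (cu u), ⟨M, by
      rw [conj_pow, hM _ (hmem u), mul_one, mul_inv_cancel]⟩, isBlock_cj h1 (hcu u).blk, by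
      have h2 : resS (C1 (g * φ u * g⁻¹) : Set A) b = cj g (resS (C1 (φ u) : Set A) b) := by
        have h3 : cg g (C1 (φ u)) = C1 (g * φ u * g⁻¹) := by
          rw [← CD_zpowers, FuAux.cg_CD, cg_zp h1, CD_zpowers]
        rw [← FuAux.resS_cg, h3, invBy_iff_cj.1 hb.invBy g (Subgroup.mem_top g)]
      rw [h2, ← cj_mul, lbH_b_mul h (hmem u) (hcu u)]⟩
    rw [Finset.sum_eq_single x0]
    · rw [if_pos ⟨h1, rfl⟩, hW u g x0 ⟨h1, rfl⟩]
    · intro x _ hx
      rw [if_neg]
      rintro ⟨h2, h3⟩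
      apply hx
      have h4 : x.v = g * φ u * g⁻¹ := by rw [← h2, mul_inv_cancel_right]
      rcases x with ⟨v, c, h5, h6, h7⟩
      simp only at h4 h3
      subst h4
      subst h3
      rfl
    · intro h2
      exact absurd (Finset.mem_univ _) h2
  have hA : (Nat.card A : KW p k) ≠ 0 := cardK_ne
  refine mul_left_cancel₀ hA ?_
  have h1 : (Nat.card A : KW p k) * ∑ u : T, (eQ φ D f (Subgroup.zpowers u) : KW p k) * W u
      = ∑ x : Pr p b, Wx x * ((Nat.card (EG φ D f) : KW p k) * (Nat.card ↥(C1 x.v) : KW p k)) := by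
    have h2 : ∀ x : Pr p b, Wx x * ((Nat.card (EG φ D f) : KW p k) *
        (Nat.card ↥(C1 x.v) : KW p k)) = ∑ u : T, ∑ g : A,
        (if x.v * g = g * φ u ∧ cj g (cu u) = x.c then
          (eQ φ D f (Subgroup.zpowers u) : KW p k) * Wx x else 0) := by
      intro x
      have h3 := congrArg (Nat.cast (R := KW p k)) (card_place h hφ hr cu hcu x)
      rw [Nat.cast_mul] at h3
      rw [← h3, Nat.cast_sum, Finset.mul_sum]
      refine Finset.sum_congr rfl fun u _ => ?_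
      rw [Nat.cast_sum, Finset.mul_sum]
      refine Finset.sum_congr rfl fun g _ => ?_
      split_ifs with h4
      · rw [mul_comm]
      · rw [Nat.cast_zero, mul_zero]
    rw [Finset.sum_congr rfl fun x _ => h2 x, Finset.sum_comm, Finset.mul_sum]
    refine Finset.sum_congr rfl fun u _ => ?_
    rw [Finset.sum_comm, Finset.sum_congr rfl fun g _ => hone u g, Finset.sum_const,
      Finset.card_univ, nsmul_eq_mul, Nat.card_eq_fintype_card]
  have h2 : (Nat.card A : KW p k) * ((Nat.card (EG φ D f) : KW p k) * ip X Y)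
      = ∑ x : Pr p b, Wx x * ((Nat.card (EG φ D f) : KW p k) * (Nat.card ↥(C1 x.v) : KW p k)) := by
    rw [mul_left_comm, ip_pairs hb L hL hX hY, Finset.mul_sum]
    refine Finset.sum_congr rfl fun x _ => ?_
    simp only [Wx]
    ring
  rw [h2]
  exact h1

/-- an element of `V` in `b` whose columns at the places `u ∉ R` vanish is zero on all elements whose `p`-part
is not in `φ R`; PROOF: `g = v s`; `X(v s) = ∑_c X_c(v s)`; `c` not below `b`: `smt`; otherwise `(v, c)` is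
conjugate to some `(φ u, c_u)`, and `u ∉ R` as `v ∉ φ R` (`φ R` central) -/
theorem van (h : Src p b D f i) (hφ : Function.Injective φ) (hr : ∀ x, x ∈ D ↔ ∃ t, φ t = x)
    {R : Subgroup T} (hR : ∀ z ∈ R, ∀ a : A, φ z * a = a * φ z)
    {BB : ∀ H : Subgroup A, MonoidAlgebra (OW p k) ↥H}
    (hBB : ∀ u c, LbH (C1 (φ u)) i c → CenL (dnr (C1 (φ u)) c) (BB (C1 (φ u))))
    {X : A → KW p k} (hX : X ∈ VA (p := p) b)
    (h0 : ∀ u, u ∉ R → ∀ s ∈ C1 (φ u), Preg p s →
      cut (C1 (φ u)) (BB (C1 (φ u))) X (φ u * s) = 0) {x : A}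
    (hx : ∀ z ∈ R, ¬ Preg p (φ z * x)) : X x = 0 := by
  classical
  have := Fintype.ofFinite A
  have hb := h.root.blk
  have hcj : ∀ g : A, cj g b = b := fun g => invBy_iff_cj.1 hb.invBy g (Subgroup.mem_top g)
  have hmem : ∀ u, φ u ∈ D := fun u => (hr _).2 ⟨u, rfl⟩
  obtain ⟨M, hM⟩ := exists_pow_mul_inv_pr (p := p) x
  set s := pr p x with hs
  set v := x * s⁻¹ with hv
  have hsr : Preg p s := preg_pr x
  have hxs : x = v * s := by rw [hv, inv_mul_cancel_right]
  have hsv : s ∈ C1 v := by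
    rw [mem_C1']
    have hc : x * s = s * x := (commute_pr (Commute.refl x)).eq
    rw [hv, inv_mul_cancel_right, ← mul_assoc, ← hc, mul_inv_cancel_right]
  obtain ⟨S, C, hS, hSC, hC⟩ := exists_cutS (p := p) hcj hb.idem hM
  rw [hxs, cut_sum hb hM hC hX hsr hsv]
  refine Finset.sum_eq_zero fun c hc => ?_
  obtain ⟨h1, h2⟩ := (hS c).1 hc
  obtain ⟨u', g, d, hu', hg, hd, hdc⟩ := exists_place h hM h1 h2
  obtain ⟨u, rfl⟩ := (hr u').1 hu'
  have hu : u ∉ R := by
    intro huR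
    apply hx _ (R.inv_mem huR)
    have h3 : v = φ u := by
      have h4 := hR u huR g
      rw [← h4] at hg
      exact mul_right_cancel hg
    rw [hxs, h3, ← mul_assoc, ← map_mul, inv_mul_cancel, map_one, one_mul]
    exact hsr
  have h3 : v * s = g * (φ u * (g⁻¹ * s * g)) * g⁻¹ := by
    have h4 : v = g * φ u * g⁻¹ := by rw [← hg, mul_inv_cancel_right]
    rw [h4]
    group
  rw [h3, cut_conj hg hd.blk (hBB u d hd) (by rw [hdc]; exact hSC c hc) (V_conj hX.1)]
  refine h0 u hu _ ?_ ?_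
  · rw [← C1_conj_mem hg]
    have h4 : g * (g⁻¹ * s * g) * g⁻¹ = s := by group
    rw [h4]
    exact hsv
  · have h4 := preg_conj (p := p) g⁻¹ s
    rw [inv_inv] at h4
    exact h4.2 hsr

end

end Pool.Agent.Lib.P0c8ca5.Ex
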