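import Mathlib
import Pool.Agent.Lib.P0c8ca5Ex.YC

/-!
# YK: integrality of the multiplicities of a function supported on `Z A_p'`, constant on `Z`

PROOF of `mix`. Both `|A|_p' |Z| ip (rg p X) Y` is an algebraic integer and `|A|_p |Z| ip (rg p X) Y` is an
integer (`ip_rg_int`), so `|Z| ip (rg p X) Y` is rational, `a / |A|_p` with an algebraic integer
`|A|_p' a / |A|_p`; since `|A|_p'` is prime to `|A|_p`, it is an algebraic integer and rational: an integer.
First claim: for `s` `p`-regular, `P` a Sylow `p`-subgroup of `C(s)`: `Z ≤ P` and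
`|P|⁻¹ ∑_(u ∈ P) X(u s)` is an algebraic integer (for `X = ch χ` it is the trace of `s` on the fixed points of
`P`: eigenvalues roots of unity; or: the sum over `u ∈ P` of the values at `u s` of a generalized character of
`P × ⟨s⟩`). `X(u s) = 0` for `u ∉ Z` (`z⁻¹ u s` is not `p`-regular), `X(z s) = X(s)`: it is `|Z| |P|⁻¹ X(s)`.
So `X(s) |Z| = |C(s)|_p *` (algebraic integer), and
`|Z| ip (rg p X) Y = ∑_(s mod conjugation) |C(s)|⁻¹ |Z| X(s) Y(s⁻¹)`, `|A|_p' / |C(s)|_p'` an integer.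
-/

set_option linter.unusedSectionVars false

namespace Pool.Agent.Lib.P0c8ca5.Ex

open MonoidAlgebra

namespace YkAux

section
variable {K : Type*} [Field K] [IsAlgClosed K] [CharZero K] {A : Type*} [Group A] [Finite A]

theorem sm_prod {B : Type*} [Group B] [Finite B] (F : A × B → K) :
    sm F = sm (fun b : B => sm (fun a : A => F (a, b))) := by
  have := Fintype.ofFinite A
  have := Fintype.ofFinite B
  simp only [sm_eq]
  rw [Fintype.sum_prod_type, Finset.sum_comm]

/-- the values are algebraic integers -/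
theorem int_val {X : A → K} (hX : X ∈ V K A) (x : A) : IsIntegral ℤ (X x) := by
  refine V_induction (P := fun X => IsIntegral ℤ (X x)) (fun χ => ?_) isIntegral_zero
    (fun _ _ h1 h2 => h1.add h2) (fun _ h1 => h1.neg) hX
  have h1 : rpI χ x ^ Nat.card A = 1 := by
    rw [← map_pow, pow_card_eq_one', map_one]
  have h2 := FIAux.isIntegral_trace Nat.card_pos.ne' h1
  rwa [trace_rpI] at h2

/-- the mean value over a subgroup commuting with `s` -/
theorem int_mean {X : A → K} (hX : X ∈ V K A) (P : Subgroup A) {s : A}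
    (hs : ∀ u ∈ P, u * s = s * u) :
    IsIntegral ℤ ((Nat.card ↥P : K)⁻¹ * sm (fun u : ↥P => X (u * s))) := by
  -- the homomorphism `(u, t) ↦ u t`
  have hcomm : ∀ (u : ↥P) (t : ↥(Subgroup.zpowers s)), Commute (u : A) (t : A) := by
    rintro ⟨u, hu⟩ ⟨t, ht⟩
    obtain ⟨n, rfl⟩ := Subgroup.mem_zpowers_iff.1 ht
    exact Commute.zpow_right (hs u hu) n
  let ψ : ↥P × ↥(Subgroup.zpowers s) →* A :=
    MonoidHom.noncommCoprod P.subtype (Subgroup.zpowers s).subtype hcomm
  have hψ : ∀ u t, ψ (u, t) = (u : A) * (t : A) := fun u t => rfl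
  let Θ : ↥(Subgroup.zpowers s) → K := fun t =>
    (Nat.card ↥P : K)⁻¹ * sm (fun u : ↥P => X ((u : A) * (t : A)))
  have hΘ : Θ ∈ V K ↥(Subgroup.zpowers s) := by
    refine mem_V_of_int (fun g x => ?_) fun lam => ?_
    · have h1 : g * x = x * g := by
        obtain ⟨g, hg⟩ := g
        obtain ⟨x, hx⟩ := x
        obtain ⟨m, rfl⟩ := Subgroup.mem_zpowers_iff.1 hg
        obtain ⟨n, rfl⟩ := Subgroup.mem_zpowers_iff.1 hx
        exact Subtype.ext (zpow_mul_comm s m n)
      rw [h1, mul_inv_cancel_right]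
    · obtain ⟨z, hz⟩ := ip_int (V_comp ψ hX) (V_comp (MonoidHom.snd ↥P ↥(Subgroup.zpowers s))
        (ch_mem lam))
      refine ⟨z, ?_⟩
      have e1 : ∀ t, Θ t * ch lam t⁻¹ = (Nat.card ↥P : K)⁻¹ *
          sm (fun u : ↥P => X (ψ (u, t)) * ch lam t⁻¹) := by
        intro t
        have e2 : ∀ u : ↥P, X (ψ (u, t)) * ch lam t⁻¹ = ch lam t⁻¹ * X (ψ (u, t)) :=
          fun u => mul_comm _ _
        rw [sm_congr e2, sm_mul]
        change (Nat.card ↥P : K)⁻¹ * sm (fun u : ↥P => X ((u : A) * (t : A))) * ch lam t⁻¹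
          = (Nat.card ↥P : K)⁻¹ * (ch lam t⁻¹ * sm (fun u : ↥P => X ((u : A) * (t : A))))
        ring
      have e3 : ip (fun x => X (ψ x)) (fun x => ch lam (MonoidHom.snd ↥P ↥(Subgroup.zpowers s) x))
          = (Nat.card (↥P × ↥(Subgroup.zpowers s)) : K)⁻¹ *
            sm (fun t : ↥(Subgroup.zpowers s) => sm (fun u : ↥P => X (ψ (u, t)) * ch lam t⁻¹)) := by
        rw [ip, sm_prod]
        rfl
      rw [← hz, e3, ip, sm_congr e1, sm_mul, Nat.card_prod, Nat.cast_mul, mul_inv]
      ring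
  exact int_val hΘ ⟨s, Subgroup.mem_zpowers s⟩

open Classical in
/-- sums over conjugacy classes, algebraic integers -/
theorem cls_sum [Fintype A] {m : A → ℕ} {M : ℕ} (f : A → K) (hf : ∀ g x, f (g * x * g⁻¹) = f x)
    (h : ∀ x, ∃ y : K, IsIntegral ℤ y ∧ f x = m x * y)
    (hm : ∀ x, M ∣ (Finset.univ.filter fun w : A => ConjClasses.mk w = ConjClasses.mk x).card * m x) :
    ∃ y : K, IsIntegral ℤ y ∧ ∑ x, f x = M * y := by
  rw [← Finset.sum_fiberwise Finset.univ (fun w : A => ConjClasses.mk w) f]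
  have h1 : ∀ k : ConjClasses A, ∃ y : K, IsIntegral ℤ y ∧
      ∑ w with ConjClasses.mk w = k, f w = M * y := by
    intro k
    obtain ⟨g, rfl⟩ := ConjClasses.exists_rep k
    have h1 : ∀ w ∈ Finset.univ.filter (fun w : A => ConjClasses.mk w = ConjClasses.mk g),
        f w = f g := by
      intro w hw
      rw [Finset.mem_filter, ConjClasses.mk_eq_mk_iff_isConj] at hw
      obtain ⟨c, hc⟩ := isConj_iff.1 hw.2
      rw [← hc, hf]
    rw [Finset.sum_congr rfl h1, Finset.sum_const, nsmul_eq_mul]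
    obtain ⟨y, hy, hy'⟩ := h g
    obtain ⟨n, hn⟩ := hm g
    have hn' : IsIntegral ℤ (n : K) := by
      have h3 : IsIntegral ℤ (algebraMap ℤ K (n : ℤ)) := isIntegral_algebraMap
      rwa [algebraMap_int_eq, eq_intCast, Int.cast_natCast] at h3
    refine ⟨n * y, hn'.mul hy, ?_⟩
    rw [hy', ← mul_assoc, ← Nat.cast_mul, hn, Nat.cast_mul, mul_assoc]
  choose y hy hy' using h1
  refine ⟨∑ k, y k, IsIntegral.sum _ fun k _ => hy k, ?_⟩
  rw [Finset.mul_sum]
  exact Finset.sum_congr rfl fun k _ => hy' k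

end

section
variable {K : Type*} [Field K] [IsAlgClosed K] [CharZero K] {A : Type*} [Group A] [Finite A]
  {p : ℕ} [Fact p.Prime]

/-- `|Z| X(s) = |C(s)|_p *` (algebraic integer) -/
theorem loc {Z : Subgroup A} (hZp : IsPGroup p Z) (hZ : ∀ z ∈ Z, ∀ a : A, z * a = a * z)
    {X : A → K} (hX : X ∈ V K A) (h1 : ∀ z ∈ Z, ∀ x, X (z * x) = X x)
    (h0 : ∀ x, (∀ z ∈ Z, ¬ Preg p (z * x)) → X x = 0) {s : A} (hs : Preg p s) :
    ∃ y : K, IsIntegral ℤ y ∧ (Nat.card Z : K) * X s
      = ((ordProj[p] (Nat.card (Subgroup.centralizer ({s} : Set A))) : ℕ) : K) * y := by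
  set C := Subgroup.centralizer ({s} : Set A) with hC
  have hZC : Z ≤ C := by
    intro z hz
    rw [hC, Subgroup.mem_centralizer_singleton_iff]
    exact hZ z hz s
  have hZ' : IsPGroup p (Z.subgroupOf C) :=
    hZp.comap_of_injective C.subtype C.subtype_injective
  obtain ⟨P, hP⟩ := hZ'.exists_le_sylow
  set P' : Subgroup A := (P : Subgroup ↥C).map C.subtype with hP'
  have hcard : Nat.card ↥P' = ordProj[p] (Nat.card ↥C) := by
    rw [hP', Subgroup.card_map_of_injective C.subtype_injective]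
    exact P.card_eq_multiplicity
  have hZP : Z ≤ P' := by
    intro z hz
    exact ⟨⟨z, hZC hz⟩, hP (Subgroup.mem_subgroupOf.2 hz), rfl⟩
  have hPp : IsPGroup p P' := P.2.map C.subtype
  have hPs : ∀ u ∈ P', u * s = s * u := by
    rintro _ ⟨u, -, rfl⟩
    exact Subgroup.mem_centralizer_singleton_iff.1 u.2
  refine ⟨_, int_mean hX P' hPs, ?_⟩
  have hne : (Nat.card ↥P' : K) ≠ 0 := cardK_ne
  rw [← hcard, mul_inv_cancel_left₀ hne]
  -- the sum over `P'`
  have h2 : sm (fun u : ↥P' => X (u * s)) = sm (fun u : ↥(Z.subgroupOf P') => X s) := by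
    rw [sm_sub (Z.subgroupOf P')]
    · refine sm_congr fun u => ?_
      exact h1 _ (Subgroup.mem_subgroupOf.1 u.2) s
    · intro u hu
      refine h0 _ fun z hz hreg => hu (Subgroup.mem_subgroupOf.2 ?_)
      -- `z u s` is p-regular, so `z u = 1`
      have h3 : z * (u : A) ∈ P' := P'.mul_mem (hZP hz) u.2
      have h4 : z * (u : A) = 1 := by
        obtain ⟨n, hn⟩ := hPp ⟨z * (u : A), h3⟩
        have hn' : (z * (u : A)) ^ p ^ n = 1 := congrArg Subtype.val hn
        have hc : Commute (z * (u : A)) s := hPs _ h3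
        have h5 : z * ((u : A) * s) = (z * u) * s := (mul_assoc _ _ _).symm
        rw [h5] at hreg
        -- order of `z u` divides a product of p-regular orders
        have h6 : (z * (u : A)) ^ (orderOf (z * (u : A) * s) * orderOf s) = 1 := by
          have h7 : (z * (u : A) * s) ^ (orderOf (z * (u : A) * s) * orderOf s) = 1 := by
            rw [pow_mul, pow_orderOf_eq_one, one_pow]
          rw [hc.mul_pow, pow_mul' s, pow_orderOf_eq_one, one_pow, mul_one] at h7
          exact h7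
        have h8 : orderOf (z * (u : A)) ∣ p ^ n := orderOf_dvd_of_pow_eq_one hn'
        have h9 : orderOf (z * (u : A)) ∣ orderOf (z * (u : A) * s) * orderOf s :=
          orderOf_dvd_of_pow_eq_one h6
        have h10 : (p ^ n).Coprime (orderOf (z * (u : A) * s) * orderOf s) := by
          refine Nat.Coprime.pow_left n (Nat.Coprime.mul_right ?_ ?_)
          · exact ((Fact.out : p.Prime).coprime_iff_not_dvd).2 hreg
          · exact ((Fact.out : p.Prime).coprime_iff_not_dvd).2 hs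
        exact orderOf_eq_one_iff.1 (Nat.eq_one_of_dvd_coprimes h10 h8 h9)
      have h11 : (u : A) = z⁻¹ := (inv_eq_of_mul_eq_one_right h4).symm
      rw [h11]
      exact Z.inv_mem hz
  rw [h2, sm_const]
  congr 2
  exact Nat.card_congr (Subgroup.subgroupOfEquivOfLe hZP).symm.toEquiv

end

end YkAux

open YkAux

section
variable {K : Type*} [Field K] [IsAlgClosed K] [CharZero K] {A : Type*} [Group A] [Finite A]
  {p : ℕ} [Fact p.Prime]

theorem mix {Z : Subgroup A} (hZp : IsPGroup p Z) (hZ : ∀ z ∈ Z, ∀ a : A, z * a = a * z)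
    {X Y : A → K} (hX : X ∈ V K A) (hY : Y ∈ V K A) (h1 : ∀ z ∈ Z, ∀ x, X (z * x) = X x)
    (h0 : ∀ x, (∀ z ∈ Z, ¬ Preg p (z * x)) → X x = 0) :
    ∃ m : ℤ, (Nat.card Z : K) * ip (rg p X) Y = m := by
  classical
  have := Fintype.ofFinite A
  set a := ordProj[p] (Nat.card A) with ha
  set c := ordCompl[p] (Nat.card A) with hc
  have hac : a.Coprime c :=
    Nat.Coprime.pow_left _ (Nat.coprime_ordCompl (Fact.out : p.Prime) Nat.card_pos.ne')
  have hcard : (Nat.card A : K) = (a : K) * (c : K) := by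
    rw [← Nat.cast_mul, Nat.ordProj_mul_ordCompl_eq_self]
  have ha0 : a ≠ 0 := (Nat.ordProj_pos (Nat.card A) p).ne'
  have hc0 : c ≠ 0 := (Nat.ordCompl_pos p Nat.card_pos.ne').ne'
  have haK : (a : K) ≠ 0 := Nat.cast_ne_zero.2 ha0
  have hcK : (c : K) ≠ 0 := Nat.cast_ne_zero.2 hc0
  -- (1) the `a`-multiple
  obtain ⟨z, hz⟩ := ip_rg_int (p := p) hX hY
  -- (2) the `c`-multiple
  have hf : ∀ g x : A, (Nat.card Z : K) * (rg p X (g * x * g⁻¹) * Y (g * x * g⁻¹)⁻¹)
      = (Nat.card Z : K) * (rg p X x * Y x⁻¹) := by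
    intro g x
    rw [rg_conj (V_conj hX), conj_inv, V_conj hY]
  obtain ⟨y, hy, hy'⟩ := cls_sum (K := K) (A := A) (M := a)
    (m := fun x => ordProj[p] (Nat.card (Subgroup.centralizer ({x} : Set A))))
    (fun x => (Nat.card Z : K) * (rg p X x * Y x⁻¹)) hf (fun x => by
      by_cases hx : Preg p x
      · obtain ⟨y, hy, hy'⟩ := loc hZp hZ hX h1 h0 hx
        refine ⟨y * Y x⁻¹, hy.mul (int_val hY _), ?_⟩
        rw [rg_of hx, ← mul_assoc, hy', mul_assoc]
      · refine ⟨0, isIntegral_zero, ?_⟩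
        rw [rg_not hx, zero_mul, mul_zero, mul_zero]) (fun x => by
      have h2 := FIAux.card_cls x
      have h3 : (Finset.univ.filter fun w : A => ConjClasses.mk w = ConjClasses.mk x).card ≠ 0 := by
        intro h4
        rw [h4, zero_mul] at h2
        exact Nat.card_pos.ne' h2.symm
      have h4 : Nat.card (Subgroup.centralizer ({x} : Set A)) ≠ 0 := Nat.card_pos.ne'
      rw [ha, ← h2, Nat.ordProj_mul p h3 h4]
      exact mul_dvd_mul_right (Nat.ordProj_dvd _ _) _)
  have hq : (c : K) * ((Nat.card Z : K) * ip (rg p X) Y) = y := by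
    have h2 : ∑ x, (Nat.card Z : K) * (rg p X x * Y x⁻¹)
        = (Nat.card Z : K) * sm (fun x => rg p X x * Y x⁻¹) := by
      rw [sm_eq, Finset.mul_sum]
    rw [h2] at hy'
    rw [ip, hcard]
    have h3 : (c : K) * ((Nat.card Z : K) * (((a : K) * (c : K))⁻¹ *
        sm (fun x => rg p X x * Y x⁻¹))) = (a : K)⁻¹ * ((Nat.card Z : K) *
        sm (fun x => rg p X x * Y x⁻¹)) := by
      field_simp
    rw [h3, hy', inv_mul_cancel_left₀ haK]
  set q := (Nat.card Z : K) * ip (rg p X) Y with hqdef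
  have hq1 : (a : K) * q = ((Nat.card Z * z : ℤ) : K) := by
    rw [hqdef, mul_left_comm, hz]
    push_cast
    ring
  -- `q` is an algebraic integer
  have hint : IsIntegral ℤ q := by
    obtain ⟨u, v, huv⟩ := (Nat.isCoprime_iff_coprime.2 hac)
    have h2 : q = (u : K) * ((a : K) * q) + (v : K) * ((c : K) * q) := by
      have h3 : ((u * a + v * c : ℤ) : K) = 1 := by rw [huv, Int.cast_one]
      push_cast at h3
      calc q = 1 * q := (one_mul q).symm
        _ = _ := by rw [← h3]; ring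
    rw [h2, hq1, hq]
    have hi : ∀ n : ℤ, IsIntegral ℤ (n : K) := fun n => isIntegral_algebraMap (R := ℤ) (x := n)
    exact ((hi u).mul (hi _)).add ((hi v).mul hy)
  obtain ⟨w, hw⟩ := FIAux.int_of_mul hint ha0 (Nat.coprime_one_right a) (z := Nat.card Z * z) (by
    rw [hq1, Nat.cast_one, one_mul])
  exact ⟨w, by rw [hw, Nat.cast_one, one_mul]⟩

end

end Pool.Agent.Lib.P0c8ca5.Ex
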