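import Mathlib
import Pool.Agent.Lib.P0c8ca5Ex.YC

/-!
# YD: gluing

`mob`: MOEBIUS/WEISNER. `m S = -μ(R, S)` for `S > R`, `m S = 0` otherwise. PROOF. Choose `μ` on the
subgroups `S ≥ R` with `μ R = 1` and `∑_(R ≤ S ≤ S') μ S = 0` for all `S' > R` (recursion on the
cardinality, or `IncidenceAlgebra.mu`). For `a = R ⊔ zpowers u > R` and `S' ≥ a` put
`w S' = ∑_(R ≤ S, S ⊔ zpowers u = S') μ S`; then `∑_(a ≤ S'' ≤ S') w S'' = ∑_(R ≤ S ≤ S') μ S = 0`,
so `w S' = 0` by induction on `S'`. The term `S = R` occurs only for `S' = a`.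

`glue`: for `u ∉ R` put `g S' = |C(S')|⁻¹ ∑_y X(φ u y) G_(S')(y⁻¹)` (`u ∈ S'`); `rwv φ G S X u` is
`g (S ⊔ zpowers u)`, and `Θ = ∑_(S > R) m S • rwv φ G S X` is in `vir` by `GOK.row` for `S > R`
(`on (cq φ S) X ∈ V` by `V_comp`). By `mob`, `Θ u = g (R ⊔ zpowers u) = rwv φ G R X u`. At `u = 1`:
`Θ 1 = ∑_S m S |C(S)|⁻¹ ∑_y X(y) G_S(y⁻¹) = ip X Ω` with
`Ω x = ∑_S m S |C(S)|⁻¹ ∑_(g ∈ A) G_S(g x g⁻¹)`, a class function, zero on the elements which are
not `p`-regular, with integral multiplicities (`ip_int` in `C(S)`), so in `V` (`mem_V_of_int`).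
For `z ∈ R`: `S ⊔ zpowers (z * u) = S ⊔ zpowers u` (`S > R`), so `rwv φ G S X (z * u) = w * rwv φ G S X u`
if `X (φ z * x) = w * X x`.
-/

set_option linter.unusedSectionVars false

namespace Pool.Agent.Lib.P0c8ca5.Ex

open MonoidAlgebra

open Finset in
/-- the Moebius function of an element of a finite poset -/
theorem exists_mu {α : Type*} [Fintype α] [PartialOrder α] [DecidableLE α] (a : α) :
    ∃ μ : α → ℤ, μ a = 1 ∧ ∀ b, a < b → ∑ x with a ≤ x ∧ x ≤ b, μ x = 0 := by
  classical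
  let _ : LocallyFiniteOrder α := Fintype.toLocallyFiniteOrder
  refine ⟨fun x => IncidenceAlgebra.mu ℤ a x, IncidenceAlgebra.mu_self a, fun b hab => ?_⟩
  have h1 := IncidenceAlgebra.sum_Icc_mu_right (𝕜 := ℤ) a b
  rw [if_neg hab.ne] at h1
  rw [← h1]
  refine Finset.sum_congr ?_ fun _ _ => rfl
  ext x
  rw [Finset.mem_filter, Finset.mem_Icc]
  exact ⟨fun h => h.2, fun h => ⟨Finset.mem_univ _, h⟩⟩


section
variable {T : Type*} [CommGroup T] [Fintype T]

open Finset Classical in
theorem mob [Fintype (Subgroup T)] (R : Subgroup T) : ∃ m : Subgroup T → ℤ,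
    (∀ S, ¬ R < S → m S = 0) ∧ ∀ u, u ∉ R → ∀ S', R ⊔ Subgroup.zpowers u ≤ S' →
      (∑ S with S ⊔ Subgroup.zpowers u = S', m S)
        = if S' = R ⊔ Subgroup.zpowers u then 1 else 0 := by
  obtain ⟨μ, hR, hμ⟩ := exists_mu R
  refine ⟨fun S => if R < S then - μ S else 0, fun S hS => if_neg hS, fun u hu => ?_⟩
  set a := R ⊔ Subgroup.zpowers u with ha
  have hRa : R < a := by
    refine lt_of_le_of_ne le_sup_left fun h => hu ?_
    rw [h]
    exact (le_sup_right : Subgroup.zpowers u ≤ R ⊔ Subgroup.zpowers u) (Subgroup.mem_zpowers u)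
  -- the sums of `μ`
  have hw : ∀ S', a ≤ S' → ∑ S with R ≤ S ∧ S ⊔ Subgroup.zpowers u = S', μ S = 0 := by
    intro S'
    induction hn : Nat.card S' using Nat.strong_induction_on generalizing S' with
    | _ n ih =>
      intro haS
      have h1 := hμ S' (hRa.trans_le haS)
      have hmaps : ∀ S ∈ univ.filter (fun S => R ≤ S ∧ S ≤ S'),
          S ⊔ Subgroup.zpowers u ∈ univ.filter (fun S'' => a ≤ S'' ∧ S'' ≤ S') := by
        intro S hS
        obtain ⟨-, h2, h3⟩ := Finset.mem_filter.1 hS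
        refine Finset.mem_filter.2 ⟨Finset.mem_univ _, sup_le_sup_right h2 _, sup_le h3 ?_⟩
        exact (le_sup_right : Subgroup.zpowers u ≤ R ⊔ Subgroup.zpowers u).trans haS
      rw [← Finset.sum_fiberwise_of_maps_to hmaps, Finset.sum_eq_single S'] at h1
      · rw [← h1]
        refine Finset.sum_congr ?_ fun _ _ => rfl
        ext S
        rw [Finset.mem_filter, Finset.mem_filter, Finset.mem_filter]
        constructor
        · rintro ⟨h2, h3, h4⟩
          exact ⟨⟨h2, h3, h4 ▸ le_sup_left⟩, h4⟩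
        · rintro ⟨⟨h2, h3, -⟩, h4⟩
          exact ⟨h2, h3, h4⟩
      · intro S'' hS'' hne
        obtain ⟨-, h2, h3⟩ := Finset.mem_filter.1 hS''
        have hlt : S'' < S' := lt_of_le_of_ne h3 hne
        have h5 := ih (Nat.card S'') (by
          rw [← hn]
          exact lt_of_le_of_ne (Subgroup.card_le_of_le hlt.le)
            (fun h => hlt.ne (Subgroup.eq_of_le_of_card_ge hlt.le h.ge))) S'' rfl h2
        rw [← h5]
        refine Finset.sum_congr ?_ fun _ _ => rfl
        ext S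
        rw [Finset.mem_filter, Finset.mem_filter, Finset.mem_filter]
        constructor
        · rintro ⟨⟨h6, h7, -⟩, h8⟩
          exact ⟨h6, h7, h8⟩
        · rintro ⟨h6, h7, h8⟩
          refine ⟨⟨h6, h7, ?_⟩, h8⟩
          rw [← h8] at h3
          exact le_sup_left.trans h3
      · intro h2
        exact absurd (Finset.mem_filter.2 ⟨Finset.mem_univ _, haS, le_rfl⟩) h2
  intro S' haS
  have h1 := hw S' haS
  have h2 : ∀ S : Subgroup T, (if R < S then - μ S else 0)
      = - ((if R ≤ S then μ S else 0) - if S = R then μ S else 0) := by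
    intro S
    by_cases h3 : R < S
    · rw [if_pos h3, if_pos h3.le, if_neg h3.ne', sub_zero]
    · rw [if_neg h3]
      by_cases h4 : S = R
      · rw [if_pos h4, if_pos (h4 ▸ le_rfl), sub_self, neg_zero]
      · rw [if_neg h4, if_neg (fun h => h3 (lt_of_le_of_ne h (Ne.symm h4))), sub_zero, neg_zero]
  rw [Finset.sum_congr rfl fun S _ => h2 S, Finset.sum_neg_distrib, Finset.sum_sub_distrib]
  have h3 : ∑ S with S ⊔ Subgroup.zpowers u = S', (if R ≤ S then μ S else 0) = 0 := by
    rw [← Finset.sum_filter, ← h1]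
    refine Finset.sum_congr ?_ fun _ _ => rfl
    ext S
    rw [Finset.mem_filter, Finset.mem_filter, Finset.mem_filter]
    constructor
    · rintro ⟨⟨h4, h5⟩, h6⟩
      exact ⟨h4, h6, h5⟩
    · rintro ⟨h4, h5, h6⟩
      exact ⟨⟨h4, h6⟩, h5⟩
  rw [h3, zero_sub, neg_neg, Finset.sum_ite_eq' ]
  by_cases h4 : S' = a
  · rw [if_pos h4, if_pos, hR]
    rw [Finset.mem_filter]
    exact ⟨Finset.mem_univ _, h4.symm⟩
  · rw [if_neg h4, if_neg]
    intro h5
    exact h4 (Finset.mem_filter.1 h5).2.symm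

end

section
variable {p : ℕ} [Fact p.Prime] {k : Type*} [Field k] [IsAlgClosed k] [CharP k p]
  {A : Type*} [Group A] [Finite A] {T : Type*} [CommGroup T] [Fintype T]
  {φ : T →* A} {b f i : MonoidAlgebra k A} {D : Subgroup A} {R : Subgroup T}
  {G : Subgroup T → A → KW p k}

namespace YdAux

/-- the row at `S'` -/
noncomputable def gg {K : Type*} [Field K] (φ : T →* A) (G : Subgroup T → A → K) (S' : Subgroup T)
    (X : A → K) (u : T) : K :=
  (Nat.card ↥(cq φ S') : K)⁻¹ * sm (fun y => X (φ u * y) * G S' y⁻¹)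

theorem rwv_gg {K : Type*} [Field K] (φ : T →* A) (G : Subgroup T → A → K) (S : Subgroup T)
    (X : A → K) (u : T) : rwv φ G S X u = gg φ G (S ⊔ Subgroup.zpowers u) X u := rfl

/-- the induced function -/
noncomputable def omf [Fintype (Subgroup T)] {K : Type*} [Field K] (φ : T →* A)
    (G : Subgroup T → A → K) (m : Subgroup T → ℤ) (x : A) : K :=
  ∑ S : Subgroup T, (m S : K) * ((Nat.card ↥(cq φ S) : K)⁻¹ * sm (fun g => G S (g * x * g⁻¹)))

theorem ip_omf [Fintype (Subgroup T)] {K : Type*} [Field K] [IsAlgClosed K] [CharZero K]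
    (φ : T →* A) (G : Subgroup T → A → K) (m : Subgroup T → ℤ) {X : A → K}
    (hX : ∀ g x, X (g * x * g⁻¹) = X x) :
    ip X (omf φ G m) = ∑ S : Subgroup T, (m S : K) * gg φ G S X 1 := by
  have h1 : ∀ x, X x * omf φ G m x⁻¹ = ∑ S : Subgroup T,
      ((m S : K) * (Nat.card ↥(cq φ S) : K)⁻¹) * sm (fun g => X x * G S (g * x⁻¹ * g⁻¹)) := by
    intro x
    rw [omf, Finset.mul_sum]
    refine Finset.sum_congr rfl fun S _ => ?_
    rw [sm_mul]
    ring
  rw [ip, sm_congr h1, sm_sum, Finset.mul_sum]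
  refine Finset.sum_congr rfl fun S _ => ?_
  have h2 : sm (fun x => ((m S : K) * (Nat.card ↥(cq φ S) : K)⁻¹) *
      sm (fun g => X x * G S (g * x⁻¹ * g⁻¹)))
      = ((m S : K) * (Nat.card ↥(cq φ S) : K)⁻¹) * ((Nat.card A : K) *
        sm (fun y => X y * G S y⁻¹)) := by
    rw [sm_mul, sm_comm]
    congr 1
    rw [← sm_const]
    refine sm_congr fun g => ?_
    rw [← sm_conj g (fun y => X y * G S y⁻¹)]
    refine sm_congr fun x => ?_
    rw [hX]
    congr 2
    group
  rw [h2, gg]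
  have h3 : ∀ y, X (φ 1 * y) * G S y⁻¹ = X y * G S y⁻¹ := fun y => by rw [map_one, one_mul]
  rw [sm_congr h3]
  have h4 := cardK_ne (K := K) (A := A)
  field_simp

theorem omf_conj [Fintype (Subgroup T)] {K : Type*} [Field K] (φ : T →* A)
    (G : Subgroup T → A → K) (m : Subgroup T → ℤ) (g x : A) :
    omf φ G m (g * x * g⁻¹) = omf φ G m x := by
  rw [omf, omf]
  refine Finset.sum_congr rfl fun S _ => ?_
  congr 2
  rw [← sm_equiv (Equiv.mulRight g) (fun y => G S (y * x * y⁻¹))]
  refine sm_congr fun y => ?_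
  rw [Equiv.coe_mulRight]
  congr 1
  group

theorem sup_zp_mul {S : Subgroup T} {z : T} (hz : z ∈ S) (u : T) :
    S ⊔ Subgroup.zpowers (z * u) = S ⊔ Subgroup.zpowers u := by
  refine le_antisymm (sup_le le_sup_left ?_) (sup_le le_sup_left ?_)
  · rw [Subgroup.zpowers_le]
    exact Subgroup.mul_mem _ (Subgroup.mem_sup_left hz)
      (Subgroup.mem_sup_right (Subgroup.mem_zpowers u))
  · rw [Subgroup.zpowers_le]
    have h1 : z⁻¹ * (z * u) ∈ S ⊔ Subgroup.zpowers (z * u) :=
      Subgroup.mul_mem _ (Subgroup.mem_sup_left (S.inv_mem hz))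
        (Subgroup.mem_sup_right (Subgroup.mem_zpowers (z * u)))
    rwa [inv_mul_cancel_left] at h1

end YdAux

open YdAux

theorem glue (h : Stp φ b D f i R G) : ∃ Ω ∈ V (KW p k) A, (∀ x, ¬ Preg p x → Ω x = 0) ∧
    ∀ X ∈ V (KW p k) A, ∃ Θ ∈ vir T (KW p k), (∀ u, u ∉ R → Θ u = rwv φ G R X u) ∧
      Θ 1 = ip X Ω ∧
      ∀ z ∈ R, ∀ w : KW p k, (∀ x, X (φ z * x) = w * X x) → ∀ u, Θ (z * u) = w * Θ u := by
  classical
  have : Fintype (Subgroup T) := Fintype.ofFinite _
  obtain ⟨m, hm0, hm⟩ := mob R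
  have hcl := omf_conj φ G m
  refine ⟨omf φ G m, ?_, fun x hx => ?_, fun X hX => ?_⟩
  · refine mem_V_of_int hcl fun χ => ?_
    rw [ip_comm, ip_omf φ G m (ch_conj χ)]
    have h1 : ∀ S : Subgroup T, ∃ z : ℤ, (m S : KW p k) * gg φ G S (ch χ) 1 = z := by
      intro S
      by_cases hS : R < S
      · have hok := h.ok S hS
        obtain ⟨c, hc⟩ := exists_lb h.src (Q := S.map φ) (by
          rintro _ ⟨t, -, rfl⟩
          exact (h.ran _).2 ⟨t, rfl⟩)
        have hG := (hok.blk c (hc.toH rfl)).1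
        have hX : on (cq φ S) (ch χ) ∈ V (KW p k) ↥(cq φ S) :=
          V_comp (cq φ S).subtype (ch_mem χ)
        obtain ⟨z, hz⟩ := ip_int hX hG
        refine ⟨m S * z, ?_⟩
        rw [Int.cast_mul, ← hz, ip, gg]
        congr 2
        rw [sm_sub (cq φ S)]
        · refine sm_congr fun y => ?_
          rw [map_one, one_mul]
          rfl
        · intro y hy
          rw [hok.sup y⁻¹ (fun h' => hy ((Subgroup.inv_mem_iff _).1 h')), mul_zero]
      · exact ⟨0, by rw [hm0 S hS, Int.cast_zero, zero_mul]⟩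
    choose z hz using h1
    exact ⟨∑ S, z S, by rw [Int.cast_sum]; exact Finset.sum_congr rfl fun S _ => hz S⟩
  · rw [omf]
    refine Finset.sum_eq_zero fun S _ => ?_
    by_cases hS : R < S
    · have h1 : ∀ g : A, G S (g * x * g⁻¹) = 0 := fun g =>
        (h.ok S hS).reg _ fun h' => hx ((preg_conj g x).1 h')
      rw [sm_congr h1, sm_zero, mul_zero, mul_zero]
    · rw [hm0 S hS, Int.cast_zero, zero_mul]
  · have hterm : ∀ S : Subgroup T, ∀ u, (m S • rwv φ G S X) u
        = (m S : KW p k) * gg φ G (S ⊔ Subgroup.zpowers u) X u := by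
      intro S u
      rw [Pi.smul_apply, zsmul_eq_mul, rwv_gg]
    refine ⟨∑ S : Subgroup T, m S • rwv φ G S X, ?_, fun u hu => ?_, ?_, ?_⟩
    · refine Subring.sum_mem _ fun S _ => ?_
      by_cases hS : R < S
      · exact Subring.zsmul_mem _ ((h.ok S hS).row X (V_comp (cq φ S).subtype hX)) _
      · rw [hm0 S hS, zero_smul]
        exact Subring.zero_mem _
    · rw [Finset.sum_apply, Finset.sum_congr rfl fun S _ => hterm S u]
      have hmaps : ∀ S ∈ (Finset.univ : Finset (Subgroup T)),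
          S ⊔ Subgroup.zpowers u ∈ (Finset.univ : Finset (Subgroup T)) :=
        fun S _ => Finset.mem_univ _
      rw [← Finset.sum_fiberwise_of_maps_to hmaps]
      have h2 : ∀ S' : Subgroup T, (∑ S with S ⊔ Subgroup.zpowers u = S',
          (m S : KW p k) * gg φ G (S ⊔ Subgroup.zpowers u) X u)
          = if S' = R ⊔ Subgroup.zpowers u then gg φ G S' X u else 0 := by
        intro S'
        have h3 : (∑ S with S ⊔ Subgroup.zpowers u = S',
            (m S : KW p k) * gg φ G (S ⊔ Subgroup.zpowers u) X u)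
            = ((∑ S with S ⊔ Subgroup.zpowers u = S', m S : ℤ) : KW p k) * gg φ G S' X u := by
          rw [Int.cast_sum, Finset.sum_mul]
          refine Finset.sum_congr rfl fun S hS => ?_
          rw [(Finset.mem_filter.1 hS).2]
        rw [h3]
        by_cases hle : R ⊔ Subgroup.zpowers u ≤ S'
        · rw [hm u hu S' hle]
          split_ifs
          · rw [Int.cast_one, one_mul]
          · rw [Int.cast_zero, zero_mul]
        · rw [if_neg (fun h' => hle h'.ge), Finset.sum_eq_zero, Int.cast_zero, zero_mul]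
          intro S hS
          refine hm0 S fun hlt => hle ?_
          rw [← (Finset.mem_filter.1 hS).2]
          exact sup_le_sup_right hlt.le _
      rw [Finset.sum_congr rfl fun S' _ => h2 S', Finset.sum_ite_eq', if_pos (Finset.mem_univ _),
        rwv_gg]
    · rw [ip_omf φ G m (V_conj hX), Finset.sum_apply]
      refine Finset.sum_congr rfl fun S _ => ?_
      rw [hterm, Subgroup.zpowers_one_eq_bot, sup_bot_eq]
    · intro z hz w hw u
      rw [Finset.sum_apply, Finset.sum_apply, Finset.mul_sum]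
      refine Finset.sum_congr rfl fun S _ => ?_
      rw [hterm, hterm]
      by_cases hS : R < S
      · rw [sup_zp_mul (hS.le hz), gg, gg]
        have h4 : ∀ y, X (φ (z * u) * y) * G (S ⊔ Subgroup.zpowers u) y⁻¹
            = w * (X (φ u * y) * G (S ⊔ Subgroup.zpowers u) y⁻¹) := by
          intro y
          rw [map_mul, mul_assoc, hw, mul_assoc]
        rw [sm_congr h4, sm_mul]
        ring
      · rw [hm0 S hS, Int.cast_zero, zero_mul, zero_mul, mul_zero]

end

end Pool.Agent.Lib.P0c8ca5.Ex
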