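import Mathlib
import Pool.Agent.Lib.P0c8ca5Ex.YE
import Pool.Agent.Lib.P0c8ca5Ex.YH
import Pool.Agent.Lib.P0c8ca5Ex.GI

/-!
# YF: the Gram matrix of the rows

PROOF of `gram_all`. `Q = R⟨u⟩`, `Q' = R⟨v⟩`, `H = C(Q) = C(φ u)`, `H' = C(Q') = C(φ v)`, `Γ = G Q`,
`Γ' = G Q'`. By `col`, the sum is `|H|⁻¹ |H'|⁻¹ ∑_(y ∈ H, y' ∈ H') Γ(y⁻¹) Γ'(y'⁻¹) n(y, y')`, where
`n(y, y')` is the number of `g ∈ A` with `φ u y g φ v⁻¹ y' = g`, i.e. `g⁻¹ (φ u y) g = (φ v⁻¹ y')⁻¹`;
only `p`-regular `y`, `y'` count (`GOK.reg`), so `p`-parts and `p'`-parts correspond: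
`g⁻¹ φ u g = φ v` and `g⁻¹ y g = y'⁻¹`. So it is
`|H|⁻¹ |H'|⁻¹ ∑_(g : φ u g = g φ v) ∑_(y ∈ H) Γ(y⁻¹) Γ'(g⁻¹ y g)`. The inner sum is
`|H| ip Γ (Γ' conjugated by g)`, two generalized characters of `H` in the blocks `c` and `cj g c'`
(`GOK.blk`); if `cj g c' ≠ c` it is `0` (`row_orth`, disjoint sets of characters). If `cj g c' = c`,
then `fus_elt` gives `s ∈ St D f` with `φ u s = s φ v`, `α ∈ EG` with `v = α u` (`φ (α t) = s⁻¹ φ t s`),
and `g ∈ H s`; by `EqG` and the invariance of `Γ` under `H` the inner sum is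
`|H| ip Γ Γ = |H| |T| e_Q`; there are `|H|` such `g`, all `g` with `φ u g = g φ v` are such.

`gram_ker`: average over `z ∈ R` of `gram_all` for `(z u, v)`: for all `χ`
`rwv (ch χ) (z u) = om_χ(z) rwv (ch χ) u` and `∑_z om_χ(z)` is `|R|` if `Ker φ R χ` and `0` otherwise;
`v = α (z u) = z α u` for at most one `z` (`α` is trivial on `R`, of order prime to `p`, and
`α u ∈ z⁻¹ u R`... : if `α u = z' u` and `z' ≠ 1` then the order of `α` is divisible by `p`).
-/

set_option linter.unusedSectionVars false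

namespace Pool.Agent.Lib.P0c8ca5.Ex

open MonoidAlgebra

namespace YFAux

section
variable {p : ℕ} [Fact p.Prime] {k : Type*} [Field k] [IsAlgClosed k] [CharP k p]
  {A : Type*} [Group A] [Finite A]

open YHAux

theorem VA_mul {b : MonoidAlgebra k A} {B : MonoidAlgebra (OW p k) A} (hB : CenL b B)
    {X : A → KW p k} (hX : X ∈ VA (p := p) b) (a : MonoidAlgebra (OW p k) A) :
    lin X (a * B) = lin X a := by
  rw [lin_V hX.1, lin_V hX.1]
  refine Finset.sum_congr rfl fun χ _ => ?_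
  by_cases h : chO χ B = 0
  · rw [hX.2 B hB χ h, zero_mul, zero_mul]
  · rw [hB.chO_in h]

theorem lin_single (X : A → KW p k) (x : A) : lin X (single x (1 : OW p k)) = X x := by
  classical
  have := Fintype.ofFinite A
  rw [lin, sm_eq, Finset.sum_eq_single x]
  · rw [coeff_single, Finsupp.single_eq_same, map_one, one_mul]
  · intro y _ hy
    rw [coeff_single, Finsupp.single_eq_of_ne hy, map_zero, zero_mul]
  · intro h
    exact absurd (Finset.mem_univ _) h

theorem lin_cj (X : A → KW p k) (g : A) (a : MonoidAlgebra (OW p k) A) :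
    lin (fun y => X (g⁻¹ * y * g)) a = lin X (cjr g⁻¹ a) := by
  rw [lin, lin, ← sm_conj g]
  refine sm_congr fun y => ?_
  rw [coeff_cjr, inv_inv]
  congr 2
  group

theorem ip_disj {X Y : A → KW p k} {b b' : MonoidAlgebra k A} {B B' : MonoidAlgebra (OW p k) A}
    (hB : CenL b B) (hB' : CenL b' B') (h0 : B' * B = 0) (hX : X ∈ V (KW p k) A)
    (hX' : ∀ x, lin X (single x 1 * B) = X x) (hY : Y ∈ VA (p := p) b') : ip X Y = 0 := by
  classical
  have h1 : X = fun x => ∑ χ : Ir (KW p k) A,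
      ((if chO χ B = 0 then 0 else ip X (ch χ)) • ch χ) x := by
    funext x
    rw [← hX' x, lin_V hX]
    refine Finset.sum_congr rfl fun χ _ => ?_
    split_ifs with h
    · rw [hB.chO_out (x := single x 1 * B) h (by rw [mul_assoc, hB.idem]), mul_zero, zero_smul,
        Pi.zero_apply]
    · rw [hB.chO_in h, chO_ch, Pi.smul_apply, smul_eq_mul]
  rw [h1, ip_sum]
  refine Finset.sum_eq_zero fun χ _ => ?_
  rw [ip_smul]
  split_ifs with h
  · rw [zero_mul]
  · rw [ip_comm (ch χ) Y, hY.2 B' hB' χ (hB.chO_zero h h0), mul_zero]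

/-- conjugation -/
def cjh {u v g : A} (hg : u * g = g * v) : ↥(C1 u) →* ↥(C1 v) where
  toFun x := ⟨g⁻¹ * x * g, by
    have h1 := mem_C1'.1 x.2
    have hv : v = g⁻¹ * u * g := by
      rw [mul_assoc, hg]
      group
    rw [mem_C1', hv]
    calc g⁻¹ * u * g * (g⁻¹ * (x : A) * g) = g⁻¹ * (u * x) * g := by group
      _ = g⁻¹ * (x * u) * g := by rw [h1]
      _ = _ := by group⟩
  map_one' := Subtype.ext (by
    change g⁻¹ * 1 * g = 1
    group)
  map_mul' x y := Subtype.ext (by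
    change g⁻¹ * ((x : A) * y) * g = g⁻¹ * x * g * (g⁻¹ * y * g)
    group)

theorem disj_sum {u v g : A} (hg : u * g = g * v) {c d : MonoidAlgebra k A}
    (hc : IsBlock (C1 u) c) (hd : IsBlock (C1 v) d) (hne : cj g d ≠ c) {X Y : A → KW p k}
    (hX : on (C1 v) X ∈ VA (p := p) (dnr (C1 v) d))
    (hY : on (C1 u) Y ∈ VA (p := p) (dnr (C1 u) c)) :
    ip (on (C1 u) fun y => X (g⁻¹ * y * g)) (on (C1 u) Y) = 0 := by
  classical
  have := Fintype.ofFinite A
  have hblk : IsBlock (C1 u) (cj g d) := isBlock_cj hg hd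
  have horth : cj g d * c = 0 := (hblk.eq_or_mul_eq_zero hc).resolve_left hne
  obtain ⟨C, hC⟩ := exists_cenL (p := p) (blk_idem hc)
    (fun x => (cjr_eq_iff x _).2 (blk_comm hc (single x 1)))
  obtain ⟨C', hC'⟩ := exists_cenL (p := p) (blk_idem hd)
    (fun x => (cjr_eq_iff x _).2 (blk_comm hd (single x 1)))
  obtain ⟨C'', hC''⟩ := exists_cenL (p := p) (blk_idem hblk)
    (fun x => (cjr_eq_iff x _).2 (blk_comm hblk (single x 1)))
  -- the transported lift
  have hid : dnr (C1 u) (cjr g (upr (C1 v) C')) * dnr (C1 u) (cjr g (upr (C1 v) C')) =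
      dnr (C1 u) (cjr g (upr (C1 v) C')) := cjr_idem hg hC'.idem
  have hred : mapRingHom ↥(C1 u) (rdO p k) (dnr (C1 u) (cjr g (upr (C1 v) C'))) =
      dnr (C1 u) (cj g d) := by
    rw [map_dnr, map_cjr, map_upr, hC'.red, upr_blk hd, cjr_eq_cj]
  have e1 : dnr (C1 u) (cjr g (upr (C1 v) C')) * C'' = dnr (C1 u) (cjr g (upr (C1 v) C')) :=
    hC''.mul_eq ⟨hid, hred⟩ (blk_idem hblk)
  have e2 : C'' * dnr (C1 u) (cjr g (upr (C1 v) C')) = C'' :=
    idem_le hC''.idem hid (hC''.cen _) (by rw [hC''.red, hred, blk_idem hblk])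
  have e3 : dnr (C1 u) (cjr g (upr (C1 v) C')) = C'' := by
    rw [← e1, ← hC''.cen, e2]
  have h0 : C'' * C = 0 := by
    refine hC.mul_zero' ⟨hC''.idem, hC''.red⟩ ?_
    have h1 : dnr (C1 u) (cj g d * upr (C1 u) (dnr (C1 u) c)) = dnr (C1 u) (cj g d) * dnr (C1 u) c :=
      dnr_mul_upr _ _ _
    rw [← h1, upr_blk hc, horth, dnr_zero]
  refine ip_disj hC'' hC (by rw [hC.cen, h0]) ?_ ?_ hY
  · exact V_comp (cjh hg) hX.1
  · intro x
    rw [← lin_upr, lin_cj, ← e3, map_mul, upr_dnr_cjr hg, upr_single, cjr_mul, cjr_cjr,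
      inv_mul_cancel, cjr_one_left]
    have h1 : cjr g⁻¹ (single (x : A) (1 : OW p k)) = upr (C1 v) (single (cjh hg x) 1) := by
      rw [upr_single, cjr, single_mul_single, single_mul_single, one_mul, one_mul, inv_inv]
      rfl
    rw [h1, ← map_mul, lin_upr, VA_mul hC' hX, lin_single]
    rfl

end

section
variable {p : ℕ} [Fact p.Prime] {k : Type*} [Field k] [IsAlgClosed k] [CharP k p]
  {A : Type*} [Group A] [Finite A]
  {T : Type*} [CommGroup T] [Fintype T]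
  {φ : T →* A} {b f i : MonoidAlgebra k A} {D : Subgroup A} {R : Subgroup T}
  {G : Subgroup T → A → KW p k}

theorem lt_sup {u : T} (hu : u ∉ R) : R < R ⊔ Subgroup.zpowers u := by
  refine lt_of_le_of_ne le_sup_left ?_
  intro h1
  apply hu
  rw [h1]
  exact Subgroup.mem_sup_right (Subgroup.mem_zpowers u)

/-- the local data at a place -/
theorem loc_data (h : Stp φ b D f i R G) {u : T} (hu : u ∉ R) {c : MonoidAlgebra k A}
    (hc : LbH (C1 (φ u)) i c) :
    (∀ x, x ∉ C1 (φ u) → G (R ⊔ Subgroup.zpowers u) x = 0) ∧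
    on (C1 (φ u)) (G (R ⊔ Subgroup.zpowers u)) ∈ VA (p := p) (dnr (C1 (φ u)) c) ∧
    ip (on (C1 (φ u)) (G (R ⊔ Subgroup.zpowers u)))
      (on (C1 (φ u)) (G (R ⊔ Subgroup.zpowers u))) =
      (Fintype.card T : KW p k) * (eQ φ D f (R ⊔ Subgroup.zpowers u) : KW p k) := by
  have hok := h.ok _ (lt_sup hu)
  have h1 := hok.sup
  have h2 := hok.blk c
  have h3 := hok.nrm
  rw [cq_eq h.cen] at h1 h2 h3
  exact ⟨h1, h2 hc, h3⟩

theorem phi_mem (h : Stp φ b D f i R G) (u : T) : φ u ∈ D := (h.ran _).2 ⟨u, rfl⟩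

/-- the inner sum for fused places -/
theorem S_fus (h : Stp φ b D f i R G) {u v : T} (hu : u ∉ R) (hv : v ∉ R) {s g : A}
    (hs : s ∈ St D f) (hs' : φ u * s = s * φ v) (hg : φ u * g = g * φ v) :
    sm (fun y => G (R ⊔ Subgroup.zpowers u) y⁻¹ *
        G (R ⊔ Subgroup.zpowers v) (g⁻¹ * y * g)) =
      (Nat.card ↥(C1 (φ u)) : KW p k) *
        ((Fintype.card T : KW p k) * (eQ φ D f (R ⊔ Subgroup.zpowers u) : KW p k)) := by
  classical
  obtain ⟨c, hc⟩ := exists_lbH h.src (phi_mem h u)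
  obtain ⟨h1, h2, h3⟩ := loc_data h hu hc
  obtain ⟨ψ, hψ, hψ'⟩ := exists_EG (f := f) h.inj h.ran hs
  have hψv : ψ v = u := by
    apply h.inj
    rw [hψ', ← hs', mul_inv_cancel_right]
  have hψR : ∀ z ∈ R, ψ z = z := by
    intro z hz
    apply h.inj
    rw [hψ', ← h.cen z hz, mul_inv_cancel_right]
  have hmap : (R ⊔ Subgroup.zpowers v).map ψ.toMonoidHom = R ⊔ Subgroup.zpowers u := by
    rw [Subgroup.map_sup, MonoidHom.map_zpowers]
    congr 1
    · ext z
      rw [Subgroup.mem_map]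
      constructor
      · rintro ⟨w, hw, rfl⟩
        change ψ w ∈ R
        rw [hψR w hw]
        exact hw
      · intro hz
        exact ⟨z, hz, hψR z hz⟩
    · congr 1
  have heq : ∀ y, G (R ⊔ Subgroup.zpowers v) y = G (R ⊔ Subgroup.zpowers u) (s * y * s⁻¹) := by
    intro y
    have h4 := h.eqv s hs ψ hψ' (R ⊔ Subgroup.zpowers v) (lt_sup hv) y
    rw [hmap] at h4
    exact h4.symm
  have hw : g * s⁻¹ ∈ C1 (φ u) := by
    rw [mem_C1']
    calc φ u * (g * s⁻¹) = g * (φ v * s⁻¹) := by rw [← mul_assoc, hg, mul_assoc]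
      _ = g * (s⁻¹ * (s * φ v) * s⁻¹) := by group
      _ = g * (s⁻¹ * (φ u * s) * s⁻¹) := by rw [hs']
      _ = _ := by group
  have hcls : ∀ y, G (R ⊔ Subgroup.zpowers u) ((g * s⁻¹)⁻¹ * y * (g * s⁻¹)) =
      G (R ⊔ Subgroup.zpowers u) y := by
    intro y
    by_cases hy : y ∈ C1 (φ u)
    · have h4 := V_conj h2.1 (⟨g * s⁻¹, hw⟩⁻¹ : ↥(C1 (φ u))) ⟨y, hy⟩
      rw [inv_inv] at h4
      exact h4
    · rw [h1 y hy, h1]
      intro h5
      apply hy
      have h6 := Subgroup.mul_mem _ (Subgroup.mul_mem _ hw h5) (Subgroup.inv_mem _ hw)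
      have e : (g * s⁻¹) * ((g * s⁻¹)⁻¹ * y * (g * s⁻¹)) * (g * s⁻¹)⁻¹ = y := by group
      rwa [e] at h6
  have h4 : ∀ y, G (R ⊔ Subgroup.zpowers u) y⁻¹ *
      G (R ⊔ Subgroup.zpowers v) (g⁻¹ * y * g) =
      G (R ⊔ Subgroup.zpowers u) y * G (R ⊔ Subgroup.zpowers u) y⁻¹ := by
    intro y
    rw [heq, mul_comm]
    congr 1
    rw [← hcls y]
    congr 1
    group
  rw [sm_congr h4, sm_sub (C1 (φ u)), ← h3, ip, mul_inv_cancel_left₀ cardK_ne]
  · rfl
  · intro x hx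
    rw [h1 x hx, zero_mul]

/-- the inner sum for places which are not fused -/
theorem S_zero (h : Stp φ b D f i R G) {u v : T} (hu : u ∉ R) (hv : v ∉ R) {g : A}
    (hg : φ u * g = g * φ v) (hno : ¬ ∃ s ∈ St D f, φ u * s = s * φ v) :
    sm (fun y => G (R ⊔ Subgroup.zpowers u) y⁻¹ *
        G (R ⊔ Subgroup.zpowers v) (g⁻¹ * y * g)) = 0 := by
  classical
  obtain ⟨c, hc⟩ := exists_lbH h.src (phi_mem h u)
  obtain ⟨d, hd⟩ := exists_lbH h.src (phi_mem h v)
  obtain ⟨h1, h2, -⟩ := loc_data h hu hc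
  obtain ⟨h1', h2', -⟩ := loc_data h hv hd
  have hne : cj g d ≠ c := fun h3 => hno (fus_elt h.src (phi_mem h u) (phi_mem h v) hg hc hd h3)
  have h3 := disj_sum hg hc.blk hd.blk hne h2' h2
  rw [ip, mul_eq_zero] at h3
  have h4 := h3.resolve_left (inv_ne_zero cardK_ne)
  rw [sm_sub (C1 (φ u))]
  · rw [← h4]
    refine sm_congr fun y => ?_
    rw [mul_comm]
    rfl
  · intro x hx
    rw [h1 _ (fun h5 => hx ((Subgroup.inv_mem_iff _).1 h5)), zero_mul]

/-- the column sums in terms of the inner sums -/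
theorem gram_sum (h : Stp φ b D f i R G) {u v : T} (hu : u ∉ R) (hv : v ∉ R)
    [DecidableEq A] :
    ∑ χ : Ir (KW p k) A, rwv φ G R (ch χ) u * rwv φ G R (ch χ) v⁻¹ =
      (Nat.card ↥(C1 (φ u)) : KW p k)⁻¹ * (Nat.card ↥(C1 (φ v)) : KW p k)⁻¹ *
        sm (fun g => if φ u * g = g * φ v then
          sm (fun y => G (R ⊔ Subgroup.zpowers u) y⁻¹ *
            G (R ⊔ Subgroup.zpowers v) (g⁻¹ * y * g)) else 0) := by
  have := Fintype.ofFinite A
  obtain ⟨c, hc⟩ := exists_lbH h.src (phi_mem h u)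
  obtain ⟨d, hd⟩ := exists_lbH h.src (phi_mem h v)
  obtain ⟨h1, h2, -⟩ := loc_data h hu hc
  obtain ⟨h1', h2', -⟩ := loc_data h hv hd
  have hreg := (h.ok _ (lt_sup hu)).reg
  have hreg' := (h.ok _ (lt_sup hv)).reg
  obtain ⟨M, hM⟩ := pow_one_of h.src
  have hQ : R ⊔ Subgroup.zpowers v⁻¹ = R ⊔ Subgroup.zpowers v := by rw [Subgroup.zpowers_inv]
  have hr1 : ∀ χ : Ir (KW p k) A, rwv φ G R (ch χ) u = (Nat.card ↥(C1 (φ u)) : KW p k)⁻¹ *
      sm (fun y => ch χ (φ u * y) * G (R ⊔ Subgroup.zpowers u) y⁻¹) := by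
    intro χ
    rw [rwv, cq_eq h.cen]
  have hr2 : ∀ χ : Ir (KW p k) A, rwv φ G R (ch χ) v⁻¹ = (Nat.card ↥(C1 (φ v)) : KW p k)⁻¹ *
      sm (fun y => ch χ (φ v⁻¹ * y) * G (R ⊔ Subgroup.zpowers v) y⁻¹) := by
    intro χ
    rw [rwv, hQ, cq_eq h.cen]
  set Γ := G (R ⊔ Subgroup.zpowers u) with hΓ
  set Γ' := G (R ⊔ Subgroup.zpowers v) with hΓ'
  have h3 : ∀ χ : Ir (KW p k) A, rwv φ G R (ch χ) u * rwv φ G R (ch χ) v⁻¹ =
      (Nat.card ↥(C1 (φ u)) : KW p k)⁻¹ * (Nat.card ↥(C1 (φ v)) : KW p k)⁻¹ *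
        ∑ y : A, ∑ y' : A, (ch χ (φ u * y) * ch χ (φ v⁻¹ * y')) * (Γ y⁻¹ * Γ' y'⁻¹) := by
    intro χ
    rw [hr1, hr2, sm_eq, sm_eq]
    have e : (∑ y : A, ch χ (φ u * y) * Γ y⁻¹) * (∑ y' : A, ch χ (φ v⁻¹ * y') * Γ' y'⁻¹) =
        ∑ y : A, ∑ y' : A, (ch χ (φ u * y) * ch χ (φ v⁻¹ * y')) * (Γ y⁻¹ * Γ' y'⁻¹) := by
      rw [Finset.sum_mul_sum]
      refine Finset.sum_congr rfl fun y _ => Finset.sum_congr rfl fun y' _ => ?_
      ring
    rw [← e]
    ring
  rw [Finset.sum_congr rfl fun χ _ => h3 χ, ← Finset.mul_sum]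
  congr 1
  rw [Finset.sum_comm, sm_eq]
  have h4 : ∀ y : A, ∑ χ : Ir (KW p k) A, ∑ y' : A,
      (ch χ (φ u * y) * ch χ (φ v⁻¹ * y')) * (Γ y⁻¹ * Γ' y'⁻¹) =
      ∑ g : A, Γ y⁻¹ * Γ' (g⁻¹ * (φ u * y) * g * φ v⁻¹) := by
    intro y
    rw [Finset.sum_comm]
    have h5 : ∀ y' : A, ∑ χ : Ir (KW p k) A,
        (ch χ (φ u * y) * ch χ (φ v⁻¹ * y')) * (Γ y⁻¹ * Γ' y'⁻¹) =
        ∑ g : A, if y' = (g⁻¹ * (φ u * y) * g * φ v⁻¹)⁻¹ then Γ y⁻¹ * Γ' y'⁻¹ else 0 := by
      intro y'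
      rw [← Finset.sum_mul, col, ← Finset.sum_filter, Finset.sum_const, nsmul_eq_mul,
        Nat.card_eq_fintype_card, Fintype.card_subtype]
      congr 3
      ext g
      simp only [Finset.mem_filter, Finset.mem_univ, true_and]
      constructor
      · intro h6
        refine eq_inv_of_mul_eq_one_right ?_
        calc g⁻¹ * (φ u * y) * g * φ v⁻¹ * y'
            = g⁻¹ * (φ u * y * g * (φ v⁻¹ * y')) := by simp only [mul_assoc]
          _ = g⁻¹ * g := by rw [h6]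
          _ = 1 := inv_mul_cancel g
      · intro h6
        rw [h6]
        group
    rw [Finset.sum_congr rfl fun y' _ => h5 y', Finset.sum_comm]
    refine Finset.sum_congr rfl fun g _ => ?_
    rw [Finset.sum_ite_eq', if_pos (Finset.mem_univ _), inv_inv]
  rw [Finset.sum_congr rfl fun y _ => h4 y, Finset.sum_comm]
  refine Finset.sum_congr rfl fun g _ => ?_
  have h5 : ∀ y : A, Γ y⁻¹ * Γ' (g⁻¹ * (φ u * y) * g * φ v⁻¹) =
      if φ u * g = g * φ v then Γ y⁻¹ * Γ' (g⁻¹ * y * g) else 0 := by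
    intro y
    by_cases hy0 : Γ y⁻¹ = 0
    · rw [hy0, zero_mul, zero_mul, ite_self]
    have hyC : y ∈ C1 (φ u) := by
      by_contra h6
      exact hy0 (h1 _ (fun h7 => h6 ((Subgroup.inv_mem_iff _).1 h7)))
    have hyP : Preg p y := by
      by_contra h6
      exact hy0 (hreg _ (fun h7 => h6 (preg_inv.1 h7)))
    have hyc := mem_C1'.1 hyC
    by_cases hg : φ u * g = g * φ v
    · rw [if_pos hg]
      congr 2
      rw [hyc, map_inv]
      calc g⁻¹ * (y * φ u) * g * (φ v)⁻¹ = g⁻¹ * y * (φ u * g) * (φ v)⁻¹ := by group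
        _ = g⁻¹ * y * (g * φ v) * (φ v)⁻¹ := by rw [hg]
        _ = _ := by group
    · rw [if_neg hg, mul_eq_zero]
      right
      by_contra h6
      set w := g⁻¹ * (φ u * y) * g * φ v⁻¹ with hw
      have hwC : w ∈ C1 (φ v) := by
        by_contra h7
        exact h6 (h1' _ h7)
      have hwP : Preg p w := by
        by_contra h7
        exact h6 (hreg' _ h7)
      have hwc := mem_C1'.1 hwC
      have e1 : g⁻¹ * (φ u * y) * g = w * φ v := by
        rw [hw, map_inv]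
        group
      have e2 := congrArg (pr p) e1
      have e3 : pr p (g⁻¹ * (φ u * y) * g) = g⁻¹ * y * g := by
        have e4 := pr_conj (p := p) g⁻¹ (φ u * y)
        rw [inv_inv] at e4
        rw [e4, pr_mul hyc, pr_of_pow (hM _ (phi_mem h u)), pr_eq_self hyP, one_mul]
      have e5 : pr p (w * φ v) = w := by
        rw [pr_mul hwc.symm, pr_of_pow (hM _ (phi_mem h v)), pr_eq_self hwP, mul_one]
      rw [e3, e5] at e2
      apply hg
      rw [← e2, hyc] at e1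
      have e6 : y⁻¹ * g * (g⁻¹ * (y * φ u) * g) = y⁻¹ * g * (g⁻¹ * y * g * φ v) := by rw [e1]
      have e7 : y⁻¹ * g * (g⁻¹ * (y * φ u) * g) = φ u * g := by group
      have e8 : y⁻¹ * g * (g⁻¹ * y * g * φ v) = g * φ v := by group
      rwa [e7, e8] at e6
  rw [Finset.sum_congr rfl fun y _ => h5 y]
  split_ifs with hg
  · rw [sm_eq]
  · rw [Finset.sum_const_zero]

end

section
variable {p : ℕ} [Fact p.Prime] {k : Type*} [Field k] [IsAlgClosed k] [CharP k p]
  {A : Type*} [Group A] [Finite A]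
  {T : Type*} [CommGroup T] [Fintype T]
  {φ : T →* A} {b f i : MonoidAlgebra k A} {D : Subgroup A} {R : Subgroup T}
  {G : Subgroup T → A → KW p k}

theorem sup_mul {z u : T} (hz : z ∈ R) :
    R ⊔ Subgroup.zpowers (z * u) = R ⊔ Subgroup.zpowers u := by
  apply le_antisymm
  · refine sup_le le_sup_left ?_
    rw [Subgroup.zpowers_le]
    exact Subgroup.mul_mem _ (Subgroup.mem_sup_left hz)
      (Subgroup.mem_sup_right (Subgroup.mem_zpowers u))
  · refine sup_le le_sup_left ?_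
    rw [Subgroup.zpowers_le]
    have h1 : z⁻¹ * (z * u) ∈ R ⊔ Subgroup.zpowers (z * u) :=
      Subgroup.mul_mem _ (Subgroup.mem_sup_left (Subgroup.inv_mem _ hz))
        (Subgroup.mem_sup_right (Subgroup.mem_zpowers _))
    rwa [inv_mul_cancel_left] at h1

theorem single_cen' {z : A} (hz : ∀ a : A, z * a = a * z) (a : MonoidAlgebra (KW p k) A) :
    single z 1 * a = a * single z (1 : KW p k) := by
  induction a using MonoidAlgebra.induction_linear with
  | zero => rw [mul_zero, zero_mul]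
  | add f g hf hg => rw [mul_add, add_mul, hf, hg]
  | single g c => rw [single_mul_single, single_mul_single, one_mul, mul_one, hz]

theorem ch_cen {z : A} (hz : ∀ a : A, z * a = a * z) (χ : Ir (KW p k) A) (x : A) :
    ch χ (z * x) = om χ (single z (1 : KW p k)) * ch χ x := by
  have h1 : (single (z * x) 1 : MonoidAlgebra (KW p k) A) = single z 1 * single x 1 := by
    rw [single_mul_single, one_mul]
  rw [ch, ch, h1, chi_cen_mul χ (single_cen' hz)]

theorem rwv_cen (h : Stp φ b D f i R G) {z : T} (hz : z ∈ R) (χ : Ir (KW p k) A) (u : T) :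
    rwv φ G R (ch χ) (z * u) = om χ (single (φ z) (1 : KW p k)) * rwv φ G R (ch χ) u := by
  rw [rwv, rwv, sup_mul hz]
  have h1 : ∀ y : A, ch χ (φ (z * u) * y) * G (R ⊔ Subgroup.zpowers u) y⁻¹ =
      om χ (single (φ z) (1 : KW p k)) *
        (ch χ (φ u * y) * G (R ⊔ Subgroup.zpowers u) y⁻¹) := by
    intro y
    rw [map_mul, mul_assoc, ch_cen (h.cen z hz)]
    ring
  rw [sm_congr h1, sm_mul]
  ring

/-- the central character on `R` -/
noncomputable def omR (h : Stp φ b D f i R G) (χ : Ir (KW p k) A) : ↥R →* KW p k where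
  toFun z := om χ (single (φ z) (1 : KW p k))
  map_one' := by
    rw [OneMemClass.coe_one, map_one, ← one_def, om_one]
  map_mul' z w := by
    rw [Subgroup.coe_mul, map_mul, ← om_mul χ (single_cen' (h.cen z z.2)), single_mul_single,
      one_mul]

theorem omR_eq_one (h : Stp φ b D f i R G) (χ : Ir (KW p k) A) :
    omR h χ = 1 ↔ Ker φ R χ := by
  constructor
  · intro h1 z hz x
    rw [ch_cen (h.cen z hz)]
    have h2 : om χ (single (φ z) (1 : KW p k)) = 1 := DFunLike.congr_fun h1 ⟨z, hz⟩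
    rw [h2, one_mul]
  · intro h1
    ext z
    have h2 := h1 z z.2 1
    rw [ch_cen (h.cen z z.2), ch_one] at h2
    exact mul_right_cancel₀ (dg_ne' χ) (h2.trans (one_mul _).symm)

theorem sum_omR (h : Stp φ b D f i R G) (χ : Ir (KW p k) A) [Fintype ↥R]
    [Decidable (Ker φ R χ)] :
    ∑ z : ↥R, om χ (single (φ z) (1 : KW p k)) =
      if Ker φ R χ then (Nat.card R : KW p k) else 0 := by
  classical
  have h1 := sum_hom_units (omR h χ)
  have h2 : ∑ z : ↥R, om χ (single (φ z) (1 : KW p k)) = ∑ z : ↥R, omR h χ z := rfl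
  rw [h2, h1]
  by_cases h3 : Ker φ R χ
  · rw [if_pos h3, if_pos ((omR_eq_one h χ).2 h3), Nat.card_eq_fintype_card]
  · rw [if_neg h3, if_neg (fun h4 => h3 ((omR_eq_one h χ).1 h4)), Nat.cast_zero]

theorem al_fix (h : Stp φ b D f i R G) {α : MulAut T} (hα : α ∈ EG φ D f) {z : T}
    (hz : z ∈ R) : α z = z := by
  obtain ⟨g, _, hg⟩ := hα
  apply h.inj
  rw [hg, ← h.cen z hz, mul_inv_cancel_right]

/-- the uniqueness of the translate -/
theorem trans_unique (h : Stp φ b D f i R G) (hE : ¬ p ∣ Nat.card (EG φ D f)) {u : T}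
    {α α' : MulAut T} (hα : α ∈ EG φ D f) (hα' : α' ∈ EG φ D f) {z z' : T} (hz : z ∈ R)
    (hz' : z' ∈ R) (he : α (z * u) = α' (z' * u)) : z = z' := by
  have h1 : ∀ n : ℕ, ((α'⁻¹ * α) ^ n) u = (z⁻¹ * z') ^ n * u := by
    have h2 : (α'⁻¹ * α) u = (z⁻¹ * z') * u := by
      have h3 : α (z * u) = z * α u := by rw [map_mul, al_fix h hα hz]
      have h4 : α' (z' * u) = z' * α' u := by rw [map_mul, al_fix h hα' hz']
      rw [h3, h4] at he
      have h5 : α u = (z⁻¹ * z') * α' u := by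
        rw [mul_assoc, ← he, inv_mul_cancel_left]
      rw [MulAut.mul_apply, h5, map_mul,
        al_fix h (Subgroup.inv_mem _ hα') (Subgroup.mul_mem _ (Subgroup.inv_mem _ hz) hz')]
      congr 1
      exact MulAut.inv_apply_self _ _ _
    intro n
    induction n with
    | zero => simp
    | succ n ih =>
      rw [pow_succ', MulAut.mul_apply, ih, map_mul,
        al_fix h (Subgroup.mul_mem _ (Subgroup.inv_mem _ hα') hα) (Subgroup.pow_mem _
          (Subgroup.mul_mem _ (Subgroup.inv_mem _ hz) hz') n), h2, ← mul_assoc, ← pow_succ]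
  have hfin : Finite ↥(EG φ D f) := finite_EG
  have h2 := h1 (Nat.card (EG φ D f))
  have h3 : (α'⁻¹ * α) ^ Nat.card (EG φ D f) = 1 := by
    have h4 := pow_card_eq_one' (x := (⟨α'⁻¹ * α, Subgroup.mul_mem _
      (Subgroup.inv_mem _ hα') hα⟩ : ↥(EG φ D f)))
    exact congrArg Subtype.val h4
  rw [h3, MulAut.one_apply] at h2
  have h4 : (z⁻¹ * z') ^ Nat.card (EG φ D f) = 1 := mul_eq_right.1 h2.symm
  obtain ⟨M, hM⟩ := pow_one_of h.src
  have h5 : (z⁻¹ * z') ^ p ^ M = 1 := by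
    apply h.inj
    rw [map_pow, map_one]
    exact hM _ (phi_mem h _)
  have h6 : (z⁻¹ * z') ^ Nat.gcd (Nat.card (EG φ D f)) (p ^ M) = 1 := by
    rw [pow_gcd_eq_one]
    exact ⟨h4, h5⟩
  have h7 : Nat.Coprime (Nat.card (EG φ D f)) (p ^ M) :=
    Nat.Coprime.pow_right _ (((Fact.out : p.Prime).coprime_iff_not_dvd).2 hE).symm
  rw [h7, pow_one] at h6
  exact inv_mul_eq_one.1 h6

end

end YFAux

open YFAux

section
variable {p : ℕ} [Fact p.Prime] {k : Type*} [Field k] [IsAlgClosed k] [CharP k p]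
  {A : Type*} [Group A] [Finite A]
  {T : Type*} [CommGroup T] [Fintype T]
  {φ : T →* A} {b f i : MonoidAlgebra k A} {D : Subgroup A} {R : Subgroup T}
  {G : Subgroup T → A → KW p k}

theorem gram_all (h : Stp φ b D f i R G) {u v : T} (hu : u ∉ R) (hv : v ∉ R) :
    ((∃ α ∈ EG φ D f, v = α u) → ∑ χ : Ir (KW p k) A, rwv φ G R (ch χ) u * rwv φ G R (ch χ) v⁻¹
      = (Fintype.card T : KW p k) * (eQ φ D f (R ⊔ Subgroup.zpowers u) : KW p k)) ∧
    ((¬ ∃ α ∈ EG φ D f, v = α u) →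
      ∑ χ : Ir (KW p k) A, rwv φ G R (ch χ) u * rwv φ G R (ch χ) v⁻¹ = 0) := by
  classical
  constructor
  · intro hα
    obtain ⟨s, hs, hs'⟩ := (conj_iff h.inj h.ran).1 hα
    rw [gram_sum h hu hv]
    have h1 : ∀ g : A, (if φ u * g = g * φ v then
        sm (fun y => G (R ⊔ Subgroup.zpowers u) y⁻¹ *
          G (R ⊔ Subgroup.zpowers v) (g⁻¹ * y * g)) else 0) =
        if φ u * g = g * φ v then (Nat.card ↥(C1 (φ u)) : KW p k) *
          ((Fintype.card T : KW p k) * (eQ φ D f (R ⊔ Subgroup.zpowers u) : KW p k)) else 0 := by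
      intro g
      by_cases hg : φ u * g = g * φ v
      · rw [if_pos hg, if_pos hg, S_fus h hu hv hs hs' hg]
      · rw [if_neg hg, if_neg hg]
    rw [sm_congr h1]
    set c := (Nat.card ↥(C1 (φ u)) : KW p k) *
      ((Fintype.card T : KW p k) * (eQ φ D f (R ⊔ Subgroup.zpowers u) : KW p k)) with hc
    have h2 : sm (fun g : A => if φ u * g = g * φ v then c else 0) =
        (Nat.card ↥(C1 (φ u)) : KW p k) * c := by
      rw [← sm_equiv (Equiv.mulRight s) (fun g : A => if φ u * g = g * φ v then c else 0)]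
      rw [sm_sub (C1 (φ u))]
      · rw [← sm_const c]
        refine sm_congr fun x => ?_
        rw [if_pos]
        change φ u * ((x : A) * s) = (x : A) * s * φ v
        rw [← mul_assoc, mem_C1'.1 x.2, mul_assoc, hs', mul_assoc]
      · intro x hx
        rw [if_neg]
        intro h3
        apply hx
        rw [mem_C1']
        change φ u * (x * s) = x * s * φ v at h3
        rw [mul_assoc x, ← hs', ← mul_assoc, ← mul_assoc] at h3
        exact mul_right_cancel h3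
    have h3 : (Nat.card ↥(C1 (φ v)) : KW p k) = (Nat.card ↥(C1 (φ u)) : KW p k) := by
      have h4 : C1 (φ u) = cg s (C1 (φ v)) := by
        rw [← CD_zpowers, ← CD_zpowers, FuAux.cg_CD, cg_zp hs']
      rw [h4, card_cg]
    rw [h2, h3, hc]
    have h4 : (Nat.card ↥(C1 (φ u)) : KW p k) ≠ 0 := cardK_ne
    field_simp
  · intro hα
    rw [gram_sum h hu hv]
    have h1 : ∀ g : A, (if φ u * g = g * φ v then
        sm (fun y => G (R ⊔ Subgroup.zpowers u) y⁻¹ *
          G (R ⊔ Subgroup.zpowers v) (g⁻¹ * y * g)) else 0) = 0 := by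
      intro g
      by_cases hg : φ u * g = g * φ v
      · rw [if_pos hg, S_zero h hu hv hg (fun h2 => hα ((conj_iff h.inj h.ran).2 h2))]
      · rw [if_neg hg]
    rw [sm_congr h1, sm_zero, mul_zero]

open Classical in
theorem gram_ker (h : Stp φ b D f i R G) (hE : ¬ p ∣ Nat.card (EG φ D f)) {u v : T} (hu : u ∉ R)
    (hv : v ∉ R) :
    (Nat.card R : KW p k) * ∑ χ : Ir (KW p k) A with Ker φ R χ,
        rwv φ G R (ch χ) u * rwv φ G R (ch χ) v⁻¹
      = if ∃ α ∈ EG φ D f, ∃ z ∈ R, v = z * α u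
        then (Fintype.card T : KW p k) * (eQ φ D f (R ⊔ Subgroup.zpowers u) : KW p k) else 0 := by
  have hfR : Fintype ↥R := Fintype.ofFinite _
  set c := (Fintype.card T : KW p k) * (eQ φ D f (R ⊔ Subgroup.zpowers u) : KW p k) with hc
  have h1 : ∑ z : ↥R, ∑ χ : Ir (KW p k) A,
      rwv φ G R (ch χ) ((z : T) * u) * rwv φ G R (ch χ) v⁻¹ =
      (Nat.card R : KW p k) * ∑ χ : Ir (KW p k) A with Ker φ R χ,
        rwv φ G R (ch χ) u * rwv φ G R (ch χ) v⁻¹ := by
    rw [Finset.sum_comm, Finset.sum_filter, Finset.mul_sum]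
    refine Finset.sum_congr rfl fun χ _ => ?_
    have h2 : ∀ z : ↥R, rwv φ G R (ch χ) ((z : T) * u) * rwv φ G R (ch χ) v⁻¹ =
        om χ (single (φ z) (1 : KW p k)) *
          (rwv φ G R (ch χ) u * rwv φ G R (ch χ) v⁻¹) := by
      intro z
      rw [rwv_cen h z.2]
      ring
    rw [Finset.sum_congr rfl fun z _ => h2 z, ← Finset.sum_mul, sum_omR h χ]
    by_cases h3 : Ker φ R χ
    · rw [if_pos h3, if_pos h3]
    · rw [if_neg h3, if_neg h3, zero_mul, mul_zero]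
  rw [← h1]
  have h2 : ∀ z : ↥R, ∑ χ : Ir (KW p k) A,
      rwv φ G R (ch χ) ((z : T) * u) * rwv φ G R (ch χ) v⁻¹ =
      if ∃ α ∈ EG φ D f, v = α ((z : T) * u) then c else 0 := by
    intro z
    have hzu : (z : T) * u ∉ R := fun h3 => hu ((Subgroup.mul_mem_cancel_left _ z.2).1 h3)
    obtain ⟨h3, h4⟩ := gram_all h hzu hv
    by_cases h5 : ∃ α ∈ EG φ D f, v = α ((z : T) * u)
    · rw [if_pos h5, h3 h5, sup_mul z.2]
    · rw [if_neg h5, h4 h5]
  rw [Finset.sum_congr rfl fun z _ => h2 z]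
  by_cases h3 : ∃ α ∈ EG φ D f, ∃ z ∈ R, v = z * α u
  · rw [if_pos h3]
    obtain ⟨α, hα, z, hz, hv'⟩ := h3
    have hv2 : v = α ((⟨z, hz⟩ : ↥R) * u) := by
      rw [hv', map_mul]
      congr 1
      exact (al_fix h hα hz).symm
    rw [Finset.sum_eq_single (⟨z, hz⟩ : ↥R), if_pos ⟨α, hα, hv2⟩]
    · intro z' _ hne
      rw [if_neg]
      rintro ⟨α', hα', h4⟩
      apply hne
      apply Subtype.ext
      exact trans_unique h hE hα' hα z'.2 hz (h4.symm.trans hv2)
    · intro h4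
      exact absurd (Finset.mem_univ _) h4
  · rw [if_neg h3]
    refine Finset.sum_eq_zero fun z _ => ?_
    rw [if_neg]
    rintro ⟨α, hα, h4⟩
    apply h3
    refine ⟨α, hα, z, z.2, ?_⟩
    rw [h4, map_mul, al_fix h hα z.2]

end

end Pool.Agent.Lib.P0c8ca5.Ex
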