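import Mathlib
import Pool.Agent.Lib.P0c8ca5Ex.R1

/-!
# XD: an integral form on the generators of a cyclic group

`Q` is a finite abelian group, `P` a subgroup of index `p`, `N` an integral symmetric positive
semidefinite form on `ℤ^S`, `x s` (`s ∈ S`) virtual characters of `Q`. The sum over `v ∉ P` of
the values of the hermitian form `N` at `x(v)` is an integer, `0` or at least `|Q| - |P|`; if it
is `0` then `N x(v) = 0` for all `v ∉ P` (`gen_sum`).
-/

set_option linter.unusedSectionVars false

namespace Pool.Agent.Lib.P0c8ca5.Ex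

open Finset

section form
variable {S : Type*} [Fintype S]

/-- a bilinear form -/
def bf (N : S → S → ℤ) (x y : S → ℤ) : ℤ := ∑ s, ∑ t, N s t * (x s * y t)

/-- symmetric and positive semidefinite -/
structure PSD (N : S → S → ℤ) : Prop where
  symm : ∀ s t, N s t = N t s
  nonneg : ∀ x, 0 ≤ bf N x x

theorem bf_symm {N : S → S → ℤ} (h : PSD N) (x y : S → ℤ) : bf N x y = bf N y x := by
  unfold bf
  rw [sum_comm]
  refine sum_congr rfl fun s _ => sum_congr rfl fun t _ => ?_
  rw [h.symm t s, mul_comm (x t)]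

theorem bf_add_left (N : S → S → ℤ) (x y z : S → ℤ) : bf N (x + y) z = bf N x z + bf N y z := by
  unfold bf
  rw [← sum_add_distrib]
  refine sum_congr rfl fun s _ => ?_
  rw [← sum_add_distrib]
  refine sum_congr rfl fun t _ => ?_
  rw [Pi.add_apply]
  ring

theorem bf_add_right (N : S → S → ℤ) (x y z : S → ℤ) : bf N z (x + y) = bf N z x + bf N z y := by
  unfold bf
  rw [← sum_add_distrib]
  refine sum_congr rfl fun s _ => ?_
  rw [← sum_add_distrib]
  refine sum_congr rfl fun t _ => ?_
  rw [Pi.add_apply]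
  ring

theorem bf_smul_left (N : S → S → ℤ) (a : ℤ) (x y : S → ℤ) : bf N (a • x) y = a * bf N x y := by
  unfold bf
  rw [mul_sum]
  refine sum_congr rfl fun s _ => ?_
  rw [mul_sum]
  refine sum_congr rfl fun t _ => ?_
  rw [Pi.smul_apply, smul_eq_mul]
  ring

theorem bf_smul_right (N : S → S → ℤ) (a : ℤ) (x y : S → ℤ) : bf N x (a • y) = a * bf N x y := by
  unfold bf
  rw [mul_sum]
  refine sum_congr rfl fun s _ => ?_
  rw [mul_sum]
  refine sum_congr rfl fun t _ => ?_
  rw [Pi.smul_apply, smul_eq_mul]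
  ring

theorem bf_sub_sub {N : S → S → ℤ} (h : PSD N) (x y : S → ℤ) :
    bf N (x - y) (x - y) = bf N x x + bf N y y - 2 * bf N x y := by
  have h1 : x - y = x + (-1 : ℤ) • y := by
    funext s
    simp only [Pi.sub_apply, Pi.add_apply, Pi.smul_apply, smul_eq_mul]
    ring
  rw [h1, bf_add_left, bf_add_right, bf_add_right, bf_smul_left, bf_smul_right, bf_smul_right,
    bf_smul_left, bf_symm h y x]
  ring

theorem PSD.orth {N : S → S → ℤ} (h : PSD N) {x : S → ℤ} (h0 : bf N x x = 0) (y : S → ℤ) :
    bf N y x = 0 := by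
  by_contra hne
  set b := bf N y x with hb
  have h1 := h.nonneg (y + (-(bf N y y + 1) * b) • x)
  rw [bf_add_left, bf_add_right, bf_add_right, bf_smul_left, bf_smul_left, bf_smul_right,
    bf_smul_right, h0, bf_symm h x y, ← hb] at h1
  have h2 : 0 ≤ bf N y y := h.nonneg y
  have h3 : 1 ≤ b ^ 2 := by
    have : 0 < b ^ 2 := by positivity
    omega
  nlinarith

theorem PSD.ker [DecidableEq S] {N : S → S → ℤ} (h : PSD N) {x : S → ℤ} (h0 : bf N x x = 0)
    (s : S) : ∑ t, N s t * x t = 0 := by
  have h1 := h.orth h0 (Pi.single s 1)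
  unfold bf at h1
  rw [sum_eq_single s] at h1
  · simpa using h1
  · intro r _ hr
    simp [Pi.single_eq_of_ne hr]
  · intro hs
    exact absurd (mem_univ s) hs

end form

section
variable {Q : Type*} [CommGroup Q] [Fintype Q] {K : Type*} [Field K] [CharZero K]
  [HasEnoughRootsOfUnity K (Monoid.exponent Q)]

/-- two characters agree on `P` -/
def eqP (P : Subgroup Q) (a b : Q →* Kˣ) : Prop := ∀ v ∈ P, a v = b v

omit [Fintype Q] [CharZero K] [HasEnoughRootsOfUnity K (Monoid.exponent Q)] in
theorem eqP_refl (P : Subgroup Q) (a : Q →* Kˣ) : eqP P a a := fun _ _ => rfl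

omit [Fintype Q] [CharZero K] [HasEnoughRootsOfUnity K (Monoid.exponent Q)] in
theorem eqP_symm {P : Subgroup Q} {a b : Q →* Kˣ} (h : eqP P a b) : eqP P b a :=
  fun v hv => (h v hv).symm

omit [Fintype Q] [CharZero K] [HasEnoughRootsOfUnity K (Monoid.exponent Q)] in
theorem eqP_trans {P : Subgroup Q} {a b c : Q →* Kˣ} (h : eqP P a b) (h' : eqP P b c) :
    eqP P a c := fun v hv => (h v hv).trans (h' v hv)

open Classical in
omit [CharZero K] [HasEnoughRootsOfUnity K (Monoid.exponent Q)] in
theorem sum_sub_chr (P : Subgroup Q) (a b : Q →* Kˣ) :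
    ∑ w ∈ univ.filter (· ∈ P), chr a w * chr b w⁻¹ = if eqP P a b then (Nat.card P : K) else 0 := by
  split_ifs with h
  · have h1 : ∀ w ∈ univ.filter (· ∈ P), chr a w * chr b w⁻¹ = (1 : K) := by
      intro w hw
      have h2 : chr a w = chr b w := by
        unfold chr
        rw [h w (mem_filter.1 hw).2]
      rw [h2, chr_mul_inv]
    rw [sum_congr rfl h1, sum_const, nsmul_eq_mul, mul_one, Nat.card_eq_fintype_card,
      Fintype.card_subtype]
  · obtain ⟨v, hv, hv1⟩ : ∃ v ∈ P, a v ≠ b v := by
      unfold eqP at h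
      push Not at h
      exact h
    have h1 : ∑ w ∈ univ.filter (· ∈ P), chr a w * chr b w⁻¹
        = (chr a v * chr b v⁻¹) * ∑ w ∈ univ.filter (· ∈ P), chr a w * chr b w⁻¹ := by
      rw [mul_sum]
      symm
      refine sum_bij (fun u _ => v * u) ?_ ?_ ?_ ?_
      · intro u hu
        rw [mem_filter] at hu ⊢
        exact ⟨mem_univ _, P.mul_mem hv hu.2⟩
      · intro a _ b _ hab
        exact mul_left_cancel hab
      · intro w hw
        rw [mem_filter] at hw
        refine ⟨v⁻¹ * w, ?_, by group⟩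
        rw [mem_filter]
        exact ⟨mem_univ _, P.mul_mem (P.inv_mem hv) hw.2⟩
      · intro u _
        rw [chr_map_mul, mul_inv, chr_map_mul]
        ring
    have h2 : (1 - chr a v * chr b v⁻¹) * ∑ w ∈ univ.filter (· ∈ P), chr a w * chr b w⁻¹ = 0 := by
      rw [sub_mul, one_mul, ← h1, sub_self]
    rcases mul_eq_zero.1 h2 with h3 | h3
    · exfalso
      apply hv1
      have h4 : chr a v * chr b v⁻¹ = 1 := (sub_eq_zero.1 h3).symm
      have h5 : chr b v * chr b v⁻¹ = 1 := chr_mul_inv b v
      have h6 : chr a v = chr b v := by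
        refine mul_right_cancel₀ (chr_ne_zero b v⁻¹) ?_
        rw [h4, h5]
      exact Units.ext h6
    · exact h3

open Classical in
/-- the characters which agree with `a` on `P` -/
theorem sum_eqP (P : Subgroup Q) (a : Q →* Kˣ) (v : Q) (hv : v ∉ P) :
    ∑ b ∈ univ.filter (fun b => eqP P b a), chr b v = 0 := by
  have h1 : (Nat.card P : K) * ∑ b ∈ univ.filter (fun b => eqP P b a), chr b v
      = ∑ b : Q →* Kˣ, (∑ w ∈ univ.filter (· ∈ P), chr b w * chr a w⁻¹) * chr b v := by
    simp_rw [sum_sub_chr P]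
    rw [mul_sum, sum_filter]
    refine sum_congr rfl fun b _ => ?_
    split_ifs <;> ring
  have h2 : ∑ b : Q →* Kˣ, (∑ w ∈ univ.filter (· ∈ P), chr b w * chr a w⁻¹) * chr b v = 0 := by
    simp_rw [sum_mul]
    rw [sum_comm]
    refine sum_eq_zero fun w hw => ?_
    have h3 : ∀ b : Q →* Kˣ, chr b w * chr a w⁻¹ * chr b v = chr a w⁻¹ * chr b (w * v) := by
      intro b
      rw [chr_map_mul]
      ring
    rw [sum_congr rfl fun b _ => h3 b, ← mul_sum, sum_chr', mul_zero]
    intro h4
    apply hv
    have h5 : v = w⁻¹ := eq_inv_of_mul_eq_one_right h4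
    rw [h5]
    exact P.inv_mem (mem_filter.1 hw).2
  rw [h2] at h1
  rcases mul_eq_zero.1 h1 with h3 | h3
  · exfalso
    have h4 : Nat.card P ≠ 0 := Nat.card_pos.ne'
    exact h4 (by exact_mod_cast h3)
  · exact h3

open Classical in
theorem card_eqP (P : Subgroup Q) (a : Q →* Kˣ) :
    Nat.card P * (univ.filter (fun b => eqP P b a)).card = Fintype.card Q := by
  have h1 : (Nat.card P : K) * ((univ.filter (fun b => eqP P b a)).card : K)
      = ∑ b : Q →* Kˣ, (∑ w ∈ univ.filter (· ∈ P), chr b w * chr a w⁻¹) := by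
    simp_rw [sum_sub_chr P]
    rw [← sum_filter, sum_const, nsmul_eq_mul]
    ring
  have h2 : ∑ b : Q →* Kˣ, (∑ w ∈ univ.filter (· ∈ P), chr b w * chr a w⁻¹)
      = (Fintype.card Q : K) := by
    rw [sum_comm, sum_eq_single 1]
    · simp only [chr_at_one, inv_one, mul_one, sum_const, card_univ, nsmul_eq_mul]
      rw [card_chr]
    · intro w _ hw
      rw [← sum_mul, sum_chr' w hw, zero_mul]
    · intro h
      exact absurd (mem_filter.2 ⟨mem_univ _, P.one_mem⟩) h
  rw [h2] at h1
  exact_mod_cast h1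

variable {S : Type*} [Fintype S]

open Classical in
theorem pair_sum (P : Subgroup Q) {x y : Q → K} (a b : (Q →* Kˣ) → ℤ) (hx : ∀ l, mlt x l = (a l : K))
    (hy : ∀ l, mlt y l = (b l : K)) :
    ∑ v ∈ univ.filter (· ∉ P), x v * y v⁻¹
      = ((Nat.card P * ∑ l : Q →* Kˣ, ∑ m ∈ univ.filter (fun m => eqP P m l),
          (a l * b l - a l * b m) : ℤ) : K) := by
  have hxe : ∀ v, x v = ∑ l, (a l : K) * chr l v := fun v => by
    rw [eq_sum_mlt x v]
    exact sum_congr rfl fun l _ => by rw [hx]
  have hye : ∀ v, y v = ∑ l, (b l : K) * chr l v := fun v => by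
    rw [eq_sum_mlt y v]
    exact sum_congr rfl fun l _ => by rw [hy]
  have hprod : ∀ v, x v * y v⁻¹ = ∑ l : Q →* Kˣ, ∑ m : Q →* Kˣ,
      (a l : K) * (b m : K) * (chr l v * chr m v⁻¹) := by
    intro v
    rw [hxe, hye, sum_mul_sum]
    exact sum_congr rfl fun l _ => sum_congr rfl fun m _ => by ring
  have hsub : ∀ R : Subgroup Q, ∑ v ∈ univ.filter (· ∈ R), x v * y v⁻¹
      = ∑ l : Q →* Kˣ, ∑ m : Q →* Kˣ, (a l : K) * (b m : K) *
          (if eqP R l m then (Nat.card R : K) else 0) := by
    intro R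
    simp_rw [hprod]
    rw [sum_comm]
    refine sum_congr rfl fun l _ => ?_
    rw [sum_comm]
    refine sum_congr rfl fun m _ => ?_
    rw [← mul_sum, sum_sub_chr]
  have htop : ∑ v, x v * y v⁻¹ = (Fintype.card Q : K) * ∑ l : Q →* Kˣ, (a l : K) * (b l : K) := by
    have h1 := hsub ⊤
    have h2 : (univ.filter (· ∈ (⊤ : Subgroup Q)) : Finset Q) = univ := by
      ext v
      simp
    rw [h2] at h1
    rw [h1, mul_sum]
    refine sum_congr rfl fun l _ => ?_
    rw [sum_eq_single l]
    · rw [if_pos (eqP_refl _ _)]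
      have h3 : Nat.card (⊤ : Subgroup Q) = Fintype.card Q := by
        rw [Subgroup.card_top, Nat.card_eq_fintype_card]
      rw [h3]
      ring
    · intro m _ hm
      rw [if_neg, mul_zero]
      intro h3
      exact hm (MonoidHom.ext fun v => (h3 v trivial).symm)
    · intro h
      exact absurd (mem_univ l) h
  have hsplit : ∑ v, x v * y v⁻¹ = ∑ v ∈ univ.filter (· ∈ P), x v * y v⁻¹
      + ∑ v ∈ univ.filter (· ∉ P), x v * y v⁻¹ := (sum_filter_add_sum_filter_not _ _ _).symm
  have h5 : ∑ v ∈ univ.filter (· ∉ P), x v * y v⁻¹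
      = (Fintype.card Q : K) * ∑ l : Q →* Kˣ, (a l : K) * (b l : K)
        - ∑ l : Q →* Kˣ, ∑ m : Q →* Kˣ, (a l : K) * (b m : K) *
          (if eqP P l m then (Nat.card P : K) else 0) := by
    rw [← htop, ← hsub P, hsplit]
    ring
  rw [h5, mul_sum, ← sum_sub_distrib]
  push_cast
  rw [mul_sum]
  refine sum_congr rfl fun l _ => ?_
  have h6 : (Fintype.card Q : K) = (Nat.card P : K) * ((univ.filter (fun b => eqP P b l)).card : K) := by
    rw [← card_eqP (K := K) P l]
    push_cast
    ring
  rw [h6, sum_sub_distrib, sum_const, nsmul_eq_mul]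
  have h7 : ∑ m : Q →* Kˣ, (a l : K) * (b m : K) * (if eqP P l m then (Nat.card P : K) else 0)
      = (Nat.card P : K) * ∑ m ∈ univ.filter (fun m => eqP P m l), (a l : K) * (b m : K) := by
    rw [mul_sum, sum_filter]
    refine sum_congr rfl fun m _ => ?_
    by_cases h8 : eqP P l m
    · rw [if_pos h8, if_pos (eqP_symm h8)]
      ring
    · rw [if_neg h8, if_neg (fun h9 => h8 (eqP_symm h9)), mul_zero]
  rw [h7]
  ring

theorem two_class {α : Type*} [DecidableEq α] {C A : Finset α} (hAC : A ⊆ C) (G : α → α → ℤ)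
    (hG : ∀ a b, 0 ≤ G a b) (h : ∀ a ∈ A, ∀ b ∈ C \ A, 1 ≤ G a b ∧ 1 ≤ G b a)
    (hA : A.Nonempty) (hB : (C \ A).Nonempty) :
    2 * ((C.card : ℤ) - 1) ≤ ∑ a ∈ C, ∑ b ∈ C, G a b := by
  have h1 : (C.card : ℤ) = A.card + (C \ A).card := by
    rw [← card_sdiff_add_card_eq_card hAC]
    push_cast
    ring
  have h2 : (1 : ℤ) ≤ A.card := by exact_mod_cast hA.card_pos
  have h3 : (1 : ℤ) ≤ (C \ A).card := by exact_mod_cast hB.card_pos
  have h4 : (C.card : ℤ) - 1 ≤ A.card * (C \ A).card := by
    rw [h1]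
    nlinarith
  have h5 : (A.card : ℤ) * (C \ A).card ≤ ∑ a ∈ A, ∑ b ∈ C, G a b := by
    have h6 : ∀ a ∈ A, ((C \ A).card : ℤ) ≤ ∑ b ∈ C, G a b := by
      intro a ha
      have h7 : ∑ b ∈ C \ A, G a b ≤ ∑ b ∈ C, G a b :=
        sum_le_sum_of_subset_of_nonneg sdiff_subset fun _ _ _ => hG _ _
      refine le_trans ?_ h7
      have h8 := card_nsmul_le_sum (C \ A) (fun b => G a b) 1 fun b hb => (h a ha b hb).1
      simpa using h8
    have h9 := card_nsmul_le_sum A _ _ h6
    rw [nsmul_eq_mul] at h9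
    exact h9
  have h10 : (A.card : ℤ) * (C \ A).card ≤ ∑ b ∈ C \ A, ∑ a ∈ C, G b a := by
    have h6 : ∀ b ∈ C \ A, (A.card : ℤ) ≤ ∑ a ∈ C, G b a := by
      intro b hb
      have h7 : ∑ a ∈ A, G b a ≤ ∑ a ∈ C, G b a :=
        sum_le_sum_of_subset_of_nonneg hAC fun _ _ _ => hG _ _
      refine le_trans ?_ h7
      have h8 := card_nsmul_le_sum A (fun a => G b a) 1 fun a ha => (h a ha b hb).2
      simpa using h8
    have h9 := card_nsmul_le_sum (C \ A) _ _ h6
    rw [nsmul_eq_mul] at h9
    linarith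
  rw [← sum_sdiff hAC]
  linarith

open Classical in
/-- the sum of an integral hermitian form over the elements outside a subgroup of index `p` -/
theorem gen_sum (P : Subgroup Q) {p : ℕ} (hP : Fintype.card Q = p * Nat.card P)
    {N : S → S → ℤ} (hN : PSD N) (x : S → Q → K) (hx : ∀ s, x s ∈ vir Q K) :
    ∃ n : ℤ, ∑ v ∈ univ.filter (· ∉ P), ∑ s, ∑ t, (N s t : K) * (x s v * x t v⁻¹) = (n : K) ∧
      0 ≤ n ∧ (n ≠ 0 → (Fintype.card Q : ℤ) - Nat.card P ≤ n) ∧
      (n = 0 → ∀ v, v ∉ P → ∀ s, ∑ t, (N s t : K) * x t v = 0) := by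
  have h1 : ∀ s, ∃ a : (Q →* Kˣ) → ℤ, ∀ l, mlt (x s) l = (a l : K) := fun s =>
    ⟨fun l => Classical.choose (mem_vir_iff.1 (hx s) l),
      fun l => Classical.choose_spec (mem_vir_iff.1 (hx s) l)⟩
  choose a ha using h1
  set A : (Q →* Kˣ) → S → ℤ := fun l s => a s l with hA
  set m : ℤ := ∑ l : Q →* Kˣ, ∑ k ∈ univ.filter (fun k => eqP P k l),
    (bf N (A l) (A l) - bf N (A l) (A k)) with hm
  have hPp : (0 : ℤ) < Nat.card P := by
    have : 0 < Nat.card P := Nat.card_pos
    exact_mod_cast this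
  have hmain : ∑ v ∈ univ.filter (· ∉ P), ∑ s, ∑ t, (N s t : K) * (x s v * x t v⁻¹)
      = ((Nat.card P * m : ℤ) : K) := by
    have h2 : ∑ v ∈ univ.filter (· ∉ P), ∑ s, ∑ t, (N s t : K) * (x s v * x t v⁻¹)
        = ∑ s, ∑ t, (N s t : K) * ∑ v ∈ univ.filter (· ∉ P), x s v * x t v⁻¹ := by
      rw [sum_comm]
      refine sum_congr rfl fun s _ => ?_
      rw [sum_comm]
      refine sum_congr rfl fun t _ => ?_
      rw [mul_sum]
    rw [h2]
    simp_rw [pair_sum P _ _ (ha _) (ha _)]
    have h3 : ∀ s t, (N s t : K) * ((Nat.card P * ∑ l : Q →* Kˣ,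
        ∑ m ∈ univ.filter (fun m => eqP P m l), (a s l * a t l - a s l * a t m) : ℤ) : K)
        = ((Nat.card P * ∑ l : Q →* Kˣ, ∑ m ∈ univ.filter (fun m => eqP P m l),
          N s t * (a s l * a t l - a s l * a t m) : ℤ) : K) := by
      intro s t
      rw [← Int.cast_mul]
      congr 1
      rw [mul_left_comm, mul_sum]
      congr 1
      refine sum_congr rfl fun l _ => ?_
      rw [mul_sum]
    simp_rw [h3]
    simp_rw [← Int.cast_sum]
    congr 1
    have hcalc : ∑ s, ∑ t, ∑ l : Q →* Kˣ, ∑ k ∈ univ.filter (fun k => eqP P k l),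
          N s t * (a s l * a t l - a s l * a t k) = m := by
      calc ∑ s, ∑ t, ∑ l : Q →* Kˣ, ∑ k ∈ univ.filter (fun k => eqP P k l),
            N s t * (a s l * a t l - a s l * a t k)
          = ∑ s, ∑ l : Q →* Kˣ, ∑ t, ∑ k ∈ univ.filter (fun k => eqP P k l),
            N s t * (a s l * a t l - a s l * a t k) := sum_congr rfl fun s _ => sum_comm
        _ = ∑ l : Q →* Kˣ, ∑ s, ∑ t, ∑ k ∈ univ.filter (fun k => eqP P k l),
            N s t * (a s l * a t l - a s l * a t k) := sum_comm
        _ = ∑ l : Q →* Kˣ, ∑ s, ∑ k ∈ univ.filter (fun k => eqP P k l), ∑ t,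
            N s t * (a s l * a t l - a s l * a t k) :=
              sum_congr rfl fun l _ => sum_congr rfl fun s _ => sum_comm
        _ = ∑ l : Q →* Kˣ, ∑ k ∈ univ.filter (fun k => eqP P k l), ∑ s, ∑ t,
            N s t * (a s l * a t l - a s l * a t k) :=
              sum_congr rfl fun l _ => sum_comm
        _ = m := by
              rw [hm]
              refine sum_congr rfl fun l _ => sum_congr rfl fun k _ => ?_
              unfold bf
              rw [← sum_sub_distrib]
              refine sum_congr rfl fun s _ => ?_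
              rw [← sum_sub_distrib]
              refine sum_congr rfl fun t _ => ?_
              simp only [hA]
              ring
    rw [← hcalc, mul_sum]
    refine sum_congr rfl fun s _ => ?_
    rw [mul_sum]
  have h2m : 2 * m = ∑ l : Q →* Kˣ, ∑ k ∈ univ.filter (fun k => eqP P k l),
      bf N (A l - A k) (A l - A k) := by
    have h4 : ∑ l : Q →* Kˣ, ∑ k ∈ univ.filter (fun k => eqP P k l), bf N (A k) (A k)
        = ∑ l : Q →* Kˣ, ∑ k ∈ univ.filter (fun k => eqP P k l), bf N (A l) (A l) := by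
      simp_rw [sum_filter]
      rw [sum_comm]
      refine sum_congr rfl fun l _ => sum_congr rfl fun k _ => ?_
      by_cases h : eqP P k l
      · rw [if_pos h, if_pos (eqP_symm h)]
      · rw [if_neg h, if_neg (fun h' => h (eqP_symm h'))]
    have h5 : ∀ l k, bf N (A l - A k) (A l - A k)
        = (bf N (A l) (A l) - 2 * bf N (A l) (A k)) + bf N (A k) (A k) := by
      intro l k
      rw [bf_sub_sub hN]
      ring
    simp_rw [h5, sum_add_distrib]
    rw [h4, hm, mul_sum, ← sum_add_distrib]
    refine sum_congr rfl fun l _ => ?_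
    rw [mul_sum, ← sum_add_distrib]
    refine sum_congr rfl fun k _ => ?_
    ring
  have hnn : ∀ l, 0 ≤ ∑ k ∈ univ.filter (fun k => eqP P k l), bf N (A l - A k) (A l - A k) :=
    fun l => sum_nonneg fun k _ => hN.nonneg _
  have hm0 : 0 ≤ m := by
    have : 0 ≤ 2 * m := by
      rw [h2m]
      exact sum_nonneg fun l _ => hnn l
    linarith
  have hPQ : (Fintype.card Q : ℤ) = p * Nat.card P := by exact_mod_cast hP
  refine ⟨Nat.card P * m, hmain, mul_nonneg hPp.le hm0, ?_, ?_⟩
  · intro hne
    have hmne : m ≠ 0 := right_ne_zero_of_mul hne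
    -- two characters, equal on `P`, with different values
    obtain ⟨l, k, hkl, hb⟩ : ∃ l k, eqP P k l ∧ bf N (A l - A k) (A l - A k) ≠ 0 := by
      by_contra hcon
      push Not at hcon
      apply hmne
      have h6 : 2 * m = 0 := by
        rw [h2m]
        refine sum_eq_zero fun l _ => sum_eq_zero fun k hk => ?_
        exact hcon l k (mem_filter.1 hk).2
      linarith
    set C : Finset (Q →* Kˣ) := univ.filter (fun k => eqP P k l) with hC
    have hCc : (C.card : ℤ) = p := by
      have h7 := card_eqP (K := K) P l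
      rw [hP, mul_comm] at h7
      have h8 : C.card = p := Nat.eq_of_mul_eq_mul_right Nat.card_pos h7
      exact_mod_cast h8
    have hCC : ∑ c ∈ C, ∑ d ∈ C, bf N (A c - A d) (A c - A d) ≤ 2 * m := by
      rw [h2m]
      have h9 : ∀ c ∈ C, ∑ d ∈ C, bf N (A c - A d) (A c - A d)
          = ∑ k ∈ univ.filter (fun k => eqP P k c), bf N (A c - A k) (A c - A k) := by
        intro c hc
        refine sum_congr ?_ fun _ _ => rfl
        ext d
        rw [hC, mem_filter, mem_filter]
        have hc' := (mem_filter.1 hc).2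
        exact ⟨fun h => ⟨h.1, eqP_trans h.2 (eqP_symm hc')⟩, fun h => ⟨h.1, eqP_trans h.2 hc'⟩⟩
      rw [sum_congr rfl h9]
      exact sum_le_sum_of_subset_of_nonneg (subset_univ _) fun c _ _ => hnn c
    set B : Finset (Q →* Kˣ) := C.filter fun c => bf N (A c - A l) (A c - A l) = 0 with hB
    have h10 := two_class (C := C) (A := B) (filter_subset _ _)
      (fun c d => bf N (A c - A d) (A c - A d)) (fun _ _ => hN.nonneg _) (by
        intro c hc d hd
        have hc' := (mem_filter.1 hc).2
        have hd' : bf N (A d - A l) (A d - A l) ≠ 0 := fun h =>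
          (mem_sdiff.1 hd).2 (mem_filter.2 ⟨(mem_sdiff.1 hd).1, h⟩)
        have h11 : bf N (A c - A d) (A c - A d) ≠ 0 := by
          intro h12
          apply hd'
          have h13 : A d - A l = (A c - A l) + (-1 : ℤ) • (A c - A d) := by
            funext s
            simp only [Pi.sub_apply, Pi.add_apply, Pi.smul_apply, smul_eq_mul]
            ring
          rw [h13, bf_add_left, bf_smul_left, bf_symm hN (A c - A l), bf_symm hN (A c - A d),
            hN.orth hc', hN.orth h12]
          norm_num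
        have h14 := hN.nonneg (A c - A d)
        have h15 : bf N (A d - A c) (A d - A c) = bf N (A c - A d) (A c - A d) := by
          rw [bf_sub_sub hN, bf_sub_sub hN, bf_symm hN (A d) (A c)]
          ring
        constructor
        · omega
        · rw [h15]
          omega)
      ⟨l, mem_filter.2 ⟨mem_filter.2 ⟨mem_univ _, eqP_refl _ _⟩, by
        rw [bf_sub_sub hN]
        ring⟩⟩
      ⟨k, mem_sdiff.2 ⟨mem_filter.2 ⟨mem_univ _, hkl⟩, fun h => by
        apply hb
        have h16 := (mem_filter.1 h).2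
        rw [bf_sub_sub hN] at h16 ⊢
        rw [bf_symm hN (A l) (A k)]
        linarith⟩⟩
    rw [hCc] at h10
    have h17 : (p : ℤ) - 1 ≤ m := by linarith
    rw [hPQ]
    nlinarith
  · intro h0 v hv s
    have hm00 : m = 0 := by
      rcases mul_eq_zero.1 h0 with h | h
      · exact absurd h hPp.ne'
      · exact h
    have h18 : ∀ l k, eqP P k l → bf N (A l - A k) (A l - A k) = 0 := by
      intro l k hkl
      have h19 : ∑ l : Q →* Kˣ, ∑ k ∈ univ.filter (fun k => eqP P k l),
          bf N (A l - A k) (A l - A k) = 0 := by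
        rw [← h2m, hm00]
        norm_num
      have h20 := (sum_eq_zero_iff_of_nonneg (fun l _ => hnn l)).1 h19 l (mem_univ l)
      exact (sum_eq_zero_iff_of_nonneg (fun k _ => hN.nonneg _)).1 h20 k
        (mem_filter.2 ⟨mem_univ _, hkl⟩)
    set B : (Q →* Kˣ) → ℤ := fun l => ∑ t, N s t * a t l with hB
    have hBeq : ∀ l k, eqP P k l → B l = B k := by
      intro l k hkl
      have h21 := hN.ker (h18 l k hkl) s
      have h22 : ∑ t, N s t * (A l - A k) t = B l - B k := by
        simp only [hB, hA, Pi.sub_apply, mul_sub, sum_sub_distrib]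
      rw [h22] at h21
      linarith
    have h23 : ∑ t, (N s t : K) * x t v = ∑ l, (B l : K) * chr l v := by
      have h24 : ∀ t, (N s t : K) * x t v = ∑ l, (N s t : K) * (a t l : K) * chr l v := by
        intro t
        rw [eq_sum_mlt (x t) v, mul_sum]
        exact sum_congr rfl fun l _ => by rw [ha, mul_assoc]
      rw [sum_congr rfl fun t _ => h24 t, sum_comm]
      refine sum_congr rfl fun l _ => ?_
      rw [← sum_mul]
      simp only [hB]
      push_cast
      rfl
    rw [h23]
    have h25 : (Fintype.card Q : K) * ∑ l, (B l : K) * chr l v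
        = (Nat.card P : K) * ∑ l : Q →* Kˣ, ∑ k ∈ univ.filter (fun k => eqP P k l),
          (B k : K) * chr l v := by
      rw [mul_sum, mul_sum]
      refine sum_congr rfl fun l _ => ?_
      have h26 : ∀ k ∈ univ.filter (fun k => eqP P k l), (B k : K) * chr l v
          = (B l : K) * chr l v := by
        intro k hk
        rw [hBeq l k (mem_filter.1 hk).2]
      rw [sum_congr rfl h26, sum_const, nsmul_eq_mul, ← card_eqP (K := K) P l]
      push_cast
      ring
    have h27 : ∑ l : Q →* Kˣ, ∑ k ∈ univ.filter (fun k => eqP P k l), (B k : K) * chr l v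
        = 0 := by
      simp_rw [sum_filter]
      rw [sum_comm]
      refine sum_eq_zero fun k _ => ?_
      have h28 := sum_eqP P k v hv
      rw [sum_filter] at h28
      have h29 : ∀ l : Q →* Kˣ, (if eqP P k l then (B k : K) * chr l v else 0)
          = (B k : K) * (if eqP P l k then chr l v else 0) := by
        intro l
        by_cases h : eqP P k l
        · rw [if_pos h, if_pos (eqP_symm h)]
        · rw [if_neg h, if_neg (fun h' => h (eqP_symm h')), mul_zero]
      rw [sum_congr rfl fun l _ => h29 l, ← mul_sum, h28, mul_zero]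
    rw [h27, mul_zero] at h25
    rcases mul_eq_zero.1 h25 with h | h
    · exact absurd h card_ne
    · exact h

end

end Pool.Agent.Lib.P0c8ca5.Ex
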