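import Mathlib
import Pool.Agent.Lib.P0c8ca5Ex.YC
import Pool.Agent.Lib.P0c8ca5Ex.XD

/-!
# YG: the positive form of a local block

PROOF. `H = C(Q)`, `Γ = on H (G Q)`, `n = |T| e_Q`. For `s`, `t` in the block let
`N s t = (m - a a') / p` with the integers of `GOK.cong` for `ch s`, `ch t`; `N s t = 0` otherwise.
Positivity: for integral `x` put `X = ∑ x s ch s` over the `s` in the block, `q = ip (rg p X) X`
(`rg_nonneg`) and `b = ip X Γ = ip (rg p X) Γ` (`Γ = rg p Γ`). `rg_nonneg` for `n X - b Γ` gives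
`0 ≤ n² q - 2 n b² + b² n = n (n q - b²)` and `n q - b² = p * bf N x x`, `n > 0`.
-/

set_option linter.unusedSectionVars false

namespace Pool.Agent.Lib.P0c8ca5.Ex

open MonoidAlgebra

section
variable {p : ℕ} [Fact p.Prime] {k : Type*} [Field k] [IsAlgClosed k] [CharP k p]
  {A : Type*} [Group A] [Finite A]
  {T : Type*} [CommGroup T] [Fintype T]
  {φ : T →* A} {f i : MonoidAlgebra k A} {D : Subgroup A} {Q : Subgroup T}
  {G : Subgroup T → A → KW p k}

namespace YGAux

theorem cen_le {b : MonoidAlgebra k A} {B B' : MonoidAlgebra (OW p k) A} (h : CenL b B)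
    (h' : CenL b B') : B * B' = B := by
  have hb : b * b = b := by rw [← h.red, ← map_mul, h.idem]
  have h1 : B - B * B' = 0 := by
    refine idem_zero ?_ ?_
    · have h2 : B * (B * B') = B * B' := by rw [← mul_assoc, h.idem]
      have h3 : B * B' * B = B * B' := by rw [mul_assoc, ← h.cen B', h2]
      have h4 : B * B' * (B * B') = B * B' := by
        rw [← mul_assoc, h3, mul_assoc, h'.idem]
      rw [sub_mul, mul_sub, mul_sub, h.idem, h2, h3, h4, sub_self, sub_zero]
    · rw [map_sub, map_mul, h.red, h'.red, hb, sub_self]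
  exact (sub_eq_zero.1 h1).symm

theorem cen_eq {b : MonoidAlgebra k A} {B B' : MonoidAlgebra (OW p k) A} (h : CenL b B)
    (h' : CenL b B') : B = B' := by
  rw [← cen_le h h', h.cen, cen_le h' h]

theorem sum_mem {b : MonoidAlgebra k A} {B : MonoidAlgebra (OW p k) A} (h : CenL b B)
    (x : Ir (KW p k) A → ℤ) (hx : ∀ s, chO s B = 0 → x s = 0) :
    (fun y => ∑ s : Ir (KW p k) A, (x s : KW p k) * ch s y) ∈ VA (p := p) b := by
  classical
  refine ⟨V_of_sum x, fun B' hB' χ hχ => ?_⟩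
  have h0 : (fun y => ∑ s : Ir (KW p k) A, (x s : KW p k) * ch s y)
      = fun y => ∑ s : Ir (KW p k) A, ((x s : KW p k) • ch s) y := rfl
  rw [h0, ip_sum, Finset.sum_eq_single χ]
  · rw [ip_smul, hx χ (by rw [cen_eq h hB']; exact hχ), Int.cast_zero, zero_mul]
  · intro s _ hs
    rw [ip_smul, ip_ch, if_neg hs, mul_zero]
  · intro h1
    exact absurd (Finset.mem_univ _) h1

theorem ch_mem_VA {b : MonoidAlgebra k A} {B : MonoidAlgebra (OW p k) A} (h : CenL b B)
    {s : Ir (KW p k) A} (hs : chO s B ≠ 0) : ch s ∈ VA (p := p) b := by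
  classical
  refine ⟨ch_mem s, fun B' hB' χ hχ => ?_⟩
  rw [ip_ch, if_neg]
  rintro rfl
  exact hs (by rw [cen_eq h hB']; exact hχ)

theorem ip_sum_left (x : Ir (KW p k) A → ℤ) (Z : A → KW p k) :
    ip (fun y => ∑ s : Ir (KW p k) A, (x s : KW p k) * ch s y) Z
      = ∑ s, (x s : KW p k) * ip (ch s) Z := by
  have h0 : (fun y => ∑ s : Ir (KW p k) A, (x s : KW p k) * ch s y)
      = fun y => ∑ s : Ir (KW p k) A, ((x s : KW p k) • ch s) y := rfl
  rw [h0, ip_sum]
  exact Finset.sum_congr rfl fun s _ => ip_smul _ _ _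

theorem ip_rg_comm (X Y : A → KW p k) : ip (rg p X) Y = ip (rg p Y) X := by
  rw [ip_rg, ip_comm]

end YGAux

open YGAux

theorem locN (h : GOK φ D f i G Q) {c : MonoidAlgebra k A} (hc : LbH (cq φ Q) i c)
    {BH : MonoidAlgebra (OW p k) ↥(cq φ Q)} (hB : CenL (dnr (cq φ Q) c) BH) :
    ∃ N : Ir (KW p k) ↥(cq φ Q) → Ir (KW p k) ↥(cq φ Q) → ℤ, PSD N ∧
      (∀ s t, chO s BH = 0 ∨ chO t BH = 0 → N s t = 0) ∧
      ∀ s t, chO s BH ≠ 0 → chO t BH ≠ 0 →
        (Fintype.card T : KW p k) * (eQ φ D f Q : KW p k) * ip (rg p (ch s)) (ch t)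
          = ip (ch s) (on (cq φ Q) (G Q)) * ip (ch t) (on (cq φ Q) (G Q))
            + (p : KW p k) * (N s t : KW p k) := by
  classical
  have hpK : (p : KW p k) ≠ 0 := Nat.cast_ne_zero.2 (Fact.out : p.Prime).ne_zero
  have h1 : ∀ s t, chO s BH ≠ 0 → chO t BH ≠ 0 → ∃ z : ℤ,
      (Fintype.card T : KW p k) * (eQ φ D f Q : KW p k) * ip (rg p (ch s)) (ch t)
          = ip (ch s) (on (cq φ Q) (G Q)) * ip (ch t) (on (cq φ Q) (G Q))
            + (p : KW p k) * (z : KW p k) := by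
    intro s t hs ht
    obtain ⟨m, a, a', h2, h3, h4, z, h5⟩ := h.cong c hc _ (ch_mem_VA hB hs) _ (ch_mem_VA hB ht)
    refine ⟨z, ?_⟩
    have h6 : m = a * a' + (p : ℤ) * z := by rw [← h5]; ring
    rw [h2, h3, h4, h6]
    push_cast
    rfl
  choose z hz using h1
  obtain ⟨N, hN⟩ : ∃ N : Ir (KW p k) ↥(cq φ Q) → Ir (KW p k) ↥(cq φ Q) → ℤ,
      ∀ s t, N s t = if h : chO s BH ≠ 0 ∧ chO t BH ≠ 0 then z s t h.1 h.2 else 0 :=
    ⟨_, fun _ _ => rfl⟩
  have hN0 : ∀ s t, chO s BH = 0 ∨ chO t BH = 0 → N s t = 0 := by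
    intro s t hst
    rw [hN, dif_neg]
    rintro ⟨h2, h3⟩
    rcases hst with h4 | h4
    · exact h2 h4
    · exact h3 h4
  have hN1 : ∀ s t, chO s BH ≠ 0 → chO t BH ≠ 0 →
        (Fintype.card T : KW p k) * (eQ φ D f Q : KW p k) * ip (rg p (ch s)) (ch t)
          = ip (ch s) (on (cq φ Q) (G Q)) * ip (ch t) (on (cq φ Q) (G Q))
            + (p : KW p k) * (N s t : KW p k) := by
    intro s t hs ht
    rw [hN, dif_pos ⟨hs, ht⟩]
    exact hz s t hs ht
  refine ⟨N, ⟨fun s t => ?_, fun x => ?_⟩, hN0, hN1⟩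
  · by_cases hs : chO s BH = 0
    · rw [hN0 s t (Or.inl hs), hN0 t s (Or.inr hs)]
    by_cases ht : chO t BH = 0
    · rw [hN0 s t (Or.inr ht), hN0 t s (Or.inl ht)]
    have h2 := hN1 s t hs ht
    have h3 := hN1 t s ht hs
    rw [ip_rg_comm, h3, mul_comm (ip (ch t) _)] at h2
    have h4 := mul_left_cancel₀ hpK (add_left_cancel h2)
    exact (Int.cast_injective h4).symm
  · -- the element of the block
    let x' : Ir (KW p k) ↥(cq φ Q) → ℤ := fun s => if chO s BH = 0 then 0 else x s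
    have hx0 : ∀ s, chO s BH = 0 → x' s = 0 := fun s hs => if_pos hs
    have hx1 : ∀ s, chO s BH ≠ 0 → x' s = x s := fun s hs => if_neg hs
    have hbf : bf N x x = bf N x' x' := by
      unfold bf
      refine Finset.sum_congr rfl fun s _ => Finset.sum_congr rfl fun t _ => ?_
      by_cases hs : chO s BH = 0
      · rw [hN0 s t (Or.inl hs), zero_mul, zero_mul]
      by_cases ht : chO t BH = 0
      · rw [hN0 s t (Or.inr ht), zero_mul, zero_mul]
      rw [hx1 s hs, hx1 t ht]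
    set Γ := on (cq φ Q) (G Q) with hΓ
    have hΓV : Γ ∈ V (KW p k) ↥(cq φ Q) := (h.blk c hc).1
    have hΓr : rg p Γ = Γ := by
      refine rg_eq fun y hy => h.reg _ fun h2 => hy ?_
      unfold Preg at h2 ⊢
      rwa [Subgroup.orderOf_coe] at h2
    let X : ↥(cq φ Q) → KW p k := fun y => ∑ s : Ir (KW p k) ↥(cq φ Q), (x' s : KW p k) * ch s y
    have hXV : X ∈ V (KW p k) ↥(cq φ Q) := V_of_sum x'
    obtain ⟨q, -, hq, -⟩ := rg_nonneg (p := p) hXV
    obtain ⟨b, hb⟩ := ip_int hXV hΓV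
    -- the number `n`
    obtain ⟨n, hn⟩ : ∃ n : ℕ, n = Fintype.card T * eQ φ D f Q := ⟨_, rfl⟩
    have hnK : (n : KW p k) = (Fintype.card T : KW p k) * (eQ φ D f Q : KW p k) := by
      rw [hn, Nat.cast_mul]
    have hn0 : 0 < n := by
      rw [hn]
      refine Nat.mul_pos Fintype.card_pos ?_
      have : Nonempty {α : ↥(EG φ D f) // ∀ t ∈ Q, (α : MulAut T) t = t} :=
        ⟨⟨1, fun t _ => rfl⟩⟩
      exact Nat.card_pos
    -- `n q = b² + p bf N x' x'`
    have h2 : (n : KW p k) * (q : KW p k)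
        = (b : KW p k) ^ 2 + (p : KW p k) * ((bf N x' x' : ℤ) : KW p k) := by
      have h3 : ip (rg p X) X = ∑ s, ∑ t, (x' s : KW p k) * (x' t : KW p k) *
          ip (rg p (ch s)) (ch t) := by
        rw [ip_rg, ip_sum_left]
        refine Finset.sum_congr rfl fun s _ => ?_
        rw [← ip_rg, ip_comm, ip_sum_left, Finset.mul_sum]
        refine Finset.sum_congr rfl fun t _ => ?_
        rw [ip_comm (ch t), mul_assoc]
      have h4 : (b : KW p k) = ∑ s, (x' s : KW p k) * ip (ch s) Γ := by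
        rw [← hb, ip_sum_left]
      rw [← hq, h3, hnK, pow_two, h4, Finset.sum_mul_sum]
      unfold bf
      push_cast
      rw [Finset.mul_sum, Finset.mul_sum, ← Finset.sum_add_distrib]
      refine Finset.sum_congr rfl fun s _ => ?_
      rw [Finset.mul_sum, Finset.mul_sum, ← Finset.sum_add_distrib]
      refine Finset.sum_congr rfl fun t _ => ?_
      by_cases hs : chO s BH = 0
      · rw [hx0 s hs]
        simp
      by_cases ht : chO t BH = 0
      · rw [hx0 t ht]
        simp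
      have h5 := hN1 s t hs ht
      calc (Fintype.card T : KW p k) * (eQ φ D f Q : KW p k) *
            ((x' s : KW p k) * (x' t : KW p k) * ip (rg p (ch s)) (ch t))
          = (x' s : KW p k) * (x' t : KW p k) * ((Fintype.card T : KW p k) *
            (eQ φ D f Q : KW p k) * ip (rg p (ch s)) (ch t)) := by ring
        _ = _ := by rw [h5]; ring
    -- Cauchy-Schwarz
    have hZV : (fun y => (n : KW p k) * X y + (-(b : KW p k)) * Γ y) ∈ V (KW p k) ↥(cq φ Q) := by
      have e : (fun y => (n : KW p k) * X y + (-(b : KW p k)) * Γ y)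
          = (n : ℤ) • X + (-b) • Γ := by
        funext y
        rw [Pi.add_apply, Pi.smul_apply, Pi.smul_apply, zsmul_eq_mul, zsmul_eq_mul]
        push_cast
        rfl
      rw [e]
      exact AddSubgroup.add_mem _ (AddSubgroup.zsmul_mem _ hXV _)
        (AddSubgroup.zsmul_mem _ hΓV _)
    obtain ⟨q', hq0, hq', -⟩ := rg_nonneg (p := p) hZV
    have h6 : (q' : KW p k) = (n : KW p k) * ((n : KW p k) * (q : KW p k) - (b : KW p k) ^ 2) := by
      have e : (fun y => (n : KW p k) * X y + (-(b : KW p k)) * Γ y)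
          = (n : KW p k) • X + (-(b : KW p k)) • Γ := rfl
      have e1 : ip (rg p X) Γ = b := by rw [ip_rg, hΓr, hb]
      have e2 : ip (rg p Γ) X = b := by rw [hΓr, ip_comm, hb]
      have e3 : ip (rg p Γ) Γ = n := by rw [hΓr, h.nrm, hnK]
      rw [← hq', e, rg_add, rg_smul, rg_smul, ip_add, ip_smul, ip_smul,
        ip_comm (rg p X), ip_comm (rg p Γ), ip_add, ip_add, ip_smul, ip_smul, ip_smul, ip_smul,
        ip_comm X, ip_comm Γ (rg p X), ip_comm X (rg p Γ), ip_comm Γ (rg p Γ), hq, e1, e2, e3]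
      ring
    have h7 : (q' : ℚ) = (n : ℚ) * ((n : ℚ) * q - (b : ℚ) ^ 2) := by
      have h8 : ((q' : ℚ) : KW p k) = (((n : ℚ) * ((n : ℚ) * q - (b : ℚ) ^ 2) : ℚ) : KW p k) := by
        rw [h6]
        push_cast
        rfl
      exact Rat.cast_injective h8
    have h9 : (n : ℚ) * q = (b : ℚ) ^ 2 + (p : ℚ) * ((bf N x' x' : ℤ) : ℚ) := by
      have h8 : (((n : ℚ) * q : ℚ) : KW p k)
          = (((b : ℚ) ^ 2 + (p : ℚ) * ((bf N x' x' : ℤ) : ℚ) : ℚ) : KW p k) := by
        push_cast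
        exact h2
      exact Rat.cast_injective h8
    rw [hbf]
    rw [h9, add_sub_cancel_left] at h7
    rw [h7] at hq0
    have hnQ : (0 : ℚ) < n := Nat.cast_pos.2 hn0
    have hpQ : (0 : ℚ) < p := Nat.cast_pos.2 (Fact.out : p.Prime).pos
    have h10 := nonneg_of_mul_nonneg_right hq0 hnQ
    have h11 := nonneg_of_mul_nonneg_right h10 hpQ
    exact_mod_cast h11

end

end Pool.Agent.Lib.P0c8ca5.Ex
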