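import Mathlib
import Pool.Agent.Lib.P0c8ca5Ex.YI
import Pool.Agent.Lib.P0c8ca5Ex.YG

/-!
# YJ: the local identity

`xs φ H BH X s v = ip (X_c(φ v ·)) (ch s)`, the coefficient of `ch s` in `y ↦ cut H BH X (φ v y)`; for
`v ∈ Q`, `H = C(Q)`, it is `om_s(φ v) * m_s`, so a virtual character of `Q` (`xs_vir`).
`loc_id`: with the form `N` of `locN`,
`|T| e_Q Wf p H X_c Y_c (φ u) = rwv X u * rwv Y u⁻¹ + p ∑_(s,t) N s t (xs X s u * xs Y t u⁻¹)`.
PROOF: `cut H BH X (φ u y) = ∑_s xs X s u * ch s y` over the `s` in the block (`cut_eq`, `φ u` central in `H`),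
`Wf = ∑_(s,t) xs X s u * xs Y t u⁻¹ * ip (rg p (ch s)) (ch t)`, and `rwv X u = ∑_s xs X s u * ip (ch s) Γ`
(`rwv_cut`).
-/

set_option linter.unusedSectionVars false

namespace Pool.Agent.Lib.P0c8ca5.Ex

open MonoidAlgebra

section
variable {p : ℕ} [Fact p.Prime] {k : Type*} [Field k] [IsAlgClosed k] [CharP k p]
  {A : Type*} [Group A] [Finite A]
  {T : Type*} [CommGroup T] [Fintype T]
  {φ : T →* A} {b f i : MonoidAlgebra k A} {D : Subgroup A} {R : Subgroup T}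
  {G : Subgroup T → A → KW p k}

/-- the coefficients of the translates of the block part -/
noncomputable def xs (φ : T →* A) (H : Subgroup A) (BH : MonoidAlgebra (OW p k) ↥H)
    (X : A → KW p k) (s : Ir (KW p k) ↥H) (v : T) : KW p k :=
  ip (on H fun y => cut H BH X (φ v * y)) (ch s)

namespace YJAux

theorem phi_mem (φ : T →* A) (Q : Subgroup T) (v : T) : φ v ∈ cq φ Q := by
  rw [Subgroup.mem_centralizer_iff]
  rintro _ ⟨q, -, rfl⟩
  rw [← map_mul, ← map_mul, mul_comm]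

theorem phi_cen {φ : T →* A} {Q : Subgroup T} {v : T} (hv : v ∈ Q) (a : ↥(cq φ Q)) :
    (⟨φ v, phi_mem φ Q v⟩ : ↥(cq φ Q)) * a = a * ⟨φ v, phi_mem φ Q v⟩ :=
  Subtype.ext (Subgroup.mem_centralizer_iff.1 a.2 (φ v) ⟨v, hv, rfl⟩)

theorem ch_cen (s : Ir (KW p k) A) {z : A} (hz : ∀ a, z * a = a * z) (y : A) :
    ch s (z * y) = om s (single z 1) * ch s y := by
  have h1 : single (z * y) (1 : KW p k) = single z 1 * single y 1 := by
    rw [single_mul_single, one_mul]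
  rw [ch, ch, h1, chi_cen_mul s (single_central hz)]

theorem on_mem (H : Subgroup A) {X : A → KW p k} (hX : X ∈ V (KW p k) A) :
    on H X ∈ V (KW p k) ↥H := V_comp H.subtype hX

open Classical in
theorem cut_tr {Q : Subgroup T} {c : MonoidAlgebra k A}
    {BH : MonoidAlgebra (OW p k) ↥(cq φ Q)} (hB : CenL (dnr (cq φ Q) c) BH)
    {X : A → KW p k} (hX : X ∈ V (KW p k) A) {v : T} (hv : v ∈ Q) (y : ↥(cq φ Q)) :
    cut (cq φ Q) BH X (φ v * y)
      = ∑ s, (if chO s BH ≠ 0 then ip (on (cq φ Q) X) (ch s) *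
          om s (single (⟨φ v, phi_mem φ Q v⟩ : ↥(cq φ Q)) 1) else 0) * ch s y := by
  have h1 := cut_eq hB (on_mem (cq φ Q) hX) (⟨φ v, phi_mem φ Q v⟩ * y)
  have h2 : ((⟨φ v, phi_mem φ Q v⟩ * y : ↥(cq φ Q)) : A) = φ v * y := rfl
  rw [h2] at h1
  rw [h1, Finset.sum_filter]
  refine Finset.sum_congr rfl fun s _ => ?_
  split_ifs with h3
  · rw [ch_cen s (phi_cen hv), mul_assoc]
  · rw [zero_mul]

open Classical in
theorem xs_eq {Q : Subgroup T} {c : MonoidAlgebra k A}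
    {BH : MonoidAlgebra (OW p k) ↥(cq φ Q)} (hB : CenL (dnr (cq φ Q) c) BH)
    {X : A → KW p k} (hX : X ∈ V (KW p k) A) {v : T} (hv : v ∈ Q) (s : Ir (KW p k) ↥(cq φ Q)) :
    xs φ (cq φ Q) BH X s v = if chO s BH ≠ 0 then ip (on (cq φ Q) X) (ch s) *
          om s (single (⟨φ v, phi_mem φ Q v⟩ : ↥(cq φ Q)) 1) else 0 := by
  have h1 : (on (cq φ Q) fun y => cut (cq φ Q) BH X (φ v * y))
      = fun y => ∑ t, ((if chO t BH ≠ 0 then ip (on (cq φ Q) X) (ch t) *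
          om t (single (⟨φ v, phi_mem φ Q v⟩ : ↥(cq φ Q)) 1) else 0) • ch t) y := by
    funext y
    exact cut_tr hB hX hv y
  rw [xs, h1, ip_sum, Finset.sum_eq_single s]
  · rw [ip_smul, ip_ch, if_pos rfl, mul_one]
  · intro t _ hts
    rw [ip_smul, ip_ch, if_neg hts, mul_zero]
  · intro h2
    exact absurd (Finset.mem_univ _) h2

theorem cut_xs {Q : Subgroup T} {c : MonoidAlgebra k A}
    {BH : MonoidAlgebra (OW p k) ↥(cq φ Q)} (hB : CenL (dnr (cq φ Q) c) BH)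
    {X : A → KW p k} (hX : X ∈ V (KW p k) A) {v : T} (hv : v ∈ Q) (y : ↥(cq φ Q)) :
    cut (cq φ Q) BH X (φ v * y) = ∑ s, xs φ (cq φ Q) BH X s v * ch s y := by
  classical
  rw [cut_tr hB hX hv]
  exact Finset.sum_congr rfl fun s _ => by rw [xs_eq hB hX hv]

end YJAux

open YJAux

theorem xs_vir {H : Subgroup A} {Q : Subgroup T} (hH : cq φ Q = H) {c : MonoidAlgebra k A} {BH : MonoidAlgebra (OW p k) ↥H}
    (hB : CenL (dnr H c) BH) {X : A → KW p k} (hX : X ∈ V (KW p k) A) (s : Ir (KW p k) ↥H) :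
    (fun v : ↥Q => xs φ H BH X s (v : T)) ∈ vir ↥Q (KW p k) := by
  classical
  subst hH
  by_cases hs : chO s BH = 0
  · have h1 : (fun v : ↥Q => xs φ (cq φ Q) BH X s (v : T)) = 0 := by
      funext v
      rw [xs_eq hB hX v.2, if_neg (not_not.2 hs)]
      rfl
    rw [h1]
    exact (vir ↥Q (KW p k)).zero_mem
  · obtain ⟨m, hm⟩ := (V_expand (on_mem (cq φ Q) hX)).1 s
    let l : ↥Q →* (KW p k)ˣ := MonoidHom.toHomUnits
      { toFun := fun v => om s (single (⟨φ (v : T), phi_mem φ Q (v : T)⟩ : ↥(cq φ Q)) 1)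
        map_one' := by
          have h1 : (⟨φ ((1 : ↥Q) : T), phi_mem φ Q _⟩ : ↥(cq φ Q)) = 1 :=
            Subtype.ext (map_one φ)
          change om s (single (⟨φ ((1 : ↥Q) : T), phi_mem φ Q _⟩ : ↥(cq φ Q)) 1) = 1
          rw [h1, ← one_def, om_one]
        map_mul' := fun v w => by
          have h1 : (⟨φ ((v * w : ↥Q) : T), phi_mem φ Q _⟩ : ↥(cq φ Q))
              = ⟨φ (v : T), phi_mem φ Q _⟩ * ⟨φ (w : T), phi_mem φ Q _⟩ :=
            Subtype.ext (map_mul φ (v : T) (w : T))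
          rw [h1, ← om_mul s (single_central (phi_cen v.2)), single_mul_single, one_mul] }
    have h1 : (fun v : ↥Q => xs φ (cq φ Q) BH X s (v : T)) = m • chr l := by
      funext v
      rw [xs_eq hB hX v.2, if_pos hs, hm, Pi.smul_apply, zsmul_eq_mul]
      rfl
    rw [h1]
    exact (vir ↥Q (KW p k)).zsmul_mem (chr_mem l) m

theorem loc_id (h : Stp φ b D f i R G) {u : T} (hu : u ∉ R) {c : MonoidAlgebra k A}
    (hc : LbH (cq φ (R ⊔ Subgroup.zpowers u)) i c)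
    {BH : MonoidAlgebra (OW p k) ↥(cq φ (R ⊔ Subgroup.zpowers u))}
    (hB : CenL (dnr (cq φ (R ⊔ Subgroup.zpowers u)) c) BH)
    {N : Ir (KW p k) ↥(cq φ (R ⊔ Subgroup.zpowers u)) →
      Ir (KW p k) ↥(cq φ (R ⊔ Subgroup.zpowers u)) → ℤ}
    (hN0 : ∀ s t, chO s BH = 0 ∨ chO t BH = 0 → N s t = 0)
    (hN : ∀ s t, chO s BH ≠ 0 → chO t BH ≠ 0 →
      (Fintype.card T : KW p k) * (eQ φ D f (R ⊔ Subgroup.zpowers u) : KW p k)
          * ip (rg p (ch s)) (ch t)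
        = ip (ch s) (on (cq φ (R ⊔ Subgroup.zpowers u)) (G (R ⊔ Subgroup.zpowers u)))
            * ip (ch t) (on (cq φ (R ⊔ Subgroup.zpowers u)) (G (R ⊔ Subgroup.zpowers u)))
          + (p : KW p k) * (N s t : KW p k))
    {X Y : A → KW p k} (hX : X ∈ V (KW p k) A) (hY : Y ∈ V (KW p k) A) :
    (Fintype.card T : KW p k) * (eQ φ D f (R ⊔ Subgroup.zpowers u) : KW p k) *
        Wf p (cq φ (R ⊔ Subgroup.zpowers u)) (cut _ BH X) (cut _ BH Y) (φ u)
      = rwv φ G R X u * rwv φ G R Y u⁻¹ + (p : KW p k) *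
        ∑ s, ∑ t, (N s t : KW p k) * (xs φ _ BH X s u * xs φ _ BH Y t u⁻¹) := by
  classical
  have huQ : u ∈ R ⊔ Subgroup.zpowers u :=
    (le_sup_right : Subgroup.zpowers u ≤ _) (Subgroup.mem_zpowers u)
  have huQ' : u⁻¹ ∈ R ⊔ Subgroup.zpowers u := Subgroup.inv_mem _ huQ
  have hui : u⁻¹ ∉ R := fun h1 => hu (by simpa using R.inv_mem h1)
  have hQi : R ⊔ Subgroup.zpowers u⁻¹ = R ⊔ Subgroup.zpowers u := by
    rw [Subgroup.zpowers_inv]
  have hxs0 : ∀ (Z : A → KW p k), Z ∈ V (KW p k) A → ∀ v ∈ R ⊔ Subgroup.zpowers u,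
      ∀ s, chO s BH = 0 → xs φ (cq φ (R ⊔ Subgroup.zpowers u)) BH Z s v = 0 := by
    intro Z hZ v hv s hs
    rw [xs_eq hB hZ hv, if_neg (not_not.2 hs)]
  -- the rows
  have hrow : ∀ (Z : A → KW p k), Z ∈ V (KW p k) A → ∀ v ∈ R ⊔ Subgroup.zpowers u,
      ip (on (cq φ (R ⊔ Subgroup.zpowers u))
          fun y => cut (cq φ (R ⊔ Subgroup.zpowers u)) BH Z (φ v * y))
        (on (cq φ (R ⊔ Subgroup.zpowers u)) (G (R ⊔ Subgroup.zpowers u)))
      = ∑ s, xs φ _ BH Z s v *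
        ip (ch s) (on (cq φ (R ⊔ Subgroup.zpowers u)) (G (R ⊔ Subgroup.zpowers u))) := by
    intro Z hZ v hv
    have h1 : (on (cq φ (R ⊔ Subgroup.zpowers u))
          fun y => cut (cq φ (R ⊔ Subgroup.zpowers u)) BH Z (φ v * y))
        = fun y => ∑ s, (xs φ _ BH Z s v • ch s) y := by
      funext y
      exact cut_xs hB hZ hv y
    rw [h1, ip_sum]
    exact Finset.sum_congr rfl fun s _ => ip_smul _ _ _
  have hr1 : rwv φ G R X u = ∑ s, xs φ _ BH X s u *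
      ip (ch s) (on (cq φ (R ⊔ Subgroup.zpowers u)) (G (R ⊔ Subgroup.zpowers u))) := by
    rw [rwv_cut h hu rfl hc hB hX, hrow X hX u huQ]
  have hr2 : rwv φ G R Y u⁻¹ = ∑ s, xs φ _ BH Y s u⁻¹ *
      ip (ch s) (on (cq φ (R ⊔ Subgroup.zpowers u)) (G (R ⊔ Subgroup.zpowers u))) := by
    have hH : cq φ (R ⊔ Subgroup.zpowers u⁻¹) = cq φ (R ⊔ Subgroup.zpowers u) := by rw [hQi]
    rw [rwv_cut h hui hH hc hB hY, hQi, hrow Y hY u⁻¹ huQ']
  -- the form
  have hW : Wf p (cq φ (R ⊔ Subgroup.zpowers u)) (cut _ BH X) (cut _ BH Y) (φ u)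
      = ∑ s, ∑ t, xs φ _ BH X s u * xs φ _ BH Y t u⁻¹ * ip (rg p (ch s)) (ch t) := by
    have h1 : ∀ y : ↥(cq φ (R ⊔ Subgroup.zpowers u)),
        (if Preg p y then cut (cq φ (R ⊔ Subgroup.zpowers u)) BH X (φ u * y) *
          cut (cq φ (R ⊔ Subgroup.zpowers u)) BH Y (φ u * y)⁻¹ else 0)
        = ∑ s, ∑ t, xs φ _ BH X s u * xs φ _ BH Y t u⁻¹ * (rg p (ch s) y * ch t y⁻¹) := by
      intro y
      by_cases hy : Preg p y
      · have h2 : (φ u * (y : A))⁻¹ = φ u⁻¹ * ((y⁻¹ : ↥(cq φ (R ⊔ Subgroup.zpowers u))) : A) := by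
          have h3 : (y : A) * φ u = φ u * y :=
            (Subgroup.mem_centralizer_iff.1 y.2 (φ u) ⟨u, huQ, rfl⟩).symm
          rw [← h3, mul_inv_rev, map_inv, Subgroup.coe_inv]
        rw [if_pos hy, h2, cut_xs hB hX huQ, cut_xs hB hY huQ', Finset.sum_mul_sum]
        refine Finset.sum_congr rfl fun s _ => Finset.sum_congr rfl fun t _ => ?_
        rw [rg_of hy]
        ring
      · rw [if_neg hy]
        symm
        refine Finset.sum_eq_zero fun s _ => Finset.sum_eq_zero fun t _ => ?_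
        rw [rg_not hy, zero_mul, mul_zero]
    rw [Wf, sm_congr h1, sm_sum, Finset.mul_sum]
    refine Finset.sum_congr rfl fun s _ => ?_
    rw [sm_sum, Finset.mul_sum]
    refine Finset.sum_congr rfl fun t _ => ?_
    rw [sm_mul, ip]
    ring
  rw [hW, hr1, hr2, Finset.sum_mul_sum, Finset.mul_sum, Finset.mul_sum,
    ← Finset.sum_add_distrib]
  refine Finset.sum_congr rfl fun s _ => ?_
  rw [Finset.mul_sum, Finset.mul_sum, ← Finset.sum_add_distrib]
  refine Finset.sum_congr rfl fun t _ => ?_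
  by_cases hs : chO s BH = 0
  · rw [hxs0 X hX u huQ s hs]
    simp
  by_cases ht : chO t BH = 0
  · rw [hxs0 Y hY u⁻¹ huQ' t ht]
    simp
  calc (Fintype.card T : KW p k) * (eQ φ D f (R ⊔ Subgroup.zpowers u) : KW p k) *
        (xs φ _ BH X s u * xs φ _ BH Y t u⁻¹ * ip (rg p (ch s)) (ch t))
      = xs φ _ BH X s u * xs φ _ BH Y t u⁻¹ * ((Fintype.card T : KW p k) *
        (eQ φ D f (R ⊔ Subgroup.zpowers u) : KW p k) * ip (rg p (ch s)) (ch t)) := by ring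
    _ = _ := by rw [hN s t hs ht]; ring

end

end Pool.Agent.Lib.P0c8ca5.Ex
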