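import Pool.Agent.Lib.P0c8ca5Ex.R2

/-!
# The number of rows

`E` is a group of automorphisms of the finite abelian group `D` acting freely on `D \ {1}`, `g i` are `E`-invariant (off 1)
virtual characters which are orthogonal: `∑ i, g i u * g i v⁻¹ = |D|` if `v ∈ E u`, and 0 otherwise, for `u, v ≠ 1`.
If no `g i` vanishes on `D \ {1}` then there are at most `(|D| - 1) / |E| + |E|` of them.
-/

set_option autoImplicit false
set_option linter.unusedSectionVars false

namespace Pool.Agent.Lib.P0c8ca5.Ex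

/-- counting: `Λ` a finite set with sets `orb l` of at least `e` elements, `b i` integer functions -/
theorem count_aux {I Λ : Type*} [Fintype I] [Fintype Λ] [DecidableEq Λ] [Nonempty Λ] (e : ℕ)
    (he : e ≤ Fintype.card Λ) (b : I → Λ → ℤ) (orb : Λ → Finset Λ)
    (hself : ∀ l, l ∈ orb l) (horb : ∀ l, (orb l).card = e) (hb : ∀ i l, ∀ m ∈ orb l, b i m = b i l)
    (hg : ∀ l m, ∑ i, b i l * b i m = (if m ∈ orb l then 1 else 0) + (e : ℤ))
    (hne : ∀ i, ∃ l, b i l ≠ 0) :
    Fintype.card I * e ≤ Fintype.card Λ + e ^ 2 := by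
  classical
  set L : ℤ := (Fintype.card Λ : ℤ) with hL
  have hLpos : 0 < L := by
    rw [hL]
    exact_mod_cast Fintype.card_pos
  have heL : (e : ℤ) ≤ L := by
    rw [hL]
    exact_mod_cast he
  -- the nonconstant and the constant rows
  set NC : Finset I := Finset.univ.filter (fun i => ∃ l m, b i l ≠ b i m) with hNC
  set CC : Finset I := Finset.univ.filter (fun i => ¬ ∃ l m, b i l ≠ b i m) with hCC
  have hcard : Fintype.card I = NC.card + CC.card := by
    rw [hNC, hCC, Finset.card_filter_add_card_filter_not, Finset.card_univ]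
  have hsplit : ∀ F : I → ℤ, ∑ i, F i = ∑ i ∈ NC, F i + ∑ i ∈ CC, F i := by
    intro F
    rw [hNC, hCC, Finset.sum_filter_add_sum_filter_not]
  -- pairs
  have hB : ∑ i, ∑ l, ∑ m, (b i l - b i m) ^ 2 = 2 * L * (L - e) := by
    have h1 : ∀ i, ∑ l, ∑ m, (b i l - b i m) ^ 2 =
        ∑ l, ∑ m, (b i l * b i l + b i m * b i m - 2 * (b i l * b i m)) := by
      intro i
      exact Finset.sum_congr rfl fun l _ => Finset.sum_congr rfl fun m _ => by ring
    rw [Finset.sum_congr rfl fun i _ => h1 i, Finset.sum_comm]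
    have h2 : ∀ l, ∑ i, ∑ m, (b i l * b i l + b i m * b i m - 2 * (b i l * b i m)) =
        ∑ m, (2 - 2 * (if m ∈ orb l then 1 else 0)) := by
      intro l
      rw [Finset.sum_comm]
      refine Finset.sum_congr rfl fun m _ => ?_
      rw [Finset.sum_sub_distrib, Finset.sum_add_distrib, ← Finset.mul_sum, hg, hg, hg]
      simp only [hself, if_true]
      ring
    rw [Finset.sum_congr rfl fun l _ => h2 l]
    have h3 : ∀ l : Λ, ∑ m, (2 - 2 * (if m ∈ orb l then (1 : ℤ) else 0)) = 2 * (L - e) := by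
      intro l
      rw [Finset.sum_sub_distrib, ← Finset.mul_sum]
      simp only [Finset.sum_const, Finset.card_univ, nsmul_eq_mul, Finset.sum_ite_mem,
        Finset.univ_inter, horb, mul_one]
      rw [hL]
      ring
    rw [Finset.sum_congr rfl fun l _ => h3 l]
    simp only [Finset.sum_const, Finset.card_univ, nsmul_eq_mul]
    rw [hL]
    ring
  -- a level set of a nonconstant row
  have hnc : ∀ i ∈ NC, 2 * (e : ℤ) * (L - e) ≤ ∑ l, ∑ m, (b i l - b i m) ^ 2 := by
    intro i hi
    rw [hNC, Finset.mem_filter] at hi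
    obtain ⟨_, l0, m0, hlm⟩ := hi
    set S : Finset Λ := Finset.univ.filter (fun l => b i l = b i l0) with hS
    have hS1 : e ≤ S.card := by
      rw [← horb l0]
      refine Finset.card_le_card fun m hm => ?_
      rw [hS, Finset.mem_filter]
      exact ⟨Finset.mem_univ _, hb i l0 m hm⟩
    have hS2 : e ≤ (Sᶜ).card := by
      rw [← horb m0]
      refine Finset.card_le_card fun m hm => ?_
      rw [Finset.mem_compl, hS, Finset.mem_filter]
      rintro ⟨_, h⟩
      rw [hb i m0 m hm] at h
      exact hlm h.symm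
    have hS3 : (S.card : ℤ) + (Sᶜ).card = L := by
      rw [hL]
      exact_mod_cast Finset.card_add_card_compl S
    have h1 : ∀ l m, (if (l ∈ S ↔ m ∈ S) then 0 else 1) ≤ (b i l - b i m) ^ 2 := by
      intro l m
      split_ifs with h
      · positivity
      · have h2 : b i l - b i m ≠ 0 := by
          intro h3
          apply h
          rw [hS, Finset.mem_filter, Finset.mem_filter]
          have h4 : b i l = b i m := by linarith
          rw [h4]
          simp
        have : 0 < (b i l - b i m) ^ 2 := by positivity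
        linarith
    have h2 : ∑ l, ∑ m, (if (l ∈ S ↔ m ∈ S) then (0 : ℤ) else 1) = 2 * S.card * (Sᶜ).card := by
      have h3 : ∀ l, ∑ m, (if (l ∈ S ↔ m ∈ S) then (0 : ℤ) else 1) =
          if l ∈ S then ((Sᶜ).card : ℤ) else S.card := by
        intro l
        split_ifs with hl
        · simp only [hl, true_iff]
          rw [Finset.card_eq_sum_ones, Nat.cast_sum, ← Finset.sum_filter_add_sum_filter_not
            Finset.univ (fun m => m ∈ S)]
          have h4 : ∑ m with m ∈ S, (if m ∈ S then (0 : ℤ) else 1) = 0 :=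
            Finset.sum_eq_zero fun m hm => by
              rw [Finset.mem_filter] at hm
              rw [if_pos hm.2]
          rw [h4, zero_add]
          refine Finset.sum_congr ?_ fun m hm => ?_
          · ext m
            simp
          · rw [Finset.mem_compl] at hm
            rw [if_neg hm]
            simp
        · simp only [hl, false_iff, ite_not]
          rw [Finset.sum_ite_mem, Finset.univ_inter]
          simp
      rw [Finset.sum_congr rfl fun l _ => h3 l, Finset.sum_ite]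
      simp only [Finset.sum_const, nsmul_eq_mul]
      have h5 : (Finset.univ.filter (· ∈ S)) = S := by ext; simp
      have h6 : (Finset.univ.filter (· ∉ S)) = Sᶜ := by ext; simp
      rw [h5, h6]
      ring
    have h7 : (2 : ℤ) * S.card * (Sᶜ).card ≤ ∑ l, ∑ m, (b i l - b i m) ^ 2 := by
      rw [← h2]
      exact Finset.sum_le_sum fun l _ => Finset.sum_le_sum fun m _ => h1 l m
    refine le_trans ?_ h7
    have h8 : (e : ℤ) ≤ S.card := by exact_mod_cast hS1
    have h9 : (e : ℤ) ≤ (Sᶜ).card := by exact_mod_cast hS2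
    have h10 : (Sᶜ.card : ℤ) = L - S.card := by linarith
    rw [h10] at h9 ⊢
    nlinarith
  -- few nonconstant rows
  have hN : (NC.card : ℤ) * e * (L - e) ≤ L * (L - e) := by
    have h1 : (NC.card : ℤ) * (2 * e * (L - e)) ≤ ∑ i ∈ NC, ∑ l, ∑ m, (b i l - b i m) ^ 2 := by
      have := Finset.card_nsmul_le_sum NC (fun i => ∑ l, ∑ m, (b i l - b i m) ^ 2) _ hnc
      simpa using this
    have h2 : ∑ i ∈ NC, ∑ l, ∑ m, (b i l - b i m) ^ 2 ≤ 2 * L * (L - e) := by
      rw [← hB, hsplit]
      have : 0 ≤ ∑ i ∈ CC, ∑ l, ∑ m, (b i l - b i m) ^ 2 :=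
        Finset.sum_nonneg fun i _ => Finset.sum_nonneg fun l _ => Finset.sum_nonneg fun m _ =>
          sq_nonneg _
      linarith
    linarith
  -- norms
  have hA : ∑ i, ∑ l, b i l * b i l = L * (1 + e) := by
    rw [Finset.sum_comm]
    have h1 : ∀ l, ∑ i, b i l * b i l = 1 + (e : ℤ) := by
      intro l
      rw [hg, if_pos (hself l)]
    rw [Finset.sum_congr rfl fun l _ => h1 l]
    simp only [Finset.sum_const, Finset.card_univ, nsmul_eq_mul]
    rw [hL]
  have hA1 : ∀ i ∈ NC, (e : ℤ) ≤ ∑ l, b i l * b i l := by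
    intro i _
    obtain ⟨l, hl⟩ := hne i
    have h1 : (e : ℤ) ≤ ∑ m ∈ orb l, b i m * b i m := by
      have h2 : ∀ m ∈ orb l, (1 : ℤ) ≤ b i m * b i m := by
        intro m hm
        rw [hb i l m hm]
        have : 0 < b i l * b i l := mul_self_pos.2 hl
        linarith
      have := Finset.card_nsmul_le_sum (orb l) (fun m => b i m * b i m) 1 h2
      rw [horb] at this
      simpa using this
    refine h1.trans (Finset.sum_le_sum_of_subset_of_nonneg (Finset.subset_univ _) ?_)
    intro m _ _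
    exact mul_self_nonneg _
  have hA2 : ∀ i ∈ CC, L ≤ ∑ l, b i l * b i l := by
    intro i hi
    rw [hCC, Finset.mem_filter] at hi
    have h0 := hi.2
    push Not at h0
    obtain ⟨l, hl⟩ := hne i
    have h1 : ∀ m ∈ (Finset.univ : Finset Λ), (1 : ℤ) ≤ b i m * b i m := by
      intro m _
      rw [h0 m l]
      have : 0 < b i l * b i l := mul_self_pos.2 hl
      linarith
    have := Finset.card_nsmul_le_sum Finset.univ (fun m => b i m * b i m) 1 h1
    rw [Finset.card_univ] at this
    rw [hL]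
    simpa using this
  have hC : (CC.card : ℤ) * L + NC.card * e ≤ L * (1 + e) := by
    have h1 : (NC.card : ℤ) * e ≤ ∑ i ∈ NC, ∑ l, b i l * b i l := by
      have := Finset.card_nsmul_le_sum NC (fun i => ∑ l, b i l * b i l) _ hA1
      simpa using this
    have h2 : (CC.card : ℤ) * L ≤ ∑ i ∈ CC, ∑ l, b i l * b i l := by
      have := Finset.card_nsmul_le_sum CC (fun i => ∑ l, b i l * b i l) _ hA2
      simpa using this
    rw [← hA, hsplit]
    linarith
  -- conclusion
  have key : ((NC.card : ℤ) + CC.card) * e ≤ L + (e : ℤ) ^ 2 := by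
    have he0 : (0 : ℤ) ≤ e := Int.natCast_nonneg e
    have hN0 : (0 : ℤ) ≤ NC.card := Int.natCast_nonneg _
    rcases eq_or_lt_of_le heL with h | h
    · -- `L = e`
      rw [← h] at hC ⊢
      have he1 : (0 : ℤ) < e := by rw [h]; exact hLpos
      nlinarith
    · have h1 : (NC.card : ℤ) * e ≤ L := by
        have h2 : (0 : ℤ) < L - e := by linarith
        exact le_of_mul_le_mul_right hN h2
      have h3 : (((NC.card : ℤ) + CC.card) * e) * L ≤ (L + (e : ℤ) ^ 2) * L := by
        have h4 : (CC.card : ℤ) * L * e ≤ (L * (1 + e) - NC.card * e) * e :=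
          mul_le_mul_of_nonneg_right (by linarith) he0
        have h5 : (NC.card : ℤ) * e * (L - e) ≤ L * (L - e) := hN
        nlinarith
      exact le_of_mul_le_mul_right h3 hLpos
  rw [hcard]
  rw [hL] at key
  exact_mod_cast key

section

variable {D : Type*} [CommGroup D] [Fintype D] {K : Type*} [Field K] [CharZero K]
  [HasEnoughRootsOfUnity K (Monoid.exponent D)]

/-- the dual action -/
def dl (l : D →* Kˣ) (φ : MulAut D) : D →* Kˣ := l.comp (φ : D ≃* D).toMonoidHom

omit [Fintype D] [CharZero K] [HasEnoughRootsOfUnity K (Monoid.exponent D)] in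
theorem chr_dl (l : D →* Kˣ) (φ : MulAut D) (u : D) : chr (dl l φ) u = chr l (φ u) := rfl

omit [Fintype D] [CharZero K] [HasEnoughRootsOfUnity K (Monoid.exponent D)] in
theorem dl_mul (l : D →* Kˣ) (φ ψ : MulAut D) : dl l (φ * ψ) = dl (dl l φ) ψ := rfl

omit [Fintype D] [CharZero K] [HasEnoughRootsOfUnity K (Monoid.exponent D)] in
theorem dl_one (l : D →* Kˣ) : dl l 1 = l := rfl

omit [Fintype D] [CharZero K] [HasEnoughRootsOfUnity K (Monoid.exponent D)] in
theorem dl_ne (l : D →* Kˣ) (φ : MulAut D) (hl : l ≠ 1) : dl l φ ≠ 1 := by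
  intro h
  apply hl
  ext u
  have h1 := DFunLike.congr_fun h (φ⁻¹ u)
  have h2 : dl l φ (φ⁻¹ u) = l (φ (φ⁻¹ u)) := rfl
  rw [h2, MulAut.apply_inv_self] at h1
  rw [h1]
  rfl

omit [CharZero K] [HasEnoughRootsOfUnity K (Monoid.exponent D)] in
/-- freeness on the dual group -/
theorem dl_free {E : Subgroup (MulAut D)} (hE : ∀ φ ∈ E, ∀ u : D, u ≠ 1 → φ u = u → φ = 1)
    {φ : MulAut D} (hφ : φ ∈ E) {l : D →* Kˣ} (hl : l ≠ 1) (h : dl l φ = l) : φ = 1 := by
  by_contra hφ1
  have hinj : Function.Injective (fun u : D => u⁻¹ * φ u) := by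
    intro u v huv
    have h1 : u⁻¹ * φ u = v⁻¹ * φ v := huv
    have h2 : φ (u * v⁻¹) = u * v⁻¹ := by
      rw [map_mul, map_inv]
      have h3 : φ u = u * (v⁻¹ * φ v) := by rw [← h1]; group
      rw [h3]
      group
    by_contra hne
    exact hφ1 (hE φ hφ _ (fun h3 => hne (mul_inv_eq_one.1 h3)) h2)
  have hsurj := Finite.surjective_of_injective hinj
  apply hl
  ext w
  obtain ⟨u, hu⟩ := hsurj w
  have h1 := DFunLike.congr_fun h u
  have h2 : dl l φ u = l (φ u) := rfl
  have h3 : l w = 1 := by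
    rw [← hu]
    change l (u⁻¹ * φ u) = 1
    rw [map_mul, map_inv, ← h2, h1, inv_mul_cancel]
  rw [h3]
  rfl

/-- the differences of multiplicities -/
noncomputable def df (g : D → K) (l : D →* Kˣ) : K := mlt g l - mlt g 1

omit [CharZero K] [HasEnoughRootsOfUnity K (Monoid.exponent D)] in
theorem df_eq (g : D → K) (l : D →* Kˣ) :
    df g l = (Fintype.card D : K)⁻¹ * ∑ u, g u * (chr l u⁻¹ - 1) := by
  unfold df mlt
  rw [← mul_sub, ← Finset.sum_sub_distrib]
  congr 1
  refine Finset.sum_congr rfl fun u _ => ?_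
  have h1 : chr (1 : D →* Kˣ) u⁻¹ = 1 := by simp [chr]
  rw [h1]
  ring

omit [CharZero K] [HasEnoughRootsOfUnity K (Monoid.exponent D)] in
theorem df_eq' (g : D → K) (l : D →* Kˣ) :
    df g l = (Fintype.card D : K)⁻¹ * ∑ u, g u⁻¹ * (chr l u - 1) := by
  rw [df_eq, ← Equiv.sum_comp (Equiv.inv D)]
  simp only [Equiv.inv_apply, inv_inv]

omit [CharZero K] [HasEnoughRootsOfUnity K (Monoid.exponent D)] in
theorem df_dl (g : D → K) (l : D →* Kˣ) (φ : MulAut D) (h : ∀ u : D, u ≠ 1 → g (φ u) = g u) :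
    df g (dl l φ) = df g l := by
  rw [df_eq, df_eq]
  congr 1
  rw [← Equiv.sum_comp (φ : D ≃* D).toEquiv (fun u => g u * (chr l u⁻¹ - 1))]
  refine Finset.sum_congr rfl fun u _ => ?_
  change g u * (chr (dl l φ) u⁻¹ - 1) = g (φ u) * (chr l (φ u)⁻¹ - 1)
  rw [chr_dl, ← map_inv]
  by_cases hu : u = 1
  · rw [hu]
    simp [chr]
  · rw [h u hu]

theorem df_ne {g : D → K} {u : D} (hu : u ≠ 1) (hg : g u ≠ 0) : ∃ l : D →* Kˣ, l ≠ 1 ∧ df g l ≠ 0 := by
  by_contra h
  push Not at h
  have h1 : ∀ l : D →* Kˣ, mlt g l = mlt g 1 := by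
    intro l
    by_cases hl : l = 1
    · rw [hl]
    · exact sub_eq_zero.1 (h l hl)
  apply hg
  rw [eq_sum_mlt g u, Finset.sum_congr rfl fun l _ => by rw [h1 l], ← Finset.mul_sum, sum_chr' u hu,
    mul_zero]

/-- **the number of rows** -/
theorem count_rows (E : Subgroup (MulAut D)) (hE : ∀ φ ∈ E, ∀ u : D, u ≠ 1 → φ u = u → φ = 1)
    {I : Type*} [Fintype I] (g : I → D → K) (hg : ∀ i, g i ∈ vir D K)
    (hinv : ∀ i, ∀ φ ∈ E, ∀ u : D, u ≠ 1 → g i (φ u) = g i u)
    (horth : ∀ u v : D, u ≠ 1 → v ≠ 1 → (∃ φ ∈ E, v = φ u) →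
      ∑ i, g i u * g i v⁻¹ = (Fintype.card D : K))
    (horth0 : ∀ u v : D, u ≠ 1 → v ≠ 1 → (¬ ∃ φ ∈ E, v = φ u) → ∑ i, g i u * g i v⁻¹ = 0)
    (hne : ∀ i, ∃ u : D, u ≠ 1 ∧ g i u ≠ 0) (hD : 1 < Fintype.card D) :
    Fintype.card I * Nat.card E ≤ (Fintype.card D - 1) + (Nat.card E) ^ 2 := by
  classical
  have : Fintype (MulAut D) := Fintype.ofFinite _
  set EF : Finset (MulAut D) := Finset.univ.filter (· ∈ E) with hEF
  have hmem : ∀ φ, φ ∈ EF ↔ φ ∈ E := by intro φ; simp [hEF]
  have hcard : Nat.card E = EF.card := by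
    rw [Nat.card_eq_fintype_card, Fintype.card_subtype]
  -- the integers
  choose a ha using fun i l => (mem_vir_iff (g := g i)).1 (hg i) l
  have hb : ∀ i l, ((a i l - a i 1 : ℤ) : K) = df (g i) l := by
    intro i l
    unfold df
    rw [ha, ha]
    push_cast
    rfl
  -- the Gram matrix
  have gram : ∀ l m : D →* Kˣ, l ≠ 1 → m ≠ 1 → ∑ i, df (g i) l * df (g i) m =
      ∑ φ ∈ EF, ((if dl m φ = l then 1 else 0) + 1) := by
    intro l m hl hm
    set c : K := (Fintype.card D : K)⁻¹ with hc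
    have h1 : ∑ i, df (g i) l * df (g i) m =
        c * c * ∑ u, ∑ v, (chr l u⁻¹ - 1) * (chr m v - 1) * ∑ i, g i u * g i v⁻¹ := by
      have h2 : ∀ i, df (g i) l * df (g i) m =
          c * c * ∑ u, ∑ v, (chr l u⁻¹ - 1) * (chr m v - 1) * (g i u * g i v⁻¹) := by
        intro i
        rw [df_eq, df_eq', mul_mul_mul_comm, Finset.sum_mul_sum]
        congr 1
        refine Finset.sum_congr rfl fun u _ => Finset.sum_congr rfl fun v _ => ?_
        ring
      rw [Finset.sum_congr rfl fun i _ => h2 i, ← Finset.mul_sum, Finset.sum_comm]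
      congr 1
      refine Finset.sum_congr rfl fun u _ => ?_
      rw [Finset.sum_comm]
      refine Finset.sum_congr rfl fun v _ => ?_
      rw [Finset.mul_sum]
    have h3 : ∀ u : D, ∑ v, (chr l u⁻¹ - 1) * (chr m v - 1) * ∑ i, g i u * g i v⁻¹ =
        (Fintype.card D : K) * ∑ φ ∈ EF, (chr l u⁻¹ - 1) * (chr (dl m φ) u - 1) := by
      intro u
      by_cases hu : u = 1
      · have h4 : chr l u⁻¹ - 1 = 0 := by rw [hu]; simp [chr]
        rw [Finset.sum_eq_zero (fun v _ => by rw [h4]; ring),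
          Finset.sum_eq_zero (fun v _ => by rw [h4]; ring), mul_zero]
      · have h5 : ∑ φ ∈ EF, (chr l u⁻¹ - 1) * (chr (dl m φ) u - 1) =
            ∑ v ∈ EF.image (fun φ => φ u), (chr l u⁻¹ - 1) * (chr m v - 1) := by
          rw [Finset.sum_image]
          · exact Finset.sum_congr rfl fun φ _ => by rw [chr_dl]
          · intro φ hφ ψ hψ h6
            have h7 : φ u = ψ u := h6
            have h8 : (ψ⁻¹ * φ) u = u := by
              rw [MulAut.mul_apply, h7, MulAut.inv_apply_self]
            have h9 := hE (ψ⁻¹ * φ) (E.mul_mem (E.inv_mem ((hmem ψ).1 hψ)) ((hmem φ).1 hφ)) u hu h8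
            exact (inv_mul_eq_one.1 h9).symm
        rw [h5, Finset.mul_sum]
        rw [← Finset.sum_subset (Finset.subset_univ (EF.image (fun φ => φ u)))]
        · refine Finset.sum_congr rfl fun v hv => ?_
          rw [Finset.mem_image] at hv
          obtain ⟨φ, hφ, rfl⟩ := hv
          rw [horth u (φ u) hu (by
            intro h
            exact hu ((MulEquiv.map_eq_one_iff φ).1 h)) ⟨φ, (hmem φ).1 hφ, rfl⟩]
          ring
        · intro v _ hv
          by_cases hv1 : v = 1
          · rw [hv1]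
            simp [chr]
          · rw [horth0 u v hu hv1, mul_zero]
            rintro ⟨φ, hφ, rfl⟩
            exact hv (Finset.mem_image.2 ⟨φ, (hmem φ).2 hφ, rfl⟩)
    rw [h1, Finset.sum_congr rfl fun u _ => h3 u, ← Finset.mul_sum, Finset.sum_comm]
    have h10 : ∀ φ ∈ EF, ∑ u, (chr l u⁻¹ - 1) * (chr (dl m φ) u - 1) =
        (Fintype.card D : K) * ((if dl m φ = l then 1 else 0) + 1) := by
      intro φ _
      have h11 : ∀ u, (chr l u⁻¹ - 1) * (chr (dl m φ) u - 1) =
          chr (dl m φ) u * chr l u⁻¹ - chr l⁻¹ u - chr (dl m φ) u + 1 := by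
        intro u
        rw [chr_inv]
        ring
      have h12 : ∑ u, chr (dl m φ) u * chr l u⁻¹ =
          (Fintype.card D : K) * (if dl m φ = l then 1 else 0) := by
        rw [← mlt_chr (dl m φ) l]
        unfold mlt
        rw [← mul_assoc, mul_inv_cancel₀ card_ne, one_mul]
      have h13 : (l⁻¹ : D →* Kˣ) ≠ 1 := by
        intro h
        apply hl
        ext u
        have h20 := DFunLike.congr_fun h u
        rw [MonoidHom.inv_apply, MonoidHom.one_apply, inv_eq_one] at h20
        rw [h20]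
        rfl
      rw [Finset.sum_congr rfl fun u _ => h11 u, Finset.sum_add_distrib, Finset.sum_sub_distrib,
        Finset.sum_sub_distrib, h12, sum_chr _ h13, sum_chr _ (dl_ne m φ hm)]
      simp only [Finset.sum_const, Finset.card_univ, nsmul_eq_mul]
      ring
    rw [Finset.sum_congr rfl h10, ← Finset.mul_sum]
    have h14 : c * c * ((Fintype.card D : K) * ((Fintype.card D : K) *
        ∑ φ ∈ EF, ((if dl m φ = l then 1 else 0) + 1))) =
        ∑ φ ∈ EF, ((if dl m φ = l then 1 else 0) + 1) := by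
      have h15 : c * (Fintype.card D : K) = 1 := inv_mul_cancel₀ card_ne
      calc _ = (c * (Fintype.card D : K)) * (c * (Fintype.card D : K)) *
          ∑ φ ∈ EF, ((if dl m φ = l then 1 else 0) + 1) := by ring
        _ = _ := by rw [h15]; ring
    exact h14
  -- the index set
  let Λ := {l : D →* Kˣ // l ≠ 1}
  obtain ⟨l0, hl0⟩ : ∃ l : D →* Kˣ, l ≠ 1 := by
    by_contra h
    push Not at h
    have h1 : Fintype.card (D →* Kˣ) ≤ 1 := Fintype.card_le_one_iff.2 fun a b => by rw [h a, h b]
    rw [card_chr] at h1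
    omega
  have : Nonempty Λ := ⟨⟨l0, hl0⟩⟩
  have hΛ : Fintype.card Λ = Fintype.card D - 1 := by
    rw [Fintype.card_subtype_compl, card_chr]
    simp
  let orb : Λ → Finset Λ := fun l => Finset.univ.filter (fun m => ∃ φ ∈ E, dl m.1 φ = l.1)
  have huniq : ∀ (m : D →* Kˣ), m ≠ 1 → ∀ φ ∈ E, ∀ ψ ∈ E, dl m φ = dl m ψ → φ = ψ := by
    intro m hm φ hφ ψ hψ h
    have h1 : dl (dl m ψ) (ψ⁻¹ * φ) = dl m ψ := by
      rw [← dl_mul, mul_inv_cancel_left, h]
    have h2 := dl_free hE (E.mul_mem (E.inv_mem hψ) hφ) (dl_ne m ψ hm) h1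
    exact (inv_mul_eq_one.1 h2).symm
  have horb : ∀ l : Λ, (orb l).card = EF.card := by
    intro l
    symm
    refine Finset.card_bij (fun φ _ => (⟨dl l.1 φ⁻¹, dl_ne _ _ l.2⟩ : Λ)) ?_ ?_ ?_
    · intro φ hφ
      rw [Finset.mem_filter]
      refine ⟨Finset.mem_univ _, φ, (hmem φ).1 hφ, ?_⟩
      change dl (dl l.1 φ⁻¹) φ = l.1
      rw [← dl_mul, inv_mul_cancel, dl_one]
    · intro φ hφ ψ hψ h
      have h1 := congrArg Subtype.val h
      have h2 := huniq l.1 l.2 φ⁻¹ (E.inv_mem ((hmem φ).1 hφ)) ψ⁻¹ (E.inv_mem ((hmem ψ).1 hψ)) h1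
      exact inv_injective h2
    · intro m hm
      rw [Finset.mem_filter] at hm
      obtain ⟨_, φ, hφ, h⟩ := hm
      refine ⟨φ, (hmem φ).2 hφ, ?_⟩
      apply Subtype.ext
      change dl l.1 φ⁻¹ = m.1
      rw [← h, ← dl_mul, mul_inv_cancel, dl_one]
  have hfin := count_aux (I := I) (Λ := Λ) (Nat.card E) (by
      rw [hcard, ← horb ⟨l0, hl0⟩]
      exact Finset.card_le_univ _)
    (fun i l => a i l.1 - a i 1) orb
    (by
      intro l
      rw [Finset.mem_filter]
      exact ⟨Finset.mem_univ _, 1, E.one_mem, rfl⟩)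
    (by
      intro l
      rw [horb, hcard])
    (by
      intro i l m hm
      rw [Finset.mem_filter] at hm
      obtain ⟨_, φ, hφ, h⟩ := hm
      have h1 : ((a i m.1 - a i 1 : ℤ) : K) = ((a i l.1 - a i 1 : ℤ) : K) := by
        rw [hb, hb, ← h, df_dl _ _ _ (hinv i φ hφ)]
      exact_mod_cast h1)
    (by
      intro l m
      have h1 := gram l.1 m.1 l.2 m.2
      have h2 : ∑ φ ∈ EF, ((if dl m.1 φ = l.1 then (1 : K) else 0) + 1) =
          (((if m ∈ orb l then 1 else 0) + (Nat.card E : ℤ) : ℤ) : K) := by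
        rw [Finset.sum_add_distrib]
        have h3 : ∑ φ ∈ EF, (if dl m.1 φ = l.1 then (1 : K) else 0) =
            if m ∈ orb l then 1 else 0 := by
          split_ifs with h4
          · rw [Finset.mem_filter] at h4
            obtain ⟨_, φ, hφ, h5⟩ := h4
            rw [Finset.sum_eq_single φ]
            · rw [if_pos h5]
            · intro ψ hψ hne'
              rw [if_neg]
              intro h6
              exact hne' (huniq m.1 m.2 ψ ((hmem ψ).1 hψ) φ hφ (h6.trans h5.symm))
            · intro h6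
              exact absurd ((hmem φ).2 hφ) h6
          · refine Finset.sum_eq_zero fun φ hφ => ?_
            rw [if_neg]
            intro h5
            exact h4 (Finset.mem_filter.2 ⟨Finset.mem_univ _, φ, (hmem φ).1 hφ, h5⟩)
        rw [h3, hcard]
        simp
      rw [h2] at h1
      have h4 : ((∑ i, (a i l.1 - a i 1) * (a i m.1 - a i 1) : ℤ) : K) =
          (((if m ∈ orb l then 1 else 0) + (Nat.card E : ℤ) : ℤ) : K) := by
        rw [← h1, Int.cast_sum]
        refine Finset.sum_congr rfl fun i _ => ?_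
        rw [Int.cast_mul, hb, hb]
      exact_mod_cast h4)
    (by
      intro i
      obtain ⟨u, hu, hu'⟩ := hne i
      obtain ⟨l, hl, hl'⟩ := df_ne hu hu'
      refine ⟨⟨l, hl⟩, fun h => hl' ?_⟩
      rw [← hb, h]
      simp)
  rw [hΛ] at hfin
  exact hfin

end

end Pool.Agent.Lib.P0c8ca5.Ex
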