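import Mathlib

/-!
# XA: the extension lemma, pure part

* `star4`: four 2-element sets which meet pairwise in exactly one point have a common point;
* `star5`: five integral vectors with pairwise squared distance 2 are `C ± e_i`;
* `ext_pure`: normalisation of the integral vectors `M λ`.
-/

namespace Pool.Agent.Lib.P0c8ca5.Ex

open Finset

theorem star3 {I : Type*} [DecidableEq I] {A B C D : Finset I} (hA : A.card = 2)
    (hB : B.card = 2) (hC : C.card = 2)
    (hAC : (A ∩ C).card = 1) (hBC : (B ∩ C).card = 1) (hAD : (A ∩ D).card = 1)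
    (hBD : (B ∩ D).card = 1) (hCD : (C ∩ D).card = 1) {x : I} (hx : A ∩ B = {x}) : x ∈ C := by
  by_contra hxC
  have hxA : x ∈ A := (mem_inter.1 (hx ▸ mem_singleton_self x)).1
  have hxB : x ∈ B := (mem_inter.1 (hx ▸ mem_singleton_self x)).2
  obtain ⟨y, hy⟩ := card_eq_one.1 hAC
  obtain ⟨z, hz⟩ := card_eq_one.1 hBC
  have hyA : y ∈ A := (mem_inter.1 (hy ▸ mem_singleton_self y)).1
  have hyC : y ∈ C := (mem_inter.1 (hy ▸ mem_singleton_self y)).2
  have hzB : z ∈ B := (mem_inter.1 (hz ▸ mem_singleton_self z)).1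
  have hzC : z ∈ C := (mem_inter.1 (hz ▸ mem_singleton_self z)).2
  have hxy : x ≠ y := fun h => hxC (h ▸ hyC)
  have hxz : x ≠ z := fun h => hxC (h ▸ hzC)
  have hyz : y ≠ z := by
    intro h
    have h1 : y ∈ A ∩ B := mem_inter.2 ⟨hyA, h ▸ hzB⟩
    rw [hx, mem_singleton] at h1
    exact hxy h1.symm
  have eA : A = {x, y} := by
    symm
    apply eq_of_subset_of_card_le
    · intro a ha
      rcases mem_insert.1 ha with rfl | ha
      · exact hxA
      · rw [mem_singleton.1 ha]
        exact hyA
    · rw [hA, card_pair hxy]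
  have eB : B = {x, z} := by
    symm
    apply eq_of_subset_of_card_le
    · intro a ha
      rcases mem_insert.1 ha with rfl | ha
      · exact hxB
      · rw [mem_singleton.1 ha]
        exact hzB
    · rw [hB, card_pair hxz]
  have eC : C = {y, z} := by
    symm
    apply eq_of_subset_of_card_le
    · intro a ha
      rcases mem_insert.1 ha with rfl | ha
      · exact hyC
      · rw [mem_singleton.1 ha]
        exact hzC
    · rw [hC, card_pair hyz]
  -- membership pattern of `x`, `y`, `z` in `D`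
  have key : ∀ a b : I, a ≠ b → (({a, b} : Finset I) ∩ D).card = 1 → (a ∈ D ↔ b ∉ D) := by
    intro a b hab h
    constructor
    · intro ha hb
      have h1 : ({a, b} : Finset I) ∩ D = {a, b} := by
        apply inter_eq_left.2
        intro c hc
        rcases mem_insert.1 hc with rfl | hc
        · exact ha
        · rw [mem_singleton.1 hc]
          exact hb
      rw [h1, card_pair hab] at h
      omega
    · intro hb
      by_contra ha
      have h1 : ({a, b} : Finset I) ∩ D = ∅ := by
        rw [← disjoint_iff_inter_eq_empty, disjoint_left]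
        intro c hc
        rcases mem_insert.1 hc with rfl | hc
        · exact ha
        · rw [mem_singleton.1 hc]
          exact hb
      rw [h1, card_empty] at h
      omega
  rw [eA] at hAD
  rw [eB] at hBD
  rw [eC] at hCD
  have k1 := key x y hxy hAD
  have k2 := key x z hxz hBD
  have k3 := key y z hyz hCD
  tauto

/-- integral vectors of squared length 2 -/
theorem sq_two {I : Type*} [Fintype I] [DecidableEq I] (v : I → ℤ) (h : ∑ i, v i ^ 2 = 2) :
    (∀ i, v i = 0 ∨ v i = 1 ∨ v i = -1) ∧ (univ.filter fun i => v i ≠ 0).card = 2 := by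
  have h1 : ∀ i, v i ^ 2 ≤ 2 := by
    intro i
    rw [← h]
    exact single_le_sum (f := fun i => v i ^ 2) (fun i _ => sq_nonneg _) (mem_univ i)
  have h2 : ∀ i, v i = 0 ∨ v i = 1 ∨ v i = -1 := by
    intro i
    have h3 := h1 i
    have h4 : v i < 2 := by nlinarith
    have h5 : -2 < v i := by nlinarith
    omega
  refine ⟨h2, ?_⟩
  have h3 : ∑ i, v i ^ 2 = ∑ i, (if v i ≠ 0 then 1 else 0 : ℤ) := by
    refine sum_congr rfl fun i _ => ?_
    rcases h2 i with h4 | h4 | h4 <;> simp [h4]
  rw [h3, sum_boole] at h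
  exact_mod_cast h

theorem inner_one {I : Type*} [Fintype I] [DecidableEq I] {v w : I → ℤ}
    (hv : ∑ i, v i ^ 2 = 2) (hw : ∑ i, w i ^ 2 = 2) (h : ∑ i, v i * w i = 1) :
    ((univ.filter fun i => v i ≠ 0) ∩ (univ.filter fun i => w i ≠ 0)).card = 1 ∧
      ∀ i, v i ≠ 0 → w i ≠ 0 → v i = w i := by
  obtain ⟨hv1, hv2⟩ := sq_two v hv
  obtain ⟨hw1, hw2⟩ := sq_two w hw
  set S := (univ.filter fun i => v i ≠ 0) ∩ (univ.filter fun i => w i ≠ 0) with hS
  have hmem : ∀ i, i ∈ S ↔ v i ≠ 0 ∧ w i ≠ 0 := by
    intro i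
    simp [hS]
  have h1 : ∑ i, v i * w i = ∑ i ∈ S, v i * w i := by
    symm
    refine sum_subset (subset_univ S) fun i _ hi => ?_
    rw [hmem] at hi
    by_cases h0 : v i = 0
    · rw [h0, zero_mul]
    · have : w i = 0 := by
        by_contra h2
        exact hi ⟨h0, h2⟩
      rw [this, mul_zero]
  rw [h1] at h
  have h2 : ∀ i ∈ S, v i * w i = 1 ∨ v i * w i = -1 := by
    intro i hi
    obtain ⟨h3, h4⟩ := (hmem i).1 hi
    rcases hv1 i with h5 | h5 | h5 <;> rcases hw1 i with h6 | h6 | h6 <;>
      simp_all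
  have h3 : (2 : ℤ) ∣ ∑ i ∈ S, v i * w i - S.card := by
    have h4 : (S.card : ℤ) = ∑ i ∈ S, 1 := by simp
    rw [h4, ← sum_sub_distrib]
    refine dvd_sum fun i hi => ?_
    rcases h2 i hi with h4 | h4 <;> rw [h4] <;> norm_num
  have hle : S.card ≤ 2 := by
    rw [← hv2]
    exact card_le_card inter_subset_left
  have hcard : S.card = 1 := by
    rw [h] at h3
    omega
  refine ⟨hcard, ?_⟩
  obtain ⟨x, hx⟩ := card_eq_one.1 hcard
  intro i h4 h5
  have h6 : i ∈ S := (hmem i).2 ⟨h4, h5⟩
  rw [hx, mem_singleton] at h6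
  subst h6
  rw [hx, sum_singleton] at h
  rcases hv1 i with h7 | h7 | h7 <;> rcases hw1 i with h8 | h8 | h8 <;> simp_all

/-- five integral vectors with pairwise squared distance 2 -/
theorem star5 {I : Type*} [Fintype I] [DecidableEq I] (M : Fin 5 → I → ℤ)
    (hM : ∀ a b, a ≠ b → ∑ i, (M a i - M b i) ^ 2 = 2) :
    ∃ (C : I → ℤ) (ι : Fin 5 → I) (ε : Fin 5 → ℤ), Function.Injective ι ∧
      (∀ a, ε a = 1 ∨ ε a = -1) ∧ ∀ a i, M a i = C i + if i = ι a then ε a else 0 := by
  classical
  set v : Fin 5 → I → ℤ := fun b i => M b i - M 0 i with hv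
  have hv2 : ∀ b, b ≠ 0 → ∑ i, v b i ^ 2 = 2 := fun b hb => hM b 0 hb
  have hv1 : ∀ b c, b ≠ 0 → c ≠ 0 → b ≠ c → ∑ i, v b i * v c i = 1 := by
    intro b c hb hc hbc
    have h1 := hM b c hbc
    have h2 : ∑ i, (M b i - M c i) ^ 2
        = ∑ i, v b i ^ 2 + ∑ i, v c i ^ 2 - 2 * ∑ i, v b i * v c i := by
      rw [mul_sum, ← sum_add_distrib, ← sum_sub_distrib]
      exact sum_congr rfl fun i _ => by simp only [hv]; ring
    rw [h2, hv2 b hb, hv2 c hc] at h1
    linarith
  set S : Fin 5 → Finset I := fun b => univ.filter fun i => v b i ≠ 0 with hS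
  have hS2 : ∀ b, b ≠ 0 → (S b).card = 2 := fun b hb => (sq_two (v b) (hv2 b hb)).2
  have hSI : ∀ b c, b ≠ 0 → c ≠ 0 → b ≠ c → (S b ∩ S c).card = 1 := fun b c hb hc hbc =>
    (inner_one (hv2 b hb) (hv2 c hc) (hv1 b c hb hc hbc)).1
  have hmem : ∀ b i, i ∈ S b ↔ v b i ≠ 0 := fun b i => by simp [hS]
  obtain ⟨x, hx⟩ := card_eq_one.1 (hSI 1 2 (by decide) (by decide) (by decide))
  have hx3 : x ∈ S 3 := star3 (hS2 1 (by decide)) (hS2 2 (by decide)) (hS2 3 (by decide))
    (hSI 1 3 (by decide) (by decide) (by decide)) (hSI 2 3 (by decide) (by decide) (by decide))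
    (hSI 1 4 (by decide) (by decide) (by decide)) (hSI 2 4 (by decide) (by decide) (by decide))
    (hSI 3 4 (by decide) (by decide) (by decide)) hx
  have hx4 : x ∈ S 4 := star3 (hS2 1 (by decide)) (hS2 2 (by decide)) (hS2 4 (by decide))
    (hSI 1 4 (by decide) (by decide) (by decide)) (hSI 2 4 (by decide) (by decide) (by decide))
    (hSI 1 3 (by decide) (by decide) (by decide)) (hSI 2 3 (by decide) (by decide) (by decide))
    (hSI 4 3 (by decide) (by decide) (by decide)) hx
  have hx12 : x ∈ S 1 ∩ S 2 := by rw [hx]; exact mem_singleton_self x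
  have hxS : ∀ b, b ≠ 0 → x ∈ S b := by
    intro b hb
    fin_cases b
    · exact absurd rfl hb
    · exact (mem_inter.1 hx12).1
    · exact (mem_inter.1 hx12).2
    · exact hx3
    · exact hx4
  set σ : ℤ := v 1 x with hσ
  have hσ1 : σ = 1 ∨ σ = -1 := by
    have h1 := (hmem 1 x).1 (hxS 1 (by decide))
    rcases (sq_two (v 1) (hv2 1 (by decide))).1 x with h | h | h
    · exact absurd h h1
    · exact Or.inl h
    · exact Or.inr h
  have hvx : ∀ b, b ≠ 0 → v b x = σ := by
    intro b hb
    by_cases h1 : b = 1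
    · rw [h1]
    · exact (inner_one (hv2 b hb) (hv2 1 (by decide)) (hv1 b 1 hb (by decide) h1)).2 x
        ((hmem b x).1 (hxS b hb)) ((hmem 1 x).1 (hxS 1 (by decide)))
  have hy : ∀ b, b ≠ 0 → ∃ y, y ≠ x ∧ (v b y = 1 ∨ v b y = -1) ∧ y ∈ S b ∧
      ∀ i, v b i = (if i = x then σ else 0) + (if i = y then v b y else 0) := by
    intro b hb
    have h1 : ((S b).erase x).card = 1 := by
      rw [card_erase_of_mem (hxS b hb), hS2 b hb]
    obtain ⟨y, hy⟩ := card_eq_one.1 h1
    have hy1 : y ∈ (S b).erase x := by rw [hy]; exact mem_singleton_self y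
    obtain ⟨hyx, hyS⟩ := mem_erase.1 hy1
    refine ⟨y, hyx, ?_, hyS, ?_⟩
    · rcases (sq_two (v b) (hv2 b hb)).1 y with h | h | h
      · exact absurd h ((hmem b y).1 hyS)
      · exact Or.inl h
      · exact Or.inr h
    · intro i
      by_cases hix : i = x
      · subst hix
        rw [if_pos rfl, if_neg (fun h => hyx h.symm), add_zero]
        exact hvx b hb
      · by_cases hiy : i = y
        · subst hiy
          rw [if_neg hix, if_pos rfl, zero_add]
        · rw [if_neg hix, if_neg hiy, add_zero]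
          by_contra h2
          have h3 : i ∈ (S b).erase x := mem_erase.2 ⟨hix, (hmem b i).2 h2⟩
          rw [hy, mem_singleton] at h3
          exact hiy h3
  have : Nonempty I := ⟨x⟩
  choose! y hyx hy1 hyS hyv using hy
  refine ⟨fun i => M 0 i - if i = x then -σ else 0, fun b => if b = 0 then x else y b,
    fun b => if b = 0 then -σ else v b (y b), ?_, ?_, ?_⟩
  · intro b c hbc
    by_cases hb : b = 0
    · by_cases hc : c = 0
      · rw [hb, hc]
      · simp only [hb, if_true, hc, if_false] at hbc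
        exact absurd hbc.symm (hyx c hc)
    · by_cases hc : c = 0
      · simp only [hb, if_false, hc, if_true] at hbc
        exact absurd hbc (hyx b hb)
      · simp only [hb, if_false, hc] at hbc
        by_contra hne
        obtain ⟨w, hw⟩ := card_eq_one.1 (hSI b c hb hc hne)
        have h1 : x ∈ S b ∩ S c := mem_inter.2 ⟨hxS b hb, hxS c hc⟩
        have h2 : y b ∈ S b ∩ S c := mem_inter.2 ⟨hyS b hb, by rw [hbc]; exact hyS c hc⟩
        rw [hw, mem_singleton] at h1 h2
        exact hyx b hb (h2.trans h1.symm)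
  · intro b
    by_cases hb : b = 0
    · simp only [hb, if_true]
      rcases hσ1 with h | h
      · right
        rw [h]
      · left
        rw [h]
        norm_num
    · simp only [hb, if_false]
      exact hy1 b hb
  · intro b i
    by_cases hb : b = 0
    · simp only [hb, if_true]
      ring
    · simp only [hb, if_false]
      have h1 : M b i = M 0 i + v b i := by
        simp only [hv]
        ring
      rw [h1, hyv b hb i]
      split_ifs <;> ring

end Pool.Agent.Lib.P0c8ca5.Ex
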