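import Mathlib
import Pool.Agent.Lib.P0c8ca5Ex.XA

/-!
# XB: the extension lemma, pure part

`Λ` is a finite set on which the group `E` acts, `nn E a b` the number of `h ∈ E` with `h b = a`.
`ext_pure`: if the differences of the integral vectors `M a` have the Gram matrix of the
`E`-set `Λ` and the rows are short, then the `M a - C` have the Gram matrix `nn E a b` for a
suitable integral vector `C`.
-/

set_option linter.unusedSectionVars false

namespace Pool.Agent.Lib.P0c8ca5.Ex

open Finset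

section
variable {Λ : Type*} [Fintype Λ] [DecidableEq Λ] (E : Type*) [Group E] [Fintype E]
  [MulAction E Λ]

/-- the number of `h ∈ E` with `h b = a` -/
def nn (a b : Λ) : ℤ := ((univ.filter fun h : E => h • b = a).card : ℤ)

theorem nn_nonneg (a b : Λ) : 0 ≤ nn E a b := by
  unfold nn
  positivity

theorem nn_symm (a b : Λ) : nn E a b = nn E b a := by
  unfold nn
  congr 1
  refine card_bij (fun h _ => h⁻¹) ?_ ?_ ?_
  · intro h hh
    rw [mem_filter] at hh ⊢
    exact ⟨mem_univ _, by rw [← hh.2, inv_smul_smul]⟩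
  · intro h _ g _ hg
    exact inv_injective hg
  · intro h hh
    rw [mem_filter] at hh
    exact ⟨h⁻¹, mem_filter.2 ⟨mem_univ _, by rw [← hh.2, inv_smul_smul]⟩, inv_inv h⟩

theorem nn_self_pos (a : Λ) : 1 ≤ nn E a a := by
  unfold nn
  have h1 : 0 < (univ.filter fun h : E => h • a = a).card :=
    card_pos.2 ⟨1, mem_filter.2 ⟨mem_univ _, one_smul E a⟩⟩
  exact_mod_cast h1

theorem nn_smul (g : E) (a b : Λ) : nn E (g • a) b = nn E a b := by
  unfold nn
  congr 1
  refine card_bij (fun h _ => g⁻¹ * h) ?_ ?_ ?_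
  · intro h hh
    rw [mem_filter] at hh ⊢
    exact ⟨mem_univ _, by rw [mul_smul, hh.2, inv_smul_smul]⟩
  · intro h _ k _ hk
    exact mul_left_cancel hk
  · intro h hh
    rw [mem_filter] at hh
    refine ⟨g * h, mem_filter.2 ⟨mem_univ _, by rw [mul_smul, hh.2]⟩, ?_⟩
    rw [inv_mul_cancel_left]

theorem nn_smul_right (g : E) (a b : Λ) : nn E a (g • b) = nn E a b := by
  rw [nn_symm, nn_smul, nn_symm]

theorem nn_ne_zero {a b : Λ} (h : nn E a b ≠ 0) : ∃ g : E, g • b = a := by
  unfold nn at h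
  have h1 : (univ.filter fun h : E => h • b = a).card ≠ 0 := by
    intro h0
    exact h (by rw [h0]; rfl)
  obtain ⟨g, hg⟩ := card_pos.1 (Nat.pos_of_ne_zero h1)
  exact ⟨g, (mem_filter.1 hg).2⟩

/-- for a regular `b`, `nn E a b` is `0` or `1`; if it is `1` then `a` is regular -/
theorem nn_reg {a b : Λ} (hb : nn E b b = 1) :
    nn E a b = 0 ∨ (nn E a b = 1 ∧ nn E a a = 1 ∧ ∀ c, nn E a c = nn E b c) := by
  by_cases h : nn E a b = 0
  · exact Or.inl h
  · right
    obtain ⟨g, rfl⟩ := nn_ne_zero E h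
    refine ⟨by rw [nn_smul, hb], by rw [nn_smul, nn_smul_right, hb], fun c => nn_smul E g b c⟩

theorem sum_nn (b : Λ) : ∑ a, nn E a b = Fintype.card E := by
  unfold nn
  rw [← Nat.cast_sum]
  congr 1
  have h := card_eq_sum_card_fiberwise (f := fun h : E => h • b) (s := univ) (t := univ)
    (fun _ _ => mem_univ _)
  rw [card_univ] at h
  rw [h]

theorem sum_nn_self : ∑ a : Λ, nn E a a =
    ∑ h : E, ((univ.filter fun a : Λ => h • a = a).card : ℤ) := by
  unfold nn
  rw [← Nat.cast_sum, ← Nat.cast_sum]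
  congr 1
  simp_rw [card_filter]
  exact sum_comm

theorem sum_nn_sub {p : ℕ}
    (hfix : ∀ h : E, h ≠ 1 → p * (univ.filter fun a : Λ => h • a = a).card ≤ Fintype.card Λ) :
    (p : ℤ) * ∑ a : Λ, (nn E a a - 1) ≤ ((Fintype.card E : ℤ) - 1) * Fintype.card Λ := by
  classical
  rw [sum_sub_distrib, sum_nn_self, ← add_sum_erase univ _ (mem_univ (1 : E))]
  have h1 : ((univ.filter fun a : Λ => (1 : E) • a = a).card : ℤ) = ∑ a : Λ, (1 : ℤ) := by
    simp
  rw [h1, add_sub_cancel_left, mul_sum]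
  have h2 : ∀ h ∈ univ.erase (1 : E),
      (p : ℤ) * ((univ.filter fun a : Λ => h • a = a).card : ℤ) ≤ (Fintype.card Λ : ℤ) := by
    intro h hh
    have := hfix h (mem_erase.1 hh).1
    exact_mod_cast this
  refine (sum_le_card_nsmul _ _ _ h2).trans ?_
  rw [card_erase_of_mem (mem_univ _), card_univ, nsmul_eq_mul]
  have h3 : 0 < Fintype.card E := Fintype.card_pos
  rw [Nat.cast_sub h3]
  simp

/-- five regular points in different orbits -/
theorem five_reg {p : ℕ} (hp3 : Fintype.card E + 3 ≤ p) (hL : p ^ 2 ≤ Fintype.card Λ)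
    (hfix : ∀ h : E, h ≠ 1 → p * (univ.filter fun a : Λ => h • a = a).card ≤ Fintype.card Λ) :
    ∃ a : Fin 5 → Λ, (∀ j, nn E (a j) (a j) = 1) ∧ ∀ j k, j ≠ k → nn E (a j) (a k) = 0 := by
  classical
  have hsub := sum_nn_sub E hfix
  set e : ℤ := (Fintype.card E : ℤ) with he
  set L : ℤ := (Fintype.card Λ : ℤ) with hLd
  have he0 : 1 ≤ e := by
    have : 0 < Fintype.card E := Fintype.card_pos
    rw [he]
    exact_mod_cast this
  have hpe : e + 3 ≤ p := by
    rw [he]
    exact_mod_cast hp3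
  have hLp : (p : ℤ) ^ 2 ≤ L := by
    rw [hLd]
    exact_mod_cast hL
  -- the number of regular points
  set N : ℤ := ((univ.filter fun a : Λ => nn E a a = 1).card : ℤ) with hN
  have h1 : L - N ≤ ∑ a : Λ, (nn E a a - 1) := by
    have h2 : L - N = ∑ a : Λ, (if nn E a a = 1 then 0 else 1 : ℤ) := by
      have h3 : N = ∑ a : Λ, (if nn E a a = 1 then 1 else 0 : ℤ) := by
        rw [sum_boole, hN]
      have h4 : L = ∑ a : Λ, (1 : ℤ) := by simp [hLd]
      rw [h3, h4, ← sum_sub_distrib]
      refine sum_congr rfl fun a _ => ?_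
      split_ifs <;> ring
    rw [h2]
    refine sum_le_sum fun a _ => ?_
    have h5 := nn_self_pos E a
    split_ifs with h6
    · omega
    · omega
  have hN4 : 4 * e < N := by
    have h2 : (p : ℤ) * (L - N) ≤ (e - 1) * L := by
      refine le_trans (mul_le_mul_of_nonneg_left h1 (by positivity)) hsub
    have h3 : 4 * L ≤ p * N := by nlinarith
    have h4 : (p : ℤ) * (4 * p) ≤ p * N := by nlinarith
    have h5 : 4 * (p : ℤ) ≤ N := le_of_mul_le_mul_left h4 (by linarith)
    linarith
  have key : ∀ k ≤ 5, ∃ A : Finset Λ, A.card = k ∧ (∀ a ∈ A, nn E a a = 1) ∧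
      ∀ a ∈ A, ∀ b ∈ A, a ≠ b → nn E a b = 0 := by
    intro k
    induction k with
    | zero => intro _; exact ⟨∅, rfl, by simp, by simp⟩
    | succ k ih =>
      intro hk
      obtain ⟨A, hA1, hA2, hA3⟩ := ih (by omega)
      have h2 : ∃ c, nn E c c = 1 ∧ c ∉ A.biUnion fun a => univ.image fun h : E => h • a := by
        by_contra hcon
        push Not at hcon
        have h3 : (univ.filter fun a : Λ => nn E a a = 1) ⊆
            A.biUnion fun a => univ.image fun h : E => h • a := by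
          intro c hc
          exact hcon c (mem_filter.1 hc).2
        have h4 := card_le_card h3
        have h5 : (A.biUnion fun a => univ.image fun h : E => h • a).card ≤
            A.card * Fintype.card E := by
          refine card_biUnion_le_card_mul _ _ _ fun a _ => ?_
          exact card_image_le
        have h6 : (univ.filter fun a : Λ => nn E a a = 1).card ≤ 4 * Fintype.card E := by
          refine (h4.trans h5).trans ?_
          exact Nat.mul_le_mul_right _ (by omega)
        have h7 : N ≤ 4 * e := by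
          rw [hN, he]
          exact_mod_cast h6
        linarith
      obtain ⟨c, hc1, hc2⟩ := h2
      have hcA : c ∉ A := by
        intro h3
        exact hc2 (mem_biUnion.2 ⟨c, h3, mem_image.2 ⟨1, mem_univ _, one_smul E c⟩⟩)
      have hc3 : ∀ a ∈ A, nn E c a = 0 := by
        intro a ha
        by_contra h3
        obtain ⟨g, hg⟩ := nn_ne_zero E h3
        exact hc2 (mem_biUnion.2 ⟨a, ha, mem_image.2 ⟨g, mem_univ _, hg⟩⟩)
      refine ⟨insert c A, by rw [card_insert_of_notMem hcA, hA1], ?_, ?_⟩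
      · intro a ha
        rcases mem_insert.1 ha with rfl | ha
        · exact hc1
        · exact hA2 a ha
      · intro a ha b hb hab
        rcases mem_insert.1 ha with h8 | ha'
        · rcases mem_insert.1 hb with h9 | hb'
          · exact absurd (h8.trans h9.symm) hab
          · rw [h8]
            exact hc3 b hb'
        · rcases mem_insert.1 hb with h9 | hb'
          · rw [h9, nn_symm]
            exact hc3 a ha'
          · exact hA3 a ha' b hb' hab
  obtain ⟨A, hA1, hA2, hA3⟩ := key 5 le_rfl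
  let φ := (A.equivFinOfCardEq hA1).symm
  refine ⟨fun j => (φ j : Λ), fun j => hA2 _ (φ j).2, fun j k hjk => hA3 _ (φ j).2 _ (φ k).2 ?_⟩
  intro h
  exact hjk (φ.injective (Subtype.ext h))

end

section
variable {Λ : Type*} [Fintype Λ] [DecidableEq Λ] {E : Type*} [Group E] [Fintype E]
  [MulAction E Λ] {I : Type*} [Fintype I]

/-- a point evaluation -/
theorem sum_ind [DecidableEq I] (x : I) (c : ℤ) (f : I → ℤ) :
    ∑ i, f i * (if i = x then c else 0) = f x * c := by
  rw [Finset.sum_eq_single x]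
  · rw [if_pos rfl]
  · intro i _ hi
    rw [if_neg hi, mul_zero]
  · intro h
    exact absurd (mem_univ x) h

/-- the arithmetic of the row norm -/
theorem arith_s {L e s p : ℤ} (he : 1 ≤ e) (hp : e + 3 ≤ p) (hL : p ^ 2 ≤ L) (hs : 1 ≤ s)
    (h1 : 4 * p * s ≤ 3 * (e - 1) * L) : (e + s) ^ 2 < L * s := by
  have hL0 : 0 < L := by nlinarith
  have h2 : 4 * s ≤ 3 * L := by
    have h3 : p * (4 * s) ≤ p * (3 * L) := by nlinarith
    exact le_of_mul_le_mul_left h3 (by linarith)
  have h4 : (e + 1) ^ 2 < L := by nlinarith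
  have h5 : 4 * (2 * e + 1) ≤ L := by nlinarith [sq_nonneg (e - 1)]
  -- `(s - 1) (3 L - 4 s) ≥ 0`
  have h6 : 0 ≤ (s - 1) * (3 * L - 4 * s) := mul_nonneg (by linarith) (by linarith)
  have h7 : 0 ≤ (s - 1) * (L - 4 * (2 * e + 1)) := mul_nonneg (by linarith) (by linarith)
  nlinarith

theorem ext0 {p : ℕ} (hp3 : Fintype.card E + 3 ≤ p) (hL : p ^ 2 ≤ Fintype.card Λ)
    (hfix : ∀ h : E, h ≠ 1 → p * (univ.filter fun a : Λ => h • a = a).card ≤ Fintype.card Λ)
    (M : Λ → I → ℤ)
    (hG : ∀ a b c d, ∑ i, (M a i - M b i) * (M c i - M d i)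
      = nn E a c - nn E a d - nn E b c + nn E b d)
    (hrow : ∀ i, (Fintype.card Λ : ℤ) * ∑ a, M a i ^ 2 - (∑ a, M a i) ^ 2
      ≤ Fintype.card Λ * Fintype.card E)
    (a : Fin 5 → Λ) (ha1 : ∀ j, nn E (a j) (a j) = 1) (ha0 : ∀ j k, j ≠ k → nn E (a j) (a k) = 0)
    [DecidableEq I] (ι : Fin 5 → I) (hι : Function.Injective ι) (ε : Fin 5 → ℤ)
    (hε : ∀ j, ε j = 1 ∨ ε j = -1) (hMa : ∀ j i, M (a j) i = if i = ι j then ε j else 0) :
    ∀ b c, ∑ i, M b i * M c i = nn E b c := by
  have hεε : ∀ j, ε j * ε j = 1 := by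
    intro j
    rcases hε j with h | h <;> rw [h] <;> norm_num
  -- inner products with the `M (a j)`
  have hin : ∀ b j, ∑ i, M b i * M (a j) i = M b (ι j) * ε j := by
    intro b j
    simp_rw [hMa j]
    exact sum_ind (ι j) (ε j) (M b)
  have hin' : ∀ j k, ∑ i, M (a j) i * M (a k) i = if j = k then 1 else 0 := by
    intro j k
    rw [hin, hMa]
    by_cases hjk : j = k
    · subst hjk
      rw [if_pos rfl, if_pos rfl, hεε]
    · rw [if_neg hjk, if_neg (fun h => hjk (hι h).symm), zero_mul]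
  set Z : Λ → ℤ := fun b => M b (ι 0) * ε 0 - nn E b (a 0) with hZ
  have hZj : ∀ b j, M b (ι j) * ε j = nn E b (a j) + Z b := by
    intro b j
    by_cases hj : j = 0
    · subst hj
      simp only [hZ]
      ring
    · have h1 := hG b (a 0) (a j) (a 0)
      have h2 : ∑ i, (M b i - M (a 0) i) * (M (a j) i - M (a 0) i)
          = ∑ i, M b i * M (a j) i - ∑ i, M b i * M (a 0) i - ∑ i, M (a 0) i * M (a j) i
            + ∑ i, M (a 0) i * M (a 0) i := by
        rw [← sum_sub_distrib, ← sum_sub_distrib, ← sum_add_distrib]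
        exact sum_congr rfl fun i _ => by ring
      rw [h2, hin, hin, hin', hin', if_neg (Ne.symm hj), if_pos rfl, ha1, ha0 0 j (Ne.symm hj)]
        at h1
      simp only [hZ]
      linarith
  have hnorm : ∀ b, ∑ i, M b i ^ 2 = nn E b b + 2 * Z b := by
    intro b
    have h1 := hG b (a 0) b (a 0)
    have h2 : ∑ i, (M b i - M (a 0) i) * (M b i - M (a 0) i)
        = ∑ i, M b i ^ 2 - 2 * ∑ i, M b i * M (a 0) i + ∑ i, M (a 0) i * M (a 0) i := by
      rw [mul_sum, ← sum_sub_distrib, ← sum_add_distrib]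
      exact sum_congr rfl fun i _ => by ring
    rw [h2, hin, hin', if_pos rfl, ha1, nn_symm E (a 0) b, hZj b 0] at h1
    linarith
  have hfive : ∀ b, ∑ j, (nn E b (a j) + Z b) ^ 2 ≤ nn E b b + 2 * Z b := by
    intro b
    rw [← hnorm b]
    have h1 : ∀ j, (nn E b (a j) + Z b) ^ 2 = M b (ι j) ^ 2 := by
      intro j
      rw [← hZj b j, mul_pow, sq (ε j), hεε, mul_one]
    simp_rw [h1]
    rw [← sum_image (s := univ) (g := ι) (f := fun i => M b i ^ 2)
      (fun j _ k _ h => hι h)]
    exact sum_le_sum_of_subset_of_nonneg (subset_univ _) fun i _ _ => sq_nonneg _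
  -- `Z` is small
  have hZ0 : ∀ b j, nn E b (a j) * Z b = 0 ∧ nn E b (a j) ^ 2 = nn E b (a j) := by
    intro b j
    rcases nn_reg E (ha1 j) (a := b) with h | ⟨h1, h2, h3⟩
    · rw [h]
      simp
    · have h4 := hfive b
      have h5 : ∀ k, nn E b (a k) = if k = j then 1 else 0 := by
        intro k
        rw [h3]
        by_cases hkj : k = j
        · rw [if_pos hkj, hkj, ha1]
        · rw [if_neg hkj, ha0 j k (Ne.symm hkj)]
      have h6 : ∑ k, (nn E b (a k) + Z b) ^ 2 = 5 * Z b ^ 2 + 2 * Z b + 1 := by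
        have h7 : ∀ k, (nn E b (a k) + Z b) ^ 2
            = Z b ^ 2 + (if k = j then 2 * Z b + 1 else 0) := by
          intro k
          rw [h5]
          split_ifs <;> ring
        simp_rw [h7]
        rw [sum_add_distrib, sum_const, card_univ, Fintype.card_fin,
          sum_ite_eq' univ j, if_pos (mem_univ j)]
        simp only [nsmul_eq_mul, Nat.cast_ofNat]
        ring
      rw [h6, h2] at h4
      have h8 : Z b = 0 := by
        have h9 : Z b ^ 2 ≤ 0 := by linarith
        have h10 := sq_nonneg (Z b)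
        exact pow_eq_zero_iff (two_ne_zero) |>.1 (le_antisymm h9 h10)
      rw [h8, h1]
      norm_num
  have hZs : ∀ b, 4 * Z b ^ 2 ≤ 3 * (nn E b b - 1) := by
    intro b
    have h1 := hfive b
    have h2 : ∑ j, (nn E b (a j) + Z b) ^ 2 = ∑ j, nn E b (a j) + 5 * Z b ^ 2 := by
      have h3 : ∀ j, (nn E b (a j) + Z b) ^ 2 = nn E b (a j) + Z b ^ 2 := by
        intro j
        have h4 := hZ0 b j
        nlinarith [h4.1, h4.2]
      simp_rw [h3]
      rw [sum_add_distrib, sum_const, card_univ, Fintype.card_fin]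
      simp only [nsmul_eq_mul, Nat.cast_ofNat]
    rw [h2] at h1
    have h5 : 0 ≤ ∑ j, nn E b (a j) := sum_nonneg fun j _ => nn_nonneg E b (a j)
    have h6 := nn_self_pos E b
    have h7 : 5 * Z b ^ 2 ≤ nn E b b + 2 * Z b := by linarith
    rcases h6.eq_or_lt with h8 | h8
    · rw [← h8] at h7 ⊢
      have h9 : Z b = 0 := by
        have h10 : Z b < 1 := by nlinarith
        have h11 : -1 < Z b := by nlinarith
        omega
      rw [h9]
      norm_num
    · have h9 : 2 * Z b ≤ Z b ^ 2 + 1 := by nlinarith [sq_nonneg (Z b - 1)]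
      have h10 : 2 ≤ nn E b b := by omega
      linarith
  set s : ℤ := ∑ b, Z b ^ 2 with hs
  set e : ℤ := (Fintype.card E : ℤ) with he
  set L : ℤ := (Fintype.card Λ : ℤ) with hLd
  have he0 : 1 ≤ e := by
    have : 0 < Fintype.card E := Fintype.card_pos
    rw [he]
    exact_mod_cast this
  have hpe : e + 3 ≤ p := by
    rw [he]
    exact_mod_cast hp3
  have hLp : (p : ℤ) ^ 2 ≤ L := by
    rw [hLd]
    exact_mod_cast hL
  have hs0 : s = 0 := by
    by_contra hne
    have hs1 : 1 ≤ s := by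
      have : 0 ≤ s := sum_nonneg fun b _ => sq_nonneg _
      omega
    have h1 : 4 * p * s ≤ 3 * (e - 1) * L := by
      have h2 := sum_nn_sub E hfix
      have h3 : 4 * s ≤ 3 * ∑ b : Λ, (nn E b b - 1) := by
        rw [hs, mul_sum, mul_sum]
        exact sum_le_sum fun b _ => hZs b
      nlinarith
    have h4 := arith_s he0 hpe hLp hs1 h1
    -- the row `ι 0`
    have h5 := hrow (ι 0)
    have h6 : ∑ b, M b (ι 0) ^ 2 = e + s := by
      have h7 : ∀ b, M b (ι 0) ^ 2 = nn E b (a 0) + Z b ^ 2 := by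
        intro b
        have h8 := hZ0 b 0
        have h9 : M b (ι 0) ^ 2 = (nn E b (a 0) + Z b) ^ 2 := by
          rw [← hZj b 0, mul_pow, sq (ε 0), hεε, mul_one]
        rw [h9]
        nlinarith [h8.1, h8.2]
      simp_rw [h7]
      rw [sum_add_distrib, sum_nn]
    have h7 : (∑ b, M b (ι 0)) ^ 2 = (e + ∑ b, Z b) ^ 2 := by
      have h8 : ∑ b, M b (ι 0) = ε 0 * (e + ∑ b, Z b) := by
        have h9 : ∀ b, M b (ι 0) = ε 0 * (nn E b (a 0) + Z b) := by
          intro b
          rw [← hZj b 0, mul_comm (M b (ι 0)), ← mul_assoc, hεε, one_mul]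
        simp_rw [h9]
        rw [← mul_sum, sum_add_distrib, sum_nn]
      rw [h8, mul_pow, sq (ε 0), hεε, one_mul]
    rw [h6, h7] at h5
    have h8 : (e + ∑ b, Z b) ^ 2 ≤ (e + s) ^ 2 := by
      have h9 : ∑ b, Z b ≤ s := by
        rw [hs]
        refine sum_le_sum fun b _ => ?_
        rcases le_or_gt (Z b) 0 with h | h
        · exact h.trans (sq_nonneg _)
        · nlinarith
      have h10 : -s ≤ ∑ b, Z b := by
        rw [hs, ← sum_neg_distrib]
        refine sum_le_sum fun b _ => ?_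
        rcases le_or_gt 0 (Z b) with h | h
        · have := sq_nonneg (Z b)
          linarith
        · nlinarith
      nlinarith
    nlinarith
  have hZb : ∀ b, Z b = 0 := by
    intro b
    have h1 := (sum_eq_zero_iff_of_nonneg (fun b _ => sq_nonneg (Z b))).1 hs0 b (mem_univ b)
    exact pow_eq_zero_iff (two_ne_zero) |>.1 h1
  intro b c
  have h1 := hG b (a 0) c (a 0)
  have h2 : ∑ i, (M b i - M (a 0) i) * (M c i - M (a 0) i)
      = ∑ i, M b i * M c i - ∑ i, M b i * M (a 0) i - ∑ i, M c i * M (a 0) i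
        + ∑ i, M (a 0) i * M (a 0) i := by
    rw [← sum_sub_distrib, ← sum_sub_distrib, ← sum_add_distrib]
    exact sum_congr rfl fun i _ => by ring
  rw [h2, hin, hin, hin', if_pos rfl, ha1, hZj b 0, hZj c 0, hZb, hZb, nn_symm E (a 0) c] at h1
  linarith

/-- **the extension lemma** -/
theorem ext_pure {p : ℕ} (hp3 : Fintype.card E + 3 ≤ p) (hL : p ^ 2 ≤ Fintype.card Λ)
    (hfix : ∀ h : E, h ≠ 1 → p * (univ.filter fun a : Λ => h • a = a).card ≤ Fintype.card Λ)
    (M : Λ → I → ℤ)
    (hG : ∀ a b c d, ∑ i, (M a i - M b i) * (M c i - M d i)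
      = nn E a c - nn E a d - nn E b c + nn E b d)
    (hrow : ∀ i, (Fintype.card Λ : ℤ) * ∑ a, M a i ^ 2 - (∑ a, M a i) ^ 2
      ≤ Fintype.card Λ * Fintype.card E) :
    ∃ C : I → ℤ, ∀ b c, ∑ i, (M b i - C i) * (M c i - C i) = nn E b c := by
  classical
  obtain ⟨a, ha1, ha0⟩ := five_reg E hp3 hL hfix
  obtain ⟨C, ι, ε, hι, hε, hC⟩ := star5 (fun j => M (a j)) (by
    intro j k hjk
    have h1 := hG (a j) (a k) (a j) (a k)
    rw [ha1, ha1, ha0 j k hjk, ha0 k j (Ne.symm hjk)] at h1
    simp_rw [sq]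
    rw [h1]
    norm_num)
  refine ⟨C, ?_⟩
  refine ext0 hp3 hL hfix (fun b i => M b i - C i) ?_ ?_ a ha1 ha0 ι hι ε hε ?_
  · intro b c d f
    rw [← hG b c d f]
    exact sum_congr rfl fun i _ => by ring
  · intro i
    refine le_trans (le_of_eq ?_) (hrow i)
    have h1 : ∑ b, (M b i - C i) ^ 2 = ∑ b, M b i ^ 2 - 2 * C i * ∑ b, M b i
        + Fintype.card Λ * C i ^ 2 := by
      have h2 : (Fintype.card Λ : ℤ) * C i ^ 2 = ∑ b : Λ, C i ^ 2 := by
        rw [sum_const, card_univ, nsmul_eq_mul]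
      rw [h2, mul_sum, ← sum_sub_distrib, ← sum_add_distrib]
      exact sum_congr rfl fun b _ => by ring
    have h2 : ∑ b, (M b i - C i) = ∑ b, M b i - Fintype.card Λ * C i := by
      rw [sum_sub_distrib, sum_const, card_univ, nsmul_eq_mul]
    rw [h1, h2]
    ring
  · intro j i
    have h1 := hC j i
    show M (a j) i - C i = _
    rw [h1]
    ring

end

end Pool.Agent.Lib.P0c8ca5.Ex
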