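import Mathlib
import Pool.Agent.Lib.P0c8ca5Ex.XB

/-!
# XC: the extension lemma, the case of a cyclic quotient of order `p`

`Λ` has one fixed point `l0`, all other points are regular, there are `t ≥ 2` regular orbits and
at least `t + |E|` rows, none of them constant.
-/

set_option linter.unusedSectionVars false

namespace Pool.Agent.Lib.P0c8ca5.Ex

open Finset

section
variable {Λ : Type*} [Fintype Λ] [DecidableEq Λ] {E : Type*} [Group E] [Fintype E]
  [MulAction E Λ] {I : Type*} [Fintype I]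

/-- a regular orbit has `|E|` elements -/
theorem card_orb {a : Λ} (ha : nn E a a = 1) :
    ((univ.image fun h : E => h • a).card : ℤ) = Fintype.card E := by
  have h1 : (univ.filter fun h : E => h • a = a).card = 1 := by
    unfold nn at ha
    exact_mod_cast ha
  obtain ⟨x, hx⟩ := card_eq_one.1 h1
  rw [card_image_of_injective, card_univ]
  intro g h hgh
  have h2 : ∀ k : E, k • a = a → k = x := fun k hk => by
    have : k ∈ univ.filter fun h : E => h • a = a := mem_filter.2 ⟨mem_univ _, hk⟩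
    rw [hx] at this
    exact mem_singleton.1 this
  have h3 : h⁻¹ * g = 1 := by
    rw [h2 1 (one_smul E a)]
    refine h2 _ ?_
    rw [mul_smul]
    have h4 : g • a = h • a := hgh
    rw [h4, inv_smul_smul]
  exact (inv_mul_eq_one.1 h3).symm

/-- the form of a row: `x` is a function on a finite set `S`, at least `e` of its values are not
zero, `|S| = t e`. -/
theorem form_ge {S : Finset Λ} {x : Λ → ℤ} {t e : ℤ} (he : 1 ≤ e) (hS : (S.card : ℤ) = t * e)
    (hm : e ≤ ((S.filter fun a => x a ≠ 0).card : ℤ)) :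
    t * e ^ 2 ≤ (t + 1) * e * ∑ a ∈ S, x a ^ 2 - (∑ a ∈ S, x a) ^ 2 ∧
    ((t + 1) * e * ∑ a ∈ S, x a ^ 2 - (∑ a ∈ S, x a) ^ 2 ≤ t * e ^ 2 →
      ((∃ σ : ℤ, (σ = 1 ∨ σ = -1) ∧ ∀ a ∈ S, x a = σ) ∨
      (((S.filter fun a => x a ≠ 0).card : ℤ) = e ∧ ∀ a ∈ S, x a ≠ 0 → x a ^ 2 = 1))) := by
  classical
  set N := S.filter fun a => x a ≠ 0 with hN
  set m : ℤ := (N.card : ℤ) with hmd
  have hsub : N ⊆ S := filter_subset _ _
  have hmS : m ≤ t * e := by
    rw [← hS, hmd]
    exact_mod_cast card_le_card hsub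
  have hsd : ((S \ N).card : ℤ) = t * e - m := by
    rw [card_sdiff_of_subset hsub, Nat.cast_sub (card_le_card hsub), hS]
  have hsq : ∑ a ∈ S, x a ^ 2 = ∑ a ∈ N, x a ^ 2 := by
    rw [← sum_sdiff hsub, add_eq_right]
    refine sum_eq_zero fun a ha => ?_
    have h1 : x a = 0 := by
      by_contra h
      exact (mem_sdiff.1 ha).2 (mem_filter.2 ⟨(mem_sdiff.1 ha).1, h⟩)
    rw [h1]
    norm_num
  have hsN : ∀ a ∈ N, 1 ≤ x a ^ 2 := by
    intro a ha
    have h1 : x a ≠ 0 := (mem_filter.1 ha).2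
    have h2 : 0 < x a ^ 2 := by positivity
    omega
  have hge : m ≤ ∑ a ∈ N, x a ^ 2 := by
    have h1 : ∑ a ∈ N, (1 : ℤ) ≤ ∑ a ∈ N, x a ^ 2 := sum_le_sum hsN
    simpa [hmd] using h1
  -- the double sum
  have hdd : ∑ a ∈ S, ∑ b ∈ S, (x a - x b) ^ 2
      = 2 * (t * e * ∑ a ∈ S, x a ^ 2 - (∑ a ∈ S, x a) ^ 2) := by
    have h1 : ∀ a ∈ S, ∑ b ∈ S, (x a - x b) ^ 2
        = t * e * x a ^ 2 - 2 * x a * ∑ b ∈ S, x b + ∑ b ∈ S, x b ^ 2 := by
      intro a _
      have h2 : ∀ b, (x a - x b) ^ 2 = x a ^ 2 - 2 * x a * x b + x b ^ 2 := fun b => by ring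
      simp_rw [h2]
      rw [sum_add_distrib, sum_sub_distrib, sum_const, nsmul_eq_mul, hS, ← mul_sum]
    rw [sum_congr rfl h1, sum_add_distrib, sum_sub_distrib, ← mul_sum, sum_const, nsmul_eq_mul,
      hS, ← sum_mul, ← mul_sum]
    ring
  have hpair : 2 * (m * (t * e - m)) ≤ ∑ a ∈ S, ∑ b ∈ S, (x a - x b) ^ 2 := by
    have h1 : ∑ a ∈ S, ∑ b ∈ S, (x a - x b) ^ 2
        = ∑ a ∈ S \ N, ∑ b ∈ S, (x a - x b) ^ 2 + ∑ a ∈ N, ∑ b ∈ S, (x a - x b) ^ 2 :=
      (sum_sdiff hsub).symm
    have h2 : m * (t * e - m) ≤ ∑ a ∈ S \ N, ∑ b ∈ S, (x a - x b) ^ 2 := by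
      have h3 : ∀ a ∈ S \ N, m ≤ ∑ b ∈ S, (x a - x b) ^ 2 := by
        intro a ha
        have h4 : x a = 0 := by
          by_contra h
          exact (mem_sdiff.1 ha).2 (mem_filter.2 ⟨(mem_sdiff.1 ha).1, h⟩)
        refine hge.trans ?_
        rw [← hsq]
        refine sum_le_sum fun b _ => ?_
        rw [h4]
        apply le_of_eq
        ring
      have h5 := card_nsmul_le_sum (S \ N) _ m h3
      rw [nsmul_eq_mul, hsd] at h5
      linarith
    have h6 : m * (t * e - m) ≤ ∑ a ∈ N, ∑ b ∈ S, (x a - x b) ^ 2 := by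
      have h3 : ∀ a ∈ N, t * e - m ≤ ∑ b ∈ S, (x a - x b) ^ 2 := by
        intro a ha
        have h4 : ∑ b ∈ S \ N, (x a - x b) ^ 2 ≤ ∑ b ∈ S, (x a - x b) ^ 2 :=
          sum_le_sum_of_subset_of_nonneg sdiff_subset fun _ _ _ => sq_nonneg _
        refine le_trans ?_ h4
        have h7 : ∀ b ∈ S \ N, 1 ≤ (x a - x b) ^ 2 := by
          intro b hb
          have h8 : x b = 0 := by
            by_contra h
            exact (mem_sdiff.1 hb).2 (mem_filter.2 ⟨(mem_sdiff.1 hb).1, h⟩)
          rw [h8, sub_zero]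
          exact hsN a ha
        have h9 := sum_le_sum h7
        rw [sum_const, nsmul_eq_mul, mul_one, hsd] at h9
        exact h9
      have h5 := card_nsmul_le_sum N _ (t * e - m) h3
      rw [nsmul_eq_mul] at h5
      linarith
    rw [h1]
    linarith
  have hkey : 0 ≤ (m - e) * (t * e - m) := mul_nonneg (by linarith) (by linarith)
  have hQ : 2 * ((t + 1) * e * ∑ a ∈ S, x a ^ 2 - (∑ a ∈ S, x a) ^ 2)
      = ∑ a ∈ S, ∑ b ∈ S, (x a - x b) ^ 2 + 2 * e * ∑ a ∈ S, x a ^ 2 := by
    rw [hdd]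
    ring
  have h20 : e * m ≤ e * ∑ a ∈ N, x a ^ 2 := mul_le_mul_of_nonneg_left hge (by linarith)
  refine ⟨?_, ?_⟩
  · rw [← hsq] at h20
    nlinarith
  · intro hle
    have h21 : (m - e) * (t * e - m) ≤ 0 := by
      rw [← hsq] at h20
      nlinarith
    have h22 : (m - e) * (t * e - m) = 0 := le_antisymm h21 hkey
    have h23 : e * ∑ a ∈ N, x a ^ 2 ≤ e * m := by
      rw [← hsq]
      nlinarith
    have h24 : ∑ a ∈ N, x a ^ 2 = m := by
      have h25 : ∑ a ∈ N, x a ^ 2 ≤ m := le_of_mul_le_mul_left h23 (by linarith)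
      exact le_antisymm h25 hge
    have h26 : ∀ a ∈ N, x a ^ 2 = 1 := by
      have h27 : ∑ a ∈ N, (x a ^ 2 - 1) = 0 := by
        rw [sum_sub_distrib, h24]
        simp [hmd]
      intro a ha
      have h28 := (sum_eq_zero_iff_of_nonneg (fun a ha => by
        have := hsN a ha
        linarith)).1 h27 a ha
      linarith
    rcases mul_eq_zero.1 h22 with h | h
    · right
      refine ⟨by linarith, fun a ha h0 => h26 a (mem_filter.2 ⟨ha, h0⟩)⟩
    · left
      -- all differences vanish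
      have h29 : ∑ a ∈ S, ∑ b ∈ S, (x a - x b) ^ 2 = 0 := by
        apply le_antisymm
        · have h30 : m = t * e := by linarith
          have h31 : e * ∑ a ∈ S, x a ^ 2 = e * m := by rw [hsq, h24]
          nlinarith
        · exact sum_nonneg fun _ _ => sum_nonneg fun _ _ => sq_nonneg _
      have h32 : N.Nonempty := by
        rw [← card_pos]
        have : (0 : ℤ) < (N.card : ℤ) := by linarith
        exact_mod_cast this
      obtain ⟨a, ha⟩ := h32
      refine ⟨x a, ?_, ?_⟩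
      · have h33 := h26 a ha
        have h34 : (x a - 1) * (x a + 1) = 0 := by linarith [h33]
        rcases mul_eq_zero.1 h34 with h | h
        · left; linarith
        · right; linarith
      · intro b hb
        have h35 := (sum_eq_zero_iff_of_nonneg (fun a _ =>
          sum_nonneg fun b _ => sq_nonneg (x a - x b))).1 h29 a (hsub ha)
        have h36 := (sum_eq_zero_iff_of_nonneg (fun b _ => sq_nonneg (x a - x b))).1 h35 b hb
        have h37 : x a - x b = 0 := pow_eq_zero_iff (two_ne_zero) |>.1 h36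
        linarith

theorem caseB {t : ℕ} (ht : 2 ≤ t) (hL : Fintype.card Λ = t * Fintype.card E + 1)
    (hI : t + Fintype.card E ≤ Fintype.card I)
    (l0 : Λ) (hfix : ∀ h : E, h • l0 = l0) (hreg : ∀ a, a ≠ l0 → nn E a a = 1)
    (M : Λ → I → ℤ)
    (hG : ∀ a b c d, ∑ i, (M a i - M b i) * (M c i - M d i)
      = nn E a c - nn E a d - nn E b c + nn E b d)
    (hnc : ∀ i, ∃ a, M a i ≠ M l0 i) :
    ∃ C : I → ℤ, ∀ b c, ∑ i, (M b i - C i) * (M c i - C i) = nn E b c := by
  classical
  set e : ℤ := (Fintype.card E : ℤ) with he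
  have he0 : 1 ≤ e := by
    have : 0 < Fintype.card E := Fintype.card_pos
    rw [he]
    exact_mod_cast this
  have ht2 : (2 : ℤ) ≤ t := by exact_mod_cast ht
  have hn0 : ∀ a, a ≠ l0 → nn E a l0 = 0 := by
    intro a ha
    by_contra h
    obtain ⟨g, hg⟩ := nn_ne_zero E h
    rw [hfix] at hg
    exact ha hg.symm
  have hn0' : ∀ a, a ≠ l0 → nn E l0 a = 0 := fun a ha => by rw [nn_symm, hn0 a ha]
  have hn00 : nn E l0 l0 = e := by
    unfold nn
    rw [filter_true_of_mem (fun h _ => hfix h), card_univ]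
  set x : I → Λ → ℤ := fun i a => M a i - M l0 i with hx
  have hGx : ∀ a b, a ≠ l0 → b ≠ l0 → ∑ i, x i a * x i b = nn E a b + e := by
    intro a b ha hb
    have h1 := hG a l0 b l0
    rw [hn0 a ha, hn0' b hb, hn00] at h1
    simp only [hx]
    rw [h1]
    ring
  -- `x` is constant on orbits
  have hxE : ∀ i (g : E) a, x i (g • a) = x i a := by
    intro i g a
    by_cases ha : a = l0
    · rw [ha, hfix]
    · have h1 := hG (g • a) a (g • a) a
      rw [nn_smul, nn_smul_right, nn_smul, hreg a ha] at h1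
      have h2 : ∑ i, (M (g • a) i - M a i) * (M (g • a) i - M a i) = 0 := by
        rw [h1]
        norm_num
      have h3 := (sum_eq_zero_iff_of_nonneg (fun i _ => mul_self_nonneg _)).1 h2 i (mem_univ _)
      have h4 := mul_self_eq_zero.1 h3
      simp only [hx]
      linarith
  set S : Finset Λ := univ.erase l0 with hS
  have hSc : (S.card : ℤ) = t * e := by
    rw [hS, card_erase_of_mem (mem_univ _), card_univ, hL, he]
    push_cast
    simp
  have hmS : ∀ a, a ∈ S ↔ a ≠ l0 := by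
    intro a
    rw [hS, mem_erase]
    exact ⟨fun h => h.1, fun h => ⟨h, mem_univ _⟩⟩
  have hm : ∀ i, e ≤ ((S.filter fun a => x i a ≠ 0).card : ℤ) := by
    intro i
    obtain ⟨a, ha⟩ := hnc i
    have ha0 : x i a ≠ 0 := by
      simp only [hx]
      intro h
      exact ha (by linarith)
    have ha1 : a ≠ l0 := by
      rintro rfl
      exact ha rfl
    rw [he, ← card_orb (hreg a ha1)]
    have h2 : (univ.image fun h : E => h • a) ⊆ S.filter fun a => x i a ≠ 0 := by
      intro b hb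
      obtain ⟨g, _, rfl⟩ := mem_image.1 hb
      refine mem_filter.2 ⟨(hmS _).2 ?_, by rw [hxE]; exact ha0⟩
      intro h
      apply ha1
      rw [← inv_smul_smul g a, h, hfix]
    exact_mod_cast card_le_card h2
  have hform := fun i => form_ge (x := x i) (t := t) he0 hSc (hm i)
  -- the total
  have htot : ∑ i, (((t : ℤ) + 1) * e * ∑ a ∈ S, x i a ^ 2 - (∑ a ∈ S, x i a) ^ 2)
      = t * e ^ 2 * (t + e) := by
    rw [sum_sub_distrib, ← mul_sum]
    have h1 : ∑ i, ∑ a ∈ S, x i a ^ 2 = t * e * (1 + e) := by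
      rw [sum_comm]
      have h2 : ∀ a ∈ S, ∑ i, x i a ^ 2 = 1 + e := by
        intro a ha
        have h3 := hGx a a ((hmS a).1 ha) ((hmS a).1 ha)
        rw [hreg a ((hmS a).1 ha)] at h3
        rw [← h3]
        exact sum_congr rfl fun i _ => sq _
      rw [sum_congr rfl h2, sum_const, nsmul_eq_mul, hSc]
    have h4 : ∑ i, (∑ a ∈ S, x i a) ^ 2 = t * e * (e + t * e * e) := by
      have h5 : ∀ i, (∑ a ∈ S, x i a) ^ 2 = ∑ a ∈ S, ∑ b ∈ S, x i a * x i b := by
        intro i
        rw [sq, sum_mul_sum]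
      simp_rw [h5]
      rw [sum_comm]
      have h6 : ∀ a ∈ S, ∑ i, ∑ b ∈ S, x i a * x i b = e + t * e * e := by
        intro a ha
        rw [sum_comm]
        have h7 : ∀ b ∈ S, ∑ i, x i a * x i b = nn E b a + e := by
          intro b hb
          rw [hGx a b ((hmS a).1 ha) ((hmS b).1 hb), nn_symm]
        rw [sum_congr rfl h7, sum_add_distrib, sum_const, nsmul_eq_mul, hSc]
        have h8 : ∑ b ∈ S, nn E b a = e := by
          have h9 := sum_nn E a
          rw [← add_sum_erase univ _ (mem_univ l0), hn0' a ((hmS a).1 ha), zero_add] at h9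
          rw [hS, h9]
        rw [h8]
      rw [sum_congr rfl h6, sum_const, nsmul_eq_mul, hSc]
    rw [h1, h4]
    ring
  have hIe : ((t : ℤ) + e) ≤ (Fintype.card I : ℤ) := by
    rw [he]
    exact_mod_cast hI
  have heq : ∀ i, ((t : ℤ) + 1) * e * ∑ a ∈ S, x i a ^ 2 - (∑ a ∈ S, x i a) ^ 2 ≤ t * e ^ 2 := by
    intro i
    have h1 : ∑ j, ((((t : ℤ) + 1) * e * ∑ a ∈ S, x j a ^ 2 - (∑ a ∈ S, x j a) ^ 2)
        - t * e ^ 2) ≤ 0 := by
      rw [sum_sub_distrib, htot, sum_const, card_univ, nsmul_eq_mul]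
      have h2 : 0 ≤ (t : ℤ) * e ^ 2 := by positivity
      nlinarith
    have h3 := single_le_sum (f := fun j => ((((t : ℤ) + 1) * e * ∑ a ∈ S, x j a ^ 2
      - (∑ a ∈ S, x j a) ^ 2) - t * e ^ 2)) (fun j _ => by
        have := (hform j).1
        linarith) (mem_univ i)
    have h4 := h3.trans h1
    linarith
  have htype : ∀ i, (∃ σ : ℤ, (σ = 1 ∨ σ = -1) ∧ ∀ a ∈ S, x i a = σ) ∨
      (((S.filter fun a => x i a ≠ 0).card : ℤ) = e ∧ ∀ a ∈ S, x i a ≠ 0 → x i a ^ 2 = 1) :=
    fun i => (hform i).2 (heq i)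
  -- two regular points in different orbits
  obtain ⟨a1, ha1⟩ : ∃ a1, a1 ≠ l0 := by
    have h1 : 0 < S.card := by
      have : (0 : ℤ) < (S.card : ℤ) := by
        rw [hSc]
        positivity
      exact_mod_cast this
    obtain ⟨a, ha⟩ := card_pos.1 h1
    exact ⟨a, (hmS a).1 ha⟩
  -- the type B rows
  set B : Finset I := univ.filter fun i => ∃ σ : ℤ, (σ = 1 ∨ σ = -1) ∧ ∀ a ∈ S, x i a = σ with hB
  -- `σ`
  set σ : I → ℤ := fun i => x i a1 with hσ
  have hσB : ∀ i ∈ B, ∀ a ∈ S, x i a = σ i := by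
    intro i hi a ha
    obtain ⟨s, _, hs⟩ := (mem_filter.1 hi).2
    simp only [hσ]
    rw [hs a ha, hs a1 ((hmS a1).2 ha1)]
  have hσ2 : ∀ i ∈ B, σ i * σ i = 1 := by
    intro i hi
    obtain ⟨s, hs1, hs⟩ := (mem_filter.1 hi).2
    simp only [hσ]
    rw [hs a1 ((hmS a1).2 ha1)]
    rcases hs1 with h | h <;> rw [h] <;> norm_num
  have hA : ∀ i, i ∉ B → ∀ a b, a ≠ l0 → b ≠ l0 → nn E a b = 0 → x i a * x i b = 0 := by
    intro i hi a b ha hb hab
    rcases htype i with h | ⟨h1, h2⟩
    · exact absurd (mem_filter.2 ⟨mem_univ i, h⟩) hi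
    · by_contra hne
      have hxa : x i a ≠ 0 := left_ne_zero_of_mul hne
      have hxb : x i b ≠ 0 := right_ne_zero_of_mul hne
      have h3 : (univ.image fun h : E => h • a) ⊆ (S.filter fun a => x i a ≠ 0).erase b := by
        intro c hc
        obtain ⟨g, _, rfl⟩ := mem_image.1 hc
        refine mem_erase.2 ⟨?_, mem_filter.2 ⟨(hmS _).2 ?_, by rw [hxE]; exact hxa⟩⟩
        · intro h
          have h4 := nn_self_pos E b
          rw [← h, nn_smul, h, hab] at h4
          norm_num at h4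
        · intro h
          apply ha
          rw [← inv_smul_smul g a, h, hfix]
      have h5 := card_le_card h3
      have h6 : b ∈ S.filter fun a => x i a ≠ 0 := mem_filter.2 ⟨(hmS b).2 hb, hxb⟩
      have h7 := card_erase_lt_of_mem h6
      have h8 : ((univ.image fun h : E => h • a).card : ℤ) <
          ((S.filter fun a => x i a ≠ 0).card : ℤ) := by
        exact_mod_cast lt_of_le_of_lt h5 h7
      rw [card_orb (hreg a ha), h1] at h8
      exact absurd h8 (lt_irrefl _)
  have hBsum : ∀ a b, a ≠ l0 → b ≠ l0 → ∑ i ∈ B, x i a * x i b = B.card := by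
    intro a b ha hb
    have h1 : ∀ i ∈ B, x i a * x i b = 1 := by
      intro i hi
      rw [hσB i hi a ((hmS a).2 ha), hσB i hi b ((hmS b).2 hb), hσ2 i hi]
    rw [sum_congr rfl h1]
    simp
  have hBc : (B.card : ℤ) = e := by
    -- a second orbit
    obtain ⟨b1, hb1, hab⟩ : ∃ b, b ≠ l0 ∧ nn E b a1 = 0 := by
      by_contra hcon
      push Not at hcon
      have h1 : S ⊆ univ.image fun h : E => h • a1 := by
        intro b hb
        obtain ⟨g, hg⟩ := nn_ne_zero E (hcon b ((hmS b).1 hb))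
        exact mem_image.2 ⟨g, mem_univ _, hg⟩
      have h2 : (S.card : ℤ) ≤ e := by
        rw [he, ← card_orb (hreg a1 ha1)]
        exact_mod_cast card_le_card h1
      rw [hSc] at h2
      nlinarith
    have h1 := hGx b1 a1 hb1 ha1
    rw [hab, zero_add, ← sum_add_sum_compl B, hBsum b1 a1 hb1 ha1,
      sum_eq_zero (s := Bᶜ) (fun i hi => hA i (mem_compl.1 hi) b1 a1 hb1 ha1 hab), add_zero] at h1
    exact h1
  refine ⟨fun i => M l0 i + (if i ∈ B then σ i else 0), ?_⟩
  have hMx : ∀ a i, M a i = M l0 i + x i a := fun a i => by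
    simp only [hx]
    ring
  intro b c
  have hsplit : ∀ b c, ∑ i, (M b i - (M l0 i + (if i ∈ B then σ i else 0)))
      * (M c i - (M l0 i + (if i ∈ B then σ i else 0)))
      = ∑ i ∈ B, (x i b - σ i) * (x i c - σ i) + ∑ i ∈ Bᶜ, x i b * x i c := by
    intro b c
    rw [← sum_add_sum_compl B]
    congr 1
    · refine sum_congr rfl fun i hi => ?_
      rw [if_pos hi, hMx b, hMx c]
      ring
    · refine sum_congr rfl fun i hi => ?_
      rw [if_neg (mem_compl.1 hi), hMx b, hMx c]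
      ring
  rw [hsplit]
  have hxl : ∀ i, x i l0 = 0 := fun i => by
    simp only [hx]
    ring
  by_cases hb : b = l0
  · by_cases hc : c = l0
    · rw [hb, hc, hn00]
      simp only [hxl, zero_sub, zero_mul, sum_const_zero, add_zero]
      rw [sum_congr rfl (fun i hi => (neg_mul_neg (σ i) (σ i)).trans (hσ2 i hi))]
      simp [hBc]
    · rw [hb, hn0' c hc]
      simp only [hxl, zero_mul, sum_const_zero, add_zero]
      refine sum_eq_zero fun i hi => ?_
      rw [hσB i hi c ((hmS c).2 hc), sub_self, mul_zero]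
  · by_cases hc : c = l0
    · rw [hc, hn0 b hb]
      simp only [hxl, mul_zero, sum_const_zero, add_zero]
      refine sum_eq_zero fun i hi => ?_
      rw [hσB i hi b ((hmS b).2 hb), sub_self, zero_mul]
    · have h1 := hGx b c hb hc
      rw [← sum_add_sum_compl B, hBsum b c hb hc, hBc] at h1
      rw [sum_eq_zero (s := B) (fun i hi => by
        rw [hσB i hi b ((hmS b).2 hb), sub_self, zero_mul]), zero_add]
      linarith

end

end Pool.Agent.Lib.P0c8ca5.Ex
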