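import Mathlib
import Pool.Agent.Lib.P0c8ca5Ex.XC

/-!
# XE: the row norms and the uniqueness of the extension

`row_of_gram`: the bound for the rows in `ext_pure` follows from the Gram matrix of the
differences. `ext_pure2`: `ext_pure` without the hypothesis on the rows. `uniq_pure`: the
extension is unique.
-/

set_option linter.unusedSectionVars false

namespace Pool.Agent.Lib.P0c8ca5.Ex

open Finset

section
variable {Λ : Type*} [Fintype Λ] [DecidableEq Λ] {E : Type*} [Group E] [Fintype E]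
  [MulAction E Λ] {I : Type*} [Fintype I]

theorem sum_mul_nn (f : Λ → ℤ) (c : Λ) : ∑ a, f a * nn E a c = ∑ h : E, f (h • c) := by
  have h1 : ∀ a, f a * nn E a c = ∑ h : E, if h • c = a then f a else 0 := by
    intro a
    unfold nn
    rw [← sum_filter, sum_const, nsmul_eq_mul, mul_comm]
  simp_rw [h1]
  rw [sum_comm]
  refine sum_congr rfl fun h _ => ?_
  rw [sum_ite_eq univ (h • c), if_pos (mem_univ _)]

theorem inv_of_gram (M : Λ → I → ℤ)
    (hG : ∀ a b c d, ∑ i, (M a i - M b i) * (M c i - M d i)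
      = nn E a c - nn E a d - nn E b c + nn E b d) (g : E) (a : Λ) (i : I) :
    M (g • a) i = M a i := by
  have h1 := hG (g • a) a (g • a) a
  rw [nn_smul, nn_smul_right, nn_smul] at h1
  have h2 : ∑ i, (M (g • a) i - M a i) * (M (g • a) i - M a i) = 0 := by
    rw [h1]
    ring
  have h3 := (sum_eq_zero_iff_of_nonneg (fun i _ => mul_self_nonneg _)).1 h2 i (mem_univ _)
  have h4 := mul_self_eq_zero.1 h3
  linarith

theorem row_of_gram (M : Λ → I → ℤ)
    (hG : ∀ a b c d, ∑ i, (M a i - M b i) * (M c i - M d i)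
      = nn E a c - nn E a d - nn E b c + nn E b d) (k : I) :
    (Fintype.card Λ : ℤ) * ∑ a, M a k ^ 2 - (∑ a, M a k) ^ 2
      ≤ Fintype.card Λ * Fintype.card E := by
  rcases isEmpty_or_nonempty Λ with hΛ | ⟨⟨b0⟩⟩
  · simp
  have hinv := inv_of_gram M hG
  set L : ℤ := (Fintype.card Λ : ℤ) with hL
  set e : ℤ := (Fintype.card E : ℤ) with he
  have hL0 : 0 < L := by
    rw [hL]
    have : Nonempty Λ := ⟨b0⟩
    exact_mod_cast Fintype.card_pos
  have he0 : 0 < e := by
    rw [he]
    exact_mod_cast Fintype.card_pos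
  set S : ℤ := ∑ a, M a k with hS
  set D : Λ → ℤ := fun a => L * M a k - S with hD
  have hD0 : ∑ a, D a = 0 := by
    simp only [hD]
    rw [sum_sub_distrib, ← mul_sum, sum_const, card_univ, nsmul_eq_mul]
    ring
  set B : I → ℤ := fun j => ∑ a, D a * M a j with hB
  have hB' : ∀ j, B j = ∑ a, D a * (M a j - M b0 j) := by
    intro j
    simp only [hB, mul_sub]
    rw [sum_sub_distrib, ← sum_mul, hD0, zero_mul, sub_zero]
  have hBk : B k = L * ∑ a, M a k ^ 2 - S ^ 2 := by
    simp only [hB, hD, sub_mul]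
    rw [sum_sub_distrib, ← mul_sum, ← hS, sq S]
    congr 1
    rw [mul_sum]
    exact sum_congr rfl fun a _ => by ring
  have hDD : ∑ c, D c ^ 2 = L * B k := by
    rw [hBk]
    have h1 : ∀ c, D c ^ 2 = L ^ 2 * M c k ^ 2 - 2 * L * S * M c k + S ^ 2 := fun c => by
      simp only [hD]
      ring
    simp_rw [h1]
    rw [sum_add_distrib, sum_sub_distrib, ← mul_sum, ← mul_sum, sum_const, card_univ,
      nsmul_eq_mul]
    ring
  have hBB : ∑ j, B j ^ 2 = e * (L * B k) := by
    have h1 : ∀ j, B j ^ 2 = ∑ a, ∑ c, D a * D c * ((M a j - M b0 j) * (M c j - M b0 j)) := by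
      intro j
      rw [hB', sq, sum_mul_sum]
      exact sum_congr rfl fun a _ => sum_congr rfl fun c _ => by ring
    simp_rw [h1]
    have h2 : ∑ j, ∑ a, ∑ c, D a * D c * ((M a j - M b0 j) * (M c j - M b0 j))
        = ∑ a, ∑ c, D a * D c * (nn E a c - nn E a b0 - nn E b0 c + nn E b0 b0) := by
      rw [sum_comm]
      refine sum_congr rfl fun a _ => ?_
      rw [sum_comm]
      refine sum_congr rfl fun c _ => ?_
      rw [← mul_sum, hG]
    rw [h2]
    have h3 : ∀ a, ∑ c, D a * D c * (nn E a c - nn E a b0 - nn E b0 c + nn E b0 b0)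
        = D a * (∑ c, D c * nn E c a) - D a * ∑ c, D c * nn E b0 c := by
      intro a
      have h4 : ∀ c, D a * D c * (nn E a c - nn E a b0 - nn E b0 c + nn E b0 b0)
          = (D a * (D c * nn E c a) - D a * (D c * nn E b0 c))
            + D a * (nn E b0 b0 - nn E a b0) * D c := by
        intro c
        rw [nn_symm E a c]
        ring
      simp_rw [h4]
      rw [sum_add_distrib, sum_sub_distrib, ← mul_sum, ← mul_sum, ← mul_sum, hD0, mul_zero,
        add_zero]
    simp_rw [h3]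
    rw [sum_sub_distrib, ← sum_mul, hD0, zero_mul, sub_zero, ← hDD, mul_sum]
    refine sum_congr rfl fun a _ => ?_
    rw [sum_mul_nn]
    have h5 : ∀ h : E, D (h • a) = D a := fun h => by
      simp only [hD]
      rw [hinv]
    simp_rw [h5]
    rw [sum_const, card_univ, nsmul_eq_mul, ← he]
    ring
  have h6 : B k ^ 2 ≤ ∑ j, B j ^ 2 := single_le_sum (f := fun j => B j ^ 2)
    (fun j _ => sq_nonneg _) (mem_univ k)
  rw [hBB] at h6
  rw [← hBk]
  by_contra hcon
  push Not at hcon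
  nlinarith [mul_pos hL0 he0]

/-- **the extension lemma** -/
theorem ext_pure2 {p : ℕ} (hp3 : Fintype.card E + 3 ≤ p) (hL : p ^ 2 ≤ Fintype.card Λ)
    (hfix : ∀ h : E, h ≠ 1 → p * (univ.filter fun a : Λ => h • a = a).card ≤ Fintype.card Λ)
    (M : Λ → I → ℤ)
    (hG : ∀ a b c d, ∑ i, (M a i - M b i) * (M c i - M d i)
      = nn E a c - nn E a d - nn E b c + nn E b d) :
    ∃ C : I → ℤ, ∀ b c, ∑ i, (M b i - C i) * (M c i - C i) = nn E b c :=
  ext_pure hp3 hL hfix M hG (row_of_gram M hG)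

end

section
variable {I : Type*} [Fintype I]

/-- an integral vector of norm 1 -/
theorem norm_one {x : I → ℤ} (hx : ∑ i, x i ^ 2 = 1) :
    ∃ i, (x i = 1 ∨ x i = -1) ∧ ∀ j, j ≠ i → x j = 0 := by
  classical
  obtain ⟨i, hi⟩ : ∃ i, x i ≠ 0 := by
    by_contra h
    push Not at h
    rw [sum_eq_zero fun i _ => by rw [h i]; norm_num] at hx
    norm_num at hx
  have h1 : 1 ≤ x i ^ 2 := by
    have : 0 < x i ^ 2 := by positivity
    omega
  rw [← add_sum_erase univ _ (mem_univ i)] at hx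
  have h2 : 0 ≤ ∑ j ∈ univ.erase i, x j ^ 2 := sum_nonneg fun _ _ => sq_nonneg _
  have h3 : x i ^ 2 = 1 := by linarith
  have h4 : ∑ j ∈ univ.erase i, x j ^ 2 = 0 := by linarith
  refine ⟨i, ?_, ?_⟩
  · have h5 : (x i - 1) * (x i + 1) = 0 := by linarith
    rcases mul_eq_zero.1 h5 with h | h
    · left; linarith
    · right; linarith
  · intro j hj
    have h6 := (sum_eq_zero_iff_of_nonneg (fun _ _ => sq_nonneg _)).1 h4 j
      (mem_erase.2 ⟨hj, mem_univ j⟩)
    exact pow_eq_zero_iff (two_ne_zero) |>.1 h6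

/-- uniqueness of the normalisation -/
theorem uniq_pure (x y w C : I → ℤ) (hx : ∑ i, x i ^ 2 = 1) (hy : ∑ i, y i ^ 2 = 1)
    (hxy : ∑ i, x i * y i = 0) (hxw : ∑ i, x i * w i = 0) (hyw : ∑ i, y i * w i = 0)
    (hxC : ∑ i, (x i + C i) ^ 2 = ∑ i, x i ^ 2) (hyC : ∑ i, (y i + C i) ^ 2 = ∑ i, y i ^ 2)
    (hwC : ∑ i, (w i + C i) ^ 2 = ∑ i, w i ^ 2) : ∀ i, C i = 0 := by
  classical
  have hexp : ∀ z : I → ℤ, ∑ i, (z i + C i) ^ 2
      = ∑ i, z i ^ 2 + 2 * ∑ i, z i * C i + ∑ i, C i ^ 2 := by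
    intro z
    rw [mul_sum, ← sum_add_distrib, ← sum_add_distrib]
    exact sum_congr rfl fun i _ => by ring
  rw [hexp] at hxC hyC hwC
  obtain ⟨i, hi1, hi⟩ := norm_one hx
  obtain ⟨j, hj1, hj⟩ := norm_one hy
  have hxs : ∀ z : I → ℤ, ∑ k, x k * z k = x i * z i := by
    intro z
    rw [sum_eq_single i]
    · intro k _ hk
      rw [hi k hk, zero_mul]
    · intro h
      exact absurd (mem_univ i) h
  have hys : ∀ z : I → ℤ, ∑ k, y k * z k = y j * z j := by
    intro z
    rw [sum_eq_single j]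
    · intro k _ hk
      rw [hj k hk, zero_mul]
    · intro h
      exact absurd (mem_univ j) h
  rw [hxs] at hxy hxw hxC
  rw [hys] at hyw hyC
  have hij : i ≠ j := by
    intro h
    rw [h] at hxy hi1
    rcases hi1 with h1 | h1 <;> rcases hj1 with h2 | h2 <;> rw [h1, h2] at hxy <;>
      norm_num at hxy
  have hwi : w i = 0 := by
    rcases hi1 with h1 | h1 <;> rw [h1] at hxw <;> linarith
  have hwj : w j = 0 := by
    rcases hj1 with h1 | h1 <;> rw [h1] at hyw <;> linarith
  -- `|C|² = 2 s`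
  obtain ⟨s, hs⟩ : ∃ s, ∑ k, C k ^ 2 = 2 * s := ⟨-(x i * C i), by linarith⟩
  have h1 : C i ^ 2 = s ^ 2 := by
    have h2 : x i * C i = -s := by linarith
    have h3 : (x i * C i) ^ 2 = s ^ 2 := by rw [h2]; ring
    rcases hi1 with h4 | h4 <;> rw [h4] at h3 <;> linarith
  have h2 : C j ^ 2 = s ^ 2 := by
    have h2 : y j * C j = -s := by linarith
    have h3 : (y j * C j) ^ 2 = s ^ 2 := by rw [h2]; ring
    rcases hj1 with h4 | h4 <;> rw [h4] at h3 <;> linarith
  have h3 : ∑ k, w k * C k = -s := by linarith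
  have hs0 : s = 0 := by
    by_contra hne
    obtain ⟨k, hk⟩ : ∃ k, w k * C k ≠ 0 := by
      by_contra h
      push Not at h
      rw [sum_eq_zero fun k _ => h k] at h3
      exact hne (by linarith)
    have hki : k ≠ i := by
      rintro rfl
      rw [hwi, zero_mul] at hk
      exact hk rfl
    have hkj : k ≠ j := by
      rintro rfl
      rw [hwj, zero_mul] at hk
      exact hk rfl
    have hCk : 1 ≤ C k ^ 2 := by
      have h4 : C k ≠ 0 := right_ne_zero_of_mul hk
      have : 0 < C k ^ 2 := by positivity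
      omega
    have h5 : C i ^ 2 + (C j ^ 2 + C k ^ 2) ≤ ∑ k, C k ^ 2 := by
      have h6 : ∑ k ∈ ({i, j, k} : Finset I), C k ^ 2 ≤ ∑ k, C k ^ 2 :=
        sum_le_sum_of_subset_of_nonneg (subset_univ _) fun _ _ _ => sq_nonneg _
      rw [sum_insert (by simp [hij, Ne.symm hki]), sum_insert (by simp [Ne.symm hkj]),
        sum_singleton] at h6
      exact h6
    rw [h1, h2, hs] at h5
    nlinarith [sq_nonneg (2 * s - 1)]
  rw [hs0, mul_zero] at hs
  intro k
  have h4 := (sum_eq_zero_iff_of_nonneg (fun _ _ => sq_nonneg _)).1 hs k (mem_univ k)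
  exact pow_eq_zero_iff (two_ne_zero) |>.1 h4

end

end Pool.Agent.Lib.P0c8ca5.Ex
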