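import Mathlib
import Pool.Agent.Lib.P0c8ca5Ex.YC
import Pool.Agent.Lib.P0c8ca5Ex.XE
import Pool.Agent.Lib.P0c8ca5Ex.XD
import Pool.Agent.Lib.P0c8ca5Ex.R3
import Pool.Agent.Lib.P0c8ca5Ku.KD

/-!
# YL: the extension of the rows (pure part)

`ext_rel`: `E ≤ Aut(T)` fixes the elements of `R`, `|E| + 3 ≤ p`; rows `Θ i ∈ vir`, constant on the cosets of
`R`, with the Gram matrix of the `E`-set `T / R` outside `R`. Then there are rows `ψ i ∈ vir`, constant on the
cosets of `R`, equal to `Θ i` outside `R`, with this Gram matrix everywhere. PROOF: `Λ` = the characters of `T`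
trivial on `R` (`|Λ| = |T| / |R|`), `E` acts, `M λ i = mlt (Θ i) λ` (integers); the difference Gram matrix of the
`M λ` is that of `nn E` (Fourier transform; the value of the Gram matrix on `R` drops out of the differences);
`ext_pure2` if `|T/R| ≥ p²`, `caseB` if `|T/R| = p`; `ψ i = Θ i - C i ∑_(λ ∈ Λ) λ`.
`ext_uniq`: the `ψ` are unique: `uniq_pure` (two non conjugate regular characters and `λ = 1`), as two solutions
differ by `C i ∑_(λ ∈ Λ) λ`.
-/

set_option linter.unusedSectionVars false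

namespace Pool.Agent.Lib.P0c8ca5.Ex

open Finset

section
variable {T : Type*} [CommGroup T] [Fintype T] {K : Type*} [Field K] [CharZero K]
  [HasEnoughRootsOfUnity K (Monoid.exponent T)]

/-- the Gram matrix of the `E`-set `T / R` -/
def GramR (E : Subgroup (MulAut T)) (R : Subgroup T) {I : Type*} [Fintype I] (ψ : I → T → K)
    (u v : T) : Prop :=
  ((∃ α ∈ E, ∃ z ∈ R, v = z * α u) → (Nat.card R : K) * ∑ i, ψ i u * ψ i v⁻¹
      = (Fintype.card T : K) * (Nat.card {α : E // (α : MulAut T) u = u} : K)) ∧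
  ((¬ ∃ α ∈ E, ∃ z ∈ R, v = z * α u) → ∑ i, ψ i u * ψ i v⁻¹ = 0)

end

namespace YLx

section
variable {T : Type*} [CommGroup T] [Fintype T] {K : Type*} [Field K] [CharZero K]
  [HasEnoughRootsOfUnity K (Monoid.exponent T)]

/-- the characters of `T / R` -/
@[ext] structure LR (K : Type*) [Field K] (R : Subgroup T) where
  /-- the character of `T` -/
  val : T →* Kˣ
  /-- it is trivial on `R` -/
  prop : eqP R val 1

/-- `LR` as a subtype -/
def LR.equiv (R : Subgroup T) : {l : T →* Kˣ // eqP R l 1} ≃ LR K R where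
  toFun x := ⟨x.1, x.2⟩
  invFun x := ⟨x.1, x.2⟩
  left_inv _ := rfl
  right_inv _ := rfl

noncomputable instance (R : Subgroup T) : Fintype (LR K R) := by
  classical
  exact Fintype.ofEquiv _ (LR.equiv R)

noncomputable instance (R : Subgroup T) : DecidableEq (LR K R) := Classical.decEq _

open Classical in
theorem sum_LR {M : Type*} [AddCommMonoid M] (R : Subgroup T) (f : (T →* Kˣ) → M) :
    ∑ a : LR K R, f a.1 = ∑ b ∈ univ.filter (fun b : T →* Kˣ => eqP R b 1), f b := by
  refine sum_bij (fun a _ => a.1) ?_ ?_ ?_ ?_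
  · exact fun a _ => mem_filter.2 ⟨mem_univ _, a.2⟩
  · exact fun a _ b _ h => LR.ext h
  · exact fun b hb => ⟨⟨b, (mem_filter.1 hb).2⟩, mem_univ _, rfl⟩
  · exact fun _ _ => rfl

theorem card_LR (R : Subgroup T) :
    Nat.card R * Fintype.card (LR K R) = Fintype.card T := by
  classical
  rw [← card_eqP (K := K) R 1]
  congr 1
  have h1 := sum_LR (K := K) R (fun _ => (1 : ℕ))
  rw [sum_const, sum_const, card_univ] at h1
  simpa using h1

theorem sum_LR_notMem {R : Subgroup T} {u : T} (hu : u ∉ R) :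
    ∑ a : LR K R, chr a.1 u = 0 := by
  classical
  rw [sum_LR R (fun b => chr b u)]
  exact sum_eqP R 1 u hu

theorem chr_LR {R : Subgroup T} (a : LR K R) {z : T} (hz : z ∈ R) : chr a.1 z = 1 := by
  unfold chr
  rw [a.2 z hz]
  rfl

theorem sum_LR_mem {R : Subgroup T} {u : T} (hu : u ∈ R) :
    ∑ a : LR K R, chr a.1 u = Fintype.card (LR K R) := by
  rw [sum_congr rfl fun a _ => chr_LR a hu, sum_const, card_univ, nsmul_eq_mul, mul_one]

variable {E : Subgroup (MulAut T)} {R : Subgroup T} [hER : Fact (∀ α ∈ E, ∀ z ∈ R, α z = z)]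

theorem eqP_dl (hα : ∀ α ∈ E, ∀ z ∈ R, α z = z) (α : E) {l : T →* Kˣ} (hl : eqP R l 1) :
    eqP R (dl l α) 1 := by
  intro z hz
  have h1 : dl l α z = l ((α : MulAut T) z) := rfl
  rw [h1, hα _ α.2 z hz]
  exact hl z hz

instance : MulAction E (LR K R) where
  smul α l := ⟨dl l.1 ((α⁻¹ : E) : MulAut T), eqP_dl hER.out _ l.2⟩
  one_smul l := by
    refine LR.ext ?_
    change dl l.1 (((1 : E)⁻¹ : E) : MulAut T) = l.1
    rw [inv_one, OneMemClass.coe_one, dl_one]
  mul_smul α β l := by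
    refine LR.ext ?_
    change dl l.1 (((α * β)⁻¹ : E) : MulAut T) = dl (dl l.1 ((β⁻¹ : E) : MulAut T)) ((α⁻¹ : E) : MulAut T)
    rw [mul_inv_rev, Subgroup.coe_mul, dl_mul]

theorem smul_LR (α : E) (l : LR K R) : (α • l).1 = dl l.1 ((α⁻¹ : E) : MulAut T) := rfl

variable [Fintype E]

open Classical in
theorem nn_LR (a c : LR K R) :
    (nn E a c : K) = ∑ α : E, if dl c.1 (α : MulAut T) = a.1 then 1 else 0 := by
  unfold nn
  rw [sum_boole]
  push_cast
  congr 1
  refine card_bij (fun h _ => h⁻¹) ?_ ?_ ?_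
  · intro h hh
    rw [mem_filter] at hh ⊢
    refine ⟨mem_univ _, ?_⟩
    rw [← hh.2]
    rfl
  · intro h _ g _ hg
    exact inv_injective hg
  · intro h hh
    rw [mem_filter] at hh
    refine ⟨h⁻¹, mem_filter.2 ⟨mem_univ _, LR.ext ?_⟩, inv_inv h⟩
    rw [smul_LR, inv_inv]
    exact hh.2

omit hER
open Classical in
/-- the number of `α` in `E` with `α u ∈ R v` -/
noncomputable def gR (E : Subgroup (MulAut T)) (R : Subgroup T) [Fintype E] (u v : T) : ℕ :=
  (univ.filter fun α : E => (α : MulAut T) u * v⁻¹ ∈ R).card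

open Classical in
theorem card_coset (R : Subgroup T) (w : T) :
    (univ.filter fun v => w * v⁻¹ ∈ R).card = Nat.card R := by
  rw [Nat.card_eq_fintype_card, Fintype.card_subtype]
  refine card_bij (fun v _ => w * v⁻¹) ?_ ?_ ?_
  · intro v hv
    exact mem_filter.2 ⟨mem_univ _, (mem_filter.1 hv).2⟩
  · intro v _ v' _ h
    exact inv_injective (mul_left_cancel h)
  · intro z hz
    refine ⟨z⁻¹ * w, mem_filter.2 ⟨mem_univ _, ?_⟩, ?_⟩
    · have h1 : w * (z⁻¹ * w)⁻¹ = z := by group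
      rw [h1]
      exact (mem_filter.1 hz).2
    · group

theorem cardR_ne (R : Subgroup T) : (Nat.card R : K) ≠ 0 :=
  Nat.cast_ne_zero.2 Nat.card_pos.ne'

theorem four {F : T → T → K} {x y : T → K} (hy : ∀ z ∈ R, ∀ v, y (z * v) = y v)
    (h : ∀ u v, x u = 0 ∨ y v = 0 ∨ (Nat.card R : K) * F u v = Fintype.card T * (gR E R u v : K)) :
    ∑ u, ∑ v, F u v * (x u * y v)
      = Fintype.card T * ∑ α : E, ∑ u, x u * y ((α : MulAut T) u) := by
  classical
  refine mul_left_cancel₀ (cardR_ne (K := K) R) ?_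
  have h1 : ∀ u v, (Nat.card R : K) * (F u v * (x u * y v))
      = ∑ α : E, Fintype.card T * (x u * if (α : MulAut T) u * v⁻¹ ∈ R then y v else 0) := by
    intro u v
    have h2 : (Nat.card R : K) * (F u v * (x u * y v))
        = Fintype.card T * (gR E R u v : K) * (x u * y v) := by
      rcases h u v with h | h | h
      · rw [h]
        ring
      · rw [h]
        ring
      · rw [← h]
        ring
    rw [h2]
    unfold gR
    rw [card_filter, Nat.cast_sum, ← mul_sum, ← mul_sum, mul_assoc, sum_mul, mul_sum (f := fun i : E => if (i : MulAut T) u * v⁻¹ ∈ R then y v else 0)]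
    congr 1
    refine sum_congr rfl fun α _ => ?_
    split_ifs
    · push_cast
      ring
    · push_cast
      ring
  have h3 : ∀ (α : E) (u : T), ∑ v, (if (α : MulAut T) u * v⁻¹ ∈ R then y v else 0)
      = Nat.card R * y ((α : MulAut T) u) := by
    intro α u
    rw [← sum_filter, ← card_coset R ((α : MulAut T) u)]
    rw [sum_congr rfl (g := fun _ => y ((α : MulAut T) u)), sum_const, nsmul_eq_mul]
    intro v hv
    have h4 := hy _ (mem_filter.1 hv).2 v
    rw [← h4, inv_mul_cancel_right]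
  calc (Nat.card R : K) * ∑ u, ∑ v, F u v * (x u * y v)
      = ∑ u, ∑ v, (Nat.card R : K) * (F u v * (x u * y v)) := by
        rw [mul_sum]
        exact sum_congr rfl fun u _ => mul_sum _ _ _
    _ = ∑ u, ∑ v, ∑ α : E, Fintype.card T * (x u * if (α : MulAut T) u * v⁻¹ ∈ R then y v else 0) :=
        sum_congr rfl fun u _ => sum_congr rfl fun v _ => h1 u v
    _ = ∑ u, ∑ α : E, ∑ v, Fintype.card T * (x u * if (α : MulAut T) u * v⁻¹ ∈ R then y v else 0) :=
        sum_congr rfl fun u _ => sum_comm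
    _ = ∑ u, ∑ α : E, Fintype.card T * (x u * (Nat.card R * y ((α : MulAut T) u))) := by
        refine sum_congr rfl fun u _ => sum_congr rfl fun α _ => ?_
        rw [← mul_sum, ← mul_sum, h3]
    _ = ∑ α : E, ∑ u, Fintype.card T * (x u * (Nat.card R * y ((α : MulAut T) u))) := sum_comm
    _ = (Nat.card R : K) * (Fintype.card T * ∑ α : E, ∑ u, x u * y ((α : MulAut T) u)) := by
        rw [mul_sum, mul_sum]
        refine sum_congr rfl fun α _ => ?_
        rw [mul_sum, mul_sum]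
        exact sum_congr rfl fun u _ => by ring

end

/-! ### the Gram matrix -/

section
variable {T : Type*} [CommGroup T] [Fintype T] {K : Type*} [Field K] [CharZero K]
  [HasEnoughRootsOfUnity K (Monoid.exponent T)] {E : Subgroup (MulAut T)} {R : Subgroup T}

theorem not_dvd_card {p : ℕ} (hE : Nat.card E + 3 ≤ p) : ¬ p ∣ Nat.card E := fun h => by
  have h1 := Nat.le_of_dvd Nat.card_pos h
  omega

theorem pow_card_E (α : E) : (α : MulAut T) ^ Nat.card E = 1 := by
  have h1 : α ^ Nat.card E = 1 := pow_card_eq_one'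
  have h2 : ((α ^ Nat.card E : E) : MulAut T) = 1 := by
    rw [h1]
    rfl
  rwa [Subgroup.coe_pow] at h2

/-- `γ u ∈ R u` implies `γ u = u` -/
theorem fix_of_mem {p : ℕ} (hp : p.Prime) (hT : IsPGroup p T) (hE : Nat.card E + 3 ≤ p)
    (hER : ∀ α ∈ E, ∀ z ∈ R, α z = z) {γ : MulAut T} (hγ : γ ∈ E) {u : T} (h : u⁻¹ * γ u ∈ R) :
    γ u = u := by
  have h1 : γ ^ Nat.card E = 1 := pow_card_E ⟨γ, hγ⟩
  have h2 : u⁻¹ * γ u = 1 :=
    Ku.fix_cm hp hT h1 (not_dvd_card hE) ⟨u, rfl⟩ (hER γ hγ _ h)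
  exact (inv_mul_eq_one.1 h2).symm

theorem card_lt_p {p : ℕ} (hp : p.Prime) (hT : IsPGroup p T) {R P : Subgroup T} (hRP : R ≤ P)
    (h : ¬ P ≤ R) : p * Nat.card R ≤ Nat.card P := by
  have := Fact.mk hp
  obtain ⟨a, ha⟩ := IsPGroup.iff_card.1 (hT.to_subgroup R)
  obtain ⟨b, hb⟩ := IsPGroup.iff_card.1 (hT.to_subgroup P)
  have h1 : Nat.card R < Nat.card P := by
    rcases Nat.lt_or_ge (Nat.card R) (Nat.card P) with h1 | h1
    · exact h1
    · exact absurd (Subgroup.eq_of_le_of_card_ge hRP h1).ge h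
  rw [ha, hb] at h1
  have h2 : a < b := (Nat.pow_lt_pow_iff_right hp.one_lt).1 h1
  rw [ha, hb, mul_comm, ← pow_succ]
  exact Nat.pow_le_pow_right hp.pos h2

theorem map_mem_R (hER : ∀ α ∈ E, ∀ z ∈ R, α z = z) {β : MulAut T} (hβ : β ∈ E) {w : T}
    (h : β w ∈ R) : w ∈ R := by
  have h1 : β⁻¹ (β w) = β w := hER β⁻¹ (E.inv_mem hβ) _ h
  rw [MulAut.inv_apply_self] at h1
  rw [h1]
  exact h

variable [Fintype E]

theorem gR_pos {p : ℕ} (hp : p.Prime) (hT : IsPGroup p T) (hE : Nat.card E + 3 ≤ p)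
    (hER : ∀ α ∈ E, ∀ z ∈ R, α z = z) {u v : T} (h : ∃ α ∈ E, ∃ z ∈ R, v = z * α u) :
    gR E R u v = Nat.card {α : E // (α : MulAut T) u = u} := by
  classical
  obtain ⟨β, hβ, z, hz, rfl⟩ := h
  unfold gR
  rw [Nat.card_eq_fintype_card, Fintype.card_subtype]
  refine card_bij (fun α _ => (⟨β, hβ⟩ : E)⁻¹ * α) ?_ ?_ ?_
  · intro α hα
    refine mem_filter.2 ⟨mem_univ _, ?_⟩
    have h1 := (mem_filter.1 hα).2
    have h2 : β (u⁻¹ * (β⁻¹ * (α : MulAut T)) u) ∈ R := by
      have h3 : β (u⁻¹ * (β⁻¹ * (α : MulAut T)) u) = (α : MulAut T) u * (z * β u)⁻¹ * z := by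
        rw [map_mul, map_inv, MulAut.mul_apply, MulAut.apply_inv_self, mul_inv]
        rw [mul_comm (z⁻¹) ((β u)⁻¹), ← mul_assoc, inv_mul_cancel_right, mul_comm]
      rw [h3]
      exact R.mul_mem h1 hz
    exact fix_of_mem hp hT hE hER (E.mul_mem (E.inv_mem hβ) α.2) (map_mem_R hER hβ h2)
  · intro α _ α' _ h
    exact mul_left_cancel h
  · intro γ hγ
    have h1 := (mem_filter.1 hγ).2
    refine ⟨(⟨β, hβ⟩ : E) * γ, mem_filter.2 ⟨mem_univ _, ?_⟩, by rw [inv_mul_cancel_left]⟩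
    have h2 : (((⟨β, hβ⟩ : E) * γ : E) : MulAut T) u = β u := by
      rw [Subgroup.coe_mul, MulAut.mul_apply, h1]
    rw [h2, mul_inv, mul_comm z⁻¹, mul_inv_cancel_left]
    exact R.inv_mem hz

theorem gR_zero {u v : T} (h : ¬ ∃ α ∈ E, ∃ z ∈ R, v = z * α u) : gR E R u v = 0 := by
  classical
  unfold gR
  rw [card_eq_zero, filter_eq_empty_iff]
  intro α _ hα
  apply h
  refine ⟨α, α.2, ((α : MulAut T) u * v⁻¹)⁻¹, R.inv_mem hα, ?_⟩
  rw [mul_inv, inv_inv, mul_comm _ v, inv_mul_cancel_right]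

theorem gram_iff {p : ℕ} (hp : p.Prime) (hT : IsPGroup p T) (hE : Nat.card E + 3 ≤ p)
    (hER : ∀ α ∈ E, ∀ z ∈ R, α z = z) {I : Type*} [Fintype I] (ψ : I → T → K) (u v : T) :
    GramR E R ψ u v ↔
      (Nat.card R : K) * ∑ i, ψ i u * ψ i v⁻¹ = (Fintype.card T : K) * (gR E R u v : K) := by
  constructor
  · intro h
    by_cases h1 : ∃ α ∈ E, ∃ z ∈ R, v = z * α u
    · rw [h.1 h1, gR_pos hp hT hE hER h1]
    · rw [h.2 h1, gR_zero h1, Nat.cast_zero, mul_zero, mul_zero]
  · intro h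
    refine ⟨fun h1 => ?_, fun h1 => ?_⟩
    · rw [h, gR_pos hp hT hE hER h1]
    · rw [gR_zero h1, Nat.cast_zero, mul_zero] at h
      exact (mul_eq_zero.1 h).resolve_left (cardR_ne R)

/-! ### the multiplicities -/

theorem mlt_eq' (g : T → K) (l : T →* Kˣ) :
    mlt g l = (Fintype.card T : K)⁻¹ * ∑ u, g u⁻¹ * chr l u := by
  unfold mlt
  rw [← Equiv.sum_comp (Equiv.inv T)]
  simp only [Equiv.inv_apply, inv_inv]

/-- the multiplicities outside `LR` -/
theorem mlt_LR {g : T → K} (hg : ∀ z ∈ R, ∀ u, g (z * u) = g u) {l : T →* Kˣ}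
    (hl : ¬ eqP R l 1) : mlt g l = 0 := by
  obtain ⟨z, hz, hz1⟩ : ∃ z ∈ R, l z ≠ 1 := by
    by_contra h
    push Not at h
    exact hl h
  have h1 : ∑ u, g u * chr l u⁻¹ = chr l z⁻¹ * ∑ u, g u * chr l u⁻¹ := by
    rw [mul_sum, ← Equiv.sum_comp (Equiv.mulLeft z)]
    refine sum_congr rfl fun u _ => ?_
    rw [Equiv.coe_mulLeft, hg z hz, mul_inv, chr_map_mul]
    ring
  have h2 : (1 - chr l z⁻¹) * ∑ u, g u * chr l u⁻¹ = 0 := by
    rw [sub_mul, one_mul, ← h1, sub_self]
  rcases mul_eq_zero.1 h2 with h3 | h3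
  · exfalso
    apply hz1
    have h4 : chr l z⁻¹ = 1 := (sub_eq_zero.1 h3).symm
    have h5 := chr_mul_inv l z
    rw [h4, mul_one] at h5
    exact Units.ext h5
  · unfold mlt
    rw [h3, mul_zero]

theorem eq_sum_LR {g : T → K} (hg : ∀ z ∈ R, ∀ u, g (z * u) = g u) (u : T) :
    g u = ∑ a : LR K R, mlt g a.1 * chr a.1 u := by
  classical
  rw [eq_sum_mlt g u, sum_LR R (fun b => mlt g b * chr b u), sum_filter]
  refine sum_congr rfl fun l _ => ?_
  split_ifs with h
  · rfl
  · rw [mlt_LR hg h, zero_mul]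

variable [hER : Fact (∀ α ∈ E, ∀ z ∈ R, α z = z)]

open Classical in
/-- the Fourier transform of the Gram matrix -/
theorem gram_mlt {I : Type*} [Fintype I] {ψ : I → T → K} (x y : T → K)
    (hy : ∀ z ∈ R, ∀ v, y (z * v) = y v)
    (h : ∀ u v, x u = 0 ∨ y v = 0 ∨ (Nat.card R : K) * ∑ i, ψ i u * ψ i v⁻¹
      = (Fintype.card T : K) * (gR E R u v : K)) :
    ∑ i, ((Fintype.card T : K)⁻¹ * ∑ u, ψ i u * x u) * ((Fintype.card T : K)⁻¹ * ∑ v, ψ i v⁻¹ * y v)
      = ∑ α : E, (Fintype.card T : K)⁻¹ * ∑ u, x u * y ((α : MulAut T) u) := by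
  have h1 := four (F := fun u v => ∑ i, ψ i u * ψ i v⁻¹) hy h
  have h2 : ∑ i, ((Fintype.card T : K)⁻¹ * ∑ u, ψ i u * x u)
        * ((Fintype.card T : K)⁻¹ * ∑ v, ψ i v⁻¹ * y v)
      = (Fintype.card T : K)⁻¹ * (Fintype.card T : K)⁻¹ *
        ∑ u, ∑ v, (∑ i, ψ i u * ψ i v⁻¹) * (x u * y v) := by
    have h3 : ∀ i, ((Fintype.card T : K)⁻¹ * ∑ u, ψ i u * x u)
        * ((Fintype.card T : K)⁻¹ * ∑ v, ψ i v⁻¹ * y v)
        = (Fintype.card T : K)⁻¹ * (Fintype.card T : K)⁻¹ *
        ∑ u, ∑ v, (ψ i u * ψ i v⁻¹) * (x u * y v) := by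
      intro i
      rw [mul_mul_mul_comm, sum_mul_sum]
      congr 1
      exact sum_congr rfl fun u _ => sum_congr rfl fun v _ => by ring
    rw [sum_congr rfl fun i _ => h3 i, ← mul_sum, sum_comm]
    congr 1
    refine sum_congr rfl fun u _ => ?_
    rw [sum_comm]
    exact sum_congr rfl fun v _ => by rw [sum_mul]
  rw [h2, h1, mul_assoc, ← mul_assoc (Fintype.card T : K)⁻¹ (Fintype.card T : K),
    inv_mul_cancel₀ card_ne, one_mul, mul_sum]

open Classical in
theorem orth_LR (a c : T →* Kˣ) :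
    (Fintype.card T : K)⁻¹ * ∑ u, chr a u⁻¹ * chr c u = if c = a then 1 else 0 := by
  rw [← mlt_chr]
  unfold mlt
  congr 1
  exact sum_congr rfl fun u _ => mul_comm _ _

theorem chr_LR_mul (a : LR K R) {z : T} (hz : z ∈ R) (v : T) : chr a.1 (z * v) = chr a.1 v := by
  rw [chr_map_mul, chr_LR a hz, one_mul]

/-- the Gram matrix of the differences -/
theorem gram_diff {I : Type*} [Fintype I] {Θ : I → T → K}
    (h : ∀ u v, u ∉ R → v ∉ R → (Nat.card R : K) * ∑ i, Θ i u * Θ i v⁻¹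
      = (Fintype.card T : K) * (gR E R u v : K)) (a b c d : LR K R) :
    ∑ i, (mlt (Θ i) a.1 - mlt (Θ i) b.1) * (mlt (Θ i) c.1 - mlt (Θ i) d.1)
      = ((nn E a c - nn E a d - nn E b c + nn E b d : ℤ) : K) := by
  classical
  have h1 : ∀ i, (mlt (Θ i) a.1 - mlt (Θ i) b.1) * (mlt (Θ i) c.1 - mlt (Θ i) d.1)
      = ((Fintype.card T : K)⁻¹ * ∑ u, Θ i u * (chr a.1 u⁻¹ - chr b.1 u⁻¹))
        * ((Fintype.card T : K)⁻¹ * ∑ v, Θ i v⁻¹ * (chr c.1 v - chr d.1 v)) := by
    intro i
    rw [mlt_eq' _ c.1, mlt_eq' _ d.1]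
    unfold mlt
    rw [← mul_sub, ← mul_sub, ← sum_sub_distrib, ← sum_sub_distrib]
    simp only [mul_sub]
  rw [sum_congr rfl fun i _ => h1 i, gram_mlt (E := E) (R := R)]
  · push_cast
    rw [nn_LR, nn_LR, nn_LR, nn_LR, ← sum_sub_distrib, ← sum_sub_distrib, ← sum_add_distrib]
    refine sum_congr rfl fun α _ => ?_
    have h2 : ∀ u, (chr a.1 u⁻¹ - chr b.1 u⁻¹) * (chr c.1 ((α : MulAut T) u)
        - chr d.1 ((α : MulAut T) u)) = chr a.1 u⁻¹ * chr (dl c.1 α) u
        - chr a.1 u⁻¹ * chr (dl d.1 α) u - chr b.1 u⁻¹ * chr (dl c.1 α) u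
        + chr b.1 u⁻¹ * chr (dl d.1 α) u := by
      intro u
      rw [chr_dl, chr_dl]
      ring
    rw [sum_congr rfl fun u _ => h2 u, sum_add_distrib, sum_sub_distrib, sum_sub_distrib, mul_add,
      mul_sub, mul_sub, orth_LR, orth_LR, orth_LR, orth_LR]
  · intro z hz v
    rw [chr_LR_mul c hz, chr_LR_mul d hz]
  · intro u v
    by_cases hu : u ∈ R
    · left
      rw [chr_LR a (R.inv_mem hu), chr_LR b (R.inv_mem hu), sub_self]
    · right
      by_cases hv : v ∈ R
      · left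
        rw [chr_LR c hv, chr_LR d hv, sub_self]
      · right
        exact h u v hu hv

/-- the Gram matrix of the multiplicities -/
theorem gram_full {I : Type*} [Fintype I] {Θ : I → T → K}
    (h : ∀ u v, (Nat.card R : K) * ∑ i, Θ i u * Θ i v⁻¹
      = (Fintype.card T : K) * (gR E R u v : K)) (a c : LR K R) :
    ∑ i, mlt (Θ i) a.1 * mlt (Θ i) c.1 = ((nn E a c : ℤ) : K) := by
  classical
  have h1 : ∀ i, mlt (Θ i) a.1 * mlt (Θ i) c.1
      = ((Fintype.card T : K)⁻¹ * ∑ u, Θ i u * chr a.1 u⁻¹)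
        * ((Fintype.card T : K)⁻¹ * ∑ v, Θ i v⁻¹ * chr c.1 v) := by
    intro i
    rw [mlt_eq' _ c.1]
    rfl
  rw [sum_congr rfl fun i _ => h1 i, gram_mlt (E := E) (R := R) _ _ (fun z hz v => chr_LR_mul c hz v)
    (fun u v => Or.inr (Or.inr (h u v))), nn_LR]
  refine sum_congr rfl fun α _ => ?_
  rw [← orth_LR a.1 (dl c.1 α)]
  congr 1

/-- the Gram matrix of functions with the Gram matrix `nn` of multiplicities -/
theorem gram_back {I : Type*} [Fintype I] {ψ : I → T → K} (m : LR K R → I → K)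
    (hψ : ∀ i u, ψ i u = ∑ a : LR K R, m a i * chr a.1 u)
    (hm : ∀ a c : LR K R, ∑ i, m a i * m c i = ((nn E a c : ℤ) : K)) (u v : T) :
    (Nat.card R : K) * ∑ i, ψ i u * ψ i v⁻¹ = (Fintype.card T : K) * (gR E R u v : K) := by
  classical
  have h1 : ∑ i, ψ i u * ψ i v⁻¹ = ∑ a : LR K R, ∑ c : LR K R, ((nn E a c : ℤ) : K)
      * (chr a.1 u * chr c.1 v⁻¹) := by
    have h2 : ∀ i, ψ i u * ψ i v⁻¹ = ∑ a : LR K R, ∑ c : LR K R, (m a i * m c i)
        * (chr a.1 u * chr c.1 v⁻¹) := by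
      intro i
      rw [hψ, hψ, sum_mul_sum]
      exact sum_congr rfl fun a _ => sum_congr rfl fun c _ => by ring
    rw [sum_congr rfl fun i _ => h2 i, sum_comm]
    refine sum_congr rfl fun a _ => ?_
    rw [sum_comm]
    refine sum_congr rfl fun c _ => ?_
    rw [← sum_mul, hm]
  have h3 : ∑ a : LR K R, ∑ c : LR K R, ((nn E a c : ℤ) : K) * (chr a.1 u * chr c.1 v⁻¹)
      = ∑ α : E, ∑ c : LR K R, chr c.1 ((α : MulAut T) u * v⁻¹) := by
    calc ∑ a : LR K R, ∑ c : LR K R, ((nn E a c : ℤ) : K) * (chr a.1 u * chr c.1 v⁻¹)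
        = ∑ a : LR K R, ∑ c : LR K R, ∑ α : E, (if dl c.1 (α : MulAut T) = a.1 then
            chr a.1 u * chr c.1 v⁻¹ else 0) := by
          refine sum_congr rfl fun a _ => sum_congr rfl fun c _ => ?_
          rw [nn_LR, sum_mul]
          refine sum_congr rfl fun α _ => ?_
          split_ifs
          · rw [one_mul]
          · rw [zero_mul]
      _ = ∑ c : LR K R, ∑ a : LR K R, ∑ α : E, (if dl c.1 (α : MulAut T) = a.1 then
            chr a.1 u * chr c.1 v⁻¹ else 0) := sum_comm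
      _ = ∑ c : LR K R, ∑ α : E, ∑ a : LR K R, (if dl c.1 (α : MulAut T) = a.1 then
            chr a.1 u * chr c.1 v⁻¹ else 0) := sum_congr rfl fun c _ => sum_comm
      _ = ∑ c : LR K R, ∑ α : E, chr c.1 ((α : MulAut T) u * v⁻¹) := by
          refine sum_congr rfl fun c _ => sum_congr rfl fun α _ => ?_
          rw [sum_eq_single (⟨dl c.1 α, eqP_dl hER.out α c.2⟩ : LR K R)]
          · rw [if_pos rfl, chr_dl, chr_map_mul]
          · intro a _ ha
            rw [if_neg fun h => ha (LR.ext h.symm)]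
          · intro h
            exact absurd (mem_univ _) h
      _ = ∑ α : E, ∑ c : LR K R, chr c.1 ((α : MulAut T) u * v⁻¹) := sum_comm
  have h4 : ∀ α : E, ∑ c : LR K R, chr c.1 ((α : MulAut T) u * v⁻¹)
      = if (α : MulAut T) u * v⁻¹ ∈ R then (Fintype.card (LR K R) : K) else 0 := by
    intro α
    split_ifs with h
    · exact sum_LR_mem h
    · exact sum_LR_notMem h
  rw [h1, h3, sum_congr rfl fun α _ => h4 α, ← sum_filter, sum_const, nsmul_eq_mul,
    ← card_LR (K := K) R]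
  unfold gR
  push_cast
  ring

/-! ### fixed characters -/

theorem fix_LR {p : ℕ} (hp : p.Prime) (hT : IsPGroup p T) (hE : Nat.card E + 3 ≤ p) {h : E}
    (hh : h ≠ 1) : p * (univ.filter fun a : LR K R => h • a = a).card ≤ Fintype.card (LR K R) := by
  classical
  set φ : MulAut T := ((h⁻¹ : E) : MulAut T) with hφ
  set P : Subgroup T := R ⊔ (Ku.cm φ).range with hP
  have h1 : ∀ a : LR K R, h • a = a ↔ eqP P a.1 1 := by
    intro a
    constructor
    · intro ha
      have h2 : P ≤ a.1.ker := by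
        rw [hP]
        refine sup_le (fun z hz => a.2 z hz) ?_
        rintro _ ⟨u, rfl⟩
        rw [MonoidHom.mem_ker, Ku.cm_apply, map_mul, map_inv]
        have h3 : a.1 (φ u) = a.1 u := by
          have h4 := congrArg (fun x : LR K R => x.1 u) ha
          exact h4
        rw [h3, inv_mul_cancel]
      intro v hv
      exact h2 hv
    · intro ha
      refine LR.ext (MonoidHom.ext fun u => ?_)
      have h2 : Ku.cm φ u ∈ P := (le_sup_right : (Ku.cm φ).range ≤ P) ⟨u, rfl⟩
      have h3 := ha _ h2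
      rw [Ku.cm_apply, map_mul, map_inv, MonoidHom.one_apply, inv_mul_eq_one] at h3
      exact h3.symm
  have h2 : (univ.filter fun a : LR K R => h • a = a).card
      = (univ.filter fun b : T →* Kˣ => eqP P b 1).card := by
    refine card_bij (fun a _ => a.1) ?_ ?_ ?_
    · intro a ha
      exact mem_filter.2 ⟨mem_univ _, (h1 a).1 (mem_filter.1 ha).2⟩
    · intro a _ b _ hab
      exact LR.ext hab
    · intro b hb
      have hb' := (mem_filter.1 hb).2
      refine ⟨⟨b, fun z hz => hb' z ((le_sup_left : R ≤ P) hz)⟩, mem_filter.2 ⟨mem_univ _, ?_⟩, rfl⟩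
      exact (h1 _).2 hb'
  -- `P` is bigger than `R`
  have hRP : p * Nat.card R ≤ Nat.card P := by
    have h3 : ¬ P ≤ R := by
      intro hle
      apply hh
      have h4 : ∀ u, φ u = u := by
        intro u
        refine fix_of_mem hp hT hE hER.out (h⁻¹ : E).2 ?_
        exact hle ((le_sup_right : (Ku.cm φ).range ≤ P) ⟨u, rfl⟩)
      have h5 : (h⁻¹ : E) = 1 := Subtype.ext (MulEquiv.ext h4)
      exact inv_eq_one.1 h5
    exact card_lt_p hp hT le_sup_left h3
  rw [h2]
  have h9 := card_eqP (K := K) P 1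
  have h10 := card_LR (K := K) R
  have hR0 : 0 < Nat.card R := Nat.card_pos
  refine le_of_mul_le_mul_left ?_ hR0
  rw [h10, ← h9]
  calc Nat.card R * (p * (univ.filter fun b : T →* Kˣ => eqP P b 1).card)
      = (p * Nat.card R) * (univ.filter fun b : T →* Kˣ => eqP P b 1).card := by ring
    _ ≤ Nat.card P * (univ.filter fun b : T →* Kˣ => eqP P b 1).card :=
      Nat.mul_le_mul_right _ hRP

end

/-! ### the main theorems -/

section
variable {Λ : Type*} [Fintype Λ] [DecidableEq Λ] {E : Type*} [Group E] [Fintype E]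
  [MulAction E Λ]

/-- an invariant set of regular points -/
theorem dvd_inv (n : ℕ) : ∀ S : Finset Λ, S.card = n → (∀ a ∈ S, ∀ g : E, g • a ∈ S) →
    (∀ a ∈ S, nn E a a = 1) → Fintype.card E ∣ n := by
  induction n using Nat.strong_induction_on with
  | _ n ih =>
    intro S hn hS hreg
    rcases S.eq_empty_or_nonempty with h | ⟨a, ha⟩
    · rw [← hn, h, card_empty]
      exact dvd_zero _
    · set O : Finset Λ := univ.image fun h : E => h • a with hO
      have h1 : O.card = Fintype.card E := by exact_mod_cast card_orb (E := E) (hreg a ha)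
      have h2 : O ⊆ S := by
        intro b hb
        obtain ⟨g, _, rfl⟩ := mem_image.1 hb
        exact hS a ha g
      have h3 : (S \ O).card + O.card = S.card := card_sdiff_add_card_eq_card h2
      have hE0 : 0 < Fintype.card E := Fintype.card_pos
      have h4 := ih (S \ O).card (by omega) (S \ O) rfl (by
        intro b hb g
        rw [mem_sdiff] at hb ⊢
        refine ⟨hS b hb.1 g, fun h => hb.2 ?_⟩
        obtain ⟨k, _, hk⟩ := mem_image.1 h
        refine mem_image.2 ⟨g⁻¹ * k, mem_univ _, ?_⟩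
        rw [mul_smul]
        have hk' : k • a = g • b := hk
        rw [hk', inv_smul_smul]) (fun b hb => hreg b (mem_sdiff.1 hb).1)
      rw [← hn, ← h3, h1]
      exact Nat.dvd_add h4 dvd_rfl

end

section
variable {T : Type*} [CommGroup T] [Fintype T] {K : Type*} [Field K] [CharZero K]
  [HasEnoughRootsOfUnity K (Monoid.exponent T)]

theorem card_LR_cases {p : ℕ} (hp : p.Prime) (hT : IsPGroup p T) {R : Subgroup T} (hRT : R ≠ ⊤) :
    p ^ 2 ≤ Fintype.card (LR K R) ∨ Fintype.card (LR K R) = p := by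
  have := Fact.mk hp
  obtain ⟨n, hn⟩ := IsPGroup.iff_card.1 hT
  have h1 := card_LR (K := K) R
  rw [← Nat.card_eq_fintype_card (α := T), hn] at h1
  obtain ⟨m, _, hm⟩ := (Nat.dvd_prime_pow hp).1 (Dvd.intro_left _ h1)
  have hm0 : m ≠ 0 := by
    intro h
    rw [hm, h, pow_zero, mul_one, ← hn] at h1
    exact hRT (Subgroup.eq_top_of_card_eq R h1)
  rcases Nat.lt_or_ge m 2 with h | h
  · right
    have h2 : m = 1 := by omega
    rw [hm, h2, pow_one]
  · left
    rw [hm]
    exact Nat.pow_le_pow_right hp.pos h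

/-- the trivial character -/
def LR.one (R : Subgroup T) : LR K R := ⟨1, eqP_refl R 1⟩

variable {E : Subgroup (MulAut T)} {R : Subgroup T} [hER : Fact (∀ α ∈ E, ∀ z ∈ R, α z = z)]

theorem smul_one_LR (h : E) : h • (LR.one R : LR K R) = LR.one R := by
  refine LR.ext ?_
  rw [smul_LR]
  exact MonoidHom.one_comp _

variable [Fintype E]

theorem reg_LR {p : ℕ} (hp : p.Prime) (hT : IsPGroup p T) (hE : Nat.card E + 3 ≤ p)
    (hL : Fintype.card (LR K R) = p) {a : LR K R} (ha : a ≠ LR.one R) : nn E a a = 1 := by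
  unfold nn
  have h1 : (univ.filter fun h : E => h • a = a) = {1} := by
    ext h
    rw [mem_filter, mem_singleton]
    constructor
    · rintro ⟨_, h2⟩
      by_contra h3
      have h4 := fix_LR (K := K) (R := R) hp hT hE h3
      rw [hL] at h4
      have h5 : 1 < (univ.filter fun a : LR K R => h • a = a).card :=
        one_lt_card.2 ⟨a, mem_filter.2 ⟨mem_univ _, h2⟩, LR.one R,
          mem_filter.2 ⟨mem_univ _, smul_one_LR h⟩, ha⟩
      have hp0 := hp.pos
      nlinarith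
    · rintro rfl
      exact ⟨mem_univ _, one_smul _ _⟩
  rw [h1]
  simp

omit hER in
theorem int_mlt {I : Type*} {Θ : I → T → K} (hv : ∀ i, Θ i ∈ vir T K) :
    ∃ M : I → (T →* Kˣ) → ℤ, ∀ i l, mlt (Θ i) l = (M i l : K) :=
  ⟨fun i l => Classical.choose (mem_vir_iff.1 (hv i) l),
    fun i l => Classical.choose_spec (mem_vir_iff.1 (hv i) l)⟩

end

end YLx

open YLx

section
variable {T : Type*} [CommGroup T] [Fintype T] {K : Type*} [Field K] [CharZero K]
  [HasEnoughRootsOfUnity K (Monoid.exponent T)]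

theorem ext_rel {p : ℕ} (hp : p.Prime) (hT : IsPGroup p T) {E : Subgroup (MulAut T)}
    (hE : Nat.card E + 3 ≤ p) {R : Subgroup T} (hER : ∀ α ∈ E, ∀ z ∈ R, α z = z) (hRT : R ≠ ⊤)
    {I : Type*} [Fintype I] {Θ : I → T → K} (hv : ∀ i, Θ i ∈ vir T K)
    (hR : ∀ i, ∀ z ∈ R, ∀ u, Θ i (z * u) = Θ i u)
    (hG : ∀ u v, u ∉ R → v ∉ R → GramR E R Θ u v)
    (hB : p ^ 2 * Nat.card R ≤ Fintype.card T ∨
      ((∀ i, ∃ u, u ∉ R ∧ Θ i u ≠ 0) ∧
        (p - 1) + Nat.card E ^ 2 ≤ Nat.card E * Fintype.card I)) :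
    ∃ ψ : I → T → K, (∀ i, ψ i ∈ vir T K) ∧ (∀ i, ∀ z ∈ R, ∀ u, ψ i (z * u) = ψ i u) ∧
      (∀ i u, u ∉ R → ψ i u = Θ i u) ∧ ∀ u v, GramR E R ψ u v := by
  classical
  have hF : Fact (∀ α ∈ E, ∀ z ∈ R, α z = z) := ⟨hER⟩
  have : Fintype E := Fintype.ofFinite _
  have hcE : Nat.card E = Fintype.card E := Nat.card_eq_fintype_card
  have hgram : ∀ u v, u ∉ R → v ∉ R → (Nat.card R : K) * ∑ i, Θ i u * Θ i v⁻¹
      = (Fintype.card T : K) * (gR E R u v : K) :=
    fun u v hu hv => (gram_iff hp hT hE hER Θ u v).1 (hG u v hu hv)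
  obtain ⟨M, hM⟩ := int_mlt hv
  have hGM : ∀ a b c d : LR K R, ∑ i, (M i a.1 - M i b.1) * (M i c.1 - M i d.1)
      = nn E a c - nn E a d - nn E b c + nn E b d := by
    intro a b c d
    have h1 := gram_diff hgram a b c d
    simp only [hM] at h1
    exact_mod_cast h1
  have hsumM : ∀ i u, Θ i u = ∑ a : LR K R, (M i a.1 : K) * chr a.1 u := by
    intro i u
    rw [eq_sum_LR (hR i) u]
    exact sum_congr rfl fun a _ => by rw [hM]
  have hC : ∃ C : I → ℤ, ∀ b c : LR K R,
      ∑ i, (M i b.1 - C i) * (M i c.1 - C i) = nn E b c := by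
    rcases card_LR_cases (K := K) hp hT hRT with hL | hL
    · exact ext_pure2 (by rw [← hcE]; exact hE) hL
        (fun h hh => fix_LR hp hT hE hh) (fun a i => M i a.1) hGM
    · -- `|T| = p |R|`
      have hB' : (∀ i, ∃ u, u ∉ R ∧ Θ i u ≠ 0) ∧
          (p - 1) + Nat.card E ^ 2 ≤ Nat.card E * Fintype.card I := by
        rcases hB with h | h
        · exfalso
          have h1 := card_LR (K := K) R
          rw [hL] at h1
          have h2 : 0 < Nat.card R := Nat.card_pos
          have h3 := hp.two_le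
          rw [← h1] at h
          have h4 : p ^ 2 * Nat.card R = p * (Nat.card R * p) := by ring
          rw [h4] at h
          have h5 : 0 < Nat.card R * p := Nat.mul_pos h2 hp.pos
          nlinarith
        · exact h
      obtain ⟨t, ht⟩ := dvd_inv (E := E) (p - 1) (univ.erase (LR.one R : LR K R))
        (by rw [card_erase_of_mem (mem_univ _), card_univ, hL]) (by
          intro a ha g
          refine mem_erase.2 ⟨fun h => (mem_erase.1 ha).1 ?_, mem_univ _⟩
          rw [← inv_smul_smul g a, h, smul_one_LR])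
        (fun a ha => reg_LR hp hT hE hL (mem_erase.1 ha).1)
      have hE0 : 0 < Fintype.card E := Fintype.card_pos
      have hp0 := hp.two_le
      rw [hcE] at hE hB'
      have ht2 : 2 ≤ t := by
        by_contra h
        have h1 : t ≤ 1 := by omega
        have h2 : Fintype.card E * t ≤ Fintype.card E * 1 := Nat.mul_le_mul_left _ h1
        omega
      refine caseB (t := t) (l0 := LR.one R) ht2 ?_ ?_ (fun h => smul_one_LR h)
        (fun a ha => reg_LR hp hT (by rw [hcE]; exact hE) hL ha) (fun a i => M i a.1) hGM ?_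
      · rw [hL, mul_comm t]
        omega
      · have h1 := hB'.2
        rw [ht] at h1
        have h2 : Fintype.card E * (t + Fintype.card E) ≤ Fintype.card E * Fintype.card I := by
          calc Fintype.card E * (t + Fintype.card E)
              = Fintype.card E * t + Fintype.card E ^ 2 := by ring
            _ ≤ _ := h1
        exact le_of_mul_le_mul_left h2 hE0
      · intro i
        by_contra h
        push Not at h
        obtain ⟨u, hu, hu0⟩ := hB'.1 i
        apply hu0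
        rw [hsumM i u, sum_congr rfl fun a _ => by rw [h a], ← mul_sum, sum_LR_notMem hu, mul_zero]
  obtain ⟨C, hC⟩ := hC
  refine ⟨fun i u => ∑ a : LR K R, ((M i a.1 - C i : ℤ) : K) * chr a.1 u, ?_, ?_, ?_, ?_⟩
  · intro i
    have h1 : (fun u => ∑ a : LR K R, ((M i a.1 - C i : ℤ) : K) * chr a.1 u)
        = ∑ a : LR K R, (M i a.1 - C i) • (chr a.1 : T → K) := by
      funext u
      rw [Finset.sum_apply]
      refine sum_congr rfl fun a _ => ?_
      rw [Pi.smul_apply, zsmul_eq_mul]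
    change (fun u => ∑ a : LR K R, ((M i a.1 - C i : ℤ) : K) * chr a.1 u) ∈ vir T K
    rw [h1]
    exact sum_mem fun a _ => zsmul_mem (chr_mem a.1) _
  · intro i z hz u
    exact sum_congr rfl fun a _ => by rw [chr_LR_mul a hz]
  · intro i u hu
    change ∑ a : LR K R, ((M i a.1 - C i : ℤ) : K) * chr a.1 u = Θ i u
    have h1 : ∀ a : LR K R, ((M i a.1 - C i : ℤ) : K) * chr a.1 u
        = (M i a.1 : K) * chr a.1 u - (C i : K) * chr a.1 u := by
      intro a
      push_cast
      ring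
    rw [sum_congr rfl fun a _ => h1 a, sum_sub_distrib, ← mul_sum, sum_LR_notMem hu, mul_zero,
      sub_zero, hsumM]
  · intro u v
    refine (gram_iff hp hT hE hER _ u v).2 ?_
    refine gram_back (fun a i => ((M i a.1 - C i : ℤ) : K)) (fun i u => rfl) ?_ u v
    intro a c
    rw [← hC a c]
    push_cast
    rfl

theorem ext_uniq {p : ℕ} (hp : p.Prime) (hT : IsPGroup p T) {E : Subgroup (MulAut T)}
    (hE : Nat.card E + 3 ≤ p) {R : Subgroup T} (hER : ∀ α ∈ E, ∀ z ∈ R, α z = z) (hRT : R ≠ ⊤)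
    {I : Type*} [Fintype I] {ψ ψ' : I → T → K} (hv : ∀ i, ψ i ∈ vir T K)
    (hv' : ∀ i, ψ' i ∈ vir T K)
    (hR : ∀ i, ∀ z ∈ R, ∀ u, ψ i (z * u) = ψ i u) (hR' : ∀ i, ∀ z ∈ R, ∀ u, ψ' i (z * u) = ψ' i u)
    (he : ∀ i u, u ∉ R → ψ i u = ψ' i u)
    (hG : ∀ u v, GramR E R ψ u v) (hG' : ∀ u v, GramR E R ψ' u v) : ψ = ψ' := by
  classical
  have hF : Fact (∀ α ∈ E, ∀ z ∈ R, α z = z) := ⟨hER⟩
  have : Fintype E := Fintype.ofFinite _
  have hcE : Nat.card E = Fintype.card E := Nat.card_eq_fintype_card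
  have hgram : ∀ ψ : I → T → K, (∀ u v, GramR E R ψ u v) → ∀ u v,
      (Nat.card R : K) * ∑ i, ψ i u * ψ i v⁻¹ = (Fintype.card T : K) * (gR E R u v : K) :=
    fun ψ hG u v => (gram_iff hp hT hE hER ψ u v).1 (hG u v)
  obtain ⟨M, hM⟩ := int_mlt hv
  obtain ⟨M', hM'⟩ := int_mlt hv'
  have hGM : ∀ a c : LR K R, ∑ i, M i a.1 * M i c.1 = nn E a c := by
    intro a c
    have h1 := gram_full (hgram ψ hG) a c
    simp only [hM] at h1
    exact_mod_cast h1
  have hGM' : ∀ a c : LR K R, ∑ i, M' i a.1 * M' i c.1 = nn E a c := by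
    intro a c
    have h1 := gram_full (hgram ψ' hG') a c
    simp only [hM'] at h1
    exact_mod_cast h1
  -- three characters which are not conjugate
  have h3 : ∃ a b c : LR K R, nn E a a = 1 ∧ nn E b b = 1 ∧ nn E a b = 0 ∧ nn E a c = 0 ∧
      nn E b c = 0 := by
    rcases card_LR_cases (K := K) hp hT hRT with hL | hL
    · obtain ⟨a, ha1, ha0⟩ := five_reg (E := E) (by rw [← hcE]; exact hE) hL
        (fun h hh => fix_LR hp hT hE hh)
      exact ⟨a 0, a 1, a 2, ha1 0, ha1 1, ha0 0 1 (by decide), ha0 0 2 (by decide),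
        ha0 1 2 (by decide)⟩
    · have hE0 : 0 < Fintype.card E := Fintype.card_pos
      rw [hcE] at hE
      obtain ⟨a, ha⟩ : ∃ a : LR K R, a ≠ LR.one R := by
        have h1 : 1 < Fintype.card (LR K R) := by rw [hL]; exact hp.one_lt
        have : Nontrivial (LR K R) := Fintype.one_lt_card_iff_nontrivial.1 h1
        exact exists_ne _
      obtain ⟨b, hb⟩ : ∃ b : LR K R, b ∉ insert (LR.one R) (univ.image fun h : E => h • a) := by
        by_contra h
        push Not at h
        have h1 : (univ : Finset (LR K R)) ⊆ insert (LR.one R) (univ.image fun h : E => h • a) :=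
          fun x _ => h x
        have h2 := card_le_card h1
        have h4 := card_insert_le (LR.one R) (univ.image fun h : E => h • a)
        have h5 : (univ.image fun h : E => h • a).card ≤ Fintype.card E := by
          refine card_image_le.trans ?_
          rw [card_univ]
        rw [card_univ, hL] at h2
        omega
      rw [mem_insert, not_or] at hb
      have hn : ∀ x : LR K R, x ≠ LR.one R → nn E x (LR.one R) = 0 := by
        intro x hx
        by_contra h
        obtain ⟨g, hg⟩ := nn_ne_zero E h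
        rw [smul_one_LR] at hg
        exact hx hg.symm
      refine ⟨a, b, LR.one R, reg_LR hp hT (by rw [hcE]; exact hE) hL ha,
        reg_LR hp hT (by rw [hcE]; exact hE) hL hb.1, ?_, hn a ha, hn b hb.1⟩
      by_contra h
      rw [nn_symm] at h
      obtain ⟨g, hg⟩ := nn_ne_zero E h
      exact hb.2 (mem_image.2 ⟨g, mem_univ _, hg⟩)
  obtain ⟨a, b, c, haa, hbb, hab, hac, hbc⟩ := h3
  have hdiff : ∀ i (x y : LR K R), M' i x.1 - M i x.1 = M' i y.1 - M i y.1 := by
    intro i x y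
    have h1 : mlt (ψ' i) x.1 - mlt (ψ i) x.1 = mlt (ψ' i) y.1 - mlt (ψ i) y.1 := by
      unfold mlt
      rw [← mul_sub, ← mul_sub, ← sum_sub_distrib, ← sum_sub_distrib]
      congr 1
      refine sum_congr rfl fun u _ => ?_
      by_cases hu : u ∈ R
      · rw [chr_LR x (R.inv_mem hu), chr_LR y (R.inv_mem hu)]
      · rw [he i u hu]
        ring
    rw [hM, hM, hM', hM'] at h1
    exact_mod_cast h1
  have hC0 : ∀ i, M' i a.1 - M i a.1 = 0 := by
    have hx : ∀ z : LR K R, ∑ i, (M i z.1 + (M' i a.1 - M i a.1)) ^ 2 = ∑ i, M i z.1 ^ 2 := by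
      intro z
      have h1 : ∀ i, (M i z.1 + (M' i a.1 - M i a.1)) ^ 2 = M' i z.1 * M' i z.1 := by
        intro i
        rw [hdiff i a z]
        ring
      rw [sum_congr rfl fun i _ => h1 i, hGM', ← hGM]
      exact sum_congr rfl fun i _ => (sq _).symm
    refine uniq_pure (fun i => M i a.1) (fun i => M i b.1) (fun i => M i c.1)
      (fun i => M' i a.1 - M i a.1) ?_ ?_ ?_ ?_ ?_ (hx a) (hx b) (hx c)
    · rw [← haa, ← hGM]
      exact sum_congr rfl fun i _ => sq _
    · rw [← hbb, ← hGM]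
      exact sum_congr rfl fun i _ => sq _
    · rw [← hab, ← hGM]
    · rw [← hac, ← hGM]
    · rw [← hbc, ← hGM]
  funext i u
  rw [eq_sum_LR (hR i) u, eq_sum_LR (hR' i) u]
  refine sum_congr rfl fun x _ => ?_
  have h1 := hdiff i x a
  rw [hC0 i] at h1
  have h2 : M' i x.1 = M i x.1 := by linarith
  rw [hM, hM', h2]

end

end Pool.Agent.Lib.P0c8ca5.Ex
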