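import Mathlib
import Pool.Agent.Lib.P0c8ca5Ex.YF
import Pool.Agent.Lib.P0c8ca5Ex.YJ
import Pool.Agent.Lib.P0c8ca5Ex.YK
import Pool.Agent.Lib.P0c8ca5Ex.YL
import Pool.Agent.Lib.P0c8ca5Ex.GJ

/-!
# YM: the rows of the characters with `R` in the kernel

`IR φ R B`: the characters in the block with `R` in the kernel. `Rows φ D f R G B ψ`: the rows `ψ` extend the
rows `rwv` from `T - R` to `T` and have the Gram matrix of the `E`-set `T / R`.

* `eQ_top`, `eQ_sup`: `eQ` at `R` and at `R ⊔ ⟨u⟩`.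
* `exists_BB`: the lifts of the local blocks (`exists_cenB`; `BB H` is the lift of `dnr H c` for a `c` with
  `LbH H i c`, such a `c` is unique: two blocks of `H` are equal or orthogonal, and `resS H i ≠ 0` for
  `H = C1 (φ u)` by `Src.br`).
* `rwv_ne`: for regular `u ∉ R` the rows have no zeros. PROOF. `H = C1 (φ u)`, `Γ = G (R ⊔ ⟨u⟩)`, `eQ (R ⊔ ⟨u⟩) = 1`.
  The local block is nilpotent: `LD D i c H BH IH n` (see the proof of `exists_rowV` and `st_loc_reg`), so `NilC`:
  `ch j s` (`j ∈ IrB BH`, `s` `p`-regular) does not depend on `j` (`reg_dec`, `NilC.const`), hence `a = ip (ch j) Γ` does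
  not depend on `j` (`ip_rg`, `GOK.reg`) and `|T| a² = ip Γ Γ = |T|` (`NilC.card`, `GOK.nrm`, `ip_pars`), `a = 1` or
  `a = -1`. By `rwv_cut` and `cut_eq`, `rwv φ G R (ch χ) u = a * fch H BH χ (φ u)`. And `chO χ (φ u I) = n fch H BH χ (φ u)`
  (`hfac` in the proof of `rdataU`, or `val_conj` with `g = 1`), which is not `0` by `th_ne`.
* `exists_rows`: PROOF. `Θ` from `glue` for `X = ch χ` (clause for `z ∈ R` with `w = 1`); the Gram matrix outside
  `R` by `gram_ker`, where the characters outside the block do not contribute (`rwv_out`), `card_EG`, `st`;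
  then `ext_rel`; `|T|` is a power of `p`; if `|T| < p² |R|` then `|T| = p |R|`, all `u ∉ R` are regular (an element
  of `E` which fixes `R` and `u ∉ R` fixes `T = R ⊔ ⟨u⟩`), so `rwv_ne` and `card_rows` (YO) give the second alternative.
-/

set_option linter.unusedSectionVars false

namespace Pool.Agent.Lib.P0c8ca5.Ex

open MonoidAlgebra

section
variable {p : ℕ} [Fact p.Prime] {k : Type*} [Field k] [IsAlgClosed k] [CharP k p]
  {A : Type*} [Group A] [Finite A] {T : Type*} [CommGroup T] [Fintype T]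
  {φ : T →* A} {b f i : MonoidAlgebra k A} {D : Subgroup A} {R : Subgroup T}
  {G : Subgroup T → A → KW p k}

/-- the characters in the block with `R` in the kernel -/
def IR (φ : T →* A) (R : Subgroup T) (B : MonoidAlgebra (OW p k) A) : Type :=
  {χ : Ir (KW p k) A // Ker φ R χ ∧ chO χ B ≠ 0}

noncomputable instance (φ : T →* A) (R : Subgroup T) (B : MonoidAlgebra (OW p k) A) :
    Fintype (IR φ R B) := by
  classical
  exact inferInstanceAs (Fintype {χ : Ir (KW p k) A // Ker φ R χ ∧ chO χ B ≠ 0})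

/-- the extended rows -/
structure Rows (φ : T →* A) (D : Subgroup A) (f : MonoidAlgebra k A) (R : Subgroup T)
    (G : Subgroup T → A → KW p k) (B : MonoidAlgebra (OW p k) A)
    (ψ : IR φ R B → T → KW p k) : Prop where
  vir : ∀ χ, ψ χ ∈ vir T (KW p k)
  ker : ∀ χ, ∀ z ∈ R, ∀ u, ψ χ (z * u) = ψ χ u
  out : ∀ χ u, u ∉ R → ψ χ u = rwv φ G R (ch χ.1) u
  gram : ∀ u v, GramR (EG φ D f) R ψ u v

namespace YmAux

/-- an inertial automorphism fixes the elements with central image -/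
theorem fix_cen (hφ : Function.Injective φ) {α : MulAut T} (hα : α ∈ EG φ D f) {z : T}
    (hz : ∀ a : A, φ z * a = a * φ z) : α z = z := by
  obtain ⟨g, -, hg⟩ := hα
  apply hφ
  rw [hg, ← hz g, mul_inv_cancel_right]

theorem fix_sup {α : MulAut T} {P Q : Subgroup T} :
    (∀ t ∈ P ⊔ Q, α t = t) ↔ (∀ t ∈ P, α t = t) ∧ ∀ t ∈ Q, α t = t := by
  constructor
  · intro h
    exact ⟨fun t ht => h t (Subgroup.mem_sup_left ht), fun t ht => h t (Subgroup.mem_sup_right ht)⟩
  · rintro ⟨h1, h2⟩ t ht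
    obtain ⟨y, hy, z, hz, rfl⟩ := Subgroup.mem_sup.1 ht
    rw [map_mul, h1 y hy, h2 z hz]

theorem fix_zp {α : MulAut T} {u : T} : (∀ t ∈ Subgroup.zpowers u, α t = t) ↔ α u = u := by
  constructor
  · intro h
    exact h u (Subgroup.mem_zpowers u)
  · rintro h _ ⟨n, rfl⟩
    change α (u ^ n) = u ^ n
    rw [map_zpow, h]

end YmAux

open YmAux

theorem eQ_cen (hR : ∀ z ∈ R, ∀ a : A, φ z * a = a * φ z) (hφ : Function.Injective φ) :
    eQ φ D f R = Nat.card (EG φ D f) := by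
  rw [eQ]
  exact Nat.card_congr (Equiv.subtypeUnivEquiv fun α z hz => fix_cen hφ α.2 (hR z hz))

theorem eQ_sup (hR : ∀ z ∈ R, ∀ a : A, φ z * a = a * φ z) (hφ : Function.Injective φ) (u : T) :
    eQ φ D f (R ⊔ Subgroup.zpowers u) = st (EG φ D f) u ∧
      eQ φ D f (Subgroup.zpowers u) = st (EG φ D f) u := by
  constructor
  · rw [eQ, st]
    refine Nat.card_congr (Equiv.subtypeEquivRight fun α => ?_)
    rw [fix_sup, fix_zp]
    exact ⟨fun h => h.2, fun h => ⟨fun z hz => fix_cen hφ α.2 (hR z hz), h⟩⟩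
  · rw [eQ, st]
    exact Nat.card_congr (Equiv.subtypeEquivRight fun α => fix_zp)

theorem exists_BB (h : Src p b D f i) (hr : ∀ x, x ∈ D ↔ ∃ t, φ t = x) :
    ∃ BB : ∀ H : Subgroup A, MonoidAlgebra (OW p k) ↥H,
      ∀ u c, LbH (C1 (φ u)) i c → CenL (dnr (C1 (φ u)) c) (BB (C1 (φ u))) := by
  have key : ∀ H : Subgroup A, ∃ BH : MonoidAlgebra (OW p k) ↥H,
      ∀ u, C1 (φ u) = H → ∀ c, LbH H i c → CenL (dnr H c) BH := by
    intro H
    by_cases hH : ∃ c, LbH H i c
    · obtain ⟨c, hc⟩ := hH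
      obtain ⟨BH, hBH⟩ := exists_cenB (p := p) hc.blk
      refine ⟨BH, fun u hu c' hc' => ?_⟩
      have hu' : φ u ∈ D := (hr _).2 ⟨u, rfl⟩
      have h1 : CD (Subgroup.zpowers (φ u)) = H := (CD_zpowers _).trans hu
      have h2 : c = c' := Lb.unique h (zp_le hu') (hc.toLb h1) (hc'.toLb h1)
      rw [← h2]
      exact hBH
    · exact ⟨0, fun _ _ c hc => absurd ⟨c, hc⟩ hH⟩
  choose BB hBB using key
  exact ⟨BB, fun u c hc => hBB _ u rfl c hc⟩

namespace YmAux

/-- the multiplicities of the restriction -/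
theorem ip_mult (H : Subgroup A) (χ : Ir (KW p k) A) (s : Ir (KW p k) ↥H) :
    ip (on H (ch χ)) (ch s) = (mult H χ s : KW p k) := by
  have h1 : on H (ch χ) = fun x => ∑ j : Ir (KW p k) ↥H, ((mult H χ j : KW p k) • ch j) x := by
    funext x
    have h2 := chO_upr (O := OW p k) H χ (single x 1)
    rw [upr_single, YEAux.chO_single_ch] at h2
    rw [on, h2]
    refine Finset.sum_congr rfl fun j _ => ?_
    rw [YEAux.chO_single_ch, Pi.smul_apply, smul_eq_mul]
  rw [h1, ip_sum, Finset.sum_eq_single s]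
  · rw [ip_smul, ip_ch, if_pos rfl, mul_one]
  · intro j _ hj
    rw [ip_smul, ip_ch, if_neg hj, mul_zero]
  · intro h
    exact absurd (Finset.mem_univ _) h

/-- the characters of a nilpotent block agree on the `p`-regular elements -/
theorem nil_const {c : MonoidAlgebra k A} {B : MonoidAlgebra (OW p k) A} (hB : CenL c B)
    (hN : NilC D B) {s : A} (hs : Preg p s) (j j' : IrB B) : ch j.1 s = ch j'.1 s := by
  obtain ⟨n, ζ, ε, h1, -, h3⟩ := reg_dec (p := p) (k := k) hs
  have h4 : ∀ t, ∃ m : ℕ, ∀ χ : IrB B, chO χ.1 (ε t * B) = (m : KW p k) := by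
    intro t
    refine hN.const (ε t * B) ?_ ?_
    · calc ε t * B * (ε t * B) = ε t * (B * ε t) * B := by simp only [mul_assoc]
        _ = ε t * ε t * (B * B) := by rw [hB.cen]; simp only [mul_assoc]
        _ = ε t * B := by rw [h1, hB.idem]
    · rw [mul_assoc, hB.idem]
  choose m hm using h4
  have key : ∀ j : IrB B, ch j.1 s = ∑ t, algebraMap (OW p k) (KW p k) (ζ t) * (m t : KW p k) := by
    intro j
    rw [← YEAux.chO_single_ch, h3, map_sum]
    refine Finset.sum_congr rfl fun t _ => ?_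
    rw [chO_smul, ← hB.chO_in j.2, hm]
  rw [key, key]

end YmAux

theorem rwv_ne (hp2 : p ≠ 2) (h : Stp φ b D f i R G) (hE : ¬ p ∣ eN D f)
    {B : MonoidAlgebra (OW p k) A} (hB : CenL b B) {χ : Ir (KW p k) A} (hχ : chO χ B ≠ 0) {u : T}
    (hu : u ∉ R) (hreg : Reg D f (φ u)) : rwv φ G R (ch χ) u ≠ 0 := by
  classical
  have hsrc := h.src
  have hmem : φ u ∈ D := (h.ran _).2 ⟨u, rfl⟩
  obtain ⟨M, hM⟩ := pow_one_of hsrc
  -- the row is not zero
  obtain ⟨I, hl⟩ := exists_lf' hsrc hB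
  have hth := th_ne hsrc hE hl h.ran ⟨χ, hχ⟩ u
  -- the local block
  obtain ⟨BB, nn, hfam⟩ := exists_fam hsrc {u | ¬ Reg D f u} fun u hu huS c hc BH hBH =>
    nil hp2 (src_loc hsrc hu hc).root (st_loc_reg hsrc hu (not_not.1 huS)) hBH
  obtain ⟨c, IH, hc, hL⟩ := hfam (φ u) hmem (not_not.2 hreg)
  have hfac : th φ I χ u = (nn (C1 (φ u)) : KW p k) * fch (C1 (φ u)) (BB (C1 (φ u))) χ (φ u) :=
    fac_at (hM _ hmem) hl.ci.idem (hl.com _ hmem) hL.il.idem (cong_of hl.ci.red hL.il.red) hL.cl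
      hL.ib hL.val χ
  have hf0 : fch (C1 (φ u)) (BB (C1 (φ u))) χ (φ u) ≠ 0 := by
    intro h0
    rw [hfac, h0, mul_zero] at hth
    exact hth rfl
  set H := C1 (φ u) with hHdef
  set BH := BB H with hBHdef
  have hcq : cq φ (R ⊔ Subgroup.zpowers u) = H := cq_eq h.cen u
  have hRQ : R < R ⊔ Subgroup.zpowers u := by
    refine lt_of_le_of_ne le_sup_left fun h1 => hu ?_
    rw [h1]
    exact Subgroup.mem_sup_right (Subgroup.mem_zpowers u)
  have hok := h.ok _ hRQ
  have hblk := hok.blk c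
  have hnrm := hok.nrm
  have hregG := hok.reg
  rw [hcq] at hblk hnrm
  have hΓ := hblk hc
  set Γ := on H (G (R ⊔ Subgroup.zpowers u)) with hΓdef
  have hΓreg : rg p Γ = Γ := rg_eq fun x hx => hregG _ fun h1 => hx ((FIAux.preg_coe' x).1 h1)
  -- the inner products with `Γ` agree
  have hconst : ∀ j j' : IrB BH, ip (ch j.1) Γ = ip (ch j'.1) Γ := by
    intro j j'
    rw [← hΓreg, ← ip_rg, ← ip_rg]
    congr 1
    funext x
    by_cases hx : Preg p x
    · rw [rg_of hx, rg_of hx, nil_const hL.cl hL.nil hx j j']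
    · rw [rg_not hx, rg_not hx]
  have heQ : eQ φ D f (R ⊔ Subgroup.zpowers u) = 1 := by
    rw [(eQ_sup h.cen h.inj u).1]
    exact (st_EG h.inj h.ran u).2 hreg
  rw [heQ, Nat.cast_one, mul_one] at hnrm
  have hT0 : (Fintype.card T : KW p k) ≠ 0 := Nat.cast_ne_zero.2 Fintype.card_ne_zero
  -- a character in the block
  have hne : Nonempty (IrB BH) := by
    by_contra hcon
    rw [not_nonempty_iff] at hcon
    refine hT0 ?_
    rw [← hnrm, ip_pars (Y := Γ) hΓ.1]
    refine Finset.sum_eq_zero fun s _ => ?_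
    by_cases hs : chO s BH = 0
    · rw [hΓ.2 BH hL.cl s hs, zero_mul]
    · exact (hcon.false ⟨s, hs⟩).elim
  obtain ⟨j0⟩ := hne
  have ha0 : ip (ch j0.1) Γ ≠ 0 := by
    intro h0
    refine hT0 ?_
    rw [← hnrm, ip_pars (Y := Γ) hΓ.1]
    refine Finset.sum_eq_zero fun s _ => ?_
    by_cases hs : chO s BH = 0
    · rw [hΓ.2 BH hL.cl s hs, zero_mul]
    · rw [hconst ⟨s, hs⟩ j0, h0, mul_zero]
  have huH : φ u ∈ H := by
    rw [hHdef]
    exact mem_C1'.2 rfl
  have hcen : ∀ a : ↥H, (⟨φ u, huH⟩ : ↥H) * a = a * ⟨φ u, huH⟩ := fun a =>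
    Subtype.ext (mem_C1'.1 a.2)
  have hrow : rwv φ G R (ch χ) u = ip (ch j0.1) Γ * fch H BH χ (φ u) := by
    rw [rwv_cut h hu hcq hc hL.cl (ch_mem χ)]
    have hXH : on H (ch χ) ∈ V (KW p k) ↥H := V_comp H.subtype (ch_mem χ)
    have h3 : (on H fun y => cut H BH (ch χ) (φ u * y)) = fun y =>
        ∑ s : Ir (KW p k) ↥H, ((if chO s BH = 0 then 0 else
          (mult H χ s : KW p k) * om s (single (⟨φ u, huH⟩ : ↥H) 1)) • ch s) y := by
      funext y
      change cut H BH (ch χ) ((⟨φ u, huH⟩ * y : ↥H) : A) = _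
      rw [cut_eq hL.cl hXH, Finset.sum_filter]
      refine Finset.sum_congr rfl fun s _ => ?_
      by_cases hs : chO s BH = 0
      · rw [if_neg (not_not.2 hs), if_pos hs, zero_smul, Pi.zero_apply]
      · rw [if_pos hs, if_neg hs, Pi.smul_apply, smul_eq_mul, ip_mult, ← YEAux.chO_single_ch, ← YEAux.chO_single_ch,
          mul_assoc, ← chO_central_mul s hcen, single_mul_single, one_mul]
    rw [h3, ip_sum, fch, Finset.mul_sum]
    refine Finset.sum_congr rfl fun s _ => ?_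
    rw [ip_smul]
    by_cases hs : chO s BH = 0
    · rw [if_pos hs, if_pos hs, zero_mul, mul_zero]
    · rw [if_neg hs, if_neg hs, hconst ⟨s, hs⟩ j0, ← dnr_single H ⟨φ u, huH⟩]
      ring
  rw [hrow]
  exact mul_ne_zero ha0 hf0

end

end Pool.Agent.Lib.P0c8ca5.Ex
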