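import Mathlib
import Pool.Agent.Lib.P0c8ca5Ex.YM
import Pool.Agent.Lib.P0c8ca5Ex.YH
import Pool.Agent.Lib.P0c8ca5Ex.YD
import Pool.Agent.Lib.P0c8ca5Ex.GD

/-!
# YOa: the rows and the columns of the idempotents are independent

`col_count'`: in `K ^ IR` the rows at the places outside `R` (pairwise orthogonal with nonzero norm)
and the columns of the idempotents of the family of the block are linearly independent.
-/

set_option linter.unusedSectionVars false

namespace Pool.Agent.Lib.P0c8ca5.Ex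

open MonoidAlgebra YHAux

section
variable {p : ℕ} [Fact p.Prime] {k : Type*} [Field k] [IsAlgClosed k] [CharP k p]
  {A : Type*} [Group A] [Finite A]

namespace YOaAux

/-- the product of a nontrivial `p`-element and a `p`-regular element commuting with it -/
theorem not_preg {x y : A} {M : ℕ} (hx : x ^ p ^ M = 1) (hx1 : x ≠ 1) (hc : x * y = y * x)
    (hy : Preg p y) : ¬ Preg p (x * y) := by
  intro h
  have hp : p.Prime := Fact.out
  apply hx1
  have h1 : x ^ (orderOf (x * y) * orderOf y) = 1 := by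
    have h2 : (x * y) ^ (orderOf (x * y) * orderOf y) = 1 := by
      rw [pow_mul, pow_orderOf_eq_one, one_pow]
    rw [Commute.mul_pow hc, mul_comm (orderOf (x * y)) (orderOf y), pow_mul y,
      pow_orderOf_eq_one, one_pow, mul_one] at h2
    rw [mul_comm]
    exact h2
  have h3 : Nat.Coprime (orderOf (x * y) * orderOf y) (p ^ M) := by
    refine Nat.Coprime.pow_right M ?_
    rw [Nat.coprime_comm, hp.coprime_iff_not_dvd]
    intro h4
    rcases hp.dvd_mul.1 h4 with h5 | h5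
    · exact h h5
    · exact hy h5
  have h4 : orderOf x ∣ 1 := by
    rw [← h3]
    exact Nat.dvd_gcd (orderOf_dvd_of_pow_eq_one h1) (orderOf_dvd_of_pow_eq_one hx)
  exact orderOf_eq_one_iff.1 (Nat.dvd_one.1 h4)

/-- idempotents are orthogonal to the elements that are not `p`-regular -/
theorem idem_sing {F : MonoidAlgebra (OW p k) A} (hF : F * F = F) {y : A} (hy : ¬ Preg p y) :
    ∑ χ : Ir (KW p k) A, ch χ y * chO χ F = 0 := by
  obtain ⟨v, M, n, ζ, ε, hv, hv1, hε, hyd⟩ := single_dec' (p := p) (k := k) y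
  have hv2 : v ≠ 1 := fun h => hy (hv1 h)
  have hkey : ∀ j, ∑ χ : Ir (KW p k) A, chO χ (single v 1 * upr (C1 v) (ε j)) * chO χ F = 0 := by
    intro j
    have htop : ∀ w : A, F.coeff w ≠ 0 → w ∈ C1 (1 : A) := by
      intro w _
      rw [Subgroup.mem_centralizer_singleton_iff, mul_one, one_mul]
    have hud : upr (C1 (1 : A)) (dnr (C1 (1 : A)) F) = F := upr_dnr htop
    have hE' : dnr (C1 (1 : A)) F * dnr (C1 (1 : A)) F = dnr (C1 (1 : A)) F := by
      rw [← dnr_mul_upr, hud, hF]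
    have h2 := tp_chi_zero (K := KW p k) (p := p) (u := v) (v := (1 : A)) (M := M) hv
      (one_pow _) sepO (e1 := upr (C1 v) (ε j)) (e2 := F) (e1' := ε j)
      (e2' := dnr (C1 (1 : A)) F) (by rw [← map_mul, hε]) hF (hε j) hE'
      (single_upr v (ε j)) (by rw [← one_def, one_mul, mul_one]) (gap_self _ _ _)
      (fun c => by rw [coeff_dnr, sub_self]; exact dvd_zero _) (fun w hw => hv2 (by
        rw [mul_one] at hw
        exact mul_eq_right.1 hw))
    rw [inv_one, ← one_def] at h2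
    simpa only [mul_one] using h2
  have h3 : ∀ χ : Ir (KW p k) A, ch χ y * chO χ F = ∑ j, algebraMap (OW p k) (KW p k) (ζ j) *
      (chO χ (single v 1 * upr (C1 v) (ε j)) * chO χ F) := by
    intro χ
    rw [← chO_ch, hyd, map_sum, Finset.sum_mul]
    refine Finset.sum_congr rfl fun j _ => ?_
    rw [chO_smul]
    ring
  rw [Finset.sum_congr rfl fun χ _ => h3 χ, Finset.sum_comm]
  refine Finset.sum_eq_zero fun j _ => ?_
  rw [← Finset.mul_sum, hkey, mul_zero]

/-- a family of idempotents of the block with independent characters -/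
theorem exists_famA {b : MonoidAlgebra k A} (hb : IsBlock (⊤ : Subgroup A) b)
    {B : MonoidAlgebra (OW p k) A} (hB : CenL b B) :
    ∃ (n : ℕ) (E : Fin n → MonoidAlgebra (OW p k) A),
      n = Nat.card (Quotient (irrInvSetoid (⊤ : Subgroup A) ⊤ b)) ∧
      (∀ j, E j * E j = E j) ∧
      (∀ (j : Fin n) (χ : Ir (KW p k) A), chO χ B = 0 → chO χ (E j) = 0) ∧
      LinearIndependent (KW p k) fun j => fun χ : Ir (KW p k) A => chO χ (E j) := by
  classical
  have := Fintype.ofFinite A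
  have := Fintype.ofFinite ↥(C1 (1 : A))
  have hb1 : IsBlock (C1 (1 : A)) b := by rw [C1_one]; exact hb
  have hres : resS (C1 (1 : A) : Set A) b = b := by rw [C1_one]; exact resS_top b
  have : Finite (Quotient (irrInvSetoid (C1 (1 : A)) (C1 (1 : A)) b)) := finite_classes _ _ _
  have := Fintype.ofFinite (Quotient (irrInvSetoid (C1 (1 : A)) (C1 (1 : A)) b))
  obtain ⟨f, ψ, hf1, hf2, hψ, h1, h2⟩ := exists_idems hb1
  have hl : ∀ j, ∃ F : MonoidAlgebra (OW p k) ↥(C1 (1 : A)), IdL (f j) F := by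
    intro j
    obtain ⟨F, h, -⟩ := exists_idL (p := p) (hf1 j)
    exact ⟨F, h⟩
  choose F hF using hl
  have hgram := gram_ne (p := p) f ψ hψ h1 h2 F (fun j => (hF j).idem) (fun j => (hF j).red)
  have hid : ∀ j, upr (C1 (1 : A)) (F j) * upr (C1 (1 : A)) (F j) = upr (C1 (1 : A)) (F j) :=
    fun j => by rw [← map_mul, (hF j).idem]
  have hli : LinearIndependent (KW p k)
      fun j => fun χ : Ir (KW p k) A => chO χ (upr (C1 (1 : A)) (F j)) := by
    rw [Fintype.linearIndependent_iff]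
    intro g hg
    have h3 := Matrix.eq_zero_of_vecMul_eq_zero hgram (v := g) (by
      funext j'
      rw [Pi.zero_apply]
      have h4 : ∑ χ : Ir (KW p k) A,
          (∑ j, g j • fun χ : Ir (KW p k) A => chO χ (upr (C1 (1 : A)) (F j))) χ
          * chO χ (upr (C1 (1 : A)) (F j')) = 0 := by
        rw [hg]
        simp
      have h5 : ∀ j, ∑ χ : Ir (KW p k) A, chO χ (upr (C1 (1 : A)) (F j)) *
          chO χ (upr (C1 (1 : A)) (F j'))
          = ∑ ψ : Ir (KW p k) ↥(C1 (1 : A)), chO ψ (F j) * chO ψ (F j') := by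
        intro j
        have h6 := tp_chi_self (K := KW p k) (p := p) (u := (1 : A)) (M := 0) (one_pow _) sepO
          (hid j) (hid j') (hF j).idem (hF j').idem (single_upr 1 (F j)) (single_upr 1 (F j'))
          (gap_self _ _ _) (gap_self _ _ _)
        rw [inv_one, ← one_def] at h6
        simpa only [one_mul, mul_one] using h6
      rw [← h4, Matrix.vecMul, dotProduct]
      simp only [Matrix.of_apply, Finset.sum_apply, Pi.smul_apply, smul_eq_mul, Finset.sum_mul]
      rw [Finset.sum_comm]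
      refine Finset.sum_congr rfl fun j _ => ?_
      rw [← h5, Finset.mul_sum]
      exact Finset.sum_congr rfl fun χ _ => by ring)
    exact congrFun h3
  let e := (Fintype.equivFin (Quotient (irrInvSetoid (C1 (1 : A)) (C1 (1 : A)) b))).symm
  refine ⟨_, fun j => upr (C1 (1 : A)) (F (e j)), ?_, fun j => hid _, fun j χ hχ => ?_, ?_⟩
  · rw [← Nat.card_eq_fintype_card, C1_one]
  · have h3 := col_zero hB (u := (1 : A)) (M := 0) (one_pow _) hb1 (by rw [hres, hb.idem])
      (hf2 (e j)) (hF (e j)) χ hχ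
    rwa [← one_def, one_mul] at h3
  · exact hli.comp e e.injective

variable {T : Type*} [CommGroup T] [Fintype T]
  {φ : T →* A} {b f i : MonoidAlgebra k A} {D : Subgroup A} {R : Subgroup T}
  {G : Subgroup T → A → KW p k}

theorem om_sum (hR : ∀ z ∈ R, ∀ a : A, φ z * a = a * φ z) {χ : Ir (KW p k) A}
    (h : ¬ Ker φ R χ) : sm (fun z : ↥R => om χ (single (φ z) (1 : KW p k))) = 0 := by
  have h1 : ∃ z0 : ↥R, om χ (single (φ z0) (1 : KW p k)) ≠ 1 := by
    by_contra hcon
    push Not at hcon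
    apply h
    intro z hz x
    rw [YJAux.ch_cen χ (hR z hz), hcon ⟨z, hz⟩, one_mul]
  obtain ⟨z0, hz0⟩ := h1
  have h2 : sm (fun z : ↥R => om χ (single (φ z) (1 : KW p k)))
      = om χ (single (φ z0) 1) * sm (fun z : ↥R => om χ (single (φ z) (1 : KW p k))) := by
    rw [← sm_mul]
    conv_lhs => rw [← sm_mul_left z0]
    refine sm_congr fun z => ?_
    rw [Subgroup.coe_mul, map_mul, om_single_mul χ (hR z0 z0.2)]
  have h3 : (1 - om χ (single (φ z0) 1)) *
      sm (fun z : ↥R => om χ (single (φ z) (1 : KW p k))) = 0 := by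
    rw [sub_mul, one_mul, ← h2, sub_self]
  exact (mul_eq_zero.1 h3).resolve_left (sub_ne_zero.2 (Ne.symm hz0))

theorem om_ker (hR : ∀ z ∈ R, ∀ a : A, φ z * a = a * φ z) {χ : Ir (KW p k) A}
    (h : Ker φ R χ) (z : ↥R) : om χ (single (φ z) (1 : KW p k)) = 1 := by
  have h1 := h z z.2 1
  rw [YJAux.ch_cen χ (hR z z.2)] at h1
  have h2 : ch χ 1 ≠ 0 := by
    rw [ch_one]
    exact dg_ne' χ
  exact mul_right_cancel₀ h2 (h1.trans (one_mul _).symm)

theorem rwv_tr (hR : ∀ z ∈ R, ∀ a : A, φ z * a = a * φ z) (χ : Ir (KW p k) A) {z : T}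
    (hz : z ∈ R) (u : T) : rwv φ G R (ch χ) (z * u)
      = om χ (single (φ z) (1 : KW p k)) * rwv φ G R (ch χ) u := by
  rw [rwv, rwv, YdAux.sup_zp_mul hz]
  have h1 : ∀ y, ch χ (φ (z * u) * y) * G (R ⊔ Subgroup.zpowers u) y⁻¹
      = om χ (single (φ z) (1 : KW p k)) *
        (ch χ (φ u * y) * G (R ⊔ Subgroup.zpowers u) y⁻¹) := by
    intro y
    rw [map_mul, mul_assoc, YJAux.ch_cen χ (hR z hz), mul_assoc]
  rw [sm_congr h1, sm_mul]
  ring

theorem lt_sup {u : T} (hu : u ∉ R) : R < R ⊔ Subgroup.zpowers u := by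
  refine lt_of_le_of_ne le_sup_left fun he => hu ?_
  rw [he]
  exact Subgroup.mem_sup_right (Subgroup.mem_zpowers u)

/-- the columns of the idempotents are orthogonal to the rows -/
theorem col_row (h : Stp φ b D f i R G) {E : MonoidAlgebra (OW p k) A} (hE : E * E = E) {w : T}
    (hw : w ∉ R) : ∑ χ : Ir (KW p k) A, chO χ E * rwv φ G R (ch χ) w = 0 := by
  have hok := h.ok _ (lt_sup hw)
  obtain ⟨M, hM⟩ := pow_one_of h.src
  have hD : φ w ∈ D := (h.ran _).2 ⟨w, rfl⟩
  have hw1 : φ w ≠ 1 := by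
    intro h1
    rw [← map_one φ] at h1
    apply hw
    rw [h.inj h1]
    exact R.one_mem
  have h1 : ∀ χ : Ir (KW p k) A, chO χ E * rwv φ G R (ch χ) w
      = (Nat.card ↥(cq φ (R ⊔ Subgroup.zpowers w)) : KW p k)⁻¹ *
        sm (fun y => ch χ (φ w * y) * chO χ E * G (R ⊔ Subgroup.zpowers w) y⁻¹) := by
    intro χ
    have h2 : ∀ y, ch χ (φ w * y) * chO χ E * G (R ⊔ Subgroup.zpowers w) y⁻¹
        = chO χ E * (ch χ (φ w * y) * G (R ⊔ Subgroup.zpowers w) y⁻¹) := fun y => by ring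
    rw [sm_congr h2, sm_mul, rwv]
    ring
  rw [Finset.sum_congr rfl fun χ _ => h1 χ, ← Finset.mul_sum, ← sm_sum]
  have h3 : ∀ y, ∑ χ : Ir (KW p k) A,
      ch χ (φ w * y) * chO χ E * G (R ⊔ Subgroup.zpowers w) y⁻¹ = 0 := by
    intro y
    rw [← Finset.sum_mul]
    by_cases hy : y⁻¹ ∈ cq φ (R ⊔ Subgroup.zpowers w)
    · by_cases hy' : Preg p y⁻¹
      · have hc : φ w * y = y * φ w := by
          rw [cq_eq h.cen, Subgroup.inv_mem_iff, mem_C1'] at hy
          exact hy
        rw [idem_sing hE (not_preg (hM _ hD) hw1 hc (preg_inv.1 hy')), zero_mul]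
      · rw [hok.reg _ hy', mul_zero]
    · rw [hok.sup _ hy, mul_zero]
  rw [sm_congr h3, sm_zero, mul_zero]

open Classical in
/-- sums over the characters of the block with `R` in the kernel -/
theorem ir_sum {B : MonoidAlgebra (OW p k) A} (F : Ir (KW p k) A → KW p k)
    (hF : ∀ χ : Ir (KW p k) A, chO χ B = 0 → F χ = 0) :
    ∑ χ : IR φ R B, F χ.1 = ∑ χ : Ir (KW p k) A with Ker φ R χ, F χ := by
  have h1 : ∑ χ : Ir (KW p k) A with Ker φ R χ, F χ
      = ∑ χ : Ir (KW p k) A with (Ker φ R χ ∧ chO χ B ≠ 0), F χ := by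
    rw [Finset.sum_filter, Finset.sum_filter]
    refine Finset.sum_congr rfl fun χ _ => ?_
    by_cases h1 : Ker φ R χ
    · by_cases h2 : chO χ B = 0
      · rw [if_pos h1, if_neg (fun h3 => h3.2 h2), hF χ h2]
      · rw [if_pos h1, if_pos ⟨h1, h2⟩]
    · rw [if_neg h1, if_neg (fun h3 => h1 h3.1)]
  have h2 : ∑ χ : Ir (KW p k) A with (Ker φ R χ ∧ chO χ B ≠ 0), F χ
      = ∑ χ : {χ : Ir (KW p k) A // Ker φ R χ ∧ chO χ B ≠ 0}, F χ.1 :=
    Finset.sum_subtype (Finset.univ.filter fun χ : Ir (KW p k) A =>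
      Ker φ R χ ∧ chO χ B ≠ 0) (fun χ => by simp) F
  rw [h1, h2]
  exact congrArg (fun i : Fintype {χ : Ir (KW p k) A // Ker φ R χ ∧ chO χ B ≠ 0} =>
    @Finset.sum _ _ _ (@Finset.univ _ i) (fun χ => F χ.1)) (Subsingleton.elim _ _)

theorem col_rowI (h : Stp φ b D f i R G) {B E : MonoidAlgebra (OW p k) A} (hE : E * E = E)
    (hEB : ∀ χ : Ir (KW p k) A, chO χ B = 0 → chO χ E = 0) {w : T} (hw : w ∉ R) :
    ∑ χ : IR φ R B, chO χ.1 E * rwv φ G R (ch χ.1) w = 0 := by
  classical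
  rw [ir_sum (fun χ => chO χ E * rwv φ G R (ch χ) w) (fun χ hχ => by rw [hEB χ hχ, zero_mul])]
  have h1 : ∀ χ : Ir (KW p k) A, sm (fun z : ↥R => chO χ E * rwv φ G R (ch χ) (z * w))
      = if Ker φ R χ then (Nat.card R : KW p k) * (chO χ E * rwv φ G R (ch χ) w) else 0 := by
    intro χ
    split_ifs with hk
    · have h2 : ∀ z : ↥R, chO χ E * rwv φ G R (ch χ) (z * w)
          = chO χ E * rwv φ G R (ch χ) w := by
        intro z
        rw [rwv_tr h.cen χ z.2, om_ker h.cen hk z, one_mul]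
      rw [sm_congr h2, sm_const]
    · have h2 : ∀ z : ↥R, chO χ E * rwv φ G R (ch χ) (z * w)
          = (chO χ E * rwv φ G R (ch χ) w) * om χ (single (φ z) (1 : KW p k)) := by
        intro z
        rw [rwv_tr h.cen χ z.2]
        ring
      rw [sm_congr h2, sm_mul, om_sum h.cen hk, mul_zero]
  have h2 : ∑ χ : Ir (KW p k) A, sm (fun z : ↥R => chO χ E * rwv φ G R (ch χ) (z * w)) = 0 := by
    rw [← sm_sum]
    have h3 : ∀ z : ↥R, ∑ χ : Ir (KW p k) A, chO χ E * rwv φ G R (ch χ) (z * w) = 0 := by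
      intro z
      refine col_row h hE fun h4 => hw ?_
      have h5 := R.mul_mem (R.inv_mem z.2) h4
      rwa [inv_mul_cancel_left] at h5
    rw [sm_congr h3, sm_zero]
  rw [Finset.sum_congr rfl fun χ _ => h1 χ, ← Finset.sum_filter, ← Finset.mul_sum] at h2
  exact (mul_eq_zero.1 h2).resolve_left (Nat.cast_ne_zero.2 Nat.card_pos.ne')

/-- the columns of the idempotents stay independent on the characters with `R` in the kernel -/
theorem col_indep (h : Stp φ b D f i R G) {B : MonoidAlgebra (OW p k) A} {n : ℕ}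
    {E : Fin n → MonoidAlgebra (OW p k) A} (hE : ∀ j, E j * E j = E j)
    (hEB : ∀ (j : Fin n) (χ : Ir (KW p k) A), chO χ B = 0 → chO χ (E j) = 0)
    (hli : LinearIndependent (KW p k) fun j => fun χ : Ir (KW p k) A => chO χ (E j))
    (a : Fin n → KW p k) (ha : ∀ χ : IR φ R B, ∑ j, a j * chO χ.1 (E j) = 0) :
    ∀ j, a j = 0 := by
  classical
  have := Fintype.ofFinite A
  obtain ⟨M, hM⟩ := pow_one_of h.src
  obtain ⟨c, hc⟩ : ∃ c : Ir (KW p k) A → KW p k, ∀ χ, c χ = ∑ j, a j * chO χ (E j) :=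
    ⟨_, fun _ => rfl⟩
  have hc1 : ∀ χ, Ker φ R χ → c χ = 0 := by
    intro χ hk
    rw [hc]
    by_cases h1 : chO χ B = 0
    · exact Finset.sum_eq_zero fun j _ => by rw [hEB j χ h1, mul_zero]
    · exact ha ⟨χ, hk, h1⟩
  obtain ⟨Φ, hΦ⟩ : ∃ Φ : A → KW p k, ∀ x, Φ x = ∑ χ : Ir (KW p k) A, (c χ • ch χ) x :=
    ⟨_, fun _ => rfl⟩
  have hsing : ∀ y, ¬ Preg p y → Φ y = 0 := by
    intro y hy
    rw [hΦ]
    have h1 : ∀ χ : Ir (KW p k) A, (c χ • ch χ) y = ∑ j, a j * (ch χ y * chO χ (E j)) := by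
      intro χ
      rw [Pi.smul_apply, smul_eq_mul, hc, Finset.sum_mul]
      exact Finset.sum_congr rfl fun j _ => by ring
    rw [Finset.sum_congr rfl fun χ _ => h1 χ, Finset.sum_comm]
    refine Finset.sum_eq_zero fun j _ => ?_
    rw [← Finset.mul_sum, idem_sing (hE j) hy, mul_zero]
  have hsum : ∀ x, sm (fun z : ↥R => Φ (φ z * x)) = 0 := by
    intro x
    have h1 : ∀ z : ↥R, Φ (φ z * x) = ∑ χ : Ir (KW p k) A,
        (c χ * ch χ x) * om χ (single (φ z) (1 : KW p k)) := by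
      intro z
      rw [hΦ]
      refine Finset.sum_congr rfl fun χ _ => ?_
      rw [Pi.smul_apply, smul_eq_mul, YJAux.ch_cen χ (h.cen z z.2)]
      ring
    rw [sm_congr h1, sm_sum]
    refine Finset.sum_eq_zero fun χ _ => ?_
    rw [sm_mul]
    by_cases hk : Ker φ R χ
    · rw [hc1 χ hk, zero_mul, zero_mul]
    · rw [om_sum h.cen hk, mul_zero]
  have hall : ∀ x, Φ x = 0 := by
    intro x
    by_cases hx : Preg p x
    · have := Fintype.ofFinite ↥R
      have h1 := hsum x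
      rw [sm_eq, Finset.sum_eq_single (1 : ↥R)] at h1
      · rwa [Subgroup.coe_one, map_one, one_mul] at h1
      · intro z _ hz
        refine hsing _ (not_preg (hM _ ((h.ran _).2 ⟨z, rfl⟩)) ?_ (h.cen z z.2 x) hx)
        intro h2
        rw [← map_one φ] at h2
        exact hz (Subtype.ext (h.inj h2))
      · intro h2
        exact absurd (Finset.mem_univ _) h2
    · exact hsing x hx
  have hc0 : ∀ ψ, c ψ = 0 := by
    intro ψ
    have h1 : ip (fun x => ∑ χ : Ir (KW p k) A, (c χ • ch χ) x) (ch ψ) = c ψ := by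
      rw [ip_sum, Finset.sum_eq_single ψ]
      · rw [ip_smul, ip_ch, if_pos rfl, mul_one]
      · intro χ _ hχ
        rw [ip_smul, ip_ch, if_neg hχ, mul_zero]
      · intro h2
        exact absurd (Finset.mem_univ _) h2
    rw [← h1]
    have h2 : (fun x => ∑ χ : Ir (KW p k) A, (c χ • ch χ) x) = 0 := by
      funext x
      rw [← hΦ, hall, Pi.zero_apply]
    rw [h2, ip_zero]
  refine Fintype.linearIndependent_iff.1 hli a ?_
  funext χ
  rw [Finset.sum_apply, Pi.zero_apply, ← hc0 χ, hc]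
  exact Finset.sum_congr rfl fun j _ => rfl

theorem eQ_ne (Q : Subgroup T) : (eQ φ D f Q : KW p k) ≠ 0 := by
  have := finite_EG (φ := φ) (D := D) (f := f)
  have h1 : Nonempty {α : ↥(EG φ D f) // ∀ t ∈ Q, (α : MulAut T) t = t} :=
    ⟨⟨1, fun t _ => rfl⟩⟩
  exact Nat.cast_ne_zero.2 Nat.card_pos.ne'

theorem gramI (h : Stp φ b D f i R G) (hE : ¬ p ∣ Nat.card (EG φ D f))
    {B : MonoidAlgebra (OW p k) A} (hB : CenL b B) {u v : T} (hu : u ∉ R) (hv : v ∉ R) :
    ((∃ α ∈ EG φ D f, ∃ z ∈ R, v = z * α u) →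
      ∑ χ : IR φ R B, rwv φ G R (ch χ.1) u * rwv φ G R (ch χ.1) v⁻¹ ≠ 0) ∧
    ((¬ ∃ α ∈ EG φ D f, ∃ z ∈ R, v = z * α u) →
      ∑ χ : IR φ R B, rwv φ G R (ch χ.1) u * rwv φ G R (ch χ.1) v⁻¹ = 0) := by
  classical
  have h1 := gram_ker h hE hu hv
  rw [← ir_sum (B := B) (fun χ => rwv φ G R (ch χ) u * rwv φ G R (ch χ) v⁻¹)
    (fun χ hχ => by rw [rwv_out h hB hχ hu, zero_mul])] at h1
  refine ⟨fun h2 h3 => ?_, fun h2 => ?_⟩
  · rw [if_pos h2, h3, mul_zero] at h1
    exact mul_ne_zero (Nat.cast_ne_zero.2 Fintype.card_ne_zero) (eQ_ne _) h1.symm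
  · rw [if_neg h2] at h1
    exact (mul_eq_zero.1 h1).resolve_left (Nat.cast_ne_zero.2 Nat.card_pos.ne')

/-- the rows are constant on the orbits -/
theorem row_orb (h : Stp φ b D f i R G) {B : MonoidAlgebra (OW p k) A} {u v : T} (hu : u ∉ R)
    (huv : ∃ α ∈ EG φ D f, ∃ z ∈ R, v = z * α u) (χ : IR φ R B) :
    rwv φ G R (ch χ.1) v = rwv φ G R (ch χ.1) u := by
  obtain ⟨α, ⟨g, hg, hα⟩, z, hz, rfl⟩ := huv
  rw [rwv_ker χ.2.1 hz, rwv_inv h (ch_mem _) hg hα hu]

/-- the count in general -/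
theorem count (h : Stp φ b D f i R G) (hE : ¬ p ∣ Nat.card (EG φ D f))
    {B : MonoidAlgebra (OW p k) A} (hB : CenL b B) {n : ℕ}
    {E : Fin n → MonoidAlgebra (OW p k) A} (hE1 : ∀ j, E j * E j = E j)
    (hE2 : ∀ (j : Fin n) (χ : Ir (KW p k) A), chO χ B = 0 → chO χ (E j) = 0)
    (hE3 : LinearIndependent (KW p k) fun j => fun χ : Ir (KW p k) A => chO χ (E j)) :
    ∃ t : ℕ, t + n ≤ Fintype.card (IR φ R B) ∧
      Fintype.card T - Nat.card R ≤ Nat.card R * Nat.card (EG φ D f) * t := by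
  classical
  have := finite_EG (φ := φ) (D := D) (f := f)
  have := Fintype.ofFinite ↥(EG φ D f)
  have := Fintype.ofFinite ↥R
  obtain ⟨V, hV⟩ : ∃ V : T → IR φ R B → KW p k, ∀ u χ, V u χ = rwv φ G R (ch χ.1) u :=
    ⟨_, fun _ _ => rfl⟩
  obtain ⟨U, hU⟩ : ∃ U : Finset T, ∀ u, u ∈ U ↔ u ∉ R :=
    ⟨Finset.univ.filter fun u => u ∉ R, fun u => by simp⟩
  have hinv : ∀ v, v ∉ R → v⁻¹ ∉ R := fun v hv h1 => hv ((Subgroup.inv_mem_iff _).1 h1)
  have hne : ∀ u v, u ∉ R → v ∉ R → (∃ α ∈ EG φ D f, ∃ z ∈ R, v = z * α u) →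
      ∑ χ, V u χ * V v⁻¹ χ ≠ 0 := by
    intro u v hu hv h1
    simp only [hV]
    exact (gramI h hE hB hu hv).1 h1
  have hze : ∀ u v, u ∉ R → v ∉ R → (¬ ∃ α ∈ EG φ D f, ∃ z ∈ R, v = z * α u) →
      ∑ χ, V u χ * V v⁻¹ χ = 0 := by
    intro u v hu hv h1
    simp only [hV]
    exact (gramI h hE hB hu hv).2 h1
  have hself : ∀ u, ∃ α ∈ EG φ D f, ∃ z ∈ R, u = z * α u := fun u =>
    ⟨1, Subgroup.one_mem _, 1, R.one_mem, by rw [one_mul, MulAut.one_apply]⟩
  have horb : ∀ u v, u ∉ R → (∃ α ∈ EG φ D f, ∃ z ∈ R, v = z * α u) → V v = V u := by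
    intro u v hu h1
    funext χ
    rw [hV, hV, row_orb h hu h1]
  have hrep : ∀ w : ↥(U.image V), ∃ u, u ∉ R ∧ V u = w.1 := by
    rintro ⟨w, hw⟩
    obtain ⟨u, hu, rfl⟩ := Finset.mem_image.1 hw
    exact ⟨u, (hU u).1 hu, rfl⟩
  choose r hr1 hr2 using hrep
  have hfam : LinearIndependent (KW p k)
      (Sum.elim (fun w : ↥(U.image V) => w.1) (fun (j : Fin n) (χ : IR φ R B) =>
        chO χ.1 (E j))) := by
    rw [Fintype.linearIndependent_iff]
    intro g hg
    have hg' : ∀ χ, ∑ w : ↥(U.image V), g (Sum.inl w) * w.1 χ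
        + ∑ j, g (Sum.inr j) * chO χ.1 (E j) = 0 := by
      intro χ
      have h1 := congrFun hg χ
      rw [Finset.sum_apply, Fintype.sum_sum_type] at h1
      exact h1
    have h1 : ∀ w, g (Sum.inl w) = 0 := by
      intro w
      have h2 : ∑ χ, (∑ w' : ↥(U.image V), g (Sum.inl w') * w'.1 χ
          + ∑ j, g (Sum.inr j) * chO χ.1 (E j)) * V (r w)⁻¹ χ = 0 :=
        Finset.sum_eq_zero fun χ _ => by rw [hg' χ, zero_mul]
      have h3 : ∑ χ, (∑ w' : ↥(U.image V), g (Sum.inl w') * w'.1 χ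
          + ∑ j, g (Sum.inr j) * chO χ.1 (E j)) * V (r w)⁻¹ χ
          = ∑ w' : ↥(U.image V), g (Sum.inl w') * ∑ χ, w'.1 χ * V (r w)⁻¹ χ
            + ∑ j, g (Sum.inr j) * ∑ χ : IR φ R B, chO χ.1 (E j) * V (r w)⁻¹ χ := by
        simp only [add_mul, Finset.sum_add_distrib, Finset.sum_mul, Finset.mul_sum]
        congr 1
        · rw [Finset.sum_comm]
          exact Finset.sum_congr rfl fun w' _ => Finset.sum_congr rfl fun χ _ => by ring
        · rw [Finset.sum_comm]
          exact Finset.sum_congr rfl fun w' _ => Finset.sum_congr rfl fun χ _ => by ring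
      have h4 : ∑ j, g (Sum.inr j) * ∑ χ : IR φ R B, chO χ.1 (E j) * V (r w)⁻¹ χ = 0 := by
        refine Finset.sum_eq_zero fun j _ => ?_
        have h5 := col_rowI (φ := φ) (R := R) h (hE1 j) (hE2 j) (hinv _ (hr1 w))
        simp only [hV]
        rw [h5, mul_zero]
      have h5 : ∑ w' : ↥(U.image V), g (Sum.inl w') * ∑ χ, w'.1 χ * V (r w)⁻¹ χ
          = g (Sum.inl w) * ∑ χ, w.1 χ * V (r w)⁻¹ χ := by
        refine Finset.sum_eq_single w (fun w' _ hw' => ?_) fun h6 =>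
          absurd (Finset.mem_univ _) h6
        rw [← hr2 w', hze _ _ (hr1 w') (hr1 w), mul_zero]
        intro h6
        apply hw'
        apply Subtype.ext
        rw [← hr2 w', ← hr2 w, horb _ _ (hr1 w') h6]
      rw [h3, h4, add_zero, h5, ← hr2 w] at h2
      exact (mul_eq_zero.1 h2).resolve_right (hne _ _ (hr1 w) (hr1 w) (hself _))
    have h2 : ∀ j, g (Sum.inr j) = 0 := by
      refine col_indep h hE1 hE2 hE3 (fun j => g (Sum.inr j)) fun χ => ?_
      have h3 := hg' χ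
      rw [Finset.sum_eq_zero (fun w _ => by rw [h1 w, zero_mul]), zero_add] at h3
      exact h3
    rintro (w | j)
    · exact h1 w
    · exact h2 j
  refine ⟨(U.image V).card, ?_, ?_⟩
  · have h1 := hfam.fintype_card_le_finrank
    rw [Fintype.card_sum, Fintype.card_coe, Fintype.card_fin, Module.finrank_fintype_fun_eq_card]
      at h1
    exact h1
  · have hcU : U.card = Fintype.card T - Nat.card R := by
      have h1 : U = Finset.univ \ (Finset.univ.filter fun u => u ∈ R) := by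
        ext u
        simp [hU]
      rw [h1, Finset.card_sdiff_of_subset (Finset.subset_univ _), Finset.card_univ,
        Nat.card_eq_fintype_card, Fintype.card_subtype]
    rw [← hcU]
    refine Finset.card_le_mul_card_image U _ fun w hw => ?_
    obtain ⟨u0, hu0, rfl⟩ := Finset.mem_image.1 hw
    have hu0' := (hU u0).1 hu0
    have hsub : (U.filter fun u => V u = V u0) ⊆
        Finset.univ.image (fun x : ↥R × ↥(EG φ D f) => (x.1 : T) * (x.2 : MulAut T) u0) := by
      intro u hu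
      obtain ⟨h1, h2⟩ := Finset.mem_filter.1 hu
      have h1' := (hU u).1 h1
      have h3 : ∃ α ∈ EG φ D f, ∃ z ∈ R, u = z * α u0 := by
        by_contra hcon
        have h4 := hze u0 u hu0' h1' hcon
        rw [← h2] at h4
        exact hne u u h1' h1' (hself u) h4
      obtain ⟨α, hα, z, hz, h4⟩ := h3
      exact Finset.mem_image.2 ⟨(⟨z, hz⟩, ⟨α, hα⟩), Finset.mem_univ _, h4.symm⟩
    refine (Finset.card_le_card hsub).trans (Finset.card_image_le.trans ?_)
    rw [Finset.card_univ, Fintype.card_prod, Nat.card_eq_fintype_card, Nat.card_eq_fintype_card]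

end YOaAux

open YOaAux

variable {T : Type*} [CommGroup T] [Fintype T]
  {φ : T →* A} {b f i : MonoidAlgebra k A} {D : Subgroup A} {R : Subgroup T}
  {G : Subgroup T → A → KW p k}

theorem col_count' (h : Stp φ b D f i R G) (hE : ¬ p ∣ eN D f)
    (hT : Fintype.card T = p * Nat.card R) {B : MonoidAlgebra (OW p k) A} (hB : CenL b B) :
    (p - 1) + Nat.card (EG φ D f) *
        Nat.card (Quotient (irrInvSetoid (⊤ : Subgroup A) ⊤ b))
      ≤ Nat.card (EG φ D f) * Fintype.card (IR φ R B) := by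
  have hE' : ¬ p ∣ Nat.card (EG φ D f) := by rwa [card_EG h.inj h.ran]
  obtain ⟨n, E, hn, hE1, hE2, hE3⟩ := exists_famA h.src.root.blk hB
  obtain ⟨t, ht1, ht2⟩ := count h hE' hB hE1 hE2 hE3
  have hR : 0 < Nat.card R := Nat.card_pos
  have h1 : Fintype.card T - Nat.card R = Nat.card R * (p - 1) := by
    rw [hT, Nat.mul_sub_one, mul_comm]
  rw [h1, mul_assoc] at ht2
  have h2 : p - 1 ≤ Nat.card (EG φ D f) * t := Nat.le_of_mul_le_mul_left ht2 hR
  rw [← hn]
  calc p - 1 + Nat.card (EG φ D f) * n ≤ Nat.card (EG φ D f) * t + Nat.card (EG φ D f) * n :=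
        Nat.add_le_add_right h2 _
    _ = Nat.card (EG φ D f) * (t + n) := by ring
    _ ≤ _ := Nat.mul_le_mul_left _ ht1

end

end Pool.Agent.Lib.P0c8ca5.Ex
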