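import Mathlib
import Pool.Agent.Lib.P0c8ca5Ex.YC
import Pool.Agent.Lib.P0c8ca5Ex.GI
import Pool.Agent.Lib.P0c8ca5Kk.Kv
import Pool.Agent.Lib.P0c8ca5Nc.CL

/-!
# YOb: the number of simple modules for a cyclic inertial quotient

* `exists_genT`: the inertial quotient is cyclic if `|D : φ R| = p`, `φ R` central.
* `l_ge`: then the inertial index is at most the number of the simple modules (`Kk.l_kap_dvd`).
-/

set_option linter.unusedSectionVars false

namespace Pool.Agent.Lib.P0c8ca5.Ex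

open MonoidAlgebra Bq Kq

namespace YObAux

section
variable {p : ℕ} [Fact p.Prime] {k : Type*} [Field k] [IsAlgClosed k] [CharP k p]
  {A : Type*} [Group A] [Fintype A] {T : Type*} [CommGroup T] [Fintype T]
  {φ : T →* A} {b f i : MonoidAlgebra k A} {D : Subgroup A} {R : Subgroup T}

/-- the automorphisms of `T / R` induced by the inertial quotient -/
theorem exists_genT (h : Src p b D f i) (hE : ¬ p ∣ eN D f) (hφ : Function.Injective φ)
    (hr : ∀ x, x ∈ D ↔ ∃ t, φ t = x) (hR : ∀ z ∈ R, ∀ a : A, φ z * a = a * φ z)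
    (hT : Fintype.card T = p * Nat.card R) :
    ∃ z ∈ St D f, ∀ x ∈ St D f, ∃ n : ℕ, x * (z ^ n)⁻¹ ∈ CD D := by
  classical
  have hpp : p.Prime := Fact.out
  have hfin : Finite ↥(EG φ D f) := finite_EG
  have hfix : ∀ α ∈ EG φ D f, ∀ z ∈ R, α z = z := by
    rintro α ⟨g, _, hg⟩ z hz
    apply hφ
    rw [hg, ← hR z hz, mul_inv_cancel_right]
  have hmap : ∀ α ∈ EG φ D f, R.map (α : MulAut T).toMonoidHom = R := by
    intro α hα
    ext z
    rw [Subgroup.mem_map]
    constructor
    · rintro ⟨w, hw, rfl⟩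
      change α w ∈ R
      rw [hfix α hα w hw]
      exact hw
    · intro hz
      exact ⟨z, hz, hfix α hα z hz⟩
  let F : ↥(EG φ D f) →* MulAut (T ⧸ R) :=
    { toFun := fun α => QuotientGroup.congr R R α.1 (hmap α.1 α.2)
      map_one' := by
        ext x
        obtain ⟨t, rfl⟩ := QuotientGroup.mk_surjective x
        rfl
      map_mul' := fun α β => by
        ext x
        obtain ⟨t, rfl⟩ := QuotientGroup.mk_surjective x
        rfl }
  have hF : ∀ (α : ↥(EG φ D f)) (t : T), F α (QuotientGroup.mk t) =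
      QuotientGroup.mk ((α : MulAut T) t) := fun α t => rfl
  -- the elements which act trivially on the quotient
  obtain ⟨M, hM⟩ := pow_one_of h
  have hinj : Function.Injective F := by
    rw [injective_iff_map_eq_one]
    intro α hα
    apply Subtype.ext
    ext u
    change (α : MulAut T) u = u
    have h1 : (QuotientGroup.mk ((α : MulAut T) u) : T ⧸ R) = QuotientGroup.mk u := by
      rw [← hF, hα]
      rfl
    have h2 : u⁻¹ * (α : MulAut T) u ∈ R := by
      rw [eq_comm, QuotientGroup.eq] at h1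
      exact h1
    set w := u⁻¹ * (α : MulAut T) u with hw
    have h3 : ∀ n : ℕ, ((α : MulAut T) ^ n) u = w ^ n * u := by
      intro n
      induction n with
      | zero => simp
      | succ n ih =>
        rw [pow_succ', MulAut.mul_apply, ih, map_mul, hfix α.1 α.2 _ (Subgroup.pow_mem _ h2 n),
          pow_succ, mul_assoc]
        congr 1
        rw [hw, mul_comm u⁻¹, inv_mul_cancel_right]
    have h4 := h3 (Nat.card (EG φ D f))
    have h5 : (α : MulAut T) ^ Nat.card (EG φ D f) = 1 := by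
      have h6 := pow_card_eq_one' (x := α)
      exact congrArg Subtype.val h6
    rw [h5, MulAut.one_apply] at h4
    have h6 : w ^ Nat.card (EG φ D f) = 1 := mul_eq_right.1 h4.symm
    have h7 : w ^ p ^ M = 1 := by
      apply hφ
      rw [map_pow, map_one]
      exact hM _ ((hr _).2 ⟨w, rfl⟩)
    have h8 : w ^ Nat.gcd (Nat.card (EG φ D f)) (p ^ M) = 1 := by
      rw [pow_gcd_eq_one]
      exact ⟨h6, h7⟩
    have h9 : Nat.Coprime (Nat.card (EG φ D f)) (p ^ M) := by
      rw [card_EG hφ hr]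
      exact Nat.Coprime.pow_right _ ((hpp.coprime_iff_not_dvd).2 hE).symm
    rw [h9, pow_one] at h8
    have h10 : u * w = (α : MulAut T) u := by rw [hw, mul_inv_cancel_left]
    rw [← h10, h8, mul_one]
  -- the quotient is cyclic
  have hcq : Nat.card (T ⧸ R) = p := by
    have h1 := Subgroup.card_eq_card_quotient_mul_card_subgroup R
    rw [Nat.card_eq_fintype_card (α := T), hT] at h1
    exact (Nat.eq_of_mul_eq_mul_right Nat.card_pos h1).symm
  have hcyc : IsCyclic (T ⧸ R) := isCyclic_of_prime_card hcq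
  have hZ : IsCyclic (ZMod (Nat.card (T ⧸ R)))ˣ := by
    rw [hcq]
    infer_instance
  have hA : IsCyclic (MulAut (T ⧸ R)) := by
    exact isCyclic_of_injective (IsCyclic.mulAutMulEquiv (T ⧸ R)).toMonoidHom
      (IsCyclic.mulAutMulEquiv (T ⧸ R)).injective
  have hEc : IsCyclic ↥(EG φ D f) := isCyclic_of_injective F hinj
  obtain ⟨α, hα⟩ := IsCyclic.exists_generator (α := ↥(EG φ D f))
  obtain ⟨z, hz, hz'⟩ := α.2
  refine ⟨z, hz, fun x hx => ?_⟩
  obtain ⟨ψ, hψ, hψ'⟩ := exists_EG (f := f) hφ hr hx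
  obtain ⟨n, hn⟩ := mem_powers_iff_mem_zpowers.2 (hα ⟨ψ, hψ⟩)
  refine ⟨n, ?_⟩
  have hn' : (α : MulAut T) ^ n = ψ := congrArg Subtype.val hn
  have hpow : ∀ (m : ℕ) (t : T), φ (((α : MulAut T) ^ m) t) = z ^ m * φ t * (z ^ m)⁻¹ := by
    intro m
    induction m with
    | zero =>
      intro t
      simp
    | succ m ih =>
      intro t
      rw [pow_succ', MulAut.mul_apply, hz', ih, pow_succ' z m]
      group
  rw [Subgroup.mem_centralizer_iff]
  intro y hy
  obtain ⟨t, rfl⟩ := (hr y).1 hy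
  -- `x` and `z ^ n` induce the same automorphism
  obtain ⟨s, hs⟩ : ∃ s : T, ((α : MulAut T) ^ n) s = t := ⟨((α : MulAut T) ^ n)⁻¹ t, by
    exact MulAut.apply_inv_self _ _ _⟩
  have h1 : x * φ s * x⁻¹ = φ t := by rw [← hψ', ← hn', hs]
  have h2 : z ^ n * φ s * (z ^ n)⁻¹ = φ t := by rw [← hpow, hs]
  calc φ t * (x * (z ^ n)⁻¹) = x * φ s * x⁻¹ * (x * (z ^ n)⁻¹) := by rw [h1]
    _ = x * (z ^ n)⁻¹ * (z ^ n * φ s * (z ^ n)⁻¹) := by group
    _ = x * (z ^ n)⁻¹ * φ t := by rw [h2]

theorem l_ge (hp2 : p ≠ 2) (h : Src p b D f i) (hφ : Function.Injective φ)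
    (hr : ∀ x, x ∈ D ↔ ∃ t, φ t = x) (hR : ∀ z ∈ R, ∀ a : A, φ z * a = a * φ z)
    (hE : eN D f + 3 ≤ p) (hT : Fintype.card T = p * Nat.card R) :
    eN D f ≤ Nat.card (Quotient (irrInvSetoid (⊤ : Subgroup A) ⊤ b)) := by
  have hnd : ¬ p ∣ eN D f := Ku.ndvd h.root
  obtain ⟨z, hz, hc⟩ := exists_genT h hnd hφ hr hR hT
  have h1 := Kk.l_kap_dvd (n := 0) hp2 h.root (fun x hx _ => by
    refine ⟨x, ?_, by rw [pow_zero, pow_one]⟩
    have h2 : Ku.cmD D f ≤ D := by
      unfold Ku.cmD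
      rw [Subgroup.closure_le]
      rintro w ⟨g, hg, u, hu, rfl⟩
      exact D.mul_mem (D.inv_mem hu)
        ((Subgroup.mem_normalizer_iff.1 (mem_St.1 hg).1 u).1 hu)
    exact h2 hx)
  rw [Nc.kap_St hp2 h hnd, Nc.card_cyc hp2 h hnd hz hc, zero_add, pow_one] at h1
  rw [card_top h.root.blk]
  obtain ⟨m, hm⟩ := h1
  by_contra hlt
  push Not at hlt
  have h3 : (Nat.card (IrX (⊤ : Subgroup A) b) : ℤ) < eN D f := by exact_mod_cast hlt
  have h4 : (eN D f : ℤ) < p := by exact_mod_cast (by omega : eN D f < p)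
  have h5 : (0 : ℤ) ≤ Nat.card (IrX (⊤ : Subgroup A) b) := by positivity
  have h6 : (p : ℤ) * m < 0 := by rw [← hm]; linarith
  have h7 : -(p : ℤ) < (p : ℤ) * m := by rw [← hm]; linarith
  have h8 : (0 : ℤ) < p := by linarith [Int.natCast_nonneg (eN D f)]
  have h9 : m < 0 := by
    by_contra h10
    push Not at h10
    nlinarith
  have h10 : -1 < m := by
    by_contra h11
    push Not at h11
    nlinarith
  omega

end

end YObAux

end Pool.Agent.Lib.P0c8ca5.Ex
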