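import Mathlib
import Pool.Agent.Lib.P0c8ca5Ex.YM
import Pool.Agent.Lib.P0c8ca5Ex.YD
import Pool.Agent.Lib.P0c8ca5Ex.YOa

/-!
# YOc: the glued rows have the Gram matrix of `T / R` outside `R`

* `rows_glue`: the rows `Θ χ ∈ vir` from `glue`, constant on the cosets of `R`, equal to `rwv` outside
  `R`, with the Gram matrix of the `E`-set `T / R` outside `R`.
* `ext_Rows`: an extension of such rows satisfies `Rows`.
* `reg_out`: if `|T| = p |R|` then the elements outside `R` are regular.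
-/

set_option linter.unusedSectionVars false

namespace Pool.Agent.Lib.P0c8ca5.Ex

open MonoidAlgebra

section
variable {p : ℕ} [Fact p.Prime] {k : Type*} [Field k] [IsAlgClosed k] [CharP k p]
  {A : Type*} [Group A] [Finite A] {T : Type*} [CommGroup T] [Fintype T]
  {φ : T →* A} {b f i : MonoidAlgebra k A} {D : Subgroup A} {R : Subgroup T}
  {G : Subgroup T → A → KW p k}

theorem rows_glue (h : Stp φ b D f i R G) (hE : ¬ p ∣ Nat.card (EG φ D f))
    {B : MonoidAlgebra (OW p k) A} (hB : CenL b B) :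
    ∃ Θ : IR φ R B → T → KW p k, (∀ χ, Θ χ ∈ vir T (KW p k)) ∧
      (∀ χ, ∀ z ∈ R, ∀ u, Θ χ (z * u) = Θ χ u) ∧
      (∀ χ u, u ∉ R → Θ χ u = rwv φ G R (ch χ.1) u) ∧
      ∀ u v, u ∉ R → v ∉ R → GramR (EG φ D f) R Θ u v := by
  classical
  obtain ⟨Ω, -, -, hΩ⟩ := glue h
  choose Θ h1 h2 _ h4 using fun χ : IR φ R B => hΩ (ch χ.1) (ch_mem χ.1)
  refine ⟨Θ, h1, fun χ z hz u => ?_, h2, fun u v hu hv => ?_⟩
  · have h5 := h4 χ z hz 1 (fun x => by rw [one_mul]; exact χ.2.1 z hz x) u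
    rwa [one_mul] at h5
  · have hv' : v⁻¹ ∉ R := fun h5 => hv ((Subgroup.inv_mem_iff _).1 h5)
    have h5 := gram_ker h hE hu hv
    rw [← YOaAux.ir_sum (B := B) (fun χ => rwv φ G R (ch χ) u * rwv φ G R (ch χ) v⁻¹)
      (fun χ hχ => by rw [rwv_out h hB hχ hu, zero_mul]), (eQ_sup h.cen h.inj u).1] at h5
    have h6 : ∑ χ : IR φ R B, Θ χ u * Θ χ v⁻¹
        = ∑ χ : IR φ R B, rwv φ G R (ch χ.1) u * rwv φ G R (ch χ.1) v⁻¹ :=
      Finset.sum_congr rfl fun χ _ => by rw [h2 χ u hu, h2 χ _ hv']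
    refine ⟨fun h7 => ?_, fun h7 => ?_⟩
    · rw [h6, h5, if_pos h7]
      rfl
    · rw [h6]
      rw [if_neg h7] at h5
      exact (mul_eq_zero.1 h5).resolve_left (Nat.cast_ne_zero.2 Nat.card_pos.ne')

/-- an extension of the glued rows -/
theorem ext_Rows {B : MonoidAlgebra (OW p k) A} {Θ ψ : IR φ R B → T → KW p k}
    (h1 : ∀ χ u, u ∉ R → Θ χ u = rwv φ G R (ch χ.1) u) (h2 : ∀ χ, ψ χ ∈ vir T (KW p k))
    (h3 : ∀ χ, ∀ z ∈ R, ∀ u, ψ χ (z * u) = ψ χ u) (h4 : ∀ χ u, u ∉ R → ψ χ u = Θ χ u)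
    (h5 : ∀ u v, GramR (EG φ D f) R ψ u v) : Rows φ D f R G B ψ :=
  ⟨h2, h3, fun χ u hu => by rw [h4 χ u hu, h1 χ u hu], h5⟩

theorem isPG (h : Stp φ b D f i R G) : IsPGroup p T := by
  obtain ⟨M, hM⟩ := pow_one_of h.src
  intro u
  refine ⟨M, ?_⟩
  apply h.inj
  rw [map_pow, map_one]
  exact hM _ ((h.ran _).2 ⟨u, rfl⟩)

/-- if `|T| = p |R|` then the elements outside `R` are regular -/
theorem reg_out (h : Stp φ b D f i R G) (hT : Fintype.card T = p * Nat.card R) {u : T}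
    (hu : u ∉ R) : Reg D f (φ u) := by
  classical
  have hp : p.Prime := Fact.out
  have hlt := YOaAux.lt_sup hu
  have hT' : Nat.card T = p * Nat.card R := by rw [Nat.card_eq_fintype_card, hT]
  have htop : R ⊔ Subgroup.zpowers u = ⊤ := by
    have h1 : Nat.card R ∣ Nat.card ↥(R ⊔ Subgroup.zpowers u) := Subgroup.card_dvd_of_le hlt.le
    have h2 : Nat.card ↥(R ⊔ Subgroup.zpowers u) ∣ Nat.card T := Subgroup.card_subgroup_dvd_card _
    obtain ⟨m, hm⟩ := h1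
    have hR : 0 < Nat.card R := Nat.card_pos
    rw [hT', hm, mul_comm p, Nat.mul_dvd_mul_iff_left hR] at h2
    rcases (Nat.dvd_prime hp).1 h2 with h3 | h3
    · exfalso
      rw [h3, mul_one] at hm
      exact hlt.ne (Subgroup.eq_of_le_of_card_ge hlt.le hm.le)
    · refine Subgroup.eq_top_of_card_eq _ ?_
      rw [hm, h3, hT', mul_comm]
  intro g hg hgu
  rw [Subgroup.mem_centralizer_iff]
  intro x hx
  obtain ⟨t, rfl⟩ := (h.ran x).1 hx
  have ht : t ∈ R ⊔ Subgroup.zpowers u := by rw [htop]; exact Subgroup.mem_top t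
  obtain ⟨z, hz, w, ⟨n, rfl⟩, rfl⟩ := Subgroup.mem_sup.1 ht
  have h1 : Commute g (φ u) := hgu
  have h2 : g * φ u ^ n = φ u ^ n * g := (h1.zpow_right n).eq
  change φ (z * u ^ n) * g = g * φ (z * u ^ n)
  rw [map_mul, map_zpow, mul_assoc, ← h2, ← mul_assoc, h.cen z hz, mul_assoc]

end

end Pool.Agent.Lib.P0c8ca5.Ex
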