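import Mathlib
import Pool.Agent.Lib.P0c8ca5Ex.YM
import Pool.Agent.Lib.P0c8ca5Ex.YOa
import Pool.Agent.Lib.P0c8ca5Ex.YOc
import Pool.Agent.Lib.P0c8ca5Ex.GD
import Pool.Agent.Lib.P0c8ca5Ex.YOb

/-!
# YO: the number of the rows

* `col_count`: `t + l(b) ≤ |IR|`, `t = (p - 1) / |E|`. PROOF. `|T| = p |R|`, `E` acts freely on `T / R - 1` (an element of `E` fixes `R`;
  if it fixes `u R` then it fixes `u`, its order is prime to `p`; then it fixes `T = R ⊔ ⟨u⟩`), so there are
  `u_1, …, u_t ∉ R` in different orbits of `E` on `T / R`. Let `F_j` (`j ∈ J`) be a family `Fam b F` of idempotents of the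
  whole group (`exists_family`, `|J| ≥ l(b)` by `family_card` for `H = ⊤`, or its version for `A`). In `K^IR` the vectors
  `(rwv φ G R (ch χ) u_i)_χ` are orthogonal with nonzero norm for the form `∑ x y` twisted by `u ↦ u⁻¹` (`gram_ker`,
  `rwv_out`), and orthogonal to the vectors `(chO χ (F_j))_χ`: `∑_χ chO χ (F_j) rwv φ G R (ch χ) u = 0` (the sum over `R` of the
  column orthogonality: `|R| ∑_(χ ∈ IR) = ∑_(z ∈ R) ∑_χ chO χ (F_j) rwv φ G R (ch χ) (z u)`, `chO χ (F_j) = ∑_x F_j(x) ch χ x`,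
  and `∑_χ chO χ (F_j) ch χ y = 0` for `y` not `p`-regular, `off_zero'` or `tp_chi_zero`). The vectors `(chO χ (F_j))_(χ ∈ IR)` are linearly
  independent: if `∑_j a_j chO χ (F_j) = 0` for the `χ` with `R` in the kernel, put
  `Φ x = ∑_(χ in the block) (∑_j a_j chO χ (F_j)) ch χ x⁻¹`; it is `0` for `x` not `p`-regular, and `∑_(z ∈ R) Φ (z x) = 0`
  (only the `χ` with `R` in the kernel contribute); for `p`-regular `x` the only `p`-regular `z x` is `x`, so `Φ = 0`, all coefficients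
  are `0` (`Fam.indep`; the `chO χ (F_j)` are `0` outside the block). So `t + |J| ≤ |IR|`.
* `l_ge`: `|E| ≤ l(b)`. PROOF. Elements of `D` with nontrivial stabilizer in `E` lie in `φ R` (if `g ∈ St D f` commutes with `u ∉ φ R`
  then it centralizes `D = φ R ⊔ ⟨u⟩`), so `l_lt_cover` (with the family `{φ R}`) gives `l(b) < p`, and Navarro's equality for `G = ⊤`
  (`Fg.navarro_lt`, or `C.EqC`): `gap p ⊤ ⊤ b = 0`, so `l(b) = ∑ wt = kap D b` (`Kq.wt_kap`, see `Kk.Km` for the reduction); `kap D b =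
  card (IrX N(D) (resS (CD D) b)) = card (IrX (St D f) f)` (`Nc.fong` for `N = CD D`, `Y = N(D)`; transitivity on the blocks: `exists_bel`),
  and this is `|St D f : CD D| = eN D f` if `St D f / CD D ≅ E` is cyclic: the formula `Nc.CE.count` (or `count_one`) for `M = D`, `Y = St D f`,
  where all pairs `(x, y)` count (`E` abelian) and `om (CD D) ρ x y = 1` (`E` cyclic: `x ≡ z^a`, `y ≡ z^b`). `E` is cyclic: it acts faithfully
  on `T / R` of order `p`, `Aut` is cyclic.
-/

set_option linter.unusedSectionVars false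

namespace Pool.Agent.Lib.P0c8ca5.Ex

open MonoidAlgebra

section
variable {p : ℕ} [Fact p.Prime] {k : Type*} [Field k] [IsAlgClosed k] [CharP k p]
  {A : Type*} [Group A] [Fintype A] {T : Type*} [CommGroup T] [Fintype T]
  {φ : T →* A} {b f i : MonoidAlgebra k A} {D : Subgroup A} {R : Subgroup T}
  {G : Subgroup T → A → KW p k}

theorem col_count (hp2 : p ≠ 2) (h : Stp φ b D f i R G) (hE : ¬ p ∣ eN D f)
    (hT : Fintype.card T = p * Nat.card R) {B : MonoidAlgebra (OW p k) A} (hB : CenL b B) :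
    (p - 1) + Nat.card (EG φ D f) *
        Nat.card (Quotient (irrInvSetoid (⊤ : Subgroup A) ⊤ b))
      ≤ Nat.card (EG φ D f) * Fintype.card (IR φ R B) :=
  col_count' h hE hT hB

/-- a cyclic inertial quotient -/
theorem card_cyc (hp2 : p ≠ 2) (h : Src p b D f i) (hE : ¬ p ∣ eN D f) {z : A} (hz : z ∈ St D f)
    (hc : ∀ x ∈ St D f, ∃ n : ℕ, x * (z ^ n)⁻¹ ∈ CD D) :
    Nat.card (IrX (St D f) f) = eN D f := by
  exact Nc.card_cyc hp2 h hE hz hc

theorem l_ge (hp2 : p ≠ 2) (h : Src p b D f i) (hφ : Function.Injective φ)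
    (hr : ∀ x, x ∈ D ↔ ∃ t, φ t = x) (hR : ∀ z ∈ R, ∀ a : A, φ z * a = a * φ z)
    (hE : eN D f + 3 ≤ p) (hT : Fintype.card T = p * Nat.card R) :
    eN D f ≤ Nat.card (Quotient (irrInvSetoid (⊤ : Subgroup A) ⊤ b)) := by
  exact YObAux.l_ge hp2 h hφ hr hR hE hT

theorem card_rows (hp2 : p ≠ 2) (h : Stp φ b D f i R G) (hE : eN D f + 3 ≤ p)
    (hT : Fintype.card T = p * Nat.card R) {B : MonoidAlgebra (OW p k) A} (hB : CenL b B) :
    (p - 1) + Nat.card (EG φ D f) ^ 2 ≤ Nat.card (EG φ D f) * Fintype.card (IR φ R B) := by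
  have hp : p.Prime := Fact.out
  have h1 := l_ge hp2 h.src h.inj h.ran h.cen hE hT
  have h2 := col_count hp2 h (fun hd => by
    have h3 : 0 < eN D f := by
      rw [← card_EG (φ := φ) h.inj h.ran]
      have := finite_EG (φ := φ) (D := D) (f := f)
      exact Nat.card_pos
    exact absurd (Nat.le_of_dvd h3 hd) (by omega)) hT hB
  rw [card_EG (φ := φ) h.inj h.ran] at h2 ⊢
  nlinarith [Nat.mul_le_mul_left (eN D f) h1]

/-- **the rows** -/
theorem exists_rows (hp2 : p ≠ 2) (h : Stp φ b D f i R G) (hE : eN D f + 3 ≤ p) (hRT : R ≠ ⊤)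
    {B : MonoidAlgebra (OW p k) A} (hB : CenL b B) :
    ∃ ψ : IR φ R B → T → KW p k, Rows φ D f R G B ψ := by
  have hp : p.Prime := Fact.out
  have hcE : Nat.card (EG φ D f) = eN D f := card_EG h.inj h.ran
  have hfE := finite_EG (φ := φ) (D := D) (f := f)
  have hpE : ¬ p ∣ eN D f := by
    intro hd
    have h3 : 0 < eN D f := by
      rw [← hcE]
      exact Nat.card_pos
    exact absurd (Nat.le_of_dvd h3 hd) (by omega)
  obtain ⟨Θ, h1, h2, h3, h4⟩ := rows_glue h (by rwa [hcE]) hB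
  have hT := isPG h
  have hER : ∀ α ∈ EG φ D f, ∀ z ∈ R, α z = z := fun α hα z hz =>
    YmAux.fix_cen h.inj hα (h.cen z hz)
  -- the index of `R`
  have hidx : Nat.card R * R.index = Fintype.card T := by
    rw [Subgroup.card_mul_index, Nat.card_eq_fintype_card]
  obtain ⟨m, hm⟩ := hT.index R
  have hm0 : m ≠ 0 := by
    rintro rfl
    rw [pow_zero, Subgroup.index_eq_one] at hm
    exact hRT hm
  have hcase : p ^ 2 * Nat.card R ≤ Fintype.card T ∨
      ((∀ χ : IR φ R B, ∃ u, u ∉ R ∧ Θ χ u ≠ 0) ∧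
        (p - 1) + Nat.card (EG φ D f) ^ 2 ≤ Nat.card (EG φ D f) * Fintype.card (IR φ R B)) := by
    by_cases hm1 : m = 1
    · right
      have hT1 : Fintype.card T = p * Nat.card R := by
        rw [← hidx, hm, hm1, pow_one, mul_comm]
      refine ⟨fun χ => ?_, card_rows hp2 h hE hT1 hB⟩
      obtain ⟨u, hu⟩ : ∃ u, u ∉ R := by
        by_contra hcon
        push Not at hcon
        exact hRT (Subgroup.eq_top_iff' R |>.2 hcon)
      exact ⟨u, hu, by rw [h3 χ u hu]; exact rwv_ne hp2 h hpE hB χ.2.2 hu (reg_out h hT1 hu)⟩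
    · left
      rw [← hidx, hm, mul_comm]
      exact Nat.mul_le_mul_left _ (Nat.pow_le_pow_right hp.pos (by omega))
  obtain ⟨ψ, h5, h6, h7, h8⟩ := ext_rel hp hT (by rw [hcE]; exact hE) hER hRT h1 h2 h4 hcase
  exact ⟨ψ, ext_Rows h3 h5 h6 h7 h8⟩

end

end Pool.Agent.Lib.P0c8ca5.Ex
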