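import Mathlib
import Pool.Agent.Lib.P0c8ca5Ex.YM
import Pool.Agent.Lib.P0c8ca5Ex.YG

/-!
# YPa: the generalized characters `Ml`, `Mc` and the Gram matrix of the multiplicities

* `gram_l` (pure, from `Rows.gram`): for `l` trivial on `R`: `∑_χ mlt (ψ χ) l * ψ χ u = ∑_(α ∈ E) l (α u)` and
  `∑_χ mlt (ψ χ) l ^ 2 = #{α ∈ E : l ∘ α = l}`. PROOF. `mlt g l = |T|⁻¹ ∑_v g v l(v⁻¹)`; `|R| ∑_χ ψ χ v ψ χ u` is
  `|T| #{α : α v * u ∈ R}` (`gram_iff`).
-/

set_option linter.unusedSectionVars false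

namespace Pool.Agent.Lib.P0c8ca5.Ex

open MonoidAlgebra YLx

section
variable {p : ℕ} [Fact p.Prime] {k : Type*} [Field k] [IsAlgClosed k] [CharP k p]
  {A : Type*} [Group A] [Finite A] {T : Type*} [CommGroup T] [Fintype T]
  {φ : T →* A} {b f i : MonoidAlgebra k A} {D : Subgroup A} {R : Subgroup T}
  {G : Subgroup T → A → KW p k}

/-- the generalized character of `l` -/
noncomputable def Ml {B : MonoidAlgebra (OW p k) A} (ψ : IR φ R B → T → KW p k)
    (l : T →* (KW p k)ˣ) (x : A) : KW p k :=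
  ∑ χ : IR φ R B, mlt (ψ χ) l * ch χ.1 x

/-- the generalized character of the values of the rows at `1` -/
noncomputable def Mc {B : MonoidAlgebra (OW p k) A} (ψ : IR φ R B → T → KW p k) (x : A) :
    KW p k :=
  ∑ χ : IR φ R B, ψ χ 1 * ch χ.1 x

namespace YPaAux

theorem comb_mem {B : MonoidAlgebra (OW p k) A} (hB : CenL b B) (a : IR φ R B → KW p k)
    (ha : ∀ χ, ∃ z : ℤ, a χ = (z : KW p k)) :
    (fun x => ∑ χ : IR φ R B, a χ * ch χ.1 x) ∈ VA (p := p) b := by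
  choose z hz using ha
  have h1 : (fun x => ∑ χ : IR φ R B, a χ * ch χ.1 x) = ∑ χ : IR φ R B, z χ • ch χ.1 := by
    funext x
    rw [Finset.sum_apply]
    refine Finset.sum_congr rfl fun χ _ => ?_
    rw [Pi.smul_apply, zsmul_eq_mul, hz]
  rw [h1]
  exact AddSubgroup.sum_mem _ fun χ _ => AddSubgroup.zsmul_mem _ (YGAux.ch_mem_VA hB χ.2.2) _

end YPaAux

theorem Mc_mem (h : Stp φ b D f i R G) {B : MonoidAlgebra (OW p k) A} (hB : CenL b B)
    {ψ : IR φ R B → T → KW p k} (hψ : Rows φ D f R G B ψ) : Mc ψ ∈ VA (p := p) b :=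
  YPaAux.comb_mem hB (fun χ => ψ χ 1) fun χ => vir_one (hψ.vir χ)

/-- the same for `Ml` -/
theorem Ml_mem {B : MonoidAlgebra (OW p k) A} (hB : CenL b B)
    {ψ : IR φ R B → T → KW p k} (hψ : Rows φ D f R G B ψ) (l : T →* (KW p k)ˣ) :
    Ml ψ l ∈ VA (p := p) b :=
  YPaAux.comb_mem hB (fun χ => mlt (ψ χ) l) fun χ => mem_vir_iff.1 (hψ.vir χ) l

theorem Mc_ker {B : MonoidAlgebra (OW p k) A} (ψ : IR φ R B → T → KW p k) {z : T} (hz : z ∈ R)
    (x : A) : Mc ψ (φ z * x) = Mc ψ x := by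
  unfold Mc
  refine Finset.sum_congr rfl fun χ _ => ?_
  rw [χ.2.1 z hz x]

theorem Ml_ker {B : MonoidAlgebra (OW p k) A} (ψ : IR φ R B → T → KW p k)
    (l : T →* (KW p k)ˣ) {z : T} (hz : z ∈ R) (x : A) : Ml ψ l (φ z * x) = Ml ψ l x := by
  unfold Ml
  refine Finset.sum_congr rfl fun χ _ => ?_
  rw [χ.2.1 z hz x]

/-- `T` is a p-group -/
theorem YPaAux.isPGroup_T (h : Stp φ b D f i R G) : IsPGroup p T := by
  obtain ⟨M, hM⟩ := pow_one_of h.src
  intro u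
  refine ⟨M, ?_⟩
  apply h.inj
  rw [map_pow, map_one]
  exact hM _ ((h.ran _).2 ⟨u, rfl⟩)

open Classical in
theorem gram_l (h : Stp φ b D f i R G) (hE : eN D f + 3 ≤ p) {B : MonoidAlgebra (OW p k) A}
    {ψ : IR φ R B → T → KW p k} (hψ : Rows φ D f R G B ψ) [Fintype ↥(EG φ D f)]
    {l : T →* (KW p k)ˣ} (hl : ∀ z ∈ R, l z = 1) :
    (∀ u, ∑ χ : IR φ R B, mlt (ψ χ) l * ψ χ u
      = ∑ α : EG φ D f, ((l ((α : MulAut T) u) : (KW p k)ˣ) : KW p k)) ∧
    ∑ χ : IR φ R B, mlt (ψ χ) l ^ 2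
      = ((Finset.univ.filter fun α : EG φ D f => ∀ u, l ((α : MulAut T) u) = l u).card :
        KW p k) := by
  have hp : p.Prime := Fact.out
  have hT : IsPGroup p T := YPaAux.isPGroup_T h
  have hEc : Nat.card (EG φ D f) + 3 ≤ p := by rw [card_EG h.inj h.ran]; exact hE
  have hER : ∀ α ∈ EG φ D f, ∀ z ∈ R, α z = z := fun α hα z hz => YFAux.al_fix h hα hz
  have hg : ∀ v w, (Nat.card R : KW p k) * ∑ χ : IR φ R B, ψ χ v * ψ χ w⁻¹ =
      (Fintype.card T : KW p k) * (gR (EG φ D f) R v w : KW p k) := fun v w =>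
    (gram_iff hp hT hEc hER ψ v w).1 (hψ.gram v w)
  have hR0 : (Nat.card R : KW p k) ≠ 0 := cardR_ne R
  have hT0 : (Fintype.card T : KW p k) ≠ 0 := card_ne
  have hlz : ∀ z ∈ R, ∀ t, chr l (z * t) = chr l t := by
    intro z hz t
    rw [chr_map_mul]
    have h1 : chr l z = 1 := by
      change ((l z : (KW p k)ˣ) : KW p k) = 1
      rw [hl z hz, Units.val_one]
    rw [h1, one_mul]
  have h1 : ∀ u, ∑ χ : IR φ R B, mlt (ψ χ) l * ψ χ u
      = ∑ α : EG φ D f, ((l ((α : MulAut T) u) : (KW p k)ˣ) : KW p k) := by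
    intro u
    apply mul_left_cancel₀ hR0
    have e1 : ∀ χ : IR φ R B, mlt (ψ χ) l * ψ χ u =
        (Fintype.card T : KW p k)⁻¹ * ∑ v, chr l v⁻¹ * (ψ χ v * ψ χ (u⁻¹)⁻¹) := by
      intro χ
      unfold mlt
      rw [mul_assoc, Finset.sum_mul, inv_inv]
      congr 1
      exact Finset.sum_congr rfl fun v _ => by ring
    rw [Finset.sum_congr rfl fun χ _ => e1 χ, ← Finset.mul_sum, Finset.sum_comm]
    have e2 : ∀ v : T, ∑ χ : IR φ R B, chr l v⁻¹ * (ψ χ v * ψ χ (u⁻¹)⁻¹) =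
        (Nat.card R : KW p k)⁻¹ * ((Fintype.card T : KW p k) *
          (chr l v⁻¹ * (gR (EG φ D f) R v u⁻¹ : KW p k))) := by
      intro v
      rw [← Finset.mul_sum, eq_inv_mul_iff_mul_eq₀ hR0]
      have e3 := hg v u⁻¹
      calc (Nat.card R : KW p k) * (chr l v⁻¹ * ∑ χ : IR φ R B, ψ χ v * ψ χ (u⁻¹)⁻¹)
          = chr l v⁻¹ * ((Nat.card R : KW p k) * ∑ χ : IR φ R B, ψ χ v * ψ χ (u⁻¹)⁻¹) := by ring
        _ = chr l v⁻¹ * ((Fintype.card T : KW p k) * (gR (EG φ D f) R v u⁻¹ : KW p k)) := by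
          rw [e3]
        _ = _ := by ring
    rw [Finset.sum_congr rfl fun v _ => e2 v, ← Finset.mul_sum, ← Finset.mul_sum]
    have e4 : ∑ v : T, chr l v⁻¹ * (gR (EG φ D f) R v u⁻¹ : KW p k) =
        ∑ α : EG φ D f, (Nat.card R : KW p k) *
          ((l ((α : MulAut T) u) : (KW p k)ˣ) : KW p k) := by
      have e5 : ∀ v : T, chr l v⁻¹ * (gR (EG φ D f) R v u⁻¹ : KW p k) =
          ∑ α : EG φ D f, if (α : MulAut T) v * u⁻¹⁻¹ ∈ R then chr l v⁻¹ else 0 := by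
        intro v
        rw [← Finset.sum_filter, Finset.sum_const, nsmul_eq_mul, mul_comm]
        rfl
      rw [Finset.sum_congr rfl fun v _ => e5 v, Finset.sum_comm,
        ← Equiv.sum_comp (Equiv.inv (EG φ D f))]
      refine Finset.sum_congr rfl fun α _ => ?_
      rw [← Equiv.sum_comp ((α : MulAut T) : T ≃* T).toEquiv]
      have e6 : ∀ w : T, (if (((Equiv.inv (EG φ D f)) α : EG φ D f) : MulAut T)
          (((α : MulAut T) : T ≃* T).toEquiv w) * u⁻¹⁻¹ ∈ R then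
            chr l (((α : MulAut T) : T ≃* T).toEquiv w)⁻¹ else 0) =
          if u⁻¹ * w⁻¹ ∈ R then chr l ((α : MulAut T) u) else 0 := by
        intro w
        have e7 : (((Equiv.inv (EG φ D f)) α : EG φ D f) : MulAut T)
            (((α : MulAut T) : T ≃* T).toEquiv w) = w := by
          change ((α : MulAut T)⁻¹) ((α : MulAut T) w) = w
          exact MulAut.inv_apply_self _ _ _
        rw [e7]
        have e8 : w * u⁻¹⁻¹ ∈ R ↔ u⁻¹ * w⁻¹ ∈ R := by
          rw [← Subgroup.inv_mem_iff, mul_inv, inv_inv, mul_comm]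
        by_cases e9 : u⁻¹ * w⁻¹ ∈ R
        · rw [if_pos (e8.2 e9), if_pos e9]
          have e10 : w⁻¹ = (u * (u⁻¹ * w⁻¹)) := by rw [mul_inv_cancel_left]
          change chr l ((α : MulAut T) w)⁻¹ = _
          rw [← map_inv, e10, map_mul, hER _ α.2 _ e9, mul_comm, hlz _ e9]
        · rw [if_neg (fun e10 => e9 (e8.1 e10)), if_neg e9]
      rw [Finset.sum_congr rfl fun w _ => e6 w, ← Finset.sum_filter, Finset.sum_const,
        nsmul_eq_mul]
      congr 2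
      exact card_coset R u⁻¹
    rw [e4, ← Finset.mul_sum]
    field_simp
  refine ⟨h1, ?_⟩
  have e1 : ∀ χ : IR φ R B, mlt (ψ χ) l ^ 2 =
      (Fintype.card T : KW p k)⁻¹ * ∑ u, chr l u⁻¹ * (mlt (ψ χ) l * ψ χ u) := by
    intro χ
    have e2 : mlt (ψ χ) l = (Fintype.card T : KW p k)⁻¹ * ∑ u, ψ χ u * chr l u⁻¹ := rfl
    rw [pow_two]
    nth_rewrite 2 [e2]
    rw [mul_left_comm, Finset.mul_sum]
    congr 1
    exact Finset.sum_congr rfl fun u _ => by ring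
  rw [Finset.sum_congr rfl fun χ _ => e1 χ, ← Finset.mul_sum, Finset.sum_comm]
  have e2 : ∀ u : T, ∑ χ : IR φ R B, chr l u⁻¹ * (mlt (ψ χ) l * ψ χ u) =
      ∑ α : EG φ D f, chr (dl l (α : MulAut T)) u * chr l u⁻¹ := by
    intro u
    rw [← Finset.mul_sum, h1, Finset.mul_sum]
    refine Finset.sum_congr rfl fun α _ => ?_
    rw [mul_comm]
    rfl
  rw [Finset.sum_congr rfl fun u _ => e2 u, Finset.sum_comm, Finset.mul_sum]
  have e3 : ∀ α : EG φ D f, (Fintype.card T : KW p k)⁻¹ *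
      ∑ u : T, chr (dl l (α : MulAut T)) u * chr l u⁻¹ =
      if ∀ u, l ((α : MulAut T) u) = l u then 1 else 0 := by
    intro α
    have e4 := mlt_chr (K := KW p k) (dl l (α : MulAut T)) l
    unfold mlt at e4
    rw [e4]
    refine if_congr ?_ rfl rfl
    constructor
    · intro e5 u
      exact DFunLike.congr_fun e5 u
    · intro e5
      ext u
      exact congrArg Units.val (e5 u)
  rw [Finset.sum_congr rfl fun α _ => e3 α, ← Finset.sum_filter, Finset.sum_const,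
    nsmul_eq_mul, mul_one]

end

end Pool.Agent.Lib.P0c8ca5.Ex
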