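import Mathlib
import Pool.Agent.Lib.P0c8ca5Ex.YJ
import Pool.Agent.Lib.P0c8ca5Ex.YG
import Pool.Agent.Lib.P0c8ca5Ex.YL
import Pool.Agent.Lib.P0c8ca5Ex.YM
import Pool.Agent.Lib.P0c8ca5Ex.XD

/-!
# YSa: the places with the same `Q = R ⊔ ⟨u⟩`

* `exists_P`: `Q = R ⊔ ⟨u⟩` has a subgroup `P ≥ R` of index `p`, the elements `v ∈ Q - P` are those with `R ⊔ ⟨v⟩ = Q`.
* `gen_pair`: `∑_(v : R ⊔ ⟨v⟩ = Q) x v * y v⁻¹` is `|R|` times an integer if `x`, `y` are virtual characters of `Q`.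
* `sum_out`: the sum over `u ∉ R` is the sum over the `Q`.
* `cut_top`: `cut H BH X = X` if `H = ⊤`.
-/

set_option linter.unusedSectionVars false

namespace Pool.Agent.Lib.P0c8ca5.Ex

open MonoidAlgebra

namespace YSaAux

section
variable {T : Type*} [CommGroup T] [Finite T] {p : ℕ} {R : Subgroup T}

theorem mem_of_pow (hp : p.Prime) (hT : IsPGroup p T) {n : ℤ} (hn : ¬ (p : ℤ) ∣ n) {y : T}
    {H : Subgroup T} (h : y ^ n ∈ H) : y ∈ H := by
  obtain ⟨k, hk⟩ := hT y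
  have h1 : IsCoprime n ((p : ℤ) ^ k) := by
    refine IsCoprime.pow_right ?_
    exact ((Prime.coprime_iff_not_dvd (Nat.prime_iff_prime_int.1 hp)).2 hn).symm
  obtain ⟨a, c, hac⟩ := h1
  have h2 : y = (y ^ n) ^ a * (y ^ p ^ k) ^ c := by
    have h3 : (y ^ n) ^ a * (y ^ p ^ k) ^ c = y ^ (n * a + (p : ℤ) ^ k * c) := by
      rw [zpow_add, zpow_mul, zpow_mul]
      congr 2
      rw [← zpow_natCast]
      push_cast
      rfl
    rw [h3]
    have h4 : n * a + (p : ℤ) ^ k * c = 1 := by linarith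
    rw [h4, zpow_one]
  rw [h2, hk, one_zpow, mul_one]
  exact H.zpow_mem h a

theorem exists_P (hp : p.Prime) (hT : IsPGroup p T) {u : T} (hu : u ∉ R) :
    ∃ P : Subgroup T, R ≤ P ∧ P ≤ R ⊔ Subgroup.zpowers u ∧
      Nat.card ↥(R ⊔ Subgroup.zpowers u) = p * Nat.card P ∧
      ∀ v ∈ R ⊔ Subgroup.zpowers u, (v ∉ P ↔ R ⊔ Subgroup.zpowers v = R ⊔ Subgroup.zpowers u) := by
  have := Fintype.ofFinite T
  set Q := R ⊔ Subgroup.zpowers u with hQ
  set P := R ⊔ Subgroup.zpowers (u ^ p) with hP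
  have huQ : u ∈ Q := Subgroup.mem_sup_right (Subgroup.mem_zpowers u)
  have hPQ : P ≤ Q := by
    refine sup_le le_sup_left ?_
    rw [Subgroup.zpowers_le]
    exact Q.pow_mem huQ p
  have huP : u ∉ P := by
    intro h
    obtain ⟨r, hr, w, hw, h1⟩ := Subgroup.mem_sup.1 h
    obtain ⟨k, rfl⟩ := Subgroup.mem_zpowers_iff.1 hw
    apply hu
    refine mem_of_pow hp hT (n := 1 - p * k) ?_ ?_
    · intro h2
      have h3 : (p : ℤ) ∣ 1 := by
        have h4 := dvd_add h2 (Dvd.intro k rfl : (p : ℤ) ∣ p * k)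
        rwa [sub_add_cancel] at h4
      exact hp.one_lt.ne' (by exact_mod_cast Int.eq_one_of_dvd_one (by positivity) h3)
    · have h2 : u ^ (1 - (p : ℤ) * k) = r := by
        rw [zpow_sub, zpow_one, zpow_mul, zpow_natCast]
        exact mul_inv_eq_of_eq_mul h1.symm
      rw [h2]
      exact hr
  have hnle : ¬ Q ≤ P := fun h => huP (h huQ)
  have hgen : ∀ v ∈ Q, (v ∉ P ↔ R ⊔ Subgroup.zpowers v = Q) := by
    intro v hv
    constructor
    · intro hvP
      refine le_antisymm (sup_le le_sup_left ((Subgroup.zpowers_le).2 hv)) ?_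
      refine sup_le le_sup_left ((Subgroup.zpowers_le).2 ?_)
      obtain ⟨r, hr, w, hw, h1⟩ := Subgroup.mem_sup.1 hv
      obtain ⟨k, rfl⟩ := Subgroup.mem_zpowers_iff.1 hw
      have hrR : r ∈ R ⊔ Subgroup.zpowers v := Subgroup.mem_sup_left hr
      have hvv : v ∈ R ⊔ Subgroup.zpowers v := Subgroup.mem_sup_right (Subgroup.mem_zpowers v)
      refine mem_of_pow hp hT (n := k) ?_ ?_
      · rintro ⟨j, rfl⟩
        apply hvP
        rw [← h1, zpow_mul, zpow_natCast]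
        exact P.mul_mem (Subgroup.mem_sup_left hr)
          (P.zpow_mem (Subgroup.mem_sup_right (Subgroup.mem_zpowers _)) j)
      · have h2 : u ^ k = r⁻¹ * v := by rw [← h1, inv_mul_cancel_left]
        rw [h2]
        exact Subgroup.mul_mem _ (Subgroup.inv_mem _ hrR) hvv
    · intro h hvP
      apply hnle
      rw [← h]
      exact sup_le le_sup_left ((Subgroup.zpowers_le).2 hvP)
  refine ⟨P, le_sup_left, hPQ, le_antisymm ?_ (YLx.card_lt_p hp hT hPQ hnle), hgen⟩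
  -- `|Q| ≤ p |P|`
  have h1 : Nat.card (Fin p × P) = p * Nat.card P := by
    rw [Nat.card_prod, Nat.card_eq_fintype_card, Fintype.card_fin]
  rw [← h1]
  let g : Fin p × P → Q := fun x => ⟨u ^ (x.1 : ℕ) * x.2, Q.mul_mem (Q.pow_mem huQ _) (hPQ x.2.2)⟩
  refine Nat.card_le_card_of_surjective g ?_
  rintro ⟨v, hv⟩
  obtain ⟨r, hr, w, hw, h2⟩ := Subgroup.mem_sup.1 hv
  obtain ⟨k, rfl⟩ := Subgroup.mem_zpowers_iff.1 hw
  have hp0 : (p : ℤ) ≠ 0 := by exact_mod_cast hp.ne_zero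
  have h3 : 0 ≤ k % p := Int.emod_nonneg _ hp0
  have h4 : k % p < p := Int.emod_lt_of_pos _ (by exact_mod_cast hp.pos)
  have h5 : ((k % p).toNat : ℤ) = k % p := Int.toNat_of_nonneg h3
  refine ⟨(⟨(k % p).toNat, by omega⟩, ⟨r * (u ^ p) ^ (k / p),
    P.mul_mem (Subgroup.mem_sup_left hr)
      (P.zpow_mem (Subgroup.mem_sup_right (Subgroup.mem_zpowers _)) _)⟩), Subtype.ext ?_⟩
  change u ^ (k % p).toNat * (r * (u ^ p) ^ (k / p)) = v
  rw [← h2, ← zpow_natCast u ((k % p).toNat), h5, mul_left_comm]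
  congr 1
  rw [← zpow_natCast u p, ← zpow_mul, ← zpow_add, Int.emod_add_mul_ediv]

end

section
variable {T : Type*} [CommGroup T] [Fintype T] {R : Subgroup T}

open Classical in
/-- the sum over the elements outside `R` -/
theorem sum_out {K : Type*} [Field K] {F : T → K} {c : K}
    (h : ∀ u, u ∉ R → ∃ m : ℤ,
      ∑ v : T with R ⊔ Subgroup.zpowers v = R ⊔ Subgroup.zpowers u, F v = c * m) :
    ∃ m : ℤ, ∑ v : T with v ∉ R, F v = c * m := by
  have : Fintype (Subgroup T) := Fintype.ofFinite _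
  rw [← Finset.sum_fiberwise (Finset.univ.filter fun v : T => v ∉ R)
    (fun v => R ⊔ Subgroup.zpowers v) F]
  have h1 : ∀ Q : Subgroup T, ∃ m : ℤ,
      ∑ v ∈ Finset.univ.filter (fun v : T => v ∉ R) with R ⊔ Subgroup.zpowers v = Q, F v
        = c * m := by
    intro Q
    by_cases hQ : ∃ u, u ∉ R ∧ R ⊔ Subgroup.zpowers u = Q
    · obtain ⟨u, hu, rfl⟩ := hQ
      obtain ⟨m, hm⟩ := h u hu
      refine ⟨m, ?_⟩
      rw [← hm]
      refine Finset.sum_congr ?_ fun _ _ => rfl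
      ext v
      rw [Finset.mem_filter, Finset.mem_filter, Finset.mem_filter]
      refine ⟨fun h2 => ⟨Finset.mem_univ _, h2.2⟩, fun h2 => ⟨⟨Finset.mem_univ _, fun hv => ?_⟩, h2.2⟩⟩
      apply hu
      have h3 : R ⊔ Subgroup.zpowers v = R := by
        rw [sup_eq_left, Subgroup.zpowers_le]
        exact hv
      have h4 : u ∈ R ⊔ Subgroup.zpowers u := Subgroup.mem_sup_right (Subgroup.mem_zpowers u)
      rwa [← h2.2, h3] at h4
    · refine ⟨0, ?_⟩
      rw [Finset.sum_eq_zero, Int.cast_zero, mul_zero]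
      intro v hv
      exfalso
      rw [Finset.mem_filter, Finset.mem_filter] at hv
      exact hQ ⟨v, hv.1.2, hv.2⟩
  choose m hm using h1
  refine ⟨∑ Q, m Q, ?_⟩
  rw [Finset.sum_congr rfl fun Q _ => hm Q, ← Finset.mul_sum]
  push_cast
  rfl

end

section
variable {p : ℕ} [Fact p.Prime] {k : Type*} [Field k] [IsAlgClosed k] [CharP k p]
  {A : Type*} [Group A] [Finite A] {T : Type*} [CommGroup T] [Fintype T]
  {φ : T →* A} {b f i : MonoidAlgebra k A} {D : Subgroup A} {R : Subgroup T}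
  {G : Subgroup T → A → KW p k}

open Classical in
/-- the generators of `Q` modulo `R` as elements of `↥Q` -/
theorem sum_gen {K : Type*} [Field K] {Q P : Subgroup T}
    (hg : ∀ v ∈ Q, (v ∉ P ↔ R ⊔ Subgroup.zpowers v = Q)) (F : T → K) :
    ∑ v : T with R ⊔ Subgroup.zpowers v = Q, F v
      = ∑ v : ↥Q with v ∉ P.subgroupOf Q, F v := by
  symm
  refine Finset.sum_bij (fun v _ => (v : T)) ?_ ?_ ?_ ?_
  · intro v hv
    rw [Finset.mem_filter] at hv ⊢
    refine ⟨Finset.mem_univ _, (hg v v.2).1 ?_⟩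
    exact fun h => hv.2 (Subgroup.mem_subgroupOf.2 h)
  · exact fun v _ w _ h => Subtype.ext h
  · intro v hv
    rw [Finset.mem_filter] at hv
    have hvQ : v ∈ Q := by
      rw [← hv.2]
      exact Subgroup.mem_sup_right (Subgroup.mem_zpowers v)
    refine ⟨⟨v, hvQ⟩, ?_, rfl⟩
    rw [Finset.mem_filter]
    exact ⟨Finset.mem_univ _, fun h => (hg v hvQ).2 hv.2 (Subgroup.mem_subgroupOf.1 h)⟩
  · exact fun _ _ => rfl

theorem card_sgo {Q P : Subgroup T} (hPQ : P ≤ Q) :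
    Nat.card (P.subgroupOf Q) = Nat.card P :=
  Nat.card_congr (Subgroup.subgroupOfEquivOfLe hPQ).toEquiv

open Classical in
theorem gen_pair (hT : IsPGroup p T) {u : T} (hu : u ∉ R) {x y : T → KW p k}
    (hx : (fun v : ↥(R ⊔ Subgroup.zpowers u) => x v) ∈ vir ↥(R ⊔ Subgroup.zpowers u) (KW p k))
    (hy : (fun v : ↥(R ⊔ Subgroup.zpowers u) => y v) ∈ vir ↥(R ⊔ Subgroup.zpowers u) (KW p k)) :
    ∃ m : ℤ, ∑ v : T with R ⊔ Subgroup.zpowers v = R ⊔ Subgroup.zpowers u, x v * y v⁻¹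
      = (Nat.card R : KW p k) * m := by
  obtain ⟨P, hRP, hPQ, hcard, hg⟩ := exists_P (Fact.out : p.Prime) hT hu
  obtain ⟨a, ha⟩ : ∃ a : (↥(R ⊔ Subgroup.zpowers u) →* (KW p k)ˣ) → ℤ, ∀ l,
      mlt (fun v : ↥(R ⊔ Subgroup.zpowers u) => x v) l = (a l : KW p k) :=
    ⟨fun l => Classical.choose (mem_vir_iff.1 hx l), fun l => Classical.choose_spec (mem_vir_iff.1 hx l)⟩
  obtain ⟨c, hc⟩ : ∃ a : (↥(R ⊔ Subgroup.zpowers u) →* (KW p k)ˣ) → ℤ, ∀ l,
      mlt (fun v : ↥(R ⊔ Subgroup.zpowers u) => y v) l = (a l : KW p k) :=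
    ⟨fun l => Classical.choose (mem_vir_iff.1 hy l), fun l => Classical.choose_spec (mem_vir_iff.1 hy l)⟩
  have h1 := pair_sum (P.subgroupOf (R ⊔ Subgroup.zpowers u)) a c ha hc
  rw [sum_gen hg (fun v => x v * y v⁻¹)]
  obtain ⟨j, hj⟩ := Subgroup.card_dvd_of_le hRP
  rw [card_sgo hPQ, hj] at h1
  refine ⟨j * ∑ l : ↥(R ⊔ Subgroup.zpowers u) →* (KW p k)ˣ,
    ∑ m ∈ Finset.univ.filter (fun m => eqP (P.subgroupOf (R ⊔ Subgroup.zpowers u)) m l),
      (a l * c l - a l * c m), ?_⟩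
  rw [← Int.cast_natCast, ← Int.cast_mul, ← mul_assoc]
  push_cast at h1 ⊢
  exact h1

/-- the whole group -/
theorem lbH_top (h : Src p b D f i) {c : MonoidAlgebra k A} (hc : LbH (⊤ : Subgroup A) i c) :
    c = b := by
  by_contra hne
  have h1 : b * c = 0 := (h.root.blk.eq_or_mul_eq_zero hc.blk).resolve_left (fun h2 => hne h2.symm)
  have h2 : resS ((⊤ : Subgroup A) : Set A) i = i := by
    ext x
    rw [coeff_resS_of_mem]
    trivial
  have h3 := hc.ic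
  rw [h2] at h3
  apply h.prim.ne
  rw [← h3, ← h.ib, mul_assoc, h1, mul_zero]

theorem cen_top (h : Src p b D f i) {c : MonoidAlgebra k A} (hc : LbH (⊤ : Subgroup A) i c)
    {BH : MonoidAlgebra (OW p k) ↥(⊤ : Subgroup A)} (hB : CenL (dnr ⊤ c) BH) :
    CenL b (upr ⊤ BH) := by
  refine ⟨by rw [← map_mul, hB.idem], fun x => ?_, ?_⟩
  · have h1 : upr ⊤ (dnr ⊤ x) = x := upr_dnr (fun _ _ => Subgroup.mem_top _)
    rw [← h1, ← map_mul, ← map_mul, hB.cen]
  · rw [map_upr, hB.red, upr_blk hc.blk, lbH_top h hc]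

open YFAux in
theorem cut_top {H : Subgroup A} (hH : H = ⊤) (h : Src p b D f i) {c : MonoidAlgebra k A}
    (hc : LbH H i c) {BH : MonoidAlgebra (OW p k) ↥H} (hB : CenL (dnr H c) BH) {X : A → KW p k}
    (hX : X ∈ VA (p := p) b) (x : A) : cut H BH X x = X x := by
  subst hH
  rw [cut, if_pos (Subgroup.mem_top x), VA_mul (cen_top h hc hB) hX, lin_single]

/-- `W` at the central places -/
theorem Wf_top {H : Subgroup A} (hH : H = ⊤) {X Y X' Y' : A → KW p k} (hX : ∀ x, X' x = X x)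
    (hY : ∀ x, Y' x = Y x) {z : A} (hz : ∀ a, z * a = a * z) (hXz : ∀ x, X (z * x) = X x)
    (hYz : ∀ x, Y (z⁻¹ * x) = Y x) : Wf p H X' Y' z = ip (rg p X) Y := by
  classical
  subst hH
  rw [Wf, ip, Subgroup.card_top]
  congr 1
  have h1 := sm_sub (⊤ : Subgroup A) (F := fun x => rg p X x * Y x⁻¹)
    (fun x hx => absurd (Subgroup.mem_top x) hx)
  rw [h1]
  refine sm_congr fun s => ?_
  have h2 : z⁻¹ * (s : A)⁻¹ = (s : A)⁻¹ * z⁻¹ := by
    rw [← mul_inv_rev, ← mul_inv_rev, hz]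
  by_cases hs : Preg p s
  · rw [if_pos hs, rg_of ((FIAux.preg_coe' s).2 hs), hX, hY, hXz, mul_inv_rev, ← h2, hYz]
  · rw [if_neg hs, rg_not (fun h3 => hs ((FIAux.preg_coe' s).1 h3)), zero_mul]

open Classical in
/-- the local identity for `Q = R ⊔ ⟨u⟩` -/
theorem loc_id' (h : Stp φ b D f i R G) {u : T} (hu : u ∉ R) {Q : Subgroup T}
    (hQ : R ⊔ Subgroup.zpowers u = Q) {c : MonoidAlgebra k A} (hc : LbH (cq φ Q) i c)
    {BH : MonoidAlgebra (OW p k) ↥(cq φ Q)} (hB : CenL (dnr (cq φ Q) c) BH)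
    {N : Ir (KW p k) ↥(cq φ Q) → Ir (KW p k) ↥(cq φ Q) → ℤ}
    (hN0 : ∀ s t, chO s BH = 0 ∨ chO t BH = 0 → N s t = 0)
    (hN : ∀ s t, chO s BH ≠ 0 → chO t BH ≠ 0 →
      (Fintype.card T : KW p k) * (eQ φ D f Q : KW p k) * ip (rg p (ch s)) (ch t)
        = ip (ch s) (on (cq φ Q) (G Q)) * ip (ch t) (on (cq φ Q) (G Q))
          + (p : KW p k) * (N s t : KW p k))
    {X Y : A → KW p k} (hX : X ∈ V (KW p k) A) (hY : Y ∈ V (KW p k) A) :
    (Fintype.card T : KW p k) * (eQ φ D f Q : KW p k) *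
        Wf p (cq φ Q) (cut _ BH X) (cut _ BH Y) (φ u)
      = rwv φ G R X u * rwv φ G R Y u⁻¹ + (p : KW p k) *
        ∑ s, ∑ t, (N s t : KW p k) * (xs φ _ BH X s u * xs φ _ BH Y t u⁻¹) := by
  subst hQ
  exact loc_id h hu hc hB hN0 hN hX hY

open YFAux in
open Classical in
/-- the sum of the local identities over the `v` with the same `Q` -/
theorem sum_loc (h : Stp φ b D f i R G) (hT : IsPGroup p T)
    {BB : ∀ H : Subgroup A, MonoidAlgebra (OW p k) ↥H}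
    (hBB : ∀ u c, LbH (C1 (φ u)) i c → CenL (dnr (C1 (φ u)) c) (BB (C1 (φ u))))
    {X Y : A → KW p k} (hX : X ∈ V (KW p k) A) (hY : Y ∈ V (KW p k) A) {u : T} (hu : u ∉ R) :
    ∃ m : ℤ, ∑ v : T with R ⊔ Subgroup.zpowers v = R ⊔ Subgroup.zpowers u,
      ((Fintype.card T : KW p k) * ((eQ φ D f (Subgroup.zpowers v) : KW p k) *
        Wf p (C1 (φ v)) (cut (C1 (φ v)) (BB (C1 (φ v))) X) (cut (C1 (φ v)) (BB (C1 (φ v))) Y) (φ v))
        - rwv φ G R X v * rwv φ G R Y v⁻¹)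
      = ((p : KW p k) * (Nat.card R : KW p k)) * m := by
  obtain ⟨c, hc⟩ := exists_lbH h.src (phi_mem h u)
  have hcQ : LbH (cq φ (R ⊔ Subgroup.zpowers u)) i c := by
    rw [cq_eq h.cen]
    exact hc
  have hBQ : CenL (dnr (cq φ (R ⊔ Subgroup.zpowers u)) c)
      (BB (cq φ (R ⊔ Subgroup.zpowers u))) := by
    have h1 : ∀ H, H = C1 (φ u) → CenL (dnr H c) (BB H) := by
      rintro H rfl
      exact hBB u c hc
    exact h1 _ (cq_eq h.cen u)
  obtain ⟨N, -, hN0, hN⟩ := locN (h.ok _ (lt_sup hu)) hcQ hBQ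
  have hterm : ∀ v ∈ Finset.univ.filter
      (fun v : T => R ⊔ Subgroup.zpowers v = R ⊔ Subgroup.zpowers u),
      ((Fintype.card T : KW p k) * ((eQ φ D f (Subgroup.zpowers v) : KW p k) *
        Wf p (C1 (φ v)) (cut (C1 (φ v)) (BB (C1 (φ v))) X) (cut (C1 (φ v)) (BB (C1 (φ v))) Y) (φ v))
        - rwv φ G R X v * rwv φ G R Y v⁻¹)
      = (p : KW p k) * ∑ s, ∑ t, (N s t : KW p k) *
        (xs φ _ (BB (cq φ (R ⊔ Subgroup.zpowers u))) X s v *
          xs φ _ (BB (cq φ (R ⊔ Subgroup.zpowers u))) Y t v⁻¹) := by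
    intro v hv
    have hvQ := (Finset.mem_filter.1 hv).2
    have hvR : v ∉ R := by
      intro h1
      apply hu
      have h3 : R ⊔ Subgroup.zpowers v = R := by
        rw [sup_eq_left, Subgroup.zpowers_le]
        exact h1
      have h4 : u ∈ R ⊔ Subgroup.zpowers u := Subgroup.mem_sup_right (Subgroup.mem_zpowers u)
      rwa [← hvQ, h3] at h4
    have h1 := loc_id' h hvR hvQ hcQ hBQ hN0 hN hX hY
    have h2 : ∀ H : Subgroup A, H = cq φ (R ⊔ Subgroup.zpowers u) →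
        Wf p H (cut H (BB H) X) (cut H (BB H) Y) (φ v)
          = Wf p (cq φ (R ⊔ Subgroup.zpowers u))
            (cut _ (BB (cq φ (R ⊔ Subgroup.zpowers u))) X)
            (cut _ (BB (cq φ (R ⊔ Subgroup.zpowers u))) Y) (φ v) := by
      rintro H rfl
      rfl
    have h3 : C1 (φ v) = cq φ (R ⊔ Subgroup.zpowers u) := by
      rw [← hvQ, cq_eq h.cen]
    rw [h2 _ h3]
    have h4 : eQ φ D f (Subgroup.zpowers v) = eQ φ D f (R ⊔ Subgroup.zpowers u) := by
      rw [← hvQ, (eQ_sup h.cen h.inj v).1, (eQ_sup h.cen h.inj v).2]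
    rw [h4, ← mul_assoc, h1]
    ring
  rw [Finset.sum_congr rfl hterm, ← Finset.mul_sum]
  have hm : ∀ s t, ∃ m : ℤ, ∑ v : T with R ⊔ Subgroup.zpowers v = R ⊔ Subgroup.zpowers u,
      xs φ _ (BB (cq φ (R ⊔ Subgroup.zpowers u))) X s v *
          xs φ _ (BB (cq φ (R ⊔ Subgroup.zpowers u))) Y t v⁻¹ = (Nat.card R : KW p k) * m :=
    fun s t => gen_pair hT hu (xs_vir rfl hBQ hX s) (xs_vir rfl hBQ hY t)
  choose m hm using hm
  refine ⟨∑ s, ∑ t, N s t * m s t, ?_⟩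
  rw [mul_assoc]
  congr 1
  calc ∑ v : T with R ⊔ Subgroup.zpowers v = R ⊔ Subgroup.zpowers u,
      ∑ s, ∑ t, (N s t : KW p k) * (xs φ _ (BB (cq φ (R ⊔ Subgroup.zpowers u))) X s v *
          xs φ _ (BB (cq φ (R ⊔ Subgroup.zpowers u))) Y t v⁻¹)
      = ∑ s, ∑ t, ∑ v : T with R ⊔ Subgroup.zpowers v = R ⊔ Subgroup.zpowers u,
        (N s t : KW p k) * (xs φ _ (BB (cq φ (R ⊔ Subgroup.zpowers u))) X s v *
          xs φ _ (BB (cq φ (R ⊔ Subgroup.zpowers u))) Y t v⁻¹) := by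
        rw [Finset.sum_comm]
        exact Finset.sum_congr rfl fun s _ => Finset.sum_comm
    _ = ∑ s, ∑ t, (Nat.card R : KW p k) * ((N s t * m s t : ℤ) : KW p k) := by
        refine Finset.sum_congr rfl fun s _ => Finset.sum_congr rfl fun t _ => ?_
        rw [← Finset.mul_sum, hm]
        push_cast
        ring
    _ = (Nat.card R : KW p k) * ((∑ s, ∑ t, N s t * m s t : ℤ) : KW p k) := by
        push_cast
        rw [Finset.mul_sum]
        exact Finset.sum_congr rfl fun s _ => by rw [Finset.mul_sum]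

end

end YSaAux

end Pool.Agent.Lib.P0c8ca5.Ex
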