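import Mathlib
import Pool.Agent.Lib.P0c8ca5Ex.YSa
import Pool.Agent.Lib.P0c8ca5Ex.YI

/-!
# YPb: the vanishing of the columns, general part

* `wf_xs`: `Wf` in terms of the coefficients `xs`.
* `exists_q`: the form `|H|_p ip (rg p (ch s)) (ch t)` is integral and positive semidefinite.
* `col_zero`: if the sum of the `Wf` over the generators of `Q` vanishes then so does the column.
* `sum_fib`: the sum over `T - R` of a function with nonnegative integral fibre sums.
-/

set_option linter.unusedSectionVars false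

namespace Pool.Agent.Lib.P0c8ca5.Ex

open MonoidAlgebra YJAux YSaAux

namespace YPbAux

section
variable {p : ℕ} [Fact p.Prime] {k : Type*} [Field k] [IsAlgClosed k] [CharP k p]
  {A : Type*} [Group A] [Finite A] {T : Type*} [CommGroup T] [Fintype T]
  {φ : T →* A} {b f i : MonoidAlgebra k A} {D : Subgroup A} {R : Subgroup T}
  {G : Subgroup T → A → KW p k}

theorem wf_xs {Q : Subgroup T} {c : MonoidAlgebra k A}
    {BH : MonoidAlgebra (OW p k) ↥(cq φ Q)} (hB : CenL (dnr (cq φ Q) c) BH)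
    {X Y : A → KW p k} (hX : X ∈ V (KW p k) A) (hY : Y ∈ V (KW p k) A) {u : T} (huQ : u ∈ Q) :
    Wf p (cq φ Q) (cut _ BH X) (cut _ BH Y) (φ u)
      = ∑ s, ∑ t, xs φ _ BH X s u * xs φ _ BH Y t u⁻¹ * ip (rg p (ch s)) (ch t) := by
  classical
  have huQ' : u⁻¹ ∈ Q := Subgroup.inv_mem _ huQ
  have h1 : ∀ y : ↥(cq φ Q),
      (if Preg p y then cut (cq φ Q) BH X (φ u * y) * cut (cq φ Q) BH Y (φ u * y)⁻¹ else 0)
      = ∑ s, ∑ t, xs φ _ BH X s u * xs φ _ BH Y t u⁻¹ * (rg p (ch s) y * ch t y⁻¹) := by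
    intro y
    by_cases hy : Preg p y
    · have h2 : (φ u * (y : A))⁻¹ = φ u⁻¹ * ((y⁻¹ : ↥(cq φ Q)) : A) := by
        have h3 : (y : A) * φ u = φ u * y :=
          (Subgroup.mem_centralizer_iff.1 y.2 (φ u) ⟨u, huQ, rfl⟩).symm
        rw [← h3, mul_inv_rev, map_inv, Subgroup.coe_inv]
      rw [if_pos hy, h2, cut_xs hB hX huQ, cut_xs hB hY huQ', Finset.sum_mul_sum]
      refine Finset.sum_congr rfl fun s _ => Finset.sum_congr rfl fun t _ => ?_
      rw [rg_of hy]
      ring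
    · rw [if_neg hy]
      symm
      refine Finset.sum_eq_zero fun s _ => Finset.sum_eq_zero fun t _ => ?_
      rw [rg_not hy, zero_mul, mul_zero]
  rw [Wf, sm_congr h1, sm_sum, Finset.mul_sum]
  refine Finset.sum_congr rfl fun s _ => ?_
  rw [sm_sum, Finset.mul_sum]
  refine Finset.sum_congr rfl fun t _ => ?_
  rw [sm_mul, ip]
  ring

/-- the integral positive form of the `p`-regular elements -/
theorem exists_q (A : Type*) [Group A] [Finite A] :
    ∃ q : Ir (KW p k) A → Ir (KW p k) A → ℤ, PSD q ∧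
    ∀ s t, ((ordProj[p] (Nat.card A) : ℕ) : KW p k) * ip (rg p (ch s)) (ch t) = (q s t : KW p k) := by
  have h1 : ∀ s t : Ir (KW p k) A, ∃ z : ℤ,
      ((ordProj[p] (Nat.card A) : ℕ) : KW p k) * ip (rg p (ch s)) (ch t) = (z : KW p k) :=
    fun s t => ip_rg_int (ch_mem s) (ch_mem t)
  choose q hq using h1
  refine ⟨q, ⟨fun s t => ?_, fun x => ?_⟩, hq⟩
  · have h2 : (q s t : KW p k) = (q t s : KW p k) := by
      rw [← hq, ← hq, ip_comm (rg p (ch s)), ← ip_rg]
    exact_mod_cast h2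
  · set X : A → KW p k := fun y => ∑ s : Ir (KW p k) A, (x s : KW p k) * ch s y with hX
    have hXV : X ∈ V (KW p k) A := V_of_sum x
    obtain ⟨r, hr0, hr, -⟩ := rg_nonneg (p := p) hXV
    have h3 : X = fun y => ∑ s : Ir (KW p k) A, ((x s : KW p k) • ch s) y := rfl
    have h4 : rg p X = fun y => ∑ s : Ir (KW p k) A, ((x s : KW p k) • rg p (ch s)) y := by
      funext y
      by_cases hy : Preg p y
      · rw [rg_of hy, hX]
        refine Finset.sum_congr rfl fun s _ => ?_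
        rw [Pi.smul_apply, rg_of hy, smul_eq_mul]
      · rw [rg_not hy]
        symm
        refine Finset.sum_eq_zero fun s _ => ?_
        rw [Pi.smul_apply, rg_not hy, smul_zero]
    have h5 : ip (rg p X) X = ∑ s : Ir (KW p k) A, ∑ t : Ir (KW p k) A,
        (x s : KW p k) * (x t : KW p k) * ip (rg p (ch s)) (ch t) := by
      rw [h4, ip_sum]
      refine Finset.sum_congr rfl fun s _ => ?_
      rw [ip_smul, ip_comm, h3, ip_sum, Finset.mul_sum]
      refine Finset.sum_congr rfl fun t _ => ?_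
      rw [ip_smul, ip_comm (ch t)]
      ring
    have h6 : ((bf q x x : ℤ) : KW p k)
        = ((((ordProj[p] (Nat.card A) : ℕ) : ℚ) * r : ℚ) : KW p k) := by
      rw [Rat.cast_mul, Rat.cast_natCast, ← hr, h5, bf, Int.cast_sum, Finset.mul_sum]
      refine Finset.sum_congr rfl fun s _ => ?_
      rw [Int.cast_sum, Finset.mul_sum]
      refine Finset.sum_congr rfl fun t _ => ?_
      rw [Int.cast_mul, Int.cast_mul, ← hq]
      ring
    have h7 : ((bf q x x : ℤ) : ℚ) = ((ordProj[p] (Nat.card A) : ℕ) : ℚ) * r := by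
      exact_mod_cast h6
    have h8 : (0 : ℚ) ≤ ((bf q x x : ℤ) : ℚ) := by
      rw [h7]
      positivity
    exact_mod_cast h8

open Classical in
/-- the column vanishes if the sum of the `Wf` over the generators vanishes -/
theorem col_zero {Q P : Subgroup T} (hcard : Nat.card ↥Q = p * Nat.card P) (hPQ : P ≤ Q)
    {c : MonoidAlgebra k A} {BH : MonoidAlgebra (OW p k) ↥(cq φ Q)}
    (hB : CenL (dnr (cq φ Q) c) BH) {X : A → KW p k} (hX : X ∈ V (KW p k) A)
    (h0 : ∀ v : ↥Q, v ∉ P.subgroupOf Q →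
      Wf p (cq φ Q) (cut _ BH X) (cut _ BH X) (φ v) = 0) {u : T} (huQ : u ∈ Q) (huP : u ∉ P)
    {y : ↥(cq φ Q)} (hy : Preg p y) : cut (cq φ Q) BH X (φ u * y) = 0 := by
  obtain ⟨q, hq, hq'⟩ := exists_q (p := p) (k := k) ↥(cq φ Q)
  have ha0 : ((ordProj[p] (Nat.card ↥(cq φ Q)) : ℕ) : KW p k) ≠ 0 :=
    Nat.cast_ne_zero.2 (Nat.ordProj_pos _ p).ne'
  have hcard' : Fintype.card ↥Q = p * Nat.card (P.subgroupOf Q) := by
    rw [← Nat.card_eq_fintype_card, hcard, card_sgo hPQ]
  obtain ⟨n, hn, -, -, hn0⟩ := gen_sum (P.subgroupOf Q) hcard' hq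
    (fun s (v : ↥Q) => xs φ (cq φ Q) BH X s (v : T)) (fun s => xs_vir rfl hB hX s)
  have h1 : n = 0 := by
    have h2 : (n : KW p k) = 0 := by
      rw [← hn]
      refine Finset.sum_eq_zero fun v hv => ?_
      have h3 := h0 v (Finset.mem_filter.1 hv).2
      rw [wf_xs hB hX hX v.2] at h3
      have h4 : ∑ s, ∑ t, (q s t : KW p k) * (xs φ (cq φ Q) BH X s (v : T) *
          xs φ (cq φ Q) BH X t ((v⁻¹ : ↥Q) : T))
          = ((ordProj[p] (Nat.card ↥(cq φ Q)) : ℕ) : KW p k) *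
            ∑ s, ∑ t, xs φ (cq φ Q) BH X s (v : T) * xs φ (cq φ Q) BH X t (v : T)⁻¹ *
              ip (rg p (ch s)) (ch t) := by
        rw [Finset.mul_sum]
        refine Finset.sum_congr rfl fun s _ => ?_
        rw [Finset.mul_sum]
        refine Finset.sum_congr rfl fun t _ => ?_
        rw [← hq', Subgroup.coe_inv]
        ring
      rw [h4, h3, mul_zero]
    exact_mod_cast h2
  have h2 := hn0 h1 ⟨u, huQ⟩ (fun h => huP (Subgroup.mem_subgroupOf.1 h))
  -- the function on `C(Q)`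
  set F : ↥(cq φ Q) → KW p k := fun y => cut (cq φ Q) BH X (φ u * y) with hF
  have hFe : F = fun y => ∑ t, (xs φ (cq φ Q) BH X t u • ch t) y := by
    funext y
    rw [hF]
    exact cut_xs hB hX huQ y
  have hcl : ∀ g x, F (g * x * g⁻¹) = F x := by
    intro g x
    rw [hFe]
    refine Finset.sum_congr rfl fun t _ => ?_
    rw [Pi.smul_apply, Pi.smul_apply, ch_conj]
  have h3 : ∀ s, ip (rg p F) (ch s) = 0 := by
    intro s
    have h4 : ((ordProj[p] (Nat.card ↥(cq φ Q)) : ℕ) : KW p k) * ip (rg p F) (ch s) = 0 := by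
      rw [ip_rg, hFe, ip_sum, Finset.mul_sum, ← h2 s]
      refine Finset.sum_congr rfl fun t _ => ?_
      rw [ip_smul, ← hq', ip_comm (ch t)]
      ring
    exact (mul_eq_zero.1 h4).resolve_left ha0
  have h5 : rg p F y = 0 := by
    rw [cf_expand (rg_conj hcl)]
    exact Finset.sum_eq_zero fun s _ => by rw [h3, zero_mul]
  rw [rg_of hy] at h5
  exact h5

end

section
variable {T : Type*} [CommGroup T] [Fintype T] {R : Subgroup T}

open Classical in
/-- the sum over the elements outside `R` of a function with nonnegative integral fibre sums -/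
theorem sum_fib {K : Type*} [Field K] [CharZero K] {F : T → K} {c : K} (hc : c ≠ 0)
    (h : ∀ u, u ∉ R → ∃ m : ℤ, 0 ≤ m ∧
      ∑ v : T with R ⊔ Subgroup.zpowers v = R ⊔ Subgroup.zpowers u, F v = c * m) :
    ∃ M : ℤ, ∑ v : T with v ∉ R, F v = c * M ∧ ∀ u, u ∉ R → ∀ m : ℤ,
      ∑ v : T with R ⊔ Subgroup.zpowers v = R ⊔ Subgroup.zpowers u, F v = c * m → m ≤ M := by
  have : Fintype (Subgroup T) := Fintype.ofFinite _
  have hfib : ∀ u, u ∉ R → ∀ v, R ⊔ Subgroup.zpowers v = R ⊔ Subgroup.zpowers u → v ∉ R := by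
    intro u hu v hv hvR
    apply hu
    have h3 : R ⊔ Subgroup.zpowers v = R := by
      rw [sup_eq_left, Subgroup.zpowers_le]
      exact hvR
    have h4 : u ∈ R ⊔ Subgroup.zpowers u := Subgroup.mem_sup_right (Subgroup.mem_zpowers u)
    rwa [← hv, h3] at h4
  have h1 : ∀ Q : Subgroup T, ∃ m : ℤ, 0 ≤ m ∧
      ∑ v ∈ Finset.univ.filter (fun v : T => v ∉ R) with R ⊔ Subgroup.zpowers v = Q, F v
        = c * m := by
    intro Q
    by_cases hQ : ∃ u, u ∉ R ∧ R ⊔ Subgroup.zpowers u = Q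
    · obtain ⟨u, hu, rfl⟩ := hQ
      obtain ⟨m, hm0, hm⟩ := h u hu
      refine ⟨m, hm0, ?_⟩
      rw [← hm]
      refine Finset.sum_congr ?_ fun _ _ => rfl
      ext v
      rw [Finset.mem_filter, Finset.mem_filter, Finset.mem_filter]
      exact ⟨fun h2 => ⟨Finset.mem_univ _, h2.2⟩,
        fun h2 => ⟨⟨Finset.mem_univ _, hfib u hu v h2.2⟩, h2.2⟩⟩
    · refine ⟨0, le_rfl, ?_⟩
      rw [Finset.sum_eq_zero, Int.cast_zero, mul_zero]
      intro v hv
      exfalso
      rw [Finset.mem_filter, Finset.mem_filter] at hv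
      exact hQ ⟨v, hv.1.2, hv.2⟩
  choose m hm0 hm using h1
  refine ⟨∑ Q, m Q, ?_, fun u hu m' hm' => ?_⟩
  · rw [← Finset.sum_fiberwise (Finset.univ.filter fun v : T => v ∉ R)
      (fun v => R ⊔ Subgroup.zpowers v) F, Finset.sum_congr rfl fun Q _ => hm Q, ← Finset.mul_sum]
    push_cast
    rfl
  · have h2 : m' = m (R ⊔ Subgroup.zpowers u) := by
      have h3 := hm (R ⊔ Subgroup.zpowers u)
      have h4 : ∑ v ∈ Finset.univ.filter (fun v : T => v ∉ R) with
          R ⊔ Subgroup.zpowers v = R ⊔ Subgroup.zpowers u, F v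
          = ∑ v : T with R ⊔ Subgroup.zpowers v = R ⊔ Subgroup.zpowers u, F v := by
        refine Finset.sum_congr ?_ fun _ _ => rfl
        ext v
        rw [Finset.mem_filter, Finset.mem_filter, Finset.mem_filter]
        exact ⟨fun h2 => ⟨Finset.mem_univ _, h2.2⟩,
          fun h2 => ⟨⟨Finset.mem_univ _, hfib u hu v h2.2⟩, h2.2⟩⟩
      rw [h4, hm'] at h3
      have h5 := mul_left_cancel₀ hc h3
      exact_mod_cast h5
    rw [h2]
    exact Finset.single_le_sum (f := m) (fun Q _ => hm0 Q) (Finset.mem_univ _)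

end

end YPbAux

end Pool.Agent.Lib.P0c8ca5.Ex
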