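import Mathlib
import Pool.Agent.Lib.P0c8ca5Ex.YC

/-!
# YTd: definitions for YT

`upd G R Γ`: the family `G` with the value `Γ` at `R`. `GR φ b D f R G Γ`: the properties of the class
function `Γ` of `A`.
-/

set_option linter.unusedSectionVars false

namespace Pool.Agent.Lib.P0c8ca5.Ex

open MonoidAlgebra

section
variable {T : Type*} [Group T] {α K : Type*}

open Classical in
/-- the family `G` with the value `Γ` at `R` -/
noncomputable def upd (G : Subgroup T → α → K) (R : Subgroup T) (Γ : α → K) (Q : Subgroup T) :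
    α → K := if Q = R then Γ else G Q

theorem upd_self (G : Subgroup T → α → K) (R : Subgroup T) (Γ : α → K) : upd G R Γ R = Γ :=
  if_pos rfl

theorem upd_ne (G : Subgroup T → α → K) {R Q : Subgroup T} (Γ : α → K) (h : Q ≠ R) :
    upd G R Γ Q = G Q := if_neg h

end

section
variable {p : ℕ} [Fact p.Prime] {k : Type*} [Field k] [IsAlgClosed k] [CharP k p]
  {A : Type*} [Group A] [Finite A] {T : Type*} [CommGroup T] [Fintype T]
  {φ : T →* A} {b f i : MonoidAlgebra k A} {D : Subgroup A} {R : Subgroup T}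
  {G : Subgroup T → A → KW p k}

/-- `Γ` is a virtual regular character of the block of `A = C(R)` -/
structure GR (φ : T →* A) (b : MonoidAlgebra k A) (D : Subgroup A) (f : MonoidAlgebra k A)
    (R : Subgroup T) (G : Subgroup T → A → KW p k) (Γ : A → KW p k) : Prop where
  blk : Γ ∈ VA (p := p) b
  reg : ∀ x, ¬ Preg p x → Γ x = 0
  nrm : ip Γ Γ = (Fintype.card T : KW p k) * (Nat.card (EG φ D f) : KW p k)
  row : ∀ X ∈ V (KW p k) A, rwv φ (upd G R Γ) R X ∈ vir T (KW p k)
  cong : ∀ X ∈ VA (p := p) b, ∀ Y ∈ VA (p := p) b, ∃ m a a' : ℤ,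
    (Fintype.card T : KW p k) * (Nat.card (EG φ D f) : KW p k) * ip (rg p X) Y = m ∧
      ip X Γ = a ∧ ip Y Γ = a' ∧ (p : ℤ) ∣ m - a * a'

end

end Pool.Agent.Lib.P0c8ca5.Ex
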