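import Mathlib
import Pool.Agent.Lib.P0c8ca5Ex.YM
import Pool.Agent.Lib.P0c8ca5Ex.YTd

/-!
# YTb: the Gram matrix at the central subgroup and the uniqueness of `Γ`

`Γ' x = ∑_(z ∈ R) Γ (φ z x) = |R| ∑_(χ, R in the kernel) ip Γ (ch χ) ch χ x` (`avg`); for `p`-regular `x` it is `Γ x` (`avg_reg`).
-/

set_option linter.unusedSectionVars false

namespace Pool.Agent.Lib.P0c8ca5.Ex

open MonoidAlgebra

open YFAux

namespace YTbAux

section
variable {p : ℕ} {A : Type*} [Group A]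

/-- the product of a nontrivial `p`-element with a `p`-regular element -/
theorem not_preg (hp : p.Prime) {v y : A} {M : ℕ} (hv : v ^ p ^ M = 1) (hv1 : v ≠ 1)
    (hc : v * y = y * v) (hy : Preg p y) : ¬ Preg p (v * y) := by
  intro h
  have h1 : Commute (v * y) y⁻¹ := by
    have h2 : Commute (v * y) y := by
      change v * y * y = y * (v * y)
      rw [hc, mul_assoc, hc]
    exact h2.inv_right
  have h2 := h1.orderOf_mul_dvd_lcm
  rw [mul_inv_cancel_right, orderOf_inv] at h2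
  apply hv1
  obtain ⟨j, _, hj⟩ := (Nat.dvd_prime_pow hp).1 (orderOf_dvd_of_pow_eq_one hv)
  rcases Nat.eq_zero_or_pos j with h0 | h0
  · rw [h0, pow_zero] at hj
    exact orderOf_eq_one_iff.1 hj
  · exfalso
    have h3 : p ∣ orderOf v := by
      rw [hj]
      exact dvd_pow_self p h0.ne'
    have h4 : p ∣ orderOf (v * y) * orderOf y :=
      (h3.trans h2).trans (Nat.lcm_dvd_mul _ _)
    rcases hp.dvd_mul.1 h4 with h5 | h5
    · exact h h5
    · exact hy h5

end

section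
variable {p : ℕ} [Fact p.Prime] {k : Type*} [Field k] [IsAlgClosed k] [CharP k p]
  {A : Type*} [Group A] [Finite A] {T : Type*} [CommGroup T] [Fintype T]
  {φ : T →* A} {b f i : MonoidAlgebra k A} {D : Subgroup A} {R : Subgroup T}
  {G : Subgroup T → A → KW p k} {Γ : A → KW p k}

theorem not_preg_phi (h : Stp φ b D f i R G) {t : T} (ht : t ≠ 1) {y : A}
    (hc : φ t * y = y * φ t) (hy : Preg p y) : ¬ Preg p (φ t * y) := by
  obtain ⟨M, hM⟩ := pow_one_of h.src
  refine not_preg Fact.out (hM _ (phi_mem h t)) (fun h1 => ht (h.inj ?_)) hc hy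
  rw [h1, map_one]

theorem cq_top (h : Stp φ b D f i R G) : cq φ R = ⊤ := by
  refine top_unique fun x _ => ?_
  rw [cq, Subgroup.mem_centralizer_iff]
  rintro _ ⟨z, hz, rfl⟩
  exact h.cen z hz x

theorem rwv_upd_out {X : A → KW p k} {u : T} (hu : u ∉ R) :
    rwv φ (upd G R Γ) R X u = rwv φ G R X u := by
  rw [rwv, rwv, upd_ne]
  exact (lt_sup hu).ne'

theorem rwv_upd_one (h : Stp φ b D f i R G) (X : A → KW p k) :
    rwv φ (upd G R Γ) R X 1 = ip X Γ := by
  have h1 : R ⊔ Subgroup.zpowers (1 : T) = R := by simp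
  rw [rwv, h1, upd_self, cq_top h, ip, Subgroup.card_top]
  congr 1
  exact sm_congr fun y => by rw [map_one, one_mul]

theorem rwv_upd_mem (h : Stp φ b D f i R G) {X : A → KW p k}
    (hX : ∀ z ∈ R, ∀ x, X (φ z * x) = X x) {u : T} (hu : u ∈ R) :
    rwv φ (upd G R Γ) R X u = ip X Γ := by
  have h1 := rwv_ker (G := upd G R Γ) (R := R) hX hu 1
  rw [mul_one] at h1
  rw [h1, rwv_upd_one h]

theorem rwv_sum {ι : Type*} (S : Finset ι) (c : ι → KW p k) (X : ι → A → KW p k) (u : T) :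
    rwv φ G R (fun x => ∑ j ∈ S, c j * X j x) u = ∑ j ∈ S, c j * rwv φ G R (X j) u := by
  simp only [rwv]
  have h1 : ∀ y : A, (∑ j ∈ S, c j * X j (φ u * y)) * G (R ⊔ Subgroup.zpowers u) y⁻¹
      = ∑ j ∈ S, c j * (X j (φ u * y) * G (R ⊔ Subgroup.zpowers u) y⁻¹) := fun y => by
    rw [Finset.sum_mul]
    exact Finset.sum_congr rfl fun j _ => by ring
  rw [sm_congr h1, sm_sum, Finset.mul_sum]
  refine Finset.sum_congr rfl fun j _ => ?_
  rw [sm_mul]
  ring

open Classical in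
theorem sum_IR {M : Type*} [AddCommMonoid M] (B : MonoidAlgebra (OW p k) A)
    (F : Ir (KW p k) A → M) : ∑ χ : IR φ R B, F χ.1
      = ∑ χ : Ir (KW p k) A with (Ker φ R χ ∧ chO χ B ≠ 0), F χ := by
  refine Finset.sum_bij (fun χ _ => χ.1) ?_ ?_ ?_ ?_
  · exact fun χ _ => Finset.mem_filter.2 ⟨Finset.mem_univ _, χ.2⟩
  · exact fun χ _ χ' _ h => Subtype.ext h
  · exact fun χ hχ => ⟨⟨χ, (Finset.mem_filter.1 hχ).2⟩, Finset.mem_univ _, rfl⟩
  · exact fun _ _ => rfl

open Classical in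
theorem sum_IR' {B : MonoidAlgebra (OW p k) A} {F : Ir (KW p k) A → KW p k}
    (hF : ∀ χ, chO χ B = 0 → F χ = 0) : ∑ χ : IR φ R B, F χ.1
      = ∑ χ : Ir (KW p k) A with Ker φ R χ, F χ := by
  rw [sum_IR, Finset.sum_filter, Finset.sum_filter]
  refine Finset.sum_congr rfl fun χ _ => ?_
  by_cases h1 : chO χ B = 0
  · rw [hF χ h1]
    simp
  · by_cases h2 : Ker φ R χ
    · rw [if_pos ⟨h2, h1⟩, if_pos h2]
    · rw [if_neg fun h => h2 h.1, if_neg h2]

open Classical in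
/-- the average over `R` -/
theorem avg (h : Stp φ b D f i R G) (hΓ : Γ ∈ V (KW p k) A) (x : A) :
    ∑ z : ↥R, Γ (φ z * x)
      = (Nat.card R : KW p k) * ∑ χ : Ir (KW p k) A with Ker φ R χ, ip (ch χ) Γ * ch χ x := by
  have h1 : ∀ z : ↥R, Γ (φ z * x) = ∑ χ : Ir (KW p k) A,
      om χ (single (φ z) (1 : KW p k)) * (ip (ch χ) Γ * ch χ x) := by
    intro z
    rw [(V_expand hΓ).2]
    refine Finset.sum_congr rfl fun χ _ => ?_
    rw [ch_cen (h.cen z z.2), ip_comm]
    ring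
  rw [Finset.sum_congr rfl fun z _ => h1 z, Finset.sum_comm, Finset.sum_filter, Finset.mul_sum]
  refine Finset.sum_congr rfl fun χ _ => ?_
  rw [← Finset.sum_mul, sum_omR h χ]
  split_ifs
  · rfl
  · rw [zero_mul, mul_zero]

/-- the average at the `p`-regular elements -/
theorem avg_reg (h : Stp φ b D f i R G) (hr : ∀ x, ¬ Preg p x → Γ x = 0) [Fintype ↥R] {x : A}
    (hx : Preg p x) : ∑ z : ↥R, Γ (φ z * x) = Γ x := by
  classical
  rw [Finset.sum_eq_single (1 : ↥R)]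
  · rw [OneMemClass.coe_one, map_one, one_mul]
  · intro z _ hz
    refine hr _ (not_preg_phi h (fun h1 => hz (Subtype.ext h1)) (h.cen z z.2 x) hx)
  · intro h1
    exact absurd (Finset.mem_univ _) h1

open Classical in
/-- the norm -/
theorem sum_sq (h : Stp φ b D f i R G) (hΓ : GR φ b D f R G Γ) :
    (Nat.card R : KW p k) * ∑ χ : Ir (KW p k) A with Ker φ R χ, ip (ch χ) Γ * ip (ch χ) Γ
      = (Fintype.card T : KW p k) * (Nat.card (EG φ D f) : KW p k) := by
  rw [← hΓ.nrm]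
  have h1 : ip (fun x => ∑ χ : Ir (KW p k) A with Ker φ R χ, (ip (ch χ) Γ • ch χ) x) Γ
      = ∑ χ : Ir (KW p k) A with Ker φ R χ, ip (ch χ) Γ * ip (ch χ) Γ := by
    rw [ip_sum]
    exact Finset.sum_congr rfl fun χ _ => by rw [ip_smul]
  rw [← h1, ← ip_smul]
  rw [ip, ip]
  congr 1
  refine sm_congr fun x => ?_
  by_cases hx : Preg p x
  · congr 1
    rw [← avg_reg h hΓ.reg hx, avg h hΓ.blk.1 x, Pi.smul_apply, smul_eq_mul]
    rfl
  · rw [hΓ.reg x⁻¹ (fun h2 => hx (preg_inv.1 h2)), mul_zero, mul_zero]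

open Classical in
/-- the mixed sum -/
theorem sum_mix (h : Stp φ b D f i R G) (hΓ : GR φ b D f R G Γ) {w : T} (hw : w ∉ R) :
    ∑ χ : Ir (KW p k) A with Ker φ R χ, ip (ch χ) Γ * rwv φ G R (ch χ) w = 0 := by
  have hR0 : (Nat.card R : KW p k) ≠ 0 := Nat.cast_ne_zero.2 Nat.card_pos.ne'
  refine mul_left_cancel₀ hR0 ?_
  rw [mul_zero, ← rwv_sum, rwv, mul_left_comm]
  rw [← sm_mul]
  refine mul_eq_zero_of_right _ ?_
  have h1 : ∀ y : A, (Nat.card R : KW p k) * ((∑ χ : Ir (KW p k) A with Ker φ R χ,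
      ip (ch χ) Γ * ch χ (φ w * y)) * G (R ⊔ Subgroup.zpowers w) y⁻¹) = 0 := by
    intro y
    have hok := h.ok _ (lt_sup hw)
    by_cases hy : y ∈ C1 (φ w)
    · by_cases hyp : Preg p y
      · rw [← mul_assoc, ← avg h hΓ.blk.1, Finset.sum_eq_zero, zero_mul]
        intro z _
        rw [← mul_assoc, ← map_mul]
        refine hΓ.reg _ (not_preg_phi h ?_ ?_ hyp)
        · intro h2
          apply hw
          have h3 : w = (z : T)⁻¹ := eq_inv_of_mul_eq_one_right h2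
          rw [h3]
          exact R.inv_mem z.2
        · have h2 := mem_C1'.1 hy
          rw [map_mul, mul_assoc, h2, ← mul_assoc, h.cen z z.2, mul_assoc]
      · rw [hok.reg _ (fun h2 => hyp (preg_inv.1 h2)), mul_zero, mul_zero]
    · rw [hok.sup, mul_zero, mul_zero]
      rw [cq_eq h.cen]
      exact fun h2 => hy ((Subgroup.inv_mem_iff _).1 h2)
  rw [sm_congr h1, sm_zero]

end

end YTbAux

open YTbAux

section
variable {p : ℕ} [Fact p.Prime] {k : Type*} [Field k] [IsAlgClosed k] [CharP k p]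
  {A : Type*} [Group A] [Finite A] {T : Type*} [CommGroup T] [Fintype T]
  {φ : T →* A} {b f i : MonoidAlgebra k A} {D : Subgroup A} {R : Subgroup T}
  {G : Subgroup T → A → KW p k}

theorem gram_full (h : Stp φ b D f i R G) (hE : ¬ p ∣ Nat.card (EG φ D f))
    {B : MonoidAlgebra (OW p k) A} (hB : CenL b B) {Γ : A → KW p k} (hΓ : GR φ b D f R G Γ) :
    Rows φ D f R G B fun χ => rwv φ (upd G R Γ) R (ch χ.1) := by
  classical
  have hR0 : (Nat.card R : KW p k) ≠ 0 := Nat.cast_ne_zero.2 Nat.card_pos.ne'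
  have hzero : ∀ χ, chO χ B = 0 → ip (ch χ) Γ = 0 := fun χ hχ => by
    rw [ip_comm]
    exact hΓ.blk.2 B hB χ hχ
  have hfix : ∀ α ∈ EG φ D f, ∀ z ∈ R, α z = z := fun α hα z hz => al_fix h hα hz
  refine ⟨fun χ => hΓ.row _ (ch_mem χ.1), fun χ z hz u => rwv_ker χ.2.1 hz u,
    fun χ u hu => rwv_upd_out hu, fun u v => ?_⟩
  by_cases hu : u ∈ R
  · have hψu : ∀ χ : IR φ R B, rwv φ (upd G R Γ) R (ch χ.1) u = ip (ch χ.1) Γ :=
      fun χ => rwv_upd_mem h χ.2.1 hu
    by_cases hv : v ∈ R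
    · have hψv : ∀ χ : IR φ R B, rwv φ (upd G R Γ) R (ch χ.1) v⁻¹ = ip (ch χ.1) Γ :=
        fun χ => rwv_upd_mem h χ.2.1 (R.inv_mem hv)
      refine ⟨fun _ => ?_, fun h1 => ?_⟩
      · simp only [hψu, hψv]
        rw [sum_IR' (F := fun χ => ip (ch χ) Γ * ip (ch χ) Γ)
          (fun χ hχ => by rw [hzero χ hχ, zero_mul]), sum_sq h hΓ]
        congr 2
        refine (Nat.card_congr ?_).symm
        refine Equiv.subtypeUnivEquiv fun α => ?_
        exact hfix _ α.2 u hu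
      · exfalso
        apply h1
        refine ⟨1, one_mem _, v * u⁻¹, R.mul_mem hv (R.inv_mem hu), ?_⟩
        rw [MulAut.one_apply, inv_mul_cancel_right]
    · have hv' : v⁻¹ ∉ R := fun h1 => hv ((Subgroup.inv_mem_iff R).1 h1)
      refine ⟨?_, fun _ => ?_⟩
      · rintro ⟨α, hα, z, hz, h1⟩
        exfalso
        apply hv
        rw [h1, hfix α hα u hu]
        exact R.mul_mem hz hu
      · simp only [hψu, rwv_upd_out hv']
        rw [sum_IR' (F := fun χ => ip (ch χ) Γ * rwv φ G R (ch χ) v⁻¹)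
          (fun χ hχ => by rw [hzero χ hχ, zero_mul]), sum_mix h hΓ hv']
  · by_cases hv : v ∈ R
    · have hψv : ∀ χ : IR φ R B, rwv φ (upd G R Γ) R (ch χ.1) v⁻¹ = ip (ch χ.1) Γ :=
        fun χ => rwv_upd_mem h χ.2.1 (R.inv_mem hv)
      refine ⟨?_, fun _ => ?_⟩
      · rintro ⟨α, hα, z, hz, h1⟩
        exfalso
        apply hu
        have h2 : α u ∈ R := by
          have h3 : α u = z⁻¹ * v := by rw [h1, inv_mul_cancel_left]
          rw [h3]
          exact R.mul_mem (R.inv_mem hz) hv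
        exact YLx.map_mem_R hfix hα h2
      · simp only [hψv, rwv_upd_out hu]
        rw [sum_IR' (F := fun χ => rwv φ G R (ch χ) u * ip (ch χ) Γ)
          (fun χ hχ => by rw [hzero χ hχ, mul_zero])]
        have h1 := sum_mix h hΓ hu
        simp only [mul_comm (ip _ _)] at h1
        exact h1
    · have hv' : v⁻¹ ∉ R := fun h1 => hv ((Subgroup.inv_mem_iff R).1 h1)
      have h1 := gram_ker h hE hu hv
      rw [← sum_IR' (B := B) (F := fun χ => rwv φ G R (ch χ) u * rwv φ G R (ch χ) v⁻¹)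
        (fun χ hχ => by rw [rwv_out h hB hχ hu, zero_mul]), (eQ_sup h.cen h.inj u).1] at h1
      unfold GramR
      simp only [rwv_upd_out hu, rwv_upd_out hv']
      refine ⟨fun h2 => ?_, fun h2 => ?_⟩
      · rw [if_pos h2] at h1
        exact h1
      · rw [if_neg h2] at h1
        exact (mul_eq_zero.1 h1).resolve_left hR0

theorem gr_unique (h : Stp φ b D f i R G) (hE : eN D f + 3 ≤ p) (hRT : R ≠ ⊤) {Γ Γ' : A → KW p k}
    (hΓ : GR φ b D f R G Γ) (hΓ' : GR φ b D f R G Γ') : Γ = Γ' := by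
  classical
  have hcE : Nat.card (EG φ D f) = eN D f := card_EG h.inj h.ran
  have hfinE := finite_EG (φ := φ) (D := D) (f := f)
  have hE' : ¬ p ∣ Nat.card (EG φ D f) := fun h1 => by
    have h2 := Nat.le_of_dvd Nat.card_pos h1
    omega
  have hfix : ∀ α ∈ EG φ D f, ∀ z ∈ R, α z = z := fun α hα z hz => al_fix h hα hz
  have hT : IsPGroup p T := by
    obtain ⟨M, hM⟩ := pow_one_of h.src
    intro t
    refine ⟨M, h.inj ?_⟩
    rw [map_pow, map_one]
    exact hM _ (phi_mem h t)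
  obtain ⟨B, hB⟩ : ∃ B : MonoidAlgebra (OW p k) A, CenL b B :=
    exists_cenL h.src.root.blk.idem
      (fun g => invBy_iff_cj.1 h.src.root.blk.invBy g (Subgroup.mem_top g))
  have h1 := gram_full h hE' hB hΓ
  have h2 := gram_full h hE' hB hΓ'
  have h3 := ext_uniq Fact.out hT (by rw [hcE]; exact hE) hfix hRT h1.vir h2.vir h1.ker h2.ker
    (fun χ u hu => by rw [h1.out χ u hu, h2.out χ u hu]) h1.gram h2.gram
  have h4 : ∀ χ : IR φ R B, ip (ch χ.1) Γ = ip (ch χ.1) Γ' := by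
    intro χ
    have h5 := congrFun (congrFun h3 χ) 1
    simp only [rwv_upd_one h] at h5
    exact h5
  have h5 : ∀ x, ∑ χ : Ir (KW p k) A with Ker φ R χ, ip (ch χ) Γ * ch χ x
      = ∑ χ : Ir (KW p k) A with Ker φ R χ, ip (ch χ) Γ' * ch χ x := by
    intro x
    have hz : ∀ Γ : A → KW p k, GR φ b D f R G Γ → ∀ χ, chO χ B = 0 →
        ip (ch χ) Γ * ch χ x = 0 := fun Γ hΓ χ hχ => by
      rw [ip_comm, hΓ.blk.2 B hB χ hχ, zero_mul]
    rw [← sum_IR' (B := B) (F := fun χ => ip (ch χ) Γ * ch χ x) (hz Γ hΓ),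
      ← sum_IR' (B := B) (F := fun χ => ip (ch χ) Γ' * ch χ x) (hz Γ' hΓ')]
    exact Finset.sum_congr rfl fun χ _ => by rw [h4]
  funext x
  by_cases hx : Preg p x
  · rw [← avg_reg h hΓ.reg hx, ← avg_reg h hΓ'.reg hx, avg h hΓ.blk.1, avg h hΓ'.blk.1, h5]
  · rw [hΓ.reg x hx, hΓ'.reg x hx]

end

end Pool.Agent.Lib.P0c8ca5.Ex
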