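import Mathlib
import Pool.Agent.Lib.P0c8ca5Ex.YPa
import Pool.Agent.Lib.P0c8ca5Ex.YPb
import Pool.Agent.Lib.P0c8ca5Ex.YTb

/-!
# YPc: the vanishing of the columns

* `exists_N`: the local form at `Q = R ⊔ ⟨u⟩` for all `X`.
* `tot`: the sum over the places outside `R`.
* `kerN`: the form vanishes at the `Ml ψ l`.
-/

set_option linter.unusedSectionVars false

namespace Pool.Agent.Lib.P0c8ca5.Ex

open MonoidAlgebra YJAux YSaAux YPbAux

namespace YPcAux

section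
variable {p : ℕ} [Fact p.Prime] {k : Type*} [Field k] [IsAlgClosed k] [CharP k p]
  {A : Type*} [Group A] [Finite A] {T : Type*} [CommGroup T] [Fintype T]
  {φ : T →* A} {b f i : MonoidAlgebra k A} {D : Subgroup A} {R : Subgroup T}
  {G : Subgroup T → A → KW p k}

/-- the summand at the place `v` -/
noncomputable def sv (φ : T →* A) (D : Subgroup A) (f : MonoidAlgebra k A) (R : Subgroup T)
    (G : Subgroup T → A → KW p k) (BB : ∀ H : Subgroup A, MonoidAlgebra (OW p k) ↥H)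
    (X : A → KW p k) (v : T) : KW p k :=
  (Fintype.card T : KW p k) * ((eQ φ D f (Subgroup.zpowers v) : KW p k) *
    Wf p (C1 (φ v)) (cut (C1 (φ v)) (BB (C1 (φ v))) X) (cut (C1 (φ v)) (BB (C1 (φ v))) X) (φ v))
    - rwv φ G R X v * rwv φ G R X v⁻¹

theorem mem_fib {u v : T} (hv : R ⊔ Subgroup.zpowers v = R ⊔ Subgroup.zpowers u) :
    v ∈ R ⊔ Subgroup.zpowers u := by
  rw [← hv]
  exact Subgroup.mem_sup_right (Subgroup.mem_zpowers v)

theorem fib_notMem {u v : T} (hu : u ∉ R)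
    (hv : R ⊔ Subgroup.zpowers v = R ⊔ Subgroup.zpowers u) : v ∉ R := by
  intro hvR
  apply hu
  have h3 : R ⊔ Subgroup.zpowers v = R := by
    rw [sup_eq_left, Subgroup.zpowers_le]
    exact hvR
  have h4 : u ∈ R ⊔ Subgroup.zpowers u := Subgroup.mem_sup_right (Subgroup.mem_zpowers u)
  rwa [← hv, h3] at h4

theorem fib_C1 (h : Stp φ b D f i R G) {u v : T}
    (hv : R ⊔ Subgroup.zpowers v = R ⊔ Subgroup.zpowers u) :
    C1 (φ v) = cq φ (R ⊔ Subgroup.zpowers u) := by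
  rw [← hv, cq_eq h.cen]

theorem fib_eQ (h : Stp φ b D f i R G) {u v : T}
    (hv : R ⊔ Subgroup.zpowers v = R ⊔ Subgroup.zpowers u) :
    eQ φ D f (Subgroup.zpowers v) = eQ φ D f (R ⊔ Subgroup.zpowers u) := by
  rw [← hv, (eQ_sup h.cen h.inj v).1, (eQ_sup h.cen h.inj v).2]

open Classical in
/-- **the local form** at `Q = R ⊔ ⟨u⟩` -/
theorem exists_N (h : Stp φ b D f i R G) (hT : IsPGroup p T)
    {BB : ∀ H : Subgroup A, MonoidAlgebra (OW p k) ↥H}
    (hBB : ∀ u c, LbH (C1 (φ u)) i c → CenL (dnr (C1 (φ u)) c) (BB (C1 (φ u)))) {u : T}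
    (hu : u ∉ R) :
    ∃ (N : Ir (KW p k) ↥(cq φ (R ⊔ Subgroup.zpowers u)) →
        Ir (KW p k) ↥(cq φ (R ⊔ Subgroup.zpowers u)) → ℤ),
      ∀ X ∈ V (KW p k) A,
        (∃ m : ℤ, 0 ≤ m ∧ (m ≠ 0 → ((p : ℤ) - 1) * Nat.card R ≤ m) ∧
          ∑ v : T with R ⊔ Subgroup.zpowers v = R ⊔ Subgroup.zpowers u,
            sv φ D f R G BB X v = (p : KW p k) * m ∧
          (m = 0 → ∀ v, R ⊔ Subgroup.zpowers v = R ⊔ Subgroup.zpowers u → ∀ s,
            ∑ t, (N s t : KW p k) * xs φ _ (BB (cq φ (R ⊔ Subgroup.zpowers u))) X t v = 0)) ∧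
        ∀ v, R ⊔ Subgroup.zpowers v = R ⊔ Subgroup.zpowers u →
          (Fintype.card T : KW p k) * (eQ φ D f (R ⊔ Subgroup.zpowers u) : KW p k) *
              Wf p (cq φ (R ⊔ Subgroup.zpowers u))
                (cut _ (BB (cq φ (R ⊔ Subgroup.zpowers u))) X)
                (cut _ (BB (cq φ (R ⊔ Subgroup.zpowers u))) X) (φ v)
            = rwv φ G R X v * rwv φ G R X v⁻¹ + (p : KW p k) *
              ∑ s, ∑ t, (N s t : KW p k) *
                (xs φ _ (BB (cq φ (R ⊔ Subgroup.zpowers u))) X s v *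
                  xs φ _ (BB (cq φ (R ⊔ Subgroup.zpowers u))) X t v⁻¹) := by
  obtain ⟨c, hc⟩ := exists_lbH h.src (YFAux.phi_mem h u)
  have hcQ : LbH (cq φ (R ⊔ Subgroup.zpowers u)) i c := by
    rw [cq_eq h.cen]
    exact hc
  have hBQ : CenL (dnr (cq φ (R ⊔ Subgroup.zpowers u)) c)
      (BB (cq φ (R ⊔ Subgroup.zpowers u))) := by
    have h1 : ∀ H, H = C1 (φ u) → CenL (dnr H c) (BB H) := by
      rintro H rfl
      exact hBB u c hc
    exact h1 _ (cq_eq h.cen u)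
  obtain ⟨N, hPSD, hN0, hN⟩ := locN (h.ok _ (YFAux.lt_sup hu)) hcQ hBQ
  obtain ⟨P, hRP, hPQ, hcard, hg⟩ := YSaAux.exists_P (Fact.out : p.Prime) hT hu
  refine ⟨N, fun X hX => ?_⟩
  have hpt : ∀ v, R ⊔ Subgroup.zpowers v = R ⊔ Subgroup.zpowers u →
      (Fintype.card T : KW p k) * (eQ φ D f (R ⊔ Subgroup.zpowers u) : KW p k) *
          Wf p (cq φ (R ⊔ Subgroup.zpowers u))
            (cut _ (BB (cq φ (R ⊔ Subgroup.zpowers u))) X)
            (cut _ (BB (cq φ (R ⊔ Subgroup.zpowers u))) X) (φ v)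
        = rwv φ G R X v * rwv φ G R X v⁻¹ + (p : KW p k) *
          ∑ s, ∑ t, (N s t : KW p k) *
            (xs φ _ (BB (cq φ (R ⊔ Subgroup.zpowers u))) X s v *
              xs φ _ (BB (cq φ (R ⊔ Subgroup.zpowers u))) X t v⁻¹) :=
    fun v hv => loc_id' h (fib_notMem hu hv) hv hcQ hBQ hN0 hN hX hX
  refine ⟨?_, hpt⟩
  have hcard' : Fintype.card ↥(R ⊔ Subgroup.zpowers u)
      = p * Nat.card (P.subgroupOf (R ⊔ Subgroup.zpowers u)) := by
    rw [← Nat.card_eq_fintype_card, hcard, card_sgo hPQ]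
  obtain ⟨m, hm, hm0, hmp, hmz⟩ := gen_sum (P.subgroupOf (R ⊔ Subgroup.zpowers u)) hcard' hPSD
    (fun s (v : ↥(R ⊔ Subgroup.zpowers u)) =>
      xs φ _ (BB (cq φ (R ⊔ Subgroup.zpowers u))) X s (v : T)) (fun s => xs_vir rfl hBQ hX s)
  refine ⟨m, hm0, fun h1 => ?_, ?_, fun h1 v hv s => ?_⟩
  · have h2 := hmp h1
    rw [hcard', card_sgo hPQ] at h2
    have h3 : Nat.card R ≤ Nat.card P := Subgroup.card_le_of_le hRP
    have h4 : (1 : ℤ) ≤ p := by exact_mod_cast (Fact.out : p.Prime).one_lt.le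
    have h5 : (Nat.card R : ℤ) ≤ Nat.card P := by exact_mod_cast h3
    push_cast at h2
    nlinarith
  · rw [← hm, sum_gen hg (fun v => sv φ D f R G BB X v), Finset.mul_sum]
    refine Finset.sum_congr rfl fun v hv => ?_
    have hvQ : R ⊔ Subgroup.zpowers (v : T) = R ⊔ Subgroup.zpowers u :=
      (hg v v.2).1 fun h2 => (Finset.mem_filter.1 hv).2 (Subgroup.mem_subgroupOf.2 h2)
    have h1 := hpt v hvQ
    have h2 : ∀ H : Subgroup A, H = cq φ (R ⊔ Subgroup.zpowers u) →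
        Wf p H (cut H (BB H) X) (cut H (BB H) X) (φ v)
          = Wf p (cq φ (R ⊔ Subgroup.zpowers u))
            (cut _ (BB (cq φ (R ⊔ Subgroup.zpowers u))) X)
            (cut _ (BB (cq φ (R ⊔ Subgroup.zpowers u))) X) (φ v) := by
      rintro H rfl
      rfl
    rw [sv, h2 _ (fib_C1 h hvQ), fib_eQ h hvQ, ← mul_assoc, h1, add_sub_cancel_left]
    rfl
  · have hvQ := mem_fib hv
    have h2 := hmz h1 ⟨v, hvQ⟩ (fun h3 => ((hg v hvQ).2 hv) (Subgroup.mem_subgroupOf.1 h3)) s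
    exact h2

open Classical in
/-- the sum over the places outside `R` -/
theorem tot (h : Stp φ b D f i R G)
    {BB : ∀ H : Subgroup A, MonoidAlgebra (OW p k) ↥H}
    (hBB : ∀ u c, LbH (C1 (φ u)) i c → CenL (dnr (C1 (φ u)) c) (BB (C1 (φ u))))
    {X : A → KW p k} (hX : X ∈ VA (p := p) b) (hXR : ∀ z ∈ R, ∀ x, X (φ z * x) = X x) :
    ∑ v : T with v ∉ R, sv φ D f R G BB X v
      = (Fintype.card T : KW p k) * ((Nat.card (EG φ D f) : KW p k) * ip X X)
        - (Nat.card R : KW p k) * ((Fintype.card T : KW p k) *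
          ((Nat.card (EG φ D f) : KW p k) * ip (rg p X) X))
        - ∑ v : T with v ∉ R, rwv φ G R X v * rwv φ G R X v⁻¹ := by
  have hort := ort h.src h.inj h.ran hBB hX hX
  set E : KW p k := (Nat.card (EG φ D f) : KW p k) with hE
  set n : KW p k := (Fintype.card T : KW p k) with hn
  set w : KW p k := ip (rg p X) X with hw
  set W : T → KW p k := fun u => (eQ φ D f (Subgroup.zpowers u) : KW p k) *
        Wf p (C1 (φ u)) (cut (C1 (φ u)) (BB (C1 (φ u))) X)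
          (cut (C1 (φ u)) (BB (C1 (φ u))) X) (φ u) with hW
  have hWR : ∀ u ∈ R, W u = E * w := by
    intro u hu
    have hH : C1 (φ u) = ⊤ := by
      refine top_unique fun x _ => ?_
      rw [mem_C1']
      exact h.cen u hu x
    obtain ⟨c, hc⟩ := exists_lbH h.src (YFAux.phi_mem h u)
    have h1 : eQ φ D f (Subgroup.zpowers u) = Nat.card (EG φ D f) := by
      rw [(eQ_sup h.cen h.inj u).2]
      unfold st
      refine Nat.card_congr (Equiv.subtypeUnivEquiv fun α => ?_)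
      exact YFAux.al_fix h α.2 hu
    rw [hW]
    simp only
    rw [h1, Wf_top hH (fun x => cut_top hH h.src hc (hBB u c hc) hX x)
      (fun x => cut_top hH h.src hc (hBB u c hc) hX x) (h.cen u hu) (hXR u hu)]
    intro x
    rw [← map_inv]
    exact hXR _ (R.inv_mem hu) x
  have hcR : (Finset.univ.filter fun u : T => u ∈ R).card = Nat.card R := by
    rw [Nat.card_eq_fintype_card, Fintype.card_subtype]
  have h1 : ∑ v : T with v ∈ R, n * W v = Nat.card R * (n * (E * w)) := by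
    rw [Finset.sum_congr rfl (g := fun _ => n * (E * w)), Finset.sum_const, hcR, nsmul_eq_mul]
    intro v hv
    rw [hWR v (Finset.mem_filter.1 hv).2]
  have h2 : ∑ v : T, n * W v = n * (E * ip X X) := by
    rw [← Finset.mul_sum]
    exact congrArg _ hort
  rw [← Finset.sum_filter_add_sum_filter_not Finset.univ (fun u => u ∈ R), h1] at h2
  have h3 : ∑ v : T with v ∉ R, sv φ D f R G BB X v
      = ∑ v : T with v ∉ R, n * W v - ∑ v : T with v ∉ R, rwv φ G R X v * rwv φ G R X v⁻¹ := by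
    rw [← Finset.sum_sub_distrib]
    rfl
  rw [h3, ← h2]
  ring

open Classical in
/-- the sum of the products for `v ∈ T` -/
theorem sum_S [Fintype ↥(EG φ D f)] (l : T →* (KW p k)ˣ) :
    ∑ v : T, (∑ α : EG φ D f, ((l ((α : MulAut T) v) : (KW p k)ˣ) : KW p k)) *
        (∑ α : EG φ D f, ((l ((α : MulAut T) v⁻¹) : (KW p k)ˣ) : KW p k))
      = (Fintype.card T : KW p k) * ((Nat.card (EG φ D f) : KW p k) *
        ((Finset.univ.filter fun α : EG φ D f => ∀ u, l ((α : MulAut T) u) = l u).card :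
          KW p k)) := by
  let F : EG φ D f → T → KW p k := fun α v => ((l ((α : MulAut T) v) : (KW p k)ˣ) : KW p k)
  have h1 : ∀ v : T, (∑ α : EG φ D f, F α v) * (∑ α : EG φ D f, F α v⁻¹)
      = ∑ β : EG φ D f, ∑ γ : EG φ D f, F (γ * β) v * F β v⁻¹ := by
    intro v
    rw [Finset.sum_mul_sum, Finset.sum_comm]
    refine Finset.sum_congr rfl fun β _ => ?_
    exact (Equiv.sum_comp (Equiv.mulRight β) (fun α => F α v * F β v⁻¹)).symm
  have h2 : ∀ β γ : EG φ D f, ∑ v : T, F (γ * β) v * F β v⁻¹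
      = if ∀ u, l ((γ : MulAut T) u) = l u then (Fintype.card T : KW p k) else 0 := by
    intro β γ
    have h3 : ∑ v : T, F (γ * β) v * F β v⁻¹
        = ∑ v : T, chr ((l.comp (γ : MulAut T).toMonoidHom) * l⁻¹) v := by
      rw [← Equiv.sum_comp (β : MulAut T).toEquiv
        (fun v => chr ((l.comp (γ : MulAut T).toMonoidHom) * l⁻¹) v)]
      refine Finset.sum_congr rfl fun v _ => ?_
      rw [chr, MonoidHom.mul_apply, MonoidHom.inv_apply, Units.val_mul, MonoidHom.comp_apply]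
      have h4 : F β v⁻¹ = (((l ((β : MulAut T).toEquiv v))⁻¹ : (KW p k)ˣ) : KW p k) := by
        change ((l ((β : MulAut T) v⁻¹) : (KW p k)ˣ) : KW p k) = _
        rw [map_inv, map_inv]
        rfl
      rw [h4]
      rfl
    rw [h3]
    split_ifs with h5
    · have h6 : (l.comp (γ : MulAut T).toMonoidHom) * l⁻¹ = 1 := by
        ext v
        rw [MonoidHom.mul_apply, MonoidHom.inv_apply, MonoidHom.comp_apply]
        have h7 : l ((γ : MulAut T).toMonoidHom v) = l v := h5 v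
        rw [h7, mul_inv_cancel, MonoidHom.one_apply]
      rw [h6, chr_one]
      simp
    · refine sum_chr _ fun h6 => h5 fun u => ?_
      have h7 := DFunLike.congr_fun h6 u
      rw [MonoidHom.mul_apply, MonoidHom.inv_apply, MonoidHom.comp_apply,
        MonoidHom.one_apply] at h7
      exact mul_inv_eq_one.1 h7
  change ∑ v : T, (∑ α : EG φ D f, F α v) * (∑ α : EG φ D f, F α v⁻¹) = _
  rw [Finset.sum_congr rfl fun v _ => h1 v, Finset.sum_comm]
  have h3 : ∀ β : EG φ D f, ∑ v : T, ∑ γ : EG φ D f, F (γ * β) v * F β v⁻¹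
      = (Fintype.card T : KW p k) *
        ((Finset.univ.filter fun α : EG φ D f => ∀ u, l ((α : MulAut T) u) = l u).card :
          KW p k) := by
    intro β
    rw [Finset.sum_comm, Finset.sum_congr rfl fun γ _ => h2 β γ, ← Finset.sum_filter,
      Finset.sum_const, nsmul_eq_mul, mul_comm]
  rw [Finset.sum_congr rfl fun β _ => h3 β, Finset.sum_const, Finset.card_univ, nsmul_eq_mul,
    Nat.card_eq_fintype_card]
  ring

/-- linearity of the coefficients -/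
theorem xs_sum {ι : Type*} (S : Finset ι) (H : Subgroup A) (BH : MonoidAlgebra (OW p k) ↥H)
    (X : ι → A → KW p k) (s : Ir (KW p k) ↥H) (v : T) :
    xs φ H BH (fun x => ∑ l ∈ S, X l x) s v = ∑ l ∈ S, xs φ H BH (X l) s v := by
  have h1 : ∀ a : MonoidAlgebra (OW p k) A, lin (fun x => ∑ l ∈ S, X l x) a
      = ∑ l ∈ S, lin (X l) a := by
    intro a
    unfold lin
    rw [← sm_sum]
    refine sm_congr fun x => ?_
    rw [Finset.mul_sum]
  have h2 : (on H fun y => cut H BH (fun x => ∑ l ∈ S, X l x) (φ v * y))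
      = fun y => ∑ l ∈ S, (on H fun y => cut H BH (X l) (φ v * y)) y := by
    funext y
    by_cases hy : φ v * (y : A) ∈ H
    · change cut H BH (fun x => ∑ l ∈ S, X l x) (φ v * (y : A))
        = ∑ l ∈ S, cut H BH (X l) (φ v * (y : A))
      rw [cut, if_pos hy, h1]
      refine Finset.sum_congr rfl fun l _ => ?_
      rw [cut, if_pos hy]
    · change cut H BH (fun x => ∑ l ∈ S, X l x) (φ v * (y : A))
        = ∑ l ∈ S, cut H BH (X l) (φ v * (y : A))
      rw [cut, if_neg hy]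
      symm
      refine Finset.sum_eq_zero fun l _ => ?_
      rw [cut, if_neg hy]
  rw [xs, h2, ip_sum]
  rfl

theorem xs_zero (H : Subgroup A) (BH : MonoidAlgebra (OW p k) ↥H) (s : Ir (KW p k) ↥H) (v : T) :
    xs φ H BH (fun _ => 0) s v = 0 := by
  have h1 := xs_sum (φ := φ) (∅ : Finset Unit) H BH (fun _ _ => 0) s v
  simpa using h1

theorem ip_comb {B : MonoidAlgebra (OW p k) A} (a : IR φ R B → KW p k) :
    ip (fun x => ∑ χ : IR φ R B, a χ * ch χ.1 x) (fun x => ∑ χ : IR φ R B, a χ * ch χ.1 x)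
      = ∑ χ : IR φ R B, a χ ^ 2 := by
  classical
  have h1 : ∀ Z : A → KW p k, ip (fun x => ∑ χ : IR φ R B, a χ * ch χ.1 x) Z
      = ∑ χ : IR φ R B, a χ * ip (ch χ.1) Z := by
    intro Z
    have h2 : (fun x => ∑ χ : IR φ R B, a χ * ch χ.1 x)
        = fun x => ∑ χ : IR φ R B, (a χ • ch χ.1) x := rfl
    rw [h2, ip_sum]
    exact Finset.sum_congr rfl fun χ _ => ip_smul _ _ _
  rw [h1]
  refine Finset.sum_congr rfl fun χ _ => ?_
  rw [ip_comm, h1, Finset.sum_eq_single χ]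
  · rw [ip_ch, if_pos rfl]
    ring
  · intro ξ _ hξ
    rw [ip_ch, if_neg (fun h => hξ (Subtype.ext h)), mul_zero]
  · intro h
    exact absurd (Finset.mem_univ _) h

theorem mlt_out {B : MonoidAlgebra (OW p k) A} {ψ : IR φ R B → T → KW p k}
    (hψ : Rows φ D f R G B ψ) {l : T →* (KW p k)ˣ} {z : T} (hz : z ∈ R) (hl : l z ≠ 1)
    (χ : IR φ R B) : mlt (ψ χ) l = 0 := by
  have h1 : ∑ u, ψ χ u * chr l u⁻¹ = chr l z⁻¹ * ∑ u, ψ χ u * chr l u⁻¹ := by
    conv_lhs => rw [← Equiv.sum_comp (Equiv.mulLeft z)]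
    rw [Finset.mul_sum]
    refine Finset.sum_congr rfl fun u _ => ?_
    rw [Equiv.coe_mulLeft, hψ.ker χ z hz u, mul_inv, chr_map_mul]
    ring
  have h2 : (1 - chr l z⁻¹) * ∑ u, ψ χ u * chr l u⁻¹ = 0 := by
    rw [sub_mul, one_mul, ← h1, sub_self]
  rw [mlt]
  rcases mul_eq_zero.1 h2 with h3 | h3
  · exfalso
    apply hl
    have h4 : chr l z⁻¹ = 1 := (sub_eq_zero.1 h3).symm
    have h5 := chr_mul_inv l z
    rw [h4, mul_one] at h5
    exact Units.ext h5
  · rw [h3, mul_zero]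

/-- the values of `Mc` in terms of the `Ml` -/
theorem Mc_eq {B : MonoidAlgebra (OW p k) A} (ψ : IR φ R B → T → KW p k) :
    Mc ψ = fun x => ∑ l : T →* (KW p k)ˣ, Ml ψ l x := by
  funext x
  unfold Mc Ml
  rw [Finset.sum_comm]
  refine Finset.sum_congr rfl fun χ _ => ?_
  rw [← Finset.sum_mul]
  congr 1
  rw [eq_sum_mlt (ψ χ) 1]
  exact Finset.sum_congr rfl fun l _ => by rw [chr_at_one, mul_one]

theorem rwv_Mc {B : MonoidAlgebra (OW p k) A} {ψ : IR φ R B → T → KW p k}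
    (hψ : Rows φ D f R G B ψ) {v : T} (hv : v ∉ R) : rwv φ G R (Mc ψ) v = 0 := by
  have h1 : rwv φ G R (Mc ψ) v = ∑ χ : IR φ R B, ψ χ 1 * rwv φ G R (ch χ.1) v :=
    YTbAux.rwv_sum Finset.univ (fun χ : IR φ R B => ψ χ 1) (fun χ => ch χ.1) v
  rw [h1]
  have h2 := (hψ.gram 1 v⁻¹).2 (by
    rintro ⟨α, -, z, hz, h3⟩
    apply hv
    rw [map_one, mul_one] at h3
    rw [← inv_inv v, h3]
    exact R.inv_mem hz)
  rw [inv_inv] at h2
  refine Eq.trans ?_ h2
  refine Finset.sum_congr rfl fun χ _ => ?_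
  rw [hψ.out χ v hv]

theorem rwv_Ml (h : Stp φ b D f i R G) (hE : eN D f + 3 ≤ p) {B : MonoidAlgebra (OW p k) A}
    {ψ : IR φ R B → T → KW p k} (hψ : Rows φ D f R G B ψ) [Fintype ↥(EG φ D f)]
    {l : T →* (KW p k)ˣ} (hl : ∀ z ∈ R, l z = 1) {v : T} (hv : v ∉ R) :
    rwv φ G R (Ml ψ l) v
      = ∑ α : EG φ D f, ((l ((α : MulAut T) v) : (KW p k)ˣ) : KW p k) := by
  have h1 : rwv φ G R (Ml ψ l) v = ∑ χ : IR φ R B, mlt (ψ χ) l * rwv φ G R (ch χ.1) v :=
    YTbAux.rwv_sum Finset.univ (fun χ : IR φ R B => mlt (ψ χ) l) (fun χ => ch χ.1) v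
  rw [h1, ← (gram_l h hE hψ hl).1 v]
  refine Finset.sum_congr rfl fun χ _ => ?_
  rw [hψ.out χ v hv]

open Classical in
/-- the total for `Ml` -/
theorem tot_Ml (h : Stp φ b D f i R G) (hE : eN D f + 3 ≤ p)
    {BB : ∀ H : Subgroup A, MonoidAlgebra (OW p k) ↥H}
    (hBB : ∀ u c, LbH (C1 (φ u)) i c → CenL (dnr (C1 (φ u)) c) (BB (C1 (φ u))))
    {B : MonoidAlgebra (OW p k) A} (hB : CenL b B)
    {ψ : IR φ R B → T → KW p k} (hψ : Rows φ D f R G B ψ)
    {l : T →* (KW p k)ˣ} (hl : ∀ z ∈ R, l z = 1) :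
    ∑ v : T with v ∉ R, sv φ D f R G BB (Ml ψ l) v
      = (Nat.card R : KW p k) * (Nat.card (EG φ D f) : KW p k) ^ 2
        - (Nat.card R : KW p k) * ((Fintype.card T : KW p k) *
          ((Nat.card (EG φ D f) : KW p k) * ip (rg p (Ml ψ l)) (Ml ψ l))) := by
  have := finite_EG (φ := φ) (D := D) (f := f)
  have : Fintype ↥(EG φ D f) := Fintype.ofFinite _
  set S : T → KW p k := fun v =>
    ∑ α : EG φ D f, ((l ((α : MulAut T) v) : (KW p k)ˣ) : KW p k) with hS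
  have h1 : ip (Ml ψ l) (Ml ψ l)
      = ((Finset.univ.filter fun α : EG φ D f => ∀ u, l ((α : MulAut T) u) = l u).card :
        KW p k) := by
    rw [← (gram_l h hE hψ hl).2, ← ip_comb fun χ => mlt (ψ χ) l]
    rfl
  have h2 := sum_S (φ := φ) (D := D) (f := f) l
  have h3 : ∑ v : T with v ∉ R, rwv φ G R (Ml ψ l) v * rwv φ G R (Ml ψ l) v⁻¹
      = ∑ v : T with v ∉ R, S v * S v⁻¹ := by
    refine Finset.sum_congr rfl fun v hv => ?_
    have hv' := (Finset.mem_filter.1 hv).2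
    rw [rwv_Ml h hE hψ hl hv', rwv_Ml h hE hψ hl fun h4 => hv' ((Subgroup.inv_mem_iff R).1 h4)]
  have hSR : ∀ v ∈ R, S v = (Nat.card (EG φ D f) : KW p k) := by
    intro v hv
    rw [hS]
    simp only
    rw [Finset.sum_congr rfl (g := fun _ => (1 : KW p k)), Finset.sum_const, Finset.card_univ,
      nsmul_eq_mul, mul_one, Nat.card_eq_fintype_card]
    intro α _
    rw [YFAux.al_fix h α.2 hv, hl v hv, Units.val_one]
  have hcR : (Finset.univ.filter fun u : T => u ∈ R).card = Nat.card R := by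
    rw [Nat.card_eq_fintype_card, Fintype.card_subtype]
  have h4 : ∑ v : T with v ∈ R, S v * S v⁻¹
      = (Nat.card R : KW p k) * (Nat.card (EG φ D f) : KW p k) ^ 2 := by
    rw [Finset.sum_congr rfl (g := fun _ => (Nat.card (EG φ D f) : KW p k) ^ 2),
      Finset.sum_const, hcR, nsmul_eq_mul]
    intro v hv
    have hv' := (Finset.mem_filter.1 hv).2
    rw [hSR v hv', hSR _ (R.inv_mem hv'), sq]
  have h5 : ∑ v : T, S v * S v⁻¹ = (Fintype.card T : KW p k) *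
      ((Nat.card (EG φ D f) : KW p k) * ip (Ml ψ l) (Ml ψ l)) := by
    rw [h1]
    exact h2
  rw [← Finset.sum_filter_add_sum_filter_not Finset.univ (fun u => u ∈ R), h4] at h5
  rw [tot h hBB (Ml_mem hB hψ l) (fun z hz x => Ml_ker ψ l hz x), h3, ← h5]
  ring

/-- the arithmetic -/
theorem arith {e r p m M : ℤ} (he : 0 ≤ e) (hep : e + 3 ≤ p) (hr : 1 ≤ r) (hmM : m ≤ M)
    (hM : p * M ≤ r * e ^ 2) (hm : (p - 1) * r ≤ m) : False := by
  have h1 : p * ((p - 1) * r) ≤ r * e ^ 2 := by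
    have h2 : p * ((p - 1) * r) ≤ p * M := mul_le_mul_of_nonneg_left (hm.trans hmM) (by linarith)
    linarith
  have h3 : r * (p * (p - 1)) ≤ r * e ^ 2 := by linarith [h1, mul_comm r (p * (p - 1))]
  have h4 : p * (p - 1) ≤ e ^ 2 := le_of_mul_le_mul_left h3 (by linarith)
  nlinarith

open Classical in
/-- **the form vanishes at the `Ml ψ l`** -/
theorem kerN (h : Stp φ b D f i R G) (hE : eN D f + 3 ≤ p)
    {BB : ∀ H : Subgroup A, MonoidAlgebra (OW p k) ↥H}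
    (hBB : ∀ u c, LbH (C1 (φ u)) i c → CenL (dnr (C1 (φ u)) c) (BB (C1 (φ u))))
    {B : MonoidAlgebra (OW p k) A} (hB : CenL b B)
    {ψ : IR φ R B → T → KW p k} (hψ : Rows φ D f R G B ψ)
    {l : T →* (KW p k)ˣ} (hl : ∀ z ∈ R, l z = 1) {u : T} (hu : u ∉ R) {m : ℤ}
    (hm : m ≠ 0 → ((p : ℤ) - 1) * Nat.card R ≤ m)
    (hs : ∑ v : T with R ⊔ Subgroup.zpowers v = R ⊔ Subgroup.zpowers u,
      sv φ D f R G BB (Ml ψ l) v = (p : KW p k) * m) : m = 0 := by
  by_contra hm0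
  have hT := YPaAux.isPGroup_T h
  have hV := (Ml_mem hB hψ l).1
  have hpK : (p : KW p k) ≠ 0 := Nat.cast_ne_zero.2 (Fact.out : p.Prime).ne_zero
  obtain ⟨M, hM, hle⟩ := sum_fib (R := R) hpK (F := sv φ D f R G BB (Ml ψ l)) (fun u' hu' => by
    obtain ⟨N, hN⟩ := exists_N h hT hBB hu'
    obtain ⟨⟨m', h1, -, h2, -⟩, -⟩ := hN _ hV
    exact ⟨m', h1, h2⟩)
  have hmM := hle u hu m hs
  obtain ⟨r, hr0, hr, -⟩ := rg_nonneg (p := p) hV
  rw [tot_Ml h hE hBB hB hψ hl, hr] at hM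
  have h1 : (Nat.card R : ℚ) * (Nat.card (EG φ D f) : ℚ) ^ 2
      - (Nat.card R : ℚ) * ((Fintype.card T : ℚ) * ((Nat.card (EG φ D f) : ℚ) * r))
      = (p : ℚ) * M := by
    have h2 : (((Nat.card R : ℚ) * (Nat.card (EG φ D f) : ℚ) ^ 2
      - (Nat.card R : ℚ) * ((Fintype.card T : ℚ) * ((Nat.card (EG φ D f) : ℚ) * r)) : ℚ) :
        KW p k) = (((p : ℚ) * M : ℚ) : KW p k) := by
      push_cast
      exact hM
    exact_mod_cast h2
  have h3 : (p : ℚ) * M ≤ (Nat.card R : ℚ) * (Nat.card (EG φ D f) : ℚ) ^ 2 := by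
    rw [← h1]
    have h4 : 0 ≤ (Nat.card R : ℚ) * ((Fintype.card T : ℚ) * ((Nat.card (EG φ D f) : ℚ) * r)) := by
      positivity
    linarith
  have h4 : (p : ℤ) * M ≤ (Nat.card R : ℤ) * (Nat.card (EG φ D f) : ℤ) ^ 2 := by exact_mod_cast h3
  have hEc : Nat.card (EG φ D f) + 3 ≤ p := by rw [card_EG h.inj h.ran]; exact hE
  have hR1 : 1 ≤ Nat.card R := Nat.card_pos
  exact arith (e := (Nat.card (EG φ D f) : ℤ)) (by positivity) (by exact_mod_cast hEc)
    (by exact_mod_cast hR1) hmM h4 (hm hm0)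

theorem exists_c (h : Stp φ b D f i R G)
    {BB : ∀ H : Subgroup A, MonoidAlgebra (OW p k) ↥H}
    (hBB : ∀ u c, LbH (C1 (φ u)) i c → CenL (dnr (C1 (φ u)) c) (BB (C1 (φ u)))) (u : T) :
    ∃ c, CenL (dnr (cq φ (R ⊔ Subgroup.zpowers u)) c)
      (BB (cq φ (R ⊔ Subgroup.zpowers u))) := by
  obtain ⟨c, hc⟩ := exists_lbH h.src (YFAux.phi_mem h u)
  refine ⟨c, ?_⟩
  have h1 : ∀ H, H = C1 (φ u) → CenL (dnr H c) (BB H) := by
    rintro H rfl
    exact hBB u c hc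
  exact h1 _ (cq_eq h.cen u)

/-- **the columns vanish** -/
theorem van (h : Stp φ b D f i R G) (hE : eN D f + 3 ≤ p)
    {B : MonoidAlgebra (OW p k) A} (hB : CenL b B)
    {BB : ∀ H : Subgroup A, MonoidAlgebra (OW p k) ↥H}
    (hBB : ∀ u c, LbH (C1 (φ u)) i c → CenL (dnr (C1 (φ u)) c) (BB (C1 (φ u))))
    {ψ : IR φ R B → T → KW p k} (hψ : Rows φ D f R G B ψ) {u : T} (hu : u ∉ R) {s : A}
    (hs : s ∈ C1 (φ u)) (hsp : Preg p s) :
    cut (C1 (φ u)) (BB (C1 (φ u))) (Mc ψ) (φ u * s) = 0 := by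
  classical
  have hT := YPaAux.isPGroup_T h
  have hX := (Mc_mem h hB hψ).1
  obtain ⟨N, hN⟩ := exists_N h hT hBB hu
  obtain ⟨c, hBQ⟩ := exists_c h hBB u
  obtain ⟨P, hRP, hPQ, hcard, hg⟩ := YSaAux.exists_P (Fact.out : p.Prime) hT hu
  have hT0 : (Fintype.card T : KW p k) ≠ 0 := Nat.cast_ne_zero.2 Fintype.card_ne_zero
  -- the form vanishes at `Mc`
  have hNz : ∀ v, R ⊔ Subgroup.zpowers v = R ⊔ Subgroup.zpowers u → ∀ s,
      ∑ t, (N s t : KW p k) * xs φ _ (BB (cq φ (R ⊔ Subgroup.zpowers u))) (Mc ψ) t v = 0 := by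
    intro v hv s
    have h1 : ∀ t, (N s t : KW p k) * xs φ _ (BB (cq φ (R ⊔ Subgroup.zpowers u))) (Mc ψ) t v
        = ∑ l : T →* (KW p k)ˣ, (N s t : KW p k) *
          xs φ _ (BB (cq φ (R ⊔ Subgroup.zpowers u))) (Ml ψ l) t v := by
      intro t
      rw [Mc_eq, xs_sum, Finset.mul_sum]
    rw [Finset.sum_congr rfl fun t _ => h1 t, Finset.sum_comm]
    refine Finset.sum_eq_zero fun l _ => ?_
    by_cases hl : ∀ z ∈ R, l z = 1
    · obtain ⟨⟨m, -, hm, hsum, hz⟩, -⟩ := hN _ (Ml_mem hB hψ l).1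
      exact hz (kerN h hE hBB hB hψ hl hu hm hsum) v hv s
    · push Not at hl
      obtain ⟨z, hz, hlz⟩ := hl
      have h2 : Ml ψ l = fun _ => 0 := by
        funext x
        unfold Ml
        exact Finset.sum_eq_zero fun χ _ => by rw [mlt_out hψ hz hlz, zero_mul]
      refine Finset.sum_eq_zero fun t _ => ?_
      rw [h2, xs_zero, mul_zero]
  -- the `Wf` vanish
  have hW : ∀ v, R ⊔ Subgroup.zpowers v = R ⊔ Subgroup.zpowers u →
      Wf p (cq φ (R ⊔ Subgroup.zpowers u))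
        (cut _ (BB (cq φ (R ⊔ Subgroup.zpowers u))) (Mc ψ))
        (cut _ (BB (cq φ (R ⊔ Subgroup.zpowers u))) (Mc ψ)) (φ v) = 0 := by
    intro v hv
    have h1 := (hN _ hX).2 v hv
    have hv' : R ⊔ Subgroup.zpowers v⁻¹ = R ⊔ Subgroup.zpowers u := by
      rw [Subgroup.zpowers_inv, hv]
    have h2 : ∑ s, ∑ t, (N s t : KW p k) *
        (xs φ _ (BB (cq φ (R ⊔ Subgroup.zpowers u))) (Mc ψ) s v *
          xs φ _ (BB (cq φ (R ⊔ Subgroup.zpowers u))) (Mc ψ) t v⁻¹) = 0 := by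
      refine Finset.sum_eq_zero fun s _ => ?_
      have h3 : ∑ t, (N s t : KW p k) *
          (xs φ _ (BB (cq φ (R ⊔ Subgroup.zpowers u))) (Mc ψ) s v *
            xs φ _ (BB (cq φ (R ⊔ Subgroup.zpowers u))) (Mc ψ) t v⁻¹)
          = xs φ _ (BB (cq φ (R ⊔ Subgroup.zpowers u))) (Mc ψ) s v *
            ∑ t, (N s t : KW p k) *
              xs φ _ (BB (cq φ (R ⊔ Subgroup.zpowers u))) (Mc ψ) t v⁻¹ := by
        rw [Finset.mul_sum]
        exact Finset.sum_congr rfl fun t _ => by ring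
      rw [h3, hNz _ hv' s, mul_zero]
    rw [h2, mul_zero, add_zero, rwv_Mc hψ (fib_notMem hu hv), zero_mul] at h1
    have he0 : (eQ φ D f (R ⊔ Subgroup.zpowers u) : KW p k) ≠ 0 := by
      rw [(eQ_sup h.cen h.inj u).1]
      have := finite_EG (φ := φ) (D := D) (f := f)
      exact Nat.cast_ne_zero.2 (Nat.one_le_iff_ne_zero.1 (st_pos (EG φ D f) u))
    exact (mul_eq_zero.1 h1).resolve_left (mul_ne_zero hT0 he0)
  have huQ : u ∈ R ⊔ Subgroup.zpowers u := Subgroup.mem_sup_right (Subgroup.mem_zpowers u)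
  have key : ∀ H : Subgroup A, H = cq φ (R ⊔ Subgroup.zpowers u) → s ∈ H →
      cut H (BB H) (Mc ψ) (φ u * s) = 0 := by
    rintro H rfl hsH
    exact YPbAux.col_zero hcard hPQ hBQ hX (fun v hv => hW v ((hg v v.2).1 fun h1 =>
      hv (Subgroup.mem_subgroupOf.2 h1))) huQ ((hg u huQ).2 rfl)
      (y := ⟨s, hsH⟩) ((FIAux.preg_coe' (⟨s, hsH⟩ : ↥(cq φ (R ⊔ Subgroup.zpowers u)))).1 hsp)
  exact key _ (cq_eq h.cen u).symm hs

end

end YPcAux

end Pool.Agent.Lib.P0c8ca5.Ex
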