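import Mathlib
import Pool.Agent.Lib.P0c8ca5Ex.YO
import Pool.Agent.Lib.P0c8ca5Ex.YPa
import Pool.Agent.Lib.P0c8ca5Ex.YPc

/-!
# YP: the vanishing of the columns

`ψ` are the rows (`Rows`). `Ml ψ l = ∑_χ mlt (ψ χ) l * ch χ` for a character `l` of `T` and `Mc ψ = ∑_χ ψ χ 1 * ch χ` (sums over `IR φ R B`).
Claim `van_cols`: the columns of `Mc ψ` at the places `u ∉ R` vanish.

* `gram_l` (pure, from `Rows.gram`): for `l` trivial on `R`: `∑_χ mlt (ψ χ) l * ψ χ u = ∑_(α ∈ E) l (α u)` and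
  `∑_χ mlt (ψ χ) l ^ 2 = #{α ∈ E : l ∘ α = l}`. PROOF. `mlt g l = |T|⁻¹ ∑_v g v l(v⁻¹)`; `∑_χ ψ χ v ψ χ u` is `(|T| / |R|) |E_v|` if
  `v ∈ R E u⁻¹` and `0` otherwise; the pairs `(z, α) ∈ R × E` with `z α(u⁻¹) = v` are `|E_v|` many.
* `rwv_l`: `rwv φ G R (Ml ψ l) u = ∑_(α ∈ E) l (α u)` for `u ∉ R` (`Rows.out`), `ip (Ml ψ l) (Ml ψ l) = #{α ∈ E : l ∘ α = l}`.
* `Mc ψ = ∑_(l trivial on R) Ml ψ l` (Fourier; `mlt (ψ χ) l = 0` if `l` is not trivial on `R`, `Rows.ker`), and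
  `rwv φ G R (Mc ψ) u = ∑_χ ψ χ 1 ψ χ u = 0` for `u ∉ R` (`Rows.gram`).
* `kerN`: for `u ∉ R`, `Q = R ⊔ ⟨u⟩`, `H = C(φ Q)`, the form `N` of `locN` and `X = Ml ψ l`: `∑_t N s t * xs X t u = 0` for all `s`. PROOF. `n = |T|`. `ort` for
  `X`, `X`: `∑_v eQ ⟨v⟩ W_v = |E| ip X X`. For `v ∈ R`: `W_v = W_1` (`X`, hence `cut X`, is constant on the cosets of `R`), `W_1 ≥ 0` (`rg_nonneg`; `cut` for
  `H = C(1) = ⊤` is `X` itself). For `v ∉ R` (`loc_id`): `n eQ ⟨v⟩ W_v = rwv X v rwv X v⁻¹ + p r_v`, `r_v` the value of the form at `xs X`. For each `Q > R` with `Q / R` cyclic the `v` with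
  `R ⊔ ⟨v⟩ = Q` are the `v ∈ Q - P`, `P` the subgroup of index `p` of `Q` that contains `R`; `gen_sum` on `↥Q` (`xs_vir`): `∑ r_v = n_Q` an integer, `n_Q ≥ 0`, and
  `n_Q = 0` or `n_Q ≥ |Q| - |P| ≥ (p - 1) |R|`. And `n |E| ip X X = ∑_(u ∈ T) |∑_α l (α u)|² = |R| |E|² + ∑_(u ∉ R) ..`. So
  `p ∑_Q n_Q + |R| n |E| W_1 = |R| |E|²`, and `|E|² < p (p - 1)`: all `n_Q = 0`; then `gen_sum` gives the claim.
* `van_cols`: PROOF. For `X = Mc ψ`: `∑_t N s t * xs X t v = 0` for the generators `v` of `Q` (sum over `l`) and `rwv X v = 0`, so by `loc_id` `W_v(X, X) = 0` for all `v` with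
  `R ⊔ ⟨v⟩ = Q`. Apply `gen_sum` on `↥Q` to the form `q s t = |H|_p ip (rg p (ch s)) (ch t)` (integral by `ip_rg_int`, positive semidefinite by `rg_nonneg`): its sum over the
  generators is `|H|_p ∑_v W_v(X, X) = 0`, so `∑_t q s t * xs X t u = 0` for all `s`: `rg p (y ↦ cut X (φ u y))` is orthogonal to all `ch s`, so it is `0` (`cf_expand`).
-/

set_option linter.unusedSectionVars false

namespace Pool.Agent.Lib.P0c8ca5.Ex

open MonoidAlgebra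

section
variable {p : ℕ} [Fact p.Prime] {k : Type*} [Field k] [IsAlgClosed k] [CharP k p]
  {A : Type*} [Group A] [Finite A] {T : Type*} [CommGroup T] [Fintype T]
  {φ : T →* A} {b f i : MonoidAlgebra k A} {D : Subgroup A} {R : Subgroup T}
  {G : Subgroup T → A → KW p k}

/-- **the columns vanish** -/
theorem van_cols (hp2 : p ≠ 2) (h : Stp φ b D f i R G) (hE : eN D f + 3 ≤ p)
    {B : MonoidAlgebra (OW p k) A} (hB : CenL b B)
    {BB : ∀ H : Subgroup A, MonoidAlgebra (OW p k) ↥H}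
    (hBB : ∀ u c, LbH (C1 (φ u)) i c → CenL (dnr (C1 (φ u)) c) (BB (C1 (φ u))))
    {ψ : IR φ R B → T → KW p k} (hψ : Rows φ D f R G B ψ) {u : T} (hu : u ∉ R) {s : A}
    (hs : s ∈ C1 (φ u)) (hsp : Preg p s) :
    cut (C1 (φ u)) (BB (C1 (φ u))) (Mc ψ) (φ u * s) = 0 :=
  YPcAux.van h hE hB hBB hψ hu hs hsp

end

end Pool.Agent.Lib.P0c8ca5.Ex
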