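import Mathlib
import Pool.Agent.Lib.P0c8ca5Ex.YM

/-!
# YTa: the data `GOK` at a central subgroup

`gok_top`: if `φ R` is central then `GOK φ D f i G' R` in terms of functions on `A`.
-/

set_option linter.unusedSectionVars false

namespace Pool.Agent.Lib.P0c8ca5.Ex

open MonoidAlgebra

namespace YTaAux

section ring
variable {S : Type*} [CommRing S] {A : Type*} [Group A] [Finite A]

theorem upr_dnr_top (a : MonoidAlgebra S A) : upr ⊤ (dnr ⊤ a) = a :=
  upr_dnr fun x _ => Subgroup.mem_top x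

theorem dnr_top_mul (a b : MonoidAlgebra S A) :
    dnr ⊤ (a * b) = dnr ⊤ a * dnr ⊤ b := by
  conv_lhs => rw [← upr_dnr_top b]
  rw [dnr_mul_upr]

end ring

section
variable {K : Type*} [Field K] [IsAlgClosed K] [CharZero K] {A : Type*} [Group A] [Finite A]

/-- a function on `↥⊤` as a function on `A` -/
def ofTop {M : Type*} (X : ↥(⊤ : Subgroup A) → M) : A → M := fun x => X ⟨x, Subgroup.mem_top x⟩

theorem on_ofTop (X : ↥(⊤ : Subgroup A) → K) : on ⊤ (ofTop X) = X := rfl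

theorem ofTop_on (X : A → K) : ofTop (on ⊤ X) = X := rfl

theorem on_V {X : A → K} : on ⊤ X ∈ V K ↥(⊤ : Subgroup A) ↔ X ∈ V K A := by
  constructor
  · intro h
    have h1 := V_comp (Subgroup.topEquiv (G := A)).symm.toMonoidHom h
    exact h1
  · intro h
    exact V_comp (⊤ : Subgroup A).subtype h

theorem sm_top (F : ↥(⊤ : Subgroup A) → K) : sm F = sm (ofTop F) :=
  sm_equiv (Subgroup.topEquiv (G := A)).toEquiv (ofTop F)

theorem card_top' : Nat.card ↥(⊤ : Subgroup A) = Nat.card A := Subgroup.card_top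

theorem ip_top (X Y : A → K) : ip (on ⊤ X) (on ⊤ Y) = ip X Y := by
  rw [ip, ip, sm_top, card_top']
  rfl

theorem rg_top {p : ℕ} (X : A → K) : rg p (on ⊤ X) = on ⊤ (rg p X) := by
  funext x
  by_cases hx : Preg p x
  · rw [rg_of hx, on, on, rg_of ((FIAux.preg_coe' x).2 hx)]
  · rw [rg_not hx, on, rg_not fun h => hx ((FIAux.preg_coe' x).1 h)]

end

section
variable {p : ℕ} [Fact p.Prime] {k : Type*} [Field k] [IsAlgClosed k] [CharP k p]
  {A : Type*} [Group A] [Finite A]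

open YHAux YGAux YFAux

theorem va_iff {b : MonoidAlgebra k A} {B : MonoidAlgebra (OW p k) A} (hB : CenL b B)
    {X : A → KW p k} :
    X ∈ VA (p := p) b ↔ X ∈ V (KW p k) A ∧ ∀ x, lin X (single x 1 * B) = X x := by
  classical
  constructor
  · intro h
    exact ⟨h.1, fun x => by rw [VA_mul hB h, lin_single]⟩
  · rintro ⟨h1, h2⟩
    obtain ⟨hint, -⟩ := V_expand h1
    choose z hz using hint
    have h3 : X = fun y => ∑ s : Ir (KW p k) A,
        ((if chO s B ≠ 0 then z s else 0 : ℤ) : KW p k) * ch s y := by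
      funext y
      rw [← h2 y, lin_V h1]
      refine Finset.sum_congr rfl fun s _ => ?_
      split_ifs with hs
      · rw [hB.chO_in hs, chO_ch, hz]
      · rw [not_not] at hs
        rw [hB.chO_out hs (by rw [mul_assoc, hB.idem]), mul_zero, Int.cast_zero, zero_mul]
    rw [h3]
    exact sum_mem hB _ fun s hs => if_neg (not_not.2 hs)

theorem cenL_top {b : MonoidAlgebra k A} {B : MonoidAlgebra (OW p k) A} (hB : CenL b B) :
    CenL (dnr ⊤ b) (dnr ⊤ B) := by
  refine ⟨?_, fun x => ?_, ?_⟩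
  · rw [← dnr_top_mul, hB.idem]
  · have hx : dnr ⊤ (upr ⊤ x) = x := dnr_upr _ _
    rw [← hx, ← dnr_top_mul, ← dnr_top_mul, hB.cen]
  · rw [map_dnr, hB.red]

theorem va_top {b : MonoidAlgebra k A} {B : MonoidAlgebra (OW p k) A} (hB : CenL b B)
    {X : A → KW p k} : on ⊤ X ∈ VA (p := p) (dnr ⊤ b) ↔ X ∈ VA (p := p) b := by
  rw [va_iff (cenL_top hB), va_iff hB, on_V]
  have h1 : ∀ x : ↥(⊤ : Subgroup A),
      lin (on ⊤ X) (single x 1 * dnr ⊤ B) = lin X (single (x : A) 1 * B) := by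
    intro x
    rw [← lin_upr, map_mul, upr_single, upr_dnr_top]
  constructor
  · rintro ⟨h2, h3⟩
    refine ⟨h2, fun x => ?_⟩
    have h4 := h3 ⟨x, Subgroup.mem_top x⟩
    rw [h1] at h4
    exact h4
  · rintro ⟨h2, h3⟩
    refine ⟨h2, fun x => ?_⟩
    rw [h1]
    exact h3 x

end

section
variable {p : ℕ} [Fact p.Prime] {k : Type*} [Field k] [IsAlgClosed k] [CharP k p]
  {A : Type*} [Group A] [Finite A] {T : Type*} [CommGroup T] [Fintype T]
  {φ : T →* A} {b f i : MonoidAlgebra k A} {D : Subgroup A} {R : Subgroup T}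
  {G : Subgroup T → A → KW p k}

/-- `GOK` with `H` in place of the centralizer -/
structure GH (φ : T →* A) (D : Subgroup A) (f i : MonoidAlgebra k A)
    (G : Subgroup T → A → KW p k) (Q : Subgroup T) (H : Subgroup A) (Γ : A → KW p k) : Prop where
  sup : ∀ x, x ∉ H → Γ x = 0
  blk : ∀ c, LbH H i c → on H Γ ∈ VA (p := p) (dnr H c)
  reg : ∀ x, ¬ Preg p x → Γ x = 0
  nrm : ip (on H Γ) (on H Γ) = (Fintype.card T : KW p k) * (eQ φ D f Q : KW p k)
  row : ∀ X : A → KW p k, on H X ∈ V (KW p k) ↥H → rwv φ G Q X ∈ vir T (KW p k)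
  cong : ∀ c, LbH H i c → ∀ X ∈ VA (p := p) (dnr H c),
    ∀ Y ∈ VA (p := p) (dnr H c), ∃ m a a' : ℤ,
      (Fintype.card T : KW p k) * (eQ φ D f Q : KW p k) * ip (rg p X) Y = m ∧
      ip X (on H Γ) = a ∧ ip Y (on H Γ) = a' ∧ (p : ℤ) ∣ m - a * a'

theorem gok_gh {Q : Subgroup T} {H : Subgroup A} (hH : cq φ Q = H) {Γ : A → KW p k}
    (hΓ : G Q = Γ) : GOK φ D f i G Q ↔ GH φ D f i G Q H Γ := by
  subst hH hΓ
  exact ⟨fun h => ⟨h.sup, h.blk, h.reg, h.nrm, h.row, h.cong⟩,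
    fun h => ⟨h.sup, h.blk, h.reg, h.nrm, h.row, h.cong⟩⟩

theorem lbH_top (h : Src p b D f i) {c : MonoidAlgebra k A} :
    LbH (⊤ : Subgroup A) i c ↔ c = b := by
  constructor
  · intro hc
    rcases hc.blk.eq_or_mul_eq_zero h.root.blk with h2 | h2
    · exact h2
    · exfalso
      have h3 := hc.ic
      rw [resS_top] at h3
      have h4 : i * c * b = i := by rw [h3, h.ib]
      rw [mul_assoc, h2, mul_zero] at h4
      exact h.prim.ne h4.symm
  · rintro rfl
    refine ⟨h.root.blk, ?_⟩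
    rw [resS_top, h.ib]

end

end YTaAux

open YTaAux

section
variable {p : ℕ} [Fact p.Prime] {k : Type*} [Field k] [IsAlgClosed k] [CharP k p]
  {A : Type*} [Group A] [Finite A] {T : Type*} [CommGroup T] [Fintype T]
  {φ : T →* A} {b f i : MonoidAlgebra k A} {D : Subgroup A} {R : Subgroup T}
  {G : Subgroup T → A → KW p k}

theorem cq_top (hR : ∀ z ∈ R, ∀ a : A, φ z * a = a * φ z) : cq φ R = ⊤ := by
  rw [eq_top_iff]
  intro a _
  rw [Subgroup.mem_centralizer_iff]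
  rintro _ ⟨z, hz, rfl⟩
  exact hR z hz a

/-- `GOK` at a central subgroup -/
theorem gok_top (h : Src p b D f i) (hφ : Function.Injective φ)
    (hR : ∀ z ∈ R, ∀ a : A, φ z * a = a * φ z) {Γ : A → KW p k} (hΓ : G R = Γ) :
    GOK φ D f i G R ↔ (Γ ∈ VA (p := p) b ∧ (∀ x, ¬ Preg p x → Γ x = 0) ∧
      ip Γ Γ = (Fintype.card T : KW p k) * (Nat.card (EG φ D f) : KW p k) ∧
      (∀ X ∈ V (KW p k) A, rwv φ G R X ∈ vir T (KW p k)) ∧
      (∀ X ∈ VA (p := p) b, ∀ Y ∈ VA (p := p) b, ∃ m a a' : ℤ,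
        (Fintype.card T : KW p k) * (Nat.card (EG φ D f) : KW p k) * ip (rg p X) Y = m ∧
          ip X Γ = a ∧ ip Y Γ = a' ∧ (p : ℤ) ∣ m - a * a')) := by
  obtain ⟨B, hB⟩ := exists_cenL (p := p) h.root.blk.idem (fun g => invBy_iff_cj.1 h.root.blk.invBy g (Subgroup.mem_top g))
  have he : eQ φ D f R = Nat.card (EG φ D f) := eQ_cen hR hφ
  rw [gok_gh (cq_top hR) hΓ]
  constructor
  · intro hG
    have hb : LbH (⊤ : Subgroup A) i b := (lbH_top h).2 rfl
    refine ⟨(va_top hB).1 (hG.blk b hb), hG.reg, ?_, fun X hX => hG.row X (on_V.2 hX),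
      fun X hX Y hY => ?_⟩
    · rw [← ip_top, hG.nrm, he]
    · obtain ⟨m, a, a', h1, h2, h3, h4⟩ := hG.cong b hb _ ((va_top hB).2 hX) _ ((va_top hB).2 hY)
      rw [rg_top, ip_top, he] at h1
      rw [ip_top] at h2 h3
      exact ⟨m, a, a', h1, h2, h3, h4⟩
  · rintro ⟨h1, h2, h3, h4, h5⟩
    refine ⟨fun x hx => absurd (Subgroup.mem_top x) hx, fun c hc => ?_, h2, ?_,
      fun X hX => h4 X (on_V.1 hX), fun c hc X hX Y hY => ?_⟩
    · rw [(lbH_top h).1 hc]
      exact (va_top hB).2 h1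
    · rw [ip_top, h3, he]
    · rw [(lbH_top h).1 hc] at hX hY
      obtain ⟨m, a, a', h6, h7, h8, h9⟩ := h5 (ofTop X) ((va_top hB).1 hX) (ofTop Y)
        ((va_top hB).1 hY)
      refine ⟨m, a, a', ?_, ?_, ?_, h9⟩
      · rw [← on_ofTop X, ← on_ofTop Y, rg_top, ip_top, he]
        exact h6
      · rw [← on_ofTop X, ip_top]
        exact h7
      · rw [← on_ofTop Y, ip_top]
        exact h8

end

end Pool.Agent.Lib.P0c8ca5.Ex
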