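import Mathlib
import Pool.Agent.Lib.P0c8ca5Ex.YO
import Pool.Agent.Lib.P0c8ca5Ex.YTd
import Pool.Agent.Lib.P0c8ca5Ex.YTa
import Pool.Agent.Lib.P0c8ca5Ex.YTb

/-!
# YT: the step at the central subgroup `R`

`GR φ b D f R G Γ`: the properties of the class function `Γ` of `A` (in words: `Γ` is a virtual regular character of the
block `b` of `A = C(R)`). `gr_iff`: `GOK` at `R` with `cq φ R = ⊤` in terms of `GR` (a function on `↥⊤` is the same as a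
function on `A`: `V`, `ip`, `VA`, `Preg`, `rg` for `on ⊤ X` and `X`; `LbH ⊤ i c` means `c = b`; `dnr ⊤ b` and its lift).

* `gram_full`, `gr_unique` (uniqueness), PROOF. Let `Γ` satisfy `GR` and `ψ χ = rwv φ (upd G R Γ) R (ch χ)` for `χ ∈ IR φ R B`. Then
  `Rows φ D f R G B ψ`: `vir` by `GR.row`, `ker` by `rwv_ker`, `out` as `R ⊔ ⟨u⟩ ≠ R`. `gram`: `u, v ∉ R`: `gram_ker` (`rwv_out` for
  the characters outside the block); put `Γ' x = ∑_(χ ∈ IR) a_χ ch χ x`, `a_χ = ip (ch χ) Γ = ψ χ 1`; as `Γ` is in the block, `Γ' x = |R|⁻¹ ∑_(z ∈ R) Γ (φ z x)`;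
  `u, v ∈ R`: `∑ a_χ² = ip Γ' Γ = |R|⁻¹ ip Γ Γ = |R|⁻¹ |T| |E|` (`Γ' = |R|⁻¹ Γ` on the `p`-regular elements: `z x` is not `p`-regular for `z ≠ 1`);
  `u ∈ R`, `v ∉ R`: `∑ a_χ ψ χ v⁻¹ = rwv φ G R Γ' v⁻¹ = 0` since `Γ' (φ v⁻¹ y) = |R|⁻¹ ∑_z Γ (φ (z v⁻¹) y) = 0` for `p`-regular `y ∈ C(φ v)`.
  By `ext_uniq` the numbers `a_χ` (`χ ∈ IR`) do not depend on `Γ`, hence `Γ'`, hence `Γ = |R| rg p Γ'`.
-/

set_option linter.unusedSectionVars false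

namespace Pool.Agent.Lib.P0c8ca5.Ex

open MonoidAlgebra

section
variable {p : ℕ} [Fact p.Prime] {k : Type*} [Field k] [IsAlgClosed k] [CharP k p]
  {A : Type*} [Group A] [Finite A] {T : Type*} [CommGroup T] [Fintype T]
  {φ : T →* A} {b f i : MonoidAlgebra k A} {D : Subgroup A} {R : Subgroup T}
  {G : Subgroup T → A → KW p k}

theorem gr_iff (h : Stp φ b D f i R G) (Γ : A → KW p k) :
    GOK φ D f i (upd G R Γ) R ↔ GR φ b D f R G Γ := by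
  rw [gok_top h.src h.inj h.cen (upd_self G R Γ)]
  exact ⟨fun ⟨h1, h2, h3, h4, h5⟩ => ⟨h1, h2, h3, h4, h5⟩,
    fun h1 => ⟨h1.blk, h1.reg, h1.nrm, h1.row, h1.cong⟩⟩

end

end Pool.Agent.Lib.P0c8ca5.Ex
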