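import Mathlib
import Pool.Agent.Lib.P0c8ca5Ex.YP
import Pool.Agent.Lib.P0c8ca5Ex.YT

/-!
# YQ: the class function at `R`

`Gm ψ = |R| rg p (Mc ψ)`. From here only `hvan` (the columns of `Mc ψ` vanish, `van_cols`) is used.

* `ip_RA` (pure): for a function `F` with `F x = 0` unless `φ z x` is `p`-regular for some `z ∈ R`:
  `sm F = ∑_(z ∈ R) sm (fun s => if Preg p s then F (φ z * s) else 0)` (`R` central `p`-group; `z` is unique: `φ z` is the inverse of the
  `p`-part of `x`). Consequence: `ip X Y = |R| ip (rg p X) Y` for `X`, `Y` constant on the cosets of `R`, `X x = 0` unless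
  `φ z x` is `p`-regular for some `z ∈ R`.
* `Mc_zero`: `Mc ψ x = 0` if no `φ z x` is `p`-regular (`van` with `hvan`).
* `gm_mem`: `Gm ψ ∈ VA b`: `mem_V_of_int` with `mix` (`Z = R.map φ`); outside the block `bo`.
* `gm_ip`: `ip (ch χ) (Gm ψ) = ψ χ 1` for `χ ∈ IR` (`ip_RA`, `ip_rg`).
* `gm_nrm`: `ip (Gm ψ) (Gm ψ) = |R|² ip (rg p Mc) Mc = |R| ip Mc Mc = |R| ∑ (ψ χ 1)² = |T| |E|` (`Rows.gram` at `1, 1`).
-/

set_option linter.unusedSectionVars false

namespace Pool.Agent.Lib.P0c8ca5.Ex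

open MonoidAlgebra

section
variable {p : ℕ} [Fact p.Prime] {k : Type*} [Field k] [IsAlgClosed k] [CharP k p]
  {A : Type*} [Group A] [Finite A] {T : Type*} [CommGroup T] [Fintype T]
  {φ : T →* A} {b f i : MonoidAlgebra k A} {D : Subgroup A} {R : Subgroup T}
  {G : Subgroup T → A → KW p k}

namespace YqAux

/-- uniqueness of the central `p`-part -/
theorem preg_uniq {w s : A} {m : ℕ} (hw : w ^ p ^ m = 1) (hc : w * s = s * w) (h1 : Preg p s)
    (h2 : Preg p (w * s)) : w = 1 := by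
  have hp : p.Prime := Fact.out
  have hcop : Nat.Coprime (p ^ m) (orderOf s * orderOf (w * s)) :=
    Nat.Coprime.pow_left m ((hp.coprime_iff_not_dvd).2 fun h => by
      rcases hp.dvd_mul.1 h with h3 | h3
      · exact h1 h3
      · exact h2 h3)
  have h3 : w ^ (orderOf s * orderOf (w * s)) = 1 := by
    have hc' : Commute w s := hc
    have h4 : (w * s) ^ (orderOf s * orderOf (w * s)) = 1 := by
      rw [mul_comm (orderOf s), pow_mul, pow_orderOf_eq_one, one_pow]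
    rw [hc'.mul_pow, pow_mul s, pow_orderOf_eq_one, one_pow, mul_one] at h4
    exact h4
  have h5 : orderOf w ∣ p ^ m := orderOf_dvd_of_pow_eq_one hw
  have h6 := Nat.eq_one_of_dvd_coprimes hcop h5 (orderOf_dvd_of_pow_eq_one h3)
  exact orderOf_eq_one_iff.1 h6

end YqAux

open YqAux

open Classical in
theorem sm_RA {K : Type*} [Field K] (hφ : Function.Injective φ) (hT : IsPGroup p T)
    (hR : ∀ z ∈ R, ∀ a : A, φ z * a = a * φ z) {F : A → K}
    (hF : ∀ x, (∀ z ∈ R, ¬ Preg p (φ z * x)) → F x = 0) :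
    sm F = ∑ z ∈ Finset.univ.filter (fun z : T => z ∈ R),
      sm (fun s : A => if Preg p s then F (φ z * s) else 0) := by
  have := Fintype.ofFinite A
  have h1 : ∀ z ∈ Finset.univ.filter (fun z : T => z ∈ R),
      sm (fun s : A => if Preg p s then F (φ z * s) else 0) =
        sm (fun x : A => if Preg p (φ z⁻¹ * x) then F x else 0) := by
    intro z _
    rw [← sm_mul_left (φ z) (fun x : A => if Preg p (φ z⁻¹ * x) then F x else 0)]
    refine sm_congr fun s => ?_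
    rw [map_inv, inv_mul_cancel_left]
  rw [Finset.sum_congr rfl h1, ← sm_sum]
  refine sm_congr fun x => ?_
  by_cases hx : ∀ z ∈ R, ¬ Preg p (φ z * x)
  · rw [hF x hx]
    simp
  · push Not at hx
    obtain ⟨z, hz, hzx⟩ := hx
    rw [Finset.sum_eq_single z⁻¹]
    · rw [inv_inv, if_pos hzx]
    · intro y hy hne
      have hyR : y ∈ R := (Finset.mem_filter.1 hy).2
      rw [if_neg]
      intro hyx
      apply hne
      -- `φ (y⁻¹ z⁻¹)` is the quotient of two `p`-regular elements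
      obtain ⟨m, hm⟩ := hT (y⁻¹ * z⁻¹)
      have h2 : φ (y⁻¹ * z⁻¹) = 1 := by
        refine preg_uniq (p := p) (s := φ z * x) (m := m) ?_
          (hR _ (R.mul_mem (R.inv_mem hyR) (R.inv_mem hz)) _) hzx ?_
        · rw [← map_pow, hm, map_one]
        · rw [← mul_assoc, ← map_mul, mul_assoc, inv_mul_cancel, mul_one]
          exact hyx
      have h3 : y⁻¹ * z⁻¹ = 1 := hφ (by rw [h2, map_one])
      rw [inv_mul_eq_one.1 h3]
    · intro h
      exact absurd (Finset.mem_filter.2 ⟨Finset.mem_univ _, R.inv_mem hz⟩) h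

theorem ip_RA {K : Type*} [Field K] [IsAlgClosed K] [CharZero K] (hφ : Function.Injective φ)
    (hT : IsPGroup p T) (hR : ∀ z ∈ R, ∀ a : A, φ z * a = a * φ z) {X Y : A → K}
    (hX : ∀ z ∈ R, ∀ x, X (φ z * x) = X x) (hY : ∀ z ∈ R, ∀ x, Y (φ z * x) = Y x)
    (h0 : ∀ x, (∀ z ∈ R, ¬ Preg p (φ z * x)) → X x = 0) :
    ip X Y = (Nat.card R : K) * ip (rg p X) Y := by
  classical
  have h1 := sm_RA (K := K) hφ hT hR (F := fun x => X x * Y x⁻¹) (fun x hx => by
    rw [h0 x hx, zero_mul])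
  have h2 : ∀ z ∈ Finset.univ.filter (fun z : T => z ∈ R),
      sm (fun s : A => if Preg p s then X (φ z * s) * Y (φ z * s)⁻¹ else 0) =
        sm (fun s : A => rg p X s * Y s⁻¹) := by
    intro z hz
    have hzR : z ∈ R := (Finset.mem_filter.1 hz).2
    refine sm_congr fun s => ?_
    by_cases hs : Preg p s
    · rw [if_pos hs, rg_of hs, hX z hzR, mul_inv_rev, ← map_inv,
        ← hR z⁻¹ (R.inv_mem hzR), hY z⁻¹ (R.inv_mem hzR)]
    · rw [if_neg hs, rg_not hs, zero_mul]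
  rw [ip, h1, Finset.sum_congr rfl h2, Finset.sum_const, nsmul_eq_mul, ip]
  have h3 : (Finset.univ.filter (fun z : T => z ∈ R)).card = Nat.card R := by
    rw [Nat.card_eq_fintype_card, Fintype.card_subtype]
  rw [h3]
  ring

/-- `T` is a `p`-group -/
theorem isP_T (h : Src p b D f i) (hφ : Function.Injective φ)
    (hr : ∀ x, x ∈ D ↔ ∃ t, φ t = x) : IsPGroup p T := by
  intro t
  obtain ⟨m, hm⟩ := h.root.dfg.isPGroup ⟨φ t, (hr _).2 ⟨t, rfl⟩⟩
  refine ⟨m, hφ ?_⟩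
  rw [map_pow, map_one]
  exact congrArg Subtype.val hm

/-- the class function at `R` -/
noncomputable def Gm {B : MonoidAlgebra (OW p k) A} (ψ : IR φ R B → T → KW p k) (x : A) :
    KW p k := (Nat.card R : KW p k) * rg p (Mc ψ) x

/-- the input of this file and of YR, YS: the rows and the vanishing of the columns -/
structure Inp (φ : T →* A) (b : MonoidAlgebra k A) (D : Subgroup A) (f i : MonoidAlgebra k A)
    (R : Subgroup T) (G : Subgroup T → A → KW p k) (B : MonoidAlgebra (OW p k) A)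
    (ψ : IR φ R B → T → KW p k) : Prop where
  stp : Stp φ b D f i R G
  cl : CenL b B
  rows : Rows φ D f R G B ψ
  van : ∀ (BB : ∀ H : Subgroup A, MonoidAlgebra (OW p k) ↥H),
    (∀ u c, LbH (C1 (φ u)) i c → CenL (dnr (C1 (φ u)) c) (BB (C1 (φ u)))) → ∀ u, u ∉ R →
      ∀ s ∈ C1 (φ u), Preg p s → cut (C1 (φ u)) (BB (C1 (φ u))) (Mc ψ) (φ u * s) = 0

variable {B : MonoidAlgebra (OW p k) A} {ψ : IR φ R B → T → KW p k}

theorem Mc_zero (H : Inp φ b D f i R G B ψ) {x : A} (hx : ∀ z ∈ R, ¬ Preg p (φ z * x)) :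
    Mc ψ x = 0 := by
  obtain ⟨BB, hBB⟩ := exists_BB H.stp.src H.stp.ran
  exact van H.stp.src H.stp.inj H.stp.ran H.stp.cen hBB (Mc_mem H.stp H.cl H.rows)
    (fun u hu s hs hsp => H.van BB hBB u hu s hs hsp) hx

namespace YqAux

theorem ip_gm (ψ : IR φ R B → T → KW p k) (Y : A → KW p k) :
    ip (Gm ψ) Y = (Nat.card R : KW p k) * ip (rg p (Mc ψ)) Y := by
  rw [← ip_smul]
  rfl

/-- the inner products of the truncation -/
theorem ip_rgMc (ψ : IR φ R B → T → KW p k) (Y : A → KW p k) :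
    ip (rg p (Mc ψ)) Y = ∑ χ : IR φ R B, ψ χ 1 * ip (rg p (ch χ.1)) Y := by
  have h1 : rg p (Mc ψ) = fun x => ∑ χ : IR φ R B, (ψ χ 1 • rg p (ch χ.1)) x := by
    funext x
    by_cases hx : Preg p x
    · rw [rg_of hx, Mc]
      exact Finset.sum_congr rfl fun χ _ => by rw [Pi.smul_apply, rg_of hx, smul_eq_mul]
    · rw [rg_not hx]
      exact (Finset.sum_eq_zero fun χ _ => by rw [Pi.smul_apply, rg_not hx, smul_zero]).symm
  rw [h1, ip_sum]
  exact Finset.sum_congr rfl fun χ _ => ip_smul _ _ _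

theorem ip_Mc (ψ : IR φ R B → T → KW p k) (Y : A → KW p k) :
    ip (Mc ψ) Y = ∑ χ : IR φ R B, ψ χ 1 * ip (ch χ.1) Y := by
  have h1 : Mc ψ = fun x => ∑ χ : IR φ R B, (ψ χ 1 • ch χ.1) x := by
    funext x
    rw [Mc]
    exact Finset.sum_congr rfl fun χ _ => by rw [Pi.smul_apply, smul_eq_mul]
  rw [h1, ip_sum]
  exact Finset.sum_congr rfl fun χ _ => ip_smul _ _ _

theorem ip_Mc_ch (ψ : IR φ R B → T → KW p k) (χ : IR φ R B) : ip (Mc ψ) (ch χ.1) = ψ χ 1 := by
  classical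
  rw [ip_Mc, Finset.sum_eq_single χ]
  · rw [ip_ch, if_pos rfl, mul_one]
  · intro χ' _ hne
    rw [ip_ch, if_neg (fun h => hne (Subtype.ext h)), mul_zero]
  · intro h
    exact absurd (Finset.mem_univ _) h

theorem ip_rgMc_of (H : Inp φ b D f i R G B ψ) {Y : A → KW p k}
    (hY : ∀ z ∈ R, ∀ x, Y (φ z * x) = Y x) :
    (Nat.card R : KW p k) * ip (rg p (Mc ψ)) Y = ip (Mc ψ) Y :=
  (ip_RA H.stp.inj (isP_T H.stp.src H.stp.inj H.stp.ran) H.stp.cen
    (fun _ hz x => Mc_ker ψ hz x) hY (fun _ hx => Mc_zero H hx)).symm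

end YqAux

theorem gm_mem (H : Inp φ b D f i R G B ψ) : Gm ψ ∈ VA (p := p) b := by
  have hMc := Mc_mem H.stp H.cl H.rows
  have hTp := isP_T H.stp.src H.stp.inj H.stp.ran
  refine ⟨mem_V_of_int (fun g x => ?_) fun χ => ?_, fun B' hB' χ hχ => ?_⟩
  · rw [Gm, Gm, rg_conj (V_conj hMc.1)]
  · have hZp : IsPGroup p ↥(R.map φ) := (hTp.to_subgroup R).map φ
    obtain ⟨m, hm⟩ := mix (p := p) hZp (fun z hz a => by
      obtain ⟨t, ht, rfl⟩ := Subgroup.mem_map.1 hz
      exact H.stp.cen t ht a) hMc.1 (ch_mem χ) (fun z hz x => by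
      obtain ⟨t, ht, rfl⟩ := Subgroup.mem_map.1 hz
      exact Mc_ker ψ ht x) (fun x hx => Mc_zero H fun z hz =>
        hx (φ z) (Subgroup.mem_map_of_mem φ hz))
    refine ⟨m, ?_⟩
    have h1 : Nat.card ↥(R.map φ) = Nat.card R :=
      (Nat.card_congr (R.equivMapOfInjective φ H.stp.inj).toEquiv).symm
    rw [ip_gm, ← h1, hm]
  · have h1 : B' = B := cenL_unique hB' H.cl
    subst h1
    rw [ip_gm, ip_rgMc, Finset.sum_eq_zero, mul_zero]
    intro χ' _
    rw [bo H.cl χ'.2.2 hχ, mul_zero]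

theorem gm_ip (H : Inp φ b D f i R G B ψ) (χ : IR φ R B) : ip (ch χ.1) (Gm ψ) = ψ χ 1 := by
  rw [ip_comm, ip_gm, ip_rgMc_of H χ.2.1, ip_Mc_ch]

theorem gm_nrm (H : Inp φ b D f i R G B ψ) :
    ip (Gm ψ) (Gm ψ) = (Fintype.card T : KW p k) * (Nat.card (EG φ D f) : KW p k) := by
  have h1 : ip (rg p (Mc ψ)) (Gm ψ) = ip (Gm ψ) (Mc ψ) := by
    rw [ip_rg, ip_comm]
    congr 1
    exact rg_eq fun x hx => by rw [Gm, rg_not hx, mul_zero]
  have h2 : ip (Mc ψ) (Mc ψ) = ∑ χ : IR φ R B, ψ χ 1 * ψ χ 1 := by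
    rw [ip_Mc]
    refine Finset.sum_congr rfl fun χ _ => ?_
    rw [ip_comm, ip_Mc_ch]
  have h3 := (H.rows.gram 1 1).1 ⟨1, Subgroup.one_mem _, 1, R.one_mem, by simp⟩
  rw [inv_one] at h3
  rw [ip_gm, h1, ip_gm, ip_rgMc_of H (fun _ hz x => Mc_ker ψ hz x), h2, h3]
  congr 2
  refine Nat.card_congr (Equiv.subtypeUnivEquiv fun α => ?_)
  rw [map_one]

end

end Pool.Agent.Lib.P0c8ca5.Ex
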