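import Mathlib
import Pool.Agent.Lib.P0c8ca5Ex.YQ
import Pool.Agent.Lib.P0c8ca5Ex.YTb
import Pool.Agent.Lib.P0c8ca5Ex.YSa
import Pool.Agent.Lib.P0c8ca5Ex.YD
import Pool.Agent.Lib.P0c8ca5Ex.YK

/-!
# YR: the rows of the class function at `R`

`gm_row`: for `X ∈ V`: `rwv φ (upd G R (Gm ψ)) R X ∈ vir T`. PROOF. By additivity in `X` (`rwv` is additive, `V_induction`) let `X = ch ξ`,
`ξ` irreducible, `ξ (φ z x) = om(z) ξ(x)` for `z ∈ R` (`Schur`, in the library for `chO` / `om`). `glue`: `Ω ∈ V`, zero on the elements which are not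
`p`-regular, and for all `X` a `Θ_X ∈ vir T` equal to the row outside `R`, `Θ_X 1 = ip X Ω`, `Θ_ξ (z u) = om(z) Θ_ξ u`.
(a) `χ ∈ IR`: `ψ χ - Θ_χ` is in `vir T`, zero outside `R`, constant on `R`: `ψ χ 1 - ip χ Ω = |T : R| t_χ`, `t_χ` an integer (the multiplicity of
the trivial character); for `χ` with `R` in the kernel outside the block the same with `ψ χ` replaced by `0` (`rwv_out`): `- ip χ Ω = |T : R| t_χ`.
(b) `J = ∑_χ t_χ ch χ` (`Ker φ R χ`) is in `V`, constant on the cosets of `R`, and `|T : R| J = Mc ψ - Ω'`, `Ω' = ∑_(χ : Ker) (ip χ Ω) ch χ`,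
`Ω' x = |R|⁻¹ ∑_(z ∈ R) Ω (φ z x)`; so `J x = 0` unless some `φ z x` is `p`-regular (`Mc_zero`), and `Ω = |R| rg p Ω'` (for `p`-regular `x` only `z = 1`
counts). Hence `Gm ψ = Ω + |T : R| |R| rg p J`, and `|R| ip (rg p J) (ch ξ) = t_ξ` is an integer for EVERY `ξ` by `mix`.
(c) So `ip (ch ξ) (Gm ψ) = ip (ch ξ) Ω + |T : R| t_ξ` and the row of `ξ` is `Θ_ξ + t_ξ * ∑_(l on T, l = om on R) l` (`∑ l (u)` is `|T : R| om(u)` on `R`
and `0` outside `R`): for `u ∈ R`, `R ⊔ ⟨u⟩ = R` and `rwv φ (upd G R (Gm ψ)) R (ch ξ) u = om(u) ip (ch ξ) (Gm ψ)`.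
-/

set_option linter.unusedSectionVars false

namespace Pool.Agent.Lib.P0c8ca5.Ex

open MonoidAlgebra

namespace YRAux

section
variable {p : ℕ} [Fact p.Prime] {k : Type*} [Field k] [IsAlgClosed k] [CharP k p]
  {A : Type*} [Group A] [Finite A] {T : Type*} [CommGroup T] [Fintype T]
  {φ : T →* A} {b f i : MonoidAlgebra k A} {D : Subgroup A} {R : Subgroup T}
  {G : Subgroup T → A → KW p k} {B : MonoidAlgebra (OW p k) A} {ψ : IR φ R B → T → KW p k}

open YFAux YTbAux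

open Classical in
/-- the average over `R` for class functions -/
theorem avg_cf (h : Stp φ b D f i R G) {F : A → KW p k} (hF : ∀ g x, F (g * x * g⁻¹) = F x)
    (x : A) : ∑ z : ↥R, F (φ z * x)
      = (Nat.card R : KW p k) * ∑ χ : Ir (KW p k) A with Ker φ R χ, ip F (ch χ) * ch χ x := by
  have h1 : ∀ z : ↥R, F (φ z * x) = ∑ χ : Ir (KW p k) A,
      om χ (single (φ z) (1 : KW p k)) * (ip F (ch χ) * ch χ x) := by
    intro z
    rw [cf_expand hF]
    refine Finset.sum_congr rfl fun χ _ => ?_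
    rw [YFAux.ch_cen (h.cen z z.2)]
    ring
  rw [Finset.sum_congr rfl fun z _ => h1 z, Finset.sum_comm, Finset.sum_filter, Finset.mul_sum]
  refine Finset.sum_congr rfl fun χ _ => ?_
  rw [← Finset.sum_mul, sum_omR h χ]
  split_ifs
  · rfl
  · rw [zero_mul, mul_zero]

open Classical in
/-- a virtual character with support in `R`: `|T : R| ω` -/
theorem supp_mem (h : Stp φ b D f i R G) (ξ : Ir (KW p k) A) {τ : ℕ}
    (hτ : Fintype.card T = Nat.card R * τ) :
    (fun u : T => if u ∈ R then (τ : KW p k) * om ξ (single (φ u) (1 : KW p k)) else 0)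
      ∈ vir T (KW p k) := by
  have : Fintype ↥R := Fintype.ofFinite _
  rw [mem_vir_iff]
  intro l
  let g : ↥R →* KW p k :=
    { toFun := fun z => omR h ξ z * chr l (z : T)⁻¹
      map_one' := by
        rw [map_one, OneMemClass.coe_one, inv_one, one_mul]
        exact chr_at_one l
      map_mul' := fun z w => by
        rw [map_mul, Subgroup.coe_mul, mul_inv, chr_map_mul]
        ring }
  have h1 : mlt (fun u : T => if u ∈ R then (τ : KW p k) * om ξ (single (φ u) (1 : KW p k)) else 0) l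
      = (Fintype.card T : KW p k)⁻¹ * ((τ : KW p k) * ∑ z : ↥R, g z) := by
    unfold mlt
    congr 1
    have h2 : ∀ u : T, (if u ∈ R then (τ : KW p k) * om ξ (single (φ u) (1 : KW p k)) else 0)
        * chr l u⁻¹ = if u ∈ R then (τ : KW p k) * (om ξ (single (φ u) (1 : KW p k)) * chr l u⁻¹)
          else 0 := by
      intro u
      split_ifs
      · ring
      · rw [zero_mul]
    rw [Finset.sum_congr rfl fun u _ => h2 u, ← Finset.sum_filter, ← Finset.mul_sum]
    congr 1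
    exact Finset.sum_subtype (Finset.univ.filter fun u : T => u ∈ R) (fun x => by simp)
      (fun u : T => om ξ (single (φ u) (1 : KW p k)) * chr l u⁻¹)
  rw [h1, sum_hom_units g]
  have h3 : (Fintype.card T : KW p k) = (Fintype.card ↥R : KW p k) * τ := by
    rw [hτ, Nat.card_eq_fintype_card]
    push_cast
    rfl
  split_ifs with h4
  · refine ⟨1, ?_⟩
    rw [mul_comm (τ : KW p k), ← h3, inv_mul_cancel₀ card_ne, Int.cast_one]
  · exact ⟨0, by rw [Nat.cast_zero, mul_zero, mul_zero, Int.cast_zero]⟩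

open Classical in
/-- the extended row of `χ` -/
noncomputable def pv (ψ : IR φ R B → T → KW p k) (χ : Ir (KW p k) A) : T → KW p k :=
  if hχ : Ker φ R χ ∧ chO χ B ≠ 0 then ψ ⟨χ, hχ⟩ else 0

theorem pv_of (ψ : IR φ R B → T → KW p k) (χ : IR φ R B) : pv ψ χ.1 = ψ χ := by
  rw [pv, dif_pos χ.2]
  rfl

theorem pv_not (ψ : IR φ R B → T → KW p k) {χ : Ir (KW p k) A} (hχ : chO χ B = 0) :
    pv ψ χ = 0 := by
  rw [pv, dif_neg fun h => h.2 hχ]

theorem pv_mem (H : Inp φ b D f i R G B ψ) (χ : Ir (KW p k) A) : pv ψ χ ∈ vir T (KW p k) := by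
  by_cases hχ : Ker φ R χ ∧ chO χ B ≠ 0
  · rw [pv, dif_pos hχ]
    exact H.rows.vir _
  · rw [pv, dif_neg hχ]
    exact (vir T (KW p k)).zero_mem

theorem pv_ker (H : Inp φ b D f i R G B ψ) (χ : Ir (KW p k) A) {z : T} (hz : z ∈ R) (u : T) :
    pv ψ χ (z * u) = pv ψ χ u := by
  by_cases hχ : Ker φ R χ ∧ chO χ B ≠ 0
  · rw [pv, dif_pos hχ]
    exact H.rows.ker _ z hz u
  · rw [pv, dif_neg hχ]
    rfl

theorem pv_out (H : Inp φ b D f i R G B ψ) {χ : Ir (KW p k) A} (hK : Ker φ R χ) {u : T}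
    (hu : u ∉ R) : pv ψ χ u = rwv φ G R (ch χ) u := by
  by_cases hχ : chO χ B = 0
  · rw [pv_not ψ hχ, rwv_out H.stp H.cl hχ hu]
    rfl
  · rw [pv, dif_pos ⟨hK, hχ⟩]
    exact H.rows.out _ u hu

open Classical in
theorem Mc_pv (ψ : IR φ R B → T → KW p k) (x : A) :
    Mc ψ x = ∑ χ : Ir (KW p k) A with Ker φ R χ, pv ψ χ 1 * ch χ x := by
  rw [← sum_IR' (B := B) (F := fun χ => pv ψ χ 1 * ch χ x)
    (fun χ hχ => by rw [pv_not ψ hχ, Pi.zero_apply, zero_mul]), Mc]
  exact Finset.sum_congr rfl fun χ _ => by rw [pv_of]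

end

end YRAux

section
variable {p : ℕ} [Fact p.Prime] {k : Type*} [Field k] [IsAlgClosed k] [CharP k p]
  {A : Type*} [Group A] [Finite A] {T : Type*} [CommGroup T] [Fintype T]
  {φ : T →* A} {b f i : MonoidAlgebra k A} {D : Subgroup A} {R : Subgroup T}
  {G : Subgroup T → A → KW p k} {B : MonoidAlgebra (OW p k) A} {ψ : IR φ R B → T → KW p k}

open YFAux YTbAux YRAux

theorem gm_row (H : Inp φ b D f i R G B ψ) {X : A → KW p k} (hX : X ∈ V (KW p k) A) :
    rwv φ (upd G R (Gm ψ)) R X ∈ vir T (KW p k) := by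
  classical
  have h := H.stp
  have hT := isP_T h.src h.inj h.ran
  have hR0 : (Nat.card R : KW p k) ≠ 0 := Nat.cast_ne_zero.2 Nat.card_pos.ne'
  obtain ⟨Ω, hΩV, hΩr, hΘ⟩ := glue h
  obtain ⟨τ, hτ⟩ : ∃ τ : ℕ, Fintype.card T = Nat.card R * τ := by
    rw [← Nat.card_eq_fintype_card]
    exact Subgroup.card_subgroup_dvd_card R
  have hτK : (Fintype.card T : KW p k) = (Nat.card R : KW p k) * τ := by
    rw [hτ]
    push_cast
    rfl
  have hτ0 : (τ : KW p k) ≠ 0 := by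
    intro h0
    rw [h0, mul_zero] at hτK
    exact card_ne hτK
  have hcR : (Finset.univ.filter fun u : T => u ∈ R).card = Nat.card R := by
    rw [Nat.card_eq_fintype_card, Fintype.card_subtype]
  -- (a)
  have ha : ∀ χ : Ir (KW p k) A, Ker φ R χ → ∃ t : ℤ,
      pv ψ χ 1 - ip (ch χ) Ω = (τ : KW p k) * t := by
    intro χ hK
    obtain ⟨Θ, hΘv, hΘo, hΘ1, hΘk⟩ := hΘ (ch χ) (ch_mem χ)
    have h1 : pv ψ χ - Θ ∈ vir T (KW p k) := (vir T (KW p k)).sub_mem (pv_mem H χ) hΘv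
    obtain ⟨t, ht⟩ := mem_vir_iff.1 h1 1
    refine ⟨t, ?_⟩
    have h2 : ∑ u, (pv ψ χ - Θ) u * chr (1 : T →* (KW p k)ˣ) u⁻¹
        = (Nat.card R : KW p k) * (pv ψ χ 1 - ip (ch χ) Ω) := by
      have h3 : ∀ u, (pv ψ χ - Θ) u * chr (1 : T →* (KW p k)ˣ) u⁻¹
          = if u ∈ R then pv ψ χ 1 - ip (ch χ) Ω else 0 := by
        intro u
        have h4 : chr (1 : T →* (KW p k)ˣ) u⁻¹ = 1 := by simp [chr]
        rw [h4, mul_one, Pi.sub_apply]
        split_ifs with hu
        · have h5 := pv_ker H χ hu 1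
          have h6 := hΘk u hu 1 (fun x => by rw [one_mul]; exact hK u hu x) 1
          rw [mul_one] at h5 h6
          rw [h5, h6, hΘ1, one_mul]
        · rw [pv_out H hK hu, hΘo u hu, sub_self]
      rw [Finset.sum_congr rfl fun u _ => h3 u, ← Finset.sum_filter, Finset.sum_const, hcR,
        nsmul_eq_mul]
    unfold mlt at ht
    rw [h2, hτK] at ht
    refine mul_left_cancel₀ hR0 ?_
    have h5 : (Nat.card R : KW p k) * τ ≠ 0 := mul_ne_zero hR0 hτ0
    rw [inv_mul_eq_iff_eq_mul₀ h5] at ht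
    rw [ht]
    ring
  choose! t ht using ha
  -- (b)
  set J : A → KW p k := fun x => ∑ χ : Ir (KW p k) A,
    ((if Ker φ R χ then t χ else 0 : ℤ) : KW p k) * ch χ x with hJ
  have hJV : J ∈ V (KW p k) A := V_of_sum _
  have hJe : ∀ x, J x = ∑ χ : Ir (KW p k) A with Ker φ R χ, (t χ : KW p k) * ch χ x := by
    intro x
    rw [hJ, Finset.sum_filter]
    refine Finset.sum_congr rfl fun χ _ => ?_
    split_ifs
    · rfl
    · rw [Int.cast_zero, zero_mul]
  have hJτ : ∀ x, (Nat.card R : KW p k) * ((τ : KW p k) * J x)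
      = (Nat.card R : KW p k) * Mc ψ x - ∑ z : ↥R, Ω (φ z * x) := by
    intro x
    rw [avg_cf h (V_conj hΩV), Mc_pv, ← mul_sub, ← Finset.sum_sub_distrib, hJe, Finset.mul_sum (a := (τ : KW p k))]
    congr 1
    refine Finset.sum_congr rfl fun χ hχ => ?_
    rw [← mul_assoc, ← ht χ (Finset.mem_filter.1 hχ).2, ip_comm Ω]
    ring
  have hJ1 : ∀ z ∈ R.map φ, ∀ x, J (z * x) = J x := by
    rintro _ ⟨z, hz, rfl⟩ x
    rw [hJe, hJe]
    exact Finset.sum_congr rfl fun χ hχ => by rw [(Finset.mem_filter.1 hχ).2 z hz]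
  have hJ0 : ∀ x, (∀ z ∈ R.map φ, ¬ Preg p (z * x)) → J x = 0 := by
    intro x hx
    have h1 := hJτ x
    rw [Mc_zero H (fun z hz => hx _ ⟨z, hz, rfl⟩),
      Finset.sum_eq_zero fun (z : ↥R) _ => hΩr _ (hx _ ⟨z, z.2, rfl⟩), mul_zero, sub_zero] at h1
    exact (mul_eq_zero.1 ((mul_eq_zero.1 h1).resolve_left hR0)).resolve_left hτ0
  have hΓ : Gm ψ = Ω + ((τ : KW p k) * (Nat.card R : KW p k)) • rg p J := by
    funext x
    rw [Pi.add_apply, Pi.smul_apply, smul_eq_mul, Gm]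
    by_cases hx : Preg p x
    · rw [rg_of hx, rg_of hx]
      have h1 := hJτ x
      rw [avg_reg h hΩr hx] at h1
      linear_combination -h1
    · rw [rg_not hx, rg_not hx, hΩr x hx]
      ring
  have hZ : IsPGroup p ↥(R.map φ) := (hT.to_subgroup R).map φ
  have hcard : Nat.card ↥(R.map φ) = Nat.card R :=
    (Nat.card_congr (Subgroup.equivMapOfInjective R φ h.inj).toEquiv).symm
  -- (c)
  have hcirr : ∀ ξ : Ir (KW p k) A, rwv φ (upd G R (Gm ψ)) R (ch ξ) ∈ vir T (KW p k) := by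
    intro ξ
    obtain ⟨s, hs⟩ := mix hZ (by
      rintro _ ⟨z, hz, rfl⟩ a
      exact h.cen z hz a) hJV (ch_mem ξ) hJ1 hJ0
    rw [hcard] at hs
    obtain ⟨Θ, hΘv, hΘo, hΘ1, hΘk⟩ := hΘ (ch ξ) (ch_mem ξ)
    have hipΓ : ip (ch ξ) (Gm ψ) = ip (ch ξ) Ω + (τ : KW p k) * s := by
      rw [ip_comm, hΓ, ip_add, ip_smul, ip_comm Ω, mul_assoc, hs]
    have h1 : rwv φ (upd G R (Gm ψ)) R (ch ξ) = Θ + s • (fun u : T => if u ∈ R then
        (τ : KW p k) * om ξ (single (φ u) (1 : KW p k)) else 0) := by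
      funext u
      rw [Pi.add_apply, Pi.smul_apply, zsmul_eq_mul]
      by_cases hu : u ∈ R
      · rw [if_pos hu]
        have h2 : rwv φ (upd G R (Gm ψ)) R (ch ξ) u
            = om ξ (single (φ u) (1 : KW p k)) * rwv φ (upd G R (Gm ψ)) R (ch ξ) 1 := by
          have h3 : R ⊔ Subgroup.zpowers u = R := by
            rw [sup_eq_left, Subgroup.zpowers_le]
            exact hu
          have h4 : R ⊔ Subgroup.zpowers (1 : T) = R := by simp
          rw [rwv, rwv, h3, h4]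
          have h5 : ∀ y : A, ch ξ (φ u * y) * upd G R (Gm ψ) R y⁻¹
              = om ξ (single (φ u) (1 : KW p k)) * (ch ξ (φ 1 * y) * upd G R (Gm ψ) R y⁻¹) := by
            intro y
            rw [YFAux.ch_cen (h.cen u hu), map_one, one_mul]
            ring
          rw [sm_congr h5, sm_mul]
          ring
        have h6 := hΘk u hu (om ξ (single (φ u) (1 : KW p k)))
          (fun x => YFAux.ch_cen (h.cen u hu) ξ x) 1
        rw [mul_one] at h6
        rw [h2, rwv_upd_one h, hipΓ, h6, hΘ1]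
        ring
      · rw [if_neg hu, rwv_upd_out hu, hΘo u hu, mul_zero, add_zero]
    rw [h1]
    exact (vir T (KW p k)).add_mem hΘv (zsmul_mem (supp_mem h ξ hτ) s)
  obtain ⟨hz, hXe⟩ := V_expand hX
  choose z hz using hz
  have h2 : rwv φ (upd G R (Gm ψ)) R X = ∑ χ : Ir (KW p k) A,
      z χ • rwv φ (upd G R (Gm ψ)) R (ch χ) := by
    funext u
    have h3 : X = fun x => ∑ χ ∈ Finset.univ, ip X (ch χ) * ch χ x := funext hXe
    conv_lhs => rw [h3]
    rw [rwv_sum, Finset.sum_apply]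
    refine Finset.sum_congr rfl fun χ _ => ?_
    rw [Pi.smul_apply, zsmul_eq_mul, hz]
  rw [h2]
  exact sum_mem fun χ _ => zsmul_mem (hcirr χ) _

end

end Pool.Agent.Lib.P0c8ca5.Ex
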