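import Mathlib
import Pool.Agent.Lib.P0c8ca5Ex.YR
import Pool.Agent.Lib.P0c8ca5Ex.YSa
import Pool.Agent.Lib.P0c8ca5Ex.YTb
import Pool.Agent.Lib.P0c8ca5Ex.YI
import Pool.Agent.Lib.P0c8ca5Ex.YK

/-!
# YS: the congruences of the class function at `R`

`n = |T| |E|`, `Γ = Gm ψ`. For `X, Y ∈ VA b` the number `n ip (rg p X) Y` is an integer, congruent to `ip X Γ * ip Y Γ` modulo `p`.

PROOF. By bilinearity (`V_expand`; the characters in the block) let `X = ch χ`, `Y = ch ξ`, both in the block.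
(a) `χ, ξ ∈ IR`. `ort` and `loc_id` (`u ∉ R`, `rwv` = `rwv` of `upd`), `W_z = W_1 = ip (rg p X) Y` for `z ∈ R`:
`n ip X Y = |R| n ip (rg p X) Y + ∑_(u ∉ R) (rwv X u rwv Y u⁻¹ + p r_u)`; `∑_(u ∈ T) rwv X u rwv Y u⁻¹ = |T| a` with an integer `a` (`gm_row`, the rows are in `vir T`; Parseval),
and the part of `u ∈ R` is `|R| ip X Γ ip Y Γ` (`gm_ip`, constant on `R`). Divide by `|R|`:
`n ip (rg p X) Y - ip X Γ ip Y Γ = |T : R| (|E| ip X Y - a) - (p / |R|) ∑_(u ∉ R) r_u`, `p ∣ |T : R|`, and the sum of the `r_u` over the generators of `Q` modulo `R` is a sum of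
`N s t * (x s v * y t v⁻¹)` over `v ∈ Q - P`, an integer divisible by `|P|` (`pair_sum` in XD), `|R|` divides `|P|`.
(b) `χ ∈ IR`, `ξ` arbitrary in the block. `F = n rg p (ch χ) - (ip χ Γ) Γ` (supported on the `p`-regular elements). `S = ∑_(ζ ∈ IR) (ip F ζ / p) ch ζ` is in `V` by (a), constant on
the cosets of `R`, and `p |R| S (φ z s) = F s` for `s` `p`-regular, `z ∈ R`, `S x = 0` if no `φ z x` is `p`-regular (the projection of `F` to the characters with `R` in the kernel is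
`|R|⁻¹ ∑_(z ∈ R) F (φ z x)`; outside the block the multiplicities are `0`, `bo`). So `F = p |R| rg p S` and `ip F ξ = p * (|R| ip (rg p S) ξ)`, an integer multiple of `p` by `mix`.
(c) `χ` arbitrary: by (b) and symmetry `ip F ζ` (`F` for `χ`) is divisible by `p` for all `ζ ∈ IR`; then repeat (b).
-/

set_option linter.unusedSectionVars false

namespace Pool.Agent.Lib.P0c8ca5.Ex

open MonoidAlgebra

namespace YSAux

section
variable {p : ℕ} [Fact p.Prime] {k : Type*} [Field k] [IsAlgClosed k] [CharP k p]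
  {A : Type*} [Group A] [Finite A] {T : Type*} [CommGroup T] [Fintype T]
  {φ : T →* A} {b f i : MonoidAlgebra k A} {D : Subgroup A} {R : Subgroup T}
  {G : Subgroup T → A → KW p k} {B : MonoidAlgebra (OW p k) A} {ψ : IR φ R B → T → KW p k}

open YFAux YTbAux YSaAux

/-- Parseval for virtual characters of `T` -/
theorem pars_vir {x y : T → KW p k} (hx : x ∈ vir T (KW p k)) (hy : y ∈ vir T (KW p k)) :
    ∃ m : ℤ, ∑ u, x u * y u⁻¹ = (Fintype.card T : KW p k) * m := by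
  have h1 : (fun u => y u⁻¹) ∈ vir T (KW p k) := vir_comp hy invMonoidHom
  have h2 : x * (fun u => y u⁻¹) ∈ vir T (KW p k) := (vir T (KW p k)).mul_mem hx h1
  obtain ⟨m, hm⟩ := mem_vir_iff.1 h2 1
  refine ⟨m, ?_⟩
  rw [← hm]
  unfold mlt
  rw [mul_inv_cancel_left₀ card_ne]
  refine Finset.sum_congr rfl fun u _ => ?_
  have h3 : chr (1 : T →* (KW p k)ˣ) u⁻¹ = 1 := by simp [chr]
  rw [h3, mul_one]
  rfl

open Classical in
/-- the average over `R` for class functions -/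
theorem avg_cf (h : Stp φ b D f i R G) {F : A → KW p k} (hF : ∀ g x, F (g * x * g⁻¹) = F x)
    (x : A) : ∑ z : ↥R, F (φ z * x)
      = (Nat.card R : KW p k) * ∑ χ : Ir (KW p k) A with Ker φ R χ, ip F (ch χ) * ch χ x := by
  have h1 : ∀ z : ↥R, F (φ z * x) = ∑ χ : Ir (KW p k) A,
      om χ (single (φ z) (1 : KW p k)) * (ip F (ch χ) * ch χ x) := by
    intro z
    rw [cf_expand hF]
    refine Finset.sum_congr rfl fun χ _ => ?_
    rw [YFAux.ch_cen (h.cen z z.2)]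
    ring
  rw [Finset.sum_congr rfl fun z _ => h1 z, Finset.sum_comm, Finset.sum_filter, Finset.mul_sum]
  refine Finset.sum_congr rfl fun χ _ => ?_
  rw [← Finset.sum_mul, sum_omR h χ]
  split_ifs
  · rfl
  · rw [zero_mul, mul_zero]

/-- block orthogonality -/
theorem bo' (hB : CenL b B) {X : A → KW p k} (hX : X ∈ VA (p := p) b) {χ : Ir (KW p k) A}
    (hχ : chO χ B = 0) : ip (rg p X) (ch χ) = 0 := by
  rw [ip_rg, ip_pars (Y := X) hX.1]
  refine Finset.sum_eq_zero fun s _ => ?_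
  by_cases hs : chO s B = 0
  · rw [hX.2 B hB s hs, zero_mul]
  · rw [← ip_rg, bo hB hs hχ, mul_zero]

theorem pR_dvd (hT : IsPGroup p T) (hRT : R ≠ ⊤) :
    ∃ τ : ℕ, Fintype.card T = Nat.card R * (p * τ) := by
  have h1 : ¬ (⊤ : Subgroup T) ≤ R := fun h2 => hRT (top_unique h2)
  have h2 := YLx.card_lt_p (Fact.out : p.Prime) hT le_top h1
  rw [Subgroup.card_top] at h2
  obtain ⟨a, ha⟩ := IsPGroup.iff_card.1 hT
  obtain ⟨c, hc⟩ := IsPGroup.iff_card.1 (hT.to_subgroup R)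
  have hp : p.Prime := Fact.out
  rw [ha, hc, mul_comm, ← pow_succ] at h2
  have h3 : c + 1 ≤ a := (Nat.pow_le_pow_iff_right hp.one_lt).1 h2
  refine ⟨p ^ (a - (c + 1)), ?_⟩
  rw [← Nat.card_eq_fintype_card, ha, hc, ← pow_succ', ← pow_add]
  congr 1
  omega

/-- the step (b) -/
theorem stepb (H : Inp φ b D f i R G B ψ) {X : A → KW p k} (hX : X ∈ VA (p := p) b) {n : KW p k}
    (hj : ∀ ζ : IR φ R B, ∃ j : ℤ, n * ip (rg p X) (ch ζ.1) - ip X (Gm ψ) * ip (ch ζ.1) (Gm ψ)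
      = (p : KW p k) * j) {Y : A → KW p k} (hY : Y ∈ V (KW p k) A) :
    ∃ j : ℤ, n * ip (rg p X) Y - ip X (Gm ψ) * ip Y (Gm ψ) = (p : KW p k) * j := by
  classical
  have h := H.stp
  have hΓ := gm_mem H
  have hp0 : (p : KW p k) ≠ 0 := Nat.cast_ne_zero.2 (Fact.out : p.Prime).ne_zero
  have hR0 : (Nat.card R : KW p k) ≠ 0 := Nat.cast_ne_zero.2 Nat.card_pos.ne'
  set F : A → KW p k := n • rg p X + (-(ip X (Gm ψ))) • Gm ψ with hF
  have hipF : ∀ Z : A → KW p k, ip F Z = n * ip (rg p X) Z - ip X (Gm ψ) * ip Z (Gm ψ) := by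
    intro Z
    rw [hF, ip_add, ip_smul, ip_smul, ip_comm (Gm ψ) Z]
    ring
  have hFc : ∀ g x, F (g * x * g⁻¹) = F x := by
    intro g x
    rw [hF, Pi.add_apply, Pi.add_apply, Pi.smul_apply, Pi.smul_apply, Pi.smul_apply, Pi.smul_apply,
      rg_conj (V_conj hX.1), V_conj hΓ.1]
  have hFr : ∀ x, ¬ Preg p x → F x = 0 := by
    intro x hx
    rw [hF, Pi.add_apply, Pi.smul_apply, Pi.smul_apply, rg_not hx, Gm, rg_not hx, mul_zero,
      smul_zero, smul_zero, add_zero]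
  choose jj hjj using hj
  set J : Ir (KW p k) A → ℤ := fun χ =>
    if hχ : Ker φ R χ ∧ chO χ B ≠ 0 then jj ⟨χ, hχ⟩ else 0 with hJ
  set S : A → KW p k := fun x => ∑ χ : Ir (KW p k) A, (J χ : KW p k) * ch χ x with hS
  have hSV : S ∈ V (KW p k) A := V_of_sum J
  have hJK : ∀ χ, Ker φ R χ → ip F (ch χ) = (p : KW p k) * J χ := by
    intro χ hχ
    by_cases hB : chO χ B = 0
    · rw [hipF, bo' H.cl hX hB, ip_comm (ch χ), hΓ.2 B H.cl χ hB, hJ]
      simp only
      rw [dif_neg fun h1 => h1.2 hB, Int.cast_zero]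
      ring
    · rw [hipF, hJ]
      simp only
      rw [dif_pos ⟨hχ, hB⟩]
      exact hjj ⟨χ, hχ, hB⟩
  have hJ0 : ∀ χ, ¬ Ker φ R χ → J χ = 0 := by
    intro χ hχ
    rw [hJ]
    simp only
    rw [dif_neg fun h1 => hχ h1.1]
  have hsum : ∀ x, ∑ z : ↥R, F (φ z * x) = (Nat.card R : KW p k) * ((p : KW p k) * S x) := by
    intro x
    rw [avg_cf h hFc, hS]
    simp only
    rw [Finset.mul_sum (a := (p : KW p k)), Finset.sum_filter]
    congr 1
    refine Finset.sum_congr rfl fun χ _ => ?_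
    split_ifs with hχ
    · rw [hJK χ hχ, mul_assoc]
    · rw [hJ0 χ hχ, Int.cast_zero, zero_mul, mul_zero]
  have hS1 : ∀ z ∈ R.map φ, ∀ x, S (z * x) = S x := by
    rintro _ ⟨z, hz, rfl⟩ x
    rw [hS]
    simp only
    refine Finset.sum_congr rfl fun χ _ => ?_
    by_cases hχ : Ker φ R χ
    · rw [hχ z hz]
    · rw [hJ0 χ hχ, Int.cast_zero, zero_mul, zero_mul]
  have hS0 : ∀ x, (∀ z ∈ R.map φ, ¬ Preg p (z * x)) → S x = 0 := by
    intro x hx
    have h1 := hsum x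
    rw [Finset.sum_eq_zero fun (z : ↥R) _ => hFr _ (hx _ ⟨z, z.2, rfl⟩)] at h1
    have h2 := (mul_eq_zero.1 h1.symm).resolve_left hR0
    exact (mul_eq_zero.1 h2).resolve_left hp0
  have hFS : F = ((p : KW p k) * (Nat.card R : KW p k)) • rg p S := by
    funext x
    rw [Pi.smul_apply, smul_eq_mul]
    by_cases hx : Preg p x
    · rw [rg_of hx, ← avg_reg h hFr hx, hsum]
      ring
    · rw [rg_not hx, hFr x hx, mul_zero]
  have hT := isP_T h.src h.inj h.ran
  have hZ : IsPGroup p ↥(R.map φ) := (hT.to_subgroup R).map φ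
  have hcard : Nat.card ↥(R.map φ) = Nat.card R :=
    (Nat.card_congr (Subgroup.equivMapOfInjective R φ h.inj).toEquiv).symm
  obtain ⟨m, hm⟩ := mix hZ (by
    rintro _ ⟨z, hz, rfl⟩ a
    exact h.cen z hz a) hSV hY hS1 hS0
  rw [hcard] at hm
  refine ⟨m, ?_⟩
  rw [← hipF, hFS, ip_smul, mul_assoc, hm]

end

end YSAux

section
variable {p : ℕ} [Fact p.Prime] {k : Type*} [Field k] [IsAlgClosed k] [CharP k p]
  {A : Type*} [Group A] [Finite A] {T : Type*} [CommGroup T] [Fintype T]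
  {φ : T →* A} {b f i : MonoidAlgebra k A} {D : Subgroup A} {R : Subgroup T}
  {G : Subgroup T → A → KW p k} {B : MonoidAlgebra (OW p k) A} {ψ : IR φ R B → T → KW p k}

open YFAux YTbAux YSaAux YSAux

/-- part (a) -/
theorem cong_same (H : Inp φ b D f i R G B ψ) (hRT : R ≠ ⊤) (χ ξ : IR φ R B) : ∃ m a a' : ℤ,
    (Fintype.card T : KW p k) * (Nat.card (EG φ D f) : KW p k) * ip (rg p (ch χ.1)) (ch ξ.1) = m ∧
      ip (ch χ.1) (Gm ψ) = a ∧ ip (ch ξ.1) (Gm ψ) = a' ∧ (p : ℤ) ∣ m - a * a' := by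
  classical
  have h := H.stp
  have hT := isP_T h.src h.inj h.ran
  have hΓ := gm_mem H
  have hX : ch χ.1 ∈ VA (p := p) b := YGAux.ch_mem_VA H.cl χ.2.2
  have hY : ch ξ.1 ∈ VA (p := p) b := YGAux.ch_mem_VA H.cl ξ.2.2
  obtain ⟨a, ha⟩ := ip_int hX.1 hΓ.1
  obtain ⟨a', ha'⟩ := ip_int hY.1 hΓ.1
  obtain ⟨δ, hδ⟩ := ip_int hX.1 hY.1
  obtain ⟨BB, hBB⟩ := exists_BB h.src h.ran
  have hort := ort h.src h.inj h.ran hBB hX hY
  set E : KW p k := (Nat.card (EG φ D f) : KW p k) with hE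
  set n : KW p k := (Fintype.card T : KW p k) with hn
  set w : KW p k := ip (rg p (ch χ.1)) (ch ξ.1) with hw
  have hR0 : (Nat.card R : KW p k) ≠ 0 := Nat.cast_ne_zero.2 Nat.card_pos.ne'
  set W : T → KW p k := fun u => (eQ φ D f (Subgroup.zpowers u) : KW p k) *
        Wf p (C1 (φ u)) (cut (C1 (φ u)) (BB (C1 (φ u))) (ch χ.1))
          (cut (C1 (φ u)) (BB (C1 (φ u))) (ch ξ.1)) (φ u) with hW
  -- the places in `R`
  have hWR : ∀ u ∈ R, W u = E * w := by
    intro u hu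
    have hH : C1 (φ u) = ⊤ := by
      refine top_unique fun x _ => ?_
      rw [mem_C1']
      exact h.cen u hu x
    obtain ⟨c, hc⟩ := exists_lbH h.src (phi_mem h u)
    have h1 : eQ φ D f (Subgroup.zpowers u) = Nat.card (EG φ D f) := by
      rw [(eQ_sup h.cen h.inj u).2]
      unfold st
      refine Nat.card_congr (Equiv.subtypeUnivEquiv fun α => ?_)
      exact al_fix h α.2 hu
    rw [hW]
    simp only
    rw [h1, Wf_top hH (fun x => cut_top hH h.src hc (hBB u c hc) hX x)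
      (fun x => cut_top hH h.src hc (hBB u c hc) hY x) (h.cen u hu) (χ.2.1 u hu)]
    intro x
    rw [← map_inv]
    exact ξ.2.1 _ (R.inv_mem hu) x
  -- the places outside `R`
  obtain ⟨ρ, hρ⟩ := sum_out (R := R) (F := fun v => n * W v
      - rwv φ G R (ch χ.1) v * rwv φ G R (ch ξ.1) v⁻¹) (c := (p : KW p k) * (Nat.card R : KW p k))
    (fun u hu => sum_loc h hT hBB hX.1 hY.1 hu)
  -- the rows
  obtain ⟨al, hal⟩ := pars_vir (gm_row H (ch_mem χ.1)) (gm_row H (ch_mem ξ.1))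
  have hcR : (Finset.univ.filter fun u : T => u ∈ R).card = Nat.card R := by
    rw [Nat.card_eq_fintype_card, Fintype.card_subtype]
  have hrow : ∑ v : T with v ∉ R, rwv φ G R (ch χ.1) v * rwv φ G R (ch ξ.1) v⁻¹
      = n * al - Nat.card R * (a * a') := by
    rw [← hal, ← Finset.sum_filter_add_sum_filter_not Finset.univ (fun u => u ∈ R)]
    have h1 : ∑ v : T with v ∈ R, rwv φ (upd G R (Gm ψ)) R (ch χ.1) v
        * rwv φ (upd G R (Gm ψ)) R (ch ξ.1) v⁻¹ = Nat.card R * (a * a') := by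
      rw [Finset.sum_congr rfl (g := fun _ => (a : KW p k) * a'), Finset.sum_const, hcR,
        nsmul_eq_mul]
      intro v hv
      have hv' := (Finset.mem_filter.1 hv).2
      rw [rwv_upd_mem h χ.2.1 hv', rwv_upd_mem h ξ.2.1 (R.inv_mem hv'), ha, ha']
    rw [h1, add_sub_cancel_left]
    refine Finset.sum_congr rfl fun v hv => ?_
    have hv' := (Finset.mem_filter.1 hv).2
    rw [rwv_upd_out hv', rwv_upd_out fun h1 => hv' ((Subgroup.inv_mem_iff R).1 h1)]
  have htot : n * (E * δ) = Nat.card R * (n * (E * w)) + (n * al - Nat.card R * (a * a'))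
      + (p : KW p k) * (Nat.card R : KW p k) * ρ := by
    rw [← hρ, Finset.sum_sub_distrib, hrow, ← hδ, ← hort, Finset.mul_sum,
      ← Finset.sum_filter_add_sum_filter_not Finset.univ (fun u => u ∈ R)]
    have h1 : ∑ v : T with v ∈ R, n * ((eQ φ D f (Subgroup.zpowers v) : KW p k) *
        Wf p (C1 (φ v)) (cut (C1 (φ v)) (BB (C1 (φ v))) (ch χ.1))
          (cut (C1 (φ v)) (BB (C1 (φ v))) (ch ξ.1)) (φ v)) = Nat.card R * (n * (E * w)) := by
      rw [Finset.sum_congr rfl (g := fun _ => n * (E * w)), Finset.sum_const, hcR, nsmul_eq_mul]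
      intro v hv
      exact congrArg _ (hWR v (Finset.mem_filter.1 hv).2)
    rw [h1]
    ring
  obtain ⟨τ, hτ⟩ := pR_dvd hT hRT
  have hnτ : n = Nat.card R * ((p : KW p k) * τ) := by
    rw [hn, hτ]
    push_cast
    ring
  have hfin : n * E * w = ((a * a' + p * (τ * Nat.card (EG φ D f) * δ - τ * al - ρ) : ℤ) : KW p k) := by
    refine mul_left_cancel₀ hR0 ?_
    have h1 : (Nat.card R : KW p k) * (n * E * w) = n * (E * δ) - (n * al - Nat.card R * (a * a'))
        - (p : KW p k) * (Nat.card R : KW p k) * ρ := by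
      rw [htot]
      ring
    rw [h1]
    push_cast
    rw [← hE]
    rw [hnτ]
    ring
  refine ⟨_, a, a', hfin, ha, ha', ?_⟩
  rw [add_sub_cancel_left]
  exact Dvd.intro _ rfl

theorem gm_cong (H : Inp φ b D f i R G B ψ) (hRT : R ≠ ⊤) {X Y : A → KW p k}
    (hX : X ∈ VA (p := p) b) (hY : Y ∈ VA (p := p) b) : ∃ m a a' : ℤ,
    (Fintype.card T : KW p k) * (Nat.card (EG φ D f) : KW p k) * ip (rg p X) Y = m ∧
      ip X (Gm ψ) = a ∧ ip Y (Gm ψ) = a' ∧ (p : ℤ) ∣ m - a * a' := by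
  have hΓ := gm_mem H
  obtain ⟨a, ha⟩ := ip_int hX.1 hΓ.1
  obtain ⟨a', ha'⟩ := ip_int hY.1 hΓ.1
  -- the characters with `R` in the kernel
  have h1 : ∀ (χ : IR φ R B) {Z : A → KW p k}, Z ∈ V (KW p k) A → ∃ j : ℤ,
      (Fintype.card T : KW p k) * (Nat.card (EG φ D f) : KW p k) * ip (rg p (ch χ.1)) Z
        - ip (ch χ.1) (Gm ψ) * ip Z (Gm ψ) = (p : KW p k) * j := by
    intro χ Z hZ
    refine stepb H (YGAux.ch_mem_VA H.cl χ.2.2) (fun ζ => ?_) hZ
    obtain ⟨m, c, c', hm, hc, hc', j, hj⟩ := cong_same H hRT χ ζ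
    refine ⟨j, ?_⟩
    rw [hm, hc, hc', ← Int.cast_natCast, ← Int.cast_mul, ← Int.cast_mul, ← Int.cast_sub, hj]
  obtain ⟨j, hj⟩ := stepb H hX (n := (Fintype.card T : KW p k) * (Nat.card (EG φ D f) : KW p k))
    (fun ζ => by
    obtain ⟨j, hj⟩ := h1 ζ hX.1
    refine ⟨j, ?_⟩
    rw [← hj, YGAux.ip_rg_comm X, mul_comm (ip X _)]) hY.1
  refine ⟨a * a' + p * j, a, a', ?_, ha, ha', ?_⟩
  · rw [ha, ha'] at hj
    push_cast
    linear_combination hj
  · rw [add_sub_cancel_left]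
    exact Dvd.intro _ rfl

end

end Pool.Agent.Lib.P0c8ca5.Ex
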