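import Mathlib
import Pool.Agent.Lib.P0c8ca5Ex.YH

/-!
# YUa: transport along an isomorphism of groups

`e : A' ≃* A`. `cm e : R[A] → R[A']` is the ring homomorphism with `(cm e a)(y) = a(e y)`. All
notions (`sm`, `ip`, `V`, `rg`, `CenL`, `lin`, `VA`) are compatible with `X ↦ X ∘ e`.
-/

set_option linter.unusedSectionVars false

namespace Pool.Agent.Lib.P0c8ca5.Ex

open MonoidAlgebra

section
variable {A A' : Type*} [Group A] [Group A']

/-- the pullback of the group algebra -/
noncomputable def cm {R : Type*} [CommRing R] (e : A' ≃* A) :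
    MonoidAlgebra R A →+* MonoidAlgebra R A' :=
  (MonoidAlgebra.domCongr R R e.symm).toRingEquiv.toRingHom

theorem coeff_cm {R : Type*} [CommRing R] (e : A' ≃* A) (a : MonoidAlgebra R A) (y : A') :
    (cm e a).coeff y = a.coeff (e y) := by
  change (MonoidAlgebra.domCongr R R e.symm a).coeff y = _
  rw [MonoidAlgebra.coeff_domCongr]
  rfl

theorem cm_single {R : Type*} [CommRing R] (e : A' ≃* A) (y : A') (r : R) :
    cm e (single (e y) r) = single y r := by
  classical
  ext z
  rw [coeff_cm, coeff_single, coeff_single, Finsupp.single_apply, Finsupp.single_apply]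
  by_cases h : y = z
  · rw [if_pos h, if_pos (congrArg e h)]
  · rw [if_neg h, if_neg (fun h' => h (e.injective h'))]

theorem cm_cm {R : Type*} [CommRing R] (e : A' ≃* A) (a : MonoidAlgebra R A') :
    cm e (cm e.symm a) = a := by
  ext y
  rw [coeff_cm, coeff_cm, MulEquiv.symm_apply_apply]

theorem cm_cm' {R : Type*} [CommRing R] (e : A' ≃* A) (a : MonoidAlgebra R A) :
    cm e.symm (cm e a) = a := by
  ext y
  rw [coeff_cm, coeff_cm, MulEquiv.apply_symm_apply]

theorem cm_map {R S : Type*} [CommRing R] [CommRing S] (g : R →+* S) (e : A' ≃* A)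
    (a : MonoidAlgebra R A) : mapRingHom A' g (cm e a) = cm e (mapRingHom A g a) := by
  ext y
  rw [coeff_cm, coeff_mapRingHom, coeff_mapRingHom, coeff_cm]

end

section
variable {K : Type*} [Field K] {A A' : Type*} [Group A] [Group A'] [Finite A] [Finite A']

theorem sm_me (e : A' ≃* A) (F : A → K) : sm (fun y => F (e y)) = sm F :=
  sm_equiv e.toEquiv F

theorem ip_me (e : A' ≃* A) (X Y : A → K) :
    ip (fun y => X (e y)) (fun y => Y (e y)) = ip X Y := by
  rw [ip, ip, Nat.card_congr e.toEquiv, ← sm_me e (fun x => X x * Y x⁻¹)]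
  congr 1
  refine sm_congr fun y => ?_
  rw [map_inv]

theorem preg_me {p : ℕ} (e : A' ≃* A) (y : A') : Preg p (e y) ↔ Preg p y := by
  unfold Preg
  rw [MulEquiv.orderOf_eq]

theorem rg_me [IsAlgClosed K] [CharZero K] {p : ℕ} (e : A' ≃* A) (X : A → K) :
    rg p (fun y => X (e y)) = fun y => rg p X (e y) := by
  funext y
  by_cases hy : Preg p y
  · rw [rg_of hy, rg_of ((preg_me e y).2 hy)]
  · rw [rg_not hy, rg_not fun h => hy ((preg_me e y).1 h)]

theorem V_me [IsAlgClosed K] [CharZero K] (e : A' ≃* A) {X : A → K} :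
    (fun y => X (e y)) ∈ V K A' ↔ X ∈ V K A := by
  constructor
  · intro h
    have h1 := V_comp e.symm.toMonoidHom h
    have h2 : (fun x => X (e (e.symm.toMonoidHom x))) = X := by
      funext x
      congr 1
      exact e.apply_symm_apply x
    rw [h2] at h1
    exact h1
  · exact V_comp e.toMonoidHom

end

section
variable {p : ℕ} [Fact p.Prime] {k : Type*} [Field k] [IsAlgClosed k] [CharP k p]
  {A A' : Type*} [Group A] [Group A'] [Finite A] [Finite A']

omit [Finite A] [Finite A'] in
theorem CenL.me {b : MonoidAlgebra k A} {B : MonoidAlgebra (OW p k) A} (h : CenL b B)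
    (e : A' ≃* A) : CenL (cm e b) (cm e B) := by
  refine ⟨by rw [← map_mul, h.idem], fun x => ?_, by rw [cm_map, h.red]⟩
  rw [← cm_cm e x, ← map_mul, h.cen, map_mul]

theorem lin_me (e : A' ≃* A) (X : A → KW p k) (a : MonoidAlgebra (OW p k) A) :
    lin (fun y => X (e y)) (cm e a) = lin X a := by
  rw [lin, lin, ← sm_me e]
  refine sm_congr fun y => ?_
  rw [coeff_cm]

/-- the generalized characters in the block `b` by the central lift -/
theorem VA_iff' {b : MonoidAlgebra k A} {X : A → KW p k} : X ∈ VA (p := p) b ↔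
    X ∈ V (KW p k) A ∧ ∀ B : MonoidAlgebra (OW p k) A, CenL b B → ∀ x,
      lin X (single x 1 * B) = X x := by
  classical
  constructor
  · rintro ⟨hX, h⟩
    refine ⟨hX, fun B hB x => ?_⟩
    rw [YHAux.lin_V hX, (V_expand hX).2 x]
    refine Finset.sum_congr rfl fun χ _ => ?_
    by_cases hχ : chO χ B = 0
    · rw [h B hB χ hχ, zero_mul, zero_mul]
    · rw [hB.chO_in hχ, YHAux.chO_ch]
  · rintro ⟨hX, h⟩
    refine ⟨hX, fun B hB ξ hξ => ?_⟩
    have h1 : X = fun x => ∑ χ : Ir (KW p k) A,
        ((if chO χ B = 0 then 0 else ip X (ch χ)) • ch χ) x := by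
      funext x
      rw [← h B hB x, YHAux.lin_V hX]
      refine Finset.sum_congr rfl fun χ _ => ?_
      by_cases hχ : chO χ B = 0
      · rw [if_pos hχ, zero_smul, Pi.zero_apply,
          hB.chO_out hχ (x := single x 1 * B) (by rw [mul_assoc, hB.idem]), mul_zero]
      · rw [if_neg hχ, Pi.smul_apply, smul_eq_mul, hB.chO_in hχ, YHAux.chO_ch]
    have h2 : ip X (ch ξ) = ∑ χ : Ir (KW p k) A,
        (if chO χ B = 0 then 0 else ip X (ch χ)) * ip (ch χ) (ch ξ) := by
      conv_lhs => rw [h1]
      rw [ip_sum]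
      exact Finset.sum_congr rfl fun χ _ => ip_smul _ _ _
    rw [h2]
    refine Finset.sum_eq_zero fun χ _ => ?_
    by_cases hχ : chO χ B = 0
    · rw [if_pos hχ, zero_mul]
    · rw [if_neg hχ, ip_ch, if_neg (fun h' => hχ (by rw [h', hξ])), mul_zero]

theorem VA_me (e : A' ≃* A) {b : MonoidAlgebra k A} {X : A → KW p k} :
    (fun y => X (e y)) ∈ VA (p := p) (cm e b) ↔ X ∈ VA (p := p) b := by
  have key : ∀ {A A' : Type _} [Group A] [Group A'] [Finite A] [Finite A'] (e : A' ≃* A)
      {b : MonoidAlgebra k A} {X : A → KW p k}, X ∈ VA (p := p) b →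
      (fun y => X (e y)) ∈ VA (p := p) (cm e b) := by
    intro A A' _ _ _ _ e b X h
    rw [VA_iff'] at h ⊢
    refine ⟨(V_me e).2 h.1, fun B hB y => ?_⟩
    have h1 : CenL b (cm e.symm B) := by
      have h2 := hB.me e.symm
      rwa [cm_cm'] at h2
    have h3 := h.2 _ h1 (e y)
    rw [← h3, ← lin_me e, map_mul, cm_single, cm_cm]
  constructor
  · intro h
    rw [VA_iff'] at h ⊢
    refine ⟨(V_me e).1 h.1, fun B hB x => ?_⟩
    have h3 := h.2 _ (hB.me e) (e.symm x)
    rw [MulEquiv.apply_symm_apply] at h3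
    rw [← h3, ← lin_me e, map_mul]
    congr 2
    conv_lhs => rw [← e.apply_symm_apply x]
    rw [cm_single]
  · exact key e

end

end Pool.Agent.Lib.P0c8ca5.Ex
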