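import Mathlib
import Pool.Agent.Lib.P0c8ca5Ex.YUa
import Pool.Agent.Lib.P0c8ca5Ex.YTd
import Pool.Agent.Lib.P0c8ca5Ex.NS

/-!
# YUb: the structure `GOK` and the centralizer of `φ Q`

`H = cq φ Q`, `φ' : T → ↥H`, `D' = D.subgroupOf H`, `f' = dnr H f`, `i' = dnr H i`.
-/

set_option linter.unusedSectionVars false

namespace Pool.Agent.Lib.P0c8ca5.Ex

open MonoidAlgebra LocAux

namespace YuAux

section
variable {A : Type*} [Group A] {T : Type*} [CommGroup T]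
  {φ : T →* A} {H : Subgroup A} {φ' : T →* ↥H}

theorem mem_cq' (hφ' : ∀ t, (φ' t : A) = φ t) {Q' : Subgroup T} {x : ↥H} :
    x ∈ cq φ' Q' ↔ (x : A) ∈ cq φ Q' := by
  rw [cq, cq, Subgroup.mem_centralizer_iff, Subgroup.mem_centralizer_iff]
  constructor
  · rintro h _ ⟨t, ht, rfl⟩
    have h1 := congrArg Subtype.val (h (φ' t) ⟨t, ht, rfl⟩)
    change (φ' t : A) * (x : A) = (x : A) * (φ' t : A) at h1
    rwa [hφ'] at h1
  · rintro h _ ⟨t, ht, rfl⟩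
    apply Subtype.ext
    change (φ' t : A) * (x : A) = (x : A) * (φ' t : A)
    rw [hφ']
    exact h _ ⟨t, ht, rfl⟩

/-- the centralizers of `φ' Q'` and `φ Q'` -/
def eC (hφ' : ∀ t, (φ' t : A) = φ t) {Q' : Subgroup T} (hle : cq φ Q' ≤ H) :
    ↥(cq φ' Q') ≃* ↥(cq φ Q') where
  toFun y := ⟨((y : ↥H) : A), (mem_cq' hφ').1 y.2⟩
  invFun x := ⟨⟨(x : A), hle x.2⟩, (mem_cq' hφ').2 x.2⟩
  left_inv _ := rfl
  right_inv _ := rfl
  map_mul' _ _ := rfl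

theorem coe_eC (hφ' : ∀ t, (φ' t : A) = φ t) {Q' : Subgroup T} (hle : cq φ Q' ≤ H)
    (y : ↥(cq φ' Q')) : ((eC hφ' hle y : ↥(cq φ Q')) : A) = ((y : ↥H) : A) := rfl

theorem cq_anti (φ : T →* A) {Q Q' : Subgroup T} (h : Q ≤ Q') : cq φ Q' ≤ cq φ Q :=
  Subgroup.centralizer_le (Set.image_mono h)

theorem cq_sub (hφ' : ∀ t, (φ' t : A) = φ t) (Q' : Subgroup T) :
    cq φ' Q' = (cq φ Q').subgroupOf H := by
  ext x
  rw [mem_cq' hφ', Subgroup.mem_subgroupOf]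

section
variable {k : Type*} [Field k]

theorem dnr_dnr (hφ' : ∀ t, (φ' t : A) = φ t) {Q' : Subgroup T} (hle : cq φ Q' ≤ H)
    (c : MonoidAlgebra k A) :
    cm (eC hφ' hle) (dnr (cq φ Q') c) = dnr (cq φ' Q') (dnr H c) := by
  ext y
  rw [coeff_cm, coeff_dnr, coeff_dnr, coeff_dnr, coe_eC]

theorem resS_sub (L : Subgroup A) (a : MonoidAlgebra k A) :
    resS ((L.subgroupOf H : Subgroup ↥H) : Set ↥H) (dnr H a) = dnr H (resS (L : Set A) a) := by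
  ext x
  rw [coeff_dnr]
  by_cases hx : (x : A) ∈ L
  · have h1 : x ∈ ((L.subgroupOf H : Subgroup ↥H) : Set ↥H) := Subgroup.mem_subgroupOf.2 hx
    have h2 : (x : A) ∈ (L : Set A) := hx
    rw [coeff_resS_of_mem _ h1, coeff_resS_of_mem _ h2, coeff_dnr]
  · have h1 : x ∉ ((L.subgroupOf H : Subgroup ↥H) : Set ↥H) := fun h =>
      hx (Subgroup.mem_subgroupOf.1 h)
    have h2 : (x : A) ∉ (L : Set A) := hx
    rw [coeff_resS_of_notMem _ h1, coeff_resS_of_notMem _ h2]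

/-- the local blocks correspond -/
theorem lbH_sub (hφ' : ∀ t, (φ' t : A) = φ t) {Q' : Subgroup T} (hle : cq φ Q' ≤ H)
    {i c : MonoidAlgebra k A} (h : LbH (cq φ Q') i c) : LbH (cq φ' Q') (dnr H i) (dnr H c) := by
  have key : ∀ L : Subgroup ↥H, L = (cq φ Q').subgroupOf H → LbH L (dnr H i) (dnr H c) := by
    rintro L rfl
    refine ⟨isBlock_dn hle h.blk, ?_⟩
    rw [resS_sub]
    have h1 : SuppIn H (resS (cq φ Q' : Set A) i) := (resS_sp _ _).mono hle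
    have h2 : SuppIn H c := h.blk.suppIn.mono hle
    have h3 := dn_mul h1 h2
    rw [h.ic] at h3
    exact h3.symm
  exact key _ (cq_sub hφ' Q')

/-- the stabilizers correspond -/
theorem st_down {D : Subgroup A} {f : MonoidAlgebra k A} {g : A} (hg : g ∈ St D f) (hgH : g ∈ H) :
    (⟨g, hgH⟩ : ↥H) ∈ St (D.subgroupOf H) (dnr H f) := by
  obtain ⟨h1, h2⟩ := mem_St.1 hg
  refine mem_St.2 ⟨?_, ?_⟩
  · rw [Subgroup.mem_normalizer_iff] at h1 ⊢
    intro x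
    rw [Subgroup.mem_subgroupOf, Subgroup.mem_subgroupOf]
    exact h1 (x : A)
  · ext x
    have h3 : (cj (⟨g, hgH⟩ : ↥H) (dnr H f)).coeff x = (cj g f).coeff (x : A) := by
      rw [coeff_cj, coeff_cj, coeff_dnr]
      rfl
    rw [h3, h2, coeff_dnr]

theorem mem_EG_sub (hφ' : ∀ t, (φ' t : A) = φ t) {D : Subgroup A} (hD : D ≤ H)
    {f : MonoidAlgebra k A} (hf : SuppIn H f) {α : MulAut T}
    (hα : α ∈ EG φ' (D.subgroupOf H) (dnr H f)) : α ∈ EG φ D f := by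
  obtain ⟨g, hg, h1⟩ := hα
  refine ⟨g, st_up hD hf hg, fun t => ?_⟩
  have h2 := congrArg Subtype.val (h1 t)
  change (φ' (α t) : A) = (g : A) * (φ' t : A) * (g : A)⁻¹ at h2
  rwa [hφ', hφ'] at h2

theorem mem_EG_down {Q : Subgroup T} {φ' : T →* ↥(cq φ Q)} (hφ' : ∀ t, (φ' t : A) = φ t)
    {D : Subgroup A} {f : MonoidAlgebra k A} {α : MulAut T} (hα : α ∈ EG φ D f)
    (hfix : ∀ t ∈ Q, α t = t) :
    α ∈ EG φ' (D.subgroupOf (cq φ Q)) (dnr (cq φ Q) f) := by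
  obtain ⟨g, hg, h1⟩ := hα
  have hgH : g ∈ cq φ Q := by
    rw [cq, Subgroup.mem_centralizer_iff]
    rintro _ ⟨t, ht, rfl⟩
    have h2 := h1 t
    rw [hfix t ht, eq_mul_inv_iff_mul_eq] at h2
    exact h2
  refine ⟨⟨g, hgH⟩, st_down hg hgH, fun t => ?_⟩
  apply Subtype.ext
  change (φ' (α t) : A) = g * (φ' t : A) * g⁻¹
  rw [hφ', hφ']
  exact h1 t

end

end

section
variable {p : ℕ} [Fact p.Prime] {k : Type*} [Field k] [IsAlgClosed k] [CharP k p]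
  {A : Type*} [Group A] [Finite A] {T : Type*} [CommGroup T] [Fintype T]
  {φ : T →* A} {b f i : MonoidAlgebra k A} {D : Subgroup A} {Q : Subgroup T}

theorem map_le_D (hr : ∀ x, x ∈ D ↔ ∃ t, φ t = x) (Q : Subgroup T) : Q.map φ ≤ D := by
  rintro _ ⟨t, -, rfl⟩
  exact (hr _).2 ⟨t, rfl⟩

theorem D_le_cq (h : Src p b D f i) (hr : ∀ x, x ∈ D ↔ ∃ t, φ t = x) (Q : Subgroup T) :
    D ≤ cq φ Q := SrcAux.D_le_CQ (map_le_D hr Q) h.root.com

theorem supp_f (h : Src p b D f i) (hr : ∀ x, x ∈ D ↔ ∃ t, φ t = x) (Q : Subgroup T) :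
    SuppIn (cq φ Q) f := h.root.fblk.suppIn.mono (Subgroup.centralizer_le (map_le_D hr Q))

theorem src_sub (h : Src p b D f i) (hr : ∀ x, x ∈ D ↔ ∃ t, φ t = x) {c : MonoidAlgebra k A}
    (hc : LbH (cq φ Q) i c) : Src p (dnr (cq φ Q) c) (D.subgroupOf (cq φ Q)) (dnr (cq φ Q) f)
      (dnr (cq φ Q) i) := by
  have h1 := Lb.src h (map_le_D hr Q) (hc.toLb rfl)
  have h2 : dn (CD (Q.map φ)) (resS (CD (Q.map φ) : Set A) i) = dnr (CD (Q.map φ)) i :=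
    dnr_resS' _ _
  rw [h2] at h1
  exact h1

theorem ran_sub {φ' : T →* ↥(cq φ Q)} (hφ' : ∀ t, (φ' t : A) = φ t)
    (hr : ∀ x, x ∈ D ↔ ∃ t, φ t = x) (x : ↥(cq φ Q)) :
    x ∈ D.subgroupOf (cq φ Q) ↔ ∃ t, φ' t = x := by
  rw [Subgroup.mem_subgroupOf, hr]
  constructor
  · rintro ⟨t, ht⟩
    exact ⟨t, Subtype.ext ((hφ' t).trans ht)⟩
  · rintro ⟨t, rfl⟩
    exact ⟨t, (hφ' t).symm⟩

theorem eQ_sub (h : Src p b D f i) (hr : ∀ x, x ∈ D ↔ ∃ t, φ t = x) {φ' : T →* ↥(cq φ Q)}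
    (hφ' : ∀ t, (φ' t : A) = φ t) {Q' : Subgroup T} (hQ : Q ≤ Q') :
    eQ φ' (D.subgroupOf (cq φ Q)) (dnr (cq φ Q) f) Q' = eQ φ D f Q' := by
  rw [eQ, eQ]
  refine Nat.card_congr (((Equiv.subtypeSubtypeEquivSubtypeInter
    (fun α : MulAut T => α ∈ EG φ' (D.subgroupOf (cq φ Q)) (dnr (cq φ Q) f))
    (fun α : MulAut T => ∀ t ∈ Q', α t = t)).trans (Equiv.subtypeEquivRight fun α => ?_)).trans
    (Equiv.subtypeSubtypeEquivSubtypeInter (fun α : MulAut T => α ∈ EG φ D f)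
    (fun α : MulAut T => ∀ t ∈ Q', α t = t)).symm)
  constructor
  · rintro ⟨h1, h2⟩
    exact ⟨mem_EG_sub hφ' (D_le_cq h hr Q) (supp_f h hr Q) h1, h2⟩
  · rintro ⟨h1, h2⟩
    exact ⟨mem_EG_down hφ' h1 fun t ht => h2 t (hQ ht), h2⟩

theorem rwv_sub {φ' : T →* ↥(cq φ Q)} (hφ' : ∀ t, (φ' t : A) = φ t) {Q' : Subgroup T}
    (hQ : Q ≤ Q') {F : Subgroup T → A → KW p k}
    (hs : ∀ Q'', Q' ≤ Q'' → ∀ x, x ∉ cq φ Q'' → F Q'' x = 0) (X : A → KW p k) :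
    rwv φ' (fun Q'' (y : ↥(cq φ Q)) => F Q'' (y : A)) Q' (fun y : ↥(cq φ Q) => X (y : A))
      = rwv φ F Q' X := by
  funext u
  have hle : cq φ (Q' ⊔ Subgroup.zpowers u) ≤ cq φ Q := cq_anti φ (hQ.trans le_sup_left)
  rw [rwv, rwv, Nat.card_congr (eC hφ' hle).toEquiv]
  congr 1
  rw [sm_sub (cq φ Q) (F := fun y => X (φ u * y) * F (Q' ⊔ Subgroup.zpowers u) y⁻¹)]
  · refine sm_congr fun y => ?_
    have h1 : ((φ' u * y : ↥(cq φ Q)) : A) = φ u * (y : A) := by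
      rw [Subgroup.coe_mul, hφ']
    change X ((φ' u * y : ↥(cq φ Q)) : A) * F (Q' ⊔ Subgroup.zpowers u) ((y⁻¹ : ↥(cq φ Q)) : A) = _
    rw [h1, Subgroup.coe_inv]
  · intro x hx
    rw [hs _ le_sup_left x⁻¹ (fun h1 => hx (hle ((Subgroup.inv_mem_iff _).1 h1))), mul_zero]

/-- **`GOK` in the centralizer** -/
theorem gok_sub (h : Src p b D f i) (hr : ∀ x, x ∈ D ↔ ∃ t, φ t = x) {φ' : T →* ↥(cq φ Q)}
    (hφ' : ∀ t, (φ' t : A) = φ t) {Q' : Subgroup T} (hQ : Q ≤ Q') {F : Subgroup T → A → KW p k}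
    (hs : ∀ Q'', Q' ≤ Q'' → ∀ x, x ∉ cq φ Q'' → F Q'' x = 0) :
    GOK φ D f i F Q' ↔ GOK φ' (D.subgroupOf (cq φ Q)) (dnr (cq φ Q) f) (dnr (cq φ Q) i)
      (fun Q'' (y : ↥(cq φ Q)) => F Q'' (y : A)) Q' := by
  have hle : cq φ Q' ≤ cq φ Q := cq_anti φ hQ
  set e := eC hφ' hle with he
  obtain ⟨c, hc⟩ := exists_lb h (map_le_D hr Q)
  have hsrc := src_sub h hr (hc.toH rfl)
  obtain ⟨c0, hc0⟩ := exists_lb h (map_le_D hr Q')
  have hc0 : LbH (cq φ Q') i c0 := hc0.toH rfl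
  have hc0' := lbH_sub hφ' hle hc0
  -- uniqueness of the local blocks
  have hu : ∀ c, LbH (cq φ Q') i c → c = c0 := fun c hc =>
    Lb.unique h (map_le_D hr Q') (hc.toLb rfl) (hc0.toLb rfl)
  have hu' : ∀ c', LbH (cq φ' Q') (dnr (cq φ Q) i) c' → c' = dnr (cq φ Q) c0 := fun c' hc' =>
    Lb.unique hsrc (map_le_D (ran_sub hφ' hr) Q') (hc'.toLb rfl) (hc0'.toLb rfl)
  have hdd : cm e (dnr (cq φ Q') c0) = dnr (cq φ' Q') (dnr (cq φ Q) c0) := dnr_dnr hφ' hle c0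
  have heQ := eQ_sub h hr hφ' hQ
  have hon : ∀ X : A → KW p k, on (cq φ' Q') (fun y : ↥(cq φ Q) => X (y : A))
      = fun y => on (cq φ Q') X (e y) := fun X => rfl
  have hip : ∀ X Y : ↥(cq φ Q') → KW p k, ip (fun y => X (e y)) (fun y => Y (e y)) = ip X Y :=
    fun X Y => ip_me e X Y
  constructor
  · intro hG
    refine ⟨fun x hx => hG.sup _ fun h1 => hx ((mem_cq' hφ').2 h1), fun c' hc' => ?_,
      fun x hx => hG.reg _ fun h1 => hx ((FIAux.preg_coe' x).1 h1), ?_, fun X' hX' => ?_,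
      fun c' hc' X' hX' Y' hY' => ?_⟩
    · rw [hu' c' hc', ← hdd, hon, VA_me]
      exact hG.blk c0 hc0
    · rw [hon, hip, heQ]
      exact hG.nrm
    · classical
      -- extension by zero
      let X : A → KW p k := fun x => if hx : x ∈ cq φ Q then X' ⟨x, hx⟩ else 0
      have hX : (fun y : ↥(cq φ Q) => X (y : A)) = X' := by
        funext y
        exact dif_pos y.2
      rw [← hX] at hX' ⊢
      rw [rwv_sub hφ' hQ hs X]
      rw [hon] at hX'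
      exact hG.row X ((V_me e).1 hX')
    · have hex : ∀ X' : ↥(cq φ' Q') → KW p k, ∃ X : ↥(cq φ Q') → KW p k, X' = fun y => X (e y) :=
        fun X' => ⟨fun x => X' (e.symm x), by
          funext y
          exact congrArg X' (e.symm_apply_apply y).symm⟩
      obtain ⟨X, rfl⟩ := hex X'
      obtain ⟨Y, rfl⟩ := hex Y'
      rw [hu' c' hc', ← hdd] at hX' hY'
      obtain ⟨m, a, a', h1, h2, h3, h4⟩ := hG.cong c0 hc0 _ ((VA_me e).1 hX') _ ((VA_me e).1 hY')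
      refine ⟨m, a, a', ?_, ?_, ?_, h4⟩
      · rw [rg_me, hip, heQ]
        exact h1
      · rw [hon, hip]
        exact h2
      · rw [hon, hip]
        exact h3
  · intro hG
    refine ⟨hs Q' le_rfl, fun c hc => ?_, fun x hx => ?_, ?_, fun X hX => ?_,
      fun c hc X hX Y hY => ?_⟩
    · have h1 := hG.blk _ hc0'
      rw [← hdd, hon, VA_me] at h1
      rw [hu c hc]
      exact h1
    · by_cases hxC : x ∈ cq φ Q'
      · exact hG.reg ⟨x, hle hxC⟩ fun h1 => hx ((FIAux.preg_coe' (⟨x, hle hxC⟩ : ↥(cq φ Q))).2 h1)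
      · exact hs Q' le_rfl x hxC
    · have h1 := hG.nrm
      rw [hon, hip, heQ] at h1
      exact h1
    · rw [← rwv_sub hφ' hQ hs X]
      refine hG.row _ ?_
      rw [hon]
      exact (V_me e).2 hX
    · rw [hu c hc] at hX hY
      obtain ⟨m, a, a', h1, h2, h3, h4⟩ := hG.cong _ hc0' (fun y => X (e y))
        (by rw [← hdd]; exact (VA_me e).2 hX) (fun y => Y (e y))
        (by rw [← hdd]; exact (VA_me e).2 hY)
      refine ⟨m, a, a', ?_, ?_, ?_, h4⟩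
      · rw [rg_me, hip, heQ] at h1
        exact h1
      · rw [hon, hip] at h2
        exact h2
      · rw [hon, hip] at h3
        exact h3

end

end YuAux

end Pool.Agent.Lib.P0c8ca5.Ex
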