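import Mathlib
import Pool.Agent.Lib.P0c8ca5Ex.YT
import Pool.Agent.Lib.P0c8ca5Ex.YUb

/-!
# YU: transport to the centralizer

`Q ≤ T`, `H = C(φ Q)`, `LbH H i c`. The group `A' = ↥H` with `φ' : T → A'` (`D ≤ H` as `D` is abelian), `b' = dnr H c`, `D' = D.subgroupOf H`,
`f' = dnr H f`, and a primitive idempotent `i'` of the fixed points of `D'` with `upr H i' ≤ resS H i` and nonzero
Brauer image (library: `exists_src..` for the local blocks, Tn / Loc / Src / GI.st_loc_reg) satisfy `Src p b' D' f' i'`. `φ Q` is central in `A'`.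

* `gok_down`: for `Q' ≥ Q`: `GOK φ D f i G Q' ↔ GOK φ' D' f' i' G' Q'`, `G' Q' y = G Q' (y : A)`, if `G Q''` is supported on
  `cq φ Q''` for all `Q'' ≥ Q`. `cq φ' Q' = (cq φ Q').subgroupOf H ≅ cq φ Q'`; the blocks correspond (`resS (cq φ Q') i' * c' = resS i'` if
  `c'` is the block of `cq φ Q'` with `resS i * c' = resS i`); `eQ φ' D' f' Q' = eQ φ D f Q'` (`St D' f' = St D f ⊓ H`, and an element of
  `EG φ D f` that fixes `Q'` comes from `C(φ Q')`); `rwv φ G Q' X u = rwv φ' G' Q' (X on H) u`.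
* `eqG_down`.
* `unique_at`: from `step` (YX) for `A'` and `R = Q`.
-/

set_option linter.unusedSectionVars false

namespace Pool.Agent.Lib.P0c8ca5.Ex

open MonoidAlgebra LocAux YuAux

section
variable {p : ℕ} [Fact p.Prime] {k : Type*} [Field k] [IsAlgClosed k] [CharP k p]
  {A : Type*} [Group A] [Finite A] {T : Type*} [CommGroup T] [Fintype T]
  {φ : T →* A} {b f i : MonoidAlgebra k A} {D : Subgroup A} {Q : Subgroup T}
  {G : Subgroup T → A → KW p k}

/-- **transport**: the input of the step for the group `C(φ Q)` -/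
theorem stp_down (h : Src p b D f i) (hφ : Function.Injective φ)
    (hr : ∀ x, x ∈ D ↔ ∃ t, φ t = x) (hG : ∀ Q', Q < Q' → GOK φ D f i G Q')
    (he : EqG φ D f G fun Q' => Q < Q') :
    ∃ (c : MonoidAlgebra k A) (φ' : T →* ↥(cq φ Q)) (i' : MonoidAlgebra k ↥(cq φ Q)),
      LbH (cq φ Q) i c ∧ (∀ t, (φ' t : A) = φ t) ∧
      Stp φ' (dnr (cq φ Q) c) (D.subgroupOf (cq φ Q)) (dnr (cq φ Q) f) i' Q
        (fun Q' y => G Q' (y : A)) ∧
      eN (D.subgroupOf (cq φ Q)) (dnr (cq φ Q) f) ≤ eN D f ∧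
      (∀ g : A → KW p k, (∀ x, x ∉ cq φ Q → g x = 0) →
        (GOK φ D f i (upd G Q g) Q ↔
          GOK φ' (D.subgroupOf (cq φ Q)) (dnr (cq φ Q) f) i'
            (upd (fun Q' (y : ↥(cq φ Q)) => G Q' (y : A)) Q (fun y => g (y : A))) Q)) := by
  classical
  obtain ⟨c, hc⟩ := exists_lb h (map_le_D hr Q)
  have hc : LbH (cq φ Q) i c := hc.toH rfl
  have hmem : ∀ t, φ t ∈ cq φ Q := fun t => D_le_cq h hr Q ((hr _).2 ⟨t, rfl⟩)
  let φ' : T →* ↥(cq φ Q) := φ.codRestrict (cq φ Q) hmem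
  have hφ' : ∀ t, (φ' t : A) = φ t := fun t => rfl
  have hsrc := src_sub h hr hc
  have hinj : Function.Injective φ' := fun s t hst => hφ (congrArg Subtype.val hst)
  have hran := ran_sub hφ' hr
  have hle : EG φ' (D.subgroupOf (cq φ Q)) (dnr (cq φ Q) f) ≤ EG φ D f := fun α hα =>
    mem_EG_sub hφ' (D_le_cq h hr Q) (supp_f h hr Q) hα
  refine ⟨c, φ', dnr (cq φ Q) i, hc, hφ', ⟨hsrc, hinj, hran, ?_, ?_, ?_⟩, ?_, ?_⟩
  · intro z hz a
    apply Subtype.ext
    exact Subgroup.mem_centralizer_iff.1 a.2 (φ z) ⟨z, hz, rfl⟩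
  · intro Q' hQ'
    exact (gok_sub h hr hφ' hQ'.le fun Q'' hQ'' => (hG Q'' (hQ'.trans_le hQ'')).sup).1 (hG Q' hQ')
  · intro g hg α hα Q' hQ' y
    refine he (g : A) (st_up (D_le_cq h hr Q) (supp_f h hr Q) hg) α (fun t => ?_) Q' hQ' (y : A)
    exact congrArg Subtype.val (hα t)
  · rw [← card_EG hinj hran, ← card_EG hφ hr]
    have := finite_EG (φ := φ) (D := D) (f := f)
    exact Subgroup.card_le_of_le hle
  · intro g hg
    have h1 : upd (fun Q' (y : ↥(cq φ Q)) => G Q' (y : A)) Q (fun y : ↥(cq φ Q) => g (y : A))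
        = fun Q'' (y : ↥(cq φ Q)) => upd G Q g Q'' (y : A) := by
      funext Q'' y
      by_cases hQ'' : Q'' = Q
      · rw [hQ'', upd_self, upd_self]
      · rw [upd_ne _ _ hQ'', upd_ne _ _ hQ'']
    rw [h1]
    refine gok_sub h hr hφ' le_rfl fun Q'' hQ'' => ?_
    by_cases h2 : Q'' = Q
    · rw [h2, upd_self]
      exact hg
    · rw [upd_ne _ _ h2]
      exact (hG Q'' (lt_of_le_of_ne hQ'' (Ne.symm h2))).sup

end

end Pool.Agent.Lib.P0c8ca5.Ex
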