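import Mathlib
import Pool.Agent.Lib.P0c8ca5Ex.YC
import Pool.Agent.Lib.P0c8ca5Ex.YUa

/-!
# YV: conjugation

`g ∈ St D f`, `α` the automorphism of `T` with `φ (α t) = g φ(t) g⁻¹`, `Q' = α Q`. If `G Q'` is a virtual regular character of the block of
`C(Q')` then so is `y ↦ G Q' (g y g⁻¹)` for `Q`.

* `gok_congr`: `GOK` at `Q` depends only on `G Q'`, `Q' ≥ Q`.
* `gok_conj`: PROOF. `y ↦ g y g⁻¹` is an isomorphism `cq φ Q ≅ cq φ (α Q)`; it respects `V`, `ip`, `Preg`, `rg`; blocks: `LbH (cq φ Q) i c`,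
  `LbH (cq φ (α Q)) i c'` give `cj g c = c'` (`cj_lb` for elements; in general both satisfy `resS (CD D) c * f = f`, which determines the block; or: `cj g c` and
  `c'` are blocks of `cq φ (α Q)`, `resS (CD D) (cj g c) * f = cj g (resS (CD D) c * f) = f`, and `resS (CD D) (cj g c * c') f = f ≠ 0`); so `VA` corresponds;
  `eQ φ D f (α Q) = eQ φ D f Q` (conjugate by `α`, `α ∈ EG φ D f`); `rwv φ G' Q X u = rwv φ G (α Q) X' (α u)` with `X' x = X (g⁻¹ x g)`, as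
  `(Q ⊔ ⟨u⟩).map α = Q.map α ⊔ ⟨α u⟩`, and `vir T` is invariant under `α`.
-/

set_option linter.unusedSectionVars false

namespace Pool.Agent.Lib.P0c8ca5.Ex

open MonoidAlgebra

section
variable {p : ℕ} [Fact p.Prime] {k : Type*} [Field k] [IsAlgClosed k] [CharP k p]
  {A : Type*} [Group A] [Finite A] {T : Type*} [CommGroup T] [Fintype T]
  {φ : T →* A} {b f i : MonoidAlgebra k A} {D : Subgroup A} {Q : Subgroup T}
  {G G' : Subgroup T → A → KW p k}

omit [Fact p.Prime] [IsAlgClosed k] [CharP k p] in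
theorem rwv_congr {K : Type*} [Field K] {G G' : Subgroup T → A → K}
    (hG : ∀ Q', Q ≤ Q' → G Q' = G' Q') (X : A → K) : rwv φ G Q X = rwv φ G' Q X := by
  funext u
  unfold rwv
  rw [hG _ le_sup_left]

theorem gok_congr (hG : ∀ Q', Q ≤ Q' → G Q' = G' Q') (h : GOK φ D f i G Q) :
    GOK φ D f i G' Q := by
  have h0 := hG Q le_rfl
  refine ⟨?_, ?_, ?_, ?_, ?_, ?_⟩
  · rw [← h0]
    exact h.sup
  · rw [← h0]
    exact h.blk
  · rw [← h0]
    exact h.reg
  · rw [← h0]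
    exact h.nrm
  · intro X hX
    rw [← rwv_congr hG X]
    exact h.row X hX
  · rw [← h0]
    exact h.cong

/-- conjugation by `g` as an isomorphism of subgroups -/
def cje (g : A) {H H' : Subgroup A} (hH : ∀ x, x ∈ H ↔ g * x * g⁻¹ ∈ H') : ↥H ≃* ↥H' where
  toFun y := ⟨g * y * g⁻¹, (hH _).1 y.2⟩
  invFun y := ⟨g⁻¹ * y * g, (hH _).2 (by
    have h1 : g * (g⁻¹ * (y : A) * g) * g⁻¹ = y := by group
    rw [h1]
    exact y.2)⟩
  left_inv y := Subtype.ext (by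
    change g⁻¹ * (g * (y : A) * g⁻¹) * g = y
    group)
  right_inv y := Subtype.ext (by
    change g * (g⁻¹ * (y : A) * g) * g⁻¹ = y
    group)
  map_mul' y z := Subtype.ext (by
    change g * ((y : A) * z) * g⁻¹ = g * y * g⁻¹ * (g * z * g⁻¹)
    group)

theorem coe_cje (g : A) {H H' : Subgroup A} (hH : ∀ x, x ∈ H ↔ g * x * g⁻¹ ∈ H') (y : ↥H) :
    (cje g hH y : A) = g * y * g⁻¹ := rfl

theorem map_cg {g : A} {α : MulAut T} (hα : ∀ t, φ (α t) = g * φ t * g⁻¹) (Q : Subgroup T) :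
    (Q.map α.toMonoidHom).map φ = cg g (Q.map φ) := by
  ext x
  rw [mem_cg]
  constructor
  · rintro ⟨_, ⟨t, ht, rfl⟩, rfl⟩
    refine ⟨t, ht, ?_⟩
    have h1 : φ (α.toMonoidHom t) = g * φ t * g⁻¹ := hα t
    rw [h1]
    group
  · rintro ⟨t, ht, h⟩
    refine ⟨α t, ⟨t, ht, rfl⟩, ?_⟩
    rw [hα, h]
    group

theorem mem_cq_conj {g : A} {α : MulAut T} (hα : ∀ t, φ (α t) = g * φ t * g⁻¹)
    (Q : Subgroup T) (x : A) : x ∈ cq φ Q ↔ g * x * g⁻¹ ∈ cq φ (Q.map α.toMonoidHom) := by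
  have h1 : cq φ (Q.map α.toMonoidHom) = cg g (cq φ Q) := by
    change CD _ = cg g (CD _)
    rw [map_cg hα, FuAux.cg_CD]
  rw [h1, mem_cg]
  have h2 : g⁻¹ * (g * x * g⁻¹) * g = x := by group
  rw [h2]

theorem eQ_conj {g : A} (hg : g ∈ St D f) {α : MulAut T} (hα : ∀ t, φ (α t) = g * φ t * g⁻¹)
    (Q : Subgroup T) : eQ φ D f (Q.map α.toMonoidHom) = eQ φ D f Q := by
  let a : ↥(EG φ D f) := ⟨α, g, hg, hα⟩
  unfold eQ
  symm
  refine Nat.card_congr (Equiv.subtypeEquiv (MulAut.conj a).toEquiv fun β => ?_)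
  have key : ∀ t, (((MulAut.conj a).toEquiv β : ↥(EG φ D f)) : MulAut T) (α t) =
      α ((β : MulAut T) t) := by
    intro t
    change (α * (β : MulAut T) * α⁻¹) (α t) = _
    rw [MulAut.mul_apply, MulAut.mul_apply, MulAut.inv_apply_self]
  constructor
  · rintro h _ ⟨t, ht, rfl⟩
    have h1 := key t
    rw [h t ht] at h1
    exact h1
  · intro h t ht
    have h1 := key t
    have h2 := h (α t) ⟨t, ht, rfl⟩
    rw [h2] at h1
    exact (α.injective h1).symm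

theorem rwv_conj {K : Type*} [Field K] {g : A} {α : MulAut T}
    (hα : ∀ t, φ (α t) = g * φ t * g⁻¹) (G : Subgroup T → A → K) (Q : Subgroup T) (X : A → K) :
    rwv φ (fun Q' y => G (Q'.map α.toMonoidHom) (g * y * g⁻¹)) Q X =
      fun u => rwv φ G (Q.map α.toMonoidHom) (fun x => X (g⁻¹ * x * g)) (α.toMonoidHom u) := by
  funext u
  have h1 : (Q ⊔ Subgroup.zpowers u).map α.toMonoidHom =
      Q.map α.toMonoidHom ⊔ Subgroup.zpowers (α.toMonoidHom u) := by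
    rw [Subgroup.map_sup, MonoidHom.map_zpowers]
  have h2 : Nat.card ↥(cq φ (Q ⊔ Subgroup.zpowers u)) =
      Nat.card ↥(cq φ ((Q ⊔ Subgroup.zpowers u).map α.toMonoidHom)) :=
    Nat.card_congr (cje g (mem_cq_conj hα (Q ⊔ Subgroup.zpowers u))).toEquiv
  unfold rwv
  rw [← h1, h2, ← sm_conj g (fun y => X (g⁻¹ * (φ (α.toMonoidHom u) * y) * g) *
    G ((Q ⊔ Subgroup.zpowers u).map α.toMonoidHom) y⁻¹)]
  congr 1
  refine sm_congr fun y => ?_
  have h3 : φ (α.toMonoidHom u) = g * φ u * g⁻¹ := hα u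
  have h4 : g⁻¹ * (φ (α.toMonoidHom u) * (g * y * g⁻¹)) * g = φ u * y := by
    rw [h3]
    group
  have h5 : (g * y * g⁻¹)⁻¹ = g * y⁻¹ * g⁻¹ := by group
  rw [h4, h5]

/-- the blocks correspond -/
theorem lbH_conj (h : Src p b D f i) (hr : ∀ x, x ∈ D ↔ ∃ t, φ t = x) {g : A}
    (hg : g ∈ St D f) {α : MulAut T} (hα : ∀ t, φ (α t) = g * φ t * g⁻¹) {Q : Subgroup T}
    {c : MonoidAlgebra k A} (hc : LbH (cq φ Q) i c) :
    LbH (cq φ (Q.map α.toMonoidHom)) i (cj g c) := by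
  have hle : ∀ Q : Subgroup T, Q.map φ ≤ D := by
    rintro Q _ ⟨t, _, rfl⟩
    exact (hr _).2 ⟨t, rfl⟩
  obtain ⟨c', hc'⟩ := exists_lb h (hle (Q.map α.toMonoidHom))
  have h1 : Lb (cg g (Q.map φ)) i c' := by
    rw [← map_cg hα]
    exact hc'
  rw [Lb.cj_eq h (hle Q) hg (hc.toLb rfl) h1]
  exact hc'.toH rfl

theorem dnr_conj {g : A} {H H' : Subgroup A} (hH : ∀ x, x ∈ H ↔ g * x * g⁻¹ ∈ H')
    (c : MonoidAlgebra k A) : cm (cje g hH) (dnr H' (cj g c)) = dnr H c := by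
  ext y
  rw [coeff_cm, coeff_dnr, coeff_dnr, coe_cje, coeff_cj]
  congr 1
  group

theorem gok_conj (h : Src p b D f i) (hφ : Function.Injective φ)
    (hr : ∀ x, x ∈ D ↔ ∃ t, φ t = x) {g : A} (hg : g ∈ St D f) {α : MulAut T}
    (hα : ∀ t, φ (α t) = g * φ t * g⁻¹) (hG : GOK φ D f i G (Q.map α.toMonoidHom)) :
    GOK φ D f i (fun Q' y => G (Q'.map α.toMonoidHom) (g * y * g⁻¹)) Q := by
  have hm := mem_cq_conj hα Q
  let e := cje g hm
  have hon : on (cq φ Q) (fun y => G (Q.map α.toMonoidHom) (g * y * g⁻¹)) =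
      fun y => on (cq φ (Q.map α.toMonoidHom)) (G (Q.map α.toMonoidHom)) (e y) := rfl
  have hVA : ∀ {c : MonoidAlgebra k A} {X : ↥(cq φ (Q.map α.toMonoidHom)) → KW p k},
      (fun y => X (e y)) ∈ VA (p := p) (dnr (cq φ Q) c) ↔
        X ∈ VA (p := p) (dnr (cq φ (Q.map α.toMonoidHom)) (cj g c)) := by
    intro c X
    rw [← dnr_conj hm c]
    exact VA_me e
  refine ⟨?_, ?_, ?_, ?_, ?_, ?_⟩
  · intro x hx
    exact hG.sup _ (fun h' => hx ((hm x).2 h'))
  · intro c hc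
    exact hVA.2 (hG.blk _ (lbH_conj h hr hg hα hc))
  · intro x hx
    exact hG.reg _ (fun h' => hx ((preg_conj g x).1 h'))
  · change ip (fun y => on (cq φ (Q.map α.toMonoidHom)) (G (Q.map α.toMonoidHom)) (e y))
      (fun y => on (cq φ (Q.map α.toMonoidHom)) (G (Q.map α.toMonoidHom)) (e y)) = _
    rw [ip_me e, hG.nrm, eQ_conj hg hα]
  · intro X hX
    rw [rwv_conj hα]
    refine vir_comp (hG.row _ ?_) α.toMonoidHom
    rw [← V_me e]
    have h1 : (fun y => on (cq φ (Q.map α.toMonoidHom)) (fun x => X (g⁻¹ * x * g)) (e y)) =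
        on (cq φ Q) X := by
      funext y
      change X (g⁻¹ * (g * (y : A) * g⁻¹) * g) = X y
      congr 1
      group
    rw [h1]
    exact hX
  · intro c hc X hX Y hY
    have hinv : ∀ Z : ↥(cq φ Q) → KW p k, (fun y => (fun z => Z (e.symm z)) (e y)) = Z := by
      intro Z
      funext y
      change Z (e.symm (e y)) = Z y
      rw [e.symm_apply_apply]
    have hX' : (fun z => X (e.symm z)) ∈
        VA (p := p) (dnr (cq φ (Q.map α.toMonoidHom)) (cj g c)) := by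
      rw [← hVA, hinv]
      exact hX
    have hY' : (fun z => Y (e.symm z)) ∈
        VA (p := p) (dnr (cq φ (Q.map α.toMonoidHom)) (cj g c)) := by
      rw [← hVA, hinv]
      exact hY
    obtain ⟨m, a, a', h1, h2, h3, h4⟩ := hG.cong _ (lbH_conj h hr hg hα hc) _ hX' _ hY'
    refine ⟨m, a, a', ?_, ?_, ?_, h4⟩
    · rw [← h1, eQ_conj hg hα, ← ip_me e (rg p fun z => X (e.symm z)), ← rg_me e, hinv, hinv]
    · rw [← h2, ← ip_me e (fun z => X (e.symm z)), hinv]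
      rfl
    · rw [← h3, ← ip_me e (fun z => Y (e.symm z)), hinv]
      rfl

end

end Pool.Agent.Lib.P0c8ca5.Ex
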