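import Mathlib
import Pool.Agent.Lib.P0c8ca5Ex.YM
import Pool.Agent.Lib.P0c8ca5Ex.YUa
import Pool.Agent.Lib.P0c8ca5Ex.YV

/-!
# YWa: the sum of the characters of a nilpotent block
-/

set_option linter.unusedSectionVars false

namespace Pool.Agent.Lib.P0c8ca5.Ex

open MonoidAlgebra

section
variable {p : ℕ} [Fact p.Prime] {k : Type*} [Field k] [IsAlgClosed k] [CharP k p]
  {A : Type*} [Group A] [Finite A] {c : MonoidAlgebra k A} {B : MonoidAlgebra (OW p k) A}
  {D : Subgroup A}

open Classical in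
/-- the sum of the characters in the block `B` -/
noncomputable def gB (B : MonoidAlgebra (OW p k) A) (x : A) : KW p k :=
  ∑ j : Ir (KW p k) A with chO j B ≠ 0, ch j x

open Classical in
theorem ip_gB (B : MonoidAlgebra (OW p k) A) (X : A → KW p k) : ip (gB B) X
    = ∑ j : Ir (KW p k) A with chO j B ≠ 0, ip (ch j) X := by
  have h1 : gB B = fun x => ∑ j : Ir (KW p k) A with chO j B ≠ 0, ch j x := rfl
  rw [h1, ip_sum]

theorem ip_ch_gB {j : Ir (KW p k) A} (hj : chO j B ≠ 0) : ip (ch j) (gB B) = 1 := by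
  classical
  rw [ip_comm, ip_gB, Finset.sum_eq_single j]
  · rw [ip_ch, if_pos rfl]
  · intro s _ hs
    rw [ip_ch, if_neg hs]
  · intro h
    exact (h (Finset.mem_filter.2 ⟨Finset.mem_univ _, hj⟩)).elim

theorem ip_ch_gB' {j : Ir (KW p k) A} (hj : chO j B = 0) : ip (ch j) (gB B) = 0 := by
  classical
  rw [ip_comm, ip_gB]
  refine Finset.sum_eq_zero fun s hs => ?_
  rw [ip_ch, if_neg]
  rintro rfl
  exact (Finset.mem_filter.1 hs).2 hj

open Classical in
theorem card_filter_irB (B : MonoidAlgebra (OW p k) A) : Nat.card (IrB B)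
    = (Finset.univ.filter fun j : Ir (KW p k) A => chO j B ≠ 0).card := by
  rw [Nat.card_eq_fintype_card, Fintype.card_subtype]

theorem ip_gB_gB : ip (gB B) (gB B) = (Nat.card (IrB B) : KW p k) := by
  classical
  rw [ip_gB, Finset.sum_congr rfl fun j hj => ip_ch_gB (Finset.mem_filter.1 hj).2,
    Finset.sum_const, nsmul_eq_mul, mul_one, card_filter_irB]

theorem gB_mem (hB : CenL c B) : gB B ∈ VA (p := p) c := by
  classical
  refine ⟨?_, fun B' hB' χ hχ => ?_⟩
  · have h1 : gB B = fun x => ∑ j : Ir (KW p k) A,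
        (((if chO j B ≠ 0 then 1 else 0 : ℤ)) : KW p k) * ch j x := by
      funext x
      rw [gB, Finset.sum_filter]
      refine Finset.sum_congr rfl fun j _ => ?_
      split_ifs
      · rw [Int.cast_one, one_mul]
      · rw [Int.cast_zero, zero_mul]
    rw [h1]
    exact V_of_sum fun j => if chO j B ≠ 0 then 1 else 0
  · rw [cenL_unique hB' hB] at hχ
    rw [ip_comm, ip_ch_gB' hχ]

theorem ch_one_nil (hB : CenL c B) (hN : NilC D B) : ∃ n : KW p k, n ≠ 0 ∧
    ∀ j : IrB B, ch j.1 1 = n := by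
  obtain ⟨n, hn⟩ := hN.const B hB.idem hB.idem
  have h1 : ∀ j : IrB B, ch j.1 1 = n := by
    intro j
    rw [ch_one, ← chO_one (O := OW p k), ← hB.chO_in j.2, one_mul, hn]
  by_cases h0 : Nonempty (IrB B)
  · obtain ⟨j⟩ := h0
    refine ⟨n, ?_, h1⟩
    rw [← hn j]
    exact j.2
  · exact ⟨1, one_ne_zero, fun j => absurd ⟨j⟩ h0⟩

/-- the sum is a multiple of the truncation of every character -/
theorem gB_eq (hB : CenL c B) (hN : NilC D B) (j : IrB B) (x : A) :
    gB B x = (Nat.card D : KW p k) * rg p (ch j.1) x := by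
  classical
  obtain ⟨n, hn0, hn⟩ := ch_one_nil hB hN
  by_cases hx : Preg p x
  · rw [rg_of hx, gB, ← hN.card, card_filter_irB, ← nsmul_eq_mul, ← Finset.sum_const]
    refine Finset.sum_congr rfl fun s hs => ?_
    exact YmAux.nil_const hB hN hx ⟨s, (Finset.mem_filter.1 hs).2⟩ j
  · rw [rg_not hx, mul_zero, gB]
    have h1 : Preg p (1 : A) := by
      rw [Preg, orderOf_one]
      exact fun h => (Fact.out : p.Prime).one_lt.ne' (Nat.dvd_one.1 h)
    have h2 := wbo hB h1 hx
    rw [Finset.sum_congr rfl fun s hs => by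
      rw [hn ⟨s, (Finset.mem_filter.1 hs).2⟩], ← Finset.mul_sum] at h2
    exact (mul_eq_zero.1 h2).resolve_left hn0

theorem gB_reg (hB : CenL c B) (hN : NilC D B) {x : A} (hx : ¬ Preg p x) : gB B x = 0 := by
  by_cases h0 : Nonempty (IrB B)
  · obtain ⟨j⟩ := h0
    rw [gB_eq hB hN j, rg_not hx, mul_zero]
  · classical
    rw [gB]
    exact Finset.sum_eq_zero fun s hs => absurd ⟨⟨s, (Finset.mem_filter.1 hs).2⟩⟩ h0

/-- the truncations are multiples of the sum -/
theorem rg_gB (hB : CenL c B) (hN : NilC D B) {X : A → KW p k} (hX : X ∈ VA (p := p) c) (x : A) :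
    (Nat.card D : KW p k) * rg p X x = ip X (gB B) * gB B x := by
  classical
  by_cases hx : Preg p x
  · rw [rg_of hx, (V_expand hX.1).2 x, ip_pars (Y := X) hX.1 (gB B), Finset.mul_sum, Finset.sum_mul]
    refine Finset.sum_congr rfl fun j _ => ?_
    by_cases hj : chO j B = 0
    · rw [hX.2 B hB j hj, zero_mul, mul_zero, zero_mul, zero_mul]
    · rw [ip_ch_gB hj, gB_eq hB hN ⟨j, hj⟩ x, rg_of hx]
      ring
  · rw [rg_not hx, gB_reg hB hN hx, mul_zero, mul_zero]

/-- invariance under automorphisms which fix the block -/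
theorem gB_me (hB : CenL c B) (hN : NilC D B) (e : A ≃* A) (he : cm e c = c) (x : A) :
    gB B (e x) = gB B x := by
  by_cases h0 : Nonempty (IrB B)
  · obtain ⟨j⟩ := h0
    obtain ⟨n, hn0, hn⟩ := ch_one_nil hB hN
    have hD : (Nat.card D : KW p k) ≠ 0 := Nat.cast_ne_zero.2 Nat.card_pos.ne'
    have hj : ch j.1 ∈ VA (p := p) c := by
      refine ⟨ch_mem _, fun B' hB' χ hχ => ?_⟩
      rw [cenL_unique hB' hB] at hχ
      rw [ip_ch, if_neg]
      rintro rfl
      exact j.2 hχ
    have hX : (fun y => ch j.1 (e y)) ∈ VA (p := p) c := by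
      have h1 := (VA_me e (b := c) (X := ch j.1)).2 hj
      rwa [he] at h1
    have h1 := rg_gB hB hN hX 1
    have hp1 : Preg p (1 : A) := by
      rw [Preg, orderOf_one]
      exact fun h => (Fact.out : p.Prime).one_lt.ne' (Nat.dvd_one.1 h)
    rw [rg_of hp1, map_one, gB_eq hB hN j, rg_of hp1, hn] at h1
    have h2 : ip (fun y => ch j.1 (e y)) (gB B) = 1 := by
      have h3 : (Nat.card D : KW p k) * n ≠ 0 := mul_ne_zero hD hn0
      exact (mul_eq_right₀ h3).1 h1.symm
    have h3 := rg_gB hB hN hX x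
    rw [h2, one_mul, rg_me e] at h3
    rw [← h3, gB_eq hB hN j]
  · classical
    have h1 : ∀ y, gB B y = 0 := fun y => by
      rw [gB]
      exact Finset.sum_eq_zero fun s hs => absurd ⟨⟨s, (Finset.mem_filter.1 hs).2⟩⟩ h0
    rw [h1, h1]

end

end Pool.Agent.Lib.P0c8ca5.Ex
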