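import Mathlib
import Pool.Agent.Lib.P0c8ca5Ex.YWa

/-!
# YW: the base, `Q = T`

`H = cq φ ⊤ = CD D`, `LbH H i c` means `c = f`; `BH` the lift. `f` is nilpotent with the central defect group `D`: `NilC (D.subgroupOf H) BH`.
The value of the family at `⊤` is `g = ∑_(j ∈ IrB BH) ch j` on `H`, `0` outside `H`.
-/

set_option linter.unusedSectionVars false

namespace Pool.Agent.Lib.P0c8ca5.Ex

open MonoidAlgebra

section
variable {p : ℕ} [Fact p.Prime] {k : Type*} [Field k] [IsAlgClosed k] [CharP k p]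
  {A : Type*} [Group A] [Finite A] {T : Type*} [CommGroup T] [Fintype T]
  {φ : T →* A} {b f i : MonoidAlgebra k A} {D : Subgroup A}

theorem base (hp2 : p ≠ 2) (h : Src p b D f i) (hφ : Function.Injective φ)
    (hr : ∀ x, x ∈ D ↔ ∃ t, φ t = x) : ∃ g : A → KW p k,
    (∀ G : Subgroup T → A → KW p k, G ⊤ = g → GOK φ D f i G ⊤) ∧
      ∀ s ∈ St D f, ∀ y, g (s * y * s⁻¹) = g y := by
  classical
  obtain rfl : D = (⊤ : Subgroup T).map φ := by
    ext x
    rw [hr]
    constructor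
    · rintro ⟨t, rfl⟩
      exact ⟨t, trivial, rfl⟩
    · rintro ⟨t, -, ht⟩
      exact ⟨t, ht⟩
  obtain ⟨c, hc⟩ := exists_lb h le_rfl
  have hcH : LbH (cq φ ⊤) i c := hc.toH rfl
  obtain ⟨B, hB⟩ := exists_cenB (p := p) hcH.blk
  have hroot := (Lb.src h le_rfl hc).root
  have hcen : ∀ d ∈ ((⊤ : Subgroup T).map φ), ∀ a : ↥(cq φ ⊤), d * (a : A) = a * d := fun d hd a =>
    Subgroup.mem_centralizer_iff.1 a.2 d hd
  have hnil : NilC (((⊤ : Subgroup T).map φ).subgroupOf (cq φ ⊤)) B := by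
    refine nil hp2 hroot (fun g _ => ?_) hB
    rw [Subgroup.mem_centralizer_iff]
    intro d hd
    exact Subtype.ext (hcen _ (Subgroup.mem_subgroupOf.1 hd) g)
  have hle : (⊤ : Subgroup T).map φ ≤ cq φ ⊤ := D_le_CD h.root.com
  have hcard : Nat.card ↥(((⊤ : Subgroup T).map φ).subgroupOf (cq φ ⊤)) = Fintype.card T := by
    rw [Nat.card_congr (Subgroup.subgroupOfEquivOfLe hle).toEquiv,
      ← Nat.card_congr ((⊤ : Subgroup T).equivMapOfInjective φ hφ).toEquiv, Subgroup.card_top,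
      Nat.card_eq_fintype_card]
  have hT0 : (Fintype.card T : KW p k) ≠ 0 := Nat.cast_ne_zero.2 Fintype.card_ne_zero
  let g : A → KW p k := fun x => if hx : x ∈ cq φ ⊤ then gB B ⟨x, hx⟩ else 0
  have hg : ∀ y : ↥(cq φ ⊤), g y = gB B y := fun y => dif_pos y.2
  have hon : on (cq φ ⊤) g = gB B := funext hg
  have heQ : eQ φ ((⊤ : Subgroup T).map φ) f ⊤ = 1 := by
    rw [eQ, Nat.card_eq_one_iff_unique]
    refine ⟨⟨fun α β => ?_⟩, ⟨⟨1, fun t _ => rfl⟩⟩⟩
    apply Subtype.ext
    apply Subtype.ext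
    ext t
    rw [α.2 t trivial, β.2 t trivial]
  have huniq : ∀ c', LbH (cq φ ⊤) i c' → c' = c := fun c' hc' =>
    Lb.unique h le_rfl (hc'.toLb rfl) hc
  refine ⟨g, fun G hG => ?_, fun s hs y => ?_⟩
  · refine ⟨?_, ?_, ?_, ?_, ?_, ?_⟩
    · intro x hx
      rw [hG]
      exact dif_neg hx
    · intro c' hc'
      rw [huniq c' hc', hG, hon]
      exact gB_mem hB
    · intro x hx
      rw [hG]
      by_cases hxH : x ∈ cq φ ⊤
      · rw [show x = ((⟨x, hxH⟩ : ↥(cq φ ⊤)) : A) from rfl, hg]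
        exact gB_reg hB hnil fun h1 => hx ((FIAux.preg_coe' (⟨x, hxH⟩ : ↥(cq φ ⊤))).2 h1)
      · exact dif_neg hxH
    · rw [hG, hon, ip_gB_gB, hnil.card, hcard, heQ, Nat.cast_one, mul_one]
    · intro X hX
      -- the central characters
      have hmem : ∀ t, φ t ∈ cq φ ⊤ := fun t => hle ⟨t, trivial, rfl⟩
      have hct : ∀ (t : T) (a : ↥(cq φ ⊤)), (⟨φ t, hmem t⟩ : ↥(cq φ ⊤)) * a = a * ⟨φ t, hmem t⟩ :=
        fun t a => Subtype.ext (hcen _ ⟨t, trivial, rfl⟩ a)
      let lam : Ir (KW p k) ↥(cq φ ⊤) → T →* (KW p k)ˣ := fun j =>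
        { toFun := fun t => Units.mk0 (om j (single (⟨φ t, hmem t⟩ : ↥(cq φ ⊤)) (1 : KW p k)))
            (om_single_ne j (hct t))
          map_one' := by
            ext
            rw [Units.val_mk0, Units.val_one]
            have h1 : (⟨φ (1 : T), hmem 1⟩ : ↥(cq φ ⊤)) = 1 := Subtype.ext (map_one φ)
            rw [h1, ← one_def, om_one]
          map_mul' := fun s t => by
            ext
            rw [Units.val_mk0, Units.val_mul, Units.val_mk0, Units.val_mk0,
              ← om_single_mul j (hct s)]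
            congr 2
            exact Subtype.ext (map_mul φ s t) }
      have hchc : ∀ (s : Ir (KW p k) ↥(cq φ ⊤)) (t : T) (y : ↥(cq φ ⊤)),
          ch s (⟨φ t, hmem t⟩ * y) = chr (lam s) t * ch s y := by
        intro s t y
        rw [← YHAux.chO_ch, ← YHAux.chO_ch]
        change _ = om s (single (⟨φ t, hmem t⟩ : ↥(cq φ ⊤)) (1 : KW p k)) * _
        rw [← chO_central_mul s (hct t), single_mul_single, one_mul]
      have hrow : rwv φ G ⊤ X = fun t => ip (fun y => on (cq φ ⊤) X (⟨φ t, hmem t⟩ * y)) (gB B) := by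
        funext t
        have h1 : (⊤ : Subgroup T) ⊔ Subgroup.zpowers t = ⊤ := top_sup_eq _
        rw [rwv, h1, hG, ip, sm_sub (cq φ ⊤)]
        · congr 1
          refine sm_congr fun y => ?_
          rw [← InvMemClass.coe_inv, hg]
          rfl
        · intro x hx
          have h2 : g x⁻¹ = 0 := dif_neg fun h3 => hx ((Subgroup.inv_mem_iff _).1 h3)
          rw [h2, mul_zero]
      rw [hrow]
      obtain ⟨hint, hexp⟩ := V_expand hX
      choose z hz using hint
      have h2 : (fun t => ip (fun y => on (cq φ ⊤) X (⟨φ t, hmem t⟩ * y)) (gB B))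
          = ∑ s : Ir (KW p k) ↥(cq φ ⊤), (if chO s B ≠ 0 then z s else 0) • chr (lam s) := by
        funext t
        have h3 : (fun y => on (cq φ ⊤) X (⟨φ t, hmem t⟩ * y))
            = fun y => ∑ s : Ir (KW p k) ↥(cq φ ⊤), (((z s : KW p k) * chr (lam s) t) • ch s) y := by
          funext y
          rw [hexp]
          refine Finset.sum_congr rfl fun s _ => ?_
          rw [hchc, hz, Pi.smul_apply, smul_eq_mul]
          ring
        rw [h3, ip_sum, Finset.sum_apply]
        refine Finset.sum_congr rfl fun s _ => ?_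
        rw [ip_smul, Pi.smul_apply, zsmul_eq_mul]
        by_cases hs : chO s B = 0
        · rw [ip_ch_gB' hs, if_neg (not_not.2 hs), mul_zero, Int.cast_zero, zero_mul]
        · rw [ip_ch_gB hs, if_pos hs, mul_one]
      rw [h2]
      exact Subring.sum_mem _ fun s _ => Subring.zsmul_mem _ (chr_mem _) _
    · intro c' hc' X hX Y hY
      rw [huniq c' hc'] at hX hY
      rw [hG, hon]
      obtain ⟨a, ha⟩ := ip_int hX.1 (gB_mem hB).1
      obtain ⟨a', ha'⟩ := ip_int hY.1 (gB_mem hB).1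
      refine ⟨a * a', a, a', ?_, ha, ha', by rw [sub_self]; exact dvd_zero _⟩
      have h1 : rg p X = ((Fintype.card T : KW p k)⁻¹ * ip X (gB B)) • gB B := by
        funext x
        have h2 := rg_gB hB hnil hX x
        rw [hcard] at h2
        rw [Pi.smul_apply, smul_eq_mul, mul_assoc, ← h2, inv_mul_cancel_left₀ hT0]
      rw [heQ, Nat.cast_one, mul_one, h1, ip_smul, ip_comm (gB B), ha, ha', Int.cast_mul]
      field_simp
  · have hcs : cj s c = c := by
      refine Lb.cj_eq h le_rfl hs hc ?_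
      have h1 : cg s ((⊤ : Subgroup T).map φ) = (⊤ : Subgroup T).map φ := cg_eq_self_iff.2 hs.1
      rw [h1]
      exact hc
    have hH : ∀ x, x ∈ cq φ ⊤ ↔ s * x * s⁻¹ ∈ cq φ ⊤ := by
      intro x
      have h1 : cg s (cq φ ⊤) = cq φ ⊤ := by
        change cg s (CD _) = CD _
        rw [FuAux.cg_CD, cg_eq_self_iff.2 hs.1]
      have h2 : s * x * s⁻¹ ∈ cg s (cq φ ⊤) ↔ x ∈ cq φ ⊤ := by
        rw [mem_cg]
        have h3 : s⁻¹ * (s * x * s⁻¹) * s = x := by group
        rw [h3]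
      rw [h1] at h2
      exact h2.symm
    by_cases hy : y ∈ cq φ ⊤
    · have h1 := gB_me hB hnil (cje s hH) (by
        have h2 := dnr_conj hH c
        rwa [hcs] at h2) ⟨y, hy⟩
      have h2 : g (s * y * s⁻¹) = gB B (cje s hH ⟨y, hy⟩) := hg (cje s hH ⟨y, hy⟩)
      rw [h2, h1]
      exact (hg ⟨y, hy⟩).symm
    · have h1 : g (s * y * s⁻¹) = 0 := dif_neg fun h2 => hy ((hH y).2 h2)
      have h2 : g y = 0 := dif_neg hy
      rw [h1, h2]

end

end Pool.Agent.Lib.P0c8ca5.Ex
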