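import Mathlib
import Pool.Agent.Lib.P0c8ca5Ex.YTd

/-!
# YXa: the induction over the subgroups of `T`, abstract form

`OK G Q` is a property of the family `G` at `Q` that depends only on `G Q'`, `Q' ≥ Q`, is invariant
under conjugation, holds for a suitable value at `⊤`, and determines (and admits) the value at `Q`
for all `Q` with `P Q` (`P` closed upwards). Then there is an equivariant family with `OK G Q` for
all `Q` with `P Q`.
-/

set_option linter.unusedSectionVars false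

namespace Pool.Agent.Lib.P0c8ca5.Ex

section
variable {k : Type*} [Field k] {A : Type*} [Group A] {T : Type*} [CommGroup T] [Fintype T]
  {K : Type*} [Field K]

theorem card_map_aut (Q : Subgroup T) (α : MulAut T) :
    Nat.card ↥(Q.map α.toMonoidHom) = Nat.card ↥Q :=
  (Nat.card_congr (Q.equivMapOfInjective α.toMonoidHom α.injective).toEquiv).symm

/-- the hypotheses of the induction -/
structure Ind (φ : T →* A) (D : Subgroup A) (f : MonoidAlgebra k A)
    (OK : (Subgroup T → A → K) → Subgroup T → Prop) (P : Subgroup T → Prop) : Prop where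
  up : ∀ Q Q', Q ≤ Q' → P Q → P Q'
  inv : ∀ Q, ∀ α : MulAut T, P (Q.map α.toMonoidHom) ↔ P Q
  congr : ∀ (G G' : Subgroup T → A → K) (Q : Subgroup T), (∀ Q', Q ≤ Q' → G Q' = G' Q') →
    OK G Q → OK G' Q
  conj : ∀ s ∈ St D f, ∀ α : MulAut T, (∀ t, φ (α t) = s * φ t * s⁻¹) →
    ∀ (G : Subgroup T → A → K) (Q : Subgroup T), OK G (Q.map α.toMonoidHom) →
      OK (fun Q' y => G (Q'.map α.toMonoidHom) (s * y * s⁻¹)) Q
  base : ∃ g : A → K, (∀ G : Subgroup T → A → K, G ⊤ = g → OK G ⊤) ∧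
    ∀ s ∈ St D f, ∀ y, g (s * y * s⁻¹) = g y
  step : ∀ (Q : Subgroup T) (G : Subgroup T → A → K), Q ≠ ⊤ → P Q → (∀ Q', Q < Q' → OK G Q') →
    (EqG φ D f G fun Q' => Q < Q') → ∃! g : A → K, OK (upd G Q g) Q

variable {φ : T →* A} {D : Subgroup A} {f : MonoidAlgebra k A}
  {OK : (Subgroup T → A → K) → Subgroup T → Prop} {P : Subgroup T → Prop}

theorem Ind.fam_step (H : Ind φ D f OK P) {G : Subgroup T → A → K} {m : ℕ}
    (hm : m < Nat.card T) (hG : ∀ Q : Subgroup T, P Q → m + 1 ≤ Nat.card Q → OK G Q)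
    (he : EqG φ D f G fun Q => P Q ∧ m + 1 ≤ Nat.card Q) :
    ∃ G' : Subgroup T → A → K, (∀ Q : Subgroup T, P Q → m ≤ Nat.card Q → OK G' Q) ∧
      EqG φ D f G' fun Q => P Q ∧ m ≤ Nat.card Q := by
  classical
  have hlt : ∀ {Q Q' : Subgroup T}, Q < Q' → Nat.card Q + 1 ≤ Nat.card Q' := by
    intro Q Q' hQ
    by_contra hcon
    exact absurd (Subgroup.eq_of_le_of_card_ge hQ.le (by omega)) hQ.ne
  have hex : ∀ Q : Subgroup T, (P Q ∧ Nat.card Q = m) → ∃! g : A → K, OK (upd G Q g) Q := by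
    rintro Q ⟨hPQ, hQ⟩
    refine H.step Q G ?_ hPQ (fun Q' hQ' => hG Q' (H.up _ _ hQ'.le hPQ) ?_)
      fun s hs α hα Q' hQ' y => he s hs α hα Q' ⟨H.up _ _ (le_of_lt hQ') hPQ, ?_⟩ y
    · rintro rfl
      rw [Subgroup.card_top] at hQ
      omega
    · have := hlt hQ'
      omega
    · have := hlt (show Q < Q' from hQ')
      omega
  set G' : Subgroup T → A → K := fun Q =>
    if hQ : P Q ∧ Nat.card Q = m then (hex Q hQ).choose else G Q with hG'
  have hGb : ∀ Q : Subgroup T, m + 1 ≤ Nat.card Q → G' Q = G Q := fun Q hQ =>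
    dif_neg (by omega)
  have hGe : ∀ (Q : Subgroup T) (hQ : P Q ∧ Nat.card Q = m), G' Q = (hex Q hQ).choose :=
    fun Q hQ => dif_pos hQ
  have hupd : ∀ (Q : Subgroup T) (_ : Nat.card Q = m) (g : A → K) (Q' : Subgroup T),
      Q < Q' → upd G Q g Q' = G' Q' := by
    intro Q hQ g Q' hQ'
    rw [upd_ne G g hQ'.ne', hGb Q' (by have := hlt hQ'; omega)]
  have hok : ∀ Q : Subgroup T, P Q → m ≤ Nat.card Q → OK G' Q := by
    intro Q hPQ hQ
    rcases Nat.lt_or_ge m (Nat.card Q) with h1 | h1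
    · refine H.congr _ _ _ (fun Q' hQ' => ?_) (hG Q hPQ h1)
      rw [hGb Q' ?_]
      rcases hQ'.lt_or_eq with h2 | h2
      · have := hlt h2
        omega
      · rw [← h2]
        exact h1
    · have h2 : Nat.card Q = m := le_antisymm h1 hQ
      refine H.congr _ _ _ (fun Q' hQ' => ?_) (hex Q ⟨hPQ, h2⟩).choose_spec.1
      rcases hQ'.lt_or_eq with h3 | h3
      · exact hupd Q h2 _ Q' h3
      · rw [← h3, upd_self, hGe Q ⟨hPQ, h2⟩]
  refine ⟨G', hok, fun s hs α hα Q hQ => ?_⟩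
  obtain ⟨hPQ, hQ⟩ := hQ
  have hPa : P (Q.map α.toMonoidHom) := (H.inv Q α).2 hPQ
  rcases Nat.lt_or_ge m (Nat.card Q) with h1 | h1
  · intro y
    rw [hGb Q h1, hGb (Q.map α.toMonoidHom) (by rw [card_map_aut]; exact h1)]
    exact he s hs α hα Q ⟨hPQ, h1⟩ y
  · have h2 : Nat.card Q = m := le_antisymm h1 hQ
    have h3 := H.conj s hs α hα G' Q (hok (Q.map α.toMonoidHom) hPa
      (by rw [card_map_aut]; exact hQ))
    have h4 : OK (upd G Q fun y => G' (Q.map α.toMonoidHom) (s * y * s⁻¹)) Q := by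
      refine H.congr _ _ _ (fun Q' hQ' => ?_) h3
      rcases hQ'.lt_or_eq with h5 | h5
      · have h6 : m + 1 ≤ Nat.card Q' := by have := hlt h5; omega
        rw [hupd Q h2 _ Q' h5, hGb Q' h6]
        funext y
        rw [hGb (Q'.map α.toMonoidHom) (by rw [card_map_aut]; exact h6)]
        exact he s hs α hα Q' ⟨H.up _ _ hQ' hPQ, h6⟩ y
      · rw [← h5, upd_self]
    have h5 := (hex Q ⟨hPQ, h2⟩).choose_spec.2 _ h4
    intro y
    rw [hGe Q ⟨hPQ, h2⟩]
    exact congrFun h5 y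

/-- **the induction** -/
theorem Ind.exists_fam (H : Ind φ D f OK P) :
    ∃ G : Subgroup T → A → K, (∀ Q, P Q → OK G Q) ∧ EqG φ D f G P := by
  have key : ∀ n ≤ Nat.card T, ∃ G : Subgroup T → A → K,
      (∀ Q : Subgroup T, P Q → Nat.card T - n ≤ Nat.card Q → OK G Q) ∧
        EqG φ D f G fun Q => P Q ∧ Nat.card T - n ≤ Nat.card Q := by
    intro n
    induction n with
    | zero =>
      intro _
      obtain ⟨g, hg, hg'⟩ := H.base
      refine ⟨fun _ => g, fun Q _ hQ => ?_, fun s hs α hα Q hQ y => hg' s hs y⟩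
      have hQ' : Q = ⊤ := Subgroup.eq_top_of_le_card Q (by omega)
      rw [hQ']
      exact hg _ rfl
    | succ n ih =>
      intro hn
      obtain ⟨G, hG, he⟩ := ih (by omega)
      have e1 : Nat.card T - n = Nat.card T - (n + 1) + 1 := by omega
      rw [e1] at hG he
      exact H.fam_step (by omega) hG he
  obtain ⟨G, hG, he⟩ := key (Nat.card T) le_rfl
  refine ⟨G, fun Q hQ => hG Q hQ (by omega), fun s hs α hα Q hQ y =>
    he s hs α hα Q ⟨hQ, ?_⟩ y⟩
  show Nat.card T - Nat.card T ≤ Nat.card Q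
  omega

end

end Pool.Agent.Lib.P0c8ca5.Ex
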