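import Mathlib
import Pool.Agent.Lib.P0c8ca5Ex.YS
import Pool.Agent.Lib.P0c8ca5Ex.YU
import Pool.Agent.Lib.P0c8ca5Ex.YV
import Pool.Agent.Lib.P0c8ca5Ex.YW
import Pool.Agent.Lib.P0c8ca5Ex.YXa

/-!
# YX: the step and the induction

* `step`: `exists_rows`, `van_cols`, `gm_mem`, `gm_nrm`, `gm_row`, `gm_cong`, `gr_iff`, `gr_unique`.
* `unique_at`: `stp_down` and `step` for `C(φ Q)`; a function `g` with `GOK` at `Q` is `0` outside `cq φ Q` (`GOK.sup`), so it is determined by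
  its values on `cq φ Q`.
* `exists_gfam`: the induction of YXa with `OK = GOK φ D f i` (`gok_congr`, `gok_conj`, `base`, `unique_at`).
-/

set_option linter.unusedSectionVars false

namespace Pool.Agent.Lib.P0c8ca5.Ex

open MonoidAlgebra

section
variable {p : ℕ} [Fact p.Prime] {k : Type*} [Field k] [IsAlgClosed k] [CharP k p]
  {A : Type*} [Group A] [Finite A] {T : Type*} [CommGroup T] [Fintype T]
  {φ : T →* A} {b f i : MonoidAlgebra k A} {D : Subgroup A} {R Q : Subgroup T}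
  {G : Subgroup T → A → KW p k}

theorem step (hp2 : p ≠ 2) (h : Stp φ b D f i R G) (hE : eN D f + 3 ≤ p) (hRT : R ≠ ⊤) :
    ∃! g : A → KW p k, GOK φ D f i (upd G R g) R := by
  have := Fintype.ofFinite A
  have hb := h.src.root.blk
  obtain ⟨B, hB⟩ := exists_cenL (p := p) hb.idem
    (fun g => invBy_iff_cj.1 hb.invBy g (Subgroup.mem_top g))
  obtain ⟨ψ, hψ⟩ := exists_rows hp2 h hE hRT hB
  have H : Inp φ b D f i R G B ψ :=
    ⟨h, hB, hψ, fun BB hBB u hu s hs hsp => van_cols hp2 h hE hB hBB hψ hu hs hsp⟩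
  have hGR : GR φ b D f R G (Gm ψ) :=
    { blk := gm_mem H
      reg := fun x hx => by rw [Gm, rg_not hx, mul_zero]
      nrm := gm_nrm H
      row := fun X hX => gm_row H hX
      cong := fun X hX Y hY => gm_cong H hRT hX hY }
  exact ⟨Gm ψ, (gr_iff h _).2 hGR, fun g hg => gr_unique h hE hRT ((gr_iff h g).1 hg) hGR⟩

theorem unique_at (hp2 : p ≠ 2) (h : Src p b D f i) (hφ : Function.Injective φ)
    (hr : ∀ x, x ∈ D ↔ ∃ t, φ t = x) (hE : eN D f + 3 ≤ p) (hQ : Q ≠ ⊤)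
    (hG : ∀ Q', Q < Q' → GOK φ D f i G Q') (he : EqG φ D f G fun Q' => Q < Q') :
    ∃! g : A → KW p k, GOK φ D f i (upd G Q g) Q := by
  classical
  obtain ⟨c, φ', i', -, -, hS, heN, hiff⟩ := stp_down h hφ hr hG he
  obtain ⟨g, hg, hu⟩ := step hp2 hS (by omega) hQ
  set g₁ : A → KW p k := fun x => if hx : x ∈ cq φ Q then g ⟨x, hx⟩ else 0 with hg₁
  have h0 : ∀ x, x ∉ cq φ Q → g₁ x = 0 := fun x hx => dif_neg hx
  have h1 : (fun y : ↥(cq φ Q) => g₁ (y : A)) = g := by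
    funext y
    exact dif_pos y.2
  refine ⟨g₁, (hiff g₁ h0).2 (by rw [h1]; exact hg), fun g₂ hg₂ => ?_⟩
  have h2 : ∀ x, x ∉ cq φ Q → g₂ x = 0 := fun x hx => by
    have h3 := hg₂.sup x hx
    rwa [upd_self] at h3
  have h3 := hu _ ((hiff g₂ h2).1 hg₂)
  funext x
  by_cases hx : x ∈ cq φ Q
  · have h4 := congrFun (h3.trans h1.symm) ⟨x, hx⟩
    exact h4
  · rw [h0 x hx, h2 x hx]

theorem ind_gok (hp2 : p ≠ 2) (h : Src p b D f i) (hφ : Function.Injective φ)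
    (hr : ∀ x, x ∈ D ↔ ∃ t, φ t = x) (hE : eN D f + 3 ≤ p) :
    Ind φ D f (GOK φ D f i) fun _ => True where
  up _ _ _ _ := trivial
  inv _ _ := Iff.rfl
  congr _ _ _ hG hQ := gok_congr hG hQ
  conj _ hs _ hα _ _ hQ := gok_conj h hφ hr hs hα hQ
  base := base hp2 h hφ hr
  step _ _ hQ _ hG he := unique_at hp2 h hφ hr hE hQ hG he

theorem exists_gfam (hp2 : p ≠ 2) (h : Src p b D f i) (hφ : Function.Injective φ)
    (hr : ∀ x, x ∈ D ↔ ∃ t, φ t = x) (hE : eN D f + 3 ≤ p) :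
    ∃ G : Subgroup T → A → KW p k, (∀ Q, GOK φ D f i G Q) ∧ EqG φ D f G fun _ => True := by
  obtain ⟨G, hG, he⟩ := (ind_gok hp2 h hφ hr hE).exists_fam
  exact ⟨G, fun Q => hG Q trivial, he⟩

end

end Pool.Agent.Lib.P0c8ca5.Ex
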