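import Mathlib
import Pool.Agent.Lib.P0c8ca5Ex.YL

/-!
# YZa: the rows which are invariant under `u ↦ u ^ t`

`rat_rows`: the rows with the Gram matrix of the `E`-set `T` which are invariant under a generator of the
units and which are not zero: there are at most `|E|` of them.
-/

set_option linter.unusedSectionVars false

namespace Pool.Agent.Lib.P0c8ca5.Ex

open Finset YLx

namespace YZx

section
variable {T : Type*} [CommGroup T] [Fintype T] {K : Type*} [Field K] [CharZero K]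
  [HasEnoughRootsOfUnity K (Monoid.exponent T)]

/-- the powers of a character -/
def pw (l : T →* Kˣ) (n : ℕ) : T →* Kˣ := l.comp (powMonoidHom n)

theorem pw_apply (l : T →* Kˣ) (n : ℕ) (u : T) : pw l n u = l (u ^ n) := rfl

theorem pw_one (l : T →* Kˣ) : pw l 1 = l := by
  ext u
  rw [pw_apply, pow_one]

theorem pw_mul (l : T →* Kˣ) (a c : ℕ) : pw l (a * c) = pw (pw l a) c := by
  ext u
  rw [pw_apply, pw_apply, pw_apply, ← pow_mul, mul_comm]

theorem chr_pow (l : T →* Kˣ) (n : ℕ) (u : T) : chr (pw l n) u = chr l (u ^ n) := rfl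

/-- the multiplicities of an invariant function -/
theorem mlt_pow {g : T → K} {t : ℕ} (ht : (Nat.card T).Coprime t) (hg : ∀ u, g (u ^ t) = g u)
    (l : T →* Kˣ) : mlt g (pw l t) = mlt g l := by
  unfold mlt
  congr 1
  rw [← Equiv.sum_comp (powCoprime ht) (fun u => g u * chr l u⁻¹)]
  refine sum_congr rfl fun u _ => ?_
  rw [powCoprime_apply, hg, chr_pow, inv_pow]

theorem mlt_pow_pow {g : T → K} {t : ℕ} (ht : (Nat.card T).Coprime t)
    (hg : ∀ u, g (u ^ t) = g u) (l : T →* Kˣ) (j : ℕ) : mlt g (pw l (t ^ j)) = mlt g l := by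
  induction j with
  | zero => rw [pow_zero, pw_one]
  | succ j ih => rw [pow_succ, pw_mul, mlt_pow ht hg, ih]

open Classical in
/-- the Gram matrix of the multiplicities -/
theorem gram_mul {p : ℕ} (hp : p.Prime) (hT : IsPGroup p T) {E : Subgroup (MulAut T)}
    [Fintype E] (hE : Nat.card E + 3 ≤ p) {I : Type*} [Fintype I] {ψ : I → T → K}
    (hG : ∀ u v, GramR E ⊥ ψ u v) (a c : T →* Kˣ) :
    ∑ i, mlt (ψ i) a * mlt (ψ i) c
      = ((univ.filter fun α : E => dl c (α : MulAut T) = a).card : K) := by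
  have hF0 : ∀ α ∈ E, ∀ z ∈ (⊥ : Subgroup T), α z = z := fun α _ z hz => by
    rw [Subgroup.mem_bot.1 hz, map_one]
  have hF : Fact (∀ α ∈ E, ∀ z ∈ (⊥ : Subgroup T), α z = z) := ⟨hF0⟩
  have h1 := gram_mlt (R := (⊥ : Subgroup T)) (E := E) (ψ := ψ) (fun u => chr a u⁻¹)
    (fun v => chr c v) (fun z hz v => by rw [Subgroup.mem_bot.1 hz, one_mul])
    (fun u v => Or.inr (Or.inr ((gram_iff hp hT hE hF0 ψ u v).1 (hG u v))))
  have h2 : ∀ i, mlt (ψ i) a * mlt (ψ i) c = ((Fintype.card T : K)⁻¹ * ∑ u, ψ i u * chr a u⁻¹) *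
      ((Fintype.card T : K)⁻¹ * ∑ v, ψ i v⁻¹ * chr c v) := by
    intro i
    rw [mlt_eq' (ψ i) c]
    rfl
  rw [sum_congr rfl fun i _ => h2 i, h1]
  have h3 : ∀ α : E, (Fintype.card T : K)⁻¹ * ∑ u, chr a u⁻¹ * chr c ((α : MulAut T) u)
      = if dl c (α : MulAut T) = a then 1 else 0 := fun α => orth_LR a (dl c (α : MulAut T))
  rw [sum_congr rfl fun α _ => h3 α, sum_boole]

/-- the powers of a character -/
theorem pow_inj {p : ℕ} (hp : p.Prime) {m t : ℕ} (hTm : ∀ u : T, u ^ p ^ m = 1)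
    (htp : t.Coprime p) (ht : ∀ n : ℕ, 0 < n → p ∣ t ^ n - 1 → p - 1 ≤ n) {l : T →* Kˣ}
    (hl : l ≠ 1) {j j' : ℕ} (hj : j < p - 1) (hj' : j' < p - 1)
    (h : pw l (t ^ j) = pw l (t ^ j')) : j = j' := by
  have ht0 : 0 < t := by
    rcases Nat.eq_zero_or_pos t with h0 | h0
    · subst h0
      rw [Nat.coprime_zero_left] at htp
      exact absurd htp hp.one_lt.ne'
    · exact h0
  obtain ⟨u, hu⟩ : ∃ u, l u ≠ 1 := by
    by_contra h0
    push Not at h0
    exact hl (MonoidHom.ext h0)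
  have hlp : (l u) ^ p ^ m = 1 := by
    rw [← map_pow, hTm, map_one]
  have hpo : p ∣ orderOf (l u) := by
    obtain ⟨a, -, ha⟩ := (Nat.dvd_prime_pow hp).1 (orderOf_dvd_of_pow_eq_one hlp)
    rw [ha]
    have h1 : a ≠ 0 := by
      rintro rfl
      rw [pow_zero] at ha
      exact hu (orderOf_eq_one_iff.1 ha)
    exact dvd_pow_self p h1
  have key : ∀ j j' : ℕ, j < j' → j' < p - 1 → pw l (t ^ j) ≠ pw l (t ^ j') := by
    intro j j' hlt hj' h
    have h0 : (l u) ^ t ^ j = (l u) ^ t ^ j' := by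
      have h1 := DFunLike.congr_fun h u
      rwa [pw_apply, pw_apply, map_pow, map_pow] at h1
    have h1 := (pow_eq_pow_iff_modEq.1 h0).of_dvd hpo
    have h2 : t ^ j' = t ^ j * t ^ (j' - j) := by rw [← pow_add]; congr 1; omega
    have h3 : p ∣ t ^ j * (t ^ (j' - j) - 1) := by
      have h4 := (Nat.modEq_iff_dvd' (Nat.pow_le_pow_right ht0 hlt.le)).1 h1
      rwa [h2, ← Nat.mul_sub_one] at h4
    have h4 : p ∣ t ^ (j' - j) - 1 :=
      (Nat.Coprime.dvd_mul_left (Nat.Coprime.pow_right j htp.symm)).1 h3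
    have h5 := ht (j' - j) (by omega) h4
    omega
  rcases lt_trichotomy j j' with h1 | h1 | h1
  · exact absurd h (key j j' h1 hj')
  · exact h1
  · exact absurd h.symm (key j' j h1 hj)

end

end YZx

open YZx

section
variable {T : Type*} [CommGroup T] [Fintype T] {K : Type*} [Field K] [CharZero K]
  [HasEnoughRootsOfUnity K (Monoid.exponent T)]

theorem rat_rows' {p : ℕ} (hp : p.Prime) (hT : IsPGroup p T) {E : Subgroup (MulAut T)}
    (hE : Nat.card E + 3 ≤ p) {I : Type*} [Fintype I] {ψ : I → T → K}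
    (hv : ∀ i, ψ i ∈ vir T K) (hG : ∀ u v, GramR E ⊥ ψ u v) {m t : ℕ}
    (hTm : ∀ u : T, u ^ p ^ m = 1) (htp : t.Coprime p)
    (ht : ∀ n : ℕ, 0 < n → p ∣ t ^ n - 1 → p - 1 ≤ n) (S : Finset I)
    (hS : ∀ i ∈ S, ∀ u, ψ i (u ^ t) = ψ i u) (hne : ∀ i ∈ S, ∃ u, ψ i u ≠ 0) :
    S.card ≤ Nat.card E := by
  classical
  have : Fintype E := Fintype.ofFinite _
  have hcE : Nat.card E = Fintype.card E := Nat.card_eq_fintype_card
  obtain ⟨M, hM⟩ := int_mlt hv
  have hgram : ∀ a c : T →* Kˣ, ∑ i, M i a * M i c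
      = ((univ.filter fun α : E => dl c (α : MulAut T) = a).card : ℤ) := by
    intro a c
    have h1 := gram_mul hp hT hE hG a c
    simp only [hM] at h1
    exact_mod_cast h1
  have hcop : (Nat.card T).Coprime t := by
    have hF : Fact p.Prime := ⟨hp⟩
    obtain ⟨n, hn⟩ := IsPGroup.iff_card.1 hT
    rw [hn]
    exact Nat.Coprime.pow_left n htp.symm
  -- the multiplicities of the invariant rows
  have hzero : ∀ i ∈ S, ∀ l : T →* Kˣ, l ≠ 1 → M i l = 0 := by
    intro i hi l hl
    set d := p - 1 with hd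
    have h1 : ∑ i', (∑ j ∈ range d, M i' (pw l (t ^ j))) ^ 2 ≤ (d : ℤ) * Fintype.card E := by
      have h2 : ∀ i', (∑ j ∈ range d, M i' (pw l (t ^ j))) ^ 2
          = ∑ j' ∈ range d, ∑ j ∈ range d, M i' (pw l (t ^ j)) * M i' (pw l (t ^ j')) := by
        intro i'
        rw [sq, sum_mul_sum, sum_comm]
      rw [sum_congr rfl fun i' _ => h2 i', sum_comm]
      have h3 : ∀ j' ∈ range d, ∑ i', ∑ j ∈ range d, M i' (pw l (t ^ j)) * M i' (pw l (t ^ j'))
          ≤ (Fintype.card E : ℤ) := by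
        intro j' _
        rw [sum_comm]
        have h4 : ∀ j ∈ range d, ∑ i', M i' (pw l (t ^ j)) * M i' (pw l (t ^ j'))
            = ∑ α : E, if dl (pw l (t ^ j')) (α : MulAut T) = pw l (t ^ j) then (1 : ℤ) else 0 := by
          intro j _
          rw [hgram, sum_boole]
        rw [sum_congr rfl h4, sum_comm]
        have h5 : ∀ α : E, ∑ j ∈ range d,
            (if dl (pw l (t ^ j')) (α : MulAut T) = pw l (t ^ j) then (1 : ℤ) else 0) ≤ 1 := by
          intro α
          rw [sum_boole]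
          have h6 : ((range d).filter fun j =>
              dl (pw l (t ^ j')) (α : MulAut T) = pw l (t ^ j)).card ≤ 1 := by
            rw [card_le_one]
            intro x hx y hy
            rw [mem_filter, mem_range] at hx hy
            exact pow_inj hp hTm htp ht hl hx.1 hy.1 (hx.2.symm.trans hy.2)
          exact_mod_cast h6
        calc _ ≤ ∑ _α : E, (1 : ℤ) := sum_le_sum fun α _ => h5 α
          _ = (Fintype.card E : ℤ) := by
            rw [sum_const, card_univ, nsmul_eq_mul, mul_one]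
      calc _ ≤ ∑ _j' ∈ range d, (Fintype.card E : ℤ) := sum_le_sum h3
        _ = (d : ℤ) * Fintype.card E := by rw [sum_const, Finset.card_range, nsmul_eq_mul]
    have h2 : ∑ j ∈ range d, M i (pw l (t ^ j)) = (d : ℤ) * M i l := by
      have h3 : ∀ j ∈ range d, M i (pw l (t ^ j)) = M i l := by
        intro j _
        have h4 := mlt_pow_pow hcop (hS i hi) l j
        rw [hM, hM] at h4
        exact_mod_cast h4
      rw [sum_congr rfl h3, sum_const, Finset.card_range, nsmul_eq_mul]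
    have h3 : ((d : ℤ) * M i l) ^ 2 ≤ (d : ℤ) * Fintype.card E := by
      rw [← h2]
      exact (single_le_sum (f := fun i' => (∑ j ∈ range d, M i' (pw l (t ^ j))) ^ 2)
        (fun i' _ => sq_nonneg _) (mem_univ i)).trans h1
    by_contra h4
    have h5 : 1 ≤ (M i l) ^ 2 := by
      have := sq_pos_of_ne_zero h4
      omega
    have h6 : Fintype.card E + 2 ≤ d := by omega
    have h7 : ((Fintype.card E : ℕ) : ℤ) + 2 ≤ d := by exact_mod_cast h6
    have h8 : (0 : ℤ) ≤ Fintype.card E := by positivity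
    have h9 : (d : ℤ) * ((d : ℤ) * (M i l) ^ 2) ≤ (d : ℤ) * Fintype.card E := by
      calc (d : ℤ) * ((d : ℤ) * (M i l) ^ 2) = ((d : ℤ) * M i l) ^ 2 := by ring
        _ ≤ _ := h3
    have h10 : (d : ℤ) * (M i l) ^ 2 ≤ Fintype.card E := le_of_mul_le_mul_left h9 (by linarith)
    nlinarith
  have hconst : ∀ i ∈ S, ∀ u, ψ i u = (M i 1 : K) := by
    intro i hi u
    rw [eq_sum_mlt (ψ i) u, sum_eq_single (1 : T →* Kˣ)]
    · rw [hM, chr_one, Pi.one_apply, mul_one]
    · intro l _ hl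
      rw [hM, hzero i hi l hl, Int.cast_zero, zero_mul]
    · intro h
      exact absurd (mem_univ _) h
  have h1 : (S.card : ℤ) ≤ ∑ i, M i 1 * M i 1 := by
    calc (S.card : ℤ) = ∑ _i ∈ S, (1 : ℤ) := by rw [sum_const, nsmul_eq_mul, mul_one]
      _ ≤ ∑ i ∈ S, M i 1 * M i 1 := by
          refine sum_le_sum fun i hi => ?_
          obtain ⟨u, hu⟩ := hne i hi
          rw [hconst i hi u] at hu
          have h2 : M i 1 ≠ 0 := fun h => hu (by rw [h, Int.cast_zero])
          have := mul_self_pos.2 h2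
          omega
      _ ≤ ∑ i, M i 1 * M i 1 :=
          sum_le_sum_of_subset_of_nonneg (subset_univ S) fun i _ _ => mul_self_nonneg _
  rw [hgram] at h1
  have h2 : (univ.filter fun α : E => dl (1 : T →* Kˣ) (α : MulAut T) = 1).card
      ≤ Fintype.card E := (card_filter_le _ _).trans (by rw [card_univ])
  rw [hcE]
  have h3 : S.card ≤ (univ.filter fun α : E => dl (1 : T →* Kˣ) (α : MulAut T) = 1).card := by
    exact_mod_cast h1
  exact h3.trans h2

end

end Pool.Agent.Lib.P0c8ca5.Ex
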