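import Mathlib
import Pool.Agent.Lib.P0c8ca5Ex.YX
import Pool.Agent.Lib.P0c8ca5Ex.YZa
import Pool.Agent.Lib.P0c8ca5Ex.GH
import Pool.Agent.Lib.P0c8ca5Ex.GL
import Pool.Agent.Lib.P0c8ca5Ex.LB

/-!
# YZ: the number of simple modules is at most `|E|`

* `rat_rows` (pure): `E ≤ Aut(T)`, `|E| + 3 ≤ p`, rows `ψ i ∈ vir T` with the Gram matrix of the `E`-set `T` (`GramR E ⊥`), `t` a generator of the units modulo
  `p^m` (`exists_gen`), `S` a set of rows with `ψ i (u ^ t) = ψ i u`, all of them with a value `≠ 0` at some `u ≠ 1`: `|S| ≤ |E|`. PROOF. `mlt (ψ i) (l ^ t) = mlt (ψ i) l` for `i ∈ S`. Let `l ≠ 1`, `d` the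
  number of the different `l ^ (t ^ j)`, `d ≥ p - 1`; `W = ∑_(j < d) (mlt (ψ i) (l ^ (t ^ j)))_i` is an integral vector with `W · W ≤ d |E|` (`∑_i mlt (ψ i) l mlt (ψ i) l' = #{α ∈ E : l ∘ α = l'}`, `YLx.gram_mlt`)
  and `W_i = d mlt (ψ i) l` for `i ∈ S`: `d (mlt (ψ i) l)² ≤ |E| < p - 1`, so `mlt (ψ i) l = 0`. So `ψ i = mlt (ψ i) 1` is constant and not `0`: `|S| ≤ ∑_i (mlt (ψ i) 1)² = |E|`.
* `l_le_src`: `T ≠ 1`. `exists_gfam`: `G`. `Stp φ b D f i ⊥ G` and `GR φ b D f ⊥ G (G ⊥)` (`gr_iff`, `upd G ⊥ (G ⊥) = G`). `gram_full` for `R = ⊥` (`Ker φ ⊥ χ` always holds): the rows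
  `ψ χ = rwv φ G ⊥ (ch χ)`, `χ` in the block, satisfy `GramR (EG φ D f) ⊥`. `exists_galB`, `fix_ge`, `no_gal` (see the proof of `l_lt_of` in GJ): `l(b)` is at most the number of the `χ` with
  `s χ = χ`; for these `ψ χ (u ^ t) = ψ χ u`: `rwv φ G ⊥ (ch (s χ)) u = rwv φ G ⊥ (ch χ) (u ^ t)`, as `⟨u ^ t⟩ = ⟨u⟩` and, for `y ∈ C(φ u)` `p`-regular (`GOK.reg`, `GOK.sup`),
  `single y 1 = ∑ ζ_j ε_j` (`reg_dec`) with idempotents `ε_j` that commute with `φ u`. There is a regular `u ≠ 1` (`card_reg`; `Reg D f (φ u)` iff `st (EG φ D f) u = 1`, `st_EG`), `rwv_ne`.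
* `l_le_any`: `exists_src` (Root to Src), `T = ↥D` as a `CommGroup`; `D = 1`: `l_le` (`Free`).
-/

set_option linter.unusedSectionVars false

namespace Pool.Agent.Lib.P0c8ca5.Ex

open MonoidAlgebra

section
variable {T : Type*} [CommGroup T] [Fintype T] {K : Type*} [Field K] [CharZero K]
  [HasEnoughRootsOfUnity K (Monoid.exponent T)]

theorem rat_rows {p : ℕ} (hp : p.Prime) (hT : IsPGroup p T) {E : Subgroup (MulAut T)}
    (hE : Nat.card E + 3 ≤ p) {I : Type*} [Fintype I] {ψ : I → T → K}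
    (hv : ∀ i, ψ i ∈ vir T K) (hG : ∀ u v, GramR E ⊥ ψ u v) {m t : ℕ}
    (hTm : ∀ u : T, u ^ p ^ m = 1) (htp : t.Coprime p)
    (ht : ∀ n : ℕ, 0 < n → p ∣ t ^ n - 1 → p - 1 ≤ n) (S : Finset I)
    (hS : ∀ i ∈ S, ∀ u, ψ i (u ^ t) = ψ i u) (hne : ∀ i ∈ S, ∃ u, u ≠ 1 ∧ ψ i u ≠ 0) :
    S.card ≤ Nat.card E :=
  rat_rows' hp hT hE hv hG hTm htp ht S hS fun i hi => (hne i hi).imp fun _ h => h.2

end

end Pool.Agent.Lib.P0c8ca5.Ex
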