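import Mathlib
import Pool.Agent.Lib.P0c8ca5Ex.YZ

/-!
# YZb: the number of simple modules is at most `|E|` if `|E| ≤ p - 3`

`gal_row`: the rows and the Galois permutation; `l_le_src`, `l_le_any`: see the header of YZ.
-/

set_option linter.unusedSectionVars false

namespace Pool.Agent.Lib.P0c8ca5.Ex

open MonoidAlgebra

section
variable {p : ℕ} [Fact p.Prime] {k : Type*} [Field k] [IsAlgClosed k] [CharP k p]
  {A : Type*} [Group A] [Finite A] {T : Type*} [CommGroup T] [Fintype T]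
  {φ : T →* A} {b f i : MonoidAlgebra k A} {D : Subgroup A} {R : Subgroup T}
  {G : Subgroup T → A → KW p k}

/-- the row of the Galois conjugate -/
theorem gal_row {t M : ℕ} {χ χ' : Ir (KW p k) A} {u : T}
    (hG : GOK φ D f i G (⊥ ⊔ Subgroup.zpowers u)) (hM : (φ u) ^ p ^ M = 1) (hu : Subgroup.zpowers (u ^ t) = Subgroup.zpowers u)
    (hs : ∀ F : MonoidAlgebra (OW p k) A, F * F = F →
      single (φ u) 1 * F = F * single (φ u) (1 : OW p k) →
      chO χ' (single (φ u) 1 * F) = chO χ (single (φ u ^ t) 1 * F)) :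
    rwv φ G ⊥ (ch χ') u = rwv φ G ⊥ (ch χ) (u ^ t) := by
  rw [rwv, rwv, hu]
  congr 1
  refine sm_congr fun y => ?_
  by_cases hy : G (⊥ ⊔ Subgroup.zpowers u) y⁻¹ = 0
  · rw [hy, mul_zero, mul_zero]
  · congr 1
    have hy1 : y ∈ cq φ (⊥ ⊔ Subgroup.zpowers u) := by
      by_contra h1
      exact hy (hG.sup _ fun h2 => h1 ((Subgroup.inv_mem_iff _).1 h2))
    have hy2 : Preg p y := by
      by_contra h1
      exact hy (hG.reg _ fun h2 => h1 (preg_inv.1 h2))
    have hyu : φ u * y = y * φ u := by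
      rw [cq, Subgroup.mem_centralizer_iff] at hy1
      exact hy1 (φ u) ⟨u, Subgroup.mem_sup_right (Subgroup.mem_zpowers u), rfl⟩
    obtain ⟨n, ζ, ε, h1, h2, h3⟩ := reg_dec (p := p) (k := k) hy2
    have key : ∀ (ξ : Ir (KW p k) A) (v : A), ch ξ (v * y)
        = ∑ j, algebraMap (OW p k) (KW p k) (ζ j) * chO ξ (single v 1 * ε j) := by
      intro ξ v
      rw [← YEAux.chO_single_ch]
      have h4 : (single (v * y) 1 : MonoidAlgebra (OW p k) A)
          = ∑ j, ζ j • (single v (1 : OW p k) * ε j) := by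
        rw [← mul_one (1 : OW p k), ← single_mul_single, mul_one, h3, Finset.mul_sum]
        refine Finset.sum_congr rfl fun j _ => ?_
        rw [mul_smul_comm]
      rw [h4, map_sum]
      refine Finset.sum_congr rfl fun j _ => ?_
      rw [chO_smul]
    rw [key χ' (φ u), key χ (φ (u ^ t)), map_pow]
    refine Finset.sum_congr rfl fun j _ => ?_
    rw [hs (ε j) (h1 j) (h2 j (φ u) hyu)]

end

section
variable {p : ℕ} [Fact p.Prime] {k : Type*} [Field k] [IsAlgClosed k] [CharP k p]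
  {A : Type*} [Group A] [Fintype A] {b f i : MonoidAlgebra k A} {D : Subgroup A}

/-- there is a regular place -/
theorem exists_reg {T : Type*} [CommGroup T] [Fintype T] {E : Subgroup (MulAut T)} [Finite E]
    (hp : p.Prime) (hT : IsPGroup p T) (hE : Nat.card E < p) (hn : 1 < Fintype.card T) :
    ∃ u : T, u ≠ 1 ∧ st E u = 1 := by
  classical
  have h1 := card_reg (E := E) hp hT
  rw [Nat.card_eq_fintype_card] at h1
  have hE0 : 0 < Nat.card E := Nat.card_pos
  by_cases hE1 : Nat.card E = 1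
  · obtain ⟨u, hu⟩ := Fintype.exists_ne_of_one_lt_card hn 1
    refine ⟨u, hu, ?_⟩
    rw [hE1] at h1
    have h2 : (Finset.univ.filter fun u : T => st E u = 1).card = Fintype.card T := by
      apply le_antisymm (Finset.card_le_univ _)
      have h3 := hp.pos
      have h4 : p * Fintype.card T ≤ p * (Finset.univ.filter fun u : T => st E u = 1).card := by
        simpa using h1
      exact Nat.le_of_mul_le_mul_left h4 h3
    have h3 := (Finset.card_eq_iff_eq_univ _).1 h2
    have h4 := Finset.mem_univ u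
    rw [← h3] at h4
    exact (Finset.mem_filter.1 h4).2
  · by_contra hcon
    push Not at hcon
    have h2 : (Finset.univ.filter fun u : T => st E u = 1).card ≤ 0 := by
      rw [Nat.le_zero, Finset.card_eq_zero, Finset.filter_eq_empty_iff]
      intro u _ hu
      by_cases hu1 : u = 1
      · subst hu1
        apply hE1
        rw [← hu, st]
        exact Nat.card_congr ⟨fun a => ⟨a, map_one _⟩, fun a => a.1, fun _ => rfl, fun _ => rfl⟩
      · exact hcon u hu1 hu
    have h3 : (Nat.card E - 1) * Fintype.card T < p * Fintype.card T :=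
      Nat.mul_lt_mul_of_pos_right (by omega) (by omega)
    have h4 : (Finset.univ.filter fun u : T => st E u = 1).card = 0 := by omega
    rw [h4, mul_zero, zero_add] at h1
    omega

theorem l_le_src (hp2 : p ≠ 2) (h : Src p b D f i) (hE : eN D f + 3 ≤ p) {T : Type*}
    [CommGroup T] [Fintype T] [Nontrivial T] {φ : T →* A} (hφ : Function.Injective φ)
    (hr : ∀ x, x ∈ D ↔ ∃ t, φ t = x) :
    Nat.card (Quotient (irrInvSetoid (⊤ : Subgroup A) ⊤ b)) ≤ eN D f := by
  classical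
  have hp : p.Prime := Fact.out
  have hb := h.root.blk
  obtain ⟨B, hB⟩ := exists_cenL (p := p) hb.idem
    (fun g => invBy_iff_cj.1 hb.invBy g (Subgroup.mem_top g))
  have hcard : Nat.card (EG φ D f) = eN D f := card_EG hφ hr
  have := finite_EG (φ := φ) (D := D) (f := f)
  have hE0 : 0 < eN D f := hcard ▸ Nat.card_pos
  have hpE : ¬ p ∣ eN D f := fun h1 => by
    have := Nat.le_of_dvd hE0 h1
    omega
  obtain ⟨G, hG, he⟩ := exists_gfam hp2 h hφ hr hE
  have hS : Stp φ b D f i ⊥ G :=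
    { src := h
      inj := hφ
      ran := hr
      cen := fun z hz a => by rw [Subgroup.mem_bot.1 hz, map_one, one_mul, mul_one]
      ok := fun Q _ => hG Q
      eqv := fun s hs α hα Q _ y => he s hs α hα Q trivial y }
  have hupd : upd G ⊥ (G ⊥) = G := by
    funext Q
    by_cases hQ : Q = ⊥
    · rw [hQ, upd_self]
    · rw [upd_ne _ _ hQ]
  have hGR : GR φ b D f ⊥ G (G ⊥) := (gr_iff hS _).1 (by rw [hupd]; exact hG ⊥)
  have hrows := gram_full hS (by rw [hcard]; exact hpE) hB hGR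
  rw [hupd] at hrows
  obtain ⟨t, ht1, ht2, ht3⟩ := exists_gen hp hp2 (Nat.card A)
  obtain ⟨s, hs⟩ := exists_galB (p := p) (k := k) B ht1
  have h1 := fix_ge hb hB s ht1 hs
    (fun v g M c hv hv1 hc hbc hg => no_gal h (by omega) ht3 hv hv1 hc hbc hg)
  refine h1.trans ?_
  obtain ⟨M, hM⟩ := pow_one_of h
  have hTm : ∀ u : T, u ^ p ^ Nat.card A = 1 := by
    intro u
    apply hφ
    rw [map_pow, map_one]
    exact pel_card (hM (φ u) ((hr _).2 ⟨u, rfl⟩))
  have hTp : IsPGroup p T := fun u => ⟨Nat.card A, hTm u⟩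
  set S : Finset (IR φ ⊥ B) :=
    Finset.univ.filter fun χ => s ⟨χ.1, χ.2.2⟩ = ⟨χ.1, χ.2.2⟩ with hSd
  have hK : ∀ χ : Ir (KW p k) A, Ker φ ⊥ χ := fun χ z hz x => by
    rw [Subgroup.mem_bot.1 hz, map_one, one_mul]
  have hSc : Nat.card {χ : IrB B // s χ = χ} = S.card := by
    rw [hSd, ← Fintype.card_subtype, ← Nat.card_eq_fintype_card]
    exact Nat.card_congr ⟨fun χ => ⟨⟨χ.1.1, hK _, χ.1.2⟩, χ.2⟩, fun χ => ⟨⟨χ.1.1, χ.1.2.2⟩, χ.2⟩,
      fun _ => rfl, fun _ => rfl⟩
  rw [hSc, ← hcard]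
  obtain ⟨u₀, hu₀, hst⟩ := exists_reg (E := EG φ D f) hp hTp (by omega) Fintype.one_lt_card
  refine rat_rows hp hTp (by omega) (fun χ => hrows.vir χ) (fun u v => hrows.gram u v) hTm ht1
    ht3 S (fun χ hχ u => ?_) fun χ _ => ⟨u₀, hu₀, ?_⟩
  · have hχ' : s ⟨χ.1, χ.2.2⟩ = ⟨χ.1, χ.2.2⟩ := (Finset.mem_filter.1 hχ).2
    have h2 := gal_row (t := t) (χ := χ.1) (χ' := χ.1) (u := u) (hG _) (hM _ ((hr _).2 ⟨u, rfl⟩))
      (zpowers_pow ht1 (hTm u)) (fun F hF hF' => by
        have h3 := hs ⟨χ.1, χ.2.2⟩ (φ u) M (hM _ ((hr _).2 ⟨u, rfl⟩)) F hF hF'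
        rwa [hχ'] at h3)
    exact h2.symm
  · exact rwv_ne hp2 hS hpE hB χ.2.2 (fun h2 => hu₀ (Subgroup.mem_bot.1 h2))
      ((st_EG hφ hr u₀).1 hst)

/-- **the number of simple modules is at most `|E|`** -/
theorem l_le_any (hp2 : p ≠ 2) (h : Root p b D f) (hE : eN D f + 3 ≤ p) :
    Nat.card (Quotient (irrInvSetoid (⊤ : Subgroup A) ⊤ b)) ≤ eN D f := by
  by_cases hD : D = ⊥
  · refine l_le hp2 h fun g _ u hu hu1 _ => ?_
    rw [hD, Subgroup.mem_bot] at hu
    exact absurd hu hu1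
  · obtain ⟨i, hi⟩ := exists_src h
    let _ : CommGroup ↥D := cgrp D h.com
    let _ : Fintype ↥D := Fintype.ofFinite _
    obtain ⟨x, hx, hx1⟩ := (Subgroup.bot_or_exists_ne_one D).resolve_left hD
    have : Nontrivial ↥D := ⟨⟨⟨x, hx⟩, 1, fun h1 => hx1 (congrArg Subtype.val h1)⟩⟩
    have hφ : Function.Injective (D.subtype : ↥D →* A) := Subtype.val_injective
    have hr : ∀ x, x ∈ D ↔ ∃ t, (D.subtype : ↥D →* A) t = x :=
      fun x => ⟨fun hx => ⟨⟨x, hx⟩, rfl⟩, by rintro ⟨t, rfl⟩; exact t.2⟩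
    exact l_le_src hp2 hi hE hφ hr

end

end Pool.Agent.Lib.P0c8ca5.Ex
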