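import Mathlib
import Pool.Agent.Lib.P0c8ca5Ku.KC

/-!
# ZGa: the fixed points of a permutation of the ordinary characters, all fixed places

`fix_ge_sum`: as `fix_ge'`, but the lower bound is the sum of the `l(c)` over pairwise non conjugate
pairs `(v, c)` below `b` with `v ^ t = v`.
-/

set_option linter.unusedSectionVars false

namespace Pool.Agent.Lib.P0c8ca5.Ex

open MonoidAlgebra Finset

section
variable {p : ℕ} [Fact p.Prime] {k : Type*} [Field k] [IsAlgClosed k] [CharP k p]
  {A : Type*} [Group A] [Finite A]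

/-- representatives of the classes of a setoid which extend given ones -/
theorem exists_rep_ext {α W : Type*} (S : Setoid α) (x : W → α)
    (hne : ∀ w w', w ≠ w' → ¬ S.r (x w) (x w')) : ∃ rep : Quotient S → α,
      (∀ r, Quotient.mk S (rep r) = r) ∧ ∀ w, rep (Quotient.mk S (x w)) = x w := by
  classical
  refine ⟨fun r => if h : ∃ w, Quotient.mk S (x w) = r then x h.choose else r.out, fun r => ?_,
    fun w => ?_⟩
  · dsimp only
    split_ifs with h
    · exact h.choose_spec
    · exact Quotient.out_eq r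
  · have h : ∃ w', Quotient.mk S (x w') = Quotient.mk S (x w) := ⟨w, rfl⟩
    dsimp only
    rw [dif_pos h]
    by_contra hcon
    exact hne _ _ (fun h1 => hcon (congrArg x h1)) (Quotient.exact h.choose_spec)

theorem fix_ge_sum {b : MonoidAlgebra k A} {B : MonoidAlgebra (OW p k) A}
    (hb : IsBlock (⊤ : Subgroup A) b) (hB : CenL b B) (s : Equiv.Perm (IrB B)) {t : ℕ}
    (ht : t.Coprime p)
    (hs : ∀ (χ : IrB B) (v : A) (M : ℕ), v ^ p ^ M = 1 → ∀ F : MonoidAlgebra (OW p k) A,
      F * F = F → single v 1 * F = F * single v (1 : OW p k) →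
      chO (s χ).1 (single v 1 * F) = chO χ.1 (single (v ^ t) 1 * F))
    (hN : ∀ (v g : A) (M : ℕ) (c : MonoidAlgebra k A), v ^ p ^ M = 1 → v ^ t ≠ v →
      IsBlock (C1 v) c → resS (C1 v : Set A) b * c = c → v ^ t * g = g * v → cj g c ≠ c)
    {W : Type*} [Fintype W] (x : W → Pr p b) (hx : ∀ w, (x w).v ^ t = (x w).v)
    (hne : ∀ w w', w ≠ w' → ¬ (prS p b).r (x w) (x w')) :
    ∑ w, Nat.card (Quotient (irrInvSetoid (C1 (x w).v) (C1 (x w).v) (x w).c))
      ≤ Nat.card {χ : IrB B // s χ = χ} := by
  classical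
  have hp : p.Prime := Fact.out
  have := Fintype.ofFinite A
  have hfin := finite_pr (p := p) b
  let R := Quotient (prS p b)
  have : Fintype R := Fintype.ofFinite R
  obtain ⟨rep, hrep, hrepx⟩ := exists_rep_ext (prS p b) x hne
  -- the idempotents
  have hfam := fun r : R => exists_family (p := p) (dnr (C1 (rep r).v) (rep r).c)
  choose n F hF using hfam
  have hM : ∃ M : ℕ, ∀ v : A, (∃ M : ℕ, v ^ p ^ M = 1) → v ^ p ^ M = 1 := by
    refine ⟨Nat.card A, ?_⟩
    rintro v ⟨M, hM⟩
    have h1 : orderOf v ∣ p ^ M := orderOf_dvd_of_pow_eq_one hM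
    obtain ⟨j, -, hj⟩ := (Nat.dvd_prime_pow hp).1 h1
    have h2 : p ^ j ≤ Nat.card A := hj ▸ orderOf_le_card
    have h3 : j ≤ Nat.card A := (Nat.lt_pow_self hp.one_lt).le.trans h2
    exact orderOf_dvd_iff_pow_eq_one.1 (hj ▸ pow_dvd_pow p h3)
  obtain ⟨M, hM⟩ := hM
  have hv : ∀ r : R, (rep r).v ^ p ^ M = 1 := fun r => hM _ (rep r).pel
  have hcomm : ∀ r j, single (rep r).v 1 * upr (C1 (rep r).v) (F r j)
      = upr (C1 (rep r).v) (F r j) * single (rep r).v (1 : OW p k) :=
    fun r j => single_upr _ _
  have hidem : ∀ r j, upr (C1 (rep r).v) (F r j) * upr (C1 (rep r).v) (F r j)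
      = upr (C1 (rep r).v) (F r j) := fun r j => by rw [← map_mul, (hF r).idem]
  let T : ∀ r : R, Fin (n r) → Ir (KW p k) A → KW p k := fun r j χ =>
    chO χ (single (rep r).v 1 * upr (C1 (rep r).v) (F r j))
  let T' : ∀ r : R, Fin (n r) → Ir (KW p k) A → KW p k := fun r j χ =>
    chO χ (upr (C1 (rep r).v) (F r j) * single (rep r).v⁻¹ 1)
  have hTz : ∀ r j χ, chO χ B = 0 → T r j χ = 0 := fun r j χ hχ =>
    col_zero hB (hv r) (rep r).blk (rep r).below ((hF r).below j)
      ⟨(hF r).idem j, rfl⟩ χ hχ
  have hsum : ∀ (w : Ir (KW p k) A → KW p k) r j, ∑ χ : IrB B, T r j χ.1 * w χ.1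
      = ∑ χ, T r j χ * w χ := by
    intro w r j
    symm
    exact sum_irB (fun χ => T r j χ * w χ) fun χ hχ => by
      rw [hTz r j χ hχ, zero_mul]
  have hCt : ∀ r : R, C1 ((rep r).v ^ t) = C1 (rep r).v := by
    intro r
    have h1 : Subgroup.zpowers ((rep r).v ^ t) = Subgroup.zpowers (rep r).v := by
      refine le_antisymm ?_ ?_
      · rw [Subgroup.zpowers_le]
        exact (Subgroup.zpowers (rep r).v).pow_mem (Subgroup.mem_zpowers _) t
      · rw [Subgroup.zpowers_le]
        have h1 : t.Coprime (orderOf (rep r).v) :=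
          Nat.Coprime.coprime_dvd_right (orderOf_dvd_of_pow_eq_one (hv r))
            (Nat.Coprime.pow_right M ht)
        obtain ⟨j, hj⟩ := exists_pow_eq_self_of_coprime h1
        have h2 : ((rep r).v ^ t) ^ j ∈ Subgroup.zpowers ((rep r).v ^ t) :=
          Subgroup.pow_mem _ (Subgroup.mem_zpowers _) _
        rwa [hj] at h2
    rw [← CD_zpowers, h1, CD_zpowers]
  have key := trace_perm_set (K := KW p k) (I := IrB B) (R := R) (J := fun r => Fin (n r))
    (fun r j χ => T r j χ.1) (fun r j χ => T' r j χ.1) s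
    (fun r => (rep r).v ^ t = (rep r).v)
    (fun r r' hrr j j' => by
      rw [hsum (fun χ => T' r' j' χ)]
      refine off_zero (hv r) (hv r') (rep r).blk (rep r').blk
        ((hF r).below j) ⟨(hF r).idem j, rfl⟩ ((hF r').below j') ⟨(hF r').idem j', rfl⟩ ?_
      intro g hg hcd
      apply hrr
      rw [← hrep r, ← hrep r']
      exact Quotient.sound ⟨g, hg, hcd⟩)
    (fun r => by
      have e1 := (hF r).gram
      intro h0
      apply e1
      rw [← h0]
      congr 1
      ext j j'
      rw [Matrix.of_apply, Matrix.of_apply, hsum (fun χ => T' r j' χ)]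
      symm
      exact tp_chi_self (p := p) (hv r) sepO (hidem r j) (hidem r j') ((hF r).idem j)
        ((hF r).idem j') (hcomm r j) (hcomm r j') (gap_self _ (F r j) _) (gap_self _ (F r j') _))
    (fun a ha => by
      let a' : Ir (KW p k) A → KW p k := fun χ => if h : chO χ B ≠ 0 then a ⟨χ, h⟩ else 0
      have ha'1 : ∀ χ, chO χ B = 0 → a' χ = 0 := fun χ hχ => by
        simp only [a']
        rw [dif_neg (fun h => h hχ)]
      have ha'2 : ∀ χ : IrB B, a' χ.1 = a χ := fun χ => by
        simp only [a']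
        rw [dif_pos χ.2]
      have hT0 : ∀ r j, ∑ χ, a' χ * T r j χ = 0 := by
        intro r j
        have h1 := hsum a' r j
        simp only [ha'2] at h1
        rw [ha r j] at h1
        rw [h1]
        exact Finset.sum_congr rfl fun χ _ => mul_comm _ _
      have h0 := form_zero (fun g => invBy_iff_cj.1 hb.invBy g (Subgroup.mem_top g)) hb.idem hB
        a' ha'1 (by
          intro v M' hvM c hc hbc E hE hEc
          let x : Pr p b := ⟨v, c, ⟨M', hvM⟩, hc, hbc⟩
          let r : R := Quotient.mk _ x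
          obtain ⟨g, hg, hgc⟩ : (prS p b).r (rep r) x := Quotient.exact (hrep r)
          obtain ⟨m, hm⟩ := (hF r).span (dnr (C1 (rep r).v) (cjr g (upr (C1 v) E)))
            (cjr_idem hg hE) (cj_below (rep r).blk hc hgc hEc)
          have h2 : ∀ χ : Ir (KW p k) A, chO χ (single v 1 * upr (C1 v) E)
              = ∑ j, m j * T r j χ := by
            intro χ
            rw [cj_col hg, col_lin hm]
          simp only [h2, Finset.mul_sum]
          rw [Finset.sum_comm]
          refine Finset.sum_eq_zero fun j _ => ?_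
          have h3 := hT0 r j
          calc ∑ χ, a' χ * (m j * T r j χ) = m j * ∑ χ, a' χ * T r j χ := by
                rw [Finset.mul_sum]
                exact Finset.sum_congr rfl fun χ _ => by ring
            _ = 0 := by rw [h3, mul_zero])
      funext χ
      rw [← ha'2 χ, h0 χ.1]
      rfl)
    (fun r hr j χ => by
      have h1 := hs χ (rep r).v M (hv r) (upr (C1 (rep r).v) (F r j))
        (hidem r j) (hcomm r j)
      change chO (s χ).1 (single (rep r).v 1 * upr (C1 (rep r).v) (F r j))
        = chO χ.1 (single (rep r).v 1 * upr (C1 (rep r).v) (F r j))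
      rw [h1, hr])
    (fun r hne j j' => by
      have h1 : ∀ χ : IrB B, T r j (s χ).1
          = chO χ.1 (single ((rep r).v ^ t) 1 * upr (C1 (rep r).v) (F r j)) :=
        fun χ => hs χ (rep r).v M (hv r) _ (hidem r j) (hcomm r j)
      have h2 := off_zero' (p := p) (u := (rep r).v ^ t) (v := (rep r).v)
        (M := M) (by rw [← pow_mul, mul_comm, pow_mul, hv r, one_pow]) (hv r) (hCt r)
        (rep r).blk (rep r).blk ((hF r).idem j) ((hF r).below j)
        ((hF r).idem j') ((hF r).below j')
        (fun g hg => hN _ g M _ (hv r) hne (rep r).blk (rep r).below hg)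
      rw [sum_irB (fun χ => chO χ (single ((rep r).v ^ t) 1 *
        upr (C1 (rep r).v) (F r j)) * T' r j' χ) fun χ hχ => by
          change chO χ (single ((rep r).v ^ t) 1 *
            upr (C1 (rep r).v) (F r j)) * T' r j' χ = 0
          rw [col_zero' hB (M := M) (by rw [← pow_mul, mul_comm, pow_mul, hv r, one_pow]) (hCt r)
            (rep r).blk (rep r).below ((hF r).idem j) ((hF r).below j) χ hχ,
            zero_mul]] at h2
      refine (Finset.sum_congr rfl fun χ _ => ?_).trans h2
      rw [h1])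
  have hinj : Function.Injective fun w : W => (Quotient.mk (prS p b) (x w) : R) := by
    intro w w' hww
    by_contra h1
    exact hne w w' h1 (Quotient.exact hww)
  have hl : ∀ w, Nat.card (Quotient (irrInvSetoid (C1 (x w).v) (C1 (x w).v) (x w).c))
      ≤ Fintype.card (Fin (n (Quotient.mk (prS p b) (x w)))) := by
    intro w
    have h1 := family_card (rep (Quotient.mk (prS p b) (x w))).blk (hF (Quotient.mk _ (x w)))
    rwa [hrepx] at h1
  refine (Finset.sum_le_sum fun w _ => hl w).trans ?_
  have h2 : ∑ w, Fintype.card (Fin (n (Quotient.mk (prS p b) (x w))))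
      = ∑ r ∈ Finset.univ.image fun w : W => (Quotient.mk (prS p b) (x w) : R),
        Fintype.card (Fin (n r)) :=
    (Finset.sum_image (f := fun r : R => Fintype.card (Fin (n r)))
      (g := fun w : W => (Quotient.mk (prS p b) (x w) : R)) fun w _ w' _ h => hinj h).symm
  have h3 : ∑ r ∈ Finset.univ.image fun w : W => (Quotient.mk (prS p b) (x w) : R),
        Fintype.card (Fin (n r))
      ≤ ∑ r ∈ Finset.univ.filter fun r : R => (rep r).v ^ t = (rep r).v,
        Fintype.card (Fin (n r)) := by
    refine Finset.sum_le_sum_of_subset fun r hr => ?_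
    obtain ⟨w, -, rfl⟩ := Finset.mem_image.1 hr
    refine Finset.mem_filter.2 ⟨Finset.mem_univ _, ?_⟩
    rw [hrepx]
    exact hx w
  rw [h2]
  refine h3.trans (le_of_eq ?_)
  rw [← key, Nat.card_eq_fintype_card, Fintype.card_subtype]

end

end Pool.Agent.Lib.P0c8ca5.Ex
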