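import Mathlib
import Pool.Agent.Lib.P0c8ca5Ex.YZb
import Pool.Agent.Lib.P0c8ca5Ex.ZGa
import Pool.Agent.Lib.P0c8ca5Ku.KC2

/-!
# ZG: the rows fixed by the Galois action `u ↦ u ^ (1 + p)`

`fixed_rows`: from the rows at `R = ⊥` (`Rows φ D f ⊥ G B ψ`): there is a set `S` of rows with `ψ χ (u ^ (1 + p)) = ψ χ u`, not `0`, and
`∑ l(c) ≤ |S|` for every set of pairwise non conjugate pairs `(v, c)` below `b` with `v ^ p = 1`; in particular `l(b) ≤ |S|`.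
-/

set_option linter.unusedSectionVars false

namespace Pool.Agent.Lib.P0c8ca5.Ex

open MonoidAlgebra

section
variable {p : ℕ} [Fact p.Prime] {k : Type*} [Field k] [IsAlgClosed k] [CharP k p]
  {A : Type*} [Group A] [Fintype A] {T : Type*} [CommGroup T] [Fintype T]
  {φ : T →* A} {b f i : MonoidAlgebra k A} {D : Subgroup A}
  {G : Subgroup T → A → KW p k}

theorem fixed_rows (hp2 : p ≠ 2) (hS : Stp φ b D f i ⊥ G) (hpE : ¬ p ∣ eN D f)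
    {B : MonoidAlgebra (OW p k) A} (hB : CenL b B) {ψ : IR φ ⊥ B → T → KW p k}
    (hψ : Rows φ D f ⊥ G B ψ) (hreg : ∃ u : T, u ≠ 1 ∧ st (EG φ D f) u = 1) :
    ∃ S : Finset (IR φ ⊥ B), (∀ χ ∈ S, ∀ u, ψ χ (u ^ (1 + p)) = ψ χ u) ∧
      (∀ χ ∈ S, ∃ u, ψ χ u ≠ 0) ∧
      (∀ (W : Type) [Fintype W] (x : W → Pr p b), (∀ w, (x w).v ^ p = 1) →
        (∀ w w', w ≠ w' → ¬ (prS p b).r (x w) (x w')) →
          ∑ w, Nat.card (Quotient (irrInvSetoid (C1 (x w).v) (C1 (x w).v) (x w).c)) ≤ S.card) ∧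
      Nat.card (Quotient (irrInvSetoid (⊤ : Subgroup A) ⊤ b)) ≤ S.card := by
  classical
  have hp : p.Prime := Fact.out
  have h := hS.src
  have hφ := hS.inj
  have hr := hS.ran
  have hb := h.root.blk
  have ht1 : (1 + p).Coprime p := by
    rw [Nat.coprime_add_self_left]
    exact Nat.coprime_one_left p
  obtain ⟨s, hs⟩ := exists_galB (p := p) (k := k) B ht1
  have hN : ∀ (v g : A) (M : ℕ) (c : MonoidAlgebra k A), v ^ p ^ M = 1 → v ^ (1 + p) ≠ v →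
      IsBlock (C1 v) c → resS (C1 v : Set A) b * c = c → v ^ (1 + p) * g = g * v → cj g c ≠ c :=
    fun v g M c hv hv1 hc hbc hg =>
      no_gal1 h hpE (by rw [Nat.add_sub_cancel_left]) (by omega) hv hv1 hc hbc hg
  obtain ⟨M, hM⟩ := pow_one_of h
  have hTm : ∀ u : T, u ^ p ^ Nat.card A = 1 := by
    intro u
    apply hφ
    rw [map_pow, map_one]
    exact pel_card (hM (φ u) ((hr _).2 ⟨u, rfl⟩))
  have hK : ∀ χ : Ir (KW p k) A, Ker φ ⊥ χ := fun χ z hz x => by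
    rw [Subgroup.mem_bot.1 hz, map_one, one_mul]
  set S : Finset (IR φ ⊥ B) :=
    Finset.univ.filter fun χ => s ⟨χ.1, χ.2.2⟩ = ⟨χ.1, χ.2.2⟩ with hSd
  have hSc : Nat.card {χ : IrB B // s χ = χ} = S.card := by
    rw [hSd, ← Fintype.card_subtype, ← Nat.card_eq_fintype_card]
    exact Nat.card_congr ⟨fun χ => ⟨⟨χ.1.1, hK _, χ.1.2⟩, χ.2⟩, fun χ => ⟨⟨χ.1.1, χ.1.2.2⟩, χ.2⟩,
      fun _ => rfl, fun _ => rfl⟩
  refine ⟨S, fun χ hχ u => ?_, fun χ _ => ?_, fun W _ x hx hne => ?_, ?_⟩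
  · by_cases hu : u = 1
    · rw [hu, one_pow]
    have hχ' : s ⟨χ.1, χ.2.2⟩ = ⟨χ.1, χ.2.2⟩ := (Finset.mem_filter.1 hχ).2
    have hz := zpowers_pow ht1 (hTm u)
    have hu' : u ^ (1 + p) ≠ 1 := by
      intro h1
      rw [h1, Subgroup.zpowers_one_eq_bot] at hz
      exact hu (Subgroup.zpowers_eq_bot.1 hz.symm)
    have hlt : (⊥ : Subgroup T) < ⊥ ⊔ Subgroup.zpowers u := by
      rw [bot_sup_eq, bot_lt_iff_ne_bot]
      exact fun h1 => hu (Subgroup.zpowers_eq_bot.1 h1)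
    have h2 := gal_row (t := 1 + p) (χ := χ.1) (χ' := χ.1) (u := u) (hS.ok _ hlt)
      (hM _ ((hr _).2 ⟨u, rfl⟩)) hz (fun F hF hF' => by
        have h3 := hs ⟨χ.1, χ.2.2⟩ (φ u) M (hM _ ((hr _).2 ⟨u, rfl⟩)) F hF hF'
        rwa [hχ'] at h3)
    rw [hψ.out χ _ (fun h3 => hu' (Subgroup.mem_bot.1 h3)),
      hψ.out χ _ (fun h3 => hu (Subgroup.mem_bot.1 h3))]
    exact h2.symm
  · obtain ⟨u₀, hu₀, hst⟩ := hreg
    refine ⟨u₀, ?_⟩
    have h1 : u₀ ∉ (⊥ : Subgroup T) := fun h2 => hu₀ (Subgroup.mem_bot.1 h2)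
    rw [hψ.out χ _ h1]
    exact rwv_ne hp2 hS hpE hB χ.2.2 h1 ((st_EG hφ hr u₀).1 hst)
  · rw [← hSc]
    refine fix_ge_sum hb hB s ht1 hs hN x (fun w => ?_) hne
    rw [pow_add, hx w, pow_one, mul_one]
  · rw [← hSc]
    exact fix_ge' hb hB s ht1 hs hN

end

end Pool.Agent.Lib.P0c8ca5.Ex
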