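import Mathlib
import Pool.Agent.Lib.P0c8ca5Ex.ZG
import Pool.Agent.Lib.P0c8ca5Nc.CM
import Pool.Agent.Lib.P0c8ca5Kk.Kh

/-!
# ZGb: the local numbers for cyclic stabilizers, and `l(b) ≤ |E|` in rank two

* `l_ge_cyc`: `|E| ≤ l(b)` if `E` is cyclic of order `< p`.
* `l_loc`: the same for the local block at `Q`.
* `l_le_two`: from `fixed_rows` and a bound for the number of the fixed rows.
-/

set_option linter.unusedSectionVars false

namespace Pool.Agent.Lib.P0c8ca5.Ex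

open MonoidAlgebra

section
variable {p : ℕ} [Fact p.Prime] {k : Type*} [Field k] [IsAlgClosed k] [CharP k p]
  {A : Type*} [Group A] [Fintype A] {T : Type*} [CommGroup T] [Fintype T]
  {φ : T →* A} {b f i : MonoidAlgebra k A} {D : Subgroup A}

/-- every representation of `H` is invariant under `H` -/
theorem card_self {H : Subgroup A} {e : MonoidAlgebra k A} (he : e ∈ fixAlg k H H)
    (hee : e * e = e) :
    Nat.card (Quotient (irrInvSetoid H H e)) = Nat.card (IrX H e) := by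
  obtain ⟨hs, hi⟩ := mem_fixAlg.1 he
  have h1 := card_irr_inv (k := k) (N := H) (X := H) Subgroup.le_normalizer hs hi hee
  have h2 := card_irr_inv (k := k) (N := H) (X := ⊥) bot_le hs hi hee
  change _ = Nat.card (Quotient (irrInvSetoid H ⊥ e))
  rw [h1, h2]
  refine Nat.card_congr (Equiv.subtypeEquivRight fun χ => ?_)
  constructor
  · refine fun h => ⟨h.1, fun g hg x => ?_⟩
    exact h.2 g (by rw [Subgroup.mem_bot.1 hg]; exact H.one_mem) x
  · refine fun h => ⟨h.1, fun g hg x => ?_⟩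
    obtain ⟨g', n, ρ, hρ, rfl⟩ := χ
    exact chi_conj_mem ρ hg x

/-- **a cyclic inertial quotient of order less than `p`** -/
theorem l_ge_cyc (hp2 : p ≠ 2) (h : Src p b D f i) (hφ : Function.Injective φ)
    (hr : ∀ x, x ∈ D ↔ ∃ t, φ t = x) (hE : eN D f < p) (hc : IsCyclic (EG φ D f)) :
    eN D f ≤ Nat.card (IrX (⊤ : Subgroup A) b) := by
  have hpos : 0 < eN D f := by
    unfold eN Subgroup.relIndex
    exact Nat.pos_of_ne_zero Subgroup.index_ne_zero_of_finite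
  have hnd : ¬ p ∣ eN D f := fun h0 => absurd (Nat.le_of_dvd hpos h0) (not_le.2 hE)
  obtain ⟨z, hz, hgen⟩ := Nc.exists_gen (f := f) hφ hr hc
  have h1 := Nc.card_cyc hp2 h hnd hz hgen
  have h2 := Nc.kap_St hp2 h hnd
  obtain ⟨t, ht⟩ := Nc.l_kap h hnd
  rw [h2, h1] at ht
  by_contra hcon
  push Not at hcon
  have h3 : t < 0 := by
    by_contra h4
    push Not at h4
    have h5 : (0 : ℤ) ≤ p * t := mul_nonneg (by positivity) h4
    have h6 : ((Nat.card (IrX (⊤ : Subgroup A) b) : ℕ) : ℤ) < eN D f := by exact_mod_cast hcon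
    linarith
  have h4 : (p : ℤ) * t ≤ -p := by nlinarith [(Fact.out : p.Prime).pos]
  have h5 : (0 : ℤ) ≤ (Nat.card (IrX (⊤ : Subgroup A) b) : ℤ) := by positivity
  have h6 : ((eN D f : ℕ) : ℤ) < p := by exact_mod_cast hE
  linarith

/-- the local block at `Q` -/
theorem l_loc (hp2 : p ≠ 2) (h : Src p b D f i) (hφ : Function.Injective φ)
    (hr : ∀ x, x ∈ D ↔ ∃ t, φ t = x) {Q : Subgroup T} {c : MonoidAlgebra k A}
    (hc : LbH (cq φ Q) i c) (hE : eQ φ D f Q < p)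
    (hcyc : ∀ E' ≤ EG φ D f, (∀ α ∈ E', ∀ t ∈ Q, α t = t) → IsCyclic ↥E') :
    eQ φ D f Q ≤ Nat.card (Quotient (irrInvSetoid (cq φ Q) (cq φ Q) c)) := by
  have := Fintype.ofFinite ↥(cq φ Q)
  set H := cq φ Q with hH
  have hle : ∀ t, φ t ∈ H := fun t => YuAux.D_le_cq h hr Q ((hr _).2 ⟨t, rfl⟩)
  set φ' : T →* ↥H := φ.codRestrict H hle with hφd
  have hφ' : ∀ t, (φ' t : A) = φ t := fun t => rfl
  have hi' : Function.Injective φ' := fun a b hab => hφ (congrArg Subtype.val hab)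
  have hS := YuAux.src_sub h hr hc
  have hr' : ∀ x : ↥H, x ∈ D.subgroupOf H ↔ ∃ t, φ' t = x := YuAux.ran_sub hφ' hr
  have hcen : ∀ z ∈ Q, ∀ a : ↥H, φ' z * a = a * φ' z := by
    intro z hz a
    apply Subtype.ext
    exact Subgroup.mem_centralizer_iff.1 a.2 _ ⟨z, hz, rfl⟩
  have e1 : eN (D.subgroupOf H) (dnr H f) = eQ φ D f Q := by
    rw [← card_EG (φ := φ') hi' hr', ← eQ_cen hcen hi']
    exact YuAux.eQ_sub h hr hφ' le_rfl
  have hcy : IsCyclic (EG φ' (D.subgroupOf H) (dnr H f)) := by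
    refine hcyc _ (fun α hα => YuAux.mem_EG_sub hφ' (YuAux.D_le_cq h hr Q)
      (YuAux.supp_f h hr Q) hα) fun α hα t ht => ?_
    obtain ⟨g, -, hg⟩ := hα
    apply hi'
    rw [hg t, ← hcen t ht g, mul_inv_cancel_right]
  have h1 := l_ge_cyc hp2 hS hi' hr' (by rw [e1]; exact hE) hcy
  rw [e1] at h1
  refine h1.trans (le_of_eq ?_)
  rw [card_self hc.blk.mem hc.blk.idem, ← Kk.KhAux.irX_dn' (le_refl H) c,
    Subgroup.subgroupOf_self]
  rfl

variable {G : Subgroup T → A → KW p k}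

/-- **the bound `l(b) ≤ |E|` from the fixed rows** -/
theorem l_le_two (hp2 : p ≠ 2) (hS : Stp φ b D f i ⊥ G) (hpE : ¬ p ∣ eN D f)
    {B : MonoidAlgebra (OW p k) A} (hB : CenL b B) {ψ : IR φ ⊥ B → T → KW p k}
    (hψ : Rows φ D f ⊥ G B ψ) (hreg : ∃ u : T, u ≠ 1 ∧ st (EG φ D f) u = 1)
    (hst : ∀ u : T, u ≠ 1 → st (EG φ D f) u < p)
    (hcyc : ∀ E' ≤ EG φ D f, (∃ u : T, u ≠ 1 ∧ ∀ α ∈ E', α u = u) → IsCyclic ↥E')
    {W : Finset T} (h1W : 1 ∈ W) (hWp : ∀ v ∈ W, v ^ p = 1)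
    (hWne : ∀ v ∈ W, ∀ v' ∈ W, v ≠ v' → ¬ ∃ α ∈ EG φ D f, v' = α v)
    (hsum : ∀ S : Finset (IR φ ⊥ B), (∀ χ ∈ S, ∀ u, ψ χ (u ^ (1 + p)) = ψ χ u) →
      (∀ χ ∈ S, ∃ u, ψ χ u ≠ 0) → S.card ≤ ∑ v ∈ W, st (EG φ D f) v) :
    Nat.card (Quotient (irrInvSetoid (⊤ : Subgroup A) ⊤ b)) ≤ eN D f := by
  classical
  have h := hS.src
  have hφ := hS.inj
  have hr := hS.ran
  have hb := h.root.blk
  obtain ⟨M, hM⟩ := pow_one_of h
  obtain ⟨S, hS1, hS2, hS3, -⟩ := fixed_rows hp2 hS hpE hB hψ hreg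
  have hmem : ∀ t, φ t ∈ D := fun t => (hr _).2 ⟨t, rfl⟩
  have hcex := fun t : T => exists_lbH h (hmem t)
  choose c hc using hcex
  have hC1 : C1 (φ 1) = ⊤ := by
    rw [map_one]
    ext x
    rw [mem_C1', one_mul, mul_one]
    simp
  have hc1 : c 1 = b := by
    have e1 := lbH_b_mul h (hmem 1) (hc 1)
    have e2 : resS (C1 (φ 1) : Set A) b = b := by
      ext x
      rw [coeff_resS_of_mem]
      rw [hC1]
      exact Subgroup.mem_top x
    rw [e2] at e1
    have e3 := (hc 1).blk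
    rw [hC1] at e3
    rcases hb.eq_or_mul_eq_zero e3 with e4 | e4
    · exact e4.symm
    · rw [e1] at e4
      exact absurd e4 e3.ne_zero
  -- the pairs
  let x : Fin W.card → Pr p b := fun w =>
    let v : T := (W.equivFin.symm w).1
    ⟨φ v, c v, ⟨M, hM _ (hmem v)⟩, (hc v).blk, lbH_b_mul h (hmem v) (hc v)⟩
  have h3 := hS3 (Fin W.card) x (fun w => by
      change φ (W.equivFin.symm w).1 ^ p = 1
      rw [← map_pow, hWp _ (W.equivFin.symm w).2, map_one])
    (fun w w' hww => by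
      rintro ⟨g, hg1, hg2⟩
      change φ (W.equivFin.symm w).1 * g = g * φ (W.equivFin.symm w').1 at hg1
      change cj g (c (W.equivFin.symm w').1) = c (W.equivFin.symm w).1 at hg2
      obtain ⟨g', hg', hg''⟩ := fus_elt h (hmem _) (hmem _) hg1 (hc _) (hc _) hg2
      obtain ⟨α, hα, hα'⟩ := exists_EG hφ hr hg'
      refine hWne _ (W.equivFin.symm w').2 _ (W.equivFin.symm w).2 (fun h4 => hww ?_)
        ⟨α, hα, ?_⟩
      · exact (W.equivFin.symm.injective (Subtype.ext h4)).symm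
      · apply hφ
        rw [hα', ← hg'', mul_inv_cancel_right])
  have h4 : ∑ w : Fin W.card,
      Nat.card (Quotient (irrInvSetoid (C1 (x w).v) (C1 (x w).v) (x w).c))
      = ∑ v ∈ W, Nat.card (Quotient (irrInvSetoid (C1 (φ v)) (C1 (φ v)) (c v))) := by
    rw [← Finset.sum_coe_sort W
      (fun v => Nat.card (Quotient (irrInvSetoid (C1 (φ v)) (C1 (φ v)) (c v))))]
    exact Fintype.sum_equiv W.equivFin.symm _ _ fun w => rfl
  rw [h4] at h3
  have h5 := h3.trans (hsum S hS1 hS2)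
  rw [← Finset.add_sum_erase W _ h1W, ← Finset.add_sum_erase W (fun v => st (EG φ D f) v) h1W,
    hc1, hC1] at h5
  have h6 : ∑ v ∈ W.erase 1, st (EG φ D f) v ≤
      ∑ v ∈ W.erase 1, Nat.card (Quotient (irrInvSetoid (C1 (φ v)) (C1 (φ v)) (c v))) := by
    refine Finset.sum_le_sum fun v hv => ?_
    have hv1 : v ≠ 1 := (Finset.mem_erase.1 hv).1
    have e1 : cq φ (Subgroup.zpowers v) = C1 (φ v) := by
      rw [cq, MonoidHom.map_zpowers, CD_zpowers]
    have e2 : eQ φ D f (Subgroup.zpowers v) = st (EG φ D f) v :=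
      (eQ_sup (R := ⊥) (fun z hz a => by
        rw [Subgroup.mem_bot.1 hz, map_one, one_mul, mul_one]) hφ v).2
    have e3 : LbH (cq φ (Subgroup.zpowers v)) i (c v) := by rw [e1]; exact hc v
    have e4 := l_loc hp2 h hφ hr e3 (by rw [e2]; exact hst v hv1)
      (fun E' hE' hfix => hcyc E' hE' ⟨v, hv1, fun α hα => hfix α hα v
        (Subgroup.mem_zpowers v)⟩)
    rw [e2, e1] at e4
    exact e4
  have h7 : st (EG φ D f) (1 : T) = eN D f := by
    rw [← card_EG (φ := φ) hφ hr, st]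
    exact Nat.card_congr ⟨fun a => a.1, fun a => ⟨a, map_one _⟩, fun _ => rfl, fun _ => rfl⟩
  rw [← h7]
  omega

end

end Pool.Agent.Lib.P0c8ca5.Ex
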