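import Mathlib
import Pool.Agent.Lib.P0c8ca5Ex.YZa

/-!
# ZF: the rows which are invariant under `u ↦ u ^ (1 + p)`

`E` is a `p'`-group of automorphisms of the abelian `p`-group `T`, the rows `ψ i` have the Gram matrix of the
`E`-set `T`. `fix_rows`: the number of the nonzero rows which are invariant under `u ↦ u ^ (1 + p)` is at most
the sum of `|E_l| / tau l` over representatives of the `E`-orbits of the characters `l` of `T`, where
`tau l = o(l) / p` for `l ≠ 1`.
-/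

set_option linter.unusedSectionVars false

namespace Pool.Agent.Lib.P0c8ca5.Ex

open Finset YLx YZx

namespace ZFx

/-! ### arithmetic -/

theorem lte_one {p : ℕ} (hp : p.Prime) (hp2 : p ≠ 2) {r : ℤ} (hr : (p : ℤ) ∣ r - 1) {n a : ℕ}
    (hn : ¬ p ∣ n) (h : (p : ℤ) ^ a ∣ r ^ n - 1) : (p : ℤ) ^ a ∣ r - 1 := by
  have hx : ¬ (p : ℤ) ∣ r := by
    intro h1
    have h2 : (p : ℤ) ∣ 1 := by
      have h3 := dvd_sub h1 hr
      rwa [sub_sub_cancel] at h3
    have h3 : p ∣ 1 := by exact_mod_cast h2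
    exact hp.one_lt.ne' (Nat.dvd_one.1 h3)
  have h1 := Int.emultiplicity_pow_sub_pow hp (hp.odd_of_ne_two hp2) (y := 1) hr hx n
  rw [one_pow, emultiplicity_eq_zero.2 hn, add_zero] at h1
  rw [pow_dvd_iff_le_emultiplicity] at h ⊢
  rwa [h1] at h

theorem lte_p {p : ℕ} (hp : p.Prime) (hp2 : p ≠ 2) {j a : ℕ}
    (h : (p : ℤ) ^ (a + 1) ∣ (1 + (p : ℤ)) ^ j - 1) : p ^ a ∣ j := by
  have hr : (p : ℤ) ∣ (1 + (p : ℤ)) - 1 := by rw [add_sub_cancel_left]
  have hx : ¬ (p : ℤ) ∣ 1 + (p : ℤ) := by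
    intro h1
    have h2 : (p : ℤ) ∣ 1 := by
      have h3 := dvd_sub h1 (dvd_refl (p : ℤ))
      rwa [add_sub_cancel_right] at h3
    have h3 : p ∣ 1 := by exact_mod_cast h2
    exact hp.one_lt.ne' (Nat.dvd_one.1 h3)
  have h1 := Int.emultiplicity_pow_sub_pow hp (hp.odd_of_ne_two hp2) (y := 1) hr hx j
  rw [one_pow, add_sub_cancel_left] at h1
  have h2 : emultiplicity (p : ℤ) (p : ℤ) = 1 := by
    have h3 : FiniteMultiplicity (p : ℤ) (p : ℤ) := by
      rw [Int.finiteMultiplicity_iff]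
      exact ⟨by rw [Int.natAbs_natCast]; exact hp.one_lt.ne', by exact_mod_cast hp.ne_zero⟩
    exact h3.emultiplicity_self
  rw [h2] at h1
  rw [pow_dvd_iff_le_emultiplicity, h1] at h
  rw [pow_dvd_iff_le_emultiplicity]
  have h3 : (1 : ℕ∞) + (a : ℕ∞) ≤ 1 + emultiplicity p j := by
    refine le_trans (le_of_eq ?_) h
    push_cast
    ring
  exact (ENat.add_le_add_iff_left (ENat.coe_ne_top 1)).1 h3

section
variable {T : Type*} [CommGroup T] [Fintype T] {K : Type*} [Field K] [CharZero K]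
  [HasEnoughRootsOfUnity K (Monoid.exponent T)]

/-! ### powers of a character -/

theorem dl_pw (l : T →* Kˣ) (n : ℕ) (α : MulAut T) : dl (pw l n) α = pw (dl l α) n := by
  ext u
  change ((l ((α u) ^ n) : Kˣ) : K) = ((l (α (u ^ n)) : Kˣ) : K)
  simp only [map_pow]

/-- the order of a character -/
noncomputable def od (l : T →* Kˣ) : ℕ := Nat.card l.range

theorem exists_od (l : T →* Kˣ) : ∃ u, orderOf (l u) = od l := by
  have : Finite l.range := Set.finite_range l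
  have hc : IsCyclic l.range := inferInstance
  obtain ⟨⟨x, u, rfl⟩, hg⟩ := hc.exists_generator
  refine ⟨u, ?_⟩
  have h1 := orderOf_eq_card_of_forall_mem_zpowers hg
  rw [← Subgroup.orderOf_coe] at h1
  exact h1

theorem pw_eq_iff {l : T →* Kˣ} {x y : ℕ} : pw l x = pw l y ↔ x ≡ y [MOD od l] := by
  constructor
  · intro h
    obtain ⟨u, hu⟩ := exists_od l
    have h1 := DFunLike.congr_fun h u
    rw [pw_apply, pw_apply, map_pow, map_pow] at h1
    rw [← hu]
    exact pow_eq_pow_iff_modEq.1 h1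
  · intro h
    ext u
    rw [pw_apply, pw_apply, map_pow, map_pow]
    have : Finite l.range := Set.finite_range l
    have h2 : orderOf (l u) ∣ od l := by
      have h3 := orderOf_dvd_natCard (⟨l u, u, rfl⟩ : l.range)
      rwa [← Subgroup.orderOf_coe] at h3
    rw [pow_eq_pow_iff_modEq.2 (h.of_dvd h2)]

theorem od_pow {p : ℕ} (hp : p.Prime) (hT : IsPGroup p T) (l : T →* Kˣ) :
    ∃ a, od l = p ^ a := by
  obtain ⟨u, hu⟩ := exists_od l
  obtain ⟨m, hm⟩ := hT u
  have h1 : (l u) ^ p ^ m = 1 := by rw [← map_pow, hm, map_one]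
  obtain ⟨a, -, ha⟩ := (Nat.dvd_prime_pow hp).1 (orderOf_dvd_of_pow_eq_one h1)
  exact ⟨a, by rw [← hu, ha]⟩

/-- the number of the characters `l ^ t`, `t = 1` modulo `p` -/
noncomputable def tau (p : ℕ) (l : T →* Kˣ) : ℕ := max 1 (od l / p)

theorem tau_pos (p : ℕ) (l : T →* Kˣ) : 0 < tau p l := lt_of_lt_of_le one_pos (le_max_left _ _)

/-- the `l ^ t`, `t = 1` modulo `p`, are not conjugate -/
theorem conj_pw {p : ℕ} (hp : p.Prime) (hp2 : p ≠ 2) (hT : IsPGroup p T)
    {E : Subgroup (MulAut T)} (hpE : ¬ p ∣ Nat.card E) {l : T →* Kˣ} {α : MulAut T}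
    (hα : α ∈ E) {j j' : ℕ} (hj : j < tau p l) (hj' : j' < tau p l)
    (h : dl (pw l ((1 + p) ^ j')) α = pw l ((1 + p) ^ j)) : j = j' ∧ dl l α = l := by
  obtain ⟨a, ha⟩ := od_pow hp hT l
  set N := Nat.totient (od l) with hN
  set M := j + (N * (j' + 1) - j') with hM
  have hod : 0 < od l := by rw [ha]; exact pow_pos hp.pos a
  have hNpos : 0 < N := Nat.totient_pos.2 hod
  have hle : j' ≤ N * (j' + 1) := by nlinarith
  have hcop : Nat.Coprime (1 + p) (od l) := by
    rw [ha]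
    refine Nat.Coprime.pow_right a ?_
    rw [Nat.coprime_comm, hp.coprime_iff_not_dvd]
    intro h1
    exact hp.one_lt.ne' (Nat.dvd_one.1 ((Nat.dvd_add_left (dvd_refl p)).1 h1))
  -- `dl l α = l ^ r`
  have h1 : dl l α = pw l ((1 + p) ^ M) := by
    have h2 := congrArg (fun x => pw x ((1 + p) ^ (N * (j' + 1) - j'))) h
    simp only [← pw_mul, ← dl_pw] at h2
    rw [← pow_add, ← pow_add, Nat.add_sub_cancel' hle] at h2
    have h3 : pw l ((1 + p) ^ (N * (j' + 1))) = l := by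
      conv_rhs => rw [← pw_one l]
      rw [pw_eq_iff, pow_mul]
      have h4 := (Nat.ModEq.pow_totient hcop).pow (j' + 1)
      rwa [one_pow] at h4
    rwa [h3] at h2
  have h2 : ∀ n : ℕ, dl l (α ^ n) = pw l (((1 + p) ^ M) ^ n) := by
    intro n
    induction n with
    | zero => rw [pow_zero, pow_zero, dl_one, pw_one]
    | succ n ih => rw [pow_succ, dl_mul, ih, dl_pw, h1, ← pw_mul, mul_comm, pow_succ]
  have h3 := h2 (Nat.card E)
  rw [pow_card_E ⟨α, hα⟩, dl_one] at h3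
  have h4 : (1 : ℕ) ≡ ((1 + p) ^ M) ^ Nat.card E [MOD od l] := by
    rw [← pw_eq_iff, pw_one]
    exact h3
  have h5 : (p : ℤ) ^ a ∣ ((1 + (p : ℤ)) ^ M) ^ Nat.card E - 1 := by
    have h6 := (Nat.modEq_iff_dvd.1 h4)
    rw [ha] at h6
    push_cast at h6
    exact h6
  have hr1 : (p : ℤ) ∣ (1 + (p : ℤ)) ^ M - 1 := by
    have h6 := sub_dvd_pow_sub_pow (1 + (p : ℤ)) 1 M
    rw [one_pow, add_sub_cancel_left] at h6
    exact h6
  have h6 := lte_one hp hp2 hr1 hpE h5
  have h7 : dl l α = l := by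
    conv_rhs => rw [← pw_one l]
    rw [h1, pw_eq_iff]
    refine (Nat.modEq_iff_dvd.2 ?_).symm
    rw [ha]
    push_cast
    exact h6
  refine ⟨?_, h7⟩
  rcases Nat.eq_zero_or_pos a with h0 | h0
  · have h8 : tau p l = 1 := by
      unfold tau
      rw [ha, h0, pow_zero, Nat.div_eq_of_lt hp.one_lt]
      rfl
    omega
  · obtain ⟨a', rfl⟩ : ∃ a', a = a' + 1 := ⟨a - 1, by omega⟩
    have h8 : tau p l = p ^ a' := by
      unfold tau
      rw [ha, pow_succ, Nat.mul_div_cancel _ hp.pos]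
      exact max_eq_right (Nat.one_le_pow _ _ hp.pos)
    have h9 := lte_p hp hp2 h6
    have h10 : p ^ a' ∣ N := by
      rw [hN, ha, Nat.totient_prime_pow_succ hp]
      exact dvd_mul_right _ _
    have h11 : (j : ℤ) ≡ j' [ZMOD (p ^ a' : ℕ)] := by
      refine (Int.modEq_iff_dvd.2 ?_).symm
      have e1 : ((M : ℕ) : ℤ) = (j : ℤ) + ((N : ℤ) * (j' + 1) - j') := by
        rw [hM]
        push_cast [Nat.cast_sub hle]
        ring
      have e2 : ((p ^ a' : ℕ) : ℤ) ∣ (M : ℤ) := by exact_mod_cast h9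
      have e3 : ((p ^ a' : ℕ) : ℤ) ∣ (N : ℤ) * (j' + 1) := by
        exact Dvd.dvd.mul_right (by exact_mod_cast h10) _
      have e4 := dvd_sub e2 e3
      rw [e1] at e4
      have e5 : (j : ℤ) + ((N : ℤ) * (j' + 1) - j') - (N : ℤ) * (j' + 1) = j - j' := by ring
      rwa [e5] at e4
    have h12 : j ≡ j' [MOD p ^ a'] := (Int.natCast_modEq_iff).1 h11
    rw [h8] at hj hj'
    exact Nat.ModEq.eq_of_lt_of_lt h12 hj hj'

open Classical in
/-- the number of the `α` with `c ∘ α = a` -/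
noncomputable def cn (E : Subgroup (MulAut T)) [Fintype E] (a c : T →* Kˣ) : ℕ :=
  (univ.filter fun α : E => dl c (α : MulAut T) = a).card

open Classical in
/-- the Gram matrix of the multiplicities -/
theorem gram_bot {E : Subgroup (MulAut T)} [Fintype E] {I : Type*} [Fintype I] {ψ : I → T → K}
    (hG : ∀ u v, GramR E ⊥ ψ u v) (a c : T →* Kˣ) :
    ∑ i, mlt (ψ i) a * mlt (ψ i) c = (cn E a c : K) := by
  have hF0 : ∀ α ∈ E, ∀ z ∈ (⊥ : Subgroup T), α z = z := fun α _ z hz => by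
    rw [Subgroup.mem_bot.1 hz, map_one]
  have hF : Fact (∀ α ∈ E, ∀ z ∈ (⊥ : Subgroup T), α z = z) := ⟨hF0⟩
  have hgr : ∀ u v, (Nat.card (⊥ : Subgroup T) : K) * ∑ i, ψ i u * ψ i v⁻¹
      = (Fintype.card T : K) * (gR E ⊥ u v : K) := by
    intro u v
    by_cases h1 : ∃ α ∈ E, ∃ z ∈ (⊥ : Subgroup T), v = z * α u
    · rw [(hG u v).1 h1]
      congr 2
      obtain ⟨β, hβ, z, hz, rfl⟩ := h1
      rw [Subgroup.mem_bot.1 hz, one_mul]
      unfold gR
      rw [Nat.card_eq_fintype_card, Fintype.card_subtype]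
      refine card_bij (fun γ _ => (⟨β, hβ⟩ : E) * γ) ?_ ?_ ?_
      · intro γ hγ
        have h2 := (mem_filter.1 hγ).2
        refine mem_filter.2 ⟨mem_univ _, ?_⟩
        rw [Subgroup.coe_mul, MulAut.mul_apply, h2, mul_inv_cancel]
        exact Subgroup.one_mem _
      · intro α _ α' _ h
        exact mul_left_cancel h
      · intro α hα
        have h2 := Subgroup.mem_bot.1 (mem_filter.1 hα).2
        refine ⟨(⟨β, hβ⟩ : E)⁻¹ * α, mem_filter.2 ⟨mem_univ _, ?_⟩, by
          rw [mul_inv_cancel_left]⟩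
        have h3 : (α : MulAut T) u = β u := mul_inv_eq_one.1 h2
        rw [Subgroup.coe_mul, MulAut.mul_apply, h3]
        exact MulAut.inv_apply_self _ _ _
    · rw [(hG u v).2 h1, gR_zero h1, Nat.cast_zero, mul_zero, mul_zero]
  have h1 := gram_mlt (R := (⊥ : Subgroup T)) (E := E) (ψ := ψ) (fun u => chr a u⁻¹)
    (fun v => chr c v) (fun z hz v => by rw [Subgroup.mem_bot.1 hz, one_mul])
    (fun u v => Or.inr (Or.inr (hgr u v)))
  have h2 : ∀ i, mlt (ψ i) a * mlt (ψ i) c = ((Fintype.card T : K)⁻¹ * ∑ u, ψ i u * chr a u⁻¹) *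
      ((Fintype.card T : K)⁻¹ * ∑ v, ψ i v⁻¹ * chr c v) := by
    intro i
    rw [mlt_eq' (ψ i) c]
    rfl
  rw [sum_congr rfl fun i _ => h2 i, h1]
  have h3 : ∀ α : E, (Fintype.card T : K)⁻¹ * ∑ u, chr a u⁻¹ * chr c ((α : MulAut T) u)
      = if dl c (α : MulAut T) = a then 1 else 0 := fun α => orth_LR a (dl c (α : MulAut T))
  rw [sum_congr rfl fun α _ => h3 α, sum_boole]
  rfl

theorem cn_dl_right (E : Subgroup (MulAut T)) [Fintype E] (a c : T →* Kˣ) {β : MulAut T}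
    (hβ : β ∈ E) : cn E a (dl c β) = cn E a c := by
  classical
  unfold cn
  refine card_bij (fun α _ => (⟨β, hβ⟩ : E) * α) ?_ ?_ ?_
  · intro α hα
    exact mem_filter.2 ⟨mem_univ _, (mem_filter.1 hα).2⟩
  · intro α _ α' _ h
    exact mul_left_cancel h
  · intro α hα
    refine ⟨(⟨β, hβ⟩ : E)⁻¹ * α, mem_filter.2 ⟨mem_univ _, ?_⟩, by rw [mul_inv_cancel_left]⟩
    have h1 := (mem_filter.1 hα).2
    rw [← dl_mul, ← h1]
    congr 1
    rw [Subgroup.coe_mul]
    exact mul_inv_cancel_left _ _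

theorem cn_dl_left (E : Subgroup (MulAut T)) [Fintype E] (a c : T →* Kˣ) {β : MulAut T}
    (hβ : β ∈ E) : cn E (dl a β) c = cn E a c := by
  classical
  unfold cn
  refine card_bij (fun α _ => α * (⟨β, hβ⟩ : E)⁻¹) ?_ ?_ ?_
  · intro α hα
    refine mem_filter.2 ⟨mem_univ _, ?_⟩
    rw [Subgroup.coe_mul, dl_mul, (mem_filter.1 hα).2, ← dl_mul]
    have h1 : β * (((⟨β, hβ⟩ : E)⁻¹ : E) : MulAut T) = 1 := mul_inv_cancel β
    rw [h1, dl_one]
  · intro α _ α' _ h
    exact mul_right_cancel h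
  · intro α hα
    refine ⟨α * (⟨β, hβ⟩ : E), mem_filter.2 ⟨mem_univ _, ?_⟩, by rw [mul_inv_cancel_right]⟩
    rw [Subgroup.coe_mul, dl_mul, (mem_filter.1 hα).2]

/-- the inverse power -/
theorem pw_inv {p : ℕ} (hp : p.Prime) (hT : IsPGroup p T) (l : T →* Kˣ) (j : ℕ) :
    ∃ j', pw (pw l ((1 + p) ^ j)) ((1 + p) ^ j') = l := by
  obtain ⟨a, ha⟩ := od_pow hp hT l
  set N := Nat.totient (od l) with hN
  have hod : 0 < od l := by rw [ha]; exact pow_pos hp.pos a
  have hNpos : 0 < N := Nat.totient_pos.2 hod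
  have hle : j ≤ N * (j + 1) := by nlinarith
  have hcop : Nat.Coprime (1 + p) (od l) := by
    rw [ha]
    refine Nat.Coprime.pow_right a ?_
    rw [Nat.coprime_comm, hp.coprime_iff_not_dvd]
    intro h1
    exact hp.one_lt.ne' (Nat.dvd_one.1 ((Nat.dvd_add_left (dvd_refl p)).1 h1))
  refine ⟨N * (j + 1) - j, ?_⟩
  rw [← pw_mul, ← pow_add, Nat.add_sub_cancel' hle]
  conv_rhs => rw [← pw_one l]
  rw [pw_eq_iff, pow_mul]
  have h4 := (Nat.ModEq.pow_totient hcop).pow (j + 1)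
  rwa [one_pow] at h4

theorem range_pw (l : T →* Kˣ) (n : ℕ) : (pw l n).range ≤ l.range := by
  rintro _ ⟨u, rfl⟩
  exact ⟨u ^ n, rfl⟩

theorem od_pw {p : ℕ} (hp : p.Prime) (hT : IsPGroup p T) (l : T →* Kˣ) (j : ℕ) :
    od (pw l ((1 + p) ^ j)) = od l := by
  obtain ⟨j', hj'⟩ := pw_inv hp hT l j
  have h1 : (pw l ((1 + p) ^ j)).range = l.range := by
    refine le_antisymm (range_pw _ _) ?_
    conv_lhs => rw [← hj']
    exact range_pw _ _
  unfold od
  rw [h1]

theorem od_dl (l : T →* Kˣ) (β : MulAut T) : od (dl l β) = od l := by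
  have h1 : (dl l β).range = l.range := by
    ext x
    constructor
    · rintro ⟨u, rfl⟩
      exact ⟨β u, rfl⟩
    · rintro ⟨u, rfl⟩
      exact ⟨β⁻¹ u, by
        change l (β (β⁻¹ u)) = l u
        rw [MulAut.apply_inv_self]⟩
  unfold od
  rw [h1]

/-- the number of the `α ∈ E` with `l ∘ α = l` -/
noncomputable def stl (E : Subgroup (MulAut T)) (l : T →* Kˣ) : ℕ :=
  Nat.card {α : E // dl l (α : MulAut T) = l}

theorem stl_eq (E : Subgroup (MulAut T)) [Fintype E] (l : T →* Kˣ) : stl E l = cn E l l := by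
  classical
  unfold stl cn
  rw [Nat.card_eq_fintype_card, Fintype.card_subtype]

theorem stl_dl (E : Subgroup (MulAut T)) (l : T →* Kˣ) {β : MulAut T} (hβ : β ∈ E) :
    stl E (dl l β) = stl E l := by
  have : Fintype E := Fintype.ofFinite _
  rw [stl_eq, stl_eq, cn_dl_left E _ _ hβ, cn_dl_right E _ _ hβ]

theorem stl_pw {p : ℕ} (hp : p.Prime) (hT : IsPGroup p T) (E : Subgroup (MulAut T))
    (l : T →* Kˣ) (j : ℕ) : stl E (pw l ((1 + p) ^ j)) = stl E l := by
  obtain ⟨j', hj'⟩ := pw_inv hp hT l j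
  unfold stl
  refine Nat.card_congr (Equiv.subtypeEquivRight fun α => ?_)
  constructor
  · intro h
    have h1 := congrArg (fun x => pw x ((1 + p) ^ j')) h
    simp only [← dl_pw] at h1
    rwa [hj'] at h1
  · intro h
    rw [dl_pw, h]

/-- the multiplicities of the invariant rows -/
theorem fix_core {p : ℕ} (hp : p.Prime) (hp2 : p ≠ 2) (hT : IsPGroup p T)
    {E : Subgroup (MulAut T)} (hpE : ¬ p ∣ Nat.card E) {I : Type*} [Fintype I]
    {ψ : I → T → K} (hv : ∀ i, ψ i ∈ vir T K) (hG : ∀ u v, GramR E ⊥ ψ u v) (S : Finset I)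
    (hS : ∀ i ∈ S, ∀ u, ψ i (u ^ (1 + p)) = ψ i u) (hne : ∀ i ∈ S, ∃ u, ψ i u ≠ 0) :
    ∃ M : I → (T →* Kˣ) → ℤ, (∀ l β, β ∈ E → ∀ i, M i (dl l β) = M i l) ∧
      (∀ i ∈ S, ∀ l j, M i (pw l ((1 + p) ^ j)) = M i l) ∧
      (∀ l, (tau p l : ℤ) * ∑ i ∈ S, M i l ^ 2 ≤ stl E l) ∧ ∀ i ∈ S, ∃ l, M i l ≠ 0 := by
  classical
  have : Fintype E := Fintype.ofFinite _
  obtain ⟨M, hM⟩ := int_mlt hv
  have hgram : ∀ a c : T →* Kˣ, ∑ i, M i a * M i c = (cn E a c : ℤ) := by
    intro a c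
    have h1 := gram_bot hG a c
    simp only [hM] at h1
    exact_mod_cast h1
  have hcop : (Nat.card T).Coprime (1 + p) := by
    have hF : Fact p.Prime := ⟨hp⟩
    obtain ⟨n, hn⟩ := IsPGroup.iff_card.1 hT
    rw [hn]
    refine Nat.Coprime.pow_left n ?_
    rw [hp.coprime_iff_not_dvd]
    intro h1
    exact hp.one_lt.ne' (Nat.dvd_one.1 ((Nat.dvd_add_left (dvd_refl p)).1 h1))
  -- the multiplicities are constant on the orbits of `E`
  have horb : ∀ (l : T →* Kˣ) (β : MulAut T), β ∈ E → ∀ i, M i (dl l β) = M i l := by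
    intro l β hβ i
    have h1 : ∑ i, (M i (dl l β) - M i l) ^ 2 = 0 := by
      have h2 : ∀ i, (M i (dl l β) - M i l) ^ 2 = M i (dl l β) * M i (dl l β)
          - 2 * (M i (dl l β) * M i l) + M i l * M i l := fun i => by ring
      rw [sum_congr rfl fun i _ => h2 i, sum_add_distrib, sum_sub_distrib, ← mul_sum, hgram,
        hgram, hgram, cn_dl_left E _ _ hβ, cn_dl_right E _ _ hβ, cn_dl_left E _ _ hβ]
      ring
    have h2 := (sum_eq_zero_iff_of_nonneg fun i _ => sq_nonneg (M i (dl l β) - M i l)).1 h1 i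
      (mem_univ i)
    exact sub_eq_zero.1 (pow_eq_zero_iff (two_ne_zero)|>.1 h2)
  have hpw : ∀ i ∈ S, ∀ (l : T →* Kˣ) (j : ℕ), M i (pw l ((1 + p) ^ j)) = M i l := by
    intro i hi l j
    have h4 := mlt_pow_pow hcop (hS i hi) l j
    rw [hM, hM] at h4
    exact_mod_cast h4
  refine ⟨M, horb, hpw, fun l => ?_, fun i hi => ?_⟩
  · set d := tau p l with hd
    have hd0 : 0 < d := tau_pos p l
    have h1 : ∑ i', (∑ j ∈ range d, M i' (pw l ((1 + p) ^ j))) ^ 2 ≤ (d : ℤ) * stl E l := by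
      have h2 : ∀ i', (∑ j ∈ range d, M i' (pw l ((1 + p) ^ j))) ^ 2
          = ∑ j' ∈ range d, ∑ j ∈ range d, M i' (pw l ((1 + p) ^ j)) *
            M i' (pw l ((1 + p) ^ j')) := by
        intro i'
        rw [sq, sum_mul_sum, sum_comm]
      rw [sum_congr rfl fun i' _ => h2 i', sum_comm]
      have h3 : ∀ j' ∈ range d, ∑ i', ∑ j ∈ range d, M i' (pw l ((1 + p) ^ j)) *
          M i' (pw l ((1 + p) ^ j')) ≤ (stl E l : ℤ) := by
        intro j' hj'
        rw [sum_comm]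
        have h4 : ∀ j ∈ range d, ∑ i', M i' (pw l ((1 + p) ^ j)) * M i' (pw l ((1 + p) ^ j'))
            ≤ if j = j' then (stl E l : ℤ) else 0 := by
          intro j hj
          rw [hgram]
          have h5 : ∀ α : E, dl (pw l ((1 + p) ^ j')) (α : MulAut T) = pw l ((1 + p) ^ j) →
              j = j' ∧ dl l (α : MulAut T) = l := fun α hα =>
            conj_pw hp hp2 hT hpE α.2 (mem_range.1 hj) (mem_range.1 hj') hα
          split_ifs with h6
          · rw [stl_eq]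
            have h7 : cn E (pw l ((1 + p) ^ j)) (pw l ((1 + p) ^ j')) ≤ cn E l l := by
              unfold cn
              refine card_le_card fun α hα => ?_
              rw [mem_filter] at hα ⊢
              exact ⟨mem_univ _, (h5 α hα.2).2⟩
            exact_mod_cast h7
          · have h7 : cn E (pw l ((1 + p) ^ j)) (pw l ((1 + p) ^ j')) = 0 := by
              unfold cn
              rw [Finset.card_eq_zero, filter_eq_empty_iff]
              intro α _ hα
              exact h6 (h5 α hα).1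
            rw [h7, Nat.cast_zero]
        refine (sum_le_sum h4).trans ?_
        rw [sum_ite_eq' (range d) j', if_pos hj']
      calc _ ≤ ∑ _j' ∈ range d, (stl E l : ℤ) := sum_le_sum h3
        _ = (d : ℤ) * stl E l := by rw [sum_const, Finset.card_range, nsmul_eq_mul]
    have h2 : ∀ i ∈ S, ∑ j ∈ range d, M i (pw l ((1 + p) ^ j)) = (d : ℤ) * M i l := by
      intro i hi
      rw [sum_congr rfl fun j _ => hpw i hi l j, sum_const, Finset.card_range, nsmul_eq_mul]
    have h3 : (d : ℤ) * ((d : ℤ) * ∑ i ∈ S, M i l ^ 2) ≤ (d : ℤ) * stl E l := by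
      calc (d : ℤ) * ((d : ℤ) * ∑ i ∈ S, M i l ^ 2)
          = ∑ i ∈ S, (∑ j ∈ range d, M i (pw l ((1 + p) ^ j))) ^ 2 := by
            rw [mul_sum, mul_sum]
            refine sum_congr rfl fun i hi => ?_
            rw [h2 i hi]
            ring
        _ ≤ ∑ i', (∑ j ∈ range d, M i' (pw l ((1 + p) ^ j))) ^ 2 :=
            sum_le_sum_of_subset_of_nonneg (subset_univ S) fun i _ _ => sq_nonneg _
        _ ≤ _ := h1
    exact le_of_mul_le_mul_left h3 (by exact_mod_cast hd0)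
  · obtain ⟨u, hu⟩ := hne i hi
    by_contra hcon
    push Not at hcon
    apply hu
    rw [eq_sum_mlt (ψ i) u]
    exact sum_eq_zero fun l _ => by rw [hM, hcon, Int.cast_zero, zero_mul]

end

end ZFx

open ZFx

section
variable {T : Type*} [CommGroup T] [Fintype T] {K : Type*} [Field K] [CharZero K]
  [HasEnoughRootsOfUnity K (Monoid.exponent T)]

/-- **the invariant rows** -/
theorem fix_rows {p : ℕ} (hp : p.Prime) (hp2 : p ≠ 2) (hT : IsPGroup p T)
    {E : Subgroup (MulAut T)} (hpE : ¬ p ∣ Nat.card E) {I : Type*} [Fintype I]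
    {ψ : I → T → K} (hv : ∀ i, ψ i ∈ vir T K) (hG : ∀ u v, GramR E ⊥ ψ u v) (S : Finset I)
    (hS : ∀ i ∈ S, ∀ u, ψ i (u ^ (1 + p)) = ψ i u) (hne : ∀ i ∈ S, ∃ u, ψ i u ≠ 0)
    (L : Finset (T →* Kˣ)) (hL : ∀ l : T →* Kˣ, ∃ l₀ ∈ L, ∃ α ∈ E, ∃ j,
      l = pw (dl l₀ α) ((1 + p) ^ j)) :
    S.card ≤ ∑ l ∈ L, stl E l / tau p l := by
  classical
  obtain ⟨M, horb, hpw, hle, hex⟩ := fix_core hp hp2 hT hpE hv hG S hS hne
  have hone : ∀ l : T →* Kˣ, ∑ i ∈ S, M i l ^ 2 ≤ ((stl E l / tau p l : ℕ) : ℤ) := by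
    intro l
    have h4 := hle l
    obtain ⟨N, hN⟩ := Int.eq_ofNat_of_zero_le (sum_nonneg fun i (_ : i ∈ S) => sq_nonneg (M i l))
    rw [hN] at h4 ⊢
    have h5 : tau p l * N ≤ stl E l := by exact_mod_cast h4
    have h6 : N ≤ stl E l / tau p l := by
      rw [Nat.le_div_iff_mul_le (tau_pos p l), mul_comm]
      exact h5
    exact_mod_cast h6
  have h1 : (S.card : ℤ) ≤ ∑ i ∈ S, ∑ l ∈ L, M i l ^ 2 := by
    calc (S.card : ℤ) = ∑ _i ∈ S, (1 : ℤ) := by rw [sum_const, nsmul_eq_mul, mul_one]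
      _ ≤ _ := by
        refine sum_le_sum fun i hi => ?_
        obtain ⟨l, hl⟩ := hex i hi
        obtain ⟨l₀, hl₀, α, hα, j, rfl⟩ := hL l
        rw [hpw i hi, horb l₀ α hα] at hl
        have h2 : 1 ≤ M i l₀ ^ 2 := by
          have := sq_pos_of_ne_zero hl
          omega
        exact h2.trans (single_le_sum (f := fun l => M i l ^ 2) (fun l _ => sq_nonneg _) hl₀)
  rw [sum_comm] at h1
  have h2 : (S.card : ℤ) ≤ ∑ l ∈ L, ((stl E l / tau p l : ℕ) : ℤ) :=
    h1.trans (sum_le_sum fun l _ => hone l)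
  exact_mod_cast h2

open Classical in
/-- **the invariant rows**, the bound as a sum over all characters -/
theorem fix_rows_sum {p : ℕ} (hp : p.Prime) (hp2 : p ≠ 2) (hT : IsPGroup p T)
    {E : Subgroup (MulAut T)} (hpE : ¬ p ∣ Nat.card E) {I : Type*} [Fintype I]
    {ψ : I → T → K} (hv : ∀ i, ψ i ∈ vir T K) (hG : ∀ u v, GramR E ⊥ ψ u v) (S : Finset I)
    (hS : ∀ i ∈ S, ∀ u, ψ i (u ^ (1 + p)) = ψ i u) (hne : ∀ i ∈ S, ∃ u, ψ i u ≠ 0) :
    (Nat.card E : ℚ) * S.card ≤ ∑ l ∈ univ.filter (fun l : T →* Kˣ => tau p l ≤ stl E l),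
      ((stl E l : ℚ) / (tau p l : ℚ)) ^ 2 := by
  have : Fintype E := Fintype.ofFinite _
  have hcE : Nat.card E = Fintype.card E := Nat.card_eq_fintype_card
  obtain ⟨M, horb, hpw, hle, hex⟩ := fix_core hp hp2 hT hpE hv hG S hS hne
  have ht0 : ∀ l : T →* Kˣ, (0 : ℚ) < tau p l := fun l => by exact_mod_cast tau_pos p l
  have hle' : ∀ l : T →* Kˣ, (∑ i ∈ S, ((M i l : ℚ)) ^ 2) ≤ (stl E l : ℚ) / tau p l := by
    intro l
    rw [le_div_iff₀ (ht0 l), mul_comm]
    have h1 := hle l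
    exact_mod_cast h1
  -- one row
  have hrow : ∀ i ∈ S, (Fintype.card E : ℚ) ≤
      ∑ l ∈ univ.filter (fun l : T →* Kˣ => tau p l ≤ stl E l),
        ((stl E l : ℚ) / tau p l) * (M i l : ℚ) ^ 2 := by
    intro i hi
    obtain ⟨l, hl⟩ := hex i hi
    have hM1 : (1 : ℤ) ≤ M i l ^ 2 := by
      have := sq_pos_of_ne_zero hl
      omega
    have hte : tau p l ≤ stl E l := by
      have h1 := hle l
      have h2 : M i l ^ 2 ≤ ∑ i ∈ S, M i l ^ 2 :=
        single_le_sum (f := fun i => M i l ^ 2) (fun i _ => sq_nonneg _) hi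
      have h3 : (tau p l : ℤ) * 1 ≤ (tau p l : ℤ) * ∑ i ∈ S, M i l ^ 2 :=
        mul_le_mul_of_nonneg_left (hM1.trans h2) (by positivity)
      have h4 : (tau p l : ℤ) ≤ stl E l := by linarith
      exact_mod_cast h4
    let F : E × ℕ → (T →* Kˣ) := fun x => pw (dl l (x.1 : MulAut T)) ((1 + p) ^ x.2)
    set O : Finset (T →* Kˣ) := ((univ : Finset E) ×ˢ range (tau p l)).image F with hO
    have hOmem : ∀ c ∈ O, stl E c = stl E l ∧ tau p c = tau p l ∧ M i c = M i l := by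
      intro c hc
      obtain ⟨⟨α, j⟩, -, rfl⟩ := mem_image.1 hc
      refine ⟨?_, ?_, ?_⟩
      · change stl E (pw (dl l (α : MulAut T)) ((1 + p) ^ j)) = stl E l
        rw [stl_pw hp hT, stl_dl E l α.2]
      · change tau p (pw (dl l (α : MulAut T)) ((1 + p) ^ j)) = tau p l
        unfold tau
        rw [od_pw hp hT, od_dl]
      · change M i (pw (dl l (α : MulAut T)) ((1 + p) ^ j)) = M i l
        rw [hpw i hi, horb l _ α.2]
    have hcard : Fintype.card E * tau p l ≤ O.card * stl E l := by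
      have h1 : Fintype.card E * tau p l = ((univ : Finset E) ×ˢ range (tau p l)).card := by
        rw [Finset.card_product, card_univ, Finset.card_range]
      rw [h1, mul_comm]
      refine Finset.card_le_mul_card_image _ _ fun c hc => ?_
      obtain ⟨⟨β, j₀⟩, hx, rfl⟩ := mem_image.1 hc
      have hj₀ : j₀ < tau p l := mem_range.1 (mem_product.1 hx).2
      rw [stl_eq]
      unfold cn
      refine card_le_card_of_injOn (fun y => y.1 * β⁻¹) ?_ ?_
      · rintro ⟨α, j⟩ hy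
        obtain ⟨hy1, hy2⟩ := mem_filter.1 (mem_coe.1 hy)
        have hj : j < tau p l := mem_range.1 (mem_product.1 hy1).2
        have h3 : dl (pw l ((1 + p) ^ j)) (((α * β⁻¹ : E)) : MulAut T) = pw l ((1 + p) ^ j₀) := by
          have h4 : dl (pw l ((1 + p) ^ j)) (α : MulAut T)
              = dl (pw l ((1 + p) ^ j₀)) (β : MulAut T) := by
            rw [dl_pw, dl_pw]
            exact hy2
          rw [Subgroup.coe_mul, dl_mul, h4, ← dl_mul]
          have h5 : (β : MulAut T) * ((β⁻¹ : E) : MulAut T) = 1 := mul_inv_cancel _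
          rw [h5, dl_one]
        exact mem_coe.2 (mem_filter.2 ⟨mem_univ _,
          (conj_pw hp hp2 hT hpE (α * β⁻¹).2 hj₀ hj h3).2⟩)
      · rintro ⟨α, j⟩ hy ⟨α', j'⟩ hy' h
        obtain ⟨hy1, hy2⟩ := mem_filter.1 (mem_coe.1 hy)
        obtain ⟨hy1', hy2'⟩ := mem_filter.1 (mem_coe.1 hy')
        have hαα : α = α' := mul_right_cancel h
        subst hαα
        have hj : j < tau p l := mem_range.1 (mem_product.1 hy1).2
        have hj' : j' < tau p l := mem_range.1 (mem_product.1 hy1').2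
        have h3 : pw (dl l (α : MulAut T)) ((1 + p) ^ j)
            = pw (dl l (α : MulAut T)) ((1 + p) ^ j') := hy2.trans hy2'.symm
        have h4 : dl (pw l ((1 + p) ^ j')) (1 : MulAut T) = pw l ((1 + p) ^ j) := by
          rw [← dl_pw, ← dl_pw] at h3
          rw [dl_one]
          exact (dl_inj (α : MulAut T) h3).symm
        rw [(conj_pw hp hp2 hT hpE E.one_mem hj hj' h4).1]
    have h1 : (Fintype.card E : ℚ) ≤ ∑ c ∈ O, ((stl E c : ℚ) / tau p c) * (M i c : ℚ) ^ 2 := by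
      have h2 : ∀ c ∈ O, ((stl E l : ℚ) / tau p l) ≤
          ((stl E c : ℚ) / tau p c) * (M i c : ℚ) ^ 2 := by
        intro c hc
        obtain ⟨h3, h4, h5⟩ := hOmem c hc
        rw [h3, h4, h5]
        have h6 : (1 : ℚ) ≤ (M i l : ℚ) ^ 2 := by exact_mod_cast hM1
        have h7 : (0 : ℚ) ≤ (stl E l : ℚ) / tau p l := by positivity
        nlinarith
      refine le_trans ?_ (sum_le_sum h2)
      rw [sum_const, nsmul_eq_mul, ← mul_div_assoc, le_div_iff₀ (ht0 l)]
      exact_mod_cast hcard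
    refine h1.trans (sum_le_sum_of_subset_of_nonneg ?_ fun c _ _ => by positivity)
    intro c hc
    obtain ⟨h3, h4, -⟩ := hOmem c hc
    refine mem_filter.2 ⟨mem_univ _, ?_⟩
    rw [h3, h4]
    exact hte
  have h1 : (Fintype.card E : ℚ) * S.card ≤
      ∑ i ∈ S, ∑ l ∈ univ.filter (fun l : T →* Kˣ => tau p l ≤ stl E l),
        ((stl E l : ℚ) / tau p l) * (M i l : ℚ) ^ 2 := by
    calc (Fintype.card E : ℚ) * S.card = ∑ _i ∈ S, (Fintype.card E : ℚ) := by
          rw [sum_const, nsmul_eq_mul, mul_comm]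
      _ ≤ _ := sum_le_sum hrow
  rw [hcE]
  refine h1.trans ?_
  rw [sum_comm]
  refine sum_le_sum fun l _ => ?_
  rw [← mul_sum, sq]
  exact mul_le_mul_of_nonneg_left (hle' l) (by positivity)

end

end Pool.Agent.Lib.P0c8ca5.Ex
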