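import Mathlib
import Pool.Agent.Lib.P0c8ca5Ex.ZF

/-!
# ZFb: the orbits of `E` on the elements and on the characters of order `p`

`orb_le`: `E` is a `p'`-group of automorphisms of the abelian `p`-group `T`; `L` is a set of pairwise not
conjugate characters `l` with `l ^ p = 1`, and every orbit of `E` on the elements `u` with `u ^ p = 1` meets
`U`. Then the sum of the `|E_l|`, `l ∈ L`, is at most the sum of the `|E_u|`, `u ∈ U`.
-/

set_option linter.unusedSectionVars false

namespace Pool.Agent.Lib.P0c8ca5.Ex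

open Finset YLx YZx ZFx

namespace ZFbx

section
variable {T : Type*} [CommGroup T] [Fintype T] {K : Type*} [Field K] [CharZero K]
  [HasEnoughRootsOfUnity K (Monoid.exponent T)]

open Classical in
/-- the characters and the elements of order `p` fixed by a `p'`-group of automorphisms -/
theorem fix_count {p : ℕ} (hp : p.Prime) (hT : IsPGroup p T) (H : Subgroup (MulAut T))
    (hpH : ¬ p ∣ Nat.card H) :
    (univ.filter fun l : T →* Kˣ => pw l p = 1 ∧ ∀ h ∈ H, dl l h = l).card
      ≤ (univ.filter fun u : T => u ^ p = 1 ∧ ∀ h ∈ H, h u = u).card := by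
  have hF : Fact p.Prime := ⟨hp⟩
  have : Fintype H := Fintype.ofFinite _
  set e := Fintype.card H with he
  have heH : Nat.card H = e := Nat.card_eq_fintype_card
  obtain ⟨n, hn⟩ := IsPGroup.iff_card.1 hT
  have hcop : Nat.Coprime e (Nat.card T) := by
    rw [hn, ← heH]
    exact (Nat.Coprime.pow_left n ((hp.coprime_iff_not_dvd).2 hpH)).symm
  obtain ⟨e', he'⟩ : ∃ e' : ℕ, ∀ u : T, u ^ (e * e') = u := by
    have h0 : 0 < Nat.totient (Nat.card T) := Nat.totient_pos.2 Nat.card_pos
    refine ⟨e ^ (Nat.totient (Nat.card T) - 1), fun u => ?_⟩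
    rw [← pow_succ', Nat.sub_add_cancel h0]
    conv_rhs => rw [← pow_one u]
    rw [pow_eq_pow_iff_modEq]
    exact (Nat.ModEq.pow_totient hcop).of_dvd (orderOf_dvd_natCard u)
  -- the norm
  let N : T →* T := ∏ h : H, ((h : MulAut T) : T ≃* T).toMonoidHom
  have hN : ∀ u, N u = ∏ h : H, (h : MulAut T) u := by
    intro u
    change (∏ h : H, ((h : MulAut T) : T ≃* T).toMonoidHom) u = _
    rw [MonoidHom.finsetProd_apply]
    rfl
  have hNfix : ∀ u, ∀ h ∈ H, h (N u) = N u := by
    intro u h hh
    rw [hN, map_prod]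
    exact Fintype.prod_equiv (Equiv.mulLeft (⟨h, hh⟩ : H)) _ _ fun g => rfl
  have hNC : ∀ u, (∀ h ∈ H, h u = u) → N u = u ^ e := by
    intro u hu
    rw [hN, prod_congr rfl fun (h : H) _ => hu h.1 h.2, prod_const, card_univ]
  -- the map
  let c : T →* T := (powMonoidHom e').comp N
  have hc : ∀ u, c u = N u ^ e' := fun u => rfl
  have hcfix : ∀ u, ∀ h ∈ H, h (c u) = c u := by
    intro u h hh
    rw [hc, map_pow, hNfix u h hh]
  let φ : T →* T := (MonoidHom.id T) * ((powMonoidHom (p - 1)).comp c)
  have hφ : ∀ u, φ u = u * c u ^ (p - 1) := fun u => rfl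
  -- the kernel
  have hker : Nat.card φ.ker ≤ (univ.filter fun u : T => u ^ p = 1 ∧ ∀ h ∈ H, h u = u).card := by
    rw [Nat.card_eq_fintype_card, ← Fintype.card_coe]
    refine Fintype.card_le_of_injective (fun x : φ.ker => ⟨x.1, ?_⟩) fun x y h => ?_
    · have h1 : x.1 * c x.1 ^ (p - 1) = 1 := by
        rw [← hφ]
        exact x.2
      have h2 : x.1 = (c x.1 ^ (p - 1))⁻¹ := eq_inv_of_mul_eq_one_left h1
      have h3 : ∀ h ∈ H, h x.1 = x.1 := by
        intro h hh
        conv_lhs => rw [h2]
        conv_rhs => rw [h2]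
        rw [map_inv, map_pow, hcfix x.1 h hh]
      have h4 : c x.1 = x.1 := by
        rw [hc, hNC x.1 h3, ← pow_mul, he']
      refine mem_filter.2 ⟨mem_univ _, ?_, h3⟩
      rw [h4, ← pow_succ', Nat.sub_add_cancel hp.one_lt.le] at h1
      exact h1
    · exact Subtype.ext (congrArg (fun z => (z.1 : T)) h)
  -- the characters are trivial on the image
  have himg : (univ.filter fun l : T →* Kˣ => pw l p = 1 ∧ ∀ h ∈ H, dl l h = l).card
      ≤ (univ.filter fun l : T →* Kˣ => eqP φ.range l 1).card := by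
    refine card_le_card fun l hl => ?_
    obtain ⟨-, hl1, hl2⟩ := mem_filter.1 hl
    refine mem_filter.2 ⟨mem_univ _, ?_⟩
    rintro _ ⟨u, rfl⟩
    have h1 : l (N u) = l u ^ e := by
      rw [hN, map_prod]
      have h2 : ∀ h : H, l ((h : MulAut T) u) = l u := fun h =>
        DFunLike.congr_fun (hl2 h h.2) u
      rw [prod_congr rfl fun h _ => h2 h, prod_const, card_univ]
    have h2 : l (c u) = l u := by
      rw [hc, map_pow, h1, ← pow_mul, ← map_pow, he']
    have h3 : l u ^ p = 1 := by
      rw [← map_pow]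
      exact DFunLike.congr_fun hl1 u
    rw [hφ, map_mul, map_pow, h2, ← pow_succ', Nat.sub_add_cancel hp.one_lt.le, h3]
    rfl
  have h1 := card_eqP (K := K) φ.range (1 : T →* Kˣ)
  have h2 : Nat.card φ.ker * Nat.card φ.range = Fintype.card T := by
    rw [← Nat.card_eq_fintype_card, ← Subgroup.card_mul_index φ.ker, Subgroup.index_ker]
  have h3 : 0 < Nat.card φ.range := Nat.card_pos
  have h4 : (univ.filter fun l : T →* Kˣ => eqP φ.range l 1).card = Nat.card φ.ker := by
    apply Nat.eq_of_mul_eq_mul_left h3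
    rw [h1, ← h2, mul_comm]
  exact (himg.trans h4.le).trans hker

open Classical in
/-- the sums of the squares of the orders of the stabilizers -/
theorem sum_sq_le {p : ℕ} (hp : p.Prime) (hT : IsPGroup p T) (E : Subgroup (MulAut T))
    (hpE : ¬ p ∣ Nat.card E) :
    ∑ l ∈ univ.filter (fun l : T →* Kˣ => pw l p = 1), stl E l ^ 2
      ≤ ∑ u ∈ univ.filter (fun u : T => u ^ p = 1), st E u ^ 2 := by
  have : Fintype E := Fintype.ofFinite _
  have e1 : ∀ l : T →* Kˣ, stl E l ^ 2 = ∑ x : E × E,
      if dl l (x.1 : MulAut T) = l ∧ dl l (x.2 : MulAut T) = l then 1 else 0 := by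
    intro l
    unfold stl
    rw [Nat.card_eq_fintype_card, Fintype.card_subtype, sq, ← Finset.card_product,
      ← Finset.filter_product, Finset.univ_product_univ, Finset.card_filter]
  have e2 : ∀ u : T, st E u ^ 2 = ∑ x : E × E,
      if (x.1 : MulAut T) u = u ∧ (x.2 : MulAut T) u = u then 1 else 0 := by
    intro u
    unfold st
    rw [Nat.card_eq_fintype_card, Fintype.card_subtype, sq, ← Finset.card_product,
      ← Finset.filter_product, Finset.univ_product_univ, Finset.card_filter]
  rw [sum_congr rfl fun l _ => e1 l, sum_congr rfl fun u _ => e2 u, sum_comm,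
    sum_comm (s := univ.filter (fun u : T => u ^ p = 1))]
  refine sum_le_sum fun x _ => ?_
  rw [← card_filter, ← card_filter, filter_filter, filter_filter]
  set H : Subgroup (MulAut T) := Subgroup.closure {(x.1 : MulAut T), (x.2 : MulAut T)} with hH
  have hHE : H ≤ E := by
    rw [hH, Subgroup.closure_le]
    rintro y (rfl | rfl)
    · exact x.1.2
    · exact x.2.2
  have hpH : ¬ p ∣ Nat.card H := fun h => hpE (h.trans (Subgroup.card_dvd_of_le hHE))
  refine le_trans (card_le_card ?_) ((fix_count (K := K) hp hT H hpH).trans (card_le_card ?_))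
  · intro l hl
    obtain ⟨-, h1, h2, h3⟩ := mem_filter.1 hl
    refine mem_filter.2 ⟨mem_univ _, h1, fun h hh => ?_⟩
    refine Subgroup.closure_induction (p := fun h _ => dl l h = l) ?_ ?_ ?_ ?_ hh
    · rintro y (rfl | rfl)
      · exact h2
      · exact h3
    · exact dl_one l
    · intro a b _ _ ha hb
      rw [dl_mul, ha, hb]
    · intro a _ ha
      conv_lhs => rw [← ha]
      rw [← dl_mul, mul_inv_cancel, dl_one]
  · intro u hu
    obtain ⟨-, h1, h2⟩ := mem_filter.1 hu
    exact mem_filter.2 ⟨mem_univ _, h1, h2 _ (Subgroup.subset_closure (Or.inl rfl)),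
      h2 _ (Subgroup.subset_closure (Or.inr rfl))⟩

theorem st_map (E : Subgroup (MulAut T)) (u : T) {β : MulAut T} (hβ : β ∈ E) :
    st E (β u) = st E u := by
  unfold st
  refine Nat.card_congr ⟨fun α => ⟨(⟨β, hβ⟩ : E)⁻¹ * α.1 * ⟨β, hβ⟩, ?_⟩,
    fun α => ⟨(⟨β, hβ⟩ : E) * α.1 * (⟨β, hβ⟩ : E)⁻¹, ?_⟩, fun α => Subtype.ext (by group),
    fun α => Subtype.ext (by group)⟩
  · have h1 := α.2
    change (β⁻¹ * (α.1 : MulAut T) * β) u = u
    rw [MulAut.mul_apply, MulAut.mul_apply, h1, MulAut.inv_apply_self]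
  · have h1 := α.2
    change (β * (α.1 : MulAut T) * β⁻¹) (β u) = β u
    rw [MulAut.mul_apply, MulAut.mul_apply, MulAut.inv_apply_self, h1]

end

end ZFbx

open ZFbx

section
variable {T : Type*} [CommGroup T] [Fintype T] {K : Type*} [Field K] [CharZero K]
  [HasEnoughRootsOfUnity K (Monoid.exponent T)]

theorem orb_le {p : ℕ} (hp : p.Prime) (hT : IsPGroup p T) {E : Subgroup (MulAut T)}
    (hpE : ¬ p ∣ Nat.card E) (L : Finset (T →* Kˣ)) (hLp : ∀ l ∈ L, pw l p = 1)
    (hL : ∀ l ∈ L, ∀ l' ∈ L, ∀ α ∈ E, l' = dl l α → l' = l) (U : Finset T)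
    (hU : ∀ u : T, u ^ p = 1 → ∃ v ∈ U, ∃ α ∈ E, u = α v) :
    ∑ l ∈ L, stl E l ≤ ∑ u ∈ U, st E u := by
  classical
  have : Fintype E := Fintype.ofFinite _
  have hcE : 0 < Fintype.card E := Fintype.card_pos
  have hst : ∀ l : T →* Kˣ, stl E l = (univ.filter fun α : E => dl l (α : MulAut T) = l).card := by
    intro l
    unfold stl
    rw [Nat.card_eq_fintype_card, Fintype.card_subtype]
  have hst' : ∀ u : T, st E u = (univ.filter fun α : E => (α : MulAut T) u = u).card := by
    intro u
    unfold st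
    rw [Nat.card_eq_fintype_card, Fintype.card_subtype]
  -- `|E| ∑ stl` is at most the sum of the squares
  have h1 : Fintype.card E * ∑ l ∈ L, stl E l
      ≤ ∑ l ∈ univ.filter (fun l : T →* Kˣ => pw l p = 1), stl E l ^ 2 := by
    have e1 : Fintype.card E * ∑ l ∈ L, stl E l
        = ∑ l ∈ L, ∑ α : E, stl E (dl l (α : MulAut T)) := by
      rw [mul_sum]
      refine sum_congr rfl fun l _ => ?_
      rw [sum_congr rfl fun α _ => stl_dl E l α.2, sum_const, card_univ, smul_eq_mul]
    have e2 : ∀ l : T →* Kˣ, ∑ α : E, stl E (dl l (α : MulAut T))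
        = ∑ l' : T →* Kˣ, (univ.filter fun α : E => dl l (α : MulAut T) = l').card * stl E l' := by
      intro l
      rw [← sum_fiberwise univ (fun α : E => dl l (α : MulAut T))
        (fun α => stl E (dl l (α : MulAut T)))]
      refine sum_congr rfl fun l' _ => ?_
      rw [sum_congr rfl fun α hα => by rw [(mem_filter.1 hα).2], sum_const, smul_eq_mul]
    rw [e1, sum_congr rfl fun l _ => e2 l, sum_comm, sum_filter]
    refine sum_le_sum fun l' _ => ?_
    rw [← sum_mul]
    have e3 : ∑ l ∈ L, (univ.filter fun α : E => dl l (α : MulAut T) = l').card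
        ≤ if pw l' p = 1 then stl E l' else 0 := by
      by_cases hcon : ∃ l ∈ L, ∃ α ∈ E, dl l α = l'
      · obtain ⟨l, hl, α, hα, rfl⟩ := hcon
        have e4 : pw (dl l α) p = 1 := by
          rw [← dl_pw, hLp l hl]
          rfl
        rw [if_pos e4, sum_eq_single l]
        · have e5 : (univ.filter fun β : E => dl l (β : MulAut T) = dl l α).card = stl E l := by
            rw [hst l]
            refine card_bij (fun β _ => β * (⟨α, hα⟩ : E)⁻¹) ?_ ?_ ?_
            · intro β hβ
              refine mem_filter.2 ⟨mem_univ _, ?_⟩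
              rw [Subgroup.coe_mul, dl_mul, (mem_filter.1 hβ).2, ← dl_mul]
              have h1 : α * (((⟨α, hα⟩ : E)⁻¹ : E) : MulAut T) = 1 := mul_inv_cancel α
              rw [h1, dl_one]
            · intro β _ β' _ h
              exact mul_right_cancel h
            · intro β hβ
              refine ⟨β * ⟨α, hα⟩, mem_filter.2 ⟨mem_univ _, ?_⟩, by rw [mul_inv_cancel_right]⟩
              rw [Subgroup.coe_mul, dl_mul, (mem_filter.1 hβ).2]
          rw [e5, stl_dl E l hα]
        · intro l₁ hl₁ hne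
          rw [Finset.card_eq_zero, filter_eq_empty_iff]
          intro β _ hβ
          apply hne
          refine hL l hl l₁ hl₁ (α * (β : MulAut T)⁻¹) (E.mul_mem hα (E.inv_mem β.2)) ?_
          rw [dl_mul, ← hβ, ← dl_mul, mul_inv_cancel, dl_one]
        · intro h
          exact absurd hl h
      · rw [sum_eq_zero]
        · exact Nat.zero_le _
        · intro l hl
          rw [Finset.card_eq_zero, filter_eq_empty_iff]
          intro β _ hβ
          exact hcon ⟨l, hl, β, β.2, hβ⟩
    split_ifs at e3 ⊢ with h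
    · rw [sq]
      exact Nat.mul_le_mul_right _ e3
    · rw [Nat.le_zero.1 e3, zero_mul]
  have h2 : ∑ u ∈ univ.filter (fun u : T => u ^ p = 1), st E u ^ 2
      ≤ Fintype.card E * ∑ u ∈ U, st E u := by
    have e1 : Fintype.card E * ∑ u ∈ U, st E u
        = ∑ u ∈ U, ∑ α : E, st E ((α : MulAut T) u) := by
      rw [mul_sum]
      refine sum_congr rfl fun u _ => ?_
      rw [sum_congr rfl fun α _ => st_map E u α.2, sum_const, card_univ, smul_eq_mul]
    have e2 : ∀ u : T, ∑ α : E, st E ((α : MulAut T) u)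
        = ∑ u' : T, (univ.filter fun α : E => (α : MulAut T) u = u').card * st E u' := by
      intro u
      rw [← sum_fiberwise univ (fun α : E => (α : MulAut T) u)
        (fun α => st E ((α : MulAut T) u))]
      refine sum_congr rfl fun u' _ => ?_
      rw [sum_congr rfl fun α hα => by rw [(mem_filter.1 hα).2], sum_const, smul_eq_mul]
    rw [e1, sum_congr rfl fun u _ => e2 u, sum_comm, sum_filter]
    refine sum_le_sum fun u' _ => ?_
    rw [← sum_mul]
    split_ifs with h
    · rw [sq]
      refine Nat.mul_le_mul_right _ ?_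
      obtain ⟨v, hv, α, hα, rfl⟩ := hU u' h
      refine le_trans ?_ (single_le_sum (f := fun u => (univ.filter fun β : E =>
        (β : MulAut T) u = α v).card) (fun _ _ => Nat.zero_le _) hv)
      rw [st_map E v hα, hst' v]
      refine card_le_card_of_injOn (fun β => (⟨α, hα⟩ : E) * β) ?_ ?_
      · intro β hβ
        have h3 := (mem_filter.1 (mem_coe.1 hβ)).2
        refine mem_coe.2 (mem_filter.2 ⟨mem_univ _, ?_⟩)
        rw [Subgroup.coe_mul, MulAut.mul_apply, h3]
      · intro β _ β' _ h
        exact mul_left_cancel h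
    · exact Nat.zero_le _
  have h3 := h1.trans ((sum_sq_le (K := K) hp hT E hpE).trans h2)
  exact Nat.le_of_mul_le_mul_left h3 hcE

end

end Pool.Agent.Lib.P0c8ca5.Ex
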