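import Mathlib
import Pool.Agent.Lib.P0c8ca5Ex.ZGb
import Pool.Agent.Lib.P0c8ca5Ex.ZFb

/-!
# ZGc: `l(b) ≤ |E|` from the rows, if the stabilizers of the elements `≠ 1` and of the characters of
order `> p` have orders less than `p`, the former cyclic

`l_le_rank2`: see the header. In rank two these conditions are satisfied.
-/

set_option linter.unusedSectionVars false

namespace Pool.Agent.Lib.P0c8ca5.Ex

open MonoidAlgebra YLx YZx ZFx

namespace ZGcAux

/-- representatives of the orbits -/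
theorem exists_rep {α : Type*} [Fintype α] (r : Setoid α) (a : α) :
    ∃ W : Finset α, a ∈ W ∧ (∀ x, ∃ w ∈ W, r w x) ∧ ∀ w ∈ W, ∀ w' ∈ W, r w w' → w = w' := by
  classical
  let g : Quotient r → α := fun q => if q = ⟦a⟧ then a else q.out
  have hg : ∀ q, (⟦g q⟧ : Quotient r) = q := by
    intro q
    by_cases h : q = ⟦a⟧
    · rw [h]
      simp only [g, if_true]
    · simp only [g, if_neg h]
      exact Quotient.out_eq q
  refine ⟨Finset.univ.image fun x : α => g ⟦x⟧, ?_, ?_, ?_⟩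
  · refine Finset.mem_image.2 ⟨a, Finset.mem_univ _, ?_⟩
    simp only [g, if_true]
  · intro x
    exact ⟨g ⟦x⟧, Finset.mem_image.2 ⟨x, Finset.mem_univ _, rfl⟩, Quotient.exact (hg _)⟩
  · intro w hw w' hw' h
    obtain ⟨x, -, rfl⟩ := Finset.mem_image.1 hw
    obtain ⟨x', -, rfl⟩ := Finset.mem_image.1 hw'
    have h1 := Quotient.sound h
    rw [hg, hg] at h1
    rw [h1]

section
variable {T : Type*} [CommGroup T] [Fintype T]

/-- the orbits of `E` on the elements `u` with `u ^ p = 1` -/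
theorem exists_W (E : Subgroup (MulAut T)) (p : ℕ) : ∃ W : Finset T, 1 ∈ W ∧
    (∀ v ∈ W, v ^ p = 1) ∧ (∀ v ∈ W, ∀ v' ∈ W, v ≠ v' → ¬ ∃ α ∈ E, v' = α v) ∧
    ∀ u : T, u ^ p = 1 → ∃ v ∈ W, ∃ α ∈ E, u = α v := by
  classical
  obtain ⟨W, h1, h2, h3⟩ := exists_rep (α := T)
    { r := fun v v' => ∃ α ∈ E, v' = α v
      iseqv := by
        refine ⟨fun v => ⟨1, E.one_mem, rfl⟩, ?_, ?_⟩
        · rintro v v' ⟨α, hα, rfl⟩
          exact ⟨α⁻¹, E.inv_mem hα, by rw [MulAut.inv_apply_self]⟩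
        · rintro v v' v'' ⟨α, hα, rfl⟩ ⟨β, hβ, rfl⟩
          exact ⟨β * α, E.mul_mem hβ hα, rfl⟩ } 1
  refine ⟨W.filter fun v => v ^ p = 1, Finset.mem_filter.2 ⟨h1, one_pow p⟩,
    fun v hv => (Finset.mem_filter.1 hv).2, ?_, ?_⟩
  · rintro v hv v' hv' hne ⟨α, hα, hα'⟩
    exact hne (h3 v (Finset.mem_filter.1 hv).1 v' (Finset.mem_filter.1 hv').1 ⟨α, hα, hα'⟩)
  · intro u hu
    obtain ⟨v, hv, α, hα, rfl⟩ := h2 u
    refine ⟨v, Finset.mem_filter.2 ⟨hv, ?_⟩, α, hα, rfl⟩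
    rw [← map_pow] at hu
    exact (MulEquiv.map_eq_one_iff α).1 hu

variable {K : Type*} [Field K]

/-- the orbits of `E` on the characters -/
theorem exists_L [Fintype (T →* Kˣ)] (E : Subgroup (MulAut T)) : ∃ L : Finset (T →* Kˣ),
    (∀ l, ∃ l₀ ∈ L, ∃ α ∈ E, l = dl l₀ α) ∧
    ∀ l ∈ L, ∀ l' ∈ L, ∀ α ∈ E, l' = dl l α → l' = l := by
  classical
  obtain ⟨L, -, h2, h3⟩ := exists_rep (α := T →* Kˣ)
    { r := fun l l' => ∃ α ∈ E, l' = dl l α
      iseqv := by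
        refine ⟨fun l => ⟨1, E.one_mem, (dl_one l).symm⟩, ?_, ?_⟩
        · rintro l l' ⟨α, hα, rfl⟩
          refine ⟨α⁻¹, E.inv_mem hα, ?_⟩
          rw [← dl_mul, mul_inv_cancel, dl_one]
        · rintro l l' l'' ⟨α, hα, rfl⟩ ⟨β, hβ, rfl⟩
          exact ⟨α * β, E.mul_mem hα hβ, by rw [dl_mul]⟩ } 1
  exact ⟨L, h2, fun l hl l' hl' α hα h => (h3 l hl l' hl' ⟨α, hα, h⟩).symm⟩

end

end ZGcAux

open ZGcAux

section
variable {p : ℕ} [Fact p.Prime] {k : Type*} [Field k] [IsAlgClosed k] [CharP k p]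
  {A : Type*} [Group A] [Fintype A] {T : Type*} [CommGroup T] [Fintype T]
  {φ : T →* A} {b f i : MonoidAlgebra k A} {D : Subgroup A}
  {G : Subgroup T → A → KW p k}

/-- **the bound `l(b) ≤ |E|`** -/
theorem l_le_rank2 (hp2 : p ≠ 2) (hS : Stp φ b D f i ⊥ G) (hpE : ¬ p ∣ eN D f)
    {B : MonoidAlgebra (OW p k) A} (hB : CenL b B) {ψ : IR φ ⊥ B → T → KW p k}
    (hψ : Rows φ D f ⊥ G B ψ) (hreg : ∃ u : T, u ≠ 1 ∧ st (EG φ D f) u = 1)
    (hst : ∀ u : T, u ≠ 1 → st (EG φ D f) u < p)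
    (hcyc : ∀ E' ≤ EG φ D f, (∃ u : T, u ≠ 1 ∧ ∀ α ∈ E', α u = u) → IsCyclic ↥E')
    (hstl : ∀ l : T →* (KW p k)ˣ, pw l p ≠ 1 → stl (EG φ D f) l < p) :
    Nat.card (Quotient (irrInvSetoid (⊤ : Subgroup A) ⊤ b)) ≤ eN D f := by
  classical
  have hp : p.Prime := Fact.out
  have h := hS.src
  have hφ := hS.inj
  have hr := hS.ran
  obtain ⟨M, hM⟩ := pow_one_of h
  have hTm : ∀ u : T, u ^ p ^ Nat.card A = 1 := by
    intro u
    apply hφ
    rw [map_pow, map_one]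
    exact pel_card (hM (φ u) ((hr _).2 ⟨u, rfl⟩))
  have hT : IsPGroup p T := fun u => ⟨Nat.card A, hTm u⟩
  have hcard : Nat.card (EG φ D f) = eN D f := card_EG hφ hr
  have hpE' : ¬ p ∣ Nat.card (EG φ D f) := by rwa [hcard]
  obtain ⟨W, hW1, hWp, hWne, hWcov⟩ := exists_W (EG φ D f) p
  obtain ⟨L, hLcov, hLne⟩ := exists_L (K := KW p k) (EG φ D f)
  refine l_le_two hp2 hS hpE hB hψ hreg hst hcyc hW1 hWp hWne fun S hS1 hS2 => ?_
  have h1 := fix_rows hp hp2 hT hpE' (fun χ => hψ.vir χ) (fun u v => hψ.gram u v) S hS1 hS2 L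
    (fun l => by
      obtain ⟨l₀, hl₀, α, hα, rfl⟩ := hLcov l
      refine ⟨l₀, hl₀, α, hα, 0, ?_⟩
      rw [pow_zero]
      ext u
      simp [pw])
  refine h1.trans ?_
  have h2 : ∑ l ∈ L, stl (EG φ D f) l / tau p l
      ≤ ∑ l ∈ L.filter (fun l => pw l p = 1), stl (EG φ D f) l := by
    rw [Finset.sum_filter]
    refine Finset.sum_le_sum fun l _ => ?_
    by_cases hl : pw l p = 1
    · rw [if_pos hl]
      exact Nat.div_le_self _ _
    · rw [if_neg hl, Nat.le_zero]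
      refine Nat.div_eq_of_lt (lt_of_lt_of_le (hstl l hl) ?_)
      obtain ⟨a, ha⟩ := od_pow hp hT l
      have h3 : 2 ≤ a := by
        by_contra hcon
        push Not at hcon
        apply hl
        have h4 : od l ∣ p := by
          rw [ha]
          conv_rhs => rw [← pow_one p]
          exact pow_dvd_pow p (by omega)
        have h5 : pw l p = pw l 0 := pw_eq_iff.2 (by
          rw [Nat.ModEq, Nat.zero_mod]
          exact Nat.mod_eq_zero_of_dvd h4)
        rw [h5]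
        ext u
        simp [pw]
      have h6 : p ≤ od l / p := by
        rw [Nat.le_div_iff_mul_le hp.pos, ha, ← pow_two]
        exact Nat.pow_le_pow_right hp.pos h3
      exact h6.trans (le_max_right _ _)
  refine h2.trans ?_
  exact orb_le hp hT hpE' _ (fun l hl => (Finset.mem_filter.1 hl).2)
    (fun l hl l' hl' α hα h => hLne l (Finset.mem_filter.1 hl).1 l' (Finset.mem_filter.1 hl').1
      α hα h) W hWcov

end

end Pool.Agent.Lib.P0c8ca5.Ex
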