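import Mathlib
import Pool.Agent.Lib.P0c8ca5Ex.ZGb
import Pool.Agent.Lib.P0c8ca5Ex.ZGc

/-!
# V2: a subgroup of index `p` fixed by the inertial quotient, `|E| = p - 1`

* `card_irB_le`: the block `b` has at most `|D|` ordinary characters if the defect group `D` has a regular element.
* `sum_st_le`: `l(b) + ∑ |E_v|` (over pairwise non conjugate `v ≠ 1` in `D`) is at most the number of
  the ordinary characters if `|E_v| ≤ l(b_v)` for these `v`.
* `l_le_ind`: `|E| = p - 1`, a subgroup of index `p` in `D` is centralized by `E`: `l(b) ≤ |E|`; `l_le_ind'`: the same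
  hypothesis as the negation of `p ^ 2 |Q|` divides `|D|` for all `Q` centralized by `E`.
-/

set_option linter.unusedSectionVars false

namespace Pool.Agent.Lib.P0c8ca5.Ex

open MonoidAlgebra YLx YZx ZFx

namespace V2Aux

section
variable {T : Type*} [CommGroup T] [Fintype T] {p : ℕ} {E : Subgroup (MulAut T)} {R : Subgroup T}

theorem top_of_notMem (hp : p.Prime) (hR : R.index = p) {u : T} (hu : u ∉ R) :
    R ⊔ Subgroup.zpowers u = ⊤ := by
  have h1 : R ≤ R ⊔ Subgroup.zpowers u := le_sup_left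
  have h2 := Subgroup.index_dvd_of_le h1
  rw [hR] at h2
  rcases (Nat.dvd_prime hp).1 h2 with h3 | h3
  · exact Subgroup.index_eq_one.1 h3
  · exfalso
    have h4 := Subgroup.relIndex_mul_index h1
    rw [h3, hR] at h4
    have h5 : R.relIndex (R ⊔ Subgroup.zpowers u) = 1 := by
      have h6 : R.relIndex (R ⊔ Subgroup.zpowers u) * p = 1 * p := by rw [h4, one_mul]
      exact Nat.eq_of_mul_eq_mul_right hp.pos h6
    rw [Subgroup.relIndex_eq_one] at h5
    exact hu (h5 (Subgroup.mem_sup_right (Subgroup.mem_zpowers u)))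

theorem st_of_mem (hfix : ∀ α ∈ E, ∀ u ∈ R, α u = u) {u : T} (hu : u ∈ R) :
    st E u = Nat.card E := by
  rw [st]
  exact Nat.card_congr ⟨fun a => a.1, fun a => ⟨a, hfix a a.2 u hu⟩, fun _ => rfl, fun _ => rfl⟩

theorem eq_one_of_fix (hp : p.Prime) (hR : R.index = p) (hfix : ∀ α ∈ E, ∀ u ∈ R, α u = u)
    {u : T} (hu : u ∉ R) {α : MulAut T} (hα : α ∈ E) (hαu : α u = u) : α = 1 := by
  have h1 : R ⊔ Subgroup.zpowers u ≤ (MonoidHom.eqLocus α.toMonoidHom (MonoidHom.id T)) := by
    rw [sup_le_iff, Subgroup.zpowers_le]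
    exact ⟨fun x hx => hfix α hα x hx, hαu⟩
  rw [top_of_notMem hp hR hu] at h1
  ext x
  exact h1 (Subgroup.mem_top x)

theorem st_of_notMem (hp : p.Prime) (hR : R.index = p) (hfix : ∀ α ∈ E, ∀ u ∈ R, α u = u)
    {u : T} (hu : u ∉ R) : st E u = 1 := by
  rw [st, Nat.card_eq_one_iff_unique]
  refine ⟨⟨fun a b => ?_⟩, ⟨⟨1, rfl⟩⟩⟩
  have h1 := eq_one_of_fix hp hR hfix hu a.1.2 a.2
  have h2 := eq_one_of_fix hp hR hfix hu b.1.2 b.2
  exact Subtype.ext (Subtype.ext (h1.trans h2.symm))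

theorem exists_notMem (hp : p.Prime) (hR : R.index = p) : ∃ u : T, u ∉ R := by
  by_contra hcon
  push Not at hcon
  have h1 : R = ⊤ := by
    rw [eq_top_iff]
    exact fun x _ => hcon x
  rw [h1, Subgroup.index_top] at hR
  exact hp.one_lt.ne hR

/-- representatives of the orbits -/
theorem exists_W' (E : Subgroup (MulAut T)) : ∃ W : Finset T, 1 ∈ W ∧
    (∀ v ∈ W, ∀ v' ∈ W, v ≠ v' → ¬ ∃ α ∈ E, v' = α v) ∧ ∀ u : T, ∃ v ∈ W, ∃ α ∈ E, u = α v := by
  classical
  obtain ⟨W, h1, h2, h3⟩ := ZGcAux.exists_rep (α := T)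
    { r := fun v v' => ∃ α ∈ E, v' = α v
      iseqv := by
        refine ⟨fun v => ⟨1, E.one_mem, rfl⟩, ?_, ?_⟩
        · rintro v v' ⟨α, hα, rfl⟩
          exact ⟨α⁻¹, E.inv_mem hα, by rw [MulAut.inv_apply_self]⟩
        · rintro v v' v'' ⟨α, hα, rfl⟩ ⟨β, hβ, rfl⟩
          exact ⟨β * α, E.mul_mem hβ hα, rfl⟩ } 1
  exact ⟨W, h1, fun v hv v' hv' hne h => hne (h3 v hv v' hv' h), h2⟩

/-- the count -/
theorem card_le_sumst (hp : p.Prime) (hR : R.index = p) (hfix : ∀ α ∈ E, ∀ u ∈ R, α u = u)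
    (hE : Nat.card E = p - 1) {W : Finset T} (hW : ∀ u : T, ∃ v ∈ W, ∃ α ∈ E, u = α v) :
    Fintype.card T ≤ ∑ v ∈ W, st E v := by
  classical
  have hE0 : 0 < Nat.card E := by
    have := hp.two_le
    omega
  have hfin : Finite E := (Nat.card_pos_iff.1 hE0).2
  have := Fintype.ofFinite E
  have h1 : Fintype.card T = p * Nat.card R := by
    rw [← Nat.card_eq_fintype_card, ← hR, mul_comm, Subgroup.card_mul_index]
  -- the part in `R`
  have h2 : (Finset.univ.filter fun u : T => u ∈ R) ⊆ W.filter fun u => u ∈ R := by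
    intro u hu
    have huR := (Finset.mem_filter.1 hu).2
    obtain ⟨v, hv, α, hα, huv⟩ := hW u
    have h3 : v = u := by
      have h4 : α⁻¹ u = v := by rw [huv, MulAut.inv_apply_self]
      rw [← h4, hfix _ (E.inv_mem hα) u huR]
    rw [h3] at hv
    exact Finset.mem_filter.2 ⟨hv, huR⟩
  have h3 : (Finset.univ.filter fun u : T => u ∈ R).card = Nat.card R := by
    rw [← Fintype.card_subtype, ← Nat.card_eq_fintype_card]
  have h4 : Nat.card R ≤ (W.filter fun u => u ∈ R).card := h3 ▸ Finset.card_le_card h2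
  -- the part outside
  have h5 : (Finset.univ.filter fun u : T => ¬ u ∈ R).card ≤
      (W.filter fun u => ¬ u ∈ R).card * Fintype.card E := by
    rw [← Finset.card_univ (α := E), ← Finset.card_product]
    refine Finset.card_le_card_of_surjOn (fun x : T × E => (x.2 : MulAut T) x.1) ?_
    intro u hu
    have huR : u ∉ R := (Finset.mem_filter.1 (Finset.mem_coe.1 hu)).2
    obtain ⟨v, hv, α, hα, rfl⟩ := hW u
    refine ⟨(v, ⟨α, hα⟩), Finset.mem_coe.2 (Finset.mem_product.2 ⟨?_, Finset.mem_univ _⟩), rfl⟩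
    refine Finset.mem_filter.2 ⟨hv, fun hvR => huR ?_⟩
    rw [hfix α hα v hvR]
    exact hvR
  have h6 : (Finset.univ.filter fun u : T => u ∈ R).card +
      (Finset.univ.filter fun u : T => ¬ u ∈ R).card = Fintype.card T := by
    rw [Finset.card_filter_add_card_filter_not, Finset.card_univ]
  rw [← Nat.card_eq_fintype_card, hE] at h5
  have h7 : Nat.card R ≤ (W.filter fun u => ¬ u ∈ R).card := by
    have h8 : (p - 1) * Nat.card R ≤ (p - 1) * (W.filter fun u => ¬ u ∈ R).card := by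
      have h9 : Nat.card R + (p - 1) * Nat.card R = p * Nat.card R := by
        obtain ⟨q, rfl⟩ : ∃ q, p = q + 1 := ⟨p - 1, by have := hp.two_le; omega⟩
        rw [Nat.add_sub_cancel]
        ring
      rw [mul_comm (p - 1) (Finset.card _)]
      omega
    exact Nat.le_of_mul_le_mul_left h8 (by have := hp.two_le; omega)
  rw [← Finset.sum_filter_add_sum_filter_not W (fun u => u ∈ R)]
  have e1 : ∑ v ∈ W.filter (fun u => u ∈ R), st E v = (W.filter fun u => u ∈ R).card * (p - 1) := by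
    rw [Finset.sum_congr rfl fun v hv => by rw [st_of_mem hfix (Finset.mem_filter.1 hv).2, hE],
      Finset.sum_const, smul_eq_mul]
  have e2 : ∑ v ∈ W.filter (fun u => ¬ u ∈ R), st E v = (W.filter fun u => ¬ u ∈ R).card := by
    rw [Finset.sum_congr rfl fun v hv => by
      rw [st_of_notMem hp hR hfix (Finset.mem_filter.1 hv).2], Finset.sum_const, smul_eq_mul,
      mul_one]
  rw [e1, e2, h1]
  calc p * Nat.card R = Nat.card R * (p - 1) + Nat.card R := by
        obtain ⟨q, rfl⟩ : ∃ q, p = q + 1 := ⟨p - 1, by have := hp.two_le; omega⟩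
        rw [Nat.add_sub_cancel]
        ring
    _ ≤ _ := Nat.add_le_add (Nat.mul_le_mul_right _ h4) h7

/-- the group `E` is cyclic -/
theorem cyc_of_ind (hp : p.Prime) (hT : IsPGroup p T) (hR : R.index = p)
    (hfix : ∀ α ∈ E, ∀ u ∈ R, α u = u) [Finite E] (hpE : ¬ p ∣ Nat.card E) : IsCyclic E := by
  classical
  have hpf : Fact p.Prime := ⟨hp⟩
  -- the action on the quotient
  have hmap : ∀ α : E, R.map ((α : MulAut T) : T ≃* T).toMonoidHom = R := by
    intro α
    ext x
    constructor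
    · rintro ⟨y, hy, rfl⟩
      change (α : MulAut T) y ∈ R
      rw [hfix α α.2 y hy]
      exact hy
    · intro hx
      exact ⟨x, hx, hfix α α.2 x hx⟩
  let F : E →* MulAut (T ⧸ R) :=
    { toFun := fun α => QuotientGroup.congr R R ((α : MulAut T) : T ≃* T) (hmap α)
      map_one' := by
        ext x
        obtain ⟨x, rfl⟩ := QuotientGroup.mk_surjective x
        rfl
      map_mul' := fun α β => by
        ext x
        obtain ⟨x, rfl⟩ := QuotientGroup.mk_surjective x
        rfl }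
  have hF : ∀ (α : E) (x : T), F α (QuotientGroup.mk x) = QuotientGroup.mk ((α : MulAut T) x) :=
    fun _ _ => rfl
  have hinj : Function.Injective F := by
    rw [injective_iff_map_eq_one]
    intro α hα
    obtain ⟨u, hu⟩ := exists_notMem hp hR
    -- `α u = u r` with `r ∈ R`
    have h1 : (QuotientGroup.mk ((α : MulAut T) u) : T ⧸ R) = QuotientGroup.mk u := by
      rw [← hF, hα]
      rfl
    have h2 : u⁻¹ * (α : MulAut T) u ∈ R := QuotientGroup.eq.1 h1.symm
    set r := u⁻¹ * (α : MulAut T) u with hr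
    have h3 : (α : MulAut T) u = u * r := by rw [hr, mul_inv_cancel_left]
    have h4 : ∀ n : ℕ, ((α : MulAut T) ^ n) u = u * r ^ n := by
      intro n
      induction n with
      | zero => rw [pow_zero, pow_zero, mul_one]; rfl
      | succ n ih =>
        rw [pow_succ', MulAut.mul_apply, ih, map_mul, h3, map_pow, hfix α α.2 r h2, pow_succ']
        rw [mul_assoc]
    have h5 : (α : MulAut T) ^ Nat.card E = 1 := by
      have h6 : α ^ Nat.card E = 1 := pow_card_eq_one'
      exact congrArg Subtype.val h6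
    have h6 := h4 (Nat.card E)
    rw [h5, MulAut.one_apply, left_eq_mul] at h6
    have h7 : r = 1 := by
      obtain ⟨n, hn⟩ := hT r
      have h8 : orderOf r ∣ p ^ n := orderOf_dvd_of_pow_eq_one hn
      have h9 : orderOf r ∣ Nat.card E := orderOf_dvd_of_pow_eq_one h6
      have h10 : Nat.Coprime (p ^ n) (Nat.card E) :=
        Nat.Coprime.pow_left n ((Nat.Prime.coprime_iff_not_dvd hp).2 hpE)
      exact orderOf_eq_one_iff.1 (Nat.eq_one_of_dvd_coprimes h10 h8 h9)
    rw [h7, mul_one] at h3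
    exact Subtype.ext (eq_one_of_fix hp hR hfix hu α.2 h3)
  have hcard : Nat.card (T ⧸ R) = p := by rw [← hR]; rfl
  have hcyc : IsCyclic (T ⧸ R) := isCyclic_of_prime_card hcard
  have h1 : IsCyclic (ZMod (Nat.card (T ⧸ R)))ˣ := by
    rw [hcard]
    infer_instance
  let G := (IsCyclic.mulAutMulEquiv (T ⧸ R)).toMonoidHom.comp F
  exact isCyclic_of_injective G ((IsCyclic.mulAutMulEquiv (T ⧸ R)).injective.comp hinj)

end

end V2Aux

open V2Aux

section
variable {p : ℕ} [Fact p.Prime] {k : Type*} [Field k] [IsAlgClosed k] [CharP k p]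
  {A : Type*} [Group A] [Fintype A] {T : Type*} [CommGroup T] [Fintype T]
  {φ : T →* A} {b f i : MonoidAlgebra k A} {D : Subgroup A}

/-- the number of the ordinary characters is at most the order of the defect group -/
theorem card_irB_le (hp2 : p ≠ 2) (h : Src p b D f i) (hpE : ¬ p ∣ eN D f)
    {B : MonoidAlgebra (OW p k) A} (hB : CenL b B) (hφ : Function.Injective φ)
    (hr : ∀ x, x ∈ D ↔ ∃ t, φ t = x) {u : T} (hu : st (EG φ D f) u = 1) :
    Nat.card (IrB B) ≤ Fintype.card T := by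
  classical
  have hp : p.Prime := Fact.out
  have hcard : Nat.card (EG φ D f) = eN D f := card_EG hφ hr
  obtain ⟨I, f', n, a, hI, hIc, hd, hne⟩ := exists_rowU hp2 h hpE hB hφ hr
  have hfin := finite_EG (φ := φ) (D := D) (f := f)
  have := Fintype.ofFinite (EG φ D f)
  obtain ⟨M, hM⟩ := pow_one_of h
  have hTm : ∀ u : T, u ^ p ^ Nat.card A = 1 := by
    intro u
    apply hφ
    rw [map_pow, map_one]
    exact pel_card (hM (φ u) ((hr _).2 ⟨u, rfl⟩))
  have hTp : IsPGroup p T := fun u => ⟨Nat.card A, hTm u⟩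
  obtain ⟨s, ψ, hv, -, -, -, hg, -, hnz⟩ :=
    rows_gramU hp hp2 hTp places_reg (by rw [hcard]; exact hpE) hd
  have hpl : Places (EG φ D f) (fun u => st (EG φ D f) u = 1) := places_reg
  set m := Nat.card A with hm
  have hpm : NeZero (p ^ m) := ⟨(pow_pos hp.pos m).ne'⟩
  choose z hz0 hz1 hz2 using fun i => Ku.nm_int (s := m) hTm (hv i) u
  have hk : ∀ κ : (ZMod (p ^ m))ˣ, st (EG φ D f) (u ^ (κ : ZMod (p ^ m)).val) = 1 := by
    intro κ
    refine hpl.gen u _ ?_ hu
    refine zpowers_pow (p := p) (m := m) ?_ (hTm u)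
    have h1 := ZMod.val_coe_unit_coprime κ
    by_cases hm0 : m = 0
    · exact absurd hm0 (Nat.card_pos (α := A)).ne'
    exact Nat.Coprime.coprime_dvd_right (dvd_pow_self p hm0) h1
  have hsum : ∑ i, z i = (Fintype.card (ZMod (p ^ m))ˣ : ℤ) * Fintype.card T := by
    have h2 : ((∑ i, z i : ℤ) : KW p k)
        = (((Fintype.card (ZMod (p ^ m))ˣ : ℤ) * Fintype.card T : ℤ) : KW p k) := by
      rw [Int.cast_sum, Finset.sum_congr rfl fun i _ => hz1 i]
      unfold Ku.nm
      rw [Finset.sum_comm, Finset.sum_congr rfl fun κ _ =>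
        hg _ _ (hk κ) (hk κ) ⟨1, Subgroup.one_mem _, rfl⟩, Finset.sum_const, Finset.card_univ,
        nsmul_eq_mul]
      push_cast
      ring
    exact_mod_cast h2
  have hge : ∀ i, (Fintype.card (ZMod (p ^ m))ˣ : ℤ) ≤ z i := by
    intro i
    refine hz2 i (hnz i u hu fun h0 => hne i u ?_)
    have h3 := hd.fac i u hu
    rw [h0, mul_zero] at h3
    exact h3
  have h3 : (Fintype.card (ZMod (p ^ m))ˣ : ℤ) * Fintype.card (IrB B)
      ≤ (Fintype.card (ZMod (p ^ m))ˣ : ℤ) * Fintype.card T := by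
    rw [← hsum]
    calc (Fintype.card (ZMod (p ^ m))ˣ : ℤ) * Fintype.card (IrB B)
        = ∑ i : IrB B, (Fintype.card (ZMod (p ^ m))ˣ : ℤ) := by
          rw [Finset.sum_const, Finset.card_univ, nsmul_eq_mul, mul_comm]
      _ ≤ ∑ i, z i := Finset.sum_le_sum fun i _ => hge i
  have h4 : (0 : ℤ) < Fintype.card (ZMod (p ^ m))ˣ := by exact_mod_cast Fintype.card_pos
  rw [Nat.card_eq_fintype_card]
  exact_mod_cast le_of_mul_le_mul_left h3 h4

open Classical in
/-- the lower bound for the number of the ordinary characters -/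
theorem sum_st_le (h : Src p b D f i) {B : MonoidAlgebra (OW p k) A} (hB : CenL b B)
    (hφ : Function.Injective φ) (hr : ∀ x, x ∈ D ↔ ∃ t, φ t = x) {W : Finset T} (h1W : 1 ∈ W)
    (hWne : ∀ v ∈ W, ∀ v' ∈ W, v ≠ v' → ¬ ∃ α ∈ EG φ D f, v' = α v)
    (hl : ∀ v ∈ W, v ≠ 1 → ∀ c, LbH (C1 (φ v)) i c → st (EG φ D f) v ≤
      Nat.card (Quotient (irrInvSetoid (C1 (φ v)) (C1 (φ v)) c))) :
    Nat.card (Quotient (irrInvSetoid (⊤ : Subgroup A) ⊤ b)) +
      ∑ v ∈ W.erase 1, st (EG φ D f) v ≤ Nat.card (IrB B) := by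
  classical
  have hb := h.root.blk
  obtain ⟨M, hM⟩ := pow_one_of h
  have hmem : ∀ t, φ t ∈ D := fun t => (hr _).2 ⟨t, rfl⟩
  have hcex := fun t : T => exists_lbH h (hmem t)
  choose c hc using hcex
  have hC1 : C1 (φ 1) = ⊤ := by
    rw [map_one]
    ext x
    rw [mem_C1', one_mul, mul_one]
    simp
  have hc1 : c 1 = b := by
    have e1 := lbH_b_mul h (hmem 1) (hc 1)
    have e2 : resS (C1 (φ 1) : Set A) b = b := by
      ext x
      rw [coeff_resS_of_mem]
      rw [hC1]
      exact Subgroup.mem_top x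
    rw [e2] at e1
    have e3 := (hc 1).blk
    rw [hC1] at e3
    rcases hb.eq_or_mul_eq_zero e3 with e4 | e4
    · exact e4.symm
    · rw [e1] at e4
      exact absurd e4 e3.ne_zero
  -- the pairs
  let x : Fin W.card → Pr p b := fun w =>
    let v : T := (W.equivFin.symm w).1
    ⟨φ v, c v, ⟨M, hM _ (hmem v)⟩, (hc v).blk, lbH_b_mul h (hmem v) (hc v)⟩
  have h3 := fix_ge_sum hb hB (Equiv.refl (IrB B)) (t := 1) (Nat.coprime_one_left p)
    (fun χ v M _ F _ _ => by rw [pow_one]; rfl)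
    (fun v g M c _ hv1 => absurd (pow_one v) hv1) x (fun w => pow_one _)
    (fun w w' hww => by
      rintro ⟨g, hg1, hg2⟩
      change φ (W.equivFin.symm w).1 * g = g * φ (W.equivFin.symm w').1 at hg1
      change cj g (c (W.equivFin.symm w').1) = c (W.equivFin.symm w).1 at hg2
      obtain ⟨g', hg', hg''⟩ := fus_elt h (hmem _) (hmem _) hg1 (hc _) (hc _) hg2
      obtain ⟨α, hα, hα'⟩ := exists_EG hφ hr hg'
      refine hWne _ (W.equivFin.symm w').2 _ (W.equivFin.symm w).2 (fun h4 => hww ?_)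
        ⟨α, hα, ?_⟩
      · exact (W.equivFin.symm.injective (Subtype.ext h4)).symm
      · apply hφ
        rw [hα', ← hg'', mul_inv_cancel_right])
  have h4 : ∑ w : Fin W.card,
      Nat.card (Quotient (irrInvSetoid (C1 (x w).v) (C1 (x w).v) (x w).c))
      = ∑ v ∈ W, Nat.card (Quotient (irrInvSetoid (C1 (φ v)) (C1 (φ v)) (c v))) := by
    rw [← Finset.sum_coe_sort W
      (fun v => Nat.card (Quotient (irrInvSetoid (C1 (φ v)) (C1 (φ v)) (c v))))]
    exact Fintype.sum_equiv W.equivFin.symm _ _ fun w => rfl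
  have h5 : Nat.card {χ : IrB B // Equiv.refl (IrB B) χ = χ} = Nat.card (IrB B) :=
    Nat.card_congr (Equiv.subtypeUnivEquiv fun χ => rfl)
  rw [h4, h5, ← Finset.add_sum_erase W _ h1W, hc1, hC1] at h3
  refine le_trans (Nat.add_le_add_left (Finset.sum_le_sum fun v hv => ?_) _) h3
  exact hl v (Finset.mem_erase.1 hv).2 (Finset.mem_erase.1 hv).1 (c v) (hc v)

/-- **`|E| = p - 1` and `E` centralizes a subgroup of index `p`** -/
theorem l_le_ind (hp2 : p ≠ 2) (h : Src p b D f i) (hφ : Function.Injective φ)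
    (hr : ∀ x, x ∈ D ↔ ∃ t, φ t = x) (hE : eN D f = p - 1) {R : Subgroup T} (hR : R.index = p)
    (hfix : ∀ α ∈ EG φ D f, ∀ u ∈ R, α u = u) :
    Nat.card (Quotient (irrInvSetoid (⊤ : Subgroup A) ⊤ b)) ≤ eN D f := by
  classical
  have hp : p.Prime := Fact.out
  have hb := h.root.blk
  obtain ⟨B, hB⟩ := exists_cenL (p := p) hb.idem
    (fun g => invBy_iff_cj.1 hb.invBy g (Subgroup.mem_top g))
  have hcard : Nat.card (EG φ D f) = eN D f := card_EG hφ hr
  have hfin := finite_EG (φ := φ) (D := D) (f := f)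
  have hpE : ¬ p ∣ eN D f := fun h1 => by
    have h2 := hp.two_le
    have := Nat.le_of_dvd (by omega) h1
    omega
  have hpE' : ¬ p ∣ Nat.card (EG φ D f) := by rwa [hcard]
  obtain ⟨M, hM⟩ := pow_one_of h
  have hTp : IsPGroup p T := fun u => ⟨M, hφ (by
    rw [map_pow, map_one]
    exact hM (φ u) ((hr _).2 ⟨u, rfl⟩))⟩
  have hcyc := cyc_of_ind hp hTp hR hfix hpE'
  obtain ⟨W, hW1, hWne, hWcov⟩ := exists_W' (EG φ D f)
  obtain ⟨u, hu⟩ := exists_notMem hp hR
  have h1 := card_irB_le hp2 h hpE hB hφ hr (st_of_notMem hp hR hfix hu)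
  have h2 := card_le_sumst hp hR hfix (by rw [hcard, hE]) hWcov
  have h3 := sum_st_le h hB hφ hr hW1 hWne fun v hv hv1 c hc => by
    have e1 : cq φ (Subgroup.zpowers v) = C1 (φ v) := by
      rw [cq, MonoidHom.map_zpowers, CD_zpowers]
    have e2 : eQ φ D f (Subgroup.zpowers v) = st (EG φ D f) v :=
      (eQ_sup (R := ⊥) (fun z hz a => by
        rw [Subgroup.mem_bot.1 hz, map_one, one_mul, mul_one]) hφ v).2
    have e3 : LbH (cq φ (Subgroup.zpowers v)) i c := by rw [e1]; exact hc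
    have e4 := l_loc hp2 h hφ hr e3 (by
        rw [e2]
        have h5 := hp.two_le
        by_cases hvR : v ∈ R
        · rw [st_of_mem hfix hvR, hcard, hE]
          omega
        · rw [st_of_notMem hp hR hfix hvR]
          omega)
      (fun E' hE' _ => isCyclic_of_injective (Subgroup.inclusion hE')
        (Subgroup.inclusion_injective hE'))
    rw [e2, e1] at e4
    exact e4
  rw [← Finset.add_sum_erase W (fun v => st (EG φ D f) v) hW1,
    st_of_mem hfix R.one_mem, hcard] at h2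
  omega

/-- the same with the complement of the condition of `exists_rows_bot3` -/
theorem l_le_ind' (hp2 : p ≠ 2) (h : Src p b D f i) (hφ : Function.Injective φ)
    (hr : ∀ x, x ∈ D ↔ ∃ t, φ t = x) (hE : eN D f + 1 = p)
    (hn : ¬ ∀ Q : Subgroup T, (∀ α ∈ EG φ D f, ∀ t ∈ Q, α t = t) →
      p ^ 2 * Nat.card Q ∣ Fintype.card T) :
    Nat.card (Quotient (irrInvSetoid (⊤ : Subgroup A) ⊤ b)) ≤ eN D f := by
  classical
  have hp : p.Prime := Fact.out
  push Not at hn
  obtain ⟨Q, hfix, hQ⟩ := hn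
  have hcard : Nat.card (EG φ D f) = eN D f := card_EG hφ hr
  obtain ⟨M, hM⟩ := pow_one_of h
  have hTp : IsPGroup p T := fun u => ⟨M, hφ (by
    rw [map_pow, map_one]
    exact hM (φ u) ((hr _).2 ⟨u, rfl⟩))⟩
  obtain ⟨j, hj⟩ := hTp.index Q
  have h1 : Nat.card Q * Q.index = Fintype.card T := by
    rw [Subgroup.card_mul_index, Nat.card_eq_fintype_card]
  rcases Nat.lt_or_ge j 2 with h2 | h2
  · rcases Nat.lt_or_ge j 1 with h3 | h3
    · exfalso
      have h4 : j = 0 := by omega
      rw [h4, pow_zero, Subgroup.index_eq_one] at hj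
      have h5 : Nat.card (EG φ D f) = 1 := by
        rw [Nat.card_eq_one_iff_unique]
        refine ⟨⟨fun a b => Subtype.ext ?_⟩, ⟨1⟩⟩
        ext t
        rw [hfix a a.2 t (by rw [hj]; exact Subgroup.mem_top t),
          hfix b b.2 t (by rw [hj]; exact Subgroup.mem_top t)]
      rw [hcard] at h5
      omega
    · have h4 : j = 1 := by omega
      rw [h4, pow_one] at hj
      exact l_le_ind hp2 h hφ hr (by omega) hj hfix
  · exfalso
    apply hQ
    rw [← h1, hj, mul_comm]
    exact Nat.mul_dvd_mul_left _ (pow_dvd_pow p h2)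

end

end Pool.Agent.Lib.P0c8ca5.Ex
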