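import Mathlib
import Pool.Agent.Lib.P0c8ca5Ex.N2a
import Pool.Agent.Lib.P0c8ca5Ex.NE
import Pool.Agent.Lib.P0c8ca5Ex.V2

/-!
# N2b: the theorem on nilpotent blocks with abelian defect groups, all primes

* `nil'`: a block with abelian defect group and inertial index 1 satisfies `NilC`, any prime `p`;
* `l_le_one`: it has at most one simple module;
* `gap_one`: the weight conjecture for it.
-/

set_option linter.unusedSectionVars false

universe u

namespace Pool.Agent.Lib.P0c8ca5.Ex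

open MonoidAlgebra Rk

section
variable {p : ℕ} [Fact p.Prime] {k : Type*} [Field k] [IsAlgClosed k] [CharP k p]
  {A : Type*} [Group A] [Finite A] {b f i : MonoidAlgebra k A} {D : Subgroup A}
  {T : Type*} [CommGroup T] [Fintype T]

/-- projective characters are orthogonal to the columns off `1` -/
theorem col_orth (h : Src p b D f i) {B I : MonoidAlgebra (OW p k) A}
    (hl : Lf b i D B I) [Fintype (IrB B)] {φ : T →* A} (hφ : Function.Injective φ)
    (hr : ∀ x, x ∈ D ↔ ∃ t, φ t = x)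
    {e : MonoidAlgebra (OW p k) A} (he : e * e = e) (heB : e * B = e) {t : T} (ht : t ≠ 1) :
    ∑ χ : IrB B, chO χ.1 e * th φ I χ.1 t = 0 := by
  obtain ⟨M, hM⟩ := pow_one_of h
  have hmem : ∀ t, φ t ∈ D := fun t => (hr _).2 ⟨t, rfl⟩
  have h1 : ∀ χ : IrB B, chO χ.1 e * th φ I χ.1 t
      = chO χ.1 (single (1 : A) 1 * e) * chO χ.1 (I * single (φ t⁻¹)⁻¹ 1) := by
    intro χ
    rw [← th_inv, inv_inv, ← one_def, one_mul]
  rw [Finset.sum_congr rfl fun χ _ => h1 χ,
    sum_e hl.cb heB (single (1 : A) 1) (fun χ => chO χ (I * single (φ t⁻¹)⁻¹ 1))]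
  obtain ⟨E, hE⟩ := exists_locI h (hmem t⁻¹)
  refine cen_orth (one_pow _) (hM _ (hmem t⁻¹)) (Subgroup.one_mem _) ?_ he hl.ci.idem hl.ci.red
    (hl.com _ (hmem t⁻¹)) hE
  intro h0
  apply ht
  have h2 : φ t⁻¹ = φ 1 := by rw [← h0, map_one]
  exact inv_eq_one.1 (hφ h2)

/-- the case `D` not central, any prime -/
theorem nil_off' (h : Src p b D f i) (hN : St D f ≤ CD D)
    {B I : MonoidAlgebra (OW p k) A} (hl : Lf b i D B I) {φ : T →* A}
    (hφ : Function.Injective φ) (hr : ∀ x, x ∈ D ↔ ∃ t, φ t = x)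
    (hZ : zT φ ≠ ⊤)
    {BB : ∀ H : Subgroup A, MonoidAlgebra (OW p k) ↥H} {nn : Subgroup A → ℕ}
    (hfam : ∀ u ∈ D, u ∉ (Subgroup.center A : Set A) → ∃ c IH, LbH (C1 u) i c ∧
      LD D i c (C1 u) (BB (C1 u)) IH (nn (C1 u))) :
    NilC D B := by
  classical
  have : Fintype (IrB B) := Fintype.ofFinite _
  have hp : p.Prime := Fact.out
  obtain ⟨a, hd⟩ := ndata h hN hl hφ hr hfam
  have hcT : Nat.card D = Fintype.card T := card_range hφ hr
  have hT : IsPGroup p T := by
    obtain ⟨M, hM⟩ := pow_one_of h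
    intro t
    refine ⟨M, hφ ?_⟩
    rw [map_pow, map_one, hM _ ((hr _).2 ⟨t, rfl⟩)]
  refine ⟨?_, ?_⟩
  · rw [hcT, Nat.card_eq_fintype_card]
    exact hd.card_eq hp hT hZ
  · intro e he heB
    choose d1 hd1 using fun χ : IrB B => chO_nat he χ.1
    have h1 := hd.const_of hp hT hZ d1 (fun t ht => by
      have h2 := col_orth h hl hφ hr he heB ht
      refine Eq.trans (Finset.sum_congr rfl fun χ _ => ?_) h2
      rw [hd1 χ])
    by_cases hne : Nonempty (IrB B)
    · obtain ⟨χ0⟩ := hne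
      exact ⟨d1 χ0, fun χ => by rw [hd1 χ, h1 χ χ0]⟩
    · exact ⟨0, fun χ => absurd ⟨χ⟩ hne⟩

end

section
variable {p : ℕ} [Fact p.Prime] {k : Type*} [Field k] [IsAlgClosed k] [CharP k p]

theorem nil_aux' (n : ℕ) : ∀ (A : Type u) [Group A] [Finite A], Nat.card A = n →
    ∀ {b f : MonoidAlgebra k A} {D : Subgroup A}, Root p b D f → St D f ≤ CD D →
    ∀ {B : MonoidAlgebra (OW p k) A}, CenL b B → NilC D B := by
  induction n using Nat.strong_induction_on with
  | _ n ih =>
    intro A _ _ hA b f D h hN B hB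
    obtain ⟨i, hi⟩ := exists_src h
    obtain ⟨I, hl⟩ := exists_lf' hi hB
    let _ : CommGroup ↥D := cgrp D h.com
    let _ : Fintype ↥D := Fintype.ofFinite _
    have hφ : Function.Injective (D.subtype : ↥D →* A) := Subtype.val_injective
    have hr : ∀ x, x ∈ D ↔ ∃ t, (D.subtype : ↥D →* A) t = x :=
      fun x => ⟨fun hx => ⟨⟨x, hx⟩, rfl⟩, by rintro ⟨t, rfl⟩; exact t.2⟩
    by_cases hc : D ≤ Subgroup.center A
    · exact nil_cen hi hl (T := ↥D) (φ := D.subtype) hφ hr hc
    · have hZ : zT (T := ↥D) (D.subtype : ↥D →* A) ≠ ⊤ := by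
        intro h0
        apply hc
        intro x hx
        have h1 : (⟨x, hx⟩ : ↥D) ∈ zT (T := ↥D) (D.subtype : ↥D →* A) := by
          rw [h0]; exact Subgroup.mem_top _
        exact h1
      obtain ⟨BB, nn, hfam⟩ := exists_fam hi (Subgroup.center A : Set A)
        (fun u hu huc c hcu BH hBH => ih _ (by rw [← hA]; exact card_C1_lt huc) ↥(C1 u) rfl
          (src_loc hi hu hcu).root (st_loc hi hN hu) hBH)
      exact nil_off' hi hN hl (T := ↥D) (φ := D.subtype) hφ hr hZ hfam

/-- **the theorem on nilpotent blocks, all primes** -/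
theorem nil' {A : Type u} [Group A] [Finite A] {b f : MonoidAlgebra k A}
    {D : Subgroup A} (h : Root p b D f) (hN : St D f ≤ CD D) {B : MonoidAlgebra (OW p k) A}
    (hB : CenL b B) : NilC D B :=
  nil_aux' _ A rfl h hN hB

/-- **a block with abelian defect group and inertial index 1 has one simple module** -/
theorem l_le_one {A : Type u} [Group A] [Fintype A] {b f : MonoidAlgebra k A}
    {D : Subgroup A} (h : Root p b D f) (hE : eN D f = 1) :
    Nat.card (Quotient (irrInvSetoid (⊤ : Subgroup A) ⊤ b)) ≤ 1 := by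
  classical
  have hN : St D f ≤ CD D := by
    rw [eN, Subgroup.relIndex_eq_one] at hE
    exact hE
  have hb := h.blk
  obtain ⟨B, hB⟩ := exists_cenL (p := p) hb.idem
    (fun g => invBy_iff_cj.1 hb.invBy g (Subgroup.mem_top g))
  obtain ⟨i, hi⟩ := exists_src h
  let _ : CommGroup ↥D := cgrp D h.com
  let _ : Fintype ↥D := Fintype.ofFinite _
  have hφ : Function.Injective (D.subtype : ↥D →* A) := Subtype.val_injective
  have hr : ∀ x, x ∈ D ↔ ∃ t, (D.subtype : ↥D →* A) t = x :=
    fun x => ⟨fun hx => ⟨⟨x, hx⟩, rfl⟩, by rintro ⟨t, rfl⟩; exact t.2⟩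
  have hcard : Nat.card (EG D.subtype D f) = eN D f := card_EG hφ hr
  have hbot : ∀ α ∈ EG D.subtype D f, α = 1 := by
    have h1 : Nat.card (EG (D.subtype : ↥D →* A) D f) = 1 := by rw [hcard, hE]
    intro α hα
    have h2 := (Nat.card_eq_one_iff_unique.1 h1).1
    exact congrArg Subtype.val (h2.elim (⟨α, hα⟩ : EG (D.subtype : ↥D →* A) D f) 1)
  have hst : ∀ v : ↥D, st (EG D.subtype D f) v = 1 := by
    intro v
    refine (st_EG hφ hr v).2 fun g hg _ => hN hg
  have hloc : ∀ v : ↥D, ∀ c, LbH (C1 ((D.subtype : ↥D →* A) v)) i c → 1 ≤ Nat.card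
      (Quotient (irrInvSetoid (C1 ((D.subtype : ↥D →* A) v)) (C1 ((D.subtype : ↥D →* A) v)) c)) := by
    intro v c hc
    exact irr_nonempty hc.blk
  have h1 := sum_st_le hi hB hφ hr (W := Finset.univ) (Finset.mem_univ _)
    (fun v _ v' _ hvv => by
      rintro ⟨α, hα, h2⟩
      exact hvv (by rw [h2, hbot α hα]; rfl))
    (fun v _ _ c hc => by rw [hst v]; exact hloc v c hc)
  have h3 := @Finset.add_sum_erase ↥D ℕ _ (fun a b => Classical.propDecidable (a = b))
    Finset.univ (fun v : ↥D => st (EG D.subtype D f) v) 1 (Finset.mem_univ 1)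
  have h4 : ∑ v : ↥D, st (EG D.subtype D f) v = Nat.card ↥D := by
    rw [Finset.sum_congr rfl fun v _ => hst v, Finset.sum_const, smul_eq_mul, mul_one,
      Finset.card_univ, Nat.card_eq_fintype_card]
  rw [h4, hst 1] at h3
  rw [(nil' h hN hB).card, ← h3] at h1
  have h5 := Nat.le_of_add_le_add_right h1
  exact h5

/-- **the weight conjecture for a block with abelian defect group and inertial index 1** -/
theorem gap_one {A : Type u} [Group A] [Fintype A] {b f : MonoidAlgebra k A}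
    {D : Subgroup A} (h : Root p b D f) (hE : eN D f = 1) :
    gap p (⊤ : Subgroup A) ⊤ b = 0 := by
  have hp2 := (Fact.out : p.Prime).one_lt
  exact gap_zero_lt h (by rw [hE]; exact hp2) (lt_of_le_of_lt (l_le_one h hE) hp2)

end

end Pool.Agent.Lib.P0c8ca5.Ex
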