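import Pool.Agent.Lib.P0c8ca5Ex.R3

/-!
# Fixed points on a finite abelian group and on its dual

`card_idem`: an idempotent endomorphism has as many invariant characters as fixed points.
`sum_sq_dual`: for a group `E` of automorphisms of order prime to `|T|` commuting with the
idempotent `q`, the sums of the squares of the orders of the stabilizers over the `q`-invariant
characters and over the points fixed by `q` agree.
-/

set_option autoImplicit false
set_option linter.unusedSectionVars false

namespace Pool.Agent.Lib.P0c8ca5.Ex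

section

variable {T : Type*} [CommGroup T] [Fintype T] {K : Type*} [Field K]
  [HasEnoughRootsOfUnity K (Monoid.exponent T)]

/-- an idempotent endomorphism has as many invariant characters as fixed points -/
theorem card_idem (e : T →* T) (he : ∀ u, e (e u) = e u) :
    Nat.card {l : T →* Kˣ // l.comp e = l} = Nat.card {u : T // e u = u} := by
  have hr : ∀ r ∈ e.range, e r = r := by
    rintro _ ⟨v, rfl⟩
    exact he v
  have h1 : Nat.card {u : T // e u = u} = Nat.card e.range :=
    Nat.card_congr (Equiv.subtypeEquivRight fun u => ⟨fun h => ⟨u, h⟩, fun h => hr u h⟩)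
  let F : {l : T →* Kˣ // l.comp e = l} ≃ (e.range →* Kˣ) :=
    { toFun := fun l => l.1.comp e.range.subtype
      invFun := fun m => ⟨m.comp e.rangeRestrict, by
        ext u
        have h2 : e.rangeRestrict (e u) = e.rangeRestrict u := Subtype.ext (he u)
        rw [MonoidHom.comp_apply, MonoidHom.comp_apply, MonoidHom.comp_apply, h2]⟩
      left_inv := fun l => by
        apply Subtype.ext
        have h2 : (l.1.comp e.range.subtype).comp e.rangeRestrict = l.1.comp e := by
          ext u
          rfl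
        exact h2.trans l.2
      right_inv := fun m => by
        ext r
        have h2 : e.rangeRestrict (r : T) = r := Subtype.ext (hr r r.2)
        change ((m (e.rangeRestrict (r : T)) : Kˣ) : K) = _
        rw [h2] }
  have : HasEnoughRootsOfUnity K (Monoid.exponent e.range) :=
    HasEnoughRootsOfUnity.of_dvd K (Monoid.exponent_submonoid_dvd e.range.toSubmonoid)
  rw [h1, Nat.card_congr F]
  exact CommGroup.card_monoidHom_of_hasEnoughRootsOfUnity e.range K

/-- inversion of a power map -/
theorem zpow_back {G : Type*} [CommGroup G] {m t : ℕ} {a b : ℤ} (hab : a * m + b * t = 1) (x : G)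
    (hx : x ^ t = 1) : (x ^ m) ^ a = x := by
  have h1 : x ^ (a * (m : ℤ) + b * (t : ℤ)) = x := by rw [hab, zpow_one]
  rw [zpow_add, mul_comm a, mul_comm b, zpow_mul, zpow_mul, zpow_natCast, zpow_natCast, hx,
    one_zpow, mul_one] at h1
  exact h1

omit [HasEnoughRootsOfUnity K (Monoid.exponent T)] in
/-- the idempotent of two automorphisms commuting with the idempotent `q` -/
theorem exists_idem2 (E : Subgroup (MulAut T)) (hc : (Nat.card E).Coprime (Nat.card T))
    (q : T →* T) (hq : ∀ u, q (q u) = q u) (hqE : ∀ φ ∈ E, ∀ u, φ (q u) = q (φ u))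
    {φ ψ : MulAut T} (hφ : φ ∈ E) (hψ : ψ ∈ E) :
    ∃ e : T →* T, (∀ u, e (e u) = e u) ∧ (∀ u, e u = u ↔ q u = u ∧ φ u = u ∧ ψ u = u) ∧
      ∀ l : T →* Kˣ, l.comp e = l ↔ l.comp q = l ∧ dl l φ = l ∧ dl l ψ = l := by
  classical
  set F : Subgroup (MulAut T) := Subgroup.closure {φ, ψ} with hF
  have hFE : F ≤ E := by
    rw [hF, Subgroup.closure_le]
    rintro x (rfl | rfl)
    · exact hφ
    · exact hψ
  have hφF : φ ∈ F := Subgroup.subset_closure (by simp)
  have hψF : ψ ∈ F := Subgroup.subset_closure (by simp)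
  have : Fintype F := Fintype.ofFinite F
  have hcF : (Nat.card F).Coprime (Nat.card T) :=
    Nat.Coprime.coprime_dvd_left (Subgroup.card_dvd_of_le hFE) hc
  obtain ⟨a, b, hab⟩ := Nat.isCoprime_iff_coprime.2 hcF
  let N : T →* T :=
    { toFun := fun u => ∏ χ : F, (χ : MulAut T) u
      map_one' := by simp
      map_mul' := fun u v => by
        rw [← Finset.prod_mul_distrib]
        exact Finset.prod_congr rfl fun χ _ => map_mul _ u v }
  have hN : ∀ u, N u = ∏ χ : F, (χ : MulAut T) u := fun u => rfl
  let e0 : T →* T := (zpowGroupHom a).comp N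
  have he0 : ∀ u, e0 u = (N u) ^ a := fun u => rfl
  have hcard : ∀ u : T, u ^ Nat.card T = 1 := fun u => pow_card_eq_one'
  have hfix : ∀ u, (∀ χ ∈ F, χ u = u) → e0 u = u := by
    intro u hu
    rw [he0, hN, Finset.prod_congr rfl fun (χ : F) _ => hu χ χ.2, Finset.prod_const,
      Finset.card_univ, ← Nat.card_eq_fintype_card]
    exact zpow_back hab u (hcard u)
  have hNl : ∀ χ ∈ F, ∀ u, χ (N u) = N u := by
    intro χ hχ u
    rw [hN, map_prod]
    exact Fintype.prod_equiv (Equiv.mulLeft (⟨χ, hχ⟩ : F)) _ _ fun _ => rfl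
  have hNr : ∀ χ ∈ F, ∀ u, N (χ u) = N u := by
    intro χ hχ u
    rw [hN, hN]
    exact Fintype.prod_equiv (Equiv.mulRight (⟨χ, hχ⟩ : F)) _ _ fun _ => rfl
  have hel : ∀ χ ∈ F, ∀ u, χ (e0 u) = e0 u := by
    intro χ hχ u
    rw [he0, map_zpow, hNl χ hχ]
  have her : ∀ χ ∈ F, ∀ u, e0 (χ u) = e0 u := by
    intro χ hχ u
    rw [he0, he0, hNr χ hχ]
  have hee : ∀ u, e0 (e0 u) = e0 u := fun u => hfix _ fun χ hχ => hel χ hχ u
  have hNq : ∀ u, q (N u) = N (q u) := by
    intro u
    rw [hN, hN, map_prod]
    exact Finset.prod_congr rfl fun χ _ => (hqE χ (hFE χ.2) u).symm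
  have heq : ∀ u, q (e0 u) = e0 (q u) := by
    intro u
    rw [he0, he0, map_zpow, hNq]
  refine ⟨e0.comp q, ?_, ?_, ?_⟩
  · intro u
    change e0 (q (e0 (q u))) = e0 (q u)
    rw [heq, hq, hee]
  · intro u
    rw [MonoidHom.comp_apply]
    constructor
    · intro h
      refine ⟨?_, ?_, ?_⟩
      · conv_lhs => rw [← h]
        rw [heq, hq, h]
      · conv_lhs => rw [← h]
        rw [hel φ hφF, h]
      · conv_lhs => rw [← h]
        rw [hel ψ hψF, h]
    · rintro ⟨h1, h2, h3⟩
      rw [h1]
      refine hfix u fun χ hχ => ?_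
      refine Subgroup.closure_induction (p := fun χ _ => χ u = u) ?_ ?_ ?_ ?_ hχ
      · rintro x (rfl | rfl)
        · exact h2
        · exact h3
      · rfl
      · intro x y _ _ hx hy
        rw [MulAut.mul_apply, hy, hx]
      · intro x _ hx
        have h4 : x⁻¹ (x u) = u := MulAut.inv_apply_self _ x u
        rwa [hx] at h4
  · intro l
    constructor
    · intro h
      have h1 : ∀ u, l u = l (e0 (q u)) := fun u => (DFunLike.congr_fun h u).symm
      refine ⟨?_, ?_, ?_⟩
      · ext u
        rw [MonoidHom.comp_apply, h1 (q u), hq, ← h1]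
      · ext u
        change ((l (φ u) : Kˣ) : K) = _
        rw [h1 (φ u), ← hqE φ hφ, her φ hφF, ← h1]
      · ext u
        change ((l (ψ u) : Kˣ) : K) = _
        rw [h1 (ψ u), ← hqE ψ hψ, her ψ hψF, ← h1]
    · rintro ⟨h1, h2, h3⟩
      have h4 : ∀ χ ∈ F, ∀ u, l (χ u) = l u := by
        intro χ hχ
        refine Subgroup.closure_induction (p := fun χ _ => ∀ u, l (χ u) = l u) ?_ ?_ ?_ ?_ hχ
        · rintro x (rfl | rfl) u
          · exact DFunLike.congr_fun h2 u
          · exact DFunLike.congr_fun h3 u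
        · intro u
          rfl
        · intro x y _ _ hx hy u
          rw [MulAut.mul_apply, hx, hy]
        · intro x _ hx u
          have h4 := hx (x⁻¹ u)
          rw [MulAut.apply_inv_self] at h4
          exact h4.symm
      have h5 : ∀ u, l (e0 u) = l u := by
        intro u
        rw [he0, hN, map_zpow, map_prod, Finset.prod_congr rfl fun (χ : F) _ => h4 χ χ.2 u,
          Finset.prod_const, Finset.card_univ, ← Nat.card_eq_fintype_card]
        refine zpow_back hab (l u) ?_
        rw [← map_pow, hcard, map_one]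
      ext u
      rw [MonoidHom.comp_apply, MonoidHom.comp_apply, h5]
      exact congrArg Units.val (DFunLike.congr_fun h1 u)

end

section

variable {T : Type*} [CommGroup T] [Fintype T] {K : Type*} [Field K] [CharZero K]
  [HasEnoughRootsOfUnity K (Monoid.exponent T)]

theorem sum_sq_pairs {X Y : Type*} [Fintype X] [Fintype Y] (P : X → Prop) (Q : X → Y → Prop)
    [DecidablePred P] [∀ x, DecidablePred (Q x)] :
    ∑ x : X with P x, (Finset.univ.filter fun y : Y => Q x y).card ^ 2
      = ∑ y : Y, ∑ z : Y, Nat.card {x : X // P x ∧ Q x y ∧ Q x z} := by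
  classical
  have h2 : ∀ x : X, (Finset.univ.filter fun y : Y => Q x y).card ^ 2
      = ∑ y : Y, ∑ z : Y, if Q x y ∧ Q x z then 1 else 0 := by
    intro x
    rw [Finset.card_filter, pow_two, Finset.sum_mul_sum]
    refine Finset.sum_congr rfl fun φ _ => Finset.sum_congr rfl fun ψ _ => ?_
    by_cases h3 : Q x φ <;> by_cases h4 : Q x ψ <;> simp [h3, h4]
  rw [Finset.sum_congr rfl fun x _ => h2 x, Finset.sum_comm]
  refine Finset.sum_congr rfl fun φ _ => ?_
  rw [Finset.sum_comm]
  refine Finset.sum_congr rfl fun ψ _ => ?_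
  rw [Nat.card_eq_fintype_card, Fintype.card_subtype, ← Finset.sum_filter, Finset.filter_filter,
    Finset.card_eq_sum_ones]

open Classical in
/-- **the squares of the orders of the stabilizers** -/
theorem sum_sq_dual (E : Subgroup (MulAut T)) [Fintype E]
    (hc : (Nat.card E).Coprime (Nat.card T))
    (q : T →* T) (hq : ∀ u, q (q u) = q u) (hqE : ∀ φ ∈ E, ∀ u, φ (q u) = q (φ u)) :
    ∑ μ : T →* Kˣ with μ.comp q = μ,
        (Finset.univ.filter fun φ : E => dl μ (φ : MulAut T) = μ).card ^ 2
      = ∑ u : T with q u = u,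
        (Finset.univ.filter fun φ : E => (φ : MulAut T) u = u).card ^ 2 := by
  rw [sum_sq_pairs (X := T →* Kˣ) (Y := E) (fun μ => μ.comp q = μ)
      (fun μ φ => dl μ (φ : MulAut T) = μ),
    sum_sq_pairs (X := T) (Y := E) (fun u => q u = u) (fun u φ => (φ : MulAut T) u = u)]
  refine Finset.sum_congr rfl fun φ _ => Finset.sum_congr rfl fun ψ _ => ?_
  obtain ⟨e, he, he1, he2⟩ := exists_idem2 (K := K) E hc q hq hqE φ.2 ψ.2
  rw [← Nat.card_congr (Equiv.subtypeEquivRight he2), card_idem e he,
    Nat.card_congr (Equiv.subtypeEquivRight he1)]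

end

end Pool.Agent.Lib.P0c8ca5.Ex
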