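import Pool.Agent.Lib.P0c8ca5Ex.R12

/-!
# RT: the row bound for two free directions

`q1`, `q2` are orthogonal idempotent endomorphisms of the finite abelian group `T`,
`E` is a group of automorphisms of `T` of order prime to `|T|` which commute with `q1`, `q2`; an
element of `E` which fixes a nontrivial element of the image of `q1` (of `q2`) fixes all of them.
`rb_two`: the row bound holds for the places `u` with `q1 u ≠ 1` and `q2 u ≠ 1`.
-/

set_option autoImplicit false
set_option linter.unusedSectionVars false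

namespace Pool.Agent.Lib.P0c8ca5.Ex

open Finset

namespace RT

section forms

variable {M : Type*} [AddCommGroup M]

/-- symmetric forms which are at least `c` on nonzero vectors -/
structure Fmt (β : M → M → ℤ) (c : ℤ) : Prop where
  sub_left : ∀ x y z, β (x - y) z = β x z - β y z
  symm : ∀ x y, β x y = β y x
  lb : ∀ x, x ≠ 0 → c ≤ β x x

theorem Fmt.sub_right {β : M → M → ℤ} {c : ℤ} (h : Fmt β c) (x y z : M) :
    β x (y - z) = β x y - β x z := by
  rw [h.symm, h.sub_left, h.symm y, h.symm z]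

theorem Fmt.zero_left {β : M → M → ℤ} {c : ℤ} (h : Fmt β c) (z : M) : β 0 z = 0 := by
  have h1 := h.sub_left 0 0 z
  rwa [sub_self, sub_self] at h1

theorem Fmt.nonneg {β : M → M → ℤ} {c : ℤ} (h : Fmt β c) (hc : 0 ≤ c) (x : M) : 0 ≤ β x x := by
  by_cases hx : x = 0
  · rw [hx, h.zero_left]
  · exact hc.trans (h.lb x hx)

/-- the form on functions on `A` -/
def phf (A : Type*) [Fintype A] (β : M → M → ℤ) (x y : A → M) : ℤ :=
  ((Fintype.card A : ℤ) + 1) * ∑ a, β (x a) (y a) - ∑ a, ∑ b, β (x a) (y b)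

theorem Fmt.phf {β : M → M → ℤ} {c : ℤ} (h : Fmt β c) (hc : 0 ≤ c) (A : Type*) [Fintype A] :
    Fmt (phf A β) (Fintype.card A * c) where
  sub_left x y z := by
    unfold RT.phf
    simp only [Pi.sub_apply, h.sub_left, Finset.sum_sub_distrib]
    ring
  symm x y := by
    unfold RT.phf
    congr 1
    · congr 1
      exact Finset.sum_congr rfl fun a _ => h.symm _ _
    · rw [Finset.sum_comm]
      exact Finset.sum_congr rfl fun a _ => Finset.sum_congr rfl fun b _ => h.symm _ _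
  lb x hx := by
    classical
    obtain ⟨a0, ha0⟩ : ∃ a, x a ≠ 0 := by
      by_contra h1
      push Not at h1
      exact hx (funext h1)
    have h1 : ∑ a, ∑ b, β (x a - x b) (x a - x b) + 2 * ∑ a, β (x a) (x a)
        = 2 * RT.phf A β x x := by
      have h2 : ∀ a b, β (x a - x b) (x a - x b)
          = β (x a) (x a) + β (x b) (x b) - 2 * β (x a) (x b) := by
        intro a b
        rw [h.sub_left, h.sub_right, h.sub_right, h.symm (x b) (x a)]
        ring
      simp only [h2, Finset.sum_sub_distrib, Finset.sum_add_distrib, Finset.sum_const,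
        Finset.card_univ, nsmul_eq_mul, ← Finset.mul_sum]
      unfold RT.phf
      ring
    have h2 : 2 * ∑ b, β (x a0 - x b) (x a0 - x b)
        ≤ ∑ a, ∑ b, β (x a - x b) (x a - x b) := by
      have h5 := Finset.add_sum_erase Finset.univ
        (fun a => ∑ b, β (x a - x b) (x a - x b)) (Finset.mem_univ a0)
      have h3 : ∑ a ∈ Finset.univ.erase a0, β (x a - x a0) (x a - x a0)
          ≤ ∑ a ∈ Finset.univ.erase a0, ∑ b, β (x a - x b) (x a - x b) :=
        Finset.sum_le_sum fun a _ => Finset.single_le_sum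
          (f := fun b => β (x a - x b) (x a - x b)) (fun b _ => h.nonneg hc _) (Finset.mem_univ a0)
      have h4 : ∑ a ∈ Finset.univ.erase a0, β (x a - x a0) (x a - x a0)
          = ∑ b, β (x a0 - x b) (x a0 - x b) := by
        rw [← Finset.add_sum_erase _ (fun b => β (x a0 - x b) (x a0 - x b)) (Finset.mem_univ a0)]
        rw [sub_self, h.zero_left, zero_add]
        refine Finset.sum_congr rfl fun a _ => ?_
        rw [h.sub_left, h.sub_right, h.sub_right, h.sub_left, h.sub_right, h.sub_right]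
        ring
      rw [← h5]
      linarith
    have h3 : (Fintype.card A : ℤ) * c
        ≤ ∑ b, β (x a0 - x b) (x a0 - x b) + ∑ b, β (x b) (x b) := by
      rw [← Finset.sum_add_distrib]
      have h4 := Finset.card_nsmul_le_sum Finset.univ
        (fun b => β (x a0 - x b) (x a0 - x b) + β (x b) (x b)) c (fun b _ => by
          by_cases hb : x b = 0
          · rw [hb, sub_zero, h.zero_left, add_zero]
            exact h.lb _ ha0
          · have h5 := h.lb _ hb
            have h6 := h.nonneg hc (x a0 - x b)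
            linarith)
      rwa [nsmul_eq_mul, Finset.card_univ] at h4
    linarith

theorem phf_sum {I A : Type*} [Fintype I] [Fintype A] [DecidableEq A] (β : M → M → ℤ)
    (x y : I → A → M) (u v : ℤ)
    (h : ∀ a b, ∑ i, β (x i a) (y i b) = (if a = b then u else 0) + v) :
    ∑ i, phf A β (x i) (y i) = Fintype.card A * (Fintype.card A * u + v) := by
  unfold phf
  rw [Finset.sum_sub_distrib, ← Finset.mul_sum, Finset.sum_comm, Finset.sum_comm (s := univ) (t := univ)
    (f := fun i a => ∑ b, β (x i a) (y i b))]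
  have h1 : ∀ a, ∑ i, β (x i a) (y i a) = u + v := fun a => by rw [h, if_pos rfl]
  have h2 : ∀ a, ∑ i, ∑ b, β (x i a) (y i b) = u + Fintype.card A * v := by
    intro a
    rw [Finset.sum_comm, Finset.sum_congr rfl fun b _ => h a b, Finset.sum_add_distrib,
      Finset.sum_ite_eq Finset.univ a, if_pos (Finset.mem_univ a), Finset.sum_const,
      Finset.card_univ, nsmul_eq_mul]
  rw [Finset.sum_congr rfl fun a _ => h1 a, Finset.sum_congr rfl fun a _ => h2 a,
    Finset.sum_const, Finset.sum_const, Finset.card_univ, nsmul_eq_mul, nsmul_eq_mul]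
  ring

end forms

/-- the rows on a product -/
theorem count_prod {I A B C : Type*} [Fintype I] [Fintype A] [Fintype B] [Fintype C]
    [DecidableEq A] [DecidableEq B] [DecidableEq C] (x : I → A → B → C → ℤ) (k1 k2 s : ℕ)
    (hG : ∀ a b c a' b' c', ∑ i, x i a b c * x i a' b' c'
      = (if a = a' ∧ b = b' ∧ c = c' then 1 else 0) + (if a = a' then (k1 : ℤ) else 0)
        + (if b = b' then (k2 : ℤ) else 0) + s)
    (hne : ∀ i, ∃ a b c, x i a b c ≠ 0) :
    Fintype.card I ≤ Fintype.card A * Fintype.card B * Fintype.card C + k1 * Fintype.card A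
      + k2 * Fintype.card B + s := by
  classical
  by_cases hI : Nonempty I
  swap
  · rw [not_nonempty_iff] at hI
    rw [Fintype.card_eq_zero]
    exact Nat.zero_le _
  obtain ⟨i0⟩ := hI
  obtain ⟨a0, b0, c0, _⟩ := hne i0
  have hA : 0 < Fintype.card A := Fintype.card_pos_iff.2 ⟨a0⟩
  have hB : 0 < Fintype.card B := Fintype.card_pos_iff.2 ⟨b0⟩
  have hC : 0 < Fintype.card C := Fintype.card_pos_iff.2 ⟨c0⟩
  set m1 : ℤ := (Fintype.card A : ℤ) with hm1
  set m2 : ℤ := (Fintype.card B : ℤ) with hm2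
  set t : ℤ := (Fintype.card C : ℤ) with ht
  have hm1' : 0 < m1 := Int.natCast_pos.2 hA
  have hm2' : 0 < m2 := Int.natCast_pos.2 hB
  have ht' : 0 < t := Int.natCast_pos.2 hC
  have f0 : Fmt (fun a b : ℤ => a * b) 1 :=
    { sub_left := fun x y z => by ring
      symm := fun x y => mul_comm _ _
      lb := fun x hx => by
        have : 0 < x * x := mul_self_pos.2 hx
        linarith }
  have f1 := f0.phf (by norm_num) C
  have f2 := f1.phf (by positivity) B
  have f3 := f2.phf (by positivity) A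
  have g1 : ∀ a b a' b', ∑ i, phf C (fun a b : ℤ => a * b) (x i a b) (x i a' b')
      = t * (t * (if a = a' ∧ b = b' then 1 else 0)
        + ((if a = a' then (k1 : ℤ) else 0) + (if b = b' then (k2 : ℤ) else 0) + s)) := by
    intro a b a' b'
    refine phf_sum _ _ _ _ _ fun c c' => ?_
    rw [hG]
    by_cases h1 : a = a' <;> by_cases h2 : b = b' <;> by_cases h3 : c = c' <;> simp [h1, h2, h3]
    all_goals ring
  have g2 : ∀ a a', ∑ i, phf B (phf C (fun a b : ℤ => a * b)) (x i a) (x i a')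
      = m2 * (m2 * (t * (t * (if a = a' then 1 else 0) + k2))
        + t * ((if a = a' then (k1 : ℤ) else 0) + s)) := by
    intro a a'
    refine phf_sum _ _ _ _ _ fun b b' => ?_
    rw [g1]
    by_cases h1 : a = a' <;> by_cases h2 : b = b' <;> simp [h1, h2]
    all_goals ring
  have g3 : ∑ i, phf A (phf B (phf C (fun a b : ℤ => a * b))) (x i) (x i)
      = m1 * (m1 * (m2 * t * (m2 * t + k1)) + m2 * t * (m2 * k2 + s)) := by
    refine phf_sum _ _ _ _ _ fun a a' => ?_
    rw [g2]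
    by_cases h1 : a = a' <;> simp [h1]
    all_goals ring
  have h1 := Finset.card_nsmul_le_sum Finset.univ
    (fun i => phf A (phf B (phf C (fun a b : ℤ => a * b))) (x i) (x i)) (m1 * (m2 * (t * 1)))
    (fun i _ => f3.lb (x i) fun h => by
      obtain ⟨a, b, c, habc⟩ := hne i
      apply habc
      rw [h]
      rfl)
  rw [g3, nsmul_eq_mul, Finset.card_univ] at h1
  have h2 : (m1 * m2 * t) * (Fintype.card I : ℤ)
      ≤ (m1 * m2 * t) * (m1 * m2 * t + k1 * m1 + k2 * m2 + s) := by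
    calc (m1 * m2 * t) * (Fintype.card I : ℤ) = (Fintype.card I : ℤ) * (m1 * (m2 * (t * 1))) := by
          ring
      _ ≤ _ := h1
      _ = _ := by ring
  have h3 := le_of_mul_le_mul_left h2 (by positivity)
  rw [hm1, hm2, ht] at h3
  exact_mod_cast h3

/-- the rows on a set over a product, with fibres of constant size -/
theorem count_fib {I A B J : Type*} [Fintype I] [Fintype A] [Fintype B] [Fintype J]
    [DecidableEq A] [DecidableEq B] [DecidableEq J] (p : J → A) (r : J → B) (t : ℕ)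
    (ht : ∀ a b, (Finset.univ.filter fun j => p j = a ∧ r j = b).card = t)
    (x : I → J → ℤ) (k1 k2 s : ℕ)
    (hG : ∀ j j', ∑ i, x i j * x i j' = (if j = j' then 1 else 0)
      + (if p j = p j' then (k1 : ℤ) else 0) + (if r j = r j' then (k2 : ℤ) else 0) + s)
    (hne : ∀ i, ∃ j, x i j ≠ 0) :
    Fintype.card I ≤ Fintype.card A * Fintype.card B * t + k1 * Fintype.card A
      + k2 * Fintype.card B + s := by
  classical
  have h1 : ∀ ab : A × B, Fintype.card {j : J // (p j, r j) = ab} = t := by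
    rintro ⟨a, b⟩
    rw [← ht a b, Fintype.card_subtype]
    congr 1
    ext j
    simp
  let e : J ≃ (A × B) × Fin t :=
    (Equiv.sigmaFiberEquiv fun j => (p j, r j)).symm.trans
      ((Equiv.sigmaCongrRight fun ab => Fintype.equivFinOfCardEq (h1 ab)).trans
        (Equiv.sigmaEquivProd _ _))
  have he : ∀ j, (e j).1 = (p j, r j) := fun j => rfl
  have hp : ∀ a b c, p (e.symm ((a, b), c)) = a := by
    intro a b c
    have h2 := he (e.symm ((a, b), c))
    rw [Equiv.apply_symm_apply] at h2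
    exact (congrArg Prod.fst h2).symm
  have hr : ∀ a b c, r (e.symm ((a, b), c)) = b := by
    intro a b c
    have h2 := he (e.symm ((a, b), c))
    rw [Equiv.apply_symm_apply] at h2
    exact (congrArg Prod.snd h2).symm
  have h2 := count_prod (C := Fin t) (fun i a b c => x i (e.symm ((a, b), c))) k1 k2 s
    (by
      intro a b c a' b' c'
      rw [hG, hp, hp, hr, hr]
      have h3 : e.symm ((a, b), c) = e.symm ((a', b'), c') ↔ a = a' ∧ b = b' ∧ c = c' := by
        rw [e.symm.injective.eq_iff, Prod.mk.injEq, Prod.mk.injEq, and_assoc]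
      simp only [h3])
    (by
      intro i
      obtain ⟨j, hj⟩ := hne i
      refine ⟨(e j).1.1, (e j).1.2, (e j).2, ?_⟩
      change x i (e.symm (e j)) ≠ 0
      rwa [Equiv.symm_apply_apply])
  rwa [Fintype.card_fin] at h2

section orbits

variable {S X : Type*} [Group S] [Fintype S] [MulAction S X] [Fintype X]

/-- the class of a point -/
def qm (S : Type*) {X : Type*} [Group S] [MulAction S X] (x : X) :
    MulAction.orbitRel.Quotient S X := Quotient.mk _ x

theorem qm_eq {x y : X} : qm S x = qm S y ↔ ∃ s : S, s • x = y := by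
  unfold qm
  rw [Quotient.eq]
  rw [MulAction.orbitRel_apply]
  constructor
  · rintro ⟨s, hs⟩
    exact ⟨s⁻¹, by rw [← hs]; exact inv_smul_smul s y⟩
  · rintro ⟨s, hs⟩
    exact ⟨s⁻¹, by rw [← hs]; exact inv_smul_smul s x⟩

open Classical in
/-- the elements which move `x` to `y` -/
theorem card_transp {k : ℕ} (hk : ∀ x : X, (Finset.univ.filter fun s : S => s • x = x).card = k)
    (x y : X) : (Finset.univ.filter fun s : S => s • x = y).card
      = if qm S x = qm S y then k else 0 := by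
  split_ifs with h
  · obtain ⟨t, ht⟩ := qm_eq.1 h
    rw [← hk x]
    symm
    refine Finset.card_bij (fun s _ => t * s) ?_ ?_ ?_
    · intro s hs
      rw [Finset.mem_filter] at hs ⊢
      refine ⟨Finset.mem_univ _, ?_⟩
      rw [mul_smul, hs.2, ht]
    · intro a _ b _ hab
      exact mul_left_cancel hab
    · intro s hs
      rw [Finset.mem_filter] at hs
      refine ⟨t⁻¹ * s, ?_, mul_inv_cancel_left _ _⟩
      rw [Finset.mem_filter]
      refine ⟨Finset.mem_univ _, ?_⟩
      rw [mul_smul, hs.2, ← ht, inv_smul_smul]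
  · rw [Finset.card_eq_zero, Finset.filter_eq_empty_iff]
    intro s _ hs
    exact h (qm_eq.2 ⟨s, hs⟩)

open Classical in
/-- the size of an orbit -/
theorem card_class {k : ℕ} (hk : ∀ x : X, (Finset.univ.filter fun s : S => s • x = x).card = k)
    (a : MulAction.orbitRel.Quotient S X) :
    (Finset.univ.filter fun x : X => qm S x = a).card * k = Fintype.card S := by
  induction a using Quotient.inductionOn with
  | h x0 =>
    change (Finset.univ.filter fun x : X => qm S x = qm S x0).card * k = _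
    rw [← Finset.card_univ (α := S), Finset.card_eq_sum_card_fiberwise (s := Finset.univ)
      (f := fun s : S => s • x0) (t := Finset.univ.filter fun x : X => qm S x = qm S x0)
      (fun s _ => by
        rw [Finset.mem_coe, Finset.mem_filter]
        exact ⟨Finset.mem_univ _, (qm_eq.2 ⟨s, rfl⟩).symm⟩)]
    rw [Finset.sum_congr rfl (g := fun _ => k) fun x hx => by
      rw [card_transp hk, if_pos (Finset.mem_filter.1 hx).2.symm], Finset.sum_const, smul_eq_mul]

open Classical in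
/-- the number of orbits -/
theorem card_orbs {k : ℕ} (hk : ∀ x : X, (Finset.univ.filter fun s : S => s • x = x).card = k)
    [Fintype (MulAction.orbitRel.Quotient S X)] :
    Fintype.card X * k = Fintype.card (MulAction.orbitRel.Quotient S X) * Fintype.card S := by
  rw [← Finset.card_univ (α := X), Finset.card_eq_sum_card_fiberwise (s := Finset.univ)
    (f := fun x : X => qm S x) (t := Finset.univ) (fun x _ => Finset.mem_coe.2 (Finset.mem_univ _)),
    Finset.sum_mul, Finset.sum_congr rfl fun a _ => card_class hk a, Finset.sum_const,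
    Finset.card_univ, smul_eq_mul]

end orbits

open Classical in
/-- the rows on a product of two sets with a group action -/
theorem count_act {I V W S : Type*} [Fintype I] [Fintype V] [Fintype W] [Group S] [Fintype S]
    [MulAction S V] [MulAction S W] (k1 k2 : ℕ)
    (hk1 : ∀ v : V, (Finset.univ.filter fun s : S => s • v = v).card = k1)
    (hk2 : ∀ w : W, (Finset.univ.filter fun s : S => s • w = w).card = k2)
    (hfree : ∀ (v : V) (w : W) (s : S), s • v = v → s • w = w → s = 1)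
    (x : I → V → W → ℤ) (hinv : ∀ i (s : S) v w, x i (s • v) (s • w) = x i v w)
    (hG : ∀ v w v' w', ∑ i, x i v w * x i v' w'
      = ∑ s : S, ((if s • v = v' then (1 : ℤ) else 0) + 1) * ((if s • w = w' then 1 else 0) + 1))
    (hne : ∀ i, ∃ v w, x i v w ≠ 0) :
    Fintype.card I * Fintype.card S ≤ Fintype.card V * Fintype.card W + Fintype.card V * k1 ^ 2
      + Fintype.card W * k2 ^ 2 + Fintype.card S ^ 2 := by
  by_cases hI : Nonempty I
  swap
  · rw [not_nonempty_iff] at hI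
    rw [Fintype.card_eq_zero, zero_mul]
    exact Nat.zero_le _
  obtain ⟨i0⟩ := hI
  obtain ⟨v0, w0, _⟩ := hne i0
  have hk1' : 0 < k1 := by
    rw [← hk1 v0]
    exact Finset.card_pos.2 ⟨1, by simp⟩
  have hk2' : 0 < k2 := by
    rw [← hk2 w0]
    exact Finset.card_pos.2 ⟨1, by simp⟩
  have hS : 0 < Fintype.card S := Fintype.card_pos
  let A := MulAction.orbitRel.Quotient S V
  let B := MulAction.orbitRel.Quotient S W
  let J := MulAction.orbitRel.Quotient S (V × W)
  have : Fintype A := Fintype.ofFinite A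
  have : Fintype B := Fintype.ofFinite B
  have : Fintype J := Fintype.ofFinite J
  have hk3 : ∀ y : V × W, (Finset.univ.filter fun s : S => s • y = y).card = 1 := by
    intro y
    rw [Finset.card_eq_one]
    refine ⟨1, Finset.eq_singleton_iff_unique_mem.2 ⟨by simp, fun s hs => ?_⟩⟩
    rw [Finset.mem_filter] at hs
    exact hfree y.1 y.2 s (congrArg Prod.fst hs.2) (congrArg Prod.snd hs.2)
  let p : J → A := Quotient.map' Prod.fst (by
    rintro y z ⟨s, hs⟩
    exact ⟨s, congrArg Prod.fst hs⟩)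
  let r : J → B := Quotient.map' Prod.snd (by
    rintro y z ⟨s, hs⟩
    exact ⟨s, congrArg Prod.snd hs⟩)
  have hp : ∀ y : V × W, p (qm S y) = qm S y.1 := fun y => rfl
  have hr : ∀ y : V × W, r (qm S y) = qm S y.2 := fun y => rfl
  let X : I → J → ℤ := fun i => Quotient.lift (fun y : V × W => x i y.1 y.2) (by
    rintro y z ⟨s, hs⟩
    rw [← hs]
    exact hinv i s z.1 z.2)
  have hX : ∀ i (y : V × W), X i (qm S y) = x i y.1 y.2 := fun i y => rfl
  have cA : ∀ a : A, (Finset.univ.filter fun v : V => qm S v = a).card * k1 = Fintype.card S :=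
    card_class hk1
  have cB : ∀ b : B, (Finset.univ.filter fun w : W => qm S w = b).card * k2 = Fintype.card S :=
    card_class hk2
  have cJ : ∀ j : J, (Finset.univ.filter fun y : V × W => qm S y = j).card * 1 = Fintype.card S :=
    card_class (fun y => by convert hk3 y)
  have hfib : ∀ (a : A) (b : B), (Finset.univ.filter fun j => p j = a ∧ r j = b).card * (k1 * k2)
      = Fintype.card S := by
    intro a b
    have h1 : (Finset.univ.filter fun j => p j = a ∧ r j = b).card * Fintype.card S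
        = (Finset.univ.filter fun v : V => qm S v = a).card
          * (Finset.univ.filter fun w : W => qm S w = b).card := by
      have h2 : ((Finset.univ.filter fun v : V => qm S v = a)
          ×ˢ (Finset.univ.filter fun w : W => qm S w = b)).card
          = ∑ j ∈ Finset.univ.filter (fun j => p j = a ∧ r j = b), Fintype.card S := by
        rw [Finset.card_eq_sum_card_fiberwise (f := fun y : V × W => qm S y)
          (t := Finset.univ.filter fun j => p j = a ∧ r j = b)]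
        · refine Finset.sum_congr rfl fun j hj => ?_
          rw [← cJ j, mul_one]
          congr 1
          ext y
          rw [Finset.mem_filter, Finset.mem_product, Finset.mem_filter, Finset.mem_filter,
            Finset.mem_filter]
          constructor
          · rintro ⟨_, h⟩
            exact ⟨Finset.mem_univ _, h⟩
          · rintro ⟨_, h⟩
            have h3 := (Finset.mem_filter.1 hj).2
            rw [← h, hp, hr] at h3
            exact ⟨⟨⟨Finset.mem_univ _, h3.1⟩, ⟨Finset.mem_univ _, h3.2⟩⟩, h⟩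
        · intro y hy
          rw [Finset.mem_coe, Finset.mem_product, Finset.mem_filter, Finset.mem_filter] at hy
          rw [Finset.mem_coe, Finset.mem_filter, hp, hr]
          exact ⟨Finset.mem_univ _, hy.1.2, hy.2.2⟩
      rw [Finset.card_product, Finset.sum_const, smul_eq_mul] at h2
      exact h2.symm
    have h4 : (Finset.univ.filter fun j => p j = a ∧ r j = b).card * (k1 * k2) * Fintype.card S
        = Fintype.card S * Fintype.card S := by
      calc _ = (Finset.univ.filter fun j => p j = a ∧ r j = b).card * Fintype.card S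
            * (k1 * k2) := by ring
        _ = ((Finset.univ.filter fun v : V => qm S v = a).card * k1)
            * ((Finset.univ.filter fun w : W => qm S w = b).card * k2) := by rw [h1]; ring
        _ = _ := by rw [cA, cB]
    exact Nat.eq_of_mul_eq_mul_right hS h4
  have hkk : 0 < k1 * k2 := Nat.mul_pos hk1' hk2'
  have ht : ∀ (a : A) (b : B), (Finset.univ.filter fun j => p j = a ∧ r j = b).card
      = Fintype.card S / (k1 * k2) := by
    intro a b
    rw [← hfib a b, Nat.mul_div_cancel _ hkk]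
  have key := count_fib p r (Fintype.card S / (k1 * k2)) ht X k1 k2 (Fintype.card S)
    (by
      intro j j'
      induction j using Quotient.inductionOn with
      | h y =>
      induction j' using Quotient.inductionOn with
      | h z =>
      change ∑ i, X i (qm S y) * X i (qm S z) = (if qm S y = qm S z then 1 else 0)
        + (if p (qm S y) = p (qm S z) then (k1 : ℤ) else 0)
        + (if r (qm S y) = r (qm S z) then (k2 : ℤ) else 0) + Fintype.card S
      have h1 : ∑ i, X i (qm S y) * X i (qm S z) = ∑ i, x i y.1 y.2 * x i z.1 z.2 := rfl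
      rw [h1, hG, hp, hp, hr, hr]
      have h2 : ∀ s : S, ((if s • y.1 = z.1 then (1 : ℤ) else 0) + 1)
          * ((if s • y.2 = z.2 then 1 else 0) + 1)
          = (if s • y = z then 1 else 0) + (if s • y.1 = z.1 then 1 else 0)
            + (if s • y.2 = z.2 then 1 else 0) + 1 := by
        intro s
        have h3 : s • y = z ↔ s • y.1 = z.1 ∧ s • y.2 = z.2 := Prod.ext_iff
        simp only [h3]
        by_cases h4 : s • y.1 = z.1 <;> by_cases h5 : s • y.2 = z.2 <;> simp [h4, h5]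
      rw [Finset.sum_congr rfl fun s _ => h2 s, Finset.sum_add_distrib, Finset.sum_add_distrib,
        Finset.sum_add_distrib]
      have h6 := card_transp (S := S) (k := 1) (fun y : V × W => by convert hk3 y) y z
      have h7 := card_transp hk1 y.1 z.1
      have h8 := card_transp hk2 y.2 z.2
      rw [Finset.card_filter] at h6 h7 h8
      have h6' : ∑ s : S, (if s • y = z then (1 : ℤ) else 0) = if qm S y = qm S z then 1 else 0 := by
        have h := congrArg (Nat.cast : ℕ → ℤ) h6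
        push_cast at h
        convert h
      have h7' : ∑ s : S, (if s • y.1 = z.1 then (1 : ℤ) else 0)
          = if qm S y.1 = qm S z.1 then (k1 : ℤ) else 0 := by
        exact_mod_cast h7
      have h8' : ∑ s : S, (if s • y.2 = z.2 then (1 : ℤ) else 0)
          = if qm S y.2 = qm S z.2 then (k2 : ℤ) else 0 := by
        exact_mod_cast h8
      rw [h6', h7', h8', Finset.sum_const, Finset.card_univ, nsmul_eq_mul, mul_one])
    (by
      intro i
      obtain ⟨v, w, h⟩ := hne i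
      exact ⟨qm S (v, w), h⟩)
  have oA : Fintype.card V * k1 = Fintype.card A * Fintype.card S := card_orbs hk1
  have oB : Fintype.card W * k2 = Fintype.card B * Fintype.card S := card_orbs hk2
  have h9 : Fintype.card S / (k1 * k2) * (k1 * k2) = Fintype.card S := by
    rw [← hfib (qm S v0) (qm S w0), Nat.mul_div_cancel _ hkk]
  have h10 : Fintype.card A * Fintype.card B * (Fintype.card S / (k1 * k2)) * Fintype.card S
      = Fintype.card V * Fintype.card W := by
    have h11 : Fintype.card A * Fintype.card B * (Fintype.card S / (k1 * k2)) * Fintype.card S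
        * Fintype.card S = Fintype.card V * Fintype.card W * Fintype.card S := by
      calc _ = (Fintype.card A * Fintype.card S) * (Fintype.card B * Fintype.card S)
            * (Fintype.card S / (k1 * k2)) := by ring
        _ = Fintype.card V * Fintype.card W * (Fintype.card S / (k1 * k2) * (k1 * k2)) := by
          rw [← oA, ← oB]
          ring
        _ = _ := by rw [h9]
    exact Nat.eq_of_mul_eq_mul_right hS h11
  calc Fintype.card I * Fintype.card S
      ≤ (Fintype.card A * Fintype.card B * (Fintype.card S / (k1 * k2)) + k1 * Fintype.card A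
        + k2 * Fintype.card B + Fintype.card S) * Fintype.card S := Nat.mul_le_mul_right _ key
    _ = Fintype.card A * Fintype.card B * (Fintype.card S / (k1 * k2)) * Fintype.card S
        + k1 * (Fintype.card A * Fintype.card S) + k2 * (Fintype.card B * Fintype.card S)
        + Fintype.card S ^ 2 := by ring
    _ = _ := by
      rw [h10, ← oA, ← oB]
      ring


section triple

variable {T : Type*} [CommGroup T]

/-- orthogonal idempotent endomorphisms with product (sum) 1 -/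
structure Ort (q0 q1 q2 : T →* T) : Prop where
  i0 : ∀ u, q0 (q0 u) = q0 u
  i1 : ∀ u, q1 (q1 u) = q1 u
  i2 : ∀ u, q2 (q2 u) = q2 u
  o01 : ∀ u, q0 (q1 u) = 1
  o02 : ∀ u, q0 (q2 u) = 1
  o10 : ∀ u, q1 (q0 u) = 1
  o12 : ∀ u, q1 (q2 u) = 1
  o20 : ∀ u, q2 (q0 u) = 1
  o21 : ∀ u, q2 (q1 u) = 1
  s : ∀ u, q0 u * q1 u * q2 u = u

/-- the third projection -/
def q3 (q1 q2 : T →* T) : T →* T := MonoidHom.id T * q1⁻¹ * q2⁻¹

theorem q3_apply (q1 q2 : T →* T) (u : T) : q3 q1 q2 u = u * (q1 u)⁻¹ * (q2 u)⁻¹ := rfl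

theorem ort_q3 {q1 q2 : T →* T} (h1 : ∀ u, q1 (q1 u) = q1 u) (h2 : ∀ u, q2 (q2 u) = q2 u)
    (h12 : ∀ u, q1 (q2 u) = 1) (h21 : ∀ u, q2 (q1 u) = 1) : Ort (q3 q1 q2) q1 q2 := by
  have a1 : ∀ u, q1 (q3 q1 q2 u) = 1 := by
    intro u
    rw [q3_apply, map_mul, map_mul, map_inv, map_inv, h1, h12]
    simp
  have a2 : ∀ u, q2 (q3 q1 q2 u) = 1 := by
    intro u
    rw [q3_apply, map_mul, map_mul, map_inv, map_inv, h2, h21]
    simp
  refine ⟨?_, h1, h2, ?_, ?_, a1, h12, a2, h21, ?_⟩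
  · intro u
    rw [q3_apply q1 q2 (q3 q1 q2 u), a1, a2]
    simp
  · intro u
    rw [q3_apply, h1, h21]
    simp
  · intro u
    rw [q3_apply, h12, h2]
    simp
  · intro u
    rw [q3_apply, mul_right_comm (u * (q1 u)⁻¹), inv_mul_cancel_right, inv_mul_cancel_right]

variable [Fintype T] {K : Type*} [Field K]

/-- the differences of multiplicities -/
noncomputable def h3 (g : T → K) (x0 x1 x2 : T →* Kˣ) : K :=
  mlt g (x0 * x1 * x2) - mlt g (x0 * x2) - mlt g (x0 * x1) + mlt g x0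

omit [Fintype T] in
/-- the functions on the places -/
def f3 (x0 x1 x2 : T →* Kˣ) (u : T) : K := chr x0 u * (chr x1 u - 1) * (chr x2 u - 1)

theorem h3_eq (g : T → K) (x0 x1 x2 : T →* Kˣ) :
    h3 g x0 x1 x2 = (Fintype.card T : K)⁻¹ * ∑ u, g u * f3 x0 x1 x2 u⁻¹ := by
  unfold h3 mlt
  rw [← mul_sub, ← mul_sub, ← mul_add, ← Finset.sum_sub_distrib, ← Finset.sum_sub_distrib,
    ← Finset.sum_add_distrib]
  congr 1
  refine Finset.sum_congr rfl fun u _ => ?_
  unfold f3
  simp only [chr_mul, Pi.mul_apply]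
  ring

theorem h3_eq' (g : T → K) (x0 x1 x2 : T →* Kˣ) :
    h3 g x0 x1 x2 = (Fintype.card T : K)⁻¹ * ∑ u, g u⁻¹ * f3 x0 x1 x2 u := by
  rw [h3_eq, ← Equiv.sum_comp (Equiv.inv T)]
  simp only [Equiv.inv_apply, inv_inv]

variable {q0 q1 q2 : T →* T}

omit [Fintype T] in
theorem f3_zero {x0 x1 x2 : T →* Kˣ} (hx1 : ∀ u, x1 (q1 u) = x1 u) (hx2 : ∀ u, x2 (q2 u) = x2 u)
    {u : T} (hu : ¬ (q1 u ≠ 1 ∧ q2 u ≠ 1)) : f3 x0 x1 x2 u = 0 := by
  unfold f3
  by_cases h : q1 u = 1
  · have h1 : chr x1 u = 1 := by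
      unfold chr
      rw [← hx1, h, map_one, Units.val_one]
    rw [h1, sub_self, mul_zero, zero_mul]
  · have h2 : q2 u = 1 := by
      by_contra h2
      exact hu ⟨h, h2⟩
    have h1 : chr x2 u = 1 := by
      unfold chr
      rw [← hx2, h2, map_one, Units.val_one]
    rw [h1, sub_self, mul_zero]

omit [Fintype T] in
theorem f3_zero' {x0 x1 x2 : T →* Kˣ} (hx1 : ∀ u, x1 (q1 u) = x1 u) (hx2 : ∀ u, x2 (q2 u) = x2 u)
    {u : T} (hu : ¬ (q1 u ≠ 1 ∧ q2 u ≠ 1)) : f3 x0 x1 x2 u⁻¹ = 0 := by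
  refine f3_zero hx1 hx2 fun h => hu ?_
  rw [map_inv, map_inv, Ne, Ne, inv_eq_one, inv_eq_one] at h
  exact h

omit [Fintype T] in
theorem f3_dl (x0 x1 x2 : T →* Kˣ) (φ : MulAut T) (u : T) :
    f3 (dl x0 φ) (dl x1 φ) (dl x2 φ) u = f3 x0 x1 x2 (φ u) := rfl

theorem h3_dl {x0 x1 x2 : T →* Kˣ} (hx1 : ∀ u, x1 (q1 u) = x1 u) (hx2 : ∀ u, x2 (q2 u) = x2 u)
    {φ : MulAut T} (h1 : ∀ u, φ (q1 u) = q1 (φ u)) (h2 : ∀ u, φ (q2 u) = q2 (φ u)) {g : T → K}
    (hg : ∀ u, q1 u ≠ 1 ∧ q2 u ≠ 1 → g (φ u) = g u) :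
    h3 g (dl x0 φ) (dl x1 φ) (dl x2 φ) = h3 g x0 x1 x2 := by
  rw [h3_eq, h3_eq]
  congr 1
  rw [← Equiv.sum_comp (φ : T ≃* T).toEquiv (fun u => g u * f3 x0 x1 x2 u⁻¹)]
  refine Finset.sum_congr rfl fun u _ => ?_
  change g u * f3 x0 x1 x2 (φ u⁻¹) = g (φ u) * f3 x0 x1 x2 (φ u)⁻¹
  rw [map_inv]
  by_cases hu : q1 u ≠ 1 ∧ q2 u ≠ 1
  · rw [hg u hu]
  · rw [f3_zero' (u := φ u) hx1 hx2, mul_zero, mul_zero]
    rw [← h1, ← h2]
    intro h
    refine hu ⟨fun h4 => h.1 ?_, fun h4 => h.2 ?_⟩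
    · rw [h4, map_one]
    · rw [h4, map_one]

open Classical in
/-- the sum of a product of three characters -/
theorem tri (hO : Ort q0 q1 q2) {z0 z1 z2 : T →* Kˣ} (h0 : ∀ u, z0 (q0 u) = z0 u)
    (h1 : ∀ u, z1 (q1 u) = z1 u) (h2 : ∀ u, z2 (q2 u) = z2 u) :
    ∑ u, chr z0 u * chr z1 u * chr z2 u = (Fintype.card T : K) * (if z0 = 1 then 1 else 0)
      * (if z1 = 1 then 1 else 0) * (if z2 = 1 then 1 else 0) := by
  have e1 : ∀ u, chr z0 u * chr z1 u * chr z2 u = chr (z0 * z1 * z2) u := by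
    intro u
    rw [chr_mul, chr_mul]
    rfl
  rw [Finset.sum_congr rfl fun u _ => e1 u]
  by_cases h : z0 * z1 * z2 = 1
  · have e2 : ∀ u, z0 u * z1 u * z2 u = 1 := fun u => DFunLike.congr_fun h u
    have t0 : z0 = 1 := by
      ext u
      have e3 := e2 (q0 u)
      rw [← h1, ← h2, hO.o10, hO.o20, map_one, map_one, mul_one, mul_one, h0] at e3
      rw [e3]
      rfl
    have t1 : z1 = 1 := by
      ext u
      have e3 := e2 (q1 u)
      rw [← h0, ← h2, hO.o01, hO.o21, map_one, map_one, one_mul, mul_one, h1] at e3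
      rw [e3]
      rfl
    have t2 : z2 = 1 := by
      ext u
      have e3 := e2 (q2 u)
      rw [← h0, ← h1, hO.o02, hO.o12, map_one, map_one, one_mul, one_mul, h2] at e3
      rw [e3]
      rfl
    rw [h, chr_one, if_pos t0, if_pos t1, if_pos t2]
    simp
  · rw [sum_chr _ h]
    by_cases t0 : z0 = 1
    · by_cases t1 : z1 = 1
      · by_cases t2 : z2 = 1
        · exact absurd (by rw [t0, t1, t2]; ext u; simp) h
        · rw [if_neg t2, mul_zero]
      · rw [if_neg t1, mul_zero, zero_mul]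
    · rw [if_neg t0, mul_zero, zero_mul, zero_mul]

omit [Fintype T] in
theorem inv_ne_one' {x : T →* Kˣ} (hx : x ≠ 1) : x⁻¹ ≠ 1 := by
  intro h
  apply hx
  ext u
  have h1 := DFunLike.congr_fun h u
  rw [MonoidHom.inv_apply, MonoidHom.one_apply, inv_eq_one] at h1
  rw [h1]
  rfl

omit [Fintype T] in
theorem mul_inv_one_iff {a b : T →* Kˣ} : a * b⁻¹ = 1 ↔ a = b := by
  constructor
  · intro h
    ext u
    have h1 := DFunLike.congr_fun h u
    rw [MonoidHom.mul_apply, MonoidHom.inv_apply, MonoidHom.one_apply, mul_inv_eq_one] at h1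
    rw [h1]
  · rintro rfl
    ext u
    simp

open Classical in
theorem tri2 (hO : Ort q0 q1 q2) {z0 x1 y1 z2 : T →* Kˣ} (h0 : ∀ u, z0 (q0 u) = z0 u)
    (h1 : ∀ u, x1 (q1 u) = x1 u) (h1' : ∀ u, y1 (q1 u) = y1 u) (h2 : ∀ u, z2 (q2 u) = z2 u)
    (hx : x1 ≠ 1) (hy : y1 ≠ 1) :
    ∑ u, chr z0 u * ((chr x1 u⁻¹ - 1) * (chr y1 u - 1)) * chr z2 u
      = (Fintype.card T : K) * (if z0 = 1 then 1 else 0)
      * ((if y1 = x1 then 1 else 0) + 1) * (if z2 = 1 then 1 else 0) := by
  have e1 : ∀ u, chr z0 u * ((chr x1 u⁻¹ - 1) * (chr y1 u - 1)) * chr z2 u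
      = chr z0 u * chr (y1 * x1⁻¹) u * chr z2 u - chr z0 u * chr y1 u * chr z2 u
        - chr z0 u * chr x1⁻¹ u * chr z2 u + chr z0 u * chr (1 : T →* Kˣ) u * chr z2 u := by
    intro u
    rw [chr_mul, chr_inv, chr_one, Pi.mul_apply, Pi.one_apply, chr_inv]
    ring
  rw [Finset.sum_congr rfl fun u _ => e1 u, Finset.sum_add_distrib, Finset.sum_sub_distrib,
    Finset.sum_sub_distrib, tri hO h0 (fun u => by
      rw [MonoidHom.mul_apply, MonoidHom.inv_apply, h1', h1]
      rfl) h2, tri hO h0 h1' h2, tri hO h0 (fun u => by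
      rw [MonoidHom.inv_apply, h1]
      rfl) h2, tri hO h0 (z1 := 1) (fun u => rfl) h2, if_neg hy, if_neg (inv_ne_one' hx), if_pos rfl]
  have e2 : y1 * x1⁻¹ = 1 ↔ y1 = x1 := mul_inv_one_iff
  simp only [e2]
  ring

open Classical in
theorem tri3 (hO : Ort q0 q1 q2) {x0 x1 x2 y0 y1 y2 : T →* Kˣ} (hx0 : ∀ u, x0 (q0 u) = x0 u)
    (hx1 : ∀ u, x1 (q1 u) = x1 u) (hx2 : ∀ u, x2 (q2 u) = x2 u) (hy0 : ∀ u, y0 (q0 u) = y0 u)
    (hy1 : ∀ u, y1 (q1 u) = y1 u) (hy2 : ∀ u, y2 (q2 u) = y2 u) (nx1 : x1 ≠ 1) (nx2 : x2 ≠ 1)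
    (ny1 : y1 ≠ 1) (ny2 : y2 ≠ 1) :
    ∑ u, f3 x0 x1 x2 u⁻¹ * f3 y0 y1 y2 u = (Fintype.card T : K) * ((if y0 = x0 then 1 else 0)
      * ((if y1 = x1 then 1 else 0) + 1) * ((if y2 = x2 then 1 else 0) + 1)) := by
  have e1 : ∀ u, f3 x0 x1 x2 u⁻¹ * f3 y0 y1 y2 u
      = chr (y0 * x0⁻¹) u * ((chr x1 u⁻¹ - 1) * (chr y1 u - 1)) * chr (y2 * x2⁻¹) u
        - chr (y0 * x0⁻¹) u * ((chr x1 u⁻¹ - 1) * (chr y1 u - 1)) * chr y2 u
        - chr (y0 * x0⁻¹) u * ((chr x1 u⁻¹ - 1) * (chr y1 u - 1)) * chr x2⁻¹ u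
        + chr (y0 * x0⁻¹) u * ((chr x1 u⁻¹ - 1) * (chr y1 u - 1)) * chr (1 : T →* Kˣ) u := by
    intro u
    unfold f3
    rw [chr_mul, chr_mul, Pi.mul_apply, Pi.mul_apply, chr_inv, chr_inv, chr_one, Pi.one_apply]
    ring
  have hz0 : ∀ u, (y0 * x0⁻¹) (q0 u) = (y0 * x0⁻¹) u := fun u => by
    rw [MonoidHom.mul_apply, MonoidHom.inv_apply, hy0, hx0]
    rfl
  rw [Finset.sum_congr rfl fun u _ => e1 u, Finset.sum_add_distrib, Finset.sum_sub_distrib,
    Finset.sum_sub_distrib, tri2 hO hz0 hx1 hy1 (fun u => by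
      rw [MonoidHom.mul_apply, MonoidHom.inv_apply, hy2, hx2]
      rfl) nx1 ny1, tri2 hO hz0 hx1 hy1 hy2 nx1 ny1, tri2 hO hz0 hx1 hy1 (fun u => by
      rw [MonoidHom.inv_apply, hx2]
      rfl) nx1 ny1, tri2 hO hz0 hx1 hy1 (z2 := 1) (fun u => rfl) nx1 ny1, if_neg ny2,
    if_neg (inv_ne_one' nx2), if_pos rfl]
  have e2 : y0 * x0⁻¹ = 1 ↔ y0 = x0 := mul_inv_one_iff
  have e3 : y2 * x2⁻¹ = 1 ↔ y2 = x2 := mul_inv_one_iff
  simp only [e2, e3]
  ring

omit [Fintype T] in
theorem inv_dl {q : T →* T} {φ : MulAut T} (h : ∀ u, φ (q u) = q (φ u)) {l : T →* Kˣ}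
    (hl : ∀ u, l (q u) = l u) (u : T) : dl l φ (q u) = dl l φ u := by
  change l (φ (q u)) = l (φ u)
  rw [h, hl]

open Classical in
/-- the Gram matrix -/
theorem gram3 [CharZero K] [HasEnoughRootsOfUnity K (Monoid.exponent T)] (E : Subgroup (MulAut T)) [Fintype E] (hO : Ort q0 q1 q2)
    (hE0 : ∀ φ ∈ E, ∀ u, φ (q0 u) = q0 (φ u)) (hE1 : ∀ φ ∈ E, ∀ u, φ (q1 u) = q1 (φ u))
    (hE2 : ∀ φ ∈ E, ∀ u, φ (q2 u) = q2 (φ u))
    (hE : ∀ φ ∈ E, ∀ u, q1 u ≠ 1 ∧ q2 u ≠ 1 → φ u = u → φ = 1)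
    {I : Type*} [Fintype I] (g : I → T → K)
    (horth : ∀ u v : T, (q1 u ≠ 1 ∧ q2 u ≠ 1) → (q1 v ≠ 1 ∧ q2 v ≠ 1) → (∃ φ ∈ E, v = φ u) →
      ∑ i, g i u * g i v⁻¹ = (Fintype.card T : K))
    (horth0 : ∀ u v : T, (q1 u ≠ 1 ∧ q2 u ≠ 1) → (q1 v ≠ 1 ∧ q2 v ≠ 1) →
      (¬ ∃ φ ∈ E, v = φ u) → ∑ i, g i u * g i v⁻¹ = 0)
    {x0 x1 x2 y0 y1 y2 : T →* Kˣ} (hx0 : ∀ u, x0 (q0 u) = x0 u)
    (hx1 : ∀ u, x1 (q1 u) = x1 u) (hx2 : ∀ u, x2 (q2 u) = x2 u) (hy0 : ∀ u, y0 (q0 u) = y0 u)
    (hy1 : ∀ u, y1 (q1 u) = y1 u) (hy2 : ∀ u, y2 (q2 u) = y2 u) (nx1 : x1 ≠ 1) (nx2 : x2 ≠ 1)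
    (ny1 : y1 ≠ 1) (ny2 : y2 ≠ 1) :
    ∑ i, h3 (g i) x0 x1 x2 * h3 (g i) y0 y1 y2 = ∑ φ : E,
      (if dl y0 (φ : MulAut T) = x0 then 1 else 0)
        * ((if dl y1 (φ : MulAut T) = x1 then 1 else 0) + 1)
        * ((if dl y2 (φ : MulAut T) = x2 then 1 else 0) + 1) := by
  set c : K := (Fintype.card T : K)⁻¹ with hc
  have h1 : ∑ i, h3 (g i) x0 x1 x2 * h3 (g i) y0 y1 y2 =
      c * c * ∑ u, ∑ v, f3 x0 x1 x2 u⁻¹ * f3 y0 y1 y2 v * ∑ i, g i u * g i v⁻¹ := by
    have h2 : ∀ i, h3 (g i) x0 x1 x2 * h3 (g i) y0 y1 y2 =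
        c * c * ∑ u, ∑ v, f3 x0 x1 x2 u⁻¹ * f3 y0 y1 y2 v * (g i u * g i v⁻¹) := by
      intro i
      rw [h3_eq (g i) x0, h3_eq' (g i) y0, mul_mul_mul_comm, Finset.sum_mul_sum]
      congr 1
      refine Finset.sum_congr rfl fun u _ => Finset.sum_congr rfl fun v _ => ?_
      ring
    rw [Finset.sum_congr rfl fun i _ => h2 i, ← Finset.mul_sum, Finset.sum_comm]
    congr 1
    refine Finset.sum_congr rfl fun u _ => ?_
    rw [Finset.sum_comm]
    refine Finset.sum_congr rfl fun v _ => ?_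
    rw [Finset.mul_sum]
  have h3' : ∀ u : T, ∑ v, f3 x0 x1 x2 u⁻¹ * f3 y0 y1 y2 v * ∑ i, g i u * g i v⁻¹ =
      (Fintype.card T : K) * ∑ φ : E, f3 x0 x1 x2 u⁻¹
        * f3 (dl y0 (φ : MulAut T)) (dl y1 (φ : MulAut T)) (dl y2 (φ : MulAut T)) u := by
    intro u
    by_cases hu : q1 u ≠ 1 ∧ q2 u ≠ 1
    · rw [sum_orbitQ E (fun φ hφ => hE φ hφ u hu) _ ?_, Finset.mul_sum]
      · refine Finset.sum_congr rfl fun φ _ => ?_
        have h5 : q1 ((φ : MulAut T) u) ≠ 1 ∧ q2 ((φ : MulAut T) u) ≠ 1 := by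
          rw [← hE1 φ φ.2, ← hE2 φ φ.2]
          refine ⟨fun h => hu.1 ?_, fun h => hu.2 ?_⟩
          · exact (MulEquiv.map_eq_one_iff (φ : MulAut T)).1 h
          · exact (MulEquiv.map_eq_one_iff (φ : MulAut T)).1 h
        rw [horth u ((φ : MulAut T) u) hu h5 ⟨φ, φ.2, rfl⟩, f3_dl]
        ring
      · intro v hv
        by_cases hv1 : q1 v ≠ 1 ∧ q2 v ≠ 1
        · rw [horth0 u v hu hv1 hv, mul_zero]
        · rw [f3_zero hy1 hy2 hv1, mul_zero, zero_mul]
    · have h4 : f3 x0 x1 x2 u⁻¹ = 0 := f3_zero' hx1 hx2 hu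
      rw [Finset.sum_eq_zero (fun v _ => by rw [h4]; ring),
        Finset.sum_eq_zero (fun v _ => by rw [h4]; ring), mul_zero]
  rw [h1, Finset.sum_congr rfl fun u _ => h3' u, ← Finset.mul_sum, Finset.sum_comm]
  rw [Finset.sum_congr rfl fun (φ : E) _ => tri3 hO hx0 hx1 hx2
    (inv_dl (hE0 φ φ.2) hy0) (inv_dl (hE1 φ φ.2) hy1) (inv_dl (hE2 φ φ.2) hy2) nx1 nx2
    (dl_ne y1 (φ : MulAut T) ny1) (dl_ne y2 (φ : MulAut T) ny2), ← Finset.mul_sum]
  have h15 : c * (Fintype.card T : K) = 1 := inv_mul_cancel₀ card_ne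
  rw [show ∀ z : K, c * c * ((Fintype.card T : K) * ((Fintype.card T : K) * z))
    = (c * (Fintype.card T : K)) * (c * (Fintype.card T : K)) * z from fun z => by ring, h15,
    one_mul, one_mul]

end triple


section two

variable {T : Type*} [CommGroup T] [Fintype T] {K : Type*} [Field K]
  {q0 q1 q2 : T →* T}

theorem sum_shift [HasEnoughRootsOfUnity K (Monoid.exponent T)] {F : (T →* Kˣ) → K} {z : T →* Kˣ}
    {u : T} (hF : ∀ l, F (z * l) = F l) (hz : z u ≠ 1) : ∑ l : T →* Kˣ, F l * chr l u = 0 := by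
  have h1 : ∑ l : T →* Kˣ, F l * chr l u = chr z u * ∑ l : T →* Kˣ, F l * chr l u := by
    conv_lhs => rw [← Equiv.sum_comp (Equiv.mulLeft z)]
    rw [Finset.mul_sum]
    refine Finset.sum_congr rfl fun l _ => ?_
    rw [Equiv.coe_mulLeft, hF, chr_mul, Pi.mul_apply]
    ring
  have h2 : (1 - chr z u) * ∑ l : T →* Kˣ, F l * chr l u = 0 := by
    rw [sub_mul, one_mul, ← h1, sub_self]
  rcases mul_eq_zero.1 h2 with h3 | h3
  · exfalso
    apply hz
    ext
    rw [Units.val_one]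
    exact (sub_eq_zero.1 h3).symm
  · exact h3

/-- a row which does not vanish at a place occurs -/
theorem h3_ne [CharZero K] [HasEnoughRootsOfUnity K (Monoid.exponent T)] (hO : Ort q0 q1 q2)
    {g : T → K} {u : T} (hu : q1 u ≠ 1 ∧ q2 u ≠ 1) (hg : g u ≠ 0) :
    ∃ x0 x1 x2 : T →* Kˣ, (∀ u, x0 (q0 u) = x0 u) ∧ ((∀ u, x1 (q1 u) = x1 u) ∧ x1 ≠ 1)
      ∧ ((∀ u, x2 (q2 u) = x2 u) ∧ x2 ≠ 1) ∧ h3 g x0 x1 x2 ≠ 0 := by
  by_contra h
  push Not at h
  have h1 : ∀ l : T →* Kˣ, mlt g l = mlt g (l.comp q0 * l.comp q2)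
      + mlt g (l.comp q0 * l.comp q1) - mlt g (l.comp q0) := by
    intro l
    have e1 : l = l.comp q0 * l.comp q1 * l.comp q2 := by
      ext u
      rw [MonoidHom.mul_apply, MonoidHom.mul_apply, MonoidHom.comp_apply, MonoidHom.comp_apply,
        MonoidHom.comp_apply, ← map_mul, ← map_mul, hO.s]
    have e2 : h3 g (l.comp q0) (l.comp q1) (l.comp q2) = 0 := by
      by_cases t1 : l.comp q1 = 1
      · unfold h3
        have e3 : ∀ a : T →* Kˣ, a * 1 = a := fun a => by ext u; simp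
        rw [t1, e3]
        ring
      by_cases t2 : l.comp q2 = 1
      · unfold h3
        have e3 : ∀ a : T →* Kˣ, a * 1 = a := fun a => by ext u; simp
        rw [t2, e3, e3]
        ring
      exact h _ _ _ (fun v => by rw [MonoidHom.comp_apply, MonoidHom.comp_apply, hO.i0])
        ⟨fun v => by rw [MonoidHom.comp_apply, MonoidHom.comp_apply, hO.i1], t1⟩
        ⟨fun v => by rw [MonoidHom.comp_apply, MonoidHom.comp_apply, hO.i2], t2⟩
    unfold h3 at e2
    rw [← e1] at e2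
    linear_combination e2
  obtain ⟨m1, hm1⟩ := CommGroup.exists_apply_ne_one_of_hasEnoughRootsOfUnity T K hu.1
  obtain ⟨m2, hm2⟩ := CommGroup.exists_apply_ne_one_of_hasEnoughRootsOfUnity T K hu.2
  apply hg
  rw [eq_sum_mlt g u]
  have h2 : ∀ l : T →* Kˣ, mlt g l * chr l u = mlt g (l.comp q0 * l.comp q2) * chr l u
      + mlt g (l.comp q0 * l.comp q1) * chr l u - mlt g (l.comp q0) * chr l u := by
    intro l
    rw [h1 l]
    ring
  rw [Finset.sum_congr rfl fun l _ => h2 l, Finset.sum_sub_distrib, Finset.sum_add_distrib]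
  have c10 : ∀ l : T →* Kˣ, (m1.comp q1 * l).comp q0 = l.comp q0 := by
    intro l
    ext v
    simp only [MonoidHom.comp_apply, MonoidHom.mul_apply, hO.o10, map_one, one_mul]
  have c12 : ∀ l : T →* Kˣ, (m1.comp q1 * l).comp q2 = l.comp q2 := by
    intro l
    ext v
    simp only [MonoidHom.comp_apply, MonoidHom.mul_apply, hO.o12, map_one, one_mul]
  have c20 : ∀ l : T →* Kˣ, (m2.comp q2 * l).comp q0 = l.comp q0 := by
    intro l
    ext v
    simp only [MonoidHom.comp_apply, MonoidHom.mul_apply, hO.o20, map_one, one_mul]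
  have c21 : ∀ l : T →* Kˣ, (m2.comp q2 * l).comp q1 = l.comp q1 := by
    intro l
    ext v
    simp only [MonoidHom.comp_apply, MonoidHom.mul_apply, hO.o21, map_one, one_mul]
  rw [sum_shift (F := fun l => mlt g (l.comp q0 * l.comp q2)) (z := m1.comp q1)
      (fun l => by rw [c10, c12]) hm1,
    sum_shift (F := fun l => mlt g (l.comp q0 * l.comp q1)) (z := m2.comp q2)
      (fun l => by rw [c20, c21]) hm2,
    sum_shift (F := fun l => mlt g (l.comp q0)) (z := m1.comp q1)
      (fun l => by rw [c10]) hm1]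
  ring

/-- the stabilizer of a nontrivial character of a free direction -/
theorem dl_fix {q : T →* T} (hq : ∀ u, q (q u) = q u) {φ : MulAut T}
    (hqφ : ∀ u, φ (q u) = q (φ u)) (hf : ∀ u, q u ≠ 1 → φ (q u) = q u → ∀ v, φ (q v) = q v)
    {a : T →* Kˣ} (ha : ∀ u, a (q u) = a u) (ha1 : a ≠ 1) (h : dl a φ = a) :
    ∀ v, φ (q v) = q v := by
  by_contra hne
  have hr : ∀ r ∈ q.range, q r = r := by
    rintro _ ⟨v, rfl⟩
    exact hq v
  have hmem : ∀ u : q.range, (u : T)⁻¹ * φ u ∈ q.range := by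
    intro u
    refine q.range.mul_mem (q.range.inv_mem u.2) ⟨φ u, ?_⟩
    rw [← hqφ, hr u u.2]
  have hinj : Function.Injective (fun u : q.range => (⟨(u : T)⁻¹ * φ u, hmem u⟩ : q.range)) := by
    intro u v huv
    have h1 : (u : T)⁻¹ * φ u = (v : T)⁻¹ * φ v := congrArg Subtype.val huv
    have h2 : φ ((u : T) * (v : T)⁻¹) = (u : T) * (v : T)⁻¹ := by
      rw [map_mul, map_inv]
      have h3 : φ (u : T) = u * ((v : T)⁻¹ * φ v) := by rw [← h1]; group
      rw [h3]
      group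
    by_contra hne'
    have h4 : q ((u : T) * (v : T)⁻¹) = (u : T) * (v : T)⁻¹ :=
      hr _ (q.range.mul_mem u.2 (q.range.inv_mem v.2))
    refine hne (hf ((u : T) * (v : T)⁻¹) ?_ ?_)
    · rw [h4]
      exact fun h5 => hne' (Subtype.ext (mul_inv_eq_one.1 h5))
    · rw [h4, h2]
  have hsurj := Finite.surjective_of_injective hinj
  apply ha1
  ext w
  obtain ⟨u, hu⟩ := hsurj ⟨q w, w, rfl⟩
  have h1 := DFunLike.congr_fun h (u : T)
  have h2 : dl a φ (u : T) = a (φ u) := rfl
  have h3 : (u : T)⁻¹ * φ u = q w := congrArg Subtype.val hu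
  rw [← ha w, ← h3, map_mul, map_inv, ← h2, h1, inv_mul_cancel]
  rfl

omit [Fintype T] in
theorem dl_of_fix {q : T →* T} {φ : MulAut T}
    (hqφ : ∀ u, φ (q u) = q (φ u)) (hf : ∀ v, φ (q v) = q v)
    {a : T →* Kˣ} (ha : ∀ u, a (q u) = a u) : dl a φ = a := by
  ext u
  change ((a (φ u) : Kˣ) : K) = _
  rw [← ha (φ u), ← hqφ, hf, ha]

omit [Fintype T] in
theorem dl_inv_iff {a b : T →* Kˣ} {φ : MulAut T} : dl a φ⁻¹ = b ↔ dl b φ = a := by
  constructor
  · rintro rfl
    rw [← dl_mul, inv_mul_cancel, dl_one]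
  · rintro rfl
    rw [← dl_mul, mul_inv_cancel, dl_one]

/-- the nontrivial characters of a direction -/
abbrev Vq (K : Type*) [Field K] (q : T →* T) : Type _ :=
  {a : T →* Kˣ // (∀ u, a (q u) = a u) ∧ a ≠ 1}

/-- the action on the nontrivial characters of a direction -/
@[instance_reducible] def actV (K : Type*) [Field K] (E : Subgroup (MulAut T)) (q : T →* T)
    (hE : ∀ φ ∈ E, ∀ u, φ (q u) = q (φ u)) : MulAction E (Vq K q) where
  smul φ a := ⟨dl a.1 (φ : MulAut T)⁻¹, inv_dl (hE _ (E.inv_mem φ.2)) a.2.1, dl_ne _ _ a.2.2⟩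
  one_smul a := Subtype.ext (by
    change dl a.1 ((1 : E) : MulAut T)⁻¹ = a.1
    rw [Subgroup.coe_one, inv_one, dl_one])
  mul_smul φ ψ a := Subtype.ext (by
    change dl a.1 ((φ * ψ : E) : MulAut T)⁻¹ = dl (dl a.1 (ψ : MulAut T)⁻¹) (φ : MulAut T)⁻¹
    rw [Subgroup.coe_mul, mul_inv_rev, dl_mul])

/-- the stabilizer of a character -/
def stb (E : Subgroup (MulAut T)) (n : T →* Kˣ) : Subgroup E where
  carrier := {φ | dl n (φ : MulAut T) = n}
  mul_mem' := by
    intro a b ha hb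
    change dl n ((a * b : E) : MulAut T) = n
    rw [Subgroup.coe_mul, dl_mul, show dl n (a : MulAut T) = n from ha]
    exact hb
  one_mem' := dl_one n
  inv_mem' := by
    intro a ha
    change dl n ((a⁻¹ : E) : MulAut T) = n
    rw [Subgroup.coe_inv, dl_inv_iff]
    exact ha

theorem mem_stb {E : Subgroup (MulAut T)} {n : T →* Kˣ} {φ : E} :
    φ ∈ stb E n ↔ dl n (φ : MulAut T) = n := Iff.rfl

variable [CharZero K] [HasEnoughRootsOfUnity K (Monoid.exponent T)]

noncomputable instance (q : T →* T) : Fintype (Vq K q) := by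
  classical
  exact inferInstanceAs (Fintype {a : T →* Kˣ // (∀ u, a (q u) = a u) ∧ a ≠ 1})

open Classical in
/-- the order of the stabilizer of a character -/
noncomputable def cst (E : Subgroup (MulAut T)) [Fintype E] (l : T →* Kˣ) : ℕ :=
  (Finset.univ.filter fun φ : E => dl l (φ : MulAut T) = l).card

open Classical in
/-- the rows which do not vanish over the character `n` -/
theorem count_nu (E : Subgroup (MulAut T)) [Fintype E] (hO : Ort q0 q1 q2)
    (hE0 : ∀ φ ∈ E, ∀ u, φ (q0 u) = q0 (φ u)) (hE1 : ∀ φ ∈ E, ∀ u, φ (q1 u) = q1 (φ u))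
    (hE2 : ∀ φ ∈ E, ∀ u, φ (q2 u) = q2 (φ u))
    (hf1 : ∀ φ ∈ E, ∀ u, q1 u ≠ 1 → φ (q1 u) = q1 u → ∀ v, φ (q1 v) = q1 v)
    (hf2 : ∀ φ ∈ E, ∀ u, q2 u ≠ 1 → φ (q2 u) = q2 u → ∀ v, φ (q2 v) = q2 v)
    (hfa : ∀ φ ∈ E, (∀ v, φ (q1 v) = q1 v) → (∀ v, φ (q2 v) = q2 v) → φ = 1)
    (hE : ∀ φ ∈ E, ∀ u, q1 u ≠ 1 ∧ q2 u ≠ 1 → φ u = u → φ = 1)
    {I : Type*} [Fintype I] (g : I → T → K) (hg : ∀ i, g i ∈ vir T K)
    (hinv : ∀ i, ∀ φ ∈ E, ∀ u : T, q1 u ≠ 1 ∧ q2 u ≠ 1 → g i (φ u) = g i u)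
    (horth : ∀ u v : T, (q1 u ≠ 1 ∧ q2 u ≠ 1) → (q1 v ≠ 1 ∧ q2 v ≠ 1) → (∃ φ ∈ E, v = φ u) →
      ∑ i, g i u * g i v⁻¹ = (Fintype.card T : K))
    (horth0 : ∀ u v : T, (q1 u ≠ 1 ∧ q2 u ≠ 1) → (q1 v ≠ 1 ∧ q2 v ≠ 1) →
      (¬ ∃ φ ∈ E, v = φ u) → ∑ i, g i u * g i v⁻¹ = 0)
    {n : T →* Kˣ} (hn : ∀ u, n (q0 u) = n u) :
    (Finset.univ.filter fun i : I => ∃ (a : Vq K q1) (b : Vq K q2), h3 (g i) n a.1 b.1 ≠ 0).card
        * cst E n ≤ ∑ l : T →* Kˣ with l.comp q0 = n, cst E l ^ 2 := by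
  choose A hA using fun i l => (mem_vir_iff (g := g i)).1 (hg i) l
  let J := {i : I // ∃ (a : Vq K q1) (b : Vq K q2), h3 (g i) n a.1 b.1 ≠ 0}
  let act1 : MulAction E (Vq K q1) := actV K E q1 hE1
  let act2 : MulAction E (Vq K q2) := actV K E q2 hE2
  let S := stb E n
  have hact1 : ∀ (s : S) (a b : Vq K q1), s • a = b ↔ dl b.1 (s.1 : MulAut T) = a.1 := by
    intro s a b
    rw [← dl_inv_iff]
    exact Subtype.ext_iff
  have hact2 : ∀ (s : S) (a b : Vq K q2), s • a = b ↔ dl b.1 (s.1 : MulAut T) = a.1 := by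
    intro s a b
    rw [← dl_inv_iff]
    exact Subtype.ext_iff
  let x : J → Vq K q1 → Vq K q2 → ℤ := fun i a b =>
    A i.1 (n * a.1 * b.1) - A i.1 (n * b.1) - A i.1 (n * a.1) + A i.1 n
  have hx : ∀ i a b, ((x i a b : ℤ) : K) = h3 (g i.1) n a.1 b.1 := by
    intro i a b
    unfold h3
    rw [hA, hA, hA, hA]
    simp only [x]
    push_cast
    ring
  set k1 : ℕ := (Finset.univ.filter fun s : S => ∀ v, (s.1 : MulAut T) (q1 v) = q1 v).card with hk1
  set k2 : ℕ := (Finset.univ.filter fun s : S => ∀ v, (s.1 : MulAut T) (q2 v) = q2 v).card with hk2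
  have hs1 : ∀ (s : S) (a : Vq K q1), s • a = a ↔ ∀ v, (s.1 : MulAut T) (q1 v) = q1 v := by
    intro s a
    rw [hact1]
    exact ⟨fun h => dl_fix hO.i1 (hE1 _ s.1.2) (hf1 _ s.1.2) a.2.1 a.2.2 h,
      fun h => dl_of_fix (hE1 _ s.1.2) h a.2.1⟩
  have hs2 : ∀ (s : S) (a : Vq K q2), s • a = a ↔ ∀ v, (s.1 : MulAut T) (q2 v) = q2 v := by
    intro s a
    rw [hact2]
    exact ⟨fun h => dl_fix hO.i2 (hE2 _ s.1.2) (hf2 _ s.1.2) a.2.1 a.2.2 h,
      fun h => dl_of_fix (hE2 _ s.1.2) h a.2.1⟩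
  have key := count_act (I := J) (V := Vq K q1) (W := Vq K q2) (S := S) k1 k2
    (fun a => by
      rw [hk1]
      have h := congrArg Finset.card (Finset.filter_congr (s := Finset.univ)
        (fun (s : S) _ => hs1 s a))
      convert h)
    (fun a => by
      rw [hk2]
      have h := congrArg Finset.card (Finset.filter_congr (s := Finset.univ)
        (fun (s : S) _ => hs2 s a))
      convert h)
    (fun a b s h1 h2 => by
      rw [hs1] at h1
      rw [hs2] at h2
      exact Subtype.ext (Subtype.ext (hfa _ s.1.2 h1 h2)))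
    x
    (fun i s a b => by
      have h1 : ((x i (s • a) (s • b) : ℤ) : K) = ((x i a b : ℤ) : K) := by
        rw [hx, hx]
        have hn' : dl n (s.1 : MulAut T)⁻¹ = n := dl_inv_iff.2 s.2
        change h3 (g i.1) n (dl a.1 (s.1 : MulAut T)⁻¹) (dl b.1 (s.1 : MulAut T)⁻¹) = _
        have hm : (s.1 : MulAut T)⁻¹ ∈ E := E.inv_mem s.1.2
        have e := h3_dl (x0 := n) a.2.1 b.2.1 (hE1 _ hm) (hE2 _ hm) (hinv i.1 _ hm)
        rw [hn'] at e
        exact e
      exact_mod_cast h1)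
    (fun a b a' b' => by
      have h1 := gram3 E hO hE0 hE1 hE2 hE g horth horth0 hn a.2.1 b.2.1 hn a'.2.1 b'.2.1
        a.2.2 b.2.2 a'.2.2 b'.2.2
      have h5 : ∑ i, h3 (g i) n a.1 b.1 * h3 (g i) n a'.1 b'.1
          = ∑ i : J, h3 (g i.1) n a.1 b.1 * h3 (g i.1) n a'.1 b'.1 := by
        rw [← Finset.sum_filter_of_ne (p := fun i : I =>
          ∃ (a : Vq K q1) (b : Vq K q2), h3 (g i) n a.1 b.1 ≠ 0)
          (fun i _ hi => ⟨a, b, left_ne_zero_of_mul hi⟩)]
        exact Finset.sum_subtype _ (by simp) _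
      have h2 : ∑ φ : E, (if dl n (φ : MulAut T) = n then (1 : K) else 0)
          * ((if dl a'.1 (φ : MulAut T) = a.1 then 1 else 0) + 1)
          * ((if dl b'.1 (φ : MulAut T) = b.1 then 1 else 0) + 1)
          = ∑ s : S, ((if s • a = a' then (1 : K) else 0) + 1)
            * ((if s • b = b' then 1 else 0) + 1) := by
        have h6 : ∀ φ : E, (if dl n (φ : MulAut T) = n then (1 : K) else 0)
            * ((if dl a'.1 (φ : MulAut T) = a.1 then 1 else 0) + 1)
            * ((if dl b'.1 (φ : MulAut T) = b.1 then 1 else 0) + 1)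
            = if φ ∈ S then ((if dl a'.1 (φ : MulAut T) = a.1 then (1 : K) else 0) + 1)
            * ((if dl b'.1 (φ : MulAut T) = b.1 then 1 else 0) + 1) else 0 := by
          intro φ
          by_cases h7 : dl n (φ : MulAut T) = n
          · rw [if_pos h7, if_pos (mem_stb.2 h7), one_mul]
          · rw [if_neg h7, if_neg (fun h8 => h7 (mem_stb.1 h8)), zero_mul, zero_mul]
        rw [Finset.sum_congr rfl fun φ _ => h6 φ, ← Finset.sum_filter,
          Finset.sum_subtype (p := fun φ : E => φ ∈ S) _ (by simp)]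
        refine Finset.sum_congr rfl fun s _ => ?_
        simp only [hact1, hact2]
      rw [h5, h2] at h1
      have h4 : ((∑ i, x i a b * x i a' b' : ℤ) : K) =
          ((∑ s : S, ((if s • a = a' then (1 : ℤ) else 0) + 1)
            * ((if s • b = b' then 1 else 0) + 1) : ℤ) : K) := by
        rw [Int.cast_sum, Finset.sum_congr rfl fun (i : J) _ => by
          rw [Int.cast_mul, hx, hx], h1]
        push_cast
        rfl
      exact_mod_cast h4)
    (fun i => by
      obtain ⟨a, b, h⟩ := i.2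
      refine ⟨a, b, fun h1 => h ?_⟩
      rw [← hx i, h1, Int.cast_zero])
  have hcJ : Fintype.card J = (Finset.univ.filter fun i : I =>
      ∃ (a : Vq K q1) (b : Vq K q2), h3 (g i) n a.1 b.1 ≠ 0).card := by
    rw [Fintype.card_subtype]
  have hcS : Fintype.card S = cst E n := by
    unfold cst
    rw [Fintype.card_subtype]
    refine congrArg Finset.card ?_
    ext φ
    rw [Finset.mem_filter, Finset.mem_filter]
    exact Iff.rfl
  rw [hcJ, hcS] at key
  refine key.trans ?_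
  -- the characters over `n`
  let F : Option (Vq K q1) × Option (Vq K q2) → (T →* Kˣ) := fun y =>
    n * (y.1.elim 1 Subtype.val) * (y.2.elim 1 Subtype.val)
  have hv1 : ∀ (y : Option (Vq K q1)) (u : T),
      (y.elim 1 Subtype.val : T →* Kˣ) (q1 u) = (y.elim 1 Subtype.val : T →* Kˣ) u := by
    intro y u
    cases y with
    | none => rfl
    | some a => exact a.2.1 u
  have hv2 : ∀ (y : Option (Vq K q2)) (u : T),
      (y.elim 1 Subtype.val : T →* Kˣ) (q2 u) = (y.elim 1 Subtype.val : T →* Kˣ) u := by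
    intro y u
    cases y with
    | none => rfl
    | some a => exact a.2.1 u
  have hi1 : ∀ y z : Option (Vq K q1),
      (y.elim 1 Subtype.val : T →* Kˣ) = z.elim 1 Subtype.val → y = z := by
    intro y z h
    cases y with
    | none =>
      cases z with
      | none => rfl
      | some b => exact absurd h.symm b.2.2
    | some a =>
      cases z with
      | none => exact absurd h a.2.2
      | some b => exact congrArg some (Subtype.ext h)
  have hi2 : ∀ y z : Option (Vq K q2),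
      (y.elim 1 Subtype.val : T →* Kˣ) = z.elim 1 Subtype.val → y = z := by
    intro y z h
    cases y with
    | none =>
      cases z with
      | none => rfl
      | some b => exact absurd h.symm b.2.2
    | some a =>
      cases z with
      | none => exact absurd h a.2.2
      | some b => exact congrArg some (Subtype.ext h)
  have hFa : ∀ y u, F y u = n u * (y.1.elim 1 Subtype.val : T →* Kˣ) u
      * (y.2.elim 1 Subtype.val : T →* Kˣ) u := fun y u => rfl
  have hF0 : ∀ y u, F y (q0 u) = n u := by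
    intro y u
    rw [hFa, hn, ← hv1, ← hv2, hO.o10, hO.o20, map_one, map_one, mul_one, mul_one]
  have hF1 : ∀ y u, F y (q1 u) = (y.1.elim 1 Subtype.val : T →* Kˣ) u := by
    intro y u
    rw [hFa, hv1, ← hn, ← hv2, hO.o01, hO.o21, map_one, map_one, mul_one, one_mul]
  have hF2 : ∀ y u, F y (q2 u) = (y.2.elim 1 Subtype.val : T →* Kˣ) u := by
    intro y u
    rw [hFa, hv2, ← hn, ← hv1, hO.o02, hO.o12, map_one, map_one, mul_one, one_mul]
  have hFi : Function.Injective F := by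
    intro y z h
    refine Prod.ext (hi1 _ _ ?_) (hi2 _ _ ?_)
    · ext u
      rw [← hF1, ← hF1, h]
    · ext u
      rw [← hF2, ← hF2, h]
  have h1 : ∑ y, cst E (F y) ^ 2 ≤ ∑ l : T →* Kˣ with l.comp q0 = n, cst E l ^ 2 := by
    rw [← Finset.sum_image (f := fun l => cst E l ^ 2) (s := Finset.univ) (g := F)
      (fun y _ z _ h => hFi h)]
    refine Finset.sum_le_sum_of_subset ?_
    intro l hl
    obtain ⟨y, _, rfl⟩ := Finset.mem_image.1 hl
    rw [Finset.mem_filter]
    refine ⟨Finset.mem_univ _, ?_⟩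
    ext u
    rw [MonoidHom.comp_apply, hF0]
  refine le_trans ?_ h1
  rw [Fintype.sum_prod_type, Fintype.sum_option]
  simp only [Fintype.sum_option]
  have e0 : cst E (F (none, none)) = cst E n := by
    congr 1
    ext u
    rw [hFa]
    simp
  have e1 : ∀ a : Vq K q1, k1 ≤ cst E (F (some a, none)) := by
    intro a
    rw [hk1]
    unfold cst
    refine Finset.card_le_card_of_injOn (fun s => s.1) ?_ (fun s _ t _ h => Subtype.ext h)
    intro s hs
    rw [Finset.mem_coe, Finset.mem_filter] at hs ⊢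
    refine ⟨Finset.mem_univ _, ?_⟩
    ext u
    have h2 := DFunLike.congr_fun (mem_stb.1 s.2) u
    have h3 := DFunLike.congr_fun (dl_of_fix (hE1 _ s.1.2) hs.2 a.2.1) u
    change ((F (some a, none) ((s.1 : MulAut T) u) : Kˣ) : K) = _
    change n ((s.1 : MulAut T) u) = n u at h2
    change a.1 ((s.1 : MulAut T) u) = a.1 u at h3
    rw [hFa, hFa]
    change ((n ((s.1 : MulAut T) u) * a.1 ((s.1 : MulAut T) u) * 1 : Kˣ) : K)
      = ((n u * a.1 u * 1 : Kˣ) : K)
    rw [h2, h3]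
  have e2 : ∀ b : Vq K q2, k2 ≤ cst E (F (none, some b)) := by
    intro b
    rw [hk2]
    unfold cst
    refine Finset.card_le_card_of_injOn (fun s => s.1) ?_ (fun s _ t _ h => Subtype.ext h)
    intro s hs
    rw [Finset.mem_coe, Finset.mem_filter] at hs ⊢
    refine ⟨Finset.mem_univ _, ?_⟩
    ext u
    have h2 := DFunLike.congr_fun (mem_stb.1 s.2) u
    have h3 := DFunLike.congr_fun (dl_of_fix (hE2 _ s.1.2) hs.2 b.2.1) u
    change ((F (none, some b) ((s.1 : MulAut T) u) : Kˣ) : K) = _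
    change n ((s.1 : MulAut T) u) = n u at h2
    change b.1 ((s.1 : MulAut T) u) = b.1 u at h3
    rw [hFa, hFa]
    change ((n ((s.1 : MulAut T) u) * 1 * b.1 ((s.1 : MulAut T) u) : Kˣ) : K)
      = ((n u * 1 * b.1 u : Kˣ) : K)
    rw [h2, h3]
  have e3 : ∀ l : T →* Kˣ, 1 ≤ cst E l := by
    intro l
    unfold cst
    refine Finset.card_pos.2 ⟨1, ?_⟩
    rw [Finset.mem_filter]
    exact ⟨Finset.mem_univ _, rfl⟩
  have s1 : Fintype.card (Vq K q1) * k1 ^ 2 ≤ ∑ a : Vq K q1, cst E (F (some a, none)) ^ 2 := by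
    have := Finset.card_nsmul_le_sum Finset.univ
      (fun a : Vq K q1 => cst E (F (some a, none)) ^ 2) (k1 ^ 2)
      (fun a _ => Nat.pow_le_pow_left (e1 a) 2)
    rwa [smul_eq_mul, Finset.card_univ] at this
  have s2 : Fintype.card (Vq K q2) * k2 ^ 2 ≤ ∑ b : Vq K q2, cst E (F (none, some b)) ^ 2 := by
    have := Finset.card_nsmul_le_sum Finset.univ
      (fun b : Vq K q2 => cst E (F (none, some b)) ^ 2) (k2 ^ 2)
      (fun b _ => Nat.pow_le_pow_left (e2 b) 2)
    rwa [smul_eq_mul, Finset.card_univ] at this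
  have s3 : Fintype.card (Vq K q1) * Fintype.card (Vq K q2)
      ≤ ∑ a : Vq K q1, ∑ b : Vq K q2, cst E (F (some a, some b)) ^ 2 := by
    have h2 : ∀ a : Vq K q1, Fintype.card (Vq K q2)
        ≤ ∑ b : Vq K q2, cst E (F (some a, some b)) ^ 2 := by
      intro a
      have := Finset.card_nsmul_le_sum Finset.univ
        (fun b : Vq K q2 => cst E (F (some a, some b)) ^ 2) 1
        (fun b _ => Nat.one_le_pow _ _ (e3 _))
      rwa [smul_eq_mul, Finset.card_univ, mul_one] at this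
    have := Finset.card_nsmul_le_sum Finset.univ
      (fun a : Vq K q1 => ∑ b : Vq K q2, cst E (F (some a, some b)) ^ 2) _
      (fun a _ => h2 a)
    rwa [smul_eq_mul, Finset.card_univ] at this
  rw [Finset.sum_add_distrib, e0]
  omega

end two

end RT

section

variable {T : Type*} [CommGroup T] [Fintype T] {K : Type*} [Field K] [CharZero K]
  [HasEnoughRootsOfUnity K (Monoid.exponent T)]

open RT

/-- the places of two directions -/
theorem places_two {E : Subgroup (MulAut T)} {q1 q2 : T →* T}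
    (hE1 : ∀ φ ∈ E, ∀ u, φ (q1 u) = q1 (φ u)) (hE2 : ∀ φ ∈ E, ∀ u, φ (q2 u) = q2 (φ u))
    (hf1 : ∀ φ ∈ E, ∀ u, q1 u ≠ 1 → φ (q1 u) = q1 u → ∀ v, φ (q1 v) = q1 v)
    (hf2 : ∀ φ ∈ E, ∀ u, q2 u ≠ 1 → φ (q2 u) = q2 u → ∀ v, φ (q2 v) = q2 v)
    (hfa : ∀ φ ∈ E, (∀ v, φ (q1 v) = q1 v) → (∀ v, φ (q2 v) = q2 v) → φ = 1) :
    Places E (fun u => q1 u ≠ 1 ∧ q2 u ≠ 1) where
  gen u v h hu := by
    have h1 : ∀ q : T →* T, q v = 1 → q u = 1 := by
      intro q hq
      have h2 : u ∈ Subgroup.zpowers v := by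
        rw [h]
        exact Subgroup.mem_zpowers u
      obtain ⟨k, hk⟩ := h2
      have hk' : v ^ k = u := hk
      rw [← hk', map_zpow, hq, one_zpow]
    exact ⟨fun h2 => hu.1 (h1 q1 h2), fun h2 => hu.2 (h1 q2 h2)⟩
  act φ hφ u hu := by
    rw [← hE1 φ hφ, ← hE2 φ hφ]
    exact ⟨fun h => hu.1 ((MulEquiv.map_eq_one_iff φ).1 h),
      fun h => hu.2 ((MulEquiv.map_eq_one_iff φ).1 h)⟩
  reg φ hφ u hu h := by
    refine hfa φ hφ (hf1 φ hφ u hu.1 ?_) (hf2 φ hφ u hu.2 ?_)
    · rw [hE1 φ hφ, h]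
    · rw [hE2 φ hφ, h]

/-- **the row bound for two free directions** -/
theorem rb_two {E : Subgroup (MulAut T)} [Finite E] (hc : (Nat.card E).Coprime (Nat.card T))
    {q1 q2 : T →* T} (h1 : ∀ u, q1 (q1 u) = q1 u) (h2 : ∀ u, q2 (q2 u) = q2 u)
    (h12 : ∀ u, q1 (q2 u) = 1) (h21 : ∀ u, q2 (q1 u) = 1)
    (hE1 : ∀ φ ∈ E, ∀ u, φ (q1 u) = q1 (φ u)) (hE2 : ∀ φ ∈ E, ∀ u, φ (q2 u) = q2 (φ u))
    (hf1 : ∀ φ ∈ E, ∀ u, q1 u ≠ 1 → φ (q1 u) = q1 u → ∀ v, φ (q1 v) = q1 v)
    (hf2 : ∀ φ ∈ E, ∀ u, q2 u ≠ 1 → φ (q2 u) = q2 u → ∀ v, φ (q2 v) = q2 v)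
    (hfa : ∀ φ ∈ E, (∀ v, φ (q1 v) = q1 v) → (∀ v, φ (q2 v) = q2 v) → φ = 1) :
    RB K E (fun u => q1 u ≠ 1 ∧ q2 u ≠ 1) := by
  classical
  have := Fintype.ofFinite E
  intro I _ g hg hinv horth horth0 hne
  have hO := ort_q3 h1 h2 h12 h21
  set q0 := q3 q1 q2 with hq0
  have hE0 : ∀ φ ∈ E, ∀ u, φ (q0 u) = q0 (φ u) := by
    intro φ hφ u
    rw [hq0, q3_apply, q3_apply, map_mul, map_mul, map_inv, map_inv, hE1 φ hφ, hE2 φ hφ]
  have hP := places_two hE1 hE2 hf1 hf2 hfa
  let M : Finset (T →* Kˣ) := Finset.univ.filter fun n => n.comp q0 = n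
  have hM : ∀ n ∈ M, ∀ u, n (q0 u) = n u := fun n hn u =>
    DFunLike.congr_fun (Finset.mem_filter.1 hn).2 u
  let J : (T →* Kˣ) → Finset I := fun n => Finset.univ.filter fun i : I =>
    ∃ (a : Vq K q1) (b : Vq K q2), h3 (g i) n a.1 b.1 ≠ 0
  have hcE : Nat.card E = (Finset.univ : Finset E).card := by
    rw [Nat.card_eq_fintype_card, Finset.card_univ]
  -- every row occurs over a whole orbit
  have k1 : ∀ i : I, Nat.card E ≤ ∑ n ∈ M, if i ∈ J n then cst E n else 0 := by
    intro i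
    obtain ⟨u, hu, hu'⟩ := hne i
    obtain ⟨x0, x1, x2, hx0, hx1, hx2, hx⟩ := h3_ne hO hu hu'
    have k2 : ∀ φ : E, dl x0 (φ : MulAut T) ∈ M ∧ i ∈ J (dl x0 (φ : MulAut T)) := by
      intro φ
      constructor
      · rw [Finset.mem_filter]
        refine ⟨Finset.mem_univ _, ?_⟩
        ext v
        rw [MonoidHom.comp_apply, inv_dl (hE0 φ φ.2) hx0]
      · rw [Finset.mem_filter]
        refine ⟨Finset.mem_univ _, ⟨dl x1 φ, inv_dl (hE1 φ φ.2) hx1.1, dl_ne _ _ hx1.2⟩,
          ⟨dl x2 φ, inv_dl (hE2 φ φ.2) hx2.1, dl_ne _ _ hx2.2⟩, ?_⟩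
        rw [h3_dl hx1.1 hx2.1 (hE1 φ φ.2) (hE2 φ φ.2) (hinv i φ φ.2)]
        exact hx
    rw [hcE, Finset.card_eq_sum_card_image (fun φ : E => dl x0 (φ : MulAut T))]
    refine (Finset.sum_le_sum (g := fun n => if i ∈ J n then cst E n else 0) ?_).trans
      (Finset.sum_le_sum_of_subset ?_)
    · intro n hn
      obtain ⟨φ, _, hφ⟩ := Finset.mem_image.1 hn
      have k3 := (k2 φ).2
      rw [hφ] at k3
      rw [if_pos k3]
      unfold cst
      rw [← card_fiber E ⟨φ, hφ⟩]
    · intro n hn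
      obtain ⟨φ, _, hφ⟩ := Finset.mem_image.1 hn
      rw [← hφ]
      exact (k2 φ).1
  have k2 : Fintype.card I * Nat.card E ≤ ∑ n ∈ M, (J n).card * cst E n := by
    calc Fintype.card I * Nat.card E = ∑ _i : I, Nat.card E := by
          rw [Finset.sum_const, Finset.card_univ, smul_eq_mul]
      _ ≤ ∑ i : I, ∑ n ∈ M, (if i ∈ J n then cst E n else 0) := Finset.sum_le_sum fun i _ => k1 i
      _ = ∑ n ∈ M, ∑ i : I, (if i ∈ J n then cst E n else 0) := Finset.sum_comm
      _ = ∑ n ∈ M, (J n).card * cst E n := by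
        refine Finset.sum_congr rfl fun n _ => ?_
        rw [Finset.sum_ite_mem, Finset.univ_inter, Finset.sum_const, smul_eq_mul]
  have k3 : ∀ n ∈ M, (J n).card * cst E n ≤ ∑ l : T →* Kˣ with l.comp q0 = n, cst E l ^ 2 := by
    intro n hn
    have := count_nu E hO hE0 hE1 hE2 hf1 hf2 hfa hP.reg g hg hinv horth horth0 (hM n hn)
    convert this
  have k4 : ∑ n ∈ M, ∑ l : T →* Kˣ with l.comp q0 = n, cst E l ^ 2
      = ∑ l : T →* Kˣ, cst E l ^ 2 := by
    refine Finset.sum_fiberwise_of_maps_to (g := fun l : T →* Kˣ => l.comp q0) ?_ _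
    intro l _
    rw [Finset.mem_filter]
    refine ⟨Finset.mem_univ _, ?_⟩
    ext v
    rw [MonoidHom.comp_apply, MonoidHom.comp_apply, MonoidHom.comp_apply, hO.i0]
  have k5 : ∑ l : T →* Kˣ, cst E l ^ 2 = ∑ u : T, st E u ^ 2 := by
    have k6 := sum_sq_dual (K := K) E hc (MonoidHom.id T) (fun u => rfl) (fun φ _ u => rfl)
    have k7 : (Finset.univ.filter fun u : T => (MonoidHom.id T) u = u) = Finset.univ :=
      Finset.filter_true_of_mem (fun u _ => rfl)
    rw [Finset.filter_true_of_mem (fun l _ => by ext v; rfl), k7] at k6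
    refine (Eq.trans ?_ k6).trans (Finset.sum_congr rfl fun u _ => by rw [st_eq u])
    rfl
  exact k2.trans ((Finset.sum_le_sum k3).trans (le_of_eq (k4.trans k5)))

end

end Pool.Agent.Lib.P0c8ca5.Ex
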