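import Mathlib
import Pool.Agent.Lib.P0c8ca5Ex.Defs
import Pool.Agent.Lib.P0c8ca5N.Crep

/-!
# SA: p-subgroups with small automizers

`au D` is the order of `N(D) / C(D)`. `Small p D`: `D` is cyclic, or `p ≠ 2`, `D` is abelian and
`2 au D < p`, or `N(D) / C(D)` is abelian and `au D + Ω(au D) < p`, or `N(D) / C(D)` acts freely on
`D - 1` and `au D < p`.

* `Small.mono`: inherited by the subgroups of a Sylow p-subgroup;
* `Small.of_map`: `L → Y` surjective with central kernel of order prime to `p`: if the image of the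
  p-subgroup `D` is small then `D` is small.
-/

set_option linter.unusedSectionVars false

namespace Pool.Agent.Lib.P0c8ca5.Ex

variable {p : ℕ} {A : Type*} [Group A]

/-- the order of the automizer -/
noncomputable def au (D : Subgroup A) : ℕ := (CD D).relIndex (Subgroup.normalizer (D : Set A))

/-- `N(D) / C(D)` is abelian -/
def AuComm (D : Subgroup A) : Prop :=
  ∀ x ∈ Subgroup.normalizer (D : Set A), ∀ y ∈ Subgroup.normalizer (D : Set A),
    x * y * (y * x)⁻¹ ∈ CD D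

/-- `N(D) / C(D)` acts freely on `D - 1` -/
def AuFree (D : Subgroup A) : Prop :=
  ∀ g ∈ Subgroup.normalizer (D : Set A), ∀ u ∈ D, u ≠ 1 → g * u = u * g → g ∈ CD D

/-- `D` is cyclic or abelian with a small automizer -/
def Small (p : ℕ) (D : Subgroup A) : Prop :=
  IsCyclic D ∨ (p ≠ 2 ∧ (∀ x ∈ D, ∀ y ∈ D, x * y = y * x) ∧
    (2 * au D < p ∨
      (AuComm D ∧ au D + (Nat.primeFactorsList (au D)).length < p) ∨
      (AuFree D ∧ au D < p)))

theorem length_of_dvd {m n : ℕ} (h : m ∣ n) (hn : n ≠ 0) :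
    (Nat.primeFactorsList m).length ≤ (Nat.primeFactorsList n).length := by
  obtain ⟨l, rfl⟩ := h
  have hm : m ≠ 0 := fun h0 => hn (by rw [h0, zero_mul])
  have hl : l ≠ 0 := fun h0 => hn (by rw [h0, mul_zero])
  rw [(Nat.perm_primeFactorsList_mul hm hl).length_eq, List.length_append]
  exact Nat.le_add_right _ _

theorem CD_le_norm (D : Subgroup A) : CD D ≤ Subgroup.normalizer (D : Set A) :=
  Subgroup.centralizer_le_normalizer _

theorem au_ne [Finite A] (D : Subgroup A) : au D ≠ 0 := by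
  unfold au
  have := Subgroup.isFiniteRelIndex_of_finiteIndex (H := CD D)
    (K := Subgroup.normalizer (D : Set A))
  exact Subgroup.relIndex_ne_zero

theorem mem_CD {D : Subgroup A} {x : A} : x ∈ CD D ↔ ∀ u ∈ D, u * x = x * u :=
  Subgroup.mem_centralizer_iff

theorem conj_CD {D : Subgroup A} {g x : A} (hg : g ∈ Subgroup.normalizer (D : Set A))
    (hx : x ∈ CD D) : g * x * g⁻¹ ∈ CD D := by
  refine mem_CD.2 fun u hu => ?_
  have h1 : g⁻¹ * u * g ∈ D := by
    have h2 := (Subgroup.mem_normalizer_iff.1 ((Subgroup.normalizer (D : Set A)).inv_mem hg) u).1 hu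
    rwa [inv_inv] at h2
  have h2 := mem_CD.1 hx _ h1
  calc u * (g * x * g⁻¹) = g * ((g⁻¹ * u * g) * x) * g⁻¹ := by group
    _ = g * (x * (g⁻¹ * u * g)) * g⁻¹ := by rw [h2]
    _ = g * x * g⁻¹ * u := by group

theorem relIndex_eq_of_sup {K H N : Subgroup A} (hKN : K ≤ N) (hHN : H ≤ N)
    (hn : ∀ g ∈ N, ∀ x ∈ K, g * x * g⁻¹ ∈ K) (hs : ∀ g ∈ N, ∃ c ∈ K, c * g ∈ H) :
    K.relIndex N = K.relIndex H := by
  have hK : (K.subgroupOf N).Normal := ⟨fun x hx g => Subgroup.mem_subgroupOf.2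
    (hn g g.2 x (Subgroup.mem_subgroupOf.1 hx))⟩
  have h1 := Subgroup.relIndex_sup_right (H.subgroupOf N) (K.subgroupOf N)
  have h2 : H.subgroupOf N ⊔ K.subgroupOf N = ⊤ := by
    rw [eq_top_iff]
    intro g _
    obtain ⟨c, hc, hcg⟩ := hs g g.2
    have h3 : (⟨c, hKN hc⟩ : ↥N)⁻¹ ∈ K.subgroupOf N :=
      (K.subgroupOf N).inv_mem (Subgroup.mem_subgroupOf.2 hc)
    have h4 : (⟨c, hKN hc⟩ : ↥N) * g ∈ H.subgroupOf N := Subgroup.mem_subgroupOf.2 hcg
    have h5 : g = (⟨c, hKN hc⟩ : ↥N)⁻¹ * ((⟨c, hKN hc⟩ : ↥N) * g) := by group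
    rw [h5]
    exact (H.subgroupOf N ⊔ K.subgroupOf N).mul_mem
      ((le_sup_right : K.subgroupOf N ≤ _) h3) ((le_sup_left : H.subgroupOf N ≤ _) h4)
  rw [h2, Subgroup.relIndex_top_right, Subgroup.relIndex_subgroupOf hHN] at h1
  exact h1

/-- Frattini argument -/
theorem exists_norm [Fact p.Prime] [Finite A] {P D : Subgroup A} (hP : IsSyl p (⊤ : Subgroup A) P)
    (hcom : ∀ x ∈ P, ∀ y ∈ P, x * y = y * x) (hD : D ≤ P) {g : A}
    (hg : g ∈ Subgroup.normalizer (D : Set A)) :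
    ∃ c ∈ CD D, c * g ∈ Subgroup.normalizer (P : Set A) := by
  have hPC : P ≤ CD D := fun x hx => mem_CD.2 fun u hu => hcom u (hD hu) x hx
  have hPs : IsSyl p (CD D) P := by
    obtain ⟨S, hS⟩ := exists_isSyl (p := p) (CD D)
    exact hS.of_card hPC hP.isPGroup (hP.card_le le_top hS.isPGroup)
  have hgP : cg g P ≤ CD D := by
    intro x hx
    rw [mem_cg] at hx
    refine mem_CD.2 fun u hu => ?_
    have h1 : g⁻¹ * u * g ∈ D := by
      have h2 := (Subgroup.mem_normalizer_iff.1 ((Subgroup.normalizer (D : Set A)).inv_mem hg) u).1 hu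
      rwa [inv_inv] at h2
    have h2 := hcom _ (hD h1) _ hx
    calc u * x = g * ((g⁻¹ * u * g) * (g⁻¹ * x * g)) * g⁻¹ := by group
      _ = g * ((g⁻¹ * x * g) * (g⁻¹ * u * g)) * g⁻¹ := by rw [h2]
      _ = x * u := by group
  have hgs : IsSyl p (CD D) (cg g P) :=
    hPs.of_card hgP (isPGroup_cg hP.isPGroup) (by rw [card_cg])
  obtain ⟨c, hc, hcc⟩ := hgs.conj_eq hPs
  refine ⟨c, hc, ?_⟩
  rw [← cg_eq_self_iff, ← cg_cg, ← hcc]

theorem au_dvd [Fact p.Prime] [Finite A] {P D : Subgroup A} (hP : IsSyl p (⊤ : Subgroup A) P)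
    (hcom : ∀ x ∈ P, ∀ y ∈ P, x * y = y * x) (hD : D ≤ P) : au D ∣ au P := by
  have hCC : CD P ≤ CD D := Subgroup.centralizer_le hD
  set N1 : Subgroup A := Subgroup.normalizer (P : Set A) ⊓ Subgroup.normalizer (D : Set A) with hN1
  have h1 : CD P ≤ N1 := le_inf (CD_le_norm P) (hCC.trans (CD_le_norm D))
  have h2 : (CD P).relIndex N1 ∣ au P := by
    unfold au
    rw [← Subgroup.relIndex_mul_relIndex _ _ _ h1 inf_le_left]
    exact dvd_mul_right _ _
  have h3 : (CD D ⊓ N1).relIndex N1 ∣ (CD P).relIndex N1 :=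
    Subgroup.relIndex_dvd_of_le_left N1 (le_inf hCC h1)
  have h4 : au D = (CD D ⊓ N1).relIndex N1 := by
    rw [Subgroup.inf_relIndex_right]
    refine relIndex_eq_of_sup (CD_le_norm D) inf_le_right (fun g hg x hx => conj_CD hg hx) ?_
    intro g hg
    obtain ⟨c, hc, hcg⟩ := exists_norm hP hcom hD hg
    exact ⟨c, hc, hcg, (Subgroup.normalizer (D : Set A)).mul_mem (CD_le_norm D hc) hg⟩
  rw [h4]
  exact h3.trans h2

theorem AuComm.mono [Fact p.Prime] [Finite A] {P D : Subgroup A}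
    (hP : IsSyl p (⊤ : Subgroup A) P) (hcom : ∀ x ∈ P, ∀ y ∈ P, x * y = y * x) (hD : D ≤ P)
    (h : AuComm P) : AuComm D := by
  have hCC : CD P ≤ CD D := Subgroup.centralizer_le hD
  intro x hx y hy
  obtain ⟨c, hc, hcx⟩ := exists_norm hP hcom hD hx
  obtain ⟨d, hd, hdy⟩ := exists_norm hP hcom hD hy
  have h1 := hCC (h _ hcx _ hdy)
  have h2 : x * y * (y * x)⁻¹ = (c * (x * d * x⁻¹))⁻¹ * (c * x * (d * y) * (d * y * (c * x))⁻¹)
      * (y * c⁻¹ * y⁻¹ * d⁻¹)⁻¹ := by group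
  rw [h2]
  exact (CD D).mul_mem ((CD D).mul_mem
    ((CD D).inv_mem ((CD D).mul_mem hc (conj_CD hx hd))) h1)
    ((CD D).inv_mem ((CD D).mul_mem (conj_CD hy ((CD D).inv_mem hc)) ((CD D).inv_mem hd)))

theorem AuFree.mono [Fact p.Prime] [Finite A] {P D : Subgroup A}
    (hP : IsSyl p (⊤ : Subgroup A) P) (hcom : ∀ x ∈ P, ∀ y ∈ P, x * y = y * x) (hD : D ≤ P)
    (h : AuFree P) : AuFree D := by
  have hCC : CD P ≤ CD D := Subgroup.centralizer_le hD
  intro g hg u hu hu1 hgu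
  obtain ⟨c, hc, hcg⟩ := exists_norm hP hcom hD hg
  have h1 : c * g * u = u * (c * g) := by
    rw [mul_assoc, hgu, ← mul_assoc, ← mem_CD.1 hc u hu, mul_assoc]
  have h2 := hCC (h _ hcg u (hD hu) hu1 h1)
  have h3 : g = c⁻¹ * (c * g) := by group
  rw [h3]
  exact (CD D).mul_mem ((CD D).inv_mem hc) h2

/-- **inheritance** -/
theorem Small.mono [Fact p.Prime] [Finite A] {P D : Subgroup A}
    (hP : IsSyl p (⊤ : Subgroup A) P) (hD : D ≤ P) (h : Small p P) : Small p D := by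
  rcases h with h | ⟨h0, h1, h2⟩
  · left
    exact isCyclic_of_injective (Subgroup.inclusion hD) (Subgroup.inclusion_injective hD)
  · right
    have hdvd := au_dvd hP h1 hD
    have hle := Nat.le_of_dvd (Nat.pos_of_ne_zero (au_ne P)) hdvd
    refine ⟨h0, fun x hx y hy => h1 x (hD hx) y (hD hy), ?_⟩
    rcases h2 with h2 | ⟨h2, h3⟩ | ⟨h2, h3⟩
    · left
      omega
    · right
      left
      have := length_of_dvd hdvd (au_ne P)
      exact ⟨h2.mono hP h1 hD, by omega⟩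
    · right
      right
      exact ⟨h2.mono hP h1 hD, by omega⟩

section quot
variable {Y : Type*} [Group Y] {π : A →* Y}

theorem inj_on_of [Fact p.Prime] (hp : ¬ p ∣ Nat.card π.ker) {D : Subgroup A} (hD : IsPGroup p D)
    {x : A} (hx : x ∈ D) (h1 : π x = 1) : x = 1 := by
  obtain ⟨n, hn⟩ := hD ⟨x, hx⟩
  have h2 : x ^ p ^ n = 1 := congrArg Subtype.val hn
  have h3 : (⟨x, h1⟩ : ↥π.ker) ^ Nat.card π.ker = 1 := pow_card_eq_one'
  have h4 : x ^ Nat.card π.ker = 1 := congrArg Subtype.val h3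
  have hcop : Nat.Coprime (p ^ n) (Nat.card π.ker) :=
    Nat.Coprime.pow_left n ((Nat.Prime.coprime_iff_not_dvd Fact.out).2 hp)
  have h5 : orderOf x ∣ 1 := by
    rw [← hcop.gcd_eq_one]
    exact Nat.dvd_gcd (orderOf_dvd_of_pow_eq_one h2) (orderOf_dvd_of_pow_eq_one h4)
  rwa [Nat.dvd_one, orderOf_eq_one_iff] at h5

theorem comap_norm [Fact p.Prime] [Finite A] (hz : π.ker ≤ Subgroup.center A)
    (hp : ¬ p ∣ Nat.card π.ker) {D : Subgroup A} (hD : IsPGroup p D) :
    (Subgroup.normalizer ((D.map π : Subgroup Y) : Set Y)).comap π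
      = Subgroup.normalizer (D : Set A) := by
  -- a `p`-element whose image lies in the image of `D` lies in `D`
  have key : ∀ x : A, (∃ n : ℕ, x ^ p ^ n = 1) → π x ∈ D.map π → x ∈ D := by
    rintro x ⟨n, hn⟩ ⟨d, hd, hdx⟩
    obtain ⟨m, hm⟩ := hD ⟨d, hd⟩
    have hm' : d ^ p ^ m = 1 := congrArg Subtype.val hm
    have hk : d⁻¹ * x ∈ π.ker := by
      rw [MonoidHom.mem_ker, map_mul, map_inv, hdx, inv_mul_cancel]
    have hc := Subgroup.mem_center_iff.1 (hz hk)
    have h1 : Commute d x := by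
      have h2 := hc d
      have h3 : x = d * (d⁻¹ * x) := by group
      have h4 : Commute d (d⁻¹ * x) := h2
      rw [h3]
      exact (Commute.refl d).mul_right h4
    have h2 : (d⁻¹ * x) ^ p ^ (m + n) = 1 := by
      rw [(h1.inv_left).mul_pow, inv_pow, pow_add, pow_mul, hm', one_pow, inv_one, one_mul,
        mul_comm, pow_mul, hn, one_pow]
    have h3 : d⁻¹ * x = 1 := by
      have h4 : IsPGroup p (Subgroup.zpowers (d⁻¹ * x)) := by
        intro y
        obtain ⟨j, hj⟩ := y.2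
        refine ⟨m + n, Subtype.ext ?_⟩
        rw [Subgroup.coe_pow, ← hj, Subgroup.coe_one]
        change ((d⁻¹ * x) ^ j) ^ p ^ (m + n) = 1
        rw [← zpow_natCast, ← zpow_mul, mul_comm, zpow_mul, zpow_natCast, h2, one_zpow]
      exact inj_on_of hp h4 (Subgroup.mem_zpowers _) hk
    have h4 : x = d := by
      have h5 : x = d * (d⁻¹ * x) := by group
      rw [h5, h3, mul_one]
    rw [h4]
    exact hd
  have hpel : ∀ x ∈ D, ∀ g : A, ∃ n : ℕ, (g * x * g⁻¹) ^ p ^ n = 1 := by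
    intro x hx g
    obtain ⟨n, hn⟩ := hD ⟨x, hx⟩
    have h1 : x ^ p ^ n = 1 := congrArg Subtype.val hn
    exact ⟨n, by rw [conj_pow, h1, mul_one, mul_inv_cancel]⟩
  have hfwd : ∀ g ∈ (Subgroup.normalizer ((D.map π : Subgroup Y) : Set Y)).comap π,
      ∀ x ∈ D, g * x * g⁻¹ ∈ D := by
    intro g hg x hx
    refine key _ (hpel x hx g) ?_
    rw [map_mul, map_mul, map_inv]
    exact (Subgroup.mem_normalizer_iff.1 (Subgroup.mem_comap.1 hg) (π x)).1 ⟨x, hx, rfl⟩
  ext g
  constructor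
  · intro hg
    rw [Subgroup.mem_normalizer_iff]
    intro x
    refine ⟨hfwd g hg x, fun hx => ?_⟩
    have h1 := hfwd g⁻¹ (Subgroup.inv_mem _ hg) _ hx
    have h2 : g⁻¹ * (g * x * g⁻¹) * g⁻¹⁻¹ = x := by group
    rwa [h2] at h1
  · intro hg
    rw [Subgroup.mem_comap, Subgroup.mem_normalizer_iff]
    intro y
    constructor
    · rintro ⟨x, hx, rfl⟩
      exact ⟨g * x * g⁻¹, (Subgroup.mem_normalizer_iff.1 hg x).1 hx, by
        rw [map_mul, map_mul, map_inv]⟩
    · rintro ⟨x, hx, hxy⟩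
      have h1 := (Subgroup.mem_normalizer_iff.1 ((Subgroup.normalizer (D : Set A)).inv_mem hg) x).1 hx
      refine ⟨_, h1, ?_⟩
      rw [inv_inv, map_mul, map_mul, map_inv, hxy]
      group

theorem comap_CD [Fact p.Prime] [Finite A] (hz : π.ker ≤ Subgroup.center A)
    (hp : ¬ p ∣ Nat.card π.ker) {D : Subgroup A} (hD : IsPGroup p D) :
    (CD (D.map π)).comap π = CD D := by
  ext g
  constructor
  · intro hg
    -- `g` normalizes `D`
    have hgn : g ∈ Subgroup.normalizer (D : Set A) := by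
      rw [← comap_norm (p := p) hz hp hD]
      exact Subgroup.mem_comap.2 (CD_le_norm _ (Subgroup.mem_comap.1 hg))
    refine mem_CD.2 fun u hu => ?_
    have h1 := mem_CD.1 (Subgroup.mem_comap.1 hg) (π u) ⟨u, hu, rfl⟩
    have h2 : g * u * g⁻¹ * u⁻¹ ∈ D :=
      D.mul_mem ((Subgroup.mem_normalizer_iff.1 hgn u).1 hu) (D.inv_mem hu)
    have h3 : π (g * u * g⁻¹ * u⁻¹) = 1 := by
      rw [map_mul, map_mul, map_mul, map_inv, map_inv, ← h1]
      group
    have h4 := inj_on_of hp hD h2 h3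
    have h5 : g * u = u * g := by
      calc g * u = (g * u * g⁻¹ * u⁻¹) * (u * g) := by group
        _ = u * g := by rw [h4, one_mul]
    exact h5.symm
  · intro hg
    refine Subgroup.mem_comap.2 (mem_CD.2 ?_)
    rintro _ ⟨u, hu, rfl⟩
    rw [← map_mul, ← map_mul, mem_CD.1 hg u hu]

theorem au_map [Fact p.Prime] [Finite A] (hs : Function.Surjective π)
    (hz : π.ker ≤ Subgroup.center A) (hp : ¬ p ∣ Nat.card π.ker) {D : Subgroup A}
    (hD : IsPGroup p D) : au D = au (D.map π) := by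
  unfold au
  rw [← comap_norm (p := p) hz hp hD, ← comap_CD (p := p) hz hp hD, Subgroup.relIndex_comap,
    Subgroup.map_comap_eq_self_of_surjective hs]

/-- **the image of `D` modulo a central subgroup of order prime to `p`** -/
theorem Small.of_map [Fact p.Prime] [Finite A] (hs : Function.Surjective π)
    (hz : π.ker ≤ Subgroup.center A) (hp : ¬ p ∣ Nat.card π.ker) {D : Subgroup A}
    (hD : IsPGroup p D) (h : Small p (D.map π)) : Small p D := by
  have hinj : ∀ x ∈ D, π x = 1 → x = 1 := fun x hx h1 => inj_on_of hp hD hx h1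
  have hnm : ∀ g ∈ Subgroup.normalizer (D : Set A),
      π g ∈ Subgroup.normalizer ((D.map π : Subgroup Y) : Set Y) := by
    intro g hg
    rw [← comap_norm (p := p) hz hp hD] at hg
    exact hg
  have hcd : ∀ g, π g ∈ CD (D.map π) → g ∈ CD D := by
    intro g hg
    rw [← comap_CD (p := p) hz hp hD]
    exact hg
  rcases h with h | ⟨h0, h1, h2⟩
  · left
    refine isCyclic_of_injective (G' := ↥(D.map π)) (π.subgroupMap D) ?_
    rw [injective_iff_map_eq_one]
    intro x hx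
    exact Subtype.ext (hinj x x.2 (congrArg Subtype.val hx))
  · right
    refine ⟨h0, fun x hx y hy => ?_, ?_⟩
    · have h3 := h1 (π x) ⟨x, hx, rfl⟩ (π y) ⟨y, hy, rfl⟩
      have h4 : x * y * x⁻¹ * y⁻¹ ∈ D :=
        D.mul_mem (D.mul_mem (D.mul_mem hx hy) (D.inv_mem hx)) (D.inv_mem hy)
      have h5 := hinj _ h4 (by
        rw [map_mul, map_mul, map_mul, map_inv, map_inv, h3]
        group)
      calc x * y = (x * y * x⁻¹ * y⁻¹) * (y * x) := by group
        _ = y * x := by rw [h5, one_mul]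
    · rw [au_map hs hz hp hD]
      rcases h2 with h2 | ⟨h2, h3⟩ | ⟨h2, h3⟩
      · exact Or.inl h2
      · refine Or.inr (Or.inl ⟨fun x hx y hy => hcd _ ?_, h3⟩)
        have h4 := h2 _ (hnm x hx) _ (hnm y hy)
        rwa [← map_mul, ← map_mul, ← map_inv, ← map_mul] at h4
      · refine Or.inr (Or.inr ⟨fun g hg u hu hu1 hgu => hcd _ ?_, h3⟩)
        refine h2 _ (hnm g hg) (π u) ⟨u, hu, rfl⟩ (fun h4 => hu1 (hinj u hu h4)) ?_
        rw [← map_mul, ← map_mul, hgu]

end quot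

end Pool.Agent.Lib.P0c8ca5.Ex
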