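import Mathlib
import Pool.Agent.Lib.P0c8ca5Ex.SA
import Pool.Agent.Lib.P0c8ca5X.FinN

/-!
# SB: almost simple groups with a nilpotent outer part of order prime to `p`

`Alm p Y`: `Y` has a simple normal subgroup `S` with trivial centralizer, `Y / S` is nilpotent of
order prime to `p` and generated by two elements. `alm_of`: the group of a good block modulo its center.
-/

set_option linter.unusedSectionVars false

namespace Pool.Agent.Lib.P0c8ca5.Ex

open Jj

/-- almost simple groups with a nilpotent outer part of order prime to `p` -/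
def Alm (p : ℕ) (Y : Type*) [Group Y] : Prop :=
  ∃ (S : Subgroup Y) (_ : S.Normal), IsSimpleGroup ↥S ∧ Subgroup.centralizer (S : Set Y) = ⊥ ∧
    ¬ p ∣ S.index ∧ Group.IsNilpotent (Y ⧸ S) ∧ ∃ x y : Y, S ⊔ Subgroup.closure {x, y} = ⊤

section
variable {L : Type*} [Group L]

theorem center_quot {E : Subgroup L} (hE : QS E)
    (hc : Subgroup.centralizer (E : Set L) = Subgroup.center L) :
    Subgroup.centralizer ((E.map (QuotientGroup.mk' (Subgroup.center L)) :
      Subgroup (L ⧸ Subgroup.center L)) : Set (L ⧸ Subgroup.center L)) = ⊥ := by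
  set π := QuotientGroup.mk' (Subgroup.center L) with hπ
  set T : Subgroup L := (Subgroup.centralizer ((E.map π : Subgroup (L ⧸ Subgroup.center L)) :
    Set (L ⧸ Subgroup.center L))).comap π with hT
  have h1 : ⁅T, E⁆ ≤ Subgroup.center L := by
    rw [Subgroup.commutator_le]
    intro t ht e he
    have h2 := Subgroup.mem_centralizer_iff.1 (Subgroup.mem_comap.1 ht) (π e) ⟨e, he, rfl⟩
    have h3 : π (t * e * t⁻¹ * e⁻¹) = 1 := by
      rw [map_mul, map_mul, map_mul, map_inv, map_inv, ← h2]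
      group
    rw [← MonoidHom.mem_ker, hπ, QuotientGroup.ker_mk'] at h3
    rw [commutatorElement_def]
    exact h3
  have h2 : ⁅⁅T, E⁆, E⁆ = ⊥ := by
    rw [Subgroup.commutator_eq_bot_iff_le_centralizer]
    intro x hx
    rw [Subgroup.mem_centralizer_iff]
    intro y _
    exact Subgroup.mem_center_iff.1 (h1 hx) y
  have h3 : ⁅⁅E, T⁆, E⁆ = ⊥ := by
    rw [Subgroup.commutator_comm E T]
    exact h2
  have h4 : ⁅⁅E, E⁆, T⁆ = ⊥ := by
    refine Subgroup.commutator_commutator_eq_bot_of_rotate ?_ ?_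
    · exact h3
    · exact h2
  rw [hE.perf, Subgroup.commutator_comm, Subgroup.commutator_eq_bot_iff_le_centralizer, hc] at h4
  rw [eq_bot_iff]
  intro y hy
  obtain ⟨x, rfl⟩ := QuotientGroup.mk'_surjective (Subgroup.center L) y
  have h5 : x ∈ Subgroup.center L := h4 (Subgroup.mem_comap.2 hy)
  rw [Subgroup.mem_bot]
  exact (QuotientGroup.eq_one_iff x).2 h5

theorem simple_quot {E : Subgroup L} (hE : QS E)
    (hc : Subgroup.centralizer (E : Set L) = Subgroup.center L) :
    IsSimpleGroup ↥(E.map (QuotientGroup.mk' (Subgroup.center L))) := by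
  set π := QuotientGroup.mk' (Subgroup.center L) with hπ
  have hker : ∀ x : L, π x = 1 ↔ x ∈ Subgroup.center L := fun x => QuotientGroup.eq_one_iff x
  have hnt : ∃ e ∈ E, π e ≠ 1 := by
    by_contra h
    push Not at h
    exact hE.not_le_center fun e he => (hker e).1 (h e he)
  obtain ⟨e0, he0, he1⟩ := hnt
  have : Nontrivial ↥(E.map π) := ⟨⟨π e0, e0, he0, rfl⟩, 1, fun h => he1 (congrArg Subtype.val h)⟩
  refine ⟨fun K hK => ?_⟩
  set K' : Subgroup L := (K.map (E.map π).subtype).comap π ⊓ E with hK'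
  have hn : E ≤ Subgroup.normalizer (K' : Set L) := by
    have key : ∀ g ∈ E, ∀ x ∈ K', g * x * g⁻¹ ∈ K' := by
      rintro g hg x ⟨⟨s, hs, hsx⟩, hxE⟩
      refine ⟨?_, E.mul_mem (E.mul_mem hg hxE) (E.inv_mem hg)⟩
      refine ⟨(⟨π g, g, hg, rfl⟩ : ↥(E.map π)) * s * (⟨π g, g, hg, rfl⟩ : ↥(E.map π))⁻¹,
        hK.conj_mem s hs _, ?_⟩
      change π g * (s : L ⧸ Subgroup.center L) * (π g)⁻¹ = π (g * x * g⁻¹)
      rw [map_mul, map_mul, map_inv]
      have h1 : (s : L ⧸ Subgroup.center L) = π x := hsx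
      rw [h1]
    intro g hg
    rw [Subgroup.mem_normalizer_iff]
    intro x
    refine ⟨key g hg x, fun hx => ?_⟩
    have h1 := key g⁻¹ (E.inv_mem hg) _ hx
    have h2 : g⁻¹ * (g * x * g⁻¹) * g⁻¹⁻¹ = x := by group
    rwa [h2] at h1
  rcases hE.qs K' inf_le_right hn with h | h
  · left
    rw [eq_bot_iff]
    rintro ⟨_, e, he, rfl⟩ hs
    have h1 : e ∈ K' := ⟨⟨⟨π e, e, he, rfl⟩, hs, rfl⟩, he⟩
    have h2 := h h1
    rw [hc] at h2
    rw [Subgroup.mem_bot]
    exact Subtype.ext ((hker e).2 h2)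
  · right
    rw [eq_top_iff]
    rintro ⟨_, e, he, rfl⟩ _
    have h1 : e ∈ K' := by
      rw [h]
      exact he
    obtain ⟨⟨s, hs, hse⟩, -⟩ := h1
    have h2 : s = ⟨π e, e, he, rfl⟩ := Subtype.ext hse
    rw [← h2]
    exact hs

/-- **the almost simple group** -/
theorem alm_of {p : ℕ} (h : Gg.AqsN p L) : Alm p (L ⧸ Subgroup.center L) := by
  obtain ⟨E, hE, hn, hc, hp, ⟨x0, y0, hxy⟩, hN, hnil⟩ := h
  set π := QuotientGroup.mk' (Subgroup.center L) with hπ
  have hs : Function.Surjective π := QuotientGroup.mk'_surjective _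
  have hSn : (E.map π).Normal := hn.map π hs
  have hcomap : (E.map π).comap π = E ⊔ Subgroup.center L := by
    rw [Subgroup.comap_map_eq, hπ, QuotientGroup.ker_mk']
  refine ⟨E.map π, hSn, simple_quot hE hc, center_quot hE hc, ?_, ?_, π x0, π y0, ?_⟩
  · rw [← Subgroup.index_comap_of_surjective _ hs, hcomap]
    exact hp
  · have h1 : (E ⊔ Subgroup.center L) ≤ (E.map π).comap π := le_of_eq hcomap.symm
    let φ : L ⧸ (E ⊔ Subgroup.center L) →* (L ⧸ Subgroup.center L) ⧸ (E.map π) :=
      QuotientGroup.map (E ⊔ Subgroup.center L) (E.map π) π h1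
    have hφ : Function.Surjective φ := by
      intro y
      obtain ⟨z, rfl⟩ := QuotientGroup.mk_surjective y
      obtain ⟨x, rfl⟩ := hs z
      exact ⟨QuotientGroup.mk x, rfl⟩
    exact Group.nilpotent_of_surjective φ hφ
  · have h1 := congrArg (Subgroup.map π) hxy
    rw [Subgroup.map_sup, Subgroup.map_sup, MonoidHom.map_closure, Set.image_pair,
      Subgroup.map_top_of_surjective π hs] at h1
    have h2 : (Subgroup.center L).map π = ⊥ := by
      rw [Subgroup.map_eq_bot_iff, hπ, QuotientGroup.ker_mk']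
    rw [h2, sup_bot_eq] at h1
    exact h1

end

end Pool.Agent.Lib.P0c8ca5.Ex
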