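import Mathlib
import Pool.Agent.Lib.P0c8ca5Ex.SA

/-!
# SD: coverings of the elements with nontrivial stabilizer

* `CovD D q`: the elements `u ≠ 1` of `D` with nontrivial stabilizer in `A = N(D) / C(D)` lie in `q`
  proper subgroups of `D`;
* `HCov P q`: every `C_P(a) ≠ 1`, `a ∈ A - 1`, is an intersection of some of `q` proper subgroups of
  `P`; inherited by the subgroups of an abelian Sylow p-subgroup `P` (in the form `CovD`);
* `Sm p D`, `SmSyl p P`: the smallness conditions.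
-/

set_option linter.unusedSectionVars false

namespace Pool.Agent.Lib.P0c8ca5.Ex

variable {p : ℕ} {A : Type*} [Group A]

/-- the elements with nontrivial stabilizer lie in `q` proper subgroups -/
def CovD (D : Subgroup A) (q : ℕ) : Prop :=
  ∃ V : Finset (Subgroup A), V.card = q ∧ (∀ W ∈ V, W < D) ∧
    ∀ g ∈ Subgroup.normalizer (D : Set A), g ∉ Subgroup.centralizer (D : Set A) →
      ∀ u ∈ D, u ≠ 1 → g * u = u * g → ∃ W ∈ V, u ∈ W

/-- every `C_P(a) ≠ 1`, `a ∈ A - 1`, is the intersection of some of `q` proper subgroups -/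
def HCov (P : Subgroup A) (q : ℕ) : Prop :=
  ∃ V : Finset (Subgroup A), V.card = q ∧ (∀ W ∈ V, W < P) ∧
    ∀ g ∈ Subgroup.normalizer (P : Set A), (∃ u ∈ P, u ≠ 1 ∧ g * u = u * g) →
      ∀ y ∈ P, g * y ≠ y * g → ∃ W ∈ V, (∀ u ∈ P, g * u = u * g → u ∈ W) ∧ y ∉ W

/-- small p-subgroups -/
def Sm (p : ℕ) (D : Subgroup A) : Prop :=
  IsCyclic D ∨ (p ≠ 2 ∧ (∀ x ∈ D, ∀ y ∈ D, x * y = y * x) ∧
    ((∃ q, CovD D q ∧ au D + q < p) ∨ 2 * au D < p ∨
      (AuComm D ∧ au D + (Nat.primeFactorsList (au D)).length < p)))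

/-- small Sylow p-subgroups -/
def SmSyl (p : ℕ) (P : Subgroup A) : Prop :=
  IsCyclic P ∨ (p ≠ 2 ∧ (∀ x ∈ P, ∀ y ∈ P, x * y = y * x) ∧
    ((∃ q, HCov P q ∧ au P + q < p) ∨ 2 * au P < p ∨
      (AuComm P ∧ au P + (Nat.primeFactorsList (au P)).length < p)))

theorem HCov.cov [Fact p.Prime] [Finite A] {P D : Subgroup A} (hP : IsSyl p (⊤ : Subgroup A) P)
    (hcom : ∀ x ∈ P, ∀ y ∈ P, x * y = y * x) (hD : D ≤ P) {q : ℕ} (h : HCov P q) :
    ∃ q' ≤ q, CovD D q' := by
  classical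
  obtain ⟨V, hVq, hV, hc⟩ := h
  refine ⟨_, ?_, (V.filter fun W => ¬ D ≤ W).image fun W => W ⊓ D, rfl, ?_, ?_⟩
  · rw [← hVq]
    exact Finset.card_image_le.trans (Finset.card_filter_le _ _)
  · intro W' hW'
    obtain ⟨W, hW, rfl⟩ := Finset.mem_image.1 hW'
    have h1 := (Finset.mem_filter.1 hW).2
    exact lt_of_le_not_ge inf_le_right fun h2 => h1 (h2.trans inf_le_left)
  · intro g hg hgC u hu hu1 hgu
    obtain ⟨c, hcD, hcg⟩ := exists_norm hP hcom hD hg
    have h1 : c * g * u = u * (c * g) := by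
      rw [mul_assoc, hgu, ← mul_assoc, ← mem_CD.1 hcD u hu, mul_assoc]
    have h2 : ∃ y ∈ D, c * g * y ≠ y * (c * g) := by
      by_contra h3
      push Not at h3
      apply hgC
      have h4 : c * g ∈ CD D := mem_CD.2 fun y hy => (h3 y hy).symm
      have h5 : g = c⁻¹ * (c * g) := by group
      rw [h5]
      exact (CD D).mul_mem ((CD D).inv_mem hcD) h4
    obtain ⟨y, hy, hgy⟩ := h2
    obtain ⟨W, hW, hW1, hW2⟩ := hc _ hcg ⟨u, hD hu, hu1, h1⟩ y (hD hy) hgy
    exact ⟨W ⊓ D, Finset.mem_image_of_mem _ (Finset.mem_filter.2 ⟨hW, fun h => hW2 (h hy)⟩),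
      hW1 u (hD hu) h1, hu⟩

/-- **inheritance** -/
theorem SmSyl.mono [Fact p.Prime] [Finite A] {P D : Subgroup A}
    (hP : IsSyl p (⊤ : Subgroup A) P) (hD : D ≤ P) (h : SmSyl p P) : Sm p D := by
  rcases h with h | ⟨h0, h1, h2⟩
  · left
    exact isCyclic_of_injective (Subgroup.inclusion hD) (Subgroup.inclusion_injective hD)
  · right
    have hdvd := au_dvd hP h1 hD
    have hle := Nat.le_of_dvd (Nat.pos_of_ne_zero (au_ne P)) hdvd
    refine ⟨h0, fun x hx y hy => h1 x (hD hx) y (hD hy), ?_⟩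
    rcases h2 with ⟨q, h2, h3⟩ | h2 | ⟨h2, h3⟩
    · obtain ⟨q', hq', h4⟩ := h2.cov hP h1 hD
      exact Or.inl ⟨q', h4, by omega⟩
    · exact Or.inr (Or.inl (by omega))
    · have := length_of_dvd hdvd (au_ne P)
      exact Or.inr (Or.inr ⟨h2.mono hP h1 hD, by omega⟩)

section quot
variable {Y : Type*} [Group Y] {π : A →* Y}

theorem CovD.of_map [Fact p.Prime] [Finite A] (hz : π.ker ≤ Subgroup.center A)
    (hp : ¬ p ∣ Nat.card π.ker) {D : Subgroup A} (hD : IsPGroup p D) {q : ℕ}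
    (h : CovD (D.map π) q) : ∃ q' ≤ q, CovD D q' := by
  classical
  obtain ⟨V, hVq, hV, hc⟩ := h
  refine ⟨_, ?_, V.image fun W => W.comap π ⊓ D, rfl, ?_, ?_⟩
  · rw [← hVq]
    exact Finset.card_image_le
  · intro W' hW'
    obtain ⟨W, hW, rfl⟩ := Finset.mem_image.1 hW'
    refine lt_of_le_not_ge inf_le_right fun h2 => ?_
    refine absurd (hV W hW) (not_lt_of_ge ?_)
    rintro _ ⟨d, hd, rfl⟩
    exact Subgroup.mem_comap.1 (h2 hd).1
  · intro g hg hgC u hu hu1 hgu
    have h1 : π g ∈ Subgroup.normalizer ((D.map π : Subgroup Y) : Set Y) := by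
      rw [← comap_norm (p := p) hz hp hD] at hg
      exact hg
    have h2 : π g ∉ Subgroup.centralizer ((D.map π : Subgroup Y) : Set Y) := by
      intro h3
      apply hgC
      change g ∈ CD D
      rw [← comap_CD (p := p) hz hp hD]
      exact h3
    obtain ⟨W, hW, huW⟩ := hc _ h1 h2 (π u) ⟨u, hu, rfl⟩
      (fun h4 => hu1 (inj_on_of hp hD hu h4)) (by rw [← map_mul, ← map_mul, hgu])
    exact ⟨_, Finset.mem_image_of_mem _ hW, Subgroup.mem_comap.2 huW, hu⟩

/-- **the image of `D` modulo a central subgroup of order prime to `p`** -/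
theorem Sm.of_map [Fact p.Prime] [Finite A] (hs : Function.Surjective π)
    (hz : π.ker ≤ Subgroup.center A) (hp : ¬ p ∣ Nat.card π.ker) {D : Subgroup A}
    (hD : IsPGroup p D) (h : Sm p (D.map π)) : Sm p D := by
  have hinj : ∀ x ∈ D, π x = 1 → x = 1 := fun x hx h1 => inj_on_of hp hD hx h1
  have hnm : ∀ g ∈ Subgroup.normalizer (D : Set A),
      π g ∈ Subgroup.normalizer ((D.map π : Subgroup Y) : Set Y) := by
    intro g hg
    rw [← comap_norm (p := p) hz hp hD] at hg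
    exact hg
  have hcd : ∀ g, π g ∈ CD (D.map π) → g ∈ CD D := by
    intro g hg
    rw [← comap_CD (p := p) hz hp hD]
    exact hg
  rcases h with h | ⟨h0, h1, h2⟩
  · left
    refine isCyclic_of_injective (G' := ↥(D.map π)) (π.subgroupMap D) ?_
    rw [injective_iff_map_eq_one]
    intro x hx
    exact Subtype.ext (hinj x x.2 (congrArg Subtype.val hx))
  · right
    refine ⟨h0, fun x hx y hy => ?_, ?_⟩
    · have h3 := h1 (π x) ⟨x, hx, rfl⟩ (π y) ⟨y, hy, rfl⟩
      have h4 : x * y * x⁻¹ * y⁻¹ ∈ D :=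
        D.mul_mem (D.mul_mem (D.mul_mem hx hy) (D.inv_mem hx)) (D.inv_mem hy)
      have h5 := hinj _ h4 (by
        rw [map_mul, map_mul, map_mul, map_inv, map_inv, h3]
        group)
      calc x * y = (x * y * x⁻¹ * y⁻¹) * (y * x) := by group
        _ = y * x := by rw [h5, one_mul]
    · rw [au_map hs hz hp hD]
      rcases h2 with ⟨q, h2, h3⟩ | h2 | ⟨h2, h3⟩
      · obtain ⟨q', hq', h4⟩ := h2.of_map hz hp hD
        exact Or.inl ⟨q', h4, by omega⟩
      · exact Or.inr (Or.inl h2)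
      · refine Or.inr (Or.inr ⟨fun x hx y hy => hcd _ ?_, h3⟩)
        have h4 := h2 _ (hnm x hx) _ (hnm y hy)
        rwa [← map_mul, ← map_mul, ← map_inv, ← map_mul] at h4

end quot

theorem Sm.of_cg [Fact p.Prime] [Finite A] {D : Subgroup A} (hD : IsPGroup p D) {g : A}
    (h : Sm p (cg g D)) : Sm p D := by
  let π : A →* A := (MulAut.conj g).toMonoidHom
  have hπ : Function.Bijective π := (MulAut.conj g).bijective
  have hker : π.ker = ⊥ := (MonoidHom.ker_eq_bot_iff π).2 hπ.1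
  refine Sm.of_map (π := π) (p := p) hπ.2 (by rw [hker]; exact bot_le) ?_ hD h
  rw [hker, Subgroup.card_bot]
  exact (Fact.out : p.Prime).not_dvd_one

/-- **a small Sylow subgroup: all p-subgroups are small** -/
theorem SmSyl.all [Fact p.Prime] [Finite A] {P : Subgroup A} (hP : IsSyl p (⊤ : Subgroup A) P)
    (h : SmSyl p P) {D : Subgroup A} (hD : IsPGroup p D) : Sm p D := by
  obtain ⟨g, -, hg⟩ := hP.conj D le_top hD
  refine Sm.of_cg (g := g⁻¹) hD (h.mono hP ?_)
  intro x hx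
  rw [mem_cg, inv_inv] at hx
  have h1 := mem_cg.1 (hg hx)
  have h2 : g⁻¹ * (g * x * g⁻¹) * g = x := by group
  rwa [h2] at h1

end Pool.Agent.Lib.P0c8ca5.Ex
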