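import Mathlib
import Pool.Agent.Lib.P0c8ca5Ex.SD
import Pool.Agent.Lib.P0c8ca5T.Rad

/-!
# SE: defect groups are radical, also modulo a central subgroup of order prime to `p`
-/

set_option linter.unusedSectionVars false

namespace Pool.Agent.Lib.P0c8ca5.Ex

open Cy

/-- `D = O_p(N(D))` -/
def Rdl (p : ℕ) {A : Type*} [Group A] (D : Subgroup A) : Prop :=
  ∀ R : Subgroup A, IsPGroup p R → R ≤ Subgroup.normalizer (D : Set A) →
    Subgroup.normalizer (D : Set A) ≤ Subgroup.normalizer (R : Set A) → R ≤ D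

theorem Rdl.of_defect {p : ℕ} [Fact p.Prime] {k : Type*} [Field k] [IsAlgClosed k] [CharP k p]
    {A : Type*} [Group A] [Finite A] {b : MonoidAlgebra k A} {D : Subgroup A}
    (hb : IsBlock (⊤ : Subgroup A) b) (hD : IsDefectGroup p (⊤ : Subgroup A) b D) : Rdl p D := by
  have : Fintype A := Fintype.ofFinite A
  intro R hR hRN hNR
  have hinv : InvBy ⊤ b := hb.invBy
  have hDN : CD D ≤ Subgroup.normalizer (D : Set A) := CD_le_norm D
  set c := cS D b with hc
  have hcf : c ∈ fixAlg k (Subgroup.normalizer (D : Set A)) (Subgroup.normalizer (D : Set A)) := by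
    refine mem_fixAlg.2 ⟨?_, resS_invBy ?_ (hinv.mono le_top)⟩
    · intro x hx
      by_contra h0
      exact hx (coeff_resS_of_notMem _ fun h1 => h0 (hDN h1))
    · intro x hx
      have h1 : cg x D = D := cg_eq_self_iff.2 hx
      rw [← cg_eq_self_iff, Blk2A.cg_centralizer, h1]
  have hcc : c * c = c := by
    rw [hc, cS, ← resS_mul hD.isPGroup (hinv.mono le_top) (hinv.mono le_top), hb.idem]
  have h1 := Ps.cS_eq_self hRN hNR hR hcf hcc
  obtain ⟨x, hx, hx0⟩ := hD.br
  have h2 : c.coeff x ≠ 0 := by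
    rw [hc, cS, coeff_resS_of_mem _ hx]
    exact hx0
  have h3 : x ∈ Subgroup.centralizer (R : Set A) := by
    by_contra h4
    apply h2
    rw [← h1]
    exact coeff_resS_of_notMem _ h4
  have h5 : x ∈ Subgroup.centralizer ((D ⊔ R : Subgroup A) : Set A) := by
    rw [Subgroup.mem_centralizer_iff]
    have h6 : D ⊔ R ≤ Subgroup.centralizer ({x} : Set A) := by
      refine sup_le (fun y hy => ?_) fun y hy => ?_
      · rw [Subgroup.mem_centralizer_singleton_iff]
        exact Subgroup.mem_centralizer_iff.1 hx y hy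
      · rw [Subgroup.mem_centralizer_singleton_iff]
        exact Subgroup.mem_centralizer_iff.1 h3 y hy
    intro y hy
    have h7 := h6 hy
    rw [Subgroup.mem_centralizer_singleton_iff] at h7
    exact h7
  have h8 : D ⊔ R = D := hD.max _ le_top (IsPGroup.to_sup_of_normal_left' hD.isPGroup hR hRN)
    ⟨x, h5, hx0⟩ le_sup_left
  rw [← h8]
  exact le_sup_right

theorem Rdl.map {p : ℕ} [Fact p.Prime] {A : Type*} [Group A] [Finite A] {Y : Type*} [Group Y]
    {π : A →* Y} (hs : Function.Surjective π) (hz : π.ker ≤ Subgroup.center A)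
    (hp : ¬ p ∣ Nat.card π.ker) {D : Subgroup A} (hD : IsPGroup p D) (h : Rdl p D) :
    Rdl p (D.map π) := by
  intro R' hR' h1 h2
  obtain ⟨R, hR⟩ := exists_isSyl (p := p) (R'.comap π)
  have hRT : R ≤ R'.comap π := hR.le
  have hmap : R.map π = R' := by
    have h4 : (R.map π).relIndex R' ∣ R.relIndex (R'.comap π) := by
      have h5 := Subgroup.relIndex_map_map π R (R'.comap π)
      rw [Subgroup.map_comap_eq_self_of_surjective hs] at h5
      have hk : π.ker ≤ R'.comap π := fun x hx => by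
        rw [Subgroup.mem_comap, MonoidHom.mem_ker.1 hx]
        exact one_mem _
      rw [h5, sup_eq_left.2 hk]
      exact Subgroup.relIndex_dvd_of_le_left _ le_sup_left
    have h6 : (R.map π).relIndex R' = 1 := by
      have : Finite Y := Finite.of_surjective π hs
      obtain ⟨n, hn⟩ := IsPGroup.iff_card.1 hR'
      have h7 := Subgroup.relIndex_dvd_card (R.map π) R'
      rw [hn] at h7
      obtain ⟨m, -, hm⟩ := (Nat.dvd_prime_pow (Fact.out : p.Prime)).1 h7
      rcases Nat.eq_zero_or_pos m with h8 | h8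
      · rw [hm, h8, pow_zero]
      · exfalso
        apply hR.ndvd
        refine dvd_trans ?_ h4
        rw [hm]
        exact dvd_pow_self p h8.ne'
    refine le_antisymm ?_ (Subgroup.relIndex_eq_one.1 h6)
    rw [Subgroup.map_le_iff_le_comap]
    exact hRT
  have hpel : ∀ x ∈ R'.comap π, (∃ n : ℕ, x ^ p ^ n = 1) → x ∈ R := by
    rintro x hx ⟨n, hn⟩
    have h4 : π x ∈ R.map π := by
      rw [hmap]
      exact hx
    obtain ⟨d, hd, hdx⟩ := h4
    obtain ⟨m, hm⟩ := hR.isPGroup ⟨d, hd⟩
    have hm' : d ^ p ^ m = 1 := congrArg Subtype.val hm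
    have hk : d⁻¹ * x ∈ π.ker := by
      rw [MonoidHom.mem_ker, map_mul, map_inv, hdx, inv_mul_cancel]
    have hc := Subgroup.mem_center_iff.1 (hz hk)
    have h1 : Commute d x := by
      have h3 : x = d * (d⁻¹ * x) := by group
      have h4 : Commute d (d⁻¹ * x) := hc d
      rw [h3]
      exact (Commute.refl d).mul_right h4
    have h2 : (d⁻¹ * x) ^ p ^ (m + n) = 1 := by
      rw [(h1.inv_left).mul_pow, inv_pow, pow_add, pow_mul, hm', one_pow, inv_one, one_mul,
        mul_comm, pow_mul, hn, one_pow]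
    have h3 : d⁻¹ * x = 1 := by
      have h4 : IsPGroup p (Subgroup.zpowers (d⁻¹ * x)) := by
        intro y
        obtain ⟨j, hj⟩ := y.2
        refine ⟨m + n, Subtype.ext ?_⟩
        rw [Subgroup.coe_pow, ← hj, Subgroup.coe_one]
        change ((d⁻¹ * x) ^ j) ^ p ^ (m + n) = 1
        rw [← zpow_natCast, ← zpow_mul, mul_comm, zpow_mul, zpow_natCast, h2, one_zpow]
      exact inj_on_of hp h4 (Subgroup.mem_zpowers _) hk
    have h5 : x = d * (d⁻¹ * x) := by group
    rw [h5, h3, mul_one]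
    exact hd
  have hRN : R ≤ Subgroup.normalizer (D : Set A) := by
    rw [← comap_norm (p := p) hz hp hD]
    exact fun x hx => Subgroup.mem_comap.2 (h1 (hRT hx))
  have hkey : ∀ g ∈ Subgroup.normalizer (D : Set A), ∀ x ∈ R, g * x * g⁻¹ ∈ R := by
    intro g hg x hx
    refine hpel _ ?_ ?_
    · rw [← comap_norm (p := p) hz hp hD] at hg
      have h3 := h2 hg
      rw [Subgroup.mem_comap, map_mul, map_mul, map_inv]
      exact (Subgroup.mem_normalizer_iff.1 h3 (π x)).1 (hRT hx)
    · obtain ⟨n, hn⟩ := hR.isPGroup ⟨x, hx⟩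
      have h4 : x ^ p ^ n = 1 := congrArg Subtype.val hn
      exact ⟨n, by rw [conj_pow, h4, mul_one, mul_inv_cancel]⟩
  have h3 : R ≤ D := by
    refine h R hR.isPGroup hRN ?_
    intro g hg
    rw [Subgroup.mem_normalizer_iff]
    intro x
    refine ⟨hkey g hg x, fun hx => ?_⟩
    have h4 := hkey g⁻¹ (Subgroup.inv_mem _ hg) _ hx
    have h5 : g⁻¹ * (g * x * g⁻¹) * g⁻¹⁻¹ = x := by group
    rwa [h5] at h4
  rw [← hmap]
  exact Subgroup.map_mono h3

end Pool.Agent.Lib.P0c8ca5.Ex
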