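import Mathlib
import Pool.Agent.Lib.P0c8ca5Ex.SB
import Pool.Agent.Lib.P0c8ca5Ex.SE
import Pool.Agent.Lib.P0c8ca5Ex.Cov
import Pool.Agent.Lib.P0c8ca5Ex.Fin
import Pool.Agent.Lib.P0c8ca5Y.LcR4
import Pool.Agent.Lib.P0c8ca5S.BrUp

/-!
# SC: Navarro's conjecture for the groups all of whose almost simple sections have Sylow
p-subgroups with small automizers

* `baw_small`: the weight conjecture for a block with a noncyclic small defect group;
* `SmallCond.red`: the reduction to almost quasi-simple groups;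
* `small_all`: blockwise form; `small_global`: all blocks.
-/

set_option linter.unusedSectionVars false

namespace Pool.Agent.Lib.P0c8ca5.Ex

open MonoidAlgebra

universe u v

section
variable {p : ℕ} [Fact p.Prime] {k : Type v} [Field k] [IsAlgClosed k] [CharP k p]

theorem exists_root {A : Type u} [Group A] [Fintype A] {b : MonoidAlgebra k A} {D : Subgroup A}
    (hb : IsBlock (⊤ : Subgroup A) b) (hD : IsDefectGroup p (⊤ : Subgroup A) b D)
    (hcom : ∀ x ∈ D, ∀ y ∈ D, x * y = y * x) : ∃ f, Root p b D f := by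
  have hinv : InvBy ⊤ b := hb.invBy
  have hm : resS (CD D : Set A) b ∈ fixAlg k (CD D) (CD D) :=
    mem_fixAlg.2 ⟨LocAux.resS_sp _ _, LocAux.resS_inv le_rfl (hinv.mono le_top)⟩
  have hi : resS (CD D : Set A) b * resS (CD D : Set A) b = resS (CD D : Set A) b := by
    rw [← resS_CD_mul le_rfl hD.isPGroup (hinv.mono le_top) (hinv.mono le_top), hb.idem]
  have h0 : resS (CD D : Set A) b ≠ 0 := by
    obtain ⟨x, hx, hx0⟩ := hD.br
    intro h
    apply hx0
    rw [← coeff_resS_of_mem _ (show x ∈ (CD D : Set A) from hx), h, coeff_zero, Finsupp.zero_apply]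
  obtain ⟨f, hf, hfb⟩ := Ps.exists_block_le hm h0 hi
  refine ⟨f, hb, hD, hcom, hf, ?_⟩
  rw [commute_of (K := CD D) (LocAux.resS_sp _ _) hf.invBy]
  exact hfb

theorem eN_dvd {A : Type u} [Group A] [Finite A] {D : Subgroup A} {f : MonoidAlgebra k A}
    (hf : IsBlock (CD D) f) : eN D f ∣ au D := by
  unfold eN au
  rw [← Subgroup.relIndex_mul_relIndex _ _ _ (CD_le_St hf) (fun _ hx => hx.1)]
  exact dvd_mul_right _ _

theorem navarro_of_gap {A : Type u} [Group A] [Fintype A] {b : MonoidAlgebra k A}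
    (hb : IsBlock (⊤ : Subgroup A) b) (h : gap p (⊤ : Subgroup A) ⊤ b = 0) :
    NavarroEq p ⊤ ⊤ b := by
  refine (navarroEq_iff_gap (p := p) (le_refl (⊤ : Subgroup A)) ?_ (fun x _ =>
    ⟨0, Subgroup.mem_top _⟩) hb hb.invBy).2 h
  intro x _
  rw [Subgroup.mem_normalizer_iff]
  intro y
  simp

/-- **the weight conjecture for a noncyclic small defect group** -/
theorem baw_small {A : Type u} [Group A] [Finite A] {b : MonoidAlgebra k A} {D : Subgroup A}
    (hb : IsBlock (⊤ : Subgroup A) b) (hD : IsDefectGroup p (⊤ : Subgroup A) b D)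
    (hnc : ¬ IsCyclic D) (hs : Sm p D) : NavarroEq p ⊤ ⊤ b := by
  have : Fintype A := Fintype.ofFinite A
  rcases hs with hs | ⟨hp2, hcom, hs⟩
  · exact absurd hs hnc
  obtain ⟨f, hr⟩ := exists_root hb hD hcom
  have hdvd := eN_dvd hr.fblk
  have hle := Nat.le_of_dvd (Nat.pos_of_ne_zero (au_ne D)) hdvd
  refine navarro_of_gap hb ?_
  rcases hs with ⟨q, ⟨V, hVq, hV, hc⟩, hs⟩ | hs | ⟨hc, hs⟩
  · exact gap_zero_lt hr (by omega) (l_lt_cover hp2 hr V hV
      (fun g hg hgC u hu hu1 hgu => hc g hg.1 hgC u hu hu1 hgu) (by omega))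
  · exact gap_zero_lt hr (by omega) (l_lt_half hp2 hr (by omega))
  · have hlen := length_of_dvd hdvd (au_ne D)
    refine gap_zero_lt hr (by omega) (l_lt_comm hp2 hr (fun x hx y hy => hc x hx.1 y hy.1) ?_)
    omega

end

/-- the condition on `K`, its normal subgroup `M` and the set `𝓔` of subgroups -/
def SmallCond (p : ℕ) {Γ : Type u} [Group Γ] (K M : Subgroup Γ) (𝓔 : Set (Subgroup Γ)) : Prop :=
  M ≤ K ∧ K ≤ Subgroup.normalizer (M : Set Γ) ∧ Ps.PSolv p ↥(sec K M) ∧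
    ∀ (Y : Type u) [Group Y] [Finite Y], Alm p Y → ∀ (J : Subgroup Γ) (f : ↥J →* Y), J ≤ K →
      Function.Surjective f → ∀ D : Subgroup Y, IsPGroup p D → Rdl p D →
        (∃ E ∈ 𝓔, D ≤ ((E ⊓ M).subgroupOf J).map f) → Sm p D

theorem SmallCond.red {p : ℕ} [Fact p.Prime] {k : Type v} [Field k] [IsAlgClosed k] [CharP k p]
    {Γ : Type u} [Group Γ] {K M : Subgroup Γ} {𝓔 : Set (Subgroup Γ)} (h : SmallCond p K M 𝓔) :
    Yy.RedCond4 p k K 𝓔 := by
  obtain ⟨h1, h2, h3, h4⟩ := h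
  refine Gg.RedCondN.red (Gg.stepA p k) (Gg.stepB p k)
    ⟨M, h1, h2, h3, fun L _ _ b hb hq hnc hD => ?_⟩
  obtain ⟨D, hD', hDc⟩ := hnc
  obtain ⟨E, hE, L', _, π, hπ, hπZ, hπp, J, f, hf, hJ⟩ := hD D hD'
  have hR : Jj.Rd p L := ⟨hb.core, hb.central⟩
  let ρ := QuotientGroup.mk' (Subgroup.center L)
  have hρ : Function.Surjective ρ := QuotientGroup.mk'_surjective _
  have hker : π.ker ≤ ρ.ker := by
    rw [QuotientGroup.ker_mk']
    exact hπZ
  let g : L' →* L ⧸ Subgroup.center L := π.liftOfSurjective hπ ⟨ρ, hker⟩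
  have hg : ∀ x, g (π x) = ρ x := fun x => MonoidHom.liftOfRightInverse_comp_apply _ _ _ _ x
  have hgs : Function.Surjective g := by
    intro y
    obtain ⟨x, rfl⟩ := hρ y
    exact ⟨π x, hg x⟩
  let κ : ↥(J.map K.subtype) ≃* ↥J := (J.equivMapOfInjective _ K.subtype_injective).symm
  have hsm : Sm p (D.map ρ) := by
    refine h4 (L ⧸ Subgroup.center L) (alm_of hq) (J.map K.subtype)
      (g.comp (f.comp κ.toMonoidHom)) ?_ (hgs.comp (hf.comp κ.surjective)) (D.map ρ)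
      (hD'.isPGroup.map ρ) ((Rdl.of_defect hb.block hD').map hρ
        (by rw [QuotientGroup.ker_mk']) (by rw [QuotientGroup.ker_mk']; exact hR.not_dvd_center)
        hD'.isPGroup) ⟨E, hE, ?_⟩
    · rintro _ ⟨x, _, rfl⟩
      exact x.2
    · rintro _ ⟨d, hd, rfl⟩
      obtain ⟨j, hj, hjd⟩ := hJ ⟨d, hd, rfl⟩
      have h5 := Subgroup.mem_subgroupOf.1 (Subgroup.mem_subgroupOf.1 hj)
      refine ⟨κ.symm j, ?_, ?_⟩
      · exact Subgroup.mem_subgroupOf.2 h5
      · change g (f (κ (κ.symm j))) = _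
        rw [κ.apply_symm_apply, hjd, hg]
  have hsm' : Sm p D := hsm.of_map hρ (by rw [QuotientGroup.ker_mk'])
    (by rw [QuotientGroup.ker_mk']; exact hR.not_dvd_center) hD'.isPGroup
  exact baw_small hb.block hD' hDc hsm'

/-- Navarro's equality from the reduction condition, one overgroup -/
theorem red_one {p : ℕ} [Fact p.Prime] {k : Type v} [Field k] [IsAlgClosed k] [CharP k p]
    {Γ : Type u} [Group Γ] [Finite Γ] (G : Subgroup Γ) [G.Normal] (e : MonoidAlgebra k Γ)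
    (hΓ : IsPGroup p (Γ ⧸ G)) (he : IsBlock G e) (hinv : InvBy ⊤ e) (H : Subgroup Γ) (hGH : G ≤ H)
    (hyp : ∀ Q : Subgroup Γ, Yy.RedCond4 p k (G ⊓ Subgroup.normalizer (Q : Set Γ))
        {E | IsDefectGroup p ⊤ e E ∧ Q ≤ E}) :
    NavarroEq p G H e := by
  have : Fintype Γ := Fintype.ofFinite Γ
  have hp : ∀ x : Γ, ∃ n : ℕ, x ^ p ^ n ∈ G := by
    intro x
    obtain ⟨n, hn⟩ := hΓ (QuotientGroup.mk x)
    refine ⟨n, ?_⟩
    rwa [← QuotientGroup.mk_pow, QuotientGroup.eq_one_iff] at hn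
  apply Ps.navarro_loc_rad inferInstance hGH hp he hinv
  intro Q hQH hQp hGQ hrad hQE K hCK hKN c hsub hcen hcC hcinv hcc
  exact Yy.weq_redCond4 hQp hKN hCK hsub hcen hcC hcinv hcc (hyp Q)

theorem red_all {p : ℕ} [Fact p.Prime] {k : Type v} [Field k] [IsAlgClosed k] [CharP k p]
    {Γ : Type u} [Group Γ] [Finite Γ] (G : Subgroup Γ) [G.Normal] (e : MonoidAlgebra k Γ)
    (hΓ : IsPGroup p (Γ ⧸ G)) (he : IsBlock G e) (hinv : InvBy ⊤ e)
    (hyp : Yy.RedCond4 p k G {E | IsDefectGroup p G e E}) :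
    ∀ N H : Subgroup Γ, G ≤ N → N ≤ H → (∀ h ∈ H, ∀ n ∈ N, h * n * h⁻¹ ∈ N) →
      ∀ b : MonoidAlgebra k Γ, IsBlock N b → b * e ≠ 0 → NavarroEq p N H b := by
  have : Fintype Γ := Fintype.ofFinite Γ
  have hp : ∀ x : Γ, ∃ n : ℕ, x ^ p ^ n ∈ G := by
    intro x
    obtain ⟨n, hn⟩ := hΓ (QuotientGroup.mk x)
    refine ⟨n, ?_⟩
    rwa [← QuotientGroup.mk_pow, QuotientGroup.eq_one_iff] at hn
  have h1 : ∀ H, G ≤ H → NavarroEq p G H e := by
    intro H hGH
    apply red_one G e hΓ he hinv H hGH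
    intro Q
    refine hyp.mono inf_le_left ?_
    rintro E ⟨hE, _⟩
    obtain ⟨E', h5, h6⟩ := exists_defect (p := p) (N := G) (P := G ⊓ E) inf_le_left
      (hE.isPGroup.to_le inf_le_right) (RedAux.hasBr_mono inf_le_right hE.br)
    exact ⟨E', h5, h6⟩
  have key := equivariant_iff (p := p) hp he hinv
  intro N H hGN hNH hn b hb hbe
  have hbe' : b = e := by
    rcases hb.eq_or_mul_eq_zero (isBlock_up hGN hp he hinv) with h | h
    · exact h
    · exact absurd h hbe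
  rw [hbe']
  refine key.2 (key.1.1 h1) N H hGN hNH ?_
  intro g hg
  rw [Subgroup.mem_normalizer_iff]
  intro x
  refine ⟨hn g hg x, fun hx => ?_⟩
  have h2 := hn g⁻¹ (H.inv_mem hg) _ hx
  have e1 : g⁻¹ * (g * x * g⁻¹) * g⁻¹⁻¹ = x := by group
  rwa [e1] at h2

/-- **blockwise form** -/
theorem small_all {p : ℕ} [Fact p.Prime] {k : Type v} [Field k] [IsAlgClosed k] [CharP k p]
    {Γ : Type u} [Group Γ] [Finite Γ] (G : Subgroup Γ) [G.Normal] (e : MonoidAlgebra k Γ)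
    (hΓ : IsPGroup p (Γ ⧸ G)) (he : IsBlock G e) (hinv : InvBy ⊤ e) (M : Subgroup Γ)
    (hyp : SmallCond p G M {E | IsDefectGroup p G e E}) :
    ∀ N H : Subgroup Γ, G ≤ N → N ≤ H → (∀ h ∈ H, ∀ n ∈ N, h * n * h⁻¹ ∈ N) →
      ∀ b : MonoidAlgebra k Γ, IsBlock N b → b * e ≠ 0 → NavarroEq p N H b :=
  red_all G e hΓ he hinv hyp.red

/-- **all blocks of `G`** -/
theorem small_global {p : ℕ} [Fact p.Prime] {k : Type v} [Field k] [IsAlgClosed k] [CharP k p]
    {Γ : Type u} [Group Γ] [Finite Γ] (G : Subgroup Γ) [G.Normal] (e : MonoidAlgebra k Γ)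
    (hΓ : IsPGroup p (Γ ⧸ G)) (he : IsBlock G e) (hinv : InvBy ⊤ e)
    (hyp : ∀ (Y : Type u) [Group Y] [Finite Y], Alm p Y → ∀ (J : Subgroup Γ) (f : ↥J →* Y),
      J ≤ G → Function.Surjective f → ∃ P : Subgroup Y, IsSyl p (⊤ : Subgroup Y) P ∧ SmSyl p P) :
    ∀ N H : Subgroup Γ, G ≤ N → N ≤ H → (∀ h ∈ H, ∀ n ∈ N, h * n * h⁻¹ ∈ N) →
      ∀ b : MonoidAlgebra k Γ, IsBlock N b → b * e ≠ 0 → NavarroEq p N H b := by
  refine small_all G e hΓ he hinv G ⟨le_rfl, Subgroup.le_normalizer, Yy.psolv_sec_self p G, ?_⟩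
  intro Y _ _ hY J f hJ hf D hD _ _
  obtain ⟨P, hP, hs⟩ := hyp Y hY J f hJ hf
  exact hs.all hP hD

end Pool.Agent.Lib.P0c8ca5.Ex
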