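import Mathlib
import Pool.Agent.Lib.P0c8ca5Ex.SC

/-!
# SF: weakly small p-subgroups

* `auc p D`: the part prime to `p` of the order of `N(D) / C(D)`;
* `RkBig p r n D`: rank at most `r`, all cyclic factors of order greater than `p ^ n`;
* `Uneq p D`: rank at most two, not homocyclic;
* `Sw p D`, `SwSyl p P`: the conditions; `SwSyl.all`, `Sw.of_map`: inheritance.
-/

set_option linter.unusedSectionVars false

namespace Pool.Agent.Lib.P0c8ca5.Ex

variable {p : ℕ} {A : Type*} [Group A]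

/-- the part prime to `p` of the order of `N(D) / C(D)` -/
noncomputable def auc (p : ℕ) (D : Subgroup A) : ℕ := au D / p ^ (au D).factorization p

/-- rank at most `r`, all cyclic factors of order greater than `p ^ n` -/
def RkBig (p r n : ℕ) (D : Subgroup A) : Prop :=
  Nat.card {x : A // x ∈ D ∧ x ^ p = 1} ≤ p ^ r ∧ ∀ x ∈ D, x ^ p = 1 → ∃ y ∈ D, y ^ p ^ n = x

/-- rank at most two, not homocyclic -/
def Uneq (p : ℕ) (D : Subgroup A) : Prop :=
  Nat.card {x : A // x ∈ D ∧ x ^ p = 1} ≤ p ^ 2 ∧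
    ∃ m, (∃ y ∈ D, y ^ p ^ m ≠ 1) ∧ Nat.card D ≤ p ^ (2 * m + 1)

/-- the condition on a p-subgroup -/
def Sw (p : ℕ) (D : Subgroup A) : Prop :=
  IsCyclic D ∨ (p ≠ 2 ∧ (∀ x ∈ D, ∀ y ∈ D, x * y = y * x) ∧
    (auc p D < p ∨ (3 < p ∧ Uneq p D) ∨ (∃ n, RkBig p 2 n D ∧ auc p D < p ^ (n + 1)) ∨
      ∃ r j, RkBig p r ((r - 2) * j + 3) D ∧ (auc p D ≤ p ^ j ∨ j = r * (r - 1) / 2)))

/-- the condition on a Sylow p-subgroup -/
def SwSyl (p : ℕ) (P : Subgroup A) : Prop :=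
  IsCyclic P ∨ (p ≠ 2 ∧ (∀ x ∈ P, ∀ y ∈ P, x * y = y * x) ∧ au P < p)

theorem auc_le (p : ℕ) (D : Subgroup A) : auc p D ≤ au D := Nat.div_le_self _ _

/-- **inheritance** -/
theorem SwSyl.mono [Fact p.Prime] [Finite A] {P D : Subgroup A}
    (hP : IsSyl p (⊤ : Subgroup A) P) (hD : D ≤ P) (h : SwSyl p P) : Sw p D := by
  rcases h with h | ⟨h0, h1, h2⟩
  · left
    exact isCyclic_of_injective (Subgroup.inclusion hD) (Subgroup.inclusion_injective hD)
  · right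
    have hle := Nat.le_of_dvd (Nat.pos_of_ne_zero (au_ne P)) (au_dvd hP h1 hD)
    exact ⟨h0, fun x hx y hy => h1 x (hD hx) y (hD hy),
      Or.inl (lt_of_le_of_lt ((auc_le p D).trans hle) h2)⟩

section quot
variable {Y : Type*} [Group Y] {π : A →* Y}

theorem RkBig.of_map [Fact p.Prime] [Finite A] (hp : ¬ p ∣ Nat.card π.ker) {D : Subgroup A}
    (hD : IsPGroup p D) {r n : ℕ} (h : RkBig p r n (D.map π)) : RkBig p r n D := by
  have hinj : ∀ x ∈ D, π x = 1 → x = 1 := fun x hx h1 => inj_on_of hp hD hx h1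
  have hinj' : ∀ x ∈ D, ∀ y ∈ D, π x = π y → x = y := by
    intro x hx y hy h1
    have h2 := hinj (x * y⁻¹) (D.mul_mem hx (D.inv_mem hy)) (by rw [map_mul, map_inv, h1,
      mul_inv_cancel])
    exact mul_inv_eq_one.1 h2
  refine ⟨le_trans ?_ h.1, fun x hx hxp => ?_⟩
  · have : Finite {y : Y // y ∈ D.map π ∧ y ^ p = 1} := by
      refine Finite.Set.subset (π '' (D : Set A)) ?_
      rintro y ⟨⟨x, hx, rfl⟩, -⟩
      exact ⟨x, hx, rfl⟩
    refine Nat.card_le_card_of_injective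
      (fun x => (⟨π x.1, ⟨x.1, x.2.1, rfl⟩, by rw [← map_pow, x.2.2, map_one]⟩ :
        {y : Y // y ∈ D.map π ∧ y ^ p = 1})) ?_
    intro x y hxy
    exact Subtype.ext (hinj' _ x.2.1 _ y.2.1 (congrArg Subtype.val hxy))
  · obtain ⟨_, ⟨y, hy, rfl⟩, hyx⟩ := h.2 (π x) ⟨x, hx, rfl⟩ (by rw [← map_pow, hxp, map_one])
    refine ⟨y, hy, hinj' _ (D.pow_mem hy _) _ hx ?_⟩
    rw [map_pow, hyx]

theorem Uneq.of_map [Fact p.Prime] [Finite A] (hp : ¬ p ∣ Nat.card π.ker) {D : Subgroup A}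
    (hD : IsPGroup p D) (h : Uneq p (D.map π)) : Uneq p D := by
  obtain ⟨h1, m, ⟨_, ⟨y, hy, rfl⟩, hy1⟩, h2⟩ := h
  have h3 : RkBig p 2 0 (D.map π) := ⟨h1, fun x hx _ => ⟨x, hx, by rw [pow_zero, pow_one]⟩⟩
  refine ⟨(h3.of_map hp hD).1, m, ⟨y, hy, fun h4 => hy1 (by rw [← map_pow, h4, map_one])⟩, ?_⟩
  refine le_trans (le_of_eq ?_) h2
  refine Nat.card_congr (Equiv.ofBijective (π.subgroupMap D) ⟨?_, π.subgroupMap_surjective D⟩)
  rw [injective_iff_map_eq_one]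
  intro x hx
  exact Subtype.ext (inj_on_of hp hD x.2 (congrArg Subtype.val hx))

/-- **the image of `D` modulo a central subgroup of order prime to `p`** -/
theorem Sw.of_map [Fact p.Prime] [Finite A] (hs : Function.Surjective π)
    (hz : π.ker ≤ Subgroup.center A) (hp : ¬ p ∣ Nat.card π.ker) {D : Subgroup A}
    (hD : IsPGroup p D) (h : Sw p (D.map π)) : Sw p D := by
  have hinj : ∀ x ∈ D, π x = 1 → x = 1 := fun x hx h1 => inj_on_of hp hD hx h1
  have hau : auc p (D.map π) = auc p D := by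
    rw [auc, auc, au_map hs hz hp hD]
  rcases h with h | ⟨h0, h1, h2⟩
  · left
    refine isCyclic_of_injective (G' := ↥(D.map π)) (π.subgroupMap D) ?_
    rw [injective_iff_map_eq_one]
    intro x hx
    exact Subtype.ext (hinj x x.2 (congrArg Subtype.val hx))
  · right
    refine ⟨h0, fun x hx y hy => ?_, ?_⟩
    · have h3 := h1 (π x) ⟨x, hx, rfl⟩ (π y) ⟨y, hy, rfl⟩
      have h4 : x * y * x⁻¹ * y⁻¹ ∈ D :=
        D.mul_mem (D.mul_mem (D.mul_mem hx hy) (D.inv_mem hx)) (D.inv_mem hy)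
      have h5 := hinj _ h4 (by
        rw [map_mul, map_mul, map_mul, map_inv, map_inv, h3]
        group)
      calc x * y = (x * y * x⁻¹ * y⁻¹) * (y * x) := by group
        _ = y * x := by rw [h5, one_mul]
    · rw [hau] at h2
      rcases h2 with h2 | ⟨h2, h3⟩ | ⟨n, h2, h3⟩ | ⟨r, j, h2, h3⟩
      · exact Or.inl h2
      · exact Or.inr (Or.inl ⟨h2, h3.of_map hp hD⟩)
      · exact Or.inr (Or.inr (Or.inl ⟨n, h2.of_map hp hD, h3⟩))
      · exact Or.inr (Or.inr (Or.inr ⟨r, j, h2.of_map hp hD, h3⟩))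

end quot

theorem Sw.of_cg [Fact p.Prime] [Finite A] {D : Subgroup A} (hD : IsPGroup p D) {g : A}
    (h : Sw p (cg g D)) : Sw p D := by
  let π : A →* A := (MulAut.conj g).toMonoidHom
  have hπ : Function.Bijective π := (MulAut.conj g).bijective
  have hker : π.ker = ⊥ := (MonoidHom.ker_eq_bot_iff π).2 hπ.1
  refine Sw.of_map (π := π) (p := p) hπ.2 (by rw [hker]; exact bot_le) ?_ hD h
  rw [hker, Subgroup.card_bot]
  exact (Fact.out : p.Prime).not_dvd_one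

/-- **a small Sylow subgroup: all p-subgroups are small** -/
theorem SwSyl.all [Fact p.Prime] [Finite A] {P : Subgroup A} (hP : IsSyl p (⊤ : Subgroup A) P)
    (h : SwSyl p P) {D : Subgroup A} (hD : IsPGroup p D) : Sw p D := by
  obtain ⟨g, -, hg⟩ := hP.conj D le_top hD
  refine Sw.of_cg (g := g⁻¹) hD (h.mono hP ?_)
  intro x hx
  rw [mem_cg, inv_inv] at hx
  have h1 := mem_cg.1 (hg hx)
  have h2 : g⁻¹ * (g * x * g⁻¹) * g = x := by group
  rwa [h2] at h1

end Pool.Agent.Lib.P0c8ca5.Ex
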