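import Mathlib
import Pool.Agent.Lib.P0c8ca5Ex.YL

/-!
# ZAm: the extension of the rows for many regular characters (K2), pure part

* `ext_many` (pure): if the `E`-set `Λ` has `N ≥ 5`, `N ≥ |E| + 3` regular points in different orbits then integral vectors `M λ` whose
  differences have the Gram matrix of `Λ` have this Gram matrix after subtraction of one vector `C`. PROOF: `star5` for five of the
  points; `|M b|² = nn b b + 2 Z b` and `M b · M a = Z b + nn b a` for the regular points `a`; Bessel's inequality: `5 Z² ≤ 1 + 2 Z` for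
  regular `b`, so `Z b = 0`; then all `N` vectors are orthonormal and `N Z² ≤ |E| + 2 Z`, so `Z b = 0` for all `b`.
* `ext_three` (pure): the same for `E = 1`, `|Λ| = 3`.


-/

set_option linter.unusedSectionVars false

namespace Pool.Agent.Lib.P0c8ca5.Ex

open Finset

namespace ZLx

section
variable {I : Type*} [Fintype I]

/-- Bessel's inequality for integral vectors -/
theorem bessel {J : Type*} [Fintype J] [DecidableEq J] (x : J → I → ℤ)
    (hx : ∀ j k, ∑ i, x j i * x k i = if j = k then 1 else 0) (v : I → ℤ) :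
    ∑ j, (∑ i, v i * x j i) ^ 2 ≤ ∑ i, v i ^ 2 := by
  set c : J → ℤ := fun j => ∑ i, v i * x j i with hc
  have h1 : ∑ i, (v i - ∑ j, c j * x j i) ^ 2 = ∑ i, v i ^ 2 - ∑ j, c j ^ 2 := by
    have h2 : ∀ i, (v i - ∑ j, c j * x j i) ^ 2
        = v i ^ 2 - 2 * ∑ j, c j * (v i * x j i) + ∑ j, ∑ k, c j * c k * (x j i * x k i) := by
      intro i
      have h3 : (∑ j, c j * x j i) ^ 2 = ∑ j, ∑ k, c j * c k * (x j i * x k i) := by
        rw [sq, sum_mul_sum]
        exact sum_congr rfl fun j _ => sum_congr rfl fun k _ => by ring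
      have h4 : v i * ∑ j, c j * x j i = ∑ j, c j * (v i * x j i) := by
        rw [mul_sum]
        exact sum_congr rfl fun j _ => by ring
      rw [← h3, ← h4]
      ring
    rw [sum_congr rfl fun i _ => h2 i, sum_add_distrib, sum_sub_distrib, ← mul_sum]
    have h5 : ∑ i, ∑ j, c j * (v i * x j i) = ∑ j, c j ^ 2 := by
      rw [sum_comm]
      refine sum_congr rfl fun j _ => ?_
      rw [← mul_sum, sq]
    have h6 : ∑ i, ∑ j, ∑ k, c j * c k * (x j i * x k i) = ∑ j, c j ^ 2 := by
      rw [sum_comm]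
      refine sum_congr rfl fun j _ => ?_
      rw [sum_comm]
      have h7 : ∀ k, ∑ i, c j * c k * (x j i * x k i) = c j * c k * if j = k then 1 else 0 := by
        intro k
        rw [← mul_sum, hx]
      rw [sum_congr rfl fun k _ => h7 k, sum_eq_single j]
      · rw [if_pos rfl]
        ring
      · intro k _ hk
        rw [if_neg (Ne.symm hk), mul_zero]
      · intro h
        exact absurd (mem_univ j) h
    rw [h5, h6]
    ring
  have h2 : 0 ≤ ∑ i, (v i - ∑ j, c j * x j i) ^ 2 := sum_nonneg fun _ _ => sq_nonneg _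
  linarith

end

section
variable {Λ : Type*} [Fintype Λ] [DecidableEq Λ] {E : Type*} [Group E] [Fintype E]
  [MulAction E Λ] {I : Type*} [Fintype I]

theorem nn_le (a b : Λ) : nn E a b ≤ Fintype.card E := by
  unfold nn
  exact_mod_cast card_le_univ _

/-- polarization -/
theorem polar {M : Λ → I → ℤ}
    (hG : ∀ a b c d, ∑ i, (M a i - M b i) * (M c i - M d i)
      = nn E a c - nn E a d - nn E b c + nn E b d) (b c : Λ) :
    ∑ i, M b i ^ 2 + ∑ i, M c i ^ 2 - 2 * ∑ i, M b i * M c i
      = nn E b b - 2 * nn E b c + nn E c c := by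
  have h1 := hG b c b c
  rw [nn_symm E c b] at h1
  have h2 : ∑ i, (M b i - M c i) * (M b i - M c i)
      = ∑ i, M b i ^ 2 + ∑ i, M c i ^ 2 - 2 * ∑ i, M b i * M c i := by
    rw [mul_sum, ← sum_add_distrib, ← sum_sub_distrib]
    exact sum_congr rfl fun i _ => by ring
  rw [h2] at h1
  rw [h1]
  ring

theorem sub_gram {M : Λ → I → ℤ} (C : I → ℤ)
    (hG : ∀ a b c d, ∑ i, (M a i - M b i) * (M c i - M d i)
      = nn E a c - nn E a d - nn E b c + nn E b d) (a b c d : Λ) :
    ∑ i, ((M a i - C i) - (M b i - C i)) * ((M c i - C i) - (M d i - C i))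
      = nn E a c - nn E a d - nn E b c + nn E b d := by
  rw [← hG a b c d]
  exact sum_congr rfl fun i _ => by ring

/-- the normalised case -/
theorem many0 {N : ℕ} (hNe : Fintype.card E + 3 ≤ N) (a : Fin N → Λ)
    (ha1 : ∀ j, nn E (a j) (a j) = 1) (ha0 : ∀ j k, j ≠ k → nn E (a j) (a k) = 0)
    (M : Λ → I → ℤ)
    (hG : ∀ a b c d, ∑ i, (M a i - M b i) * (M c i - M d i)
      = nn E a c - nn E a d - nn E b c + nn E b d)
    (s : Fin 5 → Fin N)
    (h5 : ∀ j k, ∑ i, M (a (s j)) i * M (a (s k)) i = if j = k then 1 else 0) :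
    ∀ b c, ∑ i, M b i * M c i = nn E b c := by
  have hpol := polar hG
  have hnorm5 : ∀ j, ∑ i, M (a (s j)) i ^ 2 = 1 := by
    intro j
    have h1 := h5 j j
    rw [if_pos rfl] at h1
    rw [← h1]
    exact sum_congr rfl fun i _ => sq _
  -- `Z`
  set Z : Λ → ℤ := fun b => ∑ i, M b i * M (a (s 0)) i - nn E b (a (s 0)) with hZ
  have hZn : ∀ b, ∑ i, M b i ^ 2 = nn E b b + 2 * Z b := by
    intro b
    have h1 := hpol b (a (s 0))
    rw [hnorm5, ha1] at h1
    simp only [hZ]
    linarith
  have hZr : ∀ b c, ∑ i, M c i ^ 2 = 1 → nn E c c = 1 → ∑ i, M b i * M c i = Z b + nn E b c := by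
    intro b c h1 h2
    have h3 := hpol b c
    rw [h1, h2, hZn] at h3
    linarith
  have hbar : ∀ b c, nn E b c ≠ 0 → nn E c c = 1 → ∑ i, M c i ^ 2 = 1 → Z b = 0 := by
    intro b c h1 h2 h3
    obtain ⟨g, hg⟩ := nn_ne_zero E h1
    have h4 : ∀ i, M b i = M c i := by
      intro i
      rw [← hg]
      exact inv_of_gram M hG g c i
    have h5 := hZr b c h3 h2
    rw [sum_congr rfl fun i _ => by rw [h4 i, ← sq], h3, ← hg, nn_smul, h2] at h5
    rw [← hg]
    linarith
  -- regular points
  have hreg : ∀ b, nn E b b = 1 → ∑ i, M b i ^ 2 = 1 := by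
    intro b hb
    have hZ0 : Z b = 0 := by
      by_cases h : ∃ j, nn E b (a (s j)) ≠ 0
      · obtain ⟨j, hj⟩ := h
        exact hbar b _ hj (ha1 _) (hnorm5 j)
      · push Not at h
        have h1 := bessel (fun j => M (a (s j))) h5 (M b)
        rw [hZn, hb] at h1
        have h2 : ∀ j, (∑ i, M b i * M (a (s j)) i) ^ 2 = Z b ^ 2 := by
          intro j
          rw [hZr b _ (hnorm5 j) (ha1 _), h j, add_zero]
        rw [sum_congr rfl fun j _ => h2 j, sum_const, card_univ, Fintype.card_fin, nsmul_eq_mul]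
          at h1
        push_cast at h1
        have h3 : Z b < 1 := by nlinarith
        have h4 : -1 < Z b := by nlinarith
        omega
    rw [hZn, hb, hZ0]
    norm_num
  have hN1 : ∀ j, ∑ i, M (a j) i ^ 2 = 1 := fun j => hreg _ (ha1 j)
  have horth : ∀ j k, ∑ i, M (a j) i * M (a k) i = if j = k then 1 else 0 := by
    intro j k
    by_cases hjk : j = k
    · rw [if_pos hjk, ← hjk, ← hN1 j]
      exact sum_congr rfl fun i _ => (sq _).symm
    · rw [if_neg hjk]
      have h1 := hpol (a j) (a k)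
      rw [hN1, hN1, ha1, ha1, ha0 j k hjk] at h1
      linarith
  have hZ0 : ∀ b, Z b = 0 := by
    intro b
    by_cases h : ∃ j, nn E b (a j) ≠ 0
    · obtain ⟨j, hj⟩ := h
      exact hbar b _ hj (ha1 _) (hN1 j)
    · push Not at h
      have h1 := bessel (fun j => M (a j)) horth (M b)
      rw [hZn] at h1
      have h2 : ∀ j, (∑ i, M b i * M (a j) i) ^ 2 = Z b ^ 2 := by
        intro j
        rw [hZr b _ (hN1 j) (ha1 _), h j, add_zero]
      rw [sum_congr rfl fun j _ => h2 j, sum_const, card_univ, Fintype.card_fin, nsmul_eq_mul]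
        at h1
      have h3 := nn_le (E := E) b b
      have h4 : ((Fintype.card E : ℤ)) + 3 ≤ N := by exact_mod_cast hNe
      have h5 : (0 : ℤ) ≤ Fintype.card E := by positivity
      by_contra hne
      have h8 : 1 ≤ Z b ^ 2 := by
        have : 0 < Z b ^ 2 := by positivity
        omega
      have h9 : (N : ℤ) ≤ N * Z b ^ 2 := by nlinarith
      rcases lt_or_gt_of_ne hne with h6 | h6
      · linarith
      · have h7 : Z b ≤ Z b ^ 2 := by nlinarith
        nlinarith
  intro b c
  have h1 := hpol b c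
  rw [hZn, hZn, hZ0, hZ0] at h1
  linarith

/-- **the extension lemma for many regular points** -/
theorem ext_many {N : ℕ} (hN : 5 ≤ N) (hNe : Fintype.card E + 3 ≤ N) (a : Fin N → Λ)
    (ha1 : ∀ j, nn E (a j) (a j) = 1) (ha0 : ∀ j k, j ≠ k → nn E (a j) (a k) = 0)
    (M : Λ → I → ℤ)
    (hG : ∀ a b c d, ∑ i, (M a i - M b i) * (M c i - M d i)
      = nn E a c - nn E a d - nn E b c + nn E b d) :
    ∃ C : I → ℤ, ∀ b c, ∑ i, (M b i - C i) * (M c i - C i) = nn E b c := by
  classical
  set s : Fin 5 → Fin N := Fin.castLE hN with hs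
  have hsi : Function.Injective s := Fin.castLE_injective hN
  obtain ⟨C, ι, ε, hι, hε, hC⟩ := star5 (fun j => M (a (s j))) (by
    intro j k hjk
    have hjk' : s j ≠ s k := fun h => hjk (hsi h)
    have h1 := hG (a (s j)) (a (s k)) (a (s j)) (a (s k))
    rw [ha1, ha1, ha0 _ _ hjk', ha0 _ _ hjk'.symm] at h1
    simp_rw [sq]
    rw [h1]
    norm_num)
  refine ⟨C, many0 hNe a ha1 ha0 (fun b i => M b i - C i) (sub_gram C hG) s ?_⟩
  intro j k
  have h1 : ∀ j i, M (a (s j)) i - C i = if i = ι j then ε j else 0 := by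
    intro j i
    have h2 := hC j i
    rw [h2]
    ring
  have h3 : ∑ i, (M (a (s j)) i - C i) * (M (a (s k)) i - C i)
      = ∑ i, (if i = ι j then ε j else 0) * (if i = ι k then ε k else 0) :=
    sum_congr rfl fun i _ => by rw [h1, h1]
  change ∑ i, (M (a (s j)) i - C i) * (M (a (s k)) i - C i) = _
  rw [h3, sum_eq_single (ι j)]
  · rw [if_pos rfl]
    by_cases hjk : j = k
    · rw [if_pos hjk, hjk, if_pos rfl]
      rcases hε k with h | h <;> rw [h] <;> norm_num
    · rw [if_neg hjk, if_neg fun h => hjk (hι h), mul_zero]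
  · intro i _ hi
    rw [if_neg hi, zero_mul]
  · intro h
    exact absurd (mem_univ _) h

theorem nn_triv (h1 : Fintype.card E = 1) (b c : Λ) : nn E b c = if b = c then 1 else 0 := by
  have hs : Subsingleton E := Fintype.card_le_one_iff_subsingleton.1 h1.le
  have h2 : ∀ h : E, h • c = c := fun h => by rw [Subsingleton.elim h 1, one_smul]
  unfold nn
  split_ifs with hbc
  · rw [filter_true_of_mem fun h _ => by rw [h2, hbc], card_univ, h1]
    rfl
  · rw [filter_false_of_mem fun h _ => by rw [h2]; exact fun h3 => hbc h3.symm, card_empty]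
    rfl

/-- three points and trivial `E` -/
theorem ext_three (h1 : Fintype.card E = 1) (h3 : Fintype.card Λ = 3) (M : Λ → I → ℤ)
    (hG : ∀ a b c d, ∑ i, (M a i - M b i) * (M c i - M d i)
      = nn E a c - nn E a d - nn E b c + nn E b d) :
    ∃ C : I → ℤ, ∀ b c, ∑ i, (M b i - C i) * (M c i - C i) = nn E b c := by
  classical
  have hnn := nn_triv (E := E) (Λ := Λ) h1
  rw [← card_univ, card_eq_three] at h3
  obtain ⟨x, y, z, hxy, hxz, hyz, hu⟩ := h3
  set v : I → ℤ := fun i => M y i - M x i with hv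
  set w : I → ℤ := fun i => M z i - M x i with hw
  have hvv : ∑ i, v i ^ 2 = 2 := by
    have h4 := hG y x y x
    rw [hnn, hnn, hnn, hnn, if_pos rfl, if_neg hxy.symm, if_neg hxy, if_pos rfl] at h4
    simp_rw [sq]
    exact h4
  have hww : ∑ i, w i ^ 2 = 2 := by
    have h4 := hG z x z x
    rw [hnn, hnn, hnn, hnn, if_pos rfl, if_neg hxz.symm, if_neg hxz, if_pos rfl] at h4
    simp_rw [sq]
    exact h4
  have hvw : ∑ i, v i * w i = 1 := by
    have h4 := hG y x z x
    rw [hnn, hnn, hnn, hnn, if_neg hyz, if_neg hxy.symm, if_neg hxz, if_pos rfl] at h4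
    exact h4
  obtain ⟨hc, he⟩ := inner_one hvv hww hvw
  obtain ⟨t, ht⟩ := card_eq_one.1 hc
  have ht' : t ∈ (univ.filter fun i => v i ≠ 0) ∩ (univ.filter fun i => w i ≠ 0) := by
    rw [ht]
    exact mem_singleton_self t
  obtain ⟨htv, htw⟩ := mem_inter.1 ht'
  have htv' := (mem_filter.1 htv).2
  have htw' := (mem_filter.1 htw).2
  have htt := he t htv' htw'
  have hσ : v t * v t = 1 := by
    rcases (sq_two v hvv).1 t with h | h | h
    · exact absurd h htv'
    · rw [h]; norm_num
    · rw [h]; norm_num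
  set d : I → ℤ := fun i => if i = t then v t else 0 with hd
  have hds : ∀ f : I → ℤ, ∑ i, f i * d i = f t * v t := by
    intro f
    simp only [hd]
    exact sum_ind t (v t) f
  have hdd : ∑ i, d i * d i = 1 := by
    rw [hds]
    simp only [hd, if_true]
    exact hσ
  -- the Gram matrix
  have g : ∀ f f' : I → ℤ, ∑ i, (f i - d i) * (f' i - d i)
      = ∑ i, f i * f' i - f t * v t - f' t * v t + 1 := by
    intro f f'
    rw [← hds f, ← hds f', ← hdd, ← sum_sub_distrib, ← sum_sub_distrib, ← sum_add_distrib]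
    exact sum_congr rfl fun i _ => by ring
  have hv2 : ∑ i, v i * v i = 2 := by
    rw [← hvv]
    exact sum_congr rfl fun i _ => (sq _).symm
  have hw2 : ∑ i, w i * w i = 2 := by
    rw [← hww]
    exact sum_congr rfl fun i _ => (sq _).symm
  have hwv : ∑ i, w i * v i = 1 := by
    rw [← hvw]
    exact sum_congr rfl fun i _ => mul_comm _ _
  have htw2 : w t * v t = 1 := by rw [← htt]; exact hσ
  refine ⟨fun i => M x i + d i, fun b c => ?_⟩
  have key : ∀ b c : Λ, ∑ i, (M b i - (M x i + d i)) * (M c i - (M x i + d i))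
      = ∑ i, ((M b i - M x i) - d i) * ((M c i - M x i) - d i) := by
    intro b c
    exact sum_congr rfl fun i _ => by ring
  have hz0 : ∑ i : I, (0 : ℤ) = 0 := sum_const_zero
  have hmem : ∀ b : Λ, b = x ∨ b = y ∨ b = z := by
    intro b
    have h4 := mem_univ b
    rw [hu, mem_insert, mem_insert, mem_singleton] at h4
    exact h4
  have hxx : ∀ f : I → ℤ, ∑ i, ((M x i - M x i) - d i) * (f i - d i) = 1 - f t * v t := by
    intro f
    have h4 := g (fun _ => 0) f
    simp only [zero_mul, sum_const_zero] at h4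
    simp only [sub_self]
    rw [h4]
    ring
  have hxx' : ∀ f : I → ℤ, ∑ i, (f i - d i) * ((M x i - M x i) - d i) = 1 - f t * v t := by
    intro f
    rw [← hxx f]
    exact sum_congr rfl fun i _ => mul_comm _ _
  rw [key b c, hnn]
  rcases hmem b with hb | hb | hb <;> rcases hmem c with hc' | hc' | hc' <;> rw [hb, hc']
  · rw [if_pos rfl, hxx (fun i => M x i - M x i)]
    simp
  · rw [if_neg hxy, hxx v, hσ]
    norm_num
  · rw [if_neg hxz, hxx w, htw2]
    norm_num
  · rw [if_neg hxy.symm, hxx' v, hσ]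
    norm_num
  · rw [if_pos rfl, g v v, hv2, hσ]
    norm_num
  · rw [if_neg hyz, g v w, hvw, hσ, htw2]
    norm_num
  · rw [if_neg hxz.symm, hxx' w, htw2]
    norm_num
  · rw [if_neg hyz.symm, g w v, hwv, hσ, htw2]
    norm_num
  · rw [if_pos rfl, g w w, hw2, htw2]
    norm_num

end

end ZLx

end Pool.Agent.Lib.P0c8ca5.Ex
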