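import Mathlib
import Pool.Agent.Lib.P0c8ca5Ex.ZAm

/-!
# W1a: the extension lemma with a vector orthogonal to the differences

* `row_strict`: the bound of `row_of_gram` is strict if all the differences `M a - M b` are orthogonal to a vector
  without zero entries.
* `ext_deg` (pure): if the `E`-set `Λ` has three regular points in different orbits and `(|E| + 1)² ≤ |Λ|`, and all the
  differences are orthogonal to a vector without zero entries, then the integral vectors `M λ` whose differences have the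
  Gram matrix of `Λ` have this Gram matrix after subtraction of one vector `C`.
-/

set_option linter.unusedSectionVars false

namespace Pool.Agent.Lib.P0c8ca5.Ex

open Finset

namespace W1x

section
variable {I : Type*} [Fintype I]

/-- three integral vectors with pairwise squared distance 2 -/
theorem star_three [DecidableEq I] (x y z : I → ℤ) (hy : ∑ i, (y i - x i) ^ 2 = 2)
    (hz : ∑ i, (z i - x i) ^ 2 = 2) (h : ∑ i, (y i - x i) * (z i - x i) = 1) :
    ∃ (C : I → ℤ) (ι : Fin 3 → I) (ε : Fin 3 → ℤ), Function.Injective ι ∧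
      (∀ a, ε a = 1 ∨ ε a = -1) ∧
      ∀ a i, ![x, y, z] a i = C i + if i = ι a then ε a else 0 := by
  classical
  set v : I → ℤ := fun i => y i - x i with hv
  set w : I → ℤ := fun i => z i - x i with hw
  obtain ⟨hv1, hv2⟩ := sq_two v hy
  obtain ⟨hw1, hw2⟩ := sq_two w hz
  obtain ⟨hc, heq⟩ := inner_one hy hz h
  obtain ⟨i, hi⟩ := card_eq_one.1 hc
  have hiS : i ∈ (univ.filter fun i => v i ≠ 0) ∩ (univ.filter fun i => w i ≠ 0) := by
    rw [hi]
    exact mem_singleton_self i
  obtain ⟨hi1, hi2⟩ := mem_inter.1 hiS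
  obtain ⟨j, hj⟩ : ∃ j, (univ.filter fun i => v i ≠ 0).erase i = {j} := by
    apply card_eq_one.1
    rw [card_erase_of_mem hi1, hv2]
  obtain ⟨l, hl⟩ : ∃ l, (univ.filter fun i => w i ≠ 0).erase i = {l} := by
    apply card_eq_one.1
    rw [card_erase_of_mem hi2, hw2]
  have hj' : j ∈ (univ.filter fun i => v i ≠ 0).erase i := by rw [hj]; exact mem_singleton_self j
  have hl' : l ∈ (univ.filter fun i => w i ≠ 0).erase i := by rw [hl]; exact mem_singleton_self l
  have hji : j ≠ i := (mem_erase.1 hj').1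
  have hli : l ≠ i := (mem_erase.1 hl').1
  have hjl : j ≠ l := by
    intro h1
    have h2 : j ∈ (univ.filter fun i => v i ≠ 0) ∩ (univ.filter fun i => w i ≠ 0) :=
      mem_inter.2 ⟨(mem_erase.1 hj').2, h1 ▸ (mem_erase.1 hl').2⟩
    rw [hi] at h2
    exact hji (mem_singleton.1 h2)
  have hvi : v i ≠ 0 := (mem_filter.1 hi1).2
  have hwi : w i ≠ 0 := (mem_filter.1 hi2).2
  have hvw : v i = w i := heq i hvi hwi
  have hvj : v j ≠ 0 := (mem_filter.1 (mem_erase.1 hj').2).2
  have hwl : w l ≠ 0 := (mem_filter.1 (mem_erase.1 hl').2).2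
  have hv0 : ∀ n, n ≠ i → n ≠ j → v n = 0 := by
    intro n h1 h2
    by_contra h3
    have h4 : n ∈ (univ.filter fun i => v i ≠ 0).erase i :=
      mem_erase.2 ⟨h1, mem_filter.2 ⟨mem_univ _, h3⟩⟩
    rw [hj] at h4
    exact h2 (mem_singleton.1 h4)
  have hw0 : ∀ n, n ≠ i → n ≠ l → w n = 0 := by
    intro n h1 h2
    by_contra h3
    have h4 : n ∈ (univ.filter fun i => w i ≠ 0).erase i :=
      mem_erase.2 ⟨h1, mem_filter.2 ⟨mem_univ _, h3⟩⟩
    rw [hl] at h4
    exact h2 (mem_singleton.1 h4)
  refine ⟨fun n => x n + if n = i then v i else 0, ![i, j, l], ![-v i, v j, w l], ?_, ?_, ?_⟩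
  · intro a b hab
    fin_cases a <;> fin_cases b <;> simp_all
  · intro a
    fin_cases a
    · rcases hv1 i with h1 | h1 | h1
      · exact absurd h1 hvi
      · right
        simp [h1]
      · left
        simp [h1]
    · exact (hv1 j).resolve_left hvj
    · exact (hw1 l).resolve_left hwl
  · intro a n
    fin_cases a
    · change x n = x n + (if n = i then v i else 0) + (if n = i then -v i else 0)
      split_ifs <;> ring
    · change y n = x n + (if n = i then v i else 0) + (if n = j then v j else 0)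
      have h1 : y n = x n + v n := by rw [hv]; ring
      rw [h1]
      by_cases h2 : n = i
      · rw [if_pos h2, if_neg (fun h3 => hji (h3.symm.trans h2)), h2]
        ring
      · rw [if_neg h2]
        by_cases h3 : n = j
        · rw [if_pos h3, h3]
          ring
        · rw [if_neg h3, hv0 n h2 h3]
          ring
    · change z n = x n + (if n = i then v i else 0) + (if n = l then w l else 0)
      have h1 : z n = x n + w n := by rw [hw]; ring
      rw [h1]
      by_cases h2 : n = i
      · rw [if_pos h2, if_neg (fun h3 => hli (h3.symm.trans h2)), h2, hvw]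
        ring
      · rw [if_neg h2]
        by_cases h3 : n = l
        · rw [if_pos h3, h3]
          ring
        · rw [if_neg h3, hw0 n h2 h3]
          ring

/-- the arithmetic -/
theorem arith {L e s S n : ℤ} (he : 1 ≤ e) (h1 : L * s < (S + e) ^ 2) (h2 : S ^ 2 ≤ n * s)
    (h3 : n + 3 * e ≤ L) (h4 : S ≤ s) (h5 : -s ≤ S) (h6 : (e + 1) ^ 2 ≤ L) (hs : 0 ≤ s) :
    s = 0 := by
  by_contra hne
  have hs1 : 1 ≤ s := by omega
  have h7 : L * s < n * s + 2 * (s * e) + e ^ 2 := by nlinarith
  have h8 : (n + 3 * e) * s ≤ L * s := mul_le_mul_of_nonneg_right h3 hs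
  have h9 : e * s < e * e := by nlinarith
  have h10 : s < e := lt_of_mul_lt_mul_left h9 (by linarith)
  have h11 : (S + e) ^ 2 ≤ (s + e) ^ 2 := by nlinarith
  have h12 : (e + 1) ^ 2 * s ≤ L * s := mul_le_mul_of_nonneg_right h6 hs
  have h13 : 0 ≤ (s - 1) * (e ^ 2 - s) := by
    apply mul_nonneg
    · linarith
    · nlinarith
  nlinarith

end

section
variable {Λ : Type*} [Fintype Λ] [DecidableEq Λ] {E : Type*} [Group E] [Fintype E]
  [MulAction E Λ] {I : Type*} [Fintype I] {K : Type*} [Field K] [CharZero K]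

/-- the bound for the rows is strict -/
theorem row_strict [Nonempty Λ] (M : Λ → I → ℤ)
    (hG : ∀ a b c d, ∑ i, (M a i - M b i) * (M c i - M d i)
      = nn E a c - nn E a d - nn E b c + nn E b d) {d : I → K} (hd : ∀ i, d i ≠ 0)
    (hdM : ∀ a b, ∑ i, d i * ((M a i - M b i : ℤ) : K) = 0) (k : I) :
    (Fintype.card Λ : ℤ) * ∑ a, M a k ^ 2 - (∑ a, M a k) ^ 2
      < Fintype.card Λ * Fintype.card E := by
  classical
  obtain ⟨b0⟩ := (inferInstance : Nonempty Λ)
  have hinv := inv_of_gram M hG
  set L : ℤ := (Fintype.card Λ : ℤ) with hL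
  set e : ℤ := (Fintype.card E : ℤ) with he
  have hL0 : 0 < L := by
    rw [hL]
    have : Nonempty Λ := ⟨b0⟩
    exact_mod_cast Fintype.card_pos
  have he0 : 0 < e := by
    rw [he]
    exact_mod_cast Fintype.card_pos
  set S : ℤ := ∑ a, M a k with hS
  set D : Λ → ℤ := fun a => L * M a k - S with hD
  have hD0 : ∑ a, D a = 0 := by
    simp only [hD]
    rw [sum_sub_distrib, ← mul_sum, sum_const, card_univ, nsmul_eq_mul]
    ring
  set B : I → ℤ := fun j => ∑ a, D a * M a j with hB
  have hB' : ∀ j, B j = ∑ a, D a * (M a j - M b0 j) := by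
    intro j
    simp only [hB, mul_sub]
    rw [sum_sub_distrib, ← sum_mul, hD0, zero_mul, sub_zero]
  have hBk : B k = L * ∑ a, M a k ^ 2 - S ^ 2 := by
    simp only [hB, hD, sub_mul]
    rw [sum_sub_distrib, ← mul_sum, ← hS, sq S]
    congr 1
    rw [mul_sum]
    exact sum_congr rfl fun a _ => by ring
  have hDD : ∑ c, D c ^ 2 = L * B k := by
    rw [hBk]
    have h1 : ∀ c, D c ^ 2 = L ^ 2 * M c k ^ 2 - 2 * L * S * M c k + S ^ 2 := fun c => by
      simp only [hD]
      ring
    simp_rw [h1]
    rw [sum_add_distrib, sum_sub_distrib, ← mul_sum, ← mul_sum, sum_const, card_univ,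
      nsmul_eq_mul]
    ring
  have hBB : ∑ j, B j ^ 2 = e * (L * B k) := by
    have h1 : ∀ j, B j ^ 2 = ∑ a, ∑ c, D a * D c * ((M a j - M b0 j) * (M c j - M b0 j)) := by
      intro j
      rw [hB', sq, sum_mul_sum]
      exact sum_congr rfl fun a _ => sum_congr rfl fun c _ => by ring
    simp_rw [h1]
    have h2 : ∑ j, ∑ a, ∑ c, D a * D c * ((M a j - M b0 j) * (M c j - M b0 j))
        = ∑ a, ∑ c, D a * D c * (nn E a c - nn E a b0 - nn E b0 c + nn E b0 b0) := by
      rw [sum_comm]
      refine sum_congr rfl fun a _ => ?_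
      rw [sum_comm]
      refine sum_congr rfl fun c _ => ?_
      rw [← mul_sum, hG]
    rw [h2]
    have h3 : ∀ a, ∑ c, D a * D c * (nn E a c - nn E a b0 - nn E b0 c + nn E b0 b0)
        = D a * (∑ c, D c * nn E c a) - D a * ∑ c, D c * nn E b0 c := by
      intro a
      have h4 : ∀ c, D a * D c * (nn E a c - nn E a b0 - nn E b0 c + nn E b0 b0)
          = (D a * (D c * nn E c a) - D a * (D c * nn E b0 c))
            + D a * (nn E b0 b0 - nn E a b0) * D c := by
        intro c
        rw [nn_symm E a c]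
        ring
      simp_rw [h4]
      rw [sum_add_distrib, sum_sub_distrib, ← mul_sum, ← mul_sum, ← mul_sum, hD0, mul_zero,
        add_zero]
    simp_rw [h3]
    rw [sum_sub_distrib, ← sum_mul, hD0, zero_mul, sub_zero, ← hDD, mul_sum]
    refine sum_congr rfl fun a _ => ?_
    rw [sum_mul_nn]
    have h5 : ∀ h : E, D (h • a) = D a := fun h => by
      simp only [hD]
      rw [hinv]
    simp_rw [h5]
    rw [sum_const, card_univ, nsmul_eq_mul, ← he]
    ring
  rw [← hBk]
  by_cases hBk0 : B k = 0
  · rw [hBk0]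
    exact mul_pos hL0 he0
  -- there is a second entry which is not zero
  have hdB : ∑ j, d j * (B j : K) = 0 := by
    have h1 : ∀ j, d j * (B j : K) = ∑ a, (D a : K) * (d j * ((M a j - M b0 j : ℤ) : K)) := by
      intro j
      rw [hB', Int.cast_sum, mul_sum]
      refine sum_congr rfl fun a _ => ?_
      push_cast
      ring
    rw [sum_congr rfl fun j _ => h1 j, sum_comm]
    refine sum_eq_zero fun a _ => ?_
    rw [← mul_sum, hdM, mul_zero]
  obtain ⟨j, hjk, hj⟩ : ∃ j, j ≠ k ∧ B j ≠ 0 := by
    by_contra hcon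
    push Not at hcon
    rw [sum_eq_single k] at hdB
    · rcases mul_eq_zero.1 hdB with h | h
      · exact hd k h
      · exact hBk0 (by exact_mod_cast h)
    · intro j _ hj
      rw [hcon j hj, Int.cast_zero, mul_zero]
    · intro h
      exact absurd (mem_univ _) h
  have h6 : B k ^ 2 + B j ^ 2 ≤ ∑ j, B j ^ 2 := by
    have h7 : ∑ i ∈ ({k, j} : Finset I), B i ^ 2 ≤ ∑ i, B i ^ 2 :=
      sum_le_sum_of_subset_of_nonneg (subset_univ _) fun _ _ _ => sq_nonneg _
    rwa [sum_pair hjk.symm] at h7
  have h8 : 1 ≤ B j ^ 2 := by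
    have : 0 < B j ^ 2 := by positivity
    omega
  rw [hBB] at h6
  have h9 : 0 < e * (L * B k) := by nlinarith [sq_nonneg (B k)]
  have h10 : 0 < B k := by
    have h11 : 0 < (e * L) * B k := by linarith [h9, mul_assoc e L (B k)]
    exact pos_of_mul_pos_right h11 (by positivity)
  by_contra hcon
  push Not at hcon
  nlinarith

/-- the normalised case -/
theorem deg0 (a : Fin 3 → Λ) (ha1 : ∀ j, nn E (a j) (a j) = 1)
    (ha0 : ∀ j k, j ≠ k → nn E (a j) (a k) = 0) (hL : (Fintype.card E + 1) ^ 2 ≤ Fintype.card Λ)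
    (M : Λ → I → ℤ)
    (hG : ∀ a b c d, ∑ i, (M a i - M b i) * (M c i - M d i)
      = nn E a c - nn E a d - nn E b c + nn E b d) {d : I → K} (hd : ∀ i, d i ≠ 0)
    (hdM : ∀ a b, ∑ i, d i * ((M a i - M b i : ℤ) : K) = 0)
    (h3 : ∀ j k, ∑ i, M (a j) i * M (a k) i = if j = k then 1 else 0) :
    ∀ b c, ∑ i, M b i * M c i = nn E b c := by
  classical
  have : Nonempty Λ := ⟨a 0⟩
  have hpol := ZLx.polar hG
  have hnorm : ∀ j, ∑ i, M (a j) i ^ 2 = 1 := by
    intro j
    have h1 := h3 j j
    rw [if_pos rfl] at h1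
    rw [← h1]
    exact sum_congr rfl fun i _ => sq _
  -- `Z`
  set Z : Λ → ℤ := fun b => ∑ i, M b i * M (a 0) i - nn E b (a 0) with hZ
  have hZn : ∀ b, ∑ i, M b i ^ 2 = nn E b b + 2 * Z b := by
    intro b
    have h1 := hpol b (a 0)
    rw [hnorm, ha1] at h1
    simp only [hZ]
    linarith
  have hZr : ∀ b c, ∑ i, M c i ^ 2 = 1 → nn E c c = 1 → ∑ i, M b i * M c i = Z b + nn E b c := by
    intro b c h1 h2
    have h3 := hpol b c
    rw [h1, h2, hZn] at h3
    linarith
  have hbar : ∀ b c, nn E b c ≠ 0 → nn E c c = 1 → ∑ i, M c i ^ 2 = 1 → Z b = 0 := by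
    intro b c h1 h2 h3
    obtain ⟨g, hg⟩ := nn_ne_zero E h1
    have h4 : ∀ i, M b i = M c i := by
      intro i
      rw [← hg]
      exact inv_of_gram M hG g c i
    have h5 := hZr b c h3 h2
    rw [sum_congr rfl fun i _ => by rw [h4 i, ← sq], h3, ← hg, nn_smul, h2] at h5
    rw [← hg]
    linarith
  -- the product with `d`
  set κ : K := ∑ i, d i * (M (a 0) i : K) with hκ
  have hκb : ∀ b, ∑ i, d i * (M b i : K) = κ := by
    intro b
    have h1 := hdM b (a 0)
    rw [hκ, ← sub_eq_zero, ← sum_sub_distrib, ← h1]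
    exact sum_congr rfl fun i _ => by push_cast; ring
  obtain ⟨i0, hi1, hi0⟩ := norm_one (hnorm 0)
  have hκ0 : κ ≠ 0 := by
    rw [hκ, sum_eq_single i0]
    · refine mul_ne_zero (hd i0) ?_
      rcases hi1 with h | h <;> rw [h] <;> norm_num
    · intro j _ hj
      rw [hi0 j hj, Int.cast_zero, mul_zero]
    · intro h
      exact absurd (mem_univ _) h
  -- regular points
  have hreg : ∀ b, nn E b b = 1 → Z b = 0 := by
    intro b hb
    by_cases h : ∃ j, nn E b (a j) ≠ 0
    · obtain ⟨j, hj⟩ := h
      exact hbar b _ hj (ha1 _) (hnorm j)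
    · push Not at h
      have h1 := ZLx.bessel (fun j => M (a j)) h3 (M b)
      have h2 : ∀ j, ∑ i, M b i * M (a j) i = Z b := by
        intro j
        rw [hZr b _ (hnorm j) (ha1 _), h j, add_zero]
      rw [hZn, hb, sum_congr rfl fun j _ => by rw [h2 j], sum_const, card_univ, Fintype.card_fin,
        nsmul_eq_mul] at h1
      push_cast at h1
      have h4 : Z b < 2 := by nlinarith
      have h5 : -1 < Z b := by nlinarith
      have h6 : Z b = 0 ∨ Z b = 1 := by omega
      rcases h6 with h6 | h6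
      · exact h6
      · exfalso
        -- `M b` is the sum of the three
        have h7 : ∑ i, (M b i - ∑ j, M (a j) i) ^ 2 = 0 := by
          have h8 : ∀ i, (M b i - ∑ j, M (a j) i) ^ 2
              = M b i ^ 2 - 2 * ∑ j, M b i * M (a j) i + ∑ j, ∑ l, M (a j) i * M (a l) i := by
            intro i
            rw [← sum_mul_sum, ← mul_sum]
            ring
          rw [sum_congr rfl fun i _ => h8 i, sum_add_distrib, sum_sub_distrib, ← mul_sum,
            sum_comm, sum_congr rfl fun j _ => h2 j, hZn, hb, h6]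
          have h9 : ∑ i, ∑ j, ∑ l, M (a j) i * M (a l) i = 3 := by
            rw [sum_comm]
            have h10 : ∀ j, ∑ i, ∑ l, M (a j) i * M (a l) i = 1 := by
              intro j
              rw [sum_comm, sum_congr rfl fun l _ => h3 j l, sum_ite_eq univ j,
                if_pos (mem_univ _)]
            rw [sum_congr rfl fun j _ => h10 j]
            simp
          rw [h9]
          simp
        have h8 : ∀ i, M b i = ∑ j, M (a j) i := by
          intro i
          have h9 := (sum_eq_zero_iff_of_nonneg (fun i _ => sq_nonneg _)).1 h7 i (mem_univ i)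
          have h10 := pow_eq_zero_iff (two_ne_zero) |>.1 h9
          linarith
        have h9 := hκb b
        have h10 : ∑ i, d i * (M b i : K) = 3 * κ := by
          have h11 : ∀ i, d i * (M b i : K) = ∑ j, d i * (M (a j) i : K) := by
            intro i
            rw [h8 i, Int.cast_sum, mul_sum]
          rw [sum_congr rfl fun i _ => h11 i, sum_comm, sum_congr rfl fun j _ => hκb (a j)]
          simp
        rw [h10] at h9
        apply hκ0
        have h11 : (2 : K) * κ = 0 := by linear_combination h9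
        exact (mul_eq_zero.1 h11).resolve_left two_ne_zero
  -- the row of `i0`
  have hMi : ∀ b, M b i0 = M (a 0) i0 * (Z b + nn E b (a 0)) := by
    intro b
    rw [← hZr b _ (hnorm 0) (ha1 0), sum_eq_single i0]
    · rcases hi1 with h | h <;> rw [h] <;> ring
    · intro j _ hj
      rw [hi0 j hj, mul_zero]
    · intro h
      exact absurd (mem_univ _) h
  have hεε : M (a 0) i0 ^ 2 = 1 := by rcases hi1 with h | h <;> rw [h] <;> norm_num
  have hZnn : ∀ b j, Z b * nn E b (a j) = 0 := by
    intro b j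
    by_cases h : nn E b (a j) = 0
    · rw [h, mul_zero]
    · rw [hbar b _ h (ha1 j) (hnorm j), zero_mul]
  have hnn2 : ∀ b j, nn E b (a j) ^ 2 = nn E b (a j) := by
    intro b j
    rcases nn_reg E (a := b) (ha1 j) with h | ⟨h, -, -⟩ <;> rw [h] <;> norm_num
  set s : ℤ := ∑ b, Z b ^ 2 with hs
  set S : ℤ := ∑ b, Z b with hS
  set e : ℤ := (Fintype.card E : ℤ) with he
  have hrow := row_strict M hG hd hdM i0
  have hr1 : ∑ b, M b i0 ^ 2 = s + e := by
    have h1 : ∀ b, M b i0 ^ 2 = Z b ^ 2 + nn E b (a 0) := by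
      intro b
      rw [hMi b, mul_pow, hεε, one_mul]
      have h2 := hZnn b 0
      have h4 := hnn2 b 0
      linear_combination 2 * h2 + h4
    rw [sum_congr rfl fun b _ => h1 b, sum_add_distrib, sum_nn]
  have hr2 : (∑ b, M b i0) ^ 2 = (S + e) ^ 2 := by
    rw [sum_congr rfl fun b _ => hMi b, ← mul_sum, mul_pow, hεε, one_mul, sum_add_distrib, sum_nn]
  rw [hr1, hr2] at hrow
  -- the number of the points which are not regular
  set F : Finset Λ := univ.filter fun b => nn E b b ≠ 1 with hF
  have hFZ : ∀ b, b ∉ F → Z b = 0 := by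
    intro b hb
    apply hreg
    by_contra h
    exact hb (mem_filter.2 ⟨mem_univ _, h⟩)
  have hS2 : S ^ 2 ≤ (F.card : ℤ) * s := by
    have h1 : S = ∑ b ∈ F, Z b := by
      rw [hS]
      exact (sum_subset (subset_univ F) fun b _ hb => hFZ b hb).symm
    have h2 : s = ∑ b ∈ F, Z b ^ 2 := by
      rw [hs]
      refine (sum_subset (subset_univ F) fun b _ hb => ?_).symm
      rw [hFZ b hb]
      norm_num
    rw [h1, h2]
    exact sq_sum_le_card_mul_sum_sq
  have hF3 : (F.card : ℤ) + 3 * e ≤ Fintype.card Λ := by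
    have h1 : ∀ b, (if b ∈ F then (1 : ℤ) else 0) + ∑ j, nn E b (a j) ≤ 1 := by
      intro b
      by_cases h : ∃ j, nn E b (a j) ≠ 0
      · obtain ⟨j, hj⟩ := h
        rcases nn_reg E (a := b) (ha1 j) with h2 | ⟨h2, h4, h5⟩
        · exact absurd h2 hj
        · have hbF : b ∉ F := by
            intro h6
            exact (mem_filter.1 h6).2 h4
          rw [if_neg hbF, zero_add, sum_eq_single j]
          · exact h2.le
          · intro l _ hl
            rw [h5, ha0 j l hl.symm]
          · intro h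
            exact absurd (mem_univ _) h
      · push Not at h
        rw [sum_eq_zero fun j _ => h j]
        split_ifs <;> norm_num
    have h2 : ∑ b, ((if b ∈ F then (1 : ℤ) else 0) + ∑ j, nn E b (a j)) ≤ ∑ _b : Λ, (1 : ℤ) :=
      sum_le_sum fun b _ => h1 b
    rw [sum_add_distrib, sum_comm, sum_congr rfl fun j _ => sum_nn E (a j)] at h2
    simpa using h2
  have hSs : S ≤ s := by
    rw [hS, hs]
    exact sum_le_sum fun b _ => by nlinarith [sq_nonneg (Z b), Int.le_self_sq (Z b)]
  have hSs' : -s ≤ S := by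
    rw [hS, hs, ← sum_neg_distrib]
    refine sum_le_sum fun b _ => ?_
    have h1 := Int.le_self_sq (-Z b)
    rw [neg_sq] at h1
    linarith
  have he1 : 1 ≤ e := by
    rw [he]
    exact_mod_cast Fintype.card_pos
  have hs0 : s = 0 := by
    refine arith he1 (n := F.card) (L := Fintype.card Λ) (S := S) ?_ hS2 hF3 hSs hSs' ?_
      (sum_nonneg fun b _ => sq_nonneg _)
    · linarith
    · rw [he]
      exact_mod_cast hL
  have hZ0 : ∀ b, Z b = 0 := by
    intro b
    have h1 := (sum_eq_zero_iff_of_nonneg (fun b _ => sq_nonneg _)).1 hs0 b (mem_univ b)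
    exact pow_eq_zero_iff (two_ne_zero) |>.1 h1
  intro b c
  have h1 := hpol b c
  rw [hZn, hZn, hZ0, hZ0] at h1
  linarith

/-- **the extension lemma with a vector orthogonal to the differences** -/
theorem ext_deg (a : Fin 3 → Λ) (ha1 : ∀ j, nn E (a j) (a j) = 1)
    (ha0 : ∀ j k, j ≠ k → nn E (a j) (a k) = 0) (hL : (Fintype.card E + 1) ^ 2 ≤ Fintype.card Λ)
    (M : Λ → I → ℤ)
    (hG : ∀ a b c d, ∑ i, (M a i - M b i) * (M c i - M d i)
      = nn E a c - nn E a d - nn E b c + nn E b d) {d : I → K} (hd : ∀ i, d i ≠ 0)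
    (hdM : ∀ a b, ∑ i, d i * ((M a i - M b i : ℤ) : K) = 0) :
    ∃ C : I → ℤ, ∀ b c, ∑ i, (M b i - C i) * (M c i - C i) = nn E b c := by
  classical
  have hdist : ∀ j k, j ≠ k → ∑ i, (M (a j) i - M (a k) i) ^ 2 = 2 := by
    intro j k hjk
    have h1 := hG (a j) (a k) (a j) (a k)
    rw [ha1, ha1, ha0 _ _ hjk, ha0 _ _ hjk.symm] at h1
    simp_rw [sq]
    rw [h1]
    norm_num
  obtain ⟨C, ι, ε, hι, hε, hC⟩ := star_three (M (a 0)) (M (a 1)) (M (a 2))
    (hdist 1 0 (by decide)) (hdist 2 0 (by decide)) (by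
      have h1 := hG (a 1) (a 0) (a 2) (a 0)
      rw [h1, ha0 1 2 (by decide), ha0 1 0 (by decide), ha0 0 2 (by decide), ha1]
      norm_num)
  have hC' : ∀ j i, M (a j) i - C i = if i = ι j then ε j else 0 := by
    intro j i
    have h1 : M (a j) i = ![M (a 0), M (a 1), M (a 2)] j i := by
      fin_cases j <;> rfl
    rw [h1, hC j i]
    ring
  refine ⟨C, deg0 a ha1 ha0 hL (fun b i => M b i - C i) (ZLx.sub_gram C hG) hd
    (fun b c => ?_) ?_⟩
  · rw [← hdM b c]
    exact sum_congr rfl fun i _ => by push_cast; ring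
  · intro j k
    have h3 : ∑ i, (M (a j) i - C i) * (M (a k) i - C i)
        = ∑ i, (if i = ι j then ε j else 0) * (if i = ι k then ε k else 0) :=
      sum_congr rfl fun i _ => by rw [hC', hC']
    change ∑ i, (M (a j) i - C i) * (M (a k) i - C i) = _
    rw [h3, sum_eq_single (ι j)]
    · rw [if_pos rfl]
      by_cases hjk : j = k
      · rw [if_pos hjk, hjk, if_pos rfl]
        rcases hε k with h | h <;> rw [h] <;> norm_num
      · rw [if_neg hjk, if_neg fun h => hjk (hι h), mul_zero]
    · intro i _ hi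
      rw [if_neg hi, zero_mul]
    · intro h
      exact absurd (mem_univ _) h

end

end W1x

end Pool.Agent.Lib.P0c8ca5.Ex
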