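import Mathlib
import Pool.Agent.Lib.P0c8ca5Ex.ZAm

/-!
# ZAt: the extension of the rows, `N = |E| + 2` regular orbits and one more point

* `ext_thin` (pure): `Λ` has `N ≥ 5`, `N ≥ |E| + 2` regular points in different orbits, all points but
  one are regular, there are more than `N` rows and no row is constant. Then the integral vectors `M λ`
  have the Gram matrix of `Λ` after subtraction of one vector `C`.
-/

set_option linter.unusedSectionVars false

namespace Pool.Agent.Lib.P0c8ca5.Ex

open Finset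

namespace ZLx

section
variable {Λ : Type*} [Fintype Λ] [DecidableEq Λ] {E : Type*} [Group E] [Fintype E]
  [MulAction E Λ] {I : Type*} [Fintype I]

/-- a coordinate where finitely many unit vectors vanish -/
theorem exists_coord {N : ℕ} (hI : N < Fintype.card I) (v : Fin N → I → ℤ)
    (hv : ∀ j, ∑ i, v j i ^ 2 = 1) : ∃ i0, ∀ j, v j i0 = 0 := by
  classical
  by_contra hcon
  push Not at hcon
  choose j hj using hcon
  have h1 : Function.Injective j := by
    intro x y hxy
    by_contra hne
    have h2 : ∑ i ∈ {x, y}, v (j x) i ^ 2 ≤ ∑ i, v (j x) i ^ 2 :=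
      sum_le_sum_of_subset_of_nonneg (subset_univ _) fun i _ _ => sq_nonneg _
    rw [hv, sum_pair hne] at h2
    have h3 : 0 < v (j x) x ^ 2 := by
      have := hj x
      positivity
    have h4 : 0 < v (j x) y ^ 2 := by
      have := hj y
      rw [hxy]
      positivity
    omega
  have h2 := Fintype.card_le_of_injective j h1
  rw [Fintype.card_fin] at h2
  omega

/-- the normalised case -/
theorem thin0 {N : ℕ} (hNe : Fintype.card E + 2 ≤ N) (hI : N < Fintype.card I) {l0 : Λ}
    (hl0 : ∀ b, b ≠ l0 → nn E b b = 1) (a : Fin N → Λ)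
    (ha1 : ∀ j, nn E (a j) (a j) = 1) (ha0 : ∀ j k, j ≠ k → nn E (a j) (a k) = 0)
    (M : Λ → I → ℤ)
    (hG : ∀ a b c d, ∑ i, (M a i - M b i) * (M c i - M d i)
      = nn E a c - nn E a d - nn E b c + nn E b d)
    (hrow : ∀ i, ∃ b c, M b i ≠ M c i) (s : Fin 5 → Fin N)
    (h5 : ∀ j k, ∑ i, M (a (s j)) i * M (a (s k)) i = if j = k then 1 else 0) :
    ∀ b c, ∑ i, M b i * M c i = nn E b c := by
  have hpol := polar hG
  have hnorm5 : ∀ j, ∑ i, M (a (s j)) i ^ 2 = 1 := by
    intro j
    have h1 := h5 j j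
    rw [if_pos rfl] at h1
    rw [← h1]
    exact sum_congr rfl fun i _ => sq _
  -- `Z`
  set Z : Λ → ℤ := fun b => ∑ i, M b i * M (a (s 0)) i - nn E b (a (s 0)) with hZ
  have hZn : ∀ b, ∑ i, M b i ^ 2 = nn E b b + 2 * Z b := by
    intro b
    have h1 := hpol b (a (s 0))
    rw [hnorm5, ha1] at h1
    simp only [hZ]
    linarith
  have hZr : ∀ b c, ∑ i, M c i ^ 2 = 1 → nn E c c = 1 → ∑ i, M b i * M c i = Z b + nn E b c := by
    intro b c h1 h2
    have h3 := hpol b c
    rw [h1, h2, hZn] at h3
    linarith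
  have hbar : ∀ b c, nn E b c ≠ 0 → nn E c c = 1 → ∑ i, M c i ^ 2 = 1 → Z b = 0 := by
    intro b c h1 h2 h3
    obtain ⟨g, hg⟩ := nn_ne_zero E h1
    have h4 : ∀ i, M b i = M c i := by
      intro i
      rw [← hg]
      exact inv_of_gram M hG g c i
    have h5 := hZr b c h3 h2
    rw [sum_congr rfl fun i _ => by rw [h4 i, ← sq], h3, ← hg, nn_smul, h2] at h5
    rw [← hg]
    linarith
  -- regular points
  have hreg : ∀ b, nn E b b = 1 → ∑ i, M b i ^ 2 = 1 := by
    intro b hb
    have hZ0 : Z b = 0 := by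
      by_cases h : ∃ j, nn E b (a (s j)) ≠ 0
      · obtain ⟨j, hj⟩ := h
        exact hbar b _ hj (ha1 _) (hnorm5 j)
      · push Not at h
        have h1 := bessel (fun j => M (a (s j))) h5 (M b)
        rw [hZn, hb] at h1
        have h2 : ∀ j, (∑ i, M b i * M (a (s j)) i) ^ 2 = Z b ^ 2 := by
          intro j
          rw [hZr b _ (hnorm5 j) (ha1 _), h j, add_zero]
        rw [sum_congr rfl fun j _ => h2 j, sum_const, card_univ, Fintype.card_fin, nsmul_eq_mul]
          at h1
        push_cast at h1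
        have h3 : Z b < 1 := by nlinarith
        have h4 : -1 < Z b := by nlinarith
        omega
    rw [hZn, hb, hZ0]
    norm_num
  have hZreg : ∀ b, nn E b b = 1 → Z b = 0 := by
    intro b hb
    have h1 := hZn b
    rw [hreg b hb, hb] at h1
    omega
  have hN1 : ∀ j, ∑ i, M (a j) i ^ 2 = 1 := fun j => hreg _ (ha1 j)
  have horth : ∀ j k, ∑ i, M (a j) i * M (a k) i = if j = k then 1 else 0 := by
    intro j k
    by_cases hjk : j = k
    · rw [if_pos hjk, ← hjk, ← hN1 j]
      exact sum_congr rfl fun i _ => (sq _).symm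
    · rw [if_neg hjk]
      have h1 := hpol (a j) (a k)
      rw [hN1, hN1, ha1, ha1, ha0 j k hjk] at h1
      linarith
  -- the exceptional point
  have hZl : Z l0 = 0 := by
    by_cases h : ∃ j, nn E l0 (a j) ≠ 0
    · obtain ⟨j, hj⟩ := h
      exact hbar l0 _ hj (ha1 _) (hN1 j)
    · push Not at h
      have h1 := bessel (fun j => M (a j)) horth (M l0)
      rw [hZn] at h1
      have h2 : ∀ j, ∑ i, M l0 i * M (a j) i = Z l0 := by
        intro j
        rw [hZr l0 _ (hN1 j) (ha1 _), h j, add_zero]
      rw [sum_congr rfl fun j _ => by rw [h2 j], sum_const, card_univ, Fintype.card_fin,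
        nsmul_eq_mul] at h1
      have h3 := nn_le (E := E) l0 l0
      have h4 : ((Fintype.card E : ℤ)) + 2 ≤ N := by exact_mod_cast hNe
      have h5 : (0 : ℤ) ≤ Fintype.card E := by positivity
      by_contra hne
      -- `Z l0 = 1`
      have hZ1 : Z l0 = 1 := by
        have h8 : 1 ≤ Z l0 ^ 2 := by
          have : 0 < Z l0 ^ 2 := by positivity
          omega
        have h9 : (N : ℤ) ≤ N * Z l0 ^ 2 := by nlinarith
        have h10 : 1 ≤ Z l0 := by linarith
        by_contra h11
        have h12 : 2 ≤ Z l0 := by omega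
        have h13 : 2 * Z l0 ≤ Z l0 ^ 2 := by nlinarith
        have h14 : (N : ℤ) * (2 * Z l0) ≤ N * Z l0 ^ 2 := by nlinarith
        nlinarith
      rw [hZ1] at h1
      -- `M l0` is the sum of the vectors
      have h6 : ∀ i, M l0 i = ∑ j, M (a j) i := by
        have h7 : ∑ i, (M l0 i - ∑ j, M (a j) i) ^ 2 = 0 := by
          have e1 : ∑ i, M l0 i * ∑ j, M (a j) i = N := by
            have e2 : ∀ i, M l0 i * ∑ j, M (a j) i = ∑ j, M l0 i * M (a j) i := fun i =>
              mul_sum _ _ _
            rw [sum_congr rfl fun i _ => e2 i, sum_comm, sum_congr rfl fun j _ => h2 j, sum_const,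
              card_univ, Fintype.card_fin, nsmul_eq_mul, hZ1, mul_one]
          have e3 : ∑ i, (∑ j, M (a j) i) ^ 2 = N := by
            have e4 : ∀ i, (∑ j, M (a j) i) ^ 2 = ∑ j, ∑ k, M (a j) i * M (a k) i := fun i => by
              rw [sq, sum_mul_sum]
            rw [sum_congr rfl fun i _ => e4 i, sum_comm]
            have e5 : ∀ j, ∑ i, ∑ k, M (a j) i * M (a k) i = 1 := by
              intro j
              rw [sum_comm, sum_congr rfl fun k _ => horth j k, sum_ite_eq, if_pos (mem_univ _)]
            rw [sum_congr rfl fun j _ => e5 j, sum_const, card_univ, Fintype.card_fin,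
              nsmul_eq_mul, mul_one]
          have e6 : ∑ i, (M l0 i - ∑ j, M (a j) i) ^ 2
              = ∑ i, M l0 i ^ 2 - 2 * ∑ i, M l0 i * ∑ j, M (a j) i
                + ∑ i, (∑ j, M (a j) i) ^ 2 := by
            rw [mul_sum, ← sum_sub_distrib, ← sum_add_distrib]
            exact sum_congr rfl fun i _ => by ring
          have e7 : 0 ≤ ∑ i, (M l0 i - ∑ j, M (a j) i) ^ 2 := sum_nonneg fun _ _ => sq_nonneg _
          rw [hZn, hZ1, e1, e3] at e6
          linarith
        intro i
        have h8 := (sum_eq_zero_iff_of_nonneg fun _ _ => sq_nonneg _).1 h7 i (mem_univ i)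
        have h9 := pow_eq_zero_iff (two_ne_zero) |>.1 h8
        linarith
      -- a coordinate outside
      obtain ⟨i0, hi0⟩ := exists_coord hI (fun j => M (a j)) hN1
      have h7 : M l0 i0 = 0 := by
        rw [h6]
        exact sum_eq_zero fun j _ => hi0 j
      have h8 : ∀ b, M b i0 = 0 := by
        intro b
        by_cases hb : b = l0
        · rw [hb, h7]
        · have hb1 := hl0 b hb
          have h9 : ∑ i, M b i * M l0 i = ∑ j, nn E b (a j) := by
            have e1 : ∀ i, M b i * M l0 i = ∑ j, M b i * M (a j) i := fun i => by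
              rw [h6, mul_sum]
            rw [sum_congr rfl fun i _ => e1 i, sum_comm]
            refine sum_congr rfl fun j _ => ?_
            rw [hZr b _ (hN1 j) (ha1 _), hZreg b hb1, zero_add]
          have h10 := hpol b l0
          rw [hreg b hb1, hb1, hZn, hZ1, h9] at h10
          have h11 : 0 ≤ nn E b l0 := by
            unfold nn
            exact Int.natCast_nonneg _
          have h12 : ∃ j, nn E b (a j) ≠ 0 := by
            by_contra hcon
            push Not at hcon
            rw [sum_eq_zero fun j _ => hcon j] at h10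
            omega
          obtain ⟨j, hj⟩ := h12
          obtain ⟨g, hg⟩ := nn_ne_zero E hj
          rw [← hg, inv_of_gram M hG g (a j) i0, hi0]
      obtain ⟨b, c, hbc⟩ := hrow i0
      exact hbc (by rw [h8, h8])
  have hZ0 : ∀ b, Z b = 0 := by
    intro b
    by_cases hb : b = l0
    · rw [hb, hZl]
    · exact hZreg b (hl0 b hb)
  intro b c
  have h1 := hpol b c
  rw [hZn, hZn, hZ0, hZ0] at h1
  linarith

/-- **the extension lemma for `N = |E| + 2`** -/
theorem ext_thin {N : ℕ} (hN : 5 ≤ N) (hNe : Fintype.card E + 2 ≤ N) (hI : N < Fintype.card I)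
    {l0 : Λ} (hl0 : ∀ b, b ≠ l0 → nn E b b = 1) (a : Fin N → Λ)
    (ha1 : ∀ j, nn E (a j) (a j) = 1) (ha0 : ∀ j k, j ≠ k → nn E (a j) (a k) = 0)
    (M : Λ → I → ℤ)
    (hG : ∀ a b c d, ∑ i, (M a i - M b i) * (M c i - M d i)
      = nn E a c - nn E a d - nn E b c + nn E b d)
    (hrow : ∀ i, ∃ b c, M b i ≠ M c i) :
    ∃ C : I → ℤ, ∀ b c, ∑ i, (M b i - C i) * (M c i - C i) = nn E b c := by
  classical
  set s : Fin 5 → Fin N := Fin.castLE hN with hs
  have hsi : Function.Injective s := Fin.castLE_injective hN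
  obtain ⟨C, ι, ε, hι, hε, hC⟩ := star5 (fun j => M (a (s j))) (by
    intro j k hjk
    have hjk' : s j ≠ s k := fun h => hjk (hsi h)
    have h1 := hG (a (s j)) (a (s k)) (a (s j)) (a (s k))
    rw [ha1, ha1, ha0 _ _ hjk', ha0 _ _ hjk'.symm] at h1
    simp_rw [sq]
    rw [h1]
    norm_num)
  refine ⟨C, thin0 hNe hI hl0 a ha1 ha0 (fun b i => M b i - C i) (sub_gram C hG) ?_ s ?_⟩
  · intro i
    obtain ⟨b, c, hbc⟩ := hrow i
    exact ⟨b, c, fun h => hbc (by linarith)⟩
  intro j k
  have h1 : ∀ j i, M (a (s j)) i - C i = if i = ι j then ε j else 0 := by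
    intro j i
    have h2 := hC j i
    rw [h2]
    ring
  have h3 : ∑ i, (M (a (s j)) i - C i) * (M (a (s k)) i - C i)
      = ∑ i, (if i = ι j then ε j else 0) * (if i = ι k then ε k else 0) :=
    sum_congr rfl fun i _ => by rw [h1, h1]
  change ∑ i, (M (a (s j)) i - C i) * (M (a (s k)) i - C i) = _
  rw [h3, sum_eq_single (ι j)]
  · rw [if_pos rfl]
    by_cases hjk : j = k
    · rw [if_pos hjk, hjk, if_pos rfl]
      rcases hε k with h | h <;> rw [h] <;> norm_num
    · rw [if_neg hjk, if_neg fun h => hjk (hι h), mul_zero]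
  · intro i _ hi
    rw [if_neg hi, zero_mul]
  · intro h
    exact absurd (mem_univ _) h

end

end ZLx

end Pool.Agent.Lib.P0c8ca5.Ex
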