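import Mathlib
import Pool.Agent.Lib.P0c8ca5Ex.XB

/-!
# ZA: regular points of an `E`-set

`reg_pts`: regular points in different orbits; `card_reg_ge`: the number of the regular points.
-/

set_option linter.unusedSectionVars false

namespace Pool.Agent.Lib.P0c8ca5.Ex

open Finset

section
variable {Λ : Type*} [Fintype Λ] [DecidableEq Λ] {E : Type*} [Group E] [Fintype E]
  [MulAction E Λ]

/-- regular points in different orbits -/
theorem reg_pts (n : ℕ)
    (hN : n * Fintype.card E < (univ.filter fun a : Λ => nn E a a = 1).card) :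
    ∃ a : Fin (n + 1) → Λ, (∀ j, nn E (a j) (a j) = 1) ∧ ∀ j k, j ≠ k → nn E (a j) (a k) = 0 := by
  classical
  have key : ∀ k ≤ n + 1, ∃ A : Finset Λ, A.card = k ∧ (∀ a ∈ A, nn E a a = 1) ∧
      ∀ a ∈ A, ∀ b ∈ A, a ≠ b → nn E a b = 0 := by
    intro k
    induction k with
    | zero => intro _; exact ⟨∅, rfl, by simp, by simp⟩
    | succ k ih =>
      intro hk
      obtain ⟨A, hA1, hA2, hA3⟩ := ih (by omega)
      have h2 : ∃ c, nn E c c = 1 ∧ c ∉ A.biUnion fun a => univ.image fun h : E => h • a := by
        by_contra hcon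
        push Not at hcon
        have h3 : (univ.filter fun a : Λ => nn E a a = 1) ⊆
            A.biUnion fun a => univ.image fun h : E => h • a := by
          intro c hc
          exact hcon c (mem_filter.1 hc).2
        have h4 := card_le_card h3
        have h5 : (A.biUnion fun a => univ.image fun h : E => h • a).card ≤
            A.card * Fintype.card E := by
          refine card_biUnion_le_card_mul _ _ _ fun a _ => ?_
          exact card_image_le
        have h6 : (univ.filter fun a : Λ => nn E a a = 1).card ≤ n * Fintype.card E := by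
          refine (h4.trans h5).trans ?_
          exact Nat.mul_le_mul_right _ (by omega)
        omega
      obtain ⟨c, hc1, hc2⟩ := h2
      have hcA : c ∉ A := by
        intro h3
        exact hc2 (mem_biUnion.2 ⟨c, h3, mem_image.2 ⟨1, mem_univ _, one_smul E c⟩⟩)
      have hc3 : ∀ a ∈ A, nn E c a = 0 := by
        intro a ha
        by_contra h3
        obtain ⟨g, hg⟩ := nn_ne_zero E h3
        exact hc2 (mem_biUnion.2 ⟨a, ha, mem_image.2 ⟨g, mem_univ _, hg⟩⟩)
      refine ⟨insert c A, by rw [card_insert_of_notMem hcA, hA1], ?_, ?_⟩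
      · intro a ha
        rcases mem_insert.1 ha with rfl | ha
        · exact hc1
        · exact hA2 a ha
      · intro a ha b hb hab
        rcases mem_insert.1 ha with h8 | ha'
        · rcases mem_insert.1 hb with h9 | hb'
          · exact absurd (h8.trans h9.symm) hab
          · rw [h8]
            exact hc3 b hb'
        · rcases mem_insert.1 hb with h9 | hb'
          · rw [h9, nn_symm]
            exact hc3 a ha'
          · exact hA3 a ha' b hb' hab
  obtain ⟨A, hA1, hA2, hA3⟩ := key (n + 1) le_rfl
  let φ := (A.equivFinOfCardEq hA1).symm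
  refine ⟨fun j => (φ j : Λ), fun j => hA2 _ (φ j).2, fun j k hjk => hA3 _ (φ j).2 _ (φ k).2 ?_⟩
  intro h
  exact hjk (φ.injective (Subtype.ext h))

/-- the number of the regular points -/
theorem card_reg_ge {q : ℕ}
    (hfix : ∀ h : E, h ≠ 1 → q * (univ.filter fun a : Λ => h • a = a).card ≤ Fintype.card Λ) :
    q * Fintype.card Λ ≤ q * (univ.filter fun a : Λ => nn E a a = 1).card
      + (Fintype.card E - 1) * Fintype.card Λ := by
  have hsub := sum_nn_sub E hfix
  set N : ℤ := ((univ.filter fun a : Λ => nn E a a = 1).card : ℤ) with hN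
  have h1 : (Fintype.card Λ : ℤ) - N ≤ ∑ a : Λ, (nn E a a - 1) := by
    have h2 : (Fintype.card Λ : ℤ) - N = ∑ a : Λ, (if nn E a a = 1 then 0 else 1 : ℤ) := by
      have h3 : N = ∑ a : Λ, (if nn E a a = 1 then 1 else 0 : ℤ) := by
        rw [sum_boole, hN]
      have h4 : (Fintype.card Λ : ℤ) = ∑ a : Λ, (1 : ℤ) := by simp
      rw [h3, h4, ← sum_sub_distrib]
      refine sum_congr rfl fun a _ => ?_
      split_ifs <;> ring
    rw [h2]
    refine sum_le_sum fun a _ => ?_
    have h5 := nn_self_pos E a
    split_ifs with h6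
    · omega
    · omega
  have h2 : (q : ℤ) * ((Fintype.card Λ : ℤ) - N) ≤ ((Fintype.card E : ℤ) - 1) * Fintype.card Λ :=
    le_trans (mul_le_mul_of_nonneg_left h1 (by positivity)) hsub
  have h3 : 0 < Fintype.card E := Fintype.card_pos
  have h4 : ((q * Fintype.card Λ : ℕ) : ℤ) ≤ ((q * (univ.filter fun a : Λ => nn E a a = 1).card
      + (Fintype.card E - 1) * Fintype.card Λ : ℕ) : ℤ) := by
    push_cast [Nat.cast_sub h3]
    rw [← hN]
    linarith
  exact_mod_cast h4

end

end Pool.Agent.Lib.P0c8ca5.Ex
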