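import Mathlib
import Pool.Agent.Lib.P0c8ca5Ex.YL
import Pool.Agent.Lib.P0c8ca5Ex.ZA
import Pool.Agent.Lib.P0c8ca5Ex.ZAm

/-!
# ZB: the extension of the rows, any `|E|` (K2)

As `ext_rel`, `ext_uniq` (YL) with `Many` in place of `|E| + 3 ≤ p`; `ext_many`, `ext_three` (ZA), `uniq_pure`.
`many_of`: a numerical criterion for `Many`.
-/

set_option linter.unusedSectionVars false

namespace Pool.Agent.Lib.P0c8ca5.Ex

open Finset

section
variable {T : Type*} [CommGroup T] [Fintype T]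

/-- at least `5` and `|E| + 3` pairwise not conjugate regular characters of `T / R` (or `E = 1` and
`|T / R| = 3`) -/
def Many (K : Type*) [Field K] (E : Subgroup (MulAut T)) (R : Subgroup T) : Prop :=
  (∃ N : ℕ, 5 ≤ N ∧ Nat.card E + 3 ≤ N ∧ ∃ a : Fin N → (T →* Kˣ), (∀ j, eqP R (a j) 1) ∧
    (∀ j, ∀ α ∈ E, (∀ u, a j (α u) = a j u) → α = 1) ∧
    ∀ j k, j ≠ k → ∀ α ∈ E, ¬ ∀ u, a j (α u) = a k u) ∨
  (Nat.card E = 1 ∧ Fintype.card T = 3 * Nat.card R)

/-- the elements of `E` that fix the elements of `Q` -/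
def Fx (E : Subgroup (MulAut T)) (Q : Subgroup T) : Subgroup (MulAut T) where
  carrier := {α | α ∈ E ∧ ∀ t ∈ Q, α t = t}
  one_mem' := ⟨E.one_mem, fun _ _ => rfl⟩
  mul_mem' := by
    rintro α β ⟨h1, h2⟩ ⟨h3, h4⟩
    exact ⟨E.mul_mem h1 h3, fun t ht => by rw [MulAut.mul_apply, h4 t ht, h2 t ht]⟩
  inv_mem' := by
    rintro α ⟨h1, h2⟩
    exact ⟨E.inv_mem h1, fun t ht => by
      have h3 := h2 t ht
      conv_lhs => rw [← h3]
      exact MulAut.inv_apply_self _ _ _⟩

/-- the numerical conditions for the step at `Q` with the modulus `q` -/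
structure Big (K : Type*) [Field K] (p q : ℕ) (E : Subgroup (MulAut T)) (Q : Subgroup T) :
    Prop where
  many : Many K (Fx E Q) Q
  sq : (Nat.card (Fx E Q)) ^ 2 < q * (p - 1)
  dvd : Nat.card (Fx E Q) = 1 ∨ q * Nat.card Q ∣ Fintype.card T

end

namespace ZBx

open YLx

section
variable {T : Type*} [CommGroup T] [Fintype T] {K : Type*} [Field K] [CharZero K]
  [HasEnoughRootsOfUnity K (Monoid.exponent T)] {E : Subgroup (MulAut T)} {R : Subgroup T}

/-- `γ u ∈ R u` implies `γ u = u` -/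
theorem fix_of_mem {p : ℕ} (hp : p.Prime) (hT : IsPGroup p T) (hE : ¬ p ∣ Nat.card E)
    (hER : ∀ α ∈ E, ∀ z ∈ R, α z = z) {γ : MulAut T} (hγ : γ ∈ E) {u : T} (h : u⁻¹ * γ u ∈ R) :
    γ u = u := by
  have h1 : γ ^ Nat.card E = 1 := pow_card_E ⟨γ, hγ⟩
  have h2 : u⁻¹ * γ u = 1 :=
    Ku.fix_cm hp hT h1 hE ⟨u, rfl⟩ (hER γ hγ _ h)
  exact (inv_mul_eq_one.1 h2).symm

variable [Fintype E]

theorem gR_pos {p : ℕ} (hp : p.Prime) (hT : IsPGroup p T) (hE : ¬ p ∣ Nat.card E)
    (hER : ∀ α ∈ E, ∀ z ∈ R, α z = z) {u v : T} (h : ∃ α ∈ E, ∃ z ∈ R, v = z * α u) :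
    gR E R u v = Nat.card {α : E // (α : MulAut T) u = u} := by
  classical
  obtain ⟨β, hβ, z, hz, rfl⟩ := h
  unfold gR
  rw [Nat.card_eq_fintype_card, Fintype.card_subtype]
  refine card_bij (fun α _ => (⟨β, hβ⟩ : E)⁻¹ * α) ?_ ?_ ?_
  · intro α hα
    refine mem_filter.2 ⟨mem_univ _, ?_⟩
    have h1 := (mem_filter.1 hα).2
    have h2 : β (u⁻¹ * (β⁻¹ * (α : MulAut T)) u) ∈ R := by
      have h3 : β (u⁻¹ * (β⁻¹ * (α : MulAut T)) u) = (α : MulAut T) u * (z * β u)⁻¹ * z := by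
        rw [map_mul, map_inv, MulAut.mul_apply, MulAut.apply_inv_self, mul_inv]
        rw [mul_comm (z⁻¹) ((β u)⁻¹), ← mul_assoc, inv_mul_cancel_right, mul_comm]
      rw [h3]
      exact R.mul_mem h1 hz
    exact fix_of_mem hp hT hE hER (E.mul_mem (E.inv_mem hβ) α.2) (map_mem_R hER hβ h2)
  · intro α _ α' _ h
    exact mul_left_cancel h
  · intro γ hγ
    have h1 := (mem_filter.1 hγ).2
    refine ⟨(⟨β, hβ⟩ : E) * γ, mem_filter.2 ⟨mem_univ _, ?_⟩, by rw [inv_mul_cancel_left]⟩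
    have h2 : (((⟨β, hβ⟩ : E) * γ : E) : MulAut T) u = β u := by
      rw [Subgroup.coe_mul, MulAut.mul_apply, h1]
    rw [h2, mul_inv, mul_comm z⁻¹, mul_inv_cancel_left]
    exact R.inv_mem hz

theorem gram_iff {p : ℕ} (hp : p.Prime) (hT : IsPGroup p T) (hE : ¬ p ∣ Nat.card E)
    (hER : ∀ α ∈ E, ∀ z ∈ R, α z = z) {I : Type*} [Fintype I] (ψ : I → T → K) (u v : T) :
    GramR E R ψ u v ↔
      (Nat.card R : K) * ∑ i, ψ i u * ψ i v⁻¹ = (Fintype.card T : K) * (gR E R u v : K) := by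
  constructor
  · intro h
    by_cases h1 : ∃ α ∈ E, ∃ z ∈ R, v = z * α u
    · rw [h.1 h1, gR_pos hp hT hE hER h1]
    · rw [h.2 h1, gR_zero h1, Nat.cast_zero, mul_zero, mul_zero]
  · intro h
    refine ⟨fun h1 => ?_, fun h1 => ?_⟩
    · rw [h, gR_pos hp hT hE hER h1]
    · rw [gR_zero h1, Nat.cast_zero, mul_zero] at h
      exact (mul_eq_zero.1 h).resolve_left (cardR_ne R)

end

section
variable {T : Type*} [CommGroup T] [Fintype T] {K : Type*} [Field K] [CharZero K]
  [HasEnoughRootsOfUnity K (Monoid.exponent T)] {E : Subgroup (MulAut T)} {R : Subgroup T}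
  [hER : Fact (∀ α ∈ E, ∀ z ∈ R, α z = z)] [Fintype E]

theorem smul_iff (h : E) (a b : LR K R) : h • b = a ↔ ∀ u, b.1 (((h⁻¹ : E) : MulAut T) u) = a.1 u := by
  constructor
  · rintro rfl u
    rfl
  · intro h1
    exact LR.ext (MonoidHom.ext h1)

theorem nn_self {a : LR K R} (ha : ∀ α ∈ E, (∀ u, a.1 (α u) = a.1 u) → α = 1) : nn E a a = 1 := by
  classical
  unfold nn
  have h1 : (univ.filter fun h : E => h • a = a) = {1} := by
    ext h
    rw [mem_filter, mem_singleton]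
    constructor
    · rintro ⟨_, h2⟩
      have h3 := ha _ (h⁻¹).2 ((smul_iff h a a).1 h2)
      exact inv_eq_one.1 (Subtype.ext h3)
    · rintro rfl
      exact ⟨mem_univ _, one_smul _ _⟩
  rw [h1]
  simp

theorem nn_zero {a b : LR K R} (ha : ∀ α ∈ E, ¬ ∀ u, b.1 (α u) = a.1 u) : nn E a b = 0 := by
  by_contra h
  obtain ⟨g, hg⟩ := nn_ne_zero E h
  exact ha _ (g⁻¹).2 ((smul_iff g a b).1 hg)

/-- the family of regular characters -/
theorem many_fam (hM : Many K E R) : (∃ N : ℕ, 5 ≤ N ∧ Fintype.card E + 3 ≤ N ∧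
    ∃ a : Fin N → LR K R,
    (∀ j, nn E (a j) (a j) = 1) ∧ ∀ j k, j ≠ k → nn E (a j) (a k) = 0) ∨
    (Fintype.card E = 1 ∧ Fintype.card (LR K R) = 3) := by
  rcases hM with ⟨N, hN5, hNe, a, h1, h2, h3⟩ | ⟨h1, h2⟩
  · left
    rw [Nat.card_eq_fintype_card] at hNe
    refine ⟨N, hN5, hNe, fun j => ⟨a j, h1 j⟩, fun j => nn_self (h2 j), fun j k hjk => nn_zero ?_⟩
    exact fun α hα => h3 k j (Ne.symm hjk) α hα
  · right
    refine ⟨by rw [← h1, Nat.card_eq_fintype_card], ?_⟩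
    have h3 := card_LR (K := K) R
    rw [h2, mul_comm] at h3
    exact Nat.eq_of_mul_eq_mul_right Nat.card_pos h3

end

end ZBx

open YLx

section
variable {T : Type*} [CommGroup T] [Fintype T] {K : Type*} [Field K] [CharZero K]
  [HasEnoughRootsOfUnity K (Monoid.exponent T)]

theorem ext_relL {p : ℕ} (hp : p.Prime) (hT : IsPGroup p T) {E : Subgroup (MulAut T)}
    (hE : ¬ p ∣ Nat.card E) {R : Subgroup T} (hER : ∀ α ∈ E, ∀ z ∈ R, α z = z)
    (hMany : Many K E R) {I : Type*} [Fintype I] {Θ : I → T → K} (hv : ∀ i, Θ i ∈ vir T K)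
    (hR : ∀ i, ∀ z ∈ R, ∀ u, Θ i (z * u) = Θ i u)
    (hG : ∀ u v, u ∉ R → v ∉ R → GramR E R Θ u v) :
    ∃ ψ : I → T → K, (∀ i, ψ i ∈ vir T K) ∧ (∀ i, ∀ z ∈ R, ∀ u, ψ i (z * u) = ψ i u) ∧
      (∀ i u, u ∉ R → ψ i u = Θ i u) ∧ ∀ u v, GramR E R ψ u v := by
  classical
  have hF : Fact (∀ α ∈ E, ∀ z ∈ R, α z = z) := ⟨hER⟩
  have : Fintype E := Fintype.ofFinite _
  have hcE : Nat.card E = Fintype.card E := Nat.card_eq_fintype_card
  have hgram : ∀ u v, u ∉ R → v ∉ R → (Nat.card R : K) * ∑ i, Θ i u * Θ i v⁻¹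
      = (Fintype.card T : K) * (gR E R u v : K) :=
    fun u v hu hv => (ZBx.gram_iff hp hT hE hER Θ u v).1 (hG u v hu hv)
  obtain ⟨M, hM⟩ := int_mlt hv
  have hGM : ∀ a b c d : LR K R, ∑ i, (M i a.1 - M i b.1) * (M i c.1 - M i d.1)
      = nn E a c - nn E a d - nn E b c + nn E b d := by
    intro a b c d
    have h1 := gram_diff hgram a b c d
    simp only [hM] at h1
    exact_mod_cast h1
  have hsumM : ∀ i u, Θ i u = ∑ a : LR K R, (M i a.1 : K) * chr a.1 u := by
    intro i u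
    rw [eq_sum_LR (hR i) u]
    exact sum_congr rfl fun a _ => by rw [hM]
  have hC : ∃ C : I → ℤ, ∀ b c : LR K R,
      ∑ i, (M i b.1 - C i) * (M i c.1 - C i) = nn E b c := by
    rcases ZBx.many_fam hMany with ⟨N, hN5, hNe, a, ha1, ha0⟩ | ⟨h1, h2⟩
    · exact ZLx.ext_many hN5 hNe a ha1 ha0 (fun a i => M i a.1) hGM
    · exact ZLx.ext_three h1 h2 (fun a i => M i a.1) hGM
  obtain ⟨C, hC⟩ := hC
  refine ⟨fun i u => ∑ a : LR K R, ((M i a.1 - C i : ℤ) : K) * chr a.1 u, ?_, ?_, ?_, ?_⟩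
  · intro i
    have h1 : (fun u => ∑ a : LR K R, ((M i a.1 - C i : ℤ) : K) * chr a.1 u)
        = ∑ a : LR K R, (M i a.1 - C i) • (chr a.1 : T → K) := by
      funext u
      rw [Finset.sum_apply]
      refine sum_congr rfl fun a _ => ?_
      rw [Pi.smul_apply, zsmul_eq_mul]
    change (fun u => ∑ a : LR K R, ((M i a.1 - C i : ℤ) : K) * chr a.1 u) ∈ vir T K
    rw [h1]
    exact sum_mem fun a _ => zsmul_mem (chr_mem a.1) _
  · intro i z hz u
    exact sum_congr rfl fun a _ => by rw [chr_LR_mul a hz]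
  · intro i u hu
    change ∑ a : LR K R, ((M i a.1 - C i : ℤ) : K) * chr a.1 u = Θ i u
    have h1 : ∀ a : LR K R, ((M i a.1 - C i : ℤ) : K) * chr a.1 u
        = (M i a.1 : K) * chr a.1 u - (C i : K) * chr a.1 u := by
      intro a
      push_cast
      ring
    rw [sum_congr rfl fun a _ => h1 a, sum_sub_distrib, ← mul_sum, sum_LR_notMem hu, mul_zero,
      sub_zero, hsumM]
  · intro u v
    refine (ZBx.gram_iff hp hT hE hER _ u v).2 ?_
    refine gram_back (fun a i => ((M i a.1 - C i : ℤ) : K)) (fun i u => rfl) ?_ u v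
    intro a c
    rw [← hC a c]
    push_cast
    rfl


theorem ext_uniqL {p : ℕ} (hp : p.Prime) (hT : IsPGroup p T) {E : Subgroup (MulAut T)}
    (hE : ¬ p ∣ Nat.card E) {R : Subgroup T} (hER : ∀ α ∈ E, ∀ z ∈ R, α z = z)
    (hMany : Many K E R) {I : Type*} [Fintype I] {ψ ψ' : I → T → K} (hv : ∀ i, ψ i ∈ vir T K)
    (hv' : ∀ i, ψ' i ∈ vir T K)
    (hR : ∀ i, ∀ z ∈ R, ∀ u, ψ i (z * u) = ψ i u) (hR' : ∀ i, ∀ z ∈ R, ∀ u, ψ' i (z * u) = ψ' i u)
    (he : ∀ i u, u ∉ R → ψ i u = ψ' i u)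
    (hG : ∀ u v, GramR E R ψ u v) (hG' : ∀ u v, GramR E R ψ' u v) : ψ = ψ' := by
  classical
  have hF : Fact (∀ α ∈ E, ∀ z ∈ R, α z = z) := ⟨hER⟩
  have : Fintype E := Fintype.ofFinite _
  have hcE : Nat.card E = Fintype.card E := Nat.card_eq_fintype_card
  have hgram : ∀ ψ : I → T → K, (∀ u v, GramR E R ψ u v) → ∀ u v,
      (Nat.card R : K) * ∑ i, ψ i u * ψ i v⁻¹ = (Fintype.card T : K) * (gR E R u v : K) :=
    fun ψ hG u v => (ZBx.gram_iff hp hT hE hER ψ u v).1 (hG u v)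
  obtain ⟨M, hM⟩ := int_mlt hv
  obtain ⟨M', hM'⟩ := int_mlt hv'
  have hGM : ∀ a c : LR K R, ∑ i, M i a.1 * M i c.1 = nn E a c := by
    intro a c
    have h1 := gram_full (hgram ψ hG) a c
    simp only [hM] at h1
    exact_mod_cast h1
  have hGM' : ∀ a c : LR K R, ∑ i, M' i a.1 * M' i c.1 = nn E a c := by
    intro a c
    have h1 := gram_full (hgram ψ' hG') a c
    simp only [hM'] at h1
    exact_mod_cast h1
  -- three characters which are not conjugate
  have h3 : ∃ a b c : LR K R, nn E a a = 1 ∧ nn E b b = 1 ∧ nn E a b = 0 ∧ nn E a c = 0 ∧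
      nn E b c = 0 := by
    rcases ZBx.many_fam hMany with ⟨N, hN5, hNe, a, ha1, ha0⟩ | ⟨h1, h2⟩
    · have h0 : (0 : ℕ) < N := by omega
      have h1 : (1 : ℕ) < N := by omega
      have h2 : (2 : ℕ) < N := by omega
      have h01 : (⟨0, h0⟩ : Fin N) ≠ ⟨1, h1⟩ := fun h => by
        simpa using congrArg Fin.val h
      have h02 : (⟨0, h0⟩ : Fin N) ≠ ⟨2, h2⟩ := fun h => by
        simpa using congrArg Fin.val h
      have h12 : (⟨1, h1⟩ : Fin N) ≠ ⟨2, h2⟩ := fun h => by
        simpa using congrArg Fin.val h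
      exact ⟨a ⟨0, h0⟩, a ⟨1, h1⟩, a ⟨2, h2⟩, ha1 _, ha1 _, ha0 _ _ h01, ha0 _ _ h02, ha0 _ _ h12⟩
    · have hsub : Subsingleton E := Fintype.card_le_one_iff_subsingleton.1 h1.le
      have hs : ∀ x : LR K R, nn E x x = 1 := fun x => ZBx.nn_self fun α hα _ => by
        have h3 := Subsingleton.elim (⟨α, hα⟩ : E) 1
        exact congrArg Subtype.val h3
      have hn : ∀ x y : LR K R, x ≠ y → nn E x y = 0 := by
        intro x y hxy
        by_contra h
        obtain ⟨g, hg⟩ := nn_ne_zero E h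
        rw [Subsingleton.elim g 1, one_smul] at hg
        exact hxy hg.symm
      let e := (Fintype.equivFinOfCardEq h2).symm
      exact ⟨e 0, e 1, e 2, hs _, hs _, hn _ _ (fun h => by simpa using e.injective h),
        hn _ _ (fun h => by simpa using e.injective h),
        hn _ _ (fun h => by simpa using e.injective h)⟩
  obtain ⟨a, b, c, haa, hbb, hab, hac, hbc⟩ := h3
  have hdiff : ∀ i (x y : LR K R), M' i x.1 - M i x.1 = M' i y.1 - M i y.1 := by
    intro i x y
    have h1 : mlt (ψ' i) x.1 - mlt (ψ i) x.1 = mlt (ψ' i) y.1 - mlt (ψ i) y.1 := by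
      unfold mlt
      rw [← mul_sub, ← mul_sub, ← sum_sub_distrib, ← sum_sub_distrib]
      congr 1
      refine sum_congr rfl fun u _ => ?_
      by_cases hu : u ∈ R
      · rw [chr_LR x (R.inv_mem hu), chr_LR y (R.inv_mem hu)]
      · rw [he i u hu]
        ring
    rw [hM, hM, hM', hM'] at h1
    exact_mod_cast h1
  have hC0 : ∀ i, M' i a.1 - M i a.1 = 0 := by
    have hx : ∀ z : LR K R, ∑ i, (M i z.1 + (M' i a.1 - M i a.1)) ^ 2 = ∑ i, M i z.1 ^ 2 := by
      intro z
      have h1 : ∀ i, (M i z.1 + (M' i a.1 - M i a.1)) ^ 2 = M' i z.1 * M' i z.1 := by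
        intro i
        rw [hdiff i a z]
        ring
      rw [sum_congr rfl fun i _ => h1 i, hGM', ← hGM]
      exact sum_congr rfl fun i _ => (sq _).symm
    refine uniq_pure (fun i => M i a.1) (fun i => M i b.1) (fun i => M i c.1)
      (fun i => M' i a.1 - M i a.1) ?_ ?_ ?_ ?_ ?_ (hx a) (hx b) (hx c)
    · rw [← haa, ← hGM]
      exact sum_congr rfl fun i _ => sq _
    · rw [← hbb, ← hGM]
      exact sum_congr rfl fun i _ => sq _
    · rw [← hab, ← hGM]
    · rw [← hac, ← hGM]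
    · rw [← hbc, ← hGM]
  funext i u
  rw [eq_sum_LR (hR i) u, eq_sum_LR (hR' i) u]
  refine sum_congr rfl fun x _ => ?_
  have h1 := hdiff i x a
  rw [hC0 i] at h1
  have h2 : M' i x.1 = M i x.1 := by linarith
  rw [hM, hM', h2]


/-- the characters fixed by an element of `E` -/
theorem fix_LRq {p : ℕ} (hp : p.Prime) (hT : IsPGroup p T) {E : Subgroup (MulAut T)}
    (hE : ¬ p ∣ Nat.card E) {R : Subgroup T} [hER : Fact (∀ α ∈ E, ∀ z ∈ R, α z = z)] {q : ℕ}
    (hq : ∀ α ∈ E, α ≠ 1 → q ≤ Nat.card (Ku.cm α).range) {h : E} (hh : h ≠ 1) :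
    q * (univ.filter fun a : LR K R => h • a = a).card ≤ Fintype.card (LR K R) := by
  classical
  set φ : MulAut T := ((h⁻¹ : E) : MulAut T) with hφ
  set P : Subgroup T := R ⊔ (Ku.cm φ).range with hP
  have h1 : ∀ a : LR K R, h • a = a ↔ eqP P a.1 1 := by
    intro a
    constructor
    · intro ha
      have h2 : P ≤ a.1.ker := by
        rw [hP]
        refine sup_le (fun z hz => a.2 z hz) ?_
        rintro _ ⟨u, rfl⟩
        rw [MonoidHom.mem_ker, Ku.cm_apply, map_mul, map_inv]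
        have h3 : a.1 (φ u) = a.1 u := by
          have h4 := congrArg (fun x : LR K R => x.1 u) ha
          exact h4
        rw [h3, inv_mul_cancel]
      intro v hv
      exact h2 hv
    · intro ha
      refine LR.ext (MonoidHom.ext fun u => ?_)
      have h2 : Ku.cm φ u ∈ P := (le_sup_right : (Ku.cm φ).range ≤ P) ⟨u, rfl⟩
      have h3 := ha _ h2
      rw [Ku.cm_apply, map_mul, map_inv, MonoidHom.one_apply, inv_mul_eq_one] at h3
      exact h3.symm
  have h2 : (univ.filter fun a : LR K R => h • a = a).card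
      = (univ.filter fun b : T →* Kˣ => eqP P b 1).card := by
    refine card_bij (fun a _ => a.1) ?_ ?_ ?_
    · intro a ha
      exact mem_filter.2 ⟨mem_univ _, (h1 a).1 (mem_filter.1 ha).2⟩
    · intro a _ b _ hab
      exact LR.ext hab
    · intro b hb
      have hb' := (mem_filter.1 hb).2
      refine ⟨⟨b, fun z hz => hb' z ((le_sup_left : R ≤ P) hz)⟩, mem_filter.2 ⟨mem_univ _, ?_⟩, rfl⟩
      exact (h1 _).2 hb'
  have hφ1 : φ ≠ 1 := by
    intro h3
    exact hh (inv_eq_one.1 (Subtype.ext h3))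
  -- `P` is the direct product of `R` and the commutators
  have hRP : q * Nat.card R ≤ Nat.card P := by
    have hdis : R ⊓ (Ku.cm φ).range = ⊥ := by
      refine (Subgroup.eq_bot_iff_forall _).2 fun x hx => ?_
      obtain ⟨hx1, u, hu⟩ := Subgroup.mem_inf.1 hx
      have h3 : Ku.cm φ u = u⁻¹ * φ u := rfl
      have h4 : φ u = u := by
        refine ZBx.fix_of_mem hp hT hE hER.out (h⁻¹ : E).2 ?_
        have h5 : u⁻¹ * φ u = x := by rw [← h3, hu]
        rw [h5]
        exact hx1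
      rw [← hu, h3, h4, inv_mul_cancel]
    have h3 : Nat.card P = Nat.card R * Nat.card (Ku.cm φ).range := by
      have h4 := Subgroup.card_mul_index R
      let g : R × (Ku.cm φ).range →* T :=
        { toFun := fun x => (x.1 : T) * (x.2 : T)
          map_one' := by simp
          map_mul' := fun x y => by
            change ((x.1 * y.1 : R) : T) * ((x.2 * y.2 : (Ku.cm φ).range) : T) = _
            rw [Subgroup.coe_mul, Subgroup.coe_mul]
            exact mul_mul_mul_comm _ _ _ _ }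
      have hg : Function.Injective g := by
        refine (injective_iff_map_eq_one g).2 fun x hx => ?_
        have h5 : (x.1 : T) * (x.2 : T) = 1 := hx
        have h6 : (x.1 : T) ∈ R ⊓ (Ku.cm φ).range := by
          refine Subgroup.mem_inf.2 ⟨x.1.2, ?_⟩
          have h7 : (x.1 : T) = ((x.2 : T))⁻¹ := eq_inv_of_mul_eq_one_left h5
          rw [h7]
          exact ((Ku.cm φ).range).inv_mem x.2.2
        rw [hdis, Subgroup.mem_bot] at h6
        rw [h6, one_mul] at h5
        exact Prod.ext (Subtype.ext h6) (Subtype.ext h5)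
      have hr : g.range = P := by
        apply le_antisymm
        · rintro _ ⟨x, rfl⟩
          exact P.mul_mem ((le_sup_left : R ≤ P) x.1.2)
            ((le_sup_right : (Ku.cm φ).range ≤ P) x.2.2)
        · rw [hP]
          refine sup_le ?_ ?_
          · intro x hx
            exact ⟨(⟨x, hx⟩, 1), by change x * ((1 : (Ku.cm φ).range) : T) = x; simp⟩
          · intro x hx
            exact ⟨(1, ⟨x, hx⟩), by change ((1 : R) : T) * x = x; simp⟩
      rw [← hr, ← Nat.card_prod]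
      exact (Nat.card_congr (MonoidHom.ofInjective hg).toEquiv).symm
    rw [h3, mul_comm]
    exact Nat.mul_le_mul_left _ (hq φ (h⁻¹ : E).2 hφ1)
  rw [h2]
  have h9 := card_eqP (K := K) P 1
  have h10 := card_LR (K := K) R
  have hR0 : 0 < Nat.card R := Nat.card_pos
  refine le_of_mul_le_mul_left ?_ hR0
  rw [h10, ← h9]
  calc Nat.card R * (q * (univ.filter fun b : T →* Kˣ => eqP P b 1).card)
      = (q * Nat.card R) * (univ.filter fun b : T →* Kˣ => eqP P b 1).card := by ring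
    _ ≤ Nat.card P * (univ.filter fun b : T →* Kˣ => eqP P b 1).card :=
      Nat.mul_le_mul_right _ hRP

/-- the numerical criterion -/
theorem many_of {p : ℕ} (hp : p.Prime) (hT : IsPGroup p T) {E : Subgroup (MulAut T)}
    (hE : ¬ p ∣ Nat.card E) {R : Subgroup T} (hER : ∀ α ∈ E, ∀ z ∈ R, α z = z) {q : ℕ}
    (hq : ∀ α ∈ E, α ≠ 1 → q ≤ Nat.card (Ku.cm α).range)
    (hn : q * (Nat.card E * (Nat.card E + 3)) * Nat.card R + (Nat.card E - 1) * Fintype.card T
      < q * Fintype.card T) : Many K E R := by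
  classical
  have hF : Fact (∀ α ∈ E, ∀ z ∈ R, α z = z) := ⟨hER⟩
  have : Fintype E := Fintype.ofFinite _
  have hcE : Nat.card E = Fintype.card E := Nat.card_eq_fintype_card
  have h1 := card_reg_ge (Λ := LR K R) (E := E) (q := q) fun h hh => fix_LRq hp hT hE hq hh
  have h2 := card_LR (K := K) R
  have hR0 : 0 < Nat.card R := Nat.card_pos
  have hq0 : 0 < q := by
    rcases Nat.eq_zero_or_pos q with h | h
    · rw [h, zero_mul, zero_mul, zero_mul] at hn
      exact absurd hn (Nat.not_lt_zero _)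
    · exact h
  have h3 : (Nat.card E + 3) * Fintype.card E
      < (univ.filter fun a : LR K R => nn E a a = 1).card := by
    by_contra h4
    push Not at h4
    have h5 : q * (univ.filter fun a : LR K R => nn E a a = 1).card
        ≤ q * ((Nat.card E + 3) * Fintype.card E) := Nat.mul_le_mul_left _ h4
    have h6 : Nat.card R * (q * Fintype.card (LR K R)) ≤
        Nat.card R * (q * ((Nat.card E + 3) * Fintype.card E)
          + (Fintype.card E - 1) * Fintype.card (LR K R)) :=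
      Nat.mul_le_mul_left _ (by omega)
    rw [← h2, hcE] at hn
    rw [hcE] at h6
    have h7 : Nat.card R * (q * Fintype.card (LR K R))
        = q * (Nat.card R * Fintype.card (LR K R)) := by ring
    have h8 : Nat.card R * (q * ((Fintype.card E + 3) * Fintype.card E)
          + (Fintype.card E - 1) * Fintype.card (LR K R))
        = q * (Fintype.card E * (Fintype.card E + 3)) * Nat.card R
          + (Fintype.card E - 1) * (Nat.card R * Fintype.card (LR K R)) := by ring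
    rw [h7, h8] at h6
    exact absurd hn (not_lt.2 h6)
  obtain ⟨a, ha1, ha0⟩ := reg_pts (E := E) (Nat.card E + 3) h3
  have hE0 : 0 < Nat.card E := by
    rw [hcE]
    exact Fintype.card_pos
  refine Or.inl ⟨Nat.card E + 3 + 1, by omega, by omega, fun j => (a j).1, fun j => (a j).2, fun j α hα hj => ?_, fun j k hjk α hα hj => ?_⟩
  · have h4 := ha1 j
    have h5 : (⟨α, hα⟩ : E)⁻¹ • a j = a j := (ZBx.smul_iff _ _ _).2 fun u => by
      rw [inv_inv]
      exact hj u
    unfold nn at h4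
    have h6 : (univ.filter fun h : E => h • a j = a j).card = 1 := by exact_mod_cast h4
    obtain ⟨g, hg⟩ := card_eq_one.1 h6
    have h7 : (⟨α, hα⟩ : E)⁻¹ ∈ univ.filter fun h : E => h • a j = a j :=
      mem_filter.2 ⟨mem_univ _, h5⟩
    have h8 : (1 : E) ∈ univ.filter fun h : E => h • a j = a j :=
      mem_filter.2 ⟨mem_univ _, one_smul _ _⟩
    rw [hg, mem_singleton] at h7 h8
    have h9 : (⟨α, hα⟩ : E) = 1 := inv_eq_one.1 (h7.trans h8.symm)
    exact congrArg Subtype.val h9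
  · have h4 := ha0 k j (Ne.symm hjk)
    have h5 : (⟨α, hα⟩ : E)⁻¹ • a j = a k := (ZBx.smul_iff _ _ _).2 fun u => by
      rw [inv_inv]
      exact hj u
    unfold nn at h4
    have h6 : (univ.filter fun h : E => h • a j = a k).card = 0 := by exact_mod_cast h4
    have h7 : (⟨α, hα⟩ : E)⁻¹ ∈ univ.filter fun h : E => h • a j = a k :=
      mem_filter.2 ⟨mem_univ _, h5⟩
    rw [card_eq_zero.1 h6] at h7
    exact absurd h7 (notMem_empty _)

end

end Pool.Agent.Lib.P0c8ca5.Ex
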