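import Mathlib
import Pool.Agent.Lib.P0c8ca5Ex.ZB
import Pool.Agent.Lib.P0c8ca5Ex.ZAt

/-!
# ZBb: the extension of the rows if `E` acts freely on the nontrivial characters of `T / R`

* `Thin`: `E` acts freely on the nontrivial characters of `T / R` and there are at least `N` orbits,
  `N ≥ 5`, `N ≥ |E| + 2`.
* `ext_relT`: the conclusion of `ext_relL` for more than `N` rows, none of which vanishes outside `R`.
* `free_dual`: then `E` acts freely outside `R`.
* `uniqT`: uniqueness.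
-/

set_option linter.unusedSectionVars false

namespace Pool.Agent.Lib.P0c8ca5.Ex

open Finset YLx

section
variable {T : Type*} [CommGroup T] [Fintype T]

/-- `E` acts freely on the nontrivial characters of `T / R` -/
def FreeR (K : Type*) [Field K] (E : Subgroup (MulAut T)) (R : Subgroup T) : Prop :=
  ∀ l : T →* Kˣ, eqP R l 1 → l ≠ 1 → ∀ α ∈ E, (∀ u, l (α u) = l u) → α = 1

/-- `E` acts freely on the nontrivial characters of `T / R` and there are at least `N` orbits -/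
def Thin (K : Type*) [Field K] (E : Subgroup (MulAut T)) (R : Subgroup T) : Prop :=
  FreeR K E R ∧ ∃ N : ℕ, 5 ≤ N ∧ Nat.card E + 2 ≤ N ∧
    N * Nat.card E * Nat.card R < Fintype.card T

end

namespace ZBbx

section
variable {T : Type*} [CommGroup T] [Fintype T] {K : Type*} [Field K] [CharZero K]
  [HasEnoughRootsOfUnity K (Monoid.exponent T)] {E : Subgroup (MulAut T)} {R : Subgroup T}

theorem exists_l {u : T} (hu : u ∉ R) : ∃ l : LR K R, l.1 u ≠ 1 := by
  classical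
  by_contra hcon
  push Not at hcon
  have h1 := sum_LR_notMem (K := K) hu
  rw [sum_congr rfl (g := fun _ => (1 : K)) (fun a _ => by
    unfold chr
    rw [hcon a, Units.val_one])] at h1
  rw [sum_const, card_univ, nsmul_eq_mul, mul_one] at h1
  have h2 := card_LR (K := K) R
  have h3 : Fintype.card (LR K R) ≠ 0 := by
    intro h3
    rw [h3, mul_zero] at h2
    exact Fintype.card_ne_zero h2.symm
  exact h3 (by exact_mod_cast h1)

/-- the action outside `R` is free -/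
theorem free_dual {p : ℕ} (hp : p.Prime) (hT : IsPGroup p T) (hE : ¬ p ∣ Nat.card E)
    (hER : ∀ α ∈ E, ∀ z ∈ R, α z = z) (hfree : FreeR K E R) {u : T} (hu : u ∉ R)
    {α : MulAut T} (hα : α ∈ E) (hαu : α u = u) : α = 1 := by
  classical
  obtain ⟨l, hl⟩ := exists_l (K := K) hu
  obtain ⟨m, hm⟩ : ∃ m, m = Nat.card E := ⟨_, rfl⟩
  have hαm : α ^ m = 1 := by
    rw [hm]
    exact pow_card_E ⟨α, hα⟩
  obtain ⟨l', hl'⟩ : ∃ l' : T →* Kˣ, ∀ v, l' v = ∏ j ∈ range m, l.1 ((α ^ j) v) := by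
    refine ⟨∏ j ∈ range m, l.1.comp (α ^ j).toMonoidHom, fun v => ?_⟩
    rw [MonoidHom.finsetProd_apply]
    rfl
  have hinv : ∀ v, l' (α v) = l' v := by
    intro v
    rw [hl', hl']
    have h1 := prod_range_succ' (fun j => l.1 ((α ^ j) v)) m
    have h2 := prod_range_succ (fun j => l.1 ((α ^ j) v)) m
    rw [h1] at h2
    simp only [pow_zero, hαm] at h2
    rw [← mul_right_cancel h2]
    refine prod_congr rfl fun j _ => ?_
    rw [pow_succ, MulAut.mul_apply]
  have hpow : ∀ (j : ℕ) (v : T), α v = v → (α ^ j) v = v := by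
    intro j v hv
    induction j with
    | zero => rw [pow_zero, MulAut.one_apply]
    | succ j ih => rw [pow_succ, MulAut.mul_apply, hv, ih]
  refine hfree l' ?_ ?_ α hα hinv
  · intro z hz
    rw [hl', MonoidHom.one_apply]
    refine prod_eq_one fun j _ => ?_
    rw [hpow j z (hER α hα z hz)]
    exact l.2 z hz
  · intro h1
    have h2 : l' u = 1 := by rw [h1, MonoidHom.one_apply]
    rw [hl', prod_congr rfl (fun j _ => by rw [hpow j u hαu]), prod_const,
      Finset.card_range] at h2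
    obtain ⟨n, hn⟩ := hT u
    have h3 : l.1 u ^ p ^ n = 1 := by rw [← map_pow, hn, map_one]
    have h4 : Nat.Coprime m (p ^ n) := by
      refine Nat.Coprime.pow_right n ?_
      rw [Nat.coprime_comm, hp.coprime_iff_not_dvd, hm]
      exact hE
    have h5 : orderOf (l.1 u) ∣ 1 := by
      rw [← h4]
      exact Nat.dvd_gcd (orderOf_dvd_of_pow_eq_one h2) (orderOf_dvd_of_pow_eq_one h3)
    exact hl (orderOf_eq_one_iff.1 (Nat.dvd_one.1 h5))

end

section
variable {T : Type*} [CommGroup T] [Fintype T] {K : Type*} [Field K] [CharZero K]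
  [HasEnoughRootsOfUnity K (Monoid.exponent T)] {E : Subgroup (MulAut T)} {R : Subgroup T}
  [hER : Fact (∀ α ∈ E, ∀ z ∈ R, α z = z)] [Fintype E]

/-- regular characters in different orbits -/
theorem thin_fam (hfree : FreeR K E R) {N : ℕ} (hNe : Nat.card E + 2 ≤ N) (hN0 : 0 < N)
    (hNc : N * Nat.card E * Nat.card R < Fintype.card T) :
    (∀ b : LR K R, b ≠ LR.one R → nn E b b = 1) ∧ ∃ a : Fin N → LR K R,
      (∀ j, nn E (a j) (a j) = 1) ∧ ∀ j k, j ≠ k → nn E (a j) (a k) = 0 := by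
  classical
  have hcE : Nat.card E = Fintype.card E := Nat.card_eq_fintype_card
  have hreg : ∀ b : LR K R, b ≠ LR.one R → nn E b b = 1 := by
    intro b hb
    refine ZBx.nn_self fun α hα h1 => hfree b.1 b.2 (fun h2 => hb ?_) α hα h1
    exact LR.ext h2
  have hcard : (N - 1) * Fintype.card E < (univ.filter fun a : LR K R => nn E a a = 1).card := by
    have h1 : (univ.erase (LR.one R : LR K R)) ⊆ univ.filter fun a : LR K R => nn E a a = 1 := by
      intro b hb
      exact mem_filter.2 ⟨mem_univ _, hreg b (ne_of_mem_erase hb)⟩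
    have h2 := card_le_card h1
    rw [card_erase_of_mem (mem_univ _), card_univ] at h2
    have h3 := card_LR (K := K) R
    have h4 : 0 < Nat.card R := Nat.card_pos
    rw [← h3, hcE, mul_comm (Nat.card R)] at hNc
    have h5 : N * Fintype.card E < Fintype.card (LR K R) := Nat.lt_of_mul_lt_mul_right hNc
    have h6 : 0 < Fintype.card E := Fintype.card_pos
    have h7 : (N - 1) * Fintype.card E + Fintype.card E = N * Fintype.card E := by
      have : N = (N - 1) + 1 := by omega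
      conv_rhs => rw [this, Nat.add_mul, one_mul]
    omega
  obtain ⟨a', ha1', ha0'⟩ := reg_pts (N - 1) hcard
  have hN1 : N - 1 + 1 = N := by omega
  refine ⟨hreg, ?_⟩
  rw [← hN1]
  exact ⟨a', ha1', ha0'⟩

end

end ZBbx

open ZBbx

section
variable {T : Type*} [CommGroup T] [Fintype T] {K : Type*} [Field K] [CharZero K]
  [HasEnoughRootsOfUnity K (Monoid.exponent T)]

theorem ext_relT {p : ℕ} (hp : p.Prime) (hT : IsPGroup p T) {E : Subgroup (MulAut T)}
    (hE : ¬ p ∣ Nat.card E) {R : Subgroup T} (hER : ∀ α ∈ E, ∀ z ∈ R, α z = z)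
    (hfree : FreeR K E R) {N : ℕ} (hN5 : 5 ≤ N) (hNe : Nat.card E + 2 ≤ N)
    (hNc : N * Nat.card E * Nat.card R < Fintype.card T)
    {I : Type*} [Fintype I] (hI : N < Fintype.card I) {Θ : I → T → K} (hv : ∀ i, Θ i ∈ vir T K)
    (hR : ∀ i, ∀ z ∈ R, ∀ u, Θ i (z * u) = Θ i u)
    (hG : ∀ u v, u ∉ R → v ∉ R → GramR E R Θ u v) (hrow : ∀ i, ∃ u, u ∉ R ∧ Θ i u ≠ 0) :
    ∃ ψ : I → T → K, (∀ i, ψ i ∈ vir T K) ∧ (∀ i, ∀ z ∈ R, ∀ u, ψ i (z * u) = ψ i u) ∧
      (∀ i u, u ∉ R → ψ i u = Θ i u) ∧ ∀ u v, GramR E R ψ u v := by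
  classical
  have hF : Fact (∀ α ∈ E, ∀ z ∈ R, α z = z) := ⟨hER⟩
  have : Fintype E := Fintype.ofFinite _
  have hcE : Nat.card E = Fintype.card E := Nat.card_eq_fintype_card
  have hgram : ∀ u v, u ∉ R → v ∉ R → (Nat.card R : K) * ∑ i, Θ i u * Θ i v⁻¹
      = (Fintype.card T : K) * (gR E R u v : K) :=
    fun u v hu hv => (ZBx.gram_iff hp hT hE hER Θ u v).1 (hG u v hu hv)
  obtain ⟨M, hM⟩ := int_mlt hv
  have hGM : ∀ a b c d : LR K R, ∑ i, (M i a.1 - M i b.1) * (M i c.1 - M i d.1)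
      = nn E a c - nn E a d - nn E b c + nn E b d := by
    intro a b c d
    have h1 := gram_diff hgram a b c d
    simp only [hM] at h1
    exact_mod_cast h1
  have hsumM : ∀ i u, Θ i u = ∑ a : LR K R, (M i a.1 : K) * chr a.1 u := by
    intro i u
    rw [eq_sum_LR (hR i) u]
    exact sum_congr rfl fun a _ => by rw [hM]
  obtain ⟨hreg, a, ha1, ha0⟩ := thin_fam hfree hNe (by omega) hNc
  have hrow' : ∀ i, ∃ b c : LR K R, M i b.1 ≠ M i c.1 := by
    intro i
    by_contra hcon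
    push Not at hcon
    obtain ⟨u, hu, hu0⟩ := hrow i
    apply hu0
    rw [hsumM]
    have h1 : ∀ b : LR K R, (M i b.1 : K) * chr b.1 u = (M i (LR.one R : LR K R).1 : K) * chr b.1 u :=
      fun b => by rw [hcon b (LR.one R)]
    rw [sum_congr rfl fun b _ => h1 b, ← mul_sum, sum_LR_notMem hu, mul_zero]
  obtain ⟨C, hC⟩ := ZLx.ext_thin hN5 (by rw [← hcE]; exact hNe) hI hreg a ha1 ha0
    (fun a i => M i a.1) hGM hrow'
  refine ⟨fun i u => ∑ a : LR K R, ((M i a.1 - C i : ℤ) : K) * chr a.1 u, ?_, ?_, ?_, ?_⟩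
  · intro i
    have h1 : (fun u => ∑ a : LR K R, ((M i a.1 - C i : ℤ) : K) * chr a.1 u)
        = ∑ a : LR K R, (M i a.1 - C i) • (chr a.1 : T → K) := by
      funext u
      rw [Finset.sum_apply]
      refine sum_congr rfl fun a _ => ?_
      rw [Pi.smul_apply, zsmul_eq_mul]
    change (fun u => ∑ a : LR K R, ((M i a.1 - C i : ℤ) : K) * chr a.1 u) ∈ vir T K
    rw [h1]
    exact sum_mem fun a _ => zsmul_mem (chr_mem a.1) _
  · intro i z hz u
    exact sum_congr rfl fun a _ => by rw [chr_LR_mul a hz]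
  · intro i u hu
    change ∑ a : LR K R, ((M i a.1 - C i : ℤ) : K) * chr a.1 u = Θ i u
    have h1 : ∀ a : LR K R, ((M i a.1 - C i : ℤ) : K) * chr a.1 u
        = (M i a.1 : K) * chr a.1 u - (C i : K) * chr a.1 u := by
      intro a
      push_cast
      ring
    rw [sum_congr rfl fun a _ => h1 a, sum_sub_distrib, ← mul_sum, sum_LR_notMem hu, mul_zero,
      sub_zero, hsumM]
  · intro u v
    refine (ZBx.gram_iff hp hT hE hER _ u v).2 ?_
    refine gram_back (fun a i => ((M i a.1 - C i : ℤ) : K)) (fun i u => rfl) ?_ u v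
    intro a c
    rw [← hC a c]
    push_cast
    rfl

theorem ext_uniqT {p : ℕ} (hp : p.Prime) (hT : IsPGroup p T) {E : Subgroup (MulAut T)}
    (hE : ¬ p ∣ Nat.card E) {R : Subgroup T} (hER : ∀ α ∈ E, ∀ z ∈ R, α z = z)
    (hThin : Thin K E R) {I : Type*} [Fintype I] {ψ ψ' : I → T → K} (hv : ∀ i, ψ i ∈ vir T K)
    (hv' : ∀ i, ψ' i ∈ vir T K)
    (hR : ∀ i, ∀ z ∈ R, ∀ u, ψ i (z * u) = ψ i u) (hR' : ∀ i, ∀ z ∈ R, ∀ u, ψ' i (z * u) = ψ' i u)
    (he : ∀ i u, u ∉ R → ψ i u = ψ' i u)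
    (hG : ∀ u v, GramR E R ψ u v) (hG' : ∀ u v, GramR E R ψ' u v) : ψ = ψ' := by
  classical
  have hF : Fact (∀ α ∈ E, ∀ z ∈ R, α z = z) := ⟨hER⟩
  have : Fintype E := Fintype.ofFinite _
  have hcE : Nat.card E = Fintype.card E := Nat.card_eq_fintype_card
  have hgram : ∀ ψ : I → T → K, (∀ u v, GramR E R ψ u v) → ∀ u v,
      (Nat.card R : K) * ∑ i, ψ i u * ψ i v⁻¹ = (Fintype.card T : K) * (gR E R u v : K) :=
    fun ψ hG u v => (ZBx.gram_iff hp hT hE hER ψ u v).1 (hG u v)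
  obtain ⟨M, hM⟩ := int_mlt hv
  obtain ⟨M', hM'⟩ := int_mlt hv'
  have hGM : ∀ a c : LR K R, ∑ i, M i a.1 * M i c.1 = nn E a c := by
    intro a c
    have h1 := gram_full (hgram ψ hG) a c
    simp only [hM] at h1
    exact_mod_cast h1
  have hGM' : ∀ a c : LR K R, ∑ i, M' i a.1 * M' i c.1 = nn E a c := by
    intro a c
    have h1 := gram_full (hgram ψ' hG') a c
    simp only [hM'] at h1
    exact_mod_cast h1
  -- three characters which are not conjugate
  have h3 : ∃ a b c : LR K R, nn E a a = 1 ∧ nn E b b = 1 ∧ nn E a b = 0 ∧ nn E a c = 0 ∧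
      nn E b c = 0 := by
    obtain ⟨hfree, N, hN5, hNe, hNc⟩ := hThin
    obtain ⟨-, a, ha1, ha0⟩ := thin_fam hfree hNe (by omega) hNc
    have h0 : (0 : ℕ) < N := by omega
    have h1 : (1 : ℕ) < N := by omega
    have h2 : (2 : ℕ) < N := by omega
    have h01 : (⟨0, h0⟩ : Fin N) ≠ ⟨1, h1⟩ := fun h => by
      simpa using congrArg Fin.val h
    have h02 : (⟨0, h0⟩ : Fin N) ≠ ⟨2, h2⟩ := fun h => by
      simpa using congrArg Fin.val h
    have h12 : (⟨1, h1⟩ : Fin N) ≠ ⟨2, h2⟩ := fun h => by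
      simpa using congrArg Fin.val h
    exact ⟨a ⟨0, h0⟩, a ⟨1, h1⟩, a ⟨2, h2⟩, ha1 _, ha1 _, ha0 _ _ h01, ha0 _ _ h02, ha0 _ _ h12⟩
  obtain ⟨a, b, c, haa, hbb, hab, hac, hbc⟩ := h3
  have hdiff : ∀ i (x y : LR K R), M' i x.1 - M i x.1 = M' i y.1 - M i y.1 := by
    intro i x y
    have h1 : mlt (ψ' i) x.1 - mlt (ψ i) x.1 = mlt (ψ' i) y.1 - mlt (ψ i) y.1 := by
      unfold mlt
      rw [← mul_sub, ← mul_sub, ← sum_sub_distrib, ← sum_sub_distrib]
      congr 1
      refine sum_congr rfl fun u _ => ?_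
      by_cases hu : u ∈ R
      · rw [chr_LR x (R.inv_mem hu), chr_LR y (R.inv_mem hu)]
      · rw [he i u hu]
        ring
    rw [hM, hM, hM', hM'] at h1
    exact_mod_cast h1
  have hC0 : ∀ i, M' i a.1 - M i a.1 = 0 := by
    have hx : ∀ z : LR K R, ∑ i, (M i z.1 + (M' i a.1 - M i a.1)) ^ 2 = ∑ i, M i z.1 ^ 2 := by
      intro z
      have h1 : ∀ i, (M i z.1 + (M' i a.1 - M i a.1)) ^ 2 = M' i z.1 * M' i z.1 := by
        intro i
        rw [hdiff i a z]
        ring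
      rw [sum_congr rfl fun i _ => h1 i, hGM', ← hGM]
      exact sum_congr rfl fun i _ => (sq _).symm
    refine uniq_pure (fun i => M i a.1) (fun i => M i b.1) (fun i => M i c.1)
      (fun i => M' i a.1 - M i a.1) ?_ ?_ ?_ ?_ ?_ (hx a) (hx b) (hx c)
    · rw [← haa, ← hGM]
      exact sum_congr rfl fun i _ => sq _
    · rw [← hbb, ← hGM]
      exact sum_congr rfl fun i _ => sq _
    · rw [← hab, ← hGM]
    · rw [← hac, ← hGM]
    · rw [← hbc, ← hGM]
  funext i u
  rw [eq_sum_LR (hR i) u, eq_sum_LR (hR' i) u]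
  refine sum_congr rfl fun x _ => ?_
  have h1 := hdiff i x a
  rw [hC0 i] at h1
  have h2 : M' i x.1 = M i x.1 := by linarith
  rw [hM, hM', h2]

/-- existence in both cases -/
theorem ext_uniqX {p : ℕ} (hp : p.Prime) (hT : IsPGroup p T) {E : Subgroup (MulAut T)}
    (hE : ¬ p ∣ Nat.card E) {R : Subgroup T} (hER : ∀ α ∈ E, ∀ z ∈ R, α z = z)
    (hMT : Many K E R ∨ Thin K E R) {I : Type*} [Fintype I] {ψ ψ' : I → T → K}
    (hv : ∀ i, ψ i ∈ vir T K) (hv' : ∀ i, ψ' i ∈ vir T K)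
    (hR : ∀ i, ∀ z ∈ R, ∀ u, ψ i (z * u) = ψ i u) (hR' : ∀ i, ∀ z ∈ R, ∀ u, ψ' i (z * u) = ψ' i u)
    (he : ∀ i u, u ∉ R → ψ i u = ψ' i u)
    (hG : ∀ u v, GramR E R ψ u v) (hG' : ∀ u v, GramR E R ψ' u v) : ψ = ψ' := by
  rcases hMT with h | h
  · exact ext_uniqL hp hT hE hER h hv hv' hR hR' he hG hG'
  · exact ext_uniqT hp hT hE hER h hv hv' hR hR' he hG hG'

end

end Pool.Agent.Lib.P0c8ca5.Ex
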