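import Mathlib
import Pool.Agent.Lib.P0c8ca5Ex.ZBb
import Pool.Agent.Lib.P0c8ca5Ex.W1a

/-!
# W1b: the extension of the rows with three regular characters (K2)

`Deg K E R`: three regular characters of `T / R` in different orbits and `(|E| + 1)² ≤ |T / R|`.

* `ext_relD`, `ext_uniqD`: as `ext_relL`, `ext_uniqL` with `Deg` in place of `Many`; the values outside `R` are orthogonal
  to a vector without zero entries.
* `deg_of`: a numerical criterion for `Deg`.
-/

set_option linter.unusedSectionVars false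

namespace Pool.Agent.Lib.P0c8ca5.Ex

open Finset

section
variable {T : Type*} [CommGroup T] [Fintype T]

/-- three pairwise not conjugate regular characters of `T / R`, and `(|E| + 1)² ≤ |T / R|` -/
def Deg (K : Type*) [Field K] (E : Subgroup (MulAut T)) (R : Subgroup T) : Prop :=
  (Nat.card E + 1) ^ 2 * Nat.card R ≤ Fintype.card T ∧
  ∃ a : Fin 3 → (T →* Kˣ), (∀ j, eqP R (a j) 1) ∧
    (∀ j, ∀ α ∈ E, (∀ u, a j (α u) = a j u) → α = 1) ∧
    ∀ j k, j ≠ k → ∀ α ∈ E, ¬ ∀ u, a j (α u) = a k u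

end

open YLx

namespace W1x

section
variable {T : Type*} [CommGroup T] [Fintype T] {K : Type*} [Field K] [CharZero K]
  [HasEnoughRootsOfUnity K (Monoid.exponent T)] {E : Subgroup (MulAut T)} {R : Subgroup T}
  [hER : Fact (∀ α ∈ E, ∀ z ∈ R, α z = z)] [Fintype E]

/-- the three characters -/
theorem deg_fam (hM : Deg K E R) : (Fintype.card E + 1) ^ 2 ≤ Fintype.card (LR K R) ∧
    ∃ a : Fin 3 → LR K R, (∀ j, nn E (a j) (a j) = 1) ∧ ∀ j k, j ≠ k → nn E (a j) (a k) = 0 := by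
  obtain ⟨h0, a, h1, h2, h3⟩ := hM
  refine ⟨?_, fun j => ⟨a j, h1 j⟩, fun j => ZBx.nn_self (h2 j), fun j k hjk => ZBx.nn_zero ?_⟩
  · have h4 := card_LR (K := K) R
    rw [← h4, Nat.card_eq_fintype_card (α := E), mul_comm] at h0
    exact Nat.le_of_mul_le_mul_left h0 Nat.card_pos
  · exact fun α hα => h3 k j (Ne.symm hjk) α hα

end

end W1x

section
variable {T : Type*} [CommGroup T] [Fintype T] {K : Type*} [Field K] [CharZero K]
  [HasEnoughRootsOfUnity K (Monoid.exponent T)]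

/-- **the extension** -/
theorem ext_relD {p : ℕ} (hp : p.Prime) (hT : IsPGroup p T) {E : Subgroup (MulAut T)}
    (hE : ¬ p ∣ Nat.card E) {R : Subgroup T} (hER : ∀ α ∈ E, ∀ z ∈ R, α z = z)
    (hDeg : Deg K E R) {I : Type*} [Fintype I] {Θ : I → T → K} (hv : ∀ i, Θ i ∈ vir T K)
    (hR : ∀ i, ∀ z ∈ R, ∀ u, Θ i (z * u) = Θ i u)
    {w : I → K} (hw : ∀ i, w i ≠ 0) (hwΘ : ∀ u, u ∉ R → ∑ i, w i * Θ i u = 0)
    (hG : ∀ u v, u ∉ R → v ∉ R → GramR E R Θ u v) :
    ∃ ψ : I → T → K, (∀ i, ψ i ∈ vir T K) ∧ (∀ i, ∀ z ∈ R, ∀ u, ψ i (z * u) = ψ i u) ∧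
      (∀ i u, u ∉ R → ψ i u = Θ i u) ∧ ∀ u v, GramR E R ψ u v := by
  classical
  have hF : Fact (∀ α ∈ E, ∀ z ∈ R, α z = z) := ⟨hER⟩
  have : Fintype E := Fintype.ofFinite _
  have hcE : Nat.card E = Fintype.card E := Nat.card_eq_fintype_card
  have hgram : ∀ u v, u ∉ R → v ∉ R → (Nat.card R : K) * ∑ i, Θ i u * Θ i v⁻¹
      = (Fintype.card T : K) * (gR E R u v : K) :=
    fun u v hu hv => (ZBx.gram_iff hp hT hE hER Θ u v).1 (hG u v hu hv)
  obtain ⟨M, hM⟩ := int_mlt hv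
  have hGM : ∀ a b c d : LR K R, ∑ i, (M i a.1 - M i b.1) * (M i c.1 - M i d.1)
      = nn E a c - nn E a d - nn E b c + nn E b d := by
    intro a b c d
    have h1 := gram_diff hgram a b c d
    simp only [hM] at h1
    exact_mod_cast h1
  have hsumM : ∀ i u, Θ i u = ∑ a : LR K R, (M i a.1 : K) * chr a.1 u := by
    intro i u
    rw [eq_sum_LR (hR i) u]
    exact sum_congr rfl fun a _ => by rw [hM]
  have hC : ∃ C : I → ℤ, ∀ b c : LR K R,
      ∑ i, (M i b.1 - C i) * (M i c.1 - C i) = nn E b c := by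
    obtain ⟨hL, a, ha1, ha0⟩ := W1x.deg_fam hDeg
    refine W1x.ext_deg (K := K) a ha1 ha0 hL (fun a i => M i a.1) hGM hw fun x y => ?_
    have h1 : ∀ i, w i * ((M i x.1 - M i y.1 : ℤ) : K) = (Fintype.card T : K)⁻¹ *
        ∑ u, (w i * Θ i u) * (chr x.1 u⁻¹ - chr y.1 u⁻¹) := by
      intro i
      push_cast
      rw [← hM, ← hM]
      unfold mlt
      rw [← mul_sub, ← sum_sub_distrib, mul_left_comm, mul_sum]
      congr 1
      exact sum_congr rfl fun u _ => by ring
    rw [sum_congr rfl fun i _ => h1 i, ← mul_sum, sum_comm]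
    have h2 : ∀ u : T, ∑ i, (w i * Θ i u) * (chr x.1 u⁻¹ - chr y.1 u⁻¹) = 0 := by
      intro u
      rw [← sum_mul]
      by_cases hu : u ∈ R
      · rw [chr_LR x (R.inv_mem hu), chr_LR y (R.inv_mem hu), sub_self, mul_zero]
      · rw [hwΘ u hu, zero_mul]
    rw [sum_congr rfl fun u _ => h2 u, sum_const_zero, mul_zero]
  obtain ⟨C, hC⟩ := hC
  refine ⟨fun i u => ∑ a : LR K R, ((M i a.1 - C i : ℤ) : K) * chr a.1 u, ?_, ?_, ?_, ?_⟩
  · intro i
    have h1 : (fun u => ∑ a : LR K R, ((M i a.1 - C i : ℤ) : K) * chr a.1 u)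
        = ∑ a : LR K R, (M i a.1 - C i) • (chr a.1 : T → K) := by
      funext u
      rw [Finset.sum_apply]
      refine sum_congr rfl fun a _ => ?_
      rw [Pi.smul_apply, zsmul_eq_mul]
    change (fun u => ∑ a : LR K R, ((M i a.1 - C i : ℤ) : K) * chr a.1 u) ∈ vir T K
    rw [h1]
    exact sum_mem fun a _ => zsmul_mem (chr_mem a.1) _
  · intro i z hz u
    exact sum_congr rfl fun a _ => by rw [chr_LR_mul a hz]
  · intro i u hu
    change ∑ a : LR K R, ((M i a.1 - C i : ℤ) : K) * chr a.1 u = Θ i u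
    have h1 : ∀ a : LR K R, ((M i a.1 - C i : ℤ) : K) * chr a.1 u
        = (M i a.1 : K) * chr a.1 u - (C i : K) * chr a.1 u := by
      intro a
      push_cast
      ring
    rw [sum_congr rfl fun a _ => h1 a, sum_sub_distrib, ← mul_sum, sum_LR_notMem hu, mul_zero,
      sub_zero, hsumM]
  · intro u v
    refine (ZBx.gram_iff hp hT hE hER _ u v).2 ?_
    refine gram_back (fun a i => ((M i a.1 - C i : ℤ) : K)) (fun i u => rfl) ?_ u v
    intro a c
    rw [← hC a c]
    push_cast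
    rfl

/-- **the uniqueness of the extension** -/
theorem ext_uniqD {p : ℕ} (hp : p.Prime) (hT : IsPGroup p T) {E : Subgroup (MulAut T)}
    (hE : ¬ p ∣ Nat.card E) {R : Subgroup T} (hER : ∀ α ∈ E, ∀ z ∈ R, α z = z)
    (hDeg : Deg K E R) {I : Type*} [Fintype I] {ψ ψ' : I → T → K} (hv : ∀ i, ψ i ∈ vir T K)
    (hv' : ∀ i, ψ' i ∈ vir T K)
    (hR : ∀ i, ∀ z ∈ R, ∀ u, ψ i (z * u) = ψ i u) (hR' : ∀ i, ∀ z ∈ R, ∀ u, ψ' i (z * u) = ψ' i u)
    (he : ∀ i u, u ∉ R → ψ i u = ψ' i u)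
    (hG : ∀ u v, GramR E R ψ u v) (hG' : ∀ u v, GramR E R ψ' u v) : ψ = ψ' := by
  classical
  have hF : Fact (∀ α ∈ E, ∀ z ∈ R, α z = z) := ⟨hER⟩
  have : Fintype E := Fintype.ofFinite _
  have hcE : Nat.card E = Fintype.card E := Nat.card_eq_fintype_card
  have hgram : ∀ ψ : I → T → K, (∀ u v, GramR E R ψ u v) → ∀ u v,
      (Nat.card R : K) * ∑ i, ψ i u * ψ i v⁻¹ = (Fintype.card T : K) * (gR E R u v : K) :=
    fun ψ hG u v => (ZBx.gram_iff hp hT hE hER ψ u v).1 (hG u v)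
  obtain ⟨M, hM⟩ := int_mlt hv
  obtain ⟨M', hM'⟩ := int_mlt hv'
  have hGM : ∀ a c : LR K R, ∑ i, M i a.1 * M i c.1 = nn E a c := by
    intro a c
    have h1 := gram_full (hgram ψ hG) a c
    simp only [hM] at h1
    exact_mod_cast h1
  have hGM' : ∀ a c : LR K R, ∑ i, M' i a.1 * M' i c.1 = nn E a c := by
    intro a c
    have h1 := gram_full (hgram ψ' hG') a c
    simp only [hM'] at h1
    exact_mod_cast h1
  -- three characters which are not conjugate
  have h3 : ∃ a b c : LR K R, nn E a a = 1 ∧ nn E b b = 1 ∧ nn E a b = 0 ∧ nn E a c = 0 ∧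
      nn E b c = 0 := by
    obtain ⟨-, a, ha1, ha0⟩ := W1x.deg_fam hDeg
    exact ⟨a 0, a 1, a 2, ha1 _, ha1 _, ha0 _ _ (by decide), ha0 _ _ (by decide),
      ha0 _ _ (by decide)⟩
  obtain ⟨a, b, c, haa, hbb, hab, hac, hbc⟩ := h3
  have hdiff : ∀ i (x y : LR K R), M' i x.1 - M i x.1 = M' i y.1 - M i y.1 := by
    intro i x y
    have h1 : mlt (ψ' i) x.1 - mlt (ψ i) x.1 = mlt (ψ' i) y.1 - mlt (ψ i) y.1 := by
      unfold mlt
      rw [← mul_sub, ← mul_sub, ← sum_sub_distrib, ← sum_sub_distrib]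
      congr 1
      refine sum_congr rfl fun u _ => ?_
      by_cases hu : u ∈ R
      · rw [chr_LR x (R.inv_mem hu), chr_LR y (R.inv_mem hu)]
      · rw [he i u hu]
        ring
    rw [hM, hM, hM', hM'] at h1
    exact_mod_cast h1
  have hC0 : ∀ i, M' i a.1 - M i a.1 = 0 := by
    have hx : ∀ z : LR K R, ∑ i, (M i z.1 + (M' i a.1 - M i a.1)) ^ 2 = ∑ i, M i z.1 ^ 2 := by
      intro z
      have h1 : ∀ i, (M i z.1 + (M' i a.1 - M i a.1)) ^ 2 = M' i z.1 * M' i z.1 := by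
        intro i
        rw [hdiff i a z]
        ring
      rw [sum_congr rfl fun i _ => h1 i, hGM', ← hGM]
      exact sum_congr rfl fun i _ => (sq _).symm
    refine uniq_pure (fun i => M i a.1) (fun i => M i b.1) (fun i => M i c.1)
      (fun i => M' i a.1 - M i a.1) ?_ ?_ ?_ ?_ ?_ (hx a) (hx b) (hx c)
    · rw [← haa, ← hGM]
      exact sum_congr rfl fun i _ => sq _
    · rw [← hbb, ← hGM]
      exact sum_congr rfl fun i _ => sq _
    · rw [← hab, ← hGM]
    · rw [← hac, ← hGM]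
    · rw [← hbc, ← hGM]
  funext i u
  rw [eq_sum_LR (hR i) u, eq_sum_LR (hR' i) u]
  refine sum_congr rfl fun x _ => ?_
  have h1 := hdiff i x a
  rw [hC0 i] at h1
  have h2 : M' i x.1 = M i x.1 := by linarith
  rw [hM, hM', h2]

/-- the numerical criterion -/
theorem deg_of {p : ℕ} (hp : p.Prime) (hT : IsPGroup p T) {E : Subgroup (MulAut T)}
    (hE : ¬ p ∣ Nat.card E) {R : Subgroup T} (hER : ∀ α ∈ E, ∀ z ∈ R, α z = z) {q : ℕ}
    (hq : ∀ α ∈ E, α ≠ 1 → q ≤ Nat.card (Ku.cm α).range)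
    (hL : (Nat.card E + 1) ^ 2 * Nat.card R ≤ Fintype.card T)
    (hn : q * (2 * Nat.card E) * Nat.card R + (Nat.card E - 1) * Fintype.card T
      < q * Fintype.card T) : Deg K E R := by
  classical
  have hF : Fact (∀ α ∈ E, ∀ z ∈ R, α z = z) := ⟨hER⟩
  have : Fintype E := Fintype.ofFinite _
  have hcE : Nat.card E = Fintype.card E := Nat.card_eq_fintype_card
  have h1 := card_reg_ge (Λ := LR K R) (E := E) (q := q) fun h hh => fix_LRq hp hT hE hq hh
  have h2 := card_LR (K := K) R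
  have h3 : 2 * Fintype.card E < (univ.filter fun a : LR K R => nn E a a = 1).card := by
    by_contra h4
    push Not at h4
    have h5 : q * (univ.filter fun a : LR K R => nn E a a = 1).card
        ≤ q * (2 * Fintype.card E) := Nat.mul_le_mul_left _ h4
    have h6 : Nat.card R * (q * Fintype.card (LR K R)) ≤
        Nat.card R * (q * (2 * Fintype.card E)
          + (Fintype.card E - 1) * Fintype.card (LR K R)) :=
      Nat.mul_le_mul_left _ (by omega)
    rw [← h2, hcE] at hn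
    have h7 : Nat.card R * (q * Fintype.card (LR K R))
        = q * (Nat.card R * Fintype.card (LR K R)) := by ring
    have h8 : Nat.card R * (q * (2 * Fintype.card E)
          + (Fintype.card E - 1) * Fintype.card (LR K R))
        = q * (2 * Fintype.card E) * Nat.card R
          + (Fintype.card E - 1) * (Nat.card R * Fintype.card (LR K R)) := by ring
    rw [h7, h8] at h6
    exact absurd hn (not_lt.2 h6)
  obtain ⟨a, ha1, ha0⟩ := reg_pts (E := E) 2 h3
  refine ⟨hL, fun j => (a j).1, fun j => (a j).2, fun j α hα hj => ?_, fun j k hjk α hα hj => ?_⟩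
  · have h4 := ha1 j
    have h5 : (⟨α, hα⟩ : E)⁻¹ • a j = a j := (ZBx.smul_iff _ _ _).2 fun u => by
      rw [inv_inv]
      exact hj u
    unfold nn at h4
    have h6 : (univ.filter fun h : E => h • a j = a j).card = 1 := by exact_mod_cast h4
    obtain ⟨g, hg⟩ := card_eq_one.1 h6
    have h7 : (⟨α, hα⟩ : E)⁻¹ ∈ univ.filter fun h : E => h • a j = a j :=
      mem_filter.2 ⟨mem_univ _, h5⟩
    have h8 : (1 : E) ∈ univ.filter fun h : E => h • a j = a j :=
      mem_filter.2 ⟨mem_univ _, one_smul _ _⟩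
    rw [hg, mem_singleton] at h7 h8
    have h9 : (⟨α, hα⟩ : E) = 1 := inv_eq_one.1 (h7.trans h8.symm)
    exact congrArg Subtype.val h9
  · have h4 := ha0 k j (Ne.symm hjk)
    have h5 : (⟨α, hα⟩ : E)⁻¹ • a j = a k := (ZBx.smul_iff _ _ _).2 fun u => by
      rw [inv_inv]
      exact hj u
    unfold nn at h4
    have h6 : (univ.filter fun h : E => h • a j = a k).card = 0 := by exact_mod_cast h4
    have h7 : (⟨α, hα⟩ : E)⁻¹ ∈ univ.filter fun h : E => h • a j = a k :=
      mem_filter.2 ⟨mem_univ _, h5⟩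
    rw [card_eq_zero.1 h6] at h7
    exact absurd h7 (notMem_empty _)

end

end Pool.Agent.Lib.P0c8ca5.Ex
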