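import Mathlib
import Pool.Agent.Lib.P0c8ca5Ex.ZB
import Pool.Agent.Lib.P0c8ca5Ex.YOc

/-!
# ZC: the rows, any `|E|` (K2)
-/

set_option linter.unusedSectionVars false

namespace Pool.Agent.Lib.P0c8ca5.Ex

open MonoidAlgebra

section
variable {p : ℕ} [Fact p.Prime] {k : Type*} [Field k] [IsAlgClosed k] [CharP k p]
  {A : Type*} [Group A] [Finite A] {T : Type*} [CommGroup T] [Fintype T]
  {φ : T →* A} {b f i : MonoidAlgebra k A} {D : Subgroup A} {R : Subgroup T}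
  {G : Subgroup T → A → KW p k}

/-- **the rows** if `T / R` has many regular characters -/
theorem exists_rowsL (h : Stp φ b D f i R G) (hpE : ¬ p ∣ eN D f)
    (hM : Many (KW p k) (EG φ D f) R) {B : MonoidAlgebra (OW p k) A} (hB : CenL b B) :
    ∃ ψ : IR φ R B → T → KW p k, Rows φ D f R G B ψ := by
  have hp : p.Prime := Fact.out
  have hcE : ¬ p ∣ Nat.card (EG φ D f) := by rwa [card_EG h.inj h.ran]
  obtain ⟨Θ, h1, h2, h3, h4⟩ := rows_glue h hcE hB
  obtain ⟨ψ, h5, h6, h7, h8⟩ := ext_relL hp (isPG h) hcE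
    (fun α hα z hz => YmAux.fix_cen h.inj hα (h.cen z hz)) hM h1 h2 h4
  exact ⟨ψ, ext_Rows h3 h5 h6 h7 h8⟩

end

end Pool.Agent.Lib.P0c8ca5.Ex
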