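import Mathlib
import Pool.Agent.Lib.P0c8ca5Ex.ZC
import Pool.Agent.Lib.P0c8ca5Ex.ZBb

/-!
# ZCb: the rows in the case `Thin` and in both cases (K2)
-/

set_option linter.unusedSectionVars false

namespace Pool.Agent.Lib.P0c8ca5.Ex

open MonoidAlgebra

section
variable {p : ℕ} [Fact p.Prime] {k : Type*} [Field k] [IsAlgClosed k] [CharP k p]
  {A : Type*} [Group A] [Finite A] {T : Type*} [CommGroup T] [Fintype T]
  {φ : T →* A} {b f i : MonoidAlgebra k A} {D : Subgroup A} {R : Subgroup T}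
  {G : Subgroup T → A → KW p k}

/-- the elements outside `R` are regular -/
theorem reg_thin (h : Stp φ b D f i R G) (hpE : ¬ p ∣ eN D f)
    (hfree : FreeR (KW p k) (EG φ D f) R) {u : T} (hu : u ∉ R) : Reg D f (φ u) := by
  have hcE : ¬ p ∣ Nat.card (EG φ D f) := by rwa [card_EG h.inj h.ran]
  rw [← st_EG h.inj h.ran, st, Nat.card_eq_one_iff_unique]
  refine ⟨⟨fun a b => ?_⟩, ⟨⟨1, rfl⟩⟩⟩
  have key : ∀ a : {ψ : EG φ D f // (ψ : MulAut T) u = u}, (a : EG φ D f) = 1 := by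
    intro a
    exact Subtype.ext (ZBbx.free_dual Fact.out (isPG h) hcE
      (fun α hα z hz => YmAux.fix_cen h.inj hα (h.cen z hz)) hfree hu a.1.2 a.2)
  exact Subtype.ext ((key a).trans (key b).symm)

/-- the number of the rows -/
theorem card_thin (h : Stp φ b D f i R G) (hpE : ¬ p ∣ eN D f) {N : ℕ}
    (hNc : N * Nat.card (EG φ D f) * Nat.card R < Fintype.card T)
    {B : MonoidAlgebra (OW p k) A} (hB : CenL b B) : N < Fintype.card (IR φ R B) := by
  have hcE : ¬ p ∣ Nat.card (EG φ D f) := by rwa [card_EG h.inj h.ran]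
  have hfE := finite_EG (φ := φ) (D := D) (f := f)
  obtain ⟨n, E, hn, hE1, hE2, hE3⟩ := YOaAux.exists_famA h.src.root.blk hB
  obtain ⟨t, ht1, ht2⟩ := YOaAux.count h hcE hB hE1 hE2 hE3
  have hn1 : 1 ≤ n := by
    rw [hn]
    exact irr_nonempty h.src.root.blk
  have hR : 0 < Nat.card R := Nat.card_pos
  have hE : 0 < Nat.card (EG φ D f) := Nat.card_pos
  obtain ⟨m, hm⟩ : Nat.card R ∣ Fintype.card T := by
    rw [← Nat.card_eq_fintype_card]
    exact Subgroup.card_subgroup_dvd_card R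
  rw [hm, mul_comm] at hNc
  have h1 : N * Nat.card (EG φ D f) < m := Nat.lt_of_mul_lt_mul_left hNc
  have h2 : Fintype.card T - Nat.card R = Nat.card R * (m - 1) := by
    rw [hm, Nat.mul_sub_one]
  rw [h2, mul_assoc] at ht2
  have h3 : m - 1 ≤ Nat.card (EG φ D f) * t := Nat.le_of_mul_le_mul_left ht2 hR
  have h4 : Nat.card (EG φ D f) * N ≤ Nat.card (EG φ D f) * t := by
    rw [mul_comm (Nat.card (EG φ D f)) N]
    omega
  have h5 : N ≤ t := Nat.le_of_mul_le_mul_left h4 hE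
  omega

/-- the rows in the case `Thin` -/
theorem exists_rowsT (hp2 : p ≠ 2) (h : Stp φ b D f i R G) (hpE : ¬ p ∣ eN D f)
    (hM : Thin (KW p k) (EG φ D f) R) {B : MonoidAlgebra (OW p k) A} (hB : CenL b B) :
    ∃ ψ : IR φ R B → T → KW p k, Rows φ D f R G B ψ := by
  have hp : p.Prime := Fact.out
  have hcE : ¬ p ∣ Nat.card (EG φ D f) := by rwa [card_EG h.inj h.ran]
  have hfE := finite_EG (φ := φ) (D := D) (f := f)
  obtain ⟨hfree, N, hN5, hNe, hNc⟩ := hM
  obtain ⟨Θ, h1, h2, h3, h4⟩ := rows_glue h hcE hB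
  obtain ⟨u, hu⟩ : ∃ u, u ∉ R := by
    by_contra hcon
    push Not at hcon
    have h5 : R = ⊤ := (Subgroup.eq_top_iff' R).2 hcon
    rw [h5, Subgroup.card_top, ← Nat.card_eq_fintype_card (α := T)] at hNc
    have h6 : 0 < Nat.card (EG φ D f) := Nat.card_pos
    have h7 : 1 ≤ N * Nat.card (EG φ D f) := Nat.mul_pos (by omega) h6
    have h8 : 0 < Nat.card T := Nat.card_pos
    exact absurd hNc (not_lt.2 (Nat.le_mul_of_pos_left _ h7))
  obtain ⟨ψ, h5, h6, h7, h8⟩ := ext_relT hp (isPG h) hcE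
    (fun α hα z hz => YmAux.fix_cen h.inj hα (h.cen z hz)) hfree hN5 hNe hNc
    (card_thin h hpE hNc hB) h1 h2 h4
    (fun χ => ⟨u, hu, by rw [h3 χ u hu]; exact rwv_ne hp2 h hpE hB χ.2.2 hu (reg_thin h hpE hfree hu)⟩)
  exact ⟨ψ, ext_Rows h3 h5 h6 h7 h8⟩

/-- **the rows** in both cases -/
theorem exists_rowsX (hp2 : p ≠ 2) (h : Stp φ b D f i R G) (hpE : ¬ p ∣ eN D f)
    (hM : Many (KW p k) (EG φ D f) R ∨ Thin (KW p k) (EG φ D f) R)
    {B : MonoidAlgebra (OW p k) A} (hB : CenL b B) :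
    ∃ ψ : IR φ R B → T → KW p k, Rows φ D f R G B ψ := by
  rcases hM with h1 | h1
  · exact exists_rowsL h hpE h1 hB
  · exact exists_rowsT hp2 h hpE h1 hB

end

end Pool.Agent.Lib.P0c8ca5.Ex
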