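import Mathlib
import Pool.Agent.Lib.P0c8ca5Ex.W1b
import Pool.Agent.Lib.P0c8ca5Ex.ZCb

/-!
# W1c: the rows in the case `Deg` (K2)

The weights are `chO χ B ≠ 0` (`B` is idempotent), orthogonal to the rows outside `R` by `col_rowI`.
-/

set_option linter.unusedSectionVars false

namespace Pool.Agent.Lib.P0c8ca5.Ex

open MonoidAlgebra

section
variable {p : ℕ} [Fact p.Prime] {k : Type*} [Field k] [IsAlgClosed k] [CharP k p]
  {A : Type*} [Group A] [Finite A] {T : Type*} [CommGroup T] [Fintype T]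
  {φ : T →* A} {b f i : MonoidAlgebra k A} {D : Subgroup A} {R : Subgroup T}
  {G : Subgroup T → A → KW p k}

/-- **the rows** in the case `Deg` -/
theorem exists_rowsD (h : Stp φ b D f i R G) (hpE : ¬ p ∣ eN D f)
    (hM : Deg (KW p k) (EG φ D f) R) {B : MonoidAlgebra (OW p k) A} (hB : CenL b B) :
    ∃ ψ : IR φ R B → T → KW p k, Rows φ D f R G B ψ := by
  have hp : p.Prime := Fact.out
  have hcE : ¬ p ∣ Nat.card (EG φ D f) := by rwa [card_EG h.inj h.ran]
  obtain ⟨Θ, h1, h2, h3, h4⟩ := rows_glue h hcE hB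
  obtain ⟨ψ, h5, h6, h7, h8⟩ := ext_relD hp (isPG h) hcE
    (fun α hα z hz => YmAux.fix_cen h.inj hα (h.cen z hz)) hM h1 h2
    (w := fun χ => chO χ.1 B) (fun χ => χ.2.2) (fun u hu => by
      refine Eq.trans (Finset.sum_congr rfl fun χ _ => ?_)
        (YOaAux.col_rowI h (B := B) hB.idem (fun χ hχ => hχ) hu)
      rw [h3 χ u hu]) h4
  exact ⟨ψ, ext_Rows h3 h5 h6 h7 h8⟩

/-- the rows in all cases -/
theorem exists_rowsY (hp2 : p ≠ 2) (h : Stp φ b D f i R G) (hpE : ¬ p ∣ eN D f)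
    (hM : Many (KW p k) (EG φ D f) R ∨ Thin (KW p k) (EG φ D f) R ∨ Deg (KW p k) (EG φ D f) R)
    {B : MonoidAlgebra (OW p k) A} (hB : CenL b B) :
    ∃ ψ : IR φ R B → T → KW p k, Rows φ D f R G B ψ := by
  rcases hM with h1 | h1 | h1
  · exact exists_rowsL h hpE h1 hB
  · exact exists_rowsT hp2 h hpE h1 hB
  · exact exists_rowsD h hpE h1 hB

end

end Pool.Agent.Lib.P0c8ca5.Ex
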