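import Mathlib
import Pool.Agent.Lib.P0c8ca5Ex.YC

/-!
# ZD0: the congruence of the class function at `Q` modulo `q` (K2)

`Cq q φ D f i G Q` is the clause `cong` of `GOK` with `q` in place of `p`.
-/

set_option linter.unusedSectionVars false

namespace Pool.Agent.Lib.P0c8ca5.Ex

open MonoidAlgebra

section
variable {p : ℕ} [Fact p.Prime] {k : Type*} [Field k] [IsAlgClosed k] [CharP k p]
  {A : Type*} [Group A] [Finite A] {T : Type*} [CommGroup T] [Fintype T]

/-- the clause `cong` of `GOK` modulo `q` -/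
def Cq (q : ℕ) (φ : T →* A) (D : Subgroup A) (f i : MonoidAlgebra k A)
    (G : Subgroup T → A → KW p k) (Q : Subgroup T) : Prop :=
  ∀ c, LbH (cq φ Q) i c → ∀ X ∈ VA (p := p) (dnr (cq φ Q) c),
    ∀ Y ∈ VA (p := p) (dnr (cq φ Q) c), ∃ m a a' : ℤ,
      (Fintype.card T : KW p k) * (eQ φ D f Q : KW p k) * ip (rg p X) Y = m ∧
      ip X (on (cq φ Q) (G Q)) = a ∧ ip Y (on (cq φ Q) (G Q)) = a' ∧ (q : ℤ) ∣ m - a * a'

variable {φ : T →* A} {D : Subgroup A} {f i : MonoidAlgebra k A}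
  {G : Subgroup T → A → KW p k} {Q : Subgroup T}

theorem GOK.cq (h : GOK φ D f i G Q) : Cq p φ D f i G Q := h.cong

end

end Pool.Agent.Lib.P0c8ca5.Ex
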