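import Mathlib
import Pool.Agent.Lib.P0c8ca5Ex.YWa

/-!
# ZDa: the local block at a subgroup with trivial inertial quotient
-/

set_option linter.unusedSectionVars false

namespace Pool.Agent.Lib.P0c8ca5.Ex

open MonoidAlgebra

section
variable {p : ℕ} [Fact p.Prime] {k : Type*} [Field k] [IsAlgClosed k] [CharP k p]
  {A : Type*} [Group A] [Finite A] {T : Type*} [CommGroup T] [Fintype T]
  {φ : T →* A} {b f i : MonoidAlgebra k A} {D : Subgroup A} {Q : Subgroup T}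
  {G : Subgroup T → A → KW p k}

theorem map_le_ran (hr : ∀ x, x ∈ D ↔ ∃ t, φ t = x) (Q : Subgroup T) : Q.map φ ≤ D := by
  rintro _ ⟨t, _, rfl⟩
  exact (hr _).2 ⟨t, rfl⟩

/-- the local block at a subgroup with trivial inertial quotient is nilpotent -/
theorem nil_one (hp2 : p ≠ 2) (h : Src p b D f i) (hφ : Function.Injective φ)
    (hr : ∀ x, x ∈ D ↔ ∃ t, φ t = x) (hQ : eQ φ D f Q = 1) {c : MonoidAlgebra k A}
    (hc : LbH (cq φ Q) i c) {B : MonoidAlgebra (OW p k) ↥(cq φ Q)}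
    (hB : CenL (dnr (cq φ Q) c) B) : NilC (D.subgroupOf (cq φ Q)) B := by
  have hle : Q.map φ ≤ D := map_le_ran hr Q
  have hDQ : D ≤ CD (Q.map φ) := (D_le_CD h.root.com).trans (Subgroup.centralizer_le hle)
  have hroot := (Lb.src h hle (hc.toLb rfl)).root
  refine nil hp2 hroot (fun g hg => ?_) hB
  have hfs : SuppIn (CD (Q.map φ)) f :=
    h.root.fblk.suppIn.mono (Subgroup.centralizer_le hle)
  rw [LocAux.mem_CD_sub hDQ]
  have hgS : (g : A) ∈ St D f := LocAux.st_up hDQ hfs hg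
  obtain ⟨ψ, hψ, hψ'⟩ := exists_EG (f := f) hφ hr hgS
  have h1 : ∀ t ∈ Q, ψ t = t := by
    intro t ht
    apply hφ
    rw [hψ', ← Subgroup.mem_centralizer_iff.1 g.2 (φ t) ⟨t, ht, rfl⟩, mul_inv_cancel_right]
  rw [eQ, Nat.card_eq_one_iff_unique] at hQ
  have h2 : (⟨⟨ψ, hψ⟩, h1⟩ : {α : ↥(EG φ D f) // ∀ t ∈ Q, (α : MulAut T) t = t})
      = ⟨1, fun t _ => rfl⟩ := hQ.1.elim _ _
  have h3 : ψ = 1 := congrArg (fun x : {α : ↥(EG φ D f) // ∀ t ∈ Q, (α : MulAut T) t = t} =>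
    ((x : ↥(EG φ D f)) : MulAut T)) h2
  rw [Subgroup.mem_centralizer_iff]
  intro d hd
  obtain ⟨t, rfl⟩ := (hr d).1 hd
  have h4 := hψ' t
  rw [h3, MulAut.one_apply, eq_mul_inv_iff_mul_eq] at h4
  exact h4

theorem card_sub_ran (h : Src p b D f i) (hφ : Function.Injective φ)
    (hr : ∀ x, x ∈ D ↔ ∃ t, φ t = x) (Q : Subgroup T) :
    Nat.card ↥(D.subgroupOf (cq φ Q)) = Fintype.card T := by
  have hle : D ≤ cq φ Q :=
    (D_le_CD h.root.com).trans (Subgroup.centralizer_le (map_le_ran hr Q))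
  have hD : D = (⊤ : Subgroup T).map φ := by
    ext x
    rw [hr]
    constructor
    · rintro ⟨t, rfl⟩
      exact ⟨t, trivial, rfl⟩
    · rintro ⟨t, -, ht⟩
      exact ⟨t, ht⟩
  rw [Nat.card_congr (Subgroup.subgroupOfEquivOfLe hle).toEquiv, hD,
    ← Nat.card_congr ((⊤ : Subgroup T).equivMapOfInjective φ hφ).toEquiv, Subgroup.card_top,
    Nat.card_eq_fintype_card]

/-- if the inertial quotient at `Q` is trivial, the congruence for `G Q` is an equality -/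
theorem eq_one (hp2 : p ≠ 2) (h : Src p b D f i) (hφ : Function.Injective φ)
    (hr : ∀ x, x ∈ D ↔ ∃ t, φ t = x) (hQ : eQ φ D f Q = 1) (hG : GOK φ D f i G Q)
    {c : MonoidAlgebra k A} (hc : LbH (cq φ Q) i c) {X : ↥(cq φ Q) → KW p k}
    (hX : X ∈ VA (p := p) (dnr (cq φ Q) c)) (Y : ↥(cq φ Q) → KW p k) :
    (Fintype.card T : KW p k) * ip (rg p X) Y
      = ip X (on (cq φ Q) (G Q)) * ip Y (on (cq φ Q) (G Q)) := by
  obtain ⟨B, hB⟩ := exists_cenB (p := p) hc.blk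
  have hnil := nil_one hp2 h hφ hr hQ hc hB
  have hcard := card_sub_ran h hφ hr Q
  have hT0 : (Fintype.card T : KW p k) ≠ 0 := Nat.cast_ne_zero.2 Fintype.card_ne_zero
  set Γ := on (cq φ Q) (G Q) with hΓdef
  have hΓ : Γ ∈ VA (p := p) (dnr (cq φ Q) c) := hG.blk c hc
  have hΓreg : rg p Γ = Γ := rg_eq fun x hx => hG.reg _ fun h1 => hx ((FIAux.preg_coe' x).1 h1)
  set α : KW p k := (Fintype.card T : KW p k)⁻¹ * ip Γ (gB B) with hα
  have hg : ∀ {Z : ↥(cq φ Q) → KW p k}, Z ∈ VA (p := p) (dnr (cq φ Q) c) →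
      rg p Z = ((Fintype.card T : KW p k)⁻¹ * ip Z (gB B)) • gB B := by
    intro Z hZ
    funext x
    have h2 := rg_gB hB hnil hZ x
    rw [hcard] at h2
    rw [Pi.smul_apply, smul_eq_mul, mul_assoc, ← h2, inv_mul_cancel_left₀ hT0]
  have h1 : Γ = α • gB B := by
    conv_lhs => rw [← hΓreg]
    exact hg hΓ
  have hgg : ip (gB B) (gB B) = (Fintype.card T : KW p k) := by
    rw [ip_gB_gB, hnil.card, hcard]
  have h2 : α * α = 1 := by
    have h3 := hG.nrm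
    rw [← hΓdef, hQ, Nat.cast_one, mul_one, h1, ip_smul, ip_comm, ip_smul, hgg, ← mul_assoc] at h3
    exact mul_right_cancel₀ hT0 (by rw [h3, one_mul])
  have hZ : ∀ Z : ↥(cq φ Q) → KW p k, ip Z Γ = α * ip (gB B) Z := by
    intro Z
    rw [h1, ip_comm, ip_smul]
  rw [hZ, hZ, hg hX, ip_smul, ip_comm X (gB B)]
  calc (Fintype.card T : KW p k) * ((Fintype.card T : KW p k)⁻¹ * ip (gB B) X * ip (gB B) Y)
      = ip (gB B) X * ip (gB B) Y := by
        rw [mul_assoc (Fintype.card T : KW p k)⁻¹, mul_inv_cancel_left₀ hT0]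
    _ = (α * α) * (ip (gB B) X * ip (gB B) Y) := by rw [h2, one_mul]
    _ = α * ip (gB B) X * (α * ip (gB B) Y) := by ring

end

end Pool.Agent.Lib.P0c8ca5.Ex
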