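import Mathlib
import Pool.Agent.Lib.P0c8ca5Ex.ZDa

/-!
# ZDb: `cong` modulo every `q` at a subgroup with trivial inertial quotient
-/

set_option linter.unusedSectionVars false

namespace Pool.Agent.Lib.P0c8ca5.Ex

open MonoidAlgebra

section
variable {p : ℕ} [Fact p.Prime] {k : Type*} [Field k] [IsAlgClosed k] [CharP k p]
  {A : Type*} [Group A] [Finite A] {T : Type*} [CommGroup T] [Fintype T]
  {φ : T →* A} {b f i : MonoidAlgebra k A} {D : Subgroup A} {Q : Subgroup T}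
  {G : Subgroup T → A → KW p k}

/-- the clause `Cq q φ D f i G Q`, unfolded, when `eQ φ D f Q = 1` -/
theorem cq_one_aux (q : ℕ) (hp2 : p ≠ 2) (h : Src p b D f i) (hφ : Function.Injective φ)
    (hr : ∀ x, x ∈ D ↔ ∃ t, φ t = x) (hQ : eQ φ D f Q = 1) (hG : GOK φ D f i G Q) :
    ∀ c, LbH (cq φ Q) i c → ∀ X ∈ VA (p := p) (dnr (cq φ Q) c),
      ∀ Y ∈ VA (p := p) (dnr (cq φ Q) c), ∃ m a a' : ℤ,
        (Fintype.card T : KW p k) * (eQ φ D f Q : KW p k) * ip (rg p X) Y = m ∧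
        ip X (on (cq φ Q) (G Q)) = a ∧ ip Y (on (cq φ Q) (G Q)) = a' ∧
        (q : ℤ) ∣ m - a * a' := by
  intro c hc X hX Y hY
  obtain ⟨a, ha⟩ := ip_int hX.1 (hG.blk c hc).1
  obtain ⟨a', ha'⟩ := ip_int hY.1 (hG.blk c hc).1
  refine ⟨a * a', a, a', ?_, ha, ha', by rw [sub_self]; exact dvd_zero _⟩
  rw [hQ, Nat.cast_one, mul_one, eq_one hp2 h hφ hr hQ hG hc hX Y, ha, ha', Int.cast_mul]

end

end Pool.Agent.Lib.P0c8ca5.Ex
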