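import Mathlib
import Pool.Agent.Lib.P0c8ca5Ex.YJ

/-!
# ZDn: the positive form of a local block and the local identity for a modulus `q`

* `locNq_aux`: `locN` (YG) with `q` instead of `p` in the congruence.
* `loc_idq_aux`: `loc_id` (YJ) with an arbitrary factor `r` of the form.
-/

set_option linter.unusedSectionVars false

namespace Pool.Agent.Lib.P0c8ca5.Ex

open MonoidAlgebra

section
variable {p : ℕ} [Fact p.Prime] {k : Type*} [Field k] [IsAlgClosed k] [CharP k p]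
  {A : Type*} [Group A] [Finite A]
  {T : Type*} [CommGroup T] [Fintype T]
  {φ : T →* A} {b f i : MonoidAlgebra k A} {D : Subgroup A} {Q R : Subgroup T}
  {G : Subgroup T → A → KW p k}

open YGAux YJAux

theorem locNq_aux {q : ℕ} (hq0 : 0 < q) (h : GOK φ D f i G Q)
    (hC : ∀ c, LbH (cq φ Q) i c → ∀ X ∈ VA (p := p) (dnr (cq φ Q) c),
      ∀ Y ∈ VA (p := p) (dnr (cq φ Q) c), ∃ m a a' : ℤ,
        (Fintype.card T : KW p k) * (eQ φ D f Q : KW p k) * ip (rg p X) Y = m ∧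
        ip X (on (cq φ Q) (G Q)) = a ∧ ip Y (on (cq φ Q) (G Q)) = a' ∧ (q : ℤ) ∣ m - a * a')
    {c : MonoidAlgebra k A} (hc : LbH (cq φ Q) i c)
    {BH : MonoidAlgebra (OW p k) ↥(cq φ Q)} (hB : CenL (dnr (cq φ Q) c) BH) :
    ∃ N : Ir (KW p k) ↥(cq φ Q) → Ir (KW p k) ↥(cq φ Q) → ℤ, PSD N ∧
      (∀ s t, chO s BH = 0 ∨ chO t BH = 0 → N s t = 0) ∧
      ∀ s t, chO s BH ≠ 0 → chO t BH ≠ 0 →
        (Fintype.card T : KW p k) * (eQ φ D f Q : KW p k) * ip (rg p (ch s)) (ch t)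
          = ip (ch s) (on (cq φ Q) (G Q)) * ip (ch t) (on (cq φ Q) (G Q))
            + (q : KW p k) * (N s t : KW p k) := by
  classical
  have hpK : (q : KW p k) ≠ 0 := Nat.cast_ne_zero.2 hq0.ne'
  have h1 : ∀ s t, chO s BH ≠ 0 → chO t BH ≠ 0 → ∃ z : ℤ,
      (Fintype.card T : KW p k) * (eQ φ D f Q : KW p k) * ip (rg p (ch s)) (ch t)
          = ip (ch s) (on (cq φ Q) (G Q)) * ip (ch t) (on (cq φ Q) (G Q))
            + (q : KW p k) * (z : KW p k) := by
    intro s t hs ht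
    obtain ⟨m, a, a', h2, h3, h4, z, h5⟩ := hC c hc _ (ch_mem_VA hB hs) _ (ch_mem_VA hB ht)
    refine ⟨z, ?_⟩
    have h6 : m = a * a' + (q : ℤ) * z := by rw [← h5]; ring
    rw [h2, h3, h4, h6]
    push_cast
    rfl
  choose z hz using h1
  obtain ⟨N, hN⟩ : ∃ N : Ir (KW p k) ↥(cq φ Q) → Ir (KW p k) ↥(cq φ Q) → ℤ,
      ∀ s t, N s t = if h : chO s BH ≠ 0 ∧ chO t BH ≠ 0 then z s t h.1 h.2 else 0 :=
    ⟨_, fun _ _ => rfl⟩
  have hN0 : ∀ s t, chO s BH = 0 ∨ chO t BH = 0 → N s t = 0 := by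
    intro s t hst
    rw [hN, dif_neg]
    rintro ⟨h2, h3⟩
    rcases hst with h4 | h4
    · exact h2 h4
    · exact h3 h4
  have hN1 : ∀ s t, chO s BH ≠ 0 → chO t BH ≠ 0 →
        (Fintype.card T : KW p k) * (eQ φ D f Q : KW p k) * ip (rg p (ch s)) (ch t)
          = ip (ch s) (on (cq φ Q) (G Q)) * ip (ch t) (on (cq φ Q) (G Q))
            + (q : KW p k) * (N s t : KW p k) := by
    intro s t hs ht
    rw [hN, dif_pos ⟨hs, ht⟩]
    exact hz s t hs ht
  refine ⟨N, ⟨fun s t => ?_, fun x => ?_⟩, hN0, hN1⟩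
  · by_cases hs : chO s BH = 0
    · rw [hN0 s t (Or.inl hs), hN0 t s (Or.inr hs)]
    by_cases ht : chO t BH = 0
    · rw [hN0 s t (Or.inr ht), hN0 t s (Or.inl ht)]
    have h2 := hN1 s t hs ht
    have h3 := hN1 t s ht hs
    rw [ip_rg_comm, h3, mul_comm (ip (ch t) _)] at h2
    have h4 := mul_left_cancel₀ hpK (add_left_cancel h2)
    exact (Int.cast_injective h4).symm
  · -- the element of the block
    let x' : Ir (KW p k) ↥(cq φ Q) → ℤ := fun s => if chO s BH = 0 then 0 else x s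
    have hx0 : ∀ s, chO s BH = 0 → x' s = 0 := fun s hs => if_pos hs
    have hx1 : ∀ s, chO s BH ≠ 0 → x' s = x s := fun s hs => if_neg hs
    have hbf : bf N x x = bf N x' x' := by
      unfold bf
      refine Finset.sum_congr rfl fun s _ => Finset.sum_congr rfl fun t _ => ?_
      by_cases hs : chO s BH = 0
      · rw [hN0 s t (Or.inl hs), zero_mul, zero_mul]
      by_cases ht : chO t BH = 0
      · rw [hN0 s t (Or.inr ht), zero_mul, zero_mul]
      rw [hx1 s hs, hx1 t ht]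
    set Γ := on (cq φ Q) (G Q) with hΓ
    have hΓV : Γ ∈ V (KW p k) ↥(cq φ Q) := (h.blk c hc).1
    have hΓr : rg p Γ = Γ := by
      refine rg_eq fun y hy => h.reg _ fun h2 => hy ?_
      unfold Preg at h2 ⊢
      rwa [Subgroup.orderOf_coe] at h2
    let X : ↥(cq φ Q) → KW p k := fun y => ∑ s : Ir (KW p k) ↥(cq φ Q), (x' s : KW p k) * ch s y
    have hXV : X ∈ V (KW p k) ↥(cq φ Q) := V_of_sum x'
    obtain ⟨w, -, hw, -⟩ := rg_nonneg (p := p) hXV
    obtain ⟨b, hb⟩ := ip_int hXV hΓV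
    -- the number `n`
    obtain ⟨n, hn⟩ : ∃ n : ℕ, n = Fintype.card T * eQ φ D f Q := ⟨_, rfl⟩
    have hnK : (n : KW p k) = (Fintype.card T : KW p k) * (eQ φ D f Q : KW p k) := by
      rw [hn, Nat.cast_mul]
    have hn0 : 0 < n := by
      rw [hn]
      refine Nat.mul_pos Fintype.card_pos ?_
      have : Nonempty {α : ↥(EG φ D f) // ∀ t ∈ Q, (α : MulAut T) t = t} :=
        ⟨⟨1, fun t _ => rfl⟩⟩
      exact Nat.card_pos
    -- `n w = b² + p bf N x' x'`
    have h2 : (n : KW p k) * (w : KW p k)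
        = (b : KW p k) ^ 2 + (q : KW p k) * ((bf N x' x' : ℤ) : KW p k) := by
      have h3 : ip (rg p X) X = ∑ s, ∑ t, (x' s : KW p k) * (x' t : KW p k) *
          ip (rg p (ch s)) (ch t) := by
        rw [ip_rg, ip_sum_left]
        refine Finset.sum_congr rfl fun s _ => ?_
        rw [← ip_rg, ip_comm, ip_sum_left, Finset.mul_sum]
        refine Finset.sum_congr rfl fun t _ => ?_
        rw [ip_comm (ch t), mul_assoc]
      have h4 : (b : KW p k) = ∑ s, (x' s : KW p k) * ip (ch s) Γ := by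
        rw [← hb, ip_sum_left]
      rw [← hw, h3, hnK, pow_two, h4, Finset.sum_mul_sum]
      unfold bf
      push_cast
      rw [Finset.mul_sum, Finset.mul_sum, ← Finset.sum_add_distrib]
      refine Finset.sum_congr rfl fun s _ => ?_
      rw [Finset.mul_sum, Finset.mul_sum, ← Finset.sum_add_distrib]
      refine Finset.sum_congr rfl fun t _ => ?_
      by_cases hs : chO s BH = 0
      · rw [hx0 s hs]
        simp
      by_cases ht : chO t BH = 0
      · rw [hx0 t ht]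
        simp
      have h5 := hN1 s t hs ht
      calc (Fintype.card T : KW p k) * (eQ φ D f Q : KW p k) *
            ((x' s : KW p k) * (x' t : KW p k) * ip (rg p (ch s)) (ch t))
          = (x' s : KW p k) * (x' t : KW p k) * ((Fintype.card T : KW p k) *
            (eQ φ D f Q : KW p k) * ip (rg p (ch s)) (ch t)) := by ring
        _ = _ := by rw [h5]; ring
    -- Cauchy-Schwarz
    have hZV : (fun y => (n : KW p k) * X y + (-(b : KW p k)) * Γ y) ∈ V (KW p k) ↥(cq φ Q) := by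
      have e : (fun y => (n : KW p k) * X y + (-(b : KW p k)) * Γ y)
          = (n : ℤ) • X + (-b) • Γ := by
        funext y
        rw [Pi.add_apply, Pi.smul_apply, Pi.smul_apply, zsmul_eq_mul, zsmul_eq_mul]
        push_cast
        rfl
      rw [e]
      exact AddSubgroup.add_mem _ (AddSubgroup.zsmul_mem _ hXV _)
        (AddSubgroup.zsmul_mem _ hΓV _)
    obtain ⟨w', hw0, hw', -⟩ := rg_nonneg (p := p) hZV
    have h6 : (w' : KW p k) = (n : KW p k) * ((n : KW p k) * (w : KW p k) - (b : KW p k) ^ 2) := by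
      have e : (fun y => (n : KW p k) * X y + (-(b : KW p k)) * Γ y)
          = (n : KW p k) • X + (-(b : KW p k)) • Γ := rfl
      have e1 : ip (rg p X) Γ = b := by rw [ip_rg, hΓr, hb]
      have e2 : ip (rg p Γ) X = b := by rw [hΓr, ip_comm, hb]
      have e3 : ip (rg p Γ) Γ = n := by rw [hΓr, h.nrm, hnK]
      rw [← hw', e, rg_add, rg_smul, rg_smul, ip_add, ip_smul, ip_smul,
        ip_comm (rg p X), ip_comm (rg p Γ), ip_add, ip_add, ip_smul, ip_smul, ip_smul, ip_smul,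
        ip_comm X, ip_comm Γ (rg p X), ip_comm X (rg p Γ), ip_comm Γ (rg p Γ), hw, e1, e2, e3]
      ring
    have h7 : (w' : ℚ) = (n : ℚ) * ((n : ℚ) * w - (b : ℚ) ^ 2) := by
      have h8 : ((w' : ℚ) : KW p k) = (((n : ℚ) * ((n : ℚ) * w - (b : ℚ) ^ 2) : ℚ) : KW p k) := by
        rw [h6]
        push_cast
        rfl
      exact Rat.cast_injective h8
    have h9 : (n : ℚ) * w = (b : ℚ) ^ 2 + (q : ℚ) * ((bf N x' x' : ℤ) : ℚ) := by
      have h8 : (((n : ℚ) * w : ℚ) : KW p k)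
          = (((b : ℚ) ^ 2 + (q : ℚ) * ((bf N x' x' : ℤ) : ℚ) : ℚ) : KW p k) := by
        push_cast
        exact h2
      exact Rat.cast_injective h8
    rw [hbf]
    rw [h9, add_sub_cancel_left] at h7
    rw [h7] at hw0
    have hnQ : (0 : ℚ) < n := Nat.cast_pos.2 hn0
    have hpQ : (0 : ℚ) < q := Nat.cast_pos.2 hq0
    have h10 := nonneg_of_mul_nonneg_right hw0 hnQ
    have h11 := nonneg_of_mul_nonneg_right h10 hpQ
    exact_mod_cast h11

theorem loc_idq_aux (r : KW p k) (h : Stp φ b D f i R G) {u : T} (hu : u ∉ R) {c : MonoidAlgebra k A}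
    (hc : LbH (cq φ (R ⊔ Subgroup.zpowers u)) i c)
    {BH : MonoidAlgebra (OW p k) ↥(cq φ (R ⊔ Subgroup.zpowers u))}
    (hB : CenL (dnr (cq φ (R ⊔ Subgroup.zpowers u)) c) BH)
    {N : Ir (KW p k) ↥(cq φ (R ⊔ Subgroup.zpowers u)) →
      Ir (KW p k) ↥(cq φ (R ⊔ Subgroup.zpowers u)) → ℤ}
    (hN0 : ∀ s t, chO s BH = 0 ∨ chO t BH = 0 → N s t = 0)
    (hN : ∀ s t, chO s BH ≠ 0 → chO t BH ≠ 0 →
      (Fintype.card T : KW p k) * (eQ φ D f (R ⊔ Subgroup.zpowers u) : KW p k)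
          * ip (rg p (ch s)) (ch t)
        = ip (ch s) (on (cq φ (R ⊔ Subgroup.zpowers u)) (G (R ⊔ Subgroup.zpowers u)))
            * ip (ch t) (on (cq φ (R ⊔ Subgroup.zpowers u)) (G (R ⊔ Subgroup.zpowers u)))
          + r * (N s t : KW p k))
    {X Y : A → KW p k} (hX : X ∈ V (KW p k) A) (hY : Y ∈ V (KW p k) A) :
    (Fintype.card T : KW p k) * (eQ φ D f (R ⊔ Subgroup.zpowers u) : KW p k) *
        Wf p (cq φ (R ⊔ Subgroup.zpowers u)) (cut _ BH X) (cut _ BH Y) (φ u)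
      = rwv φ G R X u * rwv φ G R Y u⁻¹ + r *
        ∑ s, ∑ t, (N s t : KW p k) * (xs φ _ BH X s u * xs φ _ BH Y t u⁻¹) := by
  classical
  have huQ : u ∈ R ⊔ Subgroup.zpowers u :=
    (le_sup_right : Subgroup.zpowers u ≤ _) (Subgroup.mem_zpowers u)
  have huQ' : u⁻¹ ∈ R ⊔ Subgroup.zpowers u := Subgroup.inv_mem _ huQ
  have hui : u⁻¹ ∉ R := fun h1 => hu (by simpa using R.inv_mem h1)
  have hQi : R ⊔ Subgroup.zpowers u⁻¹ = R ⊔ Subgroup.zpowers u := by
    rw [Subgroup.zpowers_inv]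
  have hxs0 : ∀ (Z : A → KW p k), Z ∈ V (KW p k) A → ∀ v ∈ R ⊔ Subgroup.zpowers u,
      ∀ s, chO s BH = 0 → xs φ (cq φ (R ⊔ Subgroup.zpowers u)) BH Z s v = 0 := by
    intro Z hZ v hv s hs
    rw [xs_eq hB hZ hv, if_neg (not_not.2 hs)]
  -- the rows
  have hrow : ∀ (Z : A → KW p k), Z ∈ V (KW p k) A → ∀ v ∈ R ⊔ Subgroup.zpowers u,
      ip (on (cq φ (R ⊔ Subgroup.zpowers u))
          fun y => cut (cq φ (R ⊔ Subgroup.zpowers u)) BH Z (φ v * y))
        (on (cq φ (R ⊔ Subgroup.zpowers u)) (G (R ⊔ Subgroup.zpowers u)))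
      = ∑ s, xs φ _ BH Z s v *
        ip (ch s) (on (cq φ (R ⊔ Subgroup.zpowers u)) (G (R ⊔ Subgroup.zpowers u))) := by
    intro Z hZ v hv
    have h1 : (on (cq φ (R ⊔ Subgroup.zpowers u))
          fun y => cut (cq φ (R ⊔ Subgroup.zpowers u)) BH Z (φ v * y))
        = fun y => ∑ s, (xs φ _ BH Z s v • ch s) y := by
      funext y
      exact cut_xs hB hZ hv y
    rw [h1, ip_sum]
    exact Finset.sum_congr rfl fun s _ => ip_smul _ _ _
  have hr1 : rwv φ G R X u = ∑ s, xs φ _ BH X s u *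
      ip (ch s) (on (cq φ (R ⊔ Subgroup.zpowers u)) (G (R ⊔ Subgroup.zpowers u))) := by
    rw [rwv_cut h hu rfl hc hB hX, hrow X hX u huQ]
  have hr2 : rwv φ G R Y u⁻¹ = ∑ s, xs φ _ BH Y s u⁻¹ *
      ip (ch s) (on (cq φ (R ⊔ Subgroup.zpowers u)) (G (R ⊔ Subgroup.zpowers u))) := by
    have hH : cq φ (R ⊔ Subgroup.zpowers u⁻¹) = cq φ (R ⊔ Subgroup.zpowers u) := by rw [hQi]
    rw [rwv_cut h hui hH hc hB hY, hQi, hrow Y hY u⁻¹ huQ']
  -- the form
  have hW : Wf p (cq φ (R ⊔ Subgroup.zpowers u)) (cut _ BH X) (cut _ BH Y) (φ u)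
      = ∑ s, ∑ t, xs φ _ BH X s u * xs φ _ BH Y t u⁻¹ * ip (rg p (ch s)) (ch t) := by
    have h1 : ∀ y : ↥(cq φ (R ⊔ Subgroup.zpowers u)),
        (if Preg p y then cut (cq φ (R ⊔ Subgroup.zpowers u)) BH X (φ u * y) *
          cut (cq φ (R ⊔ Subgroup.zpowers u)) BH Y (φ u * y)⁻¹ else 0)
        = ∑ s, ∑ t, xs φ _ BH X s u * xs φ _ BH Y t u⁻¹ * (rg p (ch s) y * ch t y⁻¹) := by
      intro y
      by_cases hy : Preg p y
      · have h2 : (φ u * (y : A))⁻¹ = φ u⁻¹ * ((y⁻¹ : ↥(cq φ (R ⊔ Subgroup.zpowers u))) : A) := by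
          have h3 : (y : A) * φ u = φ u * y :=
            (Subgroup.mem_centralizer_iff.1 y.2 (φ u) ⟨u, huQ, rfl⟩).symm
          rw [← h3, mul_inv_rev, map_inv, Subgroup.coe_inv]
        rw [if_pos hy, h2, cut_xs hB hX huQ, cut_xs hB hY huQ', Finset.sum_mul_sum]
        refine Finset.sum_congr rfl fun s _ => Finset.sum_congr rfl fun t _ => ?_
        rw [rg_of hy]
        ring
      · rw [if_neg hy]
        symm
        refine Finset.sum_eq_zero fun s _ => Finset.sum_eq_zero fun t _ => ?_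
        rw [rg_not hy, zero_mul, mul_zero]
    rw [Wf, sm_congr h1, sm_sum, Finset.mul_sum]
    refine Finset.sum_congr rfl fun s _ => ?_
    rw [sm_sum, Finset.mul_sum]
    refine Finset.sum_congr rfl fun t _ => ?_
    rw [sm_mul, ip]
    ring
  rw [hW, hr1, hr2, Finset.sum_mul_sum, Finset.mul_sum, Finset.mul_sum,
    ← Finset.sum_add_distrib]
  refine Finset.sum_congr rfl fun s _ => ?_
  rw [Finset.mul_sum, Finset.mul_sum, ← Finset.sum_add_distrib]
  refine Finset.sum_congr rfl fun t _ => ?_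
  by_cases hs : chO s BH = 0
  · rw [hxs0 X hX u huQ s hs]
    simp
  by_cases ht : chO t BH = 0
  · rw [hxs0 Y hY u⁻¹ huQ' t ht]
    simp
  calc (Fintype.card T : KW p k) * (eQ φ D f (R ⊔ Subgroup.zpowers u) : KW p k) *
        (xs φ _ BH X s u * xs φ _ BH Y t u⁻¹ * ip (rg p (ch s)) (ch t))
      = xs φ _ BH X s u * xs φ _ BH Y t u⁻¹ * ((Fintype.card T : KW p k) *
        (eQ φ D f (R ⊔ Subgroup.zpowers u) : KW p k) * ip (rg p (ch s)) (ch t)) := by ring
    _ = _ := by rw [hN s t hs ht]; ring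

/-- the local identity for `Q = R ⊔ ⟨u⟩` -/
theorem loc_idq' (r : KW p k) (h : Stp φ b D f i R G) {u : T} (hu : u ∉ R) {Q : Subgroup T}
    (hQ : R ⊔ Subgroup.zpowers u = Q) {c : MonoidAlgebra k A} (hc : LbH (cq φ Q) i c)
    {BH : MonoidAlgebra (OW p k) ↥(cq φ Q)} (hB : CenL (dnr (cq φ Q) c) BH)
    {N : Ir (KW p k) ↥(cq φ Q) → Ir (KW p k) ↥(cq φ Q) → ℤ}
    (hN0 : ∀ s t, chO s BH = 0 ∨ chO t BH = 0 → N s t = 0)
    (hN : ∀ s t, chO s BH ≠ 0 → chO t BH ≠ 0 →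
      (Fintype.card T : KW p k) * (eQ φ D f Q : KW p k) * ip (rg p (ch s)) (ch t)
        = ip (ch s) (on (cq φ Q) (G Q)) * ip (ch t) (on (cq φ Q) (G Q))
          + r * (N s t : KW p k))
    {X Y : A → KW p k} (hX : X ∈ V (KW p k) A) (hY : Y ∈ V (KW p k) A) :
    (Fintype.card T : KW p k) * (eQ φ D f Q : KW p k) *
        Wf p (cq φ Q) (cut _ BH X) (cut _ BH Y) (φ u)
      = rwv φ G R X u * rwv φ G R Y u⁻¹ + r *
        ∑ s, ∑ t, (N s t : KW p k) * (xs φ _ BH X s u * xs φ _ BH Y t u⁻¹) := by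
  subst hQ
  exact loc_idq_aux r h hu hc hB hN0 hN hX hY

end

end Pool.Agent.Lib.P0c8ca5.Ex
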