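import Mathlib
import Pool.Agent.Lib.P0c8ca5Ex.YJ
import Pool.Agent.Lib.P0c8ca5Ex.YT
import Pool.Agent.Lib.P0c8ca5Ex.ZD0
import Pool.Agent.Lib.P0c8ca5Ex.ZDb
import Pool.Agent.Lib.P0c8ca5Ex.ZDn

/-!
# ZD: the congruences modulo `q` (K2)

`Cq q φ D f i G Q`: the clause `cong` of `GOK` at `Q` with `q` in place of `p`. `locNq`, `loc_idq`: as `locN` (YG), `loc_id` (YJ) with `q`
in place of `p` (copy, `q ≠ 0`). `cq_congr`, `cq_conj`, `cq_iff` (`Cq` at `R` with `cq φ R = ⊤`; compare `gr_iff`) and `cq_down` (the transport of YU) as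
for `GOK`. `cq_one`: if `eQ φ D f Q = 1` then `GOK` at `Q` implies `Cq q` for all `q`: the block of `C(φ Q)` is nilpotent, `rg p X` is a multiple of one
function for all `X` in the block (`nil_const` in YM, `rg_gB` in YWa), so
`n ip (rg p X) Y = ip X Γ * ip Y Γ` with `n = |T| = ip Γ Γ`.
-/

set_option linter.unusedSectionVars false

namespace Pool.Agent.Lib.P0c8ca5.Ex

open MonoidAlgebra YTaAux

section
variable {p : ℕ} [Fact p.Prime] {k : Type*} [Field k] [IsAlgClosed k] [CharP k p]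
  {A : Type*} [Group A] [Finite A]
  {T : Type*} [CommGroup T] [Fintype T]
  {φ : T →* A} {b f i : MonoidAlgebra k A} {D : Subgroup A} {Q R : Subgroup T}
  {G G' : Subgroup T → A → KW p k}

theorem locNq {q : ℕ} (hq : q ≠ 0) (h : GOK φ D f i G Q) (hC : Cq q φ D f i G Q)
    {c : MonoidAlgebra k A} (hc : LbH (cq φ Q) i c)
    {BH : MonoidAlgebra (OW p k) ↥(cq φ Q)} (hB : CenL (dnr (cq φ Q) c) BH) :
    ∃ N : Ir (KW p k) ↥(cq φ Q) → Ir (KW p k) ↥(cq φ Q) → ℤ, PSD N ∧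
      (∀ s t, chO s BH = 0 ∨ chO t BH = 0 → N s t = 0) ∧
      ∀ s t, chO s BH ≠ 0 → chO t BH ≠ 0 →
        (Fintype.card T : KW p k) * (eQ φ D f Q : KW p k) * ip (rg p (ch s)) (ch t)
          = ip (ch s) (on (cq φ Q) (G Q)) * ip (ch t) (on (cq φ Q) (G Q))
            + (q : KW p k) * (N s t : KW p k) := by
  exact locNq_aux (Nat.pos_of_ne_zero hq) h hC hc hB

theorem loc_idq (h : Stp φ b D f i R G) {r : KW p k} {u : T} (hu : u ∉ R)
    {c : MonoidAlgebra k A} (hc : LbH (cq φ (R ⊔ Subgroup.zpowers u)) i c)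
    {BH : MonoidAlgebra (OW p k) ↥(cq φ (R ⊔ Subgroup.zpowers u))}
    (hB : CenL (dnr (cq φ (R ⊔ Subgroup.zpowers u)) c) BH)
    {N : Ir (KW p k) ↥(cq φ (R ⊔ Subgroup.zpowers u)) →
      Ir (KW p k) ↥(cq φ (R ⊔ Subgroup.zpowers u)) → ℤ}
    (hN0 : ∀ s t, chO s BH = 0 ∨ chO t BH = 0 → N s t = 0)
    (hN : ∀ s t, chO s BH ≠ 0 → chO t BH ≠ 0 →
      (Fintype.card T : KW p k) * (eQ φ D f (R ⊔ Subgroup.zpowers u) : KW p k)
          * ip (rg p (ch s)) (ch t)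
        = ip (ch s) (on (cq φ (R ⊔ Subgroup.zpowers u)) (G (R ⊔ Subgroup.zpowers u)))
            * ip (ch t) (on (cq φ (R ⊔ Subgroup.zpowers u)) (G (R ⊔ Subgroup.zpowers u)))
          + r * (N s t : KW p k))
    {X Y : A → KW p k} (hX : X ∈ V (KW p k) A) (hY : Y ∈ V (KW p k) A) :
    (Fintype.card T : KW p k) * (eQ φ D f (R ⊔ Subgroup.zpowers u) : KW p k) *
        Wf p (cq φ (R ⊔ Subgroup.zpowers u)) (cut _ BH X) (cut _ BH Y) (φ u)
      = rwv φ G R X u * rwv φ G R Y u⁻¹ + r *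
        ∑ s, ∑ t, (N s t : KW p k) * (xs φ _ BH X s u * xs φ _ BH Y t u⁻¹) := by
  exact loc_idq_aux r h hu hc hB hN0 hN hX hY

theorem cq_one (hp2 : p ≠ 2) (h : Src p b D f i) (hφ : Function.Injective φ)
    (hr : ∀ x, x ∈ D ↔ ∃ t, φ t = x) (hG : GOK φ D f i G Q) (h1 : eQ φ D f Q = 1) (q : ℕ) :
    Cq q φ D f i G Q := cq_one_aux q hp2 h hφ hr h1 hG

theorem cq_congr {q : ℕ} (hG : G Q = G' Q) (h : Cq q φ D f i G Q) : Cq q φ D f i G' Q := by
  intro c hc X hX Y hY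
  rw [← hG]
  exact h c hc X hX Y hY

theorem cq_gh {q : ℕ} {H : Subgroup A} (hH : cq φ Q = H) {Γ : A → KW p k} (hΓ : G Q = Γ) :
    Cq q φ D f i G Q ↔ ∀ c, LbH H i c → ∀ X ∈ VA (p := p) (dnr H c),
      ∀ Y ∈ VA (p := p) (dnr H c), ∃ m a a' : ℤ,
        (Fintype.card T : KW p k) * (eQ φ D f Q : KW p k) * ip (rg p X) Y = m ∧
        ip X (on H Γ) = a ∧ ip Y (on H Γ) = a' ∧ (q : ℤ) ∣ m - a * a' := by
  subst hH hΓ
  exact Iff.rfl

/-- the value `Γ` at the central `R` -/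
theorem cq_iff (h : Stp φ b D f i R G) (q : ℕ) (Γ : A → KW p k) :
    Cq q φ D f i (upd G R Γ) R ↔ ∀ X ∈ VA (p := p) b, ∀ Y ∈ VA (p := p) b, ∃ m a a' : ℤ,
      (Fintype.card T : KW p k) * (Nat.card (EG φ D f) : KW p k) * ip (rg p X) Y = m ∧
        ip X Γ = a ∧ ip Y Γ = a' ∧ (q : ℤ) ∣ m - a * a' := by
  have hR := h.cen
  obtain ⟨B, hB⟩ := exists_cenL (p := p) h.src.root.blk.idem
    (fun g => invBy_iff_cj.1 h.src.root.blk.invBy g (Subgroup.mem_top g))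
  have he : eQ φ D f R = Nat.card (EG φ D f) := eQ_cen hR h.inj
  rw [cq_gh (cq_top hR) (upd_self G R Γ)]
  constructor
  · intro hG X hX Y hY
    have hb : LbH (⊤ : Subgroup A) i b := (lbH_top h.src).2 rfl
    obtain ⟨m, a, a', h1, h2, h3, h4⟩ := hG b hb _ ((va_top hB).2 hX) _ ((va_top hB).2 hY)
    rw [rg_top, ip_top, he] at h1
    rw [ip_top] at h2 h3
    exact ⟨m, a, a', h1, h2, h3, h4⟩
  · intro h5 c hc X hX Y hY
    rw [(lbH_top h.src).1 hc] at hX hY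
    obtain ⟨m, a, a', h6, h7, h8, h9⟩ := h5 (ofTop X) ((va_top hB).1 hX) (ofTop Y)
      ((va_top hB).1 hY)
    refine ⟨m, a, a', ?_, ?_, ?_, h9⟩
    · rw [← on_ofTop X, ← on_ofTop Y, rg_top, ip_top, he]
      exact h6
    · rw [← on_ofTop X, ip_top]
      exact h7
    · rw [← on_ofTop Y, ip_top]
      exact h8

end

end Pool.Agent.Lib.P0c8ca5.Ex
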