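import Mathlib
import Pool.Agent.Lib.P0c8ca5Ex.YPc

/-!
# ZEa: the Gram matrix of the multiplicities for `p'`-groups `E`; the local form modulo `q`

* `gram_iff'`, `gram_l'`: the statements of YL and YPa with `¬ p ∣ |E|` in place of `|E| + 3 ≤ p`.
* `locNq`: the form of `locN` with `q` in place of `p`, if the congruence holds modulo `q`.
* `loc_idq`: the local identity with this form.
-/

set_option linter.unusedSectionVars false

namespace Pool.Agent.Lib.P0c8ca5.Ex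

open MonoidAlgebra YLx YJAux YSaAux

namespace ZEAux

section
variable {T : Type*} [CommGroup T] [Fintype T] {K : Type*} [Field K] [CharZero K]
  [HasEnoughRootsOfUnity K (Monoid.exponent T)] {E : Subgroup (MulAut T)} {R : Subgroup T}

/-- `γ u ∈ R u` implies `γ u = u` -/
theorem fix_of_mem' {p : ℕ} (hp : p.Prime) (hT : IsPGroup p T) (hE : ¬ p ∣ Nat.card E)
    (hER : ∀ α ∈ E, ∀ z ∈ R, α z = z) {γ : MulAut T} (hγ : γ ∈ E) {u : T} (h : u⁻¹ * γ u ∈ R) :
    γ u = u := by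
  have h1 : γ ^ Nat.card E = 1 := pow_card_E ⟨γ, hγ⟩
  have h2 : u⁻¹ * γ u = 1 :=
    Ku.fix_cm hp hT h1 hE ⟨u, rfl⟩ (hER γ hγ _ h)
  exact (inv_mul_eq_one.1 h2).symm

variable [Fintype E]

theorem gR_pos' {p : ℕ} (hp : p.Prime) (hT : IsPGroup p T) (hE : ¬ p ∣ Nat.card E)
    (hER : ∀ α ∈ E, ∀ z ∈ R, α z = z) {u v : T} (h : ∃ α ∈ E, ∃ z ∈ R, v = z * α u) :
    gR E R u v = Nat.card {α : E // (α : MulAut T) u = u} := by
  classical
  obtain ⟨β, hβ, z, hz, rfl⟩ := h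
  unfold gR
  rw [Nat.card_eq_fintype_card, Fintype.card_subtype]
  refine Finset.card_bij (fun α _ => (⟨β, hβ⟩ : E)⁻¹ * α) ?_ ?_ ?_
  · intro α hα
    refine Finset.mem_filter.2 ⟨Finset.mem_univ _, ?_⟩
    have h1 := (Finset.mem_filter.1 hα).2
    have h2 : β (u⁻¹ * (β⁻¹ * (α : MulAut T)) u) ∈ R := by
      have h3 : β (u⁻¹ * (β⁻¹ * (α : MulAut T)) u) = (α : MulAut T) u * (z * β u)⁻¹ * z := by
        rw [map_mul, map_inv, MulAut.mul_apply, MulAut.apply_inv_self, mul_inv]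
        rw [mul_comm (z⁻¹) ((β u)⁻¹), ← mul_assoc, inv_mul_cancel_right, mul_comm]
      rw [h3]
      exact R.mul_mem h1 hz
    exact fix_of_mem' hp hT hE hER (E.mul_mem (E.inv_mem hβ) α.2) (map_mem_R hER hβ h2)
  · intro α _ α' _ h
    exact mul_left_cancel h
  · intro γ hγ
    have h1 := (Finset.mem_filter.1 hγ).2
    refine ⟨(⟨β, hβ⟩ : E) * γ, Finset.mem_filter.2 ⟨Finset.mem_univ _, ?_⟩,
      by rw [inv_mul_cancel_left]⟩
    have h2 : (((⟨β, hβ⟩ : E) * γ : E) : MulAut T) u = β u := by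
      rw [Subgroup.coe_mul, MulAut.mul_apply, h1]
    rw [h2, mul_inv, mul_comm z⁻¹, mul_inv_cancel_left]
    exact R.inv_mem hz

theorem gram_iff' {p : ℕ} (hp : p.Prime) (hT : IsPGroup p T) (hE : ¬ p ∣ Nat.card E)
    (hER : ∀ α ∈ E, ∀ z ∈ R, α z = z) {I : Type*} [Fintype I] (ψ : I → T → K) (u v : T) :
    GramR E R ψ u v ↔
      (Nat.card R : K) * ∑ i, ψ i u * ψ i v⁻¹ = (Fintype.card T : K) * (gR E R u v : K) := by
  constructor
  · intro h
    by_cases h1 : ∃ α ∈ E, ∃ z ∈ R, v = z * α u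
    · rw [h.1 h1, gR_pos' hp hT hE hER h1]
    · rw [h.2 h1, gR_zero h1, Nat.cast_zero, mul_zero, mul_zero]
  · intro h
    refine ⟨fun h1 => ?_, fun h1 => ?_⟩
    · rw [h, gR_pos' hp hT hE hER h1]
    · rw [gR_zero h1, Nat.cast_zero, mul_zero] at h
      exact (mul_eq_zero.1 h).resolve_left (cardR_ne R)

end

section
variable {p : ℕ} [Fact p.Prime] {k : Type*} [Field k] [IsAlgClosed k] [CharP k p]
  {A : Type*} [Group A] [Finite A] {T : Type*} [CommGroup T] [Fintype T]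
  {φ : T →* A} {b f i : MonoidAlgebra k A} {D : Subgroup A} {R : Subgroup T}
  {G : Subgroup T → A → KW p k}

open Classical in
theorem gram_l' (h : Stp φ b D f i R G) (hE : ¬ p ∣ eN D f) {B : MonoidAlgebra (OW p k) A}
    {ψ : IR φ R B → T → KW p k} (hψ : Rows φ D f R G B ψ) [Fintype ↥(EG φ D f)]
    {l : T →* (KW p k)ˣ} (hl : ∀ z ∈ R, l z = 1) :
    (∀ u, ∑ χ : IR φ R B, mlt (ψ χ) l * ψ χ u
      = ∑ α : EG φ D f, ((l ((α : MulAut T) u) : (KW p k)ˣ) : KW p k)) ∧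
    ∑ χ : IR φ R B, mlt (ψ χ) l ^ 2
      = ((Finset.univ.filter fun α : EG φ D f => ∀ u, l ((α : MulAut T) u) = l u).card :
        KW p k) := by
  have hp : p.Prime := Fact.out
  have hT : IsPGroup p T := YPaAux.isPGroup_T h
  have hEc : ¬ p ∣ Nat.card (EG φ D f) := by rw [card_EG h.inj h.ran]; exact hE
  have hER : ∀ α ∈ EG φ D f, ∀ z ∈ R, α z = z := fun α hα z hz => YFAux.al_fix h hα hz
  have hg : ∀ v w, (Nat.card R : KW p k) * ∑ χ : IR φ R B, ψ χ v * ψ χ w⁻¹ =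
      (Fintype.card T : KW p k) * (gR (EG φ D f) R v w : KW p k) := fun v w =>
    (gram_iff' hp hT hEc hER ψ v w).1 (hψ.gram v w)
  have hR0 : (Nat.card R : KW p k) ≠ 0 := cardR_ne R
  have hT0 : (Fintype.card T : KW p k) ≠ 0 := card_ne
  have hlz : ∀ z ∈ R, ∀ t, chr l (z * t) = chr l t := by
    intro z hz t
    rw [chr_map_mul]
    have h1 : chr l z = 1 := by
      change ((l z : (KW p k)ˣ) : KW p k) = 1
      rw [hl z hz, Units.val_one]
    rw [h1, one_mul]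
  have h1 : ∀ u, ∑ χ : IR φ R B, mlt (ψ χ) l * ψ χ u
      = ∑ α : EG φ D f, ((l ((α : MulAut T) u) : (KW p k)ˣ) : KW p k) := by
    intro u
    apply mul_left_cancel₀ hR0
    have e1 : ∀ χ : IR φ R B, mlt (ψ χ) l * ψ χ u =
        (Fintype.card T : KW p k)⁻¹ * ∑ v, chr l v⁻¹ * (ψ χ v * ψ χ (u⁻¹)⁻¹) := by
      intro χ
      unfold mlt
      rw [mul_assoc, Finset.sum_mul, inv_inv]
      congr 1
      exact Finset.sum_congr rfl fun v _ => by ring
    rw [Finset.sum_congr rfl fun χ _ => e1 χ, ← Finset.mul_sum, Finset.sum_comm]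
    have e2 : ∀ v : T, ∑ χ : IR φ R B, chr l v⁻¹ * (ψ χ v * ψ χ (u⁻¹)⁻¹) =
        (Nat.card R : KW p k)⁻¹ * ((Fintype.card T : KW p k) *
          (chr l v⁻¹ * (gR (EG φ D f) R v u⁻¹ : KW p k))) := by
      intro v
      rw [← Finset.mul_sum, eq_inv_mul_iff_mul_eq₀ hR0]
      have e3 := hg v u⁻¹
      calc (Nat.card R : KW p k) * (chr l v⁻¹ * ∑ χ : IR φ R B, ψ χ v * ψ χ (u⁻¹)⁻¹)
          = chr l v⁻¹ * ((Nat.card R : KW p k) * ∑ χ : IR φ R B, ψ χ v * ψ χ (u⁻¹)⁻¹) := by ring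
        _ = chr l v⁻¹ * ((Fintype.card T : KW p k) * (gR (EG φ D f) R v u⁻¹ : KW p k)) := by
          rw [e3]
        _ = _ := by ring
    rw [Finset.sum_congr rfl fun v _ => e2 v, ← Finset.mul_sum, ← Finset.mul_sum]
    have e4 : ∑ v : T, chr l v⁻¹ * (gR (EG φ D f) R v u⁻¹ : KW p k) =
        ∑ α : EG φ D f, (Nat.card R : KW p k) *
          ((l ((α : MulAut T) u) : (KW p k)ˣ) : KW p k) := by
      have e5 : ∀ v : T, chr l v⁻¹ * (gR (EG φ D f) R v u⁻¹ : KW p k) =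
          ∑ α : EG φ D f, if (α : MulAut T) v * u⁻¹⁻¹ ∈ R then chr l v⁻¹ else 0 := by
        intro v
        rw [← Finset.sum_filter, Finset.sum_const, nsmul_eq_mul, mul_comm]
        rfl
      rw [Finset.sum_congr rfl fun v _ => e5 v, Finset.sum_comm,
        ← Equiv.sum_comp (Equiv.inv (EG φ D f))]
      refine Finset.sum_congr rfl fun α _ => ?_
      rw [← Equiv.sum_comp ((α : MulAut T) : T ≃* T).toEquiv]
      have e6 : ∀ w : T, (if (((Equiv.inv (EG φ D f)) α : EG φ D f) : MulAut T)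
          (((α : MulAut T) : T ≃* T).toEquiv w) * u⁻¹⁻¹ ∈ R then
            chr l (((α : MulAut T) : T ≃* T).toEquiv w)⁻¹ else 0) =
          if u⁻¹ * w⁻¹ ∈ R then chr l ((α : MulAut T) u) else 0 := by
        intro w
        have e7 : (((Equiv.inv (EG φ D f)) α : EG φ D f) : MulAut T)
            (((α : MulAut T) : T ≃* T).toEquiv w) = w := by
          change ((α : MulAut T)⁻¹) ((α : MulAut T) w) = w
          exact MulAut.inv_apply_self _ _ _
        rw [e7]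
        have e8 : w * u⁻¹⁻¹ ∈ R ↔ u⁻¹ * w⁻¹ ∈ R := by
          rw [← Subgroup.inv_mem_iff, mul_inv, inv_inv, mul_comm]
        by_cases e9 : u⁻¹ * w⁻¹ ∈ R
        · rw [if_pos (e8.2 e9), if_pos e9]
          have e10 : w⁻¹ = (u * (u⁻¹ * w⁻¹)) := by rw [mul_inv_cancel_left]
          change chr l ((α : MulAut T) w)⁻¹ = _
          rw [← map_inv, e10, map_mul, hER _ α.2 _ e9, mul_comm, hlz _ e9]
        · rw [if_neg (fun e10 => e9 (e8.1 e10)), if_neg e9]
      rw [Finset.sum_congr rfl fun w _ => e6 w, ← Finset.sum_filter, Finset.sum_const,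
        nsmul_eq_mul]
      congr 2
      exact card_coset R u⁻¹
    rw [e4, ← Finset.mul_sum]
    field_simp
  refine ⟨h1, ?_⟩
  have e1 : ∀ χ : IR φ R B, mlt (ψ χ) l ^ 2 =
      (Fintype.card T : KW p k)⁻¹ * ∑ u, chr l u⁻¹ * (mlt (ψ χ) l * ψ χ u) := by
    intro χ
    have e2 : mlt (ψ χ) l = (Fintype.card T : KW p k)⁻¹ * ∑ u, ψ χ u * chr l u⁻¹ := rfl
    rw [pow_two]
    nth_rewrite 2 [e2]
    rw [mul_left_comm, Finset.mul_sum]
    congr 1
    exact Finset.sum_congr rfl fun u _ => by ring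
  rw [Finset.sum_congr rfl fun χ _ => e1 χ, ← Finset.mul_sum, Finset.sum_comm]
  have e2 : ∀ u : T, ∑ χ : IR φ R B, chr l u⁻¹ * (mlt (ψ χ) l * ψ χ u) =
      ∑ α : EG φ D f, chr (dl l (α : MulAut T)) u * chr l u⁻¹ := by
    intro u
    rw [← Finset.mul_sum, h1, Finset.mul_sum]
    refine Finset.sum_congr rfl fun α _ => ?_
    rw [mul_comm]
    rfl
  rw [Finset.sum_congr rfl fun u _ => e2 u, Finset.sum_comm, Finset.mul_sum]
  have e3 : ∀ α : EG φ D f, (Fintype.card T : KW p k)⁻¹ *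
      ∑ u : T, chr (dl l (α : MulAut T)) u * chr l u⁻¹ =
      if ∀ u, l ((α : MulAut T) u) = l u then 1 else 0 := by
    intro α
    have e4 := mlt_chr (K := KW p k) (dl l (α : MulAut T)) l
    unfold mlt at e4
    rw [e4]
    refine if_congr ?_ rfl rfl
    constructor
    · intro e5 u
      exact DFunLike.congr_fun e5 u
    · intro e5
      ext u
      exact congrArg Units.val (e5 u)
  rw [Finset.sum_congr rfl fun α _ => e3 α, ← Finset.sum_filter, Finset.sum_const,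
    nsmul_eq_mul, mul_one]

/-- the form with `q` in place of `p` -/
theorem locNq {q : ℕ} (hq0 : q ≠ 0) (hpq : p ∣ q) {Q : Subgroup T} (h : GOK φ D f i G Q)
    {c : MonoidAlgebra k A} (hc : LbH (cq φ Q) i c)
    (hC : ∀ X ∈ VA (p := p) (dnr (cq φ Q) c), ∀ Y ∈ VA (p := p) (dnr (cq φ Q) c), ∃ m a a' : ℤ,
      (Fintype.card T : KW p k) * (eQ φ D f Q : KW p k) * ip (rg p X) Y = m ∧
      ip X (on (cq φ Q) (G Q)) = a ∧ ip Y (on (cq φ Q) (G Q)) = a' ∧ (q : ℤ) ∣ m - a * a')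
    {BH : MonoidAlgebra (OW p k) ↥(cq φ Q)} (hB : CenL (dnr (cq φ Q) c) BH) :
    ∃ N : Ir (KW p k) ↥(cq φ Q) → Ir (KW p k) ↥(cq φ Q) → ℤ, PSD N ∧
      (∀ s t, chO s BH = 0 ∨ chO t BH = 0 → N s t = 0) ∧
      ∀ s t, chO s BH ≠ 0 → chO t BH ≠ 0 →
        (Fintype.card T : KW p k) * (eQ φ D f Q : KW p k) * ip (rg p (ch s)) (ch t)
          = ip (ch s) (on (cq φ Q) (G Q)) * ip (ch t) (on (cq φ Q) (G Q))
            + (q : KW p k) * (N s t : KW p k) := by
  classical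
  obtain ⟨r, rfl⟩ := hpq
  have hr0 : r ≠ 0 := right_ne_zero_of_mul hq0
  have hrZ : (0 : ℤ) < r := by exact_mod_cast Nat.pos_of_ne_zero hr0
  have hpK : (p : KW p k) ≠ 0 := Nat.cast_ne_zero.2 (Fact.out : p.Prime).ne_zero
  obtain ⟨N, hPSD, hN0, hN⟩ := locN h hc hB
  have h1 : ∀ s t, ∃ z : ℤ, N s t = r * z := by
    intro s t
    by_cases hs : chO s BH = 0
    · exact ⟨0, by rw [hN0 s t (Or.inl hs), mul_zero]⟩
    by_cases ht : chO t BH = 0
    · exact ⟨0, by rw [hN0 s t (Or.inr ht), mul_zero]⟩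
    obtain ⟨m, a, a', h2, h3, h4, z, h5⟩ :=
      hC _ (YGAux.ch_mem_VA hB hs) _ (YGAux.ch_mem_VA hB ht)
    refine ⟨z, ?_⟩
    have h6 := hN s t hs ht
    rw [h2, h3, h4] at h6
    have h7 : ((m : ℤ) : KW p k) = ((a * a' + p * (r * z) : ℤ) : KW p k) := by
      have h8 : m = a * a' + p * (r * z) := by
        push_cast at h5
        linarith
      rw [h8]
    rw [h7] at h6
    have h8 : ((a * a' + p * (r * z) : ℤ) : KW p k) = ((a * a' + p * N s t : ℤ) : KW p k) := by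
      rw [h6]
      push_cast
      rfl
    have h9 : a * a' + p * (r * z) = a * a' + p * N s t := by exact_mod_cast h8
    have h10 : (p : ℤ) * (r * z) = p * N s t := by linarith
    exact (mul_left_cancel₀ (Int.natCast_ne_zero.2 (Fact.out : p.Prime).ne_zero) h10).symm
  choose z hz using h1
  refine ⟨z, ⟨fun s t => ?_, fun x => ?_⟩, fun s t hst => ?_, fun s t hs ht => ?_⟩
  · have h2 := hPSD.1 s t
    rw [hz, hz] at h2
    exact mul_left_cancel₀ hrZ.ne' h2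
  · have h2 := hPSD.2 x
    have h3 : bf N x x = r * bf z x x := by
      unfold bf
      rw [Finset.mul_sum]
      refine Finset.sum_congr rfl fun s _ => ?_
      rw [Finset.mul_sum]
      refine Finset.sum_congr rfl fun t _ => ?_
      rw [hz]
      ring
    rw [h3] at h2
    exact nonneg_of_mul_nonneg_right h2 hrZ
  · have h2 := hN0 s t hst
    rw [hz] at h2
    exact (mul_eq_zero.1 h2).resolve_left hrZ.ne'
  · rw [hN s t hs ht, hz]
    push_cast
    ring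

open Classical in
/-- the local identity for `Q = R ⊔ ⟨u⟩` -/
theorem loc_idq {q : ℕ} (hpq : p ∣ q) (h : Stp φ b D f i R G) {u : T} (hu : u ∉ R)
    {Q : Subgroup T}
    (hQ : R ⊔ Subgroup.zpowers u = Q) {c : MonoidAlgebra k A} (hc : LbH (cq φ Q) i c)
    {BH : MonoidAlgebra (OW p k) ↥(cq φ Q)} (hB : CenL (dnr (cq φ Q) c) BH)
    {N : Ir (KW p k) ↥(cq φ Q) → Ir (KW p k) ↥(cq φ Q) → ℤ}
    (hN0 : ∀ s t, chO s BH = 0 ∨ chO t BH = 0 → N s t = 0)
    (hN : ∀ s t, chO s BH ≠ 0 → chO t BH ≠ 0 →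
      (Fintype.card T : KW p k) * (eQ φ D f Q : KW p k) * ip (rg p (ch s)) (ch t)
        = ip (ch s) (on (cq φ Q) (G Q)) * ip (ch t) (on (cq φ Q) (G Q))
          + (q : KW p k) * (N s t : KW p k))
    {X Y : A → KW p k} (hX : X ∈ V (KW p k) A) (hY : Y ∈ V (KW p k) A) :
    (Fintype.card T : KW p k) * (eQ φ D f Q : KW p k) *
        Wf p (cq φ Q) (cut _ BH X) (cut _ BH Y) (φ u)
      = rwv φ G R X u * rwv φ G R Y u⁻¹ + (q : KW p k) *
        ∑ s, ∑ t, (N s t : KW p k) * (xs φ _ BH X s u * xs φ _ BH Y t u⁻¹) := by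
  obtain ⟨r, rfl⟩ := hpq
  rw [loc_id' h hu hQ hc hB (N := fun s t => r * N s t)
    (fun s t hst => by simp only [hN0 s t hst, mul_zero])
    (fun s t hs ht => by rw [hN s t hs ht]; push_cast; ring) hX hY]
  congr 1
  push_cast
  rw [mul_assoc]
  congr 1
  rw [Finset.mul_sum]
  refine Finset.sum_congr rfl fun s _ => ?_
  rw [Finset.mul_sum]
  refine Finset.sum_congr rfl fun t _ => ?_
  ring

end

end ZEAux

end Pool.Agent.Lib.P0c8ca5.Ex
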