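import Mathlib
import Pool.Agent.Lib.P0c8ca5Ex.ZEa

/-!
# ZEb: the vanishing of the columns from the congruence modulo `q`

The proofs of YPc with `q` in place of `p`: `q M ≤ |R| |E|²` and `(p - 1) |R| ≤ m ≤ M` contradict `|E|² < q (p - 1)`.
-/

set_option linter.unusedSectionVars false

namespace Pool.Agent.Lib.P0c8ca5.Ex

open MonoidAlgebra YJAux YSaAux YPbAux YPcAux

namespace ZEAux

section
variable {p : ℕ} [Fact p.Prime] {k : Type*} [Field k] [IsAlgClosed k] [CharP k p]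
  {A : Type*} [Group A] [Finite A] {T : Type*} [CommGroup T] [Fintype T]
  {φ : T →* A} {b f i : MonoidAlgebra k A} {D : Subgroup A} {R : Subgroup T}
  {G : Subgroup T → A → KW p k}

open Classical in
/-- **the local form** at `Q = R ⊔ ⟨u⟩` -/
theorem exists_Nq {q : ℕ} (hq0 : q ≠ 0) (hpq : p ∣ q) (h : Stp φ b D f i R G)
    (hC : ∀ Q, R < Q → ∀ c, LbH (cq φ Q) i c → ∀ X ∈ VA (p := p) (dnr (cq φ Q) c),
      ∀ Y ∈ VA (p := p) (dnr (cq φ Q) c), ∃ m a a' : ℤ,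
      (Fintype.card T : KW p k) * (eQ φ D f Q : KW p k) * ip (rg p X) Y = m ∧
      ip X (on (cq φ Q) (G Q)) = a ∧ ip Y (on (cq φ Q) (G Q)) = a' ∧ (q : ℤ) ∣ m - a * a')
    (hT : IsPGroup p T)
    {BB : ∀ H : Subgroup A, MonoidAlgebra (OW p k) ↥H}
    (hBB : ∀ u c, LbH (C1 (φ u)) i c → CenL (dnr (C1 (φ u)) c) (BB (C1 (φ u)))) {u : T}
    (hu : u ∉ R) :
    ∃ (N : Ir (KW p k) ↥(cq φ (R ⊔ Subgroup.zpowers u)) →
        Ir (KW p k) ↥(cq φ (R ⊔ Subgroup.zpowers u)) → ℤ),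
      ∀ X ∈ V (KW p k) A,
        (∃ m : ℤ, 0 ≤ m ∧ (m ≠ 0 → ((p : ℤ) - 1) * Nat.card R ≤ m) ∧
          ∑ v : T with R ⊔ Subgroup.zpowers v = R ⊔ Subgroup.zpowers u,
            sv φ D f R G BB X v = (q : KW p k) * m ∧
          (m = 0 → ∀ v, R ⊔ Subgroup.zpowers v = R ⊔ Subgroup.zpowers u → ∀ s,
            ∑ t, (N s t : KW p k) * xs φ _ (BB (cq φ (R ⊔ Subgroup.zpowers u))) X t v = 0)) ∧
        ∀ v, R ⊔ Subgroup.zpowers v = R ⊔ Subgroup.zpowers u →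
          (Fintype.card T : KW p k) * (eQ φ D f (R ⊔ Subgroup.zpowers u) : KW p k) *
              Wf p (cq φ (R ⊔ Subgroup.zpowers u))
                (cut _ (BB (cq φ (R ⊔ Subgroup.zpowers u))) X)
                (cut _ (BB (cq φ (R ⊔ Subgroup.zpowers u))) X) (φ v)
            = rwv φ G R X v * rwv φ G R X v⁻¹ + (q : KW p k) *
              ∑ s, ∑ t, (N s t : KW p k) *
                (xs φ _ (BB (cq φ (R ⊔ Subgroup.zpowers u))) X s v *
                  xs φ _ (BB (cq φ (R ⊔ Subgroup.zpowers u))) X t v⁻¹) := by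
  obtain ⟨c, hc⟩ := exists_lbH h.src (YFAux.phi_mem h u)
  have hcQ : LbH (cq φ (R ⊔ Subgroup.zpowers u)) i c := by
    rw [cq_eq h.cen]
    exact hc
  have hBQ : CenL (dnr (cq φ (R ⊔ Subgroup.zpowers u)) c)
      (BB (cq φ (R ⊔ Subgroup.zpowers u))) := by
    have h1 : ∀ H, H = C1 (φ u) → CenL (dnr H c) (BB H) := by
      rintro H rfl
      exact hBB u c hc
    exact h1 _ (cq_eq h.cen u)
  obtain ⟨N, hPSD, hN0, hN⟩ := locNq hq0 hpq (h.ok _ (YFAux.lt_sup hu)) hcQ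
    (hC _ (YFAux.lt_sup hu) _ hcQ) hBQ
  obtain ⟨P, hRP, hPQ, hcard, hg⟩ := YSaAux.exists_P (Fact.out : p.Prime) hT hu
  refine ⟨N, fun X hX => ?_⟩
  have hpt : ∀ v, R ⊔ Subgroup.zpowers v = R ⊔ Subgroup.zpowers u →
      (Fintype.card T : KW p k) * (eQ φ D f (R ⊔ Subgroup.zpowers u) : KW p k) *
          Wf p (cq φ (R ⊔ Subgroup.zpowers u))
            (cut _ (BB (cq φ (R ⊔ Subgroup.zpowers u))) X)
            (cut _ (BB (cq φ (R ⊔ Subgroup.zpowers u))) X) (φ v)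
        = rwv φ G R X v * rwv φ G R X v⁻¹ + (q : KW p k) *
          ∑ s, ∑ t, (N s t : KW p k) *
            (xs φ _ (BB (cq φ (R ⊔ Subgroup.zpowers u))) X s v *
              xs φ _ (BB (cq φ (R ⊔ Subgroup.zpowers u))) X t v⁻¹) :=
    fun v hv => loc_idq hpq h (fib_notMem hu hv) hv hcQ hBQ hN0 hN hX hX
  refine ⟨?_, hpt⟩
  have hcard' : Fintype.card ↥(R ⊔ Subgroup.zpowers u)
      = p * Nat.card (P.subgroupOf (R ⊔ Subgroup.zpowers u)) := by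
    rw [← Nat.card_eq_fintype_card, hcard, card_sgo hPQ]
  obtain ⟨m, hm, hm0, hmp, hmz⟩ := gen_sum (P.subgroupOf (R ⊔ Subgroup.zpowers u)) hcard' hPSD
    (fun s (v : ↥(R ⊔ Subgroup.zpowers u)) =>
      xs φ _ (BB (cq φ (R ⊔ Subgroup.zpowers u))) X s (v : T)) (fun s => xs_vir rfl hBQ hX s)
  refine ⟨m, hm0, fun h1 => ?_, ?_, fun h1 v hv s => ?_⟩
  · have h2 := hmp h1
    rw [hcard', card_sgo hPQ] at h2
    have h3 : Nat.card R ≤ Nat.card P := Subgroup.card_le_of_le hRP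
    have h4 : (1 : ℤ) ≤ p := by exact_mod_cast (Fact.out : p.Prime).one_lt.le
    have h5 : (Nat.card R : ℤ) ≤ Nat.card P := by exact_mod_cast h3
    push_cast at h2
    nlinarith
  · rw [← hm, sum_gen hg (fun v => sv φ D f R G BB X v), Finset.mul_sum]
    refine Finset.sum_congr rfl fun v hv => ?_
    have hvQ : R ⊔ Subgroup.zpowers (v : T) = R ⊔ Subgroup.zpowers u :=
      (hg v v.2).1 fun h2 => (Finset.mem_filter.1 hv).2 (Subgroup.mem_subgroupOf.2 h2)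
    have h1 := hpt v hvQ
    have h2 : ∀ H : Subgroup A, H = cq φ (R ⊔ Subgroup.zpowers u) →
        Wf p H (cut H (BB H) X) (cut H (BB H) X) (φ v)
          = Wf p (cq φ (R ⊔ Subgroup.zpowers u))
            (cut _ (BB (cq φ (R ⊔ Subgroup.zpowers u))) X)
            (cut _ (BB (cq φ (R ⊔ Subgroup.zpowers u))) X) (φ v) := by
      rintro H rfl
      rfl
    rw [sv, h2 _ (fib_C1 h hvQ), fib_eQ h hvQ, ← mul_assoc, h1, add_sub_cancel_left]
    rfl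
  · have hvQ := mem_fib hv
    have h2 := hmz h1 ⟨v, hvQ⟩ (fun h3 => ((hg v hvQ).2 hv) (Subgroup.mem_subgroupOf.1 h3)) s
    exact h2

theorem rwv_Mlq (h : Stp φ b D f i R G) (hE : ¬ p ∣ eN D f) {B : MonoidAlgebra (OW p k) A}
    {ψ : IR φ R B → T → KW p k} (hψ : Rows φ D f R G B ψ) [Fintype ↥(EG φ D f)]
    {l : T →* (KW p k)ˣ} (hl : ∀ z ∈ R, l z = 1) {v : T} (hv : v ∉ R) :
    rwv φ G R (Ml ψ l) v
      = ∑ α : EG φ D f, ((l ((α : MulAut T) v) : (KW p k)ˣ) : KW p k) := by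
  have h1 : rwv φ G R (Ml ψ l) v = ∑ χ : IR φ R B, mlt (ψ χ) l * rwv φ G R (ch χ.1) v :=
    YTbAux.rwv_sum Finset.univ (fun χ : IR φ R B => mlt (ψ χ) l) (fun χ => ch χ.1) v
  rw [h1, ← (gram_l' h hE hψ hl).1 v]
  refine Finset.sum_congr rfl fun χ _ => ?_
  rw [hψ.out χ v hv]

open Classical in
/-- the total for `Ml` -/
theorem tot_Mlq (h : Stp φ b D f i R G) (hE : ¬ p ∣ eN D f)
    {BB : ∀ H : Subgroup A, MonoidAlgebra (OW p k) ↥H}
    (hBB : ∀ u c, LbH (C1 (φ u)) i c → CenL (dnr (C1 (φ u)) c) (BB (C1 (φ u))))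
    {B : MonoidAlgebra (OW p k) A} (hB : CenL b B)
    {ψ : IR φ R B → T → KW p k} (hψ : Rows φ D f R G B ψ)
    {l : T →* (KW p k)ˣ} (hl : ∀ z ∈ R, l z = 1) :
    ∑ v : T with v ∉ R, sv φ D f R G BB (Ml ψ l) v
      = (Nat.card R : KW p k) * (Nat.card (EG φ D f) : KW p k) ^ 2
        - (Nat.card R : KW p k) * ((Fintype.card T : KW p k) *
          ((Nat.card (EG φ D f) : KW p k) * ip (rg p (Ml ψ l)) (Ml ψ l))) := by
  have := finite_EG (φ := φ) (D := D) (f := f)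
  have : Fintype ↥(EG φ D f) := Fintype.ofFinite _
  set S : T → KW p k := fun v =>
    ∑ α : EG φ D f, ((l ((α : MulAut T) v) : (KW p k)ˣ) : KW p k) with hS
  have h1 : ip (Ml ψ l) (Ml ψ l)
      = ((Finset.univ.filter fun α : EG φ D f => ∀ u, l ((α : MulAut T) u) = l u).card :
        KW p k) := by
    rw [← (gram_l' h hE hψ hl).2, ← ip_comb fun χ => mlt (ψ χ) l]
    rfl
  have h2 := sum_S (φ := φ) (D := D) (f := f) l
  have h3 : ∑ v : T with v ∉ R, rwv φ G R (Ml ψ l) v * rwv φ G R (Ml ψ l) v⁻¹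
      = ∑ v : T with v ∉ R, S v * S v⁻¹ := by
    refine Finset.sum_congr rfl fun v hv => ?_
    have hv' := (Finset.mem_filter.1 hv).2
    rw [rwv_Mlq h hE hψ hl hv', rwv_Mlq h hE hψ hl fun h4 => hv' ((Subgroup.inv_mem_iff R).1 h4)]
  have hSR : ∀ v ∈ R, S v = (Nat.card (EG φ D f) : KW p k) := by
    intro v hv
    rw [hS]
    simp only
    rw [Finset.sum_congr rfl (g := fun _ => (1 : KW p k)), Finset.sum_const, Finset.card_univ,
      nsmul_eq_mul, mul_one, Nat.card_eq_fintype_card]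
    intro α _
    rw [YFAux.al_fix h α.2 hv, hl v hv, Units.val_one]
  have hcR : (Finset.univ.filter fun u : T => u ∈ R).card = Nat.card R := by
    rw [Nat.card_eq_fintype_card, Fintype.card_subtype]
  have h4 : ∑ v : T with v ∈ R, S v * S v⁻¹
      = (Nat.card R : KW p k) * (Nat.card (EG φ D f) : KW p k) ^ 2 := by
    rw [Finset.sum_congr rfl (g := fun _ => (Nat.card (EG φ D f) : KW p k) ^ 2),
      Finset.sum_const, hcR, nsmul_eq_mul]
    intro v hv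
    have hv' := (Finset.mem_filter.1 hv).2
    rw [hSR v hv', hSR _ (R.inv_mem hv'), sq]
  have h5 : ∑ v : T, S v * S v⁻¹ = (Fintype.card T : KW p k) *
      ((Nat.card (EG φ D f) : KW p k) * ip (Ml ψ l) (Ml ψ l)) := by
    rw [h1]
    exact h2
  rw [← Finset.sum_filter_add_sum_filter_not Finset.univ (fun u => u ∈ R), h4] at h5
  rw [tot h hBB (Ml_mem hB hψ l) (fun z hz x => Ml_ker ψ l hz x), h3, ← h5]
  ring

/-- the arithmetic -/
theorem arithq {e r p q m M : ℤ} (hq : 0 ≤ q) (heq : e ^ 2 < q * (p - 1)) (hr : 1 ≤ r)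
    (hmM : m ≤ M) (hM : q * M ≤ r * e ^ 2) (hm : (p - 1) * r ≤ m) : False := by
  have h1 : q * ((p - 1) * r) ≤ r * e ^ 2 :=
    (mul_le_mul_of_nonneg_left (hm.trans hmM) hq).trans hM
  have h2 : r * e ^ 2 < r * (q * (p - 1)) := mul_lt_mul_of_pos_left heq (by linarith)
  have h3 : q * ((p - 1) * r) = r * (q * (p - 1)) := by ring
  linarith

open Classical in
/-- **the form vanishes at the `Ml ψ l`** -/
theorem kerNq {q : ℕ} (hq0 : q ≠ 0) (hpq : p ∣ q) (h : Stp φ b D f i R G)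
    (hC : ∀ Q, R < Q → ∀ c, LbH (cq φ Q) i c → ∀ X ∈ VA (p := p) (dnr (cq φ Q) c),
      ∀ Y ∈ VA (p := p) (dnr (cq φ Q) c), ∃ m a a' : ℤ,
      (Fintype.card T : KW p k) * (eQ φ D f Q : KW p k) * ip (rg p X) Y = m ∧
      ip X (on (cq φ Q) (G Q)) = a ∧ ip Y (on (cq φ Q) (G Q)) = a' ∧ (q : ℤ) ∣ m - a * a')
    (hE : ¬ p ∣ eN D f) (hEq : eN D f ^ 2 < q * (p - 1))
    {BB : ∀ H : Subgroup A, MonoidAlgebra (OW p k) ↥H}
    (hBB : ∀ u c, LbH (C1 (φ u)) i c → CenL (dnr (C1 (φ u)) c) (BB (C1 (φ u))))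
    {B : MonoidAlgebra (OW p k) A} (hB : CenL b B)
    {ψ : IR φ R B → T → KW p k} (hψ : Rows φ D f R G B ψ)
    {l : T →* (KW p k)ˣ} (hl : ∀ z ∈ R, l z = 1) {u : T} (hu : u ∉ R) {m : ℤ}
    (hm : m ≠ 0 → ((p : ℤ) - 1) * Nat.card R ≤ m)
    (hs : ∑ v : T with R ⊔ Subgroup.zpowers v = R ⊔ Subgroup.zpowers u,
      sv φ D f R G BB (Ml ψ l) v = (q : KW p k) * m) : m = 0 := by
  by_contra hm0
  have hT := YPaAux.isPGroup_T h
  have hV := (Ml_mem hB hψ l).1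
  have hpK : (q : KW p k) ≠ 0 := Nat.cast_ne_zero.2 hq0
  obtain ⟨M, hM, hle⟩ := sum_fib (R := R) hpK (F := sv φ D f R G BB (Ml ψ l)) (fun u' hu' => by
    obtain ⟨N, hN⟩ := exists_Nq hq0 hpq h hC hT hBB hu'
    obtain ⟨⟨m', h1, -, h2, -⟩, -⟩ := hN _ hV
    exact ⟨m', h1, h2⟩)
  have hmM := hle u hu m hs
  obtain ⟨r, hr0, hr, -⟩ := rg_nonneg (p := p) hV
  rw [tot_Mlq h hE hBB hB hψ hl, hr] at hM
  have h1 : (Nat.card R : ℚ) * (Nat.card (EG φ D f) : ℚ) ^ 2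
      - (Nat.card R : ℚ) * ((Fintype.card T : ℚ) * ((Nat.card (EG φ D f) : ℚ) * r))
      = (q : ℚ) * M := by
    have h2 : (((Nat.card R : ℚ) * (Nat.card (EG φ D f) : ℚ) ^ 2
      - (Nat.card R : ℚ) * ((Fintype.card T : ℚ) * ((Nat.card (EG φ D f) : ℚ) * r)) : ℚ) :
        KW p k) = (((q : ℚ) * M : ℚ) : KW p k) := by
      push_cast
      exact hM
    exact_mod_cast h2
  have h3 : (q : ℚ) * M ≤ (Nat.card R : ℚ) * (Nat.card (EG φ D f) : ℚ) ^ 2 := by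
    rw [← h1]
    have h4 : 0 ≤ (Nat.card R : ℚ) * ((Fintype.card T : ℚ) * ((Nat.card (EG φ D f) : ℚ) * r)) := by
      positivity
    linarith
  have h4 : (q : ℤ) * M ≤ (Nat.card R : ℤ) * (Nat.card (EG φ D f) : ℤ) ^ 2 := by exact_mod_cast h3
  have hEc : Nat.card (EG φ D f) ^ 2 < q * (p - 1) := by rw [card_EG h.inj h.ran]; exact hEq
  have hR1 : 1 ≤ Nat.card R := Nat.card_pos
  have hp1 : 1 ≤ p := (Fact.out : p.Prime).one_lt.le
  refine arithq (e := (Nat.card (EG φ D f) : ℤ)) (q := (q : ℤ)) (p := (p : ℤ)) (by positivity) ?_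
    (by exact_mod_cast hR1) hmM h4 (hm hm0)
  have h5 : ((Nat.card (EG φ D f) ^ 2 : ℕ) : ℤ) < ((q * (p - 1) : ℕ) : ℤ) := by exact_mod_cast hEc
  rw [Nat.cast_mul, Nat.cast_sub hp1] at h5
  push_cast at h5
  exact h5

/-- **the columns vanish** -/
theorem vanq {q : ℕ} (hq0 : q ≠ 0) (hpq : p ∣ q) (h : Stp φ b D f i R G)
    (hC : ∀ Q, R < Q → ∀ c, LbH (cq φ Q) i c → ∀ X ∈ VA (p := p) (dnr (cq φ Q) c),
      ∀ Y ∈ VA (p := p) (dnr (cq φ Q) c), ∃ m a a' : ℤ,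
      (Fintype.card T : KW p k) * (eQ φ D f Q : KW p k) * ip (rg p X) Y = m ∧
      ip X (on (cq φ Q) (G Q)) = a ∧ ip Y (on (cq φ Q) (G Q)) = a' ∧ (q : ℤ) ∣ m - a * a')
    (hE : ¬ p ∣ eN D f) (hEq : eN D f ^ 2 < q * (p - 1))
    {B : MonoidAlgebra (OW p k) A} (hB : CenL b B)
    {BB : ∀ H : Subgroup A, MonoidAlgebra (OW p k) ↥H}
    (hBB : ∀ u c, LbH (C1 (φ u)) i c → CenL (dnr (C1 (φ u)) c) (BB (C1 (φ u))))
    {ψ : IR φ R B → T → KW p k} (hψ : Rows φ D f R G B ψ) {u : T} (hu : u ∉ R) {s : A}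
    (hs : s ∈ C1 (φ u)) (hsp : Preg p s) :
    cut (C1 (φ u)) (BB (C1 (φ u))) (Mc ψ) (φ u * s) = 0 := by
  classical
  have hT := YPaAux.isPGroup_T h
  have hX := (Mc_mem h hB hψ).1
  obtain ⟨N, hN⟩ := exists_Nq hq0 hpq h hC hT hBB hu
  obtain ⟨c, hBQ⟩ := exists_c h hBB u
  obtain ⟨P, hRP, hPQ, hcard, hg⟩ := YSaAux.exists_P (Fact.out : p.Prime) hT hu
  have hT0 : (Fintype.card T : KW p k) ≠ 0 := Nat.cast_ne_zero.2 Fintype.card_ne_zero
  -- the form vanishes at `Mc`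
  have hNz : ∀ v, R ⊔ Subgroup.zpowers v = R ⊔ Subgroup.zpowers u → ∀ s,
      ∑ t, (N s t : KW p k) * xs φ _ (BB (cq φ (R ⊔ Subgroup.zpowers u))) (Mc ψ) t v = 0 := by
    intro v hv s
    have h1 : ∀ t, (N s t : KW p k) * xs φ _ (BB (cq φ (R ⊔ Subgroup.zpowers u))) (Mc ψ) t v
        = ∑ l : T →* (KW p k)ˣ, (N s t : KW p k) *
          xs φ _ (BB (cq φ (R ⊔ Subgroup.zpowers u))) (Ml ψ l) t v := by
      intro t
      rw [Mc_eq, xs_sum, Finset.mul_sum]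
    rw [Finset.sum_congr rfl fun t _ => h1 t, Finset.sum_comm]
    refine Finset.sum_eq_zero fun l _ => ?_
    by_cases hl : ∀ z ∈ R, l z = 1
    · obtain ⟨⟨m, -, hm, hsum, hz⟩, -⟩ := hN _ (Ml_mem hB hψ l).1
      exact hz (kerNq hq0 hpq h hC hE hEq hBB hB hψ hl hu hm hsum) v hv s
    · push Not at hl
      obtain ⟨z, hz, hlz⟩ := hl
      have h2 : Ml ψ l = fun _ => 0 := by
        funext x
        unfold Ml
        exact Finset.sum_eq_zero fun χ _ => by rw [mlt_out hψ hz hlz, zero_mul]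
      refine Finset.sum_eq_zero fun t _ => ?_
      rw [h2, xs_zero, mul_zero]
  -- the `Wf` vanish
  have hW : ∀ v, R ⊔ Subgroup.zpowers v = R ⊔ Subgroup.zpowers u →
      Wf p (cq φ (R ⊔ Subgroup.zpowers u))
        (cut _ (BB (cq φ (R ⊔ Subgroup.zpowers u))) (Mc ψ))
        (cut _ (BB (cq φ (R ⊔ Subgroup.zpowers u))) (Mc ψ)) (φ v) = 0 := by
    intro v hv
    have h1 := (hN _ hX).2 v hv
    have hv' : R ⊔ Subgroup.zpowers v⁻¹ = R ⊔ Subgroup.zpowers u := by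
      rw [Subgroup.zpowers_inv, hv]
    have h2 : ∑ s, ∑ t, (N s t : KW p k) *
        (xs φ _ (BB (cq φ (R ⊔ Subgroup.zpowers u))) (Mc ψ) s v *
          xs φ _ (BB (cq φ (R ⊔ Subgroup.zpowers u))) (Mc ψ) t v⁻¹) = 0 := by
      refine Finset.sum_eq_zero fun s _ => ?_
      have h3 : ∑ t, (N s t : KW p k) *
          (xs φ _ (BB (cq φ (R ⊔ Subgroup.zpowers u))) (Mc ψ) s v *
            xs φ _ (BB (cq φ (R ⊔ Subgroup.zpowers u))) (Mc ψ) t v⁻¹)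
          = xs φ _ (BB (cq φ (R ⊔ Subgroup.zpowers u))) (Mc ψ) s v *
            ∑ t, (N s t : KW p k) *
              xs φ _ (BB (cq φ (R ⊔ Subgroup.zpowers u))) (Mc ψ) t v⁻¹ := by
        rw [Finset.mul_sum]
        exact Finset.sum_congr rfl fun t _ => by ring
      rw [h3, hNz _ hv' s, mul_zero]
    rw [h2, mul_zero, add_zero, rwv_Mc hψ (fib_notMem hu hv), zero_mul] at h1
    have he0 : (eQ φ D f (R ⊔ Subgroup.zpowers u) : KW p k) ≠ 0 := by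
      rw [(eQ_sup h.cen h.inj u).1]
      have := finite_EG (φ := φ) (D := D) (f := f)
      exact Nat.cast_ne_zero.2 (Nat.one_le_iff_ne_zero.1 (st_pos (EG φ D f) u))
    exact (mul_eq_zero.1 h1).resolve_left (mul_ne_zero hT0 he0)
  have huQ : u ∈ R ⊔ Subgroup.zpowers u := Subgroup.mem_sup_right (Subgroup.mem_zpowers u)
  have key : ∀ H : Subgroup A, H = cq φ (R ⊔ Subgroup.zpowers u) → s ∈ H →
      cut H (BB H) (Mc ψ) (φ u * s) = 0 := by
    rintro H rfl hsH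
    exact YPbAux.col_zero hcard hPQ hBQ hX (fun v hv => hW v ((hg v v.2).1 fun h1 =>
      hv (Subgroup.mem_subgroupOf.2 h1))) huQ ((hg u huQ).2 rfl)
      (y := ⟨s, hsH⟩) ((FIAux.preg_coe' (⟨s, hsH⟩ : ↥(cq φ (R ⊔ Subgroup.zpowers u)))).1 hsp)
  exact key _ (cq_eq h.cen u).symm hs

end

end ZEAux

end Pool.Agent.Lib.P0c8ca5.Ex
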