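import Mathlib
import Pool.Agent.Lib.P0c8ca5Ex.ZEb
import Pool.Agent.Lib.P0c8ca5Ex.ZD0

/-!
# ZE: the vanishing of the columns from the congruences modulo `q` (K2)

`van_colsq`: as `van_cols` (YP) for an inertial quotient of any order prime to `p` if the congruences hold modulo `q` with
`|E| ^ 2 < q (p - 1)`. PROOF: ZEa, ZEb (the forms of the local blocks are divisible by `q`: `q ∑_Q n_Q ≤ |R| |E|²`
and `n_Q = 0` or `n_Q ≥ (p - 1) |R|`).
-/

set_option linter.unusedSectionVars false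

namespace Pool.Agent.Lib.P0c8ca5.Ex

open MonoidAlgebra

section
variable {p : ℕ} [Fact p.Prime] {k : Type*} [Field k] [IsAlgClosed k] [CharP k p]
  {A : Type*} [Group A] [Finite A] {T : Type*} [CommGroup T] [Fintype T]
  {φ : T →* A} {b f i : MonoidAlgebra k A} {D : Subgroup A} {R : Subgroup T}
  {G : Subgroup T → A → KW p k}

/-- **the columns vanish** -/
theorem van_colsq {q : ℕ} (hpq : p ∣ q) (h : Stp φ b D f i R G)
    (hC : ∀ Q, R < Q → Cq q φ D f i G Q) (hpE : ¬ p ∣ eN D f)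
    (hE : eN D f ^ 2 < q * (p - 1))
    {B : MonoidAlgebra (OW p k) A} (hB : CenL b B)
    {BB : ∀ H : Subgroup A, MonoidAlgebra (OW p k) ↥H}
    (hBB : ∀ u c, LbH (C1 (φ u)) i c → CenL (dnr (C1 (φ u)) c) (BB (C1 (φ u))))
    {ψ : IR φ R B → T → KW p k} (hψ : Rows φ D f R G B ψ) {u : T} (hu : u ∉ R) {s : A}
    (hs : s ∈ C1 (φ u)) (hsp : Preg p s) :
    cut (C1 (φ u)) (BB (C1 (φ u))) (Mc ψ) (φ u * s) = 0 := by
  have hq0 : q ≠ 0 := by
    rintro rfl
    rw [zero_mul] at hE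
    exact absurd hE (Nat.not_lt_zero _)
  exact ZEAux.vanq hq0 hpq h hC hpE hE hB hBB hψ hu hs hsp

end

end Pool.Agent.Lib.P0c8ca5.Ex
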