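import Mathlib
import Pool.Agent.Lib.P0c8ca5Ex.YS
import Pool.Agent.Lib.P0c8ca5Ex.ZD0

/-!
# ZH: the congruences modulo `q` of the class function at `R` (K2)

As YS with `q` in place of `p`: if `GOK.cong` holds modulo `q` (`Cq q`) for all `Q > R` and `q |R|` divides `|T|` then for `X`, `Y` in the
block: `|T| |E| ip (rg p X) Y` is congruent to `ip X (Gm ψ) * ip Y (Gm ψ)` modulo `q`. (`q = p q'`: the local identity `loc_id` is used
with the form `q' N`.)
-/

set_option linter.unusedSectionVars false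

namespace Pool.Agent.Lib.P0c8ca5.Ex

open MonoidAlgebra

namespace ZHAux

section
variable {p : ℕ} [Fact p.Prime] {k : Type*} [Field k] [IsAlgClosed k] [CharP k p]
  {A : Type*} [Group A] [Finite A] {T : Type*} [CommGroup T] [Fintype T]
  {φ : T →* A} {b f i : MonoidAlgebra k A} {D : Subgroup A} {R : Subgroup T}
  {G : Subgroup T → A → KW p k} {B : MonoidAlgebra (OW p k) A} {ψ : IR φ R B → T → KW p k}

open YFAux YTbAux YSaAux YSAux YGAux

/-- the form modulo `q` -/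
theorem locq {q : ℕ} {Q : Subgroup T} (h : Cq q φ D f i G Q) {c : MonoidAlgebra k A}
    (hc : LbH (cq φ Q) i c) {BH : MonoidAlgebra (OW p k) ↥(cq φ Q)}
    (hB : CenL (dnr (cq φ Q) c) BH) :
    ∃ N : Ir (KW p k) ↥(cq φ Q) → Ir (KW p k) ↥(cq φ Q) → ℤ,
      (∀ s t, chO s BH = 0 ∨ chO t BH = 0 → N s t = 0) ∧
      ∀ s t, chO s BH ≠ 0 → chO t BH ≠ 0 →
        (Fintype.card T : KW p k) * (eQ φ D f Q : KW p k) * ip (rg p (ch s)) (ch t)
          = ip (ch s) (on (cq φ Q) (G Q)) * ip (ch t) (on (cq φ Q) (G Q))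
            + (q : KW p k) * (N s t : KW p k) := by
  classical
  have h1 : ∀ s t, chO s BH ≠ 0 → chO t BH ≠ 0 → ∃ z : ℤ,
      (Fintype.card T : KW p k) * (eQ φ D f Q : KW p k) * ip (rg p (ch s)) (ch t)
          = ip (ch s) (on (cq φ Q) (G Q)) * ip (ch t) (on (cq φ Q) (G Q))
            + (q : KW p k) * (z : KW p k) := by
    intro s t hs ht
    obtain ⟨m, a, a', h2, h3, h4, z, h5⟩ := h c hc _ (ch_mem_VA hB hs) _ (ch_mem_VA hB ht)
    refine ⟨z, ?_⟩
    have h6 : m = a * a' + (q : ℤ) * z := by rw [← h5]; ring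
    rw [h2, h3, h4, h6]
    push_cast
    rfl
  choose z hz using h1
  refine ⟨fun s t => if h : chO s BH ≠ 0 ∧ chO t BH ≠ 0 then z s t h.1 h.2 else 0, ?_, ?_⟩
  · intro s t hst
    dsimp only
    rw [dif_neg]
    rintro ⟨h2, h3⟩
    rcases hst with h4 | h4
    · exact h2 h4
    · exact h3 h4
  · intro s t hs ht
    dsimp only
    rw [dif_pos ⟨hs, ht⟩]
    exact hz s t hs ht

open Classical in
/-- the sum of the local identities over the `v` with the same `Q`, modulo `q` -/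
theorem sum_locq (h : Stp φ b D f i R G) (hT : IsPGroup p T) {q : ℕ} (hpq : p ∣ q)
    {BB : ∀ H : Subgroup A, MonoidAlgebra (OW p k) ↥H}
    (hBB : ∀ u c, LbH (C1 (φ u)) i c → CenL (dnr (C1 (φ u)) c) (BB (C1 (φ u))))
    {X Y : A → KW p k} (hX : X ∈ V (KW p k) A) (hY : Y ∈ V (KW p k) A) {u : T} (hu : u ∉ R)
    (hC : Cq q φ D f i G (R ⊔ Subgroup.zpowers u)) :
    ∃ m : ℤ, ∑ v : T with R ⊔ Subgroup.zpowers v = R ⊔ Subgroup.zpowers u,
      ((Fintype.card T : KW p k) * ((eQ φ D f (Subgroup.zpowers v) : KW p k) *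
        Wf p (C1 (φ v)) (cut (C1 (φ v)) (BB (C1 (φ v))) X) (cut (C1 (φ v)) (BB (C1 (φ v))) Y) (φ v))
        - rwv φ G R X v * rwv φ G R Y v⁻¹)
      = ((q : KW p k) * (Nat.card R : KW p k)) * m := by
  obtain ⟨q', hq'⟩ := hpq
  obtain ⟨c, hc⟩ := exists_lbH h.src (phi_mem h u)
  have hcQ : LbH (cq φ (R ⊔ Subgroup.zpowers u)) i c := by
    rw [cq_eq h.cen]
    exact hc
  have hBQ : CenL (dnr (cq φ (R ⊔ Subgroup.zpowers u)) c)
      (BB (cq φ (R ⊔ Subgroup.zpowers u))) := by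
    have h1 : ∀ H, H = C1 (φ u) → CenL (dnr H c) (BB H) := by
      rintro H rfl
      exact hBB u c hc
    exact h1 _ (cq_eq h.cen u)
  obtain ⟨N, hN0, hN⟩ := locq hC hcQ hBQ
  -- the form `q' N`
  have hN0' : ∀ s t, chO s (BB (cq φ (R ⊔ Subgroup.zpowers u))) = 0 ∨
      chO t (BB (cq φ (R ⊔ Subgroup.zpowers u))) = 0 → (fun s t => (q' : ℤ) * N s t) s t = 0 := by
    intro s t hst
    simp only
    rw [hN0 s t hst, mul_zero]
  have hN' : ∀ s t, chO s (BB (cq φ (R ⊔ Subgroup.zpowers u))) ≠ 0 →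
      chO t (BB (cq φ (R ⊔ Subgroup.zpowers u))) ≠ 0 →
      (Fintype.card T : KW p k) * (eQ φ D f (R ⊔ Subgroup.zpowers u) : KW p k)
          * ip (rg p (ch s)) (ch t)
        = ip (ch s) (on (cq φ (R ⊔ Subgroup.zpowers u)) (G (R ⊔ Subgroup.zpowers u)))
            * ip (ch t) (on (cq φ (R ⊔ Subgroup.zpowers u)) (G (R ⊔ Subgroup.zpowers u)))
          + (p : KW p k) * (((fun s t => (q' : ℤ) * N s t) s t : ℤ) : KW p k) := by
    intro s t hs ht
    rw [hN s t hs ht, hq']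
    push_cast
    ring
  have hterm : ∀ v ∈ Finset.univ.filter
      (fun v : T => R ⊔ Subgroup.zpowers v = R ⊔ Subgroup.zpowers u),
      ((Fintype.card T : KW p k) * ((eQ φ D f (Subgroup.zpowers v) : KW p k) *
        Wf p (C1 (φ v)) (cut (C1 (φ v)) (BB (C1 (φ v))) X) (cut (C1 (φ v)) (BB (C1 (φ v))) Y) (φ v))
        - rwv φ G R X v * rwv φ G R Y v⁻¹)
      = (q : KW p k) * ∑ s, ∑ t, (N s t : KW p k) *
        (xs φ _ (BB (cq φ (R ⊔ Subgroup.zpowers u))) X s v *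
          xs φ _ (BB (cq φ (R ⊔ Subgroup.zpowers u))) Y t v⁻¹) := by
    intro v hv
    have hvQ := (Finset.mem_filter.1 hv).2
    have hvR : v ∉ R := by
      intro h1
      apply hu
      have h3 : R ⊔ Subgroup.zpowers v = R := by
        rw [sup_eq_left, Subgroup.zpowers_le]
        exact h1
      have h4 : u ∈ R ⊔ Subgroup.zpowers u := Subgroup.mem_sup_right (Subgroup.mem_zpowers u)
      rwa [← hvQ, h3] at h4
    have h1 := loc_id' h hvR hvQ hcQ hBQ hN0' hN' hX hY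
    have h2 : ∀ H : Subgroup A, H = cq φ (R ⊔ Subgroup.zpowers u) →
        Wf p H (cut H (BB H) X) (cut H (BB H) Y) (φ v)
          = Wf p (cq φ (R ⊔ Subgroup.zpowers u))
            (cut _ (BB (cq φ (R ⊔ Subgroup.zpowers u))) X)
            (cut _ (BB (cq φ (R ⊔ Subgroup.zpowers u))) Y) (φ v) := by
      rintro H rfl
      rfl
    have h3 : C1 (φ v) = cq φ (R ⊔ Subgroup.zpowers u) := by
      rw [← hvQ, cq_eq h.cen]
    rw [h2 _ h3]
    have h4 : eQ φ D f (Subgroup.zpowers v) = eQ φ D f (R ⊔ Subgroup.zpowers u) := by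
      rw [← hvQ, (eQ_sup h.cen h.inj v).1, (eQ_sup h.cen h.inj v).2]
    have h5 : (p : KW p k) * ∑ s, ∑ t, (((fun s t => (q' : ℤ) * N s t) s t : ℤ) : KW p k) *
        (xs φ _ (BB (cq φ (R ⊔ Subgroup.zpowers u))) X s v *
          xs φ _ (BB (cq φ (R ⊔ Subgroup.zpowers u))) Y t v⁻¹)
        = (q : KW p k) * ∑ s, ∑ t, (N s t : KW p k) *
        (xs φ _ (BB (cq φ (R ⊔ Subgroup.zpowers u))) X s v *
          xs φ _ (BB (cq φ (R ⊔ Subgroup.zpowers u))) Y t v⁻¹) := by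
      rw [hq', Finset.mul_sum, Finset.mul_sum]
      refine Finset.sum_congr rfl fun s _ => ?_
      rw [Finset.mul_sum, Finset.mul_sum]
      refine Finset.sum_congr rfl fun t _ => ?_
      push_cast
      ring
    rw [h4, ← mul_assoc, h1, h5]
    ring
  rw [Finset.sum_congr rfl hterm, ← Finset.mul_sum]
  have hm : ∀ s t, ∃ m : ℤ, ∑ v : T with R ⊔ Subgroup.zpowers v = R ⊔ Subgroup.zpowers u,
      xs φ _ (BB (cq φ (R ⊔ Subgroup.zpowers u))) X s v *
          xs φ _ (BB (cq φ (R ⊔ Subgroup.zpowers u))) Y t v⁻¹ = (Nat.card R : KW p k) * m :=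
    fun s t => gen_pair hT hu (xs_vir rfl hBQ hX s) (xs_vir rfl hBQ hY t)
  choose m hm using hm
  refine ⟨∑ s, ∑ t, N s t * m s t, ?_⟩
  rw [mul_assoc]
  congr 1
  calc ∑ v : T with R ⊔ Subgroup.zpowers v = R ⊔ Subgroup.zpowers u,
      ∑ s, ∑ t, (N s t : KW p k) * (xs φ _ (BB (cq φ (R ⊔ Subgroup.zpowers u))) X s v *
          xs φ _ (BB (cq φ (R ⊔ Subgroup.zpowers u))) Y t v⁻¹)
      = ∑ s, ∑ t, ∑ v : T with R ⊔ Subgroup.zpowers v = R ⊔ Subgroup.zpowers u,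
        (N s t : KW p k) * (xs φ _ (BB (cq φ (R ⊔ Subgroup.zpowers u))) X s v *
          xs φ _ (BB (cq φ (R ⊔ Subgroup.zpowers u))) Y t v⁻¹) := by
        rw [Finset.sum_comm]
        exact Finset.sum_congr rfl fun s _ => Finset.sum_comm
    _ = ∑ s, ∑ t, (Nat.card R : KW p k) * ((N s t * m s t : ℤ) : KW p k) := by
        refine Finset.sum_congr rfl fun s _ => Finset.sum_congr rfl fun t _ => ?_
        rw [← Finset.mul_sum, hm]
        push_cast
        ring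
    _ = (Nat.card R : KW p k) * ((∑ s, ∑ t, N s t * m s t : ℤ) : KW p k) := by
        push_cast
        rw [Finset.mul_sum]
        exact Finset.sum_congr rfl fun s _ => by rw [Finset.mul_sum]


/-- the step (b) modulo `q` -/
theorem stepbq {q : ℕ} (hq0 : q ≠ 0) (H : Inp φ b D f i R G B ψ) {X : A → KW p k} (hX : X ∈ VA (p := p) b) {n : KW p k}
    (hj : ∀ ζ : IR φ R B, ∃ j : ℤ, n * ip (rg p X) (ch ζ.1) - ip X (Gm ψ) * ip (ch ζ.1) (Gm ψ)
      = (q : KW p k) * j) {Y : A → KW p k} (hY : Y ∈ V (KW p k) A) :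
    ∃ j : ℤ, n * ip (rg p X) Y - ip X (Gm ψ) * ip Y (Gm ψ) = (q : KW p k) * j := by
  classical
  have h := H.stp
  have hΓ := gm_mem H
  have hp0 : (q : KW p k) ≠ 0 := Nat.cast_ne_zero.2 hq0
  have hR0 : (Nat.card R : KW p k) ≠ 0 := Nat.cast_ne_zero.2 Nat.card_pos.ne'
  set F : A → KW p k := n • rg p X + (-(ip X (Gm ψ))) • Gm ψ with hF
  have hipF : ∀ Z : A → KW p k, ip F Z = n * ip (rg p X) Z - ip X (Gm ψ) * ip Z (Gm ψ) := by
    intro Z
    rw [hF, ip_add, ip_smul, ip_smul, ip_comm (Gm ψ) Z]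
    ring
  have hFc : ∀ g x, F (g * x * g⁻¹) = F x := by
    intro g x
    rw [hF, Pi.add_apply, Pi.add_apply, Pi.smul_apply, Pi.smul_apply, Pi.smul_apply, Pi.smul_apply,
      rg_conj (V_conj hX.1), V_conj hΓ.1]
  have hFr : ∀ x, ¬ Preg p x → F x = 0 := by
    intro x hx
    rw [hF, Pi.add_apply, Pi.smul_apply, Pi.smul_apply, rg_not hx, Gm, rg_not hx, mul_zero,
      smul_zero, smul_zero, add_zero]
  choose jj hjj using hj
  set J : Ir (KW p k) A → ℤ := fun χ =>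
    if hχ : Ker φ R χ ∧ chO χ B ≠ 0 then jj ⟨χ, hχ⟩ else 0 with hJ
  set S : A → KW p k := fun x => ∑ χ : Ir (KW p k) A, (J χ : KW p k) * ch χ x with hS
  have hSV : S ∈ V (KW p k) A := V_of_sum J
  have hJK : ∀ χ, Ker φ R χ → ip F (ch χ) = (q : KW p k) * J χ := by
    intro χ hχ
    by_cases hB : chO χ B = 0
    · rw [hipF, bo' H.cl hX hB, ip_comm (ch χ), hΓ.2 B H.cl χ hB, hJ]
      simp only
      rw [dif_neg fun h1 => h1.2 hB, Int.cast_zero]
      ring
    · rw [hipF, hJ]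
      simp only
      rw [dif_pos ⟨hχ, hB⟩]
      exact hjj ⟨χ, hχ, hB⟩
  have hJ0 : ∀ χ, ¬ Ker φ R χ → J χ = 0 := by
    intro χ hχ
    rw [hJ]
    simp only
    rw [dif_neg fun h1 => hχ h1.1]
  have hsum : ∀ x, ∑ z : ↥R, F (φ z * x) = (Nat.card R : KW p k) * ((q : KW p k) * S x) := by
    intro x
    rw [avg_cf h hFc, hS]
    simp only
    rw [Finset.mul_sum (a := (q : KW p k)), Finset.sum_filter]
    congr 1
    refine Finset.sum_congr rfl fun χ _ => ?_
    split_ifs with hχ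
    · rw [hJK χ hχ, mul_assoc]
    · rw [hJ0 χ hχ, Int.cast_zero, zero_mul, mul_zero]
  have hS1 : ∀ z ∈ R.map φ, ∀ x, S (z * x) = S x := by
    rintro _ ⟨z, hz, rfl⟩ x
    rw [hS]
    simp only
    refine Finset.sum_congr rfl fun χ _ => ?_
    by_cases hχ : Ker φ R χ
    · rw [hχ z hz]
    · rw [hJ0 χ hχ, Int.cast_zero, zero_mul, zero_mul]
  have hS0 : ∀ x, (∀ z ∈ R.map φ, ¬ Preg p (z * x)) → S x = 0 := by
    intro x hx
    have h1 := hsum x
    rw [Finset.sum_eq_zero fun (z : ↥R) _ => hFr _ (hx _ ⟨z, z.2, rfl⟩)] at h1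
    have h2 := (mul_eq_zero.1 h1.symm).resolve_left hR0
    exact (mul_eq_zero.1 h2).resolve_left hp0
  have hFS : F = ((q : KW p k) * (Nat.card R : KW p k)) • rg p S := by
    funext x
    rw [Pi.smul_apply, smul_eq_mul]
    by_cases hx : Preg p x
    · rw [rg_of hx, ← avg_reg h hFr hx, hsum]
      ring
    · rw [rg_not hx, hFr x hx, mul_zero]
  have hT := isP_T h.src h.inj h.ran
  have hZ : IsPGroup p ↥(R.map φ) := (hT.to_subgroup R).map φ
  have hcard : Nat.card ↥(R.map φ) = Nat.card R :=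
    (Nat.card_congr (Subgroup.equivMapOfInjective R φ h.inj).toEquiv).symm
  obtain ⟨m, hm⟩ := mix hZ (by
    rintro _ ⟨z, hz, rfl⟩ a
    exact h.cen z hz a) hSV hY hS1 hS0
  rw [hcard] at hm
  refine ⟨m, ?_⟩
  rw [← hipF, hFS, ip_smul, mul_assoc, hm]

end

end ZHAux

section
variable {p : ℕ} [Fact p.Prime] {k : Type*} [Field k] [IsAlgClosed k] [CharP k p]
  {A : Type*} [Group A] [Finite A] {T : Type*} [CommGroup T] [Fintype T]
  {φ : T →* A} {b f i : MonoidAlgebra k A} {D : Subgroup A} {R : Subgroup T}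
  {G : Subgroup T → A → KW p k} {B : MonoidAlgebra (OW p k) A} {ψ : IR φ R B → T → KW p k}

open YFAux YTbAux YSaAux YSAux ZHAux

/-- part (a) modulo `q` -/
theorem cong_sameq {q : ℕ} (hpq : p ∣ q) (H : Inp φ b D f i R G B ψ)
    (hC : ∀ Q, R < Q → Cq q φ D f i G Q) (hqT : q * Nat.card R ∣ Fintype.card T) (χ ξ : IR φ R B) : ∃ m a a' : ℤ,
    (Fintype.card T : KW p k) * (Nat.card (EG φ D f) : KW p k) * ip (rg p (ch χ.1)) (ch ξ.1) = m ∧
      ip (ch χ.1) (Gm ψ) = a ∧ ip (ch ξ.1) (Gm ψ) = a' ∧ (q : ℤ) ∣ m - a * a' := by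
  classical
  have h := H.stp
  have hT := isP_T h.src h.inj h.ran
  have hΓ := gm_mem H
  have hX : ch χ.1 ∈ VA (p := p) b := YGAux.ch_mem_VA H.cl χ.2.2
  have hY : ch ξ.1 ∈ VA (p := p) b := YGAux.ch_mem_VA H.cl ξ.2.2
  obtain ⟨a, ha⟩ := ip_int hX.1 hΓ.1
  obtain ⟨a', ha'⟩ := ip_int hY.1 hΓ.1
  obtain ⟨δ, hδ⟩ := ip_int hX.1 hY.1
  obtain ⟨BB, hBB⟩ := exists_BB h.src h.ran
  have hort := ort h.src h.inj h.ran hBB hX hY
  set E : KW p k := (Nat.card (EG φ D f) : KW p k) with hE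
  set n : KW p k := (Fintype.card T : KW p k) with hn
  set w : KW p k := ip (rg p (ch χ.1)) (ch ξ.1) with hw
  have hR0 : (Nat.card R : KW p k) ≠ 0 := Nat.cast_ne_zero.2 Nat.card_pos.ne'
  set W : T → KW p k := fun u => (eQ φ D f (Subgroup.zpowers u) : KW p k) *
        Wf p (C1 (φ u)) (cut (C1 (φ u)) (BB (C1 (φ u))) (ch χ.1))
          (cut (C1 (φ u)) (BB (C1 (φ u))) (ch ξ.1)) (φ u) with hW
  -- the places in `R`
  have hWR : ∀ u ∈ R, W u = E * w := by
    intro u hu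
    have hH : C1 (φ u) = ⊤ := by
      refine top_unique fun x _ => ?_
      rw [mem_C1']
      exact h.cen u hu x
    obtain ⟨c, hc⟩ := exists_lbH h.src (phi_mem h u)
    have h1 : eQ φ D f (Subgroup.zpowers u) = Nat.card (EG φ D f) := by
      rw [(eQ_sup h.cen h.inj u).2]
      unfold st
      refine Nat.card_congr (Equiv.subtypeUnivEquiv fun α => ?_)
      exact al_fix h α.2 hu
    rw [hW]
    simp only
    rw [h1, Wf_top hH (fun x => cut_top hH h.src hc (hBB u c hc) hX x)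
      (fun x => cut_top hH h.src hc (hBB u c hc) hY x) (h.cen u hu) (χ.2.1 u hu)]
    intro x
    rw [← map_inv]
    exact ξ.2.1 _ (R.inv_mem hu) x
  -- the places outside `R`
  obtain ⟨ρ, hρ⟩ := sum_out (R := R) (F := fun v => n * W v
      - rwv φ G R (ch χ.1) v * rwv φ G R (ch ξ.1) v⁻¹) (c := (q : KW p k) * (Nat.card R : KW p k))
    (fun u hu => sum_locq h hT hpq hBB hX.1 hY.1 hu (hC _ (lt_sup hu)))
  -- the rows
  obtain ⟨al, hal⟩ := pars_vir (gm_row H (ch_mem χ.1)) (gm_row H (ch_mem ξ.1))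
  have hcR : (Finset.univ.filter fun u : T => u ∈ R).card = Nat.card R := by
    rw [Nat.card_eq_fintype_card, Fintype.card_subtype]
  have hrow : ∑ v : T with v ∉ R, rwv φ G R (ch χ.1) v * rwv φ G R (ch ξ.1) v⁻¹
      = n * al - Nat.card R * (a * a') := by
    rw [← hal, ← Finset.sum_filter_add_sum_filter_not Finset.univ (fun u => u ∈ R)]
    have h1 : ∑ v : T with v ∈ R, rwv φ (upd G R (Gm ψ)) R (ch χ.1) v
        * rwv φ (upd G R (Gm ψ)) R (ch ξ.1) v⁻¹ = Nat.card R * (a * a') := by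
      rw [Finset.sum_congr rfl (g := fun _ => (a : KW p k) * a'), Finset.sum_const, hcR,
        nsmul_eq_mul]
      intro v hv
      have hv' := (Finset.mem_filter.1 hv).2
      rw [rwv_upd_mem h χ.2.1 hv', rwv_upd_mem h ξ.2.1 (R.inv_mem hv'), ha, ha']
    rw [h1, add_sub_cancel_left]
    refine Finset.sum_congr rfl fun v hv => ?_
    have hv' := (Finset.mem_filter.1 hv).2
    rw [rwv_upd_out hv', rwv_upd_out fun h1 => hv' ((Subgroup.inv_mem_iff R).1 h1)]
  have htot : n * (E * δ) = Nat.card R * (n * (E * w)) + (n * al - Nat.card R * (a * a'))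
      + (q : KW p k) * (Nat.card R : KW p k) * ρ := by
    rw [← hρ, Finset.sum_sub_distrib, hrow, ← hδ, ← hort, Finset.mul_sum,
      ← Finset.sum_filter_add_sum_filter_not Finset.univ (fun u => u ∈ R)]
    have h1 : ∑ v : T with v ∈ R, n * ((eQ φ D f (Subgroup.zpowers v) : KW p k) *
        Wf p (C1 (φ v)) (cut (C1 (φ v)) (BB (C1 (φ v))) (ch χ.1))
          (cut (C1 (φ v)) (BB (C1 (φ v))) (ch ξ.1)) (φ v)) = Nat.card R * (n * (E * w)) := by
      rw [Finset.sum_congr rfl (g := fun _ => n * (E * w)), Finset.sum_const, hcR, nsmul_eq_mul]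
      intro v hv
      exact congrArg _ (hWR v (Finset.mem_filter.1 hv).2)
    rw [h1]
    ring
  obtain ⟨τ, hτ⟩ := hqT
  have hnτ : n = Nat.card R * ((q : KW p k) * τ) := by
    rw [hn, hτ]
    push_cast
    ring
  have hfin : n * E * w = ((a * a' + q * (τ * Nat.card (EG φ D f) * δ - τ * al - ρ) : ℤ) : KW p k) := by
    refine mul_left_cancel₀ hR0 ?_
    have h1 : (Nat.card R : KW p k) * (n * E * w) = n * (E * δ) - (n * al - Nat.card R * (a * a'))
        - (q : KW p k) * (Nat.card R : KW p k) * ρ := by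
      rw [htot]
      ring
    rw [h1]
    push_cast
    rw [← hE]
    rw [hnτ]
    ring
  refine ⟨_, a, a', hfin, ha, ha', ?_⟩
  rw [add_sub_cancel_left]
  exact Dvd.intro _ rfl

theorem gm_congq {q : ℕ} (hq0 : q ≠ 0) (hpq : p ∣ q) (H : Inp φ b D f i R G B ψ)
    (hC : ∀ Q, R < Q → Cq q φ D f i G Q) (hqT : q * Nat.card R ∣ Fintype.card T) {X Y : A → KW p k}
    (hX : X ∈ VA (p := p) b) (hY : Y ∈ VA (p := p) b) : ∃ m a a' : ℤ,
    (Fintype.card T : KW p k) * (Nat.card (EG φ D f) : KW p k) * ip (rg p X) Y = m ∧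
      ip X (Gm ψ) = a ∧ ip Y (Gm ψ) = a' ∧ (q : ℤ) ∣ m - a * a' := by
  have hΓ := gm_mem H
  obtain ⟨a, ha⟩ := ip_int hX.1 hΓ.1
  obtain ⟨a', ha'⟩ := ip_int hY.1 hΓ.1
  -- the characters with `R` in the kernel
  have h1 : ∀ (χ : IR φ R B) {Z : A → KW p k}, Z ∈ V (KW p k) A → ∃ j : ℤ,
      (Fintype.card T : KW p k) * (Nat.card (EG φ D f) : KW p k) * ip (rg p (ch χ.1)) Z
        - ip (ch χ.1) (Gm ψ) * ip Z (Gm ψ) = (q : KW p k) * j := by
    intro χ Z hZ
    refine stepbq hq0 H (YGAux.ch_mem_VA H.cl χ.2.2) (fun ζ => ?_) hZ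
    obtain ⟨m, c, c', hm, hc, hc', j, hj⟩ := cong_sameq hpq H hC hqT χ ζ
    refine ⟨j, ?_⟩
    rw [hm, hc, hc', ← Int.cast_natCast, ← Int.cast_mul, ← Int.cast_mul, ← Int.cast_sub, hj]
  obtain ⟨j, hj⟩ := stepbq hq0 H hX (n := (Fintype.card T : KW p k) * (Nat.card (EG φ D f) : KW p k))
    (fun ζ => by
    obtain ⟨j, hj⟩ := h1 ζ hX.1
    refine ⟨j, ?_⟩
    rw [← hj, YGAux.ip_rg_comm X, mul_comm (ip X _)]) hY.1
  refine ⟨a * a' + q * j, a, a', ?_, ha, ha', ?_⟩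
  · rw [ha, ha'] at hj
    push_cast
    linear_combination hj
  · rw [add_sub_cancel_left]
    exact Dvd.intro _ rfl

end

end Pool.Agent.Lib.P0c8ca5.Ex
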