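import Mathlib
import Pool.Agent.Lib.P0c8ca5Ex.YTb

/-!
# ZIa: the uniqueness of `Γ` from the uniqueness of the extended rows
-/

set_option linter.unusedSectionVars false

namespace Pool.Agent.Lib.P0c8ca5.Ex

open MonoidAlgebra YFAux YTbAux

section
variable {p : ℕ} [Fact p.Prime] {k : Type*} [Field k] [IsAlgClosed k] [CharP k p]
  {A : Type*} [Group A] [Finite A] {T : Type*} [CommGroup T] [Fintype T]
  {φ : T →* A} {b f i : MonoidAlgebra k A} {D : Subgroup A} {R : Subgroup T}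
  {G : Subgroup T → A → KW p k}

/-- `T` is a `p`-group -/
theorem isP_stp (h : Stp φ b D f i R G) : IsPGroup p T := by
  obtain ⟨M, hM⟩ := pow_one_of h.src
  intro t
  refine ⟨M, h.inj ?_⟩
  rw [map_pow, map_one]
  exact hM _ (phi_mem h t)

/-- uniqueness of `Γ` from the uniqueness of the rows -/
theorem gr_unique_of (h : Stp φ b D f i R G) (hE : ¬ p ∣ Nat.card (EG φ D f))
    (hU : ∀ (B : MonoidAlgebra (OW p k) A) (ψ ψ' : IR φ R B → T → KW p k),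
      (∀ χ, ψ χ ∈ vir T (KW p k)) → (∀ χ, ψ' χ ∈ vir T (KW p k)) →
      (∀ χ, ∀ z ∈ R, ∀ u, ψ χ (z * u) = ψ χ u) → (∀ χ, ∀ z ∈ R, ∀ u, ψ' χ (z * u) = ψ' χ u) →
      (∀ χ u, u ∉ R → ψ χ u = ψ' χ u) → (∀ u v, GramR (EG φ D f) R ψ u v) →
      (∀ u v, GramR (EG φ D f) R ψ' u v) → ψ = ψ') {Γ Γ' : A → KW p k}
    (hΓ : GR φ b D f R G Γ) (hΓ' : GR φ b D f R G Γ') : Γ = Γ' := by
  classical
  obtain ⟨B, hB⟩ : ∃ B : MonoidAlgebra (OW p k) A, CenL b B :=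
    exists_cenL h.src.root.blk.idem
      (fun g => invBy_iff_cj.1 h.src.root.blk.invBy g (Subgroup.mem_top g))
  have h1 := gram_full h hE hB hΓ
  have h2 := gram_full h hE hB hΓ'
  have h3 := hU B _ _ h1.vir h2.vir h1.ker h2.ker
    (fun χ u hu => by rw [h1.out χ u hu, h2.out χ u hu]) h1.gram h2.gram
  have h4 : ∀ χ : IR φ R B, ip (ch χ.1) Γ = ip (ch χ.1) Γ' := by
    intro χ
    have h5 := congrFun (congrFun h3 χ) 1
    simp only [rwv_upd_one h] at h5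
    exact h5
  have h5 : ∀ x, ∑ χ : Ir (KW p k) A with Ker φ R χ, ip (ch χ) Γ * ch χ x
      = ∑ χ : Ir (KW p k) A with Ker φ R χ, ip (ch χ) Γ' * ch χ x := by
    intro x
    have hz : ∀ Γ : A → KW p k, GR φ b D f R G Γ → ∀ χ, chO χ B = 0 →
        ip (ch χ) Γ * ch χ x = 0 := fun Γ hΓ χ hχ => by
      rw [ip_comm, hΓ.blk.2 B hB χ hχ, zero_mul]
    rw [← sum_IR' (B := B) (F := fun χ => ip (ch χ) Γ * ch χ x) (hz Γ hΓ),
      ← sum_IR' (B := B) (F := fun χ => ip (ch χ) Γ' * ch χ x) (hz Γ' hΓ')]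
    exact Finset.sum_congr rfl fun χ _ => by rw [h4]
  funext x
  by_cases hx : Preg p x
  · rw [← avg_reg h hΓ.reg hx, ← avg_reg h hΓ'.reg hx, avg h hΓ.blk.1, avg h hΓ'.blk.1, h5]
  · rw [hΓ.reg x hx, hΓ'.reg x hx]

end

end Pool.Agent.Lib.P0c8ca5.Ex
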