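import Mathlib
import Pool.Agent.Lib.P0c8ca5Ex.YU
import Pool.Agent.Lib.P0c8ca5Ex.ZB
import Pool.Agent.Lib.P0c8ca5Ex.ZD0

/-!
# ZU: transport of the congruences modulo `q` to the centralizer (K2)

`H = cq φ Q`, `φ' : T → ↥H`, `D' = D.subgroupOf H`, `f' = dnr H f`, `i' = dnr H i`.

* `cq_down`: `Cq q` at `Q' ≥ Q` for `A` and for `↥H`.
* `EG_down`: `EG φ' D' f' = Fx (EG φ D f) Q`.
* `stp_downq`: `stp_down` (YU) with `GOK ∧ Cq q`.
-/

set_option linter.unusedSectionVars false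

namespace Pool.Agent.Lib.P0c8ca5.Ex

open MonoidAlgebra YuAux

section
variable {p : ℕ} [Fact p.Prime] {k : Type*} [Field k] [IsAlgClosed k] [CharP k p]
  {A : Type*} [Group A] [Finite A] {T : Type*} [CommGroup T] [Fintype T]
  {φ : T →* A} {b f i : MonoidAlgebra k A} {D : Subgroup A} {Q : Subgroup T}
  {G : Subgroup T → A → KW p k}

/-- **`Cq` in the centralizer** -/
theorem cq_down (q : ℕ) (h : Src p b D f i) (hr : ∀ x, x ∈ D ↔ ∃ t, φ t = x)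
    {φ' : T →* ↥(cq φ Q)} (hφ' : ∀ t, (φ' t : A) = φ t) {Q' : Subgroup T} (hQ : Q ≤ Q')
    (F : Subgroup T → A → KW p k) :
    Cq q φ D f i F Q' ↔ Cq q φ' (D.subgroupOf (cq φ Q)) (dnr (cq φ Q) f) (dnr (cq φ Q) i)
      (fun Q'' (y : ↥(cq φ Q)) => F Q'' (y : A)) Q' := by
  have hle : cq φ Q' ≤ cq φ Q := cq_anti φ hQ
  set e := eC hφ' hle with he
  obtain ⟨c, hc⟩ := exists_lb h (map_le_D hr Q)
  have hsrc := src_sub h hr (hc.toH rfl)
  obtain ⟨c0, hc0⟩ := exists_lb h (map_le_D hr Q')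
  have hc0 : LbH (cq φ Q') i c0 := hc0.toH rfl
  have hc0' := lbH_sub hφ' hle hc0
  -- uniqueness of the local blocks
  have hu : ∀ c, LbH (cq φ Q') i c → c = c0 := fun c hc =>
    Lb.unique h (map_le_D hr Q') (hc.toLb rfl) (hc0.toLb rfl)
  have hu' : ∀ c', LbH (cq φ' Q') (dnr (cq φ Q) i) c' → c' = dnr (cq φ Q) c0 := fun c' hc' =>
    Lb.unique hsrc (map_le_D (ran_sub hφ' hr) Q') (hc'.toLb rfl) (hc0'.toLb rfl)
  have hdd : cm e (dnr (cq φ Q') c0) = dnr (cq φ' Q') (dnr (cq φ Q) c0) := dnr_dnr hφ' hle c0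
  have heQ := eQ_sub h hr hφ' hQ
  have hon : ∀ X : A → KW p k, on (cq φ' Q') (fun y : ↥(cq φ Q) => X (y : A))
      = fun y => on (cq φ Q') X (e y) := fun X => rfl
  have hip : ∀ X Y : ↥(cq φ Q') → KW p k, ip (fun y => X (e y)) (fun y => Y (e y)) = ip X Y :=
    fun X Y => ip_me e X Y
  constructor
  · intro hG c' hc' X' hX' Y' hY'
    have hex : ∀ X' : ↥(cq φ' Q') → KW p k, ∃ X : ↥(cq φ Q') → KW p k, X' = fun y => X (e y) :=
      fun X' => ⟨fun x => X' (e.symm x), by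
        funext y
        exact congrArg X' (e.symm_apply_apply y).symm⟩
    obtain ⟨X, rfl⟩ := hex X'
    obtain ⟨Y, rfl⟩ := hex Y'
    rw [hu' c' hc', ← hdd] at hX' hY'
    obtain ⟨m, a, a', h1, h2, h3, h4⟩ := hG c0 hc0 _ ((VA_me e).1 hX') _ ((VA_me e).1 hY')
    refine ⟨m, a, a', ?_, ?_, ?_, h4⟩
    · rw [rg_me, hip, heQ]
      exact h1
    · rw [hon, hip]
      exact h2
    · rw [hon, hip]
      exact h3
  · intro hG c hc X hX Y hY
    rw [hu c hc] at hX hY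
    obtain ⟨m, a, a', h1, h2, h3, h4⟩ := hG _ hc0' (fun y => X (e y))
      (by rw [← hdd]; exact (VA_me e).2 hX) (fun y => Y (e y))
      (by rw [← hdd]; exact (VA_me e).2 hY)
    refine ⟨m, a, a', ?_, ?_, ?_, h4⟩
    · rw [rg_me, hip, heQ] at h1
      exact h1
    · rw [hon, hip] at h2
      exact h2
    · rw [hon, hip] at h3
      exact h3

/-- the automorphisms at the centralizer -/
theorem EG_down (h : Src p b D f i) (hφ : Function.Injective φ)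
    (hr : ∀ x, x ∈ D ↔ ∃ t, φ t = x)
    {φ' : T →* ↥(cq φ Q)} (hφ' : ∀ t, (φ' t : A) = φ t) :
    EG φ' (D.subgroupOf (cq φ Q)) (dnr (cq φ Q) f) = Fx (EG φ D f) Q := by
  ext α
  constructor
  · intro hα
    refine ⟨mem_EG_sub hφ' (D_le_cq h hr Q) (supp_f h hr Q) hα, fun t ht => ?_⟩
    obtain ⟨g, -, hg⟩ := hα
    apply hφ
    have h1 := congrArg Subtype.val (hg t)
    have h2 : φ t * (g : A) = (g : A) * φ t :=
      Subgroup.mem_centralizer_iff.1 g.2 (φ t) ⟨t, ht, rfl⟩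
    change (φ' (α t) : A) = (g : A) * (φ' t : A) * (g : A)⁻¹ at h1
    rw [hφ', hφ', ← h2, mul_inv_cancel_right] at h1
    exact h1
  · rintro ⟨h1, h2⟩
    exact mem_EG_down hφ' h1 h2

/-- **transport**: the input of the step for the group `C(φ Q)` -/
theorem stp_downq (q : ℕ) (h : Src p b D f i) (hφ : Function.Injective φ)
    (hr : ∀ x, x ∈ D ↔ ∃ t, φ t = x) (hG : ∀ Q', Q < Q' → GOK φ D f i G Q')
    (hC : ∀ Q', Q < Q' → Cq q φ D f i G Q')
    (he : EqG φ D f G fun Q' => Q < Q') :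
    ∃ (c : MonoidAlgebra k A) (φ' : T →* ↥(cq φ Q)),
      LbH (cq φ Q) i c ∧ (∀ t, (φ' t : A) = φ t) ∧
      Stp φ' (dnr (cq φ Q) c) (D.subgroupOf (cq φ Q)) (dnr (cq φ Q) f) (dnr (cq φ Q) i) Q
        (fun Q' y => G Q' (y : A)) ∧
      EG φ' (D.subgroupOf (cq φ Q)) (dnr (cq φ Q) f) = Fx (EG φ D f) Q ∧
      eN (D.subgroupOf (cq φ Q)) (dnr (cq φ Q) f) = Nat.card (Fx (EG φ D f) Q) ∧
      (∀ Q', Q < Q' → Cq q φ' (D.subgroupOf (cq φ Q)) (dnr (cq φ Q) f) (dnr (cq φ Q) i)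
        (fun Q' (y : ↥(cq φ Q)) => G Q' (y : A)) Q') ∧
      (∀ g : A → KW p k, (∀ x, x ∉ cq φ Q → g x = 0) →
        (GOK φ D f i (upd G Q g) Q ∧ Cq q φ D f i (upd G Q g) Q ↔
          GOK φ' (D.subgroupOf (cq φ Q)) (dnr (cq φ Q) f) (dnr (cq φ Q) i)
            (upd (fun Q' (y : ↥(cq φ Q)) => G Q' (y : A)) Q (fun y => g (y : A))) Q ∧
          Cq q φ' (D.subgroupOf (cq φ Q)) (dnr (cq φ Q) f) (dnr (cq φ Q) i)
            (upd (fun Q' (y : ↥(cq φ Q)) => G Q' (y : A)) Q (fun y => g (y : A))) Q)) := by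
  classical
  obtain ⟨c, hc⟩ := exists_lb h (map_le_D hr Q)
  have hc : LbH (cq φ Q) i c := hc.toH rfl
  have hmem : ∀ t, φ t ∈ cq φ Q := fun t => D_le_cq h hr Q ((hr _).2 ⟨t, rfl⟩)
  let φ' : T →* ↥(cq φ Q) := φ.codRestrict (cq φ Q) hmem
  have hφ' : ∀ t, (φ' t : A) = φ t := fun t => rfl
  have hsrc := src_sub h hr hc
  have hinj : Function.Injective φ' := fun s t hst => hφ (congrArg Subtype.val hst)
  have hran := ran_sub hφ' hr
  have hEG := EG_down h hφ hr hφ'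
  refine ⟨c, φ', hc, hφ', ⟨hsrc, hinj, hran, ?_, ?_, ?_⟩, hEG, ?_, ?_, ?_⟩
  · intro z hz a
    apply Subtype.ext
    exact Subgroup.mem_centralizer_iff.1 a.2 (φ z) ⟨z, hz, rfl⟩
  · intro Q' hQ'
    exact (gok_sub h hr hφ' hQ'.le fun Q'' hQ'' => (hG Q'' (hQ'.trans_le hQ'')).sup).1 (hG Q' hQ')
  · intro g hg α hα Q' hQ' y
    refine he (g : A) (LocAux.st_up (D_le_cq h hr Q) (supp_f h hr Q) hg) α (fun t => ?_) Q' hQ' (y : A)
    exact congrArg Subtype.val (hα t)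
  · rw [← card_EG hinj hran, hEG]
  · intro Q' hQ'
    exact (cq_down q h hr hφ' hQ'.le G).1 (hC Q' hQ')
  · intro g hg
    have h1 : upd (fun Q' (y : ↥(cq φ Q)) => G Q' (y : A)) Q (fun y : ↥(cq φ Q) => g (y : A))
        = fun Q'' (y : ↥(cq φ Q)) => upd G Q g Q'' (y : A) := by
      funext Q'' y
      by_cases hQ'' : Q'' = Q
      · rw [hQ'', upd_self, upd_self]
      · rw [upd_ne _ _ hQ'', upd_ne _ _ hQ'']
    rw [h1]
    refine and_congr (gok_sub h hr hφ' le_rfl fun Q'' hQ'' => ?_) (cq_down q h hr hφ' le_rfl _)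
    by_cases h2 : Q'' = Q
    · rw [h2, upd_self]
      exact hg
    · rw [upd_ne _ _ h2]
      exact (hG Q'' (lt_of_le_of_ne hQ'' (Ne.symm h2))).sup

end

end Pool.Agent.Lib.P0c8ca5.Ex
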