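import Mathlib
import Pool.Agent.Lib.P0c8ca5Ex.ZCb
import Pool.Agent.Lib.P0c8ca5Ex.ZD
import Pool.Agent.Lib.P0c8ca5Ex.ZE
import Pool.Agent.Lib.P0c8ca5Ex.ZH
import Pool.Agent.Lib.P0c8ca5Ex.ZIa
import Pool.Agent.Lib.P0c8ca5Ex.ZU
import Pool.Agent.Lib.P0c8ca5Ex.YX

/-!
# ZJ: the step and the induction with the congruences modulo `q` (K2)

As YX with `OK G Q = GOK φ D f i G Q ∧ Cq q φ D f i G Q` and `P Q = (Q ≠ ⊥)`: if `BigX (KW p k) p q (EG φ D f) Q` for all `Q ≠ ⊥, ⊤` then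
there is an equivariant family `G` with `GOK` at all `Q ≠ ⊥`.
-/

set_option linter.unusedSectionVars false

namespace Pool.Agent.Lib.P0c8ca5.Ex

open MonoidAlgebra

section
variable {T : Type*} [CommGroup T] [Fintype T]

/-- the numerical conditions for the step at `Q` with the modulus `q` -/
structure BigX (K : Type*) [Field K] (p q : ℕ) (E : Subgroup (MulAut T)) (Q : Subgroup T) :
    Prop where
  many : Many K (Fx E Q) Q ∨ Thin K (Fx E Q) Q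
  sq : (Nat.card (Fx E Q)) ^ 2 < q * (p - 1)
  dvd : Nat.card (Fx E Q) = 1 ∨ q * Nat.card Q ∣ Fintype.card T

theorem Big.toX {K : Type*} [Field K] {p q : ℕ} {E : Subgroup (MulAut T)} {Q : Subgroup T}
    (h : Big K p q E Q) : BigX K p q E Q := ⟨Or.inl h.many, h.sq, h.dvd⟩

end

section
variable {p : ℕ} [Fact p.Prime] {k : Type*} [Field k] [IsAlgClosed k] [CharP k p]
  {A : Type*} [Group A] [Finite A] {T : Type*} [CommGroup T] [Fintype T]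
  {φ : T →* A} {b f i : MonoidAlgebra k A} {D : Subgroup A} {R Q : Subgroup T}
  {G : Subgroup T → A → KW p k}

theorem stepq {q : ℕ} (hp2 : p ≠ 2) (hpq : p ∣ q) (h : Stp φ b D f i R G)
    (hC : ∀ Q, R < Q → Cq q φ D f i G Q) (hpE : ¬ p ∣ eN D f) (hRT : R ≠ ⊤)
    (hsq : eN D f ^ 2 < q * (p - 1)) (hdvd : eN D f = 1 ∨ q * Nat.card R ∣ Fintype.card T)
    (hex : ∀ B : MonoidAlgebra (OW p k) A, CenL b B →
      ∃ ψ : IR φ R B → T → KW p k, Rows φ D f R G B ψ)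
    (hun : ∀ Γ Γ' : A → KW p k, GR φ b D f R G Γ → GR φ b D f R G Γ' → Γ = Γ') :
    ∃! g : A → KW p k, GOK φ D f i (upd G R g) R ∧ Cq q φ D f i (upd G R g) R := by
  have := Fintype.ofFinite A
  have hb := h.src.root.blk
  obtain ⟨B, hB⟩ := exists_cenL (p := p) hb.idem
    (fun g => invBy_iff_cj.1 hb.invBy g (Subgroup.mem_top g))
  obtain ⟨ψ, hψ⟩ := hex B hB
  have H : Inp φ b D f i R G B ψ :=
    ⟨h, hB, hψ, fun BB hBB u hu s hs hsp =>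
      van_colsq hpq h hC hpE hsq hB hBB hψ hu hs hsp⟩
  have hGR : GR φ b D f R G (Gm ψ) :=
    { blk := gm_mem H
      reg := fun x hx => by rw [Gm, rg_not hx, mul_zero]
      nrm := gm_nrm H
      row := fun X hX => gm_row H hX
      cong := fun X hX Y hY => gm_cong H hRT hX hY }
  have hG := (gr_iff h (Gm ψ)).2 hGR
  have hq0 : q ≠ 0 := by
    rintro rfl
    rw [zero_mul] at hsq
    exact absurd hsq (Nat.not_lt_zero _)
  refine ⟨Gm ψ, ⟨hG, ?_⟩, fun g hg => hun g _ ((gr_iff h g).1 hg.1) hGR⟩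
  rcases hdvd with h1 | h1
  · refine cq_one hp2 h.src h.inj h.ran hG ?_ q
    rw [eQ_cen h.cen h.inj, card_EG h.inj h.ran, h1]
  · exact (cq_iff h q _).2 fun X hX Y hY => gm_congq hq0 hpq H hC h1 hX hY

end

namespace ZJAux

section
variable {p : ℕ} [Fact p.Prime] {k : Type*} [Field k] [IsAlgClosed k] [CharP k p]
  {A : Type*} [Group A] [Finite A] {T : Type*} [CommGroup T] [Fintype T]
  {φ : T →* A} {b f i : MonoidAlgebra k A} {D : Subgroup A} {R Q : Subgroup T}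
  {G : Subgroup T → A → KW p k}

theorem cq_conj (q : ℕ) (h : Src p b D f i)
    (hr : ∀ x, x ∈ D ↔ ∃ t, φ t = x) {g : A} (hg : g ∈ St D f) {α : MulAut T}
    (hα : ∀ t, φ (α t) = g * φ t * g⁻¹) (hG : Cq q φ D f i G (Q.map α.toMonoidHom)) :
    Cq q φ D f i (fun Q' y => G (Q'.map α.toMonoidHom) (g * y * g⁻¹)) Q := by
  have hm := mem_cq_conj hα Q
  let e := cje g hm
  have hVA : ∀ {c : MonoidAlgebra k A} {X : ↥(cq φ (Q.map α.toMonoidHom)) → KW p k},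
      (fun y => X (e y)) ∈ VA (p := p) (dnr (cq φ Q) c) ↔
        X ∈ VA (p := p) (dnr (cq φ (Q.map α.toMonoidHom)) (cj g c)) := by
    intro c X
    rw [← dnr_conj hm c]
    exact VA_me e
  intro c hc X hX Y hY
  have hinv : ∀ Z : ↥(cq φ Q) → KW p k, (fun y => (fun z => Z (e.symm z)) (e y)) = Z := by
    intro Z
    funext y
    change Z (e.symm (e y)) = Z y
    rw [e.symm_apply_apply]
  have hX' : (fun z => X (e.symm z)) ∈
      VA (p := p) (dnr (cq φ (Q.map α.toMonoidHom)) (cj g c)) := by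
    rw [← hVA, hinv]
    exact hX
  have hY' : (fun z => Y (e.symm z)) ∈
      VA (p := p) (dnr (cq φ (Q.map α.toMonoidHom)) (cj g c)) := by
    rw [← hVA, hinv]
    exact hY
  obtain ⟨m, a, a', h1, h2, h3, h4⟩ := hG _ (lbH_conj h hr hg hα hc) _ hX' _ hY'
  refine ⟨m, a, a', ?_, ?_, ?_, h4⟩
  · rw [← h1, eQ_conj hg hα, ← ip_me e (rg p fun z => X (e.symm z)), ← rg_me e, hinv, hinv]
  · rw [← h2, ← ip_me e (fun z => X (e.symm z)), hinv]
    rfl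
  · rw [← h3, ← ip_me e (fun z => Y (e.symm z)), hinv]
    rfl

end

end ZJAux

section
variable {p : ℕ} [Fact p.Prime] {k : Type*} [Field k] [IsAlgClosed k] [CharP k p]
  {A : Type*} [Group A] [Finite A] {T : Type*} [CommGroup T] [Fintype T]
  {φ : T →* A} {b f i : MonoidAlgebra k A} {D : Subgroup A} {R Q : Subgroup T}
  {G : Subgroup T → A → KW p k}

open ZJAux

/-- the uniqueness of `Γ` in both cases -/
theorem gr_uniqueX (h : Stp φ b D f i R G) (hE : ¬ p ∣ eN D f)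
    (hM : Many (KW p k) (EG φ D f) R ∨ Thin (KW p k) (EG φ D f) R) {Γ Γ' : A → KW p k}
    (hΓ : GR φ b D f R G Γ) (hΓ' : GR φ b D f R G Γ') : Γ = Γ' := by
  have hE' : ¬ p ∣ Nat.card (EG φ D f) := by
    rw [card_EG h.inj h.ran]
    exact hE
  refine gr_unique_of h hE' (fun B ψ ψ' h1 h2 h3 h4 h5 h6 h7 => ?_) hΓ hΓ'
  exact ext_uniqX Fact.out (isP_stp h) hE' (fun α hα z hz => YFAux.al_fix h hα hz) hM h1 h2 h3 h4
    h5 h6 h7

/-- **the value at `Q`** -/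
theorem unique_atq {q : ℕ} (hp2 : p ≠ 2) (hpq : p ∣ q) (h : Src p b D f i)
    (hφ : Function.Injective φ) (hr : ∀ x, x ∈ D ↔ ∃ t, φ t = x) (hpE : ¬ p ∣ eN D f)
    (hQ : Q ≠ ⊤) (hbig : BigX (KW p k) p q (EG φ D f) Q)
    (hG : ∀ Q', Q < Q' → GOK φ D f i G Q' ∧ Cq q φ D f i G Q')
    (he : EqG φ D f G fun Q' => Q < Q') :
    ∃! g : A → KW p k, GOK φ D f i (upd G Q g) Q ∧ Cq q φ D f i (upd G Q g) Q := by
  classical
  obtain ⟨c, φ', hc, hφ', hS, hEG, hcE, hCq, hiff⟩ := stp_downq q h hφ hr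
    (fun Q' hQ' => (hG Q' hQ').1) (fun Q' hQ' => (hG Q' hQ').2) he
  have hpE' : ¬ p ∣ eN (D.subgroupOf (cq φ Q)) (dnr (cq φ Q) f) := by
    intro h1
    apply hpE
    have h2 : Fx (EG φ D f) Q ≤ EG φ D f := fun α hα => hα.1
    rw [hcE] at h1
    rw [← card_EG hφ hr]
    exact h1.trans (Subgroup.card_dvd_of_le h2)
  obtain ⟨g, hg, hu⟩ := stepq hp2 hpq hS hCq hpE' hQ
    (by rw [hcE]; exact hbig.sq) (by rw [hcE]; exact hbig.dvd)
    (fun B hB => exists_rowsX hp2 hS hpE' (by rw [hEG]; exact hbig.many) hB)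
    (fun Γ Γ' hΓ hΓ' => gr_uniqueX hS hpE' (by rw [hEG]; exact hbig.many) hΓ hΓ')
  set g₁ : A → KW p k := fun x => if hx : x ∈ cq φ Q then g ⟨x, hx⟩ else 0 with hg₁
  have h0 : ∀ x, x ∉ cq φ Q → g₁ x = 0 := fun x hx => dif_neg hx
  have h1 : (fun y : ↥(cq φ Q) => g₁ (y : A)) = g := by
    funext y
    exact dif_pos y.2
  refine ⟨g₁, (hiff g₁ h0).2 (by rw [h1]; exact hg), fun g₂ hg₂ => ?_⟩
  have h2 : ∀ x, x ∉ cq φ Q → g₂ x = 0 := fun x hx => by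
    have h3 := hg₂.1.sup x hx
    rwa [upd_self] at h3
  have h3 := hu _ ((hiff g₂ h2).1 hg₂)
  funext x
  by_cases hx : x ∈ cq φ Q
  · have h4 := congrFun (h3.trans h1.symm) ⟨x, hx⟩
    exact h4
  · rw [h0 x hx, h2 x hx]

/-- `E` acts faithfully on `T` -/
theorem eQ_top : eQ φ D f ⊤ = 1 := by
  rw [eQ, Nat.card_eq_one_iff_unique]
  refine ⟨⟨fun a b => ?_⟩, ⟨⟨1, fun _ _ => rfl⟩⟩⟩
  have key : ∀ a : {α : ↥(EG φ D f) // ∀ t ∈ (⊤ : Subgroup T), (α : MulAut T) t = t},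
      ((a : ↥(EG φ D f)) : MulAut T) = 1 := by
    intro a
    ext t
    exact a.2 t (Subgroup.mem_top t)
  exact Subtype.ext (Subtype.ext ((key a).trans (key b).symm))

theorem ind_gokq {q : ℕ} (hp2 : p ≠ 2) (hpq : p ∣ q) (h : Src p b D f i)
    (hφ : Function.Injective φ) (hr : ∀ x, x ∈ D ↔ ∃ t, φ t = x) (hpE : ¬ p ∣ eN D f)
    (hbig : ∀ Q : Subgroup T, Q ≠ ⊥ → Q ≠ ⊤ → BigX (KW p k) p q (EG φ D f) Q) :
    Ind φ D f (fun G Q => GOK φ D f i G Q ∧ Cq q φ D f i G Q) fun Q => Q ≠ ⊥ where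
  up Q Q' hQ h1 h2 := h1 (le_bot_iff.1 (h2 ▸ hQ))
  inv Q α := not_congr (by
    rw [Subgroup.map_eq_bot_iff_of_injective Q (f := α.toMonoidHom) α.injective])
  congr _ _ _ hG hQ := ⟨gok_congr hG hQ.1, cq_congr (hG _ le_rfl) hQ.2⟩
  conj _ hs _ hα _ _ hQ := ⟨gok_conj h hφ hr hs hα hQ.1, cq_conj q h hr hs hα hQ.2⟩
  base := by
    obtain ⟨g, hg, hg'⟩ := base hp2 h hφ hr
    exact ⟨g, fun G hG => ⟨hg G hG, cq_one hp2 h hφ hr (hg G hG) eQ_top q⟩, hg'⟩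
  step Q _ hQ hP hG he := unique_atq hp2 hpq h hφ hr hpE hQ (hbig Q hP hQ) hG he

/-- **the family at all `Q ≠ ⊥`** -/
theorem exists_gfamq {q : ℕ} (hp2 : p ≠ 2) (hpq : p ∣ q) (h : Src p b D f i)
    (hφ : Function.Injective φ) (hr : ∀ x, x ∈ D ↔ ∃ t, φ t = x) (hpE : ¬ p ∣ eN D f)
    (hbig : ∀ Q : Subgroup T, Q ≠ ⊥ → Q ≠ ⊤ → BigX (KW p k) p q (EG φ D f) Q) :
    ∃ G : Subgroup T → A → KW p k, (∀ Q, Q ≠ ⊥ → GOK φ D f i G Q) ∧
      EqG φ D f G fun Q => Q ≠ ⊥ := by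
  obtain ⟨G, hG, he⟩ := (ind_gokq hp2 hpq h hφ hr hpE hbig).exists_fam
  exact ⟨G, fun Q hQ => (hG Q hQ).1, he⟩

/-- **the rows at `⊥`** -/
theorem exists_rows_bot {q : ℕ} (hp2 : p ≠ 2) (hpq : p ∣ q) (h : Src p b D f i)
    (hφ : Function.Injective φ) (hr : ∀ x, x ∈ D ↔ ∃ t, φ t = x) (hpE : ¬ p ∣ eN D f)
    (hbig : ∀ Q : Subgroup T, Q ≠ ⊥ → Q ≠ ⊤ → BigX (KW p k) p q (EG φ D f) Q)
    (hM : Many (KW p k) (EG φ D f) ⊥ ∨ Thin (KW p k) (EG φ D f) ⊥)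
    {B : MonoidAlgebra (OW p k) A} (hB : CenL b B) :
    ∃ (G : Subgroup T → A → KW p k) (ψ : IR φ ⊥ B → T → KW p k),
      Stp φ b D f i ⊥ G ∧ Rows φ D f ⊥ G B ψ := by
  obtain ⟨G, hG, he⟩ := exists_gfamq hp2 hpq h hφ hr hpE hbig
  have hS : Stp φ b D f i ⊥ G :=
    { src := h
      inj := hφ
      ran := hr
      cen := fun z hz a => by rw [Subgroup.mem_bot.1 hz, map_one, one_mul, mul_one]
      ok := fun Q hQ => hG Q (ne_of_gt hQ)
      eqv := fun s hs α hα Q hQ y => he s hs α hα Q (ne_of_gt hQ) y }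
  obtain ⟨ψ, hψ⟩ := exists_rowsX hp2 hS hpE hM hB
  exact ⟨G, ψ, hS, hψ⟩

end

end Pool.Agent.Lib.P0c8ca5.Ex
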