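import Mathlib
import Pool.Agent.Lib.P0c8ca5Ex.ZJ
import Pool.Agent.Lib.P0c8ca5Ex.W1c

/-!
# W1d: the step and the induction with `Many`, `Thin` or `Deg`

As ZJ, with a third alternative: `BigY` is `BigX` with `Many ∨ Thin ∨ Deg` in place of `Many ∨ Thin`. `exists_rows_botY`: the rows at
`⊥` if `BigY` holds for all `Q ≠ ⊥, ⊤` and `Many ∨ Thin ∨ Deg` at `⊥`.
-/

set_option linter.unusedSectionVars false

namespace Pool.Agent.Lib.P0c8ca5.Ex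

open MonoidAlgebra

section
variable {T : Type*} [CommGroup T] [Fintype T]

/-- the three cases in which the rows extend -/
def MTD (K : Type*) [Field K] (E : Subgroup (MulAut T)) (R : Subgroup T) : Prop :=
  Many K E R ∨ Thin K E R ∨ Deg K E R

/-- the numerical conditions for the step at `Q` with the modulus `q` -/
structure BigY (K : Type*) [Field K] (p q : ℕ) (E : Subgroup (MulAut T)) (Q : Subgroup T) :
    Prop where
  many : MTD K (Fx E Q) Q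
  sq : (Nat.card (Fx E Q)) ^ 2 < q * (p - 1)
  dvd : Nat.card (Fx E Q) = 1 ∨ q * Nat.card Q ∣ Fintype.card T

theorem BigX.toY {K : Type*} [Field K] {p q : ℕ} {E : Subgroup (MulAut T)} {Q : Subgroup T}
    (h : BigX K p q E Q) : BigY K p q E Q := ⟨h.many.imp_right Or.inl, h.sq, h.dvd⟩

theorem MTD.of_or {K : Type*} [Field K] {E : Subgroup (MulAut T)} {R : Subgroup T}
    (h : Many K E R ∨ Thin K E R) : MTD K E R := h.imp_right Or.inl

theorem MTD.of_deg {K : Type*} [Field K] {E : Subgroup (MulAut T)} {R : Subgroup T}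
    (h : Deg K E R) : MTD K E R := Or.inr (Or.inr h)

end

section
variable {p : ℕ} [Fact p.Prime] {k : Type*} [Field k] [IsAlgClosed k] [CharP k p]
  {A : Type*} [Group A] [Finite A] {T : Type*} [CommGroup T] [Fintype T]
  {φ : T →* A} {b f i : MonoidAlgebra k A} {D : Subgroup A} {R Q : Subgroup T}
  {G : Subgroup T → A → KW p k}

/-- the uniqueness of `Γ` in the three cases -/
theorem gr_uniqueY (h : Stp φ b D f i R G) (hE : ¬ p ∣ eN D f)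
    (hM : MTD (KW p k) (EG φ D f) R) {Γ Γ' : A → KW p k}
    (hΓ : GR φ b D f R G Γ) (hΓ' : GR φ b D f R G Γ') : Γ = Γ' := by
  rcases hM with h1 | h1 | h1
  · exact gr_uniqueX h hE (Or.inl h1) hΓ hΓ'
  · exact gr_uniqueX h hE (Or.inr h1) hΓ hΓ'
  · have hE' : ¬ p ∣ Nat.card (EG φ D f) := by
      rw [card_EG h.inj h.ran]
      exact hE
    refine gr_unique_of h hE' (fun B ψ ψ' g1 g2 g3 g4 g5 g6 g7 => ?_) hΓ hΓ'
    exact ext_uniqD Fact.out (isP_stp h) hE' (fun α hα z hz => YFAux.al_fix h hα hz) h1 g1 g2 g3 g4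
      g5 g6 g7

/-- **the value at `Q`** -/
theorem unique_atY {q : ℕ} (hp2 : p ≠ 2) (hpq : p ∣ q) (h : Src p b D f i)
    (hφ : Function.Injective φ) (hr : ∀ x, x ∈ D ↔ ∃ t, φ t = x) (hpE : ¬ p ∣ eN D f)
    (hQ : Q ≠ ⊤) (hbig : BigY (KW p k) p q (EG φ D f) Q)
    (hG : ∀ Q', Q < Q' → GOK φ D f i G Q' ∧ Cq q φ D f i G Q')
    (he : EqG φ D f G fun Q' => Q < Q') :
    ∃! g : A → KW p k, GOK φ D f i (upd G Q g) Q ∧ Cq q φ D f i (upd G Q g) Q := by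
  classical
  obtain ⟨c, φ', hc, hφ', hS, hEG, hcE, hCq, hiff⟩ := stp_downq q h hφ hr
    (fun Q' hQ' => (hG Q' hQ').1) (fun Q' hQ' => (hG Q' hQ').2) he
  have hpE' : ¬ p ∣ eN (D.subgroupOf (cq φ Q)) (dnr (cq φ Q) f) := by
    intro h1
    apply hpE
    have h2 : Fx (EG φ D f) Q ≤ EG φ D f := fun α hα => hα.1
    rw [hcE] at h1
    rw [← card_EG hφ hr]
    exact h1.trans (Subgroup.card_dvd_of_le h2)
  obtain ⟨g, hg, hu⟩ := stepq hp2 hpq hS hCq hpE' hQ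
    (by rw [hcE]; exact hbig.sq) (by rw [hcE]; exact hbig.dvd)
    (fun B hB => exists_rowsY hp2 hS hpE' (by rw [hEG]; exact hbig.many) hB)
    (fun Γ Γ' hΓ hΓ' => gr_uniqueY hS hpE' (by rw [hEG]; exact hbig.many) hΓ hΓ')
  set g₁ : A → KW p k := fun x => if hx : x ∈ cq φ Q then g ⟨x, hx⟩ else 0 with hg₁
  have h0 : ∀ x, x ∉ cq φ Q → g₁ x = 0 := fun x hx => dif_neg hx
  have h1 : (fun y : ↥(cq φ Q) => g₁ (y : A)) = g := by
    funext y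
    exact dif_pos y.2
  refine ⟨g₁, (hiff g₁ h0).2 (by rw [h1]; exact hg), fun g₂ hg₂ => ?_⟩
  have h2 : ∀ x, x ∉ cq φ Q → g₂ x = 0 := fun x hx => by
    have h3 := hg₂.1.sup x hx
    rwa [upd_self] at h3
  have h3 := hu _ ((hiff g₂ h2).1 hg₂)
  funext x
  by_cases hx : x ∈ cq φ Q
  · have h4 := congrFun (h3.trans h1.symm) ⟨x, hx⟩
    exact h4
  · rw [h0 x hx, h2 x hx]

theorem ind_gokY {q : ℕ} (hp2 : p ≠ 2) (hpq : p ∣ q) (h : Src p b D f i)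
    (hφ : Function.Injective φ) (hr : ∀ x, x ∈ D ↔ ∃ t, φ t = x) (hpE : ¬ p ∣ eN D f)
    (hbig : ∀ Q : Subgroup T, Q ≠ ⊥ → Q ≠ ⊤ → BigY (KW p k) p q (EG φ D f) Q) :
    Ind φ D f (fun G Q => GOK φ D f i G Q ∧ Cq q φ D f i G Q) fun Q => Q ≠ ⊥ where
  up Q Q' hQ h1 h2 := h1 (le_bot_iff.1 (h2 ▸ hQ))
  inv Q α := not_congr (by
    rw [Subgroup.map_eq_bot_iff_of_injective Q (f := α.toMonoidHom) α.injective])
  congr _ _ _ hG hQ := ⟨gok_congr hG hQ.1, cq_congr (hG _ le_rfl) hQ.2⟩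
  conj _ hs _ hα _ _ hQ := ⟨gok_conj h hφ hr hs hα hQ.1, ZJAux.cq_conj q h hr hs hα hQ.2⟩
  base := by
    obtain ⟨g, hg, hg'⟩ := base hp2 h hφ hr
    exact ⟨g, fun G hG => ⟨hg G hG, cq_one hp2 h hφ hr (hg G hG) eQ_top q⟩, hg'⟩
  step Q _ hQ hP hG he := unique_atY hp2 hpq h hφ hr hpE hQ (hbig Q hP hQ) hG he

/-- **the family at all `Q ≠ ⊥`** -/
theorem exists_gfamY {q : ℕ} (hp2 : p ≠ 2) (hpq : p ∣ q) (h : Src p b D f i)
    (hφ : Function.Injective φ) (hr : ∀ x, x ∈ D ↔ ∃ t, φ t = x) (hpE : ¬ p ∣ eN D f)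
    (hbig : ∀ Q : Subgroup T, Q ≠ ⊥ → Q ≠ ⊤ → BigY (KW p k) p q (EG φ D f) Q) :
    ∃ G : Subgroup T → A → KW p k, (∀ Q, Q ≠ ⊥ → GOK φ D f i G Q) ∧
      EqG φ D f G fun Q => Q ≠ ⊥ := by
  obtain ⟨G, hG, he⟩ := (ind_gokY hp2 hpq h hφ hr hpE hbig).exists_fam
  exact ⟨G, fun Q hQ => (hG Q hQ).1, he⟩

/-- **the rows at `⊥`** -/
theorem exists_rows_botY {q : ℕ} (hp2 : p ≠ 2) (hpq : p ∣ q) (h : Src p b D f i)
    (hφ : Function.Injective φ) (hr : ∀ x, x ∈ D ↔ ∃ t, φ t = x) (hpE : ¬ p ∣ eN D f)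
    (hbig : ∀ Q : Subgroup T, Q ≠ ⊥ → Q ≠ ⊤ → BigY (KW p k) p q (EG φ D f) Q)
    (hM : MTD (KW p k) (EG φ D f) ⊥)
    {B : MonoidAlgebra (OW p k) A} (hB : CenL b B) :
    ∃ (G : Subgroup T → A → KW p k) (ψ : IR φ ⊥ B → T → KW p k),
      Stp φ b D f i ⊥ G ∧ Rows φ D f ⊥ G B ψ := by
  obtain ⟨G, hG, he⟩ := exists_gfamY hp2 hpq h hφ hr hpE hbig
  have hS : Stp φ b D f i ⊥ G :=
    { src := h
      inj := hφ
      ran := hr
      cen := fun z hz a => by rw [Subgroup.mem_bot.1 hz, map_one, one_mul, mul_one]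
      ok := fun Q hQ => hG Q (ne_of_gt hQ)
      eqv := fun s hs α hα Q hQ y => he s hs α hα Q (ne_of_gt hQ) y }
  obtain ⟨ψ, hψ⟩ := exists_rowsY hp2 hS hpE hM hB
  exact ⟨G, ψ, hS, hψ⟩

end

end Pool.Agent.Lib.P0c8ca5.Ex
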