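import Mathlib
import Pool.Agent.Lib.P0c8ca5Ex.ZB
import Pool.Agent.Lib.P0c8ca5Ku.KG

/-!
# ZKr: rank 2 (K2), the actions of `p'`-groups on abelian `p`-groups of rank at most `2`
-/

set_option linter.unusedSectionVars false

namespace Pool.Agent.Lib.P0c8ca5.Ex.ZKr

open Finset

section
variable {C : Type*} [CommGroup C] [Fintype C] {p : ℕ}

theorem pow_E {E : Subgroup (MulAut C)} {φ : MulAut C} (hφ : φ ∈ E) : φ ^ Nat.card E = 1 := by
  have h1 : (⟨φ, hφ⟩ : E) ^ Nat.card E = 1 := pow_card_eq_one'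
  exact congrArg Subtype.val h1

/-- a fixed commutator is trivial -/
theorem fixc (hp : p.Prime) (hC : IsPGroup p C) {E : Subgroup (MulAut C)}
    (hE : ¬ p ∣ Nat.card E) {φ : MulAut C} (hφ : φ ∈ E) {x : C}
    (h : φ (x⁻¹ * φ x) = x⁻¹ * φ x) : φ x = x :=
  (inv_mul_eq_one.1 (Ku.fix_cm hp hC (pow_E hφ) hE ⟨x, rfl⟩ h)).symm

theorem faith (hp : p.Prime) (hC : IsPGroup p C) {E : Subgroup (MulAut C)}
    (hE : ¬ p ∣ Nat.card E) {φ : MulAut C} (hφ : φ ∈ E) (h : ∀ x : C, x ^ p = 1 → φ x = x) :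
    φ = 1 := Ku.faithful hp hC (pow_E hφ) hE h

theorem card_zp (hp : p.Prime) {x : C} (hx : x ≠ 1) (hxp : x ^ p = 1) :
    Nat.card (Subgroup.zpowers x) = p := by
  have := Fact.mk hp
  rw [Nat.card_zpowers]
  exact orderOf_eq_prime hxp hx

/-- two elements generate the elements of order `p` -/
theorem span (hp : p.Prime) (hC : IsPGroup p C) (h2 : Nat.card {x : C // x ^ p = 1} ≤ p ^ 2)
    {x y : C} (hx : x ≠ 1) (hxp : x ^ p = 1) (hyp : y ^ p = 1) (hy : y ∉ Subgroup.zpowers x)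
    {w : C} (hw : w ^ p = 1) : ∃ i j : ℤ, w = y ^ i * x ^ j := by
  have := Fact.mk hp
  set W : Subgroup C := (powMonoidHom p : C →* C).ker with hW
  have hmW : ∀ z : C, z ∈ W ↔ z ^ p = 1 := fun z => by
    rw [hW, MonoidHom.mem_ker, powMonoidHom_apply]
  have hWc : Nat.card W ≤ p ^ 2 := by
    refine le_trans (le_of_eq (Nat.card_congr (Equiv.subtypeEquivRight fun z => hmW z))) h2
  set H : Subgroup C := Subgroup.zpowers y ⊔ Subgroup.zpowers x with hH
  have hle : H ≤ W := by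
    rw [hH, sup_le_iff, Subgroup.zpowers_le, Subgroup.zpowers_le]
    exact ⟨(hmW y).2 hyp, (hmW x).2 hxp⟩
  have hlt : Subgroup.zpowers x < H := by
    refine lt_of_le_of_ne le_sup_right fun h => hy ?_
    rw [h]
    exact (le_sup_left : Subgroup.zpowers y ≤ H) (Subgroup.mem_zpowers y)
  have hcH : p ^ 2 ≤ Nat.card H := by
    obtain ⟨n, hn⟩ := IsPGroup.iff_card.1 (hC.to_subgroup H)
    have h3 : Nat.card (Subgroup.zpowers x) < Nat.card H := by
      refine lt_of_le_of_ne (Subgroup.card_le_of_le hlt.le) fun h => ?_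
      exact hlt.ne (Subgroup.eq_of_le_of_card_ge hlt.le h.symm.le)
    rw [card_zp hp hx hxp, hn] at h3
    rw [hn]
    refine Nat.pow_le_pow_right hp.pos ?_
    by_contra h4
    have h5 : n = 0 ∨ n = 1 := by omega
    rcases h5 with rfl | rfl
    · rw [pow_zero] at h3
      exact absurd h3 (not_lt.2 hp.one_lt.le)
    · rw [pow_one] at h3
      exact lt_irrefl _ h3
  have hHW : H = W := Subgroup.eq_of_le_of_card_ge hle (hWc.trans hcH)
  have hwH : w ∈ H := by
    rw [hHW]
    exact (hmW w).2 hw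
  obtain ⟨a, ha, b, hb, hab⟩ := Subgroup.mem_sup.1 hwH
  obtain ⟨i, rfl⟩ := Subgroup.mem_zpowers_iff.1 ha
  obtain ⟨j, rfl⟩ := Subgroup.mem_zpowers_iff.1 hb
  exact ⟨i, j, hab.symm⟩

/-- an automorphism that fixes an element of order `p` and another one modulo it is trivial -/
theorem triv_of (hp : p.Prime) (hC : IsPGroup p C) (h2 : Nat.card {x : C // x ^ p = 1} ≤ p ^ 2)
    {E : Subgroup (MulAut C)} (hE : ¬ p ∣ Nat.card E) {φ : MulAut C} (hφ : φ ∈ E)
    {x y : C} (hx : x ≠ 1) (hxp : x ^ p = 1) (hyp : y ^ p = 1) (hy : y ∉ Subgroup.zpowers x)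
    (hφx : φ x = x) (h : y⁻¹ * φ y ∈ Subgroup.zpowers x) : φ = 1 := by
  have hφy : φ y = y := by
    obtain ⟨j, hj⟩ := Subgroup.mem_zpowers_iff.1 h
    refine fixc hp hC hE hφ ?_
    rw [← hj, map_zpow, hφx]
  refine faith hp hC hE hφ fun w hw => ?_
  obtain ⟨i, j, rfl⟩ := span hp hC h2 hx hxp hyp hy hw
  rw [map_mul, map_zpow, map_zpow, hφx, hφy]

/-- the stabilizer of an element of order `p` in rank `2` -/
theorem stab_le (hp : p.Prime) (hC : IsPGroup p C) (h2 : Nat.card {x : C // x ^ p = 1} ≤ p ^ 2)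
    {E : Subgroup (MulAut C)} (hE : ¬ p ∣ Nat.card E) {x : C} (hx : x ≠ 1) (hxp : x ^ p = 1)
    (hEx : ∀ φ ∈ E, φ x = x) : Nat.card E ≤ p - 1 := by
  classical
  have := Fact.mk hp
  have hp1 := hp.one_lt
  by_cases hall : ∀ y : C, y ^ p = 1 → y ∈ Subgroup.zpowers x
  · have h1 : Nat.card E = 1 := by
      rw [Subgroup.card_eq_one]
      refine (Subgroup.eq_bot_iff_forall E).2 fun φ hφ => ?_
      refine faith hp hC hE hφ fun y hy => ?_
      obtain ⟨j, rfl⟩ := Subgroup.mem_zpowers_iff.1 (hall y hy)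
      rw [map_zpow, hEx φ hφ]
    omega
  · push Not at hall
    obtain ⟨y, hyp, hy⟩ := hall
    -- the pairs `(φ, z)`
    let S := {w : C // w ^ p = 1 ∧ w ∉ Subgroup.zpowers x}
    have hmem : ∀ (φ : E) (z : Subgroup.zpowers x), ((φ : MulAut C) y * (z : C)) ^ p = 1 ∧
        (φ : MulAut C) y * (z : C) ∉ Subgroup.zpowers x := by
      intro φ z
      have hzp : (z : C) ^ p = 1 := by
        obtain ⟨j, hj⟩ := Subgroup.mem_zpowers_iff.1 z.2
        rw [← hj, ← zpow_natCast, ← zpow_mul, mul_comm, zpow_mul, zpow_natCast, hxp, one_zpow]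
      refine ⟨by rw [mul_pow, ← map_pow, hyp, map_one, one_mul, hzp], fun h => hy ?_⟩
      have h3 : (φ : MulAut C) y ∈ Subgroup.zpowers x := by
        have h4 := (Subgroup.zpowers x).mul_mem h ((Subgroup.zpowers x).inv_mem z.2)
        rwa [mul_inv_cancel_right] at h4
      obtain ⟨j, hj⟩ := Subgroup.mem_zpowers_iff.1 h3
      refine Subgroup.mem_zpowers_iff.2 ⟨j, ?_⟩
      apply (φ : MulAut C).injective
      rw [map_zpow, hEx _ φ.2, hj]
    let g : E × Subgroup.zpowers x → S := fun a => ⟨(a.1 : MulAut C) y * (a.2 : C), hmem a.1 a.2⟩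
    have hg : Function.Injective g := by
      rintro ⟨φ, z⟩ ⟨ψ, t⟩ h
      have h3 : (φ : MulAut C) y * (z : C) = (ψ : MulAut C) y * (t : C) := congrArg Subtype.val h
      have hfix : ∀ (χ : MulAut C), χ ∈ E → ∀ w ∈ Subgroup.zpowers x, χ w = w := by
        intro χ hχ w hw
        obtain ⟨j, rfl⟩ := Subgroup.mem_zpowers_iff.1 hw
        rw [map_zpow, hEx χ hχ]
      have h4 : (ψ⁻¹ * φ : E) = 1 := by
        apply Subtype.ext
        refine triv_of hp hC h2 hE (ψ⁻¹ * φ : E).2 hx hxp hyp hy (hEx _ (ψ⁻¹ * φ : E).2) ?_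
        have h5 : ((ψ⁻¹ * φ : E) : MulAut C) y = y * ((t : C) * (z : C)⁻¹) := by
          apply (ψ : MulAut C).injective
          rw [Subgroup.coe_mul, Subgroup.coe_inv, MulAut.mul_apply, MulAut.apply_inv_self,
            map_mul, hfix _ ψ.2 _ ((Subgroup.zpowers x).mul_mem t.2
              ((Subgroup.zpowers x).inv_mem z.2)), ← mul_assoc, ← h3, mul_inv_cancel_right]
        rw [h5, inv_mul_cancel_left]
        exact (Subgroup.zpowers x).mul_mem t.2 ((Subgroup.zpowers x).inv_mem z.2)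
      have h6 : φ = ψ := (inv_mul_eq_one.1 h4).symm
      subst h6
      exact Prod.ext rfl (Subtype.ext (mul_left_cancel h3))
    have h3 := Nat.card_le_card_of_injective g hg
    rw [Nat.card_prod, card_zp hp hx hxp] at h3
    have h4 : Nat.card S + p ≤ p ^ 2 := by
      refine le_trans ?_ h2
      have h5 : Nat.card {w : C // w ^ p = 1} = Nat.card S
          + Nat.card {w : C // w ∈ Subgroup.zpowers x} := by
        rw [← Nat.card_sum]
        refine Nat.card_congr ?_
        refine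
          { toFun := fun w => if h : w.1 ∈ Subgroup.zpowers x then Sum.inr ⟨w.1, h⟩
              else Sum.inl ⟨w.1, w.2, h⟩
            invFun := fun s => s.elim (fun a => ⟨a.1, a.2.1⟩) fun a => ⟨a.1, by
              obtain ⟨j, hj⟩ := Subgroup.mem_zpowers_iff.1 a.2
              rw [← hj, ← zpow_natCast, ← zpow_mul, mul_comm, zpow_mul, zpow_natCast, hxp,
                one_zpow]⟩
            left_inv := ?_
            right_inv := ?_ }
        · intro w
          by_cases h : w.1 ∈ Subgroup.zpowers x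
          · simp only [dif_pos h, Sum.elim_inr]
          · simp only [dif_neg h, Sum.elim_inl]
        · rintro (a | a)
          · have h : ¬ a.1 ∈ Subgroup.zpowers x := a.2.2
            exact dif_neg h
          · have h : a.1 ∈ Subgroup.zpowers x := a.2
            exact dif_pos h
      rw [h5]
      exact Nat.add_le_add_left (le_of_eq (card_zp hp hx hxp).symm) _
    have h5 : (Nat.card E + 1) * p ≤ p * p := by
      calc (Nat.card E + 1) * p = Nat.card E * p + p := by ring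
        _ ≤ Nat.card S + p := Nat.add_le_add_right h3 _
        _ ≤ p ^ 2 := h4
        _ = p * p := sq p
    have h6 := Nat.le_of_mul_le_mul_right h5 hp.pos
    omega

theorem inv_mul_app (α β : MulAut C) (z : C) : α ((α⁻¹ * β) z) = β z := by
  rw [MulAut.mul_apply, MulAut.apply_inv_self]

/-- two automorphisms that fix an element of order `p` commute -/
theorem comm_stab (hp : p.Prime) (hC : IsPGroup p C)
    (h2 : Nat.card {x : C // x ^ p = 1} ≤ p ^ 2)
    {E : Subgroup (MulAut C)} (hE : ¬ p ∣ Nat.card E) {φ ψ : MulAut C} (hφ : φ ∈ E) (hψ : ψ ∈ E)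
    {x : C} (hx : x ≠ 1) (hxp : x ^ p = 1) (h1 : φ x = x) (h3 : ψ x = x) : φ * ψ = ψ * φ := by
  by_cases hall : ∀ y : C, y ^ p = 1 → y ∈ Subgroup.zpowers x
  · have h4 : φ = 1 := by
      refine faith hp hC hE hφ fun y hy => ?_
      obtain ⟨j, rfl⟩ := Subgroup.mem_zpowers_iff.1 (hall y hy)
      rw [map_zpow, h1]
    rw [h4, one_mul, mul_one]
  · push Not at hall
    obtain ⟨y, hyp, hy⟩ := hall
    obtain ⟨i, j, hi⟩ := span hp hC h2 hx hxp hyp hy (w := ψ y) (by rw [← map_pow, hyp, map_one])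
    obtain ⟨k, l, hk⟩ := span hp hC h2 hx hxp hyp hy (w := φ y) (by rw [← map_pow, hyp, map_one])
    have h5 : φ (ψ y) = ψ (φ y) * x ^ (l * i + j - (j * k + l)) := by
      rw [hi, map_mul, map_zpow, map_zpow, h1, hk, map_mul, map_zpow, map_zpow, h3, hi, mul_zpow,
        mul_zpow, ← zpow_mul, ← zpow_mul, ← zpow_mul, ← zpow_mul, zpow_sub, zpow_add, zpow_add,
        mul_comm k i]
      have h6 : ∀ a b c d e : C, a * b * c = a * d * e * (b * c * (d * e)⁻¹) := by
        intro a b c d e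
        rw [mul_inv]
        have : a * d * e * (b * c * (d⁻¹ * e⁻¹)) = a * b * c * ((d * d⁻¹) * (e * e⁻¹)) := by
          simp only [mul_assoc, mul_comm, mul_left_comm]
        rw [this, mul_inv_cancel, mul_inv_cancel, one_mul, mul_one]
      exact h6 _ _ _ _ _
    have h6 : (ψ * φ)⁻¹ * (φ * ψ) = 1 := by
      refine triv_of hp hC h2 hE
        (E.mul_mem (E.inv_mem (E.mul_mem hψ hφ)) (E.mul_mem hφ hψ)) hx hxp hyp hy ?_ ?_
      · apply (ψ * φ).injective
        rw [inv_mul_app, MulAut.mul_apply, MulAut.mul_apply, h3, h1, h3]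
      · have h7 : ((ψ * φ)⁻¹ * (φ * ψ)) y = y * x ^ (l * i + j - (j * k + l)) := by
          apply (ψ * φ).injective
          rw [inv_mul_app, map_mul, map_zpow, MulAut.mul_apply, MulAut.mul_apply,
            MulAut.mul_apply, h1, h3, h5]
        rw [h7, inv_mul_cancel_left]
        exact Subgroup.zpow_mem _ (Subgroup.mem_zpowers x) _
    exact (inv_mul_eq_one.1 h6).symm

/-- the fixed points of two elements of the stabilizer of an element of order `p` -/
theorem fix_of_fix (hp : p.Prime) (hC : IsPGroup p C)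
    (h2 : Nat.card {x : C // x ^ p = 1} ≤ p ^ 2)
    {E : Subgroup (MulAut C)} (hE : ¬ p ∣ Nat.card E) {h g : MulAut C} (hh : h ∈ E) (hg : g ∈ E)
    (hg1 : g ≠ 1) {x l : C} (hx : x ≠ 1) (hxp : x ^ p = 1) (hxl : x ∈ Subgroup.zpowers l)
    (hhx : h x = x) (hgl : g l = l) : h l = l := by
  have hgx : g x = x := by
    obtain ⟨j, rfl⟩ := Subgroup.mem_zpowers_iff.1 hxl
    rw [map_zpow, hgl]
  have hcom := comm_stab hp hC h2 hE hh hg hx hxp hhx hgx
  by_contra hne
  set w : C := l⁻¹ * h l with hw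
  have hw1 : w ≠ 1 := fun h3 => hne (inv_mul_eq_one.1 h3).symm
  have hgw : g w = w := by
    rw [hw, map_mul, map_inv, hgl]
    congr 1
    have h4 : (g * h) l = (h * g) l := by rw [hcom]
    rw [MulAut.mul_apply, MulAut.mul_apply, hgl] at h4
    exact h4
  obtain ⟨v, hv, hv1, hvp⟩ := Ku.exists_order (p := p) hC (H := Subgroup.zpowers w) (by
    intro h3
    exact hw1 (Subgroup.zpowers_eq_bot.1 h3))
  have hgv : g v = v := by
    obtain ⟨j, rfl⟩ := Subgroup.mem_zpowers_iff.1 hv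
    rw [map_zpow, hgw]
  have hvx : v ∈ Subgroup.zpowers x := by
    by_contra h5
    exact hg1 (triv_of hp hC h2 hE hg hx hxp hvp h5 hgx (by
      rw [hgv, inv_mul_cancel]
      exact one_mem _))
  have hhv : h v = v := by
    obtain ⟨j, rfl⟩ := Subgroup.mem_zpowers_iff.1 hvx
    rw [map_zpow, hhx]
  refine hv1 (Ku.fix_cm hp hC (pow_E hh) hE ?_ hhv)
  have h6 : Subgroup.zpowers w ≤ (Ku.cm h).range := Subgroup.zpowers_le.2 ⟨l, rfl⟩
  exact h6 hv

open Classical in
/-- the number of the nonregular elements in rank `2` -/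
theorem nonreg_le (hp : p.Prime) (hC : IsPGroup p C)
    (h2 : Nat.card {x : C // x ^ p = 1} ≤ p ^ 2)
    {E : Subgroup (MulAut C)} (hE : ¬ p ∣ Nat.card E) {M : ℕ}
    (hM : ∀ φ ∈ E, φ ≠ 1 → (univ.filter fun x : C => φ x = x).card ≤ M) :
    (univ.filter fun x : C => x ≠ 1 ∧ ∃ φ ∈ E, φ ≠ 1 ∧ φ x = x).card ≤ (p + 1) * (M - 1) := by
  set Z := univ.filter fun x : C => x ≠ 1 ∧ ∃ φ ∈ E, φ ≠ 1 ∧ φ x = x with hZ
  set O := univ.filter fun x : C => x ≠ 1 ∧ x ^ p = 1 with hO
  have hOc : O.card ≤ p ^ 2 - 1 := by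
    have h3 : O.card + 1 ≤ p ^ 2 := by
      refine le_trans ?_ h2
      rw [Nat.card_eq_fintype_card, Fintype.card_subtype]
      have h4 : (univ.filter fun x : C => x ^ p = 1) = insert 1 O := by
        ext x
        simp only [hO, mem_filter, mem_univ, true_and, mem_insert]
        constructor
        · intro hx
          by_cases h1 : x = 1
          · exact Or.inl h1
          · exact Or.inr ⟨h1, hx⟩
        · rintro (rfl | ⟨-, hx⟩)
          · exact one_pow p
          · exact hx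
      rw [h4, card_insert_of_notMem]
      simp [hO]
    omega
  -- the elements of order `p` in a cyclic subgroup
  have hA : ∀ l : C, l ≠ 1 → p - 1 ≤ (O.filter fun x => x ∈ Subgroup.zpowers l).card := by
    intro l hl
    obtain ⟨x, hx, hx1, hxp⟩ := Ku.exists_order (p := p) hC (H := Subgroup.zpowers l) (by
      intro h3
      exact hl (Subgroup.zpowers_eq_bot.1 h3))
    have h3 : (univ.filter fun w : C => w ∈ Subgroup.zpowers x).card = p := by
      rw [← card_zp hp hx1 hxp, Nat.card_eq_fintype_card, Fintype.card_subtype]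
    have h4 : (univ.filter fun w : C => w ∈ Subgroup.zpowers x).erase 1 ⊆
        O.filter fun x => x ∈ Subgroup.zpowers l := by
      intro w hw
      rw [mem_erase, mem_filter] at hw
      obtain ⟨hw1, -, hw⟩ := hw
      refine mem_filter.2 ⟨mem_filter.2 ⟨mem_univ _, hw1, ?_⟩, (Subgroup.zpowers_le.2 hx) hw⟩
      obtain ⟨j, rfl⟩ := Subgroup.mem_zpowers_iff.1 hw
      rw [← zpow_natCast, ← zpow_mul, mul_comm, zpow_mul, zpow_natCast, hxp, one_zpow]
    have h5 := card_le_card h4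
    rw [card_erase_of_mem (mem_filter.2 ⟨mem_univ _, one_mem _⟩), h3] at h5
    exact h5
  have hB : ∀ x ∈ O, (Z.filter fun l => x ∈ Subgroup.zpowers l).card ≤ M - 1 := by
    intro x hx
    obtain ⟨hx1, hxp⟩ := (mem_filter.1 hx).2
    rcases (Z.filter fun l => x ∈ Subgroup.zpowers l).eq_empty_or_nonempty with h0 | ⟨l0, hl0⟩
    · rw [h0, card_empty]
      exact Nat.zero_le _
    · obtain ⟨hl0Z, hxl0⟩ := mem_filter.1 hl0
      obtain ⟨-, h, hh, hh1, hhl0⟩ := (mem_filter.1 hl0Z).2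
      have hhx : h x = x := by
        obtain ⟨j, rfl⟩ := Subgroup.mem_zpowers_iff.1 hxl0
        rw [map_zpow, hhl0]
      have h3 : (Z.filter fun l => x ∈ Subgroup.zpowers l) ⊆
          (univ.filter fun x : C => h x = x).erase 1 := by
        intro l hl
        obtain ⟨hlZ, hxl⟩ := mem_filter.1 hl
        obtain ⟨hl1, g, hg, hg1, hgl⟩ := (mem_filter.1 hlZ).2
        refine mem_erase.2 ⟨hl1, mem_filter.2 ⟨mem_univ _, ?_⟩⟩
        exact fix_of_fix hp hC h2 hE hh hg hg1 hx1 hxp hxl hhx hgl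
      refine (card_le_card h3).trans ?_
      have h6 : (1 : C) ∈ univ.filter fun x : C => h x = x := mem_filter.2 ⟨mem_univ _, map_one h⟩
      rw [card_erase_of_mem h6]
      exact Nat.sub_le_sub_right (hM h hh hh1) 1
  have h3 : (p - 1) * Z.card ≤ (p ^ 2 - 1) * (M - 1) := by
    calc (p - 1) * Z.card = ∑ l ∈ Z, (p - 1) := by rw [sum_const, smul_eq_mul, mul_comm]
      _ ≤ ∑ l ∈ Z, (O.filter fun x => x ∈ Subgroup.zpowers l).card :=
        sum_le_sum fun l hl => hA l (mem_filter.1 hl).2.1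
      _ = ∑ x ∈ O, (Z.filter fun l => x ∈ Subgroup.zpowers l).card := by
        simp only [card_filter]
        exact sum_comm
      _ ≤ ∑ x ∈ O, (M - 1) := sum_le_sum hB
      _ = O.card * (M - 1) := by rw [sum_const, smul_eq_mul]
      _ ≤ _ := Nat.mul_le_mul_right _ hOc
  have hp1 := hp.one_lt
  have h4 : p ^ 2 - 1 = (p - 1) * (p + 1) := by
    obtain ⟨m, rfl⟩ := Nat.exists_eq_add_of_le hp1.le
    rw [Nat.add_sub_cancel_left, sq]
    rw [Nat.sub_eq_of_eq_add]
    ring
  rw [h4, mul_assoc] at h3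
  exact Nat.le_of_mul_le_mul_left h3 (by omega)

theorem nonreg_le' (hp : p.Prime) (hC : IsPGroup p C)
    (h2 : Nat.card {x : C // x ^ p = 1} ≤ p ^ 2)
    {E : Subgroup (MulAut C)} (hE : ¬ p ∣ Nat.card E) {M : ℕ}
    (hM : ∀ φ ∈ E, φ ≠ 1 → Nat.card {x : C // φ x = x} ≤ M) :
    Nat.card {x : C // x ≠ 1 ∧ ∃ φ ∈ E, φ ≠ 1 ∧ φ x = x} ≤ (p + 1) * (M - 1) := by
  classical
  rw [Nat.card_eq_fintype_card, Fintype.card_subtype]
  refine nonreg_le hp hC h2 hE fun φ hφ h1 => ?_
  have h3 := hM φ hφ h1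
  rw [Nat.card_eq_fintype_card, Fintype.card_subtype] at h3
  exact h3

end

section
variable {T : Type*} [CommGroup T] [Fintype T] {K : Type*} [Field K] [CharZero K]
  [HasEnoughRootsOfUnity K (Monoid.exponent T)] {p : ℕ}

/-- the action on the characters -/
def dA (K : Type*) [Field K] : MulAut T →* MulAut (T →* Kˣ) where
  toFun α :=
    { toFun := fun l => l.comp (α⁻¹ : MulAut T).toMonoidHom
      invFun := fun l => l.comp α.toMonoidHom
      left_inv := fun l => MonoidHom.ext fun u => congrArg l (MulAut.inv_apply_self T α u)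
      right_inv := fun l => MonoidHom.ext fun u => congrArg l (MulAut.apply_inv_self T α u)
      map_mul' := fun _ _ => rfl }
  map_one' := rfl
  map_mul' α β := by
    refine MulEquiv.ext fun l => MonoidHom.ext fun u => ?_
    change l ((α * β)⁻¹ u) = l (β⁻¹ (α⁻¹ u))
    rw [mul_inv_rev]
    rfl

theorem dA_apply (α : MulAut T) (l : T →* Kˣ) (u : T) : dA K α l u = l (α⁻¹ u) := rfl

theorem dA_fix {α : MulAut T} {l : T →* Kˣ} : dA K α l = l ↔ ∀ u, l (α u) = l u := by
  constructor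
  · intro h u
    have h1 := DFunLike.congr_fun h (α u)
    rw [dA_apply, MulAut.inv_apply_self] at h1
    exact h1.symm
  · intro h
    refine MonoidHom.ext fun u => ?_
    rw [dA_apply, ← h (α⁻¹ u), MulAut.apply_inv_self]

theorem dual_pgroup (hT : IsPGroup p T) : IsPGroup p (T →* Kˣ) := by
  intro l
  by_cases hp : Nat.card T = 1
  · refine ⟨0, ?_⟩
    have : Subsingleton T := (Nat.card_eq_one_iff_unique.1 hp).1
    refine MonoidHom.ext fun u => ?_
    rw [Subsingleton.elim u 1, map_one, map_one]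
  · obtain ⟨N, hN⟩ : ∃ N, ∀ u : T, u ^ p ^ N = 1 := by
      choose f hf using hT
      refine ⟨univ.sup f, fun u => ?_⟩
      obtain ⟨d, hd⟩ := pow_dvd_pow p (le_sup (f := f) (mem_univ u))
      rw [hd, pow_mul, hf, one_pow]
    refine ⟨N, MonoidHom.ext fun u => ?_⟩
    rw [MonoidHom.pow_apply, ← map_pow, hN, map_one, MonoidHom.one_apply]

theorem card_dfix (α : MulAut T) :
    Nat.card (Ku.cm α).range * Nat.card {l : T →* Kˣ // ∀ u, l (α u) = l u}
      = Fintype.card T := by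
  classical
  rw [← card_eqP (K := K) (Ku.cm α).range 1]
  congr 1
  rw [Nat.card_eq_fintype_card, Fintype.card_subtype]
  congr 1
  refine filter_congr fun l _ => ?_
  constructor
  · rintro h _ ⟨u, rfl⟩
    rw [Ku.cm_apply, map_mul, map_inv, h u, inv_mul_cancel]
    rfl
  · intro h u
    have h1 := h _ ⟨u, rfl⟩
    rw [Ku.cm_apply, map_mul, map_inv] at h1
    exact (inv_mul_eq_one.1 h1).symm

open Classical in
theorem card_dp : Nat.card {l : T →* Kˣ // l ^ p = 1} = Nat.card {x : T // x ^ p = 1} := by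
  have h1 := card_eqP (K := K) (powMonoidHom p : T →* T).range 1
  have h2 := Ku.card_ker_mul_range (powMonoidHom p : T →* T)
  have h3 : Nat.card {x : T // x ^ p = 1} = Nat.card (powMonoidHom p : T →* T).ker := by
    refine Nat.card_congr (Equiv.subtypeEquivRight fun z => ?_)
    rw [MonoidHom.mem_ker, powMonoidHom_apply]
  have h4 : Nat.card {l : T →* Kˣ // l ^ p = 1}
      = (univ.filter fun b : T →* Kˣ => eqP (powMonoidHom p : T →* T).range b 1).card := by
    rw [Nat.card_eq_fintype_card, Fintype.card_subtype]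
    congr 1
    refine filter_congr fun l _ => ?_
    constructor
    · rintro h _ ⟨u, rfl⟩
      rw [powMonoidHom_apply, map_pow, ← MonoidHom.pow_apply, h, MonoidHom.one_apply,
        MonoidHom.one_apply]
    · intro h
      refine MonoidHom.ext fun u => ?_
      rw [MonoidHom.pow_apply, ← map_pow]
      exact h _ ⟨u, rfl⟩
  rw [h3, h4]
  have h5 : 0 < Nat.card (powMonoidHom p : T →* T).range := Nat.card_pos
  refine Nat.eq_of_mul_eq_mul_left h5 ?_
  rw [h1, mul_comm, h2, Nat.card_eq_fintype_card]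

/-- the regular characters in rank `2` -/
theorem reg_card (hp : p.Prime) (hT : IsPGroup p T) (h2 : Nat.card {x : T // x ^ p = 1} ≤ p ^ 2)
    {E : Subgroup (MulAut T)} (hE : ¬ p ∣ Nat.card E) {q : ℕ} (hq1 : 1 < q)
    (hq : ∀ α ∈ E, α ≠ 1 → q ≤ Nat.card (Ku.cm α).range) :
    Fintype.card T ≤ Nat.card {l : T →* Kˣ // ∀ α ∈ E, (∀ u, l (α u) = l u) → α = 1}
      + (1 + (p + 1) * (Fintype.card T / q - 1)) := by
  classical
  have hfix : ∀ α ∈ E, α ≠ 1 →
      Nat.card {l : T →* Kˣ // ∀ u, l (α u) = l u} ≤ Fintype.card T / q := by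
    intro α hα h1
    rw [Nat.le_div_iff_mul_le (by omega), mul_comm]
    exact (Nat.mul_le_mul_right _ (hq α hα h1)).trans (le_of_eq (card_dfix (K := K) α))
  have hE' : ¬ p ∣ Nat.card (E.map (dA K)) := fun h => hE (h.trans (Subgroup.card_map_dvd E (dA K)))
  have h3 := nonreg_le' (C := T →* Kˣ) hp (dual_pgroup hT) (by rw [card_dp]; exact h2)
    (E := E.map (dA K)) hE' (M := Fintype.card T / q) (by
      rintro _ ⟨α, hα, rfl⟩ h1
      have h4 : α ≠ 1 := by
        rintro rfl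
        exact h1 (map_one _)
      refine le_trans (le_of_eq ?_) (hfix α hα h4)
      exact Nat.card_congr (Equiv.subtypeEquivRight fun l => dA_fix))
  have h4 : (univ : Finset (T →* Kˣ)) ⊆ (univ.filter fun l : T →* Kˣ =>
      ∀ α ∈ E, (∀ u, l (α u) = l u) → α = 1) ∪ insert 1 (univ.filter fun l : T →* Kˣ =>
        l ≠ 1 ∧ ∃ φ ∈ E.map (dA K), φ ≠ 1 ∧ φ l = l) := by
    intro l _
    rw [mem_union, mem_insert]
    by_cases hl : ∀ α ∈ E, (∀ u, l (α u) = l u) → α = 1
    · exact Or.inl (mem_filter.2 ⟨mem_univ _, hl⟩)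
    · right
      by_cases hl1 : l = 1
      · exact Or.inl hl1
      · right
        push Not at hl
        obtain ⟨α, hα, h5, h6⟩ := hl
        refine mem_filter.2 ⟨mem_univ _, hl1, dA K α, ⟨α, hα, rfl⟩, fun h7 => ?_, dA_fix.2 h5⟩
        have h8 : Nat.card {l : T →* Kˣ // ∀ u, l (α u) = l u} = Fintype.card T := by
          rw [← card_chr (K := K), ← Nat.card_eq_fintype_card (α := T →* Kˣ)]
          refine Nat.card_congr (Equiv.subtypeUnivEquiv fun l => dA_fix.1 ?_)
          rw [h7]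
          rfl
        have h9 := hfix α hα h6
        rw [h8] at h9
        exact absurd h9 (not_le.2 (Nat.div_lt_self Fintype.card_pos hq1))
  have h5 := (card_le_card h4).trans (card_union_le _ _)
  rw [card_univ, card_chr] at h5
  have h6 : Nat.card {l : T →* Kˣ // ∀ α ∈ E, (∀ u, l (α u) = l u) → α = 1}
      = (univ.filter fun l : T →* Kˣ => ∀ α ∈ E, (∀ u, l (α u) = l u) → α = 1).card := by
    rw [Nat.card_eq_fintype_card, Fintype.card_subtype]
  rw [Nat.card_eq_fintype_card, Fintype.card_subtype] at h3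
  rw [h6]
  refine h5.trans (Nat.add_le_add_left ?_ _)
  refine (card_insert_le _ _).trans ?_
  rw [add_comm]
  exact Nat.add_le_add_left h3 1

/-- `Many` from the number of the regular characters -/
theorem many_reg {E : Subgroup (MulAut T)} {R : Subgroup T} (hER : ∀ α ∈ E, ∀ z ∈ R, α z = z)
    (n : ℕ) (h4 : 4 ≤ n) (hn : Nat.card E + 2 ≤ n)
    (hc : n * Nat.card E < Nat.card {l : T →* Kˣ //
      eqP R l 1 ∧ ∀ α ∈ E, (∀ u, l (α u) = l u) → α = 1}) : Many K E R := by
  classical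
  have hF : Fact (∀ α ∈ E, ∀ z ∈ R, α z = z) := ⟨hER⟩
  have : Fintype E := Fintype.ofFinite _
  have hcE : Nat.card E = Fintype.card E := Nat.card_eq_fintype_card
  have h3 : n * Fintype.card E < (univ.filter fun a : YLx.LR K R => nn E a a = 1).card := by
    rw [← hcE]
    refine hc.trans_le ?_
    rw [Nat.card_eq_fintype_card, Fintype.card_subtype]
    have h5 : (univ.filter fun l : T →* Kˣ =>
        eqP R l 1 ∧ ∀ α ∈ E, (∀ u, l (α u) = l u) → α = 1) ⊆
        (univ.filter fun a : YLx.LR K R => nn E a a = 1).image YLx.LR.val := by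
      intro l hl
      obtain ⟨-, h5, h6⟩ := mem_filter.1 hl
      exact mem_image.2 ⟨⟨l, h5⟩, mem_filter.2 ⟨mem_univ _, ZBx.nn_self h6⟩, rfl⟩
    exact (card_le_card h5).trans card_image_le
  obtain ⟨a, ha1, ha0⟩ := reg_pts (E := E) n h3
  refine Or.inl ⟨n + 1, by omega, by omega, fun j => (a j).1, fun j => (a j).2,
    fun j α hα hj => ?_, fun j k hjk α hα hj => ?_⟩
  · have h4 := ha1 j
    have h5 : (⟨α, hα⟩ : E)⁻¹ • a j = a j := (ZBx.smul_iff _ _ _).2 fun u => by
      rw [inv_inv]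
      exact hj u
    unfold nn at h4
    have h6 : (univ.filter fun h : E => h • a j = a j).card = 1 := by exact_mod_cast h4
    obtain ⟨g, hg⟩ := card_eq_one.1 h6
    have h7 : (⟨α, hα⟩ : E)⁻¹ ∈ univ.filter fun h : E => h • a j = a j :=
      mem_filter.2 ⟨mem_univ _, h5⟩
    have h8 : (1 : E) ∈ univ.filter fun h : E => h • a j = a j :=
      mem_filter.2 ⟨mem_univ _, one_smul _ _⟩
    rw [hg, mem_singleton] at h7 h8
    have h9 : (⟨α, hα⟩ : E) = 1 := inv_eq_one.1 (h7.trans h8.symm)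
    exact congrArg Subtype.val h9
  · have h4 := ha0 k j (Ne.symm hjk)
    have h5 : (⟨α, hα⟩ : E)⁻¹ • a j = a k := (ZBx.smul_iff _ _ _).2 fun u => by
      rw [inv_inv]
      exact hj u
    unfold nn at h4
    have h6 : (univ.filter fun h : E => h • a j = a k).card = 0 := by exact_mod_cast h4
    have h7 : (⟨α, hα⟩ : E)⁻¹ ∈ univ.filter fun h : E => h • a j = a k :=
      mem_filter.2 ⟨mem_univ _, h5⟩
    rw [card_eq_zero.1 h6] at h7
    exact absurd h7 (notMem_empty _)

end

section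
variable {T : Type*} [CommGroup T] [Fintype T] {p : ℕ}

/-- the order of `[T, φ]` when `φ` acts nontrivially on `T ^ (p ^ n)` -/
theorem cm_dvd (hp : p.Prime) (hT : IsPGroup p T) {φ : MulAut T} {n : ℕ}
    (h : ∃ u : T, (u⁻¹ * φ u) ^ p ^ n ≠ 1) : p ^ (n + 1) ∣ Nat.card (Ku.cm φ).range := by
  obtain ⟨u, hu⟩ := h
  obtain ⟨N, hN⟩ := hT (u⁻¹ * φ u)
  obtain ⟨N, -, hN⟩ := (Nat.dvd_prime_pow hp).1 (orderOf_dvd_of_pow_eq_one hN)
  have hle : n + 1 ≤ N := by
    by_contra hcon
    apply hu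
    refine orderOf_dvd_iff_pow_eq_one.1 ?_
    rw [hN]
    exact pow_dvd_pow p (by omega)
  refine (pow_dvd_pow p hle).trans ?_
  rw [← hN]
  have hmem : u⁻¹ * φ u ∈ (Ku.cm φ).range := ⟨u, rfl⟩
  have h1 : orderOf (⟨u⁻¹ * φ u, hmem⟩ : (Ku.cm φ).range) ∣ Nat.card (Ku.cm φ).range :=
    orderOf_dvd_natCard _
  rwa [Subgroup.orderOf_mk] at h1

/-- `Q` is fixed by `φ` -/
theorem fix_dvd {φ : MulAut T} {Q : Subgroup T} (hQ : ∀ z ∈ Q, φ z = z) {q : ℕ}
    (h : q ∣ Nat.card (Ku.cm φ).range) : q * Nat.card Q ∣ Fintype.card T := by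
  rw [← Nat.card_eq_fintype_card, ← Ku.card_ker_mul_range (Ku.cm φ), mul_comm]
  refine mul_dvd_mul (Subgroup.card_dvd_of_le fun z hz => ?_) h
  rw [MonoidHom.mem_ker, Ku.cm_apply, hQ z hz, inv_mul_cancel]

theorem exists_ne {E : Subgroup (MulAut T)} (h : Nat.card E ≠ 1) : ∃ φ ∈ E, φ ≠ 1 := by
  by_contra h1
  push Not at h1
  exact h (Subgroup.card_eq_one.2 ((Subgroup.eq_bot_iff_forall E).2 h1))

/-- the order of a `p'`-group of automorphisms in rank `2` -/
theorem card_le2 (hp : p.Prime) (hT : IsPGroup p T) (h2 : Nat.card {x : T // x ^ p = 1} ≤ p ^ 2)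
    {E : Subgroup (MulAut T)} (hE : ¬ p ∣ Nat.card E) :
    Nat.card E ≤ (p - 1) * (p ^ 2 - 1) := by
  classical
  have hp1 := hp.one_lt
  have h0 : 1 ≤ (p - 1) * (p ^ 2 - 1) := by
    have h3 : 1 < p ^ 2 := Nat.one_lt_pow (by norm_num) hp1
    exact Nat.mul_pos (by omega) (by omega)
  by_cases hE1 : Nat.card E = 1
  · rw [hE1]
    exact h0
  obtain ⟨φ, hφ, hφ1⟩ := exists_ne hE1
  have hbot : (Ku.cm φ).range ≠ ⊥ := by
    intro h
    apply hφ1
    ext u
    have h1 : Ku.cm φ u ∈ (⊥ : Subgroup T) := by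
      rw [← h]
      exact ⟨u, rfl⟩
    rw [Subgroup.mem_bot, Ku.cm_apply, inv_mul_eq_one] at h1
    exact h1.symm
  obtain ⟨x, -, hx1, hxp⟩ := Ku.exists_order (p := p) hT hbot
  have : Fintype E := Fintype.ofFinite _
  have hS : Nat.card (Fx E (Subgroup.zpowers x)) ≤ p - 1 := by
    refine stab_le hp hT h2 (fun h => hE (h.trans (Subgroup.card_dvd_of_le ?_))) hx1 hxp ?_
    · exact fun α hα => hα.1
    · exact fun α hα => hα.2 x (Subgroup.mem_zpowers x)
  have h3 : (univ : Finset E).card ≤ (p - 1) * (univ.image fun α : E => (α : MulAut T) x).card := by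
    refine card_le_mul_card_image _ _ fun y hy => ?_
    obtain ⟨α0, -, hα0⟩ := mem_image.1 hy
    refine le_trans ?_ hS
    have h4 : (univ.filter fun α : E => (α : MulAut T) x = y).card
        = Nat.card {α : E // (α : MulAut T) x = y} := by
      rw [Nat.card_eq_fintype_card, Fintype.card_subtype]
    rw [h4]
    have h5 : ∀ α : {α : E // (α : MulAut T) x = y},
        ∀ t ∈ Subgroup.zpowers x, ((α0⁻¹ * α.1 : E) : MulAut T) t = t := by
      intro α t ht
      obtain ⟨j, rfl⟩ := Subgroup.mem_zpowers_iff.1 ht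
      rw [map_zpow]
      congr 1
      apply (α0 : MulAut T).injective
      rw [Subgroup.coe_mul, Subgroup.coe_inv, inv_mul_app, hα0, α.2]
    refine Nat.card_le_card_of_injective (fun α : {α : E // (α : MulAut T) x = y} =>
      (⟨((α0⁻¹ * α.1 : E) : MulAut T), (α0⁻¹ * α.1 : E).2, h5 α⟩ :
        Fx E (Subgroup.zpowers x))) ?_
    intro α β h6
    have h7 : ((α0⁻¹ * α.1 : E) : MulAut T) = ((α0⁻¹ * β.1 : E) : MulAut T) :=
      congrArg (Subtype.val : Fx E (Subgroup.zpowers x) → MulAut T) h6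
    exact Subtype.ext (mul_left_cancel (Subtype.ext h7))
  have h6 : (univ.image fun α : E => (α : MulAut T) x).card ≤ p ^ 2 - 1 := by
    have h7 : (univ.image fun α : E => (α : MulAut T) x).card + 1 ≤ p ^ 2 := by
      refine le_trans ?_ h2
      rw [Nat.card_eq_fintype_card, Fintype.card_subtype]
      have h8 : (1 : T) ∉ univ.image fun α : E => (α : MulAut T) x := by
        intro h
        obtain ⟨α, -, hα⟩ := mem_image.1 h
        exact hx1 ((α : MulAut T).injective (by rw [hα, map_one]))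
      rw [← card_insert_of_notMem h8]
      refine card_le_card fun y hy => ?_
      rcases mem_insert.1 hy with rfl | hy
      · exact mem_filter.2 ⟨mem_univ _, one_pow p⟩
      · obtain ⟨α, -, rfl⟩ := mem_image.1 hy
        exact mem_filter.2 ⟨mem_univ _, by rw [← map_pow, hxp, map_one]⟩
    omega
  rw [card_univ, ← Nat.card_eq_fintype_card] at h3
  exact h3.trans (Nat.mul_le_mul_left _ h6)

/-- `E` acts on the elements of order `p` in `T ^ (p ^ n)` -/
theorem moved (hp : p.Prime) (hT : IsPGroup p T) {E : Subgroup (MulAut T)}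
    (hE : ¬ p ∣ Nat.card E) {n : ℕ} {φ : MulAut T} (hφ : φ ∈ E)
    (h : ∃ u : T, (u⁻¹ * φ u) ^ p ^ n ≠ 1) : ∃ a : T, a ^ p ^ n ≠ 1 ∧ (a ^ p ^ n) ^ p = 1 ∧
      φ (a ^ p ^ n) ≠ a ^ p ^ n := by
  obtain ⟨u, hu⟩ := h
  obtain ⟨v, hv, hv1, hvp⟩ := Ku.exists_order (p := p) hT
    (H := Subgroup.zpowers ((u⁻¹ * φ u) ^ p ^ n)) (fun h3 => hu (Subgroup.zpowers_eq_bot.1 h3))
  obtain ⟨j, hj⟩ := Subgroup.mem_zpowers_iff.1 hv
  have h1 : v = ((u⁻¹ * φ u) ^ j) ^ p ^ n := by
    rw [← hj, ← zpow_natCast, ← zpow_natCast, ← zpow_mul, ← zpow_mul, mul_comm j]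
  refine ⟨(u⁻¹ * φ u) ^ j, ?_, ?_, ?_⟩
  · rw [← h1]
    exact hv1
  · rw [← h1]
    exact hvp
  · rw [← h1]
    intro h3
    refine hv1 (Ku.fix_cm hp hT (pow_E hφ) hE ?_ h3)
    rw [h1]
    exact pow_mem (zpow_mem (⟨u, rfl⟩ : u⁻¹ * φ u ∈ (Ku.cm φ).range) _) _

/-- `|E| < p` or `T ^ (p ^ n)` has rank `2` -/
theorem homog (hp : p.Prime) (hT : IsPGroup p T) {E : Subgroup (MulAut T)}
    (hE : ¬ p ∣ Nat.card E) {n : ℕ}
    (hF : ∀ φ ∈ E, φ ≠ 1 → ∃ u : T, (u⁻¹ * φ u) ^ p ^ n ≠ 1) :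
    Nat.card E ≤ p - 1 ∨ p ^ (n + 1) * p ^ (n + 1) ≤ Fintype.card T := by
  classical
  have hp1 := hp.one_lt
  by_cases hE1 : Nat.card E = 1
  · left
    omega
  have : Fintype E := Fintype.ofFinite _
  obtain ⟨φ, hφ, hφ1⟩ := exists_ne hE1
  obtain ⟨a, ha1, hap, -⟩ := moved hp hT hE hφ (hF φ hφ hφ1)
  by_cases hall : ∀ b : T, (b ^ p ^ n) ^ p = 1 → b ^ p ^ n ∈ Subgroup.zpowers (a ^ p ^ n)
  · left
    have h1 : ∀ α : E, (α : MulAut T) (a ^ p ^ n) ∈ Subgroup.zpowers (a ^ p ^ n) := by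
      intro α
      rw [map_pow]
      refine hall _ ?_
      rw [← map_pow, ← map_pow, hap, map_one]
    have h2 : Nat.card E + 1 ≤ Nat.card (Subgroup.zpowers (a ^ p ^ n)) := by
      rw [Nat.card_eq_fintype_card, Nat.card_eq_fintype_card, ← card_univ, ← card_univ]
      have h3 : (univ.image fun α : E => (⟨_, h1 α⟩ : Subgroup.zpowers (a ^ p ^ n))).card
          = (univ : Finset E).card := by
        refine card_image_of_injective _ fun α β h => ?_
        have h4 : (α : MulAut T) (a ^ p ^ n) = (β : MulAut T) (a ^ p ^ n) := congrArg Subtype.val h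
        by_contra hne
        have h5 : ((β⁻¹ * α : E) : MulAut T) ≠ 1 := by
          intro h6
          exact hne (inv_mul_eq_one.1 (Subtype.ext h6 : β⁻¹ * α = 1)).symm
        obtain ⟨b, -, hbp, hb⟩ := moved hp hT hE (β⁻¹ * α : E).2 (hF _ (β⁻¹ * α : E).2 h5)
        apply hb
        obtain ⟨j, hj⟩ := Subgroup.mem_zpowers_iff.1 (hall b hbp)
        rw [← hj, map_zpow]
        congr 1
        apply (β : MulAut T).injective
        rw [Subgroup.coe_mul, Subgroup.coe_inv, inv_mul_app, h4]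
      rw [← h3]
      have h6 : (1 : Subgroup.zpowers (a ^ p ^ n)) ∉
          univ.image fun α : E => (⟨_, h1 α⟩ : Subgroup.zpowers (a ^ p ^ n)) := by
        intro h
        obtain ⟨α, -, hα⟩ := mem_image.1 h
        have h7 : (α : MulAut T) (a ^ p ^ n) = 1 := congrArg Subtype.val hα
        exact ha1 ((α : MulAut T).injective (by rw [h7, map_one]))
      rw [← card_insert_of_notMem h6]
      exact card_le_card (subset_univ _)
    rw [card_zp hp ha1 hap] at h2
    omega
  · right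
    push Not at hall
    obtain ⟨b, hbp, hb⟩ := hall
    have hb1 : b ^ p ^ n ≠ 1 := fun h => hb (by rw [h]; exact one_mem _)
    have := Fact.mk hp
    have hord : ∀ c : T, c ^ p ^ n ≠ 1 → (c ^ p ^ n) ^ p = 1 → orderOf c = p ^ (n + 1) := by
      intro c h1 h2
      exact orderOf_eq_prime_pow h1 (by rw [pow_succ, pow_mul, h2])
    -- the elements of order `p` in `⟨c⟩`
    have hcyc : ∀ c : T, c ^ p ^ n ≠ 1 → (c ^ p ^ n) ^ p = 1 → ∀ v ∈ Subgroup.zpowers c,
        v ^ p = 1 → v ∈ Subgroup.zpowers (c ^ p ^ n) := by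
      intro c h1 h2 v hv hvp
      obtain ⟨i, rfl⟩ := Subgroup.mem_zpowers_iff.1 hv
      have h3 : c ^ (i * p) = 1 := by rw [zpow_mul, zpow_natCast, hvp]
      rw [← orderOf_dvd_iff_zpow_eq_one, hord c h1 h2, pow_succ] at h3
      push_cast at h3
      have h4 : ((p : ℤ) ^ n) ∣ i :=
        Int.dvd_of_mul_dvd_mul_right (Int.natCast_ne_zero.2 hp.ne_zero) h3
      obtain ⟨j, rfl⟩ := h4
      refine Subgroup.mem_zpowers_iff.2 ⟨j, ?_⟩
      rw [← zpow_natCast, ← zpow_mul]
      push_cast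
      rfl
    have hinj : Function.Injective fun s : Subgroup.zpowers a × Subgroup.zpowers b =>
        (s.1 : T) * (s.2 : T) := by
      rintro ⟨s, t⟩ ⟨s', t'⟩ h
      have h1 : (s : T) * (t : T) = (s' : T) * (t' : T) := h
      have h2 : (s : T) * (s' : T)⁻¹ = (t' : T) * (t : T)⁻¹ := by
        rw [mul_inv_eq_iff_eq_mul, mul_assoc, mul_comm (t : T)⁻¹, ← mul_assoc, mul_comm (t' : T),
          ← h1, mul_inv_cancel_right]
      have h3 : (s : T) * (s' : T)⁻¹ = 1 := by
        by_contra h4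
        obtain ⟨v, hv, hv1, hvp⟩ := Ku.exists_order (p := p) hT
          (H := Subgroup.zpowers ((s : T) * (s' : T)⁻¹))
          (fun h3 => h4 (Subgroup.zpowers_eq_bot.1 h3))
        have h5 : v ∈ Subgroup.zpowers a := by
          refine (Subgroup.zpowers_le.2 ?_) hv
          exact (Subgroup.zpowers a).mul_mem s.2 ((Subgroup.zpowers a).inv_mem s'.2)
        have h6 : v ∈ Subgroup.zpowers b := by
          refine (Subgroup.zpowers_le.2 ?_) hv
          rw [h2]
          exact (Subgroup.zpowers b).mul_mem t'.2 ((Subgroup.zpowers b).inv_mem t.2)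
        have h7 := hcyc a ha1 hap v h5 hvp
        have h8 := hcyc b hb1 hbp v h6 hvp
        -- `⟨v⟩ = ⟨a ^ p ^ n⟩ = ⟨b ^ p ^ n⟩`
        have h9 : ∀ c : T, c ≠ 1 → c ^ p = 1 → v ∈ Subgroup.zpowers c →
            Subgroup.zpowers v = Subgroup.zpowers c := by
          intro c hc hcp hvc
          refine Subgroup.eq_of_le_of_card_ge (Subgroup.zpowers_le.2 hvc) ?_
          rw [card_zp hp hv1 hvp, card_zp hp hc hcp]
        apply hb
        rw [← h9 _ ha1 hap h7, h9 _ hb1 hbp h8]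
        exact Subgroup.mem_zpowers _
      have h4 : (s : T) = s' := mul_inv_eq_one.1 h3
      have h5 : (t : T) = t' := by
        rw [h4] at h1
        exact mul_left_cancel h1
      exact Prod.ext (Subtype.ext h4) (Subtype.ext h5)
    have h3 := Nat.card_le_card_of_injective _ hinj
    rw [Nat.card_prod, Nat.card_zpowers, Nat.card_zpowers, hord a ha1 hap, hord b hb1 hbp,
      Nat.card_eq_fintype_card (α := T)] at h3
    exact h3

end

section
variable {T : Type*} [CommGroup T] [Fintype T] {K : Type*} [Field K] [CharZero K]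
  [HasEnoughRootsOfUnity K (Monoid.exponent T)] {p : ℕ}

/-- the index of a proper subgroup -/
theorem card_cases (hp : p.Prime) (hp2 : p ≠ 2) (hT : IsPGroup p T) {R : Subgroup T}
    (hR : R ≠ ⊤) : Fintype.card T = 3 * Nat.card R ∨ 5 * Nat.card R ≤ Fintype.card T := by
  have := Fact.mk hp
  have h1 := Subgroup.card_mul_index R
  rw [Nat.card_eq_fintype_card (α := T)] at h1
  obtain ⟨N, hN⟩ := hT.index R
  have hN0 : N ≠ 0 := by
    rintro rfl
    rw [pow_zero] at hN
    exact hR (Subgroup.index_eq_one.1 hN)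
  have hp3 : 3 ≤ p := by
    have h2 := hp.two_le
    omega
  by_cases h3 : R.index = 3
  · left
    rw [← h1, h3, mul_comm]
  · right
    have h5 : 5 ≤ R.index := by
      rw [hN] at h3 ⊢
      by_cases hp5 : 5 ≤ p
      · exact hp5.trans (Nat.le_self_pow hN0 p)
      · have h6 : p = 3 := by
          have h7 : p ≠ 4 := by
            rintro rfl
            exact absurd hp (by norm_num)
          omega
        subst h6
        have h8 : N ≠ 1 := by
          rintro rfl
          exact h3 (pow_one 3)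
        calc 5 ≤ 3 ^ 2 := by norm_num
          _ ≤ 3 ^ N := Nat.pow_le_pow_right (by norm_num) (by omega)
    rw [← h1, mul_comm]
    exact Nat.mul_le_mul_left _ h5

/-- the trivial group has many regular characters -/
theorem many_one (hp : p.Prime) (hp2 : p ≠ 2) (hT : IsPGroup p T) {E : Subgroup (MulAut T)}
    {R : Subgroup T} (hR : R ≠ ⊤) (hE : Nat.card E = 1) : Many K E R := by
  rcases card_cases hp hp2 hT hR with h | h
  · exact Or.inr ⟨hE, h⟩
  · have hE' : E = ⊥ := Subgroup.card_eq_one.1 hE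
    have h0 : 0 < Nat.card R := Nat.card_pos
    refine many_of (K := K) hp hT (q := 1) ?_ ?_ ?_ ?_
    · rw [hE]
      exact hp.one_lt.ne' ∘ Nat.dvd_one.1
    · intro α hα z _
      rw [hE', Subgroup.mem_bot] at hα
      rw [hα]
      rfl
    · intro α hα h1
      rw [hE', Subgroup.mem_bot] at hα
      exact absurd hα h1
    · rw [hE]
      omega

/-- `Many` for small `E` -/
theorem many_small (hp : p.Prime) (hT : IsPGroup p T) {E : Subgroup (MulAut T)}
    (hE : ¬ p ∣ Nat.card E) {R : Subgroup T} (hER : ∀ α ∈ E, ∀ z ∈ R, α z = z) {q : ℕ}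
    (hq : ∀ α ∈ E, α ≠ 1 → q ≤ Nat.card (Ku.cm α).range)
    (hR : q * Nat.card R ≤ Fintype.card T)
    (hn : Nat.card E * (Nat.card E + 3) + (Nat.card E - 1) < q) : Many K E R := by
  refine many_of hp hT hE hER hq ?_
  have hT0 : 0 < Fintype.card T := Fintype.card_pos
  calc q * (Nat.card E * (Nat.card E + 3)) * Nat.card R + (Nat.card E - 1) * Fintype.card T
      = (Nat.card E * (Nat.card E + 3)) * (q * Nat.card R)
        + (Nat.card E - 1) * Fintype.card T := by ring
    _ ≤ (Nat.card E * (Nat.card E + 3)) * Fintype.card T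
        + (Nat.card E - 1) * Fintype.card T := Nat.add_le_add_right (Nat.mul_le_mul_left _ hR) _
    _ = (Nat.card E * (Nat.card E + 3) + (Nat.card E - 1)) * Fintype.card T := by ring
    _ < q * Fintype.card T := Nat.mul_lt_mul_of_pos_right hn hT0

/-- `Many` at the trivial subgroup, a numerical criterion in rank `2` -/
theorem many_bot (hp : p.Prime) (hT : IsPGroup p T) (h2 : Nat.card {x : T // x ^ p = 1} ≤ p ^ 2)
    {E : Subgroup (MulAut T)} (hE : ¬ p ∣ Nat.card E) (hE2 : 2 ≤ Nat.card E) {q : ℕ}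
    (hq1 : 1 < q)
    (hq : ∀ α ∈ E, α ≠ 1 → q ≤ Nat.card (Ku.cm α).range) {t : ℕ} (ht : Fintype.card T = q * t)
    (hn : (Nat.card E + 1) ^ 2 + (p + 1) * (t - 1) < q * t) : Many K E (⊥ : Subgroup T) := by
  have h1 := reg_card (K := K) hp hT h2 hE hq1 hq
  have h3 : Fintype.card T / q = t := by
    rw [ht]
    exact Nat.mul_div_cancel_left t (by omega)
  rw [h3] at h1
  refine many_reg (K := K) (fun α _ z hz => ?_) (Nat.card E + 2) (by omega) le_rfl ?_
  · rw [Subgroup.mem_bot.1 hz, map_one]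
  · have h4 : Nat.card {l : T →* Kˣ // eqP (⊥ : Subgroup T) l 1 ∧
        ∀ α ∈ E, (∀ u, l (α u) = l u) → α = 1}
        = Nat.card {l : T →* Kˣ // ∀ α ∈ E, (∀ u, l (α u) = l u) → α = 1} := by
      refine Nat.card_congr (Equiv.subtypeEquivRight fun l => ⟨fun h => h.2, fun h => ⟨?_, h⟩⟩)
      intro z hz
      rw [Subgroup.mem_bot.1 hz, map_one, map_one]
    rw [h4]
    rw [ht] at h1
    have h5 : (Nat.card E + 2) * Nat.card E + 1 = (Nat.card E + 1) ^ 2 := by ring
    omega

theorem hq_of (hp : p.Prime) (hT : IsPGroup p T) {E : Subgroup (MulAut T)} {n : ℕ}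
    (hF : ∀ φ ∈ E, φ ≠ 1 → ∃ u : T, (u⁻¹ * φ u) ^ p ^ n ≠ 1) :
    ∀ α ∈ E, α ≠ 1 → p ^ (n + 1) ≤ Nat.card (Ku.cm α).range := fun α hα h1 =>
  Nat.le_of_dvd Nat.card_pos (cm_dvd hp hT (hF α hα h1))

/-- **rank `2`, the exponents at least `3`: many regular characters of `T`** -/
theorem many2 (hp : p.Prime) (hp2 : p ≠ 2) (hT : IsPGroup p T)
    (h2 : Nat.card {x : T // x ^ p = 1} ≤ p ^ 2) {E : Subgroup (MulAut T)}
    (hE : ¬ p ∣ Nat.card E) {n : ℕ} (hn : 2 ≤ n)
    (hF : ∀ φ ∈ E, φ ≠ 1 → ∃ u : T, (u⁻¹ * φ u) ^ p ^ n ≠ 1) (hT1 : (⊥ : Subgroup T) ≠ ⊤) :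
    Many K E (⊥ : Subgroup T) := by
  have hp1 := hp.one_lt
  have hp3 : 3 ≤ p := by omega
  by_cases hE1 : Nat.card E = 1
  · exact many_one hp hp2 hT hT1 hE1
  have hE0 : 0 < Nat.card E := Nat.card_pos
  have hER : ∀ α ∈ E, ∀ z ∈ (⊥ : Subgroup T), α z = z := fun α _ z hz => by
    rw [Subgroup.mem_bot.1 hz, map_one]
  have hq := hq_of hp hT hF
  obtain ⟨φ, hφ, hφ1⟩ := exists_ne hE1
  have hd := fix_dvd (hER φ hφ) (cm_dvd hp hT (hF φ hφ hφ1))
  rw [Subgroup.card_bot, mul_one] at hd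
  have hqp : p ^ 3 ≤ p ^ (n + 1) := Nat.pow_le_pow_right hp.pos (by omega)
  rcases homog hp hT hE hF with h | h
  · refine many_small hp hT hE hER hq ?_ ?_
    · rw [Subgroup.card_bot, mul_one]
      exact Nat.le_of_dvd Fintype.card_pos hd
    · refine lt_of_lt_of_le ?_ hqp
      obtain ⟨m, rfl⟩ := Nat.exists_eq_add_of_le hp3
      have h3 : Nat.card E ≤ m + 2 := by omega
      have h4 : Nat.card E * (Nat.card E + 3) ≤ (m + 2) * (m + 2 + 3) :=
        Nat.mul_le_mul h3 (by omega)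
      have h5 : (m + 2) * (m + 2 + 3) + (m + 2) < (3 + m) ^ 3 := by
        nlinarith [Nat.zero_le m, Nat.zero_le (m ^ 2), Nat.zero_le (m ^ 3)]
      omega
  · obtain ⟨t, ht⟩ := hd
    have hq1 : 1 < p ^ (n + 1) := Nat.one_lt_pow (by omega) hp1
    refine many_bot hp hT h2 hE (by omega) hq1 hq ht ?_
    have hc := card_le2 hp hT h2 hE
    rw [ht] at h
    have ht' : p ^ (n + 1) ≤ t := Nat.le_of_mul_le_mul_left h (by omega)
    -- `e + 1 ≤ p ^ 3 - p - 1`
    generalize p ^ (n + 1) = q at *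
    have h3 : Nat.card E + 1 + p + 1 ≤ p ^ 3 := by
      obtain ⟨m, rfl⟩ := Nat.exists_eq_add_of_le hp3
      have h4 : (3 + m - 1) * ((3 + m) ^ 2 - 1) = (m + 2) * ((3 + m) ^ 2 - 1) := by
        congr 1
        omega
      have h5 : (3 + m) ^ 2 - 1 = m ^ 2 + 6 * m + 8 := by
        rw [Nat.sub_eq_iff_eq_add (Nat.one_le_pow _ _ (by omega))]
        ring
      rw [h4, h5] at hc
      nlinarith [Nat.zero_le m, Nat.zero_le (m ^ 2), Nat.zero_le (m ^ 3)]
    have h4 : Nat.card E + 1 ≤ q - (p + 1) := by omega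
    have h5 : (Nat.card E + 1) ^ 2 ≤ (q - (p + 1)) * t := by
      rw [sq]
      exact Nat.mul_le_mul h4 (h4.trans ((Nat.sub_le _ _).trans ht'))
    have h6 : (q - (p + 1)) * t + (p + 1) * t = q * t := by
      rw [← Nat.add_mul, Nat.sub_add_cancel (by omega)]
    have ht0 : 0 < t := (by omega : 0 < q).trans_le ht'
    have h7 : (p + 1) * (t - 1) < (p + 1) * t := Nat.mul_lt_mul_of_pos_left (by omega) (by omega)
    omega

end

end Pool.Agent.Lib.P0c8ca5.Ex.ZKr
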