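import Mathlib
import Pool.Agent.Lib.P0c8ca5Ex.ZKr
import Pool.Agent.Lib.P0c8ca5Ex.ZJ

/-!
# ZKs: rank `2` (K2), the exponents at least `2`, `p ≥ 5`
-/

set_option linter.unusedSectionVars false

namespace Pool.Agent.Lib.P0c8ca5.Ex.ZKr

open Finset

section
variable {T : Type*} [CommGroup T] [Fintype T] {K : Type*} [Field K] [CharZero K]
  [HasEnoughRootsOfUnity K (Monoid.exponent T)] {p : ℕ}

/-- the action on the characters of `T / R` is free if `R` contains all fixed points -/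
theorem free_of (hp : p.Prime) (hT : IsPGroup p T) {E : Subgroup (MulAut T)}
    (hE : ¬ p ∣ Nat.card E) {R : Subgroup T}
    (hfix : ∀ α ∈ E, α ≠ 1 → ∀ z, α z = z → z ∈ R) : FreeR K E R := by
  intro l hl hl1 α hα h
  by_contra h1
  apply hl1
  refine MonoidHom.ext fun u => ?_
  have hn := pow_E hα
  set n := Nat.card E with hnd
  have h2 : ∀ j : ℕ, l ((α ^ j) u) = l u := by
    intro j
    induction j with
    | zero => rfl
    | succ j ih =>
      rw [pow_succ', MulAut.mul_apply, h, ih]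
  have h3 : l (Ku.nu α n u) = l u ^ n := by
    unfold Ku.nu
    rw [map_prod, prod_congr rfl fun j _ => h2 j, prod_const, Finset.card_range]
  have h4 : α (Ku.nu α n u) = Ku.nu α n u := by
    have h5 : α (Ku.nu α n u) = Ku.nu α n (α u) := by
      unfold Ku.nu
      rw [map_prod]
      refine prod_congr rfl fun j _ => ?_
      rw [← MulAut.mul_apply, ← MulAut.mul_apply, ← pow_succ', ← pow_succ]
    rw [h5, Ku.nu_shift hn]
  have h5 : l u ^ n = 1 := by
    rw [← h3]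
    exact hl _ (hfix α hα h1 _ h4)
  obtain ⟨k, hk⟩ := hT u
  have h6 : l u ^ p ^ k = 1 := by rw [← map_pow, hk, map_one]
  have h7 : orderOf (l u) ∣ n := orderOf_dvd_of_pow_eq_one h5
  have h8 : orderOf (l u) ∣ p ^ k := orderOf_dvd_of_pow_eq_one h6
  have h9 : Nat.Coprime n (p ^ k) :=
    (Nat.Coprime.pow_left k ((Nat.Prime.coprime_iff_not_dvd hp).2 hE)).symm
  have h10 : orderOf (l u) = 1 := Nat.eq_one_of_dvd_coprimes h9 h7 h8
  exact orderOf_eq_one_iff.1 h10

/-- the fixed points if `|T : R|` is small -/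
theorem fix_mem {E : Subgroup (MulAut T)} {R : Subgroup T} (hER : ∀ α ∈ E, ∀ z ∈ R, α z = z)
    {q : ℕ} (hq : ∀ α ∈ E, α ≠ 1 → q ≤ Nat.card (Ku.cm α).range)
    (hR : Fintype.card T = q * Nat.card R) :
    ∀ α ∈ E, α ≠ 1 → ∀ z, α z = z → z ∈ R := by
  intro α hα h1 z hz
  have h2 : R ≤ (Ku.cm α).ker := fun w hw => by
    rw [MonoidHom.mem_ker, Ku.cm_apply, hER α hα w hw, inv_mul_cancel]
  have h3 := Ku.card_ker_mul_range (Ku.cm α)
  rw [Nat.card_eq_fintype_card (α := T), hR] at h3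
  have hq0 : 0 < q := by
    rcases Nat.eq_zero_or_pos q with h | h
    · rw [h, zero_mul] at hR
      exact absurd hR Fintype.card_ne_zero
    · exact h
  have h4 : Nat.card (Ku.cm α).ker ≤ Nat.card R := by
    have h5 : q * Nat.card (Ku.cm α).ker ≤ q * Nat.card R := by
      rw [← h3, mul_comm q]
      exact Nat.mul_le_mul_left _ (hq α hα h1)
    exact Nat.le_of_mul_le_mul_left h5 hq0
  rw [Subgroup.eq_of_le_of_card_ge h2 h4, MonoidHom.mem_ker, Ku.cm_apply, hz, inv_mul_cancel]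

/-- `Many` or `Thin` for `|E| < p` -/
theorem many_or_thin (hp : p.Prime) (hp5 : 5 ≤ p) (hT : IsPGroup p T) {E : Subgroup (MulAut T)}
    (hE : ¬ p ∣ Nat.card E) {R : Subgroup T} (hER : ∀ α ∈ E, ∀ z ∈ R, α z = z)
    (hR : R ≠ ⊤) (hle : Nat.card E ≤ p - 1) {n : ℕ} (hn : 1 ≤ n)
    (hF : ∀ φ ∈ E, φ ≠ 1 → ∃ u : T, (u⁻¹ * φ u) ^ p ^ n ≠ 1) : Many K E R ∨ Thin K E R := by
  have hp1 := hp.one_lt
  have := Fact.mk hp
  by_cases hE1 : Nat.card E = 1
  · exact Or.inl (many_one hp (by omega) hT hR hE1)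
  have hE0 : 0 < Nat.card E := Nat.card_pos
  have hq := hq_of hp hT hF
  obtain ⟨φ, hφ, hφ1⟩ := exists_ne hE1
  obtain ⟨s, hs⟩ := fix_dvd (hER φ hφ) (cm_dvd hp hT (hF φ hφ hφ1))
  have hqp : p ^ 2 ≤ p ^ (n + 1) := Nat.pow_le_pow_right hp.pos (by omega)
  have hR0 : 0 < Nat.card R := Nat.card_pos
  have hT0 : 0 < Fintype.card T := Fintype.card_pos
  by_cases hs1 : s = 1
  · right
    rw [hs1, mul_one] at hs
    refine ⟨free_of hp hT hE (fix_mem hER hq hs), max 5 (Nat.card E + 2), le_max_left _ _,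
      le_max_right _ _, ?_⟩
    rw [hs]
    refine Nat.mul_lt_mul_of_pos_right (lt_of_lt_of_le ?_ hqp) hR0
    have h25 : 5 * 5 ≤ p ^ 2 := by
      rw [sq]
      exact Nat.mul_le_mul hp5 hp5
    rcases le_total (Nat.card E + 2) 5 with h | h
    · rw [max_eq_left h]
      omega
    · rw [max_eq_right h]
      have h3 : (Nat.card E + 2) * Nat.card E + 1 = (Nat.card E + 1) ^ 2 := by ring
      have h4 : (Nat.card E + 1) ^ 2 ≤ p ^ 2 := Nat.pow_le_pow_left (by omega) 2
      omega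
  · left
    have hps : p ≤ s := by
      obtain ⟨N, hN⟩ := IsPGroup.iff_card.1 hT
      have h1 : s ∣ p ^ N := by
        rw [← hN, Nat.card_eq_fintype_card, hs]
        exact Dvd.intro_left _ rfl
      obtain ⟨j, -, hj⟩ := (Nat.dvd_prime_pow hp).1 h1
      have hj0 : j ≠ 0 := by
        rintro rfl
        exact hs1 hj
      rw [hj]
      exact Nat.le_self_pow hj0 p
    refine many_of hp hT hE hER hq ?_
    have h1 : p * (p ^ (n + 1) * Nat.card R) ≤ Fintype.card T := by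
      rw [hs, mul_comm]
      exact Nat.mul_le_mul_left _ hps
    have h2 : Nat.card E * (Nat.card E + 3) + p * (Nat.card E - 1) < p * p ^ (n + 1) := by
      refine lt_of_lt_of_le ?_ (Nat.mul_le_mul_left p hqp)
      obtain ⟨m, rfl⟩ := Nat.exists_eq_add_of_le hp5
      have h3 : Nat.card E ≤ m + 4 := by omega
      have h4 : Nat.card E * (Nat.card E + 3) ≤ (m + 4) * (m + 4 + 3) :=
        Nat.mul_le_mul h3 (by omega)
      have h5 : (5 + m) * (Nat.card E - 1) ≤ (5 + m) * (m + 3) :=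
        Nat.mul_le_mul_left _ (by omega)
      have h6 : (m + 4) * (m + 4 + 3) + (5 + m) * (m + 3) < (5 + m) * (5 + m) ^ 2 := by
        nlinarith [Nat.zero_le m, Nat.zero_le (m ^ 2), Nat.zero_le (m ^ 3)]
      omega
    refine lt_of_mul_lt_mul_left (a := p) ?_ (Nat.zero_le p)
    calc p * (p ^ (n + 1) * (Nat.card E * (Nat.card E + 3)) * Nat.card R
          + (Nat.card E - 1) * Fintype.card T)
        = (Nat.card E * (Nat.card E + 3)) * (p * (p ^ (n + 1) * Nat.card R))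
          + (p * (Nat.card E - 1)) * Fintype.card T := by ring
      _ ≤ (Nat.card E * (Nat.card E + 3)) * Fintype.card T
          + (p * (Nat.card E - 1)) * Fintype.card T :=
        Nat.add_le_add_right (Nat.mul_le_mul_left _ h1) _
      _ = (Nat.card E * (Nat.card E + 3) + p * (Nat.card E - 1)) * Fintype.card T := by ring
      _ < p * p ^ (n + 1) * Fintype.card T := Nat.mul_lt_mul_of_pos_right h2 hT0
      _ = p * (p ^ (n + 1) * Fintype.card T) := by ring

/-- **the step at `Q ≠ 1`, rank `2`, exponents at least `2`, `p ≥ 5`** -/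
theorem bigx2 (hp : p.Prime) (hp5 : 5 ≤ p) (hT : IsPGroup p T)
    (h2 : Nat.card {x : T // x ^ p = 1} ≤ p ^ 2) {E : Subgroup (MulAut T)}
    (hE : ¬ p ∣ Nat.card E) {n : ℕ} (hn : 1 ≤ n)
    (hF : ∀ φ ∈ E, φ ≠ 1 → ∃ u : T, (u⁻¹ * φ u) ^ p ^ n ≠ 1) {Q : Subgroup T} (hQ : Q ≠ ⊥)
    (hQT : Q ≠ ⊤) : BigX K p (p ^ (n + 1)) E Q := by
  have hp1 := hp.one_lt
  obtain ⟨x, hx, hx1, hxp⟩ := Ku.exists_order (p := p) hT hQ
  have hFE : Fx E Q ≤ E := fun α hα => hα.1
  have hE' : ¬ p ∣ Nat.card (Fx E Q) := fun h => hE (h.trans (Subgroup.card_dvd_of_le hFE))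
  have hle : Nat.card (Fx E Q) ≤ p - 1 := stab_le hp hT h2 hE' hx1 hxp fun α hα => hα.2 x hx
  have hER : ∀ α ∈ Fx E Q, ∀ z ∈ Q, α z = z := fun α hα z hz => hα.2 z hz
  have hF' : ∀ φ ∈ Fx E Q, φ ≠ 1 → ∃ u : T, (u⁻¹ * φ u) ^ p ^ n ≠ 1 := fun φ hφ => hF φ hφ.1
  refine ⟨many_or_thin hp hp5 hT hE' hER hQT hle hn hF', ?_, ?_⟩
  · have h3 : p < p ^ (n + 1) := by
      calc p = p ^ 1 := (pow_one p).symm
        _ < p ^ (n + 1) := Nat.pow_lt_pow_right hp1 (by omega)
    calc Nat.card (Fx E Q) ^ 2 ≤ (p - 1) ^ 2 := Nat.pow_le_pow_left hle 2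
      _ = (p - 1) * (p - 1) := sq _
      _ < p ^ (n + 1) * (p - 1) := Nat.mul_lt_mul_of_pos_right (by omega) (by omega)
  · by_cases h1 : Nat.card (Fx E Q) = 1
    · exact Or.inl h1
    · right
      obtain ⟨φ, hφ, hφ1⟩ := exists_ne h1
      exact fix_dvd (hER φ hφ) (cm_dvd hp hT (hF' φ hφ hφ1))

/-- **`Many` or `Thin` at the trivial subgroup, rank `2`, exponents at least `2`, `p ≥ 5`** -/
theorem manyx2 (hp : p.Prime) (hp5 : 5 ≤ p) (hT : IsPGroup p T)
    (h2 : Nat.card {x : T // x ^ p = 1} ≤ p ^ 2) {E : Subgroup (MulAut T)}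
    (hE : ¬ p ∣ Nat.card E) (hEp : Nat.card E + p ≤ p ^ 2) {n : ℕ} (hn : 1 ≤ n)
    (hF : ∀ φ ∈ E, φ ≠ 1 → ∃ u : T, (u⁻¹ * φ u) ^ p ^ n ≠ 1) (hT1 : (⊥ : Subgroup T) ≠ ⊤) :
    Many K E (⊥ : Subgroup T) ∨ Thin K E (⊥ : Subgroup T) := by
  have hp1 := hp.one_lt
  have hER : ∀ α ∈ E, ∀ z ∈ (⊥ : Subgroup T), α z = z := fun α _ z hz => by
    rw [Subgroup.mem_bot.1 hz, map_one]
  rcases homog hp hT hE hF with h | h
  · exact many_or_thin hp hp5 hT hE hER hT1 h hn hF
  · left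
    by_cases hE1 : Nat.card E = 1
    · exact many_one hp (by omega) hT hT1 hE1
    have hE0 : 0 < Nat.card E := Nat.card_pos
    have hq := hq_of hp hT hF
    obtain ⟨φ, hφ, hφ1⟩ := exists_ne hE1
    have hd := fix_dvd (hER φ hφ) (cm_dvd hp hT (hF φ hφ hφ1))
    rw [Subgroup.card_bot, mul_one] at hd
    obtain ⟨t, ht⟩ := hd
    have hq1 : 1 < p ^ (n + 1) := Nat.one_lt_pow (by omega) hp1
    have hqp : p ^ 2 ≤ p ^ (n + 1) := Nat.pow_le_pow_right hp.pos (by omega)
    refine many_bot hp hT h2 hE (by omega) hq1 hq ht ?_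
    rw [ht] at h
    have ht' : p ^ (n + 1) ≤ t := Nat.le_of_mul_le_mul_left h (by omega)
    generalize p ^ (n + 1) = q at *
    obtain ⟨m, rfl⟩ := Nat.exists_eq_add_of_le hp5
    have h3 : (Nat.card E + 1) ^ 2 ≤ ((5 + m) ^ 2 - (5 + m) + 1) ^ 2 :=
      Nat.pow_le_pow_left (by omega) 2
    have h4 : (5 + m) ^ 2 - (5 + m) = m ^ 2 + 9 * m + 20 := by
      rw [Nat.sub_eq_iff_eq_add (by nlinarith [Nat.zero_le m])]
      ring
    rw [h4] at h3
    have h5 : (m ^ 2 + 9 * m + 20 + 1) ^ 2 ≤ (m ^ 2 + 9 * m + 19) * t := by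
      have h6 : m ^ 2 + 10 * m + 25 ≤ t := by
        refine le_trans (le_of_eq ?_) (hqp.trans ht')
        ring
      calc (m ^ 2 + 9 * m + 20 + 1) ^ 2 ≤ (m ^ 2 + 9 * m + 19) * (m ^ 2 + 10 * m + 25) := by
            nlinarith [Nat.zero_le m, Nat.zero_le (m ^ 2), Nat.zero_le (m ^ 3)]
        _ ≤ _ := Nat.mul_le_mul_left _ h6
    have h7 : (m ^ 2 + 9 * m + 19) + (5 + m + 1) ≤ q := by
      refine le_trans (le_of_eq ?_) hqp
      ring
    have h8 : (m ^ 2 + 9 * m + 19) * t + (5 + m + 1) * t ≤ q * t := by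
      rw [← Nat.add_mul]
      exact Nat.mul_le_mul_right _ h7
    have ht0 : 0 < t := (by omega : 0 < q).trans_le ht'
    have h9 : (5 + m + 1) * (t - 1) < (5 + m + 1) * t :=
      Nat.mul_lt_mul_of_pos_left (by omega) (by omega)
    omega

/-- a stable subgroup of order `p` -/
theorem card_le_line (hp : p.Prime) (hT : IsPGroup p T)
    (h2 : Nat.card {x : T // x ^ p = 1} ≤ p ^ 2)
    {E : Subgroup (MulAut T)} (hE : ¬ p ∣ Nat.card E) {L : Subgroup T} (hL : Nat.card L = p)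
    (hEL : ∀ α ∈ E, ∀ z ∈ L, α z ∈ L) : Nat.card E ≤ (p - 1) * (p - 1) := by
  classical
  have hp1 := hp.one_lt
  have hbot : L ≠ ⊥ := by
    rintro rfl
    rw [Subgroup.card_bot] at hL
    omega
  obtain ⟨x, hx, hx1, hxp⟩ := Ku.exists_order (p := p) hT hbot
  have : Fintype E := Fintype.ofFinite _
  have hS : Nat.card (Fx E (Subgroup.zpowers x)) ≤ p - 1 := by
    refine stab_le hp hT h2 (fun h => hE (h.trans (Subgroup.card_dvd_of_le ?_))) hx1 hxp ?_
    · exact fun α hα => hα.1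
    · exact fun α hα => hα.2 x (Subgroup.mem_zpowers x)
  have h3 : (univ : Finset E).card ≤ (p - 1) * (univ.image fun α : E => (α : MulAut T) x).card := by
    refine card_le_mul_card_image _ _ fun y hy => ?_
    obtain ⟨α0, -, hα0⟩ := mem_image.1 hy
    refine le_trans ?_ hS
    have h4 : (univ.filter fun α : E => (α : MulAut T) x = y).card
        = Nat.card {α : E // (α : MulAut T) x = y} := by
      rw [Nat.card_eq_fintype_card, Fintype.card_subtype]
    rw [h4]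
    have h5 : ∀ α : {α : E // (α : MulAut T) x = y},
        ∀ t ∈ Subgroup.zpowers x, ((α0⁻¹ * α.1 : E) : MulAut T) t = t := by
      intro α t ht
      obtain ⟨j, rfl⟩ := Subgroup.mem_zpowers_iff.1 ht
      rw [map_zpow]
      congr 1
      apply (α0 : MulAut T).injective
      rw [Subgroup.coe_mul, Subgroup.coe_inv, inv_mul_app, hα0, α.2]
    refine Nat.card_le_card_of_injective (fun α : {α : E // (α : MulAut T) x = y} =>
      (⟨((α0⁻¹ * α.1 : E) : MulAut T), (α0⁻¹ * α.1 : E).2, h5 α⟩ :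
        Fx E (Subgroup.zpowers x))) ?_
    intro α β h6
    have h7 : ((α0⁻¹ * α.1 : E) : MulAut T) = ((α0⁻¹ * β.1 : E) : MulAut T) :=
      congrArg (Subtype.val : Fx E (Subgroup.zpowers x) → MulAut T) h6
    exact Subtype.ext (mul_left_cancel (Subtype.ext h7))
  have h6 : (univ.image fun α : E => (α : MulAut T) x).card ≤ p - 1 := by
    have h7 : (univ.image fun α : E => (α : MulAut T) x).card + 1 ≤ p := by
      refine le_trans ?_ hL.le
      rw [Nat.card_eq_fintype_card, Fintype.card_subtype]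
      have h8 : (1 : T) ∉ univ.image fun α : E => (α : MulAut T) x := by
        intro h
        obtain ⟨α, -, hα⟩ := mem_image.1 h
        exact hx1 ((α : MulAut T).injective (by rw [hα, map_one]))
      rw [← card_insert_of_notMem h8]
      refine card_le_card fun y hy => ?_
      rcases mem_insert.1 hy with rfl | hy
      · exact mem_filter.2 ⟨mem_univ _, one_mem _⟩
      · obtain ⟨α, -, rfl⟩ := mem_image.1 hy
        exact mem_filter.2 ⟨mem_univ _, hEL _ α.2 _ hx⟩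
    omega
  rw [card_univ, ← Nat.card_eq_fintype_card] at h3
  exact h3.trans (Nat.mul_le_mul_left _ h6)

end

end Pool.Agent.Lib.P0c8ca5.Ex.ZKr
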