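import Mathlib
import Pool.Agent.Lib.P0c8ca5Ex.ZF
import Pool.Agent.Lib.P0c8ca5Ku.KP

/-!
# ZFc: the stabilizer of a nontrivial character

`E` is a `p'`-group of automorphisms of the abelian `p`-group `T`. `stl_le`: the stabilizer in `E` of a
nontrivial character of `T` has order at most `p ^ (r * (r - 1) / 2)` if `T` has rank at most `r`;
`stl_lt`: this order is less than `p` if `T` has rank at most `2`.
-/

set_option linter.unusedSectionVars false

namespace Pool.Agent.Lib.P0c8ca5.Ex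

open Finset YLx YZx ZFx

namespace ZFc

section
variable {T : Type*} [CommGroup T] [Fintype T] {K : Type*} [Field K]

/-- the stabilizer of `l` in `E` -/
def stG (E : Subgroup (MulAut T)) (l : T →* Kˣ) : Subgroup (MulAut T) where
  carrier := {α | α ∈ E ∧ dl l α = l}
  mul_mem' := by
    rintro a b ⟨ha, ha'⟩ ⟨hb, hb'⟩
    refine ⟨E.mul_mem ha hb, ?_⟩
    rw [dl_mul, ha', hb']
  one_mem' := ⟨E.one_mem, dl_one l⟩
  inv_mem' := by
    rintro a ⟨ha, ha'⟩
    refine ⟨E.inv_mem ha, ?_⟩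
    conv_lhs => rw [← ha']
    rw [← dl_mul, mul_inv_cancel, dl_one]

theorem stG_le (E : Subgroup (MulAut T)) (l : T →* Kˣ) : stG E l ≤ E := fun _ h => h.1

theorem stl_card (E : Subgroup (MulAut T)) (l : T →* Kˣ) : stl E l = Nat.card (stG E l) := by
  unfold stl
  exact Nat.card_congr ⟨fun α => ⟨α.1, α.1.2, α.2⟩, fun α => ⟨⟨α.1, α.2.1⟩, α.2.2⟩,
    fun _ => rfl, fun _ => rfl⟩

theorem stl_dvd (E : Subgroup (MulAut T)) (l : T →* Kˣ) : stl E l ∣ Nat.card E := by
  rw [stl_card]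
  exact Subgroup.card_dvd_of_le (stG_le E l)

/-- the stabilizer of a nontrivial character fixes a nontrivial element -/
theorem exists_fix {p : ℕ} (hp : p.Prime) (hT : IsPGroup p T) {E : Subgroup (MulAut T)}
    (hpE : ¬ p ∣ Nat.card E) {l : T →* Kˣ} (hl : l ≠ 1) :
    ∃ x : T, x ≠ 1 ∧ l x ≠ 1 ∧ ∀ φ ∈ stG E l, φ x = x := by
  classical
  have hfin : Finite (stG E l) := by
    have : Finite (MulAut T) := Finite.of_injective (fun φ : MulAut T => (φ : T → T))
      (fun a b h => MulEquiv.ext fun x => congrFun h x)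
    infer_instance
  have := Fintype.ofFinite (stG E l)
  obtain ⟨u, hu⟩ : ∃ u, l u ≠ 1 := by
    by_contra h
    push Not at h
    exact hl (MonoidHom.ext h)
  have hx : l (∏ φ : stG E l, (φ : MulAut T) u) = l u ^ Nat.card (stG E l) := by
    rw [map_prod, Nat.card_eq_fintype_card, ← card_univ, ← prod_const]
    refine prod_congr rfl fun φ _ => ?_
    have h1 := φ.2.2
    exact DFunLike.congr_fun h1 u
  have hx1 : l (∏ φ : stG E l, (φ : MulAut T) u) ≠ 1 := by
    rw [hx]
    intro h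
    have h1 : orderOf (l u) ∣ Nat.card (stG E l) := orderOf_dvd_of_pow_eq_one h
    obtain ⟨n, hn⟩ := hT u
    have h2 : orderOf (l u) ∣ p ^ n := orderOf_dvd_of_pow_eq_one (by rw [← map_pow, hn, map_one])
    obtain ⟨m, -, hm⟩ := (Nat.dvd_prime_pow hp).1 h2
    rcases m with _ | m
    · rw [pow_zero] at hm
      exact hu (orderOf_eq_one_iff.1 hm)
    · apply hpE
      rw [hm] at h1
      exact (dvd_pow_self p (Nat.succ_ne_zero m)).trans
        (h1.trans (Subgroup.card_dvd_of_le (stG_le E l)))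
  refine ⟨_, fun h => hx1 (by rw [h, map_one]), hx1, fun φ hφ => ?_⟩
  rw [map_prod]
  exact Fintype.prod_equiv (Equiv.mulLeft (⟨φ, hφ⟩ : stG E l)) _ _ fun ψ => rfl

end

end ZFc

open ZFc

section
variable {T : Type*} [CommGroup T] [Fintype T] {K : Type*} [Field K] [CharZero K]
  [HasEnoughRootsOfUnity K (Monoid.exponent T)]

/-- **the stabilizer of a nontrivial character**, rank at most `r` -/
theorem stl_le {p : ℕ} (hp : p.Prime) (hT : IsPGroup p T) {E : Subgroup (MulAut T)}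
    (hpE : ¬ p ∣ Nat.card E) {r : ℕ} (hr : Nat.card {x : T // x ^ p = 1} ≤ p ^ r)
    {l : T →* Kˣ} (hl : l ≠ 1) : stl E l ≤ p ^ (r * (r - 1) / 2) := by
  obtain ⟨x, hx, -, hfix⟩ := exists_fix hp hT hpE hl
  rw [stl_card]
  exact Ku.fix_le hp hT (stG E l)
    (fun h => hpE (h.trans (Subgroup.card_dvd_of_le (stG_le E l)))) hr hx hfix

/-- **the stabilizer of a nontrivial character**, rank at most `2` -/
theorem stl_lt {p : ℕ} (hp : p.Prime) (hT : IsPGroup p T) {E : Subgroup (MulAut T)}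
    (hpE : ¬ p ∣ Nat.card E) (hr : Nat.card {x : T // x ^ p = 1} ≤ p ^ 2)
    {l : T →* Kˣ} (hl : l ≠ 1) : stl E l < p := by
  have h := stl_le hp hT hpE hr hl
  rw [show 2 * (2 - 1) / 2 = 1 from rfl, pow_one] at h
  refine lt_of_le_of_ne h fun h1 => hpE ?_
  rw [← h1]
  exact stl_dvd E l

/-- in rank at most `2` the characters which do not contribute -/
theorem stl_div_tau {p : ℕ} (hp : p.Prime) (hT : IsPGroup p T) {E : Subgroup (MulAut T)}
    (hpE : ¬ p ∣ Nat.card E) (hr : Nat.card {x : T // x ^ p = 1} ≤ p ^ 2)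
    {l : T →* Kˣ} (hl : pw l p ≠ 1) : stl E l < tau p l ∧ stl E l / tau p l = 0 := by
  have hl1 : l ≠ 1 := by
    rintro rfl
    exact hl rfl
  have h1 := stl_lt hp hT hpE hr hl1
  have h2 : p ≤ tau p l := by
    obtain ⟨a, ha⟩ := od_pow hp hT l
    have ha2 : 2 ≤ a := by
      by_contra h
      apply hl
      have h3 : p ≡ 0 [MOD od l] := by
        rw [Nat.modEq_zero_iff_dvd, ha]
        calc p ^ a ∣ p ^ 1 := pow_dvd_pow p (by omega)
          _ = p := pow_one p
      rw [pw_eq_iff.2 h3]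
      ext u
      rw [pw_apply, pow_zero, map_one]
      rfl
    obtain ⟨b, rfl⟩ : ∃ b, a = b + 2 := ⟨a - 2, by omega⟩
    unfold tau
    refine le_trans ?_ (le_max_right _ _)
    rw [ha, show p ^ (b + 2) = p * p ^ (b + 1) by ring, Nat.mul_div_cancel_left _ hp.pos]
    exact Nat.le_self_pow (Nat.succ_ne_zero b) p
  exact ⟨lt_of_lt_of_le h1 h2, Nat.div_eq_of_lt (lt_of_lt_of_le h1 h2)⟩

end

end Pool.Agent.Lib.P0c8ca5.Ex
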