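import Mathlib
import Pool.Agent.Lib.P0c8ca5Ex.ZFc

/-!
# ZFd: stabilizers in rank at most two

`E` is a `p'`-group of automorphisms of the abelian `p`-group `T` of rank at most `2` which fixes an element
`u ≠ 1`. `cyc_of_fix`: `E` is cyclic. `st_lt`: the stabilizer of `u ≠ 1` has order less than `p`.
-/

set_option linter.unusedSectionVars false

namespace Pool.Agent.Lib.P0c8ca5.Ex

open Finset YLx YZx ZFx

/-- a `p'`-group of automorphisms which fixes a nontrivial element is cyclic, rank at most `2` -/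
theorem cyc_of_fix {T : Type*} [CommGroup T] [Fintype T] {p : ℕ} (hp : p.Prime) (hT : IsPGroup p T)
    {E' : Subgroup (MulAut T)} (hpE : ¬ p ∣ Nat.card E')
    (hr : Nat.card {x : T // x ^ p = 1} ≤ p ^ 2) {u : T} (hu : u ≠ 1) (hfix : ∀ α ∈ E', α u = u) :
    IsCyclic E' := by
  classical
  have hpf : Fact p.Prime := ⟨hp⟩
  have hEfin : Finite E' := by
    have : Finite (MulAut T) := Finite.of_injective (fun φ : MulAut T => (φ : T → T))
      (fun a b h => MulEquiv.ext fun x => congrFun h x)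
    infer_instance
  have := Fintype.ofFinite E'
  -- an element of order `p`
  obtain ⟨y, hy, hy1, hyp⟩ := Ku.exists_order hT (H := Subgroup.zpowers u) (by
    intro h
    apply hu
    have h1 : u ∈ (⊥ : Subgroup T) := by
      rw [← h]
      exact Subgroup.mem_zpowers u
    exact Subgroup.mem_bot.1 h1)
  have hyF : ∀ φ ∈ E', φ y = y := by
    intro φ hφ
    obtain ⟨k, rfl⟩ := hy
    change φ (u ^ k) = u ^ k
    rw [map_zpow, hfix φ hφ]
  -- the norm
  let N : T →* T :=
    { toFun := fun y => ∏ φ : E', (φ : MulAut T) y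
      map_one' := by simp
      map_mul' := fun y z => by
        rw [← prod_mul_distrib]
        exact prod_congr rfl fun φ _ => map_mul _ _ _ }
  have hN : ∀ φ ∈ E', ∀ y, N (φ y) = N y := by
    intro φ hφ y
    change ∏ ψ : E', (ψ : MulAut T) (φ y) = ∏ ψ : E', (ψ : MulAut T) y
    exact Fintype.prod_equiv (Equiv.mulRight (⟨φ, hφ⟩ : E')) _ _ fun ψ => rfl
  have hyK : y ∉ N.ker := by
    intro h
    rw [MonoidHom.mem_ker] at h
    have h1 : N y = y ^ Nat.card E' := by
      change ∏ φ : E', (φ : MulAut T) y = _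
      rw [prod_congr rfl fun (φ : E') _ => hyF φ φ.2, prod_const, card_univ,
        Nat.card_eq_fintype_card]
    rw [h1] at h
    have h2 : orderOf y ∣ Nat.card E' := orderOf_dvd_of_pow_eq_one h
    rw [orderOf_eq_prime hyp hy1] at h2
    exact hpE h2
  -- the elements of order `p` of the kernel
  set S : Subgroup T := N.ker ⊓ (powMonoidHom p : T →* T).ker with hS
  have hSmem : ∀ w, w ∈ S ↔ N w = 1 ∧ w ^ p = 1 := by
    intro w
    rw [hS, Subgroup.mem_inf, MonoidHom.mem_ker, MonoidHom.mem_ker, powMonoidHom_apply]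
  have hSE : ∀ φ ∈ E', ∀ w ∈ S, φ w ∈ S := by
    intro φ hφ w hw
    rw [hSmem] at hw ⊢
    exact ⟨by rw [hN φ hφ, hw.1], by rw [← map_pow, hw.2, map_one]⟩
  have hinj : Function.Injective (Ku.resG E' S hSE) := by
    rw [injective_iff_map_eq_one]
    intro φ hφ
    apply Subtype.ext
    have hφn : (φ : MulAut T) ^ Nat.card E' = 1 := by
      have h5 : φ ^ Nat.card E' = 1 := pow_card_eq_one'
      exact congrArg Subtype.val h5
    refine Ku.faithful hp hT hφn hpE fun w hw => ?_
    have h1 : w⁻¹ * (φ : MulAut T) w ∈ S := by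
      rw [hSmem]
      refine ⟨by rw [map_mul, map_inv, hN φ φ.2, inv_mul_cancel], ?_⟩
      rw [mul_pow, inv_pow, hw, inv_one, one_mul, ← map_pow, hw, map_one]
    have h2 : (φ : MulAut T) (w⁻¹ * (φ : MulAut T) w) = w⁻¹ * (φ : MulAut T) w := by
      have h3 := DFunLike.congr_fun hφ ⟨_, h1⟩
      exact congrArg Subtype.val h3
    have h5 := Ku.fix_cm hp hT hφn hpE (w := w⁻¹ * (φ : MulAut T) w) ⟨w, rfl⟩ h2
    exact (inv_mul_eq_one.1 h5).symm
  -- its order is at most `p`
  have hcard : Nat.card S ≤ p := by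
    have h1 := (Ku.omega_lt hp hyp hyK).trans hr
    rw [pow_two] at h1
    have h2 := Nat.le_of_mul_le_mul_left h1 hp.pos
    refine le_trans ?_ h2
    refine Nat.card_le_card_of_injective
      (fun w : S => (⟨⟨w.1, (hSmem w.1).1 w.2 |>.1⟩, Subtype.ext ((hSmem w.1).1 w.2).2⟩ :
        {y : N.ker // y ^ p = 1})) fun w w' h => ?_
    have h3 := congrArg (fun z : {y : N.ker // y ^ p = 1} => ((z.1 : N.ker) : T)) h
    exact Subtype.ext h3
  have hSp : IsPGroup p S := hT.to_subgroup S
  obtain ⟨n, hn⟩ := IsPGroup.iff_card.1 hSp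
  have hn1 : n ≤ 1 := by
    rw [hn] at hcard
    by_contra h
    have h1 : p ^ 2 ≤ p ^ n := Nat.pow_le_pow_right hp.pos (by omega)
    have h2 : p < p ^ 2 := by
      rw [pow_two]
      exact lt_mul_self hp.one_lt
    omega
  have hScyc : IsCyclic S := by
    rcases Nat.eq_zero_or_pos n with h0 | h0
    · rw [h0, pow_zero] at hn
      have : Subsingleton S := (Nat.card_eq_one_iff_unique.1 hn).1
      exact isCyclic_of_subsingleton
    · have h1 : n = 1 := by omega
      rw [h1, pow_one] at hn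
      exact isCyclic_of_prime_card hn
  have hA : IsCyclic (MulAut S) := by
    have e := IsCyclic.mulAutMulEquiv S
    rcases Nat.eq_zero_or_pos n with h0 | h0
    · rw [h0, pow_zero] at hn
      have h2 : Subsingleton S := (Nat.card_eq_one_iff_unique.1 hn).1
      have : Subsingleton (MulAut S) := ⟨fun a b => MulEquiv.ext fun x => Subsingleton.elim _ _⟩
      exact isCyclic_of_subsingleton
    · have h1 : n = 1 := by omega
      rw [h1, pow_one] at hn
      rw [hn] at e
      exact isCyclic_of_injective e.toMonoidHom e.injective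
  exact isCyclic_of_injective _ hinj

/-- the stabilizer of `u ≠ 1` has order less than `p`, rank at most `2` -/
theorem st_lt {T : Type*} [CommGroup T] [Fintype T] {p : ℕ} (hp : p.Prime) (hT : IsPGroup p T)
    {E : Subgroup (MulAut T)} (hpE : ¬ p ∣ Nat.card E)
    (hr : Nat.card {x : T // x ^ p = 1} ≤ p ^ 2) {u : T} (hu : u ≠ 1) : st E u < p := by
  let F : Subgroup (MulAut T) :=
    { carrier := {α | α ∈ E ∧ α u = u}
      mul_mem' := by
        rintro a b ⟨ha, ha'⟩ ⟨hb, hb'⟩
        exact ⟨E.mul_mem ha hb, by rw [MulAut.mul_apply, hb', ha']⟩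
      one_mem' := ⟨E.one_mem, rfl⟩
      inv_mem' := by
        rintro a ⟨ha, ha'⟩
        refine ⟨E.inv_mem ha, ?_⟩
        conv_lhs => rw [← ha']
        exact MulAut.inv_apply_self _ _ _ }
  have hFE : F ≤ E := fun _ h => h.1
  have hst : st E u = Nat.card F := by
    unfold st
    exact Nat.card_congr ⟨fun α => ⟨α.1, α.1.2, α.2⟩, fun α => ⟨⟨α.1, α.2.1⟩, α.2.2⟩,
      fun _ => rfl, fun _ => rfl⟩
  have hpF : ¬ p ∣ Nat.card F := fun h => hpE (h.trans (Subgroup.card_dvd_of_le hFE))
  have h := Ku.fix_le hp hT F hpF hr hu fun φ hφ => hφ.2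
  rw [show 2 * (2 - 1) / 2 = 1 from rfl, pow_one] at h
  rw [hst]
  exact lt_of_le_of_ne h fun h1 => hpF (by rw [h1])

end Pool.Agent.Lib.P0c8ca5.Ex
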