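import Mathlib
import Pool.Agent.Lib.P0c8ca5Ex.ZB
import Pool.Agent.Lib.P0c8ca5Ku.KP

/-!
# ZKb: `Big` at all subgroups `Q ≠ ⊥, ⊤`, any rank (K2)

`big_of`, `big_of_st`: from a bound for the stabilizers. `big_all`: if the rank of `T` is at most `r`, each nontrivial element of the `p'`-group `E` moves
some element by an element of order at least `p ^ m`, and `r * (r - 1) + 1 ≤ m`, then
`Big K p (p ^ m) E Q` for all `Q ≠ ⊥, ⊤`.
-/

set_option autoImplicit false
set_option linter.unusedSectionVars false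

namespace Pool.Agent.Lib.P0c8ca5.Ex

open Finset

namespace ZKb

theorem two_tri (r : ℕ) : 2 * (r * (r - 1) / 2) = r * (r - 1) :=
  Nat.mul_div_cancel' (Nat.even_mul_pred_self r).two_dvd

section
variable {T : Type*} [CommGroup T] [Fintype T] {p m : ℕ}

/-- the order of the range of `φ - 1` -/
theorem pow_dvd_range (hp : p.Prime) (hT : IsPGroup p T) (hm : 1 ≤ m) {φ : MulAut T} {u : T}
    (hu : (u⁻¹ * φ u) ^ p ^ (m - 1) ≠ 1) : p ^ m ∣ Nat.card (Ku.cm φ).range := by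
  have hpf : Fact p.Prime := ⟨hp⟩
  obtain ⟨k, hk⟩ := (IsPGroup.iff_orderOf.1 hT) (u⁻¹ * φ u)
  have hkm : m ≤ k := by
    by_contra hcon
    apply hu
    have h1 : k ≤ m - 1 := by omega
    exact orderOf_dvd_iff_pow_eq_one.1 (by rw [hk]; exact pow_dvd_pow p h1)
  have h2 : orderOf (u⁻¹ * φ u) ∣ Nat.card (Ku.cm φ).range := by
    have h3 : (u⁻¹ * φ u) ∈ (Ku.cm φ).range := ⟨u, rfl⟩
    have h4 := orderOf_dvd_natCard (⟨_, h3⟩ : (Ku.cm φ).range)
    rwa [Subgroup.orderOf_mk] at h4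
  exact (pow_dvd_pow p hkm).trans (by rw [← hk]; exact h2)

/-- the range of `φ - 1` and the subgroups fixed by `φ` -/
theorem range_mul_dvd (hp : p.Prime) (hT : IsPGroup p T) {φ : MulAut T} {n : ℕ} (hn : φ ^ n = 1)
    (hpn : ¬ p ∣ n) {Q : Subgroup T} (hQ : ∀ t ∈ Q, φ t = t) :
    Nat.card (Ku.cm φ).range * Nat.card Q ∣ Fintype.card T := by
  rw [← Nat.card_prod, ← Nat.card_eq_fintype_card]
  refine Subgroup.card_dvd_of_injective
    (((Ku.cm φ).range.subtype).coprod (Q.subtype)) ?_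
  rw [injective_iff_map_eq_one]
  rintro ⟨⟨w, hw⟩, ⟨t, ht⟩⟩ h
  have h1 : w * t = 1 := h
  have h2 : w = t⁻¹ := eq_inv_of_mul_eq_one_left h1
  have h3 : w = 1 := Ku.fix_cm hp hT hn hpn hw (by
    rw [h2]
    exact hQ _ (Q.inv_mem ht))
  have h4 : t = 1 := by
    rw [h3, one_mul] at h1
    exact h1
  exact Prod.ext (Subtype.ext h3) (Subtype.ext h4)

theorem Fx_le (E : Subgroup (MulAut T)) (Q : Subgroup T) : Fx E Q ≤ E := fun _ h => h.1

theorem arith {P f p q : ℕ} (hp : 3 ≤ p) (hP : 3 ≤ P) (hf : f ≤ P - 1) (hq : P * P * p ≤ q) :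
    f * (f + 3) + (f - 1) < q := by
  obtain ⟨a, rfl⟩ : ∃ a, P = a + 1 := ⟨P - 1, by omega⟩
  rw [Nat.add_sub_cancel] at hf
  have h1 : f * (f + 3) ≤ a * (a + 3) := Nat.mul_le_mul hf (by omega)
  have h2 : (a + 1) * (a + 1) * 3 ≤ (a + 1) * (a + 1) * p := Nat.mul_le_mul_left _ hp
  have h3 : (a + 1) * (a + 1) * 3 = 3 * (a * a) + 6 * a + 3 := by ring
  have h4 : a * (a + 3) = a * a + 3 * a := by ring
  omega

end

section
variable {T : Type*} [CommGroup T] [Fintype T] {K : Type*} [Field K] [CharZero K]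
  [HasEnoughRootsOfUnity K (Monoid.exponent T)] {E : Subgroup (MulAut T)} {Q : Subgroup T}
  {p r m : ℕ}

/-- **`Big` at `Q ≠ ⊤`** from a bound for the number of the elements which fix `Q` -/
theorem big_of {i : ℕ} (hp : p.Prime) (hp2 : p ≠ 2) (hT : IsPGroup p T) (hpE : ¬ p ∣ Nat.card E)
    (hle : Nat.card (Fx E Q) ≤ p ^ i)
    (hf : ∀ φ ∈ E, φ ≠ 1 → ∃ u, (u⁻¹ * φ u) ^ p ^ (m - 1) ≠ 1)
    (hm : 2 * i + 1 ≤ m) (hQ' : Q ≠ ⊤) : Big K p (p ^ m) E Q := by
  classical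
  have hpf : Fact p.Prime := ⟨hp⟩
  have hp3 : 3 ≤ p := by
    have := hp.two_le
    omega
  have hm1 : 1 ≤ m := by omega
  have hfin : Finite (MulAut T) := Finite.of_injective (fun φ : MulAut T => (φ : T → T))
    (fun a b h => MulEquiv.ext fun x => congrFun h x)
  have hfE : Nat.card (Fx E Q) ∣ Nat.card E := Subgroup.card_dvd_of_le (Fx_le E Q)
  have hpF : ¬ p ∣ Nat.card (Fx E Q) := fun h => hpE (h.trans hfE)
  have hFQ : ∀ α ∈ Fx E Q, ∀ z ∈ Q, α z = z := fun α hα => hα.2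
  have hpos : 0 < Nat.card (Fx E Q) := Nat.card_pos
  have hpm3 : 3 ≤ p ^ m := by
    calc 3 ≤ p := hp3
      _ = p ^ 1 := (pow_one p).symm
      _ ≤ p ^ m := Nat.pow_le_pow_right hp.pos hm1
  have hcT : Fintype.card T = Nat.card Q * Q.index := by
    rw [← Nat.card_eq_fintype_card, Subgroup.card_mul_index]
  have hQ0 : 0 < Nat.card Q := Nat.card_pos
  rcases Nat.eq_or_lt_of_le (show 1 ≤ Nat.card (Fx E Q) from hpos) with h1 | h1
  · -- no nontrivial element
    refine ⟨?_, ?_, Or.inl h1.symm⟩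
    · have hidx1 : Q.index ≠ 1 := fun h => hQ' (Subgroup.index_eq_one.1 h)
      obtain ⟨k, hk⟩ := (hT.index Q)
      have hk0 : k ≠ 0 := by
        rintro rfl
        rw [pow_zero] at hk
        exact hidx1 hk
      by_cases h3 : Q.index = 3
      · refine Or.inr ⟨h1.symm, ?_⟩
        rw [hcT, h3, mul_comm]
      · have h5 : 5 ≤ Q.index := by
          have h6 : p ∣ Q.index := by
            rw [hk]
            exact dvd_pow_self p hk0
          have hodd : ¬ 2 ∣ Q.index := by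
            intro h2
            rw [hk] at h2
            have h7 := Nat.prime_two.dvd_of_dvd_pow h2
            exact hp2 ((Nat.prime_dvd_prime_iff_eq Nat.prime_two hp).1 h7).symm
          have h8 : 0 < Q.index := Nat.pos_of_ne_zero Subgroup.index_ne_zero_of_finite
          have h9 : Q.index ≠ 1 := hidx1
          omega
        refine many_of hp hT hpF hFQ (q := 1) (fun α _ _ => Nat.card_pos) ?_
        rw [← h1, hcT]
        have h10 : Nat.card Q * 5 ≤ Nat.card Q * Q.index := Nat.mul_le_mul_left _ h5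
        omega
    · rw [← h1, one_pow]
      have h2 : p ^ m * 1 ≤ p ^ m * (p - 1) := Nat.mul_le_mul_left _ (by omega)
      omega
  · -- a nontrivial element
    have hnt : ∃ φ ∈ Fx E Q, φ ≠ 1 := by
      by_contra hcon
      push Not at hcon
      have h2 : Fx E Q = ⊥ := (Subgroup.eq_bot_iff_forall _).2 hcon
      rw [h2, Subgroup.card_bot] at h1
      exact absurd h1 (lt_irrefl _)
    have hpowF : ∀ φ ∈ Fx E Q, φ ^ Nat.card (Fx E Q) = 1 := by
      intro φ hφ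
      have h2 : (⟨φ, hφ⟩ : Fx E Q) ^ Nat.card (Fx E Q) = 1 := pow_card_eq_one'
      exact congrArg Subtype.val h2
    have hrange : ∀ φ ∈ Fx E Q, φ ≠ 1 → p ^ m ∣ Nat.card (Ku.cm φ).range := by
      intro φ hφ hφ1
      obtain ⟨u, hu⟩ := hf φ hφ.1 hφ1
      exact pow_dvd_range hp hT hm1 hu
    obtain ⟨φ, hφ, hφ1⟩ := hnt
    have hdvd : p ^ m * Nat.card Q ∣ Fintype.card T :=
      (Nat.mul_dvd_mul_right (hrange φ hφ hφ1) _).trans
        (range_mul_dvd hp hT (hpowF φ hφ) hpF (hFQ φ hφ))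
    obtain ⟨c, hc⟩ := hdvd
    have hc0 : 1 ≤ c := by
      rcases Nat.eq_zero_or_pos c with h2 | h2
      · rw [h2, mul_zero] at hc
        exact absurd hc Fintype.card_ne_zero
      · exact h2
    -- the numbers
    have hj0 : i ≠ 0 := by
      intro h0
      rw [h0, pow_zero] at hle
      omega
    have hne : Nat.card (Fx E Q) ≠ p ^ i := by
      intro h2
      apply hpF
      rw [h2]
      exact dvd_pow_self p hj0
    have hlt : Nat.card (Fx E Q) ≤ p ^ i - 1 := by omega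
    have hP3 : 3 ≤ p ^ i := by
      calc 3 ≤ p := hp3
        _ = p ^ 1 := (pow_one p).symm
        _ ≤ p ^ i := Nat.pow_le_pow_right hp.pos (by omega)
    have hPm : p ^ i * p ^ i * p ≤ p ^ m := by
      rw [← pow_add, ← pow_succ]
      exact Nat.pow_le_pow_right hp.pos (by omega)
    refine ⟨?_, ?_, Or.inr ⟨c, hc⟩⟩
    · refine many_of hp hT hpF hFQ (q := p ^ m)
        (fun α hα hα1 => Nat.le_of_dvd Nat.card_pos (hrange α hα hα1)) ?_
      have h3 := arith hp3 hP3 hlt hPm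
      set f := Nat.card (Fx E Q) with hfdef
      set n := Nat.card Q with hndef
      rw [hc]
      have h4 : p ^ m * (f * (f + 3)) * n + (f - 1) * (p ^ m * n * c)
          ≤ p ^ m * n * (c * (f * (f + 3) + (f - 1))) := by
        have h5 : p ^ m * (f * (f + 3)) * n ≤ p ^ m * n * (c * (f * (f + 3))) := by
          calc p ^ m * (f * (f + 3)) * n = p ^ m * n * (1 * (f * (f + 3))) := by ring
            _ ≤ p ^ m * n * (c * (f * (f + 3))) :=
              Nat.mul_le_mul_left _ (Nat.mul_le_mul_right _ hc0)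
        calc p ^ m * (f * (f + 3)) * n + (f - 1) * (p ^ m * n * c)
            ≤ p ^ m * n * (c * (f * (f + 3))) + (f - 1) * (p ^ m * n * c) :=
              Nat.add_le_add_right h5 _
          _ = p ^ m * n * (c * (f * (f + 3) + (f - 1))) := by ring
      have hpos2 : 0 < p ^ m * n := Nat.mul_pos (by omega) hQ0
      calc p ^ m * (f * (f + 3)) * n + (f - 1) * (p ^ m * n * c)
          ≤ p ^ m * n * (c * (f * (f + 3) + (f - 1))) := h4
        _ < p ^ m * n * (c * p ^ m) :=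
          Nat.mul_lt_mul_of_pos_left (Nat.mul_lt_mul_of_pos_left h3 hc0) hpos2
        _ = p ^ m * (p ^ m * n * c) := by ring
    · have h3 : (Nat.card (Fx E Q)) ^ 2 ≤ p ^ i * p ^ i := by
        rw [sq]
        exact Nat.mul_le_mul hle hle
      have h4 : p ^ i * p ^ i * 1 < p ^ i * p ^ i * p :=
        Nat.mul_lt_mul_of_pos_left (by omega) (by positivity)
      have h5 : p ^ m * 1 ≤ p ^ m * (p - 1) := Nat.mul_le_mul_left _ (by omega)
      omega

/-- **`Big` at all subgroups `Q ≠ ⊥, ⊤`** from a bound for the stabilizers, in the shape with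
`p ^ (m + 1)` -/
theorem big_of_st {i : ℕ} (hp : p.Prime) (hp2 : p ≠ 2) (hT : IsPGroup p T)
    (hpE : ¬ p ∣ Nat.card E) (hst : ∀ Q : Subgroup T, Q ≠ ⊥ → Nat.card (Fx E Q) ≤ p ^ i)
    (hf : ∀ φ ∈ E, φ ≠ 1 → ∃ u, (u⁻¹ * φ u) ^ p ^ m ≠ 1)
    (hm : 2 * i ≤ m) (hQ : Q ≠ ⊥) (hQ' : Q ≠ ⊤) : Big K p (p ^ (m + 1)) E Q :=
  big_of (m := m + 1) hp hp2 hT hpE (hst Q hQ) (by rw [Nat.add_sub_cancel]; exact hf) (by omega) hQ'

/-- **`Big` at all subgroups `Q ≠ ⊥, ⊤`**, rank at most `r` -/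
theorem big_all (hp : p.Prime) (hp2 : p ≠ 2) (hT : IsPGroup p T) (hpE : ¬ p ∣ Nat.card E)
    (hr : Nat.card {x : T // x ^ p = 1} ≤ p ^ r)
    (hf : ∀ φ ∈ E, φ ≠ 1 → ∃ u, (u⁻¹ * φ u) ^ p ^ (m - 1) ≠ 1)
    (hm : r * (r - 1) + 1 ≤ m) (hQ : Q ≠ ⊥) (hQ' : Q ≠ ⊤) : Big K p (p ^ m) E Q := by
  have hpF : ¬ p ∣ Nat.card (Fx E Q) := fun h =>
    hpE (h.trans (Subgroup.card_dvd_of_le (Fx_le E Q)))
  obtain ⟨x, hxQ, hx1⟩ := (Subgroup.ne_bot_iff_exists_ne_one).1 hQ |>.elim fun a ha =>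
    (⟨a.1, a.2, fun h => ha (Subtype.ext h)⟩ : ∃ x ∈ Q, x ≠ 1)
  have h2 := two_tri r
  exact big_of (i := r * (r - 1) / 2) hp hp2 hT hpE
    (Ku.fix_le hp hT (Fx E Q) hpF hr hx1 fun φ hφ => hφ.2 x hxQ) hf (by omega) hQ'

end

end ZKb

end Pool.Agent.Lib.P0c8ca5.Ex
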