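import Mathlib
import Pool.Agent.Lib.P0c8ca5Ex.ZJ
import Pool.Agent.Lib.P0c8ca5Ex.ZFc
import Pool.Agent.Lib.P0c8ca5Ku.KN

/-!
# ZMa: preparations for the last step of K2

* `faith_T`: `Ku.Faith p n D f` for `T`.
* `range_ge`: then `|[T, φ]| ≥ p ^ (n + 1)`.
* `exists_reg_of`: a regular element.
* `l_eq_of`: `l(b) ≤ |E| < p ^ (n + 1)` and `Ku.Faith p n D f` imply that `gap` is `0`.
-/

set_option linter.unusedSectionVars false

namespace Pool.Agent.Lib.P0c8ca5.Ex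

open MonoidAlgebra Kq Kk

namespace ZMAux

section
variable {T : Type*} [CommGroup T] [Fintype T] {p : ℕ}

theorem range_ge (hp : p.Prime) (hT : IsPGroup p T) {φ : MulAut T} {m : ℕ}
    (h : ∃ u : T, (u⁻¹ * φ u) ^ p ^ m ≠ 1) : p ^ (m + 1) ≤ Nat.card (Ku.cm φ).range := by
  obtain ⟨u, hu⟩ := h
  obtain ⟨N, hN⟩ := hT (u⁻¹ * φ u)
  obtain ⟨N, -, hN⟩ := (Nat.dvd_prime_pow hp).1 (orderOf_dvd_of_pow_eq_one hN)
  have hle : m + 1 ≤ N := by
    by_contra hcon
    push Not at hcon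
    apply hu
    refine orderOf_dvd_iff_pow_eq_one.1 ?_
    rw [hN]
    exact pow_dvd_pow p (by omega)
  have h1 : Subgroup.zpowers (u⁻¹ * φ u) ≤ (Ku.cm φ).range :=
    (Subgroup.zpowers_le).2 ⟨u, Ku.cm_apply φ u⟩
  have h2 := Subgroup.card_le_of_le h1
  rw [Nat.card_zpowers, hN] at h2
  exact (Nat.pow_le_pow_right hp.pos hle).trans h2

theorem exists_reg_of (E : Subgroup (MulAut T)) {q : ℕ}
    (hq : ∀ φ ∈ E, φ ≠ 1 → q ≤ Nat.card (Ku.cm φ).range) (hE : Nat.card E ≤ q)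
    (hT : 1 < Nat.card T) : ∃ u : T, u ≠ 1 ∧ st E u = 1 := by
  classical
  have : Fintype E := Fintype.ofFinite _
  rw [Nat.card_eq_fintype_card] at hE
  have h0 : 0 < Fintype.card E := Fintype.card_pos
  have h1 := card_reg_ge (Λ := T) (E := E) (q := q) (fun h hh => by
    have h2 := Ku.card_ker_mul_range (Ku.cm (h : MulAut T))
    have h3 : (Finset.univ.filter fun a : T => h • a = a).card
        = Nat.card (Ku.cm (h : MulAut T)).ker := by
      rw [Nat.card_eq_fintype_card, ← Fintype.card_coe]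
      refine Fintype.card_congr (Equiv.subtypeEquivRight fun a => ?_)
      rw [Finset.mem_filter, MonoidHom.mem_ker, Ku.cm_apply, inv_mul_eq_one]
      exact ⟨fun h4 => h4.2.symm, fun h4 => ⟨Finset.mem_univ _, h4.symm⟩⟩
    rw [h3, ← Nat.card_eq_fintype_card (α := T), ← h2, mul_comm]
    exact Nat.mul_le_mul_left _ (hq _ h.2 fun h4 => hh (Subtype.ext h4)))
  have hst : ∀ a : T, nn E a a = 1 → st E a = 1 := by
    intro a ha
    unfold nn at ha
    have h2 : (Finset.univ.filter fun h : E => h • a = a).card = 1 := by exact_mod_cast ha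
    rw [st, Nat.card_eq_fintype_card, ← h2, Fintype.card_subtype]
    rfl
  have h2 : 0 < (Finset.univ.filter fun a : T => nn E a a = 1).card := by
    by_contra hcon
    push Not at hcon
    have h3 := Nat.le_zero.1 hcon
    rw [h3, mul_zero, zero_add] at h1
    have h4 : 0 < Fintype.card T := Fintype.card_pos
    have h5 := Nat.le_of_mul_le_mul_right h1 h4
    omega
  obtain ⟨u, hu⟩ := Finset.card_pos.1 h2
  have hu1 := hst u (Finset.mem_filter.1 hu).2
  by_cases hu2 : u = 1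
  · rw [Nat.card_eq_fintype_card] at hT
    obtain ⟨v, hv⟩ := Fintype.exists_ne_of_one_lt_card hT (1 : T)
    refine ⟨v, hv, ?_⟩
    have h3 : ∀ α ∈ E, α = 1 := by
      intro α hα
      rw [hu2, st, Nat.card_eq_one_iff_unique] at hu1
      obtain ⟨h4, -⟩ := hu1
      have h5 := @Subsingleton.elim _ h4 ⟨⟨α, hα⟩, map_one α⟩ ⟨1, rfl⟩
      exact congrArg (fun z : {φ : E // (φ : MulAut T) 1 = 1} => ((z : E) : MulAut T)) h5
    rw [st, Nat.card_eq_one_iff_unique]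
    refine ⟨⟨fun a b => Subtype.ext (Subtype.ext ?_)⟩, ⟨⟨1, rfl⟩⟩⟩
    rw [h3 _ a.1.2, h3 _ b.1.2]
  · exact ⟨u, hu2, hu1⟩

end

section
variable {p : ℕ} [Fact p.Prime] {k : Type*} [Field k] [IsAlgClosed k] [CharP k p]
  {A : Type*} [Group A] [Finite A] {T : Type*} [CommGroup T] [Fintype T]
  {φ : T →* A} {b f i : MonoidAlgebra k A} {D : Subgroup A}

theorem faith_T (hφ : Function.Injective φ) (hr : ∀ x, x ∈ D ↔ ∃ t, φ t = x) {n : ℕ}
    (hF : Ku.Faith p n D f) : ∀ α ∈ EG φ D f, α ≠ 1 → ∃ u : T, (u⁻¹ * α u) ^ p ^ n ≠ 1 := by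
  intro α hα hα1
  by_contra hcon
  push Not at hcon
  apply hα1
  obtain ⟨g, hg, hαg⟩ := hα
  have h1 : g ∈ CD D := by
    refine hF g hg fun y hy => ?_
    obtain ⟨t, rfl⟩ := (hr y).1 hy
    have h2 := hcon t
    rw [mul_pow, inv_pow, ← map_pow, inv_mul_eq_one] at h2
    have h3 := hαg (t ^ p ^ n)
    rw [← h2, map_pow] at h3
    exact (eq_mul_inv_iff_mul_eq.1 h3).symm
  ext t
  apply hφ
  rw [hαg t, MulAut.one_apply, ← Subgroup.mem_centralizer_iff.1 h1 (φ t) ((hr _).2 ⟨t, rfl⟩),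
    mul_inv_cancel_right]

end

end ZMAux

section
variable {p : ℕ} [Fact p.Prime] {k : Type*} [Field k] [IsAlgClosed k] [CharP k p]
  {A : Type*} [Group A] [Fintype A] {b f i : MonoidAlgebra k A} {D : Subgroup A}

/-- `l(b) ≤ |E| < p ^ (n + 1)` -/
theorem l_eq_of (hp2 : p ≠ 2) (h : Root p b D f) {n : ℕ} (hF : Ku.Faith p n D f)
    (hl : Nat.card (Quotient (irrInvSetoid (⊤ : Subgroup A) ⊤ b)) ≤ p ^ (n + 1))
    (hE : eN D f ≤ p ^ (n + 1)) :
    gap p (⊤ : Subgroup A) ⊤ b = 0 ∧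
      Nat.card (Quotient (irrInvSetoid (⊤ : Subgroup A) ⊤ b)) ≤ eN D f := by
  obtain ⟨j, hj⟩ := exists_src h
  have h1 := Ku.l_kap_dvd' hp2 h hF
  rw [card_top h.blk] at hl
  have h3 : kap D b ≤ p ^ (n + 1) := (kap_le hj).trans hE
  have h4 : 0 < Nat.card (IrX (⊤ : Subgroup A) b) := card_irX_pos h.blk
  have h5 : 0 < kap D b := kap_pos h
  have key : Nat.card (IrX (⊤ : Subgroup A) b) = kap D b := by
    have h7 : (Nat.card (IrX (⊤ : Subgroup A) b) : ℤ) - (kap D b : ℤ) = 0 := by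
      refine Int.eq_zero_of_abs_lt_dvd h1 ?_
      rw [abs_lt]
      constructor <;> omega
    omega
  refine ⟨?_, ?_⟩
  · rw [Ku.gap_val h, key, sub_self, Int.cast_zero]
  · rw [card_top h.blk, key]
    exact kap_le hj

end

end Pool.Agent.Lib.P0c8ca5.Ex
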