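import Mathlib
import Pool.Agent.Lib.P0c8ca5Ex.ZMa
import Pool.Agent.Lib.P0c8ca5Ex.ZGc
import Pool.Agent.Lib.P0c8ca5Ex.ZKb
import Pool.Agent.Lib.P0c8ca5Ex.ZKr
import Pool.Agent.Lib.P0c8ca5Ex.ZFd

/-!
# ZM: blocks with abelian defect groups of rank two

`l_le_two_src`: `l(b) ≤ |E|` from the conditions `BigX` at the subgroups `≠ ⊥, ⊤` and `Many` or `Thin` at `⊥`, rank at most `2`.
`k2_two`: if the rank of `D` is at most `2` and `E` acts faithfully on the `p ^ 2`-th powers of `D` then `l(b)` is the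
number of weights and at most `|E|`.
-/

set_option linter.unusedSectionVars false

namespace Pool.Agent.Lib.P0c8ca5.Ex

open MonoidAlgebra Kq Kk ZMAux

section
variable {p : ℕ} [Fact p.Prime] {k : Type*} [Field k] [IsAlgClosed k] [CharP k p]
  {A : Type*} [Group A] [Fintype A] {T : Type*} [CommGroup T] [Fintype T]
  {φ : T →* A} {b f i : MonoidAlgebra k A} {D : Subgroup A}

theorem l_le_two_src {q : ℕ} (hp2 : p ≠ 2) (hpq : p ∣ q) (h : Src p b D f i)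
    (hφ : Function.Injective φ) (hr : ∀ x, x ∈ D ↔ ∃ t, φ t = x) (hpE : ¬ p ∣ eN D f)
    (hrk : Nat.card {x : T // x ^ p = 1} ≤ p ^ 2)
    (hreg : ∃ u : T, u ≠ 1 ∧ st (EG φ D f) u = 1)
    (hbig : ∀ Q : Subgroup T, Q ≠ ⊥ → Q ≠ ⊤ → BigX (KW p k) p q (EG φ D f) Q)
    (hM : Many (KW p k) (EG φ D f) ⊥ ∨ Thin (KW p k) (EG φ D f) ⊥) :
    Nat.card (Quotient (irrInvSetoid (⊤ : Subgroup A) ⊤ b)) ≤ eN D f := by
  have hp : p.Prime := Fact.out
  have hb := h.root.blk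
  obtain ⟨B, hB⟩ := exists_cenL (p := p) hb.idem
    (fun g => invBy_iff_cj.1 hb.invBy g (Subgroup.mem_top g))
  obtain ⟨G, ψ, hS, hψ⟩ := exists_rows_bot hp2 hpq h hφ hr hpE hbig hM hB
  have hT : IsPGroup p T := isP_stp hS
  have hpE' : ¬ p ∣ Nat.card (EG φ D f) := by rwa [card_EG hφ hr]
  refine l_le_rank2 hp2 hS hpE hB hψ hreg (fun u hu => st_lt hp hT hpE' hrk hu)
    (fun E' hE' ⟨u, hu, hfix⟩ => cyc_of_fix hp hT ?_ hrk hu hfix)
    fun l hl => stl_lt hp hT hpE' hrk ?_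
  · exact fun h1 => hpE' (h1.trans (Subgroup.card_dvd_of_le hE'))
  · rintro rfl
    exact hl rfl

end

section
variable {p : ℕ} [Fact p.Prime] {k : Type*} [Field k] [IsAlgClosed k] [CharP k p]
  {A : Type*} [Group A] [Fintype A] {b f i : MonoidAlgebra k A} {D : Subgroup A}

/-- **rank two** -/
theorem k2_two (hp2 : p ≠ 2) (h : Root p b D f)
    (hr : Nat.card {x : A // x ∈ D ∧ x ^ p = 1} ≤ p ^ 2) (hF : Ku.Faith p 2 D f) :
    gap p (⊤ : Subgroup A) ⊤ b = 0 ∧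
      Nat.card (Quotient (irrInvSetoid (⊤ : Subgroup A) ⊤ b)) ≤ eN D f := by
  have hp : p.Prime := Fact.out
  have hpE : ¬ p ∣ eN D f := Ku.ndvd h
  have hE : eN D f ≤ p ^ (2 + 1) := Ku.eN_le_gl h hr
  suffices hl : Nat.card (Quotient (irrInvSetoid (⊤ : Subgroup A) ⊤ b)) ≤ eN D f from
    l_eq_of hp2 h hF (hl.trans hE) hE
  by_cases hD : D = ⊥
  · refine l_le hp2 h fun g _ u hu hu1 _ => ?_
    rw [hD, Subgroup.mem_bot] at hu
    exact absurd hu hu1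
  obtain ⟨i, hi⟩ := exists_src h
  let _ : CommGroup ↥D := cgrp D h.com
  let _ : Fintype ↥D := Fintype.ofFinite _
  obtain ⟨x, hx, hx1⟩ := (Subgroup.bot_or_exists_ne_one D).resolve_left hD
  have : Nontrivial ↥D := ⟨⟨⟨x, hx⟩, 1, fun h1 => hx1 (congrArg Subtype.val h1)⟩⟩
  have hφ : Function.Injective (D.subtype : ↥D →* A) := Subtype.val_injective
  have hrD : ∀ x, x ∈ D ↔ ∃ t, (D.subtype : ↥D →* A) t = x :=
    fun x => ⟨fun hx => ⟨⟨x, hx⟩, rfl⟩, by rintro ⟨t, rfl⟩; exact t.2⟩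
  have hrT : Nat.card {x : ↥D // x ^ p = 1} ≤ p ^ 2 := by
    refine le_trans (le_of_eq (Nat.card_congr ?_)) hr
    exact
      { toFun := fun x => ⟨x.1, x.1.2, congrArg Subtype.val x.2⟩
        invFun := fun x => ⟨⟨x.1, x.2.1⟩, Subtype.ext x.2.2⟩
        left_inv := fun x => rfl
        right_inv := fun x => rfl }
  obtain ⟨M, hM⟩ := pow_one_of hi
  have hT : IsPGroup p ↥D := fun u => ⟨M, Subtype.ext (hM u u.2)⟩
  have hcard : Nat.card (EG D.subtype D f) = eN D f := card_EG hφ hrD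
  have hpE' : ¬ p ∣ Nat.card (EG D.subtype D f) := by rwa [hcard]
  have hf := faith_T hφ hrD hF
  refine l_le_two_src (q := p ^ 3) hp2 (dvd_pow_self p (by norm_num)) hi hφ hrD hpE hrT ?_
    (fun Q hQ hQ' => (ZKb.big_all hp hp2 hT hpE' hrT (m := 3) hf (by norm_num) hQ hQ').toX)
    (Or.inl (ZKr.many2 hp hp2 hT hrT hpE' (n := 2) le_rfl hf bot_ne_top))
  refine exists_reg_of (EG D.subtype D f) (q := p ^ 3) (fun φ hφE hφ1 => range_ge hp hT (hf φ hφE hφ1))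
    (by rw [hcard]; exact hE) Finite.one_lt_card

end

end Pool.Agent.Lib.P0c8ca5.Ex
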