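import Mathlib
import Pool.Agent.Lib.P0c8ca5Ex.ZM
import Pool.Agent.Lib.P0c8ca5Ex.ZKs

/-!
# ZN: K2 for cyclic stabilizers, free actions, and rank two with exponents at least two

* `l_le_cyc_src`: `l(b) ≤ |E|` if the stabilizers of the elements `≠ 1` are cyclic of order `< p`.
* `k2_gen`: then, with the numerical conditions, `l(b)` is the number of weights.
* `k2_two2`: rank at most `2`, `p ≥ 5`, `E` faithful on the `p`-th powers, `|E| ≤ p² - p`.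
* `k2_free`: `E` acts freely on `D - 1` and `|E|` is less than the exponent of `D`.
* `k2_cyc`: the stabilizers of the elements `≠ 1` are cyclic of order `< p`, `2|E| ≤ p ^ (n + 1)`, `E` faithful on the `p ^ n`-th powers.
-/

set_option linter.unusedSectionVars false

namespace Pool.Agent.Lib.P0c8ca5.Ex

universe u v

open MonoidAlgebra Kq Kk ZMAux YZx ZFx ZFc

namespace ZNx

section
variable {T : Type*} [CommGroup T] [Fintype T] {K : Type*} [Field K] [CharZero K]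
  [HasEnoughRootsOfUnity K (Monoid.exponent T)] {p : ℕ}

theorem stl_le_st (hp : p.Prime) (hT : IsPGroup p T) {E : Subgroup (MulAut T)}
    (hpE : ¬ p ∣ Nat.card E) {N : ℕ} (hst : ∀ u : T, u ≠ 1 → st E u < N)
    {l : T →* Kˣ} (hl : l ≠ 1) : stl E l < N := by
  obtain ⟨x, hx, -, hfix⟩ := exists_fix hp hT hpE hl
  refine lt_of_le_of_lt ?_ (hst x hx)
  have hfin : Finite (MulAut T) := Finite.of_injective (fun φ : MulAut T => (φ : T → T))
    (fun a b h => MulEquiv.ext fun x => congrFun h x)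
  rw [stl_card, st]
  refine Nat.card_le_card_of_injective (fun α : stG E l =>
    (⟨⟨α.1, α.2.1⟩, hfix _ α.2⟩ : {φ : E // (φ : MulAut T) x = x})) ?_
  intro α β h
  exact Subtype.ext (congrArg (fun z : {φ : E // (φ : MulAut T) x = x} =>
    ((z : E) : MulAut T)) h)

theorem fx_le_st {E : Subgroup (MulAut T)} {N : ℕ} (hst : ∀ u : T, u ≠ 1 → st E u < N)
    {Q : Subgroup T} (hQ : Q ≠ ⊥) : Nat.card (Fx E Q) < N := by
  obtain ⟨x, hx, hx1⟩ := (Subgroup.bot_or_exists_ne_one Q).resolve_left hQ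
  refine lt_of_le_of_lt ?_ (hst x hx1)
  have hfin : Finite (MulAut T) := Finite.of_injective (fun φ : MulAut T => (φ : T → T))
    (fun a b h => MulEquiv.ext fun x => congrFun h x)
  rw [st]
  refine Nat.card_le_card_of_injective (fun α : Fx E Q =>
    (⟨⟨α.1, α.2.1⟩, α.2.2 x hx⟩ : {φ : E // (φ : MulAut T) x = x})) ?_
  intro α β h
  exact Subtype.ext (congrArg (fun z : {φ : E // (φ : MulAut T) x = x} =>
    ((z : E) : MulAut T)) h)

/-- `BigX` if the stabilizers of the elements `≠ 1` have orders less than `p` -/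
theorem bigx_st (hp : p.Prime) (hp2 : p ≠ 2) (hT : IsPGroup p T) {E : Subgroup (MulAut T)}
    (hE : ¬ p ∣ Nat.card E) (hst : ∀ u : T, u ≠ 1 → st E u < p) {n : ℕ}
    (hn : 2 ≤ n ∨ (1 ≤ n ∧ 5 ≤ p))
    (hF : ∀ φ ∈ E, φ ≠ 1 → ∃ u : T, (u⁻¹ * φ u) ^ p ^ n ≠ 1) {Q : Subgroup T} (hQ : Q ≠ ⊥)
    (hQT : Q ≠ ⊤) : BigX K p (p ^ (n + 1)) E Q := by
  have hp1 := hp.one_lt
  have hFE : Fx E Q ≤ E := fun α hα => hα.1
  have hE' : ¬ p ∣ Nat.card (Fx E Q) := fun h => hE (h.trans (Subgroup.card_dvd_of_le hFE))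
  have hle : Nat.card (Fx E Q) ≤ p - 1 := by
    have := fx_le_st hst hQ
    omega
  have hER : ∀ α ∈ Fx E Q, ∀ z ∈ Q, α z = z := fun α hα z hz => hα.2 z hz
  have hF' : ∀ φ ∈ Fx E Q, φ ≠ 1 → ∃ u : T, (u⁻¹ * φ u) ^ p ^ n ≠ 1 := fun φ hφ => hF φ hφ.1
  have hn1 : 1 ≤ n := by
    rcases hn with h | h
    · omega
    · exact h.1
  have hdvd : Nat.card (Fx E Q) = 1 ∨ p ^ (n + 1) * Nat.card Q ∣ Fintype.card T := by
    by_cases h1 : Nat.card (Fx E Q) = 1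
    · exact Or.inl h1
    · right
      obtain ⟨φ, hφ, hφ1⟩ := ZKr.exists_ne h1
      exact ZKr.fix_dvd (hER φ hφ) (ZKr.cm_dvd hp hT (hF' φ hφ hφ1))
  refine ⟨?_, ?_, hdvd⟩
  · rcases hn with hn2 | ⟨-, hp5⟩
    · left
      rcases hdvd with h1 | h1
      · exact ZKr.many_one hp hp2 hT hQT h1
      · refine ZKr.many_small hp hT hE' hER (ZKr.hq_of hp hT hF')
          (Nat.le_of_dvd Fintype.card_pos h1) ?_
        refine lt_of_lt_of_le ?_ (Nat.pow_le_pow_right hp.pos (by omega : 3 ≤ n + 1))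
        have hp3 : 3 ≤ p := by omega
        obtain ⟨m, rfl⟩ := Nat.exists_eq_add_of_le hp3
        have h3 : Nat.card (Fx E Q) ≤ m + 2 := by omega
        have h4 : Nat.card (Fx E Q) * (Nat.card (Fx E Q) + 3) ≤ (m + 2) * (m + 2 + 3) :=
          Nat.mul_le_mul h3 (by omega)
        have h5 : (m + 2) * (m + 2 + 3) + (m + 2) < (3 + m) ^ 3 := by
          nlinarith [Nat.zero_le m, Nat.zero_le (m ^ 2), Nat.zero_le (m ^ 3)]
        omega
    · exact ZKr.many_or_thin hp hp5 hT hE' hER hQT hle hn1 hF'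
  · have h3 : p < p ^ (n + 1) := by
      calc p = p ^ 1 := (pow_one p).symm
        _ < p ^ (n + 1) := Nat.pow_lt_pow_right hp1 (by omega)
    calc Nat.card (Fx E Q) ^ 2 ≤ (p - 1) ^ 2 := Nat.pow_le_pow_left hle 2
      _ = (p - 1) * (p - 1) := sq _
      _ < p ^ (n + 1) * (p - 1) := Nat.mul_lt_mul_of_pos_right (by omega) (by omega)

/-- `Thin` at the trivial subgroup, free action -/
theorem thin_free (hp : p.Prime) (hp2 : p ≠ 2) (hT : IsPGroup p T) {E : Subgroup (MulAut T)}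
    (hE : ¬ p ∣ Nat.card E) (hfree : ∀ α ∈ E, α ≠ 1 → ∀ z : T, α z = z → z = 1) {n : ℕ}
    (hF : ∀ φ ∈ E, φ ≠ 1 → ∃ u : T, (u⁻¹ * φ u) ^ p ^ n ≠ 1)
    (hEp : p ≤ Nat.card E) (hEn : Nat.card E < p ^ (n + 1)) : Thin K E (⊥ : Subgroup T) := by
  have hp1 := hp.one_lt
  have h1 : p ^ (n + 1) * p ^ (n + 1) ≤ Fintype.card T := by
    rcases ZKr.homog hp hT hE hF with h | h
    · omega
    · exact h
  refine ⟨ZKr.free_of hp hT hE fun α hα hα1 z hz => Subgroup.mem_bot.2 (hfree α hα hα1 z hz),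
    Nat.card E + 2, by omega, le_rfl, ?_⟩
  rw [Subgroup.card_bot, mul_one]
  refine lt_of_lt_of_le ?_ h1
  calc (Nat.card E + 2) * Nat.card E < (Nat.card E + 1) * (Nat.card E + 1) := by nlinarith
    _ ≤ p ^ (n + 1) * p ^ (n + 1) := Nat.mul_le_mul hEn hEn

/-- `Many` at the trivial subgroup for `2|E| ≤ q` -/
theorem many_half (hp : p.Prime) (hT : IsPGroup p T) {E : Subgroup (MulAut T)}
    (hE : ¬ p ∣ Nat.card E) {n : ℕ}
    (hF : ∀ φ ∈ E, φ ≠ 1 → ∃ u : T, (u⁻¹ * φ u) ^ p ^ n ≠ 1)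
    (hEp : p ≤ Nat.card E) (hEn : 2 * Nat.card E ≤ p ^ (n + 1)) : Many K E (⊥ : Subgroup T) := by
  have hp1 := hp.one_lt
  have h1 : p ^ (n + 1) * p ^ (n + 1) ≤ Fintype.card T := by
    rcases ZKr.homog hp hT hE hF with h | h
    · omega
    · exact h
  refine many_of hp hT hE (fun α _ z hz => by rw [Subgroup.mem_bot.1 hz, map_one])
    (ZKr.hq_of hp hT hF) ?_
  rw [Subgroup.card_bot, mul_one]
  generalize p ^ (n + 1) = q at *
  generalize Fintype.card T = t at *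
  obtain ⟨e, he⟩ := Nat.exists_eq_add_of_le (show 1 ≤ Nat.card E by omega)
  rw [he] at hEn hEp ⊢
  rw [Nat.add_sub_cancel_left]
  have h2 : 2 * (q * ((1 + e) * (1 + e + 3)) + e * t) < 2 * (q * t) := by
    have h3 : 2 * (1 + e) * (1 + e + 3) ≤ q * (1 + e + 3) := Nat.mul_le_mul_right _ hEn
    have h4 : 2 * (q * ((1 + e) * (1 + e + 3))) ≤ q * (q * (1 + e + 3)) := by
      calc 2 * (q * ((1 + e) * (1 + e + 3))) = q * (2 * (1 + e) * (1 + e + 3)) := by ring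
        _ ≤ q * (q * (1 + e + 3)) := Nat.mul_le_mul_left _ h3
    have h5 : q * (q * (1 + e + 3)) ≤ (1 + e + 3) * t := by
      calc q * (q * (1 + e + 3)) = (1 + e + 3) * (q * q) := by ring
        _ ≤ _ := Nat.mul_le_mul_left _ h1
    have ht : 0 < t := lt_of_lt_of_le (Nat.mul_pos (by omega) (by omega)) h1
    have h6 : (1 + e + 3) + 2 * e < 2 * q := by omega
    calc 2 * (q * ((1 + e) * (1 + e + 3)) + e * t)
        = 2 * (q * ((1 + e) * (1 + e + 3))) + 2 * e * t := by ring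
      _ ≤ (1 + e + 3) * t + 2 * e * t := Nat.add_le_add_right (h4.trans h5) _
      _ = ((1 + e + 3) + 2 * e) * t := by ring
      _ < 2 * q * t := Nat.mul_lt_mul_of_pos_right h6 ht
      _ = 2 * (q * t) := by ring
  omega

end

end ZNx

section
variable {p : ℕ} [Fact p.Prime] {k : Type*} [Field k] [IsAlgClosed k] [CharP k p]
  {A : Type*} [Group A] [Fintype A] {T : Type*} [CommGroup T] [Fintype T]
  {φ : T →* A} {b f i : MonoidAlgebra k A} {D : Subgroup A}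

theorem l_le_cyc_src {q : ℕ} (hp2 : p ≠ 2) (hpq : p ∣ q) (h : Src p b D f i)
    (hφ : Function.Injective φ) (hr : ∀ x, x ∈ D ↔ ∃ t, φ t = x) (hpE : ¬ p ∣ eN D f)
    (hst : ∀ u : T, u ≠ 1 → st (EG φ D f) u < p)
    (hcyc : ∀ E' ≤ EG φ D f, (∃ u : T, u ≠ 1 ∧ ∀ α ∈ E', α u = u) → IsCyclic ↥E')
    (hreg : ∃ u : T, u ≠ 1 ∧ st (EG φ D f) u = 1)
    (hbig : ∀ Q : Subgroup T, Q ≠ ⊥ → Q ≠ ⊤ → BigX (KW p k) p q (EG φ D f) Q)
    (hM : Many (KW p k) (EG φ D f) ⊥ ∨ Thin (KW p k) (EG φ D f) ⊥) :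
    Nat.card (Quotient (irrInvSetoid (⊤ : Subgroup A) ⊤ b)) ≤ eN D f := by
  have hp : p.Prime := Fact.out
  have hb := h.root.blk
  obtain ⟨B, hB⟩ := exists_cenL (p := p) hb.idem
    (fun g => invBy_iff_cj.1 hb.invBy g (Subgroup.mem_top g))
  obtain ⟨G, ψ, hS, hψ⟩ := exists_rows_bot hp2 hpq h hφ hr hpE hbig hM hB
  have hT : IsPGroup p T := isP_stp hS
  have hpE' : ¬ p ∣ Nat.card (EG φ D f) := by rwa [card_EG hφ hr]
  refine l_le_rank2 hp2 hS hpE hB hψ hreg hst hcyc fun l hl => ZNx.stl_le_st hp hT hpE' hst ?_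
  rintro rfl
  exact hl rfl

end

section
variable {p : ℕ} [Fact p.Prime] {k : Type v} [Field k] [IsAlgClosed k] [CharP k p]
  {A : Type u} [Group A] [Fintype A] {b f i : MonoidAlgebra k A} {D : Subgroup A}

/-- the general form: conditions on the action of `E` on `T = D` -/
theorem k2_gen (hp2 : p ≠ 2) (h : Root p b D f) {n : ℕ} (hF : Ku.Faith p n D f)
    (hE : eN D f ≤ p ^ (n + 1))
    (hyp : ∀ (T : Type u) [CommGroup T] [Fintype T] (φ : T →* A) (_ : Nontrivial T)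
      (_ : IsPGroup p T) (_ : Function.Injective φ) (_ : ∀ x, x ∈ D ↔ ∃ t, φ t = x)
      (_ : ¬ p ∣ Nat.card (EG φ D f)) (_ : Nat.card (EG φ D f) = eN D f)
      (_ : ∀ α ∈ EG φ D f, α ≠ 1 → ∃ u : T, (u⁻¹ * α u) ^ p ^ n ≠ 1),
      (∀ u : T, u ≠ 1 → st (EG φ D f) u < p) ∧
      (∀ E' ≤ EG φ D f, (∃ u : T, u ≠ 1 ∧ ∀ α ∈ E', α u = u) → IsCyclic ↥E') ∧
      (∀ Q : Subgroup T, Q ≠ ⊥ → Q ≠ ⊤ → BigX (KW p k) p (p ^ (n + 1)) (EG φ D f) Q) ∧
      (Many (KW p k) (EG φ D f) ⊥ ∨ Thin (KW p k) (EG φ D f) ⊥)) :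
    gap p (⊤ : Subgroup A) ⊤ b = 0 ∧
      Nat.card (Quotient (irrInvSetoid (⊤ : Subgroup A) ⊤ b)) ≤ eN D f := by
  have hp : p.Prime := Fact.out
  have hpE : ¬ p ∣ eN D f := Ku.ndvd h
  suffices hl : Nat.card (Quotient (irrInvSetoid (⊤ : Subgroup A) ⊤ b)) ≤ eN D f from
    l_eq_of hp2 h hF (hl.trans hE) hE
  by_cases hD : D = ⊥
  · refine l_le hp2 h fun g _ u hu hu1 _ => ?_
    rw [hD, Subgroup.mem_bot] at hu
    exact absurd hu hu1
  obtain ⟨i, hi⟩ := exists_src h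
  let _ : CommGroup ↥D := cgrp D h.com
  let _ : Fintype ↥D := Fintype.ofFinite _
  obtain ⟨x, hx, hx1⟩ := (Subgroup.bot_or_exists_ne_one D).resolve_left hD
  have hnt : Nontrivial ↥D := ⟨⟨⟨x, hx⟩, 1, fun h1 => hx1 (congrArg Subtype.val h1)⟩⟩
  have hφ : Function.Injective (D.subtype : ↥D →* A) := Subtype.val_injective
  have hrD : ∀ x, x ∈ D ↔ ∃ t, (D.subtype : ↥D →* A) t = x :=
    fun x => ⟨fun hx => ⟨⟨x, hx⟩, rfl⟩, by rintro ⟨t, rfl⟩; exact t.2⟩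
  obtain ⟨M, hM⟩ := pow_one_of hi
  have hT : IsPGroup p ↥D := fun u => ⟨M, Subtype.ext (hM u u.2)⟩
  have hcard : Nat.card (EG D.subtype D f) = eN D f := card_EG hφ hrD
  have hpE' : ¬ p ∣ Nat.card (EG D.subtype D f) := by rwa [hcard]
  have hf := faith_T hφ hrD hF
  obtain ⟨h1, h2, h3, h4⟩ := hyp ↥D D.subtype hnt hT hφ hrD hpE' hcard hf
  refine l_le_cyc_src (q := p ^ (n + 1)) hp2 (dvd_pow_self p (by omega)) hi hφ hrD hpE h1 h2 ?_
    h3 h4
  refine exists_reg_of (EG D.subtype D f) (q := p ^ (n + 1))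
    (fun φ hφE hφ1 => range_ge hp hT (hf φ hφE hφ1)) (by rw [hcard]; exact hE) Finite.one_lt_card

/-- **rank at most `2`, `p ≥ 5`, exponents at least `2`** -/
theorem k2_two2 (hp5 : 5 ≤ p) (h : Root p b D f)
    (hr : Nat.card {x : A // x ∈ D ∧ x ^ p = 1} ≤ p ^ 2) (hF : Ku.Faith p 1 D f)
    (hE : eN D f + p ≤ p ^ 2) : gap p (⊤ : Subgroup A) ⊤ b = 0 ∧
      Nat.card (Quotient (irrInvSetoid (⊤ : Subgroup A) ⊤ b)) ≤ eN D f := by
  have hp : p.Prime := Fact.out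
  have hp2 : p ≠ 2 := by omega
  refine k2_gen hp2 h hF (by rw [show 1 + 1 = 2 from rfl]; omega) ?_
  intro T _ _ φ hnt hT hφ hrD hpE' hcard hf
  have hrT : Nat.card {x : T // x ^ p = 1} ≤ p ^ 2 := by
    refine le_trans ?_ hr
    refine Nat.card_le_card_of_injective (fun x : {x : T // x ^ p = 1} =>
      (⟨φ x.1, (hrD _).2 ⟨x.1, rfl⟩, by rw [← map_pow, x.2, map_one]⟩ :
        {x : A // x ∈ D ∧ x ^ p = 1})) ?_
    intro x y hxy
    exact Subtype.ext (hφ (congrArg Subtype.val hxy))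
  refine ⟨fun u hu => st_lt hp hT hpE' hrT hu, fun E' hE' ⟨u, hu, hfix⟩ =>
    cyc_of_fix hp hT ?_ hrT hu hfix, fun Q hQ hQ' => ?_, ?_⟩
  · exact fun h1 => hpE' (h1.trans (Subgroup.card_dvd_of_le hE'))
  · exact ZKr.bigx2 hp hp5 hT hrT hpE' le_rfl hf hQ hQ'
  · exact ZKr.manyx2 hp hp5 hT hrT hpE' (by rw [hcard]; exact hE) le_rfl hf bot_ne_top

/-- **free action, `|E|` less than the exponent** -/
theorem k2_free (hp2 : p ≠ 2) (h : Root p b D f)
    (hfree : ∀ g ∈ St D f, ∀ u ∈ D, u ≠ 1 → g * u = u * g → g ∈ CD D) {n : ℕ} (hn : 1 ≤ n)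
    (hexp : ∃ u ∈ D, u ^ p ^ n ≠ 1) (hEp : p ≤ eN D f) (hE : eN D f < p ^ (n + 1)) :
    gap p (⊤ : Subgroup A) ⊤ b = 0 ∧
      Nat.card (Quotient (irrInvSetoid (⊤ : Subgroup A) ⊤ b)) ≤ eN D f := by
  have hp : p.Prime := Fact.out
  have hp1 := hp.one_lt
  obtain ⟨u₀, hu₀, hu₁⟩ := hexp
  have hF : Ku.Faith p n D f := fun g hg hgy => hfree g hg _ (D.pow_mem hu₀ _) hu₁ (hgy u₀ hu₀)
  refine k2_gen hp2 h hF hE.le ?_
  intro T _ _ φ hnt hT hφ hrD hpE' hcard hf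
  have hfr : ∀ α ∈ EG φ D f, α ≠ 1 → ∀ z : T, α z = z → z = 1 := by
    rintro α ⟨g, hg, hgα⟩ hα z hz
    by_contra hz1
    apply hα
    have h1 : g ∈ CD D := by
      refine hfree g hg (φ z) ((hrD _).2 ⟨z, rfl⟩) (fun h2 => hz1 (hφ (by rw [h2, map_one]))) ?_
      have h2 := hgα z
      rw [hz] at h2
      exact (eq_mul_inv_iff_mul_eq.1 h2).symm
    ext t
    apply hφ
    rw [hgα t, MulAut.one_apply, ← Subgroup.mem_centralizer_iff.1 h1 (φ t) ((hrD _).2 ⟨t, rfl⟩),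
      mul_inv_cancel_right]
  have hst : ∀ u : T, u ≠ 1 → st (EG φ D f) u = 1 := by
    intro u hu
    rw [st, Nat.card_eq_one_iff_unique]
    refine ⟨⟨fun a c => ?_⟩, ⟨⟨1, rfl⟩⟩⟩
    have h1 : ∀ a : {α : EG φ D f // (α : MulAut T) u = u}, a = ⟨1, rfl⟩ := by
      intro a
      refine Subtype.ext (Subtype.ext ?_)
      by_contra h2
      exact hu (hfr _ a.1.2 h2 u a.2)
    rw [h1 a, h1 c]
  have hstp : ∀ u : T, u ≠ 1 → st (EG φ D f) u < p := fun u hu => by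
    rw [hst u hu]
    exact hp1
  refine ⟨hstp, fun E' hE' ⟨u, hu, hfix⟩ => ?_, fun Q hQ hQ' => ?_, Or.inr ?_⟩
  · have h1 : E' = ⊥ := by
      refine (Subgroup.eq_bot_iff_forall E').2 fun α hα => ?_
      by_contra h2
      exact hu (hfr α (hE' hα) h2 u (hfix α hα))
    rw [h1]
    infer_instance
  · -- the stabilizer of `Q` is trivial
    have h1 : Nat.card (Fx (EG φ D f) Q) = 1 := by
      have h2 := ZNx.fx_le_st (N := 2) (fun u hu => by rw [hst u hu]; norm_num) hQ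
      have hfin : Finite (MulAut T) := Finite.of_injective (fun φ : MulAut T => (φ : T → T))
        (fun a b h => MulEquiv.ext fun x => congrFun h x)
      have h3 : 0 < Nat.card (Fx (EG φ D f) Q) := Nat.card_pos
      omega
    refine ⟨Or.inl (ZKr.many_one hp hp2 hT hQ' h1), ?_, Or.inl h1⟩
    rw [h1, one_pow]
    have h3 : 1 < p ^ (n + 1) := Nat.one_lt_pow (by omega) hp1
    calc 1 < p ^ (n + 1) * 1 := by omega
      _ ≤ p ^ (n + 1) * (p - 1) := Nat.mul_le_mul_left _ (by omega)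
  · exact ZNx.thin_free hp hp2 hT hpE' hfr hf (by rw [hcard]; exact hEp) (by rw [hcard]; exact hE)

/-- **the stabilizers are cyclic of order less than `p`** -/
theorem k2_cyc (hp2 : p ≠ 2) (h : Root p b D f)
    (hcyc : ∀ u ∈ D, u ≠ 1 → ∃ g₀ ∈ St D f, ∃ m : ℕ, 0 < m ∧ m < p ∧ g₀ ^ m ∈ CD D ∧
      ∀ g ∈ St D f, g * u = u * g → ∃ j : ℕ, (g₀ ^ j)⁻¹ * g ∈ CD D)
    {n : ℕ} (hn : 2 ≤ n ∨ (1 ≤ n ∧ 5 ≤ p)) (hF : Ku.Faith p n D f)
    (hEp : p ≤ eN D f) (hE : 2 * eN D f ≤ p ^ (n + 1)) :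
    gap p (⊤ : Subgroup A) ⊤ b = 0 ∧
      Nat.card (Quotient (irrInvSetoid (⊤ : Subgroup A) ⊤ b)) ≤ eN D f := by
  have hp : p.Prime := Fact.out
  have hp1 := hp.one_lt
  refine k2_gen hp2 h hF (by omega) ?_
  intro T _ _ φ hnt hT hφ hrD hpE' hcard hf
  have key : ∀ u : T, u ≠ 1 → ∃ α₀ : MulAut T, ∃ m : ℕ, 0 < m ∧ m < p ∧ α₀ ^ m = 1 ∧
      ∀ α ∈ EG φ D f, α u = u → ∃ j : ℕ, α = α₀ ^ j := by
    intro u hu
    obtain ⟨g₀, hg₀, m, hm0, hmp, hgm, hj⟩ := hcyc (φ u) ((hrD _).2 ⟨u, rfl⟩)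
      (fun h2 => hu (hφ (by rw [h2, map_one])))
    obtain ⟨α₀, hα₀, hα₀'⟩ := exists_EG (f := f) hφ hrD hg₀
    have hpw : ∀ j : ℕ, ∀ t, φ ((α₀ ^ j) t) = g₀ ^ j * φ t * (g₀ ^ j)⁻¹ := by
      intro j
      induction j with
      | zero => intro t; simp
      | succ j ih =>
        intro t
        rw [pow_succ', MulAut.mul_apply, hα₀', ih, pow_succ']
        group
    refine ⟨α₀, m, hm0, hmp, ?_, ?_⟩
    · ext t
      apply hφ
      rw [hpw m t, MulAut.one_apply,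
        ← Subgroup.mem_centralizer_iff.1 hgm (φ t) ((hrD _).2 ⟨t, rfl⟩), mul_inv_cancel_right]
    · rintro α ⟨g, hg, hgα⟩ hαu
      have h2 := hgα u
      rw [hαu] at h2
      obtain ⟨j, hj'⟩ := hj g hg (eq_mul_inv_iff_mul_eq.1 h2).symm
      refine ⟨j, ?_⟩
      ext t
      apply hφ
      rw [hgα t, hpw j t]
      have h3 := Subgroup.mem_centralizer_iff.1 hj' (φ t) ((hrD _).2 ⟨t, rfl⟩)
      have h4 : g * φ t = g₀ ^ j * φ t * ((g₀ ^ j)⁻¹ * g) := by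
        rw [mul_assoc, h3]
        group
      rw [h4]
      group
  have hstp : ∀ u : T, u ≠ 1 → st (EG φ D f) u < p := by
    intro u hu
    obtain ⟨α₀, m, hm0, hmp, hαm, hj⟩ := key u hu
    refine lt_of_le_of_lt ?_ hmp
    have h1 : ∀ a : {α : EG φ D f // (α : MulAut T) u = u}, ∃ j : Fin m, ((a.1 : EG φ D f) : MulAut T) = α₀ ^ (j : ℕ) := by
      intro a
      obtain ⟨j, hj'⟩ := hj _ a.1.2 a.2
      refine ⟨⟨j % m, Nat.mod_lt _ hm0⟩, ?_⟩
      rw [hj']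
      conv_lhs => rw [← Nat.mod_add_div j m, pow_add, pow_mul, hαm, one_pow, mul_one]
    choose F hFj using h1
    rw [st]
    have h2 := Nat.card_le_card_of_injective F (by
      intro a c hac
      refine Subtype.ext (Subtype.ext ?_)
      rw [hFj a, hFj c, hac])
    rwa [Nat.card_eq_fintype_card (α := Fin m), Fintype.card_fin] at h2
  refine ⟨hstp, fun E' hE' ⟨u, hu, hfix⟩ => ?_, fun Q hQ hQ' => ?_, Or.inl ?_⟩
  · obtain ⟨α₀, m, hm0, hmp, hαm, hj⟩ := key u hu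
    have h1 : E' ≤ Subgroup.zpowers α₀ := by
      intro α hα
      obtain ⟨j, rfl⟩ := hj α (hE' hα) (hfix α hα)
      exact Subgroup.npow_mem_zpowers _ _
    have h2 : IsCyclic (Subgroup.zpowers α₀) := inferInstance
    exact isCyclic_of_injective (Subgroup.inclusion h1) (Subgroup.inclusion_injective h1)
  · exact ZNx.bigx_st hp hp2 hT hpE' hstp hn hf hQ hQ'
  · exact ZNx.many_half hp hT hpE' hf (by rw [hcard]; exact hEp) (by rw [hcard]; exact hE)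

end

end Pool.Agent.Lib.P0c8ca5.Ex
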