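import Mathlib
import Pool.Agent.Lib.P0c8ca5Ex.ZOa
import Pool.Agent.Lib.P0c8ca5Ex.ZGc
import Pool.Agent.Lib.P0c8ca5Ku.KN

/-!
# ZOb: `l(b) ≤ |E|` from the rows, if the stabilizers of the elements `≠ 1` are cyclic

* `rows_all`: the number of the rows is at most the sum of the orders of the stabilizers of the characters modulo `E`.
* `l_ge_cycn`: `|E| ≤ l(b)` if `E` is cyclic of order at most `p ^ (n + 1)` and faithful on the `p ^ n`-th powers.
* `l_le_cycn`: Brauer's formula for `k(B)`, no Galois action.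
-/

set_option linter.unusedSectionVars false

namespace Pool.Agent.Lib.P0c8ca5.Ex

universe u v

open MonoidAlgebra YLx YZx ZFx

namespace ZOx

section
variable {T : Type*} [CommGroup T] [Fintype T] {K : Type*} [Field K] [CharZero K]
  [HasEnoughRootsOfUnity K (Monoid.exponent T)]

open Finset in
theorem rows_all {E : Subgroup (MulAut T)} (hfin : Finite E) {I : Type*} [Fintype I]
    {ψ : I → T → K} (hv : ∀ i, ψ i ∈ vir T K) (hG : ∀ u v, GramR E ⊥ ψ u v)
    (hne : ∀ i, ∃ u, ψ i u ≠ 0) (L : Finset (T →* Kˣ))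
    (hL : ∀ l : T →* Kˣ, ∃ l₀ ∈ L, ∃ α ∈ E, l = dl l₀ α) :
    Fintype.card I ≤ ∑ l ∈ L, stl E l := by
  classical
  have : Fintype E := Fintype.ofFinite _
  obtain ⟨M, hM⟩ := int_mlt hv
  have hgram : ∀ a c : T →* Kˣ, ∑ i, M i a * M i c = (cn E a c : ℤ) := by
    intro a c
    have h1 := gram_bot hG a c
    simp only [hM] at h1
    exact_mod_cast h1
  have horb : ∀ (l : T →* Kˣ) (β : MulAut T), β ∈ E → ∀ i, M i (dl l β) = M i l := by
    intro l β hβ i
    have h1 : ∑ i, (M i (dl l β) - M i l) ^ 2 = 0 := by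
      have h2 : ∀ i, (M i (dl l β) - M i l) ^ 2 = M i (dl l β) * M i (dl l β)
          - 2 * (M i (dl l β) * M i l) + M i l * M i l := fun i => by ring
      rw [sum_congr rfl fun i _ => h2 i, sum_add_distrib, sum_sub_distrib, ← mul_sum, hgram,
        hgram, hgram, cn_dl_left E _ _ hβ, cn_dl_right E _ _ hβ, cn_dl_left E _ _ hβ]
      ring
    have h2 := (sum_eq_zero_iff_of_nonneg fun i _ => sq_nonneg (M i (dl l β) - M i l)).1 h1 i
      (mem_univ i)
    exact sub_eq_zero.1 (pow_eq_zero_iff (two_ne_zero)|>.1 h2)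
  have hex : ∀ i, ∃ l ∈ L, M i l ≠ 0 := by
    intro i
    obtain ⟨u, hu⟩ := hne i
    by_contra hcon
    push Not at hcon
    apply hu
    rw [eq_sum_mlt (ψ i) u]
    refine sum_eq_zero fun l _ => ?_
    obtain ⟨l₀, hl₀, α, hα, rfl⟩ := hL l
    rw [hM, horb l₀ α hα i, hcon l₀ hl₀, Int.cast_zero, zero_mul]
  have h1 : ∀ i, (1 : ℤ) ≤ ∑ l ∈ L, M i l * M i l := by
    intro i
    obtain ⟨l, hl, hl0⟩ := hex i
    have h2 : (0 : ℤ) < M i l * M i l := mul_self_pos.2 hl0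
    have h3 := single_le_sum (f := fun l => M i l * M i l) (fun l _ => mul_self_nonneg (M i l)) hl
    change M i l * M i l ≤ ∑ l ∈ L, M i l * M i l at h3
    omega
  have h2 : ((Fintype.card I : ℕ) : ℤ) ≤ ((∑ l ∈ L, stl E l : ℕ) : ℤ) := by
    calc ((Fintype.card I : ℕ) : ℤ) = ∑ _i : I, (1 : ℤ) := by simp
      _ ≤ ∑ i, ∑ l ∈ L, M i l * M i l := sum_le_sum fun i _ => h1 i
      _ = ∑ l ∈ L, ∑ i, M i l * M i l := sum_comm
      _ = ∑ l ∈ L, (stl E l : ℤ) := sum_congr rfl fun l _ => by rw [hgram, stl_eq]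
      _ = _ := by push_cast; rfl
  exact_mod_cast h2

end

end ZOx

section
variable {p : ℕ} [Fact p.Prime] {k : Type v} [Field k] [IsAlgClosed k] [CharP k p]
  {A : Type u} [Group A] [Fintype A] {T : Type*} [CommGroup T] [Fintype T]
  {φ : T →* A} {b f i : MonoidAlgebra k A} {D : Subgroup A}

/-- **a cyclic inertial quotient** -/
theorem l_ge_cycn (hp2 : p ≠ 2) (h : Src p b D f i) (hφ : Function.Injective φ)
    (hr : ∀ x, x ∈ D ↔ ∃ t, φ t = x) {n : ℕ} (hF : Ku.Faith p n D f)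
    (hE : eN D f ≤ p ^ (n + 1)) (hc : IsCyclic (EG φ D f)) :
    eN D f ≤ Nat.card (IrX (⊤ : Subgroup A) b) := by
  have hnd : ¬ p ∣ eN D f := Ku.ndvd h.root
  obtain ⟨z, hz, hgen⟩ := Nc.exists_gen (f := f) hφ hr hc
  have h1 := Nc.card_cyc hp2 h hnd hz hgen
  have h2 := Nc.kap_St hp2 h hnd
  have ht := Ku.l_kap_dvd' hp2 h.root hF
  rw [h2, h1] at ht
  have h3 : 0 < Nat.card (IrX (⊤ : Subgroup A) b) := Kq.card_irX_pos h.root.blk
  by_contra hcon
  push Not at hcon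
  have h4 : ((Nat.card (IrX (⊤ : Subgroup A) b) : ℕ) : ℤ) - (eN D f : ℤ) = 0 := by
    refine Int.eq_zero_of_abs_lt_dvd ht ?_
    rw [abs_lt]
    constructor <;> omega
  omega

/-- the local block at `Q` -/
theorem l_locn (hp2 : p ≠ 2) (h : Src p b D f i) (hφ : Function.Injective φ)
    (hr : ∀ x, x ∈ D ↔ ∃ t, φ t = x) {n : ℕ} (hF : Ku.Faith p n D f) {Q : Subgroup T}
    {c : MonoidAlgebra k A}
    (hc : LbH (cq φ Q) i c) (hE : eQ φ D f Q ≤ p ^ (n + 1))
    (hcyc : ∀ E' ≤ EG φ D f, (∀ α ∈ E', ∀ t ∈ Q, α t = t) → IsCyclic ↥E') :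
    eQ φ D f Q ≤ Nat.card (Quotient (irrInvSetoid (cq φ Q) (cq φ Q) c)) := by
  have := Fintype.ofFinite ↥(cq φ Q)
  set H := cq φ Q with hH
  have hle : ∀ t, φ t ∈ H := fun t => YuAux.D_le_cq h hr Q ((hr _).2 ⟨t, rfl⟩)
  set φ' : T →* ↥H := φ.codRestrict H hle with hφd
  have hφ' : ∀ t, (φ' t : A) = φ t := fun t => rfl
  have hi' : Function.Injective φ' := fun a b hab => hφ (congrArg Subtype.val hab)
  have hS := YuAux.src_sub h hr hc
  have hr' : ∀ x : ↥H, x ∈ D.subgroupOf H ↔ ∃ t, φ' t = x := YuAux.ran_sub hφ' hr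
  have hcen : ∀ z ∈ Q, ∀ a : ↥H, φ' z * a = a * φ' z := by
    intro z hz a
    apply Subtype.ext
    exact Subgroup.mem_centralizer_iff.1 a.2 _ ⟨z, hz, rfl⟩
  have e1 : eN (D.subgroupOf H) (dnr H f) = eQ φ D f Q := by
    rw [← card_EG (φ := φ') hi' hr', ← eQ_cen hcen hi']
    exact YuAux.eQ_sub h hr hφ' le_rfl
  have hcy : IsCyclic (EG φ' (D.subgroupOf H) (dnr H f)) := by
    refine hcyc _ (fun α hα => YuAux.mem_EG_sub hφ' (YuAux.D_le_cq h hr Q)
      (YuAux.supp_f h hr Q) hα) fun α hα t ht => ?_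
    obtain ⟨g, -, hg⟩ := hα
    apply hi'
    rw [hg t, ← hcen t ht g, mul_inv_cancel_right]
  have hF' : Ku.Faith p n (D.subgroupOf H) (dnr H f) := by
    intro g hg hgy
    have hDH : D ≤ H := YuAux.D_le_cq h hr Q
    have h1 : (g : A) ∈ CD D := by
      refine hF g (LocAux.st_up hDH (YuAux.supp_f h hr Q) hg) fun y hy => ?_
      exact congrArg Subtype.val (hgy ⟨y, hDH hy⟩ (Subgroup.mem_subgroupOf.2 hy))
    rw [Subgroup.mem_centralizer_iff] at h1 ⊢
    intro y hy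
    exact Subtype.ext (h1 _ (Subgroup.mem_subgroupOf.1 hy))
  have h1 := l_ge_cycn hp2 hS hi' hr' hF' (by rw [e1]; exact hE) hcy
  rw [e1] at h1
  refine h1.trans (le_of_eq ?_)
  rw [card_self hc.blk.mem hc.blk.idem, ← Kk.KhAux.irX_dn' (le_refl H) c,
    Subgroup.subgroupOf_self]
  rfl

end

section
variable {p : ℕ} [Fact p.Prime] {k : Type v} [Field k] [IsAlgClosed k] [CharP k p]
  {A : Type u} [Group A] [Fintype A] {T : Type*} [CommGroup T] [Fintype T]
  {φ : T →* A} {b f i : MonoidAlgebra k A} {D : Subgroup A}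
  {G : Subgroup T → A → KW p k}

/-- **the bound `l(b) ≤ |E|` from the rows**, stabilizers cyclic -/
theorem l_le_cycn (hp2 : p ≠ 2) (hS : Stp φ b D f i ⊥ G) (hpE : ¬ p ∣ eN D f)
    {B : MonoidAlgebra (OW p k) A} (hB : CenL b B) {ψ : IR φ ⊥ B → T → KW p k}
    (hψ : Rows φ D f ⊥ G B ψ) (hreg : ∃ u : T, u ≠ 1 ∧ st (EG φ D f) u = 1)
    {n : ℕ} (hF : Ku.Faith p n D f)
    (hst : ∀ u : T, u ≠ 1 → st (EG φ D f) u ≤ p ^ (n + 1))
    (hcyc : ∀ E' ≤ EG φ D f, (∃ u : T, u ≠ 1 ∧ ∀ α ∈ E', α u = u) → IsCyclic ↥E') :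
    Nat.card (Quotient (irrInvSetoid (⊤ : Subgroup A) ⊤ b)) ≤ eN D f := by
  classical
  have hp : p.Prime := Fact.out
  have h := hS.src
  have hφ := hS.inj
  have hr := hS.ran
  have hb := h.root.blk
  obtain ⟨M, hM⟩ := pow_one_of h
  have hT : IsPGroup p T := fun u => ⟨M, by
    apply hφ
    rw [map_pow, map_one]
    exact hM _ ((hr _).2 ⟨u, rfl⟩)⟩
  have hcard : Nat.card (EG φ D f) = eN D f := card_EG hφ hr
  have hpE' : ¬ p ∣ Nat.card (EG φ D f) := by rwa [hcard]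
  have hfin : Finite (EG φ D f) := finite_EG
  -- the orbits
  obtain ⟨W, h1W, hWcov, hWne⟩ := ZGcAux.exists_rep (α := T)
    { r := fun v v' => ∃ α ∈ EG φ D f, v' = α v
      iseqv := by
        refine ⟨fun v => ⟨1, (EG φ D f).one_mem, rfl⟩, ?_, ?_⟩
        · rintro v v' ⟨α, hα, rfl⟩
          exact ⟨α⁻¹, (EG φ D f).inv_mem hα, by rw [MulAut.inv_apply_self]⟩
        · rintro v v' v'' ⟨α, hα, rfl⟩ ⟨β, hβ, rfl⟩
          exact ⟨β * α, (EG φ D f).mul_mem hβ hα, rfl⟩ } 1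
  obtain ⟨L, hLcov, hLne⟩ := ZGcAux.exists_L (K := KW p k) (EG φ D f)
  have hmem : ∀ t, φ t ∈ D := fun t => (hr _).2 ⟨t, rfl⟩
  have hcex := fun t : T => exists_lbH h (hmem t)
  choose c hc using hcex
  have hC1 : C1 (φ 1) = ⊤ := by
    rw [map_one]
    ext x
    rw [mem_C1', one_mul, mul_one]
    simp
  have hc1 : c 1 = b := by
    have e1 := lbH_b_mul h (hmem 1) (hc 1)
    have e2 : resS (C1 (φ 1) : Set A) b = b := by
      ext x
      rw [coeff_resS_of_mem]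
      rw [hC1]
      exact Subgroup.mem_top x
    rw [e2] at e1
    have e3 := (hc 1).blk
    rw [hC1] at e3
    rcases hb.eq_or_mul_eq_zero e3 with e4 | e4
    · exact e4.symm
    · rw [e1] at e4
      exact absurd e4 e3.ne_zero
  -- the pairs
  let x : Fin W.card → Pr p b := fun w =>
    let v : T := (W.equivFin.symm w).1
    ⟨φ v, c v, ⟨M, hM _ (hmem v)⟩, (hc v).blk, lbH_b_mul h (hmem v) (hc v)⟩
  have h3 := fix_ge_sum hb hB (Equiv.refl (IrB B)) (t := 1) (Nat.coprime_one_left p)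
    (fun χ v M _ F _ _ => by rw [pow_one]; rfl)
    (fun v g M c _ hv1 _ _ _ => absurd (pow_one v) hv1) x (fun w => pow_one _)
    (fun w w' hww => by
      rintro ⟨g, hg1, hg2⟩
      change φ (W.equivFin.symm w).1 * g = g * φ (W.equivFin.symm w').1 at hg1
      change cj g (c (W.equivFin.symm w').1) = c (W.equivFin.symm w).1 at hg2
      obtain ⟨g', hg', hg''⟩ := fus_elt h (hmem _) (hmem _) hg1 (hc _) (hc _) hg2
      obtain ⟨α, hα, hα'⟩ := exists_EG hφ hr hg'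
      refine hww (W.equivFin.symm.injective (Subtype.ext ?_))
      refine (hWne _ (W.equivFin.symm w').2 _ (W.equivFin.symm w).2 ⟨α, hα, ?_⟩).symm
      apply hφ
      rw [hα', ← hg'', mul_inv_cancel_right])
  have h4 : ∑ w : Fin W.card,
      Nat.card (Quotient (irrInvSetoid (C1 (x w).v) (C1 (x w).v) (x w).c))
      = ∑ v ∈ W, Nat.card (Quotient (irrInvSetoid (C1 (φ v)) (C1 (φ v)) (c v))) := by
    rw [← Finset.sum_coe_sort W
      (fun v => Nat.card (Quotient (irrInvSetoid (C1 (φ v)) (C1 (φ v)) (c v))))]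
    exact Fintype.sum_equiv W.equivFin.symm _ _ fun w => rfl
  rw [h4] at h3
  -- the number of the rows
  have hK : ∀ χ : Ir (KW p k) A, Ker φ ⊥ χ := fun χ z hz x => by
    rw [Subgroup.mem_bot.1 hz, map_one, one_mul]
  have hSc : Nat.card {χ : IrB B // Equiv.refl (IrB B) χ = χ} = Fintype.card (IR φ ⊥ B) := by
    rw [← Nat.card_eq_fintype_card]
    exact Nat.card_congr ⟨fun χ => ⟨χ.1.1, hK _, χ.1.2⟩, fun χ => ⟨⟨χ.1, χ.2.2⟩, rfl⟩,
      fun _ => rfl, fun _ => rfl⟩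
  rw [hSc] at h3
  have hsum : Fintype.card (IR φ ⊥ B) ≤ ∑ v ∈ W, st (EG φ D f) v := by
    refine (ZOx.rows_all hfin (fun χ => hψ.vir χ) (fun u v => hψ.gram u v) (fun χ => ?_) L
      hLcov).trans (orb_all hp hT hpE' L hLne W fun u => ?_)
    · obtain ⟨u₀, hu₀, hst₀⟩ := hreg
      refine ⟨u₀, ?_⟩
      have h1 : u₀ ∉ (⊥ : Subgroup T) := fun h2 => hu₀ (Subgroup.mem_bot.1 h2)
      rw [hψ.out χ _ h1]
      exact rwv_ne hp2 hS hpE hB χ.2.2 h1 ((st_EG hφ hr u₀).1 hst₀)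
    · obtain ⟨v, hv, α, hα, hu⟩ := hWcov u
      exact ⟨v, hv, α, hα, hu⟩
  have h5 := h3.trans hsum
  rw [← Finset.add_sum_erase W _ h1W, ← Finset.add_sum_erase W (fun v => st (EG φ D f) v) h1W,
    hc1, hC1] at h5
  have h6 : ∑ v ∈ W.erase 1, st (EG φ D f) v ≤
      ∑ v ∈ W.erase 1, Nat.card (Quotient (irrInvSetoid (C1 (φ v)) (C1 (φ v)) (c v))) := by
    refine Finset.sum_le_sum fun v hv => ?_
    have hv1 : v ≠ 1 := (Finset.mem_erase.1 hv).1
    have e1 : cq φ (Subgroup.zpowers v) = C1 (φ v) := by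
      rw [cq, MonoidHom.map_zpowers, CD_zpowers]
    have e2 : eQ φ D f (Subgroup.zpowers v) = st (EG φ D f) v :=
      (eQ_sup (R := ⊥) (fun z hz a => by
        rw [Subgroup.mem_bot.1 hz, map_one, one_mul, mul_one]) hφ v).2
    have e3 : LbH (cq φ (Subgroup.zpowers v)) i (c v) := by rw [e1]; exact hc v
    have e4 := l_locn hp2 h hφ hr hF e3 (by rw [e2]; exact hst v hv1)
      (fun E' hE' hfix => hcyc E' hE' ⟨v, hv1, fun α hα => hfix α hα v
        (Subgroup.mem_zpowers v)⟩)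
    rw [e2, e1] at e4
    exact e4
  have h7 : st (EG φ D f) (1 : T) = eN D f := by
    rw [← card_EG (φ := φ) hφ hr, st]
    exact Nat.card_congr ⟨fun a => a.1, fun a => ⟨a, map_one _⟩, fun _ => rfl, fun _ => rfl⟩
  rw [← h7]
  omega

end

end Pool.Agent.Lib.P0c8ca5.Ex
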