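import Mathlib
import Pool.Agent.Lib.P0c8ca5Ex.ZKr

/-!
# ZP: the numerical conditions for the extension lemma with the degree vector

`F` is a `p'`-group of automorphisms of the abelian `p`-group `T` that fixes the elements of `R` and is faithful on
the `p ^ n`-th powers.
* `homogR`: `|F| < p` or `|T : R| ≥ p ^ (2 (n + 1))`.
* `three_reg`: if `|F| < p ^ (n + 1)`, `n ≥ 1`, `F ≠ 1`, then `(|F| + 1)² ≤ |T : R|` and there are three regular
  characters of `T / R` in different orbits.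
-/

set_option linter.unusedSectionVars false

namespace Pool.Agent.Lib.P0c8ca5.Ex.ZKr

open Finset

section
variable {T : Type*} [CommGroup T] [Fintype T] {p : ℕ}

/-- the subgroup `[T, F]` -/
def comm (F : Subgroup (MulAut T)) : Subgroup T :=
  Subgroup.closure {x | ∃ α ∈ F, ∃ u : T, x = u⁻¹ * α u}

theorem comm_mem {F : Subgroup (MulAut T)} {α : MulAut T} (hα : α ∈ F) (u : T) :
    u⁻¹ * α u ∈ comm F := Subgroup.subset_closure ⟨α, hα, u, rfl⟩

theorem comm_map {F : Subgroup (MulAut T)} {α : MulAut T} (hα : α ∈ F) {x : T}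
    (hx : x ∈ comm F) : α x ∈ comm F := by
  have h1 : x * (x⁻¹ * α x) ∈ comm F := (comm F).mul_mem hx (comm_mem hα x)
  rwa [mul_inv_cancel_left] at h1

/-- the norm -/
theorem comm_fix (hp : p.Prime) (hT : IsPGroup p T) {F : Subgroup (MulAut T)}
    (hF : ¬ p ∣ Nat.card F) {x : T} (hx : x ∈ comm F) (hfix : ∀ α ∈ F, α x = x) : x = 1 := by
  classical
  have hfin : Finite F := Nat.finite_of_card_ne_zero fun h => hF (by rw [h]; exact dvd_zero p)
  have : Fintype F := Fintype.ofFinite _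
  let N : T →* T := ∏ h : F, ((h : MulAut T) : T ≃* T).toMonoidHom
  have hN : ∀ u, N u = ∏ h : F, (h : MulAut T) u := by
    intro u
    change (∏ h : F, ((h : MulAut T) : T ≃* T).toMonoidHom) u = _
    rw [MonoidHom.finsetProd_apply]
    rfl
  have h1 : comm F ≤ N.ker := by
    rw [comm, Subgroup.closure_le]
    rintro _ ⟨α, hα, u, rfl⟩
    change N (u⁻¹ * α u) = 1
    rw [map_mul, map_inv, inv_mul_eq_one, hN, hN]
    exact (Fintype.prod_equiv (Equiv.mulRight (⟨α, hα⟩ : F)) _ _ fun g => rfl).symm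
  have h2 : N x = x ^ Nat.card F := by
    rw [hN, prod_congr rfl fun (h : F) _ => hfix h.1 h.2, prod_const, card_univ,
      Nat.card_eq_fintype_card]
  have h3 : x ^ Nat.card F ∈ (⊥ : Subgroup T) := by
    rw [Subgroup.mem_bot, ← h2]
    exact h1 hx
  exact Subgroup.mem_bot.1 (Ku.mem_pow_coprime hp hT hF x ⊥ h3)

/-- `F` acts on the elements of order `p` in `[T, F] ^ (p ^ n)` -/
theorem movedR (hp : p.Prime) (hT : IsPGroup p T) {E : Subgroup (MulAut T)}
    (hE : ¬ p ∣ Nat.card E) {n : ℕ} {φ : MulAut T} (hφ : φ ∈ E)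
    (h : ∃ u : T, (u⁻¹ * φ u) ^ p ^ n ≠ 1) : ∃ a ∈ comm E, a ^ p ^ n ≠ 1 ∧
      (a ^ p ^ n) ^ p = 1 ∧ φ (a ^ p ^ n) ≠ a ^ p ^ n := by
  obtain ⟨u, hu⟩ := h
  obtain ⟨v, hv, hv1, hvp⟩ := Ku.exists_order (p := p) hT
    (H := Subgroup.zpowers ((u⁻¹ * φ u) ^ p ^ n)) (fun h3 => hu (Subgroup.zpowers_eq_bot.1 h3))
  obtain ⟨j, hj⟩ := Subgroup.mem_zpowers_iff.1 hv
  have h1 : v = ((u⁻¹ * φ u) ^ j) ^ p ^ n := by
    rw [← hj, ← zpow_natCast, ← zpow_natCast, ← zpow_mul, ← zpow_mul, mul_comm j]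
  refine ⟨(u⁻¹ * φ u) ^ j, zpow_mem (comm_mem hφ u) _, ?_, ?_, ?_⟩
  · rw [← h1]
    exact hv1
  · rw [← h1]
    exact hvp
  · rw [← h1]
    intro h3
    refine hv1 (Ku.fix_cm hp hT (pow_E hφ) hE ?_ h3)
    rw [h1]
    exact pow_mem (zpow_mem (⟨u, rfl⟩ : u⁻¹ * φ u ∈ (Ku.cm φ).range) _) _

/-- `|F| < p` or `|T : R| ≥ p ^ (2 (n + 1))` -/
theorem homogR (hp : p.Prime) (hT : IsPGroup p T) {E : Subgroup (MulAut T)}
    (hE : ¬ p ∣ Nat.card E) {R : Subgroup T} (hER : ∀ α ∈ E, ∀ z ∈ R, α z = z) {n : ℕ}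
    (hF : ∀ φ ∈ E, φ ≠ 1 → ∃ u : T, (u⁻¹ * φ u) ^ p ^ n ≠ 1) :
    Nat.card E ≤ p - 1 ∨ p ^ (n + 1) * p ^ (n + 1) * Nat.card R ≤ Fintype.card T := by
  classical
  have hp1 := hp.one_lt
  by_cases hE1 : Nat.card E = 1
  · left
    omega
  have : Fintype E := Fintype.ofFinite _
  obtain ⟨φ, hφ, hφ1⟩ := exists_ne hE1
  obtain ⟨a, haK, ha1, hap, -⟩ := movedR hp hT hE hφ (hF φ hφ hφ1)
  by_cases hall : ∀ b ∈ comm E, (b ^ p ^ n) ^ p = 1 → b ^ p ^ n ∈ Subgroup.zpowers (a ^ p ^ n)
  · left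
    have h1 : ∀ α : E, (α : MulAut T) (a ^ p ^ n) ∈ Subgroup.zpowers (a ^ p ^ n) := by
      intro α
      rw [map_pow]
      refine hall _ (comm_map α.2 haK) ?_
      rw [← map_pow, ← map_pow, hap, map_one]
    have h2 : Nat.card E + 1 ≤ Nat.card (Subgroup.zpowers (a ^ p ^ n)) := by
      rw [Nat.card_eq_fintype_card, Nat.card_eq_fintype_card, ← card_univ, ← card_univ]
      have h3 : (univ.image fun α : E => (⟨_, h1 α⟩ : Subgroup.zpowers (a ^ p ^ n))).card
          = (univ : Finset E).card := by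
        refine card_image_of_injective _ fun α β h => ?_
        have h4 : (α : MulAut T) (a ^ p ^ n) = (β : MulAut T) (a ^ p ^ n) := congrArg Subtype.val h
        by_contra hne
        have h5 : ((β⁻¹ * α : E) : MulAut T) ≠ 1 := by
          intro h6
          exact hne (inv_mul_eq_one.1 (Subtype.ext h6 : β⁻¹ * α = 1)).symm
        obtain ⟨b, hbK, -, hbp, hb⟩ := movedR hp hT hE (β⁻¹ * α : E).2 (hF _ (β⁻¹ * α : E).2 h5)
        apply hb
        obtain ⟨j, hj⟩ := Subgroup.mem_zpowers_iff.1 (hall b hbK hbp)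
        rw [← hj, map_zpow]
        congr 1
        apply (β : MulAut T).injective
        rw [Subgroup.coe_mul, Subgroup.coe_inv, inv_mul_app, h4]
      rw [← h3]
      have h6 : (1 : Subgroup.zpowers (a ^ p ^ n)) ∉
          univ.image fun α : E => (⟨_, h1 α⟩ : Subgroup.zpowers (a ^ p ^ n)) := by
        intro h
        obtain ⟨α, -, hα⟩ := mem_image.1 h
        have h7 : (α : MulAut T) (a ^ p ^ n) = 1 := congrArg Subtype.val hα
        exact ha1 ((α : MulAut T).injective (by rw [h7, map_one]))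
      rw [← card_insert_of_notMem h6]
      exact card_le_card (subset_univ _)
    rw [card_zp hp ha1 hap] at h2
    omega
  · right
    push Not at hall
    obtain ⟨b, hbK, hbp, hb⟩ := hall
    have hb1 : b ^ p ^ n ≠ 1 := fun h => hb (by rw [h]; exact one_mem _)
    have := Fact.mk hp
    have hord : ∀ c : T, c ^ p ^ n ≠ 1 → (c ^ p ^ n) ^ p = 1 → orderOf c = p ^ (n + 1) := by
      intro c h1 h2
      exact orderOf_eq_prime_pow h1 (by rw [pow_succ, pow_mul, h2])
    -- the elements of order `p` in `⟨c⟩`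
    have hcyc : ∀ c : T, c ^ p ^ n ≠ 1 → (c ^ p ^ n) ^ p = 1 → ∀ v ∈ Subgroup.zpowers c,
        v ^ p = 1 → v ∈ Subgroup.zpowers (c ^ p ^ n) := by
      intro c h1 h2 v hv hvp
      obtain ⟨i, rfl⟩ := Subgroup.mem_zpowers_iff.1 hv
      have h3 : c ^ (i * p) = 1 := by rw [zpow_mul, zpow_natCast, hvp]
      rw [← orderOf_dvd_iff_zpow_eq_one, hord c h1 h2, pow_succ] at h3
      push_cast at h3
      have h4 : ((p : ℤ) ^ n) ∣ i :=
        Int.dvd_of_mul_dvd_mul_right (Int.natCast_ne_zero.2 hp.ne_zero) h3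
      obtain ⟨j, rfl⟩ := h4
      refine Subgroup.mem_zpowers_iff.2 ⟨j, ?_⟩
      rw [← zpow_natCast, ← zpow_mul]
      push_cast
      rfl
    have haz : Subgroup.zpowers a ≤ comm E := Subgroup.zpowers_le.2 haK
    have hbz : Subgroup.zpowers b ≤ comm E := Subgroup.zpowers_le.2 hbK
    have hinj : Function.Injective fun s : (Subgroup.zpowers a × Subgroup.zpowers b) × R =>
        (s.1.1 : T) * (s.1.2 : T) * (s.2 : T) := by
      rintro ⟨⟨s, t⟩, r⟩ ⟨⟨s', t'⟩, r'⟩ h
      have h0 : (s : T) * (t : T) * (r : T) = (s' : T) * (t' : T) * (r' : T) := h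
      -- the part in `R`
      have hr : (r : T) = r' := by
        have h1 : (r' : T) * (r : T)⁻¹ = ((s' : T) * (t' : T))⁻¹ * ((s : T) * (t : T)) := by
          rw [eq_inv_mul_iff_mul_eq, ← mul_assoc, ← h0, mul_inv_cancel_right]
        have h2 : (r' : T) * (r : T)⁻¹ ∈ comm E := by
          rw [h1]
          exact (comm E).mul_mem ((comm E).inv_mem ((comm E).mul_mem (haz s'.2) (hbz t'.2)))
            ((comm E).mul_mem (haz s.2) (hbz t.2))
        have h3 := comm_fix hp hT hE h2 fun α hα =>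
          hER α hα _ (R.mul_mem r'.2 (R.inv_mem r.2))
        exact (mul_inv_eq_one.1 h3).symm
      have h1 : (s : T) * (t : T) = (s' : T) * (t' : T) := by
        rw [hr] at h0
        exact mul_right_cancel h0
      have h2 : (s : T) * (s' : T)⁻¹ = (t' : T) * (t : T)⁻¹ := by
        rw [mul_inv_eq_iff_eq_mul, mul_assoc, mul_comm (t : T)⁻¹, ← mul_assoc, mul_comm (t' : T),
          ← h1, mul_inv_cancel_right]
      have h3 : (s : T) * (s' : T)⁻¹ = 1 := by
        by_contra h4
        obtain ⟨v, hv, hv1, hvp⟩ := Ku.exists_order (p := p) hT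
          (H := Subgroup.zpowers ((s : T) * (s' : T)⁻¹))
          (fun h3 => h4 (Subgroup.zpowers_eq_bot.1 h3))
        have h5 : v ∈ Subgroup.zpowers a := by
          refine (Subgroup.zpowers_le.2 ?_) hv
          exact (Subgroup.zpowers a).mul_mem s.2 ((Subgroup.zpowers a).inv_mem s'.2)
        have h6 : v ∈ Subgroup.zpowers b := by
          refine (Subgroup.zpowers_le.2 ?_) hv
          rw [h2]
          exact (Subgroup.zpowers b).mul_mem t'.2 ((Subgroup.zpowers b).inv_mem t.2)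
        have h7 := hcyc a ha1 hap v h5 hvp
        have h8 := hcyc b hb1 hbp v h6 hvp
        have h9 : ∀ c : T, c ≠ 1 → c ^ p = 1 → v ∈ Subgroup.zpowers c →
            Subgroup.zpowers v = Subgroup.zpowers c := by
          intro c hc hcp hvc
          refine Subgroup.eq_of_le_of_card_ge (Subgroup.zpowers_le.2 hvc) ?_
          rw [card_zp hp hv1 hvp, card_zp hp hc hcp]
        apply hb
        rw [← h9 _ ha1 hap h7, h9 _ hb1 hbp h8]
        exact Subgroup.mem_zpowers _
      have h4 : (s : T) = s' := mul_inv_eq_one.1 h3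
      have h5 : (t : T) = t' := by
        rw [h4] at h1
        exact mul_left_cancel h1
      exact Prod.ext (Prod.ext (Subtype.ext h4) (Subtype.ext h5)) (Subtype.ext hr)
    have h3 := Nat.card_le_card_of_injective _ hinj
    rw [Nat.card_prod, Nat.card_prod, Nat.card_zpowers, Nat.card_zpowers, hord a ha1 hap,
      hord b hb1 hbp, Nat.card_eq_fintype_card (α := T)] at h3
    exact h3

end

section
variable {T : Type*} [CommGroup T] [Fintype T] {K : Type*} [Field K] [CharZero K]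
  [HasEnoughRootsOfUnity K (Monoid.exponent T)] {p : ℕ}

/-- three regular characters and `(|F| + 1)² ≤ |T : R|` -/
theorem three_reg (hp : p.Prime) (hT : IsPGroup p T) {E : Subgroup (MulAut T)}
    (hE : ¬ p ∣ Nat.card E) {R : Subgroup T} (hER : ∀ α ∈ E, ∀ z ∈ R, α z = z) {n : ℕ}
    (hn : 1 ≤ n) (hF : ∀ φ ∈ E, φ ≠ 1 → ∃ u : T, (u⁻¹ * φ u) ^ p ^ n ≠ 1)
    (hE1 : Nat.card E ≠ 1) (hEn : Nat.card E < p ^ (n + 1)) :
    (Nat.card E + 1) ^ 2 * Nat.card R ≤ Fintype.card T ∧
    ∃ a : Fin 3 → (T →* Kˣ), (∀ j, eqP R (a j) 1) ∧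
      (∀ j, ∀ α ∈ E, (∀ u, a j (α u) = a j u) → α = 1) ∧
      ∀ j k, j ≠ k → ∀ α ∈ E, ¬ ∀ u, a j (α u) = a k u := by
  classical
  have hp1 := hp.one_lt
  have hR0 : 0 < Nat.card R := Nat.card_pos
  have hE0 : 0 < Nat.card E := Nat.card_pos
  have hq := hq_of hp hT hF
  obtain ⟨φ, hφ, hφ1⟩ := exists_ne hE1
  have hd := Nat.le_of_dvd Fintype.card_pos (fix_dvd (hER φ hφ) (cm_dvd hp hT (hF φ hφ hφ1)))
  have hqp : p * p ≤ p ^ (n + 1) := by
    rw [← sq]
    exact Nat.pow_le_pow_right hp.pos (by omega)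
  have hor := homogR hp hT hE hER hF
  generalize hqd : p ^ (n + 1) = q at *
  refine ⟨?_, ?_⟩
  · rcases hor with h | h
    · refine le_trans (Nat.mul_le_mul_right _ ?_) hd
      rw [sq]
      exact (Nat.mul_le_mul (by omega) (by omega)).trans hqp
    · refine le_trans (Nat.mul_le_mul_right _ ?_) h
      rw [sq]
      exact Nat.mul_le_mul hEn hEn
  · have hFt : Fact (∀ α ∈ E, ∀ z ∈ R, α z = z) := ⟨hER⟩
    have : Fintype E := Fintype.ofFinite _
    have hcE : Nat.card E = Fintype.card E := Nat.card_eq_fintype_card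
    have h1 := card_reg_ge (Λ := YLx.LR K R) (E := E) (q := q) fun h hh => fix_LRq hp hT hE hq hh
    have h2 := YLx.card_LR (K := K) R
    -- `L = |T : R|`
    generalize hL : Fintype.card (YLx.LR K R) = L at *
    have hLq : q ≤ L := by
      rw [← h2, mul_comm] at hd
      exact Nat.le_of_mul_le_mul_left hd hR0
    have h3 : 2 * Fintype.card E
        < (univ.filter fun a : YLx.LR K R => nn E a a = 1).card := by
      rw [← hcE] at h1 ⊢
      by_contra hcon
      push Not at hcon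
      have h4 : q * (univ.filter fun a : YLx.LR K R => nn E a a = 1).card
          ≤ q * (2 * Nat.card E) := Nat.mul_le_mul_left _ hcon
      have h5 : q * L ≤ q * (2 * Nat.card E) + (Nat.card E - 1) * L := h1.trans (by omega)
      obtain ⟨e, he⟩ := Nat.exists_eq_add_of_le (show 1 ≤ Nat.card E by omega)
      rw [he] at h5 hEn hor
      rw [Nat.add_sub_cancel_left] at h5
      obtain ⟨d, hd'⟩ := Nat.exists_eq_add_of_lt hEn
      -- `q = 1 + e + d + 1`
      have h6 : (d + 2) * L ≤ q * (2 * (1 + e)) := by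
        have h7 : q * L = e * L + (d + 2) * L := by rw [hd']; ring
        omega
      rcases hor with h | h
      · -- `e + 1 ≤ p - 1`
        have h8 : (d + 2) * q ≤ q * (2 * (1 + e)) := (Nat.mul_le_mul_left _ hLq).trans h6
        have h9 : d + 2 ≤ 2 * (1 + e) := by
          rw [mul_comm] at h8
          exact Nat.le_of_mul_le_mul_left h8 (by omega)
        obtain ⟨c, hc⟩ := Nat.exists_eq_add_of_le (show e + 2 ≤ p by omega)
        rw [hc] at hqp
        nlinarith [Nat.zero_le e, Nat.zero_le c, Nat.zero_le (c * e), Nat.zero_le (c * c),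
          Nat.zero_le (e * e)]
      · have h8 : q * q ≤ L := by
          rw [← h2] at h
          rw [mul_comm (Nat.card R)] at h
          exact Nat.le_of_mul_le_mul_right h hR0
        have h9 : 2 * (q * q) ≤ q * (2 * (1 + e)) := by
          calc 2 * (q * q) ≤ (d + 2) * (q * q) := Nat.mul_le_mul_right _ (by omega)
            _ ≤ (d + 2) * L := Nat.mul_le_mul_left _ h8
            _ ≤ _ := h6
        have h10 : q * (2 * q) ≤ q * (2 * (1 + e)) := by
          calc q * (2 * q) = 2 * (q * q) := by ring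
            _ ≤ _ := h9
        have h11 := Nat.le_of_mul_le_mul_left h10 (by omega)
        omega
    obtain ⟨a, ha1, ha0⟩ := reg_pts (E := E) 2 h3
    refine ⟨fun j => (a j).1, fun j => (a j).2, fun j α hα hj => ?_, fun j k hjk α hα hj => ?_⟩
    · have h4 := ha1 j
      have h5 : (⟨α, hα⟩ : E)⁻¹ • a j = a j := (ZBx.smul_iff _ _ _).2 fun u => by
        rw [inv_inv]
        exact hj u
      unfold nn at h4
      have h6 : (univ.filter fun h : E => h • a j = a j).card = 1 := by exact_mod_cast h4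
      obtain ⟨g, hg⟩ := card_eq_one.1 h6
      have h7 : (⟨α, hα⟩ : E)⁻¹ ∈ univ.filter fun h : E => h • a j = a j :=
        mem_filter.2 ⟨mem_univ _, h5⟩
      have h8 : (1 : E) ∈ univ.filter fun h : E => h • a j = a j :=
        mem_filter.2 ⟨mem_univ _, one_smul _ _⟩
      rw [hg, mem_singleton] at h7 h8
      have h9 : (⟨α, hα⟩ : E) = 1 := inv_eq_one.1 (h7.trans h8.symm)
      exact congrArg Subtype.val h9
    · have h4 := ha0 k j (Ne.symm hjk)
      have h5 : (⟨α, hα⟩ : E)⁻¹ • a j = a k := (ZBx.smul_iff _ _ _).2 fun u => by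
        rw [inv_inv]
        exact hj u
      unfold nn at h4
      have h6 : (univ.filter fun h : E => h • a j = a k).card = 0 := by exact_mod_cast h4
      have h7 : (⟨α, hα⟩ : E)⁻¹ ∈ univ.filter fun h : E => h • a j = a k :=
        mem_filter.2 ⟨mem_univ _, h5⟩
      rw [card_eq_zero.1 h6] at h7
      exact absurd h7 (notMem_empty _)

end

end Pool.Agent.Lib.P0c8ca5.Ex.ZKr
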