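import Mathlib
import Pool.Agent.Lib.P0c8ca5Ex.ZN
import Pool.Agent.Lib.P0c8ca5Ex.ZOb
import Pool.Agent.Lib.P0c8ca5Ex.ZP
import Pool.Agent.Lib.P0c8ca5Ex.W1d

/-!
# ZQ: abelian defect groups of any rank with cyclic stabilizers

`E` is faithful on the `p ^ n`-th powers of `D`, `n ≥ 1`, `|E| < p ^ (n + 1)`, and the stabilizer in `E` of each
`u ∈ D - 1` is cyclic with `|E_u| ^ 2 < p ^ (n + 1) * (p - 1)`. Then `l(b)` is the number of weights and at most `|E|`.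
* `k2_genY`: conditions on the action on `T = D`.
* `k2_cycn`: the theorem.
* `k2_rank2n`: the case of rank at most `2`.
-/

set_option linter.unusedSectionVars false

namespace Pool.Agent.Lib.P0c8ca5.Ex

universe u v

open MonoidAlgebra Kq Kk ZMAux YZx ZFx ZFc

namespace ZQx

section
variable {T : Type*} [CommGroup T] [Fintype T] {K : Type*} [Field K] [CharZero K]
  [HasEnoughRootsOfUnity K (Monoid.exponent T)] {p : ℕ}

theorem fx_le {E : Subgroup (MulAut T)} {Q : Subgroup T} {x : T} (hx : x ∈ Q) :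
    Nat.card (Fx E Q) ≤ st E x := by
  have hfin : Finite (MulAut T) := Finite.of_injective (fun φ : MulAut T => (φ : T → T))
    (fun a b h => MulEquiv.ext fun x => congrFun h x)
  rw [st]
  refine Nat.card_le_card_of_injective (fun α : Fx E Q =>
    (⟨⟨α.1, α.2.1⟩, α.2.2 x hx⟩ : {φ : E // (φ : MulAut T) x = x})) ?_
  intro α β h
  exact Subtype.ext (congrArg (fun z : {φ : E // (φ : MulAut T) x = x} =>
    ((z : E) : MulAut T)) h)

theorem st_le_card {E : Subgroup (MulAut T)} (x : T) : st E x ≤ Nat.card E := by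
  have hfin : Finite (MulAut T) := Finite.of_injective (fun φ : MulAut T => (φ : T → T))
    (fun a b h => MulEquiv.ext fun x => congrFun h x)
  rw [st]
  exact Nat.card_le_card_of_injective Subtype.val Subtype.val_injective

/-- `MTD` for a group that fixes `R` -/
theorem mtd_of (hp : p.Prime) (hp2 : p ≠ 2) (hT : IsPGroup p T) {E : Subgroup (MulAut T)}
    (hE : ¬ p ∣ Nat.card E) {n : ℕ} (hn : 1 ≤ n)
    (hF : ∀ φ ∈ E, φ ≠ 1 → ∃ u : T, (u⁻¹ * φ u) ^ p ^ n ≠ 1) (hEn : Nat.card E < p ^ (n + 1))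
    {R : Subgroup T} (hR : R ≠ ⊤) (hER : ∀ α ∈ E, ∀ z ∈ R, α z = z) : MTD K E R := by
  by_cases h1 : Nat.card E = 1
  · exact MTD.of_or (Or.inl (ZKr.many_one hp hp2 hT hR h1))
  · exact MTD.of_deg (ZKr.three_reg hp hT hE hER hn hF h1 hEn)

/-- `BigY` -/
theorem bigY_of (hp : p.Prime) (hp2 : p ≠ 2) (hT : IsPGroup p T) {E : Subgroup (MulAut T)}
    (hE : ¬ p ∣ Nat.card E) {n : ℕ} (hn : 1 ≤ n)
    (hF : ∀ φ ∈ E, φ ≠ 1 → ∃ u : T, (u⁻¹ * φ u) ^ p ^ n ≠ 1) (hEn : Nat.card E < p ^ (n + 1))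
    (hst : ∀ u : T, u ≠ 1 → st E u ^ 2 < p ^ (n + 1) * (p - 1))
    {Q : Subgroup T} (hQ : Q ≠ ⊥) (hQ' : Q ≠ ⊤) : BigY K p (p ^ (n + 1)) E Q := by
  have hfin : Finite (MulAut T) := Finite.of_injective (fun φ : MulAut T => (φ : T → T))
    (fun a b h => MulEquiv.ext fun x => congrFun h x)
  have hle : Fx E Q ≤ E := fun α hα => hα.1
  have hfix : ∀ α ∈ Fx E Q, ∀ z ∈ Q, α z = z := fun α hα z hz => hα.2 z hz
  refine ⟨mtd_of hp hp2 hT (fun h1 => hE (h1.trans (Subgroup.card_dvd_of_le hle))) hn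
    (fun φ hφ => hF φ (hle hφ)) (lt_of_le_of_lt (Subgroup.card_le_of_le hle) hEn) hQ' hfix, ?_, ?_⟩
  · obtain ⟨x, hx, hx1⟩ := (Subgroup.bot_or_exists_ne_one Q).resolve_left hQ
    exact lt_of_le_of_lt (Nat.pow_le_pow_left (fx_le hx) 2) (hst x hx1)
  · by_cases h1 : Nat.card (Fx E Q) = 1
    · exact Or.inl h1
    · obtain ⟨φ, hφ, hφ1⟩ := ZKr.exists_ne h1
      exact Or.inr (ZKr.fix_dvd (hfix φ hφ) (ZKr.cm_dvd hp hT (hF φ (hle hφ) hφ1)))

end

end ZQx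

open ZQx

section
variable {p : ℕ} [Fact p.Prime] {k : Type v} [Field k] [IsAlgClosed k] [CharP k p]
  {A : Type u} [Group A] [Fintype A] {T : Type*} [CommGroup T] [Fintype T]
  {φ : T →* A} {b f i : MonoidAlgebra k A} {D : Subgroup A}

theorem l_le_cycn_src (hp2 : p ≠ 2) (h : Src p b D f i)
    (hφ : Function.Injective φ) (hr : ∀ x, x ∈ D ↔ ∃ t, φ t = x) (hpE : ¬ p ∣ eN D f)
    (hnt : Nontrivial T) {n : ℕ} (hn : 1 ≤ n) (hF : Ku.Faith p n D f)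
    (hE : eN D f < p ^ (n + 1))
    (hst : ∀ u : T, u ≠ 1 → st (EG φ D f) u ^ 2 < p ^ (n + 1) * (p - 1))
    (hcyc : ∀ E' ≤ EG φ D f, (∃ u : T, u ≠ 1 ∧ ∀ α ∈ E', α u = u) → IsCyclic ↥E') :
    Nat.card (Quotient (irrInvSetoid (⊤ : Subgroup A) ⊤ b)) ≤ eN D f := by
  have hp : p.Prime := Fact.out
  have hb := h.root.blk
  obtain ⟨M, hM⟩ := pow_one_of h
  have hT : IsPGroup p T := fun u => ⟨M, hφ (by
    rw [map_pow, map_one]
    exact hM (φ u) ((hr _).2 ⟨u, rfl⟩))⟩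
  have hcard : Nat.card (EG φ D f) = eN D f := card_EG hφ hr
  have hpE' : ¬ p ∣ Nat.card (EG φ D f) := by rwa [hcard]
  have hf := faith_T hφ hr hF
  obtain ⟨B, hB⟩ := exists_cenL (p := p) hb.idem
    (fun g => invBy_iff_cj.1 hb.invBy g (Subgroup.mem_top g))
  obtain ⟨G, ψ, hS, hψ⟩ := exists_rows_botY (q := p ^ (n + 1)) hp2
    (dvd_pow_self p (by omega)) h hφ hr hpE
    (fun Q hQ hQ' => bigY_of hp hp2 hT hpE' hn hf (by rw [hcard]; exact hE) hst hQ hQ')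
    (mtd_of hp hp2 hT hpE' hn hf (by rw [hcard]; exact hE) bot_ne_top
      (fun α _ z hz => by rw [Subgroup.mem_bot.1 hz, map_one])) hB
  refine l_le_cycn hp2 hS hpE hB hψ ?_ hF (fun u _ => ?_) hcyc
  · exact exists_reg_of (EG φ D f) (q := p ^ (n + 1))
      (fun φ hφE hφ1 => range_ge hp hT (hf φ hφE hφ1)) (by rw [hcard]; exact hE.le)
      Finite.one_lt_card
  · exact (st_le_card u).trans (by rw [hcard]; exact hE.le)

end

section
variable {p : ℕ} [Fact p.Prime] {k : Type v} [Field k] [IsAlgClosed k] [CharP k p]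
  {A : Type u} [Group A] [Fintype A] {b f i : MonoidAlgebra k A} {D : Subgroup A}

/-- the general form: conditions on the action of `E` on `T = D` -/
theorem k2_genY (hp2 : p ≠ 2) (h : Root p b D f) {n : ℕ} (hn : 1 ≤ n) (hF : Ku.Faith p n D f)
    (hE : eN D f < p ^ (n + 1))
    (hyp : ∀ (T : Type u) [CommGroup T] [Fintype T] (φ : T →* A)
      (_ : IsPGroup p T) (_ : Function.Injective φ) (_ : ∀ x, x ∈ D ↔ ∃ t, φ t = x)
      (_ : ¬ p ∣ Nat.card (EG φ D f)),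
      (∀ u : T, u ≠ 1 → st (EG φ D f) u ^ 2 < p ^ (n + 1) * (p - 1)) ∧
      (∀ E' ≤ EG φ D f, (∃ u : T, u ≠ 1 ∧ ∀ α ∈ E', α u = u) → IsCyclic ↥E')) :
    gap p (⊤ : Subgroup A) ⊤ b = 0 ∧
      Nat.card (Quotient (irrInvSetoid (⊤ : Subgroup A) ⊤ b)) ≤ eN D f := by
  have hp : p.Prime := Fact.out
  have hpE : ¬ p ∣ eN D f := Ku.ndvd h
  suffices hl : Nat.card (Quotient (irrInvSetoid (⊤ : Subgroup A) ⊤ b)) ≤ eN D f from
    l_eq_of hp2 h hF (hl.trans hE.le) hE.le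
  by_cases hD : D = ⊥
  · refine l_le hp2 h fun g _ u hu hu1 _ => ?_
    rw [hD, Subgroup.mem_bot] at hu
    exact absurd hu hu1
  obtain ⟨i, hi⟩ := exists_src h
  let _ : CommGroup ↥D := cgrp D h.com
  let _ : Fintype ↥D := Fintype.ofFinite _
  obtain ⟨x, hx, hx1⟩ := (Subgroup.bot_or_exists_ne_one D).resolve_left hD
  have hnt : Nontrivial ↥D := ⟨⟨⟨x, hx⟩, 1, fun h1 => hx1 (congrArg Subtype.val h1)⟩⟩
  have hφ : Function.Injective (D.subtype : ↥D →* A) := Subtype.val_injective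
  have hrD : ∀ x, x ∈ D ↔ ∃ t, (D.subtype : ↥D →* A) t = x :=
    fun x => ⟨fun hx => ⟨⟨x, hx⟩, rfl⟩, by rintro ⟨t, rfl⟩; exact t.2⟩
  obtain ⟨M, hM⟩ := pow_one_of hi
  have hT : IsPGroup p ↥D := fun u => ⟨M, Subtype.ext (hM u u.2)⟩
  have hcard : Nat.card (EG D.subtype D f) = eN D f := card_EG hφ hrD
  have hpE' : ¬ p ∣ Nat.card (EG D.subtype D f) := by rwa [hcard]
  obtain ⟨h1, h2⟩ := hyp ↥D D.subtype hT hφ hrD hpE'
  exact l_le_cycn_src hp2 hi hφ hrD hpE hnt hn hF hE h1 h2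

/-- **any rank**: `|E| < p ^ (n + 1)`, `E` faithful on the `p ^ n`-th powers, the stabilizers of the
elements `≠ 1` cyclic with `|E_u| ^ 2 < p ^ (n + 1) * (p - 1)` -/
theorem k2_cycn (hp2 : p ≠ 2) (h : Root p b D f) {n : ℕ} (hn : 1 ≤ n) (hF : Ku.Faith p n D f)
    (hE : eN D f < p ^ (n + 1))
    (hcyc : ∀ u ∈ D, u ≠ 1 → ∃ g₀ ∈ St D f, ∃ m : ℕ, 0 < m ∧ m ^ 2 < p ^ (n + 1) * (p - 1) ∧
      g₀ ^ m ∈ CD D ∧ ∀ g ∈ St D f, g * u = u * g → ∃ j : ℕ, (g₀ ^ j)⁻¹ * g ∈ CD D) :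
    gap p (⊤ : Subgroup A) ⊤ b = 0 ∧
      Nat.card (Quotient (irrInvSetoid (⊤ : Subgroup A) ⊤ b)) ≤ eN D f := by
  refine k2_genY hp2 h hn hF hE ?_
  intro T _ _ φ hT hφ hrD hpE'
  have key : ∀ u : T, u ≠ 1 → ∃ α₀ : MulAut T, ∃ m : ℕ, 0 < m ∧ m ^ 2 < p ^ (n + 1) * (p - 1) ∧
      α₀ ^ m = 1 ∧ ∀ α ∈ EG φ D f, α u = u → ∃ j : ℕ, α = α₀ ^ j := by
    intro u hu
    obtain ⟨g₀, hg₀, m, hm0, hmp, hgm, hj⟩ := hcyc (φ u) ((hrD _).2 ⟨u, rfl⟩)
      (fun h2 => hu (hφ (by rw [h2, map_one])))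
    obtain ⟨α₀, hα₀, hα₀'⟩ := exists_EG (f := f) hφ hrD hg₀
    have hpw : ∀ j : ℕ, ∀ t, φ ((α₀ ^ j) t) = g₀ ^ j * φ t * (g₀ ^ j)⁻¹ := by
      intro j
      induction j with
      | zero => intro t; simp
      | succ j ih =>
        intro t
        rw [pow_succ', MulAut.mul_apply, hα₀', ih, pow_succ']
        group
    refine ⟨α₀, m, hm0, hmp, ?_, ?_⟩
    · ext t
      apply hφ
      rw [hpw m t, MulAut.one_apply,
        ← Subgroup.mem_centralizer_iff.1 hgm (φ t) ((hrD _).2 ⟨t, rfl⟩), mul_inv_cancel_right]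
    · rintro α ⟨g, hg, hgα⟩ hαu
      have h2 := hgα u
      rw [hαu] at h2
      obtain ⟨j, hj'⟩ := hj g hg (eq_mul_inv_iff_mul_eq.1 h2).symm
      refine ⟨j, ?_⟩
      ext t
      apply hφ
      rw [hgα t, hpw j t]
      have h3 := Subgroup.mem_centralizer_iff.1 hj' (φ t) ((hrD _).2 ⟨t, rfl⟩)
      have h4 : g * φ t = g₀ ^ j * φ t * ((g₀ ^ j)⁻¹ * g) := by
        rw [mul_assoc, h3]
        group
      rw [h4]
      group
  refine ⟨fun u hu => ?_, fun E' hE' ⟨u, hu, hfix⟩ => ?_⟩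
  · obtain ⟨α₀, m, hm0, hmp, hαm, hj⟩ := key u hu
    refine lt_of_le_of_lt (Nat.pow_le_pow_left ?_ 2) hmp
    have h1 : ∀ a : {α : EG φ D f // (α : MulAut T) u = u},
        ∃ j : Fin m, ((a.1 : EG φ D f) : MulAut T) = α₀ ^ (j : ℕ) := by
      intro a
      obtain ⟨j, hj'⟩ := hj _ a.1.2 a.2
      refine ⟨⟨j % m, Nat.mod_lt _ hm0⟩, ?_⟩
      rw [hj']
      conv_lhs => rw [← Nat.mod_add_div j m, pow_add, pow_mul, hαm, one_pow, mul_one]
    choose F hFj using h1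
    rw [st]
    have h2 := Nat.card_le_card_of_injective F (by
      intro a c hac
      refine Subtype.ext (Subtype.ext ?_)
      rw [hFj a, hFj c, hac])
    rwa [Nat.card_eq_fintype_card (α := Fin m), Fintype.card_fin] at h2
  · obtain ⟨α₀, m, hm0, hmp, hαm, hj⟩ := key u hu
    have h1 : E' ≤ Subgroup.zpowers α₀ := by
      intro α hα
      obtain ⟨j, rfl⟩ := hj α (hE' hα) (hfix α hα)
      exact Subgroup.npow_mem_zpowers _ _
    have h2 : IsCyclic (Subgroup.zpowers α₀) := inferInstance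
    exact isCyclic_of_injective (Subgroup.inclusion h1) (Subgroup.inclusion_injective h1)

/-- **rank at most `2`**: `|E| < p ^ (n + 1)`, `E` faithful on the `p ^ n`-th powers, `n ≥ 1` -/
theorem k2_rank2n (hp2 : p ≠ 2) (h : Root p b D f)
    (hr : Nat.card {x : A // x ∈ D ∧ x ^ p = 1} ≤ p ^ 2) {n : ℕ} (hn : 1 ≤ n)
    (hF : Ku.Faith p n D f) (hE : eN D f < p ^ (n + 1)) :
    gap p (⊤ : Subgroup A) ⊤ b = 0 ∧
      Nat.card (Quotient (irrInvSetoid (⊤ : Subgroup A) ⊤ b)) ≤ eN D f := by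
  have hp : p.Prime := Fact.out
  have hp1 := hp.one_lt
  refine k2_genY hp2 h hn hF hE ?_
  intro T _ _ φ hT hφ hrD hpE'
  have hrT : Nat.card {x : T // x ^ p = 1} ≤ p ^ 2 := by
    refine le_trans ?_ hr
    refine Nat.card_le_card_of_injective (fun x : {x : T // x ^ p = 1} =>
      (⟨φ x.1, (hrD _).2 ⟨x.1, rfl⟩, by rw [← map_pow, x.2, map_one]⟩ :
        {x : A // x ∈ D ∧ x ^ p = 1})) ?_
    intro x y hxy
    exact Subtype.ext (hφ (congrArg Subtype.val hxy))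
  refine ⟨fun u hu => ?_, fun E' hE' ⟨u, hu, hfix⟩ => cyc_of_fix hp hT ?_ hrT hu hfix⟩
  · have h1 := st_lt hp hT hpE' hrT hu
    have h2 : st (EG φ D f) u ≤ p - 1 := by omega
    calc st (EG φ D f) u ^ 2 ≤ (p - 1) ^ 2 := Nat.pow_le_pow_left h2 2
      _ = (p - 1) * (p - 1) := sq _
      _ < p * (p - 1) := Nat.mul_lt_mul_of_pos_right (by omega) (by omega)
      _ ≤ p ^ (n + 1) * (p - 1) := Nat.mul_le_mul_right _ (Nat.le_self_pow (by omega) p)
  · exact fun h1 => hpE' (h1.trans (Subgroup.card_dvd_of_le hE'))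

end

end Pool.Agent.Lib.P0c8ca5.Ex
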