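import Mathlib
import Pool.Agent.Lib.P0c8ca5Ex.ZF

/-!
# V1a: the rows which are invariant under a generator of the units, `|E| < p`

`E ≤ Aut(T)` with `|E| + 1 ≤ p`, rows `ψ i ∈ vir T` with the Gram matrix of the `E`-set `T`; `t` a generator of the units modulo `p ^ m`;
`S` a set of rows with `ψ i (u ^ t) = ψ i u`; `M i l` the multiplicities.

`fixed_row`: if `i ∈ S`, `l ≠ 1` and `M i l ≠ 0` then `|E| + 1 = p`, the orbit `O` of `l` under `E` and `t` consists of the `p - 1` characters
`l' ≠ 1` with kernel containing that of `l`, the index of the kernel is `p`, and `M i l' = M i l = ± 1` for `l' ∈ O`, `M i l' = 0` for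
`l' ∉ O`; `M j l = 0` for the other `j ∈ S`.
-/

set_option linter.unusedSectionVars false

namespace Pool.Agent.Lib.P0c8ca5.Ex

open Finset YLx YZx ZFx

namespace V1x

section
variable {T : Type*} [CommGroup T] [Fintype T] {K : Type*} [Field K] [CharZero K]
  [HasEnoughRootsOfUnity K (Monoid.exponent T)]

/-- the orbit of `l` under `E` and the powers `t ^ j` -/
def Orb (E : Subgroup (MulAut T)) (t : ℕ) (l l' : T →* Kˣ) : Prop :=
  ∃ α ∈ E, ∃ j : ℕ, l' = pw (dl l α) (t ^ j)

theorem orb_self (E : Subgroup (MulAut T)) (t : ℕ) (l : T →* Kˣ) : Orb E t l l :=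
  ⟨1, E.one_mem, 0, by rw [pow_zero, pw_one, dl_one]⟩

theorem orb_dl {E : Subgroup (MulAut T)} {t : ℕ} {l l' : T →* Kˣ} (h : Orb E t l l')
    {β : MulAut T} (hβ : β ∈ E) : Orb E t l (dl l' β) := by
  obtain ⟨α, hα, j, rfl⟩ := h
  exact ⟨α * β, E.mul_mem hα hβ, j, by rw [dl_pw, dl_mul]⟩

theorem orb_pw {E : Subgroup (MulAut T)} {t : ℕ} {l l' : T →* Kˣ} (h : Orb E t l l') (j : ℕ) :
    Orb E t l (pw l' (t ^ j)) := by
  obtain ⟨α, hα, i, rfl⟩ := h
  exact ⟨α, hα, i + j, by rw [← pw_mul, pow_add]⟩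

theorem orb_of_dl {E : Subgroup (MulAut T)} {t : ℕ} {l l' : T →* Kˣ} {β : MulAut T}
    (hβ : β ∈ E) (h : Orb E t l (dl l' β)) : Orb E t l l' := by
  have h1 := orb_dl h (E.inv_mem hβ)
  rwa [← dl_mul, mul_inv_cancel, dl_one] at h1

variable {I : Type*} [Fintype I] {ψ : I → T → K} {E : Subgroup (MulAut T)}
  {M : I → (T →* Kˣ) → ℤ}

theorem M_dl [Fintype E] (hgram : ∀ a c : T →* Kˣ, ∑ i, M i a * M i c = (cn E a c : ℤ))
    {β : MulAut T} (hβ : β ∈ E) (l : T →* Kˣ) (i : I) : M i (dl l β) = M i l := by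
  have h1 : ∑ i, (M i (dl l β) - M i l) ^ 2 = 0 := by
    have h2 : ∀ i, (M i (dl l β) - M i l) ^ 2 = M i (dl l β) * M i (dl l β)
        - 2 * (M i (dl l β) * M i l) + M i l * M i l := fun i => by ring
    rw [sum_congr rfl fun i _ => h2 i, sum_add_distrib, sum_sub_distrib, ← mul_sum, hgram, hgram,
      hgram, cn_dl_right E _ _ hβ, cn_dl_left E _ _ hβ]
    ring
  have h2 := (sum_eq_zero_iff_of_nonneg fun i _ => sq_nonneg _).1 h1 i (mem_univ i)
  have h3 := pow_eq_zero_iff (n := 2) (by norm_num) |>.1 h2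
  linarith

open Classical in
theorem sum_cn [Fintype E] {t : ℕ} {l l' : T →* Kˣ} :
    ∑ μ ∈ univ.filter (Orb E t l), cn E μ l' = if Orb E t l l' then Fintype.card E else 0 := by
  unfold cn
  have h1 := card_eq_sum_card_fiberwise (s := univ.filter fun α : E => Orb E t l (dl l' (α : MulAut T)))
    (t := univ.filter (Orb E t l)) (f := fun α : E => dl l' (α : MulAut T)) (fun α hα => by
      exact mem_coe.2 (mem_filter.2 ⟨mem_univ _, (mem_filter.1 hα).2⟩))
  have h2 : ∑ μ ∈ univ.filter (Orb E t l), (univ.filter fun α : E => dl l' (α : MulAut T) = μ).card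
      = (univ.filter fun α : E => Orb E t l (dl l' (α : MulAut T))).card := by
    rw [h1]
    refine sum_congr rfl fun μ hμ => ?_
    congr 1
    ext α
    simp only [mem_filter, mem_univ, true_and]
    constructor
    · rintro rfl
      exact ⟨(mem_filter.1 hμ).2, rfl⟩
    · exact fun h => h.2
  rw [h2]
  split_ifs with h3
  · rw [← card_univ]
    congr 1
    ext α
    simp only [mem_filter, mem_univ, true_and, iff_true]
    exact orb_dl h3 α.2
  · rw [card_eq_zero, filter_eq_empty_iff]
    intro α _ h4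
    exact h3 (orb_of_dl α.2 h4)

open Classical in
/-- the values of the sum of the nontrivial characters which are trivial on the kernel -/
theorem sum_ker {l : T →* Kˣ} (u : T) :
    ∑ l' ∈ univ.filter (fun l' : T →* Kˣ => eqP l.ker l' 1), chr l' u
      = if l u = 1 then ((univ.filter (fun l' : T →* Kˣ => eqP l.ker l' 1)).card : K) else 0 := by
  split_ifs with h
  · rw [sum_congr rfl (g := fun _ => (1 : K)) fun l' hl' => ?_, sum_const, nsmul_eq_mul, mul_one]
    have h1 := (mem_filter.1 hl').2 u h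
    unfold chr
    rw [h1, MonoidHom.one_apply, Units.val_one]
  · set F := univ.filter (fun l' : T →* Kˣ => eqP l.ker l' 1) with hF
    have h1 : ∑ l' ∈ F, chr (l * l') u = ∑ l' ∈ F, chr l' u := by
      refine sum_bij (fun l' _ => l * l') ?_ ?_ ?_ ?_
      · intro l' hl'
        refine mem_filter.2 ⟨mem_univ _, fun v hv => ?_⟩
        rw [MonoidHom.mul_apply, (mem_filter.1 hl').2 v hv, MonoidHom.mem_ker.1 hv, one_mul]
      · intro a _ c _ hac
        exact mul_left_cancel hac
      · intro l' hl'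
        refine ⟨l⁻¹ * l', mem_filter.2 ⟨mem_univ _, fun v hv => ?_⟩, ?_⟩
        · rw [MonoidHom.mul_apply, (mem_filter.1 hl').2 v hv, MonoidHom.inv_apply,
            MonoidHom.mem_ker.1 hv, inv_one, one_mul, MonoidHom.one_apply]
        · ext v
          rw [MonoidHom.mul_apply, MonoidHom.mul_apply, MonoidHom.inv_apply, mul_inv_cancel_left]
      · intro l' _
        rfl
    have h2 : ∑ l' ∈ F, chr (l * l') u = chr l u * ∑ l' ∈ F, chr l' u := by
      rw [mul_sum]
      refine sum_congr rfl fun l' _ => ?_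
      rw [chr_mul, Pi.mul_apply]
    rw [h1] at h2
    have h3 : (1 - chr l u) * ∑ l' ∈ F, chr l' u = 0 := by
      rw [sub_mul, one_mul, ← h2, sub_self]
    refine (mul_eq_zero.1 h3).resolve_left fun h4 => h ?_
    exact Units.ext (sub_eq_zero.1 h4).symm

end

end V1x

open V1x

section
variable {T : Type*} [CommGroup T] [Fintype T] {K : Type*} [Field K] [CharZero K]
  [HasEnoughRootsOfUnity K (Monoid.exponent T)]

/-- **the invariant rows** -/
theorem fixed_row {p : ℕ} (hp : p.Prime) (hT : IsPGroup p T) {E : Subgroup (MulAut T)}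
    (hE : Nat.card E + 1 ≤ p) {I : Type*} [Fintype I] {ψ : I → T → K}
    (hG : ∀ u v, GramR E ⊥ ψ u v) {M : I → (T →* Kˣ) → ℤ}
    (hM : ∀ i l, mlt (ψ i) l = (M i l : K)) {m t : ℕ}
    (hTm : ∀ u : T, u ^ p ^ m = 1) (htp : t.Coprime p)
    (htg : ∀ n : ℕ, n.Coprime p → ∃ j : ℕ, n ≡ t ^ j [MOD p ^ m])
    (ht : ∀ n : ℕ, 0 < n → p ∣ t ^ n - 1 → p - 1 ≤ n) (S : Finset I)
    (hS : ∀ i ∈ S, ∀ u, ψ i (u ^ t) = ψ i u) {i : I} (hi : i ∈ S) {l : T →* Kˣ} (hl : l ≠ 1)
    (hMl : M i l ≠ 0) :
    Nat.card E + 1 = p ∧ M i l ^ 2 = 1 ∧ (∀ j ∈ S, M j l ≠ 0 → j = i) ∧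
      (∀ l', Orb E t l l' ↔ l' ≠ 1 ∧ eqP l.ker l' 1) ∧
      (∀ l', Orb E t l l' → M i l' = M i l) ∧ (∀ l', ¬ Orb E t l l' → M i l' = 0) ∧
      od l = p ∧ ∀ u, (l u = 1 → ψ i u = (M i l : K) * ((p : K) - 1)) ∧
        (l u ≠ 1 → ψ i u = -(M i l : K)) := by
  classical
  have : Fintype E := Fintype.ofFinite _
  have hcE : Nat.card E = Fintype.card E := Nat.card_eq_fintype_card
  have hgram : ∀ a c : T →* Kˣ, ∑ i, M i a * M i c = (cn E a c : ℤ) := by
    intro a c
    have h1 := gram_bot hG a c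
    simp only [hM] at h1
    exact_mod_cast h1
  have hcop : (Nat.card T).Coprime t := by
    have hF : Fact p.Prime := ⟨hp⟩
    obtain ⟨n, hn⟩ := IsPGroup.iff_card.1 hT
    rw [hn]
    exact Nat.Coprime.pow_left n htp.symm
  have hMS : ∀ j ∈ S, ∀ l', Orb E t l l' → M j l' = M j l := by
    rintro j hj _ ⟨α, hα, n, rfl⟩
    have h4 := mlt_pow_pow hcop (hS j hj) (dl l α) n
    rw [hM, hM] at h4
    have h5 : M j (pw (dl l α) (t ^ n)) = M j (dl l α) := by exact_mod_cast h4
    rw [h5, M_dl hgram hα]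
  set O : Finset (T →* Kˣ) := univ.filter (Orb E t l) with hO
  have hmO : ∀ {l'}, l' ∈ O ↔ Orb E t l l' := fun {l'} => by
    rw [hO, mem_filter]
    exact ⟨fun h => h.2, fun h => ⟨mem_univ _, h⟩⟩
  set Y : I → ℤ := fun j => ∑ μ ∈ O, M j μ with hY
  -- the norm of `Y`
  have hYl : ∀ l', ∑ j, Y j * M j l' = if Orb E t l l' then (Fintype.card E : ℤ) else 0 := by
    intro l'
    have h1 : ∀ j, Y j * M j l' = ∑ μ ∈ O, M j μ * M j l' := fun j => by rw [hY, sum_mul]
    rw [sum_congr rfl fun j _ => h1 j, sum_comm, sum_congr rfl fun μ _ => hgram μ l']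
    have h2 := sum_cn (E := E) (t := t) (l := l) (l' := l')
    rw [← Nat.cast_sum, h2]
    split_ifs <;> simp
  have hYY : ∑ j, Y j ^ 2 = (O.card : ℤ) * Fintype.card E := by
    have h1 : ∀ j, Y j ^ 2 = ∑ μ ∈ O, Y j * M j μ := fun j => by
      rw [sq, ← mul_sum]
    rw [sum_congr rfl fun j _ => h1 j, sum_comm, sum_congr rfl fun μ hμ => by
      rw [hYl μ, if_pos (hmO.1 hμ)]]
    rw [sum_const, nsmul_eq_mul]
  have hYS : ∀ j ∈ S, Y j = (O.card : ℤ) * M j l := by
    intro j hj
    rw [hY]
    simp only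
    rw [sum_congr rfl fun μ hμ => hMS j hj μ (hmO.1 hμ), sum_const, nsmul_eq_mul]
  -- the size of the orbit
  have hOge : p - 1 ≤ O.card := by
    have h1 : ((range (p - 1)).image fun j => pw l (t ^ j)) ⊆ O := by
      intro l' hl'
      obtain ⟨j, -, rfl⟩ := mem_image.1 hl'
      exact hmO.2 (orb_pw (orb_self E t l) j)
    have h2 := card_le_card h1
    rw [card_image_of_injOn (fun x hx y hy hxy =>
      pow_inj hp hTm htp ht hl (mem_range.1 hx) (mem_range.1 hy) hxy), Finset.card_range] at h2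
    exact h2
  have hp1 : 1 < p := hp.one_lt
  have hOpos : (0 : ℤ) < O.card := by
    have h1 : 0 < O.card := by omega
    exact_mod_cast h1
  have hSle : (O.card : ℤ) * ∑ j ∈ S, M j l ^ 2 ≤ Fintype.card E := by
    have h1 : ∑ j ∈ S, Y j ^ 2 ≤ ∑ j, Y j ^ 2 :=
      sum_le_sum_of_subset_of_nonneg (subset_univ S) fun j _ _ => sq_nonneg _
    rw [hYY, sum_congr rfl fun j hj => by rw [hYS j hj]] at h1
    have h2 : ∑ j ∈ S, ((O.card : ℤ) * M j l) ^ 2
        = (O.card : ℤ) * ((O.card : ℤ) * ∑ j ∈ S, M j l ^ 2) := by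
      rw [mul_sum, mul_sum]
      exact sum_congr rfl fun j _ => by ring
    rw [h2] at h1
    exact le_of_mul_le_mul_left h1 hOpos
  have hM1 : 1 ≤ M i l ^ 2 := by
    have := sq_pos_of_ne_zero hMl
    omega
  have hSi : M i l ^ 2 ≤ ∑ j ∈ S, M j l ^ 2 :=
    single_le_sum (f := fun j => M j l ^ 2) (fun j _ => sq_nonneg _) hi
  have hEp : (Fintype.card E : ℤ) + 1 ≤ p := by
    rw [hcE] at hE
    exact_mod_cast hE
  have hOge' : (p : ℤ) - 1 ≤ O.card := by
    have h1 : p ≤ O.card + 1 := by omega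
    have h2 : (p : ℤ) ≤ O.card + 1 := by exact_mod_cast h1
    linarith
  have hS1 : ∑ j ∈ S, M j l ^ 2 = 1 := by
    refine le_antisymm ?_ (hM1.trans hSi)
    by_contra hcon
    push Not at hcon
    nlinarith
  have hO1 : (O.card : ℤ) = (p : ℤ) - 1 := by
    rw [hS1, mul_one] at hSle
    linarith
  have hE1 : (Fintype.card E : ℤ) + 1 = p := by
    rw [hS1, mul_one] at hSle
    linarith
  have hMi : M i l ^ 2 = 1 := le_antisymm (hSi.trans hS1.le) hM1
  have huni : ∀ j ∈ S, M j l ≠ 0 → j = i := by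
    intro j hj hjl
    by_contra hji
    have h1 : M j l ^ 2 + M i l ^ 2 ≤ ∑ j ∈ S, M j l ^ 2 := by
      rw [← sum_pair (f := fun j => M j l ^ 2) hji]
      refine sum_le_sum_of_subset_of_nonneg ?_ fun _ _ _ => sq_nonneg _
      intro x hx
      rcases mem_insert.1 hx with rfl | hx
      · exact hj
      · rw [mem_singleton.1 hx]
        exact hi
    have h2 := sq_pos_of_ne_zero hjl
    omega
  -- the other entries of `Y` vanish
  have hY0 : ∀ j, j ≠ i → Y j = 0 := by
    intro j hji
    have h1 : Y j ^ 2 + Y i ^ 2 ≤ ∑ j, Y j ^ 2 := by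
      rw [← sum_pair (f := fun j => Y j ^ 2) hji]
      exact sum_le_sum_of_subset_of_nonneg (subset_univ _) fun _ _ _ => sq_nonneg _
    have h2 : Y i ^ 2 = (O.card : ℤ) * O.card := by
      rw [hYS i hi, mul_pow, hMi, mul_one, sq]
    have h3 : (Fintype.card E : ℤ) = O.card := by linarith
    rw [hYY, h2, h3] at h1
    have h4 := sq_nonneg (Y j)
    exact pow_eq_zero_iff (n := 2) (by norm_num) |>.1 (le_antisymm (by linarith) h4)
  have hM0 : ∀ l', ¬ Orb E t l l' → M i l' = 0 := by
    intro l' hl'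
    have h1 := hYl l'
    rw [if_neg hl', sum_eq_single i (fun j _ hj => by rw [hY0 j hj, zero_mul])
      (fun h => absurd (mem_univ i) h), hYS i hi] at h1
    rcases mul_eq_zero.1 h1 with h2 | h2
    · rcases mul_eq_zero.1 h2 with h3 | h3
      · exact absurd h3 hOpos.ne'
      · exact absurd h3 hMl
    · exact h2
  -- the powers of `l`
  have hOc : O.card = p - 1 := by
    have h1 : (O.card : ℤ) = ((p - 1 : ℕ) : ℤ) := by
      rw [hO1, Nat.cast_sub hp.one_lt.le, Nat.cast_one]
    exact_mod_cast h1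
  have hcopO : ∀ n : ℕ, n.Coprime p → pw l n ∈ O := by
    intro n hn
    obtain ⟨j, hj⟩ := htg n hn
    have h1 : pw l n = pw l (t ^ j) := by
      ext u
      rw [pw_apply, pw_apply, map_pow, map_pow]
      have h2 : orderOf (l u) ∣ p ^ m := orderOf_dvd_of_pow_eq_one (by rw [← map_pow, hTm, map_one])
      rw [pow_eq_pow_iff_modEq.2 (hj.of_dvd h2)]
    rw [h1]
    exact hmO.2 (orb_pw (orb_self E t l) j)
  obtain ⟨a, ha⟩ := od_pow hp hT l
  have hod : od l = p := by
    have ha0 : a ≠ 0 := by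
      rintro rfl
      rw [pow_zero] at ha
      apply hl
      have h1 : pw l 1 = pw l 0 := pw_eq_iff.2 (by rw [ha]; exact Nat.modEq_one)
      rw [pw_one] at h1
      rw [h1]
      ext u
      rw [pw_apply, pow_zero, map_one, MonoidHom.one_apply]
    by_contra hne
    have ha2 : 2 ≤ a := by
      by_contra h1
      have h2 : a = 1 := by omega
      rw [h2, pow_one] at ha
      exact hne ha
    -- the characters `l ^ n`, `n ≤ p + 1` prime to `p`
    have h1 : ((range (p + 2)).filter fun n => n.Coprime p).image (fun n => pw l n) ⊆ O := by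
      intro l' hl'
      obtain ⟨n, hn, rfl⟩ := mem_image.1 hl'
      exact hcopO n (mem_filter.1 hn).2
    have h2 := card_le_card h1
    have h3 : ((range (p + 2)).filter fun n => n.Coprime p).card = p := by
      have h4 : ((range (p + 2)).filter fun n => n.Coprime p)
          = insert (p + 1) ((range p).erase 0) := by
        ext n
        simp only [mem_filter, mem_range, mem_insert, mem_erase]
        constructor
        · rintro ⟨h5, h6⟩
          by_cases h7 : n = p + 1
          · exact Or.inl h7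
          · right
            refine ⟨?_, ?_⟩
            · rintro rfl
              rw [Nat.coprime_zero_left] at h6
              omega
            · rcases Nat.lt_or_ge n p with h8 | h8
              · exact h8
              · exfalso
                have h9 : n = p := by omega
                rw [h9, Nat.coprime_self] at h6
                omega
        · rintro (rfl | ⟨h5, h6⟩)
          · refine ⟨by omega, ?_⟩
            rw [Nat.coprime_self_add_left]
            exact Nat.coprime_one_left p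
          · refine ⟨by omega, ?_⟩
            rw [Nat.coprime_comm]
            exact (hp.coprime_iff_not_dvd).2 fun h7 => by
              have := Nat.le_of_dvd (by omega) h7
              omega
      rw [h4, card_insert_of_notMem, card_erase_of_mem (mem_range.2 hp.pos), Finset.card_range]
      · omega
      · intro h5
        have := mem_range.1 (mem_of_mem_erase h5)
        omega
    rw [card_image_of_injOn, h3, hOc] at h2
    · omega
    · intro x hx y hy hxy
      have hx' := (mem_range.1 (mem_filter.1 hx).1)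
      have hy' := (mem_range.1 (mem_filter.1 hy).1)
      have h4 := pw_eq_iff.1 hxy
      have h5 : p ^ 2 ≤ od l := by
        rw [ha]
        exact Nat.pow_le_pow_right hp.pos ha2
      have h6 : p + 2 ≤ p ^ 2 := by
        have h7 : 2 ≤ p := hp.two_le
        nlinarith
      exact Nat.ModEq.eq_of_lt_of_lt h4 (by omega) (by omega)
  -- the orbit
  set F := univ.filter (fun l' : T →* Kˣ => eqP l.ker l' 1) with hF
  have hFc : F.card = p := by
    have h1 := card_eqP (K := K) l.ker 1
    have h2 := Ku.card_ker_mul_range l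
    rw [← Nat.card_eq_fintype_card (α := T), ← h2] at h1
    have h3 : Nat.card l.range = p := hod
    rw [← h3]
    exact Nat.eq_of_mul_eq_mul_left Nat.card_pos h1
  have hOF : O = F.erase 1 := by
    refine eq_of_subset_of_card_le ?_ ?_
    · have h1 : ((range (p - 1)).image fun j => pw l (t ^ j)) = O := by
        refine eq_of_subset_of_card_le ?_ ?_
        · intro l' hl'
          obtain ⟨j, -, rfl⟩ := mem_image.1 hl'
          exact hmO.2 (orb_pw (orb_self E t l) j)
        · rw [card_image_of_injOn (fun x hx y hy hxy =>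
            pow_inj hp hTm htp ht hl (mem_range.1 hx) (mem_range.1 hy) hxy), Finset.card_range, hOc]
      rw [← h1]
      intro l' hl'
      obtain ⟨j, -, rfl⟩ := mem_image.1 hl'
      refine mem_erase.2 ⟨?_, mem_filter.2 ⟨mem_univ _, fun v hv => ?_⟩⟩
      · intro h2
        have h3 : pw l (t ^ j) = pw l 0 := by
          rw [h2]
          ext u
          rw [pw_apply, pow_zero, map_one, MonoidHom.one_apply]
        have h4 := pw_eq_iff.1 h3
        rw [hod] at h4
        have h5 : p ∣ t ^ j := (Nat.modEq_zero_iff_dvd).1 h4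
        have h6 := hp.dvd_of_dvd_pow h5
        have h7 := Nat.dvd_gcd h6 (dvd_refl p)
        rw [htp] at h7
        exact hp.one_lt.ne' (Nat.dvd_one.1 h7)
      · rw [pw_apply, map_pow, MonoidHom.mem_ker.1 hv, one_pow, MonoidHom.one_apply]
    · rw [card_erase_of_mem (mem_filter.2 ⟨mem_univ _, fun _ _ => rfl⟩), hFc, hOc]
  have hiff : ∀ l', Orb E t l l' ↔ l' ≠ 1 ∧ eqP l.ker l' 1 := by
    intro l'
    rw [← hmO, hOF, mem_erase, hF, mem_filter]
    exact ⟨fun h => ⟨h.1, h.2.2⟩, fun h => ⟨h.1, mem_univ _, h.2⟩⟩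
  refine ⟨?_, hMi, huni, hiff, fun l' hl' => hMS i hi l' hl', hM0, hod, fun u => ?_⟩
  · rw [hcE]
    exact_mod_cast hE1
  · have h0 : ψ i u = (M i l : K) * ∑ l' ∈ O, chr l' u := by
      rw [eq_sum_mlt (ψ i) u, hO, sum_filter, mul_sum]
      refine sum_congr rfl fun l' _ => ?_
      rw [hM]
      split_ifs with h2
      · rw [hMS i hi l' h2]
      · rw [hM0 l' h2, Int.cast_zero, zero_mul, mul_zero]
    have h2 := sum_ker (l := l) u
    rw [← hF, ← add_sum_erase F (fun l' => chr l' u)
      (mem_filter.2 ⟨mem_univ _, fun _ _ => rfl⟩ : (1 : T →* Kˣ) ∈ F), ← hOF, hFc, chr_one,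
      Pi.one_apply] at h2
    refine ⟨fun h3 => ?_, fun h3 => ?_⟩
    · rw [if_pos h3] at h2
      rw [h0, ← h2, add_sub_cancel_left]
    · rw [if_neg h3] at h2
      rw [h0, eq_neg_of_add_eq_zero_right h2, mul_neg, mul_one]

end

end Pool.Agent.Lib.P0c8ca5.Ex
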