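import Mathlib
import Pool.Agent.Lib.P0c8ca5Ex.YPc
import Pool.Agent.Lib.P0c8ca5Ex.V1a

/-!
# V1b: a row with the values `± (p - 1)`, `∓ 1`

`row_reg`: if `|E| + 1 = p` and the row of `χ` is `± (p 1_{ker l} - 1)`, `l` a character of order `p`, then `E` acts regularly on the orbits
outside the kernel of `l`.
-/

set_option linter.unusedSectionVars false

namespace Pool.Agent.Lib.P0c8ca5.Ex

open MonoidAlgebra YJAux YSaAux YPbAux YPcAux ZFx

namespace V1bx

/-- the values of a virtual character are algebraic integers -/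
theorem vir_int {Q : Type*} [CommGroup Q] [Fintype Q] {K : Type*} [Field K] {F : Q → K}
    (hF : F ∈ vir Q K) (v : Q) : IsIntegral ℤ (F v) := by
  unfold vir at hF
  induction hF using Subring.closure_induction with
  | mem x hx =>
    obtain ⟨l, rfl⟩ := hx
    refine IsIntegral.of_pow (n := Fintype.card Q) Fintype.card_pos ?_
    have h1 : (chr l v) ^ Fintype.card Q = 1 := by
      unfold chr
      rw [← Units.val_pow_eq_pow_val, ← map_pow, pow_card_eq_one, map_one, Units.val_one]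
    rw [h1]
    exact isIntegral_one
  | zero => exact isIntegral_zero
  | one => exact isIntegral_one
  | add x y _ _ hx hy => exact hx.add hy
  | neg x _ hx => exact hx.neg
  | mul x y _ _ hx hy => exact hx.mul hy

/-- a rational value of an integral form in virtual characters -/
theorem int_form {Q : Type*} [CommGroup Q] [Fintype Q] {K : Type*} [Field K] [IsAlgClosed K]
    [CharZero K] {I : Type*} [Fintype I] {F : I → Q → K} (hF : ∀ s, F s ∈ vir Q K)
    (q : I → I → ℤ) (u v : Q) {n x : ℕ} (hn : n ≠ 0) (hcop : n.Coprime x)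
    (h : (n : K) * ∑ s, ∑ t, (q s t : K) * (F s u * F t v) = x) :
    ∃ y : ℤ, ∑ s, ∑ t, (q s t : K) * (F s u * F t v) = (x : K) * y := by
  refine FIAux.int_of_mul ?_ hn hcop (z := 1) (by rw [h, Int.cast_one, mul_one])
  refine IsIntegral.sum _ fun s _ => IsIntegral.sum _ fun t _ => ?_
  refine IsIntegral.mul ?_ (IsIntegral.mul (vir_int (hF s) u) (vir_int (hF t) v))
  exact isIntegral_algebraMap (R := ℤ) (x := q s t)

end V1bx

section
variable {p : ℕ} [Fact p.Prime] {k : Type*} [Field k] [IsAlgClosed k] [CharP k p]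
  {A : Type*} [Group A] [Finite A] {T : Type*} [CommGroup T] [Fintype T]
  {φ : T →* A} {b f i : MonoidAlgebra k A} {D : Subgroup A}
  {G : Subgroup T → A → KW p k}

open Classical in
theorem row_reg (hS : Stp φ b D f i ⊥ G) (hE : eN D f + 1 = p)
    {B : MonoidAlgebra (OW p k) A} (hB : CenL b B) {ψ : IR φ ⊥ B → T → KW p k}
    (hψ : Rows φ D f ⊥ G B ψ) (χ : IR φ ⊥ B) {l : T →* (KW p k)ˣ} {ε : KW p k} (hε : ε ^ 2 = 1)
    (hod : od l = p) (hv : ∀ u, (l u = 1 → ψ χ u = ε * ((p : KW p k) - 1)) ∧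
      (l u ≠ 1 → ψ χ u = -ε)) {u : T} (hu : l u ≠ 1) : st (EG φ D f) u = 1 := by
  have hp : p.Prime := Fact.out
  have hT : IsPGroup p T := YPaAux.isPGroup_T hS
  have hcE : Nat.card (EG φ D f) = eN D f := card_EG hS.inj hS.ran
  obtain ⟨BB, hBB⟩ := exists_BB hS.src hS.ran
  have hXV : ch χ.1 ∈ V (KW p k) A := ch_mem χ.1
  have hXA : ch χ.1 ∈ VA (p := p) b := YGAux.ch_mem_VA hB χ.2.2
  have hu1 : u ∉ (⊥ : Subgroup T) := fun h => hu (by rw [Subgroup.mem_bot.1 h, map_one])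
  have hpK : (p : KW p k) ≠ 0 := Nat.cast_ne_zero.2 hp.ne_zero
  -- the values
  have hrw : ∀ v ∉ (⊥ : Subgroup T), rwv φ G ⊥ (ch χ.1) v * rwv φ G ⊥ (ch χ.1) v⁻¹
      = if l v = 1 then ((p : KW p k) - 1) ^ 2 else 1 := by
    intro v hv1
    have hv2 : v⁻¹ ∉ (⊥ : Subgroup T) := fun h => hv1 ((Subgroup.inv_mem_iff _).1 h)
    rw [← hψ.out χ v hv1, ← hψ.out χ _ hv2]
    split_ifs with h1
    · rw [(hv v).1 h1, (hv v⁻¹).1 (by rw [map_inv, h1, inv_one])]
      linear_combination ((p : KW p k) - 1) ^ 2 * hε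
    · rw [(hv v).2 h1, (hv v⁻¹).2 (by rw [map_inv]; exact fun h2 => h1 (inv_eq_one.1 h2))]
      linear_combination hε
  -- the number of elements
  have hker : p * Nat.card l.ker = Fintype.card T := by
    have h1 := Ku.card_ker_mul_range l
    have h2 : Nat.card l.range = p := hod
    rw [h2] at h1
    rw [← Nat.card_eq_fintype_card, ← h1, mul_comm]
  have hkf : (Finset.univ.filter fun v : T => l v = 1).card = Nat.card l.ker := by
    rw [Nat.card_eq_fintype_card, ← Fintype.card_coe]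
    refine Fintype.card_congr (Equiv.subtypeEquivRight fun a => ?_)
    rw [Finset.mem_filter, MonoidHom.mem_ker]
    exact ⟨fun h => h.2, fun h => ⟨Finset.mem_univ _, h⟩⟩
  have hsumrw : ∑ v : T with v ∉ (⊥ : Subgroup T),
      rwv φ G ⊥ (ch χ.1) v * rwv φ G ⊥ (ch χ.1) v⁻¹
      = ((p : KW p k) - 1) * Fintype.card T - ((p : KW p k) - 1) ^ 2 := by
    have h1 : ∑ v : T with v ∉ (⊥ : Subgroup T),
        rwv φ G ⊥ (ch χ.1) v * rwv φ G ⊥ (ch χ.1) v⁻¹
        = ∑ v ∈ Finset.univ.erase (1 : T), if l v = 1 then ((p : KW p k) - 1) ^ 2 else 1 := by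
      have h2 : (Finset.univ.filter fun v : T => v ∉ (⊥ : Subgroup T)) = Finset.univ.erase 1 := by
        ext v
        simp [Subgroup.mem_bot]
      rw [h2]
      refine Finset.sum_congr rfl fun v hv' => hrw v ?_
      rw [Subgroup.mem_bot]
      exact (Finset.mem_erase.1 hv').1
    have h3 : ∑ v : T, (if l v = 1 then ((p : KW p k) - 1) ^ 2 else 1)
        = Nat.card l.ker * ((p : KW p k) - 1) ^ 2 + (Fintype.card T - Nat.card l.ker) := by
      rw [Finset.sum_ite, Finset.sum_const, Finset.sum_const, hkf, nsmul_eq_mul, nsmul_eq_mul,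
        mul_one]
      congr 1
      have h4 := Finset.card_filter_add_card_filter_not (s := (Finset.univ : Finset T))
        (p := fun v : T => l v = 1)
      rw [hkf, Finset.card_univ] at h4
      rw [← h4]
      push_cast
      ring
    rw [← Finset.add_sum_erase Finset.univ _ (Finset.mem_univ (1 : T)), map_one, if_pos rfl] at h3
    rw [h1]
    have h4 : (Fintype.card T : KW p k) = p * Nat.card l.ker := by
      rw [← hker]
      push_cast
      rfl
    rw [h4] at h3 ⊢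
    linear_combination h3
  -- the total
  have hEK : (Nat.card (EG φ D f) : KW p k) = (p : KW p k) - 1 := by
    rw [hcE]
    have h1 : ((eN D f + 1 : ℕ) : KW p k) = (p : KW p k) := by rw [hE]
    push_cast at h1
    linear_combination h1
  obtain ⟨r, hr0, hr, -⟩ := rg_nonneg (p := p) hXV
  have htot := tot hS hBB hXA (fun z hz x => by
    rw [Subgroup.mem_bot.1 hz, map_one, one_mul])
  rw [hsumrw, ip_ch, if_pos rfl, hr, hEK] at htot
  obtain ⟨M, hM, hle⟩ := sum_fib (R := (⊥ : Subgroup T)) hpK (F := sv φ D f ⊥ G BB (ch χ.1))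
    (fun u' hu' => by
      obtain ⟨N, hN⟩ := exists_N hS hT hBB hu'
      obtain ⟨⟨m', h1, -, h2, -⟩, -⟩ := hN _ hXV
      exact ⟨m', h1, h2⟩)
  have hMp : (p : ℤ) * M ≤ ((p : ℤ) - 1) ^ 2 := by
    rw [htot] at hM
    have h1 : ((p : ℚ) - 1) ^ 2 - (Fintype.card T : ℚ) * (((p : ℚ) - 1) * r) = (p : ℚ) * M := by
      have h2 : (((((p : ℚ) - 1) ^ 2 - (Fintype.card T : ℚ) * (((p : ℚ) - 1) * r) : ℚ)) : KW p k)
          = (((p : ℚ) * M : ℚ) : KW p k) := by
        push_cast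
        rw [← hM, Subgroup.card_bot, Nat.cast_one]
        ring
      exact_mod_cast h2
    have h3 : (p : ℚ) * M ≤ ((p : ℚ) - 1) ^ 2 := by
      rw [← h1]
      have h4 : (1 : ℚ) ≤ p := by exact_mod_cast hp.one_lt.le
      have h5 : 0 ≤ (Fintype.card T : ℚ) * (((p : ℚ) - 1) * r) :=
        mul_nonneg (Nat.cast_nonneg _) (mul_nonneg (by linarith) hr0)
      linarith
    exact_mod_cast h3
  obtain ⟨N, hN⟩ := exists_N hS hT hBB hu1
  obtain ⟨⟨m, hm0, hmp, hsum, hz⟩, hpt⟩ := hN _ hXV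
  have hmM := hle u hu1 m hsum
  have hmz : m = 0 := by
    by_contra h1
    have h2 := hmp h1
    rw [Subgroup.card_bot, Nat.cast_one, mul_one] at h2
    have h3 : (1 : ℤ) < p := by exact_mod_cast hp.one_lt
    nlinarith
  have hW := hpt u rfl
  have h0 : ∑ s, ∑ t, (N s t : KW p k) *
      (xs φ _ (BB (cq φ (⊥ ⊔ Subgroup.zpowers u))) (ch χ.1) s u *
        xs φ _ (BB (cq φ (⊥ ⊔ Subgroup.zpowers u))) (ch χ.1) t u⁻¹) = 0 := by
    refine Finset.sum_eq_zero fun s _ => ?_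
    have h3 : ∑ t, (N s t : KW p k) *
        (xs φ _ (BB (cq φ (⊥ ⊔ Subgroup.zpowers u))) (ch χ.1) s u *
          xs φ _ (BB (cq φ (⊥ ⊔ Subgroup.zpowers u))) (ch χ.1) t u⁻¹)
        = xs φ _ (BB (cq φ (⊥ ⊔ Subgroup.zpowers u))) (ch χ.1) s u *
          ∑ t, (N s t : KW p k) *
            xs φ _ (BB (cq φ (⊥ ⊔ Subgroup.zpowers u))) (ch χ.1) t u⁻¹ := by
      rw [Finset.mul_sum]
      exact Finset.sum_congr rfl fun t _ => by ring
    rw [h3, hz hmz u⁻¹ (by rw [Subgroup.zpowers_inv]) s, mul_zero]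
  rw [h0, mul_zero, add_zero, hrw u hu1, if_neg hu] at hW
  -- integrality
  set Q : Subgroup T := ⊥ ⊔ Subgroup.zpowers u with hQ
  have huQ : u ∈ Q := Subgroup.mem_sup_right (Subgroup.mem_zpowers u)
  obtain ⟨c, hc⟩ := exists_c hS hBB u
  obtain ⟨q, -, hq⟩ := YPbAux.exists_q (p := p) (k := k) ↥(cq φ Q)
  set w : KW p k := Wf p (cq φ Q) (cut _ (BB (cq φ Q)) (ch χ.1)) (cut _ (BB (cq φ Q)) (ch χ.1))
    (φ u) with hw
  set P : ℕ := ordProj[p] (Nat.card ↥(cq φ Q)) with hP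
  have hint : (P : KW p k) * w = ∑ s, ∑ t, (q s t : KW p k) *
      (xs φ _ (BB (cq φ Q)) (ch χ.1) s u * xs φ _ (BB (cq φ Q)) (ch χ.1) t u⁻¹) := by
    rw [hw, wf_xs hc hXV hXV huQ, Finset.mul_sum]
    refine Finset.sum_congr rfl fun s _ => ?_
    rw [Finset.mul_sum]
    refine Finset.sum_congr rfl fun t _ => ?_
    rw [← hq]
    ring
  have heQ : eQ φ D f Q = st (EG φ D f) u := (eQ_sup hS.cen hS.inj u).1
  obtain ⟨x, hx⟩ : Fintype.card T ∣ P := by
    obtain ⟨n, hn⟩ := IsPGroup.iff_card.1 hT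
    have h1 : Nat.card T ∣ Nat.card ↥(cq φ Q) := by
      let g : T →* ↥(cq φ Q) := φ.codRestrict (cq φ Q) fun t => phi_mem φ Q t
      have hg : Function.Injective g := fun a b hab => hS.inj (congrArg Subtype.val hab)
      exact Subgroup.card_dvd_of_injective g hg
    have h2 := Nat.ordProj_dvd_ordProj_of_dvd (Nat.card_pos (α := ↥(cq φ Q))).ne' h1 p
    rw [hn, Nat.Prime.factorization_pow hp, Finsupp.single_eq_same] at h2
    rw [← Nat.card_eq_fintype_card, hn]
    exact h2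
  have hT0 : (Fintype.card T : KW p k) ≠ 0 := Nat.cast_ne_zero.2 Fintype.card_ne_zero
  have hfin := finite_EG (φ := φ) (D := D) (f := f)
  have hst0 : st (EG φ D f) u ≠ 0 := Nat.one_le_iff_ne_zero.1 (st_pos (EG φ D f) u)
  have h1 : ((st (EG φ D f) u : ℕ) : KW p k) * ((P : KW p k) * w) = (x : KW p k) := by
    rw [heQ] at hW
    rw [hx]
    push_cast
    linear_combination (x : KW p k) * hW
  have hcop : (st (EG φ D f) u).Coprime x := by
    have h2 : x ∣ P := ⟨Fintype.card T, by rw [hx, mul_comm]⟩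
    obtain ⟨n, -, hn⟩ := (Nat.dvd_prime_pow hp).1 h2
    rw [hn]
    refine Nat.Coprime.pow_right n ?_
    rw [Nat.coprime_comm, hp.coprime_iff_not_dvd]
    intro h3
    have h4 := Nat.le_of_dvd (Nat.pos_of_ne_zero hst0) h3
    have h5 : st (EG φ D f) u ≤ Nat.card (EG φ D f) :=
      Nat.card_le_card_of_injective _ Subtype.val_injective
    omega
  rw [hint] at h1
  obtain ⟨y, hy⟩ := V1bx.int_form (F := fun s (v : ↥Q) => xs φ _ (BB (cq φ Q)) (ch χ.1) s (v : T))
    (fun s => xs_vir rfl hc hXV s) q ⟨u, huQ⟩ ⟨u⁻¹, Q.inv_mem huQ⟩ hst0 hcop h1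
  change ∑ s, ∑ t, (q s t : KW p k) *
      (xs φ _ (BB (cq φ Q)) (ch χ.1) s u * xs φ _ (BB (cq φ Q)) (ch χ.1) t u⁻¹) = _ at hy
  rw [hy] at h1
  have hx0 : (x : KW p k) ≠ 0 := by
    intro h2
    have h3 : x = 0 := by exact_mod_cast h2
    rw [h3, mul_zero] at hx
    exact (Nat.ordProj_pos (Nat.card ↥(cq φ Q)) p).ne' hx
  have h2 : ((st (EG φ D f) u : ℕ) : KW p k) * (y : KW p k) = 1 := by
    have h3 : (x : KW p k) * (((st (EG φ D f) u : ℕ) : KW p k) * (y : KW p k)) = (x : KW p k) * 1 := by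
      linear_combination h1
    exact mul_left_cancel₀ hx0 h3
  have h3 : ((st (EG φ D f) u : ℕ) : ℤ) * y = 1 := by exact_mod_cast h2
  have h4 : ((st (EG φ D f) u : ℕ) : ℤ) ∣ 1 := ⟨y, h3.symm⟩
  have h5 := Int.natCast_dvd_natCast.1 (by exact_mod_cast h4 : ((st (EG φ D f) u : ℕ) : ℤ) ∣ ((1 : ℕ) : ℤ))
  exact Nat.dvd_one.1 h5

end

end Pool.Agent.Lib.P0c8ca5.Ex
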