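import Mathlib
import Pool.Agent.Lib.P0c8ca5Ex.ZGa
import Pool.Agent.Lib.P0c8ca5Ex.GH
import Pool.Agent.Lib.P0c8ca5Ex.NB

/-!
# V1c: the fixed points of a permutation of the ordinary characters, all conjugate places

`fix_ge_gen`: as `fix_ge_sum`, for the pairwise non conjugate pairs `(v, c)` below `b` such that `(v ^ t, c)` is
conjugate to `(v, c)`; for those with `v ^ t ≠ v` the idempotents of the block `c` have constant character values
(the block `c` is nilpotent).
-/

set_option linter.unusedSectionVars false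

namespace Pool.Agent.Lib.P0c8ca5.Ex

open MonoidAlgebra Finset

namespace V1cx

section
variable {O : Type*} [CommRing O] {K : Type*} [Field K] [IsAlgClosed K] [CharZero K] [Algebra O K]
  {A : Type*} [Group A] [Finite A]

theorem fch_zero {H : Subgroup A} {B : MonoidAlgebra O ↥H} {i : Ir K A} (h : fch H B i 1 = 0)
    (x : A) : fch H B i x = 0 := by
  classical
  have h1 : ∀ j : Ir K ↥H, om j (dnr H (single (1 : A) (1 : K))) = 1 := by
    intro j
    have h2 : dnr H (single (1 : A) (1 : K)) = 1 := dnr_single H 1 1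
    rw [h2, om_one]
  have h2 : (((∑ j : Ir K ↥H, if chO j B = 0 then 0 else mult H i j : ℕ) : ℕ) : K) = 0 := by
    refine Eq.trans ?_ h
    rw [fch, Nat.cast_sum]
    refine Finset.sum_congr rfl fun j _ => ?_
    split_ifs with h3
    · exact Nat.cast_zero
    · rw [h1, mul_one]
  have h3 := Nat.cast_eq_zero.1 h2
  rw [Finset.sum_eq_zero_iff] at h3
  rw [fch]
  refine Finset.sum_eq_zero fun j hj => ?_
  have h4 := h3 j hj
  split_ifs with h5
  · rfl
  · rw [if_neg h5] at h4
    rw [h4, Nat.cast_zero, zero_mul]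

end

end V1cx

open V1cx

section
variable {p : ℕ} [Fact p.Prime] {k : Type*} [Field k] [IsAlgClosed k] [CharP k p]
  {A : Type*} [Group A] [Finite A]

/-- the columns at `v` and `v ^ t` for a pair conjugate to its power, local block with constant values -/
theorem col_swap {v g : A} {t : ℕ} {c : MonoidAlgebra k A} (hc : IsBlock (C1 v) c)
    (hg : v ^ t * g = g * v) (hgc : cj g c = c)
    (hconst : ∀ BH, CenL (dnr (C1 v) c) BH → ∀ e : MonoidAlgebra (OW p k) ↥(C1 v), e * e = e →
      e * BH = e → ∃ m : ℕ, ∀ χ : IrB BH, chO χ.1 e = (m : KW p k))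
    {F : MonoidAlgebra (OW p k) ↥(C1 v)} (hF : F * F = F)
    (hFc : mapRingHom ↥(C1 v) (rdO p k) F * dnr (C1 v) c = mapRingHom ↥(C1 v) (rdO p k) F)
    (χ : Ir (KW p k) A) :
    chO χ (single (v ^ t) 1 * upr (C1 v) F) = chO χ (single v 1 * upr (C1 v) F) := by
  have := Fintype.ofFinite A
  have hC : C1 (v ^ t) = C1 v := C1_conj_pow hg
  obtain ⟨BH, hBH⟩ := exists_cenB (p := p) hc
  set F' : MonoidAlgebra (OW p k) ↥(C1 v) := dnr (C1 v) (cjr g (upr (C1 v) F)) with hF'
  have hup : upr (C1 v) F' = cjr g (upr (C1 v) F) := by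
    have h1 := upr_dnr_cjr hg F
    rw [hC] at h1
    exact h1
  have hcol : chO χ (single v 1 * upr (C1 v) F) = chO χ (single (v ^ t) 1 * upr (C1 v) F') := by
    have h1 := cj_col hg F χ
    rw [hC] at h1
    exact h1
  have hidem : F' * F' = F' := by
    have h1 := cjr_idem hg hF
    rw [hC] at h1
    exact h1
  have hbel : mapRingHom ↥(C1 v) (rdO p k) F' * dnr (C1 v) c
      = mapRingHom ↥(C1 v) (rdO p k) F' := by
    have h1 := cj_below (c := c) (d := c) (by rw [hC]; exact hc) hc hgc hFc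
    rw [hC] at h1
    exact h1
  have hle : ∀ e : MonoidAlgebra (OW p k) ↥(C1 v), e * e = e →
      mapRingHom ↥(C1 v) (rdO p k) e * dnr (C1 v) c = mapRingHom ↥(C1 v) (rdO p k) e →
      e * BH = e := fun e he hec => idem_le he hBH.idem (hBH.cen e).symm (by rw [hBH.red, hec])
  obtain ⟨m, hm⟩ := hconst BH hBH F hF (hle F hF hFc)
  obtain ⟨m', hm'⟩ := hconst BH hBH F' hidem (hle F' hidem hbel)
  have hvt : v ^ t ∈ C1 v := by
    rw [mem_C1]
    exact (Commute.refl v).pow_right t
  have hvt' : ∀ a : ↥(C1 v), (⟨v ^ t, hvt⟩ : ↥(C1 v)) * a = a * ⟨v ^ t, hvt⟩ := by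
    intro a
    refine Subtype.ext ?_
    have h1 : (a : A) ∈ C1 (v ^ t) := by rw [hC]; exact a.2
    exact mem_C1.1 h1
  have e1 := fun i : Ir (KW p k) A => fch_spec hBH.idem (hle F hF hFc)
    (fun j hj => hm ⟨j, hj⟩) i (x := ⟨v ^ t, hvt⟩) hvt'
  have e1' := fun i : Ir (KW p k) A => fch_spec hBH.idem (hle F' hidem hbel)
    (fun j hj => hm' ⟨j, hj⟩) i (x := ⟨v ^ t, hvt⟩) hvt'
  have e2 := fun i : Ir (KW p k) A => fch_spec hBH.idem (hle F hF hFc)
    (fun j hj => hm ⟨j, hj⟩) i (x := 1) (fun a => by rw [one_mul, mul_one])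
  have e2' := fun i : Ir (KW p k) A => fch_spec hBH.idem (hle F' hidem hbel)
    (fun j hj => hm' ⟨j, hj⟩) i (x := 1) (fun a => by rw [one_mul, mul_one])
  have hu : ∀ e : MonoidAlgebra (OW p k) ↥(C1 v),
      upr (C1 v) (single (⟨v ^ t, hvt⟩ : ↥(C1 v)) 1 * e) = single (v ^ t) 1 * upr (C1 v) e := by
    intro e
    rw [map_mul, upr_single]
  simp only [hu] at e1 e1'
  rw [hcol, e1, e1']
  by_cases h0 : fch (C1 v) BH χ 1 = 0
  · rw [fch_zero h0, mul_zero, mul_zero]
  · congr 1
    have h1 := e2 χ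
    have h2 := e2' χ
    rw [show (single (1 : ↥(C1 v)) (1 : OW p k)) = 1 from rfl, one_mul] at h1 h2
    rw [hup, chO_cjr, h1] at h2
    exact mul_right_cancel₀ h0 h2

/-- **the fixed points and the pairs conjugate to their powers** -/
theorem fix_ge_gen {b : MonoidAlgebra k A} {B : MonoidAlgebra (OW p k) A}
    (hb : IsBlock (⊤ : Subgroup A) b) (hB : CenL b B) (s : Equiv.Perm (IrB B)) {t : ℕ}
    (ht : t.Coprime p)
    (hs : ∀ (χ : IrB B) (v : A) (M : ℕ), v ^ p ^ M = 1 → ∀ F : MonoidAlgebra (OW p k) A,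
      F * F = F → single v 1 * F = F * single v (1 : OW p k) →
      chO (s χ).1 (single v 1 * F) = chO χ.1 (single (v ^ t) 1 * F))
    (hN : ∀ (v g : A) (M : ℕ) (c : MonoidAlgebra k A), v ^ p ^ M = 1 → v ^ t ≠ v →
      IsBlock (C1 v) c → resS (C1 v : Set A) b * c = c → v ^ t * g = g * v → cj g c = c →
      ∀ BH, CenL (dnr (C1 v) c) BH → ∀ e : MonoidAlgebra (OW p k) ↥(C1 v), e * e = e →
      e * BH = e → ∃ m : ℕ, ∀ χ : IrB BH, chO χ.1 e = (m : KW p k))
    {W : Type*} [Fintype W] (x : W → Pr p b)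
    (hx : ∀ w, (x w).v ^ t = (x w).v ∨ ∃ g, (x w).v ^ t * g = g * (x w).v ∧ cj g (x w).c = (x w).c)
    (hne : ∀ w w', w ≠ w' → ¬ (prS p b).r (x w) (x w')) :
    ∑ w, Nat.card (Quotient (irrInvSetoid (C1 (x w).v) (C1 (x w).v) (x w).c))
      ≤ Nat.card {χ : IrB B // s χ = χ} := by
  classical
  have hp : p.Prime := Fact.out
  have := Fintype.ofFinite A
  have hfin := finite_pr (p := p) b
  let R := Quotient (prS p b)
  have : Fintype R := Fintype.ofFinite R
  obtain ⟨rep, hrep, hrepx⟩ := exists_rep_ext (prS p b) x hne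
  -- the idempotents
  have hfam := fun r : R => exists_family (p := p) (dnr (C1 (rep r).v) (rep r).c)
  choose n F hF using hfam
  have hM : ∃ M : ℕ, ∀ v : A, (∃ M : ℕ, v ^ p ^ M = 1) → v ^ p ^ M = 1 := by
    refine ⟨Nat.card A, ?_⟩
    rintro v ⟨M, hM⟩
    have h1 : orderOf v ∣ p ^ M := orderOf_dvd_of_pow_eq_one hM
    obtain ⟨j, -, hj⟩ := (Nat.dvd_prime_pow hp).1 h1
    have h2 : p ^ j ≤ Nat.card A := hj ▸ orderOf_le_card
    have h3 : j ≤ Nat.card A := (Nat.lt_pow_self hp.one_lt).le.trans h2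
    exact orderOf_dvd_iff_pow_eq_one.1 (hj ▸ pow_dvd_pow p h3)
  obtain ⟨M, hM⟩ := hM
  have hv : ∀ r : R, (rep r).v ^ p ^ M = 1 := fun r => hM _ (rep r).pel
  have hcomm : ∀ r j, single (rep r).v 1 * upr (C1 (rep r).v) (F r j)
      = upr (C1 (rep r).v) (F r j) * single (rep r).v (1 : OW p k) :=
    fun r j => single_upr _ _
  have hidem : ∀ r j, upr (C1 (rep r).v) (F r j) * upr (C1 (rep r).v) (F r j)
      = upr (C1 (rep r).v) (F r j) := fun r j => by rw [← map_mul, (hF r).idem]
  let T : ∀ r : R, Fin (n r) → Ir (KW p k) A → KW p k := fun r j χ =>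
    chO χ (single (rep r).v 1 * upr (C1 (rep r).v) (F r j))
  let T' : ∀ r : R, Fin (n r) → Ir (KW p k) A → KW p k := fun r j χ =>
    chO χ (upr (C1 (rep r).v) (F r j) * single (rep r).v⁻¹ 1)
  have hTz : ∀ r j χ, chO χ B = 0 → T r j χ = 0 := fun r j χ hχ =>
    col_zero hB (hv r) (rep r).blk (rep r).below ((hF r).below j)
      ⟨(hF r).idem j, rfl⟩ χ hχ
  have hsum : ∀ (w : Ir (KW p k) A → KW p k) r j, ∑ χ : IrB B, T r j χ.1 * w χ.1
      = ∑ χ, T r j χ * w χ := by
    intro w r j
    symm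
    exact sum_irB (fun χ => T r j χ * w χ) fun χ hχ => by
      rw [hTz r j χ hχ, zero_mul]
  have hCt : ∀ r : R, C1 ((rep r).v ^ t) = C1 (rep r).v := by
    intro r
    have h1 : Subgroup.zpowers ((rep r).v ^ t) = Subgroup.zpowers (rep r).v := by
      refine le_antisymm ?_ ?_
      · rw [Subgroup.zpowers_le]
        exact (Subgroup.zpowers (rep r).v).pow_mem (Subgroup.mem_zpowers _) t
      · rw [Subgroup.zpowers_le]
        have h1 : t.Coprime (orderOf (rep r).v) :=
          Nat.Coprime.coprime_dvd_right (orderOf_dvd_of_pow_eq_one (hv r))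
            (Nat.Coprime.pow_right M ht)
        obtain ⟨j, hj⟩ := exists_pow_eq_self_of_coprime h1
        have h2 : ((rep r).v ^ t) ^ j ∈ Subgroup.zpowers ((rep r).v ^ t) :=
          Subgroup.pow_mem _ (Subgroup.mem_zpowers _) _
        rwa [hj] at h2
    rw [← CD_zpowers, h1, CD_zpowers]
  have key := trace_perm_set (K := KW p k) (I := IrB B) (R := R) (J := fun r => Fin (n r))
    (fun r j χ => T r j χ.1) (fun r j χ => T' r j χ.1) s
    (fun r => (rep r).v ^ t = (rep r).v ∨ ∃ g, (rep r).v ^ t * g = g * (rep r).v ∧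
      cj g (rep r).c = (rep r).c)
    (fun r r' hrr j j' => by
      rw [hsum (fun χ => T' r' j' χ)]
      refine off_zero (hv r) (hv r') (rep r).blk (rep r').blk
        ((hF r).below j) ⟨(hF r).idem j, rfl⟩ ((hF r').below j') ⟨(hF r').idem j', rfl⟩ ?_
      intro g hg hcd
      apply hrr
      rw [← hrep r, ← hrep r']
      exact Quotient.sound ⟨g, hg, hcd⟩)
    (fun r => by
      have e1 := (hF r).gram
      intro h0
      apply e1
      rw [← h0]
      congr 1
      ext j j'
      rw [Matrix.of_apply, Matrix.of_apply, hsum (fun χ => T' r j' χ)]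
      symm
      exact tp_chi_self (p := p) (hv r) sepO (hidem r j) (hidem r j') ((hF r).idem j)
        ((hF r).idem j') (hcomm r j) (hcomm r j') (gap_self _ (F r j) _) (gap_self _ (F r j') _))
    (fun a ha => by
      let a' : Ir (KW p k) A → KW p k := fun χ => if h : chO χ B ≠ 0 then a ⟨χ, h⟩ else 0
      have ha'1 : ∀ χ, chO χ B = 0 → a' χ = 0 := fun χ hχ => by
        simp only [a']
        rw [dif_neg (fun h => h hχ)]
      have ha'2 : ∀ χ : IrB B, a' χ.1 = a χ := fun χ => by
        simp only [a']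
        rw [dif_pos χ.2]
      have hT0 : ∀ r j, ∑ χ, a' χ * T r j χ = 0 := by
        intro r j
        have h1 := hsum a' r j
        simp only [ha'2] at h1
        rw [ha r j] at h1
        rw [h1]
        exact Finset.sum_congr rfl fun χ _ => mul_comm _ _
      have h0 := form_zero (fun g => invBy_iff_cj.1 hb.invBy g (Subgroup.mem_top g)) hb.idem hB
        a' ha'1 (by
          intro v M' hvM c hc hbc E hE hEc
          let x : Pr p b := ⟨v, c, ⟨M', hvM⟩, hc, hbc⟩
          let r : R := Quotient.mk _ x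
          obtain ⟨g, hg, hgc⟩ : (prS p b).r (rep r) x := Quotient.exact (hrep r)
          obtain ⟨m, hm⟩ := (hF r).span (dnr (C1 (rep r).v) (cjr g (upr (C1 v) E)))
            (cjr_idem hg hE) (cj_below (rep r).blk hc hgc hEc)
          have h2 : ∀ χ : Ir (KW p k) A, chO χ (single v 1 * upr (C1 v) E)
              = ∑ j, m j * T r j χ := by
            intro χ
            rw [cj_col hg, col_lin hm]
          simp only [h2, Finset.mul_sum]
          rw [Finset.sum_comm]
          refine Finset.sum_eq_zero fun j _ => ?_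
          have h3 := hT0 r j
          calc ∑ χ, a' χ * (m j * T r j χ) = m j * ∑ χ, a' χ * T r j χ := by
                rw [Finset.mul_sum]
                exact Finset.sum_congr rfl fun χ _ => by ring
            _ = 0 := by rw [h3, mul_zero])
      funext χ
      rw [← ha'2 χ, h0 χ.1]
      rfl)
    (fun r hr j χ => by
      have h1 := hs χ (rep r).v M (hv r) (upr (C1 (rep r).v) (F r j))
        (hidem r j) (hcomm r j)
      change chO (s χ).1 (single (rep r).v 1 * upr (C1 (rep r).v) (F r j))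
        = chO χ.1 (single (rep r).v 1 * upr (C1 (rep r).v) (F r j))
      by_cases hvt : (rep r).v ^ t = (rep r).v
      · rw [h1, hvt]
      · obtain ⟨g, hg, hgc⟩ := hr.resolve_left hvt
        rw [h1]
        exact col_swap (rep r).blk hg hgc (hN _ g M _ (hv r) hvt (rep r).blk (rep r).below hg hgc)
          ((hF r).idem j) ((hF r).below j) χ.1)
    (fun r hne j j' => by
      have h1 : ∀ χ : IrB B, T r j (s χ).1
          = chO χ.1 (single ((rep r).v ^ t) 1 * upr (C1 (rep r).v) (F r j)) :=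
        fun χ => hs χ (rep r).v M (hv r) _ (hidem r j) (hcomm r j)
      have h2 := off_zero' (p := p) (u := (rep r).v ^ t) (v := (rep r).v)
        (M := M) (by rw [← pow_mul, mul_comm, pow_mul, hv r, one_pow]) (hv r) (hCt r)
        (rep r).blk (rep r).blk ((hF r).idem j) ((hF r).below j)
        ((hF r).idem j') ((hF r).below j')
        (fun g hg hgc => hne (Or.inr ⟨g, hg, hgc⟩))
      rw [sum_irB (fun χ => chO χ (single ((rep r).v ^ t) 1 *
        upr (C1 (rep r).v) (F r j)) * T' r j' χ) fun χ hχ => by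
          change chO χ (single ((rep r).v ^ t) 1 *
            upr (C1 (rep r).v) (F r j)) * T' r j' χ = 0
          rw [col_zero' hB (M := M) (by rw [← pow_mul, mul_comm, pow_mul, hv r, one_pow]) (hCt r)
            (rep r).blk (rep r).below ((hF r).idem j) ((hF r).below j) χ hχ,
            zero_mul]] at h2
      refine (Finset.sum_congr rfl fun χ _ => ?_).trans h2
      rw [h1])
  have hinj : Function.Injective fun w : W => (Quotient.mk (prS p b) (x w) : R) := by
    intro w w' hww
    by_contra h1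
    exact hne w w' h1 (Quotient.exact hww)
  have hl : ∀ w, Nat.card (Quotient (irrInvSetoid (C1 (x w).v) (C1 (x w).v) (x w).c))
      ≤ Fintype.card (Fin (n (Quotient.mk (prS p b) (x w)))) := by
    intro w
    have h1 := family_card (rep (Quotient.mk (prS p b) (x w))).blk (hF (Quotient.mk _ (x w)))
    rwa [hrepx] at h1
  refine (Finset.sum_le_sum fun w _ => hl w).trans ?_
  have h2 : ∑ w, Fintype.card (Fin (n (Quotient.mk (prS p b) (x w))))
      = ∑ r ∈ Finset.univ.image fun w : W => (Quotient.mk (prS p b) (x w) : R),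
        Fintype.card (Fin (n r)) :=
    (Finset.sum_image (f := fun r : R => Fintype.card (Fin (n r)))
      (g := fun w : W => (Quotient.mk (prS p b) (x w) : R)) fun w _ w' _ h => hinj h).symm
  have h3 : ∑ r ∈ Finset.univ.image fun w : W => (Quotient.mk (prS p b) (x w) : R),
        Fintype.card (Fin (n r))
      ≤ ∑ r ∈ Finset.univ.filter fun r : R => (rep r).v ^ t = (rep r).v ∨
          ∃ g, (rep r).v ^ t * g = g * (rep r).v ∧ cj g (rep r).c = (rep r).c,
        Fintype.card (Fin (n r)) := by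
    refine Finset.sum_le_sum_of_subset fun r hr => ?_
    obtain ⟨w, -, rfl⟩ := Finset.mem_image.1 hr
    refine Finset.mem_filter.2 ⟨Finset.mem_univ _, ?_⟩
    rw [hrepx]
    exact hx w
  rw [h2]
  refine h3.trans (le_of_eq ?_)
  rw [← key, Nat.card_eq_fintype_card, Fintype.card_subtype]

end

end Pool.Agent.Lib.P0c8ca5.Ex
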