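import Mathlib
import Pool.Agent.Lib.P0c8ca5Ex.V1a
import Pool.Agent.Lib.P0c8ca5Ex.ZFc
import Pool.Agent.Lib.P0c8ca5Ex.ZGc

/-!
# V1d: the number of the invariant rows, `|E| + 1 = p`

`fixed_count`: `S` a set of nonzero rows invariant under the generator `t` of the units. There are `1 ∈ W ⊆ T`, pairwise not conjugate
under `E`, with `E_v = 1` and `v ^ t ∈ E v` for `1 ≠ v ∈ W`, and `|S| + 1 ≤ |E| + |W|`.
-/

set_option linter.unusedSectionVars false

namespace Pool.Agent.Lib.P0c8ca5.Ex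

open Finset YLx YZx ZFx ZFc V1x

namespace V1dx

section
variable {T : Type*} [CommGroup T] [Fintype T] {p : ℕ}

/-- the powers of an element -/
theorem elt_inj (hp : p.Prime) {m t : ℕ} (hTm : ∀ u : T, u ^ p ^ m = 1)
    (htp : t.Coprime p) (ht : ∀ n : ℕ, 0 < n → p ∣ t ^ n - 1 → p - 1 ≤ n) {u : T}
    (hu : u ≠ 1) {j j' : ℕ} (hj : j < p - 1) (hj' : j' < p - 1)
    (h : u ^ t ^ j = u ^ t ^ j') : j = j' := by
  have ht0 : 0 < t := by
    rcases Nat.eq_zero_or_pos t with h0 | h0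
    · subst h0
      rw [Nat.coprime_zero_left] at htp
      exact absurd htp hp.one_lt.ne'
    · exact h0
  have hpo : p ∣ orderOf u := by
    obtain ⟨a, -, ha⟩ := (Nat.dvd_prime_pow hp).1 (orderOf_dvd_of_pow_eq_one (hTm u))
    rw [ha]
    have h1 : a ≠ 0 := by
      rintro rfl
      rw [pow_zero] at ha
      exact hu (orderOf_eq_one_iff.1 ha)
    exact dvd_pow_self p h1
  have key : ∀ j j' : ℕ, j < j' → j' < p - 1 → u ^ t ^ j ≠ u ^ t ^ j' := by
    intro j j' hlt hj' h
    have h1 := (pow_eq_pow_iff_modEq.1 h).of_dvd hpo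
    have h2 : t ^ j' = t ^ j * t ^ (j' - j) := by rw [← pow_add]; congr 1; omega
    have h3 : p ∣ t ^ j * (t ^ (j' - j) - 1) := by
      have h4 := (Nat.modEq_iff_dvd' (Nat.pow_le_pow_right ht0 hlt.le)).1 h1
      rwa [h2, ← Nat.mul_sub_one] at h4
    rcases (hp.dvd_mul).1 h3 with h4 | h4
    · have h5 := hp.dvd_of_dvd_pow h4
      have h6 := Nat.dvd_gcd h5 (dvd_refl p)
      rw [htp] at h6
      exact hp.one_lt.ne' (Nat.dvd_one.1 h6)
    · have h5 := ht (j' - j) (by omega) h4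
      omega
  rcases Nat.lt_trichotomy j j' with h1 | h1 | h1
  · exact absurd h (key j j' h1 hj')
  · exact h1
  · exact absurd h.symm (key j' j h1 hj)

theorem st_of_pow (hp : p.Prime) {m t : ℕ} (hTm : ∀ u : T, u ^ p ^ m = 1)
    (htp : t.Coprime p) (ht : ∀ n : ℕ, 0 < n → p ∣ t ^ n - 1 → p - 1 ≤ n)
    {E : Subgroup (MulAut T)} [Finite E] (hE : Nat.card E + 1 ≤ p) {u : T} (hu : u ≠ 1)
    {α : MulAut T} (hα : α ∈ E) (hαu : α u = u ^ t) : st E u = 1 := by
  classical
  have hit : ∀ j : ℕ, (α ^ j) u = u ^ t ^ j := by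
    intro j
    induction j with
    | zero => rw [pow_zero, pow_zero, pow_one]; rfl
    | succ j ih => rw [pow_succ', MulAut.mul_apply, ih, map_pow, hαu, ← pow_mul, pow_succ']
  let f : {β : E // (β : MulAut T) u = u} × Fin (p - 1) → E := fun x =>
    ⟨α ^ (x.2 : ℕ), E.pow_mem hα _⟩ * x.1.1
  have hf : Function.Injective f := by
    rintro ⟨β, j⟩ ⟨β', j'⟩ h
    have h1 : α ^ (j : ℕ) * (β.1 : MulAut T) = α ^ (j' : ℕ) * (β'.1 : MulAut T) :=
      congrArg Subtype.val h
    have h2 : (α ^ (j : ℕ)) u = (α ^ (j' : ℕ)) u := by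
      have h3 := DFunLike.congr_fun h1 u
      rw [MulAut.mul_apply, MulAut.mul_apply, β.2, β'.2] at h3
      exact h3
    rw [hit, hit] at h2
    have h4 : j = j' := Fin.ext (elt_inj hp hTm htp ht hu j.2 j'.2 h2)
    subst h4
    have h5 := mul_left_cancel h1
    rw [Prod.mk.injEq]
    exact ⟨Subtype.ext (Subtype.ext h5), rfl⟩
  have h5 := Nat.card_le_card_of_injective f hf
  rw [Nat.card_prod, Nat.card_eq_fintype_card (α := Fin (p - 1)), Fintype.card_fin] at h5
  have h6 : st E u * (p - 1) ≤ 1 * (p - 1) := by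
    refine h5.trans ?_
    omega
  have h7 := Nat.le_of_mul_le_mul_right h6 (by have := hp.two_le; omega)
  exact le_antisymm h7 (st_pos E u)

end

section
variable {T : Type*} [CommGroup T] [Fintype T] {K : Type*} [Field K] [CharZero K]
  [HasEnoughRootsOfUnity K (Monoid.exponent T)]

open Classical in
/-- the duality count -/
theorem card_dual (α : MulAut T) (t : ℕ) :
    (univ.filter fun l : T →* Kˣ => dl l α = pw l t).card
      = (univ.filter fun u : T => α u = u ^ t).card := by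
  set f : T →* T := (α.toMonoidHom)⁻¹ * powMonoidHom t with hf
  have hfu : ∀ u, f u = (α u)⁻¹ * u ^ t := fun u => rfl
  have h1 := card_eqP (K := K) f.range 1
  have h2 := Ku.card_ker_mul_range f
  rw [Nat.card_eq_fintype_card (α := T), ← h1, mul_comm] at h2
  have h3 := Nat.eq_of_mul_eq_mul_left (Nat.card_pos (α := f.range)) h2
  have h4 : (univ.filter fun l : T →* Kˣ => dl l α = pw l t)
      = univ.filter fun l : T →* Kˣ => eqP f.range l 1 := by
    ext l
    rw [mem_filter, mem_filter]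
    refine and_congr_right fun _ => ?_
    constructor
    · rintro h _ ⟨u, rfl⟩
      have h5 := DFunLike.congr_fun h u
      rw [pw_apply] at h5
      change l (α u) = l (u ^ t) at h5
      rw [hfu, map_mul, map_inv, h5, inv_mul_cancel, MonoidHom.one_apply]
    · intro h
      refine MonoidHom.ext fun u => ?_
      have h5 := h (f u) ⟨u, rfl⟩
      rw [hfu, map_mul, map_inv, MonoidHom.one_apply, inv_mul_eq_one] at h5
      exact h5
  have h5 : (univ.filter fun u : T => α u = u ^ t).card = Nat.card f.ker := by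
    rw [Nat.card_eq_fintype_card, ← Fintype.card_coe]
    refine Fintype.card_congr (Equiv.subtypeEquivRight fun a => ?_)
    rw [mem_filter, MonoidHom.mem_ker, hfu, inv_mul_eq_one]
    exact ⟨fun h => h.2, fun h => ⟨mem_univ _, h⟩⟩
  rw [h4, h5, ← h3]

end

end V1dx

open V1dx

section
variable {T : Type*} [CommGroup T] [Fintype T] {K : Type*} [Field K] [CharZero K]
  [HasEnoughRootsOfUnity K (Monoid.exponent T)]

/-- **the number of the invariant rows** -/
theorem fixed_count {p : ℕ} (hp : p.Prime) (hT : IsPGroup p T) {E : Subgroup (MulAut T)}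
    (hE : Nat.card E + 1 = p) {I : Type*} [Fintype I] {ψ : I → T → K}
    (hψ : ∀ i, ψ i ∈ vir T K) (hG : ∀ u v, GramR E ⊥ ψ u v) {m t : ℕ}
    (hTm : ∀ u : T, u ^ p ^ m = 1) (htp : t.Coprime p)
    (htg : ∀ n : ℕ, n.Coprime p → ∃ j : ℕ, n ≡ t ^ j [MOD p ^ m])
    (ht : ∀ n : ℕ, 0 < n → p ∣ t ^ n - 1 → p - 1 ≤ n) (S : Finset I)
    (hS : ∀ i ∈ S, ∀ u, ψ i (u ^ t) = ψ i u) (hne : ∀ i ∈ S, ∃ u, ψ i u ≠ 0)
    (hreg : ∀ i ∈ S, ∀ (l : T →* Kˣ) (ε : K), ε ^ 2 = 1 → od l = p →
      (∀ u, (l u = 1 → ψ i u = ε * ((p : K) - 1)) ∧ (l u ≠ 1 → ψ i u = -ε)) →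
      ∀ u, l u ≠ 1 → st E u = 1) :
    ∃ W : Finset T, 1 ∈ W ∧ (∀ v ∈ W, ∀ v' ∈ W, v ≠ v' → ¬ ∃ α ∈ E, v' = α v) ∧
      (∀ v ∈ W, v ≠ 1 → st E v = 1 ∧ ∃ α ∈ E, α v = v ^ t) ∧
      S.card + 1 ≤ Nat.card E + W.card := by
  classical
  have hfin : Finite E := by
    have h1 := hp.two_le
    exact (Nat.card_pos_iff.1 (by omega)).2
  have : Fintype E := Fintype.ofFinite _
  have hcE : Nat.card E = Fintype.card E := Nat.card_eq_fintype_card
  have hpE : ¬ p ∣ Nat.card E := fun h1 => by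
    have h2 := hp.two_le
    have := Nat.le_of_dvd (by omega) h1
    omega
  choose M hM using fun i => mem_vir_iff.1 (hψ i)
  have hgram : ∀ a c : T →* Kˣ, ∑ i, M i a * M i c = (cn E a c : ℤ) := by
    intro a c
    have h1 := gram_bot hG a c
    simp only [hM] at h1
    exact_mod_cast h1
  -- the data at a character of an invariant row
  have hrow : ∀ i ∈ S, ∀ l : T →* Kˣ, l ≠ 1 → M i l ≠ 0 →
      (∀ j ∈ S, M j l ≠ 0 → j = i) ∧ (∀ l', Orb E t l l' → M i l' = M i l) ∧
      (univ.filter (Orb E t l)).card = p - 1 ∧ (∀ l', Orb E t l l' → l' ≠ 1) ∧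
      ∀ α ∈ E, ∀ β ∈ E, dl l α = dl l β → α = β := by
    intro i hi l hl hMl
    obtain ⟨-, hM2, huni, hiff, hMo, -, hod, hval⟩ := fixed_row hp hT (by omega) hG hM hTm htp htg
      ht S hS hi hl hMl
    refine ⟨huni, hMo, ?_, fun l' hl' => ((hiff l').1 hl').1, ?_⟩
    · have h1 : univ.filter (Orb E t l) = (univ.filter fun l' : T →* Kˣ => eqP l.ker l' 1).erase 1 := by
        ext l'
        rw [mem_filter, mem_erase, mem_filter, hiff]
        exact ⟨fun h => ⟨h.2.1, mem_univ _, h.2.2⟩, fun h => ⟨mem_univ _, h.1, h.2.2⟩⟩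
      have h2 := card_eqP (K := K) l.ker 1
      have h3 := Ku.card_ker_mul_range l
      rw [← Nat.card_eq_fintype_card (α := T), ← h3] at h2
      have h4 : Nat.card l.range = p := hod
      rw [h4] at h2
      have h5 := Nat.eq_of_mul_eq_mul_left (Nat.card_pos (α := l.ker)) h2
      rw [h1, card_erase_of_mem (mem_filter.2 ⟨mem_univ _, fun _ _ => rfl⟩), h5]
    · intro α hα β hβ hαβ
      have h1 : dl l (α * β⁻¹) = l := by
        rw [dl_mul, hαβ, ← dl_mul, mul_inv_cancel, dl_one]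
      obtain ⟨x, -, hlx, hfix⟩ := exists_fix hp hT hpE hl
      have h2 : (α * β⁻¹) x = x := hfix _ ⟨E.mul_mem hα (E.inv_mem hβ), h1⟩
      have h3 := hreg i hi l (M i l : K) (by exact_mod_cast hM2) hod hval x hlx
      rw [st, Nat.card_eq_one_iff_unique] at h3
      obtain ⟨h3, -⟩ := h3
      have h4 := congrArg (fun a => ((a : {φ : E // (φ : MulAut T) x = x}).1 : MulAut T))
        (h3.elim ⟨⟨α * β⁻¹, E.mul_mem hα (E.inv_mem hβ)⟩, h2⟩ ⟨1, rfl⟩)
      exact mul_inv_eq_one.1 h4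
  -- the rows without the trivial character
  set S1 := S.filter fun i => M i 1 = 0 with hS1
  have hS1m : ∀ i ∈ S1, i ∈ S ∧ M i 1 = 0 := fun i hi => mem_filter.1 hi
  have hex : ∀ i : I, ∃ l : T →* Kˣ, i ∈ S1 → l ≠ 1 ∧ M i l ≠ 0 := by
    intro i
    by_cases hi : i ∈ S1
    · obtain ⟨hiS, hi1⟩ := hS1m i hi
      obtain ⟨u, hu⟩ := hne i hiS
      rw [eq_sum_mlt (ψ i) u] at hu
      obtain ⟨l, -, hl⟩ := exists_ne_zero_of_sum_ne_zero hu
      have h1 : M i l ≠ 0 := by
        intro h2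
        apply hl
        rw [hM, h2, Int.cast_zero, zero_mul]
      exact ⟨l, fun _ => ⟨fun h2 => h1 (h2 ▸ hi1), h1⟩⟩
    · exact ⟨1, fun h => absurd h hi⟩
  choose L hL using hex
  have hcard0 : S.card ≤ Nat.card E + S1.card := by
    have h1 : (S.filter fun i => ¬ M i 1 = 0).card ≤ Nat.card E := by
      have h2 : ((S.filter fun i => ¬ M i 1 = 0).card : ℤ) ≤ (cn E (1 : T →* Kˣ) 1 : ℤ) := by
        rw [← hgram, card_eq_sum_ones, Nat.cast_sum]
        refine (sum_le_sum (g := fun i => M i 1 * M i 1) fun i hi => ?_).trans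
          (sum_le_sum_of_subset_of_nonneg (subset_univ _) fun i _ _ => mul_self_nonneg _)
        have h3 := (mem_filter.1 hi).2
        have h4 := mul_self_pos.2 h3
        push_cast
        omega
      have h3 : cn E (1 : T →* Kˣ) 1 ≤ Fintype.card E := by
        unfold cn
        exact card_le_univ _
      rw [hcE]
      have h4 : (S.filter fun i => ¬ M i 1 = 0).card ≤ cn E (1 : T →* Kˣ) 1 := by exact_mod_cast h2
      exact h4.trans h3
    have h2 := card_filter_add_card_filter_not (s := S) (p := fun i => M i 1 = 0)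
    rw [← h2, ← hS1]
    omega
  -- the characters conjugate to their powers
  set X' : Finset (T →* Kˣ) := univ.filter fun l => l ≠ 1 ∧ ∃ α ∈ E, dl l α = pw l t with hX'
  have hOX : ∀ i ∈ S1, univ.filter (Orb E t (L i)) ⊆ X' := by
    intro i hi l hl
    obtain ⟨hiS, -⟩ := hS1m i hi
    obtain ⟨hL1, hLM⟩ := hL i hi
    have hl' := (mem_filter.1 hl).2
    obtain ⟨-, hMo, hOc, hO1, -⟩ := hrow i hiS (L i) hL1 hLM
    have hl1 := hO1 l hl'
    have hlM : M i l ≠ 0 := by rw [hMo l hl']; exact hLM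
    obtain ⟨-, -, -, -, hinj⟩ := hrow i hiS l hl1 hlM
    have h1 : (univ.image fun α : E => dl l (α : MulAut T)) = univ.filter (Orb E t (L i)) := by
      refine eq_of_subset_of_card_le ?_ ?_
      · intro l' h2
        obtain ⟨α, -, rfl⟩ := mem_image.1 h2
        exact mem_filter.2 ⟨mem_univ _, orb_dl hl' α.2⟩
      · rw [hOc, card_image_of_injective _ fun α β hαβ => Subtype.ext (hinj α α.2 β β.2 hαβ),
          card_univ, ← hcE]
        omega
    have h2 : pw l t ∈ univ.image fun α : E => dl l (α : MulAut T) := by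
      rw [h1]
      refine mem_filter.2 ⟨mem_univ _, ?_⟩
      have h3 := orb_pw hl' 1
      rwa [pow_one] at h3
    obtain ⟨α, -, hα⟩ := mem_image.1 h2
    exact mem_filter.2 ⟨mem_univ _, hl1, α, α.2, hα⟩
  have hX'c : S1.card * (p - 1) ≤ X'.card := by
    have h1 : (S1.biUnion fun i => univ.filter (Orb E t (L i))).card
        = ∑ i ∈ S1, (univ.filter (Orb E t (L i))).card := by
      refine card_biUnion fun i hi j hj hij => ?_
      rw [Function.onFun, Finset.disjoint_left]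
      intro l hl1 hl2
      apply hij
      obtain ⟨hiS, -⟩ := hS1m i hi
      obtain ⟨hjS, -⟩ := hS1m j hj
      obtain ⟨hL1, hLM⟩ := hL i hi
      obtain ⟨hL1', hLM'⟩ := hL j hj
      have hl1' := (mem_filter.1 hl1).2
      have hl2' := (mem_filter.1 hl2).2
      obtain ⟨-, hMo, -, hO1, -⟩ := hrow i hiS (L i) hL1 hLM
      obtain ⟨-, hMo', -, -, -⟩ := hrow j hjS (L j) hL1' hLM'
      have h3 : M i l ≠ 0 := by rw [hMo l hl1']; exact hLM
      have h4 : M j l ≠ 0 := by rw [hMo' l hl2']; exact hLM'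
      obtain ⟨huni, -⟩ := hrow j hjS l (hO1 l hl1') h4
      exact huni i hiS h3
    have h2 : ∑ i ∈ S1, (univ.filter (Orb E t (L i))).card = S1.card * (p - 1) := by
      rw [sum_congr rfl fun i hi => (hrow i (hS1m i hi).1 (L i) (hL i hi).1 (hL i hi).2).2.2.1,
        sum_const, smul_eq_mul]
    rw [← h2, ← h1]
    refine card_le_card fun l hl => ?_
    obtain ⟨i, hi, hl'⟩ := mem_biUnion.1 hl
    exact hOX i hi hl'
  -- duality
  set X : Finset T := univ.filter fun u => u ≠ 1 ∧ ∃ α ∈ E, α u = u ^ t with hX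
  have hXX : X'.card ≤ X.card := by
    have h1 : X'.card ≤ ∑ α : E, (univ.filter fun l : T →* Kˣ => l ≠ 1 ∧
        dl l (α : MulAut T) = pw l t).card := by
      have h2 : X' ⊆ (univ : Finset E).biUnion fun α => univ.filter fun l : T →* Kˣ => l ≠ 1 ∧
          dl l (α : MulAut T) = pw l t := by
        intro l hl
        obtain ⟨-, hl1, α, hα, hl2⟩ := mem_filter.1 hl
        exact mem_biUnion.2 ⟨⟨α, hα⟩, mem_univ _, mem_filter.2 ⟨mem_univ _, hl1, hl2⟩⟩
      exact (card_le_card h2).trans card_biUnion_le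
    have h2 : ∀ α : E, (univ.filter fun l : T →* Kˣ => l ≠ 1 ∧ dl l (α : MulAut T) = pw l t).card
        = (univ.filter fun u : T => u ≠ 1 ∧ (α : MulAut T) u = u ^ t).card := by
      intro α
      have h3 := card_dual (K := K) (α : MulAut T) t
      have h4 : (univ.filter fun l : T →* Kˣ => l ≠ 1 ∧ dl l (α : MulAut T) = pw l t)
          = (univ.filter fun l : T →* Kˣ => dl l (α : MulAut T) = pw l t).erase 1 := by
        ext l
        simp only [mem_filter, mem_erase, mem_univ, true_and]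
      have h5 : (univ.filter fun u : T => u ≠ 1 ∧ (α : MulAut T) u = u ^ t)
          = (univ.filter fun u : T => (α : MulAut T) u = u ^ t).erase 1 := by
        ext l
        simp only [mem_filter, mem_erase, mem_univ, true_and]
      rw [h4, h5, card_erase_of_mem, card_erase_of_mem, h3]
      · exact mem_filter.2 ⟨mem_univ _, by rw [map_one, one_pow]⟩
      · exact mem_filter.2 ⟨mem_univ _, by
          ext u
          rw [pw_apply, MonoidHom.one_apply]
          rfl⟩
    have h3 : ∑ α : E, (univ.filter fun u : T => u ≠ 1 ∧ (α : MulAut T) u = u ^ t).card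
        = ∑ u ∈ X, (univ.filter fun α : E => (α : MulAut T) u = u ^ t).card := by
      simp only [card_filter]
      rw [sum_comm, hX, sum_filter]
      refine sum_congr rfl fun u _ => ?_
      split_ifs with h4
      · refine sum_congr rfl fun α _ => ?_
        simp only [h4.1, ne_eq, not_false_eq_true, true_and]
      · refine sum_eq_zero fun α _ => ?_
        rw [if_neg]
        rintro ⟨h5, h6⟩
        exact h4 ⟨h5, α, α.2, h6⟩
    have h4 : ∀ u ∈ X, (univ.filter fun α : E => (α : MulAut T) u = u ^ t).card ≤ 1 := by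
      intro u hu
      obtain ⟨-, hu1, γ, hγ, hγu⟩ := mem_filter.1 hu
      have h5 := st_of_pow hp hTm htp ht (by omega) hu1 hγ hγu
      rw [st, Nat.card_eq_one_iff_unique] at h5
      obtain ⟨h5, -⟩ := h5
      refine card_le_one.2 fun α hα β hβ => ?_
      have h6 : ((α⁻¹ * β : E) : MulAut T) u = u := by
        have h7 := (mem_filter.1 hα).2
        have h8 := (mem_filter.1 hβ).2
        rw [Subgroup.coe_mul, Subgroup.coe_inv, MulAut.mul_apply, h8, ← h7, MulAut.inv_apply_self]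
      have h9 := congrArg Subtype.val
        (h5.elim (⟨α⁻¹ * β, h6⟩ : {φ : E // (φ : MulAut T) u = u}) ⟨1, rfl⟩)
      exact inv_mul_eq_one.1 h9
    calc X'.card ≤ _ := h1
      _ = ∑ α : E, (univ.filter fun u : T => u ≠ 1 ∧ (α : MulAut T) u = u ^ t).card :=
          sum_congr rfl fun α _ => h2 α
      _ = ∑ u ∈ X, (univ.filter fun α : E => (α : MulAut T) u = u ^ t).card := h3
      _ ≤ ∑ _u ∈ X, 1 := sum_le_sum h4
      _ = X.card := by rw [sum_const, smul_eq_mul, mul_one]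
  -- the representatives
  obtain ⟨W0, hW1, hW2, hW3⟩ := ZGcAux.exists_rep (α := T)
    { r := fun v v' => ∃ α ∈ E, v' = α v
      iseqv := by
        refine ⟨fun v => ⟨1, E.one_mem, rfl⟩, ?_, ?_⟩
        · rintro v v' ⟨α, hα, rfl⟩
          exact ⟨α⁻¹, E.inv_mem hα, by rw [MulAut.inv_apply_self]⟩
        · rintro v v' v'' ⟨α, hα, rfl⟩ ⟨β, hβ, rfl⟩
          exact ⟨β * α, E.mul_mem hβ hα, rfl⟩ } 1
  set W := W0.filter fun v => v = 1 ∨ ∃ α ∈ E, α v = v ^ t with hW
  have h1W : 1 ∈ W := mem_filter.2 ⟨hW1, Or.inl rfl⟩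
  refine ⟨W, h1W, ?_, ?_, ?_⟩
  · rintro v hv v' hv' hne' ⟨α, hα, hα'⟩
    exact hne' (hW3 v (mem_filter.1 hv).1 v' (mem_filter.1 hv').1 ⟨α, hα, hα'⟩)
  · intro v hv hv1
    obtain ⟨α, hα, hα'⟩ := (mem_filter.1 hv).2.resolve_left hv1
    exact ⟨st_of_pow hp hTm htp ht (by omega) hv1 hα hα', α, hα, hα'⟩
  · have h1 : X ⊆ (W.erase 1).biUnion fun v => univ.image fun α : E => (α : MulAut T) v := by
      intro u hu
      obtain ⟨-, hu1, γ, hγ, hγu⟩ := mem_filter.1 hu
      obtain ⟨v, hv, α, hα, hαv⟩ := hW2 u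
      have hv1 : v ≠ 1 := by
        rintro rfl
        exact hu1 (by rw [hαv, map_one])
      refine mem_biUnion.2 ⟨v, mem_erase.2 ⟨hv1, mem_filter.2 ⟨hv, Or.inr
        ⟨α⁻¹ * γ * α, E.mul_mem (E.mul_mem (E.inv_mem hα) hγ) hα, ?_⟩⟩⟩,
        mem_image.2 ⟨⟨α, hα⟩, mem_univ _, hαv.symm⟩⟩
      rw [MulAut.mul_apply, MulAut.mul_apply, ← hαv, hγu, hαv, ← map_pow, MulAut.inv_apply_self]
    have h2 : X.card ≤ (W.erase 1).card * (p - 1) := by
      refine (card_le_card h1).trans (card_biUnion_le.trans ?_)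
      rw [← smul_eq_mul, ← sum_const]
      refine sum_le_sum fun v _ => card_image_le.trans ?_
      rw [card_univ, ← hcE]
      omega
    have h3 : S1.card * (p - 1) ≤ (W.erase 1).card * (p - 1) := hX'c.trans (hXX.trans h2)
    have h4 := Nat.le_of_mul_le_mul_right h3 (by have := hp.two_le; omega)
    rw [card_erase_of_mem h1W] at h4
    have h5 : 0 < W.card := card_pos.2 ⟨1, h1W⟩
    omega

end

end Pool.Agent.Lib.P0c8ca5.Ex
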