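import Mathlib
import Pool.Agent.Lib.P0c8ca5Ex.ZG
import Pool.Agent.Lib.P0c8ca5Ex.ZGb
import Pool.Agent.Lib.P0c8ca5Ex.V1b
import Pool.Agent.Lib.P0c8ca5Ex.V1c
import Pool.Agent.Lib.P0c8ca5Ex.V1d
import Pool.Agent.Lib.P0c8ca5Kk.Kh

/-!
# V1e: `l(b) ≤ |E|` from the rows, `|E| + 1 = p`

`V1.l_le_rows`: `|E| + 1 = p` and rows `ψ` with `Rows φ D f ⊥ G B ψ` give `l(b) ≤ |E|`.
-/

set_option linter.unusedSectionVars false

namespace Pool.Agent.Lib.P0c8ca5.Ex

open MonoidAlgebra V1dx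

universe u v

section
variable {p : ℕ} [Fact p.Prime] {k : Type v} [Field k] [IsAlgClosed k] [CharP k p]
  {A : Type u} [Group A] [Fintype A] {b f i : MonoidAlgebra k A} {D : Subgroup A}

/-- the block of a pair conjugate to a regular one -/
theorem nilC_conj (hp2 : p ≠ 2) (h : Src p b D f i) {u v x : A} (hu : u ∈ D) (hreg : Reg D f u)
    {c d : MonoidAlgebra k A} (hd : LbH (C1 u) i d) (hvx : v * x = x * u) (hcd : c = cj x d)
    {BH : MonoidAlgebra (OW p k) ↥(C1 v)} (hBH : CenL (dnr (C1 v) c) BH) :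
    NilC ((cg x D).subgroupOf (C1 v)) BH := by
  have hdL : Lb (Subgroup.zpowers u) i d := hd.toLb (CD_zpowers u)
  have hdfg : IsDefectGroup p (C1 v) c (cg x D) := by
    have h1 := WaAux.defect_cg (Lb.dfg h (zp_le hu) hdL) x
    rw [FuAux.cg_CD, cg_zp hvx, CD_zpowers, ← hcd] at h1
    exact h1
  have hcom : ∀ y ∈ cg x D, ∀ z ∈ cg x D, y * z = z * y := by
    intro y hy z hz
    rw [mem_cg] at hy hz
    have h1 := h.root.com _ hy _ hz
    have e1 : y * z = x * ((x⁻¹ * y * x) * (x⁻¹ * z * x)) * x⁻¹ := by group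
    rw [e1, h1]
    group
  have hfb : IsBlock (CD (cg x D)) (cj x f) := by
    have h1 := isBlock_cg h.root.fblk x
    rwa [FuAux.cg_CD] at h1
  have hcf : resS (CD (cg x D) : Set A) c * cj x f = cj x f := by
    have h1 := Lb.f_mul h (zp_le hu) hdL
    have h2 := congrArg (cj x) h1
    rw [cj_mul, ← FuAux.resS_cg, ← hcd, FuAux.cg_CD] at h2
    exact h2
  have hxu : x⁻¹ * v * x = u := by
    rw [mul_assoc, hvx]
    group
  have hvD : v ∈ cg x D := by
    rw [mem_cg, hxu]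
    exact hu
  have hCU : CD (cg x D) ≤ C1 v := by
    rw [← CD_zpowers]
    exact Subgroup.centralizer_le (zp_le hvD)
  have hDU : cg x D ≤ C1 v := (D_le_CD hcom).trans hCU
  have hfs : SuppIn (C1 v) (cj x f) := hfb.suppIn.mono hCU
  have hcb : IsBlock (C1 v) c := by
    rw [hcd]
    exact isBlock_cj hvx hd.blk
  have hroot : Root p (dn (C1 v) c) ((cg x D).subgroupOf (C1 v)) (dn (C1 v) (cj x f)) :=
    root_dn (C1 v) hcb hdfg hcom (by rw [inf_eq_right.2 hCU]; exact hfb) hcf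
  refine nil hp2 hroot ?_ hBH
  intro y hy
  rw [FinAux.St_subgroupOf hDU hfs, Subgroup.mem_subgroupOf, Subgroup.mem_inf] at hy
  obtain ⟨-, hy2⟩ := hy
  rw [Kk.KhAux.mem_St_cg] at hy2
  rw [LocAux.mem_CD_sub hDU]
  have h3 := hreg _ hy2 (by
    have h4 : v * (y : A) = (y : A) * v := mem_C1'.1 y.2
    rw [← hxu]
    calc x⁻¹ * (y : A) * x * (x⁻¹ * v * x) = x⁻¹ * ((y : A) * v) * x := by group
      _ = x⁻¹ * (v * (y : A)) * x := by rw [h4]
      _ = _ := by group)
  rw [← FuAux.cg_CD, mem_cg]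
  exact h3

variable {T : Type*} [CommGroup T] [Fintype T] {φ : T →* A}

/-- a pair conjugate to its power, `|E| < p`: the block is nilpotent -/
theorem const_pair (hp2 : p ≠ 2) (h : Src p b D f i) (hE : eN D f + 1 ≤ p)
    (hφ : Function.Injective φ) (hr : ∀ x, x ∈ D ↔ ∃ t, φ t = x) {m t : ℕ}
    (hTm : ∀ u : T, u ^ p ^ m = 1) (htp : t.Coprime p)
    (ht : ∀ n : ℕ, 0 < n → p ∣ t ^ n - 1 → p - 1 ≤ n) {v g : A} {M : ℕ} (hv : v ^ p ^ M = 1)
    (hvt : v ^ t ≠ v) {c : MonoidAlgebra k A} (hc : IsBlock (C1 v) c)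
    (hbc : resS (C1 v : Set A) b * c = c) (hg : v ^ t * g = g * v) (hgc : cj g c = c)
    {BH : MonoidAlgebra (OW p k) ↥(C1 v)} (hBH : CenL (dnr (C1 v) c) BH)
    (e : MonoidAlgebra (OW p k) ↥(C1 v)) (he : e * e = e) (heB : e * BH = e) :
    ∃ n : ℕ, ∀ χ : IrB BH, chO χ.1 e = (n : KW p k) := by
  have hp : p.Prime := Fact.out
  have hcard : Nat.card (EG φ D f) = eN D f := card_EG hφ hr
  have := finite_EG (φ := φ) (D := D) (f := f)
  have hE0 : 0 < eN D f := hcard ▸ Nat.card_pos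
  have hpE : ¬ p ∣ eN D f := fun h1 => by
    have := Nat.le_of_dvd hE0 h1
    omega
  have hQ : IsPGroup p (Subgroup.zpowers v) := by
    intro x
    obtain ⟨n, hn⟩ := x.2
    refine ⟨M, ?_⟩
    ext
    rw [Subgroup.coe_pow, ← hn, Subgroup.coe_one]
    change (v ^ n) ^ p ^ M = 1
    rw [← zpow_natCast, ← zpow_mul, mul_comm, zpow_mul, zpow_natCast, hv, one_zpow]
  obtain ⟨x, R, hR, hQR, d, hd, hcd⟩ := lb_all h hpE hQ (c := c)
    (by rw [CD_zpowers]; exact hc) (by rw [CD_zpowers]; exact hbc)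
  set u : A := x⁻¹ * v * x with hu
  have huR : u ∈ R := by
    have h1 : v ∈ cg x R := by
      rw [← hQR]
      exact Subgroup.mem_zpowers v
    exact mem_cg.1 h1
  have hvx : v * x = x * u := by rw [hu]; group
  have hRu : R = Subgroup.zpowers u := by
    have h1 : cg x (Subgroup.zpowers u) = Subgroup.zpowers v := cg_zp hvx
    rw [hQR] at h1
    have h2 : cg x⁻¹ (cg x (Subgroup.zpowers u)) = cg x⁻¹ (cg x R) := by rw [h1]
    rw [cg_cg, cg_cg, inv_mul_cancel, cg_one, cg_one] at h2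
    exact h2.symm
  subst hRu
  have huD : u ∈ D := hR (Subgroup.mem_zpowers u)
  have hdH : LbH (C1 u) i d := hd.toH (CD_zpowers u)
  have hy : u ^ t * (x⁻¹ * g * x) = (x⁻¹ * g * x) * u := by
    have h1 : u ^ t = x⁻¹ * v ^ t * x := by
      rw [hu]
      have h2 := conj_pow (a := x⁻¹) (b := v) (i := t)
      rw [inv_inv] at h2
      exact h2
    calc u ^ t * (x⁻¹ * g * x) = x⁻¹ * (v ^ t * g) * x := by rw [h1]; group
      _ = x⁻¹ * (g * v) * x := by rw [hg]
      _ = _ := by rw [hu]; group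
  have hyd : cj (x⁻¹ * g * x) d = d := by
    rw [hcd, cj_cj] at hgc
    rw [mul_assoc, ← cj_cj, hgc, cj_cj, inv_mul_cancel, cj_one_left]
  have hC := C1_conj_pow hy
  have hutD : u ^ t ∈ D := D.pow_mem huD t
  have hdt : LbH (C1 (u ^ t)) i d := by
    rw [hC]
    exact hdH
  obtain ⟨e', he', hue⟩ := fus_elt h hutD huD hy hdt hdH hyd
  obtain ⟨α, hα, hα'⟩ := exists_EG hφ hr he'
  obtain ⟨u₀, hu₀⟩ := (hr u).1 huD
  have hαu : α u₀ = u₀ ^ t := by
    apply hφ
    rw [hα', map_pow, hu₀, ← hue, mul_inv_cancel_right]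
  have hu1 : u₀ ≠ 1 := by
    intro h4
    rw [h4, map_one] at hu₀
    apply hvt
    have h5 : v = 1 := by
      rw [← hu₀, mul_one] at hvx
      exact mul_eq_right.1 hvx
    rw [h5, one_pow]
  have hst := st_of_pow hp hTm htp ht (by rw [hcard]; exact hE) hu1 hα hαu
  have hreg : Reg D f u := by
    rw [← hu₀]
    exact (st_EG hφ hr u₀).1 hst
  exact (nilC_conj hp2 h huD hreg hdH hvx hcd hBH).const e he heB

variable {G : Subgroup T → A → KW p k}

/-- **the number of simple modules from the rows**, `|E| = p - 1` -/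
theorem V1.l_le_rows (hp2 : p ≠ 2) (hS : Stp φ b D f i ⊥ G) (hE : eN D f + 1 = p)
    {B : MonoidAlgebra (OW p k) A} (hB : CenL b B) {ψ : IR φ ⊥ B → T → KW p k}
    (hψ : Rows φ D f ⊥ G B ψ) :
    Nat.card (Quotient (irrInvSetoid (⊤ : Subgroup A) ⊤ b)) ≤ eN D f := by
  classical
  have hp : p.Prime := Fact.out
  have h := hS.src
  have hφ := hS.inj
  have hr := hS.ran
  have hb := h.root.blk
  have hcard : Nat.card (EG φ D f) = eN D f := card_EG hφ hr
  have := finite_EG (φ := φ) (D := D) (f := f)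
  have hp2' := hp.two_le
  have hpE : ¬ p ∣ eN D f := fun h1 => by
    have := Nat.le_of_dvd (by omega) h1
    omega
  obtain ⟨M, hM⟩ := pow_one_of h
  have hTm : ∀ u : T, u ^ p ^ Nat.card A = 1 := by
    intro u
    apply hφ
    rw [map_pow, map_one]
    exact pel_card (hM (φ u) ((hr _).2 ⟨u, rfl⟩))
  have hTp : IsPGroup p T := fun u => ⟨Nat.card A, hTm u⟩
  obtain ⟨t, ht1, ht2, ht3⟩ := exists_gen hp hp2 (Nat.card A)
  obtain ⟨s, hs⟩ := exists_galB (p := p) (k := k) B ht1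
  have hK : ∀ χ : Ir (KW p k) A, Ker φ ⊥ χ := fun χ z hz x => by
    rw [Subgroup.mem_bot.1 hz, map_one, one_mul]
  set S : Finset (IR φ ⊥ B) :=
    Finset.univ.filter fun χ => s ⟨χ.1, χ.2.2⟩ = ⟨χ.1, χ.2.2⟩ with hSd
  have hSc : Nat.card {χ : IrB B // s χ = χ} = S.card := by
    rw [hSd, ← Fintype.card_subtype, ← Nat.card_eq_fintype_card]
    exact Nat.card_congr ⟨fun χ => ⟨⟨χ.1.1, hK _, χ.1.2⟩, χ.2⟩, fun χ => ⟨⟨χ.1.1, χ.1.2.2⟩, χ.2⟩,
      fun _ => rfl, fun _ => rfl⟩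
  have hT1 : 1 < Fintype.card T := by
    by_contra hcon
    have h1 : Subsingleton T := Fintype.card_le_one_iff_subsingleton.1 (by omega)
    have h2 : Nat.card (EG φ D f) ≤ 1 := by
      have h3 : Subsingleton (EG φ D f) :=
        ⟨fun a c => Subtype.ext (MulEquiv.ext fun x => Subsingleton.elim _ _)⟩
      exact Finite.card_le_one_iff_subsingleton.2 h3
    omega
  obtain ⟨u₀, hu₀, hst₀⟩ := exists_reg (E := EG φ D f) hp hTp (by omega) hT1
  obtain ⟨W, h1W, hWne, hWst, hWc⟩ := fixed_count hp hTp (E := EG φ D f) (by rw [hcard]; exact hE)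
    (fun χ => hψ.vir χ) (fun u v => hψ.gram u v) hTm ht1 ht2 ht3 S (fun χ hχ u => by
      by_cases hu : u = 1
      · rw [hu, one_pow]
      have hχ' : s ⟨χ.1, χ.2.2⟩ = ⟨χ.1, χ.2.2⟩ := (Finset.mem_filter.1 hχ).2
      have hz := zpowers_pow ht1 (hTm u)
      have hu' : u ^ t ≠ 1 := by
        intro h1
        rw [h1, Subgroup.zpowers_one_eq_bot] at hz
        exact hu (Subgroup.zpowers_eq_bot.1 hz.symm)
      have hlt : (⊥ : Subgroup T) < ⊥ ⊔ Subgroup.zpowers u := by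
        rw [bot_sup_eq, bot_lt_iff_ne_bot]
        exact fun h1 => hu (Subgroup.zpowers_eq_bot.1 h1)
      have h2 := gal_row (t := t) (χ := χ.1) (χ' := χ.1) (u := u) (hS.ok _ hlt)
        (hM _ ((hr _).2 ⟨u, rfl⟩)) hz (fun F hF hF' => by
          have h3 := hs ⟨χ.1, χ.2.2⟩ (φ u) M (hM _ ((hr _).2 ⟨u, rfl⟩)) F hF hF'
          rwa [hχ'] at h3)
      rw [hψ.out χ _ (fun h3 => hu' (Subgroup.mem_bot.1 h3)),
        hψ.out χ _ (fun h3 => hu (Subgroup.mem_bot.1 h3))]
      exact h2.symm)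
    (fun χ _ => by
      refine ⟨u₀, ?_⟩
      have h1 : u₀ ∉ (⊥ : Subgroup T) := fun h2 => hu₀ (Subgroup.mem_bot.1 h2)
      rw [hψ.out χ _ h1]
      exact rwv_ne hp2 hS hpE hB χ.2.2 h1 ((st_EG hφ hr u₀).1 hst₀))
    (fun χ _ l ε hε hod hval u hu => row_reg hS hE hB hψ χ hε hod hval hu)
  have hmem : ∀ t, φ t ∈ D := fun t => (hr _).2 ⟨t, rfl⟩
  have hcex := fun t : T => exists_lbH h (hmem t)
  choose c hc using hcex
  have hC1 : C1 (φ 1) = ⊤ := by
    rw [map_one]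
    ext x
    rw [mem_C1', one_mul, mul_one]
    simp
  have hc1 : c 1 = b := by
    have e1 := lbH_b_mul h (hmem 1) (hc 1)
    have e2 : resS (C1 (φ 1) : Set A) b = b := by
      ext x
      rw [coeff_resS_of_mem]
      rw [hC1]
      exact Subgroup.mem_top x
    rw [e2] at e1
    have e3 := (hc 1).blk
    rw [hC1] at e3
    rcases hb.eq_or_mul_eq_zero e3 with e4 | e4
    · exact e4.symm
    · rw [e1] at e4
      exact absurd e4 e3.ne_zero
  -- the pairs
  let x : Fin W.card → Pr p b := fun w =>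
    let v : T := (W.equivFin.symm w).1
    ⟨φ v, c v, ⟨M, hM _ (hmem v)⟩, (hc v).blk, lbH_b_mul h (hmem v) (hc v)⟩
  have h3 := fix_ge_gen hb hB s ht1 hs
    (fun v g M' c' hv hvt hc' hbc' hg hgc BH hBH e he heB =>
      const_pair hp2 h hE.le hφ hr hTm ht1 ht3 hv hvt hc' hbc' hg hgc hBH e he heB)
    (W := Fin W.card) x
    (fun w => by
      by_cases hv1 : (W.equivFin.symm w).1 = 1
      · left
        change φ (W.equivFin.symm w).1 ^ t = φ (W.equivFin.symm w).1
        rw [hv1, map_one, one_pow]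
      · right
        obtain ⟨-, α, ⟨g, hg, hgφ⟩, hαv⟩ := hWst _ (W.equivFin.symm w).2 hv1
        have hgv : φ (W.equivFin.symm w).1 ^ t * g = g * φ (W.equivFin.symm w).1 := by
          rw [← map_pow, ← hαv, hgφ, inv_mul_cancel_right]
        refine ⟨g, hgv, ?_⟩
        have hC := C1_conj_pow hgv
        exact cj_lb h (hmem _) hg hgv (by rw [hC]; exact hc _) (hc _))
    (fun w w' hww => by
      rintro ⟨g, hg1, hg2⟩
      change φ (W.equivFin.symm w).1 * g = g * φ (W.equivFin.symm w').1 at hg1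
      change cj g (c (W.equivFin.symm w').1) = c (W.equivFin.symm w).1 at hg2
      obtain ⟨g', hg', hg''⟩ := fus_elt h (hmem _) (hmem _) hg1 (hc _) (hc _) hg2
      obtain ⟨α, hα, hα'⟩ := exists_EG hφ hr hg'
      refine hWne _ (W.equivFin.symm w').2 _ (W.equivFin.symm w).2 (fun h4 => hww ?_)
        ⟨α, hα, ?_⟩
      · exact (W.equivFin.symm.injective (Subtype.ext h4)).symm
      · apply hφ
        rw [hα', ← hg'', mul_inv_cancel_right])
  have h4 : ∑ w : Fin W.card,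
      Nat.card (Quotient (irrInvSetoid (C1 (x w).v) (C1 (x w).v) (x w).c))
      = ∑ v ∈ W, Nat.card (Quotient (irrInvSetoid (C1 (φ v)) (C1 (φ v)) (c v))) := by
    rw [← Finset.sum_coe_sort W
      (fun v => Nat.card (Quotient (irrInvSetoid (C1 (φ v)) (C1 (φ v)) (c v))))]
    exact Fintype.sum_equiv W.equivFin.symm _ _ fun w => rfl
  rw [h4, hSc, ← Finset.add_sum_erase W _ h1W, hc1, hC1] at h3
  have h6 : (W.erase 1).card ≤
      ∑ v ∈ W.erase 1, Nat.card (Quotient (irrInvSetoid (C1 (φ v)) (C1 (φ v)) (c v))) := by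
    rw [Finset.card_eq_sum_ones]
    refine Finset.sum_le_sum fun v hv => ?_
    obtain ⟨hv1, hvW⟩ := Finset.mem_erase.1 hv
    obtain ⟨hst, -⟩ := hWst v hvW hv1
    have e1 : cq φ (Subgroup.zpowers v) = C1 (φ v) := by
      rw [cq, MonoidHom.map_zpowers, CD_zpowers]
    have e2 : eQ φ D f (Subgroup.zpowers v) = st (EG φ D f) v :=
      (eQ_sup (R := ⊥) (fun z hz a => by
        rw [Subgroup.mem_bot.1 hz, map_one, one_mul, mul_one]) hφ v).2
    have e3 : LbH (cq φ (Subgroup.zpowers v)) i (c v) := by rw [e1]; exact hc v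
    have e4 := l_loc hp2 h hφ hr e3 (by rw [e2, hst]; exact hp.one_lt)
      (fun E' hE' hfix => by
        have h7 : Subsingleton ↥E' := by
          rw [st, Nat.card_eq_one_iff_unique] at hst
          obtain ⟨h8, -⟩ := hst
          refine ⟨fun α β => Subtype.ext ?_⟩
          have h9 := congrArg (fun a =>
            ((a : {φ : EG φ D f // (φ : MulAut T) v = v}).1 : MulAut T))
            (h8.elim ⟨⟨α, hE' α.2⟩, hfix α α.2 v (Subgroup.mem_zpowers v)⟩
              ⟨⟨β, hE' β.2⟩, hfix β β.2 v (Subgroup.mem_zpowers v)⟩)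
          exact h9
        infer_instance)
    rw [e2, e1, hst] at e4
    exact e4
  rw [Finset.card_erase_of_mem h1W] at h6
  have h7 : 0 < W.card := Finset.card_pos.2 ⟨1, h1W⟩
  omega

end

end Pool.Agent.Lib.P0c8ca5.Ex
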