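import Mathlib
import Pool.Agent.Lib.P0c8ca5Ex.ZB
import Pool.Agent.Lib.P0c8ca5Ex.YZa

/-!
# ZVa: groups of automorphisms of order `p - 2`

* `many_pm2`: a group `E` of order `p - 2 ≥ 3` of automorphisms of the abelian `p`-group `T` has many regular
  characters (`Many`): the order of `h ∈ E - 1` is prime to `p - 1`, so `h` acts trivially on each invariant
  subgroup of order `p`, so `|[T, h]| ≥ p²`; `many_of`.
* `rat_rows2`: `rat_rows` (YZ) for `|E| + 2 ≤ p`.
-/

set_option linter.unusedSectionVars false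

namespace Pool.Agent.Lib.P0c8ca5.Ex

open Finset YLx

namespace ZVx

section
variable {T : Type*} [CommGroup T] [Finite T] {p : ℕ}

/-- an automorphism acts on an invariant subgroup of order `p` with order dividing `p - 1` -/
theorem pow_fix (hp : p.Prime) {S : Subgroup T} (hS : Nat.card S = p) {α : MulAut T}
    (hα : ∀ x ∈ S, α x ∈ S) {x : T} (hx : x ∈ S) : (α ^ (p - 1)) x = x := by
  have hF : Fact p.Prime := ⟨hp⟩
  by_cases hx1 : x = 1
  · rw [hx1, map_one]
  have hcyc : ∀ y ∈ S, y ∈ Subgroup.zpowers x := by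
    intro y hy
    have h1 : Subgroup.zpowers (⟨x, hx⟩ : S) = ⊤ := by
      have hF' : Fact (Nat.card S).Prime := ⟨by rw [hS]; exact hp⟩
      rcases Subgroup.eq_bot_or_eq_top_of_prime_card (Subgroup.zpowers (⟨x, hx⟩ : S)) with
        h2 | h2
      · exfalso
        rw [Subgroup.zpowers_eq_bot] at h2
        exact hx1 (congrArg Subtype.val h2)
      · exact h2
    have h2 : (⟨y, hy⟩ : S) ∈ Subgroup.zpowers (⟨x, hx⟩ : S) := by
      rw [h1]
      exact Subgroup.mem_top _
    obtain ⟨n, hn⟩ := Subgroup.mem_zpowers_iff.1 h2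
    exact Subgroup.mem_zpowers_iff.2 ⟨n, congrArg Subtype.val hn⟩
  obtain ⟨t, ht⟩ := Subgroup.mem_zpowers_iff.1 (hcyc _ (hα x hx))
  have hxp : x ^ p = 1 := by
    have h1 : (⟨x, hx⟩ : S) ^ Nat.card S = 1 := pow_card_eq_one'
    rw [hS] at h1
    exact congrArg Subtype.val h1
  have hpow : ∀ n : ℕ, (α ^ n) x = x ^ (t ^ n) := by
    intro n
    induction n with
    | zero => rw [pow_zero, pow_zero, zpow_one]; rfl
    | succ n ih =>
      rw [pow_succ, MulAut.mul_apply, ← ht, map_zpow, ih, ← zpow_mul, pow_succ, mul_comm]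
  rw [hpow]
  have hpt : ¬ (p : ℤ) ∣ t := by
    rintro ⟨s, rfl⟩
    apply hx1
    rw [zpow_mul, zpow_natCast, hxp, one_zpow] at ht
    have h1 : α x = α 1 := by rw [← ht, map_one]
    exact α.injective h1
  have h1 : (p : ℤ) ∣ t ^ (p - 1) - 1 := by
    have h2 := Int.ModEq.pow_card_sub_one_eq_one hp
      ((Prime.coprime_iff_not_dvd (Nat.prime_iff_prime_int.1 hp)).2 hpt).symm
    exact h2.symm.dvd
  obtain ⟨s, hs⟩ := h1
  have h2 : t ^ (p - 1) = 1 + p * s := by linarith
  rw [h2, zpow_add, zpow_one, zpow_mul, zpow_natCast, hxp, one_zpow, mul_one]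

/-- an element `h ≠ 1` whose order is prime to `p (p - 1)` has `|[T, h]| ≥ p²` -/
theorem sq_le_range (hp : p.Prime) (hT : IsPGroup p T) {α : MulAut T} {n : ℕ} (hn : α ^ n = 1)
    (hpn : ¬ p ∣ n) (hn1 : n.Coprime (p - 1)) (hα : α ≠ 1) :
    p ^ 2 ≤ Nat.card (Ku.cm α).range := by
  have hF : Fact p.Prime := ⟨hp⟩
  obtain ⟨j, hj⟩ := IsPGroup.iff_card.1 (hT.to_subgroup (Ku.cm α).range)
  rw [hj]
  refine Nat.pow_le_pow_right hp.pos ?_
  by_contra hj2
  have hj1 : j = 0 ∨ j = 1 := by omega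
  rcases hj1 with rfl | rfl
  · apply hα
    rw [pow_zero] at hj
    have h1 : (Ku.cm α).range = ⊥ := Subgroup.eq_bot_of_card_eq _ hj
    ext u
    have h2 : Ku.cm α u ∈ (⊥ : Subgroup T) := by
      rw [← h1]
      exact ⟨u, rfl⟩
    rw [Subgroup.mem_bot, Ku.cm_apply, inv_mul_eq_one] at h2
    exact h2.symm
  · rw [pow_one] at hj
    have hinv : ∀ x ∈ (Ku.cm α).range, α x ∈ (Ku.cm α).range := by
      rintro _ ⟨u, rfl⟩
      refine ⟨α u, ?_⟩
      rw [Ku.cm_apply, Ku.cm_apply, map_mul, map_inv]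
    -- `β = α ^ (p - 1)` is trivial
    have h1 : α ^ (p - 1) = 1 := by
      ext u
      have h2 : u⁻¹ * (α ^ (p - 1)) u ∈ (Ku.cm α).range := Ku.inv_pow_mem α (p - 1) u
      have h3 : Ku.cm (α ^ (p - 1)) u ∈ (Ku.cm (α ^ (p - 1))).range := ⟨u, rfl⟩
      have h4 : Ku.cm (α ^ (p - 1)) u = 1 := by
        refine Ku.fix_cm hp hT (φ := α ^ (p - 1)) (n := n) ?_ hpn h3
          (pow_fix hp hj hinv (by rw [Ku.cm_apply]; exact h2))
        rw [← pow_mul, mul_comm, pow_mul, hn, one_pow]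
      rw [Ku.cm_apply, inv_mul_eq_one] at h4
      exact h4.symm
    apply hα
    have h2 : orderOf α ∣ n := orderOf_dvd_of_pow_eq_one hn
    have h3 : orderOf α ∣ p - 1 := orderOf_dvd_of_pow_eq_one h1
    have h4 : orderOf α ∣ 1 := by
      rw [← hn1]
      exact Nat.dvd_gcd h2 h3
    exact orderOf_eq_one_iff.1 (Nat.dvd_one.1 h4)

theorem arith {p a r : ℕ} (hp : 5 ≤ p) (ha : p ^ 2 * r ≤ a) (hr : 0 < r) :
    p ^ 2 * ((p - 2) * ((p - 2) + 3)) * r + ((p - 2) - 1) * a < p ^ 2 * a := by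
  obtain ⟨s, rfl⟩ : ∃ s, p = s + 5 := ⟨p - 5, by omega⟩
  have h1 : s + 5 - 2 = s + 3 := by omega
  rw [h1]
  have h2 : s + 3 - 1 = s + 2 := by omega
  rw [h2]
  have h3 : (s + 5) ^ 2 * ((s + 3) * (s + 3 + 3)) * r ≤ ((s + 3) * (s + 3 + 3)) * a := by
    calc (s + 5) ^ 2 * ((s + 3) * (s + 3 + 3)) * r
        = ((s + 3) * (s + 3 + 3)) * ((s + 5) ^ 2 * r) := by ring
      _ ≤ _ := Nat.mul_le_mul_left _ ha
  have ha0 : 0 < a := lt_of_lt_of_le (by positivity) ha
  calc (s + 5) ^ 2 * ((s + 3) * (s + 3 + 3)) * r + (s + 2) * a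
      ≤ ((s + 3) * (s + 3 + 3)) * a + (s + 2) * a := Nat.add_le_add_right h3 _
    _ = ((s + 3) * (s + 3 + 3) + (s + 2)) * a := by ring
    _ < (s + 5) ^ 2 * a := by
        refine Nat.mul_lt_mul_of_pos_right ?_ ha0
        nlinarith

end

end ZVx

section
variable {T : Type*} [CommGroup T] [Fintype T] {K : Type*} [Field K] [CharZero K]
  [HasEnoughRootsOfUnity K (Monoid.exponent T)]

/-- the trivial group for `p = 3` -/
theorem many_three (hT : IsPGroup 3 T) {E : Subgroup (MulAut T)} (hE : Nat.card E = 1)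
    {R : Subgroup T} (hR : 3 * Nat.card R ∣ Fintype.card T) : Many K E R := by
  have hE1 : E = ⊥ := Subgroup.eq_bot_of_card_eq _ hE
  by_cases h : Fintype.card T = 3 * Nat.card R
  · exact Or.inr ⟨hE, h⟩
  · have hp : Nat.Prime 3 := Nat.prime_three
    have hF : Fact (Nat.Prime 3) := ⟨hp⟩
    have h9 : 4 * Nat.card R < Fintype.card T := by
      obtain ⟨m, hm⟩ := hR
      have hR0 : 0 < Nat.card R := Nat.card_pos
      have hm0 : m ≠ 0 := by
        rintro rfl
        rw [mul_zero] at hm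
        exact Fintype.card_ne_zero hm
      have hm1 : m ≠ 1 := by
        rintro rfl
        rw [mul_one] at hm
        exact h hm
      rw [hm]
      have h2 : 2 ≤ m := by omega
      calc 4 * Nat.card R < 3 * Nat.card R * 2 := by omega
        _ ≤ 3 * Nat.card R * m := Nat.mul_le_mul_left _ h2
    refine many_of hp hT (by rw [hE]; decide) (R := R) (q := 1)
      (fun α hα z _ => ?_) (fun α hα hα1 => ?_) ?_
    · rw [hE1, Subgroup.mem_bot] at hα
      rw [hα]
      rfl
    · rw [hE1, Subgroup.mem_bot] at hα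
      exact absurd hα hα1
    · rw [hE]
      simpa using h9

/-- **many regular characters** -/
theorem many_pm2 {p : ℕ} (hp : p.Prime) (hp5 : 5 ≤ p) (hT : IsPGroup p T)
    {E : Subgroup (MulAut T)} (hE : Nat.card E + 2 = p) {R : Subgroup T}
    (hER : ∀ α ∈ E, ∀ z ∈ R, α z = z) : Many K E R := by
  have hcop : (Nat.card E).Coprime (p - 1) := by
    have h1 : p - 1 = Nat.card E + 1 := by omega
    rw [h1]
    exact (Nat.coprime_self_add_right).2 (Nat.coprime_one_right _)
  have hpE : ¬ p ∣ Nat.card E := fun h => by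
    have := Nat.le_of_dvd Nat.card_pos h
    omega
  have hq : ∀ α ∈ E, α ≠ 1 → p ^ 2 ≤ Nat.card (Ku.cm α).range := fun α hα hα1 =>
    ZVx.sq_le_range hp hT (pow_card_E ⟨α, hα⟩) hpE hcop hα1
  -- `|T| ≥ p² |R|`
  have hne : ∃ α ∈ E, α ≠ 1 := by
    by_contra h
    push Not at h
    have h1 : E = ⊥ := (Subgroup.eq_bot_iff_forall E).2 h
    rw [h1, Subgroup.card_bot] at hE
    omega
  obtain ⟨α, hα, hα1⟩ := hne
  have hcard : p ^ 2 * Nat.card R ≤ Fintype.card T := by
    have h1 : Nat.card (Ku.cm α).range * Nat.card R ≤ Nat.card T := by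
      rw [← Nat.card_prod]
      refine Nat.card_le_card_of_injective
        (fun x : (Ku.cm α).range × R => (x.1 : T) * x.2) ?_
      rintro ⟨⟨x, hx⟩, ⟨y, hy⟩⟩ ⟨⟨x', hx'⟩, ⟨y', hy'⟩⟩ h
      have h2 : x * y = x' * y' := h
      have h3 : x'⁻¹ * x = y' * y⁻¹ := by
        rw [inv_mul_eq_iff_eq_mul, ← mul_assoc, ← h2, mul_inv_cancel_right]
      have h4 : x'⁻¹ * x = 1 := by
        refine Ku.fix_cm hp hT (pow_card_E ⟨α, hα⟩) hpE
          ((Ku.cm α).range.mul_mem ((Ku.cm α).range.inv_mem hx') hx) ?_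
        rw [h3]
        exact hER α hα _ (R.mul_mem hy' (R.inv_mem hy))
      have h5 : x = x' := (inv_mul_eq_one.1 h4).symm
      have h6 : y = y' := by
        rw [h4] at h3
        exact (mul_inv_eq_one.1 h3.symm).symm
      exact Prod.ext (Subtype.ext h5) (Subtype.ext h6)
    rw [Nat.card_eq_fintype_card (α := T)] at h1
    exact (Nat.mul_le_mul_right _ (hq α hα hα1)).trans h1
  refine many_of hp hT hpE hER hq ?_
  have h1 : Nat.card E = p - 2 := by omega
  rw [h1]
  exact ZVx.arith hp5 hcard Nat.card_pos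

namespace ZVx

theorem many_cast {p : ℕ} (hp : p = 3) (hT : IsPGroup p T) {E : Subgroup (MulAut T)}
    (hE : Nat.card E = 1) {R : Subgroup T} (hR : p * Nat.card R ∣ Fintype.card T) :
    Many K E R := by
  subst hp
  exact many_three hT hE hR

open Classical in
/-- the Gram matrix of the multiplicities -/
theorem gram_mul2 {p : ℕ} (hp : p.Prime) (hT : IsPGroup p T) {E : Subgroup (MulAut T)}
    [Fintype E] (hE : ¬ p ∣ Nat.card E) {I : Type*} [Fintype I] {ψ : I → T → K}
    (hG : ∀ u v, GramR E ⊥ ψ u v) (a c : T →* Kˣ) :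
    ∑ i, mlt (ψ i) a * mlt (ψ i) c
      = ((univ.filter fun α : E => dl c (α : MulAut T) = a).card : K) := by
  have hF0 : ∀ α ∈ E, ∀ z ∈ (⊥ : Subgroup T), α z = z := fun α _ z hz => by
    rw [Subgroup.mem_bot.1 hz, map_one]
  have hF : Fact (∀ α ∈ E, ∀ z ∈ (⊥ : Subgroup T), α z = z) := ⟨hF0⟩
  have h1 := gram_mlt (R := (⊥ : Subgroup T)) (E := E) (ψ := ψ) (fun u => chr a u⁻¹)
    (fun v => chr c v) (fun z hz v => by rw [Subgroup.mem_bot.1 hz, one_mul])
    (fun u v => Or.inr (Or.inr ((ZBx.gram_iff hp hT hE hF0 ψ u v).1 (hG u v))))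
  have h2 : ∀ i, mlt (ψ i) a * mlt (ψ i) c = ((Fintype.card T : K)⁻¹ * ∑ u, ψ i u * chr a u⁻¹) *
      ((Fintype.card T : K)⁻¹ * ∑ v, ψ i v⁻¹ * chr c v) := by
    intro i
    rw [mlt_eq' (ψ i) c]
    rfl
  rw [sum_congr rfl fun i _ => h2 i, h1]
  have h3 : ∀ α : E, (Fintype.card T : K)⁻¹ * ∑ u, chr a u⁻¹ * chr c ((α : MulAut T) u)
      = if dl c (α : MulAut T) = a then 1 else 0 := fun α => orth_LR a (dl c (α : MulAut T))
  rw [sum_congr rfl fun α _ => h3 α, sum_boole]

end ZVx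

open YZx

/-- the rows which are invariant under a generator of the units -/
theorem rat_rows2 {p : ℕ} (hp : p.Prime) (hT : IsPGroup p T) {E : Subgroup (MulAut T)}
    (hE : Nat.card E + 2 ≤ p) {I : Type*} [Fintype I] {ψ : I → T → K}
    (hv : ∀ i, ψ i ∈ vir T K) (hG : ∀ u v, GramR E ⊥ ψ u v) {m t : ℕ}
    (hTm : ∀ u : T, u ^ p ^ m = 1) (htp : t.Coprime p)
    (ht : ∀ n : ℕ, 0 < n → p ∣ t ^ n - 1 → p - 1 ≤ n) (S : Finset I)
    (hS : ∀ i ∈ S, ∀ u, ψ i (u ^ t) = ψ i u) (hne : ∀ i ∈ S, ∃ u, ψ i u ≠ 0) :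
    S.card ≤ Nat.card E := by
  classical
  have : Fintype E := Fintype.ofFinite _
  have hcE : Nat.card E = Fintype.card E := Nat.card_eq_fintype_card
  have hpE : ¬ p ∣ Nat.card E := fun h => by
    have := Nat.le_of_dvd Nat.card_pos h
    omega
  obtain ⟨M, hM⟩ := int_mlt hv
  have hgram : ∀ a c : T →* Kˣ, ∑ i, M i a * M i c
      = ((univ.filter fun α : E => dl c (α : MulAut T) = a).card : ℤ) := by
    intro a c
    have h1 := ZVx.gram_mul2 hp hT hpE hG a c
    simp only [hM] at h1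
    exact_mod_cast h1
  have hcop : (Nat.card T).Coprime t := by
    have hF : Fact p.Prime := ⟨hp⟩
    obtain ⟨n, hn⟩ := IsPGroup.iff_card.1 hT
    rw [hn]
    exact Nat.Coprime.pow_left n htp.symm
  -- the multiplicities of the invariant rows
  have hzero : ∀ i ∈ S, ∀ l : T →* Kˣ, l ≠ 1 → M i l = 0 := by
    intro i hi l hl
    set d := p - 1 with hd
    have h1 : ∑ i', (∑ j ∈ range d, M i' (pw l (t ^ j))) ^ 2 ≤ (d : ℤ) * Fintype.card E := by
      have h2 : ∀ i', (∑ j ∈ range d, M i' (pw l (t ^ j))) ^ 2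
          = ∑ j' ∈ range d, ∑ j ∈ range d, M i' (pw l (t ^ j)) * M i' (pw l (t ^ j')) := by
        intro i'
        rw [sq, sum_mul_sum, sum_comm]
      rw [sum_congr rfl fun i' _ => h2 i', sum_comm]
      have h3 : ∀ j' ∈ range d, ∑ i', ∑ j ∈ range d, M i' (pw l (t ^ j)) * M i' (pw l (t ^ j'))
          ≤ (Fintype.card E : ℤ) := by
        intro j' _
        rw [sum_comm]
        have h4 : ∀ j ∈ range d, ∑ i', M i' (pw l (t ^ j)) * M i' (pw l (t ^ j'))
            = ∑ α : E, if dl (pw l (t ^ j')) (α : MulAut T) = pw l (t ^ j) then (1 : ℤ) else 0 := by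
          intro j _
          rw [hgram, sum_boole]
        rw [sum_congr rfl h4, sum_comm]
        have h5 : ∀ α : E, ∑ j ∈ range d,
            (if dl (pw l (t ^ j')) (α : MulAut T) = pw l (t ^ j) then (1 : ℤ) else 0) ≤ 1 := by
          intro α
          rw [sum_boole]
          have h6 : ((range d).filter fun j =>
              dl (pw l (t ^ j')) (α : MulAut T) = pw l (t ^ j)).card ≤ 1 := by
            rw [card_le_one]
            intro x hx y hy
            rw [mem_filter, mem_range] at hx hy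
            exact pow_inj hp hTm htp ht hl hx.1 hy.1 (hx.2.symm.trans hy.2)
          exact_mod_cast h6
        calc _ ≤ ∑ _α : E, (1 : ℤ) := sum_le_sum fun α _ => h5 α
          _ = (Fintype.card E : ℤ) := by
            rw [sum_const, card_univ, nsmul_eq_mul, mul_one]
      calc _ ≤ ∑ _j' ∈ range d, (Fintype.card E : ℤ) := sum_le_sum h3
        _ = (d : ℤ) * Fintype.card E := by rw [sum_const, Finset.card_range, nsmul_eq_mul]
    have h2 : ∑ j ∈ range d, M i (pw l (t ^ j)) = (d : ℤ) * M i l := by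
      have h3 : ∀ j ∈ range d, M i (pw l (t ^ j)) = M i l := by
        intro j _
        have h4 := mlt_pow_pow hcop (hS i hi) l j
        rw [hM, hM] at h4
        exact_mod_cast h4
      rw [sum_congr rfl h3, sum_const, Finset.card_range, nsmul_eq_mul]
    have h3 : ((d : ℤ) * M i l) ^ 2 ≤ (d : ℤ) * Fintype.card E := by
      rw [← h2]
      exact (single_le_sum (f := fun i' => (∑ j ∈ range d, M i' (pw l (t ^ j))) ^ 2)
        (fun i' _ => sq_nonneg _) (mem_univ i)).trans h1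
    by_contra h4
    have h5 : 1 ≤ (M i l) ^ 2 := by
      have := sq_pos_of_ne_zero h4
      omega
    have h6 : Fintype.card E + 1 ≤ d := by omega
    have h7 : ((Fintype.card E : ℕ) : ℤ) + 1 ≤ d := by exact_mod_cast h6
    have h8 : (0 : ℤ) ≤ Fintype.card E := by positivity
    have h9 : (d : ℤ) * ((d : ℤ) * (M i l) ^ 2) ≤ (d : ℤ) * Fintype.card E := by
      calc (d : ℤ) * ((d : ℤ) * (M i l) ^ 2) = ((d : ℤ) * M i l) ^ 2 := by ring
        _ ≤ _ := h3
    have h10 : (d : ℤ) * (M i l) ^ 2 ≤ Fintype.card E := le_of_mul_le_mul_left h9 (by linarith)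
    nlinarith
  have hconst : ∀ i ∈ S, ∀ u, ψ i u = (M i 1 : K) := by
    intro i hi u
    rw [eq_sum_mlt (ψ i) u, sum_eq_single (1 : T →* Kˣ)]
    · rw [hM, chr_one, Pi.one_apply, mul_one]
    · intro l _ hl
      rw [hM, hzero i hi l hl, Int.cast_zero, zero_mul]
    · intro h
      exact absurd (mem_univ _) h
  have h1 : (S.card : ℤ) ≤ ∑ i, M i 1 * M i 1 := by
    calc (S.card : ℤ) = ∑ _i ∈ S, (1 : ℤ) := by rw [sum_const, nsmul_eq_mul, mul_one]
      _ ≤ ∑ i ∈ S, M i 1 * M i 1 := by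
          refine sum_le_sum fun i hi => ?_
          obtain ⟨u, hu⟩ := hne i hi
          rw [hconst i hi u] at hu
          have h2 : M i 1 ≠ 0 := fun h => hu (by rw [h, Int.cast_zero])
          have := mul_self_pos.2 h2
          omega
      _ ≤ ∑ i, M i 1 * M i 1 :=
          sum_le_sum_of_subset_of_nonneg (subset_univ S) fun i _ _ => mul_self_nonneg _
  rw [hgram] at h1
  have h2 : (univ.filter fun α : E => dl (1 : T →* Kˣ) (α : MulAut T) = 1).card
      ≤ Fintype.card E := (card_filter_le _ _).trans (by rw [card_univ])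
  rw [hcE]
  have h3 : S.card ≤ (univ.filter fun α : E => dl (1 : T →* Kˣ) (α : MulAut T) = 1).card := by
    exact_mod_cast h1
  exact h3.trans h2

end

end Pool.Agent.Lib.P0c8ca5.Ex
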