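import Mathlib
import Pool.Agent.Lib.P0c8ca5Ex.ZVa
import Pool.Agent.Lib.P0c8ca5Ex.ZJ
import Pool.Agent.Lib.P0c8ca5Ex.YZb

/-!
# ZV: the number of simple modules is at most `|E|` if `|E| ≤ p - 2`

`step2`: the step (YX) for `|E| ≤ p - 3`, the step `stepq` (ZJ) with `q = p` for `|E| = p - 2` (`many_pm2`). The rest as YX and YZb.
-/

set_option linter.unusedSectionVars false

namespace Pool.Agent.Lib.P0c8ca5.Ex

open MonoidAlgebra

section
variable {p : ℕ} [Fact p.Prime] {k : Type*} [Field k] [IsAlgClosed k] [CharP k p]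
  {A : Type*} [Group A] [Finite A] {T : Type*} [CommGroup T] [Fintype T]
  {φ : T →* A} {b f i : MonoidAlgebra k A} {D : Subgroup A} {R Q : Subgroup T}
  {G : Subgroup T → A → KW p k}

theorem step2 (hp2 : p ≠ 2) (h : Stp φ b D f i R G) (hE : eN D f + 2 ≤ p) (hRT : R ≠ ⊤) :
    ∃! g : A → KW p k, GOK φ D f i (upd G R g) R := by
  by_cases hE3 : eN D f + 3 ≤ p
  · exact step hp2 h hE3 hRT
  have hp : p.Prime := Fact.out
  have hEp : eN D f + 2 = p := by omega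
  have h3 : 3 ≤ p := by
    have := hp.two_le
    omega
  have hcard : Nat.card (EG φ D f) = eN D f := card_EG h.inj h.ran
  have hE0 : 0 < eN D f := by omega
  have hpE : ¬ p ∣ eN D f := fun h1 => by
    have := Nat.le_of_dvd hE0 h1
    omega
  have hT : IsPGroup p T := YPaAux.isPGroup_T h
  have hdvd : p * Nat.card R ∣ Fintype.card T := by
    have hF : Fact p.Prime := ⟨hp⟩
    obtain ⟨a, ha⟩ := IsPGroup.iff_card.1 (hT.to_subgroup R)
    obtain ⟨c, hc⟩ := IsPGroup.iff_card.1 hT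
    rw [← Nat.card_eq_fintype_card, hc, ha, mul_comm, ← pow_succ]
    refine pow_dvd_pow p ?_
    have h1 : Nat.card R < Nat.card T := by
      rcases Nat.lt_or_ge (Nat.card R) (Nat.card T) with h1 | h1
      · exact h1
      · exact absurd (Subgroup.eq_top_of_le_card R h1) hRT
    rw [ha, hc] at h1
    exact (Nat.pow_lt_pow_iff_right hp.one_lt).1 h1
  have hM : Many (KW p k) (EG φ D f) R := by
    by_cases hp5 : 5 ≤ p
    · exact many_pm2 hp hp5 hT (by rw [hcard]; exact hEp) fun α hα z hz => YFAux.al_fix h hα hz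
    · have hp3 : p = 3 := by
        have h4 : p ≠ 4 := fun h4 => by
          rw [h4] at hp
          revert hp
          decide
        omega
      refine ZVx.many_cast hp3 hT ?_ hdvd
      rw [hcard]
      omega
  obtain ⟨g, hg, hu⟩ := stepq (q := p) hp2 dvd_rfl h (fun Q hQ => (h.ok Q hQ).cq) hpE hRT
    (by
      obtain ⟨s, hs⟩ : ∃ s, p = s + 2 := ⟨p - 2, by omega⟩
      have h1 : eN D f = s := by omega
      have h2 : p - 1 = s + 1 := by omega
      rw [h1, h2, hs]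
      nlinarith) (Or.inr hdvd)
    (fun B hB => exists_rowsX hp2 h hpE (Or.inl hM) hB)
    (fun Γ Γ' hΓ hΓ' => gr_uniqueX h hpE (Or.inl hM) hΓ hΓ')
  exact ⟨g, hg.1, fun g' hg' => hu g' ⟨hg', hg'.cq⟩⟩

theorem unique_at2 (hp2 : p ≠ 2) (h : Src p b D f i) (hφ : Function.Injective φ)
    (hr : ∀ x, x ∈ D ↔ ∃ t, φ t = x) (hE : eN D f + 2 ≤ p) (hQ : Q ≠ ⊤)
    (hG : ∀ Q', Q < Q' → GOK φ D f i G Q') (he : EqG φ D f G fun Q' => Q < Q') :
    ∃! g : A → KW p k, GOK φ D f i (upd G Q g) Q := by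
  classical
  obtain ⟨c, φ', i', -, -, hS, heN, hiff⟩ := stp_down h hφ hr hG he
  obtain ⟨g, hg, hu⟩ := step2 hp2 hS (by omega) hQ
  set g₁ : A → KW p k := fun x => if hx : x ∈ cq φ Q then g ⟨x, hx⟩ else 0 with hg₁
  have h0 : ∀ x, x ∉ cq φ Q → g₁ x = 0 := fun x hx => dif_neg hx
  have h1 : (fun y : ↥(cq φ Q) => g₁ (y : A)) = g := by
    funext y
    exact dif_pos y.2
  refine ⟨g₁, (hiff g₁ h0).2 (by rw [h1]; exact hg), fun g₂ hg₂ => ?_⟩
  have h2 : ∀ x, x ∉ cq φ Q → g₂ x = 0 := fun x hx => by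
    have h3 := hg₂.sup x hx
    rwa [upd_self] at h3
  have h3 := hu _ ((hiff g₂ h2).1 hg₂)
  funext x
  by_cases hx : x ∈ cq φ Q
  · have h4 := congrFun (h3.trans h1.symm) ⟨x, hx⟩
    exact h4
  · rw [h0 x hx, h2 x hx]

theorem ind_gok2 (hp2 : p ≠ 2) (h : Src p b D f i) (hφ : Function.Injective φ)
    (hr : ∀ x, x ∈ D ↔ ∃ t, φ t = x) (hE : eN D f + 2 ≤ p) :
    Ind φ D f (GOK φ D f i) fun _ => True where
  up _ _ _ _ := trivial
  inv _ _ := Iff.rfl
  congr _ _ _ hG hQ := gok_congr hG hQ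
  conj _ hs _ hα _ _ hQ := gok_conj h hφ hr hs hα hQ
  base := base hp2 h hφ hr
  step _ _ hQ _ hG he := unique_at2 hp2 h hφ hr hE hQ hG he

theorem exists_gfam2 (hp2 : p ≠ 2) (h : Src p b D f i) (hφ : Function.Injective φ)
    (hr : ∀ x, x ∈ D ↔ ∃ t, φ t = x) (hE : eN D f + 2 ≤ p) :
    ∃ G : Subgroup T → A → KW p k, (∀ Q, GOK φ D f i G Q) ∧ EqG φ D f G fun _ => True := by
  obtain ⟨G, hG, he⟩ := (ind_gok2 hp2 h hφ hr hE).exists_fam
  exact ⟨G, fun Q => hG Q trivial, he⟩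

end

section
variable {p : ℕ} [Fact p.Prime] {k : Type*} [Field k] [IsAlgClosed k] [CharP k p]
  {A : Type*} [Group A] [Fintype A] {b f i : MonoidAlgebra k A} {D : Subgroup A}

theorem l_le_src2 (hp2 : p ≠ 2) (h : Src p b D f i) (hE : eN D f + 2 ≤ p) {T : Type*}
    [CommGroup T] [Fintype T] [Nontrivial T] {φ : T →* A} (hφ : Function.Injective φ)
    (hr : ∀ x, x ∈ D ↔ ∃ t, φ t = x) :
    Nat.card (Quotient (irrInvSetoid (⊤ : Subgroup A) ⊤ b)) ≤ eN D f := by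
  classical
  have hp : p.Prime := Fact.out
  have hb := h.root.blk
  obtain ⟨B, hB⟩ := exists_cenL (p := p) hb.idem
    (fun g => invBy_iff_cj.1 hb.invBy g (Subgroup.mem_top g))
  have hcard : Nat.card (EG φ D f) = eN D f := card_EG hφ hr
  have := finite_EG (φ := φ) (D := D) (f := f)
  have hE0 : 0 < eN D f := hcard ▸ Nat.card_pos
  have hpE : ¬ p ∣ eN D f := fun h1 => by
    have := Nat.le_of_dvd hE0 h1
    omega
  obtain ⟨G, hG, he⟩ := exists_gfam2 hp2 h hφ hr hE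
  have hS : Stp φ b D f i ⊥ G :=
    { src := h
      inj := hφ
      ran := hr
      cen := fun z hz a => by rw [Subgroup.mem_bot.1 hz, map_one, one_mul, mul_one]
      ok := fun Q _ => hG Q
      eqv := fun s hs α hα Q _ y => he s hs α hα Q trivial y }
  have hupd : upd G ⊥ (G ⊥) = G := by
    funext Q
    by_cases hQ : Q = ⊥
    · rw [hQ, upd_self]
    · rw [upd_ne _ _ hQ]
  have hGR : GR φ b D f ⊥ G (G ⊥) := (gr_iff hS _).1 (by rw [hupd]; exact hG ⊥)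
  have hrows := gram_full hS (by rw [hcard]; exact hpE) hB hGR
  rw [hupd] at hrows
  obtain ⟨t, ht1, ht2, ht3⟩ := exists_gen hp hp2 (Nat.card A)
  obtain ⟨s, hs⟩ := exists_galB (p := p) (k := k) B ht1
  have h1 := fix_ge hb hB s ht1 hs
    (fun v g M c hv hv1 hc hbc hg => no_gal h (by omega) ht3 hv hv1 hc hbc hg)
  refine h1.trans ?_
  obtain ⟨M, hM⟩ := pow_one_of h
  have hTm : ∀ u : T, u ^ p ^ Nat.card A = 1 := by
    intro u
    apply hφ
    rw [map_pow, map_one]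
    exact pel_card (hM (φ u) ((hr _).2 ⟨u, rfl⟩))
  have hTp : IsPGroup p T := fun u => ⟨Nat.card A, hTm u⟩
  set S : Finset (IR φ ⊥ B) :=
    Finset.univ.filter fun χ => s ⟨χ.1, χ.2.2⟩ = ⟨χ.1, χ.2.2⟩ with hSd
  have hK : ∀ χ : Ir (KW p k) A, Ker φ ⊥ χ := fun χ z hz x => by
    rw [Subgroup.mem_bot.1 hz, map_one, one_mul]
  have hSc : Nat.card {χ : IrB B // s χ = χ} = S.card := by
    rw [hSd, ← Fintype.card_subtype, ← Nat.card_eq_fintype_card]
    exact Nat.card_congr ⟨fun χ => ⟨⟨χ.1.1, hK _, χ.1.2⟩, χ.2⟩, fun χ => ⟨⟨χ.1.1, χ.1.2.2⟩, χ.2⟩,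
      fun _ => rfl, fun _ => rfl⟩
  rw [hSc, ← hcard]
  obtain ⟨u₀, hu₀, hst⟩ := exists_reg (E := EG φ D f) hp hTp (by omega) Fintype.one_lt_card
  refine rat_rows2 hp hTp (by omega) (fun χ => hrows.vir χ) (fun u v => hrows.gram u v) hTm ht1
    ht3 S (fun χ hχ u => ?_) fun χ _ => ⟨u₀, ?_⟩
  · have hχ' : s ⟨χ.1, χ.2.2⟩ = ⟨χ.1, χ.2.2⟩ := (Finset.mem_filter.1 hχ).2
    have h2 := gal_row (t := t) (χ := χ.1) (χ' := χ.1) (u := u) (hG _) (hM _ ((hr _).2 ⟨u, rfl⟩))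
      (zpowers_pow ht1 (hTm u)) (fun F hF hF' => by
        have h3 := hs ⟨χ.1, χ.2.2⟩ (φ u) M (hM _ ((hr _).2 ⟨u, rfl⟩)) F hF hF'
        rwa [hχ'] at h3)
    exact h2.symm
  · exact rwv_ne hp2 hS hpE hB χ.2.2 (fun h2 => hu₀ (Subgroup.mem_bot.1 h2))
      ((st_EG hφ hr u₀).1 hst)

/-- **the number of simple modules is at most `|E|`** -/
theorem l_le_any2 (hp2 : p ≠ 2) (h : Root p b D f) (hE : eN D f + 2 ≤ p) :
    Nat.card (Quotient (irrInvSetoid (⊤ : Subgroup A) ⊤ b)) ≤ eN D f := by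
  by_cases hD : D = ⊥
  · refine l_le hp2 h fun g _ u hu hu1 _ => ?_
    rw [hD, Subgroup.mem_bot] at hu
    exact absurd hu hu1
  · obtain ⟨i, hi⟩ := exists_src h
    let _ : CommGroup ↥D := cgrp D h.com
    let _ : Fintype ↥D := Fintype.ofFinite _
    obtain ⟨x, hx, hx1⟩ := (Subgroup.bot_or_exists_ne_one D).resolve_left hD
    have : Nontrivial ↥D := ⟨⟨⟨x, hx⟩, 1, fun h1 => hx1 (congrArg Subtype.val h1)⟩⟩
    have hφ : Function.Injective (D.subtype : ↥D →* A) := Subtype.val_injective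
    have hr : ∀ x, x ∈ D ↔ ∃ t, (D.subtype : ↥D →* A) t = x :=
      fun x => ⟨fun hx => ⟨⟨x, hx⟩, rfl⟩, by rintro ⟨t, rfl⟩; exact t.2⟩
    exact l_le_src2 hp2 hi hE hφ hr

end

end Pool.Agent.Lib.P0c8ca5.Ex
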