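import Mathlib
import Pool.Agent.Lib.P0c8ca5Ex.XE

/-!
# WTa: three vectors with pairwise squared distance `2`; the variance of an integral function
-/

set_option linter.unusedSectionVars false

namespace Pool.Agent.Lib.P0c8ca5.Ex

open Finset

/-! ### three vectors -/

/-- three integral vectors with pairwise squared distance 2 -/
theorem star3v {I : Type*} [Fintype I] [DecidableEq I] (M : Fin 3 → I → ℤ)
    (hM : ∀ a b, a ≠ b → ∑ i, (M a i - M b i) ^ 2 = 2) :
    ∃ (C : I → ℤ) (ι : Fin 3 → I) (ε : Fin 3 → ℤ), Function.Injective ι ∧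
      (∀ a, ε a = 1 ∨ ε a = -1) ∧ ∀ a i, M a i = C i + if i = ι a then ε a else 0 := by
  classical
  set v : Fin 3 → I → ℤ := fun b i => M b i - M 0 i with hv
  have hv2 : ∀ b, b ≠ 0 → ∑ i, v b i ^ 2 = 2 := fun b hb => hM b 0 hb
  have hv1 : ∀ b c, b ≠ 0 → c ≠ 0 → b ≠ c → ∑ i, v b i * v c i = 1 := by
    intro b c hb hc hbc
    have h1 := hM b c hbc
    have h2 : ∑ i, (M b i - M c i) ^ 2
        = ∑ i, v b i ^ 2 + ∑ i, v c i ^ 2 - 2 * ∑ i, v b i * v c i := by
      rw [mul_sum, ← sum_add_distrib, ← sum_sub_distrib]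
      exact sum_congr rfl fun i _ => by simp only [hv]; ring
    rw [h2, hv2 b hb, hv2 c hc] at h1
    linarith
  set S : Fin 3 → Finset I := fun b => univ.filter fun i => v b i ≠ 0 with hS
  have hS2 : ∀ b, b ≠ 0 → (S b).card = 2 := fun b hb => (sq_two (v b) (hv2 b hb)).2
  have hSI : ∀ b c, b ≠ 0 → c ≠ 0 → b ≠ c → (S b ∩ S c).card = 1 := fun b c hb hc hbc =>
    (inner_one (hv2 b hb) (hv2 c hc) (hv1 b c hb hc hbc)).1
  have hmem : ∀ b i, i ∈ S b ↔ v b i ≠ 0 := fun b i => by simp [hS]
  obtain ⟨x, hx⟩ := card_eq_one.1 (hSI 1 2 (by decide) (by decide) (by decide))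
  have hx12 : x ∈ S 1 ∩ S 2 := by rw [hx]; exact mem_singleton_self x
  have hxS : ∀ b, b ≠ 0 → x ∈ S b := by
    intro b hb
    fin_cases b
    · exact absurd rfl hb
    · exact (mem_inter.1 hx12).1
    · exact (mem_inter.1 hx12).2
  set σ : ℤ := v 1 x with hσ
  have hσ1 : σ = 1 ∨ σ = -1 := by
    have h1 := (hmem 1 x).1 (hxS 1 (by decide))
    rcases (sq_two (v 1) (hv2 1 (by decide))).1 x with h | h | h
    · exact absurd h h1
    · exact Or.inl h
    · exact Or.inr h
  have hvx : ∀ b, b ≠ 0 → v b x = σ := by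
    intro b hb
    by_cases h1 : b = 1
    · rw [h1]
    · exact (inner_one (hv2 b hb) (hv2 1 (by decide)) (hv1 b 1 hb (by decide) h1)).2 x
        ((hmem b x).1 (hxS b hb)) ((hmem 1 x).1 (hxS 1 (by decide)))
  have hy : ∀ b, b ≠ 0 → ∃ y, y ≠ x ∧ (v b y = 1 ∨ v b y = -1) ∧ y ∈ S b ∧
      ∀ i, v b i = (if i = x then σ else 0) + (if i = y then v b y else 0) := by
    intro b hb
    have h1 : ((S b).erase x).card = 1 := by
      rw [card_erase_of_mem (hxS b hb), hS2 b hb]
    obtain ⟨y, hy⟩ := card_eq_one.1 h1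
    have hy1 : y ∈ (S b).erase x := by rw [hy]; exact mem_singleton_self y
    obtain ⟨hyx, hyS⟩ := mem_erase.1 hy1
    refine ⟨y, hyx, ?_, hyS, ?_⟩
    · rcases (sq_two (v b) (hv2 b hb)).1 y with h | h | h
      · exact absurd h ((hmem b y).1 hyS)
      · exact Or.inl h
      · exact Or.inr h
    · intro i
      by_cases hix : i = x
      · subst hix
        rw [if_pos rfl, if_neg (fun h => hyx h.symm), add_zero]
        exact hvx b hb
      · by_cases hiy : i = y
        · subst hiy
          rw [if_neg hix, if_pos rfl, zero_add]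
        · rw [if_neg hix, if_neg hiy, add_zero]
          by_contra h2
          have h3 : i ∈ (S b).erase x := mem_erase.2 ⟨hix, (hmem b i).2 h2⟩
          rw [hy, mem_singleton] at h3
          exact hiy h3
  have : Nonempty I := ⟨x⟩
  choose! y hyx hy1 hyS hyv using hy
  refine ⟨fun i => M 0 i - if i = x then -σ else 0, fun b => if b = 0 then x else y b,
    fun b => if b = 0 then -σ else v b (y b), ?_, ?_, ?_⟩
  · intro b c hbc
    by_cases hb : b = 0
    · by_cases hc : c = 0
      · rw [hb, hc]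
      · simp only [hb, if_true, hc, if_false] at hbc
        exact absurd hbc.symm (hyx c hc)
    · by_cases hc : c = 0
      · simp only [hb, if_false, hc, if_true] at hbc
        exact absurd hbc (hyx b hb)
      · simp only [hb, if_false, hc] at hbc
        by_contra hne
        obtain ⟨w, hw⟩ := card_eq_one.1 (hSI b c hb hc hne)
        have h1 : x ∈ S b ∩ S c := mem_inter.2 ⟨hxS b hb, hxS c hc⟩
        have h2 : y b ∈ S b ∩ S c := mem_inter.2 ⟨hyS b hb, by rw [hbc]; exact hyS c hc⟩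
        rw [hw, mem_singleton] at h1 h2
        exact hyx b hb (h2.trans h1.symm)
  · intro b
    by_cases hb : b = 0
    · simp only [hb, if_true]
      rcases hσ1 with h | h
      · right
        rw [h]
      · left
        rw [h]
        norm_num
    · simp only [hb, if_false]
      exact hy1 b hb
  · intro b i
    by_cases hb : b = 0
    · simp only [hb, if_true]
      ring
    · simp only [hb, if_false]
      have h1 : M b i = M 0 i + v b i := by
        simp only [hv]
        ring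
      rw [h1, hyv b hb i]
      split_ifs <;> ring

/-! ### the variance of an integral function -/

section
variable {Λ : Type*} [Fintype Λ]

theorem pair_sum_sq (f : Λ → ℤ) : ∑ a, ∑ b, (f a - f b) ^ 2
    = 2 * ((Fintype.card Λ : ℤ) * ∑ a, f a ^ 2 - (∑ a, f a) ^ 2) := by
  have h1 : ∀ a, ∑ b, (f a - f b) ^ 2
      = (Fintype.card Λ : ℤ) * f a ^ 2 - 2 * (f a * ∑ b, f b) + ∑ b, f b ^ 2 := by
    intro a
    have h2 : ∀ b, (f a - f b) ^ 2 = f a ^ 2 - 2 * (f a * f b) + f b ^ 2 := fun b => by ring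
    rw [sum_congr rfl fun b _ => h2 b, sum_add_distrib, sum_sub_distrib, sum_const, card_univ,
      nsmul_eq_mul, ← mul_sum, ← mul_sum]
  rw [sum_congr rfl fun a _ => h1 a, sum_add_distrib, sum_sub_distrib, sum_const, card_univ,
    nsmul_eq_mul, ← mul_sum, ← mul_sum, ← sum_mul]
  ring

/-- the variance is at least that of the two classes `f ≤ 0`, `f ≥ 1` -/
theorem var_ge (f : Λ → ℤ) {k n : ℤ} (hn : (Fintype.card Λ : ℤ) = n)
    (h1 : k ≤ ((univ.filter fun a => 1 ≤ f a).card : ℤ))
    (h0 : k ≤ ((univ.filter fun a => ¬ 1 ≤ f a).card : ℤ)) :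
    k * (n - k) ≤ n * ∑ a, f a ^ 2 - (∑ a, f a) ^ 2 := by
  classical
  set g : Λ → ℤ := fun a => if 1 ≤ f a then 1 else 0 with hg
  have h2 : ∀ a b, (g a - g b) ^ 2 ≤ (f a - f b) ^ 2 := by
    intro a b
    simp only [hg]
    split_ifs with h3 h4 h4
    · nlinarith [sq_nonneg (f a - f b)]
    · nlinarith
    · nlinarith
    · nlinarith [sq_nonneg (f a - f b)]
  have h3 : ∑ a, ∑ b, (g a - g b) ^ 2 ≤ ∑ a, ∑ b, (f a - f b) ^ 2 :=
    sum_le_sum fun a _ => sum_le_sum fun b _ => h2 a b
  rw [pair_sum_sq, pair_sum_sq, hn] at h3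
  have h4 : ∑ a, g a ^ 2 = ((univ.filter fun a => 1 ≤ f a).card : ℤ) := by
    rw [← sum_boole]
    refine sum_congr rfl fun a _ => ?_
    simp only [hg]
    split_ifs <;> norm_num
  have h5 : ∑ a, g a = ((univ.filter fun a => 1 ≤ f a).card : ℤ) := by
    rw [← sum_boole]
  rw [h4, h5] at h3
  have h6 : ((univ.filter fun a => 1 ≤ f a).card : ℤ)
      + ((univ.filter fun a => ¬ 1 ≤ f a).card : ℤ) = n := by
    rw [← hn, ← card_univ]
    exact_mod_cast card_filter_add_card_filter_not (s := (univ : Finset Λ)) (fun a => 1 ≤ f a)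
  set A : ℤ := ((univ.filter fun a => 1 ≤ f a).card : ℤ)
  set B : ℤ := ((univ.filter fun a => ¬ 1 ≤ f a).card : ℤ)
  have h7 : 0 ≤ (A - k) * (B - k) := mul_nonneg (by linarith) (by linarith)
  nlinarith

end

end Pool.Agent.Lib.P0c8ca5.Ex
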