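import Mathlib
import Pool.Agent.Lib.P0c8ca5Ex.WTa

/-!
# WTb: the extension lemma with three regular orbits, pure part

* `row_core`: the identity behind the row norm; `row_strict`: the row norm is strict at `k` if the differences of the
  `M a` satisfy a linear relation with a nonzero coefficient at `k`.
* `ext_three3`: three regular orbits, `(|E| + 1)² ≤ |Λ|`, and `(|E| + 1)² < |Λ|` or strict row norms.
-/

set_option linter.unusedSectionVars false

namespace Pool.Agent.Lib.P0c8ca5.Ex

open Finset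

section
variable {Λ : Type*} [Fintype Λ] [DecidableEq Λ] {E : Type*} [Group E] [Fintype E]
  [MulAction E Λ] {I : Type*} [Fintype I]

/-- the identity behind the row norm -/
theorem row_core (M : Λ → I → ℤ)
    (hG : ∀ a b c d, ∑ i, (M a i - M b i) * (M c i - M d i)
      = nn E a c - nn E a d - nn E b c + nn E b d) (b0 : Λ) (k : I) :
    ∃ D : Λ → ℤ,
      ∑ a, D a * (M a k - M b0 k) = (Fintype.card Λ : ℤ) * ∑ a, M a k ^ 2 - (∑ a, M a k) ^ 2 ∧
      ∑ j, (∑ a, D a * (M a j - M b0 j)) ^ 2 = (Fintype.card E : ℤ) * ((Fintype.card Λ : ℤ)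
        * ((Fintype.card Λ : ℤ) * ∑ a, M a k ^ 2 - (∑ a, M a k) ^ 2)) := by
  have hinv := inv_of_gram M hG
  set L : ℤ := (Fintype.card Λ : ℤ) with hL
  set e : ℤ := (Fintype.card E : ℤ) with he
  set S : ℤ := ∑ a, M a k with hS
  set D : Λ → ℤ := fun a => L * M a k - S with hD
  have hD0 : ∑ a, D a = 0 := by
    simp only [hD]
    rw [sum_sub_distrib, ← mul_sum, sum_const, card_univ, nsmul_eq_mul]
    ring
  have hB' : ∀ j, ∑ a, D a * (M a j - M b0 j) = ∑ a, D a * M a j := by
    intro j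
    simp only [mul_sub]
    rw [sum_sub_distrib, ← sum_mul, hD0, zero_mul, sub_zero]
  have hBk : ∑ a, D a * (M a k - M b0 k) = L * ∑ a, M a k ^ 2 - S ^ 2 := by
    rw [hB']
    simp only [hD, sub_mul]
    rw [sum_sub_distrib, ← mul_sum, ← hS, sq S]
    congr 1
    rw [mul_sum]
    exact sum_congr rfl fun a _ => by ring
  have hDD : ∑ c, D c ^ 2 = L * (L * ∑ a, M a k ^ 2 - S ^ 2) := by
    have h1 : ∀ c, D c ^ 2 = L ^ 2 * M c k ^ 2 - 2 * L * S * M c k + S ^ 2 := fun c => by
      simp only [hD]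
      ring
    simp_rw [h1]
    rw [sum_add_distrib, sum_sub_distrib, ← mul_sum, ← mul_sum, sum_const, card_univ,
      nsmul_eq_mul]
    ring
  refine ⟨D, hBk, ?_⟩
  have h1 : ∀ j, (∑ a, D a * (M a j - M b0 j)) ^ 2
      = ∑ a, ∑ c, D a * D c * ((M a j - M b0 j) * (M c j - M b0 j)) := by
    intro j
    rw [sq, sum_mul_sum]
    exact sum_congr rfl fun a _ => sum_congr rfl fun c _ => by ring
  simp_rw [h1]
  have h2 : ∑ j, ∑ a, ∑ c, D a * D c * ((M a j - M b0 j) * (M c j - M b0 j))
      = ∑ a, ∑ c, D a * D c * (nn E a c - nn E a b0 - nn E b0 c + nn E b0 b0) := by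
    rw [sum_comm]
    refine sum_congr rfl fun a _ => ?_
    rw [sum_comm]
    refine sum_congr rfl fun c _ => ?_
    rw [← mul_sum, hG]
  rw [h2]
  have h3 : ∀ a, ∑ c, D a * D c * (nn E a c - nn E a b0 - nn E b0 c + nn E b0 b0)
      = D a * (∑ c, D c * nn E c a) - D a * ∑ c, D c * nn E b0 c := by
    intro a
    have h4 : ∀ c, D a * D c * (nn E a c - nn E a b0 - nn E b0 c + nn E b0 b0)
        = (D a * (D c * nn E c a) - D a * (D c * nn E b0 c))
          + D a * (nn E b0 b0 - nn E a b0) * D c := by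
      intro c
      rw [nn_symm E a c]
      ring
    simp_rw [h4]
    rw [sum_add_distrib, sum_sub_distrib, ← mul_sum, ← mul_sum, ← mul_sum, hD0, mul_zero,
      add_zero]
  simp_rw [h3]
  rw [sum_sub_distrib, ← sum_mul, hD0, zero_mul, sub_zero, ← hDD, mul_sum]
  refine sum_congr rfl fun a _ => ?_
  rw [sum_mul_nn]
  have h5 : ∀ h : E, D (h • a) = D a := fun h => by
    simp only [hD]
    rw [hinv]
  simp_rw [h5]
  rw [sum_const, card_univ, nsmul_eq_mul, ← he]
  ring

/-- strict row norms -/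
theorem row_strict [Nonempty Λ] (M : Λ → I → ℤ)
    (hG : ∀ a b c d, ∑ i, (M a i - M b i) * (M c i - M d i)
      = nn E a c - nn E a d - nn E b c + nn E b d) {k : I} {F : Type*} [Field F] [CharZero F]
    {w : I → F} (hw : w k ≠ 0) (hM : ∀ a b, ∑ i, w i * ((M a i - M b i : ℤ) : F) = 0) :
    (Fintype.card Λ : ℤ) * ∑ a, M a k ^ 2 - (∑ a, M a k) ^ 2 + 1
      ≤ Fintype.card Λ * Fintype.card E := by
  classical
  obtain ⟨b0⟩ := ‹Nonempty Λ›
  have h0 := row_of_gram M hG k
  rcases h0.lt_or_eq with h1 | h1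
  · omega
  exfalso
  obtain ⟨D, h2, h3⟩ := row_core M hG b0 k
  rw [h1] at h2 h3
  have hL0 : (0 : ℤ) < Fintype.card Λ := by
    have : Nonempty Λ := ⟨b0⟩
    exact_mod_cast Fintype.card_pos
  have he0 : (0 : ℤ) < Fintype.card E := by exact_mod_cast Fintype.card_pos
  set B : I → ℤ := fun j => ∑ a, D a * (M a j - M b0 j) with hB
  have h4 : ∑ j, B j ^ 2 = B k ^ 2 := by
    have h5 : B k = Fintype.card Λ * Fintype.card E := h2
    rw [h5]
    refine h3.trans ?_
    ring
  have h5 : ∀ j, j ≠ k → B j = 0 := by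
    intro j hj
    rw [← add_sum_erase univ _ (mem_univ k)] at h4
    have h6 : ∑ j ∈ univ.erase k, B j ^ 2 = 0 := by linarith
    have h7 := (sum_eq_zero_iff_of_nonneg (fun _ _ => sq_nonneg _)).1 h6 j
      (mem_erase.2 ⟨hj, mem_univ j⟩)
    exact pow_eq_zero_iff (two_ne_zero) |>.1 h7
  have h6 : ∑ j, w j * ((B j : ℤ) : F) = 0 := by
    have h7 : ∀ j, w j * ((B j : ℤ) : F)
        = ∑ a, ((D a : ℤ) : F) * (w j * ((M a j - M b0 j : ℤ) : F)) := by
      intro j
      simp only [hB]
      push_cast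
      rw [mul_sum]
      exact sum_congr rfl fun a _ => by ring
    rw [sum_congr rfl fun j _ => h7 j, sum_comm]
    refine sum_eq_zero fun a _ => ?_
    rw [← mul_sum, hM, mul_zero]
  rw [sum_eq_single k (fun j _ hj => by rw [h5 j hj, Int.cast_zero, mul_zero])
    (fun h => absurd (mem_univ k) h)] at h6
  have h7 : B k ≠ 0 := by
    have h8 : B k = Fintype.card Λ * Fintype.card E := h2
    rw [h8]
    exact (mul_pos hL0 he0).ne'
  exact (mul_ne_zero hw (Int.cast_ne_zero.2 h7)) h6

/-- the arithmetic at the end of the extension lemma -/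
theorem arith3 {n e s S x δ : ℤ} (he : 1 ≤ e) (hs : 1 ≤ s) (hn : (e + 1) ^ 2 ≤ n)
    (hδ0 : 0 ≤ δ) (hnδ : (e + 1) ^ 2 < n + δ) (hx0 : 0 ≤ x) (hxS : x ^ 2 = S ^ 2) (hSx : S ≤ x)
    (hxs : x ≤ s) (hC : S ^ 2 ≤ s * (n - 3 * e)) (hrow : n * s + δ ≤ (e + S) ^ 2) : False := by
  have h1 : (e + S) ^ 2 ≤ (e + x) ^ 2 := by nlinarith
  -- `3 s ≤ e + 2 x`
  have h2 : 3 * s ≤ e + 2 * x := by
    have h3 : e * (3 * s) ≤ e * (e + 2 * x) := by nlinarith
    exact le_of_mul_le_mul_left h3 (by linarith)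
  have h3 : s ≤ e := by linarith
  have h4 : (e + x) ^ 2 ≤ (e + s) ^ 2 := by nlinarith
  have h5 : (e + s) ^ 2 ≤ s * (e + 1) ^ 2 := by
    have h6 : 0 ≤ (s - 1) * (e ^ 2 - s) := mul_nonneg (by linarith) (by nlinarith)
    nlinarith
  have h6 : s * (e + 1) ^ 2 ≤ s * n := mul_le_mul_of_nonneg_left hn (by linarith)
  have h7 : δ = 0 := by nlinarith
  have h8 : (e + 1) ^ 2 < n := by linarith
  have h9 : s * (e + 1) ^ 2 < s * n := mul_lt_mul_of_pos_left h8 (by linarith)
  nlinarith

/-- the orbit of a regular point, as a set -/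
theorem nn_one_iff {a b : Λ} (hb : nn E b b = 1) (h : nn E a b ≠ 0) :
    nn E a b = 1 ∧ nn E a a = 1 ∧ ∀ c, nn E a c = nn E b c :=
  (nn_reg E hb).resolve_left h

/-- a `Λ`-function with value at least `1` on two orbits and at most `0` on two others -/
theorem two_orb {a b : Λ} (ha : nn E a a = 1) (hb : nn E b b = 1) (hab : nn E a b = 0)
    (P : Λ → Prop) [DecidablePred P] (h1 : ∀ c, nn E c a ≠ 0 → P c) (h2 : ∀ c, nn E c b ≠ 0 → P c) :
    2 * (Fintype.card E : ℤ) ≤ ((univ.filter P).card : ℤ) := by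
  classical
  have h3 := card_orb (E := E) ha
  have h4 := card_orb (E := E) hb
  have h5 : Disjoint (univ.image fun h : E => h • a) (univ.image fun h : E => h • b) := by
    rw [disjoint_left]
    intro c hc hc'
    obtain ⟨g, _, hg⟩ := mem_image.1 hc
    obtain ⟨g', _, hg'⟩ := mem_image.1 hc'
    have h6 : nn E c a = 1 := by rw [← hg, nn_smul, ha]
    have h7 : nn E c b = 1 := by rw [← hg', nn_smul, hb]
    have h8 := (nn_one_iff ha (a := c) (by rw [h6]; norm_num)).2.2 b
    rw [h7, hab] at h8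
    norm_num at h8
  have h6 : (univ.image fun h : E => h • a) ∪ (univ.image fun h : E => h • b)
      ⊆ univ.filter P := by
    intro c hc
    rw [mem_filter]
    refine ⟨mem_univ _, ?_⟩
    rcases mem_union.1 hc with hc | hc
    · obtain ⟨g, _, hg⟩ := mem_image.1 hc
      refine h1 c ?_
      rw [← hg, nn_smul, ha]
      norm_num
    · obtain ⟨g, _, hg⟩ := mem_image.1 hc
      refine h2 c ?_
      rw [← hg, nn_smul, hb]
      norm_num
  have h7 := card_le_card h6
  rw [card_union_of_disjoint h5] at h7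
  have h8 : ((univ.image fun h : E => h • a).card : ℤ)
      + ((univ.image fun h : E => h • b).card : ℤ) ≤ ((univ.filter P).card : ℤ) := by
    exact_mod_cast h7
  rw [h3, h4] at h8
  linarith

theorem ext03 {δ : ℤ} (hδ0 : 0 ≤ δ)
    (hn : ((Fintype.card E : ℤ) + 1) ^ 2 ≤ Fintype.card Λ)
    (hnδ : ((Fintype.card E : ℤ) + 1) ^ 2 < Fintype.card Λ + δ)
    (M : Λ → I → ℤ)
    (hG : ∀ a b c d, ∑ i, (M a i - M b i) * (M c i - M d i)
      = nn E a c - nn E a d - nn E b c + nn E b d)
    (hrow : ∀ i, (Fintype.card Λ : ℤ) * ∑ a, M a i ^ 2 - (∑ a, M a i) ^ 2 + δ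
      ≤ Fintype.card Λ * Fintype.card E)
    (a : Fin 3 → Λ) (ha1 : ∀ j, nn E (a j) (a j) = 1) (ha0 : ∀ j k, j ≠ k → nn E (a j) (a k) = 0)
    [DecidableEq I] (ι : Fin 3 → I) (hι : Function.Injective ι) (ε : Fin 3 → ℤ)
    (hε : ∀ j, ε j = 1 ∨ ε j = -1) (hMa : ∀ j i, M (a j) i = if i = ι j then ε j else 0) :
    ∀ b c, ∑ i, M b i * M c i = nn E b c := by
  have hinvM := inv_of_gram M hG
  have hεε : ∀ j, ε j * ε j = 1 := by
    intro j
    rcases hε j with h | h <;> rw [h] <;> norm_num
  -- inner products with the `M (a j)`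
  have hin : ∀ b j, ∑ i, M b i * M (a j) i = M b (ι j) * ε j := by
    intro b j
    simp_rw [hMa j]
    exact sum_ind (ι j) (ε j) (M b)
  have hin' : ∀ j k, ∑ i, M (a j) i * M (a k) i = if j = k then 1 else 0 := by
    intro j k
    rw [hin, hMa]
    by_cases hjk : j = k
    · subst hjk
      rw [if_pos rfl, if_pos rfl, hεε]
    · rw [if_neg hjk, if_neg (fun h => hjk (hι h).symm), zero_mul]
  set Z : Λ → ℤ := fun b => M b (ι 0) * ε 0 - nn E b (a 0) with hZ
  have hZj : ∀ b j, M b (ι j) * ε j = nn E b (a j) + Z b := by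
    intro b j
    by_cases hj : j = 0
    · subst hj
      simp only [hZ]
      ring
    · have h1 := hG b (a 0) (a j) (a 0)
      have h2 : ∑ i, (M b i - M (a 0) i) * (M (a j) i - M (a 0) i)
          = ∑ i, M b i * M (a j) i - ∑ i, M b i * M (a 0) i - ∑ i, M (a 0) i * M (a j) i
            + ∑ i, M (a 0) i * M (a 0) i := by
        rw [← sum_sub_distrib, ← sum_sub_distrib, ← sum_add_distrib]
        exact sum_congr rfl fun i _ => by ring
      rw [h2, hin, hin, hin', hin', if_neg (Ne.symm hj), if_pos rfl, ha1, ha0 0 j (Ne.symm hj)]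
        at h1
      simp only [hZ]
      linarith
  have hnorm : ∀ b, ∑ i, M b i ^ 2 = nn E b b + 2 * Z b := by
    intro b
    have h1 := hG b (a 0) b (a 0)
    have h2 : ∑ i, (M b i - M (a 0) i) * (M b i - M (a 0) i)
        = ∑ i, M b i ^ 2 - 2 * ∑ i, M b i * M (a 0) i + ∑ i, M (a 0) i * M (a 0) i := by
      rw [mul_sum, ← sum_sub_distrib, ← sum_add_distrib]
      exact sum_congr rfl fun i _ => by ring
    rw [h2, hin, hin', if_pos rfl, ha1, nn_symm E (a 0) b, hZj b 0] at h1
    linarith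
  have hthree : ∀ b, ∑ j, (nn E b (a j) + Z b) ^ 2 ≤ nn E b b + 2 * Z b := by
    intro b
    rw [← hnorm b]
    have h1 : ∀ j, (nn E b (a j) + Z b) ^ 2 = M b (ι j) ^ 2 := by
      intro j
      rw [← hZj b j, mul_pow, sq (ε j), hεε, mul_one]
    simp_rw [h1]
    rw [← sum_image (s := univ) (g := ι) (f := fun i => M b i ^ 2)
      (fun j _ k _ h => hι h)]
    exact sum_le_sum_of_subset_of_nonneg (subset_univ _) fun i _ _ => sq_nonneg _
  -- `Z` vanishes on the three orbits
  have hZ1 : ∀ b j, nn E b (a j) ≠ 0 → Z b = 0 ∧ ∀ k, nn E b (a k) = if k = j then 1 else 0 := by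
    intro b j hbj
    obtain ⟨h1, h2, h3⟩ := nn_one_iff (ha1 j) hbj
    have h4 := hthree b
    have h5 : ∀ k, nn E b (a k) = if k = j then 1 else 0 := by
      intro k
      rw [h3]
      by_cases hkj : k = j
      · rw [if_pos hkj, hkj, ha1]
      · rw [if_neg hkj, ha0 j k (Ne.symm hkj)]
    have h6 : ∑ k, (nn E b (a k) + Z b) ^ 2 = 3 * Z b ^ 2 + 2 * Z b + 1 := by
      have h7 : ∀ k, (nn E b (a k) + Z b) ^ 2
          = Z b ^ 2 + (if k = j then 2 * Z b + 1 else 0) := by
        intro k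
        rw [h5]
        split_ifs <;> ring
      simp_rw [h7]
      rw [sum_add_distrib, sum_const, card_univ, Fintype.card_fin,
        sum_ite_eq' univ j, if_pos (mem_univ j)]
      simp only [nsmul_eq_mul, Nat.cast_ofNat]
      ring
    rw [h6, h2] at h4
    refine ⟨?_, h5⟩
    have h9 : Z b ^ 2 ≤ 0 := by linarith
    have h10 := sq_nonneg (Z b)
    exact pow_eq_zero_iff (two_ne_zero) |>.1 (le_antisymm h9 h10)
  have hZ0 : ∀ b j, nn E b (a j) * Z b = 0 ∧ nn E b (a j) ^ 2 = nn E b (a j) := by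
    intro b j
    by_cases h : nn E b (a j) = 0
    · rw [h]
      simp
    · obtain ⟨h1, h2⟩ := hZ1 b j h
      rw [h1, h2 j, if_pos rfl]
      norm_num
  set e : ℤ := (Fintype.card E : ℤ) with he
  set n : ℤ := (Fintype.card Λ : ℤ) with hnd
  have he0 : 1 ≤ e := by
    have : 0 < Fintype.card E := Fintype.card_pos
    rw [he]
    exact_mod_cast this
  -- the row `ι 0`, normalised
  set g : Λ → ℤ := fun b => nn E b (a 0) + Z b with hg
  have hrow0 : n * ∑ b, g b ^ 2 - (∑ b, g b) ^ 2 + δ ≤ n * e := by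
    have h5 := hrow (ι 0)
    have h6 : ∑ b, g b ^ 2 = ∑ b, M b (ι 0) ^ 2 := by
      refine sum_congr rfl fun b _ => ?_
      simp only [hg]
      rw [← hZj b 0, mul_pow, sq (ε 0), hεε, mul_one]
    have h7 : ∑ b, g b = ε 0 * ∑ b, M b (ι 0) := by
      rw [mul_sum]
      refine sum_congr rfl fun b _ => ?_
      simp only [hg]
      rw [← hZj b 0, mul_comm]
    rw [h6, h7, mul_pow, sq (ε 0), hεε, one_mul]
    exact h5
  -- `Z` vanishes on the regular points
  have hZreg : ∀ b, nn E b b = 1 → Z b = 0 := by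
    intro b hb
    by_cases hcon : ∃ j, nn E b (a j) ≠ 0
    · obtain ⟨j, hj⟩ := hcon
      exact (hZ1 b j hj).1
    · push Not at hcon
      have h1 := hthree b
      rw [sum_congr rfl fun j _ => by rw [hcon j, zero_add], sum_const, card_univ,
        Fintype.card_fin, hb] at h1
      simp only [nsmul_eq_mul, Nat.cast_ofNat] at h1
      have h2 : Z b = 0 ∨ Z b = 1 := by
        have h3 : Z b < 2 := by nlinarith
        have h4 : -1 < Z b := by nlinarith
        omega
      rcases h2 with h2 | h2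
      · exact h2
      exfalso
      have hZb : ∀ c, nn E c b ≠ 0 → Z c = 1 := by
        intro c hc
        obtain ⟨k, hk⟩ := nn_ne_zero E hc
        rw [← hk]
        simp only [hZ]
        rw [hinvM, nn_smul]
        exact h2
      have hb0 : nn E b (a 0) = 0 := hcon 0
      have hcb : ∀ c, nn E c b ≠ 0 → ∀ j, nn E c (a j) = 0 := by
        intro c hc j
        rw [(nn_one_iff hb hc).2.2, hcon j]
      have hA : 2 * e ≤ ((univ.filter fun c => 1 ≤ g c).card : ℤ) := by
        refine two_orb (E := E) (ha1 0) hb (by rw [nn_symm, hb0]) _ ?_ ?_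
        · intro c hc
          obtain ⟨h3, h4⟩ := hZ1 c 0 hc
          simp only [hg]
          rw [h3, h4 0, if_pos rfl]
          norm_num
        · intro c hc
          simp only [hg]
          rw [hZb c hc, hcb c hc 0]
          norm_num
      have hB : 2 * e ≤ ((univ.filter fun c => ¬ 1 ≤ g c).card : ℤ) := by
        refine two_orb (E := E) (ha1 1) (ha1 2) (ha0 1 2 (by decide)) _ ?_ ?_
        · intro c hc
          obtain ⟨h3, h4⟩ := hZ1 c 1 hc
          simp only [hg]
          rw [h3, h4 0, if_neg (by decide)]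
          norm_num
        · intro c hc
          obtain ⟨h3, h4⟩ := hZ1 c 2 hc
          simp only [hg]
          rw [h3, h4 0, if_neg (by decide)]
          norm_num
      have hv := var_ge g (k := 2 * e) (n := n) rfl hA hB
      have h3 : 2 * e * (n - 2 * e) + δ ≤ n * e := by linarith
      have h4 : 4 * e ≤ (e + 1) ^ 2 := by nlinarith [sq_nonneg (e - 1)]
      have h5 : 4 * e ≤ n := by linarith
      have h6 : e * (4 * e) ≤ e * n := mul_le_mul_of_nonneg_left h5 (by linarith)
      have h7 : δ = 0 := by nlinarith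
      have h8 : 4 * e < n := by linarith
      have h9 : e * (4 * e) < e * n := mul_lt_mul_of_pos_left h8 (by linarith)
      nlinarith
  set s : ℤ := ∑ b, Z b ^ 2 with hs
  have hs0 : s = 0 := by
    by_contra hne
    have hs1 : 1 ≤ s := by
      have : 0 ≤ s := sum_nonneg fun b _ => sq_nonneg _
      omega
    obtain ⟨S, hS⟩ : ∃ S, S = ∑ b, Z b := ⟨_, rfl⟩
    have h6 : ∑ b, g b ^ 2 = e + s := by
      have h7 : ∀ b, g b ^ 2 = nn E b (a 0) + Z b ^ 2 := by
        intro b
        have h8 := hZ0 b 0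
        simp only [hg]
        nlinarith [h8.1, h8.2]
      simp_rw [h7]
      rw [sum_add_distrib, sum_nn]
    have h7 : ∑ b, g b = e + S := by
      simp only [hg]
      rw [sum_add_distrib, sum_nn, hS]
    rw [h6, h7] at hrow0
    -- Cauchy-Schwarz outside the three orbits
    have hC : S ^ 2 ≤ s * (n - 3 * e) := by
      set U : Finset Λ := univ.filter fun b => nn E b b ≠ 1 with hU
      have h8 : S = ∑ b ∈ U, Z b := by
        rw [hS]
        symm
        refine sum_subset (subset_univ U) fun b _ hb => ?_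
        refine hZreg b ?_
        by_contra h9
        exact hb (mem_filter.2 ⟨mem_univ _, h9⟩)
      have h9 : ∑ b ∈ U, Z b ^ 2 ≤ s := by
        rw [hs]
        exact sum_le_sum_of_subset_of_nonneg (subset_univ _) fun _ _ _ => sq_nonneg _
      have h10 := sq_sum_le_card_mul_sum_sq (s := U) (f := Z)
      have h11 : (U.card : ℤ) ≤ n - 3 * e := by
        -- the three orbits
        have h12 : ((univ.biUnion fun j : Fin 3 => univ.image fun h : E => h • a j).card : ℤ)
            = 3 * e := by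
          rw [card_biUnion]
          · push_cast
            rw [sum_congr rfl fun j _ => card_orb (E := E) (ha1 j), sum_const, card_univ,
              Fintype.card_fin]
            simp only [nsmul_eq_mul, Nat.cast_ofNat, he]
          · intro j _ k _ hjk
            change Disjoint (univ.image fun h : E => h • a j) (univ.image fun h : E => h • a k)
            rw [disjoint_left]
            intro c hc hc'
            obtain ⟨x, _, hx⟩ := mem_image.1 hc
            obtain ⟨y, _, hy⟩ := mem_image.1 hc'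
            have h13 : nn E c (a j) = 1 := by rw [← hx, nn_smul, ha1]
            have h14 : nn E c (a k) = 1 := by rw [← hy, nn_smul, ha1]
            have h15 := (nn_one_iff (ha1 j) (a := c) (by rw [h13]; norm_num)).2.2 (a k)
            rw [h14, ha0 j k hjk] at h15
            norm_num at h15
        have h13 : Disjoint U (univ.biUnion fun j : Fin 3 => univ.image fun h : E => h • a j) := by
          rw [disjoint_left]
          intro c hc hc'
          obtain ⟨j, _, hj⟩ := mem_biUnion.1 hc'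
          obtain ⟨x, _, hx⟩ := mem_image.1 hj
          refine (mem_filter.1 hc).2 ?_
          rw [← hx, nn_smul, nn_smul_right, ha1]
        have h14 := card_le_univ
          (U ∪ (univ.biUnion fun j : Fin 3 => univ.image fun h : E => h • a j))
        rw [card_union_of_disjoint h13] at h14
        have h15 : (U.card : ℤ)
            + ((univ.biUnion fun j : Fin 3 => univ.image fun h : E => h • a j).card : ℤ) ≤ n := by
          rw [hnd]
          exact_mod_cast h14
        rw [h12] at h15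
        linarith
      rw [h8]
      calc (∑ b ∈ U, Z b) ^ 2 ≤ (U.card : ℤ) * ∑ b ∈ U, Z b ^ 2 := h10
        _ ≤ (U.card : ℤ) * s := mul_le_mul_of_nonneg_left h9 (Int.natCast_nonneg _)
        _ ≤ (n - 3 * e) * s := mul_le_mul_of_nonneg_right h11 (by linarith)
        _ = s * (n - 3 * e) := mul_comm _ _
    have h8 : |S| ≤ s := by
      rw [hS]
      refine (abs_sum_le_sum_abs _ _).trans ?_
      rw [hs]
      refine sum_le_sum fun b _ => ?_
      rcases abs_cases (Z b) with ⟨h9, h10⟩ | ⟨h9, h10⟩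
      · rw [h9]
        rcases h10.eq_or_lt with h11 | h11
        · rw [← h11]; norm_num
        · nlinarith
      · rw [h9]
        nlinarith
    exact arith3 (n := n) (e := e) (s := s) (S := S) (x := |S|) (δ := δ) he0 hs1 hn hδ0 hnδ
      (abs_nonneg S) (sq_abs S) (le_abs_self S) h8 hC (by linarith)
  have hZb : ∀ b, Z b = 0 := by
    intro b
    have h1 := (sum_eq_zero_iff_of_nonneg (fun b _ => sq_nonneg (Z b))).1 hs0 b (mem_univ b)
    exact pow_eq_zero_iff (two_ne_zero) |>.1 h1
  intro b c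
  have h1 := hG b (a 0) c (a 0)
  have h2 : ∑ i, (M b i - M (a 0) i) * (M c i - M (a 0) i)
      = ∑ i, M b i * M c i - ∑ i, M b i * M (a 0) i - ∑ i, M c i * M (a 0) i
        + ∑ i, M (a 0) i * M (a 0) i := by
    rw [← sum_sub_distrib, ← sum_sub_distrib, ← sum_add_distrib]
    exact sum_congr rfl fun i _ => by ring
  rw [h2, hin, hin, hin', if_pos rfl, ha1, hZj b 0, hZj c 0, hZb, hZb, nn_symm E (a 0) c] at h1
  linarith

/-- **the extension lemma** with three regular orbits -/
theorem ext_three3 {δ : ℤ} (hδ0 : 0 ≤ δ)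
    (hn : ((Fintype.card E : ℤ) + 1) ^ 2 ≤ Fintype.card Λ)
    (hnδ : ((Fintype.card E : ℤ) + 1) ^ 2 < Fintype.card Λ + δ)
    (a : Fin 3 → Λ) (ha1 : ∀ j, nn E (a j) (a j) = 1) (ha0 : ∀ j k, j ≠ k → nn E (a j) (a k) = 0)
    (M : Λ → I → ℤ)
    (hG : ∀ a b c d, ∑ i, (M a i - M b i) * (M c i - M d i)
      = nn E a c - nn E a d - nn E b c + nn E b d)
    (hrow : ∀ i, (Fintype.card Λ : ℤ) * ∑ a, M a i ^ 2 - (∑ a, M a i) ^ 2 + δ
      ≤ Fintype.card Λ * Fintype.card E) :
    ∃ C : I → ℤ, ∀ b c, ∑ i, (M b i - C i) * (M c i - C i) = nn E b c := by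
  classical
  obtain ⟨C, ι, ε, hι, hε, hC⟩ := star3v (fun j => M (a j)) (by
    intro j k hjk
    have h1 := hG (a j) (a k) (a j) (a k)
    rw [ha1, ha1, ha0 j k hjk, ha0 k j (Ne.symm hjk)] at h1
    simp_rw [sq]
    rw [h1]
    norm_num)
  refine ⟨C, ?_⟩
  refine ext03 hδ0 hn hnδ (fun b i => M b i - C i) ?_ ?_ a ha1 ha0 ι hι ε hε ?_
  · intro b c d f
    rw [← hG b c d f]
    exact sum_congr rfl fun i _ => by ring
  · intro i
    refine le_trans (le_of_eq ?_) (hrow i)
    have h1 : ∑ b, (M b i - C i) ^ 2 = ∑ b, M b i ^ 2 - 2 * C i * ∑ b, M b i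
        + Fintype.card Λ * C i ^ 2 := by
      have h2 : (Fintype.card Λ : ℤ) * C i ^ 2 = ∑ b : Λ, C i ^ 2 := by
        rw [sum_const, card_univ, nsmul_eq_mul]
      rw [h2, mul_sum, ← sum_sub_distrib, ← sum_add_distrib]
      exact sum_congr rfl fun b _ => by ring
    have h2 : ∑ b, (M b i - C i) = ∑ b, M b i - Fintype.card Λ * C i := by
      rw [sum_sub_distrib, sum_const, card_univ, nsmul_eq_mul]
    rw [h1, h2]
    ring
  · intro j i
    have h1 := hC j i
    show M (a j) i - C i = _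
    rw [h1]
    ring

end

end Pool.Agent.Lib.P0c8ca5.Ex
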