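import Mathlib
import Pool.Agent.Lib.P0c8ca5Ex.ZB

/-!
# ZVb: three regular characters if `|E| < p` and `|T : R| ≥ p²`

* `three_reg`: three regular characters of `T / R` which are pairwise not conjugate.
* `ext_uniq3`: the uniqueness of the extension (as `ext_uniqL`).
-/

set_option linter.unusedSectionVars false

namespace Pool.Agent.Lib.P0c8ca5.Ex

open Finset YLx

namespace ZVx

section
variable {T : Type*} [CommGroup T] [Fintype T] {K : Type*} [Field K] [CharZero K]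
  [HasEnoughRootsOfUnity K (Monoid.exponent T)] {E : Subgroup (MulAut T)} {R : Subgroup T}

theorem le_range {p : ℕ} (hp : p.Prime) (hT : IsPGroup p T) {α : MulAut T} (hα : α ≠ 1) :
    p ≤ Nat.card (Ku.cm α).range := by
  have hF : Fact p.Prime := ⟨hp⟩
  obtain ⟨j, hj⟩ := IsPGroup.iff_card.1 (hT.to_subgroup (Ku.cm α).range)
  have hj0 : j ≠ 0 := by
    rintro rfl
    rw [pow_zero] at hj
    apply hα
    have h1 : (Ku.cm α).range = ⊥ := Subgroup.eq_bot_of_card_eq _ hj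
    ext u
    have h2 : Ku.cm α u ∈ (⊥ : Subgroup T) := by
      rw [← h1]
      exact ⟨u, rfl⟩
    rw [Subgroup.mem_bot, Ku.cm_apply, inv_mul_eq_one] at h2
    exact h2.symm
  rw [hj]
  exact Nat.le_self_pow hj0 p

variable [Fintype E] [hF : Fact (∀ α ∈ E, ∀ z ∈ R, α z = z)]

/-- the number of the regular characters -/
theorem card_reg3 {p : ℕ} (hp : p.Prime) (hT : IsPGroup p T) (hE1 : Nat.card E + 1 ≤ p)
    (hE : ¬ p ∣ Nat.card E) (hn : p ^ 2 * Nat.card R ∣ Fintype.card T) :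
    2 * Fintype.card E < (univ.filter fun a : LR K R => nn E a a = 1).card := by
  classical
  have hcE : Nat.card E = Fintype.card E := Nat.card_eq_fintype_card
  have h1 := card_reg_ge (Λ := LR K R) (E := E) (q := p) fun h hh =>
    fix_LRq hp hT hE (fun α _ hα1 => le_range hp hT hα1) hh
  have h2 := card_LR (K := K) R
  have hR0 : 0 < Nat.card R := Nat.card_pos
  have h3 : p ^ 2 ≤ Fintype.card (LR K R) := by
    obtain ⟨m, hm⟩ := hn
    have hm0 : 0 < m := by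
      rcases Nat.eq_zero_or_pos m with h | h
      · rw [h, mul_zero] at hm
        exact absurd hm Fintype.card_ne_zero
      · exact h
    have h4 : Nat.card R * p ^ 2 ≤ Nat.card R * Fintype.card (LR K R) := by
      rw [h2, hm]
      calc Nat.card R * p ^ 2 = p ^ 2 * Nat.card R * 1 := by ring
        _ ≤ p ^ 2 * Nat.card R * m := Nat.mul_le_mul_left _ hm0
    exact Nat.le_of_mul_le_mul_left h4 hR0
  have hE0 : 0 < Fintype.card E := Fintype.card_pos
  rw [hcE] at hE1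
  obtain ⟨e, he⟩ : ∃ e, Fintype.card E = e + 1 := ⟨Fintype.card E - 1, by omega⟩
  rw [he] at h1 hE1 ⊢
  rw [Nat.add_sub_cancel] at h1
  set n := Fintype.card (LR K R) with hn'
  set N := (univ.filter fun a : LR K R => nn E a a = 1).card with hN'
  by_contra hcon
  push Not at hcon
  have h5 : p * N ≤ p * (2 * (e + 1)) := Nat.mul_le_mul_left _ hcon
  obtain ⟨s, hs⟩ : ∃ s, p = s + (e + 2) := ⟨p - (e + 2), by omega⟩
  have h6 : p * n = s * n + e * n + 2 * n := by rw [hs]; ring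
  have h7 : s * n + 2 * n ≤ p * (2 * (e + 1)) := by omega
  have h8 : 2 * p ^ 2 ≤ 2 * n := Nat.mul_le_mul_left 2 h3
  have h9 : p * (2 * (e + 1)) < 2 * p ^ 2 := by
    have h10 : e + 1 < p := by omega
    have h11 : p * (e + 1) < p * p := Nat.mul_lt_mul_of_pos_left h10 hp.pos
    calc p * (2 * (e + 1)) = 2 * (p * (e + 1)) := by ring
      _ < 2 * (p * p) := by omega
      _ = 2 * p ^ 2 := by ring
  omega

theorem three_fam {p : ℕ} (hp : p.Prime) (hT : IsPGroup p T) (hE1 : Nat.card E + 1 ≤ p)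
    (hE : ¬ p ∣ Nat.card E) (hn : p ^ 2 * Nat.card R ∣ Fintype.card T) :
    ∃ a : Fin 3 → LR K R, (∀ j, nn E (a j) (a j) = 1) ∧ ∀ j k, j ≠ k → nn E (a j) (a k) = 0 :=
  reg_pts (E := E) 2 (card_reg3 hp hT hE1 hE hn)

omit hF in
theorem three_reg {p : ℕ} (hp : p.Prime) (hT : IsPGroup p T) (hE1 : Nat.card E + 1 ≤ p)
    (hE : ¬ p ∣ Nat.card E) (hER : ∀ α ∈ E, ∀ z ∈ R, α z = z)
    (hn : p ^ 2 * Nat.card R ∣ Fintype.card T) :
    letI : Fact (∀ α ∈ E, ∀ z ∈ R, α z = z) := ⟨hER⟩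
    ∃ a b c : LR K R, nn E a a = 1 ∧ nn E b b = 1 ∧ nn E a b = 0 ∧ nn E a c = 0 ∧
      nn E b c = 0 := by
  letI : Fact (∀ α ∈ E, ∀ z ∈ R, α z = z) := ⟨hER⟩
  obtain ⟨a, ha1, ha0⟩ := three_fam (K := K) hp hT hE1 hE hn
  exact ⟨a 0, a 1, a 2, ha1 _, ha1 _, ha0 _ _ (by decide), ha0 _ _ (by decide),
    ha0 _ _ (by decide)⟩

end

end ZVx

section
variable {T : Type*} [CommGroup T] [Fintype T] {K : Type*} [Field K] [CharZero K]
  [HasEnoughRootsOfUnity K (Monoid.exponent T)]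

/-- **uniqueness** -/
theorem ext_uniq3 {p : ℕ} (hp : p.Prime) (hT : IsPGroup p T) {E : Subgroup (MulAut T)}
    (hE : ¬ p ∣ Nat.card E) {R : Subgroup T} (hER : ∀ α ∈ E, ∀ z ∈ R, α z = z)
    (hE1 : Nat.card E + 1 ≤ p) (hn : p ^ 2 * Nat.card R ∣ Fintype.card T) {I : Type*} [Fintype I] {ψ ψ' : I → T → K} (hv : ∀ i, ψ i ∈ vir T K)
    (hv' : ∀ i, ψ' i ∈ vir T K)
    (hR : ∀ i, ∀ z ∈ R, ∀ u, ψ i (z * u) = ψ i u) (hR' : ∀ i, ∀ z ∈ R, ∀ u, ψ' i (z * u) = ψ' i u)
    (he : ∀ i u, u ∉ R → ψ i u = ψ' i u)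
    (hG : ∀ u v, GramR E R ψ u v) (hG' : ∀ u v, GramR E R ψ' u v) : ψ = ψ' := by
  classical
  have hF : Fact (∀ α ∈ E, ∀ z ∈ R, α z = z) := ⟨hER⟩
  have : Fintype E := Fintype.ofFinite _
  have hcE : Nat.card E = Fintype.card E := Nat.card_eq_fintype_card
  have hgram : ∀ ψ : I → T → K, (∀ u v, GramR E R ψ u v) → ∀ u v,
      (Nat.card R : K) * ∑ i, ψ i u * ψ i v⁻¹ = (Fintype.card T : K) * (gR E R u v : K) :=
    fun ψ hG u v => (ZBx.gram_iff hp hT hE hER ψ u v).1 (hG u v)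
  obtain ⟨M, hM⟩ := int_mlt hv
  obtain ⟨M', hM'⟩ := int_mlt hv'
  have hGM : ∀ a c : LR K R, ∑ i, M i a.1 * M i c.1 = nn E a c := by
    intro a c
    have h1 := gram_full (hgram ψ hG) a c
    simp only [hM] at h1
    exact_mod_cast h1
  have hGM' : ∀ a c : LR K R, ∑ i, M' i a.1 * M' i c.1 = nn E a c := by
    intro a c
    have h1 := gram_full (hgram ψ' hG') a c
    simp only [hM'] at h1
    exact_mod_cast h1
  -- three characters which are not conjugate
  have h3 : ∃ a b c : LR K R, nn E a a = 1 ∧ nn E b b = 1 ∧ nn E a b = 0 ∧ nn E a c = 0 ∧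
      nn E b c = 0 := by
    exact ZVx.three_reg (K := K) hp hT hE1 hE hER hn
  obtain ⟨a, b, c, haa, hbb, hab, hac, hbc⟩ := h3
  have hdiff : ∀ i (x y : LR K R), M' i x.1 - M i x.1 = M' i y.1 - M i y.1 := by
    intro i x y
    have h1 : mlt (ψ' i) x.1 - mlt (ψ i) x.1 = mlt (ψ' i) y.1 - mlt (ψ i) y.1 := by
      unfold mlt
      rw [← mul_sub, ← mul_sub, ← sum_sub_distrib, ← sum_sub_distrib]
      congr 1
      refine sum_congr rfl fun u _ => ?_
      by_cases hu : u ∈ R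
      · rw [chr_LR x (R.inv_mem hu), chr_LR y (R.inv_mem hu)]
      · rw [he i u hu]
        ring
    rw [hM, hM, hM', hM'] at h1
    exact_mod_cast h1
  have hC0 : ∀ i, M' i a.1 - M i a.1 = 0 := by
    have hx : ∀ z : LR K R, ∑ i, (M i z.1 + (M' i a.1 - M i a.1)) ^ 2 = ∑ i, M i z.1 ^ 2 := by
      intro z
      have h1 : ∀ i, (M i z.1 + (M' i a.1 - M i a.1)) ^ 2 = M' i z.1 * M' i z.1 := by
        intro i
        rw [hdiff i a z]
        ring
      rw [sum_congr rfl fun i _ => h1 i, hGM', ← hGM]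
      exact sum_congr rfl fun i _ => (sq _).symm
    refine uniq_pure (fun i => M i a.1) (fun i => M i b.1) (fun i => M i c.1)
      (fun i => M' i a.1 - M i a.1) ?_ ?_ ?_ ?_ ?_ (hx a) (hx b) (hx c)
    · rw [← haa, ← hGM]
      exact sum_congr rfl fun i _ => sq _
    · rw [← hbb, ← hGM]
      exact sum_congr rfl fun i _ => sq _
    · rw [← hab, ← hGM]
    · rw [← hac, ← hGM]
    · rw [← hbc, ← hGM]
  funext i u
  rw [eq_sum_LR (hR i) u, eq_sum_LR (hR' i) u]
  refine sum_congr rfl fun x _ => ?_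
  have h1 := hdiff i x a
  rw [hC0 i] at h1
  have h2 : M' i x.1 = M i x.1 := by linarith
  rw [hM, hM', h2]

end

end Pool.Agent.Lib.P0c8ca5.Ex
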