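import Mathlib
import Pool.Agent.Lib.P0c8ca5Ex.WTb
import Pool.Agent.Lib.P0c8ca5Ex.ZVb

/-!
# WTc: the extension of the rows, `|E| < p`, `|T : R| ≥ p²`

`ext_rel3`: as `ext_relL`, three regular orbits (`ZVx.three_fam`) and strict row norms (`ext_three3`, `row_strict`).
-/

set_option linter.unusedSectionVars false

namespace Pool.Agent.Lib.P0c8ca5.Ex

open Finset YLx

section
variable {T : Type*} [CommGroup T] [Fintype T] {K : Type*} [Field K] [CharZero K]
  [HasEnoughRootsOfUnity K (Monoid.exponent T)]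

/-- a relation between the rows outside `R` is one between the differences of the multiplicities -/
theorem rel_diff {R : Subgroup T} {I : Type*} [Fintype I] {Θ : I → T → K} {w : I → K}
    (hw : ∀ u, u ∉ R → ∑ i, w i * Θ i u = 0) (a b : LR K R) :
    ∑ i, w i * (mlt (Θ i) a.1 - mlt (Θ i) b.1) = 0 := by
  have h1 : ∀ i, w i * (mlt (Θ i) a.1 - mlt (Θ i) b.1)
      = (Fintype.card T : K)⁻¹ * ∑ u, w i * Θ i u * (chr a.1 u⁻¹ - chr b.1 u⁻¹) := by
    intro i
    unfold mlt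
    rw [← mul_sub, ← sum_sub_distrib, ← mul_assoc, mul_comm (w i), mul_assoc, mul_sum]
    congr 1
    exact sum_congr rfl fun u _ => by ring
  rw [sum_congr rfl fun i _ => h1 i, ← mul_sum, sum_comm]
  have h2 : ∀ u, ∑ i, w i * Θ i u * (chr a.1 u⁻¹ - chr b.1 u⁻¹) = 0 := by
    intro u
    rw [← sum_mul]
    by_cases hu : u ∈ R
    · rw [chr_LR a (R.inv_mem hu), chr_LR b (R.inv_mem hu), sub_self, mul_zero]
    · rw [hw u hu, zero_mul]
  rw [sum_congr rfl fun u _ => h2 u, sum_const_zero, mul_zero]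

theorem ext_rel3 {p : ℕ} (hp : p.Prime) (hT : IsPGroup p T) {E : Subgroup (MulAut T)}
    (hE : ¬ p ∣ Nat.card E) {R : Subgroup T} (hER : ∀ α ∈ E, ∀ z ∈ R, α z = z)
    (hE1 : Nat.card E + 1 ≤ p) (hn : p ^ 2 * Nat.card R ∣ Fintype.card T)
    {I : Type*} [Fintype I] {Θ : I → T → K} (hv : ∀ i, Θ i ∈ vir T K)
    (hR : ∀ i, ∀ z ∈ R, ∀ u, Θ i (z * u) = Θ i u)
    (hG : ∀ u v, u ∉ R → v ∉ R → GramR E R Θ u v)
    (hw : ∀ j : I, ∃ w : I → K, w j ≠ 0 ∧ ∀ u, u ∉ R → ∑ i, w i * Θ i u = 0) :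
    ∃ ψ : I → T → K, (∀ i, ψ i ∈ vir T K) ∧ (∀ i, ∀ z ∈ R, ∀ u, ψ i (z * u) = ψ i u) ∧
      (∀ i u, u ∉ R → ψ i u = Θ i u) ∧ ∀ u v, GramR E R ψ u v := by
  classical
  have hF : Fact (∀ α ∈ E, ∀ z ∈ R, α z = z) := ⟨hER⟩
  have : Fintype E := Fintype.ofFinite _
  have hcE : Nat.card E = Fintype.card E := Nat.card_eq_fintype_card
  have hgram : ∀ u v, u ∉ R → v ∉ R → (Nat.card R : K) * ∑ i, Θ i u * Θ i v⁻¹
      = (Fintype.card T : K) * (gR E R u v : K) :=
    fun u v hu hv => (ZBx.gram_iff hp hT hE hER Θ u v).1 (hG u v hu hv)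
  obtain ⟨M, hM⟩ := int_mlt hv
  have hGM : ∀ a b c d : LR K R, ∑ i, (M i a.1 - M i b.1) * (M i c.1 - M i d.1)
      = nn E a c - nn E a d - nn E b c + nn E b d := by
    intro a b c d
    have h1 := gram_diff hgram a b c d
    simp only [hM] at h1
    exact_mod_cast h1
  have hsumM : ∀ i u, Θ i u = ∑ a : LR K R, (M i a.1 : K) * chr a.1 u := by
    intro i u
    rw [eq_sum_LR (hR i) u]
    exact sum_congr rfl fun a _ => by rw [hM]
  have hC : ∃ C : I → ℤ, ∀ b c : LR K R,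
      ∑ i, (M i b.1 - C i) * (M i c.1 - C i) = nn E b c := by
    obtain ⟨a, ha1, ha0⟩ := ZVx.three_fam (K := K) hp hT hE1 hE hn
    have hne : Nonempty (LR K R) := ⟨LR.one R⟩
    -- `p² ≤ |T : R|`
    have h2 := card_LR (K := K) R
    have h3 : p ^ 2 ≤ Fintype.card (LR K R) := by
      obtain ⟨m, hm⟩ := hn
      have hm0 : 0 < m := by
        rcases Nat.eq_zero_or_pos m with h | h
        · rw [h, mul_zero] at hm
          exact absurd hm Fintype.card_ne_zero
        · exact h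
      have h4 : Nat.card R * p ^ 2 ≤ Nat.card R * Fintype.card (LR K R) := by
        rw [h2, hm]
        calc Nat.card R * p ^ 2 = p ^ 2 * Nat.card R * 1 := by ring
          _ ≤ p ^ 2 * Nat.card R * m := Nat.mul_le_mul_left _ hm0
      exact Nat.le_of_mul_le_mul_left h4 Nat.card_pos
    have h4 : (Fintype.card E + 1) ^ 2 ≤ Fintype.card (LR K R) := by
      rw [hcE] at hE1
      exact (Nat.pow_le_pow_left hE1 2).trans h3
    have h5 : ((Fintype.card E : ℤ) + 1) ^ 2 ≤ (Fintype.card (LR K R) : ℤ) := by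
      exact_mod_cast h4
    refine ext_three3 (δ := 1) (by norm_num) h5 (by linarith) a ha1 ha0 (fun a i => M i a.1) hGM
      fun j => ?_
    obtain ⟨w, hw0, hw1⟩ := hw j
    refine row_strict (fun (a : LR K R) i => M i a.1) hGM hw0 fun a b => ?_
    have h6 := rel_diff hw1 a b
    simp only [hM] at h6
    push_cast
    exact h6
  obtain ⟨C, hC⟩ := hC
  refine ⟨fun i u => ∑ a : LR K R, ((M i a.1 - C i : ℤ) : K) * chr a.1 u, ?_, ?_, ?_, ?_⟩
  · intro i
    have h1 : (fun u => ∑ a : LR K R, ((M i a.1 - C i : ℤ) : K) * chr a.1 u)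
        = ∑ a : LR K R, (M i a.1 - C i) • (chr a.1 : T → K) := by
      funext u
      rw [Finset.sum_apply]
      refine sum_congr rfl fun a _ => ?_
      rw [Pi.smul_apply, zsmul_eq_mul]
    change (fun u => ∑ a : LR K R, ((M i a.1 - C i : ℤ) : K) * chr a.1 u) ∈ vir T K
    rw [h1]
    exact sum_mem fun a _ => zsmul_mem (chr_mem a.1) _
  · intro i z hz u
    exact sum_congr rfl fun a _ => by rw [chr_LR_mul a hz]
  · intro i u hu
    change ∑ a : LR K R, ((M i a.1 - C i : ℤ) : K) * chr a.1 u = Θ i u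
    have h1 : ∀ a : LR K R, ((M i a.1 - C i : ℤ) : K) * chr a.1 u
        = (M i a.1 : K) * chr a.1 u - (C i : K) * chr a.1 u := by
      intro a
      push_cast
      ring
    rw [sum_congr rfl fun a _ => h1 a, sum_sub_distrib, ← mul_sum, sum_LR_notMem hu, mul_zero,
      sub_zero, hsumM]
  · intro u v
    refine (ZBx.gram_iff hp hT hE hER _ u v).2 ?_
    refine gram_back (fun a i => ((M i a.1 - C i : ℤ) : K)) (fun i u => rfl) ?_ u v
    intro a c
    rw [← hC a c]
    push_cast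
    rfl

end

end Pool.Agent.Lib.P0c8ca5.Ex
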