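import Mathlib
import Pool.Agent.Lib.P0c8ca5Ex.ZCb
import Pool.Agent.Lib.P0c8ca5Ex.ZVb
import Pool.Agent.Lib.P0c8ca5Ex.WTc

/-!
# ZV3: the rows at `R` if `|E| = p - 1` and `|T : R| ≥ p²`

`exists_rows3`: three regular characters (`ZVx.three_fam`), the strict row norm (`ext_rel3`): the vector
`(chO χ B)_χ` is orthogonal to the rows outside `R` (`YOaAux.col_rowI`) and has no zeros.
-/

set_option linter.unusedSectionVars false

namespace Pool.Agent.Lib.P0c8ca5.Ex

open MonoidAlgebra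

section
variable {p : ℕ} [Fact p.Prime] {k : Type*} [Field k] [IsAlgClosed k] [CharP k p]
  {A : Type*} [Group A] [Finite A] {T : Type*} [CommGroup T] [Fintype T]
  {φ : T →* A} {b f i : MonoidAlgebra k A} {D : Subgroup A} {R Q : Subgroup T}
  {G : Subgroup T → A → KW p k}

theorem exists_rows3 (hp2 : p ≠ 2) (h : Stp φ b D f i R G) (hE : eN D f + 1 = p)
    (hn : p ^ 2 * Nat.card R ∣ Fintype.card T) {B : MonoidAlgebra (OW p k) A} (hB : CenL b B) :
    ∃ ψ : IR φ R B → T → KW p k, Rows φ D f R G B ψ := by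
  have hp : p.Prime := Fact.out
  have hcE : Nat.card (EG φ D f) = eN D f := card_EG h.inj h.ran
  have hfE := finite_EG (φ := φ) (D := D) (f := f)
  have hpE : ¬ p ∣ Nat.card (EG φ D f) := by
    intro hd
    have h3 : 0 < Nat.card (EG φ D f) := Nat.card_pos
    exact absurd (Nat.le_of_dvd h3 hd) (by omega)
  obtain ⟨Θ, h1, h2, h3, h4⟩ := rows_glue h hpE hB
  obtain ⟨ψ, h5, h6, h7, h8⟩ := ext_rel3 hp (isPG h) hpE
    (fun α hα z hz => YmAux.fix_cen h.inj hα (h.cen z hz)) (by omega) hn h1 h2 h4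
    (fun χ => ⟨fun χ' => chO χ'.1 B, χ.2.2, fun u hu =>
      (Finset.sum_congr rfl fun χ' _ => by rw [h3 χ' u hu]).trans
        (YOaAux.col_rowI (φ := φ) (R := R) h hB.idem (fun χ hχ => hχ) hu)⟩)
  exact ⟨ψ, ext_Rows h3 h5 h6 h7 h8⟩

end

end Pool.Agent.Lib.P0c8ca5.Ex
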