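import Mathlib
import Pool.Agent.Lib.P0c8ca5Ex.ZV
import Pool.Agent.Lib.P0c8ca5Ex.ZVb
import Pool.Agent.Lib.P0c8ca5Ex.ZV3

/-!
# ZVc: the step and the induction for `|E| = p - 1`

If `|E| < p` and `|T : Q| ≥ p²` for all `Q ≤ C_T(E)` in the case `|E| = p - 1`, then there is the family `G` at all `Q`.
-/

set_option linter.unusedSectionVars false

namespace Pool.Agent.Lib.P0c8ca5.Ex

open MonoidAlgebra

section
variable {p : ℕ} [Fact p.Prime] {k : Type*} [Field k] [IsAlgClosed k] [CharP k p]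
  {A : Type*} [Group A] [Finite A] {T : Type*} [CommGroup T] [Fintype T]
  {φ : T →* A} {b f i : MonoidAlgebra k A} {D : Subgroup A} {R Q : Subgroup T}
  {G : Subgroup T → A → KW p k}

/-- the uniqueness of `Γ` -/
theorem gr_unique3 (h : Stp φ b D f i R G) (hE : eN D f + 1 ≤ p)
    (hn : p ^ 2 * Nat.card R ∣ Fintype.card T) {Γ Γ' : A → KW p k}
    (hΓ : GR φ b D f R G Γ) (hΓ' : GR φ b D f R G Γ') : Γ = Γ' := by
  have hcard : Nat.card (EG φ D f) = eN D f := card_EG h.inj h.ran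
  have := finite_EG (φ := φ) (D := D) (f := f)
  have hE0 : 0 < Nat.card (EG φ D f) := Nat.card_pos
  have hE' : ¬ p ∣ Nat.card (EG φ D f) := fun h1 => by
    have := Nat.le_of_dvd hE0 h1
    omega
  refine gr_unique_of h hE' (fun B ψ ψ' h1 h2 h3 h4 h5 h6 h7 => ?_) hΓ hΓ'
  exact ext_uniq3 Fact.out (YPaAux.isPGroup_T h) hE' (fun α hα z hz => YFAux.al_fix h hα hz)
    (by rw [hcard]; exact hE) hn h1 h2 h3 h4 h5 h6 h7

theorem step3 (hp2 : p ≠ 2) (h : Stp φ b D f i R G) (hE : eN D f + 1 ≤ p) (hRT : R ≠ ⊤)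
    (hn : eN D f + 1 = p → p ^ 2 * Nat.card R ∣ Fintype.card T) :
    ∃! g : A → KW p k, GOK φ D f i (upd G R g) R := by
  by_cases hE2 : eN D f + 2 ≤ p
  · exact step2 hp2 h hE2 hRT
  have hp : p.Prime := Fact.out
  have hEp : eN D f + 1 = p := by omega
  have hp2' := hp.two_le
  have hpE : ¬ p ∣ eN D f := fun h1 => by
    have := Nat.le_of_dvd (by omega) h1
    omega
  have hn := hn hEp
  have hdvd : p * Nat.card R ∣ Fintype.card T :=
    (Dvd.intro_left p (by ring)).trans hn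
  obtain ⟨g, hg, hu⟩ := stepq (q := p) hp2 dvd_rfl h (fun Q hQ => (h.ok Q hQ).cq) hpE hRT
    (by
      obtain ⟨s, hs⟩ : ∃ s, p = s + 1 := ⟨p - 1, by omega⟩
      have h1 : eN D f = s := by omega
      have h2 : p - 1 = s := by omega
      rw [h1, h2, hs]
      have h3 : 0 < s := by omega
      nlinarith) (Or.inr hdvd)
    (fun B hB => exists_rows3 hp2 h hEp hn hB)
    (fun Γ Γ' hΓ hΓ' => gr_unique3 h hE hn hΓ hΓ')
  exact ⟨g, hg.1, fun g' hg' => hu g' ⟨hg', hg'.cq⟩⟩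

theorem unique_at3 (hp2 : p ≠ 2) (h : Src p b D f i) (hφ : Function.Injective φ)
    (hr : ∀ x, x ∈ D ↔ ∃ t, φ t = x) (hE : eN D f + 1 ≤ p) (hQ : Q ≠ ⊤)
    (hn : eN D f + 1 = p → (∀ α ∈ EG φ D f, ∀ t ∈ Q, α t = t) →
      p ^ 2 * Nat.card Q ∣ Fintype.card T)
    (hG : ∀ Q', Q < Q' → GOK φ D f i G Q') (he : EqG φ D f G fun Q' => Q < Q') :
    ∃! g : A → KW p k, GOK φ D f i (upd G Q g) Q := by
  classical
  obtain ⟨c, φ', hc, hφ', hS, hEG, hcE, hCq, hiff⟩ := stp_downq p h hφ hr hG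
    (fun Q' hQ' => (hG Q' hQ').cq) he
  have hcard : Nat.card (EG φ D f) = eN D f := card_EG hφ hr
  have := finite_EG (φ := φ) (D := D) (f := f)
  have hle : Fx (EG φ D f) Q ≤ EG φ D f := fun _ h => h.1
  have hle' : Nat.card (Fx (EG φ D f) Q) ≤ eN D f := by
    rw [← hcard]
    exact Subgroup.card_le_of_le hle
  obtain ⟨g, hg, hu⟩ := step3 hp2 hS (by omega) hQ (fun h1 => hn (by omega) (by
    have h2 : Fx (EG φ D f) Q = EG φ D f := by
      refine Subgroup.eq_of_le_of_card_ge hle ?_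
      omega
    intro α hα t ht
    rw [← h2] at hα
    exact hα.2 t ht))
  set g₁ : A → KW p k := fun x => if hx : x ∈ cq φ Q then g ⟨x, hx⟩ else 0 with hg₁
  have h0 : ∀ x, x ∉ cq φ Q → g₁ x = 0 := fun x hx => dif_neg hx
  have h1 : (fun y : ↥(cq φ Q) => g₁ (y : A)) = g := by
    funext y
    exact dif_pos y.2
  have hiff' : ∀ g : A → KW p k, (∀ x, x ∉ cq φ Q → g x = 0) →
      (GOK φ D f i (upd G Q g) Q ↔
        GOK φ' (D.subgroupOf (cq φ Q)) (dnr (cq φ Q) f) (dnr (cq φ Q) i)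
          (upd (fun Q' (y : ↥(cq φ Q)) => G Q' (y : A)) Q (fun y => g (y : A))) Q) :=
    fun g hg => ⟨fun h3 => ((hiff g hg).1 ⟨h3, h3.cq⟩).1, fun h3 => ((hiff g hg).2 ⟨h3, h3.cq⟩).1⟩
  refine ⟨g₁, (hiff' g₁ h0).2 (by rw [h1]; exact hg), fun g₂ hg₂ => ?_⟩
  have h2 : ∀ x, x ∉ cq φ Q → g₂ x = 0 := fun x hx => by
    have h3 := hg₂.sup x hx
    rwa [upd_self] at h3
  have h3 := hu _ ((hiff' g₂ h2).1 hg₂)
  funext x
  by_cases hx : x ∈ cq φ Q
  · have h4 := congrFun (h3.trans h1.symm) ⟨x, hx⟩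
    exact h4
  · rw [h0 x hx, h2 x hx]

theorem ind_gok3 (hp2 : p ≠ 2) (h : Src p b D f i) (hφ : Function.Injective φ)
    (hr : ∀ x, x ∈ D ↔ ∃ t, φ t = x) (hE : eN D f + 1 ≤ p)
    (hn : eN D f + 1 = p → ∀ Q : Subgroup T, (∀ α ∈ EG φ D f, ∀ t ∈ Q, α t = t) →
      p ^ 2 * Nat.card Q ∣ Fintype.card T) :
    Ind φ D f (GOK φ D f i) fun _ => True where
  up _ _ _ _ := trivial
  inv _ _ := Iff.rfl
  congr _ _ _ hG hQ := gok_congr hG hQ
  conj _ hs _ hα _ _ hQ := gok_conj h hφ hr hs hα hQ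
  base := base hp2 h hφ hr
  step Q _ hQ _ hG he := unique_at3 hp2 h hφ hr hE hQ (fun h1 => hn h1 Q) hG he

/-- **the family at all `Q`** -/
theorem exists_gfam3 (hp2 : p ≠ 2) (h : Src p b D f i) (hφ : Function.Injective φ)
    (hr : ∀ x, x ∈ D ↔ ∃ t, φ t = x) (hE : eN D f + 1 ≤ p)
    (hn : eN D f + 1 = p → ∀ Q : Subgroup T, (∀ α ∈ EG φ D f, ∀ t ∈ Q, α t = t) →
      p ^ 2 * Nat.card Q ∣ Fintype.card T) :
    ∃ G : Subgroup T → A → KW p k, (∀ Q, GOK φ D f i G Q) ∧ EqG φ D f G fun _ => True := by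
  obtain ⟨G, hG, he⟩ := (ind_gok3 hp2 h hφ hr hE hn).exists_fam
  exact ⟨G, fun Q => hG Q trivial, he⟩

/-- **the rows at `⊥`** -/
theorem exists_rows_bot3 (hp2 : p ≠ 2) (h : Src p b D f i) (hφ : Function.Injective φ)
    (hr : ∀ x, x ∈ D ↔ ∃ t, φ t = x) (hE : eN D f + 1 ≤ p)
    (hn : eN D f + 1 = p → ∀ Q : Subgroup T, (∀ α ∈ EG φ D f, ∀ t ∈ Q, α t = t) →
      p ^ 2 * Nat.card Q ∣ Fintype.card T)
    {B : MonoidAlgebra (OW p k) A} (hB : CenL b B) :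
    ∃ G : Subgroup T → A → KW p k, (∀ Q, GOK φ D f i G Q) ∧ Stp φ b D f i ⊥ G ∧
      GR φ b D f ⊥ G (G ⊥) ∧ Rows φ D f ⊥ G B fun χ => rwv φ G ⊥ (ch χ.1) := by
  classical
  obtain ⟨G, hG, he⟩ := exists_gfam3 hp2 h hφ hr hE hn
  have hcard : Nat.card (EG φ D f) = eN D f := card_EG hφ hr
  have := finite_EG (φ := φ) (D := D) (f := f)
  have hE0 : 0 < Nat.card (EG φ D f) := Nat.card_pos
  have hpE : ¬ p ∣ Nat.card (EG φ D f) := fun h1 => by
    have := Nat.le_of_dvd hE0 h1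
    omega
  have hS : Stp φ b D f i ⊥ G :=
    { src := h
      inj := hφ
      ran := hr
      cen := fun z hz a => by rw [Subgroup.mem_bot.1 hz, map_one, one_mul, mul_one]
      ok := fun Q _ => hG Q
      eqv := fun s hs α hα Q _ y => he s hs α hα Q trivial y }
  have hupd : upd G ⊥ (G ⊥) = G := by
    funext Q
    by_cases hQ : Q = ⊥
    · rw [hQ, upd_self]
    · rw [upd_ne _ _ hQ]
  have hGR : GR φ b D f ⊥ G (G ⊥) := (gr_iff hS _).1 (by rw [hupd]; exact hG ⊥)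
  have hrows := gram_full hS hpE hB hGR
  rw [hupd] at hrows
  exact ⟨G, hG, hS, hGR, hrows⟩

end

end Pool.Agent.Lib.P0c8ca5.Ex
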