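import Mathlib
import Pool.Agent.Lib.P0c8ca5Ex.ZVc
import Pool.Agent.Lib.P0c8ca5Ex.V2
import Pool.Agent.Lib.P0c8ca5Ex.V1e

/-!
# ZVd: the number of simple modules if `|E| < p`

* `l_le_lt_p`: for `p ≠ 2`, a block `b` with abelian defect group and inertial index `|E| < p` has
  at most `|E|` simple modules.
-/

set_option linter.unusedSectionVars false

namespace Pool.Agent.Lib.P0c8ca5.Ex

open MonoidAlgebra Finset Bq

section
variable {p : ℕ} [Fact p.Prime] {k : Type*} [Field k] [IsAlgClosed k] [CharP k p]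
  {A : Type*} [Group A] [Fintype A] {T : Type*} [CommGroup T] [Fintype T]
  {φ : T →* A} {b f i : MonoidAlgebra k A} {D : Subgroup A}

theorem l_le_src3 (hp2 : p ≠ 2) (h : Src p b D f i) (hE : eN D f + 1 = p)
    (hφ : Function.Injective φ) (hr : ∀ x, x ∈ D ↔ ∃ t, φ t = x) :
    Nat.card (Quotient (irrInvSetoid (⊤ : Subgroup A) ⊤ b)) ≤ eN D f := by
  by_cases hn : ∀ Q : Subgroup T, (∀ α ∈ EG φ D f, ∀ t ∈ Q, α t = t) →
      p ^ 2 * Nat.card Q ∣ Fintype.card T
  · have hb := h.root.blk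
    obtain ⟨B, hB⟩ := exists_cenL (p := p) hb.idem
      (fun g => invBy_iff_cj.1 hb.invBy g (Subgroup.mem_top g))
    obtain ⟨G, -, hS, -, hψ⟩ := exists_rows_bot3 hp2 h hφ hr hE.le (fun _ => hn) hB
    exact V1.l_le_rows hp2 hS hE hB hψ
  · exact l_le_ind' hp2 h hφ hr hE hn

end

section
variable {p : ℕ} [Fact p.Prime] {k : Type*} [Field k] [IsAlgClosed k] [CharP k p]
  {A : Type*} [Group A] [Fintype A] {b f : MonoidAlgebra k A} {D : Subgroup A}

/-- **the number of simple modules is at most `|E|` if `|E| < p`** -/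
theorem l_le_lt_p (hp2 : p ≠ 2) (h : Root p b D f) (hE : eN D f < p) :
    Nat.card (Quotient (irrInvSetoid (⊤ : Subgroup A) ⊤ b)) ≤ eN D f := by
  rcases Nat.lt_or_ge (eN D f + 1) p with h1 | h1
  · exact l_le_any2 hp2 h h1
  by_cases hD : D = ⊥
  · refine l_le hp2 h fun g _ u hu hu1 _ => ?_
    rw [hD, Subgroup.mem_bot] at hu
    exact absurd hu hu1
  · obtain ⟨i, hi⟩ := exists_src h
    let _ : CommGroup ↥D := cgrp D h.com
    let _ : Fintype ↥D := Fintype.ofFinite _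
    have hφ : Function.Injective (D.subtype : ↥D →* A) := Subtype.val_injective
    have hr : ∀ x, x ∈ D ↔ ∃ t, (D.subtype : ↥D →* A) t = x :=
      fun x => ⟨fun hx => ⟨⟨x, hx⟩, rfl⟩, by rintro ⟨t, rfl⟩; exact t.2⟩
    exact l_le_src3 hp2 hi (le_antisymm hE h1) hφ hr

/-- **the weight conjecture if `|E| < p`** -/
theorem gap_lt_p (hp2 : p ≠ 2) (h : Root p b D f) (hE : eN D f < p) :
    gap p (⊤ : Subgroup A) ⊤ b = 0 :=
  gap_zero_lt h hE (lt_of_le_of_lt (l_le_lt_p hp2 h hE) hE)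

end

end Pool.Agent.Lib.P0c8ca5.Ex
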