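import Mathlib
import Pool.Agent.Lib.P0c8ca5Ex.SF
import Pool.Agent.Lib.P0c8ca5Ex.ZVd
import Pool.Agent.Lib.P0c8ca5Kc.RM
import Pool.Agent.Lib.P0c8ca5Ex.ZQ
import Pool.Agent.Lib.P0c8ca5Ku.KT
import Pool.Agent.Lib.P0c8ca5Ku.KU

/-!
# SG: Navarro's conjecture for the groups all of whose almost simple sections have Sylow
p-subgroups with automizers of order less than `p`

* `baw_sw`: the weight conjecture for a block with a noncyclic defect group satisfying `Sw`;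
* `SwCond.red`: the reduction to almost quasi-simple groups;
* `sw_all`: blockwise form; `sw_global`: all blocks.
-/

set_option linter.unusedSectionVars false

namespace Pool.Agent.Lib.P0c8ca5.Ex

open MonoidAlgebra

universe u v

section
variable {p : ℕ} [Fact p.Prime] {k : Type v} [Field k] [IsAlgClosed k] [CharP k p]

theorem eN_le_auc {A : Type u} [Group A] [Fintype A] {b f : MonoidAlgebra k A} {D : Subgroup A}
    (h : Root p b D f) : eN D f ≤ auc p D := by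
  have hp : p.Prime := Fact.out
  have h1 : eN D f ∣ auc p D := by
    have h2 := eN_dvd h.fblk
    rw [← Nat.ordProj_mul_ordCompl_eq_self (au D) p] at h2
    refine Nat.Coprime.dvd_of_dvd_mul_left ?_ h2
    exact (Nat.Coprime.pow_left _ ((Nat.Prime.coprime_iff_not_dvd hp).2 (Ku.ndvd h))).symm
  refine Nat.le_of_dvd ?_ h1
  exact Nat.ordCompl_pos p (au_ne D)

/-- **the weight conjecture for a noncyclic defect group satisfying `Sw`** -/
theorem baw_sw {A : Type u} [Group A] [Finite A] {b : MonoidAlgebra k A} {D : Subgroup A}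
    (hb : IsBlock (⊤ : Subgroup A) b) (hD : IsDefectGroup p (⊤ : Subgroup A) b D)
    (hnc : ¬ IsCyclic D) (hs : Sw p D) : NavarroEq p ⊤ ⊤ b := by
  have : Fintype A := Fintype.ofFinite A
  rcases hs with hs | ⟨hp2, hcom, hs⟩
  · exact absurd hs hnc
  obtain ⟨f, hr⟩ := exists_root hb hD hcom
  have hle := eN_le_auc hr
  refine navarro_of_gap hb ?_
  have hbig : ∀ {r n : ℕ}, RkBig p r n D → Ku.Faith p n D f := fun hB =>
    Ku.faith_of_big hr fun x hx hxp => by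
      obtain ⟨y, hy, hyx⟩ := hB.2 x hx hxp
      exact ⟨y, hy, hyx.symm⟩
  rcases hs with hs | ⟨h5, hs, m, hm, hc⟩ | ⟨n, hs, hs'⟩ | ⟨r, j, hs, hs' | rfl⟩
  · exact gap_lt_p hp2 hr (lt_of_le_of_lt hle hs)
  · refine Kc.gap_zero_r2 (a := m) hp2 ⟨hr, hs, hm, hc, fun h6 => ?_⟩
    have h7 : p = 4 := by omega
    exact absurd (Fact.out : p.Prime) (by rw [h7]; decide)
  · rcases Nat.eq_zero_or_pos n with rfl | hn
    · rw [zero_add, pow_one] at hs'
      exact gap_lt_p hp2 hr (lt_of_le_of_lt hle hs')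
    · exact (k2_rank2n hp2 hr hs.1 hn (hbig hs) (lt_of_le_of_lt hle hs')).1
  · exact (Ku.large_small hp2 hr hs.1 (hle.trans hs') (hbig hs)).1
  · exact (Ku.large_rank hp2 hr hs.1 (hbig hs)).1

end

/-- the condition on `K`, its normal subgroup `M` and the set `𝓔` of subgroups -/
def SwCond (p : ℕ) {Γ : Type u} [Group Γ] (K M : Subgroup Γ) (𝓔 : Set (Subgroup Γ)) : Prop :=
  M ≤ K ∧ K ≤ Subgroup.normalizer (M : Set Γ) ∧ Ps.PSolv p ↥(sec K M) ∧
    ∀ (Y : Type u) [Group Y] [Finite Y], Alm p Y → ∀ (J : Subgroup Γ) (f : ↥J →* Y), J ≤ K →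
      Function.Surjective f → ∀ D : Subgroup Y, IsPGroup p D → Rdl p D →
        (∃ E ∈ 𝓔, D ≤ ((E ⊓ M).subgroupOf J).map f) → Sw p D

theorem SwCond.red {p : ℕ} [Fact p.Prime] {k : Type v} [Field k] [IsAlgClosed k] [CharP k p]
    {Γ : Type u} [Group Γ] {K M : Subgroup Γ} {𝓔 : Set (Subgroup Γ)} (h : SwCond p K M 𝓔) :
    Yy.RedCond4 p k K 𝓔 := by
  obtain ⟨h1, h2, h3, h4⟩ := h
  refine Gg.RedCondN.red (Gg.stepA p k) (Gg.stepB p k)
    ⟨M, h1, h2, h3, fun L _ _ b hb hq hnc hD => ?_⟩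
  obtain ⟨D, hD', hDc⟩ := hnc
  obtain ⟨E, hE, L', _, π, hπ, hπZ, hπp, J, f, hf, hJ⟩ := hD D hD'
  have hR : Jj.Rd p L := ⟨hb.core, hb.central⟩
  let ρ := QuotientGroup.mk' (Subgroup.center L)
  have hρ : Function.Surjective ρ := QuotientGroup.mk'_surjective _
  have hker : π.ker ≤ ρ.ker := by
    rw [QuotientGroup.ker_mk']
    exact hπZ
  let g : L' →* L ⧸ Subgroup.center L := π.liftOfSurjective hπ ⟨ρ, hker⟩
  have hg : ∀ x, g (π x) = ρ x := fun x => MonoidHom.liftOfRightInverse_comp_apply _ _ _ _ x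
  have hgs : Function.Surjective g := by
    intro y
    obtain ⟨x, rfl⟩ := hρ y
    exact ⟨π x, hg x⟩
  let κ : ↥(J.map K.subtype) ≃* ↥J := (J.equivMapOfInjective _ K.subtype_injective).symm
  have hsm : Sw p (D.map ρ) := by
    refine h4 (L ⧸ Subgroup.center L) (alm_of hq) (J.map K.subtype)
      (g.comp (f.comp κ.toMonoidHom)) ?_ (hgs.comp (hf.comp κ.surjective)) (D.map ρ)
      (hD'.isPGroup.map ρ) ((Rdl.of_defect hb.block hD').map hρ
        (by rw [QuotientGroup.ker_mk']) (by rw [QuotientGroup.ker_mk']; exact hR.not_dvd_center)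
        hD'.isPGroup) ⟨E, hE, ?_⟩
    · rintro _ ⟨x, _, rfl⟩
      exact x.2
    · rintro _ ⟨d, hd, rfl⟩
      obtain ⟨j, hj, hjd⟩ := hJ ⟨d, hd, rfl⟩
      have h5 := Subgroup.mem_subgroupOf.1 (Subgroup.mem_subgroupOf.1 hj)
      refine ⟨κ.symm j, ?_, ?_⟩
      · exact Subgroup.mem_subgroupOf.2 h5
      · change g (f (κ (κ.symm j))) = _
        rw [κ.apply_symm_apply, hjd, hg]
  have hsm' : Sw p D := hsm.of_map hρ (by rw [QuotientGroup.ker_mk'])
    (by rw [QuotientGroup.ker_mk']; exact hR.not_dvd_center) hD'.isPGroup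
  exact baw_sw hb.block hD' hDc hsm'

/-- **blockwise form** -/
theorem sw_all {p : ℕ} [Fact p.Prime] {k : Type v} [Field k] [IsAlgClosed k] [CharP k p]
    {Γ : Type u} [Group Γ] [Finite Γ] (G : Subgroup Γ) [G.Normal] (e : MonoidAlgebra k Γ)
    (hΓ : IsPGroup p (Γ ⧸ G)) (he : IsBlock G e) (hinv : InvBy ⊤ e) (M : Subgroup Γ)
    (hyp : SwCond p G M {E | IsDefectGroup p G e E}) :
    ∀ N H : Subgroup Γ, G ≤ N → N ≤ H → (∀ h ∈ H, ∀ n ∈ N, h * n * h⁻¹ ∈ N) →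
      ∀ b : MonoidAlgebra k Γ, IsBlock N b → b * e ≠ 0 → NavarroEq p N H b :=
  red_all G e hΓ he hinv hyp.red

/-- **all blocks of `G`** -/
theorem sw_global {p : ℕ} [Fact p.Prime] {k : Type v} [Field k] [IsAlgClosed k] [CharP k p]
    {Γ : Type u} [Group Γ] [Finite Γ] (G : Subgroup Γ) [G.Normal] (e : MonoidAlgebra k Γ)
    (hΓ : IsPGroup p (Γ ⧸ G)) (he : IsBlock G e) (hinv : InvBy ⊤ e)
    (hyp : ∀ (Y : Type u) [Group Y] [Finite Y], Alm p Y → ∀ (J : Subgroup Γ) (f : ↥J →* Y),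
      J ≤ G → Function.Surjective f → ∃ P : Subgroup Y, IsSyl p (⊤ : Subgroup Y) P ∧ SwSyl p P) :
    ∀ N H : Subgroup Γ, G ≤ N → N ≤ H → (∀ h ∈ H, ∀ n ∈ N, h * n * h⁻¹ ∈ N) →
      ∀ b : MonoidAlgebra k Γ, IsBlock N b → b * e ≠ 0 → NavarroEq p N H b := by
  refine sw_all G e hΓ he hinv G ⟨le_rfl, Subgroup.le_normalizer, Yy.psolv_sec_self p G, ?_⟩
  intro Y _ _ hY J f hJ hf D hD _ _
  obtain ⟨P, hP, hs⟩ := hyp Y hY J f hJ hf
  exact hs.all hP hD

end Pool.Agent.Lib.P0c8ca5.Ex
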