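import Mathlib
import Pool.Agent.Lib.P0c8ca5Ex.V1d

/-!
# T4a: the number of the invariant rows, stabilizers of lines of order less than `p - 1`

`E ≤ Aut(T)` a `p'`-group such that for every `u ≠ 1` the stabilizer `E_u` is trivial or fewer than `p - 1` elements of `E` leave
`⟨u⟩` invariant; rows `ψ i ∈ vir T` with the Gram matrix of the `E`-set `T`; `t` a generator of the units modulo `p ^ m`; `S` a set of
rows with `ψ i (u ^ t) = ψ i u`.

* `exists_eig`: a character `l ≠ 1` and the group `F` of the `α ∈ E` with `l ∘ α ∈ ⟨l⟩`: there is `u ≠ 1` with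
  `α u = u ^ (n ^ p ^ m)` if `l ∘ α = l ^ n`.
* `row4`: if `M i l ≠ 0`, `i ∈ S`, `l ≠ 1`, then `E_l = 1` and the orbit of `l` under `E` and `t` is the orbit under `E`.
* `fixed_count4`: there are `1 ∈ W ⊆ T`, pairwise not conjugate under `E`, with `E_v = 1` and `v ^ t ∈ E v` for `1 ≠ v ∈ W`, and
  `|S| + 1 ≤ |E| + |W|`.
-/

set_option linter.unusedSectionVars false

namespace Pool.Agent.Lib.P0c8ca5.Ex

open Finset YLx YZx ZFx ZFc V1x V1dx

namespace T4x

/-- the Teichmueller powers -/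
theorem teich {p : ℕ} {a c : ℕ} (h : a ≡ c [MOD p]) (m : ℕ) : a ^ p ^ m ≡ c ^ p ^ m [MOD p ^ m] := by
  have h1 : ((p : ℕ) : ℤ) ∣ (c : ℤ) - (a : ℤ) := Nat.modEq_iff_dvd.1 h
  have h2 := dvd_sub_pow_of_dvd_sub h1 m
  refine Nat.modEq_iff_dvd.2 ?_
  push_cast
  exact (pow_dvd_pow _ (Nat.le_succ m)).trans h2

section
variable {T : Type*} [CommGroup T] [Fintype T]

/-- the number of the elements of `E` which leave `⟨u⟩` invariant -/
noncomputable def nz (E : Subgroup (MulAut T)) (u : T) : ℕ :=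
  Nat.card {α : E // ∃ n : ℕ, (α : MulAut T) u = u ^ n}

theorem pow_of_mod {N : ℕ} (hT : ∀ u : T, u ^ N = 1) (u : T) {a c : ℕ} (h : a ≡ c [MOD N]) :
    u ^ a = u ^ c :=
  pow_eq_pow_iff_modEq.2 (h.of_dvd (orderOf_dvd_of_pow_eq_one (hT u)))

/-- the powers of an element of `E` with `α u = u ^ t` -/
theorem nz_ge {p : ℕ} (hp : p.Prime) {m t : ℕ} (hTm : ∀ u : T, u ^ p ^ m = 1)
    (htp : t.Coprime p) (ht : ∀ n : ℕ, 0 < n → p ∣ t ^ n - 1 → p - 1 ≤ n)
    {E : Subgroup (MulAut T)} [Finite E] {u : T} (hu : u ≠ 1)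
    {α : MulAut T} (hα : α ∈ E) (hαu : α u = u ^ t) : p - 1 ≤ nz E u := by
  classical
  have hit : ∀ j : ℕ, (α ^ j) u = u ^ t ^ j := by
    intro j
    induction j with
    | zero => rw [pow_zero, pow_zero, pow_one]; rfl
    | succ j ih => rw [pow_succ', MulAut.mul_apply, ih, map_pow, hαu, ← pow_mul, pow_succ']
  let f : Fin (p - 1) → {α : E // ∃ n : ℕ, (α : MulAut T) u = u ^ n} := fun j =>
    ⟨⟨α ^ (j : ℕ), E.pow_mem hα _⟩, t ^ (j : ℕ), hit j⟩
  have hf : Function.Injective f := by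
    intro j j' h
    have h1 : α ^ (j : ℕ) = α ^ (j' : ℕ) := congrArg (fun x => ((x.1 : E) : MulAut T)) h
    have h2 : u ^ t ^ (j : ℕ) = u ^ t ^ (j' : ℕ) := by rw [← hit, ← hit, h1]
    exact Fin.ext (elt_inj hp hTm htp ht hu j.2 j'.2 h2)
  have h5 := Nat.card_le_card_of_injective f hf
  rwa [Nat.card_eq_fintype_card (α := Fin (p - 1)), Fintype.card_fin] at h5

end

section
variable {T : Type*} [CommGroup T] [Fintype T] {K : Type*} [Field K] [CharZero K]
  [HasEnoughRootsOfUnity K (Monoid.exponent T)]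

theorem p_dvd_od {p : ℕ} (hp : p.Prime) (hT : IsPGroup p T) {l : T →* Kˣ} (hl : l ≠ 1) :
    p ∣ od l := by
  obtain ⟨a, ha⟩ := od_pow hp hT l
  rcases a with _ | a
  · exfalso
    apply hl
    rw [pow_zero] at ha
    have h1 : pw l 1 = pw l 0 := pw_eq_iff.2 (by rw [ha]; exact Nat.modEq_one)
    rw [pw_one] at h1
    rw [h1]
    ext u
    rw [pw_apply, pow_zero, map_one, MonoidHom.one_apply]
  · rw [ha]
    exact dvd_pow_self p (Nat.succ_ne_zero a)

theorem pw_ne {p : ℕ} (hp : p.Prime) (hT : IsPGroup p T) {l : T →* Kˣ} (hl : l ≠ 1) {n : ℕ}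
    (hn : n.Coprime p) : pw l n ≠ 1 := by
  intro h
  have h1 : pw l n = pw l 0 := by
    rw [h]
    ext u
    rw [pw_apply, pow_zero, map_one, MonoidHom.one_apply]
  have h2 := (Nat.modEq_zero_iff_dvd).1 (pw_eq_iff.1 h1)
  have h3 := Nat.dvd_gcd ((p_dvd_od hp hT hl).trans h2) (dvd_refl p)
  rw [hn] at h3
  exact hp.one_lt.ne' (Nat.dvd_one.1 h3)

/-- an element with the stabilizer of the line of a character -/
theorem exists_eig {p : ℕ} (hp : p.Prime) (hT : IsPGroup p T) {E : Subgroup (MulAut T)}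
    (hpE : ¬ p ∣ Nat.card E) {m : ℕ} (hTm : ∀ u : T, u ^ p ^ m = 1) {l : T →* Kˣ} (hl : l ≠ 1) :
    ∃ u : T, u ≠ 1 ∧ ∀ α ∈ E, ∀ n, dl l α = pw l n → α u = u ^ n ^ p ^ m := by
  classical
  have hfinA : Finite (MulAut T) := Finite.of_injective (fun φ : MulAut T => (φ : T → T))
      (fun a b h => MulEquiv.ext fun x => congrFun h x)
  -- the stabilizer
  let F : Subgroup (MulAut T) :=
    { carrier := {α | α ∈ E ∧ ∃ n, dl l α = pw l n}
      mul_mem' := by
        rintro a b ⟨ha, n, hn⟩ ⟨hb, n', hn'⟩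
        exact ⟨E.mul_mem ha hb, n' * n, by rw [dl_mul, hn, dl_pw, hn', ← pw_mul]⟩
      one_mem' := ⟨E.one_mem, 1, by rw [dl_one, pw_one]⟩
      inv_mem' := by
        rintro a ⟨ha, n, hn⟩
        have key : ∀ j : ℕ, dl l (a ^ j) = pw l (n ^ j) := by
          intro j
          induction j with
          | zero => rw [pow_zero, pow_zero, dl_one, pw_one]
          | succ j ih => rw [pow_succ, dl_mul, ih, dl_pw, hn, ← pw_mul, pow_succ']
        refine ⟨E.inv_mem ha, n ^ (Nat.card (MulAut T) - 1), ?_⟩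
        have h1 : a ^ (Nat.card (MulAut T) - 1) * a = 1 := by
          rw [← pow_succ, Nat.sub_add_cancel Nat.card_pos, pow_card_eq_one']
        rw [inv_eq_of_mul_eq_one_left h1, key] }
  have hFm : ∀ α, α ∈ F ↔ α ∈ E ∧ ∃ n, dl l α = pw l n := fun α => Iff.rfl
  have hfin : Finite F := inferInstance
  have := Fintype.ofFinite F
  have hc := fun α : F => α.2.2
  choose c hc using hc
  have hpo := p_dvd_od hp hT hl
  have hc1 : ∀ α β : F, c (α * β) ≡ c β * c α [MOD p] := by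
    intro α β
    refine Nat.ModEq.of_dvd hpo (pw_eq_iff.1 ?_)
    rw [← hc, Subgroup.coe_mul, dl_mul, hc, dl_pw, hc, ← pw_mul]
  have hc0 : c 1 ≡ 1 [MOD p] := by
    refine Nat.ModEq.of_dvd hpo (pw_eq_iff.1 ?_)
    rw [← hc, Subgroup.coe_one, dl_one, pw_one]
  set c' : F → ℕ := fun α => c α ^ p ^ m with hc'
  have hc2 : ∀ α β : F, c' (α * β) ≡ c' β * c' α [MOD p ^ m] := by
    intro α β
    have h1 := teich (hc1 α β) m
    rwa [mul_pow] at h1
  obtain ⟨x, hx⟩ : ∃ x, l x ≠ 1 := by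
    by_contra h
    push Not at h
    exact hl (MonoidHom.ext h)
  set u : T := ∏ β : F, ((β : MulAut T) x) ^ c' β⁻¹ with hu
  have hFu : ∀ α : F, (α : MulAut T) u = u ^ c' α := by
    intro α
    rw [hu, map_prod, ← Finset.prod_pow]
    refine Fintype.prod_equiv (Equiv.mulLeft α) _ _ fun β => ?_
    rw [Equiv.coe_mulLeft, map_pow, Subgroup.coe_mul, MulAut.mul_apply, ← pow_mul]
    refine pow_of_mod hTm _ ?_
    have h1 := hc2 (α * β)⁻¹ α
    rw [mul_inv_rev, inv_mul_cancel_right] at h1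
    rw [mul_inv_rev, mul_comm]
    exact h1
  have hlu : l u = l x ^ ∑ β : F, c β * c' β⁻¹ := by
    rw [hu, map_prod, ← Finset.prod_pow_eq_pow_sum]
    refine prod_congr rfl fun β _ => ?_
    rw [map_pow]
    have h1 : l ((β : MulAut T) x) = l x ^ c β := by
      have h2 := DFunLike.congr_fun (hc β) x
      rw [pw_apply, map_pow] at h2
      exact h2
    rw [h1, pow_mul]
  have hsum : ∑ β : F, c β * c' β⁻¹ ≡ Fintype.card F [MOD p] := by
    have h1 : ∀ β : F, c β * c' β⁻¹ ≡ 1 [MOD p] := by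
      intro β
      have hF : Fact p.Prime := ⟨hp⟩
      have h2 : c' β⁻¹ ≡ c β⁻¹ [MOD p] := by
        rw [← ZMod.natCast_eq_natCast_iff, hc', Nat.cast_pow, ZMod.pow_card_pow]
      have h3 := hc1 β⁻¹ β
      rw [inv_mul_cancel] at h3
      exact (Nat.ModEq.mul_left _ h2).trans (h3.symm.trans hc0)
    have h2 : ∑ β : F, c β * c' β⁻¹ ≡ ∑ _β : F, 1 [MOD p] := by
      rw [← ZMod.natCast_eq_natCast_iff, Nat.cast_sum, Nat.cast_sum]
      exact sum_congr rfl fun β _ => (ZMod.natCast_eq_natCast_iff _ _ _).2 (h1 β)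
    rwa [sum_const, smul_eq_mul, mul_one, card_univ] at h2
  have hcop : (∑ β : F, c β * c' β⁻¹).Coprime (p ^ m) := by
    refine Nat.Coprime.pow_right m ((Nat.coprime_comm).1 (hp.coprime_iff_not_dvd.2 fun h1 => ?_))
    apply hpE
    have h2 : p ∣ Fintype.card F := (Nat.ModEq.dvd_iff hsum (dvd_refl p)).1 h1
    rw [← Nat.card_eq_fintype_card] at h2
    exact h2.trans (Subgroup.card_dvd_of_le fun α hα => hα.1)
  refine ⟨u, fun h1 => ?_, fun α hα n hn => ?_⟩
  · rw [h1, map_one] at hlu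
    apply hx
    have h2 : orderOf (l x) ∣ ∑ β : F, c β * c' β⁻¹ := orderOf_dvd_of_pow_eq_one hlu.symm
    have h3 : orderOf (l x) ∣ p ^ m := orderOf_dvd_of_pow_eq_one (by rw [← map_pow, hTm, map_one])
    exact orderOf_eq_one_iff.1 (Nat.dvd_one.1 (hcop ▸ Nat.dvd_gcd h2 h3))
  · have h1 := hFu ⟨α, hα, n, hn⟩
    have h2 : c ⟨α, hα, n, hn⟩ ≡ n [MOD p] := by
      refine Nat.ModEq.of_dvd hpo (pw_eq_iff.1 ?_)
      rw [← hc, hn]
    change α u = _ at h1
    rw [h1]
    exact pow_of_mod hTm _ (teich h2 m)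

open Classical in
/-- the number of the elements of `E` which leave `⟨l⟩` invariant -/
noncomputable def nzl (E : Subgroup (MulAut T)) [Fintype E] (l : T →* Kˣ) : ℕ :=
  (univ.filter fun α : E => ∃ n : ℕ, dl l (α : MulAut T) = pw l n).card

open Classical in
/-- the size of the orbit of a character -/
theorem orb_card_ge {p : ℕ} (hp : p.Prime) {E : Subgroup (MulAut T)} [Fintype E] {m t : ℕ}
    (hTm : ∀ u : T, u ^ p ^ m = 1) (htp : t.Coprime p)
    (ht : ∀ n : ℕ, 0 < n → p ∣ t ^ n - 1 → p - 1 ≤ n) {l : T →* Kˣ} (hl : l ≠ 1) :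
    Fintype.card E * (p - 1) ≤ nzl E l * (univ.filter (Orb E t l)).card := by
  set f : E × Fin (p - 1) → (T →* Kˣ) := fun x => pw (dl l (x.1 : MulAut T)) (t ^ (x.2 : ℕ)) with hf
  have h1 := Finset.card_le_mul_card_image (f := f) (univ : Finset (E × Fin (p - 1))) (nzl E l) (by
    intro a ha
    obtain ⟨⟨α₀, j₀⟩, -, rfl⟩ := mem_image.1 ha
    unfold nzl
    refine card_le_card_of_injOn (fun x => x.1 * α₀⁻¹) ?_ ?_
    · rintro ⟨α, j⟩ hx
      have h2 : pw (dl l (α : MulAut T)) (t ^ (j : ℕ)) = pw (dl l (α₀ : MulAut T)) (t ^ (j₀ : ℕ)) :=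
        (mem_filter.1 hx).2
      refine mem_filter.2 ⟨mem_univ _, ?_⟩
      have h3 := congrArg (fun l' => dl l' ((α₀ : MulAut T))⁻¹) h2
      simp only [dl_pw, ← dl_mul] at h3
      rw [mul_inv_cancel, dl_one] at h3
      obtain ⟨s, hs⟩ : ∃ s, t ^ (j : ℕ) * s ≡ 1 [MOD p ^ m] := by
        have h4 : (t ^ (j : ℕ)).Coprime (p ^ m) := Nat.Coprime.pow _ _ htp
        obtain ⟨s, hs⟩ := Nat.exists_mul_mod_eq_of_coprime 1 h4 (pow_pos hp.pos m).ne'
        exact ⟨s, hs.2⟩
      refine ⟨t ^ (j₀ : ℕ) * s, ?_⟩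
      have h4 := congrArg (fun l' => pw l' s) h3
      simp only [← pw_mul] at h4
      rw [← h4]
      change dl l ((α : MulAut T) * (α₀ : MulAut T)⁻¹) = _
      ext v
      rw [pw_apply, pow_of_mod hTm v hs, pow_one]
    · rintro ⟨α, j⟩ hx ⟨α', j'⟩ hx' h2
      have h3 : α = α' := mul_right_cancel h2
      subst h3
      have h4 : pw (dl l (α : MulAut T)) (t ^ (j : ℕ)) = pw (dl l (α₀ : MulAut T)) (t ^ (j₀ : ℕ)) :=
        (mem_filter.1 hx).2
      have h5 : pw (dl l (α : MulAut T)) (t ^ (j' : ℕ)) = pw (dl l (α₀ : MulAut T)) (t ^ (j₀ : ℕ)) :=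
        (mem_filter.1 hx').2
      have h6 : dl l (α : MulAut T) ≠ 1 := dl_ne l _ hl
      have h7 := pow_inj hp hTm htp ht h6 j.2 j'.2 (h4.trans h5.symm)
      rw [Fin.ext h7])
  rw [card_univ, Fintype.card_prod, Fintype.card_fin] at h1
  refine h1.trans (Nat.mul_le_mul_left _ (card_le_card ?_))
  intro l' hl'
  obtain ⟨x, -, rfl⟩ := mem_image.1 hl'
  exact mem_filter.2 ⟨mem_univ _, orb_pw (orb_dl (orb_self E t l) x.1.2) _⟩

end

end T4x

open T4x

section
variable {T : Type*} [CommGroup T] [Fintype T] {K : Type*} [Field K] [CharZero K]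
  [HasEnoughRootsOfUnity K (Monoid.exponent T)]

open Classical in
/-- the norm of the invariant rows at a character -/
theorem orb_norm {p : ℕ} (hp : p.Prime) (hT : IsPGroup p T) {E : Subgroup (MulAut T)} [Fintype E]
    {I : Type*} [Fintype I] {ψ : I → T → K}
    (hG : ∀ u v, GramR E ⊥ ψ u v) {M : I → (T →* Kˣ) → ℤ}
    (hM : ∀ i l, mlt (ψ i) l = (M i l : K)) {t : ℕ} (htp : t.Coprime p) (S : Finset I)
    (hS : ∀ i ∈ S, ∀ u, ψ i (u ^ t) = ψ i u) (l : T →* Kˣ) :
    (∀ j ∈ S, ∀ l', Orb E t l l' → M j l' = M j l) ∧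
      ((univ.filter (Orb E t l)).card : ℤ) * ∑ j ∈ S, M j l ^ 2 ≤ Fintype.card E := by
  have hgram : ∀ a c : T →* Kˣ, ∑ i, M i a * M i c = (cn E a c : ℤ) := by
    intro a c
    have h1 := gram_bot hG a c
    simp only [hM] at h1
    exact_mod_cast h1
  have hcop : (Nat.card T).Coprime t := by
    have hF : Fact p.Prime := ⟨hp⟩
    obtain ⟨n, hn⟩ := IsPGroup.iff_card.1 hT
    rw [hn]
    exact Nat.Coprime.pow_left n htp.symm
  have hMS : ∀ j ∈ S, ∀ l', Orb E t l l' → M j l' = M j l := by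
    rintro j hj _ ⟨α, hα, n, rfl⟩
    have h4 := mlt_pow_pow hcop (hS j hj) (dl l α) n
    rw [hM, hM] at h4
    have h5 : M j (pw (dl l α) (t ^ n)) = M j (dl l α) := by exact_mod_cast h4
    rw [h5, M_dl hgram hα]
  refine ⟨hMS, ?_⟩
  set O : Finset (T →* Kˣ) := univ.filter (Orb E t l) with hO
  have hmO : ∀ {l'}, l' ∈ O ↔ Orb E t l l' := fun {l'} => by
    rw [hO, mem_filter]
    exact ⟨fun h => h.2, fun h => ⟨mem_univ _, h⟩⟩
  set Y : I → ℤ := fun j => ∑ μ ∈ O, M j μ with hY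
  have hYl : ∀ l', ∑ j, Y j * M j l' = if Orb E t l l' then (Fintype.card E : ℤ) else 0 := by
    intro l'
    have h1 : ∀ j, Y j * M j l' = ∑ μ ∈ O, M j μ * M j l' := fun j => by rw [hY, sum_mul]
    rw [sum_congr rfl fun j _ => h1 j, sum_comm, sum_congr rfl fun μ _ => hgram μ l']
    have h2 := sum_cn (E := E) (t := t) (l := l) (l' := l')
    rw [← Nat.cast_sum, h2]
    split_ifs <;> simp
  have hYY : ∑ j, Y j ^ 2 = (O.card : ℤ) * Fintype.card E := by
    have h1 : ∀ j, Y j ^ 2 = ∑ μ ∈ O, Y j * M j μ := fun j => by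
      rw [sq, ← mul_sum]
    rw [sum_congr rfl fun j _ => h1 j, sum_comm, sum_congr rfl fun μ hμ => by
      rw [hYl μ, if_pos (hmO.1 hμ)]]
    rw [sum_const, nsmul_eq_mul]
  have hYS : ∀ j ∈ S, Y j = (O.card : ℤ) * M j l := by
    intro j hj
    rw [hY]
    simp only
    rw [sum_congr rfl fun μ hμ => hMS j hj μ (hmO.1 hμ), sum_const, nsmul_eq_mul]
  have hOpos : (0 : ℤ) < O.card := by
    have h1 : 0 < O.card := card_pos.2 ⟨l, hmO.2 (orb_self E t l)⟩
    exact_mod_cast h1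
  have h1 : ∑ j ∈ S, Y j ^ 2 ≤ ∑ j, Y j ^ 2 :=
    sum_le_sum_of_subset_of_nonneg (subset_univ S) fun j _ _ => sq_nonneg _
  rw [hYY, sum_congr rfl fun j hj => by rw [hYS j hj]] at h1
  have h2 : ∑ j ∈ S, ((O.card : ℤ) * M j l) ^ 2
      = (O.card : ℤ) * ((O.card : ℤ) * ∑ j ∈ S, M j l ^ 2) := by
    rw [mul_sum, mul_sum]
    exact sum_congr rfl fun j _ => by ring
  rw [h2] at h1
  exact le_of_mul_le_mul_left h1 hOpos

open Classical in
/-- **the invariant rows** -/
theorem row4 {p : ℕ} (hp : p.Prime) (hT : IsPGroup p T) {E : Subgroup (MulAut T)} [Fintype E]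
    (hpE : ¬ p ∣ Nat.card E) (hH : ∀ u : T, u ≠ 1 → st E u = 1 ∨ nz E u + 1 < p)
    {I : Type*} [Fintype I] {ψ : I → T → K}
    (hG : ∀ u v, GramR E ⊥ ψ u v) {M : I → (T →* Kˣ) → ℤ}
    (hM : ∀ i l, mlt (ψ i) l = (M i l : K)) {m t : ℕ}
    (hTm : ∀ u : T, u ^ p ^ m = 1) (htp : t.Coprime p)
    (ht : ∀ n : ℕ, 0 < n → p ∣ t ^ n - 1 → p - 1 ≤ n) (S : Finset I)
    (hS : ∀ i ∈ S, ∀ u, ψ i (u ^ t) = ψ i u) {i : I} (hi : i ∈ S) {l : T →* Kˣ} (hl : l ≠ 1)
    (hMl : M i l ≠ 0) :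
    (∀ j ∈ S, M j l ≠ 0 → j = i) ∧ (∀ l', Orb E t l l' → M i l' = M i l) ∧
      (univ.filter (Orb E t l)).card = Nat.card E ∧ (∀ l', Orb E t l l' → l' ≠ 1) ∧
      ∀ α ∈ E, ∀ β ∈ E, dl l α = dl l β → α = β := by
  have hcE : Nat.card E = Fintype.card E := Nat.card_eq_fintype_card
  obtain ⟨hMS, hle⟩ := orb_norm hp hT hG hM htp S hS l
  set O : Finset (T →* Kˣ) := univ.filter (Orb E t l) with hO
  have hlO : l ∈ O := mem_filter.2 ⟨mem_univ _, orb_self E t l⟩
  have hM1 : 1 ≤ M i l ^ 2 := by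
    have := sq_pos_of_ne_zero hMl
    omega
  have hSi : M i l ^ 2 ≤ ∑ j ∈ S, M j l ^ 2 :=
    single_le_sum (f := fun j => M j l ^ 2) (fun j _ => sq_nonneg _) hi
  have hOE : O.card ≤ Fintype.card E := by
    have h1 : (O.card : ℤ) * 1 ≤ (O.card : ℤ) * ∑ j ∈ S, M j l ^ 2 :=
      mul_le_mul_of_nonneg_left (hM1.trans hSi) (Nat.cast_nonneg _)
    rw [mul_one] at h1
    exact_mod_cast h1.trans hle
  -- the eigenvector
  obtain ⟨u, hu1, hu⟩ := exists_eig hp hT hpE hTm hl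
  have hnz : nzl E l ≤ nz E u := by
    unfold nzl nz
    rw [Nat.card_eq_fintype_card, Fintype.card_subtype]
    refine card_le_card fun α hα => ?_
    obtain ⟨-, n, hn⟩ := mem_filter.1 hα
    exact mem_filter.2 ⟨mem_univ _, _, hu α α.2 n hn⟩
  have hst : st E u = 1 := by
    rcases hH u hu1 with h1 | h1
    · exact h1
    · exfalso
      have h2 := orb_card_ge (E := E) hp hTm htp ht hl
      have h3 : nzl E l * O.card ≤ nz E u * Fintype.card E := Nat.mul_le_mul hnz hOE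
      have h4 : Fintype.card E * (p - 1) ≤ Fintype.card E * nz E u := by
        rw [mul_comm (Fintype.card E) (nz E u)]
        exact h2.trans h3
      have h5 := Nat.le_of_mul_le_mul_left h4 Fintype.card_pos
      omega
  have hinj : ∀ α ∈ E, ∀ β ∈ E, dl l α = dl l β → α = β := by
    intro α hα β hβ hαβ
    have h1 : dl l (α * β⁻¹) = pw l 1 := by
      rw [dl_mul, hαβ, ← dl_mul, mul_inv_cancel, dl_one, pw_one]
    have h2 := hu _ (E.mul_mem hα (E.inv_mem hβ)) 1 h1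
    rw [one_pow, pow_one] at h2
    rw [st, Nat.card_eq_one_iff_unique] at hst
    obtain ⟨h3, -⟩ := hst
    have h4 := congrArg (fun a => ((a : {φ : E // (φ : MulAut T) u = u}).1 : MulAut T))
      (h3.elim ⟨⟨α * β⁻¹, E.mul_mem hα (E.inv_mem hβ)⟩, h2⟩ ⟨1, rfl⟩)
    exact mul_inv_eq_one.1 h4
  have hOge : Fintype.card E ≤ O.card := by
    have h1 : (univ.image fun α : E => dl l (α : MulAut T)) ⊆ O := by
      intro l' h2
      obtain ⟨α, -, rfl⟩ := mem_image.1 h2
      exact mem_filter.2 ⟨mem_univ _, orb_dl (orb_self E t l) α.2⟩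
    have h2 := card_le_card h1
    rwa [card_image_of_injective _ fun α β hαβ => Subtype.ext (hinj α α.2 β β.2 hαβ),
      card_univ] at h2
  have hOc : O.card = Fintype.card E := le_antisymm hOE hOge
  have hEpos : (0 : ℤ) < Fintype.card E := by exact_mod_cast Fintype.card_pos (α := E)
  have hS1 : ∑ j ∈ S, M j l ^ 2 ≤ 1 := by
    rw [hOc] at hle
    refine le_of_mul_le_mul_left ?_ hEpos
    rw [mul_one]
    exact hle
  refine ⟨?_, hMS i hi, by rw [hOc, hcE], ?_, hinj⟩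
  · intro j hj hjl
    by_contra hji
    have h1 : M j l ^ 2 + M i l ^ 2 ≤ ∑ j ∈ S, M j l ^ 2 := by
      rw [← sum_pair (f := fun j => M j l ^ 2) hji]
      refine sum_le_sum_of_subset_of_nonneg ?_ fun _ _ _ => sq_nonneg _
      intro x hx
      rcases mem_insert.1 hx with rfl | hx
      · exact hj
      · rw [mem_singleton.1 hx]
        exact hi
    have h2 := sq_pos_of_ne_zero hjl
    omega
  · rintro _ ⟨α, hα, j, rfl⟩
    exact pw_ne hp hT (dl_ne l α hl) (Nat.Coprime.pow_left j htp)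

/-- **the number of the invariant rows** -/
theorem fixed_count4 {p : ℕ} (hp : p.Prime) (hT : IsPGroup p T) {E : Subgroup (MulAut T)}
    (hpE : ¬ p ∣ Nat.card E) (hH : ∀ u : T, u ≠ 1 → st E u = 1 ∨ nz E u + 1 < p)
    {I : Type*} [Fintype I] {ψ : I → T → K}
    (hψ : ∀ i, ψ i ∈ vir T K) (hG : ∀ u v, GramR E ⊥ ψ u v) {m t : ℕ}
    (hTm : ∀ u : T, u ^ p ^ m = 1) (htp : t.Coprime p)
    (ht : ∀ n : ℕ, 0 < n → p ∣ t ^ n - 1 → p - 1 ≤ n) (S : Finset I)
    (hS : ∀ i ∈ S, ∀ u, ψ i (u ^ t) = ψ i u) (hne : ∀ i ∈ S, ∃ u, ψ i u ≠ 0) :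
    ∃ W : Finset T, 1 ∈ W ∧ (∀ v ∈ W, ∀ v' ∈ W, v ≠ v' → ¬ ∃ α ∈ E, v' = α v) ∧
      (∀ v ∈ W, v ≠ 1 → st E v = 1 ∧ ∃ α ∈ E, α v = v ^ t) ∧
      S.card + 1 ≤ Nat.card E + W.card := by
  classical
  have hfinA : Finite (MulAut T) := Finite.of_injective (fun φ : MulAut T => (φ : T → T))
      (fun a b h => MulEquiv.ext fun x => congrFun h x)
  have : Fintype E := Fintype.ofFinite _
  have hcE : Nat.card E = Fintype.card E := Nat.card_eq_fintype_card
  have hEpos : 0 < Fintype.card E := Fintype.card_pos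
  choose M hM using fun i => mem_vir_iff.1 (hψ i)
  have hgram : ∀ a c : T →* Kˣ, ∑ i, M i a * M i c = (cn E a c : ℤ) := by
    intro a c
    have h1 := gram_bot hG a c
    simp only [hM] at h1
    exact_mod_cast h1
  have hrow : ∀ i ∈ S, ∀ l : T →* Kˣ, l ≠ 1 → M i l ≠ 0 →
      (∀ j ∈ S, M j l ≠ 0 → j = i) ∧ (∀ l', Orb E t l l' → M i l' = M i l) ∧
      (univ.filter (Orb E t l)).card = Nat.card E ∧ (∀ l', Orb E t l l' → l' ≠ 1) ∧
      ∀ α ∈ E, ∀ β ∈ E, dl l α = dl l β → α = β := fun i hi l hl hMl =>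
    row4 hp hT hpE hH hG hM hTm htp ht S hS hi hl hMl
  have hstX : ∀ u : T, u ≠ 1 → ∀ α ∈ E, α u = u ^ t → st E u = 1 := by
    intro u hu α hα hαu
    rcases hH u hu with h1 | h1
    · exact h1
    · have h2 := nz_ge hp hTm htp ht hu hα hαu
      omega
  -- the rows without the trivial character
  set S1 := S.filter fun i => M i 1 = 0 with hS1
  have hS1m : ∀ i ∈ S1, i ∈ S ∧ M i 1 = 0 := fun i hi => mem_filter.1 hi
  have hex : ∀ i : I, ∃ l : T →* Kˣ, i ∈ S1 → l ≠ 1 ∧ M i l ≠ 0 := by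
    intro i
    by_cases hi : i ∈ S1
    · obtain ⟨hiS, hi1⟩ := hS1m i hi
      obtain ⟨u, hu⟩ := hne i hiS
      rw [eq_sum_mlt (ψ i) u] at hu
      obtain ⟨l, -, hl⟩ := exists_ne_zero_of_sum_ne_zero hu
      have h1 : M i l ≠ 0 := by
        intro h2
        apply hl
        rw [hM, h2, Int.cast_zero, zero_mul]
      exact ⟨l, fun _ => ⟨fun h2 => h1 (h2 ▸ hi1), h1⟩⟩
    · exact ⟨1, fun h => absurd h hi⟩
  choose L hL using hex
  have hcard0 : S.card ≤ Nat.card E + S1.card := by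
    have h1 : (S.filter fun i => ¬ M i 1 = 0).card ≤ Nat.card E := by
      have h2 : ((S.filter fun i => ¬ M i 1 = 0).card : ℤ) ≤ (cn E (1 : T →* Kˣ) 1 : ℤ) := by
        rw [← hgram, card_eq_sum_ones, Nat.cast_sum]
        refine (sum_le_sum (g := fun i => M i 1 * M i 1) fun i hi => ?_).trans
          (sum_le_sum_of_subset_of_nonneg (subset_univ _) fun i _ _ => mul_self_nonneg _)
        have h3 := (mem_filter.1 hi).2
        have h4 := mul_self_pos.2 h3
        push_cast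
        omega
      have h3 : cn E (1 : T →* Kˣ) 1 ≤ Fintype.card E := by
        unfold cn
        exact card_le_univ _
      rw [hcE]
      have h4 : (S.filter fun i => ¬ M i 1 = 0).card ≤ cn E (1 : T →* Kˣ) 1 := by exact_mod_cast h2
      exact h4.trans h3
    have h2 := card_filter_add_card_filter_not (s := S) (p := fun i => M i 1 = 0)
    rw [← h2, ← hS1]
    omega
  -- the characters conjugate to their powers
  set X' : Finset (T →* Kˣ) := univ.filter fun l => l ≠ 1 ∧ ∃ α ∈ E, dl l α = pw l t with hX'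
  have hOX : ∀ i ∈ S1, univ.filter (Orb E t (L i)) ⊆ X' := by
    intro i hi l hl
    obtain ⟨hiS, -⟩ := hS1m i hi
    obtain ⟨hL1, hLM⟩ := hL i hi
    have hl' := (mem_filter.1 hl).2
    obtain ⟨-, hMo, hOc, hO1, -⟩ := hrow i hiS (L i) hL1 hLM
    have hl1 := hO1 l hl'
    have hlM : M i l ≠ 0 := by rw [hMo l hl']; exact hLM
    obtain ⟨-, -, -, -, hinj⟩ := hrow i hiS l hl1 hlM
    have h1 : (univ.image fun α : E => dl l (α : MulAut T)) = univ.filter (Orb E t (L i)) := by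
      refine eq_of_subset_of_card_le ?_ ?_
      · intro l' h2
        obtain ⟨α, -, rfl⟩ := mem_image.1 h2
        exact mem_filter.2 ⟨mem_univ _, orb_dl hl' α.2⟩
      · rw [hOc, card_image_of_injective _ fun α β hαβ => Subtype.ext (hinj α α.2 β β.2 hαβ),
          card_univ, ← hcE]
    have h2 : pw l t ∈ univ.image fun α : E => dl l (α : MulAut T) := by
      rw [h1]
      refine mem_filter.2 ⟨mem_univ _, ?_⟩
      have h3 := orb_pw hl' 1
      rwa [pow_one] at h3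
    obtain ⟨α, -, hα⟩ := mem_image.1 h2
    exact mem_filter.2 ⟨mem_univ _, hl1, α, α.2, hα⟩
  have hX'c : S1.card * Fintype.card E ≤ X'.card := by
    have h1 : (S1.biUnion fun i => univ.filter (Orb E t (L i))).card
        = ∑ i ∈ S1, (univ.filter (Orb E t (L i))).card := by
      refine card_biUnion fun i hi j hj hij => ?_
      rw [Function.onFun, Finset.disjoint_left]
      intro l hl1 hl2
      apply hij
      obtain ⟨hiS, -⟩ := hS1m i hi
      obtain ⟨hjS, -⟩ := hS1m j hj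
      obtain ⟨hL1, hLM⟩ := hL i hi
      obtain ⟨hL1', hLM'⟩ := hL j hj
      have hl1' := (mem_filter.1 hl1).2
      have hl2' := (mem_filter.1 hl2).2
      obtain ⟨-, hMo, -, hO1, -⟩ := hrow i hiS (L i) hL1 hLM
      obtain ⟨-, hMo', -, -, -⟩ := hrow j hjS (L j) hL1' hLM'
      have h3 : M i l ≠ 0 := by rw [hMo l hl1']; exact hLM
      have h4 : M j l ≠ 0 := by rw [hMo' l hl2']; exact hLM'
      obtain ⟨huni, -⟩ := hrow j hjS l (hO1 l hl1') h4
      exact huni i hiS h3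
    have h2 : ∑ i ∈ S1, (univ.filter (Orb E t (L i))).card = S1.card * Fintype.card E := by
      rw [sum_congr rfl fun i hi => (hrow i (hS1m i hi).1 (L i) (hL i hi).1 (hL i hi).2).2.2.1,
        sum_const, smul_eq_mul, hcE]
    rw [← h2, ← h1]
    refine card_le_card fun l hl => ?_
    obtain ⟨i, hi, hl'⟩ := mem_biUnion.1 hl
    exact hOX i hi hl'
  -- duality
  set X : Finset T := univ.filter fun u => u ≠ 1 ∧ ∃ α ∈ E, α u = u ^ t with hX
  have hXX : X'.card ≤ X.card := by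
    have h1 : X'.card ≤ ∑ α : E, (univ.filter fun l : T →* Kˣ => l ≠ 1 ∧
        dl l (α : MulAut T) = pw l t).card := by
      have h2 : X' ⊆ (univ : Finset E).biUnion fun α => univ.filter fun l : T →* Kˣ => l ≠ 1 ∧
          dl l (α : MulAut T) = pw l t := by
        intro l hl
        obtain ⟨-, hl1, α, hα, hl2⟩ := mem_filter.1 hl
        exact mem_biUnion.2 ⟨⟨α, hα⟩, mem_univ _, mem_filter.2 ⟨mem_univ _, hl1, hl2⟩⟩
      exact (card_le_card h2).trans card_biUnion_le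
    have h2 : ∀ α : E, (univ.filter fun l : T →* Kˣ => l ≠ 1 ∧ dl l (α : MulAut T) = pw l t).card
        = (univ.filter fun u : T => u ≠ 1 ∧ (α : MulAut T) u = u ^ t).card := by
      intro α
      have h3 := card_dual (K := K) (α : MulAut T) t
      have h4 : (univ.filter fun l : T →* Kˣ => l ≠ 1 ∧ dl l (α : MulAut T) = pw l t)
          = (univ.filter fun l : T →* Kˣ => dl l (α : MulAut T) = pw l t).erase 1 := by
        ext l
        simp only [mem_filter, mem_erase, mem_univ, true_and]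
      have h5 : (univ.filter fun u : T => u ≠ 1 ∧ (α : MulAut T) u = u ^ t)
          = (univ.filter fun u : T => (α : MulAut T) u = u ^ t).erase 1 := by
        ext l
        simp only [mem_filter, mem_erase, mem_univ, true_and]
      rw [h4, h5, card_erase_of_mem, card_erase_of_mem, h3]
      · exact mem_filter.2 ⟨mem_univ _, by rw [map_one, one_pow]⟩
      · exact mem_filter.2 ⟨mem_univ _, by
          ext u
          rw [pw_apply, MonoidHom.one_apply]
          rfl⟩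
    have h3 : ∑ α : E, (univ.filter fun u : T => u ≠ 1 ∧ (α : MulAut T) u = u ^ t).card
        = ∑ u ∈ X, (univ.filter fun α : E => (α : MulAut T) u = u ^ t).card := by
      simp only [card_filter]
      rw [sum_comm, hX, sum_filter]
      refine sum_congr rfl fun u _ => ?_
      split_ifs with h4
      · refine sum_congr rfl fun α _ => ?_
        simp only [h4.1, ne_eq, not_false_eq_true, true_and]
      · refine sum_eq_zero fun α _ => ?_
        rw [if_neg]
        rintro ⟨h5, h6⟩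
        exact h4 ⟨h5, α, α.2, h6⟩
    have h4 : ∀ u ∈ X, (univ.filter fun α : E => (α : MulAut T) u = u ^ t).card ≤ 1 := by
      intro u hu
      obtain ⟨-, hu1, γ, hγ, hγu⟩ := mem_filter.1 hu
      have h5 := hstX u hu1 γ hγ hγu
      rw [st, Nat.card_eq_one_iff_unique] at h5
      obtain ⟨h5, -⟩ := h5
      refine card_le_one.2 fun α hα β hβ => ?_
      have h6 : ((α⁻¹ * β : E) : MulAut T) u = u := by
        have h7 := (mem_filter.1 hα).2
        have h8 := (mem_filter.1 hβ).2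
        rw [Subgroup.coe_mul, Subgroup.coe_inv, MulAut.mul_apply, h8, ← h7, MulAut.inv_apply_self]
      have h9 := congrArg Subtype.val
        (h5.elim (⟨α⁻¹ * β, h6⟩ : {φ : E // (φ : MulAut T) u = u}) ⟨1, rfl⟩)
      exact inv_mul_eq_one.1 h9
    calc X'.card ≤ _ := h1
      _ = ∑ α : E, (univ.filter fun u : T => u ≠ 1 ∧ (α : MulAut T) u = u ^ t).card :=
          sum_congr rfl fun α _ => h2 α
      _ = ∑ u ∈ X, (univ.filter fun α : E => (α : MulAut T) u = u ^ t).card := h3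
      _ ≤ ∑ _u ∈ X, 1 := sum_le_sum h4
      _ = X.card := by rw [sum_const, smul_eq_mul, mul_one]
  -- the representatives
  obtain ⟨W0, hW1, hW2, hW3⟩ := ZGcAux.exists_rep (α := T)
    { r := fun v v' => ∃ α ∈ E, v' = α v
      iseqv := by
        refine ⟨fun v => ⟨1, E.one_mem, rfl⟩, ?_, ?_⟩
        · rintro v v' ⟨α, hα, rfl⟩
          exact ⟨α⁻¹, E.inv_mem hα, by rw [MulAut.inv_apply_self]⟩
        · rintro v v' v'' ⟨α, hα, rfl⟩ ⟨β, hβ, rfl⟩
          exact ⟨β * α, E.mul_mem hβ hα, rfl⟩ } 1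
  set W := W0.filter fun v => v = 1 ∨ ∃ α ∈ E, α v = v ^ t with hW
  have h1W : 1 ∈ W := mem_filter.2 ⟨hW1, Or.inl rfl⟩
  refine ⟨W, h1W, ?_, ?_, ?_⟩
  · rintro v hv v' hv' hne' ⟨α, hα, hα'⟩
    exact hne' (hW3 v (mem_filter.1 hv).1 v' (mem_filter.1 hv').1 ⟨α, hα, hα'⟩)
  · intro v hv hv1
    obtain ⟨α, hα, hα'⟩ := (mem_filter.1 hv).2.resolve_left hv1
    exact ⟨hstX v hv1 α hα hα', α, hα, hα'⟩
  · have h1 : X ⊆ (W.erase 1).biUnion fun v => univ.image fun α : E => (α : MulAut T) v := by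
      intro u hu
      obtain ⟨-, hu1, γ, hγ, hγu⟩ := mem_filter.1 hu
      obtain ⟨v, hv, α, hα, hαv⟩ := hW2 u
      have hv1 : v ≠ 1 := by
        rintro rfl
        exact hu1 (by rw [hαv, map_one])
      refine mem_biUnion.2 ⟨v, mem_erase.2 ⟨hv1, mem_filter.2 ⟨hv, Or.inr
        ⟨α⁻¹ * γ * α, E.mul_mem (E.mul_mem (E.inv_mem hα) hγ) hα, ?_⟩⟩⟩,
        mem_image.2 ⟨⟨α, hα⟩, mem_univ _, hαv.symm⟩⟩
      rw [MulAut.mul_apply, MulAut.mul_apply, ← hαv, hγu, hαv, ← map_pow, MulAut.inv_apply_self]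
    have h2 : X.card ≤ (W.erase 1).card * Fintype.card E := by
      refine (card_le_card h1).trans (card_biUnion_le.trans ?_)
      rw [← smul_eq_mul, ← sum_const]
      refine sum_le_sum fun v _ => card_image_le.trans ?_
      rw [card_univ]
    have h3 : S1.card * Fintype.card E ≤ (W.erase 1).card * Fintype.card E :=
      hX'c.trans (hXX.trans h2)
    have h4 := Nat.le_of_mul_le_mul_right h3 hEpos
    rw [card_erase_of_mem h1W] at h4
    have h5 : 0 < W.card := card_pos.2 ⟨1, h1W⟩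
    omega

end

end Pool.Agent.Lib.P0c8ca5.Ex
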