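import Mathlib
import Pool.Agent.Lib.P0c8ca5Ex.XD

/-!
# UA: an integral form on the generators of a cyclic group, with a divisibility

As `gen_sum` (XD), if moreover `e ∣ bf N y y` for all `y` with `e ∣ ∑ a_s y_s`, and `∑ a_s x_s = e * lam` outside `P` with a
virtual character `lam`. Then the sum is `0` or at least `e (|Q| - |P|)` (`gen_sum_e`).
-/

set_option linter.unusedSectionVars false

namespace Pool.Agent.Lib.P0c8ca5.Ex

open Finset

section
variable {Q : Type*} [CommGroup Q] [Fintype Q] {K : Type*} [Field K] [CharZero K]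
  [HasEnoughRootsOfUnity K (Monoid.exponent Q)] {S : Type*} [Fintype S]

namespace UAx

open Classical in
/-- the sum in terms of the multiplicities -/
theorem gen_eq (P : Subgroup Q) {N : S → S → ℤ} (hN : PSD N) (x : S → Q → K)
    (hx : ∀ s, x s ∈ vir Q K) :
    ∃ (A : (Q →* Kˣ) → S → ℤ) (m : ℤ), (∀ s l, mlt (x s) l = (A l s : K)) ∧
      ∑ v ∈ univ.filter (· ∉ P), ∑ s, ∑ t, (N s t : K) * (x s v * x t v⁻¹)
        = ((Nat.card P * m : ℤ) : K) ∧
      2 * m = ∑ l : Q →* Kˣ, ∑ k ∈ univ.filter (fun k => eqP P k l),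
        bf N (A l - A k) (A l - A k) := by
  have h1 : ∀ s, ∃ a : (Q →* Kˣ) → ℤ, ∀ l, mlt (x s) l = (a l : K) := fun s =>
    ⟨fun l => Classical.choose (mem_vir_iff.1 (hx s) l),
      fun l => Classical.choose_spec (mem_vir_iff.1 (hx s) l)⟩
  choose a ha using h1
  set A : (Q →* Kˣ) → S → ℤ := fun l s => a s l with hA
  set m : ℤ := ∑ l : Q →* Kˣ, ∑ k ∈ univ.filter (fun k => eqP P k l),
    (bf N (A l) (A l) - bf N (A l) (A k)) with hm
  have hPp : (0 : ℤ) < Nat.card P := by
    have : 0 < Nat.card P := Nat.card_pos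
    exact_mod_cast this
  have hmain : ∑ v ∈ univ.filter (· ∉ P), ∑ s, ∑ t, (N s t : K) * (x s v * x t v⁻¹)
      = ((Nat.card P * m : ℤ) : K) := by
    have h2 : ∑ v ∈ univ.filter (· ∉ P), ∑ s, ∑ t, (N s t : K) * (x s v * x t v⁻¹)
        = ∑ s, ∑ t, (N s t : K) * ∑ v ∈ univ.filter (· ∉ P), x s v * x t v⁻¹ := by
      rw [sum_comm]
      refine sum_congr rfl fun s _ => ?_
      rw [sum_comm]
      refine sum_congr rfl fun t _ => ?_
      rw [mul_sum]
    rw [h2]
    simp_rw [pair_sum P _ _ (ha _) (ha _)]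
    have h3 : ∀ s t, (N s t : K) * ((Nat.card P * ∑ l : Q →* Kˣ,
        ∑ m ∈ univ.filter (fun m => eqP P m l), (a s l * a t l - a s l * a t m) : ℤ) : K)
        = ((Nat.card P * ∑ l : Q →* Kˣ, ∑ m ∈ univ.filter (fun m => eqP P m l),
          N s t * (a s l * a t l - a s l * a t m) : ℤ) : K) := by
      intro s t
      rw [← Int.cast_mul]
      congr 1
      rw [mul_left_comm, mul_sum]
      congr 1
      refine sum_congr rfl fun l _ => ?_
      rw [mul_sum]
    simp_rw [h3]
    simp_rw [← Int.cast_sum]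
    congr 1
    have hcalc : ∑ s, ∑ t, ∑ l : Q →* Kˣ, ∑ k ∈ univ.filter (fun k => eqP P k l),
          N s t * (a s l * a t l - a s l * a t k) = m := by
      calc ∑ s, ∑ t, ∑ l : Q →* Kˣ, ∑ k ∈ univ.filter (fun k => eqP P k l),
            N s t * (a s l * a t l - a s l * a t k)
          = ∑ s, ∑ l : Q →* Kˣ, ∑ t, ∑ k ∈ univ.filter (fun k => eqP P k l),
            N s t * (a s l * a t l - a s l * a t k) := sum_congr rfl fun s _ => sum_comm
        _ = ∑ l : Q →* Kˣ, ∑ s, ∑ t, ∑ k ∈ univ.filter (fun k => eqP P k l),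
            N s t * (a s l * a t l - a s l * a t k) := sum_comm
        _ = ∑ l : Q →* Kˣ, ∑ s, ∑ k ∈ univ.filter (fun k => eqP P k l), ∑ t,
            N s t * (a s l * a t l - a s l * a t k) :=
              sum_congr rfl fun l _ => sum_congr rfl fun s _ => sum_comm
        _ = ∑ l : Q →* Kˣ, ∑ k ∈ univ.filter (fun k => eqP P k l), ∑ s, ∑ t,
            N s t * (a s l * a t l - a s l * a t k) :=
              sum_congr rfl fun l _ => sum_comm
        _ = m := by
              rw [hm]
              refine sum_congr rfl fun l _ => sum_congr rfl fun k _ => ?_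
              unfold bf
              rw [← sum_sub_distrib]
              refine sum_congr rfl fun s _ => ?_
              rw [← sum_sub_distrib]
              refine sum_congr rfl fun t _ => ?_
              simp only [hA]
              ring
    rw [← hcalc, mul_sum]
    refine sum_congr rfl fun s _ => ?_
    rw [mul_sum]
  have h2m : 2 * m = ∑ l : Q →* Kˣ, ∑ k ∈ univ.filter (fun k => eqP P k l),
      bf N (A l - A k) (A l - A k) := by
    have h4 : ∑ l : Q →* Kˣ, ∑ k ∈ univ.filter (fun k => eqP P k l), bf N (A k) (A k)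
        = ∑ l : Q →* Kˣ, ∑ k ∈ univ.filter (fun k => eqP P k l), bf N (A l) (A l) := by
      simp_rw [sum_filter]
      rw [sum_comm]
      refine sum_congr rfl fun l _ => sum_congr rfl fun k _ => ?_
      by_cases h : eqP P k l
      · rw [if_pos h, if_pos (eqP_symm h)]
      · rw [if_neg h, if_neg (fun h' => h (eqP_symm h'))]
    have h5 : ∀ l k, bf N (A l - A k) (A l - A k)
        = (bf N (A l) (A l) - 2 * bf N (A l) (A k)) + bf N (A k) (A k) := by
      intro l k
      rw [bf_sub_sub hN]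
      ring
    simp_rw [h5, sum_add_distrib]
    rw [h4, hm, mul_sum, ← sum_add_distrib]
    refine sum_congr rfl fun l _ => ?_
    rw [mul_sum, ← sum_add_distrib]
    refine sum_congr rfl fun k _ => ?_
    ring
  exact ⟨A, m, fun s l => ha s l, hmain, h2m⟩

/-- a function that vanishes outside `P` has equal multiplicities at characters that agree on `P` -/
theorem mlt_eqP (P : Subgroup Q) {F : Q → K} (hF : ∀ v, v ∉ P → F v = 0) {l k : Q →* Kˣ}
    (h : eqP P k l) : mlt F k = mlt F l := by
  unfold mlt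
  congr 1
  refine sum_congr rfl fun v _ => ?_
  by_cases hv : v ∈ P
  · unfold chr
    rw [h v⁻¹ (P.inv_mem hv)]
  · rw [hF v hv, zero_mul, zero_mul]

end UAx

open UAx

open Classical in
theorem gen_sum_e (P : Subgroup Q) {p : ℕ} (hP : Fintype.card Q = p * Nat.card P)
    {N : S → S → ℤ} (hN : PSD N) (x : S → Q → K) (hx : ∀ s, x s ∈ vir Q K) {e : ℕ} (a : S → ℤ)
    (hdiv : ∀ y : S → ℤ, (e : ℤ) ∣ ∑ s, a s * y s → (e : ℤ) ∣ bf N y y) {lam : Q → K}
    (hlam : lam ∈ vir Q K) (hax : ∀ v, v ∉ P → ∑ s, (a s : K) * x s v = (e : K) * lam v) {n : ℤ}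
    (hn : ∑ v ∈ univ.filter (· ∉ P), ∑ s, ∑ t, (N s t : K) * (x s v * x t v⁻¹) = (n : K))
    (hn0 : n ≠ 0) : (e : ℤ) * ((Fintype.card Q : ℤ) - Nat.card P) ≤ n := by
  obtain ⟨A, m, hA, hmain, h2m⟩ := gen_eq P hN x hx
  have hPp : (0 : ℤ) < Nat.card P := by
    have : 0 < Nat.card P := Nat.card_pos
    exact_mod_cast this
  have hnm : n = Nat.card P * m := by
    rw [hn] at hmain
    exact_mod_cast hmain
  -- the multiplicities of `lam`
  have hL : ∀ l, ∃ c : ℤ, mlt lam l = (c : K) := fun l => mem_vir_iff.1 hlam l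
  choose L hL using hL
  have hdvd : ∀ l k, eqP P k l → (e : ℤ) ∣ ∑ s, a s * (A l - A k) s := by
    intro l k hkl
    set F : Q → K := fun v => ∑ s, (a s : K) * x s v - (e : K) * lam v with hF
    have hF0 : ∀ v, v ∉ P → F v = 0 := fun v hv => by
      rw [hF]
      exact sub_eq_zero.2 (hax v hv)
    have hml : ∀ l, mlt F l = ((∑ s, a s * A l s - e * L l : ℤ) : K) := by
      intro l
      push_cast
      rw [← hL l]
      have h1 : ∀ s, (a s : K) * (A l s : K) = (a s : K) * mlt (x s) l := fun s => by rw [hA]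
      rw [sum_congr rfl fun s _ => h1 s]
      unfold mlt
      have h2 : ∀ s, (a s : K) * ((Fintype.card Q : K)⁻¹ * ∑ u, x s u * chr l u⁻¹)
          = (Fintype.card Q : K)⁻¹ * ∑ u, (a s : K) * x s u * chr l u⁻¹ := by
        intro s
        rw [mul_left_comm, mul_sum]
        congr 1
        exact sum_congr rfl fun u _ => by ring
      have h3 : ∀ u, F u * chr l u⁻¹ = ∑ s, (a s : K) * x s u * chr l u⁻¹
          - (e : K) * (lam u * chr l u⁻¹) := by
        intro u
        rw [hF]
        change (∑ s, (a s : K) * x s u - (e : K) * lam u) * chr l u⁻¹ = _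
        rw [sub_mul, sum_mul, mul_assoc]
      rw [sum_congr rfl fun s _ => h2 s, ← mul_sum, mul_left_comm (e : K), ← mul_sub, sum_comm,
        sum_congr rfl fun u _ => h3 u, sum_sub_distrib, ← mul_sum]
    have h3 := mlt_eqP P hF0 hkl
    rw [hml, hml] at h3
    have h4 : ∑ s, a s * A k s - e * L k = ∑ s, a s * A l s - e * L l := by exact_mod_cast h3
    refine ⟨L l - L k, ?_⟩
    have h5 : ∑ s, a s * (A l - A k) s = ∑ s, a s * A l s - ∑ s, a s * A k s := by
      rw [← sum_sub_distrib]
      refine sum_congr rfl fun s _ => ?_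
      rw [Pi.sub_apply]
      ring
    rw [h5]
    linarith
  have hde : ∀ l k, eqP P k l → (e : ℤ) ∣ bf N (A l - A k) (A l - A k) := fun l k hkl =>
    hdiv _ (hdvd l k hkl)
  have hnn : ∀ l, 0 ≤ ∑ k ∈ univ.filter (fun k => eqP P k l), bf N (A l - A k) (A l - A k) :=
    fun l => sum_nonneg fun k _ => hN.nonneg _
  have hm0 : 0 ≤ m := by
    have : 0 ≤ 2 * m := by
      rw [h2m]
      exact sum_nonneg fun l _ => hnn l
    linarith
  have hPQ : (Fintype.card Q : ℤ) = p * Nat.card P := by exact_mod_cast hP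
  have hmne : m ≠ 0 := by
    rintro rfl
    exact hn0 (by rw [hnm, mul_zero])
  obtain ⟨l, k, hkl, hb⟩ : ∃ l k, eqP P k l ∧ bf N (A l - A k) (A l - A k) ≠ 0 := by
    by_contra hcon
    push Not at hcon
    apply hmne
    have h6 : 2 * m = 0 := by
      rw [h2m]
      refine sum_eq_zero fun l _ => sum_eq_zero fun k hk => ?_
      exact hcon l k (mem_filter.1 hk).2
    linarith
  have he : 0 < e := by
    rcases Nat.eq_zero_or_pos e with h | h
    · exfalso
      apply hb
      have h7 := hde l k hkl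
      rw [h, Nat.cast_zero] at h7
      exact zero_dvd_iff.1 h7
    · exact h
  have he' : (0 : ℤ) < e := by exact_mod_cast he
  set C : Finset (Q →* Kˣ) := univ.filter (fun k => eqP P k l) with hC
  have hCc : (C.card : ℤ) = p := by
    have h7 := card_eqP (K := K) P l
    rw [hP, mul_comm] at h7
    have h8 : C.card = p := Nat.eq_of_mul_eq_mul_right Nat.card_pos h7
    exact_mod_cast h8
  have hCC : ∑ c ∈ C, ∑ d ∈ C, bf N (A c - A d) (A c - A d) ≤ 2 * m := by
    rw [h2m]
    have h9 : ∀ c ∈ C, ∑ d ∈ C, bf N (A c - A d) (A c - A d)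
        = ∑ k ∈ univ.filter (fun k => eqP P k c), bf N (A c - A k) (A c - A k) := by
      intro c hc
      refine sum_congr ?_ fun _ _ => rfl
      ext d
      rw [hC, mem_filter, mem_filter]
      have hc' := (mem_filter.1 hc).2
      exact ⟨fun h => ⟨h.1, eqP_trans h.2 (eqP_symm hc')⟩, fun h => ⟨h.1, eqP_trans h.2 hc'⟩⟩
    rw [sum_congr rfl h9]
    exact sum_le_sum_of_subset_of_nonneg (subset_univ _) fun c _ _ => hnn c
  -- the values divided by `e`
  have hG : ∀ c ∈ C, ∀ d ∈ C, (e : ℤ) * (bf N (A c - A d) (A c - A d) / e)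
      = bf N (A c - A d) (A c - A d) := by
    intro c hc d hd
    refine Int.mul_ediv_cancel' (hde c d ?_)
    exact eqP_trans (mem_filter.1 hd).2 (eqP_symm (mem_filter.1 hc).2)
  set B : Finset (Q →* Kˣ) := C.filter fun c => bf N (A c - A l) (A c - A l) = 0 with hB
  have h10 := two_class (C := C) (A := B) (filter_subset _ _)
    (fun c d => bf N (A c - A d) (A c - A d) / e)
    (fun _ _ => Int.ediv_nonneg (hN.nonneg _) he'.le) (by
      intro c hc d hd
      have hcC := (mem_filter.1 hc).1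
      have hdC := (mem_sdiff.1 hd).1
      have hc' := (mem_filter.1 hc).2
      have hd' : bf N (A d - A l) (A d - A l) ≠ 0 := fun h =>
        (mem_sdiff.1 hd).2 (mem_filter.2 ⟨(mem_sdiff.1 hd).1, h⟩)
      have h11 : bf N (A c - A d) (A c - A d) ≠ 0 := by
        intro h12
        apply hd'
        have h13 : A d - A l = (A c - A l) + (-1 : ℤ) • (A c - A d) := by
          funext s
          simp only [Pi.sub_apply, Pi.add_apply, Pi.smul_apply, smul_eq_mul]
          ring
        rw [h13, bf_add_left, bf_smul_left, bf_symm hN (A c - A l), bf_symm hN (A c - A d),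
          hN.orth hc', hN.orth h12]
        norm_num
      have h14 := hN.nonneg (A c - A d)
      have h15 : bf N (A d - A c) (A d - A c) = bf N (A c - A d) (A c - A d) := by
        rw [bf_sub_sub hN, bf_sub_sub hN, bf_symm hN (A d) (A c)]
        ring
      have h16 := hG c hcC d hdC
      have h17 : 1 ≤ bf N (A c - A d) (A c - A d) / e := by
        by_contra hcon
        have h18 : 0 ≤ bf N (A c - A d) (A c - A d) / e := Int.ediv_nonneg h14 he'.le
        have h19 : bf N (A c - A d) (A c - A d) / e = 0 := by omega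
        rw [h19, mul_zero] at h16
        exact h11 h16.symm
      constructor
      · exact h17
      · rw [h15]
        exact h17)
    ⟨l, mem_filter.2 ⟨mem_filter.2 ⟨mem_univ _, eqP_refl _ _⟩, by
      rw [bf_sub_sub hN]
      ring⟩⟩
    ⟨k, mem_sdiff.2 ⟨mem_filter.2 ⟨mem_univ _, hkl⟩, fun h => by
      apply hb
      have h16 := (mem_filter.1 h).2
      rw [bf_sub_sub hN] at h16 ⊢
      rw [bf_symm hN (A l) (A k)]
      linarith⟩⟩
  rw [hCc] at h10
  have h20 : (e : ℤ) * ∑ c ∈ C, ∑ d ∈ C, bf N (A c - A d) (A c - A d) / e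
      = ∑ c ∈ C, ∑ d ∈ C, bf N (A c - A d) (A c - A d) := by
    rw [mul_sum]
    refine sum_congr rfl fun c hc => ?_
    rw [mul_sum]
    exact sum_congr rfl fun d hd => hG c hc d hd
  have h21 : (e : ℤ) * (2 * ((p : ℤ) - 1)) ≤ 2 * m := by
    calc (e : ℤ) * (2 * ((p : ℤ) - 1))
        ≤ e * ∑ c ∈ C, ∑ d ∈ C, bf N (A c - A d) (A c - A d) / e :=
          mul_le_mul_of_nonneg_left h10 he'.le
      _ ≤ 2 * m := by
          rw [h20]
          exact hCC
  rw [hnm, hPQ]
  have h22 : (e : ℤ) * ((p : ℤ) - 1) ≤ m := by linarith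
  calc (e : ℤ) * ((p : ℤ) * Nat.card P - Nat.card P)
      = Nat.card P * (e * ((p : ℤ) - 1)) := by ring
    _ ≤ Nat.card P * m := mul_le_mul_of_nonneg_left h22 hPp.le

end

end Pool.Agent.Lib.P0c8ca5.Ex
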