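import Mathlib
import Pool.Agent.Lib.P0c8ca5Ex.ZEb
import Pool.Agent.Lib.P0c8ca5Ku.AG

/-!
# UB: the divisibility of the local form

`bf_dvd`: the form `N` of the block at `Q` with `|T| e ip (rg X) Y = a X * a Y + q N X Y`, `e = e_Q`: if `e` divides `a y` then
`e` divides `N y y`.
`lam_vir`: the sum of the conjugates of a character, restricted to `Q`, is `e` times a virtual character.
-/

set_option linter.unusedSectionVars false

namespace Pool.Agent.Lib.P0c8ca5.Ex

open MonoidAlgebra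

namespace UBx

section
variable {T : Type*} [CommGroup T] [Fintype T] {K : Type*} [Field K] [CharZero K]
  [HasEnoughRootsOfUnity K (Monoid.exponent T)]

/-- a set which is a union of cosets -/
theorem card_dvd_of_mul {G : Type*} [Group G] [Fintype G] [DecidableEq G] (F : Subgroup G)
    (S : Finset G) (hS : ∀ a ∈ S, ∀ b ∈ F, a * b ∈ S) : Nat.card F ∣ S.card := by
  classical
  have : Fintype F := Fintype.ofFinite _
  rw [Finset.card_eq_sum_card_image (fun a : G => (QuotientGroup.mk a : G ⧸ F)) S]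
  refine Finset.dvd_sum fun c hc => ?_
  obtain ⟨a, ha, rfl⟩ := Finset.mem_image.1 hc
  refine dvd_of_eq ?_
  rw [Nat.card_eq_fintype_card, ← Finset.card_univ]
  refine Finset.card_bij (fun b _ => a * (b : G)) ?_ ?_ ?_
  · intro b _
    refine Finset.mem_filter.2 ⟨hS a ha b b.2, ?_⟩
    rw [eq_comm, QuotientGroup.eq, inv_mul_cancel_left]
    exact b.2
  · intro b _ b' _ h
    exact Subtype.ext (mul_left_cancel h)
  · intro d hd
    have h1 := (Finset.mem_filter.1 hd).2
    rw [eq_comm, QuotientGroup.eq] at h1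
    exact ⟨⟨a⁻¹ * d, h1⟩, Finset.mem_univ _, mul_inv_cancel_left _ _⟩

open Classical in
/-- the sum of the conjugates of `l` on `Q` is divisible by the order of the pointwise stabilizer -/
theorem lam_vir (E : Subgroup (MulAut T)) [Fintype ↥E] (Q : Subgroup T) (l : T →* Kˣ) {e : ℕ}
    (he : Nat.card {α : ↥E // ∀ t ∈ Q, (α : MulAut T) t = t} = e) :
    (fun v : ↥Q => (e : K)⁻¹ * ∑ α : ↥E, ((l ((α : MulAut T) (v : T)) : Kˣ) : K)) ∈ vir ↥Q K := by
  have := enough_sub K T Q
  let r : ↥E → (↥Q →* Kˣ) := fun α =>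
    (l.comp ((α : MulAut T) : T ≃* T).toMonoidHom).comp Q.subtype
  have hr : ∀ (α : ↥E) (v : ↥Q), chr (r α) v = ((l ((α : MulAut T) (v : T)) : Kˣ) : K) :=
    fun _ _ => rfl
  let F : Subgroup ↥E :=
    { carrier := {α | ∀ t ∈ Q, (α : MulAut T) t = t}
      one_mem' := fun t _ => rfl
      mul_mem' := fun {a b} ha hb t ht => by
        rw [Subgroup.coe_mul, MulAut.mul_apply, hb t ht, ha t ht]
      inv_mem' := fun {a} ha t ht => by
        have h1 := ha t ht
        rw [Subgroup.coe_inv]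
        nth_rewrite 1 [← h1]
        exact MulAut.inv_apply_self _ _ _ }
  have hF : Nat.card F = e := he
  have he0 : (e : K) ≠ 0 := Nat.cast_ne_zero.2 (hF ▸ Nat.card_pos.ne')
  rw [mem_vir_iff]
  intro m
  obtain ⟨c, hc⟩ := card_dvd_of_mul F (Finset.univ.filter fun α : ↥E => r α = m) (by
    intro a ha b hb
    refine Finset.mem_filter.2 ⟨Finset.mem_univ _, ?_⟩
    rw [← (Finset.mem_filter.1 ha).2]
    refine MonoidHom.ext fun v => ?_
    change l (((a * b : ↥E) : MulAut T) (v : T)) = l ((a : MulAut T) (v : T))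
    rw [Subgroup.coe_mul, MulAut.mul_apply, hb _ v.2])
  refine ⟨c, ?_⟩
  have h1 : mlt (fun v : ↥Q => (e : K)⁻¹ * ∑ α : ↥E, ((l ((α : MulAut T) (v : T)) : Kˣ) : K)) m
      = (e : K)⁻¹ * ∑ α : ↥E, mlt (chr (r α)) m := by
    unfold mlt
    rw [← Finset.mul_sum, mul_left_comm, Finset.sum_comm]
    congr 1
    rw [Finset.mul_sum]
    refine Finset.sum_congr rfl fun v _ => ?_
    rw [← Finset.sum_mul, mul_assoc]
    rfl
  rw [h1, Finset.sum_congr rfl fun α _ => mlt_chr (r α) m, ← Finset.sum_filter, Finset.sum_const,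
    nsmul_eq_mul, mul_one, hc, hF, Nat.cast_mul, inv_mul_cancel_left₀ he0]
  norm_cast

end

section
variable {p : ℕ} [Fact p.Prime] {k : Type*} [Field k] [IsAlgClosed k] [CharP k p]
  {A : Type*} [Group A] [Finite A]
  {T : Type*} [CommGroup T] [Fintype T]
  {φ : T →* A} {f i : MonoidAlgebra k A} {D : Subgroup A} {Q : Subgroup T}
  {G : Subgroup T → A → KW p k}

open YGAux

open Classical in
/-- `e` divides the values of the form at the vectors whose row is divisible by `e` -/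
theorem bf_dvd {q : ℕ} (h : GOK φ D f i G Q) {c : MonoidAlgebra k A} (hc : LbH (cq φ Q) i c)
    {BH : MonoidAlgebra (OW p k) ↥(cq φ Q)}
    {N : Ir (KW p k) ↥(cq φ Q) → Ir (KW p k) ↥(cq φ Q) → ℤ}
    (hN0 : ∀ s t, chO s BH = 0 ∨ chO t BH = 0 → N s t = 0)
    (hN : ∀ s t, chO s BH ≠ 0 → chO t BH ≠ 0 →
      (Fintype.card T : KW p k) * (eQ φ D f Q : KW p k) * ip (rg p (ch s)) (ch t)
        = ip (ch s) (on (cq φ Q) (G Q)) * ip (ch t) (on (cq φ Q) (G Q))
          + (q : KW p k) * (N s t : KW p k))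
    (hpe : ¬ p ∣ eQ φ D f Q) (hqe : (eQ φ D f Q).Coprime q) :
    ∃ a : Ir (KW p k) ↥(cq φ Q) → ℤ, (∀ s, chO s BH = 0 → a s = 0) ∧
      (∀ s, chO s BH ≠ 0 → ip (ch s) (on (cq φ Q) (G Q)) = (a s : KW p k)) ∧
      ∀ y : Ir (KW p k) ↥(cq φ Q) → ℤ, (eQ φ D f Q : ℤ) ∣ ∑ s, a s * y s →
        (eQ φ D f Q : ℤ) ∣ bf N y y := by
  have hΓV : on (cq φ Q) (G Q) ∈ V (KW p k) ↥(cq φ Q) := (h.blk c hc).1
  have h1 : ∀ s : Ir (KW p k) ↥(cq φ Q), ∃ z : ℤ, ip (ch s) (on (cq φ Q) (G Q)) = z := fun s =>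
    ip_int (ch_mem s) hΓV
  choose a' ha' using h1
  refine ⟨fun s => if chO s BH = 0 then 0 else a' s, fun s hs => if_pos hs, fun s hs => ?_,
    fun y hy => ?_⟩
  · simp only [if_neg hs]
    exact ha' s
  -- the element of the block
  let x' : Ir (KW p k) ↥(cq φ Q) → ℤ := fun s => if chO s BH = 0 then 0 else y s
  have hx0 : ∀ s, chO s BH = 0 → x' s = 0 := fun s hs => if_pos hs
  have hx1 : ∀ s, chO s BH ≠ 0 → x' s = y s := fun s hs => if_neg hs
  have hbf : bf N y y = bf N x' x' := by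
    unfold bf
    refine Finset.sum_congr rfl fun s _ => Finset.sum_congr rfl fun t _ => ?_
    by_cases hs : chO s BH = 0
    · rw [hN0 s t (Or.inl hs), zero_mul, zero_mul]
    by_cases ht : chO t BH = 0
    · rw [hN0 s t (Or.inr ht), zero_mul, zero_mul]
    rw [hx1 s hs, hx1 t ht]
  set Γ := on (cq φ Q) (G Q) with hΓ
  let X : ↥(cq φ Q) → KW p k := fun y => ∑ s : Ir (KW p k) ↥(cq φ Q), (x' s : KW p k) * ch s y
  have hXV : X ∈ V (KW p k) ↥(cq φ Q) := V_of_sum x'
  obtain ⟨z, hz⟩ := ip_rg_int (p := p) hXV hXV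
  obtain ⟨b, hb⟩ := ip_int hXV hΓV
  -- the row is divisible by `e`
  have hbe : b = ∑ s, (if chO s BH = 0 then 0 else a' s) * y s := by
    have h2 : (b : KW p k) = ((∑ s, (if chO s BH = 0 then 0 else a' s) * y s : ℤ) : KW p k) := by
      rw [← hb, ip_sum_left]
      push_cast
      refine Finset.sum_congr rfl fun s _ => ?_
      by_cases hs : chO s BH = 0
      · rw [hx0 s hs, if_pos hs]
        simp
      · rw [hx1 s hs, if_neg hs, ha' s]
        ring
    exact_mod_cast h2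
  rw [← hbe] at hy
  -- the identity
  have h2 : (Fintype.card T : KW p k) * (eQ φ D f Q : KW p k) * ip (rg p X) X
      = (b : KW p k) ^ 2 + (q : KW p k) * ((bf N x' x' : ℤ) : KW p k) := by
    have h3 : ip (rg p X) X = ∑ s, ∑ t, (x' s : KW p k) * (x' t : KW p k) *
        ip (rg p (ch s)) (ch t) := by
      rw [ip_rg, ip_sum_left]
      refine Finset.sum_congr rfl fun s _ => ?_
      rw [← ip_rg, ip_comm, ip_sum_left, Finset.mul_sum]
      refine Finset.sum_congr rfl fun t _ => ?_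
      rw [ip_comm (ch t), mul_assoc]
    have h4 : (b : KW p k) = ∑ s, (x' s : KW p k) * ip (ch s) Γ := by
      rw [← hb, ip_sum_left]
    rw [h3, pow_two, h4, Finset.sum_mul_sum]
    unfold bf
    push_cast
    rw [Finset.mul_sum, Finset.mul_sum, ← Finset.sum_add_distrib]
    refine Finset.sum_congr rfl fun s _ => ?_
    rw [Finset.mul_sum, Finset.mul_sum, ← Finset.sum_add_distrib]
    refine Finset.sum_congr rfl fun t _ => ?_
    by_cases hs : chO s BH = 0
    · rw [hx0 s hs]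
      simp
    by_cases ht : chO t BH = 0
    · rw [hx0 t ht]
      simp
    have h5 := hN s t hs ht
    calc (Fintype.card T : KW p k) * (eQ φ D f Q : KW p k) *
          ((x' s : KW p k) * (x' t : KW p k) * ip (rg p (ch s)) (ch t))
        = (x' s : KW p k) * (x' t : KW p k) * ((Fintype.card T : KW p k) *
          (eQ φ D f Q : KW p k) * ip (rg p (ch s)) (ch t)) := by ring
      _ = _ := by rw [h5]; ring
  rw [hbf]
  -- multiply by the `p`-part of the order of the group
  set P : ℕ := ordProj[p] (Nat.card ↥(cq φ Q)) with hP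
  have h6 : ((Fintype.card T : ℤ) * (eQ φ D f Q : ℤ) * z : ℤ)
      = (P : ℤ) * (b ^ 2 + (q : ℤ) * bf N x' x') := by
    have h7 : (((Fintype.card T : ℤ) * (eQ φ D f Q : ℤ) * z : ℤ) : KW p k)
        = (((P : ℤ) * (b ^ 2 + (q : ℤ) * bf N x' x') : ℤ) : KW p k) := by
      push_cast
      rw [← hz, ← h2]
      ring
    exact_mod_cast h7
  have h8 : (eQ φ D f Q : ℤ) ∣ (P : ℤ) * (b ^ 2 + (q : ℤ) * bf N x' x') :=
    ⟨(Fintype.card T : ℤ) * z, by rw [← h6]; ring⟩
  have hcop : IsCoprime (eQ φ D f Q : ℤ) (P : ℤ) := by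
    rw [Nat.isCoprime_iff_coprime, hP]
    exact ((Fact.out : p.Prime).coprime_iff_not_dvd.2 hpe).symm.pow_right _
  have h9 := hcop.dvd_of_dvd_mul_left h8
  have h10 : (eQ φ D f Q : ℤ) ∣ b ^ 2 := dvd_pow hy two_ne_zero
  have h11 : (eQ φ D f Q : ℤ) ∣ (q : ℤ) * bf N x' x' := (dvd_add_right h10).1 h9
  exact (Nat.isCoprime_iff_coprime.2 hqe).dvd_of_dvd_mul_left h11

end

end UBx

end Pool.Agent.Lib.P0c8ca5.Ex
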