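import Mathlib
import Pool.Agent.Lib.P0c8ca5Ex.UA
import Pool.Agent.Lib.P0c8ca5Ex.UB

/-!
# UC: the local bound with the order of the local inertial quotient

For `X = Ml ψ l`, `u ∉ R`: if the sum of `sv X v` over the `v` with `R ⊔ ⟨v⟩ = R ⊔ ⟨u⟩` is `q m`, `m ≠ 0`, then
`e_Q (|Q| - |P|) ≤ m`, `Q = R ⊔ ⟨u⟩`: the row of `X` at `Q` is `e_Q` times a virtual character.
-/

set_option linter.unusedSectionVars false

namespace Pool.Agent.Lib.P0c8ca5.Ex

open MonoidAlgebra YJAux YSaAux YPbAux YPcAux ZEAux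

namespace UCx

section
variable {p : ℕ} [Fact p.Prime] {k : Type*} [Field k] [IsAlgClosed k] [CharP k p]
  {A : Type*} [Group A] [Finite A] {T : Type*} [CommGroup T] [Fintype T]
  {φ : T →* A} {b f i : MonoidAlgebra k A} {D : Subgroup A} {R : Subgroup T}
  {G : Subgroup T → A → KW p k}

/-- the row in terms of the coefficients -/
theorem rwv_xs (h : Stp φ b D f i R G) {Q : Subgroup T} {c : MonoidAlgebra k A}
    (hc : LbH (cq φ Q) i c) {BH : MonoidAlgebra (OW p k) ↥(cq φ Q)}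
    (hB : CenL (dnr (cq φ Q) c) BH) {X : A → KW p k} (hX : X ∈ V (KW p k) A) {v : T} (hv : v ∉ R)
    (hQ : R ⊔ Subgroup.zpowers v = Q) :
    rwv φ G R X v = ∑ s, xs φ _ BH X s v * ip (ch s) (on (cq φ Q) (G Q)) := by
  subst hQ
  have hvQ : v ∈ R ⊔ Subgroup.zpowers v := Subgroup.mem_sup_right (Subgroup.mem_zpowers v)
  rw [rwv_cut h hv rfl hc hB hX]
  have h1 : (on (cq φ (R ⊔ Subgroup.zpowers v))
        fun y => cut (cq φ (R ⊔ Subgroup.zpowers v)) BH X (φ v * y))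
      = fun y => ∑ s, (xs φ _ BH X s v • ch s) y := by
    funext y
    exact cut_xs hB hX hvQ y
  rw [h1, ip_sum]
  exact Finset.sum_congr rfl fun s _ => ip_smul _ _ _

open Classical in
/-- **the local bound** -/
theorem loc_bound {q : ℕ} (hq0 : q ≠ 0) (hpq : p ∣ q) (hqe : ∀ e : ℕ, ¬ p ∣ e → e.Coprime q)
    (h : Stp φ b D f i R G)
    (hC : ∀ Q, R < Q → ∀ c, LbH (cq φ Q) i c → ∀ X ∈ VA (p := p) (dnr (cq φ Q) c),
      ∀ Y ∈ VA (p := p) (dnr (cq φ Q) c), ∃ m a a' : ℤ,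
      (Fintype.card T : KW p k) * (eQ φ D f Q : KW p k) * ip (rg p X) Y = m ∧
      ip X (on (cq φ Q) (G Q)) = a ∧ ip Y (on (cq φ Q) (G Q)) = a' ∧ (q : ℤ) ∣ m - a * a')
    (hE : ¬ p ∣ eN D f)
    {BB : ∀ H : Subgroup A, MonoidAlgebra (OW p k) ↥H}
    (hBB : ∀ u c, LbH (C1 (φ u)) i c → CenL (dnr (C1 (φ u)) c) (BB (C1 (φ u))))
    {B : MonoidAlgebra (OW p k) A} (hB : CenL b B)
    {ψ : IR φ R B → T → KW p k} (hψ : Rows φ D f R G B ψ)
    {l : T →* (KW p k)ˣ} (hl : ∀ z ∈ R, l z = 1) {u : T} (hu : u ∉ R) {m : ℤ} (hm : m ≠ 0)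
    (hs : ∑ v : T with R ⊔ Subgroup.zpowers v = R ⊔ Subgroup.zpowers u,
      sv φ D f R G BB (Ml ψ l) v = (q : KW p k) * m) :
    (eQ φ D f (R ⊔ Subgroup.zpowers u) : ℤ) *
      ((Finset.univ.filter fun v : T =>
        R ⊔ Subgroup.zpowers v = R ⊔ Subgroup.zpowers u).card : ℤ) ≤ m := by
  have := finite_EG (φ := φ) (D := D) (f := f)
  have : Fintype ↥(EG φ D f) := Fintype.ofFinite _
  have hT := YPaAux.isPGroup_T h
  have hX : Ml ψ l ∈ V (KW p k) A := (Ml_mem hB hψ l).1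
  have hq : (q : KW p k) ≠ 0 := Nat.cast_ne_zero.2 hq0
  obtain ⟨c, hc⟩ := exists_lbH h.src (YFAux.phi_mem h u)
  have hcQ : LbH (cq φ (R ⊔ Subgroup.zpowers u)) i c := by
    rw [cq_eq h.cen]
    exact hc
  have hBQ : CenL (dnr (cq φ (R ⊔ Subgroup.zpowers u)) c)
      (BB (cq φ (R ⊔ Subgroup.zpowers u))) := by
    have h1 : ∀ H, H = C1 (φ u) → CenL (dnr H c) (BB H) := by
      rintro H rfl
      exact hBB u c hc
    exact h1 _ (cq_eq h.cen u)
  obtain ⟨N, hPSD, hN0, hN⟩ := locNq hq0 hpq (h.ok _ (YFAux.lt_sup hu)) hcQ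
    (hC _ (YFAux.lt_sup hu) _ hcQ) hBQ
  obtain ⟨P, hRP, hPQ, hcard, hg⟩ := YSaAux.exists_P (Fact.out : p.Prime) hT hu
  have hpt : ∀ v, R ⊔ Subgroup.zpowers v = R ⊔ Subgroup.zpowers u →
      (Fintype.card T : KW p k) * (eQ φ D f (R ⊔ Subgroup.zpowers u) : KW p k) *
          Wf p (cq φ (R ⊔ Subgroup.zpowers u))
            (cut _ (BB (cq φ (R ⊔ Subgroup.zpowers u))) (Ml ψ l))
            (cut _ (BB (cq φ (R ⊔ Subgroup.zpowers u))) (Ml ψ l)) (φ v)
        = rwv φ G R (Ml ψ l) v * rwv φ G R (Ml ψ l) v⁻¹ + (q : KW p k) *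
          ∑ s, ∑ t, (N s t : KW p k) *
            (xs φ _ (BB (cq φ (R ⊔ Subgroup.zpowers u))) (Ml ψ l) s v *
              xs φ _ (BB (cq φ (R ⊔ Subgroup.zpowers u))) (Ml ψ l) t v⁻¹) :=
    fun v hv => loc_idq hpq h (fib_notMem hu hv) hv hcQ hBQ hN0 hN hX hX
  have hcard' : Fintype.card ↥(R ⊔ Subgroup.zpowers u)
      = p * Nat.card (P.subgroupOf (R ⊔ Subgroup.zpowers u)) := by
    rw [← Nat.card_eq_fintype_card, hcard, card_sgo hPQ]
  -- the sum of the form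
  have hn : ∑ v ∈ Finset.univ.filter (· ∉ P.subgroupOf (R ⊔ Subgroup.zpowers u)),
      ∑ s, ∑ t, (N s t : KW p k) *
        (xs φ _ (BB (cq φ (R ⊔ Subgroup.zpowers u))) (Ml ψ l) s (v : T) *
          xs φ _ (BB (cq φ (R ⊔ Subgroup.zpowers u))) (Ml ψ l) t ((v⁻¹ :
            ↥(R ⊔ Subgroup.zpowers u)) : T)) = (m : KW p k) := by
    apply mul_left_cancel₀ hq
    rw [← hs, sum_gen hg (fun v => sv φ D f R G BB (Ml ψ l) v), Finset.mul_sum]
    symm
    refine Finset.sum_congr rfl fun v hv => ?_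
    have hvQ : R ⊔ Subgroup.zpowers (v : T) = R ⊔ Subgroup.zpowers u :=
      (hg v v.2).1 fun h2 => (Finset.mem_filter.1 hv).2 (Subgroup.mem_subgroupOf.2 h2)
    have h1 := hpt v hvQ
    have h2 : ∀ H : Subgroup A, H = cq φ (R ⊔ Subgroup.zpowers u) →
        Wf p H (cut H (BB H) (Ml ψ l)) (cut H (BB H) (Ml ψ l)) (φ v)
          = Wf p (cq φ (R ⊔ Subgroup.zpowers u))
            (cut _ (BB (cq φ (R ⊔ Subgroup.zpowers u))) (Ml ψ l))
            (cut _ (BB (cq φ (R ⊔ Subgroup.zpowers u))) (Ml ψ l)) (φ v) := by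
      rintro H rfl
      rfl
    rw [sv, h2 _ (fib_C1 h hvQ), fib_eQ h hvQ, ← mul_assoc, h1, add_sub_cancel_left]
    rfl
  -- the row
  have he : ¬ p ∣ eQ φ D f (R ⊔ Subgroup.zpowers u) := by
    intro h1
    apply hE
    rw [← card_EG h.inj h.ran]
    refine h1.trans ?_
    let F : Subgroup ↥(EG φ D f) :=
      { carrier := {α | ∀ t ∈ R ⊔ Subgroup.zpowers u, (α : MulAut T) t = t}
        one_mem' := fun t _ => rfl
        mul_mem' := fun {a b} ha hb t ht => by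
          rw [Subgroup.coe_mul, MulAut.mul_apply, hb t ht, ha t ht]
        inv_mem' := fun {a} ha t ht => by
          have h1 := ha t ht
          rw [Subgroup.coe_inv]
          nth_rewrite 1 [← h1]
          exact MulAut.inv_apply_self _ _ _ }
    exact F.card_subgroup_dvd_card
  have he0 : (eQ φ D f (R ⊔ Subgroup.zpowers u) : KW p k) ≠ 0 := by
    refine Nat.cast_ne_zero.2 fun h1 => he ?_
    rw [h1]
    exact dvd_zero p
  obtain ⟨a, ha0, ha1, hdiv⟩ := UBx.bf_dvd (h.ok _ (YFAux.lt_sup hu)) hcQ hN0 hN he (hqe _ he)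
  have hlam := UBx.lam_vir (K := KW p k) (EG φ D f) (R ⊔ Subgroup.zpowers u) l
    (e := eQ φ D f (R ⊔ Subgroup.zpowers u)) rfl
  have hax : ∀ v : ↥(R ⊔ Subgroup.zpowers u), v ∉ P.subgroupOf (R ⊔ Subgroup.zpowers u) →
      ∑ s, (a s : KW p k) * xs φ _ (BB (cq φ (R ⊔ Subgroup.zpowers u))) (Ml ψ l) s (v : T)
        = (eQ φ D f (R ⊔ Subgroup.zpowers u) : KW p k) *
          ((eQ φ D f (R ⊔ Subgroup.zpowers u) : KW p k)⁻¹ *
            ∑ α : EG φ D f, ((l ((α : MulAut T) (v : T)) : (KW p k)ˣ) : KW p k)) := by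
    intro v hv
    have hvQ : R ⊔ Subgroup.zpowers (v : T) = R ⊔ Subgroup.zpowers u :=
      (hg v v.2).1 fun h2 => hv (Subgroup.mem_subgroupOf.2 h2)
    have hvR := fib_notMem hu hvQ
    rw [mul_inv_cancel_left₀ he0, ← rwv_Mlq h hE hψ hl hvR, rwv_xs h hcQ hBQ hX hvR hvQ]
    refine Finset.sum_congr rfl fun s _ => ?_
    by_cases h1 : chO s (BB (cq φ (R ⊔ Subgroup.zpowers u))) = 0
    · rw [xs_eq hBQ hX v.2, if_neg (not_not.2 h1), mul_zero, zero_mul]
    · rw [ha1 s h1, mul_comm]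
  have key := gen_sum_e (P.subgroupOf (R ⊔ Subgroup.zpowers u)) hcard' hPSD
    (fun s (v : ↥(R ⊔ Subgroup.zpowers u)) =>
      xs φ _ (BB (cq φ (R ⊔ Subgroup.zpowers u))) (Ml ψ l) s (v : T))
    (fun s => xs_vir rfl hBQ hX s) a hdiv hlam hax hn hm
  refine le_trans (le_of_eq ?_) key
  congr 1
  -- the number of the elements of the fibre
  have h5 := sum_gen (K := KW p k) hg (fun _ => 1)
  rw [Finset.sum_const, Finset.sum_const, nsmul_eq_mul, nsmul_eq_mul, mul_one, mul_one] at h5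
  have h6 : (Finset.univ.filter fun v : T =>
      R ⊔ Subgroup.zpowers v = R ⊔ Subgroup.zpowers u).card
      = (Finset.univ.filter fun v : ↥(R ⊔ Subgroup.zpowers u) =>
        v ∉ P.subgroupOf (R ⊔ Subgroup.zpowers u)).card := by exact_mod_cast h5
  rw [h6, Finset.filter_not, Finset.card_sdiff_of_subset (Finset.filter_subset _ _),
    Finset.card_univ, Nat.cast_sub]
  · rw [← Fintype.card_subtype, Nat.card_eq_fintype_card]
  · rw [← Finset.card_univ]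
    exact Finset.card_le_card (Finset.filter_subset _ _)

end

end UCx

end Pool.Agent.Lib.P0c8ca5.Ex
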