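import Mathlib
import Pool.Agent.Lib.P0c8ca5Ex.ZEb
import Pool.Agent.Lib.P0c8ca5Ex.YV

/-!
# UD: the summand is constant on the orbits of `E`; the sum over the places outside `R`

* `sv_al`: the summand of `Ml ψ l` at `α v`.
* `orb_sum`: if the fibre sums at the places `α u` are at least `q st(u)` times the number of the elements of
the fibre, then the sum over the places outside `R` is at least `q |R| |E|`.
-/

set_option linter.unusedSectionVars false

namespace Pool.Agent.Lib.P0c8ca5.Ex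

open MonoidAlgebra YJAux YSaAux YPbAux YPcAux ZEAux

namespace UDAux

theorem sup_mul {T : Type*} [CommGroup T] {R : Subgroup T} {z w : T} (hz : z ∈ R) :
    R ⊔ Subgroup.zpowers (z * w) = R ⊔ Subgroup.zpowers w := by
  have key : ∀ (z w : T), z ∈ R → R ⊔ Subgroup.zpowers (z * w) ≤ R ⊔ Subgroup.zpowers w := by
    intro z w hz
    refine sup_le le_sup_left (Subgroup.zpowers_le.2 (Subgroup.mul_mem _
      (Subgroup.mem_sup_left hz) (Subgroup.mem_sup_right (Subgroup.mem_zpowers w))))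
  refine le_antisymm (key z w hz) ?_
  have h1 := key z⁻¹ (z * w) (R.inv_mem hz)
  rwa [inv_mul_cancel_left] at h1

open Classical in
theorem cnt {T : Type*} [CommGroup T] [Fintype T] {p : ℕ}
    (hp : p.Prime) (hT : IsPGroup p T) {E : Subgroup (MulAut T)} (hE : ¬ p ∣ Nat.card E)
    {R : Subgroup T} (hER : ∀ α ∈ E, ∀ z ∈ R, α z = z) (u : T) :
    Nat.card R * Nat.card E ≤ st E u * (Finset.univ.filter fun v : T =>
      ∃ α ∈ E, R ⊔ Subgroup.zpowers v = R ⊔ Subgroup.zpowers (α u)).card := by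
  have : Fintype E := Fintype.ofFinite _
  have : Fintype R := Fintype.ofFinite _
  have h1 : Nat.card R * Nat.card E = (Finset.univ : Finset (R × E)).card := by
    rw [Finset.card_univ, Fintype.card_prod, Nat.card_eq_fintype_card,
      Nat.card_eq_fintype_card]
  rw [h1]
  refine Finset.card_le_mul_card_image_of_maps_to
    (f := fun x : R × E => (x.1 : T) * (x.2 : MulAut T) u) (fun x _ => ?_) _ (fun v _ => ?_)
  · exact Finset.mem_filter.2 ⟨Finset.mem_univ _, x.2, x.2.2, sup_mul x.1.2⟩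
  · by_cases hne : ∃ x0 : R × E, (x0.1 : T) * (x0.2 : MulAut T) u = v
    · obtain ⟨x0, hx0⟩ := hne
      rw [← st_eq u]
      refine Finset.card_le_card_of_injOn (fun x => x0.2⁻¹ * x.2) ?_ ?_
      · intro x hx
        have hx1 := (Finset.mem_filter.1 (Finset.mem_coe.1 hx)).2
        refine Finset.mem_coe.2 (Finset.mem_filter.2 ⟨Finset.mem_univ _, ?_⟩)
        refine fix_of_mem' hp hT hE hER (E.mul_mem (E.inv_mem x0.2.2) x.2.2) ?_
        have h2 : (x0.1 : T) * (x0.2 : MulAut T) u = (x.1 : T) * (x.2 : MulAut T) u := by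
          rw [hx0]
          exact hx1.symm
        have h3 : ((x0.2 : MulAut T) u)⁻¹ * (x.2 : MulAut T) u = (x0.1 : T) * (x.1 : T)⁻¹ := by
          have h4 : (x.2 : MulAut T) u = (x.1 : T)⁻¹ * ((x0.1 : T) * (x0.2 : MulAut T) u) := by
            rw [h2, inv_mul_cancel_left]
          rw [h4]
          rw [mul_left_comm, mul_comm (x0.1 : T) ((x0.2 : MulAut T) u), inv_mul_cancel_left,
            mul_comm]
        have h5 : ((x0.2 : MulAut T) u)⁻¹ * (x.2 : MulAut T) u ∈ R := by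
          rw [h3]
          exact R.mul_mem x0.1.2 (R.inv_mem x.1.2)
        have h6 := hER _ (E.inv_mem x0.2.2) _ h5
        rw [map_mul, map_inv, MulAut.inv_apply_self] at h6
        change u⁻¹ * ((x0.2 : MulAut T)⁻¹ * (x.2 : MulAut T)) u ∈ R
        rw [MulAut.mul_apply, h6]
        exact h5
      · intro x hx y hy hxy
        have hx1 := (Finset.mem_filter.1 (Finset.mem_coe.1 hx)).2
        have hy1 := (Finset.mem_filter.1 (Finset.mem_coe.1 hy)).2
        have h2 : x.2 = y.2 := mul_left_cancel hxy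
        have h3 : (x.1 : T) * (x.2 : MulAut T) u = (y.1 : T) * (y.2 : MulAut T) u :=
          Eq.trans hx1 hy1.symm
        rw [h2] at h3
        exact Prod.ext (Subtype.ext (mul_right_cancel h3)) h2
    · rw [Finset.filter_eq_empty_iff.2, Finset.card_empty]
      · exact Nat.zero_le _
      · intro x _ hx
        exact hne ⟨x, hx⟩

end UDAux

open UDAux

section
variable {p : ℕ} [Fact p.Prime] {k : Type*} [Field k] [IsAlgClosed k] [CharP k p]
  {A : Type*} [Group A] [Finite A] {T : Type*} [CommGroup T] [Fintype T]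
  {φ : T →* A} {b f i : MonoidAlgebra k A} {D : Subgroup A} {R : Subgroup T}
  {G : Subgroup T → A → KW p k}

/-- **the summand of `Ml ψ l` is constant on the orbits** -/
theorem sv_al (h : Stp φ b D f i R G) (hE : ¬ p ∣ eN D f)
    {BB : ∀ H : Subgroup A, MonoidAlgebra (OW p k) ↥H}
    (hBB : ∀ u c, LbH (C1 (φ u)) i c → CenL (dnr (C1 (φ u)) c) (BB (C1 (φ u))))
    {B : MonoidAlgebra (OW p k) A} (hB : CenL b B)
    {ψ : IR φ R B → T → KW p k} (hψ : Rows φ D f R G B ψ)
    {l : T →* (KW p k)ˣ} (hl : ∀ z ∈ R, l z = 1) {α : MulAut T} (hα : α ∈ EG φ D f) {v : T}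
    (hv : v ∉ R) :
    sv φ D f R G BB (Ml ψ l) (α v) = sv φ D f R G BB (Ml ψ l) v := by
  classical
  have := finite_EG (φ := φ) (D := D) (f := f)
  have : Fintype ↥(EG φ D f) := Fintype.ofFinite _
  obtain ⟨g, hg, hgα⟩ := mem_EG.1 hα
  have hαR : ∀ w, w ∉ R → α w ∉ R := by
    intro w hw hw'
    apply hw
    have h1 := YFAux.al_fix h ((EG φ D f).inv_mem hα) hw'
    rw [MulAut.inv_apply_self] at h1
    rw [h1]
    exact hw'
  have hrow : ∀ w, w ∉ R → rwv φ G R (Ml ψ l) (α w) = rwv φ G R (Ml ψ l) w := by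
    intro w hw
    rw [rwv_Mlq h hE hψ hl hw, rwv_Mlq h hE hψ hl (hαR w hw)]
    exact Equiv.sum_comp (Equiv.mulRight (⟨α, hα⟩ : ↥(EG φ D f)))
      (fun β : ↥(EG φ D f) => ((l ((β : MulAut T) w) : (KW p k)ˣ) : KW p k))
  have hvi : v⁻¹ ∉ R := fun h4 => hv ((Subgroup.inv_mem_iff R).1 h4)
  have hz : (Subgroup.zpowers v).map α.toMonoidHom = Subgroup.zpowers (α v) := by
    rw [MonoidHom.map_zpowers]
    rfl
  have heQ : eQ φ D f (Subgroup.zpowers (α v)) = eQ φ D f (Subgroup.zpowers v) := by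
    rw [← hz]
    exact eQ_conj hg hgα _
  obtain ⟨c, hc⟩ := exists_lbH h.src (YFAux.phi_mem h v)
  have hcq : ∀ w : T, cq φ (Subgroup.zpowers w) = C1 (φ w) := by
    intro w
    change CD ((Subgroup.zpowers w).map φ) = _
    rw [MonoidHom.map_zpowers, CD_zpowers]
  have hc' : LbH (C1 (φ (α v))) i (cj g c) := by
    have h1 : LbH (cq φ (Subgroup.zpowers v)) i c := by
      rw [hcq]
      exact hc
    have h2 := lbH_conj h.src h.ran hg hgα h1
    rw [hz, hcq] at h2
    exact h2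
  have hcg : φ (α v) * g = g * φ v := by
    rw [hgα, inv_mul_cancel_right]
  have hW := wf_conj hcg hc.blk (hBB v c hc) (hBB (α v) _ hc')
    (V_conj (Ml_mem hB hψ l).1) (V_conj (Ml_mem hB hψ l).1)
  rw [sv, sv, heQ, hW, hrow v hv, ← map_inv, hrow v⁻¹ hvi]

end

open Classical in
/-- **the sum over the places outside `R`** -/
theorem orb_sum {T : Type*} [CommGroup T] [Fintype T] {K : Type*} [Field K] [CharZero K] {p : ℕ}
    (hp : p.Prime) (hT : IsPGroup p T) {E : Subgroup (MulAut T)} (hE : ¬ p ∣ Nat.card E)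
    {R : Subgroup T} (hER : ∀ α ∈ E, ∀ z ∈ R, α z = z) {q : ℕ} {F : T → K}
    (hF : ∀ u', u' ∉ R → ∃ m : ℤ, 0 ≤ m ∧
      ∑ v : T with R ⊔ Subgroup.zpowers v = R ⊔ Subgroup.zpowers u', F v = (q : K) * m) {u : T}
    (hu : u ∉ R)
    (hO : ∀ α ∈ E, ∃ m : ℤ, (st E u : ℤ) * ((Finset.univ.filter fun v : T =>
      R ⊔ Subgroup.zpowers v = R ⊔ Subgroup.zpowers (α u)).card : ℤ) ≤ m ∧
      ∑ v : T with R ⊔ Subgroup.zpowers v = R ⊔ Subgroup.zpowers (α u), F v = (q : K) * m) :
    ∃ M : ℤ, ∑ v : T with v ∉ R, F v = (q : K) * M ∧ (Nat.card R : ℤ) * Nat.card E ≤ M := by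
  have : Fintype (Subgroup T) := Fintype.ofFinite _
  have hαR : ∀ α ∈ E, ∀ w, w ∉ R → α w ∉ R := by
    intro α hα w hw hw'
    apply hw
    have h1 := hER _ (E.inv_mem hα) _ hw'
    rw [MulAut.inv_apply_self] at h1
    rw [h1]
    exact hw'
  have hfib : ∀ u, u ∉ R → ∀ v, R ⊔ Subgroup.zpowers v = R ⊔ Subgroup.zpowers u → v ∉ R := by
    intro u hu v hv hvR
    apply hu
    have h3 : R ⊔ Subgroup.zpowers v = R := by
      rw [sup_eq_left, Subgroup.zpowers_le]
      exact hvR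
    have h4 : u ∈ R ⊔ Subgroup.zpowers u := Subgroup.mem_sup_right (Subgroup.mem_zpowers u)
    rwa [← hv, h3] at h4
  -- the fibre of `Q`
  have hfeq : ∀ w, w ∉ R → (Finset.univ.filter fun v : T => v ∉ R).filter
      (fun v => R ⊔ Subgroup.zpowers v = R ⊔ Subgroup.zpowers w)
      = Finset.univ.filter fun v : T => R ⊔ Subgroup.zpowers v = R ⊔ Subgroup.zpowers w := by
    intro w hw
    ext v
    rw [Finset.mem_filter, Finset.mem_filter, Finset.mem_filter]
    exact ⟨fun h2 => ⟨Finset.mem_univ _, h2.2⟩,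
      fun h2 => ⟨⟨Finset.mem_univ _, hfib w hw v h2.2⟩, h2.2⟩⟩
  have h1 : ∀ Q : Subgroup T, ∃ m : ℤ, 0 ≤ m ∧
      ∑ v ∈ Finset.univ.filter (fun v : T => v ∉ R) with R ⊔ Subgroup.zpowers v = Q, F v
        = (q : K) * m ∧ ((∃ α ∈ E, R ⊔ Subgroup.zpowers (α u) = Q) → (st E u : ℤ) *
          (((Finset.univ.filter fun v : T => v ∉ R).filter
            fun v => R ⊔ Subgroup.zpowers v = Q).card : ℤ) ≤ m) := by
    intro Q
    by_cases hQ : ∃ α ∈ E, R ⊔ Subgroup.zpowers (α u) = Q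
    · obtain ⟨α, hα, rfl⟩ := hQ
      obtain ⟨m, hm0, hm⟩ := hO α hα
      refine ⟨m, ?_, ?_, fun _ => ?_⟩
      · refine le_trans ?_ hm0
        positivity
      · rw [hfeq _ (hαR α hα u hu)]
        exact hm
      · rw [hfeq _ (hαR α hα u hu)]
        exact hm0
    by_cases hQ' : ∃ w, w ∉ R ∧ R ⊔ Subgroup.zpowers w = Q
    · obtain ⟨w, hw, rfl⟩ := hQ'
      obtain ⟨m, hm0, hm⟩ := hF w hw
      refine ⟨m, hm0, ?_, fun h2 => absurd h2 hQ⟩
      rw [hfeq _ hw]
      exact hm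
    · refine ⟨0, le_rfl, ?_, fun h2 => absurd h2 hQ⟩
      rw [Finset.sum_eq_zero, Int.cast_zero, mul_zero]
      intro v hv
      exfalso
      rw [Finset.mem_filter, Finset.mem_filter] at hv
      exact hQ' ⟨v, hv.1.2, hv.2⟩
  choose m hm0 hm hmO using h1
  refine ⟨∑ Q, m Q, ?_, ?_⟩
  · rw [← Finset.sum_fiberwise (Finset.univ.filter fun v : T => v ∉ R)
      (fun v => R ⊔ Subgroup.zpowers v) F, Finset.sum_congr rfl fun Q _ => hm Q, ← Finset.mul_sum]
    push_cast
    rfl
  · have h2 := UDAux.cnt hp hT hE hER u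
    set O : Finset (Subgroup T) :=
      Finset.univ.filter fun Q => ∃ α ∈ E, R ⊔ Subgroup.zpowers (α u) = Q with hOdef
    have h3 : (Finset.univ.filter fun v : T =>
        ∃ α ∈ E, R ⊔ Subgroup.zpowers v = R ⊔ Subgroup.zpowers (α u)).card
        = ∑ Q ∈ O, ((Finset.univ.filter fun v : T => v ∉ R).filter
            fun v => R ⊔ Subgroup.zpowers v = Q).card := by
      rw [Finset.card_eq_sum_card_fiberwise (f := fun v : T => R ⊔ Subgroup.zpowers v) (t := O)]
      · refine Finset.sum_congr rfl fun Q hQ => ?_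
        obtain ⟨α, hα, rfl⟩ := (Finset.mem_filter.1 hQ).2
        congr 1
        ext v
        rw [Finset.mem_filter, Finset.mem_filter, Finset.mem_filter, Finset.mem_filter]
        constructor
        · rintro ⟨-, h4⟩
          exact ⟨⟨Finset.mem_univ _, hfib _ (hαR α hα u hu) v h4⟩, h4⟩
        · rintro ⟨-, h4⟩
          exact ⟨⟨Finset.mem_univ _, α, hα, h4⟩, h4⟩
      · intro v hv
        obtain ⟨α, hα, h4⟩ := (Finset.mem_filter.1 (Finset.mem_coe.1 hv)).2
        exact Finset.mem_coe.2 (Finset.mem_filter.2 ⟨Finset.mem_univ _, α, hα, h4.symm⟩)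
    have h4 : (Nat.card R : ℤ) * Nat.card E ≤ ∑ Q ∈ O, (st E u : ℤ) *
          (((Finset.univ.filter fun v : T => v ∉ R).filter
            fun v => R ⊔ Subgroup.zpowers v = Q).card : ℤ) := by
      rw [← Finset.mul_sum]
      rw [h3] at h2
      exact_mod_cast h2
    refine h4.trans ?_
    have h5 : ∑ Q ∈ O, (st E u : ℤ) *
          (((Finset.univ.filter fun v : T => v ∉ R).filter
            fun v => R ⊔ Subgroup.zpowers v = Q).card : ℤ) ≤ ∑ Q ∈ O, m Q :=
      Finset.sum_le_sum fun Q hQ => hmO Q (Finset.mem_filter.1 hQ).2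
    exact h5.trans (Finset.sum_le_sum_of_subset_of_nonneg (Finset.subset_univ _)
      fun Q _ _ => hm0 Q)

end Pool.Agent.Lib.P0c8ca5.Ex
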