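import Mathlib
import Pool.Agent.Lib.P0c8ca5Ex.UC
import Pool.Agent.Lib.P0c8ca5Ex.UD

/-!
# UE: the columns vanish if `|E| < q`

`kerNe`, `vane`: the statements of ZEb with `|E| < q` in place of `|E|² < q (p - 1)`: if a sum over a fibre does not vanish,
then the sums over the conjugate fibres are all equal and together at least `q |R| |E|`, but the sum over all places is at
most `|R| |E|²`.
-/

set_option linter.unusedSectionVars false

namespace Pool.Agent.Lib.P0c8ca5.Ex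

open MonoidAlgebra YJAux YSaAux YPbAux YPcAux ZEAux

namespace UEx

section
variable {p : ℕ} [Fact p.Prime] {k : Type*} [Field k] [IsAlgClosed k] [CharP k p]
  {A : Type*} [Group A] [Finite A] {T : Type*} [CommGroup T] [Fintype T]
  {φ : T →* A} {b f i : MonoidAlgebra k A} {D : Subgroup A} {R : Subgroup T}
  {G : Subgroup T → A → KW p k}

open Classical in
/-- the fibres of the conjugates -/
theorem fib_al {E : Subgroup (MulAut T)} (hER : ∀ α ∈ E, ∀ z ∈ R, α z = z) {α : MulAut T}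
    (hα : α ∈ E) {u v : T} :
    R ⊔ Subgroup.zpowers (α v) = R ⊔ Subgroup.zpowers (α u) ↔
      R ⊔ Subgroup.zpowers v = R ⊔ Subgroup.zpowers u := by
  have h1 : ∀ w : T, R ⊔ Subgroup.zpowers (α w) = (R ⊔ Subgroup.zpowers w).map
      (α : T ≃* T).toMonoidHom := by
    intro w
    rw [Subgroup.map_sup, MonoidHom.map_zpowers]
    congr 1
    ext z
    rw [Subgroup.mem_map]
    exact ⟨fun hz => ⟨z, hz, hER α hα z hz⟩, fun ⟨y, hy, hyz⟩ => by
      rw [← hyz]
      have h2 : (α : T ≃* T).toMonoidHom y = y := hER α hα y hy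
      rw [h2]
      exact hy⟩
  rw [h1, h1]
  exact (Subgroup.map_injective (α : T ≃* T).injective).eq_iff

open Classical in
/-- **the form vanishes at the `Ml ψ l`** -/
theorem kerNe {q : ℕ} (hq0 : q ≠ 0) (hpq : p ∣ q) (hqe : ∀ e : ℕ, ¬ p ∣ e → e.Coprime q)
    (h : Stp φ b D f i R G)
    (hC : ∀ Q, R < Q → ∀ c, LbH (cq φ Q) i c → ∀ X ∈ VA (p := p) (dnr (cq φ Q) c),
      ∀ Y ∈ VA (p := p) (dnr (cq φ Q) c), ∃ m a a' : ℤ,
      (Fintype.card T : KW p k) * (eQ φ D f Q : KW p k) * ip (rg p X) Y = m ∧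
      ip X (on (cq φ Q) (G Q)) = a ∧ ip Y (on (cq φ Q) (G Q)) = a' ∧ (q : ℤ) ∣ m - a * a')
    (hE : ¬ p ∣ eN D f) (hEq : eN D f < q)
    {BB : ∀ H : Subgroup A, MonoidAlgebra (OW p k) ↥H}
    (hBB : ∀ u c, LbH (C1 (φ u)) i c → CenL (dnr (C1 (φ u)) c) (BB (C1 (φ u))))
    {B : MonoidAlgebra (OW p k) A} (hB : CenL b B)
    {ψ : IR φ R B → T → KW p k} (hψ : Rows φ D f R G B ψ)
    {l : T →* (KW p k)ˣ} (hl : ∀ z ∈ R, l z = 1) {u : T} (hu : u ∉ R) {m : ℤ}
    (hs : ∑ v : T with R ⊔ Subgroup.zpowers v = R ⊔ Subgroup.zpowers u,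
      sv φ D f R G BB (Ml ψ l) v = (q : KW p k) * m) : m = 0 := by
  by_contra hm0
  have hT := YPaAux.isPGroup_T h
  have hV := (Ml_mem hB hψ l).1
  have := finite_EG (φ := φ) (D := D) (f := f)
  have hEc : ¬ p ∣ Nat.card (EG φ D f) := by rw [card_EG h.inj h.ran]; exact hE
  have hER : ∀ α ∈ EG φ D f, ∀ z ∈ R, α z = z := fun α hα z hz => YFAux.al_fix h hα hz
  obtain ⟨M, hM, hle⟩ := orb_sum (K := KW p k) (q := q) (F := sv φ D f R G BB (Ml ψ l))
    (Fact.out : p.Prime) hT hEc hER (fun u' hu' => by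
      obtain ⟨N, hN⟩ := exists_Nq hq0 hpq h hC hT hBB hu'
      obtain ⟨⟨m', h1, -, h2, -⟩, -⟩ := hN _ hV
      exact ⟨m', h1, h2⟩) hu (fun α hα => by
      have hαu : α u ∉ R := by
        intro h1
        apply hu
        have h2 : α u = u := by
          have h3 := hER α⁻¹ ((EG φ D f).inv_mem hα) _ h1
          rw [MulAut.inv_apply_self] at h3
          exact h3.symm
        rwa [h2] at h1
      have hsum : ∑ v : T with R ⊔ Subgroup.zpowers v = R ⊔ Subgroup.zpowers (α u),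
          sv φ D f R G BB (Ml ψ l) v = (q : KW p k) * m := by
        rw [← hs]
        symm
        refine Finset.sum_bij (fun v _ => α v) ?_ ?_ ?_ ?_
        · intro v hv
          exact Finset.mem_filter.2 ⟨Finset.mem_univ _,
            (fib_al hER hα).2 (Finset.mem_filter.1 hv).2⟩
        · intro v _ w _ hvw
          exact α.injective hvw
        · intro v hv
          have hv' := (Finset.mem_filter.1 hv).2
          refine ⟨α⁻¹ v, Finset.mem_filter.2 ⟨Finset.mem_univ _, ?_⟩,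
            MulAut.apply_inv_self _ _ _⟩
          rw [← fib_al hER hα, MulAut.apply_inv_self]
          exact hv'
        · intro v hv
          exact (sv_al h hE hBB hB hψ hl hα (fib_notMem hu (Finset.mem_filter.1 hv).2)).symm
      refine ⟨m, ?_, hsum⟩
      have h1 := UCx.loc_bound hq0 hpq hqe h hC hE hBB hB hψ hl hαu hm0 hsum
      have h2 : eQ φ D f (R ⊔ Subgroup.zpowers (α u)) = st (EG φ D f) u := by
        rw [(eQ_sup h.cen h.inj (α u)).1]
        unfold st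
        refine Nat.card_congr (Equiv.subtypeEquiv
          (MulAut.conj (⟨α, hα⟩ : ↥(EG φ D f))⁻¹).toEquiv fun β => ?_)
        have h3 : (((MulAut.conj (⟨α, hα⟩ : ↥(EG φ D f))⁻¹).toEquiv β : ↥(EG φ D f)) :
            MulAut T) u = α⁻¹ ((β : MulAut T) (α u)) := by
          change ((((⟨α, hα⟩ : ↥(EG φ D f))⁻¹ * β * (⟨α, hα⟩ : ↥(EG φ D f))⁻¹⁻¹ :
            ↥(EG φ D f))) : MulAut T) u = _
          rw [inv_inv, Subgroup.coe_mul, Subgroup.coe_mul, Subgroup.coe_inv]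
          rfl
        rw [h3]
        constructor
        · intro h4
          rw [h4]
          exact MulAut.inv_apply_self _ _ _
        · intro h4
          have h5 := congrArg α h4
          rwa [MulAut.apply_inv_self] at h5
      rw [h2] at h1
      exact h1)
  obtain ⟨r, hr0, hr, -⟩ := rg_nonneg (p := p) hV
  rw [tot_Mlq h hE hBB hB hψ hl, hr] at hM
  have h1 : (Nat.card R : ℚ) * (Nat.card (EG φ D f) : ℚ) ^ 2
      - (Nat.card R : ℚ) * ((Fintype.card T : ℚ) * ((Nat.card (EG φ D f) : ℚ) * r))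
      = (q : ℚ) * M := by
    have h2 : (((Nat.card R : ℚ) * (Nat.card (EG φ D f) : ℚ) ^ 2
      - (Nat.card R : ℚ) * ((Fintype.card T : ℚ) * ((Nat.card (EG φ D f) : ℚ) * r)) : ℚ) :
        KW p k) = (((q : ℚ) * M : ℚ) : KW p k) := by
      push_cast
      exact hM
    exact_mod_cast h2
  have h3 : (q : ℚ) * M ≤ (Nat.card R : ℚ) * (Nat.card (EG φ D f) : ℚ) ^ 2 := by
    rw [← h1]
    have h4 : 0 ≤ (Nat.card R : ℚ) * ((Fintype.card T : ℚ) * ((Nat.card (EG φ D f) : ℚ) * r)) := by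
      positivity
    linarith
  have h4 : (q : ℤ) * M ≤ (Nat.card R : ℤ) * (Nat.card (EG φ D f) : ℤ) ^ 2 := by exact_mod_cast h3
  have hEc' : Nat.card (EG φ D f) < q := by rw [card_EG h.inj h.ran]; exact hEq
  have hR1 : 0 < (Nat.card R : ℤ) := by exact_mod_cast Nat.card_pos
  have hE1 : 0 < (Nat.card (EG φ D f) : ℤ) := by exact_mod_cast Nat.card_pos
  have h5 : (q : ℤ) * ((Nat.card R : ℤ) * Nat.card (EG φ D f))
      ≤ (Nat.card R : ℤ) * (Nat.card (EG φ D f) : ℤ) ^ 2 :=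
    (mul_le_mul_of_nonneg_left hle (by positivity)).trans h4
  have h6 : (Nat.card (EG φ D f) : ℤ) < q := by exact_mod_cast hEc'
  have h7 : (Nat.card R : ℤ) * (Nat.card (EG φ D f) : ℤ) ^ 2
      < (q : ℤ) * ((Nat.card R : ℤ) * Nat.card (EG φ D f)) := by
    have h8 : 0 < (Nat.card R : ℤ) * Nat.card (EG φ D f) := mul_pos hR1 hE1
    nlinarith
  exact absurd h5 (not_le.2 h7)

/-- **the columns vanish** -/
theorem vane {q : ℕ} (hq0 : q ≠ 0) (hpq : p ∣ q) (hqe : ∀ e : ℕ, ¬ p ∣ e → e.Coprime q)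
    (h : Stp φ b D f i R G)
    (hC : ∀ Q, R < Q → ∀ c, LbH (cq φ Q) i c → ∀ X ∈ VA (p := p) (dnr (cq φ Q) c),
      ∀ Y ∈ VA (p := p) (dnr (cq φ Q) c), ∃ m a a' : ℤ,
      (Fintype.card T : KW p k) * (eQ φ D f Q : KW p k) * ip (rg p X) Y = m ∧
      ip X (on (cq φ Q) (G Q)) = a ∧ ip Y (on (cq φ Q) (G Q)) = a' ∧ (q : ℤ) ∣ m - a * a')
    (hE : ¬ p ∣ eN D f) (hEq : eN D f < q)
    {B : MonoidAlgebra (OW p k) A} (hB : CenL b B)
    {BB : ∀ H : Subgroup A, MonoidAlgebra (OW p k) ↥H}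
    (hBB : ∀ u c, LbH (C1 (φ u)) i c → CenL (dnr (C1 (φ u)) c) (BB (C1 (φ u))))
    {ψ : IR φ R B → T → KW p k} (hψ : Rows φ D f R G B ψ) {u : T} (hu : u ∉ R) {s : A}
    (hs : s ∈ C1 (φ u)) (hsp : Preg p s) :
    cut (C1 (φ u)) (BB (C1 (φ u))) (Mc ψ) (φ u * s) = 0 := by
  classical
  have hT := YPaAux.isPGroup_T h
  have hX := (Mc_mem h hB hψ).1
  obtain ⟨N, hN⟩ := exists_Nq hq0 hpq h hC hT hBB hu
  obtain ⟨c, hBQ⟩ := exists_c h hBB u
  obtain ⟨P, hRP, hPQ, hcard, hg⟩ := YSaAux.exists_P (Fact.out : p.Prime) hT hu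
  have hT0 : (Fintype.card T : KW p k) ≠ 0 := Nat.cast_ne_zero.2 Fintype.card_ne_zero
  -- the form vanishes at `Mc`
  have hNz : ∀ v, R ⊔ Subgroup.zpowers v = R ⊔ Subgroup.zpowers u → ∀ s,
      ∑ t, (N s t : KW p k) * xs φ _ (BB (cq φ (R ⊔ Subgroup.zpowers u))) (Mc ψ) t v = 0 := by
    intro v hv s
    have h1 : ∀ t, (N s t : KW p k) * xs φ _ (BB (cq φ (R ⊔ Subgroup.zpowers u))) (Mc ψ) t v
        = ∑ l : T →* (KW p k)ˣ, (N s t : KW p k) *
          xs φ _ (BB (cq φ (R ⊔ Subgroup.zpowers u))) (Ml ψ l) t v := by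
      intro t
      rw [Mc_eq, xs_sum, Finset.mul_sum]
    rw [Finset.sum_congr rfl fun t _ => h1 t, Finset.sum_comm]
    refine Finset.sum_eq_zero fun l _ => ?_
    by_cases hl : ∀ z ∈ R, l z = 1
    · obtain ⟨⟨m, -, hm, hsum, hz⟩, -⟩ := hN _ (Ml_mem hB hψ l).1
      exact hz (kerNe hq0 hpq hqe h hC hE hEq hBB hB hψ hl hu hsum) v hv s
    · push Not at hl
      obtain ⟨z, hz, hlz⟩ := hl
      have h2 : Ml ψ l = fun _ => 0 := by
        funext x
        unfold Ml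
        exact Finset.sum_eq_zero fun χ _ => by rw [mlt_out hψ hz hlz, zero_mul]
      refine Finset.sum_eq_zero fun t _ => ?_
      rw [h2, xs_zero, mul_zero]
  -- the `Wf` vanish
  have hW : ∀ v, R ⊔ Subgroup.zpowers v = R ⊔ Subgroup.zpowers u →
      Wf p (cq φ (R ⊔ Subgroup.zpowers u))
        (cut _ (BB (cq φ (R ⊔ Subgroup.zpowers u))) (Mc ψ))
        (cut _ (BB (cq φ (R ⊔ Subgroup.zpowers u))) (Mc ψ)) (φ v) = 0 := by
    intro v hv
    have h1 := (hN _ hX).2 v hv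
    have hv' : R ⊔ Subgroup.zpowers v⁻¹ = R ⊔ Subgroup.zpowers u := by
      rw [Subgroup.zpowers_inv, hv]
    have h2 : ∑ s, ∑ t, (N s t : KW p k) *
        (xs φ _ (BB (cq φ (R ⊔ Subgroup.zpowers u))) (Mc ψ) s v *
          xs φ _ (BB (cq φ (R ⊔ Subgroup.zpowers u))) (Mc ψ) t v⁻¹) = 0 := by
      refine Finset.sum_eq_zero fun s _ => ?_
      have h3 : ∑ t, (N s t : KW p k) *
          (xs φ _ (BB (cq φ (R ⊔ Subgroup.zpowers u))) (Mc ψ) s v *
            xs φ _ (BB (cq φ (R ⊔ Subgroup.zpowers u))) (Mc ψ) t v⁻¹)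
          = xs φ _ (BB (cq φ (R ⊔ Subgroup.zpowers u))) (Mc ψ) s v *
            ∑ t, (N s t : KW p k) *
              xs φ _ (BB (cq φ (R ⊔ Subgroup.zpowers u))) (Mc ψ) t v⁻¹ := by
        rw [Finset.mul_sum]
        exact Finset.sum_congr rfl fun t _ => by ring
      rw [h3, hNz _ hv' s, mul_zero]
    rw [h2, mul_zero, add_zero, rwv_Mc hψ (fib_notMem hu hv), zero_mul] at h1
    have he0 : (eQ φ D f (R ⊔ Subgroup.zpowers u) : KW p k) ≠ 0 := by
      rw [(eQ_sup h.cen h.inj u).1]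
      have := finite_EG (φ := φ) (D := D) (f := f)
      exact Nat.cast_ne_zero.2 (Nat.one_le_iff_ne_zero.1 (st_pos (EG φ D f) u))
    exact (mul_eq_zero.1 h1).resolve_left (mul_ne_zero hT0 he0)
  have huQ : u ∈ R ⊔ Subgroup.zpowers u := Subgroup.mem_sup_right (Subgroup.mem_zpowers u)
  have key : ∀ H : Subgroup A, H = cq φ (R ⊔ Subgroup.zpowers u) → s ∈ H →
      cut H (BB H) (Mc ψ) (φ u * s) = 0 := by
    rintro H rfl hsH
    exact YPbAux.col_zero hcard hPQ hBQ hX (fun v hv => hW v ((hg v v.2).1 fun h1 =>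
      hv (Subgroup.mem_subgroupOf.2 h1))) huQ ((hg u huQ).2 rfl)
      (y := ⟨s, hsH⟩) ((FIAux.preg_coe' (⟨s, hsH⟩ : ↥(cq φ (R ⊔ Subgroup.zpowers u)))).1 hsp)
  exact key _ (cq_eq h.cen u).symm hs

end

end UEx

end Pool.Agent.Lib.P0c8ca5.Ex
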