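import Mathlib
import Pool.Agent.Lib.P0c8ca5Ex.W1d
import Pool.Agent.Lib.P0c8ca5Ex.UE

/-!
# UF: the step and the induction if `|E_Q| < q`

As ZJ and W1d with `Nat.card (Fx E Q) < q` in place of `Nat.card (Fx E Q) ^ 2 < q * (p - 1)`: `BigZ`, `exists_rows_botZ`.
-/

set_option linter.unusedSectionVars false

namespace Pool.Agent.Lib.P0c8ca5.Ex

open MonoidAlgebra

section
variable {T : Type*} [CommGroup T] [Fintype T]

/-- the numerical conditions for the step at `Q` with the modulus `q` -/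
structure BigZ (K : Type*) [Field K] (q : ℕ) (E : Subgroup (MulAut T)) (Q : Subgroup T) :
    Prop where
  many : MTD K (Fx E Q) Q
  lt : Nat.card (Fx E Q) < q
  dvd : Nat.card (Fx E Q) = 1 ∨ q * Nat.card Q ∣ Fintype.card T

end

section
variable {p : ℕ} [Fact p.Prime] {k : Type*} [Field k] [IsAlgClosed k] [CharP k p]
  {A : Type*} [Group A] [Finite A] {T : Type*} [CommGroup T] [Fintype T]
  {φ : T →* A} {b f i : MonoidAlgebra k A} {D : Subgroup A} {R Q : Subgroup T}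
  {G : Subgroup T → A → KW p k}

theorem stepe {q : ℕ} (hp2 : p ≠ 2) (hpq : p ∣ q) (hqe : ∀ e : ℕ, ¬ p ∣ e → e.Coprime q)
    (h : Stp φ b D f i R G)
    (hC : ∀ Q, R < Q → Cq q φ D f i G Q) (hpE : ¬ p ∣ eN D f) (hRT : R ≠ ⊤)
    (hlt : eN D f < q) (hdvd : eN D f = 1 ∨ q * Nat.card R ∣ Fintype.card T)
    (hex : ∀ B : MonoidAlgebra (OW p k) A, CenL b B →
      ∃ ψ : IR φ R B → T → KW p k, Rows φ D f R G B ψ)
    (hun : ∀ Γ Γ' : A → KW p k, GR φ b D f R G Γ → GR φ b D f R G Γ' → Γ = Γ') :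
    ∃! g : A → KW p k, GOK φ D f i (upd G R g) R ∧ Cq q φ D f i (upd G R g) R := by
  have := Fintype.ofFinite A
  have hq0 : q ≠ 0 := Nat.ne_zero_of_lt hlt
  have hb := h.src.root.blk
  obtain ⟨B, hB⟩ := exists_cenL (p := p) hb.idem
    (fun g => invBy_iff_cj.1 hb.invBy g (Subgroup.mem_top g))
  obtain ⟨ψ, hψ⟩ := hex B hB
  have H : Inp φ b D f i R G B ψ :=
    ⟨h, hB, hψ, fun BB hBB u hu s hs hsp =>
      UEx.vane hq0 hpq hqe h hC hpE hlt hB hBB hψ hu hs hsp⟩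
  have hGR : GR φ b D f R G (Gm ψ) :=
    { blk := gm_mem H
      reg := fun x hx => by rw [Gm, rg_not hx, mul_zero]
      nrm := gm_nrm H
      row := fun X hX => gm_row H hX
      cong := fun X hX Y hY => gm_cong H hRT hX hY }
  have hG := (gr_iff h (Gm ψ)).2 hGR
  refine ⟨Gm ψ, ⟨hG, ?_⟩, fun g hg => hun g _ ((gr_iff h g).1 hg.1) hGR⟩
  rcases hdvd with h1 | h1
  · refine cq_one hp2 h.src h.inj h.ran hG ?_ q
    rw [eQ_cen h.cen h.inj, card_EG h.inj h.ran, h1]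
  · exact (cq_iff h q _).2 fun X hX Y hY => gm_congq hq0 hpq H hC h1 hX hY

/-- **the value at `Q`** -/
theorem unique_atZ {q : ℕ} (hp2 : p ≠ 2) (hpq : p ∣ q) (hqe : ∀ e : ℕ, ¬ p ∣ e → e.Coprime q)
    (h : Src p b D f i)
    (hφ : Function.Injective φ) (hr : ∀ x, x ∈ D ↔ ∃ t, φ t = x) (hpE : ¬ p ∣ eN D f)
    (hQ : Q ≠ ⊤) (hbig : BigZ (KW p k) q (EG φ D f) Q)
    (hG : ∀ Q', Q < Q' → GOK φ D f i G Q' ∧ Cq q φ D f i G Q')
    (he : EqG φ D f G fun Q' => Q < Q') :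
    ∃! g : A → KW p k, GOK φ D f i (upd G Q g) Q ∧ Cq q φ D f i (upd G Q g) Q := by
  classical
  obtain ⟨c, φ', hc, hφ', hS, hEG, hcE, hCq, hiff⟩ := stp_downq q h hφ hr
    (fun Q' hQ' => (hG Q' hQ').1) (fun Q' hQ' => (hG Q' hQ').2) he
  have hpE' : ¬ p ∣ eN (D.subgroupOf (cq φ Q)) (dnr (cq φ Q) f) := by
    intro h1
    apply hpE
    have h2 : Fx (EG φ D f) Q ≤ EG φ D f := fun α hα => hα.1
    rw [hcE] at h1
    rw [← card_EG hφ hr]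
    exact h1.trans (Subgroup.card_dvd_of_le h2)
  obtain ⟨g, hg, hu⟩ := stepe hp2 hpq hqe hS hCq hpE' hQ
    (by rw [hcE]; exact hbig.lt) (by rw [hcE]; exact hbig.dvd)
    (fun B hB => exists_rowsY hp2 hS hpE' (by rw [hEG]; exact hbig.many) hB)
    (fun Γ Γ' hΓ hΓ' => gr_uniqueY hS hpE' (by rw [hEG]; exact hbig.many) hΓ hΓ')
  set g₁ : A → KW p k := fun x => if hx : x ∈ cq φ Q then g ⟨x, hx⟩ else 0 with hg₁
  have h0 : ∀ x, x ∉ cq φ Q → g₁ x = 0 := fun x hx => dif_neg hx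
  have h1 : (fun y : ↥(cq φ Q) => g₁ (y : A)) = g := by
    funext y
    exact dif_pos y.2
  refine ⟨g₁, (hiff g₁ h0).2 (by rw [h1]; exact hg), fun g₂ hg₂ => ?_⟩
  have h2 : ∀ x, x ∉ cq φ Q → g₂ x = 0 := fun x hx => by
    have h3 := hg₂.1.sup x hx
    rwa [upd_self] at h3
  have h3 := hu _ ((hiff g₂ h2).1 hg₂)
  funext x
  by_cases hx : x ∈ cq φ Q
  · have h4 := congrFun (h3.trans h1.symm) ⟨x, hx⟩
    exact h4
  · rw [h0 x hx, h2 x hx]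

theorem ind_gokZ {q : ℕ} (hp2 : p ≠ 2) (hpq : p ∣ q) (hqe : ∀ e : ℕ, ¬ p ∣ e → e.Coprime q)
    (h : Src p b D f i)
    (hφ : Function.Injective φ) (hr : ∀ x, x ∈ D ↔ ∃ t, φ t = x) (hpE : ¬ p ∣ eN D f)
    (hbig : ∀ Q : Subgroup T, Q ≠ ⊥ → Q ≠ ⊤ → BigZ (KW p k) q (EG φ D f) Q) :
    Ind φ D f (fun G Q => GOK φ D f i G Q ∧ Cq q φ D f i G Q) fun Q => Q ≠ ⊥ where
  up Q Q' hQ h1 h2 := h1 (le_bot_iff.1 (h2 ▸ hQ))
  inv Q α := not_congr (by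
    rw [Subgroup.map_eq_bot_iff_of_injective Q (f := α.toMonoidHom) α.injective])
  congr _ _ _ hG hQ := ⟨gok_congr hG hQ.1, cq_congr (hG _ le_rfl) hQ.2⟩
  conj _ hs _ hα _ _ hQ := ⟨gok_conj h hφ hr hs hα hQ.1, ZJAux.cq_conj q h hr hs hα hQ.2⟩
  base := by
    obtain ⟨g, hg, hg'⟩ := base hp2 h hφ hr
    exact ⟨g, fun G hG => ⟨hg G hG, cq_one hp2 h hφ hr (hg G hG) eQ_top q⟩, hg'⟩
  step Q _ hQ hP hG he := unique_atZ hp2 hpq hqe h hφ hr hpE hQ (hbig Q hP hQ) hG he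

/-- **the family at all `Q ≠ ⊥`** -/
theorem exists_gfamZ {q : ℕ} (hp2 : p ≠ 2) (hpq : p ∣ q) (hqe : ∀ e : ℕ, ¬ p ∣ e → e.Coprime q)
    (h : Src p b D f i)
    (hφ : Function.Injective φ) (hr : ∀ x, x ∈ D ↔ ∃ t, φ t = x) (hpE : ¬ p ∣ eN D f)
    (hbig : ∀ Q : Subgroup T, Q ≠ ⊥ → Q ≠ ⊤ → BigZ (KW p k) q (EG φ D f) Q) :
    ∃ G : Subgroup T → A → KW p k, (∀ Q, Q ≠ ⊥ → GOK φ D f i G Q) ∧
      EqG φ D f G fun Q => Q ≠ ⊥ := by
  obtain ⟨G, hG, he⟩ := (ind_gokZ hp2 hpq hqe h hφ hr hpE hbig).exists_fam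
  exact ⟨G, fun Q hQ => (hG Q hQ).1, he⟩

/-- **the rows at `⊥`** -/
theorem exists_rows_botZ {q : ℕ} (hp2 : p ≠ 2) (hpq : p ∣ q) (hqe : ∀ e : ℕ, ¬ p ∣ e → e.Coprime q)
    (h : Src p b D f i)
    (hφ : Function.Injective φ) (hr : ∀ x, x ∈ D ↔ ∃ t, φ t = x) (hpE : ¬ p ∣ eN D f)
    (hbig : ∀ Q : Subgroup T, Q ≠ ⊥ → Q ≠ ⊤ → BigZ (KW p k) q (EG φ D f) Q)
    (hM : MTD (KW p k) (EG φ D f) ⊥)
    {B : MonoidAlgebra (OW p k) A} (hB : CenL b B) :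
    ∃ (G : Subgroup T → A → KW p k) (ψ : IR φ ⊥ B → T → KW p k),
      Stp φ b D f i ⊥ G ∧ Rows φ D f ⊥ G B ψ := by
  obtain ⟨G, hG, he⟩ := exists_gfamZ hp2 hpq hqe h hφ hr hpE hbig
  have hS : Stp φ b D f i ⊥ G :=
    { src := h
      inj := hφ
      ran := hr
      cen := fun z hz a => by rw [Subgroup.mem_bot.1 hz, map_one, one_mul, mul_one]
      ok := fun Q hQ => hG Q (ne_of_gt hQ)
      eqv := fun s hs α hα Q hQ y => he s hs α hα Q (ne_of_gt hQ) y }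
  obtain ⟨ψ, hψ⟩ := exists_rowsY hp2 hS hpE hM hB
  exact ⟨G, ψ, hS, hψ⟩

end

end Pool.Agent.Lib.P0c8ca5.Ex
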