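import Mathlib
import Pool.Agent.Lib.P0c8ca5Ex.ZQ
import Pool.Agent.Lib.P0c8ca5Ex.UF

/-!
# UG: abelian defect groups of any rank with cyclic stabilizers, final form

`E` is faithful on the `p ^ n`-th powers of `D`, `n ≥ 1`, `|E| < p ^ (n + 1)`, and the stabilizer in `E` of each
`u ∈ D - 1` is cyclic. Then `l(b)` is the number of weights and at most `|E|`: the theorem of ZQ without the condition
`|E_u| ^ 2 < p ^ (n + 1) * (p - 1)`.
* `rows_e`: the rows at `⊥` for `|E| < p ^ (n + 1)`, `E` faithful on the `p ^ n`-th powers (no condition on the stabilizers).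
* `k2_genZ`: conditions on the action on `T = D`.
* `k2_cyce`: the theorem.
-/

set_option linter.unusedSectionVars false

namespace Pool.Agent.Lib.P0c8ca5.Ex

universe u v

open MonoidAlgebra Kq Kk ZMAux YZx ZFx ZFc ZQx

namespace UGx

section
variable {T : Type*} [CommGroup T] [Fintype T] {K : Type*} [Field K] [CharZero K]
  [HasEnoughRootsOfUnity K (Monoid.exponent T)] {p : ℕ}

/-- `BigZ` -/
theorem bigZ_of (hp : p.Prime) (hp2 : p ≠ 2) (hT : IsPGroup p T) {E : Subgroup (MulAut T)}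
    (hE : ¬ p ∣ Nat.card E) {n : ℕ} (hn : 1 ≤ n)
    (hF : ∀ φ ∈ E, φ ≠ 1 → ∃ u : T, (u⁻¹ * φ u) ^ p ^ n ≠ 1) (hEn : Nat.card E < p ^ (n + 1))
    {Q : Subgroup T} (hQ' : Q ≠ ⊤) : BigZ K (p ^ (n + 1)) E Q := by
  have hfin : Finite (MulAut T) := Finite.of_injective (fun φ : MulAut T => (φ : T → T))
    (fun a b h => MulEquiv.ext fun x => congrFun h x)
  have hle : Fx E Q ≤ E := fun α hα => hα.1
  have hfix : ∀ α ∈ Fx E Q, ∀ z ∈ Q, α z = z := fun α hα z hz => hα.2 z hz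
  have hlt : Nat.card (Fx E Q) < p ^ (n + 1) :=
    lt_of_le_of_lt (Subgroup.card_le_of_le hle) hEn
  refine ⟨mtd_of hp hp2 hT (fun h1 => hE (h1.trans (Subgroup.card_dvd_of_le hle))) hn
    (fun φ hφ => hF φ (hle hφ)) hlt hQ' hfix, hlt, ?_⟩
  by_cases h1 : Nat.card (Fx E Q) = 1
  · exact Or.inl h1
  · obtain ⟨φ, hφ, hφ1⟩ := ZKr.exists_ne h1
    exact Or.inr (ZKr.fix_dvd (hfix φ hφ) (ZKr.cm_dvd hp hT (hF φ (hle hφ) hφ1)))

end

end UGx

open UGx

section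
variable {p : ℕ} [Fact p.Prime] {k : Type v} [Field k] [IsAlgClosed k] [CharP k p]
  {A : Type u} [Group A] [Fintype A] {T : Type*} [CommGroup T] [Fintype T]
  {φ : T →* A} {b f i : MonoidAlgebra k A} {D : Subgroup A}

/-- **the rows** -/
theorem rows_e (hp2 : p ≠ 2) (h : Src p b D f i)
    (hφ : Function.Injective φ) (hr : ∀ x, x ∈ D ↔ ∃ t, φ t = x) (hpE : ¬ p ∣ eN D f)
    (hnt : Nontrivial T) {n : ℕ} (hn : 1 ≤ n) (hF : Ku.Faith p n D f)
    (hE : eN D f < p ^ (n + 1)) {B : MonoidAlgebra (OW p k) A} (hB : CenL b B) :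
    ∃ (G : Subgroup T → A → KW p k) (ψ : IR φ ⊥ B → T → KW p k),
      Stp φ b D f i ⊥ G ∧ Rows φ D f ⊥ G B ψ := by
  have hp : p.Prime := Fact.out
  obtain ⟨M, hM⟩ := pow_one_of h
  have hT : IsPGroup p T := fun u => ⟨M, hφ (by
    rw [map_pow, map_one]
    exact hM (φ u) ((hr _).2 ⟨u, rfl⟩))⟩
  have hcard : Nat.card (EG φ D f) = eN D f := card_EG hφ hr
  have hpE' : ¬ p ∣ Nat.card (EG φ D f) := by rwa [hcard]
  have hf := faith_T hφ hr hF
  exact exists_rows_botZ (q := p ^ (n + 1)) hp2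
    (dvd_pow_self p (by omega))
    (fun e he => Nat.Coprime.pow_right _ (hp.coprime_iff_not_dvd.2 he).symm) h hφ hr hpE
    (fun Q _ hQ' => bigZ_of hp hp2 hT hpE' hn hf (by rw [hcard]; exact hE) hQ')
    (mtd_of hp hp2 hT hpE' hn hf (by rw [hcard]; exact hE) bot_ne_top
      (fun α _ z hz => by rw [Subgroup.mem_bot.1 hz, map_one])) hB

theorem l_le_cyce_src (hp2 : p ≠ 2) (h : Src p b D f i)
    (hφ : Function.Injective φ) (hr : ∀ x, x ∈ D ↔ ∃ t, φ t = x) (hpE : ¬ p ∣ eN D f)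
    (hnt : Nontrivial T) {n : ℕ} (hn : 1 ≤ n) (hF : Ku.Faith p n D f)
    (hE : eN D f < p ^ (n + 1))
    (hcyc : ∀ E' ≤ EG φ D f, (∃ u : T, u ≠ 1 ∧ ∀ α ∈ E', α u = u) → IsCyclic ↥E') :
    Nat.card (Quotient (irrInvSetoid (⊤ : Subgroup A) ⊤ b)) ≤ eN D f := by
  have hp : p.Prime := Fact.out
  have hb := h.root.blk
  obtain ⟨M, hM⟩ := pow_one_of h
  have hT : IsPGroup p T := fun u => ⟨M, hφ (by
    rw [map_pow, map_one]
    exact hM (φ u) ((hr _).2 ⟨u, rfl⟩))⟩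
  have hcard : Nat.card (EG φ D f) = eN D f := card_EG hφ hr
  have hf := faith_T hφ hr hF
  obtain ⟨B, hB⟩ := exists_cenL (p := p) hb.idem
    (fun g => invBy_iff_cj.1 hb.invBy g (Subgroup.mem_top g))
  obtain ⟨G, ψ, hS, hψ⟩ := rows_e hp2 h hφ hr hpE hnt hn hF hE hB
  refine l_le_cycn hp2 hS hpE hB hψ ?_ hF (fun u _ => ?_) hcyc
  · exact exists_reg_of (EG φ D f) (q := p ^ (n + 1))
      (fun φ hφE hφ1 => range_ge hp hT (hf φ hφE hφ1)) (by rw [hcard]; exact hE.le)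
      Finite.one_lt_card
  · exact (st_le_card u).trans (by rw [hcard]; exact hE.le)

end

section
variable {p : ℕ} [Fact p.Prime] {k : Type v} [Field k] [IsAlgClosed k] [CharP k p]
  {A : Type u} [Group A] [Fintype A] {b f i : MonoidAlgebra k A} {D : Subgroup A}

/-- the general form: a condition on the action of `E` on `T = D` -/
theorem k2_genZ (hp2 : p ≠ 2) (h : Root p b D f) {n : ℕ} (hn : 1 ≤ n) (hF : Ku.Faith p n D f)
    (hE : eN D f < p ^ (n + 1))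
    (hyp : ∀ (T : Type u) [CommGroup T] [Fintype T] (φ : T →* A)
      (_ : IsPGroup p T) (_ : Function.Injective φ) (_ : ∀ x, x ∈ D ↔ ∃ t, φ t = x)
      (_ : ¬ p ∣ Nat.card (EG φ D f)),
      ∀ E' ≤ EG φ D f, (∃ u : T, u ≠ 1 ∧ ∀ α ∈ E', α u = u) → IsCyclic ↥E') :
    gap p (⊤ : Subgroup A) ⊤ b = 0 ∧
      Nat.card (Quotient (irrInvSetoid (⊤ : Subgroup A) ⊤ b)) ≤ eN D f := by
  have hp : p.Prime := Fact.out
  have hpE : ¬ p ∣ eN D f := Ku.ndvd h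
  suffices hl : Nat.card (Quotient (irrInvSetoid (⊤ : Subgroup A) ⊤ b)) ≤ eN D f from
    l_eq_of hp2 h hF (hl.trans hE.le) hE.le
  by_cases hD : D = ⊥
  · refine l_le hp2 h fun g _ u hu hu1 _ => ?_
    rw [hD, Subgroup.mem_bot] at hu
    exact absurd hu hu1
  obtain ⟨i, hi⟩ := exists_src h
  let _ : CommGroup ↥D := cgrp D h.com
  let _ : Fintype ↥D := Fintype.ofFinite _
  obtain ⟨x, hx, hx1⟩ := (Subgroup.bot_or_exists_ne_one D).resolve_left hD
  have hnt : Nontrivial ↥D := ⟨⟨⟨x, hx⟩, 1, fun h1 => hx1 (congrArg Subtype.val h1)⟩⟩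
  have hφ : Function.Injective (D.subtype : ↥D →* A) := Subtype.val_injective
  have hrD : ∀ x, x ∈ D ↔ ∃ t, (D.subtype : ↥D →* A) t = x :=
    fun x => ⟨fun hx => ⟨⟨x, hx⟩, rfl⟩, by rintro ⟨t, rfl⟩; exact t.2⟩
  obtain ⟨M, hM⟩ := pow_one_of hi
  have hT : IsPGroup p ↥D := fun u => ⟨M, Subtype.ext (hM u u.2)⟩
  have hcard : Nat.card (EG D.subtype D f) = eN D f := card_EG hφ hrD
  have hpE' : ¬ p ∣ Nat.card (EG D.subtype D f) := by rwa [hcard]
  exact l_le_cyce_src hp2 hi hφ hrD hpE hnt hn hF hE (hyp ↥D D.subtype hT hφ hrD hpE')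

/-- **any rank**: `|E| < p ^ (n + 1)`, `E` faithful on the `p ^ n`-th powers, `n ≥ 1`, the
stabilizers of the elements `≠ 1` cyclic -/
theorem k2_cyce (hp2 : p ≠ 2) (h : Root p b D f) {n : ℕ} (hn : 1 ≤ n) (hF : Ku.Faith p n D f)
    (hE : eN D f < p ^ (n + 1))
    (hcyc : ∀ u ∈ D, u ≠ 1 → ∃ g₀ ∈ St D f,
      ∀ g ∈ St D f, g * u = u * g → ∃ j : ℕ, (g₀ ^ j)⁻¹ * g ∈ CD D) :
    gap p (⊤ : Subgroup A) ⊤ b = 0 ∧
      Nat.card (Quotient (irrInvSetoid (⊤ : Subgroup A) ⊤ b)) ≤ eN D f := by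
  refine k2_genZ hp2 h hn hF hE ?_
  rintro T _ _ φ hT hφ hrD hpE' E' hE' ⟨u, hu, hfix⟩
  obtain ⟨g₀, hg₀, hj⟩ := hcyc (φ u) ((hrD _).2 ⟨u, rfl⟩)
    (fun h2 => hu (hφ (by rw [h2, map_one])))
  obtain ⟨α₀, hα₀, hα₀'⟩ := exists_EG (f := f) hφ hrD hg₀
  have hpw : ∀ j : ℕ, ∀ t, φ ((α₀ ^ j) t) = g₀ ^ j * φ t * (g₀ ^ j)⁻¹ := by
    intro j
    induction j with
    | zero => intro t; simp
    | succ j ih =>
      intro t
      rw [pow_succ', MulAut.mul_apply, hα₀', ih, pow_succ']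
      group
  have h1 : E' ≤ Subgroup.zpowers α₀ := by
    intro α hα
    obtain ⟨g, hg, hgα⟩ := hE' hα
    have h2 := hgα u
    rw [hfix α hα] at h2
    obtain ⟨j, hj'⟩ := hj g hg (eq_mul_inv_iff_mul_eq.1 h2).symm
    have h5 : α = α₀ ^ j := by
      ext t
      apply hφ
      rw [hgα t, hpw j t]
      have h3 := Subgroup.mem_centralizer_iff.1 hj' (φ t) ((hrD _).2 ⟨t, rfl⟩)
      have h4 : g * φ t = g₀ ^ j * φ t * ((g₀ ^ j)⁻¹ * g) := by
        rw [mul_assoc, h3]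
        group
      rw [h4]
      group
    rw [h5]
    exact Subgroup.npow_mem_zpowers _ _
  have h2 : IsCyclic (Subgroup.zpowers α₀) := inferInstance
  exact isCyclic_of_injective (Subgroup.inclusion h1) (Subgroup.inclusion_injective h1)

end

end Pool.Agent.Lib.P0c8ca5.Ex
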