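import Mathlib
import Pool.Agent.Lib.P0c8ca5Ex.T4a
import Pool.Agent.Lib.P0c8ca5Ex.V1e
import Pool.Agent.Lib.P0c8ca5Ex.UG
import Pool.Agent.Lib.P0c8ca5Ku.Li

/-!
# T4b: abelian defect groups of any rank, the condition on the lines

`p` odd, `E` faithful on the `p ^ n`-th powers of `D`, `n ≥ 1`, `|E| < p ^ (n + 1)`, and for each subgroup `C` of order `p` of `D`
the centralizer of `C` in `E` is trivial or the normalizer of `C` in `E` has order less than `p - 1`. Then `l(b)` is the number of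
weights and at most `|E|`.
* `const_pair4`: a pair conjugate to its power.
* `l_le_rows4`: `l(b) ≤ |E|` from the rows.
* `l_le_linef_src`, `k2_linef`: the theorem.
-/

set_option autoImplicit false
set_option linter.unusedSectionVars false

namespace Pool.Agent.Lib.P0c8ca5.Ex

open MonoidAlgebra V1dx T4x Kq Kk ZMAux YZx ZFx ZFc ZQx YLx UGx

universe u v

section
variable {p : ℕ} [Fact p.Prime] {k : Type v} [Field k] [IsAlgClosed k] [CharP k p]
  {A : Type u} [Group A] [Fintype A] {b f i : MonoidAlgebra k A} {D : Subgroup A}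
variable {T : Type*} [CommGroup T] [Fintype T] {φ : T →* A}

/-- a pair conjugate to its power: the block is nilpotent -/
theorem const_pair4 (hp2 : p ≠ 2) (h : Src p b D f i) (hpE : ¬ p ∣ eN D f)
    (hφ : Function.Injective φ) (hr : ∀ x, x ∈ D ↔ ∃ t, φ t = x) {t : ℕ}
    (hX : ∀ u : T, u ≠ 1 → ∀ α ∈ EG φ D f, α u = u ^ t → st (EG φ D f) u = 1) {v g : A} {M : ℕ} (hv : v ^ p ^ M = 1)
    (hvt : v ^ t ≠ v) {c : MonoidAlgebra k A} (hc : IsBlock (C1 v) c)
    (hbc : resS (C1 v : Set A) b * c = c) (hg : v ^ t * g = g * v) (hgc : cj g c = c)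
    {BH : MonoidAlgebra (OW p k) ↥(C1 v)} (hBH : CenL (dnr (C1 v) c) BH)
    (e : MonoidAlgebra (OW p k) ↥(C1 v)) (he : e * e = e) (heB : e * BH = e) :
    ∃ n : ℕ, ∀ χ : IrB BH, chO χ.1 e = (n : KW p k) := by
  have hp : p.Prime := Fact.out
  have hQ : IsPGroup p (Subgroup.zpowers v) := by
    intro x
    obtain ⟨n, hn⟩ := x.2
    refine ⟨M, ?_⟩
    ext
    rw [Subgroup.coe_pow, ← hn, Subgroup.coe_one]
    change (v ^ n) ^ p ^ M = 1
    rw [← zpow_natCast, ← zpow_mul, mul_comm, zpow_mul, zpow_natCast, hv, one_zpow]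
  obtain ⟨x, R, hR, hQR, d, hd, hcd⟩ := lb_all h hpE hQ (c := c)
    (by rw [CD_zpowers]; exact hc) (by rw [CD_zpowers]; exact hbc)
  set u : A := x⁻¹ * v * x with hu
  have huR : u ∈ R := by
    have h1 : v ∈ cg x R := by
      rw [← hQR]
      exact Subgroup.mem_zpowers v
    exact mem_cg.1 h1
  have hvx : v * x = x * u := by rw [hu]; group
  have hRu : R = Subgroup.zpowers u := by
    have h1 : cg x (Subgroup.zpowers u) = Subgroup.zpowers v := cg_zp hvx
    rw [hQR] at h1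
    have h2 : cg x⁻¹ (cg x (Subgroup.zpowers u)) = cg x⁻¹ (cg x R) := by rw [h1]
    rw [cg_cg, cg_cg, inv_mul_cancel, cg_one, cg_one] at h2
    exact h2.symm
  subst hRu
  have huD : u ∈ D := hR (Subgroup.mem_zpowers u)
  have hdH : LbH (C1 u) i d := hd.toH (CD_zpowers u)
  have hy : u ^ t * (x⁻¹ * g * x) = (x⁻¹ * g * x) * u := by
    have h1 : u ^ t = x⁻¹ * v ^ t * x := by
      rw [hu]
      have h2 := conj_pow (a := x⁻¹) (b := v) (i := t)
      rw [inv_inv] at h2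
      exact h2
    calc u ^ t * (x⁻¹ * g * x) = x⁻¹ * (v ^ t * g) * x := by rw [h1]; group
      _ = x⁻¹ * (g * v) * x := by rw [hg]
      _ = _ := by rw [hu]; group
  have hyd : cj (x⁻¹ * g * x) d = d := by
    rw [hcd, cj_cj] at hgc
    rw [mul_assoc, ← cj_cj, hgc, cj_cj, inv_mul_cancel, cj_one_left]
  have hC := C1_conj_pow hy
  have hutD : u ^ t ∈ D := D.pow_mem huD t
  have hdt : LbH (C1 (u ^ t)) i d := by
    rw [hC]
    exact hdH
  obtain ⟨e', he', hue⟩ := fus_elt h hutD huD hy hdt hdH hyd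
  obtain ⟨α, hα, hα'⟩ := exists_EG hφ hr he'
  obtain ⟨u₀, hu₀⟩ := (hr u).1 huD
  have hαu : α u₀ = u₀ ^ t := by
    apply hφ
    rw [hα', map_pow, hu₀, ← hue, mul_inv_cancel_right]
  have hu1 : u₀ ≠ 1 := by
    intro h4
    rw [h4, map_one] at hu₀
    apply hvt
    have h5 : v = 1 := by
      rw [← hu₀, mul_one] at hvx
      exact mul_eq_right.1 hvx
    rw [h5, one_pow]
  have hst := hX u₀ hu1 α hα hαu
  have hreg : Reg D f u := by
    rw [← hu₀]
    exact (st_EG hφ hr u₀).1 hst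
  exact (nilC_conj hp2 h huD hreg hdH hvx hcd hBH).const e he heB

variable {G : Subgroup T → A → KW p k}

/-- **the number of simple modules from the rows** -/
theorem l_le_rows4 (hp2 : p ≠ 2) (hS : Stp φ b D f i ⊥ G) (hpE : ¬ p ∣ eN D f)
    (hH : ∀ u : T, u ≠ 1 → st (EG φ D f) u = 1 ∨ nz (EG φ D f) u + 1 < p)
    (hreg : ∃ u : T, u ≠ 1 ∧ st (EG φ D f) u = 1) {B : MonoidAlgebra (OW p k) A} (hB : CenL b B) {ψ : IR φ ⊥ B → T → KW p k}
    (hψ : Rows φ D f ⊥ G B ψ) :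
    Nat.card (Quotient (irrInvSetoid (⊤ : Subgroup A) ⊤ b)) ≤ eN D f := by
  classical
  have hp : p.Prime := Fact.out
  have h := hS.src
  have hφ := hS.inj
  have hr := hS.ran
  have hb := h.root.blk
  have hcard : Nat.card (EG φ D f) = eN D f := card_EG hφ hr
  have := finite_EG (φ := φ) (D := D) (f := f)
  obtain ⟨M, hM⟩ := pow_one_of h
  have hTm : ∀ u : T, u ^ p ^ Nat.card A = 1 := by
    intro u
    apply hφ
    rw [map_pow, map_one]
    exact pel_card (hM (φ u) ((hr _).2 ⟨u, rfl⟩))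
  have hTp : IsPGroup p T := fun u => ⟨Nat.card A, hTm u⟩
  obtain ⟨t, ht1, ht2, ht3⟩ := exists_gen hp hp2 (Nat.card A)
  obtain ⟨s, hs⟩ := exists_galB (p := p) (k := k) B ht1
  have hK : ∀ χ : Ir (KW p k) A, Ker φ ⊥ χ := fun χ z hz x => by
    rw [Subgroup.mem_bot.1 hz, map_one, one_mul]
  set S : Finset (IR φ ⊥ B) :=
    Finset.univ.filter fun χ => s ⟨χ.1, χ.2.2⟩ = ⟨χ.1, χ.2.2⟩ with hSd
  have hSc : Nat.card {χ : IrB B // s χ = χ} = S.card := by
    rw [hSd, ← Fintype.card_subtype, ← Nat.card_eq_fintype_card]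
    exact Nat.card_congr ⟨fun χ => ⟨⟨χ.1.1, hK _, χ.1.2⟩, χ.2⟩, fun χ => ⟨⟨χ.1.1, χ.1.2.2⟩, χ.2⟩,
      fun _ => rfl, fun _ => rfl⟩
  obtain ⟨u₀, hu₀, hst₀⟩ := hreg
  obtain ⟨W, h1W, hWne, hWst, hWc⟩ := fixed_count4 hp hTp (E := EG φ D f)
    (by rw [hcard]; exact hpE) hH
    (fun χ => hψ.vir χ) (fun u v => hψ.gram u v) hTm ht1 ht3 S (fun χ hχ u => by
      by_cases hu : u = 1
      · rw [hu, one_pow]
      have hχ' : s ⟨χ.1, χ.2.2⟩ = ⟨χ.1, χ.2.2⟩ := (Finset.mem_filter.1 hχ).2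
      have hz := zpowers_pow ht1 (hTm u)
      have hu' : u ^ t ≠ 1 := by
        intro h1
        rw [h1, Subgroup.zpowers_one_eq_bot] at hz
        exact hu (Subgroup.zpowers_eq_bot.1 hz.symm)
      have hlt : (⊥ : Subgroup T) < ⊥ ⊔ Subgroup.zpowers u := by
        rw [bot_sup_eq, bot_lt_iff_ne_bot]
        exact fun h1 => hu (Subgroup.zpowers_eq_bot.1 h1)
      have h2 := gal_row (t := t) (χ := χ.1) (χ' := χ.1) (u := u) (hS.ok _ hlt)
        (hM _ ((hr _).2 ⟨u, rfl⟩)) hz (fun F hF hF' => by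
          have h3 := hs ⟨χ.1, χ.2.2⟩ (φ u) M (hM _ ((hr _).2 ⟨u, rfl⟩)) F hF hF'
          rwa [hχ'] at h3)
      rw [hψ.out χ _ (fun h3 => hu' (Subgroup.mem_bot.1 h3)),
        hψ.out χ _ (fun h3 => hu (Subgroup.mem_bot.1 h3))]
      exact h2.symm)
    (fun χ _ => by
      refine ⟨u₀, ?_⟩
      have h1 : u₀ ∉ (⊥ : Subgroup T) := fun h2 => hu₀ (Subgroup.mem_bot.1 h2)
      rw [hψ.out χ _ h1]
      exact rwv_ne hp2 hS hpE hB χ.2.2 h1 ((st_EG hφ hr u₀).1 hst₀))
  have hX : ∀ u : T, u ≠ 1 → ∀ α ∈ EG φ D f, α u = u ^ t → st (EG φ D f) u = 1 := by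
    intro u hu α hα hαu
    rcases hH u hu with h1 | h1
    · exact h1
    · have h2 := nz_ge hp hTm ht1 ht3 hu hα hαu
      omega
  have hmem : ∀ t, φ t ∈ D := fun t => (hr _).2 ⟨t, rfl⟩
  have hcex := fun t : T => exists_lbH h (hmem t)
  choose c hc using hcex
  have hC1 : C1 (φ 1) = ⊤ := by
    rw [map_one]
    ext x
    rw [mem_C1', one_mul, mul_one]
    simp
  have hc1 : c 1 = b := by
    have e1 := lbH_b_mul h (hmem 1) (hc 1)
    have e2 : resS (C1 (φ 1) : Set A) b = b := by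
      ext x
      rw [coeff_resS_of_mem]
      rw [hC1]
      exact Subgroup.mem_top x
    rw [e2] at e1
    have e3 := (hc 1).blk
    rw [hC1] at e3
    rcases hb.eq_or_mul_eq_zero e3 with e4 | e4
    · exact e4.symm
    · rw [e1] at e4
      exact absurd e4 e3.ne_zero
  -- the pairs
  let x : Fin W.card → Pr p b := fun w =>
    let v : T := (W.equivFin.symm w).1
    ⟨φ v, c v, ⟨M, hM _ (hmem v)⟩, (hc v).blk, lbH_b_mul h (hmem v) (hc v)⟩
  have h3 := fix_ge_gen hb hB s ht1 hs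
    (fun v g M' c' hv hvt hc' hbc' hg hgc BH hBH e he heB =>
      const_pair4 hp2 h hpE hφ hr hX hv hvt hc' hbc' hg hgc hBH e he heB)
    (W := Fin W.card) x
    (fun w => by
      by_cases hv1 : (W.equivFin.symm w).1 = 1
      · left
        change φ (W.equivFin.symm w).1 ^ t = φ (W.equivFin.symm w).1
        rw [hv1, map_one, one_pow]
      · right
        obtain ⟨-, α, ⟨g, hg, hgφ⟩, hαv⟩ := hWst _ (W.equivFin.symm w).2 hv1
        have hgv : φ (W.equivFin.symm w).1 ^ t * g = g * φ (W.equivFin.symm w).1 := by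
          rw [← map_pow, ← hαv, hgφ, inv_mul_cancel_right]
        refine ⟨g, hgv, ?_⟩
        have hC := C1_conj_pow hgv
        exact cj_lb h (hmem _) hg hgv (by rw [hC]; exact hc _) (hc _))
    (fun w w' hww => by
      rintro ⟨g, hg1, hg2⟩
      change φ (W.equivFin.symm w).1 * g = g * φ (W.equivFin.symm w').1 at hg1
      change cj g (c (W.equivFin.symm w').1) = c (W.equivFin.symm w).1 at hg2
      obtain ⟨g', hg', hg''⟩ := fus_elt h (hmem _) (hmem _) hg1 (hc _) (hc _) hg2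
      obtain ⟨α, hα, hα'⟩ := exists_EG hφ hr hg'
      refine hWne _ (W.equivFin.symm w').2 _ (W.equivFin.symm w).2 (fun h4 => hww ?_)
        ⟨α, hα, ?_⟩
      · exact (W.equivFin.symm.injective (Subtype.ext h4)).symm
      · apply hφ
        rw [hα', ← hg'', mul_inv_cancel_right])
  have h4 : ∑ w : Fin W.card,
      Nat.card (Quotient (irrInvSetoid (C1 (x w).v) (C1 (x w).v) (x w).c))
      = ∑ v ∈ W, Nat.card (Quotient (irrInvSetoid (C1 (φ v)) (C1 (φ v)) (c v))) := by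
    rw [← Finset.sum_coe_sort W
      (fun v => Nat.card (Quotient (irrInvSetoid (C1 (φ v)) (C1 (φ v)) (c v))))]
    exact Fintype.sum_equiv W.equivFin.symm _ _ fun w => rfl
  rw [h4, hSc, ← Finset.add_sum_erase W _ h1W, hc1, hC1] at h3
  have h6 : (W.erase 1).card ≤
      ∑ v ∈ W.erase 1, Nat.card (Quotient (irrInvSetoid (C1 (φ v)) (C1 (φ v)) (c v))) := by
    rw [Finset.card_eq_sum_ones]
    refine Finset.sum_le_sum fun v hv => ?_
    obtain ⟨hv1, hvW⟩ := Finset.mem_erase.1 hv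
    obtain ⟨hst, -⟩ := hWst v hvW hv1
    have e1 : cq φ (Subgroup.zpowers v) = C1 (φ v) := by
      rw [cq, MonoidHom.map_zpowers, CD_zpowers]
    have e2 : eQ φ D f (Subgroup.zpowers v) = st (EG φ D f) v :=
      (eQ_sup (R := ⊥) (fun z hz a => by
        rw [Subgroup.mem_bot.1 hz, map_one, one_mul, mul_one]) hφ v).2
    have e3 : LbH (cq φ (Subgroup.zpowers v)) i (c v) := by rw [e1]; exact hc v
    have e4 := l_loc hp2 h hφ hr e3 (by rw [e2, hst]; exact hp.one_lt)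
      (fun E' hE' hfix => by
        have h7 : Subsingleton ↥E' := by
          rw [st, Nat.card_eq_one_iff_unique] at hst
          obtain ⟨h8, -⟩ := hst
          refine ⟨fun α β => Subtype.ext ?_⟩
          have h9 := congrArg (fun a =>
            ((a : {φ : EG φ D f // (φ : MulAut T) v = v}).1 : MulAut T))
            (h8.elim ⟨⟨α, hE' α.2⟩, hfix α α.2 v (Subgroup.mem_zpowers v)⟩
              ⟨⟨β, hE' β.2⟩, hfix β β.2 v (Subgroup.mem_zpowers v)⟩)
          exact h9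
        infer_instance)
    rw [e2, e1, hst] at e4
    exact e4
  rw [Finset.card_erase_of_mem h1W] at h6
  have h7 : 0 < W.card := Finset.card_pos.2 ⟨1, h1W⟩
  omega

end

namespace T4x

section
variable {T : Type*} [CommGroup T] [Fintype T]

/-- the condition on the elements of order `p` gives the condition on all elements `≠ 1` -/
theorem cond_all {p : ℕ} {E : Subgroup (MulAut T)} {m : ℕ}
    (hTm : ∀ u : T, u ^ p ^ m = 1)
    (hH : ∀ u : T, u ^ p = 1 → u ≠ 1 → st E u = 1 ∨ nz E u + 1 < p) {u : T} (hu : u ≠ 1) :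
    st E u = 1 ∨ nz E u + 1 < p := by
  classical
  have hfinA : Finite (MulAut T) := Finite.of_injective (fun φ : MulAut T => (φ : T → T))
      (fun a b h => MulEquiv.ext fun x => congrFun h x)
  have h1 : ∃ j, u ^ p ^ j = 1 := ⟨m, hTm u⟩
  have h2 := Nat.find_spec h1
  have h3 : Nat.find h1 ≠ 0 := by
    intro h4
    rw [h4, pow_zero, pow_one] at h2
    exact hu h2
  obtain ⟨j, hj⟩ := Nat.exists_eq_succ_of_ne_zero h3
  set x : T := u ^ p ^ j with hx
  have hx1 : x ≠ 1 := Nat.find_min h1 (by rw [hj]; exact Nat.lt_succ_self j)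
  have hxp : x ^ p = 1 := by
    rw [hx, ← pow_mul, ← pow_succ]
    have h5 : j + 1 = Nat.find h1 := hj.symm
    rw [h5]
    exact h2
  rcases hH x hxp hx1 with h4 | h4
  · left
    rw [st, Nat.card_eq_one_iff_unique] at h4 ⊢
    obtain ⟨h5, -⟩ := h4
    refine ⟨⟨fun α β => ?_⟩, ⟨⟨1, rfl⟩⟩⟩
    have h6 : ∀ α : {φ : E // (φ : MulAut T) u = u}, (α.1 : MulAut T) x = x := fun α => by
      rw [hx, map_pow, α.2]
    have h7 := congrArg (fun a => (a : {φ : E // (φ : MulAut T) x = x}).1)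
      (h5.elim ⟨α.1, h6 α⟩ ⟨β.1, h6 β⟩)
    exact Subtype.ext h7
  · right
    refine lt_of_le_of_lt (Nat.add_le_add_right ?_ 1) h4
    refine Nat.card_le_card_of_injective
      (fun α : {α : E // ∃ n : ℕ, (α : MulAut T) u = u ^ n} =>
        (⟨α.1, by
          obtain ⟨n, hn⟩ := α.2
          refine ⟨n, ?_⟩
          rw [hx, map_pow, hn, ← pow_mul, ← pow_mul, mul_comm]⟩ :
          {α : E // ∃ n : ℕ, (α : MulAut T) x = x ^ n})) ?_
    intro α β h5
    exact Subtype.ext (congrArg (fun a => (a : {α : E // ∃ n : ℕ, (α : MulAut T) x = x ^ n}).1) h5)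

theorem nz_eq (E : Subgroup (MulAut T)) (u : T) :
    nz E u = Nat.card {α : E // (α : MulAut T) u ∈ Subgroup.zpowers u} := by
  unfold nz
  refine Nat.card_congr (Equiv.subtypeEquivRight fun α => ?_)
  rw [← mem_powers_iff_mem_zpowers, Submonoid.mem_powers_iff]
  exact ⟨fun ⟨n, hn⟩ => ⟨n, hn.symm⟩, fun ⟨n, hn⟩ => ⟨n, hn.symm⟩⟩

end

end T4x

section
variable {p : ℕ} [Fact p.Prime] {k : Type v} [Field k] [IsAlgClosed k] [CharP k p]
  {A : Type u} [Group A] [Fintype A] {T : Type*} [CommGroup T] [Fintype T]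
  {φ : T →* A} {b f i : MonoidAlgebra k A} {D : Subgroup A}

theorem l_le_linef_src (hp2 : p ≠ 2) (h : Src p b D f i)
    (hφ : Function.Injective φ) (hr : ∀ x, x ∈ D ↔ ∃ t, φ t = x) (hpE : ¬ p ∣ eN D f)
    (hnt : Nontrivial T) {n : ℕ} (hn : 1 ≤ n) (hF : Ku.Faith p n D f)
    (hE : eN D f < p ^ (n + 1))
    (hH : ∀ u : T, u ^ p = 1 → u ≠ 1 →
      st (EG φ D f) u = 1 ∨ nz (EG φ D f) u + 1 < p) :
    Nat.card (Quotient (irrInvSetoid (⊤ : Subgroup A) ⊤ b)) ≤ eN D f := by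
  have hp : p.Prime := Fact.out
  have hb := h.root.blk
  obtain ⟨M, hM⟩ := pow_one_of h
  have hT : IsPGroup p T := fun u => ⟨M, hφ (by
    rw [map_pow, map_one]
    exact hM (φ u) ((hr _).2 ⟨u, rfl⟩))⟩
  have hTm : ∀ u : T, u ^ p ^ Nat.card A = 1 := by
    intro u
    apply hφ
    rw [map_pow, map_one]
    exact pel_card (hM (φ u) ((hr _).2 ⟨u, rfl⟩))
  have hcard : Nat.card (EG φ D f) = eN D f := card_EG hφ hr
  have hf := faith_T hφ hr hF
  obtain ⟨B, hB⟩ := exists_cenL (p := p) hb.idem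
    (fun g => invBy_iff_cj.1 hb.invBy g (Subgroup.mem_top g))
  obtain ⟨G, ψ, hS, hψ⟩ := rows_e hp2 h hφ hr hpE hnt hn hF hE hB
  exact l_le_rows4 hp2 hS hpE (fun u hu => cond_all hTm hH hu)
    (exists_reg_of (EG φ D f) (q := p ^ (n + 1))
      (fun φ hφE hφ1 => range_ge hp hT (hf φ hφE hφ1)) (by rw [hcard]; exact hE.le)
      Finite.one_lt_card) hB hψ

end

section
variable {p : ℕ} [Fact p.Prime] {k : Type v} [Field k] [IsAlgClosed k] [CharP k p]
  {A : Type u} [Group A] [Fintype A] {b f i : MonoidAlgebra k A} {D : Subgroup A}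

/-- **the condition on the lines**: `|E| < p ^ (n + 1)`, `E` faithful on the `p ^ n`-th powers, `n ≥ 1`, and for the subgroups
`C` of order `p` of `D`: `C_E(C) = 1` or `|N_E(C)| < p - 1` -/
theorem k2_linef (hp2 : p ≠ 2) (h : Root p b D f) {n : ℕ} (hn : 1 ≤ n) (hF : Ku.Faith p n D f)
    (hE : eN D f < p ^ (n + 1))
    (hl : ∀ x ∈ D, x ^ p = 1 → x ≠ 1 → (CD D).relIndex (St D f ⊓ C1 x) = 1 ∨
      (CD D).relIndex (St D f ⊓ Subgroup.normalizer (Subgroup.zpowers x : Set A)) + 1 < p) :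
    gap p (⊤ : Subgroup A) ⊤ b = 0 ∧
      Nat.card (Quotient (irrInvSetoid (⊤ : Subgroup A) ⊤ b)) ≤ eN D f := by
  have hp : p.Prime := Fact.out
  have hpE : ¬ p ∣ eN D f := Ku.ndvd h
  suffices hl : Nat.card (Quotient (irrInvSetoid (⊤ : Subgroup A) ⊤ b)) ≤ eN D f from
    l_eq_of hp2 h hF (hl.trans hE.le) hE.le
  by_cases hD : D = ⊥
  · refine l_le hp2 h fun g _ u hu hu1 _ => ?_
    rw [hD, Subgroup.mem_bot] at hu
    exact absurd hu hu1
  obtain ⟨i, hi⟩ := exists_src h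
  let _ : CommGroup ↥D := cgrp D h.com
  let _ : Fintype ↥D := Fintype.ofFinite _
  obtain ⟨x, hx, hx1⟩ := (Subgroup.bot_or_exists_ne_one D).resolve_left hD
  have hnt : Nontrivial ↥D := ⟨⟨⟨x, hx⟩, 1, fun h1 => hx1 (congrArg Subtype.val h1)⟩⟩
  have hφ : Function.Injective (D.subtype : ↥D →* A) := Subtype.val_injective
  have hrD : ∀ x, x ∈ D ↔ ∃ t, (D.subtype : ↥D →* A) t = x :=
    fun x => ⟨fun hx => ⟨⟨x, hx⟩, rfl⟩, by rintro ⟨t, rfl⟩; exact t.2⟩
  refine l_le_linef_src hp2 hi hφ hrD hpE hnt hn hF hE fun y hy hy1 => ?_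
  rcases hl y y.2 (congrArg Subtype.val hy) (fun h1 => hy1 (Subtype.ext h1)) with h1 | h1
  · left
    rw [st_EG hφ hrD y]
    intro g hg hgu
    exact Subgroup.relIndex_eq_one.1 h1 (Subgroup.mem_inf.2 ⟨hg, mem_C1'.2 hgu.symm⟩)
  · right
    rw [nz_eq]
    exact lt_of_le_of_lt (Nat.add_le_add_right (Ku.card_line hφ hrD y) 1) h1

end

end Pool.Agent.Lib.P0c8ca5.Ex
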