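import Mathlib
import Pool.Agent.Lib.P0c8ca5Ex.Ge
import Pool.Agent.Lib.P0c8ca5Ex.Fg
import Pool.Agent.Lib.P0c8ca5Ex.ZVd
import Pool.Agent.Lib.P0c8ca5.WtEquiv

/-!
# V3: Navarro's equality for all pairs above `G` if `|E| < p`

`gap_ext_all`: `gap_ext` for all `G ≤ H`. `navarro_all_lt`: `e` a block of the normal subgroup `G` of `Γ`, `Γ / G` a
p-group, `e` invariant, `D` abelian, `|E| < p`, `p ≠ 2`: Navarro's equality for `(N, H, e)`, `G ≤ N ⊴ H ≤ Γ`.
-/

set_option linter.unusedSectionVars false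

namespace Pool.Agent.Lib.P0c8ca5.Ex

open MonoidAlgebra GapMAux

universe u v

theorem gap_ext_all {p : ℕ} {k : Type*} [Field k] {A : Type*} [Group A] [Finite A] [Fact p.Prime]
    [CharP k p] [IsAlgClosed k] {G : Subgroup A} [hG : G.Normal] (hp : IsPGroup p (A ⧸ G))
    {e : MonoidAlgebra k A} (he : IsBlock G e) (hinv : InvBy ⊤ e) (h0 : gap p G G e = 0)
    (hl : Nat.card (Quotient (irrInvSetoid (⊤ : Subgroup ↥G) ⊤ (dn G e))) < p)
    {H : Subgroup A} (hGH : G ≤ H) : gap p G H e = 0 := by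
  classical
  have : Fintype A := Fintype.ofFinite A
  have hp' : ∀ x : A, ∃ n : ℕ, x ^ p ^ n ∈ G := by
    intro x
    obtain ⟨n, hn⟩ := hp (QuotientGroup.mk x)
    refine ⟨n, ?_⟩
    rwa [← QuotientGroup.mk_pow, QuotientGroup.eq_one_iff] at hn
  have hfinW : Finite (Wt p G e) := finite_Wt he hinv
  have : Finite (IrX G e) := inferInstance
  have : Fintype (IrX G e) := Fintype.ofFinite _
  have : Fintype (WtC p G e) := Fintype.ofFinite _
  have e1 : Nat.card {x : IrX G e // G ≤ stX (G := G) hinv x} = Nat.card (IrX G e) :=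
    Nat.card_congr (Equiv.subtypeUnivEquiv (fun x => G_le_stX hinv x))
  have e2 : Nat.card {x : WtC p G e // G ≤ stZ (p := p) he hinv x} = Nat.card (WtC p G e) :=
    Nat.card_congr (Equiv.subtypeUnivEquiv (fun x => G_le_stZ he hinv x))
  have hX : Nat.card (IrX G e) < p := by
    rw [card_irr_eq, dn_card_irr] at hl
    exact hl
  rw [gap_fixed (le_refl G) hp' he hinv, e1, e2, sub_eq_zero] at h0
  have hc : Nat.card (IrX G e) = Nat.card (WtC p G e) := by exact_mod_cast h0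
  have hW : Nat.card (WtC p G e) < p := hc ▸ hX
  rw [gap_fixed hGH hp' he hinv]
  let _ := actX (G := G) hinv
  let _ := actZ (p := p) he hinv
  have f1 : Nat.card {x : IrX G e // H ≤ stX (G := G) hinv x}
      = Nat.card (IrX G e) :=
    Nat.card_congr (Equiv.subtypeUnivEquiv (fun x a _ =>
      small_trivial hp (fun x => G_le_stX hinv x) hX a x))
  have f2 : Nat.card {x : WtC p G e // H ≤ stZ (p := p) he hinv x}
      = Nat.card (WtC p G e) :=
    Nat.card_congr (Equiv.subtypeUnivEquiv (fun x a _ =>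
      small_trivial hp (fun x => G_le_stZ he hinv x) hW a x))
  rw [f1, f2, hc, sub_self]

/-- **Navarro's equality for all pairs above `G`**, `|E| < p` -/
theorem navarro_all_lt {p : ℕ} [Fact p.Prime] (hp2 : p ≠ 2) {k : Type v} [Field k]
    [IsAlgClosed k] [CharP k p] {Γ : Type u} [Group Γ] [Finite Γ] (G : Subgroup Γ)
    [hG : G.Normal] (hΓ : IsPGroup p (Γ ⧸ G)) {e : MonoidAlgebra k Γ} (he : IsBlock G e)
    (hinv : InvBy ⊤ e) {D : Subgroup Γ} (hD : IsDefectGroup p G e D)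
    (hcom : ∀ x ∈ D, ∀ y ∈ D, x * y = y * x) {f : MonoidAlgebra k Γ}
    (hf : IsBlock (G ⊓ CD D) f) (hef : resS (CD D : Set Γ) e * f = f)
    (hE : (CD D).relIndex (G ⊓ St D f) < p) {N H : Subgroup Γ} (hGN : G ≤ N) (hNH : N ≤ H)
    (hn : H ≤ Subgroup.normalizer (N : Set Γ)) : NavarroEq p N H e := by
  have : Fintype Γ := Fintype.ofFinite Γ
  have : Fintype ↥G := Fintype.ofFinite _
  have hDG : D ≤ G := hD.le
  have hfs : SuppIn G f := fun x hx => ((mem_fixAlg.1 hf.mem).1 x hx).1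
  have hroot := root_dn G he hD hcom hf hef
  have heN : eN (D.subgroupOf G) (dn G f) < p := by
    rw [eN_dn G hDG hfs]
    exact hE
  have hl := lt_of_le_of_lt (l_le_lt_p hp2 hroot heN) heN
  have h0 := gap_zero_lt hroot heN hl
  rw [gap_transport he] at h0
  have hp' : ∀ x : Γ, ∃ n : ℕ, x ^ p ^ n ∈ G := by
    intro x
    obtain ⟨n, hn⟩ := hΓ (QuotientGroup.mk x)
    refine ⟨n, ?_⟩
    rwa [← QuotientGroup.mk_pow, QuotientGroup.eq_one_iff] at hn
  have h1 : ∀ H, G ≤ H → NavarroEq p G H e := fun H hH =>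
    (navarroEq_iff_gap hH (fun x _ => mem_norm_of_normal G x) (fun x _ => hp' x) he
      (hinv.mono le_top)).2 (gap_ext_all hΓ he hinv h0 hl hH)
  obtain ⟨h2, h3⟩ := equivariant_iff (p := p) (G := G) hp' he hinv
  exact h3 (h2.1 h1) N H hGN hNH hn

end Pool.Agent.Lib.P0c8ca5.Ex
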