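import Mathlib
import Pool.Agent.Lib.P0c8ca5Ex.WTa

/-!
# V5C: the count

`Vq x = |Λ| ∑ x² - (∑ x)²` for `x : Λ → ℤ`: nonnegative, at least `|Λ| - 1` if `x` is not constant.
`count`: integral vectors `x i j`, `g i` (`j ∈ J`, `|J| = m`, `m + 1 ≤ p`) with `∑_i Vq (x i j - x i j') = 2 p (p - 1)` for
`j ≠ j'`, `∑_i Vq (g i) = (p - 1) p² m`, and a set `S` with `Vq (∑_j x i j) = Vq (g i)` and `Vq (x i j) ≠ 0` for some `j`
for the `i ∈ S`. Then `|S| ≤ p²`.

PROOF. With `x i 0 = 0` the identity `m ∑_(0 ≤ j, j') Vq (x j - x j') = (m + 1) ∑_(1 ≤ j, j') Vq (x j - x j') + 2 Vq (∑ x j)`;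
the left side is at least `m · 2 m (p - 1)`: `m` unequal pairs (modulo the constants).
-/

set_option linter.unusedSectionVars false

namespace Pool.Agent.Lib.P0c8ca5.Ex.V5

open Finset

section
variable {Λ : Type*} [Fintype Λ]

/-- the variance -/
def Vq (x : Λ → ℤ) : ℤ := (Fintype.card Λ : ℤ) * ∑ a, x a ^ 2 - (∑ a, x a) ^ 2

theorem Vq_two (x : Λ → ℤ) : ∑ a, ∑ b, (x a - x b) ^ 2 = 2 * Vq x := pair_sum_sq x

theorem Vq_nonneg (x : Λ → ℤ) : 0 ≤ Vq x := by
  have h1 : 0 ≤ ∑ a, ∑ b, (x a - x b) ^ 2 := sum_nonneg fun _ _ => sum_nonneg fun _ _ => sq_nonneg _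
  rw [Vq_two] at h1
  linarith

theorem Vq_zero_iff (x : Λ → ℤ) : Vq x = 0 ↔ ∀ a b, x a = x b := by
  constructor
  · intro h a b
    have h1 := Vq_two x
    rw [h, mul_zero] at h1
    have h2 := (sum_eq_zero_iff_of_nonneg fun a _ => sum_nonneg fun _ _ => sq_nonneg _).1 h1 a
      (mem_univ a)
    have h3 := (sum_eq_zero_iff_of_nonneg fun _ _ => sq_nonneg _).1 h2 b (mem_univ b)
    exact sub_eq_zero.1 (pow_eq_zero_iff two_ne_zero |>.1 h3)
  · intro h
    have h1 := Vq_two x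
    have h2 : ∑ a, ∑ b, (x a - x b) ^ 2 = 0 := sum_eq_zero fun a _ => sum_eq_zero fun b _ => by
      rw [h a b, sub_self]
      ring
    rw [h2] at h1
    linarith

theorem Vq_ge (x : Λ → ℤ) (h : Vq x ≠ 0) : (Fintype.card Λ : ℤ) - 1 ≤ Vq x := by
  classical
  obtain ⟨a, b, hab⟩ : ∃ a b, x a < x b := by
    by_contra hcon
    push Not at hcon
    exact h ((Vq_zero_iff x).2 fun a b => le_antisymm (hcon b a) (hcon a b))
  let f : Λ → ℤ := fun c => x c - x a
  have h1 : (1 : ℤ) ≤ ((univ.filter fun c => 1 ≤ f c).card : ℤ) := by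
    have : 0 < (univ.filter fun c => 1 ≤ f c).card :=
      card_pos.2 ⟨b, mem_filter.2 ⟨mem_univ _, by simp only [f]; omega⟩⟩
    exact_mod_cast this
  have h0 : (1 : ℤ) ≤ ((univ.filter fun c => ¬ 1 ≤ f c).card : ℤ) := by
    have : 0 < (univ.filter fun c => ¬ 1 ≤ f c).card :=
      card_pos.2 ⟨a, mem_filter.2 ⟨mem_univ _, by simp only [f]; omega⟩⟩
    exact_mod_cast this
  have h2 := var_ge f rfl h1 h0
  have h3 := Vq_two f
  have h4 := Vq_two x
  have h5 : ∑ a, ∑ b, (f a - f b) ^ 2 = ∑ a, ∑ b, (x a - x b) ^ 2 :=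
    sum_congr rfl fun a _ => sum_congr rfl fun b _ => by
      simp only [f]
      ring
  have h6 : Vq f = Vq x := by linarith
  unfold Vq at h6
  rw [h6] at h2
  change _ ≤ Vq x at h2
  linarith

/-- the bilinear form -/
def Bq (x y : Λ → ℤ) : ℤ := (Fintype.card Λ : ℤ) * ∑ a, x a * y a - (∑ a, x a) * ∑ a, y a

theorem Vq_sub (x y : Λ → ℤ) : Vq (fun a => x a - y a) = Vq x - 2 * Bq x y + Vq y := by
  unfold Vq Bq
  have h1 : ∑ a, (x a - y a) ^ 2 = ∑ a, x a ^ 2 - 2 * ∑ a, x a * y a + ∑ a, y a ^ 2 := by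
    rw [mul_sum, ← sum_sub_distrib, ← sum_add_distrib]
    exact sum_congr rfl fun a _ => by ring
  rw [h1, sum_sub_distrib]
  ring

theorem Bq_sum {J : Type*} [Fintype J] (x : J → Λ → ℤ) :
    ∑ j, ∑ j', Bq (x j) (x j') = Vq fun a => ∑ j, x j a := by
  unfold Vq Bq
  have h1 : ∑ a, (∑ j, x j a) ^ 2 = ∑ j, ∑ j', ∑ a, x j a * x j' a := by
    have h2 : ∀ a, (∑ j, x j a) ^ 2 = ∑ j, ∑ j', x j a * x j' a := by
      intro a
      rw [sq, sum_mul_sum]
    rw [sum_congr rfl fun a _ => h2 a, sum_comm]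
    exact sum_congr rfl fun j _ => sum_comm
  have h3 : (∑ a, ∑ j, x j a) ^ 2 = ∑ j, ∑ j', (∑ a, x j a) * ∑ a, x j' a := by
    rw [sum_comm, sq, sum_mul_sum]
  rw [h1, h3, mul_sum, ← sum_sub_distrib]
  refine sum_congr rfl fun j _ => ?_
  rw [mul_sum, ← sum_sub_distrib]

/-- the sum over the pairs -/
theorem pairs_sum {J : Type*} [Fintype J] (x : J → Λ → ℤ) :
    ∑ j, ∑ j', Vq (fun a => x j a - x j' a)
      = 2 * ((Fintype.card J : ℤ) * ∑ j, Vq (x j) - Vq fun a => ∑ j, x j a) := by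
  have h1 : ∀ j, ∑ j', Vq (fun a => x j a - x j' a)
      = (Fintype.card J : ℤ) * Vq (x j) - 2 * ∑ j', Bq (x j) (x j') + ∑ j', Vq (x j') := by
    intro j
    rw [sum_congr rfl fun j' _ => Vq_sub (x j) (x j'), sum_add_distrib, sum_sub_distrib, sum_const,
      card_univ, nsmul_eq_mul, ← mul_sum]
  rw [sum_congr rfl fun j _ => h1 j, sum_add_distrib, sum_sub_distrib, ← mul_sum, ← mul_sum,
    Bq_sum, sum_const, card_univ, nsmul_eq_mul]
  ring

/-- the lower bound for one row -/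
theorem row_ge {J : Type*} [Fintype J] (x : J → Λ → ℤ) (h : ∃ j, Vq (x j) ≠ 0) :
    2 * (Fintype.card J : ℤ) ^ 2 * ((Fintype.card Λ : ℤ) - 1)
      ≤ ((Fintype.card J : ℤ) + 1) * ∑ j, ∑ j', Vq (fun a => x j a - x j' a)
        + 2 * Vq fun a => ∑ j, x j a := by
  classical
  set m : ℤ := (Fintype.card J : ℤ) with hm
  let y : Option J → Λ → ℤ := fun o => o.elim 0 x
  have hy := pairs_sum y
  have hx := pairs_sum x
  have h1 : ∑ o, Vq (y o) = ∑ j, Vq (x j) := by
    rw [Fintype.sum_option]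
    have : Vq (y none) = 0 := (Vq_zero_iff _).2 fun _ _ => rfl
    rw [this, zero_add]
    rfl
  have h2 : (fun a => ∑ o, y o a) = fun a => ∑ j, x j a := by
    funext a
    rw [Fintype.sum_option]
    change 0 + _ = _
    rw [zero_add]
    rfl
  have hcard : (Fintype.card (Option J) : ℤ) = m + 1 := by
    rw [Fintype.card_option]
    push_cast
    rfl
  rw [h1, h2, hcard] at hy
  -- the unequal pairs
  let C : Finset (Option J) := univ.filter fun o => Vq (y o) = 0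
  let C' : Finset (Option J) := univ.filter fun o => ¬ Vq (y o) = 0
  have hC : 1 ≤ (C.card : ℤ) := by
    have : 0 < C.card := card_pos.2 ⟨none, mem_filter.2 ⟨mem_univ _, (Vq_zero_iff _).2 fun _ _ => rfl⟩⟩
    exact_mod_cast this
  have hC' : 1 ≤ (C'.card : ℤ) := by
    obtain ⟨j, hj⟩ := h
    have : 0 < C'.card := card_pos.2 ⟨some j, mem_filter.2 ⟨mem_univ _, hj⟩⟩
    exact_mod_cast this
  have hCC : (C.card : ℤ) + C'.card = m + 1 := by
    rw [← hcard, ← card_univ]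
    exact_mod_cast card_filter_add_card_filter_not (s := (univ : Finset (Option J)))
      (fun o => Vq (y o) = 0)
  have hne : ∀ o ∈ C, ∀ o' ∈ C', (Fintype.card Λ : ℤ) - 1 ≤ Vq (fun a => y o a - y o' a) ∧
      (Fintype.card Λ : ℤ) - 1 ≤ Vq (fun a => y o' a - y o a) := by
    intro o ho o' ho'
    have h3 := (Vq_zero_iff _).1 (mem_filter.1 ho).2
    have h4 : ¬ ∀ a b, y o' a = y o' b := fun h => (mem_filter.1 ho').2 ((Vq_zero_iff _).2 h)
    constructor
    · refine Vq_ge _ fun h5 => h4 fun a b => ?_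
      have h6 := (Vq_zero_iff _).1 h5 a b
      have h7 := h3 a b
      linarith
    · refine Vq_ge _ fun h5 => h4 fun a b => ?_
      have h6 := (Vq_zero_iff _).1 h5 a b
      have h7 := h3 a b
      linarith
  have hlow : 2 * (C.card : ℤ) * C'.card * ((Fintype.card Λ : ℤ) - 1)
      ≤ ∑ o, ∑ o', Vq (fun a => y o a - y o' a) := by
    have h3 : ∀ F : Option J → ℤ, ∑ o, F o = ∑ o ∈ C, F o + ∑ o ∈ C', F o := fun F =>
      (sum_filter_add_sum_filter_not univ (fun o => Vq (y o) = 0) F).symm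
    rw [h3]
    have h4 : (C.card : ℤ) * (C'.card * ((Fintype.card Λ : ℤ) - 1))
        ≤ ∑ o ∈ C, ∑ o', Vq (fun a => y o a - y o' a) := by
      rw [← nsmul_eq_mul, ← sum_const]
      refine sum_le_sum fun o ho => ?_
      rw [h3]
      have h5 : (C'.card : ℤ) * ((Fintype.card Λ : ℤ) - 1)
          ≤ ∑ o' ∈ C', Vq (fun a => y o a - y o' a) := by
        rw [← nsmul_eq_mul, ← sum_const]
        exact sum_le_sum fun o' ho' => (hne o ho o' ho').1
      have h6 : 0 ≤ ∑ o' ∈ C, Vq (fun a => y o a - y o' a) := sum_nonneg fun _ _ => Vq_nonneg _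
      linarith
    have h4' : (C'.card : ℤ) * (C.card * ((Fintype.card Λ : ℤ) - 1))
        ≤ ∑ o ∈ C', ∑ o', Vq (fun a => y o a - y o' a) := by
      rw [← nsmul_eq_mul, ← sum_const]
      refine sum_le_sum fun o' ho' => ?_
      rw [h3]
      have h5 : (C.card : ℤ) * ((Fintype.card Λ : ℤ) - 1)
          ≤ ∑ o ∈ C, Vq (fun a => y o' a - y o a) := by
        rw [← nsmul_eq_mul, ← sum_const]
        exact sum_le_sum fun o ho => (hne o ho o' ho').2
      have h6 : 0 ≤ ∑ o ∈ C', Vq (fun a => y o' a - y o a) := sum_nonneg fun _ _ => Vq_nonneg _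
      linarith
    have h7 : 2 * (C.card : ℤ) * C'.card * ((Fintype.card Λ : ℤ) - 1)
        = (C.card : ℤ) * (C'.card * ((Fintype.card Λ : ℤ) - 1))
          + (C'.card : ℤ) * (C.card * ((Fintype.card Λ : ℤ) - 1)) := by ring
    linarith
  have hΛ : 0 ≤ (Fintype.card Λ : ℤ) - 1 := by
    have : Nonempty Λ := by
      by_contra hcon
      rw [not_nonempty_iff] at hcon
      obtain ⟨j, hj⟩ := h
      exact hj ((Vq_zero_iff _).2 fun a => (hcon.false a).elim)
    have : 0 < Fintype.card Λ := Fintype.card_pos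
    have : (1 : ℤ) ≤ Fintype.card Λ := by exact_mod_cast this
    linarith
  have hprod : m ≤ (C.card : ℤ) * C'.card := by
    have h3 : 0 ≤ ((C.card : ℤ) - 1) * (C'.card - 1) :=
      mul_nonneg (by linarith) (by linarith)
    nlinarith
  have h3 : 2 * m * ((Fintype.card Λ : ℤ) - 1) ≤ ∑ o, ∑ o', Vq (fun a => y o a - y o' a) := by
    refine le_trans ?_ hlow
    have h4 := mul_le_mul_of_nonneg_right hprod hΛ
    nlinarith
  have hm0 : 0 ≤ m := by positivity
  have h4 := mul_le_mul_of_nonneg_left h3 hm0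
  rw [hy] at h4
  rw [hx]
  nlinarith

/-- **the count** -/
theorem count {p : ℕ} (hp : 2 ≤ p) (hΛ : Fintype.card Λ = p) {J : Type*} [Fintype J]
    [DecidableEq J] (hm1 : 1 ≤ Fintype.card J) (hmp : Fintype.card J + 1 ≤ p) {I : Type*}
    [Fintype I] (S : Finset I) (x : I → J → Λ → ℤ) (g : I → Λ → ℤ)
    (hx : ∀ j j', j ≠ j' → ∑ i, Vq (fun a => x i j a - x i j' a) = 2 * p * (p - 1))
    (hg : ∑ i, Vq (g i) = (p - 1) * p ^ 2 * Fintype.card J)
    (hS : ∀ i ∈ S, (Vq fun a => ∑ j, x i j a) = Vq (g i))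
    (hne : ∀ i ∈ S, ∃ j, Vq (x i j) ≠ 0) : S.card ≤ p ^ 2 := by
  classical
  set m : ℤ := (Fintype.card J : ℤ) with hm
  have hpZ : (2 : ℤ) ≤ p := by exact_mod_cast hp
  have hmZ : (1 : ℤ) ≤ m := by
    rw [hm]
    exact_mod_cast hm1
  have hmpZ : m + 1 ≤ (p : ℤ) := by
    rw [hm]
    exact_mod_cast hmp
  have h1 : ∀ i ∈ S, 2 * m ^ 2 * ((p : ℤ) - 1)
      ≤ (m + 1) * ∑ j, ∑ j', Vq (fun a => x i j a - x i j' a) + 2 * Vq (g i) := by
    intro i hi
    have h2 := row_ge (x i) (hne i hi)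
    rw [hS i hi, hΛ] at h2
    exact h2
  have h2 : (S.card : ℤ) * (2 * m ^ 2 * ((p : ℤ) - 1))
      ≤ ∑ i, ((m + 1) * ∑ j, ∑ j', Vq (fun a => x i j a - x i j' a) + 2 * Vq (g i)) := by
    rw [← nsmul_eq_mul, ← sum_const]
    refine le_trans (sum_le_sum h1) (sum_le_sum_of_subset_of_nonneg (subset_univ S) ?_)
    intro i _ _
    have h3 : 0 ≤ ∑ j, ∑ j', Vq (fun a => x i j a - x i j' a) :=
      sum_nonneg fun _ _ => sum_nonneg fun _ _ => Vq_nonneg _
    have h4 := Vq_nonneg (g i)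
    positivity
  have h3 : ∑ i, ∑ j, ∑ j', Vq (fun a => x i j a - x i j' a) = m * (m - 1) * (2 * p * (p - 1)) := by
    rw [sum_comm]
    have h4 : ∀ j, ∑ i, ∑ j', Vq (fun a => x i j a - x i j' a) = (m - 1) * (2 * p * (p - 1)) := by
      intro j
      rw [sum_comm]
      have h5 : ∀ j', ∑ i, Vq (fun a => x i j a - x i j' a)
          = if j = j' then (0 : ℤ) else 2 * p * (p - 1) := by
        intro j'
        split_ifs with h6
        · subst h6
          refine sum_eq_zero fun i _ => (Vq_zero_iff _).2 fun a b => ?_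
          rw [sub_self, sub_self]
        · exact hx j j' h6
      rw [sum_congr rfl fun j' _ => h5 j']
      have h7 : ∀ j', (if j = j' then (0 : ℤ) else 2 * p * (p - 1))
          = (2 * p * (p - 1) : ℤ) - if j = j' then (2 * p * (p - 1) : ℤ) else 0 := by
        intro j'
        split_ifs <;> ring
      rw [sum_congr rfl fun j' _ => h7 j', sum_sub_distrib, sum_const, card_univ, nsmul_eq_mul,
        sum_ite_eq, if_pos (mem_univ j)]
      ring
    rw [sum_congr rfl fun j _ => h4 j, sum_const, card_univ, nsmul_eq_mul]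
    ring
  rw [sum_add_distrib, ← mul_sum, ← mul_sum, h3, hg] at h2
  have h5 : (S.card : ℤ) * (2 * m ^ 2 * ((p : ℤ) - 1)) ≤ (p : ℤ) ^ 2 * (2 * m ^ 2 * ((p : ℤ) - 1)) := by
    refine le_trans h2 ?_
    have h6 : 0 ≤ 2 * m * p * (p - 1) * ((m - 1) * (p - (m + 1))) := by
      have h7 : 0 ≤ (m - 1) * ((p : ℤ) - (m + 1)) := mul_nonneg (by linarith) (by linarith)
      have h8 : 0 ≤ 2 * m * p * ((p : ℤ) - 1) :=
        mul_nonneg (by positivity) (by linarith)
      exact mul_nonneg h8 h7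
    nlinarith
  have h6 : 0 < 2 * m ^ 2 * ((p : ℤ) - 1) := by
    have : 0 < (p : ℤ) - 1 := by linarith
    positivity
  have h7 := le_of_mul_le_mul_right h5 h6
  exact_mod_cast h7

end

end Pool.Agent.Lib.P0c8ca5.Ex.V5
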