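import Mathlib
import Pool.Agent.Lib.P0c8ca5Ex.V5C
import Pool.Agent.Lib.P0c8ca5Ex.YL

/-!
# V5E: virtual characters on the powers of an element, modulo the elements of order `p`

`ev ψ x a = ∑ x(c) ψ(c a)` for `x : ZMod p → ℤ`, `ψ` a primitive additive character of `ZMod p`.
`Vq_ev`: `Vq x` is the sum of `ev x a · ev x (-a)` over the `a ≠ 0`. `exists_ev`: for a virtual character `y` of an abelian group
`X` of exponent `p²` and `z ∈ X` the sums of `y (z^a w)` over the `w` of order `p` are `|Ω| ev x a`.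
-/

set_option linter.unusedSectionVars false

namespace Pool.Agent.Lib.P0c8ca5.Ex.V5

open Finset

section
variable {K : Type*} [Field K] [CharZero K] {p : ℕ} [Fact p.Prime]

/-- the values -/
noncomputable def ev (ψ : AddChar (ZMod p) K) (x : ZMod p → ℤ) (a : ZMod p) : K :=
  ∑ c, (x c : K) * ψ (c * a)

theorem ev_sub (ψ : AddChar (ZMod p) K) (x y : ZMod p → ℤ) (a : ZMod p) :
    ev ψ (fun c => x c - y c) a = ev ψ x a - ev ψ y a := by
  unfold ev
  rw [← sum_sub_distrib]
  refine sum_congr rfl fun c _ => ?_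
  push_cast
  ring

theorem ev_sum (ψ : AddChar (ZMod p) K) {J : Type*} [Fintype J] (x : J → ZMod p → ℤ) (a : ZMod p) :
    ev ψ (fun c => ∑ j, x j c) a = ∑ j, ev ψ (x j) a := by
  unfold ev
  rw [sum_comm]
  refine sum_congr rfl fun c _ => ?_
  push_cast
  rw [sum_mul]

theorem Vq_ev {ψ : AddChar (ZMod p) K} (hψ : ψ.IsPrimitive) (x : ZMod p → ℤ) :
    (Vq x : K) = ∑ a ∈ univ.erase (0 : ZMod p), ev ψ x a * ev ψ x (-a) := by
  classical
  have h1 : ∑ a : ZMod p, ev ψ x a * ev ψ x (-a) = (p : K) * ∑ c, (x c : K) ^ 2 := by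
    have h2 : ∀ a : ZMod p, ev ψ x a * ev ψ x (-a)
        = ∑ c, ∑ d, (x c : K) * x d * ψ (a * (c - d)) := by
      intro a
      unfold ev
      rw [sum_mul_sum]
      refine sum_congr rfl fun c _ => sum_congr rfl fun d _ => ?_
      have h3 : a * (c - d) = c * a + d * -a := by ring
      rw [h3, AddChar.map_add_eq_mul]
      ring
    rw [sum_congr rfl fun a _ => h2 a, sum_comm, mul_sum]
    refine sum_congr rfl fun c _ => ?_
    rw [sum_comm]
    have h4 : ∀ d : ZMod p, ∑ a : ZMod p, (x c : K) * x d * ψ (a * (c - d))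
        = if c = d then (p : K) * ((x c : K) * x d) else 0 := by
      intro d
      rw [← mul_sum, AddChar.sum_mulShift _ hψ]
      simp only [sub_eq_zero, ZMod.card]
      split_ifs
      · ring
      · push_cast
        ring
    rw [sum_congr rfl fun d _ => h4 d, sum_ite_eq, if_pos (mem_univ c)]
    ring
  have h0 : ev ψ x 0 = ∑ c, (x c : K) := by
    unfold ev
    refine sum_congr rfl fun c _ => ?_
    rw [mul_zero, AddChar.map_zero_eq_one, mul_one]
  rw [← add_sum_erase univ _ (mem_univ (0 : ZMod p)), neg_zero, h0] at h1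
  unfold Vq
  rw [ZMod.card]
  push_cast
  linear_combination -h1

theorem Vq_ne_of {ψ : AddChar (ZMod p) K} (hψ : ψ.IsPrimitive) (x : ZMod p → ℤ) {a : ZMod p}
    (ha : a ≠ 0) (h : ev ψ x a ≠ 0) : Vq x ≠ 0 := by
  classical
  intro h0
  apply h
  have h1 := (Vq_zero_iff x).1 h0
  unfold ev
  have h2 : ∀ c : ZMod p, (x c : K) * ψ (c * a) = (x 0 : K) * ψ (c * a) := fun c => by rw [h1 c 0]
  rw [sum_congr rfl fun c _ => h2 c, ← mul_sum, AddChar.sum_mulShift _ hψ, if_neg ha]
  push_cast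
  ring

theorem Vq_congr {ψ : AddChar (ZMod p) K} (hψ : ψ.IsPrimitive) (x y : ZMod p → ℤ)
    (h : ∀ a, a ≠ 0 → ev ψ x a = ev ψ y a) : Vq x = Vq y := by
  classical
  have h1 : (Vq x : K) = (Vq y : K) := by
    rw [Vq_ev hψ, Vq_ev hψ]
    refine sum_congr rfl fun a ha => ?_
    have h2 := ne_of_mem_erase ha
    rw [h a h2, h (-a) (neg_ne_zero.2 h2)]
  exact_mod_cast h1

/-- there is a primitive character, and its values are all the `p`-th roots of unity -/
theorem exists_psi (K : Type*) [Field K] [CharZero K] {ζ : K} (hζ : IsPrimitiveRoot ζ p) :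
    ∃ ψ : AddChar (ZMod p) K, ψ.IsPrimitive ∧ ∀ w : K, w ^ p = 1 → ∃ c : ZMod p, w = ψ c := by
  have hp0 : NeZero p := ⟨(Fact.out : p.Prime).ne_zero⟩
  refine ⟨AddChar.zmodChar p hζ.pow_eq_one,
    AddChar.zmodChar_primitive_of_primitive_root p hζ, fun w hw => ?_⟩
  obtain ⟨i, -, rfl⟩ := hζ.eq_pow_of_pow_eq_one hw
  refine ⟨(i : ZMod p), ?_⟩
  rw [AddChar.zmodChar_apply, ZMod.val_natCast]
  have h1 : ζ ^ (i % orderOf ζ) = ζ ^ i := pow_mod_orderOf ζ i
  rw [← hζ.eq_orderOf] at h1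
  exact h1.symm

end

section
variable {K : Type*} [Field K] [CharZero K] {p : ℕ} [Fact p.Prime]
  {X : Type*} [CommGroup X] [Fintype X] [HasEnoughRootsOfUnity K (Monoid.exponent X)]

open Classical in
/-- the elements of order dividing `p` -/
noncomputable def Om (X : Type*) [CommGroup X] [Fintype X] (p : ℕ) : Finset X :=
  univ.filter fun w : X => w ^ p = 1

theorem mem_Om {w : X} : w ∈ Om X p ↔ w ^ p = 1 := by
  classical
  simp [Om]

theorem sum_Om_mul {M : Type*} [AddCommMonoid M] (F : X → M) {v : X} (hv : v ^ p = 1) :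
    ∑ w ∈ Om X p, F (v * w) = ∑ w ∈ Om X p, F w := by
  classical
  refine sum_bij (fun w _ => v * w) ?_ ?_ ?_ ?_
  · intro w hw
    rw [mem_Om] at hw ⊢
    rw [mul_pow, hv, hw, mul_one]
  · exact fun a _ b _ h => mul_left_cancel h
  · intro w hw
    refine ⟨v⁻¹ * w, ?_, by rw [mul_inv_cancel_left]⟩
    rw [mem_Om] at hw ⊢
    rw [mul_pow, inv_pow, hv, hw, inv_one, mul_one]
  · exact fun _ _ => rfl

theorem sum_Om_inv {M : Type*} [AddCommMonoid M] (F : X → M) :
    ∑ w ∈ Om X p, F w⁻¹ = ∑ w ∈ Om X p, F w := by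
  classical
  refine sum_bij (fun w _ => w⁻¹) ?_ ?_ ?_ ?_
  · intro w hw
    rw [mem_Om] at hw ⊢
    rw [inv_pow, hw, inv_one]
  · exact fun a _ b _ h => inv_injective h
  · intro w hw
    refine ⟨w⁻¹, ?_, inv_inv w⟩
    rw [mem_Om] at hw ⊢
    rw [inv_pow, hw, inv_one]
  · exact fun _ _ => rfl

theorem sum_Om_chr (l : X →* Kˣ) : (∀ w ∈ Om X p, l w = 1) ∨ ∑ w ∈ Om X p, chr l w = 0 := by
  classical
  by_cases h : ∀ w ∈ Om X p, l w = 1
  · exact Or.inl h
  · right
    push Not at h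
    obtain ⟨v, hv, hv1⟩ := h
    have h1 : ∑ w ∈ Om X p, chr l w = chr l v * ∑ w ∈ Om X p, chr l w := by
      rw [mul_sum, ← sum_Om_mul (chr l) (mem_Om.1 hv)]
      exact sum_congr rfl fun w _ => chr_map_mul l v w
    have h2 : (chr l v - 1) * ∑ w ∈ Om X p, chr l w = 0 := by
      rw [sub_mul, one_mul, ← h1, sub_self]
    refine (mul_eq_zero.1 h2).resolve_left fun h3 => hv1 ?_
    exact Units.ext (sub_eq_zero.1 h3)

/-- **the values on the powers of `z`** -/
theorem exists_ev {ψ : AddChar (ZMod p) K} (hψ : ∀ w : K, w ^ p = 1 → ∃ c : ZMod p, w = ψ c)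
    (hexp : ∀ u : X, u ^ p ^ 2 = 1) {y : X → K} (hy : y ∈ vir X K) (z : X) :
    ∃ x : ZMod p → ℤ, ∀ a : ZMod p,
      ∑ w ∈ Om X p, y (z ^ a.val * w) = ((Om X p).card : K) * ev ψ x a := by
  classical
  obtain ⟨M, hM⟩ := YLx.int_mlt (Θ := fun _ : Unit => y) fun _ => hy
  have htriv : ∀ l : X →* Kˣ, (∀ w ∈ Om X p, l w = 1) → ∃ c : ZMod p, chr l z = ψ c := by
    intro l hl
    refine hψ _ ?_
    have h1 : l (z ^ p) = 1 := hl _ (by rw [mem_Om, ← pow_mul, ← pow_two, hexp])
    have h2 : (l z) ^ p = 1 := by rw [← map_pow, h1]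
    unfold chr
    rw [← Units.val_pow_eq_pow_val, h2, Units.val_one]
  choose! c hc using htriv
  refine ⟨fun d => ∑ l ∈ univ.filter (fun l : X →* Kˣ => (∀ w ∈ Om X p, l w = 1) ∧ c l = d),
    M () l, fun a => ?_⟩
  have h1 : ∀ w, y (z ^ a.val * w)
      = ∑ l : X →* Kˣ, (M () l : K) * (chr l (z ^ a.val) * chr l w) := by
    intro w
    rw [eq_sum_mlt y]
    refine sum_congr rfl fun l _ => ?_
    rw [hM () l, chr_map_mul]
  rw [sum_congr rfl fun w _ => h1 w, sum_comm]
  have h2 : ∀ l : X →* Kˣ, ∑ w ∈ Om X p, (M () l : K) * (chr l (z ^ a.val) * chr l w)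
      = if (∀ w ∈ Om X p, l w = 1) then
          ((Om X p).card : K) * ((M () l : K) * ψ (c l * a)) else 0 := by
    intro l
    rw [← mul_sum, ← mul_sum]
    split_ifs with h3
    · have h4 : ∑ w ∈ Om X p, chr l w = ((Om X p).card : K) := by
        have h5 : ∀ w ∈ Om X p, chr l w = 1 := fun w hw => by
          unfold chr
          rw [h3 w hw, Units.val_one]
        rw [sum_congr rfl h5, sum_const, nsmul_eq_mul, mul_one]
      have h6 : chr l (z ^ a.val) = ψ (c l * a) := by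
        have h7 : chr l (z ^ a.val) = chr l z ^ a.val := by
          unfold chr
          rw [map_pow, Units.val_pow_eq_pow_val]
        rw [h7, hc l h3, ← AddChar.map_nsmul_eq_pow, nsmul_eq_mul, ZMod.natCast_zmod_val, mul_comm]
      rw [h4, h6]
      ring
    · rw [(sum_Om_chr l).resolve_left h3, mul_zero, mul_zero]
  rw [sum_congr rfl fun l _ => h2 l, ← sum_filter]
  unfold ev
  rw [mul_sum, ← sum_fiberwise_of_maps_to (g := c) (fun l _ => mem_univ (c l))]
  refine sum_congr rfl fun d _ => ?_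
  rw [filter_filter]
  push_cast
  rw [sum_mul, mul_sum]
  refine sum_congr rfl fun l hl => ?_
  rw [(mem_filter.1 hl).2.2]

end

end Pool.Agent.Lib.P0c8ca5.Ex.V5
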