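import Mathlib
import Pool.Agent.Lib.P0c8ca5Ex.V5E
import Pool.Agent.Lib.P0c8ca5Ex.GJ
import Pool.Agent.Lib.P0c8ca5Ex.R12

/-!
# V5B: the powers of an element of order `p²`
-/

set_option linter.unusedSectionVars false

namespace Pool.Agent.Lib.P0c8ca5.Ex.V5

open Finset

section
variable {p : ℕ} [Fact p.Prime] {X : Type*} [CommGroup X] [Fintype X]

/-- the sums at `-a` -/
theorem sum_neg {M : Type*} [AddCommMonoid M] (y : X → M) {z : X} (hz : z ^ p ^ 2 = 1)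
    {a : ZMod p} (ha : a ≠ 0) :
    ∑ w ∈ Om X p, y (z ^ (-a).val * w) = ∑ w ∈ Om X p, y (z ^ a.val * w)⁻¹ := by
  have hp0 : NeZero p := ⟨(Fact.out : p.Prime).ne_zero⟩
  have h1 : (-a).val + a.val = p := by
    have h2 := ZMod.neg_val a
    rw [if_neg ha] at h2
    have h3 := ZMod.val_lt a
    omega
  have h2 : z ^ (-a).val = z ^ p * (z ^ a.val)⁻¹ := by
    rw [eq_mul_inv_iff_mul_eq, ← pow_add, h1]
  have h3 : (z ^ p) ^ p = 1 := by rw [← pow_mul, ← pow_two, hz]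
  have h4 : ∀ w, z ^ (-a).val * w = (z ^ a.val)⁻¹ * (z ^ p * w) := by
    intro w
    rw [h2, mul_comm (z ^ p), mul_assoc]
  simp only [h4]
  rw [sum_Om_mul (fun w => y ((z ^ a.val)⁻¹ * w)) h3,
    ← sum_Om_inv (fun w => y ((z ^ a.val)⁻¹ * w))]
  refine sum_congr rfl fun w _ => ?_
  rw [mul_inv]

theorem order_sq {u : X} (hu1 : u ^ p ≠ 1) (hu2 : u ^ p ^ 2 = 1) : orderOf u = p ^ 2 := by
  have := orderOf_eq_prime_pow (p := p) (n := 1) (x := u) (by rwa [pow_one]) (by simpa using hu2)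
  simpa using this

/-- the elements of order `p` in `⟨u⟩` -/
theorem mem_zp_pow {u w : X} (hu1 : u ^ p ≠ 1) (hu2 : u ^ p ^ 2 = 1)
    (hw : w ∈ Subgroup.zpowers u) (hw1 : w ^ p = 1) : ∃ n : ℕ, w = (u ^ p) ^ n := by
  have hp : p.Prime := Fact.out
  obtain ⟨m, hm⟩ := mem_powers_iff_mem_zpowers.2 hw
  have hm' : u ^ m = w := hm
  have h1 : u ^ (m * p) = 1 := by rw [pow_mul, hm', hw1]
  have h2 : p ^ 2 ∣ m * p := by
    rw [← order_sq hu1 hu2]
    exact orderOf_dvd_of_pow_eq_one h1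
  have h3 : p ∣ m := by
    rw [pow_two] at h2
    exact Nat.dvd_of_mul_dvd_mul_right hp.pos h2
  obtain ⟨n, rfl⟩ := h3
  exact ⟨n, by rw [← hm', pow_mul]⟩

/-- a function invariant under `v ↦ v ^ (1 + p)` -/
theorem inv_Om {K : Type*} (y : X → K) {u w : X} (hu1 : u ^ p ≠ 1) (hu2 : u ^ p ^ 2 = 1)
    (hw : w ∈ Subgroup.zpowers u) (hw1 : w ^ p = 1)
    (hy : ∀ n : ℕ, y ((u * (u ^ p) ^ n) ^ (1 + p)) = y (u * (u ^ p) ^ n)) : y (u * w) = y u := by
  obtain ⟨n, rfl⟩ := mem_zp_pow hu1 hu2 hw hw1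
  have hxp : (u ^ p) ^ p = 1 := by rw [← pow_mul, ← pow_two, hu2]
  have h0 : ∀ j : ℕ, (u * (u ^ p) ^ j) ^ p = u ^ p := by
    intro j
    rw [mul_pow, ← pow_mul (u ^ p), mul_comm j p, pow_mul (u ^ p), hxp, one_pow, mul_one]
  induction n with
  | zero => rw [pow_zero, mul_one]
  | succ j ih =>
    have h2 : u * (u ^ p) ^ (j + 1) = (u * (u ^ p) ^ j) ^ (1 + p) := by
      rw [pow_add (u * (u ^ p) ^ j) 1 p, pow_one, h0 j, pow_succ, mul_assoc]
    rw [h2, hy]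
    refine ih ?_ ?_
    · exact Subgroup.pow_mem _ (Subgroup.pow_mem _ (Subgroup.mem_zpowers u) _) _
    · rw [← pow_mul (u ^ p), mul_comm j p, pow_mul (u ^ p), hxp, one_pow]

theorem pow_ne {z : X} (hz1 : z ^ p ≠ 1) (hz2 : z ^ p ^ 2 = 1) {a : ℕ} (ha : ¬ p ∣ a) :
    (z ^ a) ^ p ≠ 1 := by
  have hp : p.Prime := Fact.out
  intro h
  rw [← pow_mul] at h
  have h2 := orderOf_dvd_of_pow_eq_one h
  rw [order_sq hz1 hz2, pow_two] at h2
  exact ha (Nat.dvd_of_mul_dvd_mul_right hp.pos h2)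

theorem zp_pow_eq {z : X} (hz1 : z ^ p ≠ 1) (hz2 : z ^ p ^ 2 = 1) {a : ℕ} (ha : ¬ p ∣ a) :
    Subgroup.zpowers (z ^ a) = Subgroup.zpowers z := by
  have hp : p.Prime := Fact.out
  have hcop : (orderOf z).Coprime a := by
    rw [order_sq hz1 hz2]
    exact Nat.Coprime.pow_left 2 ((Nat.Prime.coprime_iff_not_dvd hp).2 ha)
  refine Subgroup.eq_of_le_of_card_ge (Subgroup.zpowers_le.2
    (Subgroup.pow_mem _ (Subgroup.mem_zpowers z) a)) ?_
  rw [Nat.card_zpowers, Nat.card_zpowers, Nat.Coprime.orderOf_pow hcop]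

theorem zp_mul_eq {z w : X} (hz1 : z ^ p ≠ 1) (hz2 : z ^ p ^ 2 = 1) {a : ℕ} (ha : ¬ p ∣ a)
    (hw : w ∈ Subgroup.zpowers z) (hw1 : w ^ p = 1) :
    Subgroup.zpowers (z ^ a * w) = Subgroup.zpowers z := by
  have h1 : z ^ a * w ∈ Subgroup.zpowers z :=
    Subgroup.mul_mem _ (Subgroup.pow_mem _ (Subgroup.mem_zpowers z) a) hw
  have h2 : (z ^ a * w) ^ p ≠ 1 := by
    rw [mul_pow, hw1, mul_one]
    exact pow_ne hz1 hz2 ha
  have h3 : (z ^ a * w) ^ p ^ 2 = 1 := by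
    rw [mul_pow, ← pow_mul, mul_comm a, pow_mul, hz2, one_pow, one_mul, pow_two, pow_mul, hw1,
      one_pow]
  refine Subgroup.eq_of_le_of_card_ge (Subgroup.zpowers_le.2 h1) ?_
  rw [Nat.card_zpowers, Nat.card_zpowers, order_sq hz1 hz2, order_sq h2 h3]

/-- the number of the elements of order dividing `p` in `⟨z⟩` -/
theorem card_Om_zp {z : X} (hz1 : z ^ p ≠ 1) (hz2 : z ^ p ^ 2 = 1) :
    (Om ↥(Subgroup.zpowers z) p).card = p := by
  classical
  have hp : p.Prime := Fact.out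
  have hxp : (z ^ p) ^ p = 1 := by rw [← pow_mul, ← pow_two, hz2]
  have hord : orderOf (z ^ p) = p := orderOf_eq_prime hxp hz1
  have h1 : (univ : Finset (Fin p)).card = (Om ↥(Subgroup.zpowers z) p).card := by
    refine card_bij (fun j _ => (⟨(z ^ p) ^ (j : ℕ), Subgroup.pow_mem _
      (Subgroup.pow_mem _ (Subgroup.mem_zpowers z) _) _⟩ : ↥(Subgroup.zpowers z))) ?_ ?_ ?_
    · intro j _
      rw [mem_Om]
      apply Subtype.ext
      change ((z ^ p) ^ (j : ℕ)) ^ p = 1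
      rw [← pow_mul (z ^ p), mul_comm (j : ℕ) p, pow_mul (z ^ p), hxp, one_pow]
    · intro i _ j _ hij
      have h2 : (z ^ p) ^ (i : ℕ) = (z ^ p) ^ (j : ℕ) := congrArg Subtype.val hij
      exact Fin.ext (pow_injOn_Iio_orderOf (by rw [Set.mem_Iio, hord]; exact i.2)
        (by rw [Set.mem_Iio, hord]; exact j.2) h2)
    · intro w hw
      rw [mem_Om] at hw
      obtain ⟨n, hn⟩ := mem_zp_pow hz1 hz2 w.2 (congrArg Subtype.val hw)
      refine ⟨⟨n % p, Nat.mod_lt _ hp.pos⟩, mem_univ _, Subtype.ext ?_⟩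
      change (z ^ p) ^ (n % p) = w
      rw [hn]
      have h3 := pow_mod_orderOf (z ^ p) n
      rwa [hord] at h3
  rw [card_univ, Fintype.card_fin] at h1
  exact h1.symm

/-- the number of the automorphisms which fix the coset of `z ^ a` -/
theorem count_st {E : Subgroup (MulAut X)} {z : X} (hz2 : z ^ p ^ 2 = 1)
    (hfix : ∀ α ∈ E, α (z ^ p) = z ^ p → α z = z) {a : ℕ} (ha : ¬ p ∣ a) :
    Nat.card {α : E // ((α : MulAut X) (z ^ a) * (z ^ a)⁻¹) ^ p = 1} = st E z := by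
  have hp : p.Prime := Fact.out
  unfold st
  refine Nat.card_congr (Equiv.subtypeEquivRight fun α => ?_)
  constructor
  · intro h
    apply hfix α α.2
    set x : X := (α : MulAut X) (z ^ p) * (z ^ p)⁻¹ with hx
    have h1 : x ^ a = 1 := by
      rw [hx, mul_pow, ← map_pow, inv_pow, ← pow_mul, mul_comm p a, pow_mul, map_pow, ← inv_pow,
        ← mul_pow, h]
    have h2 : x ^ p = 1 := by
      rw [hx, mul_pow, ← map_pow, inv_pow, ← pow_mul, ← pow_two, hz2, map_one, inv_one, mul_one]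
    have h3 : x ^ Nat.gcd p a = 1 := by
      rw [pow_gcd_eq_one]
      exact ⟨h2, h1⟩
    rw [(Nat.Prime.coprime_iff_not_dvd hp).2 ha, pow_one, hx] at h3
    exact mul_inv_eq_one.1 h3
  · intro h
    rw [map_pow, h, mul_inv_cancel, one_pow]

end

end Pool.Agent.Lib.P0c8ca5.Ex.V5
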