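import Mathlib
import Pool.Agent.Lib.P0c8ca5Ex.ZG

/-!
# V5F: the characters fixed by the Galois action `u ↦ u ^ (1 + p)`

`fixed`: a set `S` of characters of the block with `χ (v ^ (1 + p) y) = χ (v y)` for all `p`-elements `v` and all
`p`-regular `y` that commute with `v`, and `l(b) ≤ |S|`. `sm_fix`: the inner products with a function on the
`p`-regular elements of `C(v)`.
-/

set_option linter.unusedSectionVars false

namespace Pool.Agent.Lib.P0c8ca5.Ex.V5

open MonoidAlgebra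

section
variable {p : ℕ} [Fact p.Prime] {k : Type*} [Field k] [IsAlgClosed k] [CharP k p]
  {A : Type*} [Group A] [Finite A]

/-- the values of the Galois conjugate on the `p`-section -/
theorem gal_val {t : ℕ} {χ χ' : Ir (KW p k) A} {v y : A}
    (hs : ∀ F : MonoidAlgebra (OW p k) A, F * F = F →
      single v 1 * F = F * single v (1 : OW p k) →
      chO χ' (single v 1 * F) = chO χ (single (v ^ t) 1 * F))
    (hy : Preg p y) (hvy : v * y = y * v) : ch χ' (v * y) = ch χ (v ^ t * y) := by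
  obtain ⟨n, ζ, ε, h1, h2, h3⟩ := reg_dec (p := p) (k := k) hy
  have key : ∀ (ξ : Ir (KW p k) A) (v : A), ch ξ (v * y)
      = ∑ j, algebraMap (OW p k) (KW p k) (ζ j) * chO ξ (single v 1 * ε j) := by
    intro ξ v
    rw [← YEAux.chO_single_ch]
    have h4 : (single (v * y) 1 : MonoidAlgebra (OW p k) A)
        = ∑ j, ζ j • (single v (1 : OW p k) * ε j) := by
      rw [← mul_one (1 : OW p k), ← single_mul_single, mul_one, h3, Finset.mul_sum]
      refine Finset.sum_congr rfl fun j _ => ?_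
      rw [mul_smul_comm]
    rw [h4, map_sum]
    refine Finset.sum_congr rfl fun j _ => ?_
    rw [chO_smul]
  rw [key χ' v, key χ (v ^ t)]
  refine Finset.sum_congr rfl fun j _ => ?_
  rw [hs (ε j) (h1 j) (h2 j v hvy)]

/-- the inner products of a fixed character -/
theorem sm_fix {t : ℕ} {X P : A → KW p k} {v : A}
    (hX : ∀ y, v * y = y * v → Preg p y → X (v ^ t * y) = X (v * y))
    (hP : ∀ y, P y ≠ 0 → v * y = y * v ∧ Preg p y) :
    sm (fun y => X (v ^ t * y) * P y⁻¹) = sm (fun y => X (v * y) * P y⁻¹) := by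
  refine sm_congr fun y => ?_
  by_cases hy : P y⁻¹ = 0
  · rw [hy, mul_zero, mul_zero]
  · obtain ⟨h1, h2⟩ := hP _ hy
    have h3 : v * y = y * v := by
      have h4 := congrArg (fun x => y * x * y) h1
      simp only [mul_assoc, inv_mul_cancel, mul_one] at h4
      rw [← mul_assoc y y⁻¹, mul_inv_cancel, one_mul] at h4
      exact h4.symm
    rw [hX y h3 (preg_inv.1 h2)]

end

section
variable {p : ℕ} [Fact p.Prime] {k : Type*} [Field k] [IsAlgClosed k] [CharP k p]
  {A : Type*} [Group A] [Fintype A] {T : Type*} [CommGroup T] [Fintype T]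
  {φ : T →* A} {b f i : MonoidAlgebra k A} {D : Subgroup A}

/-- **the fixed characters** -/
theorem fixed (h : Src p b D f i) (hpE : ¬ p ∣ eN D f) {B : MonoidAlgebra (OW p k) A}
    (hB : CenL b B) : ∃ S : Finset (IR φ ⊥ B),
      (∀ χ ∈ S, ∀ (v : A) (M : ℕ), v ^ p ^ M = 1 → ∀ y, v * y = y * v → Preg p y →
        ch χ.1 (v ^ (1 + p) * y) = ch χ.1 (v * y)) ∧
      Nat.card (Quotient (irrInvSetoid (⊤ : Subgroup A) ⊤ b)) ≤ S.card := by
  classical
  have hp : p.Prime := Fact.out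
  have hb := h.root.blk
  have ht1 : (1 + p).Coprime p := by
    rw [Nat.coprime_add_self_left]
    exact Nat.coprime_one_left p
  obtain ⟨s, hs⟩ := exists_galB (p := p) (k := k) B ht1
  have hN : ∀ (v g : A) (M : ℕ) (c : MonoidAlgebra k A), v ^ p ^ M = 1 → v ^ (1 + p) ≠ v →
      IsBlock (C1 v) c → resS (C1 v : Set A) b * c = c → v ^ (1 + p) * g = g * v → cj g c ≠ c :=
    fun v g M c hv hv1 hc hbc hg =>
      no_gal1 h hpE (by rw [Nat.add_sub_cancel_left]) (by omega) hv hv1 hc hbc hg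
  have hK : ∀ χ : Ir (KW p k) A, Ker φ ⊥ χ := fun χ z hz x => by
    rw [Subgroup.mem_bot.1 hz, map_one, one_mul]
  set S : Finset (IR φ ⊥ B) :=
    Finset.univ.filter fun χ => s ⟨χ.1, χ.2.2⟩ = ⟨χ.1, χ.2.2⟩ with hSd
  have hSc : Nat.card {χ : IrB B // s χ = χ} = S.card := by
    rw [hSd, ← Fintype.card_subtype, ← Nat.card_eq_fintype_card]
    exact Nat.card_congr ⟨fun χ => ⟨⟨χ.1.1, hK _, χ.1.2⟩, χ.2⟩, fun χ => ⟨⟨χ.1.1, χ.1.2.2⟩, χ.2⟩,
      fun _ => rfl, fun _ => rfl⟩
  refine ⟨S, fun χ hχ v M hv y hvy hy => ?_, ?_⟩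
  · have hχ' : s ⟨χ.1, χ.2.2⟩ = ⟨χ.1, χ.2.2⟩ := (Finset.mem_filter.1 hχ).2
    refine (gal_val (χ := χ.1) (χ' := χ.1) (t := 1 + p) (fun F hF hF' => ?_) hy hvy).symm
    have h3 := hs ⟨χ.1, χ.2.2⟩ v M hv F hF hF'
    rwa [hχ'] at h3
  · rw [← hSc]
    exact fix_ge' hb hB s ht1 hs hN

end

end Pool.Agent.Lib.P0c8ca5.Ex.V5
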