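import Mathlib
import Pool.Agent.Lib.P0c8ca5Ex.YM
import Pool.Agent.Lib.P0c8ca5Ex.YOa
import Pool.Agent.Lib.P0c8ca5Ex.YJ
import Pool.Agent.Lib.P0c8ca5Ex.FI
import Pool.Agent.Lib.P0c8ca5Ex.GI

/-!
# V5G: the columns of the local functions

`H = C(u)`; for a function `P` on `H` with the values on the `p`-regular elements only,
`rP H P X u = |H|⁻¹ ∑_y X(u y) P(y⁻¹)`.

* `LP H c P`: `P` is zero outside `H` and outside the `p`-regular elements and in the block `c`.
* `col_self`, `col_ne`: the column sums. `gsum` is the computation for the sum over all characters: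
  by `col` it is `|C(x)|⁻¹ |C(x')|⁻¹ ∑_(g : x g = g x') ∑_y P(y⁻¹) P'(g⁻¹ y g)`.
* `rP_xs`: the values of `rP` in terms of `xs`; `rP_vir`: they are virtual characters of `Q`.
* `rP_out`: they vanish for the characters outside the block.
* `nonvan`, `exists_rP_ne`: for a character in the block they are not all zero.
-/

set_option linter.unusedSectionVars false

namespace Pool.Agent.Lib.P0c8ca5.Ex

open MonoidAlgebra

section
variable {K : Type*} [Field K] {A : Type*} [Group A] [Finite A]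

/-- the column of the function `P` on `H` -/
noncomputable def rP (H : Subgroup A) (P X : A → K) (x : A) : K :=
  (Nat.card ↥H : K)⁻¹ * sm (fun y => X (x * y) * P y⁻¹)

open Classical in
/-- extension by zero -/
noncomputable def exz (H : Subgroup A) (P : ↥H → K) (x : A) : K :=
  if hx : x ∈ H then P ⟨x, hx⟩ else 0

theorem on_exz (H : Subgroup A) (P : ↥H → K) : on H (exz H P) = P := by
  funext x
  change exz H P x = P x
  rw [exz, dif_pos x.2]

theorem exz_out {H : Subgroup A} (P : ↥H → K) {x : A} (hx : x ∉ H) : exz H P x = 0 := by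
  rw [exz, dif_neg hx]

theorem exz_on {H : Subgroup A} {P : A → K} (hP : ∀ x, x ∉ H → P x = 0) :
    exz H (on H P) = P := by
  funext x
  by_cases hx : x ∈ H
  · rw [exz, dif_pos hx]
    rfl
  · rw [exz, dif_neg hx, hP x hx]

end

section
variable {p : ℕ} [Fact p.Prime] {k : Type*} [Field k] [IsAlgClosed k] [CharP k p]
  {A : Type*} [Group A] [Finite A]

/-- local functions: zero outside `H` and outside the `p`-regular elements, in the block `c` -/
structure LP (H : Subgroup A) (c : MonoidAlgebra k A) (P : A → KW p k) : Prop where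
  sup : ∀ x, x ∉ H → P x = 0
  blk : on H P ∈ VA (p := p) (dnr H c)
  reg : ∀ x, ¬ Preg p x → P x = 0

theorem exz_LP {H : Subgroup A} {c : MonoidAlgebra k A} {P : ↥H → KW p k}
    (hb : P ∈ VA (p := p) (dnr H c)) (hr : ∀ x : ↥H, ¬ Preg p x → P x = 0) :
    LP H c (exz H P) where
  sup x hx := exz_out P hx
  blk := by rw [on_exz]; exact hb
  reg x hx := by
    by_cases h1 : x ∈ H
    · rw [exz, dif_pos h1]
      refine hr _ fun h2 => hx ?_
      unfold Preg at h2 ⊢
      rwa [← Subgroup.orderOf_coe] at h2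
    · exact exz_out P h1

/-- the sum over the group is the sum over `H` -/
theorem rP_ip {H : Subgroup A} {P : A → KW p k} (hP : ∀ x, x ∉ H → P x = 0)
    (X : A → KW p k) (x : A) : rP H P X x = ip (on H fun y => X (x * y)) (on H P) := by
  rw [rP, ip, sm_sub H]
  · rfl
  · intro y hy
    rw [hP _ (fun h => hy ((Subgroup.inv_mem_iff H).1 h)), mul_zero]

/-- the column sums in terms of the inner sums -/
theorem gsum {x x' : A} {M : ℕ} (hM : x ^ p ^ M = 1) (hM' : x' ^ p ^ M = 1)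
    {P P' : A → KW p k} (h1 : ∀ y, y ∉ C1 x → P y = 0) (h1' : ∀ y, y ∉ C1 x' → P' y = 0)
    (hreg : ∀ y, ¬ Preg p y → P y = 0) (hreg' : ∀ y, ¬ Preg p y → P' y = 0)
    [DecidableEq A] :
    ∑ χ : Ir (KW p k) A, rP (C1 x) P (ch χ) x * rP (C1 x') P' (ch χ) x'⁻¹ =
      (Nat.card ↥(C1 x) : KW p k)⁻¹ * (Nat.card ↥(C1 x') : KW p k)⁻¹ *
        sm (fun g => if x * g = g * x' then
          sm (fun y => P y⁻¹ * P' (g⁻¹ * y * g)) else 0) := by
  have := Fintype.ofFinite A
  have h3 : ∀ χ : Ir (KW p k) A, rP (C1 x) P (ch χ) x * rP (C1 x') P' (ch χ) x'⁻¹ =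
      (Nat.card ↥(C1 x) : KW p k)⁻¹ * (Nat.card ↥(C1 x') : KW p k)⁻¹ *
        ∑ y : A, ∑ y' : A, (ch χ (x * y) * ch χ (x'⁻¹ * y')) * (P y⁻¹ * P' y'⁻¹) := by
    intro χ
    rw [rP, rP, sm_eq, sm_eq]
    have e : (∑ y : A, ch χ (x * y) * P y⁻¹) * (∑ y' : A, ch χ (x'⁻¹ * y') * P' y'⁻¹) =
        ∑ y : A, ∑ y' : A, (ch χ (x * y) * ch χ (x'⁻¹ * y')) * (P y⁻¹ * P' y'⁻¹) := by
      rw [Finset.sum_mul_sum]
      refine Finset.sum_congr rfl fun y _ => Finset.sum_congr rfl fun y' _ => ?_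
      ring
    rw [← e]
    ring
  rw [Finset.sum_congr rfl fun χ _ => h3 χ, ← Finset.mul_sum]
  congr 1
  rw [Finset.sum_comm, sm_eq]
  have h4 : ∀ y : A, ∑ χ : Ir (KW p k) A, ∑ y' : A,
      (ch χ (x * y) * ch χ (x'⁻¹ * y')) * (P y⁻¹ * P' y'⁻¹) =
      ∑ g : A, P y⁻¹ * P' (g⁻¹ * (x * y) * g * x'⁻¹) := by
    intro y
    rw [Finset.sum_comm]
    have h5 : ∀ y' : A, ∑ χ : Ir (KW p k) A,
        (ch χ (x * y) * ch χ (x'⁻¹ * y')) * (P y⁻¹ * P' y'⁻¹) =
        ∑ g : A, if y' = (g⁻¹ * (x * y) * g * x'⁻¹)⁻¹ then P y⁻¹ * P' y'⁻¹ else 0 := by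
      intro y'
      rw [← Finset.sum_mul, col, ← Finset.sum_filter, Finset.sum_const, nsmul_eq_mul,
        Nat.card_eq_fintype_card, Fintype.card_subtype]
      congr 3
      ext g
      simp only [Finset.mem_filter, Finset.mem_univ, true_and]
      constructor
      · intro h6
        refine eq_inv_of_mul_eq_one_right ?_
        calc g⁻¹ * (x * y) * g * x'⁻¹ * y'
            = g⁻¹ * (x * y * g * (x'⁻¹ * y')) := by simp only [mul_assoc]
          _ = g⁻¹ * g := by rw [h6]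
          _ = 1 := inv_mul_cancel g
      · intro h6
        rw [h6]
        group
    rw [Finset.sum_congr rfl fun y' _ => h5 y', Finset.sum_comm]
    refine Finset.sum_congr rfl fun g _ => ?_
    rw [Finset.sum_ite_eq', if_pos (Finset.mem_univ _), inv_inv]
  rw [Finset.sum_congr rfl fun y _ => h4 y, Finset.sum_comm]
  refine Finset.sum_congr rfl fun g _ => ?_
  have h5 : ∀ y : A, P y⁻¹ * P' (g⁻¹ * (x * y) * g * x'⁻¹) =
      if x * g = g * x' then P y⁻¹ * P' (g⁻¹ * y * g) else 0 := by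
    intro y
    by_cases hy0 : P y⁻¹ = 0
    · rw [hy0, zero_mul, zero_mul, ite_self]
    have hyC : y ∈ C1 x := by
      by_contra h6
      exact hy0 (h1 _ (fun h7 => h6 ((Subgroup.inv_mem_iff _).1 h7)))
    have hyP : Preg p y := by
      by_contra h6
      exact hy0 (hreg _ (fun h7 => h6 (preg_inv.1 h7)))
    have hyc := mem_C1'.1 hyC
    by_cases hg : x * g = g * x'
    · rw [if_pos hg]
      congr 2
      rw [hyc]
      calc g⁻¹ * (y * x) * g * x'⁻¹ = g⁻¹ * y * (x * g) * x'⁻¹ := by group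
        _ = g⁻¹ * y * (g * x') * x'⁻¹ := by rw [hg]
        _ = _ := by group
    · rw [if_neg hg, mul_eq_zero]
      right
      by_contra h6
      set w := g⁻¹ * (x * y) * g * x'⁻¹ with hw
      have hwC : w ∈ C1 x' := by
        by_contra h7
        exact h6 (h1' _ h7)
      have hwP : Preg p w := by
        by_contra h7
        exact h6 (hreg' _ h7)
      have hwc := mem_C1'.1 hwC
      have e1 : g⁻¹ * (x * y) * g = w * x' := by
        rw [hw]
        group
      have e2 := congrArg (pr p) e1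
      have e3 : pr p (g⁻¹ * (x * y) * g) = g⁻¹ * y * g := by
        have e4 := pr_conj (p := p) g⁻¹ (x * y)
        rw [inv_inv] at e4
        rw [e4, pr_mul hyc, pr_of_pow hM, pr_eq_self hyP, one_mul]
      have e5 : pr p (w * x') = w := by
        rw [pr_mul hwc.symm, pr_of_pow hM', pr_eq_self hwP, mul_one]
      rw [e3, e5] at e2
      apply hg
      rw [← e2, hyc] at e1
      have e6 : y⁻¹ * g * (g⁻¹ * (y * x) * g) = y⁻¹ * g * (g⁻¹ * y * g * x') := by rw [e1]
      have e7 : y⁻¹ * g * (g⁻¹ * (y * x) * g) = x * g := by group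
      have e8 : y⁻¹ * g * (g⁻¹ * y * g * x') = g * x' := by group
      rwa [e7, e8] at e6
  rw [Finset.sum_congr rfl fun y _ => h5 y]
  split_ifs with hg
  · rw [sm_eq]
  · rw [Finset.sum_const_zero]

variable {T : Type*} [CommGroup T] [Fintype T]
  {φ : T →* A} {b f i : MonoidAlgebra k A} {D : Subgroup A}

/-- **the column sums at `u`** -/
theorem col_self (h : Src p b D f i) (hran : ∀ x, x ∈ D ↔ ∃ t, φ t = x) {u : T}
    {H : Subgroup A} (hu : C1 (φ u) = H) {c : MonoidAlgebra k A} {P P' : A → KW p k}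
    (hP : LP H c P) (hP' : LP H c P') :
    ∑ χ : Ir (KW p k) A, rP H P (ch χ) (φ u) * rP H P' (ch χ) (φ u)⁻¹
      = ip (on H P) (on H P') := by
  classical
  subst hu
  obtain ⟨M, hM⟩ := pow_one_of h
  have hm := hM _ ((hran _).2 ⟨u, rfl⟩)
  rw [gsum hm hm hP.sup hP'.sup hP.reg hP'.reg]
  have hS : ∀ g : A, (if φ u * g = g * φ u then
      sm (fun y => P y⁻¹ * P' (g⁻¹ * y * g)) else 0)
      = if g ∈ C1 (φ u) then (Nat.card ↥(C1 (φ u)) : KW p k) *
          ip (on (C1 (φ u)) P) (on (C1 (φ u)) P') else 0 := by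
    intro g
    by_cases hg : g ∈ C1 (φ u)
    · rw [if_pos (mem_C1'.1 hg), if_pos hg, ip_comm, ip, mul_inv_cancel_left₀ cardK_ne,
        sm_sub (C1 (φ u))]
      · refine sm_congr fun y => ?_
        have h4 := V_conj hP'.blk.1 (⟨g, hg⟩⁻¹ : ↥(C1 (φ u))) y
        rw [inv_inv] at h4
        have h5 : P' (g⁻¹ * y * g) = P' y := h4
        rw [h5, mul_comm]
        rfl
      · intro y hy
        rw [hP.sup _ (fun h7 => hy ((Subgroup.inv_mem_iff _).1 h7)), zero_mul]
    · rw [if_neg (fun h7 => hg (mem_C1'.2 h7)), if_neg hg]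
  rw [sm_congr hS, sm_sub (C1 (φ u))]
  · have h6 : ∀ g : ↥(C1 (φ u)), (if (g : A) ∈ C1 (φ u) then (Nat.card ↥(C1 (φ u)) : KW p k) *
          ip (on (C1 (φ u)) P) (on (C1 (φ u)) P') else 0)
        = (Nat.card ↥(C1 (φ u)) : KW p k) * ip (on (C1 (φ u)) P) (on (C1 (φ u)) P') :=
      fun g => if_pos g.2
    rw [sm_congr h6, sm_const]
    have h7 : (Nat.card ↥(C1 (φ u)) : KW p k) ≠ 0 := cardK_ne
    field_simp
  · intro g hg
    rw [if_neg hg]

/-- **the column sums at two places which are not fused** -/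
theorem col_ne (h : Src p b D f i) (hinj : Function.Injective φ)
    (hran : ∀ x, x ∈ D ↔ ∃ t, φ t = x) {u v : T} {H : Subgroup A}
    (hu : C1 (φ u) = H) (hv : C1 (φ v) = H) {c : MonoidAlgebra k A} (hc : LbH H i c)
    {P P' : A → KW p k} (hP : LP H c P) (hP' : LP H c P')
    (hno : ¬ ∃ α ∈ EG φ D f, v = α u) :
    ∑ χ : Ir (KW p k) A, rP H P (ch χ) (φ u) * rP H P' (ch χ) (φ v)⁻¹ = 0 := by
  classical
  obtain ⟨M, hM⟩ := pow_one_of h
  have hDu : φ u ∈ D := (hran _).2 ⟨u, rfl⟩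
  have hDv : φ v ∈ D := (hran _).2 ⟨v, rfl⟩
  have hcu : LbH (C1 (φ u)) i c := hu ▸ hc
  have hcv : LbH (C1 (φ v)) i c := hv ▸ hc
  have hPu : LP (C1 (φ u)) c P := hu ▸ hP
  have hPv : LP (C1 (φ v)) c P' := hv ▸ hP'
  have e0 : ∑ χ : Ir (KW p k) A, rP H P (ch χ) (φ u) * rP H P' (ch χ) (φ v)⁻¹
      = ∑ χ : Ir (KW p k) A, rP (C1 (φ u)) P (ch χ) (φ u) * rP (C1 (φ v)) P' (ch χ) (φ v)⁻¹ := by
    rw [hu, hv]
  rw [e0, gsum (hM _ hDu) (hM _ hDv) hPu.sup hPv.sup hPu.reg hPv.reg]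
  have h1 : ∀ g : A, (if φ u * g = g * φ v then
      sm (fun y => P y⁻¹ * P' (g⁻¹ * y * g)) else 0) = 0 := by
    intro g
    by_cases hg : φ u * g = g * φ v
    · rw [if_pos hg]
      have hne : cj g c ≠ c := fun h3 =>
        hno ((conj_iff hinj hran).2 (fus_elt h hDu hDv hg hcu hcv h3))
      have h3 := YFAux.disj_sum hg hcu.blk hcv.blk hne hPv.blk hPu.blk
      rw [ip, mul_eq_zero] at h3
      have h4 := h3.resolve_left (inv_ne_zero cardK_ne)
      rw [sm_sub (C1 (φ u))]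
      · rw [← h4]
        refine sm_congr fun y => ?_
        rw [mul_comm]
        rfl
      · intro x hx
        rw [hPu.sup _ (fun h5 => hx ((Subgroup.inv_mem_iff _).1 h5)), zero_mul]
    · rw [if_neg hg]
  rw [sm_congr h1, sm_zero, mul_zero]

/-- the columns vanish for the characters outside the block -/
theorem rP_out (h : Src p b D f i) (hran : ∀ x, x ∈ D ↔ ∃ t, φ t = x)
    {B : MonoidAlgebra (OW p k) A} (hB : CenL b B) {χ : Ir (KW p k) A} (hχ : chO χ B = 0)
    {u : T} {H : Subgroup A} (hu : C1 (φ u) = H) {c : MonoidAlgebra k A} (hc : LbH H i c)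
    {P : A → KW p k} (hP : LP H c P) : rP H P (ch χ) (φ u) = 0 := by
  rw [rP, YEAux.out_zero h hB hχ ((hran _).2 ⟨u, rfl⟩) hu hP.sup ?_ hP.reg, mul_zero]
  intro c' hc'
  have h1 : c' = c := by
    have hD : φ u ∈ D := (hran _).2 ⟨u, rfl⟩
    subst hu
    by_contra hne
    have h2 := (hc'.blk.eq_or_mul_eq_zero hc.blk).resolve_left hne
    have h3 : resS (C1 (φ u) : Set A) i = 0 := by
      rw [← hc.ic, ← hc'.ic, mul_assoc, h2, mul_zero]
    have h4 := (src_loc h hD hc).prim.ne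
    apply h4
    rw [← dnr_resS', h3, dnr_zero]
  rw [h1]
  exact hP.blk

/-- the values of the columns in terms of the coefficients `xs` -/
theorem rP_xs {Q : Subgroup T} {c : MonoidAlgebra k A}
    {BH : MonoidAlgebra (OW p k) ↥(cq φ Q)} (hB : CenL (dnr (cq φ Q) c) BH)
    {P : A → KW p k} (hP : LP (cq φ Q) c P) {X : A → KW p k} (hX : X ∈ V (KW p k) A)
    {v : T} (hv : v ∈ Q) :
    rP (cq φ Q) P X (φ v)
      = ∑ s, xs φ (cq φ Q) BH X s v * ip (ch s) (on (cq φ Q) P) := by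
  classical
  have hXH : on (cq φ Q) X ∈ V (KW p k) ↥(cq φ Q) := YJAux.on_mem _ hX
  have h1 : (on (cq φ Q) fun y => X (φ v * y)) = fun y =>
      ∑ s, ((ip (on (cq φ Q) X) (ch s) *
        om s (single (⟨φ v, YJAux.phi_mem φ Q v⟩ : ↥(cq φ Q)) 1)) • ch s) y := by
    funext y
    change on (cq φ Q) X (⟨φ v, YJAux.phi_mem φ Q v⟩ * y) = _
    rw [(V_expand hXH).2]
    refine Finset.sum_congr rfl fun s _ => ?_
    rw [YJAux.ch_cen s (YJAux.phi_cen hv), Pi.smul_apply, smul_eq_mul]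
    ring
  rw [rP_ip hP.sup, h1, ip_sum]
  refine Finset.sum_congr rfl fun s _ => ?_
  rw [ip_smul, YJAux.xs_eq hB hX hv]
  split_ifs with hs
  · rfl
  · rw [not_not] at hs
    rw [ip_comm (ch s) (on (cq φ Q) P), hP.blk.2 BH hB s hs, mul_zero, mul_zero]

/-- **the columns are virtual characters of `Q`** -/
theorem rP_vir {H : Subgroup A} {Q : Subgroup T} (hH : cq φ Q = H) {c : MonoidAlgebra k A}
    {BH : MonoidAlgebra (OW p k) ↥H} (hB : CenL (dnr H c) BH)
    {P : A → KW p k} (hP : LP H c P) {X : A → KW p k} (hX : X ∈ V (KW p k) A) :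
    (fun v : ↥Q => rP H P X (φ (v : T))) ∈ vir ↥Q (KW p k) := by
  subst hH
  have h1 : ∀ s : Ir (KW p k) ↥(cq φ Q), ∃ z : ℤ, ip (ch s) (on (cq φ Q) P) = z :=
    fun s => ip_int (ch_mem s) hP.blk.1
  choose z hz using h1
  have h2 : (fun v : ↥Q => rP (cq φ Q) P X (φ (v : T)))
      = ∑ s, z s • fun v : ↥Q => xs φ (cq φ Q) BH X s (v : T) := by
    funext v
    rw [rP_xs hB hP hX v.2, Finset.sum_apply]
    refine Finset.sum_congr rfl fun s _ => ?_
    rw [Pi.smul_apply, zsmul_eq_mul, hz, mul_comm]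
  rw [h2]
  exact sum_mem fun s _ => zsmul_mem (xs_vir rfl hB hX s) _

/-- the rows of the source idempotent in terms of the local one -/
theorem th_loc (h : Src p b D f i) {B I : MonoidAlgebra (OW p k) A} (hl : Lf b i D B I) {v : A}
    (hv : v ∈ D) {H : Subgroup A} (hH : C1 v = H) {c : MonoidAlgebra k A} (hc : LbH H i c)
    {BH : MonoidAlgebra (OW p k) ↥H} (hBH : CenL (dnr H c) BH) :
    ∃ IH : MonoidAlgebra (OW p k) ↥H, IH * IH = IH ∧ IH * BH = IH ∧
      ∀ χ : Ir (KW p k) A, chO χ (single v 1 * I) = chO χ (single v 1 * upr H IH) := by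
  subst hH
  obtain ⟨M, hM⟩ := pow_one_of h
  obtain ⟨IH, hIH⟩ := exists_locI h hv
  exact ⟨IH, hIH.idem, hBH.mul_eq hIH (src_loc h hv hc).ib, fun χ =>
    lift_indep (hM v hv) sepO hl.ci.idem (by rw [← map_mul, hIH.idem]) hIH.idem (hl.com v hv)
      (single_upr v IH) (cong_of hl.ci.red hIH.red) (gap_self _ _ _) χ⟩

/-- the multiplicities of the restriction -/
theorem mult_ip (H : Subgroup A) (χ : Ir (KW p k) A) (s : Ir (KW p k) ↥H) :
    ip (on H (ch χ)) (ch s) = (mult H χ s : KW p k) := by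
  classical
  have h1 : on H (ch χ) = fun y => ∑ t, ((mult H χ t : KW p k) • ch t) y := by
    funext y
    change ch χ (y : A) = _
    have h2 : ch χ (y : A) = chO χ (upr H (single y (1 : OW p k))) := by
      rw [upr_single, YHAux.chO_ch]
    rw [h2, chO_upr]
    refine Finset.sum_congr rfl fun t _ => ?_
    rw [YHAux.chO_ch, Pi.smul_apply, smul_eq_mul]
  rw [h1, ip_sum, Finset.sum_eq_single s]
  · rw [ip_smul, ip_ch, if_pos rfl, mul_one]
  · intro t _ hts
    rw [ip_smul, ip_ch, if_neg hts, mul_zero]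
  · intro h2
    exact absurd (Finset.mem_univ _) h2

/-- a class function which vanishes on the `p`-regular elements is orthogonal to idempotents -/
theorem idem_orth {a : Ir (KW p k) A → KW p k} {F : MonoidAlgebra (OW p k) A} (hF : F * F = F)
    (ha : ∀ y : A, Preg p y → ∑ s, a s * ch s y = 0) : ∑ s, a s * chO s F = 0 := by
  classical
  have h1 : ip (fun y => ∑ s, (a s • ch s) y)
      (fun y => ∑ t : Ir (KW p k) A, (chO t F • ch t) y) = ∑ s, a s * chO s F := by
    rw [ip_sum]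
    refine Finset.sum_congr rfl fun s _ => ?_
    rw [ip_smul, ip_comm, ip_sum, Finset.sum_eq_single s]
    · rw [ip_smul, ip_ch, if_pos rfl, mul_one]
    · intro t _ hts
      rw [ip_smul, ip_ch, if_neg hts, mul_zero]
    · intro h2
      exact absurd (Finset.mem_univ _) h2
  rw [← h1, ip]
  have h2 : ∀ x : A, (∑ s, (a s • ch s) x) *
      (∑ t : Ir (KW p k) A, (chO t F • ch t) x⁻¹) = 0 := by
    intro x
    by_cases hx : Preg p x
    · have h3 : ∑ s, (a s • ch s) x = ∑ s, a s * ch s x := rfl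
      rw [h3, ha x hx, zero_mul]
    · have h3 : ∑ t : Ir (KW p k) A, (chO t F • ch t) x⁻¹
          = ∑ t : Ir (KW p k) A, ch t x⁻¹ * chO t F := by
        refine Finset.sum_congr rfl fun t _ => ?_
        rw [Pi.smul_apply, smul_eq_mul, mul_comm]
      rw [h3, YOaAux.idem_sing hF (fun h4 => hx (preg_inv.1 h4)), mul_zero]
  rw [sm_congr h2, sm_zero, mul_zero]

/-- **the local block part of a character in the block does not vanish** -/
theorem nonvan (h : Src p b D f i) (hdv : ¬ p ∣ eN D f) {B : MonoidAlgebra (OW p k) A}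
    (hB : CenL b B) (hran : ∀ x, x ∈ D ↔ ∃ t, φ t = x) {χ : Ir (KW p k) A} (hχ : chO χ B ≠ 0)
    {Q : Subgroup T} {u : T} (huQ : u ∈ Q) (hu : C1 (φ u) = cq φ Q) {c : MonoidAlgebra k A}
    (hc : LbH (cq φ Q) i c) {BH : MonoidAlgebra (OW p k) ↥(cq φ Q)}
    (hBH : CenL (dnr (cq φ Q) c) BH) :
    ∃ y : ↥(cq φ Q), Preg p y ∧ cut (cq φ Q) BH (ch χ) (φ u * y) ≠ 0 := by
  classical
  by_contra hcon
  push Not at hcon
  obtain ⟨I, hl⟩ := exists_lf' h hB
  have hD : φ u ∈ D := (hran _).2 ⟨u, rfl⟩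
  obtain ⟨IH, hI1, hI2, hI3⟩ := th_loc h hl hD hu hc hBH
  have h1 := th_ne h hdv hl hran ⟨χ, hχ⟩ u
  apply h1
  rw [th, hI3, YEAux.ch_cen_mul χ (YJAux.phi_mem φ Q u) (YJAux.phi_cen huQ)]
  have h2 : ∀ t : Ir (KW p k) ↥(cq φ Q), (mult (cq φ Q) χ t : KW p k) *
      (om t (single (⟨φ u, YJAux.phi_mem φ Q u⟩ : ↥(cq φ Q)) 1) * chO t IH)
      = xs φ (cq φ Q) BH (ch χ) t u * chO t IH := by
    intro t
    rw [YJAux.xs_eq hBH (ch_mem χ) huQ, mult_ip]
    split_ifs with ht
    · ring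
    · rw [not_not] at ht
      rw [hBH.chO_out ht hI2, mul_zero, mul_zero, mul_zero]
  rw [Finset.sum_congr rfl fun t _ => h2 t]
  refine idem_orth hI1 fun y hy => ?_
  rw [← YJAux.cut_xs hBH (ch_mem χ) huQ]
  exact hcon y hy

/-- **the columns of a character in the block do not all vanish** -/
theorem exists_rP_ne (h : Src p b D f i) (hdv : ¬ p ∣ eN D f) {B : MonoidAlgebra (OW p k) A}
    (hB : CenL b B) (hran : ∀ x, x ∈ D ↔ ∃ t, φ t = x) {χ : Ir (KW p k) A} (hχ : chO χ B ≠ 0)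
    {Q : Subgroup T} {u : T} (huQ : u ∈ Q) {H : Subgroup A} (hH : cq φ Q = H)
    (hu : C1 (φ u) = H) {c : MonoidAlgebra k A} (hc : LbH H i c)
    {BH : MonoidAlgebra (OW p k) ↥H} (hBH : CenL (dnr H c) BH) {ι : Type*}
    {P : ι → A → KW p k} (hP : ∀ j, LP H c (P j))
    (h4 : ∀ a : Ir (KW p k) ↥H → KW p k, (∀ s, chO s BH = 0 → a s = 0) →
      (∀ j, ip (fun y => ∑ s, a s * ch s y) (on H (P j)) = 0) →
      ∀ y : ↥H, Preg p y → ∑ s, a s * ch s y = 0) :
    ∃ j, rP H (P j) (ch χ) (φ u) ≠ 0 := by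
  classical
  subst hH
  by_contra hcon
  push Not at hcon
  obtain ⟨y, hy, hy'⟩ := nonvan h hdv hB hran hχ huQ hu hc hBH
  apply hy'
  rw [YJAux.cut_xs hBH (ch_mem χ) huQ]
  refine h4 (fun s => xs φ (cq φ Q) BH (ch χ) s u) (fun s hs => ?_) (fun j => ?_) y hy
  · rw [YJAux.xs_eq hBH (ch_mem χ) huQ, if_neg (not_not.2 hs)]
  · have h5 := hcon j
    rw [rP_xs hBH (hP j) (ch_mem χ) huQ] at h5
    rw [← h5]
    change ip (fun y => ∑ s, (xs φ (cq φ Q) BH (ch χ) s u • ch s) y) _ = _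
    rw [ip_sum]
    exact Finset.sum_congr rfl fun s _ => ip_smul _ _ _

end

end Pool.Agent.Lib.P0c8ca5.Ex
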