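import Mathlib
import Pool.Agent.Lib.P0c8ca5Ex.WTa

/-!
# V5S: the first step for `C_{p²} × C_{p²}`

`const_fib`: `L` is an abelian group of order `p⁴` and exponent `p²` with `p²` elements of order dividing `p`,
`M : L → ℤ` is invariant under a family of bijections that commute with the `p`-th power (and move every
element of order `p` to the same element for at most `p - 1` indices) and under `l ↦ l ^ (1 + p)`, and
`|L| ∑ M² - (∑ M)² < |L| |ι|`. Then `M` is constant on the cosets of `{n | n ^ p = 1}` outside this subgroup.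

PROOF. `C_x = {l | l ^ p = x}` has `p²` elements, `V x = p² ∑ M² - (∑ M)²` over `C_x`. For `x ≠ 1` and `M` not
constant on `C_x`: two level sets `≥ a + 1`, `≤ a` contain a coset of `⟨x⟩` each, so `V x ≥ p (p² - p)`. But
`p² ∑ V x ≤ |L| ∑ M² - (∑ M)² < p⁴ |ι|` and `|ι| V x = ∑_a V (a x) ≤ (p - 1) ∑ V`.
-/

set_option linter.unusedSectionVars false

namespace Pool.Agent.Lib.P0c8ca5.Ex.V5

open Finset

section
variable {L : Type*} [CommGroup L] [Fintype L] {p : ℕ}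

open Classical in
/-- the elements with `p`-th power `x` -/
noncomputable def Fb (p : ℕ) (x : L) : Finset L := univ.filter fun l : L => l ^ p = x

theorem mem_Fb {x l : L} : l ∈ Fb p x ↔ l ^ p = x := by
  classical
  simp [Fb]

/-- the variance on `C_x` -/
noncomputable def Vx (p : ℕ) (M : L → ℤ) (x : L) : ℤ :=
  (p : ℤ) ^ 2 * ∑ l ∈ Fb p x, M l ^ 2 - (∑ l ∈ Fb p x, M l) ^ 2

theorem card_Fb_of {l x : L} (hl : l ^ p = x) : (Fb p x).card = (Fb p (1 : L)).card := by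
  classical
  refine card_bij' (fun y _ => l⁻¹ * y) (fun y _ => l * y) ?_ ?_ ?_ ?_
  · intro y hy
    rw [mem_Fb] at hy ⊢
    rw [mul_pow, inv_pow, hl, hy, inv_mul_cancel]
  · intro y hy
    rw [mem_Fb] at hy ⊢
    rw [mul_pow, hl, hy, mul_one]
  · intro y _
    simp
  · intro y _
    simp

theorem card_Fb_le (hk : (Fb p (1 : L)).card = p ^ 2) (x : L) : (Fb p x).card ≤ p ^ 2 := by
  classical
  rcases (Fb p x).eq_empty_or_nonempty with h | ⟨l, hl⟩
  · rw [h, card_empty]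
    exact Nat.zero_le _
  · rw [card_Fb_of (mem_Fb.1 hl), hk]

theorem Vx_nonneg (hk : (Fb p (1 : L)).card = p ^ 2) (M : L → ℤ) (x : L) : 0 ≤ Vx p M x := by
  have h1 : (∑ l ∈ Fb p x, M l) ^ 2 ≤ ((Fb p x).card : ℤ) * ∑ l ∈ Fb p x, M l ^ 2 :=
    sq_sum_le_card_mul_sum_sq
  have h2 : ((Fb p x).card : ℤ) ≤ (p : ℤ) ^ 2 := by exact_mod_cast card_Fb_le hk x
  have h3 : 0 ≤ ∑ l ∈ Fb p x, M l ^ 2 := sum_nonneg fun _ _ => sq_nonneg _
  unfold Vx
  nlinarith

theorem sum_Fb_act {act : L → L} (hact : ∀ l, act (l ^ p) = act l ^ p)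
    (hbij : Function.Bijective act) {g : L → ℤ} (hg : ∀ l, g (act l) = g l) (x : L) :
    ∑ l ∈ Fb p (act x), g l = ∑ l ∈ Fb p x, g l := by
  classical
  symm
  refine sum_bij (fun l _ => act l) ?_ ?_ ?_ ?_
  · intro l hl
    rw [mem_Fb] at hl ⊢
    rw [← hact, hl]
  · exact fun a _ b _ h => hbij.1 h
  · intro y hy
    obtain ⟨l, rfl⟩ := hbij.2 y
    refine ⟨l, ?_, rfl⟩
    rw [mem_Fb] at hy ⊢
    rw [← hact] at hy
    exact hbij.1 hy
  · exact fun l _ => (hg l).symm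

theorem sum_Fb (hexp : ∀ l : L, l ^ p ^ 2 = 1) (g : L → ℤ) :
    ∑ x ∈ Fb p (1 : L), ∑ l ∈ Fb p x, g l = ∑ l, g l := by
  classical
  have h1 : ∀ l ∈ (univ : Finset L), l ^ p ∈ Fb p (1 : L) := by
    intro l _
    rw [mem_Fb, ← pow_mul, ← pow_two, hexp]
  rw [← sum_fiberwise_of_maps_to h1]
  rfl

theorem sum_Vx_le (hk : (Fb p (1 : L)).card = p ^ 2) (hexp : ∀ l : L, l ^ p ^ 2 = 1) (M : L → ℤ) :
    (p : ℤ) ^ 2 * ∑ x ∈ Fb p (1 : L), Vx p M x ≤ (p : ℤ) ^ 4 * ∑ l, M l ^ 2 - (∑ l, M l) ^ 2 := by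
  have h1 : ∑ x ∈ Fb p (1 : L), Vx p M x
      = (p : ℤ) ^ 2 * ∑ l, M l ^ 2 - ∑ x ∈ Fb p (1 : L), (∑ l ∈ Fb p x, M l) ^ 2 := by
    unfold Vx
    rw [sum_sub_distrib, ← mul_sum, sum_Fb hexp fun l => M l ^ 2]
  have h2 : (∑ x ∈ Fb p (1 : L), ∑ l ∈ Fb p x, M l) ^ 2
      ≤ ((Fb p (1 : L)).card : ℤ) * ∑ x ∈ Fb p (1 : L), (∑ l ∈ Fb p x, M l) ^ 2 :=
    sq_sum_le_card_mul_sum_sq
  rw [sum_Fb hexp M, hk] at h2
  push_cast at h2
  rw [h1]
  nlinarith

theorem Vx_ge (hp : p.Prime) (hexp : ∀ l : L, l ^ p ^ 2 = 1) (hk : (Fb p (1 : L)).card = p ^ 2)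
    {M : L → ℤ} (hMt : ∀ l, M (l ^ (1 + p)) = M l) {l m : L} (hx : l ^ p ≠ 1)
    (hm : m ^ p = l ^ p) (hlt : M l < M m) : (p : ℤ) * ((p : ℤ) ^ 2 - p) ≤ Vx p M (l ^ p) := by
  classical
  have : Fact p.Prime := ⟨hp⟩
  set x := l ^ p with hxd
  have hxp : x ^ p = 1 := by rw [hxd, ← pow_mul, ← pow_two, hexp]
  have hord : orderOf x = p := orderOf_eq_prime hxp hx
  -- the classes
  have hcl : ∀ y, y ^ p = x → ∀ j : ℕ, M (y * x ^ j) = M y ∧ (y * x ^ j) ^ p = x := by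
    intro y hy j
    have h0 : ∀ j : ℕ, (y * x ^ j) ^ p = x := by
      intro j
      rw [mul_pow, ← pow_mul, mul_comm j p, pow_mul, hxp, one_pow, mul_one, hy]
    refine ⟨?_, h0 j⟩
    induction j with
    | zero => rw [pow_zero, mul_one]
    | succ j ih =>
      have h2 : y * x ^ (j + 1) = (y * x ^ j) ^ (1 + p) := by
        rw [pow_add (y * x ^ j) 1 p, pow_one, h0 j, pow_succ, mul_assoc]
      rw [h2, hMt]
      exact ih
  have hinj : ∀ y : L, Function.Injective fun j : Fin p => y * x ^ (j : ℕ) := by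
    intro y i j hij
    have h1 : x ^ (i : ℕ) = x ^ (j : ℕ) := mul_left_cancel hij
    exact Fin.ext (pow_injOn_Iio_orderOf (by rw [Set.mem_Iio, hord]; exact i.2)
      (by rw [Set.mem_Iio, hord]; exact j.2) h1)
  -- the variance
  let Λ := {y : L // y ∈ Fb p x}
  let f : Λ → ℤ := fun y => M y.1 - M l
  have hcard : (Fintype.card Λ : ℤ) = (p : ℤ) ^ 2 := by
    have h1 : Fintype.card Λ = (Fb p x).card := Fintype.card_coe _
    rw [h1, card_Fb_of (l := l) rfl, hk]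
    push_cast
    rfl
  have hk1 : (p : ℤ) ≤ ((univ.filter fun a : Λ => 1 ≤ f a).card : ℤ) := by
    have h1 : Fintype.card (Fin p) ≤ (univ.filter fun a : Λ => 1 ≤ f a).card := by
      refine card_le_card_of_injOn
        (fun j : Fin p => (⟨m * x ^ (j : ℕ), mem_Fb.2 (hcl m hm j).2⟩ : Λ)) ?_ ?_
      · intro j _
        rw [coe_filter, Set.mem_ofPred_eq]
        refine ⟨mem_univ _, ?_⟩
        change 1 ≤ M (m * x ^ (j : ℕ)) - M l
        rw [(hcl m hm j).1]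
        omega
      · intro i _ j _ hij
        exact hinj m (Subtype.ext_iff.1 hij)
    rw [Fintype.card_fin] at h1
    exact_mod_cast h1
  have hk0 : (p : ℤ) ≤ ((univ.filter fun a : Λ => ¬ 1 ≤ f a).card : ℤ) := by
    have h1 : Fintype.card (Fin p) ≤ (univ.filter fun a : Λ => ¬ 1 ≤ f a).card := by
      refine card_le_card_of_injOn
        (fun j : Fin p => (⟨l * x ^ (j : ℕ), mem_Fb.2 (hcl l rfl j).2⟩ : Λ)) ?_ ?_
      · intro j _
        rw [coe_filter, Set.mem_ofPred_eq]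
        refine ⟨mem_univ _, ?_⟩
        change ¬ 1 ≤ M (l * x ^ (j : ℕ)) - M l
        rw [(hcl l rfl j).1]
        omega
      · intro i _ j _ hij
        exact hinj l (Subtype.ext_iff.1 hij)
    rw [Fintype.card_fin] at h1
    exact_mod_cast h1
  have h1 := var_ge f hcard hk1 hk0
  have h2 := pair_sum_sq f
  have h3 := pair_sum_sq fun y : Λ => M y.1
  have h4 : ∑ a, ∑ b, (f a - f b) ^ 2 = ∑ a : Λ, ∑ b : Λ, (M a.1 - M b.1) ^ 2 :=
    sum_congr rfl fun a _ => sum_congr rfl fun b _ => by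
      simp only [f]
      ring
  rw [hcard] at h2 h3
  have h5 : ∑ y : Λ, M y.1 ^ 2 = ∑ y ∈ Fb p x, M y ^ 2 := sum_coe_sort (Fb p x) fun y => M y ^ 2
  have h6 : ∑ y : Λ, M y.1 = ∑ y ∈ Fb p x, M y := sum_coe_sort (Fb p x) fun y => M y
  rw [h5, h6] at h3
  unfold Vx
  linarith

/-- **step 1** -/
theorem const_fib (hp : p.Prime) (hcard : Fintype.card L = p ^ 4) (hexp : ∀ l : L, l ^ p ^ 2 = 1)
    (hk : (Fb p (1 : L)).card = p ^ 2) {ι : Type*} [Fintype ι] [DecidableEq L]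
    (act : ι → L → L) (hact : ∀ a l, act a (l ^ p) = act a l ^ p)
    (hbij : ∀ a, Function.Bijective (act a)) (M : L → ℤ) (hM : ∀ a l, M (act a l) = M l)
    (hMt : ∀ l, M (l ^ (1 + p)) = M l)
    (hst : ∀ x : L, x ^ p = 1 → x ≠ 1 → ∀ y, (univ.filter fun a => act a x = y).card + 1 ≤ p)
    (hstr : (Fintype.card L : ℤ) * ∑ l, M l ^ 2 - (∑ l, M l) ^ 2
      < Fintype.card L * Fintype.card ι)
    {l n : L} (hl : l ^ p ≠ 1) (hn : n ^ p = 1) : M (l * n) = M l := by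
  classical
  -- the upper bound
  have hup : ∀ x : L, x ^ p = 1 → x ≠ 1 → Vx p M x < (p : ℤ) * ((p : ℤ) ^ 2 - p) := by
    intro x hxp hx1
    by_contra hcon
    rw [not_lt] at hcon
    have h1 : ∀ a, Vx p M (act a x) = Vx p M x := by
      intro a
      unfold Vx
      rw [sum_Fb_act (hact a) (hbij a) (g := fun l => M l ^ 2) (fun l => by simp only [hM]) x,
        sum_Fb_act (hact a) (hbij a) (g := M) (hM a) x]
    have h1' : ∀ a, act a (1 : L) = 1 := by
      intro a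
      have h2 := hact a 1
      have h3 : ∀ j : ℕ, act a (1 : L) ^ p ^ j = act a 1 := by
        intro j
        induction j with
        | zero => rw [pow_zero, pow_one]
        | succ j ih => rw [pow_succ, pow_mul, ih, ← h2, one_pow]
      rw [← h3 2, hexp]
    have h2 : ∀ a ∈ (univ : Finset ι), act a x ∈ Fb p (1 : L) := by
      intro a _
      rw [mem_Fb, ← hact, hxp, h1']
    have h3 : (Fintype.card ι : ℤ) * Vx p M x
        = ∑ y ∈ Fb p (1 : L), ((univ.filter fun a => act a x = y).card : ℤ) * Vx p M y := by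
      have h4 : ∑ a : ι, Vx p M (act a x) = (Fintype.card ι : ℤ) * Vx p M x := by
        rw [sum_congr rfl fun a _ => h1 a, sum_const, card_univ, nsmul_eq_mul]
      rw [← h4, ← sum_fiberwise_of_maps_to h2]
      refine sum_congr rfl fun y _ => ?_
      rw [sum_congr rfl fun a ha => by rw [(mem_filter.1 ha).2], sum_const, nsmul_eq_mul]
    have h4 : (Fintype.card ι : ℤ) * Vx p M x
        ≤ ((p : ℤ) - 1) * ∑ y ∈ Fb p (1 : L), Vx p M y := by
      rw [h3, mul_sum]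
      refine sum_le_sum fun y _ => mul_le_mul_of_nonneg_right ?_ (Vx_nonneg hk M y)
      have h5 := hst x hxp hx1 y
      have h6 : (((univ.filter fun a => act a x = y).card + 1 : ℕ) : ℤ) ≤ (p : ℤ) := by
        exact_mod_cast h5
      push_cast at h6
      linarith
    have h5 := sum_Vx_le hk hexp M
    rw [hcard] at hstr
    push_cast at hstr
    have hp1 : (1 : ℤ) < p := by exact_mod_cast hp.one_lt
    have h6 : (p : ℤ) ^ 2 * ∑ y ∈ Fb p (1 : L), Vx p M y < (p : ℤ) ^ 4 * Fintype.card ι :=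
      lt_of_le_of_lt h5 hstr
    have h7 : ∑ y ∈ Fb p (1 : L), Vx p M y < (p : ℤ) ^ 2 * Fintype.card ι := by
      have h8 : (0 : ℤ) < (p : ℤ) ^ 2 := by positivity
      have h9 : (p : ℤ) ^ 2 * ∑ y ∈ Fb p (1 : L), Vx p M y
          < (p : ℤ) ^ 2 * ((p : ℤ) ^ 2 * Fintype.card ι) := by
        calc (p : ℤ) ^ 2 * ∑ y ∈ Fb p (1 : L), Vx p M y < (p : ℤ) ^ 4 * Fintype.card ι := h6
          _ = _ := by ring
      exact lt_of_mul_lt_mul_left h9 h8.le
    have h8 : (Fintype.card ι : ℤ) * ((p : ℤ) * ((p : ℤ) ^ 2 - p)) ≤ Fintype.card ι * Vx p M x :=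
      mul_le_mul_of_nonneg_left hcon (by positivity)
    have h9 : ((p : ℤ) - 1) * ∑ y ∈ Fb p (1 : L), Vx p M y
        < ((p : ℤ) - 1) * ((p : ℤ) ^ 2 * Fintype.card ι) :=
      mul_lt_mul_of_pos_left h7 (by linarith)
    have h10 : (Fintype.card ι : ℤ) * ((p : ℤ) * ((p : ℤ) ^ 2 - p))
        = ((p : ℤ) - 1) * ((p : ℤ) ^ 2 * Fintype.card ι) := by ring
    linarith
  have hx : (l ^ p) ^ p = 1 := by rw [← pow_mul, ← pow_two, hexp]
  have hm : (l * n) ^ p = l ^ p := by rw [mul_pow, hn, mul_one]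
  rcases lt_trichotomy (M (l * n)) (M l) with h1 | h1 | h1
  · have h2 := Vx_ge hp hexp hk hMt (l := l * n) (m := l) (by rw [hm]; exact hl) hm.symm h1
    rw [hm] at h2
    exact absurd h2 (not_le.2 (hup _ hx hl))
  · exact h1
  · exact absurd (Vx_ge hp hexp hk hMt hl hm h1) (not_le.2 (hup _ hx hl))

end

end Pool.Agent.Lib.P0c8ca5.Ex.V5
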