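import Mathlib
import Pool.Agent.Lib.P0c8ca5Ex.V5S
import Pool.Agent.Lib.P0c8ca5Ex.V5E
import Pool.Agent.Lib.P0c8ca5Ex.V1d
import Pool.Agent.Lib.P0c8ca5Ex.W1b
import Pool.Agent.Lib.P0c8ca5Ex.WTc
import Pool.Agent.Lib.P0c8ca5Ex.ZF

/-!
# V5R: the rows of `C_{p²} × C_{p²}` outside `1`

`strict`: the strict bound for the rows; `rows_const`: a row which is fixed by `u ↦ u ^ (1 + p)` is constant on the
cosets of the elements of order `p` outside them; `sum_av`: the sum over all rows of the products of the sums over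
a coset.
-/

set_option linter.unusedSectionVars false

namespace Pool.Agent.Lib.P0c8ca5.Ex.V5

open Finset YLx YZx ZFx

section
variable {T : Type*} [CommGroup T] [Fintype T] {K : Type*} [Field K] [CharZero K]
  [HasEnoughRootsOfUnity K (Monoid.exponent T)]

theorem mlt_dl {g : T → K} {α : MulAut T} (h : ∀ u, g (α u) = g u) (l : T →* Kˣ) :
    mlt g (dl l α) = mlt g l := by
  unfold mlt
  congr 1
  rw [← Equiv.sum_comp (α : T ≃* T).toEquiv (fun u => g u * chr l u⁻¹)]
  refine sum_congr rfl fun u _ => ?_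
  change g u * chr (dl l α) u⁻¹ = g (α u) * chr l (α u)⁻¹
  rw [h, ← map_inv]
  rfl

/-- the rows are short -/
theorem strict {p : ℕ} (hp : p.Prime) (hT : IsPGroup p T) {E : Subgroup (MulAut T)}
    (hE : ¬ p ∣ Nat.card E) {I : Type*} [Fintype I] {Θ : I → T → K} (hv : ∀ i, Θ i ∈ vir T K)
    (hG : ∀ u v, u ≠ 1 → v ≠ 1 → GramR E ⊥ Θ u v) {w : I → K} (hw : ∀ i, w i ≠ 0)
    (hwΘ : ∀ u, u ≠ 1 → ∑ i, w i * Θ i u = 0) {M : I → (T →* Kˣ) → ℤ}
    (hM : ∀ i l, mlt (Θ i) l = (M i l : K)) (i : I) :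
    (Fintype.card T : ℤ) * ∑ l, M i l ^ 2 - (∑ l, M i l) ^ 2 < Fintype.card T * Nat.card E := by
  classical
  have hER : ∀ α ∈ E, ∀ z ∈ (⊥ : Subgroup T), α z = z := fun α _ z hz => by
    rw [Subgroup.mem_bot.1 hz, map_one]
  have hF : Fact (∀ α ∈ E, ∀ z ∈ (⊥ : Subgroup T), α z = z) := ⟨hER⟩
  have : Fintype E := Fintype.ofFinite _
  have hcE : Nat.card E = Fintype.card E := Nat.card_eq_fintype_card
  have hgram : ∀ u v, u ∉ (⊥ : Subgroup T) → v ∉ (⊥ : Subgroup T) →
      (Nat.card (⊥ : Subgroup T) : K) * ∑ i, Θ i u * Θ i v⁻¹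
      = (Fintype.card T : K) * (gR E ⊥ u v : K) :=
    fun u v hu hv => (ZBx.gram_iff hp hT hE hER Θ u v).1
      (hG u v (fun h => hu (Subgroup.mem_bot.2 h)) fun h => hv (Subgroup.mem_bot.2 h))
  have hGM : ∀ a b c d : LR K (⊥ : Subgroup T), ∑ i, (M i a.1 - M i b.1) * (M i c.1 - M i d.1)
      = nn E a c - nn E a d - nn E b c + nn E b d := by
    intro a b c d
    have h1 := gram_diff hgram a b c d
    simp only [hM] at h1
    exact_mod_cast h1
  have hall : ∀ l : T →* Kˣ, eqP (⊥ : Subgroup T) l 1 := fun l z hz => by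
    rw [Subgroup.mem_bot.1 hz, map_one, map_one]
  have : Nonempty (LR K (⊥ : Subgroup T)) := ⟨⟨1, hall 1⟩⟩
  have hstr := W1x.row_strict (E := E) (fun (a : LR K (⊥ : Subgroup T)) i => M i a.1) hGM hw
    (fun x y => by
      have h1 := rel_diff (R := (⊥ : Subgroup T)) (Θ := Θ) (w := w)
        (fun u hu => hwΘ u fun h => hu (Subgroup.mem_bot.2 h)) x y
      rw [← h1]
      refine sum_congr rfl fun i _ => ?_
      rw [hM, hM]
      push_cast
      ring) i
  have hcL : Fintype.card (LR K (⊥ : Subgroup T)) = Fintype.card T := by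
    have h1 := card_LR (K := K) (⊥ : Subgroup T)
    rwa [Subgroup.card_bot, one_mul] at h1
  have hs : ∀ F : (T →* Kˣ) → ℤ, ∑ a : LR K (⊥ : Subgroup T), F a.1 = ∑ l, F l := by
    intro F
    rw [sum_LR (⊥ : Subgroup T) F, filter_true_of_mem fun l _ => hall l]
  rw [hs (fun l => M i l ^ 2), hs (fun l => M i l), hcL, ← hcE] at hstr
  exact hstr

theorem chr_eq_one {p : ℕ} {n : T →* Kˣ} (hn : n ^ p = 1) {v : T}
    (hv : ∃ y : T, v = y ^ p) : chr n v = 1 := by
  obtain ⟨y, rfl⟩ := hv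
  unfold chr
  have h1 : n (y ^ p) = 1 := by
    rw [map_pow, ← MonoidHom.pow_apply, hn, MonoidHom.one_apply]
  rw [h1, Units.val_one]

theorem sum_dual {p : ℕ} (hexp : ∀ u : T, u ^ p ^ 2 = 1) {u : T} (hu : u ^ p ≠ 1) :
    ∑ n ∈ Fb p (1 : T →* Kˣ), chr n u = 0 := by
  classical
  let P : Subgroup T := (powMonoidHom p : T →* T).range
  have hP : u ∉ P := by
    rintro ⟨y, hy⟩
    apply hu
    rw [← hy]
    change (y ^ p) ^ p = 1
    rw [← pow_mul, ← pow_two, hexp]
  have h1 := sum_eqP (K := K) P 1 u hP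
  rw [← h1]
  refine sum_congr ?_ fun _ _ => rfl
  ext n
  rw [mem_Fb, mem_filter]
  constructor
  · intro hn
    refine ⟨mem_univ _, ?_⟩
    rintro v ⟨y, rfl⟩
    change n (y ^ p) = 1
    rw [map_pow, ← MonoidHom.pow_apply, hn, MonoidHom.one_apply]
  · rintro ⟨-, hn⟩
    ext y
    have h2 : n (y ^ p) = 1 := hn (y ^ p) ⟨y, rfl⟩
    rw [MonoidHom.pow_apply, ← map_pow, h2]
    rfl

theorem card_dualp {p : ℕ} (hp : p.Prime) : (Fb p (1 : T →* Kˣ)).card = (Om T p).card := by
  classical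
  have : Fact p.Prime := ⟨hp⟩
  have h1 := V1dx.card_dual (K := K) (1 : MulAut T) (1 + p)
  have h2 : (univ.filter fun l : T →* Kˣ => dl l (1 : MulAut T) = pw l (1 + p)) = Fb p 1 := by
    ext l
    rw [mem_filter, mem_Fb]
    constructor
    · rintro ⟨-, h⟩
      ext u
      have h3 := DFunLike.congr_fun h u
      change l u = l (u ^ (1 + p)) at h3
      rw [map_pow, pow_add, pow_one] at h3
      have h4 : (l u) ^ p = 1 := by
        have h5 : l u * 1 = l u * (l u) ^ p := by rw [mul_one, ← h3]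
        exact (mul_left_cancel h5).symm
      rw [MonoidHom.pow_apply, h4]
      rfl
    · intro h
      refine ⟨mem_univ _, ?_⟩
      ext u
      change ((l u : Kˣ) : K) = ((l (u ^ (1 + p)) : Kˣ) : K)
      have h3 : (l u) ^ p = 1 := by rw [← MonoidHom.pow_apply, h, MonoidHom.one_apply]
      rw [map_pow, pow_add, pow_one, h3, mul_one]
  have h3 : (univ.filter fun u : T => (1 : MulAut T) u = u ^ (1 + p)) = Om T p := by
    ext u
    rw [mem_filter, mem_Om]
    constructor
    · rintro ⟨-, h⟩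
      have h4 : u * 1 = u * u ^ p := by
        rw [mul_one]
        conv_lhs => rw [show u = (1 : MulAut T) u from rfl, h]
        rw [pow_add, pow_one]
      exact (mul_left_cancel h4).symm
    · intro h
      refine ⟨mem_univ _, ?_⟩
      change u = u ^ (1 + p)
      rw [pow_add, pow_one, h, mul_one]
  rw [h2, h3] at h1
  exact h1

/-- **the fixed rows are constant on the cosets** -/
theorem rows_const {p : ℕ} (hp : p.Prime) (hT4 : Fintype.card T = p ^ 4)
    (hexp : ∀ u : T, u ^ p ^ 2 = 1) (hk : (Om T p).card = p ^ 2)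
    (hpow : ∀ w : T, w ^ p = 1 → ∃ y, w = y ^ p) {E : Subgroup (MulAut T)}
    (hE : ¬ p ∣ Nat.card E) (hst : ∀ l : T →* Kˣ, pw l p = 1 → l ≠ 1 → stl E l + 1 ≤ p)
    {I : Type*} [Fintype I] {Θ : I → T → K} (hv : ∀ i, Θ i ∈ vir T K)
    (hG : ∀ u v, u ≠ 1 → v ≠ 1 → GramR E ⊥ Θ u v) {w : I → K} (hw : ∀ i, w i ≠ 0)
    (hwΘ : ∀ u, u ≠ 1 → ∑ i, w i * Θ i u = 0) {i : I} (hi : ∀ u, Θ i (u ^ (1 + p)) = Θ i u)
    (hiE : ∀ α ∈ E, ∀ u, Θ i (α u) = Θ i u) {u : T} (hu : u ^ p ≠ 1) {v : T} (hv1 : v ^ p = 1) :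
    Θ i (u * v) = Θ i u := by
  classical
  have : Fact p.Prime := ⟨hp⟩
  have hT : IsPGroup p T := IsPGroup.iff_card.2 ⟨4, by rw [Nat.card_eq_fintype_card, hT4]⟩
  have : Fintype E := Fintype.ofFinite _
  obtain ⟨M, hM⟩ := int_mlt hv
  have hpwp : ∀ l : T →* Kˣ, ∀ n, pw l n = l ^ n := fun l n => by
    ext x
    rw [pw_apply, map_pow, MonoidHom.pow_apply]
  have hconst : ∀ l n : T →* Kˣ, l ^ p ≠ 1 → n ^ p = 1 → M i (l * n) = M i l := by
    intro l n hl hn
    refine const_fib hp (L := T →* Kˣ) ?_ ?_ ?_ (ι := E) (fun α l => dl l (α : MulAut T)) ?_ ?_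
      (M i) ?_ ?_ ?_ ?_ hl hn
    · rw [card_chr, hT4]
    · intro l
      ext x
      rw [MonoidHom.pow_apply, ← map_pow, hexp, map_one]
      rfl
    · rw [card_dualp hp, hk]
    · intro α l
      ext x
      rfl
    · intro α
      refine ⟨fun l m h => dl_inj _ h, fun l => ⟨dl l ((α⁻¹ : E) : MulAut T), ?_⟩⟩
      change dl (dl l ((α⁻¹ : E) : MulAut T)) (α : MulAut T) = l
      rw [← dl_mul, ← Subgroup.coe_mul, inv_mul_cancel, OneMemClass.coe_one, dl_one]
    · intro α l
      have h1 : (M i (dl l (α : MulAut T)) : K) = (M i l : K) := by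
        rw [← hM, ← hM, mlt_dl (hiE α α.2)]
      exact_mod_cast h1
    · intro l
      have h1 : (M i (l ^ (1 + p)) : K) = (M i l : K) := by
        rw [← hM, ← hM, ← hpwp]
        refine mlt_pow ?_ hi l
        rw [Nat.card_eq_fintype_card, hT4]
        refine Nat.Coprime.pow_left 4 ?_
        rw [Nat.coprime_comm]
        simp
      exact_mod_cast h1
    · intro x hx hx1 y
      have h0 := hst x (by rw [hpwp, hx]) hx1
      have h1 : (univ.filter fun α : E => dl x (α : MulAut T) = y).card ≤ stl E x := by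
        unfold stl
        rw [Nat.card_eq_fintype_card, Fintype.card_subtype]
        rcases (univ.filter fun α : E => dl x (α : MulAut T) = y).eq_empty_or_nonempty with
          h2 | ⟨α₀, hα₀⟩
        · rw [h2, card_empty]
          exact Nat.zero_le _
        · have h3 := (mem_filter.1 hα₀).2
          refine card_le_card_of_injOn (fun α => α * α₀⁻¹) ?_ ?_
          · intro α hα
            rw [mem_coe, mem_filter] at hα
            rw [mem_coe, mem_filter]
            refine ⟨mem_univ _, ?_⟩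
            rw [Subgroup.coe_mul, dl_mul, hα.2, ← h3, ← dl_mul, ← Subgroup.coe_mul,
              mul_inv_cancel, OneMemClass.coe_one, dl_one]
          · intro α _ β _ h
            exact mul_right_cancel h
      omega
    · have h1 := strict hp hT hE hv hG hw hwΘ hM i
      rw [card_chr, ← Nat.card_eq_fintype_card (α := E)]
      exact h1
  -- the values
  let F : (T →* Kˣ) → K := fun l => (M i l : K) * (chr l (u * v) - chr l u)
  have hF : Θ i (u * v) - Θ i u = ∑ l, F l := by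
    rw [eq_sum_mlt (Θ i) (u * v), eq_sum_mlt (Θ i) u, ← sum_sub_distrib]
    refine sum_congr rfl fun l _ => ?_
    simp only [F]
    rw [hM]
    ring
  have hΛ : ((Fb p (1 : T →* Kˣ)).card : K) ≠ 0 := by
    rw [card_dualp hp, hk]
    exact_mod_cast pow_ne_zero 2 hp.ne_zero
  have huv : (u * v) ^ p ≠ 1 := by rwa [mul_pow, hv1, mul_one]
  have h1 : ((Fb p (1 : T →* Kˣ)).card : K) * ∑ l, F l = 0 := by
    have h2 : ∀ n : T →* Kˣ, ∑ l, F (l * n) = ∑ l, F l := fun n =>
      Fintype.sum_equiv (Equiv.mulRight n) _ _ fun l => rfl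
    have h3 : ((Fb p (1 : T →* Kˣ)).card : K) * ∑ l, F l
        = ∑ n ∈ Fb p (1 : T →* Kˣ), ∑ l, F (l * n) := by
      rw [sum_congr rfl fun n _ => h2 n, sum_const, nsmul_eq_mul]
    rw [h3, sum_comm]
    refine sum_eq_zero fun l _ => ?_
    by_cases hl : l ^ p = 1
    · refine sum_eq_zero fun n hn => ?_
      have hn' := mem_Fb.1 hn
      have h4 : (l * n) ^ p = 1 := by
        ext x
        have h5 : (l x) ^ p = 1 := by rw [← MonoidHom.pow_apply, hl, MonoidHom.one_apply]
        have h6 : (n x) ^ p = 1 := by rw [← MonoidHom.pow_apply, hn', MonoidHom.one_apply]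
        rw [MonoidHom.pow_apply, MonoidHom.mul_apply, mul_pow, h5, h6, mul_one]
        rfl
      simp only [F]
      rw [chr_map_mul, chr_eq_one h4 (hpow v hv1), mul_one, sub_self, mul_zero]
    · have h4 : ∀ n ∈ Fb p (1 : T →* Kˣ), F (l * n)
          = (M i l : K) * chr l (u * v) * chr n (u * v) - (M i l : K) * chr l u * chr n u := by
        intro n hn
        simp only [F]
        rw [hconst l n hl (mem_Fb.1 hn), chr_mul, Pi.mul_apply, Pi.mul_apply]
        ring
      rw [sum_congr rfl h4, sum_sub_distrib, ← mul_sum, ← mul_sum, sum_dual hexp hu,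
        sum_dual hexp huv, mul_zero, mul_zero, sub_zero]
  have h2 := (mul_eq_zero.1 h1).resolve_left hΛ
  rw [h2] at hF
  exact sub_eq_zero.1 hF

/-- **the sums over a coset** -/
theorem sum_av {p : ℕ} (hp : p.Prime) (hT : IsPGroup p T) {E : Subgroup (MulAut T)}
    (hE : ¬ p ∣ Nat.card E) {I : Type*} [Fintype I] {Θ : I → T → K}
    (hG : ∀ u v, u ≠ 1 → v ≠ 1 → GramR E ⊥ Θ u v) {u : T} (hu : u ^ p ≠ 1) :
    ∑ i, (∑ w ∈ Om T p, Θ i (u * w)) * ∑ w ∈ Om T p, Θ i (u * w)⁻¹
      = (Fintype.card T : K) * ((Om T p).card *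
        (Nat.card {α : E // ((α : MulAut T) u * u⁻¹) ^ p = 1} : K)) := by
  classical
  have : Fact p.Prime := ⟨hp⟩
  have hER : ∀ α ∈ E, ∀ z ∈ (⊥ : Subgroup T), α z = z := fun α _ z hz => by
    rw [Subgroup.mem_bot.1 hz, map_one]
  have : Fintype E := Fintype.ofFinite _
  have hne : ∀ w ∈ Om T p, u * w ≠ 1 := by
    intro w hw h
    apply hu
    have h1 : (u * w) ^ p = 1 := by rw [h, one_pow]
    rwa [mul_pow, mem_Om.1 hw, mul_one] at h1
  have hgram : ∀ w ∈ Om T p, ∀ w' ∈ Om T p, ∑ i, Θ i (u * w) * Θ i (u * w')⁻¹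
      = (Fintype.card T : K) * (gR E ⊥ (u * w) (u * w') : K) := by
    intro w hw w' hw'
    have h1 := (ZBx.gram_iff hp hT hE hER Θ (u * w) (u * w')).1 (hG _ _ (hne w hw) (hne w' hw'))
    rwa [Subgroup.card_bot, Nat.cast_one, one_mul] at h1
  have h1 : ∑ i, (∑ w ∈ Om T p, Θ i (u * w)) * ∑ w ∈ Om T p, Θ i (u * w)⁻¹
      = ∑ w ∈ Om T p, ∑ w' ∈ Om T p, ∑ i, Θ i (u * w) * Θ i (u * w')⁻¹ := by
    rw [sum_congr rfl fun i _ => sum_mul_sum _ _ _ _, sum_comm]
    exact sum_congr rfl fun w _ => sum_comm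
  rw [h1, sum_congr rfl fun w hw => sum_congr rfl fun w' hw' => hgram w hw w' hw']
  have h2 : ∀ w w' : T, (gR E ⊥ (u * w) (u * w') : K)
      = ∑ α : E, if (α : MulAut T) (u * w) = u * w' then 1 else 0 := by
    intro w w'
    unfold gR
    rw [sum_boole]
    congr 1
    congr 1
    ext α
    rw [mem_filter, mem_filter, Subgroup.mem_bot, mul_inv_eq_one]
  have h3 : ∀ α : E, ∑ w ∈ Om T p, ∑ w' ∈ Om T p,
      (if (α : MulAut T) (u * w) = u * w' then (1 : K) else 0)
        = if ((α : MulAut T) u * u⁻¹) ^ p = 1 then ((Om T p).card : K) else 0 := by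
    intro α
    have h4 : ∀ w ∈ Om T p, ∑ w' ∈ Om T p, (if (α : MulAut T) (u * w) = u * w' then (1 : K) else 0)
        = if ((α : MulAut T) u * u⁻¹) ^ p = 1 then (1 : K) else 0 := by
      intro w hw
      have h5 : ∀ w', ((α : MulAut T) (u * w) = u * w') ↔ u⁻¹ * (α : MulAut T) (u * w) = w' := by
        intro w'
        rw [inv_mul_eq_iff_eq_mul]
      simp only [h5]
      rw [sum_ite_eq]
      congr 1
      rw [mem_Om, map_mul]
      have h6 : ((α : MulAut T) w) ^ p = 1 := by rw [← map_pow, mem_Om.1 hw, map_one]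
      have h7 : (u⁻¹ * ((α : MulAut T) u * (α : MulAut T) w)) ^ p
          = ((α : MulAut T) u * u⁻¹) ^ p := by
        rw [← mul_assoc, mul_comm u⁻¹, mul_pow _ ((α : MulAut T) w), h6, mul_one]
      rw [h7]
    rw [sum_congr rfl h4, sum_const, nsmul_eq_mul]
    split_ifs <;> ring
  have h4 : ∑ w ∈ Om T p, ∑ w' ∈ Om T p, (Fintype.card T : K) * (gR E ⊥ (u * w) (u * w') : K)
      = (Fintype.card T : K) * ∑ α : E, ∑ w ∈ Om T p, ∑ w' ∈ Om T p,
      (if (α : MulAut T) (u * w) = u * w' then (1 : K) else 0) := by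
    simp only [h2]
    calc ∑ w ∈ Om T p, ∑ w' ∈ Om T p, (Fintype.card T : K) *
          ∑ α : E, (if (α : MulAut T) (u * w) = u * w' then (1 : K) else 0)
        = ∑ w ∈ Om T p, ∑ w' ∈ Om T p, ∑ α : E, (Fintype.card T : K) *
          (if (α : MulAut T) (u * w) = u * w' then (1 : K) else 0) :=
          sum_congr rfl fun w _ => sum_congr rfl fun w' _ => mul_sum _ _ _
      _ = ∑ w ∈ Om T p, ∑ α : E, ∑ w' ∈ Om T p, (Fintype.card T : K) *
          (if (α : MulAut T) (u * w) = u * w' then (1 : K) else 0) :=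
          sum_congr rfl fun w _ => sum_comm
      _ = ∑ α : E, ∑ w ∈ Om T p, ∑ w' ∈ Om T p, (Fintype.card T : K) *
          (if (α : MulAut T) (u * w) = u * w' then (1 : K) else 0) := sum_comm
      _ = _ := by
        rw [mul_sum]
        refine sum_congr rfl fun α _ => ?_
        rw [mul_sum]
        exact sum_congr rfl fun w _ => (mul_sum _ _ _).symm
  rw [h4, sum_congr rfl fun α _ => h3 α, ← sum_filter, sum_const, nsmul_eq_mul,
    Nat.card_eq_fintype_card, Fintype.card_subtype]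
  ring

end

end Pool.Agent.Lib.P0c8ca5.Ex.V5
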