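import Mathlib
import Pool.Agent.Lib.P0c8ca5Ex.ZQ

/-!
# V5U: automorphism groups of `C_(p²) × C_(p²)`

`T` is an abelian group of order `p ^ 4` and exponent `p ^ 2` with at most `p ^ 2` elements `x` with `x ^ p = 1`, `E` a
p'-group of automorphisms which acts faithfully on the `p`-th powers.

* `omega_pow`: the elements of order `p` are `p`-th powers.
* `bigY_p2`: `BigY K p (p ^ 2) E Q` for `Q ≠ 1`, `Q ≠ T`.
* `exists_z`: an element `z` of order `p ^ 2` with the same stabilizer as `z ^ p`, such that an element of `E` which fixes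
  `z` and an element outside of `⟨z⟩` is `1`.
* `stl_lt`: the stabilizers of the characters are of order less than `p`.
-/

set_option linter.unusedSectionVars false

namespace Pool.Agent.Lib.P0c8ca5.Ex

universe u v

open MonoidAlgebra Kq Kk ZQx ZMAux YZx ZFx ZFc

namespace V5Ux

section
variable {p : ℕ} {T : Type*} [CommGroup T] [Fintype T] {K : Type*} [Field K] [CharZero K]
  [HasEnoughRootsOfUnity K (Monoid.exponent T)] {E : Subgroup (MulAut T)}

theorem isP (hexp : ∀ u : T, u ^ p ^ 2 = 1) : IsPGroup p T := fun u => ⟨2, hexp u⟩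

/-- the elements of order `p` are `p`-th powers -/
theorem omega_pow (hT4 : Fintype.card T = p ^ 4) (hp : p.Prime) (hexp : ∀ u : T, u ^ p ^ 2 = 1)
    (hrk : Nat.card {x : T // x ^ p = 1} ≤ p ^ 2) : ∀ w : T, w ^ p = 1 → ∃ y : T, w = y ^ p := by
  intro w hw
  have h1 := Ku.card_ker_mul_range (powMonoidHom p : T →* T)
  rw [Nat.card_eq_fintype_card (α := T), hT4] at h1
  have h2 : Nat.card (powMonoidHom p : T →* T).ker ≤ p ^ 2 := by
    refine le_trans (Nat.card_le_card_of_injective (fun x => (⟨x.1, x.2⟩ : {x : T // x ^ p = 1}))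
      fun x y hxy => Subtype.ext (congrArg (fun z : {x : T // x ^ p = 1} => z.1) hxy)) hrk
  have h3 : (powMonoidHom p : T →* T).range ≤ (powMonoidHom p : T →* T).ker := by
    rintro _ ⟨u, rfl⟩
    rw [MonoidHom.mem_ker]
    change (u ^ p) ^ p = 1
    rw [← pow_mul, ← sq]
    exact hexp u
  have h4 : (powMonoidHom p : T →* T).range = (powMonoidHom p : T →* T).ker := by
    refine Subgroup.eq_of_le_of_card_ge h3 ?_
    have h5 : p ^ 4 = p ^ 2 * p ^ 2 := by ring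
    by_contra hcon
    push Not at hcon
    have h6 : 0 < p ^ 2 := pow_pos hp.pos 2
    have h7 : Nat.card (powMonoidHom p : T →* T).ker * Nat.card (powMonoidHom p : T →* T).range
        < p ^ 2 * p ^ 2 := by
      calc _ ≤ p ^ 2 * Nat.card (powMonoidHom p : T →* T).range := Nat.mul_le_mul_right _ h2
        _ < p ^ 2 * p ^ 2 := Nat.mul_lt_mul_of_pos_left (lt_of_lt_of_le hcon h2) h6
    rw [h1, h5] at h7
    exact lt_irrefl _ h7
  have h5 : w ∈ (powMonoidHom p : T →* T).range := by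
    rw [h4, MonoidHom.mem_ker]
    exact hw
  obtain ⟨y, hy⟩ := h5
  exact ⟨y, hy.symm⟩

/-- the stabilizers -/
theorem st_lt' (hp : p.Prime) (hexp : ∀ u : T, u ^ p ^ 2 = 1)
    (hrk : Nat.card {x : T // x ^ p = 1} ≤ p ^ 2) (hE : ¬ p ∣ Nat.card E) {u : T} (hu : u ≠ 1) :
    st E u + 1 ≤ p := st_lt hp (isP hexp) hE hrk hu

/-- `BigY` -/
theorem bigY_p2 (hp : p.Prime) (hp2 : p ≠ 2) (hexp : ∀ u : T, u ^ p ^ 2 = 1)
    (hrk : Nat.card {x : T // x ^ p = 1} ≤ p ^ 2) (hE : ¬ p ∣ Nat.card E)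
    (hF : ∀ α ∈ E, α ≠ 1 → ∃ u : T, (u⁻¹ * α u) ^ p ≠ 1) {Q : Subgroup T} (hQ : Q ≠ ⊥)
    (hQ' : Q ≠ ⊤) : BigY K p (p ^ 2) E Q := by
  have hT : IsPGroup p T := isP hexp
  have hp1 := hp.one_lt
  have hle : Fx E Q ≤ E := fun α hα => hα.1
  have hfix : ∀ α ∈ Fx E Q, ∀ z ∈ Q, α z = z := fun α hα z hz => hα.2 z hz
  have hFx : Nat.card (Fx E Q) ≤ p - 1 := by
    obtain ⟨x, hx, hx1⟩ := (Subgroup.bot_or_exists_ne_one Q).resolve_left hQ
    have h1 := st_lt' hp hexp hrk hE hx1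
    have h2 := fx_le (E := E) hx
    omega
  have hF' : ∀ φ ∈ Fx E Q, φ ≠ 1 → ∃ u : T, (u⁻¹ * φ u) ^ p ^ 1 ≠ 1 := by
    intro φ hφ h1
    rw [pow_one]
    exact hF φ (hle hφ) h1
  refine ⟨mtd_of (n := 1) hp hp2 hT (fun h1 => hE (h1.trans (Subgroup.card_dvd_of_le hle))) le_rfl
    hF' ?_ hQ' hfix, ?_, ?_⟩
  · calc Nat.card (Fx E Q) ≤ p - 1 := hFx
      _ < p := by omega
      _ ≤ p ^ (1 + 1) := Nat.le_self_pow (by omega) p
  · calc Nat.card (Fx E Q) ^ 2 ≤ (p - 1) ^ 2 := Nat.pow_le_pow_left hFx 2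
      _ = (p - 1) * (p - 1) := sq _
      _ < p * (p - 1) := Nat.mul_lt_mul_of_pos_right (by omega) (by omega)
      _ ≤ p ^ 2 * (p - 1) := Nat.mul_le_mul_right _ (Nat.le_self_pow (by omega) p)
  · by_cases h1 : Nat.card (Fx E Q) = 1
    · exact Or.inl h1
    · obtain ⟨φ, hφ, hφ1⟩ := ZKr.exists_ne h1
      exact Or.inr (ZKr.fix_dvd (hfix φ hφ) (ZKr.cm_dvd (n := 1) hp hT (hF' φ hφ hφ1)))

/-- the fixed points of an automorphism `≠ 1` -/
theorem fix_card (hT4 : Fintype.card T = p ^ 4) (hp : p.Prime) (hexp : ∀ u : T, u ^ p ^ 2 = 1)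
    {α : MulAut T} (hα : ∃ u : T, (u⁻¹ * α u) ^ p ≠ 1) {Q : Subgroup T}
    (hQ : ∀ z ∈ Q, α z = z) : Nat.card Q ≤ p ^ 2 := by
  have hα' : ∃ u : T, (u⁻¹ * α u) ^ p ^ 1 ≠ 1 := by
    rwa [pow_one]
  have h1 := ZKr.fix_dvd hQ (ZKr.cm_dvd (n := 1) hp (isP hexp) hα')
  rw [hT4] at h1
  have h2 := Nat.le_of_dvd (pow_pos hp.pos 4) h1
  have h3 : p ^ 4 = p ^ (1 + 1) * p ^ 2 := by ring
  rw [h3] at h2
  exact Nat.le_of_mul_le_mul_left h2 (pow_pos hp.pos _)

/-- **the element `z`** -/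
theorem exists_z (hT4 : Fintype.card T = p ^ 4) (hp : p.Prime) (hexp : ∀ u : T, u ^ p ^ 2 = 1)
    (hrk : Nat.card {x : T // x ^ p = 1} ≤ p ^ 2) (hE : ¬ p ∣ Nat.card E)
    (hF : ∀ α ∈ E, α ≠ 1 → ∃ u : T, (u⁻¹ * α u) ^ p ≠ 1) :
    ∃ z : T, z ^ p ≠ 1 ∧ (∀ α ∈ E, α (z ^ p) = z ^ p → α z = z) ∧
      (∀ α ∈ E, α z = z → ∀ u, u ∉ Subgroup.zpowers z → α u = u → α = 1) ∧ st E z + 1 ≤ p := by
  classical
  have hfin : Finite (MulAut T) := Finite.of_injective (fun φ : MulAut T => (φ : T → T))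
    (fun a b h => MulEquiv.ext fun x => congrFun h x)
  have hT : IsPGroup p T := isP hexp
  -- an element of order `p`
  have hdvd : p ∣ Fintype.card T := by
    rw [hT4]
    exact dvd_pow_self p (by omega)
  have : Fact p.Prime := ⟨hp⟩
  obtain ⟨v, hv⟩ := exists_prime_orderOf_dvd_card p hdvd
  have hvp : v ^ p = 1 := by
    rw [← hv]
    exact pow_orderOf_eq_one v
  have hv1 : v ≠ 1 := by
    rintro rfl
    rw [orderOf_one] at hv
    exact hp.one_lt.ne hv
  obtain ⟨y, hy⟩ := omega_pow hT4 hp hexp hrk v hvp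
  -- the stabilizer of `v`
  set F : Subgroup (MulAut T) := Fx E (Subgroup.zpowers v) with hFdef
  have hFv : ∀ α, α ∈ F ↔ α ∈ E ∧ α v = v := by
    intro α
    constructor
    · intro h
      exact ⟨h.1, h.2 v (Subgroup.mem_zpowers v)⟩
    · rintro ⟨h1, h2⟩
      refine ⟨h1, fun t ht => ?_⟩
      obtain ⟨j, rfl⟩ := Subgroup.mem_zpowers_iff.1 ht
      rw [map_zpow, h2]
  have hFE : F ≤ E := fun α hα => ((hFv α).1 hα).1
  have hcF : Nat.Coprime (Nat.card F) p := by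
    refine Nat.Coprime.symm ((Nat.Prime.coprime_iff_not_dvd hp).2 fun h => ?_)
    exact hE (h.trans (Subgroup.card_dvd_of_le hFE))
  have : Fintype F := Fintype.ofFinite _
  -- the product of the conjugates of `y`
  set z₀ : T := ∏ α : F, (α : MulAut T) y with hz₀
  have hz₀F : ∀ β ∈ F, β z₀ = z₀ := by
    intro β hβ
    rw [hz₀, map_prod]
    refine Fintype.prod_equiv (Equiv.mulLeft (⟨β, hβ⟩ : F)) _ _ fun α => ?_
    rfl
  have hz₀p : z₀ ^ p = v ^ Nat.card F := by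
    rw [hz₀, ← Finset.prod_pow]
    have h1 : ∀ α : F, ((α : MulAut T) y) ^ p = v := by
      intro α
      rw [← map_pow, ← hy]
      exact ((hFv _).1 α.2).2
    rw [Finset.prod_congr rfl fun α _ => h1 α, Finset.prod_const, Finset.card_univ,
      Nat.card_eq_fintype_card]
  -- the exponent
  obtain ⟨n, hn⟩ : ∃ n : ℕ, v ^ (Nat.card F * n) = v := by
    have h1 := Nat.exists_mul_mod_eq_one_of_coprime hcF hp.one_lt
    obtain ⟨n, -, hn⟩ := h1
    refine ⟨n, ?_⟩
    rw [← pow_mod_orderOf, hv, hn, pow_one]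
  set z : T := z₀ ^ n with hz
  have hzp : z ^ p = v := by
    rw [hz, ← pow_mul, mul_comm n p, pow_mul, hz₀p, ← pow_mul]
    exact hn
  have hzF : ∀ α ∈ F, α z = z := by
    intro α hα
    rw [hz, map_pow, hz₀F α hα]
  have hz1 : z ≠ 1 := by
    intro h
    rw [h, one_pow] at hzp
    exact hv1 hzp.symm
  refine ⟨z, by rw [hzp]; exact hv1, ?_, ?_, ?_⟩
  · intro α hα h
    rw [hzp] at h
    exact hzF α ((hFv α).2 ⟨hα, h⟩)
  · intro α hα hαz u hu hαu
    by_contra hα1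
    -- the fixed points
    let C : Subgroup T :=
      { carrier := {t | α t = t}
        mul_mem' := fun {a b} ha hb => by
          change α (a * b) = a * b
          rw [map_mul, ha, hb]
        one_mem' := map_one α
        inv_mem' := fun {a} ha => by
          change α a⁻¹ = a⁻¹
          rw [map_inv, ha] }
    have hC : ∀ t, t ∈ C ↔ α t = t := fun t => Iff.rfl
    have hzC : Subgroup.zpowers z ≤ C := by
      rw [Subgroup.zpowers_le]
      exact (hC z).2 hαz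
    have hCc := fix_card hT4 hp hexp (hF α hα hα1) (Q := C) fun t ht => ht
    have hoz : Nat.card (Subgroup.zpowers z) = p ^ 2 := by
      rw [Nat.card_zpowers]
      refine orderOf_eq_prime_pow (n := 1) (p := p) ?_ (hexp z)
      rw [pow_one, hzp]
      exact hv1
    have heq : Subgroup.zpowers z = C :=
      Subgroup.eq_of_le_of_card_ge hzC (by rw [hoz]; exact hCc)
    exact hu (heq ▸ (hC u).2 hαu)
  · exact st_lt' hp hexp hrk hE hz1

/-- the stabilizers of the characters -/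
theorem stl_lt (hp : p.Prime) (hexp : ∀ u : T, u ^ p ^ 2 = 1)
    (hrk : Nat.card {x : T // x ^ p = 1} ≤ p ^ 2) (hE : ¬ p ∣ Nat.card E)
    {l : T →* Kˣ} (hl : l ≠ 1) : stl E l + 1 ≤ p :=
  ZNx.stl_le_st hp (isP hexp) hE (fun _ hu => st_lt' hp hexp hrk hE hu) hl

end

end V5Ux

end Pool.Agent.Lib.P0c8ca5.Ex
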