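import Mathlib
import Pool.Agent.Lib.P0c8ca5Ex.V5R
import Pool.Agent.Lib.P0c8ca5Ex.V5B
import Pool.Agent.Lib.P0c8ca5Ex.V5F
import Pool.Agent.Lib.P0c8ca5Ex.V5G
import Pool.Agent.Lib.P0c8ca5Ex.V5U
import Pool.Agent.Lib.P0c8ca5Ex.YOc

/-!
# V5A: `l(b) ≤ p²` for `D = C_{p²} × C_{p²}`, from the columns at one element of order `p²`
-/

set_option linter.unusedSectionVars false

namespace Pool.Agent.Lib.P0c8ca5.Ex.V5

open MonoidAlgebra

section
variable {p : ℕ} [Fact p.Prime] {k : Type*} [Field k] [IsAlgClosed k] [CharP k p]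
  {A : Type*} [Group A] [Fintype A] {T : Type*} [CommGroup T] [Fintype T]
  {φ : T →* A} {b f i : MonoidAlgebra k A} {D : Subgroup A}
  {G : Subgroup T → A → KW p k}

/-- the columns at `z` -/
structure Cols (φ : T →* A) (D : Subgroup A) (f i : MonoidAlgebra k A)
    (G : Subgroup T → A → KW p k) (z : T) (H : Subgroup A) (c : MonoidAlgebra k A) {m : ℕ}
    (P : Fin m → A → KW p k) : Prop where
  card : m = st (EG φ D f) z
  lp : ∀ j, LP H c (P j)
  sum : ∀ x, ∑ j, P j x = G (Subgroup.zpowers z) x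
  gram : ∃ r : KW p k, ∀ j j', ip (on H (P j)) (on H (P j'))
    = (p : KW p k) ^ 2 * ((if j = j' then 1 else 0) + r)
  span : ∀ BH : MonoidAlgebra (OW p k) ↥H, CenL (dnr H c) BH →
    ∀ a : Ir (KW p k) ↥H → KW p k, (∀ s, chO s BH = 0 → a s = 0) →
      (∀ j, ip (fun y => ∑ s, a s * ch s y) (on H (P j)) = 0) →
      ∀ y : ↥H, Preg p y → ∑ s, a s * ch s y = 0

/-- the cross sums of the columns at `z` -/
def CrossS (φ : T →* A) (z : T) (H : Subgroup A) {m : ℕ} (P : Fin m → A → KW p k) : Prop :=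
  ∀ j j', j ≠ j' → ∀ a : ℕ, ¬ p ∣ a →
    ∑ χ : Ir (KW p k) A, (∑ w ∈ Om ↥(Subgroup.zpowers z) p,
        (rP H (P j) (ch χ) (φ (z ^ a * (w : T))) - rP H (P j') (ch χ) (φ (z ^ a * (w : T))))) *
      (∑ w ∈ Om ↥(Subgroup.zpowers z) p,
        (rP H (P j) (ch χ) (φ (z ^ a * (w : T)))⁻¹ - rP H (P j') (ch χ) (φ (z ^ a * (w : T)))⁻¹))
      = 2 * (p : KW p k) ^ 3

theorem rP_sum {m : ℕ} (H : Subgroup A) (P : Fin m → A → KW p k) {F : A → KW p k}
    (hF : ∀ x, ∑ j, P j x = F x) (X : A → KW p k) (x : A) :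
    ∑ j, rP H (P j) X x = (Nat.card ↥H : KW p k)⁻¹ * sm (fun y => X (x * y) * F y⁻¹) := by
  unfold rP
  rw [← Finset.mul_sum, ← sm_sum]
  congr 1
  refine sm_congr fun y => ?_
  rw [← hF, Finset.mul_sum]

/-- the number of the elements of order dividing `p` -/
theorem card_Om_T (hp : p.Prime) (hT4 : Fintype.card T = p ^ 4) (hexp : ∀ u : T, u ^ p ^ 2 = 1)
    (hpow : ∀ w : T, w ^ p = 1 → ∃ y, w = y ^ p) : (Om T p).card = p ^ 2 := by
  classical
  let F : T →* T := powMonoidHom p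
  have h1 : F.ker = F.range := by
    ext w
    rw [MonoidHom.mem_ker, MonoidHom.mem_range]
    constructor
    · intro hw
      obtain ⟨y, hy⟩ := hpow w hw
      exact ⟨y, hy.symm⟩
    · rintro ⟨y, rfl⟩
      change (y ^ p) ^ p = 1
      rw [← pow_mul, ← pow_two, hexp]
  have h2 : Nat.card F.ker * F.ker.index = Nat.card T := Subgroup.card_mul_index _
  rw [Subgroup.index_ker, ← h1, Nat.card_eq_fintype_card (α := T), hT4] at h2
  have h3 : Nat.card F.ker = p ^ 2 := by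
    have h4 : Nat.card F.ker * Nat.card F.ker = p ^ 2 * p ^ 2 := by rw [h2]; ring
    exact Nat.mul_self_inj.1 h4
  rw [← h3, Nat.card_eq_fintype_card, Fintype.card_subtype]
  congr 1
  ext w
  rw [mem_Om, Finset.mem_filter]
  exact ⟨fun h => ⟨Finset.mem_univ _, h⟩, fun h => h.2⟩

/-- the row of a fixed character -/
theorem rwv_fix (hS : Stp φ b D f i ⊥ G) {χ : Ir (KW p k) A}
    (hχ : ∀ (v : A) (M : ℕ), v ^ p ^ M = 1 → ∀ y, v * y = y * v → Preg p y →
      ch χ (v ^ (1 + p) * y) = ch χ (v * y)) {u : T} (hu : u ≠ 1)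
    (hz : Subgroup.zpowers (u ^ (1 + p)) = Subgroup.zpowers u) :
    rwv φ G ⊥ (ch χ) (u ^ (1 + p)) = rwv φ G ⊥ (ch χ) u := by
  obtain ⟨M, hM⟩ := pow_one_of hS.src
  have hlt : (⊥ : Subgroup T) < ⊥ ⊔ Subgroup.zpowers u := by
    rw [bot_sup_eq, bot_lt_iff_ne_bot]
    exact fun h1 => hu (Subgroup.zpowers_eq_bot.1 h1)
  have hG := hS.ok _ hlt
  rw [rwv, rwv, hz, map_pow]
  congr 1
  refine sm_fix (fun y h1 h2 => hχ (φ u) M (hM _ ((hS.ran _).2 ⟨u, rfl⟩)) y h1 h2) fun y hy => ?_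
  constructor
  · have hy1 : y ∈ cq φ (⊥ ⊔ Subgroup.zpowers u) := by
      by_contra h1
      exact hy (hG.sup _ h1)
    rw [cq, Subgroup.mem_centralizer_iff] at hy1
    exact hy1 (φ u) ⟨u, Subgroup.mem_sup_right (Subgroup.mem_zpowers u), rfl⟩
  · by_contra h1
    exact hy (hG.reg _ h1)

/-- **the bound** -/
theorem l_le_cols (hp2 : p ≠ 2) (hS : Stp φ b D f i ⊥ G) (hpE : ¬ p ∣ eN D f)
    (hT4 : Fintype.card T = p ^ 4) (hexp : ∀ u : T, u ^ p ^ 2 = 1)
    (hrk : Nat.card {x : T // x ^ p = 1} ≤ p ^ 2) {z : T} (hz1 : z ^ p ≠ 1)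
    (hzfix : ∀ α ∈ EG φ D f, α (z ^ p) = z ^ p → α z = z) (hzst : st (EG φ D f) z + 1 ≤ p)
    {H : Subgroup A} (hH : C1 (φ z) = H) {c : MonoidAlgebra k A} (hc : LbH H i c) {m : ℕ}
    {P : Fin m → A → KW p k} (hP : Cols φ D f i G z H c P) (hcr : CrossS φ z H P) :
    Nat.card (Quotient (irrInvSetoid (⊤ : Subgroup A) ⊤ b)) ≤ p ^ 2 := by
  classical
  have hp : p.Prime := Fact.out
  have h := hS.src
  have hφ := hS.inj
  have hr := hS.ran
  have hb := h.root.blk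
  obtain ⟨B, hB⟩ := exists_cenL (p := p) hb.idem
    (fun g => invBy_iff_cj.1 hb.invBy g (Subgroup.mem_top g))
  have hcE : ¬ p ∣ Nat.card (EG φ D f) := by rwa [card_EG hφ hr]
  have hT : IsPGroup p T := V5Ux.isP hexp
  have hz2 : z ^ p ^ 2 = 1 := hexp z
  obtain ⟨Θ, h1, -, h3, h4⟩ := rows_glue hS hcE hB
  obtain ⟨S, hS1, hS2⟩ := fixed (φ := φ) h hpE hB
  have hK : ∀ χ : Ir (KW p k) A, Ker φ ⊥ χ := fun χ z hz x => by
    rw [Subgroup.mem_bot.1 hz, map_one, one_mul]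
  have hnb : ∀ u : T, u ≠ 1 → u ∉ (⊥ : Subgroup T) := fun u hu h5 => hu (Subgroup.mem_bot.1 h5)
  have hout : ∀ χ u, u ≠ 1 → Θ χ u = rwv φ G ⊥ (ch χ.1) u := fun χ u hu => h3 χ u (hnb u hu)
  have hgram : ∀ u v, u ≠ 1 → v ≠ 1 → GramR (EG φ D f) ⊥ Θ u v :=
    fun u v hu hv => h4 u v (hnb u hu) (hnb v hv)
  have hpow := V5Ux.omega_pow hT4 hp hexp hrk
  have hOmT : (Om T p).card = p ^ 2 := card_Om_T hp hT4 hexp hpow
  have hp0 : (p : KW p k) ≠ 0 := Nat.cast_ne_zero.2 hp.ne_zero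
  have ht1 : (1 + p).Coprime p := by
    rw [Nat.coprime_add_self_left]
    exact Nat.coprime_one_left p
  have hΘE : ∀ χ, ∀ α ∈ EG φ D f, ∀ u, Θ χ (α u) = Θ χ u := by
    intro χ α hα u
    by_cases hu : u = 1
    · rw [hu, map_one]
    · have hu' : α u ≠ 1 := fun h5 => hu (by
        have h6 := congrArg α.symm h5
        rwa [MulEquiv.symm_apply_apply, map_one] at h6)
      obtain ⟨g, hg, hg'⟩ := hα
      rw [hout χ _ hu', hout χ _ hu, rwv_inv hS (ch_mem χ.1) hg hg' (hnb u hu)]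
  have hΘS : ∀ χ ∈ S, ∀ u, Θ χ (u ^ (1 + p)) = Θ χ u := by
    intro χ hχ u
    by_cases hu : u = 1
    · rw [hu, one_pow]
    · have hz := zpowers_pow ht1 (hexp u)
      have hu' : u ^ (1 + p) ≠ 1 := by
        intro h5
        rw [h5, Subgroup.zpowers_one_eq_bot] at hz
        exact hu (Subgroup.zpowers_eq_bot.1 hz.symm)
      rw [hout χ _ hu', hout χ _ hu, rwv_fix hS (hS1 χ hχ) hu hz]
  have hconst : ∀ χ ∈ S, ∀ u, u ^ p ≠ 1 → ∀ v, v ^ p = 1 → Θ χ (u * v) = Θ χ u :=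
    fun χ hχ u hu v hv => rows_const hp hT4 hexp hOmT hpow hcE
      (fun l _ hl => V5Ux.stl_lt hp hexp hrk hcE hl) h1 hgram (w := fun χ => chO χ.1 B)
      (fun χ => χ.2.2) (fun u hu => by
        rw [Finset.sum_congr rfl fun χ _ => by rw [hout χ u hu]]
        exact YOaAux.col_rowI hS hB.idem (fun χ hχ => hχ) (hnb u hu))
      (hΘS χ hχ) (hΘE χ) hu hv
  -- the additive character
  obtain ⟨ζ, hζ⟩ := HasEnoughRootsOfUnity.exists_primitiveRoot (KW p k) p
  obtain ⟨ψ, hψ1, hψ2⟩ := exists_psi (KW p k) hζ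
  -- the columns
  set Q : Subgroup T := Subgroup.zpowers z with hQ
  set z' : ↥Q := ⟨z, Subgroup.mem_zpowers z⟩ with hz'
  have hcq : cq φ Q = H := by
    have h5 := cq_eq (φ := φ) (R := ⊥) (fun z hz a => by
      rw [Subgroup.mem_bot.1 hz, map_one, one_mul, mul_one]) z
    rw [bot_sup_eq] at h5
    rw [hQ, h5, hH]
  obtain ⟨BH, hBH⟩ := exists_cenB (p := p) hc.blk
  have hQexp : ∀ u : ↥Q, u ^ p ^ 2 = 1 := fun u => Subtype.ext (hexp u)
  choose x hx using fun (χ : IR φ ⊥ B) (j : Fin m) =>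
    exists_ev hψ2 hQexp (rP_vir hcq hBH (hP.lp j) (ch_mem χ.1)) z'
  choose g hg using fun χ : IR φ ⊥ B => exists_ev hψ2 hexp (h1 χ) z
  have hOmQ : (Om ↥Q p).card = p := card_Om_zp hz1 hz2
  rw [hOmQ] at hx
  rw [hOmT] at hg
  have hval : ∀ a : ZMod p, a ≠ 0 → ¬ p ∣ a.val := by
    intro a ha h5
    have h6 := Nat.eq_zero_of_dvd_of_lt h5 (ZMod.val_lt a)
    exact ha ((ZMod.val_eq_zero a).1 h6)
  have hsumIR : ∀ F : Ir (KW p k) A → KW p k, (∀ χ, chO χ B = 0 → F χ = 0) →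
      ∑ χ : IR φ ⊥ B, F χ.1 = ∑ χ : Ir (KW p k) A, F χ := by
    intro F hF
    rw [YOaAux.ir_sum F hF, Finset.filter_true_of_mem fun χ _ => hK χ]
  have hcardE : ((Finset.univ.erase (0 : ZMod p)).card : KW p k) = (p : KW p k) - 1 := by
    rw [Finset.card_erase_of_mem (Finset.mem_univ _), Finset.card_univ, ZMod.card,
      Nat.cast_sub hp.one_lt.le, Nat.cast_one]
  have hm : 1 ≤ m := by
    rw [hP.card]
    unfold st
    have : Finite {α : ↥(EG φ D f) // (α : MulAut T) z = z} := inferInstance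
    have : Nonempty {α : ↥(EG φ D f) // (α : MulAut T) z = z} := ⟨⟨1, rfl⟩⟩
    exact Nat.card_pos
  have hev : ∀ χ ∈ S, ∀ j, ∀ a : ZMod p, a ≠ 0 →
      ev ψ (x χ j) a = rP H (P j) (ch χ.1) (φ (z ^ a.val)) := by
    intro χ hχ j a ha
    have h5 : ∀ w ∈ Om ↥Q p, rP H (P j) (ch χ.1) (φ ((z' ^ a.val * w : ↥Q) : T))
        = rP H (P j) (ch χ.1) (φ (z ^ a.val)) := by
      intro w hw
      have hz1' : z' ^ p ≠ 1 := fun h6 => hz1 (congrArg Subtype.val h6)
      refine inv_Om (fun v : ↥Q => rP H (P j) (ch χ.1) (φ (v : T))) (u := z' ^ a.val)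
        (pow_ne hz1' (hQexp z') (hval a ha)) (hQexp _) ?_ (mem_Om.1 hw) ?_
      · rw [zp_pow_eq hz1' (hQexp z') (hval a ha)]
        obtain ⟨n, hn⟩ := w.2
        exact ⟨n, Subtype.ext hn⟩
      · intro n
        set v : ↥Q := z' ^ a.val * ((z' ^ a.val) ^ p) ^ n with hv
        obtain ⟨M, hM⟩ := pow_one_of h
        have h6 : φ ((v ^ (1 + p) : ↥Q) : T) = φ (v : T) ^ (1 + p) := by
          rw [SubmonoidClass.coe_pow, map_pow]
        have h7 : ∀ y ∈ H, φ (v : T) * y = y * φ (v : T) := by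
          intro y hy
          rw [← hcq, cq, Subgroup.mem_centralizer_iff] at hy
          exact hy (φ (v : T)) ⟨(v : T), v.2, rfl⟩
        change rP H (P j) (ch χ.1) (φ ((v ^ (1 + p) : ↥Q) : T)) = rP H (P j) (ch χ.1) (φ (v : T))
        unfold rP
        rw [h6]
        congr 1
        refine sm_fix (fun y h8 h9 => hS1 χ hχ (φ (v : T)) M (hM _ ((hr _).2 ⟨_, rfl⟩)) y h8 h9)
          fun y hy => ⟨h7 y ?_, ?_⟩
        · by_contra h8
          exact hy ((hP.lp j).sup y h8)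
        · by_contra h8
          exact hy ((hP.lp j).reg y h8)
    have h6 := hx χ j a
    rw [Finset.sum_congr rfl h5, Finset.sum_const, nsmul_eq_mul, hOmQ] at h6
    exact (mul_left_cancel₀ hp0 h6).symm
  refine hS2.trans (count (Λ := ZMod p) hp.two_le (ZMod.card p) (J := Fin m)
    (by rw [Fintype.card_fin]; exact hm) (by rw [Fintype.card_fin, hP.card]; exact hzst) S x g
    ?_ ?_ ?_ ?_)
  · -- the differences of the columns
    intro j j' hj
    have h5 : ∀ a : ZMod p, a ≠ 0 → ∑ χ : IR φ ⊥ B,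
        ev ψ (fun c => x χ j c - x χ j' c) a * ev ψ (fun c => x χ j c - x χ j' c) (-a)
        = 2 * (p : KW p k) := by
      intro a ha
      have h6 := hcr j j' hj a.val (hval a ha)
      rw [← hsumIR] at h6
      · have h7 : ∀ χ : IR φ ⊥ B, (∑ w ∈ Om ↥Q p, (rP H (P j) (ch χ.1) (φ (z ^ a.val * (w : T)))
            - rP H (P j') (ch χ.1) (φ (z ^ a.val * (w : T)))))
            = (p : KW p k) * ev ψ (fun c => x χ j c - x χ j' c) a := by
          intro χ
          rw [ev_sub, mul_sub, ← hx, ← hx, Finset.sum_sub_distrib]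
          rfl
        have h8 : ∀ χ : IR φ ⊥ B, (∑ w ∈ Om ↥Q p,
            (rP H (P j) (ch χ.1) (φ (z ^ a.val * (w : T)))⁻¹
              - rP H (P j') (ch χ.1) (φ (z ^ a.val * (w : T)))⁻¹))
            = (p : KW p k) * ev ψ (fun c => x χ j c - x χ j' c) (-a) := by
          intro χ
          have hn : ∀ j, ∑ w ∈ Om ↥Q p, rP H (P j) (ch χ.1) (φ ((z' ^ (-a).val * w : ↥Q) : T))
              = ∑ w ∈ Om ↥Q p, rP H (P j) (ch χ.1) (φ (((z' ^ a.val * w)⁻¹ : ↥Q) : T)) :=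
            fun j => sum_neg (fun v : ↥Q => rP H (P j) (ch χ.1) (φ (v : T))) (hQexp z') ha
          rw [ev_sub, mul_sub, ← hx, ← hx, hn, hn, ← Finset.sum_sub_distrib]
          refine Finset.sum_congr rfl fun w _ => ?_
          rw [← map_inv]
          rfl
        rw [Finset.sum_congr rfl fun χ _ => by rw [h7, h8]] at h6
        have h9 : (p : KW p k) ^ 2 * ∑ χ : IR φ ⊥ B,
            ev ψ (fun c => x χ j c - x χ j' c) a * ev ψ (fun c => x χ j c - x χ j' c) (-a)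
            = (p : KW p k) ^ 2 * (2 * (p : KW p k)) := by
          rw [Finset.mul_sum]
          calc _ = ∑ χ : IR φ ⊥ B, (p : KW p k) * ev ψ (fun c => x χ j c - x χ j' c) a
                * ((p : KW p k) * ev ψ (fun c => x χ j c - x χ j' c) (-a)) :=
                Finset.sum_congr rfl fun χ _ => by ring
            _ = 2 * (p : KW p k) ^ 3 := h6
            _ = _ := by ring
        exact mul_left_cancel₀ (pow_ne_zero 2 hp0) h9
      · intro χ hχ
        have h7 : ∀ w ∈ Om ↥Q p, ∀ j, rP H (P j) (ch χ) (φ (z ^ a.val * (w : T))) = 0 := by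
          intro w hw j
          refine rP_out h hr hB hχ ?_ hc (hP.lp j)
          rw [← hH]
          exact C1_gen φ (zp_mul_eq hz1 hz2 (hval a ha) w.2 (congrArg Subtype.val (mem_Om.1 hw)))
        rw [Finset.sum_eq_zero fun w hw => by rw [h7 w hw, h7 w hw, sub_zero], zero_mul]
    have h6 : ((∑ χ : IR φ ⊥ B, Vq (fun c => x χ j c - x χ j' c) : ℤ) : KW p k)
        = ((2 * p * (p - 1) : ℤ) : KW p k) := by
      push_cast
      rw [Finset.sum_congr rfl fun χ _ => Vq_ev hψ1 _, Finset.sum_comm,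
        Finset.sum_congr rfl fun a ha => h5 a (Finset.ne_of_mem_erase ha), Finset.sum_const,
        nsmul_eq_mul, hcardE]
      ring
    exact_mod_cast h6
  · -- the coset sums
    have h5 : ∀ a : ZMod p, a ≠ 0 → ∑ χ : IR φ ⊥ B, ev ψ (g χ) a * ev ψ (g χ) (-a)
        = (p : KW p k) ^ 2 * m := by
      intro a ha
      have h6 := sum_av hp hT hcE hgram (pow_ne hz1 hz2 (hval a ha))
      rw [count_st hz2 hzfix (hval a ha), ← hP.card, hOmT, hT4] at h6
      have h7 : ∀ χ : IR φ ⊥ B, (∑ w ∈ Om T p, Θ χ (z ^ a.val * w)) *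
          (∑ w ∈ Om T p, Θ χ (z ^ a.val * w)⁻¹)
          = (p : KW p k) ^ 4 * (ev ψ (g χ) a * ev ψ (g χ) (-a)) := by
        intro χ
        rw [← sum_neg (Θ χ) hz2 ha, hg, hg]
        push_cast
        ring
      rw [Finset.sum_congr rfl fun χ _ => h7 χ, ← Finset.mul_sum] at h6
      push_cast at h6
      have h8 : (p : KW p k) ^ 4 * ∑ χ : IR φ ⊥ B, ev ψ (g χ) a * ev ψ (g χ) (-a)
          = (p : KW p k) ^ 4 * ((p : KW p k) ^ 2 * m) := h6
      exact mul_left_cancel₀ (pow_ne_zero 4 hp0) h8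
    have h6 : ((∑ χ : IR φ ⊥ B, Vq (g χ) : ℤ) : KW p k)
        = (((p - 1) * p ^ 2 * Fintype.card (Fin m) : ℤ) : KW p k) := by
      push_cast
      rw [Finset.sum_congr rfl fun χ _ => Vq_ev hψ1 _, Finset.sum_comm,
        Finset.sum_congr rfl fun a ha => h5 a (Finset.ne_of_mem_erase ha), Finset.sum_const,
        nsmul_eq_mul, hcardE, Fintype.card_fin]
      ring
    exact_mod_cast h6
  · -- the fixed rows
    intro χ hχ
    refine Vq_congr hψ1 _ _ fun a ha => ?_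
    rw [ev_sum, Finset.sum_congr rfl fun j _ => hev χ hχ j a ha, rP_sum H P hP.sum]
    have hu1 := pow_ne hz1 hz2 (hval a ha)
    have hu : z ^ a.val ≠ 1 := fun h5 => hu1 (by rw [h5, one_pow])
    have h5 : ev ψ (g χ) a = Θ χ (z ^ a.val) := by
      have h6 := hg χ a
      rw [Finset.sum_congr rfl fun w hw => hconst χ hχ _ hu1 w (mem_Om.1 hw), Finset.sum_const,
        nsmul_eq_mul, hOmT] at h6
      have h7 : ((p ^ 2 : ℕ) : KW p k) ≠ 0 := Nat.cast_ne_zero.2 (pow_ne_zero 2 hp.ne_zero)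
      exact (mul_left_cancel₀ h7 h6).symm
    rw [h5, hout χ _ hu, rwv, bot_sup_eq, zp_pow_eq hz1 hz2 (hval a ha), ← hQ, hcq]
  · -- the rows do not vanish
    intro χ hχ
    obtain ⟨j, hj⟩ := exists_rP_ne h hpE hB hr χ.2.2 (Subgroup.mem_zpowers z) hcq hH hc hBH hP.lp
      (hP.span BH hBH)
    refine ⟨j, Vq_ne_of hψ1 _ (a := 1) one_ne_zero ?_⟩
    rw [hev χ hχ j 1 one_ne_zero, ZMod.val_one, pow_one]
    exact hj

end

end Pool.Agent.Lib.P0c8ca5.Ex.V5
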