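import Mathlib
import Pool.Agent.Lib.P0c8ca5Ex.V5E
import Pool.Agent.Lib.P0c8ca5Ex.V5G
import Pool.Agent.Lib.P0c8ca5Kc.RE

/-!
# V5H: the sums of the squares of the differences of the columns

`i2`: `z` has the order `p²`, `P j` are local functions at `H = C(z)` with the inner products
`p² (δ + r)`; the sum over the characters of the squares of the differences of the columns, summed over
the translates of `z^a` by the elements of order `p`, is `2 p³`.
-/

set_option linter.unusedSectionVars false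

namespace Pool.Agent.Lib.P0c8ca5.Ex.V5

open MonoidAlgebra Finset

section
variable {T : Type*} [CommGroup T] [Fintype T] {p : ℕ} [Fact p.Prime]

theorem order_z {z : T} (hz1 : z ^ p ≠ 1) (hz2 : z ^ p ^ 2 = 1) : orderOf z = p ^ 2 := by
  have hp : p.Prime := Fact.out
  have h1 : orderOf z ∣ p ^ (1 + 1) := orderOf_dvd_of_pow_eq_one hz2
  have h2 : ¬ orderOf z ∣ p ^ 1 := fun h => hz1 (by
    have h3 := orderOf_dvd_iff_pow_eq_one.1 h
    rwa [pow_one] at h3)
  exact orderOf_eq_prime_pow (n := 1) (by rwa [pow_one]) hz2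

/-- the number of the elements of order `p` in `⟨z⟩` -/
theorem card_Om {z : T} (hz1 : z ^ p ≠ 1) (hz2 : z ^ p ^ 2 = 1)
    [Fintype ↥(Subgroup.zpowers z)] : (Om ↥(Subgroup.zpowers z) p).card = p := by
  classical
  have hp : p.Prime := Fact.out
  have ho := order_z hz1 hz2
  apply le_antisymm
  · have h1 := IsCyclic.card_pow_eq_one_le (α := ↥(Subgroup.zpowers z)) hp.pos
    refine le_trans (le_of_eq ?_) h1
    congr 1
    ext w
    rw [mem_Om, mem_filter]
    simp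
  · have h1 : Fintype.card (Fin p) ≤ Fintype.card {w // w ∈ Om ↥(Subgroup.zpowers z) p} := by
      refine Fintype.card_le_of_injective (fun j : Fin p =>
        (⟨(⟨z, Subgroup.mem_zpowers z⟩ : ↥(Subgroup.zpowers z)) ^ (p * (j : ℕ)), ?_⟩ :
          {w // w ∈ Om ↥(Subgroup.zpowers z) p})) ?_
      · rw [mem_Om]
        apply Subtype.ext
        change (z ^ (p * (j : ℕ))) ^ p = 1
        rw [← pow_mul, mul_right_comm, ← pow_two, pow_mul, hz2, one_pow]
      · intro j j' hjj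
        have h2 : z ^ (p * (j : ℕ)) = z ^ (p * (j' : ℕ)) :=
          congrArg (fun w : {w // w ∈ Om ↥(Subgroup.zpowers z) p} => ((w : ↥(Subgroup.zpowers z)) : T))
            hjj
        rw [pow_eq_pow_iff_modEq, ho] at h2
        have hlt : ∀ j : Fin p, p * (j : ℕ) < p ^ 2 := fun j => by
          rw [pow_two]
          exact Nat.mul_lt_mul_of_pos_left j.2 hp.pos
        have h3 := Nat.ModEq.eq_of_lt_of_lt h2 (hlt j) (hlt j')
        exact Fin.ext (Nat.eq_of_mul_eq_mul_left hp.pos h3)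
    rwa [Fintype.card_fin, Fintype.card_coe] at h1

/-- the translates of `z^a` by elements of order `p` generate `⟨z⟩` -/
theorem zp_tr {z : T} (hz1 : z ^ p ≠ 1) (hz2 : z ^ p ^ 2 = 1) {a : ℕ} (ha : ¬ p ∣ a)
    {w : T} (hw : w ∈ Subgroup.zpowers z) (hwp : w ^ p = 1) :
    Subgroup.zpowers (z ^ a * w) = Subgroup.zpowers z := by
  have hp : p.Prime := Fact.out
  have hle : Subgroup.zpowers (z ^ a * w) ≤ Subgroup.zpowers z := by
    rw [Subgroup.zpowers_le]
    exact Subgroup.mul_mem _ (Subgroup.pow_mem _ (Subgroup.mem_zpowers z) _) hw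
  refine Subgroup.eq_of_le_of_card_ge hle ?_
  rw [Nat.card_zpowers, Nat.card_zpowers, order_z hz1 hz2]
  apply le_of_eq
  symm
  refine order_z (fun h => ha ?_) ?_
  · rw [mul_pow, hwp, mul_one, ← pow_mul] at h
    have h1 := orderOf_dvd_iff_pow_eq_one.2 h
    rw [order_z hz1 hz2, pow_two] at h1
    exact Nat.dvd_of_mul_dvd_mul_right hp.pos h1
  · rw [mul_pow, pow_two, pow_mul w, hwp, one_pow, mul_one, ← pow_two, ← pow_mul, mul_comm,
      pow_mul, hz2, one_pow]

/-- two translates are not fused -/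
theorem tr_eq {E : Subgroup (MulAut T)} (hE : ¬ p ∣ Nat.card E) (hT : IsPGroup p T) {z : T}
    (hz1 : z ^ p ≠ 1) (hz2 : z ^ p ^ 2 = 1) {a : ℕ} (ha : ¬ p ∣ a)
    {w w' : T} (hw : w ∈ Subgroup.zpowers z) (hwp : w ^ p = 1) (hw' : w' ∈ Subgroup.zpowers z)
    (hwp' : w' ^ p = 1) {α : MulAut T} (hα : α ∈ E) (h : z ^ a * w' = α (z ^ a * w)) :
    w = w' := by
  have hp : p.Prime := Fact.out
  set u := z ^ a * w with hu
  have hzp := zp_tr hz1 hz2 ha hw hwp
  have hou : orderOf u = p ^ 2 := by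
    rw [← Nat.card_zpowers, hzp, Nat.card_zpowers, order_z hz1 hz2]
  have h1 : w⁻¹ * w' ∈ Subgroup.zpowers u := by
    rw [hzp]
    exact Subgroup.mul_mem _ (Subgroup.inv_mem _ hw) hw'
  obtain ⟨n, hn⟩ := Subgroup.mem_zpowers_iff.1 h1
  have h2 : (p : ℤ) ∣ n := by
    have h3 : u ^ (n * p) = 1 := by
      rw [zpow_mul, hn, zpow_natCast, mul_pow, inv_pow, hwp, hwp', inv_one, mul_one]
    have h4 := orderOf_dvd_iff_zpow_eq_one.2 h3
    rw [hou, pow_two] at h4
    push_cast at h4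
    have hp0 : (p : ℤ) ≠ 0 := by exact_mod_cast hp.ne_zero
    exact Int.dvd_of_mul_dvd_mul_right hp0 h4
  have h3 : α u = u ^ (1 + n) := by
    rw [← h, zpow_add, zpow_one, hn, hu]
    rw [mul_assoc, mul_inv_cancel_left]
  have h4 : α u = u := Kc.fix_pow hp hT (ZKr.pow_E hα) hE h3 (by
    rw [add_sub_cancel_left]
    exact h2)
  rw [← h] at h4
  exact (mul_left_cancel h4).symm

end

section
variable {p : ℕ} [Fact p.Prime] {k : Type*} [Field k] [IsAlgClosed k] [CharP k p]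
  {A : Type*} [Group A] [Finite A] {T : Type*} [CommGroup T] [Fintype T]
  {φ : T →* A} {b f i : MonoidAlgebra k A} {D : Subgroup A}

/-- **the sum of the squares of the differences** -/
theorem i2 (h : Src p b D f i) (hinj : Function.Injective φ)
    (hran : ∀ x, x ∈ D ↔ ∃ t, φ t = x) (hpE : ¬ p ∣ eN D f) {z : T} (hz1 : z ^ p ≠ 1)
    (hz2 : z ^ p ^ 2 = 1) [Fintype ↥(Subgroup.zpowers z)] {H : Subgroup A}
    (hH : C1 (φ z) = H) {c : MonoidAlgebra k A} (hc : LbH H i c) {J : Type*} [Fintype J]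
    [DecidableEq J] {P : J → A → KW p k} (hP : ∀ j, LP H c (P j)) {r : KW p k}
    (hgr : ∀ j j', ip (on H (P j)) (on H (P j'))
      = (p : KW p k) ^ 2 * ((if j = j' then 1 else 0) + r))
    {j j' : J} (hj : j ≠ j') {a : ℕ} (ha : ¬ p ∣ a) :
    ∑ χ : Ir (KW p k) A, (∑ w ∈ Om ↥(Subgroup.zpowers z) p,
        (rP H (P j) (ch χ) (φ (z ^ a * (w : T))) - rP H (P j') (ch χ) (φ (z ^ a * (w : T))))) *
      (∑ w ∈ Om ↥(Subgroup.zpowers z) p,
        (rP H (P j) (ch χ) (φ (z ^ a * (w : T)))⁻¹ - rP H (P j') (ch χ) (φ (z ^ a * (w : T)))⁻¹))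
      = 2 * (p : KW p k) ^ 3 := by
  classical
  have hTp : IsPGroup p T := by
    obtain ⟨M, hM⟩ := pow_one_of h
    intro t
    refine ⟨M, hinj ?_⟩
    rw [map_pow, map_one]
    exact hM _ ((hran _).2 ⟨t, rfl⟩)
  have hE : ¬ p ∣ Nat.card (EG φ D f) := by rwa [card_EG hinj hran]
  have hC : ∀ w : ↥(Subgroup.zpowers z), w ∈ Om ↥(Subgroup.zpowers z) p →
      C1 (φ (z ^ a * (w : T))) = H := by
    intro w hw
    rw [← hH]
    refine C1_gen φ (zp_tr hz1 hz2 ha w.2 ?_)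
    have h1 := mem_Om.1 hw
    exact congrArg Subtype.val h1
  -- one pair of translates
  have hone : ∀ w ∈ Om ↥(Subgroup.zpowers z) p, ∀ w' ∈ Om ↥(Subgroup.zpowers z) p,
      ∑ χ : Ir (KW p k) A,
        (rP H (P j) (ch χ) (φ (z ^ a * (w : T))) - rP H (P j') (ch χ) (φ (z ^ a * (w : T)))) *
        (rP H (P j) (ch χ) (φ (z ^ a * (w' : T)))⁻¹ -
          rP H (P j') (ch χ) (φ (z ^ a * (w' : T)))⁻¹)
      = if w = w' then 2 * (p : KW p k) ^ 2 else 0 := by
    intro w hw w' hw'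
    have e1 : ∀ χ : Ir (KW p k) A,
        (rP H (P j) (ch χ) (φ (z ^ a * (w : T))) - rP H (P j') (ch χ) (φ (z ^ a * (w : T)))) *
        (rP H (P j) (ch χ) (φ (z ^ a * (w' : T)))⁻¹ -
          rP H (P j') (ch χ) (φ (z ^ a * (w' : T)))⁻¹)
        = rP H (P j) (ch χ) (φ (z ^ a * (w : T))) * rP H (P j) (ch χ) (φ (z ^ a * (w' : T)))⁻¹
          - rP H (P j) (ch χ) (φ (z ^ a * (w : T))) * rP H (P j') (ch χ) (φ (z ^ a * (w' : T)))⁻¹
          - rP H (P j') (ch χ) (φ (z ^ a * (w : T))) * rP H (P j) (ch χ) (φ (z ^ a * (w' : T)))⁻¹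
          + rP H (P j') (ch χ) (φ (z ^ a * (w : T))) *
            rP H (P j') (ch χ) (φ (z ^ a * (w' : T)))⁻¹ := fun χ => by ring
    rw [sum_congr rfl fun χ _ => e1 χ, sum_add_distrib, sum_sub_distrib, sum_sub_distrib]
    by_cases hww : w = w'
    · subst hww
      rw [if_pos rfl, col_self h hran (hC w hw) (hP j) (hP j),
        col_self h hran (hC w hw) (hP j) (hP j'), col_self h hran (hC w hw) (hP j') (hP j),
        col_self h hran (hC w hw) (hP j') (hP j'), hgr, hgr, hgr, hgr, if_pos rfl, if_neg hj,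
        if_neg (Ne.symm hj), if_pos rfl]
      ring
    · have hno : ¬ ∃ α ∈ EG φ D f, z ^ a * (w' : T) = α (z ^ a * (w : T)) := by
        rintro ⟨α, hα, h1⟩
        apply hww
        apply Subtype.ext
        exact tr_eq hE hTp hz1 hz2 ha w.2 (congrArg Subtype.val (mem_Om.1 hw)) w'.2
          (congrArg Subtype.val (mem_Om.1 hw')) hα h1
      rw [if_neg hww, col_ne h hinj hran (hC w hw) (hC w' hw') hc (hP j) (hP j) hno,
        col_ne h hinj hran (hC w hw) (hC w' hw') hc (hP j) (hP j') hno,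
        col_ne h hinj hran (hC w hw) (hC w' hw') hc (hP j') (hP j) hno,
        col_ne h hinj hran (hC w hw) (hC w' hw') hc (hP j') (hP j') hno]
      ring
  have e2 : ∀ χ : Ir (KW p k) A, (∑ w ∈ Om ↥(Subgroup.zpowers z) p,
        (rP H (P j) (ch χ) (φ (z ^ a * (w : T))) - rP H (P j') (ch χ) (φ (z ^ a * (w : T))))) *
      (∑ w ∈ Om ↥(Subgroup.zpowers z) p,
        (rP H (P j) (ch χ) (φ (z ^ a * (w : T)))⁻¹ - rP H (P j') (ch χ) (φ (z ^ a * (w : T)))⁻¹))
      = ∑ w ∈ Om ↥(Subgroup.zpowers z) p, ∑ w' ∈ Om ↥(Subgroup.zpowers z) p,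
        (rP H (P j) (ch χ) (φ (z ^ a * (w : T))) - rP H (P j') (ch χ) (φ (z ^ a * (w : T)))) *
        (rP H (P j) (ch χ) (φ (z ^ a * (w' : T)))⁻¹ -
          rP H (P j') (ch χ) (φ (z ^ a * (w' : T)))⁻¹) := fun χ => sum_mul_sum _ _ _ _
  rw [sum_congr rfl fun χ _ => e2 χ, sum_comm]
  have e3 : ∀ w ∈ Om ↥(Subgroup.zpowers z) p,
      ∑ χ : Ir (KW p k) A, ∑ w' ∈ Om ↥(Subgroup.zpowers z) p,
        (rP H (P j) (ch χ) (φ (z ^ a * (w : T))) - rP H (P j') (ch χ) (φ (z ^ a * (w : T)))) *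
        (rP H (P j) (ch χ) (φ (z ^ a * (w' : T)))⁻¹ -
          rP H (P j') (ch χ) (φ (z ^ a * (w' : T)))⁻¹) = 2 * (p : KW p k) ^ 2 := by
    intro w hw
    rw [sum_comm, sum_congr rfl fun w' hw' => hone w hw w' hw', sum_ite_eq, if_pos hw]
  rw [sum_congr rfl e3, sum_const, card_Om hz1 hz2, nsmul_eq_mul]
  ring

end

end Pool.Agent.Lib.P0c8ca5.Ex.V5
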