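import Mathlib
import Pool.Agent.Lib.P0c8ca5Ex.ZEb
import Pool.Agent.Lib.P0c8ca5Ex.ZDa
import Pool.Agent.Lib.P0c8ca5Ex.YQ

/-!
# V5La: local columns at a central subgroup, first part

`R` is central, the inertial quotient is free outside `R`. For integers `e χ` (`χ ∈ IR φ R B`) with `∑_χ e χ ψ χ u = 0` for all `u ∉ R`
the function `X_e = ∑_χ e χ ch χ` vanishes at the elements `x` with no `φ z x` (`z ∈ R`) `p`-regular (`xe_zero`: the local blocks at
`u ∉ R` are nilpotent), so `P_e = |R| rg p X_e` is a generalized character of the block (`pe_mem`) with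
`ip P_e P_e' = |R| ∑ e e'` (`pe_pe`) and `ip (ch χ) P_e = e χ` (`pe_ch`).
-/

set_option linter.unusedSectionVars false

namespace Pool.Agent.Lib.P0c8ca5.Ex

open MonoidAlgebra YJAux YSaAux YPbAux YPcAux ZEAux

/-- the combination with the coefficients `e` -/
noncomputable def Xe {p : ℕ} [Fact p.Prime] {k : Type*} [Field k] [IsAlgClosed k] [CharP k p]
    {A : Type*} [Group A] [Finite A] {T : Type*} [CommGroup T] [Fintype T]
    {φ : T →* A} {R : Subgroup T} {B : MonoidAlgebra (OW p k) A} (e : IR φ R B → ℤ) (x : A) :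
    KW p k := ∑ χ : IR φ R B, (e χ : KW p k) * ch χ.1 x

/-- the truncated combination -/
noncomputable def Pe {p : ℕ} [Fact p.Prime] {k : Type*} [Field k] [IsAlgClosed k] [CharP k p]
    {A : Type*} [Group A] [Finite A] {T : Type*} [CommGroup T] [Fintype T]
    {φ : T →* A} {R : Subgroup T} {B : MonoidAlgebra (OW p k) A} (e : IR φ R B → ℤ) (x : A) :
    KW p k := (Nat.card R : KW p k) * rg p (Xe e) x

namespace V5Ax

section
variable {p : ℕ} [Fact p.Prime] {k : Type*} [Field k] [IsAlgClosed k] [CharP k p]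
  {A : Type*} [Group A] [Finite A] {T : Type*} [CommGroup T] [Fintype T]
  {φ : T →* A} {b f i : MonoidAlgebra k A} {D : Subgroup A} {R : Subgroup T}
  {G : Subgroup T → A → KW p k} {B : MonoidAlgebra (OW p k) A}

theorem xe_mem (hB : CenL b B) (e : IR φ R B → ℤ) : Xe e ∈ VA (p := p) b :=
  YPaAux.comb_mem hB (fun χ => (e χ : KW p k)) fun χ => ⟨e χ, rfl⟩

theorem xe_ker (e : IR φ R B → ℤ) {z : T} (hz : z ∈ R) (x : A) : Xe e (φ z * x) = Xe e x := by
  unfold Xe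
  refine Finset.sum_congr rfl fun χ _ => ?_
  rw [χ.2.1 z hz x]

theorem ip_xe (e : IR φ R B → ℤ) (Y : A → KW p k) :
    ip (Xe e) Y = ∑ χ : IR φ R B, (e χ : KW p k) * ip (ch χ.1) Y := by
  have h1 : Xe e = fun x => ∑ χ : IR φ R B, ((e χ : KW p k) • ch χ.1) x := rfl
  rw [h1, ip_sum]
  exact Finset.sum_congr rfl fun χ _ => ip_smul _ _ _

theorem ip_xe_ch (e : IR φ R B → ℤ) (χ : IR φ R B) : ip (Xe e) (ch χ.1) = (e χ : KW p k) := by
  classical
  rw [ip_xe, Finset.sum_eq_single χ]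
  · rw [ip_ch, if_pos rfl, mul_one]
  · intro χ' _ hne
    rw [ip_ch, if_neg (fun h => hne (Subtype.ext h)), mul_zero]
  · intro h
    exact absurd (Finset.mem_univ _) h

theorem ip_xe_xe (e e' : IR φ R B → ℤ) :
    ip (Xe e) (Xe e') = ((∑ χ : IR φ R B, e χ * e' χ : ℤ) : KW p k) := by
  rw [ip_xe, Int.cast_sum]
  refine Finset.sum_congr rfl fun χ _ => ?_
  rw [ip_comm, ip_xe_ch, Int.cast_mul]

theorem rwv_xe {ψ : IR φ R B → T → KW p k} (hψ : Rows φ D f R G B ψ) {e : IR φ R B → ℤ} {u : T}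
    (hu : u ∉ R) (h0 : ∑ χ : IR φ R B, (e χ : KW p k) * ψ χ u = 0) :
    rwv φ G R (Xe e) u = 0 := by
  have h1 : rwv φ G R (Xe e) u = ∑ χ : IR φ R B, (e χ : KW p k) * rwv φ G R (ch χ.1) u :=
    YTbAux.rwv_sum Finset.univ (fun χ : IR φ R B => (e χ : KW p k)) (fun χ => ch χ.1) u
  refine (h1.trans (Finset.sum_congr rfl fun χ _ => ?_)).trans h0
  rw [hψ.out χ u hu]

/-- the order of the inertial quotient at the places outside `R` -/
theorem eQ_free (h : Stp φ b D f i R G)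
    (hfree : ∀ α ∈ EG φ D f, ∀ u : T, u ∉ R → α u = u → α = 1) {u : T} (hu : u ∉ R) :
    eQ φ D f (R ⊔ Subgroup.zpowers u) = 1 := by
  rw [(eQ_sup h.cen h.inj u).1, st, Nat.card_eq_one_iff_unique]
  refine ⟨⟨fun a c => ?_⟩, ⟨⟨1, rfl⟩⟩⟩
  exact Subtype.ext (Subtype.ext ((hfree _ a.1.2 u hu a.2).trans (hfree _ c.1.2 u hu c.2).symm))

open Classical in
/-- the columns of `X_e` outside `R` vanish -/
theorem cut_xe (hp2 : p ≠ 2) (h : Stp φ b D f i R G)
    (hfree : ∀ α ∈ EG φ D f, ∀ u : T, u ∉ R → α u = u → α = 1) (hB : CenL b B)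
    {BB : ∀ H : Subgroup A, MonoidAlgebra (OW p k) ↥H}
    (hBB : ∀ u c, LbH (C1 (φ u)) i c → CenL (dnr (C1 (φ u)) c) (BB (C1 (φ u))))
    {ψ : IR φ R B → T → KW p k} (hψ : Rows φ D f R G B ψ) {e : IR φ R B → ℤ}
    (h0 : ∀ u, u ∉ R → ∑ χ : IR φ R B, (e χ : KW p k) * ψ χ u = 0) {u : T} (hu : u ∉ R) {s : A}
    (hs : s ∈ C1 (φ u)) (hsp : Preg p s) :
    cut (C1 (φ u)) (BB (C1 (φ u))) (Xe e) (φ u * s) = 0 := by
  have hT := YPaAux.isPGroup_T h
  have hX := (xe_mem hB e).1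
  obtain ⟨c, hc⟩ := exists_lbH h.src (YFAux.phi_mem h u)
  have hcQ : LbH (cq φ (R ⊔ Subgroup.zpowers u)) i c := by
    rw [cq_eq h.cen]
    exact hc
  have hBQ : CenL (dnr (cq φ (R ⊔ Subgroup.zpowers u)) c)
      (BB (cq φ (R ⊔ Subgroup.zpowers u))) := by
    have h1 : ∀ H, H = C1 (φ u) → CenL (dnr H c) (BB H) := by
      rintro H rfl
      exact hBB u c hc
    exact h1 _ (cq_eq h.cen u)
  obtain ⟨P, hRP, hPQ, hcard, hg⟩ := YSaAux.exists_P (Fact.out : p.Prime) hT hu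
  have hT0 : (Fintype.card T : KW p k) ≠ 0 := Nat.cast_ne_zero.2 Fintype.card_ne_zero
  have heQ := eQ_free h hfree hu
  have hok := h.ok _ (YFAux.lt_sup hu)
  -- the `Wf` vanish
  have hW : ∀ v, R ⊔ Subgroup.zpowers v = R ⊔ Subgroup.zpowers u →
      Wf p (cq φ (R ⊔ Subgroup.zpowers u))
        (cut _ (BB (cq φ (R ⊔ Subgroup.zpowers u))) (Xe e))
        (cut _ (BB (cq φ (R ⊔ Subgroup.zpowers u))) (Xe e)) (φ v) = 0 := by
    intro v hv
    have hvR := YPcAux.fib_notMem hu hv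
    have h1 := loc_id' h hvR hv hcQ hBQ (N := fun _ _ => 0) (fun _ _ _ => rfl)
      (fun s t hs ht => by
        rw [heQ, Nat.cast_one, mul_one, Int.cast_zero, mul_zero, add_zero]
        exact eq_one hp2 h.src h.inj h.ran heQ hok hcQ (YGAux.ch_mem_VA hBQ hs) (ch t)) hX hX
    rw [rwv_xe hψ hvR (h0 v hvR), zero_mul, zero_add, heQ, Nat.cast_one, mul_one] at h1
    have h2 : ∑ s : Ir (KW p k) ↥(cq φ (R ⊔ Subgroup.zpowers u)),
        ∑ t : Ir (KW p k) ↥(cq φ (R ⊔ Subgroup.zpowers u)), (((0 : ℤ) : KW p k) *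
        (xs φ _ (BB (cq φ (R ⊔ Subgroup.zpowers u))) (Xe e) s v *
          xs φ _ (BB (cq φ (R ⊔ Subgroup.zpowers u))) (Xe e) t v⁻¹)) = 0 := by
      refine Finset.sum_eq_zero fun s _ => Finset.sum_eq_zero fun t _ => ?_
      rw [Int.cast_zero, zero_mul]
    rw [h2, mul_zero] at h1
    exact (mul_eq_zero.1 h1).resolve_left hT0
  have huQ : u ∈ R ⊔ Subgroup.zpowers u := Subgroup.mem_sup_right (Subgroup.mem_zpowers u)
  have key : ∀ H : Subgroup A, H = cq φ (R ⊔ Subgroup.zpowers u) → s ∈ H →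
      cut H (BB H) (Xe e) (φ u * s) = 0 := by
    rintro H rfl hsH
    exact YPbAux.col_zero hcard hPQ hBQ hX (fun v hv => hW v ((hg v v.2).1 fun h1 =>
      hv (Subgroup.mem_subgroupOf.2 h1))) huQ ((hg u huQ).2 rfl)
      (y := ⟨s, hsH⟩) ((FIAux.preg_coe' (⟨s, hsH⟩ : ↥(cq φ (R ⊔ Subgroup.zpowers u)))).1 hsp)
  exact key _ (cq_eq h.cen u).symm hs

/-- `X_e` vanishes outside `φ R` times the `p`-regular elements -/
theorem xe_zero (hp2 : p ≠ 2) (h : Stp φ b D f i R G)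
    (hfree : ∀ α ∈ EG φ D f, ∀ u : T, u ∉ R → α u = u → α = 1) (hB : CenL b B)
    {ψ : IR φ R B → T → KW p k} (hψ : Rows φ D f R G B ψ) {e : IR φ R B → ℤ}
    (h0 : ∀ u, u ∉ R → ∑ χ : IR φ R B, (e χ : KW p k) * ψ χ u = 0) {x : A}
    (hx : ∀ z ∈ R, ¬ Preg p (φ z * x)) : Xe e x = 0 := by
  obtain ⟨BB, hBB⟩ := exists_BB h.src h.ran
  exact Ex.van h.src h.inj h.ran h.cen hBB (xe_mem hB e)
    (fun u hu s hs hsp => cut_xe hp2 h hfree hB hBB hψ h0 hu hs hsp) hx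

theorem ip_pe (e : IR φ R B → ℤ) (Y : A → KW p k) :
    ip (Pe e) Y = (Nat.card R : KW p k) * ip (rg p (Xe e)) Y := by
  rw [← ip_smul]
  rfl

theorem ip_rgxe (e : IR φ R B → ℤ) (Y : A → KW p k) :
    ip (rg p (Xe e)) Y = ∑ χ : IR φ R B, (e χ : KW p k) * ip (rg p (ch χ.1)) Y := by
  have h1 : rg p (Xe e) = fun x => ∑ χ : IR φ R B, ((e χ : KW p k) • rg p (ch χ.1)) x := by
    funext x
    by_cases hx : Preg p x
    · rw [rg_of hx, Xe]
      exact Finset.sum_congr rfl fun χ _ => by rw [Pi.smul_apply, rg_of hx, smul_eq_mul]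
    · rw [rg_not hx]
      exact (Finset.sum_eq_zero fun χ _ => by rw [Pi.smul_apply, rg_not hx, smul_zero]).symm
  rw [h1, ip_sum]
  exact Finset.sum_congr rfl fun χ _ => ip_smul _ _ _

theorem pe_reg (e : IR φ R B → ℤ) {x : A} (hx : ¬ Preg p x) : Pe e x = 0 := by
  rw [Pe, rg_not hx, mul_zero]

section
variable (hp2 : p ≠ 2) (h : Stp φ b D f i R G)
    (hfree : ∀ α ∈ EG φ D f, ∀ u : T, u ∉ R → α u = u → α = 1) (hB : CenL b B)
    {ψ : IR φ R B → T → KW p k} (hψ : Rows φ D f R G B ψ) {e : IR φ R B → ℤ}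
    (h0 : ∀ u, u ∉ R → ∑ χ : IR φ R B, (e χ : KW p k) * ψ χ u = 0)

include hp2 h hfree hB hψ h0

theorem ip_rgxe_of {Y : A → KW p k} (hY : ∀ z ∈ R, ∀ x, Y (φ z * x) = Y x) :
    (Nat.card R : KW p k) * ip (rg p (Xe e)) Y = ip (Xe e) Y :=
  (ip_RA h.inj (isP_T h.src h.inj h.ran) h.cen
    (fun _ hz x => xe_ker e hz x) hY (fun _ hx => xe_zero hp2 h hfree hB hψ h0 hx)).symm

/-- `P_e` is in the block -/
theorem pe_mem : Pe e ∈ VA (p := p) b := by
  have hMc := xe_mem hB e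
  have hTp := isP_T h.src h.inj h.ran
  refine ⟨mem_V_of_int (fun g x => ?_) fun χ => ?_, fun B' hB' χ hχ => ?_⟩
  · rw [Pe, Pe, rg_conj (V_conj hMc.1)]
  · have hZp : IsPGroup p ↥(R.map φ) := (hTp.to_subgroup R).map φ
    obtain ⟨m, hm⟩ := mix (p := p) hZp (fun z hz a => by
      obtain ⟨t, ht, rfl⟩ := Subgroup.mem_map.1 hz
      exact h.cen t ht a) hMc.1 (ch_mem χ) (fun z hz x => by
      obtain ⟨t, ht, rfl⟩ := Subgroup.mem_map.1 hz
      exact xe_ker e ht x) (fun x hx => xe_zero hp2 h hfree hB hψ h0 fun z hz =>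
        hx (φ z) (Subgroup.mem_map_of_mem φ hz))
    refine ⟨m, ?_⟩
    have h1 : Nat.card ↥(R.map φ) = Nat.card R :=
      (Nat.card_congr (R.equivMapOfInjective φ h.inj).toEquiv).symm
    rw [ip_pe, ← h1, hm]
  · have h1 : B' = B := cenL_unique hB' hB
    subst h1
    rw [ip_pe, ip_rgxe, Finset.sum_eq_zero, mul_zero]
    intro χ' _
    rw [bo hB χ'.2.2 hχ, mul_zero]

/-- the multiplicities of `P_e` -/
theorem pe_ch (χ : IR φ R B) : ip (ch χ.1) (Pe e) = (e χ : KW p k) := by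
  rw [ip_comm, ip_pe, ip_rgxe_of hp2 h hfree hB hψ h0 χ.2.1, ip_xe_ch]

/-- the Gram matrix of the `P_e` -/
theorem pe_pe (e' : IR φ R B → ℤ) :
    ip (Pe e) (Pe e') = (Nat.card R : KW p k) * ((∑ χ : IR φ R B, e χ * e' χ : ℤ) : KW p k) := by
  have h1 : ip (rg p (Xe e)) (Pe e') = ip (Pe e') (Xe e) := by
    rw [ip_rg, ip_comm]
    congr 1
    exact rg_eq fun x hx => pe_reg e' hx
  rw [ip_pe, h1, ip_pe, YGAux.ip_rg_comm,
    ip_rgxe_of hp2 h hfree hB hψ h0 (fun z hz x => xe_ker e' hz x), ip_xe_xe]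

end

end

end V5Ax

end Pool.Agent.Lib.P0c8ca5.Ex
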