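import Mathlib
import Pool.Agent.Lib.P0c8ca5Ex.V5La
import Pool.Agent.Lib.P0c8ca5Ex.YOa
import Pool.Agent.Lib.P0c8ca5Ex.YTb

/-!
# V5Lb: the rows at a central subgroup if the inertial quotient is free outside it

`exists_ac`: every row is a constant `a χ ≠ 0`, or `ψ χ 1 = |E| c χ` with `c χ = ± 1`. `cnt_J`: if `|E| ≤ l(b)` then there are `|E|` constant
rows, `a χ = ± 1`, and the idempotents of the block have a rank at most `|E|`.
-/

set_option linter.unusedSectionVars false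

namespace Pool.Agent.Lib.P0c8ca5.Ex

open MonoidAlgebra YJAux YSaAux YPbAux YPcAux ZEAux

namespace V5Bx

section
variable {T : Type*} [CommGroup T] [Fintype T] {K : Type*} [Field K]

/-- a character fixed by a fixed point free automorphism is trivial -/
theorem dual_free {p : ℕ} (hp : p.Prime) (hT : IsPGroup p T) {E : Subgroup (MulAut T)}
    [Finite E] (hE : ¬ p ∣ Nat.card E) {R : Subgroup T}
    (hfree : ∀ α ∈ E, ∀ u : T, u ∉ R → α u = u → α = 1) {α : MulAut T} (hα : α ∈ E)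
    (hα1 : α ≠ 1) {l : T →* Kˣ} (hlR : ∀ z ∈ R, l z = 1) (hl : ∀ u, l (α u) = l u) : l = 1 := by
  set n := Nat.card E with hn
  have hαn : α ^ n = 1 := YLx.pow_card_E ⟨α, hα⟩
  have hlj : ∀ j u, l ((α ^ j) u) = l u := by
    intro j
    induction j with
    | zero => intro u; rw [pow_zero, MulAut.one_apply]
    | succ j ih => intro u; rw [pow_succ, MulAut.mul_apply, ih, hl]
  ext w
  rw [MonoidHom.one_apply]
  congr 1
  -- the norm
  set N : T := ∏ j ∈ Finset.range n, (α ^ j) w with hN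
  have hNfix : α N = N := by
    have h1 : α N = ∏ j ∈ Finset.range n, (α ^ (j + 1)) w := by
      rw [hN, map_prod]
      exact Finset.prod_congr rfl fun j _ => by rw [pow_succ', MulAut.mul_apply]
    have h2 := Finset.prod_range_succ (fun j => (α ^ j) w) n
    have h3 := Finset.prod_range_succ' (fun j => (α ^ j) w) n
    rw [h2, hαn, MulAut.one_apply, pow_zero, MulAut.one_apply] at h3
    rw [h1, hN]
    exact (mul_right_cancel h3).symm
  have hNR : N ∈ R := by
    by_contra h1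
    exact hα1 (hfree α hα N h1 hNfix)
  have h1 : l w ^ n = 1 := by
    rw [← hlR N hNR, hN, map_prod, Finset.prod_congr rfl fun j _ => hlj j w,
      Finset.prod_const, Finset.card_range]
  obtain ⟨M, hM⟩ := hT w
  have h2 : l w ^ p ^ M = 1 := by rw [← map_pow, hM, map_one]
  have hcop : Nat.Coprime n (p ^ M) :=
    Nat.Coprime.pow_right M ((hp.coprime_iff_not_dvd).2 hE).symm
  have h3 : orderOf (l w) ∣ 1 := by
    rw [← hcop]
    exact Nat.dvd_gcd (orderOf_dvd_of_pow_eq_one h1) (orderOf_dvd_of_pow_eq_one h2)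
  exact orderOf_eq_one_iff.1 (Nat.dvd_one.1 h3)

end

section
variable {p : ℕ} [Fact p.Prime] {k : Type*} [Field k] [IsAlgClosed k] [CharP k p]
  {A : Type*} [Group A] [Finite A] {T : Type*} [CommGroup T] [Fintype T]
  {φ : T →* A} {b f i : MonoidAlgebra k A} {D : Subgroup A} {R : Subgroup T}
  {G : Subgroup T → A → KW p k} {B : MonoidAlgebra (OW p k) A}

open Classical in
theorem ac_of (h : Stp φ b D f i R G) (hE : ¬ p ∣ eN D f)
    (hfree : ∀ α ∈ EG φ D f, ∀ u : T, u ∉ R → α u = u → α = 1)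
    {ψ : IR φ R B → T → KW p k} (hψ : Rows φ D f R G B ψ)
    (hne : ∀ χ : IR φ R B, ∃ u, ψ χ u ≠ 0) (χ : IR φ R B) :
    ∃ a c : ℤ, mlt (ψ χ) 1 = (a : KW p k) ∧
      ψ χ 1 = (a : KW p k) + (Nat.card (EG φ D f) : KW p k) * (c : KW p k) ∧
      ((a ≠ 0 ∧ c = 0 ∧ ∀ u, ψ χ u = (a : KW p k)) ∨ (a = 0 ∧ c ^ 2 = 1)) := by
  have := finite_EG (φ := φ) (D := D) (f := f)
  have : Fintype ↥(EG φ D f) := Fintype.ofFinite _
  have hp : p.Prime := Fact.out
  have hT := YPaAux.isPGroup_T h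
  have hEc : ¬ p ∣ Nat.card (EG φ D f) := by rw [card_EG h.inj h.ran]; exact hE
  by_cases H : ∃ l : T →* (KW p k)ˣ, l ≠ 1 ∧ mlt (ψ χ) l ≠ 0
  · obtain ⟨l, hl1, hl0⟩ := H
    have hlR : ∀ z ∈ R, l z = 1 := by
      intro z hz
      by_contra h1
      exact hl0 (mlt_out hψ hz h1 χ)
    obtain ⟨g1, g2⟩ := gram_l' h hE hψ hlR
    have hcard : (Finset.univ.filter fun α : EG φ D f =>
        ∀ u, l ((α : MulAut T) u) = l u).card = 1 := by
      rw [Finset.card_eq_one]
      refine ⟨1, ?_⟩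
      ext α
      rw [Finset.mem_filter, Finset.mem_singleton]
      constructor
      · rintro ⟨-, h1⟩
        by_contra h2
        exact hl1 (dual_free hp hT hEc hfree α.2 (fun h3 => h2 (Subtype.ext h3)) hlR h1)
      · rintro rfl
        exact ⟨Finset.mem_univ _, fun u => rfl⟩
    rw [hcard, Nat.cast_one] at g2
    have hint : ∀ χ' : IR φ R B, ∃ z : ℤ, mlt (ψ χ') l = (z : KW p k) := fun χ' =>
      mem_vir_iff.1 (hψ.vir χ') l
    choose M hM using hint
    have hM2 : ∑ χ', M χ' ^ 2 = 1 := by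
      have h1 : ((∑ χ', M χ' ^ 2 : ℤ) : KW p k) = ((1 : ℤ) : KW p k) := by
        rw [Int.cast_one, ← g2, Int.cast_sum]
        exact Finset.sum_congr rfl fun χ' _ => by rw [hM, Int.cast_pow]
      exact_mod_cast h1
    have hMχ : M χ ≠ 0 := fun h1 => hl0 (by rw [hM, h1, Int.cast_zero])
    have hMχ2 : (1 : ℤ) ≤ M χ ^ 2 := by
      have h1 : 0 < M χ ^ 2 := by positivity
      omega
    rw [← Finset.add_sum_erase _ _ (Finset.mem_univ χ)] at hM2
    have hrest : 0 ≤ ∑ χ' ∈ Finset.univ.erase χ, M χ' ^ 2 :=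
      Finset.sum_nonneg fun _ _ => sq_nonneg _
    have hMsq : M χ ^ 2 = 1 := by omega
    have hM0 : ∀ χ', χ' ≠ χ → M χ' = 0 := by
      intro χ' hne'
      have h1 : ∑ χ' ∈ Finset.univ.erase χ, M χ' ^ 2 = 0 := by omega
      have h2 := (Finset.sum_eq_zero_iff_of_nonneg fun χ' _ => sq_nonneg (M χ')).1 h1 χ'
        (Finset.mem_erase.2 ⟨hne', Finset.mem_univ _⟩)
      exact pow_eq_zero_iff (two_ne_zero) |>.1 h2
    have hrow : ∀ u, ψ χ u = (M χ : KW p k) *
        ∑ α : EG φ D f, ((l ((α : MulAut T) u) : (KW p k)ˣ) : KW p k) := by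
      intro u
      rw [← g1 u, Finset.sum_eq_single χ]
      · rw [hM, ← mul_assoc]
        have h1 : (M χ : KW p k) * (M χ : KW p k) = 1 := by
          rw [← Int.cast_mul, ← sq, hMsq, Int.cast_one]
        rw [h1, one_mul]
      · intro χ' _ hne'
        rw [hM, hM0 χ' hne', Int.cast_zero, zero_mul]
      · intro h1
        exact absurd (Finset.mem_univ _) h1
    refine ⟨0, M χ, ?_, ?_, Or.inr ⟨rfl, hMsq⟩⟩
    · have h1 : ∑ u : T, ψ χ u = 0 := by
        rw [Finset.sum_congr rfl fun u _ => hrow u, ← Finset.mul_sum, Finset.sum_comm,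
          Finset.sum_eq_zero, mul_zero]
        intro α _
        have h2 : ∑ u : T, ((l ((α : MulAut T) u) : (KW p k)ˣ) : KW p k) = ∑ u : T, chr l u :=
          Equiv.sum_comp ((α : MulAut T) : T ≃* T).toEquiv (chr l)
        rw [h2, sum_chr l hl1]
      have h2 : mlt (ψ χ) 1 = (Fintype.card T : KW p k)⁻¹ * ∑ u : T, ψ χ u := by
        unfold mlt
        congr 1
        refine Finset.sum_congr rfl fun u _ => ?_
        have h3 : chr (1 : T →* (KW p k)ˣ) u⁻¹ = 1 := by simp [chr]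
        rw [h3, mul_one]
      rw [h2, h1, mul_zero, Int.cast_zero]
    · rw [hrow 1, Int.cast_zero, zero_add, mul_comm]
      congr 1
      have h1 : ∀ α : EG φ D f, ((l ((α : MulAut T) 1) : (KW p k)ˣ) : KW p k) = 1 := by
        intro α
        rw [map_one, map_one, Units.val_one]
      rw [Finset.sum_congr rfl fun α _ => h1 α, Finset.sum_const, Finset.card_univ,
        nsmul_eq_mul, mul_one, Nat.card_eq_fintype_card]
  · push Not at H
    obtain ⟨a, ha⟩ := mem_vir_iff.1 (hψ.vir χ) 1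
    have hu : ∀ u, ψ χ u = (a : KW p k) := by
      intro u
      rw [eq_sum_mlt (ψ χ) u, Finset.sum_eq_single (1 : T →* (KW p k)ˣ)]
      · have h3 : chr (1 : T →* (KW p k)ˣ) u = 1 := by simp [chr]
        rw [ha, h3, mul_one]
      · intro l _ hl
        rw [H l hl, zero_mul]
      · intro h1
        exact absurd (Finset.mem_univ _) h1
    refine ⟨a, 0, ha, ?_, Or.inl ⟨?_, rfl, hu⟩⟩
    · rw [hu, Int.cast_zero, mul_zero, add_zero]
    · rintro rfl
      obtain ⟨u, hu'⟩ := hne χ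
      exact hu' (by rw [hu, Int.cast_zero])

/-- the data of the rows -/
structure AC (ψ : IR φ R B → T → KW p k) (m : ℕ) (a c : IR φ R B → ℤ) : Prop where
  one : ∀ χ, ψ χ 1 = (a χ : KW p k) + (m : KW p k) * (c χ : KW p k)
  cs : ∀ χ, (a χ ≠ 0 ∧ c χ = 0 ∧ ∀ u, ψ χ u = (a χ : KW p k)) ∨ (a χ = 0 ∧ c χ ^ 2 = 1)
  sq : ∑ χ, a χ ^ 2 = m
  out : ∀ u, u ∉ R → ∑ χ, (c χ : KW p k) * ψ χ u = -1
  csq : (Nat.card R : ℤ) * (1 + m * ∑ χ, c χ ^ 2) = Fintype.card T

theorem exists_ac (h : Stp φ b D f i R G) (hE : ¬ p ∣ eN D f)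
    (hfree : ∀ α ∈ EG φ D f, ∀ u : T, u ∉ R → α u = u → α = 1)
    {ψ : IR φ R B → T → KW p k} (hψ : Rows φ D f R G B ψ)
    (hne : ∀ χ : IR φ R B, ∃ u, ψ χ u ≠ 0) :
    ∃ a c : IR φ R B → ℤ, AC ψ (Nat.card (EG φ D f)) a c := by
  classical
  have := finite_EG (φ := φ) (D := D) (f := f)
  have : Fintype ↥(EG φ D f) := Fintype.ofFinite _
  choose a c h1 h2 h3 using ac_of h hE hfree hψ hne
  have hE0 : (Nat.card (EG φ D f) : KW p k) ≠ 0 := Nat.cast_ne_zero.2 Nat.card_pos.ne'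
  obtain ⟨g1, g2⟩ := gram_l' h hE hψ (l := 1) (fun z _ => rfl)
  have hsq : ∑ χ, a χ ^ 2 = ((Nat.card (EG φ D f) : ℕ) : ℤ) := by
    have e1 : (Finset.univ.filter fun α : EG φ D f =>
        ∀ u, (1 : T →* (KW p k)ˣ) ((α : MulAut T) u) = (1 : T →* (KW p k)ˣ) u).card
        = Nat.card (EG φ D f) := by
      rw [Finset.filter_true_of_mem (fun α _ u => rfl), Finset.card_univ, Nat.card_eq_fintype_card]
    rw [e1] at g2
    have e2 : ((∑ χ, a χ ^ 2 : ℤ) : KW p k) = (((Nat.card (EG φ D f) : ℕ) : ℤ) : KW p k) := by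
      rw [Int.cast_natCast, ← g2, Int.cast_sum]
      exact Finset.sum_congr rfl fun χ _ => by rw [h1, Int.cast_pow]
    exact_mod_cast e2
  have hac : ∀ χ, a χ * c χ = 0 := by
    intro χ
    rcases h3 χ with ⟨-, h4, -⟩ | ⟨h4, -⟩
    · rw [h4, mul_zero]
    · rw [h4, zero_mul]
  refine ⟨a, c, h2, h3, hsq, fun u hu => ?_, ?_⟩
  · -- outside `R`
    have e1 : ∑ χ, ψ χ 1 * ψ χ u = 0 := by
      have e2 := (hψ.gram 1 u⁻¹).2 (by
        rintro ⟨α, -, z, hz, e3⟩
        apply hu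
        rw [map_one, mul_one] at e3
        rw [← inv_inv u, e3]
        exact R.inv_mem hz)
      rw [inv_inv] at e2
      exact e2
    have e2 : ∑ χ, (a χ : KW p k) * ψ χ u = (Nat.card (EG φ D f) : KW p k) := by
      have e3 := g1 u
      have e4 : ∀ α : EG φ D f, (((1 : T →* (KW p k)ˣ) ((α : MulAut T) u) : (KW p k)ˣ) : KW p k)
          = 1 := fun α => rfl
      rw [Finset.sum_congr rfl fun α _ => e4 α, Finset.sum_const, Finset.card_univ,
        nsmul_eq_mul, mul_one, ← Nat.card_eq_fintype_card] at e3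
      rw [← e3]
      exact Finset.sum_congr rfl fun χ _ => by rw [h1]
    have e3 : ∑ χ, ψ χ 1 * ψ χ u = ∑ χ, (a χ : KW p k) * ψ χ u
        + (Nat.card (EG φ D f) : KW p k) * ∑ χ, (c χ : KW p k) * ψ χ u := by
      rw [Finset.mul_sum, ← Finset.sum_add_distrib]
      exact Finset.sum_congr rfl fun χ _ => by rw [h2]; ring
    rw [e1, e2] at e3
    have e4 : (Nat.card (EG φ D f) : KW p k) * (1 + ∑ χ, (c χ : KW p k) * ψ χ u) = 0 := by
      rw [mul_add, mul_one]
      exact e3.symm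
    have e5 := (mul_eq_zero.1 e4).resolve_left hE0
    exact (neg_eq_of_add_eq_zero_right e5).symm
  · have e1 := (hψ.gram 1 1).1 ⟨1, Subgroup.one_mem _, 1, R.one_mem, by simp⟩
    rw [inv_one] at e1
    have e2 : (Nat.card {α : EG φ D f // (α : MulAut T) 1 = 1}) = Nat.card (EG φ D f) :=
      Nat.card_congr (Equiv.subtypeUnivEquiv fun α => map_one _)
    rw [e2] at e1
    have e3 : ∑ χ, ψ χ 1 * ψ χ 1 = (Nat.card (EG φ D f) : KW p k) *
        (1 + (Nat.card (EG φ D f) : KW p k) * ∑ χ, (c χ : KW p k) ^ 2) := by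
      have e4 : ∀ χ, ψ χ 1 * ψ χ 1 = ((a χ ^ 2 : ℤ) : KW p k)
          + (Nat.card (EG φ D f) : KW p k) * ((Nat.card (EG φ D f) : KW p k)
            * (c χ : KW p k) ^ 2) := by
        intro χ
        have e5 : (a χ : KW p k) * (c χ : KW p k) = 0 := by
          rw [← Int.cast_mul, hac, Int.cast_zero]
        rw [h2, Int.cast_pow]
        linear_combination (2 * (Nat.card (EG φ D f) : KW p k)) * e5
      rw [Finset.sum_congr rfl fun χ _ => e4 χ, Finset.sum_add_distrib, ← Finset.mul_sum,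
        ← Finset.mul_sum, ← Int.cast_sum, hsq, Int.cast_natCast]
      ring
    rw [e3] at e1
    have e6 : (Nat.card R : KW p k) * (1 + (Nat.card (EG φ D f) : KW p k) *
        ∑ χ, (c χ : KW p k) ^ 2) = (Fintype.card T : KW p k) := by
      refine mul_right_cancel₀ hE0 ?_
      rw [← e1]
      ring
    have e7 : (((Nat.card R : ℤ) * (1 + (Nat.card (EG φ D f) : ℕ) * ∑ χ, c χ ^ 2) : ℤ) : KW p k)
        = ((Fintype.card T : ℤ) : KW p k) := by
      push_cast
      exact e6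
    exact_mod_cast e7

/-- an idempotent below the block -/
theorem mul_B (hB : CenL b B) {e : MonoidAlgebra (OW p k) A} (he : e * e = e)
    (heb : mapRingHom A (rdO p k) e * b = mapRingHom A (rdO p k) e) : e * B = e := by
  have h1 : (e - e * B) * (e - e * B) = e - e * B := by
    have h2 : e * B * e = e * B := by
      rw [mul_assoc, hB.cen, ← mul_assoc, he]
    have h3 : e * (e * B) = e * B := by rw [← mul_assoc, he]
    have h4 : e * B * (e * B) = e * B := by
      rw [← mul_assoc, h2, mul_assoc, hB.idem]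
    rw [sub_mul, mul_sub, mul_sub, he, h2, h3, h4, sub_self, sub_zero]
  have h2 : mapRingHom A (rdO p k) (e - e * B) = 0 := by
    rw [map_sub, map_mul, hB.red, heb, sub_self]
  have h3 := idem_zero h1 h2
  exact (sub_eq_zero.1 h3).symm

/-- the values at the `p`-regular elements in terms of the family -/
theorem reg_comb (hB : CenL b B) {n : ℕ} {F : Fin n → MonoidAlgebra (OW p k) A} (hF : Fam b F)
    {y : A} (hy : Preg p y) : ∃ m : Fin n → KW p k, ∀ χ : Ir (KW p k) A, chO χ B ≠ 0 →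
      ch χ y = ∑ j, m j * chO χ (F j) := by
  obtain ⟨r, ζ, ε, h1, -, h3⟩ := reg_dec (k := k) hy
  have h4 : ∀ t, ε t * B * (ε t * B) = ε t * B := by
    intro t
    calc ε t * B * (ε t * B) = ε t * (B * ε t) * B := by simp only [mul_assoc]
      _ = ε t * ε t * (B * B) := by rw [hB.cen]; simp only [mul_assoc]
      _ = ε t * B := by rw [h1, hB.idem]
  have h5 : ∀ t, mapRingHom A (rdO p k) (ε t * B) * b = mapRingHom A (rdO p k) (ε t * B) := by
    intro t
    have h6 : b * b = b := by rw [← hB.red, ← map_mul, hB.idem]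
    rw [map_mul, hB.red, mul_assoc, h6]
  choose m hm using fun t => hF.span _ (h4 t) (h5 t)
  refine ⟨fun j => ∑ t, algebraMap (OW p k) (KW p k) (ζ t) * m t j, fun χ hχ => ?_⟩
  rw [← YEAux.chO_single_ch, h3, map_sum]
  have h6 : ∀ t, chO χ (ζ t • ε t) = algebraMap (OW p k) (KW p k) (ζ t) *
      ∑ j, m t j * chO χ (F j) := by
    intro t
    rw [chO_smul, ← hB.chO_in hχ, hm]
  rw [Finset.sum_congr rfl fun t _ => h6 t]
  simp only [Finset.mul_sum, Finset.sum_mul]
  rw [Finset.sum_comm]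
  exact Finset.sum_congr rfl fun j _ => Finset.sum_congr rfl fun t _ => by ring

open Classical in
/-- **the count of the rows** -/
theorem cnt_J (h : Stp φ b D f i R G) (hE : ¬ p ∣ eN D f) (hB : CenL b B)
    {ψ : IR φ R B → T → KW p k} {a c : IR φ R B → ℤ}
    (hac : AC ψ (Nat.card (EG φ D f)) a c)
    (hl : Nat.card (EG φ D f) ≤ Nat.card (Quotient (irrInvSetoid (⊤ : Subgroup A) ⊤ b))) :
    (Finset.univ.filter fun χ => a χ ≠ 0).card = Nat.card (EG φ D f) ∧
    (∀ χ, a χ ≠ 0 → a χ ^ 2 = 1) ∧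
    ∃ (n : ℕ) (F : Fin n → MonoidAlgebra (OW p k) A), n ≤ Nat.card (EG φ D f) ∧ Fam b F ∧
      ∀ (j : Fin n) (χ : Ir (KW p k) A), chO χ B = 0 → chO χ (F j) = 0 := by
  have := finite_EG (φ := φ) (D := D) (f := f)
  have hE' : ¬ p ∣ Nat.card (EG φ D f) := by rwa [card_EG h.inj h.ran]
  set m := Nat.card (EG φ D f) with hm
  have hm0 : 0 < m := Nat.card_pos
  have hR0 : 0 < Nat.card R := Nat.card_pos
  set J := Finset.univ.filter fun χ => a χ ≠ 0 with hJ
  have hI : (Fintype.card (IR φ R B) : ℤ) = J.card + ∑ χ, c χ ^ 2 := by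
    have h1 : ∀ χ : IR φ R B, (1 : ℤ) = (if a χ ≠ 0 then 1 else 0) + c χ ^ 2 := by
      intro χ
      rcases hac.cs χ with ⟨h2, h3, -⟩ | ⟨h2, h3⟩
      · rw [if_pos h2, h3]
        norm_num
      · rw [if_neg (not_not.2 h2), h3]
        norm_num
    have h2 : (Fintype.card (IR φ R B) : ℤ) = ∑ _χ : IR φ R B, (1 : ℤ) := by
      rw [Finset.sum_const, Finset.card_univ, nsmul_eq_mul, mul_one]
    rw [h2, Finset.sum_congr rfl fun χ _ => h1 χ, Finset.sum_add_distrib, hJ,
      Finset.card_filter]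
    push_cast
    rfl
  have key : ∀ {n : ℕ} {E : Fin n → MonoidAlgebra (OW p k) A}, (∀ j, E j * E j = E j) →
      (∀ (j : Fin n) (χ : Ir (KW p k) A), chO χ B = 0 → chO χ (E j) = 0) →
      (LinearIndependent (KW p k) fun j => fun χ : Ir (KW p k) A => chO χ (E j)) →
      n ≤ J.card := by
    intro n E h1 h2 h3
    obtain ⟨t, h4, h5⟩ := YOaAux.count (φ := φ) (R := R) h hE' hB h1 h2 h3
    have hle : Nat.card R ≤ Fintype.card T := by
      rw [← Nat.card_eq_fintype_card]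
      exact Nat.le_of_dvd Nat.card_pos (Subgroup.card_subgroup_dvd_card R)
    have h6 : (Fintype.card T : ℤ) - Nat.card R ≤ Nat.card R * m * t := by
      have h7 : ((Fintype.card T - Nat.card R : ℕ) : ℤ) ≤ ((Nat.card R * m * t : ℕ) : ℤ) := by
        exact_mod_cast h5
      rw [Nat.cast_sub hle] at h7
      push_cast at h7
      exact h7
    have h7 : (Nat.card R : ℤ) * m * ∑ χ, c χ ^ 2 ≤ Nat.card R * m * t := by
      have h8 := hac.csq
      have h9 : (Nat.card R : ℤ) * m * ∑ χ, c χ ^ 2 = Fintype.card T - Nat.card R := by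
        rw [← h8]
        ring
      rw [h9]
      exact h6
    have h8 : (0 : ℤ) < Nat.card R * m := by positivity
    have h9 : ∑ χ, c χ ^ 2 ≤ (t : ℤ) := le_of_mul_le_mul_left h7 h8
    have h10 : ((t + n : ℕ) : ℤ) ≤ J.card + ∑ χ, c χ ^ 2 := by
      rw [← hI]
      exact_mod_cast h4
    push_cast at h10
    have h11 : (n : ℤ) ≤ J.card := by linarith
    exact_mod_cast h11
  have hJa : (J.card : ℤ) ≤ ∑ χ ∈ J, a χ ^ 2 := by
    rw [Finset.card_eq_sum_ones, Nat.cast_sum]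
    refine Finset.sum_le_sum fun χ hχ => ?_
    have h1 := (Finset.mem_filter.1 hχ).2
    have h2 : 0 < a χ ^ 2 := by positivity
    push_cast
    omega
  have hJs : ∑ χ ∈ J, a χ ^ 2 = (m : ℤ) := by
    rw [← hac.sq, hJ]
    refine (Finset.sum_subset (Finset.filter_subset _ _) fun χ _ hχ => ?_)
    rw [Finset.mem_filter, not_and, not_not] at hχ
    rw [hχ (Finset.mem_univ _)]
    norm_num
  have hJm : J.card ≤ m := by
    rw [hJs] at hJa
    exact_mod_cast hJa
  obtain ⟨n, E, hn, hE1, hE2, hE3⟩ := YOaAux.exists_famA h.src.root.blk hB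
  have hnJ := key hE1 hE2 hE3
  have hJeq : J.card = m := le_antisymm hJm (hl.trans (hn ▸ hnJ))
  obtain ⟨r, F, hF⟩ := exists_family (p := p) b
  have hF2 : ∀ (j : Fin r) (χ : Ir (KW p k) A), chO χ B = 0 → chO χ (F j) = 0 := by
    intro j χ hχ
    exact hB.chO_out hχ (mul_B hB (hF.idem j) (hF.below j))
  refine ⟨hJeq, ?_, r, F, (key hF.idem hF2 hF.indep).trans hJm, hF, hF2⟩
  intro χ hχ
  have h1 : ∑ χ ∈ J, (a χ ^ 2 - 1) = 0 := by
    rw [Finset.sum_sub_distrib, hJs, Finset.sum_const, hJeq]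
    simp
  have h2 : ∀ χ ∈ J, 0 ≤ a χ ^ 2 - 1 := by
    intro χ hχ
    have h3 := (Finset.mem_filter.1 hχ).2
    have h4 : 0 < a χ ^ 2 := by positivity
    omega
  have h3 := (Finset.sum_eq_zero_iff_of_nonneg h2).1 h1 χ
    (Finset.mem_filter.2 ⟨Finset.mem_univ _, hχ⟩)
  omega

end

end V5Bx

end Pool.Agent.Lib.P0c8ca5.Ex
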