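import Mathlib
import Pool.Agent.Lib.P0c8ca5Ex.V5Lb

/-!
# V5Lc: the local columns at a central subgroup

`R` is central, `R ≠ T`, the inertial quotient `E` (of order `m`) is free outside `R`, `m ≤ l(b)`. Then `Γ = ∑_j P_j` with `m` generalized characters
`P_j` of the block, supported on the `p`-regular elements, with the Gram matrix `|R| (δ + s)`, `|R| (1 + m s) = |T|`, and a combination `X` of the
characters of the block with `ip X P_j = 0` for all `j` vanishes at the `p`-regular elements.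
-/

set_option linter.unusedSectionVars false

namespace Pool.Agent.Lib.P0c8ca5.Ex

open MonoidAlgebra YJAux YSaAux YPbAux YPcAux ZEAux V5Ax V5Bx

namespace V5Cx

/-- kernels of linear maps -/
theorem ker_le {K V W U : Type*} [Field K] [AddCommGroup V] [Module K V] [FiniteDimensional K V]
    [AddCommGroup W] [Module K W] [FiniteDimensional K W] [AddCommGroup U] [Module K U]
    [FiniteDimensional K U] (v : V →ₗ[K] W) (w : V →ₗ[K] U)
    (h1 : Module.finrank K W ≤ Module.finrank K U) (hw : Function.Surjective w)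
    (h : v.ker ≤ w.ker) : w.ker ≤ v.ker := by
  have e1 := v.finrank_range_add_finrank_ker
  have e2 := w.finrank_range_add_finrank_ker
  have e3 : Module.finrank K w.range = Module.finrank K U := by
    rw [LinearMap.range_eq_top.2 hw, finrank_top]
  have e4 : Module.finrank K v.range ≤ Module.finrank K W := Submodule.finrank_le _
  have e5 := Submodule.finrank_mono h
  exact (Submodule.eq_of_le_of_finrank_eq h (by omega)).ge

section
variable {p : ℕ} [Fact p.Prime] {k : Type*} [Field k] [IsAlgClosed k] [CharP k p]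
  {A : Type*} [Group A] [Finite A] {T : Type*} [CommGroup T] [Fintype T]
  {φ : T →* A} {b f i : MonoidAlgebra k A} {D : Subgroup A} {R : Subgroup T}
  {G : Subgroup T → A → KW p k} {B : MonoidAlgebra (OW p k) A}

theorem ip_expand (a : Ir (KW p k) A → KW p k) (Y : A → KW p k) :
    ip (fun x => ∑ χ : Ir (KW p k) A, a χ * ch χ x) Y
      = ∑ χ : Ir (KW p k) A, a χ * ip (ch χ) Y := by
  have h1 : (fun x => ∑ χ : Ir (KW p k) A, a χ * ch χ x)
      = fun x => ∑ χ : Ir (KW p k) A, (a χ • ch χ) x := rfl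
  rw [h1, ip_sum]
  exact Finset.sum_congr rfl fun χ _ => ip_smul _ _ _

theorem ip_zero_of {X Y : A → KW p k} (hX : ∀ x, Preg p x → X x = 0)
    (hY : ∀ x, ¬ Preg p x → Y x = 0) : ip X Y = 0 := by
  rw [ip]
  have h1 : ∀ x, X x * Y x⁻¹ = 0 := by
    intro x
    by_cases hx : Preg p x
    · rw [hX x hx, zero_mul]
    · rw [hY x⁻¹ fun h2 => hx (preg_inv.1 h2), mul_zero]
  rw [sm_congr h1, sm_zero, mul_zero]

open Classical in
/-- the general statement on the family and functions with a diagonal matrix -/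
theorem van_of (hB : CenL b B) {m n : ℕ} (hnm : n ≤ m) {F : Fin n → MonoidAlgebra (OW p k) A}
    (hF : Fam b F) (hF2 : ∀ (j : Fin n) (χ : Ir (KW p k) A), chO χ B = 0 → chO χ (F j) = 0)
    {P : Fin m → A → KW p k} (hP1 : ∀ j, P j ∈ VA (p := p) b)
    (hP2 : ∀ j x, ¬ Preg p x → P j x = 0) {σ : Fin m → Ir (KW p k) A} {d : Fin m → KW p k}
    (hd : ∀ j j', d j * ip (ch (σ j)) (P j') = if j = j' then 1 else 0)
    {a : Ir (KW p k) A → KW p k} (ha : ∀ χ, chO χ B = 0 → a χ = 0)
    (h0 : ∀ j, ip (fun x => ∑ χ : Ir (KW p k) A, a χ * ch χ x) (P j) = 0) {y : A}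
    (hy : Preg p y) : ∑ χ : Ir (KW p k) A, a χ * ch χ y = 0 := by
  let v : (Ir (KW p k) A → KW p k) →ₗ[KW p k] (Fin n → KW p k) :=
    { toFun := fun a j => ∑ χ, a χ * chO χ (F j)
      map_add' := fun a a' => by
        funext j
        simp only [Pi.add_apply, add_mul, Finset.sum_add_distrib]
      map_smul' := fun c a => by
        funext j
        simp only [Pi.smul_apply, smul_eq_mul, RingHom.id_apply, Finset.mul_sum, mul_assoc] }
  let w : (Ir (KW p k) A → KW p k) →ₗ[KW p k] (Fin m → KW p k) :=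
    { toFun := fun a j => ∑ χ, a χ * ip (ch χ) (P j)
      map_add' := fun a a' => by
        funext j
        simp only [Pi.add_apply, add_mul, Finset.sum_add_distrib]
      map_smul' := fun c a => by
        funext j
        simp only [Pi.smul_apply, smul_eq_mul, RingHom.id_apply, Finset.mul_sum, mul_assoc] }
  have hv : ∀ a j, v a j = ∑ χ, a χ * chO χ (F j) := fun _ _ => rfl
  have hw : ∀ a j, w a j = ∑ χ, a χ * ip (ch χ) (P j) := fun _ _ => rfl
  -- vanishing at the `p`-regular elements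
  have hreg : ∀ a : Ir (KW p k) A → KW p k, (∀ χ, chO χ B = 0 → a χ = 0) → v a = 0 →
      ∀ y, Preg p y → ∑ χ : Ir (KW p k) A, a χ * ch χ y = 0 := by
    intro a ha hva y hy
    obtain ⟨t, ht⟩ := reg_comb hB hF hy
    have h1 : ∀ χ : Ir (KW p k) A, a χ * ch χ y = ∑ j, t j * (a χ * chO χ (F j)) := by
      intro χ
      by_cases hχ : chO χ B = 0
      · rw [ha χ hχ, zero_mul]
        exact (Finset.sum_eq_zero fun j _ => by rw [zero_mul, mul_zero]).symm
      · rw [ht χ hχ, Finset.mul_sum]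
        exact Finset.sum_congr rfl fun j _ => by ring
    rw [Finset.sum_congr rfl fun χ _ => h1 χ, Finset.sum_comm]
    refine Finset.sum_eq_zero fun j _ => ?_
    rw [← Finset.mul_sum, ← hv, hva, Pi.zero_apply, mul_zero]
  have hsurj : Function.Surjective w := by
    intro t
    refine ⟨fun χ => ∑ j, t j * (if χ = σ j then d j else 0), ?_⟩
    funext j'
    rw [hw]
    simp only [Finset.sum_mul]
    rw [Finset.sum_comm]
    have h1 : ∀ j, ∑ χ : Ir (KW p k) A, t j * (if χ = σ j then d j else 0) * ip (ch χ) (P j')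
        = t j * (if j = j' then 1 else 0) := by
      intro j
      rw [Finset.sum_eq_single (σ j)]
      · rw [if_pos rfl, mul_assoc, hd]
      · intro χ _ hχ
        rw [if_neg hχ, mul_zero, zero_mul]
      · intro h2
        exact absurd (Finset.mem_univ _) h2
    rw [Finset.sum_congr rfl fun j _ => h1 j, Finset.sum_eq_single j']
    · rw [if_pos rfl, mul_one]
    · intro j _ hj
      rw [if_neg hj, mul_zero]
    · intro h2
      exact absurd (Finset.mem_univ _) h2
  have hker : v.ker ≤ w.ker := by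
    intro a ha'
    rw [LinearMap.mem_ker] at ha' ⊢
    funext j
    rw [Pi.zero_apply, hw]
    -- the part in the block
    have h1 : ∑ χ, a χ * ip (ch χ) (P j)
        = ∑ χ, (if chO χ B = 0 then 0 else a χ) * ip (ch χ) (P j) := by
      refine Finset.sum_congr rfl fun χ _ => ?_
      by_cases hχ : chO χ B = 0
      · rw [if_pos hχ, zero_mul, ip_comm, (hP1 j).2 B hB χ hχ, mul_zero]
      · rw [if_neg hχ]
    rw [h1, ← ip_expand (fun χ => if chO χ B = 0 then 0 else a χ)]
    refine ip_zero_of (fun x hx => ?_) (hP2 j)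
    refine hreg (fun χ => if chO χ B = 0 then 0 else a χ) (fun χ hχ => if_pos hχ) ?_ x hx
    funext j'
    rw [Pi.zero_apply, hv]
    have h2 := congrFun ha' j'
    rw [Pi.zero_apply, hv] at h2
    refine Eq.trans (Finset.sum_congr rfl fun χ _ => ?_) h2
    by_cases hχ : chO χ B = 0
    · rw [if_pos hχ, hF2 j' χ hχ, mul_zero, mul_zero]
    · rw [if_neg hχ]
  have h1 := ker_le v w (by rw [Module.finrank_fin_fun, Module.finrank_fin_fun]; exact hnm)
    hsurj hker
  have h2 : a ∈ w.ker := by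
    rw [LinearMap.mem_ker]
    funext j
    rw [Pi.zero_apply, hw, ← ip_expand, h0]
  exact hreg a ha (LinearMap.mem_ker.1 (h1 h2)) y hy

/-- the properties of the local columns -/
structure LC (b : MonoidAlgebra k A) (B : MonoidAlgebra (OW p k) A) (r t : ℕ) (Γ : A → KW p k)
    {m : ℕ} (P : Fin m → A → KW p k) (s : ℤ) : Prop where
  num : (r : ℤ) * (1 + m * s) = t
  mem : ∀ j, P j ∈ VA (p := p) b
  reg : ∀ j x, ¬ Preg p x → P j x = 0
  sum : ∀ x, ∑ j, P j x = Γ x
  gram : ∀ j j', ip (P j) (P j') = (((r : ℤ) * ((if j = j' then 1 else 0) + s) : ℤ) : KW p k)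
  van : ∀ a : Ir (KW p k) A → KW p k, (∀ χ, chO χ B = 0 → a χ = 0) →
    (∀ j, ip (fun x => ∑ χ : Ir (KW p k) A, a χ * ch χ x) (P j) = 0) →
    ∀ y, Preg p y → ∑ χ : Ir (KW p k) A, a χ * ch χ y = 0

/-- **the local columns** -/
theorem lcol (hp2 : p ≠ 2) (h : Stp φ b D f i R G) (hE : ¬ p ∣ eN D f) (hRT : R ≠ ⊤)
    {Γ : A → KW p k} (hΓ : GR φ b D f R G Γ)
    (hfree : ∀ α ∈ EG φ D f, ∀ u : T, u ∉ R → α u = u → α = 1)
    (hl : Nat.card (EG φ D f) ≤ Nat.card (Quotient (irrInvSetoid (⊤ : Subgroup A) ⊤ b)))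
    (hB : CenL b B) :
    ∃ (s : ℤ) (P : Fin (Nat.card (EG φ D f)) → A → KW p k),
      LC b B (Nat.card R) (Fintype.card T) Γ P s := by
  classical
  have hE' : ¬ p ∣ Nat.card (EG φ D f) := by rwa [card_EG h.inj h.ran]
  have hψ := gram_full h hE' hB hΓ
  set ψ : IR φ R B → T → KW p k := fun χ => rwv φ (upd G R Γ) R (ch χ.1) with hψdef
  obtain ⟨u₀, hu₀⟩ : ∃ u, u ∉ R := by
    by_contra hcon
    push Not at hcon
    exact hRT (Subgroup.eq_top_iff' R |>.2 hcon)
  have hreg : Reg D f (φ u₀) := by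
    refine (st_EG h.inj h.ran u₀).1 ?_
    rw [← (eQ_sup h.cen h.inj u₀).1]
    exact eQ_free h hfree hu₀
  have hne : ∀ χ : IR φ R B, ∃ u, ψ χ u ≠ 0 := by
    intro χ
    refine ⟨u₀, ?_⟩
    rw [hψ.out χ u₀ hu₀]
    exact rwv_ne hp2 h hE hB χ.2.2 hu₀ hreg
  obtain ⟨a, c, hac⟩ := exists_ac h hE hfree hψ hne
  obtain ⟨hJ, ha2, n, F, hn, hF, hF2⟩ := cnt_J h hE hB hac hl
  have hcard : Fintype.card {χ : IR φ R B // a χ ≠ 0} = Nat.card (EG φ D f) := by
    rw [Fintype.card_subtype, hJ]
  let σ : Fin (Nat.card (EG φ D f)) ≃ {χ : IR φ R B // a χ ≠ 0} :=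
    (Fintype.equivFinOfCardEq hcard).symm
  have hac0 : ∀ j, c (σ j).1 = 0 := by
    intro j
    rcases hac.cs (σ j).1 with ⟨-, h2, -⟩ | ⟨h2, -⟩
    · exact h2
    · exact absurd h2 (σ j).2
  have hrowj : ∀ j u, ψ (σ j).1 u = (a (σ j).1 : KW p k) := by
    intro j u
    rcases hac.cs (σ j).1 with ⟨-, -, h2⟩ | ⟨h2, -⟩
    · exact h2 u
    · exact absurd h2 (σ j).2
  have haj : ∀ j, a (σ j).1 * a (σ j).1 = 1 := fun j => by
    rw [← sq]
    exact ha2 _ (σ j).2
  obtain ⟨e, he⟩ : ∃ e : Fin (Nat.card (EG φ D f)) → IR φ R B → ℤ,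
      ∀ j χ, e j χ = (if χ = (σ j).1 then a χ else 0) + c χ := ⟨_, fun _ _ => rfl⟩
  have h0 : ∀ j, ∀ u, u ∉ R → ∑ χ : IR φ R B, (e j χ : KW p k) * ψ χ u = 0 := by
    intro j u hu
    have h1 : ∑ χ : IR φ R B, (e j χ : KW p k) * ψ χ u
        = ∑ χ : IR φ R B, (if χ = (σ j).1 then (a χ : KW p k) * ψ χ u else 0)
          + ∑ χ : IR φ R B, (c χ : KW p k) * ψ χ u := by
      rw [← Finset.sum_add_distrib]
      refine Finset.sum_congr rfl fun χ _ => ?_
      rw [he]
      split_ifs with h2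
      · push_cast
        ring
      · rw [zero_add, zero_add]
    rw [h1, hac.out u hu, Finset.sum_ite_eq' Finset.univ (σ j).1, if_pos (Finset.mem_univ _),
      hrowj, ← Int.cast_mul, haj, Int.cast_one, add_neg_cancel]
  refine ⟨∑ χ, c χ ^ 2, fun j => Pe (e j), ?_⟩
  have hmem : ∀ j, Pe (e j) ∈ VA (p := p) b := fun j => pe_mem hp2 h hfree hB hψ (h0 j)
  refine ⟨hac.csq, hmem, fun j x hx => pe_reg _ hx, fun x => ?_, fun j j' => ?_,
    fun t ht h1 y hy => ?_⟩
  · -- the sum
    have hse : ∀ χ, ∑ j, e j χ = a χ + (Nat.card (EG φ D f) : ℤ) * c χ := by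
      intro χ
      rw [Finset.sum_congr rfl fun j _ => he j χ, Finset.sum_add_distrib, Finset.sum_const,
        Finset.card_univ, Fintype.card_fin, nsmul_eq_mul]
      congr 1
      by_cases hχ : a χ = 0
      · rw [hχ]
        exact Finset.sum_eq_zero fun j _ => ite_self _
      · rw [Finset.sum_eq_single (σ.symm ⟨χ, hχ⟩)]
        · rw [if_pos]
          rw [Equiv.apply_symm_apply]
        · intro j _ hj
          rw [if_neg]
          intro h2
          apply hj
          rw [Equiv.eq_symm_apply]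
          exact Subtype.ext h2.symm
        · intro h2
          exact absurd (Finset.mem_univ _) h2
    by_cases hx : Preg p x
    · rw [← YTbAux.avg_reg h hΓ.reg hx, YTbAux.avg h hΓ.blk.1]
      have h1 : ∑ χ : Ir (KW p k) A with Ker φ R χ, ip (ch χ) Γ * ch χ x
          = ∑ χ : IR φ R B, ip (ch χ.1) Γ * ch χ.1 x := by
        refine (YTbAux.sum_IR' (B := B) (F := fun χ => ip (ch χ) Γ * ch χ x)
          fun χ hχ => ?_).symm
        rw [ip_comm, hΓ.blk.2 B hB χ hχ, zero_mul]
      rw [h1]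
      have h2 : ∀ j, Pe (e j) x = (Nat.card R : KW p k) *
          ∑ χ : IR φ R B, (e j χ : KW p k) * ch χ.1 x := by
        intro j
        rw [Pe, rg_of hx, Xe]
      rw [Finset.sum_congr rfl fun j _ => h2 j, ← Finset.mul_sum, Finset.sum_comm]
      congr 1
      refine Finset.sum_congr rfl fun χ _ => ?_
      rw [← Finset.sum_mul]
      congr 1
      have h3 : ψ χ 1 = ip (ch χ.1) Γ := YTbAux.rwv_upd_one h _
      rw [← h3, hac.one χ, ← Int.cast_sum, hse]
      push_cast
      rfl
    · rw [hΓ.reg x hx]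
      exact Finset.sum_eq_zero fun j _ => pe_reg _ hx
  · -- the Gram matrix
    rw [pe_pe hp2 h hfree hB hψ (h0 j)]
    have h1 : ∑ χ : IR φ R B, e j χ * e j' χ = (if j = j' then 1 else 0) + ∑ χ, c χ ^ 2 := by
      have h2 : ∀ χ : IR φ R B, e j χ * e j' χ
          = (if χ = (σ j).1 then (if χ = (σ j').1 then a χ * a χ else 0) else 0) + c χ ^ 2 := by
        intro χ
        rw [he, he]
        have h3 : a χ * c χ = 0 := by
          rcases hac.cs χ with ⟨-, h4, -⟩ | ⟨h4, -⟩
          · rw [h4, mul_zero]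
          · rw [h4, zero_mul]
        split_ifs
        · linear_combination 2 * h3
        · linear_combination h3
        · linear_combination h3
        · ring
      rw [Finset.sum_congr rfl fun χ _ => h2 χ, Finset.sum_add_distrib]
      congr 1
      rw [Finset.sum_ite_eq' Finset.univ (σ j).1, if_pos (Finset.mem_univ _), haj]
      by_cases hjj : j = j'
      · rw [if_pos hjj, if_pos (by rw [hjj])]
      · rw [if_neg hjj, if_neg]
        intro h3
        exact hjj (σ.injective (Subtype.ext h3))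
    rw [h1]
    push_cast
    rfl
  · -- the vanishing
    refine van_of hB hn hF hF2 hmem (fun j x hx => pe_reg _ hx) (σ := fun j => (σ j).1.1)
      (d := fun j => (a (σ j).1 : KW p k)) (fun j j' => ?_) ht h1 hy
    have h2 := pe_ch hp2 h hfree hB hψ (h0 j') (σ j).1
    have h3 : e j' (σ j).1 = if j = j' then a (σ j).1 else 0 := by
      rw [he, hac0, add_zero]
      by_cases hjj : j = j'
      · rw [if_pos hjj, if_pos (by rw [hjj])]
      · rw [if_neg hjj, if_neg]
        intro h4
        exact hjj (σ.injective (Subtype.ext h4))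
    rw [h3] at h2
    refine Eq.trans (congrArg _ h2) ?_
    split_ifs with hjj
    · rw [← Int.cast_mul, haj, Int.cast_one]
    · rw [Int.cast_zero, mul_zero]

end

end V5Cx

end Pool.Agent.Lib.P0c8ca5.Ex
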