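import Mathlib
import Pool.Agent.Lib.P0c8ca5Ex.V5Lc
import Pool.Agent.Lib.P0c8ca5Ex.W1d
import Pool.Agent.Lib.P0c8ca5Ex.ZOb

/-!
# V5Ld: the local columns at a subgroup `Q` of the defect group

`lcolQ`: transport of `lcol` (V5Lc) from `C(φ Q)`. `lcolz`: `Q = ⟨z⟩`, with the bound `|E_z| ≤ l` from `l_locn`.
-/

set_option linter.unusedSectionVars false

namespace Pool.Agent.Lib.P0c8ca5.Ex

universe u v

open MonoidAlgebra V5Cx

section
variable {p : ℕ} [Fact p.Prime] {k : Type v} [Field k] [IsAlgClosed k] [CharP k p]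
  {A : Type u} [Group A] [Fintype A] {T : Type*} [CommGroup T] [Fintype T]
  {φ : T →* A} {b f i : MonoidAlgebra k A} {D : Subgroup A} {Q : Subgroup T}
  {G : Subgroup T → A → KW p k}

theorem eQ_Fx (φ : T →* A) (D : Subgroup A) (f : MonoidAlgebra k A) (Q : Subgroup T) :
    eQ φ D f Q = Nat.card (Fx (EG φ D f) Q) := by
  unfold eQ
  exact Nat.card_congr ⟨fun α => ⟨α.1.1, α.1.2, α.2⟩, fun α => ⟨⟨α.1, α.2.1⟩, α.2.2⟩,
    fun _ => rfl, fun _ => rfl⟩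

/-- **the local columns at `Q`** -/
theorem lcolQ (hp2 : p ≠ 2) (h : Src p b D f i) (hφ : Function.Injective φ)
    (hr : ∀ x, x ∈ D ↔ ∃ t, φ t = x) (hpE : ¬ p ∣ eN D f) (hQ : Q ≠ ⊤)
    (hG : ∀ Q', Q ≤ Q' → GOK φ D f i G Q') (he : EqG φ D f G fun Q' => Q < Q')
    (hfree : ∀ α ∈ EG φ D f, (∀ t ∈ Q, α t = t) → ∀ u : T, u ∉ Q → α u = u → α = 1)
    {m : ℕ} (hm : eQ φ D f Q = m) {H : Subgroup A} (hH : cq φ Q = H) {c : MonoidAlgebra k A}
    (hc : LbH H i c) (hl : m ≤ Nat.card (Quotient (irrInvSetoid H H c)))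
    {BH : MonoidAlgebra (OW p k) ↥H} (hBH : CenL (dnr H c) BH) :
    ∃ (s : ℤ) (P : Fin m → A → KW p k), (∀ j x, x ∉ H → P j x = 0) ∧
      LC (dnr H c) BH (Nat.card Q) (Fintype.card T) (on H (G Q)) (fun j => on H (P j)) s := by
  classical
  subst hH
  have := Fintype.ofFinite ↥(cq φ Q)
  obtain ⟨c', φ', hc', hφ', hS, hEG, hcE, -, hiff⟩ := stp_downq p h hφ hr
    (fun Q' hQ' => hG Q' hQ'.le) (fun Q' hQ' => (hG Q' hQ'.le).cq) he
  have hle : Q.map φ ≤ D := by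
    rintro _ ⟨t, _, rfl⟩
    exact (hr _).2 ⟨t, rfl⟩
  obtain rfl : c = c' := Lb.unique h hle (hc.toLb rfl) (hc'.toLb rfl)
  have hpE' : ¬ p ∣ eN (D.subgroupOf (cq φ Q)) (dnr (cq φ Q) f) := by
    intro h1
    apply hpE
    have h2 : Fx (EG φ D f) Q ≤ EG φ D f := fun α hα => hα.1
    rw [hcE] at h1
    rw [← card_EG hφ hr]
    exact h1.trans (Subgroup.card_dvd_of_le h2)
  have hupd : upd G Q (G Q) = G := by
    funext Q'
    by_cases h1 : Q' = Q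
    · rw [h1, upd_self]
    · rw [upd_ne _ _ h1]
  have hGQ := hG Q le_rfl
  have hGR : GR φ' (dnr (cq φ Q) c) (D.subgroupOf (cq φ Q)) (dnr (cq φ Q) f) Q
      (fun Q' (y : ↥(cq φ Q)) => G Q' (y : A)) (fun y => G Q (y : A)) := by
    refine (gr_iff hS _).1 ((hiff (G Q) hGQ.sup).1 ?_).1
    rw [hupd]
    exact ⟨hGQ, hGQ.cq⟩
  have hcm : Nat.card (EG φ' (D.subgroupOf (cq φ Q)) (dnr (cq φ Q) f)) = m := by
    rw [hEG, ← eQ_Fx, hm]
  have hfree' : ∀ α ∈ EG φ' (D.subgroupOf (cq φ Q)) (dnr (cq φ Q) f), ∀ u : T, u ∉ Q →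
      α u = u → α = 1 := by
    intro α hα u hu hαu
    rw [hEG] at hα
    exact hfree α hα.1 hα.2 u hu hαu
  have hl' : Nat.card (EG φ' (D.subgroupOf (cq φ Q)) (dnr (cq φ Q) f)) ≤
      Nat.card (Quotient (irrInvSetoid (⊤ : Subgroup ↥(cq φ Q)) ⊤ (dnr (cq φ Q) c))) := by
    have hb := hS.src.root.blk
    rw [hcm, card_self hb.mem hb.idem]
    refine hl.trans (le_of_eq ?_)
    rw [card_self hc.blk.mem hc.blk.idem, ← Kk.KhAux.irX_dn' (le_refl (cq φ Q)) c,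
      Subgroup.subgroupOf_self]
    rfl
  obtain ⟨s, P', hP'⟩ := lcol hp2 hS hpE' hQ hGR hfree' hl' hBH
  subst hcm
  refine ⟨s, fun j x => if hx : x ∈ cq φ Q then P' j ⟨x, hx⟩ else 0,
    fun j x hx => dif_neg hx, ?_⟩
  have h1 : (fun j => on (cq φ Q) (fun x => if hx : x ∈ cq φ Q then P' j ⟨x, hx⟩ else 0))
      = P' := by
    funext j y
    exact dif_pos y.2
  rw [h1]
  exact hP'

/-- **the local columns at `z`** -/
theorem lcolz (hp2 : p ≠ 2) (hS : Stp φ b D f i ⊥ G) (hpE : ¬ p ∣ eN D f) {z : T}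
    (hz1 : z ≠ 1) (hzT : Subgroup.zpowers z ≠ ⊤)
    (hfree : ∀ α ∈ EG φ D f, α z = z → ∀ u : T, u ∉ Subgroup.zpowers z → α u = u → α = 1)
    {n : ℕ} (hF : Ku.Faith p n D f) (hst : st (EG φ D f) z ≤ p ^ (n + 1))
    (hcyc : ∀ E' ≤ EG φ D f, (∀ α ∈ E', α z = z) → IsCyclic ↥E') {c : MonoidAlgebra k A}
    (hc : LbH (C1 (φ z)) i c) {BH : MonoidAlgebra (OW p k) ↥(C1 (φ z))}
    (hBH : CenL (dnr (C1 (φ z)) c) BH) :
    ∃ (s : ℤ) (P : Fin (st (EG φ D f) z) → A → KW p k), (∀ j x, x ∉ C1 (φ z) → P j x = 0) ∧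
      LC (dnr (C1 (φ z)) c) BH (orderOf z) (Fintype.card T)
        (on (C1 (φ z)) (G (Subgroup.zpowers z))) (fun j => on (C1 (φ z)) (P j)) s := by
  have hbot : (⊥ : Subgroup T) < Subgroup.zpowers z := by
    rw [bot_lt_iff_ne_bot]
    exact fun h1 => hz1 (Subgroup.zpowers_eq_bot.1 h1)
  have hfix : ∀ α : MulAut T, (∀ t ∈ Subgroup.zpowers z, α t = t) ↔ α z = z := fun α =>
    YmAux.fix_zp
  have hH : cq φ (Subgroup.zpowers z) = C1 (φ z) := by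
    rw [cq, MonoidHom.map_zpowers, CD_zpowers]
  have hm : eQ φ D f (Subgroup.zpowers z) = st (EG φ D f) z := (eQ_sup hS.cen hS.inj z).2
  have hcQ : LbH (cq φ (Subgroup.zpowers z)) i c := by
    rw [hH]
    exact hc
  have hl := l_locn hp2 hS.src hS.inj hS.ran hF hcQ (by rw [hm]; exact hst)
    (fun E' hE' hfx => hcyc E' hE' fun α hα => hfx α hα z (Subgroup.mem_zpowers z))
  rw [hm, hH] at hl
  obtain ⟨s, P, h1, h2⟩ := lcolQ hp2 hS.src hS.inj hS.ran hpE hzT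
    (fun Q' hQ' => hS.ok Q' (lt_of_lt_of_le hbot hQ'))
    (fun s hs α hα Q' hQ' y => hS.eqv s hs α hα Q' (lt_trans hbot hQ') y)
    (fun α hα hfx u hu hαu => hfree α hα ((hfix α).1 hfx) u hu hαu) hm hH hc hl hBH
  refine ⟨s, P, h1, ?_⟩
  rw [← Nat.card_zpowers]
  exact h2

end

end Pool.Agent.Lib.P0c8ca5.Ex
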