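import Mathlib
import Pool.Agent.Lib.P0c8ca5Kc.RM
import Pool.Agent.Lib.P0c8ca5Kk.Kx

/-!
# V5N: the block of the inertial group

`D` abelian, `(D, f)` as in `Root`, `U = St D f` its stabilizer.

* `root_St`: `f` is a block of `U` with the defect group `D`, and `f` is a block of `C(D)` below it.
* `eN_St`: the inertial index is the same.
* `kap_dn_St`: `kap D b` is the number of simple modules of the block `f` of `U`.
* `card_St`, `card_omega_St`, `exp_St`: the order, the number of elements of order `p` and the exponent of `D` are the same.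
-/

set_option autoImplicit false
set_option linter.unusedSectionVars false

namespace Pool.Agent.Lib.P0c8ca5.Ex

open MonoidAlgebra Bq Kq Kk Kc FinAux Kk.KxAux

universe u v

section
variable {p : ℕ} [Fact p.Prime] {k : Type v} [Field k] [IsAlgClosed k] [CharP k p]
  {A : Type u} [Group A] [Fintype A] {b f : MonoidAlgebra k A} {D : Subgroup A}

theorem D_le_St' (h : Root p b D f) : D ≤ St D f := (D_le_CD h.com).trans (CD_le_St h.fblk)

/-- `f` is a block of the stabilizer -/
theorem blk_St (h : Root p b D f) : IsBlock (St D f) f :=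
  Kc.isBlock_up h.dfg.isPGroup (D_le_St' h)
    (fun _ hg => (mem_St.1 hg).1) (CD_le_St h.fblk) h.fblk (fun _ hz => (mem_St.1 hz).2)

/-- the defect group of the block of the stabilizer -/
theorem dfg_St (h : Root p b D f) : IsDefectGroup p (St D f) f D where
  le := D_le_St' h
  isPGroup := h.dfg.isPGroup
  br := by
    have h1 : f ≠ 0 := h.fblk.ne_zero
    by_contra hno
    apply h1
    ext x
    by_contra hx
    exact hno ⟨x, h.fblk.suppIn x hx, hx⟩
  max := by
    intro P hPS hPp hPf hDP
    refine h.dfg.max P le_top hPp ?_ hDP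
    have h1 : InvBy P (resS (CD D : Set A) b) :=
      Kk.KxAux.invBy_res (h.blk.invBy.mono le_top) fun x hx => (mem_St.1 (hPS hx)).1
    have h2 : InvBy P f := invBy_iff_cj.2 fun x hx => (mem_St.1 (hPS hx)).2
    have h3 := resS_mul hPp h1 h2
    rw [h.bf, Kk.KxAux.resS_resS_le hDP] at h3
    refine Kk.KxAux.hasBr_of_ne (Q := P) fun h0 => ?_
    rw [h0, zero_mul] at h3
    exact Kk.KxAux.ne_of_hasBr (Q := P) (a := f) hPf h3

/-- **the block of the inertial group** -/
theorem root_St (h : Root p b D f) :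
    Root p (dn (St D f) f) (D.subgroupOf (St D f)) (dn (St D f) f) := by
  refine root_dn (St D f) (blk_St h) (dfg_St h) h.com ?_ ?_
  · rw [inf_eq_right.2 (CD_le_St h.fblk)]
    exact h.fblk
  · have h1 : resS (CD D : Set A) f = f := by
      ext x
      by_cases hx : x ∈ (CD D : Set A)
      · rw [coeff_resS_of_mem _ hx]
      · rw [coeff_resS_of_notMem _ hx]
        by_contra h0
        exact hx (h.fblk.suppIn x fun h2 => h0 h2.symm)
    rw [h1, h.fblk.idem]

theorem supp_St (h : Root p b D f) : SuppIn (St D f) f := (blk_St h).suppIn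

/-- the inertial index is the same -/
theorem eN_St (h : Root p b D f) :
    eN (D.subgroupOf (St D f)) (dn (St D f) f) = eN D f := by
  rw [eN_dn (St D f) (D_le_St' h) (supp_St h), inf_idem]
  rfl

/-- **`kap` is the number of simple modules of the block of the inertial group** -/
theorem kap_dn_St (hp2 : p ≠ 2) (h : Root p b D f) :
    kap D b = Nat.card (IrX (⊤ : Subgroup ↥(St D f)) (dn (St D f) f)) := by
  obtain ⟨j, hj⟩ := exists_src h
  rw [Nc.kap_St hp2 hj (Ku.ndvd h), ← irX_dn (le_refl (St D f)) (supp_St h)]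
  congr 2
  exact Subgroup.subgroupOf_self (St D f)

/-- the faithfulness on the `p ^ n`-th powers -/
theorem faith_St (h : Root p b D f) {n : ℕ} (hF : Ku.Faith p n D f) :
    Ku.Faith p n (D.subgroupOf (St D f)) (dn (St D f) f) := by
  have h1 := Ku.dn_faith (U := St D f) (g := 1) (c := f) h hF (CD_le_St h.fblk)
    (by rw [Kc.cg_one']) (by rw [Kc.cg_one']; exact dfg_St h)
  rwa [Kc.cg_one', Kc.cj_one_f] at h1

/-- there is a simple module -/
theorem l_pos (h : Root p b D f) : 1 ≤ Nat.card (IrX (⊤ : Subgroup A) b) :=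
  card_irX_pos (p := p) h.blk

theorem kap_pos' (hp2 : p ≠ 2) (h : Root p b D f) : 1 ≤ kap D b := by
  have : Fintype ↥(St D f) := Fintype.ofFinite _
  rw [kap_dn_St hp2 h]
  exact card_irX_pos (p := p) (root_St h).blk

/-- the order of the defect group is the same -/
theorem card_St (h : Root p b D f) : Nat.card ↥(D.subgroupOf (St D f)) = Nat.card D :=
  Nat.card_congr (Subgroup.subgroupOfEquivOfLe (D_le_St' h)).toEquiv

/-- the number of the solutions of `x ^ n = 1` is the same -/
theorem card_omega_St (h : Root p b D f) (n : ℕ) :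
    Nat.card {x : ↥(St D f) // x ∈ D.subgroupOf (St D f) ∧ x ^ n = 1} =
      Nat.card {x : A // x ∈ D ∧ x ^ n = 1} := by
  refine Nat.card_congr
    { toFun := fun x => ⟨(x.1 : A), Subgroup.mem_subgroupOf.1 x.2.1,
        congrArg Subtype.val x.2.2⟩
      invFun := fun x => ⟨⟨x.1, D_le_St' h x.2.1⟩, Subgroup.mem_subgroupOf.2 x.2.1,
        Subtype.ext x.2.2⟩
      left_inv := fun x => rfl
      right_inv := fun x => rfl }

/-- the exponent is the same -/
theorem exp_St {n : ℕ} (hn : ∀ x ∈ D, x ^ n = 1) :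
    ∀ x ∈ D.subgroupOf (St D f), x ^ n = 1 := fun x hx =>
  Subtype.ext (hn x (Subgroup.mem_subgroupOf.1 hx))

/-- the exponent is the same -/
theorem exp_St_ne (h : Root p b D f) {n : ℕ} (hn : ∃ x ∈ D, x ^ n ≠ 1) :
    ∃ x ∈ D.subgroupOf (St D f), x ^ n ≠ 1 := by
  obtain ⟨x, hx, hxn⟩ := hn
  exact ⟨⟨x, D_le_St' h hx⟩, Subgroup.mem_subgroupOf.2 hx, fun h1 => hxn (congrArg Subtype.val h1)⟩

end

end Pool.Agent.Lib.P0c8ca5.Ex
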