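import Mathlib
import Pool.Agent.Lib.P0c8ca5Ex.V5A
import Pool.Agent.Lib.P0c8ca5Ex.V5H
import Pool.Agent.Lib.P0c8ca5Ex.V5Ld
import Pool.Agent.Lib.P0c8ca5Ex.V5N
import Pool.Agent.Lib.P0c8ca5Ex.ZM

/-!
# V5Z: the weight conjecture for the defect groups `C_{p²} × C_{p²}`, `p` odd

`l_le_src`, `l_le_p2`: `l(b) ≤ p²`. With `kap_dn_St` also the number of weights is at most `p²`, and it is congruent to `l(b)` modulo `p²`
(`Ku.l_kap_dvd'`), so the numbers are equal: `gap_zero_p2`. No condition on the inertial quotient.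
-/

set_option linter.unusedSectionVars false

namespace Pool.Agent.Lib.P0c8ca5.Ex.V5

open MonoidAlgebra Kq Kk ZMAux

universe u v

section
variable {p : ℕ} [Fact p.Prime] {k : Type*} [Field k] [IsAlgClosed k] [CharP k p]
  {A : Type*} [Group A] [Fintype A] {T : Type*} [CommGroup T] [Fintype T]
  {φ : T →* A} {b f i : MonoidAlgebra k A} {D : Subgroup A}

theorem l_le_src (hp2 : p ≠ 2) (h : Src p b D f i) (hφ : Function.Injective φ)
    (hr : ∀ x, x ∈ D ↔ ∃ t, φ t = x) (hpE : ¬ p ∣ eN D f) (hT4 : Fintype.card T = p ^ 4)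
    (hexp : ∀ u : T, u ^ p ^ 2 = 1) (hrk : Nat.card {x : T // x ^ p = 1} ≤ p ^ 2)
    (hF : Ku.Faith p 1 D f) :
    Nat.card (Quotient (irrInvSetoid (⊤ : Subgroup A) ⊤ b)) ≤ p ^ 2 := by
  classical
  have hp : p.Prime := Fact.out
  have hpE' : ¬ p ∣ Nat.card (EG φ D f) := by rwa [card_EG hφ hr]
  have hf : ∀ α ∈ EG φ D f, α ≠ 1 → ∃ u : T, (u⁻¹ * α u) ^ p ≠ 1 := by
    intro α hα h1
    obtain ⟨u, hu⟩ := faith_T hφ hr hF α hα h1
    exact ⟨u, by rwa [pow_one] at hu⟩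
  have hT : IsPGroup p T := V5Ux.isP hexp
  obtain ⟨G, hG, he⟩ := exists_gfamY hp2 (dvd_pow_self p two_ne_zero) h hφ hr hpE
    (fun Q hQ hQ' => V5Ux.bigY_p2 hp hp2 hexp hrk hpE' hf hQ hQ')
  have hS : Stp φ b D f i ⊥ G :=
    { src := h
      inj := hφ
      ran := hr
      cen := fun z hz a => by rw [Subgroup.mem_bot.1 hz, map_one, one_mul, mul_one]
      ok := fun Q hQ => hG Q (ne_of_gt hQ)
      eqv := fun s hs α hα Q hQ y => he s hs α hα Q (ne_of_gt hQ) y }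
  obtain ⟨z, hz1, hzfix, hzfree, hzst⟩ := V5Ux.exists_z hT4 hp hexp hrk hpE' hf
  have ho : orderOf z = p ^ 2 :=
    orderOf_eq_prime_pow (n := 1) (by rwa [pow_one]) (hexp z)
  have hzne : z ≠ 1 := by
    rintro rfl
    exact hz1 (one_pow p)
  have hzT : Subgroup.zpowers z ≠ ⊤ := by
    intro h1
    have h2 : Nat.card (Subgroup.zpowers z) = Nat.card T := by rw [h1, Subgroup.card_top]
    rw [Nat.card_zpowers, ho, Nat.card_eq_fintype_card, hT4] at h2
    exact absurd (Nat.pow_right_injective hp.two_le h2) (by norm_num)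
  have hzD : φ z ∈ D := (hr _).2 ⟨z, rfl⟩
  obtain ⟨c, hc⟩ := exists_lbH h hzD
  obtain ⟨BH, hBH⟩ := exists_locB h hzD hc
  obtain ⟨s, P, hP1, hP2⟩ := lcolz hp2 hS hpE hzne hzT hzfree hF
    (by
      have h1 : p ≤ p ^ (1 + 1) := Nat.le_self_pow (by norm_num) p
      omega)
    (fun E' hE' hfx => cyc_of_fix hp hT
      (fun h1 => hpE' (h1.trans (Subgroup.card_dvd_of_le hE'))) hrk hzne hfx) hc hBH
  have hLP : ∀ j, LP (C1 (φ z)) c (P j) := by
    intro j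
    refine ⟨hP1 j, hP2.mem j, fun x hx => ?_⟩
    by_cases hxC : x ∈ C1 (φ z)
    · exact hP2.reg j ⟨x, hxC⟩ fun h2 => hx ((FIAux.preg_coe' (⟨x, hxC⟩ : ↥(C1 (φ z)))).2 h2)
    · exact hP1 j x hxC
  have hgram : ∀ j j', ip (on (C1 (φ z)) (P j)) (on (C1 (φ z)) (P j'))
      = (p : KW p k) ^ 2 * ((if j = j' then 1 else 0) + (s : KW p k)) := by
    intro j j'
    rw [hP2.gram j j', ho]
    push_cast
    split_ifs <;> norm_num
  have hcq : cq φ (Subgroup.zpowers z) = C1 (φ z) := by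
    rw [cq, MonoidHom.map_zpowers, CD_zpowers]
  have hbot : (⊥ : Subgroup T) < Subgroup.zpowers z := by
    rw [bot_lt_iff_ne_bot]
    exact fun h1 => hzne (Subgroup.zpowers_eq_bot.1 h1)
  have hcols : Cols φ D f i G z (C1 (φ z)) c P :=
    { card := rfl
      lp := hLP
      sum := by
        intro x
        by_cases hxC : x ∈ C1 (φ z)
        · exact hP2.sum ⟨x, hxC⟩
        · rw [(hS.ok _ hbot).sup x (by rwa [hcq])]
          exact Finset.sum_eq_zero fun j _ => hP1 j x hxC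
      gram := ⟨s, hgram⟩
      span := by
        intro BH' hBH' a ha h1 y hy
        rw [← cenL_unique hBH hBH'] at ha
        exact hP2.van a ha h1 y hy }
  exact l_le_cols hp2 hS hpE hT4 hexp hrk hz1 hzfix hzst rfl hc hcols
    (fun j j' hj a ha => i2 h hφ hr hpE hz1 (hexp z) rfl hc hLP hgram hj ha)

end

section
variable {p : ℕ} [Fact p.Prime] {k : Type v} [Field k] [IsAlgClosed k] [CharP k p]
  {A : Type u} [Group A] [Fintype A] {b f : MonoidAlgebra k A} {D : Subgroup A}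

/-- `l(b) ≤ p²` -/
theorem l_le_p2 (hp2 : p ≠ 2) (h : Root p b D f) (h4 : Nat.card D = p ^ 4)
    (he : ∀ x ∈ D, x ^ p ^ 2 = 1) (hr : Nat.card {x : A // x ∈ D ∧ x ^ p = 1} ≤ p ^ 2) :
    Ku.Faith p 1 D f ∧ Nat.card (IrX (⊤ : Subgroup A) b) ≤ p ^ 2 := by
  have hp : p.Prime := Fact.out
  have hpE : ¬ p ∣ eN D f := Ku.ndvd h
  obtain ⟨i, hi⟩ := exists_src h
  let _ : CommGroup ↥D := cgrp D h.com
  let _ : Fintype ↥D := Fintype.ofFinite _
  have hφ : Function.Injective (D.subtype : ↥D →* A) := Subtype.val_injective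
  have hrD : ∀ x, x ∈ D ↔ ∃ t, (D.subtype : ↥D →* A) t = x :=
    fun x => ⟨fun hx => ⟨⟨x, hx⟩, rfl⟩, by rintro ⟨t, rfl⟩; exact t.2⟩
  have hrT : Nat.card {x : ↥D // x ^ p = 1} ≤ p ^ 2 := by
    refine le_trans (le_of_eq (Nat.card_congr ?_)) hr
    exact
      { toFun := fun x => ⟨x.1, x.1.2, congrArg Subtype.val x.2⟩
        invFun := fun x => ⟨⟨x.1, x.2.1⟩, Subtype.ext x.2.2⟩
        left_inv := fun x => rfl
        right_inv := fun x => rfl }
  have hT4 : Fintype.card ↥D = p ^ 4 := by rw [← Nat.card_eq_fintype_card, h4]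
  have hexp : ∀ u : ↥D, u ^ p ^ 2 = 1 := fun u => Subtype.ext (he u u.2)
  have hF : Ku.Faith p 1 D f := by
    refine Ku.faith_of_big h fun x hx hx1 => ?_
    obtain ⟨y, hy⟩ := V5Ux.omega_pow hT4 hp hexp hrT ⟨x, hx⟩ (Subtype.ext hx1)
    refine ⟨y, y.2, ?_⟩
    rw [pow_one]
    exact congrArg Subtype.val hy
  refine ⟨hF, ?_⟩
  rw [← card_top h.blk]
  exact l_le_src hp2 hi hφ hrD hpE hT4 hexp hrT hF

/-- **the weight conjecture for `C_{p²} × C_{p²}`** -/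
theorem gap_zero_p2 (hp2 : p ≠ 2) (h : Root p b D f) (h4 : Nat.card D = p ^ 4)
    (he : ∀ x ∈ D, x ^ p ^ 2 = 1) (hr : Nat.card {x : A // x ∈ D ∧ x ^ p = 1} ≤ p ^ 2) :
    gap p (⊤ : Subgroup A) ⊤ b = 0 := by
  classical
  obtain ⟨hF, hl⟩ := l_le_p2 hp2 h h4 he hr
  have hk : kap D b ≤ p ^ 2 := by
    rw [kap_dn_St hp2 h]
    exact (l_le_p2 hp2 (root_St h) ((card_St h).trans h4) (exp_St he)
      (le_of_eq_of_le (card_omega_St h p) hr)).2
  have h1 := Ku.l_kap_dvd' hp2 h hF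
  have h2 : 1 ≤ Nat.card (IrX (⊤ : Subgroup A) b) := l_pos h
  have h3 : 1 ≤ kap D b := kap_pos' hp2 h
  have h7 : (Nat.card (IrX (⊤ : Subgroup A) b) : ℤ) - (kap D b : ℤ) = 0 := by
    refine Int.eq_zero_of_abs_lt_dvd h1 ?_
    have h5 : p ^ (1 + 1) = p ^ 2 := rfl
    rw [h5, abs_lt]
    constructor <;> omega
  rw [Ku.gap_val h, h7, Int.cast_zero]

end

end Pool.Agent.Lib.P0c8ca5.Ex.V5
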