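import Mathlib
import Pool.Agent.Lib.P0c8ca5Ex.V5Z
import Pool.Agent.Lib.P0c8ca5Kc.RM

/-!
# V5Y: the weight conjecture for the abelian defect groups of rank two

`gap_zero_rank2`: `D` is abelian with at most `p²` elements `x` with `x ^ p = 1`, not of exponent `p`, and `p ≥ 5` or the elements of
order `p` of `D` are `p`-th powers. Then the number of weights is `l(b)`, for every inertial quotient. Three cases: `D` is not homocyclic
(`Kc.gap_zero_r2`), `D = C_{p²} × C_{p²}` (`gap_zero_p2`), `D = C_{p^n} × C_{p^n}` with `n ≥ 3` (`k2_two`).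
-/

set_option linter.unusedSectionVars false

namespace Pool.Agent.Lib.P0c8ca5.Ex.V5

open MonoidAlgebra Kq Kk ZMAux

universe u v

section
variable {p : ℕ} [Fact p.Prime] {k : Type v} [Field k] [IsAlgClosed k] [CharP k p]
  {A : Type u} [Group A] [Fintype A] {b f : MonoidAlgebra k A} {D : Subgroup A}

/-- **the weight conjecture for abelian defect groups of rank two** -/
theorem gap_zero_rank2 (hp2 : p ≠ 2) (h : Root p b D f)
    (hr : Nat.card {x : A // x ∈ D ∧ x ^ p = 1} ≤ p ^ 2) (hx : ∃ x ∈ D, x ^ p ≠ 1)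
    (h5 : p < 5 → ∀ x ∈ D, x ^ p = 1 → ∃ y ∈ D, x = y ^ p) :
    gap p (⊤ : Subgroup A) ⊤ b = 0 := by
  classical
  have hp : p.Prime := Fact.out
  let _ : CommGroup ↥D := cgrp D h.com
  let _ : Fintype ↥D := Fintype.ofFinite _
  obtain ⟨i, hi⟩ := exists_src h
  obtain ⟨M, hM⟩ := pow_one_of hi
  have hT : IsPGroup p ↥D := fun u => ⟨M, Subtype.ext (hM u u.2)⟩
  obtain ⟨N, hN⟩ := IsPGroup.iff_card.1 hT
  have hrT : Nat.card {x : ↥D // x ^ p = 1} ≤ p ^ 2 := by
    refine le_trans (le_of_eq (Nat.card_congr ?_)) hr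
    exact
      { toFun := fun x => ⟨x.1, x.1.2, congrArg Subtype.val x.2⟩
        invFun := fun x => ⟨⟨x.1, x.2.1⟩, Subtype.ext x.2.2⟩
        left_inv := fun x => rfl
        right_inv := fun x => rfl }
  have hex : ∃ n, ∀ y ∈ D, y ^ p ^ n = 1 := ⟨M, hM⟩
  obtain ⟨e, he, hmin⟩ : ∃ e, (∀ y ∈ D, y ^ p ^ e = 1) ∧ ∀ a, a < e → ∃ y ∈ D, y ^ p ^ a ≠ 1 := by
    refine ⟨Nat.find hex, Nat.find_spec hex, fun a ha => ?_⟩
    have h1 := Nat.find_min hex ha
    push Not at h1
    exact h1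
  have he2 : 2 ≤ e := by
    by_contra hcon
    push Not at hcon
    obtain ⟨x, hxD, hx1⟩ := hx
    have h1 := he x hxD
    interval_cases e
    · rw [pow_zero, pow_one] at h1
      rw [h1, one_pow] at hx1
      exact hx1 rfl
    · rw [pow_one] at h1
      exact hx1 h1
  obtain ⟨a, rfl⟩ : ∃ a, e = a + 1 := ⟨e - 1, by omega⟩
  have ha1 : 1 ≤ a := by omega
  by_cases hc : Nat.card D ≤ p ^ (2 * a + 1)
  · exact Kc.gap_zero_r2 hp2 ⟨h, hr, hmin a (Nat.lt_succ_self a), hc, h5⟩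
  push Not at hc
  have hle : Nat.card D ≤ p ^ (2 * (a + 1)) := by
    have h1 := Ku.card_ker_pow hrT (a + 1)
    have h2 : (powMonoidHom (p ^ (a + 1)) : ↥D →* ↥D).ker = ⊤ := by
      rw [eq_top_iff]
      intro y _
      rw [MonoidHom.mem_ker, powMonoidHom_apply]
      exact Subtype.ext (he y y.2)
    rw [h2, Subgroup.card_top] at h1
    exact h1
  have hN' : N = 2 * (a + 1) := by
    rw [hN] at hc hle
    have h1 := (Nat.pow_lt_pow_iff_right hp.one_lt).1 hc
    have h2 := (Nat.pow_le_pow_iff_right hp.one_lt).1 hle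
    omega
  have hbig : ∀ x ∈ D, x ^ p = 1 → ∃ y ∈ D, x = y ^ p ^ a := by
    intro x hxD hx1
    have h1 := Ku.card_ker_mul_range (powMonoidHom (p ^ a) : ↥D →* ↥D)
    have h2 := Ku.card_ker_pow hrT a
    have h3 : Nat.card (powMonoidHom p : ↥D →* ↥D).ker ≤ p ^ 2 := by
      refine le_trans (Nat.card_le_card_of_injective
        (fun x => (⟨x.1, x.2⟩ : {x : ↥D // x ^ p = 1}))
        fun x y hxy => Subtype.ext (congrArg (fun z : {x : ↥D // x ^ p = 1} => z.1) hxy)) hrT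
    have h4 : (powMonoidHom (p ^ a) : ↥D →* ↥D).range ≤ (powMonoidHom p : ↥D →* ↥D).ker := by
      rintro _ ⟨u, rfl⟩
      rw [MonoidHom.mem_ker, powMonoidHom_apply, powMonoidHom_apply, ← pow_mul, ← pow_succ]
      exact Subtype.ext (he u u.2)
    have h5 : p ^ 2 ≤ Nat.card (powMonoidHom (p ^ a) : ↥D →* ↥D).range := by
      have h6 : p ^ (2 * a) * p ^ 2
          ≤ p ^ (2 * a) * Nat.card (powMonoidHom (p ^ a) : ↥D →* ↥D).range := by
        calc p ^ (2 * a) * p ^ 2 = Nat.card ↥D := by rw [hN, hN', ← pow_add]; congr 1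
          _ = _ := h1.symm
          _ ≤ _ := Nat.mul_le_mul_right _ h2
      exact Nat.le_of_mul_le_mul_left h6 (pow_pos hp.pos _)
    have h6 := Subgroup.eq_of_le_of_card_ge h4 (h3.trans h5)
    have h7 : (⟨x, hxD⟩ : ↥D) ∈ (powMonoidHom (p ^ a) : ↥D →* ↥D).range := by
      rw [h6, MonoidHom.mem_ker, powMonoidHom_apply]
      exact Subtype.ext hx1
    obtain ⟨y, hy⟩ := h7
    exact ⟨y, y.2, (congrArg Subtype.val hy).symm⟩
  have hF : Ku.Faith p a D f := Ku.faith_of_big h hbig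
  rcases Nat.lt_or_ge a 2 with ha | ha
  · obtain rfl : a = 1 := by omega
    exact gap_zero_p2 hp2 h (by rw [hN, hN']) he hr
  · exact (k2_two hp2 h hr (hF.mono ha)).1

end

end Pool.Agent.Lib.P0c8ca5.Ex.V5
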