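import Mathlib
import Pool.Agent.Lib.P0c8ca5Ex.V5Y
import Pool.Agent.Lib.P0c8ca5Kk.Kyg
import Pool.Agent.Lib.P0c8ca5Kk.Kzf
import Pool.Agent.Lib.P0c8ca5Kk.Kzg

/-!
# V5X: Navarro's equality for abelian defect groups of rank two

`G` is normal in `A`, `X` between `G` and `A`, `X / G` a p-group, `p` odd, `e` a block of `G` which is invariant under `X`, `P` a defect
group of `e` as a block of `X`, `P ∩ G` is abelian of rank at most two, `Z = Z(P) ∩ G`.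

`nav_rank2`: Navarro's equality for `(G, X, e)` if `Z` is not of exponent `p` and, if `p = 3`, the elements of order `3` of `Z` are
cubes of elements of `Z`. `nav_rank2s`: Navarro's equality for `(N, H, e)` if for every `Y` between `G` and `H` with `N Y = H` either this
holds or `Z` is cyclic or the inertial index is less than `p`.
-/

set_option linter.unusedSectionVars false

namespace Pool.Agent.Lib.P0c8ca5.Ex.V5

open MonoidAlgebra Kk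

universe u v

section
variable {p : ℕ} {k : Type v} [Field k] {A : Type u} [Group A] [Fintype A]
variable [Fact p.Prime] [CharP k p] [IsAlgClosed k]
variable {e : MonoidAlgebra k A} {G X : Subgroup A}

theorem conj_pow_inv (c x : A) (n : ℕ) : (c⁻¹ * x * c) ^ n = c⁻¹ * x ^ n * c := by
  have h2 := conj_pow (a := c⁻¹) (b := x) (i := n)
  rwa [inv_inv] at h2

/-- a subgroup `D` of a conjugate of `M` with `|Ω₁(M)| ≤ m` -/
theorem card_om_conj {M D : Subgroup A} {g : A} (h : D ≤ cg g M) {m n : ℕ}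
    (hm : Nat.card {x : A // x ∈ M ∧ x ^ n = 1} ≤ m) :
    Nat.card {x : A // x ∈ D ∧ x ^ n = 1} ≤ m := by
  refine le_trans (Nat.card_le_card_of_injective
    (fun x : {x : A // x ∈ D ∧ x ^ n = 1} => (⟨g⁻¹ * x.1 * g, mem_cg.1 (h x.2.1), by
      rw [conj_pow_inv, x.2.2]
      group⟩ : {z : A // z ∈ M ∧ z ^ n = 1})) ?_) hm
  intro x y hxy
  have h4 : g⁻¹ * x.1 * g = g⁻¹ * y.1 * g :=
    congrArg (fun z : {z : A // z ∈ M ∧ z ^ n = 1} => (z : A)) hxy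
  exact Subtype.ext (mul_left_cancel (mul_right_cancel h4))

/-- the elements of order `p` of the groups between the conjugates of `Z` and `M` -/
theorem cubes_conj {M Z D : Subgroup A} {g g' : A} (h : D ≤ cg g M) (hZ : cg g' Z ≤ D) {n : ℕ}
    (hZM : Z ≤ M) (h5 : ∀ x ∈ M, x ^ n = 1 → ∃ z ∈ Z, x = z ^ n) :
    ∀ x ∈ D, x ^ n = 1 → ∃ y ∈ D, x = y ^ n := by
  have hSZ : ∀ x ∈ M, x ^ n = 1 → x ∈ Z := by
    intro x hx hx1
    obtain ⟨z, hz, rfl⟩ := h5 x hx hx1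
    exact Z.pow_mem hz n
  have hset : {x : A | x ∈ cg g' Z ∧ x ^ n = 1} = {x : A | x ∈ D ∧ x ^ n = 1} := by
    refine Set.eq_of_subset_of_ncard_le (fun x hx => ⟨hZ hx.1, hx.2⟩) ?_ (Set.toFinite _)
    calc Set.ncard {x : A | x ∈ D ∧ x ^ n = 1}
        ≤ Set.ncard {x : A | x ∈ M ∧ x ^ n = 1} := by
          refine Set.ncard_le_ncard_of_injOn (fun x => g⁻¹ * x * g) ?_ ?_ (Set.toFinite _)
          · rintro x ⟨hx, hx1⟩
            refine ⟨mem_cg.1 (h hx), ?_⟩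
            rw [conj_pow_inv, hx1]
            group
          · intro x _ y _ hxy
            exact mul_left_cancel (mul_right_cancel hxy)
      _ ≤ Set.ncard {x : A | x ∈ cg g' Z ∧ x ^ n = 1} := by
          refine Set.ncard_le_ncard_of_injOn (fun x => g' * x * g'⁻¹) ?_ ?_ (Set.toFinite _)
          · rintro x ⟨hx, hx1⟩
            refine ⟨mem_cg.2 ?_, ?_⟩
            · have h2 : g'⁻¹ * (g' * x * g'⁻¹) * g' = x := by group
              rw [h2]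
              exact hSZ x hx hx1
            · rw [conj_pow, hx1]
              group
          · intro x _ y _ hxy
            exact mul_left_cancel (mul_right_cancel hxy)
  intro x hx hx1
  have hx2 : x ∈ {x : A | x ∈ cg g' Z ∧ x ^ n = 1} := by
    rw [hset]
    exact ⟨hx, hx1⟩
  have hw := mem_cg.1 hx2.1
  obtain ⟨z, hz, hzx⟩ := h5 _ (hZM hw) (by
    rw [conj_pow_inv, hx1]
    group)
  refine ⟨g' * z * g'⁻¹, hZ (mem_cg.2 ?_), ?_⟩
  · have h2 : g'⁻¹ * (g' * z * g'⁻¹) * g' = z := by group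
    rwa [h2]
  · rw [conj_pow, ← hzx]
    group

theorem nav_rank2_aux (hp2 : p ≠ 2) (hG : G.Normal) (hGX : G ≤ X)
    (hp : ∀ x ∈ X, ∃ n : ℕ, x ^ p ^ n ∈ G) (he : IsBlock G e) (hinv : InvBy X e)
    {P : Subgroup A} (hP : IsDefectGroup p X e P)
    (hcom : ∀ x ∈ P ⊓ G, ∀ y ∈ P ⊓ G, x * y = y * x)
    (hr : Nat.card {x : A // x ∈ P ⊓ G ∧ x ^ p = 1} ≤ p ^ 2)
    (hz : ∃ z ∈ P ⊓ G ⊓ CD P, z ^ p ≠ 1)
    (h5 : p < 5 → ∀ x ∈ P ⊓ G, x ^ p = 1 → ∃ z ∈ P ⊓ G ⊓ CD P, x = z ^ p) :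
    NavarroEq p G X e := by
  refine nav_centX hG hGX hp he hinv hP hcom
    (fun {B} [Group B] (D _ : Subgroup B) => Nat.card {z : B // z ∈ D ∧ z ^ p = 1} ≤ p ^ 2 ∧
      (∃ z ∈ D, z ^ p ≠ 1) ∧ (p < 5 → ∀ x ∈ D, x ^ p = 1 → ∃ y ∈ D, x = y ^ p)) ?_
    (fun {B} _ _ {b f D Z} h _ hΦ => gap_zero_rank2 hp2 h hΦ.1 hΦ.2.1 hΦ.2.2)
  rintro D Z ⟨g, hDg⟩ ⟨g', rfl⟩ hZD H hDH
  refine ⟨?_, ?_, fun hlt x hx hx1 => ?_⟩
  · refine le_trans (Nat.card_le_card_of_injective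
      (fun x : {x : ↥H // x ∈ D.subgroupOf H ∧ x ^ p = 1} => (⟨(x.1 : A),
        Subgroup.mem_subgroupOf.1 x.2.1, congrArg Subtype.val x.2.2⟩ :
          {z : A // z ∈ D ∧ z ^ p = 1})) ?_) (card_om_conj hDg hr)
    intro x y hxy
    exact Subtype.ext (Subtype.ext
      (congrArg (fun z : {z : A // z ∈ D ∧ z ^ p = 1} => (z : A)) hxy))
  · obtain ⟨z, hz, hz1⟩ := hz
    have h1 : g' * z * g'⁻¹ ∈ D := hZD (by
      rw [mem_cg]
      have h2 : g'⁻¹ * (g' * z * g'⁻¹) * g' = z := by group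
      rwa [h2])
    refine ⟨⟨g' * z * g'⁻¹, hDH h1⟩, Subgroup.mem_subgroupOf.2 h1, fun h2 => hz1 ?_⟩
    have h3 : (g' * z * g'⁻¹) ^ p = 1 := congrArg Subtype.val h2
    rw [conj_pow] at h3
    exact conj_eq_one_iff.1 h3
  · obtain ⟨y, hy, hxy⟩ := cubes_conj hDg hZD inf_le_left (h5 hlt) (x : A) (Subgroup.mem_subgroupOf.1 hx)
      (congrArg Subtype.val hx1)
    exact ⟨⟨y, hDH hy⟩, Subgroup.mem_subgroupOf.2 hy, Subtype.ext hxy⟩

/-- the number of the elements of order dividing `p` -/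
theorem card_om_eq {Z : Subgroup A} (hcom : ∀ x ∈ Z, ∀ y ∈ Z, x * y = y * x) :
    ∃ n : ℕ, Nat.card {x : A // x ∈ Z ∧ x ^ p = 1} = p ^ n := by
  let W : Subgroup A :=
    { carrier := {x | x ∈ Z ∧ x ^ p = 1}
      mul_mem' := by
        rintro x y ⟨hx, hx1⟩ ⟨hy, hy1⟩
        refine ⟨Z.mul_mem hx hy, ?_⟩
        have h1 : Commute x y := hcom x hx y hy
        rw [h1.mul_pow, hx1, hy1, one_mul]
      one_mem' := ⟨Z.one_mem, one_pow p⟩
      inv_mem' := by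
        rintro x ⟨hx, hx1⟩
        exact ⟨Z.inv_mem hx, by rw [inv_pow, hx1, inv_one]⟩ }
  have hW : IsPGroup p ↥W := fun x => ⟨1, Subtype.ext (by
    rw [pow_one]
    exact x.2.2)⟩
  obtain ⟨n, hn⟩ := IsPGroup.iff_card.1 hW
  exact ⟨n, hn⟩

/-- **Navarro's equality, rank two** -/
theorem nav_rank2 (hp2 : p ≠ 2) (hG : G.Normal) (hGX : G ≤ X)
    (hp : ∀ x ∈ X, ∃ n : ℕ, x ^ p ^ n ∈ G) (he : IsBlock G e) (hinv : InvBy X e)
    {P : Subgroup A} (hP : IsDefectGroup p X e P)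
    (hcom : ∀ x ∈ P ⊓ G, ∀ y ∈ P ⊓ G, x * y = y * x)
    (hr : Nat.card {x : A // x ∈ P ⊓ G ∧ x ^ p = 1} ≤ p ^ 2)
    (hz : ∃ z ∈ P ⊓ G ⊓ CD P, z ^ p ≠ 1)
    (h5 : p < 5 → ∀ x ∈ P ⊓ G ⊓ CD P, x ^ p = 1 → ∃ z ∈ P ⊓ G ⊓ CD P, x = z ^ p) :
    NavarroEq p G X e := by
  have hpp : p.Prime := Fact.out
  by_cases hc : Nat.card {x : A // x ∈ P ⊓ G ⊓ CD P ∧ x ^ p = 1} ≤ p
  · exact nav_z1 hp2 hG hGX hp he hinv hP hcom hc
  obtain ⟨n, hn⟩ := card_om_eq (p := p) (Z := P ⊓ G ⊓ CD P)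
    (fun x hx y hy => hcom x (inf_le_left (a := P ⊓ G) hx) y (inf_le_left (a := P ⊓ G) hy))
  have h2 : p ^ 2 ≤ Nat.card {x : A // x ∈ P ⊓ G ⊓ CD P ∧ x ^ p = 1} := by
    rw [hn] at hc ⊢
    refine Nat.pow_le_pow_right hpp.pos ?_
    by_contra h3
    apply hc
    calc p ^ n ≤ p ^ 1 := Nat.pow_le_pow_right hpp.pos (by omega)
      _ = p := pow_one p
  have hset : {x : A | x ∈ P ⊓ G ⊓ CD P ∧ x ^ p = 1} = {x : A | x ∈ P ⊓ G ∧ x ^ p = 1} := by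
    refine Set.eq_of_subset_of_ncard_le (fun x hx => ⟨inf_le_left (a := P ⊓ G) hx.1, hx.2⟩) ?_
      (Set.toFinite _)
    exact hr.trans h2
  refine nav_rank2_aux hp2 hG hGX hp he hinv hP hcom hr hz fun hlt x hx hx1 => h5 hlt x ?_ hx1
  have h3 : x ∈ {x : A | x ∈ P ⊓ G ⊓ CD P ∧ x ^ p = 1} := by
    rw [hset]
    exact ⟨hx, hx1⟩
  exact h3.1

/-- Navarro's equality if `Z(P) ∩ G` is cyclic -/
theorem nav_cyclicZ (hp2 : p ≠ 2) (hG : G.Normal) (hGX : G ≤ X)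
    (hp : ∀ x ∈ X, ∃ n : ℕ, x ^ p ^ n ∈ G) (he : IsBlock G e) (hinv : InvBy X e)
    {P : Subgroup A} (hP : IsDefectGroup p X e P)
    (hcom : ∀ x ∈ P ⊓ G, ∀ y ∈ P ⊓ G, x * y = y * x)
    (hz : IsCyclic ↥(P ⊓ G ⊓ CD P)) : NavarroEq p G X e := by
  refine nav_z1 hp2 hG hGX hp he hinv hP hcom ?_
  have hp' : p.Prime := Fact.out
  classical
  have : Fintype ↥(P ⊓ G ⊓ CD P) := Fintype.ofFinite _
  have h1 := IsCyclic.card_pow_eq_one_le (α := ↥(P ⊓ G ⊓ CD P)) hp'.pos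
  refine le_trans (le_of_eq ?_) h1
  rw [← Fintype.card_coe, ← Nat.card_eq_fintype_card]
  refine Nat.card_congr
    { toFun := fun x => ⟨⟨x.1, x.2.1⟩, Finset.mem_filter.2 ⟨Finset.mem_univ _,
        Subtype.ext x.2.2⟩⟩
      invFun := fun x => ⟨x.1.1, x.1.2, congrArg Subtype.val (Finset.mem_filter.1 x.2).2⟩
      left_inv := fun x => rfl
      right_inv := fun x => rfl }

/-- **Navarro's equality, rank two, for the pairs above `G`** -/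
theorem nav_rank2s (hp2 : p ≠ 2) [G.Normal] (hp : ∀ x : A, ∃ n : ℕ, x ^ p ^ n ∈ G)
    (he : IsBlock G e) (hinv : InvBy ⊤ e) {D : Subgroup A} (hD : IsDefectGroup p G e D)
    (hcom : ∀ x ∈ D, ∀ y ∈ D, x * y = y * x)
    (hr : Nat.card {x : A // x ∈ D ∧ x ^ p = 1} ≤ p ^ 2) {N H : Subgroup A} (hGN : G ≤ N)
    (hNH : N ≤ H) (hn : H ≤ Subgroup.normalizer (N : Set A))
    (hz : ∀ Y, G ≤ Y → Y ≤ H → N ⊔ Y = H → ∃ P, IsDefectGroup p Y e P ∧
      (IsCyclic ↥(P ⊓ G ⊓ CD P) ∨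
        ((∃ z ∈ P ⊓ G ⊓ CD P, z ^ p ≠ 1) ∧
          (p < 5 → ∀ x ∈ P ⊓ G ⊓ CD P, x ^ p = 1 → ∃ z ∈ P ⊓ G ⊓ CD P, x = z ^ p)) ∨
        ∃ f : MonoidAlgebra k A, IsBlock (Y ⊓ CD P) f ∧ resS (CD P : Set A) e * f = f ∧
          (P ⊔ Y ⊓ CD P).relIndex (Y ⊓ St P f) < p)) : NavarroEq p N H e := by
  classical
  refine Kk.nav_of_suppl hGN hNH hn hp he hinv fun Y hGY hYH hNY => ?_
  obtain ⟨P, hP, h1⟩ := hz Y hGY hYH hNY
  have hbr : HasBr (P ⊓ G) e := by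
    obtain ⟨x, hx, hxe⟩ := hP.br
    exact ⟨x, Subgroup.centralizer_le (inf_le_left : P ⊓ G ≤ P) hx, hxe⟩
  obtain ⟨D', hD', hle⟩ := exists_defect (p := p) (N := G) (P := P ⊓ G) inf_le_right
    (hP.isPGroup.to_le inf_le_left) hbr
  obtain ⟨g, -, rfl⟩ := Kk.KybAux.defect_conjX he hD hD'
  have hab : ∀ x ∈ P ⊓ G, ∀ y ∈ P ⊓ G, x * y = y * x := by
    intro x hx y hy
    have hx' := mem_cg.1 (hle hx)
    have hy' := mem_cg.1 (hle hy)
    have h1 := hcom _ hx' _ hy'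
    calc x * y = g * ((g⁻¹ * x * g) * (g⁻¹ * y * g)) * g⁻¹ := by group
      _ = g * ((g⁻¹ * y * g) * (g⁻¹ * x * g)) * g⁻¹ := by rw [h1]
      _ = y * x := by group
  rcases h1 with h1 | ⟨h1, h5⟩ | ⟨f, hf, hef, hI⟩
  · exact nav_cyclicZ hp2 inferInstance hGY (fun x _ => hp x) he (hinv.mono le_top) hP hab h1
  · exact nav_rank2 hp2 inferInstance hGY (fun x _ => hp x) he (hinv.mono le_top) hP hab
      (card_om_conj hle hr) h1 h5
  · exact Kk.nav_indX hGY (fun x _ => mem_norm_of_normal G x) (fun x _ => hp x) he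
      (hinv.mono le_top) hP hab hf hef hI

end

end Pool.Agent.Lib.P0c8ca5.Ex.V5
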