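import Mathlib
import Pool.Agent.Lib.P0c8ca5Ex.V5N
import Pool.Agent.Lib.P0c8ca5Ku.KL

/-!
# WGa: the centralizer of an element fixed by the inertial group

Let `z ∈ D` be fixed by the elements of `St D f` and `c` the block of `C(z)` below `(D, f)`. If `b`
and `c` have the same number of simple modules then `gap` is the same for `b` and `c`.
-/

set_option linter.unusedSectionVars false

namespace Pool.Agent.Lib.P0c8ca5.Ex

open MonoidAlgebra Kq Kk Ku

universe u v

namespace WG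

section
variable {k : Type v} [Field k] [IsAlgClosed k] {A : Type u} [Group A]
  {p : ℕ} [Fact p.Prime] [CharP k p] {b f i c : MonoidAlgebra k A} {D : Subgroup A}

/-- the inertial group lies in the centralizer of `z` -/
theorem St_le_C1 {z : A} (hzE : ∀ g ∈ St D f, g * z = z * g) : St D f ≤ C1 z := by
  intro g hg
  rw [mem_C1']
  exact (hzE g hg).symm

variable [Fintype A]

theorem root_red (h : Src p b D f i) {z : A} (hz : z ∈ D) (hc : LbH (C1 z) i c) :
    Root p (dn (C1 z) c) (D.subgroupOf (C1 z)) (dn (C1 z) f) := (src_loc h hz hc).root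

theorem D_le_C1 (h : Root p b D f) {z : A} (hz : z ∈ D) : D ≤ C1 z := by
  intro x hx
  rw [mem_C1']
  exact h.com z hz x hx

theorem St_red (h : Root p b D f) {z : A} (hz : z ∈ D) (hzE : ∀ g ∈ St D f, g * z = z * g) :
    St (D.subgroupOf (C1 z)) (dn (C1 z) f) = (St D f).subgroupOf (C1 z) := by
  rw [FinAux.St_subgroupOf (D_le_C1 h hz) ((supp_St h).mono (St_le_C1 hzE)),
    inf_eq_right.2 (St_le_C1 hzE)]

theorem kap_red (hp2 : p ≠ 2) (h : Src p b D f i) {z : A} (hz : z ∈ D)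
    (hzE : ∀ g ∈ St D f, g * z = z * g) (hc : LbH (C1 z) i c) :
    kap D b = kap (D.subgroupOf (C1 z)) (dn (C1 z) c) := by
  have : Fintype ↥(C1 z) := Fintype.ofFinite _
  have h1 : kap (D.subgroupOf (C1 z)) (dn (C1 z) c)
      = Nat.card (IrX (St (D.subgroupOf (C1 z)) (dn (C1 z) f)) (dn (C1 z) f)) :=
    Nc.kap_St hp2 (src_loc h hz hc) (Ku.ndvd (root_red h hz hc))
  rw [Nc.kap_St hp2 h (Ku.ndvd h.root), h1, St_red h.root hz hzE,
    irX_dn (St_le_C1 hzE) (supp_St h.root)]

end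

section
variable {k : Type v} [Field k] [IsAlgClosed k] {A : Type u} [Group A] [Fintype A]
  {p : ℕ} [Fact p.Prime] [CharP k p] {b f i c : MonoidAlgebra k A} {D : Subgroup A}

/-- the block of `C(z)` below the source idempotent lies below `b` -/
theorem below (h : Src p b D f i) {z : A} (hz : z ∈ D) (hc : LbH (C1 z) i c) :
    resS (C1 z : Set A) b * c = c := by
  have key : ∀ H : Subgroup A, CD (Subgroup.zpowers z) = H → LbH H i c →
      resS (H : Set A) b * c = c := by
    rintro H rfl hc'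
    exact Lb.b_mul h (zp_le hz) (hc'.toLb rfl)
  exact key _ (CD_zpowers z) hc

/-- **`gap` for `b` and for the block of `C(z)`** -/
theorem gap_red_src (hp2 : p ≠ 2) (h : Src p b D f i) {z : A} (hz : z ∈ D)
    (hzE : ∀ g ∈ St D f, g * z = z * g) (hc : LbH (C1 z) i c) [Fintype ↥(C1 z)]
    (hl : Nat.card (IrX (C1 z) c) = Nat.card (IrX (⊤ : Subgroup A) b)) :
    gap p (⊤ : Subgroup A) ⊤ b = gap p (⊤ : Subgroup ↥(C1 z)) ⊤ (dn (C1 z) c) := by
  rw [gap_val h.root, gap_val (root_red h hz hc), ← kap_red hp2 h hz hzE hc, ← hl]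
  have h1 : Nat.card (IrX (⊤ : Subgroup ↥(C1 z)) (dn (C1 z) c)) = Nat.card (IrX (C1 z) c) := by
    rw [← irX_dn (le_refl (C1 z)) hc.blk.suppIn]
    congr 2
    exact (Subgroup.subgroupOf_self (C1 z)).symm
  rw [h1]

/-- the form at `Root`: `hl` is the equality of the numbers of simple modules -/
theorem gap_red (hp2 : p ≠ 2) (h : Root p b D f) {z : A} (hz : z ∈ D)
    (hzE : ∀ g ∈ St D f, g * z = z * g) [Fintype ↥(C1 z)]
    (hl : ∀ i c, Src p b D f i → LbH (C1 z) i c →
      Nat.card (IrX (C1 z) c) = Nat.card (IrX (⊤ : Subgroup A) b)) :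
    ∃ c : MonoidAlgebra k A, IsBlock (C1 z) c ∧ resS (C1 z : Set A) b * c = c ∧
      Root p (dn (C1 z) c) (D.subgroupOf (C1 z)) (dn (C1 z) f) ∧
      St (D.subgroupOf (C1 z)) (dn (C1 z) f) = (St D f).subgroupOf (C1 z) ∧
      gap p (⊤ : Subgroup A) ⊤ b = gap p (⊤ : Subgroup ↥(C1 z)) ⊤ (dn (C1 z) c) := by
  obtain ⟨i, hi⟩ := exists_src h
  obtain ⟨c, hc⟩ := exists_lbH hi hz
  exact ⟨c, hc.blk, below hi hz hc, root_red hi hz hc, St_red h hz hzE,
    gap_red_src hp2 hi hz hzE hc (hl i c hi hc)⟩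

end

end WG

end Pool.Agent.Lib.P0c8ca5.Ex
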