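import Mathlib
import Pool.Agent.Lib.P0c8ca5Kk.Kb
import Pool.Agent.Lib.P0c8ca5Ex.Jd
import Pool.Agent.Lib.P0c8ca5Kk.Kxb
import Pool.Agent.Lib.P0c8ca5Kk.Ke
import Pool.Agent.Lib.P0c8ca5Bw.NilB
import Pool.Agent.Lib.P0c8ca5S.BrUp
import Pool.Agent.Lib.P0c8ca5V.TDefs
import Pool.Agent.Lib.P0c8ca5V.Quo
import Pool.Agent.Lib.P0c8ca5Ex.Fu

/-!
# Ex.WQa: blocks modulo a central p-subgroup

`Z` is a central p-subgroup of `A` (`Cn Z`), `qq hc : A →* NQ Z` the projection.

* `isBlock_quo`: the image of a block of `K ≥ Z` is a block of `K/Z`;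
* `Cs D Z`: the elements `x` with `[x, D] ≤ Z`, the preimage of the centralizer of `D/Z`;
* `res_quo`: the Brauer map of the image of a block `b` at `D/Z` is the image of the Brauer map of `b` at `D`.
-/

set_option autoImplicit false
set_option linter.unusedSectionVars false

namespace Pool.Agent.Lib.P0c8ca5.Ex.WQ

open MonoidAlgebra Kk KbAux

section
variable {A : Type*} [Group A] {Z : Subgroup A}

/-- `Z` is central -/
def Cn (Z : Subgroup A) : Prop := ∀ z ∈ Z, ∀ g : A, g * z = z * g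

theorem Cn.conj (h : Cn Z) {z : A} (hz : z ∈ Z) (g : A) : g * z * g⁻¹ = z := by
  rw [h z hz g]
  group

theorem Cn.norm (h : Cn Z) : Subgroup.normalizer (Z : Set A) = ⊤ := by
  rw [eq_top_iff]
  intro g _
  rw [Subgroup.mem_normalizer_iff]
  intro z
  constructor
  · intro hz
    rw [h.conj hz]
    exact hz
  · intro hz
    have h1 := h _ hz g
    have h2 : g * z * g⁻¹ = z := by
      have h3 : g * (g * z * g⁻¹) = g * z := by
        rw [h1]
        group
      exact mul_left_cancel h3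
    rwa [h2] at hz

theorem Cn.inv {k : Type*} [Field k] (h : Cn Z) (a : MonoidAlgebra k A) : InvBy Z a := by
  intro g hg x
  have e : g * x * g⁻¹ = x := by
    rw [← h g hg x]
    group
  rw [e]

theorem Cn.mem (h : Cn Z) (x : A) : x ∈ Subgroup.normalizer (Z : Set A) :=
  h.norm ▸ Subgroup.mem_top x

/-- the projection -/
def qq (hc : Cn Z) : A →* NQ Z where
  toFun x := qm Z x (hc.mem x)
  map_one' := rfl
  map_mul' := fun _ _ => rfl

theorem qq_apply (hc : Cn Z) (x : A) : qq hc x = qm Z x (hc.mem x) := rfl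

theorem qq_surj (hc : Cn Z) (w : NQ Z) : ∃ x, w = qq hc x := by
  obtain ⟨x, hx, rfl⟩ := qm_surj w
  exact ⟨x, rfl⟩

theorem qq_eq (hc : Cn Z) {x y : A} : qq hc x = qq hc y ↔ x⁻¹ * y ∈ Z := qm_eq_iff

theorem qq_mem (hc : Cn Z) {K : Subgroup A} (hK : Z ≤ K) {x : A} :
    qq hc x ∈ sec K Z ↔ x ∈ K := qm_mem_sec_iff hK

theorem qq_conj (hc : Cn Z) (g x : A) :
    qq hc (g * x * g⁻¹) = qq hc g * qq hc x * (qq hc g)⁻¹ := rfl

end

section
variable {p : ℕ} [Fact p.Prime] {k : Type*} [Field k] {A : Type*} [Group A] [Fintype A]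
  {Z : Subgroup A}

theorem preg_q (hc : Cn Z) {x : A} (hx : Preg p x) :
    Preg p (qq hc x) := QuoAux.preg_hom (f := qq hc) hx

/-- a p-regular element is determined by its image -/
theorem preg_inj (hZ : IsPGroup p Z) (hc : Cn Z) {x y : A} (hx : Preg p x) (hy : Preg p y)
    (h : x⁻¹ * y ∈ Z) : x = y := by
  obtain ⟨m, hm⟩ := hZ ⟨_, h⟩
  have hm' : (x⁻¹ * y) ^ p ^ m = 1 := congrArg Subtype.val hm
  have hcm : Commute x (x⁻¹ * y) := hc _ h x
  have e : x * (x⁻¹ * y) = y := by group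
  have h1 := pr_mul (p := p) hcm
  rw [e, pr_eq_self hx, pr_eq_self hy, pr_of_pow hm', mul_one] at h1
  exact h1.symm

/-- p-regular elements lift to p-regular elements -/
theorem exists_preg (hc : Cn Z) {w : NQ Z} (hw : Preg p w) :
    ∃ x : A, Preg p x ∧ w = qq hc x := by
  obtain ⟨y, rfl⟩ := qq_surj hc w
  refine ⟨pr p y, preg_pr y, ?_⟩
  have h := QuoAux.pr_hom (p := p) (qq hc) y
  rw [pr_eq_self hw] at h
  exact h

open Classical in
/-- the lift of an element supported on the p-regular elements -/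
noncomputable def lf (p : ℕ) (hc : Cn Z)
    (g : MonoidAlgebra k (NQ Z)) : MonoidAlgebra k A :=
  MonoidAlgebra.ofCoeff (Finsupp.equivFunOnFinite.symm fun x =>
    if Preg p x then g.coeff (qq hc x) else 0)

open Classical in
theorem coeff_lf (hc : Cn Z) (g : MonoidAlgebra k (NQ Z)) (x : A) :
    (lf p hc g).coeff x = if Preg p x then g.coeff (qq hc x) else 0 := by
  rw [lf, coeff_ofCoeff, Finsupp.equivFunOnFinite_symm_apply_apply]

theorem proj_lf (hZ : IsPGroup p Z) (hc : Cn Z) {g : MonoidAlgebra k (NQ Z)}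
    (hg : ∀ w, g.coeff w ≠ 0 → Preg p w) : proj Z (lf p hc g) = g := by
  classical
  ext w
  by_cases hw : Preg p w
  · obtain ⟨x, hx, rfl⟩ := exists_preg hc hw
    rw [qq_apply, coeff_proj, Finset.sum_eq_single x]
    · rw [if_pos (by rw [inv_mul_cancel]; exact Z.one_mem), coeff_lf, if_pos hx]
      rfl
    · intro y _ hy
      by_cases h : x⁻¹ * y ∈ Z
      · rw [if_pos h, coeff_lf, if_neg]
        intro hy2
        exact hy (preg_inj hZ hc hx hy2 h).symm
      · rw [if_neg h]
    · intro h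
      exact absurd (Finset.mem_univ _) h
  · have h0 : g.coeff w = 0 := by
      by_contra h
      exact hw (hg w h)
    obtain ⟨n, rfl⟩ := qq_surj hc w
    rw [h0, qq_apply, coeff_proj]
    refine Finset.sum_eq_zero fun x _ => ?_
    by_cases h : n⁻¹ * x ∈ Z
    · rw [if_pos h, coeff_lf, if_neg]
      intro hx
      apply hw
      have e : qq hc n = qq hc x := (qq_eq hc).2 h
      rw [e]
      exact preg_q hc hx
    · rw [if_neg h]

theorem lf_mem (hc : Cn Z) {K : Subgroup A} (hK : Z ≤ K) {g : MonoidAlgebra k (NQ Z)}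
    (hg : g ∈ fixAlg k (sec K Z) (sec K Z)) : lf p hc g ∈ fixAlg k K K := by
  classical
  rw [mem_fixAlg] at hg ⊢
  constructor
  · intro x hx
    rw [coeff_lf] at hx
    by_cases h : Preg p x
    · rw [if_pos h] at hx
      exact (qq_mem hc hK).1 (hg.1 _ hx)
    · rw [if_neg h] at hx
      exact absurd rfl hx
  · intro y hy x
    rw [coeff_lf, coeff_lf, qq_conj, hg.2 _ ((qq_mem hc hK).2 hy)]
    by_cases h : Preg p x
    · rw [if_pos h, if_pos ((preg_conj y x).2 h)]
    · rw [if_neg h, if_neg (fun h' => h ((preg_conj y x).1 h'))]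

variable [CharP k p] [IsAlgClosed k]

/-- **blocks modulo a central p-subgroup** -/
theorem isBlock_quo (hZ : IsPGroup p Z) (hc : Cn Z) {K : Subgroup A} (hK : Z ≤ K)
    {e : MonoidAlgebra k A} (he : IsBlock K e) : IsBlock (sec K Z) (proj Z e) := by
  classical
  have hem := mem_fixAlg.1 he.mem
  have hmem : proj Z e ∈ fixAlg k (sec K Z) (sec K Z) :=
    mem_fixAlg.2 ⟨proj_suppIn hem.1 Z, proj_invBy' hem.2⟩
  have hid : proj Z e * proj Z e = proj Z e := by
    rw [← proj_mul hZ (hc.inv e) (hc.inv e), he.idem]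
  have hne : proj Z e ≠ 0 := by
    refine Bw.NilBAux.proj_ne_zero (p := p) hZ (hc.inv e) he.idem ?_
    obtain ⟨x, hx⟩ : ∃ x, e.coeff x ≠ 0 := by
      by_contra h
      push Not at h
      exact he.ne_zero (by ext x; exact h x)
    exact ⟨x, Subgroup.mem_centralizer_iff.2 fun z hz => (hc z hz x).symm, hx⟩
  obtain ⟨f, hf, hfe⟩ := Ps.exists_block_le hmem hne hid
  have hfr : ∀ w, f.coeff w ≠ 0 → Preg p w := fun w hw => KxbAux.osima_sub hf hw
  set t := lf p hc f with ht
  have htm : t ∈ fixAlg k K K := lf_mem hc hK hf.mem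
  have htp : proj Z t = f := proj_lf hZ hc hfr
  have hfin : proj Z e = f := by
    rcases blk_nilp_or_unit he htm with h | ⟨w, hw, hwe⟩
    · exfalso
      have h1 := JdAux.proj_nilp (p := p) hZ (hc.inv (t * e)) h
      rw [proj_mul hZ (hc.inv _) (hc.inv _), htp, hfe] at h1
      exact hf.ne_zero (JdAux.idem_nilp hf.idem h1)
    · have h1 : f * proj Z w * proj Z e = proj Z e := by
        rw [← htp, ← proj_mul hZ (hc.inv _) (hc.inv _), ← proj_mul hZ (hc.inv _) (hc.inv _), hwe]
      have h2 : f * proj Z e = proj Z e := by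
        rw [← h1, ← mul_assoc, ← mul_assoc, hf.idem]
      rw [← h2, hfe]
  rw [hfin]
  exact hf

end

end Pool.Agent.Lib.P0c8ca5.Ex.WQ
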