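import Mathlib
import Pool.Agent.Lib.P0c8ca5Ex.WQa
import Pool.Agent.Lib.P0c8ca5E.OrbDz
import Pool.Agent.Lib.P0c8ca5P.FrF
import Pool.Agent.Lib.P0c8ca5V.QCor

/-!
# Ex.WQb: the root of a block modulo a central p-subgroup

`Z ≤ D` is a central p-subgroup of `A`, `b` a block with the abelian defect group `D` and `f` a block of `C(D)` below `b`.
`Cs hc D` is the preimage of `C(D/Z)`, the group of the `x` with `[x, D] ≤ Z`. The sum of the conjugates of `f` under
`Cs hc D` is a block of `Cs hc D`, and its image `f'` is a block of `C(D/Z)` below the image of `b`.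
-/

set_option autoImplicit false
set_option linter.unusedSectionVars false

namespace Pool.Agent.Lib.P0c8ca5.Ex.WQ

open MonoidAlgebra Kk KbAux

section
variable {A : Type*} [Group A] {Z D : Subgroup A}

/-- the preimage of the centralizer of `D/Z` -/
def Cs (hc : Cn Z) (D : Subgroup A) : Subgroup A := (CD (sec D Z)).comap (qq hc)

theorem mem_Cs (hc : Cn Z) {x : A} : x ∈ Cs hc D ↔ ∀ d ∈ D, x * d * x⁻¹ * d⁻¹ ∈ Z := by
  rw [Cs, Subgroup.mem_comap, Subgroup.mem_centralizer_iff]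
  have key : ∀ d : A, qq hc d * qq hc x = qq hc x * qq hc d ↔ x * d * x⁻¹ * d⁻¹ ∈ Z := by
    intro d
    rw [← map_mul, ← map_mul, qq_eq hc]
    have e : x * d * x⁻¹ * d⁻¹ = (d * x) * ((d * x)⁻¹ * (x * d)) * (d * x)⁻¹ := by group
    constructor
    · intro h
      rw [e, hc.conj h]
      exact h
    · intro h
      have h1 := hc.conj h (d * x)⁻¹
      have e2 : (d * x)⁻¹ * (x * d * x⁻¹ * d⁻¹) * (d * x)⁻¹⁻¹ = (d * x)⁻¹ * (x * d) := by group
      rw [e2] at h1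
      rw [h1]
      exact h
  constructor
  · intro h d hd
    exact (key d).1 (h _ (qm_mem_sec _ hd))
  · intro h w hw
    obtain ⟨d, hd, hd', rfl⟩ := mem_sec.1 hw
    exact (key d).2 (h d hd)

theorem Z_le_Cs (hc : Cn Z) : Z ≤ Cs hc D := by
  intro z hz
  rw [mem_Cs]
  intro d _
  have e : z * d * z⁻¹ * d⁻¹ = 1 := by
    rw [← hc z hz d]
    group
  rw [e]
  exact Z.one_mem

theorem CD_le_Cs (hc : Cn Z) : CD D ≤ Cs hc D := by
  intro x hx
  rw [mem_Cs]
  intro d hd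
  have e : x * d * x⁻¹ * d⁻¹ = 1 := by
    rw [← Subgroup.mem_centralizer_iff.1 hx d hd]
    group
  rw [e]
  exact Z.one_mem

theorem Cs_le_norm (hc : Cn Z) (hZD : Z ≤ D) : Cs hc D ≤ Subgroup.normalizer (D : Set A) := by
  have key : ∀ x ∈ Cs hc D, ∀ d ∈ D, x * d * x⁻¹ ∈ D := by
    intro x hx d hd
    have h := D.mul_mem (hZD ((mem_Cs hc).1 hx d hd)) hd
    rwa [inv_mul_cancel_right] at h
  intro x hx
  rw [Subgroup.mem_normalizer_iff]
  intro d
  constructor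
  · exact key x hx d
  · intro h
    have h1 := key x⁻¹ ((Cs hc D).inv_mem hx) _ h
    have e : x⁻¹ * (x * d * x⁻¹) * x⁻¹⁻¹ = d := by group
    rwa [e] at h1

theorem sec_Cs (hc : Cn Z) : sec (Cs hc D) Z = CD (sec D Z) := by
  ext w
  obtain ⟨x, rfl⟩ := qq_surj hc w
  rw [qq_mem hc (Z_le_Cs hc)]
  rfl

theorem norm_le_norm_CD : Subgroup.normalizer (D : Set A) ≤
    Subgroup.normalizer ((CD D : Subgroup A) : Set A) := by
  intro x hx
  rw [← cg_eq_self_iff, FuAux.cg_CD, cg_eq_self_iff.2 hx]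

theorem norm_le_norm_Cs (hc : Cn Z) : Subgroup.normalizer (D : Set A) ≤
    Subgroup.normalizer ((Cs hc D : Subgroup A) : Set A) := by
  have key : ∀ g ∈ Subgroup.normalizer (D : Set A), ∀ x ∈ Cs hc D, g * x * g⁻¹ ∈ Cs hc D := by
    intro g hg x hx
    rw [mem_Cs] at hx ⊢
    intro d hd
    have hd' : g⁻¹ * d * g ∈ D := by
      have h1 := (Subgroup.mem_normalizer_iff.1 ((Subgroup.normalizer (D : Set A)).inv_mem hg) d).1 hd
      rwa [inv_inv] at h1
    have h1 := hx _ hd'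
    have h2 := hc.conj h1 g
    have e : g * (x * (g⁻¹ * d * g) * x⁻¹ * (g⁻¹ * d * g)⁻¹) * g⁻¹ =
      g * x * g⁻¹ * d * (g * x * g⁻¹)⁻¹ * d⁻¹ := by group
    rw [← e, h2]
    exact h1
  intro g hg
  rw [Subgroup.mem_normalizer_iff]
  intro x
  constructor
  · exact key g hg x
  · intro h
    have h1 := key g⁻¹ ((Subgroup.normalizer (D : Set A)).inv_mem hg) _ h
    have e : g⁻¹ * (g * x * g⁻¹) * g⁻¹⁻¹ = x := by group
    rwa [e] at h1

/-- powers of the elements of `Cs hc D` act by the powers of the commutator -/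
theorem Cs_pow (hc : Cn Z) {x d : A} (h : x * d * x⁻¹ * d⁻¹ ∈ Z) (n : ℕ) :
    x ^ n * d * (x ^ n)⁻¹ = (x * d * x⁻¹ * d⁻¹) ^ n * d := by
  set z := x * d * x⁻¹ * d⁻¹ with hz
  have h0 : x * d * x⁻¹ = z * d := by rw [hz]; group
  induction n with
  | zero => simp
  | succ n ih =>
    have hzn : z ^ n ∈ Z := Z.pow_mem h n
    calc x ^ (n + 1) * d * (x ^ (n + 1))⁻¹ = x * (x ^ n * d * (x ^ n)⁻¹) * x⁻¹ := by
          rw [pow_succ']
          group
      _ = x * (z ^ n * d) * x⁻¹ := by rw [ih]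
      _ = (x * z ^ n) * d * x⁻¹ := by simp only [mul_assoc]
      _ = (z ^ n * x) * d * x⁻¹ := by rw [hc _ hzn x]
      _ = z ^ n * (x * d * x⁻¹) := by simp only [mul_assoc]
      _ = z ^ n * (z * d) := by rw [h0]
      _ = z ^ (n + 1) * d := by
          rw [pow_succ]
          exact (mul_assoc _ _ _).symm

theorem Cs_quot {p : ℕ} [Fact p.Prime] [Finite A] (hZ : IsPGroup p Z) (hc : Cn Z) :
    ∃ n : ℕ, ∀ x ∈ Cs hc D, x ^ p ^ n ∈ CD D := by
  obtain ⟨n, hn⟩ := IsPGroup.iff_card.1 hZ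
  refine ⟨n, fun x hx => ?_⟩
  rw [Subgroup.mem_centralizer_iff]
  intro d hd
  have h := (mem_Cs hc).1 hx d hd
  have h1 := Cs_pow hc h (p ^ n)
  have h2 : (x * d * x⁻¹ * d⁻¹) ^ p ^ n = 1 := by
    have h3 : (⟨_, h⟩ : ↥Z) ^ p ^ n = 1 := by
      rw [← hn]
      exact pow_card_eq_one'
    exact congrArg Subtype.val h3
  rw [h2, one_mul] at h1
  calc d * x ^ p ^ n = (x ^ p ^ n * d * (x ^ p ^ n)⁻¹) * x ^ p ^ n := by rw [h1]
    _ = x ^ p ^ n * d := by group

end

section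
variable {p : ℕ} [Fact p.Prime] {k : Type*} [Field k] [CharP k p] [IsAlgClosed k]
  {A : Type*} [Group A] [Fintype A] {Z D : Subgroup A} {b f : MonoidAlgebra k A}

/-- the sum of the conjugates of `f` under `Cs hc D` is a block of `Cs hc D` -/
theorem isBlock_orb (hZ : IsPGroup p Z) (hc : Cn Z) (hZD : Z ≤ D) (hf : IsBlock (CD D) f) :
    IsBlock (Cs hc D) (orbSum (Cs hc D) f) := by
  have hK : Cs hc D ≤ Subgroup.normalizer ((CD D : Subgroup A) : Set A) :=
    (Cs_le_norm hc hZD).trans norm_le_norm_CD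
  obtain ⟨n, hn⟩ := Cs_quot (D := D) hZ hc
  have hmem := mem_fixAlg.1 (orbSum_mem hK hf)
  refine ⟨mem_fixAlg.2 ⟨hmem.1.mono (CD_le_Cs hc), orbSum_invBy _ _⟩, orbSum_idem hK hf,
    orbSum_ne_zero hK hf, fun g hg hgg hgF => ?_⟩
  have h1 : SuppIn (CD D) g := supp_in_of_pQuotient (CD_le_Cs hc) hK (fun x hx => ⟨n, hn x hx⟩) hg hgg
  have h2 := (mem_fixAlg.1 hg).2
  exact orbSum_prim hK hf (mem_fixAlg.2 ⟨h1, h2.mono (CD_le_Cs hc)⟩) h2 hgg hgF

/-- the Brauer map of the image -/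
theorem res_quo (hZ : IsPGroup p Z) (hc : Cn Z) (hb : IsBlock (⊤ : Subgroup A) b) :
    resS (CD (sec D Z) : Set (NQ Z)) (proj Z b) = proj Z (resS (CD D : Set A) b) := by
  classical
  obtain ⟨m, hm⟩ := Cs_quot (D := D) hZ hc
  ext w
  obtain ⟨n, rfl⟩ := qq_surj hc w
  have hmem : qq hc n ∈ CD (sec D Z) ↔ n ∈ Cs hc D := Iff.rfl
  by_cases hn : n ∈ Cs hc D
  · rw [coeff_resS_of_mem _ (hmem.2 hn), qq_apply, coeff_proj, coeff_proj]
    refine Finset.sum_congr rfl fun x _ => ?_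
    by_cases hx : n⁻¹ * x ∈ Z
    · rw [if_pos hx, if_pos hx]
      have hxC : x ∈ Cs hc D := by
        have h1 := (Cs hc D).mul_mem hn (Z_le_Cs hc hx)
        rwa [mul_inv_cancel_left] at h1
      by_cases hx0 : b.coeff x = 0
      · rw [hx0, coeff_resS]
        split_ifs
        · exact hx0.symm
        · rfl
      · have h2 : x ∈ CD D := mem_of_preg (KxbAux.osima_sub (p := p) hb hx0) (hm x hxC)
        rw [coeff_resS_of_mem _ h2]
    · rw [if_neg hx, if_neg hx]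
  · rw [coeff_resS_of_notMem _ (fun h => hn (hmem.1 h)), qq_apply, coeff_proj]
    symm
    refine Finset.sum_eq_zero fun x _ => ?_
    by_cases hx : n⁻¹ * x ∈ Z
    · rw [if_pos hx, coeff_resS_of_notMem]
      intro hxD
      apply hn
      have h1 := (Cs hc D).mul_mem (CD_le_Cs hc hxD) ((Cs hc D).inv_mem (Z_le_Cs hc hx))
      have e : x * (n⁻¹ * x)⁻¹ = n := by group
      rwa [e] at h1
    · rw [if_neg hx]

end

end Pool.Agent.Lib.P0c8ca5.Ex.WQ
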