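import Mathlib
import Pool.Agent.Lib.P0c8ca5Ex.WQb
import Pool.Agent.Lib.P0c8ca5.WeightsB

/-!
# Ex.WQc: the root of a block modulo a central p-subgroup, theorem

* `root_quo`: `(D/Z, fq)` is a root of the image of `b`, `fq` the image of the sum of the conjugates of `f` under `Cs hc D`;
* `st_up`: the images of the elements of `St D f` are in `St (D/Z) fq`;
* `st_down`: the elements of `St (D/Z) fq` are products of an element of `C(D/Z)` and the image of an element of `St D f`.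
-/

set_option autoImplicit false
set_option linter.unusedSectionVars false

namespace Pool.Agent.Lib.P0c8ca5.Ex.WQ

open MonoidAlgebra Kk KbAux

section
variable {p : ℕ} [Fact p.Prime] {k : Type*} [Field k] [CharP k p] [IsAlgClosed k]
  {A : Type*} [Group A] [Fintype A] {Z D : Subgroup A} {b f : MonoidAlgebra k A}

/-- the block of `C(D/Z)` -/
noncomputable def fq (hc : Cn Z) (D : Subgroup A) (f : MonoidAlgebra k A) :
    MonoidAlgebra k (NQ Z) := proj Z (orbSum (Cs hc D) f)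

theorem qq_ker (hc : Cn Z) : (qq hc).ker = Z := by
  ext x
  rw [MonoidHom.mem_ker, qq_apply, qm_eq_one_iff]

/-- commuting with a p-regular element -/
theorem comm_of_quo (hZ : IsPGroup p Z) (hc : Cn Z) {x v : A} (hx : Preg p x)
    (h : qq hc v * qq hc x = qq hc x * qq hc v) : v * x = x * v := by
  have h1 : qq hc x = qq hc (v * x * v⁻¹) := by
    rw [qq_conj, h]
    group
  have h2 := preg_inj hZ hc hx ((preg_conj v x).2 hx) ((qq_eq hc).1 h1)
  conv_rhs => rw [h2]
  group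

theorem bf_quo (hZ : IsPGroup p Z) (hc : Cn Z) (hZD : Z ≤ D) (h : Root p b D f) :
    resS (CD (sec D Z) : Set (NQ Z)) (proj Z b) * fq hc D f = fq hc D f := by
  rw [res_quo hZ hc h.blk, fq, ← proj_mul hZ (hc.inv _) (hc.inv _)]
  congr 1
  have hF := isBlock_orb hZ hc hZD h.fblk
  have hDp := h.dfg.isPGroup
  have hbi := (mem_fixAlg.1 h.blk.mem).2
  have hR : resS (CD D : Set A) b ∈ fixAlg k (Cs hc D) (Cs hc D) := by
    refine mem_fixAlg.2 ⟨fun x hx => CD_le_Cs hc ?_, JdAux.invBy_resS (hbi.mono le_top) ?_⟩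
    · by_contra hxD
      exact hx (coeff_resS_of_notMem _ hxD)
    · intro g hg x
      exact Subgroup.mem_normalizer_iff.1 (norm_le_norm_CD (Cs_le_norm hc hZD hg)) x
  have hRR : resS (CD D : Set A) b * resS (CD D : Set A) b = resS (CD D : Set A) b := by
    rw [← resS_mul (p := p) hDp (hbi.mono le_top) (hbi.mono le_top), h.blk.idem]
  rcases hF.mul_eq hR hRR with h1 | h1
  · exfalso
    have hK : Cs hc D ≤ Subgroup.normalizer ((CD D : Subgroup A) : Set A) :=
      (Cs_le_norm hc hZD).trans norm_le_norm_CD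
    have h2 := orbSum_mul hK h.fblk f (self_mem_orb _ _)
    have h3 : resS (CD D : Set A) b * (orbSum (Cs hc D) f * f) = 0 := by
      rw [← mul_assoc, h1, zero_mul]
    rw [h2, h.bf] at h3
    exact h.fblk.ne_zero h3
  · exact h1

theorem fblk_quo (hZ : IsPGroup p Z) (hc : Cn Z) (hZD : Z ≤ D) (h : Root p b D f) :
    IsBlock (CD (sec D Z)) (fq hc D f) := by
  rw [← sec_Cs hc]
  exact isBlock_quo hZ hc (Z_le_Cs hc) (isBlock_orb hZ hc hZD h.fblk)

theorem dfg_quo (hZ : IsPGroup p Z) (hc : Cn Z) (hZD : Z ≤ D) (h : Root p b D f) :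
    IsDefectGroup p (⊤ : Subgroup (NQ Z)) (proj Z b) (sec D Z) := by
  classical
  refine ⟨le_top, isPGroup_sec h.dfg.isPGroup, ?_, ?_⟩
  · by_contra hcon
    push Not at hcon
    have h1 : resS (CD (sec D Z) : Set (NQ Z)) (proj Z b) = 0 := by
      ext w
      by_cases hw : w ∈ (CD (sec D Z) : Set (NQ Z))
      · rw [coeff_resS_of_mem _ hw, hcon w hw]
        rfl
      · rw [coeff_resS_of_notMem _ hw]
        rfl
    have h2 := bf_quo hZ hc hZD h
    rw [h1, zero_mul] at h2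
    exact (fblk_quo hZ hc hZD h).ne_zero h2.symm
  · intro P _ hP hbr hDP
    obtain ⟨w, hw, hw0⟩ := hbr
    obtain ⟨n, rfl⟩ := qq_surj hc w
    rw [qq_apply, coeff_proj] at hw0
    obtain ⟨x, _, hx⟩ := Finset.exists_ne_zero_of_sum_ne_zero hw0
    by_cases hxZ : n⁻¹ * x ∈ Z
    · rw [if_pos hxZ] at hx
      have hxr : Preg p x := KxbAux.osima_sub (p := p) h.blk hx
      have e : qq hc n = qq hc x := (qq_eq hc).2 hxZ
      have hPp : IsPGroup p ↥(P.comap (qq hc)) := hP.comap_of_ker_isPGroup _ (by rw [qq_ker]; exact hZ)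
      have hle : D ≤ P.comap (qq hc) := fun d hd => hDP (qm_mem_sec (hc.mem d) hd)
      have h1 := h.dfg.max _ le_top hPp ⟨x, Subgroup.mem_centralizer_iff.2 fun v hv => ?_, hx⟩ hle
      · apply le_antisymm ?_ hDP
        intro u hu
        obtain ⟨y, rfl⟩ := qq_surj hc u
        have h2 : y ∈ P.comap (qq hc) := hu
        rw [h1] at h2
        exact qm_mem_sec (hc.mem y) h2
      · refine comm_of_quo hZ hc hxr ?_
        rw [← e]
        exact Subgroup.mem_centralizer_iff.1 hw _ hv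
    · rw [if_neg hxZ] at hx
      exact absurd rfl hx

/-- **the root of the image** -/
theorem root_quo (hc : Cn Z) (hZD : Z ≤ D) (h : Root p b D f) :
    Root p (proj Z b) (sec D Z) (fq hc D f) := by
  have hZ : IsPGroup p Z := h.dfg.isPGroup.to_le hZD
  refine ⟨?_, dfg_quo hZ hc hZD h, ?_, fblk_quo hZ hc hZD h, bf_quo hZ hc hZD h⟩
  · rw [← TFinAux.sec_top Z]
    exact isBlock_quo hZ hc le_top h.blk
  · intro u hu v hv
    obtain ⟨x, hxD, _, rfl⟩ := mem_sec.1 hu
    obtain ⟨y, hyD, _, rfl⟩ := mem_sec.1 hv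
    change qq hc x * qq hc y = qq hc y * qq hc x
    rw [← map_mul, ← map_mul, h.com x hxD y hyD]

theorem cj_orb (hc : Cn Z) {g : A} (hg : g ∈ Subgroup.normalizer (D : Set A)) :
    cj (qq hc g) (fq hc D f) = fq hc D (cj g f) := by
  rw [fq, fq, ← Hy.cj_orbSum (norm_le_norm_Cs hc hg), qq_apply]
  exact (Fr.proj_cj _ (hc.mem g)).symm

theorem st_up (hc : Cn Z) (hZD : Z ≤ D) {g : A} (hg : g ∈ St D f) :
    qq hc g ∈ St (sec D Z) (fq hc D f) := by
  refine ⟨?_, ?_⟩
  · rw [qq_apply, QCorAux.mem_norm_sec hZD (hc.mem g) (by rw [hc.norm]; exact le_top)]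
    exact hg.1
  · rw [cj_orb hc hg.1, hg.2]

theorem st_down (hc : Cn Z) (hZD : Z ≤ D) (h : Root p b D f) {w : NQ Z}
    (hw : w ∈ St (sec D Z) (fq hc D f)) : ∃ g ∈ St D f, ∃ x ∈ Cs hc D, w = qq hc (g * x) := by
  have hZ : IsPGroup p Z := h.dfg.isPGroup.to_le hZD
  obtain ⟨n, rfl⟩ := qq_surj hc w
  have hn : n ∈ Subgroup.normalizer (D : Set A) := by
    have h1 := hw.1
    rwa [qq_apply, QCorAux.mem_norm_sec hZD (hc.mem n) (by rw [hc.norm]; exact le_top)] at h1
  have hK : Cs hc D ≤ Subgroup.normalizer ((CD D : Subgroup A) : Set A) :=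
    (Cs_le_norm hc hZD).trans norm_le_norm_CD
  have hfn : IsBlock (CD D) (cj n f) := by
    have h1 := isBlock_cg h.fblk n
    rwa [cg_eq_self_iff.2 (norm_le_norm_CD hn)] at h1
  have hF := isBlock_orb hZ hc hZD h.fblk
  have hFn := isBlock_orb hZ hc hZD hfn
  have heq : orbSum (Cs hc D) (cj n f) = orbSum (Cs hc D) f := by
    rcases hFn.eq_or_mul_eq_zero hF with h1 | h1
    · exact h1
    · exfalso
      have h2 := hw.2
      rw [cj_orb hc hn] at h2
      have h3 : fq hc D (cj n f) * fq hc D f = 0 := by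
        rw [fq, fq, ← proj_mul hZ (hc.inv _) (hc.inv _), h1, WSumAux.proj_zero']
      have h4 := fblk_quo hZ hc hZD h
      rw [h2, h4.idem] at h3
      exact h4.ne_zero h3
  -- the conjugate is in the orbit
  have h5 : cj n f * orbSum (Cs hc D) (cj n f) = cj n f := by
    rw [commute_of (mem_fixAlg.1 hfn.mem).1 (mem_fixAlg.1 (orbSum_mem hK hfn)).2]
    exact orbSum_mul hK hfn _ (self_mem_orb _ _)
  rw [heq, orbSum, Finset.mul_sum] at h5
  have h6 : ∃ z ∈ orb (Cs hc D) f, cj n f * z ≠ 0 := by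
    by_contra hcon
    push Not at hcon
    rw [Finset.sum_eq_zero hcon] at h5
    exact hfn.ne_zero h5.symm
  obtain ⟨z, hz, hz0⟩ := h6
  have hzb := orb_isBlock hK h.fblk z hz
  rcases hfn.eq_or_mul_eq_zero hzb with h7 | h7
  · obtain ⟨x, hx, rfl⟩ := mem_orb.1 hz
    have hxn : x⁻¹ * n ∈ St D f := by
      refine ⟨Subgroup.mul_mem _ (Subgroup.inv_mem _ (Cs_le_norm hc hZD hx)) hn, ?_⟩
      rw [← cj_cj, h7, cj_inv_cj]
    refine ⟨x⁻¹ * n, hxn, n⁻¹ * x * n, ?_, ?_⟩
    · have h8 := (Subgroup.mem_normalizer_iff.1 (Subgroup.inv_mem _ (norm_le_norm_Cs hc hn)) x).1 hx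
      rwa [inv_inv] at h8
    · congr 1
      group
  · exact absurd h7 hz0

/-- **the root, with the two statements on the stabilizers** -/
theorem root_side (hz : ∀ z ∈ Z, ∀ g : A, z * g = g * z) (hZD : Z ≤ D) (h : Root p b D f) :
    ∃ f' : MonoidAlgebra k (NQ Z), Root p (proj Z b) (sec D Z) f' ∧
      (∀ (g : A) (hg : g ∈ Subgroup.normalizer (Z : Set A)), g ∈ St D f →
        qm Z g hg ∈ St (sec D Z) f') ∧
      (∀ w ∈ St (sec D Z) f', ∃ g ∈ St D f, ∃ x, (∀ d ∈ D, x * d * x⁻¹ * d⁻¹ ∈ Z) ∧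
        ∃ hgx, w = qm Z (g * x) hgx) := by
  have hc : Cn Z := fun z hzZ g => (hz z hzZ g).symm
  refine ⟨fq hc D f, root_quo hc hZD h, fun g hg hgS => ?_, fun w hw => ?_⟩
  · exact st_up hc hZD hgS
  · obtain ⟨g, hg, x, hx, rfl⟩ := st_down hc hZD h hw
    refine ⟨g, hg, x, fun d hd => ?_, hc.mem _, rfl⟩
    exact (mem_Cs hc).1 hx d hd

end

end Pool.Agent.Lib.P0c8ca5.Ex.WQ
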