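import Mathlib
import Pool.Agent.Lib.P0c8ca5R.Inf2
import Pool.Agent.Lib.P0c8ca5Ku.KL

/-!
# WQk: central quotients, the gap

`Z ≤ D` central in `A`; the quotient `A / Z` is `NQ Z` (`N_A(Z) = A`), `proj Z b` the image of the block `b`, `sec D Z` the image of `D`.
* `l_quo`: `l(b) = l(proj Z b)` (`Rk.card_irr_infl` with `K = ⊤`);
* `kap_quo`: `kap D b = kap (sec D Z) (proj Z b)`: both are the numbers of the blocks of defect zero of `N(D)/D` (`card_dz_kap`), and
  `N_{A/Z}(D/Z)/(D/Z) = N_A(D)/D` (`Rk.card_dz_sec`);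
* `gap_quo`: the gaps are equal (`Ku.gap_val`).
-/

set_option autoImplicit false
set_option linter.unusedSectionVars false

namespace Pool.Agent.Lib.P0c8ca5.Ex.WQ

open MonoidAlgebra Kq

universe u v

section
variable {p : ℕ} [Fact p.Prime] {k : Type v} [Field k] [IsAlgClosed k] [CharP k p]
variable {A : Type u} [Group A] [Fintype A] {b f : MonoidAlgebra k A} {D Z : Subgroup A}

/-- a central subgroup is normalized by everything -/
theorem top_le_nz (hz : ∀ z ∈ Z, ∀ g : A, z * g = g * z) :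
    (⊤ : Subgroup A) ≤ Subgroup.normalizer (Z : Set A) := by
  intro g _
  rw [Subgroup.mem_normalizer_iff]
  intro y
  constructor
  · intro hy
    have h1 : g * y * g⁻¹ = y := by rw [← hz y hy g, mul_inv_cancel_right]
    rw [h1]
    exact hy
  · intro hy
    have h1 : y = g * y * g⁻¹ := by
      have h2 := hz _ hy g
      have h3 : g * y * g⁻¹ * g = g * y := by group
      rw [h3] at h2
      have h4 := mul_left_cancel h2
      exact h4
    rw [h1]
    exact hy

/-- every element of the quotient is the class of an element -/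
theorem sec_top : sec (⊤ : Subgroup A) Z = (⊤ : Subgroup (NQ Z)) := by
  rw [eq_top_iff]
  intro w _
  obtain ⟨x, hx, rfl⟩ := qm_surj w
  exact qm_mem_sec hx (Subgroup.mem_top x)

theorem l_quo (hz : ∀ z ∈ Z, ∀ g : A, z * g = g * z) (hZ : IsPGroup p Z) :
    Nat.card (IrX (⊤ : Subgroup A) b) = Nat.card (IrX (⊤ : Subgroup (NQ Z)) (proj Z b)) := by
  have h1 := Rk.card_irr_infl (p := p) (K := (⊤ : Subgroup A)) (R := Z) le_top (top_le_nz hz) hZ
    (c := b) (fun x _ => Subgroup.mem_top x)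
  rw [sec_top] at h1
  exact h1

theorem kap_quo [Fintype (NQ Z)] (hz : ∀ z ∈ Z, ∀ g : A, z * g = g * z) (hZD : Z ≤ D) (h : Root p b D f)
    {f' : MonoidAlgebra k (NQ Z)} (h' : Root p (proj Z b) (sec D Z) f') :
    kap D b = kap (sec D Z) (proj Z b) := by
  obtain ⟨i, hi⟩ := exists_src h
  obtain ⟨i', hi'⟩ := exists_src h'
  rw [← card_dz_kap hi (Ku.ndvd h), ← card_dz_kap hi' (Ku.ndvd h')]
  have h1 := Rk.card_dz_sec (p := p) (K := (⊤ : Subgroup A)) (R := Z) (Q := D) hZD le_top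
    (top_le_nz hz) (c := b) (fun x _ => Subgroup.mem_top x)
  rw [sec_top, sec_top, sec_top] at h1
  exact h1

theorem gap_quo [Fintype (NQ Z)] (hz : ∀ z ∈ Z, ∀ g : A, z * g = g * z) (hZD : Z ≤ D) (h : Root p b D f)
    {f' : MonoidAlgebra k (NQ Z)} (h' : Root p (proj Z b) (sec D Z) f') :
    gap p (⊤ : Subgroup A) ⊤ b = gap p (⊤ : Subgroup (NQ Z)) ⊤ (proj Z b) := by
  rw [Ku.gap_val h, Ku.gap_val h', l_quo (b := b) hz (h.dfg.isPGroup.to_le hZD),
    kap_quo hz hZD h h']

end

end Pool.Agent.Lib.P0c8ca5.Ex.WQ
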