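import Mathlib
import Pool.Agent.Lib.P0c8ca5Ex.WQk

/-!
# WQs: central quotients, the stabilizers

`Z ≤ D` central in `A`.  An element `g` of `St D f` with `[g, d] ∈ Z` for all `d ∈ D` is in `C(D)`: `g ^ n d g ^ (-n) = [g, d] ^ n d`, hence `g ^ (p ^ M) ∈ C(D)`,
and `g ^ |E| ∈ C(D)` for the order `|E|` of the inertial quotient, which is prime to `p`.
-/

set_option autoImplicit false
set_option linter.unusedSectionVars false

namespace Pool.Agent.Lib.P0c8ca5.Ex.WQ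

open MonoidAlgebra Kq

universe u v

section
variable {p : ℕ} [Fact p.Prime] {k : Type v} [Field k] [IsAlgClosed k] [CharP k p]
variable {A : Type u} [Group A] [Fintype A] {b f : MonoidAlgebra k A} {D Z : Subgroup A}

/-- the commutators with the powers of `g` -/
theorem comm_pow (hz : ∀ z ∈ Z, ∀ g : A, z * g = g * z) {g d : A} (h : g * d * g⁻¹ * d⁻¹ ∈ Z) (n : ℕ) :
    g ^ n * d * (g ^ n)⁻¹ * d⁻¹ = (g * d * g⁻¹ * d⁻¹) ^ n := by
  induction n with
  | zero => simp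
  | succ n ih =>
    have h1 : g ^ (n + 1) * d * (g ^ (n + 1))⁻¹ * d⁻¹ =
        g ^ n * (g * d * g⁻¹ * d⁻¹) * (g ^ n)⁻¹ * (g ^ n * d * (g ^ n)⁻¹ * d⁻¹) := by
      rw [pow_succ]; group
    rw [h1, ih, ← hz _ h (g ^ n), mul_inv_cancel_right, pow_succ']

theorem st_cd (h : Root p b D f) (hz : ∀ z ∈ Z, ∀ g : A, z * g = g * z) (hZD : Z ≤ D) {g : A}
    (hg : g ∈ St D f) (hgZ : ∀ d ∈ D, g * d * g⁻¹ * d⁻¹ ∈ Z) : g ∈ CD D := by
  obtain ⟨i, hi⟩ := exists_src h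
  obtain ⟨M, hM⟩ := pow_one_of hi
  have h1 : g ^ p ^ M ∈ CD D := by
    rw [Subgroup.mem_centralizer_iff]
    intro d hd
    have h2 := comm_pow hz (hgZ d hd) (p ^ M)
    rw [hM _ (hZD (hgZ d hd))] at h2
    have h3 : g ^ p ^ M * d = d * g ^ p ^ M := by
      have h4 : g ^ p ^ M * d = (g ^ p ^ M * d * (g ^ p ^ M)⁻¹ * d⁻¹) * (d * g ^ p ^ M) := by group
      rw [h4, h2, one_mul]
    exact h3.symm
  have hn : ((CD D).subgroupOf (St D f)).Normal := by
    constructor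
    intro x hx y
    rw [Subgroup.mem_subgroupOf] at hx ⊢
    have h5 : (y : A) ∈ Subgroup.normalizer (D : Set A) := y.2.1
    rw [Subgroup.mem_centralizer_iff] at hx ⊢
    intro d hd
    have h6 : (y : A)⁻¹ * d * y ∈ D := by
      have h7 := (Subgroup.mem_normalizer_iff.1 (Subgroup.inv_mem _ h5) d).1 hd
      rwa [inv_inv] at h7
    have h8 := hx _ h6
    have h9 : d * ((y : A) * x * (y : A)⁻¹) = y * (((y : A)⁻¹ * d * y) * x) * (y : A)⁻¹ := by group
    change d * ((y : A) * x * (y : A)⁻¹) = ((y : A) * x * (y : A)⁻¹) * d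
    rw [h9, h8]
    group
  have h10 : g ^ eN D f ∈ CD D := by
    have h11 := Subgroup.pow_index_mem ((CD D).subgroupOf (St D f)) (⟨g, hg⟩ : ↥(St D f))
    exact h11
  have hco : Nat.Coprime (p ^ M) (eN D f) :=
    Nat.Coprime.pow_left M (((Fact.out : p.Prime).coprime_iff_not_dvd).2 (Ku.ndvd h))
  have h12 : (g ^ (p ^ M : ℕ)) ^ (Nat.gcdA (p ^ M) (eN D f)) * (g ^ (eN D f : ℕ)) ^ (Nat.gcdB (p ^ M) (eN D f)) = g := by
    have h13 := Nat.gcd_eq_gcd_ab (p ^ M) (eN D f)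
    rw [hco.gcd_eq_one] at h13
    rw [← zpow_natCast g (p ^ M), ← zpow_natCast g (eN D f), ← zpow_mul, ← zpow_mul, ← zpow_add, ← h13]
    simp
  rw [← h12]
  exact Subgroup.mul_mem _ (Subgroup.zpow_mem _ h1 _) (Subgroup.zpow_mem _ h10 _)

/-- the centralizer of the image of `D` -/
theorem qm_mem_CD (hz : ∀ z ∈ Z, ∀ g : A, z * g = g * z) {g : A} (hg : g ∈ Subgroup.normalizer (Z : Set A)) :
    qm Z g hg ∈ CD (sec D Z) ↔ ∀ d ∈ D, g * d * g⁻¹ * d⁻¹ ∈ Z := by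
  have hN : ∀ x : A, x ∈ Subgroup.normalizer (Z : Set A) := fun x => top_le_nz hz (Subgroup.mem_top x)
  rw [Subgroup.mem_centralizer_iff]
  have key : ∀ d : A, qm Z d (hN d) * qm Z g hg = qm Z g hg * qm Z d (hN d) ↔ g * d * g⁻¹ * d⁻¹ ∈ Z := by
    intro d
    have e1 : qm Z d (hN d) * qm Z g hg = qm Z (d * g) (hN _) := rfl
    have e2 : qm Z g hg * qm Z d (hN d) = qm Z (g * d) (hN _) := rfl
    rw [e1, e2, qm_eq_iff]
    have e3 : g * d * g⁻¹ * d⁻¹ = (d * g) * ((d * g)⁻¹ * (g * d)) * (d * g)⁻¹ := by group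
    rw [e3]
    constructor
    · intro h1
      rw [← hz _ h1 (d * g), mul_inv_cancel_right]
      exact h1
    · intro h1
      have h2 := (Subgroup.mem_normalizer_iff.1 (hN (d * g)) ((d * g)⁻¹ * (g * d))).2 h1
      exact h2
  constructor
  · intro h d hd
    exact (key d).1 (h _ (qm_mem_sec (hN d) hd))
  · intro h w hw
    obtain ⟨d, hd, hd', rfl⟩ := mem_sec.1 hw
    exact (key d).2 (h d hd)

/-- the elements of `St D f` that centralize `D / Z` centralize `D` -/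
theorem qm_cd (h : Root p b D f) (hz : ∀ z ∈ Z, ∀ g : A, z * g = g * z) (hZD : Z ≤ D) {g : A}
    (hg : g ∈ St D f) (hgn : g ∈ Subgroup.normalizer (Z : Set A)) (hq : qm Z g hgn ∈ CD (sec D Z)) : g ∈ CD D :=
  st_cd h hz hZD hg ((qm_mem_CD hz hgn).1 hq)

end

end Pool.Agent.Lib.P0c8ca5.Ex.WQ
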