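import Mathlib
import Pool.Agent.Lib.P0c8ca5Ex.WQs

/-!
# WQt: central quotients, the inertial quotient and the commutator subgroup

`Z ≤ D` central in `A`, `f'` a block of `C(D / Z)` with `qm Z (St D f) ≤ St (D / Z) f'` and `St (D / Z) f' ≤ qm Z (St D f * {x | [x, D] ≤ Z})`.
* `eN_quo`: the inertial quotients have the same order;
* `cmD_quo`: `[D / Z, E'] = [D, E] Z / Z`.
-/

set_option autoImplicit false
set_option linter.unusedSectionVars false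

namespace Pool.Agent.Lib.P0c8ca5.Ex.WQ

open MonoidAlgebra Kq

universe u v

section
variable {p : ℕ} [Fact p.Prime] {k : Type v} [Field k] [IsAlgClosed k] [CharP k p]
variable {A : Type u} [Group A] [Fintype A] {b f : MonoidAlgebra k A} {D Z : Subgroup A}
variable {f' : MonoidAlgebra k (NQ Z)}

/-- the stabilizers in `A` and in the quotient -/
structure StOk (D Z : Subgroup A) (f : MonoidAlgebra k A) (f' : MonoidAlgebra k (NQ Z)) : Prop where
  img : ∀ g (hg : g ∈ Subgroup.normalizer (Z : Set A)), g ∈ St D f → qm Z g hg ∈ St (sec D Z) f'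
  dec : ∀ w ∈ St (sec D Z) f', ∃ g ∈ St D f, ∃ x : A, (∀ d ∈ D, x * d * x⁻¹ * d⁻¹ ∈ Z) ∧
    ∃ hx : g * x ∈ Subgroup.normalizer (Z : Set A), w = qm Z (g * x) hx

/-- the image of an element of `A` -/
def qc (hz : ∀ z ∈ Z, ∀ g : A, z * g = g * z) : A →* NQ Z where
  toFun x := qm Z x (top_le_nz hz (Subgroup.mem_top x))
  map_one' := rfl
  map_mul' _ _ := rfl

theorem qc_eq (hz : ∀ z ∈ Z, ∀ g : A, z * g = g * z) {x : A} (hx : x ∈ Subgroup.normalizer (Z : Set A)) :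
    qm Z x hx = qc hz x := rfl

theorem qc_surj (hz : ∀ z ∈ Z, ∀ g : A, z * g = g * z) (w : NQ Z) : ∃ x, w = qc hz x := by
  obtain ⟨x, hx, rfl⟩ := qm_surj w
  exact ⟨x, rfl⟩

theorem qc_eq_iff (hz : ∀ z ∈ Z, ∀ g : A, z * g = g * z) {x y : A} : qc hz x = qc hz y ↔ x⁻¹ * y ∈ Z :=
  qm_eq_iff

theorem qc_eq_one (hz : ∀ z ∈ Z, ∀ g : A, z * g = g * z) {x : A} : qc hz x = 1 ↔ x ∈ Z :=
  qm_eq_one_iff

theorem sec_map (hz : ∀ z ∈ Z, ∀ g : A, z * g = g * z) (H : Subgroup A) : sec H Z = H.map (qc hz) := by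
  ext w
  rw [mem_sec, Subgroup.mem_map]
  constructor
  · rintro ⟨x, hx, hx', rfl⟩
    exact ⟨x, hx, rfl⟩
  · rintro ⟨x, hx, rfl⟩
    exact ⟨x, hx, top_le_nz hz (Subgroup.mem_top x), rfl⟩

/-- the centralizer of the image of `D` -/
theorem qc_mem_CD (hz : ∀ z ∈ Z, ∀ g : A, z * g = g * z) {g : A} :
    qc hz g ∈ CD (sec D Z) ↔ ∀ d ∈ D, g * d * g⁻¹ * d⁻¹ ∈ Z :=
  qm_mem_CD hz (top_le_nz hz (Subgroup.mem_top g))

theorem CD_normal {A' : Type*} [Group A'] {k' : Type*} [Field k'] (D' : Subgroup A') (f₁ : MonoidAlgebra k' A') :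
    ((CD D').subgroupOf (St D' f₁)).Normal := by
  constructor
  intro x hx y
  rw [Subgroup.mem_subgroupOf] at hx ⊢
  have h5 : (y : A') ∈ Subgroup.normalizer (D' : Set A') := y.2.1
  rw [Subgroup.mem_centralizer_iff] at hx ⊢
  intro d hd
  have h6 : (y : A')⁻¹ * d * y ∈ D' := by
    have h7 := (Subgroup.mem_normalizer_iff.1 (Subgroup.inv_mem _ h5) d).1 hd
    rwa [inv_inv] at h7
  have h8 := hx _ h6
  have h9 : d * ((y : A') * x * (y : A')⁻¹) = y * (((y : A')⁻¹ * d * y) * x) * (y : A')⁻¹ := by group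
  change d * ((y : A') * x * (y : A')⁻¹) = ((y : A') * x * (y : A')⁻¹) * d
  rw [h9, h8]
  group

theorem eN_quo (h : Root p b D f) (hz : ∀ z ∈ Z, ∀ g : A, z * g = g * z) (hZD : Z ≤ D) (hS : StOk D Z f f') :
    eN (sec D Z) f' = eN D f := by
  have : ((CD (sec D Z)).subgroupOf (St (sec D Z) f')).Normal := CD_normal _ _
  let π : ↥(St D f) →* ↥(St (sec D Z) f') :=
    { toFun := fun g => ⟨qc hz g, hS.img _ _ g.2⟩
      map_one' := rfl
      map_mul' := fun _ _ => rfl }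
  let q := (QuotientGroup.mk' ((CD (sec D Z)).subgroupOf (St (sec D Z) f'))).comp π
  have hk : q.ker = (CD D).subgroupOf (St D f) := by
    ext g
    rw [MonoidHom.mem_ker, Subgroup.mem_subgroupOf]
    change QuotientGroup.mk (π g) = _ ↔ _
    rw [QuotientGroup.eq_one_iff, Subgroup.mem_subgroupOf]
    change qc hz (g : A) ∈ CD (sec D Z) ↔ _
    rw [qc_mem_CD]
    constructor
    · intro h1
      exact st_cd h hz hZD g.2 h1
    · intro h1 d hd
      rw [← Subgroup.mem_centralizer_iff.1 h1 d hd, mul_inv_cancel_right, mul_inv_cancel]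
      exact Z.one_mem
  have hs : Function.Surjective q := by
    intro w
    obtain ⟨⟨w, hw⟩, rfl⟩ := QuotientGroup.mk_surjective w
    obtain ⟨g, hg, x, hx, hx', rfl⟩ := hS.dec w hw
    refine ⟨⟨g, hg⟩, ?_⟩
    change QuotientGroup.mk (π ⟨g, hg⟩) = _
    rw [QuotientGroup.eq, Subgroup.mem_subgroupOf]
    change (qc hz g)⁻¹ * qc hz (g * x) ∈ _
    rw [map_mul, inv_mul_cancel_left, qc_mem_CD]
    exact hx
  unfold eN Subgroup.relIndex
  rw [← hk, Subgroup.index_ker, Subgroup.index_eq_card, MonoidHom.range_eq_top.2 hs, Subgroup.card_top]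

/-- conjugation by an element `g * x` with `[x, D] ≤ Z` -/
theorem conj_quo (hz : ∀ z ∈ Z, ∀ g : A, z * g = g * z) {g x d : A} (hx : x * d * x⁻¹ * d⁻¹ ∈ Z) :
    qc hz (g * x) * qc hz d * (qc hz (g * x))⁻¹ = qc hz (g * d * g⁻¹) := by
  rw [← map_inv, ← map_mul, ← map_mul, qc_eq_iff]
  have h1 : (g * x * d * (g * x)⁻¹)⁻¹ * (g * d * g⁻¹) = g * ((x * d * x⁻¹ * d⁻¹)⁻¹ * g⁻¹) := by
    have h2 : (g * x * d * (g * x)⁻¹)⁻¹ * (g * d * g⁻¹) = g * ((x * d * x⁻¹)⁻¹ * d) * g⁻¹ := by group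
    have h3 : (x * d * x⁻¹)⁻¹ * d = d⁻¹ * ((x * d * x⁻¹ * d⁻¹)⁻¹ * d) := by group
    rw [h2, h3, hz _ (Z.inv_mem hx) d, inv_mul_cancel_left]
    group
  rw [h1, hz _ (Z.inv_mem hx) g⁻¹, mul_inv_cancel_left]
  exact Z.inv_mem hx

theorem cmD_quo (hz : ∀ z ∈ Z, ∀ g : A, z * g = g * z) (hS : StOk D Z f f') :
    Ku.cmD (sec D Z) f' = sec (Ku.cmD D f) Z := by
  rw [sec_map hz (Ku.cmD D f)]
  unfold Ku.cmD
  rw [MonoidHom.map_closure]
  congr 1
  ext w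
  constructor
  · rintro ⟨v, hv, y, hy, rfl⟩
    obtain ⟨g, hg, x, hx, hx', rfl⟩ := hS.dec v hv
    obtain ⟨d, hd, hd', rfl⟩ := mem_sec.1 hy
    refine ⟨d⁻¹ * (g * d * g⁻¹), ⟨g, hg, d, hd, rfl⟩, ?_⟩
    change qc hz (d⁻¹ * (g * d * g⁻¹)) = (qc hz d)⁻¹ * (qc hz (g * x) * qc hz d * (qc hz (g * x))⁻¹)
    rw [conj_quo hz (hx d hd), map_mul, map_inv]
  · rintro ⟨_, ⟨g, hg, d, hd, rfl⟩, rfl⟩
    refine ⟨qc hz g, hS.img _ _ hg, qc hz d, ?_, by rw [map_mul, map_inv, map_mul, map_mul, map_inv]⟩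
    rw [sec_map hz]
    exact ⟨d, hd, rfl⟩

end

end Pool.Agent.Lib.P0c8ca5.Ex.WQ
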