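import Mathlib
import Pool.Agent.Lib.P0c8ca5Ex.WQc
import Pool.Agent.Lib.P0c8ca5Ex.WQt

/-!
# Ex.WQd: the root of a block modulo a central p-subgroup, with the structure `StOk`
-/

set_option autoImplicit false
set_option linter.unusedSectionVars false

namespace Pool.Agent.Lib.P0c8ca5.Ex.WQ

open MonoidAlgebra

variable {p : ℕ} [Fact p.Prime] {k : Type*} [Field k] [CharP k p] [IsAlgClosed k]
  {A : Type*} [Group A] [Fintype A] {Z D : Subgroup A} {b f : MonoidAlgebra k A}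

theorem root_ok (hz : ∀ z ∈ Z, ∀ g : A, z * g = g * z) (hZD : Z ≤ D) (h : Root p b D f) :
    ∃ f' : MonoidAlgebra k (NQ Z), Root p (proj Z b) (sec D Z) f' ∧ StOk D Z f f' := by
  obtain ⟨f', h1, h2, h3⟩ := root_side hz hZD h
  exact ⟨f', h1, ⟨h2, h3⟩⟩

end Pool.Agent.Lib.P0c8ca5.Ex.WQ
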