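import Mathlib
import Pool.Agent.Lib.P0c8ca5Ex.WQd
import Pool.Agent.Lib.P0c8ca5Ex.WQk
import Pool.Agent.Lib.P0c8ca5Ku.Lo

/-!
# Ex.WQe: the quotient by a central p-subgroup as a step of the reduction

* `sim_quo`: the actions of the inertial groups on `[D, E]` and `[D/Z, E']` are the same;
* `step_quo`: the quotient by a central subgroup `Z ≤ D`, `Z ≠ 1`, is a smaller similar block with the same gap.
-/

set_option autoImplicit false
set_option linter.unusedSectionVars false

namespace Pool.Agent.Lib.P0c8ca5.Ex.WQ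

open MonoidAlgebra Ku

universe u v

section
variable {p : ℕ} [Fact p.Prime] {k : Type v} [Field k] [CharP k p] [IsAlgClosed k]
  {A : Type u} [Group A] [Fintype A] {Z D : Subgroup A} {b f : MonoidAlgebra k A}

/-- the actions on `[D, E]` -/
theorem sim_quo (hz : ∀ z ∈ Z, ∀ g : A, z * g = g * z) (h : Root p b D f)
    {f' : MonoidAlgebra k (NQ Z)} (hS : StOk D Z f f') :
    Nonempty (Sim D (St D f) (sec D Z) (St (sec D Z) f')) := by
  refine Sim.ofHom (p := p) (qc hz) (cop_root h) ?_ ?_ ?_ ?_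
  · intro w
    rw [sec_map hz, Subgroup.mem_map]
  · intro x _ hx g _
    rw [qc_eq_one] at hx
    exact (hz x hx g).symm
  · intro g hg
    refine ⟨qc hz g, hS.img g (top_le_nz hz (Subgroup.mem_top g)) hg, fun u _ => ?_⟩
    rw [map_mul, map_mul, map_inv]
  · intro w hw
    obtain ⟨g, hg, x, hx, hgx, rfl⟩ := hS.dec w hw
    exact ⟨g, hg, fun u hu => conj_quo hz (hx u hu)⟩

theorem card_quo (hz : ∀ z ∈ Z, ∀ g : A, z * g = g * z) (hZ : Z ≠ ⊥) :
    Nat.card (NQ Z) < Nat.card A := by
  have h1 : Function.Surjective (qc hz) := fun w => by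
    obtain ⟨x, rfl⟩ := qc_surj hz w
    exact ⟨x, rfl⟩
  rcases lt_or_eq_of_le (Nat.card_le_card_of_surjective _ h1) with h2 | h2
  · exact h2
  · exfalso
    apply hZ
    have h3 : Function.Injective (qc hz) :=
      ((Nat.bijective_iff_surjective_and_card (qc hz)).2 ⟨h1, h2.symm⟩).1
    rw [Subgroup.eq_bot_iff_forall]
    intro x hx
    exact h3 (by rw [(qc_eq_one hz).2 hx, map_one])

/-- **the quotient as a step** -/
theorem step_quo (hz : ∀ z ∈ Z, ∀ g : A, z * g = g * z) (hZD : Z ≤ D) (hZ : Z ≠ ⊥)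
    (h : Root p b D f) : Step p k b f D := by
  classical
  let _ : Fintype (NQ Z) := Fintype.ofFinite _
  obtain ⟨f', h', hS⟩ := root_ok hz hZD h
  exact ⟨NQ Z, inferInstance, inferInstance, proj Z b, f', sec D Z, card_quo hz hZ, h',
    (gap_quo hz hZD h h').symm, sim_quo hz h hS⟩

end

end Pool.Agent.Lib.P0c8ca5.Ex.WQ
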