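import Mathlib
import Pool.Agent.Lib.P0c8ca5Ex.YO
import Pool.Agent.Lib.P0c8ca5Ex.YI
import Pool.Agent.Lib.P0c8ca5Ex.YK

/-!
# WVa: the contributions at the places of `D`

* `PI p x`: some multiple of `x` by a number prime to `p` is an algebraic integer.
* `Ph φ D f BB S X Y u`: `e_S` times the inner product of the parts of `X` and `Y` at the place
  `φ u` in the block of `C(φ S)`; `FF S X Y u = Ph (S ⊔ ⟨u⟩) X Y u`.
-/

set_option linter.unusedSectionVars false

namespace Pool.Agent.Lib.P0c8ca5.Ex.WV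

open MonoidAlgebra

/-! ### `p`-integral numbers -/

section
variable {K : Type*} [Field K] {p : ℕ} [Fact p.Prime]

/-- some multiple of `x` by a number prime to `p` is an algebraic integer -/
def PI (p : ℕ) {K : Type*} [Field K] (x : K) : Prop :=
  ∃ m : ℕ, ¬ p ∣ m ∧ IsIntegral ℤ ((m : K) * x)

theorem PI.of_int {x : K} (h : IsIntegral ℤ x) : PI p x :=
  ⟨1, fun h1 => (Fact.out : p.Prime).one_lt.ne' (Nat.dvd_one.1 h1), by
    rwa [Nat.cast_one, one_mul]⟩

theorem PI.zero : PI p (0 : K) := PI.of_int isIntegral_zero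

theorem PI.intCast (z : ℤ) : PI p (z : K) := PI.of_int (isIntegral_algebraMap (R := ℤ) (x := z))

theorem int_nat (n : ℕ) : IsIntegral ℤ (n : K) := by
  have h := isIntegral_algebraMap (R := ℤ) (A := K) (x := (n : ℤ))
  rwa [eq_intCast, Int.cast_natCast] at h

theorem PI.natCast (n : ℕ) : PI p (n : K) := PI.of_int (int_nat n)

theorem PI.add {x y : K} (hx : PI p x) (hy : PI p y) : PI p (x + y) := by
  obtain ⟨m, hm, h1⟩ := hx
  obtain ⟨n, hn, h2⟩ := hy
  refine ⟨m * n, fun h => ((Fact.out : p.Prime).dvd_mul.1 h).elim hm hn, ?_⟩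
  have h3 : ((m * n : ℕ) : K) * (x + y) = (n : K) * ((m : K) * x) + (m : K) * ((n : K) * y) := by
    rw [Nat.cast_mul]
    ring
  rw [h3]
  exact ((int_nat n).mul h1).add ((int_nat m).mul h2)

theorem PI.mul {x y : K} (hx : PI p x) (hy : PI p y) : PI p (x * y) := by
  obtain ⟨m, hm, h1⟩ := hx
  obtain ⟨n, hn, h2⟩ := hy
  refine ⟨m * n, fun h => ((Fact.out : p.Prime).dvd_mul.1 h).elim hm hn, ?_⟩
  have h3 : ((m * n : ℕ) : K) * (x * y) = ((m : K) * x) * ((n : K) * y) := by
    rw [Nat.cast_mul]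
    ring
  rw [h3]
  exact h1.mul h2

theorem PI.neg {x : K} (hx : PI p x) : PI p (-x) := by
  obtain ⟨m, hm, h1⟩ := hx
  refine ⟨m, hm, ?_⟩
  rw [mul_neg]
  exact h1.neg

theorem PI.sub {x y : K} (hx : PI p x) (hy : PI p y) : PI p (x - y) := by
  rw [sub_eq_add_neg]
  exact hx.add hy.neg

theorem PI.sum {ι : Type*} (S : Finset ι) {x : ι → K} (h : ∀ i ∈ S, PI p (x i)) :
    PI p (∑ i ∈ S, x i) := by
  classical
  induction S using Finset.induction_on with
  | empty =>
    rw [Finset.sum_empty]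
    exact PI.zero
  | insert a S ha ih =>
    rw [Finset.sum_insert ha]
    exact (h a (Finset.mem_insert_self _ _)).add
      (ih fun i hi => h i (Finset.mem_insert_of_mem hi))

/-- a fraction with a denominator prime to `p` -/
theorem PI.inv_nat [CharZero K] {m : ℕ} (hm : ¬ p ∣ m) : PI p ((m : K)⁻¹) := by
  refine ⟨m, hm, ?_⟩
  have h1 : (m : K) ≠ 0 := by
    rw [Ne, Nat.cast_eq_zero]
    rintro rfl
    exact hm (dvd_zero p)
  rw [mul_inv_cancel₀ h1]
  exact isIntegral_one

end

/-! ### the contributions -/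

section
variable {p : ℕ} [Fact p.Prime] {k : Type*} [Field k] [IsAlgClosed k] [CharP k p]
  {A : Type*} [Group A] [Finite A] {T : Type*} [CommGroup T] [Fintype T]
  {φ : T →* A} {b f i : MonoidAlgebra k A} {D : Subgroup A} {R : Subgroup T}
  {BB : ∀ H : Subgroup A, MonoidAlgebra (OW p k) ↥H}

/-- the contribution of the block of `C(φ S)` at the place `φ u`, `u ∈ S` -/
noncomputable def Ph (φ : T →* A) (D : Subgroup A) (f : MonoidAlgebra k A)
    (BB : ∀ H : Subgroup A, MonoidAlgebra (OW p k) ↥H) (S : Subgroup T) (X Y : A → KW p k)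
    (u : T) : KW p k :=
  (eQ φ D f S : KW p k) * Wf p (cq φ S) (cut (cq φ S) (BB (cq φ S)) X)
    (cut (cq φ S) (BB (cq φ S)) Y) (φ u)

/-- the contribution at the place `φ u` in the block of `C(φ S)` -/
noncomputable def FF (φ : T →* A) (D : Subgroup A) (f : MonoidAlgebra k A)
    (BB : ∀ H : Subgroup A, MonoidAlgebra (OW p k) ↥H) (S : Subgroup T) (X Y : A → KW p k)
    (u : T) : KW p k :=
  Ph φ D f BB (S ⊔ Subgroup.zpowers u) X Y u

/-- the family of the lifts of the local blocks -/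
def BBok (φ : T →* A) (i : MonoidAlgebra k A)
    (BB : ∀ H : Subgroup A, MonoidAlgebra (OW p k) ↥H) : Prop :=
  ∀ Q c, LbH (cq φ Q) i c → CenL (dnr (cq φ Q) c) (BB (cq φ Q))

theorem lin_add (X Y : A → KW p k) (a : MonoidAlgebra (OW p k) A) :
    lin (X + Y) a = lin X a + lin Y a := by
  rw [lin, lin, lin, ← sm_add]
  refine sm_congr fun x => ?_
  rw [Pi.add_apply, mul_add]

theorem lin_smul (c : KW p k) (X : A → KW p k) (a : MonoidAlgebra (OW p k) A) :
    lin (c • X) a = c * lin X a := by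
  rw [lin, lin, ← sm_mul]
  refine sm_congr fun x => ?_
  rw [Pi.smul_apply, smul_eq_mul]
  ring

theorem cut_add (H : Subgroup A) (BH : MonoidAlgebra (OW p k) ↥H) (X Y : A → KW p k) :
    cut H BH (X + Y) = cut H BH X + cut H BH Y := by
  funext x
  rw [Pi.add_apply, cut, cut, cut]
  split_ifs
  · exact lin_add _ _ _
  · rw [add_zero]

theorem cut_smul (H : Subgroup A) (BH : MonoidAlgebra (OW p k) ↥H) (c : KW p k)
    (X : A → KW p k) : cut H BH (c • X) = c • cut H BH X := by
  funext x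
  rw [Pi.smul_apply, smul_eq_mul, cut, cut]
  split_ifs
  · exact lin_smul _ _ _
  · rw [mul_zero]

theorem wf_add_left (H : Subgroup A) (X X' Y : A → KW p k) (x : A) :
    Wf p H (X + X') Y x = Wf p H X Y x + Wf p H X' Y x := by
  rw [Wf, Wf, Wf, ← mul_add, ← sm_add]
  congr 1
  refine sm_congr fun s => ?_
  split_ifs
  · rw [Pi.add_apply, add_mul]
  · rw [add_zero]

theorem wf_add_right (H : Subgroup A) (X Y Y' : A → KW p k) (x : A) :
    Wf p H X (Y + Y') x = Wf p H X Y x + Wf p H X Y' x := by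
  rw [Wf, Wf, Wf, ← mul_add, ← sm_add]
  congr 1
  refine sm_congr fun s => ?_
  split_ifs
  · rw [Pi.add_apply, mul_add]
  · rw [add_zero]

theorem wf_smul_left (H : Subgroup A) (c : KW p k) (X Y : A → KW p k) (x : A) :
    Wf p H (c • X) Y x = c * Wf p H X Y x := by
  rw [Wf, Wf, mul_left_comm]
  congr 1
  rw [← sm_mul]
  refine sm_congr fun s => ?_
  split_ifs
  · rw [Pi.smul_apply, smul_eq_mul]
    ring
  · rw [mul_zero]

theorem wf_smul_right (H : Subgroup A) (c : KW p k) (X Y : A → KW p k) (x : A) :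
    Wf p H X (c • Y) x = c * Wf p H X Y x := by
  rw [Wf, Wf, mul_left_comm]
  congr 1
  rw [← sm_mul]
  refine sm_congr fun s => ?_
  split_ifs
  · rw [Pi.smul_apply, smul_eq_mul]
    ring
  · rw [mul_zero]

theorem Ph_add_left (S : Subgroup T) (X X' Y : A → KW p k) (u : T) :
    Ph φ D f BB S (X + X') Y u = Ph φ D f BB S X Y u + Ph φ D f BB S X' Y u := by
  rw [Ph, Ph, Ph, cut_add, wf_add_left, mul_add]

theorem Ph_add_right (S : Subgroup T) (X Y Y' : A → KW p k) (u : T) :
    Ph φ D f BB S X (Y + Y') u = Ph φ D f BB S X Y u + Ph φ D f BB S X Y' u := by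
  rw [Ph, Ph, Ph, cut_add, wf_add_right, mul_add]

theorem Ph_smul_left (S : Subgroup T) (c : KW p k) (X Y : A → KW p k) (u : T) :
    Ph φ D f BB S (c • X) Y u = c * Ph φ D f BB S X Y u := by
  rw [Ph, Ph, cut_smul, wf_smul_left, mul_left_comm]

theorem Ph_smul_right (S : Subgroup T) (c : KW p k) (X Y : A → KW p k) (u : T) :
    Ph φ D f BB S X (c • Y) u = c * Ph φ D f BB S X Y u := by
  rw [Ph, Ph, cut_smul, wf_smul_right, mul_left_comm]

theorem Ph_neg_left (S : Subgroup T) (X Y : A → KW p k) (u : T) :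
    Ph φ D f BB S (-X) Y u = - Ph φ D f BB S X Y u := by
  rw [← neg_one_smul (KW p k) X, Ph_smul_left, neg_one_mul]

theorem Ph_neg_right (S : Subgroup T) (X Y : A → KW p k) (u : T) :
    Ph φ D f BB S X (-Y) u = - Ph φ D f BB S X Y u := by
  rw [← neg_one_smul (KW p k) Y, Ph_smul_right, neg_one_mul]

theorem Ph_zero_left (S : Subgroup T) (Y : A → KW p k) (u : T) :
    Ph φ D f BB S 0 Y u = 0 := by
  have h := Ph_smul_left (φ := φ) (D := D) (f := f) (BB := BB) S (0 : KW p k) 0 Y u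
  rwa [zero_smul, zero_mul] at h

theorem Ph_zero_right (S : Subgroup T) (X : A → KW p k) (u : T) :
    Ph φ D f BB S X 0 u = 0 := by
  have h := Ph_smul_right (φ := φ) (D := D) (f := f) (BB := BB) S (0 : KW p k) X 0 u
  rwa [zero_smul, zero_mul] at h

theorem Ph_sum_left {ι : Type*} (S : Finset ι) (Q : Subgroup T) (c : ι → KW p k)
    (X : ι → A → KW p k) (Y : A → KW p k) (u : T) :
    Ph φ D f BB Q (∑ j ∈ S, c j • X j) Y u = ∑ j ∈ S, c j * Ph φ D f BB Q (X j) Y u := by
  classical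
  induction S using Finset.induction_on with
  | empty => rw [Finset.sum_empty, Finset.sum_empty, Ph_zero_left]
  | insert a S ha ih =>
    rw [Finset.sum_insert ha, Finset.sum_insert ha, Ph_add_left, Ph_smul_left, ih]

theorem Ph_sum_right {ι : Type*} (S : Finset ι) (Q : Subgroup T) (c : ι → KW p k)
    (X : A → KW p k) (Y : ι → A → KW p k) (u : T) :
    Ph φ D f BB Q X (∑ j ∈ S, c j • Y j) u = ∑ j ∈ S, c j * Ph φ D f BB Q X (Y j) u := by
  classical
  induction S using Finset.induction_on with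
  | empty => rw [Finset.sum_empty, Finset.sum_empty, Ph_zero_right]
  | insert a S ha ih =>
    rw [Finset.sum_insert ha, Finset.sum_insert ha, Ph_add_right, Ph_smul_right, ih]

end

end Pool.Agent.Lib.P0c8ca5.Ex.WV
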