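import Mathlib
import Pool.Agent.Lib.P0c8ca5Ex.WVa

/-!
# WVb: the step at a central subgroup, preparations

* `exists_BBok`: the family of the lifts exists.
* `Ph_reg_left`, `Ph_reg_right`: at the place `1` only the values on the `p`-regular elements count.
* `FF_cen`: the value of `FF R` for a central `R`; `FF_out`: it is `0` for characters outside the block.
* `Ph_cen`: the behaviour under translation by central elements.
* `Th_out`: the gluing.
-/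

set_option linter.unusedSectionVars false

namespace Pool.Agent.Lib.P0c8ca5.Ex.WV

open MonoidAlgebra

section
variable {p : ℕ} [Fact p.Prime] {k : Type*} [Field k] [IsAlgClosed k] [CharP k p]
  {A : Type*} [Group A] [Finite A] {T : Type*} [CommGroup T] [Fintype T]
  {φ : T →* A} {b f i : MonoidAlgebra k A} {D : Subgroup A} {R : Subgroup T}
  {BB : ∀ H : Subgroup A, MonoidAlgebra (OW p k) ↥H}

theorem map_le (hr : ∀ x, x ∈ D ↔ ∃ t, φ t = x) (Q : Subgroup T) : Q.map φ ≤ D := by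
  rintro _ ⟨t, -, rfl⟩
  exact (hr _).2 ⟨t, rfl⟩

theorem cq_zp (u : T) : cq φ (Subgroup.zpowers u) = C1 (φ u) := by
  rw [cq, MonoidHom.map_zpowers, CD_zpowers]

/-- two local blocks of the same subgroup agree -/
theorem lbH_eq (h : Src p b D f i) (hr : ∀ x, x ∈ D ↔ ∃ t, φ t = x) {Q : Subgroup T}
    {c c' : MonoidAlgebra k A} (hc : LbH (cq φ Q) i c) (hc' : LbH (cq φ Q) i c') : c = c' := by
  have hne : resS (cq φ Q : Set A) i ≠ 0 := SrcAux.src_ne h (map_le hr Q)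
  by_contra h1
  have h2 : c * c' = 0 := (hc.blk.eq_or_mul_eq_zero hc'.blk).resolve_left h1
  apply hne
  rw [← hc'.ic, ← hc.ic, mul_assoc, h2, mul_zero]

/-- the family of the lifts -/
theorem exists_BBok (h : Src p b D f i) (hr : ∀ x, x ∈ D ↔ ∃ t, φ t = x) :
    ∃ BB : ∀ H : Subgroup A, MonoidAlgebra (OW p k) ↥H, BBok φ i BB := by
  classical
  have key : ∀ H : Subgroup A, ∃ B : MonoidAlgebra (OW p k) ↥H, ∀ Q : Subgroup T, cq φ Q = H →
      ∀ c, LbH H i c → CenL (dnr H c) B := by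
    intro H
    by_cases hH : ∃ Q : Subgroup T, cq φ Q = H
    · obtain ⟨Q, rfl⟩ := hH
      obtain ⟨c, hc⟩ := exists_lb h (map_le hr Q)
      obtain ⟨B, hB⟩ := exists_cenB (p := p) (hc.toH rfl).blk
      refine ⟨B, fun Q' _ c' hc' => ?_⟩
      rw [lbH_eq h hr hc' (hc.toH rfl)]
      exact hB
    · exact ⟨0, fun Q hQ => absurd ⟨Q, hQ⟩ hH⟩
  choose BB hBB using key
  exact ⟨BB, fun Q c hc => hBB _ Q rfl c hc⟩

theorem BBok.exists_cen (h : Src p b D f i) (hr : ∀ x, x ∈ D ↔ ∃ t, φ t = x)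
    (hB : BBok φ i BB) (Q : Subgroup T) :
    ∃ c, LbH (cq φ Q) i c ∧ CenL (dnr (cq φ Q) c) (BB (cq φ Q)) := by
  obtain ⟨c, hc⟩ := exists_lb h (map_le hr Q)
  exact ⟨c, hc.toH rfl, hB Q c (hc.toH rfl)⟩

theorem BBok.c1 (hB : BBok φ i BB) (u : T) (c : MonoidAlgebra k A)
    (hc : LbH (C1 (φ u)) i c) : CenL (dnr (C1 (φ u)) c) (BB (C1 (φ u))) := by
  have h1 := hB (Subgroup.zpowers u) c
  rw [cq_zp] at h1
  exact h1 hc

/-! ### the values on the `p`-regular elements -/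

theorem lin_cf {B : Type*} [Group B] [Finite B] {Z : B → KW p k}
    (hZ : ∀ g x, Z (g * x * g⁻¹) = Z x) (a : MonoidAlgebra (OW p k) B) :
    lin Z a = ∑ χ : Ir (KW p k) B, ip Z (ch χ) * chO χ a := by
  have h1 : Z = ∑ χ : Ir (KW p k) B, ip Z (ch χ) • ch χ := by
    funext x
    rw [cf_expand hZ x, Finset.sum_apply]
    rfl
  have h2 : ∀ S : Finset (Ir (KW p k) B), lin (∑ χ ∈ S, ip Z (ch χ) • ch χ) a
      = ∑ χ ∈ S, ip Z (ch χ) * chO χ a := by
    classical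
    intro S
    induction S using Finset.induction_on with
    | empty =>
      rw [Finset.sum_empty, Finset.sum_empty]
      have h3 := lin_smul (p := p) (k := k) (0 : KW p k) (0 : B → KW p k) a
      rwa [zero_smul, zero_mul] at h3
    | insert j S hj ih =>
      rw [Finset.sum_insert hj, Finset.sum_insert hj, lin_add, lin_smul, ih, YHAux.chO_sm]
  conv_lhs => rw [h1]
  exact h2 _

theorem cut_reg0 {H : Subgroup A} {c : MonoidAlgebra k ↥H} {BH : MonoidAlgebra (OW p k) ↥H}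
    (hB : CenL c BH) {Z : A → KW p k} (hZ : ∀ g x, Z (g * x * g⁻¹) = Z x)
    (h0 : ∀ x, Preg p x → Z x = 0) {s : A} (hs : Preg p s) (hsH : s ∈ H) :
    cut H BH Z s = 0 := by
  classical
  rw [cut, if_pos hsH]
  have h1 : (single s 1 * upr H BH : MonoidAlgebra (OW p k) A) =
      upr H (single ⟨s, hsH⟩ 1 * BH) := by
    rw [map_mul, upr_single]
  have hZ' : ∀ g x : ↥H, on H Z (g * x * g⁻¹) = on H Z x := fun g x => hZ g x
  rw [h1, YHAux.lin_upr, lin_cf hZ']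
  have h2 : ∀ χ : Ir (KW p k) ↥H, ip (on H Z) (ch χ) * chO χ (single ⟨s, hsH⟩ 1 * BH)
      = (Nat.card ↥H : KW p k)⁻¹ * sm (fun y : ↥H => on H Z y *
        (if chO χ BH ≠ 0 then ch χ ⟨s, hsH⟩ * ch χ y⁻¹ else 0)) := by
    intro χ
    by_cases h3 : chO χ BH ≠ 0
    · rw [hB.chO_in h3, YHAux.chO_ch, ip]
      have h4 : ∀ y : ↥H, on H Z y * (if chO χ BH ≠ 0 then ch χ ⟨s, hsH⟩ * ch χ y⁻¹ else 0)
          = ch χ ⟨s, hsH⟩ * (on H Z y * ch χ y⁻¹) := by
        intro y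
        rw [if_pos h3]
        ring
      rw [sm_congr h4, sm_mul]
      ring
    · have h5 : chO χ BH = 0 := not_not.1 h3
      rw [hB.chO_out h5 (by rw [mul_assoc, hB.idem]), mul_zero]
      have h4 : ∀ y : ↥H, on H Z y * (if chO χ BH ≠ 0 then ch χ ⟨s, hsH⟩ * ch χ y⁻¹ else 0)
          = 0 := by
        intro y
        rw [if_neg h3, mul_zero]
      rw [sm_congr h4, sm_zero, mul_zero]
  rw [Finset.sum_congr rfl fun χ _ => h2 χ, ← Finset.mul_sum, ← sm_sum]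
  have h3 : ∀ y : ↥H, ∑ χ : Ir (KW p k) ↥H, on H Z y *
      (if chO χ BH ≠ 0 then ch χ ⟨s, hsH⟩ * ch χ y⁻¹ else 0) = 0 := by
    intro y
    rw [← Finset.mul_sum]
    by_cases hy : Preg p (y : A)
    · have h4 : on H Z y = 0 := h0 _ hy
      rw [h4, zero_mul]
    · rw [← Finset.sum_filter, wbo hB ((FIAux.preg_coe' (⟨s, hsH⟩ : ↥H)).1 hs)
        (fun h4 => hy ((FIAux.preg_coe' y).2 (preg_inv.1 h4))), mul_zero]
  rw [sm_congr h3, sm_zero, mul_zero]

theorem wf_zero {H : Subgroup A} {X Y : A → KW p k} {x : A}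
    (h : ∀ s ∈ H, Preg p s → X (x * s) * Y (x * s)⁻¹ = 0) : Wf p H X Y x = 0 := by
  classical
  rw [Wf, sm_congr (G := fun _ => 0), sm_zero, mul_zero]
  intro s
  split_ifs with hs
  · exact h s s.2 ((FIAux.preg_coe' s).2 hs)
  · rfl

theorem Ph_reg_left (h : Src p b D f i) (hr : ∀ x, x ∈ D ↔ ∃ t, φ t = x) (hB : BBok φ i BB)
    (S : Subgroup T) {Z : A → KW p k} (hZ : ∀ g x, Z (g * x * g⁻¹) = Z x)
    (h0 : ∀ x, Preg p x → Z x = 0) (Y : A → KW p k) : Ph φ D f BB S Z Y 1 = 0 := by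
  obtain ⟨c, hc, hBc⟩ := hB.exists_cen h hr S
  rw [Ph, wf_zero, mul_zero]
  intro s hsH hs
  rw [map_one, one_mul, cut_reg0 hBc hZ h0 hs hsH, zero_mul]

theorem Ph_reg_right (h : Src p b D f i) (hr : ∀ x, x ∈ D ↔ ∃ t, φ t = x) (hB : BBok φ i BB)
    (S : Subgroup T) {Z : A → KW p k} (hZ : ∀ g x, Z (g * x * g⁻¹) = Z x)
    (h0 : ∀ x, Preg p x → Z x = 0) (X : A → KW p k) : Ph φ D f BB S X Z 1 = 0 := by
  obtain ⟨c, hc, hBc⟩ := hB.exists_cen h hr S
  rw [Ph, wf_zero, mul_zero]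
  intro s hsH hs
  rw [map_one, one_mul, cut_reg0 hBc hZ h0 (preg_inv.2 hs) (Subgroup.inv_mem _ hsH), mul_zero]

/-! ### characters outside the block -/

theorem cut_out (h : Src p b D f i) {B : MonoidAlgebra (OW p k) A} (hB : CenL b B)
    {χ : Ir (KW p k) A} (hχ : chO χ B = 0) {v : A} (hv : v ∈ D) {c : MonoidAlgebra k A}
    (hc : LbH (C1 v) i c) {BC : MonoidAlgebra (OW p k) ↥(C1 v)}
    (hBC : CenL (dnr (C1 v) c) BC) {s : A} (hs : Preg p s) (hsv : s ∈ C1 v) :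
    cut (C1 v) BC (ch χ) (v * s) = 0 := by
  obtain ⟨M, hM⟩ := pow_one_of h
  have hvH : v ∈ C1 v := mem_C1'.2 rfl
  rw [cut, if_pos (Subgroup.mul_mem _ hvH hsv), ← YHAux.chO_sm]
  obtain ⟨n, ζ, ε, h1, _, h3⟩ := reg_dec (p := p) (k := k) (g := (⟨s, hsv⟩ : ↥(C1 v)))
    ((FIAux.preg_coe' (⟨s, hsv⟩ : ↥(C1 v))).1 hs)
  have hbc := lbH_b_mul h hv hc
  have h4 : ∀ j, chO χ (single v 1 * upr (C1 v) (ε j * BC)) = 0 := by
    intro j
    refine col_zero' hB (hM v hv) rfl hc.blk hbc ?_ ?_ χ hχ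
    · calc ε j * BC * (ε j * BC) = ε j * (BC * ε j) * BC := by simp only [mul_assoc]
        _ = ε j * ε j * (BC * BC) := by rw [hBC.cen]; simp only [mul_assoc]
        _ = ε j * BC := by rw [h1, hBC.idem]
    · rw [← hBC.red, ← map_mul, mul_assoc, hBC.idem]
  have h5 : (single (v * s) 1 * upr (C1 v) BC : MonoidAlgebra (OW p k) A)
      = ∑ j, ζ j • (single v (1 : OW p k) * upr (C1 v) (ε j * BC)) := by
    have h6 : (single (v * s) 1 : MonoidAlgebra (OW p k) A)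
        = single v 1 * upr (C1 v) (single ⟨s, hsv⟩ 1) := by
      rw [upr_single, single_mul_single, one_mul]
    rw [h6, h3, mul_assoc, ← map_mul, Finset.sum_mul, map_sum, Finset.mul_sum]
    refine Finset.sum_congr rfl fun j _ => ?_
    rw [smul_mul_assoc, map_smul, mul_smul_comm]
  rw [h5, map_sum]
  refine Finset.sum_eq_zero fun j _ => ?_
  rw [chO_smul, h4, mul_zero]

/-! ### a central subgroup -/

theorem FF_cen (hφ : Function.Injective φ) (hR : ∀ z ∈ R, ∀ a : A, φ z * a = a * φ z)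
    (X Y : A → KW p k) (u : T) : FF φ D f BB R X Y u
      = (eQ φ D f (Subgroup.zpowers u) : KW p k) *
        Wf p (C1 (φ u)) (cut (C1 (φ u)) (BB (C1 (φ u))) X) (cut (C1 (φ u)) (BB (C1 (φ u))) Y)
          (φ u) := by
  rw [FF, Ph, (eQ_sup hR hφ u).1, ← (eQ_sup hR hφ u).2, cq_eq hR u]

theorem FF_bot (hφ : Function.Injective φ) (X Y : A → KW p k) (u : T) :
    FF φ D f BB ⊥ X Y u = (eQ φ D f (Subgroup.zpowers u) : KW p k) *
        Wf p (C1 (φ u)) (cut (C1 (φ u)) (BB (C1 (φ u))) X) (cut (C1 (φ u)) (BB (C1 (φ u))) Y)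
          (φ u) := by
  refine FF_cen hφ (fun z hz a => ?_) X Y u
  rw [Subgroup.mem_bot.1 hz, map_one, one_mul, mul_one]

theorem FF_out_left (h : Src p b D f i) (hφ : Function.Injective φ)
    (hr : ∀ x, x ∈ D ↔ ∃ t, φ t = x) (hR : ∀ z ∈ R, ∀ a : A, φ z * a = a * φ z)
    (hBB : BBok φ i BB) {B : MonoidAlgebra (OW p k) A} (hB : CenL b B)
    {χ : Ir (KW p k) A} (hχ : chO χ B = 0) (Y : A → KW p k) (u : T) :
    FF φ D f BB R (ch χ) Y u = 0 := by
  have hu : φ u ∈ D := (hr _).2 ⟨u, rfl⟩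
  obtain ⟨c, hc⟩ := exists_lbH h hu
  rw [FF_cen hφ hR, wf_zero, mul_zero]
  intro s hsH hs
  rw [cut_out h hB hχ hu hc (hBB.c1 u c hc) hs hsH, zero_mul]

theorem FF_out_right (h : Src p b D f i) (hφ : Function.Injective φ)
    (hr : ∀ x, x ∈ D ↔ ∃ t, φ t = x) (hR : ∀ z ∈ R, ∀ a : A, φ z * a = a * φ z)
    (hBB : BBok φ i BB) {B : MonoidAlgebra (OW p k) A} (hB : CenL b B)
    {χ : Ir (KW p k) A} (hχ : chO χ B = 0) (X : A → KW p k) (u : T) :
    FF φ D f BB R X (ch χ) u = 0 := by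
  have hu : φ u⁻¹ ∈ D := (hr _).2 ⟨u⁻¹, rfl⟩
  obtain ⟨c, hc⟩ := exists_lbH h hu
  have hC : C1 (φ u⁻¹) = C1 (φ u) := by rw [map_inv, C1_inv]
  rw [FF_cen hφ hR, wf_zero, mul_zero]
  intro s hsH hs
  have h2 : (φ u * s)⁻¹ = φ u⁻¹ * s⁻¹ := by
    have h3 : s * φ u = φ u * s := (mem_C1'.1 hsH).symm
    rw [← h3, mul_inv_rev, map_inv]
  have h4 := cut_out h hB hχ hu hc (hBB.c1 u⁻¹ c hc) (s := s⁻¹) (preg_inv.2 hs)
    (by rw [hC]; exact Subgroup.inv_mem _ hsH)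
  rw [hC] at h4
  rw [h2, h4, mul_zero]

end

end Pool.Agent.Lib.P0c8ca5.Ex.WV
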