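import Mathlib
import Pool.Agent.Lib.P0c8ca5Ex.WVb
import Pool.Agent.Lib.P0c8ca5Ex.YUb

/-!
# WVd: transport of the contributions to the centralizer of `φ S`

`H = cq φ S`, `φ' : T → ↥H`, `D' = D.subgroupOf H`, `f' = dnr H f`, `i' = dnr H i`, `b' = dnr H c` with
`LbH H i c`.

* `WVd.FF_sub`: `FF φ' D' f' BB' S' (on H X) (on H Y) u = FF φ D f BB (S ⊔ S') X Y u`.
* `WVd.FF_down`: the case `S' = ⊥`.
* `WVd.down`: the package for the group `C(φ S)`.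
-/

set_option linter.unusedSectionVars false

namespace Pool.Agent.Lib.P0c8ca5.Ex.WV.WVd

open MonoidAlgebra YuAux YHAux

section
variable {p : ℕ} [Fact p.Prime] {k : Type*} [Field k] [IsAlgClosed k] [CharP k p]
  {A : Type*} [Group A] [Finite A] {T : Type*} [CommGroup T] [Fintype T]
  {φ : T →* A} {b f i : MonoidAlgebra k A} {D : Subgroup A} {S : Subgroup T}
  {BB : ∀ H : Subgroup A, MonoidAlgebra (OW p k) ↥H}

variable {φ' : T →* ↥(cq φ S)}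
  {BB' : ∀ L : Subgroup ↥(cq φ S), MonoidAlgebra (OW p k) ↥L}

/-- the lifts of the local blocks correspond -/
theorem BB_sub (h : Src p b D f i) (hr : ∀ x, x ∈ D ↔ ∃ t, φ t = x)
    (hφ' : ∀ t, (φ' t : A) = φ t) (hB : BBok φ i BB) (hB' : BBok φ' (dnr (cq φ S) i) BB')
    {Q' : Subgroup T} (hle : cq φ Q' ≤ cq φ S) :
    BB' (cq φ' Q') = cm (eC hφ' hle) (BB (cq φ Q')) := by
  obtain ⟨c0, hc0⟩ := exists_lb h (map_le_D hr Q')
  have hc0 : LbH (cq φ Q') i c0 := hc0.toH rfl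
  have h1 := hB' Q' _ (lbH_sub hφ' hle hc0)
  have h2 := (hB Q' c0 hc0).me (eC hφ' hle)
  rw [dnr_dnr hφ' hle c0] at h2
  exact cenL_unique h1 h2

/-- the parts correspond -/
theorem cut_sub (hφ' : ∀ t, (φ' t : A) = φ t) {Q' : Subgroup T} (hle : cq φ Q' ≤ cq φ S)
    {B' : MonoidAlgebra (OW p k) ↥(cq φ' Q')} {B : MonoidAlgebra (OW p k) ↥(cq φ Q')}
    (hBB : B' = cm (eC hφ' hle) B) (X : A → KW p k) (y : ↥(cq φ S)) :
    cut (cq φ' Q') B' (on (cq φ S) X) y = cut (cq φ Q') B X (y : A) := by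
  by_cases hy : y ∈ cq φ' Q'
  · have hy' : (y : A) ∈ cq φ Q' := (mem_cq' hφ').1 hy
    rw [cut, cut, if_pos hy, if_pos hy']
    have h1 : (single y 1 * upr (cq φ' Q') B' : MonoidAlgebra (OW p k) ↥(cq φ S)) =
        upr (cq φ' Q') (single (⟨y, hy⟩ : ↥(cq φ' Q')) 1 * B') := by
      rw [map_mul, upr_single]
    have h2 : (single (y : A) 1 * upr (cq φ Q') B : MonoidAlgebra (OW p k) A) =
        upr (cq φ Q') (single (⟨(y : A), hy'⟩ : ↥(cq φ Q')) 1 * B) := by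
      rw [map_mul, upr_single]
    rw [h1, h2, lin_upr, lin_upr]
    have h3 : on (cq φ' Q') (on (cq φ S) X)
        = fun z => on (cq φ Q') X (eC hφ' hle z) := rfl
    have h4 : (single (⟨y, hy⟩ : ↥(cq φ' Q')) 1 * B' : MonoidAlgebra (OW p k) ↥(cq φ' Q'))
        = cm (eC hφ' hle) (single (⟨(y : A), hy'⟩ : ↥(cq φ Q')) 1 * B) := by
      rw [map_mul, hBB]
      congr 1
      exact (cm_single (eC hφ' hle) (⟨y, hy⟩ : ↥(cq φ' Q')) (1 : OW p k)).symm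
    rw [h3, h4, lin_me]
  · have hy' : (y : A) ∉ cq φ Q' := fun h1 => hy ((mem_cq' hφ').2 h1)
    rw [cut, cut, if_neg hy, if_neg hy']

/-- the inner products over the `p`-regular elements correspond -/
theorem wf_sub (hφ' : ∀ t, (φ' t : A) = φ t) {Q' : Subgroup T} (hle : cq φ Q' ≤ cq φ S)
    {X Y : A → KW p k} {X' Y' : ↥(cq φ S) → KW p k} (hX : ∀ y : ↥(cq φ S), X' y = X (y : A))
    (hY : ∀ y : ↥(cq φ S), Y' y = Y (y : A)) (u : T) :
    Wf p (cq φ' Q') X' Y' (φ' u) = Wf p (cq φ Q') X Y (φ u) := by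
  rw [Wf, Wf, Nat.card_congr (eC hφ' hle).toEquiv]
  congr 1
  rw [← sm_me (eC hφ' hle)]
  refine sm_congr fun s => ?_
  have h1 : Preg p ((eC hφ' hle) s) ↔ Preg p s := preg_me (eC hφ' hle) s
  have h2 : ((φ' u * (s : ↥(cq φ S)) : ↥(cq φ S)) : A) = φ u * (((eC hφ' hle) s : ↥(cq φ Q')) : A) := by
    rw [Subgroup.coe_mul, hφ', coe_eC]
  by_cases hs : Preg p s
  · rw [if_pos hs, if_pos (h1.2 hs), hX, hY, Subgroup.coe_inv, h2]
  · rw [if_neg hs, if_neg (fun h3 => hs (h1.1 h3))]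

/-- the contributions at `Q' ≥ S` correspond -/
theorem Ph_sub (h : Src p b D f i) (hr : ∀ x, x ∈ D ↔ ∃ t, φ t = x)
    (hφ' : ∀ t, (φ' t : A) = φ t) (hB : BBok φ i BB) (hB' : BBok φ' (dnr (cq φ S) i) BB')
    {Q' : Subgroup T} (hQ : S ≤ Q') (X Y : A → KW p k) (u : T) :
    Ph φ' (D.subgroupOf (cq φ S)) (dnr (cq φ S) f) BB' Q' (on (cq φ S) X) (on (cq φ S) Y) u
      = Ph φ D f BB Q' X Y u := by
  have hle : cq φ Q' ≤ cq φ S := cq_anti φ hQ
  have hBB := BB_sub h hr hφ' hB hB' hle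
  rw [Ph, Ph, eQ_sub h hr hφ' hQ]
  congr 1
  exact wf_sub hφ' hle (fun y => cut_sub hφ' hle hBB X y) (fun y => cut_sub hφ' hle hBB Y y) u

/-- in `C(φ S)` the subgroup `S` may be added -/
theorem FF_add {A' : Type*} [Group A'] [Finite A'] {φ : T →* A'} {f : MonoidAlgebra k A'}
    {D : Subgroup A'} {BB : ∀ H : Subgroup A', MonoidAlgebra (OW p k) ↥H}
    (hφ : Function.Injective φ)
    (hR : ∀ z ∈ S, ∀ a : A', φ z * a = a * φ z) (P : Subgroup T) (X Y : A' → KW p k) (u : T) :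
    FF φ D f BB P X Y u = FF φ D f BB (S ⊔ P) X Y u := by
  have hcq : ∀ Q : Subgroup T, cq φ (S ⊔ Q) = cq φ Q := by
    intro Q
    refine le_antisymm (cq_anti φ le_sup_right) fun x hx => ?_
    rw [cq, Subgroup.mem_centralizer_iff] at hx ⊢
    rintro _ ⟨t, ht, rfl⟩
    obtain ⟨z, hz, q, hq, rfl⟩ := Subgroup.mem_sup.1 ht
    have h1 := hx (φ q) ⟨q, hq, rfl⟩
    rw [map_mul, mul_assoc, h1, ← mul_assoc, hR z hz x, mul_assoc]
  have hfix : ∀ α ∈ EG φ D f, ∀ z ∈ S, α z = z := fun α hα z hz =>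
    YmAux.fix_cen hφ hα (hR z hz)
  have heQ : ∀ Q : Subgroup T, eQ φ D f (S ⊔ Q) = eQ φ D f Q := by
    intro Q
    rw [eQ, eQ]
    refine Nat.card_congr (Equiv.subtypeEquivRight fun α => ?_)
    rw [YmAux.fix_sup]
    exact ⟨fun h1 => h1.2, fun h1 => ⟨fun t ht => hfix α.1 α.2 t ht, h1⟩⟩
  have key : ∀ Q Q' : Subgroup T, cq φ Q = cq φ Q' → eQ φ D f Q = eQ φ D f Q' →
      Ph φ D f BB Q X Y u = Ph φ D f BB Q' X Y u := by
    intro Q Q' h1 h2
    rw [Ph, Ph, h2, h1]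
  rw [FF, FF, sup_assoc]
  exact (key _ _ (hcq _) (heQ _)).symm

/-- **transport of the contributions** -/
theorem FF_sub (h : Src p b D f i) (hφ : Function.Injective φ)
    (hr : ∀ x, x ∈ D ↔ ∃ t, φ t = x) (hφ' : ∀ t, (φ' t : A) = φ t) (hB : BBok φ i BB)
    (hB' : BBok φ' (dnr (cq φ S) i) BB') (P : Subgroup T) (X Y : A → KW p k) (u : T) :
    FF φ' (D.subgroupOf (cq φ S)) (dnr (cq φ S) f) BB' P (on (cq φ S) X) (on (cq φ S) Y) u
      = FF φ D f BB (S ⊔ P) X Y u := by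
  have hinj : Function.Injective φ' := fun s t hst => hφ (by rw [← hφ' s, ← hφ' t, hst])
  have hcen : ∀ z ∈ S, ∀ a : ↥(cq φ S), φ' z * a = a * φ' z := by
    intro z hz a
    apply Subtype.ext
    rw [Subgroup.coe_mul, Subgroup.coe_mul, hφ']
    exact Subgroup.mem_centralizer_iff.1 a.2 (φ z) ⟨z, hz, rfl⟩
  rw [FF_add hinj hcen, FF, FF]
  exact Ph_sub h hr hφ' hB hB' (le_sup_left.trans le_sup_left) X Y u

theorem FF_down (h : Src p b D f i) (hφ : Function.Injective φ)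
    (hr : ∀ x, x ∈ D ↔ ∃ t, φ t = x) (hφ' : ∀ t, (φ' t : A) = φ t) (hB : BBok φ i BB)
    (hB' : BBok φ' (dnr (cq φ S) i) BB') (X Y : A → KW p k) (u : T) :
    FF φ' (D.subgroupOf (cq φ S)) (dnr (cq φ S) f) BB' ⊥ (on (cq φ S) X) (on (cq φ S) Y) u
      = FF φ D f BB S X Y u := by
  rw [FF_sub h hφ hr hφ' hB hB', sup_bot_eq]

/-- **the package for the group `C(φ S)`** -/
theorem down (h : Src p b D f i) (hφ : Function.Injective φ)
    (hr : ∀ x, x ∈ D ↔ ∃ t, φ t = x) (hB : BBok φ i BB) (S : Subgroup T) :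
    ∃ (c : MonoidAlgebra k A) (φ' : T →* ↥(cq φ S))
      (BB' : ∀ L : Subgroup ↥(cq φ S), MonoidAlgebra (OW p k) ↥L),
      LbH (cq φ S) i c ∧ (∀ t, (φ' t : A) = φ t) ∧ Function.Injective φ' ∧
      (∀ x, x ∈ D.subgroupOf (cq φ S) ↔ ∃ t, φ' t = x) ∧
      Src p (dnr (cq φ S) c) (D.subgroupOf (cq φ S)) (dnr (cq φ S) f) (dnr (cq φ S) i) ∧
      BBok φ' (dnr (cq φ S) i) BB' ∧
      (∀ X ∈ V (KW p k) A, on (cq φ S) X ∈ V (KW p k) ↥(cq φ S)) ∧
      ∀ (X Y : A → KW p k) (u : T),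
        FF φ' (D.subgroupOf (cq φ S)) (dnr (cq φ S) f) BB' ⊥ (on (cq φ S) X) (on (cq φ S) Y) u
          = FF φ D f BB S X Y u := by
  obtain ⟨c, hc⟩ := exists_lb h (map_le_D hr S)
  have hc : LbH (cq φ S) i c := hc.toH rfl
  have hmem : ∀ t, φ t ∈ cq φ S := fun t => D_le_cq h hr S ((hr _).2 ⟨t, rfl⟩)
  let φ' : T →* ↥(cq φ S) := φ.codRestrict (cq φ S) hmem
  have hφ' : ∀ t, (φ' t : A) = φ t := fun t => rfl
  have hsrc := src_sub h hr hc
  have hran := ran_sub hφ' hr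
  obtain ⟨BB', hB'⟩ := exists_BBok (φ := φ') hsrc hran
  refine ⟨c, φ', BB', hc, hφ', fun s t hst => hφ (congrArg Subtype.val hst), hran, hsrc, hB',
    fun X hX => V_comp (cq φ S).subtype hX, fun X Y u => FF_down h hφ hr hφ' hB hB' X Y u⟩

/-- the order of the centralizer is smaller if `φ S` is not central -/
theorem card_cq_lt (hS : ∃ z ∈ S, ∃ a : A, φ z * a ≠ a * φ z) :
    Nat.card ↥(cq φ S) < Nat.card A := by
  refine lt_of_le_of_ne (Subgroup.card_le_card_group _) fun h1 => ?_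
  obtain ⟨z, hz, a, ha⟩ := hS
  have h2 : cq φ S = ⊤ := Subgroup.eq_top_of_card_eq _ h1
  have h3 : a ∈ cq φ S := h2 ▸ Subgroup.mem_top a
  exact ha (Subgroup.mem_centralizer_iff.1 h3 (φ z) ⟨z, hz, rfl⟩)

end

end Pool.Agent.Lib.P0c8ca5.Ex.WV.WVd
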