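import Mathlib
import Pool.Agent.Lib.P0c8ca5Ex.WVa
import Pool.Agent.Lib.P0c8ca5Ex.YJ
import Pool.Agent.Lib.P0c8ca5Ex.YQ

/-!
# WVc: the values on the `p`-regular elements from the characters with `R` in the kernel

`tilde`: for `χ` there are `p`-integral `a_ξ`, `a_ξ = 0` unless `φ R` is in the kernel of `ξ`, with
`χ = ∑ a_ξ ξ` on the `p`-regular elements. PROOF. For representatives `s` of the `p`-regular
classes let `P_s ≥ φ R` be a Sylow `p`-subgroup of `C(s)` and
`a_ξ = ∑_s χ(s) |C(s)|⁻¹ ∑_(u ∈ P_s) ξ(u s⁻¹)`. The mean value over `P_s` is an algebraic integer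
(`int_mean`), the sum over `P_s` vanishes if `φ R` is not in the kernel, and by the orthogonality
of the columns (`col`) only `u = 1` contributes at a `p`-regular element.
-/

set_option linter.unusedSectionVars false

namespace Pool.Agent.Lib.P0c8ca5.Ex.WV

open MonoidAlgebra YkAux

namespace WVcAux

section
variable {K : Type*} [Field K] [IsAlgClosed K] [CharZero K] {A : Type*} [Group A] [Finite A]
  {p : ℕ} [Fact p.Prime]

/-- a Sylow `p`-subgroup of the centralizer that contains `Z` -/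
theorem exists_syl {Z : Subgroup A} (hZp : IsPGroup p Z) (hZ : ∀ z ∈ Z, ∀ a : A, z * a = a * z)
    (s : A) : ∃ P : Subgroup A, IsPGroup p P ∧ Z ≤ P ∧ (∀ u ∈ P, u * s = s * u) ∧
      Nat.card ↥P = ordProj[p] (Nat.card (Subgroup.centralizer ({s} : Set A))) := by
  set C := Subgroup.centralizer ({s} : Set A) with hC
  have hZC : Z ≤ C := by
    intro z hz
    rw [hC, Subgroup.mem_centralizer_singleton_iff]
    exact hZ z hz s
  have hZ' : IsPGroup p (Z.subgroupOf C) :=
    hZp.comap_of_injective C.subtype C.subtype_injective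
  obtain ⟨P, hP⟩ := hZ'.exists_le_sylow
  refine ⟨(P : Subgroup ↥C).map C.subtype, P.2.map C.subtype, ?_, ?_, ?_⟩
  · intro z hz
    exact ⟨⟨z, hZC hz⟩, hP (Subgroup.mem_subgroupOf.2 hz), rfl⟩
  · rintro _ ⟨u, -, rfl⟩
    exact Subgroup.mem_centralizer_singleton_iff.1 u.2
  · rw [Subgroup.card_map_of_injective C.subtype_injective]
    exact P.card_eq_multiplicity

open Classical in
/-- the columns of a `p`-regular element and of `u s⁻¹` -/
theorem col_reg {P : Subgroup A} (hP : IsPGroup p P) {s : A} (hs : Preg p s)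
    (hPs : ∀ u ∈ P, u * s = s * u) {x : A} (hx : Preg p x) (u : A) (hu : u ∈ P) :
    ∑ ξ : Ir K A, ch ξ (u * s⁻¹) * ch ξ x
      = if u = 1 ∧ IsConj s x then (Nat.card (Subgroup.centralizer ({s} : Set A)) : K) else 0 := by
  rw [col]
  split_ifs with h
  · obtain ⟨rfl, hc⟩ := h
    obtain ⟨c, hc⟩ := isConj_iff.1 hc
    congr 1
    refine Nat.card_congr ⟨fun g => ⟨g.1 * c, ?_⟩, fun g => ⟨g.1 * c⁻¹, ?_⟩, fun g => ?_,
      fun g => ?_⟩
    · have h1 : (g : A) * x = s * g := by
        have h2 := g.2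
        calc (g : A) * x = s * (1 * s⁻¹ * g * x) := by group
          _ = s * g := by rw [h2]
      rw [Subgroup.mem_centralizer_singleton_iff]
      calc (g : A) * c * s = g * (c * s * c⁻¹) * c := by group
        _ = s * (g * c) := by rw [hc, h1, mul_assoc]
    · have h1 := Subgroup.mem_centralizer_singleton_iff.1 g.2
      rw [← hc]
      calc 1 * s⁻¹ * ((g : A) * c⁻¹) * (c * s * c⁻¹) = s⁻¹ * (g * s) * c⁻¹ := by group
        _ = (g : A) * c⁻¹ := by rw [h1]; group
    · exact Subtype.ext (mul_inv_cancel_right _ _)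
    · exact Subtype.ext (inv_mul_cancel_right _ _)
  · rw [Nat.cast_eq_zero, Nat.card_eq_zero]
    left
    refine ⟨fun g => h ?_⟩
    have h1 : x = (g : A)⁻¹ * (u⁻¹ * s) * (g : A)⁻¹⁻¹ := by
      have h2 := g.2
      have h3 : u⁻¹ * s = s * u⁻¹ := by
        have h4 := hPs u hu
        calc u⁻¹ * s = u⁻¹ * (s * u) * u⁻¹ := by group
          _ = s * u⁻¹ := by rw [← h4]; group
      rw [h3]
      calc x = (g : A)⁻¹ * (s * u⁻¹) * (u * s⁻¹ * g * x) := by group
        _ = (g : A)⁻¹ * (s * u⁻¹) * (g : A)⁻¹⁻¹ := by rw [h2, inv_inv]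
    have h2 : Preg p (u⁻¹ * s) := by
      rw [h1] at hx
      exact (preg_conj _ _).1 hx
    obtain ⟨n, hn⟩ := hP ⟨u⁻¹, P.inv_mem hu⟩
    have hn' : u⁻¹ ^ p ^ n = 1 := congrArg Subtype.val hn
    have h3 : u⁻¹ = 1 := YqAux.preg_uniq hn' (hPs _ (P.inv_mem hu)) hs h2
    refine ⟨inv_eq_one.1 h3, isConj_iff.2 ⟨(g : A)⁻¹, ?_⟩⟩
    rw [h3, one_mul] at h1
    exact h1.symm

end

end WVcAux

open WVcAux

section
variable {p : ℕ} [Fact p.Prime] {k : Type*} [Field k] [IsAlgClosed k] [CharP k p]
  {A : Type*} [Group A] [Finite A] {T : Type*} [CommGroup T] [Fintype T]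
  {φ : T →* A} {R : Subgroup T}

theorem tilde (hT : IsPGroup p T) (hR : ∀ z ∈ R, ∀ a : A, φ z * a = a * φ z)
    (χ : Ir (KW p k) A) : ∃ a : Ir (KW p k) A → KW p k, (∀ ξ, PI p (a ξ)) ∧
      (∀ ξ, ¬ Ker φ R ξ → a ξ = 0) ∧ ∀ x, Preg p x → ch χ x = ∑ ξ, a ξ * ch ξ x := by
  classical
  have := Fintype.ofFinite A
  set Z := R.map φ with hZdef
  have hZp : IsPGroup p Z := (hT.to_subgroup R).map φ
  have hZ : ∀ z ∈ Z, ∀ a : A, z * a = a * z := by
    rintro _ ⟨z, hz, rfl⟩
    exact hR z hz
  choose P hP1 hP2 hP3 hP4 using exists_syl (p := p) hZp hZ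
  let rp : ConjClasses A → A := fun c => Quotient.out c
  have hrp : ∀ c, ConjClasses.mk (rp c) = c := fun c => Quotient.out_eq c
  let C : A → ℕ := fun s => Nat.card (Subgroup.centralizer ({s} : Set A))
  have hC0 : ∀ s, (C s : KW p k) ≠ 0 := fun s => Nat.cast_ne_zero.2 Nat.card_pos.ne'
  let S : A → Ir (KW p k) A → KW p k := fun s ξ => sm (fun u : ↥(P s) => ch ξ (u * s⁻¹))
  have hPs : ∀ s, ∀ u ∈ P s, u * s⁻¹ = s⁻¹ * u := by
    intro s u hu
    have h1 := hP3 s u hu
    calc u * s⁻¹ = s⁻¹ * (s * u) * s⁻¹ := by group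
      _ = s⁻¹ * u := by rw [← h1]; group
  refine ⟨fun ξ => ∑ c : ConjClasses A, if Preg p (rp c) then
    ch χ (rp c) * ((C (rp c) : KW p k)⁻¹ * S (rp c) ξ) else 0, fun ξ => ?_, fun ξ hξ => ?_,
    fun x hx => ?_⟩
  · refine PI.sum _ fun c _ => ?_
    split_ifs
    · refine (PI.of_int (int_val (ch_mem χ) _)).mul ?_
      set s := rp c
      have h1 : (C s : KW p k) = (Nat.card ↥(P s) : KW p k) * (ordCompl[p] (C s) : ℕ) := by
        rw [hP4 s, ← Nat.cast_mul, Nat.ordProj_mul_ordCompl_eq_self]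
      have h2 : (C s : KW p k)⁻¹ * S s ξ = ((ordCompl[p] (C s) : ℕ) : KW p k)⁻¹ *
          ((Nat.card ↥(P s) : KW p k)⁻¹ * S s ξ) := by
        rw [h1, mul_inv]
        ring
      rw [h2]
      exact (PI.inv_nat (Nat.not_dvd_ordCompl (Fact.out : p.Prime) Nat.card_pos.ne')).mul
        (PI.of_int (int_mean (ch_mem ξ) (P s) (hPs s)))
    · exact PI.zero
  · refine Finset.sum_eq_zero fun c _ => ?_
    split_ifs
    · have h1 : S (rp c) ξ = 0 := by
        set s := rp c
        by_contra hne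
        refine hξ fun z hz x => ?_
        have h2 : S s ξ = om ξ (single (φ z) (1 : KW p k)) * S s ξ := by
          have h3 := sm_mul_left (⟨φ z, hP2 s ⟨z, hz, rfl⟩⟩ : ↥(P s))
            (fun u : ↥(P s) => ch ξ (u * s⁻¹))
          rw [show S s ξ = sm (fun u : ↥(P s) => ch ξ (u * s⁻¹)) from rfl, ← sm_mul]
          conv_lhs => rw [← h3]
          refine sm_congr fun u => ?_
          rw [Subgroup.coe_mul, mul_assoc, YJAux.ch_cen ξ (hR z hz)]
        have h3 : om ξ (single (φ z) (1 : KW p k)) = 1 := by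
          by_contra h4
          apply hne
          have h5 : (om ξ (single (φ z) (1 : KW p k)) - 1) * S s ξ = 0 := by
            rw [sub_mul, one_mul, ← h2, sub_self]
          exact (mul_eq_zero.1 h5).resolve_left (sub_ne_zero.2 h4)
        rw [YJAux.ch_cen ξ (hR z hz), h3, one_mul]
      rw [h1, mul_zero, mul_zero]
    · rfl
  · have h1 : ∀ c : ConjClasses A, ∑ ξ : Ir (KW p k) A, (if Preg p (rp c) then
        ch χ (rp c) * ((C (rp c) : KW p k)⁻¹ * S (rp c) ξ) else 0) * ch ξ x
        = if c = ConjClasses.mk x then ch χ x else 0 := by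
      intro c
      set s := rp c with hs
      by_cases hreg : Preg p s
      · have h2 : ∀ ξ : Ir (KW p k) A, (if Preg p s then
            ch χ s * ((C s : KW p k)⁻¹ * S s ξ) else 0) * ch ξ x
            = (ch χ s * (C s : KW p k)⁻¹) * sm (fun u : ↥(P s) => ch ξ (u * s⁻¹) * ch ξ x) := by
          intro ξ
          rw [if_pos hreg]
          have h3 : ∀ u : ↥(P s), ch ξ (u * s⁻¹) * ch ξ x = ch ξ x * ch ξ (u * s⁻¹) :=
            fun u => mul_comm _ _
          rw [sm_congr h3, sm_mul]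
          ring
        rw [Finset.sum_congr rfl fun ξ _ => h2 ξ, ← Finset.mul_sum, ← sm_sum]
        have h3 : ∀ u : ↥(P s), ∑ ξ : Ir (KW p k) A, ch ξ ((u : A) * s⁻¹) * ch ξ x
            = if (u : A) = 1 ∧ IsConj s x then (C s : KW p k) else 0 := by
          intro u
          convert col_reg (K := KW p k) (hP1 s) hreg (hP3 s) hx (u : A) u.2
        rw [sm_congr h3]
        by_cases hc : IsConj s x
        · have h4 : c = ConjClasses.mk x := by
            rw [← hrp c]
            exact ConjClasses.mk_eq_mk_iff_isConj.2 hc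
          obtain ⟨g, hg⟩ := isConj_iff.1 hc
          rw [if_pos h4, ← hg, ch_conj]
          have := Fintype.ofFinite ↥(P s)
          rw [sm_eq, Finset.sum_eq_single (1 : ↥(P s))]
          · rw [if_pos ⟨rfl, isConj_iff.2 ⟨g, rfl⟩⟩, mul_assoc, inv_mul_cancel₀ (hC0 s), mul_one]
          · intro u _ hu
            rw [if_neg]
            rintro ⟨h5, -⟩
            exact hu (Subtype.ext h5)
          · intro h5
            exact absurd (Finset.mem_univ _) h5
        · have h4 : c ≠ ConjClasses.mk x := by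
            intro h5
            apply hc
            rw [← hrp c] at h5
            exact ConjClasses.mk_eq_mk_iff_isConj.1 h5
          have h5 : ∀ u : ↥(P s), (if (u : A) = 1 ∧ IsConj s x then (C s : KW p k) else 0) = 0 :=
            fun u => if_neg fun h6 => hc h6.2
          rw [if_neg h4, sm_congr h5, sm_zero, mul_zero]
      · rw [if_neg]
        · refine Finset.sum_eq_zero fun ξ _ => ?_
          rw [if_neg hreg, zero_mul]
        · intro h2
          apply hreg
          rw [h2] at hs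
          have h3 : IsConj s x := by
            rw [hs]
            exact ConjClasses.mk_eq_mk_iff_isConj.1 (hrp _)
          obtain ⟨g, hg⟩ := isConj_iff.1 h3
          rw [← hg] at hx
          exact (preg_conj _ _).1 hx
    have h2 : ∑ ξ : Ir (KW p k) A, (∑ c : ConjClasses A, if Preg p (rp c) then
        ch χ (rp c) * ((C (rp c) : KW p k)⁻¹ * S (rp c) ξ) else 0) * ch ξ x
        = ∑ c : ConjClasses A, if c = ConjClasses.mk x then ch χ x else 0 := by
      rw [Finset.sum_congr rfl fun ξ _ => Finset.sum_mul _ _ _, Finset.sum_comm]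
      exact Finset.sum_congr rfl fun c _ => h1 c
    rw [h2, Finset.sum_ite_eq', if_pos (Finset.mem_univ _)]

end

end Pool.Agent.Lib.P0c8ca5.Ex.WV
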