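import Mathlib
import Pool.Agent.Lib.P0c8ca5Ex.WVb

/-!
# WVe: the step at a central subgroup

* `Ph_cen`, `FF_tr`: the behaviour under translation by central elements.
* `Th_off`: the gluing.
* `step`: if the contributions at the subgroups `S > R` are `p`-integral virtual characters then so
  are the contributions at `R`.
-/

set_option linter.unusedSectionVars false

namespace Pool.Agent.Lib.P0c8ca5.Ex.WV

open MonoidAlgebra

section
variable {p : ℕ} [Fact p.Prime] {k : Type*} [Field k] [IsAlgClosed k] [CharP k p]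
  {A : Type*} [Group A] [Finite A] {T : Type*} [CommGroup T] [Fintype T]
  {φ : T →* A} {b f i : MonoidAlgebra k A} {D : Subgroup A} {R : Subgroup T}
  {BB : ∀ H : Subgroup A, MonoidAlgebra (OW p k) ↥H}

/-! ### translation by central elements -/

theorem cjr_single_cen {z : A} (hz : ∀ a : A, z * a = a * z) (g : A) :
    cjr g (single z (1 : OW p k)) = single z 1 := by
  rw [cjr_eq_iff, single_mul_single, single_mul_single, one_mul, hz]

theorem lin_cen {z : A} (hz : ∀ a : A, z * a = a * z) (χ : Ir (KW p k) A)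
    (a : MonoidAlgebra (OW p k) A) :
    lin (ch χ) (single z 1 * a) = om χ (single z (1 : KW p k)) * lin (ch χ) a := by
  rw [← YHAux.chO_sm, ← YHAux.chO_sm, chO_cmul (cjr_single_cen hz)]
  congr 2
  rw [MonoidAlgebra.mapRingHom_single, map_one]

theorem cut_cen {H : Subgroup A} {BH : MonoidAlgebra (OW p k) ↥H} {z : A}
    (hz : ∀ a : A, z * a = a * z) (hzH : z ∈ H) (χ : Ir (KW p k) A) (x : A) :
    cut H BH (ch χ) (z * x) = om χ (single z (1 : KW p k)) * cut H BH (ch χ) x := by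
  classical
  rw [cut, cut]
  by_cases hx : x ∈ H
  · rw [if_pos hx, if_pos (H.mul_mem hzH hx)]
    have h1 : (single (z * x) 1 : MonoidAlgebra (OW p k) A) = single z 1 * single x 1 := by
      rw [single_mul_single, one_mul]
    rw [h1, mul_assoc, lin_cen hz]
  · rw [if_neg hx, if_neg (fun h => hx ((H.mul_mem_cancel_left hzH).1 h)), mul_zero]

theorem wf_cen {H : Subgroup A} {X Y : A → KW p k} {z : A} {w w' : KW p k}
    (hz : ∀ a : A, z * a = a * z)
    (hX : ∀ x, X (z * x) = w * X x) (hY : ∀ x, Y (z⁻¹ * x) = w' * Y x) (x : A) :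
    Wf p H X Y (z * x) = w * w' * Wf p H X Y x := by
  classical
  rw [Wf, Wf, mul_left_comm]
  congr 1
  rw [← sm_mul]
  refine sm_congr fun s => ?_
  split_ifs
  · have h1 : (z * x * s)⁻¹ = z⁻¹ * (x * s)⁻¹ := by
      rw [mul_assoc, hz, mul_inv_rev]
    rw [h1, hY, mul_assoc z x s, hX]
    ring
  · rw [mul_zero]

theorem Ph_cen {S : Subgroup T} {z : T} (hz : ∀ a : A, φ z * a = a * φ z)
    (χ ψ : Ir (KW p k) A) (u : T) :
    Ph φ D f BB S (ch χ) (ch ψ) (z * u) = om χ (single (φ z) (1 : KW p k)) *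
      om ψ (single (φ z⁻¹) (1 : KW p k)) * Ph φ D f BB S (ch χ) (ch ψ) u := by
  have hz' : ∀ a : A, φ z⁻¹ * a = a * φ z⁻¹ := by
    intro a
    rw [map_inv, inv_mul_eq_iff_eq_mul, ← mul_assoc, hz, mul_inv_cancel_right]
  have hm : ∀ w : T, (∀ a : A, φ w * a = a * φ w) → φ w ∈ cq φ S := by
    intro w hw
    rw [cq, CD, Subgroup.mem_centralizer_iff]
    intro x _
    exact (hw x).symm
  rw [Ph, Ph, map_mul, wf_cen hz (cut_cen hz (hm z hz) χ) (by
    intro x
    have h1 := cut_cen (BH := BB (cq φ S)) hz' (hm _ hz') ψ x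
    rwa [map_inv] at h1), map_inv]
  ring

theorem FF_tr {S : Subgroup T} {z : T} (hz : ∀ a : A, φ z * a = a * φ z) (hzS : z ∈ S)
    (χ ψ : Ir (KW p k) A) (u : T) :
    FF φ D f BB S (ch χ) (ch ψ) (z * u) = om χ (single (φ z) (1 : KW p k)) *
      om ψ (single (φ z⁻¹) (1 : KW p k)) * FF φ D f BB S (ch χ) (ch ψ) u := by
  rw [FF, FF, YdAux.sup_zp_mul hzS, Ph_cen hz]

/-! ### the gluing -/

/-- the sum over the subgroups -/
noncomputable def Th [Fintype (Subgroup T)] (φ : T →* A) (D : Subgroup A) (f : MonoidAlgebra k A)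
    (BB : ∀ H : Subgroup A, MonoidAlgebra (OW p k) ↥H) (m : Subgroup T → ℤ) (X Y : A → KW p k)
    (u : T) : KW p k :=
  ∑ S : Subgroup T, (m S : KW p k) * FF φ D f BB S X Y u

open Finset Classical in
theorem Th_off [Fintype (Subgroup T)] {m : Subgroup T → ℤ} (hm0 : ∀ S, ¬ R < S → m S = 0)
    {u : T} (hm : ∀ S', R ⊔ Subgroup.zpowers u ≤ S' →
      (∑ S with S ⊔ Subgroup.zpowers u = S', m S)
        = if S' = R ⊔ Subgroup.zpowers u then 1 else 0) (X Y : A → KW p k) :
    Th φ D f BB m X Y u = FF φ D f BB R X Y u := by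
  rw [Th]
  have hmaps : ∀ S ∈ (Finset.univ : Finset (Subgroup T)),
      S ⊔ Subgroup.zpowers u ∈ (Finset.univ : Finset (Subgroup T)) :=
    fun S _ => Finset.mem_univ _
  rw [← Finset.sum_fiberwise_of_maps_to hmaps]
  have h2 : ∀ S' : Subgroup T, (∑ S with S ⊔ Subgroup.zpowers u = S',
      (m S : KW p k) * FF φ D f BB S X Y u)
      = if S' = R ⊔ Subgroup.zpowers u then Ph φ D f BB S' X Y u else 0 := by
    intro S'
    have h3 : (∑ S with S ⊔ Subgroup.zpowers u = S', (m S : KW p k) * FF φ D f BB S X Y u)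
        = ((∑ S with S ⊔ Subgroup.zpowers u = S', m S : ℤ) : KW p k) *
          Ph φ D f BB S' X Y u := by
      rw [Int.cast_sum, Finset.sum_mul]
      refine Finset.sum_congr rfl fun S hS => ?_
      rw [FF, (Finset.mem_filter.1 hS).2]
    rw [h3]
    by_cases hle : R ⊔ Subgroup.zpowers u ≤ S'
    · rw [hm S' hle]
      split_ifs
      · rw [Int.cast_one, one_mul]
      · rw [Int.cast_zero, zero_mul]
    · rw [if_neg (fun h' => hle h'.ge), Finset.sum_eq_zero, Int.cast_zero, zero_mul]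
      intro S hS
      refine hm0 S fun hlt => hle ?_
      rw [← (Finset.mem_filter.1 hS).2]
      exact sup_le_sup_right hlt.le _
  rw [Finset.sum_congr rfl fun S' _ => h2 S', Finset.sum_ite_eq', if_pos (Finset.mem_univ _), FF]

theorem Th_tr [Fintype (Subgroup T)] (hR : ∀ z ∈ R, ∀ a : A, φ z * a = a * φ z)
    {m : Subgroup T → ℤ} (hm0 : ∀ S, ¬ R < S → m S = 0) {z : T} (hz : z ∈ R)
    (χ ψ : Ir (KW p k) A) (u : T) :
    Th φ D f BB m (ch χ) (ch ψ) (z * u) = om χ (single (φ z) (1 : KW p k)) *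
      om ψ (single (φ z⁻¹) (1 : KW p k)) * Th φ D f BB m (ch χ) (ch ψ) u := by
  rw [Th, Th, Finset.mul_sum]
  refine Finset.sum_congr rfl fun S _ => ?_
  by_cases hS : R < S
  · rw [FF_tr (hR z hz) (hS.le hz)]
    ring
  · rw [hm0 S hS, Int.cast_zero, zero_mul, zero_mul, mul_zero]

theorem Th_PI [Fintype (Subgroup T)] {m : Subgroup T → ℤ} (hm0 : ∀ S, ¬ R < S → m S = 0)
    {X Y : A → KW p k} {l : T → KW p k}
    (hsub : ∀ S, R < S → PI p (∑ u : T, l u * FF φ D f BB S X Y u)) :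
    PI p (∑ u : T, l u * Th φ D f BB m X Y u) := by
  have h1 : ∑ u : T, l u * Th φ D f BB m X Y u
      = ∑ S : Subgroup T, (m S : KW p k) * ∑ u : T, l u * FF φ D f BB S X Y u := by
    have h2 : ∀ u : T, l u * Th φ D f BB m X Y u
        = ∑ S : Subgroup T, (m S : KW p k) * (l u * FF φ D f BB S X Y u) := by
      intro u
      rw [Th, Finset.mul_sum]
      refine Finset.sum_congr rfl fun S _ => ?_
      ring
    rw [Finset.sum_congr rfl fun u _ => h2 u, Finset.sum_comm]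
    refine Finset.sum_congr rfl fun S _ => ?_
    rw [Finset.mul_sum]
  rw [h1]
  refine PI.sum _ fun S _ => ?_
  by_cases hS : R < S
  · exact (PI.intCast _).mul (hsub S hS)
  · rw [hm0 S hS, Int.cast_zero, zero_mul]
    exact PI.zero

/-! ### the difference at the place `1` -/

/-- the difference at the place `1` -/
noncomputable def De [Fintype (Subgroup T)] (φ : T →* A) (D : Subgroup A) (f : MonoidAlgebra k A)
    (BB : ∀ H : Subgroup A, MonoidAlgebra (OW p k) ↥H) (R : Subgroup T) (m : Subgroup T → ℤ)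
    (X Y : A → KW p k) : KW p k :=
  Ph φ D f BB R X Y 1 - ∑ S : Subgroup T, (m S : KW p k) * Ph φ D f BB S X Y 1

theorem FF_one (S : Subgroup T) (X Y : A → KW p k) :
    FF φ D f BB S X Y 1 = Ph φ D f BB S X Y 1 := by
  rw [FF, Subgroup.zpowers_one_eq_bot, sup_bot_eq]

theorem De_eq [Fintype (Subgroup T)] (m : Subgroup T → ℤ) (X Y : A → KW p k) :
    De φ D f BB R m X Y = FF φ D f BB R X Y 1 - Th φ D f BB m X Y 1 := by
  rw [De, Th, FF_one]
  congr 1
  exact Finset.sum_congr rfl fun S _ => by rw [FF_one]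

theorem De_sum_left [Fintype (Subgroup T)] {ι : Type*} (s : Finset ι) (m : Subgroup T → ℤ)
    (c : ι → KW p k) (X : ι → A → KW p k) (Y : A → KW p k) :
    De φ D f BB R m (∑ j ∈ s, c j • X j) Y = ∑ j ∈ s, c j * De φ D f BB R m (X j) Y := by
  simp only [De, Ph_sum_left, mul_sub, Finset.sum_sub_distrib, Finset.mul_sum]
  congr 1
  rw [Finset.sum_comm]
  refine Finset.sum_congr rfl fun j _ => Finset.sum_congr rfl fun S _ => ?_
  ring

theorem De_sum_right [Fintype (Subgroup T)] {ι : Type*} (s : Finset ι) (m : Subgroup T → ℤ)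
    (c : ι → KW p k) (X : A → KW p k) (Y : ι → A → KW p k) :
    De φ D f BB R m X (∑ j ∈ s, c j • Y j) = ∑ j ∈ s, c j * De φ D f BB R m X (Y j) := by
  simp only [De, Ph_sum_right, mul_sub, Finset.sum_sub_distrib, Finset.mul_sum]
  congr 1
  rw [Finset.sum_comm]
  refine Finset.sum_congr rfl fun j _ => Finset.sum_congr rfl fun S _ => ?_
  ring

theorem Ph_reg_congr_left (h : Src p b D f i) (hr : ∀ x, x ∈ D ↔ ∃ t, φ t = x)
    (hB : BBok φ i BB) (S : Subgroup T) {X X' : A → KW p k}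
    (hX : ∀ g x, X (g * x * g⁻¹) = X x) (hX' : ∀ g x, X' (g * x * g⁻¹) = X' x)
    (h0 : ∀ x, Preg p x → X x = X' x) (Y : A → KW p k) :
    Ph φ D f BB S X Y 1 = Ph φ D f BB S X' Y 1 := by
  have h1 : Ph φ D f BB S (X + -X') Y 1 = 0 := by
    refine Ph_reg_left h hr hB S (fun g x => ?_) (fun x hx => ?_) Y
    · rw [Pi.add_apply, Pi.neg_apply, Pi.add_apply, Pi.neg_apply, hX, hX']
    · rw [Pi.add_apply, Pi.neg_apply, h0 x hx, add_neg_cancel]
  rw [Ph_add_left, Ph_neg_left, add_neg_eq_zero] at h1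
  exact h1

theorem Ph_reg_congr_right (h : Src p b D f i) (hr : ∀ x, x ∈ D ↔ ∃ t, φ t = x)
    (hB : BBok φ i BB) (S : Subgroup T) {Y Y' : A → KW p k}
    (hY : ∀ g x, Y (g * x * g⁻¹) = Y x) (hY' : ∀ g x, Y' (g * x * g⁻¹) = Y' x)
    (h0 : ∀ x, Preg p x → Y x = Y' x) (X : A → KW p k) :
    Ph φ D f BB S X Y 1 = Ph φ D f BB S X Y' 1 := by
  have h1 : Ph φ D f BB S X (Y + -Y') 1 = 0 := by
    refine Ph_reg_right h hr hB S (fun g x => ?_) (fun x hx => ?_) X
    · rw [Pi.add_apply, Pi.neg_apply, Pi.add_apply, Pi.neg_apply, hY, hY']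
    · rw [Pi.add_apply, Pi.neg_apply, h0 x hx, add_neg_cancel]
  rw [Ph_add_right, Ph_neg_right, add_neg_eq_zero] at h1
  exact h1

theorem De_reg_left [Fintype (Subgroup T)] (h : Src p b D f i)
    (hr : ∀ x, x ∈ D ↔ ∃ t, φ t = x) (hB : BBok φ i BB) (m : Subgroup T → ℤ)
    {X X' : A → KW p k} (hX : ∀ g x, X (g * x * g⁻¹) = X x)
    (hX' : ∀ g x, X' (g * x * g⁻¹) = X' x) (h0 : ∀ x, Preg p x → X x = X' x)
    (Y : A → KW p k) : De φ D f BB R m X Y = De φ D f BB R m X' Y := by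
  rw [De, De, Ph_reg_congr_left h hr hB R hX hX' h0]
  congr 1
  exact Finset.sum_congr rfl fun S _ => by rw [Ph_reg_congr_left h hr hB S hX hX' h0]

theorem De_reg_right [Fintype (Subgroup T)] (h : Src p b D f i)
    (hr : ∀ x, x ∈ D ↔ ∃ t, φ t = x) (hB : BBok φ i BB) (m : Subgroup T → ℤ)
    {Y Y' : A → KW p k} (hY : ∀ g x, Y (g * x * g⁻¹) = Y x)
    (hY' : ∀ g x, Y' (g * x * g⁻¹) = Y' x) (h0 : ∀ x, Preg p x → Y x = Y' x)
    (X : A → KW p k) : De φ D f BB R m X Y = De φ D f BB R m X Y' := by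
  rw [De, De, Ph_reg_congr_right h hr hB R hY hY' h0]
  congr 1
  exact Finset.sum_congr rfl fun S _ => by rw [Ph_reg_congr_right h hr hB S hY hY' h0]

end

end Pool.Agent.Lib.P0c8ca5.Ex.WV
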