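import Mathlib
import Pool.Agent.Lib.P0c8ca5Ex.WVc
import Pool.Agent.Lib.P0c8ca5Ex.WVe

/-!
# WVf: the step at a central subgroup

`step`: if the contributions at the subgroups `S > R` are `p`-integral virtual characters then so
are the contributions at the central subgroup `R`.
-/

set_option linter.unusedSectionVars false

namespace Pool.Agent.Lib.P0c8ca5.Ex.WV

open MonoidAlgebra

section
variable {p : ℕ} [Fact p.Prime] {k : Type*} [Field k] [IsAlgClosed k] [CharP k p]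
  {A : Type*} [Group A] [Finite A] {T : Type*} [CommGroup T] [Fintype T]
  {φ : T →* A} {b f i : MonoidAlgebra k A} {D : Subgroup A} {R : Subgroup T}
  {BB : ∀ H : Subgroup A, MonoidAlgebra (OW p k) ↥H}

theorem cen_inv {z : T} (hz : ∀ a : A, φ z * a = a * φ z) : ∀ a : A, φ z⁻¹ * a = a * φ z⁻¹ := by
  intro a
  rw [map_inv, inv_mul_eq_iff_eq_mul, ← mul_assoc, hz, mul_inv_cancel_right]

/-- the character of `R` -/
noncomputable def lR (hR : ∀ z ∈ R, ∀ a : A, φ z * a = a * φ z) (l : T →* (KW p k)ˣ)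
    (χ ψ : Ir (KW p k) A) : ↥R →* KW p k where
  toFun z := (l z : KW p k) * (om χ (single (φ z) (1 : KW p k)) *
    om ψ (single (φ (z : T)⁻¹) (1 : KW p k)))
  map_one' := by
    rw [OneMemClass.coe_one, map_one, Units.val_one, inv_one, map_one, ← one_def, om_one, om_one,
      one_mul, one_mul]
  map_mul' z w := by
    rw [Subgroup.coe_mul, map_mul, Units.val_mul, map_mul, om_single_mul χ (hR z z.2), mul_inv,
      map_mul, om_single_mul ψ (cen_inv (hR z z.2))]
    ring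

/-- the sum of the difference over all places -/
theorem sum_De [Fintype (Subgroup T)] (hR : ∀ z ∈ R, ∀ a : A, φ z * a = a * φ z)
    {m : Subgroup T → ℤ} (hm0 : ∀ S, ¬ R < S → m S = 0)
    (hm : ∀ u, u ∉ R → ∀ X Y : A → KW p k,
      Th φ D f BB m X Y u = FF φ D f BB R X Y u) (l : T →* (KW p k)ˣ) (χ ψ : Ir (KW p k) A) :
    ∑ u : T, (l u : KW p k) * FF φ D f BB R (ch χ) (ch ψ) u
      = ∑ u : T, (l u : KW p k) * Th φ D f BB m (ch χ) (ch ψ) u
        + sm (fun z : ↥R => lR hR l χ ψ z) * De φ D f BB R m (ch χ) (ch ψ) := by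
  classical
  have h1 : ∀ u : T, (l u : KW p k) * FF φ D f BB R (ch χ) (ch ψ) u
      = (l u : KW p k) * Th φ D f BB m (ch χ) (ch ψ) u
        + if u ∈ R then (l u : KW p k) * (FF φ D f BB R (ch χ) (ch ψ) u -
          Th φ D f BB m (ch χ) (ch ψ) u) else 0 := by
    intro u
    split_ifs with hu
    · ring
    · rw [hm u hu, add_zero]
  rw [Finset.sum_congr rfl fun u _ => h1 u, Finset.sum_add_distrib]
  congr 1
  have h2 : ∀ z : ↥R, (l z : KW p k) * (FF φ D f BB R (ch χ) (ch ψ) z -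
      Th φ D f BB m (ch χ) (ch ψ) z) = lR hR l χ ψ z * De φ D f BB R m (ch χ) (ch ψ) := by
    intro z
    have h3 := FF_tr (D := D) (f := f) (BB := BB) (hR z z.2) z.2 χ ψ 1
    have h4 := Th_tr (D := D) (f := f) (BB := BB) hR hm0 z.2 χ ψ 1
    rw [mul_one] at h3 h4
    rw [h3, h4, De_eq]
    change _ = (l z : KW p k) * (om χ (single (φ z) (1 : KW p k)) *
      om ψ (single (φ (z : T)⁻¹) (1 : KW p k))) * _
    ring
  have := Fintype.ofFinite ↥R
  rw [sm_eq, Finset.sum_mul, ← Finset.sum_filter]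
  rw [← Finset.sum_congr rfl fun z _ => h2 z]
  exact (Finset.sum_subtype (Finset.univ.filter fun u => u ∈ R) (fun u => by simp)
    fun u => (l u : KW p k) * (FF φ D f BB R (ch χ) (ch ψ) u - Th φ D f BB m (ch χ) (ch ψ) u))

theorem sm_hom (θ : ↥R →* KW p k) : sm (fun z => θ z) = 0 ∨
    sm (fun z => θ z) = (Nat.card ↥R : KW p k) := by
  classical
  have := Fintype.ofFinite ↥R
  rw [sm_eq, sum_hom_units]
  split_ifs
  · right
    rw [Nat.card_eq_fintype_card]
  · left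
    rw [Nat.cast_zero]

theorem De_ker [Fintype (Subgroup T)] (h : Src p b D f i) (hφ : Function.Injective φ)
    (hr : ∀ x, x ∈ D ↔ ∃ t, φ t = x) (hR : ∀ z ∈ R, ∀ a : A, φ z * a = a * φ z)
    (hBB : BBok φ i BB) {B : MonoidAlgebra (OW p k) A} (hB : CenL b B)
    {m : Subgroup T → ℤ} (hm0 : ∀ S, ¬ R < S → m S = 0)
    (hm : ∀ u, u ∉ R → ∀ X Y : A → KW p k, Th φ D f BB m X Y u = FF φ D f BB R X Y u)
    {ξ η : Ir (KW p k) A} (hPI : PI p (∑ u : T, Th φ D f BB m (ch ξ) (ch η) u))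
    (hξ : Ker φ R ξ) (hη : Ker φ R η) :
    PI p ((Nat.card ↥R : KW p k) * De φ D f BB R m (ch ξ) (ch η)) := by
  have h1 := sum_De (BB := BB) hR hm0 hm 1 ξ η
  have h2 : ∀ z : ↥R, lR hR 1 ξ η z = 1 := by
    intro z
    have h3 := YOaAux.om_ker hR hη ⟨(z : T)⁻¹, R.inv_mem z.2⟩
    change ((1 : T →* (KW p k)ˣ) z : KW p k) * (om ξ (single (φ z) (1 : KW p k)) *
      om η (single (φ (z : T)⁻¹) (1 : KW p k))) = 1
    rw [YOaAux.om_ker hR hξ z, h3, MonoidHom.one_apply, Units.val_one, one_mul, one_mul]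
  rw [sm_congr h2, sm_const, mul_one] at h1
  simp only [MonoidHom.one_apply, Units.val_one, one_mul] at h1
  have h3 : PI p (∑ u : T, FF φ D f BB R (ch ξ) (ch η) u) := by
    by_cases h4 : chO ξ B = 0
    · rw [Finset.sum_eq_zero fun u _ => FF_out_left h hφ hr hR hBB hB h4 _ u]
      exact PI.zero
    by_cases h5 : chO η B = 0
    · rw [Finset.sum_eq_zero fun u _ => FF_out_right h hφ hr hR hBB hB h5 _ u]
      exact PI.zero
    rw [Finset.sum_congr rfl fun u _ => FF_cen hφ hR _ _ u,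
      ort h hφ hr (fun u c hc => hBB.c1 u c hc) (YGAux.ch_mem_VA hB h4)
      (YGAux.ch_mem_VA hB h5)]
    obtain ⟨z, hz⟩ := ip_int (ch_mem (K := KW p k) ξ) (ch_mem η)
    rw [hz]
    exact (PI.natCast _).mul (PI.intCast _)
  have h4 : (Nat.card ↥R : KW p k) * De φ D f BB R m (ch ξ) (ch η)
      = ∑ u : T, FF φ D f BB R (ch ξ) (ch η) u - ∑ u : T, Th φ D f BB m (ch ξ) (ch η) u := by
    rw [h1, add_sub_cancel_left]
  rw [h4]
  exact h3.sub hPI

/-- **the step at a central subgroup** -/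
theorem step (h : Src p b D f i) (hφ : Function.Injective φ)
    (hr : ∀ x, x ∈ D ↔ ∃ t, φ t = x) (hR : ∀ z ∈ R, ∀ a : A, φ z * a = a * φ z)
    (hBB : BBok φ i BB)
    (hsub : ∀ S, R < S → ∀ X ∈ V (KW p k) A, ∀ Y ∈ V (KW p k) A, ∀ l : T →* (KW p k)ˣ,
      PI p (∑ u : T, (l u : KW p k) * FF φ D f BB S X Y u))
    {X Y : A → KW p k} (hX : X ∈ V (KW p k) A) (hY : Y ∈ V (KW p k) A) (l : T →* (KW p k)ˣ) :
    PI p (∑ u : T, (l u : KW p k) * FF φ D f BB R X Y u) := by
  classical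
  have : Fintype (Subgroup T) := Fintype.ofFinite _
  obtain ⟨m, hm0, hm1⟩ := mob R
  have hm : ∀ u, u ∉ R → ∀ X Y : A → KW p k,
      Th φ D f BB m X Y u = FF φ D f BB R X Y u := by
    intro u hu X Y
    refine Th_off (R := R) hm0 (fun S' hS' => ?_) X Y
    rw [← hm1 u hu S' hS']
  have hTh : ∀ X ∈ V (KW p k) A, ∀ Y ∈ V (KW p k) A, ∀ l : T →* (KW p k)ˣ,
      PI p (∑ u : T, (l u : KW p k) * Th φ D f BB m X Y u) :=
    fun X hX Y hY l => Th_PI hm0 fun S hS => hsub S hS X hX Y hY l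
  have hb := h.root.blk
  obtain ⟨B, hB⟩ : ∃ B : MonoidAlgebra (OW p k) A, CenL b B :=
    exists_cenL hb.idem fun g => invBy_iff_cj.1 hb.invBy g (Subgroup.mem_top g)
  have hTp := isP_T h hφ hr
  -- the difference
  have hDe : ∀ χ ψ : Ir (KW p k) A,
      PI p ((Nat.card ↥R : KW p k) * De φ D f BB R m (ch χ) (ch ψ)) := by
    intro χ ψ
    obtain ⟨a, ha1, ha2, ha3⟩ := tilde (φ := φ) hTp hR χ
    obtain ⟨a', ha1', ha2', ha3'⟩ := tilde (φ := φ) hTp hR ψ
    have hcl : ∀ (c : Ir (KW p k) A → KW p k), ∀ g x : A,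
        (∑ ξ : Ir (KW p k) A, c ξ • ch ξ) (g * x * g⁻¹) = (∑ ξ : Ir (KW p k) A, c ξ • ch ξ) x := by
      intro c g x
      rw [Finset.sum_apply, Finset.sum_apply]
      refine Finset.sum_congr rfl fun ξ _ => ?_
      rw [Pi.smul_apply, Pi.smul_apply, ch_conj]
    have hev : ∀ (c : Ir (KW p k) A → KW p k), ∀ x : A,
        (∑ ξ : Ir (KW p k) A, c ξ • ch ξ) x = ∑ ξ : Ir (KW p k) A, c ξ * ch ξ x := by
      intro c x
      rw [Finset.sum_apply]
      exact Finset.sum_congr rfl fun ξ _ => rfl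
    rw [De_reg_left h hr hBB m (ch_conj χ) (hcl a) (fun x hx => (ha3 x hx).trans (hev a x).symm),
      De_reg_right h hr hBB m (ch_conj ψ) (hcl a')
        (fun x hx => (ha3' x hx).trans (hev a' x).symm), De_sum_left, Finset.mul_sum]
    refine PI.sum _ fun ξ _ => ?_
    rw [De_sum_right, Finset.mul_sum, Finset.mul_sum]
    refine PI.sum _ fun η _ => ?_
    by_cases hξ : Ker φ R ξ
    · by_cases hη : Ker φ R η
      · have h1 : (Nat.card ↥R : KW p k) * (a ξ * (a' η * De φ D f BB R m (ch ξ) (ch η)))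
            = a ξ * (a' η * ((Nat.card ↥R : KW p k) * De φ D f BB R m (ch ξ) (ch η))) := by ring
        rw [h1]
        refine (ha1 ξ).mul ((ha1' η).mul (De_ker h hφ hr hR hBB hB hm0 hm ?_ hξ hη))
        have h2 := hTh _ (ch_mem ξ) _ (ch_mem η) 1
        simpa only [MonoidHom.one_apply, Units.val_one, one_mul] using h2
      · rw [ha2' η hη, zero_mul, mul_zero, mul_zero]
        exact PI.zero
    · rw [ha2 ξ hξ, zero_mul, mul_zero]
      exact PI.zero
  have hch : ∀ χ ψ : Ir (KW p k) A,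
      PI p (∑ u : T, (l u : KW p k) * FF φ D f BB R (ch χ) (ch ψ) u) := by
    intro χ ψ
    rw [sum_De (BB := BB) hR hm0 hm l χ ψ]
    refine (hTh _ (ch_mem χ) _ (ch_mem ψ) l).add ?_
    rcases sm_hom (lR hR l χ ψ) with h1 | h1
    · rw [h1, zero_mul]
      exact PI.zero
    · rw [h1]
      exact hDe χ ψ
  -- bilinearity
  have hFa : ∀ (X X' Y : A → KW p k) (u : T), FF φ D f BB R (X + X') Y u
      = FF φ D f BB R X Y u + FF φ D f BB R X' Y u := fun X X' Y u => Ph_add_left _ _ _ _ _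
  have hFa' : ∀ (X Y Y' : A → KW p k) (u : T), FF φ D f BB R X (Y + Y') u
      = FF φ D f BB R X Y u + FF φ D f BB R X Y' u := fun X Y Y' u => Ph_add_right _ _ _ _ _
  have hFn : ∀ (X Y : A → KW p k) (u : T), FF φ D f BB R (-X) Y u
      = - FF φ D f BB R X Y u := fun X Y u => Ph_neg_left _ _ _ _
  have hFn' : ∀ (X Y : A → KW p k) (u : T), FF φ D f BB R X (-Y) u
      = - FF φ D f BB R X Y u := fun X Y u => Ph_neg_right _ _ _ _
  have hF0 : ∀ (Y : A → KW p k) (u : T), FF φ D f BB R 0 Y u = 0 :=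
    fun Y u => Ph_zero_left _ _ _
  have hF0' : ∀ (X : A → KW p k) (u : T), FF φ D f BB R X 0 u = 0 :=
    fun X u => Ph_zero_right _ _ _
  refine V_induction (P := fun X => PI p (∑ u : T, (l u : KW p k) * FF φ D f BB R X Y u))
    (fun χ => ?_) ?_ (fun x y hx hy => ?_) (fun x hx => ?_) hX
  · refine V_induction (P := fun Y => PI p (∑ u : T, (l u : KW p k) *
      FF φ D f BB R (ch χ) Y u)) (fun ψ => hch χ ψ) ?_ (fun x y hx hy => ?_) (fun x hx => ?_) hY
    · rw [Finset.sum_eq_zero fun u _ => by rw [hF0', mul_zero]]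
      exact PI.zero
    · simp only [hFa', mul_add, Finset.sum_add_distrib]
      exact hx.add hy
    · simp only [hFn', mul_neg, Finset.sum_neg_distrib]
      exact hx.neg
  · rw [Finset.sum_eq_zero fun u _ => by rw [hF0, mul_zero]]
    exact PI.zero
  · simp only [hFa, mul_add, Finset.sum_add_distrib]
    exact hx.add hy
  · simp only [hFn, mul_neg, Finset.sum_neg_distrib]
    exact hx.neg

end

end Pool.Agent.Lib.P0c8ca5.Ex.WV
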