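import Mathlib
import Pool.Agent.Lib.P0c8ca5Ex.WVf

/-!
# WVg: the induction

`virt_of`: the contributions at the places of `D` are `p`-integral virtual characters; the transport to
the centralizers is an explicit hypothesis here.
-/

set_option linter.unusedSectionVars false

namespace Pool.Agent.Lib.P0c8ca5.Ex.WV

open MonoidAlgebra

universe u v w

/-- the contributions are `p`-integral virtual characters -/
def VirtAt (p : ℕ) [Fact p.Prime] (k : Type v) [Field k] [IsAlgClosed k] [CharP k p] (T : Type w)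
    [CommGroup T] [Fintype T] (A : Type u) [Group A] [Finite A] : Prop :=
  ∀ (φ : T →* A) (b f i : MonoidAlgebra k A) (D : Subgroup A), Src p b D f i →
    Function.Injective φ → (∀ x, x ∈ D ↔ ∃ t, φ t = x) →
    ∀ BB : ∀ H : Subgroup A, MonoidAlgebra (OW p k) ↥H, BBok φ i BB →
    ∀ X ∈ V (KW p k) A, ∀ Y ∈ V (KW p k) A, ∀ l : T →* (KW p k)ˣ,
      PI p (∑ u : T, (l u : KW p k) * FF φ D f BB ⊥ X Y u)

section
variable {p : ℕ} [Fact p.Prime] {k : Type v} [Field k] [IsAlgClosed k] [CharP k p]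
  {A : Type u} [Group A] [Finite A] {T : Type w} [CommGroup T] [Fintype T]
  {φ : T →* A} {b f i : MonoidAlgebra k A} {D : Subgroup A} {R : Subgroup T}
  {BB : ∀ H : Subgroup A, MonoidAlgebra (OW p k) ↥H}

/-- the transport to the centralizer of `φ S` -/
def TrAt (φ : T →* A) (D : Subgroup A) (f : MonoidAlgebra k A)
    (BB : ∀ H : Subgroup A, MonoidAlgebra (OW p k) ↥H) (S : Subgroup T) : Prop :=
  ∃ (φ' : T →* ↥(cq φ S)) (b' f' i' : MonoidAlgebra k ↥(cq φ S)) (D' : Subgroup ↥(cq φ S))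
    (BB' : ∀ H : Subgroup ↥(cq φ S), MonoidAlgebra (OW p k) ↥H), Src p b' D' f' i' ∧
    Function.Injective φ' ∧ (∀ x, x ∈ D' ↔ ∃ t, φ' t = x) ∧ BBok φ' i' BB' ∧
    ∀ (X Y : A → KW p k), (∀ g x, X (g * x * g⁻¹) = X x) → (∀ g x, Y (g * x * g⁻¹) = Y x) →
      ∀ u : T, FF φ' D' f' BB' ⊥ (on (cq φ S) X) (on (cq φ S) Y) u = FF φ D f BB S X Y u

theorem virt_step (h : Src p b D f i) (hφ : Function.Injective φ)
    (hr : ∀ x, x ∈ D ↔ ∃ t, φ t = x) (hBB : BBok φ i BB)
    (htr : ∀ S : Subgroup T, TrAt φ D f BB S)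
    (IH : ∀ (A' : Type u) [Group A'] [Finite A'], Nat.card A' < Nat.card A → VirtAt p k T A')
    {X Y : A → KW p k} (hX : X ∈ V (KW p k) A) (hY : Y ∈ V (KW p k) A) (l : T →* (KW p k)ˣ) :
    PI p (∑ u : T, (l u : KW p k) * FF φ D f BB ⊥ X Y u) := by
  set R : Subgroup T := (Subgroup.center A).comap φ with hRd
  have hR : ∀ z ∈ R, ∀ a : A, φ z * a = a * φ z := by
    intro z hz a
    have h1 : φ z ∈ Subgroup.center A := Subgroup.mem_comap.1 hz
    exact (Subgroup.mem_center_iff.1 h1 a).symm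
  have h2 : ∀ u : T, FF φ D f BB ⊥ X Y u = FF φ D f BB R X Y u := by
    intro u
    rw [FF_bot hφ, FF_cen hφ hR]
  rw [Finset.sum_congr rfl fun u _ => by rw [h2 u]]
  refine step h hφ hr hR hBB (fun S hS X hX Y hY l => ?_) hX hY l
  obtain ⟨φ', b', f', i', D', BB', h3, h4, h5, h6, h7⟩ := htr S
  have hlt : Nat.card ↥(cq φ S) < Nat.card A := by
    have h8 : cq φ S ≠ ⊤ := by
      intro h9
      refine hS.not_ge fun t ht => ?_
      rw [hRd, Subgroup.mem_comap, Subgroup.mem_center_iff]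
      intro g
      have h10 : g ∈ cq φ S := h9 ▸ Subgroup.mem_top g
      exact (Subgroup.mem_centralizer_iff.1 h10 (φ t) ⟨t, ht, rfl⟩).symm
    exact lt_of_le_of_ne (Subgroup.card_le_card_group _)
      fun h9 => h8 (Subgroup.eq_top_of_card_eq _ h9)
  have h8 := IH ↥(cq φ S) hlt φ' b' f' i' D' h3 h4 h5 BB' h6 _
    (V_comp (cq φ S).subtype hX) _ (V_comp (cq φ S).subtype hY) l
  have h9 : ∀ u : T, FF φ' D' f' BB' ⊥ (fun x => X ((cq φ S).subtype x))
      (fun x => Y ((cq φ S).subtype x)) u = FF φ D f BB S X Y u := fun u =>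
    h7 X Y (V_conj hX) (V_conj hY) u
  rwa [Finset.sum_congr rfl fun u _ => by rw [h9 u]] at h8

end

theorem virt_of {p : ℕ} [Fact p.Prime] {k : Type v} [Field k] [IsAlgClosed k] [CharP k p]
    {T : Type w} [CommGroup T] [Fintype T]
    (htr : ∀ (A : Type u) [Group A] [Finite A] (φ : T →* A) (b f i : MonoidAlgebra k A)
      (D : Subgroup A), Src p b D f i → Function.Injective φ → (∀ x, x ∈ D ↔ ∃ t, φ t = x) →
      ∀ BB : ∀ H : Subgroup A, MonoidAlgebra (OW p k) ↥H, BBok φ i BB →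
      ∀ S : Subgroup T, TrAt φ D f BB S)
    (A : Type u) [Group A] [Finite A] : VirtAt p k T A := by
  have key : ∀ n : ℕ, ∀ (A : Type u) [Group A] [Finite A], Nat.card A = n → VirtAt p k T A := by
    intro n
    induction n using Nat.strong_induction_on with
    | _ n ih =>
      intro A _ _ hA φ b f i D h hφ hr BB hBB X hX Y hY l
      refine virt_step h hφ hr hBB (htr A φ b f i D h hφ hr BB hBB) (fun A' _ _ hA' => ?_) hX hY l
      exact ih (Nat.card A') (hA ▸ hA') A' rfl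
  exact key _ A rfl

end Pool.Agent.Lib.P0c8ca5.Ex.WV
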