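import Mathlib
import Pool.Agent.Lib.P0c8ca5Ex.WVg
import Pool.Agent.Lib.P0c8ca5Ex.WVd

/-!
# WVh: the contributions at the places of `D` are `p`-integral virtual characters

`virt`: for generalized characters `X`, `Y` of `A` and every linear character `l` of `T`, the sum of
`l u` times the contribution at the place `φ u` is `p`-integral (a multiple of it by a number prime to
`p` is an algebraic integer).
-/

set_option linter.unusedSectionVars false

namespace Pool.Agent.Lib.P0c8ca5.Ex.WV

open MonoidAlgebra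

universe u v w

section
variable {p : ℕ} [Fact p.Prime] {k : Type v} [Field k] [IsAlgClosed k] [CharP k p]
  {A : Type u} [Group A] [Finite A] {T : Type w} [CommGroup T] [Fintype T]
  {φ : T →* A} {b f i : MonoidAlgebra k A} {D : Subgroup A}
  {BB : ∀ H : Subgroup A, MonoidAlgebra (OW p k) ↥H}

theorem tr_at (h : Src p b D f i) (hφ : Function.Injective φ)
    (hr : ∀ x, x ∈ D ↔ ∃ t, φ t = x) (hBB : BBok φ i BB) (S : Subgroup T) :
    TrAt φ D f BB S := by
  obtain ⟨c, φ', BB', -, -, h1, h2, h3, h4, -, h5⟩ := WVd.down h hφ hr hBB S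
  exact ⟨φ', _, _, _, _, BB', h3, h1, h2, h4, fun X Y _ _ u => h5 X Y u⟩

/-- **the contributions are `p`-integral virtual characters** -/
theorem virt (h : Src p b D f i) (hφ : Function.Injective φ)
    (hr : ∀ x, x ∈ D ↔ ∃ t, φ t = x) (hBB : BBok φ i BB) {X Y : A → KW p k}
    (hX : X ∈ V (KW p k) A) (hY : Y ∈ V (KW p k) A) (l : T →* (KW p k)ˣ) :
    PI p (∑ u : T, (l u : KW p k) * FF φ D f BB ⊥ X Y u) :=
  virt_of (fun A _ _ _ _ _ _ _ h hφ hr _ hBB S => tr_at h hφ hr hBB S) A φ b f i D h hφ hr BB hBB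
    X hX Y hY l

end

end Pool.Agent.Lib.P0c8ca5.Ex.WV
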