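import Mathlib
import Pool.Agent.Lib.P0c8ca5Ex.R1

/-!
# WXa: Fourier analysis over the invariant characters

`E` is a group of automorphisms of the finite abelian group `T`, `cmT E` the group generated by the
`u⁻¹ α(u)`.

* `inv_iff`: a character is `E`-invariant if and only if it is trivial on `cmT E`.
* `fourier`: if `∑ l(u) τ(u) = 0` for all `E`-invariant `l` with `l z ≠ 1`, then the sums of `τ` over `cmT E` and
  `z (cmT E)` agree.
* `cmT_fix`: an element of `cmT E` fixed by `E` is trivial, if `T` is a `p`-group and `p ∤ |E|`.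
-/

set_option linter.unusedSectionVars false

namespace Pool.Agent.Lib.P0c8ca5.Ex.WX

section
variable {T : Type*} [CommGroup T] {K : Type*} [Field K]

/-- the group generated by the `u⁻¹ α(u)` -/
def cmT (E : Subgroup (MulAut T)) : Subgroup T :=
  Subgroup.closure {w | ∃ α ∈ E, ∃ u, w = u⁻¹ * α u}

variable {E : Subgroup (MulAut T)}

theorem mem_cmT {α : MulAut T} (hα : α ∈ E) (u : T) : u⁻¹ * α u ∈ cmT E :=
  Subgroup.subset_closure ⟨α, hα, u, rfl⟩

theorem inv_iff {M : Type*} [CommGroup M] (l : T →* M) :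
    (∀ α ∈ E, ∀ u, l (α u) = l u) ↔ ∀ w ∈ cmT E, l w = 1 := by
  constructor
  · intro h w hw
    have h1 : cmT E ≤ l.ker := by
      rw [cmT, Subgroup.closure_le]
      rintro _ ⟨α, hα, u, rfl⟩
      change l (u⁻¹ * α u) = 1
      rw [map_mul, map_inv, h α hα, inv_mul_cancel]
    exact h1 hw
  · intro h α hα u
    have h1 := h _ (mem_cmT hα u)
    rw [map_mul, map_inv, inv_mul_eq_one] at h1
    exact h1.symm

theorem cmT_map {α : MulAut T} (hα : α ∈ E) {w : T} (hw : w ∈ cmT E) : α w ∈ cmT E := by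
  have h1 := (cmT E).mul_mem hw (mem_cmT hα w)
  rwa [mul_inv_cancel_left] at h1

/-- the fixed elements of `cmT E` -/
theorem cmT_fix {p : ℕ} [Fact p.Prime] [Finite T] (hT : IsPGroup p T) (hE : ¬ p ∣ Nat.card E) {x : T}
    (hx : x ∈ cmT E) (hfix : ∀ α ∈ E, α x = x) : x = 1 := by
  classical
  have : Finite (MulAut T) := Finite.of_injective (fun a : MulAut T => (a : T → T))
    fun a b h => MulEquiv.ext fun t => congrFun h t
  have := Fintype.ofFinite ↥E
  let N : T →* T := ∏ α : ↥E, (α : MulAut T).toMonoidHom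
  have hN : ∀ u, N u = ∏ α : ↥E, (α : MulAut T) u := fun u => by
    rw [MonoidHom.finsetProd_apply]
    rfl
  have h1 : ∀ w ∈ cmT E, N w = 1 := by
    rw [← inv_iff]
    intro β hβ u
    rw [hN, hN, ← Equiv.prod_comp (Equiv.mulRight (⟨β, hβ⟩ : ↥E)) fun α : ↥E => (α : MulAut T) u]
    exact Finset.prod_congr rfl fun α _ => rfl
  have h2 : x ^ Nat.card E = 1 := by
    have h3 := h1 x hx
    rw [hN, Finset.prod_congr rfl fun α _ => hfix α.1 α.2, Finset.prod_const, Finset.card_univ,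
      ← Nat.card_eq_fintype_card] at h3
    exact h3
  obtain ⟨m, hm⟩ := hT x
  have h9 : orderOf x ∣ p ^ m := orderOf_dvd_of_pow_eq_one hm
  have h10 : orderOf x ∣ Nat.card E := orderOf_dvd_of_pow_eq_one h2
  have h11 : Nat.Coprime (p ^ m) (Nat.card E) :=
    Nat.Coprime.pow_left m (((Fact.out : p.Prime).coprime_iff_not_dvd).2 hE)
  exact orderOf_eq_one_iff.1 (Nat.eq_one_of_dvd_coprimes h11 h9 h10)

end

section
variable {T : Type*} [CommGroup T] [Fintype T] {K : Type*} [Field K] [IsAlgClosed K] [CharZero K]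
  {E : Subgroup (MulAut T)}

theorem exists_inv {v : T} (hv : v ∉ cmT E) :
    ∃ l : T →* Kˣ, (∀ α ∈ E, ∀ u, l (α u) = l u) ∧ l v ≠ 1 := by
  classical
  have h1 : (QuotientGroup.mk v : T ⧸ cmT E) ≠ 1 := by
    rw [Ne, QuotientGroup.eq_one_iff]
    exact hv
  have : NeZero ((Monoid.exponent (T ⧸ cmT E) : ℕ) : K) :=
    ⟨Nat.cast_ne_zero.2 Monoid.exponent_ne_zero_of_finite⟩
  obtain ⟨m, hm⟩ := CommGroup.exists_apply_ne_one_of_hasEnoughRootsOfUnity (T ⧸ cmT E) K h1
  refine ⟨m.comp (QuotientGroup.mk' (cmT E)), (inv_iff _).2 fun w hw => ?_, hm⟩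
  change m (QuotientGroup.mk w) = 1
  rw [(QuotientGroup.eq_one_iff w).2 hw, map_one]

theorem finite_hom : Finite (T →* Kˣ) := by
  have : NeZero ((Monoid.exponent T : ℕ) : K) :=
    ⟨Nat.cast_ne_zero.2 Monoid.exponent_ne_zero_of_finite⟩
  exact finite_chr

open Classical in
/-- **the Fourier argument** -/
theorem fourier {z : T} {τ : T → K} (h : ∀ l : T →* Kˣ, (∀ α ∈ E, ∀ u, l (α u) = l u) →
    l z ≠ 1 → ∑ u, (l u : K) * τ u = 0) :
    ∑ u with u ∈ cmT E, τ (z * u) = ∑ u with u ∈ cmT E, τ u := by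
  have := finite_hom (T := T) (K := K)
  have := Fintype.ofFinite (T →* Kˣ)
  set S : Finset (T →* Kˣ) := Finset.univ.filter fun l => ∀ α ∈ E, ∀ u, l (α u) = l u with hS
  have hmem : ∀ l, l ∈ S ↔ ∀ α ∈ E, ∀ u, l (α u) = l u := fun l => by
    rw [hS, Finset.mem_filter]
    exact ⟨fun h => h.2, fun h => ⟨Finset.mem_univ _, h⟩⟩
  have hne : (S.card : K) ≠ 0 := by
    rw [Nat.cast_ne_zero, Finset.card_ne_zero]
    exact ⟨1, (hmem 1).2 fun α _ u => rfl⟩
  have hsum : ∀ v : T, ∑ l ∈ S, ((l v : Kˣ) : K) = if v ∈ cmT E then (S.card : K) else 0 := by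
    intro v
    split_ifs with hv
    · rw [Finset.sum_congr rfl fun l hl => by
        rw [(inv_iff l).1 ((hmem l).1 hl) v hv, Units.val_one], Finset.sum_const, nsmul_eq_mul,
        mul_one]
    · obtain ⟨m, hm, hmv⟩ := exists_inv (K := K) hv
      have h1 : ∑ l ∈ S, ((l v : Kˣ) : K) = (m v : K) * ∑ l ∈ S, ((l v : Kˣ) : K) := by
        rw [Finset.mul_sum]
        refine Finset.sum_bij' (fun l _ => m⁻¹ * l) (fun l _ => m * l) ?_ ?_ ?_ ?_ ?_
        · intro l hl
          refine (hmem _).2 fun α hα u => ?_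
          rw [MonoidHom.mul_apply, MonoidHom.mul_apply, MonoidHom.inv_apply, MonoidHom.inv_apply,
            hm α hα, (hmem l).1 hl α hα]
        · intro l hl
          refine (hmem _).2 fun α hα u => ?_
          rw [MonoidHom.mul_apply, MonoidHom.mul_apply, hm α hα, (hmem l).1 hl α hα]
        · intro l _
          exact mul_inv_cancel_left m l
        · intro l _
          exact inv_mul_cancel_left m l
        · intro l _
          rw [← Units.val_mul]
          congr 1
          rw [MonoidHom.mul_apply, MonoidHom.inv_apply, mul_inv_cancel_left]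
      have h2 : (1 - (m v : K)) * ∑ l ∈ S, ((l v : Kˣ) : K) = 0 := by
        rw [sub_mul, one_mul, ← h1, sub_self]
      rcases mul_eq_zero.1 h2 with h3 | h3
      · exact absurd (Units.ext (sub_eq_zero.1 h3).symm) hmv
      · exact h3
  have key : ∀ y : T, ∑ l ∈ S, (((l y)⁻¹ : Kˣ) : K) * ∑ u, (l u : K) * τ u
      = (S.card : K) * ∑ u with u ∈ cmT E, τ (y * u) := by
    intro y
    have h1 : ∀ l ∈ S, (((l y)⁻¹ : Kˣ) : K) * ∑ u, (l u : K) * τ u
        = ∑ u, τ (y * u) * (l u : K) := by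
      intro l _
      rw [Finset.mul_sum, ← Equiv.sum_comp (Equiv.mulLeft y)]
      refine Finset.sum_congr rfl fun u _ => ?_
      change (((l y)⁻¹ : Kˣ) : K) * ((l (y * u) : K) * τ (y * u)) = _
      rw [map_mul, ← mul_assoc, ← Units.val_mul, inv_mul_cancel_left, mul_comm]
    rw [Finset.sum_congr rfl h1, Finset.sum_comm, Finset.sum_filter, Finset.mul_sum]
    refine Finset.sum_congr rfl fun u _ => ?_
    rw [← Finset.mul_sum, hsum]
    split_ifs
    · rw [mul_comm]
    · rw [mul_zero, mul_zero]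
  have h1 := key z
  have h2 := key 1
  have h3 : ∑ l ∈ S, (((l z)⁻¹ : Kˣ) : K) * ∑ u, (l u : K) * τ u
      = ∑ l ∈ S, (((l 1)⁻¹ : Kˣ) : K) * ∑ u, (l u : K) * τ u := by
    refine Finset.sum_congr rfl fun l hl => ?_
    by_cases hlz : l z = 1
    · rw [hlz, map_one]
    · rw [h l ((hmem l).1 hl) hlz, mul_zero, mul_zero]
  rw [h1, h2] at h3
  have h4 := mul_left_cancel₀ hne h3
  simp only [one_mul] at h4
  exact h4

end

end Pool.Agent.Lib.P0c8ca5.Ex.WX
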