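import Mathlib
import Pool.Agent.Lib.P0c8ca5Ex.YUb
import Pool.Agent.Lib.P0c8ca5Ex.YE
import Pool.Agent.Lib.P0c8ca5Ex.YM
import Pool.Agent.Lib.P0c8ca5Ex.YTa
import Pool.Agent.Lib.P0c8ca5X.T2x

/-!
# WXb: transport of the numbers of simple modules to `C(φ Q)`

* `card_irX_sub`: `IrX` of `cq φ' Q'` in the group `↥H` and of `cq φ Q'` in `A`.
* `cq_zp`: `cq φ ⟨u⟩ = C1 (φ u)`.
* `WatAt p k T A`: the statement of the theorem for the group `A`.
* `ell_down`: the statement for the group `C(φ v)`, read in `A`.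
-/

set_option linter.unusedSectionVars false

namespace Pool.Agent.Lib.P0c8ca5.Ex.WX

open MonoidAlgebra Bq LocAux YuAux YTaAux

universe u v w

section
variable {k : Type v} [Field k] {A : Type u} [Group A] [Finite A] {T : Type w} [CommGroup T]
  {φ : T →* A} {H : Subgroup A} {φ' : T →* ↥H}

/-- the numbers of simple modules correspond -/
theorem card_irX_sub (hφ' : ∀ t, (φ' t : A) = φ t) {Q' : Subgroup T} (hle : cq φ Q' ≤ H)
    (c : MonoidAlgebra k A) :
    Nat.card (IrX (cq φ' Q') (dnr H c)) = Nat.card (IrX (cq φ Q') c) := by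
  symm
  exact Nat.card_congr (Equiv.ofBijective _
    (Xx.T2xAux.cls_bij (π := H.subtype) (eC hφ' hle) (fun s => rfl) (f := dnr H c) (f' := c)
      fun s _ => coeff_dnr H c s))

theorem cq_zp (φ : T →* A) (u : T) : cq φ (Subgroup.zpowers u) = C1 (φ u) := by
  rw [cq, MonoidHom.map_zpowers, CD_zpowers]

end

/-- the statement for the group `A` -/
def WatAt (p : ℕ) [Fact p.Prime] (k : Type v) [Field k] (T : Type w) [CommGroup T] (A : Type u)
    [Group A] : Prop :=
  ∀ (φ : T →* A) (b f i : MonoidAlgebra k A) (D : Subgroup A), Src p b D f i →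
    Function.Injective φ → (∀ x, x ∈ D ↔ ∃ t, φ t = x) → ∀ z : T, (∀ α ∈ EG φ D f, α z = z) →
    ∀ c, LbH (C1 (φ z)) i c → Nat.card (IrX (C1 (φ z)) c) = Nat.card (IrX (⊤ : Subgroup A) b)

section
variable {p : ℕ} [Fact p.Prime] {k : Type v} [Field k] [IsAlgClosed k] [CharP k p]
  {A : Type u} [Group A] [Finite A] {T : Type w} [CommGroup T] [Fintype T]
  {φ : T →* A} {b f i : MonoidAlgebra k A} {D : Subgroup A}

theorem ell_down (h : Src p b D f i) (hφ : Function.Injective φ)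
    (hr : ∀ x, x ∈ D ↔ ∃ t, φ t = x) {z v : T} (hz : ∀ α ∈ EG φ D f, α z = z)
    (hv : C1 (φ v) ≠ ⊤)
    (IH : ∀ (A' : Type u) [Group A'] [Finite A'], Nat.card A' < Nat.card A → WatAt p k T A')
    {c c' : MonoidAlgebra k A} (hc : LbH (cq φ (Subgroup.zpowers v)) i c)
    (hc' : LbH (cq φ (Subgroup.zpowers v ⊔ Subgroup.zpowers z)) i c') :
    Nat.card (IrX (cq φ (Subgroup.zpowers v ⊔ Subgroup.zpowers z)) c')
      = Nat.card (IrX (cq φ (Subgroup.zpowers v)) c) := by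
  classical
  set Q := Subgroup.zpowers v with hQ
  have hmem : ∀ t, φ t ∈ cq φ Q := fun t => D_le_cq h hr Q ((hr _).2 ⟨t, rfl⟩)
  let φ' : T →* ↥(cq φ Q) := φ.codRestrict (cq φ Q) hmem
  have hφ' : ∀ t, (φ' t : A) = φ t := fun t => rfl
  have hsrc := src_sub h hr hc
  have hinj : Function.Injective φ' := fun s t hst => hφ (congrArg Subtype.val hst)
  have hran := ran_sub hφ' hr
  have hcard : Nat.card ↥(cq φ Q) < Nat.card A := by
    refine lt_of_le_of_ne (Subgroup.card_le_card_group _) fun h1 => hv ?_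
    rw [← cq_zp]
    exact Subgroup.eq_top_of_card_eq _ h1
  have hR : ∀ y ∈ Q, ∀ a : ↥(cq φ Q), φ' y * a = a * φ' y := by
    intro y hy a
    apply Subtype.ext
    exact Subgroup.mem_centralizer_iff.1 a.2 (φ y) ⟨y, hy, rfl⟩
  have hC : cq φ' (Q ⊔ Subgroup.zpowers z) = C1 (φ' z) := cq_eq hR z
  have hle : cq φ (Q ⊔ Subgroup.zpowers z) ≤ cq φ Q := cq_anti φ le_sup_left
  have hc'' := lbH_sub hφ' hle hc'
  rw [hC] at hc''
  have h1 := IH ↥(cq φ Q) hcard φ' _ _ _ _ hsrc hinj hran z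
    (fun α hα => hz α (mem_EG_sub hφ' (D_le_cq h hr Q) (supp_f h hr Q) hα)) _ hc''
  rw [← hC, card_irX_sub hφ' hle] at h1
  rw [h1, dnr_eq_dn]
  exact dn_card_irr _ _

end

end Pool.Agent.Lib.P0c8ca5.Ex.WX
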