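import Mathlib
import Pool.Agent.Lib.P0c8ca5Ex.WXa
import Pool.Agent.Lib.P0c8ca5Ex.WXb
import Pool.Agent.Lib.P0c8ca5Ku.KL

/-!
# WXc: the induction on the order of the group

`VanAt p k T A`: for `E`-invariant `l` with `l z ≠ 1`, `z` fixed by `E`, the sum of `l(u) e_u l(c_u)` over `T` is
zero. `wat_of`: if this holds for all groups, then `l(b) = l(b_z)`.
-/

set_option linter.unusedSectionVars false

namespace Pool.Agent.Lib.P0c8ca5.Ex.WX

open MonoidAlgebra Bq LocAux YuAux YTaAux YmAux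

universe u v w

/-- the vanishing of the sums -/
def VanAt (p : ℕ) [Fact p.Prime] (k : Type v) [Field k] [IsAlgClosed k] [CharP k p] (T : Type w)
    [CommGroup T] [Fintype T] (A : Type u) [Group A] : Prop :=
  ∀ (φ : T →* A) (b f i : MonoidAlgebra k A) (D : Subgroup A), Src p b D f i →
    Function.Injective φ → (∀ x, x ∈ D ↔ ∃ t, φ t = x) → ∀ z : T, (∀ α ∈ EG φ D f, α z = z) →
    ∀ l : T →* (KW p k)ˣ, (∀ α ∈ EG φ D f, ∀ u, l (α u) = l u) → l z ≠ 1 →
    ∀ c : T → MonoidAlgebra k A, (∀ u, LbH (C1 (φ u)) i (c u)) →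
    ∑ u, (l u : KW p k) * ((eQ φ D f (Subgroup.zpowers u) : KW p k) *
      (Nat.card (IrX (C1 (φ u)) (c u)) : KW p k)) = 0

section
variable {p : ℕ} [Fact p.Prime] {k : Type v} [Field k] [IsAlgClosed k] [CharP k p]
  {A : Type u} [Group A] [Finite A] {T : Type w} [CommGroup T] [Fintype T]
  {φ : T →* A} {b f i : MonoidAlgebra k A} {D : Subgroup A}

theorem eQ_mul {z : T} (hz : ∀ α ∈ EG φ D f, α z = z) (v : T) :
    eQ φ D f (Subgroup.zpowers (z * v)) = eQ φ D f (Subgroup.zpowers v) := by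
  rw [eQ, eQ]
  refine Nat.card_congr (Equiv.subtypeEquivRight fun α => ?_)
  rw [fix_zp, fix_zp, map_mul, hz α.1 α.2, mul_right_inj]

theorem eQ_fixed {z : T} (hz : ∀ α ∈ EG φ D f, α z = z) :
    eQ φ D f (Subgroup.zpowers z) = Nat.card (EG φ D f) := by
  rw [eQ]
  exact Nat.card_congr (Equiv.subtypeUnivEquiv fun α => fix_zp.2 (hz α.1 α.2))

/-- an element with central image is fixed -/
theorem fix_of_top (hφ : Function.Injective φ) {v : T} (hv : C1 (φ v) = ⊤) :
    ∀ α ∈ EG φ D f, α v = v := fun α hα => fix_cen hφ hα fun a =>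
  mem_C1'.1 (hv ▸ Subgroup.mem_top a)

theorem wat_step [Finite (EG φ D f)] (h : Src p b D f i) (hφ : Function.Injective φ)
    (hr : ∀ x, x ∈ D ↔ ∃ t, φ t = x) {z : T} (hz : ∀ α ∈ EG φ D f, α z = z)
    (hV : VanAt p k T A)
    (IH : ∀ (A' : Type u) [Group A'] [Finite A'], Nat.card A' < Nat.card A → WatAt p k T A')
    {c : MonoidAlgebra k A} (hc : LbH (C1 (φ z)) i c) :
    Nat.card (IrX (C1 (φ z)) c) = Nat.card (IrX (⊤ : Subgroup A) b) := by
  classical
  have := Fintype.ofFinite A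
  have hmem : ∀ u, φ u ∈ D := fun u => (hr _).2 ⟨u, rfl⟩
  obtain ⟨M, hM⟩ := pow_one_of h
  have hT : IsPGroup p T := fun u => ⟨M, hφ (by rw [map_pow, map_one]; exact hM _ (hmem u))⟩
  have hpE : ¬ p ∣ Nat.card (EG φ D f) := by
    rw [card_EG hφ hr]
    exact Ku.ndvd h.root
  choose cu hcu using fun u : T => exists_lbH h (hmem u)
  set τ : T → KW p k := fun u => (eQ φ D f (Subgroup.zpowers u) : KW p k) *
    (Nat.card (IrX (C1 (φ u)) (cu u)) : KW p k) with hτ
  have hfour := fourier (E := EG φ D f) (z := z) (τ := τ) fun l hl hlz =>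
    hV φ b f i D h hφ hr z hz l hl hlz cu hcu
  -- the elements of `[T, E]` other than `1`
  have hell : ∀ v : T, C1 (φ v) ≠ ⊤ → ∀ c', LbH (cq φ (Subgroup.zpowers v ⊔ Subgroup.zpowers z)) i c' →
      Nat.card (IrX (cq φ (Subgroup.zpowers v ⊔ Subgroup.zpowers z)) c')
        = Nat.card (IrX (C1 (φ v)) (cu v)) := by
    intro v hv c' hc'
    have h1 := hcu v
    rw [← cq_zp] at h1 ⊢
    exact ell_down h hφ hr hz hv IH h1 hc'
  have hv : ∀ v ∈ cmT (EG φ D f), v ≠ 1 → τ (z * v) = τ v := by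
    intro v hv hv1
    have h1 : C1 (φ v) ≠ ⊤ := fun h2 => hv1 (cmT_fix hT hpE hv (fix_of_top hφ h2))
    have h2 : C1 (φ (z * v)) ≠ ⊤ := by
      intro h3
      have h4 := fix_of_top (D := D) (f := f) hφ h3
      refine hv1 (cmT_fix hT hpE hv fun α hα => ?_)
      have h5 := h4 α hα
      rwa [map_mul, hz α hα, mul_right_inj] at h5
    have h3 : Subgroup.zpowers (z * v) ⊔ Subgroup.zpowers z
        = Subgroup.zpowers v ⊔ Subgroup.zpowers z := by
      apply le_antisymm
      · refine sup_le ?_ le_sup_right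
        rw [Subgroup.zpowers_le]
        exact Subgroup.mul_mem _ (Subgroup.mem_sup_right (Subgroup.mem_zpowers z))
          (Subgroup.mem_sup_left (Subgroup.mem_zpowers v))
      · refine sup_le ?_ le_sup_right
        rw [Subgroup.zpowers_le]
        have h4 := Subgroup.mul_mem (Subgroup.zpowers (z * v) ⊔ Subgroup.zpowers z)
          (Subgroup.inv_mem _ (Subgroup.mem_sup_right (Subgroup.mem_zpowers z)))
          (Subgroup.mem_sup_left (Subgroup.mem_zpowers (z * v)))
        rwa [inv_mul_cancel_left] at h4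
    obtain ⟨c', hc'⟩ := exists_lb h (map_le_D hr (Subgroup.zpowers v ⊔ Subgroup.zpowers z))
    have hc' : LbH (cq φ (Subgroup.zpowers v ⊔ Subgroup.zpowers z)) i c' := hc'.toH rfl
    have h4 := hell v h1 c' hc'
    have h5 := hell (z * v) h2 c' (by rw [h3]; exact hc')
    rw [h3, h4] at h5
    rw [hτ]
    dsimp only
    rw [eQ_mul hz, h5]
  have hsplit : ∀ F : T → KW p k, ∑ u with u ∈ cmT (EG φ D f), F u
      = F 1 + ∑ u ∈ (Finset.univ.filter fun u => u ∈ cmT (EG φ D f)).erase 1, F u := by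
    intro F
    rw [Finset.add_sum_erase]
    rw [Finset.mem_filter]
    exact ⟨Finset.mem_univ _, Subgroup.one_mem _⟩
  rw [hsplit, hsplit, Finset.sum_congr rfl fun u hu => hv u ?_ ?_] at hfour
  · rw [add_left_inj, mul_one] at hfour
    have hE0 : (Nat.card (EG φ D f) : KW p k) ≠ 0 := Nat.cast_ne_zero.2 Nat.card_pos.ne'
    rw [hτ] at hfour
    dsimp only at hfour
    rw [eQ_fixed hz, eQ_fixed (z := (1 : T)) fun α _ => map_one α] at hfour
    have h1 := Nat.cast_injective (mul_left_cancel₀ hE0 hfour)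
    have h2 : c = cu z := Lb.unique h (zp_le (hmem z)) (hc.toLb (CD_zpowers _))
      ((hcu z).toLb (CD_zpowers _))
    rw [h2, h1]
    have h3 : C1 (φ (1 : T)) = (⊤ : Subgroup A) := by
      rw [map_one, eq_top_iff]
      intro x _
      rw [mem_C1', one_mul, mul_one]
    have h4 := hcu 1
    rw [h3] at h4 ⊢
    rw [(YTaAux.lbH_top h).1 h4]
  · exact (Finset.mem_filter.1 (Finset.mem_erase.1 hu).2).2
  · exact (Finset.mem_erase.1 hu).1

end

/-- **the reduction to the centralizer of a fixed element of the defect group** -/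
theorem wat_of {p : ℕ} [Fact p.Prime] {k : Type v} [Field k] [IsAlgClosed k] [CharP k p]
    {T : Type w} [CommGroup T] [Fintype T]
    (hV : ∀ (A : Type u) [Group A] [Finite A], VanAt p k T A) (A : Type u) [Group A] [Finite A] :
    WatAt p k T A := by
  have key : ∀ n : ℕ, ∀ (A : Type u) [Group A] [Finite A], Nat.card A = n → WatAt p k T A := by
    intro n
    induction n using Nat.strong_induction_on with
    | _ n ih =>
      intro A _ _ hn φ b f i D h hφ hr z hz c hc
      have := finite_EG (φ := φ) (D := D) (f := f)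
      exact wat_step h hφ hr hz (hV A) (fun A' _ _ hA' => ih _ (by rw [← hn]; exact hA') A' rfl) hc
  exact key _ A rfl

end Pool.Agent.Lib.P0c8ca5.Ex.WX
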