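import Mathlib
import Pool.Agent.Lib.P0c8ca5Ex.YO

/-!
# WYb: the trace of the contributions at a place

`tr_loc`: the sum over the characters of a block of the contributions at the place `(u, c)` is the
sum over the characters `ψ` of `c` of the inner product of `ψ` with itself over the `p`-regular
elements.
-/

set_option linter.unusedSectionVars false

namespace Pool.Agent.Lib.P0c8ca5.Ex

open MonoidAlgebra

namespace WYb

open YHAux

section
variable {p : ℕ} [Fact p.Prime] {k : Type*} [Field k] [IsAlgClosed k] [CharP k p]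
  {A : Type*} [Group A] [Finite A] {b : MonoidAlgebra k A} {B : MonoidAlgebra (OW p k) A}

theorem lin_ch (χ : Ir (KW p k) A) (a : MonoidAlgebra (OW p k) A) : lin (ch χ) a = chO χ a := by
  classical
  rw [lin_V (ch_mem χ), Finset.sum_eq_single χ]
  · rw [ip_ch, if_pos rfl, one_mul]
  · intro ψ _ hψ
    rw [ip_ch, if_neg (Ne.symm hψ), zero_mul]
  · intro h
    exact absurd (Finset.mem_univ _) h

theorem cut_left {u : A} {s : ↥(C1 u)} {n : ℕ} {ζ : Fin n → OW p k}
    {ε : Fin n → MonoidAlgebra (OW p k) ↥(C1 u)}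
    (hs : (single s 1 : MonoidAlgebra (OW p k) ↥(C1 u)) = ∑ j, ζ j • ε j)
    (BH : MonoidAlgebra (OW p k) ↥(C1 u)) (χ : Ir (KW p k) A) :
    cut (C1 u) BH (ch χ) (u * s) = ∑ j, algebraMap (OW p k) (KW p k) (ζ j) *
      chO χ (single u 1 * upr (C1 u) (ε j * BH)) := by
  have hu : u ∈ C1 u := mem_C1'.2 rfl
  rw [cut, if_pos (Subgroup.mul_mem _ hu s.2), lin_ch]
  have h1 : (single (u * (s : A)) 1 * upr (C1 u) BH : MonoidAlgebra (OW p k) A)
      = ∑ j, ζ j • (single u 1 * upr (C1 u) (ε j * BH)) := by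
    have h3 : (single (u * (s : A)) 1 : MonoidAlgebra (OW p k) A)
        = single u 1 * upr (C1 u) (single s 1) := by
      rw [upr_single, single_mul_single, one_mul]
    rw [h3, hs, mul_assoc, ← map_mul, Finset.sum_mul, map_sum, Finset.mul_sum]
    refine Finset.sum_congr rfl fun j _ => ?_
    rw [smul_mul_assoc, map_smul, mul_smul_comm]
  rw [h1, map_sum]
  exact Finset.sum_congr rfl fun j _ => chO_smul _ _ _

theorem cut_right {u : A} {s : ↥(C1 u)} {n : ℕ} {ζ : Fin n → OW p k}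
    {ε : Fin n → MonoidAlgebra (OW p k) ↥(C1 u)}
    (hs : (single s⁻¹ 1 : MonoidAlgebra (OW p k) ↥(C1 u)) = ∑ j, ζ j • ε j)
    (BH : MonoidAlgebra (OW p k) ↥(C1 u)) (χ : Ir (KW p k) A) :
    cut (C1 u) BH (ch χ) (u * s)⁻¹ = ∑ j, algebraMap (OW p k) (KW p k) (ζ j) *
      chO χ (upr (C1 u) (ε j * BH) * single u⁻¹ 1) := by
  have hu : u ∈ C1 u := mem_C1'.2 rfl
  rw [cut, if_pos (Subgroup.inv_mem _ (Subgroup.mul_mem _ hu s.2)), lin_ch, mul_inv_rev]
  have h1 : chO χ (single ((s : A)⁻¹ * u⁻¹) 1 * upr (C1 u) BH : MonoidAlgebra (OW p k) A)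
      = chO χ (∑ j, ζ j • (upr (C1 u) (ε j * BH) * single u⁻¹ 1)) := by
    have h3 : (single ((s : A)⁻¹ * u⁻¹) 1 : MonoidAlgebra (OW p k) A)
        = single u⁻¹ 1 * upr (C1 u) (single s⁻¹ 1) := by
      rw [upr_single, single_mul_single, one_mul]
      congr 1
      have h4 := mem_C1'.1 s.2
      have h5 : ((s⁻¹ : ↥(C1 u)) : A) = (s : A)⁻¹ := rfl
      rw [h5, ← mul_inv_rev, ← mul_inv_rev, h4]
    rw [h3, mul_assoc, ← map_mul, chO_mul_comm, hs, Finset.sum_mul, map_sum, Finset.sum_mul]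
    congr 1
    refine Finset.sum_congr rfl fun j _ => ?_
    rw [smul_mul_assoc, map_smul, smul_mul_assoc]
  rw [h1, map_sum]
  exact Finset.sum_congr rfl fun j _ => chO_smul _ _ _

theorem swap3 {ι α β : Type*} [Fintype ι] [Fintype α] [Fintype β] {K : Type*} [AddCommMonoid K]
    (F : ι → α → β → K) : ∑ x, ∑ j, ∑ j', F x j j' = ∑ j, ∑ j', ∑ x, F x j j' := by
  rw [Finset.sum_comm]
  exact Finset.sum_congr rfl fun j _ => Finset.sum_comm

/-- the sum over the characters of the products of the values at `u s` and at its inverse -/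
theorem tr_s {u : A} {M : ℕ} (hu : u ^ p ^ M = 1) {c : MonoidAlgebra k ↥(C1 u)}
    {BH : MonoidAlgebra (OW p k) ↥(C1 u)} (hBH : CenL c BH) {s : ↥(C1 u)} (hs : Preg p s) :
    ∑ χ : Ir (KW p k) A, cut (C1 u) BH (ch χ) (u * s) * cut (C1 u) BH (ch χ) (u * s)⁻¹
      = ∑ ψ : Ir (KW p k) ↥(C1 u), chO ψ (single s 1 * BH) * chO ψ (single s⁻¹ 1 * BH) := by
  classical
  obtain ⟨n, ζ, ε, hε, hεc, hεs⟩ := reg_dec (p := p) (k := k) (g := s) hs
  obtain ⟨n', ζ', ε', hε', hεc', hεs'⟩ := reg_dec (p := p) (k := k) (g := s⁻¹) (preg_inv.2 hs)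
  have hid : ∀ j, ε j * BH * (ε j * BH) = ε j * BH := fun j => by
    calc ε j * BH * (ε j * BH) = ε j * (BH * ε j) * BH := by simp only [mul_assoc]
      _ = ε j * ε j * (BH * BH) := by rw [hBH.cen]; simp only [mul_assoc]
      _ = ε j * BH := by rw [hε, hBH.idem]
  have hid' : ∀ j, ε' j * BH * (ε' j * BH) = ε' j * BH := fun j => by
    calc ε' j * BH * (ε' j * BH) = ε' j * (BH * ε' j) * BH := by simp only [mul_assoc]
      _ = ε' j * ε' j * (BH * BH) := by rw [hBH.cen]; simp only [mul_assoc]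
      _ = ε' j * BH := by rw [hε', hBH.idem]
  have e1 : ∀ ψ : Ir (KW p k) ↥(C1 u), chO ψ (single s 1 * BH)
      = ∑ j, algebraMap (OW p k) (KW p k) (ζ j) * chO ψ (ε j * BH) := by
    intro ψ
    rw [hεs, Finset.sum_mul, map_sum]
    refine Finset.sum_congr rfl fun j _ => ?_
    rw [smul_mul_assoc, chO_smul]
  have e2 : ∀ ψ : Ir (KW p k) ↥(C1 u), chO ψ (single s⁻¹ 1 * BH)
      = ∑ j, algebraMap (OW p k) (KW p k) (ζ' j) * chO ψ (ε' j * BH) := by
    intro ψ
    rw [hεs', Finset.sum_mul, map_sum]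
    refine Finset.sum_congr rfl fun j _ => ?_
    rw [smul_mul_assoc, chO_smul]
  have e3 : ∀ χ : Ir (KW p k) A,
      cut (C1 u) BH (ch χ) (u * s) * cut (C1 u) BH (ch χ) (u * s)⁻¹
      = ∑ j, ∑ j', algebraMap (OW p k) (KW p k) (ζ j) * algebraMap (OW p k) (KW p k) (ζ' j') *
        (chO χ (single u 1 * upr (C1 u) (ε j * BH)) *
          chO χ (upr (C1 u) (ε' j' * BH) * single u⁻¹ 1)) := by
    intro χ
    rw [cut_left hεs, cut_right hεs', Finset.sum_mul]
    refine Finset.sum_congr rfl fun j _ => ?_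
    rw [Finset.mul_sum]
    exact Finset.sum_congr rfl fun j' _ => by ring
  have e4 : ∀ ψ : Ir (KW p k) ↥(C1 u), chO ψ (single s 1 * BH) * chO ψ (single s⁻¹ 1 * BH)
      = ∑ j, ∑ j', algebraMap (OW p k) (KW p k) (ζ j) * algebraMap (OW p k) (KW p k) (ζ' j') *
        (chO ψ (ε j * BH) * chO ψ (ε' j' * BH)) := by
    intro ψ
    rw [e1, e2, Finset.sum_mul]
    refine Finset.sum_congr rfl fun j _ => ?_
    rw [Finset.mul_sum]
    exact Finset.sum_congr rfl fun j' _ => by ring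
  simp only [e3, e4]
  refine (swap3 _).trans (Eq.trans ?_ (swap3 _).symm)
  refine Finset.sum_congr rfl fun j _ => ?_
  refine Finset.sum_congr rfl fun j' _ => ?_
  rw [← Finset.mul_sum, ← Finset.mul_sum]
  congr 1
  exact tp_chi_self (p := p) hu sepO (by rw [← map_mul, hid]) (by rw [← map_mul, hid'])
    (hid j) (hid' j') (single_upr u _) (single_upr u _) (gap_self (C1 u) _ _)
    (gap_self (C1 u) _ _)

open Classical in
/-- **the trace at a place** -/
theorem tr_loc (hB : CenL b B) {u : A} {M : ℕ} (hu : u ^ p ^ M = 1) {c : MonoidAlgebra k A}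
    (hc : IsBlock (C1 u) c) (hbc : resS (C1 u : Set A) b * c = c)
    {BH : MonoidAlgebra (OW p k) ↥(C1 u)} (hBH : CenL (dnr (C1 u) c) BH) :
    ∑ χ : Ir (KW p k) A with chO χ B ≠ 0,
        Wf p (C1 u) (cut (C1 u) BH (ch χ)) (cut (C1 u) BH (ch χ)) u
      = ∑ ψ : Ir (KW p k) ↥(C1 u) with chO ψ BH ≠ 0, ip (rg p (ch ψ)) (ch ψ) := by
  -- the characters outside the block contribute zero
  have h0 : ∀ χ : Ir (KW p k) A, chO χ B = 0 → ∀ s : ↥(C1 u), Preg p s →
      cut (C1 u) BH (ch χ) (u * s) = 0 := by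
    intro χ hχ s hs
    obtain ⟨n, ζ, ε, hε, -, hεs⟩ := reg_dec (p := p) (k := k) (g := s) hs
    rw [cut_left hεs]
    refine Finset.sum_eq_zero fun j _ => ?_
    rw [col_zero' hB hu rfl hc hbc (F := ε j * BH) ?_ ?_ χ hχ, mul_zero]
    · calc ε j * BH * (ε j * BH) = ε j * (BH * ε j) * BH := by simp only [mul_assoc]
        _ = ε j * ε j * (BH * BH) := by rw [hBH.cen]; simp only [mul_assoc]
        _ = ε j * BH := by rw [hε, hBH.idem]
    · rw [map_mul, hBH.red, mul_assoc, ← hBH.red, ← map_mul, hBH.idem]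
  have h1 : ∑ χ : Ir (KW p k) A with chO χ B ≠ 0,
        Wf p (C1 u) (cut (C1 u) BH (ch χ)) (cut (C1 u) BH (ch χ)) u
      = ∑ χ : Ir (KW p k) A, Wf p (C1 u) (cut (C1 u) BH (ch χ)) (cut (C1 u) BH (ch χ)) u := by
    rw [Finset.sum_filter]
    refine Finset.sum_congr rfl fun χ _ => ?_
    split_ifs with hχ
    · rfl
    · rw [not_not] at hχ
      rw [Wf]
      have h2 : ∀ s : ↥(C1 u), (if Preg p s then cut (C1 u) BH (ch χ) (u * s) *
          cut (C1 u) BH (ch χ) (u * s)⁻¹ else 0) = 0 := by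
        intro s
        split_ifs with hs
        · rw [h0 χ hχ s hs, zero_mul]
        · rfl
      rw [sm_congr h2, sm_zero, mul_zero]
  rw [h1]
  simp only [Wf]
  rw [← Finset.mul_sum, ← sm_sum]
  have h3 : ∀ s : ↥(C1 u), (∑ χ : Ir (KW p k) A, if Preg p s then
      cut (C1 u) BH (ch χ) (u * s) * cut (C1 u) BH (ch χ) (u * s)⁻¹ else 0)
      = ∑ ψ : Ir (KW p k) ↥(C1 u) with chO ψ BH ≠ 0, rg p (ch ψ) s * ch ψ s⁻¹ := by
    intro s
    by_cases hs : Preg p s
    · simp only [if_pos hs]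
      rw [tr_s hu hBH hs, Finset.sum_filter]
      refine Finset.sum_congr rfl fun ψ _ => ?_
      split_ifs with hψ
      · rw [hBH.chO_in hψ, hBH.chO_in hψ, chO_ch, chO_ch, rg_of hs]
      · rw [not_not] at hψ
        rw [hBH.chO_out (x := single s 1 * BH) hψ (by rw [mul_assoc, hBH.idem]), zero_mul]
    · simp only [if_neg hs, Finset.sum_const_zero]
      symm
      refine Finset.sum_eq_zero fun ψ _ => ?_
      rw [rg_not hs, zero_mul]
  rw [sm_congr h3, sm_sum, Finset.mul_sum]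
  rfl

end

end WYb

end Pool.Agent.Lib.P0c8ca5.Ex
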