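import Mathlib
import Pool.Agent.Lib.P0c8ca5Ex.WXc
import Pool.Agent.Lib.P0c8ca5Ex.WVb
import Pool.Agent.Lib.P0c8ca5Ex.WYb

/-!
# WXd: from the characters to the numbers of simple modules

`ZzAt`: the sums of the contributions of one character vanish; `RkAt`: the trace is the number of simple
modules. `van_of`: together they give `VanAt`. `wat_root`: the theorem for `Root`.
-/

set_option linter.unusedSectionVars false

namespace Pool.Agent.Lib.P0c8ca5.Ex.WX

open MonoidAlgebra Bq LocAux YuAux YTaAux YmAux WV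

universe u v w

open Classical in
/-- the sums of the contributions of one character vanish -/
def ZzAt (p : ℕ) [Fact p.Prime] (k : Type v) [Field k] [IsAlgClosed k] [CharP k p] (T : Type w)
    [CommGroup T] [Fintype T] (A : Type u) [Group A] [Finite A] : Prop :=
  ∀ (φ : T →* A) (b f i : MonoidAlgebra k A) (D : Subgroup A), Src p b D f i →
    Function.Injective φ → (∀ x, x ∈ D ↔ ∃ t, φ t = x) →
    ∀ BB : ∀ H : Subgroup A, MonoidAlgebra (OW p k) ↥H, BBok φ i BB →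
    ∀ B : MonoidAlgebra (OW p k) A, CenL b B → ∀ χ : Ir (KW p k) A, chO χ B ≠ 0 →
    ∀ z : T, (∀ α ∈ EG φ D f, α z = z) →
    ∀ l : T →* (KW p k)ˣ, (∀ α ∈ EG φ D f, ∀ u, l (α u) = l u) → l z ≠ 1 →
    ∑ u, (l u : KW p k) * FF φ D f BB ⊥ (ch χ) (ch χ) u = 0

open Classical in
/-- the trace is the number of simple modules -/
def RkAt (p : ℕ) [Fact p.Prime] (k : Type v) [Field k] [IsAlgClosed k] [CharP k p] (G : Type u)
    [Group G] [Finite G] : Prop :=
  ∀ (c : MonoidAlgebra k G) (C : MonoidAlgebra (OW p k) G), IsBlock (⊤ : Subgroup G) c →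
    CenL c C → ∑ ψ : Ir (KW p k) G with chO ψ C ≠ 0, ip (rg p (ch ψ)) (ch ψ)
      = (Nat.card (IrX (⊤ : Subgroup G) c) : KW p k)

section
variable {p : ℕ} [Fact p.Prime] {k : Type v} [Field k] [IsAlgClosed k] [CharP k p]
  {A : Type u} [Group A] [Finite A] {T : Type w} [CommGroup T] [Fintype T]
  {φ : T →* A} {b f i : MonoidAlgebra k A} {D : Subgroup A}

theorem van_of (hz : ZzAt p k T A) (hrk : ∀ (G : Type u) [Group G] [Finite G], RkAt p k G) :
    VanAt p k T A := by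
  classical
  intro φ b f i D h hφ hr z hfix l hl hlz c hc
  have hmem : ∀ u, φ u ∈ D := fun u => (hr _).2 ⟨u, rfl⟩
  obtain ⟨M, hM⟩ := pow_one_of h
  obtain ⟨BB, hBB⟩ := exists_BBok h hr
  have hb := h.root.blk
  obtain ⟨B, hB⟩ := exists_cenL (p := p) hb.idem
    (fun g => invBy_iff_cj.1 hb.invBy g (Subgroup.mem_top g))
  have h1 : ∀ u, ∑ χ : Ir (KW p k) A with chO χ B ≠ 0, FF φ D f BB ⊥ (ch χ) (ch χ) u
      = (eQ φ D f (Subgroup.zpowers u) : KW p k) *
        (Nat.card (IrX (C1 (φ u)) (c u)) : KW p k) := by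
    intro u
    have hBu := hBB.c1 u (c u) (hc u)
    rw [Finset.sum_congr rfl fun χ _ => FF_bot hφ (ch χ) (ch χ) u, ← Finset.mul_sum,
      WYb.tr_loc hB (hM _ (hmem u)) (hc u).blk (lbH_b_mul h (hmem u) (hc u)) hBu]
    congr 1
    rw [hrk ↥(C1 (φ u)) (dnr (C1 (φ u)) (c u)) _ (dn_isBlock (hc u).blk) hBu]
    congr 1
    exact dn_card_irr _ _
  have h2 : ∑ χ : Ir (KW p k) A with chO χ B ≠ 0,
      ∑ u, (l u : KW p k) * FF φ D f BB ⊥ (ch χ) (ch χ) u = 0 :=
    Finset.sum_eq_zero fun χ hχ =>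
      hz φ b f i D h hφ hr BB hBB B hB χ (Finset.mem_filter.1 hχ).2 z hfix l hl hlz
  rw [Finset.sum_comm] at h2
  rw [← h2]
  refine Finset.sum_congr rfl fun u _ => ?_
  rw [← h1, Finset.mul_sum]

end

section
variable {p : ℕ} [Fact p.Prime] {k : Type v} [Field k] [IsAlgClosed k] [CharP k p]
  {A : Type u} [Group A] [Finite A] {b f i : MonoidAlgebra k A} {D : Subgroup A}

/-- the theorem for `Root` -/
theorem wat_root_of (hw : ∀ (T : Type u) [CommGroup T] [Fintype T], WatAt p k T A)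
    (h : Root p b D f) (hi : Src p b D f i) {z : A} (hz : z ∈ D)
    (hzE : ∀ g ∈ St D f, g * z = z * g) {c : MonoidAlgebra k A} (hc : LbH (C1 z) i c) :
    Nat.card (IrX (C1 z) c) = Nat.card (IrX (⊤ : Subgroup A) b) := by
  classical
  let _ : CommGroup ↥D := cgrp D h.com
  let _ : Fintype ↥D := Fintype.ofFinite _
  refine hw ↥D D.subtype b f i D hi Subtype.val_injective (fun x => ⟨fun hx => ⟨⟨x, hx⟩, rfl⟩, ?_⟩)
    ⟨z, hz⟩ ?_ c hc
  · rintro ⟨t, rfl⟩
    exact t.2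
  · rintro α ⟨g, hg, hα⟩
    apply Subtype.ext
    have h1 := hα ⟨z, hz⟩
    change (α ⟨z, hz⟩ : A) = g * z * g⁻¹ at h1
    rw [h1, hzE g hg, mul_inv_cancel_right]

end

end Pool.Agent.Lib.P0c8ca5.Ex.WX
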