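import Mathlib
import Pool.Agent.Lib.P0c8ca5Ex.YH
import Pool.Agent.Lib.P0c8ca5N.FA
import Pool.Agent.Lib.P0c8ca5Kq.Cc

/-!
# WYa: the rank of a block on the `p`-regular elements is the number of its simple modules

For a central idempotent `C` of `O[G]` with reduction `c`: the sum of the `ip (rg p (ch ψ)) (ch ψ)` over the
characters `ψ` in `C` is `Nat.card (IrX ⊤ c)`.

PROOF. `Mo` is the matrix over `O` with the entries `∑_(h, pr (h x_X) in the class Y) C_h`, `X`, `Y` classes of
`p`-regular elements. Its reduction is `EM p ⊤ P c`, with multiplicity `Nat.card (IrX ⊤ c)` of the eigenvalue `1`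
(`card_irX_eq`). Over `K` it is `V * U`, `V X ψ = ψ(x_X)`, `U ψ Y = ip (1_Y) ψ` (`wbo`), and `U * V` is the matrix of the
numbers `ip (rg p (ch ψ)) (ch χ)`, which is idempotent (`bo`). So the eigenvalues of `Mo` are `0` and `1`, the trace is
the multiplicity of `1`, and the characteristic polynomial over `O` is `(X - 1) ^ a * X ^ b`.
-/

set_option linter.unusedSectionVars false

namespace Pool.Agent.Lib.P0c8ca5.Ex

namespace WU

open MonoidAlgebra

section lin
variable {O : Type*} [CommRing O] {K : Type*} [Field K] [IsAlgClosed K] {k : Type*} [Field k]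
  {ι : Type*} [Fintype ι] [DecidableEq ι]

open Polynomial in
/-- a matrix over `O` with the eigenvalues `0` and `1` over `K`: the trace is the multiplicity of the
eigenvalue `1`, and this is also the multiplicity over `k` -/
theorem trace_mult (M : Matrix ι ι O) {f : O →+* K} (hf : Function.Injective f) (g : O →+* k)
    (h : (M.map f) ^ 3 = (M.map f) ^ 2) :
    (M.map f).trace = (((M.map g).charpoly.rootMultiplicity 1 : ℕ) : K) := by
  classical
  set N := M.map f with hN
  have hr : ∀ r ∈ N.charpoly.roots, r = 0 ∨ r = 1 := by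
    intro r hr
    have h1 : IsRoot N.charpoly r := (mem_roots (Matrix.charpoly_monic N).ne_zero).1 hr
    rw [IsRoot, Matrix.eval_charpoly] at h1
    obtain ⟨v, hv, hv'⟩ := Matrix.exists_mulVec_eq_zero_iff.2 h1
    have h2 : N.mulVec v = r • v := by
      rw [Matrix.sub_mulVec, sub_eq_zero] at hv'
      rw [← hv']
      ext i
      simp [Matrix.scalar_apply, Matrix.mulVec_diagonal]
    have h3 : (N ^ 2).mulVec v = r ^ 2 • v := by
      rw [pow_two, ← Matrix.mulVec_mulVec, h2, Matrix.mulVec_smul, h2, smul_smul, ← pow_two]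
    have h4 : (N ^ 3).mulVec v = r ^ 3 • v := by
      rw [pow_succ, ← Matrix.mulVec_mulVec, h2, Matrix.mulVec_smul, h3, smul_smul]
      congr 1
      ring
    rw [h, h3] at h4
    obtain ⟨i, hi⟩ : ∃ i, v i ≠ 0 := by
      by_contra hcon
      push Not at hcon
      exact hv (funext hcon)
    have h5 : r ^ 2 * v i = r ^ 3 * v i := congrFun h4 i
    have h6 : r ^ 2 = r ^ 3 := mul_right_cancel₀ hi h5
    have h7 : r ^ 2 * (r - 1) = 0 := by
      rw [mul_sub, mul_one, ← pow_succ, ← h6, sub_self]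
    rcases mul_eq_zero.1 h7 with h8 | h8
    · exact Or.inl (pow_eq_zero_iff (two_ne_zero)|>.1 h8)
    · exact Or.inr (sub_eq_zero.1 h8)
  -- the roots
  set a := (N.charpoly.roots.filter (fun r => r = 1)).card with ha
  set b := (N.charpoly.roots.filter (fun r => ¬ r = 1)).card with hb
  have hroots : N.charpoly.roots = Multiset.replicate a 1 + Multiset.replicate b 0 := by
    rw [← Multiset.filter_add_not (fun r => r = 1) N.charpoly.roots]
    congr 1
    · rw [ha]
      exact Multiset.eq_replicate_card.2 fun r hr => (Multiset.mem_filter.1 hr).2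
    · rw [hb]
      refine Multiset.eq_replicate_card.2 fun r hr2 => ?_
      obtain ⟨h1, h2⟩ := Multiset.mem_filter.1 hr2
      exact (hr r h1).resolve_right h2
  have hsplit : N.charpoly = (X - C 1) ^ a * X ^ b := by
    have h1 := (IsAlgClosed.splits N.charpoly).eq_prod_roots_of_monic (Matrix.charpoly_monic N)
    rw [h1, hroots, Multiset.map_add, Multiset.prod_add, Multiset.map_replicate,
      Multiset.map_replicate, Multiset.prod_replicate, Multiset.prod_replicate, map_zero, sub_zero]
  have hO : M.charpoly = (X - C 1) ^ a * X ^ b := by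
    apply Polynomial.map_injective f hf
    rw [← Matrix.charpoly_map, ← hN, hsplit]
    simp
  have hk : (M.map g).charpoly = (X - C 1) ^ a * X ^ b := by
    rw [Matrix.charpoly_map, hO]
    simp
  have h1 : (M.map g).charpoly.rootMultiplicity 1 = a := by
    rw [hk, rootMultiplicity_mul, rootMultiplicity_X_sub_C_pow, rootMultiplicity_eq_zero, add_zero]
    · simp [IsRoot]
    · exact mul_ne_zero (pow_ne_zero _ (X_sub_C_ne_zero 1)) (pow_ne_zero _ X_ne_zero)
  rw [h1, Matrix.trace_eq_sum_roots_charpoly, hroots, Multiset.sum_add, Multiset.sum_replicate,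
    Multiset.sum_replicate, smul_zero, add_zero, nsmul_eq_mul, mul_one]

end lin

section
variable {p : ℕ} [Fact p.Prime] {k : Type*} [Field k] [IsAlgClosed k] [CharP k p]
  {G : Type*} [Group G] [Finite G]

open Classical YHAux in
/-- the rank of a central idempotent on the `p`-regular elements -/
theorem rk_cen {c : MonoidAlgebra k G} {C : MonoidAlgebra (OW p k) G} (hC : CenL c C) :
    ∑ ψ : Ir (KW p k) G with chO ψ C ≠ 0, ip (rg p (ch ψ)) (ch ψ)
      = (Nat.card (IrX (⊤ : Subgroup G) c) : KW p k) := by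
  have := Fintype.ofFinite G
  set P : G → Prop := fun x => x ∈ (⊤ : Subgroup G) ∧ Preg p x with hP
  let _ : Fintype (Cl (⊤ : Subgroup G) P) := Fintype.ofFinite _
  let al : OW p k →+* KW p k := algebraMap (OW p k) (KW p k)
  let Mo : Matrix (Cl (⊤ : Subgroup G) P) (Cl (⊤ : Subgroup G) P) (OW p k) := fun X Y =>
    ∑ h : G, if InCl ⊤ P Y (pr p (h * (X.out : G))) then C.coeff h else 0
  let I : Type := {ψ : Ir (KW p k) G // chO ψ C ≠ 0}
  let Vm : Matrix (Cl (⊤ : Subgroup G) P) I (KW p k) := fun X ψ => ch ψ.1 (X.out : G)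
  let ind : Cl (⊤ : Subgroup G) P → G → KW p k := fun Y x => if InCl ⊤ P Y x then 1 else 0
  let Um : Matrix I (Cl (⊤ : Subgroup G) P) (KW p k) := fun ψ Y => ip (ind Y) (ch ψ.1)
  have hfil : ∀ F : Ir (KW p k) G → KW p k, ∑ ψ : Ir (KW p k) G with chO ψ C ≠ 0, F ψ =
      ∑ ψ : I, F ψ.1 := fun F => Finset.sum_subtype _ (fun x => by simp) F
  -- the reduction
  have hk : Mo.map (rdO p k) = EM p (⊤ : Subgroup G) P c := by
    ext X Y
    rw [Matrix.map_apply]
    unfold EM
    rw [map_sum]
    refine Finset.sum_congr rfl fun h _ => ?_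
    split_ifs with h1
    · rw [← hC.red, coeff_map]
    · exact map_zero _
  -- the classes
  have hex : ∀ x : G, Preg p x → ∃ Y : Cl (⊤ : Subgroup G) P, InCl ⊤ P Y x := fun x hx =>
    ⟨Quotient.mk (clSetoid ⊤ P) ⟨x, Subgroup.mem_top _, hx⟩, ⟨Subgroup.mem_top _, hx⟩, rfl⟩
  have hPc : ∀ g ∈ (⊤ : Subgroup G), ∀ x, P x → P (g * x * g⁻¹) := fun g _ x hx =>
    ⟨Subgroup.mem_top _, (preg_conj g x).2 hx.2⟩
  have hsum : ∀ (F : G → KW p k) (x : G), ∑ ψ : Ir (KW p k) G with chO ψ C ≠ 0,
      ch ψ x * ip F (ch ψ) = (Nat.card G : KW p k)⁻¹ * sm (fun y => F y *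
          (∑ ψ : Ir (KW p k) G with chO ψ C ≠ 0, ch ψ x * ch ψ y⁻¹)) := by
    intro F x
    have h3 : ∀ y : G, F y * (∑ ψ : Ir (KW p k) G with chO ψ C ≠ 0, ch ψ x * ch ψ y⁻¹) =
        ∑ ψ : Ir (KW p k) G with chO ψ C ≠ 0, ch ψ x * (F y * ch ψ y⁻¹) := by
      intro y
      rw [Finset.mul_sum]
      exact Finset.sum_congr rfl fun ψ _ => by ring
    rw [sm_congr h3, sm_sum, Finset.mul_sum]
    refine Finset.sum_congr rfl fun ψ _ => ?_
    rw [sm_mul, ip]
    ring
  have hdec : Mo.map al = Vm * Um := by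
    ext X Y
    rw [Matrix.map_apply, Matrix.mul_apply]
    let F : G → KW p k := fun z => if InCl ⊤ P Y (pr p z) then 1 else 0
    have hF : ∀ g x, F (g * x * g⁻¹) = F x := by
      intro g x
      simp only [F]
      rw [pr_conj, InCl_conj hPc (Subgroup.mem_top g)]
    have e1 : al (Mo X Y) = ∑ ψ : Ir (KW p k) G with chO ψ C ≠ 0,
        ch ψ (X.out : G) * ip F (ch ψ) := by
      have e2 : al (Mo X Y) = ∑ h : G, al (C.coeff h) * F (h * (X.out : G)) := by
        simp only [Mo, F]
        rw [map_sum]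
        refine Finset.sum_congr rfl fun h _ => ?_
        split_ifs
        · rw [mul_one]
        · rw [map_zero, mul_zero]
      have e3 : ∀ ψ : Ir (KW p k) G, ∑ h : G, al (C.coeff h) * ch ψ (h * (X.out : G)) =
          chO ψ (single (X.out : G) 1 * C) := by
        intro ψ
        conv_rhs => rw [← hC.cen, single_sum C, Finset.sum_mul, map_sum]
        refine Finset.sum_congr rfl fun h _ => ?_
        rw [smul_mul_assoc, chO_smul, single_mul_single, mul_one, chO_ch]
      rw [e2, Finset.sum_filter]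
      have e4 : ∀ h : G, al (C.coeff h) * F (h * (X.out : G)) =
          ∑ ψ : Ir (KW p k) G, ip F (ch ψ) * (al (C.coeff h) * ch ψ (h * (X.out : G))) := by
        intro h
        rw [cf_expand hF, Finset.mul_sum]
        exact Finset.sum_congr rfl fun ψ _ => by ring
      rw [Finset.sum_congr rfl fun h _ => e4 h, Finset.sum_comm]
      refine Finset.sum_congr rfl fun ψ _ => ?_
      rw [← Finset.mul_sum, e3]
      split_ifs with h5
      · rw [hC.chO_in h5, chO_ch, mul_comm]
      · rw [not_not] at h5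
        rw [hC.chO_out (x := single (X.out : G) 1 * C) h5 (by rw [mul_assoc, hC.idem]), mul_zero]
    have e5 : ∑ ψ : Ir (KW p k) G with chO ψ C ≠ 0, ch ψ (X.out : G) * ip F (ch ψ) =
        ∑ ψ : Ir (KW p k) G with chO ψ C ≠ 0, ch ψ (X.out : G) * ip (ind Y) (ch ψ) := by
      rw [hsum, hsum]
      congr 1
      refine sm_congr fun y => ?_
      by_cases hy : Preg p y
      · simp only [F, ind]
        rw [pr_eq_self hy]
      · rw [wbo hC X.out.2.2 (fun h => hy (preg_inv.1 h)), mul_zero, mul_zero]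
    rw [e1, e5]
    exact hfil (fun ψ => ch ψ (X.out : G) * ip (ind Y) (ch ψ))
  have hUV : ∀ χ ψ : I, (Um * Vm) χ ψ = ip (rg p (ch ψ.1)) (ch χ.1) := by
    intro χ ψ
    have e1 : rg p (ch ψ.1) = fun z => ∑ Y : Cl (⊤ : Subgroup G) P,
        (ch ψ.1 (Y.out : G) • ind Y) z := by
      funext z
      by_cases hz : Preg p z
      · obtain ⟨Y, hY⟩ := hex z hz
        rw [rg_of hz, Finset.sum_eq_single Y]
        · obtain ⟨g, _, e⟩ := InCl_out_conj hY
          simp only [ind, Pi.smul_apply, smul_eq_mul]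
          rw [if_pos hY, mul_one, e, ch_conj]
        · intro Y' _ hY'
          simp only [ind, Pi.smul_apply, smul_eq_mul]
          rw [if_neg (fun h => hY' (InCl_unique h hY)), mul_zero]
        · intro h
          exact absurd (Finset.mem_univ _) h
      · rw [rg_not hz]
        symm
        refine Finset.sum_eq_zero fun Y _ => ?_
        simp only [ind, Pi.smul_apply, smul_eq_mul]
        rw [if_neg (fun h => hz h.1.2), mul_zero]
    rw [Matrix.mul_apply, e1, ip_sum]
    refine Finset.sum_congr rfl fun Y _ => ?_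
    rw [ip_smul, mul_comm]
  have hid : (Um * Vm) * (Um * Vm) = Um * Vm := by
    ext θ ψ
    rw [Matrix.mul_apply, hUV]
    have e1 := cf_pars (F := rg p (ch ψ.1)) (rg_conj (ch_conj ψ.1)) (rg p (ch θ.1))
    have e2 : ip (rg p (ch ψ.1)) (rg p (ch θ.1)) = ip (rg p (ch ψ.1)) (ch θ.1) := by
      rw [← ip_rg, rg_rg]
    rw [← e2, e1, ← Finset.sum_filter_add_sum_filter_not Finset.univ
      (fun χ : Ir (KW p k) G => chO χ C ≠ 0)]
    have e3 : ∑ χ : Ir (KW p k) G with ¬ chO χ C ≠ 0,
        ip (rg p (ch ψ.1)) (ch χ) * ip (ch χ) (rg p (ch θ.1)) = 0 := by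
      refine Finset.sum_eq_zero fun χ hχ => ?_
      rw [bo hC ψ.2 (not_not.1 (Finset.mem_filter.1 hχ).2), zero_mul]
    rw [e3, add_zero, hfil (fun χ => ip (rg p (ch ψ.1)) (ch χ) * ip (ch χ) (rg p (ch θ.1)))]
    refine Finset.sum_congr rfl fun χ _ => ?_
    rw [hUV, hUV, ← ip_rg, mul_comm]
  have h3 : (Mo.map al) ^ 3 = (Mo.map al) ^ 2 := by
    rw [hdec]
    have e2 : (Vm * Um) ^ 2 = Vm * (Um * Vm) * Um := by
      rw [pow_two]
      simp only [Matrix.mul_assoc]
    have e3 : (Vm * Um) ^ 3 = Vm * ((Um * Vm) * (Um * Vm)) * Um := by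
      rw [pow_succ, pow_two]
      simp only [Matrix.mul_assoc]
    rw [e2, e3, hid]
  have h4 := trace_mult Mo (f := al) algO_inj (rdO p k) h3
  rw [hk] at h4
  rw [hfil (fun ψ => ip (rg p (ch ψ)) (ch ψ))]
  have h5 : ∑ ψ : I, ip (rg p (ch ψ.1)) (ch ψ.1) = (Mo.map al).trace := by
    rw [hdec, Matrix.trace_mul_comm, Matrix.trace]
    exact Finset.sum_congr rfl fun ψ _ => by rw [Matrix.diag_apply, hUV]
  have hcc : c * c = c := by rw [← hC.red, ← map_mul, hC.idem]
  have hsupp : SuppIn (⊤ : Subgroup G) c := fun x _ => Subgroup.mem_top x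
  have hinv : InvBy (⊤ : Subgroup G) c := by
    rw [invBy_iff_commute]
    intro g _
    have h6 := congrArg (mapRingHom G (rdO p k)) (hC.cen (single g 1))
    rw [map_mul, map_mul, hC.red, mapRingHom_single, map_one] at h6
    exact h6.symm
  rw [h5, h4, card_irX_eq hsupp hinv hcc, LinAux.mult1_eq]

open Classical in
/-- the rank of a block on the `p`-regular elements is the number of its simple modules -/
theorem rk_l {c : MonoidAlgebra k G} {C : MonoidAlgebra (OW p k) G}
    (_ : IsBlock (⊤ : Subgroup G) c) (hC : CenL c C) :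
    ∑ ψ : Ir (KW p k) G with chO ψ C ≠ 0, ip (rg p (ch ψ)) (ch ψ)
      = (Nat.card (IrX (⊤ : Subgroup G) c) : KW p k) := rk_cen hC

/-- the same with the sum over `IrB` and the number of the invariant classes -/
theorem trace_l {c : MonoidAlgebra k G} {C : MonoidAlgebra (OW p k) G}
    (hc : IsBlock (⊤ : Subgroup G) c) (hC : CenL c C) [Fintype (IrB C)] :
    ∑ ψ : IrB C, ip (rg p (ch ψ.1)) (ch ψ.1)
      = (Nat.card (Quotient (irrInvSetoid (⊤ : Subgroup G) ⊤ c)) : KW p k) := by
  classical
  have := Fintype.ofFinite G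
  rw [Kq.card_top hc, ← rk_cen hC]
  exact (Finset.sum_subtype (Finset.univ.filter fun ψ : Ir (KW p k) G => chO ψ C ≠ 0)
    (fun x => by simp) (fun ψ => ip (rg p (ch ψ)) (ch ψ))).symm

end

end WU

end Pool.Agent.Lib.P0c8ca5.Ex
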