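import Mathlib
import Pool.Agent.Lib.P0c8ca5Ex.WYa
import Pool.Agent.Lib.P0c8ca5Ex.WYb

/-!
# WYc: the trace formula

`tr_l`: for a `p`-element `u` and a block `c` of `C(u)` belonging to the block `b` the sum of the contributions of the
characters of `b` at `(u, c)` is the number of the simple modules of `c` (`tr_loc`, `rk_cen`).
-/

set_option linter.unusedSectionVars false

namespace Pool.Agent.Lib.P0c8ca5.Ex

namespace WU

open MonoidAlgebra

section
variable {p : ℕ} [Fact p.Prime] {k : Type*} [Field k] [IsAlgClosed k] [CharP k p]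
  {A : Type*} [Group A] [Finite A]

open Classical in
/-- the trace formula -/
theorem tr_l {u : A} {M : ℕ} {b c : MonoidAlgebra k A} {B : MonoidAlgebra (OW p k) A}
    {BH : MonoidAlgebra (OW p k) ↥(C1 u)} (hB : CenL b B) (hu : u ^ p ^ M = 1)
    (hc : IsBlock (C1 u) c) (hbc : resS (C1 u : Set A) b * c = c)
    (hBH : CenL (dnr (C1 u) c) BH) :
    ∑ χ : Ir (KW p k) A with chO χ B ≠ 0, Wf p (C1 u) (cut (C1 u) BH (ch χ))
        (cut (C1 u) BH (ch χ)) u = (Nat.card (IrX (C1 u) c) : KW p k) := by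
  rw [WYb.tr_loc hB hu hc hbc hBH, rk_cen hBH, dnr_eq_dn, dn_card_irr]

end

end WU

end Pool.Agent.Lib.P0c8ca5.Ex
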