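import Mathlib
import Pool.Agent.Lib.P0c8ca5Ex.YK

/-!
# WZa: the algebraic numbers in `K` and their images in the complex numbers

* `Qb K` is the field of the algebraic numbers in `K`; `sg σ x` is the image of `x` under the
  embedding `σ` of `Qb K` in `ℂ` (zero if `x` is not algebraic).
* `zero_of_sg`: an algebraic integer all whose images have norm `< 1` is zero.
* `sg_inv_val`: `X(x⁻¹)` is the complex conjugate of `X(x)` for a generalized character `X`.
-/

set_option linter.unusedSectionVars false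

namespace Pool.Agent.Lib.P0c8ca5.Ex.WZ

open MonoidAlgebra

section
variable {K : Type*} [Field K] [CharZero K]

variable (K) in
/-- the algebraic numbers in `K` -/
abbrev Qb : IntermediateField ℚ K := algebraicClosure ℚ K

theorem mem_Qb_of_int {x : K} (h : IsIntegral ℤ x) : x ∈ Qb K := by
  rw [mem_algebraicClosure_iff]
  exact (h.tower_top (A := ℚ)).isAlgebraic

open Classical in
/-- the image of `x` under `σ` -/
noncomputable def sg (σ : Qb K →+* ℂ) (x : K) : ℂ :=
  if h : x ∈ Qb K then σ ⟨x, h⟩ else 0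

variable {σ : Qb K →+* ℂ}

theorem sg_of {x : K} (h : x ∈ Qb K) : sg σ x = σ ⟨x, h⟩ := dif_pos h

theorem sg_add {x y : K} (hx : x ∈ Qb K) (hy : y ∈ Qb K) : sg σ (x + y) = sg σ x + sg σ y := by
  rw [sg_of hx, sg_of hy, sg_of (add_mem hx hy), ← map_add]
  rfl

theorem sg_neg {x : K} (hx : x ∈ Qb K) : sg σ (-x) = - sg σ x := by
  rw [sg_of hx, sg_of (neg_mem hx), ← map_neg]
  rfl

theorem sg_mul {x y : K} (hx : x ∈ Qb K) (hy : y ∈ Qb K) : sg σ (x * y) = sg σ x * sg σ y := by
  rw [sg_of hx, sg_of hy, sg_of (mul_mem hx hy), ← map_mul]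
  rfl

theorem sg_one : sg σ (1 : K) = 1 := by
  rw [sg_of (one_mem _), ← map_one σ]
  rfl

theorem sg_zero : sg σ (0 : K) = 0 := by
  rw [sg_of (zero_mem _), ← map_zero σ]
  rfl

theorem sg_pow {x : K} (hx : x ∈ Qb K) (n : ℕ) : sg σ (x ^ n) = sg σ x ^ n := by
  rw [sg_of hx, sg_of (pow_mem hx n), ← map_pow]
  rfl

theorem natCast_mem_Qb (n : ℕ) : (n : K) ∈ Qb K := natCast_mem _ n

theorem sg_natCast (n : ℕ) : sg σ (n : K) = n := by
  rw [sg_of (natCast_mem_Qb n), ← map_natCast σ n]
  rfl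

theorem sg_inv {x : K} (hx : x ∈ Qb K) : sg σ x⁻¹ = (sg σ x)⁻¹ := by
  rw [sg_of hx, sg_of (inv_mem hx), ← map_inv₀]
  rfl

theorem sg_eq_zero {x : K} (hx : x ∈ Qb K) : sg σ x = 0 ↔ x = 0 := by
  rw [sg_of hx, map_eq_zero]
  exact Subtype.ext_iff

theorem sg_inj {x y : K} (hx : x ∈ Qb K) (hy : y ∈ Qb K) (h : sg σ x = sg σ y) : x = y := by
  rw [sg_of hx, sg_of hy] at h
  exact congrArg Subtype.val (σ.injective h)

theorem sg_sum {ι : Type*} (S : Finset ι) {x : ι → K} (h : ∀ i ∈ S, x i ∈ Qb K) :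
    sg σ (∑ i ∈ S, x i) = ∑ i ∈ S, sg σ (x i) := by
  classical
  induction S using Finset.induction_on with
  | empty => rw [Finset.sum_empty, Finset.sum_empty, sg_zero]
  | insert a S ha ih =>
    rw [Finset.sum_insert ha, Finset.sum_insert ha, sg_add (h a (Finset.mem_insert_self _ _))
      (sum_mem fun i hi => h i (Finset.mem_insert_of_mem hi)),
      ih fun i hi => h i (Finset.mem_insert_of_mem hi)]

/-- **an algebraic integer all whose images have norm `< 1` is zero** -/
theorem zero_of_sg {α : K} (hα : IsIntegral ℤ α) (h : ∀ σ : Qb K →+* ℂ, ‖sg σ α‖ < 1) :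
    α = 0 := by
  by_contra h0
  have hαQ : IsIntegral ℚ α := hα.tower_top
  let F : IntermediateField ℚ K := IntermediateField.adjoin ℚ {α}
  have hfd : FiniteDimensional ℚ F := IntermediateField.adjoin.finiteDimensional hαQ
  have hnf : NumberField F := { to_charZero := inferInstance, to_finiteDimensional := hfd }
  have hmem : α ∈ F := IntermediateField.mem_adjoin_simple_self ℚ α
  have hFQ : F ≤ Qb K := by
    rw [IntermediateField.adjoin_simple_le_iff]
    exact mem_Qb_of_int hα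
  have hext : ∀ φ : F →+* ℂ, ∃ σ : Qb K →+* ℂ, ∀ x : F, σ ⟨x, hFQ x.2⟩ = φ x := by
    intro φ
    let i : F →+* Qb K := Subring.inclusion (R := K) (S := F.toSubfield.toSubring)
      (T := (Qb K).toSubfield.toSubring) hFQ
    let _ : Algebra F (Qb K) := i.toAlgebra
    let _ : Algebra F ℂ := φ.toAlgebra
    have halg : Algebra.IsAlgebraic F (Qb K) := by
      refine ⟨fun x => ?_⟩
      have h1 : IsAlgebraic ℚ (x : K) := mem_algebraicClosure_iff.1 x.2
      obtain ⟨q, hq0, hq⟩ := h1
      refine ⟨q.map (algebraMap ℚ F), (Polynomial.map_ne_zero_iff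
        (algebraMap ℚ F).injective).2 hq0, ?_⟩
      apply Subtype.ext
      have h2 : ((Polynomial.aeval x (q.map (algebraMap ℚ F)) : Qb K) : K)
          = Polynomial.aeval (x : K) q := by
        rw [Polynomial.aeval_def, Polynomial.eval₂_map, Polynomial.aeval_def]
        have h3 := Polynomial.hom_eval₂ q ((algebraMap F (Qb K)).comp (algebraMap ℚ F))
          (algebraMap (Qb K) K) x
        refine h3.trans ?_
        congr 1
      rw [h2, hq]
      rfl
    let τ : Qb K →ₐ[F] ℂ := IsAlgClosed.lift (R := F)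
    refine ⟨τ.toRingHom, fun x => ?_⟩
    exact τ.commutes x
  let a : F := ⟨α, hmem⟩
  have ha0 : a ≠ 0 := fun h1 => h0 (congrArg Subtype.val h1)
  have hai : IsIntegral ℤ a := by
    have h1 : IsIntegral ℤ (algebraMap F K a) := hα
    exact (isIntegral_algebraMap_iff (algebraMap F K).injective).1 h1
  have hlt : ∀ φ : F →+* ℂ, ‖φ a‖ < 1 := by
    intro φ
    obtain ⟨σ, hσ⟩ := hext φ
    have h1 := h σ
    rw [sg_of (mem_Qb_of_int hα)] at h1
    rw [← hσ a]
    exact h1
  obtain ⟨n, hn, hn1⟩ := NumberField.Embeddings.pow_eq_one_of_norm_le_one F ℂ ha0 hai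
    fun φ => (hlt φ).le
  obtain ⟨φ⟩ : Nonempty (F →+* ℂ) := inferInstance
  have h1 : ‖φ a‖ ^ n = 1 := by
    rw [← norm_pow, ← map_pow, hn1, map_one, norm_one]
  have h2 : ‖φ a‖ ^ n < 1 := pow_lt_one₀ (norm_nonneg _) (hlt φ) hn.ne'
  exact h2.ne h1

/-- roots of unity -/
theorem norm_sg_root {x : K} {n : ℕ} (hn : n ≠ 0) (h : x ^ n = 1) : ‖sg σ x‖ = 1 := by
  have hx : x ∈ Qb K := mem_Qb_of_int (IsIntegral.of_pow (Nat.pos_of_ne_zero hn) (by
    rw [h]
    exact isIntegral_one))
  have h1 : sg σ x ^ n = 1 := by rw [← sg_pow hx, h, sg_one]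
  exact Complex.norm_eq_one_of_pow_eq_one h1 hn

theorem int_root {x : K} {n : ℕ} (hn : n ≠ 0) (h : x ^ n = 1) : IsIntegral ℤ x :=
  IsIntegral.of_pow (Nat.pos_of_ne_zero hn) (by rw [h]; exact isIntegral_one)

open ComplexConjugate in
theorem sg_root_inv {x : K} {n : ℕ} (hn : n ≠ 0) (h : x ^ n = 1) :
    sg σ x⁻¹ = conj (sg σ x) := by
  rw [sg_inv (mem_Qb_of_int (int_root hn h))]
  exact Complex.inv_eq_conj (norm_sg_root hn h)

end

/-! ### the values of the generalized characters -/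

section
variable {K : Type*} [Field K] [IsAlgClosed K] [CharZero K] {A : Type*} [Group A] [Finite A]

/-- the restriction of a generalized character to a commutative group -/
theorem V_vir {D : Type*} [CommGroup D] [Fintype D] (φ : D →* A) {X : A → K}
    (hX : X ∈ V K A) : (fun u => X (φ u)) ∈ vir D K := by
  refine V_induction (P := fun X => (fun u => X (φ u)) ∈ vir D K) (fun χ => ?_)
    (zero_mem _) (fun _ _ h1 h2 => add_mem h1 h2) (fun _ h1 => neg_mem h1) hX
  have h1 := honest_vir (O := K) χ φ (e := 1) (one_mul 1) fun u => by rw [mul_one, one_mul]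
  have h2 : (fun u => chO χ (single (φ u) 1 * (1 : MonoidAlgebra K A))) = fun u => ch χ (φ u) := by
    funext u
    rw [mul_one, chO_apply, map_single, map_one]
    rfl
  rwa [h2] at h1

variable {σ : Qb K →+* ℂ}

/-- the value at the inverse is the complex conjugate -/
theorem sg_inv_val {X : A → K} (hX : X ∈ V K A) (x : A) :
    sg σ (X x⁻¹) = star (sg σ (X x)) := by
  let _ := cgrp (Subgroup.zpowers x) (zpow_com x)
  have := Fintype.ofFinite ↥(Subgroup.zpowers x)
  have h1 := V_vir (D := ↥(Subgroup.zpowers x)) (Subgroup.zpowers x).subtype hX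
  obtain ⟨h, h', h2⟩ := vir_conj (S := (Qb K).toSubfield.toSubring) (φ := σ)
    (fun y hy => mem_Qb_of_int hy) h1 ⟨x, Subgroup.mem_zpowers x⟩
  rw [sg_of (show X x⁻¹ ∈ Qb K from h'), sg_of (show X x ∈ Qb K from h)]
  exact h2

theorem val_mem {X : A → K} (hX : X ∈ V K A) (x : A) : X x ∈ Qb K :=
  mem_Qb_of_int (YkAux.int_val hX x)

/-- `X(x) X(x⁻¹)` is a nonnegative real number under every embedding -/
theorem sg_val_sq {X : A → K} (hX : X ∈ V K A) (x : A) :
    sg σ (X x * X x⁻¹) = ((‖sg σ (X x)‖ ^ 2 : ℝ) : ℂ) := by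
  rw [sg_mul (val_mem hX x) (val_mem hX _), sg_inv_val hX]
  have h7 := Complex.mul_conj (sg σ (X x))
  rw [Complex.normSq_eq_norm_sq] at h7
  exact h7

end

end Pool.Agent.Lib.P0c8ca5.Ex.WZ
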