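import Mathlib
import Pool.Agent.Lib.P0c8ca5Ex.WZa
import Pool.Agent.Lib.P0c8ca5Ex.V5G
import Pool.Agent.Lib.P0c8ca5Ex.YI

/-!
# WZb: positivity of the contributions

* `sg_wf`: the contributions `Wf p H X X x` are nonnegative real numbers under every embedding, and
  positive if `X (x y) ≠ 0` for some `p`-regular `y`.
* `wf_pos`: the contributions of a character in the block are positive.
* `wf_pint`: the product with a power of `p` is an algebraic integer.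
-/

set_option linter.unusedSectionVars false

namespace Pool.Agent.Lib.P0c8ca5.Ex.WZ

open MonoidAlgebra

section
variable {K : Type*} [Field K] [IsAlgClosed K] [CharZero K] {A : Type*} [Group A] [Finite A]
  {p : ℕ} [Fact p.Prime]

/-- **the contributions are nonnegative** -/
theorem sg_wf {H : Subgroup A} {X : A → K} (hX : on H X ∈ V K ↥H) {x : A} (hx : x ∈ H) :
    Wf p H X X x ∈ Qb K ∧ ∀ σ : Qb K →+* ℂ, ∃ r : ℝ, 0 ≤ r ∧
      sg σ (Wf p H X X x) = (r : ℂ) ∧ ((∃ y : ↥H, Preg p y ∧ X (x * y) ≠ 0) → 0 < r) := by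
  classical
  have := Fintype.ofFinite ↥H
  have hv : ∀ s : ↥H, X (x * s) ∈ Qb K := fun s => val_mem hX ((⟨x, hx⟩ : ↥H) * s)
  have hsq : ∀ (σ : Qb K →+* ℂ) (s : ↥H),
      X (x * s) * X (x * s)⁻¹ ∈ Qb K ∧
      sg σ (X (x * s) * X (x * s)⁻¹) = ((‖sg σ (X (x * s))‖ ^ 2 : ℝ) : ℂ) := fun σ s =>
    ⟨mul_mem (val_mem hX ((⟨x, hx⟩ : ↥H) * s)) (val_mem hX ((⟨x, hx⟩ : ↥H) * s)⁻¹),
      sg_val_sq hX ((⟨x, hx⟩ : ↥H) * s)⟩
  obtain ⟨τ⟩ : Nonempty (Qb K →+* ℂ) := by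
    have hF : Algebra.IsAlgebraic ℚ (algebraicClosure ℚ K) := algebraicClosure.isAlgebraic ℚ K
    let ψ : (algebraicClosure ℚ K) →ₐ[ℚ] ℂ := IsAlgClosed.lift
    exact ⟨ψ.toRingHom⟩
  have ht : ∀ s : ↥H, (if Preg p s then X (x * s) * X (x * s)⁻¹ else 0) ∈ Qb K := by
    intro s
    split_ifs
    · exact (hsq τ s).1
    · exact zero_mem _
  have hW : Wf p H X X x = (Nat.card ↥H : K)⁻¹ *
      ∑ s : ↥H, (if Preg p s then X (x * s) * X (x * s)⁻¹ else 0) := by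
    rw [Wf, sm_eq]
  have hc : (Nat.card ↥H : K)⁻¹ ∈ Qb K := inv_mem (natCast_mem_Qb _)
  refine ⟨?_, fun σ => ?_⟩
  · rw [hW]
    exact mul_mem hc (sum_mem fun s _ => ht s)
  · have hs : ∀ s : ↥H, sg σ (if Preg p s then X (x * s) * X (x * s)⁻¹ else 0)
        = (((if Preg p s then ‖sg σ (X (x * s))‖ ^ 2 else 0 : ℝ)) : ℂ) := by
      intro s
      split_ifs
      · exact (hsq σ s).2
      · rw [sg_zero, Complex.ofReal_zero]
    have h0 : ∀ s : ↥H, 0 ≤ (if Preg p s then ‖sg σ (X (x * s))‖ ^ 2 else 0 : ℝ) := by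
      intro s
      split_ifs
      · exact sq_nonneg _
      · exact le_rfl
    have hcard : (0 : ℝ) < (Nat.card ↥H : ℝ)⁻¹ := by
      rw [inv_pos]
      exact_mod_cast Nat.card_pos
    refine ⟨(Nat.card ↥H : ℝ)⁻¹ * ∑ s : ↥H,
      (if Preg p s then ‖sg σ (X (x * s))‖ ^ 2 else 0 : ℝ), ?_, ?_, ?_⟩
    · exact mul_nonneg hcard.le (Finset.sum_nonneg fun s _ => h0 s)
    · rw [hW, sg_mul hc (sum_mem fun s _ => ht s), sg_inv (natCast_mem_Qb _), sg_natCast,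
        sg_sum _ (fun s _ => ht s), Finset.sum_congr rfl fun s _ => hs s]
      push_cast
      rfl
    · rintro ⟨y, hy, hy0⟩
      refine mul_pos hcard (Finset.sum_pos' (fun s _ => h0 s) ⟨y, Finset.mem_univ _, ?_⟩)
      rw [if_pos hy]
      have h1 : sg σ (X (x * y)) ≠ 0 := fun h => hy0 ((sg_eq_zero (hv y)).1 h)
      exact pow_pos (norm_pos_iff.2 h1) 2

end

section
variable {p : ℕ} [Fact p.Prime] {k : Type*} [Field k] [IsAlgClosed k] [CharP k p]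
  {A : Type*} [Group A] [Finite A] {T : Type*} [CommGroup T] [Fintype T]
  {φ : T →* A} {b f i : MonoidAlgebra k A} {D : Subgroup A}

/-- **the contributions of a character in the block are positive** -/
theorem wf_pos (h : Src p b D f i) (hdv : ¬ p ∣ eN D f) {B : MonoidAlgebra (OW p k) A}
    (hB : CenL b B) (hr : ∀ x, x ∈ D ↔ ∃ t, φ t = x) {χ : Ir (KW p k) A} (hχ : chO χ B ≠ 0)
    {Q : Subgroup T} {u : T} (huQ : u ∈ Q) (hu : C1 (φ u) = cq φ Q) {c : MonoidAlgebra k A}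
    (hc : LbH (cq φ Q) i c) {BH : MonoidAlgebra (OW p k) ↥(cq φ Q)}
    (hBH : CenL (dnr (cq φ Q) c) BH) :
    Wf p (cq φ Q) (cut (cq φ Q) BH (ch χ)) (cut (cq φ Q) BH (ch χ)) (φ u) ∈ Qb (KW p k) ∧
    ∀ σ : Qb (KW p k) →+* ℂ, ∃ r : ℝ, 0 < r ∧
      sg σ (Wf p (cq φ Q) (cut (cq φ Q) BH (ch χ)) (cut (cq φ Q) BH (ch χ)) (φ u)) = (r : ℂ) := by
  have h1 : on (cq φ Q) (cut (cq φ Q) BH (ch χ)) ∈ V (KW p k) ↥(cq φ Q) :=
    (cut_mem hBH (V_comp (cq φ Q).subtype (ch_mem χ))).1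
  obtain ⟨h2, h3⟩ := sg_wf (p := p) h1 (YJAux.phi_mem φ Q u)
  refine ⟨h2, fun σ => ?_⟩
  obtain ⟨r, -, hr1, hr2⟩ := h3 σ
  exact ⟨r, hr2 (nonvan h hdv hB hr hχ huQ hu hc hBH), hr1⟩

end

end Pool.Agent.Lib.P0c8ca5.Ex.WZ
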