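import Mathlib
import Pool.Agent.Lib.P0c8ca5Ex.WZb
import Pool.Agent.Lib.P0c8ca5Ex.WVb

/-!
# WZc: the sum of the contributions of a character in the block

* `wf_int`: the product of a contribution with a power of `p` is an algebraic integer.
* `orb_int`: sums over orbits.
* `zz_of`: if the sums of the contributions are `p`-integral, then for a character `l` of `T`
  invariant under the inertial quotient and not trivial on its fixed points the sum of the
  `l u * FF u` for a character in the block is zero.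
-/

set_option linter.unusedSectionVars false

namespace Pool.Agent.Lib.P0c8ca5.Ex.WZ

open MonoidAlgebra WV

/-! ### algebraic integers -/

section
variable {K : Type*} [Field K]

/-- `x` is an algebraic integer -/
def AI (x : K) : Prop := IsIntegral ℤ x

theorem AI.zero : AI (0 : K) := isIntegral_zero

theorem AI.add {x y : K} (hx : AI x) (hy : AI y) : AI (x + y) := IsIntegral.add hx hy

theorem AI.mul {x y : K} (hx : AI x) (hy : AI y) : AI (x * y) := IsIntegral.mul hx hy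

theorem AI.int (z : ℤ) : AI (z : K) := isIntegral_algebraMap (R := ℤ) (x := z)

theorem AI.nat (n : ℕ) : AI (n : K) := int_nat n

theorem AI.sum {ι : Type*} (S : Finset ι) {x : ι → K} (h : ∀ i ∈ S, AI (x i)) :
    AI (∑ i ∈ S, x i) := IsIntegral.sum _ h

theorem AI.vir [CharZero K] {D : Type*} [CommGroup D] [Fintype D] {g : D → K} (hg : g ∈ vir D K) (u : D) :
    AI (g u) := isIntegral_vir hg u

/-- an algebraic integer multiple and a `p`-power multiple -/
theorem AI.of_coprime {x : K} {m a : ℕ} (h : Nat.Coprime m a) (h1 : AI ((m : K) * x))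
    (h2 : AI ((a : K) * x)) : AI x := by
  obtain ⟨u, v, huv⟩ := Nat.isCoprime_iff_coprime.2 h
  have h3 : x = (u : K) * ((m : K) * x) + (v : K) * ((a : K) * x) := by
    have h3 : ((u * m + v * a : ℤ) : K) = 1 := by rw [huv, Int.cast_one]
    push_cast at h3
    calc x = 1 * x := (one_mul x).symm
      _ = _ := by rw [← h3]; ring
  rw [h3]
  exact ((AI.int u).mul h1).add ((AI.int v).mul h2)

end

section
variable {p : ℕ} [Fact p.Prime] {k : Type*} [Field k] [IsAlgClosed k] [CharP k p]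
  {A : Type*} [Group A] [Finite A] {T : Type*} [CommGroup T] [Fintype T]
  {φ : T →* A} {b f i : MonoidAlgebra k A} {D : Subgroup A}

/-- the product of a contribution with a power of `p` is an algebraic integer -/
theorem wf_int {Q : Subgroup T} {u : T} (huQ : u ∈ Q) {c : MonoidAlgebra k A}
    {BH : MonoidAlgebra (OW p k) ↥(cq φ Q)} (hBH : CenL (dnr (cq φ Q) c) BH)
    {X Y : A → KW p k} (hX : X ∈ V (KW p k) A) (hY : Y ∈ V (KW p k) A) :
    AI (((ordProj[p] (Nat.card ↥(cq φ Q)) : ℕ) : KW p k) *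
      Wf p (cq φ Q) (cut (cq φ Q) BH X) (cut (cq φ Q) BH Y) (φ u)) := by
  classical
  have := Fintype.ofFinite ↥Q
  have hc : ∀ a ∈ cq φ Q, φ u * a = a * φ u := fun a ha =>
    Subgroup.mem_centralizer_iff.1 ha (φ u) ⟨u, huQ, rfl⟩
  have hui : u⁻¹ ∈ Q := Q.inv_mem huQ
  have e1 : (fun s : ↥(cq φ Q) => cut (cq φ Q) BH X (φ u * s))
      = fun y => ∑ s, (xs φ (cq φ Q) BH X s u • ch s) y := by
    funext y
    exact YJAux.cut_xs hBH hX huQ y
  have e2 : (fun s : ↥(cq φ Q) => cut (cq φ Q) BH Y ((φ u)⁻¹ * s))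
      = fun y => ∑ s, (xs φ (cq φ Q) BH Y s u⁻¹ • ch s) y := by
    funext y
    rw [← map_inv]
    exact YJAux.cut_xs hBH hY hui y
  have hx : ∀ {Z : A → KW p k}, Z ∈ V (KW p k) A → ∀ (s : Ir (KW p k) ↥(cq φ Q)) (v : T),
      v ∈ Q → AI (xs φ (cq φ Q) BH Z s v) := by
    intro Z hZ s v hv
    exact AI.vir (xs_vir (φ := φ) rfl hBH hZ s) ⟨v, hv⟩
  rw [wf_ip hc, e1, e2, ip_rg, ip_sum, Finset.mul_sum]
  refine AI.sum _ fun s _ => ?_
  rw [ip_smul, ← ip_rg, ip_comm, ip_sum, Finset.mul_sum, Finset.mul_sum]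
  refine AI.sum _ fun t _ => ?_
  rw [ip_smul, ip_comm]
  obtain ⟨z, hz⟩ := ip_rg_int (p := p) (ch_mem s) (ch_mem t)
  have h1 : ((ordProj[p] (Nat.card ↥(cq φ Q)) : ℕ) : KW p k) *
      (xs φ (cq φ Q) BH X s u * (xs φ (cq φ Q) BH Y t u⁻¹ * ip (rg p (ch s)) (ch t)))
      = xs φ (cq φ Q) BH X s u * (xs φ (cq φ Q) BH Y t u⁻¹ * (z : KW p k)) := by
    rw [← hz]
    ring
  rw [h1]
  exact (hx hX s u huQ).mul ((hx hY t u⁻¹ hui).mul (AI.int z))

end

section
variable {T : Type*} [CommGroup T] [Fintype T] {K : Type*} [Field K]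

/-- sums over the orbits -/
theorem orb_int (E : Subgroup (MulAut T)) [Finite E] {F : T → K}
    (hF : ∀ α ∈ E, ∀ u, F (α u) = F u) {P : K → Prop} (h0 : P 0)
    (ha : ∀ x y, P x → P y → P (x + y)) (hP : ∀ u, P (F u)) :
    ∃ y : K, P y ∧ ∑ u, (Nat.card {α : ↥E // (α : MulAut T) u = u} : K) * F u
      = (Nat.card ↥E : K) * y := by
  classical
  have := Fintype.ofFinite ↥E
  let S : Setoid T := MulAction.orbitRel ↥E T
  have hS : ∀ u v : T, S.r u v ↔ ∃ α ∈ E, α v = u := by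
    intro u v
    constructor
    · rintro ⟨α, hα⟩
      exact ⟨α, α.2, hα⟩
    · rintro ⟨α, hα, h⟩
      exact ⟨⟨α, hα⟩, h⟩
  let R := Quotient S
  have : Fintype R := Fintype.ofFinite R
  have hmaps : ∀ u ∈ (Finset.univ : Finset T), (Quotient.mk S u) ∈ (Finset.univ : Finset R) :=
    fun u _ => Finset.mem_univ _
  have hfib : ∀ q : R, ∑ u with Quotient.mk S u = q,
      (Nat.card {α : ↥E // (α : MulAut T) u = u} : K) * F u = (Nat.card ↥E : K) * F q.out := by
    intro q
    have h1 : ∀ u ∈ Finset.univ.filter (fun u => Quotient.mk S u = q),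
        (Nat.card {α : ↥E // (α : MulAut T) u = u} : K) * F u
          = (Nat.card {α : ↥E // (α : MulAut T) q.out = q.out} : K) * F q.out := by
      intro u hu
      have h2 : Quotient.mk S u = Quotient.mk S q.out := by
        rw [(Finset.mem_filter.1 hu).2, Quotient.out_eq]
      obtain ⟨β, hβ, h3⟩ := (hS _ _).1 (Quotient.exact h2)
      have h4 : Nat.card {α : ↥E // (α : MulAut T) u = u}
          = Nat.card {α : ↥E // (α : MulAut T) q.out = q.out} := by
        refine Nat.card_congr ?_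
        refine Equiv.subtypeEquiv (MulAut.conj (⟨β, hβ⟩ : ↥E)⁻¹).toEquiv fun α => ?_
        have h5 : ((((⟨β, hβ⟩ : ↥E)⁻¹ * α * (⟨β, hβ⟩ : ↥E)⁻¹⁻¹ : ↥E) : MulAut T) q.out)
            = β⁻¹ ((α : MulAut T) (β q.out)) := by
          rw [inv_inv]
          rfl
        change (α : MulAut T) u = u ↔
          ((((⟨β, hβ⟩ : ↥E)⁻¹ * α * (⟨β, hβ⟩ : ↥E)⁻¹⁻¹ : ↥E) : MulAut T) q.out) = q.out
        rw [h5, h3]
        constructor
        · intro h6
          rw [h6, ← h3, MulAut.inv_apply_self]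
        · intro h6
          rw [← h3] at h6
          have h7 := congrArg β h6
          rwa [MulAut.apply_inv_self, h3] at h7
      rw [h4, ← h3, hF β hβ]
    rw [Finset.sum_congr rfl h1, Finset.sum_const, nsmul_eq_mul, ← mul_assoc, ← Nat.cast_mul]
    congr 2
    have h2 := MulAction.card_orbit_mul_card_stabilizer_eq_card_group ↥E q.out
    have h3 : Fintype.card (MulAction.orbit ↥E q.out)
        = (Finset.univ.filter fun u => Quotient.mk S u = q).card := by
      rw [← Fintype.card_coe]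
      refine Fintype.card_congr (Equiv.subtypeEquivRight fun u => ?_)
      rw [Finset.mem_filter]
      constructor
      · rintro ⟨α, hα⟩
        refine ⟨Finset.mem_univ _, ?_⟩
        rw [← Quotient.out_eq q]
        exact Quotient.sound ⟨α, hα⟩
      · rintro ⟨-, h4⟩
        rw [← Quotient.out_eq q] at h4
        exact Quotient.exact h4
    have h4 : Fintype.card (MulAction.stabilizer ↥E q.out)
        = Nat.card {α : ↥E // (α : MulAut T) q.out = q.out} := by
      rw [← Nat.card_eq_fintype_card]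
      exact Nat.card_congr (Equiv.subtypeEquivRight fun α => Iff.rfl)
    rw [h3, h4] at h2
    rw [h2, Nat.card_eq_fintype_card]
  refine ⟨∑ q : R, F q.out, ?_, ?_⟩
  · have h1 : ∀ s : Finset R, P (∑ q ∈ s, F q.out) := by
      intro s
      induction s using Finset.induction_on with
      | empty => rw [Finset.sum_empty]; exact h0
      | insert a s has ih => rw [Finset.sum_insert has]; exact ha _ _ (hP _) ih
    exact h1 _
  · rw [← Finset.sum_fiberwise_of_maps_to hmaps, Finset.mul_sum]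
    exact Finset.sum_congr rfl fun q _ => hfib q

end

/-- the strict triangle inequality -/
theorem norm_lt {w1 w2 : ℝ} (h1 : 0 < w1) (h2 : 0 < w2) {c : ℂ} (hc : ‖c‖ = 1) (hc1 : c ≠ 1) :
    ‖(w1 : ℂ) + c * w2‖ < w1 + w2 := by
  have h3 : ¬ SameRay ℝ (w1 : ℂ) (c * w2) := by
    intro h
    rw [sameRay_iff_norm_smul_eq] at h
    rw [norm_mul, hc, one_mul, Complex.norm_real, Complex.norm_real, Real.norm_of_nonneg h1.le,
      Real.norm_of_nonneg h2.le, Complex.real_smul, Complex.real_smul] at h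
    apply hc1
    have h4 : (w1 : ℂ) ≠ 0 := Complex.ofReal_ne_zero.2 h1.ne'
    have h5 : (w2 : ℂ) ≠ 0 := Complex.ofReal_ne_zero.2 h2.ne'
    have h6 : ((w1 : ℂ) * w2) * c = ((w1 : ℂ) * w2) * 1 := by
      rw [mul_one]
      linear_combination h
    exact mul_left_cancel₀ (mul_ne_zero h4 h5) h6
  have h4 := (not_sameRay_iff_norm_add_lt).1 h3
  rwa [norm_mul, hc, one_mul, Complex.norm_real, Complex.norm_real, Real.norm_of_nonneg h1.le,
      Real.norm_of_nonneg h2.le] at h4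

/-- a combination of positive numbers with coefficients of norm 1, not all equal -/
theorem norm_sum_lt {ι : Type*} [Fintype ι] {w : ι → ℝ} (hw : ∀ i, 0 < w i) {c : ι → ℂ}
    (hc : ∀ i, ‖c i‖ = 1) {i j : ι} (hi : c i = 1) (hj : c j ≠ 1) :
    ‖∑ i, c i * w i‖ < ∑ i, w i := by
  classical
  have hij : j ≠ i := fun h => hj (h ▸ hi)
  have hjm : j ∈ Finset.univ.erase i := Finset.mem_erase.2 ⟨hij, Finset.mem_univ _⟩
  rw [← Finset.add_sum_erase _ _ (Finset.mem_univ i), ← Finset.add_sum_erase _ _ hjm,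
    ← Finset.add_sum_erase _ w (Finset.mem_univ i), ← Finset.add_sum_erase _ w hjm, ← add_assoc,
    ← add_assoc]
  have h1 : ‖∑ x ∈ (Finset.univ.erase i).erase j, c x * w x‖
      ≤ ∑ x ∈ (Finset.univ.erase i).erase j, w x := by
    refine (norm_sum_le _ _).trans (Finset.sum_le_sum fun x _ => ?_)
    rw [norm_mul, hc, one_mul, Complex.norm_real, Real.norm_of_nonneg (hw x).le]
  have h2 := norm_lt (hw i) (hw j) (hc j) hj
  rw [hi, one_mul]
  exact (norm_add_le _ _).trans_lt (add_lt_add_of_lt_of_le h2 h1)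

section
variable {p : ℕ} [Fact p.Prime] {k : Type*} [Field k] [IsAlgClosed k] [CharP k p]
  {A : Type*} [Group A] [Finite A] {T : Type*} [CommGroup T] [Fintype T]
  {φ : T →* A} {b f i : MonoidAlgebra k A} {D : Subgroup A}
  {BB : ∀ H : Subgroup A, MonoidAlgebra (OW p k) ↥H}

/-- the order of the inertial quotient at a cyclic group -/
theorem eQ_zp (u : T) : eQ φ D f (Subgroup.zpowers u)
    = Nat.card {α : ↥(EG φ D f) // (α : MulAut T) u = u} := by
  refine Nat.card_congr (Equiv.subtypeEquivRight fun α => ?_)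
  constructor
  · intro h
    exact h u (Subgroup.mem_zpowers u)
  · rintro h _ ⟨n, rfl⟩
    change (α : MulAut T) (u ^ n) = u ^ n
    rw [map_zpow, h]

/-- the contribution at the place `φ u` -/
noncomputable def Wu (φ : T →* A) (BB : ∀ H : Subgroup A, MonoidAlgebra (OW p k) ↥H)
    (χ : Ir (KW p k) A) (u : T) : KW p k :=
  Wf p (C1 (φ u)) (cut (C1 (φ u)) (BB (C1 (φ u))) (ch χ)) (cut (C1 (φ u)) (BB (C1 (φ u))) (ch χ))
    (φ u)

theorem wu_int (h : Src p b D f i) (hr : ∀ x, x ∈ D ↔ ∃ t, φ t = x) (hB : BBok φ i BB)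
    (χ : Ir (KW p k) A) (u : T) :
    AI (((ordProj[p] (Nat.card A) : ℕ) : KW p k) * Wu φ BB χ u) := by
  obtain ⟨c, hc⟩ := exists_lbH h ((hr _).2 ⟨u, rfl⟩)
  have hc' : LbH (cq φ (Subgroup.zpowers u)) i c := by rw [cq_zp]; exact hc
  have h1 := wf_int (φ := φ) (Subgroup.mem_zpowers u) (hB _ c hc') (ch_mem χ) (ch_mem χ)
  rw [cq_zp] at h1
  have h2 : ordProj[p] (Nat.card ↥(C1 (φ u))) ∣ ordProj[p] (Nat.card A) :=
    Nat.ordProj_dvd_ordProj_of_dvd Nat.card_pos.ne' (Subgroup.card_subgroup_dvd_card _) p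
  obtain ⟨m, hm⟩ := h2
  rw [hm, Nat.cast_mul, mul_comm (((ordProj[p] (Nat.card ↥(C1 (φ u)))) : ℕ) : KW p k), mul_assoc]
  exact (AI.nat m).mul h1

theorem wu_pos (h : Src p b D f i) (hr : ∀ x, x ∈ D ↔ ∃ t, φ t = x) (hB : BBok φ i BB)
    {B : MonoidAlgebra (OW p k) A} (hBc : CenL b B) {χ : Ir (KW p k) A} (hχ : chO χ B ≠ 0)
    (u : T) : Wu φ BB χ u ∈ Qb (KW p k) ∧
      ∀ σ : Qb (KW p k) →+* ℂ, ∃ r : ℝ, 0 < r ∧ sg σ (Wu φ BB χ u) = (r : ℂ) := by
  have := Fintype.ofFinite A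
  obtain ⟨c, hc⟩ := exists_lbH h ((hr _).2 ⟨u, rfl⟩)
  have hc' : LbH (cq φ (Subgroup.zpowers u)) i c := by rw [cq_zp]; exact hc
  have h1 := wf_pos (φ := φ) h (Ku.ndvd h.root) hBc hr hχ (Subgroup.mem_zpowers u)
    (cq_zp u).symm hc' (hB _ c hc')
  rw [cq_zp] at h1
  exact h1

theorem wu_inv (h : Src p b D f i) (hr : ∀ x, x ∈ D ↔ ∃ t, φ t = x) (hB : BBok φ i BB)
    (χ : Ir (KW p k) A) {α : MulAut T} (hα : α ∈ EG φ D f) (u : T) :
    Wu φ BB χ (α u) = Wu φ BB χ u := by
  obtain ⟨g, hg, hgt⟩ := mem_EG.1 hα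
  obtain ⟨c, hc⟩ := exists_lbH h ((hr _).2 ⟨u, rfl⟩)
  obtain ⟨c', hc'⟩ := exists_lbH h ((hr _).2 ⟨α u, rfl⟩)
  have hx : φ (α u) * g = g * φ u := by rw [hgt, inv_mul_cancel_right]
  have h1 := cj_lb h ((hr _).2 ⟨u, rfl⟩) hg hx hc' hc
  exact wf_conj hx hc.blk (hB.c1 u c hc) (by rw [h1]; exact hB.c1 _ c' hc')
    (ch_conj χ) (ch_conj χ)

/-- **the sum of the contributions of a character in the block** -/
theorem zz_of (h : Src p b D f i) (hφ : Function.Injective φ) (hr : ∀ x, x ∈ D ↔ ∃ t, φ t = x)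
    (hB : BBok φ i BB) {B : MonoidAlgebra (OW p k) A} (hBc : CenL b B) {χ : Ir (KW p k) A}
    (hχ : chO χ B ≠ 0) {l : T →* (KW p k)ˣ} (hl : ∀ α ∈ EG φ D f, ∀ u, l (α u) = l u)
    {z : T} (hlz : l z ≠ 1)
    (hV : PI p (∑ u, (l u : KW p k) * FF φ D f BB ⊥ (ch χ) (ch χ) u)) :
    ∑ u, (l u : KW p k) * FF φ D f BB ⊥ (ch χ) (ch χ) u = 0 := by
  classical
  have := Fintype.ofFinite A
  have hfin : Finite ↥(EG φ D f) := finite_EG
  have hpE : ¬ p ∣ Nat.card ↥(EG φ D f) := by
    rw [card_EG hφ hr]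
    exact Ku.ndvd h.root
  set e := Nat.card ↥(EG φ D f) with he
  have he0 : (e : KW p k) ≠ 0 := Nat.cast_ne_zero.2 fun h0 => hpE (h0 ▸ dvd_zero p)
  let cu : T → ℕ := fun u => Nat.card {α : ↥(EG φ D f) // (α : MulAut T) u = u}
  have hcu : ∀ u, 0 < cu u := by
    intro u
    have : Nonempty {α : ↥(EG φ D f) // (α : MulAut T) u = u} := ⟨⟨1, rfl⟩⟩
    exact Nat.card_pos
  have hFF : ∀ u, FF φ D f BB ⊥ (ch χ) (ch χ) u = (cu u : KW p k) * Wu φ BB χ u := by
    intro u
    rw [FF_bot hφ, eQ_zp]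
    rfl
  -- the sum over the orbits
  obtain ⟨y, hy1, hy2⟩ := orb_int (EG φ D f) (F := fun u => (l u : KW p k) * Wu φ BB χ u)
    (fun α hα u => by
      rw [hl α hα, wu_inv h hr hB χ hα])
    (P := fun x => AI (((ordProj[p] (Nat.card A) : ℕ) : KW p k) * x))
    (by rw [mul_zero]; exact AI.zero) (fun x y hx hy => by rw [mul_add]; exact hx.add hy)
    (fun u => by
      rw [mul_left_comm]
      exact (AI.vir (chr_mem l) u).mul (wu_int h hr hB χ u))
  have hS : ∑ u, (l u : KW p k) * FF φ D f BB ⊥ (ch χ) (ch χ) u = (e : KW p k) * y := by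
    rw [← hy2]
    refine Finset.sum_congr rfl fun u _ => ?_
    rw [hFF]
    change _ = (cu u : KW p k) * _
    ring
  rw [hS] at hV ⊢
  -- integrality
  have hyi : AI y := by
    obtain ⟨m, hm, hm'⟩ := (PI.inv_nat (K := KW p k) hpE).mul hV
    rw [inv_mul_cancel_left₀ he0] at hm'
    refine AI.of_coprime (m := m) (a := ordProj[p] (Nat.card A)) ?_ hm' hy1
    refine Nat.Coprime.pow_right _ ?_
    rw [Nat.coprime_comm, (Fact.out : p.Prime).coprime_iff_not_dvd]
    exact hm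
  -- the embeddings
  have hl1 : ∀ u, (l u : KW p k) ^ Fintype.card T = 1 := by
    intro u
    rw [← Units.val_pow_eq_pow_val, ← map_pow, pow_card_eq_one, map_one, Units.val_one]
  have hc0 : Fintype.card T ≠ 0 := Fintype.card_ne_zero
  have hlm : ∀ u, (l u : KW p k) ∈ Qb (KW p k) := fun u => mem_Qb_of_int (int_root hc0 (hl1 u))
  have hyQ : y ∈ Qb (KW p k) := mem_Qb_of_int hyi
  have hort : ∑ u, (cu u : KW p k) * Wu φ BB χ u = (e : KW p k) := by
    have h1 := ort h hφ hr (BB := BB) (fun u c hc => hB.c1 u c hc) (YGAux.ch_mem_VA hBc hχ)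
      (YGAux.ch_mem_VA hBc hχ)
    rw [ip_ch, if_pos rfl, mul_one] at h1
    rw [← h1]
    refine Finset.sum_congr rfl fun u _ => ?_
    rw [eQ_zp]
    rfl
  have hy0 : y = 0 := by
    refine zero_of_sg hyi fun σ => ?_
    choose r hr0 hr1 using fun u => (wu_pos h hr hB hBc hχ u).2 σ
    have hWm : ∀ u, Wu φ BB χ u ∈ Qb (KW p k) := fun u => (wu_pos h hr hB hBc hχ u).1
    have h1 : ∑ u, (cu u : ℝ) * r u = (e : ℝ) := by
      have h2 := congrArg (sg σ) hort
      rw [sg_natCast, sg_sum _ fun u _ => mul_mem (natCast_mem_Qb _) (hWm u)] at h2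
      have h3 : ∑ u, sg σ ((cu u : KW p k) * Wu φ BB χ u) = ∑ u, (((cu u : ℝ) * r u : ℝ) : ℂ) := by
        refine Finset.sum_congr rfl fun u _ => ?_
        rw [sg_mul (natCast_mem_Qb _) (hWm u), sg_natCast, hr1]
        push_cast
        rfl
      rw [h3, ← Complex.ofReal_sum] at h2
      exact_mod_cast h2
    have h2 : (e : ℂ) * sg σ y = ∑ u, sg σ (l u : KW p k) * (((cu u : ℝ) * r u : ℝ) : ℂ) := by
      rw [← sg_natCast (σ := σ) e, ← sg_mul (natCast_mem_Qb _) hyQ, ← hS,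
        sg_sum _ fun u _ => mul_mem (hlm u) (by
          rw [hFF]; exact mul_mem (natCast_mem_Qb _) (hWm u))]
      refine Finset.sum_congr rfl fun u _ => ?_
      rw [hFF, sg_mul (hlm u) (mul_mem (natCast_mem_Qb _) (hWm u)),
        sg_mul (natCast_mem_Qb _) (hWm u), sg_natCast, hr1]
      push_cast
      rfl
    have h3 := norm_sum_lt (w := fun u => (cu u : ℝ) * r u)
      (fun u => mul_pos (by exact_mod_cast hcu u) (hr0 u)) (c := fun u => sg σ (l u : KW p k))
      (fun u => norm_sg_root hc0 (hl1 u)) (i := 1) (j := z)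
      (by
        rw [map_one, Units.val_one, sg_one])
      (fun h4 => hlz (by
        rw [← sg_one (K := KW p k) (σ := σ)] at h4
        exact Units.ext (sg_inj (hlm z) (one_mem _) h4)))
    rw [← h2, h1, norm_mul, Complex.norm_natCast] at h3
    have h4 : (0 : ℝ) < e := by
      have h5 : e ≠ 0 := fun h0 => hpE (h0 ▸ dvd_zero p)
      exact_mod_cast Nat.pos_of_ne_zero h5
    by_contra h5
    rw [not_lt] at h5
    have h6 : (e : ℝ) * 1 ≤ (e : ℝ) * ‖sg σ y‖ := mul_le_mul_of_nonneg_left h5 h4.le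
    rw [mul_one] at h6
    exact absurd h3 (not_lt.2 h6)
  rw [hy0, mul_zero]

end

end Pool.Agent.Lib.P0c8ca5.Ex.WZ
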