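import Mathlib
import Pool.Agent.Lib.P0c8ca5Ex.WXd
import Pool.Agent.Lib.P0c8ca5Ex.WVh
import Pool.Agent.Lib.P0c8ca5Ex.WZc
import Pool.Agent.Lib.P0c8ca5Ex.WYc

/-!
# WXe: the reduction to the centralizer of a fixed element of the defect group

`wat`: `l(b) = l(b_z)` for an element `z` of the abelian defect group fixed by the inertial quotient;
`wat_root`: the same for `Root`.
-/

set_option linter.unusedSectionVars false

namespace Pool.Agent.Lib.P0c8ca5.Ex.WX

open MonoidAlgebra Bq LocAux YuAux YTaAux YmAux WV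

universe u v w

section
variable {p : ℕ} [Fact p.Prime] {k : Type v} [Field k] [IsAlgClosed k] [CharP k p]
  {A : Type u} [Group A] [Finite A] {T : Type w} [CommGroup T] [Fintype T]
  {φ : T →* A} {b f i : MonoidAlgebra k A} {D : Subgroup A}

theorem zzAt : ZzAt p k T A := by
  intro φ b f i D h hφ hr BB hBB B hB χ hχ z _ l hl hlz
  exact WZ.zz_of h hφ hr hBB hB hχ hl hlz (virt h hφ hr hBB (ch_mem χ) (ch_mem χ) l)

theorem rkAt (G : Type u) [Group G] [Finite G] : RkAt p k G := fun _ _ hc hC => WU.rk_l hc hC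

variable (p k T A) in
theorem watAt : WatAt p k T A :=
  wat_of (fun A _ _ => van_of (zzAt (p := p) (k := k) (A := A)) fun G _ _ => rkAt G) A

/-- **the number of simple modules of `b` and of the block of the centralizer of an element of `D`
fixed by the inertial quotient** -/
theorem wat (h : Src p b D f i) (hφ : Function.Injective φ) (hr : ∀ x, x ∈ D ↔ ∃ t, φ t = x)
    {z : T} (hz : ∀ α ∈ EG φ D f, α z = z) {c : MonoidAlgebra k A} (hc : LbH (C1 (φ z)) i c) :
    Nat.card (IrX (C1 (φ z)) c) = Nat.card (IrX (⊤ : Subgroup A) b) :=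
  watAt p k A T φ b f i D h hφ hr z hz c hc

theorem wat_root (h : Root p b D f) (hi : Src p b D f i) {z : A} (hz : z ∈ D)
    (hzE : ∀ g ∈ St D f, g * z = z * g) {c : MonoidAlgebra k A} (hc : LbH (C1 z) i c) :
    Nat.card (IrX (C1 z) c) = Nat.card (IrX (⊤ : Subgroup A) b) :=
  wat_root_of (fun T _ _ => watAt p k A T) h hi hz hzE hc

end

end Pool.Agent.Lib.P0c8ca5.Ex.WX
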