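import Mathlib
import Pool.Agent.Lib.P0c8ca5Ex.WQe
import Pool.Agent.Lib.P0c8ca5Ex.WGa
import Pool.Agent.Lib.P0c8ca5Ex.WXe

/-!
# Ex.WQf: the steps of the reduction

* `sim_sub`: the actions for `D ≤ C(z)` in `A` and in `C(z)`;
* `step_all`: for `z ∈ D`, `z ≠ 1`, centralized by `St D f`, there is a smaller similar block with the same gap: the block of
  `C(z)` if `C(z) ≠ A`, the quotient by `z` if `C(z) = A`.
-/

set_option autoImplicit false
set_option linter.unusedSectionVars false

namespace Pool.Agent.Lib.P0c8ca5.Ex.WQ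

open MonoidAlgebra Ku

universe u v

section
variable {p : ℕ} [Fact p.Prime] {k : Type v} [Field k] [CharP k p] [IsAlgClosed k]
  {A : Type u} [Group A] [Fintype A] {Z D : Subgroup A} {b f : MonoidAlgebra k A}

/-- the actions in a subgroup that contains `D` and `W` -/
theorem sim_sub {H W : Subgroup A} (hDH : D ≤ H) (hWH : W ≤ H)
    (hc : Cop p (D.subgroupOf H) (W.subgroupOf H)) :
    Nonempty (Sim D W (D.subgroupOf H) (W.subgroupOf H)) := by
  have : Nonempty (Sim (D.subgroupOf H) (W.subgroupOf H) D W) := by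
    refine Sim.ofHom (p := p) H.subtype hc ?_ ?_ ?_ ?_
    · intro x
      constructor
      · intro hx
        exact ⟨⟨x, hDH hx⟩, Subgroup.mem_subgroupOf.2 hx, rfl⟩
      · rintro ⟨y, hy, rfl⟩
        exact Subgroup.mem_subgroupOf.1 hy
    · intro x _ hx g _
      have h1 : x = 1 := Subtype.ext hx
      rw [h1, mul_one, one_mul]
    · intro g hg
      exact ⟨g, Subgroup.mem_subgroupOf.1 hg, fun u _ => rfl⟩
    · intro g hg
      exact ⟨⟨g, hWH hg⟩, Subgroup.mem_subgroupOf.2 hg, fun u _ => rfl⟩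
  obtain ⟨s⟩ := this
  exact ⟨s.symm fun g hg x hx => cmW_inv hc.inv hg hx⟩

/-- **the step** -/
theorem step_all (hp2 : p ≠ 2) (h : Root p b D f) {z : A} (hz : z ∈ D) (hz1 : z ≠ 1)
    (hzE : ∀ g ∈ St D f, g * z = z * g) : Step p k b f D := by
  classical
  by_cases hC : C1 z = ⊤
  · refine step_quo (Z := Subgroup.zpowers z) ?_ (Subgroup.zpowers_le.2 hz) ?_ h
    · intro y hy g
      obtain ⟨n, rfl⟩ := Subgroup.mem_zpowers_iff.1 hy
      have h1 : g ∈ C1 z := by
        rw [hC]
        exact Subgroup.mem_top g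
      rw [mem_C1'] at h1
      exact ((Commute.zpow_left (show Commute z g from h1) n).eq)
    · rw [Ne, Subgroup.zpowers_eq_bot]
      exact hz1
  · let _ : Fintype ↥(C1 z) := Fintype.ofFinite _
    obtain ⟨c, hcb, hbc, h1, h2, h3⟩ := WG.gap_red hp2 h hz hzE
      (fun i c hi hc => WX.wat_root h hi hz hzE hc)
    refine ⟨↥(C1 z), inferInstance, inferInstance, dn (C1 z) c, dn (C1 z) f, D.subgroupOf (C1 z),
      ?_, h1, h3.symm, ?_⟩
    · refine lt_of_le_of_ne (Subgroup.card_le_card_group _) fun h4 => hC ?_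
      exact Subgroup.eq_top_of_card_eq _ h4
    · have h4 := cop_root h1
      rw [h2] at h4 ⊢
      exact sim_sub (WG.D_le_C1 h hz) (WG.St_le_C1 hzE) h4

end

end Pool.Agent.Lib.P0c8ca5.Ex.WQ
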