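import Mathlib
import Pool.Agent.Lib.P0c8ca5Ex.WQt

/-!
# WQu: central quotients, `[D, E]` and the stabilizers of its elements

`Z ≤ D` central in `A`, hence `Z ∩ [D, E] = 1` (hypothesis `hfix`).  The map `[D, E] → [D / Z, E']` is an isomorphism, compatible with the stabilizers.
-/

set_option autoImplicit false
set_option linter.unusedSectionVars false

namespace Pool.Agent.Lib.P0c8ca5.Ex.WQ

open MonoidAlgebra Kq

universe u v

section
variable {p : ℕ} [Fact p.Prime] {k : Type v} [Field k] [IsAlgClosed k] [CharP k p]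
variable {A : Type u} [Group A] [Fintype A] {b f : MonoidAlgebra k A} {D Z : Subgroup A}
variable {f' : MonoidAlgebra k (NQ Z)}

theorem cmD_leD {D' : Subgroup A} {f₁ : MonoidAlgebra k A} : Ku.cmD D' f₁ ≤ D' := by
  unfold Ku.cmD
  rw [Subgroup.closure_le]
  rintro w ⟨g, hg, u, hu, rfl⟩
  exact D'.mul_mem (D'.inv_mem hu) ((Subgroup.mem_normalizer_iff.1 hg.1 u).1 hu)

/-- `[D, E]` is normalized by the stabilizer -/
theorem cmD_conj {D' : Subgroup A} {f₁ : MonoidAlgebra k A} {g x : A} (hg : g ∈ St D' f₁)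
    (hx : x ∈ Ku.cmD D' f₁) : g * x * g⁻¹ ∈ Ku.cmD D' f₁ := by
  have h1 : Ku.cmD D' f₁ ≤ (Ku.cmD D' f₁).comap (MulAut.conj g).toMonoidHom := by
    conv_lhs => unfold Ku.cmD
    rw [Subgroup.closure_le]
    rintro w ⟨y, hy, u, hu, rfl⟩
    refine Subgroup.subset_closure ⟨g * y * g⁻¹, Subgroup.mul_mem _ (Subgroup.mul_mem _ hg hy) (Subgroup.inv_mem _ hg),
      g * u * g⁻¹, (Subgroup.mem_normalizer_iff.1 hg.1 u).1 hu, ?_⟩
    change g * (u⁻¹ * (y * u * y⁻¹)) * g⁻¹ = _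
    group
  exact h1 hx

variable (hz : ∀ z ∈ Z, ∀ g : A, z * g = g * z) (hfix : ∀ x ∈ Ku.cmD D f, x ∈ Z → x = 1)

include hfix in
theorem qc_inj {x y : A} (hx : x ∈ Ku.cmD D f) (hy : y ∈ Ku.cmD D f) (h : qc hz x = qc hz y) : x = y := by
  rw [qc_eq_iff] at h
  have h1 := hfix _ (Subgroup.mul_mem _ (Subgroup.inv_mem _ hx) hy) h
  exact (inv_mul_eq_one.1 h1)

include hfix in
/-- the stabilizers of the elements of `[D, E]` -/
theorem stab_quo {g x u : A} (hg : g ∈ St D f) (hx : ∀ d ∈ D, x * d * x⁻¹ * d⁻¹ ∈ Z) (hu : u ∈ Ku.cmD D f) :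
    qc hz (g * x) * qc hz u = qc hz u * qc hz (g * x) ↔ g * u = u * g := by
  have h1 := conj_quo (g := g) hz (hx u (cmD_leD hu))
  constructor
  · intro h
    rw [h, mul_inv_cancel_right] at h1
    have h2 := qc_inj hz hfix hu (cmD_conj hg hu) h1
    have h3 : g * u * g⁻¹ * g = u * g := by rw [← h2]
    rwa [inv_mul_cancel_right] at h3
  · intro h
    rw [h, mul_inv_cancel_right] at h1
    exact mul_inv_eq_iff_eq_mul.1 h1

include hfix in
/-- `[D, E]` and `[D / Z, E']` are isomorphic -/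
theorem exists_equiv (hS : StOk D Z f f') :
    ∃ e : ↥(Ku.cmD D f) ≃* ↥(Ku.cmD (sec D Z) f'), ∀ x, ((e x : ↥(Ku.cmD (sec D Z) f')) : NQ Z) = qc hz x := by
  have hm : ∀ x : ↥(Ku.cmD D f), qc hz x ∈ Ku.cmD (sec D Z) f' := by
    intro x
    rw [cmD_quo hz hS, sec_map hz]
    exact ⟨x, x.2, rfl⟩
  let π : ↥(Ku.cmD D f) →* ↥(Ku.cmD (sec D Z) f') :=
    { toFun := fun x => ⟨qc hz x, hm x⟩
      map_one' := rfl
      map_mul' := fun _ _ => rfl }
  refine ⟨MulEquiv.ofBijective π ⟨?_, ?_⟩, fun x => rfl⟩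
  · intro x y hxy
    exact Subtype.ext (qc_inj hz hfix x.2 y.2 (congrArg Subtype.val hxy))
  · rintro ⟨w, hw⟩
    have hw' := hw
    rw [cmD_quo hz hS, sec_map hz] at hw'
    obtain ⟨x, hx, rfl⟩ := hw'
    exact ⟨⟨x, hx⟩, rfl⟩

end

end Pool.Agent.Lib.P0c8ca5.Ex.WQ
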