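import Mathlib
import Pool.Agent.Lib.P0c8ca5Kk.Kzd
import Pool.Agent.Lib.P0c8ca5Ku.Lm

/-!
# WRa: the action of the elements of a maximal pair on `P ∩ G`

`G` is normal in `A`, `A / G` a p-group, `e` a block of `G` which is invariant under `A`, `(P, f)` a maximal pair of `e` in
`A`, `P ∩ G` is abelian.

* `dfg_inf`: `P ∩ G` is a defect group of `e` in `G`.
* `cover_stable`: there is a block `c` of `C(P ∩ G)` below `e` which is fixed by all elements of `St P f`.
* `act_G`: there is a block `f₁` of `C_G(P ∩ G)` below `e` such that every element of `St P f` whose action on `P ∩ G` has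
  order prime to `p` acts on `P ∩ G` like an element of `G ∩ St (P ∩ G) f₁`.
-/

set_option autoImplicit false
set_option linter.unusedSectionVars false

namespace Pool.Agent.Lib.P0c8ca5.Ex.WR

open MonoidAlgebra Rk Kk KgAux KxAux KxaAux KxbAux KybAux KzcAux FinAux

universe u v

section
variable {p : ℕ} {k : Type v} [Field k] {A : Type u} [Group A] [Fintype A]
variable [Fact p.Prime] [CharP k p] [IsAlgClosed k]
variable {b c e f d : MonoidAlgebra k A} {G H P D X : Subgroup A}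

/-- the Brauer map of a conjugate by an element of `P` -/
theorem resS_cj_self {g : A} (hg : g ∈ P) (a : MonoidAlgebra k A) :
    resS (CD P : Set A) (cj g a) = resS (CD P : Set A) a := by
  ext x
  by_cases hx : x ∈ (CD P : Set A)
  · rw [coeff_resS_of_mem _ hx, coeff_resS_of_mem _ hx, coeff_cj]
    congr 1
    have h1 := Subgroup.mem_centralizer_iff.1 hx g hg
    rw [mul_assoc, ← h1, inv_mul_cancel_left]
  · rw [coeff_resS_of_notMem _ hx, coeff_resS_of_notMem _ hx]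

/-- **stable blocks** -/
theorem exists_stable {E₀ : MonoidAlgebra k A} (hP : IsPGroup p P)
    (hPX : P ≤ Subgroup.normalizer (X : Set A)) (hE : E₀ ∈ fixAlg k X X) (hEE : E₀ * E₀ = E₀)
    (hEP : InvBy P E₀) (hef : resS (CD P : Set A) E₀ * f = f) (hf0 : f ≠ 0) :
    ∃ c, IsBlock X c ∧ c * E₀ = c ∧ InvBy P c ∧ resS (CD P : Set A) c * f ≠ 0 := by
  classical
  have hfin : {c : MonoidAlgebra k A | IsBlock X c ∧ c * E₀ ≠ 0}.Finite :=
    (finite_isBlock X).subset fun c hc => hc.1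
  have hB : ∀ c, c ∈ hfin.toFinset ↔ IsBlock X c ∧ c * E₀ ≠ 0 := fun c => by
    rw [Set.Finite.mem_toFinset]
    exact Iff.rfl
  have hsum := WSumAux.sum_blocks (p := p) hE hEE hfin.toFinset hB
  -- the action of `P`
  have hmem : ∀ g ∈ P, ∀ c ∈ hfin.toFinset, cj g c ∈ hfin.toFinset := by
    intro g hg c hc
    obtain ⟨h1, h2⟩ := (hB c).1 hc
    refine (hB _).2 ⟨?_, fun h3 => h2 ?_⟩
    · have h4 := isBlock_cg h1 g
      rwa [cg_eq_self_iff.2 (hPX hg)] at h4
    · have h4 := invBy_iff_cj.1 hEP g hg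
      have h5 : cj g (c * E₀) = 0 := by rw [cj_mul, h4, h3]
      have h6 := congrArg (cj g⁻¹) h5
      rwa [cj_inv_cj, cj_zero] at h6
  let φ : ↥P →* Equiv.Perm ↥hfin.toFinset :=
    { toFun := fun g =>
        { toFun := fun c => ⟨cj (g : A) c, hmem g g.2 c c.2⟩
          invFun := fun c => ⟨cj (g : A)⁻¹ c, hmem _ (P.inv_mem g.2) c c.2⟩
          left_inv := fun c => Subtype.ext (cj_inv_cj _ _)
          right_inv := fun c => Subtype.ext (cj_cj_inv _ _) }
      map_one' := by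
        ext1 c
        exact Subtype.ext (cj_one_left _)
      map_mul' := fun g h => by
        ext1 c
        exact Subtype.ext (cj_cj _ _ _).symm }
  by_contra hcon
  push Not at hcon
  apply hf0
  have key : resS (CD P : Set A) E₀ * f = 0 := by
    rw [← hsum, resS_sum, Finset.sum_mul]
    ext a
    rw [coeff_sum, Finsupp.finsetSum_apply]
    have h1 : ∑ c ∈ hfin.toFinset, (resS (CD P : Set A) c * f).coeff a
        = ∑ c : ↥hfin.toFinset, (resS (CD P : Set A) (c : MonoidAlgebra k A) * f).coeff a :=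
      (Finset.sum_coe_sort hfin.toFinset fun c => (resS (CD P : Set A) c * f).coeff a).symm
    rw [h1, sum_eq_sum_fixed (p := p) hP φ
      (fun c => (resS (CD P : Set A) (c : MonoidAlgebra k A) * f).coeff a) (fun g c => by
        change (resS (CD P : Set A) (cj (g : A) (c : MonoidAlgebra k A)) * f).coeff a = _
        rw [resS_cj_self g.2])
      (Finset.univ.filter fun c => ∀ g, φ g c = c) (fun c => by simp)]
    rw [Finset.sum_eq_zero]
    · simp
    · intro c hc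
      obtain ⟨h2, h3⟩ := (hB c).1 c.2
      have h4 : InvBy P (c : MonoidAlgebra k A) := by
        rw [invBy_iff_cj]
        intro g hg
        exact congrArg Subtype.val ((Finset.mem_filter.1 hc).2 ⟨g, hg⟩)
      have h5 : (c : MonoidAlgebra k A) * E₀ = c := by
        rw [commute_of h2.suppIn (mem_fixAlg.1 hE).2] at h3 ⊢
        exact (h2.mul_eq hE hEE).resolve_left h3
      rw [hcon c h2 h5 h4]
      simp
  rw [← hef, key]

/-- elements of `St P f` normalize `P ∩ G` -/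
theorem norm_inf (hG : G.Normal) {y : A} (hy : y ∈ Subgroup.normalizer (P : Set A)) :
    y ∈ Subgroup.normalizer ((P ⊓ G : Subgroup A) : Set A) := by
  rw [← cg_eq_self_iff] at hy ⊢
  rw [cg_inf, hy, cg_eq_self_iff.2 (mem_norm_of_normal G y)]

/-- **`P ∩ G` is a defect group of `e` in `G`** -/
theorem dfg_inf (hG : G.Normal) (hp : ∀ x : A, ∃ n : ℕ, x ^ p ^ n ∈ G) (he : IsBlock G e)
    (hinv : InvBy ⊤ e) (hP : IsDefectGroup p (⊤ : Subgroup A) e P) :
    IsDefectGroup p G e (P ⊓ G) := by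
  have heT : IsBlock (⊤ : Subgroup A) e := isBlock_up' le_top
    (fun x _ => mem_norm_of_normal G x) (fun x _ => hp x) he hinv
  have hbr : HasBr (P ⊓ G) e := by
    obtain ⟨x, hx, hxe⟩ := hP.br
    exact ⟨x, Subgroup.centralizer_le (inf_le_left : P ⊓ G ≤ P) hx, hxe⟩
  obtain ⟨D', hD', hle⟩ := exists_defect (p := p) (N := G) (P := P ⊓ G) inf_le_right
    (hP.isPGroup.to_le inf_le_left) hbr
  obtain ⟨P', hP', hDP'⟩ := exists_defect (p := p) (N := ⊤) le_top hD'.isPGroup hD'.br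
  obtain ⟨g, rfl⟩ := defect_conj heT hP hP'
  have h1 : P ⊓ G = D' := by
    apply Subgroup.eq_of_le_of_card_ge hle
    have h2 : D' ≤ cg g (P ⊓ G) := by
      rw [cg_inf, cg_eq_self_iff.2 (mem_norm_of_normal G g)]
      exact le_inf hDP' hD'.le
    exact (Subgroup.card_le_of_le h2).trans (card_cg g _).le
  rw [h1]
  exact hD'

/-- **a block of `C(P ∩ G)` which is fixed by the stabilizer of the maximal pair** -/
theorem cover_stable (hG : G.Normal) (hinv : InvBy ⊤ e) (hee : e * e = e) (hP : IsPGroup p P)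
    (hf : IsBlock (CD P) f) (hef : resS (CD P : Set A) e * f = f) :
    ∃ c, IsBlock (CD (P ⊓ G)) c ∧ resS (CD (P ⊓ G) : Set A) e * c = c ∧
      ∀ y ∈ St P f, cj y c = c := by
  have hDP : P ⊓ G ≤ P := inf_le_left
  have hDp : IsPGroup p (P ⊓ G : Subgroup A) := hP.to_le hDP
  have hnX : ∀ y ∈ Subgroup.normalizer (P : Set A),
      cg y (CD (P ⊓ G)) = CD (P ⊓ G) := by
    intro y hy
    rw [FuAux.cg_CD, cg_eq_self_iff.2 (norm_inf hG hy)]
  have hPX : P ≤ Subgroup.normalizer ((CD (P ⊓ G) : Subgroup A) : Set A) := fun y hy =>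
    cg_eq_self_iff.1 (hnX y (Subgroup.le_normalizer hy))
  have hCX : CD P ≤ CD (P ⊓ G) := Subgroup.centralizer_le hDP
  have hinvE : InvBy (Subgroup.normalizer ((P ⊓ G : Subgroup A) : Set A))
      (resS (CD (P ⊓ G) : Set A) e) := invBy_res (hinv.mono le_top) le_rfl
  have hE : resS (CD (P ⊓ G) : Set A) e ∈ fixAlg k (CD (P ⊓ G)) (CD (P ⊓ G)) :=
    mem_fixAlg.2 ⟨fun x hx => by
      by_contra h0
      exact hx (coeff_resS_of_notMem _ h0), hinvE.mono (Subgroup.centralizer_le_normalizer _)⟩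
  have hEE : resS (CD (P ⊓ G) : Set A) e * resS (CD (P ⊓ G) : Set A) e
      = resS (CD (P ⊓ G) : Set A) e := by
    rw [← resS_mul hDp (hinv.mono le_top) (hinv.mono le_top), hee]
  have hEP : InvBy P (resS (CD (P ⊓ G) : Set A) e) := hinvE.mono fun y hy =>
    norm_inf hG (Subgroup.le_normalizer hy)
  have hef' : resS (CD P : Set A) (resS (CD (P ⊓ G) : Set A) e) * f = f := by
    rw [resS_resS_le hDP, hef]
  obtain ⟨c, hc, hcE, hcP, hcf⟩ := exists_stable hP hPX hE hEE hEP hef' hf.ne_zero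
  refine ⟨c, hc, ?_, fun y hy => ?_⟩
  · rw [← commute_of hc.suppIn (mem_fixAlg.1 hE).2]
    exact hcE
  -- uniqueness
  have huniq : ∀ c', IsBlock (CD (P ⊓ G)) c' → InvBy P c' →
      resS (CD P : Set A) c' * f ≠ 0 → c' = c := by
    intro c' hc' hcP' hcf'
    rcases hc'.eq_or_mul_eq_zero hc with h | h
    · exact h
    exfalso
    have hbl : ∀ c'', IsBlock (CD (P ⊓ G)) c'' → InvBy P c'' →
        resS (CD P : Set A) c'' * f ≠ 0 → resS (CD P : Set A) c'' * f = f := by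
      intro c'' h1 h2 h3
      have h4 : resS (CD P : Set A) c'' ∈ fixAlg k (CD P) (CD P) :=
        mem_fixAlg.2 ⟨fun x hx => by
          by_contra h0
          exact hx (coeff_resS_of_notMem _ h0), invBy_res (h1.invBy.mono hCX)
            (Subgroup.centralizer_le_normalizer _)⟩
      have h5 : resS (CD P : Set A) c'' * resS (CD P : Set A) c''
          = resS (CD P : Set A) c'' := by
        rw [← resS_mul hP h2 h2, h1.idem]
      exact (hf.mul_eq h4 h5).resolve_left h3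
    have h1 := hbl c' hc' hcP' hcf'
    have h2 := hbl c hc hcP hcf
    apply hf.ne_zero
    have h3 : resS (CD P : Set A) c' * resS (CD P : Set A) c = 0 := by
      rw [← resS_mul hP hcP' hcP, h, resS_zero]
    calc f = resS (CD P : Set A) c' * (resS (CD P : Set A) c * f) := by rw [h2, h1]
      _ = 0 := by rw [← mul_assoc, h3, zero_mul]
  have hyN : y ∈ Subgroup.normalizer (P : Set A) := hy.1
  have hyf : cj y f = f := hy.2
  apply huniq
  · have h1 := isBlock_cg hc y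
    rwa [hnX y hyN] at h1
  · rw [invBy_iff_cj]
    intro q hq
    have h1 : q * y = y * (y⁻¹ * q * y) := by group
    rw [cj_cj, h1, ← cj_cj, invBy_iff_cj.1 hcP]
    have h2 := (Subgroup.mem_normalizer_iff.1 (Subgroup.inv_mem _ hyN) q).1 hq
    rwa [inv_inv] at h2
  · intro h1
    apply hcf
    have h2 : resS (CD P : Set A) (cj y c) = cj y (resS (CD P : Set A) c) :=
      FmAux.resS_CD_cj hyN c
    rw [h2] at h1
    have h3 : cj y (resS (CD P : Set A) c * f) = 0 := by rw [cj_mul, hyf, h1]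
    have h4 := congrArg (cj y⁻¹) h3
    rwa [cj_inv_cj, cj_zero] at h4

/-- **a block of `C_G(P ∩ G)`** whose conjugates under `St P f` are conjugates under `C(P ∩ G)` -/
theorem exists_below_cover (hG : G.Normal) (hp : ∀ x : A, ∃ n : ℕ, x ^ p ^ n ∈ G)
    (hinv : InvBy ⊤ e) (hee : e * e = e) (hP : IsPGroup p P)
    (hf : IsBlock (CD P) f) (hef : resS (CD P : Set A) e * f = f) :
    ∃ f₁, IsBlock (G ⊓ CD (P ⊓ G)) f₁ ∧ resS (CD (P ⊓ G) : Set A) e * f₁ = f₁ ∧
      ∀ y ∈ St P f, ∃ x ∈ CD (P ⊓ G), cj x f₁ = cj y f₁ := by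
  obtain ⟨c, hc, hec, hst⟩ := cover_stable hG hinv hee hP hf hef
  have hnG : ∀ y : A, cg y G = G := fun y => cg_eq_self_iff.2 (mem_norm_of_normal G y)
  have hnK : ∀ y ∈ Subgroup.normalizer ((P ⊓ G : Subgroup A) : Set A),
      cg y (G ⊓ CD (P ⊓ G)) = G ⊓ CD (P ⊓ G) := by
    intro y hy
    rw [cg_inf, hnG, FuAux.cg_CD, cg_eq_self_iff.2 hy]
  have hX : CD (P ⊓ G) ≤ Subgroup.normalizer ((G ⊓ CD (P ⊓ G) : Subgroup A) : Set A) :=
    fun y hy => cg_eq_self_iff.1 (hnK y (Subgroup.centralizer_le_normalizer _ hy))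
  have hKX : G ⊓ CD (P ⊓ G) ≤ CD (P ⊓ G) := inf_le_right
  have hcK : SuppIn (G ⊓ CD (P ⊓ G)) c := supp_in_of_pQuotient hKX hX (fun x hx => by
    obtain ⟨n, hn⟩ := hp x
    exact ⟨n, Subgroup.mem_inf.2 ⟨hn, Subgroup.pow_mem _ hx _⟩⟩) hc.mem hc.idem
  have hcm : c ∈ fixAlg k (G ⊓ CD (P ⊓ G)) (G ⊓ CD (P ⊓ G)) :=
    mem_fixAlg.2 ⟨hcK, hc.invBy.mono hKX⟩
  obtain ⟨f₁, hf₁, hcf₁⟩ := exists_blk hcm hc.idem hc.ne_zero
  obtain ⟨s, hsK, hsX, hss, hsf, hst'⟩ := conjSumBlk hX hf₁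
  have hsc : s * c = c := by
    rcases hc.mul_eq (mem_fixAlg.2 ⟨hsK.mono hKX, hsX⟩) hss with h | h
    · exfalso
      apply hf₁.ne_zero
      calc f₁ = s * (c * f₁) := by rw [hcf₁, hsf]
        _ = 0 := by rw [← mul_assoc, h, zero_mul]
    · exact h
  refine ⟨f₁, hf₁, ?_, fun y hy => ?_⟩
  · calc resS (CD (P ⊓ G) : Set A) e * f₁ = resS (CD (P ⊓ G) : Set A) e * c * f₁ := by
          rw [mul_assoc, hcf₁]
      _ = f₁ := by rw [hec, hcf₁]
  · have hyN := norm_inf hG hy.1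
    have h1 : IsBlock (G ⊓ CD (P ⊓ G)) (cj y f₁) := by
      have h2 := isBlock_cg hf₁ y
      rwa [hnK y hyN] at h2
    have h2 : c * cj y f₁ = cj y f₁ := by
      have h3 := congrArg (cj y) hcf₁
      rwa [cj_mul, hst y hy] at h3
    have h3 : s * cj y f₁ ≠ 0 := by
      have h4 : s * cj y f₁ = cj y f₁ := by
        calc s * cj y f₁ = s * c * cj y f₁ := by rw [mul_assoc, h2]
          _ = cj y f₁ := by rw [hsc, h2]
      rw [h4]
      exact h1.ne_zero
    obtain ⟨x, hx, hx1⟩ := hst' _ h3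
    refine ⟨x, hx, ?_⟩
    have h4 : IsBlock (G ⊓ CD (P ⊓ G)) (cj x f₁) := by
      have h5 := isBlock_cg hf₁ x
      rwa [hnK x (Subgroup.centralizer_le_normalizer _ hx)] at h5
    exact (h4.eq_or_mul_eq_zero h1).resolve_right hx1

/-- conjugation by powers -/
theorem conj_pow_act {D : Subgroup A} {w y : A}
    (hyD : ∀ v ∈ D, y * v * y⁻¹ ∈ D) (h : ∀ v ∈ D, w * v * w⁻¹ = y * v * y⁻¹) (j : ℕ) :
    ∀ v ∈ D, w ^ j * v * (w ^ j)⁻¹ = y ^ j * v * (y ^ j)⁻¹ ∧ y ^ j * v * (y ^ j)⁻¹ ∈ D := by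
  induction j with
  | zero =>
    intro v hv
    simp [hv]
  | succ n ih =>
    intro v hv
    obtain ⟨h1, h2⟩ := ih v hv
    have e1 : w ^ (n + 1) * v * (w ^ (n + 1))⁻¹ = w * (w ^ n * v * (w ^ n)⁻¹) * w⁻¹ := by
      rw [pow_succ']
      group
    have e2 : y ^ (n + 1) * v * (y ^ (n + 1))⁻¹ = y * (y ^ n * v * (y ^ n)⁻¹) * y⁻¹ := by
      rw [pow_succ']
      group
    rw [e1, e2, h1, h _ h2]
    exact ⟨rfl, hyD _ h2⟩

/-- a power `y ^ j` with `j = 1` modulo the order of the action acts like `y` -/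
theorem pow_act {D : Subgroup A} {y : A} (hyD : ∀ v ∈ D, y * v * y⁻¹ ∈ D) {m j : ℕ}
    (hm : ∀ v ∈ D, y ^ m * v = v * y ^ m) (hj : j ≡ 1 [MOD m]) :
    ∀ v ∈ D, y ^ j * v * (y ^ j)⁻¹ = y * v * y⁻¹ := by
  have hz : ∀ n : ℕ, ∀ v ∈ D, y ^ (m * n) * v * (y ^ (m * n))⁻¹ = v := by
    intro n v hv
    have h1 : Commute (y ^ m) v := hm v hv
    have h2 : Commute (y ^ (m * n)) v := by
      rw [pow_mul]
      exact h1.pow_left n
    rw [h2.eq, mul_inv_cancel_right]
  intro v hv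
  rcases le_total 1 j with h1 | h1
  · obtain ⟨n, hn⟩ := (Nat.modEq_iff_dvd' h1).1 hj.symm
    have h2 : j = 1 + m * n := by omega
    rw [h2, pow_add, pow_one]
    have h3 : y * y ^ (m * n) * v * (y * y ^ (m * n))⁻¹
        = y * (y ^ (m * n) * v * (y ^ (m * n))⁻¹) * y⁻¹ := by group
    rw [h3, hz n v hv]
  · obtain ⟨n, hn⟩ := (Nat.modEq_iff_dvd' h1).1 hj
    interval_cases j
    · have h2 : m * n = 1 := by omega
      have h3 := hz n v hv
      rw [h2, pow_one] at h3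
      simp [h3]
    · rw [pow_one]

/-- **the action of the elements of the stabilizer of the maximal pair on `P ∩ G`** -/
theorem act_G (hG : G.Normal) (hp : ∀ x : A, ∃ n : ℕ, x ^ p ^ n ∈ G)
    (hinv : InvBy ⊤ e) (hee : e * e = e) (hP : IsPGroup p P)
    (hf : IsBlock (CD P) f) (hef : resS (CD P : Set A) e * f = f) :
    ∃ f₁, IsBlock (G ⊓ CD (P ⊓ G)) f₁ ∧ resS (CD (P ⊓ G) : Set A) e * f₁ = f₁ ∧
      ∀ y ∈ St P f, ∀ m : ℕ, ¬ p ∣ m → (∀ v ∈ P ⊓ G, y ^ m * v = v * y ^ m) →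
        ∃ z ∈ G ⊓ St (P ⊓ G) f₁, ∀ v ∈ P ⊓ G, z * v * z⁻¹ = y * v * y⁻¹ := by
  obtain ⟨f₁, h1, h2, h3⟩ := exists_below_cover hG hp hinv hee hP hf hef
  refine ⟨f₁, h1, h2, fun y hy m hpm hm => ?_⟩
  obtain ⟨x, hx, hxy⟩ := h3 y hy
  have hyN := norm_inf hG hy.1
  have hyD : ∀ v ∈ P ⊓ G, y * v * y⁻¹ ∈ P ⊓ G := fun v hv =>
    (Subgroup.mem_normalizer_iff.1 hyN v).1 hv
  set w := x⁻¹ * y with hw
  have hwSt : w ∈ St (P ⊓ G) f₁ := by
    refine ⟨Subgroup.mul_mem _ (Subgroup.inv_mem _ (Subgroup.centralizer_le_normalizer _ hx))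
      hyN, ?_⟩
    change cj (x⁻¹ * y) f₁ = f₁
    rw [← cj_cj, ← hxy, cj_inv_cj]
  have hwy : ∀ v ∈ P ⊓ G, w * v * w⁻¹ = y * v * y⁻¹ := by
    intro v hv
    have h4 := Subgroup.mem_centralizer_iff.1 hx _ (hyD v hv)
    calc w * v * w⁻¹ = x⁻¹ * (y * v * y⁻¹ * x) := by rw [hw]; group
      _ = y * v * y⁻¹ := by rw [h4, inv_mul_cancel_left]
  obtain ⟨n, hn⟩ := hp w
  have hpp : p.Prime := Fact.out
  have hco : Nat.Coprime (p ^ n) m := Nat.Coprime.pow_left n ((hpp.coprime_iff_not_dvd).2 hpm)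
  obtain ⟨j, hj1, hj2⟩ := Nat.chineseRemainder hco 0 1
  obtain ⟨t, ht⟩ := (Nat.modEq_zero_iff_dvd).1 hj1
  refine ⟨w ^ j, Subgroup.mem_inf.2 ⟨?_, Subgroup.pow_mem _ hwSt _⟩, fun v hv => ?_⟩
  · rw [ht, pow_mul]
    exact Subgroup.pow_mem _ hn _
  · rw [(conj_pow_act hyD hwy j v hv).1]
    exact pow_act hyD hm hj2 v hv

end

end Pool.Agent.Lib.P0c8ca5.Ex.WR
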