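import Mathlib
import Pool.Agent.Lib.P0c8ca5Ku.ND

/-!
# WRb: the inertial index of a maximal pair `(P, f)` is prime to `p`, `P` not necessarily abelian

`P` is a defect group of `e` in `X`, `f` a block of `X ⊓ C(P)` below `e`.
* `pel_mem`: the p-elements of `X ⊓ St P f` lie in `P (X ⊓ C(P))`;
* `ind_copX`, `ind_cop`: `p` does not divide `|X ⊓ St P f : P (X ⊓ C(P))|`;
* `pow_cenX`, `pow_cen`: for `y` in `X ⊓ St P f` there is `m`, not divisible by `p`, with `y ^ m` in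
  `P (X ⊓ C(P))`.

The proof is that of `Ku.ndvd`: `M = (X ⊓ C(P)) ⟨g⟩` fixes `f`, so there is a p-subgroup `P'` with
`(X ⊓ C(P)) P' = M` and nonzero Brauer image of `f`; `Q = P' P` is a p-group with nonzero Brauer image
of `f`, hence of `e`, so `Q = P`.
-/

set_option autoImplicit false
set_option linter.unusedSectionVars false

namespace Pool.Agent.Lib.P0c8ca5.Ex.WRb

open MonoidAlgebra Ex JdAux Ku NDAux

universe u v

section
variable {p : ℕ} {k : Type v} [Field k] {A : Type u} [Group A] [Fintype A]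
variable [Fact p.Prime] [CharP k p] [IsAlgClosed k]
variable {e f : MonoidAlgebra k A} {P X : Subgroup A}

/-- the p-elements of the inertial group -/
theorem pel_mem (hes : SuppIn X e) (hinv : InvBy X e) (hP : IsDefectGroup p X e P)
    (hf : IsBlock (X ⊓ CD P) f) (hef : resS (CD P : Set A) e * f = f) {g : A} (hgX : g ∈ X)
    (hg : g ∈ St P f) {n : ℕ} (hn : g ^ p ^ n = 1) : g ∈ P ⊔ X ⊓ CD P := by
  have hPX : P ≤ X := hP.le
  have hSN : St P f ≤ Subgroup.normalizer (P : Set A) := fun x hx => hx.1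
  have hXS : X ⊓ St P f ≤ Subgroup.normalizer ((X ⊓ CD P : Subgroup A) : Set A) := by
    intro m hm
    have hmX := (Subgroup.mem_inf.1 hm).1
    have hmN := hSN (Subgroup.mem_inf.1 hm).2
    rw [Subgroup.mem_normalizer_iff]
    intro x
    rw [Subgroup.mem_inf, Subgroup.mem_inf, ← conj_CD_iff hmN,
      X.mul_mem_cancel_right (X.inv_mem hmX), X.mul_mem_cancel_left hmX]
  have hCS : X ⊓ CD P ≤ X ⊓ St P f := by
    intro x hx
    refine Subgroup.mem_inf.2 ⟨(Subgroup.mem_inf.1 hx).1, ?_, invBy_iff_cj.1 hf.invBy x hx⟩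
    exact Subgroup.centralizer_le_normalizer _ (Subgroup.mem_inf.1 hx).2
  have hPf : ∀ x ∈ P, cj x f = f := by
    intro x hx
    ext y
    rw [coeff_cj]
    by_cases hy : f.coeff y = 0
    · rw [hy]
      by_contra h0
      have h1 := (Subgroup.mem_inf.1 (hf.suppIn _ h0)).2
      have h2 : x⁻¹ * y * x = y := by
        have h3 := (Subgroup.mem_centralizer_iff.1 h1 x hx)
        have h4 : x * (x⁻¹ * y * x) * x⁻¹ = x⁻¹ * y * x := by
          rw [h3, mul_assoc, mul_inv_cancel, mul_one]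
        have h5 : x * (x⁻¹ * y * x) * x⁻¹ = y := by group
        rw [← h4, h5]
      rw [h2] at h0
      exact h0 hy
    · have h1 := (Subgroup.mem_inf.1 (hf.suppIn y hy)).2
      have h2 : x⁻¹ * y * x = y := by
        rw [mul_assoc, ← Subgroup.mem_centralizer_iff.1 h1 x hx, inv_mul_cancel_left]
      rw [h2]
  have hPS : P ≤ X ⊓ St P f := fun x hx =>
    Subgroup.mem_inf.2 ⟨hPX hx, Subgroup.le_normalizer hx, hPf x hx⟩
  let M : Subgroup A := X ⊓ CD P ⊔ Subgroup.zpowers g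
  have hMS : M ≤ X ⊓ St P f :=
    sup_le hCS (by rw [Subgroup.zpowers_le]; exact Subgroup.mem_inf.2 ⟨hgX, hg⟩)
  have hMC : M ≤ Subgroup.normalizer ((X ⊓ CD P : Subgroup A) : Set A) := hMS.trans hXS
  have hpM : ∀ x ∈ M, ∃ n : ℕ, x ^ p ^ n ∈ X ⊓ CD P := by
    intro x hx
    have hgN : Subgroup.zpowers g ≤ Subgroup.normalizer ((X ⊓ CD P : Subgroup A) : Set A) :=
      le_sup_right.trans hMC
    have hx1 : x ∈ ((X ⊓ CD P ⊔ Subgroup.zpowers g : Subgroup A) : Set A) := hx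
    rw [Subgroup.coe_mul_of_right_le_normalizer_left _ _ hgN] at hx1
    obtain ⟨c, hc, u, hu, rfl⟩ := hx1
    change ∃ n : ℕ, (c * u) ^ p ^ n ∈ X ⊓ CD P
    refine ⟨n, ?_⟩
    have h2 := pow_mod hc (hgN hu) (p ^ n)
    have h3 : u ^ p ^ n = 1 := by
      obtain ⟨j, rfl⟩ := hu
      change (g ^ j) ^ p ^ n = 1
      rw [← zpow_natCast, ← zpow_mul, mul_comm, zpow_mul, zpow_natCast, hn, one_zpow]
    rwa [h3, inv_one, mul_one] at h2
  have hfM : InvBy M f := by
    rw [invBy_iff_cj]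
    intro x hx
    exact (Subgroup.mem_inf.1 (hMS hx)).2.2
  obtain ⟨P', hP'M, hP', hsup, hbr⟩ := exists_br_sup hf hfM le_sup_left hMC hpM
  have hP'S : P' ≤ X ⊓ St P f := hP'M.trans hMS
  have hP'N : P' ≤ Subgroup.normalizer (P : Set A) := hP'S.trans (inf_le_right.trans hSN)
  have hQ : IsPGroup p (P' ⊔ P : Subgroup A) := hP'.to_sup_of_normal_right' hP.isPGroup hP'N
  have hQN : P' ⊔ P ≤ Subgroup.normalizer (P : Set A) := sup_le hP'N Subgroup.le_normalizer
  have hQS : P' ⊔ P ≤ X ⊓ St P f := sup_le hP'S hPS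
  have hbrQ : HasBr (P' ⊔ P) f := by
    obtain ⟨y, hy, hfy⟩ := hbr
    refine ⟨y, ?_, hfy⟩
    have hyC : y ∈ CD P := (Subgroup.mem_inf.1 (hf.suppIn y hfy)).2
    have h2 : P' ⊔ P ≤ Subgroup.centralizer ({y} : Set A) := by
      refine sup_le ?_ ?_
      · intro x hx
        rw [Subgroup.mem_centralizer_iff]
        rintro _ rfl
        exact (Subgroup.mem_centralizer_iff.1 hy x hx).symm
      · intro x hx
        rw [Subgroup.mem_centralizer_iff]
        rintro _ rfl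
        exact (Subgroup.mem_centralizer_iff.1 hyC x hx).symm
    rw [Subgroup.mem_centralizer_iff]
    intro x hx
    exact (Subgroup.mem_centralizer_iff.1 (h2 hx) y rfl).symm
  have hQf : InvBy (P' ⊔ P) f := by
    rw [invBy_iff_cj]
    intro x hx
    exact (Subgroup.mem_inf.1 (hQS hx)).2.2
  have hQb : InvBy (P' ⊔ P) (resS (CD P : Set A) e) :=
    invBy_resS (hinv.mono (hQS.trans inf_le_left)) fun g hg x => conj_CD_iff (hQN hg)
  have hsr : SuppIn (X ⊓ CD P) (resS (CD P : Set A) e) := by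
    intro x hx
    have h1 : x ∈ (CD P : Set A) := by
      by_contra h2
      exact hx (coeff_resS_of_notMem _ h2)
    rw [coeff_resS_of_mem _ h1] at hx
    exact Subgroup.mem_inf.2 ⟨hes x hx, h1⟩
  have hcm : f * resS (CD P : Set A) e = f := by
    have h2 : Commute (resS (CD P : Set A) e) f := commute_of (K := X ⊓ CD P) hsr hf.invBy
    rw [← h2.eq, hef]
  have hbrb : HasBr (P' ⊔ P) (resS (CD P : Set A) e) := hasBr_of_mul hQ hQf hQb hcm hbrQ
  obtain ⟨y, hy, hby⟩ := hbrb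
  have hbry : HasBr (P' ⊔ P) e := by
    refine ⟨y, hy, ?_⟩
    rw [coeff_resS] at hby
    split_ifs at hby with h2
    · exact hby
    · exact absurd rfl hby
  have hmax := hP.max (P' ⊔ P) (hQS.trans inf_le_left) hQ hbry le_sup_right
  have h3 : P' ≤ P := by
    rw [← hmax]
    exact le_sup_left
  have h4 : g ∈ M := (le_sup_right : Subgroup.zpowers g ≤ M) (Subgroup.mem_zpowers _)
  rw [← hsup] at h4
  exact (sup_le le_sup_right (h3.trans le_sup_left) : X ⊓ CD P ⊔ P' ≤ P ⊔ X ⊓ CD P) h4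

/-- **the inertial index is prime to `p`** -/
theorem ind_copX (hes : SuppIn X e) (hinv : InvBy X e) (hP : IsDefectGroup p X e P)
    (hf : IsBlock (X ⊓ CD P) f) (hef : resS (CD P : Set A) e * f = f) :
    ¬ p ∣ (P ⊔ X ⊓ CD P).relIndex (X ⊓ St P f) := by
  intro hdvd
  obtain ⟨S⟩ : Nonempty (Sylow p ↥(X ⊓ St P f)) := inferInstance
  refine S.not_dvd_index (hdvd.trans (Subgroup.index_dvd_of_le fun g hg => ?_))
  rw [Subgroup.mem_subgroupOf]
  obtain ⟨n, hn⟩ : ∃ n : ℕ, (g : A) ^ p ^ n = 1 := by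
    obtain ⟨n, hn⟩ := S.2 ⟨g, hg⟩
    exact ⟨n, congrArg (fun x : (S : Subgroup ↥(X ⊓ St P f)) => ((x : ↥(X ⊓ St P f)) : A)) hn⟩
  exact pel_mem hes hinv hP hf hef (Subgroup.mem_inf.1 g.2).1 (Subgroup.mem_inf.1 g.2).2 hn

/-- powers prime to `p` -/
theorem pow_cenX (hes : SuppIn X e) (hinv : InvBy X e) (hP : IsDefectGroup p X e P)
    (hf : IsBlock (X ⊓ CD P) f) (hef : resS (CD P : Set A) e * f = f) :
    ∀ y ∈ X ⊓ St P f, ∃ m : ℕ, ¬ p ∣ m ∧ y ^ m ∈ P ⊔ X ⊓ CD P := by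
  intro y hy
  have hp := (Fact.out : p.Prime)
  have ho : orderOf y ≠ 0 := (orderOf_pos y).ne'
  obtain ⟨n, m, hm, hnm⟩ := Nat.exists_eq_pow_mul_and_not_dvd ho p hp.ne_one
  refine ⟨m, hm, ?_⟩
  have hym := Subgroup.mem_inf.1 ((X ⊓ St P f).pow_mem hy m)
  refine pel_mem hes hinv hP hf hef hym.1 hym.2 (n := n) ?_
  rw [← pow_mul, mul_comm, ← hnm, pow_orderOf_eq_one]

theorem ind_cop (heT : IsBlock (⊤ : Subgroup A) e) (hP : IsDefectGroup p (⊤ : Subgroup A) e P)
    (hf : IsBlock (CD P) f) (hef : resS (CD P : Set A) e * f = f) :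
    ¬ p ∣ (P ⊔ CD P).relIndex (St P f) := by
  have h1 := ind_copX (X := ⊤) (f := f) heT.suppIn heT.invBy hP (by rwa [top_inf_eq]) hef
  rwa [top_inf_eq, top_inf_eq] at h1

theorem pow_cen (heT : IsBlock (⊤ : Subgroup A) e) (hP : IsDefectGroup p (⊤ : Subgroup A) e P)
    (hf : IsBlock (CD P) f) (hef : resS (CD P : Set A) e * f = f) :
    ∀ y ∈ St P f, ∃ m : ℕ, ¬ p ∣ m ∧ y ^ m ∈ P ⊔ CD P := by
  intro y hy
  have h1 := pow_cenX (X := ⊤) (f := f) heT.suppIn heT.invBy hP (by rwa [top_inf_eq]) hef y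
    (by rwa [top_inf_eq])
  rwa [top_inf_eq] at h1

end

end Pool.Agent.Lib.P0c8ca5.Ex.WRb
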