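import Mathlib
import Pool.Agent.Lib.P0c8ca5Ex.WRa
import Pool.Agent.Lib.P0c8ca5Ku.Lr

/-!
# WRc: the commutator subgroups of the local blocks

* `conjG`: two maximal pairs of `e` in `G` are conjugate.
* `act_loc`: the elements of the stabilizer of a maximal pair `(D, d)` of a local block act on `D` like elements of a
  conjugate of `G ∩ St (P ∩ G) f₁`.
* `cm_loc`: `[D, M] ≤ [D₀, N_G(D₀, f₀)]^g` for the local blocks, and `[Z(P) ∩ G, St P f] ≤ [D₀, N_G(D₀, f₀)]^g`.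
-/

set_option autoImplicit false
set_option linter.unusedSectionVars false

namespace Pool.Agent.Lib.P0c8ca5.Ex.WR

open MonoidAlgebra Rk Kk Ku KgAux KxAux KxaAux KxbAux KybAux KzcAux FinAux

universe u v

section
variable {p : ℕ} {k : Type v} [Field k] {A : Type u} [Group A] [Fintype A]
variable [Fact p.Prime] [CharP k p] [IsAlgClosed k]
variable {b c e f d f₀ f' : MonoidAlgebra k A} {G H P D D' D₀ X : Subgroup A}

theorem cg_sub {H D : Subgroup A} (hD : D ≤ H) (g : ↥H) :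
    cg g (D.subgroupOf H) = (cg (g : A) D).subgroupOf H := by
  ext x
  rw [mem_cg, Subgroup.mem_subgroupOf, Subgroup.mem_subgroupOf, mem_cg]
  rfl

/-- **two maximal pairs of `e` in `G` are conjugate** -/
theorem conjG (he : IsBlock G e) (hD : IsDefectGroup p G e D)
    (hcom : ∀ x ∈ D, ∀ y ∈ D, x * y = y * x) (hf : IsBlock (G ⊓ CD D) f)
    (hef : resS (CD D : Set A) e * f = f) (hD' : IsDefectGroup p G e D')
    (hcom' : ∀ x ∈ D', ∀ y ∈ D', x * y = y * x) (hf' : IsBlock (G ⊓ CD D') f')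
    (hef' : resS (CD D' : Set A) e * f' = f') :
    ∃ g ∈ G, D' = cg g D ∧ G ⊓ St D' f' = cg g (G ⊓ St D f) := by
  have : Fintype ↥G := Fintype.ofFinite _
  have h1 := root_dn G he hD hcom hf hef
  have h2 := root_dn G he hD' hcom' hf' hef'
  obtain ⟨g, h3, h4⟩ := ind_conj h1.blk h1.dfg h1.fblk h1.bf h2.dfg h2.fblk h2.bf
  have hcg : cg (g : A) G = G := cg_eq_self_iff.2 (Subgroup.le_normalizer g.2)
  have hle : ∀ {U : Subgroup A}, U ≤ G → cg (g : A) U ≤ G := by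
    intro U hU x hx
    rw [← hcg]
    rw [mem_cg] at hx ⊢
    exact hU hx
  have hfs : SuppIn G f := fun x hx => (Subgroup.mem_inf.1 (hf.suppIn x hx)).1
  have hfs' : SuppIn G f' := fun x hx => (Subgroup.mem_inf.1 (hf'.suppIn x hx)).1
  refine ⟨g, g.2, ?_, ?_⟩
  · rw [cg_sub hD.le, Subgroup.subgroupOf_inj, inf_eq_left.2 hD'.le,
      inf_eq_left.2 (hle hD.le)] at h3
    exact h3
  · rw [St_subgroupOf hD'.le hfs', St_subgroupOf hD.le hfs, cg_sub inf_le_left,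
      Subgroup.subgroupOf_inj, inf_eq_left.2 (inf_le_left : G ⊓ St D' f' ≤ G),
      inf_eq_left.2 (hle inf_le_left)] at h4
    exact h4

/-- a power of order prime to `p` of the action -/
theorem pow_cent (hDH : D ≤ H) (hds : SuppIn H d)
    (hroot : Root p (dn H b) (D.subgroupOf H) (dn H d)) :
    ∃ m : ℕ, ¬ p ∣ m ∧ ∀ y ∈ H ⊓ St D d, y ^ m ∈ CD D := by
  refine ⟨(CD D).relIndex (H ⊓ St D d), ?_, fun y hy => ?_⟩
  · have : Fintype ↥H := Fintype.ofFinite _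
    have h1 := Ku.ndvd hroot
    rwa [eN_dn H hDH hds] at h1
  · have h1 : ((CD D).subgroupOf (H ⊓ St D d)).Normal := by
      refine ⟨fun x hx z => ?_⟩
      rw [Subgroup.mem_subgroupOf] at hx ⊢
      have hzN : (z : A) ∈ Subgroup.normalizer (D : Set A) := (Subgroup.mem_inf.1 z.2).2.1
      exact (NDAux.conj_CD_iff hzN).1 hx
    have h2 := Subgroup.pow_index_mem ((CD D).subgroupOf (H ⊓ St D d))
      (⟨y, hy⟩ : ↥(H ⊓ St D d))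
    exact Subgroup.mem_subgroupOf.1 h2

/-- the powers -/
theorem exists_pow {m : ℕ} (hpm : ¬ p ∣ m) (z : A) :
    ∃ j m₁ : ℕ, j ≡ 1 [MOD m] ∧ ¬ p ∣ m₁ ∧ (z ^ j) ^ m₁ = 1 := by
  have hpp : p.Prime := Fact.out
  obtain ⟨a, m₁, h1, h2⟩ := Nat.exists_eq_pow_mul_and_not_dvd (orderOf_pos z).ne' p hpp.ne_one
  have hco : Nat.Coprime (p ^ a) m := Nat.Coprime.pow_left a ((hpp.coprime_iff_not_dvd).2 hpm)
  obtain ⟨j, hj1, hj2⟩ := Nat.chineseRemainder hco 0 1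
  obtain ⟨t, ht⟩ := (Nat.modEq_zero_iff_dvd).1 hj1
  refine ⟨j, m₁, hj2, h1, ?_⟩
  rw [ht, ← pow_mul, mul_right_comm, ← h2, pow_mul, pow_orderOf_eq_one, one_pow]

/-- **the action of the stabilizers of the maximal pairs of the local blocks**, for a given `f₁` -/
theorem act_loc {f₁ : MonoidAlgebra k A}
    (hf₁ : ∀ y ∈ St P f, ∀ m : ℕ, ¬ p ∣ m → (∀ v ∈ P ⊓ G, y ^ m * v = v * y ^ m) →
        ∃ z ∈ G ⊓ St (P ⊓ G) f₁, ∀ v ∈ P ⊓ G, z * v * z⁻¹ = y * v * y⁻¹)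
    (hDH : D ≤ H) (hds : SuppIn H d) (hroot : Root p (dn H b) (D.subgroupOf H) (dn H d)) {g : A}
    (hDP : D ≤ cg g (P ⊓ G))
    (hact : ∀ y ∈ H ⊓ St D d, ∃ z ∈ cg g (St P f), ∀ v ∈ D, z * v * z⁻¹ = y * v * y⁻¹) :
    ∀ y ∈ H ⊓ St D d, ∃ z ∈ cg g (G ⊓ St (P ⊓ G) f₁), ∀ v ∈ D, z * v * z⁻¹ = y * v * y⁻¹ := by
  intro y hy
  obtain ⟨m, hpm, hm⟩ := pow_cent hDH hds hroot
  obtain ⟨z₀, hz₀, h0⟩ := hact y hy
  obtain ⟨j, m₁, hj, hm₁, hz₁⟩ := exists_pow (p := p) hpm z₀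
  rw [mem_cg] at hz₀
  have hyD : ∀ v ∈ D, y * v * y⁻¹ ∈ D := fun v hv =>
    (Subgroup.mem_normalizer_iff.1 (Subgroup.mem_inf.1 hy).2.1 v).1 hv
  have h1 : (g⁻¹ * z₀ * g) ^ j = g⁻¹ * z₀ ^ j * g := by
    have h2 := conj_pow (a := g⁻¹) (b := z₀) (i := j)
    rwa [inv_inv] at h2
  have h2 : ((g⁻¹ * z₀ * g) ^ j) ^ m₁ = 1 := by
    have h3 := conj_pow (a := g⁻¹) (b := z₀ ^ j) (i := m₁)
    rw [inv_inv] at h3
    rw [h1, h3, hz₁, mul_one, inv_mul_cancel]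
  obtain ⟨z, hz, hzv⟩ := hf₁ _ (Subgroup.pow_mem _ hz₀ j) m₁ hm₁ fun v _ => by
    rw [h2, one_mul, mul_one]
  refine ⟨g * z * g⁻¹, ?_, fun v hv => ?_⟩
  · rw [mem_cg]
    have h3 : g⁻¹ * (g * z * g⁻¹) * g = z := by group
    rwa [h3]
  · have h3 := hzv _ (mem_cg.1 (hDP hv))
    have h4 : g * z * g⁻¹ * v * (g * z * g⁻¹)⁻¹ = g * (z * (g⁻¹ * v * g) * z⁻¹) * g⁻¹ := by
      group
    rw [h4, h3, h1]
    have h5 : g * (g⁻¹ * z₀ ^ j * g * (g⁻¹ * v * g) * (g⁻¹ * z₀ ^ j * g)⁻¹) * g⁻¹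
        = z₀ ^ j * v * (z₀ ^ j)⁻¹ := by group
    rw [h5, (conj_pow_act hyD h0 j v hv).1]
    exact pow_act hyD (fun v hv => (Subgroup.mem_centralizer_iff.1 (hm y hy) v hv).symm) hj v hv

/-- the elements of `St P f` act on `Z(P) ∩ G` like elements of `G ∩ St (P ∩ G) f₁` -/
theorem act_cen (hG : G.Normal) {f₁ : MonoidAlgebra k A}
    (hf₁ : ∀ y ∈ St P f, ∀ m : ℕ, ¬ p ∣ m → (∀ v ∈ P ⊓ G, y ^ m * v = v * y ^ m) →
        ∃ z ∈ G ⊓ St (P ⊓ G) f₁, ∀ v ∈ P ⊓ G, z * v * z⁻¹ = y * v * y⁻¹)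
    (hpow : ∀ y ∈ St P f, ∃ m : ℕ, ¬ p ∣ m ∧ y ^ m ∈ P ⊔ CD P) :
    ∀ y ∈ St P f, ∃ z ∈ G ⊓ St (P ⊓ G) f₁, ∀ v ∈ P ⊓ G ⊓ CD P,
      z * v * z⁻¹ = y * v * y⁻¹ := by
  intro y hy
  obtain ⟨m, hpm, hm⟩ := hpow y hy
  obtain ⟨j, m₁, hj, hm₁, hz₁⟩ := exists_pow (p := p) hpm y
  have hcen : ∀ x ∈ P ⊔ CD P, ∀ v ∈ P ⊓ G ⊓ CD P, x * v = v * x := by
    intro x hx v hv
    have h1 : P ⊔ CD P ≤ Subgroup.centralizer ({v} : Set A) := by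
      refine sup_le (fun u hu => ?_) (fun u hu => ?_)
      · rw [Subgroup.mem_centralizer_singleton_iff]
        exact Subgroup.mem_centralizer_iff.1 (Subgroup.mem_inf.1 hv).2 u hu
      · rw [Subgroup.mem_centralizer_singleton_iff]
        exact (Subgroup.mem_centralizer_iff.1 hu v
          (Subgroup.mem_inf.1 (Subgroup.mem_inf.1 hv).1).1).symm
    exact Subgroup.mem_centralizer_singleton_iff.1 (h1 hx)
  obtain ⟨z, hz, hzv⟩ := hf₁ _ (Subgroup.pow_mem _ hy j) m₁ hm₁ fun v _ => by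
    rw [hz₁, one_mul, mul_one]
  refine ⟨z, hz, fun v hv => ?_⟩
  rw [hzv v (Subgroup.mem_inf.1 hv).1]
  refine pow_act (D := P ⊓ G ⊓ CD P) (m := m) (fun v hv => ?_) (fun v hv => hcen _ hm v hv) hj v hv
  obtain ⟨h1, h2⟩ := Subgroup.mem_inf.1 hv
  refine Subgroup.mem_inf.2 ⟨(Subgroup.mem_normalizer_iff.1 (norm_inf hG hy.1) v).1 h1, ?_⟩
  exact (NDAux.conj_CD_iff (D := P) (x := v) hy.1).1 h2

/-- **the commutator subgroups of the local blocks** -/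
theorem cm_loc (hG : G.Normal) (hp : ∀ x : A, ∃ n : ℕ, x ^ p ^ n ∈ G) (he : IsBlock G e)
    (hinv : InvBy ⊤ e) (hP : IsDefectGroup p (⊤ : Subgroup A) e P)
    (hcom : ∀ x ∈ P ⊓ G, ∀ y ∈ P ⊓ G, x * y = y * x)
    (hf : IsBlock (CD P) f) (hef : resS (CD P : Set A) e * f = f)
    (hD₀ : IsDefectGroup p G e D₀) (hf₀ : IsBlock (G ⊓ CD D₀) f₀)
    (hef₀ : resS (CD D₀ : Set A) e * f₀ = f₀) :
    ∃ g₀ ∈ G, P ⊓ G = cg g₀ D₀ ∧
    (∀ {H D : Subgroup A} {b d : MonoidAlgebra k A} {g : A}, D ≤ H → SuppIn H d →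
      Root p (dn H b) (D.subgroupOf H) (dn H d) → D ≤ cg g (P ⊓ G) →
      (∀ y ∈ H ⊓ St D d, ∃ z ∈ cg g (St P f), ∀ v ∈ D, z * v * z⁻¹ = y * v * y⁻¹) →
      (∀ y ∈ H ⊓ St D d, ∃ z ∈ cg (g * g₀) (G ⊓ St D₀ f₀), ∀ v ∈ D,
        z * v * z⁻¹ = y * v * y⁻¹) ∧
      cmW D (H ⊓ St D d) ≤ cg (g * g₀) (cmW D₀ (G ⊓ St D₀ f₀))) ∧
    ((∀ y ∈ St P f, ∃ m : ℕ, ¬ p ∣ m ∧ y ^ m ∈ P ⊔ CD P) →
      cmW (P ⊓ G ⊓ CD P) (St P f) ≤ cg g₀ (cmW D₀ (G ⊓ St D₀ f₀))) := by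
  obtain ⟨f₁, h1, h2, h3⟩ := act_G hG hp hinv he.idem hP.isPGroup hf hef
  have hdfg := dfg_inf hG hp he hinv hP
  have hcom₀ : ∀ x ∈ D₀, ∀ y ∈ D₀, x * y = y * x := by
    obtain ⟨g, -, rfl⟩ := defect_conjX he hdfg hD₀
    intro x hx y hy
    rw [mem_cg] at hx hy
    have h1 := hcom _ hx _ hy
    calc x * y = g * ((g⁻¹ * x * g) * (g⁻¹ * y * g)) * g⁻¹ := by group
      _ = g * ((g⁻¹ * y * g) * (g⁻¹ * x * g)) * g⁻¹ := by rw [h1]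
      _ = y * x := by group
  obtain ⟨g₀, hg₀, h4, h5⟩ := conjG he hD₀ hcom₀ hf₀ hef₀ hdfg hcom h1 h2
  refine ⟨g₀, hg₀, h4, ?_, ?_⟩
  · intro H D b d g hDH hds hroot hDP hact
    have h6 := act_loc h3 hDH hds hroot hDP hact
    rw [h5, cg_cg] at h6
    refine ⟨h6, ?_⟩
    rw [cg_cmW]
    refine cmW_mono ?_ h6
    rw [h4, cg_cg] at hDP
    exact hDP
  · intro hpow
    rw [cg_cmW, ← h4, ← h5]
    exact cmW_mono inf_le_left (act_cen hG h3 hpow)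

end

end Pool.Agent.Lib.P0c8ca5.Ex.WR
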