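import Mathlib
import Pool.Agent.Lib.P0c8ca5Ex.WRc
import Pool.Agent.Lib.P0c8ca5Ex.V5X
import Pool.Agent.Lib.P0c8ca5Ku.Le

/-!
# WRd: the case analysis for `[D, E]` of rank two

`M` acts on the abelian p-group `D` as a group of order prime to `p`, `Z'` is an `M`-invariant subgroup of `D`, `M` acts
faithfully on `Ω₁(Z')`, `U` lies between `[Z', M]` and `Z'`, `U` and `[D, M]` are of rank at most two.

`c2`: if `U` is cyclic or not of exponent `p` (and, if `p = 3`, all its elements of order `3` are cubes) then the index of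
`C(D)` in `M` is less than `p` or `[D, M]` is not of exponent `p` (and, if `p = 3`, all its elements of order `3` are cubes).
-/

set_option autoImplicit false
set_option linter.unusedSectionVars false

namespace Pool.Agent.Lib.P0c8ca5.Ex.WR

open Ku

universe u v

section
variable {p : ℕ} [Fact p.Prime] {A : Type u} [Group A] [Finite A] {D M Z U K : Subgroup A}

/-- the elements of order dividing `p` -/
def Om (p : ℕ) (Z : Subgroup A) (hc : ∀ x ∈ Z, ∀ y ∈ Z, x * y = y * x) : Subgroup A where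
  carrier := {x | x ∈ Z ∧ x ^ p = 1}
  mul_mem' := by
    rintro x y ⟨hx, hx'⟩ ⟨hy, hy'⟩
    refine ⟨Subgroup.mul_mem _ hx hy, ?_⟩
    have h1 : Commute x y := hc x hx y hy
    rw [h1.mul_pow, hx', hy', one_mul]
  one_mem' := ⟨Subgroup.one_mem _, one_pow p⟩
  inv_mem' := by
    rintro x ⟨hx, hx'⟩
    exact ⟨Subgroup.inv_mem _ hx, by rw [inv_pow, hx', inv_one]⟩

theorem mem_Om {hc : ∀ x ∈ Z, ∀ y ∈ Z, x * y = y * x} {x : A} :
    x ∈ Om p Z hc ↔ x ∈ Z ∧ x ^ p = 1 := Iff.rfl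

theorem isP_Om {hc : ∀ x ∈ Z, ∀ y ∈ Z, x * y = y * x} : IsPGroup p (Om p Z hc) := fun x =>
  ⟨1, Subtype.ext (by
    rw [pow_one]
    exact x.2.2)⟩

/-- a group of order at most `p` has less than `p` automorphisms -/
theorem card_aut_lt {W : Subgroup A} (hW : IsPGroup p W) (hp : Nat.card ↥W ≤ p) :
    Nat.card (MulAut ↥W) < p := by
  have hp' : p.Prime := Fact.out
  obtain ⟨n, hn⟩ := IsPGroup.iff_card.1 hW
  have hn1 : n ≤ 1 := by
    by_contra h1
    push Not at h1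
    have h2 : p ^ 2 ≤ p ^ n := Nat.pow_le_pow_right hp'.pos h1
    have h3 : p * 1 < p * p := Nat.mul_lt_mul_of_pos_left hp'.one_lt hp'.pos
    rw [hn] at hp
    rw [sq] at h2
    omega
  have hc : IsCyclic ↥W := by
    interval_cases n
    · rw [pow_zero] at hn
      have := (Nat.card_eq_one_iff_unique.1 hn).1
      exact isCyclic_of_subsingleton
    · rw [pow_one] at hn
      exact isCyclic_of_prime_card hn
  rw [hc.card_mulAut]
  interval_cases n
  · rw [hn, pow_zero, Nat.totient_one]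
    exact hp'.one_lt
  · rw [hn, pow_one, Nat.totient_prime hp']
    have := hp'.pos
    omega

/-- the elements of order `p` of `Z` are products of fixed elements and elements of `[Z, M]` -/
theorem om_dec (hc : Cop p Z M) {x : A} (hx : x ∈ Z) (hx1 : x ^ p = 1) :
    ∃ c ∈ Z, ∃ y ∈ cmW Z M, x = c * y ∧ (∀ g ∈ M, g * c = c * g) ∧ c ^ p = 1 ∧ y ^ p = 1 := by
  obtain ⟨c, hcZ, y, hy, rfl, hcM⟩ := hc.dec hx
  have hyZ := hc.le hy
  have h1 : Commute c y := hc.com c hcZ y hyZ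
  rw [h1.mul_pow] at hx1
  have h2 : y ^ p = 1 := by
    refine hc.fix (Subgroup.pow_mem _ hy p) fun g hg => ?_
    have h3 : y ^ p = (c ^ p)⁻¹ := eq_inv_of_mul_eq_one_right hx1
    have h4 : Commute g c := hcM g hg
    rw [h3]
    exact ((h4.pow_right p).inv_right).eq
  exact ⟨c, hcZ, y, hy, rfl, hcM, by rwa [h2, mul_one] at hx1, h2⟩

/-- **`[Z, M]` and the groups between `[Z, M]` and `Z` of the same rank** -/
theorem eq_of_rank (hc : Cop p Z M) (hVU : cmW Z M ≤ U) (hUZ : U ≤ Z)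
    (hr : Nat.card {x : A // x ∈ U ∧ x ^ p = 1} ≤ Nat.card {x : A // x ∈ cmW Z M ∧ x ^ p = 1}) :
    U = cmW Z M := by
  classical
  have hp' : p.Prime := Fact.out
  refine le_antisymm (fun u hu => ?_) hVU
  obtain ⟨c, hcZ, y, hy, rfl, hcM⟩ := hc.dec (hUZ hu)
  have hcU : c ∈ U := by
    have h1 := U.mul_mem hu (U.inv_mem (hVU hy))
    rwa [mul_inv_cancel_right] at h1
  by_cases hc1 : c = 1
  · rw [hc1, one_mul]
    exact hy
  exfalso
  -- a power of `c` of order `p`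
  obtain ⟨s, hs⟩ := hc.pg ⟨c, hcZ⟩
  have hs' : c ^ p ^ s = 1 := congrArg Subtype.val hs
  obtain ⟨c₁, hc₁U, hc₁M, hc₁1, hc₁p⟩ : ∃ c₁ ∈ U, (∀ g ∈ M, g * c₁ = c₁ * g) ∧ c₁ ≠ 1 ∧
      c₁ ^ p = 1 := by
    have hex : ∃ s : ℕ, c ^ p ^ s = 1 := ⟨s, hs'⟩
    have h1 := Nat.find_spec hex
    have h2 : Nat.find hex ≠ 0 := by
      intro h3
      rw [h3, pow_zero, pow_one] at h1
      exact hc1 h1
    obtain ⟨t, ht⟩ := Nat.exists_eq_succ_of_ne_zero h2
    refine ⟨c ^ p ^ t, Subgroup.pow_mem _ hcU _, fun g hg => ?_, ?_, ?_⟩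
    · have h4 : Commute g c := hcM g hg
      exact (h4.pow_right _).eq
    · exact Nat.find_min hex (by omega)
    · rw [← pow_mul, ← pow_succ, ← Nat.succ_eq_add_one, ← ht]
      exact h1
  have hnot : c₁ ∉ cmW Z M := fun h => hc₁1 (hc.fix h hc₁M)
  have hlt : Nat.card {x : A // x ∈ cmW Z M ∧ x ^ p = 1}
      < Nat.card {x : A // x ∈ U ∧ x ^ p = 1} := by
    have e1 : Nat.card {x : A // x ∈ cmW Z M ∧ x ^ p = 1}
        = Set.ncard {x : A | x ∈ cmW Z M ∧ x ^ p = 1} := rfl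
    have e2 : Nat.card {x : A // x ∈ U ∧ x ^ p = 1} = Set.ncard {x : A | x ∈ U ∧ x ^ p = 1} := rfl
    rw [e1, e2]
    refine Set.ncard_lt_ncard ?_ (Set.toFinite _)
    refine ⟨fun x hx => ⟨hVU hx.1, hx.2⟩, fun h => hnot (h ⟨hc₁U, hc₁p⟩).1⟩
  omega

/-- **the case analysis** -/
theorem c2 (hcop : Cop p D M) (hZD : Z ≤ D) (hinv : ∀ g ∈ M, ∀ z ∈ Z, g * z * g⁻¹ ∈ Z)
    (hfaith : ∀ g ∈ M, (∀ z ∈ Z, z ^ p = 1 → g * z = z * g) →
      g ∈ Subgroup.centralizer (D : Set A))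
    (hVU : cmW Z M ≤ U) (hUZ : U ≤ Z) (hUr : Nat.card {x : A // x ∈ U ∧ x ^ p = 1} ≤ p ^ 2)
    (hWr : Nat.card {x : A // x ∈ cmW D M ∧ x ^ p = 1} ≤ p ^ 2)
    (hgood : IsCyclic ↥U ∨ ((∃ z ∈ U, z ^ p ≠ 1) ∧
      (p < 5 → ∀ x ∈ U, x ^ p = 1 → ∃ z ∈ U, x = z ^ p))) :
    (Subgroup.centralizer (D : Set A)).relIndex M < p ∨ ((∃ x ∈ cmW D M, x ^ p ≠ 1) ∧
      (p < 5 → ∀ x ∈ cmW D M, x ^ p = 1 → ∃ y ∈ cmW D M, x = y ^ p)) := by
  classical
  have : Fintype A := Fintype.ofFinite A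
  have hp' : p.Prime := Fact.out
  have hcZ : Cop p Z M := cop_sub hcop hZD hinv
  have hVc : ∀ x ∈ cmW Z M, ∀ y ∈ cmW Z M, x * y = y * x := fun x hx y hy =>
    hcZ.com x (hcZ.le hx) y (hcZ.le hy)
  have hVW : cmW Z M ≤ cmW D M := cmW_mono hZD fun g hg => ⟨g, hg, fun _ _ => rfl⟩
  by_cases hsm : Nat.card {x : A // x ∈ cmW Z M ∧ x ^ p = 1} ≤ p
  · left
    set W : Subgroup A := Om p (cmW Z M) hVc with hW
    have hMW : M ≤ Subgroup.normalizer (W : Set A) := by
      refine norm_of fun g hg u hu => ?_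
      rw [mem_Om] at hu ⊢
      refine ⟨cmW_inv hinv hg hu.1, ?_⟩
      rw [conj_pow, hu.2, mul_one, mul_inv_cancel]
    have h1 : (Subgroup.centralizer (D : Set A)).relIndex M
        ≤ (Subgroup.centralizer (W : Set A)).relIndex M := by
      refine Nat.le_of_dvd (Nat.pos_of_ne_zero Subgroup.index_ne_zero_of_finite) ?_
      rw [← Subgroup.inf_relIndex_right (Subgroup.centralizer (D : Set A)),
        ← Subgroup.inf_relIndex_right (Subgroup.centralizer (W : Set A))]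
      refine Subgroup.relIndex_dvd_of_le_left M ?_
      rintro g ⟨hg, hgM⟩
      refine ⟨hfaith g hgM fun z hz hz1 => ?_, hgM⟩
      obtain ⟨c, -, y, hy, rfl, hcM, -, hy1⟩ := om_dec hcZ hz hz1
      have h2 : Commute g c := hcM g hgM
      have h3 : Commute g y := (Subgroup.mem_centralizer_iff.1 hg y ⟨hy, hy1⟩).symm
      exact (h2.mul_right h3).eq
    have h2 : Nat.card ↥W ≤ p := hsm
    exact lt_of_le_of_lt (h1.trans (relIndex_le_aut hMW)) (card_aut_lt isP_Om h2)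
  · right
    push Not at hsm
    obtain ⟨n, hn⟩ := Ex.V5.card_om_eq (p := p) hVc
    have hn2 : p ^ 2 ≤ p ^ n := by
      have h1 : 1 < n := by
        by_contra h2
        push Not at h2
        have h3 : p ^ n ≤ p ^ 1 := Nat.pow_le_pow_right hp'.pos h2
        rw [pow_one, ← hn] at h3
        omega
      exact Nat.pow_le_pow_right hp'.pos h1
    rw [← hn] at hn2
    have hUV : U = cmW Z M := eq_of_rank hcZ hVU hUZ (hUr.trans hn2)
    rw [← hUV] at hVW
    rcases hgood with h1 | ⟨h1, h2⟩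
    · exfalso
      have h3 : Nat.card {x : A // x ∈ U ∧ x ^ p = 1} ≤ p := by
        have h4 : Nat.card {x : A // x ∈ U ∧ x ^ p = 1} ≤ Nat.card {a : ↥U // a ^ p = 1} :=
          Nat.card_le_card_of_injective (fun x => ⟨⟨x.1, x.2.1⟩, Subtype.ext x.2.2⟩)
            fun x y h => Subtype.ext (congrArg (fun z : {a : ↥U // a ^ p = 1} => ((z : _) : A)) h)
        refine h4.trans ?_
        have := Fintype.ofFinite ↥U
        rw [Nat.card_eq_fintype_card, Fintype.card_subtype]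
        exact IsCyclic.card_pow_eq_one_le hp'.pos
      rw [hUV] at h3
      omega
    · refine ⟨?_, fun hlt x hx hx1 => ?_⟩
      · obtain ⟨z, hz, hz1⟩ := h1
        exact ⟨z, hVW hz, hz1⟩
      · have hset : {x : A | x ∈ U ∧ x ^ p = 1} = {x : A | x ∈ cmW D M ∧ x ^ p = 1} := by
          refine Set.eq_of_subset_of_ncard_le (fun x hx => ⟨hVW hx.1, hx.2⟩) ?_
            (Set.toFinite _)
          have e1 : Set.ncard {x : A | x ∈ cmW D M ∧ x ^ p = 1}
              = Nat.card {x : A // x ∈ cmW D M ∧ x ^ p = 1} := rfl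
          have e2 : Set.ncard {x : A | x ∈ U ∧ x ^ p = 1}
              = Nat.card {x : A // x ∈ U ∧ x ^ p = 1} := rfl
          rw [e1, e2]
          refine hWr.trans ?_
          rw [hUV]
          exact hn2
        have h3 : x ∈ {x : A | x ∈ U ∧ x ^ p = 1} := by
          rw [hset]
          exact ⟨hx, hx1⟩
        obtain ⟨z, hz, hxz⟩ := h2 hlt x h3.1 hx1
        exact ⟨z, hVW hz, hxz⟩

end

end Pool.Agent.Lib.P0c8ca5.Ex.WR
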