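import Mathlib
import Pool.Agent.Lib.P0c8ca5Ku.Lp
import Pool.Agent.Lib.P0c8ca5Ku.Lq
import Pool.Agent.Lib.P0c8ca5Ex.V5Y

/-!
# WRr: the weight conjecture for abelian defect groups with `[D, E]` of rank two

`gap_rank2W`: the weight conjecture if `[D, E]` is of rank at most two and not of exponent `p` and, if
`p = 3`, the elements of order `3` of `[D, E]` are cubes of elements of `[D, E]`.
-/

set_option linter.unusedSectionVars false

namespace Pool.Agent.Lib.P0c8ca5.Ex.WR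

open MonoidAlgebra Ku

universe u v

section
variable {p : ℕ} {k : Type v} [Field k] {A : Type u} [Group A] [Fintype A]
variable [Fact p.Prime] [CharP k p] [IsAlgClosed k]
variable {b f : MonoidAlgebra k A} {D : Subgroup A}

theorem gap_rank2W (hW : StepAll.{u, v} p k) (hp2 : p ≠ 2) (h : Root p b D f)
    (hr : Nat.card {x : A // x ∈ cmW D (St D f) ∧ x ^ p = 1} ≤ p ^ 2)
    (hx : ∃ x ∈ cmW D (St D f), x ^ p ≠ 1)
    (h5 : p < 5 → ∀ x ∈ cmW D (St D f), x ^ p = 1 → ∃ y ∈ cmW D (St D f), x = y ^ p) :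
    gap p (⊤ : Subgroup A) ⊤ b = 0 := by
  obtain ⟨A', _, _, b', f', D', h', hgap, ⟨s⟩, hD⟩ :=
    exists_red (p := p) (k := k) (fun {A} _ _ {b f D} h z hz hz1 hzE => hW A b f D h z hz hz1 hzE) h
  rw [← hgap]
  refine Ex.V5.gap_zero_rank2 hp2 h' ((rank_sim s hD).trans hr) ?_ fun hlt x' hx' hx1 => ?_
  · obtain ⟨x, hx, hx1⟩ := hx
    refine ⟨(s.σ ⟨x, hx⟩ : A'), hD.le (s.σ ⟨x, hx⟩).2, fun h2 => hx1 ?_⟩
    exact (sim_pow s (x := ⟨x, hx⟩)).1 h2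
  · obtain ⟨x, rfl⟩ := Ku.pre s hD hx'
    obtain ⟨y, hy, hxy⟩ := h5 hlt x x.2 ((sim_pow s).1 hx1)
    refine ⟨(s.σ ⟨y, hy⟩ : A'), hD.le (s.σ ⟨y, hy⟩).2, ?_⟩
    exact (pow_sim s (x := x) (y := ⟨y, hy⟩) hxy.symm).symm

end

end Pool.Agent.Lib.P0c8ca5.Ex.WR
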