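import Mathlib
import Pool.Agent.Lib.P0c8ca5Ex.WRd
import Pool.Agent.Lib.P0c8ca5Ex.WRr
import Pool.Agent.Lib.P0c8ca5Ex.ZVd

/-!
# WRe: Navarro's equality for abelian defect groups with `[D, E]` of rank two

`G` is normal in `A`, `A / G` a p-group, `p` odd, `e` a block of `G` which is invariant under `A` and has the abelian defect
group `D₀`, `(D₀, f₀)` a maximal pair of `e` in `G`, `[D₀, N_G(D₀, f₀)]` is of rank at most two, `(P, f)` is a maximal pair of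
`e` in `A`, `V = [Z(P) ∩ G, St P f]`.

`nav_rank2W`: Navarro's equality for `(G, A, e)` if `V` is cyclic or not of exponent `p` (and, if `p = 3`, its elements of
order `3` are cubes of elements of `V`).
-/

set_option autoImplicit false
set_option linter.unusedSectionVars false

namespace Pool.Agent.Lib.P0c8ca5.Ex.WR

open MonoidAlgebra Rk Kk Ku KgAux KxAux KxaAux KxbAux KybAux KzcAux FinAux

universe u v

section
variable {p : ℕ} {k : Type v} [Field k] {A : Type u} [Group A] [Fintype A]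
variable [Fact p.Prime] [CharP k p] [IsAlgClosed k]
variable {b c e f d f₀ f' : MonoidAlgebra k A} {G H P D D' D₀ X : Subgroup A}

/-- the condition on `V` -/
def GoodV (p : ℕ) {A : Type*} [Group A] (V : Subgroup A) : Prop :=
  IsCyclic ↥V ∨ ((∃ z ∈ V, z ^ p ≠ 1) ∧ (p < 5 → ∀ x ∈ V, x ^ p = 1 → ∃ z ∈ V, x = z ^ p))

theorem goodV_cg {A : Type*} [Group A] {V : Subgroup A} (h : GoodV p V) (g : A) :
    GoodV p (cg g V) := by
  have hc : ∀ (x : A) (n : ℕ), g * x ^ n * g⁻¹ = (g * x * g⁻¹) ^ n := fun x n => conj_pow.symm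
  rcases h with h | ⟨⟨z, hz, hz1⟩, h⟩
  · left
    have hmem : ∀ x : ↥(cg g V), g⁻¹ * (x : A) * g ∈ V := fun x => mem_cg.1 x.2
    refine isCyclic_of_injective
      ({ toFun := fun x => ⟨g⁻¹ * (x : A) * g, hmem x⟩
         map_one' := Subtype.ext (by simp)
         map_mul' := fun x y => Subtype.ext (by
          change g⁻¹ * ((x : A) * (y : A)) * g = g⁻¹ * (x : A) * g * (g⁻¹ * (y : A) * g)
          group) } : ↥(cg g V) →* ↥V) fun x y hxy => ?_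
    have h1 : g⁻¹ * (x : A) * g = g⁻¹ * (y : A) * g := congrArg Subtype.val hxy
    exact Subtype.ext (mul_left_cancel (mul_right_cancel h1))
  · right
    have hg : ∀ x ∈ V, g * x * g⁻¹ ∈ cg g V := fun x hx => by
      rw [mem_cg]
      have h1 : g⁻¹ * (g * x * g⁻¹) * g = x := by group
      rwa [h1]
    refine ⟨⟨g * z * g⁻¹, hg z hz, fun h1 => hz1 ?_⟩, fun hlt x hx hx1 => ?_⟩
    · rw [← hc] at h1
      exact conj_eq_one_iff.1 h1
    · obtain ⟨y, hy, hxy⟩ := h hlt _ (mem_cg.1 hx) (by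
        have h1 := conj_pow (a := g⁻¹) (b := x) (i := p)
        rw [inv_inv] at h1
        rw [h1, hx1]
        group)
      refine ⟨g * y * g⁻¹, hg y hy, ?_⟩
      rw [← hc, ← hxy]
      group

/-- **Navarro's equality, `[D, E]` of rank two** -/
theorem nav_rank2W (hW : StepAll.{u, v} p k) (hp2 : p ≠ 2) (hG : G.Normal)
    (hp : ∀ x : A, ∃ n : ℕ, x ^ p ^ n ∈ G) (he : IsBlock G e)
    (hinv : InvBy ⊤ e) (hP : IsDefectGroup p (⊤ : Subgroup A) e P)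
    (hcom : ∀ x ∈ P ⊓ G, ∀ y ∈ P ⊓ G, x * y = y * x)
    (hf : IsBlock (CD P) f) (hef : resS (CD P : Set A) e * f = f)
    (hD₀ : IsDefectGroup p G e D₀) (hf₀ : IsBlock (G ⊓ CD D₀) f₀)
    (hef₀ : resS (CD D₀ : Set A) e * f₀ = f₀)
    (hr : Nat.card {x : A // x ∈ cmW D₀ (G ⊓ St D₀ f₀) ∧ x ^ p = 1} ≤ p ^ 2)
    (hpow : ∀ y ∈ St P f, ∃ m : ℕ, ¬ p ∣ m ∧ y ^ m ∈ P ⊔ CD P)
    (hV : GoodV p (cmW (P ⊓ G ⊓ CD P) (St P f))) : NavarroEq p G ⊤ e := by
  classical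
  obtain ⟨g₀, hg₀, h4, h5, h6⟩ := cm_loc hG hp he hinv hP hcom hf hef hD₀ hf₀ hef₀
  refine nav_act hG hp he hinv hP hcom hf hef fun H D b d g _ hDH hds hroot hDP hA => ?_
  obtain ⟨h7, h8⟩ := h5 hDH hds hroot hDP hA.act
  have h9 := h6 hpow
  have hGc : ∀ g : A, cg g G = G := fun g => cg_eq_self_iff.2 (mem_norm_of_normal G g)
  have hDcom : ∀ x ∈ D, ∀ y ∈ D, x * y = y * x := by
    intro x hx y hy
    have h1 := hcom _ (mem_cg.1 (hDP hx)) _ (mem_cg.1 (hDP hy))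
    calc x * y = g * ((g⁻¹ * x * g) * (g⁻¹ * y * g)) * g⁻¹ := by group
      _ = g * ((g⁻¹ * y * g) * (g⁻¹ * x * g)) * g⁻¹ := by rw [h1]
      _ = y * x := by group
  have hcop : Cop p D (H ⊓ St D d) :=
    { pg := (isPGroup_cg (hP.isPGroup.to_le inf_le_left)).to_le hDP
      com := hDcom
      inv := fun y hy v hv => (Subgroup.mem_normalizer_iff.1 (Subgroup.mem_inf.1 hy).2.1 v).1 hv
      cop := by
        have h1 := Ku.ndvd hroot
        rwa [eN_dn H hDH hds] at h1 }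
  have hSt : ∀ y ∈ St P f, ∀ v ∈ P ⊓ G ⊓ CD P, y * v * y⁻¹ ∈ P ⊓ G ⊓ CD P := by
    intro y hy v hv
    obtain ⟨h1, h2⟩ := Subgroup.mem_inf.1 hv
    exact Subgroup.mem_inf.2 ⟨(Subgroup.mem_normalizer_iff.1 (norm_inf hG hy.1) v).1 h1,
      (NDAux.conj_CD_iff (D := P) (x := v) hy.1).1 h2⟩
  have hVU : cmW (cg g (P ⊓ G ⊓ CD P)) (H ⊓ St D d) ≤
      cg g (cmW (P ⊓ G ⊓ CD P) (St P f)) := by
    rw [cg_cmW]
    refine cmW_mono le_rfl fun y hy => ?_
    obtain ⟨z, hz, hzv⟩ := hA.act y hy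
    exact ⟨z, hz, fun u hu => hzv u (hA.le hu)⟩
  have hUZ : cg g (cmW (P ⊓ G ⊓ CD P) (St P f)) ≤ cg g (P ⊓ G ⊓ CD P) := by
    intro x hx
    rw [mem_cg] at hx ⊢
    exact cmW_le hSt hx
  have hUr : Nat.card {x : A // x ∈ cg g (cmW (P ⊓ G ⊓ CD P) (St P f)) ∧ x ^ p = 1} ≤ p ^ 2 := by
    refine V5.card_om_conj (M := cmW D₀ (G ⊓ St D₀ f₀)) (g := g * g₀) ?_ hr
    intro x hx
    rw [← cg_cg, mem_cg]
    exact h9 (mem_cg.1 hx)
  have hWr : Nat.card {x : A // x ∈ cmW D (H ⊓ St D d) ∧ x ^ p = 1} ≤ p ^ 2 :=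
    V5.card_om_conj h8 hr
  have hcm : cmW (D.subgroupOf H) (St (D.subgroupOf H) (dn H d))
      = (cmW D (H ⊓ St D d)).subgroupOf H := by
    rw [St_subgroupOf hDH hds, cmW_subgroupOf hDH inf_le_left]
  rcases c2 hcop hA.le hA.inv hA.faith hVU hUZ hUr hWr (goodV_cg hV g) with h10 | ⟨h10, h11⟩
  · exact gap_lt_p hp2 hroot (by rw [eN_dn H hDH hds]; exact h10)
  · have hWH : cmW D (H ⊓ St D d) ≤ H := hcop.le.trans hDH
    refine gap_rank2W hW hp2 hroot ?_ ?_ fun hlt x hx hx1 => ?_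
    · rw [hcm]
      refine le_trans (Nat.card_le_card_of_injective
        (fun x : {x : ↥H // x ∈ (cmW D (H ⊓ St D d)).subgroupOf H ∧ x ^ p = 1} => (⟨(x.1 : A),
          Subgroup.mem_subgroupOf.1 x.2.1, congrArg Subtype.val x.2.2⟩ :
            {z : A // z ∈ cmW D (H ⊓ St D d) ∧ z ^ p = 1})) ?_) hWr
      intro x y hxy
      exact Subtype.ext (Subtype.ext
        (congrArg (fun z : {z : A // z ∈ cmW D (H ⊓ St D d) ∧ z ^ p = 1} => (z : A)) hxy))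
    · obtain ⟨x, hx, hx1⟩ := h10
      rw [hcm]
      exact ⟨⟨x, hWH hx⟩, Subgroup.mem_subgroupOf.2 hx, fun h => hx1 (congrArg Subtype.val h)⟩
    · rw [hcm] at hx ⊢
      obtain ⟨y, hy, hxy⟩ := h11 hlt (x : A) (Subgroup.mem_subgroupOf.1 hx)
        (congrArg Subtype.val hx1)
      exact ⟨⟨y, hWH hy⟩, Subgroup.mem_subgroupOf.2 hy, Subtype.ext hxy⟩

end

end Pool.Agent.Lib.P0c8ca5.Ex.WR
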