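import Mathlib
import Pool.Agent.Lib.P0c8ca5Ex.WRe
import Pool.Agent.Lib.P0c8ca5Kk.Kzg
import Pool.Agent.Lib.P0c8ca5E.SmallG

/-!
# WRf: `nav_rank2W` for a subgroup `X` that contains `G`
-/

set_option autoImplicit false
set_option linter.unusedSectionVars false

namespace Pool.Agent.Lib.P0c8ca5.Ex.WR

open MonoidAlgebra Rk Kk Ku KgAux KxAux KxaAux KxbAux KybAux KzcAux FinAux

universe u v

section
variable {p : ℕ} {k : Type v} [Field k] {A : Type u} [Group A] [Fintype A]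
variable [Fact p.Prime] [CharP k p] [IsAlgClosed k]
variable {b c e f d f₀ f' : MonoidAlgebra k A} {G H P D D' D₀ X : Subgroup A}

/-- a defect group in a subgroup -/
theorem isDefect_sub (hGX : G ≤ X) (he : IsBlock G e) (h : IsDefectGroup p G e D₀) :
    IsDefectGroup p (G.subgroupOf X) (dn X e) (D₀.subgroupOf X) := by
  have hes : SuppIn X e := he.suppIn.mono hGX
  refine ⟨fun x hx => Subgroup.mem_subgroupOf.2 (h.le (Subgroup.mem_subgroupOf.1 hx)),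
    h.isPGroup.comap_subtype, Hy.hasBr_dn hes h.br, ?_⟩
  intro P hPG hP hbr hDP
  have h1 : P.map X.subtype = D₀ := by
    refine h.max _ ?_ (hP.map _) (Hy.hasBr_up hbr) ?_
    · rintro _ ⟨x, hx, rfl⟩
      exact Subgroup.mem_subgroupOf.1 (hPG hx)
    · intro x hx
      exact ⟨⟨x, hGX (h.le hx)⟩, hDP (Subgroup.mem_subgroupOf.2 hx), rfl⟩
  rw [← h1, Subgroup.subgroupOf]
  exact (Subgroup.comap_map_eq_self_of_injective X.subtype_injective P).symm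

/-- the pair `(D₀, f₀)` in `X` -/
theorem pair_dn (hGX : G ≤ X) (hD₀ : D₀ ≤ G) (hf₀ : IsBlock (G ⊓ CD D₀) f₀)
    (hef₀ : resS (CD D₀ : Set A) e * f₀ = f₀) :
    IsBlock (G.subgroupOf X ⊓ CD (D₀.subgroupOf X)) (dn X f₀) ∧
      resS (CD (D₀.subgroupOf X) : Set ↥X) (dn X e) * dn X f₀ = dn X f₀ := by
  have hDX : D₀ ≤ X := hD₀.trans hGX
  have hfs : SuppIn X f₀ := fun x hx => hGX (Subgroup.mem_inf.1 (hf₀.suppIn x hx)).1
  constructor
  · have h1 : G.subgroupOf X ⊓ CD (D₀.subgroupOf X) = (G ⊓ CD D₀).subgroupOf X := by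
      rw [CD_subgroupOf hDX]
      ext x
      simp only [Subgroup.mem_inf, Subgroup.mem_subgroupOf]
      exact ⟨fun h => ⟨h.1, h.2.2⟩, fun h => ⟨h.1, x.2, h.2⟩⟩
    rw [h1]
    exact dn_blk (inf_le_left.trans hGX) hf₀
  · have h1 : resS ((CD (D₀.subgroupOf X) : Subgroup ↥X) : Set ↥X) (dn X e)
        = dn X (resS (CD D₀ : Set A) e) := by
      rw [dn_resS]
      congr 1
      ext x
      rw [CD_subgroupOf hDX]
      simp only [SetLike.mem_coe, Subgroup.mem_subgroupOf, Subgroup.mem_inf, Set.mem_preimage]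
      exact ⟨fun h => h.2, fun h => ⟨x.2, h⟩⟩
    rw [h1, ← dn_mul_right _ hfs, hef₀]

theorem goodV_sub {V : Subgroup A} (h : GoodV p V) (hV : V ≤ X) :
    GoodV p (V.subgroupOf X) := by
  rcases h with h | ⟨⟨z, hz, hz1⟩, h⟩
  · left
    refine isCyclic_of_injective
      ({ toFun := fun x => ⟨((x : ↥X) : A), Subgroup.mem_subgroupOf.1 x.2⟩
         map_one' := rfl
         map_mul' := fun x y => rfl } : ↥(V.subgroupOf X) →* ↥V) fun x y hxy => ?_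
    exact Subtype.ext (Subtype.ext (congrArg (fun z : ↥V => (z : A)) hxy))
  · right
    refine ⟨⟨⟨z, hV hz⟩, Subgroup.mem_subgroupOf.2 hz, fun h1 => hz1 (congrArg Subtype.val h1)⟩,
      fun hlt x hx hx1 => ?_⟩
    obtain ⟨y, hy, hxy⟩ := h hlt (x : A) (Subgroup.mem_subgroupOf.1 hx)
      (congrArg Subtype.val hx1)
    exact ⟨⟨y, hV hy⟩, Subgroup.mem_subgroupOf.2 hy, Subtype.ext hxy⟩

theorem card_om_sub {V : Subgroup A} {n m : ℕ}
    (h : Nat.card {x : A // x ∈ V ∧ x ^ n = 1} ≤ m) :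
    Nat.card {x : ↥X // x ∈ V.subgroupOf X ∧ x ^ n = 1} ≤ m := by
  refine le_trans (Nat.card_le_card_of_injective
    (fun x : {x : ↥X // x ∈ V.subgroupOf X ∧ x ^ n = 1} => (⟨(x.1 : A),
      Subgroup.mem_subgroupOf.1 x.2.1, congrArg Subtype.val x.2.2⟩ :
        {z : A // z ∈ V ∧ z ^ n = 1})) ?_) h
  intro x y hxy
  exact Subtype.ext (Subtype.ext
    (congrArg (fun z : {z : A // z ∈ V ∧ z ^ n = 1} => (z : A)) hxy))

/-- **Navarro's equality for `(G, X, e)`, `[D, E]` of rank two** -/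
theorem nav_rank2WX (hW : StepAll.{u, v} p k) (hp2 : p ≠ 2) (hGX : G ≤ X)
    (hX : X ≤ Subgroup.normalizer (G : Set A))
    (hp : ∀ x ∈ X, ∃ n : ℕ, x ^ p ^ n ∈ G) (he : IsBlock G e)
    (hinv : InvBy X e) (hP : IsDefectGroup p X e P)
    (hcom : ∀ x ∈ P ⊓ G, ∀ y ∈ P ⊓ G, x * y = y * x)
    (hf : IsBlock (X ⊓ CD P) f) (hef : resS (CD P : Set A) e * f = f)
    (hD₀ : IsDefectGroup p G e D₀) (hf₀ : IsBlock (G ⊓ CD D₀) f₀)
    (hef₀ : resS (CD D₀ : Set A) e * f₀ = f₀)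
    (hr : Nat.card {x : A // x ∈ cmW D₀ (G ⊓ St D₀ f₀) ∧ x ^ p = 1} ≤ p ^ 2)
    (hpow : ∀ y ∈ X ⊓ St P f, ∃ m : ℕ, ¬ p ∣ m ∧ y ^ m ∈ P ⊔ X ⊓ CD P)
    (hV : GoodV p (cmW (P ⊓ G ⊓ CD P) (X ⊓ St P f))) : NavarroEq p G X e := by
  have : Fintype ↥X := Fintype.ofFinite _
  have hPX : P ≤ X := hP.le
  have hDX : D₀ ≤ X := hD₀.le.trans hGX
  have hfs : SuppIn X f := fun x hx => ((mem_fixAlg.1 hf.mem).1 x hx).1
  have hfs₀ : SuppIn X f₀ := fun x hx => hGX (Subgroup.mem_inf.1 (hf₀.suppIn x hx)).1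
  obtain ⟨h1, h2, h3, h4, h5, h6, -⟩ := data_dn hGX hX he hP hcom hf hef
  obtain ⟨h8, h9⟩ := pair_dn hGX hD₀.le hf₀ hef₀
  have e1 : P.subgroupOf X ⊔ CD (P.subgroupOf X) = (P ⊔ X ⊓ CD P).subgroupOf X := by
    rw [CD_subgroupOf hPX, ← Subgroup.subgroupOf_sup hPX inf_le_left]
  have e2 : St (P.subgroupOf X) (dn X f) = (X ⊓ St P f).subgroupOf X := St_subgroupOf hPX hfs
  have e3 : G.subgroupOf X ⊓ St (D₀.subgroupOf X) (dn X f₀)
      = (G ⊓ St D₀ f₀).subgroupOf X := by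
    rw [St_subgroupOf hDX hfs₀]
    ext x
    simp only [Subgroup.mem_inf, Subgroup.mem_subgroupOf]
    exact ⟨fun h => ⟨h.1, h.2.2⟩, fun h => ⟨h.1, x.2, h.2⟩⟩
  have e4 : P.subgroupOf X ⊓ G.subgroupOf X ⊓ CD (P.subgroupOf X)
      = (P ⊓ G ⊓ CD P).subgroupOf X := by
    rw [CD_subgroupOf hPX]
    ext x
    simp only [Subgroup.mem_inf, Subgroup.mem_subgroupOf]
    exact ⟨fun h => ⟨h.1, h.2.2⟩, fun h => ⟨h.1, x.2, h.2⟩⟩
  have hVX : cmW (P ⊓ G ⊓ CD P) (X ⊓ St P f) ≤ X := by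
    rw [cmW, Subgroup.closure_le]
    rintro _ ⟨g, hg, u, hu, rfl⟩
    have hu' : u ∈ X := hPX (Subgroup.mem_inf.1 (Subgroup.mem_inf.1 hu).1).1
    have hg' : g ∈ X := (Subgroup.mem_inf.1 hg).1
    exact X.mul_mem (X.inv_mem hu') (X.mul_mem (X.mul_mem hg' hu') (X.inv_mem hg'))
  refine nav_dn hGX hX hp he hinv ?_
  refine nav_rank2W hW hp2 h1 (fun x => by
    obtain ⟨n, hn⟩ := hp x x.2
    exact ⟨n, Subgroup.mem_subgroupOf.2 hn⟩) h2 (fun g _ x => hinv g g.2 x) h3 h4 h5 h6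
    (isDefect_sub hGX he hD₀) h8 h9 ?_ ?_ ?_
  · rw [e3, cmW_subgroupOf hDX (inf_le_left.trans hGX)]
    exact card_om_sub hr
  · intro y hy
    rw [e2, Subgroup.mem_subgroupOf] at hy
    obtain ⟨m, hm, hym⟩ := hpow y hy
    refine ⟨m, hm, ?_⟩
    rw [e1, Subgroup.mem_subgroupOf]
    exact hym
  · rw [e4, e2, cmW_subgroupOf (inf_le_left.trans (inf_le_left.trans hPX)) inf_le_left]
    exact goodV_sub hV hVX

end

end Pool.Agent.Lib.P0c8ca5.Ex.WR
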