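import Mathlib
import Pool.Agent.Lib.P0c8ca5Ku.ND
import Pool.Agent.Lib.P0c8ca5Ex.WRa

/-!
# WRh: the p-elements of the stabilizer of a maximal pair

`(P, f)` is a maximal pair of the block `e` of `X`. `pel_mem`: the elements of `X ∩ St P f` of order a power of `p` are in
`P C_X(P)`; `pow_cen`: for every `y ∈ X ∩ St P f` there is a power `y ^ m`, `m` prime to `p`, in `P C_X(P)`.
-/

set_option autoImplicit false
set_option linter.unusedSectionVars false

namespace Pool.Agent.Lib.P0c8ca5.Ex.WR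

open MonoidAlgebra Rk Kk Ku Ku.NDAux KgAux KxAux KxaAux KxbAux KybAux KzcAux FinAux

universe u v

section
variable {p : ℕ} {k : Type v} [Field k] {A : Type u} [Group A] [Fintype A]
variable [Fact p.Prime] [CharP k p] [IsAlgClosed k]
variable {e f : MonoidAlgebra k A} {P : Subgroup A}

/-- **the p-elements of the stabilizer of a maximal pair** -/
theorem pel_mem (heT : IsBlock (⊤ : Subgroup A) e) (hP : IsDefectGroup p (⊤ : Subgroup A) e P)
    (hf : IsBlock (CD P) f) (hef : resS (CD P : Set A) e * f = f) {u : A} (hu : u ∈ St P f)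
    {n : ℕ} (hn : u ^ p ^ n = 1) : u ∈ P ⊔ CD P := by
  have hPp := hP.isPGroup
  have hSN : St P f ≤ Subgroup.normalizer (P : Set A) := fun x hx => hx.1
  have hCS : CD P ≤ St P f := CD_le_StR hf
  have hPS : P ≤ St P f := le_St hf
  have huS : Subgroup.zpowers u ≤ St P f := by
    rw [Subgroup.zpowers_le]
    exact hu
  have huz : IsPGroup p (Subgroup.zpowers u) := by
    rintro ⟨x, j, rfl⟩
    refine ⟨n, Subtype.ext ?_⟩
    change (u ^ j) ^ p ^ n = 1
    rw [← zpow_natCast, ← zpow_mul, mul_comm, zpow_mul, zpow_natCast, hn, one_zpow]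
  set Q : Subgroup A := Subgroup.zpowers u ⊔ P with hQd
  have hQ : IsPGroup p Q := huz.to_sup_of_normal_right' hPp (huS.trans hSN)
  have hQS : Q ≤ St P f := sup_le huS hPS
  set M : Subgroup A := CD P ⊔ Q with hM
  have hMS : M ≤ St P f := sup_le hCS hQS
  have hMC : M ≤ Subgroup.normalizer (CD P : Set A) := hMS.trans (hSN.trans N_le_NC)
  obtain ⟨N, hN⟩ := IsPGroup.iff_card.1 hQ
  have hpM : ∀ x ∈ M, ∃ n : ℕ, x ^ p ^ n ∈ CD P := by
    intro x hx
    have hgN : Q ≤ Subgroup.normalizer (CD P : Set A) := le_sup_right.trans hMC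
    have hx1 : x ∈ ((CD P ⊔ Q : Subgroup A) : Set A) := hx
    rw [Subgroup.coe_mul_of_right_le_normalizer_left _ _ hgN] at hx1
    obtain ⟨c, hc, q, hq, rfl⟩ := hx1
    change ∃ n : ℕ, (c * q) ^ p ^ n ∈ CD P
    refine ⟨N, ?_⟩
    have h2 := pow_mod hc (hgN hq) (p ^ N)
    have h3 : q ^ p ^ N = 1 := by
      have h4 : (⟨q, hq⟩ : Q) ^ Nat.card Q = 1 := pow_card_eq_one'
      rw [hN] at h4
      exact congrArg Subtype.val h4
    rwa [h3, inv_one, mul_one] at h2
  have hfM : InvBy M f := by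
    rw [invBy_iff_cj]
    intro x hx
    exact (hMS hx).2
  obtain ⟨P', hP'M, hP', hsup, hbr⟩ := exists_br_sup hf hfM le_sup_left hMC hpM
  have hQ' : IsPGroup p (P' ⊔ P : Subgroup A) :=
    hP'.to_sup_of_normal_right' hPp (hP'M.trans (hMS.trans hSN))
  have hQN : P' ⊔ P ≤ Subgroup.normalizer (P : Set A) :=
    sup_le (hP'M.trans (hMS.trans hSN)) Subgroup.le_normalizer
  have hQS' : P' ⊔ P ≤ St P f := sup_le (hP'M.trans hMS) hPS
  have hbrQ : HasBr (P' ⊔ P) f := by
    obtain ⟨y, hy, hfy⟩ := hbr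
    refine ⟨y, ?_, hfy⟩
    have hyC : y ∈ CD P := hf.suppIn y hfy
    have h2 : P' ⊔ P ≤ Subgroup.centralizer ({y} : Set A) := by
      refine sup_le ?_ ?_
      · intro x hx
        rw [Subgroup.mem_centralizer_iff]
        rintro _ rfl
        exact (Subgroup.mem_centralizer_iff.1 hy x hx).symm
      · intro x hx
        rw [Subgroup.mem_centralizer_iff]
        rintro _ rfl
        exact (Subgroup.mem_centralizer_iff.1 hyC x hx).symm
    rw [Subgroup.mem_centralizer_iff]
    intro x hx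
    exact (Subgroup.mem_centralizer_iff.1 (h2 hx) y rfl).symm
  have hQf : InvBy (P' ⊔ P) f := by
    rw [invBy_iff_cj]
    intro x hx
    exact (hQS' hx).2
  have hQb : InvBy (P' ⊔ P) (resS (CD P : Set A) e) :=
    invBy_res (heT.invBy.mono le_top) hQN
  have hcm : f * resS (CD P : Set A) e = f := by
    have h2 : Commute (resS (CD P : Set A) e) f :=
      commute_of (K := CD P) (suppIn_resS' e) hf.invBy
    rw [← h2.eq, hef]
  have hbrb : HasBr (P' ⊔ P) (resS (CD P : Set A) e) := hasBr_of_mul hQ' hQf hQb hcm hbrQ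
  obtain ⟨y, hy, hby⟩ := hbrb
  have hbry : HasBr (P' ⊔ P) e := by
    refine ⟨y, hy, ?_⟩
    rw [coeff_resS] at hby
    split_ifs at hby with h2
    · exact hby
    · exact absurd rfl hby
  have hmax := hP.max (P' ⊔ P) le_top hQ' hbry le_sup_right
  have h3 : P' ≤ P := by
    rw [← hmax]
    exact le_sup_left
  have h4 : u ∈ M := le_sup_right (a := CD P) (le_sup_left (b := P) (Subgroup.mem_zpowers u))
  rw [← hsup] at h4
  exact (sup_le le_sup_right (h3.trans le_sup_left) : CD P ⊔ P' ≤ P ⊔ CD P) h4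

/-- **powers in `P C(P)`** -/
theorem pow_cen (heT : IsBlock (⊤ : Subgroup A) e) (hP : IsDefectGroup p (⊤ : Subgroup A) e P)
    (hf : IsBlock (CD P) f) (hef : resS (CD P : Set A) e * f = f) :
    ∀ y ∈ St P f, ∃ m : ℕ, ¬ p ∣ m ∧ y ^ m ∈ P ⊔ CD P := by
  intro y hy
  have hpp : p.Prime := Fact.out
  obtain ⟨a, m, h1, h2⟩ := Nat.exists_eq_pow_mul_and_not_dvd (orderOf_pos y).ne' p hpp.ne_one
  refine ⟨m, h1, pel_mem heT hP hf hef (Subgroup.pow_mem _ hy m) (n := a) ?_⟩
  rw [← pow_mul, mul_comm, ← h2, pow_orderOf_eq_one]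

end

end Pool.Agent.Lib.P0c8ca5.Ex.WR
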