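import Mathlib
import Pool.Agent.Lib.P0c8ca5Ex.WRf
import Pool.Agent.Lib.P0c8ca5Ex.WRh
import Pool.Agent.Lib.P0c8ca5Ex.WQf
import Pool.Agent.Lib.P0c8ca5Kk.Kzf
import Pool.Agent.Lib.P0c8ca5Kk.Kzg

/-!
# WRg: Navarro's equality for abelian defect groups with `[D, E]` of rank two, final form
-/

set_option autoImplicit false
set_option linter.unusedSectionVars false

namespace Pool.Agent.Lib.P0c8ca5.Ex.WR

open MonoidAlgebra Rk Kk Ku KgAux KxAux KxaAux KxbAux KybAux KzcAux FinAux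

universe u v

/-- the commutator subgroup -/
theorem comm_eq {A : Type*} [Group A] (L W : Subgroup A) : ⁅L, W⁆ = cmW L W := by
  rw [Subgroup.commutator_def, cmW]
  congr 1
  ext w
  constructor
  · rintro ⟨l, hl, g, hg, rfl⟩
    exact ⟨g, hg, l⁻¹, L.inv_mem hl, by rw [commutatorElement_def]; group⟩
  · rintro ⟨g, hg, u, hu, rfl⟩
    exact ⟨u⁻¹, L.inv_mem hu, g, hg, by rw [commutatorElement_def]; group⟩

section
variable {p : ℕ} {k : Type v} [Field k] {A : Type u} [Group A] [Fintype A]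
variable [Fact p.Prime] [CharP k p] [IsAlgClosed k]
variable {b c e f d f₀ f' : MonoidAlgebra k A} {G H P D D' D₀ X : Subgroup A}

/-- powers in `P C_X(P)` -/
theorem pow_cenX (hGX : G ≤ X) (hX : X ≤ Subgroup.normalizer (G : Set A))
    (hp : ∀ x ∈ X, ∃ n : ℕ, x ^ p ^ n ∈ G) (he : IsBlock G e)
    (hinv : InvBy X e) (hP : IsDefectGroup p X e P)
    (hcom : ∀ x ∈ P ⊓ G, ∀ y ∈ P ⊓ G, x * y = y * x)
    (hf : IsBlock (X ⊓ CD P) f) (hef : resS (CD P : Set A) e * f = f) :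
    ∀ y ∈ X ⊓ St P f, ∃ m : ℕ, ¬ p ∣ m ∧ y ^ m ∈ P ⊔ X ⊓ CD P := by
  have : Fintype ↥X := Fintype.ofFinite _
  have hPX : P ≤ X := hP.le
  have hfs : SuppIn X f := fun x hx => ((mem_fixAlg.1 hf.mem).1 x hx).1
  obtain ⟨h1, h2, h3, h4, h5, h6, -⟩ := data_dn hGX hX he hP hcom hf hef
  have e1 : P.subgroupOf X ⊔ CD (P.subgroupOf X) = (P ⊔ X ⊓ CD P).subgroupOf X := by
    rw [CD_subgroupOf hPX, ← Subgroup.subgroupOf_sup hPX inf_le_left]
  have e2 : St (P.subgroupOf X) (dn X f) = (X ⊓ St P f).subgroupOf X := St_subgroupOf hPX hfs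
  have heT : IsBlock (⊤ : Subgroup ↥X) (dn X e) :=
    dn_isBlock (isBlock_up' hGX hX hp he hinv)
  intro y hy
  have hyX : y ∈ X := (Subgroup.mem_inf.1 hy).1
  obtain ⟨m, hm, hym⟩ := pow_cen heT h3 h5 h6 ⟨y, hyX⟩ (by
    rw [e2, Subgroup.mem_subgroupOf]
    exact hy)
  rw [e1, Subgroup.mem_subgroupOf] at hym
  exact ⟨m, hm, hym⟩

/-- **Navarro's equality for `(N, H, e)`, `[D, E]` of rank two** -/
theorem nav_rank2W_all (hp2 : p ≠ 2) (hG : G.Normal) (hp : ∀ x : A, ∃ n : ℕ, x ^ p ^ n ∈ G)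
    (he : IsBlock G e) (hinv : InvBy ⊤ e)
    (hD₀ : IsDefectGroup p G e D₀) (hcom : ∀ x ∈ D₀, ∀ y ∈ D₀, x * y = y * x)
    (hf₀ : IsBlock (G ⊓ CD D₀) f₀) (hef₀ : resS (CD D₀ : Set A) e * f₀ = f₀)
    (hr : Nat.card {x : A // x ∈ ⁅D₀, G ⊓ St D₀ f₀⁆ ∧ x ^ p = 1} ≤ p ^ 2)
    {N H : Subgroup A} (hGN : G ≤ N) (hNH : N ≤ H)
    (hn : H ≤ Subgroup.normalizer (N : Set A))
    (hgood : ∀ Y, G ≤ Y → Y ≤ H → N ⊔ Y = H →
      ∃ (P : Subgroup A) (f : MonoidAlgebra k A), IsDefectGroup p Y e P ∧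
        IsBlock (Y ⊓ CD P) f ∧ resS (CD P : Set A) e * f = f ∧
        (GoodV p ⁅P ⊓ G ⊓ CD P, Y ⊓ St P f⁆ ∨ (P ⊔ Y ⊓ CD P).relIndex (Y ⊓ St P f) < p)) :
    NavarroEq p N H e := by
  have hW : StepAll.{u, v} p k := fun A _ _ b f D h z hz hz1 hzE =>
    WQ.step_all hp2 h hz hz1 hzE
  refine nav_of_suppl hGN hNH hn hp he hinv fun Y hGY hYH hNY => ?_
  obtain ⟨P, f, hP, hf, hef, h1⟩ := hgood Y hGY hYH hNY
  have hY : Y ≤ Subgroup.normalizer (G : Set A) := fun x _ => mem_norm_of_normal G x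
  have hpY : ∀ x ∈ Y, ∃ n : ℕ, x ^ p ^ n ∈ G := fun x _ => hp x
  have hinvY : InvBy Y e := hinv.mono le_top
  -- `P ∩ G` is abelian
  have hbr : HasBr (P ⊓ G) e := by
    obtain ⟨x, hx, hxe⟩ := hP.br
    exact ⟨x, Subgroup.centralizer_le (inf_le_left : P ⊓ G ≤ P) hx, hxe⟩
  obtain ⟨D', hD', hle⟩ := exists_defect (p := p) (N := G) (P := P ⊓ G) inf_le_right
    (hP.isPGroup.to_le inf_le_left) hbr
  obtain ⟨g, -, rfl⟩ := defect_conjX he hD₀ hD'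
  have hcomP : ∀ x ∈ P ⊓ G, ∀ y ∈ P ⊓ G, x * y = y * x := by
    intro x hx y hy
    have hx' := hle hx
    have hy' := hle hy
    rw [mem_cg] at hx' hy'
    have h2 := hcom _ hx' _ hy'
    calc x * y = g * ((g⁻¹ * x * g) * (g⁻¹ * y * g)) * g⁻¹ := by group
      _ = g * ((g⁻¹ * y * g) * (g⁻¹ * x * g)) * g⁻¹ := by rw [h2]
      _ = y * x := by group
  rcases h1 with h1 | h1
  · rw [comm_eq] at h1 hr
    exact nav_rank2WX hW hp2 hGY hY hpY he hinvY hP hcomP hf hef hD₀ hf₀ hef₀ hr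
      (pow_cenX hGY hY hpY he hinvY hP hcomP hf hef) h1
  · exact nav_indX hGY hY hpY he hinvY hP hcomP hf hef h1

end

end Pool.Agent.Lib.P0c8ca5.Ex.WR
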