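import Mathlib
import Pool.Agent.Lib.P0c8ca5Ex.WRf

/-!
# WRk: `[D, E]` of the local blocks is contained in a conjugate of `[D₀, E_G]`

* `act_loc'`, `rk_loc`: the statements `act_loc`, `cm_loc` of `WRc` for a pair `(D, d)` such that the index of `C(D)` in
  its stabilizer is prime to `p`.
* `rk_X`: the same in the group `X` for `G ≤ X`, in the form of the hypothesis `hK` of `Ku.nav_seenX`.
-/

set_option autoImplicit false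
set_option linter.unusedSectionVars false

namespace Pool.Agent.Lib.P0c8ca5.Ex.WR

open MonoidAlgebra Rk Kk Ku KgAux KxAux KxaAux KxbAux KybAux KzcAux FinAux

universe u v

section
variable {p : ℕ} {k : Type v} [Field k] {A : Type u} [Group A] [Fintype A]
variable [Fact p.Prime] [CharP k p] [IsAlgClosed k]
variable {b c e f d f₀ f' : MonoidAlgebra k A} {G H P D D' D₀ X : Subgroup A}

/-- the powers of order prime to `p` of the action -/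
theorem pow_cent' (hpE : ¬ p ∣ (CD D).relIndex (H ⊓ St D d)) :
    ∃ m : ℕ, ¬ p ∣ m ∧ ∀ y ∈ H ⊓ St D d, y ^ m ∈ CD D := by
  refine ⟨(CD D).relIndex (H ⊓ St D d), hpE, fun y hy => ?_⟩
  have h1 : ((CD D).subgroupOf (H ⊓ St D d)).Normal := by
    refine ⟨fun x hx z => ?_⟩
    rw [Subgroup.mem_subgroupOf] at hx ⊢
    have hzN : (z : A) ∈ Subgroup.normalizer (D : Set A) := (Subgroup.mem_inf.1 z.2).2.1
    exact (NDAux.conj_CD_iff hzN).1 hx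
  have h2 := Subgroup.pow_index_mem ((CD D).subgroupOf (H ⊓ St D d))
    (⟨y, hy⟩ : ↥(H ⊓ St D d))
  exact Subgroup.mem_subgroupOf.1 h2

/-- the action of the stabilizer of `(D, d)` on `D` -/
theorem act_loc' {f₁ : MonoidAlgebra k A}
    (hf₁ : ∀ y ∈ St P f, ∀ m : ℕ, ¬ p ∣ m → (∀ v ∈ P ⊓ G, y ^ m * v = v * y ^ m) →
        ∃ z ∈ G ⊓ St (P ⊓ G) f₁, ∀ v ∈ P ⊓ G, z * v * z⁻¹ = y * v * y⁻¹)
    (hpE : ¬ p ∣ (CD D).relIndex (H ⊓ St D d)) {g : A} (hDP : D ≤ cg g (P ⊓ G))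
    (hact : ∀ y ∈ H ⊓ St D d, ∃ z ∈ cg g (St P f), ∀ v ∈ D, z * v * z⁻¹ = y * v * y⁻¹) :
    ∀ y ∈ H ⊓ St D d, ∃ z ∈ cg g (G ⊓ St (P ⊓ G) f₁), ∀ v ∈ D, z * v * z⁻¹ = y * v * y⁻¹ := by
  intro y hy
  obtain ⟨m, hpm, hm⟩ := pow_cent' hpE
  obtain ⟨z₀, hz₀, h0⟩ := hact y hy
  obtain ⟨j, m₁, hj, hm₁, hz₁⟩ := exists_pow (p := p) hpm z₀
  rw [mem_cg] at hz₀
  have hyD : ∀ v ∈ D, y * v * y⁻¹ ∈ D := fun v hv =>
    (Subgroup.mem_normalizer_iff.1 (Subgroup.mem_inf.1 hy).2.1 v).1 hv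
  have h1 : (g⁻¹ * z₀ * g) ^ j = g⁻¹ * z₀ ^ j * g := by
    have h2 := conj_pow (a := g⁻¹) (b := z₀) (i := j)
    rwa [inv_inv] at h2
  have h2 : ((g⁻¹ * z₀ * g) ^ j) ^ m₁ = 1 := by
    have h3 := conj_pow (a := g⁻¹) (b := z₀ ^ j) (i := m₁)
    rw [inv_inv] at h3
    rw [h1, h3, hz₁, mul_one, inv_mul_cancel]
  obtain ⟨z, hz, hzv⟩ := hf₁ _ (Subgroup.pow_mem _ hz₀ j) m₁ hm₁ fun v _ => by
    rw [h2, one_mul, mul_one]
  refine ⟨g * z * g⁻¹, ?_, fun v hv => ?_⟩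
  · rw [mem_cg]
    have h3 : g⁻¹ * (g * z * g⁻¹) * g = z := by group
    rwa [h3]
  · have h3 := hzv _ (mem_cg.1 (hDP hv))
    have h4 : g * z * g⁻¹ * v * (g * z * g⁻¹)⁻¹ = g * (z * (g⁻¹ * v * g) * z⁻¹) * g⁻¹ := by
      group
    rw [h4, h3, h1]
    have h5 : g * (g⁻¹ * z₀ ^ j * g * (g⁻¹ * v * g) * (g⁻¹ * z₀ ^ j * g)⁻¹) * g⁻¹
        = z₀ ^ j * v * (z₀ ^ j)⁻¹ := by group
    rw [h5, (conj_pow_act hyD h0 j v hv).1]
    exact pow_act hyD (fun v hv => (Subgroup.mem_centralizer_iff.1 (hm y hy) v hv).symm) hj v hv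

/-- **`[D, E]` of the local blocks** -/
theorem rk_loc (hG : G.Normal) (hp : ∀ x : A, ∃ n : ℕ, x ^ p ^ n ∈ G) (he : IsBlock G e)
    (hinv : InvBy ⊤ e) (hP : IsDefectGroup p (⊤ : Subgroup A) e P)
    (hcom : ∀ x ∈ P ⊓ G, ∀ y ∈ P ⊓ G, x * y = y * x)
    (hf : IsBlock (CD P) f) (hef : resS (CD P : Set A) e * f = f)
    (hD₀ : IsDefectGroup p G e D₀) (hf₀ : IsBlock (G ⊓ CD D₀) f₀)
    (hef₀ : resS (CD D₀ : Set A) e * f₀ = f₀) {H D : Subgroup A} {d : MonoidAlgebra k A} {g : A}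
    (hDP : D ≤ cg g (P ⊓ G))
    (hA : ActBy p H D (cg g (P ⊓ G ⊓ CD P)) (cg g (St P f)) d)
    (hpE : ¬ p ∣ (CD D).relIndex (H ⊓ St D d)) :
    ∃ g', cmW D (H ⊓ St D d) ≤ cg g' (cmW D₀ (G ⊓ St D₀ f₀)) := by
  obtain ⟨f₁, h1, h2, h3⟩ := act_G hG hp hinv he.idem hP.isPGroup hf hef
  have hdfg := dfg_inf hG hp he hinv hP
  have hcom₀ : ∀ x ∈ D₀, ∀ y ∈ D₀, x * y = y * x := by
    obtain ⟨g, -, rfl⟩ := defect_conjX he hdfg hD₀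
    intro x hx y hy
    rw [mem_cg] at hx hy
    have h1 := hcom _ hx _ hy
    calc x * y = g * ((g⁻¹ * x * g) * (g⁻¹ * y * g)) * g⁻¹ := by group
      _ = g * ((g⁻¹ * y * g) * (g⁻¹ * x * g)) * g⁻¹ := by rw [h1]
      _ = y * x := by group
  obtain ⟨g₀, -, h4, h5⟩ := conjG he hD₀ hcom₀ hf₀ hef₀ hdfg hcom h1 h2
  have h6 := act_loc' h3 hpE hDP hA.act
  rw [h5, cg_cg] at h6
  rw [h4, cg_cg] at hDP
  refine ⟨g * g₀, ?_⟩
  rw [cg_cmW]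
  exact cmW_mono hDP h6

/-- **`[D, E]` of the local blocks**, in the group `X`; the hypothesis `hK` of `Ku.nav_seenX` -/
theorem rk_X (hGX : G ≤ X) (hX : X ≤ Subgroup.normalizer (G : Set A))
    (hp : ∀ x ∈ X, ∃ n : ℕ, x ^ p ^ n ∈ G) (he : IsBlock G e) (hinv : InvBy X e)
    (hP : IsDefectGroup p X e P)
    (hcom : ∀ x ∈ P ⊓ G, ∀ y ∈ P ⊓ G, x * y = y * x)
    (hf : IsBlock (X ⊓ CD P) f) (hef : resS (CD P : Set A) e * f = f)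
    (hD₀ : IsDefectGroup p G e D₀) (hf₀ : IsBlock (G ⊓ CD D₀) f₀)
    (hef₀ : resS (CD D₀ : Set A) e * f₀ = f₀) :
    ∀ (H D : Subgroup ↥X) (d : MonoidAlgebra k ↥X) (g : ↥X),
      D ≤ cg g (P.subgroupOf X ⊓ G.subgroupOf X) →
      ActBy p H D (cg g (P.subgroupOf X ⊓ G.subgroupOf X ⊓ CD (P.subgroupOf X)))
        (cg g (St (P.subgroupOf X) (dn X f))) d →
      ¬ p ∣ (CD D).relIndex (H ⊓ St D d) →
      ∃ g', cmW D (H ⊓ St D d) ≤ cg g' ((cmW D₀ (G ⊓ St D₀ f₀)).subgroupOf X) := by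
  intro H D d g hDP hA hpE
  have : Fintype ↥X := Fintype.ofFinite _
  have hDX : D₀ ≤ X := hD₀.le.trans hGX
  have hfs₀ : SuppIn X f₀ := fun x hx => hGX (Subgroup.mem_inf.1 (hf₀.suppIn x hx)).1
  obtain ⟨h1, h2, h3, h4, h5, h6, -⟩ := data_dn hGX hX he hP hcom hf hef
  obtain ⟨h8, h9⟩ := pair_dn hGX hD₀.le hf₀ hef₀
  have e3 : G.subgroupOf X ⊓ St (D₀.subgroupOf X) (dn X f₀)
      = (G ⊓ St D₀ f₀).subgroupOf X := by
    rw [St_subgroupOf hDX hfs₀]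
    ext x
    simp only [Subgroup.mem_inf, Subgroup.mem_subgroupOf]
    exact ⟨fun h => ⟨h.1, h.2.2⟩, fun h => ⟨h.1, x.2, h.2⟩⟩
  have h10 := rk_loc h1 (fun x => by
    obtain ⟨n, hn⟩ := hp x x.2
    exact ⟨n, Subgroup.mem_subgroupOf.2 hn⟩) h2 (fun g _ x => hinv g g.2 x) h3 h4 h5 h6
    (isDefect_sub hGX he hD₀) h8 h9 hDP hA hpE
  rwa [e3, cmW_subgroupOf hDX (inf_le_left.trans hGX)] at h10

end

end Pool.Agent.Lib.P0c8ca5.Ex.WR
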