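import Mathlib
import Pool.Agent.Lib.P0c8ca5Ex.WZc
import Pool.Agent.Lib.P0c8ca5Ex.WVh

/-!
# WZd: the sum of the contributions of a character in the block vanishes
-/

set_option linter.unusedSectionVars false

namespace Pool.Agent.Lib.P0c8ca5.Ex.WZ

open MonoidAlgebra WV

universe u v w

/-- **the sum of the contributions of a character in the block** for a character `l` of `T` which is
invariant under the inertial quotient and not trivial -/
theorem zz {p : ℕ} [Fact p.Prime] {k : Type u} [Field k] [IsAlgClosed k] [CharP k p]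
    {A : Type v} [Group A] [Finite A] {T : Type w} [CommGroup T] [Fintype T]
    {φ : T →* A} {b f i : MonoidAlgebra k A} {D : Subgroup A}
    {BB : ∀ H : Subgroup A, MonoidAlgebra (OW p k) ↥H}
    (h : Src p b D f i) (hφ : Function.Injective φ) (hr : ∀ x, x ∈ D ↔ ∃ t, φ t = x)
    (hB : BBok φ i BB) {B : MonoidAlgebra (OW p k) A} (hBc : CenL b B) {χ : Ir (KW p k) A}
    (hχ : chO χ B ≠ 0) {l : T →* (KW p k)ˣ} (hl : ∀ α ∈ EG φ D f, ∀ u, l (α u) = l u)
    {z : T} (hlz : l z ≠ 1) :
    ∑ u, (l u : KW p k) * FF φ D f BB ⊥ (ch χ) (ch χ) u = 0 :=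
  zz_of h hφ hr hB hBc hχ hl hlz (virt h hφ hr hB (ch_mem χ) (ch_mem χ) l)

end Pool.Agent.Lib.P0c8ca5.Ex.WZ
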