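import Mathlib
import Pool.Agent.Lib.P0c8ca5Ex.Jd
import Pool.Agent.Lib.P0c8ca5P.FrF

/-!
# We: the algebra `J k[N(D)/D] J` for a cyclic inertial quotient

`J = proj D i`, `F = proj D f`, `U = sec (CD D) D` (the image of `C(D)`), `R = {J * x * J}`.
PROOF of `exists_cyc`. Let `g ∈ St D f` generate `St D f` modulo `C(D)`, `y` its image in `NQ D`, `e = eN D f`: the least `n > 0` with `g ^ n ∈ C(D)`. `J` and `cj y J` are primitive idempotents of `kU` (`J_prim`, conjugate) below `F` (`cj y F = F`).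
There is `w₀` supported on `U`, `w₀ ≠ 0`, `J * w₀ = w₀ = w₀ * cj y J`: otherwise `J * x * cj y J = 0` for all `x` supported on `U`, so with `dz_gen` (for `J` and for `cj y J`): `cj y J = F * cj y J` is a sum of terms `x * J * x' * cj y J = 0`. By `dz_reg` (or the proof of `dz_line`) there is `r` supported on `U` with `w₀ * r = J`, `r * w₀ = cj y J`. Put `w = w₀ * y`, `w' = y⁻¹ * r` (`y` = `single y 1`): `J * w = w = w * J`, `w * w' = J = w' * w`, `w' = J * w' * J`, `w` is supported on the coset `U y`. So `w ^ n` is supported on `U y ^ n`, `w ^ e` is supported on `U`, `w ^ e = J * w ^ e * J = c • J` (`dz_rank`), `c ≠ 0`. Replace `w` by a multiple (`k` is algebraically closed): `w ^ e = J`.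
For every `x : NQ D`: `J * x * J = (J * cj x J) * x` is `0` if `x` is not in the image of `St D f` (`F * cj x F = 0`, two different blocks of `U`); if `x ∈ U y ^ n` then `J * x * J * w' ^ n` is supported on `U`, so it is `c • J` and `J * x * J = c • w ^ n`. So `R` is spanned by `w ^ n`, `0 ≤ n < e`, and is commutative.
`p` does not divide `e`, so there is a primitive `e`-th root of unity `ζ` in `k` (`IsPrimitiveRoot`, `HasEnoughRootsOfUnity` for algebraically closed fields). `j t = e⁻¹ • ∑ n in range e, ζ ^ (t n) • w ^ n` (`w ^ 0 = J`): `w * j t = ζ⁻ᵗ • j t`, orthogonal idempotents, not `0` (the part supported on `U` is `e⁻¹ • J`), and `j t * x * j t = j t * (J * x * J) * j t` is a multiple of `j t`.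
-/

namespace Pool.Agent.Lib.P0c8ca5.Ex

open MonoidAlgebra Rk

set_option linter.unusedSectionVars false

variable {p : ℕ} {k : Type*} [Field k] {A : Type*} [Group A]

namespace WeAux

section cos
variable {B : Type*} [Group B] {U : Subgroup B}

theorem supp_single {S : Subgroup B} {z : B} (hz : z ∈ S) : SuppIn S (single z (1 : k)) := by
  classical
  intro x hx
  rw [coeff_single, Finsupp.single_apply] at hx
  by_cases h : z = x
  · rwa [← h]
  · rw [if_neg h] at hx
    exact absurd rfl hx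

theorem supp_smul {S : Subgroup B} {x : MonoidAlgebra k B} (hx : SuppIn S x) (c : k) :
    SuppIn S (c • x) := by
  intro y hy
  apply hx
  intro h
  apply hy
  simp [h]

/-- `a` is supported on the coset `U x` -/
def SC (U : Subgroup B) (x : B) (a : MonoidAlgebra k B) : Prop := SuppIn U (a * single x⁻¹ (1 : k))

theorem sc_mul (hU : ∀ x : B, x ∈ Subgroup.normalizer (U : Set B)) {x x' : B}
    {a a' : MonoidAlgebra k B} (h : SC U x a) (h' : SC U x' a') : SC U (x * x') (a * a') := by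
  have h1 : a * a' * single (x * x')⁻¹ (1 : k)
      = (a * single x⁻¹ 1) * cj x (a' * single x'⁻¹ 1) := by
    have h2 : single (x * x')⁻¹ (1 : k) = single x'⁻¹ 1 * single x⁻¹ 1 := by
      rw [single_mul_single, one_mul, mul_inv_rev]
    have h3 : single x⁻¹ (1 : k) * single x (1 : k) = 1 := by
      rw [single_mul_single, inv_mul_cancel, one_mul]; rfl
    calc a * a' * single (x * x')⁻¹ (1 : k) = a * 1 * a' * single x'⁻¹ 1 * single x⁻¹ 1 := by
          rw [h2, mul_one]; simp only [mul_assoc]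
      _ = (a * single x⁻¹ 1) * cj x (a' * single x'⁻¹ 1) := by
          rw [← h3, cj]; simp only [mul_assoc]
  rw [SC, h1]
  exact h.mul (h'.cj (hU x))

theorem sc_of_supp {a : MonoidAlgebra k B} (h : SuppIn U a) : SC U 1 a := by
  rw [SC, inv_one, ← one_def, mul_one]
  exact h

theorem sc_single (x : B) : SC U x (single x (1 : k)) := by
  rw [SC, single_mul_single, mul_inv_cancel, one_mul]
  exact supp_single U.one_mem

theorem sc_smul {x : B} {a : MonoidAlgebra k B} (h : SC U x a) (c : k) : SC U x (c • a) := by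
  rw [SC, smul_mul_assoc]
  exact supp_smul h c

theorem sc_pow (hU : ∀ x : B, x ∈ Subgroup.normalizer (U : Set B)) {x : B}
    {a : MonoidAlgebra k B} (h : SC U x a) (n : ℕ) : SC U (x ^ n) (a ^ n) := by
  induction n with
  | zero =>
    rw [pow_zero, pow_zero, one_def]
    exact sc_single 1
  | succ n ih =>
    rw [pow_succ, pow_succ]
    exact sc_mul hU ih h

theorem supp_of_sc {x : B} {a : MonoidAlgebra k B} (h : SC U x a) (hx : x ∈ U) : SuppIn U a := by
  have h1 : a = (a * single x⁻¹ (1 : k)) * single x 1 := by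
    rw [mul_assoc, single_mul_single, inv_mul_cancel, one_mul, ← one_def, mul_one]
  rw [h1]
  exact h.mul (supp_single hx)

theorem sc_coeff {x : B} {a : MonoidAlgebra k B} (h : SC U x a) {z : B} (hz : a.coeff z ≠ 0) :
    z * x⁻¹ ∈ U := by
  apply h
  rw [coeff_mul_single_apply, inv_inv, mul_one, inv_mul_cancel_right]
  exact hz

end cos

section unit
variable [Fact p.Prime] [CharP k p] [IsAlgClosed k] {B : Type*} [Group B] [Fintype B]
variable {U : Subgroup B} {F : MonoidAlgebra k B}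

/-- an invertible element between two primitive idempotents below the same block -/
theorem dz_iso (he : IsDZ p U F) {j j' : MonoidAlgebra k B} (hj : PrimIn (fixAlg k U ⊥) j)
    (hj' : PrimIn (fixAlg k U ⊥) j') (hej : F * j = j) (hej' : F * j' = j') :
    ∃ w r : MonoidAlgebra k B, SuppIn U w ∧ SuppIn U r ∧ j * w = w ∧ w * j' = w ∧
      j' * r = r ∧ r * j = r ∧ w * r = j ∧ r * w = j' := by
  have hjK : SuppIn U j := DzAAux.mem_iff.1 hj.mem
  have hjK' : SuppIn U j' := DzAAux.mem_iff.1 hj'.mem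
  obtain ⟨w, hw, h1, h2, hw0⟩ : ∃ w : MonoidAlgebra k B, SuppIn U w ∧ j * w = w ∧ w * j' = w ∧
      w ≠ 0 := by
    by_contra hcon
    push Not at hcon
    have hz : ∀ x : MonoidAlgebra k B, SuppIn U x → j * x * j' = 0 := by
      intro x hx
      refine hcon _ ((hjK.mul hx).mul hjK') ?_ ?_
      · rw [← mul_assoc, ← mul_assoc, hj.idem]
      · rw [mul_assoc, hj'.idem]
    have hgen := dz_gen he hj hej
    have key : ∀ m ∈ Submodule.span k {y : MonoidAlgebra k B | ∃ x x' : MonoidAlgebra k B,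
        SuppIn U x ∧ SuppIn U x' ∧ y = x * j * x'}, m * j' = 0 := by
      intro m hm
      induction hm using Submodule.span_induction with
      | mem y hy =>
        obtain ⟨x, x', hx, hx', rfl⟩ := hy
        calc x * j * x' * j' = x * (j * x' * j') := by simp only [mul_assoc]
          _ = 0 := by rw [hz x' hx', mul_zero]
      | zero => rw [zero_mul]
      | add y z _ _ h1 h2 => rw [add_mul, h1, h2, add_zero]
      | smul c y _ h1 => rw [smul_mul_assoc, h1, smul_zero]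
    have h4 := key F hgen
    rw [hej'] at h4
    exact hj'.ne h4
  obtain ⟨x, hx, hwx⟩ := dz_reg he hw (by rw [← h1, ← mul_assoc, hej])
  refine ⟨w, j' * x * j, hw, (hjK'.mul hx).mul hjK, h1, h2, ?_, ?_, ?_, ?_⟩
  · rw [← mul_assoc, ← mul_assoc, hj'.idem]
  · rw [mul_assoc, hj.idem]
  · set r := j' * x * j with hr
    have hrK : SuppIn U r := (hjK'.mul hx).mul hjK
    have hwr : w * r * w = w := by
      calc w * r * w = (w * j') * x * (j * w) := by rw [hr]; simp only [mul_assoc]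
        _ = w := by rw [h1, h2, hwx]
    have hq1 : (w * r) * (w * r) = w * r := by rw [← mul_assoc, hwr]
    have hq2 : j * (w * r) = w * r := by rw [← mul_assoc, h1]
    have hq3 : (w * r) * j = w * r := by rw [hr, mul_assoc, mul_assoc (j' * x), hj.idem]
    rcases hj.prim _ (DzAAux.mem_iff.2 (hw.mul hrK)) hq1 hq2 hq3 with h3 | h3
    · exact absurd (by rw [← hwr, h3, zero_mul]) hw0
    · exact h3
  · set r := j' * x * j with hr
    have hrK : SuppIn U r := (hjK'.mul hx).mul hjK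
    have hwr : w * r * w = w := by
      calc w * r * w = (w * j') * x * (j * w) := by rw [hr]; simp only [mul_assoc]
        _ = w := by rw [h1, h2, hwx]
    have hq1 : (r * w) * (r * w) = r * w := by
      rw [mul_assoc, ← mul_assoc w r w, hwr]
    have hq2 : j' * (r * w) = r * w := by
      rw [hr, ← mul_assoc, ← mul_assoc, ← mul_assoc, hj'.idem]
    have hq3 : (r * w) * j' = r * w := by rw [mul_assoc, h2]
    rcases hj'.prim _ (DzAAux.mem_iff.2 (hrK.mul hw)) hq1 hq2 hq3 with h3 | h3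
    · exact absurd (by rw [← hwr, mul_assoc, h3, mul_zero]) hw0
    · exact h3

end unit

section pw
variable {R : Type*} [Ring R] {J v v' : R}

theorem pw_comm (h1 : J * v = v) (h2 : v * J = v) (n : ℕ) : v ^ n * J = J * v ^ n := by
  have h : Commute v J := by rw [Commute, SemiconjBy, h1, h2]
  exact (h.pow_left n).eq

theorem pw_mul (hJ : J * J = J) (h1 : J * v = v) (h2 : v * J = v) (m n : ℕ) :
    (J * v ^ m) * (J * v ^ n) = J * v ^ (m + n) := by
  calc (J * v ^ m) * (J * v ^ n) = J * (v ^ m * J) * v ^ n := by simp only [mul_assoc]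
    _ = (J * J) * (v ^ m * v ^ n) := by rw [pw_comm h1 h2]; simp only [mul_assoc]
    _ = J * v ^ (m + n) := by rw [hJ, pow_add]

theorem pw_inv (hJ : J * J = J) (h1 : J * v = v) (h2 : v * J = v) (h1' : J * v' = v')
    (h2' : v' * J = v') (h : v' * v = J) (n : ℕ) : (J * v' ^ n) * (J * v ^ n) = J := by
  induction n with
  | zero => rw [pow_zero, pow_zero, mul_one, hJ]
  | succ n ih =>
    have e1 : J * v' ^ (n + 1) = (J * v' ^ n) * v' := by rw [pow_succ, mul_assoc]
    have e2 : J * v ^ (n + 1) = v * (J * v ^ n) := by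
      rw [pow_succ', ← mul_assoc, h1, ← mul_assoc, h2]
    rw [e1, e2]
    calc J * v' ^ n * v' * (v * (J * v ^ n)) = J * v' ^ n * (v' * v) * (J * v ^ n) := by
          simp only [mul_assoc]
      _ = J * (v' ^ n * J) * (J * v ^ n) := by rw [h]; simp only [mul_assoc]
      _ = (J * J) * v' ^ n * (J * v ^ n) := by rw [pw_comm h1' h2']; simp only [mul_assoc]
      _ = J := by rw [hJ, ih]

end pw

section main
variable [Fact p.Prime] [CharP k p] [IsAlgClosed k] {B : Type*} [Group B] [Fintype B]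
variable {U : Subgroup B} {F J : MonoidAlgebra k B}

theorem primIn_cj (hU : ∀ x : B, x ∈ Subgroup.normalizer (U : Set B))
    (hJ : PrimIn (fixAlg k U ⊥) J) (y : B) : PrimIn (fixAlg k U ⊥) (cj y J) where
  mem := DzAAux.mem_iff.2 ((DzAAux.mem_iff.1 hJ.mem).cj (hU y))
  idem := by rw [← cj_mul, hJ.idem]
  ne := fun h => hJ.ne (by rw [← cj_inv_cj y J, h, cj_zero])
  prim := fun f hf hff hJf hfJ => by
    have h1 : cj y⁻¹ f ∈ fixAlg k U ⊥ :=
      DzAAux.mem_iff.2 ((DzAAux.mem_iff.1 hf).cj (hU y⁻¹))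
    have h2 : cj y⁻¹ f * cj y⁻¹ f = cj y⁻¹ f := by rw [← cj_mul, hff]
    have h3 : J * cj y⁻¹ f = cj y⁻¹ f := by
      calc J * cj y⁻¹ f = cj y⁻¹ (cj y J) * cj y⁻¹ f := by rw [cj_inv_cj]
        _ = cj y⁻¹ f := by rw [← cj_mul, hJf]
    have h4 : cj y⁻¹ f * J = cj y⁻¹ f := by
      calc cj y⁻¹ f * J = cj y⁻¹ f * cj y⁻¹ (cj y J) := by rw [cj_inv_cj]
        _ = cj y⁻¹ f := by rw [← cj_mul, hfJ]
    rcases hJ.prim _ h1 h2 h3 h4 with h | h
    · left; rw [← cj_cj_inv y f, h, cj_zero]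
    · right; rw [← cj_cj_inv y f, h]

/-- the element `v` of order `e` -/
theorem exists_v (hU : ∀ x : B, x ∈ Subgroup.normalizer (U : Set B)) (hF : IsDZ p U F)
    (hJ : PrimIn (fixAlg k U ⊥) J) (hFJ : F * J = J) {y : B} (hy : cj y F = F) {e : ℕ}
    (he0 : 0 < e) (hye : y ^ e ∈ U) :
    ∃ v v' : MonoidAlgebra k B, SC U y v ∧ SC U y⁻¹ v' ∧ J * v = v ∧ v * J = v ∧ J * v' = v' ∧
      v' * J = v' ∧ v * v' = J ∧ v' * v = J ∧ J * v ^ e = J := by
  have hFJ' : F * cj y J = cj y J := by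
    calc F * cj y J = cj y F * cj y J := by rw [hy]
      _ = cj y J := by rw [← cj_mul, hFJ]
  obtain ⟨w₀, r, hw₀, hr, h1, h2, h3, h4, h5, h6⟩ :=
    dz_iso hF hJ (primIn_cj hU hJ y) hFJ hFJ'
  have hyy : single y⁻¹ (1 : k) * single y 1 = 1 := by
    rw [single_mul_single, inv_mul_cancel, one_mul]; rfl
  have hyy' : single y (1 : k) * single y⁻¹ 1 = 1 := by
    rw [single_mul_single, mul_inv_cancel, one_mul]; rfl
  have hcj : cj y J * single y (1 : k) = single y 1 * J := by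
    rw [cj, mul_assoc, hyy, mul_one]
  set w := w₀ * single y (1 : k) with hw
  set w' := single y⁻¹ (1 : k) * r with hw'
  have a1 : J * w = w := by rw [hw, ← mul_assoc, h1]
  have a2 : w * J = w := by
    rw [hw, mul_assoc, ← hcj, ← mul_assoc, h2]
  have a3 : J * w' = w' := by
    have hcj' : J * single y⁻¹ (1 : k) = single y⁻¹ 1 * cj y J := by
      rw [cj, ← mul_assoc, ← mul_assoc, hyy, one_mul]
    rw [hw', ← mul_assoc, hcj', mul_assoc, h3]
  have a4 : w' * J = w' := by rw [hw', mul_assoc, h4]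
  have a5 : w * w' = J := by
    calc w * w' = w₀ * (single y 1 * single y⁻¹ 1) * r := by rw [hw, hw']; simp only [mul_assoc]
      _ = J := by rw [hyy', mul_one, h5]
  have a6 : w' * w = J := by
    calc w' * w = single y⁻¹ (1 : k) * (r * w₀) * single y 1 := by
          rw [hw, hw']; simp only [mul_assoc]
      _ = (single y⁻¹ (1 : k) * single y 1) * J := by rw [h6, mul_assoc, hcj, ← mul_assoc]
      _ = J := by rw [hyy, one_mul]
  have b1 : SC U y w := by
    have := sc_mul hU (sc_of_supp hw₀) (sc_single (k := k) (U := U) y)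
    rwa [one_mul] at this
  have b2 : SC U y⁻¹ w' := by
    have := sc_mul hU (sc_single (k := k) (U := U) y⁻¹) (sc_of_supp hr)
    rwa [mul_one] at this
  have hJU : SuppIn U J := DzAAux.mem_iff.1 hJ.mem
  have c1 : SuppIn U (w ^ e) := supp_of_sc (sc_pow hU b1 e) hye
  obtain ⟨c, hc⟩ := dz_rank hF hJ hFJ c1
  have hc' : J * w ^ e = c • J := by
    rw [← hc, mul_assoc, pw_comm a1 a2, ← mul_assoc, hJ.idem]
  have hc0 : c ≠ 0 := by
    intro h0
    have h7 := pw_inv hJ.idem a1 a2 a3 a4 a6 e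
    rw [hc', h0, zero_smul, mul_zero] at h7
    exact hJ.ne h7.symm
  obtain ⟨d, hd⟩ := IsAlgClosed.exists_pow_nat_eq (c⁻¹) he0
  have hd0 : d ≠ 0 := by
    intro h0
    rw [h0, zero_pow he0.ne'] at hd
    exact inv_ne_zero hc0 hd.symm
  refine ⟨d • w, d⁻¹ • w', sc_smul b1 d, sc_smul b2 _, ?_, ?_, ?_, ?_, ?_, ?_, ?_⟩
  · rw [mul_smul_comm, a1]
  · rw [smul_mul_assoc, a2]
  · rw [mul_smul_comm, a3]
  · rw [smul_mul_assoc, a4]
  · rw [smul_mul_smul_comm, mul_inv_cancel₀ hd0, one_smul, a5]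
  · rw [smul_mul_smul_comm, inv_mul_cancel₀ hd0, one_smul, a6]
  · rw [smul_pow, mul_smul_comm, hc', hd, smul_smul, inv_mul_cancel₀ hc0, one_smul]

/-- `J x J` is a multiple of a power of `v` -/
theorem mid (hU : ∀ x : B, x ∈ Subgroup.normalizer (U : Set B)) (hF : IsDZ p U F)
    (hJ : PrimIn (fixAlg k U ⊥) J) (hFJ : F * J = J) {y : B}
    {v v' : MonoidAlgebra k B} (b2 : SC U y⁻¹ v') (a1 : J * v = v) (a2 : v * J = v)
    (a3 : J * v' = v') (a4 : v' * J = v') (a6 : v' * v = J)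
    (x : B) (hx : (∃ n : ℕ, x * (y ^ n)⁻¹ ∈ U) ∨ F * cj x F = 0) :
    ∃ (c : k) (n : ℕ), J * single x (1 : k) * J = c • (J * v ^ n) := by
  have hJU : SuppIn U J := DzAAux.mem_iff.1 hJ.mem
  rcases hx with ⟨n, hn⟩ | hx
  · have h1 : SC U (x * (y ^ n)⁻¹) (J * single x (1 : k) * (J * v' ^ n)) := by
      have h2 := sc_mul hU (sc_mul hU (sc_of_supp hJU) (sc_single (k := k) (U := U) x))
        (sc_mul hU (sc_of_supp hJU) (sc_pow hU b2 n))
      rwa [one_mul, one_mul, inv_pow] at h2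
    have h3 := supp_of_sc h1 hn
    obtain ⟨c, hc⟩ := dz_rank hF hJ hFJ h3
    have h4 : J * single x (1 : k) * (J * v' ^ n) = c • J := by
      rw [← hc]
      calc J * single x (1 : k) * (J * v' ^ n) = (J * J) * single x 1 * ((J * J) * v' ^ n) := by
            rw [hJ.idem]
        _ = J * (J * single x 1 * (J * (J * v' ^ n))) := by simp only [mul_assoc]
        _ = J * (J * single x 1 * (J * (v' ^ n * J))) := by rw [pw_comm a3 a4]
        _ = J * (J * single x 1 * (J * v' ^ n)) * J := by simp only [mul_assoc]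
    refine ⟨c, n, ?_⟩
    calc J * single x (1 : k) * J = J * single x (1 : k) * ((J * v' ^ n) * (J * v ^ n)) := by
          rw [pw_inv hJ.idem a1 a2 a3 a4 a6 n]
      _ = (J * single x (1 : k) * (J * v' ^ n)) * (J * v ^ n) := by simp only [mul_assoc]
      _ = c • (J * v ^ n) := by
          rw [h4, smul_mul_assoc, ← mul_assoc, hJ.idem]
  · refine ⟨0, 0, ?_⟩
    rw [zero_smul]
    have hJF : J * F = J := by rw [commute_of hJU hF.blk.invBy, hFJ]
    have h1 : F * single x (1 : k) * F = 0 := by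
      have h2 : F * single x (1 : k) * F = F * cj x F * single x 1 := by
        rw [cj]
        have h3 : single x⁻¹ (1 : k) * single x 1 = 1 := by
          rw [single_mul_single, inv_mul_cancel, one_mul]; rfl
        calc F * single x (1 : k) * F = F * (single x 1 * F * 1) := by
              rw [mul_one]; simp only [mul_assoc]
          _ = F * (single x 1 * F * single x⁻¹ 1) * single x 1 := by
              rw [← h3]; simp only [mul_assoc]
      rw [h2, hx, zero_mul]
    calc J * single x (1 : k) * J = (J * F) * single x 1 * (F * J) := by rw [hJF, hFJ]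
      _ = J * (F * single x (1 : k) * F) * J := by simp only [mul_assoc]
      _ = 0 := by rw [h1, mul_zero, zero_mul]

/-- the idempotents -/
noncomputable def jj (J v : MonoidAlgebra k B) (ζ : k) (e t : ℕ) : MonoidAlgebra k B :=
  (e : k)⁻¹ • ∑ n ∈ Finset.range e, ζ ^ (t * n) • (J * v ^ n)

theorem v_jj {v : MonoidAlgebra k B} (a1 : J * v = v) (a2 : v * J = v) {e : ℕ}
    (he : J * v ^ e = J) {ζ : k} (hζ : ζ ^ e = 1) (hζ0 : ζ ≠ 0) (t : ℕ) :
    v * jj J v ζ e t = (ζ ^ t)⁻¹ • jj J v ζ e t ∧ jj J v ζ e t * v = (ζ ^ t)⁻¹ • jj J v ζ e t := by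
  have hs : ∑ n ∈ Finset.range e, ζ ^ (t * n) • (J * v ^ (n + 1))
      = (ζ ^ t)⁻¹ • ∑ n ∈ Finset.range e, ζ ^ (t * n) • (J * v ^ n) := by
    have h1 : ∑ n ∈ Finset.range e, ζ ^ (t * n) • (J * v ^ (n + 1))
        = (ζ ^ t)⁻¹ • ∑ n ∈ Finset.range e, ζ ^ (t * (n + 1)) • (J * v ^ (n + 1)) := by
      rw [Finset.smul_sum]
      refine Finset.sum_congr rfl fun n _ => ?_
      have e1 : (ζ ^ t)⁻¹ * ζ ^ (t * (n + 1)) = ζ ^ (t * n) := by
        rw [Nat.mul_succ, pow_add, mul_comm (ζ ^ (t * n)), ← mul_assoc,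
          inv_mul_cancel₀ (pow_ne_zero t hζ0), one_mul]
      rw [smul_smul, e1]
    rw [h1]
    congr 1
    have h2 := Finset.sum_range_succ (fun n => ζ ^ (t * n) • (J * v ^ n)) e
    have h3 := Finset.sum_range_succ' (fun n => ζ ^ (t * n) • (J * v ^ n)) e
    have h4 : ζ ^ (t * e) • (J * v ^ e) = ζ ^ (t * 0) • (J * v ^ 0) := by
      rw [mul_comm t e, pow_mul, hζ, one_pow, he, mul_zero, pow_zero, pow_zero, mul_one]
    rw [h3] at h2
    simp only [h4] at h2
    exact add_right_cancel h2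
  constructor
  · rw [jj, mul_smul_comm, Finset.mul_sum, smul_comm, ← hs]
    congr 1
    refine Finset.sum_congr rfl fun n _ => ?_
    rw [mul_smul_comm, ← mul_assoc, a2, pow_succ', ← mul_assoc, a1]
  · rw [jj, smul_mul_assoc, Finset.sum_mul, smul_comm, ← hs]
    congr 1
    refine Finset.sum_congr rfl fun n _ => ?_
    rw [smul_mul_assoc, mul_assoc, ← pow_succ]

theorem J_jj {v : MonoidAlgebra k B} (hJ : J * J = J) (a1 : J * v = v) (a2 : v * J = v) {e : ℕ}
    {ζ : k} (t : ℕ) : J * jj J v ζ e t = jj J v ζ e t ∧ jj J v ζ e t * J = jj J v ζ e t := by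
  constructor
  · rw [jj, mul_smul_comm, Finset.mul_sum]
    congr 1
    refine Finset.sum_congr rfl fun n _ => ?_
    rw [mul_smul_comm, ← mul_assoc, hJ]
  · rw [jj, smul_mul_assoc, Finset.sum_mul]
    congr 1
    refine Finset.sum_congr rfl fun n _ => ?_
    rw [smul_mul_assoc, mul_assoc, pw_comm a1 a2, ← mul_assoc, hJ]

theorem pow_jj {v : MonoidAlgebra k B} (hJ : J * J = J) (a1 : J * v = v) (a2 : v * J = v) {e : ℕ}
    (he : J * v ^ e = J) {ζ : k} (hζ : ζ ^ e = 1) (hζ0 : ζ ≠ 0) (t n : ℕ) :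
    (J * v ^ n) * jj J v ζ e t = ((ζ ^ t)⁻¹) ^ n • jj J v ζ e t ∧
      jj J v ζ e t * (J * v ^ n) = ((ζ ^ t)⁻¹) ^ n • jj J v ζ e t := by
  obtain ⟨h1, h2⟩ := v_jj a1 a2 he hζ hζ0 t
  obtain ⟨h3, h4⟩ := J_jj (e := e) (ζ := ζ) hJ a1 a2 t
  induction n with
  | zero =>
    rw [pow_zero, pow_zero, mul_one, one_smul]
    exact ⟨h3, h4⟩
  | succ n ih =>
    constructor
    · rw [pow_succ, ← mul_assoc, mul_assoc, h1, mul_smul_comm, ih.1, smul_smul, pow_succ, mul_comm]
    · rw [pow_succ, ← mul_assoc, ← mul_assoc, mul_assoc _ J, ih.2, smul_mul_assoc, h2, smul_smul,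
        pow_succ]

theorem jj_mul {v : MonoidAlgebra k B} (hJ : J * J = J) (a1 : J * v = v) (a2 : v * J = v) {e : ℕ}
    (he : J * v ^ e = J) {ζ : k} (hζ : ζ ^ e = 1) (hζ0 : ζ ≠ 0) (s t : ℕ) :
    jj J v ζ e s * jj J v ζ e t
      = ((e : k)⁻¹ * ∑ n ∈ Finset.range e, (ζ ^ s * (ζ ^ t)⁻¹) ^ n) • jj J v ζ e t := by
  conv_lhs => rw [jj]
  rw [smul_mul_assoc, Finset.sum_mul, ← smul_smul, Finset.sum_smul]
  congr 1
  refine Finset.sum_congr rfl fun n _ => ?_
  rw [smul_mul_assoc, (pow_jj hJ a1 a2 he hζ hζ0 t n).1, smul_smul, mul_pow, ← pow_mul]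

theorem abs (hU : ∀ x : B, x ∈ Subgroup.normalizer (U : Set B)) (hF : IsDZ p U F)
    (hJ : PrimIn (fixAlg k U ⊥) J) (hFJ : F * J = J) {y : B} (hy : cj y F = F) {e : ℕ}
    (he0 : 0 < e) (hek : (e : k) ≠ 0) (hye : ∀ n : ℕ, y ^ n ∈ U ↔ e ∣ n)
    (hx : ∀ x : B, (∃ n : ℕ, x * (y ^ n)⁻¹ ∈ U) ∨ F * cj x F = 0) :
    ∃ j : Fin e → MonoidAlgebra k B,
      (∀ t, j t * j t = j t ∧ j t ≠ 0 ∧ J * j t = j t ∧ j t * J = j t) ∧
      (∀ s t, s ≠ t → j s * j t = 0) ∧
      (∀ (x : MonoidAlgebra k B) (t), (J * x * J) * j t = j t * (J * x * J)) ∧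
      ∀ (x : MonoidAlgebra k B) (t), ∃ c : k, j t * x * j t = c • j t := by
  classical
  obtain ⟨v, v', b1, b2, a1, a2, a3, a4, a5, a6, hve⟩ :=
    exists_v hU hF hJ hFJ hy he0 ((hye e).2 dvd_rfl)
  have : NeZero (e : k) := ⟨hek⟩
  obtain ⟨ζ, hζ⟩ := HasEnoughRootsOfUnity.exists_primitiveRoot k e
  have hζ1 : ζ ^ e = 1 := hζ.pow_eq_one
  have hζ0 : ζ ≠ 0 := hζ.ne_zero he0.ne'
  have hJJ := hJ.idem
  have hJU : SuppIn U J := DzAAux.mem_iff.1 hJ.mem
  have hidem : ∀ t, jj J v ζ e t * jj J v ζ e t = jj J v ζ e t := by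
    intro t
    rw [jj_mul hJJ a1 a2 hve hζ1 hζ0, mul_inv_cancel₀ (pow_ne_zero t hζ0)]
    simp [hek]
  have hne : ∀ t, jj J v ζ e t ≠ 0 := by
    intro t h0
    obtain ⟨z, hz⟩ : ∃ z, J.coeff z ≠ 0 := by
      by_contra h
      push Not at h
      exact hJ.ne (by ext x; simpa using h x)
    have hzU := hJU z hz
    have h1 : (jj J v ζ e t).coeff z = (e : k)⁻¹ * J.coeff z := by
      rw [jj, coeff_smul, Finsupp.smul_apply, smul_eq_mul, coeff_sum, Finsupp.finsetSum_apply]
      congr 1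
      rw [Finset.sum_eq_single 0]
      · rw [mul_zero, pow_zero, one_smul, pow_zero, mul_one]
      · intro n hn hn0
        rw [coeff_smul, Finsupp.smul_apply, smul_eq_mul]
        have h2 : (J * v ^ n).coeff z = 0 := by
          by_contra h3
          have h4 : SC U (y ^ n) (J * v ^ n) := by
            have h5 := sc_mul hU (sc_of_supp hJU) (sc_pow hU b1 n)
            rwa [one_mul] at h5
          have h6 := sc_coeff h4 h3
          have h7 : y ^ n ∈ U := by
            have h8 := U.mul_mem (U.inv_mem h6) hzU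
            have h9 : (z * (y ^ n)⁻¹)⁻¹ * z = y ^ n := by group
            rwa [h9] at h8
          have h10 := (hye n).1 h7
          exact absurd (Nat.le_of_dvd (Nat.pos_of_ne_zero hn0) h10)
            (not_le.2 (Finset.mem_range.1 hn))
        rw [h2, mul_zero]
      · intro h
        exact absurd (Finset.mem_range.2 he0) h
    rw [h0] at h1
    have h2 : (0 : k) = (e : k)⁻¹ * J.coeff z := by rw [← h1]; simp
    exact mul_ne_zero (inv_ne_zero hek) hz h2.symm
  have key : ∀ (t : ℕ) (x : MonoidAlgebra k B), ∃ c : k,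
      (J * x * J) * jj J v ζ e t = c • jj J v ζ e t ∧
      jj J v ζ e t * (J * x * J) = c • jj J v ζ e t := by
    intro t x
    induction x using MonoidAlgebra.induction_linear with
    | zero => exact ⟨0, by simp, by simp⟩
    | add f g hf hg =>
      obtain ⟨c, hc1, hc2⟩ := hf
      obtain ⟨d, hd1, hd2⟩ := hg
      exact ⟨c + d, by rw [mul_add, add_mul, add_mul, hc1, hd1, add_smul],
        by rw [mul_add, add_mul, mul_add, hc2, hd2, add_smul]⟩
    | single x d =>
      obtain ⟨c, n, hc⟩ := mid hU hF hJ hFJ b2 a1 a2 a3 a4 a6 x (hx x)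
      have h1 : J * single x d * J = (d * c) • (J * v ^ n) := by
        have h2 : single x d = d • single x (1 : k) := by
          rw [MonoidAlgebra.smul_single, smul_eq_mul, mul_one]
        rw [h2, mul_smul_comm, smul_mul_assoc, hc, smul_smul]
      obtain ⟨h3, h4⟩ := pow_jj hJJ a1 a2 hve hζ1 hζ0 t n
      refine ⟨d * c * ((ζ ^ t)⁻¹) ^ n, ?_, ?_⟩
      · rw [h1, smul_mul_assoc, h3, smul_smul]
      · rw [h1, mul_smul_comm, h4, smul_smul]
  refine ⟨fun t => jj J v ζ e t, fun t => ⟨hidem t, hne t, J_jj hJJ a1 a2 t⟩, ?_, ?_, ?_⟩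
  · intro s t hst
    rw [jj_mul hJJ a1 a2 hve hζ1 hζ0]
    have h1 : (ζ ^ (s : ℕ) * (ζ ^ (t : ℕ))⁻¹) ≠ 1 := by
      intro h
      have h2 : ζ ^ (s : ℕ) = ζ ^ (t : ℕ) := by
        rw [mul_inv_eq_one₀ (pow_ne_zero _ hζ0)] at h
        exact h
      exact hst (Fin.ext (hζ.pow_inj s.2 t.2 h2))
    have h2 : (ζ ^ (s : ℕ) * (ζ ^ (t : ℕ))⁻¹) ^ e = 1 := by
      rw [mul_pow, inv_pow, ← pow_mul, ← pow_mul, mul_comm (s : ℕ), mul_comm (t : ℕ), pow_mul,
        pow_mul, hζ1, one_pow, one_pow, inv_one, mul_one]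
    have h3 : ∑ n ∈ Finset.range e, (ζ ^ (s : ℕ) * (ζ ^ (t : ℕ))⁻¹) ^ n = 0 := by
      have h4 := geom_sum_mul (ζ ^ (s : ℕ) * (ζ ^ (t : ℕ))⁻¹) e
      rw [h2, sub_self] at h4
      exact (mul_eq_zero.1 h4).resolve_right (sub_ne_zero.2 h1)
    rw [h3, mul_zero, zero_smul]
  · intro x t
    obtain ⟨c, h1, h2⟩ := key t x
    rw [h1, h2]
  · intro x t
    obtain ⟨c, h1, h2⟩ := key t x
    obtain ⟨h3, h4⟩ := J_jj (e := e) (ζ := ζ) hJJ a1 a2 (t : ℕ)
    refine ⟨c, ?_⟩
    calc jj J v ζ e t * x * jj J v ζ e t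
        = (jj J v ζ e t * J) * x * (J * jj J v ζ e t) := by rw [h3, h4]
      _ = jj J v ζ e t * (J * x * J) * jj J v ζ e t := by simp only [mul_assoc]
      _ = c • jj J v ζ e t := by rw [h2, smul_mul_assoc, hidem]

end main

section grp
variable [Finite A] {D : Subgroup A} {f : MonoidAlgebra k A}

theorem pow_mem_iff (hK : CD D ≤ St D f) {g : A} (hg : g ∈ St D f)
    (hc : ∀ x ∈ St D f, ∃ n : ℕ, x * (g ^ n)⁻¹ ∈ CD D) (n : ℕ) :
    g ^ n ∈ CD D ↔ eN D f ∣ n := by
  have hnorm : ((CD D).subgroupOf (St D f)).Normal := by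
    refine ⟨fun x hx y => ?_⟩
    rw [Subgroup.mem_subgroupOf] at hx ⊢
    have hy := (mem_St.1 y.2).1
    have h1 := y.1
    rw [Subgroup.mem_centralizer_iff] at hx ⊢
    intro d hd
    have hy' := Subgroup.mem_normalizer_iff.1 ((Subgroup.normalizer (D : Set A)).inv_mem hy)
    have h2 : (y : A)⁻¹ * d * (y : A) ∈ D := by
      have h3 := (hy' d).1 hd
      rwa [inv_inv] at h3
    have h4 := hx _ h2
    change d * ((y : A) * (x : A) * (y : A)⁻¹) = (y : A) * (x : A) * (y : A)⁻¹ * d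
    calc d * ((y : A) * (x : A) * (y : A)⁻¹)
        = (y : A) * (((y : A)⁻¹ * d * (y : A)) * (x : A)) * (y : A)⁻¹ := by group
      _ = (y : A) * ((x : A) * ((y : A)⁻¹ * d * (y : A))) * (y : A)⁻¹ := by rw [h4]
      _ = (y : A) * (x : A) * (y : A)⁻¹ * d := by group
  let q : ↥(St D f) ⧸ (CD D).subgroupOf (St D f) := QuotientGroup.mk ⟨g, hg⟩
  have hgen : ∀ z : ↥(St D f) ⧸ (CD D).subgroupOf (St D f), z ∈ Subgroup.zpowers q := by
    intro z
    obtain ⟨x, rfl⟩ := QuotientGroup.mk_surjective z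
    obtain ⟨n, hn⟩ := hc x x.2
    refine ⟨(n : ℤ), ?_⟩
    change q ^ (n : ℤ) = _
    rw [zpow_natCast]
    have h1 : q ^ n = QuotientGroup.mk ((⟨g, hg⟩ : ↥(St D f)) ^ n) := rfl
    rw [h1, QuotientGroup.eq, Subgroup.mem_subgroupOf]
    have h2 : (((⟨g, hg⟩ : ↥(St D f)) ^ n)⁻¹ * x : ↥(St D f)) = (g ^ n)⁻¹ * (x : A) := rfl
    rw [h2]
    have h3 := hnorm.conj_mem ⟨(x : A) * (g ^ n)⁻¹, hK hn⟩ (Subgroup.mem_subgroupOf.2 hn)
      ((⟨g, hg⟩ : ↥(St D f)) ^ n)⁻¹
    rw [Subgroup.mem_subgroupOf] at h3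
    have h4 : (((⟨g, hg⟩ : ↥(St D f)) ^ n)⁻¹ * ⟨(x : A) * (g ^ n)⁻¹, hK hn⟩ *
      (((⟨g, hg⟩ : ↥(St D f)) ^ n)⁻¹)⁻¹ : ↥(St D f))
        = (g ^ n)⁻¹ * ((x : A) * (g ^ n)⁻¹) * ((g ^ n)⁻¹)⁻¹ := rfl
    rw [h4] at h3
    have h5 : (g ^ n)⁻¹ * ((x : A) * (g ^ n)⁻¹) * ((g ^ n)⁻¹)⁻¹ = (g ^ n)⁻¹ * (x : A) := by group
    rwa [h5] at h3
  have hord : orderOf q = eN D f := by
    rw [orderOf_eq_card_of_forall_mem_zpowers hgen]
    rfl
  rw [← hord, orderOf_dvd_iff_pow_eq_one]
  have h1 : q ^ n = QuotientGroup.mk ((⟨g, hg⟩ : ↥(St D f)) ^ n) := rfl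
  rw [h1, QuotientGroup.eq_one_iff, Subgroup.mem_subgroupOf]
  rfl

end grp

end WeAux

open WeAux


section
variable [Fact p.Prime] [CharP k p] [IsAlgClosed k] [Fintype A]
variable {b f i : MonoidAlgebra k A} {D : Subgroup A}

theorem exists_cyc (h : Src p b D f i) (hE : ¬ p ∣ eN D f)
    (hc : ∃ g ∈ St D f, ∀ x ∈ St D f, ∃ n : ℕ, x * (g ^ n)⁻¹ ∈ CD D) :
    ∃ j : Fin (eN D f) → MonoidAlgebra k (NQ D),
      (∀ t, j t * j t = j t ∧ j t ≠ 0 ∧ proj D i * j t = j t ∧ j t * proj D i = j t) ∧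
      (∀ s t, s ≠ t → j s * j t = 0) ∧
      (∀ (x : MonoidAlgebra k (NQ D)) (t), (proj D i * x * proj D i) * j t =
        j t * (proj D i * x * proj D i)) ∧
      ∀ (x : MonoidAlgebra k (NQ D)) (t), ∃ c : k, j t * x * j t = c • j t := by
  classical
  have hfin : Fintype (NQ D) := Fintype.ofFinite _
  have hP : IsPGroup p D := h.root.dfg.isPGroup
  have hDC : D ≤ CD D := D_le_CD h.root.com
  have hfb := h.root.fblk
  have hCS := CD_le_St hfb
  obtain ⟨g, hg, hgc⟩ := hc
  have hgn := (mem_St.1 hg).1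
  have hconj : ∀ x ∈ Subgroup.normalizer (D : Set A), ∀ c ∈ CD D, x * c * x⁻¹ ∈ CD D := by
    intro x hx c hc
    rw [Subgroup.mem_centralizer_iff] at hc ⊢
    intro d hd
    have hx' := Subgroup.mem_normalizer_iff.1 ((Subgroup.normalizer (D : Set A)).inv_mem hx)
    have h2 : x⁻¹ * d * x ∈ D := by
      have h3 := (hx' d).1 hd
      rwa [inv_inv] at h3
    have h4 := hc _ h2
    calc d * (x * c * x⁻¹) = x * ((x⁻¹ * d * x) * c) * x⁻¹ := by group
      _ = x * (c * (x⁻¹ * d * x)) * x⁻¹ := by rw [h4]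
      _ = x * c * x⁻¹ * d := by group
  have hU : ∀ x : NQ D, x ∈ Subgroup.normalizer (sec (CD D) D : Set (NQ D)) := by
    have key : ∀ x u : NQ D, u ∈ sec (CD D) D → x * u * x⁻¹ ∈ sec (CD D) D := by
      intro x u hu
      obtain ⟨n, hn, rfl⟩ := qm_surj x
      obtain ⟨c, hc, hc', rfl⟩ := mem_sec.1 hu
      exact qm_mem_sec (x := n * c * n⁻¹) ((Subgroup.normalizer (D : Set A)).mul_mem
        ((Subgroup.normalizer (D : Set A)).mul_mem hn hc')
        ((Subgroup.normalizer (D : Set A)).inv_mem hn)) (hconj n hn c hc)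
    intro x
    rw [Subgroup.mem_normalizer_iff]
    intro u
    refine ⟨fun hu => key x u hu, fun hu => ?_⟩
    have h1 := key x⁻¹ _ hu
    have h2 : x⁻¹ * (x * u * x⁻¹) * x⁻¹⁻¹ = u := by group
    rwa [h2] at h1
  have hfix : ∀ n ∈ Subgroup.normalizer (D : Set A), cj n f = f ∨ f * cj n f = 0 := by
    intro n hn
    have h1 : IsBlock (CD D) (cj n f) := by
      have h2 := isBlock_cg hfb n
      have h3 : cg n (CD D) = CD D := by
        ext x
        constructor
        · intro hx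
          obtain ⟨c, hc, rfl⟩ := Subgroup.mem_map.1 hx
          exact hconj n hn c hc
        · intro hx
          refine Subgroup.mem_map.2 ⟨n⁻¹ * x * n, ?_, ?_⟩
          · have h4 := hconj n⁻¹ ((Subgroup.normalizer (D : Set A)).inv_mem hn) x hx
            rwa [inv_inv] at h4
          · change n * (n⁻¹ * x * n) * n⁻¹ = x
            group
      rwa [h3] at h2
    rcases hfb.eq_or_mul_eq_zero h1 with h2 | h2
    · left; exact h2.symm
    · right; exact h2
  have hxx : ∀ x : NQ D, (∃ n : ℕ, x * (qm D g hgn ^ n)⁻¹ ∈ sec (CD D) D) ∨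
      proj D f * cj x (proj D f) = 0 := by
    intro x
    obtain ⟨n, hn, rfl⟩ := qm_surj x
    rcases hfix n hn with h1 | h1
    · left
      obtain ⟨m, hm⟩ := hgc n (mem_St.2 ⟨hn, h1⟩)
      exact ⟨m, qm_mem_sec (x := n * (g ^ m)⁻¹) ((Subgroup.normalizer (D : Set A)).mul_mem hn
        ((Subgroup.normalizer (D : Set A)).inv_mem
          ((Subgroup.normalizer (D : Set A)).pow_mem hgn m))) hm⟩
    · right
      have hfD : InvBy D f := hfb.invBy.mono hDC
      have hfD' : InvBy D (cj n f) := by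
        rw [invBy_iff_cj] at hfD ⊢
        intro d hd
        have hn' := Subgroup.mem_normalizer_iff.1 ((Subgroup.normalizer (D : Set A)).inv_mem hn)
        have h2 : n⁻¹ * d * n ∈ D := by
          have h3 := (hn' d).1 hd
          rwa [inv_inv] at h3
        have h4 : d * n = n * (n⁻¹ * d * n) := by group
        rw [cj_cj, h4, ← cj_cj, hfD _ h2]
      rw [← Fr.proj_cj f hn, ← proj_mul hP hfD hfD', h1]
      ext w
      obtain ⟨m, hm, rfl⟩ := qm_surj w
      rw [coeff_proj]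
      simp
  have he0 : 0 < eN D f := Nat.pos_of_ne_zero (by
    rw [eN, Subgroup.relIndex]
    exact Subgroup.index_ne_zero_of_finite)
  have hek : ((eN D f : ℕ) : k) ≠ 0 := fun h0 => hE ((CharP.cast_eq_zero_iff k p _).1 h0)
  refine abs hU (F_dz h.root) (J_prim h) (J_F h) (y := qm D g hgn) ?_ he0 hek ?_ hxx
  · rw [← Fr.proj_cj f hgn, (mem_St.1 hg).2]
  · intro n
    rw [← pow_mem_iff hCS hg hgc n]
    exact qm_mem_sec_iff hDC (x := g ^ n)
      (hx := (Subgroup.normalizer (D : Set A)).pow_mem hgn n)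

end

end Pool.Agent.Lib.P0c8ca5.Ex
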