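import Mathlib
import Pool.Agent.Lib.P0c8ca5Ex.We
import Pool.Agent.Lib.P0c8ca5Ex.Fm
import Pool.Agent.Lib.P0c8ca5Ex.DzB
import Pool.Agent.Lib.P0c8ca5Ex.NI
import Pool.Agent.Lib.P0c8ca5.Reg
import Pool.Agent.Lib.P0c8ca5.Official
import Pool.Agent.Lib.P0c8ca5R.BrA
import Pool.Agent.Lib.P0c8ca5N.WSum
import Pool.Agent.Lib.P0c8ca5P.FrF
import Pool.Agent.Lib.P0c8ca5Bw.NilB

/-!
# Wf: a cyclic inertial quotient of order `e` gives at least `e` weights

`J = proj D i`, `F = proj D f`, `U = sec (CD D) D`, `N̄ = NQ D`, `j t` from `exists_cyc`.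
PROOF of `wt_ge`. `∑_(x : N̄) cj x J = (t₀ * e) • F̂`, where `e = eN D f`, `F̂ = proj D b`: `trK U J = t₀ • F`, `t₀ ≠ 0` (`dz_tr`, `F_dz`, `J_prim`, `J_F`), the sum over `N̄` is the sum over the cosets `y U` (`U` is normal) of `cj y (trK U J) = t₀ • cj y F`; every conjugate of `F` occurs `|St D f / C(D)| = e` times, and `F̂` is the sum of the conjugates of `F` (the blocks of `C(D)` below `resS C(D) b` are the conjugates of `f` under `N(D)`, `fm_top`; `WSumAux.sum_blocks`). So `s = t₀ * e ≠ 0` in `k`.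
Put `φ t = s⁻¹ • ∑_(x : N̄) cj x (j t)` (`= s⁻¹ • trK ⊤ (j t)`), central in `kN̄`. `φ t * F̂ = φ t` (`F̂ * j t = F̂ * J * j t`, `F̂ * J = J`, `F̂` is central).
(1) `φ t * J = j t`: `J * x j x⁻¹ * J = (J x J) * j * (J x⁻¹ J)` with `j = j t = J * j * J`, and `J x J` commutes with `j`: it is `j * (J x J) * (J x⁻¹ J) = j * (J * cj x J * J)`; the sum over `x` is `j * J * (s • F̂) * J = s • j`.
(2) If `z` is central in `kN̄`, `z * F̂ = z` and `z * J = 0`, then `z = 0`: `z * F = 0` by `dz_gen` (`F` is a sum of `x * J * x'`), `z * cj y F = 0`, so `z * F̂ = 0`.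
(3) `φ t * φ t - φ t` is as in (2) by (1), so `φ t` is idempotent; `φ t ≠ 0` because `j t ≠ 0`; `φ s * φ t = 0` for `s ≠ t` by (2), so `φ` is injective.
(4) `φ t` is primitive: if `z` is a central idempotent with `z * φ t = z`, then `z * J = z * φ t * J = z * j t`, and `z * j t = j t * z * j t = c • j t` with `c ^ 2 = c`, so `c = 0` or `c = 1`, and `(z - c • φ t) * J = 0`; by (2) `z = c • φ t`.
(5) defect zero: for a p-subgroup `P ≠ ⊥` and `x` in the centralizer of `P` the coefficient of `trK ⊤ a` at `x` is `0` (`coeff_trK_eq_zero`, see `coeff_cent` in P0c8ca5D.TriA).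
-/

namespace Pool.Agent.Lib.P0c8ca5.Ex

open MonoidAlgebra Rk

variable {p : ℕ} {k : Type*} [Field k] {A : Type*} [Group A]

namespace WfAux

section abs
variable {B : Type*} [Group B] [Fintype B]
variable {U : Subgroup B} {F J : MonoidAlgebra k B}

omit [Fintype B] in
theorem central {z : MonoidAlgebra k B} (hz : InvBy (⊤ : Subgroup B) z) (a : MonoidAlgebra k B) :
    a * z = z * a :=
  commute_of (K := ⊤) (fun x _ => Subgroup.mem_top x) hz

omit [Fintype B] in
theorem cj_central {z : MonoidAlgebra k B} (hz : InvBy (⊤ : Subgroup B) z) (x : B) :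
    cj x z = z := invBy_iff_cj.1 hz x (Subgroup.mem_top x)

theorem trK_top (a : MonoidAlgebra k B) : trK (⊤ : Subgroup B) a = ∑ x : B, cj x a := by
  classical
  rw [trK]
  refine Finset.sum_congr ?_ fun _ _ => rfl
  ext x
  simp

theorem sum_U (a : MonoidAlgebra k B) [Fintype ↥U] : ∑ w : ↥U, cj (w : B) a = trK U a := by
  classical
  rw [trK]
  symm
  exact Finset.sum_subtype (Finset.univ.filter (fun x => x ∈ U)) (fun x => by simp)
    (fun x => cj x a)

variable [Fact p.Prime] [CharP k p] [IsAlgClosed k]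

/-- the sum of the conjugates of `J` -/
theorem key (hF : IsDZ p U F)
    (hJ : PrimIn (fixAlg k U ⊥) J) (hFJ : F * J = J) {S : Subgroup B}
    (hS : ∀ x, cj x F = F ↔ x ∈ S) (hUS : U ≤ S) :
    ∃ t : k, t ≠ 0 ∧ trK (⊤ : Subgroup B) J = (t * (U.relIndex S : k)) • orbSum ⊤ F := by
  classical
  obtain ⟨t, ht, htr⟩ := dz_tr hF hJ hFJ
  refine ⟨t, ht, ?_⟩
  obtain ⟨X, hX⟩ := exists_reps (A := B) (K := ⊤) (D := U) le_top
  have h1 : trK (⊤ : Subgroup B) J = t • ∑ q ∈ X, cj q F := by
    rw [trK_top, sum_reps hX, Finset.smul_sum]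
    refine Finset.sum_congr rfl fun q _ => ?_
    rw [← cj_smul, ← htr, ← sum_U, cj_sum]
    exact Finset.sum_congr rfl fun w _ => (cj_cj q w J).symm
  have h2 : ∑ q ∈ X, cj q F = (U.relIndex S : k) • orbSum ⊤ F := by
    rw [orbSum, Finset.smul_sum]
    rw [← Finset.sum_fiberwise_of_maps_to (s := X) (t := orb ⊤ F) (g := fun q => cj q F)
      (fun q _ => mem_orb.2 ⟨q, Subgroup.mem_top q, rfl⟩)]
    refine Finset.sum_congr rfl fun z hz => ?_
    obtain ⟨g, -, rfl⟩ := mem_orb.1 hz
    rw [Finset.sum_congr rfl fun q hq => (Finset.mem_filter.1 hq).2, Finset.sum_const,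
      ← BrAAux.card_reps hX hUS g, Nat.cast_smul_eq_nsmul]
    congr 2
    ext q
    rw [Finset.mem_filter, Finset.mem_filter, ← hS]
    refine and_congr_right fun _ => ?_
    rw [← cj_cj]
    constructor
    · intro h
      rw [h, cj_cj, inv_mul_cancel, cj_one_left]
    · intro h
      have h3 := congrArg (cj g) h
      rw [cj_cj, mul_inv_cancel, cj_one_left] at h3
      exact h3
  rw [h1, h2, smul_smul]

/-- central elements below the orbit sum are determined by the product with `J` -/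
theorem zero_of (hF : IsDZ p U F) (hJ : PrimIn (fixAlg k U ⊥) J) (hFJ : F * J = J)
    {z : MonoidAlgebra k B} (hz : InvBy (⊤ : Subgroup B) z) (h1 : z * orbSum ⊤ F = z)
    (h2 : z * J = 0) : z = 0 := by
  have hzF : z * F = 0 := by
    have h3 := dz_gen hF hJ hFJ
    refine Submodule.span_induction (p := fun y _ => z * y = 0) ?_ (mul_zero z) ?_ ?_ h3
    · rintro _ ⟨x, x', -, -, rfl⟩
      rw [← mul_assoc, ← mul_assoc, ← central hz x, mul_assoc x z J, h2, mul_zero, zero_mul]
    · intro x y _ _ hx hy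
      rw [mul_add, hx, hy, add_zero]
    · intro c x _ hx
      rw [mul_smul_comm, hx, smul_zero]
  rw [← h1, orbSum, Finset.mul_sum]
  refine Finset.sum_eq_zero fun w hw => ?_
  obtain ⟨g, -, rfl⟩ := mem_orb.1 hw
  calc z * cj g F = cj g z * cj g F := by rw [cj_central hz]
    _ = 0 := by rw [← cj_mul, hzF, cj_zero]

theorem core (hn : ∀ x : B, x ∈ Subgroup.normalizer (U : Set B)) (hF : IsDZ p U F)
    (hJ : PrimIn (fixAlg k U ⊥) J) (hFJ : F * J = J) {S : Subgroup B}
    (hS : ∀ x, cj x F = F ↔ x ∈ S) (hUS : U ≤ S) (hne : (U.relIndex S : k) ≠ 0) {n : ℕ}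
    (j : Fin n → MonoidAlgebra k B)
    (h1 : ∀ t, j t * j t = j t ∧ j t ≠ 0 ∧ J * j t = j t ∧ j t * J = j t)
    (h2 : ∀ s t, s ≠ t → j s * j t = 0)
    (h3 : ∀ (x : MonoidAlgebra k B) (t), (J * x * J) * j t = j t * (J * x * J))
    (h4 : ∀ (x : MonoidAlgebra k B) (t), ∃ c : k, j t * x * j t = c • j t) :
    n ≤ Nat.card {φ : MonoidAlgebra k B | IsDZ p (⊤ : Subgroup B) φ ∧ φ * orbSum ⊤ F = φ} := by
  classical
  obtain ⟨t₀, ht₀, hkey⟩ := key hF hJ hFJ hS hUS
  set s : k := t₀ * (U.relIndex S : k) with hs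
  have hs0 : s ≠ 0 := mul_ne_zero ht₀ hne
  have hle : (⊤ : Subgroup B) ≤ Subgroup.normalizer (U : Set B) := fun x _ => hn x
  have hFhI : InvBy (⊤ : Subgroup B) (orbSum ⊤ F) := orbSum_invBy ⊤ F
  have hFhF : orbSum ⊤ F * F = F := orbSum_mul hle hF.blk F (self_mem_orb ⊤ F)
  have hFhJ : orbSum ⊤ F * J = J := by
    calc orbSum ⊤ F * J = orbSum ⊤ F * F * J := by rw [mul_assoc, hFJ]
      _ = J := by rw [hFhF, hFJ]
  have hJJ : J * J = J := hJ.idem
  have hjF : ∀ t, j t * orbSum ⊤ F = j t := by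
    intro t
    calc j t * orbSum ⊤ F = j t * J * orbSum ⊤ F := by rw [(h1 t).2.2.2]
      _ = j t * (orbSum ⊤ F * J) := by rw [mul_assoc, central hFhI J]
      _ = j t := by rw [hFhJ, (h1 t).2.2.2]
  let φ : Fin n → MonoidAlgebra k B := fun t => s⁻¹ • trK (⊤ : Subgroup B) (j t)
  have hφ : ∀ t, φ t = s⁻¹ • trK (⊤ : Subgroup B) (j t) := fun t => rfl
  have hφI : ∀ t, InvBy (⊤ : Subgroup B) (φ t) := by
    intro t
    rw [hφ, ← trK_smul]
    exact trK_invBy ⊤ _
  have hφF : ∀ t, φ t * orbSum ⊤ F = φ t := by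
    intro t
    rw [hφ, smul_mul_assoc, ← trK_mul (j t) hFhI, hjF]
  -- (1)
  have e1 : ∀ t, φ t * J = j t := by
    intro t
    have hx : ∀ x : B, J * cj x (j t) * J = j t * (J * cj x J * J) := by
      intro x
      have a1 : J * cj x (j t) * J = (J * single x 1 * J) * j t * (J * single x⁻¹ 1 * J) := by
        have a2 : j t = J * j t * J := by rw [(h1 t).2.2.1, (h1 t).2.2.2]
        calc J * cj x (j t) * J = J * (single x 1 * (J * j t * J) * single x⁻¹ 1) * J := by
              rw [← a2]; rfl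
          _ = (J * single x 1 * J) * j t * (J * single x⁻¹ 1 * J) := by
              simp only [mul_assoc]
      rw [a1, h3]
      calc j t * (J * single x 1 * J) * (J * single x⁻¹ 1 * J)
          = j t * (J * (single x 1 * (J * J) * single x⁻¹ 1) * J) := by simp only [mul_assoc]
        _ = j t * (J * cj x J * J) := by rw [hJJ]; rfl
    have a3 : J * trK (⊤ : Subgroup B) (j t) * J = s • j t := by
      rw [trK_top, Finset.mul_sum, Finset.sum_mul, Finset.sum_congr rfl fun x _ => hx x,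
        ← Finset.mul_sum, ← Finset.sum_mul, ← Finset.mul_sum, ← trK_top, hkey, mul_smul_comm,
        smul_mul_assoc, mul_smul_comm, mul_assoc J, hFhJ, hJJ, (h1 t).2.2.2]
    have a4 : J * trK (⊤ : Subgroup B) (j t) = trK (⊤ : Subgroup B) (j t) * J :=
      central (trK_invBy ⊤ _) J
    rw [a4, mul_assoc, hJJ] at a3
    rw [hφ, smul_mul_assoc, a3, smul_smul, inv_mul_cancel₀ hs0, one_smul]
  have e1' : ∀ t u, φ t * j u = j t * j u := by
    intro t u
    calc φ t * j u = φ t * J * j u := by rw [mul_assoc, (h1 u).2.2.1]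
      _ = j t * j u := by rw [e1]
  have e0 : ∀ t, φ t ≠ 0 := by
    intro t h0
    apply (h1 t).2.1
    rw [← e1 t, h0, zero_mul]
  have emul : ∀ a c : MonoidAlgebra k B, InvBy (⊤ : Subgroup B) a → InvBy (⊤ : Subgroup B) c →
      InvBy (⊤ : Subgroup B) (a * c) := by
    intro a c ha hc
    rw [invBy_iff_cj] at ha hc ⊢
    intro g hg
    rw [cj_mul, ha g hg, hc g hg]
  have esub : ∀ a c : MonoidAlgebra k B, InvBy (⊤ : Subgroup B) a → InvBy (⊤ : Subgroup B) c →
      ∀ r : k, InvBy (⊤ : Subgroup B) (a - r • c) := by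
    intro a c ha hc r
    rw [invBy_iff_cj] at ha hc ⊢
    intro g hg
    rw [sub_eq_add_neg, ← neg_smul, cj_add, cj_smul, ha g hg, hc g hg]
  -- (3)
  have e3 : ∀ t, φ t * φ t = φ t := by
    intro t
    have a1 : φ t * φ t - (1 : k) • φ t = 0 := by
      refine zero_of hF hJ hFJ (esub _ _ (emul _ _ (hφI t) (hφI t)) (hφI t) 1) ?_ ?_
      · rw [one_smul, sub_mul, mul_assoc, hφF]
      · rw [one_smul, sub_mul, mul_assoc, e1, e1', (h1 t).1, sub_self]
    rw [one_smul] at a1
    exact sub_eq_zero.1 a1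
  have e3' : ∀ t u, t ≠ u → φ t * φ u = 0 := by
    intro t u htu
    refine zero_of hF hJ hFJ (emul _ _ (hφI t) (hφI u)) ?_ ?_
    · rw [mul_assoc, hφF]
    · rw [mul_assoc, e1, e1', h2 t u htu]
  have einj : Function.Injective φ := by
    intro t u htu
    by_contra hne'
    apply e0 t
    have a1 := e3' t u hne'
    rw [← htu, e3] at a1
    exact a1
  have eblk : ∀ t, IsBlock (⊤ : Subgroup B) (φ t) := by
    intro t
    refine ⟨mem_fixAlg.2 ⟨fun x _ => Subgroup.mem_top x, hφI t⟩, e3 t, e0 t, ?_⟩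
    intro z hz hzz hzφ
    have hzI := (mem_fixAlg.1 hz).2
    have a1 : z * J = z * j t := by
      calc z * J = z * φ t * J := by rw [hzφ]
        _ = z * j t := by rw [mul_assoc, e1]
    have a2 : j t * z * j t = z * j t := by
      rw [central hzI, mul_assoc, (h1 t).1]
    obtain ⟨c, hc⟩ := h4 z t
    rw [a2] at hc
    have a3 : z = c • φ t := by
      rw [← sub_eq_zero]
      refine zero_of hF hJ hFJ (esub _ _ hzI (hφI t) c) ?_ ?_
      · rw [sub_mul, smul_mul_assoc, hφF]
        congr 1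
        calc z * orbSum ⊤ F = z * φ t * orbSum ⊤ F := by rw [hzφ]
          _ = z := by rw [mul_assoc, hφF, hzφ]
      · rw [sub_mul, smul_mul_assoc, e1, a1, hc, sub_self]
    have a4 : c * c = c := by
      have a5 : (c * c) • j t = c • j t := by
        calc (c * c) • j t = c • (c • j t) := by rw [smul_smul]
          _ = c • (z * j t) := by rw [hc]
          _ = z * (c • j t) := by rw [mul_smul_comm]
          _ = z * (z * j t) := by rw [hc]
          _ = c • j t := by rw [← mul_assoc, hzz, hc]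
      have a6 : (c * c - c) • j t = 0 := by rw [sub_smul, a5, sub_self]
      rcases smul_eq_zero.1 a6 with a7 | a7
      · exact sub_eq_zero.1 a7
      · exact absurd a7 (h1 t).2.1
    rcases eq_or_ne c 0 with hc0 | hc0
    · left
      rw [a3, hc0, zero_smul]
    · right
      have hc1 : c = 1 := mul_left_cancel₀ hc0 (by rw [a4, mul_one])
      rw [a3, hc1, one_smul]
  have edz : ∀ t, IsDZ p (⊤ : Subgroup B) (φ t) := by
    intro t
    refine ⟨eblk t, ?_⟩
    intro P hP hpP hbr
    by_contra hne'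
    obtain ⟨x, hx, hx0⟩ := hbr
    apply hx0
    rw [hφ, ← trK_smul]
    exact coeff_trK_eq_zero hpP hP hne' _ hx
  have hfin : Finite {φ : MonoidAlgebra k B | IsDZ p (⊤ : Subgroup B) φ ∧ φ * orbSum ⊤ F = φ} :=
    ((finite_isBlock (k := k) (⊤ : Subgroup B)).subset fun φ hφ => hφ.1.blk).to_subtype
  have hcard := Nat.card_le_card_of_injective
    (fun t : Fin n => (⟨φ t, edz t, hφF t⟩ :
      {φ : MonoidAlgebra k B | IsDZ p (⊤ : Subgroup B) φ ∧ φ * orbSum ⊤ F = φ}))
    (fun t u h => einj (congrArg Subtype.val h))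
  rwa [Nat.card_eq_fintype_card, Fintype.card_fin] at hcard

end abs

section con

theorem normalizer_CD {D : Subgroup A} {n : A} (hn : n ∈ Subgroup.normalizer (D : Set A)) :
    n ∈ Subgroup.normalizer (CD D : Set A) := by
  have key : ∀ m ∈ Subgroup.normalizer (D : Set A), ∀ x ∈ CD D, m * x * m⁻¹ ∈ CD D := by
    intro m hm x hx
    rw [Subgroup.mem_centralizer_iff] at hx ⊢
    intro y hy
    have h1 : m⁻¹ * y * m ∈ D := by
      rw [Subgroup.mem_normalizer_iff] at hm
      apply (hm _).2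
      have e1 : m * (m⁻¹ * y * m) * m⁻¹ = y := by group
      rw [e1]
      exact hy
    have h2 := hx _ h1
    calc y * (m * x * m⁻¹) = m * ((m⁻¹ * y * m) * x) * m⁻¹ := by group
      _ = m * (x * (m⁻¹ * y * m)) * m⁻¹ := by rw [h2]
      _ = m * x * m⁻¹ * y := by group
  rw [Subgroup.mem_normalizer_iff]
  intro x
  constructor
  · exact key n hn x
  · intro h
    have h1 := key n⁻¹ (Subgroup.inv_mem _ hn) _ h
    have e1 : n⁻¹ * (n * x * n⁻¹) * n⁻¹⁻¹ = x := by group
    rwa [e1] at h1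

theorem normalizer_U (D : Subgroup A) (x : NQ D) :
    x ∈ Subgroup.normalizer (sec (CD D) D : Set (NQ D)) := by
  have key : ∀ x : NQ D, ∀ y ∈ sec (CD D) D, x * y * x⁻¹ ∈ sec (CD D) D := by
    intro x y hy
    obtain ⟨n, hn, rfl⟩ := qm_surj x
    obtain ⟨c, hc, hc', rfl⟩ := mem_sec.1 hy
    have h1 := (Subgroup.mem_normalizer_iff.1 (normalizer_CD hn) c).1 hc
    have h2 : n * c * n⁻¹ ∈ Subgroup.normalizer (D : Set A) :=
      Subgroup.mul_mem _ (Subgroup.mul_mem _ hn hc') (Subgroup.inv_mem _ hn)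
    have e1 : qm D n hn * qm D c hc' * (qm D n hn)⁻¹ = qm D (n * c * n⁻¹) h2 := rfl
    rw [e1]
    exact qm_mem_sec _ h1
  rw [Subgroup.mem_normalizer_iff]
  intro y
  constructor
  · exact key x y
  · intro h
    have h1 := key x⁻¹ _ h
    have e1 : x⁻¹ * (x * y * x⁻¹) * x⁻¹⁻¹ = y := by group
    rwa [e1] at h1

variable [Fact p.Prime] [CharP k p] [IsAlgClosed k] [Fintype A]
variable {b f i : MonoidAlgebra k A} {D : Subgroup A}

theorem F_ne (h : Root p b D f) {z : MonoidAlgebra k A}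
    (hz : z ∈ orb (Subgroup.normalizer (D : Set A)) f) : proj D z ≠ 0 := by
  obtain ⟨n, hn, rfl⟩ := mem_orb.1 hz
  rw [Fr.proj_cj f hn]
  intro h0
  apply (F_dz h).blk.ne_zero
  have h1 := congrArg (cj (qm D n hn)⁻¹) h0
  rw [cj_cj, inv_mul_cancel, cj_one_left, cj_zero] at h1
  exact h1

/-- the projections of different conjugates are different -/
theorem proj_inj (h : Root p b D f) {z z' : MonoidAlgebra k A}
    (hz : z ∈ orb (Subgroup.normalizer (D : Set A)) f)
    (hz' : z' ∈ orb (Subgroup.normalizer (D : Set A)) f) (he : proj D z = proj D z') :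
    z = z' := by
  have hle : Subgroup.normalizer (D : Set A) ≤ Subgroup.normalizer (CD D : Set A) :=
    fun n hn => normalizer_CD hn
  have h1 := orb_isBlock hle h.fblk z hz
  have h2 := orb_isBlock hle h.fblk z' hz'
  rcases h1.eq_or_mul_eq_zero h2 with h3 | h3
  · exact h3
  · exfalso
    apply F_ne h hz
    have i1 : InvBy D z := h1.invBy.mono (D_le_CD h.com)
    have i2 : InvBy D z' := h2.invBy.mono (D_le_CD h.com)
    have hpD := h.dfg.isPGroup
    calc proj D z = proj D (z * z) := by rw [h1.idem]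
      _ = proj D z * proj D z := proj_mul hpD i1 i1
      _ = proj D z * proj D z' := by rw [he]
      _ = proj D (z * z') := (proj_mul hpD i1 i2).symm
      _ = 0 := by rw [h3, WSumAux.proj_zero']

theorem resS_b (h : Root p b D f) :
    resS (CD D : Set A) b = orbSum (Subgroup.normalizer (D : Set A)) f := by
  classical
  have hle : Subgroup.normalizer (D : Set A) ≤ Subgroup.normalizer (CD D : Set A) :=
    fun n hn => normalizer_CD hn
  have hbI : InvBy (⊤ : Subgroup A) b := h.blk.invBy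
  have hbD : InvBy D b := hbI.mono le_top
  have hbN : ∀ n ∈ Subgroup.normalizer (D : Set A),
      cj n (resS (CD D : Set A) b) = resS (CD D : Set A) b := by
    intro n hn
    ext x
    rw [coeff_cj]
    have h1 := Subgroup.mem_normalizer_iff.1 (normalizer_CD hn) (n⁻¹ * x * n)
    have e1 : n * (n⁻¹ * x * n) * n⁻¹ = x := by group
    rw [e1] at h1
    have h2 := hbI n⁻¹ (Subgroup.mem_top _) x
    rw [inv_inv] at h2
    by_cases hx : x ∈ (CD D : Set A)
    · rw [coeff_resS_of_mem b hx, coeff_resS_of_mem b (h1.2 hx : n⁻¹ * x * n ∈ (CD D : Set A)),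
        h2]
    · rw [coeff_resS_of_notMem b hx,
        coeff_resS_of_notMem b (fun h' => hx (h1.1 h') : n⁻¹ * x * n ∉ (CD D : Set A))]
  have hCN : CD D ≤ Subgroup.normalizer (D : Set A) := Subgroup.centralizer_le_normalizer _
  have hmem : resS (CD D : Set A) b ∈ fixAlg k (CD D) (CD D) := by
    rw [mem_fixAlg]
    refine ⟨?_, ?_⟩
    · intro x hx
      by_contra h'
      exact hx (coeff_resS_of_notMem b h')
    · rw [invBy_iff_cj]
      exact fun g hg => hbN g (hCN hg)
  have hidem : resS (CD D : Set A) b * resS (CD D : Set A) b = resS (CD D : Set A) b := by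
    rw [← resS_CD_mul le_rfl h.dfg.isPGroup hbD hbD, h.blk.idem]
  rw [orbSum]
  refine (WSumAux.sum_blocks (p := p) hmem hidem
    (orb (Subgroup.normalizer (D : Set A)) f) ?_).symm
  intro z
  constructor
  · intro hz
    have h1 := orb_isBlock hle h.fblk z hz
    refine ⟨h1, ?_⟩
    obtain ⟨n, hn, rfl⟩ := mem_orb.1 hz
    have h2 : f * resS (CD D : Set A) b = f := by
      rw [commute_of h.fblk.suppIn (mem_fixAlg.1 hmem).2, h.bf]
    have h3 : cj n f * resS (CD D : Set A) b = cj n f := by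
      calc cj n f * resS (CD D : Set A) b = cj n f * cj n (resS (CD D : Set A) b) := by
            rw [hbN n hn]
        _ = cj n f := by rw [← cj_mul, h2]
    rw [h3]
    exact h1.ne_zero
  · rintro ⟨h1, h2⟩
    have h3 : resS (CD D : Set A) b * z = z := by
      rcases h1.mul_eq hmem hidem with h4 | h4
      · exact absurd (by rw [commute_of h1.suppIn (mem_fixAlg.1 hmem).2, h4]) h2
      · exact h4
    obtain ⟨n, hn, hnz⟩ := fm_top h.blk h.dfg h.fblk h1 h.bf h3
    exact mem_orb.2 ⟨n, hn, hnz⟩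

theorem proj_b (h : Root p b D f) [Fintype (NQ D)] :
    proj D b = orbSum (⊤ : Subgroup (NQ D)) (proj D f) := by
  classical
  have hbD : InvBy D b := h.blk.invBy.mono le_top
  rw [← Bw.NilBAux.proj_res h.dfg.isPGroup hbD]
  rw [show resS (Subgroup.centralizer (D : Set A) : Set A) b = _ from resS_b h, orbSum,
    WSumAux.proj_sum', orbSum]
  refine Finset.sum_bij (fun z _ => proj D z) ?_ ?_ ?_ ?_
  · intro z hz
    obtain ⟨n, hn, rfl⟩ := mem_orb.1 hz
    rw [Fr.proj_cj f hn]
    exact mem_orb.2 ⟨_, Subgroup.mem_top _, rfl⟩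
  · intro z hz z' hz' he
    exact proj_inj h hz hz' he
  · intro w hw
    obtain ⟨x, -, rfl⟩ := mem_orb.1 hw
    obtain ⟨n, hn, rfl⟩ := qm_surj x
    exact ⟨cj n f, mem_orb.2 ⟨n, hn, rfl⟩, Fr.proj_cj f hn⟩
  · intro z _
    rfl

theorem D_le_St (h : Root p b D f) : D ≤ St D f := (D_le_CD h.com).trans (CD_le_St h.fblk)

theorem stab (h : Root p b D f) (x : NQ D) :
    cj x (proj D f) = proj D f ↔ x ∈ sec (St D f) D := by
  obtain ⟨n, hn, rfl⟩ := qm_surj x
  rw [qm_mem_sec_iff (D_le_St h), mem_St, ← Fr.proj_cj f hn]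
  constructor
  · intro h1
    exact ⟨hn, proj_inj h (mem_orb.2 ⟨n, hn, rfl⟩) (self_mem_orb _ f) h1⟩
  · rintro ⟨-, h1⟩
    rw [h1]

theorem relIndex_sec (h : Root p b D f) :
    (sec (CD D) D).relIndex (sec (St D f) D) = eN D f := by
  have hDC := D_le_CD h.com
  have hDS := D_le_St h
  have hker : ∀ {K : Subgroup A}, D ≤ K →
      K.subgroupOf (Subgroup.normalizer (D : Set A)) ⊔
        (QuotientGroup.mk' (D.subgroupOf (Subgroup.normalizer (D : Set A)))).ker =
      K.subgroupOf (Subgroup.normalizer (D : Set A)) := by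
    intro K hK
    rw [QuotientGroup.ker_mk']
    exact sup_eq_left.2 (Subgroup.comap_mono hK)
  rw [sec, sec, Subgroup.relIndex_map_map, hker hDC, hker hDS, Subgroup.relIndex_subgroupOf, eN]
  intro g hg
  exact hg.1

end con

end WfAux

section
variable [Fact p.Prime] [CharP k p] [IsAlgClosed k] [Fintype A]
variable {b f i : MonoidAlgebra k A} {D : Subgroup A}

theorem wt_ge (h : Src p b D f i) (hE : ¬ p ∣ eN D f)
    (hc : ∃ g ∈ St D f, ∀ x ∈ St D f, ∃ n : ℕ, x * (g ^ n)⁻¹ ∈ CD D) :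
    eN D f ≤ Nat.card {φ : MonoidAlgebra k (NQ D) | IsDZ p (⊤ : Subgroup (NQ D)) φ ∧
      φ * proj D b = φ} := by
  have : Fintype (NQ D) := Fintype.ofFinite _
  obtain ⟨j, h1, h2, h3, h4⟩ := exists_cyc h hE hc
  rw [WfAux.proj_b h.root]
  have hUS : sec (CD D) D ≤ sec (St D f) D := sec_mono (CD_le_St h.root.fblk)
  refine WfAux.core (WfAux.normalizer_U D) (F_dz h.root) (J_prim h) (J_F h)
    (WfAux.stab h.root) hUS ?_ j h1 h2 h3 h4
  rw [WfAux.relIndex_sec h.root]
  intro h0
  exact hE ((CharP.cast_eq_zero_iff k p _).1 h0)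

end

end Pool.Agent.Lib.P0c8ca5.Ex
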