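import Mathlib
import Pool.Agent.Lib.P0c8ca5Ex.Wf
import Pool.Agent.Lib.P0c8ca5Ex.Wc
import Pool.Agent.Lib.P0c8ca5Se.Fin
import Pool.Agent.Lib.P0c8ca5Se.Pow

/-!
# Wg: the exact number of weights and of simple modules for a cyclic inertial quotient

PROOF of `wt_sum_ge`. As `wt_le` (Wc.lean): `D ∈ Theta p ⊤ ⊤ b` (the set of `wt_ge` is not empty because `eN D f ≠ 0`; `DZ p ⊤ b Q = {φ | IsDZ p (sec ⊤ Q) φ ∧ φ * proj Q b = φ}`, P0c8ca5.Official), so some `Q ∈ T` is conjugate to `D` and has the same number (P0c8ca5.Conj), at least `eN D f` by `wt_ge`.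
PROOF of `l_eq_cyc`. `exists_src`; `T` by `exists_transversal`; `gap p ⊤ ⊤ b = l - w` (`gap_eq`) with `w = eN D f` (`wt_le`, `wt_sum_ge`), and `gap p ⊤ ⊤ b = p * t` (`Se.gap_cent` with `Sg` from `Se.sg_comm`, `Γ = A`, `G = ⊤`); `0 ≤ l ≤ w < p`, `p ∣ l - w` and `l ≥ 1` (or `w - l < p`) give `l = w`. `¬ p ∣ eN D f` follows from `hE` and `eN D f ≠ 0` (`relIndex` of finite groups is positive).
-/

namespace Pool.Agent.Lib.P0c8ca5.Ex

open MonoidAlgebra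

universe u v

namespace WgAux

theorem sec_top {A : Type*} [Group A] (R : Subgroup A) : sec (⊤ : Subgroup A) R = ⊤ := by
  rw [eq_top_iff]
  intro w _
  obtain ⟨y, hy, rfl⟩ := qm_surj w
  exact mem_sec.2 ⟨y, Subgroup.mem_top y, hy, rfl⟩

end WgAux

theorem wt_sum_ge {p : ℕ} [Fact p.Prime] {k : Type*} [Field k] [CharP k p] [IsAlgClosed k]
    {A : Type*} [Group A] [Fintype A] {b f i : MonoidAlgebra k A} {D : Subgroup A}
    (h : Src p b D f i) (hE : ¬ p ∣ eN D f)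
    (hc : ∃ g ∈ St D f, ∀ x ∈ St D f, ∃ n : ℕ, x * (g ^ n)⁻¹ ∈ CD D)
    (T : Finset (Subgroup A)) (hT1 : ↑T ⊆ Theta p (⊤ : Subgroup A) ⊤ b)
    (hT2 : ∀ Q ∈ Theta p (⊤ : Subgroup A) ⊤ b, ∃! Q', Q' ∈ T ∧
      ∃ g ∈ (⊤ : Subgroup A), Q' = Q.map (MulAut.conj g).toMonoidHom) :
    eN D f ≤ ∑ Q ∈ T, Nat.card (DZ p (⊤ : Subgroup A) b Q) := by
  have hb := h.root.blk
  have hD := h.root.dfg
  have hDT : D ∈ Theta p (⊤ : Subgroup A) ⊤ b :=
    ⟨le_top, hD.isPGroup, top_sup_eq _, D, hD, inf_le_left⟩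
  obtain ⟨Q, ⟨hQT, g, hg, hQ⟩, -⟩ := hT2 D hDT
  have hQ' : Q = cg g D := hQ
  have e1 : DZ p (⊤ : Subgroup A) b Q
      = {φ | IsDZ p (sec (⊤ : Subgroup A) Q) φ ∧ φ * proj Q b = φ} :=
    DZ_eq le_top (hT1 hQT).2.1 hb
  have e2 : Nat.card (DZ p (⊤ : Subgroup A) b Q) = Nat.card {φ : MonoidAlgebra k (NQ D) |
      IsDZ p (⊤ : Subgroup (NQ D)) φ ∧ φ * proj D b = φ} := by
    rw [e1, hQ', card_cg_eq hb.suppIn hb.invBy hg, WgAux.sec_top]
  calc eN D f ≤ Nat.card {φ : MonoidAlgebra k (NQ D) |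
      IsDZ p (⊤ : Subgroup (NQ D)) φ ∧ φ * proj D b = φ} := wt_ge h hE hc
    _ = Nat.card (DZ p (⊤ : Subgroup A) b Q) := e2.symm
    _ ≤ ∑ Q ∈ T, Nat.card (DZ p (⊤ : Subgroup A) b Q) :=
      Finset.single_le_sum (f := fun Q => Nat.card (DZ p (⊤ : Subgroup A) b Q))
        (fun _ _ => Nat.zero_le _) hQT

theorem l_eq_cyc {p : ℕ} [Fact p.Prime] {k : Type v} [Field k] [IsAlgClosed k]
    [CharP k p] {A : Type u} [Group A] [Fintype A] {b : MonoidAlgebra k A} {D : Subgroup A}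
    {f : MonoidAlgebra k A} (h : Root p b D f) (hE : eN D f < p)
    (hc : ∃ g ∈ St D f, ∀ x ∈ St D f, ∃ n : ℕ, x * (g ^ n)⁻¹ ∈ CD D)
    (hl : Nat.card (Quotient (irrInvSetoid (⊤ : Subgroup A) ⊤ b)) ≤ eN D f) :
    Nat.card (Quotient (irrInvSetoid (⊤ : Subgroup A) ⊤ b)) = eN D f := by
  obtain ⟨i, hi⟩ := exists_src h
  obtain ⟨T, hT1, hT2⟩ := exists_transversal (⊤ : Subgroup A) (Theta p (⊤ : Subgroup A) ⊤ b)
  have h0 : eN D f ≠ 0 := Subgroup.index_ne_zero_of_finite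
  have hE' : ¬ p ∣ eN D f := fun hp =>
    absurd (Nat.le_of_dvd (Nat.pos_of_ne_zero h0) hp) (not_le.2 hE)
  have h1 := wt_le hi hE' T hT1 hT2
  have h2 := wt_sum_ge hi hE' hc T hT1 hT2
  have h3 : ∑ Q ∈ T, Nat.card (DZ p (⊤ : Subgroup A) b Q) = eN D f := le_antisymm h1 h2
  have h4 := gap_eq (p := p) le_rfl Subgroup.le_normalizer
    (fun x _ => ⟨0, Subgroup.mem_top _⟩) h.blk h.blk.invBy T hT1 hT2
  have : Subsingleton (A ⧸ (⊤ : Subgroup A)) := QuotientGroup.subsingleton_quotient_top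
  have hΓ : IsPGroup p (A ⧸ (⊤ : Subgroup A)) := fun x => ⟨0, Subsingleton.elim _ _⟩
  obtain ⟨t, ht⟩ := Se.gap_cent (⊤ : Subgroup A) hΓ h.blk h.blk.invBy h.dfg (Se.sg_comm h.com)
  rw [h4, h3] at ht
  have h5 : (Nat.card (Quotient (irrInvSetoid (⊤ : Subgroup A) ⊤ b)) : ℤ) - (eN D f : ℤ)
      = (p : ℤ) * t := by
    exact_mod_cast ht
  have h6 : (Nat.card (Quotient (irrInvSetoid (⊤ : Subgroup A) ⊤ b)) : ℤ) ≤ (eN D f : ℤ) := by
    exact_mod_cast hl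
  have h7 : (eN D f : ℤ) < (p : ℤ) := by exact_mod_cast hE
  have h8 : (0 : ℤ) ≤ (Nat.card (Quotient (irrInvSetoid (⊤ : Subgroup A) ⊤ b)) : ℤ) :=
    Nat.cast_nonneg _
  have h9 : t = 0 := by
    have hp : (0 : ℤ) < (p : ℤ) := by
      have := (Fact.out : p.Prime).pos
      exact_mod_cast this
    have t1 : t ≤ 0 := by
      by_contra hc'
      have : (p : ℤ) * 1 ≤ (p : ℤ) * t := mul_le_mul_of_nonneg_left (by omega) hp.le
      linarith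
    have t2 : 0 ≤ t := by
      by_contra hc'
      have : (p : ℤ) * t ≤ (p : ℤ) * (-1) := mul_le_mul_of_nonneg_left (by omega) hp.le
      linarith
    omega
  rw [h9, mul_zero, sub_eq_zero] at h5
  exact_mod_cast h5

end Pool.Agent.Lib.P0c8ca5.Ex
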