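import Mathlib
import Pool.Agent.Lib.P0c8ca5Ex.YV
import Pool.Agent.Lib.P0c8ca5Ex.ZD0

/-!
# ZDc: conjugation of the congruences modulo `q`

`cq_conj`: as the clause `cong` in `gok_conj` (YV), with `q` in place of `p`.
-/

set_option linter.unusedSectionVars false

namespace Pool.Agent.Lib.P0c8ca5.Ex

open MonoidAlgebra

section
variable {p : ℕ} [Fact p.Prime] {k : Type*} [Field k] [IsAlgClosed k] [CharP k p]
  {A : Type*} [Group A] [Finite A] {T : Type*} [CommGroup T] [Fintype T]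
  {φ : T →* A} {b f i : MonoidAlgebra k A} {D : Subgroup A} {Q : Subgroup T}
  {G : Subgroup T → A → KW p k}

theorem cq_conj (q : ℕ) (h : Src p b D f i) (hφ : Function.Injective φ)
    (hr : ∀ x, x ∈ D ↔ ∃ t, φ t = x) {s : A} (hs : s ∈ St D f) {α : MulAut T}
    (hα : ∀ t, φ (α t) = s * φ t * s⁻¹) (hC : Cq q φ D f i G (Q.map α.toMonoidHom)) :
    Cq q φ D f i (fun Q' y => G (Q'.map α.toMonoidHom) (s * y * s⁻¹)) Q := by
  have hm := mem_cq_conj hα Q
  let e := cje s hm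
  have hVA : ∀ {c : MonoidAlgebra k A} {X : ↥(cq φ (Q.map α.toMonoidHom)) → KW p k},
      (fun y => X (e y)) ∈ VA (p := p) (dnr (cq φ Q) c) ↔
        X ∈ VA (p := p) (dnr (cq φ (Q.map α.toMonoidHom)) (cj s c)) := by
    intro c X
    rw [← dnr_conj hm c]
    exact VA_me e
  intro c hc X hX Y hY
  have hinv : ∀ Z : ↥(cq φ Q) → KW p k, (fun y => (fun z => Z (e.symm z)) (e y)) = Z := by
    intro Z
    funext y
    change Z (e.symm (e y)) = Z y
    rw [e.symm_apply_apply]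
  have hX' : (fun z => X (e.symm z)) ∈
      VA (p := p) (dnr (cq φ (Q.map α.toMonoidHom)) (cj s c)) := by
    rw [← hVA, hinv]
    exact hX
  have hY' : (fun z => Y (e.symm z)) ∈
      VA (p := p) (dnr (cq φ (Q.map α.toMonoidHom)) (cj s c)) := by
    rw [← hVA, hinv]
    exact hY
  obtain ⟨m, a, a', h1, h2, h3, h4⟩ := hC _ (lbH_conj h hr hs hα hc) _ hX' _ hY'
  refine ⟨m, a, a', ?_, ?_, ?_, h4⟩
  · rw [← h1, eQ_conj hs hα, ← ip_me e (rg p fun z => X (e.symm z)), ← rg_me e, hinv, hinv]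
  · rw [← h2, ← ip_me e (fun z => X (e.symm z)), hinv]
    rfl
  · rw [← h3, ← ip_me e (fun z => Y (e.symm z)), hinv]
    rfl

end

end Pool.Agent.Lib.P0c8ca5.Ex
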