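import Mathlib
import Pool.Agent.Lib.P0c8ca5Ex.ZIa
import Pool.Agent.Lib.P0c8ca5Ex.ZB

/-!
# ZI: the uniqueness of `Γ`, any `|E|` (K2)

As `gr_unique` (YTb) with `Many` in place of `|E| + 3 ≤ p`: `gr_unique_of` (ZIa) and `ext_uniqL` (ZB).
-/

set_option linter.unusedSectionVars false

namespace Pool.Agent.Lib.P0c8ca5.Ex

open MonoidAlgebra

section
variable {p : ℕ} [Fact p.Prime] {k : Type*} [Field k] [IsAlgClosed k] [CharP k p]
  {A : Type*} [Group A] [Finite A] {T : Type*} [CommGroup T] [Fintype T]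
  {φ : T →* A} {b f i : MonoidAlgebra k A} {D : Subgroup A} {R : Subgroup T}
  {G : Subgroup T → A → KW p k}

theorem gr_uniqueL (h : Stp φ b D f i R G) (hE : ¬ p ∣ eN D f)
    (hM : Many (KW p k) (EG φ D f) R) {Γ Γ' : A → KW p k}
    (hΓ : GR φ b D f R G Γ) (hΓ' : GR φ b D f R G Γ') : Γ = Γ' := by
  have hE' : ¬ p ∣ Nat.card (EG φ D f) := by
    rw [card_EG h.inj h.ran]
    exact hE
  refine gr_unique_of h hE' (fun B ψ ψ' h1 h2 h3 h4 h5 h6 h7 => ?_) hΓ hΓ'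
  exact ext_uniqL Fact.out (isP_stp h) hE' (fun α hα z hz => YFAux.al_fix h hα hz) hM h1 h2 h3 h4
    h5 h6 h7

end

end Pool.Agent.Lib.P0c8ca5.Ex
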